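import Pool.Agent.H47.B1.M26

/-! The parts of this file: H36.IS.MerC, H36.IS.AsyB, H36.IS.TrI, H36.IS.ClsB, H36.IS2.WtLU, H36.IS.SumI, H36.IS.Ptw. -/

section

/-!
# IS MerC: lower bound for the main term

`Mn_low`: ∏_{p ≤ z0, p ∤ W} (1 - k/p) with k < p for all primes p ∤ W: 1 - k/p ≥ 1/p ≥ 1/(2k+1) for p ≤ 2k+1 (finitely many), and
1 - k/p ≥ (1 + 2k/p)^{-1}... ≥ (1 + 2k fn p)^{-1} for p ≥ 2k (since (1-t)(1+2t) ≥ 1 for 0 ≤ t ≤ 1/2);
so the product is ≥ c ∏_{p ≤ x} (1 + 2k fn p)^{-1} ≥ c (log x)^{-B} by `euler_pow`.  Mn = x/W · product.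
(Proof below: 1 - k/p ≥ (1 + k² fn p)^{-1} for all p ≥ k + 1.)
-/

set_option autoImplicit false

namespace Pool.Agent.H36.IS

open Finset Filter

private theorem MerC_fac {k : ℕ} {p : ℕ} (hp : p.Prime) (hk : k < p) :
    (1 + (k : ℝ) ^ 2 * fn p)⁻¹ ≤ 1 - (k : ℝ) / p := by
  have hp2 : (2 : ℝ) ≤ p := by exact_mod_cast hp.two_le
  have hk1 : (k : ℝ) + 1 ≤ p := by exact_mod_cast hk
  have hp1 : 0 < (p : ℝ) - 1 := by linarith
  have hp0 : 0 < (p : ℝ) := by linarith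
  have hk0 : (0 : ℝ) ≤ k := Nat.cast_nonneg k
  unfold fn
  have e1 : (1 + (k : ℝ) ^ 2 * (1 / ((p : ℝ) - 1)))⁻¹ = (p - 1) / (p - 1 + (k : ℝ) ^ 2) := by
    have : 1 + (k : ℝ) ^ 2 * (1 / ((p : ℝ) - 1)) = (p - 1 + (k : ℝ) ^ 2) / (p - 1) := by
      field_simp
    rw [this, inv_div]
  have e2 : 1 - (k : ℝ) / p = (p - k) / p := by
    field_simp
  rw [e1, e2, div_le_div_iff₀ (by positivity) hp0]
  have h1 : 0 ≤ (k : ℝ) * (k - 1) := by
    rcases Nat.eq_zero_or_pos k with h | h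
    · rw [h]
      simp
    · have : (1 : ℝ) ≤ k := by exact_mod_cast h
      exact mul_nonneg hk0 (by linarith)
  have h2 := mul_nonneg h1 (by linarith : (0 : ℝ) ≤ p - (k + 1))
  nlinarith

theorem Mn_low (ι : Type) [Fintype ι] [DecidableEq ι] (h : ι → ℕ) (W b : ℕ) (hG : Good h W b) :
    ∃ B : ℕ, ∀ᶠ x : ℕ in atTop, (x : ℝ) / Real.log x ^ B ≤ Mn ι W x := by
  set k : ℕ := Fintype.card ι with hk
  obtain ⟨B, hB⟩ := euler_pow ((k : ℝ) ^ 2) (by positivity)
  have hW : (0 : ℝ) < W := by exact_mod_cast hG.1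
  have hlog : ∀ᶠ x : ℕ in atTop, (W : ℝ) ≤ Real.log x :=
    (Real.tendsto_log_atTop.comp tendsto_natCast_atTop_atTop).eventually_ge_atTop _
  refine ⟨B + 1, ?_⟩
  filter_upwards [hB, hlog] with x hx hl
  have hL : 0 < Real.log x := lt_of_lt_of_le hW hl
  have hfn : ∀ p : ℕ, p.Prime → 0 ≤ fn p := by
    intro p hp
    have : (2 : ℝ) ≤ p := by exact_mod_cast hp.two_le
    unfold fn
    exact one_div_nonneg.2 (by linarith)
  have hsub : PS W x ⊆ (range (x + 1)).filter Nat.Prime := by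
    intro p hp
    unfold PS PA at hp
    rw [mem_filter, mem_filter] at hp
    rw [mem_filter]
    exact ⟨hp.1.1, hp.1.2.1⟩
  have h1 : ∀ p ∈ PS W x, (1 + (k : ℝ) ^ 2 * fn p)⁻¹ ≤ 1 - (k : ℝ) / p := by
    intro p hp
    have hp' := (mem_filter.1 (hsub hp)).2
    have hpW : ¬ p ∣ W := by
      unfold PS at hp
      exact (mem_filter.1 hp).2
    exact MerC_fac hp' (hG.2.2 p hp' hpW).1
  have h2 : ∏ p ∈ PS W x, (1 + (k : ℝ) ^ 2 * fn p)⁻¹ ≤ ∏ p ∈ PS W x, (1 - (k : ℝ) / p) :=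
    prod_le_prod (fun p hp => by
      have := hfn p (mem_filter.1 (hsub hp)).2
      positivity) h1
  have h3 : ∏ p ∈ PS W x, (1 + (k : ℝ) ^ 2 * fn p) ≤
      ∏ p ∈ (range (x + 1)).filter Nat.Prime, (1 + (k : ℝ) ^ 2 * fn p) := by
    rw [← prod_sdiff hsub]
    refine le_mul_of_one_le_left (prod_nonneg fun p hp => ?_) ?_
    · have := hfn p (mem_filter.1 (hsub hp)).2
      positivity
    · calc (1 : ℝ) = ∏ p ∈ (range (x + 1)).filter Nat.Prime \ PS W x, (1 : ℝ) := by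
            rw [prod_const_one]
        _ ≤ _ := prod_le_prod (fun _ _ => zero_le_one) fun p hp => by
            have := hfn p (mem_filter.1 (Finset.mem_sdiff.1 hp).1).2
            have h4 : 0 ≤ (k : ℝ) ^ 2 * fn p := by positivity
            linarith
  have h4 : 0 < ∏ p ∈ PS W x, (1 + (k : ℝ) ^ 2 * fn p) :=
    prod_pos fun p hp => by
      have := hfn p (mem_filter.1 (hsub hp)).2
      positivity
  have h5 : (Real.log x ^ B)⁻¹ ≤ ∏ p ∈ PS W x, (1 - (k : ℝ) / p) := by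
    refine le_trans ?_ h2
    rw [prod_inv_distrib]
    exact inv_anti₀ h4 (h3.trans hx)
  unfold Mn
  rw [← hk]
  have h6 : (x : ℝ) / Real.log x ^ (B + 1) ≤ (x : ℝ) / W * (Real.log x ^ B)⁻¹ := by
    rw [pow_succ, div_eq_mul_inv, mul_inv, div_eq_mul_inv, mul_assoc]
    refine mul_le_mul_of_nonneg_left ?_ (Nat.cast_nonneg x)
    rw [mul_comm]
    refine mul_le_mul_of_nonneg_right ?_ (by positivity)
    exact inv_anti₀ hW hl
  exact h6.trans (mul_le_mul_of_nonneg_left h5 (by positivity))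

end Pool.Agent.H36.IS

end

section

/-!
# IS AsyB: the Brun tail, and the change of density

* `brun_tail`: L = log x, l = log L, log z0 = L/l².  Take t + 1 = ⌊η l²⌋: z0^(t+1) ≤ x^η.  ∑_{p≤z0} fn p ≤ l + C (`sum_fn_le`), so with
  m = t+1 ≥ η l²/2:  (k(l+C))^m/m! ≤ (e k (l+C)/m)^m ≤ (4 e k (l+C)/(η l²)·...)^m, the base is ≤ e^{-1} for large l (it is O(1/l)) and
  m ≥ (A+1) l + 1; so 2(..) ≤ 2 e^{-m} ≤ L^{-A}.   (m! ≥ (m/e)^m.)
* `fn_gi`: for Q ⊆ EX with ∏_{e∈Q} e.2 ≤ x: |Q| log z0 ≤ log x, so |Q| ≤ l²; with a_e = gi e = 1/p ≤ fn e.2 = 1/(p-1),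
  0 ≤ ∏ fn - ∏ gi = ∏ fn (1 - ∏(1-1/p)) ≤ ∏ fn · |Q|/z0 ≤ ∏ fn · l²/z0 ≤ ∏ fn/(log x)^A.
-/

set_option autoImplicit false

namespace Pool.Agent.H36.IS

open Finset Filter

private theorem AsyB_L : Tendsto (fun x : ℕ => Real.log (x : ℝ)) atTop atTop :=
  Real.tendsto_log_atTop.comp tendsto_natCast_atTop_atTop

private theorem AsyB_l : Tendsto (fun x : ℕ => Real.log (Real.log (x : ℝ))) atTop atTop :=
  Real.tendsto_log_atTop.comp AsyB_L

private theorem AsyB_fn_nonneg {p : ℕ} (hp : 1 ≤ p) : 0 ≤ fn p := by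
  unfold fn
  have : (1 : ℝ) ≤ p := by exact_mod_cast hp
  exact div_nonneg zero_le_one (by linarith)

private theorem AsyB_pow_le (y : ℝ) (hy : 0 ≤ y) (m : ℕ) :
    y ^ m / (m.factorial : ℝ) ≤ Real.exp (Real.exp 1 * y - m) := by
  have h1 := Real.pow_div_factorial_le_exp (Real.exp 1 * y) (mul_nonneg (Real.exp_pos 1).le hy) m
  rw [mul_pow, ← Real.exp_nat_mul, mul_one] at h1
  rw [Real.exp_sub, le_div_iff₀ (Real.exp_pos _)]
  calc y ^ m / (m.factorial : ℝ) * Real.exp m = Real.exp m * y ^ m / (m.factorial : ℝ) := by ring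
    _ ≤ _ := h1

private theorem AsyB_quad (η a b : ℝ) (hη : 0 < η) : ∀ᶠ l : ℝ in atTop, a * l + b ≤ η * l ^ 2 := by
  filter_upwards [eventually_ge_atTop 1, eventually_ge_atTop ((|a| + |b|) / η)] with l h1 h2
  rw [div_le_iff₀ hη] at h2
  have h3 : a * l ≤ |a| * l := mul_le_mul_of_nonneg_right (le_abs_self a) (by linarith)
  have h4 : b ≤ |b| * l := (le_abs_self b).trans (le_mul_of_one_le_right (abs_nonneg b) h1)
  nlinarith [mul_le_mul_of_nonneg_right h2 (by linarith : (0 : ℝ) ≤ l)]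

theorem brun_tail (k : ℝ) (A : ℕ) (η : ℝ) (hk : 0 ≤ k) (hη : 0 < η) : ∀ᶠ x : ℕ in atTop, ∃ t : ℕ,
    z0 x ^ (t + 1) ≤ (x : ℝ) ^ η ∧
      2 * (k * ∑ p ∈ PA x, fn p) ^ (t + 1) / (t + 1).factorial ≤ 1 / Real.log x ^ A := by
  obtain ⟨C, hC⟩ := sum_fn_le
  have hq := AsyB_l.eventually (AsyB_quad η (A + Real.exp 1 * k) (Real.exp 1 * k * C + 3) hη)
  filter_upwards [hC, hq, AsyB_l.eventually (eventually_ge_atTop 1), AsyB_L.eventually (eventually_ge_atTop 1),
    eventually_ge_atTop 2, AsyB_l.eventually (AsyB_quad η 0 1 hη)] with x hx hq hl hL hx2 hq1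
  set L := Real.log (x : ℝ) with hLd
  set l := Real.log L with hld
  have hxpos : (0 : ℝ) < x := by
    have : 0 < x := by omega
    exact_mod_cast this
  set m := ⌊η * l ^ 2⌋₊ with hm
  have hm1 : 1 ≤ m := by
    rw [hm]
    apply Nat.le_floor
    push_cast
    linarith
  have hmle : (m : ℝ) ≤ η * l ^ 2 := Nat.floor_le (by positivity)
  have hmge : η * l ^ 2 - 1 < m := by
    have := Nat.lt_floor_add_one (η * l ^ 2)
    rw [← hm] at this
    linarith
  refine ⟨m - 1, ?_, ?_⟩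
  · rw [Nat.sub_add_cancel hm1]
    unfold z0
    rw [← Real.exp_nat_mul, Real.rpow_def_of_pos hxpos]
    apply Real.exp_le_exp.mpr
    rw [← hLd, ← hld]
    have hl2 : 0 < l ^ 2 := by positivity
    have : (m : ℝ) * (L / l ^ 2) ≤ (η * l ^ 2) * (L / l ^ 2) :=
      mul_le_mul_of_nonneg_right hmle (by positivity)
    calc (m : ℝ) * (L / l ^ 2) ≤ (η * l ^ 2) * (L / l ^ 2) := this
      _ = L * η := by field_simp
  · rw [Nat.sub_add_cancel hm1]
    set S := ∑ p ∈ PA x, fn p with hS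
    have hS0 : 0 ≤ S := by
      apply Finset.sum_nonneg
      intro p hp
      unfold PA at hp
      rw [Finset.mem_filter] at hp
      exact AsyB_fn_nonneg hp.2.1.one_lt.le
    have hSle : S ≤ l + C := by
      refine le_trans ?_ hx
      apply Finset.sum_le_sum_of_subset_of_nonneg
      · intro p hp
        unfold PA at hp
        rw [Finset.mem_filter] at hp ⊢
        exact ⟨hp.1, hp.2.1⟩
      · intro p hp _
        rw [Finset.mem_filter] at hp
        exact AsyB_fn_nonneg hp.2.one_lt.le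
    have h1 := AsyB_pow_le (k * S) (mul_nonneg hk hS0) m
    have h2 : (2 : ℝ) ≤ Real.exp 1 := by
      have := Real.add_one_le_exp (1 : ℝ)
      linarith
    have hLA : L ^ A = Real.exp (A * l) := by
      rw [Real.exp_nat_mul, hld, Real.exp_log (by linarith)]
    rw [hLA, one_div, ← Real.exp_neg]
    calc 2 * (k * S) ^ m / (m.factorial : ℝ) = 2 * ((k * S) ^ m / (m.factorial : ℝ)) := by ring
      _ ≤ Real.exp 1 * Real.exp (Real.exp 1 * (k * S) - m) :=
          mul_le_mul h2 h1 (by positivity) (by positivity)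
      _ = Real.exp (1 + (Real.exp 1 * (k * S) - m)) := by rw [Real.exp_add]
      _ ≤ Real.exp (-(A * l)) := by
          apply Real.exp_le_exp.mpr
          have h3 : Real.exp 1 * (k * S) ≤ Real.exp 1 * k * (l + C) := by
            rw [← mul_assoc]
            exact mul_le_mul_of_nonneg_left hSle (by positivity)
          nlinarith

private theorem AsyB_prod {α : Type*} [DecidableEq α] (s : Finset α) (f : α → ℝ) (h0 : ∀ e ∈ s, 0 ≤ f e)
    (h1 : ∀ e ∈ s, f e ≤ 1) : 1 - ∑ e ∈ s, f e ≤ ∏ e ∈ s, (1 - f e) ∧ ∏ e ∈ s, (1 - f e) ≤ 1 ∧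
      0 ≤ ∏ e ∈ s, (1 - f e) := by
  induction s using Finset.induction_on with
  | empty => simp
  | insert a s ha ih =>
    obtain ⟨i1, i2, i3⟩ := ih (fun e he => h0 e (Finset.mem_insert_of_mem he))
      (fun e he => h1 e (Finset.mem_insert_of_mem he))
    rw [Finset.sum_insert ha, Finset.prod_insert ha]
    have ha0 := h0 a (Finset.mem_insert_self _ _)
    have ha1 := h1 a (Finset.mem_insert_self _ _)
    refine ⟨?_, ?_, mul_nonneg (by linarith) i3⟩
    · nlinarith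
    · nlinarith

theorem fn_gi (ι : Type) [Fintype ι] [DecidableEq ι] (A : ℕ) : ∀ᶠ x : ℕ in atTop,
    ∀ Q : Finset (ι × ℕ), Q ⊆ EX ι x → ∏ e ∈ Q, (e.2 : ℝ) ≤ x →
      |∏ e ∈ Q, fn e.2 - ∏ e ∈ Q, gi e| ≤ (∏ e ∈ Q, fn e.2) / Real.log x ^ A := by
  have hexp : ∀ᶠ l : ℝ in atTop, ((A : ℝ) + 1) * l ^ 3 ≤ Real.exp l := by
    have h := (Real.tendsto_exp_div_pow_atTop 3).eventually (eventually_ge_atTop ((A : ℝ) + 1))
    filter_upwards [h, eventually_gt_atTop 0] with l h1 h2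
    rwa [le_div_iff₀ (by positivity)] at h1
  filter_upwards [AsyB_l.eventually hexp, AsyB_l.eventually (eventually_ge_atTop 1),
    AsyB_L.eventually (eventually_ge_atTop 1), eventually_ge_atTop 2] with x hx hl hL hx2 Q hQ hprod
  set L := Real.log (x : ℝ) with hLd
  set l := Real.log L with hld
  have hxpos : (0 : ℝ) < x := by
    have : 0 < x := by omega
    exact_mod_cast this
  have hz0 : 0 < z0 x := Real.exp_pos _
  have hmem : ∀ e ∈ Q, e.2.Prime ∧ z0 x < (e.2 : ℝ) := by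
    intro e he
    have := hQ he
    unfold EX PX at this
    rw [Finset.mem_product, Finset.mem_filter] at this
    exact this.2.2
  have hl2 : 0 < l ^ 2 := by positivity
  -- the cardinality
  have hcard : (Q.card : ℝ) ≤ l ^ 2 := by
    have h1 : z0 x ^ Q.card ≤ x := by
      refine le_trans ?_ hprod
      rw [← Finset.prod_const]
      exact Finset.prod_le_prod (fun _ _ => hz0.le) (fun e he => (hmem e he).2.le)
    have h2 : Real.log (z0 x ^ Q.card) ≤ L := Real.log_le_log (by positivity) h1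
    rw [Real.log_pow, z0, Real.log_exp, ← hLd, ← hld] at h2
    rw [← mul_div_assoc, div_le_iff₀ hl2] at h2
    have hLpos : 0 < L := by linarith
    nlinarith
  have hfac : ∏ e ∈ Q, gi e = (∏ e ∈ Q, fn e.2) * ∏ e ∈ Q, (1 - 1 / (e.2 : ℝ)) := by
    rw [← Finset.prod_mul_distrib]
    apply Finset.prod_congr rfl
    intro e he
    have hp := (hmem e he).1.one_lt
    have hp' : (1 : ℝ) < e.2 := by exact_mod_cast hp
    unfold gi fn
    have : (e.2 : ℝ) - 1 ≠ 0 := by linarith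
    field_simp
  have hF0 : 0 ≤ ∏ e ∈ Q, fn e.2 :=
    Finset.prod_nonneg (fun e he => AsyB_fn_nonneg (hmem e he).1.one_lt.le)
  obtain ⟨p1, p2, p3⟩ := AsyB_prod Q (fun e => 1 / (e.2 : ℝ)) (fun e _ => by positivity) (fun e he => by
    have hp := (hmem e he).1.one_lt
    have hp' : (1 : ℝ) < e.2 := by exact_mod_cast hp
    rw [div_le_one (by linarith)]
    exact hp'.le)
  have hsum : ∑ e ∈ Q, 1 / (e.2 : ℝ) ≤ l ^ 2 / z0 x := by
    calc ∑ e ∈ Q, 1 / (e.2 : ℝ) ≤ ∑ _e ∈ Q, 1 / z0 x := by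
          apply Finset.sum_le_sum
          intro e he
          exact one_div_le_one_div_of_le hz0 (hmem e he).2.le
      _ = Q.card * (1 / z0 x) := by rw [Finset.sum_const, nsmul_eq_mul]
      _ ≤ l ^ 2 * (1 / z0 x) := mul_le_mul_of_nonneg_right hcard (by positivity)
      _ = _ := by ring
  have hLA : L ^ A = Real.exp (A * l) := by
    rw [Real.exp_nat_mul, hld, Real.exp_log (by linarith)]
  have hLe : L = Real.exp l := by rw [hld, Real.exp_log (by linarith)]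
  have hkey : l ^ 2 / z0 x ≤ 1 / L ^ A := by
    rw [div_le_div_iff₀ hz0 (by positivity), one_mul, hLA, z0, ← hLd, ← hld]
    have h1 : l ^ 2 ≤ Real.exp l := by
      have : l ^ 2 ≤ ((A : ℝ) + 1) * l ^ 3 := by
        have hA : (0 : ℝ) ≤ A := Nat.cast_nonneg A
        have : l ^ 2 ≤ l ^ 3 := pow_le_pow_right₀ hl (by norm_num)
        have h3 : 0 ≤ l ^ 3 := by positivity
        nlinarith
      linarith
    calc l ^ 2 * Real.exp (A * l) ≤ Real.exp l * Real.exp (A * l) :=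
          mul_le_mul_of_nonneg_right h1 (Real.exp_pos _).le
      _ = Real.exp (l + A * l) := by rw [Real.exp_add]
      _ ≤ Real.exp (L / l ^ 2) := by
          apply Real.exp_le_exp.mpr
          rw [le_div_iff₀ hl2, hLe]
          calc (l + A * l) * l ^ 2 = ((A : ℝ) + 1) * l ^ 3 := by ring
            _ ≤ _ := hx
  rw [hfac]
  have : ∏ e ∈ Q, fn e.2 - (∏ e ∈ Q, fn e.2) * ∏ e ∈ Q, (1 - 1 / (e.2 : ℝ)) =
      (∏ e ∈ Q, fn e.2) * (1 - ∏ e ∈ Q, (1 - 1 / (e.2 : ℝ))) := by ring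
  rw [this, abs_of_nonneg (mul_nonneg hF0 (by linarith)), div_eq_mul_one_div]
  exact mul_le_mul_of_nonneg_left (by linarith) hF0

end Pool.Agent.H36.IS

end

section

/-!
# IS TrI: transfer for the integers

Apply `trAbs` with J = univ, N = {n ∈ (x,2x], n ≡ b mod W}, P0 = PS W x, P1 = PX x (for large x, z0 x > W so no p ∈ PX divides
W; Good gives k < p and distinct classes), g p = 1/p, X0 = x/W, e Z = 1 (a class mod W ∏Z in an interval of x integers;
Nat.count / `Int.Ioc_filter_modEq_card`; CRT: the conditions n ≡ b (W), n ≡ -h (φ p) (p), p ∈ Z, form one class mod W ∏_Z p,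
W and Z being coprime), t from `brun_tail` with η/4, z = max 1 (z0 x), D = x^(1-η), K = (log x)^B.
Then J ×ˢ P1 = EX ι x, the filtered N is AA h W b x, the main term is Mn ι W x · Ev (EX) c gi, and the three error terms are
 (a) (x/W) (∑|c| ∏ gi) 2(k ∑ 1/p)^(t+1)/(t+1)! ≤ x L^B L^B' L^{-A'} (`l1_le`, `brun_tail`; 1/p ≤ fn p),
 (b) (x/W) L^B incons ≤ x L^{-A'} (`incons_le`),
 (c) L^B ∑_{∏Z ≤ x^(1-η) z0^(t+1)} (k(M+1))^|Z| ≤ L^B x^(1-3η/4) L^B'' (`sum_pow_le`, `euler_pow`).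
-/

set_option autoImplicit false

namespace Pool.Agent.H36.IS

open Finset Filter

/-- `z0 x → ∞` -/
private theorem TrI_z0_tendsto : Tendsto z0 atTop atTop := by
  have h1 : Tendsto (fun u : ℝ => u / (Real.log u) ^ 2) atTop atTop := by
    have h := Real.isLittleO_pow_log_id_atTop (n := 2)
    have h2 : Tendsto (fun u : ℝ => Real.log u ^ 2 / u) atTop (nhds 0) := by
      have := h.tendsto_div_nhds_zero
      simpa using this
    have h3 : ∀ᶠ u : ℝ in atTop, 0 < Real.log u ^ 2 / u := by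
      filter_upwards [eventually_gt_atTop (Real.exp 1)] with u hu
      have hu1 : 1 < Real.exp 1 := by
        have := Real.add_one_lt_exp (x := 1) one_ne_zero
        linarith
      have hu2 : 0 < u := by linarith
      have hu3 : 0 < Real.log u := Real.log_pos (by linarith)
      positivity
    have h4 : Tendsto (fun u : ℝ => Real.log u ^ 2 / u) atTop (nhdsWithin 0 (Set.Ioi 0)) :=
      tendsto_nhdsWithin_iff.mpr ⟨h2, h3⟩
    have h5 := h4.inv_tendsto_nhdsGT_zero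
    refine h5.congr (fun u => ?_)
    simp [Pi.inv_apply, inv_div]
  have h6 : Tendsto (fun x : ℕ => Real.log (x : ℝ)) atTop atTop :=
    Real.tendsto_log_atTop.comp tendsto_natCast_atTop_atTop
  exact Real.tendsto_exp_atTop.comp (h1.comp h6)

/-- the number of integers of a residue class in `(x, 2x]` -/
private theorem TrI_class_count (x q v : ℕ) (hq : 0 < q) :
    |(((Ioc x (2 * x)).filter (fun n => n ≡ v [MOD q])).card : ℝ) - (x : ℝ) / q| ≤ 1 := by
  have h := Nat.Ioc_filter_modEq_card x (2 * x) hq v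
  have hqR : (0 : ℝ) < q := by exact_mod_cast hq
  set α : ℚ := ((2 * x : ℕ) - (v : ℚ)) / q with hα
  set β : ℚ := ((x : ℕ) - (v : ℚ)) / q with hβ
  have hαβ : α - β = (x : ℚ) / q := by
    rw [hα, hβ]; push_cast; ring
  have hmono : β ≤ α := by
    have : (0 : ℚ) ≤ (x : ℚ) / q := by positivity
    linarith
  have hfl : ⌊β⌋ ≤ ⌊α⌋ := Int.floor_le_floor hmono
  have hmax : max (⌊α⌋ - ⌊β⌋) 0 = ⌊α⌋ - ⌊β⌋ := max_eq_left (by linarith)
  have hc : (((Ioc x (2 * x)).filter (fun n => n ≡ v [MOD q])).card : ℤ) = ⌊α⌋ - ⌊β⌋ := by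
    rw [← hmax]; exact_mod_cast h
  have h1 : ((⌊α⌋ : ℤ) : ℚ) ≤ α := Int.floor_le α
  have h2 : α < ((⌊α⌋ : ℤ) : ℚ) + 1 := Int.lt_floor_add_one α
  have h3 : ((⌊β⌋ : ℤ) : ℚ) ≤ β := Int.floor_le β
  have h4 : β < ((⌊β⌋ : ℤ) : ℚ) + 1 := Int.lt_floor_add_one β
  have hcQ : (((Ioc x (2 * x)).filter (fun n => n ≡ v [MOD q])).card : ℚ) = (⌊α⌋ : ℚ) - (⌊β⌋ : ℚ) := by
    exact_mod_cast hc
  have hQ : |(((Ioc x (2 * x)).filter (fun n => n ≡ v [MOD q])).card : ℚ) - (x : ℚ) / q| ≤ 1 := by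
    rw [hcQ, ← hαβ, abs_le]
    constructor <;> linarith
  have := (Rat.cast_le (K := ℝ)).mpr hQ
  push_cast at this
  exact this

/-- CRT -/
private theorem TrI_crt {ι : Type} (h : ι → ℕ) (W b : ℕ) (Z : Finset ℕ) (hZ : ∀ p ∈ Z, p.Prime ∧ ¬ p ∣ W)
    (φ : ℕ → ι) : ∃ v : ℕ, ∀ n : ℕ, (n ≡ b [MOD W] ∧ ∀ p ∈ Z, p ∣ n + h (φ p)) ↔ n ≡ v [MOD (W * ∏ p ∈ Z, p)] := by
  classical
  induction Z using Finset.induction_on with
  | empty => exact ⟨b, fun n => by simp⟩
  | insert p Z hp ih =>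
    obtain ⟨v, hv⟩ := ih (fun q hq => hZ q (Finset.mem_insert_of_mem hq))
    have hpp := (hZ p (Finset.mem_insert_self _ _)).1
    have hpW := (hZ p (Finset.mem_insert_self _ _)).2
    have hcop : Nat.Coprime (W * ∏ q ∈ Z, q) p := by
      refine Nat.Coprime.mul_left ?_ ?_
      · exact (Nat.Coprime.symm ((Nat.Prime.coprime_iff_not_dvd hpp).mpr hpW))
      · refine Nat.Coprime.prod_left (fun q hq => ?_)
        have hqq := (hZ q (Finset.mem_insert_of_mem hq)).1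
        exact (Nat.coprime_primes hqq hpp).mpr (fun he => hp (he ▸ hq))
    -- a number a with p ∣ a + h (φ p)
    have hex : ∃ a : ℕ, p ∣ a + h (φ p) := ⟨h (φ p) * (p - 1), by
      have : h (φ p) * (p - 1) + h (φ p) = h (φ p) * p := by
        have hp1 : 1 ≤ p := hpp.one_lt.le
        calc h (φ p) * (p - 1) + h (φ p) = h (φ p) * (p - 1 + 1) := by ring
          _ = h (φ p) * p := by rw [Nat.sub_add_cancel hp1]
      rw [this]; exact dvd_mul_left _ _⟩
    obtain ⟨a, ha⟩ := hex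
    obtain ⟨w, hw1, hw2⟩ := Nat.chineseRemainder hcop v a
    refine ⟨w, fun n => ?_⟩
    have hdv : ∀ n : ℕ, p ∣ n + h (φ p) ↔ n ≡ a [MOD p] := by
      intro n
      constructor
      · intro hn
        have h1 : n + h (φ p) ≡ a + h (φ p) [MOD p] :=
          ((Nat.modEq_zero_iff_dvd).mpr hn).trans ((Nat.modEq_zero_iff_dvd).mpr ha).symm
        exact Nat.ModEq.add_right_cancel' _ h1
      · intro hn
        have h1 : n + h (φ p) ≡ a + h (φ p) [MOD p] := Nat.ModEq.add_right _ hn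
        exact (Nat.modEq_zero_iff_dvd).mp (h1.trans ((Nat.modEq_zero_iff_dvd).mpr ha))
    rw [Finset.prod_insert hp]
    have hmul : W * (p * ∏ q ∈ Z, q) = (W * ∏ q ∈ Z, q) * p := by ring
    rw [hmul]
    constructor
    · rintro ⟨h1, h2⟩
      have h3 : n ≡ v [MOD (W * ∏ q ∈ Z, q)] := (hv n).mp ⟨h1, fun q hq => h2 q (Finset.mem_insert_of_mem hq)⟩
      have h4 : n ≡ a [MOD p] := (hdv n).mp (h2 p (Finset.mem_insert_self _ _))
      exact (Nat.modEq_and_modEq_iff_modEq_mul hcop).mp ⟨h3.trans hw1.symm, h4.trans hw2.symm⟩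
    · intro h1
      obtain ⟨h3, h4⟩ := (Nat.modEq_and_modEq_iff_modEq_mul hcop).mpr h1
      have h5 := (hv n).mpr (h3.trans hw1)
      refine ⟨h5.1, fun q hq => ?_⟩
      rcases Finset.mem_insert.mp hq with rfl | hq
      · exact (hdv n).mpr (h4.trans hw2)
      · exact h5.2 q hq

/-- the count of integers in a system of classes -/
private theorem TrI_hcount {ι : Type} (h : ι → ℕ) (W b x : ℕ) (hW : 0 < W) (Z : Finset ℕ)
    (hZ : ∀ p ∈ Z, p.Prime ∧ ¬ p ∣ W) (φ : ℕ → ι) [DecidablePred fun n : ℕ => ∀ p ∈ Z, p ∣ n + h (φ p)] :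
    |((((Ioc x (2 * x)).filter (fun n => n ≡ b [MOD W])).filter
        (fun n => ∀ p ∈ Z, p ∣ n + h (φ p))).card : ℝ) - (x : ℝ) / W * ∏ p ∈ Z, (1 / (p : ℝ))| ≤ 1 := by
  obtain ⟨v, hv⟩ := TrI_crt h W b Z hZ φ
  have hq : 0 < W * ∏ p ∈ Z, p := Nat.mul_pos hW (Finset.prod_pos (fun p hp => (hZ p hp).1.pos))
  have h1 := TrI_class_count x (W * ∏ p ∈ Z, p) v hq
  have h2 : ((Ioc x (2 * x)).filter (fun n => n ≡ b [MOD W])).filter (fun n => ∀ p ∈ Z, p ∣ n + h (φ p)) =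
      (Ioc x (2 * x)).filter (fun n => n ≡ v [MOD (W * ∏ p ∈ Z, p)]) := by
    rw [Finset.filter_filter]
    apply Finset.filter_congr
    intro n _
    exact hv n
  rw [h2]
  have h3 : (x : ℝ) / W * ∏ p ∈ Z, (1 / (p : ℝ)) = (x : ℝ) / ((W * ∏ p ∈ Z, p : ℕ) : ℝ) := by
    push_cast
    rw [Finset.prod_div_distrib]
    simp only [Finset.prod_const_one]
    rw [div_mul_div_comm, mul_one]
  rw [h3]
  exact h1

private theorem TrI_inv_le_fn (p : ℕ) (hp : p.Prime) : 0 ≤ 1 / (p : ℝ) ∧ 1 / (p : ℝ) ≤ fn p := by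
  have h2 : (2 : ℝ) ≤ p := by exact_mod_cast hp.two_le
  refine ⟨by positivity, ?_⟩
  unfold fn
  apply one_div_le_one_div_of_le <;> linarith

theorem trI (ι : Type) [Fintype ι] [DecidableEq ι] (h : ι → ℕ) (W b : ℕ) (hG : Good h W b) (B : ℕ) (M η : ℝ)
    (hM : 0 ≤ M) (hη : 0 < η) (A : ℕ) : ∀ᶠ x : ℕ in atTop, ∀ c : Finset (ι × ℕ) → ℝ,
      Cls x B M ((x : ℝ) ^ (1 - η)) c →
      |∑ n ∈ AA h W b x, Ev (EX ι x) c (yy h n) - Mn ι W x * Ev (EX ι x) c gi| ≤ x / Real.log x ^ A := by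
  classical
  obtain ⟨hW, hcopW, hgood⟩ := hG
  set k : ℝ := (Fintype.card ι : ℝ) with hk
  have hk0 : 0 ≤ k := by positivity
  obtain ⟨B1, hB1⟩ := l1_le ι M hM
  obtain ⟨B2, hB2⟩ := euler_pow (k * (M + 1)) (by positivity)
  have hbt := brun_tail k (A + 1 + B + B1) (η / 2) hk0 (by positivity)
  have hinc := incons_le ι M hM (A + 1 + B)
  have hlogx : Tendsto (fun x : ℕ => Real.log (x : ℝ)) atTop atTop :=
    Real.tendsto_log_atTop.comp tendsto_natCast_atTop_atTop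
  -- `(log x)^m ≤ x^(η/2)`
  have hpow : ∀ᶠ x : ℕ in atTop, Real.log (x : ℝ) ^ (A + 1 + B + B2) ≤ (x : ℝ) ^ (η / 2) := by
    have h1 := isLittleO_log_rpow_atTop (r := η / 2 / ((A + 1 + B + B2 : ℕ) : ℝ))
      (by have : (0 : ℝ) < ((A + 1 + B + B2 : ℕ) : ℝ) := by positivity
          positivity)
    have h2 := (h1.bound (c := 1) one_pos)
    have h3 := tendsto_natCast_atTop_atTop (R := ℝ) |>.eventually h2
    filter_upwards [h3, eventually_ge_atTop 3] with x hx hx3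
    have hx3' : (3 : ℝ) ≤ x := by exact_mod_cast hx3
    have hx0 : (0 : ℝ) < x := by linarith
    rw [one_mul, Real.norm_of_nonneg (Real.log_nonneg (by linarith)),
      Real.norm_of_nonneg (Real.rpow_nonneg hx0.le _)] at hx
    calc Real.log (x : ℝ) ^ (A + 1 + B + B2)
        ≤ ((x : ℝ) ^ (η / 2 / ((A + 1 + B + B2 : ℕ) : ℝ))) ^ (A + 1 + B + B2) :=
          pow_le_pow_left₀ (Real.log_nonneg (by linarith)) hx _
      _ = (x : ℝ) ^ (η / 2) := by
          rw [← Real.rpow_natCast, ← Real.rpow_mul hx0.le]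
          congr 1
          have : ((A + 1 + B + B2 : ℕ) : ℝ) ≠ 0 := by positivity
          field_simp
  filter_upwards [hB1, hB2, hbt, hinc, hpow, hlogx.eventually_ge_atTop 3,
    TrI_z0_tendsto.eventually_gt_atTop (W : ℝ), TrI_z0_tendsto.eventually_ge_atTop 1,
    eventually_ge_atTop 3] with x hB1 hB2 hbt hinc hpow hlog hzW hz1 hx3
  intro c hc
  obtain ⟨t, ht1, ht2⟩ := hbt
  set L : ℝ := Real.log (x : ℝ) with hL
  have hx3' : (3 : ℝ) ≤ x := by exact_mod_cast hx3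
  have hx0 : (0 : ℝ) < x := by linarith
  have hL0 : 0 < L := by linarith
  have hWR : (1 : ℝ) ≤ W := by exact_mod_cast hW
  have hPSpr : ∀ p ∈ PS W x, p.Prime := by
    intro p hp
    simp only [PS, PA, Finset.mem_filter] at hp
    exact hp.1.2.1
  have hPXpr : ∀ p ∈ PX x, p.Prime := by
    intro p hp
    simp only [PX, Finset.mem_filter] at hp
    exact hp.2.1
  have hPSz : ∀ p ∈ PS W x, (p : ℝ) ≤ z0 x := by
    intro p hp
    simp only [PS, PA, Finset.mem_filter] at hp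
    exact hp.1.2.2
  have hPXz : ∀ p ∈ PX x, z0 x < (p : ℝ) := by
    intro p hp
    simp only [PX, Finset.mem_filter] at hp
    exact hp.2.2
  have hdisj : Disjoint (PS W x) (PX x) := by
    rw [Finset.disjoint_left]
    intro p hp hp'
    exact absurd (hPSz p hp) (not_le.mpr (hPXz p hp'))
  have hall : ∀ p ∈ PS W x ∪ PX x, p.Prime ∧ ¬ p ∣ W := by
    intro p hp
    rcases Finset.mem_union.mp hp with hp | hp
    · refine ⟨hPSpr p hp, ?_⟩
      simp only [PS, Finset.mem_filter] at hp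
      exact hp.2
    · refine ⟨hPXpr p hp, fun hd => ?_⟩
      have h1 : p ≤ W := Nat.le_of_dvd hW hd
      have h2 : (p : ℝ) ≤ W := by exact_mod_cast h1
      have := hPXz p hp
      linarith
  have hallle : PS W x ∪ PX x ⊆ (range (x + 1)).filter Nat.Prime := by
    intro p hp
    rcases Finset.mem_union.mp hp with hp | hp
    · simp only [PS, PA, Finset.mem_filter] at hp
      simp only [Finset.mem_filter]
      exact ⟨hp.1.1, hp.1.2.1⟩
    · simp only [PX, Finset.mem_filter] at hp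
      simp only [Finset.mem_filter]
      exact ⟨hp.1, hp.2.1⟩
  have hD0 : 0 ≤ (x : ℝ) ^ (1 - η) := Real.rpow_nonneg hx0.le _
  have key := trAbs (Finset.univ : Finset ι) h ((Ioc x (2 * x)).filter (fun n => n ≡ b [MOD W])) (PS W x) (PX x)
    hPSpr hPXpr hdisj
    (fun p hp i _ j _ hij => (hgood p (hall p hp).1 (hall p hp).2).2 i j hij)
    (fun p => 1 / (p : ℝ))
    (fun p hp => by
      have h1 := (hgood p (hall p hp).1 (hall p hp).2).1
      have h2 : (Fintype.card ι : ℝ) < p := by exact_mod_cast h1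
      have hp0 : (0 : ℝ) < p := lt_of_le_of_lt (by positivity) h2
      refine ⟨by positivity, ?_⟩
      rw [Finset.card_univ, mul_one_div, div_le_one hp0]
      exact h2.le)
    ((x : ℝ) / W) (by positivity) (fun _ => 1) (fun _ => zero_le_one)
    (fun Z hZ φ _ => TrI_hcount h W b x hW Z (fun p hp => hall p (hZ hp)) φ)
    (by
      have h0 := TrI_hcount (ι := Unit) (fun _ => 0) W b x hW ∅ (fun p hp => absurd hp (Finset.notMem_empty p))
        (fun _ => ())
      simpa using h0)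
    t (L ^ B) M ((x : ℝ) ^ (1 - η)) (z0 x) (by positivity) hM hD0 hz1 hPSz c
    (fun Q => hc Q)
  -- identification of the terms
  have hAA : ((Ioc x (2 * x)).filter (fun n => n ≡ b [MOD W])).filter
      (fun n => ∀ i ∈ (Finset.univ : Finset ι), ∀ p ∈ PS W x, ¬ p ∣ n + h i) = AA h W b x := by
    unfold AA
    rw [Finset.filter_filter]
    apply Finset.filter_congr
    intro n _
    simp
  have hMn : (x : ℝ) / W * (∏ p ∈ PS W x, (1 - ((Finset.univ : Finset ι).card : ℝ) * (1 / (p : ℝ)))) = Mn ι W x := by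
    unfold Mn
    congr 1
    apply Finset.prod_congr rfl
    intro p _
    rw [Finset.card_univ]; ring
  have hgi : (fun e : ι × ℕ => 1 / (e.2 : ℝ)) = gi := by
    funext e; rfl
  rw [hAA, hMn, hgi] at key
  change |∑ n ∈ AA h W b x, Ev (EX ι x) c (yy h n) - Mn ι W x * Ev (EX ι x) c gi| ≤ _ at key
  refine key.trans ?_
  -- the three error terms
  have hPW : ∀ p : ℕ, p.Prime → 0 ≤ 1 / (p : ℝ) ∧ 1 / (p : ℝ) ≤ fn p := TrI_inv_le_fn
  have hEXpr : ∀ Q ∈ (EX ι x).powerset, ∀ e ∈ Q, (e : ι × ℕ).2.Prime := by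
    intro Q hQ e he
    have h1 := (Finset.mem_powerset.mp hQ) he
    simp only [EX, Finset.mem_product] at h1
    exact hPXpr _ h1.2
  have hterm : ∀ Q ∈ (EX ι x).powerset, |c Q| * ∏ e ∈ Q, 1 / ((e : ι × ℕ).2 : ℝ) ≤
      L ^ B * (M ^ Q.card * ∏ e ∈ Q, fn e.2) := by
    intro Q hQ
    have h1 : |c Q| ≤ L ^ B * M ^ Q.card := (hc Q).1
    have h2 : ∏ e ∈ Q, 1 / ((e : ι × ℕ).2 : ℝ) ≤ ∏ e ∈ Q, fn e.2 :=
      Finset.prod_le_prod (fun e he => (hPW _ (hEXpr Q hQ e he)).1) (fun e he => (hPW _ (hEXpr Q hQ e he)).2)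
    have h3 : 0 ≤ ∏ e ∈ Q, 1 / ((e : ι × ℕ).2 : ℝ) :=
      Finset.prod_nonneg (fun e he => (hPW _ (hEXpr Q hQ e he)).1)
    calc |c Q| * ∏ e ∈ Q, 1 / ((e : ι × ℕ).2 : ℝ)
        ≤ (L ^ B * M ^ Q.card) * ∏ e ∈ Q, fn e.2 := by
          apply mul_le_mul h1 h2 h3 (by positivity)
      _ = L ^ B * (M ^ Q.card * ∏ e ∈ Q, fn e.2) := by ring
  have hxW : (x : ℝ) / W ≤ x := div_le_self hx0.le hWR
  have hxW0 : 0 ≤ (x : ℝ) / W := by positivity
  have hpowne : ∀ n : ℕ, L ^ n ≠ 0 := fun n => by positivity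
  -- (a)
  have ha : (x : ℝ) / W * (∑ Q ∈ ((Finset.univ : Finset ι) ×ˢ PX x).powerset, |c Q| * ∏ e ∈ Q, 1 / ((e : ι × ℕ).2 : ℝ)) *
      (2 * (((Finset.univ : Finset ι).card : ℝ) * ∑ p ∈ PS W x, 1 / (p : ℝ)) ^ (t + 1) / ((t + 1).factorial : ℝ)) ≤
      x / L ^ (A + 1) := by
    have h1 : ∑ Q ∈ ((Finset.univ : Finset ι) ×ˢ PX x).powerset, |c Q| * ∏ e ∈ Q, 1 / ((e : ι × ℕ).2 : ℝ) ≤
        L ^ B * L ^ B1 := by
      calc ∑ Q ∈ ((Finset.univ : Finset ι) ×ˢ PX x).powerset, |c Q| * ∏ e ∈ Q, 1 / ((e : ι × ℕ).2 : ℝ)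
          ≤ ∑ Q ∈ (EX ι x).powerset, L ^ B * (M ^ Q.card * ∏ e ∈ Q, fn e.2) := Finset.sum_le_sum hterm
        _ = L ^ B * ∑ Q ∈ (EX ι x).powerset, (M ^ Q.card * ∏ e ∈ Q, fn e.2) := by rw [Finset.mul_sum]
        _ ≤ L ^ B * L ^ B1 := by
          apply mul_le_mul_of_nonneg_left hB1 (by positivity)
    have h1' : 0 ≤ ∑ Q ∈ ((Finset.univ : Finset ι) ×ˢ PX x).powerset, |c Q| * ∏ e ∈ Q, 1 / ((e : ι × ℕ).2 : ℝ) := by
      apply Finset.sum_nonneg
      intro Q hQ
      apply mul_nonneg (abs_nonneg _)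
      exact Finset.prod_nonneg (fun e he => by positivity)
    have h2 : ∑ p ∈ PS W x, 1 / (p : ℝ) ≤ ∑ p ∈ PA x, fn p := by
      calc ∑ p ∈ PS W x, 1 / (p : ℝ) ≤ ∑ p ∈ PS W x, fn p :=
            Finset.sum_le_sum (fun p hp => (hPW p (hPSpr p hp)).2)
        _ ≤ ∑ p ∈ PA x, fn p := by
            apply Finset.sum_le_sum_of_subset_of_nonneg
            · exact Finset.filter_subset _ _
            · intro p hp _
              simp only [PA, Finset.mem_filter] at hp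
              exact (hPW p hp.2.1).1.trans (hPW p hp.2.1).2
    have h2' : 0 ≤ ∑ p ∈ PS W x, 1 / (p : ℝ) := Finset.sum_nonneg (fun p _ => by positivity)
    have h3 : 2 * (((Finset.univ : Finset ι).card : ℝ) * ∑ p ∈ PS W x, 1 / (p : ℝ)) ^ (t + 1) / ((t + 1).factorial : ℝ) ≤
        1 / L ^ (A + 1 + B + B1) := by
      refine le_trans ?_ ht2
      apply div_le_div_of_nonneg_right _ (by positivity)
      apply mul_le_mul_of_nonneg_left _ (by norm_num)
      rw [Finset.card_univ]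
      apply pow_le_pow_left₀ (mul_nonneg hk0 h2')
      exact mul_le_mul_of_nonneg_left h2 hk0
    have h3' : 0 ≤ 2 * (((Finset.univ : Finset ι).card : ℝ) * ∑ p ∈ PS W x, 1 / (p : ℝ)) ^ (t + 1) / ((t + 1).factorial : ℝ) := by
      positivity
    calc _ ≤ (x : ℝ) * (L ^ B * L ^ B1) * (1 / L ^ (A + 1 + B + B1)) := by
          apply mul_le_mul _ h3 h3' (by positivity)
          exact mul_le_mul hxW h1 h1' hx0.le
      _ = x / L ^ (A + 1) := by
          have e1 : L ^ (A + 1 + B + B1) = L ^ (A + 1) * (L ^ B * L ^ B1) := by rw [pow_add, pow_add]; ring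
          rw [e1]
          have := hpowne (A + 1)
          have := hpowne B
          have := hpowne B1
          field_simp
  -- (b)
  have hb : (x : ℝ) / W * ∑ Q ∈ ((Finset.univ : Finset ι) ×ˢ PX x).powerset.filter
      (fun Q : Finset (ι × ℕ) => ¬ Set.InjOn Prod.snd (Q : Set (ι × ℕ))), |c Q| * ∏ e ∈ Q, 1 / ((e : ι × ℕ).2 : ℝ) ≤
      x / L ^ (A + 1) := by
    have h1 : ∑ Q ∈ ((Finset.univ : Finset ι) ×ˢ PX x).powerset.filter
        (fun Q : Finset (ι × ℕ) => ¬ Set.InjOn Prod.snd (Q : Set (ι × ℕ))), |c Q| * ∏ e ∈ Q, 1 / ((e : ι × ℕ).2 : ℝ) ≤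
        L ^ B * (1 / L ^ (A + 1 + B)) := by
      calc _ ≤ ∑ Q ∈ (EX ι x).powerset.filter
            (fun Q : Finset (ι × ℕ) => ¬ Set.InjOn Prod.snd (Q : Set (ι × ℕ))), L ^ B * (M ^ Q.card * ∏ e ∈ Q, fn e.2) := by
            apply Finset.sum_le_sum
            intro Q hQ
            exact hterm Q (Finset.mem_filter.mp hQ).1
        _ = L ^ B * ∑ Q ∈ (EX ι x).powerset.filter
            (fun Q : Finset (ι × ℕ) => ¬ Set.InjOn Prod.snd (Q : Set (ι × ℕ))), (M ^ Q.card * ∏ e ∈ Q, fn e.2) := by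
            rw [Finset.mul_sum]
        _ ≤ L ^ B * (1 / L ^ (A + 1 + B)) := by
            apply mul_le_mul_of_nonneg_left _ (by positivity)
            exact hinc
    have h1' : 0 ≤ ∑ Q ∈ ((Finset.univ : Finset ι) ×ˢ PX x).powerset.filter
        (fun Q : Finset (ι × ℕ) => ¬ Set.InjOn Prod.snd (Q : Set (ι × ℕ))), |c Q| * ∏ e ∈ Q, 1 / ((e : ι × ℕ).2 : ℝ) := by
      apply Finset.sum_nonneg
      intro Q hQ
      apply mul_nonneg (abs_nonneg _)
      exact Finset.prod_nonneg (fun e he => by positivity)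
    calc _ ≤ (x : ℝ) * (L ^ B * (1 / L ^ (A + 1 + B))) := mul_le_mul hxW h1 h1' hx0.le
      _ = x / L ^ (A + 1) := by
          have e1 : L ^ (A + 1 + B) = L ^ (A + 1) * L ^ B := by rw [pow_add]
          rw [e1]
          have := hpowne (A + 1)
          have := hpowne B
          field_simp
  -- (c)
  have hcc : L ^ B * ∑ Z ∈ (PS W x ∪ PX x).powerset.filter
      (fun Z : Finset ℕ => ∏ p ∈ Z, (p : ℝ) ≤ (x : ℝ) ^ (1 - η) * z0 x ^ (t + 1)),
        (((Finset.univ : Finset ι).card : ℝ) * (M + 1)) ^ Z.card * 1 ≤ x / L ^ (A + 1) := by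
    have hC0 : 0 ≤ ((Finset.univ : Finset ι).card : ℝ) * (M + 1) := by positivity
    have hz00 : 0 ≤ z0 x ^ (t + 1) := by positivity
    have h1 := sum_pow_le (PS W x ∪ PX x) (fun p hp => (hall p hp).1) (((Finset.univ : Finset ι).card : ℝ) * (M + 1))
      ((x : ℝ) ^ (1 - η) * z0 x ^ (t + 1)) hC0 (mul_nonneg hD0 hz00)
    have h2 : ∏ p ∈ PS W x ∪ PX x, (1 + ((Finset.univ : Finset ι).card : ℝ) * (M + 1) / (p : ℝ)) ≤ L ^ B2 := by
      calc ∏ p ∈ PS W x ∪ PX x, (1 + ((Finset.univ : Finset ι).card : ℝ) * (M + 1) / (p : ℝ))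
          ≤ ∏ p ∈ PS W x ∪ PX x, (1 + k * (M + 1) * fn p) := by
            apply Finset.prod_le_prod
            · intro p hp
              positivity
            · intro p hp
              have h3 := (hPW p (hall p hp).1).2
              rw [Finset.card_univ, div_eq_mul_one_div]
              have h4 : k * (M + 1) * (1 / (p : ℝ)) ≤ k * (M + 1) * fn p :=
                mul_le_mul_of_nonneg_left h3 (by positivity)
              linarith
        _ ≤ ∏ p ∈ (range (x + 1)).filter Nat.Prime, (1 + k * (M + 1) * fn p) := by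
            rw [← Finset.prod_sdiff hallle]
            have h4 : ∀ p : ℕ, p.Prime → 1 ≤ 1 + k * (M + 1) * fn p := by
              intro p hp
              have h5 : 0 ≤ fn p := (hPW p hp).1.trans (hPW p hp).2
              have h6 : 0 ≤ k * (M + 1) * fn p := by positivity
              linarith
            apply le_mul_of_one_le_left
            · apply Finset.prod_nonneg
              intro p hp
              exact zero_le_one.trans (h4 p (hall p hp).1)
            · calc (1 : ℝ) = ∏ p ∈ (range (x + 1)).filter Nat.Prime \ (PS W x ∪ PX x), (1 : ℝ) := by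
                    rw [Finset.prod_const_one]
                _ ≤ _ := by
                    apply Finset.prod_le_prod
                    · intro p _
                      exact zero_le_one
                    · intro p hp
                      exact h4 p (Finset.mem_filter.mp (Finset.mem_sdiff.mp hp).1).2
        _ ≤ L ^ B2 := hB2
    have h3 : (x : ℝ) ^ (1 - η) * z0 x ^ (t + 1) ≤ (x : ℝ) ^ (1 - η / 2) := by
      calc (x : ℝ) ^ (1 - η) * z0 x ^ (t + 1) ≤ (x : ℝ) ^ (1 - η) * (x : ℝ) ^ (η / 2) :=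
            mul_le_mul_of_nonneg_left ht1 hD0
        _ = (x : ℝ) ^ (1 - η / 2) := by
            rw [← Real.rpow_add hx0]; congr 1; ring
    have h5 : (x : ℝ) ^ (1 - η / 2) * (x : ℝ) ^ (η / 2) = x := by
      rw [← Real.rpow_add hx0, sub_add_cancel, Real.rpow_one]
    simp only [mul_one]
    calc L ^ B * ∑ Z ∈ (PS W x ∪ PX x).powerset.filter
          (fun Z : Finset ℕ => ∏ p ∈ Z, (p : ℝ) ≤ (x : ℝ) ^ (1 - η) * z0 x ^ (t + 1)),
            (((Finset.univ : Finset ι).card : ℝ) * (M + 1)) ^ Z.card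
        ≤ L ^ B * ((x : ℝ) ^ (1 - η / 2) * L ^ B2) := by
          apply mul_le_mul_of_nonneg_left _ (by positivity)
          refine h1.trans ?_
          apply mul_le_mul h3 h2 _ (by positivity)
          apply Finset.prod_nonneg
          intro p hp
          positivity
      _ ≤ x / L ^ (A + 1) := by
          rw [le_div_iff₀ (by positivity)]
          calc L ^ B * ((x : ℝ) ^ (1 - η / 2) * L ^ B2) * L ^ (A + 1)
              = (x : ℝ) ^ (1 - η / 2) * L ^ (A + 1 + B + B2) := by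
                rw [pow_add L (A + 1 + B) B2, pow_add L (A + 1) B]; ring
            _ ≤ (x : ℝ) ^ (1 - η / 2) * (x : ℝ) ^ (η / 2) := by
                apply mul_le_mul_of_nonneg_left hpow (by positivity)
            _ = x := h5
  have hfinal : 3 * (x / L ^ (A + 1)) ≤ x / L ^ A := by
    rw [pow_succ, ← div_div]
    have h1 : 0 ≤ x / L ^ A := by positivity
    rw [← mul_div_assoc, div_le_iff₀ hL0]
    nlinarith
  calc _ ≤ x / L ^ (A + 1) + x / L ^ (A + 1) + x / L ^ (A + 1) := by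
        refine add_le_add (add_le_add ?_ ?_) ?_
        · exact ha
        · exact hb
        · exact hcc
    _ = 3 * (x / L ^ (A + 1)) := by ring
    _ ≤ x / L ^ A := hfinal

end Pool.Agent.H36.IS

end

section

/-!
# IS ClsA: size and support bookkeeping

* `cls_uc`: |uc c c' Q| ≤ ∑_{A∪B=Q} L^B M^|A| L^B' M'^|B| = L^(B+B') (M + M' + M M')^|Q| (each e ∈ Q is in A only, B only, or
  both); support: ∏_{A∪B} ≤ ∏_A ∏_B (all e.2 ≥ 1; EX consists of primes).
* `cls_lam`: |lam y D| ≤ ∏_{e∈D} (1/g) ∑_{R ⊇ D} K f(R) ≤ K ∏_{e∈D} (f/g) ∏_{e∈EZ} (1+f e), f/g = 1/(1-1/p) ≤ 2 and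
  ∏_{EZ}(1+f) = (∏_{p∈PZ} (1+fn p))^k ≤ (log x)^B (`euler_pow` with C = 1).  Support: D ⊆ R, ∏_D ≤ ∏_R ≤ x^θ.
  Here fo gi (i,p) = fn p for p prime.
* `yok_pr`: 0 ≤ pr S f y R ≤ K ∏_{e∈S} (1+f e); support: R ∪ A in the support of y, ∏_R ≤ ∏_{R∪A}.
* `yok_ext`: T ≥ 1; support: R = (R \ S) ∪ (R ∩ S), product ≤ x^θ · x^ρ.
* `cls_one`: the array of a single pattern etc. is not needed.
* `Cls.mono`.
-/

set_option autoImplicit false

namespace Pool.Agent.H36.IS

open Finset Filter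

variable {ι : Type} [Fintype ι] [DecidableEq ι]

private theorem ClsB_mono {α : Type*} [DecidableEq α] {D R : Finset α} (hD : D ⊆ R) (f : α → ℝ)
    (hf : ∀ e ∈ R, 1 ≤ f e) : ∏ e ∈ D, f e ≤ ∏ e ∈ R, f e := by
  rw [← prod_sdiff hD]
  have h1 : 1 ≤ ∏ e ∈ R \ D, f e := by
    have h := prod_le_prod (s := R \ D) (f := fun _ => (1 : ℝ)) (g := f) (fun _ _ => zero_le_one)
      (fun e he => hf e (sdiff_subset he))
    rwa [prod_const_one] at h
  have h2 : 0 ≤ ∏ e ∈ D, f e := prod_nonneg fun e he => zero_le_one.trans (hf e (hD he))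
  exact le_mul_of_one_le_left h2 h1

private theorem ClsB_prime {x : ℕ} {e : ι × ℕ} (he : e ∈ EX ι x) : e.2.Prime := by
  unfold EX PX at he
  rw [mem_product, mem_filter] at he
  exact he.2.2.1

private theorem ClsB_sub (x : ℕ) (δ : ℝ) : EZ ι x δ ⊆ EX ι x := by
  unfold EZ EX PZ
  exact product_subset_product_right (filter_subset _ _)

private theorem ClsB_one_le {x : ℕ} {δ : ℝ} {e : ι × ℕ} (he : e ∈ EZ ι x δ) : (1 : ℝ) ≤ (e.2 : ℝ) := by
  have := (ClsB_prime (ClsB_sub x δ he)).one_lt.le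
  exact_mod_cast this

private theorem ClsB_fo_nonneg {x : ℕ} {δ : ℝ} {e : ι × ℕ} (he : e ∈ EZ ι x δ) :
    0 ≤ fo gi e := by
  obtain ⟨_, h2, h3⟩ := fo_gi (ClsB_sub x δ he)
  unfold fo
  exact div_nonneg h2.le (by linarith)

private theorem ClsB_ratio {x : ℕ} {δ : ℝ} {e : ι × ℕ} (he : e ∈ EZ ι x δ) :
    0 ≤ 1 / gi e * fo gi e ∧ 1 / gi e * fo gi e ≤ 2 := by
  obtain ⟨_, h2, h3⟩ := fo_gi (ClsB_sub x δ he)
  have hp : (2 : ℝ) ≤ (e.2 : ℝ) := by
    exact_mod_cast (ClsB_prime (ClsB_sub x δ he)).two_le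
  have hg : gi e ≤ 1 / 2 := by
    unfold gi
    exact one_div_le_one_div_of_le (by norm_num) hp
  have hpos : 0 < 1 - gi e := by linarith
  have h : 1 / gi e * fo gi e = 1 / (1 - gi e) := by
    unfold fo
    have hne := h2.ne'
    have hne2 := hpos.ne'
    rw [div_mul_div_comm, one_mul, mul_comm (gi e) (1 - gi e)]
    rw [div_mul_cancel_right₀ hne, one_div]
  rw [h]
  refine ⟨by positivity, ?_⟩
  rw [div_le_iff₀ hpos]
  linarith

/-- product over a subset of atoms -/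
private theorem ClsB_prod_le {x : ℕ} {δ : ℝ} {D R : Finset (ι × ℕ)} (hD : D ⊆ R) (hR : R ⊆ EZ ι x δ) :
    ∏ e ∈ D, (e.2 : ℝ) ≤ ∏ e ∈ R, (e.2 : ℝ) := by
  exact ClsB_mono hD _ fun e he => ClsB_one_le (hR he)

private theorem ClsB_euler (ι : Type) [Fintype ι] [DecidableEq ι] : ∃ B : ℕ, ∀ᶠ x : ℕ in atTop,
    1 ≤ Real.log x ∧ ∀ (δ : ℝ) (S : Finset (ι × ℕ)), S ⊆ EZ ι x δ →
      ∏ e ∈ S, (1 + fo gi e) ≤ Real.log x ^ B := by
  obtain ⟨B0, hB0⟩ := euler_pow 1 zero_le_one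
  refine ⟨B0 * Fintype.card ι, ?_⟩
  have hlog : ∀ᶠ x : ℕ in atTop, 1 ≤ Real.log x :=
    (Real.tendsto_log_atTop.comp tendsto_natCast_atTop_atTop).eventually_ge_atTop 1
  filter_upwards [hB0, hlog] with x hx hl
  refine ⟨hl, fun δ S hS => ?_⟩
  have h1 : ∏ e ∈ S, (1 + fo gi e) ≤ ∏ e ∈ EZ ι x δ, (1 + fo gi e) := by
    refine ClsB_mono hS _ fun e he => ?_
    have := ClsB_fo_nonneg he
    linarith
  refine h1.trans ?_
  have h2 : ∏ e ∈ EZ ι x δ, (1 + fo gi e) = ∏ e ∈ EZ ι x δ, (1 + 1 * fn e.2) := by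
    refine prod_congr rfl fun e he => ?_
    rw [(fo_gi (ClsB_sub x δ he)).1, one_mul]
  rw [h2]
  unfold EZ
  rw [prod_product]
  have h3 : ∀ i ∈ (univ : Finset ι), ∏ p ∈ PZ x δ, (1 + 1 * fn ((i, p) : ι × ℕ).2) =
      ∏ p ∈ PZ x δ, (1 + 1 * fn p) := fun i _ => rfl
  rw [prod_congr rfl h3, prod_const, card_univ, pow_mul]
  have hfn : ∀ p ∈ (range (x + 1)).filter Nat.Prime, 0 ≤ fn p := by
    intro p hp
    have := (mem_filter.mp hp).2.one_lt
    have h4 : (1 : ℝ) < (p : ℝ) := by exact_mod_cast this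
    unfold fn
    exact div_nonneg zero_le_one (by linarith)
  have hsub : PZ x δ ⊆ (range (x + 1)).filter Nat.Prime := by
    intro p hp
    unfold PZ PX at hp
    rw [mem_filter, mem_filter] at hp
    exact mem_filter.mpr ⟨hp.1.1, hp.1.2.1⟩
  refine pow_le_pow_left₀ (prod_nonneg fun p hp => ?_) (le_trans ?_ hx) _
  · have := hfn p (hsub hp)
    linarith
  · refine ClsB_mono hsub _ fun e he => ?_
    have := hfn e he
    linarith

/-- sum over the sets containing `D` -/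
private theorem ClsB_sum_super {α : Type*} [DecidableEq α] {P D : Finset α} (hD : D ⊆ P) (f : α → ℝ) :
    ∑ R ∈ P.powerset, (if D ⊆ R then ∏ e ∈ R, f e else 0) =
      (∏ e ∈ D, f e) * ∏ e ∈ P \ D, (1 + f e) := by
  rw [← sum_filter, prod_one_add, mul_sum]
  symm
  refine sum_bij' (fun T _ => D ∪ T) (fun R _ => R \ D) ?_ ?_ ?_ ?_ ?_
  · intro T hT
    rw [mem_filter, mem_powerset]
    rw [mem_powerset] at hT
    exact ⟨union_subset hD (hT.trans sdiff_subset), subset_union_left⟩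
  · intro R hR
    rw [mem_filter, mem_powerset] at hR
    rw [mem_powerset]
    exact sdiff_subset_sdiff hR.1 Subset.rfl
  · intro T hT
    rw [mem_powerset] at hT
    have hd : Disjoint D T := by
      refine Finset.disjoint_left.mpr fun a ha hb => ?_
      exact (mem_sdiff.mp (hT hb)).2 ha
    rw [union_sdiff_cancel_left hd]
  · intro R hR
    rw [mem_filter, mem_powerset] at hR
    exact union_sdiff_of_subset hR.2
  · intro T hT
    rw [mem_powerset] at hT
    have hd : Disjoint D T := by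
      refine Finset.disjoint_left.mpr fun a ha hb => ?_
      exact (mem_sdiff.mp (hT hb)).2 ha
    rw [prod_union hd]

theorem cls_lam (ι : Type) [Fintype ι] [DecidableEq ι] (B1 : ℕ) : ∃ B : ℕ, ∀ᶠ x : ℕ in atTop,
    ∀ (δ θ : ℝ) (y : Finset (ι × ℕ) → ℝ), Yok x δ θ (Real.log x ^ B1) y →
      Cls x B 2 ((x : ℝ) ^ θ) (lam (EZ ι x δ) gi y) := by
  obtain ⟨B, hB⟩ := ClsB_euler ι
  refine ⟨B1 + B, ?_⟩
  filter_upwards [hB] with x hx δ θ y hy D
  obtain ⟨hl, hE⟩ := hx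
  have hK : 0 ≤ Real.log x ^ B1 := by positivity
  constructor
  · by_cases hD : D ⊆ EZ ι x δ
    · have hnn : ∀ e ∈ EZ ι x δ, 0 ≤ fo gi e := fun e he => ClsB_fo_nonneg he
      have h1 : |∑ R ∈ (EZ ι x δ).powerset, (if D ⊆ R then y R * ∏ e ∈ R, fo gi e else 0)| ≤
          Real.log x ^ B1 * ((∏ e ∈ D, fo gi e) * ∏ e ∈ EZ ι x δ \ D, (1 + fo gi e)) := by
        rw [← ClsB_sum_super hD, mul_sum]
        refine (abs_sum_le_sum_abs _ _).trans (sum_le_sum fun R hR => ?_)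
        rw [mem_powerset] at hR
        split_ifs with h
        · have hp : 0 ≤ ∏ e ∈ R, fo gi e := prod_nonneg fun e he => hnn e (hR he)
          rw [abs_mul, abs_of_nonneg hp, abs_of_nonneg (hy R).1]
          exact mul_le_mul_of_nonneg_right (hy R).2.1 hp
        · simp
      have h2 : |∏ e ∈ D, (-(1 / gi e))| = ∏ e ∈ D, (1 / gi e) := by
        rw [abs_prod]
        refine prod_congr rfl fun e he => ?_
        have := (fo_gi (ClsB_sub x δ (hD he))).2.1
        rw [abs_neg, abs_of_pos (by positivity)]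
      have h3 : 0 ≤ ∏ e ∈ D, (1 / gi e) := by
        rw [← h2]
        exact abs_nonneg _
      have h4 : (∏ e ∈ D, (1 / gi e)) * (∏ e ∈ D, fo gi e) ≤ 2 ^ D.card := by
        rw [← prod_mul_distrib, ← prod_const]
        exact prod_le_prod (fun e he => (ClsB_ratio (hD he)).1) (fun e he => (ClsB_ratio (hD he)).2)
      have h5 : ∏ e ∈ EZ ι x δ \ D, (1 + fo gi e) ≤ Real.log x ^ B := hE δ _ sdiff_subset
      have h6 : 0 ≤ ∏ e ∈ EZ ι x δ \ D, (1 + fo gi e) := by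
        refine prod_nonneg fun e he => ?_
        have := hnn e (sdiff_subset he)
        linarith
      unfold lam
      rw [abs_mul, h2]
      calc (∏ e ∈ D, (1 / gi e)) *
            |∑ R ∈ (EZ ι x δ).powerset, (if D ⊆ R then y R * ∏ e ∈ R, fo gi e else 0)|
          ≤ (∏ e ∈ D, (1 / gi e)) *
            (Real.log x ^ B1 * ((∏ e ∈ D, fo gi e) * ∏ e ∈ EZ ι x δ \ D, (1 + fo gi e))) :=
            mul_le_mul_of_nonneg_left h1 h3
        _ = Real.log x ^ B1 * (((∏ e ∈ D, (1 / gi e)) * (∏ e ∈ D, fo gi e)) *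
            ∏ e ∈ EZ ι x δ \ D, (1 + fo gi e)) := by ring
        _ ≤ Real.log x ^ B1 * (2 ^ D.card * Real.log x ^ B) := by
            refine mul_le_mul_of_nonneg_left ?_ hK
            exact mul_le_mul h4 h5 h6 (by positivity)
        _ = Real.log x ^ (B1 + B) * 2 ^ D.card := by
            rw [pow_add]
            ring
    · have h0 : lam (EZ ι x δ) gi y D = 0 := by
        unfold lam
        rw [sum_eq_zero, mul_zero]
        intro R hR
        rw [mem_powerset] at hR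
        rw [if_neg]
        exact fun h => hD (h.trans hR)
      rw [h0, abs_zero]
      positivity
  · intro hne
    unfold lam at hne
    have h1 : ∑ R ∈ (EZ ι x δ).powerset, (if D ⊆ R then y R * ∏ e ∈ R, fo gi e else 0) ≠ 0 :=
      right_ne_zero_of_mul hne
    obtain ⟨R, hR, hR2⟩ := exists_ne_zero_of_sum_ne_zero h1
    rw [mem_powerset] at hR
    have hDR : D ⊆ R := by
      by_contra h
      rw [if_neg h] at hR2
      exact hR2 rfl
    rw [if_pos hDR] at hR2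
    have h2 := (hy R).2.2 (left_ne_zero_of_mul hR2)
    exact ⟨(hDR.trans h2.1).trans (ClsB_sub x δ), (ClsB_prod_le hDR h2.1).trans h2.2⟩

theorem yok_pr (ι : Type) [Fintype ι] [DecidableEq ι] (B1 : ℕ) : ∃ B : ℕ, ∀ᶠ x : ℕ in atTop,
    ∀ (δ θ : ℝ) (y : Finset (ι × ℕ) → ℝ) (S : Finset (ι × ℕ)), S ⊆ EZ ι x δ → Yok x δ θ (Real.log x ^ B1) y →
      Yok x δ θ (Real.log x ^ B) (pr S (fo gi) y) := by
  obtain ⟨B, hB⟩ := ClsB_euler ι
  refine ⟨B1 + B, ?_⟩
  filter_upwards [hB] with x hx δ θ y S hS hy R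
  obtain ⟨hl, hE⟩ := hx
  have hK : 0 ≤ Real.log x ^ B1 := by positivity
  have hnn : ∀ A ∈ S.powerset, 0 ≤ ∏ e ∈ A, fo gi e := by
    intro A hA
    rw [mem_powerset] at hA
    exact prod_nonneg fun e he => ClsB_fo_nonneg (hS (hA he))
  refine ⟨?_, ?_, ?_⟩
  · unfold pr
    split_ifs with h
    · exact sum_nonneg fun A hA => mul_nonneg (hy _).1 (hnn A hA)
    · exact le_rfl
  · unfold pr
    split_ifs with h
    · calc ∑ A ∈ S.powerset, y (R ∪ A) * ∏ e ∈ A, fo gi e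
          ≤ ∑ A ∈ S.powerset, Real.log x ^ B1 * ∏ e ∈ A, fo gi e :=
            sum_le_sum fun A hA => mul_le_mul_of_nonneg_right (hy _).2.1 (hnn A hA)
        _ = Real.log x ^ B1 * ∏ e ∈ S, (1 + fo gi e) := by
            rw [prod_one_add, mul_sum]
        _ ≤ Real.log x ^ B1 * Real.log x ^ B := mul_le_mul_of_nonneg_left (hE δ S hS) hK
        _ = Real.log x ^ (B1 + B) := by rw [pow_add]
    · positivity
  · intro hne
    unfold pr at hne
    split_ifs at hne with h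
    · obtain ⟨A, hA, hA2⟩ := exists_ne_zero_of_sum_ne_zero hne
      have h2 := (hy (R ∪ A)).2.2 (left_ne_zero_of_mul hA2)
      exact ⟨subset_union_left.trans h2.1, (ClsB_prod_le subset_union_left h2.1).trans h2.2⟩
    · exact absurd rfl hne

theorem yok_ext {x : ℕ} {δ θ ρ K T : ℝ} {v Z : Finset (ι × ℕ) → ℝ} {S : Finset (ι × ℕ)} (hx : 1 ≤ x)
    (hS : S ⊆ EZ ι x δ) (hv : Yok x δ θ K v) (hZ : ∀ A, Z A = 0 ∨ Z A = 1)
    (hZs : ∀ A, A ⊆ S → Z A ≠ 0 → ∏ e ∈ A, (e.2 : ℝ) ≤ (x : ℝ) ^ ρ) (hT : 1 ≤ T) :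
    Yok x δ (θ + ρ) K (ext S Z T v) := by
  intro R
  have hT0 : 0 < T := lt_of_lt_of_le one_pos hT
  have hZ0 : 0 ≤ Z (R ∩ S) := by
    rcases hZ (R ∩ S) with h | h <;> rw [h]
    exact zero_le_one
  have hZ1 : Z (R ∩ S) ≤ 1 := by
    rcases hZ (R ∩ S) with h | h <;> rw [h]
    exact zero_le_one
  have hv0 := (hv (R \ S)).1
  refine ⟨?_, ?_, ?_⟩
  · unfold ext
    exact div_nonneg (mul_nonneg hv0 hZ0) hT0.le
  · unfold ext
    rw [div_le_iff₀ hT0]
    have h1 : v (R \ S) * Z (R ∩ S) ≤ v (R \ S) := by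
      calc v (R \ S) * Z (R ∩ S) ≤ v (R \ S) * 1 := mul_le_mul_of_nonneg_left hZ1 hv0
        _ = v (R \ S) := mul_one _
    have h2 : v (R \ S) ≤ K := (hv (R \ S)).2.1
    have h3 : K ≤ K * T := by
      have hK : 0 ≤ K := hv0.trans h2
      calc K = K * 1 := (mul_one K).symm
        _ ≤ K * T := mul_le_mul_of_nonneg_left hT hK
    exact (h1.trans h2).trans h3
  · intro hne
    unfold ext at hne
    have h1 : v (R \ S) * Z (R ∩ S) ≠ 0 := by
      intro h
      rw [h, zero_div] at hne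
      exact hne rfl
    have h2 := (hv (R \ S)).2.2 (left_ne_zero_of_mul h1)
    have h3 := hZs (R ∩ S) inter_subset_right (right_ne_zero_of_mul h1)
    have hun : (R \ S) ∪ (R ∩ S) = R := sdiff_union_inter R S
    constructor
    · rw [← hun]
      exact union_subset h2.1 (inter_subset_right.trans hS)
    · have hx0 : (0 : ℝ) < (x : ℝ) := by exact_mod_cast hx
      rw [← hun, prod_union (disjoint_sdiff_inter R S), Real.rpow_add hx0]
      refine mul_le_mul h2.2 h3 (prod_nonneg fun e _ => Nat.cast_nonneg _) (by positivity)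

theorem Yok.mono {x : ℕ} {δ θ K K' : ℝ} {y : Finset (ι × ℕ) → ℝ} (h : Yok x δ θ K y) (hK : K ≤ K') :
    Yok x δ θ K' y :=
  fun R => ⟨(h R).1, (h R).2.1.trans hK, (h R).2.2⟩

end Pool.Agent.H36.IS

end

section

/-!
# ISP WtLU: lower and upper weights on one component (with comparison)

As `wtL` and `wtU` (Pool/Agent/H36/IS/Wts.lean; copy the private lemmas you need), with in addition Ev cL gi ≤ V1 ≤ Ev cU gi:
from ev cL P y ≤ Vg y P for all 0/1 vectors y we get the same for all y with values in [0,1] (both sides are multilinear: the lemma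
`Wts_nonneg_aux` applied to c' = (exact weights) - cL, resp. cU - (exact weights), where the exact weights are T ↦ (-1)^|T| (T ⊆ P): `SvA_ex`,
`SvA_ev_ex`, `SvA_ev_sub` in Pool/Agent/H91/PK/SvA.lean; or directly by induction), at y = 1/p: Vg (1/p) P = V1 x δ.
-/

set_option autoImplicit false

namespace Pool.Agent.H36.IS2

open Finset Filter Pool.Agent.H36.IS

open Pool.Agent.H91.PK (L1 U1)

open Pool.Agent.H91.PK (ev Vg ZO Wt g1 BigP)

private theorem WtLU_affine (c : Finset ℕ → ℝ) (P : Finset ℕ) (g : ℕ → ℝ) (a : ℕ) :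
    ev c P g = g a * ev c P (Function.update g a 1) +
      (1 - g a) * ev c P (Function.update g a 0) := by
  unfold ev
  rw [Finset.mul_sum, Finset.mul_sum, ← Finset.sum_add_distrib]
  refine Finset.sum_congr rfl fun T _ => ?_
  by_cases h : a ∈ T
  · have h1 : ∀ v : ℝ, ∏ p ∈ T, Function.update g a v p = v * ∏ p ∈ T.erase a, g p := by
      intro v
      rw [← Finset.mul_prod_erase T _ h, Function.update_self]
      congr 1
      exact Finset.prod_congr rfl fun p hp => Function.update_of_ne (Finset.ne_of_mem_erase hp) _ _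
    rw [h1, h1, ← Finset.mul_prod_erase T g h]
    ring
  · have h1 : ∀ v : ℝ, ∏ p ∈ T, Function.update g a v p = ∏ p ∈ T, g p := by
      intro v
      refine Finset.prod_congr rfl fun p hp => Function.update_of_ne ?_ _ _
      rintro rfl
      exact h hp
    rw [h1, h1]
    ring

private theorem WtLU_nonneg_aux (c : Finset ℕ → ℝ) (P : Finset ℕ) (h : ∀ y, ZO y → 0 ≤ ev c P y)
    (A : Finset ℕ) : ∀ g : ℕ → ℝ, (∀ p ∈ A, 0 ≤ g p ∧ g p ≤ 1) →
      (∀ p, p ∉ A → g p = 0 ∨ g p = 1) → 0 ≤ ev c P g := by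
  induction A using Finset.induction_on with
  | empty =>
    intro g _ hg
    exact h g (fun p => hg p (Finset.notMem_empty p))
  | insert a A ha ih =>
    intro g hg1 hg2
    rw [WtLU_affine c P g a]
    have h1 := hg1 a (mem_insert_self a A)
    have h2 : ∀ v : ℝ, v = 0 ∨ v = 1 → 0 ≤ ev c P (Function.update g a v) := by
      intro v hv
      apply ih
      · intro p hp
        have hne : p ≠ a := by
          rintro rfl
          exact ha hp
        rw [Function.update_of_ne hne]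
        exact hg1 p (mem_insert_of_mem hp)
      · intro p hp
        by_cases e : p = a
        · subst e
          rw [Function.update_self]
          exact hv
        · rw [Function.update_of_ne e]
          apply hg2
          rw [mem_insert, not_or]
          exact ⟨e, hp⟩
    have h3 := mul_nonneg h1.1 (h2 1 (Or.inr rfl))
    have h4 := mul_nonneg (by linarith : 0 ≤ 1 - g a) (h2 0 (Or.inl rfl))
    linarith

private theorem WtLU_ev_congr (c : Finset ℕ → ℝ) (P : Finset ℕ) {g g' : ℕ → ℝ}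
    (h : ∀ p ∈ P, g p = g' p) : ev c P g = ev c P g' := by
  unfold ev
  refine Finset.sum_congr rfl fun T hT => ?_
  congr 1
  exact Finset.prod_congr rfl fun p hp => h p (mem_powerset.mp hT hp)

private theorem WtLU_nonneg (c : Finset ℕ → ℝ) (P : Finset ℕ) (h : ∀ y, ZO y → 0 ≤ ev c P y)
    (g : ℕ → ℝ) (hg : ∀ p ∈ P, 0 ≤ g p ∧ g p ≤ 1) : 0 ≤ ev c P g := by
  classical
  rw [WtLU_ev_congr c P (g' := fun p => if p ∈ P then g p else 0)
    (fun p hp => by simp only [hp, if_true])]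
  apply WtLU_nonneg_aux c P h P
  · intro p hp
    simp only [hp, if_true]
    exact hg p hp
  · intro p hp
    left
    simp only [hp, if_false]

section Transport

variable {ι : Type} [DecidableEq ι]

/-- The weights on the component `i`. -/
private noncomputable def WtLU_tr (i : ι) (P : Finset ℕ) (c : Finset ℕ → ℝ) : Finset (ι × ℕ) → ℝ :=
  fun Q => if Q ⊆ {i} ×ˢ P then c (Q.image Prod.snd) else 0

private theorem WtLU_injOn {i : ι} {P : Finset ℕ} {Q : Finset (ι × ℕ)} (hQ : Q ⊆ {i} ×ˢ P) :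
    Set.InjOn Prod.snd (Q : Set (ι × ℕ)) := by
  rintro ⟨a, p⟩ ha ⟨b, q⟩ hb hpq
  have h1 := hQ (mem_coe.mp ha)
  have h2 := hQ (mem_coe.mp hb)
  rw [mem_product, mem_singleton] at h1 h2
  simp only at h1 h2 hpq
  rw [h1.1, h2.1, hpq]

private theorem WtLU_img {i : ι} {P : Finset ℕ} {Q : Finset (ι × ℕ)} (hQ : Q ⊆ {i} ×ˢ P) :
    Q.image Prod.snd ⊆ P := by
  intro p hp
  rw [mem_image] at hp
  obtain ⟨e, he, rfl⟩ := hp
  exact (mem_product.mp (hQ he)).2

private theorem WtLU_back {i : ι} {P : Finset ℕ} {Q : Finset (ι × ℕ)} (hQ : Q ⊆ {i} ×ˢ P) :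
    {i} ×ˢ (Q.image Prod.snd) = Q := by
  ext ⟨a, p⟩
  rw [mem_product, mem_singleton, mem_image]
  constructor
  · rintro ⟨h1, ⟨⟨b, q⟩, h2, h3⟩⟩
    have h4 := hQ h2
    rw [mem_product, mem_singleton] at h4
    simp only at h1 h3 h4
    rw [h1, ← h3, ← h4.1]
    exact h2
  · intro h
    have h4 := hQ h
    rw [mem_product, mem_singleton] at h4
    exact ⟨h4.1, ⟨(a, p), h, rfl⟩⟩

private theorem WtLU_prod {i : ι} {P : Finset ℕ} {Q : Finset (ι × ℕ)} (hQ : Q ⊆ {i} ×ˢ P)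
    (y : ι × ℕ → ℝ) : ∏ e ∈ Q, y e = ∏ p ∈ Q.image Prod.snd, y (i, p) := by
  rw [Finset.prod_image (fun a ha b hb hab => WtLU_injOn hQ (mem_coe.mpr ha) (mem_coe.mpr hb) hab)]
  refine Finset.prod_congr rfl fun e he => ?_
  have h4 := hQ he
  rw [mem_product, mem_singleton] at h4
  rw [← h4.1]

private theorem WtLU_Ev (i : ι) (P : Finset ℕ) (c : Finset ℕ → ℝ) (Z : Finset (ι × ℕ))
    (hZ : {i} ×ˢ P ⊆ Z) (y : ι × ℕ → ℝ) :
    Ev Z (WtLU_tr i P c) y = ev c P (fun p => y (i, p)) := by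
  unfold Ev ev
  rw [← Finset.sum_subset (Finset.powerset_mono.mpr hZ)]
  · refine Finset.sum_nbij' (fun T => T.image Prod.snd) (fun S => {i} ×ˢ S) ?_ ?_ ?_ ?_ ?_
    · intro T hT
      exact mem_powerset.mpr (WtLU_img (mem_powerset.mp hT))
    · intro S hS
      exact mem_powerset.mpr (Finset.product_subset_product (Finset.Subset.refl _)
        (mem_powerset.mp hS))
    · intro T hT
      exact WtLU_back (mem_powerset.mp hT)
    · intro S _
      exact Finset.product_image_snd (Finset.singleton_nonempty i)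
    · intro T hT
      have hT' := mem_powerset.mp hT
      rw [WtLU_prod hT' y]
      unfold WtLU_tr
      rw [if_pos hT']
  · intro T _ hT
    rw [mem_powerset] at hT
    unfold WtLU_tr
    rw [if_neg hT, zero_mul]

end Transport

private theorem WtLU_prod_ge (P : Finset ℕ) (a : ℕ → ℝ) (ha : ∀ p ∈ P, 0 ≤ a p ∧ a p ≤ 1) :
    1 - ∑ p ∈ P, a p ≤ ∏ p ∈ P, (1 - a p) := by
  classical
  induction P using Finset.induction_on with
  | empty => simp
  | insert q P hq ih =>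
    rw [Finset.sum_insert hq, Finset.prod_insert hq]
    have h1 := ha q (mem_insert_self q P)
    have h2 := ih (fun p hp => ha p (mem_insert_of_mem hp))
    have h3 : ∏ p ∈ P, (1 - a p) ≤ 1 :=
      Finset.prod_le_one (fun p hp => by linarith [(ha p (mem_insert_of_mem hp)).2])
        (fun p hp => by linarith [(ha p (mem_insert_of_mem hp)).1])
    nlinarith

private theorem WtLU_sum_le (P : Finset ℕ) (a : ℕ → ℝ) (ha : ∀ p ∈ P, 0 ≤ a p) :
    1 ≤ ∏ p ∈ P, (1 + a p) ∧ ∑ p ∈ P, a p ≤ ∏ p ∈ P, (1 + a p) := by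
  classical
  induction P using Finset.induction_on with
  | empty => simp
  | insert q P hq ih =>
    rw [Finset.sum_insert hq, Finset.prod_insert hq]
    have h1 := ha q (mem_insert_self q P)
    obtain ⟨h2, h3⟩ := ih (fun p hp => ha p (mem_insert_of_mem hp))
    constructor
    · nlinarith
    · nlinarith

/-- The comparison of the densities `1 / (p - 1)` and `1 / p`. -/
private theorem WtLU_dens (P : Finset ℕ) (Z F : ℝ) (hZ : 1 < Z) (hP : ∀ p ∈ P, Z ≤ (p : ℝ))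
    (hP2 : ∀ p ∈ P, 2 ≤ p) (hF : ∏ p ∈ P, (1 + fn p) ≤ F) :
    0 < ∏ p ∈ P, (1 - 1 / (p : ℝ)) ∧ 1 ≤ F ∧
    Vg g1 P ≤ ∏ p ∈ P, (1 - 1 / (p : ℝ)) ∧
    (∏ p ∈ P, (1 - 1 / (p : ℝ))) * (1 - F / (Z - 1)) ≤ Vg g1 P ∧
    ∀ c : Finset ℕ → ℝ, (∀ T, |c T| ≤ 1) → |ev c P g1 - ev c P (fun p => 1 / (p : ℝ))| ≤
      (∏ p ∈ P, (1 - 1 / (p : ℝ))) * (F ^ 3 / (Z - 1)) := by
  have hp2 : ∀ p ∈ P, (2 : ℝ) ≤ p := fun p hp => by exact_mod_cast hP2 p hp
  have hfn0 : ∀ p ∈ P, 0 ≤ fn p := by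
    intro p hp
    unfold fn
    have := hp2 p hp
    exact div_nonneg zero_le_one (by linarith)
  have hfn1 : ∀ p ∈ P, fn p ≤ 1 := by
    intro p hp
    unfold fn
    have := hp2 p hp
    rw [div_le_one (by linarith)]
    linarith
  have hr0 : ∀ p ∈ P, 0 ≤ 1 / (p : ℝ) := fun p _ => by positivity
  have hrf : ∀ p ∈ P, 1 / (p : ℝ) ≤ fn p := by
    intro p hp
    unfold fn
    have := hp2 p hp
    exact one_div_le_one_div_of_le (by linarith) (by linarith)
  have hr1 : ∀ p ∈ P, 0 < 1 - 1 / (p : ℝ) := by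
    intro p hp
    have := hp2 p hp
    have h1 : 1 / (p : ℝ) ≤ 1 / 2 := one_div_le_one_div_of_le (by norm_num) this
    linarith
  set Fp : ℝ := ∏ p ∈ P, (1 + fn p) with hFp
  set V : ℝ := ∏ p ∈ P, (1 - 1 / (p : ℝ)) with hV
  obtain ⟨hFp1, hsum⟩ := WtLU_sum_le P fn hfn0
  rw [← hFp] at hFp1 hsum
  have hF1 : 1 ≤ F := hFp1.trans hF
  have hVpos : 0 < V := Finset.prod_pos hr1
  have hVF : V * Fp = 1 := by
    rw [hV, hFp, ← Finset.prod_mul_distrib]
    apply Finset.prod_eq_one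
    intro p hp
    unfold fn
    have := hp2 p hp
    have h1 : (p : ℝ) - 1 ≠ 0 := by
      intro h
      linarith
    have h2 : (p : ℝ) ≠ 0 := by
      intro h
      linarith
    field_simp
    ring
  have hZ1 : 0 < Z - 1 := by linarith
  have hS2 : ∑ p ∈ P, fn p ^ 2 ≤ F / (Z - 1) := by
    calc ∑ p ∈ P, fn p ^ 2 ≤ ∑ p ∈ P, fn p * (1 / (Z - 1)) := by
          apply Finset.sum_le_sum
          intro p hp
          rw [sq]
          apply mul_le_mul_of_nonneg_left _ (hfn0 p hp)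
          unfold fn
          exact one_div_le_one_div_of_le hZ1 (by linarith [hP p hp])
      _ = (∑ p ∈ P, fn p) * (1 / (Z - 1)) := by rw [Finset.sum_mul]
      _ ≤ F * (1 / (Z - 1)) :=
          mul_le_mul_of_nonneg_right (hsum.trans hF) (by positivity)
      _ = F / (Z - 1) := by ring
  have hg1 : ∀ p, g1 p = fn p := fun p => rfl
  refine ⟨hVpos, hF1, ?_, ?_, ?_⟩
  · unfold Vg
    apply Finset.prod_le_prod
    · intro p hp
      rw [hg1]
      linarith [hfn1 p hp]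
    · intro p hp
      rw [hg1]
      linarith [hrf p hp]
  · have h1 : Vg g1 P = V * ∏ p ∈ P, (1 - fn p ^ 2) := by
      unfold Vg
      rw [hV, ← Finset.prod_mul_distrib]
      refine Finset.prod_congr rfl fun p hp => ?_
      rw [hg1]
      unfold fn
      have := hp2 p hp
      have h1 : (p : ℝ) - 1 ≠ 0 := by
        intro h
        linarith
      have h2 : (p : ℝ) ≠ 0 := by
        intro h
        linarith
      field_simp
      ring
    rw [h1]
    apply mul_le_mul_of_nonneg_left _ hVpos.le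
    have h2 := WtLU_prod_ge P (fun p => fn p ^ 2) (fun p hp => ⟨sq_nonneg _, by
      have h3 := hfn1 p hp
      have h4 := hfn0 p hp
      nlinarith⟩)
    linarith
  · intro c hc
    have h1 : |ev c P g1 - ev c P (fun p => 1 / (p : ℝ))| ≤
        ∑ T ∈ P.powerset, (∏ p ∈ T, fn p - ∏ p ∈ T, 1 / (p : ℝ)) := by
      unfold ev
      rw [← Finset.sum_sub_distrib]
      refine (Finset.abs_sum_le_sum_abs _ _).trans ?_
      apply Finset.sum_le_sum
      intro T hT
      have hT' := mem_powerset.mp hT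
      rw [← mul_sub, abs_mul]
      have h2 : ∏ p ∈ T, 1 / (p : ℝ) ≤ ∏ p ∈ T, fn p :=
        Finset.prod_le_prod (fun p hp => hr0 p (hT' hp)) (fun p hp => hrf p (hT' hp))
      have h3 : |∏ p ∈ T, g1 p - ∏ p ∈ T, 1 / (p : ℝ)| =
          ∏ p ∈ T, fn p - ∏ p ∈ T, 1 / (p : ℝ) := by
        apply abs_of_nonneg
        have : ∏ p ∈ T, g1 p = ∏ p ∈ T, fn p := rfl
        rw [this]
        linarith
      rw [h3]
      calc |c T| * (∏ p ∈ T, fn p - ∏ p ∈ T, 1 / (p : ℝ)) ≤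
            1 * (∏ p ∈ T, fn p - ∏ p ∈ T, 1 / (p : ℝ)) :=
            mul_le_mul_of_nonneg_right (hc T) (by linarith)
        _ = _ := one_mul _
    refine h1.trans ?_
    rw [Finset.sum_sub_distrib, ← Finset.prod_one_add, ← Finset.prod_one_add]
    have h4 : ∏ p ∈ P, (1 + 1 / (p : ℝ)) = Fp * ∏ p ∈ P, (1 - (1 / (p : ℝ)) ^ 2) := by
      rw [hFp, ← Finset.prod_mul_distrib]
      refine Finset.prod_congr rfl fun p hp => ?_
      unfold fn
      have := hp2 p hp
      have h1 : (p : ℝ) - 1 ≠ 0 := by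
        intro h
        linarith
      have h2 : (p : ℝ) ≠ 0 := by
        intro h
        linarith
      field_simp
      ring
    have h5 := WtLU_prod_ge P (fun p => (1 / (p : ℝ)) ^ 2) (fun p hp => ⟨sq_nonneg _, by
      have h3 := hr1 p hp
      have h4 := hr0 p hp
      nlinarith⟩)
    have h6 : ∑ p ∈ P, (1 / (p : ℝ)) ^ 2 ≤ ∑ p ∈ P, fn p ^ 2 := by
      apply Finset.sum_le_sum
      intro p hp
      exact pow_le_pow_left₀ (hr0 p hp) (hrf p hp) 2
    have h7 : 1 - F / (Z - 1) ≤ ∏ p ∈ P, (1 - (1 / (p : ℝ)) ^ 2) := by linarith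
    have hFp0 : 0 ≤ Fp := by linarith
    have h8 : Fp * (1 - F / (Z - 1)) ≤ ∏ p ∈ P, (1 + 1 / (p : ℝ)) := by
      rw [h4]
      exact mul_le_mul_of_nonneg_left h7 hFp0
    have h9 : Fp * (F / (Z - 1)) = V * (Fp ^ 2 * F / (Z - 1)) := by
      have : V * (Fp ^ 2 * F / (Z - 1)) = (V * Fp) * (Fp * (F / (Z - 1))) := by ring
      rw [this, hVF, one_mul]
    have h10 : Fp ^ 2 * F / (Z - 1) ≤ F ^ 3 / (Z - 1) := by
      apply div_le_div_of_nonneg_right _ hZ1.le
      have h11 : Fp ^ 2 ≤ F ^ 2 := pow_le_pow_left₀ hFp0 hF 2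
      calc Fp ^ 2 * F ≤ F ^ 2 * F := mul_le_mul_of_nonneg_right h11 (by linarith)
        _ = F ^ 3 := by ring
    have h12 := mul_le_mul_of_nonneg_left h10 hVpos.le
    have h13 : Fp - ∏ p ∈ P, (1 + 1 / (p : ℝ)) ≤ Fp * (F / (Z - 1)) := by
      have : Fp * (1 - F / (Z - 1)) = Fp - Fp * (F / (Z - 1)) := by ring
      linarith
    linarith

private theorem WtLU_growth (K : ℝ) (N : ℕ) (hK : 0 ≤ K) : ∀ᶠ x : ℕ in atTop,
    K * Real.log x ^ N + 1 ≤ z0 x := by
  have hL : Tendsto (fun x : ℕ => Real.log (x : ℝ)) atTop atTop :=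
    Real.tendsto_log_atTop.comp tendsto_natCast_atTop_atTop
  have hl : Tendsto (fun x : ℕ => Real.log (Real.log (x : ℝ))) atTop atTop :=
    Real.tendsto_log_atTop.comp hL
  have hN : (0 : ℝ) < (N : ℝ) + 2 := by positivity
  have ho : ∀ᶠ L : ℝ in atTop, ‖Real.log L ^ 3‖ ≤ (1 / ((N : ℝ) + 2)) * ‖L‖ :=
    (Real.isLittleO_pow_log_id_atTop (n := 3)).def (by positivity)
  filter_upwards [hL.eventually ho, hL.eventually_ge_atTop (K + 1), hl.eventually_ge_atTop 1]
    with x h1 h2 h3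
  set L : ℝ := Real.log x with hLdef
  set l : ℝ := Real.log L with hldef
  have hL1 : 1 ≤ L := by linarith
  have hL0 : 0 < L := by linarith
  have hl2 : 0 < l ^ 2 := by positivity
  have h5 : l ^ 3 ≤ (1 / ((N : ℝ) + 2)) * L := by
    rw [Real.norm_of_nonneg (by positivity), Real.norm_of_nonneg hL0.le] at h1
    exact h1
  have h6 : ((N : ℝ) + 2) * l ≤ L / l ^ 2 := by
    rw [le_div_iff₀ hl2]
    have h7 : ((N : ℝ) + 2) * l ^ 3 ≤ L := by
      have := mul_le_mul_of_nonneg_left h5 hN.le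
      have h8 : ((N : ℝ) + 2) * (1 / ((N : ℝ) + 2) * L) = L := by field_simp
      linarith
    calc ((N : ℝ) + 2) * l * l ^ 2 = ((N : ℝ) + 2) * l ^ 3 := by ring
      _ ≤ L := h7
  have h9 : L ^ (N + 2) ≤ z0 x := by
    have h10 : z0 x = Real.exp (L / l ^ 2) := rfl
    rw [h10]
    calc L ^ (N + 2) = Real.exp (((N : ℝ) + 2) * l) := by
          have h11 : ((N : ℝ) + 2) * l = ((N + 2 : ℕ) : ℝ) * l := by push_cast; ring
          rw [h11, Real.exp_nat_mul, hldef, Real.exp_log hL0]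
      _ ≤ Real.exp (L / l ^ 2) := Real.exp_le_exp.mpr h6
  have h12 : (1 : ℝ) ≤ L ^ N := one_le_pow₀ hL1
  have h13 : L ^ (N + 2) = L ^ N * (L * L) := by ring
  have h14 : K + 1 ≤ L * L := by nlinarith
  have h15 : L ^ N * (K + 1) ≤ L ^ N * (L * L) := mul_le_mul_of_nonneg_left h14 (by positivity)
  linarith

/-- All that is needed about large `x`. -/
private theorem WtLU_ev (δ K : ℝ) (hδ : 0 < δ) (hK : 0 ≤ K) (ε : ℝ) (hε : 0 < ε) :
    ∀ᶠ x : ℕ in atTop, 1 ≤ x ∧ BigP ((x : ℝ) ^ δ) (PZ x δ) ∧ 1 < z0 x ∧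
      ∃ F : ℝ, ∏ p ∈ PZ x δ, (1 + fn p) ≤ F ∧ K * (F ^ 3 / (z0 x - 1)) ≤ ε := by
  obtain ⟨B, hB⟩ := euler_pow 1 zero_le_one
  filter_upwards [hB, WtLU_growth (K / ε + Real.exp 24 + 1) (3 * B) (by positivity),
    eventually_ge_atTop 3] with x h1 h2 h3
  have hx3 : (3 : ℝ) ≤ x := by exact_mod_cast h3
  have hlog : 1 ≤ Real.log x := by
    rw [← Real.log_exp 1]
    apply Real.log_le_log (Real.exp_pos 1)
    have := Real.exp_one_lt_d9
    linarith
  have hpow : 1 ≤ Real.log x ^ (3 * B) := one_le_pow₀ hlog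
  have hKε : 0 ≤ K / ε := by positivity
  have he : 0 < Real.exp 24 := Real.exp_pos 24
  have hz1 : (K / ε + Real.exp 24 + 1) * Real.log x ^ (3 * B) + 1 ≤ z0 x := h2
  have hz2 : K / ε + Real.exp 24 + 1 + 1 ≤ z0 x := by nlinarith
  refine ⟨by omega, ?_, by linarith, Real.log x ^ B, ?_, ?_⟩
  · intro p hp
    unfold PZ at hp
    rw [mem_filter] at hp
    obtain ⟨hp1, hp2⟩ := hp
    unfold PX at hp1
    rw [mem_filter] at hp1
    exact ⟨hp1.2.1, by linarith [hp1.2.2], hp2⟩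
  · refine le_trans ?_ h1
    have hsub : PZ x δ ⊆ (range (x + 1)).filter Nat.Prime := by
      intro p hp
      unfold PZ PX at hp
      rw [mem_filter, mem_filter] at hp
      rw [mem_filter]
      exact ⟨hp.1.1, hp.1.2.1⟩
    have hf : ∀ p ∈ (range (x + 1)).filter Nat.Prime, 0 ≤ fn p := by
      intro p hp
      rw [mem_filter] at hp
      have h4 : (2 : ℝ) ≤ p := by exact_mod_cast hp.2.two_le
      unfold fn
      exact div_nonneg zero_le_one (by linarith)
    calc ∏ p ∈ PZ x δ, (1 + fn p)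
        ≤ ∏ p ∈ (range (x + 1)).filter Nat.Prime, (1 + fn p) := by
          rw [← Finset.prod_sdiff hsub]
          have h10 : 1 ≤ ∏ p ∈ (range (x + 1)).filter Nat.Prime \ PZ x δ, (1 + fn p) :=
            (WtLU_sum_le _ fn (fun p hp => hf p (mem_sdiff.mp hp).1)).1
          have h11 : 0 ≤ ∏ p ∈ PZ x δ, (1 + fn p) :=
            Finset.prod_nonneg fun p hp => by linarith [hf p (hsub hp)]
          exact le_mul_of_one_le_left h11 h10
      _ = ∏ p ∈ (range (x + 1)).filter Nat.Prime, (1 + 1 * fn p) := by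
          refine Finset.prod_congr rfl fun p _ => ?_
          rw [one_mul]
  · have h5 : (Real.log x ^ B) ^ 3 = Real.log x ^ (3 * B) := by
      rw [← pow_mul, mul_comm]
    rw [h5, ← mul_div_assoc, div_le_iff₀ (by linarith)]
    have h6 : K = ε * (K / ε) := by field_simp
    have h7 : (K / ε) * Real.log x ^ (3 * B) ≤ z0 x - 1 := by
      have h8 : 0 ≤ (Real.exp 24 + 1) * Real.log x ^ (3 * B) := by positivity
      have h9 : (K / ε + Real.exp 24 + 1) * Real.log x ^ (3 * B) =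
        (K / ε) * Real.log x ^ (3 * B) + (Real.exp 24 + 1) * Real.log x ^ (3 * B) := by ring
      linarith
    calc K * Real.log x ^ (3 * B) = ε * ((K / ε) * Real.log x ^ (3 * B)) := by
          rw [← mul_assoc, ← h6]
      _ ≤ ε * (z0 x - 1) := mul_le_mul_of_nonneg_left h7 hε.le

/-- The properties of the transported weights. -/
private theorem WtLU_cls (ι : Type) [Fintype ι] [DecidableEq ι] (i : ι) (δ s : ℝ) (x : ℕ)
    (c : Finset ℕ → ℝ) (hc : Wt (PZ x δ) (((x : ℝ) ^ δ) ^ s) c) :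
    Cls x 0 1 ((x : ℝ) ^ (δ * s)) (WtLU_tr i (PZ x δ) c) ∧
      (∀ Q, WtLU_tr i (PZ x δ) c Q ≠ 0 → Q ⊆ Si x δ i) ∧
      {i} ×ˢ PZ x δ ⊆ EX ι x := by
  have hsub : {i} ×ˢ PZ x δ ⊆ EX ι x := by
    intro e he
    rw [mem_product] at he
    unfold EX
    rw [mem_product]
    refine ⟨mem_univ _, ?_⟩
    have := he.2
    unfold PZ at this
    exact (mem_filter.mp this).1
  have hne : ∀ Q, WtLU_tr i (PZ x δ) c Q ≠ 0 → Q ⊆ {i} ×ˢ PZ x δ := by
    intro Q hQ
    by_contra h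
    apply hQ
    unfold WtLU_tr
    rw [if_neg h]
  refine ⟨?_, fun Q hQ => hne Q hQ, hsub⟩
  intro Q
  constructor
  · rw [pow_zero, one_pow, one_mul]
    unfold WtLU_tr
    split_ifs
    · exact hc.1 _
    · rw [abs_zero]
      exact zero_le_one
  · intro hQ
    have h1 := hne Q hQ
    refine ⟨h1.trans hsub, ?_⟩
    have h2 : c (Q.image Prod.snd) ≠ 0 := by
      unfold WtLU_tr at hQ
      rwa [if_pos h1] at hQ
    have h3 := (hc.2 _ h2).2
    rw [WtLU_prod h1 (fun e => (e.2 : ℝ)), Real.rpow_mul (Nat.cast_nonneg x)]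
    exact h3

open Classical in
private theorem WtLU_Vg {ι : Type} (h : ι → ℕ) (i : ι) (n : ℕ) (P : Finset ℕ) :
    ZO (fun p => yy h n (i, p)) ∧
      Vg (fun p => yy h n (i, p)) P = if ∀ p ∈ P, ¬ p ∣ n + h i then 1 else 0 := by
  constructor
  · intro p
    unfold yy
    simp only
    split_ifs
    · right
      rfl
    · left
      rfl
  · unfold Vg
    split_ifs with h1
    · apply Finset.prod_eq_one
      intro p hp
      unfold yy
      simp only
      rw [if_neg (h1 p hp), sub_zero]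
    · push Not at h1
      obtain ⟨p, hp, hdvd⟩ := h1
      apply Finset.prod_eq_zero hp
      unfold yy
      simp only
      rw [if_pos hdvd, sub_self]

private theorem WtLU_le (c d : Finset ℕ → ℝ) (P : Finset ℕ) (h : ∀ y, ZO y → ev c P y ≤ ev d P y)
    (g : ℕ → ℝ) (hg : ∀ p ∈ P, 0 ≤ g p ∧ g p ≤ 1) : ev c P g ≤ ev d P g := by
  have h1 := WtLU_nonneg (fun T => d T - c T) P (fun y hy => by
    rw [Pool.Agent.H91.PK.SvA_ev_sub]
    linarith [h y hy]) g hg
  rw [Pool.Agent.H91.PK.SvA_ev_sub] at h1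
  linarith

theorem wtLU (ι : Type) [Fintype ι] [DecidableEq ι] (h : ι → ℕ) (i : ι) (δ s f F ε : ℝ) (hδ : 0 < δ) (hδ1 : δ ≤ 1)
    (hs : 0 ≤ s) (hf : 0 ≤ f) (hF : 0 ≤ F) (hL : L1 s f) (hU : U1 s F) (hε : 0 < ε) :
    ∀ᶠ x : ℕ in atTop, ∃ cL cU : Finset (ι × ℕ) → ℝ,
      Cls x 0 1 ((x : ℝ) ^ (δ * s)) cL ∧ Cls x 0 1 ((x : ℝ) ^ (δ * s)) cU ∧
      (∀ Q, cL Q ≠ 0 → Q ⊆ Si x δ i) ∧ (∀ Q, cU Q ≠ 0 → Q ⊆ Si x δ i) ∧
      (∀ n, Ev (EX ι x) cL (yy h n) ≤ if ∀ p ∈ PZ x δ, ¬ p ∣ n + h i then 1 else 0) ∧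
      (∀ n, (if ∀ p ∈ PZ x δ, ¬ p ∣ n + h i then 1 else 0) ≤ Ev (EX ι x) cU (yy h n)) ∧
      (f - ε) * V1 x δ ≤ Ev (Si x δ i) cL gi ∧ Ev (Si x δ i) cL gi ≤ V1 x δ ∧
      V1 x δ ≤ Ev (Si x δ i) cU gi ∧ Ev (Si x δ i) cU gi ≤ (F + ε) * V1 x δ := by
  filter_upwards [WtLU_ev δ (f + 1) hδ (by linarith) ε hε, WtLU_ev δ 1 hδ zero_le_one ε hε]
    with x hx hx'
  obtain ⟨hx1, hbig, hz, F0, hF0, hFε⟩ := hx
  obtain ⟨-, -, -, G, hG, hGε⟩ := hx'
  have hx1' : (1 : ℝ) ≤ x := by exact_mod_cast hx1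
  have hzp : ∀ p ∈ PZ x δ, z0 x ≤ (p : ℝ) := by
    intro p hp
    unfold PZ PX at hp
    rw [mem_filter, mem_filter] at hp
    exact hp.1.2.2.le
  have hg01 : ∀ p ∈ PZ x δ, 0 ≤ 1 / (p : ℝ) ∧ 1 / (p : ℝ) ≤ 1 := by
    intro p hp
    have h2 : (2 : ℝ) ≤ p := by exact_mod_cast (hbig p hp).1.two_le
    refine ⟨by positivity, ?_⟩
    rw [div_le_one (by linarith)]
    linarith
  have hVV : V1 x δ = Vg (fun p => 1 / (p : ℝ)) (PZ x δ) := rfl
  obtain ⟨cL, hcL1, hcL2, hcL3⟩ := hL ((x : ℝ) ^ δ) (Real.one_le_rpow hx1' hδ.le) (PZ x δ) hbig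
  obtain ⟨hclL, hsupL, hsub⟩ := WtLU_cls ι i δ s x cL hcL1
  obtain ⟨cU, hcU1, hcU2, hcU3⟩ := hU ((x : ℝ) ^ δ) (Real.one_le_rpow hx1' hδ.le) (PZ x δ) hbig
  obtain ⟨hclU, hsupU, -⟩ := WtLU_cls ι i δ s x cU hcU1
  have h5L : Ev (Si x δ i) (WtLU_tr i (PZ x δ) cL) gi = ev cL (PZ x δ) (fun p => 1 / (p : ℝ)) :=
    WtLU_Ev i (PZ x δ) cL (Si x δ i) (Finset.Subset.refl _) gi
  have h5U : Ev (Si x δ i) (WtLU_tr i (PZ x δ) cU) gi = ev cU (PZ x δ) (fun p => 1 / (p : ℝ)) :=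
    WtLU_Ev i (PZ x δ) cU (Si x δ i) (Finset.Subset.refl _) gi
  refine ⟨WtLU_tr i (PZ x δ) cL, WtLU_tr i (PZ x δ) cU, hclL, hclU, hsupL, hsupU, ?_, ?_, ?_, ?_,
    ?_, ?_⟩
  · intro n
    rw [WtLU_Ev i (PZ x δ) cL (EX ι x) hsub]
    obtain ⟨h1, h2⟩ := WtLU_Vg h i n (PZ x δ)
    have h3 := hcL2 _ h1
    rw [h2] at h3
    refine h3.trans (le_of_eq ?_)
    split_ifs <;> rfl
  · intro n
    rw [WtLU_Ev i (PZ x δ) cU (EX ι x) hsub]
    obtain ⟨h1, h2⟩ := WtLU_Vg h i n (PZ x δ)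
    have h3 := hcU2 _ h1
    rw [h2] at h3
    refine le_trans (le_of_eq ?_) h3
    split_ifs <;> rfl
  · obtain ⟨hV0, hF1, hV1, hV2, hV3⟩ := WtLU_dens (PZ x δ) (z0 x) F0 hz hzp
      (fun p hp => (hbig p hp).1.two_le) hF0
    have h4 := hV3 cL hcL1.1
    rw [h5L]
    have hVV : V1 x δ = ∏ p ∈ PZ x δ, (1 - 1 / (p : ℝ)) := rfl
    rw [hVV]
    set V : ℝ := ∏ p ∈ PZ x δ, (1 - 1 / (p : ℝ)) with hVdef
    have hz1 : 0 < z0 x - 1 := by linarith
    have h6 : F0 / (z0 x - 1) ≤ F0 ^ 3 / (z0 x - 1) := by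
      apply div_le_div_of_nonneg_right _ hz1.le
      nlinarith [mul_self_nonneg (F0 - 1)]
    have h7 : f * (V * (1 - F0 / (z0 x - 1))) ≤ f * Vg g1 (PZ x δ) :=
      mul_le_mul_of_nonneg_left hV2 hf
    have h8 := abs_le.mp h4
    have h9 : f * (V * (F0 / (z0 x - 1))) ≤ f * (V * (F0 ^ 3 / (z0 x - 1))) :=
      mul_le_mul_of_nonneg_left (mul_le_mul_of_nonneg_left h6 hV0.le) hf
    have h10 : V * ((f + 1) * (F0 ^ 3 / (z0 x - 1))) ≤ V * ε :=
      mul_le_mul_of_nonneg_left hFε hV0.le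
    have h11 : f * (V * (1 - F0 / (z0 x - 1))) = f * V - f * (V * (F0 / (z0 x - 1))) := by ring
    have h12 : V * ((f + 1) * (F0 ^ 3 / (z0 x - 1))) =
      f * (V * (F0 ^ 3 / (z0 x - 1))) + V * (F0 ^ 3 / (z0 x - 1)) := by ring
    have h13 : (f - ε) * V = f * V - V * ε := by ring
    linarith [h8.2, hcL3]
  · rw [h5L, hVV, ← Pool.Agent.H91.PK.SvA_ev_ex]
    apply WtLU_le _ _ _ _ _ hg01
    intro y hy
    rw [Pool.Agent.H91.PK.SvA_ev_ex]
    exact hcL2 y hy
  · rw [h5U, hVV, ← Pool.Agent.H91.PK.SvA_ev_ex]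
    apply WtLU_le _ _ _ _ _ hg01
    intro y hy
    rw [Pool.Agent.H91.PK.SvA_ev_ex]
    exact hcU2 y hy
  · obtain ⟨hV0, hF1, hV1, hV2, hV3⟩ := WtLU_dens (PZ x δ) (z0 x) G hz hzp
      (fun p hp => (hbig p hp).1.two_le) hG
    have h4 := hV3 cU hcU1.1
    rw [h5U]
    have hVV : V1 x δ = ∏ p ∈ PZ x δ, (1 - 1 / (p : ℝ)) := rfl
    rw [hVV]
    set V : ℝ := ∏ p ∈ PZ x δ, (1 - 1 / (p : ℝ)) with hVdef
    have h8 := abs_le.mp h4
    have h9 : F * Vg g1 (PZ x δ) ≤ F * V := mul_le_mul_of_nonneg_left hV1 hF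
    have h10 : V * (1 * (G ^ 3 / (z0 x - 1))) ≤ V * ε := mul_le_mul_of_nonneg_left hGε hV0.le
    rw [one_mul] at h10
    have h13 : (F + ε) * V = F * V + V * ε := by ring
    linarith [h8.1, hcU3]

end Pool.Agent.H36.IS2

end

section

/-!
# IS SumI: the basic sum

Ly^2 = Ev EZ (uc EZ lam lam) yy (`Ev_uc`, yy ∈ {0,1}) = Ev EX (uc EX lam lam) yy (`Ev_sup`, `uc_ground`), the array is in the class
(2B, 8, x^(2θ)) (`cls_lam`, `cls_uc`), 2θ ≤ 1 - η, and Ev EX (uc) gi = Ev EZ (uc EZ lam lam) gi = ∑ y² ∏ fo gi = My (`EE_lam`).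
Then `trI`.  (K ≤ log x for large x, so Yok with constant K is Yok with (log x)^(B1) for B1 ≥ 1: `Yok.mono`; the statement is
given for the bound (log x)^B1.)
-/

set_option autoImplicit false

namespace Pool.Agent.H36.IS

open Finset Filter

private theorem SumI_sub {ι : Type} [Fintype ι] [DecidableEq ι] (x : ℕ) (δ : ℝ) : EZ ι x δ ⊆ EX ι x := by
  unfold EZ EX
  refine Finset.product_subset_product le_rfl ?_
  unfold PZ
  exact Finset.filter_subset _ _

theorem sumI (ι : Type) [Fintype ι] [DecidableEq ι] (h : ι → ℕ) (W b : ℕ) (hG : Good h W b) (B1 : ℕ) (δ θ : ℝ)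
    (hδ : 0 < δ) (hδ1 : δ ≤ 1) (hθ : θ < 1 / 2) (A : ℕ) :
    ∀ᶠ x : ℕ in atTop, ∀ y : Finset (ι × ℕ) → ℝ, Yok x δ θ (Real.log x ^ B1) y →
      |∑ n ∈ AA h W b x, Ly h x δ y n ^ 2 - Mn ι W x * My ι x δ y| ≤ x / Real.log x ^ A := by
  obtain ⟨B, hB⟩ := cls_lam ι B1
  have htr := trI ι h W b hG (B + B) 8 (1 - 2 * θ) (by norm_num) (by linarith) A
  have hlog : ∀ᶠ x : ℕ in atTop, 1 ≤ Real.log x :=
    (Real.tendsto_log_atTop.comp tendsto_natCast_atTop_atTop).eventually_ge_atTop 1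
  filter_upwards [hB, htr, hlog, eventually_gt_atTop 0] with x h1 h2 h3 hx0 y hy
  have hx0' : (0 : ℝ) < x := by exact_mod_cast hx0
  have hZX : EZ ι x δ ⊆ EX ι x := SumI_sub x δ
  have hgi : ∀ e ∈ EZ ι x δ, 0 < gi e ∧ gi e < 1 := fun e he => (fo_gi (hZX he)).2
  set l : Finset (ι × ℕ) → ℝ := lam (EZ ι x δ) gi y with hl
  have hls : ∀ Q, l Q ≠ 0 → Q ⊆ EZ ι x δ := by
    intro Q hQ
    obtain ⟨R, hR1, hR2, _⟩ := lam_sup hQ
    exact hR1.trans hR2
  have hyy : ∀ n, ∀ e ∈ EX ι x, yy h n e = 0 ∨ yy h n e = 1 := by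
    intro n e _
    unfold yy
    by_cases hd : e.2 ∣ n + h e.1
    · right; rw [if_pos hd]
    · left; rw [if_neg hd]
  have e1 : ∀ n, Ly h x δ y n ^ 2 = Ev (EX ι x) (uc (EX ι x) l l) (yy h n) := by
    intro n
    rw [Ev_uc l l (hyy n), Ev_sup hZX hls, sq]
    rfl
  have e2 : Ev (EX ι x) (uc (EX ι x) l l) gi = My ι x δ y := by
    rw [uc_ground hZX hls hls, Ev_sup hZX, hl, EE_lam hgi y y]
    · unfold My MM
      refine Finset.sum_congr rfl fun R _ => ?_
      rw [sq]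
    · intro Q hQ
      exact (uc_sup hls hls Q hQ).2
  have hcl : Cls x (B + B) 8 ((x : ℝ) ^ (1 - (1 - 2 * θ))) (uc (EX ι x) l l) := by
    have h4 := h1 δ θ y hy
    have h5 := cls_uc h3 (by norm_num : (0 : ℝ) ≤ 2) (by norm_num : (0 : ℝ) ≤ 2)
      (Real.rpow_nonneg hx0'.le θ) (Real.rpow_nonneg hx0'.le θ) h4 h4
    rw [← Real.rpow_add hx0'] at h5
    rw [show (1 : ℝ) - (1 - 2 * θ) = θ + θ by ring]
    rw [show (8 : ℝ) = 2 + 2 + 2 * 2 by norm_num]
    exact h5
  have h6 := h2 _ hcl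
  rw [e2] at h6
  rw [Finset.sum_congr rfl (fun n _ => e1 n)]
  exact h6

end Pool.Agent.H36.IS

end

section

/-!
# IS Ptw: pointwise bound

|Ly| = |∑_{Q ⊆ EZ} lam Q ∏ yy| ≤ ∑_{Q ⊆ D} L^B 2^|Q| = L^B 3^|D|, D = {(i,p) : p ∈ PX, p ∣ n + h i};  |D| ≤ ∑_i #{p > z0 : p ∣ n + h i}
≤ k log(2x + H)/log z0 ≤ 2k (loglog x)², so Ly² ≤ L^(2B) 9^(2k (loglog x)²) ≤ x^ε.
-/

set_option autoImplicit false

namespace Pool.Agent.H36.IS

open Finset Filter

/-- few large primes divide a number -/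
private theorem Ptw_few {z : ℝ} (hz : 1 < z) {m : ℕ} (hm : 0 < m) (S : Finset ℕ)
    (hS : ∀ p ∈ S, p.Prime ∧ z < (p : ℝ) ∧ p ∣ m) : (S.card : ℝ) * Real.log z ≤ Real.log m := by
  have h1 : ∏ p ∈ S, p ∣ m :=
    Finset.prod_primes_dvd m (fun p hp => (hS p hp).1.prime) (fun p hp => (hS p hp).2.2)
  have h2 : ∏ p ∈ S, p ≤ m := Nat.le_of_dvd hm h1
  have h3 : z ^ S.card ≤ (m : ℝ) := by
    calc z ^ S.card = ∏ _p ∈ S, z := (prod_const z).symm
      _ ≤ ∏ p ∈ S, (p : ℝ) :=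
          prod_le_prod (fun _ _ => by linarith) (fun p hp => (hS p hp).2.1.le)
      _ = ((∏ p ∈ S, p : ℕ) : ℝ) := by push_cast; rfl
      _ ≤ (m : ℝ) := by exact_mod_cast h2
  have h4 : 0 < z ^ S.card := by positivity
  have h5 := Real.log_le_log h4 h3
  rwa [Real.log_pow] at h5

private theorem Ptw_abs {α : Type*} [DecidableEq α] (P D : Finset α) (hD : D ⊆ P) (c : Finset α → ℝ)
    (v : α → ℝ) (hv1 : ∀ e ∈ D, v e = 1) (hv0 : ∀ e ∈ P, e ∉ D → v e = 0) {K : ℝ}
    (hc : ∀ Q, Q ⊆ D → |c Q| ≤ K * 2 ^ Q.card) : |Ev P c v| ≤ K * 3 ^ D.card := by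
  have h1 : Ev P c v = ∑ Q ∈ D.powerset, c Q := by
    unfold Ev
    rw [← sum_subset (powerset_mono.mpr hD)]
    · refine sum_congr rfl fun Q hQ => ?_
      rw [mem_powerset] at hQ
      rw [prod_eq_one fun e he => hv1 e (hQ he), mul_one]
    · intro Q hQ hQ2
      rw [mem_powerset] at hQ hQ2
      obtain ⟨e, he, he2⟩ := not_subset.mp hQ2
      rw [prod_eq_zero he (hv0 e (hQ he) he2), mul_zero]
  rw [h1]
  calc |∑ Q ∈ D.powerset, c Q| ≤ ∑ Q ∈ D.powerset, |c Q| := abs_sum_le_sum_abs _ _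
    _ ≤ ∑ Q ∈ D.powerset, K * 2 ^ Q.card :=
        sum_le_sum fun Q hQ => hc Q (mem_powerset.mp hQ)
    _ = K * 3 ^ D.card := by
        rw [← mul_sum]
        congr 1
        have h2 : ∏ _e ∈ D, ((1 : ℝ) + 2) = ∑ Q ∈ D.powerset, ∏ _e ∈ Q, (2 : ℝ) := prod_one_add D
        rw [prod_const] at h2
        rw [sum_congr rfl (fun Q _ => (prod_const (2 : ℝ)).symm), ← h2]
        norm_num

private theorem Ptw_analytic (B k : ℕ) (ε : ℝ) (hε : 0 < ε) : ∀ᶠ x : ℕ in atTop,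
    2 * B * Real.log (Real.log x) + 2 * k * Real.log (Real.log x) ^ 2 * Real.log 9 ≤
      ε * Real.log x := by
  have hu : Tendsto (fun x : ℕ => Real.log (x : ℝ)) atTop atTop :=
    Real.tendsto_log_atTop.comp tendsto_natCast_atTop_atTop
  have key : ∀ᶠ u : ℝ in atTop,
      2 * B * Real.log u + 2 * k * Real.log u ^ 2 * Real.log 9 ≤ ε * u := by
    have h1 : (fun u : ℝ => Real.log u ^ 1) =o[atTop] (id : ℝ → ℝ) := Real.isLittleO_pow_log_id_atTop
    have h2 : (fun u : ℝ => Real.log u ^ 2) =o[atTop] (id : ℝ → ℝ) := Real.isLittleO_pow_log_id_atTop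
    have h3 : (fun u : ℝ => (2 * B) * Real.log u ^ 1 + (2 * k * Real.log 9) * Real.log u ^ 2)
        =o[atTop] (id : ℝ → ℝ) := (h1.const_mul_left _).add (h2.const_mul_left _)
    filter_upwards [h3.bound hε, eventually_ge_atTop 0] with u hu1 hu0
    have h4 := (le_abs_self _).trans hu1
    rw [id, Real.norm_eq_abs, abs_of_nonneg hu0] at h4
    calc 2 * B * Real.log u + 2 * k * Real.log u ^ 2 * Real.log 9
        = (2 * B) * Real.log u ^ 1 + (2 * k * Real.log 9) * Real.log u ^ 2 := by ring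
      _ ≤ ε * u := h4
  exact hu.eventually key

theorem ptw (ι : Type) [Fintype ι] [DecidableEq ι] (h : ι → ℕ) (B1 : ℕ) (ε : ℝ) (hε : 0 < ε) :
    ∀ᶠ x : ℕ in atTop, ∀ (δ θ : ℝ) (y : Finset (ι × ℕ) → ℝ), Yok x δ θ (Real.log x ^ B1) y →
      ∀ n ∈ Ioc x (2 * x), Ly h x δ y n ^ 2 ≤ (x : ℝ) ^ ε := by
  obtain ⟨B, hB⟩ := cls_lam ι B1
  have hu : Tendsto (fun x : ℕ => Real.log (x : ℝ)) atTop atTop :=
    Real.tendsto_log_atTop.comp tendsto_natCast_atTop_atTop
  have hv : Tendsto (fun x : ℕ => Real.log (Real.log (x : ℝ))) atTop atTop :=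
    Real.tendsto_log_atTop.comp hu
  filter_upwards [hB, hu.eventually_ge_atTop 1, hv.eventually_ge_atTop 1,
    Ptw_analytic B (Fintype.card ι) ε hε, eventually_ge_atTop (∑ i, h i + 3)]
    with x hx hu1 hv1 hana hxH δ θ y hy n hn
  have hcls := hx δ θ y hy
  rw [mem_Ioc] at hn
  set u := Real.log (x : ℝ) with hudef
  set v := Real.log u with hvdef
  have hx0 : (0 : ℝ) < (x : ℝ) := by
    have : 0 < x := by omega
    exact_mod_cast this
  have hu0 : 0 < u := by linarith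
  have hv0 : 0 < v := by linarith
  have hlz : Real.log (z0 x) = u / v ^ 2 := by
    unfold z0
    rw [Real.log_exp]
  have hz1 : 1 < z0 x := by
    unfold z0
    rw [Real.one_lt_exp_iff]
    have : 0 < u / v ^ 2 := by positivity
    exact this
  set D : Finset (ι × ℕ) := (EZ ι x δ).filter (fun e => e.2 ∣ n + h e.1) with hDdef
  have hcard : (D.card : ℝ) ≤ Fintype.card ι * (2 * v ^ 2) := by
    have h1 : D.card = ∑ i : ι, ((PZ x δ).filter (fun p => p ∣ n + h i)).card := by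
      rw [hDdef]
      unfold EZ
      rw [card_filter, sum_product]
      refine sum_congr rfl fun i _ => ?_
      rw [card_filter]
    rw [h1]
    push_cast
    have h2 : ∀ i ∈ (univ : Finset ι),
        (((PZ x δ).filter (fun p => p ∣ n + h i)).card : ℝ) ≤ 2 * v ^ 2 := by
      intro i _
      have hm : 0 < n + h i := by omega
      have h3 := Ptw_few hz1 hm ((PZ x δ).filter (fun p => p ∣ n + h i)) (by
        intro p hp
        rw [mem_filter] at hp
        have hp1 := hp.1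
        unfold PZ PX at hp1
        rw [mem_filter, mem_filter] at hp1
        exact ⟨hp1.1.2.1, hp1.1.2.2, hp.2⟩)
      rw [hlz] at h3
      have h4 : Real.log ((n + h i : ℕ) : ℝ) ≤ 2 * u := by
        have h5 : n + h i ≤ x ^ 2 := by
          have h6 : h i ≤ ∑ j, h j := single_le_sum (fun _ _ => Nat.zero_le _) (mem_univ i)
          nlinarith
        have h7 : ((n + h i : ℕ) : ℝ) ≤ (x : ℝ) ^ 2 := by exact_mod_cast h5
        have h8 : (0 : ℝ) < ((n + h i : ℕ) : ℝ) := by exact_mod_cast hm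
        have h9 := Real.log_le_log h8 h7
        rw [Real.log_pow] at h9
        exact_mod_cast h9
      have h10 := h3.trans h4
      have h11 : (((PZ x δ).filter (fun p => p ∣ n + h i)).card : ℝ) * (u / v ^ 2) * (v ^ 2 / u) ≤
          2 * u * (v ^ 2 / u) := mul_le_mul_of_nonneg_right h10 (by positivity)
      have h12 : u / v ^ 2 * (v ^ 2 / u) = 1 := by
        field_simp
      have h13 : 2 * u * (v ^ 2 / u) = 2 * v ^ 2 := by
        field_simp
      rw [mul_assoc, h12, mul_one, h13] at h11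
      exact h11
    calc ∑ i : ι, (((PZ x δ).filter (fun p => p ∣ n + h i)).card : ℝ)
        ≤ ∑ _i : ι, 2 * v ^ 2 := sum_le_sum h2
      _ = Fintype.card ι * (2 * v ^ 2) := by
          rw [sum_const, card_univ, nsmul_eq_mul]
  have habs : |Ly h x δ y n| ≤ u ^ B * 3 ^ D.card := by
    unfold Ly
    refine Ptw_abs (EZ ι x δ) D (filter_subset _ _) _ _ ?_ ?_ (fun Q _ => (hcls Q).1)
    · intro e he
      rw [hDdef, mem_filter] at he
      unfold yy
      rw [if_pos he.2]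
    · intro e he he2
      unfold yy
      rw [if_neg]
      intro h3
      exact he2 (by rw [hDdef, mem_filter]; exact ⟨he, h3⟩)
  have hsq : Ly h x δ y n ^ 2 ≤ (u ^ B * 3 ^ D.card) ^ 2 := by
    rw [← sq_abs]
    exact pow_le_pow_left₀ (abs_nonneg _) habs 2
  refine hsq.trans ?_
  have e1 : (u ^ B * 3 ^ D.card) ^ 2 = Real.exp (2 * B * v + D.card * Real.log 9) := by
    rw [Real.exp_add]
    have e2 : Real.exp (2 * B * v) = (u ^ B) ^ 2 := by
      rw [← pow_mul]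
      have e3 : 2 * (B : ℝ) * v = ((B * 2 : ℕ) : ℝ) * v := by push_cast; ring
      rw [e3, Real.exp_nat_mul, hvdef, Real.exp_log hu0]
    have e4 : Real.exp (D.card * Real.log 9) = ((3 : ℝ) ^ D.card) ^ 2 := by
      rw [Real.exp_nat_mul, Real.exp_log (by norm_num), ← pow_mul, mul_comm D.card 2, pow_mul]
      norm_num
    rw [e2, e4]
    ring
  rw [e1, Real.rpow_def_of_pos hx0]
  refine Real.exp_le_exp.mpr ?_
  have hl9 : 0 ≤ Real.log 9 := Real.log_nonneg (by norm_num)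
  have h14 : D.card * Real.log 9 ≤ Fintype.card ι * (2 * v ^ 2) * Real.log 9 :=
    mul_le_mul_of_nonneg_right hcard hl9
  have h15 : Real.log (x : ℝ) * ε = ε * u := by rw [← hudef]; ring
  rw [h15]
  calc 2 * B * v + D.card * Real.log 9
      ≤ 2 * B * v + Fintype.card ι * (2 * v ^ 2) * Real.log 9 := by linarith
    _ = 2 * B * v + 2 * (Fintype.card ι : ℝ) * v ^ 2 * Real.log 9 := by ring
    _ ≤ ε * u := hana

end Pool.Agent.H36.IS

end
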