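import Pool.Agent.H47.B1.H91.PK.Defs

/-! The parts of this file: H91.PK.Vau, H91.EHA.T1fin. -/

section

/-!
PK Vau: Vaughan's identity, summed against an arbitrary function `g`.

Pointwise: for n ≥ 1
 Λ(n) = [n ≤ U] Λ(n) + ∑_{ab=n, a ≤ V} μ(a) log b - ∑_{ab=n} nuV(a) + ∑_{ml=n, m > U} Λ(m) cV(l),
 (cV(l) = ∑_{d|l, d>V} μ(d), nuV(a) = ∑_{de=a, d≤V, e≤U} μ(d)Λ(e)).
Proof: Λ·[>U] * (μ * 1) = Λ·[>U]; split μ = μ·[≤V] + μ·[>V]; and (μ[≤V]) * 1 * Λ[>U] = (μ[≤V]) * log - (μ[≤V])*Λ[≤U]*1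
 because Λ * 1 = log.  One can work with ArithmeticFunction (ℝ) and its ring structure: define the arithmetic functions
 ΛU, ΛU', μV, μV' (restrictions, all vanish at 0) and compute in the commutative ring.
Then multiply by g(n), sum over n in [1,N] and reorder the sum over pairs (a,b) with ab ≤ N.
In the last sum cV V n = 0 for n ≤ V, so the restriction n > V is harmless.
nuV(a) ≠ 0 only for a ≤ U V (a = d e, d ≤ V, e ≤ U).
-/

set_option autoImplicit false

namespace Pool.Agent.H91.PK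

open Finset

/-- restriction of an arithmetic function to `n ≤ U` -/
noncomputable def Vau_lo (f : ArithmeticFunction ℝ) (U : ℕ) : ArithmeticFunction ℝ :=
  ⟨fun n => if n ≤ U then f n else 0, by simp⟩

/-- restriction of an arithmetic function to `n > U` -/
noncomputable def Vau_hi (f : ArithmeticFunction ℝ) (U : ℕ) : ArithmeticFunction ℝ :=
  ⟨fun n => if n ≤ U then 0 else f n, by simp⟩

theorem Vau_lo_apply (f : ArithmeticFunction ℝ) (U n : ℕ) : Vau_lo f U n = if n ≤ U then f n else 0 := rfl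

theorem Vau_hi_apply (f : ArithmeticFunction ℝ) (U n : ℕ) : Vau_hi f U n = if n ≤ U then 0 else f n := rfl

theorem Vau_split (f : ArithmeticFunction ℝ) (U : ℕ) : f = Vau_lo f U + Vau_hi f U := by
  ext n
  rw [ArithmeticFunction.add_apply, Vau_lo_apply, Vau_hi_apply]
  split_ifs <;> simp

/-- the real Moebius function -/
noncomputable def Vau_mu : ArithmeticFunction ℝ := ((ArithmeticFunction.moebius : ArithmeticFunction ℤ) : ArithmeticFunction ℝ)

/-- the real zeta function -/
noncomputable def Vau_z : ArithmeticFunction ℝ := ((ArithmeticFunction.zeta : ArithmeticFunction ℕ) : ArithmeticFunction ℝ)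

theorem Vau_mu_apply (n : ℕ) : Vau_mu n = (ArithmeticFunction.moebius n : ℝ) := rfl

theorem Vau_mu_z : Vau_mu * Vau_z = 1 := ArithmeticFunction.coe_moebius_mul_coe_zeta

theorem Vau_Lam_z : ArithmeticFunction.vonMangoldt * Vau_z = ArithmeticFunction.log :=
  ArithmeticFunction.vonMangoldt_mul_zeta

theorem Vau_id (U V : ℕ) :
    (ArithmeticFunction.vonMangoldt : ArithmeticFunction ℝ)
      = Vau_lo ArithmeticFunction.vonMangoldt U + Vau_lo Vau_mu V * ArithmeticFunction.log
        - Vau_lo Vau_mu V * Vau_lo ArithmeticFunction.vonMangoldt U * Vau_z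
        + Vau_hi ArithmeticFunction.vonMangoldt U * (Vau_hi Vau_mu V * Vau_z) := by
  have h1 := Vau_split ArithmeticFunction.vonMangoldt U
  have h2 := Vau_split Vau_mu V
  have h3 := Vau_mu_z
  have h4 := Vau_Lam_z
  set Lam : ArithmeticFunction ℝ := ArithmeticFunction.vonMangoldt
  set A := Vau_lo Lam U
  set B := Vau_hi Lam U
  set C := Vau_lo Vau_mu V
  set D := Vau_hi Vau_mu V
  rw [← h4]
  have h5 : (C + D) * Vau_z = 1 := by rw [← h2]; exact h3
  have h6 : B * ((C + D) * Vau_z) = B := by rw [h5, mul_one]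
  calc Lam = A + B := h1
    _ = A + B * ((C + D) * Vau_z) := by rw [h6]
    _ = A + C * ((A + B) * Vau_z) - C * A * Vau_z + B * (D * Vau_z) := by ring
    _ = _ := by rw [← h1]

theorem Vau_sum_conv (F H : ArithmeticFunction ℝ) (N : ℕ) (g : ℕ → ℂ) :
    ∑ n ∈ Icc 1 N, (((F * H) n : ℝ) : ℂ) * g n
      = ∑ a ∈ Icc 1 N, ((F a : ℝ) : ℂ) * ∑ b ∈ Icc 1 (N / a), ((H b : ℝ) : ℂ) * g (a * b) := by
  have h1 : ∀ n ∈ Icc 1 N, (((F * H) n : ℝ) : ℂ) * g n
      = ∑ p ∈ n.divisorsAntidiagonal, ((F p.1 : ℝ) : ℂ) * (((H p.2 : ℝ) : ℂ) * g (p.1 * p.2)) := by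
    intro n hn
    rw [ArithmeticFunction.mul_apply, Complex.ofReal_sum, Finset.sum_mul]
    refine Finset.sum_congr rfl fun p hp => ?_
    rw [(Nat.mem_divisorsAntidiagonal.mp hp).1, Complex.ofReal_mul]
    ring
  rw [Finset.sum_congr rfl h1, Finset.sum_sigma']
  simp_rw [Finset.mul_sum]
  rw [Finset.sum_sigma']
  refine Finset.sum_bij' (fun x _ => ⟨x.2.1, x.2.2⟩) (fun y _ => ⟨y.1 * y.2, (y.1, y.2)⟩) ?_ ?_ ?_ ?_ ?_
  · rintro ⟨n, a, b⟩ hx
    simp only [Finset.mem_sigma, Finset.mem_Icc, Nat.mem_divisorsAntidiagonal] at hx ⊢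
    obtain ⟨⟨hn1, hnN⟩, hab, hn0⟩ := hx
    have ha : 1 ≤ a := by
      rcases Nat.eq_zero_or_pos a with h | h
      · subst h; simp at hab; omega
      · exact h
    have hb : 1 ≤ b := by
      rcases Nat.eq_zero_or_pos b with h | h
      · subst h; simp at hab; omega
      · exact h
    refine ⟨⟨ha, ?_⟩, hb, ?_⟩
    · calc a = a * 1 := (mul_one a).symm
        _ ≤ a * b := Nat.mul_le_mul_left a hb
        _ ≤ N := by rw [hab]; exact hnN
    · rw [Nat.le_div_iff_mul_le (by omega)]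
      calc b * a = a * b := mul_comm b a
        _ ≤ N := by rw [hab]; exact hnN
  · rintro ⟨a, b⟩ hy
    simp only [Finset.mem_sigma, Finset.mem_Icc, Nat.mem_divisorsAntidiagonal] at hy ⊢
    obtain ⟨⟨ha1, haN⟩, hb1, hb⟩ := hy
    rw [Nat.le_div_iff_mul_le (by omega)] at hb
    have : 0 < a * b := Nat.mul_pos (by omega) (by omega)
    refine ⟨⟨this, ?_⟩, trivial, this.ne'⟩
    calc a * b = b * a := mul_comm a b
      _ ≤ N := hb
  · rintro ⟨n, a, b⟩ hx
    simp only [Finset.mem_sigma, Finset.mem_Icc, Nat.mem_divisorsAntidiagonal] at hx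
    obtain ⟨⟨hn1, hnN⟩, hab, hn0⟩ := hx
    subst hab
    rfl
  · rintro ⟨a, b⟩ hy
    rfl
  · rintro ⟨n, a, b⟩ hx
    rfl

theorem Vau_restrict (F : ℕ → ℂ) (G : ℕ → ℂ) (N M : ℕ) (hF : ∀ a, M < a → F a = 0)
    (hG : ∀ a, N < a → G a = 0) : ∑ a ∈ Icc 1 N, F a * G a = ∑ a ∈ Icc 1 M, F a * G a := by
  have h1 : ∑ a ∈ Icc 1 N, F a * G a = ∑ a ∈ Icc 1 (max N M), F a * G a := by
    refine Finset.sum_subset (Finset.Icc_subset_Icc_right (le_max_left _ _)) fun a ha hna => ?_
    rw [hG a, mul_zero]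
    simp only [Finset.mem_Icc, not_and, not_le] at ha hna
    exact hna ha.1
  have h2 : ∑ a ∈ Icc 1 M, F a * G a = ∑ a ∈ Icc 1 (max N M), F a * G a := by
    refine Finset.sum_subset (Finset.Icc_subset_Icc_right (le_max_right _ _)) fun a ha hna => ?_
    rw [hF a, zero_mul]
    simp only [Finset.mem_Icc, not_and, not_le] at ha hna
    exact hna ha.1
  rw [h1, h2]

theorem Vau_nuV (U V a : ℕ) :
    (Vau_lo Vau_mu V * Vau_lo ArithmeticFunction.vonMangoldt U) a = nuV U V a := by
  rw [ArithmeticFunction.mul_apply, nuV, Finset.sum_filter,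
    Nat.sum_divisorsAntidiagonal (fun x y => Vau_lo Vau_mu V x * Vau_lo ArithmeticFunction.vonMangoldt U y)]
  refine Finset.sum_congr rfl fun d _ => ?_
  rw [Vau_lo_apply, Vau_lo_apply, Vau_mu_apply]
  by_cases h1 : d ≤ V <;> by_cases h2 : a / d ≤ U <;> simp [h1, h2]

theorem Vau_cV (V n : ℕ) : (Vau_hi Vau_mu V * Vau_z) n = cV V n := by
  rw [Vau_z, ArithmeticFunction.coe_mul_zeta_apply, cV, Finset.sum_filter]
  refine Finset.sum_congr rfl fun d _ => ?_
  rw [Vau_hi_apply, Vau_mu_apply]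
  by_cases h1 : d ≤ V
  · simp [h1]
  · simp [h1]

theorem Vau_cV_zero {V n : ℕ} (h : n ≤ V) : cV V n = 0 := by
  rw [cV]
  refine Finset.sum_eq_zero fun d hd => ?_
  rw [Finset.mem_filter, Nat.mem_divisors] at hd
  have := Nat.le_of_dvd (Nat.pos_of_ne_zero hd.1.2) hd.1.1
  omega

theorem Vau_nuV_zero {U V a : ℕ} (h : U * V < a) : nuV U V a = 0 := by
  rw [nuV]
  refine Finset.sum_eq_zero fun d hd => ?_
  rw [Finset.mem_filter, Nat.mem_divisors] at hd
  exfalso
  have h1 : d * (a / d) = a := Nat.mul_div_cancel' hd.1.1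
  have h2 : d * (a / d) ≤ V * U := Nat.mul_le_mul hd.2.1 hd.2.2
  rw [h1, mul_comm] at h2
  omega

theorem vaughan (N U V : ℕ) (g : ℕ → ℂ) :
    ∑ n ∈ Icc 1 N, ((ArithmeticFunction.vonMangoldt n : ℝ) : ℂ) * g n
      = ∑ n ∈ Icc 1 (min U N), ((ArithmeticFunction.vonMangoldt n : ℝ) : ℂ) * g n
      + ∑ a ∈ Icc 1 V, ((ArithmeticFunction.moebius a : ℝ) : ℂ) *
          ∑ b ∈ Icc 1 (N / a), ((Real.log b : ℝ) : ℂ) * g (a * b)
      - ∑ a ∈ Icc 1 (U * V), ((nuV U V a : ℝ) : ℂ) * ∑ b ∈ Icc 1 (N / a), g (a * b)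
      + ∑ m ∈ Ioc U N, ((ArithmeticFunction.vonMangoldt m : ℝ) : ℂ) *
          ∑ n ∈ Ioc V (N / m), ((cV V n : ℝ) : ℂ) * g (m * n) := by
  have hid := Vau_id U V
  have hpt : ∀ n, ((ArithmeticFunction.vonMangoldt n : ℝ) : ℂ) * g n
      = ((Vau_lo ArithmeticFunction.vonMangoldt U n : ℝ) : ℂ) * g n
        + (((Vau_lo Vau_mu V * ArithmeticFunction.log) n : ℝ) : ℂ) * g n
        - (((Vau_lo Vau_mu V * Vau_lo ArithmeticFunction.vonMangoldt U * Vau_z) n : ℝ) : ℂ) * g n
        + (((Vau_hi ArithmeticFunction.vonMangoldt U * (Vau_hi Vau_mu V * Vau_z)) n : ℝ) : ℂ) * g n := by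
    intro n
    conv_lhs => rw [hid]
    rw [ArithmeticFunction.add_apply, sub_eq_add_neg, ArithmeticFunction.add_apply,
      ArithmeticFunction.add_apply, ArithmeticFunction.neg_apply]
    push_cast
    ring
  rw [Finset.sum_congr rfl fun n _ => hpt n, Finset.sum_add_distrib, Finset.sum_sub_distrib,
    Finset.sum_add_distrib, Vau_sum_conv (Vau_lo Vau_mu V) ArithmeticFunction.log,
    Vau_sum_conv (Vau_lo Vau_mu V * Vau_lo ArithmeticFunction.vonMangoldt U) Vau_z,
    Vau_sum_conv (Vau_hi ArithmeticFunction.vonMangoldt U) (Vau_hi Vau_mu V * Vau_z)]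
  have hGz : ∀ (H : ℕ → ℂ) (a : ℕ), N < a → ∑ b ∈ Icc 1 (N / a), H b * g (a * b) = 0 := by
    intro H a ha
    rw [Nat.div_eq_of_lt ha]
    simp
  congr 1
  · congr 1
    · congr 1
      · rw [show ∑ n ∈ Icc 1 (min U N), ((ArithmeticFunction.vonMangoldt n : ℝ) : ℂ) * g n
          = ∑ n ∈ Icc 1 (min U N), ((Vau_lo ArithmeticFunction.vonMangoldt U n : ℝ) : ℂ) * g n from ?_]
        · symm
          refine Finset.sum_subset (Finset.Icc_subset_Icc_right (min_le_right _ _)) fun a ha hna => ?_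
          simp only [Finset.mem_Icc, not_and, not_le] at ha hna
          have h1 := hna ha.1
          rw [min_lt_iff] at h1
          have h2 : ¬ a ≤ U := by
            rcases h1 with h1 | h1
            · omega
            · omega
          rw [Vau_lo_apply, if_neg h2]
          simp
        · refine Finset.sum_congr rfl fun n hn => ?_
          rw [Finset.mem_Icc, le_min_iff] at hn
          rw [Vau_lo_apply, if_pos hn.2.1]
      · rw [Vau_restrict (fun a => ((Vau_lo Vau_mu V a : ℝ) : ℂ))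
          (fun a => ∑ b ∈ Icc 1 (N / a), ((ArithmeticFunction.log b : ℝ) : ℂ) * g (a * b)) N V]
        · refine Finset.sum_congr rfl fun a ha => ?_
          rw [Finset.mem_Icc] at ha
          rw [Vau_lo_apply, if_pos ha.2, Vau_mu_apply]
          simp only [ArithmeticFunction.log_apply]
        · intro a ha
          rw [Vau_lo_apply, if_neg (by omega)]
          simp
        · intro a ha
          exact hGz _ a ha
    · rw [Vau_restrict (fun a => (((Vau_lo Vau_mu V * Vau_lo ArithmeticFunction.vonMangoldt U) a : ℝ) : ℂ))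
          (fun a => ∑ b ∈ Icc 1 (N / a), ((Vau_z b : ℝ) : ℂ) * g (a * b)) N (U * V)]
      · refine Finset.sum_congr rfl fun a ha => ?_
        rw [Vau_nuV]
        congr 1
        refine Finset.sum_congr rfl fun b hb => ?_
        rw [Finset.mem_Icc] at hb
        rw [Vau_z, ArithmeticFunction.natCoe_apply, ArithmeticFunction.zeta_apply_ne (by omega)]
        simp
      · intro a ha
        rw [Vau_nuV, Vau_nuV_zero ha]
        simp
      · intro a ha
        exact hGz _ a ha
  · have hsub : Ioc U N ⊆ Icc 1 N := by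
      intro a ha
      rw [Finset.mem_Ioc] at ha
      rw [Finset.mem_Icc]
      omega
    rw [← Finset.sum_subset hsub]
    · refine Finset.sum_congr rfl fun a ha => ?_
      rw [Finset.mem_Ioc] at ha
      rw [Vau_hi_apply, if_neg (by omega)]
      congr 1
      simp only [Vau_cV]
      have hsub2 : Ioc V (N / a) ⊆ Icc 1 (N / a) := by
        intro b hb
        rw [Finset.mem_Ioc] at hb
        rw [Finset.mem_Icc]
        omega
      rw [← Finset.sum_subset hsub2]
      intro b hb hnb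
      rw [Finset.mem_Icc] at hb
      rw [Finset.mem_Ioc] at hnb
      have hbV : b ≤ V := by
        by_contra hcon
        exact hnb ⟨by omega, hb.2⟩
      rw [Vau_cV_zero hbV]
      simp
    · intro a ha hna
      rw [Finset.mem_Icc] at ha
      rw [Finset.mem_Ioc] at hna
      have haU : a ≤ U := by
        by_contra hcon
        exact hna ⟨by omega, ha.2⟩
      rw [Vau_hi_apply, if_pos haU]
      simp

/-- `|nuV(a)| ≤ log a` (as `∑_{e | a} Λ(e) = log a`). -/
theorem abs_nuV_le (U V a : ℕ) (ha : 1 ≤ a) : |nuV U V a| ≤ Real.log a := by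
  rw [nuV]
  refine (Finset.abs_sum_le_sum_abs _ _).trans ?_
  have h1 : ∀ d ∈ a.divisors.filter (fun d => d ≤ V ∧ a / d ≤ U),
      |(ArithmeticFunction.moebius d : ℝ) * ArithmeticFunction.vonMangoldt (a / d)|
        ≤ ArithmeticFunction.vonMangoldt (a / d) := by
    intro d _
    rw [abs_mul, abs_of_nonneg (ArithmeticFunction.vonMangoldt_nonneg)]
    have h2 : |(ArithmeticFunction.moebius d : ℝ)| ≤ 1 := by
      have := ArithmeticFunction.abs_moebius_le_one (n := d)
      exact_mod_cast this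
    calc |(ArithmeticFunction.moebius d : ℝ)| * ArithmeticFunction.vonMangoldt (a / d)
        ≤ 1 * ArithmeticFunction.vonMangoldt (a / d) :=
          mul_le_mul_of_nonneg_right h2 ArithmeticFunction.vonMangoldt_nonneg
      _ = _ := one_mul _
  refine (Finset.sum_le_sum h1).trans ?_
  calc ∑ d ∈ a.divisors.filter (fun d => d ≤ V ∧ a / d ≤ U), ArithmeticFunction.vonMangoldt (a / d)
      ≤ ∑ d ∈ a.divisors, ArithmeticFunction.vonMangoldt (a / d) :=
        Finset.sum_le_sum_of_subset_of_nonneg (Finset.filter_subset _ _)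
          (fun _ _ _ => ArithmeticFunction.vonMangoldt_nonneg)
    _ = ∑ d ∈ a.divisors, ArithmeticFunction.vonMangoldt d := by
        exact Nat.sum_div_divisors a (fun d => ArithmeticFunction.vonMangoldt d)
    _ = Real.log a := ArithmeticFunction.vonMangoldt_sum

end Pool.Agent.H91.PK

end

section

/-!
# From the second moment of `hR` to the range `Q A ≥ x^{1+ε}`
-/

set_option autoImplicit false

namespace Pool.Agent.H91.EHA

open Finset

/-- powers of `log x` are eventually smaller than any positive power of `x`. -/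
lemma log_pow_le_rpow (m : ℕ) (δ : ℝ) (hδ : 0 < δ) : ∃ x0 : ℕ, ∀ x : ℕ, x0 ≤ x →
    Real.log x ^ m ≤ (x : ℝ) ^ δ := by
  have h := isLittleO_log_rpow_rpow_atTop (m : ℝ) hδ
  have h2 := h.bound (show (0:ℝ) < 1 by norm_num)
  have h3 := (tendsto_natCast_atTop_atTop (R := ℝ)).eventually h2
  obtain ⟨x0, hx0⟩ := Filter.eventually_atTop.1 h3
  refine ⟨max x0 1, fun x hx => ?_⟩
  have h4 := hx0 x (le_trans (le_max_left _ _) hx)
  have h5 : (1:ℝ) ≤ x := by exact_mod_cast le_trans (le_max_right _ _) hx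
  have h6 : 0 ≤ Real.log x := Real.log_nonneg h5
  rw [Real.norm_of_nonneg (by positivity), Real.norm_of_nonneg (by positivity), one_mul,
    Real.rpow_natCast] at h4
  exact h4

/-- the logarithm is eventually larger than any constant. -/
lemma log_ge (K : ℝ) : ∃ x0 : ℕ, ∀ x : ℕ, x0 ≤ x → K ≤ Real.log x := by
  have h := Real.tendsto_log_atTop.comp (tendsto_natCast_atTop_atTop (R := ℝ))
  have h2 := h.eventually (Filter.eventually_ge_atTop K)
  obtain ⟨x0, hx0⟩ := Filter.eventually_atTop.1 h2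
  exact ⟨x0, fun x hx => hx0 x hx⟩

end Pool.Agent.H91.EHA

end
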