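import Pool.Agent.H47.B1.H91.PK.LSa
import Pool.Agent.H47.B1.H91.PK.Om

/-! The parts of this file: H91.PK.Bil, H91.PK.LSm, H91.PK.TyB. -/

section

/-!
PK Bil: separation of variables for the weight, and the bilinear bound from two (abstract) large sieve inequalities.

Setting: a finite family of completely multiplicative functions χ_i with weights w_i ≥ 0, satisfying the two mean
square bounds (h1), (h2).  L = log N, Y = N / M (floor).

Proof.  For M < m ≤ 2M and n ∈ Ioc V Y with n > N/m one has mn > N so W N k (mn) = 0; hence the inner sum may be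
extended to n ∈ Ioc V Y.  For m, n ≥ 1 (note V < n so n ≥ 1)
 W N k (mn) = (1/2π) ∫ KK 0 t N^{it} m^{-it} n^{-it} dt · ∑_{j ≤ k} C(k,j) (log m/L)^j (log n/L)^{k-j}
 (`om_fourier'` with β = 0, and log(mn) = log m + log n, `add_pow`).
So the sum over m, n for χ_i is (1/2π) ∫ KK 0 t N^{it} ∑_j C(k,j) A_{j,t}(χ_i) B_{j,t}(χ_i) dt, where
 A_{j,t} = ∑_m a_m (log m/L)^j m^{-it} χ_i(m), B_{j,t} = ∑_n b_n (log n/L)^{k-j} n^{-it} χ_i(n).
For fixed t, j: ∑_i w_i |A||B| ≤ (∑ w|A|²)^{1/2} (∑ w|B|²)^{1/2} ≤ A B α^j β^{k-j} ‖a‖ ‖b‖ with α = log(2M)/L,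
 β = log(Y)/L ≥ 0 (for n ≤ Y), so ∑_j C(k,j) α^j β^{k-j} = (α+β)^k ≤ (1 + log 2/L)^k as log(2M) + log Y ≤ log 2 + log N.
Finally (1/2π) ∫ |KK 0 t| dt ≤ 0.2193 (`integral_norm_KK_le`).
(Everything is a finite sum of integrable functions, so the interchange of the integral and the finite sums is easy.)
-/

set_option autoImplicit false

namespace Pool.Agent.H91.PK

open Finset MeasureTheory

/-- kernel `KK 0 t * N^{it}` times `(m^{-it})(n^{-it})` -/
noncomputable def BilK (N : ℕ) (t : ℝ) (m n : ℕ) : ℂ :=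
  KK 0 t * ((N : ℂ) ^ (t * Complex.I) * ((m : ℂ) ^ (-(t * Complex.I)) * (n : ℂ) ^ (-(t * Complex.I))))

theorem Bil_norm_cpow {n : ℕ} (hn : 1 ≤ n) (t : ℝ) : ‖(n : ℂ) ^ (t * Complex.I)‖ = 1 := by
  rw [Complex.norm_natCast_cpow_of_pos (by omega)]
  simp

theorem Bil_norm_cpow' {n : ℕ} (hn : 1 ≤ n) (t : ℝ) : ‖(n : ℂ) ^ (-(t * Complex.I))‖ = 1 := by
  rw [Complex.norm_natCast_cpow_of_pos (by omega)]
  simp

theorem Bil_continuous_cpow {n : ℕ} (hn : 1 ≤ n) : Continuous (fun t : ℝ => (n : ℂ) ^ (t * Complex.I)) := by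
  have h0 : (n : ℂ) ≠ 0 := by exact_mod_cast (by omega : n ≠ 0)
  apply Continuous.const_cpow
  · fun_prop
  · left; exact h0

theorem Bil_continuous_cpow' {n : ℕ} (hn : 1 ≤ n) : Continuous (fun t : ℝ => (n : ℂ) ^ (-(t * Complex.I))) := by
  have h0 : (n : ℂ) ≠ 0 := by exact_mod_cast (by omega : n ≠ 0)
  apply Continuous.const_cpow
  · fun_prop
  · left; exact h0

theorem BilK_integrable {N m n : ℕ} (hN : 1 ≤ N) (hm : 1 ≤ m) (hn : 1 ≤ n) :
    Integrable (fun t : ℝ => BilK N t m n) := by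
  unfold BilK
  apply (KK_integrable 0 le_rfl).mul_bdd (c := 1)
  · apply Continuous.aestronglyMeasurable
    exact (Bil_continuous_cpow hN).mul ((Bil_continuous_cpow' hm).mul (Bil_continuous_cpow' hn))
  · filter_upwards with t
    rw [norm_mul, norm_mul, Bil_norm_cpow hN, Bil_norm_cpow' hm, Bil_norm_cpow' hn]
    norm_num

theorem Bil_W {N m n : ℕ} (k : ℕ) (hN : 2 ≤ N) (hm : 1 ≤ m) (hn : 1 ≤ n) :
    ((W N k (m * n) : ℝ) : ℂ) = (1 / (2 * Real.pi)) * ∫ t : ℝ, BilK N t m n *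
      (((Real.log m / Real.log N + Real.log n / Real.log N) ^ k : ℝ) : ℂ) := by
  have h := om_fourier' 0 le_rfl (N := N) (n := m * n) (by omega) (Nat.mul_pos hm hn)
  unfold W
  have hlog : Real.log ((m * n : ℕ) : ℝ) = Real.log m + Real.log n := by
    push_cast
    rw [Real.log_mul]
    · exact_mod_cast (by omega : m ≠ 0)
    · exact_mod_cast (by omega : n ≠ 0)
  rw [hlog, Complex.ofReal_mul, h, integral_mul_const]
  rw [Real.rpow_zero, add_div]
  have e : ∀ t : ℝ, KK 0 t * ((N : ℂ) ^ (t * Complex.I) * (((m * n : ℕ) : ℂ)) ^ (-(t * Complex.I))) = BilK N t m n := by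
    intro t
    unfold BilK
    push_cast
    rw [Complex.natCast_mul_natCast_cpow]
  simp only [e]
  push_cast
  ring

/-- weighted Cauchy-Schwarz -/
theorem Bil_cs {ι : Type*} (I : Finset ι) (w : ι → ℝ) (hw : ∀ i ∈ I, 0 ≤ w i) (P Q : ι → ℝ)
    {p q : ℝ} (hp : 0 ≤ p) (hq : 0 ≤ q)
    (h1 : ∑ i ∈ I, w i * P i ^ 2 ≤ p ^ 2) (h2 : ∑ i ∈ I, w i * Q i ^ 2 ≤ q ^ 2) :
    ∑ i ∈ I, w i * (P i * Q i) ≤ p * q := by
  have h := Finset.sum_mul_sq_le_sq_mul_sq I (fun i => Real.sqrt (w i) * P i) (fun i => Real.sqrt (w i) * Q i)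
  have e1 : ∑ i ∈ I, Real.sqrt (w i) * P i * (Real.sqrt (w i) * Q i) = ∑ i ∈ I, w i * (P i * Q i) := by
    apply sum_congr rfl
    intro i hi
    have := Real.mul_self_sqrt (hw i hi)
    calc Real.sqrt (w i) * P i * (Real.sqrt (w i) * Q i) = (Real.sqrt (w i) * Real.sqrt (w i)) * (P i * Q i) := by ring
      _ = _ := by rw [this]
  have e2 : ∀ P : ι → ℝ, ∑ i ∈ I, (Real.sqrt (w i) * P i) ^ 2 = ∑ i ∈ I, w i * P i ^ 2 := by
    intro P
    apply sum_congr rfl
    intro i hi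
    have := Real.mul_self_sqrt (hw i hi)
    calc (Real.sqrt (w i) * P i) ^ 2 = (Real.sqrt (w i) * Real.sqrt (w i)) * P i ^ 2 := by ring
      _ = _ := by rw [this]
  rw [e1, e2, e2] at h
  have h0 : 0 ≤ ∑ i ∈ I, w i * P i ^ 2 := sum_nonneg (fun i hi => mul_nonneg (hw i hi) (sq_nonneg _))
  have h0' : 0 ≤ ∑ i ∈ I, w i * Q i ^ 2 := sum_nonneg (fun i hi => mul_nonneg (hw i hi) (sq_nonneg _))
  have h3 : (∑ i ∈ I, w i * (P i * Q i)) ^ 2 ≤ (p * q) ^ 2 := by
    rw [mul_pow]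
    exact h.trans (mul_le_mul h1 h2 h0' (by positivity))
  exact le_of_sq_le_sq h3 (mul_nonneg hp hq) 

theorem Bil_coef {ι : Type*} (I : Finset ι) (w : ι → ℝ) (χ : ι → ℕ → ℂ)
    (R : Finset ℕ) (A : ℝ) 
    (h1 : ∀ α : ℕ → ℂ, ∑ i ∈ I, w i * ‖∑ m ∈ R, α m * χ i m‖ ^ 2 ≤ A ^ 2 * ∑ m ∈ R, ‖α m‖ ^ 2)
    (a : ℕ → ℝ) (c : ℕ → ℂ) {γ : ℝ} (hc : ∀ m ∈ R, ‖c m‖ ≤ γ) :
    ∑ i ∈ I, w i * ‖∑ m ∈ R, ((a m : ℝ) : ℂ) * c m * χ i m‖ ^ 2
      ≤ (A * (γ * Real.sqrt (∑ m ∈ R, a m ^ 2))) ^ 2 := by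
  refine (h1 (fun m => ((a m : ℝ) : ℂ) * c m)).trans ?_
  rw [mul_pow]
  apply mul_le_mul_of_nonneg_left _ (sq_nonneg A)
  rw [mul_pow, Real.sq_sqrt (sum_nonneg (fun m _ => sq_nonneg _)), mul_sum]
  apply sum_le_sum
  intro m hm
  rw [norm_mul, mul_pow, Complex.norm_real, Real.norm_eq_abs, sq_abs, mul_comm]
  apply mul_le_mul_of_nonneg_right _ (sq_nonneg _)
  exact pow_le_pow_left₀ (norm_nonneg _) (hc m hm) 2

theorem bilinear_sep {ι : Type*} (I : Finset ι) (w : ι → ℝ) (hw : ∀ i ∈ I, 0 ≤ w i) (χ : ι → ℕ → ℂ)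
    (hmul : ∀ i ∈ I, ∀ m n : ℕ, χ i (m * n) = χ i m * χ i n)
    (N k M V : ℕ) (hN : 2 ≤ N) (hM : 1 ≤ M) (a b : ℕ → ℝ) (A B : ℝ) (hA : 0 ≤ A) (hB : 0 ≤ B)
    (h1 : ∀ α : ℕ → ℂ, ∑ i ∈ I, w i * ‖∑ m ∈ Ioc M (2 * M), α m * χ i m‖ ^ 2
      ≤ A ^ 2 * ∑ m ∈ Ioc M (2 * M), ‖α m‖ ^ 2)
    (h2 : ∀ β : ℕ → ℂ, ∑ i ∈ I, w i * ‖∑ n ∈ Ioc V (N / M), β n * χ i n‖ ^ 2
      ≤ B ^ 2 * ∑ n ∈ Ioc V (N / M), ‖β n‖ ^ 2) :
    ∑ i ∈ I, w i * ‖∑ m ∈ Ioc M (2 * M), ((a m : ℝ) : ℂ) *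
        ∑ n ∈ Ioc V (N / m), ((b n : ℝ) : ℂ) * (χ i (m * n) * ((W N k (m * n) : ℝ) : ℂ))‖
      ≤ 0.2193 * (1 + Real.log 2 / Real.log N) ^ k * (A * B) *
        (Real.sqrt (∑ m ∈ Ioc M (2 * M), a m ^ 2) * Real.sqrt (∑ n ∈ Ioc V (N / M), b n ^ 2)) := by
  have hNr : (2 : ℝ) ≤ N := by exact_mod_cast hN
  have hL : 0 < Real.log N := Real.log_pos (by linarith)
  have hlog2 : 0 < Real.log 2 := Real.log_pos (by norm_num)
  have hpi := Real.pi_pos
  rcases Nat.eq_zero_or_pos (N / M) with hY | hY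
  · -- trivial case
    have e : ∀ m ∈ Ioc M (2 * M), Ioc V (N / m) = ∅ := by
      intro m hm
      have h3 : N / m ≤ N / M := Nat.div_le_div_left (mem_Ioc.1 hm).1.le hM
      apply Ioc_eq_empty
      omega
    have e2 : ∀ i ∈ I, w i * ‖∑ m ∈ Ioc M (2 * M), ((a m : ℝ) : ℂ) *
        ∑ n ∈ Ioc V (N / m), ((b n : ℝ) : ℂ) * (χ i (m * n) * ((W N k (m * n) : ℝ) : ℂ))‖ = 0 := by
      intro i _
      rw [sum_eq_zero, norm_zero, mul_zero]
      intro m hm
      rw [e m hm, sum_empty, mul_zero]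
    rw [sum_eq_zero e2]
    positivity
  set Y := N / M with hYdef
  set α := Real.log (2 * M) / Real.log N with hα
  set β := Real.log Y / Real.log N with hβ
  have hMr : (1 : ℝ) ≤ M := by exact_mod_cast hM
  have hYr : (1 : ℝ) ≤ Y := by exact_mod_cast hY
  have hα0 : 0 ≤ α := div_nonneg (Real.log_nonneg (by linarith)) hL.le
  have hβ0 : 0 ≤ β := div_nonneg (Real.log_nonneg hYr) hL.le
  have hMY : (M : ℝ) * Y ≤ N := by
    have : M * (N / M) ≤ N := Nat.mul_div_le _ _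
    exact_mod_cast this
  have hαβ : α + β ≤ 1 + Real.log 2 / Real.log N := by
    rw [hα, hβ, ← add_div, ← Real.log_mul (by positivity) (by positivity)]
    rw [show (1 : ℝ) + Real.log 2 / Real.log N = (Real.log 2 + Real.log N) / Real.log N by
      field_simp; ring]
    apply div_le_div_of_nonneg_right _ hL.le
    rw [← Real.log_mul (by norm_num) (by positivity)]
    apply Real.log_le_log (by positivity)
    nlinarith
  set sa := Real.sqrt (∑ m ∈ Ioc M (2 * M), a m ^ 2) with hsa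
  set sb := Real.sqrt (∑ n ∈ Ioc V Y, b n ^ 2) with hsb
  -- the functions of t
  set F : ι → ℝ → ℂ := fun i t => ∑ m ∈ Ioc M (2 * M), ∑ n ∈ Ioc V Y,
    (((a m : ℝ) : ℂ) * ((b n : ℝ) : ℂ) * (χ i m * χ i n)) * (BilK N t m n *
      (((Real.log m / Real.log N + Real.log n / Real.log N) ^ k : ℝ) : ℂ)) with hF
  have hpos1 : ∀ m ∈ Ioc M (2 * M), 1 ≤ m := fun m hm => by have := (mem_Ioc.1 hm).1; omega
  have hpos2 : ∀ n ∈ Ioc V Y, 1 ≤ n := fun n hn => by have := (mem_Ioc.1 hn).1; omega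
  have hFint : ∀ i, Integrable (F i) := by
    intro i
    apply integrable_finsetSum
    intro m hm
    apply integrable_finsetSum
    intro n hn
    exact ((BilK_integrable (by omega) (hpos1 m hm) (hpos2 n hn)).mul_const _).const_mul _
  -- step 1
  have hS : ∀ i ∈ I, ∑ m ∈ Ioc M (2 * M), ((a m : ℝ) : ℂ) *
        ∑ n ∈ Ioc V (N / m), ((b n : ℝ) : ℂ) * (χ i (m * n) * ((W N k (m * n) : ℝ) : ℂ))
      = (1 / (2 * Real.pi)) * ∫ t : ℝ, F i t := by
    intro i hi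
    rw [hF, integral_finsetSum, mul_sum]
    swap
    · intro m hm
      apply integrable_finsetSum
      intro n hn
      exact ((BilK_integrable (by omega) (hpos1 m hm) (hpos2 n hn)).mul_const _).const_mul _
    apply sum_congr rfl
    intro m hm
    rw [integral_finsetSum, mul_sum, mul_sum]
    swap
    · intro n hn
      exact ((BilK_integrable (by omega) (hpos1 m hm) (hpos2 n hn)).mul_const _).const_mul _
    have hsub : Ioc V (N / m) ⊆ Ioc V Y := by
      apply Ioc_subset_Ioc_right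
      exact Nat.div_le_div_left (mem_Ioc.1 hm).1.le hM
    rw [← sum_subset hsub]
    · apply sum_congr rfl
      intro n hn
      rw [integral_const_mul, Bil_W k hN (hpos1 m hm) (hpos2 n (hsub hn)), hmul i hi]
      ring
    · intro n hn hn2
      rw [integral_const_mul]
      have hlt : N < m * n := by
        have h3 : ¬ n ≤ N / m := fun h => hn2 (mem_Ioc.2 ⟨(mem_Ioc.1 hn).1, h⟩)
        push Not at h3
        have := (Nat.div_lt_iff_lt_mul (hpos1 m hm)).1 h3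
        rw [mul_comm]; exact this
      have hW : W N k (m * n) = 0 := by
        unfold W
        rw [om_eq_zero, zero_mul]
        rw [le_div_iff₀ (by linarith), one_mul]
        exact_mod_cast hlt.le
      have := Bil_W k hN (hpos1 m hm) (hpos2 n hn)
      rw [hW] at this
      have h4 : (1 / (2 * Real.pi) : ℂ) * ((((a m : ℝ) : ℂ) * ((b n : ℝ) : ℂ) * (χ i m * χ i n)) * ∫ t : ℝ, BilK N t m n *
        (((Real.log m / Real.log N + Real.log n / Real.log N) ^ k : ℝ) : ℂ))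
        = (((a m : ℝ) : ℂ) * ((b n : ℝ) : ℂ) * (χ i m * χ i n)) * ((1 / (2 * Real.pi) : ℂ) * ∫ t : ℝ, BilK N t m n *
        (((Real.log m / Real.log N + Real.log n / Real.log N) ^ k : ℝ) : ℂ)) := by ring
      rw [h4, ← this]
      simp
  -- the factors
  set P : ι → ℕ → ℝ → ℂ := fun i j t => ∑ m ∈ Ioc M (2 * M),
    ((a m : ℝ) : ℂ) * ((((Real.log m / Real.log N) ^ j : ℝ) : ℂ) * (m : ℂ) ^ (-(t * Complex.I))) * χ i m with hP
  set Q : ι → ℕ → ℝ → ℂ := fun i j t => ∑ n ∈ Ioc V Y,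
    ((b n : ℝ) : ℂ) * ((((Real.log n / Real.log N) ^ j : ℝ) : ℂ) * (n : ℂ) ^ (-(t * Complex.I))) * χ i n with hQ
  have hfac : ∀ i t, F i t = KK 0 t * (N : ℂ) ^ (t * Complex.I) *
      ∑ j ∈ range (k + 1), (k.choose j : ℂ) * (P i j t * Q i (k - j) t) := by
    intro i t
    have e1 : ∀ j, P i j t * Q i (k - j) t = ∑ m ∈ Ioc M (2 * M), ∑ n ∈ Ioc V Y,
        (((a m : ℝ) : ℂ) * ((b n : ℝ) : ℂ) * (χ i m * χ i n)) * ((m : ℂ) ^ (-(t * Complex.I)) * (n : ℂ) ^ (-(t * Complex.I)))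
          * ((((Real.log m / Real.log N) ^ j * (Real.log n / Real.log N) ^ (k - j) : ℝ)) : ℂ) := by
      intro j
      rw [hP, hQ]
      simp only
      rw [sum_mul_sum]
      apply sum_congr rfl; intro m _
      apply sum_congr rfl; intro n _
      push_cast
      ring
    simp only [e1]
    rw [hF]
    simp only [mul_sum]
    rw [sum_comm]
    simp_rw [sum_comm (s := range (k + 1))]
    rw [sum_comm]
    apply sum_congr rfl; intro m _
    apply sum_congr rfl; intro n _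
    rw [add_pow]
    unfold BilK
    push_cast
    rw [mul_sum, mul_sum]
    apply sum_congr rfl; intro j _
    ring
  have hpoint : ∀ t : ℝ, ∑ i ∈ I, w i * ‖F i t‖ ≤ ‖KK 0 t‖ *
      ((1 + Real.log 2 / Real.log N) ^ k * (A * B) * (sa * sb)) := by
    intro t
    have e0 : ∀ i ∈ I, w i * ‖F i t‖ ≤ ‖KK 0 t‖ * ∑ j ∈ range (k + 1), (k.choose j : ℝ) *
        (w i * (‖P i j t‖ * ‖Q i (k - j) t‖)) := by
      intro i hi
      rw [hfac, norm_mul, norm_mul, Bil_norm_cpow (by omega), mul_one]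
      have e1 : ‖∑ j ∈ range (k + 1), (k.choose j : ℂ) * (P i j t * Q i (k - j) t)‖
          ≤ ∑ j ∈ range (k + 1), (k.choose j : ℝ) * (‖P i j t‖ * ‖Q i (k - j) t‖) := by
        refine (norm_sum_le _ _).trans (sum_le_sum ?_)
        intro j _
        rw [norm_mul, norm_mul, Complex.norm_natCast]
      calc w i * (‖KK 0 t‖ * ‖∑ j ∈ range (k + 1), (k.choose j : ℂ) * (P i j t * Q i (k - j) t)‖)
          = ‖KK 0 t‖ * (w i * ‖∑ j ∈ range (k + 1), (k.choose j : ℂ) * (P i j t * Q i (k - j) t)‖) := by ring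
        _ ≤ ‖KK 0 t‖ * (w i * ∑ j ∈ range (k + 1), (k.choose j : ℝ) * (‖P i j t‖ * ‖Q i (k - j) t‖)) := by
            apply mul_le_mul_of_nonneg_left _ (norm_nonneg _)
            exact mul_le_mul_of_nonneg_left e1 (hw i hi)
        _ = _ := by
            congr 1
            rw [mul_sum]
            apply sum_congr rfl; intro j _; ring
    refine (sum_le_sum e0).trans ?_
    rw [← mul_sum, sum_comm]
    apply mul_le_mul_of_nonneg_left _ (norm_nonneg _)
    have e2 : ∀ j ∈ range (k + 1), ∑ i ∈ I, (k.choose j : ℝ) * (w i * (‖P i j t‖ * ‖Q i (k - j) t‖))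
        ≤ (k.choose j : ℝ) * ((A * (α ^ j * sa)) * (B * (β ^ (k - j) * sb))) := by
      intro j _
      rw [← mul_sum]
      apply mul_le_mul_of_nonneg_left _ (Nat.cast_nonneg _)
      apply Bil_cs I w hw
      · positivity
      · positivity
      · apply Bil_coef I w χ _ A h1
        intro m hm
        rw [norm_mul, Bil_norm_cpow' (hpos1 m hm), mul_one, Complex.norm_real, Real.norm_eq_abs, abs_pow]
        have hm1 : (1 : ℝ) ≤ m := by exact_mod_cast hpos1 m hm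
        have hm0 : 0 ≤ Real.log m / Real.log N := div_nonneg (Real.log_nonneg hm1) hL.le
        rw [abs_of_nonneg hm0]
        apply pow_le_pow_left₀ hm0
        apply div_le_div_of_nonneg_right _ hL.le
        apply Real.log_le_log (by linarith)
        exact_mod_cast (mem_Ioc.1 hm).2
      · apply Bil_coef I w χ _ B h2
        intro m hm
        rw [norm_mul, Bil_norm_cpow' (hpos2 m hm), mul_one, Complex.norm_real, Real.norm_eq_abs, abs_pow]
        have hm1 : (1 : ℝ) ≤ m := by exact_mod_cast hpos2 m hm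
        have hm0 : 0 ≤ Real.log m / Real.log N := div_nonneg (Real.log_nonneg hm1) hL.le
        rw [abs_of_nonneg hm0]
        apply pow_le_pow_left₀ hm0
        apply div_le_div_of_nonneg_right _ hL.le
        apply Real.log_le_log (by linarith)
        exact_mod_cast (mem_Ioc.1 hm).2
    refine (sum_le_sum e2).trans ?_
    have e3 : ∑ j ∈ range (k + 1), (k.choose j : ℝ) * ((A * (α ^ j * sa)) * (B * (β ^ (k - j) * sb)))
        = (α + β) ^ k * (A * B) * (sa * sb) := by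
      rw [add_pow, sum_mul, sum_mul]
      apply sum_congr rfl; intro j _; ring
    rw [e3]
    have e4 : (α + β) ^ k ≤ (1 + Real.log 2 / Real.log N) ^ k := pow_le_pow_left₀ (by linarith) hαβ k
    have hsa0 : 0 ≤ sa := Real.sqrt_nonneg _
    have hsb0 : 0 ≤ sb := Real.sqrt_nonneg _
    gcongr
  -- conclusion
  have hc0 : ‖(1 / (2 * Real.pi) : ℂ)‖ = 1 / (2 * Real.pi) := by
    have : (1 / (2 * Real.pi) : ℂ) = ((1 / (2 * Real.pi) : ℝ) : ℂ) := by push_cast; rfl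
    rw [this, Complex.norm_real, Real.norm_eq_abs, abs_of_nonneg (by positivity)]
  calc ∑ i ∈ I, w i * ‖∑ m ∈ Ioc M (2 * M), ((a m : ℝ) : ℂ) *
        ∑ n ∈ Ioc V (N / m), ((b n : ℝ) : ℂ) * (χ i (m * n) * ((W N k (m * n) : ℝ) : ℂ))‖
      ≤ ∑ i ∈ I, 1 / (2 * Real.pi) * ∫ t : ℝ, w i * ‖F i t‖ := by
        apply sum_le_sum
        intro i hi
        rw [hS i hi, norm_mul, hc0, integral_const_mul]
        have := norm_integral_le_integral_norm (μ := volume) (F i)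
        have h5 : w i * (1 / (2 * Real.pi) * ‖∫ t : ℝ, F i t‖) ≤ w i * (1 / (2 * Real.pi) * ∫ t : ℝ, ‖F i t‖) := by
          apply mul_le_mul_of_nonneg_left _ (hw i hi)
          exact mul_le_mul_of_nonneg_left this (by positivity)
        refine h5.trans (le_of_eq (by ring))
    _ = 1 / (2 * Real.pi) * ∫ t : ℝ, ∑ i ∈ I, w i * ‖F i t‖ := by
        rw [← mul_sum, integral_finsetSum]
        intro i _
        exact ((hFint i).norm).const_mul _
    _ ≤ 1 / (2 * Real.pi) * ∫ t : ℝ, ‖KK 0 t‖ *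
      ((1 + Real.log 2 / Real.log N) ^ k * (A * B) * (sa * sb)) := by
        apply mul_le_mul_of_nonneg_left _ (by positivity)
        apply integral_mono
        · apply integrable_finsetSum
          intro i _
          exact ((hFint i).norm).const_mul _
        · exact ((KK_integrable 0 le_rfl).norm).mul_const _
        · intro t; exact hpoint t
    _ = 1 / (2 * Real.pi) * (∫ t : ℝ, ‖KK 0 t‖) *
      ((1 + Real.log 2 / Real.log N) ^ k * (A * B) * (sa * sb)) := by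
        rw [integral_mul_const]; ring
    _ ≤ 0.2193 * ((1 + Real.log 2 / Real.log N) ^ k * (A * B) * (sa * sb)) := by
        apply mul_le_mul_of_nonneg_right
        · have := integral_norm_KK_le 0 le_rfl
          rw [one_div, inv_mul_le_iff₀ (by positivity)]
          refine this.trans (le_of_eq (by ring))
        · have hsa0 : 0 ≤ sa := Real.sqrt_nonneg _
          have hsb0 : 0 ≤ sb := Real.sqrt_nonneg _
          positivity
    _ = _ := by ring

end Pool.Agent.H91.PK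

end

section

/-!
PK LSm: the multiplicative large sieve.

`∑_{r ≤ R} (r/φ(r)) ∑*_{χ mod r} |∑_{K0 < n ≤ K0+K} a_n χ(n)|² ≤ (R² + π K) ∑ |a_n|²`, primitive characters.

Proof. Fix r ≥ 1, let e be the standard additive character of ZMod r (`ZMod.stdAddChar`), e(x) = exp(2πi x/r)
(`ZMod.stdAddChar_coe`).  For χ primitive, χ⁻¹ is primitive (`DirichletCharacter.conductor_inv`) and
`gaussSum_mulShift_of_isPrimitive` (applied to χ⁻¹) gives  χ(n) τ = ∑_{b mod r} χ⁻¹(b) e(b n) for every n,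
 τ = gaussSum χ⁻¹ e.
|τ|² = r: sum |gaussSum χ⁻¹ (e.mulShift n)|² over n mod r: it equals φ(r) |τ|² (as |χ(n)|² is 1 on units, 0 else) and
 also (orthogonality of additive characters) r ∑_b |χ⁻¹(b)|² = r φ(r).
Hence r |∑_n a_n χ(n)|² = |∑_{b mod r} χ⁻¹(b) S(b/r)|², S(α) = ∑ a_n e(n α).
Extend the sum over primitive χ to all χ mod r; by orthogonality (`DirichletCharacter.sum_char_inv_mul_char_eq`)
 ∑_χ |∑_b χ⁻¹(b) S_b|² = φ(r) ∑_{b unit} |S_b|² .
So (r/φ(r)) ∑* |∑ a_n χ(n)|² ≤ ∑_{(b,r)=1} |S(b/r)|².  Sum over r and use `additive_ls`.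
(Representatives: units of ZMod r <-> b in Icc 1 r coprime to r.)
-/

set_option autoImplicit false

namespace Pool.Agent.H91.PK

open Finset

private theorem lsm_sq (z : ℂ) : ((‖z‖ ^ 2 : ℝ) : ℂ) = z * (starRingEnd ℂ) z := by
  rw [Complex.mul_conj, Complex.normSq_eq_norm_sq]

/-- Parseval on `ZMod r` -/
private theorem lsm_parseval {r : ℕ} [NeZero r] (F : ZMod r → ℂ) :
    ∑ n : ZMod r, ‖∑ b : ZMod r, F b * ZMod.stdAddChar (n * b)‖ ^ 2 = r * ∑ b : ZMod r, ‖F b‖ ^ 2 := by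
  classical
  have h : ((∑ n : ZMod r, ‖∑ b : ZMod r, F b * ZMod.stdAddChar (n * b)‖ ^ 2 : ℝ) : ℂ) =
      ((r * ∑ b : ZMod r, ‖F b‖ ^ 2 : ℝ) : ℂ) := by
    push_cast
    have e1 : ∀ n : ZMod r, ((‖∑ b : ZMod r, F b * ZMod.stdAddChar (n * b)‖ : ℂ)) ^ 2 =
        ∑ b : ZMod r, ∑ b' : ZMod r, F b * (starRingEnd ℂ) (F b') * ZMod.stdAddChar (n * (b - b')) := by
      intro n
      rw [← Complex.ofReal_pow, lsm_sq, map_sum, Finset.sum_mul_sum]
      refine Finset.sum_congr rfl fun b _ => Finset.sum_congr rfl fun b' _ => ?_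
      have e2 : (starRingEnd ℂ) (ZMod.stdAddChar (n * b')) = ZMod.stdAddChar (-(n * b')) :=
        (AddChar.map_neg_eq_conj _ _).symm
      have e4 : (starRingEnd ℂ) (F b' * ZMod.stdAddChar (n * b')) =
          (starRingEnd ℂ) (F b') * ZMod.stdAddChar (-(n * b')) := by
        rw [RingHom.map_mul, e2]
      rw [e4, mul_sub, sub_eq_add_neg, AddChar.map_add_eq_mul]
      ring
    rw [Finset.sum_congr rfl fun n _ => e1 n, Finset.sum_comm, Finset.mul_sum]
    refine Finset.sum_congr rfl fun b _ => ?_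
    rw [Finset.sum_comm]
    have e3 : ∀ b' : ZMod r, ∑ n : ZMod r, F b * (starRingEnd ℂ) (F b') *
        ZMod.stdAddChar (n * (b - b')) = if b = b' then (r : ℂ) * (F b * (starRingEnd ℂ) (F b)) else 0 := by
      intro b'
      rw [← Finset.mul_sum, AddChar.sum_mulShift _ (ZMod.isPrimitive_stdAddChar r)]
      by_cases hbb : b = b'
      · subst hbb
        rw [if_pos (sub_self b), if_pos rfl, ZMod.card]
        ring
      · rw [if_neg (sub_ne_zero.2 hbb), if_neg hbb, Nat.cast_zero, mul_zero]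
    rw [Finset.sum_congr rfl fun b' _ => e3 b', Finset.sum_ite_eq Finset.univ b, if_pos (Finset.mem_univ b),
      ← lsm_sq, Complex.ofReal_pow]
  exact_mod_cast h

private theorem lsm_norm_char {r : ℕ} [NeZero r] (χ : DirichletCharacter ℂ r) :
    ∑ b : ZMod r, ‖χ b‖ ^ 2 = r.totient := by
  classical
  have h : ∀ b : ZMod r, ‖χ b‖ ^ 2 = if IsUnit b then (1:ℝ) else 0 := by
    intro b
    by_cases hb : IsUnit b
    · rw [if_pos hb]
      obtain ⟨u, rfl⟩ := hb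
      rw [DirichletCharacter.unit_norm_eq_one, one_pow]
    · rw [if_neg hb, MulChar.map_nonunit _ hb, norm_zero]
      norm_num
  rw [Finset.sum_congr rfl fun b _ => h b, Finset.sum_boole]
  congr 1
  rw [← ZMod.card_units_eq_totient r, ← Fintype.card_subtype]
  exact Fintype.card_congr
    ⟨fun x => x.2.unit, fun u => ⟨u, u.isUnit⟩, fun x => by ext; simp, fun u => by ext; simp⟩

private theorem lsm_tau {r : ℕ} [NeZero r] {χ : DirichletCharacter ℂ r} (hχ : χ.IsPrimitive) :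
    ‖gaussSum χ (ZMod.stdAddChar (N := r))‖ ^ 2 = r := by
  have h1 := lsm_parseval (r := r) (fun b => χ b)
  have h2 : ∀ n : ZMod r, ‖∑ b : ZMod r, χ b * ZMod.stdAddChar (n * b)‖ ^ 2 =
      ‖χ⁻¹ n‖ ^ 2 * ‖gaussSum χ (ZMod.stdAddChar (N := r))‖ ^ 2 := by
    intro n
    have := gaussSum_mulShift_of_isPrimitive (ZMod.stdAddChar (N := r)) hχ n
    unfold gaussSum at this
    simp only [AddChar.mulShift_apply] at this
    rw [this, norm_mul, mul_pow]
    rfl
  rw [Finset.sum_congr rfl fun n _ => h2 n, ← Finset.sum_mul, lsm_norm_char, lsm_norm_char] at h1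
  have h3 : (0:ℝ) < r.totient := by
    exact_mod_cast Nat.totient_pos.2 (NeZero.pos r)
  have h4 : (r.totient : ℝ) * ‖gaussSum χ (ZMod.stdAddChar (N := r))‖ ^ 2 = r.totient * r := by
    rw [h1]; ring
  exact mul_left_cancel₀ h3.ne' h4

private theorem lsm_orth {r : ℕ} [NeZero r] (S : ZMod r → ℂ) :
    ∑ χ : DirichletCharacter ℂ r, ‖∑ b : ZMod r, χ b * S b‖ ^ 2 =
      r.totient * ∑ b ∈ (open Classical in (Finset.univ : Finset (ZMod r)).filter fun b => IsUnit b),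
        ‖S b‖ ^ 2 := by
  classical
  have h : ((∑ χ : DirichletCharacter ℂ r, ‖∑ b : ZMod r, χ b * S b‖ ^ 2 : ℝ) : ℂ) =
      ((r.totient * ∑ b ∈ (Finset.univ : Finset (ZMod r)).filter fun b => IsUnit b,
        ‖S b‖ ^ 2 : ℝ) : ℂ) := by
    push_cast
    have e1 : ∀ χ : DirichletCharacter ℂ r, ((‖∑ b : ZMod r, χ b * S b‖ : ℂ)) ^ 2 =
        ∑ b : ZMod r, ∑ b' : ZMod r, S b' * (starRingEnd ℂ) (S b) * ((starRingEnd ℂ) (χ b) * χ b') := by
      intro χ
      rw [← Complex.ofReal_pow, lsm_sq, map_sum, mul_comm, Finset.sum_mul_sum]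
      refine Finset.sum_congr rfl fun b _ => Finset.sum_congr rfl fun b' _ => ?_
      rw [map_mul]
      ring
    rw [Finset.sum_congr rfl fun χ _ => e1 χ, Finset.sum_comm, Finset.mul_sum, Finset.sum_filter]
    refine Finset.sum_congr rfl fun b _ => ?_
    rw [Finset.sum_comm]
    by_cases hb : IsUnit b
    · rw [if_pos hb]
      have e2 : ∀ b' : ZMod r, ∑ χ : DirichletCharacter ℂ r,
          S b' * (starRingEnd ℂ) (S b) * ((starRingEnd ℂ) (χ b) * χ b') =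
          if b = b' then (r.totient : ℂ) * (S b * (starRingEnd ℂ) (S b)) else 0 := by
        intro b'
        have e3 : ∀ χ : DirichletCharacter ℂ r, (starRingEnd ℂ) (χ b) * χ b' = χ b⁻¹ * χ b' := by
          intro χ
          congr 1
          have := MulChar.star_apply' χ b
          rw [← starRingEnd_apply] at this
          rw [this]
          obtain ⟨u, rfl⟩ := hb
          rw [MulChar.inv_apply, Ring.inverse_unit, ZMod.inv_coe_unit]
        rw [← Finset.mul_sum, Finset.sum_congr rfl fun χ _ => e3 χ,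
          DirichletCharacter.sum_char_inv_mul_char_eq ℂ hb b']
        by_cases hbb : b = b'
        · subst hbb
          rw [if_pos rfl, if_pos rfl]
          ring
        · rw [if_neg hbb, if_neg hbb, mul_zero]
      rw [Finset.sum_congr rfl fun b' _ => e2 b', Finset.sum_ite_eq Finset.univ b,
        if_pos (Finset.mem_univ b), ← lsm_sq, Complex.ofReal_pow]
    · rw [if_neg hb]
      refine Finset.sum_eq_zero fun b' _ => Finset.sum_eq_zero fun χ _ => ?_
      rw [MulChar.map_nonunit _ hb, map_zero, zero_mul, mul_zero]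
  exact_mod_cast h

private theorem lsm_one (r : ℕ) (hr : 1 ≤ r) (I : Finset ℕ) (a : ℕ → ℂ) :
    ((r : ℝ) / r.totient) * ∑ χ ∈ Pch r, ‖∑ n ∈ I, a n * χ (n : ZMod r)‖ ^ 2
      ≤ ∑ b ∈ (Icc 1 r).filter (fun b => Nat.Coprime b r), ‖∑ n ∈ I, a n * ee ((n : ℝ) * b / r)‖ ^ 2 := by
  classical
  have : NeZero r := ⟨by omega⟩
  have hφ : (0:ℝ) < r.totient := by exact_mod_cast Nat.totient_pos.2 (by omega)
  set S : ZMod r → ℂ := fun b => ∑ n ∈ I, a n * ZMod.stdAddChar ((n : ZMod r) * b) with hS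
  -- step 1
  have h1 : ∀ χ ∈ Pch r, (r : ℝ) * ‖∑ n ∈ I, a n * χ (n : ZMod r)‖ ^ 2 =
      ‖∑ b : ZMod r, χ⁻¹ b * S b‖ ^ 2 := by
    intro χ hχ
    rw [mem_Pch] at hχ
    have hχ' : (χ⁻¹).IsPrimitive := by
      rw [DirichletCharacter.isPrimitive_def, DirichletCharacter.conductor_inv]
      exact hχ
    have e1 : ∑ b : ZMod r, χ⁻¹ b * S b =
        (∑ n ∈ I, a n * χ (n : ZMod r)) * gaussSum χ⁻¹ (ZMod.stdAddChar (N := r)) := by
      simp only [hS, Finset.mul_sum]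
      rw [Finset.sum_comm, Finset.sum_mul]
      refine Finset.sum_congr rfl fun n _ => ?_
      have := gaussSum_mulShift_of_isPrimitive (ZMod.stdAddChar (N := r)) hχ' (n : ZMod r)
      rw [inv_inv] at this
      rw [mul_assoc, ← this]
      unfold gaussSum
      rw [Finset.mul_sum]
      refine Finset.sum_congr rfl fun b _ => ?_
      rw [AddChar.mulShift_apply]
      ring
    rw [e1, norm_mul, mul_pow, lsm_tau hχ']
    ring
  -- step 2
  have h2 : (r : ℝ) * ∑ χ ∈ Pch r, ‖∑ n ∈ I, a n * χ (n : ZMod r)‖ ^ 2 ≤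
      r.totient * ∑ b ∈ (Finset.univ : Finset (ZMod r)).filter (fun b => IsUnit b), ‖S b‖ ^ 2 := by
    rw [Finset.mul_sum, Finset.sum_congr rfl h1]
    have e := lsm_orth S
    have e' : ∑ χ : DirichletCharacter ℂ r, ‖∑ b : ZMod r, χ⁻¹ b * S b‖ ^ 2 =
        ∑ χ : DirichletCharacter ℂ r, ‖∑ b : ZMod r, χ b * S b‖ ^ 2 :=
      Fintype.sum_equiv (Equiv.inv _) _ _ fun χ => rfl
    calc _ ≤ ∑ χ : DirichletCharacter ℂ r, ‖∑ b : ZMod r, χ⁻¹ b * S b‖ ^ 2 :=
          Finset.sum_le_sum_of_subset_of_nonneg (Finset.subset_univ _) fun _ _ _ => by positivity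
      _ = _ := by rw [e', e]
  -- step 3
  have h3 : ∑ b ∈ (Finset.univ : Finset (ZMod r)).filter (fun b => IsUnit b), ‖S b‖ ^ 2 =
      ∑ b ∈ (Icc 1 r).filter (fun b => Nat.Coprime b r), ‖∑ n ∈ I, a n * ee ((n : ℝ) * b / r)‖ ^ 2 := by
    symm
    refine Finset.sum_nbij (fun b : ℕ => (b : ZMod r)) ?_ ?_ ?_ ?_
    · intro b hb
      rw [Finset.mem_filter] at hb ⊢
      exact ⟨Finset.mem_univ _, (ZMod.isUnit_iff_coprime b r).2 hb.2⟩
    · intro b hb b' hb' hbb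
      rw [Finset.mem_coe, Finset.mem_filter, Finset.mem_Icc] at hb hb'
      simp only at hbb
      rw [ZMod.natCast_eq_natCast_iff] at hbb
      obtain ⟨⟨h1, h2⟩, -⟩ := hb
      obtain ⟨⟨h3, h4⟩, -⟩ := hb'
      have h5 := (Nat.modEq_iff_dvd.1 hbb)
      obtain ⟨k, hk⟩ := h5
      have h6 : (b' : ℤ) - b < r := by omega
      have h7 : -(r : ℤ) < (b' : ℤ) - b := by omega
      have h8 : k = 0 := by
        rw [hk] at h6 h7
        have hr0 : (0:ℤ) < r := by omega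
        have h9 : k < 1 := by nlinarith
        have h10 : -1 < k := by nlinarith
        omega
      rw [h8, mul_zero] at hk
      omega
    · intro x hx
      rw [Finset.mem_coe, Finset.mem_filter] at hx
      by_cases h0 : x.val = 0
      · refine ⟨r, ?_, ?_⟩
        · rw [Finset.mem_coe, Finset.mem_filter, Finset.mem_Icc]
          refine ⟨⟨hr, le_rfl⟩, ?_⟩
          rw [← ZMod.isUnit_iff_coprime]
          have : x = 0 := (ZMod.val_eq_zero x).1 h0
          rw [ZMod.natCast_self, ← this]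
          exact hx.2
        · simp only [ZMod.natCast_self]
          exact ((ZMod.val_eq_zero x).1 h0).symm
      · refine ⟨x.val, ?_, ?_⟩
        · rw [Finset.mem_coe, Finset.mem_filter, Finset.mem_Icc]
          refine ⟨⟨by omega, (ZMod.val_lt x).le⟩, ?_⟩
          rw [← ZMod.isUnit_iff_coprime, ZMod.natCast_zmod_val]
          exact hx.2
        · simp only [ZMod.natCast_zmod_val]
    · intro b _
      congr 2
      simp only [hS]
      refine Finset.sum_congr rfl fun n _ => ?_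
      congr 1
      have := ZMod.stdAddChar_coe (N := r) ((n * b : ℕ) : ℤ)
      push_cast at this
      rw [this]
      unfold ee
      congr 1
      push_cast
      ring
  rw [← h3, div_mul_eq_mul_div, div_le_iff₀ hφ, mul_comm (∑ b ∈ _, ‖S b‖ ^ 2)]
  exact h2

theorem mult_ls (R : ℕ) (K0 K : ℕ) (a : ℕ → ℂ) :
    ∑ r ∈ Icc 1 R, ((r : ℝ) / r.totient) * ∑ χ ∈ Pch r,
      ‖∑ n ∈ Ioc K0 (K0 + K), a n * χ (n : ZMod r)‖ ^ 2
      ≤ ((R : ℝ) ^ 2 + Real.pi * K) * ∑ n ∈ Ioc K0 (K0 + K), ‖a n‖ ^ 2 :=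
  (Finset.sum_le_sum fun r hr => lsm_one r (Finset.mem_Icc.1 hr).1 _ a).trans (additive_ls R K0 K a)

end Pool.Agent.H91.PK

end

section

/-!
PK TyB: type II sum for one dyadic block of m, averaged over primitive characters of conductor in (Q, D].

Let Y = N / M.  Dyadic decomposition of r: R_l = 2^l Q, l < nl; the blocks (R_l, 2R_l] cover (Q, D] as D ≤ 2^nl Q.
For one block apply `bilinear_sep` with I = {(r,χ) : R_l < r ≤ 2R_l, χ primitive mod r} (a sigma finset),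
 w = 1/φ(r), χ_i(n) = χ(n : ZMod r) (multiplicative via Nat.cast_mul, map_mul),
 A² = (4R² + πM)/R, B² = (4R² + πY)/R (R = R_l ≥ 1):   (h1), (h2) follow from
 1/φ(r) ≤ (1/R)(r/φ(r)) and `mult_ls` with R := 2R_l, (K0,K) = (M, M) resp. (V, Y - V) (if Y < V the sums are empty; K ≤ Y).
 A B ≤ (1/R)(2R + √(πM))(2R + √(πY)) = 4R + 2√π(√M + √Y) + π √(M Y)/R,   M Y ≤ N.
 ∑_l 4R_l ≤ 4·2^nl Q ≤ 8D,  ∑_l 1/R_l ≤ 2/Q.
-/

set_option autoImplicit false

namespace Pool.Agent.H91.PK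

open Finset

private theorem TyB_ls (R K0 K : ℕ) (hR : 1 ≤ R) (a : ℕ → ℂ) :
    ∑ i ∈ (Ioc R (2 * R)).sigma (fun r => Pch r), (1 / (i.1.totient : ℝ)) *
      ‖∑ n ∈ Ioc K0 (K0 + K), a n * i.2 (n : ZMod i.1)‖ ^ 2
      ≤ ((4 * (R : ℝ) ^ 2 + Real.pi * K) / R) * ∑ n ∈ Ioc K0 (K0 + K), ‖a n‖ ^ 2 := by
  rw [Finset.sum_sigma]
  have hR0 : (0 : ℝ) < R := by exact_mod_cast hR
  have h1 := mult_ls (2 * R) K0 K a
  have h2 : ∑ r ∈ Ioc R (2 * R), ∑ χ ∈ Pch r, (1 / (r.totient : ℝ)) *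
      ‖∑ n ∈ Ioc K0 (K0 + K), a n * χ (n : ZMod r)‖ ^ 2 ≤
      (1 / (R : ℝ)) * ∑ r ∈ Icc 1 (2 * R), ((r : ℝ) / r.totient) * ∑ χ ∈ Pch r,
      ‖∑ n ∈ Ioc K0 (K0 + K), a n * χ (n : ZMod r)‖ ^ 2 := by
    rw [Finset.mul_sum]
    calc ∑ r ∈ Ioc R (2 * R), ∑ χ ∈ Pch r, (1 / (r.totient : ℝ)) *
          ‖∑ n ∈ Ioc K0 (K0 + K), a n * χ (n : ZMod r)‖ ^ 2
        ≤ ∑ r ∈ Ioc R (2 * R), (1 / (R : ℝ)) * (((r : ℝ) / r.totient) * ∑ χ ∈ Pch r,
          ‖∑ n ∈ Ioc K0 (K0 + K), a n * χ (n : ZMod r)‖ ^ 2) := by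
          apply Finset.sum_le_sum
          intro r hr
          rw [Finset.mem_Ioc] at hr
          rw [← Finset.mul_sum, ← mul_assoc]
          have hr0 : 0 < r := by omega
          have hφ : (0 : ℝ) < r.totient := by exact_mod_cast Nat.totient_pos.2 hr0
          apply mul_le_mul_of_nonneg_right _ (Finset.sum_nonneg (fun _ _ => by positivity))
          rw [div_mul_div_comm, one_mul, div_le_div_iff₀ hφ (mul_pos hR0 hφ)]
          have : (R : ℝ) ≤ r := by exact_mod_cast hr.1.le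
          nlinarith
      _ ≤ _ := by
          apply Finset.sum_le_sum_of_subset_of_nonneg
          · intro r hr
            rw [Finset.mem_Ioc] at hr
            rw [Finset.mem_Icc]
            omega
          · intro r _ _
            positivity
  refine h2.trans ?_
  have h3 : ((4 * (R : ℝ) ^ 2 + Real.pi * K) / R) * ∑ n ∈ Ioc K0 (K0 + K), ‖a n‖ ^ 2 =
      (1 / (R : ℝ)) * ((((2 * R : ℕ) : ℝ) ^ 2 + Real.pi * K) * ∑ n ∈ Ioc K0 (K0 + K), ‖a n‖ ^ 2) := by
    push_cast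
    ring
  rw [h3]
  exact mul_le_mul_of_nonneg_left h1 (by positivity)

private theorem TyB_AB (R M Y N : ℝ) (hR : 0 < R) (hM : 0 ≤ M) (hY : 0 ≤ Y) (hMY : M * Y ≤ N) :
    Real.sqrt ((4 * R ^ 2 + Real.pi * M) / R) * Real.sqrt ((4 * R ^ 2 + Real.pi * Y) / R) ≤
      4 * R + 2 * Real.sqrt Real.pi * (Real.sqrt M + Real.sqrt Y) + Real.pi * Real.sqrt N / R := by
  have hpi := Real.pi_pos
  have hA : Real.sqrt (4 * R ^ 2 + Real.pi * M) ≤ 2 * R + Real.sqrt Real.pi * Real.sqrt M := by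
    rw [Real.sqrt_le_left (by positivity)]
    have e1 := Real.sq_sqrt hpi.le
    have e2 := Real.sq_sqrt hM
    have e3 : 0 ≤ R * (Real.sqrt Real.pi * Real.sqrt M) := by positivity
    nlinarith [e1, e2, e3]
  have hB : Real.sqrt (4 * R ^ 2 + Real.pi * Y) ≤ 2 * R + Real.sqrt Real.pi * Real.sqrt Y := by
    rw [Real.sqrt_le_left (by positivity)]
    have e1 := Real.sq_sqrt hpi.le
    have e2 := Real.sq_sqrt hY
    have e3 : 0 ≤ R * (Real.sqrt Real.pi * Real.sqrt Y) := by positivity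
    nlinarith [e1, e2, e3]
  rw [Real.sqrt_div (by positivity), Real.sqrt_div (by positivity), div_mul_div_comm,
    Real.mul_self_sqrt hR.le]
  have h1 := mul_le_mul hA hB (Real.sqrt_nonneg _) (by positivity)
  have h2 : Real.sqrt M * Real.sqrt Y ≤ Real.sqrt N := by
    rw [← Real.sqrt_mul hM]
    exact Real.sqrt_le_sqrt hMY
  have h3 : (2 * R + Real.sqrt Real.pi * Real.sqrt M) * (2 * R + Real.sqrt Real.pi * Real.sqrt Y) ≤
      4 * R ^ 2 + 2 * R * Real.sqrt Real.pi * (Real.sqrt M + Real.sqrt Y) +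
        Real.pi * Real.sqrt N := by
    have e1 := Real.mul_self_sqrt hpi.le
    have e2 := mul_le_mul_of_nonneg_left h2 hpi.le
    have e3 : (2 * R + Real.sqrt Real.pi * Real.sqrt M) * (2 * R + Real.sqrt Real.pi * Real.sqrt Y) =
      4 * R ^ 2 + 2 * R * Real.sqrt Real.pi * (Real.sqrt M + Real.sqrt Y) +
        (Real.sqrt Real.pi * Real.sqrt Real.pi) * (Real.sqrt M * Real.sqrt Y) := by ring
    rw [e3, e1]
    linarith
  rw [div_le_iff₀ hR]
  have h4 : (4 * R + 2 * Real.sqrt Real.pi * (Real.sqrt M + Real.sqrt Y) +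
      Real.pi * Real.sqrt N / R) * R = 4 * R ^ 2 + 2 * R * Real.sqrt Real.pi *
      (Real.sqrt M + Real.sqrt Y) + Real.pi * Real.sqrt N := by
    field_simp
  rw [h4]
  exact h1.trans h3

private theorem TyB_one (N k M V R : ℕ) (hN : 2 ≤ N) (hM : 1 ≤ M) (hR : 1 ≤ R) (a b : ℕ → ℝ) :
    ∑ r ∈ Ioc R (2 * R), (1 / (r.totient : ℝ)) * ∑ χ ∈ Pch r,
      ‖∑ m ∈ Ioc M (2 * M), ((a m : ℝ) : ℂ) * ∑ n ∈ Ioc V (N / m), ((b n : ℝ) : ℂ) *
        (χ ((m * n : ℕ) : ZMod r) * ((W N k (m * n) : ℝ) : ℂ))‖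
      ≤ 0.2193 * (1 + Real.log 2 / Real.log N) ^ k *
        (4 * R + 2 * Real.sqrt Real.pi * (Real.sqrt M + Real.sqrt ((N / M : ℕ) : ℝ)) +
          Real.pi * Real.sqrt N / R) *
        (Real.sqrt (∑ m ∈ Ioc M (2 * M), a m ^ 2) * Real.sqrt (∑ n ∈ Ioc V (N / M), b n ^ 2)) := by
  have hR0 : (0 : ℝ) < R := by exact_mod_cast hR
  have hpi := Real.pi_pos
  have hL : 0 ≤ Real.log N := Real.log_nonneg (by exact_mod_cast (by omega : 1 ≤ N))
  have hA0 : 0 ≤ (4 * (R : ℝ) ^ 2 + Real.pi * M) / R := by positivity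
  have hB0 : 0 ≤ (4 * (R : ℝ) ^ 2 + Real.pi * ((N / M : ℕ) : ℝ)) / R := by positivity
  have key := bilinear_sep ((Ioc R (2 * R)).sigma (fun r => Pch r))
    (fun i => 1 / (i.1.totient : ℝ)) (fun i _ => by positivity)
    (fun i n => i.2 (n : ZMod i.1))
    (fun i _ m n => by
      show i.2 ((m * n : ℕ) : ZMod i.1) = i.2 (m : ZMod i.1) * i.2 (n : ZMod i.1)
      rw [Nat.cast_mul, map_mul]) N k M V hN hM a b
    (Real.sqrt ((4 * (R : ℝ) ^ 2 + Real.pi * M) / R))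
    (Real.sqrt ((4 * (R : ℝ) ^ 2 + Real.pi * ((N / M : ℕ) : ℝ)) / R))
    (Real.sqrt_nonneg _) (Real.sqrt_nonneg _)
    (by
      intro α
      rw [Real.sq_sqrt hA0]
      have := TyB_ls R M M hR α
      rwa [← two_mul] at this)
    (by
      intro β
      rw [Real.sq_sqrt hB0]
      rcases Nat.lt_or_ge (N / M) V with h | h
      · have : Ioc V (N / M) = ∅ := Finset.Ioc_eq_empty (by omega)
        rw [this]
        simp
      · have h1 := TyB_ls R V (N / M - V) hR β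
        rw [show V + (N / M - V) = N / M by omega] at h1
        refine h1.trans ?_
        apply mul_le_mul_of_nonneg_right _ (Finset.sum_nonneg (fun _ _ => by positivity))
        apply div_le_div_of_nonneg_right _ hR0.le
        have : ((N / M - V : ℕ) : ℝ) ≤ ((N / M : ℕ) : ℝ) := by exact_mod_cast Nat.sub_le _ _
        nlinarith)
  rw [Finset.sum_sigma] at key
  have e0 : ∑ r ∈ Ioc R (2 * R), (1 / (r.totient : ℝ)) * ∑ χ ∈ Pch r,
      ‖∑ m ∈ Ioc M (2 * M), ((a m : ℝ) : ℂ) * ∑ n ∈ Ioc V (N / m), ((b n : ℝ) : ℂ) *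
        (χ ((m * n : ℕ) : ZMod r) * ((W N k (m * n) : ℝ) : ℂ))‖ =
      ∑ r ∈ Ioc R (2 * R), ∑ χ ∈ Pch r, (1 / (r.totient : ℝ)) *
      ‖∑ m ∈ Ioc M (2 * M), ((a m : ℝ) : ℂ) * ∑ n ∈ Ioc V (N / m), ((b n : ℝ) : ℂ) *
        (χ ((m * n : ℕ) : ZMod r) * ((W N k (m * n) : ℝ) : ℂ))‖ :=
    Finset.sum_congr rfl (fun r _ => Finset.mul_sum _ _ _)
  rw [e0]
  refine key.trans ?_
  apply mul_le_mul_of_nonneg_right _ (by positivity)
  apply mul_le_mul_of_nonneg_left _ (by positivity)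
  apply TyB_AB _ _ _ _ hR0 (by positivity) (by positivity)
  have : M * (N / M) ≤ N := Nat.mul_div_le N M
  exact_mod_cast this

private theorem TyB_dyadic (f : ℕ → ℝ) (Q : ℕ) (nl : ℕ) :
    ∑ r ∈ Ioc Q (2 ^ nl * Q), f r = ∑ l ∈ range nl, ∑ r ∈ Ioc (2 ^ l * Q) (2 * (2 ^ l * Q)), f r := by
  induction nl with
  | zero => simp
  | succ n ih =>
    rw [Finset.sum_range_succ, ← ih]
    have h1 : Q ≤ 2 ^ n * Q := Nat.le_mul_of_pos_left _ (by positivity)
    have h2 : 2 ^ (n + 1) * Q = 2 * (2 ^ n * Q) := by ring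
    rw [h2]
    exact (Finset.sum_Ioc_consecutive f h1 (by omega)).symm

theorem type2_block (N k M V Q D nl : ℕ) (hN : 2 ≤ N) (hM : 1 ≤ M) (hQ : 1 ≤ Q)
    (h1 : D ≤ 2 ^ nl * Q) (h2 : 2 ^ nl * Q ≤ 2 * D) (a b : ℕ → ℝ) :
    ∑ r ∈ Ioc Q D, (1 / (r.totient : ℝ)) * ∑ χ ∈ Pch r,
      ‖∑ m ∈ Ioc M (2 * M), ((a m : ℝ) : ℂ) * ∑ n ∈ Ioc V (N / m), ((b n : ℝ) : ℂ) *
        (χ ((m * n : ℕ) : ZMod r) * ((W N k (m * n) : ℝ) : ℂ))‖
      ≤ 0.2193 * (1 + Real.log 2 / Real.log N) ^ k *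
        (2 * Real.pi * Real.sqrt N / Q + 2 * Real.sqrt Real.pi * nl * (Real.sqrt M + Real.sqrt ((N / M : ℕ) : ℝ))
          + 8 * D) *
        (Real.sqrt (∑ m ∈ Ioc M (2 * M), a m ^ 2) * Real.sqrt (∑ n ∈ Ioc V (N / M), b n ^ 2)) := by
  have hQ0 : (0 : ℝ) < Q := by exact_mod_cast hQ
  have hpi := Real.pi_pos
  have hL : 0 ≤ Real.log N := Real.log_nonneg (by exact_mod_cast (by omega : 1 ≤ N))
  set f : ℕ → ℝ := fun r => (1 / (r.totient : ℝ)) * ∑ χ ∈ Pch r,
      ‖∑ m ∈ Ioc M (2 * M), ((a m : ℝ) : ℂ) * ∑ n ∈ Ioc V (N / m), ((b n : ℝ) : ℂ) *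
        (χ ((m * n : ℕ) : ZMod r) * ((W N k (m * n) : ℝ) : ℂ))‖ with hf
  have hf0 : ∀ r, 0 ≤ f r := fun r => by
    simp only [hf]
    positivity
  set E : ℝ := Real.sqrt (∑ m ∈ Ioc M (2 * M), a m ^ 2) * Real.sqrt (∑ n ∈ Ioc V (N / M), b n ^ 2)
    with hE
  have hE0 : 0 ≤ E := by positivity
  set c : ℝ := 0.2193 * (1 + Real.log 2 / Real.log N) ^ k with hc
  have hc0 : 0 ≤ c := by positivity
  set s : ℝ := 2 * Real.sqrt Real.pi * (Real.sqrt M + Real.sqrt ((N / M : ℕ) : ℝ)) with hs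
  have hs0 : 0 ≤ s := by positivity
  have step1 : ∑ r ∈ Ioc Q D, f r ≤ ∑ r ∈ Ioc Q (2 ^ nl * Q), f r :=
    Finset.sum_le_sum_of_subset_of_nonneg (Finset.Ioc_subset_Ioc_right h1) (fun r _ _ => hf0 r)
  have step2 : ∑ r ∈ Ioc Q (2 ^ nl * Q), f r ≤ ∑ l ∈ range nl,
      c * (4 * ((2 : ℝ) ^ l * Q) + s + Real.pi * Real.sqrt N / ((2 : ℝ) ^ l * Q)) * E := by
    rw [TyB_dyadic]
    apply Finset.sum_le_sum
    intro l _
    have hRl : 1 ≤ 2 ^ l * Q := Nat.mul_pos (by positivity) hQ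
    have := TyB_one N k M V (2 ^ l * Q) hN hM hRl a b
    have hcast : ((2 ^ l * Q : ℕ) : ℝ) = (2 : ℝ) ^ l * Q := by push_cast; ring
    rw [hcast] at this
    exact this
  have g1 : ∀ n : ℕ, ∑ l ∈ range n, (2 : ℝ) ^ l = 2 ^ n - 1 := by
    intro n
    induction n with
    | zero => simp
    | succ n ih => rw [Finset.sum_range_succ, ih]; ring
  have g2 : ∀ n : ℕ, ∑ l ∈ range n, 1 / (2 : ℝ) ^ l ≤ 2 := by
    intro n
    have : ∑ l ∈ range n, 1 / (2 : ℝ) ^ l = 2 - 2 / 2 ^ n := by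
      induction n with
      | zero => norm_num
      | succ n ih =>
        rw [Finset.sum_range_succ, ih]
        field_simp
        ring
    rw [this]
    have : (0 : ℝ) < 2 / 2 ^ n := by positivity
    linarith
  have step3 : ∑ l ∈ range nl,
      c * (4 * ((2 : ℝ) ^ l * Q) + s + Real.pi * Real.sqrt N / ((2 : ℝ) ^ l * Q)) * E =
      c * (4 * Q * ∑ l ∈ range nl, (2 : ℝ) ^ l + nl * s +
        Real.pi * Real.sqrt N / Q * ∑ l ∈ range nl, 1 / (2 : ℝ) ^ l) * E := by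
    rw [← Finset.sum_mul, ← Finset.mul_sum, Finset.sum_add_distrib, Finset.sum_add_distrib,
      Finset.mul_sum, Finset.mul_sum, Finset.sum_const, Finset.card_range, nsmul_eq_mul]
    congr 3
    · congr 1
      exact Finset.sum_congr rfl (fun l _ => by ring)
    · refine Finset.sum_congr rfl (fun l _ => ?_)
      field_simp
  refine (step1.trans step2).trans ?_
  rw [step3]
  apply mul_le_mul_of_nonneg_right _ hE0
  apply mul_le_mul_of_nonneg_left _ hc0
  rw [g1]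
  have k1 : 4 * (Q : ℝ) * (2 ^ nl - 1) ≤ 8 * D := by
    have : ((2 ^ nl * Q : ℕ) : ℝ) ≤ ((2 * D : ℕ) : ℝ) := by exact_mod_cast h2
    push_cast at this
    nlinarith
  have k2 : Real.pi * Real.sqrt N / Q * ∑ l ∈ range nl, 1 / (2 : ℝ) ^ l ≤
      2 * Real.pi * Real.sqrt N / Q := by
    have := mul_le_mul_of_nonneg_left (g2 nl) (by positivity : 0 ≤ Real.pi * Real.sqrt N / Q)
    refine this.trans (le_of_eq ?_)
    ring
  have k3 : (nl : ℝ) * s = 2 * Real.sqrt Real.pi * nl *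
      (Real.sqrt M + Real.sqrt ((N / M : ℕ) : ℝ)) := by
    rw [hs]; ring
  linarith

end Pool.Agent.H91.PK

end
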