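import Mathlib

/-! The parts of this file: H36.IS.A1Limit, H36.IS.A2Types, H36.IS.A3Select, H36.IS.Defs, H36.IS.A5Block, H36.IS.A7Meas, H36.IS.A4Ext, H36.IS.A6Stage, H36.IS.ALim, H36.IS.SD, H37.PPC.Defs, H91.PK.SvD, H36.IS2.Defs2, H36.IS2.TrcA, H36.IS.ClsA, H91.GoldSieve, H91.PK.SvA, H36.IS.AlgB, H36.IS.AlgC, H36.IS.AlgA, H36.IS.GL, H36.IS.Gam, H36.IS.Tval, H92.EH.Totient, H36.IS2.LossC, H36.IS.MtB, H36.IS.MtC, H36.IS2.QArr, H36.IS.MD, H36.IS.BlkA, H36.IS.BlkIn, H36.IS.BlkMain, H36.IS.ToStep. -/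

section

open MeasureTheory Filter Topology
open scoped ENNReal

namespace Pool.Agent.H36.IS

/-- the Cantor space of adjacency types -/
abbrev Cant : Type := ℕ → Bool

/-- `f` depends only on the coordinates in `F` -/
def DepOn {α : Type*} (F : Finset ℕ) (f : Cant → α) : Prop :=
  ∀ x y : Cant, (∀ n ∈ F, x n = y n) → f x = f y

theorem isClopen_of_dep {F : Finset ℕ} {E : Set Cant}
    (h : ∀ x y : Cant, (∀ n ∈ F, x n = y n) → (x ∈ E ↔ y ∈ E)) : IsClopen E := by
  classical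
  let r : Cant → (F → Bool) := fun x n => x n
  have hr : Continuous r := by fun_prop
  have hE : E = r ⁻¹' (r '' E) := by
    ext x
    constructor
    · intro hx
      exact ⟨x, hx, rfl⟩
    · rintro ⟨y, hy, hxy⟩
      refine (h y x ?_).1 hy
      intro n hn
      exact congrFun hxy ⟨n, hn⟩
  rw [hE]
  exact (isClopen_discrete _).preimage hr

/-- a sequence of probability measures on the Cantor space has a limit measure, along an
ultrafilter finer than `atTop`, for which the masses of clopen sets converge -/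
theorem exists_limit (m : ℕ → ProbabilityMeasure Cant) :
    ∃ μ : ProbabilityMeasure Cant, ∀ (E : Set Cant), IsClopen E →
      ∀ a : ℝ≥0∞, (∃ N, ∀ j, N ≤ j → a ≤ (m j : Measure Cant) E) → a ≤ (μ : Measure Cant) E := by
  classical
  let U : Ultrafilter ℕ := Ultrafilter.of atTop
  have hU : (U : Filter ℕ) ≤ atTop := Ultrafilter.of_le _
  obtain ⟨μ, -, hμ⟩ := isCompact_univ.ultrafilter_le_nhds (U.map m) (by simp)
  have hlim : Tendsto m (U : Filter ℕ) (𝓝 μ) := hμ
  refine ⟨μ, ?_⟩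
  intro E hE a ⟨N, hN⟩
  letI : MetricSpace Cant := TopologicalSpace.metrizableSpaceMetric Cant
  have h1 := ProbabilityMeasure.tendsto_measure_of_isClopen_of_tendsto hlim hE
  have h2 : Tendsto (fun i => ((m i : Measure Cant) E)) (U : Filter ℕ)
      (𝓝 ((μ : Measure Cant) E)) := by
    have h3 := (ENNReal.tendsto_coe (f := (U : Filter ℕ))).2 h1
    simpa using h3
  refine ge_of_tendsto h2 ?_
  exact hU (eventually_atTop.2 ⟨N, hN⟩)

end Pool.Agent.H36.IS

end

section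

open MeasureTheory Filter Topology
open scoped ENNReal

namespace Pool.Agent.H36.IS

/-- Borel-Cantelli/reverse Fatou: infinitely many events of probability at least `a` occur with
probability at least `a` -/
theorem le_measure_frequently {Ω : Type*} [MeasurableSpace Ω] (μ : Measure Ω)
    [IsProbabilityMeasure μ] (S : ℕ → Set Ω) (hS : ∀ i, MeasurableSet (S i)) (a : ℝ≥0∞)
    (ha : ∀ i, a ≤ μ (S i)) : a ≤ μ {x | ∀ N, ∃ i, N ≤ i ∧ x ∈ S i} := by
  let A : ℕ → Set Ω := fun N => ⋃ i, ⋃ (_ : N ≤ i), S i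
  have hA : ∀ N, MeasurableSet (A N) := fun N =>
    MeasurableSet.iUnion fun i => MeasurableSet.iUnion fun _ => hS i
  have hanti : Antitone A := by
    intro M N hMN x hx
    simp only [A, Set.mem_iUnion] at hx ⊢
    obtain ⟨i, hi, hx⟩ := hx
    exact ⟨i, hMN.trans hi, hx⟩
  have hlim := tendsto_measure_iInter_atTop (μ := μ) (s := A)
    (fun i => (hA i).nullMeasurableSet) hanti ⟨0, measure_ne_top _ _⟩
  have hEq : (⋂ n, A n) = {x | ∀ N, ∃ i, N ≤ i ∧ x ∈ S i} := by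
    ext x
    simp only [A, Set.mem_iInter, Set.mem_iUnion, Set.mem_ofPred_eq, exists_prop]
  rw [← hEq]
  refine ge_of_tendsto' hlim ?_
  intro N
  refine (ha N).trans (measure_mono ?_)
  intro x hx
  simp only [A, Set.mem_iUnion]
  exact ⟨N, le_refl _, hx⟩

/-- the two dimensional statement: existence of mutually recurrent types -/
theorem exists_types (μ ν : Measure Cant) [IsProbabilityMeasure μ] [IsProbabilityMeasure ν]
    (G H : ℕ → Cant → Finset ℕ) (GG HH : ℕ → Finset ℕ) (okx oky : ℕ → Cant → Prop)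
    (hG : ∀ i, DepOn (HH i) (G i)) (hH : ∀ i, DepOn (GG i) (H i))
    (hokx : ∀ i, DepOn (GG i) (okx i)) (hoky : ∀ i, DepOn (HH i) (oky i))
    (a b : ℝ≥0∞) (hab : 1 < a + b)
    (hμ : ∀ i y, oky i y → a ≤ μ {x | ∃ g ∈ G i y, x g = true})
    (hν : ∀ i x, okx i x → b ≤ ν {y | ∃ h ∈ H i x, y h = true})
    (hμok : ∀ i, μ {x | okx i x} = 1) (hνok : ∀ i, ν {y | oky i y} = 1) :
    ∃ x y : Cant, (∀ i, okx i x) ∧ (∀ i, oky i y) ∧
      (∀ N, ∃ i, N ≤ i ∧ ∃ g ∈ G i y, x g = true) ∧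
      (∀ N, ∃ i, N ≤ i ∧ ∃ h ∈ H i x, y h = true) := by
  classical
  have cg : ∀ g : ℕ, MeasurableSet {x : Cant | x g = true} := by
    intro g
    refine (isClopen_of_dep (F := {g}) (E := {x : Cant | x g = true}) ?_).isOpen.measurableSet
    intro x y h
    simp only [Set.mem_ofPred_eq, h g (Finset.mem_singleton_self g)]
  have cG : ∀ i g, MeasurableSet {y : Cant | g ∈ G i y} := by
    intro i g
    refine (isClopen_of_dep (F := HH i) (E := {y : Cant | g ∈ G i y}) ?_).isOpen.measurableSet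
    intro x y h
    simp only [Set.mem_ofPred_eq, hG i x y h]
  have cH : ∀ i g, MeasurableSet {y : Cant | g ∈ H i y} := by
    intro i g
    refine (isClopen_of_dep (F := GG i) (E := {y : Cant | g ∈ H i y}) ?_).isOpen.measurableSet
    intro x y h
    simp only [Set.mem_ofPred_eq, hH i x y h]
  have cx : ∀ i, MeasurableSet {x : Cant | okx i x} := by
    intro i
    refine (isClopen_of_dep (F := GG i) (E := {x : Cant | okx i x}) ?_).isOpen.measurableSet
    intro x y h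
    simp only [Set.mem_ofPred_eq, hokx i x y h]
  have cy : ∀ i, MeasurableSet {y : Cant | oky i y} := by
    intro i
    refine (isClopen_of_dep (F := HH i) (E := {y : Cant | oky i y}) ?_).isOpen.measurableSet
    intro x y h
    simp only [Set.mem_ofPred_eq, hoky i x y h]
  -- the events in the product
  let A : Set (Cant × Cant) := {p | ∀ N, ∃ i, N ≤ i ∧ ∃ g ∈ G i p.2, p.1 g = true}
  let B : Set (Cant × Cant) := {p | ∀ N, ∃ i, N ≤ i ∧ ∃ h ∈ H i p.1, p.2 h = true}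
  have mAi : ∀ i, MeasurableSet {p : Cant × Cant | ∃ g ∈ G i p.2, p.1 g = true} := by
    intro i
    have : {p : Cant × Cant | ∃ g ∈ G i p.2, p.1 g = true}
        = ⋃ g : ℕ, ({x : Cant | x g = true} ×ˢ {y : Cant | g ∈ G i y}) := by
      ext p
      simp only [Set.mem_ofPred_eq, Set.mem_iUnion, Set.mem_prod]
      constructor
      · rintro ⟨g, h1, h2⟩
        exact ⟨g, h2, h1⟩
      · rintro ⟨g, h1, h2⟩
        exact ⟨g, h2, h1⟩
    rw [this]
    exact MeasurableSet.iUnion fun g => (cg g).prod (cG i g)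
  have mBi : ∀ i, MeasurableSet {p : Cant × Cant | ∃ h ∈ H i p.1, p.2 h = true} := by
    intro i
    have : {p : Cant × Cant | ∃ h ∈ H i p.1, p.2 h = true}
        = ⋃ g : ℕ, ({x : Cant | g ∈ H i x} ×ˢ {y : Cant | y g = true}) := by
      ext p
      simp only [Set.mem_ofPred_eq, Set.mem_iUnion, Set.mem_prod]
    rw [this]
    exact MeasurableSet.iUnion fun g => (cH i g).prod (cg g)
  have mA : MeasurableSet A := by
    have : A = ⋂ N, ⋃ i, ⋃ (_ : N ≤ i), {p : Cant × Cant | ∃ g ∈ G i p.2, p.1 g = true} := by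
      ext p
      simp only [A, Set.mem_iInter, Set.mem_iUnion, Set.mem_ofPred_eq, exists_prop]
    rw [this]
    exact MeasurableSet.iInter fun N => MeasurableSet.iUnion fun i =>
      MeasurableSet.iUnion fun _ => mAi i
  have mB : MeasurableSet B := by
    have : B = ⋂ N, ⋃ i, ⋃ (_ : N ≤ i), {p : Cant × Cant | ∃ h ∈ H i p.1, p.2 h = true} := by
      ext p
      simp only [B, Set.mem_iInter, Set.mem_iUnion, Set.mem_ofPred_eq, exists_prop]
    rw [this]
    exact MeasurableSet.iInter fun N => MeasurableSet.iUnion fun i =>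
      MeasurableSet.iUnion fun _ => mBi i
  have aex : ∀ᵐ x ∂μ, ∀ i, okx i x := by
    rw [ae_all_iff]
    intro i
    exact (prob_compl_eq_zero_iff (cx i)).2 (hμok i)
  have aey : ∀ᵐ y ∂ν, ∀ i, oky i y := by
    rw [ae_all_iff]
    intro i
    exact (prob_compl_eq_zero_iff (cy i)).2 (hνok i)
  have hA : a ≤ (μ.prod ν) A := by
    rw [Measure.prod_apply_symm mA]
    calc a = ∫⁻ _ : Cant, a ∂ν := by simp
      _ ≤ ∫⁻ y, μ ((fun x => (x, y)) ⁻¹' A) ∂ν := by
          refine lintegral_mono_ae ?_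
          filter_upwards [aey] with y hy
          exact le_measure_frequently μ (fun i => {x | ∃ g ∈ G i y, x g = true})
            (fun i => measurable_prodMk_right (mAi i)) a (fun i => hμ i y (hy i))
  have hB : b ≤ (μ.prod ν) B := by
    rw [Measure.prod_apply mB]
    calc b = ∫⁻ _ : Cant, b ∂μ := by simp
      _ ≤ ∫⁻ x, ν (Prod.mk x ⁻¹' B) ∂μ := by
          refine lintegral_mono_ae ?_
          filter_upwards [aex] with x hx
          exact le_measure_frequently ν (fun i => {y | ∃ h ∈ H i x, y h = true})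
            (fun i => measurable_prodMk_left (mBi i)) b (fun i => hν i x (hx i))
  let C : Set (Cant × Cant) := {p | (∀ i, okx i p.1) ∧ (∀ i, oky i p.2)}
  have aeC : ∀ᵐ p ∂(μ.prod ν), p ∈ C := by
    have h1 : ∀ᵐ p ∂(μ.prod ν), ∀ i, okx i p.1 :=
      Measure.quasiMeasurePreserving_fst.ae aex
    have h2 : ∀ᵐ p ∂(μ.prod ν), ∀ i, oky i p.2 :=
      Measure.quasiMeasurePreserving_snd.ae aey
    filter_upwards [h1, h2] with p hp1 hp2
    exact ⟨hp1, hp2⟩
  by_contra hcon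
  push Not at hcon
  have hdisj : (μ.prod ν) (A ∩ B) = 0 := by
    refine measure_mono_null ?_ (show (μ.prod ν) Cᶜ = 0 from aeC)
    rintro p ⟨hpA, hpB⟩ hpC
    obtain ⟨N, hN⟩ := hcon p.1 p.2 hpC.1 hpC.2 hpA
    obtain ⟨i, hi, h, hh, hy⟩ := hpB N
    exact absurd hy (by simpa using hN i hi h hh)
  have hsum : (μ.prod ν) A + (μ.prod ν) B ≤ 1 := by
    have h1 := measure_union_add_inter (μ := μ.prod ν) A mB
    rw [hdisj, add_zero] at h1
    rw [← h1]
    exact prob_le_one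
  exact absurd (lt_of_lt_of_le hab ((add_le_add hA hB).trans hsum)) (lt_irrefl _)

end Pool.Agent.H36.IS

end

section

open MeasureTheory Filter Topology
open scoped ENNReal

namespace Pool.Agent.H36.IS

/-- greedy selection along mutually recurrent types -/
theorem greedy (P R : ℕ → ℕ → Prop)
    (G H : ℕ → Cant → Finset ℕ) (GG HH : ℕ → Finset ℕ) (x y : Cant)
    (hGG : ∀ i j, i < j → G i y ⊆ GG j) (hHH : ∀ i j, i < j → H i x ⊆ HH j)
    (hGt : ∀ i, ∀ g ∈ G i y, ∀ h ∈ HH i, (P h g ↔ y h = true))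
    (hHt : ∀ i, ∀ h ∈ H i x, ∀ g ∈ GG i, (R g h ↔ x g = true))
    (hGl : ∀ i, ∀ g ∈ G i y, i ≤ g) (hHl : ∀ i, ∀ h ∈ H i x, i ≤ h)
    (hx : ∀ N, ∃ i, N ≤ i ∧ ∃ g ∈ G i y, x g = true)
    (hy : ∀ N, ∃ i, N ≤ i ∧ ∃ h ∈ H i x, y h = true) :
    ∃ b c : ℕ → ℕ, StrictMono b ∧ StrictMono c ∧ (∀ i j, i ≤ j → P (b i) (c j)) ∧
      (∀ i j, j < i → R (c j) (b i)) := by
  classical
  choose I hI γ hγ hxγ using hx
  choose J hJ η hη hyη using hy
  -- thresholds
  let s : ℕ → ℕ := fun k => Nat.rec 0 (fun _ t =>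
    J (max (I t) (γ t) + 1) + η (max (I t) (γ t) + 1) + 1) k
  let t : ℕ → ℕ := fun k => max (I (s k)) (γ (s k)) + 1
  have hs : ∀ k, s (k + 1) = J (t k) + η (t k) + 1 := fun k => rfl
  have h1 : ∀ k, s k ≤ I (s k) := fun k => hI _
  have h2 : ∀ k, I (s k) < t k := fun k => by simp only [t]; omega
  have h2' : ∀ k, γ (s k) < t k := fun k => by simp only [t]; omega
  have h3 : ∀ k, t k ≤ J (t k) := fun k => hJ _
  have h4 : ∀ k, J (t k) < s (k + 1) := fun k => by rw [hs]; omega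
  have h4' : ∀ k, η (t k) < s (k + 1) := fun k => by rw [hs]; omega
  have h5 : ∀ k, I (s k) ≤ γ (s k) := fun k => hGl _ _ (hγ _)
  have h6 : ∀ k, J (t k) ≤ η (t k) := fun k => hHl _ _ (hη _)
  have hsmono : StrictMono s := strictMono_nat_of_lt_succ fun k => by
    have := h1 k; have := h2 k; have := h3 k; have := h4 k; omega
  have hc : StrictMono (fun k => γ (s k)) := strictMono_nat_of_lt_succ fun k => by
    have := h2' k; have := h3 k; have := h4 k; have := h1 (k + 1); have := h5 (k + 1); omega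
  have hb : StrictMono (fun k => η (t k)) := strictMono_nat_of_lt_succ fun k => by
    have := h4' k; have := h1 (k + 1); have := h2 (k + 1); have := h3 (k + 1)
    have := h6 (k + 1); omega
  refine ⟨fun k => η (t k), fun k => γ (s (k + 1)), hb,
    fun a b hab => hc (Nat.succ_lt_succ hab), ?_, ?_⟩
  · intro i j hij
    have hlt : J (t i) < I (s (j + 1)) := by
      have := h4 i
      have := h1 (j + 1)
      have := hsmono.monotone (show i + 1 ≤ j + 1 by omega)
      omega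
    exact (hGt _ _ (hγ (s (j + 1))) _ (hHH _ _ hlt (hη (t i)))).2 (hyη _)
  · intro i j hij
    have hlt : I (s (j + 1)) < J (t i) := by
      have := h2 i
      have := h3 i
      rcases Nat.lt_or_ge (j + 1) i with hlt | hge
      · have h7 := h2 (j + 1)
        have h8 := h3 (j + 1)
        have h9 := h4 (j + 1)
        have h10 := hsmono.monotone (show j + 1 + 1 ≤ i by omega)
        have h11 := h1 i
        omega
      · have : i = j + 1 := by omega
        subst this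
        omega
    exact (hHt _ _ (hη (t i)) _ (hGG _ _ hlt (hγ (s (j + 1))))).2 (hxγ _)

/-- abstract two-sided selection theorem -/
theorem two_sided (P R : ℕ → ℕ → Prop)
    (G H : ℕ → Cant → Finset ℕ) (GG HH : ℕ → Finset ℕ) (okx oky : ℕ → Cant → Prop)
    (hG : ∀ i, DepOn (HH i) (G i)) (hH : ∀ i, DepOn (GG i) (H i))
    (hokx : ∀ i, DepOn (GG i) (okx i)) (hoky : ∀ i, DepOn (HH i) (oky i))
    (hGG : ∀ i j, i < j → ∀ y, oky i y → G i y ⊆ GG j)
    (hHH : ∀ i j, i < j → ∀ x, okx i x → H i x ⊆ HH j)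
    (hGt : ∀ i y, oky i y → ∀ g ∈ G i y, ∀ h ∈ HH i, (P h g ↔ y h = true))
    (hHt : ∀ i x, okx i x → ∀ h ∈ H i x, ∀ g ∈ GG i, (R g h ↔ x g = true))
    (hGl : ∀ i y, oky i y → ∀ g ∈ G i y, i ≤ g) (hHl : ∀ i x, okx i x → ∀ h ∈ H i x, i ≤ h)
    (a b : ℝ≥0∞) (hab : 1 < a + b)
    (μ ν : ℕ → Measure ℕ) (iμ : ∀ j, IsProbabilityMeasure (μ j))
    (iν : ∀ j, IsProbabilityMeasure (ν j))
    (hμ : ∀ i j, i < j → ∀ y, oky i y → a ≤ μ j {n | ∃ g ∈ G i y, R g n})
    (hν : ∀ i j, i < j → ∀ x, okx i x → b ≤ ν j {n | ∃ h ∈ H i x, P h n})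
    (hμok : ∀ i j, i ≤ j → ∀ᵐ n ∂(μ j), ∀ x : Cant, (∀ g ∈ GG i, (x g = true ↔ R g n)) → okx i x)
    (hνok : ∀ i j, i ≤ j → ∀ᵐ n ∂(ν j), ∀ y : Cant, (∀ h ∈ HH i, (y h = true ↔ P h n)) → oky i y) :
    ∃ b c : ℕ → ℕ, StrictMono b ∧ StrictMono c ∧ (∀ i j, i ≤ j → P (b i) (c j)) ∧
      (∀ i j, j < i → R (c j) (b i)) := by
  classical
  let φ : ℕ → Cant := fun n g => decide (R g n)
  let ψ : ℕ → Cant := fun n h => decide (P h n)
  have mφ : Measurable φ := measurable_from_nat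
  have mψ : Measurable ψ := measurable_from_nat
  have mp1 : ∀ j, IsProbabilityMeasure ((μ j).map φ) := fun j =>
    Measure.isProbabilityMeasure_map mφ.aemeasurable
  have mp2 : ∀ j, IsProbabilityMeasure ((ν j).map ψ) := fun j =>
    Measure.isProbabilityMeasure_map mψ.aemeasurable
  obtain ⟨M, hM⟩ := exists_limit (fun j => ⟨(μ j).map φ, mp1 j⟩)
  obtain ⟨N, hN⟩ := exists_limit (fun j => ⟨(ν j).map ψ, mp2 j⟩)
  simp only [ProbabilityMeasure.coe_mk] at hM hN
  have clopG : ∀ i y, IsClopen {x : Cant | ∃ g ∈ G i y, x g = true} := by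
    intro i y
    refine isClopen_of_dep (F := G i y) ?_
    intro u v huv
    simp only [Set.mem_ofPred_eq]
    constructor
    · rintro ⟨g, hg, h⟩
      exact ⟨g, hg, by rw [← huv g hg]; exact h⟩
    · rintro ⟨g, hg, h⟩
      exact ⟨g, hg, by rw [huv g hg]; exact h⟩
  have clopH : ∀ i x, IsClopen {y : Cant | ∃ h ∈ H i x, y h = true} := by
    intro i y
    refine isClopen_of_dep (F := H i y) ?_
    intro u v huv
    simp only [Set.mem_ofPred_eq]
    constructor
    · rintro ⟨g, hg, h⟩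
      exact ⟨g, hg, by rw [← huv g hg]; exact h⟩
    · rintro ⟨g, hg, h⟩
      exact ⟨g, hg, by rw [huv g hg]; exact h⟩
  have clopx : ∀ i, IsClopen {x : Cant | okx i x} := by
    intro i
    refine isClopen_of_dep (F := GG i) ?_
    intro u v huv
    simp only [Set.mem_ofPred_eq, hokx i u v huv]
  have clopy : ∀ i, IsClopen {y : Cant | oky i y} := by
    intro i
    refine isClopen_of_dep (F := HH i) ?_
    intro u v huv
    simp only [Set.mem_ofPred_eq, hoky i u v huv]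
  obtain ⟨x, y, hx, hy, hxx, hyy⟩ := exists_types (M : Measure Cant) (N : Measure Cant) G H GG HH
    okx oky hG hH hokx hoky a b hab
    (by
      intro i y hy
      refine hM _ (clopG i y) a ⟨i + 1, fun j hj => ?_⟩
      rw [Measure.map_apply mφ (clopG i y).isOpen.measurableSet]
      refine (hμ i j (by omega) y hy).trans (measure_mono ?_)
      rintro n ⟨g, hg, h⟩
      exact ⟨g, hg, by simpa [φ] using h⟩)
    (by
      intro i x hx
      refine hN _ (clopH i x) b ⟨i + 1, fun j hj => ?_⟩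
      rw [Measure.map_apply mψ (clopH i x).isOpen.measurableSet]
      refine (hν i j (by omega) x hx).trans (measure_mono ?_)
      rintro n ⟨g, hg, h⟩
      exact ⟨g, hg, by simpa [ψ] using h⟩)
    (by
      intro i
      refine le_antisymm prob_le_one (hM _ (clopx i) 1 ⟨i, fun j hj => ?_⟩)
      rw [Measure.map_apply mφ (clopx i).isOpen.measurableSet]
      have := iμ j
      refine le_of_eq (Eq.symm ?_)
      refine (prob_compl_eq_zero_iff ?_).1 ?_
      · exact MeasurableSet.of_discrete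
      · have h1 := hμok i j hj
        filter_upwards [h1] with n hn
        exact hn (φ n) (fun g hg => by simp [φ]))
    (by
      intro i
      refine le_antisymm prob_le_one (hN _ (clopy i) 1 ⟨i, fun j hj => ?_⟩)
      rw [Measure.map_apply mψ (clopy i).isOpen.measurableSet]
      have := iν j
      refine le_of_eq (Eq.symm ?_)
      refine (prob_compl_eq_zero_iff ?_).1 ?_
      · exact MeasurableSet.of_discrete
      · have h1 := hνok i j hj
        filter_upwards [h1] with n hn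
        exact hn (ψ n) (fun g hg => by simp [ψ]))
  exact greedy P R G H GG HH x y (fun i j hij => hGG i j hij y (hy i))
    (fun i j hij => hHH i j hij x (hx i)) (fun i => hGt i y (hy i)) (fun i => hHt i x (hx i))
    (fun i => hGl i y (hy i)) (fun i => hHl i x (hx i)) hxx hyy

end Pool.Agent.H36.IS

end

section

/-!
# Project IS (MP_3532bd_nt): definitions shared by the limit part and the sieve part

`Step R c κ`: for every finite list of pairwise disjoint finite sets `B 0, ..., B (r-1)` with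
`κ s ≤ |B s|`, and every admissible progression, there is a probability weight `w` on arbitrarily
large integers `n` of the progression, with arbitrarily small atoms, such that for EVERY `s` the
event `∃ h ∈ B s, R (n + h)` has probability at least `c`.
-/

set_option autoImplicit false

namespace Pool.Agent.H36.IS

/-- admissibility of the progression `a mod W` for the finite set of shifts `S` -/
def Adm (W a : ℕ) (S : Finset ℕ) : Prop :=
  0 < W ∧ (∀ p : ℕ, p.Prime → p ∣ W → ∀ h ∈ S, ¬ p ∣ a + h) ∧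
    (∀ p : ℕ, p.Prime → ¬ p ∣ W → S.card < p)

open Classical in
/-- the sieve input -/
def Step (R : ℕ → Prop) (c : ℝ) (κ : ℕ → ℕ) : Prop :=
  ∀ (r : ℕ) (B : Fin r → Finset ℕ), (∀ i j, i ≠ j → Disjoint (B i) (B j)) →
    (∀ s : Fin r, κ s ≤ (B s).card) →
    ∀ W a : ℕ, Adm W a (Finset.univ.biUnion B) →
    ∀ N : ℕ, ∃ (X : Finset ℕ) (w : ℕ → ℝ),
      (∀ n ∈ X, N ≤ n ∧ n ≡ a [MOD W] ∧ 0 ≤ w n ∧ (N : ℝ) * w n ≤ 1) ∧
      ∑ n ∈ X, w n = 1 ∧
      ∀ s : Fin r, c ≤ ∑ n ∈ X.filter (fun n => ∃ h ∈ B s, R (n + h)), w n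

end Pool.Agent.H36.IS

end

section

/-!
# Project IS, part A: the blocks of one stage
-/

set_option autoImplicit false

namespace Pool.Agent.H36.IS

open Classical in
/-- the union of a list of finite sets (in the form of `Step`) -/
noncomputable def uni (L : List (Finset ℕ)) : Finset ℕ :=
  Finset.univ.biUnion (fun i : Fin L.length => L.get i)

theorem mem_uni {L : List (Finset ℕ)} {x : ℕ} : x ∈ uni L ↔ ∃ B ∈ L, x ∈ B := by
  classical
  unfold uni
  simp only [Finset.mem_biUnion, Finset.mem_univ, true_and]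
  constructor
  · rintro ⟨i, hi⟩
    exact ⟨L.get i, List.get_mem _ _, hi⟩
  · rintro ⟨B, hB, hx⟩
    obtain ⟨i, hi⟩ := List.mem_iff_get.1 hB
    exact ⟨i, by rw [hi]; exact hx⟩

/-- the type `x` occurs infinitely often in the progression `a mod W` (with respect to the earlier
elements `E` and the relation `Q`) -/
def okR (Q : ℕ → ℕ → Prop) (E : Finset ℕ) (W a : ℕ) (x : Cant) : Prop :=
  ∀ N : ℕ, ∃ n : ℕ, N ≤ n ∧ n ≡ a [MOD W] ∧ ∀ g ∈ E, (Q g n ↔ x g = true)

theorem okR_dep (Q : ℕ → ℕ → Prop) (E : Finset ℕ) (W a : ℕ) : DepOn E (okR Q E W a) := by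
  intro x y hxy
  unfold okR
  refine propext (forall_congr' fun N => exists_congr fun n => and_congr_right fun _ =>
    and_congr_right fun _ => forall₂_congr fun g hg => ?_)
  rw [hxy g hg]

/-- a bound for the sizes of the blocks of one stage -/
def szBound (κ : ℕ → ℕ) (l e : ℕ) : ℕ := (Finset.range (l + 2 ^ e)).sup κ

theorem exists_block (Q : ℕ → ℕ → Prop) (E : Finset ℕ) (W a K M : ℕ) (T : Finset ℕ)
    (h : ∀ N : ℕ, ∃ n : ℕ, N ≤ n ∧ n ≡ a [MOD W] ∧ ∀ g ∈ E, (Q g n ↔ g ∈ T)) :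
    ∃ B : Finset ℕ, B.card = K ∧ ∀ n ∈ B, M ≤ n ∧ n ≡ a [MOD W] ∧ ∀ g ∈ E, (Q g n ↔ g ∈ T) := by
  have hinf : {n : ℕ | M ≤ n ∧ n ≡ a [MOD W] ∧ ∀ g ∈ E, (Q g n ↔ g ∈ T)}.Infinite := by
    refine Set.infinite_of_not_bddAbove ?_
    rintro ⟨u, hu⟩
    obtain ⟨n, h1, h2, h3⟩ := h (M + u + 1)
    have := hu (show n ∈ {n : ℕ | M ≤ n ∧ n ≡ a [MOD W] ∧ ∀ g ∈ E, (Q g n ↔ g ∈ T)} from
      ⟨by omega, h2, h3⟩)
    omega
  obtain ⟨B, hB, hc⟩ := hinf.exists_subset_card_eq K
  exact ⟨B, hc, fun n hn => hB hn⟩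

/-- one side of a stage -/
theorem side (Q : ℕ → ℕ → Prop) (κ : ℕ → ℕ) (E : Finset ℕ) (W a J : ℕ) (L : List (Finset ℕ))
    (hL : L.Pairwise Disjoint) (hsz : ∀ (i : ℕ) (hi : i < L.length), κ i ≤ (L[i]).card) :
    ∃ (L₁ : List (Finset ℕ)) (F : Cant → Finset ℕ), DepOn E F ∧
      (∀ x, okR Q E W a x → F x ∈ L₁) ∧
      (∀ x, okR Q E W a x → ∀ n ∈ F x, J ≤ n ∧ ∀ g ∈ E, (Q g n ↔ x g = true)) ∧
      (∀ B ∈ L, B ∈ L₁) ∧ L₁.Pairwise Disjoint ∧
      (∀ (i : ℕ) (hi : i < L₁.length), κ i ≤ (L₁[i]).card) ∧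
      (∀ n ∈ uni L₁, n ∈ uni L ∨ n ≡ a [MOD W]) ∧
      (uni L₁).card ≤ (uni L).card + 2 ^ E.card * szBound κ L.length E.card := by
  classical
  let ok' : Finset ℕ → Prop := fun T =>
    ∀ N : ℕ, ∃ n : ℕ, N ≤ n ∧ n ≡ a [MOD W] ∧ ∀ g ∈ E, (Q g n ↔ g ∈ T)
  let K : ℕ := szBound κ L.length E.card
  let M : ℕ := max J ((uni L).sup id + 1)
  let blk : Finset ℕ → Finset ℕ := fun T =>
    if h : ok' T then (exists_block Q E W a K M T h).choose else ∅
  have hblk : ∀ T, ok' T → (blk T).card = K ∧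
      ∀ n ∈ blk T, M ≤ n ∧ n ≡ a [MOD W] ∧ ∀ g ∈ E, (Q g n ↔ g ∈ T) := by
    intro T hT
    have : blk T = (exists_block Q E W a K M T hT).choose := dif_pos hT
    rw [this]
    exact (exists_block Q E W a K M T hT).choose_spec
  let TT : Finset (Finset ℕ) := E.powerset.filter ok'
  let L' : List (Finset ℕ) := TT.toList.map blk
  let F : Cant → Finset ℕ := fun x => blk (E.filter (fun g => x g = true))
  have hok : ∀ x, okR Q E W a x → ok' (E.filter (fun g => x g = true)) := by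
    intro x hx N
    obtain ⟨n, h1, h2, h3⟩ := hx N
    refine ⟨n, h1, h2, fun g hg => ?_⟩
    rw [h3 g hg, Finset.mem_filter]
    exact ⟨fun h => ⟨hg, h⟩, fun h => h.2⟩
  have hL'len : L'.length ≤ 2 ^ E.card := by
    simp only [L', List.length_map, Finset.length_toList]
    refine (Finset.card_filter_le _ _).trans ?_
    rw [Finset.card_powerset]
  have hL'mem : ∀ B ∈ L', ∃ T ∈ TT, blk T = B := by
    intro B hB
    obtain ⟨T, hT, hTB⟩ := List.mem_map.1 hB
    exact ⟨T, Finset.mem_toList.1 hT, hTB⟩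
  have hTTok : ∀ T ∈ TT, ok' T := fun T hT => (Finset.mem_filter.1 hT).2
  refine ⟨L ++ L', F, ?_, ?_, ?_, ?_, ?_, ?_, ?_, ?_⟩
  · intro x y hxy
    simp only [F]
    congr 1
    refine Finset.filter_congr fun g hg => ?_
    rw [hxy g hg]
  · intro x hx
    refine List.mem_append_right _ (List.mem_map.2 ⟨_, Finset.mem_toList.2 ?_, rfl⟩)
    exact Finset.mem_filter.2 ⟨Finset.mem_powerset.2 (Finset.filter_subset _ _), hok x hx⟩
  · intro x hx n hn
    obtain ⟨h1, h2, h3⟩ := (hblk _ (hok x hx)).2 n hn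
    refine ⟨(le_max_left _ _).trans h1, fun g hg => ?_⟩
    rw [h3 g hg, Finset.mem_filter]
    exact ⟨fun h => h.2, fun h => ⟨hg, h⟩⟩
  · intro B hB
    exact List.mem_append_left _ hB
  · rw [List.pairwise_append]
    refine ⟨hL, ?_, ?_⟩
    · simp only [L']
      rw [List.pairwise_map]
      refine List.Pairwise.imp_of_mem ?_ (Finset.nodup_toList TT)
      intro T T' hT hT' hne
      rw [Finset.mem_toList] at hT hT'
      rw [Finset.disjoint_left]
      intro n hn hn'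
      apply hne
      have h1 := ((hblk T (hTTok T hT)).2 n hn).2.2
      have h2 := ((hblk T' (hTTok T' hT')).2 n hn').2.2
      have hs := Finset.mem_powerset.1 (Finset.mem_filter.1 hT).1
      have hs' := Finset.mem_powerset.1 (Finset.mem_filter.1 hT').1
      ext g
      constructor
      · intro hg
        exact (h2 g (hs hg)).1 ((h1 g (hs hg)).2 hg)
      · intro hg
        exact (h1 g (hs' hg)).1 ((h2 g (hs' hg)).2 hg)
    · intro B hB B' hB'
      obtain ⟨T, hT, rfl⟩ := hL'mem B' hB'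
      rw [Finset.disjoint_left]
      intro n hn hn'
      have h1 : M ≤ n := ((hblk T (hTTok T hT)).2 n hn').1
      have h2 : n ≤ (uni L).sup id := Finset.le_sup (f := id) (mem_uni.2 ⟨B, hB, hn⟩)
      have h3 : (uni L).sup id + 1 ≤ M := le_max_right _ _
      omega
  · intro i hi
    rw [List.getElem_append]
    split_ifs with hlt
    · exact hsz i hlt
    · have hi' : i - L.length < L'.length := by
        rw [List.length_append] at hi
        omega
      obtain ⟨T, hT, hTB⟩ := hL'mem (L'[i - L.length]) (List.getElem_mem hi')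
      rw [← hTB, (hblk T (hTTok T hT)).1]
      refine Finset.le_sup (f := κ) (Finset.mem_range.2 ?_)
      omega
  · intro n hn
    obtain ⟨B, hB, hnB⟩ := mem_uni.1 hn
    rcases List.mem_append.1 hB with hB | hB
    · exact Or.inl (mem_uni.2 ⟨B, hB, hnB⟩)
    · obtain ⟨T, hT, rfl⟩ := hL'mem B hB
      exact Or.inr ((hblk T (hTTok T hT)).2 n hnB).2.1
  · have hsub : uni (L ++ L') ⊆ uni L ∪ TT.biUnion blk := by
      intro n hn
      obtain ⟨B, hB, hnB⟩ := mem_uni.1 hn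
      rcases List.mem_append.1 hB with hB | hB
      · exact Finset.mem_union_left _ (mem_uni.2 ⟨B, hB, hnB⟩)
      · obtain ⟨T, hT, rfl⟩ := hL'mem B hB
        exact Finset.mem_union_right _ (Finset.mem_biUnion.2 ⟨T, hT, hnB⟩)
    refine (Finset.card_le_card hsub).trans ((Finset.card_union_le _ _).trans ?_)
    refine Nat.add_le_add_left ?_ _
    refine (Finset.card_biUnion_le_card_mul TT blk K
      (fun T hT => le_of_eq (hblk T (hTTok T hT)).1)).trans ?_
    refine Nat.mul_le_mul_right _ ?_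
    refine (Finset.card_filter_le _ _).trans ?_
    rw [Finset.card_powerset]

end Pool.Agent.H36.IS

end

section

/-!
# Project IS, part A: the measure given by a sieve step
-/

set_option autoImplicit false

open MeasureTheory
open scoped ENNReal

namespace Pool.Agent.H36.IS

theorem sum_dirac_apply (X Y : Finset ℕ) (w : ℕ → ℝ) (hw : ∀ n ∈ X, 0 ≤ w n) (Q : ℕ → Prop)
    (hY : ∀ n, n ∈ Y ↔ n ∈ X ∧ Q n) :
    (∑ n ∈ X, ENNReal.ofReal (w n) • Measure.dirac n : Measure ℕ) {n | Q n}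
      = ENNReal.ofReal (∑ n ∈ Y, w n) := by
  classical
  have hYX : Y = X.filter Q := by
    ext n
    rw [hY n, Finset.mem_filter]
  rw [hYX, Measure.finsetSum_apply, ENNReal.ofReal_sum_of_nonneg
    (fun i hi => hw i (Finset.mem_filter.1 hi).1), Finset.sum_filter]
  refine Finset.sum_congr rfl fun n _ => ?_
  rw [Measure.smul_apply, Measure.dirac_apply' _ MeasurableSet.of_discrete, smul_eq_mul]
  by_cases h : Q n
  · rw [Set.indicator_of_mem (show n ∈ {n | Q n} from h)]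
    simp [h]
  · rw [Set.indicator_of_notMem (show n ∉ {n | Q n} from h)]
    simp [h]

theorem measure_of_step {R : ℕ → Prop} {c : ℝ} {κ : ℕ → ℕ} (h : Step R c κ)
    (L : List (Finset ℕ)) (hd : L.Pairwise Disjoint)
    (hsz : ∀ (i : ℕ) (hi : i < L.length), κ i ≤ (L[i]).card) (W a : ℕ)
    (hadm : Adm W a (uni L)) (N : ℕ) :
    ∃ μ : Measure ℕ, IsProbabilityMeasure μ ∧ (∀ᵐ n ∂μ, N ≤ n ∧ n ≡ a [MOD W]) ∧
      ∀ B ∈ L, ENNReal.ofReal c ≤ μ {n | ∃ h ∈ B, R (n + h)} := by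
  classical
  have hdis : ∀ i j : Fin L.length, i ≠ j → Disjoint (L.get i) (L.get j) := by
    intro i j hij
    rcases lt_or_gt_of_ne hij with hlt | hgt
    · exact (List.pairwise_iff_get.1 hd) i j hlt
    · exact ((List.pairwise_iff_get.1 hd) j i hgt).symm
  obtain ⟨X, w, hX, hsum, hB⟩ := h L.length (fun i => L.get i) hdis
    (fun s => hsz s.1 s.2) W a hadm N
  have hw : ∀ n ∈ X, 0 ≤ w n := fun n hn => (hX n hn).2.2.1
  refine ⟨∑ n ∈ X, ENNReal.ofReal (w n) • Measure.dirac n, ⟨?_⟩, ?_, ?_⟩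
  · have h1 := sum_dirac_apply X X w hw (fun _ => True) (fun n => by simp)
    rw [hsum, ENNReal.ofReal_one] at h1
    have h2 : (Set.univ : Set ℕ) = {n | (fun _ : ℕ => True) n} := by
      ext n
      simp
    rw [h2]
    exact h1
  · have h1 := sum_dirac_apply X ∅ w hw (fun n => ¬ (N ≤ n ∧ n ≡ a [MOD W])) (fun n => by
      constructor
      · intro hn
        exact absurd hn (Finset.notMem_empty n)
      · rintro ⟨hn, hn2⟩
        exact absurd ⟨(hX n hn).1, (hX n hn).2.1⟩ hn2)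
    rw [Finset.sum_empty, ENNReal.ofReal_zero] at h1
    exact h1
  · intro B hBL
    obtain ⟨i, hi⟩ := List.mem_iff_get.1 hBL
    have h1 := sum_dirac_apply X (X.filter (fun n => ∃ h ∈ B, R (n + h))) w hw
      (fun n => ∃ h ∈ B, R (n + h)) (fun n => Finset.mem_filter)
    rw [h1]
    refine ENNReal.ofReal_le_ofReal ?_
    have h2 := hB i
    simp only [hi] at h2
    convert h2

end Pool.Agent.H36.IS

end

section

/-!
# Project IS, part A: extending the modulus
-/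

set_option autoImplicit false

namespace Pool.Agent.H36.IS

/-- compatibility of the two residues `a` (for later `b`'s) and `a'` (for later `c`'s) with the
sets `G` (earlier `c`'s) and `H` (earlier `b`'s) -/
structure Compat (W a a' : ℕ) (G H : Finset ℕ) : Prop where
  pos : 0 < W
  hG : ∀ p : ℕ, p.Prime → p ∣ W → ∀ g ∈ G, ¬ p ∣ a + g
  hH : ∀ p : ℕ, p.Prime → p ∣ W → ∀ h ∈ H, ¬ p ∣ a' + h
  hab : ∀ p : ℕ, p.Prime → p ∣ W → ¬ p ∣ a + a'

theorem exists_residue (p : ℕ) (hp : 0 < p) (S : Finset ℕ) (hS : S.card < p) :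
    ∃ α : ℕ, ∀ s ∈ S, ¬ p ∣ α + s := by
  classical
  let T : Finset ℕ := S.image (fun g => (p - g % p) % p)
  have hT : T.card < (Finset.range p).card := by
    rw [Finset.card_range]
    exact lt_of_le_of_lt Finset.card_image_le hS
  obtain ⟨α, hα, hαT⟩ := Finset.exists_mem_notMem_of_card_lt_card hT
  refine ⟨α, ?_⟩
  intro s hs hdvd
  apply hαT
  refine Finset.mem_image.2 ⟨s, hs, ?_⟩
  have hαp : α < p := Finset.mem_range.1 hα
  have hsp : s % p < p := Nat.mod_lt _ hp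
  have h1 : (α + s % p) % p = 0 := by
    rw [Nat.add_mod_mod]
    exact Nat.mod_eq_zero_of_dvd hdvd
  obtain ⟨k, hk⟩ := Nat.dvd_of_mod_eq_zero h1
  have hk2 : k < 2 := by
    by_contra hcon
    have : p * 2 ≤ p * k := Nat.mul_le_mul_left p (by omega)
    omega
  interval_cases k
  · have h2 : s % p = 0 := by omega
    have h3 : α = 0 := by omega
    rw [h2, h3]
    simp
  · have h2 : p - s % p = α := by omega
    rw [h2]
    exact Nat.mod_eq_of_lt hαp

theorem dvd_congr {q W a b g : ℕ} (hqW : q ∣ W) (hab : b ≡ a [MOD W]) : q ∣ b + g ↔ q ∣ a + g :=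
  ((hab.of_dvd hqW).add_right g).dvd_iff (dvd_refl q)

theorem ext_one {W a a' : ℕ} {G H : Finset ℕ} (h : Compat W a a' G H) (p : ℕ) (hp : p.Prime)
    (hpW : ¬ p ∣ W) (hGc : G.card < p) (hHc : H.card + 1 < p) :
    ∃ b b' : ℕ, Compat (W * p) b b' G H ∧ b ≡ a [MOD W] ∧ b' ≡ a' [MOD W] := by
  classical
  obtain ⟨α, hα⟩ := exists_residue p hp.pos G hGc
  obtain ⟨α', hα'⟩ := exists_residue p hp.pos (insert α H)
    (lt_of_le_of_lt (Finset.card_insert_le _ _) hHc)
  have hco : Nat.Coprime W p := ((Nat.Prime.coprime_iff_not_dvd hp).2 hpW).symm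
  obtain ⟨b, hb1, hb2⟩ := Nat.chineseRemainder hco a α
  obtain ⟨b', hb1', hb2'⟩ := Nat.chineseRemainder hco a' α'
  refine ⟨b, b', ⟨Nat.mul_pos h.pos hp.pos, ?_, ?_, ?_⟩, hb1, hb1'⟩
  · intro q hq hqWp g hg
    rcases (Nat.Prime.dvd_mul hq).1 hqWp with hqW | hqp
    · rw [dvd_congr hqW hb1]
      exact h.hG q hq hqW g hg
    · have : q = p := (Nat.prime_dvd_prime_iff_eq hq hp).1 hqp
      subst this
      rw [dvd_congr (dvd_refl q) hb2]
      exact hα g hg
  · intro q hq hqWp g hg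
    rcases (Nat.Prime.dvd_mul hq).1 hqWp with hqW | hqp
    · rw [dvd_congr hqW hb1']
      exact h.hH q hq hqW g hg
    · have : q = p := (Nat.prime_dvd_prime_iff_eq hq hp).1 hqp
      subst this
      rw [dvd_congr (dvd_refl q) hb2']
      exact hα' g (Finset.mem_insert_of_mem hg)
  · intro q hq hqWp
    rcases (Nat.Prime.dvd_mul hq).1 hqWp with hqW | hqp
    · rw [dvd_congr hqW hb1, add_comm, dvd_congr hqW hb1', add_comm]
      exact h.hab q hq hqW
    · have : q = p := (Nat.prime_dvd_prime_iff_eq hq hp).1 hqp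
      subst this
      rw [dvd_congr (dvd_refl q) hb2, add_comm, dvd_congr (dvd_refl q) hb2']
      exact hα' α (Finset.mem_insert_self _ _)

theorem ext_all {W a a' : ℕ} {G H : Finset ℕ} (h : Compat W a a' G H)
    (hc : ∀ p : ℕ, p.Prime → ¬ p ∣ W → G.card < p ∧ H.card + 1 < p) (T : ℕ) :
    ∃ W₁ a₁ a₁' : ℕ, W ∣ W₁ ∧ a₁ ≡ a [MOD W] ∧ a₁' ≡ a' [MOD W] ∧ Compat W₁ a₁ a₁' G H ∧
      ∀ p : ℕ, p.Prime → p ≤ T → p ∣ W₁ := by
  induction T with
  | zero =>
    refine ⟨W, a, a', dvd_refl _, Nat.ModEq.refl _, Nat.ModEq.refl _, h, ?_⟩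
    intro p hp hp0
    exact absurd hp.pos (by omega)
  | succ T ih =>
    obtain ⟨W₁, a₁, a₁', h1, h2, h3, h4, h5⟩ := ih
    by_cases hT : (T + 1).Prime ∧ ¬ (T + 1) ∣ W₁
    · have hW : ¬ (T + 1) ∣ W := fun hd => hT.2 (hd.trans h1)
      obtain ⟨b, b', h6, h7, h8⟩ := ext_one h4 (T + 1) hT.1 hT.2 (hc _ hT.1 hW).1 (hc _ hT.1 hW).2
      refine ⟨W₁ * (T + 1), b, b', h1.trans (Nat.dvd_mul_right _ _), (h7.of_dvd h1).trans h2,
        (h8.of_dvd h1).trans h3, h6, ?_⟩
      intro p hp hpT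
      rcases Nat.lt_or_ge T p with hlt | hge
      · have : p = T + 1 := by omega
        subst this
        exact Nat.dvd_mul_left _ _
      · exact (h5 p hp hge).trans (Nat.dvd_mul_right _ _)
    · refine ⟨W₁, a₁, a₁', h1, h2, h3, h4, ?_⟩
      intro p hp hpT
      rcases Nat.lt_or_ge T p with hlt | hge
      · have : p = T + 1 := by omega
        subst this
        by_contra hcon
        exact hT ⟨hp, hcon⟩
      · exact h5 p hp hge

end Pool.Agent.H36.IS

end

section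

/-!
# Project IS, part A: the recursion
-/

set_option autoImplicit false

namespace Pool.Agent.H36.IS

/-- the state before a stage: blocks of `c`'s, blocks of `b`'s, modulus, residues -/
structure St where
  LG : List (Finset ℕ)
  LH : List (Finset ℕ)
  W : ℕ
  a : ℕ
  a' : ℕ

/-- the invariants of a state -/
structure Inv (κ1 κ2 : ℕ → ℕ) (s : St) : Prop where
  compat : Compat s.W s.a s.a' (uni s.LG) (uni s.LH)
  small : ∀ p : ℕ, p.Prime → ¬ p ∣ s.W → (uni s.LG).card < p ∧ (uni s.LH).card + 1 < p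
  disG : s.LG.Pairwise Disjoint
  disH : s.LH.Pairwise Disjoint
  szG : ∀ (i : ℕ) (hi : i < s.LG.length), κ2 i ≤ (s.LG[i]).card
  szH : ∀ (i : ℕ) (hi : i < s.LH.length), κ1 i ≤ (s.LH[i]).card

/-- the relation between consecutive states -/
structure Rel (P R : ℕ → ℕ → Prop) (j : ℕ) (s s₁ : St) (G H : Cant → Finset ℕ) : Prop where
  depG : DepOn (uni s.LH) G
  depH : DepOn (uni s.LG) H
  memG : ∀ y, okR P (uni s.LH) s₁.W s₁.a' y → G y ∈ s₁.LG
  memH : ∀ x, okR R (uni s.LG) s₁.W s₁.a x → H x ∈ s₁.LH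
  typG : ∀ y, okR P (uni s.LH) s₁.W s₁.a' y → ∀ g ∈ G y, j ≤ g ∧
    ∀ h ∈ uni s.LH, (P h g ↔ y h = true)
  typH : ∀ x, okR R (uni s.LG) s₁.W s₁.a x → ∀ h ∈ H x, j ≤ h ∧
    ∀ g ∈ uni s.LG, (R g h ↔ x g = true)
  subG : ∀ B ∈ s.LG, B ∈ s₁.LG
  subH : ∀ B ∈ s.LH, B ∈ s₁.LH
  dvdW : s.W ∣ s₁.W
  modA : s₁.a ≡ s.a [MOD s.W]
  modA' : s₁.a' ≡ s.a' [MOD s.W]

theorem stage (P R : ℕ → ℕ → Prop) (κ1 κ2 : ℕ → ℕ) (j : ℕ) (s : St) (hs : Inv κ1 κ2 s) :
    ∃ (s₁ : St) (G H : Cant → Finset ℕ), Inv κ1 κ2 s₁ ∧ Rel P R j s s₁ G H := by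
  classical
  let T : ℕ := (uni s.LG).card + 2 ^ (uni s.LH).card * szBound κ2 s.LG.length (uni s.LH).card
    + ((uni s.LH).card + 2 ^ (uni s.LG).card * szBound κ1 s.LH.length (uni s.LG).card) + 2
  obtain ⟨W₁, a₁, a₁', h1, h2, h3, h4, h5⟩ := ext_all hs.compat hs.small T
  obtain ⟨LG₁, G, g1, g2, g3, g4, g5, g6, g7, g8⟩ :=
    side P κ2 (uni s.LH) W₁ a₁' j s.LG hs.disG hs.szG
  obtain ⟨LH₁, H, k1, k2, k3, k4, k5, k6, k7, k8⟩ :=
    side R κ1 (uni s.LG) W₁ a₁ j s.LH hs.disH hs.szH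
  refine ⟨⟨LG₁, LH₁, W₁, a₁, a₁'⟩, G, H, ⟨⟨h4.pos, ?_, ?_, h4.hab⟩, ?_, g5, k5, g6, k6⟩,
    ⟨g1, k1, g2, k2, g3, k3, g4, k4, h1, h2, h3⟩⟩
  · intro p hp hpW g hg
    rcases g7 g hg with hg | hg
    · exact h4.hG p hp hpW g hg
    · intro hd
      apply h4.hab p hp hpW
      rw [add_comm] at hd ⊢
      exact (dvd_congr hpW hg).1 hd
  · intro p hp hpW g hg
    rcases k7 g hg with hg | hg
    · exact h4.hH p hp hpW g hg
    · intro hd
      apply h4.hab p hp hpW
      rw [add_comm] at hd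
      exact (dvd_congr hpW hg).1 hd
  · intro p hp hpW
    have hpT : T < p := by
      by_contra hcon
      exact hpW (h5 p hp (by omega))
    simp only [T] at hpT
    constructor
    · show (uni LG₁).card < p
      omega
    · show (uni LH₁).card + 1 < p
      omega

theorem inv_init (κ1 κ2 : ℕ → ℕ) : Inv κ1 κ2 ⟨[], [], 1, 0, 0⟩ := by
  have hu : uni [] = ∅ := by
    apply Finset.eq_empty_of_forall_notMem
    intro x hx
    obtain ⟨B, hB, -⟩ := mem_uni.1 hx
    exact absurd hB (by simp)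
  refine ⟨⟨by norm_num, ?_, ?_, ?_⟩, ?_, List.Pairwise.nil, List.Pairwise.nil, ?_, ?_⟩
  · intro p hp hp1
    exact absurd hp1 (by simpa using hp.one_lt.ne')
  · intro p hp hp1
    exact absurd hp1 (by simpa using hp.one_lt.ne')
  · intro p hp hp1
    exact absurd hp1 (by simpa using hp.one_lt.ne')
  · intro p hp _
    simp only [hu, Finset.card_empty]
    exact ⟨hp.pos, hp.one_lt⟩
  · intro i hi
    simp at hi
  · intro i hi
    simp at hi

/-- the whole construction -/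
theorem construction (P R : ℕ → ℕ → Prop) (κ1 κ2 : ℕ → ℕ) :
    ∃ (s : ℕ → St) (G H : ℕ → Cant → Finset ℕ), (∀ j, Inv κ1 κ2 (s j)) ∧
      ∀ j, Rel P R j (s j) (s (j + 1)) (G j) (H j) := by
  classical
  choose nx Gx Hx hinv hrel using fun (j : ℕ) (s : {s : St // Inv κ1 κ2 s}) =>
    stage P R κ1 κ2 j s.1 s.2
  let sq : ℕ → {s : St // Inv κ1 κ2 s} := fun j =>
    Nat.rec ⟨⟨[], [], 1, 0, 0⟩, inv_init κ1 κ2⟩ (fun j s => ⟨nx j s, hinv j s⟩) j
  exact ⟨fun j => (sq j).1, fun j => Gx j (sq j), fun j => Hx j (sq j), fun j => (sq j).2,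
    fun j => hrel j (sq j)⟩

/-- all but finitely many integers of a progression have a type that occurs infinitely often -/
theorem eventually_ok (Q : ℕ → ℕ → Prop) (E : Finset ℕ) (W a : ℕ) :
    ∃ N : ℕ, ∀ n : ℕ, N ≤ n → n ≡ a [MOD W] →
      ∀ x : Cant, (∀ g ∈ E, (x g = true ↔ Q g n)) → okR Q E W a x := by
  classical
  have key : ∀ T : Finset ℕ, ∃ N : ℕ,
      (∀ M : ℕ, ∃ n : ℕ, M ≤ n ∧ n ≡ a [MOD W] ∧ ∀ g ∈ E, (Q g n ↔ g ∈ T)) ∨
      (∀ n : ℕ, N ≤ n → n ≡ a [MOD W] → ¬ ∀ g ∈ E, (Q g n ↔ g ∈ T)) := by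
    intro T
    by_cases h : ∀ M : ℕ, ∃ n : ℕ, M ≤ n ∧ n ≡ a [MOD W] ∧ ∀ g ∈ E, (Q g n ↔ g ∈ T)
    · exact ⟨0, Or.inl h⟩
    · push Not at h
      obtain ⟨M, hM⟩ := h
      refine ⟨M, Or.inr fun n h1 h2 h3 => ?_⟩
      obtain ⟨g, hg, h4⟩ := hM n h1 h2
      have := h3 g hg
      tauto
  choose N hN using key
  refine ⟨E.powerset.sup N, ?_⟩
  intro n hn hna x hx
  have hmem : E.filter (fun g => x g = true) ∈ E.powerset :=
    Finset.mem_powerset.2 (Finset.filter_subset _ _)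
  have hle : N (E.filter (fun g => x g = true)) ≤ n := (Finset.le_sup hmem).trans hn
  rcases hN (E.filter (fun g => x g = true)) with h | h
  · intro M
    obtain ⟨m, h1, h2, h3⟩ := h M
    refine ⟨m, h1, h2, fun g hg => ?_⟩
    rw [h3 g hg, Finset.mem_filter]
    exact ⟨fun h => h.2, fun h => ⟨hg, h⟩⟩
  · exfalso
    refine h n hle hna fun g hg => ?_
    rw [Finset.mem_filter]
    constructor
    · intro hq
      exact ⟨hg, (hx g hg).2 hq⟩
    · intro hq
      exact (hx g hg).1 hq.2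

end Pool.Agent.H36.IS

end

section

/-!
# Project IS, part A: the limit theorem
-/

set_option autoImplicit false

open MeasureTheory
open scoped ENNReal

namespace Pool.Agent.H36.IS

/-- The abstract limit theorem (types, limit measures, Fubini, greedy choice). -/
theorem two_parity (R1 R2 : ℕ → Prop) (c1 c2 : ℝ) (κ1 κ2 : ℕ → ℕ)
    (h1 : Step R1 c1 κ1) (h2 : Step R2 c2 κ2) (hc : 1 < c1 + c2) :
    ∃ b c : ℕ → ℕ, StrictMono b ∧ StrictMono c ∧
      (∀ i j, i ≤ j → R1 (b i + c j)) ∧ (∀ i j, j < i → R2 (b i + c j)) := by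
  classical
  obtain ⟨s, G, H, hinv, hrel⟩ :=
    construction (fun h n => R1 (n + h)) (fun g n => R2 (n + g)) κ1 κ2
  -- monotonicity
  have subG : ∀ i j, i ≤ j → ∀ B ∈ (s i).LG, B ∈ (s j).LG := by
    intro i j hij
    induction j, hij using Nat.le_induction with
    | base => exact fun B hB => hB
    | succ j _ ih => exact fun B hB => (hrel j).subG B (ih B hB)
  have subH : ∀ i j, i ≤ j → ∀ B ∈ (s i).LH, B ∈ (s j).LH := by
    intro i j hij
    induction j, hij using Nat.le_induction with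
    | base => exact fun B hB => hB
    | succ j _ ih => exact fun B hB => (hrel j).subH B (ih B hB)
  have mods : ∀ i j, i ≤ j → (s i).W ∣ (s j).W ∧ (s j).a ≡ (s i).a [MOD (s i).W] ∧
      (s j).a' ≡ (s i).a' [MOD (s i).W] := by
    intro i j hij
    induction j, hij using Nat.le_induction with
    | base => exact ⟨dvd_refl _, Nat.ModEq.refl _, Nat.ModEq.refl _⟩
    | succ j _ ih =>
      exact ⟨ih.1.trans (hrel j).dvdW, ((hrel j).modA.of_dvd ih.1).trans ih.2.1,
        ((hrel j).modA'.of_dvd ih.1).trans ih.2.2⟩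
  -- the bounds beyond which all types are recurrent
  choose NR hNR using fun i : ℕ => eventually_ok (fun g n => R2 (n + g)) (uni (s i).LG)
    (s (i + 1)).W (s (i + 1)).a
  choose NP hNP using fun i : ℕ => eventually_ok (fun h n => R1 (n + h)) (uni (s i).LH)
    (s (i + 1)).W (s (i + 1)).a'
  -- the measures
  have admG : ∀ j, Adm (s j).W (s j).a (uni (s j).LG) := fun j =>
    ⟨(hinv j).compat.pos, (hinv j).compat.hG, fun p hp hpW => ((hinv j).small p hp hpW).1⟩
  have admH : ∀ j, Adm (s j).W (s j).a' (uni (s j).LH) := fun j =>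
    ⟨(hinv j).compat.pos, (hinv j).compat.hH,
      fun p hp hpW => (Nat.lt_succ_self _).trans ((hinv j).small p hp hpW).2⟩
  choose μ μp μn μB using fun j : ℕ => measure_of_step h2 (s (j + 1)).LG (hinv (j + 1)).disG
    (hinv (j + 1)).szG (s (j + 1)).W (s (j + 1)).a (admG (j + 1)) ((Finset.range (j + 1)).sup NR)
  choose ν νp νn νB using fun j : ℕ => measure_of_step h1 (s (j + 1)).LH (hinv (j + 1)).disH
    (hinv (j + 1)).szH (s (j + 1)).W (s (j + 1)).a' (admH (j + 1)) ((Finset.range (j + 1)).sup NP)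
  have hab : 1 < ENNReal.ofReal c2 + ENNReal.ofReal c1 := by
    refine lt_of_lt_of_le ?_ ENNReal.ofReal_add_le
    rw [← ENNReal.ofReal_one]
    exact (ENNReal.ofReal_lt_ofReal_iff (by linarith)).2 (by linarith)
  obtain ⟨b, c, hb, hcc, hP, hR⟩ := two_sided (fun h n => R1 (n + h)) (fun g n => R2 (n + g)) G H
    (fun j => uni (s j).LG) (fun j => uni (s j).LH)
    (fun i => okR (fun g n => R2 (n + g)) (uni (s i).LG) (s (i + 1)).W (s (i + 1)).a)
    (fun i => okR (fun h n => R1 (n + h)) (uni (s i).LH) (s (i + 1)).W (s (i + 1)).a')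
    (fun i => (hrel i).depG) (fun i => (hrel i).depH)
    (fun i => okR_dep _ _ _ _) (fun i => okR_dep _ _ _ _)
    (fun i j hij y hy n hn => mem_uni.2 ⟨G i y, subG (i + 1) j hij _ ((hrel i).memG y hy), hn⟩)
    (fun i j hij x hx n hn => mem_uni.2 ⟨H i x, subH (i + 1) j hij _ ((hrel i).memH x hx), hn⟩)
    (fun i y hy g hg => ((hrel i).typG y hy g hg).2)
    (fun i x hx g hg => ((hrel i).typH x hx g hg).2)
    (fun i y hy g hg => ((hrel i).typG y hy g hg).1)
    (fun i x hx g hg => ((hrel i).typH x hx g hg).1)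
    (ENNReal.ofReal c2) (ENNReal.ofReal c1) hab μ ν μp νp
    (fun i j hij y hy => μB j _ (subG (i + 1) (j + 1) (by omega) _ ((hrel i).memG y hy)))
    (fun i j hij x hx => νB j _ (subH (i + 1) (j + 1) (by omega) _ ((hrel i).memH x hx)))
    (by
      intro i j hij
      filter_upwards [μn j] with n hn
      refine hNR i n ((Finset.le_sup (f := NR) (Finset.mem_range.2 (by omega))).trans hn.1) ?_
      have hm := mods (i + 1) (j + 1) (by omega)
      exact (hn.2.of_dvd hm.1).trans hm.2.1)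
    (by
      intro i j hij
      filter_upwards [νn j] with n hn
      refine hNP i n ((Finset.le_sup (f := NP) (Finset.mem_range.2 (by omega))).trans hn.1) ?_
      have hm := mods (i + 1) (j + 1) (by omega)
      exact (hn.2.of_dvd hm.1).trans hm.2.2)
  refine ⟨b, c, hb, hcc, ?_, ?_⟩
  · intro i j hij
    have := hP i j hij
    rwa [add_comm] at this
  · intro i j hij
    exact hR i j hij

end Pool.Agent.H36.IS

end

section

/-!
# Project IS: definitions for the sieve part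

Arrays are functions `Finset α → ℝ` indexed by finite sets of atoms.  Abstractly an atom `e` is an event with
density `g e`; concretely the atoms are pairs `(i, p)` (`i : ι` a component, `p` a prime), the event being
`p ∣ n + h i`, with density `1 / p`.
-/

set_option autoImplicit false

namespace Pool.Agent.H36.IS

open Finset

section Bern

variable {α : Type*} [DecidableEq α]

/-- value of the array `c` at the vector `y`; ground set `P` -/
noncomputable def Ev (P : Finset α) (c : Finset α → ℝ) (y : α → ℝ) : ℝ :=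
  ∑ T ∈ P.powerset, c T * ∏ e ∈ T, y e

/-- union convolution of arrays -/
noncomputable def uc (P : Finset α) (c d : Finset α → ℝ) : Finset α → ℝ := fun Q =>
  ∑ A ∈ P.powerset, ∑ B ∈ P.powerset, if A ∪ B = Q then c A * d B else 0

/-- the density `g / (1 - g)` -/
noncomputable def fo (g : α → ℝ) (e : α) : ℝ := g e / (1 - g e)

/-- Selberg coefficients of `y` -/
noncomputable def lam (P : Finset α) (g : α → ℝ) (y : Finset α → ℝ) : Finset α → ℝ := fun D =>
  (∏ e ∈ D, (-(1 / g e))) * ∑ R ∈ P.powerset, if D ⊆ R then y R * ∏ e ∈ R, fo g e else 0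

/-- the diagonal quadratic form -/
noncomputable def MM (P : Finset α) (f : α → ℝ) (y : Finset α → ℝ) : ℝ :=
  ∑ R ∈ P.powerset, y R ^ 2 * ∏ e ∈ R, f e

/-- sum out the atoms of `S` -/
noncomputable def pr (S : Finset α) (f : α → ℝ) (y : Finset α → ℝ) : Finset α → ℝ := fun R =>
  if Disjoint R S then ∑ A ∈ S.powerset, y (R ∪ A) * ∏ e ∈ A, f e else 0

/-- Selberg extension of `v` by the shape `Z` on the atoms of `S` -/
noncomputable def ext (S : Finset α) (Z : Finset α → ℝ) (T : ℝ) (v : Finset α → ℝ) : Finset α → ℝ :=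
  fun R => v (R \ S) * Z (R ∩ S) / T

end Bern

section Primes

/-- `exp(log x / (log log x)^2)` -/
noncomputable def z0 (x : ℕ) : ℝ := Real.exp (Real.log x / (Real.log (Real.log x)) ^ 2)

/-- the primes `≤ z0 x` -/
noncomputable def PA (x : ℕ) : Finset ℕ := (range (x + 1)).filter (fun p => p.Prime ∧ (p : ℝ) ≤ z0 x)

/-- the primes `≤ z0 x` not dividing `W` -/
noncomputable def PS (W x : ℕ) : Finset ℕ := (PA x).filter (fun p => ¬ p ∣ W)

/-- the primes in `(z0 x, x]` -/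
noncomputable def PX (x : ℕ) : Finset ℕ := (range (x + 1)).filter (fun p => p.Prime ∧ z0 x < (p : ℝ))

/-- the primes in `(z0 x, x^δ]` -/
noncomputable def PZ (x : ℕ) (δ : ℝ) : Finset ℕ := (PX x).filter (fun p => (p : ℝ) ≤ (x : ℝ) ^ δ)

/-- `∏_{p ≤ z0} (1 - 1/p)` -/
noncomputable def A0 (x : ℕ) : ℝ := ∏ p ∈ PA x, (1 - 1 / (p : ℝ))

/-- the scale `A0 x * log x` -/
noncomputable def tau (x : ℕ) : ℝ := A0 x * Real.log x

/-- `∏_{z0 < p ≤ x^δ} (1 - 1/p)` -/
noncomputable def V1 (x : ℕ) (δ : ℝ) : ℝ := ∏ p ∈ PZ x δ, (1 - 1 / (p : ℝ))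

/-- the density `1 / (p - 1)` -/
noncomputable def fn (p : ℕ) : ℝ := 1 / ((p : ℝ) - 1)

/-- `∑_{p ∈ S} log p` -/
noncomputable def lg (S : Finset ℕ) : ℝ := ∑ p ∈ S, Real.log p

/-- `∑ 1/φ(a)` over the squarefree `a ≤ e^t` composed of primes of `P` -/
noncomputable def GG (P : Finset ℕ) (t : ℝ) : ℝ :=
  ∑ S ∈ P.powerset, if lg S ≤ t then ∏ p ∈ S, fn p else 0

/-- the number of primes in `(x, 2x]` -/
noncomputable def DP (x : ℕ) : ℝ := (Nat.primeCounting (2 * x) : ℝ) - (Nat.primeCounting x : ℝ)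

end Primes

section Atoms

variable {ι : Type} [Fintype ι] [DecidableEq ι]

/-- good shifts: `W` contains all small primes and all primes dividing a difference -/
def Good (h : ι → ℕ) (W b : ℕ) : Prop :=
  0 < W ∧ (∀ i, Nat.Coprime (b + h i) W) ∧
    ∀ p : ℕ, p.Prime → ¬ p ∣ W → Fintype.card ι < p ∧ ∀ i j, i ≠ j → ¬ h i ≡ h j [MOD p]

/-- all atoms -/
noncomputable def EX (ι : Type) [Fintype ι] [DecidableEq ι] (x : ℕ) : Finset (ι × ℕ) := univ ×ˢ PX x

/-- the atoms with primes `≤ x^δ` -/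
noncomputable def EZ (ι : Type) [Fintype ι] [DecidableEq ι] (x : ℕ) (δ : ℝ) : Finset (ι × ℕ) := univ ×ˢ PZ x δ

/-- the integers `n ∈ (x, 2x]`, `n ≡ b mod W`, such that no `n + h i` has a prime factor `≤ z0 x` -/
noncomputable def AA (h : ι → ℕ) (W b x : ℕ) : Finset ℕ :=
  (Ioc x (2 * x)).filter (fun n => n ≡ b [MOD W] ∧ ∀ i, ∀ p ∈ PS W x, ¬ p ∣ n + h i)

/-- the events -/
noncomputable def yy (h : ι → ℕ) (n : ℕ) (e : ι × ℕ) : ℝ := if e.2 ∣ n + h e.1 then 1 else 0

/-- density of an atom -/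
noncomputable def gi (e : ι × ℕ) : ℝ := 1 / (e.2 : ℝ)

/-- the main term `x/W ∏_{p ≤ z0, p ∤ W} (1 - k/p)` -/
noncomputable def Mn (ι : Type) [Fintype ι] (W x : ℕ) : ℝ :=
  (x : ℝ) / W * ∏ p ∈ PS W x, (1 - (Fintype.card ι : ℝ) / p)

/-- arrays of size `(log x)^B M^|Q|` and level `D` -/
def Cls (x B : ℕ) (M D : ℝ) (c : Finset (ι × ℕ) → ℝ) : Prop :=
  ∀ Q, |c Q| ≤ Real.log x ^ B * M ^ Q.card ∧ (c Q ≠ 0 → Q ⊆ EX ι x ∧ ∏ e ∈ Q, (e.2 : ℝ) ≤ D)

/-- admissible `y`: nonnegative, bounded by `K`, supported on atoms with primes `≤ x^δ` and product `≤ x^θ` -/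
def Yok (x : ℕ) (δ θ K : ℝ) (y : Finset (ι × ℕ) → ℝ) : Prop :=
  ∀ R, 0 ≤ y R ∧ y R ≤ K ∧ (y R ≠ 0 → R ⊆ EZ ι x δ ∧ ∏ e ∈ R, (e.2 : ℝ) ≤ (x : ℝ) ^ θ)

/-- the atoms of component `i` -/
noncomputable def Si (x : ℕ) (δ : ℝ) (i : ι) : Finset (ι × ℕ) := {i} ×ˢ PZ x δ

/-- the Selberg polynomial of `y` at `n` -/
noncomputable def Ly (h : ι → ℕ) (x : ℕ) (δ : ℝ) (y : Finset (ι × ℕ) → ℝ) (n : ℕ) : ℝ :=
  Ev (EZ ι x δ) (lam (EZ ι x δ) gi y) (yy h n)

/-- the diagonal form of `y` -/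
noncomputable def My (ι : Type) [Fintype ι] [DecidableEq ι] (x : ℕ) (δ : ℝ) (y : Finset (ι × ℕ) → ℝ) : ℝ :=
  MM (EZ ι x δ) (fo gi) y

end Atoms

section Profile

/-- the step profile: `∑_{i ≤ I} 2^{-i} [u ≤ θ 2^i / 2^(I+1)]` -/
noncomputable def Yp (I : ℕ) (θ u : ℝ) : ℝ :=
  ∑ i ∈ range (I + 1), if u ≤ θ * 2 ^ i / 2 ^ (I + 1) then ((1 : ℝ) / 2) ^ i else 0

variable {ι : Type} [Fintype ι] [DecidableEq ι]

/-- the logarithmic size of the component `i` of `R` -/
noncomputable def ell (R : Finset (ι × ℕ)) (i : ι) : ℝ := ∑ e ∈ R.filter (fun e => e.1 = i), Real.log e.2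

/-- the weight function of a block `I` with profile `Y` -/
noncomputable def yblk (I : Finset ι) (Y : ℝ → ℝ) (θ L : ℝ) (R : Finset (ι × ℕ)) : ℝ :=
  (if ∑ i ∈ I, ell R i ≤ θ * L then 1 else 0) * ∏ i ∈ I, Y (ell R i / L)

/-- the members of the block `s` -/
def blkF {r : ℕ} (blk : ι → Fin r) (s : Fin r) : Finset ι := univ.filter (fun i => blk i = s)

/-- the full weight function (ground set of primes `P`) -/
noncomputable def yfull {r : ℕ} (blk : ι → Fin r) (P : Finset ℕ) (Y : Fin r → ℝ → ℝ) (θ : Fin r → ℝ) (L : ℝ)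
    (R : Finset (ι × ℕ)) : ℝ :=
  if R ⊆ univ ×ˢ P then ∏ s, yblk (blkF blk s) (Y s) (θ s) L R else 0

/-- `∑_S Y(log S / L) f(S)` -/
noncomputable def TT (P : Finset ℕ) (Y : ℝ → ℝ) (L : ℝ) : ℝ := ∑ S ∈ P.powerset, Y (lg S / L) * ∏ p ∈ S, fn p

/-- `∑_S Y(log S / L)^2 f(S)` -/
noncomputable def UU (P : Finset ℕ) (Y : ℝ → ℝ) (L : ℝ) : ℝ := ∑ S ∈ P.powerset, Y (lg S / L) ^ 2 * ∏ p ∈ S, fn p

/-- `∑_S Y(log S / L)^2 log(S) f(S)` -/
noncomputable def LL (P : Finset ℕ) (Y : ℝ → ℝ) (L : ℝ) : ℝ :=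
  ∑ S ∈ P.powerset, Y (lg S / L) ^ 2 * lg S * ∏ p ∈ S, fn p

end Profile

open Classical in
/-- the output of the sieve, before the choice of the progression -/
def Sieve (R : ℕ → Prop) (c : ℝ) (κ : ℕ → ℕ) : Prop :=
  ∀ (ι : Type) (_ : Fintype ι) (_ : DecidableEq ι) (h : ι → ℕ) (W b : ℕ), Good h W b →
    ∀ (r : ℕ) (blk : ι → Fin r), (∀ s : Fin r, κ s ≤ (blkF blk s).card) →
    ∀ N : ℕ, ∃ (X : Finset ℕ) (w : ℕ → ℝ),
      (∀ n ∈ X, N ≤ n ∧ n ≡ b [MOD W] ∧ 0 ≤ w n ∧ (N : ℝ) * w n ≤ 1) ∧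
      ∑ n ∈ X, w n = 1 ∧
      ∀ s : Fin r, c ≤ ∑ n ∈ X.filter (fun n => ∃ i, blk i = s ∧ R (n + h i)), w n

end Pool.Agent.H36.IS

end

section

/-!
PROJECT PPC (MP_e38f6a_co): the number of orders `n ≤ x` of cyclic planar difference sets is
`O (x (log log x)^C / log x)`.  Common definitions.
-/

set_option autoImplicit false

namespace Pool.Agent.H37.PPC

open Finset

/-- primes in `[a, b)` -/
def pr (a b : ℕ) : Finset ℕ := (Ico a b).filter Nat.Prime

theorem mem_pr {a b p : ℕ} : p ∈ pr a b ↔ (a ≤ p ∧ p < b) ∧ p.Prime := by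
  unfold pr
  rw [mem_filter, mem_Ico]

end Pool.Agent.H37.PPC

end

section

/-!
PK SvD: definitions of (abstract) sieve weights.

Weights are indexed by subsets T of a finite set P of primes: c : Finset ℕ → ℝ.  They are used with y_p = indicator of a
condition at p, and with a density g.  D is the level (bound for ∏_{p∈T} p when c T ≠ 0).
-/

set_option autoImplicit false

namespace Pool.Agent.H91.PK

open Finset

/-- 0/1 valued functions -/
def ZO (y : ℕ → ℝ) : Prop := ∀ p, y p = 0 ∨ y p = 1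

/-- `∏_{p∈P} (1 - g p)` -/
noncomputable def Vg (g : ℕ → ℝ) (P : Finset ℕ) : ℝ := ∏ p ∈ P, (1 - g p)

/-- the value of the weights `c` -/
noncomputable def ev (c : Finset ℕ → ℝ) (P : Finset ℕ) (y : ℕ → ℝ) : ℝ :=
  ∑ T ∈ P.powerset, c T * ∏ p ∈ T, y p

/-- Bounded weights supported on subsets of `P` with product at most `D`. -/
def Wt (P : Finset ℕ) (D : ℝ) (c : Finset ℕ → ℝ) : Prop :=
  (∀ T, |c T| ≤ 1) ∧ ∀ T, c T ≠ 0 → T ⊆ P ∧ ∏ p ∈ T, (p : ℝ) ≤ D

/-- Upper bound sieve weights of level `D` with main term at most `M`. -/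
def Up (g : ℕ → ℝ) (P : Finset ℕ) (D M : ℝ) : Prop :=
  ∃ c, Wt P D c ∧ (∀ y, ZO y → Vg y P ≤ ev c P y) ∧ ev c P g ≤ M

/-- Lower bound sieve weights of level `D` with main term at least `M`. -/
def Lo (g : ℕ → ℝ) (P : Finset ℕ) (D M : ℝ) : Prop :=
  ∃ c, Wt P D c ∧ (∀ y, ZO y → ev c P y ≤ Vg y P) ∧ M ≤ ev c P g

/-- Simultaneous upper and lower weights (Brun-Hooley chain). -/
def Ch (g : ℕ → ℝ) (P : Finset ℕ) (D D' F G : ℝ) : Prop :=
  ∃ c c', Wt P D c ∧ Wt P D' c' ∧ (∀ y, ZO y → Vg y P ≤ ev c P y) ∧ (∀ y, ZO y → ev c' P y ≤ Vg y P) ∧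
    Vg g P ≤ ev c P g ∧ ev c P g ≤ F * Vg g P ∧ (1 - G) * ev c P g ≤ ev c' P g

/-- density for the one-dimensional sieve -/
noncomputable def g1 (p : ℕ) : ℝ := 1 / ((p : ℝ) - 1)

/-- primes in `(e^24, z]` -/
def BigP (z : ℝ) (P : Finset ℕ) : Prop := ∀ p ∈ P, p.Prime ∧ Real.exp 24 < p ∧ (p : ℝ) ≤ z

/-- one-dimensional upper sieve function bound at `s` -/
def U1 (s F : ℝ) : Prop := ∀ z : ℝ, 1 ≤ z → ∀ P, BigP z P → Up g1 P (z ^ s) (F * Vg g1 P)

/-- one-dimensional lower sieve function bound at `s` -/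
def L1 (s f : ℝ) : Prop := ∀ z : ℝ, 1 ≤ z → ∀ P, BigP z P → Lo g1 P (z ^ s) (f * Vg g1 P)

end Pool.Agent.H91.PK

end

section

/-!
# Project ISP (MP_3532bd_nt): prime for i ≤ j, product of at most two primes for i > j: definitions

The lower triangle is treated by signed sieve functions and a variance argument.  For a component i and an integer
m = n + h i, the function is Φ x m = [no p ∈ PZ x δ divides m] (evD (PX x) cA m - evD (PX x) cB m), with two arrays cA, cB on the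
primes > x^δ whose values are nonnegative; Ψ is the positive part of Φ outside R.
-/

set_option autoImplicit false

namespace Pool.Agent.H36.IS2

open Finset Filter Pool.Agent.H36.IS

open Pool.Agent.H91.PK (ev Vg ZO Wt Up Lo g1)

/-- primes in `(e^2400, z]` -/
def BigP2 (z : ℝ) (P : Finset ℕ) : Prop := ∀ p ∈ P, p.Prime ∧ Real.exp 2400 < p ∧ (p : ℝ) ≤ z

/-- one-dimensional upper sieve function bound at `s`, primes `> e^2400` -/
def U2 (s F : ℝ) : Prop := ∀ z : ℝ, 1 ≤ z → ∀ P, BigP2 z P → Up g1 P (z ^ s) (F * Vg g1 P)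

/-- one-dimensional lower sieve function bound at `s`, primes `> e^2400` -/
def L2 (s f : ℝ) : Prop := ∀ z : ℝ, 1 ≤ z → ∀ P, BigP2 z P → Lo g1 P (z ^ s) (f * Vg g1 P)

/-- value of the array `c` at the integer `m` -/
noncomputable def evD (P : Finset ℕ) (c : Finset ℕ → ℝ) (m : ℕ) : ℝ := ev c P (fun p => if p ∣ m then 1 else 0)

/-- main value of the array `c` -/
noncomputable def evM (P : Finset ℕ) (c : Finset ℕ → ℝ) : ℝ := ev c P (fun p => 1 / (p : ℝ))

/-- `∏_{x^δ < p ≤ x^ζ} (1 - 1/p)` -/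
noncomputable def V2 (x : ℕ) (δ ζ : ℝ) : ℝ := ∏ p ∈ PZ x ζ \ PZ x δ, (1 - 1 / (p : ℝ))

/-- arrays of level `D` on the primes `> x^δ` with nonnegative values -/
def ArrN (x : ℕ) (δ D : ℝ) (c : Finset ℕ → ℝ) : Prop :=
  (∀ T, |c T| ≤ 3 ∧ (c T ≠ 0 → T ⊆ PX x ∧ (∀ p ∈ T, (x : ℝ) ^ δ < p) ∧ ∏ p ∈ T, (p : ℝ) ≤ D)) ∧
    (∀ m, 0 ≤ evD (PX x) c m) ∧ 0 ≤ evM (PX x) c

/-- at most two prime factors (with multiplicity), all of them larger than the twelfth root -/
def R12 (m : ℕ) : Prop := m.primeFactorsList.length ≤ 2 ∧ ∀ p : ℕ, p.Prime → p ∣ m → m < p ^ 12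

/-- transport of an array on sets of primes to the component `i` -/
noncomputable def trc {ι : Type} [DecidableEq ι] (i : ι) (c : Finset ℕ → ℝ) : Finset (ι × ℕ) → ℝ := fun Q =>
  open Classical in if ∀ e ∈ Q, e.1 = i then c (Q.image Prod.snd) else 0

/-- the sum over `q ∈ Qs` of the arrays `cq q`, each multiplied by the event of `q` -/
noncomputable def qarr (Qs : Finset ℕ) (cq : ℕ → Finset ℕ → ℝ) : Finset ℕ → ℝ := fun T =>
  ∑ q ∈ Qs, if q ∈ T then cq q (T.erase q) else 0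

/-- the cofactors `p₁ p₂` with `x^ζ < p₁ ≤ x^η < p₂`, `p₁ p₂² ≤ 3 x` -/
noncomputable def SL (x : ℕ) (ζ η : ℝ) : Finset ℕ :=
  (((range (3 * x + 1)).filter (fun p : ℕ => p.Prime ∧ (x : ℝ) ^ ζ < p ∧ (p : ℝ) ≤ (x : ℝ) ^ η) ×ˢ
    (range (3 * x + 1)).filter (fun p : ℕ => p.Prime ∧ (x : ℝ) ^ η < p)).filter
      (fun pq : ℕ × ℕ => pq.1 * pq.2 ^ 2 ≤ 3 * x)).image (fun pq : ℕ × ℕ => pq.1 * pq.2)

open Classical in
/-- the data of a signed sieve function `Φ` with loss `Ψ`: `t` bounds the loss relative to the mean, `e` the variance -/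
def PhiData (R : ℕ → Prop) (δ θ t e : ℝ) : Prop :=
  ∃ (Φ Ψ : ℕ → ℕ → ℝ) (l q1 q2 : ℕ → ℝ) (c' C : ℝ), 0 < c' ∧ 0 < C ∧ (∀ x m, 0 ≤ Ψ x m) ∧
    (∀ᶠ x : ℕ in atTop, c' ≤ l x * tau x ∧ 0 ≤ q1 x ∧ q1 x * tau x ≤ C ∧ 0 ≤ q2 x ∧ q2 x ≤ (1 + e) * l x ^ 2) ∧
    (∀ s : ℕ, ∀ᶠ x : ℕ in atTop, ∀ m : ℕ, x < m → m ≤ 2 * x + s → ¬ R m → Φ x m ≤ Ψ x m) ∧
    ∀ (ι : Type) (_ : Fintype ι) (_ : DecidableEq ι) (h : ι → ℕ) (W b : ℕ), Good h W b → ∀ (K : ℝ) (A : ℕ),
      ∀ᶠ x : ℕ in atTop, ∀ y : Finset (ι × ℕ) → ℝ, Yok x δ θ K y →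
        (∀ i, Mn ι W x * l x * My ι x δ (pr (Si x δ i) (fo gi) y) - x / Real.log x ^ A ≤
            ∑ n ∈ AA h W b x, Ly h x δ y n ^ 2 * Φ x (n + h i) ∧
          ∑ n ∈ AA h W b x, Ly h x δ y n ^ 2 * Φ x (n + h i) ^ 2 ≤
            Mn ι W x * q1 x * My ι x δ (pr (Si x δ i) (fo gi) y) + x / Real.log x ^ A ∧
          ∑ n ∈ AA h W b x, Ly h x δ y n ^ 2 * Ψ x (n + h i) ≤
            Mn ι W x * (t * l x) * My ι x δ (pr (Si x δ i) (fo gi) y) + x / Real.log x ^ A) ∧
        (∀ i j, i ≠ j →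
          ∑ n ∈ AA h W b x, Ly h x δ y n ^ 2 * (Φ x (n + h i) * Φ x (n + h j)) ≤
            Mn ι W x * q2 x * My ι x δ (pr (Si x δ i ∪ Si x δ j) (fo gi) y) + x / Real.log x ^ A)

end Pool.Agent.H36.IS2

end

section

/-!
# ISP TrcA: transport of arrays to a component

`trc i c` is supported on sets Q with all first coordinates i; Q ↦ Q.image Prod.snd is a bijection onto sets of primes, with the same card and
∏_{e ∈ Q} g e.2 = ∏_{p ∈ image} g p.  (Compare `Wts_tr`, `Wts_Ev`, `Wts_cls` in Pool/Agent/H36/IS/Wts.lean.)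
`evD_bd`: m ≤ 4x without prime factors in PZ x δ, c in ArrN: only the T whose primes all divide m contribute, at most 2^(number of prime factors
of m > x^δ) ≤ 2^(1/δ + 1) of them: (x^δ)^k ≤ 4x gives k ≤ (1 + log 4/log x)/δ ≤ 1/δ + 1 for large x.
-/

set_option autoImplicit false

namespace Pool.Agent.H36.IS2

open Finset Filter Pool.Agent.H36.IS

private theorem TrcA_injOn {ι : Type} {i : ι} {Q : Finset (ι × ℕ)} (hQ : ∀ e ∈ Q, e.1 = i) :
    Set.InjOn Prod.snd (Q : Set (ι × ℕ)) := by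
  rintro ⟨a, p⟩ ha ⟨b, q⟩ hb hpq
  have h1 := hQ _ (mem_coe.mp ha)
  have h2 := hQ _ (mem_coe.mp hb)
  simp only at h1 h2 hpq
  rw [h1, h2, hpq]

private theorem TrcA_prod {ι : Type} {i : ι} {Q : Finset (ι × ℕ)} (hQ : ∀ e ∈ Q, e.1 = i)
    (y : ι × ℕ → ℝ) : ∏ e ∈ Q, y e = ∏ p ∈ Q.image Prod.snd, y (i, p) := by
  rw [Finset.prod_image (fun a ha b hb hab => TrcA_injOn hQ (mem_coe.mpr ha) (mem_coe.mpr hb) hab)]
  refine Finset.prod_congr rfl fun e he => ?_
  rw [← hQ e he]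

private theorem TrcA_back {ι : Type} [DecidableEq ι] {i : ι} {Q : Finset (ι × ℕ)} (hQ : ∀ e ∈ Q, e.1 = i) :
    {i} ×ˢ (Q.image Prod.snd) = Q := by
  ext ⟨a, p⟩
  rw [mem_product, mem_singleton, mem_image]
  constructor
  · rintro ⟨h1, ⟨⟨b, q⟩, h2, h3⟩⟩
    have h4 := hQ _ h2
    simp only at h1 h3 h4
    rw [h1, ← h3, ← h4]
    exact h2
  · intro h
    exact ⟨hQ _ h, ⟨(a, p), h, rfl⟩⟩

private theorem TrcA_Ev {ι : Type} [Fintype ι] [DecidableEq ι] (i : ι) (P : Finset ℕ) (c : Finset ℕ → ℝ)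
    (y : ι × ℕ → ℝ) :
    Ev (univ ×ˢ P) (trc i c) y = Pool.Agent.H91.PK.ev c P (fun p => y (i, p)) := by
  unfold Ev Pool.Agent.H91.PK.ev
  have hZ : ({i} : Finset ι) ×ˢ P ⊆ univ ×ˢ P :=
    Finset.product_subset_product (Finset.subset_univ _) (Finset.Subset.refl _)
  have hall : ∀ T ∈ (({i} : Finset ι) ×ˢ P).powerset, ∀ e ∈ T, e.1 = i := by
    intro T hT e he
    exact mem_singleton.mp (mem_product.mp (mem_powerset.mp hT he)).1
  rw [← Finset.sum_subset (Finset.powerset_mono.mpr hZ)]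
  · refine Finset.sum_nbij' (fun T => T.image Prod.snd) (fun S => {i} ×ˢ S) ?_ ?_ ?_ ?_ ?_
    · intro T hT
      rw [mem_powerset]
      intro p hp
      obtain ⟨e, he, rfl⟩ := mem_image.mp hp
      exact (mem_product.mp (mem_powerset.mp hT he)).2
    · intro S hS
      exact mem_powerset.mpr (Finset.product_subset_product (Finset.Subset.refl _)
        (mem_powerset.mp hS))
    · intro T hT
      exact TrcA_back (hall T hT)
    · intro S _
      exact Finset.product_image_snd (Finset.singleton_nonempty i)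
    · intro T hT
      rw [TrcA_prod (hall T hT) y]
      unfold trc
      rw [if_pos (hall T hT)]
  · intro T hT hT2
    have h1 : ¬ ∀ e ∈ T, e.1 = i := by
      intro h
      apply hT2
      rw [mem_powerset]
      intro e he
      rw [mem_product, mem_singleton]
      exact ⟨h e he, (mem_product.mp (mem_powerset.mp hT he)).2⟩
    unfold trc
    rw [if_neg h1, zero_mul]

theorem trc_yy {ι : Type} [Fintype ι] [DecidableEq ι] (h : ι → ℕ) (i : ι) (x : ℕ) (c : Finset ℕ → ℝ)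
    (hc : ∀ T, c T ≠ 0 → T ⊆ PX x) (n : ℕ) : Ev (EX ι x) (trc i c) (yy h n) = evD (PX x) c (n + h i) := by
  unfold EX evD
  rw [TrcA_Ev]
  rfl

theorem trc_gi {ι : Type} [Fintype ι] [DecidableEq ι] (i : ι) (x : ℕ) (c : Finset ℕ → ℝ)
    (hc : ∀ T, c T ≠ 0 → T ⊆ PX x) : Ev (EX ι x) (trc i c) gi = evM (PX x) c := by
  unfold EX evM
  rw [TrcA_Ev]
  rfl

theorem trc_sup {ι : Type} [DecidableEq ι] (i : ι) {P : Finset ℕ} {c : Finset ℕ → ℝ} (hc : ∀ T, c T ≠ 0 → T ⊆ P)
    (Q : Finset (ι × ℕ)) (hQ : trc i c Q ≠ 0) : Q ⊆ {i} ×ˢ P ∧ c (Q.image Prod.snd) ≠ 0 := by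
  unfold trc at hQ
  by_cases h : ∀ e ∈ Q, e.1 = i
  · rw [if_pos h] at hQ
    refine ⟨fun e he => ?_, hQ⟩
    rw [mem_product, mem_singleton]
    exact ⟨h e he, hc _ hQ (mem_image_of_mem _ he)⟩
  · rw [if_neg h] at hQ
    exact absurd rfl hQ

theorem trc_cls {ι : Type} [Fintype ι] [DecidableEq ι] (i : ι) {x : ℕ} (hx : 3 ≤ Real.log x) {δ D : ℝ} {c : Finset ℕ → ℝ}
    (hc : ArrN x δ D c) : Cls x 1 1 D (trc i c) := by
  intro Q
  constructor
  · rw [pow_one, one_pow, mul_one]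
    unfold trc
    split_ifs
    · exact ((hc.1 _).1).trans hx
    · rw [abs_zero]
      linarith
  · intro hQ
    obtain ⟨h1, h2⟩ := trc_sup i (P := PX x) (fun T hT => ((hc.1 T).2 hT).1) Q hQ
    have h3 : ∀ e ∈ Q, e.1 = i := fun e he => mem_singleton.mp (mem_product.mp (h1 he)).1
    refine ⟨fun e he => ?_, ?_⟩
    · unfold EX
      rw [mem_product]
      exact ⟨mem_univ _, (mem_product.mp (h1 he)).2⟩
    · rw [TrcA_prod h3 (fun e => (e.2 : ℝ))]
      exact ((hc.1 _).2 h2).2.2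

private theorem TrcA_card {δ : ℝ} (hδ : 0 < δ) {x m : ℕ} (hx : 4 ≤ x) (hm : 0 < m) (hmx : m ≤ 4 * x)
    {S : Finset ℕ} (hS : ∀ p ∈ S, p.Prime ∧ p ∣ m ∧ (x : ℝ) ^ δ < p) : (S.card : ℝ) ≤ 2 / δ := by
  have hx0 : (0 : ℝ) < x := by
    have : 0 < x := by omega
    exact_mod_cast this
  have hx4 : (4 : ℝ) ≤ x := by exact_mod_cast hx
  have h1 : ∏ p ∈ S, p ∣ m := by
    refine Finset.prod_primes_dvd m (fun p hp => (hS p hp).1.prime) (fun p hp => (hS p hp).2.1)
  have h2 : (∏ p ∈ S, (p : ℝ)) ≤ m := by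
    have h5 := Nat.le_of_dvd hm h1
    have h6 : ((∏ p ∈ S, p : ℕ) : ℝ) ≤ m := Nat.cast_le.mpr h5
    rw [Nat.cast_prod] at h6
    exact h6
  have h3 : ((x : ℝ) ^ δ) ^ S.card ≤ ∏ p ∈ S, (p : ℝ) := by
    rw [← Finset.prod_const]
    refine Finset.prod_le_prod (fun p _ => Real.rpow_nonneg hx0.le _) (fun p hp => (hS p hp).2.2.le)
  have h4 : ((x : ℝ) ^ δ) ^ S.card ≤ (x : ℝ) ^ (2 : ℝ) := by
    have h5 : (m : ℝ) ≤ 4 * x := by exact_mod_cast hmx
    have h6 : (x : ℝ) ^ (2 : ℝ) = x * x := by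
      rw [show (2 : ℝ) = ((2 : ℕ) : ℝ) by norm_num, Real.rpow_natCast, pow_two]
    rw [h6]
    nlinarith
  rw [← Real.rpow_natCast, ← Real.rpow_mul hx0.le] at h4
  have h5 : δ * (S.card : ℝ) ≤ 2 := by
    by_contra h
    have h6 := Real.rpow_lt_rpow_of_exponent_lt (x := (x : ℝ)) (by linarith) (not_le.mp h)
    linarith
  rw [le_div_iff₀ hδ]
  linarith

theorem evD_bd (δ : ℝ) (hδ : 0 < δ) : ∃ C : ℝ, 0 < C ∧ ∀ᶠ x : ℕ in atTop, ∀ (D : ℝ) (c : Finset ℕ → ℝ), ArrN x δ D c →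
    ∀ m : ℕ, 0 < m → m ≤ 4 * x → evD (PX x) c m ≤ C := by
  refine ⟨3 * 2 ^ ⌈2 / δ⌉₊, by positivity, ?_⟩
  filter_upwards [eventually_ge_atTop 4] with x hx D c hc m hm hmx
  classical
  set S : Finset ℕ := (PX x).filter (fun p => p ∣ m ∧ (x : ℝ) ^ δ < p) with hS
  have hSP : S ⊆ PX x := Finset.filter_subset _ _
  have hcard : S.card ≤ ⌈2 / δ⌉₊ := by
    have h1 := TrcA_card hδ hx hm hmx (S := S) (by
      intro p hp
      rw [hS, mem_filter] at hp
      have h2 := hp.1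
      unfold PX at h2
      rw [mem_filter] at h2
      exact ⟨h2.2.1, hp.2.1, hp.2.2⟩)
    exact_mod_cast h1.trans (Nat.le_ceil _)
  unfold evD Pool.Agent.H91.PK.ev
  rw [← Finset.sum_subset (Finset.powerset_mono.mpr hSP)]
  · have h1 : ∀ T ∈ S.powerset, c T * ∏ p ∈ T, (if p ∣ m then (1 : ℝ) else 0) ≤ 3 := by
      intro T hT
      have h2 : ∏ p ∈ T, (if p ∣ m then (1 : ℝ) else 0) = 1 := by
        refine Finset.prod_eq_one fun p hp => ?_
        have h3 := mem_powerset.mp hT hp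
        rw [hS, mem_filter] at h3
        rw [if_pos h3.2.1]
      rw [h2, mul_one]
      exact (le_abs_self _).trans (hc.1 T).1
    refine (Finset.sum_le_sum h1).trans ?_
    rw [Finset.sum_const, Finset.card_powerset, nsmul_eq_mul, mul_comm]
    push_cast
    exact mul_le_mul_of_nonneg_left (pow_le_pow_right₀ (by norm_num) hcard) (by norm_num)
  · intro T hT hT2
    by_contra hne
    apply hT2
    rw [mem_powerset]
    intro p hp
    have hcT : c T ≠ 0 := fun h => hne (by rw [h, zero_mul])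
    have hpT : ∏ p ∈ T, (if p ∣ m then (1 : ℝ) else 0) ≠ 0 := fun h => hne (by rw [h, mul_zero])
    have h3 := Finset.prod_ne_zero_iff.mp hpT p hp
    have h4 : p ∣ m := by
      by_contra h5
      rw [if_neg h5] at h3
      exact h3 rfl
    rw [hS, mem_filter]
    exact ⟨mem_powerset.mp hT hp, h4, ((hc.1 T).2 hcT).2.1 p hp⟩

end Pool.Agent.H36.IS2

end

section

/-!
# IS ClsA: size and support bookkeeping

* `cls_uc`: |uc c c' Q| ≤ ∑_{A∪B=Q} L^B M^|A| L^B' M'^|B| = L^(B+B') (M + M' + M M')^|Q| (each e ∈ Q is in A only, B only, or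
  both); support: ∏_{A∪B} ≤ ∏_A ∏_B (all e.2 ≥ 1; EX consists of primes).
* `cls_lam`: |lam y D| ≤ ∏_{e∈D} (1/g) ∑_{R ⊇ D} K f(R) ≤ K ∏_{e∈D} (f/g) ∏_{e∈EZ} (1+f e), f/g = 1/(1-1/p) ≤ 2 and
  ∏_{EZ}(1+f) = (∏_{p∈PZ} (1+fn p))^k ≤ (log x)^B (`euler_pow` with C = 1).  Support: D ⊆ R, ∏_D ≤ ∏_R ≤ x^θ.
  Here fo gi (i,p) = fn p for p prime.
* `yok_pr`: 0 ≤ pr S f y R ≤ K ∏_{e∈S} (1+f e); support: R ∪ A in the support of y, ∏_R ≤ ∏_{R∪A}.
* `yok_ext`: T ≥ 1; support: R = (R \ S) ∪ (R ∩ S), product ≤ x^θ · x^ρ.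
* `cls_one`: the array of a single pattern etc. is not needed.
* `Cls.mono`.
-/

set_option autoImplicit false

namespace Pool.Agent.H36.IS

open Finset Filter

variable {ι : Type} [Fintype ι] [DecidableEq ι]

theorem Cls.mono {x B B' : ℕ} {M M' D D' : ℝ} {c : Finset (ι × ℕ) → ℝ} (h : Cls x B M D c) (hx : 1 ≤ Real.log x)
    (hB : B ≤ B') (hM0 : 0 ≤ M) (hM : M ≤ M') (hD : D ≤ D') : Cls x B' M' D' c := by
  intro Q
  refine ⟨(h Q).1.trans ?_, fun h0 => ⟨((h Q).2 h0).1, ((h Q).2 h0).2.trans hD⟩⟩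
  exact mul_le_mul (pow_le_pow_right₀ hx hB) (pow_le_pow_left₀ hM0 hM _) (pow_nonneg hM0 _)
    (pow_nonneg (zero_le_one.trans hx) _)

/-- atoms are at least 1 -/
private theorem ClsA_two {x : ℕ} {e : ι × ℕ} (he : e ∈ EX ι x) : (2 : ℝ) ≤ e.2 := by
  unfold EX at he
  rw [mem_product] at he
  have h := he.2
  unfold PX at h
  rw [mem_filter] at h
  exact_mod_cast h.2.1.two_le

/-- the sum over `B` with `A ∪ B = Q` -/
private theorem ClsA_inner {α : Type*} [DecidableEq α] (Q A : Finset α) (hA : A ⊆ Q) (m : ℝ) :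
    ∑ B ∈ Q.powerset, (if A ∪ B = Q then m ^ B.card else 0) =
      m ^ (Q \ A).card * (m + 1) ^ A.card := by
  have h1 : (m + 1) ^ A.card = ∑ B ∈ A.powerset, m ^ B.card := by
    rw [← Finset.sum_pow_mul_eq_add_pow m 1 A]
    exact sum_congr rfl fun B _ => by rw [one_pow, mul_one]
  rw [h1, mul_sum, ← sum_filter]
  symm
  refine sum_bij (fun B _ => (Q \ A) ∪ B) ?_ ?_ ?_ ?_
  · intro B hB
    rw [mem_powerset] at hB
    rw [mem_filter, mem_powerset]
    refine ⟨union_subset sdiff_subset (hB.trans hA), ?_⟩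
    ext a
    simp only [mem_union, Finset.mem_sdiff]
    constructor
    · rintro (h | h | h)
      · exact hA h
      · exact h.1
      · exact hA (hB h)
    · intro h
      by_cases ha : a ∈ A
      · exact Or.inl ha
      · exact Or.inr (Or.inl ⟨h, ha⟩)
  · intro B hB B' hB' he
    rw [mem_powerset] at hB hB'
    ext a
    have h := Finset.ext_iff.1 he a
    simp only [mem_union, Finset.mem_sdiff] at h
    constructor
    · intro ha
      rcases h.1 (Or.inr ha) with h' | h'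
      · exact absurd (hB ha) h'.2
      · exact h'
    · intro ha
      rcases h.2 (Or.inr ha) with h' | h'
      · exact absurd (hB' ha) h'.2
      · exact h'
  · intro B hB
    rw [mem_filter, mem_powerset] at hB
    refine ⟨B ∩ A, by rw [mem_powerset]; exact inter_subset_right, ?_⟩
    ext a
    have h := Finset.ext_iff.1 hB.2 a
    simp only [mem_union, Finset.mem_sdiff, mem_inter] at h ⊢
    constructor
    · rintro (h' | h')
      · rcases h.2 h'.1 with h'' | h''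
        · exact absurd h'' h'.2
        · exact h''
      · exact h'.1
    · intro ha
      by_cases h' : a ∈ A
      · exact Or.inr ⟨ha, h'⟩
      · exact Or.inl ⟨hB.1 ha, h'⟩
  · intro B hB
    rw [mem_powerset] at hB
    rw [card_union_of_disjoint, pow_add]
    exact disjoint_of_subset_right hB sdiff_disjoint

private theorem ClsA_double {α : Type*} [DecidableEq α] (Q : Finset α) (M M' : ℝ) :
    ∑ A ∈ Q.powerset, ∑ B ∈ Q.powerset, (if A ∪ B = Q then M ^ A.card * M' ^ B.card else 0) =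
      (M + M' + M * M') ^ Q.card := by
  have h1 : ∀ A ∈ Q.powerset, ∑ B ∈ Q.powerset,
      (if A ∪ B = Q then M ^ A.card * M' ^ B.card else 0) =
      (M * (M' + 1)) ^ A.card * M' ^ (Q.card - A.card) := by
    intro A hA
    rw [mem_powerset] at hA
    have h2 : ∀ B : Finset α, (if A ∪ B = Q then M ^ A.card * M' ^ B.card else 0) =
        M ^ A.card * (if A ∪ B = Q then M' ^ B.card else 0) := by
      intro B
      split_ifs
      · rfl
      · rw [mul_zero]
    rw [sum_congr rfl fun B _ => h2 B, ← mul_sum, ClsA_inner Q A hA M', card_sdiff_of_subset hA,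
      mul_pow]
    ring
  rw [sum_congr rfl h1, Finset.sum_pow_mul_eq_add_pow]
  congr 1
  ring

theorem cls_uc {x B B' : ℕ} {M M' D D' : ℝ} {c c' : Finset (ι × ℕ) → ℝ} (hx : 1 ≤ Real.log x) (hM : 0 ≤ M)
    (hM' : 0 ≤ M') (hD : 0 ≤ D) (hD' : 0 ≤ D') (h : Cls x B M D c) (h' : Cls x B' M' D' c') :
    Cls x (B + B') (M + M' + M * M') (D * D') (uc (EX ι x) c c') := by
  intro Q
  have hx0 : 0 ≤ Real.log x := zero_le_one.trans hx
  constructor
  · -- the size
    have hb : ∀ A C : Finset (ι × ℕ), |if A ∪ C = Q then c A * c' C else 0| ≤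
        Real.log x ^ (B + B') * (if A ∪ C = Q then M ^ A.card * M' ^ C.card else 0) := by
      intro A C
      split_ifs
      · rw [abs_mul]
        calc |c A| * |c' C| ≤ (Real.log x ^ B * M ^ A.card) * (Real.log x ^ B' * M' ^ C.card) :=
              mul_le_mul (h A).1 (h' C).1 (abs_nonneg _)
                (mul_nonneg (pow_nonneg hx0 _) (pow_nonneg hM _))
          _ = _ := by ring
      · simp
    have h1 : |uc (EX ι x) c c' Q| ≤ ∑ A ∈ (EX ι x).powerset, ∑ C ∈ (EX ι x).powerset,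
        Real.log x ^ (B + B') * (if A ∪ C = Q then M ^ A.card * M' ^ C.card else 0) := by
      unfold uc
      refine (abs_sum_le_sum_abs _ _).trans (sum_le_sum fun A _ => ?_)
      exact (abs_sum_le_sum_abs _ _).trans (sum_le_sum fun C _ => hb A C)
    have hnn : ∀ A C : Finset (ι × ℕ),
        0 ≤ Real.log x ^ (B + B') * (if A ∪ C = Q then M ^ A.card * M' ^ C.card else 0) := by
      intro A C
      refine mul_nonneg (pow_nonneg hx0 _) ?_
      split_ifs
      · exact mul_nonneg (pow_nonneg hM _) (pow_nonneg hM' _)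
      · exact le_rfl
    -- restrict to subsets of `Q`
    have h2 : ∑ A ∈ (EX ι x).powerset, ∑ C ∈ (EX ι x).powerset,
        Real.log x ^ (B + B') * (if A ∪ C = Q then M ^ A.card * M' ^ C.card else 0) ≤
        ∑ A ∈ Q.powerset, ∑ C ∈ Q.powerset,
        Real.log x ^ (B + B') * (if A ∪ C = Q then M ^ A.card * M' ^ C.card else 0) := by
      rw [← sum_product', ← sum_product']
      have h3 : ∑ z ∈ (EX ι x).powerset ×ˢ (EX ι x).powerset,
          Real.log x ^ (B + B') * (if z.1 ∪ z.2 = Q then M ^ z.1.card * M' ^ z.2.card else 0) =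
          ∑ z ∈ ((EX ι x).powerset ×ˢ (EX ι x).powerset).filter (fun z => z.1 ∪ z.2 = Q),
          Real.log x ^ (B + B') * (if z.1 ∪ z.2 = Q then M ^ z.1.card * M' ^ z.2.card else 0) := by
        rw [sum_filter]
        refine sum_congr rfl fun z _ => ?_
        split_ifs
        · rfl
        · rw [mul_zero]
      rw [h3]
      refine sum_le_sum_of_subset_of_nonneg ?_ (fun z _ _ => hnn z.1 z.2)
      intro z hz
      rw [mem_filter] at hz
      rw [mem_product, mem_powerset, mem_powerset]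
      exact ⟨hz.2 ▸ subset_union_left, hz.2 ▸ subset_union_right⟩
    refine (h1.trans h2).trans (le_of_eq ?_)
    rw [← ClsA_double Q M M', mul_sum]
    exact sum_congr rfl fun A _ => by rw [mul_sum]
  · -- the support
    intro h0
    unfold uc at h0
    obtain ⟨A, hA, hA0⟩ := exists_ne_zero_of_sum_ne_zero h0
    obtain ⟨C, hC, hC0⟩ := exists_ne_zero_of_sum_ne_zero hA0
    have hQ : A ∪ C = Q := by
      by_contra hne
      rw [if_neg hne] at hC0
      exact hC0 rfl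
    rw [if_pos hQ] at hC0
    rw [mem_powerset] at hA hC
    have hcA := ((h A).2 (left_ne_zero_of_mul hC0)).2
    have hcC := ((h' C).2 (right_ne_zero_of_mul hC0)).2
    refine ⟨hQ ▸ union_subset hA hC, ?_⟩
    have hpos : ∀ T : Finset (ι × ℕ), T ⊆ EX ι x → (1 : ℝ) ≤ ∏ e ∈ T, (e.2 : ℝ) := by
      intro T hT
      have h1 : ∏ _e ∈ T, (1 : ℝ) ≤ ∏ e ∈ T, (e.2 : ℝ) := by
        refine prod_le_prod (fun _ _ => zero_le_one) fun e he => ?_
        have := ClsA_two (hT he)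
        linarith
      rwa [prod_const_one] at h1
    have h1 : (∏ e ∈ A ∪ C, (e.2 : ℝ)) * ∏ e ∈ A ∩ C, (e.2 : ℝ) =
        (∏ e ∈ A, (e.2 : ℝ)) * ∏ e ∈ C, (e.2 : ℝ) := prod_union_inter
    have h2 := hpos (A ∩ C) (inter_subset_left.trans hA)
    have h3 := hpos (A ∪ C) (union_subset hA hC)
    have h4 := hpos C hC
    rw [← hQ]
    calc ∏ e ∈ A ∪ C, (e.2 : ℝ) ≤ (∏ e ∈ A ∪ C, (e.2 : ℝ)) * ∏ e ∈ A ∩ C, (e.2 : ℝ) :=
          le_mul_of_one_le_right (by linarith) h2
      _ = (∏ e ∈ A, (e.2 : ℝ)) * ∏ e ∈ C, (e.2 : ℝ) := h1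
      _ ≤ D * D' := mul_le_mul hcA hcC (by linarith) hD

theorem uc_ground {x : ℕ} {P : Finset (ι × ℕ)} (hP : P ⊆ EX ι x) {c d : Finset (ι × ℕ) → ℝ}
    (hc : ∀ Q, c Q ≠ 0 → Q ⊆ P) (hd : ∀ Q, d Q ≠ 0 → Q ⊆ P) : uc (EX ι x) c d = uc P c d := by
  funext Q
  unfold uc
  have hc' : ∀ A, A ∉ P.powerset → c A = 0 := fun A hA => by
    by_contra h
    exact hA (mem_powerset.2 (hc A h))
  have hd' : ∀ A, A ∉ P.powerset → d A = 0 := fun A hA => by
    by_contra h
    exact hA (mem_powerset.2 (hd A h))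
  symm
  refine (sum_congr rfl fun A _ => ?_).trans (sum_subset (powerset_mono.2 hP) fun A _ hA => ?_)
  · refine sum_subset (powerset_mono.2 hP) fun C _ hC => ?_
    rw [hd' C hC, mul_zero, ite_self]
  · refine sum_eq_zero fun C _ => ?_
    rw [hc' A hA, zero_mul, ite_self]

theorem fo_gi {x : ℕ} {e : ι × ℕ} (he : e ∈ EX ι x) : fo gi e = fn e.2 ∧ 0 < gi e ∧ gi e < 1 := by
  have h2 := ClsA_two he
  have h0 : (0 : ℝ) < e.2 := by linarith
  unfold fo gi fn
  refine ⟨?_, by positivity, ?_⟩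
  · have h1 : (e.2 : ℝ) - 1 ≠ 0 := by
      intro h
      linarith
    have h3 : (1 : ℝ) - 1 / e.2 = (e.2 - 1) / e.2 := by field_simp
    rw [h3, div_div_div_cancel_right₀ h0.ne']
  · rw [div_lt_one h0]
    linarith

end Pool.Agent.H36.IS

end

section

/-!
Counting integers in a short interval subject to sieve conditions with two forbidden residue
classes for every odd prime and one for the prime two.
-/

namespace Pool.Agent.H91.Gold

open Finset

/-- Elementary symmetric function of the values of `x` on `B`. -/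
noncomputable def es (x : ℕ → ℝ) (B : Finset ℕ) (k : ℕ) : ℝ := ∑ t ∈ B.powersetCard k, ∏ p ∈ t, x p

theorem es_zero (x : ℕ → ℝ) (B : Finset ℕ) : es x B 0 = 1 := by
  unfold es; simp

theorem es_empty_succ (x : ℕ → ℝ) (k : ℕ) : es x ∅ (k + 1) = 0 := by
  unfold es
  rw [powersetCard_eq_empty.2 (by simp)]
  simp

theorem es_insert (x : ℕ → ℝ) {B : Finset ℕ} {p : ℕ} (hp : p ∉ B) (k : ℕ) :
    es x (insert p B) (k + 1) = es x B (k + 1) + x p * es x B k := by
  unfold es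
  rw [powersetCard_succ_insert hp, sum_union]
  · congr 1
    rw [sum_image]
    · rw [mul_sum]
      apply sum_congr rfl
      intro t ht
      rw [prod_insert]
      intro h
      exact hp ((mem_powersetCard.1 ht).1 h)
    · intro s hs t ht hst
      have hps : p ∉ s := fun h => hp ((mem_powersetCard.1 hs).1 h)
      have hpt : p ∉ t := fun h => hp ((mem_powersetCard.1 ht).1 h)
      have := congrArg (fun z => z.erase p) hst
      simpa [erase_insert hps, erase_insert hpt] using this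
  · rw [disjoint_left]
    intro s hs hs'
    rw [mem_image] at hs'
    obtain ⟨t, _, rfl⟩ := hs'
    exact hp ((mem_powersetCard.1 hs).1 (mem_insert_self _ _))

theorem es_nonneg {x : ℕ → ℝ} {B : Finset ℕ} (hx : ∀ p ∈ B, 0 ≤ x p) (k : ℕ) : 0 ≤ es x B k := by
  unfold es
  apply sum_nonneg
  intro t ht
  apply prod_nonneg
  intro p hp
  exact hx p ((mem_powersetCard.1 ht).1 hp)

/-- Truncated inclusion-exclusion sum. -/
noncomputable def tr (x : ℕ → ℝ) (B : Finset ℕ) (b : ℕ) : ℝ :=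
  ∑ k ∈ range (b + 1), (-1 : ℝ) ^ k * es x B k

theorem tr_zero (x : ℕ → ℝ) (B : Finset ℕ) : tr x B 0 = 1 := by
  unfold tr; simp [es_zero]

theorem tr_succ (x : ℕ → ℝ) (B : Finset ℕ) (b : ℕ) :
    tr x B (b + 1) = tr x B b + (-1 : ℝ) ^ (b + 1) * es x B (b + 1) := by
  unfold tr; rw [sum_range_succ]

theorem tr_empty (x : ℕ → ℝ) (b : ℕ) : tr x ∅ b = 1 := by
  induction b with
  | zero => exact tr_zero _ _
  | succ b ih => rw [tr_succ, ih, es_empty_succ]; ring

theorem tr_insert_succ (x : ℕ → ℝ) {B : Finset ℕ} {p : ℕ} (hp : p ∉ B) (b : ℕ) :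
    tr x (insert p B) (b + 1) = tr x B (b + 1) - x p * tr x B b := by
  induction b with
  | zero =>
    rw [tr_succ, tr_succ, tr_zero, tr_zero, es_insert x hp, es_zero]
    ring
  | succ b ih =>
    rw [tr_succ x (insert p B) (b + 1), ih, tr_succ x B (b + 1), tr_succ x B b, es_insert x hp]
    ring

/-- Bonferroni inequalities for products. -/
theorem bonferroni {x : ℕ → ℝ} (B : Finset ℕ) (hx : ∀ p ∈ B, 0 ≤ x p ∧ x p ≤ 1) (b : ℕ) :
    0 ≤ (-1 : ℝ) ^ b * (tr x B b - ∏ p ∈ B, (1 - x p)) := by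
  induction B using Finset.induction_on generalizing b with
  | empty => rw [tr_empty]; simp
  | insert p B hp ih =>
    have hx' : ∀ q ∈ B, 0 ≤ x q ∧ x q ≤ 1 := fun q hq => hx q (mem_insert_of_mem hq)
    have hp0 := (hx p (mem_insert_self _ _)).1
    have hp1 := (hx p (mem_insert_self _ _)).2
    have hprod : 0 ≤ ∏ q ∈ B, (1 - x q) := prod_nonneg (fun q hq => by linarith [(hx' q hq).2])
    have hprod1 : ∏ q ∈ B, (1 - x q) ≤ 1 :=
      prod_le_one (fun q hq => by linarith [(hx' q hq).2]) (fun q hq => by linarith [(hx' q hq).1])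
    rw [prod_insert hp]
    cases b with
    | zero =>
      rw [tr_zero]
      simp only [pow_zero, one_mul]
      nlinarith
    | succ b =>
      rw [tr_insert_succ x hp]
      have h1 := ih hx' (b + 1)
      have h2 := ih hx' b
      have : (-1 : ℝ) ^ (b + 1) * (tr x B (b + 1) - x p * tr x B b - (1 - x p) * ∏ q ∈ B, (1 - x q))
        = (-1 : ℝ) ^ (b + 1) * (tr x B (b + 1) - ∏ q ∈ B, (1 - x q))
          + x p * ((-1 : ℝ) ^ b * (tr x B b - ∏ q ∈ B, (1 - x q))) := by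
        rw [pow_succ]; ring
      rw [this]
      have := mul_nonneg hp0 h2
      linarith

theorem bonferroni_even {x : ℕ → ℝ} (B : Finset ℕ) (hx : ∀ p ∈ B, 0 ≤ x p ∧ x p ≤ 1) {b : ℕ}
    (hb : Even b) : ∏ p ∈ B, (1 - x p) ≤ tr x B b := by
  have := bonferroni B hx b
  rw [hb.neg_one_pow] at this
  linarith

theorem bonferroni_odd {x : ℕ → ℝ} (B : Finset ℕ) (hx : ∀ p ∈ B, 0 ≤ x p ∧ x p ≤ 1) {b : ℕ}
    (hb : Odd b) : tr x B b ≤ ∏ p ∈ B, (1 - x p) := by
  have := bonferroni B hx b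
  rw [hb.neg_one_pow] at this
  linarith

theorem es_le {x : ℕ → ℝ} (B : Finset ℕ) (hx : ∀ p ∈ B, 0 ≤ x p) (k : ℕ) :
    es x B k ≤ (∑ p ∈ B, x p) ^ k / k.factorial := by
  induction B using Finset.induction_on generalizing k with
  | empty =>
    cases k with
    | zero => simp [es_zero]
    | succ k => rw [es_empty_succ]; simp
  | insert p B hp ih =>
    have hx' : ∀ q ∈ B, 0 ≤ x q := fun q hq => hx q (mem_insert_of_mem hq)
    have hp0 := hx p (mem_insert_self _ _)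
    cases k with
    | zero => simp [es_zero]
    | succ k =>
      rw [es_insert x hp, sum_insert hp]
      have h1 := ih hx' (k + 1)
      have h2 := ih hx' k
      have h3 := mul_le_mul_of_nonneg_left h2 hp0
      set L := ∑ q ∈ B, x q with hL
      have hL0 : 0 ≤ L := sum_nonneg hx'
      have h4 : L ^ (k + 1) + (k + 1 : ℕ) * x p * L ^ k ≤ (x p + L) ^ (k + 1) := by
        rcases eq_or_lt_of_le hL0 with h0 | h0
        · rw [← h0]
          cases k with
          | zero => simp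
          | succ k => simp; positivity
        · have := one_add_mul_le_pow (a := x p / L) (by
            have : 0 ≤ x p / L := by positivity
            linarith) (k + 1)
          have h5 : (x p + L) ^ (k + 1) = L ^ (k + 1) * (1 + x p / L) ^ (k + 1) := by
            rw [← mul_pow]; congr 1; field_simp; ring
          rw [h5]
          calc L ^ (k + 1) + (k + 1 : ℕ) * x p * L ^ k
              = L ^ (k + 1) * (1 + (k + 1 : ℕ) * (x p / L)) := by
                rw [pow_succ]; field_simp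
            _ ≤ L ^ (k + 1) * (1 + x p / L) ^ (k + 1) :=
                mul_le_mul_of_nonneg_left (by exact_mod_cast this) (by positivity)
      have hf : (0 : ℝ) < (k + 1).factorial := by positivity
      have hf' : (0 : ℝ) < k.factorial := by positivity
      have h6 : ((k + 1).factorial : ℝ) = (k + 1) * k.factorial := by
        rw [Nat.factorial_succ]; push_cast; ring
      calc es x B (k + 1) + x p * es x B k
          ≤ L ^ (k + 1) / (k + 1).factorial + x p * (L ^ k / k.factorial) := add_le_add h1 h3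
        _ = (L ^ (k + 1) + (k + 1 : ℕ) * x p * L ^ k) / (k + 1).factorial := by
            rw [h6]; push_cast; field_simp
        _ ≤ (x p + L) ^ (k + 1) / (k + 1).factorial := by
            apply div_le_div_of_nonneg_right h4 hf.le

end Pool.Agent.H91.Gold

end

section

/-!
PK SvA: the rules for sieve weights.

All are formal.  Hints:
* exact weights: c T = (-1)^|T| for T ⊆ P, 0 otherwise; ev c P y = Vg y P for every y (`Finset.prod_one_sub` /
  `Finset.prod_sub` expansions over the powerset).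
* zero weights: c = 0 gives Lo with M = 0 (Vg y P ≥ 0 for y in {0,1}).
* union of disjoint sets with product weights c(T) = c₁(T∩P₁) c₂(T∩P₂) for T ⊆ P₁∪P₂ (0 otherwise): ev is multiplicative
  (`Finset.powerset_union`-like bijection: see `Pool.Agent.H91.Gold.Sv.mul_es` and friends for the style).
* Ch.step is the proof of `Pool.Agent.H91.Gold.Chain.step` (file Pool/Agent/H91/GoldChain.lean, same inequalities), with the
  block polynomial tr (weights (-1)^|T| for |T| ≤ b, T ⊆ B) and es (weights 1 for |T| = b+1):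
  new upper = tr * U, new lower = tr * L - es_{b+1} * U.  Coefficients stay in [-1,1] because the lower weights are
  supported on disjoint sets of T (|T ∩ B| ≤ b resp. = b+1); level: ∏_{T∩B} p ≤ z^b resp. z^(b+1).
* Buchstab rules: c(T) = c₀(T) if T ⊆ P₀ = {p ∈ P, p ≤ w}, and c(T) = - c_q(T \ {q}) if q = max T > w
  (c_q weights for P_q = {p ∈ P, p < q} at level D/q).  Identity for 0/1 (indeed all) y:
   ∏_{p∈P}(1-y_p) = ∏_{p∈P₀}(1-y_p) - ∑_{q∈P, q>w} y_q ∏_{p∈P, p<q} (1-y_p)   (induction on the largest element).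
-/

set_option autoImplicit false

namespace Pool.Agent.H91.PK

open Finset

/-! ### Auxiliary facts on weights -/

theorem SvA_prod_nonneg (T : Finset ℕ) : (0 : ℝ) ≤ ∏ p ∈ T, (p : ℝ) :=
  Finset.prod_nonneg fun p _ => Nat.cast_nonneg p

theorem SvA_ZO_bd {y : ℕ → ℝ} (hy : ZO y) (p : ℕ) : 0 ≤ y p ∧ y p ≤ 1 := by
  rcases hy p with h | h <;> rw [h] <;> norm_num

theorem SvA_ev_superset {P P' : Finset ℕ} {D : ℝ} {c : Finset ℕ → ℝ} (h : Wt P D c)
    (hPP : P ⊆ P') (y : ℕ → ℝ) : ev c P' y = ev c P y := by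
  unfold ev
  symm
  apply Finset.sum_subset (Finset.powerset_mono.mpr hPP)
  intro T _ hT
  by_cases hc : c T = 0
  · rw [hc, zero_mul]
  · exact absurd (Finset.mem_powerset.mpr (h.2 T hc).1) hT

theorem SvA_ev_sub (c d : Finset ℕ → ℝ) (P : Finset ℕ) (y : ℕ → ℝ) :
    ev (fun T => c T - d T) P y = ev c P y - ev d P y := by
  unfold ev
  rw [← Finset.sum_sub_distrib]
  exact Finset.sum_congr rfl fun T _ => by ring

/-- exact weights -/
noncomputable def SvA_ex (P : Finset ℕ) (T : Finset ℕ) : ℝ := if T ⊆ P then (-1 : ℝ) ^ T.card else 0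

theorem SvA_ev_ex (P : Finset ℕ) (y : ℕ → ℝ) : ev (SvA_ex P) P y = Vg y P := by
  unfold ev Vg
  have h : ∏ p ∈ P, (1 - y p) = ∏ p ∈ P, (1 + (-y p)) :=
    Finset.prod_congr rfl fun p _ => by ring
  rw [h, Finset.prod_one_add]
  refine Finset.sum_congr rfl fun T hT => ?_
  unfold SvA_ex
  rw [if_pos (Finset.mem_powerset.mp hT), Finset.prod_neg]

theorem SvA_neg_one_abs (k : ℕ) : |(-1 : ℝ) ^ k| ≤ 1 := by
  rw [abs_pow, abs_neg, abs_one, one_pow]

theorem SvA_prod_le_of_subset {S T : Finset ℕ} (hST : S ⊆ T) (hT : ∀ p ∈ T, 1 ≤ p) :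
    ∏ p ∈ S, (p : ℝ) ≤ ∏ p ∈ T, (p : ℝ) := by
  have h : ∏ p ∈ S, p ≤ ∏ p ∈ T, p :=
    Finset.prod_le_prod_of_subset_of_one_le' hST fun p hp _ => hT p hp
  have h2 : ((∏ p ∈ S, p : ℕ) : ℝ) ≤ ((∏ p ∈ T, p : ℕ) : ℝ) := by exact_mod_cast h
  rw [Nat.cast_prod, Nat.cast_prod] at h2
  exact h2

theorem SvA_Wt_ex (P : Finset ℕ) (hP : ∀ p ∈ P, 1 ≤ p) : Wt P (∏ p ∈ P, (p : ℝ)) (SvA_ex P) := by
  constructor
  · intro T
    unfold SvA_ex
    split_ifs
    · exact SvA_neg_one_abs _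
    · rw [abs_zero]; exact zero_le_one
  · intro T hT
    unfold SvA_ex at hT
    split_ifs at hT with h
    · exact ⟨h, SvA_prod_le_of_subset h hP⟩
    · exact absurd rfl hT

/-- product weights -/
noncomputable def SvA_pr (P Q : Finset ℕ) (c d : Finset ℕ → ℝ) (T : Finset ℕ) : ℝ :=
  if T ⊆ P ∪ Q then c (T ∩ P) * d (T ∩ Q) else 0

theorem SvA_prod_split {P Q T : Finset ℕ} (hPQ : Disjoint P Q) (hT : T ⊆ P ∪ Q) (f : ℕ → ℝ) :
    ∏ p ∈ T, f p = (∏ p ∈ T ∩ P, f p) * ∏ p ∈ T ∩ Q, f p := by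
  rw [← Finset.prod_union]
  · rw [← Finset.inter_union_distrib_left, Finset.inter_eq_left.mpr hT]
  · exact hPQ.mono inter_subset_right inter_subset_right

theorem SvA_ev_pr {P Q : Finset ℕ} (hPQ : Disjoint P Q) (c d : Finset ℕ → ℝ) (y : ℕ → ℝ) :
    ev (SvA_pr P Q c d) (P ∪ Q) y = ev c P y * ev d Q y := by
  unfold ev
  rw [Finset.sum_mul_sum, ← Finset.sum_product']
  refine Finset.sum_nbij' (fun T => (T ∩ P, T ∩ Q)) (fun x => x.1 ∪ x.2) ?_ ?_ ?_ ?_ ?_
  · intro T _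
    rw [Finset.mem_product, Finset.mem_powerset, Finset.mem_powerset]
    exact ⟨inter_subset_right, inter_subset_right⟩
  · intro x hx
    rw [Finset.mem_product, Finset.mem_powerset, Finset.mem_powerset] at hx
    exact Finset.mem_powerset.mpr (Finset.union_subset_union hx.1 hx.2)
  · intro T hT
    show T ∩ P ∪ T ∩ Q = T
    rw [← Finset.inter_union_distrib_left]
    exact Finset.inter_eq_left.mpr (Finset.mem_powerset.mp hT)
  · intro x hx
    rw [Finset.mem_product, Finset.mem_powerset, Finset.mem_powerset] at hx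
    obtain ⟨A, B⟩ := x
    obtain ⟨hA, hB⟩ := hx
    simp only at hA hB
    have h1 : (A ∪ B) ∩ P = A := by
      rw [Finset.union_inter_distrib_right, Finset.inter_eq_left.mpr hA,
        (Finset.disjoint_iff_inter_eq_empty.mp (hPQ.symm.mono_left hB)), Finset.union_empty]
    have h2 : (A ∪ B) ∩ Q = B := by
      rw [Finset.union_inter_distrib_right, Finset.inter_eq_left.mpr hB,
        (Finset.disjoint_iff_inter_eq_empty.mp (hPQ.mono_left hA)), Finset.empty_union]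
    show ((A ∪ B) ∩ P, (A ∪ B) ∩ Q) = (A, B)
    rw [h1, h2]
  · intro T hT
    have hT' := Finset.mem_powerset.mp hT
    show SvA_pr P Q c d T * ∏ p ∈ T, y p = _
    unfold SvA_pr
    rw [if_pos hT', SvA_prod_split hPQ hT' y]
    ring

theorem SvA_Wt_pr {P Q : Finset ℕ} {D E : ℝ} {c d : Finset ℕ → ℝ} (hPQ : Disjoint P Q)
    (hc : Wt P D c) (hd : Wt Q E d) : Wt (P ∪ Q) (D * E) (SvA_pr P Q c d) := by
  constructor
  · intro T
    unfold SvA_pr
    split_ifs
    · rw [abs_mul]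
      exact mul_le_one₀ (hc.1 _) (abs_nonneg _) (hd.1 _)
    · rw [abs_zero]; exact zero_le_one
  · intro T hT
    unfold SvA_pr at hT
    split_ifs at hT with h
    · have h1 := (hc.2 _ (left_ne_zero_of_mul hT)).2
      have h2 := (hd.2 _ (right_ne_zero_of_mul hT)).2
      refine ⟨h, ?_⟩
      rw [SvA_prod_split hPQ h]
      exact mul_le_mul h1 h2 (SvA_prod_nonneg _) ((SvA_prod_nonneg _).trans h1)
    · exact absurd rfl hT

theorem SvA_Wt_sub {P : Finset ℕ} {D E : ℝ} {c d : Finset ℕ → ℝ} (hc : Wt P D c) (hd : Wt P E d)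
    (h : ∀ T, c T = 0 ∨ d T = 0) : Wt P (max D E) (fun T => c T - d T) := by
  constructor
  · intro T
    rcases h T with h1 | h1
    · show |c T - d T| ≤ 1
      rw [h1, zero_sub, abs_neg]
      exact hd.1 T
    · show |c T - d T| ≤ 1
      rw [h1, sub_zero]
      exact hc.1 T
  · intro T hT
    by_cases h1 : c T = 0
    · have h2 : d T ≠ 0 := by
        intro h2
        apply hT
        show c T - d T = 0
        rw [h1, h2, sub_zero]
      exact ⟨(hd.2 T h2).1, (hd.2 T h2).2.trans (le_max_right _ _)⟩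
    · exact ⟨(hc.2 T h1).1, (hc.2 T h1).2.trans (le_max_left _ _)⟩

/-- weights of the elementary symmetric function -/
noncomputable def SvA_ew (B : Finset ℕ) (k : ℕ) (T : Finset ℕ) : ℝ :=
  if T ⊆ B ∧ T.card = k then 1 else 0

/-- weights of the truncated inclusion-exclusion sum -/
noncomputable def SvA_bw (B : Finset ℕ) (b : ℕ) (T : Finset ℕ) : ℝ :=
  if T ⊆ B ∧ T.card ≤ b then (-1 : ℝ) ^ T.card else 0

theorem SvA_ev_ew (B : Finset ℕ) (k : ℕ) (y : ℕ → ℝ) : ev (SvA_ew B k) B y = Gold.es y B k := by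
  unfold ev Gold.es SvA_ew
  rw [Finset.powersetCard_eq_filter, Finset.sum_filter]
  refine Finset.sum_congr rfl fun T hT => ?_
  by_cases h : T.card = k
  · rw [if_pos ⟨Finset.mem_powerset.mp hT, h⟩, if_pos h, one_mul]
  · rw [if_neg (fun hh => h hh.2), if_neg h, zero_mul]

theorem SvA_bw_eq (B : Finset ℕ) (b : ℕ) (T : Finset ℕ) :
    SvA_bw B b T = ∑ k ∈ range (b + 1), (-1 : ℝ) ^ k * SvA_ew B k T := by
  unfold SvA_bw SvA_ew
  split_ifs with h
  · rw [Finset.sum_eq_single T.card]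
    · rw [if_pos ⟨h.1, rfl⟩, mul_one]
    · intro k _ hk
      rw [if_neg (fun hh => hk hh.2.symm), mul_zero]
    · intro hh
      exact absurd (Finset.mem_range.mpr (Nat.lt_succ_of_le h.2)) hh
  · symm
    apply Finset.sum_eq_zero
    intro k hk
    rw [if_neg, mul_zero]
    rintro ⟨h1, h2⟩
    apply h
    refine ⟨h1, ?_⟩
    have := Finset.mem_range.mp hk
    omega

theorem SvA_ev_bw (B : Finset ℕ) (b : ℕ) (y : ℕ → ℝ) : ev (SvA_bw B b) B y = Gold.tr y B b := by
  unfold Gold.tr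
  have h : ∀ k ∈ range (b + 1), (-1 : ℝ) ^ k * Gold.es y B k =
      ∑ T ∈ B.powerset, (-1 : ℝ) ^ k * SvA_ew B k T * ∏ p ∈ T, y p := by
    intro k _
    rw [← SvA_ev_ew]
    unfold ev
    rw [Finset.mul_sum]
    exact Finset.sum_congr rfl fun T _ => by ring
  rw [Finset.sum_congr rfl h, Finset.sum_comm]
  unfold ev
  refine Finset.sum_congr rfl fun T _ => ?_
  rw [SvA_bw_eq, Finset.sum_mul]

theorem SvA_prod_le_pow {B T : Finset ℕ} {z : ℝ} (hT : T ⊆ B) (hBz : ∀ p ∈ B, (p : ℝ) ≤ z) :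
    ∏ p ∈ T, (p : ℝ) ≤ z ^ T.card := by
  rw [← Finset.prod_const]
  exact Finset.prod_le_prod (fun p _ => Nat.cast_nonneg p) (fun p hp => hBz p (hT hp))

theorem SvA_Wt_ew {B : Finset ℕ} {z : ℝ} (k : ℕ) (hBz : ∀ p ∈ B, (p : ℝ) ≤ z) :
    Wt B (z ^ k) (SvA_ew B k) := by
  constructor
  · intro T
    unfold SvA_ew
    split_ifs
    · rw [abs_one]
    · rw [abs_zero]; exact zero_le_one
  · intro T hT
    unfold SvA_ew at hT
    split_ifs at hT with h
    · refine ⟨h.1, ?_⟩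
      rw [← h.2]
      exact SvA_prod_le_pow h.1 hBz
    · exact absurd rfl hT

theorem SvA_Wt_bw {B : Finset ℕ} {z : ℝ} (b : ℕ) (hz : 1 ≤ z) (hBz : ∀ p ∈ B, (p : ℝ) ≤ z) :
    Wt B (z ^ b) (SvA_bw B b) := by
  constructor
  · intro T
    unfold SvA_bw
    split_ifs
    · exact SvA_neg_one_abs _
    · rw [abs_zero]; exact zero_le_one
  · intro T hT
    unfold SvA_bw at hT
    split_ifs at hT with h
    · exact ⟨h.1, (SvA_prod_le_pow h.1 hBz).trans (pow_le_pow_right₀ hz h.2)⟩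
    · exact absurd rfl hT

theorem SvA_Vg_union {y : ℕ → ℝ} {P Q : Finset ℕ} (h : Disjoint P Q) :
    Vg y (P ∪ Q) = Vg y P * Vg y Q := by
  unfold Vg
  rw [Finset.prod_union h]

/-- The ordered expansion of the product. -/
theorem SvA_Vg_ordered (y : ℕ → ℝ) (P : Finset ℕ) :
    Vg y P = 1 - ∑ q ∈ P, y q * Vg y (P.filter (fun p => p < q)) := by
  unfold Vg
  exact Finset.prod_one_sub_ordered P y

theorem SvA_Vg_ordered_le (y : ℕ → ℝ) (P : Finset ℕ) (w : ℝ) :
    Vg y (P.filter (fun p : ℕ => (p : ℝ) ≤ w)) =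
      1 - ∑ q ∈ P.filter (fun q : ℕ => (q : ℝ) ≤ w), y q * Vg y (P.filter (fun p => p < q)) := by
  rw [SvA_Vg_ordered]
  congr 1
  refine Finset.sum_congr rfl fun q hq => ?_
  congr 2
  ext p
  rw [Finset.mem_filter, Finset.mem_filter, Finset.mem_filter]
  constructor
  · rintro ⟨⟨h1, _⟩, h2⟩
    exact ⟨h1, h2⟩
  · rintro ⟨h1, h2⟩
    refine ⟨⟨h1, ?_⟩, h2⟩
    have h3 : (p : ℝ) < (q : ℝ) := by exact_mod_cast h2
    exact h3.le.trans (Finset.mem_filter.mp hq).2

theorem SvA_Vg_buchstab (y : ℕ → ℝ) (P : Finset ℕ) (w : ℝ) :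
    Vg y P = Vg y (P.filter (fun p : ℕ => (p : ℝ) ≤ w)) -
      ∑ q ∈ P.filter (fun q : ℕ => w < (q : ℝ)), y q * Vg y (P.filter (fun p => p < q)) := by
  rw [SvA_Vg_ordered_le, SvA_Vg_ordered]
  have h : ∑ q ∈ P, y q * Vg y (P.filter (fun p => p < q)) =
      ∑ q ∈ P.filter (fun q : ℕ => (q : ℝ) ≤ w), y q * Vg y (P.filter (fun p => p < q)) +
      ∑ q ∈ P.filter (fun q : ℕ => w < (q : ℝ)), y q * Vg y (P.filter (fun p => p < q)) := by
    rw [← Finset.sum_filter_add_sum_filter_not P (fun q : ℕ => (q : ℝ) ≤ w)]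
    congr 1
    refine Finset.sum_congr ?_ fun _ _ => rfl
    ext q
    rw [Finset.mem_filter, Finset.mem_filter, not_le]
  rw [h]
  ring

theorem SvA_buch_core {P : Finset ℕ} {D w : ℝ} {c₀ : Finset ℕ → ℝ} {cq : ℕ → Finset ℕ → ℝ}
    (hP : ∀ p ∈ P, 1 ≤ p) (h0 : Wt (P.filter (fun p : ℕ => (p : ℝ) ≤ w)) D c₀)
    (h1 : ∀ q ∈ P, w < (q : ℝ) → Wt (P.filter (fun p => p < q)) (D / q) (cq q)) :
    ∃ c, Wt P D c ∧ ∀ y : ℕ → ℝ, ev c P y = ev c₀ (P.filter (fun p : ℕ => (p : ℝ) ≤ w)) y -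
      ∑ q ∈ P.filter (fun q : ℕ => w < (q : ℝ)), y q * ev (cq q) (P.filter (fun p => p < q)) y := by
  classical
  let Q : Finset ℕ := P.filter (fun q : ℕ => w < (q : ℝ))
  let cond : ℕ → Finset ℕ → Prop := fun q T => q ∈ T ∧ T.erase q ⊆ P.filter (fun p => p < q)
  let trm : ℕ → Finset ℕ → ℝ := fun q T => if cond q T then cq q (T.erase q) else 0
  have hQ : ∀ q, q ∈ Q ↔ q ∈ P ∧ w < (q : ℝ) := fun q => Finset.mem_filter
  have hone : ∀ T, ∀ q ∈ Q, cond q T → ∑ q' ∈ Q, trm q' T = cq q (T.erase q) := by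
    intro T q hq hc
    rw [Finset.sum_eq_single_of_mem q hq]
    · exact if_pos hc
    · intro q' _ hne
      apply if_neg
      intro hc'
      have e1 : q' ∈ T.erase q := Finset.mem_erase.mpr ⟨hne, hc'.1⟩
      have e2 : q ∈ T.erase q' := Finset.mem_erase.mpr ⟨hne.symm, hc.1⟩
      have e3 := (Finset.mem_filter.mp (hc.2 e1)).2
      have e4 := (Finset.mem_filter.mp (hc'.2 e2)).2
      omega
  have hnone : ∀ T, (¬ ∃ q ∈ Q, cond q T) → ∑ q' ∈ Q, trm q' T = 0 := by
    intro T hT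
    apply Finset.sum_eq_zero
    intro q hq
    exact if_neg fun hc => hT ⟨q, hq, hc⟩
  have hzero : ∀ T, ∀ q ∈ Q, cond q T → c₀ T = 0 := by
    intro T q hq hc
    by_contra hne
    have e1 := (Finset.mem_filter.mp ((h0.2 T hne).1 hc.1)).2
    have e2 := ((hQ q).mp hq).2
    linarith
  refine ⟨fun T => c₀ T - ∑ q ∈ Q, trm q T, ⟨?_, ?_⟩, ?_⟩
  · intro T
    show |c₀ T - ∑ q ∈ Q, trm q T| ≤ 1
    by_cases hT : ∃ q ∈ Q, cond q T
    · obtain ⟨q, hq, hc⟩ := hT
      rw [hone T q hq hc, hzero T q hq hc, zero_sub, abs_neg]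
      exact (h1 q ((hQ q).mp hq).1 ((hQ q).mp hq).2).1 _
    · rw [hnone T hT, sub_zero]
      exact h0.1 T
  · intro T hT
    by_cases hT' : ∃ q ∈ Q, cond q T
    · obtain ⟨q, hq, hc⟩ := hT'
      have hT2 : c₀ T - ∑ q ∈ Q, trm q T ≠ 0 := hT
      rw [hone T q hq hc, hzero T q hq hc, zero_sub, neg_ne_zero] at hT2
      have hqP := ((hQ q).mp hq).1
      have h2 := (h1 q hqP ((hQ q).mp hq).2).2 _ hT2
      have hqpos : (0 : ℝ) < q := by exact_mod_cast hP q hqP
      constructor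
      · intro p hp
        by_cases hpq : p = q
        · rw [hpq]; exact hqP
        · exact (Finset.mem_filter.mp (h2.1 (Finset.mem_erase.mpr ⟨hpq, hp⟩))).1
      · rw [← Finset.mul_prod_erase T _ hc.1]
        calc (q : ℝ) * ∏ p ∈ T.erase q, (p : ℝ) ≤ q * (D / q) :=
              mul_le_mul_of_nonneg_left h2.2 hqpos.le
          _ = D := by field_simp
    · have hT2 : c₀ T - ∑ q ∈ Q, trm q T ≠ 0 := hT
      rw [hnone T hT', sub_zero] at hT2
      exact ⟨(h0.2 T hT2).1.trans (Finset.filter_subset _ _), (h0.2 T hT2).2⟩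
  · intro y
    rw [← SvA_ev_superset h0 (Finset.filter_subset _ P) y, SvA_ev_sub]
    congr 1
    have hstep : ∀ q ∈ Q, y q * ev (cq q) (P.filter (fun p => p < q)) y =
        ∑ T ∈ P.powerset, trm q T * ∏ p ∈ T, y p := by
      intro q hq
      have hqP := ((hQ q).mp hq).1
      have e1 : ∑ T ∈ P.powerset, trm q T * ∏ p ∈ T, y p =
          ∑ T ∈ P.powerset.filter (fun T => cond q T), cq q (T.erase q) * ∏ p ∈ T, y p := by
        rw [Finset.sum_filter]
        refine Finset.sum_congr rfl fun T _ => ?_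
        by_cases hc : cond q T
        · rw [if_pos hc]
          show (if cond q T then cq q (T.erase q) else 0) * _ = _
          rw [if_pos hc]
        · rw [if_neg hc]
          show (if cond q T then cq q (T.erase q) else 0) * _ = _
          rw [if_neg hc, zero_mul]
      rw [e1]
      unfold ev
      rw [Finset.mul_sum]
      have hnot : ∀ T' ∈ (P.filter (fun p => p < q)).powerset, q ∉ T' := by
        intro T' hT' hqT
        have := (Finset.mem_filter.mp (Finset.mem_powerset.mp hT' hqT)).2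
        omega
      refine Finset.sum_nbij' (fun T' => insert q T') (fun T => T.erase q) ?_ ?_ ?_ ?_ ?_
      · intro T' hT'
        have h3 := Finset.mem_powerset.mp hT'
        rw [Finset.mem_filter, Finset.mem_powerset]
        refine ⟨Finset.insert_subset hqP (h3.trans (Finset.filter_subset _ _)),
          Finset.mem_insert_self _ _, ?_⟩
        rw [Finset.erase_insert (hnot T' hT')]
        exact h3
      · intro T hT
        rw [Finset.mem_filter] at hT
        exact Finset.mem_powerset.mpr hT.2.2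
      · intro T' hT'
        exact Finset.erase_insert (hnot T' hT')
      · intro T hT
        rw [Finset.mem_filter] at hT
        exact Finset.insert_erase hT.2.1
      · intro T' hT'
        rw [Finset.prod_insert (hnot T' hT'), Finset.erase_insert (hnot T' hT')]
        ring
    rw [Finset.sum_congr rfl hstep, Finset.sum_comm]
    unfold ev
    refine Finset.sum_congr rfl fun T _ => ?_
    rw [Finset.sum_mul]

/-! ### The rules -/

theorem Vg_nonneg {y : ℕ → ℝ} (hy : ZO y) (P : Finset ℕ) : 0 ≤ Vg y P := by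
  unfold Vg
  exact Finset.prod_nonneg fun p _ => by linarith [(SvA_ZO_bd hy p).2]

theorem SvA_Wt_mono {P : Finset ℕ} {D D' : ℝ} {c : Finset ℕ → ℝ} (h : Wt P D c) (hD : D ≤ D') :
    Wt P D' c := ⟨h.1, fun T hT => ⟨(h.2 T hT).1, (h.2 T hT).2.trans hD⟩⟩

theorem Up.mono {g : ℕ → ℝ} {P : Finset ℕ} {D D' M M' : ℝ} (h : Up g P D M) (hD : D ≤ D') (hM : M ≤ M') :
    Up g P D' M' := by
  obtain ⟨c, h1, h2, h3⟩ := h
  exact ⟨c, SvA_Wt_mono h1 hD, h2, h3.trans hM⟩

theorem Lo.mono {g : ℕ → ℝ} {P : Finset ℕ} {D D' M M' : ℝ} (h : Lo g P D M) (hD : D ≤ D') (hM : M' ≤ M) :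
    Lo g P D' M' := by
  obtain ⟨c, h1, h2, h3⟩ := h
  exact ⟨c, SvA_Wt_mono h1 hD, h2, hM.trans h3⟩

theorem Lo_zero (g : ℕ → ℝ) (P : Finset ℕ) (D : ℝ) : Lo g P D 0 := by
  have h0 : ∀ y : ℕ → ℝ, ev (fun _ => 0) P y = 0 := by
    intro y
    unfold ev
    apply Finset.sum_eq_zero
    intro T _
    rw [zero_mul]
  refine ⟨fun _ => 0, ⟨fun T => by rw [abs_zero]; exact zero_le_one, fun T hT => absurd rfl hT⟩,
    fun y hy => ?_, ?_⟩
  · rw [h0]
    exact Vg_nonneg hy P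
  · rw [h0]

theorem Ch_empty (g : ℕ → ℝ) : Ch g ∅ 1 1 1 0 := by
  have h1 : Wt ∅ 1 (SvA_ex ∅) := by
    have := SvA_Wt_ex ∅ (by simp)
    rwa [Finset.prod_empty] at this
  refine ⟨SvA_ex ∅, SvA_ex ∅, h1, h1, fun y _ => (SvA_ev_ex ∅ y).ge, fun y _ => (SvA_ev_ex ∅ y).le,
    (SvA_ev_ex ∅ g).ge, ?_, ?_⟩
  · rw [SvA_ev_ex, one_mul]
  · rw [sub_zero, one_mul]

theorem Ch.mono {g : ℕ → ℝ} {P : Finset ℕ} {D D' F G D₁ D₁' F₁ G₁ : ℝ} (h : Ch g P D D' F G)
    (hV : 0 < Vg g P) (h1 : D ≤ D₁) (h2 : D' ≤ D₁') (h3 : F ≤ F₁) (h4 : G ≤ G₁) : Ch g P D₁ D₁' F₁ G₁ := by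
  obtain ⟨c, c', e1, e2, e3, e4, e5, e6, e7⟩ := h
  refine ⟨c, c', SvA_Wt_mono e1 h1, SvA_Wt_mono e2 h2, e3, e4, e5, ?_, ?_⟩
  · exact e6.trans (mul_le_mul_of_nonneg_right h3 hV.le)
  · exact le_trans (mul_le_mul_of_nonneg_right (by linarith) (hV.le.trans e5)) e7

theorem Ch.up {g : ℕ → ℝ} {P : Finset ℕ} {D D' F G : ℝ} (h : Ch g P D D' F G) : Up g P D (F * Vg g P) := by
  obtain ⟨c, c', e1, e2, e3, e4, e5, e6, e7⟩ := h
  exact ⟨c, e1, e3, e6⟩

theorem Ch.lo {g : ℕ → ℝ} {P : Finset ℕ} {D D' F G : ℝ} (h : Ch g P D D' F G) (hG : G ≤ 1) :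
    Lo g P D' ((1 - G) * Vg g P) := by
  obtain ⟨c, c', e1, e2, e3, e4, e5, e6, e7⟩ := h
  exact ⟨c', e2, e4, (mul_le_mul_of_nonneg_left e5 (by linarith)).trans e7⟩

theorem Ch.step {g : ℕ → ℝ} {P B : Finset ℕ} {D D' F G z ε : ℝ} {b : ℕ} (h : Ch g P D D' F G)
    (hBP : Disjoint B P) (hD : 1 ≤ D) (hz : 1 ≤ z) (hBz : ∀ p ∈ B, (p : ℝ) ≤ z) (hb : Even b)
    (hgP : ∀ p ∈ P, 0 ≤ g p ∧ g p < 1) (hgB : ∀ p ∈ B, 0 ≤ g p ∧ g p < 1)
    (hε : Gold.es g B (b + 1) ≤ ε * Vg g B) :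
    Ch g (P ∪ B) (D * z ^ b) (max (D' * z ^ b) (D * z ^ (b + 1))) (F * (1 + ε)) (G + ε) := by
  obtain ⟨c, c', w1, w2, h1, h2, h5, h6, h7⟩ := h
  have hPB : Disjoint P B := hBP.symm
  have hVB : 0 < Vg g B := Finset.prod_pos fun p hp => by linarith [(hgB p hp).2]
  have hVP : 0 < Vg g P := Finset.prod_pos fun p hp => by linarith [(hgP p hp).2]
  have hg : ∀ p ∈ B, 0 ≤ g p ∧ g p ≤ 1 := fun p hp => ⟨(hgB p hp).1, (hgB p hp).2.le⟩
  have hes : 0 ≤ Gold.es g B (b + 1) := Gold.es_nonneg (fun p hp => (hg p hp).1) _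
  have hε0 : 0 ≤ ε := by
    by_contra hc
    push Not at hc
    nlinarith
  have t1 : Vg g B ≤ Gold.tr g B b := Gold.bonferroni_even B hg hb
  have t2 : Gold.tr g B b ≤ Vg g B + Gold.es g B (b + 1) := by
    have := Gold.bonferroni_odd B hg (b := b + 1) hb.add_one
    rw [Gold.tr_succ, hb.add_one.neg_one_pow] at this
    have e : Vg g B = ∏ p ∈ B, (1 - g p) := rfl
    linarith
  have hMU : 0 < ev c P g := lt_of_lt_of_le hVP h5
  have hev1 : ∀ y : ℕ → ℝ, ev (SvA_pr P B c (SvA_bw B b)) (P ∪ B) y = ev c P y * Gold.tr y B b := by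
    intro y
    rw [SvA_ev_pr hPB, SvA_ev_bw]
  have hev2 : ∀ y : ℕ → ℝ, ev (fun T => SvA_pr P B c' (SvA_bw B b) T -
      SvA_pr P B c (SvA_ew B (b + 1)) T) (P ∪ B) y =
      ev c' P y * Gold.tr y B b - ev c P y * Gold.es y B (b + 1) := by
    intro y
    rw [SvA_ev_sub, SvA_ev_pr hPB, SvA_ev_pr hPB, SvA_ev_bw, SvA_ev_ew]
  refine ⟨SvA_pr P B c (SvA_bw B b),
    fun T => SvA_pr P B c' (SvA_bw B b) T - SvA_pr P B c (SvA_ew B (b + 1)) T,
    SvA_Wt_pr hPB w1 (SvA_Wt_bw b hz hBz), ?_, ?_, ?_, ?_, ?_, ?_⟩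
  · apply SvA_Wt_sub (SvA_Wt_pr hPB w2 (SvA_Wt_bw b hz hBz)) (SvA_Wt_pr hPB w1 (SvA_Wt_ew (b + 1) hBz))
    intro T
    by_cases hc : (T ∩ B).card ≤ b
    · right
      unfold SvA_pr SvA_ew
      split_ifs with e1 e2
      · omega
      · rw [mul_zero]
      · rfl
    · left
      unfold SvA_pr SvA_bw
      split_ifs with e1 e2
      · exact absurd e2.2 hc
      · rw [mul_zero]
      · rfl
  · intro y hy
    have hu : ∀ p ∈ B, 0 ≤ y p ∧ y p ≤ 1 := fun p _ => SvA_ZO_bd hy p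
    have e1 : Vg y B ≤ Gold.tr y B b := Gold.bonferroni_even B hu hb
    rw [hev1, SvA_Vg_union hPB]
    exact mul_le_mul (h1 y hy) e1 (Vg_nonneg hy B) ((Vg_nonneg hy P).trans (h1 y hy))
  · intro y hy
    have hu : ∀ p ∈ B, 0 ≤ y p ∧ y p ≤ 1 := fun p _ => SvA_ZO_bd hy p
    rw [hev2, SvA_Vg_union hPB]
    have e1 : Vg y B ≤ Gold.tr y B b := Gold.bonferroni_even B hu hb
    have e2 : Gold.tr y B b - Gold.es y B (b + 1) ≤ Vg y B := by
      have := Gold.bonferroni_odd B hu (b := b + 1) hb.add_one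
      rw [Gold.tr_succ, hb.add_one.neg_one_pow] at this
      have e : Vg y B = ∏ p ∈ B, (1 - y p) := rfl
      linarith
    have e3 : 0 ≤ Gold.es y B (b + 1) := Gold.es_nonneg (fun p hp => (hu p hp).1) _
    have e4 := Vg_nonneg hy B
    have e5 := Vg_nonneg hy P
    have e6 : ev c' P y * Gold.tr y B b ≤ Vg y P * Gold.tr y B b :=
      mul_le_mul_of_nonneg_right (h2 y hy) (e4.trans e1)
    have e7 : Vg y P * Gold.es y B (b + 1) ≤ ev c P y * Gold.es y B (b + 1) :=
      mul_le_mul_of_nonneg_right (h1 y hy) e3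
    nlinarith [mul_le_mul_of_nonneg_left e2 e5]
  · rw [hev1, SvA_Vg_union hPB]
    exact mul_le_mul h5 t1 hVB.le hMU.le
  · rw [hev1, SvA_Vg_union hPB]
    have hF : 0 ≤ F * Vg g P := hMU.le.trans h6
    calc ev c P g * Gold.tr g B b ≤ (F * Vg g P) * ((1 + ε) * Vg g B) := by
          apply mul_le_mul h6 _ (hVB.le.trans t1) hF
          linarith
      _ = F * (1 + ε) * (Vg g P * Vg g B) := by ring
  · rw [hev1, hev2]
    have k1 : (1 - G) * ev c P g * Gold.tr g B b ≤ ev c' P g * Gold.tr g B b :=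
      mul_le_mul_of_nonneg_right h7 (hVB.le.trans t1)
    have k2 : Gold.es g B (b + 1) ≤ ε * Gold.tr g B b := hε.trans (mul_le_mul_of_nonneg_left t1 hε0)
    have k3 := mul_le_mul_of_nonneg_right k2 hMU.le
    nlinarith

/-- Buchstab, upper. -/
theorem Up_buchstab {g : ℕ → ℝ} {P : Finset ℕ} {D M w : ℝ} {m : ℕ → ℝ} (hg : ∀ p ∈ P, 0 ≤ g p)
    (hP : ∀ p ∈ P, 1 ≤ p) (h0 : Up g (P.filter (fun p : ℕ => (p : ℝ) ≤ w)) D M)
    (h1 : ∀ q ∈ P, w < (q : ℝ) → Lo g (P.filter (fun p => p < q)) (D / q) (m q)) :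
    Up g P D (M - ∑ q ∈ P.filter (fun q : ℕ => w < (q : ℝ)), g q * m q) := by
  obtain ⟨c₀, a1, a2, a3⟩ := h0
  have h1' : ∀ q : ℕ, ∃ c : Finset ℕ → ℝ, q ∈ P → w < (q : ℝ) →
      (Wt (P.filter (fun p => p < q)) (D / q) c ∧
        (∀ y, ZO y → ev c (P.filter (fun p => p < q)) y ≤ Vg y (P.filter (fun p => p < q))) ∧
        m q ≤ ev c (P.filter (fun p => p < q)) g) := by
    intro q
    by_cases hq : q ∈ P ∧ w < (q : ℝ)
    · obtain ⟨c, e1, e2, e3⟩ := h1 q hq.1 hq.2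
      exact ⟨c, fun _ _ => ⟨e1, e2, e3⟩⟩
    · exact ⟨fun _ => 0, fun e1 e2 => absurd ⟨e1, e2⟩ hq⟩
  choose cq hcq using h1'
  obtain ⟨c, b1, b2⟩ := SvA_buch_core hP a1 (fun q hq hw => (hcq q hq hw).1)
  refine ⟨c, b1, fun y hy => ?_, ?_⟩
  · rw [b2, SvA_Vg_buchstab y P w]
    apply sub_le_sub (a2 y hy)
    refine Finset.sum_le_sum fun q hq => ?_
    rw [Finset.mem_filter] at hq
    exact mul_le_mul_of_nonneg_left ((hcq q hq.1 hq.2).2.1 y hy) (SvA_ZO_bd hy q).1
  · rw [b2]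
    apply sub_le_sub a3
    refine Finset.sum_le_sum fun q hq => ?_
    rw [Finset.mem_filter] at hq
    exact mul_le_mul_of_nonneg_left (hcq q hq.1 hq.2).2.2 (hg q hq.1)

/-- Buchstab, lower. -/
theorem Lo_buchstab {g : ℕ → ℝ} {P : Finset ℕ} {D M w : ℝ} {m : ℕ → ℝ} (hg : ∀ p ∈ P, 0 ≤ g p)
    (hP : ∀ p ∈ P, 1 ≤ p) (h0 : Lo g (P.filter (fun p : ℕ => (p : ℝ) ≤ w)) D M)
    (h1 : ∀ q ∈ P, w < (q : ℝ) → Up g (P.filter (fun p => p < q)) (D / q) (m q)) :
    Lo g P D (M - ∑ q ∈ P.filter (fun q : ℕ => w < (q : ℝ)), g q * m q) := by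
  obtain ⟨c₀, a1, a2, a3⟩ := h0
  have h1' : ∀ q : ℕ, ∃ c : Finset ℕ → ℝ, q ∈ P → w < (q : ℝ) →
      (Wt (P.filter (fun p => p < q)) (D / q) c ∧
        (∀ y, ZO y → Vg y (P.filter (fun p => p < q)) ≤ ev c (P.filter (fun p => p < q)) y) ∧
        ev c (P.filter (fun p => p < q)) g ≤ m q) := by
    intro q
    by_cases hq : q ∈ P ∧ w < (q : ℝ)
    · obtain ⟨c, e1, e2, e3⟩ := h1 q hq.1 hq.2
      exact ⟨c, fun _ _ => ⟨e1, e2, e3⟩⟩
    · exact ⟨fun _ => 0, fun e1 e2 => absurd ⟨e1, e2⟩ hq⟩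
  choose cq hcq using h1'
  obtain ⟨c, b1, b2⟩ := SvA_buch_core hP a1 (fun q hq hw => (hcq q hq hw).1)
  refine ⟨c, b1, fun y hy => ?_, ?_⟩
  · rw [b2, SvA_Vg_buchstab y P w]
    apply sub_le_sub (a2 y hy)
    refine Finset.sum_le_sum fun q hq => ?_
    rw [Finset.mem_filter] at hq
    exact mul_le_mul_of_nonneg_left ((hcq q hq.1 hq.2).2.1 y hy) (SvA_ZO_bd hy q).1
  · rw [b2]
    apply sub_le_sub a3
    refine Finset.sum_le_sum fun q hq => ?_
    rw [Finset.mem_filter] at hq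
    exact mul_le_mul_of_nonneg_left (hcq q hq.1 hq.2).2.2 (hg q hq.1)

/-- The Buchstab identity for the product: telescoping over a range `(a, b]`. -/
theorem sum_g_V {g : ℕ → ℝ} (P : Finset ℕ) {a b : ℝ} (hab : a ≤ b) :
    ∑ q ∈ P.filter (fun q : ℕ => a < (q : ℝ) ∧ (q : ℝ) ≤ b), g q * Vg g (P.filter (fun p => p < q))
      = Vg g (P.filter (fun p : ℕ => (p : ℝ) ≤ a)) - Vg g (P.filter (fun p : ℕ => (p : ℝ) ≤ b)) := by
  rw [SvA_Vg_ordered_le, SvA_Vg_ordered_le]
  have h : ∑ q ∈ P.filter (fun q : ℕ => (q : ℝ) ≤ b), g q * Vg g (P.filter (fun p => p < q)) =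
      ∑ q ∈ P.filter (fun q : ℕ => (q : ℝ) ≤ a), g q * Vg g (P.filter (fun p => p < q)) +
      ∑ q ∈ P.filter (fun q : ℕ => a < (q : ℝ) ∧ (q : ℝ) ≤ b),
        g q * Vg g (P.filter (fun p => p < q)) := by
    rw [← Finset.sum_filter_add_sum_filter_not (P.filter (fun q : ℕ => (q : ℝ) ≤ b))
      (fun q : ℕ => (q : ℝ) ≤ a)]
    congr 1
    · refine Finset.sum_congr ?_ fun _ _ => rfl
      ext q
      rw [Finset.mem_filter, Finset.mem_filter, Finset.mem_filter]
      constructor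
      · rintro ⟨⟨e1, _⟩, e2⟩
        exact ⟨e1, e2⟩
      · rintro ⟨e1, e2⟩
        exact ⟨⟨e1, e2.trans hab⟩, e2⟩
    · refine Finset.sum_congr ?_ fun _ _ => rfl
      ext q
      rw [Finset.mem_filter, Finset.mem_filter, Finset.mem_filter, not_le]
      constructor
      · rintro ⟨⟨e1, e2⟩, e3⟩
        exact ⟨e1, e3, e2⟩
      · rintro ⟨e1, e2, e3⟩
        exact ⟨⟨e1, e3⟩, e2⟩
  rw [h]
  ring

end Pool.Agent.H91.PK

end

section

/-!
# IS AlgB: Selberg coefficients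

`lam P g y D = ∏_{e∈D} (-1/g e) · ∑_{D ⊆ R ⊆ P} y R ∏_{e∈R} f e`, `f = fo g = g/(1-g)`.
-/

set_option autoImplicit false

namespace Pool.Agent.H36.IS

open Finset

variable {α : Type*} [DecidableEq α]

theorem lam_sup {P : Finset α} {g : α → ℝ} {y : Finset α → ℝ} {D : Finset α} (h : lam P g y D ≠ 0) :
    ∃ R, D ⊆ R ∧ R ⊆ P ∧ y R ≠ 0 := by
  unfold lam at h
  obtain ⟨R, hR, hR2⟩ := Finset.exists_ne_zero_of_sum_ne_zero (right_ne_zero_of_mul h)
  have hDR : D ⊆ R := by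
    by_contra hne
    exact hR2 (if_neg hne)
  rw [if_pos hDR] at hR2
  exact ⟨R, hDR, Finset.mem_powerset.1 hR, left_ne_zero_of_mul hR2⟩

/-- a sum over `D ⊆ P` restricted to `D ⊆ R` is a sum over the subsets of `R` -/
theorem AlgB_sum_sub {P R : Finset α} (hR : R ⊆ P) (F : Finset α → ℝ) :
    ∑ D ∈ P.powerset, (if D ⊆ R then F D else 0) = ∑ D ∈ R.powerset, F D := by
  rw [← Finset.sum_filter]
  refine Finset.sum_congr ?_ fun _ _ => rfl
  ext D
  simp only [Finset.mem_filter, Finset.mem_powerset]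
  exact ⟨fun h => h.2, fun h => ⟨h.trans hR, h⟩⟩

theorem Ev_lam {P : Finset α} {g : α → ℝ} (hg : ∀ e ∈ P, 0 < g e ∧ g e < 1) (y : Finset α → ℝ) (v : α → ℝ) :
    Ev P (lam P g y) v = ∑ R ∈ P.powerset, y R * ∏ e ∈ R, (fo g e * (1 - v e / g e)) := by
  have _ := hg
  unfold Ev lam
  have h1 : ∀ D ∈ P.powerset, ((∏ e ∈ D, (-(1 / g e))) * ∑ R ∈ P.powerset,
      if D ⊆ R then y R * ∏ e ∈ R, fo g e else 0) * ∏ e ∈ D, v e
      = ∑ R ∈ P.powerset, if D ⊆ R then (y R * ∏ e ∈ R, fo g e) * ∏ e ∈ D, (-(v e / g e)) else 0 := by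
    intro D _
    rw [mul_assoc, mul_comm (∑ R ∈ P.powerset, _) _, ← mul_assoc, ← Finset.prod_mul_distrib,
      Finset.mul_sum]
    refine Finset.sum_congr rfl fun R _ => ?_
    split_ifs with hDR
    · rw [mul_comm]
      congr 1
      refine Finset.prod_congr rfl fun e _ => ?_
      ring
    · rw [mul_zero]
  rw [Finset.sum_congr rfl h1, Finset.sum_comm]
  refine Finset.sum_congr rfl fun R hR => ?_
  rw [AlgB_sum_sub (Finset.mem_powerset.1 hR), ← Finset.mul_sum, ← Finset.prod_one_add,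
    Finset.prod_mul_distrib, mul_assoc]
  rfl

theorem AlgB_alt (R R' : Finset α) :
    ∑ B ∈ R'.powerset, (if R ⊆ B then ∏ _e ∈ B, (-1 : ℝ) else 0)
      = if R = R' then ∏ _e ∈ R, (-1 : ℝ) else 0 := by
  by_cases hRR : R ⊆ R'
  · have h1 : ∀ B ∈ R'.powerset, (if R ⊆ B then ∏ _e ∈ B, (-1 : ℝ) else 0)
        = (∏ _e ∈ B, (-1 : ℝ)) * ∏ e ∈ R' \ B, (if e ∈ R then (0 : ℝ) else 1) := by
      intro B hB
      split_ifs with hRB
      · rw [Finset.prod_eq_one (s := R' \ B), mul_one]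
        intro e he
        rw [if_neg]
        intro heR
        exact (Finset.mem_sdiff.1 he).2 (hRB heR)
      · obtain ⟨e, heR, heB⟩ := Finset.not_subset.1 hRB
        have h0 : ∏ e ∈ R' \ B, (if e ∈ R then (0 : ℝ) else 1) = 0 :=
          Finset.prod_eq_zero (Finset.mem_sdiff.2 ⟨hRR heR, heB⟩) (if_pos heR)
        rw [h0, mul_zero]
    rw [Finset.sum_congr rfl h1, ← Finset.prod_add]
    split_ifs with hEq
    · subst hEq
      refine Finset.prod_congr rfl fun e he => ?_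
      rw [if_pos he, add_zero]
    · have hne : ¬ R' ⊆ R := fun h => hEq (Finset.Subset.antisymm hRR h)
      obtain ⟨e, heR', heR⟩ := Finset.not_subset.1 hne
      refine Finset.prod_eq_zero heR' ?_
      rw [if_neg heR]
      norm_num
  · rw [if_neg (fun h : R = R' => hRR h.le)]
    refine Finset.sum_eq_zero fun B hB => ?_
    rw [if_neg]
    intro h
    exact hRR (h.trans (Finset.mem_powerset.1 hB))

theorem AlgB_lam_sum {P : Finset α} {g : α → ℝ} (hg : ∀ e ∈ P, 0 < g e ∧ g e < 1) (y : Finset α → ℝ)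
    {R : Finset α} (hR : R ⊆ P) :
    ∑ B ∈ P.powerset, (if R ⊆ B then lam P g y B * ∏ e ∈ B, g e else 0)
      = (∏ _e ∈ R, (-1 : ℝ)) * (y R * ∏ e ∈ R, fo g e) := by
  have h1 : ∀ B ∈ P.powerset, (if R ⊆ B then lam P g y B * ∏ e ∈ B, g e else 0)
      = ∑ R' ∈ P.powerset, if B ⊆ R' then
          (y R' * ∏ e ∈ R', fo g e) * (if R ⊆ B then ∏ _e ∈ B, (-1 : ℝ) else 0) else 0 := by
    intro B hB
    split_ifs with hRB
    · unfold lam
      rw [mul_assoc, mul_comm (∑ R ∈ P.powerset, _) _, ← mul_assoc, ← Finset.prod_mul_distrib,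
        Finset.mul_sum]
      refine Finset.sum_congr rfl fun R' _ => ?_
      split_ifs with hDR
      · rw [mul_comm]
        congr 1
        refine Finset.prod_congr rfl fun e he => ?_
        have := (hg e (Finset.mem_powerset.1 hB he)).1.ne'
        field_simp
      · rw [mul_zero]
    · symm
      refine Finset.sum_eq_zero fun R' _ => ?_
      split_ifs
      · rw [mul_zero]
      · rfl
  rw [Finset.sum_congr rfl h1, Finset.sum_comm]
  have h2 : ∀ R' ∈ P.powerset, ∑ B ∈ P.powerset, (if B ⊆ R' then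
          (y R' * ∏ e ∈ R', fo g e) * (if R ⊆ B then ∏ _e ∈ B, (-1 : ℝ) else 0) else 0)
      = if R = R' then (y R' * ∏ e ∈ R', fo g e) * ∏ _e ∈ R, (-1 : ℝ) else 0 := by
    intro R' hR'
    rw [AlgB_sum_sub (Finset.mem_powerset.1 hR'), ← Finset.mul_sum, AlgB_alt]
    split_ifs
    · rfl
    · rw [mul_zero]
  rw [Finset.sum_congr rfl h2, Finset.sum_ite_eq, if_pos (Finset.mem_powerset.2 hR)]
  ring

theorem EE_lam {P : Finset α} {g : α → ℝ} (hg : ∀ e ∈ P, 0 < g e ∧ g e < 1) (y y' : Finset α → ℝ) :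
    Ev P (uc P (lam P g y) (lam P g y')) g = ∑ R ∈ P.powerset, y R * y' R * ∏ e ∈ R, fo g e := by
  -- as a double sum
  have h0 : Ev P (uc P (lam P g y) (lam P g y')) g =
      ∑ B ∈ P.powerset, ∑ A ∈ P.powerset, lam P g y A * lam P g y' B * ∏ e ∈ A ∪ B, g e := by
    unfold Ev
    unfold uc
    simp only [Finset.sum_mul]
    rw [Finset.sum_comm, Finset.sum_comm (s := P.powerset) (t := P.powerset) (f := fun B A =>
      lam P g y A * lam P g y' B * ∏ e ∈ A ∪ B, g e)]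
    refine Finset.sum_congr rfl fun A hA => ?_
    rw [Finset.sum_comm]
    refine Finset.sum_congr rfl fun B hB => ?_
    rw [Finset.sum_eq_single (A ∪ B)]
    · rw [if_pos rfl]
    · intro Q _ hQ
      rw [if_neg (fun h => hQ h.symm), zero_mul]
    · intro hAB
      exact absurd (Finset.mem_powerset.2 (Finset.union_subset (Finset.mem_powerset.1 hA)
        (Finset.mem_powerset.1 hB))) hAB
  rw [h0]
  -- the inner sum
  have h1 : ∀ B ∈ P.powerset, ∑ A ∈ P.powerset, lam P g y A * lam P g y' B * ∏ e ∈ A ∪ B, g e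
      = ∑ R ∈ P.powerset, (y R * ∏ _e ∈ R, (-1 : ℝ)) *
          (if R ⊆ B then lam P g y' B * ∏ e ∈ B, g e else 0) := by
    intro B hB
    have h2 : ∀ A ∈ P.powerset, lam P g y A * lam P g y' B * ∏ e ∈ A ∪ B, g e
        = (lam P g y' B * ∏ e ∈ B, g e) *
          (lam P g y A * ∏ e ∈ A, (if e ∈ B then 1 else g e)) := by
      intro A _
      have h3 : ∏ e ∈ A ∪ B, g e = (∏ e ∈ B, g e) * ∏ e ∈ A, (if e ∈ B then 1 else g e) := by
        rw [Finset.prod_ite, Finset.prod_const_one, one_mul, mul_comm]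
        have h4 : A ∪ B = (A.filter (fun e => e ∉ B)) ∪ B := by
          ext e
          simp only [Finset.mem_union, Finset.mem_filter]
          tauto
        rw [h4, Finset.prod_union]
        rw [Finset.disjoint_left]
        intro e he
        exact (Finset.mem_filter.1 he).2
      rw [h3]
      ring
    rw [Finset.sum_congr rfl h2, ← Finset.mul_sum]
    have h5 := Ev_lam hg y (fun e => if e ∈ B then 1 else g e)
    unfold Ev at h5
    rw [h5, Finset.mul_sum]
    refine Finset.sum_congr rfl fun R hR => ?_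
    split_ifs with hRB
    · have h6 : ∏ e ∈ R, (fo g e * (1 - (if e ∈ B then 1 else g e) / g e)) = ∏ _e ∈ R, (-1 : ℝ) := by
        refine Finset.prod_congr rfl fun e he => ?_
        rw [if_pos (hRB he)]
        obtain ⟨h7, h8⟩ := hg e (Finset.mem_powerset.1 hR he)
        unfold fo
        have h9 : 1 - g e ≠ 0 := by linarith
        have h10 := h7.ne'
        field_simp
        ring
      rw [h6]
      ring
    · obtain ⟨e, heR, heB⟩ := Finset.not_subset.1 hRB
      have h6 : ∏ e ∈ R, (fo g e * (1 - (if e ∈ B then 1 else g e) / g e)) = 0 := by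
        refine Finset.prod_eq_zero heR ?_
        rw [if_neg heB, div_self (hg e (Finset.mem_powerset.1 hR heR)).1.ne', sub_self, mul_zero]
      rw [h6]
      ring
  rw [Finset.sum_congr rfl h1, Finset.sum_comm]
  refine Finset.sum_congr rfl fun R hR => ?_
  rw [← Finset.mul_sum, AlgB_lam_sum hg y' (Finset.mem_powerset.1 hR)]
  have h7 : (∏ _e ∈ R, (-1 : ℝ)) * ∏ _e ∈ R, (-1 : ℝ) = 1 := by
    rw [← Finset.prod_mul_distrib]
    exact Finset.prod_eq_one fun _ _ => by norm_num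
  calc y R * (∏ _e ∈ R, (-1 : ℝ)) * ((∏ _e ∈ R, (-1 : ℝ)) * (y' R * ∏ e ∈ R, fo g e))
      = ((∏ _e ∈ R, (-1 : ℝ)) * ∏ _e ∈ R, (-1 : ℝ)) * (y R * y' R * ∏ e ∈ R, fo g e) := by ring
    _ = y R * y' R * ∏ e ∈ R, fo g e := by rw [h7, one_mul]

end Pool.Agent.H36.IS

end

section

/-!
# IS AlgC: summing out atoms and Selberg extension
-/

set_option autoImplicit false

namespace Pool.Agent.H36.IS

open Finset

variable {α : Type*} [DecidableEq α]

theorem AlgC_split {P S : Finset α} (hS : S ⊆ P) (F : Finset α → ℝ) :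
    ∑ R ∈ P.powerset, F R = ∑ R ∈ (P \ S).powerset, ∑ A ∈ S.powerset, F (R ∪ A) := by
  rw [← Finset.sum_product']
  symm
  refine Finset.sum_bij' (fun p _ => p.1 ∪ p.2) (fun X _ => (X \ S, X ∩ S)) ?_ ?_ ?_ ?_ ?_
  · intro p hp
    obtain ⟨h1, h2⟩ := Finset.mem_product.1 hp
    exact Finset.mem_powerset.2 (Finset.union_subset
      ((Finset.mem_powerset.1 h1).trans Finset.sdiff_subset) ((Finset.mem_powerset.1 h2).trans hS))
  · intro X hX
    refine Finset.mem_product.2 ⟨Finset.mem_powerset.2 ?_, Finset.mem_powerset.2 Finset.inter_subset_right⟩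
    exact Finset.sdiff_subset_sdiff (Finset.mem_powerset.1 hX) (Finset.Subset.refl _)
  · intro p hp
    obtain ⟨h1, h2⟩ := Finset.mem_product.1 hp
    have h1' := Finset.mem_powerset.1 h1
    have h2' := Finset.mem_powerset.1 h2
    ext e
    · simp only [Finset.mem_sdiff, Finset.mem_union]
      constructor
      · rintro ⟨h3 | h3, h4⟩
        · exact h3
        · exact absurd (h2' h3) h4
      · intro h3
        exact ⟨Or.inl h3, (Finset.mem_sdiff.1 (h1' h3)).2⟩
    · simp only [Finset.mem_inter, Finset.mem_union]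
      constructor
      · rintro ⟨h3 | h3, h4⟩
        · exact absurd h4 (Finset.mem_sdiff.1 (h1' h3)).2
        · exact h3
      · intro h3
        exact ⟨Or.inr h3, h2' h3⟩
  · intro X _
    exact Finset.sdiff_union_inter X S
  · intro p _
    rfl

theorem AlgC_mem {P S R : Finset α} (hR : R ∈ (P \ S).powerset) : Disjoint R S := by
  rw [Finset.disjoint_left]
  intro e he
  exact (Finset.mem_sdiff.1 (Finset.mem_powerset.1 hR he)).2

theorem AlgC_sdiff {S R A : Finset α} (hR : Disjoint R S) (hA : A ⊆ S) : (R ∪ A) \ S = R := by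
  ext e
  simp only [Finset.mem_sdiff, Finset.mem_union]
  constructor
  · rintro ⟨h3 | h3, h4⟩
    · exact h3
    · exact absurd (hA h3) h4
  · intro h3
    exact ⟨Or.inl h3, Finset.disjoint_left.1 hR h3⟩

theorem AlgC_inter {S R A : Finset α} (hR : Disjoint R S) (hA : A ⊆ S) : (R ∪ A) ∩ S = A := by
  ext e
  simp only [Finset.mem_inter, Finset.mem_union]
  constructor
  · rintro ⟨h3 | h3, h4⟩
    · exact absurd h4 (Finset.disjoint_left.1 hR h3)
    · exact h3
  · intro h3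
    exact ⟨Or.inr h3, hA h3⟩

theorem AlgC_prod {S R A : Finset α} (hR : Disjoint R S) (hA : A ⊆ S) (f : α → ℝ) :
    ∏ e ∈ R ∪ A, f e = (∏ e ∈ R, f e) * ∏ e ∈ A, f e :=
  Finset.prod_union (Finset.disjoint_of_subset_right hA hR)

theorem pr_disj {S : Finset α} {f : α → ℝ} {y : Finset α → ℝ} {R : Finset α} (h : pr S f y R ≠ 0) :
    Disjoint R S ∧ ∃ A, A ⊆ S ∧ y (R ∪ A) ≠ 0 := by
  unfold pr at h
  have hd : Disjoint R S := by
    by_contra hne
    exact h (if_neg hne)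
  rw [if_pos hd] at h
  obtain ⟨A, hA, hA2⟩ := Finset.exists_ne_zero_of_sum_ne_zero h
  exact ⟨hd, A, Finset.mem_powerset.1 hA, left_ne_zero_of_mul hA2⟩

theorem Ev_lam_pr {P S : Finset α} (hS : S ⊆ P) {g : α → ℝ} (hg : ∀ e ∈ P, 0 < g e ∧ g e < 1) (y : Finset α → ℝ)
    {v : α → ℝ} (hv : ∀ e ∈ S, v e = 0) :
    Ev P (lam P g (pr S (fo g) y)) v = Ev P (lam P g y) v := by
  rw [Ev_lam hg, Ev_lam hg, AlgC_split hS, AlgC_split hS]
  refine Finset.sum_congr rfl fun R hR => ?_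
  have hd := AlgC_mem hR
  -- the left side: only `A = ∅`
  rw [Finset.sum_eq_single (∅ : Finset α)]
  · rw [Finset.union_empty]
    unfold pr
    rw [if_pos hd, Finset.sum_mul]
    refine Finset.sum_congr rfl fun A hA => ?_
    rw [AlgC_prod hd (Finset.mem_powerset.1 hA)]
    have h1 : ∏ e ∈ A, (fo g e * (1 - v e / g e)) = ∏ e ∈ A, fo g e := by
      refine Finset.prod_congr rfl fun e he => ?_
      rw [hv e (Finset.mem_powerset.1 hA he), zero_div, sub_zero, mul_one]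
    rw [h1]
    ring
  · intro A hA hne
    unfold pr
    rw [if_neg, zero_mul]
    intro hd2
    obtain ⟨e, he⟩ := Finset.nonempty_iff_ne_empty.2 hne
    exact Finset.disjoint_left.1 hd2 (Finset.mem_union_right _ he) (Finset.mem_powerset.1 hA he)
  · intro h
    exact absurd (Finset.empty_mem_powerset _) h

theorem pr_ext {S : Finset α} {Z : Finset α → ℝ} {T : ℝ} {v : Finset α → ℝ} {f : α → ℝ} (hT : T ≠ 0)
    (hTT : ∑ A ∈ S.powerset, Z A * ∏ e ∈ A, f e = T) (hv : ∀ R, v R ≠ 0 → Disjoint R S) :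
    pr S f (ext S Z T v) = v := by
  funext R
  unfold pr ext
  split_ifs with hd
  · have h1 : ∀ A ∈ S.powerset, v ((R ∪ A) \ S) * Z ((R ∪ A) ∩ S) / T * ∏ e ∈ A, f e
        = (v R / T) * (Z A * ∏ e ∈ A, f e) := by
      intro A hA
      rw [AlgC_sdiff hd (Finset.mem_powerset.1 hA), AlgC_inter hd (Finset.mem_powerset.1 hA)]
      ring
    rw [Finset.sum_congr rfl h1, ← Finset.mul_sum, hTT]
    field_simp
  · by_contra hne
    exact hd (hv R (fun h => hne h.symm))

theorem MM_ext {P S : Finset α} (hS : S ⊆ P) {Z : Finset α → ℝ} {T : ℝ} {v : Finset α → ℝ} {f : α → ℝ}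
    (hZ : ∀ A, Z A = 0 ∨ Z A = 1) (hT : T ≠ 0) (hTT : ∑ A ∈ S.powerset, Z A * ∏ e ∈ A, f e = T)
    (hv : ∀ R, v R ≠ 0 → Disjoint R S) :
    MM P f (ext S Z T v) = MM P f v / T := by
  unfold MM
  rw [AlgC_split hS, AlgC_split hS, Finset.sum_div]
  refine Finset.sum_congr rfl fun R hR => ?_
  have hd := AlgC_mem hR
  have h1 : ∀ A ∈ S.powerset, ext S Z T v (R ∪ A) ^ 2 * ∏ e ∈ R ∪ A, f e
      = (v R ^ 2 * (∏ e ∈ R, f e) / T ^ 2) * (Z A * ∏ e ∈ A, f e) := by
    intro A hA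
    have hA' := Finset.mem_powerset.1 hA
    unfold ext
    rw [AlgC_sdiff hd hA', AlgC_inter hd hA', AlgC_prod hd hA']
    have h2 : Z A ^ 2 = Z A := by
      rcases hZ A with h | h <;> rw [h] <;> norm_num
    calc (v R * Z A / T) ^ 2 * ((∏ e ∈ R, f e) * ∏ e ∈ A, f e)
        = (v R ^ 2 * (∏ e ∈ R, f e) / T ^ 2) * (Z A ^ 2 * ∏ e ∈ A, f e) := by ring
      _ = _ := by rw [h2]
  rw [Finset.sum_congr rfl h1, ← Finset.mul_sum, hTT, Finset.sum_eq_single (∅ : Finset α)]
  · rw [Finset.union_empty]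
    field_simp
  · intro A hA hne
    have : v (R ∪ A) = 0 := by
      by_contra h3
      obtain ⟨e, he⟩ := Finset.nonempty_iff_ne_empty.2 hne
      exact Finset.disjoint_left.1 (hv _ h3) (Finset.mem_union_right _ he)
        (Finset.mem_powerset.1 hA he)
    rw [this]
    ring
  · intro h
    exact absurd (Finset.empty_mem_powerset _) h

end Pool.Agent.H36.IS

end

section

/-!
# IS AlgA: arrays over finite sets of atoms

`Ev P c y = ∑_{T ⊆ P} c T ∏_{e∈T} y e`.
-/

set_option autoImplicit false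

namespace Pool.Agent.H36.IS

open Finset

variable {α : Type*} [DecidableEq α]

theorem Ev_sup {P P' : Finset α} (hP : P ⊆ P') {c : Finset α → ℝ} (hc : ∀ Q, c Q ≠ 0 → Q ⊆ P) (y : α → ℝ) :
    Ev P' c y = Ev P c y := by
  unfold Ev
  symm
  refine Finset.sum_subset (Finset.powerset_mono.2 hP) ?_
  intro T _ hT
  have : c T = 0 := by
    by_contra hne
    exact hT (Finset.mem_powerset.2 (hc T hne))
  rw [this, zero_mul]

theorem uc_sup {P P1 P2 : Finset α} {c d : Finset α → ℝ} (hc : ∀ Q, c Q ≠ 0 → Q ⊆ P1) (hd : ∀ Q, d Q ≠ 0 → Q ⊆ P2)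
    (Q : Finset α) (h : uc P c d Q ≠ 0) : Q ⊆ P1 ∪ P2 ∧ Q ⊆ P := by
  unfold uc at h
  obtain ⟨A, hA, hA2⟩ := Finset.exists_ne_zero_of_sum_ne_zero h
  obtain ⟨B, hB, hB2⟩ := Finset.exists_ne_zero_of_sum_ne_zero hA2
  have hAB : A ∪ B = Q := by
    by_contra hne
    exact hB2 (if_neg hne)
  rw [if_pos hAB] at hB2
  have h1 : c A ≠ 0 := left_ne_zero_of_mul hB2
  have h2 : d B ≠ 0 := right_ne_zero_of_mul hB2
  rw [← hAB]
  exact ⟨Finset.union_subset_union (hc A h1) (hd B h2),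
    Finset.union_subset (Finset.mem_powerset.1 hA) (Finset.mem_powerset.1 hB)⟩

/-- `Ev` of a union convolution as a double sum -/
theorem AlgA_Ev_uc_eq (P : Finset α) (c d : Finset α → ℝ) (y : α → ℝ) :
    Ev P (uc P c d) y =
      ∑ A ∈ P.powerset, ∑ B ∈ P.powerset, c A * d B * ∏ e ∈ A ∪ B, y e := by
  unfold Ev uc
  simp only [Finset.sum_mul]
  rw [Finset.sum_comm]
  refine Finset.sum_congr rfl fun A hA => ?_
  rw [Finset.sum_comm]
  refine Finset.sum_congr rfl fun B hB => ?_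
  rw [Finset.sum_eq_single (A ∪ B)]
  · rw [if_pos rfl]
  · intro Q _ hQ
    rw [if_neg (fun h => hQ h.symm), zero_mul]
  · intro hAB
    exact absurd (Finset.mem_powerset.2 (Finset.union_subset (Finset.mem_powerset.1 hA)
      (Finset.mem_powerset.1 hB))) hAB

theorem AlgA_prod_union {A B : Finset α} {y : α → ℝ} (hy : ∀ e ∈ A ∪ B, y e = 0 ∨ y e = 1) :
    ∏ e ∈ A ∪ B, y e = (∏ e ∈ A, y e) * ∏ e ∈ B, y e := by
  by_cases h : ∀ e ∈ A ∪ B, y e = 1
  · rw [Finset.prod_eq_one h, Finset.prod_eq_one (fun e he => h e (Finset.mem_union_left _ he)),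
      Finset.prod_eq_one (fun e he => h e (Finset.mem_union_right _ he)), one_mul]
  · push Not at h
    obtain ⟨e, he, h1⟩ := h
    have h0 : y e = 0 := (hy e he).resolve_right h1
    rw [Finset.prod_eq_zero he h0]
    rcases Finset.mem_union.1 he with h2 | h2
    · rw [Finset.prod_eq_zero h2 h0, zero_mul]
    · rw [Finset.prod_eq_zero h2 h0, mul_zero]

theorem Ev_uc {P : Finset α} (c d : Finset α → ℝ) {y : α → ℝ} (hy : ∀ e ∈ P, y e = 0 ∨ y e = 1) :
    Ev P (uc P c d) y = Ev P c y * Ev P d y := by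
  rw [AlgA_Ev_uc_eq]
  unfold Ev
  rw [Finset.sum_mul_sum]
  refine Finset.sum_congr rfl fun A hA => Finset.sum_congr rfl fun B hB => ?_
  rw [AlgA_prod_union (fun e he => hy e (Finset.union_subset (Finset.mem_powerset.1 hA)
    (Finset.mem_powerset.1 hB) he))]
  ring

theorem Ev_uc_disj {P P1 P2 : Finset α} (h1 : P1 ⊆ P) (h2 : P2 ⊆ P) (h12 : Disjoint P1 P2) {c d : Finset α → ℝ}
    (hc : ∀ Q, c Q ≠ 0 → Q ⊆ P1) (hd : ∀ Q, d Q ≠ 0 → Q ⊆ P2) (g : α → ℝ) :
    Ev P (uc P c d) g = Ev P1 c g * Ev P2 d g := by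
  rw [AlgA_Ev_uc_eq, ← Ev_sup h1 hc, ← Ev_sup h2 hd]
  unfold Ev
  rw [Finset.sum_mul_sum]
  refine Finset.sum_congr rfl fun A _ => Finset.sum_congr rfl fun B _ => ?_
  by_cases hA : c A = 0
  · rw [hA]
    ring
  by_cases hB : d B = 0
  · rw [hB]
    ring
  have hdis : Disjoint A B := Finset.disjoint_of_subset_left (hc A hA)
    (Finset.disjoint_of_subset_right (hd B hB) h12)
  rw [Finset.prod_union hdis]
  ring

end Pool.Agent.H36.IS

end

section

/-!
# IS GL: lower bound for rough sums (elementary, no error term)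

`GG_low`: for 0 ≤ t ≤ δ log x:  A0 x · t ≤ GG (PZ x δ) t,
GG P t = ∑_{S ⊆ P, lg S ≤ t} ∏_{p∈S} 1/(p-1), PZ x δ = primes in (z0, x^δ], A0 = ∏_{p ≤ z0} (1-1/p).

Proof.  Let y = e^t ≤ x^δ ≤ x.  t = log y ≤ ∑_{n ≤ y} 1/n.  Write n = a m with a composed of primes ≤ z0 and m composed of
primes > z0 (both ≤ y): ∑_{n≤y} 1/n ≤ (∑_{a ≤ y, z0-smooth} 1/a)(∑_{m ≤ y, rough} 1/m), the first factor is
≤ ∏_{p ≤ z0} (1-1/p)^{-1} = A0^{-1} (finite product of geometric series), and
∑_{m ≤ y rough} 1/m ≤ ∑_{S ⊆ PZ x δ, lg S ≤ t} ∏_{p∈S} (1/p + 1/p² + ...) = GG (PZ x δ) t : group m by its set S of prime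
factors; lg S ≤ log m ≤ t, and all primes of m are ≤ y ≤ x^δ.
(Mathlib: `Nat.smoothNumbers`, `EulerProduct.*`, `Nat.primeFactors`; or induction on the finite set of primes:
for finite sets of primes Q, ∑_{n ≤ y, primeFactors n ⊆ Q} 1/n ≤ ∏_{Q}(1-1/p)^{-1}.)
-/

set_option autoImplicit false

namespace Pool.Agent.H36.IS

open Finset Filter

private noncomputable def GL_f : ℕ →* ℝ where
  toFun n := (n : ℝ)⁻¹
  map_one' := by simp
  map_mul' a b := by
    push_cast
    rw [mul_inv]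

private theorem GL_R {Q A : Finset ℕ} (hQ : ∀ p ∈ Q, p.Prime)
    (hA : ∀ n ∈ A, n ≠ 0 ∧ n.primeFactors ⊆ Q) :
    ∑ n ∈ A, (n : ℝ)⁻¹ ≤ ∏ p ∈ Q, (1 - (p : ℝ)⁻¹)⁻¹ := by
  have h : ∀ {p : ℕ}, p.Prime → ‖GL_f p‖ < 1 := by
    intro p hp
    have h2 : (2 : ℝ) ≤ p := by exact_mod_cast hp.two_le
    show ‖(p : ℝ)⁻¹‖ < 1
    rw [norm_inv, Real.norm_natCast]
    exact inv_lt_one_of_one_lt₀ (by linarith)
  have h1 := (EulerProduct.summable_and_hasSum_factoredNumbers_prod_filter_prime_geometric h Q).2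
  have h2 : HasSum ((Nat.factoredNumbers Q).indicator fun n => GL_f n)
      (∏ p ∈ Q with p.Prime, (1 - GL_f p)⁻¹) :=
    hasSum_subtype_iff_indicator.mp h1
  have h3 : Q.filter Nat.Prime = Q := filter_true_of_mem hQ
  rw [h3] at h2
  have h5 : ∀ n : ℕ, 0 ≤ (Nat.factoredNumbers Q).indicator (fun n => GL_f n) n := by
    intro n
    apply Set.indicator_nonneg
    intro m _
    show (0 : ℝ) ≤ ((m : ℕ) : ℝ)⁻¹
    exact inv_nonneg.mpr (Nat.cast_nonneg _)
  have h4 := sum_le_hasSum A (fun n _ => h5 n) h2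
  refine le_trans (le_of_eq ?_) h4
  refine sum_congr rfl (fun n hn => ?_)
  rw [Set.indicator_of_mem (Nat.mem_factoredNumbers_iff_primeFactors_subset.mpr (hA n hn))]
  rfl

private theorem GL_S {P S A : Finset ℕ} (hP : ∀ p ∈ P, p.Prime) (hS : ∀ p ∈ S, p.Prime)
    (hPS : Disjoint P S) (hA : ∀ n ∈ A, n ≠ 0 ∧ n.primeFactors \ P = S) :
    ∑ n ∈ A, (n : ℝ)⁻¹ ≤ (∏ p ∈ P, (1 - (p : ℝ)⁻¹)⁻¹) * ∏ p ∈ S, fn p := by
  have hD0 : 0 < ∏ p ∈ S, p := prod_pos (fun p hp => (hS p hp).pos)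
  have hdvd : ∀ n ∈ A, (∏ p ∈ S, p) ∣ n := by
    intro n hn
    have h1 : S ⊆ n.primeFactors := by
      rw [← (hA n hn).2]
      exact sdiff_subset
    exact (prod_dvd_prod_of_subset S n.primeFactors (fun p => p) h1).trans
      (Nat.prod_primeFactors_dvd n)
  have hinj : Set.InjOn (fun n => n / ∏ p ∈ S, p) (A : Set ℕ) := by
    intro a ha b hb hab
    have h1 : a / (∏ p ∈ S, p) = b / (∏ p ∈ S, p) := hab
    have h2 := Nat.div_mul_cancel (hdvd a ha)
    have h3 := Nat.div_mul_cancel (hdvd b hb)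
    rw [← h2, ← h3, h1]
  have h1 : ∑ n ∈ A, (n : ℝ)⁻¹ = (∏ p ∈ S, (p : ℝ)⁻¹) *
      ∑ m ∈ A.image (fun n => n / ∏ p ∈ S, p), (m : ℝ)⁻¹ := by
    rw [sum_image hinj, mul_sum]
    refine sum_congr rfl (fun n hn => ?_)
    rw [prod_inv_distrib, ← mul_inv]
    congr 1
    rw [← Nat.cast_prod, ← Nat.cast_mul, mul_comm, Nat.div_mul_cancel (hdvd n hn)]
  have h2 : ∑ m ∈ A.image (fun n => n / ∏ p ∈ S, p), (m : ℝ)⁻¹ ≤
      ∏ p ∈ P ∪ S, (1 - (p : ℝ)⁻¹)⁻¹ := by
    apply GL_R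
    · intro p hp
      rcases mem_union.mp hp with h | h
      · exact hP p h
      · exact hS p h
    · intro m hm
      obtain ⟨n, hn, rfl⟩ := mem_image.mp hm
      have h3 : n / (∏ p ∈ S, p) ∣ n := Nat.div_dvd_of_dvd (hdvd n hn)
      have h4 : n / (∏ p ∈ S, p) ≠ 0 := by
        intro h0
        rw [h0] at h3
        exact (hA n hn).1 (zero_dvd_iff.mp h3)
      refine ⟨h4, (Nat.primeFactors_mono h3 (hA n hn).1).trans ?_⟩
      intro p hp
      by_cases hpP : p ∈ P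
      · exact mem_union_left _ hpP
      · apply mem_union_right
        rw [← (hA n hn).2]
        exact mem_sdiff.mpr ⟨hp, hpP⟩
  have h5 : ∏ p ∈ S, (p : ℝ)⁻¹ * (1 - (p : ℝ)⁻¹)⁻¹ = ∏ p ∈ S, fn p := by
    refine prod_congr rfl (fun p hp => ?_)
    have h2 : (2 : ℝ) ≤ p := by exact_mod_cast (hS p hp).two_le
    have h3 : (p : ℝ) ≠ 0 := by linarith
    have h4 : (p : ℝ) - 1 ≠ 0 := by linarith
    unfold fn
    rw [← mul_inv, one_div]
    congr 1
    field_simp
  calc ∑ n ∈ A, (n : ℝ)⁻¹ ≤ (∏ p ∈ S, (p : ℝ)⁻¹) * ∏ p ∈ P ∪ S, (1 - (p : ℝ)⁻¹)⁻¹ := by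
        rw [h1]
        exact mul_le_mul_of_nonneg_left h2
          (prod_nonneg (fun p _ => inv_nonneg.mpr (Nat.cast_nonneg p)))
    _ = (∏ p ∈ P, (1 - (p : ℝ)⁻¹)⁻¹) * ∏ p ∈ S, fn p := by
        rw [prod_union hPS, ← h5, prod_mul_distrib]
        ring

theorem GG_low : ∀ᶠ x : ℕ in atTop, ∀ δ : ℝ, 0 < δ → δ ≤ 1 → ∀ t : ℝ, 0 ≤ t → t ≤ δ * Real.log x →
    A0 x * t ≤ GG (PZ x δ) t := by
  filter_upwards [eventually_ge_atTop 1] with x hx δ hδ hδ1 t ht htx
  have hx1 : (1 : ℝ) ≤ x := by exact_mod_cast hx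
  have hx0 : (0 : ℝ) < x := by linarith
  have hlog : 0 ≤ Real.log x := Real.log_nonneg hx1
  set N := ⌊Real.exp t⌋₊ with hN
  have hNt : (N : ℝ) ≤ Real.exp t := Nat.floor_le (Real.exp_pos t).le
  have hNt' : Real.exp t < N + 1 := Nat.lt_floor_add_one _
  have hy : Real.exp t ≤ (x : ℝ) ^ δ := by
    rw [Real.rpow_def_of_pos hx0]
    apply Real.exp_le_exp.mpr
    linarith
  have hyx : Real.exp t ≤ x := by
    calc Real.exp t ≤ Real.exp (Real.log x) := by
          apply Real.exp_le_exp.mpr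
          have := mul_le_mul_of_nonneg_right hδ1 hlog
          linarith
      _ = x := Real.exp_log hx0
  have hPA : ∀ p ∈ PA x, p.Prime := fun p hp => (mem_filter.mp hp).2.1
  have hPX : ∀ p ∈ PX x, p.Prime ∧ z0 x < (p : ℝ) := fun p hp => (mem_filter.mp hp).2
  have hPZ : ∀ p ∈ PZ x δ, p.Prime ∧ z0 x < (p : ℝ) := fun p hp => hPX p (mem_filter.mp hp).1
  have hcov : ∀ p : ℕ, p.Prime → p ≤ N → p ∈ PA x ∨ p ∈ PZ x δ := by
    intro p hp hpN
    have h1 : (p : ℝ) ≤ Real.exp t := le_trans (by exact_mod_cast hpN) hNt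
    have h2 : p ≤ x := by exact_mod_cast h1.trans hyx
    by_cases h3 : (p : ℝ) ≤ z0 x
    · left
      exact mem_filter.mpr ⟨mem_range.mpr (by omega), hp, h3⟩
    · right
      exact mem_filter.mpr ⟨mem_filter.mpr ⟨mem_range.mpr (by omega), hp, not_le.mp h3⟩,
        h1.trans hy⟩
  have hmaps : ∀ n ∈ Icc 1 N, n.primeFactors \ PA x ∈ (PZ x δ).powerset := by
    intro n hn
    have hn' := mem_Icc.mp hn
    rw [mem_powerset]
    intro p hp
    have hp' := mem_sdiff.mp hp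
    have h1 := Nat.prime_of_mem_primeFactors hp'.1
    have h2 := Nat.le_of_mem_primeFactors hp'.1
    exact (hcov p h1 (by omega)).resolve_left hp'.2
  have hsum : ∑ n ∈ Icc 1 N, (n : ℝ)⁻¹ ≤
      (∏ p ∈ PA x, (1 - (p : ℝ)⁻¹)⁻¹) * GG (PZ x δ) t := by
    rw [← sum_fiberwise_of_maps_to hmaps]
    unfold GG
    rw [mul_sum]
    refine sum_le_sum (fun S hS => ?_)
    have hS' := mem_powerset.mp hS
    have hSp : ∀ p ∈ S, p.Prime := fun p hp => (hPZ p (hS' hp)).1
    have hdis : Disjoint (PA x) S := by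
      rw [disjoint_left]
      intro p hp hpS
      have h1 := (mem_filter.mp hp).2.2
      have h2 := (hPZ p (hS' hpS)).2
      linarith
    have hA : ∀ n ∈ (Icc 1 N).filter (fun n => n.primeFactors \ PA x = S),
        n ≠ 0 ∧ n.primeFactors \ PA x = S := by
      intro n hn
      have hn' := mem_filter.mp hn
      have := mem_Icc.mp hn'.1
      exact ⟨by omega, hn'.2⟩
    have h1 := GL_S hPA hSp hdis hA
    split_ifs with hlg
    · exact h1
    · have hemp : (Icc 1 N).filter (fun n => n.primeFactors \ PA x = S) = ∅ := by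
        rw [filter_eq_empty_iff]
        intro n hn heq
        apply hlg
        have hn' := mem_Icc.mp hn
        have h3 : S ⊆ n.primeFactors := by
          rw [← heq]
          exact sdiff_subset
        have h4 : (∏ p ∈ S, p) ∣ n :=
          (prod_dvd_prod_of_subset S n.primeFactors (fun p => p) h3).trans
            (Nat.prod_primeFactors_dvd n)
        have h5 : ∏ p ∈ S, p ≤ n := Nat.le_of_dvd (by omega) h4
        have h6 : (∏ p ∈ S, (p : ℝ)) ≤ Real.exp t := by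
          rw [← Nat.cast_prod]
          refine le_trans ?_ hNt
          exact_mod_cast h5.trans hn'.2
        have h7 : 0 < ∏ p ∈ S, (p : ℝ) :=
          prod_pos (fun p hp => by exact_mod_cast (hSp p hp).pos)
        unfold lg
        rw [← Real.log_prod (fun p hp => by
          have := (hSp p hp).pos
          exact_mod_cast this.ne')]
        rw [Real.log_le_iff_le_exp h7]
        exact h6
      rw [hemp]
      simp
  have hharm : t ≤ ∑ n ∈ Icc 1 N, (n : ℝ)⁻¹ := by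
    have h1 := log_add_one_le_harmonic N
    have h2 : t ≤ Real.log ((N + 1 : ℕ) : ℝ) := by
      rw [Real.le_log_iff_exp_le (by positivity)]
      push_cast
      exact hNt'.le
    have h3 : ((harmonic N : ℚ) : ℝ) = ∑ n ∈ Icc 1 N, (n : ℝ)⁻¹ := by
      rw [harmonic_eq_sum_Icc]
      push_cast
      rfl
    rw [← h3]
    exact h2.trans h1
  have hA0 : 0 ≤ A0 x := by
    unfold A0
    refine prod_nonneg (fun p hp => ?_)
    have h2 : (2 : ℝ) ≤ p := by exact_mod_cast (hPA p hp).two_le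
    have : 1 / (p : ℝ) ≤ 1 := by
      rw [div_le_one (by linarith)]
      linarith
    linarith
  have hA0' : A0 x * ∏ p ∈ PA x, (1 - (p : ℝ)⁻¹)⁻¹ = 1 := by
    unfold A0
    rw [← prod_mul_distrib]
    refine prod_eq_one (fun p hp => ?_)
    have h2 : (2 : ℝ) ≤ p := by exact_mod_cast (hPA p hp).two_le
    rw [one_div]
    apply mul_inv_cancel₀
    have : (p : ℝ)⁻¹ < 1 := inv_lt_one_of_one_lt₀ (by linarith)
    linarith
  calc A0 x * t ≤ A0 x * ((∏ p ∈ PA x, (1 - (p : ℝ)⁻¹)⁻¹) * GG (PZ x δ) t) :=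
        mul_le_mul_of_nonneg_left (hharm.trans hsum) hA0
    _ = GG (PZ x δ) t := by rw [← mul_assoc, hA0', one_mul]

end Pool.Agent.H36.IS

end

section

/-!
# IS Gam: numerical bound for the Euler-Mascheroni constant

γ < eulerMascheroniSeq' 256 = H_256 - log 256 (`Real.eulerMascheroniConstant_lt_eulerMascheroniSeq'`);  H_256 ≤ 6.124345 (rational
computation: `decide +kernel` on `(harmonic 256 : ℚ) ≤ ...` or an integer version), log 256 = 8 log 2 ≥ 5.545177;  so γ < 0.57917.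
exp(-0.57917) ≥ 0.5603: exp(0.57917) ≤ 1/0.5603 = 1.78476 (exp(0.57917) = 1.78456...; use `Real.exp_bound` / Taylor).
-/

set_option autoImplicit false

namespace Pool.Agent.H36.IS

open Finset Filter

private theorem Gam_harm : harmonic 256 ≤ 6124345 / 1000000 := by
  decide +kernel

private theorem Gam_gamma : Real.eulerMascheroniConstant < 0.57917 := by
  have h1 := Real.eulerMascheroniConstant_lt_eulerMascheroniSeq' 256
  have h2 : Real.eulerMascheroniSeq' 256 = ((harmonic 256 : ℚ) : ℝ) - Real.log 256 := by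
    unfold Real.eulerMascheroniSeq'
    rw [if_neg (by norm_num), Nat.cast_ofNat]
  have h3 : ((harmonic 256 : ℚ) : ℝ) ≤ 6124345 / 1000000 := by
    have h := Gam_harm
    have h' : ((harmonic 256 : ℚ) : ℝ) ≤ ((6124345 / 1000000 : ℚ) : ℝ) := by exact_mod_cast h
    refine h'.trans (le_of_eq ?_)
    push_cast
    rfl
  have h4 : Real.log 256 = 8 * Real.log 2 := by
    rw [show (256 : ℝ) = 2 ^ 8 by norm_num, Real.log_pow]
    norm_num
  have h5 := Real.log_two_gt_d9
  rw [h2, h4] at h1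
  linarith

private theorem Gam_exp : Real.exp 0.57917 ≤ 1.7847 := by
  have h := Real.exp_bound' (x := 0.57917) (by norm_num) (by norm_num) (n := 8) (by norm_num)
  refine h.trans ?_
  norm_num [Finset.sum_range_succ, Nat.factorial]

theorem gam_num : (0.5603 : ℝ) < Real.exp (-Real.eulerMascheroniConstant) := by
  have h1 : Real.exp (-0.57917) < Real.exp (-Real.eulerMascheroniConstant) := by
    apply Real.exp_lt_exp.2
    have := Gam_gamma
    linarith
  have h2 : (0.5603 : ℝ) ≤ Real.exp (-0.57917) := by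
    rw [Real.exp_neg, le_inv_comm₀ (by norm_num) (Real.exp_pos _)]
    refine Gam_exp.trans ?_
    norm_num
  linarith

end Pool.Agent.H36.IS

end

section

/-!
# IS Tval: the sums over the atoms of one or two components

Si x δ i = {i} ×ˢ PZ x δ; its subsets correspond to subsets of PZ x δ via image Prod.snd, ∑ log e.2 = lg, ∏ fo gi e = ∏ fn (primes).
Subsets of Si i ∪ Si j (disjoint since i ≠ j) are pairs.
-/

set_option autoImplicit false

namespace Pool.Agent.H36.IS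

open Finset

private theorem Tval_fo {ι : Type} [Fintype ι] [DecidableEq ι] {x : ℕ} {δ : ℝ} (i : ι) {p : ℕ}
    (hp : p ∈ PZ x δ) : fo gi ((i, p) : ι × ℕ) = fn p := by
  have h1 : p.Prime := by
    simp only [PZ, PX, mem_filter] at hp
    exact hp.1.2.1
  have h2 : (2 : ℝ) ≤ (p : ℝ) := by exact_mod_cast h1.two_le
  have h3 : (p : ℝ) ≠ 0 := by positivity
  have h4 : (p : ℝ) - 1 ≠ 0 := by linarith
  unfold fo gi fn
  simp only
  rw [one_sub_div h3, div_div_div_cancel_right₀ h3]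

private theorem Tval_sum_log {ι : Type} [Fintype ι] [DecidableEq ι] (i : ι) (S : Finset ℕ) :
    ∑ e ∈ ({i} : Finset ι) ×ˢ S, Real.log e.2 = lg S := by
  rw [sum_product, sum_singleton]; rfl

private theorem Tval_prod {ι : Type} [Fintype ι] [DecidableEq ι] {x : ℕ} {δ : ℝ} (i : ι)
    {S : Finset ℕ} (hS : S ⊆ PZ x δ) :
    ∏ e ∈ ({i} : Finset ι) ×ˢ S, fo gi e = ∏ p ∈ S, fn p := by
  rw [prod_product, prod_singleton]
  exact prod_congr rfl fun p hp => Tval_fo i (hS hp)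

/-- the value of `T` for one component -/
theorem T_one {ι : Type} [Fintype ι] [DecidableEq ι] (x : ℕ) (δ t : ℝ) (i : ι) :
    ∑ A ∈ (Si x δ i).powerset, (if ∑ e ∈ A, Real.log e.2 ≤ t then (1 : ℝ) else 0) * ∏ e ∈ A, fo gi e =
      GG (PZ x δ) t := by
  unfold GG
  refine sum_nbij' (fun A => A.image Prod.snd) (fun S => ({i} : Finset ι) ×ˢ S) ?_ ?_ ?_ ?_ ?_
  · intro A hA
    rw [mem_powerset] at hA ⊢
    intro p hp
    obtain ⟨e, he, rfl⟩ := mem_image.1 hp
    exact (mem_product.1 (hA he)).2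
  · intro S hS
    rw [mem_powerset] at hS ⊢
    exact product_subset_product (Subset.refl _) hS
  · intro A hA
    rw [mem_powerset] at hA
    ext ⟨a, p⟩
    simp only [mem_product, mem_singleton, mem_image, Prod.exists, exists_eq_right]
    constructor
    · rintro ⟨rfl, b, hb⟩
      have h1 := (mem_product.1 (hA hb)).1
      rw [mem_singleton] at h1
      simp only at h1
      rwa [h1] at hb
    · intro h
      have h1 := (mem_product.1 (hA h)).1
      rw [mem_singleton] at h1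
      exact ⟨h1, a, h⟩
  · intro S _
    ext p
    simp
  · intro A hA
    rw [mem_powerset] at hA
    have h0 : A = ({i} : Finset ι) ×ˢ A.image Prod.snd := by
      ext ⟨a, p⟩
      simp only [mem_product, mem_singleton, mem_image, Prod.exists, exists_eq_right]
      constructor
      · intro h
        have h1 := (mem_product.1 (hA h)).1
        rw [mem_singleton] at h1
        exact ⟨h1, a, h⟩
      · rintro ⟨rfl, b, hb⟩
        have h1 := (mem_product.1 (hA hb)).1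
        rw [mem_singleton] at h1
        simp only at h1
        rwa [h1] at hb
    have h1 : A.image Prod.snd ⊆ PZ x δ := by
      intro p hp
      obtain ⟨e, he, rfl⟩ := mem_image.1 hp
      exact (mem_product.1 (hA he)).2
    generalize A.image Prod.snd = S at h0 h1
    subst h0
    rw [Tval_sum_log, Tval_prod i h1]
    split_ifs <;> simp

end Pool.Agent.H36.IS

end

section

/-!
A lower bound for Euler's function in terms of the number of prime factors, and a bound for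
that number.
-/

set_option autoImplicit false

namespace Pool.Agent.H92.EH

open Finset

theorem prod_one_sub_inv_ge (S : Finset ℕ) (hS : ∀ p ∈ S, 2 ≤ p) :
    (1 : ℝ) / (S.card + 1) ≤ ∏ p ∈ S, (1 - (p : ℝ)⁻¹) := by
  induction S using Finset.induction_on_max with
  | empty => simp
  | insert a s hmax ih =>
    have ha : a ∉ s := fun h => lt_irrefl _ (hmax a h)
    rw [prod_insert ha, card_insert_of_notMem ha]
    have h1 := ih (fun p hp => hS p (mem_insert_of_mem hp))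
    -- `a ≥ card s + 2`
    have h2 : s.card + 2 ≤ a := by
      have hsub : s ⊆ Ico 2 a := by
        intro p hp
        rw [mem_Ico]
        exact ⟨hS p (mem_insert_of_mem hp), hmax p hp⟩
      have h3 := card_le_card hsub
      rw [Nat.card_Ico] at h3
      have h4 := hS a (mem_insert_self _ _)
      omega
    have h2' : ((s.card : ℝ) + 2) ≤ a := by exact_mod_cast h2
    have hc : (0 : ℝ) ≤ s.card := by positivity
    have h5 : (1 : ℝ) - ((s.card : ℝ) + 2)⁻¹ ≤ 1 - (a : ℝ)⁻¹ := by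
      have : (a : ℝ)⁻¹ ≤ ((s.card : ℝ) + 2)⁻¹ := inv_anti₀ (by positivity) h2'
      linarith
    have h6 : (1 : ℝ) - ((s.card : ℝ) + 2)⁻¹ = ((s.card : ℝ) + 1) / (s.card + 2) := by
      field_simp
      ring
    have h7 : (0 : ℝ) ≤ ((s.card : ℝ) + 1) / (s.card + 2) := by positivity
    push_cast
    calc (1 : ℝ) / ((s.card : ℝ) + 1 + 1)
        = (((s.card : ℝ) + 1) / (s.card + 2)) * (1 / (s.card + 1)) := by
          field_simp
          ring
      _ ≤ (1 - (a : ℝ)⁻¹) * ∏ p ∈ s, (1 - (p : ℝ)⁻¹) := by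
          rw [← h6] at h7
          apply mul_le_mul (by rw [← h6]; exact h5) h1 (by positivity) (h7.trans h5)

theorem le_totient_mul (q : ℕ) :
    (q : ℝ) ≤ Nat.totient q * (q.primeFactors.card + 1) := by
  have h1 : (Nat.totient q : ℝ) = q * ∏ p ∈ q.primeFactors, (1 - (p : ℝ)⁻¹) := by
    have := Nat.totient_eq_mul_prod_factors q
    have h2 : ((Nat.totient q : ℚ) : ℝ) = ((q * ∏ p ∈ q.primeFactors, (1 - (p : ℚ)⁻¹) : ℚ) : ℝ) := by
      rw [this]
    push_cast at h2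
    exact h2
  have h3 := prod_one_sub_inv_ge q.primeFactors (fun p hp => (Nat.prime_of_mem_primeFactors hp).two_le)
  rw [h1]
  have hc : (0 : ℝ) < (q.primeFactors.card : ℝ) + 1 := by positivity
  rw [div_le_iff₀ hc] at h3
  have hq : (0 : ℝ) ≤ q := by positivity
  nlinarith

theorem card_primeFactors_le (q : ℕ) : q.primeFactors.card ≤ Nat.log 2 q := by
  rcases Nat.eq_zero_or_pos q with rfl | hq
  · simp
  · apply Nat.le_log_of_pow_le (by norm_num)
    calc 2 ^ q.primeFactors.card ≤ ∏ p ∈ q.primeFactors, p := by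
          rw [← prod_const]
          exact prod_le_prod' fun p hp => (Nat.prime_of_mem_primeFactors hp).two_le
      _ ≤ q := Nat.le_of_dvd hq (Nat.prod_primeFactors_dvd q)

end Pool.Agent.H92.EH

end

section

/-!
# ISP LossC: the numerical double sum of the loss

a_j = 0.09 + 0.2404 j/40 (j = 0..40, a_40 = 0.3304), b_k = 0.3348 + 0.1202 k/20 (k = 0..20, b_20 = 0.455).  a_j + 2 b_k < 1 or = 1 is decided exactly:
0.2404 j/40 + 0.2404 k/20 < 1 - 0.09 - 0.6696 = 0.2404, i.e. j + 2k < 40.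
log(v'/v) ≤ (v' - v)(1/v + 1/v')/2.  The double sum (half of it) is then ≤ 0.28666 (floating point: 0.2866524).
Rational arithmetic: scale 10^4·40 etc. to integers; a list / sum over range 40 × range 20 with `decide +kernel` on natural numbers (round each term up to
10^-9), or `norm_num`.
-/

set_option autoImplicit false

namespace Pool.Agent.H36.IS2

open Finset

noncomputable def ca (j : ℕ) : ℝ := 0.09 + 0.00601 * j

noncomputable def cb (k : ℕ) : ℝ := 0.3348 + 0.00601 * k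

private def LossC_A (j : ℕ) : ℕ := 9000 + 601 * j

private def LossC_B (k : ℕ) : ℕ := 33480 + 601 * k

private def LossC_n (j k : ℕ) : ℕ :=
  601 ^ 2 * (LossC_A j + LossC_A (j + 1)) * (LossC_B k + LossC_B (k + 1)) * 10 ^ 5 * 10 ^ 9

private def LossC_d (j k : ℕ) : ℕ :=
  4 * LossC_A j * LossC_A (j + 1) * LossC_B k * LossC_B (k + 1) *
    (10 ^ 5 - (LossC_A (j + 1) + LossC_B (k + 1)))

private def LossC_t (j k : ℕ) : ℕ := if j + 2 * k < 40 then LossC_n j k / LossC_d j k + 1 else 0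

private theorem LossC_dec : ∑ j ∈ range 40, ∑ k ∈ range 20, LossC_t j k ≤ 573400000 := by
  decide +kernel

private theorem LossC_log {v w : ℝ} (hv : 0 < v) (hvw : v ≤ w) :
    Real.log (w / v) ≤ (w / v - v / w) / 2 := by
  have hw : 0 < w := lt_of_lt_of_le hv hvw
  have h1 : 0 ≤ Real.log (w / v) := Real.log_nonneg (by rw [le_div_iff₀ hv]; linarith)
  have h2 := Real.self_le_sinh_iff.2 h1
  rw [Real.sinh_log (div_pos hw hv), inv_div] at h2
  exact h2

private theorem LossC_ca (j : ℕ) : ca j = (LossC_A j : ℝ) / 10 ^ 5 := by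
  unfold ca LossC_A
  push_cast
  ring

private theorem LossC_cb (j : ℕ) : cb j = (LossC_B j : ℝ) / 10 ^ 5 := by
  unfold cb LossC_B
  push_cast
  ring

private theorem LossC_div (n d : ℕ) (hd : 0 < d) : (n : ℝ) / d ≤ ((n / d + 1 : ℕ) : ℝ) := by
  rw [div_le_iff₀ (by exact_mod_cast hd)]
  have h1 := Nat.div_add_mod n d
  have h2 := Nat.mod_lt n hd
  have h3 : n ≤ (n / d + 1) * d := by nlinarith
  exact_mod_cast h3

private theorem LossC_term (j k : ℕ) :
    (if j + 2 * k < 40 then Real.log (ca (j + 1) / ca j) * Real.log (cb (k + 1) / cb k) /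
      (1 - ca (j + 1) - cb (k + 1)) else 0) ≤ (LossC_t j k : ℝ) / 10 ^ 9 := by
  unfold LossC_t
  split_ifs with h
  · have hA0 : (0 : ℝ) < LossC_A j := by exact_mod_cast (by unfold LossC_A; omega : 0 < LossC_A j)
    have hB0 : (0 : ℝ) < LossC_B k := by exact_mod_cast (by unfold LossC_B; omega : 0 < LossC_B k)
    have hA1 : (LossC_A (j + 1) : ℝ) = LossC_A j + 601 := by
      unfold LossC_A
      push_cast
      ring
    have hB1 : (LossC_B (k + 1) : ℝ) = LossC_B k + 601 := by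
      unfold LossC_B
      push_cast
      ring
    have hAB : LossC_A (j + 1) + LossC_B (k + 1) < 10 ^ 5 := by
      unfold LossC_A LossC_B
      omega
    have hABr : (LossC_A (j + 1) : ℝ) + LossC_B (k + 1) < 10 ^ 5 := by exact_mod_cast hAB
    have hd0 : 0 < LossC_d j k := by
      unfold LossC_d
      have h1 : 0 < LossC_A j := by unfold LossC_A; omega
      have h2 : 0 < LossC_B k := by unfold LossC_B; omega
      have h3 : 0 < LossC_A (j + 1) := by unfold LossC_A; omega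
      have h4 : 0 < LossC_B (k + 1) := by unfold LossC_B; omega
      have h5 : 0 < 10 ^ 5 - (LossC_A (j + 1) + LossC_B (k + 1)) := Nat.sub_pos_of_lt hAB
      exact Nat.mul_pos (Nat.mul_pos (Nat.mul_pos (Nat.mul_pos (Nat.mul_pos (by norm_num) h1) h3)
        h2) h4) h5
    have hdr : (LossC_d j k : ℝ) = 4 * LossC_A j * LossC_A (j + 1) * LossC_B k * LossC_B (k + 1) *
        (10 ^ 5 - (LossC_A (j + 1) + LossC_B (k + 1))) := by
      unfold LossC_d
      rw [Nat.cast_mul, Nat.cast_sub hAB.le]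
      push_cast
      ring
    have hnr : (LossC_n j k : ℝ) = 601 ^ 2 * (LossC_A j + LossC_A (j + 1)) *
        (LossC_B k + LossC_B (k + 1)) * 10 ^ 5 * 10 ^ 9 := by
      unfold LossC_n
      push_cast
      ring
    have hca0 : 0 < ca j := by rw [LossC_ca]; exact div_pos hA0 (by norm_num)
    have hcb0 : 0 < cb k := by rw [LossC_cb]; exact div_pos hB0 (by norm_num)
    have hca1 : ca j ≤ ca (j + 1) := by
      rw [LossC_ca, LossC_ca, hA1]
      gcongr
      linarith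
    have hcb1 : cb k ≤ cb (k + 1) := by
      rw [LossC_cb, LossC_cb, hB1]
      gcongr
      linarith
    have hpos : 0 < 1 - ca (j + 1) - cb (k + 1) := by
      rw [LossC_ca, LossC_cb]
      have : (LossC_A (j + 1) : ℝ) / 10 ^ 5 + LossC_B (k + 1) / 10 ^ 5 < 1 := by
        rw [← add_div, div_lt_one (by norm_num)]
        exact hABr
      linarith
    have hl1 := LossC_log hca0 hca1
    have hl2 := LossC_log hcb0 hcb1
    have hl2' : 0 ≤ Real.log (cb (k + 1) / cb k) :=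
      Real.log_nonneg (by rw [le_div_iff₀ hcb0]; linarith)
    have hl1' : 0 ≤ (ca (j + 1) / ca j - ca j / ca (j + 1)) / 2 :=
      le_trans (Real.log_nonneg (by rw [le_div_iff₀ hca0]; linarith)) hl1
    have hq : (ca (j + 1) / ca j - ca j / ca (j + 1)) / 2 *
        ((cb (k + 1) / cb k - cb k / cb (k + 1)) / 2) / (1 - ca (j + 1) - cb (k + 1)) =
        (LossC_n j k : ℝ) / LossC_d j k / 10 ^ 9 := by
      rw [hnr, hdr, LossC_ca, LossC_ca, LossC_cb, LossC_cb]
      have hx : (0 : ℝ) < LossC_A (j + 1) := by rw [hA1]; linarith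
      have hy : (0 : ℝ) < LossC_B (k + 1) := by rw [hB1]; linarith
      have hz : (0 : ℝ) < 10 ^ 5 - (LossC_A (j + 1) + LossC_B (k + 1)) := by linarith
      have hz' : (1 : ℝ) - LossC_A (j + 1) / 10 ^ 5 - LossC_B (k + 1) / 10 ^ 5 =
          (10 ^ 5 - (LossC_A (j + 1) + LossC_B (k + 1))) / 10 ^ 5 := by
        field_simp
        ring
      rw [hz']
      have e1 : ((LossC_A (j + 1) : ℝ) / 10 ^ 5 / (LossC_A j / 10 ^ 5) -
          LossC_A j / 10 ^ 5 / (LossC_A (j + 1) / 10 ^ 5)) / 2 =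
          601 * (LossC_A j + LossC_A (j + 1)) / (2 * (LossC_A j * LossC_A (j + 1))) := by
        have : (601 : ℝ) = LossC_A (j + 1) - LossC_A j := by rw [hA1]; ring
        rw [this]
        field_simp
        ring
      have e2 : ((LossC_B (k + 1) : ℝ) / 10 ^ 5 / (LossC_B k / 10 ^ 5) -
          LossC_B k / 10 ^ 5 / (LossC_B (k + 1) / 10 ^ 5)) / 2 =
          601 * (LossC_B k + LossC_B (k + 1)) / (2 * (LossC_B k * LossC_B (k + 1))) := by
        have : (601 : ℝ) = LossC_B (k + 1) - LossC_B k := by rw [hB1]; ring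
        rw [this]
        field_simp
        ring
      rw [e1, e2]
      generalize (LossC_A j : ℝ) = a at *
      generalize (LossC_A (j + 1) : ℝ) = a' at *
      generalize (LossC_B k : ℝ) = b at *
      generalize (LossC_B (k + 1) : ℝ) = b' at *
      generalize (10 : ℝ) ^ 5 - (a' + b') = z at *
      field_simp
      ring
    calc Real.log (ca (j + 1) / ca j) * Real.log (cb (k + 1) / cb k) / (1 - ca (j + 1) - cb (k + 1))
        ≤ (ca (j + 1) / ca j - ca j / ca (j + 1)) / 2 *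
          ((cb (k + 1) / cb k - cb k / cb (k + 1)) / 2) / (1 - ca (j + 1) - cb (k + 1)) := by
          apply div_le_div_of_nonneg_right _ hpos.le
          exact mul_le_mul hl1 hl2 hl2' hl1'
      _ = (LossC_n j k : ℝ) / LossC_d j k / 10 ^ 9 := hq
      _ ≤ _ := by
          apply div_le_div_of_nonneg_right _ (by norm_num)
          exact LossC_div _ _ hd0
  · simp

theorem loss_num : 1 / 2 * ∑ j ∈ range 40, ∑ k ∈ range 20,
    (if j + 2 * k < 40 then Real.log (ca (j + 1) / ca j) * Real.log (cb (k + 1) / cb k) / (1 - ca (j + 1) - cb (k + 1)) else 0) ≤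
      (0.2867 : ℝ) := by
  have h1 : ∑ j ∈ range 40, ∑ k ∈ range 20,
      (if j + 2 * k < 40 then Real.log (ca (j + 1) / ca j) * Real.log (cb (k + 1) / cb k) / (1 - ca (j + 1) - cb (k + 1)) else 0) ≤
      ∑ j ∈ range 40, ∑ k ∈ range 20, (LossC_t j k : ℝ) / 10 ^ 9 :=
    Finset.sum_le_sum fun j _ => Finset.sum_le_sum fun k _ => LossC_term j k
  have h2 : ∑ j ∈ range 40, ∑ k ∈ range 20, (LossC_t j k : ℝ) / 10 ^ 9 =
      ((∑ j ∈ range 40, ∑ k ∈ range 20, LossC_t j k : ℕ) : ℝ) / 10 ^ 9 := by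
    push_cast
    rw [Finset.sum_div]
    refine Finset.sum_congr rfl fun j _ => ?_
    rw [Finset.sum_div]
  have h3 : ((∑ j ∈ range 40, ∑ k ∈ range 20, LossC_t j k : ℕ) : ℝ) ≤ 573400000 := by
    exact_mod_cast LossC_dec
  rw [h2] at h1
  have h4 : ((∑ j ∈ range 40, ∑ k ∈ range 20, LossC_t j k : ℕ) : ℝ) / 10 ^ 9 ≤ 573400000 / 10 ^ 9 :=
    div_le_div_of_nonneg_right h3 (by norm_num)
  have h5 : (573400000 : ℝ) / 10 ^ 9 = 2 * 0.2867 := by norm_num
  rw [h5] at h4
  linarith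

end Pool.Agent.H36.IS2

end

section

/-!
# IS MtB: an Abelian theorem with kernel exp(-v)

Let a : ℕ → ℝ, a n ≥ 0, a 0 = a 1 = 0, S n = ∑_{k ≤ n} a k, S n - loglog n → c.  Then for σ → 0+:
 ∑_n a n n^{-σ} is summable and  ∑_n a n n^{-σ} + log σ → c - γ.
Proof: n^{-σ} = ∫_n^∞ σ t^{-σ-1} dt, so ∑ a n n^{-σ} = ∫_1^∞ S(⌊t⌋) σ t^{-σ-1} dt = ∫_0^∞ S(⌊e^{v/σ}⌋) e^{-v} dv (t = e^{v/σ}).
 S(⌊e^{v/σ}⌋) + log σ = log v + c + o(1) for fixed v > 0 (log⌊e^{v/σ}⌋ = v/σ + o(1), log(v/σ) = log v - log σ).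
 Domination on v ∈ (0,∞): for ⌊t⌋ ≥ 2, 0 ≤ S ≤ K + |loglog|..., more precisely |S(⌊t⌋) - log(max(log t, 1))| ≤ K for all t ≥ 1 (S = 0 for t < 2),
 and |log(max(v/σ,1)) + log σ| = |log max(v, σ)| ≤ |log v| + log(1+v) for 0 < σ < 1; (K + |log v| + log(1+v)) e^{-v} is integrable.
 Dominated convergence: limit = ∫_0^∞ (log v + c) e^{-v} dv = c - γ, since ∫_0^∞ log v e^{-v} dv = Γ'(1) = -γ
 (Mathlib: `Real.eulerMascheroniConstant_eq_neg_deriv`, `Complex.hasDerivAt_GammaIntegral`).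
-/

set_option autoImplicit false

namespace Pool.Agent.H36.IS

open Finset Filter

theorem int_log_exp : ∫ v in Set.Ioi (0 : ℝ), Real.log v * Real.exp (-v) = -Real.eulerMascheroniConstant := by
  have h1 : HasDerivAt Complex.GammaIntegral
      (∫ t : ℝ in Set.Ioi 0, (t : ℂ) ^ ((1 : ℂ) - 1) * (Real.log t * Real.exp (-t))) 1 :=
    Complex.hasDerivAt_GammaIntegral (by simp)
  have h2 : HasDerivAt Complex.GammaIntegral (-(Real.eulerMascheroniConstant : ℂ)) 1 := by
    refine Complex.hasDerivAt_Gamma_one.congr_of_eventuallyEq ?_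
    have hop : {s : ℂ | 0 < s.re} ∈ nhds (1 : ℂ) :=
      (isOpen_lt continuous_const Complex.continuous_re).mem_nhds (by simp)
    filter_upwards [hop] with s hs
    exact (Complex.Gamma_eq_integral hs).symm
  have h3 := h1.unique h2
  have h4 : (∫ t : ℝ in Set.Ioi 0, (t : ℂ) ^ ((1 : ℂ) - 1) * (Real.log t * Real.exp (-t)))
      = ((∫ v in Set.Ioi (0 : ℝ), Real.log v * Real.exp (-v) : ℝ) : ℂ) := by
    rw [← integral_complex_ofReal]
    refine MeasureTheory.integral_congr_ae (Filter.Eventually.of_forall fun t => ?_)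
    simp
  rw [h4] at h3
  exact_mod_cast h3

/-- the counting function in the logarithmic variable -/
private noncomputable def MtB_A (a : ℕ → ℝ) (x : ℝ) : ℝ :=
  ∑ k ∈ range (⌊Real.exp x⌋₊ + 1), a k

private theorem MtB_A_meas (a : ℕ → ℝ) : Measurable (MtB_A a) :=
  (measurable_from_nat (f := fun n => ∑ k ∈ range (n + 1), a k)).comp
    (Nat.measurable_floor.comp Real.measurable_exp)

private theorem MtB_A_nonneg {a : ℕ → ℝ} (ha : ∀ n, 0 ≤ a n) (x : ℝ) : 0 ≤ MtB_A a x :=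
  Finset.sum_nonneg fun k _ => ha k

/-- comparison of the logarithm of the floor -/
private theorem MtB_floor {x : ℝ} (hx : 1 ≤ x) :
    3 / 10 * x ≤ Real.log ⌊Real.exp x⌋₊ ∧ Real.log ⌊Real.exp x⌋₊ ≤ x := by
  have he : 2 ≤ Real.exp x := by
    have := Real.add_one_le_exp x
    linarith
  have h1 : Real.exp x - 1 < ⌊Real.exp x⌋₊ := by
    have := Nat.lt_floor_add_one (Real.exp x)
    linarith
  have h2 : (⌊Real.exp x⌋₊ : ℝ) ≤ Real.exp x := Nat.floor_le (Real.exp_pos x).le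
  have h3 : Real.exp x / 2 ≤ ⌊Real.exp x⌋₊ := by linarith
  have h0 : (0 : ℝ) < ⌊Real.exp x⌋₊ := by linarith
  constructor
  · have h4 : Real.log (Real.exp x / 2) ≤ Real.log ⌊Real.exp x⌋₊ :=
      Real.log_le_log (by positivity) h3
    rw [Real.log_div (Real.exp_pos x).ne' (by norm_num), Real.log_exp] at h4
    have h5 := Real.log_two_lt_d9
    linarith
  · have := Real.log_le_log h0 h2
    rwa [Real.log_exp] at this

private theorem MtB_bdd {a : ℕ → ℝ} (ha : ∀ n, 0 ≤ a n) {c : ℝ}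
    (hS : Tendsto (fun n : ℕ => ∑ k ∈ range (n + 1), a k - Real.log (Real.log n)) atTop (nhds c)) :
    ∃ K, 0 ≤ K ∧ ∀ x, 0 < x → |MtB_A a x - Real.log (max x 1)| ≤ K := by
  obtain ⟨K0, hK0⟩ : ∃ K0, ∀ n : ℕ,
      |∑ k ∈ range (n + 1), a k - Real.log (Real.log n)| ≤ K0 := by
    obtain ⟨C, hC⟩ := (Metric.isBounded_range_of_tendsto _ hS).exists_norm_le
    exact ⟨C, fun n => hC _ ⟨n, rfl⟩⟩
  have hK00 : 0 ≤ K0 := (abs_nonneg _).trans (hK0 0)
  have hS2 : 0 ≤ ∑ k ∈ range 3, a k := Finset.sum_nonneg fun k _ => ha k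
  refine ⟨K0 + 2 + ∑ k ∈ range 3, a k, by positivity, fun x hx => ?_⟩
  rcases le_total 1 x with h | h
  · rw [max_eq_left h]
    obtain ⟨h1, h2⟩ := MtB_floor h
    have h3 : Real.log (Real.log ⌊Real.exp x⌋₊) ≤ Real.log x :=
      Real.log_le_log (by linarith) h2
    have h4 : Real.log (3 / 10 * x) ≤ Real.log (Real.log ⌊Real.exp x⌋₊) :=
      Real.log_le_log (by linarith) h1
    rw [Real.log_mul (by norm_num) (by linarith)] at h4
    have h5 : -2 ≤ Real.log (3 / 10) := by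
      have h6 : Real.log (10 / 3 : ℝ) ≤ 10 / 3 - 1 := Real.log_le_sub_one_of_pos (by norm_num)
      have h7 : Real.log (3 / 10 : ℝ) = -Real.log (10 / 3) := by
        rw [← Real.log_inv]; norm_num
      have h8 : Real.log (10 / 3 : ℝ) ≤ 2 := by
        have h9 : (10 / 3 : ℝ) ≤ 2 * 2 := by norm_num
        have h10 := Real.log_le_log (by norm_num : (0 : ℝ) < 10 / 3) h9
        rw [Real.log_mul (by norm_num) (by norm_num)] at h10
        have := Real.log_two_lt_d9
        linarith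
      linarith
    have h6 := abs_le.1 (hK0 ⌊Real.exp x⌋₊)
    have h7 : MtB_A a x = ∑ k ∈ range (⌊Real.exp x⌋₊ + 1), a k := rfl
    rw [abs_le]
    constructor
    · rw [h7]; linarith [h6.1]
    · rw [h7]; linarith [h6.2]
  · rw [max_eq_right h, Real.log_one, sub_zero, abs_of_nonneg (MtB_A_nonneg ha x)]
    have h1 : ⌊Real.exp x⌋₊ ≤ 2 := by
      have h2 : Real.exp x ≤ Real.exp 1 := Real.exp_le_exp.2 h
      have h3 := Real.exp_one_lt_d9
      have h4 : ⌊Real.exp x⌋₊ < 3 := (Nat.floor_lt (Real.exp_pos x).le).2 (by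
        push_cast; linarith)
      omega
    have h2 : MtB_A a x ≤ ∑ k ∈ range 3, a k := by
      unfold MtB_A
      refine Finset.sum_le_sum_of_subset_of_nonneg (fun k hk => ?_) fun k _ _ => ha k
      rw [Finset.mem_range] at hk ⊢
      omega
    linarith

/-- the limit for a fixed variable -/
private theorem MtB_lim {a : ℕ → ℝ} {c : ℝ}
    (hS : Tendsto (fun n : ℕ => ∑ k ∈ range (n + 1), a k - Real.log (Real.log n)) atTop (nhds c)) :
    Tendsto (fun x : ℝ => MtB_A a x - Real.log x) atTop (nhds c) := by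
  have hfl : Tendsto (fun x : ℝ => ⌊Real.exp x⌋₊) atTop atTop :=
    tendsto_nat_floor_atTop.comp Real.tendsto_exp_atTop
  have h1 := hS.comp hfl
  -- `log n - x → 0`
  have h2 : Tendsto (fun x : ℝ => (⌊Real.exp x⌋₊ : ℝ) / Real.exp x) atTop (nhds 1) :=
    tendsto_nat_floor_div_atTop.comp Real.tendsto_exp_atTop
  have h3 : Tendsto (fun x : ℝ => Real.log ((⌊Real.exp x⌋₊ : ℝ) / Real.exp x)) atTop (nhds 0) := by
    have := (Real.continuousAt_log (one_ne_zero)).tendsto.comp h2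
    rwa [Real.log_one] at this
  have h4 : Tendsto (fun x : ℝ => 1 + Real.log ((⌊Real.exp x⌋₊ : ℝ) / Real.exp x) / x) atTop
      (nhds 1) := by
    have h5 : Tendsto (fun x : ℝ => Real.log ((⌊Real.exp x⌋₊ : ℝ) / Real.exp x) * x⁻¹) atTop
        (nhds (0 * 0)) := h3.mul tendsto_inv_atTop_zero
    have h6 := h5.const_add 1
    simpa [div_eq_mul_inv] using h6
  have h5 : Tendsto (fun x : ℝ => Real.log (1 + Real.log ((⌊Real.exp x⌋₊ : ℝ) / Real.exp x) / x))
      atTop (nhds 0) := by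
    have := (Real.continuousAt_log (one_ne_zero)).tendsto.comp h4
    rwa [Real.log_one] at this
  have h6 := h1.add h5
  rw [add_zero] at h6
  refine h6.congr' ?_
  filter_upwards [eventually_ge_atTop 1] with x hx
  obtain ⟨g1, g2⟩ := MtB_floor hx
  have hx0 : 0 < x := by linarith
  have hn0 : (0 : ℝ) < ⌊Real.exp x⌋₊ := by
    rcases Nat.eq_zero_or_pos ⌊Real.exp x⌋₊ with h0 | h0
    · rw [h0] at g1
      simp at g1
      linarith
    · exact_mod_cast h0
  have h7 : Real.log ((⌊Real.exp x⌋₊ : ℝ) / Real.exp x) = Real.log ⌊Real.exp x⌋₊ - x := by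
    rw [Real.log_div hn0.ne' (Real.exp_pos x).ne', Real.log_exp]
  have h8 : 1 + Real.log ((⌊Real.exp x⌋₊ : ℝ) / Real.exp x) / x = Real.log ⌊Real.exp x⌋₊ / x := by
    rw [h7]; field_simp; ring
  have h9 : Real.log (Real.log ⌊Real.exp x⌋₊ / x)
      = Real.log (Real.log ⌊Real.exp x⌋₊) - Real.log x :=
    Real.log_div (by linarith) hx0.ne'
  rw [h8, h9]
  simp only [Function.comp]
  unfold MtB_A
  ring

/-- integrability of the bound -/
private theorem MtB_int_abs_log :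
    MeasureTheory.IntegrableOn (fun v : ℝ => |Real.log v| * Real.exp (-v)) (Set.Ioi 0) := by
  have h1 := Real.GammaIntegral_convergent (s := 1 / 2) (by norm_num)
  have h2 := Real.GammaIntegral_convergent (s := 2) (by norm_num)
  have h3 : MeasureTheory.IntegrableOn (fun v : ℝ => 2 * (Real.exp (-v) * v ^ ((1 / 2 : ℝ) - 1))
      + Real.exp (-v) * v ^ ((2 : ℝ) - 1)) (Set.Ioi 0) := (h1.const_mul 2).add h2
  refine MeasureTheory.Integrable.mono' h3 ?_ ?_
  · exact ((Real.measurable_log.abs).mul (Real.measurable_exp.comp measurable_neg)).aestronglyMeasurable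
  · filter_upwards [MeasureTheory.ae_restrict_mem measurableSet_Ioi] with v hv
    have hv0 : (0 : ℝ) < v := hv
    rw [Real.norm_eq_abs, abs_mul, abs_abs, abs_of_pos (Real.exp_pos _)]
    have hexp := Real.exp_pos (-v)
    have e1 : v ^ ((2 : ℝ) - 1) = v := by
      rw [show (2 : ℝ) - 1 = 1 by norm_num, Real.rpow_one]
    rw [e1]
    have hp : 0 < v ^ ((1 / 2 : ℝ) - 1) := Real.rpow_pos_of_pos hv0 _
    have key : |Real.log v| ≤ 2 * v ^ ((1 / 2 : ℝ) - 1) + v := by
      rw [abs_le]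
      constructor
      · have h4 : Real.log (v ^ ((1 / 2 : ℝ) - 1)) ≤ v ^ ((1 / 2 : ℝ) - 1) - 1 :=
          Real.log_le_sub_one_of_pos hp
        rw [Real.log_rpow hv0] at h4
        linarith
      · have h5 := Real.log_le_sub_one_of_pos hv0
        linarith
    have := mul_le_mul_of_nonneg_right key hexp.le
    linarith

private theorem MtB_int_log :
    MeasureTheory.IntegrableOn (fun v : ℝ => Real.log v * Real.exp (-v)) (Set.Ioi 0) := by
  refine MeasureTheory.Integrable.mono' MtB_int_abs_log ?_ ?_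
  · exact (Real.measurable_log.mul (Real.measurable_exp.comp measurable_neg)).aestronglyMeasurable
  · refine Filter.Eventually.of_forall fun v => ?_
    rw [Real.norm_eq_abs, abs_mul, abs_of_pos (Real.exp_pos _)]

private theorem MtB_int_exp :
    MeasureTheory.IntegrableOn (fun v : ℝ => Real.exp (-v)) (Set.Ioi 0) := by
  have := Real.GammaIntegral_convergent (s := 1) (by norm_num)
  simpa using this

private theorem MtB_abs_log_max {v σ : ℝ} (hv : 0 < v) (hσ : 0 < σ) (hσ1 : σ < 1) :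
    |Real.log (max (v / σ) 1) + Real.log σ| ≤ |Real.log v| := by
  rcases le_total 1 (v / σ) with h | h
  · rw [max_eq_left h, Real.log_div hv.ne' hσ.ne']
    rw [sub_add_cancel]
  · rw [max_eq_right h, Real.log_one, zero_add]
    have h1 : v ≤ σ := by rwa [div_le_one hσ] at h
    have h2 : Real.log v ≤ Real.log σ := Real.log_le_log hv h1
    have h3 : Real.log σ < 0 := Real.log_neg hσ hσ1
    rw [abs_of_neg h3, abs_of_neg (by linarith)]
    linarith

/-- integrability of the integrand -/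
private theorem MtB_intA {a : ℕ → ℝ} {K : ℝ} (hK : ∀ x, 0 < x →
    |MtB_A a x - Real.log (max x 1)| ≤ K) {σ : ℝ} (hσ : 0 < σ) :
    MeasureTheory.IntegrableOn (fun v : ℝ => MtB_A a (v / σ) * Real.exp (-v)) (Set.Ioi 0) := by
  have h1 : MeasureTheory.IntegrableOn (fun v : ℝ => (K + |Real.log σ|) * Real.exp (-v)
      + |Real.log v| * Real.exp (-v)) (Set.Ioi 0) :=
    (MtB_int_exp.const_mul _).add MtB_int_abs_log
  refine MeasureTheory.Integrable.mono' h1 ?_ ?_
  · exact (((MtB_A_meas a).comp (measurable_id.div_const σ)).mul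
      (Real.measurable_exp.comp measurable_neg)).aestronglyMeasurable
  · filter_upwards [MeasureTheory.ae_restrict_mem measurableSet_Ioi] with v hv
    have hv0 : (0 : ℝ) < v := hv
    rw [Real.norm_eq_abs, abs_mul, abs_of_pos (Real.exp_pos _), ← add_mul]
    refine mul_le_mul_of_nonneg_right ?_ (Real.exp_pos _).le
    have h2 := hK (v / σ) (by positivity)
    have h3 : |Real.log (max (v / σ) 1)| ≤ |Real.log σ| + |Real.log v| := by
      rcases le_total 1 (v / σ) with h | h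
      · rw [max_eq_left h, Real.log_div hv0.ne' hσ.ne']
        have := abs_sub (Real.log v) (Real.log σ)
        linarith
      · rw [max_eq_right h, Real.log_one, abs_zero]
        positivity
    have h4 : |MtB_A a (v / σ)| ≤ |MtB_A a (v / σ) - Real.log (max (v / σ) 1)|
        + |Real.log (max (v / σ) 1)| := by
      have := abs_add_le (MtB_A a (v / σ) - Real.log (max (v / σ) 1)) (Real.log (max (v / σ) 1))
      rwa [sub_add_cancel] at this
    linarith

/-- the summands as functions of `v` -/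
private noncomputable def MtB_F (a : ℕ → ℝ) (σ : ℝ) (n : ℕ) (v : ℝ) : ℝ :=
  a n * (Set.Ici (σ * Real.log n)).indicator (fun v => Real.exp (-v)) v

private theorem MtB_F_int {a : ℕ → ℝ} (σ : ℝ) (n : ℕ) :
    MeasureTheory.IntegrableOn (MtB_F a σ n) (Set.Ioi 0) :=
  (MtB_int_exp.indicator measurableSet_Ici).const_mul _

private theorem MtB_F_integral {a : ℕ → ℝ} (h0 : a 0 = 0) (h1 : a 1 = 0) {σ : ℝ} (hσ : 0 < σ)
    (n : ℕ) : ∫ v in Set.Ioi (0 : ℝ), MtB_F a σ n v = a n * (n : ℝ) ^ (-σ) := by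
  unfold MtB_F
  rw [MeasureTheory.integral_const_mul]
  rcases Nat.lt_or_ge n 2 with h | h
  · interval_cases n
    · rw [h0]; simp
    · rw [h1]; simp
  · congr 1
    have hn : (1 : ℝ) < n := by exact_mod_cast (by omega : 1 < n)
    have hl : 0 < Real.log n := Real.log_pos hn
    have hs : 0 < σ * Real.log n := mul_pos hσ hl
    rw [MeasureTheory.setIntegral_indicator measurableSet_Ici]
    have hset : Set.Ioi (0 : ℝ) ∩ Set.Ici (σ * Real.log n) = Set.Ici (σ * Real.log n) :=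
      Set.inter_eq_right.2 fun v hv => lt_of_lt_of_le hs hv
    rw [hset, MeasureTheory.integral_Ici_eq_integral_Ioi, integral_exp_neg_Ioi,
      Real.rpow_def_of_pos (by linarith)]
    congr 1
    ring

private theorem MtB_F_sum {a : ℕ → ℝ} (h0 : a 0 = 0) {σ : ℝ} (hσ : 0 < σ) (v : ℝ) :
    HasSum (fun n => MtB_F a σ n v) (MtB_A a (v / σ) * Real.exp (-v)) := by
  have hE : 0 < Real.exp (v / σ) := Real.exp_pos _
  have h1 : ∀ n ∉ range (⌊Real.exp (v / σ)⌋₊ + 1), MtB_F a σ n v = 0 := by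
    intro n hn
    rw [Finset.mem_range, not_lt] at hn
    have h2 : Real.exp (v / σ) < n := (Nat.floor_lt hE.le).1 (by omega)
    have h3 : v / σ < Real.log n := by
      rw [Real.lt_log_iff_exp_lt (hE.trans h2)]; exact h2
    have h4 : v < σ * Real.log n := by
      rw [div_lt_iff₀ hσ] at h3; linarith
    unfold MtB_F
    rw [Set.indicator_of_notMem (by rw [Set.mem_Ici, not_le]; exact h4), mul_zero]
  have h2 : HasSum (fun n => MtB_F a σ n v)
      (∑ n ∈ range (⌊Real.exp (v / σ)⌋₊ + 1), MtB_F a σ n v) := hasSum_sum_of_ne_finset_zero h1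
  convert h2 using 1
  unfold MtB_A
  rw [Finset.sum_mul]
  refine Finset.sum_congr rfl fun n hn => ?_
  unfold MtB_F
  rcases Nat.eq_zero_or_pos n with h3 | h3
  · rw [h3, h0]; simp
  · have h4 : n ≤ ⌊Real.exp (v / σ)⌋₊ := by
      rw [Finset.mem_range] at hn; omega
    have h5 : (n : ℝ) ≤ Real.exp (v / σ) := (Nat.le_floor_iff hE.le).1 h4
    have h6 : Real.log n ≤ v / σ := by
      rw [Real.log_le_iff_le_exp (by exact_mod_cast h3)]; exact h5
    have h7 : σ * Real.log n ≤ v := by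
      rw [le_div_iff₀ hσ] at h6; linarith
    rw [Set.indicator_of_mem (show v ∈ Set.Ici (σ * Real.log n) from h7)]

private theorem MtB_F_nonneg {a : ℕ → ℝ} (ha : ∀ n, 0 ≤ a n) (σ : ℝ) (n : ℕ) (v : ℝ) :
    0 ≤ MtB_F a σ n v :=
  mul_nonneg (ha n) (Set.indicator_nonneg (fun _ _ => (Real.exp_pos _).le) _)

private theorem MtB_hasSum {a : ℕ → ℝ} (ha : ∀ n, 0 ≤ a n) (h0 : a 0 = 0) (h1 : a 1 = 0) {K : ℝ}
    (hK : ∀ x, 0 < x → |MtB_A a x - Real.log (max x 1)| ≤ K) {σ : ℝ} (hσ : 0 < σ) :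
    HasSum (fun n : ℕ => a n * (n : ℝ) ^ (-σ))
      (∫ v in Set.Ioi (0 : ℝ), MtB_A a (v / σ) * Real.exp (-v)) := by
  have hint := MtB_intA hK hσ
  have hsum : Summable fun n : ℕ => a n * (n : ℝ) ^ (-σ) := by
    refine summable_of_sum_range_le (c := ∫ v in Set.Ioi (0 : ℝ), MtB_A a (v / σ) * Real.exp (-v))
      (fun n => mul_nonneg (ha n) (Real.rpow_nonneg (Nat.cast_nonneg _) _)) fun N => ?_
    have e1 : ∑ i ∈ range N, a i * (i : ℝ) ^ (-σ)
        = ∫ v in Set.Ioi (0 : ℝ), ∑ i ∈ range N, MtB_F a σ i v := by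
      rw [MeasureTheory.integral_finsetSum _ fun i _ => MtB_F_int σ i]
      exact Finset.sum_congr rfl fun i _ => (MtB_F_integral h0 h1 hσ i).symm
    rw [e1]
    refine MeasureTheory.setIntegral_mono_on
      (MeasureTheory.integrable_finsetSum _ fun i _ => MtB_F_int σ i) hint measurableSet_Ioi
      fun v hv => ?_
    exact sum_le_hasSum _ (fun i _ => MtB_F_nonneg ha σ i v) (MtB_F_sum h0 hσ v)
  have h2 := MeasureTheory.hasSum_integral_of_summable_integral_norm
    (μ := MeasureTheory.volume.restrict (Set.Ioi (0 : ℝ))) (F := MtB_F a σ)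
    (fun i => MtB_F_int σ i) (by
      refine hsum.congr fun n => ?_
      rw [← MtB_F_integral h0 h1 hσ n]
      refine MeasureTheory.integral_congr_ae (Filter.Eventually.of_forall fun v => ?_)
      exact (Real.norm_of_nonneg (MtB_F_nonneg ha σ n v)).symm)
  have h3 : ∫ v in Set.Ioi (0 : ℝ), ∑' n, MtB_F a σ n v
      = ∫ v in Set.Ioi (0 : ℝ), MtB_A a (v / σ) * Real.exp (-v) :=
    MeasureTheory.setIntegral_congr_fun measurableSet_Ioi fun v _ =>
      (MtB_F_sum h0 hσ v).tsum_eq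
  rw [h3] at h2
  refine h2.congr_fun ?_
  intro n
  exact (MtB_F_integral h0 h1 hσ n).symm

theorem abel_exp (a : ℕ → ℝ) (ha : ∀ n, 0 ≤ a n) (h0 : a 0 = 0) (h1 : a 1 = 0) (c : ℝ)
    (hS : Tendsto (fun n : ℕ => ∑ k ∈ range (n + 1), a k - Real.log (Real.log n)) atTop (nhds c)) :
    (∀ σ : ℝ, 0 < σ → Summable (fun n : ℕ => a n * (n : ℝ) ^ (-σ))) ∧
    Tendsto (fun σ : ℝ => ∑' n : ℕ, a n * (n : ℝ) ^ (-σ) + Real.log σ) (nhdsWithin 0 (Set.Ioi 0))
      (nhds (c - Real.eulerMascheroniConstant)) := by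
  obtain ⟨K, hK0, hK⟩ := MtB_bdd ha hS
  refine ⟨fun σ hσ => (MtB_hasSum ha h0 h1 hK hσ).summable, ?_⟩
  have hlim : ∫ v in Set.Ioi (0 : ℝ), (Real.log v + c) * Real.exp (-v)
      = c - Real.eulerMascheroniConstant := by
    have e1 : ∀ v : ℝ, (Real.log v + c) * Real.exp (-v)
        = Real.log v * Real.exp (-v) + c * Real.exp (-v) := fun v => by ring
    simp_rw [e1]
    rw [MeasureTheory.integral_add MtB_int_log (MtB_int_exp.const_mul c),
      MeasureTheory.integral_const_mul, int_log_exp, integral_exp_neg_Ioi_zero]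
    ring
  rw [← hlim]
  have hkey : Tendsto (fun σ : ℝ => ∫ v in Set.Ioi (0 : ℝ),
      (MtB_A a (v / σ) + Real.log σ) * Real.exp (-v)) (nhdsWithin 0 (Set.Ioi 0))
      (nhds (∫ v in Set.Ioi (0 : ℝ), (Real.log v + c) * Real.exp (-v))) := by
    refine MeasureTheory.tendsto_integral_filter_of_dominated_convergence
      (fun v : ℝ => K * Real.exp (-v) + |Real.log v| * Real.exp (-v)) ?_ ?_
      ((MtB_int_exp.const_mul K).add MtB_int_abs_log) ?_
    · refine Filter.Eventually.of_forall fun σ => ?_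
      exact ((((MtB_A_meas a).comp (measurable_id.div_const σ)).add_const _).mul
        (Real.measurable_exp.comp measurable_neg)).aestronglyMeasurable
    · have h2 : Set.Ioo (0 : ℝ) 1 ∈ nhdsWithin (0 : ℝ) (Set.Ioi 0) :=
        Ioo_mem_nhdsGT one_pos
      filter_upwards [h2] with σ hσ
      filter_upwards [MeasureTheory.ae_restrict_mem measurableSet_Ioi] with v hv
      have hv0 : (0 : ℝ) < v := hv
      rw [Real.norm_eq_abs, abs_mul, abs_of_pos (Real.exp_pos _), ← add_mul]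
      refine mul_le_mul_of_nonneg_right ?_ (Real.exp_pos _).le
      have h3 := hK (v / σ) (div_pos hv0 hσ.1)
      have h4 := MtB_abs_log_max hv0 hσ.1 hσ.2
      have h5 := abs_add_le (MtB_A a (v / σ) - Real.log (max (v / σ) 1))
        (Real.log (max (v / σ) 1) + Real.log σ)
      have h6 : MtB_A a (v / σ) - Real.log (max (v / σ) 1)
        + (Real.log (max (v / σ) 1) + Real.log σ) = MtB_A a (v / σ) + Real.log σ := by ring
      rw [h6] at h5
      linarith
    · filter_upwards [MeasureTheory.ae_restrict_mem measurableSet_Ioi] with v hv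
      have hv0 : (0 : ℝ) < v := hv
      refine Tendsto.mul_const _ ?_
      have h2 : Tendsto (fun σ : ℝ => v / σ) (nhdsWithin 0 (Set.Ioi 0)) atTop := by
        have := (tendsto_inv_nhdsGT_zero (𝕜 := ℝ)).const_mul_atTop hv0
        simpa [div_eq_mul_inv] using this
      have h3 := ((MtB_lim hS).comp h2).const_add (Real.log v)
      refine h3.congr' ?_
      filter_upwards [self_mem_nhdsWithin] with σ hσ
      have hσ0 : (0 : ℝ) < σ := hσ
      simp only [Function.comp]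
      rw [Real.log_div hv0.ne' hσ0.ne']
      ring
  refine hkey.congr' ?_
  filter_upwards [self_mem_nhdsWithin] with σ hσ
  have hσ0 : (0 : ℝ) < σ := hσ
  rw [(MtB_hasSum ha h0 h1 hK hσ0).tsum_eq]
  have e1 : ∀ v : ℝ, (MtB_A a (v / σ) + Real.log σ) * Real.exp (-v)
      = MtB_A a (v / σ) * Real.exp (-v) + Real.log σ * Real.exp (-v) := fun v => by ring
  simp_rw [e1]
  rw [MeasureTheory.integral_add (MtB_intA hK hσ0) (MtB_int_exp.const_mul _),
    MeasureTheory.integral_const_mul, integral_exp_neg_Ioi_zero, mul_one]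

end Pool.Agent.H36.IS

end

section

/-!
# IS MtC: the Euler product near 1

For σ > 0: ∑_p -log(1 - p^{-1-σ}) = log ζ(1+σ) (real zeta; Euler product of Mathlib: `riemannZeta_eulerProduct_exp_log`,
`riemannZeta_eulerProduct_tprod`, or for real s > 1 through the complex statement), and log ζ(1+σ) + log σ → 0 as σ → 0+ (σ ζ(1+σ) → 1:
`riemannZeta_residue_one`, `tendsto_riemannZeta_sub_one_div`).
Then ∑_p (-log(1-1/p)) p^{-σ} - ∑_p -log(1 - p^{-1-σ}) = ∑_p ∑_{k≥2} (p^{-k-σ} - p^{-k(1+σ)})/k → 0 by dominated convergence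
(0 ≤ terms ≤ ∑_{k≥2} p^{-k} ≤ 2/p²; each term tends to 0; `tendsto_tsum_of_dominated_convergence`).
-/

set_option autoImplicit false

namespace Pool.Agent.H36.IS

open Finset Filter

private theorem MtC_log_bd {x : ℝ} (h0 : 0 ≤ x) (h1 : x ≤ 1 / 2) :
    |x + Real.log (1 - x)| ≤ 2 * x ^ 2 := by
  have h := Real.abs_log_sub_add_sum_range_le (x := x) (by rw [abs_of_nonneg h0]; linarith) 1
  simp only [Finset.sum_range_one, Nat.cast_zero, zero_add, pow_one, div_one, abs_of_nonneg h0]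
    at h
  refine le_trans h ?_
  rw [div_le_iff₀ (by linarith)]
  have h2 : 0 ≤ x ^ 2 * (1 - 2 * x) := mul_nonneg (sq_nonneg x) (by linarith)
  have h3 : x ^ (1 + 1) = x ^ 2 := by norm_num
  rw [h3]
  nlinarith

private theorem MtC_log_nonneg {x : ℝ} (h0 : 0 ≤ x) (h1 : x ≤ 1 / 2) :
    0 ≤ -Real.log (1 - x) := by
  have := Real.log_nonpos (x := 1 - x) (by linarith) (by linarith)
  linarith

private theorem MtC_log_le {x : ℝ} (h0 : 0 ≤ x) (h1 : x ≤ 1 / 2) :
    -Real.log (1 - x) ≤ 2 * x := by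
  have := (abs_le.mp (MtC_log_bd h0 h1)).1
  nlinarith

private theorem MtC_inv_le (p : Nat.Primes) : 1 / ((p : ℕ) : ℝ) ≤ 1 / 2 := by
  have : (2 : ℝ) ≤ ((p : ℕ) : ℝ) := by exact_mod_cast p.2.two_le
  exact one_div_le_one_div_of_le (by norm_num) this

private theorem MtC_y (p : Nat.Primes) (σ : ℝ) :
    ((p : ℕ) : ℝ) ^ (-(1 + σ)) = 1 / ((p : ℕ) : ℝ) * ((p : ℕ) : ℝ) ^ (-σ) := by
  have hp : (0 : ℝ) < ((p : ℕ) : ℝ) := by exact_mod_cast p.2.pos
  rw [neg_add, Real.rpow_add hp, Real.rpow_neg_one, one_div]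

private theorem MtC_pow_le (p : Nat.Primes) {σ : ℝ} (hσ : 0 ≤ σ) :
    ((p : ℕ) : ℝ) ^ (-σ) ≤ 1 := by
  have h1 : (1 : ℝ) ≤ ((p : ℕ) : ℝ) := by exact_mod_cast p.2.one_le
  exact Real.rpow_le_one_of_one_le_of_nonpos h1 (by linarith)

private theorem MtC_pow_pos (p : Nat.Primes) (σ : ℝ) : 0 < ((p : ℕ) : ℝ) ^ (-σ) := by
  have hp : (0 : ℝ) < ((p : ℕ) : ℝ) := by exact_mod_cast p.2.pos
  exact Real.rpow_pos_of_pos hp _

private theorem MtC_y_bd (p : Nat.Primes) {σ : ℝ} (hσ : 0 ≤ σ) :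
    0 ≤ ((p : ℕ) : ℝ) ^ (-(1 + σ)) ∧ ((p : ℕ) : ℝ) ^ (-(1 + σ)) ≤ 1 / ((p : ℕ) : ℝ) := by
  have hp : (0 : ℝ) < ((p : ℕ) : ℝ) := by exact_mod_cast p.2.pos
  rw [MtC_y]
  constructor
  · exact mul_nonneg (by positivity) (MtC_pow_pos p σ).le
  · calc 1 / ((p : ℕ) : ℝ) * ((p : ℕ) : ℝ) ^ (-σ) ≤ 1 / ((p : ℕ) : ℝ) * 1 :=
        mul_le_mul_of_nonneg_left (MtC_pow_le p hσ) (by positivity)
      _ = 1 / ((p : ℕ) : ℝ) := mul_one _

/-- the logarithm of the Euler product -/
private noncomputable def MtC_L (σ : ℝ) : ℝ :=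
  ∑' p : Nat.Primes, -Real.log (1 - ((p : ℕ) : ℝ) ^ (-(1 + σ)))

private theorem MtC_zeta {σ : ℝ} (hσ : 0 < σ) :
    riemannZeta ((1 + σ : ℝ) : ℂ) = ((Real.exp (MtC_L σ) : ℝ) : ℂ) := by
  have h := riemannZeta_eulerProduct_exp_log (s := ((1 + σ : ℝ) : ℂ))
    (by rw [Complex.ofReal_re]; linarith)
  rw [← h, Complex.ofReal_exp]
  congr 1
  rw [MtC_L, Complex.ofReal_tsum]
  refine tsum_congr (fun p => ?_)
  have hp : (0 : ℝ) ≤ ((p : ℕ) : ℝ) := Nat.cast_nonneg _
  have hy := MtC_y_bd p hσ.le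
  have hx := MtC_inv_le p
  have e1 : (((p : ℕ) : ℂ)) ^ (-((1 + σ : ℝ) : ℂ)) = ((((p : ℕ) : ℝ) ^ (-(1 + σ)) : ℝ) : ℂ) := by
    rw [Complex.ofReal_cpow hp]
    push_cast
    rfl
  rw [e1, Complex.ofReal_neg, Complex.ofReal_log (by linarith [hy.2])]
  push_cast
  rfl

private theorem MtC_lim_L : Tendsto (fun σ : ℝ => MtC_L σ + Real.log σ)
    (nhdsWithin 0 (Set.Ioi 0)) (nhds 0) := by
  have h1 : Tendsto (fun σ : ℝ => ((1 + σ : ℝ) : ℂ)) (nhdsWithin 0 (Set.Ioi 0))
      (nhdsWithin 1 {(1 : ℂ)}ᶜ) := by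
    rw [tendsto_nhdsWithin_iff]
    constructor
    · have hc : Continuous (fun σ : ℝ => ((1 + σ : ℝ) : ℂ)) := by fun_prop
      have := (hc.tendsto 0).mono_left (nhdsWithin_le_nhds (s := Set.Ioi (0 : ℝ)))
      simpa using this
    · filter_upwards [self_mem_nhdsWithin] with σ hσ
      simp only [Set.mem_compl_iff, Set.mem_singleton_iff]
      intro h
      have h2 : (1 + σ : ℝ) = 1 := by exact_mod_cast h
      have : (0 : ℝ) < σ := hσ
      linarith
  have h2 := riemannZeta_residue_one.comp h1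
  have h3 : Tendsto (fun σ : ℝ => σ * Real.exp (MtC_L σ)) (nhdsWithin 0 (Set.Ioi 0)) (nhds 1) := by
    have h4 := (Complex.continuous_re.tendsto 1).comp h2
    rw [Complex.one_re] at h4
    refine h4.congr' ?_
    filter_upwards [self_mem_nhdsWithin] with σ hσ
    have hσ' : (0 : ℝ) < σ := hσ
    simp only [Function.comp]
    rw [MtC_zeta hσ']
    have : (((1 + σ : ℝ) : ℂ) - 1) * ((Real.exp (MtC_L σ) : ℝ) : ℂ) =
        ((σ * Real.exp (MtC_L σ) : ℝ) : ℂ) := by
      push_cast; ring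
    rw [this, Complex.ofReal_re]
  have h5 := (Real.continuousAt_log (x := 1) one_ne_zero).tendsto.comp h3
  rw [Real.log_one] at h5
  refine h5.congr' ?_
  filter_upwards [self_mem_nhdsWithin] with σ hσ
  have hσ' : (0 : ℝ) < σ := hσ
  simp only [Function.comp]
  rw [Real.log_mul hσ'.ne' (Real.exp_pos _).ne', Real.log_exp]
  ring

private theorem MtC_sumL {σ : ℝ} (hσ : 0 < σ) :
    Summable (fun p : Nat.Primes => -Real.log (1 - ((p : ℕ) : ℝ) ^ (-(1 + σ)))) := by
  have hs : Summable (fun p : Nat.Primes => 2 * ((p : ℕ) : ℝ) ^ (-(1 + σ))) :=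
    (Nat.Primes.summable_rpow.mpr (by linarith)).mul_left 2
  refine Summable.of_nonneg_of_le (fun p => ?_) (fun p => ?_) hs
  · have hy := MtC_y_bd p hσ.le
    exact MtC_log_nonneg hy.1 (le_trans hy.2 (MtC_inv_le p))
  · have hy := MtC_y_bd p hσ.le
    exact MtC_log_le hy.1 (le_trans hy.2 (MtC_inv_le p))

private theorem MtC_sumF {σ : ℝ} (hσ : 0 < σ) :
    Summable (fun p : Nat.Primes => -Real.log (1 - 1 / ((p : ℕ) : ℝ)) * ((p : ℕ) : ℝ) ^ (-σ)) := by
  have hs : Summable (fun p : Nat.Primes => 2 * ((p : ℕ) : ℝ) ^ (-(1 + σ))) :=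
    (Nat.Primes.summable_rpow.mpr (by linarith)).mul_left 2
  refine Summable.of_nonneg_of_le (fun p => ?_) (fun p => ?_) hs
  · exact mul_nonneg (MtC_log_nonneg (by positivity) (MtC_inv_le p)) (MtC_pow_pos p σ).le
  · rw [MtC_y, ← mul_assoc]
    exact mul_le_mul_of_nonneg_right (MtC_log_le (by positivity) (MtC_inv_le p))
      (MtC_pow_pos p σ).le

private theorem MtC_diff : Tendsto (fun σ : ℝ => ∑' p : Nat.Primes,
    (-Real.log (1 - 1 / ((p : ℕ) : ℝ)) * ((p : ℕ) : ℝ) ^ (-σ) -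
      -Real.log (1 - ((p : ℕ) : ℝ) ^ (-(1 + σ))))) (nhdsWithin 0 (Set.Ioi 0)) (nhds 0) := by
  have hs : Summable (fun p : Nat.Primes => 4 * ((p : ℕ) : ℝ) ^ (-2 : ℝ)) :=
    (Nat.Primes.summable_rpow.mpr (by norm_num)).mul_left 4
  have h := tendsto_tsum_of_dominated_convergence (𝓕 := nhdsWithin (0 : ℝ) (Set.Ioi 0))
    (f := fun (σ : ℝ) (p : Nat.Primes) =>
      (-Real.log (1 - 1 / ((p : ℕ) : ℝ)) * ((p : ℕ) : ℝ) ^ (-σ) -
      -Real.log (1 - ((p : ℕ) : ℝ) ^ (-(1 + σ))))) (g := fun _ => (0 : ℝ)) hs ?_ ?_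
  · simpa using h
  · intro p
    have hp : (0 : ℝ) < ((p : ℕ) : ℝ) := by exact_mod_cast p.2.pos
    have hx := MtC_inv_le p
    have hc : ContinuousAt (fun σ : ℝ => (-Real.log (1 - 1 / ((p : ℕ) : ℝ)) *
        ((p : ℕ) : ℝ) ^ (-σ) - -Real.log (1 - ((p : ℕ) : ℝ) ^ (-(1 + σ))))) 0 := by
      have c1 : ContinuousAt (fun σ : ℝ => ((p : ℕ) : ℝ) ^ (-σ)) 0 :=
        ((Real.continuous_const_rpow hp.ne').comp continuous_neg).continuousAt
      have c2 : ContinuousAt (fun σ : ℝ => ((p : ℕ) : ℝ) ^ (-(1 + σ))) 0 :=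
        ((Real.continuous_const_rpow hp.ne').comp (by fun_prop)).continuousAt
      have c3 : ContinuousAt (fun σ : ℝ => Real.log (1 - ((p : ℕ) : ℝ) ^ (-(1 + σ)))) 0 := by
        refine ContinuousAt.log (continuousAt_const.sub c2) ?_
        have hy : ((p : ℕ) : ℝ) ^ (-(1 + (0 : ℝ))) ≤ 1 / 2 :=
          le_trans (MtC_y_bd p (σ := 0) le_rfl).2 hx
        have : (0 : ℝ) < 1 - ((p : ℕ) : ℝ) ^ (-(1 + (0 : ℝ))) :=
          sub_pos.mpr (lt_of_le_of_lt hy (by norm_num))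
        exact this.ne'
      exact (continuousAt_const.mul c1).sub c3.neg
    have h2 := hc.tendsto.mono_left (nhdsWithin_le_nhds (s := Set.Ioi (0 : ℝ)))
    have e : (-Real.log (1 - 1 / ((p : ℕ) : ℝ)) * ((p : ℕ) : ℝ) ^ (-(0 : ℝ)) -
        -Real.log (1 - ((p : ℕ) : ℝ) ^ (-(1 + (0 : ℝ))))) = 0 := by
      rw [MtC_y, neg_zero, Real.rpow_zero, mul_one, mul_one, sub_self]
    rw [e] at h2
    exact h2
  · filter_upwards [self_mem_nhdsWithin] with σ hσ p
    have hσ' : (0 : ℝ) < σ := hσ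
    have hp : (0 : ℝ) < ((p : ℕ) : ℝ) := by exact_mod_cast p.2.pos
    have hx := MtC_inv_le p
    have hy := MtC_y_bd p hσ'.le
    have hw := MtC_pow_pos p σ
    have hw1 := MtC_pow_le p hσ'.le
    have b1 := MtC_log_bd (x := 1 / ((p : ℕ) : ℝ)) (by positivity) hx
    have b2 := MtC_log_bd hy.1 (le_trans hy.2 hx)
    have e : (-Real.log (1 - 1 / ((p : ℕ) : ℝ)) * ((p : ℕ) : ℝ) ^ (-σ) -
        -Real.log (1 - ((p : ℕ) : ℝ) ^ (-(1 + σ)))) =
        (((p : ℕ) : ℝ) ^ (-(1 + σ)) + Real.log (1 - ((p : ℕ) : ℝ) ^ (-(1 + σ)))) -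
        (1 / ((p : ℕ) : ℝ) + Real.log (1 - 1 / ((p : ℕ) : ℝ))) * ((p : ℕ) : ℝ) ^ (-σ) := by
      rw [MtC_y]; ring
    rw [Real.norm_eq_abs, e]
    have b3 : |(1 / ((p : ℕ) : ℝ) + Real.log (1 - 1 / ((p : ℕ) : ℝ))) * ((p : ℕ) : ℝ) ^ (-σ)| ≤
        2 * (1 / ((p : ℕ) : ℝ)) ^ 2 := by
      rw [abs_mul, abs_of_pos hw]
      calc _ ≤ |1 / ((p : ℕ) : ℝ) + Real.log (1 - 1 / ((p : ℕ) : ℝ))| * 1 :=
            mul_le_mul_of_nonneg_left hw1 (abs_nonneg _)
        _ ≤ _ := by rw [mul_one]; exact b1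
    have b4 : 2 * (((p : ℕ) : ℝ) ^ (-(1 + σ))) ^ 2 ≤ 2 * (1 / ((p : ℕ) : ℝ)) ^ 2 := by
      have := pow_le_pow_left₀ hy.1 hy.2 2
      linarith
    have e2 : ((p : ℕ) : ℝ) ^ (-2 : ℝ) = (1 / ((p : ℕ) : ℝ)) ^ 2 := by
      rw [Real.rpow_neg hp.le, one_div, inv_pow]
      norm_num
    rw [e2]
    calc _ ≤ |((p : ℕ) : ℝ) ^ (-(1 + σ)) + Real.log (1 - ((p : ℕ) : ℝ) ^ (-(1 + σ)))| +
        |(1 / ((p : ℕ) : ℝ) + Real.log (1 - 1 / ((p : ℕ) : ℝ))) * ((p : ℕ) : ℝ) ^ (-σ)| :=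
          abs_sub _ _
      _ ≤ 4 * (1 / ((p : ℕ) : ℝ)) ^ 2 := by linarith

theorem euler_near_one : Tendsto (fun σ : ℝ =>
    ∑' n : ℕ, (if n.Prime then -Real.log (1 - 1 / (n : ℝ)) else 0) * (n : ℝ) ^ (-σ) + Real.log σ)
      (nhdsWithin 0 (Set.Ioi 0)) (nhds 0) := by
  have h := MtC_diff.add MtC_lim_L
  rw [add_zero] at h
  refine h.congr' ?_
  filter_upwards [self_mem_nhdsWithin] with σ hσ
  have hσ' : (0 : ℝ) < σ := hσ
  have e1 : ∑' n : ℕ, (if n.Prime then -Real.log (1 - 1 / (n : ℝ)) else 0) * (n : ℝ) ^ (-σ) =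
      ∑' p : Nat.Primes, -Real.log (1 - 1 / ((p : ℕ) : ℝ)) * ((p : ℕ) : ℝ) ^ (-σ) := by
    have := tsum_subtype {n : ℕ | n.Prime}
      (fun n : ℕ => -Real.log (1 - 1 / (n : ℝ)) * (n : ℝ) ^ (-σ))
    refine Eq.trans ?_ this.symm
    refine tsum_congr (fun n => ?_)
    by_cases hn : n.Prime
    · rw [if_pos hn, Set.indicator_of_mem (by exact hn)]
    · rw [if_neg hn, Set.indicator_of_notMem (by exact hn), zero_mul]
  rw [e1, (MtC_sumF hσ').tsum_sub (MtC_sumL hσ'), MtC_L]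
  ring

end Pool.Agent.H36.IS

end

section

/-!
# ISP QArr: the array ∑_q [q] c_q

Qs, P' disjoint subsets of P, cq q supported on subsets of P'.  A set T contributes to `qarr` only if T = insert q T' with T' ⊆ P' and q ∈ Qs, q is the
only element of T in Qs.  So ev (qarr) P y = ∑_{q ∈ Qs} y q · ev (cq q) P y.
-/

set_option autoImplicit false

namespace Pool.Agent.H36.IS2

open Finset Filter Pool.Agent.H36.IS

open Pool.Agent.H91.PK (ev)

theorem qarr_ev {P Qs P' : Finset ℕ} (hQ : Qs ⊆ P) (hP' : P' ⊆ P) (hd : Disjoint Qs P') {cq : ℕ → Finset ℕ → ℝ}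
    (hc : ∀ q ∈ Qs, ∀ T, cq q T ≠ 0 → T ⊆ P') (y : ℕ → ℝ) :
    ev (qarr Qs cq) P y = ∑ q ∈ Qs, y q * ev (cq q) P y := by
  have h1 : ev (qarr Qs cq) P y = ∑ q ∈ Qs, ∑ T ∈ P.powerset,
      (if q ∈ T then cq q (T.erase q) else 0) * ∏ p ∈ T, y p := by
    rw [Finset.sum_comm]
    unfold ev qarr
    refine Finset.sum_congr rfl fun T _ => ?_
    rw [Finset.sum_mul]
  rw [h1]
  refine Finset.sum_congr rfl fun q hq => ?_
  unfold ev
  have hins : insert q (P.erase q) = P := Finset.insert_erase (hQ hq)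
  have hnot : q ∉ P.erase q := Finset.notMem_erase q P
  rw [← hins, Finset.sum_powerset_insert hnot, Finset.sum_powerset_insert hnot]
  have e1 : ∑ t ∈ (P.erase q).powerset, (if q ∈ t then cq q (t.erase q) else 0) * ∏ p ∈ t, y p = 0 := by
    refine Finset.sum_eq_zero fun t ht => ?_
    rw [Finset.mem_powerset] at ht
    rw [if_neg (fun h => hnot (ht h)), zero_mul]
  have e2 : ∑ t ∈ (P.erase q).powerset, cq q (insert q t) * ∏ p ∈ insert q t, y p = 0 := by
    refine Finset.sum_eq_zero fun t _ => ?_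
    have h3 : cq q (insert q t) = 0 := by
      by_contra h4
      have h5 := hc q hq _ h4 (Finset.mem_insert_self q t)
      exact (Finset.disjoint_left.1 hd hq) h5
    rw [h3, zero_mul]
  rw [e1, e2, zero_add, add_zero, Finset.mul_sum]
  refine Finset.sum_congr rfl fun t ht => ?_
  rw [Finset.mem_powerset] at ht
  have hqt : q ∉ t := fun h => hnot (ht h)
  rw [if_pos (Finset.mem_insert_self q t), Finset.erase_insert hqt, Finset.prod_insert hqt]
  ring

theorem qarr_sup {Qs P' : Finset ℕ} (hd : Disjoint Qs P') {cq : ℕ → Finset ℕ → ℝ}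
    (hc : ∀ q ∈ Qs, ∀ T, cq q T ≠ 0 → T ⊆ P') (T : Finset ℕ) (hT : qarr Qs cq T ≠ 0) :
    ∃ q ∈ Qs, q ∈ T ∧ cq q (T.erase q) ≠ 0 ∧ qarr Qs cq T = cq q (T.erase q) := by
  have h1 : ∃ q ∈ Qs, (if q ∈ T then cq q (T.erase q) else 0) ≠ 0 := by
    by_contra hcon
    push Not at hcon
    exact hT (Finset.sum_eq_zero hcon)
  obtain ⟨q, hq, h2⟩ := h1
  have hqT : q ∈ T := by
    by_contra h3
    rw [if_neg h3] at h2
    exact h2 rfl
  rw [if_pos hqT] at h2
  refine ⟨q, hq, hqT, h2, ?_⟩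
  unfold qarr
  rw [Finset.sum_eq_single q]
  · rw [if_pos hqT]
  · intro q' hq' hne
    rw [if_neg]
    intro h3
    have h4 : q' ∈ T.erase q := Finset.mem_erase.2 ⟨hne, h3⟩
    exact (Finset.disjoint_left.1 hd hq') (hc q hq _ h2 h4)
  · intro h3
    exact absurd hq h3

theorem qarr_bd {Qs P' : Finset ℕ} (hd : Disjoint Qs P') {cq : ℕ → Finset ℕ → ℝ}
    (hc : ∀ q ∈ Qs, ∀ T, cq q T ≠ 0 → T ⊆ P') (hb : ∀ q ∈ Qs, ∀ T, |cq q T| ≤ 1) (T : Finset ℕ) : |qarr Qs cq T| ≤ 1 := by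
  by_cases hT : qarr Qs cq T = 0
  · rw [hT, abs_zero]
    norm_num
  · obtain ⟨q, hq, _, _, h⟩ := qarr_sup hd hc T hT
    rw [h]
    exact hb q hq _

end Pool.Agent.H36.IS2

end

section

/-!
# IS MD: the data of a mark

`mk x m` is the mark (a property of the integer `m = n + h i`), implied by nothing and implying `R m`.
`l x`, `q1 x`, `q2 x` are the relative densities: lower bound for one mark, upper bound for one mark, upper bound for two
marks.  `c` is a lower bound of `l^2/q2`.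
-/

set_option autoImplicit false

namespace Pool.Agent.H36.IS

open Finset Filter

open Classical in
def MarkData (R : ℕ → Prop) (δ θ c : ℝ) : Prop :=
  ∃ (mk : ℕ → ℕ → Prop) (l q1 q2 : ℕ → ℝ) (c' C : ℝ), (∀ x m, mk x m → R m) ∧ 0 < c' ∧ 0 < C ∧
    (∀ᶠ x : ℕ in atTop, c' ≤ l x * tau x ∧ 0 ≤ q1 x ∧ q1 x * tau x ≤ C ∧ 0 ≤ q2 x ∧ c * q2 x ≤ l x ^ 2) ∧
    ∀ (ι : Type) (_ : Fintype ι) (_ : DecidableEq ι) (h : ι → ℕ) (W b : ℕ), Good h W b → ∀ (K : ℝ) (A : ℕ),
      ∀ᶠ x : ℕ in atTop, ∀ y : Finset (ι × ℕ) → ℝ, Yok x δ θ K y →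
        (∀ i, Mn ι W x * l x * My ι x δ (pr (Si x δ i) (fo gi) y) - x / Real.log x ^ A ≤
            ∑ n ∈ (AA h W b x).filter (fun n => mk x (n + h i)), Ly h x δ y n ^ 2 ∧
          ∑ n ∈ (AA h W b x).filter (fun n => mk x (n + h i)), Ly h x δ y n ^ 2 ≤
            Mn ι W x * q1 x * My ι x δ (pr (Si x δ i) (fo gi) y) + x / Real.log x ^ A) ∧
        (∀ i j, i ≠ j →
          ∑ n ∈ (AA h W b x).filter (fun n => mk x (n + h i) ∧ mk x (n + h j)), Ly h x δ y n ^ 2 ≤
            Mn ι W x * q2 x * My ι x δ (pr (Si x δ i ∪ Si x δ j) (fo gi) y) + x / Real.log x ^ A)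

end Pool.Agent.H36.IS

end

section

/-!
# IS BlkA: sums over subsets of a disjoint union and of a product
-/

set_option autoImplicit false

namespace Pool.Agent.H36.IS

open Finset

theorem sum_pow_union {α : Type*} [DecidableEq α] {A B : Finset α} (h : Disjoint A B) (F : Finset α → ℝ) :
    ∑ R ∈ (A ∪ B).powerset, F R = ∑ R ∈ A.powerset, ∑ R' ∈ B.powerset, F (R ∪ R') := by
  rw [← Finset.sum_product']
  symm
  refine Finset.sum_bij' (fun p _ => p.1 ∪ p.2) (fun X _ => (X ∩ A, X ∩ B)) ?_ ?_ ?_ ?_ ?_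
  · intro p hp
    obtain ⟨h1, h2⟩ := Finset.mem_product.1 hp
    exact Finset.mem_powerset.2 (Finset.union_subset_union (Finset.mem_powerset.1 h1)
      (Finset.mem_powerset.1 h2))
  · intro X _
    exact Finset.mem_product.2 ⟨Finset.mem_powerset.2 Finset.inter_subset_right,
      Finset.mem_powerset.2 Finset.inter_subset_right⟩
  · intro p hp
    obtain ⟨h1, h2⟩ := Finset.mem_product.1 hp
    have h1' := Finset.mem_powerset.1 h1
    have h2' := Finset.mem_powerset.1 h2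
    ext e
    · simp only [Finset.mem_inter, Finset.mem_union]
      constructor
      · rintro ⟨h3 | h3, h4⟩
        · exact h3
        · exact absurd (h2' h3) (Finset.disjoint_left.1 h h4)
      · intro h3
        exact ⟨Or.inl h3, h1' h3⟩
    · simp only [Finset.mem_inter, Finset.mem_union]
      constructor
      · rintro ⟨h3 | h3, h4⟩
        · exact absurd h4 (Finset.disjoint_left.1 h (h1' h3))
        · exact h3
      · intro h3
        exact ⟨Or.inr h3, h2' h3⟩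
  · intro X hX
    rw [← Finset.inter_union_distrib_left]
    exact Finset.inter_eq_left.2 (Finset.mem_powerset.1 hX)
  · intro p _
    rfl

variable {ι : Type} [DecidableEq ι]

/-- the component `i` of `R` -/
def sec (R : Finset (ι × ℕ)) (i : ι) : Finset ℕ := (R.filter (fun e => e.1 = i)).image Prod.snd

theorem BlkA_mem_sec {R : Finset (ι × ℕ)} {i : ι} {p : ℕ} : p ∈ sec R i ↔ (i, p) ∈ R := by
  unfold sec
  simp only [Finset.mem_image, Finset.mem_filter]
  constructor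
  · rintro ⟨⟨j, q⟩, ⟨h1, h2⟩, h3⟩
    simp only at h2 h3
    rw [← h2, ← h3]
    exact h1
  · intro h
    exact ⟨(i, p), ⟨h, rfl⟩, rfl⟩

theorem BlkA_sec_inj (R : Finset (ι × ℕ)) (i : ι) :
    Set.InjOn Prod.snd (↑(R.filter (fun e => e.1 = i)) : Set (ι × ℕ)) := by
  rintro ⟨a, b⟩ h1 ⟨c, d⟩ h2 h3
  have h4 := (Finset.mem_filter.1 (Finset.mem_coe.1 h1)).2
  have h5 := (Finset.mem_filter.1 (Finset.mem_coe.1 h2)).2
  simp only at h3 h4 h5
  rw [h3, h4, h5]

theorem ell_sec [Fintype ι] (R : Finset (ι × ℕ)) (i : ι) : ell R i = lg (sec R i) := by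
  unfold ell lg sec
  rw [Finset.sum_image (BlkA_sec_inj R i)]

theorem prod_sec (I : Finset ι) (P : Finset ℕ) (f : ℕ → ℝ) (R : Finset (ι × ℕ)) (hR : R ⊆ I ×ˢ P) :
    ∏ e ∈ R, f e.2 = ∏ i ∈ I, ∏ p ∈ sec R i, f p := by
  have h1 : ∀ e ∈ R, e.1 ∈ I := fun e he => (Finset.mem_product.1 (hR he)).1
  rw [← Finset.prod_fiberwise_of_maps_to h1]
  refine Finset.prod_congr rfl fun i _ => ?_
  unfold sec
  rw [Finset.prod_image (BlkA_sec_inj R i)]

theorem BlkA_sum_single (i : ι) (P : Finset ℕ) (F : Finset ℕ → ℝ) :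
    ∑ R ∈ (({i} : Finset ι) ×ˢ P).powerset, F (sec R i) = ∑ S ∈ P.powerset, F S := by
  refine Finset.sum_bij' (fun R _ => sec R i) (fun S _ => ({i} : Finset ι) ×ˢ S) ?_ ?_ ?_ ?_ ?_
  · intro R hR
    refine Finset.mem_powerset.2 fun p hp => ?_
    exact (Finset.mem_product.1 (Finset.mem_powerset.1 hR (BlkA_mem_sec.1 hp))).2
  · intro S hS
    exact Finset.mem_powerset.2 (Finset.product_subset_product (Finset.Subset.refl _)
      (Finset.mem_powerset.1 hS))
  · intro R hR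
    ext ⟨j, p⟩
    simp only [Finset.mem_product, Finset.mem_singleton]
    constructor
    · rintro ⟨h1, h2⟩
      rw [h1]
      exact BlkA_mem_sec.1 h2
    · intro h
      have h1 := (Finset.mem_product.1 (Finset.mem_powerset.1 hR h)).1
      rw [Finset.mem_singleton] at h1
      simp only at h1
      exact ⟨h1, BlkA_mem_sec.2 (h1 ▸ h)⟩
  · intro S _
    ext p
    rw [BlkA_mem_sec]
    simp
  · intro R _
    rfl

theorem sum_pow_prod (I : Finset ι) (P : Finset ℕ) (F : ι → Finset ℕ → ℝ) :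
    ∑ R ∈ (I ×ˢ P).powerset, ∏ i ∈ I, F i (sec R i) = ∏ i ∈ I, ∑ S ∈ P.powerset, F i S := by
  induction I using Finset.induction_on with
  | empty => simp
  | insert i I hi ih =>
    have h1 : (insert i I) ×ˢ P = (({i} : Finset ι) ×ˢ P) ∪ (I ×ˢ P) := by
      rw [← Finset.union_product]
      rfl
    have hdis : Disjoint (({i} : Finset ι) ×ˢ P) (I ×ˢ P) := by
      rw [Finset.disjoint_left]
      rintro ⟨j, p⟩ h2 h3
      have h4 := (Finset.mem_product.1 h2).1
      have h5 := (Finset.mem_product.1 h3).1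
      simp only [Finset.mem_singleton] at h4 h5
      exact hi (h4 ▸ h5)
    rw [h1, sum_pow_union hdis, Finset.prod_insert hi, ← ih, ← BlkA_sum_single i P (F i),
      Finset.sum_mul_sum]
    refine Finset.sum_congr rfl fun R hR => Finset.sum_congr rfl fun R' hR' => ?_
    rw [Finset.prod_insert hi]
    have h6 : sec (R ∪ R') i = sec R i := by
      ext p
      rw [BlkA_mem_sec, BlkA_mem_sec, Finset.mem_union]
      constructor
      · rintro (h7 | h7)
        · exact h7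
        · exact absurd (Finset.mem_product.1 (Finset.mem_powerset.1 hR' h7)).1 hi
      · exact Or.inl
    have h8 : ∏ j ∈ I, F j (sec (R ∪ R') j) = ∏ j ∈ I, F j (sec R' j) := by
      refine Finset.prod_congr rfl fun j hj => ?_
      congr 1
      ext p
      rw [BlkA_mem_sec, BlkA_mem_sec, Finset.mem_union]
      constructor
      · rintro (h7 | h7)
        · have h9 := (Finset.mem_product.1 (Finset.mem_powerset.1 hR h7)).1
          rw [Finset.mem_singleton] at h9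
          simp only at h9
          exact absurd (h9 ▸ hj) hi
        · exact h7
      · exact Or.inr
    rw [h6, h8]

end Pool.Agent.H36.IS

end

section

/-!
# IS BlkIn: one block
-/

set_option autoImplicit false

namespace Pool.Agent.H36.IS

open Finset

variable {ι : Type} [Fintype ι] [DecidableEq ι]

omit [Fintype ι] [DecidableEq ι] in
theorem BlkIn_fo {e : ι × ℕ} (h : 2 ≤ e.2) : fo gi e = fn e.2 := by
  unfold fo gi fn
  have h1 : (2 : ℝ) ≤ e.2 := by exact_mod_cast h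
  have h2 : (e.2 : ℝ) ≠ 0 := by linarith
  have h3 : (e.2 : ℝ) - 1 ≠ 0 := by linarith
  field_simp

theorem BlkIn_fn_nonneg {p : ℕ} (h : 2 ≤ p) : 0 ≤ fn p := by
  unfold fn
  have h1 : (2 : ℝ) ≤ p := by exact_mod_cast h
  have : 0 < (p : ℝ) - 1 := by linarith
  positivity

theorem BlkIn_prod_nonneg {P S : Finset ℕ} (hP : ∀ p ∈ P, 2 ≤ p) (hS : S ⊆ P) : 0 ≤ ∏ p ∈ S, fn p :=
  Finset.prod_nonneg fun p hp => BlkIn_fn_nonneg (hP p (hS hp))

omit [Fintype ι] in
theorem BlkIn_prod {J : Finset ι} {P : Finset ℕ} (hP : ∀ p ∈ P, 2 ≤ p) {R : Finset (ι × ℕ)} (hR : R ⊆ J ×ˢ P) :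
    ∏ e ∈ R, fo gi e = ∏ i ∈ J, ∏ p ∈ sec R i, fn p := by
  rw [← prod_sec J P fn R hR]
  exact Finset.prod_congr rfl fun e he => BlkIn_fo (hP _ (Finset.mem_product.1 (hR he)).2)

omit [Fintype ι] in
theorem BlkIn_sec_sub {J : Finset ι} {P : Finset ℕ} {R : Finset (ι × ℕ)} (hR : R ⊆ J ×ˢ P) (i : ι) :
    sec R i ⊆ P := fun _ hp => (Finset.mem_product.1 (hR (BlkA_mem_sec.1 hp))).2

theorem BlkIn_lg_nonneg (S : Finset ℕ) : 0 ≤ lg S :=
  Finset.sum_nonneg fun p _ => Real.log_natCast_nonneg p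

theorem BlkIn_ell_union {J J' : Finset ι} {P : Finset ℕ} (hJ : Disjoint J J') {R A : Finset (ι × ℕ)}
    (hR : R ⊆ J ×ˢ P) (hA : A ⊆ J' ×ˢ P) :
    (∀ i ∈ J, ell (R ∪ A) i = ell R i) ∧ (∀ i ∈ J', ell (R ∪ A) i = ell A i) := by
  constructor
  · intro i hi
    rw [ell_sec, ell_sec]
    congr 1
    ext p
    rw [BlkA_mem_sec, BlkA_mem_sec, Finset.mem_union]
    constructor
    · rintro (h | h)
      · exact h
      · exact absurd (Finset.mem_product.1 (hA h)).1 (Finset.disjoint_left.1 hJ hi)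
    · exact Or.inl
  · intro i hi
    rw [ell_sec, ell_sec]
    congr 1
    ext p
    rw [BlkA_mem_sec, BlkA_mem_sec, Finset.mem_union]
    constructor
    · rintro (h | h)
      · exact absurd hi (Finset.disjoint_left.1 hJ (Finset.mem_product.1 (hR h)).1)
      · exact h
    · exact Or.inr

omit [Fintype ι] in
theorem BlkIn_sdiff (I J : Finset ι) (P : Finset ℕ) : (I ×ˢ P) \ (J ×ˢ P) = (I \ J) ×ˢ P := by
  ext ⟨i, p⟩
  simp only [Finset.mem_sdiff, Finset.mem_product]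
  tauto

/-- `MM` of a projection -/
theorem BlkIn_MM_pr {α : Type*} [DecidableEq α] (Q S : Finset α) (f : α → ℝ) (y : Finset α → ℝ) :
    MM Q f (pr S f y) = ∑ R ∈ (Q \ S).powerset,
      (∑ A ∈ S.powerset, y (R ∪ A) * ∏ e ∈ A, f e) ^ 2 * ∏ e ∈ R, f e := by
  unfold MM
  rw [← Finset.sum_subset (Finset.powerset_mono.2 (Finset.sdiff_subset : Q \ S ⊆ Q))]
  · refine Finset.sum_congr rfl fun R hR => ?_
    unfold pr
    rw [if_pos]
    rw [Finset.disjoint_left]
    intro e he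
    exact (Finset.mem_sdiff.1 (Finset.mem_powerset.1 hR he)).2
  · intro R hR hR2
    unfold pr
    rw [if_neg]
    · ring
    · intro hd
      apply hR2
      refine Finset.mem_powerset.2 fun e he => Finset.mem_sdiff.2
        ⟨Finset.mem_powerset.1 hR he, Finset.disjoint_left.1 hd he⟩

/-- the inner sum for a general set `J` of components -/
theorem BlkIn_inner {I J : Finset ι} (hJI : J ⊆ I) {P : Finset ℕ} (hP : ∀ p ∈ P, 2 ≤ p) (Y : ℝ → ℝ) (θ L : ℝ)
    {R : Finset (ι × ℕ)} (hR : R ⊆ (I \ J) ×ˢ P) :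
    ∑ A ∈ (J ×ˢ P).powerset, yblk I Y θ L (R ∪ A) * ∏ e ∈ A, fo gi e
      = (∏ j ∈ I \ J, Y (ell R j / L)) * ∑ A ∈ (J ×ˢ P).powerset,
        (if ∑ j ∈ I \ J, ell R j + ∑ j ∈ J, ell A j ≤ θ * L then 1 else 0) *
          ∏ j ∈ J, (Y (lg (sec A j) / L) * ∏ p ∈ sec A j, fn p) := by
  rw [Finset.mul_sum]
  refine Finset.sum_congr rfl fun A hA => ?_
  have hA' := Finset.mem_powerset.1 hA
  have hdis : Disjoint (I \ J) J := Finset.sdiff_disjoint
  obtain ⟨h1, h2⟩ := BlkIn_ell_union hdis hR hA'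
  unfold yblk
  have h3 : ∀ F : ι → ℝ, ∑ i ∈ I, F i = ∑ i ∈ I \ J, F i + ∑ i ∈ J, F i := fun F =>
    (Finset.sum_sdiff hJI).symm
  have h4 : ∀ F : ι → ℝ, ∏ i ∈ I, F i = (∏ i ∈ I \ J, F i) * ∏ i ∈ J, F i := fun F =>
    (Finset.prod_sdiff hJI).symm
  rw [h3, h4, BlkIn_prod hP hA', Finset.sum_congr rfl h1, Finset.sum_congr rfl h2,
    Finset.prod_congr rfl (fun i hi => by rw [h1 i hi] : ∀ i ∈ I \ J, Y (ell (R ∪ A) i / L) = Y (ell R i / L)),
    Finset.prod_congr rfl (fun i hi => by rw [h2 i hi, ell_sec] :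
      ∀ i ∈ J, Y (ell (R ∪ A) i / L) = Y (lg (sec A i) / L)), Finset.prod_mul_distrib]
  ring

theorem BlkIn_inner_nonneg {I J : Finset ι} {P : Finset ℕ} (hP : ∀ p ∈ P, 2 ≤ p) {Y : ℝ → ℝ}
    (hY : ∀ u, 0 ≤ Y u) (θ L : ℝ) (R : Finset (ι × ℕ)) :
    0 ≤ ∑ A ∈ (J ×ˢ P).powerset,
        (if ∑ j ∈ I \ J, ell R j + ∑ j ∈ J, ell A j ≤ θ * L then (1 : ℝ) else 0) *
          ∏ j ∈ J, (Y (lg (sec A j) / L) * ∏ p ∈ sec A j, fn p) := by
  refine Finset.sum_nonneg fun A hA => ?_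
  refine mul_nonneg (by split_ifs <;> norm_num) (Finset.prod_nonneg fun j _ => ?_)
  exact mul_nonneg (hY _) (BlkIn_prod_nonneg hP (BlkIn_sec_sub (Finset.mem_powerset.1 hA) j))

theorem BlkIn_inner_le {I J : Finset ι} {P : Finset ℕ} (hP : ∀ p ∈ P, 2 ≤ p) {Y : ℝ → ℝ}
    (hY : ∀ u, 0 ≤ Y u) (θ L : ℝ) (R : Finset (ι × ℕ)) :
    ∑ A ∈ (J ×ˢ P).powerset,
        (if ∑ j ∈ I \ J, ell R j + ∑ j ∈ J, ell A j ≤ θ * L then (1 : ℝ) else 0) *
          ∏ j ∈ J, (Y (lg (sec A j) / L) * ∏ p ∈ sec A j, fn p) ≤ TT P Y L ^ J.card := by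
  calc _ ≤ ∑ A ∈ (J ×ˢ P).powerset, ∏ j ∈ J, (Y (lg (sec A j) / L) * ∏ p ∈ sec A j, fn p) := by
        refine Finset.sum_le_sum fun A hA => ?_
        have h0 : 0 ≤ ∏ j ∈ J, (Y (lg (sec A j) / L) * ∏ p ∈ sec A j, fn p) :=
          Finset.prod_nonneg fun j _ => mul_nonneg (hY _)
            (BlkIn_prod_nonneg hP (BlkIn_sec_sub (Finset.mem_powerset.1 hA) j))
        split_ifs
        · rw [one_mul]
        · rw [zero_mul]
          exact h0
    _ = TT P Y L ^ J.card := by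
        rw [sum_pow_prod J P (fun _ S => Y (lg S / L) * ∏ p ∈ S, fn p), Finset.prod_const]
        rfl

theorem BlkIn_UU (J : Finset ι) {P : Finset ℕ} (hP : ∀ p ∈ P, 2 ≤ p) (Y : ℝ → ℝ) (L : ℝ) :
    ∑ R ∈ (J ×ˢ P).powerset, (∏ j ∈ J, Y (ell R j / L)) ^ 2 * ∏ e ∈ R, fo gi e = UU P Y L ^ J.card := by
  have h1 : ∀ R ∈ (J ×ˢ P).powerset, (∏ j ∈ J, Y (ell R j / L)) ^ 2 * ∏ e ∈ R, fo gi e
      = ∏ j ∈ J, (fun (_ : ι) (S : Finset ℕ) => Y (lg S / L) ^ 2 * ∏ p ∈ S, fn p) j (sec R j) := by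
    intro R hR
    rw [BlkIn_prod hP (Finset.mem_powerset.1 hR), ← Finset.prod_pow, ← Finset.prod_mul_distrib]
    refine Finset.prod_congr rfl fun j _ => ?_
    rw [ell_sec]
  rw [Finset.sum_congr rfl h1, sum_pow_prod J P (fun (_ : ι) (S : Finset ℕ) => Y (lg S / L) ^ 2 * ∏ p ∈ S, fn p),
    Finset.prod_const]
  rfl

/-- upper bound for the projection to the complement of `J` -/
theorem BlkIn_up {I J : Finset ι} (hJI : J ⊆ I) {P : Finset ℕ} (hP : ∀ p ∈ P, 2 ≤ p) {Y : ℝ → ℝ}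
    (hY : ∀ u, 0 ≤ Y u) (θ L : ℝ) :
    MM (I ×ˢ P) (fo gi) (pr (J ×ˢ P) (fo gi) (yblk I Y θ L)) ≤
      TT P Y L ^ (2 * J.card) * UU P Y L ^ (I.card - J.card) := by
  rw [BlkIn_MM_pr, BlkIn_sdiff, ← Finset.card_sdiff_of_subset hJI, ← BlkIn_UU (I \ J) hP Y L, Finset.mul_sum]
  refine Finset.sum_le_sum fun R hR => ?_
  have hR' := Finset.mem_powerset.1 hR
  rw [BlkIn_inner hJI hP Y θ L hR', mul_pow]
  have h1 := BlkIn_inner_nonneg (I := I) (J := J) hP hY θ L R
  have h2 := BlkIn_inner_le (I := I) (J := J) hP hY θ L R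
  have h3 : 0 ≤ ∏ e ∈ R, fo gi e := by
    rw [BlkIn_prod hP hR']
    exact Finset.prod_nonneg fun i _ => BlkIn_prod_nonneg hP (BlkIn_sec_sub hR' i)
  calc _ ≤ (∏ j ∈ I \ J, Y (ell R j / L)) ^ 2 * (TT P Y L ^ J.card) ^ 2 * ∏ e ∈ R, fo gi e := by
        refine mul_le_mul_of_nonneg_right (mul_le_mul_of_nonneg_left ?_ (sq_nonneg _)) h3
        exact pow_le_pow_left₀ h1 h2 2
    _ = TT P Y L ^ (2 * J.card) * ((∏ j ∈ I \ J, Y (ell R j / L)) ^ 2 * ∏ e ∈ R, fo gi e) := by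
        ring

theorem blkin_up (I : Finset ι) (P : Finset ℕ) (hP : ∀ p ∈ P, 2 ≤ p) (Y : ℝ → ℝ) (hY : ∀ u, 0 ≤ Y u) (θ L : ℝ)
    (hL : 0 < L) :
    MM (I ×ˢ P) (fo gi) (yblk I Y θ L) ≤ UU P Y L ^ I.card := by
  have _ := hL
  have h1 := BlkIn_up (Finset.empty_subset I) hP hY θ L
  rw [Finset.card_empty, mul_zero, pow_zero, one_mul, Nat.sub_zero] at h1
  refine le_of_eq_of_le ?_ h1
  unfold MM
  refine Finset.sum_congr rfl fun R _ => ?_
  congr 2
  unfold pr
  rw [Finset.empty_product, if_pos (Finset.disjoint_empty_right _)]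
  simp

theorem blkin_pr_up (I : Finset ι) (P : Finset ℕ) (hP : ∀ p ∈ P, 2 ≤ p) (Y : ℝ → ℝ) (hY : ∀ u, 0 ≤ Y u) (θ L : ℝ)
    (hL : 0 < L) (i : ι) (hi : i ∈ I) :
    MM (I ×ˢ P) (fo gi) (pr ({i} ×ˢ P) (fo gi) (yblk I Y θ L)) ≤ TT P Y L ^ 2 * UU P Y L ^ (I.card - 1) := by
  have _ := hL
  have h1 := BlkIn_up (Finset.singleton_subset_iff.2 hi) hP hY θ L
  rw [Finset.card_singleton, mul_one] at h1
  exact h1

theorem blkin_pr_low (I : Finset ι) (P : Finset ℕ) (hP : ∀ p ∈ P, 2 ≤ p) (Y : ℝ → ℝ) (hY : ∀ u, 0 ≤ Y u) (θ L : ℝ)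
    (hL : 0 < L) (hθ : 0 < θ) (hYs : ∀ u, Y u ≠ 0 → u ≤ θ / 2) (i : ι) (hi : i ∈ I) :
    TT P Y L ^ 2 * (UU P Y L ^ (I.card - 1) -
      ((I.card : ℝ) - 1) * UU P Y L ^ (I.card - 2) * (2 * LL P Y L / (θ * L))) ≤
      MM (I ×ˢ P) (fo gi) (pr ({i} ×ˢ P) (fo gi) (yblk I Y θ L)) := by
  have hJI : ({i} : Finset ι) ⊆ I := Finset.singleton_subset_iff.2 hi
  have hθL : 0 < θ * L := mul_pos hθ hL
  set I' : Finset ι := I \ {i} with hI'
  have hcard : I'.card = I.card - 1 := by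
    rw [hI', Finset.card_sdiff_of_subset hJI, Finset.card_singleton]
  have hcard1 : 1 ≤ I.card := Finset.card_pos.2 ⟨i, hi⟩
  -- the Markov term
  have hLam : ∀ j ∈ I', ∑ R ∈ (I' ×ˢ P).powerset,
      ell R j * ((∏ l ∈ I', Y (ell R l / L)) ^ 2 * ∏ e ∈ R, fo gi e) = LL P Y L * UU P Y L ^ (I.card - 2) := by
    intro j hj
    have h1 : ∀ R ∈ (I' ×ˢ P).powerset, ell R j * ((∏ l ∈ I', Y (ell R l / L)) ^ 2 * ∏ e ∈ R, fo gi e)
        = ∏ l ∈ I', (fun (l : ι) (S : Finset ℕ) =>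
            (if l = j then lg S else 1) * (Y (lg S / L) ^ 2 * ∏ p ∈ S, fn p)) l (sec R l) := by
      intro R hR
      rw [BlkIn_prod hP (Finset.mem_powerset.1 hR), ← Finset.prod_pow, ← Finset.prod_mul_distrib]
      simp only
      rw [Finset.prod_mul_distrib (f := fun l => if l = j then lg (sec R l) else 1),
        Finset.prod_ite_eq' I' j (fun l => lg (sec R l)), if_pos hj, ell_sec]
      congr 1
      refine Finset.prod_congr rfl fun l _ => ?_
      rw [ell_sec]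
    rw [Finset.sum_congr rfl h1, sum_pow_prod I' P (fun (l : ι) (S : Finset ℕ) =>
            (if l = j then lg S else 1) * (Y (lg S / L) ^ 2 * ∏ p ∈ S, fn p)), ← Finset.mul_prod_erase I' _ hj]
    have h2 : ∑ S ∈ P.powerset, (if j = j then lg S else 1) * (Y (lg S / L) ^ 2 * ∏ p ∈ S, fn p) = LL P Y L := by
      unfold LL
      refine Finset.sum_congr rfl fun S _ => ?_
      rw [if_pos rfl]
      ring
    have h3 : ∏ l ∈ I'.erase j, ∑ S ∈ P.powerset,
        (if l = j then lg S else 1) * (Y (lg S / L) ^ 2 * ∏ p ∈ S, fn p) = UU P Y L ^ (I.card - 2) := by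
      rw [show I.card - 2 = (I'.erase j).card by rw [Finset.card_erase_of_mem hj, hcard]; omega,
        ← Finset.prod_const]
      refine Finset.prod_congr rfl fun l hl => ?_
      unfold UU
      refine Finset.sum_congr rfl fun S _ => ?_
      rw [if_neg (Finset.ne_of_mem_erase hl), one_mul]
    rw [h2, h3]
  rw [BlkIn_MM_pr, BlkIn_sdiff, ← hI', ← hcard, ← BlkIn_UU I' hP Y L]
  have hMar : ((I.card : ℝ) - 1) * UU P Y L ^ (I.card - 2) * (2 * LL P Y L / (θ * L))
      = ∑ R ∈ (I' ×ˢ P).powerset, (2 * (∑ j ∈ I', ell R j) / (θ * L)) *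
          ((∏ l ∈ I', Y (ell R l / L)) ^ 2 * ∏ e ∈ R, fo gi e) := by
    have h1 : ∀ R ∈ (I' ×ˢ P).powerset, (2 * (∑ j ∈ I', ell R j) / (θ * L)) *
          ((∏ l ∈ I', Y (ell R l / L)) ^ 2 * ∏ e ∈ R, fo gi e)
        = (2 / (θ * L)) * ∑ j ∈ I', ell R j * ((∏ l ∈ I', Y (ell R l / L)) ^ 2 * ∏ e ∈ R, fo gi e) := by
      intro R _
      rw [← Finset.sum_mul]
      ring
    rw [Finset.sum_congr rfl h1, ← Finset.mul_sum, Finset.sum_comm, Finset.sum_congr rfl hLam,
      Finset.sum_const, hcard, nsmul_eq_mul, Nat.cast_sub hcard1, Nat.cast_one]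
    ring
  rw [hMar, ← Finset.sum_sub_distrib, Finset.mul_sum]
  refine Finset.sum_le_sum fun R hR => ?_
  have hR' := Finset.mem_powerset.1 hR
  rw [BlkIn_inner hJI hP Y θ L hR', ← hI', mul_pow]
  set D : ℝ := ∏ l ∈ I', Y (ell R l / L) with hD
  have h3 : 0 ≤ ∏ e ∈ R, fo gi e := by
    rw [BlkIn_prod hP hR']
    exact Finset.prod_nonneg fun i _ => BlkIn_prod_nonneg hP (BlkIn_sec_sub hR' i)
  have h4 : 0 ≤ D ^ 2 * ∏ e ∈ R, fo gi e := mul_nonneg (sq_nonneg _) h3
  have h5 : 0 ≤ ∑ j ∈ I', ell R j := Finset.sum_nonneg fun j _ => by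
    rw [ell_sec]
    exact BlkIn_lg_nonneg _
  by_cases hsmall : ∑ j ∈ I', ell R j ≤ θ * L / 2
  · -- the inner sum is `T`
    have hin : ∑ A ∈ (({i} : Finset ι) ×ˢ P).powerset,
        (if ∑ j ∈ I', ell R j + ∑ j ∈ {i}, ell A j ≤ θ * L then (1 : ℝ) else 0) *
          ∏ j ∈ {i}, (Y (lg (sec A j) / L) * ∏ p ∈ sec A j, fn p) = TT P Y L := by
      have h6 : ∀ A ∈ (({i} : Finset ι) ×ˢ P).powerset,
        (if ∑ j ∈ I', ell R j + ∑ j ∈ {i}, ell A j ≤ θ * L then (1 : ℝ) else 0) *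
          ∏ j ∈ {i}, (Y (lg (sec A j) / L) * ∏ p ∈ sec A j, fn p)
          = (fun S => Y (lg S / L) * ∏ p ∈ S, fn p) (sec A i) := by
        intro A _
        rw [Finset.prod_singleton, Finset.sum_singleton]
        by_cases hz : Y (lg (sec A i) / L) = 0
        · simp only [hz, zero_mul, mul_zero]
        · have h7 := hYs _ hz
          rw [div_le_iff₀ hL] at h7
          rw [if_pos, one_mul]
          rw [ell_sec]
          linarith
      rw [Finset.sum_congr rfl h6, BlkA_sum_single i P (fun S => Y (lg S / L) * ∏ p ∈ S, fn p)]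
      rfl
    rw [hin]
    have h8 : 0 ≤ (2 * (∑ j ∈ I', ell R j) / (θ * L)) * (D ^ 2 * ∏ e ∈ R, fo gi e) :=
      mul_nonneg (by positivity) h4
    have h9 : TT P Y L ^ 2 * (D ^ 2 * ∏ e ∈ R, fo gi e -
        (2 * (∑ j ∈ I', ell R j) / (θ * L)) * (D ^ 2 * ∏ e ∈ R, fo gi e))
        ≤ TT P Y L ^ 2 * (D ^ 2 * ∏ e ∈ R, fo gi e) :=
      mul_le_mul_of_nonneg_left (by linarith) (sq_nonneg _)
    calc _ ≤ TT P Y L ^ 2 * (D ^ 2 * ∏ e ∈ R, fo gi e) := h9
      _ = _ := by ring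
  · push Not at hsmall
    have h10 : 1 ≤ 2 * (∑ j ∈ I', ell R j) / (θ * L) := by
      rw [le_div_iff₀ hθL]
      linarith
    have h11 : TT P Y L ^ 2 * (D ^ 2 * ∏ e ∈ R, fo gi e -
        (2 * (∑ j ∈ I', ell R j) / (θ * L)) * (D ^ 2 * ∏ e ∈ R, fo gi e)) ≤ 0 := by
      refine mul_nonpos_of_nonneg_of_nonpos (sq_nonneg _) ?_
      have := mul_le_mul_of_nonneg_right h10 h4
      linarith
    refine h11.trans ?_
    exact mul_nonneg (mul_nonneg (sq_nonneg _) (sq_nonneg _)) h3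

theorem blkin_pr2_up (I : Finset ι) (P : Finset ℕ) (hP : ∀ p ∈ P, 2 ≤ p) (Y : ℝ → ℝ) (hY : ∀ u, 0 ≤ Y u) (θ L : ℝ)
    (hL : 0 < L) (i j : ι) (hi : i ∈ I) (hj : j ∈ I) (hij : i ≠ j) :
    MM (I ×ˢ P) (fo gi) (pr ({i} ×ˢ P ∪ {j} ×ˢ P) (fo gi) (yblk I Y θ L)) ≤
      TT P Y L ^ 4 * UU P Y L ^ (I.card - 2) := by
  have _ := hL
  have hsub : ({i, j} : Finset ι) ⊆ I := by
    intro l hl
    rcases Finset.mem_insert.1 hl with h | h
    · rw [h]
      exact hi
    · rw [Finset.mem_singleton.1 h]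
      exact hj
  have h1 := BlkIn_up hsub hP hY θ L
  rw [Finset.card_pair hij] at h1
  have h2 : ({i} : Finset ι) ×ˢ P ∪ {j} ×ˢ P = ({i, j} : Finset ι) ×ˢ P := by
    rw [← Finset.union_product]
    rfl
  rw [h2]
  exact h1

end Pool.Agent.H36.IS

end

section

/-!
# IS BlkMain: the full weight function, seen from one block
-/

set_option autoImplicit false

namespace Pool.Agent.H36.IS

open Finset

theorem BlkMain_MM {α : Type*} [DecidableEq α] {Q1 Q2 : Finset α} (h12 : Disjoint Q1 Q2) (f : α → ℝ)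
    {y u v : Finset α → ℝ} (hy : ∀ R ⊆ Q1, ∀ R' ⊆ Q2, y (R ∪ R') = u R * v R') :
    MM (Q1 ∪ Q2) f y = MM Q1 f u * ∑ R' ∈ Q2.powerset, v R' ^ 2 * ∏ e ∈ R', f e := by
  unfold MM
  rw [sum_pow_union h12, Finset.sum_mul_sum]
  refine Finset.sum_congr rfl fun R hR => Finset.sum_congr rfl fun R' hR' => ?_
  have h1 := Finset.mem_powerset.1 hR
  have h2 := Finset.mem_powerset.1 hR'
  rw [hy R h1 R' h2, Finset.prod_union
    (Finset.disjoint_of_subset_left h1 (Finset.disjoint_of_subset_right h2 h12))]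
  ring

theorem BlkMain_pr {α : Type*} [DecidableEq α] {Q1 Q2 S : Finset α} (h12 : Disjoint Q1 Q2) (hS : S ⊆ Q1) (f : α → ℝ)
    {y u v : Finset α → ℝ} (hy : ∀ R ⊆ Q1, ∀ R' ⊆ Q2, y (R ∪ R') = u R * v R') :
    ∀ R ⊆ Q1, ∀ R' ⊆ Q2, pr S f y (R ∪ R') = pr S f u R * v R' := by
  intro R hR R' hR'
  have hd : Disjoint (R ∪ R') S ↔ Disjoint R S := by
    rw [Finset.disjoint_union_left]
    refine ⟨fun h => h.1, fun h => ⟨h, ?_⟩⟩
    exact (Finset.disjoint_of_subset_left hS (Finset.disjoint_of_subset_right hR' h12)).symm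
  unfold pr
  by_cases hR0 : Disjoint R S
  · rw [if_pos (hd.2 hR0), if_pos hR0, Finset.sum_mul]
    refine Finset.sum_congr rfl fun A hA => ?_
    have h1 : R ∪ R' ∪ A = (R ∪ A) ∪ R' := Finset.union_right_comm _ _ _
    rw [h1, hy (R ∪ A) (Finset.union_subset hR ((Finset.mem_powerset.1 hA).trans hS)) R' hR']
    ring
  · rw [if_neg (fun h => hR0 (hd.1 h)), if_neg hR0, zero_mul]

theorem BlkMain_one_le_prod {α : Type*} (s : Finset α) (f : α → ℝ) (h : ∀ i ∈ s, 1 ≤ f i) :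
    1 ≤ ∏ i ∈ s, f i := by
  calc (1 : ℝ) = ∏ _i ∈ s, 1 := by simp
    _ ≤ _ := Finset.prod_le_prod (fun _ _ => zero_le_one) h

variable {ι : Type} [Fintype ι] [DecidableEq ι]

theorem BlkMain_yblk_congr {I : Finset ι} {Y : ℝ → ℝ} {θ L : ℝ} {R R' : Finset (ι × ℕ)}
    (h : ∀ i ∈ I, ell R i = ell R' i) : yblk I Y θ L R = yblk I Y θ L R' := by
  unfold yblk
  rw [Finset.sum_congr rfl h, Finset.prod_congr rfl (fun i hi => by rw [h i hi])]

theorem BlkMain_yblk_nonneg {I : Finset ι} {Y : ℝ → ℝ} (hY : ∀ u, 0 ≤ Y u) (θ L : ℝ) (R : Finset (ι × ℕ)) :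
    0 ≤ yblk I Y θ L R := by
  unfold yblk
  exact mul_nonneg (by split_ifs <;> norm_num) (Finset.prod_nonneg fun i _ => hY _)

theorem BlkMain_ell_empty (i : ι) : ell (∅ : Finset (ι × ℕ)) i = 0 := by
  unfold ell
  simp

theorem blk_main {r : ℕ} (blk : ι → Fin r) (P : Finset ℕ) (hP : ∀ p ∈ P, 2 ≤ p) (Y : Fin r → ℝ → ℝ)
    (hY : ∀ s u, 0 ≤ Y s u) (hY1 : ∀ s, 1 ≤ Y s 0) (θ : Fin r → ℝ) (hθ : ∀ s, 0 < θ s) (L : ℝ) (hL : 0 < L)
    (hYs : ∀ s u, Y s u ≠ 0 → u ≤ θ s / 2) (s : Fin r) :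
    ∃ Q : ℝ, 1 ≤ Q ∧
      MM (univ ×ˢ P) (fo gi) (yfull blk P Y θ L) ≤ UU P (Y s) L ^ (blkF blk s).card * Q ∧
      (∀ i ∈ blkF blk s,
        TT P (Y s) L ^ 2 * (UU P (Y s) L ^ ((blkF blk s).card - 1) -
          (((blkF blk s).card : ℝ) - 1) * UU P (Y s) L ^ ((blkF blk s).card - 2) *
            (2 * LL P (Y s) L / (θ s * L))) * Q ≤
          MM (univ ×ˢ P) (fo gi) (pr ({i} ×ˢ P) (fo gi) (yfull blk P Y θ L)) ∧
        MM (univ ×ˢ P) (fo gi) (pr ({i} ×ˢ P) (fo gi) (yfull blk P Y θ L)) ≤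
          TT P (Y s) L ^ 2 * UU P (Y s) L ^ ((blkF blk s).card - 1) * Q) ∧
      (∀ i ∈ blkF blk s, ∀ j ∈ blkF blk s, i ≠ j →
        MM (univ ×ˢ P) (fo gi) (pr ({i} ×ˢ P ∪ {j} ×ˢ P) (fo gi) (yfull blk P Y θ L)) ≤
          TT P (Y s) L ^ 4 * UU P (Y s) L ^ ((blkF blk s).card - 2) * Q) := by
  classical
  set I : Finset ι := blkF blk s with hI
  set Q1 : Finset (ι × ℕ) := I ×ˢ P with hQ1
  set Q2 : Finset (ι × ℕ) := Iᶜ ×ˢ P with hQ2
  have h12 : Disjoint Q1 Q2 := by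
    rw [Finset.disjoint_left]
    rintro ⟨i, p⟩ h1 h2
    exact (Finset.mem_compl.1 (Finset.mem_product.1 h2).1) (Finset.mem_product.1 h1).1
  have huni : (univ : Finset ι) ×ˢ P = Q1 ∪ Q2 := by
    rw [hQ1, hQ2, ← Finset.union_product, Finset.union_compl]
  let v : Finset (ι × ℕ) → ℝ := fun R' => ∏ s' ∈ univ.erase s, yblk (blkF blk s') (Y s') (θ s') L R'
  have hmem : ∀ i s', i ∈ blkF blk s' ↔ blk i = s' := by
    intro i s'
    unfold blkF
    simp
  have hy : ∀ R ⊆ Q1, ∀ R' ⊆ Q2, yfull blk P Y θ L (R ∪ R') = yblk I (Y s) (θ s) L R * v R' := by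
    intro R hR R' hR'
    obtain ⟨e1, e2⟩ := BlkIn_ell_union (disjoint_compl_right : Disjoint I Iᶜ) hR hR'
    unfold yfull
    rw [if_pos (by rw [huni]; exact Finset.union_subset_union hR hR'),
      ← Finset.mul_prod_erase univ _ (Finset.mem_univ s)]
    congr 1
    · exact BlkMain_yblk_congr e1
    · refine Finset.prod_congr rfl fun s' hs' => BlkMain_yblk_congr fun i hi => e2 i ?_
      rw [Finset.mem_compl]
      intro hi2
      have h3 := (hmem i s').1 hi
      have h4 := (hmem i s).1 hi2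
      exact (Finset.ne_of_mem_erase hs') (h3.symm.trans h4)
  let Q : ℝ := ∑ R' ∈ Q2.powerset, v R' ^ 2 * ∏ e ∈ R', fo gi e
  have hQ1' : 1 ≤ Q := by
    have h1 : v ∅ ^ 2 * ∏ e ∈ (∅ : Finset (ι × ℕ)), fo gi e ≤ Q := by
      refine Finset.single_le_sum (f := fun R' => v R' ^ 2 * ∏ e ∈ R', fo gi e) ?_
        (Finset.empty_mem_powerset _)
      intro R' hR'
      have hR'' := Finset.mem_powerset.1 hR'
      refine mul_nonneg (sq_nonneg _) ?_
      rw [BlkIn_prod hP hR'']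
      exact Finset.prod_nonneg fun i _ => BlkIn_prod_nonneg hP (BlkIn_sec_sub hR'' i)
    have h2 : 1 ≤ v ∅ := by
      refine BlkMain_one_le_prod _ _ ?_
      intro s' _
      unfold yblk
      simp only [BlkMain_ell_empty, Finset.sum_const_zero, zero_div]
      rw [if_pos (mul_pos (hθ s') hL).le, one_mul]
      exact BlkMain_one_le_prod _ _ fun i _ => hY1 s'
    rw [Finset.prod_empty, mul_one] at h1
    exact le_trans (one_le_pow₀ h2) h1
  have hQ0 : 0 ≤ Q := zero_le_one.trans hQ1'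
  have key : ∀ S ⊆ Q1, MM (univ ×ˢ P) (fo gi) (pr S (fo gi) (yfull blk P Y θ L))
      = MM Q1 (fo gi) (pr S (fo gi) (yblk I (Y s) (θ s) L)) * Q := by
    intro S hS
    rw [huni]
    exact BlkMain_MM h12 (fo gi) (BlkMain_pr h12 hS (fo gi) hy)
  have hsi : ∀ i ∈ I, ({i} : Finset ι) ×ˢ P ⊆ Q1 := fun i hi =>
    Finset.product_subset_product (Finset.singleton_subset_iff.2 hi) (Finset.Subset.refl _)
  refine ⟨Q, hQ1', ?_, ?_, ?_⟩
  · rw [huni, BlkMain_MM h12 (fo gi) hy]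
    exact mul_le_mul_of_nonneg_right (blkin_up I P hP (Y s) (hY s) (θ s) L hL) hQ0
  · intro i hi
    rw [key _ (hsi i hi)]
    exact ⟨mul_le_mul_of_nonneg_right
      (blkin_pr_low I P hP (Y s) (hY s) (θ s) L hL (hθ s) (hYs s) i hi) hQ0,
      mul_le_mul_of_nonneg_right (blkin_pr_up I P hP (Y s) (hY s) (θ s) L hL i hi) hQ0⟩
  · intro i hi j hj hij
    rw [key _ (Finset.union_subset (hsi i hi) (hsi j hj))]
    exact mul_le_mul_of_nonneg_right (blkin_pr2_up I P hP (Y s) (hY s) (θ s) L hL i j hi hj hij) hQ0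

theorem BlkMain_Yp_nonneg (I : ℕ) (θ u : ℝ) : 0 ≤ Yp I θ u := by
  unfold Yp
  refine Finset.sum_nonneg fun i _ => ?_
  split_ifs
  · positivity
  · exact le_refl _

theorem BlkMain_Yp_le (I : ℕ) (θ u : ℝ) : Yp I θ u ≤ 2 := by
  unfold Yp
  calc _ ≤ ∑ i ∈ range (I + 1), ((1 : ℝ) / 2) ^ i := by
        refine Finset.sum_le_sum fun i _ => ?_
        split_ifs
        · exact le_refl _
        · positivity
    _ ≤ 2 := sum_geometric_two_le _

theorem yfull_ok {r : ℕ} (blk : ι → Fin r) (x : ℕ) (hx : 3 ≤ x) (δ θ : ℝ) (I : Fin r → ℕ) (t : Fin r → ℝ)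
    (ht : ∀ s, 0 < t s) (hsum : ∑ s, t s ≤ θ) :
    Yok x δ θ (2 ^ Fintype.card ι) (yfull blk (PZ x δ) (fun s => Yp (I s) (t s)) t (Real.log x)) := by
  have _ := ht
  intro R
  have hnn : ∀ s, 0 ≤ yblk (blkF blk s) (Yp (I s) (t s)) (t s) (Real.log x) R := fun s =>
    BlkMain_yblk_nonneg (BlkMain_Yp_nonneg _ _) _ _ _
  refine ⟨?_, ?_, ?_⟩
  · unfold yfull
    split_ifs
    · exact Finset.prod_nonneg fun s _ => hnn s
    · exact le_refl _
  · unfold yfull
    split_ifs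
    · calc _ ≤ ∏ s : Fin r, ∏ _i ∈ blkF blk s, (2 : ℝ) := by
            refine Finset.prod_le_prod (fun s _ => hnn s) fun s _ => ?_
            unfold yblk
            calc _ ≤ 1 * ∏ i ∈ blkF blk s, Yp (I s) (t s) (ell R i / Real.log x) := by
                  refine mul_le_mul_of_nonneg_right ?_
                    (Finset.prod_nonneg fun i _ => BlkMain_Yp_nonneg _ _ _)
                  split_ifs <;> norm_num
              _ ≤ ∏ _i ∈ blkF blk s, (2 : ℝ) := by
                  rw [one_mul]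
                  exact Finset.prod_le_prod (fun i _ => BlkMain_Yp_nonneg _ _ _)
                    fun i _ => BlkMain_Yp_le _ _ _
        _ = 2 ^ Fintype.card ι := by
            unfold blkF
            rw [Finset.prod_fiberwise, Finset.prod_const]
            rfl
    · positivity
  · intro hne
    unfold yfull at hne
    have hR : R ⊆ univ ×ˢ PZ x δ := by
      by_contra h
      exact hne (if_neg h)
    rw [if_pos hR] at hne
    refine ⟨hR, ?_⟩
    have hL : 0 < Real.log x := Real.log_pos (by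
      have : (3 : ℝ) ≤ x := by exact_mod_cast hx
      linarith)
    have hx0 : (0 : ℝ) < x := by
      have : (3 : ℝ) ≤ x := by exact_mod_cast hx
      linarith
    have hblk : ∀ s : Fin r, ∑ i ∈ blkF blk s, ell R i ≤ t s * Real.log x := by
      intro s
      have h1 : yblk (blkF blk s) (Yp (I s) (t s)) (t s) (Real.log x) R ≠ 0 :=
        (Finset.prod_ne_zero_iff.1 hne) s (Finset.mem_univ s)
      by_contra h2
      unfold yblk at h1
      rw [if_neg h2, zero_mul] at h1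
      exact h1 rfl
    have hpos : ∀ e ∈ R, (0 : ℝ) < e.2 := by
      intro e he
      have h1 := (Finset.mem_product.1 (hR he)).2
      unfold PZ PX at h1
      have h2 := (Finset.mem_filter.1 (Finset.mem_filter.1 h1).1).2.1
      exact_mod_cast h2.pos
    have htot : ∑ e ∈ R, Real.log (e.2 : ℝ) ≤ θ * Real.log x := by
      have h1 : ∑ e ∈ R, Real.log (e.2 : ℝ) = ∑ i : ι, ell R i := by
        unfold ell
        rw [Finset.sum_fiberwise]
      have h2 : ∑ i : ι, ell R i = ∑ s : Fin r, ∑ i ∈ blkF blk s, ell R i := by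
        unfold blkF
        rw [Finset.sum_fiberwise]
      rw [h1, h2]
      calc _ ≤ ∑ s : Fin r, t s * Real.log x := Finset.sum_le_sum fun s _ => hblk s
        _ = (∑ s : Fin r, t s) * Real.log x := by rw [Finset.sum_mul]
        _ ≤ θ * Real.log x := mul_le_mul_of_nonneg_right hsum hL.le
    have hprod : (0 : ℝ) < ∏ e ∈ R, (e.2 : ℝ) := Finset.prod_pos hpos
    rw [← Real.log_le_log_iff hprod (Real.rpow_pos_of_pos hx0 _),
      Real.log_prod (fun e he => (hpos e he).ne'), Real.log_rpow hx0]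
    exact htot

end Pool.Agent.H36.IS

end

section

/-!
# IS ToStep: choice of the progression

`bigmod`: let Adm W a S and w be given.  For each prime p ≤ w with p ∤ W choose (|S| < p) a residue c_p with p ∤ c_p + h for all
h ∈ S; W' = W ∏ p, b ≡ a mod W, b ≡ c_p mod p (CRT; W and the p are coprime).  Every prime divisor of W' is a prime divisor of W
(and p ∤ a + h, b ≡ a) or one of the new p; so b + h is coprime to W'.
`toStep`: ι = {n // n ∈ S}, S = univ.biUnion B, h = Subtype.val, w = max (S.sup id) S.card + 1, blk = the s with h ∈ B s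
(B s pairwise disjoint), blkF blk s ↔ B s, so κ s ≤ (blkF blk s).card.  Good: a prime p ∤ W' is > w, so > |ι| and > |h i - h j| > 0.
n ≡ b mod W' implies n ≡ a mod W.  {n : ∃ i, blk i = s ∧ R (n + h i)} = {n : ∃ h ∈ B s, R (n + h)}.
-/

set_option autoImplicit false

namespace Pool.Agent.H36.IS

open Finset

private lemma ToStep_aux {W a : ℕ} {S : Finset ℕ} (hA : Adm W a S) (P : Finset ℕ)
    (hP : ∀ p ∈ P, p.Prime ∧ ¬ p ∣ W) :
    ∃ W' b : ℕ, 0 < W' ∧ W ∣ W' ∧ b ≡ a [MOD W] ∧ (∀ p ∈ P, p ∣ W') ∧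
      (∀ p : ℕ, p.Prime → p ∣ W' → p ∣ W ∨ p ∈ P) ∧ ∀ h ∈ S, Nat.Coprime (b + h) W' := by
  classical
  obtain ⟨hW, hA1, hA2⟩ := hA
  induction P using Finset.induction_on with
  | empty =>
    refine ⟨W, a, hW, dvd_rfl, Nat.ModEq.refl _, by simp, fun p _ h => Or.inl h, ?_⟩
    intro h hh
    by_contra hcon
    obtain ⟨p, hp, h1, h2⟩ := Nat.Prime.not_coprime_iff_dvd.1 hcon
    exact hA1 p hp h2 h hh h1
  | insert q P hq ih =>
    obtain ⟨W', b, h1, h2, h3, h4, h5, h6⟩ := ih (fun p hp => hP p (Finset.mem_insert_of_mem hp))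
    obtain ⟨hqp, hqW⟩ := hP q (Finset.mem_insert_self _ _)
    have hco : Nat.Coprime W' q := by
      rw [Nat.coprime_comm, hqp.coprime_iff_not_dvd]
      intro hdvd
      rcases h5 q hqp hdvd with h | h
      · exact hqW h
      · exact hq h
    -- a residue
    obtain ⟨c, hc⟩ : ∃ c : ℕ, ∀ h ∈ S, ¬ q ∣ c + h := by
      have hcard : (S.image (fun h => (q - h % q) % q)).card < (Finset.range q).card := by
        rw [Finset.card_range]
        exact Finset.card_image_le.trans_lt (hA2 q hqp hqW)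
      obtain ⟨c, hc1, hc2⟩ := Finset.exists_mem_notMem_of_card_lt_card hcard
      refine ⟨c, fun h hh hdvd => hc2 ?_⟩
      rw [Finset.mem_image]
      refine ⟨h, hh, ?_⟩
      rw [Finset.mem_range] at hc1
      have hq0 := hqp.pos
      have hr := Nat.mod_lt h hq0
      have e1 : (c + h % q) % q = 0 := by
        rw [Nat.add_mod_mod]
        exact Nat.mod_eq_zero_of_dvd hdvd
      rcases Nat.eq_zero_or_pos (h % q) with h0 | h0
      · rw [h0, Nat.sub_zero, Nat.mod_self]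
        rw [h0, Nat.add_zero, Nat.mod_eq_of_lt hc1] at e1
        exact e1.symm
      · rw [Nat.mod_eq_of_lt (by omega : q - h % q < q)]
        obtain ⟨t, ht⟩ := Nat.dvd_of_mod_eq_zero e1
        have ht1 : t = 1 := by
          have hlt : q * t < q * 2 := by omega
          have h2t : t < 2 := Nat.lt_of_mul_lt_mul_left hlt
          have h0t : t ≠ 0 := by
            rintro rfl
            omega
          omega
        rw [ht1] at ht
        omega
    obtain ⟨b', hb1, hb2⟩ := Nat.chineseRemainder hco b c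
    refine ⟨W' * q, b', Nat.mul_pos h1 hqp.pos, h2.mul_right q, ?_, ?_, ?_, ?_⟩
    · exact (hb1.of_dvd h2).trans h3
    · intro p hp
      rcases Finset.mem_insert.1 hp with rfl | hp
      · exact dvd_mul_left _ _
      · exact (h4 p hp).mul_right q
    · intro p hp hdvd
      rcases (Nat.Prime.dvd_mul hp).1 hdvd with h | h
      · rcases h5 p hp h with h | h
        · exact Or.inl h
        · exact Or.inr (Finset.mem_insert_of_mem h)
      · have := (Nat.prime_dvd_prime_iff_eq hp hqp).1 h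
        rw [this]
        exact Or.inr (Finset.mem_insert_self _ _)
    · intro h hh
      apply Nat.Coprime.mul_right
      · have e1 : b' + h ≡ b + h [MOD W'] := Nat.ModEq.add_right _ hb1
        have e2 := e1.gcd_eq
        unfold Nat.Coprime
        rw [e2]
        exact h6 h hh
      · rw [Nat.coprime_comm, hqp.coprime_iff_not_dvd]
        intro hdvd
        have e1 : b' + h ≡ c + h [MOD q] := Nat.ModEq.add_right _ hb2
        exact hc h hh ((e1.dvd_iff dvd_rfl).1 hdvd)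

theorem bigmod {W a : ℕ} {S : Finset ℕ} (hA : Adm W a S) (w : ℕ) :
    ∃ W' b : ℕ, 0 < W' ∧ W ∣ W' ∧ b ≡ a [MOD W] ∧ (∀ p : ℕ, p.Prime → p ≤ w → p ∣ W') ∧
      ∀ h ∈ S, Nat.Coprime (b + h) W' := by
  classical
  obtain ⟨W', b, h1, h2, h3, h4, h5, h6⟩ := ToStep_aux hA
    ((Finset.range (w + 1)).filter (fun p => p.Prime ∧ ¬ p ∣ W))
    (fun p hp => (Finset.mem_filter.1 hp).2)
  refine ⟨W', b, h1, h2, h3, ?_, h6⟩
  intro p hp hpw
  by_cases h : p ∣ W
  · exact h.trans h2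
  · exact h4 p (Finset.mem_filter.2 ⟨Finset.mem_range.2 (by omega), hp, h⟩)

theorem toStep {R : ℕ → Prop} {c : ℝ} {κ : ℕ → ℕ} (h : Sieve R c κ) : Step R c κ := by
  classical
  intro r B hB hκ W a hA N
  set S : Finset ℕ := Finset.univ.biUnion B with hS
  obtain ⟨W', b, h1, h2, h3, h4, h5⟩ := bigmod hA (max (S.sup id) S.card + 1)
  have hblk : ∀ i : {n // n ∈ S}, ∃ s : Fin r, i.1 ∈ B s := by
    rintro ⟨i, hi⟩
    rw [hS, Finset.mem_biUnion] at hi
    obtain ⟨s, _, hs⟩ := hi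
    exact ⟨s, hs⟩
  choose blk hblk' using hblk
  have hiff : ∀ (i : {n // n ∈ S}) (s : Fin r), blk i = s ↔ i.1 ∈ B s := by
    intro i s
    constructor
    · rintro rfl
      exact hblk' i
    · intro hi
      by_contra hne
      exact (Finset.disjoint_left.1 (hB _ _ hne)) (hblk' i) hi
  have hgood : Good (fun i : {n // n ∈ S} => i.1) W' b := by
    refine ⟨h1, fun i => h5 i.1 i.2, ?_⟩
    intro p hp hpW
    have hpw : max (S.sup id) S.card + 1 < p := by
      by_contra hle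
      push Not at hle
      exact hpW (h4 p hp hle)
    constructor
    · rw [Fintype.card_coe]
      have := le_max_right (S.sup id) S.card
      omega
    · intro i j hij hmod
      have hi : i.1 ≤ S.sup id := Finset.le_sup (f := id) i.2
      have hj : j.1 ≤ S.sup id := Finset.le_sup (f := id) j.2
      have hm := le_max_left (S.sup id) S.card
      apply hij
      apply Subtype.ext
      exact Nat.ModEq.eq_of_lt_of_lt hmod (by omega) (by omega)
  obtain ⟨X, w, hX1, hX2, hX3⟩ := h {n // n ∈ S} inferInstance inferInstance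
    (fun i => i.1) W' b hgood r blk (by
      intro s
      refine (hκ s).trans ?_
      have hcard : (B s).card ≤ (blkF blk s).card := by
        have himg : B s ⊆ (blkF blk s).image (fun i => i.1) := by
          intro n hn
          have hnS : n ∈ S := by
            rw [hS, Finset.mem_biUnion]
            exact ⟨s, Finset.mem_univ _, hn⟩
          rw [Finset.mem_image]
          refine ⟨⟨n, hnS⟩, ?_, rfl⟩
          unfold blkF
          rw [Finset.mem_filter]
          exact ⟨Finset.mem_univ _, (hiff _ s).2 hn⟩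
        exact (Finset.card_le_card himg).trans Finset.card_image_le
      exact hcard) N
  refine ⟨X, w, ?_, hX2, ?_⟩
  · intro n hn
    obtain ⟨g1, g2, g3, g4⟩ := hX1 n hn
    exact ⟨g1, (g2.of_dvd h2).trans h3, g3, g4⟩
  · intro s
    refine (hX3 s).trans (le_of_eq ?_)
    congr 1
    apply Finset.filter_congr
    intro n _
    constructor
    · rintro ⟨i, hi, hR⟩
      exact ⟨i.1, (hiff i s).1 hi, hR⟩
    · rintro ⟨m, hm, hR⟩
      have hmS : m ∈ S := by
        rw [hS, Finset.mem_biUnion]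
        exact ⟨s, Finset.mem_univ _, hm⟩
      exact ⟨⟨m, hmS⟩, (hiff _ s).2 hm, hR⟩

end Pool.Agent.H36.IS

end
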