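import Pool.Agent.H47.B1.M09
import Pool.Agent.H47.B1.M20
import Pool.Agent.H47.B1.M22
import Pool.Agent.H47.B1.M24

/-! The parts of this file: Lead.ZN.Mertens, H37.PPC.Mt, H36.IS.MerA, H36.IS.Bon, H36.IS.TrAbs, H36.IS.AsyA, H91.PK.DiB, H91.EHA.ChB, H91.EHA.ChA, H91.EHA.ChC, H36.IS.MerB. -/

section

namespace Pool.Agent.Lead.ZN

open Finset

/-- The primes `p` with `u < log p ≤ v`. -/
noncomputable def PL (u v : ℝ) : Finset ℕ :=
  (range (⌊Real.exp v⌋₊ + 1)).filter fun p => p.Prime ∧ u < Real.log p ∧ Real.log p ≤ v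

private lemma log_le_iff {p : ℕ} (hp : 0 < p) (v : ℝ) : Real.log p ≤ v ↔ p ≤ ⌊Real.exp v⌋₊ := by
  have hp' : (0 : ℝ) < p := by exact_mod_cast hp
  rw [Real.log_le_iff_le_exp hp', Nat.le_floor_iff (Real.exp_pos v).le]

theorem mem_PL {u v : ℝ} {p : ℕ} :
    p ∈ PL u v ↔ p.Prime ∧ u < Real.log p ∧ Real.log p ≤ v := by
  unfold PL
  rw [mem_filter, mem_range]
  constructor
  · exact fun h => h.2
  · intro h
    refine ⟨?_, h⟩
    have := (log_le_iff h.1.pos v).1 h.2.2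
    omega

/-- sum of `log p / p` over the primes up to `n` -/
private noncomputable def Ap (n : ℕ) : ℝ := ∑ p ∈ Nat.primesLE n, Real.log p / p

private lemma PL_eq {u v : ℝ} : PL u v = Nat.primesLE ⌊Real.exp v⌋₊ \ Nat.primesLE ⌊Real.exp u⌋₊ := by
  ext p
  rw [mem_PL, mem_sdiff, Nat.mem_primesLE, Nat.mem_primesLE]
  constructor
  · rintro ⟨h1, h2, h3⟩
    refine ⟨⟨(log_le_iff h1.pos v).1 h3, h1⟩, ?_⟩
    rintro ⟨h4, -⟩
    exact absurd ((log_le_iff h1.pos u).2 h4) (not_le.2 h2)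
  · rintro ⟨⟨h1, h2⟩, h3⟩
    refine ⟨h2, ?_, (log_le_iff h2.pos v).2 h1⟩
    by_contra hcon
    exact h3 ⟨(log_le_iff h2.pos u).1 (not_lt.1 hcon), h2⟩

private lemma primesLE_mono {a b : ℕ} (h : a ≤ b) : Nat.primesLE a ⊆ Nat.primesLE b := by
  intro p hp
  rw [Nat.mem_primesLE] at hp ⊢
  exact ⟨hp.1.trans h, hp.2⟩

private lemma floor_exp_mono {u v : ℝ} (h : u ≤ v) : ⌊Real.exp u⌋₊ ≤ ⌊Real.exp v⌋₊ :=
  Nat.floor_le_floor (Real.exp_le_exp.2 h)

private lemma sum_PL {u v : ℝ} (h : u ≤ v) :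
    ∑ p ∈ PL u v, Real.log p / p = Ap ⌊Real.exp v⌋₊ - Ap ⌊Real.exp u⌋₊ := by
  rw [PL_eq, Ap, Ap, ← Finset.sum_sdiff (primesLE_mono (floor_exp_mono h))]
  ring

private lemma exists_T : ∃ T : ℝ, 0 ≤ T ∧ ∀ n : ℕ,
    Ap n ≤ Pool.Agent.H91.Gold.Mt n ∧ Pool.Agent.H91.Gold.Mt n ≤ Ap n + T := by
  have hsum := ArithmeticFunction.vonMangoldt.summable_residueClass_non_primes_div (q := 1) (0 : ZMod 1)
  have hres : ∀ n : ℕ, ArithmeticFunction.vonMangoldt.residueClass (0 : ZMod 1) n = ArithmeticFunction.vonMangoldt n := by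
    intro n
    unfold ArithmeticFunction.vonMangoldt.residueClass
    rw [Set.indicator_of_mem]
    exact Subsingleton.elim _ _
  simp only [hres] at hsum
  set F : ℕ → ℝ := fun n => (if n.Prime then 0 else ArithmeticFunction.vonMangoldt n) / n with hF
  have hF0 : ∀ n, 0 ≤ F n := by
    intro n
    simp only [hF]
    split_ifs
    · simp
    · exact div_nonneg ArithmeticFunction.vonMangoldt_nonneg (Nat.cast_nonneg _)
  refine ⟨∑' n, F n, tsum_nonneg hF0, fun n => ?_⟩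
  have hMt : Pool.Agent.H91.Gold.Mt n = Ap n + ∑ k ∈ Ioc 0 n, F k := by
    unfold Pool.Agent.H91.Gold.Mt Ap
    have h1 : Nat.primesLE n = (Ioc 0 n).filter Nat.Prime := by
      ext p
      rw [Nat.mem_primesLE, mem_filter, mem_Ioc]
      constructor
      · rintro ⟨h1, h2⟩; exact ⟨⟨h2.pos, h1⟩, h2⟩
      · rintro ⟨⟨-, h1⟩, h2⟩; exact ⟨h1, h2⟩
    rw [h1, Finset.sum_filter, ← Finset.sum_add_distrib]
    apply Finset.sum_congr rfl
    intro k _
    simp only [hF]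
    split_ifs with hk
    · rw [ArithmeticFunction.vonMangoldt_apply_prime hk]; simp
    · simp
  have h2 : 0 ≤ ∑ k ∈ Ioc 0 n, F k := Finset.sum_nonneg (fun k _ => hF0 k)
  have h3 : ∑ k ∈ Ioc 0 n, F k ≤ ∑' n, F n := hsum.sum_le_tsum _ (fun k _ => hF0 k)
  constructor <;> linarith

private lemma Mt_mono {a b : ℕ} (h : a ≤ b) :
    Pool.Agent.H91.Gold.Mt a ≤ Pool.Agent.H91.Gold.Mt b := by
  unfold Pool.Agent.H91.Gold.Mt
  apply Finset.sum_le_sum_of_subset_of_nonneg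
  · intro k hk
    rw [mem_Ioc] at hk ⊢
    omega
  · intro k _ _
    exact div_nonneg ArithmeticFunction.vonMangoldt_nonneg (Nat.cast_nonneg _)

private lemma Ap_bounds : ∃ K : ℝ, 1 ≤ K ∧ ∀ n : ℕ, 1 ≤ n →
    Ap n ≤ Real.log n + K ∧ Real.log n ≤ Ap n + K := by
  obtain ⟨T, hT0, hT⟩ := exists_T
  refine ⟨max (Real.log 1024 + 1) (1 + T), le_max_of_le_right (by linarith), fun n hn => ?_⟩
  have hn0 : 0 ≤ Real.log n := Real.log_nonneg (by exact_mod_cast hn)
  have h1 := hT n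
  have h2 := Pool.Agent.H91.Gold.Mt_ge n hn
  have h1024 : 0 ≤ Real.log 1024 := Real.log_nonneg (by norm_num)
  constructor
  · have h3 : Pool.Agent.H91.Gold.Mt n ≤ Real.log n + (Real.log 1024 + 1) := by
      rcases Nat.lt_or_ge n 1024 with h | h
      · have h4 := Mt_mono h.le
        have h5 := Pool.Agent.H91.Gold.Mt_le 1024 le_rfl
        push_cast at h5
        linarith
      · have h5 := Pool.Agent.H91.Gold.Mt_le n h
        linarith
    have := le_max_left (Real.log 1024 + 1) (1 + T)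
    linarith
  · have := le_max_right (Real.log 1024 + 1) (1 + T)
    linarith

private lemma floor_exp_pos {v : ℝ} (hv : 0 ≤ v) : 1 ≤ ⌊Real.exp v⌋₊ := by
  rw [Nat.one_le_floor_iff]
  exact Real.one_le_exp hv

private lemma log_floor_le (v : ℝ) (hv : 0 ≤ v) : Real.log (⌊Real.exp v⌋₊ : ℝ) ≤ v := by
  have h1 := floor_exp_pos hv
  have h2 : (0 : ℝ) < (⌊Real.exp v⌋₊ : ℝ) := by exact_mod_cast h1
  rw [Real.log_le_iff_le_exp h2]
  exact Nat.floor_le (Real.exp_pos v).le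

private lemma le_log_floor (v : ℝ) (hv : 0 ≤ v) :
    v - Real.log 2 ≤ Real.log (⌊Real.exp v⌋₊ : ℝ) := by
  have h1 := floor_exp_pos hv
  have h2 : (1 : ℝ) ≤ (⌊Real.exp v⌋₊ : ℝ) := by exact_mod_cast h1
  have h3 : Real.exp v ≤ 2 * (⌊Real.exp v⌋₊ : ℝ) := by
    have := Nat.lt_floor_add_one (Real.exp v)
    linarith
  have h4 : v ≤ Real.log (2 * (⌊Real.exp v⌋₊ : ℝ)) := by
    rw [Real.le_log_iff_exp_le (by positivity)]
    exact h3
  rw [Real.log_mul (by norm_num) (by positivity)] at h4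
  linarith

private lemma log_step {k : ℕ} (hk : 2 ≤ k) : (1 : ℝ) / k ≤ Real.log k - Real.log (k - 1 : ℕ) := by
  have hk0 : (0 : ℝ) < k := by exact_mod_cast (by omega : 0 < k)
  have hk1 : (0 : ℝ) < ((k - 1 : ℕ) : ℝ) := by exact_mod_cast (by omega : 0 < k - 1)
  have hc : ((k - 1 : ℕ) : ℝ) = k - 1 := by push_cast [Nat.cast_sub (by omega : 1 ≤ k)]; ring
  have h := Real.log_le_sub_one_of_pos (show (0 : ℝ) < ((k - 1 : ℕ) : ℝ) / k by positivity)
  rw [Real.log_div hk1.ne' hk0.ne'] at h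
  have h2 : ((k - 1 : ℕ) : ℝ) / k - 1 = - (1 / k) := by rw [hc]; field_simp; ring
  rw [h2] at h
  linarith

private lemma loglog_step {k : ℕ} (hk : 3 ≤ k) :
    (1 : ℝ) / k * (1 / Real.log k) ≤ Real.log (Real.log k) - Real.log (Real.log (k - 1 : ℕ)) := by
  have hk0 : (0 : ℝ) < k := by exact_mod_cast (by omega : 0 < k)
  have hk1 : (1 : ℝ) < ((k - 1 : ℕ) : ℝ) := by exact_mod_cast (by omega : 1 < k - 1)
  have hk2 : (1 : ℝ) < k := by exact_mod_cast (by omega : 1 < k)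
  have hl1 : 0 < Real.log (k - 1 : ℕ) := Real.log_pos hk1
  have hl2 : 0 < Real.log k := Real.log_pos hk2
  have h := Real.log_le_sub_one_of_pos (show (0 : ℝ) < Real.log (k - 1 : ℕ) / Real.log k by positivity)
  rw [Real.log_div hl1.ne' hl2.ne'] at h
  have h3 := log_step (show 2 ≤ k by omega)
  have h4 : (1 : ℝ) / k * (1 / Real.log k) ≤ (Real.log k - Real.log (k - 1 : ℕ)) * (1 / Real.log k) :=
    mul_le_mul_of_nonneg_right h3 (by positivity)
  have h5 : (Real.log k - Real.log (k - 1 : ℕ)) * (1 / Real.log k) = 1 - Real.log (k - 1 : ℕ) / Real.log k := by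
    field_simp
  rw [h5] at h4
  linarith

private lemma sum_loglog {w z : ℕ} (hw : 2 ≤ w) (h : w ≤ z) :
    ∑ k ∈ Ioc w z, (1 : ℝ) / k * (1 / Real.log k) ≤ Real.log (Real.log z) - Real.log (Real.log w) := by
  induction z, h using Nat.le_induction with
  | base => simp
  | succ z hz ih =>
    rw [Finset.sum_Ioc_succ_top (by omega)]
    have := loglog_step (k := z + 1) (by omega)
    simp only [Nat.add_sub_cancel] at this
    linarith

private lemma sum_inv_ge {w m : ℕ} (hw : 1 ≤ w) (h : w ≤ m) :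
    Real.log m - Real.log w - 1 ≤ ∑ k ∈ Ioc w m, (1 : ℝ) / k := by
  have key : Real.log (m + 1) - Real.log (w + 1) ≤ ∑ k ∈ Ioc w m, (1 : ℝ) / k := by
    induction m, h using Nat.le_induction with
    | base => simp
    | succ m hm ih =>
      rw [Finset.sum_Ioc_succ_top (by omega)]
      have hm0 : (0 : ℝ) < (m : ℝ) + 1 := by positivity
      have h1 := Real.log_le_sub_one_of_pos (show (0 : ℝ) < ((m : ℝ) + 2) / (m + 1) by positivity)
      rw [Real.log_div (by positivity) (by positivity)] at h1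
      have h2 : ((m : ℝ) + 2) / (m + 1) - 1 = 1 / (m + 1) := by field_simp; ring
      rw [h2] at h1
      push_cast
      rw [show (m : ℝ) + 1 + 1 = m + 2 by ring]
      linarith
  have hw0 : (0 : ℝ) < w := by exact_mod_cast hw
  have hm0 : (0 : ℝ) < m := by exact_mod_cast (by omega : 0 < m)
  have h1 : Real.log m ≤ Real.log (m + 1) := Real.log_le_log hm0 (by linarith)
  have h2 := Real.log_le_sub_one_of_pos (show (0 : ℝ) < ((w : ℝ) + 1) / w by positivity)
  rw [Real.log_div (by positivity) (by positivity)] at h2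
  have h3 : ((w : ℝ) + 1) / w - 1 = 1 / w := by field_simp; ring
  have h4 : (1 : ℝ) / w ≤ 1 := by
    rw [div_le_one hw0]; exact_mod_cast hw
  rw [h3] at h2
  linarith

/-- Mertens' estimates (one constant for all of them). -/
theorem mertens : ∃ C : ℝ, 1 ≤ C ∧
    (∀ u v : ℝ, 0 ≤ u → u ≤ v → ∑ p ∈ PL u v, Real.log p / p ≤ (v - u) + C) ∧
    (∀ u v : ℝ, 0 ≤ u → u ≤ v → (v - u) - C ≤ ∑ p ∈ PL u v, Real.log p / p) ∧
    (∀ u v : ℝ, 1 ≤ u → u ≤ v → ∑ p ∈ PL u v, (1 : ℝ) / p ≤ Real.log (v / u) + C) ∧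
    (∀ v : ℝ, 0 ≤ v → ∑ p ∈ PL 0 v, Real.log p ≤ C * Real.exp v) := by
  obtain ⟨K, hK1, hK⟩ := Ap_bounds
  have hlog2 : Real.log 2 ≤ 1 := by have := Real.log_two_lt_d9; linarith
  have hlog2' : 0 < Real.log 2 := Real.log_pos (by norm_num)
  have hlog2'' : Real.log 2 < 0.7 := by have := Real.log_two_lt_d9; linarith
  have hlog2l : 0.69 < Real.log 2 := by have := Real.log_two_gt_d9; linarith
  refine ⟨4 * K + 10, by linarith, ?_, ?_, ?_, ?_⟩
  · intro u v hu huv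
    rw [sum_PL huv]
    have h1 := (hK _ (floor_exp_pos (hu.trans huv))).1
    have h2 := (hK _ (floor_exp_pos hu)).2
    have h3 := log_floor_le v (hu.trans huv)
    have h4 := le_log_floor u hu
    linarith
  · intro u v hu huv
    rw [sum_PL huv]
    have h1 := (hK _ (floor_exp_pos (hu.trans huv))).2
    have h2 := (hK _ (floor_exp_pos hu)).1
    have h3 := le_log_floor v (hu.trans huv)
    have h4 := log_floor_le u hu
    linarith
  · intro u v hu huv
    set w := ⌊Real.exp u⌋₊ with hw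
    set z := ⌊Real.exp v⌋₊ with hz
    have hwz : w ≤ z := floor_exp_mono huv
    have hw2 : 2 ≤ w := by
      rw [hw, Nat.le_floor_iff (Real.exp_pos u).le]
      have h1 : Real.exp 1 ≤ Real.exp u := Real.exp_le_exp.2 hu
      have h2 := Real.exp_one_gt_d9
      push_cast
      linarith
    have hw0 : (0 : ℝ) < w := by exact_mod_cast (by omega : 0 < w)
    have hab := Pool.Agent.H91.Gold.abel_le hwz (c := 2 * K + 1) (by linarith)
      (a := fun k => if k.Prime then Real.log k / k else 0)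
      (b := fun k => (1 : ℝ) / k) (f := fun k => 1 / Real.log k)
      (fun k hk _ => by
        have : (1 : ℝ) ≤ k := by exact_mod_cast (by omega : 1 ≤ k)
        exact div_nonneg one_pos.le (Real.log_nonneg this))
      (by
        have : (1 : ℝ) ≤ ((w + 1 : ℕ) : ℝ) := by exact_mod_cast (by omega : 1 ≤ w + 1)
        exact div_nonneg one_pos.le (Real.log_nonneg this))
      (fun k hk _ => by
        have h1 : (1 : ℝ) < k := by exact_mod_cast (by omega : 1 < k)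
        apply one_div_le_one_div_of_le (Real.log_pos h1)
        apply Real.log_le_log (by linarith)
        push_cast; linarith)
      (fun m hwm hmz => by
        have e1 : ∑ k ∈ Ioc w m, (if k.Prime then Real.log k / k else 0) = Ap m - Ap w := by
          rw [← Finset.sum_filter, Ap, Ap, ← Finset.sum_sdiff (primesLE_mono hwm), add_sub_cancel_right]
          apply Finset.sum_congr _ (fun _ _ => rfl)
          ext p
          rw [mem_filter, mem_Ioc, mem_sdiff, Nat.mem_primesLE, Nat.mem_primesLE]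
          constructor
          · rintro ⟨⟨h1, h2⟩, h3⟩
            exact ⟨⟨h2, h3⟩, fun h => by omega⟩
          · rintro ⟨⟨h1, h2⟩, h3⟩
            refine ⟨⟨?_, h1⟩, h2⟩
            by_contra hcon
            exact h3 ⟨by omega, h2⟩
        rw [e1]
        have h1 := (hK m (by omega)).1
        have h2 := (hK w (by omega)).2
        have h3 := sum_inv_ge (show 1 ≤ w by omega) hwm
        linarith)
    have e2 : ∑ p ∈ PL u v, (1 : ℝ) / p = ∑ k ∈ Ioc w z, (if k.Prime then Real.log k / k else 0) * (1 / Real.log k) := by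
      have e3 : PL u v = (Ioc w z).filter Nat.Prime := by
        rw [PL_eq]
        ext p
        rw [mem_filter, mem_Ioc, mem_sdiff, Nat.mem_primesLE, Nat.mem_primesLE]
        constructor
        · rintro ⟨⟨h1, h2⟩, h3⟩
          refine ⟨⟨?_, h1⟩, h2⟩
          by_contra hcon
          exact h3 ⟨by omega, h2⟩
        · rintro ⟨⟨h1, h2⟩, h3⟩
          exact ⟨⟨h2, h3⟩, fun h => by omega⟩
      rw [e3, Finset.sum_filter]
      apply Finset.sum_congr rfl
      intro k hk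
      split_ifs with hkp
      · have : 0 < Real.log k := Real.log_pos (by exact_mod_cast hkp.one_lt)
        field_simp
      · simp
    rw [e2]
    refine hab.trans ?_
    have h5 := sum_loglog hw2 hwz
    -- bounds on the loglog terms
    have hz2 : 2 ≤ z := hw2.trans hwz
    have hz0 : (0 : ℝ) < z := by exact_mod_cast (by omega : 0 < z)
    have hu0 : 0 < u := by linarith
    have hv0 : 0 < v := by linarith
    have h6 : Real.log (Real.log z) ≤ Real.log v := by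
      apply Real.log_le_log (Real.log_pos (by exact_mod_cast (by omega : 1 < z)))
      exact log_floor_le v hv0.le
    have h7 : Real.log u - 2 ≤ Real.log (Real.log w) := by
      have h8 := le_log_floor u hu0.le
      -- log w >= u - log 2 >= 0.3 u
      have h9 : 0.3 * u ≤ Real.log w := by
        have : Real.log w ≥ u - Real.log 2 := h8
        nlinarith
      have h10 : Real.log (0.3 * u) ≤ Real.log (Real.log w) := Real.log_le_log (by positivity) h9
      rw [Real.log_mul (by norm_num) hu0.ne'] at h10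
      have h11 : -2 ≤ Real.log 0.3 := by
        rw [Real.le_log_iff_exp_le (by norm_num)]
        have h12 : Real.exp (-2) ≤ 0.25 := by
          rw [show (-2 : ℝ) = -(1 + 1) by norm_num, Real.exp_neg, Real.exp_add]
          have := Real.exp_one_gt_d9
          rw [inv_le_comm₀ (by positivity) (by norm_num)]
          nlinarith
        linarith
      linarith
    have h8 : (2 * K + 1) * (1 / Real.log ((w + 1 : ℕ) : ℝ)) ≤ 2 * K + 1 := by
      have h9 : 1 ≤ Real.log ((w + 1 : ℕ) : ℝ) := by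
        rw [Real.le_log_iff_exp_le (by positivity)]
        have : Real.exp 1 < 3 := by have := Real.exp_one_lt_d9; linarith
        have h3 : (3 : ℝ) ≤ ((w + 1 : ℕ) : ℝ) := by exact_mod_cast (by omega : 3 ≤ w + 1)
        linarith
      have h10 : 1 / Real.log ((w + 1 : ℕ) : ℝ) ≤ 1 := by
        rw [div_le_one (by linarith)]; exact h9
      nlinarith
    rw [Real.log_div hv0.ne' hu0.ne']
    linarith
  · intro v hv
    have h1 := Chebyshev.theta_le_log4_mul_x (Real.exp_pos v).le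
    have h2 : ∑ p ∈ PL 0 v, Real.log p ≤ Chebyshev.theta (Real.exp v) := by
      rw [Chebyshev.theta_eq_sum_primesLE]
      apply Finset.sum_le_sum_of_subset_of_nonneg
      · rw [PL_eq]; exact Finset.sdiff_subset
      · intro p hp _
        exact Real.log_natCast_nonneg p
    have h3 : Real.log 4 ≤ 2 := by
      rw [show (4 : ℝ) = 2 * 2 by norm_num, Real.log_mul (by norm_num) (by norm_num)]
      linarith
    have h4 : Real.log 4 * Real.exp v ≤ (4 * K + 10) * Real.exp v :=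
      mul_le_mul_of_nonneg_right (by linarith) (Real.exp_pos v).le
    linarith

end Pool.Agent.Lead.ZN

end

section

/-!
PPC Mt: two-sided Mertens for ∑ 1/p between natural numbers, and two sums of log^{1/2}.

Sources: Pool.Agent.Lead.ZN.mertens (∑ log p/p two-sided over PL u v = primes with u < log p ≤ v; ∑ 1/p upper),
and Abel summation (`Gold.abel_le`) for the lower bound.

`sum_half`: f(u) = ∑_{p ≤ u} (log p)^{1/2}/p ≤ K (log u)^{1/2}: strong induction, f(u) - f(√u) ≤ (log u)^{1/2} ∑_{√u<p≤u} 1/p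
 ≤ C (log u)^{1/2}, and (log √u)^{1/2} = (log u)^{1/2}/√2.
-/

set_option autoImplicit false

namespace Pool.Agent.H37.PPC

open Finset

private theorem Mt_log_pos {k : ℕ} (hk : 2 ≤ k) : 0 < Real.log k :=
  Real.log_pos (by exact_mod_cast (by omega : 1 < k))

private theorem Mt_log_three : (1 : ℝ) ≤ Real.log 3 := by
  rw [Real.le_log_iff_exp_le (by norm_num)]
  have := Real.exp_one_lt_d9
  linarith

private theorem Mt_log_ge {k : ℕ} (hk : 3 ≤ k) : (1 : ℝ) ≤ Real.log k := by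
  refine Mt_log_three.trans (Real.log_le_log (by norm_num) ?_)
  exact_mod_cast hk

private theorem Mt_step {k : ℕ} (hk : 4 ≤ k) :
    (Real.log (Real.log k) - Real.log (Real.log (k - 1 : ℕ))) * Real.log k ≤
      (Real.log k - Real.log (k - 1 : ℕ)) + (1 / ((k : ℝ) - 2) - 1 / ((k : ℝ) - 1)) := by
  have hkr : (4 : ℝ) ≤ k := by exact_mod_cast hk
  have hc : ((k - 1 : ℕ) : ℝ) = k - 1 := by
    push_cast [Nat.cast_sub (by omega : 1 ≤ k)]; ring
  have h1 : (1 : ℝ) ≤ Real.log (k - 1 : ℕ) := Mt_log_ge (by omega)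
  have h0 : (1 : ℝ) ≤ Real.log k := Mt_log_ge (by omega)
  have hp : (0 : ℝ) < ((k - 1 : ℕ) : ℝ) := by rw [hc]; linarith
  set A := Real.log k with hA
  set B := Real.log (k - 1 : ℕ) with hB
  -- `A - B ≤ 1 / (k - 1)`
  have hd : A - B ≤ 1 / ((k : ℝ) - 1) := by
    have h := Real.log_le_sub_one_of_pos (show (0 : ℝ) < (k : ℝ) / ((k - 1 : ℕ) : ℝ) by positivity)
    rw [Real.log_div (by positivity) hp.ne'] at h
    have h2 : (k : ℝ) / ((k - 1 : ℕ) : ℝ) - 1 = 1 / ((k : ℝ) - 1) := by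
      rw [hc]
      have : (k : ℝ) - 1 ≠ 0 := by linarith
      field_simp
      ring
    rw [h2] at h
    exact h
  have hAB : B ≤ A := by
    rw [hA, hB]
    exact Real.log_le_log hp (by rw [hc]; linarith)
  have h3 : Real.log A - Real.log B ≤ (A - B) / B := by
    have h := Real.log_le_sub_one_of_pos (show (0 : ℝ) < A / B by positivity)
    rw [Real.log_div (by linarith) (by linarith)] at h
    have h2 : A / B - 1 = (A - B) / B := by
      rw [sub_div, div_self (by linarith)]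
    rw [h2] at h
    exact h
  have h4 : (Real.log A - Real.log B) * A ≤ (A - B) / B * A := mul_le_mul_of_nonneg_right h3 (by linarith)
  have h5 : (A - B) / B * A = (A - B) + (A - B) ^ 2 / B := by
    have : B ≠ 0 := by linarith
    field_simp
    ring
  have h6 : (A - B) ^ 2 / B ≤ (A - B) ^ 2 := div_le_self (sq_nonneg _) h1
  have h7 : (A - B) ^ 2 ≤ (1 / ((k : ℝ) - 1)) ^ 2 := by
    apply pow_le_pow_left₀ (by linarith) hd
  have h8 : (1 / ((k : ℝ) - 1)) ^ 2 ≤ 1 / ((k : ℝ) - 2) - 1 / ((k : ℝ) - 1) := by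
    have e1 : (0 : ℝ) < (k : ℝ) - 1 := by linarith
    have e2 : (0 : ℝ) < (k : ℝ) - 2 := by linarith
    rw [div_sub_div _ _ e2.ne' e1.ne', div_pow, one_pow, div_le_div_iff₀ (by positivity) (by positivity)]
    nlinarith
  linarith

private theorem Mt_sum_step {m : ℕ} (hm : 3 ≤ m) :
    ∑ k ∈ Ioc 3 m, (Real.log (Real.log k) - Real.log (Real.log (k - 1 : ℕ))) * Real.log k ≤
      Real.log m - Real.log 3 + (1 / 2 - 1 / ((m : ℝ) - 1)) := by
  induction m, hm using Nat.le_induction with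
  | base =>
    norm_num
  | succ m hm ih =>
    rw [Finset.sum_Ioc_succ_top (by omega)]
    have h := Mt_step (k := m + 1) (by omega)
    have e : ((m + 1 : ℕ) : ℝ) - 2 = (m : ℝ) - 1 := by push_cast; ring
    rw [e] at h
    simp only [Nat.add_sub_cancel] at h ⊢
    linarith

private theorem Mt_telescope {m : ℕ} (hm : 3 ≤ m) :
    ∑ k ∈ Ioc 3 m, (Real.log (Real.log k) - Real.log (Real.log (k - 1 : ℕ))) =
      Real.log (Real.log m) - Real.log (Real.log 3) := by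
  induction m, hm using Nat.le_induction with
  | base => norm_num
  | succ m hm ih =>
    rw [Finset.sum_Ioc_succ_top (by omega), ih]
    simp only [Nat.add_sub_cancel]
    ring

private theorem Mt_PL {m : ℕ} (hm : 3 ≤ m) :
    Pool.Agent.Lead.ZN.PL (Real.log (3 : ℕ)) (Real.log m) = (Ioc 3 m).filter Nat.Prime := by
  ext p
  rw [Pool.Agent.Lead.ZN.mem_PL, mem_filter, mem_Ioc]
  constructor
  · rintro ⟨h1, h2, h3⟩
    have hp : (0 : ℝ) < p := by exact_mod_cast h1.pos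
    rw [Real.log_lt_log_iff (by norm_num) hp] at h2
    rw [Real.log_le_log_iff hp (by exact_mod_cast (by omega : 0 < m))] at h3
    exact ⟨⟨by exact_mod_cast h2, by exact_mod_cast h3⟩, h1⟩
  · rintro ⟨⟨h2, h3⟩, h1⟩
    have hp : (0 : ℝ) < p := by exact_mod_cast h1.pos
    refine ⟨h1, ?_, ?_⟩
    · rw [Real.log_lt_log_iff (by norm_num) hp]
      exact_mod_cast h2
    · rw [Real.log_le_log_iff hp (by exact_mod_cast (by omega : 0 < m))]
      exact_mod_cast h3

private theorem Mt_lower : ∃ C : ℝ, 0 ≤ C ∧ ∀ m : ℕ, 3 ≤ m →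
    Real.log (Real.log m) - C ≤ ∑ p ∈ (Ioc 3 m).filter Nat.Prime, (1 : ℝ) / p := by
  obtain ⟨C, hC1, -, hlow, -, -⟩ := Pool.Agent.Lead.ZN.mertens
  refine ⟨C + 1 + Real.log (Real.log 3), ?_, ?_⟩
  · have := Real.log_nonneg Mt_log_three
    linarith
  intro z hz
  have key : ∑ k ∈ Ioc 3 z,
      ((Real.log (Real.log k) - Real.log (Real.log (k - 1 : ℕ))) * Real.log k) * (1 / Real.log k) ≤
      ∑ k ∈ Ioc 3 z, (if k.Prime then Real.log k / k else 0) * (1 / Real.log k) +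
        (C + 1) * (1 / Real.log ((3 + 1 : ℕ) : ℝ)) := by
    apply Pool.Agent.H91.Gold.abel_le (f := fun k : ℕ => 1 / Real.log k) hz (by linarith)
    · intro k hk _
      have := Mt_log_pos (k := k) (by omega)
      positivity
    · have := Mt_log_pos (k := 3 + 1) (by omega)
      positivity
    · intro k hk _
      have h1 := Mt_log_pos (k := k) (by omega)
      apply one_div_le_one_div_of_le h1
      apply Real.log_le_log (by exact_mod_cast (by omega : 0 < k))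
      push_cast
      linarith
    · intro m hm _
      have h1 := Mt_sum_step hm
      have h2 := hlow (Real.log (3 : ℕ)) (Real.log m) (by positivity)
        (Real.log_le_log (by norm_num) (by exact_mod_cast hm))
      rw [Mt_PL hm, sum_filter] at h2
      have h3 : (0 : ℝ) ≤ 1 / ((m : ℝ) - 1) := by
        have : (3 : ℝ) ≤ m := by exact_mod_cast hm
        have : (0 : ℝ) ≤ (m : ℝ) - 1 := by linarith
        positivity
      push_cast at h2
      linarith
  have e1 : ∀ k ∈ Ioc 3 z,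
      ((Real.log (Real.log k) - Real.log (Real.log (k - 1 : ℕ))) * Real.log k) * (1 / Real.log k) =
      (Real.log (Real.log k) - Real.log (Real.log (k - 1 : ℕ))) := by
    intro k hk
    rw [mem_Ioc] at hk
    have := Mt_log_pos (k := k) (by omega)
    field_simp
  rw [sum_congr rfl e1, Mt_telescope hz] at key
  have e2 : ∑ k ∈ Ioc 3 z, (if k.Prime then Real.log k / k else 0) * (1 / Real.log k) =
      ∑ p ∈ (Ioc 3 z).filter Nat.Prime, (1 : ℝ) / p := by
    rw [sum_filter]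
    apply sum_congr rfl
    intro k hk
    rw [mem_Ioc] at hk
    have := Mt_log_pos (k := k) (by omega)
    split_ifs with h
    · field_simp
    · ring
  rw [e2] at key
  have e3 : (C + 1) * (1 / Real.log ((3 + 1 : ℕ) : ℝ)) ≤ C + 1 := by
    have h1 := Mt_log_ge (k := 3 + 1) (by omega)
    have h2 : 1 / Real.log ((3 + 1 : ℕ) : ℝ) ≤ 1 := by
      rw [div_le_one (by linarith)]
      exact h1
    nlinarith
  linarith

private theorem Mt_G : ∃ K : ℝ, 0 < K ∧ ∀ n : ℕ, 2 ≤ n →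
    |∑ p ∈ pr 2 n, (1 : ℝ) / p - Real.log (Real.log n)| ≤ K := by
  obtain ⟨C, hC0, hlow⟩ := Mt_lower
  obtain ⟨D, hD1, -, -, hup, -⟩ := Pool.Agent.Lead.ZN.mertens
  refine ⟨C + D + 1 + |Real.log (Real.log 2)| + |Real.log (Real.log 3)|, by positivity, ?_⟩
  intro n hn
  rcases Nat.lt_or_ge n 3 with h | h3
  · have : n = 2 := by omega
    subst this
    have e : pr 2 2 = ∅ := by simp [pr]
    rw [e, sum_empty, zero_sub, abs_neg]
    push_cast
    have := abs_nonneg (Real.log (Real.log 3))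
    linarith
  · have h1 := hlow n h3
    have h2 := hup (Real.log (3 : ℕ)) (Real.log n) (by push_cast; exact Mt_log_three)
      (Real.log_le_log (by norm_num) (by exact_mod_cast h3))
    rw [Mt_PL h3, Real.log_div (Mt_log_pos (by omega)).ne' (Mt_log_pos (by omega)).ne'] at h2
    have s1 : (Ioc 3 n).filter Nat.Prime ⊆ insert n (pr 2 n) := by
      intro p hp
      rw [mem_filter, mem_Ioc] at hp
      rw [mem_insert, mem_pr]
      by_cases hpn : p = n
      · exact Or.inl hpn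
      · exact Or.inr ⟨⟨by omega, by omega⟩, hp.2⟩
    have s2 : pr 2 n ⊆ insert 2 (insert 3 ((Ioc 3 n).filter Nat.Prime)) := by
      intro p hp
      rw [mem_pr] at hp
      rw [mem_insert, mem_insert, mem_filter, mem_Ioc]
      by_cases h2 : p = 2
      · exact Or.inl h2
      by_cases h3 : p = 3
      · exact Or.inr (Or.inl h3)
      · exact Or.inr (Or.inr ⟨⟨by omega, by omega⟩, hp.2⟩)
    have hn' : n ∉ pr 2 n := by
      rw [mem_pr]; omega
    have t1 : ∑ p ∈ (Ioc 3 n).filter Nat.Prime, (1 : ℝ) / p ≤ 1 / n + ∑ p ∈ pr 2 n, (1 : ℝ) / p := by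
      have t := sum_le_sum_of_subset_of_nonneg (f := fun p : ℕ => (1 : ℝ) / p) s1
        fun _ _ _ => by positivity
      rw [sum_insert hn'] at t
      exact t
    have t2 : ∑ p ∈ pr 2 n, (1 : ℝ) / p ≤
        1 / (2 : ℕ) + (1 / (3 : ℕ) + ∑ p ∈ (Ioc 3 n).filter Nat.Prime, (1 : ℝ) / p) := by
      have t := sum_le_sum_of_subset_of_nonneg (f := fun p : ℕ => (1 : ℝ) / p) s2
        fun _ _ _ => by positivity
      rw [sum_insert (by simp), sum_insert (by simp)] at t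
      exact t
    have t3 : (1 : ℝ) / n ≤ 1 := by
      rw [div_le_one (by exact_mod_cast (by omega : 0 < n))]
      exact_mod_cast (by omega : 1 ≤ n)
    push_cast at t2 h2
    have a1 := abs_nonneg (Real.log (Real.log 2))
    have a2 := neg_abs_le (Real.log (Real.log 3))
    have a3 := abs_nonneg (Real.log (Real.log 3))
    rw [abs_le]
    constructor
    · linarith
    · linarith

theorem mertens_two : ∃ C : ℝ, 0 < C ∧ ∀ a b : ℕ, 2 ≤ a → a ≤ b →
    |∑ p ∈ pr a b, (1 : ℝ) / p - (Real.log (Real.log b) - Real.log (Real.log a))| ≤ C := by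
  obtain ⟨K, hK, h⟩ := Mt_G
  refine ⟨2 * K, by positivity, fun a b ha hab => ?_⟩
  have h1 := h a ha
  have h2 := h b (by omega)
  have e : ∑ p ∈ pr 2 b, (1 : ℝ) / p = ∑ p ∈ pr 2 a, (1 : ℝ) / p + ∑ p ∈ pr a b, (1 : ℝ) / p := by
    rw [← sum_union]
    · congr 1
      ext p
      rw [mem_union, mem_pr, mem_pr, mem_pr]
      constructor
      · rintro ⟨⟨h1, h2⟩, h3⟩
        by_cases h : p < a
        · exact Or.inl ⟨⟨h1, h⟩, h3⟩
        · exact Or.inr ⟨⟨by omega, h2⟩, h3⟩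
      · rintro (⟨⟨h1, h2⟩, h3⟩ | ⟨⟨h1, h2⟩, h3⟩)
        · exact ⟨⟨h1, by omega⟩, h3⟩
        · exact ⟨⟨by omega, h2⟩, h3⟩
    · rw [disjoint_left]
      intro p hp hq
      rw [mem_pr] at hp hq
      omega
  rw [abs_le] at h1 h2 ⊢
  constructor <;> linarith [h1.1, h1.2, h2.1, h2.2]

end Pool.Agent.H37.PPC

end

section

/-!
# IS MerA: Mertens-type bounds

You may use any finished file of the pool (e.g. `Pool.Agent.H91.Gold.mertens_wz` (H91/GoldMertens3.lean),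
`Pool.Agent.H3.LC.Mertens`, `Pool.Agent.H37.PPC.Mt` ...).

* `sum_fn_le`: ∑_{p ≤ x} 1/(p-1) ≤ loglog x + C   (Mertens' second theorem, upper bound; 1/(p-1) - 1/p ≤ 2/p²).
* `euler_pow`: ∏ (1 + C/(p-1)) ≤ exp(C ∑ 1/(p-1)) ≤ (log x)^B.
-/

set_option autoImplicit false

namespace Pool.Agent.H36.IS

open Finset Filter

private theorem MerA_tel (x : ℕ) (hx : 1 ≤ x) :
    ∑ p ∈ (range (x + 1)).filter Nat.Prime, (fn p - 1 / (p : ℝ)) ≤ 1 - 1 / (x : ℝ) := by
  induction x, hx using Nat.le_induction with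
  | base =>
    have h : (range (1 + 1)).filter Nat.Prime = ∅ := by decide
    rw [h]
    simp
  | succ x hx ih =>
    have hx0 : (0 : ℝ) < x := by exact_mod_cast hx
    rw [range_add_one, filter_insert]
    have e : fn (x + 1) - 1 / ((x + 1 : ℕ) : ℝ) = 1 / (x : ℝ) - 1 / ((x + 1 : ℕ) : ℝ) := by
      unfold fn
      push_cast
      rw [add_sub_cancel_right]
    have e0 : 0 ≤ 1 / (x : ℝ) - 1 / ((x + 1 : ℕ) : ℝ) := by
      have : 1 / ((x + 1 : ℕ) : ℝ) ≤ 1 / (x : ℝ) := by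
        apply one_div_le_one_div_of_le hx0
        push_cast
        linarith
      linarith
    split_ifs with hp
    · rw [sum_insert (by simp), e]
      linarith
    · linarith

theorem sum_fn_le : ∃ C : ℝ, ∀ᶠ x : ℕ in atTop,
    ∑ p ∈ (range (x + 1)).filter Nat.Prime, fn p ≤ Real.log (Real.log x) + C := by
  obtain ⟨C, hC, hM⟩ := Pool.Agent.H37.PPC.mertens_two
  refine ⟨1 + C + Real.log 2 - Real.log (Real.log 2), ?_⟩
  filter_upwards [eventually_ge_atTop 3] with x hx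
  have hx3 : (3 : ℝ) ≤ x := by exact_mod_cast hx
  have hx0 : (0 : ℝ) < x := by linarith
  have h1 := MerA_tel x (by omega)
  rw [sum_sub_distrib] at h1
  have h2 := (abs_le.mp (hM 2 (x + 1) le_rfl (by omega))).2
  have h3 : Pool.Agent.H37.PPC.pr 2 (x + 1) = (range (x + 1)).filter Nat.Prime := by
    ext p
    rw [Pool.Agent.H37.PPC.mem_pr, mem_filter, mem_range]
    constructor
    · rintro ⟨⟨_, h⟩, hp⟩
      exact ⟨h, hp⟩
    · rintro ⟨h, hp⟩
      exact ⟨⟨hp.two_le, h⟩, hp⟩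
  rw [h3] at h2
  have hlogx : 1 < Real.log x := by
    rw [Real.lt_log_iff_exp_lt hx0]
    have := Real.exp_one_lt_d9
    linarith
  have h4 : Real.log ((x + 1 : ℕ) : ℝ) ≤ 2 * Real.log x := by
    have h5 : ((x + 1 : ℕ) : ℝ) ≤ (x : ℝ) ^ 2 := by
      push_cast
      nlinarith
    calc Real.log ((x + 1 : ℕ) : ℝ) ≤ Real.log ((x : ℝ) ^ 2) :=
          Real.log_le_log (by positivity) h5
      _ = 2 * Real.log x := by rw [Real.log_pow]; push_cast; ring
  have h6 : 0 < Real.log ((x + 1 : ℕ) : ℝ) := by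
    apply Real.log_pos
    push_cast
    linarith
  have h7 : Real.log (Real.log ((x + 1 : ℕ) : ℝ)) ≤ Real.log 2 + Real.log (Real.log x) := by
    rw [← Real.log_mul (by norm_num) (by linarith)]
    exact Real.log_le_log h6 h4
  have h8 : 0 ≤ 1 / (x : ℝ) := by positivity
  have h9 : ((2 : ℕ) : ℝ) = 2 := by norm_num
  rw [h9] at h2
  linarith

theorem euler_pow (C : ℝ) (hC : 0 ≤ C) : ∃ B : ℕ, ∀ᶠ x : ℕ in atTop,
    ∏ p ∈ (range (x + 1)).filter Nat.Prime, (1 + C * fn p) ≤ Real.log x ^ B := by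
  obtain ⟨C', hC'⟩ := sum_fn_le
  refine ⟨⌈C⌉₊ + 1, ?_⟩
  have ht : Tendsto (fun x : ℕ => Real.log (Real.log x)) atTop atTop :=
    Real.tendsto_log_atTop.comp (Real.tendsto_log_atTop.comp tendsto_natCast_atTop_atTop)
  filter_upwards [hC', ht.eventually_ge_atTop (C * C'), ht.eventually_ge_atTop 0,
    eventually_ge_atTop 3] with x h1 h2 h3 hx
  have hx3 : (3 : ℝ) ≤ x := by exact_mod_cast hx
  have hx0 : (0 : ℝ) < x := by linarith
  have hlogx : 1 < Real.log x := by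
    rw [Real.lt_log_iff_exp_lt hx0]
    have := Real.exp_one_lt_d9
    linarith
  have hfn : ∀ p ∈ (range (x + 1)).filter Nat.Prime, 0 ≤ fn p := by
    intro p hp
    have hp' := (mem_filter.mp hp).2.two_le
    have hp2 : (2 : ℝ) ≤ p := by exact_mod_cast hp'
    unfold fn
    apply one_div_nonneg.mpr
    linarith
  calc ∏ p ∈ (range (x + 1)).filter Nat.Prime, (1 + C * fn p)
      ≤ ∏ p ∈ (range (x + 1)).filter Nat.Prime, Real.exp (C * fn p) := by
        refine prod_le_prod (fun p hp => ?_) (fun p hp => ?_)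
        · have := mul_nonneg hC (hfn p hp)
          linarith
        · have := Real.add_one_le_exp (C * fn p)
          linarith
    _ = Real.exp (C * ∑ p ∈ (range (x + 1)).filter Nat.Prime, fn p) := by
        rw [← Real.exp_sum, mul_sum]
    _ ≤ Real.exp ((⌈C⌉₊ + 1 : ℕ) * Real.log (Real.log x)) := by
        apply Real.exp_le_exp.mpr
        have h4 : C * ∑ p ∈ (range (x + 1)).filter Nat.Prime, fn p
            ≤ C * (Real.log (Real.log x) + C') := mul_le_mul_of_nonneg_left h1 hC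
        have h5 : C * Real.log (Real.log x) ≤ ⌈C⌉₊ * Real.log (Real.log x) :=
          mul_le_mul_of_nonneg_right (Nat.le_ceil C) h3
        push_cast
        linarith
    _ = Real.log x ^ (⌈C⌉₊ + 1) := by
        rw [Real.exp_nat_mul, Real.exp_log (by linarith)]

end Pool.Agent.H36.IS

end

section

/-!
# IS Bon: Bonferroni inequalities for products

For 0 ≤ a p ≤ 1 (p ∈ P):  ∏(1 - a) = ∑_{D ⊆ P} (-1)^|D| ∏_D a, and the truncation at |D| ≤ t has error at most the next term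
∑_{|D| = t+1} ∏_D a.
Proof by induction on P (insert q): let S_t(P) be the truncated sum, V(P) = ∏(1-a), e_t(P) the elementary symmetric sum.
 S_t(P ∪ q) = S_t(P) - a_q S_{t-1}(P), V(P∪q) = V(P) - a_q V(P); stronger claim: (-1)^t (S_t - V) ≥ 0 (alternating), and
 (-1)^t(S_t - V) ≤ e_{t+1}:  (-1)^t(S_t(P∪q) - V(P∪q)) = (-1)^t (S_t - V)(P) + a_q (-1)^{t-1}(S_{t-1} - V)(P) ≤ e_{t+1}(P) + a_q e_t(P)
 = e_{t+1}(P∪q) (for t = 0: S_0 = 1, use S_{-1} = 0: treat t = 0 separately: 0 ≤ 1 - V ≤ ∑ a).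
`esymm_le`: ∑_{|D|=m} ∏_D a ≤ (∑ a)^m/m!  (induction on m: (m+1) e_{m+1} ≤ e_m e_1; Mathlib: `Finset.esymm`, `Finset.prod_pow_le...`;
 or induction on P with (s + a)^m ≥ s^m + m a s^(m-1)).
-/

set_option autoImplicit false

namespace Pool.Agent.H36.IS

open Finset

private theorem Bon_insert {α : Type*} [DecidableEq α] (P : Finset α) (a : α → ℝ) {q : α}
    (hq : q ∉ P) (m : ℕ) :
    ∑ D ∈ (insert q P).powersetCard (m + 1), ∏ p ∈ D, a p =
      ∑ D ∈ P.powersetCard (m + 1), ∏ p ∈ D, a p + a q * ∑ D ∈ P.powersetCard m, ∏ p ∈ D, a p := by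
  rw [powersetCard_succ_insert hq, sum_union]
  · congr 1
    rw [sum_image, mul_sum]
    · refine sum_congr rfl fun D hD => ?_
      rw [prod_insert]
      intro h
      exact hq ((mem_powersetCard.mp hD).1 h)
    · intro D hD D' hD' h
      have h1 : q ∉ D := fun h' => hq ((mem_powersetCard.mp (mem_coe.mp hD)).1 h')
      have h2 : q ∉ D' := fun h' => hq ((mem_powersetCard.mp (mem_coe.mp hD')).1 h')
      have h3 := congrArg (fun E : Finset α => E.erase q) h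
      simp only [erase_insert h1, erase_insert h2] at h3
      exact h3
  · rw [disjoint_left]
    intro D hD hD'
    rw [mem_image] at hD'
    obtain ⟨E, _, rfl⟩ := hD'
    exact hq ((mem_powersetCard.mp hD).1 (mem_insert_self q E))

private theorem Bon_zero {α : Type*} [DecidableEq α] (P : Finset α) (a : α → ℝ) :
    ∑ D ∈ P.powersetCard 0, ∏ p ∈ D, a p = 1 := by
  simp

private theorem Bon_aux {α : Type*} [DecidableEq α] (P : Finset α) (a : α → ℝ) :
    (∀ p ∈ P, 0 ≤ a p ∧ a p ≤ 1) → ∀ n : ℕ,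
    0 ≤ (-1 : ℝ) ^ n * (∏ p ∈ P, (1 - a p) -
        ∑ m ∈ range n, (-1 : ℝ) ^ m * ∑ D ∈ P.powersetCard m, ∏ p ∈ D, a p) ∧
    (-1 : ℝ) ^ n * (∏ p ∈ P, (1 - a p) -
        ∑ m ∈ range n, (-1 : ℝ) ^ m * ∑ D ∈ P.powersetCard m, ∏ p ∈ D, a p) ≤
      ∑ D ∈ P.powersetCard n, ∏ p ∈ D, a p := by
  induction P using Finset.induction_on with
  | empty =>
    intro _ n
    rcases n with _ | n
    · simp
    · have h1 : ∑ m ∈ range (n + 1), (-1 : ℝ) ^ m *
          ∑ D ∈ (∅ : Finset α).powersetCard m, ∏ p ∈ D, a p = 1 := by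
        rw [sum_eq_single 0]
        · simp
        · intro m _ hm
          rw [powersetCard_eq_empty.mpr (by simpa using Nat.pos_of_ne_zero hm)]
          simp
        · simp
      have h2 : ∑ D ∈ (∅ : Finset α).powersetCard (n + 1), ∏ p ∈ D, a p = 0 := by
        rw [powersetCard_eq_empty.mpr (by simp)]
        simp
      rw [h1, h2]
      simp
  | insert q P hq ih =>
    intro ha n
    have haP : ∀ p ∈ P, 0 ≤ a p ∧ a p ≤ 1 := fun p hp => ha p (mem_insert_of_mem hp)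
    have haq := ha q (mem_insert_self q P)
    have ih' := ih haP
    have hV : ∏ p ∈ insert q P, (1 - a p) = (1 - a q) * ∏ p ∈ P, (1 - a p) := prod_insert hq
    rcases n with _ | n
    · have h0 := ih' 0
      simp only [pow_zero, one_mul, range_zero, sum_empty, sub_zero, Bon_zero] at h0 ⊢
      rw [hV]
      constructor
      · exact mul_nonneg (by linarith [haq.2]) h0.1
      · exact mul_le_one₀ (by linarith [haq.1]) h0.1 h0.2
    · have hS : ∑ m ∈ range (n + 1), (-1 : ℝ) ^ m *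
            ∑ D ∈ (insert q P).powersetCard m, ∏ p ∈ D, a p =
          ∑ m ∈ range (n + 1), (-1 : ℝ) ^ m * ∑ D ∈ P.powersetCard m, ∏ p ∈ D, a p -
          a q * ∑ m ∈ range n, (-1 : ℝ) ^ m * ∑ D ∈ P.powersetCard m, ∏ p ∈ D, a p := by
        rw [sum_range_succ', sum_range_succ' (fun m => (-1 : ℝ) ^ m *
          ∑ D ∈ P.powersetCard m, ∏ p ∈ D, a p), Bon_zero, Bon_zero]
        have h1 : ∀ m ∈ range n, (-1 : ℝ) ^ (m + 1) *
            ∑ D ∈ (insert q P).powersetCard (m + 1), ∏ p ∈ D, a p =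
            (-1 : ℝ) ^ (m + 1) * ∑ D ∈ P.powersetCard (m + 1), ∏ p ∈ D, a p -
            a q * ((-1 : ℝ) ^ m * ∑ D ∈ P.powersetCard m, ∏ p ∈ D, a p) := by
          intro m _
          rw [Bon_insert P a hq m, pow_succ]
          ring
        rw [sum_congr rfl h1, sum_sub_distrib, ← mul_sum]
        ring
      have h1 := ih' (n + 1)
      have h2 := ih' n
      rw [hS, hV, Bon_insert P a hq n]
      set V := ∏ p ∈ P, (1 - a p)
      set S1 := ∑ m ∈ range (n + 1), (-1 : ℝ) ^ m * ∑ D ∈ P.powersetCard m, ∏ p ∈ D, a p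
      set S0 := ∑ m ∈ range n, (-1 : ℝ) ^ m * ∑ D ∈ P.powersetCard m, ∏ p ∈ D, a p
      have e : (-1 : ℝ) ^ (n + 1) * ((1 - a q) * V - (S1 - a q * S0)) =
          (-1 : ℝ) ^ (n + 1) * (V - S1) + a q * ((-1 : ℝ) ^ n * (V - S0)) := by
        rw [pow_succ]
        ring
      rw [e]
      constructor
      · exact add_nonneg h1.1 (mul_nonneg haq.1 h2.1)
      · exact add_le_add h1.2 (mul_le_mul_of_nonneg_left h2.2 haq.1)

private theorem Bon_pow {s a : ℝ} (hs : 0 ≤ s) (ha : 0 ≤ a) (m : ℕ) :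
    s ^ (m + 1) + (m + 1) * a * s ^ m ≤ (s + a) ^ (m + 1) := by
  induction m with
  | zero => simp
  | succ m ih =>
    have h1 : (s + a) * (s ^ (m + 1) + (m + 1) * a * s ^ m) ≤ (s + a) * (s + a) ^ (m + 1) :=
      mul_le_mul_of_nonneg_left ih (by linarith)
    have h2 : (s + a) * (s ^ (m + 1) + (m + 1) * a * s ^ m) =
        s ^ (m + 1 + 1) + (((m + 1 : ℕ) : ℝ) + 1) * a * s ^ (m + 1) + (m + 1) * a ^ 2 * s ^ m := by
      push_cast
      ring
    have h3 : 0 ≤ ((m : ℝ) + 1) * a ^ 2 * s ^ m := by positivity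
    calc s ^ (m + 1 + 1) + (((m + 1 : ℕ) : ℝ) + 1) * a * s ^ (m + 1) ≤
        (s + a) * (s ^ (m + 1) + (m + 1) * a * s ^ m) := by rw [h2]; linarith
      _ ≤ (s + a) * (s + a) ^ (m + 1) := h1
      _ = (s + a) ^ (m + 1 + 1) := by ring

theorem bonf {α : Type*} [DecidableEq α] (P : Finset α) (a : α → ℝ) (ha : ∀ p ∈ P, 0 ≤ a p ∧ a p ≤ 1) (t : ℕ) :
    |∏ p ∈ P, (1 - a p) - ∑ D ∈ P.powerset.filter (fun D => D.card ≤ t), (-1 : ℝ) ^ D.card * ∏ p ∈ D, a p| ≤
      ∑ D ∈ P.powersetCard (t + 1), ∏ p ∈ D, a p := by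
  have h := Bon_aux P a ha (t + 1)
  have e : ∑ D ∈ P.powerset.filter (fun D => D.card ≤ t), (-1 : ℝ) ^ D.card * ∏ p ∈ D, a p =
      ∑ m ∈ range (t + 1), (-1 : ℝ) ^ m * ∑ D ∈ P.powersetCard m, ∏ p ∈ D, a p := by
    rw [← sum_fiberwise_of_maps_to (s := P.powerset.filter (fun D => D.card ≤ t))
      (t := range (t + 1)) (g := fun D => D.card)
      (fun D hD => mem_range.mpr (Nat.lt_succ_of_le (mem_filter.mp hD).2))]
    refine sum_congr rfl fun m hm => ?_
    rw [mem_range] at hm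
    have e2 : (P.powerset.filter (fun D => D.card ≤ t)).filter (fun D => D.card = m) =
        P.powersetCard m := by
      ext D
      simp only [mem_filter, mem_powerset, mem_powersetCard]
      constructor
      · rintro ⟨⟨h1, _⟩, h3⟩
        exact ⟨h1, h3⟩
      · rintro ⟨h1, h3⟩
        exact ⟨⟨h1, by omega⟩, h3⟩
    rw [e2, mul_sum]
    refine sum_congr rfl fun D hD => ?_
    rw [(mem_powersetCard.mp hD).2]
  rw [e]
  have h1 : |∏ p ∈ P, (1 - a p) - ∑ m ∈ range (t + 1), (-1 : ℝ) ^ m *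
      ∑ D ∈ P.powersetCard m, ∏ p ∈ D, a p| =
      |(-1 : ℝ) ^ (t + 1) * (∏ p ∈ P, (1 - a p) - ∑ m ∈ range (t + 1), (-1 : ℝ) ^ m *
      ∑ D ∈ P.powersetCard m, ∏ p ∈ D, a p)| := by
    rw [abs_mul, abs_pow, abs_neg, abs_one, one_pow, one_mul]
  rw [h1, abs_of_nonneg h.1]
  exact h.2

theorem esymm_le {α : Type*} [DecidableEq α] (P : Finset α) (a : α → ℝ) (ha : ∀ p ∈ P, 0 ≤ a p) (m : ℕ) :
    ∑ D ∈ P.powersetCard m, ∏ p ∈ D, a p ≤ (∑ p ∈ P, a p) ^ m / m.factorial := by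
  induction P using Finset.induction_on generalizing m with
  | empty =>
    rcases m with _ | m
    · simp
    · rw [powersetCard_eq_empty.mpr (by simp)]
      simp
  | insert q P hq ih =>
    rcases m with _ | m
    · simp
    · have haP : ∀ p ∈ P, 0 ≤ a p := fun p hp => ha p (mem_insert_of_mem hp)
      have haq := ha q (mem_insert_self q P)
      have h1 := ih haP (m + 1)
      have h2 := ih haP m
      rw [Bon_insert P a hq m, sum_insert hq]
      set s := ∑ p ∈ P, a p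
      have hs : 0 ≤ s := sum_nonneg haP
      have h3 := Bon_pow hs haq m
      have hf : (0 : ℝ) < m.factorial := by exact_mod_cast Nat.factorial_pos m
      have hf1 : ((m + 1).factorial : ℝ) = (m + 1) * m.factorial := by
        rw [Nat.factorial_succ]
        push_cast
        ring
      calc ∑ D ∈ P.powersetCard (m + 1), ∏ p ∈ D, a p + a q * ∑ D ∈ P.powersetCard m, ∏ p ∈ D, a p
          ≤ s ^ (m + 1) / (m + 1).factorial + a q * (s ^ m / m.factorial) :=
            add_le_add h1 (mul_le_mul_of_nonneg_left h2 haq)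
        _ = (s ^ (m + 1) + (m + 1) * a q * s ^ m) / (m + 1).factorial := by
            rw [hf1]
            field_simp
        _ ≤ (s + a q) ^ (m + 1) / (m + 1).factorial :=
            div_le_div_of_nonneg_right h3 (by positivity)
        _ = (a q + s) ^ (m + 1) / (m + 1).factorial := by rw [add_comm]

end Pool.Agent.H36.IS

end

section

/-!
# IS TrAbs: the abstract (finite) transfer theorem: Brun's pure sieve

J a set of components, P0 the small primes, P1 the large primes; for p ∈ P0 ∪ P1 the classes -h i mod p (i ∈ J) are distinct.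
For n ∈ N let 1_rough(n) = [no p ∈ P0 divides any n + h i, i ∈ J].  For D ⊆ P0 let 1_D(n) = [∀ p ∈ D ∃ i ∈ J, p ∣ n + h i]
= ∑_{φ : D → J} [∀ p ∈ D, p ∣ n + h (φ p)] (distinctness).

(1) Bonferroni (`bonf` from Bon.lean) with a_p(n) = [∃ i ∈ J, p ∣ n + h i] ∈ {0,1}: 1_rough(n) = ∏ (1 - a_p(n)), 1_D(n) = ∏_D a_p(n),
    |1_rough - ∑_{|D| ≤ t} (-1)^|D| 1_D| ≤ ∑_{|D| = t+1} 1_D;  the same lemma with a_p = |J| g p, and
    ∑_{|D| = t+1} ∏_D a_p ≤ (∑ a_p)^(t+1)/(t+1)!  (`esymm_le`).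
(2) Fix Q ⊆ J ×ˢ P1 with c Q ≠ 0.  If Prod.snd is not injective on Q, two components share a prime and ∏_Q yy = 0 for all n;
    such Q contribute at most X0 · |c Q| ∏ g (0 ≤ ∏(1 - |J| g) ≤ 1).
    If injective: Z = snd(Q) ∪ D, φ given by Q on snd(Q): hcount gives
    ∑_{n∈N} ∏_Q yy · 1_D = ∑_φ (X0 ∏_Z g + O(e Z)) = X0 |J|^|D| ∏_Q g ∏_D g + O(|J|^|D| e Z).
    So |∑_{n∈N} ∏_Q yy 1_rough - X0 ∏_Q g ∏_{P0}(1 - |J| g)| ≤ 2 X0 ∏_Q g · (|J|∑g)^(t+1)/(t+1)! + ∑_{|D| ≤ t+1} |J|^|D| e(Z).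
(3) ∑_Q |c Q| ∑_{|D|≤t+1} |J|^|D| e(snd Q ∪ D): for given Z the pairs (Q, D) have D = Z ∩ P0 and Q is a graph of a function
    Z ∩ P1 → J: at most |J|^|Z∩P1| of them, each with |c Q| ≤ K M^|Q|; total ≤ K (|J| (M+1))^|Z|;
    ∏_{p∈Z} p = ∏_Q · ∏_D ≤ D z^(t+1).
-/

set_option autoImplicit false

namespace Pool.Agent.H36.IS

open Finset

section TrAbs

variable {ι : Type} [Fintype ι] [DecidableEq ι]

private theorem TrAbs_prod_yy (h : ι → ℕ) (n : ℕ) (Q : Finset (ι × ℕ)) [Decidable (∀ a ∈ Q, a.2 ∣ n + h a.1)] :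
    ∏ a ∈ Q, yy h n a = if ∀ a ∈ Q, a.2 ∣ n + h a.1 then 1 else 0 := by
  unfold yy
  rw [Finset.prod_ite_zero]
  simp

private theorem TrAbs_prod_yy_nonneg (h : ι → ℕ) (n : ℕ) (Q : Finset (ι × ℕ)) :
    0 ≤ ∏ a ∈ Q, yy h n a :=
  Finset.prod_nonneg fun a _ => by unfold yy; split_ifs <;> norm_num

open Classical in
private theorem TrAbs_hq (J : Finset ι) (h : ι → ℕ) (N P : Finset ℕ) (g : ℕ → ℝ) (X0 : ℝ)
    (e : Finset ℕ → ℝ)
    (hcount : ∀ Z ⊆ P, ∀ φ : ℕ → ι, (∀ p ∈ Z, φ p ∈ J) →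
      |((N.filter (fun n => ∀ p ∈ Z, p ∣ n + h (φ p))).card : ℝ) - X0 * ∏ p ∈ Z, g p| ≤ e Z)
    (hcount0 : |(N.card : ℝ) - X0| ≤ e ∅)
    (Q : Finset (ι × ℕ)) (hQ : Q ⊆ J ×ˢ P) (hinj : Set.InjOn Prod.snd (Q : Set (ι × ℕ))) :
    |∑ n ∈ N, ∏ a ∈ Q, yy h n a - X0 * ∏ a ∈ Q, g a.2| ≤ e (Q.image Prod.snd) := by
  rcases Q.eq_empty_or_nonempty with rfl | ⟨a₀, ha₀⟩
  · simpa using hcount0
  · obtain ⟨φ, hφ⟩ : ∃ φ : ℕ → ι, ∀ a ∈ Q, φ a.2 = a.1 := by
      refine ⟨fun p => if hp : ∃ i, (i, p) ∈ Q then hp.choose else a₀.1, fun a ha => ?_⟩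
      have h1 : ∃ i, (i, a.2) ∈ Q := ⟨a.1, ha⟩
      simp only
      rw [dif_pos h1]
      have h2 := hinj h1.choose_spec ha rfl
      exact congrArg Prod.fst h2
    have h3 := hcount (Q.image Prod.snd) (fun p hp => by
      obtain ⟨a, ha, rfl⟩ := Finset.mem_image.1 hp
      exact (Finset.mem_product.1 (hQ ha)).2) φ (fun p hp => by
      obtain ⟨a, ha, rfl⟩ := Finset.mem_image.1 hp
      rw [hφ a ha]
      exact (Finset.mem_product.1 (hQ ha)).1)
    rw [Finset.prod_image (fun a ha b hb hab => hinj ha hb hab)] at h3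
    have h4 : ∑ n ∈ N, ∏ a ∈ Q, yy h n a =
        ((N.filter (fun n => ∀ p ∈ Q.image Prod.snd, p ∣ n + h (φ p))).card : ℝ) := by
      rw [Finset.card_filter]
      push_cast
      refine Finset.sum_congr rfl fun n _ => ?_
      rw [TrAbs_prod_yy]
      have h5 : (∀ a ∈ Q, a.2 ∣ n + h a.1) ↔ ∀ p ∈ Q.image Prod.snd, p ∣ n + h (φ p) := by
        constructor
        · intro h6 p hp
          obtain ⟨a, ha, rfl⟩ := Finset.mem_image.1 hp
          rw [hφ a ha]
          exact h6 a ha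
        · intro h6 a ha
          have := h6 a.2 (Finset.mem_image_of_mem _ ha)
          rwa [hφ a ha] at this
      by_cases h7 : ∀ a ∈ Q, a.2 ∣ n + h a.1
      · rw [if_pos h7, if_pos (h5.1 h7)]
      · rw [if_neg h7, if_neg (fun h8 => h7 (h5.2 h8))]
    rw [h4]
    exact h3

open Classical in
/-- The indicator that `p` divides one of the numbers `n + h i`, `i ∈ J`. -/
private noncomputable def TrAbs_A (J : Finset ι) (h : ι → ℕ) (n p : ℕ) : ℝ :=
  if ∃ i ∈ J, p ∣ n + h i then 1 else 0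

private theorem TrAbs_A_mem (J : Finset ι) (h : ι → ℕ) (n p : ℕ) :
    0 ≤ TrAbs_A J h n p ∧ TrAbs_A J h n p ≤ 1 := by
  unfold TrAbs_A
  split_ifs <;> norm_num

private theorem TrAbs_A_eq (J : Finset ι) (h : ι → ℕ) {p : ℕ}
    (hd : ∀ i ∈ J, ∀ j ∈ J, i ≠ j → ¬ h i ≡ h j [MOD p]) (n : ℕ) :
    TrAbs_A J h n p = ∑ i ∈ J, yy h n (i, p) := by
  unfold TrAbs_A yy
  split_ifs with h1
  · obtain ⟨i, hi, hp⟩ := h1
    rw [Finset.sum_eq_single_of_mem i hi]
    · simp [hp]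
    · intro j hj hji
      rw [if_neg]
      intro hp'
      refine hd j hj i hi hji ?_
      have h2 : n + h j ≡ n + h i [MOD p] :=
        (Nat.modEq_zero_iff_dvd.2 hp').trans (Nat.modEq_zero_iff_dvd.2 hp).symm
      exact Nat.ModEq.add_left_cancel' n h2
  · symm
    refine Finset.sum_eq_zero fun i hi => ?_
    rw [if_neg]
    exact fun hp => h1 ⟨i, hi, hp⟩

open Classical in
private theorem TrAbs_count (J : Finset ι) (h : ι → ℕ) (N P : Finset ℕ) (g : ℕ → ℝ) (X0 : ℝ)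
    (e : Finset ℕ → ℝ)
    (hdist : ∀ p ∈ P, ∀ i ∈ J, ∀ j ∈ J, i ≠ j → ¬ h i ≡ h j [MOD p])
    (hcount : ∀ Z ⊆ P, ∀ φ : ℕ → ι, (∀ p ∈ Z, φ p ∈ J) →
      |((N.filter (fun n => ∀ p ∈ Z, p ∣ n + h (φ p))).card : ℝ) - X0 * ∏ p ∈ Z, g p| ≤ e Z)
    (hcount0 : |(N.card : ℝ) - X0| ≤ e ∅) (D : Finset ℕ) :
    D ⊆ P → ∀ Q : Finset (ι × ℕ), Q ⊆ J ×ˢ P → Set.InjOn Prod.snd (Q : Set (ι × ℕ)) →
      Disjoint (Q.image Prod.snd) D →
      |∑ n ∈ N, (∏ a ∈ Q, yy h n a) * ∏ p ∈ D, TrAbs_A J h n p -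
          X0 * (∏ a ∈ Q, g a.2) * ∏ p ∈ D, ((J.card : ℝ) * g p)| ≤
        (J.card : ℝ) ^ D.card * e (Q.image Prod.snd ∪ D) := by
  induction D using Finset.induction_on with
  | empty =>
    intro _ Q hQ hinj _
    simpa using TrAbs_hq J h N P g X0 e hcount hcount0 Q hQ hinj
  | insert q D hq ih =>
    intro hD Q hQ hinj hdis
    have hqP : q ∈ P := hD (Finset.mem_insert_self _ _)
    have hDP : D ⊆ P := fun x hx => hD (Finset.mem_insert_of_mem hx)
    have hqQ : ∀ a ∈ Q, a.2 ≠ q := by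
      intro a ha h1
      exact Finset.disjoint_left.1 hdis (Finset.mem_image_of_mem _ ha)
        (h1 ▸ Finset.mem_insert_self _ _)
    have hnot : ∀ i, (i, q) ∉ Q := fun i hi => hqQ _ hi rfl
    have key : ∀ i ∈ J, |∑ n ∈ N, (∏ a ∈ insert (i, q) Q, yy h n a) * ∏ p ∈ D, TrAbs_A J h n p -
          X0 * (∏ a ∈ insert (i, q) Q, g a.2) * ∏ p ∈ D, ((J.card : ℝ) * g p)| ≤
        (J.card : ℝ) ^ D.card * e (Q.image Prod.snd ∪ insert q D) := by
      intro i hi
      have h1 := ih hDP (insert (i, q) Q) ?_ ?_ ?_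
      · have h2 : (insert (i, q) Q).image Prod.snd ∪ D = Q.image Prod.snd ∪ insert q D := by
          ext x
          simp only [Finset.image_insert, Finset.mem_union, Finset.mem_insert]
          tauto
        rwa [h2] at h1
      · intro a ha
        rcases Finset.mem_insert.1 ha with rfl | ha
        · exact Finset.mem_product.2 ⟨hi, hqP⟩
        · exact hQ ha
      · intro a ha b hb hab
        rw [Finset.mem_coe, Finset.mem_insert] at ha hb
        rcases ha with rfl | ha <;> rcases hb with rfl | hb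
        · rfl
        · exact absurd hab.symm (hqQ b hb)
        · exact absurd hab (hqQ a ha)
        · exact hinj ha hb hab
      · rw [Finset.image_insert, Finset.disjoint_insert_left]
        exact ⟨hq, hdis.mono_right (Finset.subset_insert _ _)⟩
    have e1 : ∑ n ∈ N, (∏ a ∈ Q, yy h n a) * ∏ p ∈ insert q D, TrAbs_A J h n p =
        ∑ i ∈ J, ∑ n ∈ N, (∏ a ∈ insert (i, q) Q, yy h n a) * ∏ p ∈ D, TrAbs_A J h n p := by
      rw [Finset.sum_comm]
      refine Finset.sum_congr rfl fun n _ => ?_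
      rw [Finset.prod_insert hq, TrAbs_A_eq J h (hdist q hqP) n, Finset.sum_mul, Finset.mul_sum]
      refine Finset.sum_congr rfl fun i _ => ?_
      rw [Finset.prod_insert (hnot i)]
      ring
    have e2 : X0 * (∏ a ∈ Q, g a.2) * ∏ p ∈ insert q D, ((J.card : ℝ) * g p) =
        ∑ i ∈ J, X0 * (∏ a ∈ insert (i, q) Q, g a.2) * ∏ p ∈ D, ((J.card : ℝ) * g p) := by
      have : ∀ i ∈ J, X0 * (∏ a ∈ insert (i, q) Q, g a.2) * ∏ p ∈ D, ((J.card : ℝ) * g p) =
          g q * (X0 * (∏ a ∈ Q, g a.2) * ∏ p ∈ D, ((J.card : ℝ) * g p)) := by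
        intro i _
        rw [Finset.prod_insert (hnot i)]
        ring
      rw [Finset.sum_congr rfl this, Finset.sum_const, nsmul_eq_mul, Finset.prod_insert hq]
      ring
    rw [e1, e2, ← Finset.sum_sub_distrib]
    refine (Finset.abs_sum_le_sum_abs _ _).trans ?_
    refine (Finset.sum_le_sum key).trans (le_of_eq ?_)
    rw [Finset.sum_const, nsmul_eq_mul, Finset.card_insert_of_notMem hq]
    ring

/-- The number of graphs over `Y`. -/
private theorem TrAbs_card_graph (J : Finset ι) (P Y : Finset ℕ)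
    (s : Finset (Finset (ι × ℕ))) (hs : ∀ Q ∈ s, Q ⊆ J ×ˢ P ∧
      Set.InjOn Prod.snd (Q : Set (ι × ℕ)) ∧ Q.image Prod.snd = Y) :
    s.card ≤ J.card ^ Y.card := by
  classical
  have h1 : s ⊆ (Y.pi (fun _ => J)).image
      (fun ψ => Y.attach.image (fun p => (ψ p.1 p.2, p.1))) := by
    intro Q hQ
    obtain ⟨h2, h3, h4⟩ := hs Q hQ
    have h5 : ∀ p ∈ Y, ∃ i, (i, p) ∈ Q := by
      intro p hp
      rw [← h4] at hp
      obtain ⟨a, ha, rfl⟩ := Finset.mem_image.1 hp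
      exact ⟨a.1, ha⟩
    refine Finset.mem_image.2 ⟨fun p hp => (h5 p hp).choose, ?_, ?_⟩
    · rw [Finset.mem_pi]
      intro p hp
      exact (Finset.mem_product.1 (h2 (h5 p hp).choose_spec)).1
    · ext a
      rw [Finset.mem_image]
      constructor
      · rintro ⟨p, -, rfl⟩
        exact (h5 p.1 p.2).choose_spec
      · intro ha
        have h6 : a.2 ∈ Y := by rw [← h4]; exact Finset.mem_image_of_mem _ ha
        refine ⟨⟨a.2, h6⟩, Finset.mem_attach _ _, ?_⟩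
        exact h3 (h5 a.2 h6).choose_spec ha rfl
  refine (Finset.card_le_card h1).trans (Finset.card_image_le.trans (le_of_eq ?_))
  rw [Finset.card_pi]
  simp

open Classical in
/-- The estimate for one injective `Q`. -/
private theorem TrAbs_one (J : Finset ι) (h : ι → ℕ) (N P0 P1 : Finset ℕ) (hd : Disjoint P0 P1)
    (g : ℕ → ℝ) (hg : ∀ p ∈ P0 ∪ P1, 0 ≤ g p ∧ (J.card : ℝ) * g p ≤ 1) (X0 : ℝ) (hX : 0 ≤ X0)
    (e : Finset ℕ → ℝ)
    (hdist : ∀ p ∈ P0 ∪ P1, ∀ i ∈ J, ∀ j ∈ J, i ≠ j → ¬ h i ≡ h j [MOD p])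
    (hcount : ∀ Z ⊆ P0 ∪ P1, ∀ φ : ℕ → ι, (∀ p ∈ Z, φ p ∈ J) →
      |((N.filter (fun n => ∀ p ∈ Z, p ∣ n + h (φ p))).card : ℝ) - X0 * ∏ p ∈ Z, g p| ≤ e Z)
    (hcount0 : |(N.card : ℝ) - X0| ≤ e ∅) (t : ℕ)
    (Q : Finset (ι × ℕ)) (hQ : Q ⊆ J ×ˢ P1) (hinj : Set.InjOn Prod.snd (Q : Set (ι × ℕ))) :
    |∑ n ∈ N, (∏ a ∈ Q, yy h n a) * ∏ p ∈ P0, (1 - TrAbs_A J h n p) -
        X0 * (∏ a ∈ Q, g a.2) * ∏ p ∈ P0, (1 - (J.card : ℝ) * g p)| ≤
      X0 * (∏ a ∈ Q, g a.2) * (2 * ((J.card : ℝ) * ∑ p ∈ P0, g p) ^ (t + 1) / (t + 1).factorial) +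
        ∑ D ∈ P0.powerset.filter (fun D : Finset ℕ => D.card ≤ t + 1),
          (J.card : ℝ) ^ D.card * e (Q.image Prod.snd ∪ D) := by
  have hQP : Q ⊆ J ×ˢ (P0 ∪ P1) := hQ.trans (Finset.product_subset_product_right
    Finset.subset_union_right)
  have hdisj : ∀ D ⊆ P0, Disjoint (Q.image Prod.snd) D := by
    intro D hD
    refine Finset.disjoint_left.2 fun x hx hx' => ?_
    obtain ⟨a, ha, rfl⟩ := Finset.mem_image.1 hx
    exact Finset.disjoint_left.1 hd (hD hx') (Finset.mem_product.1 (hQ ha)).2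
  obtain ⟨G, hG⟩ : ∃ G, G = ∏ a ∈ Q, g a.2 := ⟨_, rfl⟩
  have hG0 : 0 ≤ G := by
    rw [hG]
    exact Finset.prod_nonneg fun a ha =>
      (hg a.2 (Finset.mem_union_right _ (Finset.mem_product.1 (hQ ha)).2)).1
  obtain ⟨S, hS⟩ : ∃ S : Finset ℕ → ℝ, S = fun D =>
    ∑ n ∈ N, (∏ a ∈ Q, yy h n a) * ∏ p ∈ D, TrAbs_A J h n p := ⟨_, rfl⟩
  obtain ⟨m, hm⟩ : ∃ m : Finset ℕ → ℝ, m = fun D => ∏ p ∈ D, ((J.card : ℝ) * g p) := ⟨_, rfl⟩
  have hm0 : ∀ D ⊆ P0, 0 ≤ m D := by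
    intro D hD
    rw [hm]
    exact Finset.prod_nonneg fun p hp => mul_nonneg (Nat.cast_nonneg _)
      (hg p (Finset.mem_union_left _ (hD hp))).1
  have hcnt : ∀ D ⊆ P0, |S D - X0 * G * m D| ≤
      (J.card : ℝ) ^ D.card * e (Q.image Prod.snd ∪ D) := by
    intro D hD
    rw [hS, hG, hm]
    exact TrAbs_count J h N (P0 ∪ P1) g X0 e hdist hcount hcount0 D
      (hD.trans Finset.subset_union_left) Q hQP hinj (hdisj D hD)
  -- Bonferroni for the indicators
  have hb1 : |∑ n ∈ N, (∏ a ∈ Q, yy h n a) * ∏ p ∈ P0, (1 - TrAbs_A J h n p) -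
      ∑ D ∈ P0.powerset.filter (fun D => D.card ≤ t), (-1 : ℝ) ^ D.card * S D| ≤
      ∑ D ∈ P0.powersetCard (t + 1), S D := by
    have e1 : ∑ D ∈ P0.powerset.filter (fun D => D.card ≤ t), (-1 : ℝ) ^ D.card * S D =
        ∑ n ∈ N, (∏ a ∈ Q, yy h n a) * ∑ D ∈ P0.powerset.filter (fun D => D.card ≤ t),
          (-1 : ℝ) ^ D.card * ∏ p ∈ D, TrAbs_A J h n p := by
      rw [hS]
      simp only [Finset.mul_sum]
      rw [Finset.sum_comm]
      refine Finset.sum_congr rfl fun n _ => Finset.sum_congr rfl fun D _ => ?_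
      ring
    have e2 : ∑ D ∈ P0.powersetCard (t + 1), S D =
        ∑ n ∈ N, (∏ a ∈ Q, yy h n a) * ∑ D ∈ P0.powersetCard (t + 1),
          ∏ p ∈ D, TrAbs_A J h n p := by
      rw [hS]
      simp only [Finset.mul_sum]
      rw [Finset.sum_comm]
    rw [e1, e2, ← Finset.sum_sub_distrib]
    refine (Finset.abs_sum_le_sum_abs _ _).trans (Finset.sum_le_sum fun n _ => ?_)
    rw [← mul_sub, abs_mul, abs_of_nonneg (TrAbs_prod_yy_nonneg h n Q)]
    exact mul_le_mul_of_nonneg_left (bonf P0 (TrAbs_A J h n) (fun p _ => TrAbs_A_mem J h n p) t)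
      (TrAbs_prod_yy_nonneg h n Q)
  have hb2 := bonf P0 (fun p => (J.card : ℝ) * g p) (fun p hp =>
    ⟨mul_nonneg (Nat.cast_nonneg _) (hg p (Finset.mem_union_left _ hp)).1,
      (hg p (Finset.mem_union_left _ hp)).2⟩) t
  have hb3 := esymm_le P0 (fun p => (J.card : ℝ) * g p) (fun p hp =>
    mul_nonneg (Nat.cast_nonneg _) (hg p (Finset.mem_union_left _ hp)).1) (t + 1)
  rw [← Finset.mul_sum] at hb3
  obtain ⟨V, hV⟩ : ∃ V, V = ∏ p ∈ P0, (1 - (J.card : ℝ) * g p) := ⟨_, rfl⟩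
  obtain ⟨E, hE⟩ : ∃ E, E = ∑ D ∈ P0.powersetCard (t + 1), m D := ⟨_, rfl⟩
  obtain ⟨W, hW⟩ : ∃ W, W = ((J.card : ℝ) * ∑ p ∈ P0, g p) ^ (t + 1) / (t + 1).factorial :=
    ⟨_, rfl⟩
  have hEW : E ≤ W := by rw [hE, hm, hW]; exact hb3
  obtain ⟨B, hB⟩ : ∃ B, B = ∑ D ∈ P0.powerset.filter (fun D => D.card ≤ t),
    (-1 : ℝ) ^ D.card * m D := ⟨_, rfl⟩
  have hVB : |V - B| ≤ E := by rw [hV, hB, hE, hm]; exact hb2
  obtain ⟨B', hB'⟩ : ∃ B', B' = ∑ D ∈ P0.powerset.filter (fun D => D.card ≤ t),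
    (-1 : ℝ) ^ D.card * S D := ⟨_, rfl⟩
  obtain ⟨R, hR⟩ : ∃ R : Finset ℕ → ℝ, R = fun D =>
    (J.card : ℝ) ^ D.card * e (Q.image Prod.snd ∪ D) := ⟨_, rfl⟩
  have hBB : |B' - X0 * G * B| ≤ ∑ D ∈ P0.powerset.filter (fun D => D.card ≤ t), R D := by
    rw [hB', hB, Finset.mul_sum, ← Finset.sum_sub_distrib]
    refine (Finset.abs_sum_le_sum_abs _ _).trans (Finset.sum_le_sum fun D hD => ?_)
    rw [Finset.mem_filter, Finset.mem_powerset] at hD
    have h1 : (-1 : ℝ) ^ D.card * S D - X0 * G * ((-1 : ℝ) ^ D.card * m D) =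
        (-1 : ℝ) ^ D.card * (S D - X0 * G * m D) := by ring
    rw [h1, abs_mul, abs_pow, abs_neg, abs_one, one_pow, one_mul, hR]
    exact hcnt D hD.1
  have hSE : ∑ D ∈ P0.powersetCard (t + 1), S D ≤ X0 * G * E +
      ∑ D ∈ P0.powersetCard (t + 1), R D := by
    rw [hE, Finset.mul_sum, ← Finset.sum_add_distrib]
    refine Finset.sum_le_sum fun D hD => ?_
    rw [Finset.mem_powersetCard] at hD
    have h1 := (abs_le.1 (hcnt D hD.1)).2
    rw [hR]
    simp only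
    linarith
  have hsplit : ∑ D ∈ P0.powerset.filter (fun D : Finset ℕ => D.card ≤ t + 1), R D =
      ∑ D ∈ P0.powerset.filter (fun D => D.card ≤ t), R D +
        ∑ D ∈ P0.powersetCard (t + 1), R D := by
    rw [← Finset.sum_union]
    · congr 1
      ext D
      simp only [Finset.mem_filter, Finset.mem_powerset, Finset.mem_union,
        Finset.mem_powersetCard]
      constructor
      · rintro ⟨h1, h2⟩
        rcases Nat.lt_or_ge D.card (t + 1) with h3 | h3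
        · exact Or.inl ⟨h1, by omega⟩
        · exact Or.inr ⟨h1, by omega⟩
      · rintro (⟨h1, h2⟩ | ⟨h1, h2⟩)
        · exact ⟨h1, by omega⟩
        · exact ⟨h1, by omega⟩
    · refine Finset.disjoint_left.2 fun D h1 h2 => ?_
      rw [Finset.mem_filter] at h1
      rw [Finset.mem_powersetCard] at h2
      omega
  rw [← hG, ← hV, mul_div_assoc, ← hW]
  have hR' : ∑ D ∈ P0.powerset.filter (fun D : Finset ℕ => D.card ≤ t + 1),
      (J.card : ℝ) ^ D.card * e (Q.image Prod.snd ∪ D) =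
      ∑ D ∈ P0.powerset.filter (fun D : Finset ℕ => D.card ≤ t + 1), R D := by rw [hR]
  rw [hR', hsplit]
  rw [← hB'] at hb1
  have hXG : 0 ≤ X0 * G := mul_nonneg hX hG0
  have h2 : |X0 * G * B - X0 * G * V| ≤ X0 * G * E := by
    rw [← mul_sub, abs_mul, abs_of_nonneg hXG, abs_sub_comm]
    exact mul_le_mul_of_nonneg_left hVB hXG
  obtain ⟨T, hT⟩ : ∃ T, T = ∑ n ∈ N, (∏ a ∈ Q, yy h n a) * ∏ p ∈ P0, (1 - TrAbs_A J h n p) :=
    ⟨_, rfl⟩
  rw [← hT] at hb1 ⊢
  have h3 : T - X0 * G * V = (T - B') + (B' - X0 * G * B) + (X0 * G * B - X0 * G * V) := by ring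
  have h4 : |T - X0 * G * V| ≤ |T - B'| + |B' - X0 * G * B| + |X0 * G * B - X0 * G * V| := by
    rw [h3]
    exact abs_add_three _ _ _
  have h5 : X0 * G * E ≤ X0 * G * W := mul_le_mul_of_nonneg_left hEW hXG
  linarith

open Classical in
/-- The sum of the counting errors. -/
private theorem TrAbs_three (J : Finset ι) (P0 P1 : Finset ℕ) (hd : Disjoint P0 P1)
    (e : Finset ℕ → ℝ) (he0 : ∀ Z, 0 ≤ e Z)
    (t : ℕ) (K M D z : ℝ) (hK : 0 ≤ K) (hM : 0 ≤ M) (hD : 0 ≤ D) (hz1 : 1 ≤ z)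
    (hz : ∀ p ∈ P0, (p : ℝ) ≤ z) (c : Finset (ι × ℕ) → ℝ)
    (hc : ∀ Q, |c Q| ≤ K * M ^ Q.card ∧ (c Q ≠ 0 → Q ⊆ J ×ˢ P1 ∧ ∏ e ∈ Q, (e.2 : ℝ) ≤ D)) :
    ∑ Q ∈ (J ×ˢ P1).powerset.filter
        (fun Q : Finset (ι × ℕ) => Set.InjOn Prod.snd (Q : Set (ι × ℕ))),
      |c Q| * ∑ D' ∈ P0.powerset.filter (fun D' : Finset ℕ => D'.card ≤ t + 1),
          (J.card : ℝ) ^ D'.card * e (Q.image Prod.snd ∪ D') ≤
      K * ∑ Z ∈ (P0 ∪ P1).powerset.filter (fun Z : Finset ℕ => ∏ p ∈ Z, (p : ℝ) ≤ D * z ^ (t + 1)),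
          ((J.card : ℝ) * (M + 1)) ^ Z.card * e Z := by
  obtain ⟨k, hk⟩ : ∃ k : ℝ, k = J.card := ⟨_, rfl⟩
  have hk0 : 0 ≤ k := by rw [hk]; exact Nat.cast_nonneg _
  rw [← hk]
  obtain ⟨s', hs'⟩ : ∃ s', s' = P0.powerset.filter (fun D' : Finset ℕ => D'.card ≤ t + 1) :=
    ⟨_, rfl⟩
  rw [← hs']
  obtain ⟨s, hs⟩ : ∃ s, s = P1.powerset.filter (fun Y : Finset ℕ => ∏ p ∈ Y, (p : ℝ) ≤ D) :=
    ⟨_, rfl⟩
  obtain ⟨F, hF⟩ : ∃ F : Finset ℕ → ℝ, F = fun Y : Finset ℕ => if ∏ p ∈ Y, (p : ℝ) ≤ D then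
    K * M ^ Y.card * ∑ D' ∈ s', k ^ D'.card * e (Y ∪ D') else 0 := ⟨_, rfl⟩
  have hsum0 : ∀ Y, 0 ≤ ∑ D' ∈ s', k ^ D'.card * e (Y ∪ D') := fun Y =>
    Finset.sum_nonneg fun D' _ => mul_nonneg (pow_nonneg hk0 _) (he0 _)
  have hF0 : ∀ Y, 0 ≤ F Y := by
    intro Y
    rw [hF]
    simp only
    split_ifs
    · exact mul_nonneg (mul_nonneg hK (pow_nonneg hM _)) (hsum0 Y)
    · exact le_rfl
  obtain ⟨q, hq⟩ : ∃ q, q = (J ×ˢ P1).powerset.filter
        (fun Q : Finset (ι × ℕ) => Set.InjOn Prod.snd (Q : Set (ι × ℕ))) := ⟨_, rfl⟩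
  rw [← hq]
  have step1 : ∀ Q ∈ q, |c Q| * ∑ D' ∈ s', k ^ D'.card * e (Q.image Prod.snd ∪ D') ≤
      F (Q.image Prod.snd) := by
    intro Q hQ
    rw [hq, Finset.mem_filter, Finset.mem_powerset] at hQ
    obtain ⟨h1, h2⟩ := hc Q
    by_cases h0 : c Q = 0
    · rw [h0, abs_zero, zero_mul]
      exact hF0 _
    · obtain ⟨h3, h4⟩ := h2 h0
      have h5 : ∏ p ∈ Q.image Prod.snd, (p : ℝ) ≤ D := by
        rw [Finset.prod_image fun a ha b hb hab => hQ.2 ha hb hab]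
        exact h4
      rw [hF]
      simp only
      rw [if_pos h5, Finset.card_image_of_injOn hQ.2]
      exact mul_le_mul_of_nonneg_right h1 (hsum0 _)
  have step2 : ∑ Q ∈ q, F (Q.image Prod.snd) ≤ ∑ Y ∈ P1.powerset, k ^ Y.card * F Y := by
    have hmaps : ∀ Q ∈ q, Q.image Prod.snd ∈ P1.powerset := by
      intro Q hQ
      rw [hq, Finset.mem_filter, Finset.mem_powerset] at hQ
      rw [Finset.mem_powerset]
      intro x hx
      obtain ⟨a, ha, rfl⟩ := Finset.mem_image.1 hx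
      exact (Finset.mem_product.1 (hQ.1 ha)).2
    rw [← Finset.sum_fiberwise_of_maps_to hmaps]
    refine Finset.sum_le_sum fun Y _ => ?_
    have h1 : ∑ Q ∈ q.filter (fun Q => Q.image Prod.snd = Y), F (Q.image Prod.snd) =
        ((q.filter (fun Q => Q.image Prod.snd = Y)).card : ℝ) * F Y := by
      rw [← nsmul_eq_mul, ← Finset.sum_const]
      refine Finset.sum_congr rfl fun Q hQ => ?_
      rw [(Finset.mem_filter.1 hQ).2]
    rw [h1]
    refine mul_le_mul_of_nonneg_right ?_ (hF0 Y)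
    have h2 := TrAbs_card_graph J P1 Y (q.filter (fun Q => Q.image Prod.snd = Y)) (by
      intro Q hQ
      rw [Finset.mem_filter, hq, Finset.mem_filter, Finset.mem_powerset] at hQ
      exact ⟨hQ.1.1, hQ.1.2, hQ.2⟩)
    rw [hk]
    exact_mod_cast h2
  obtain ⟨H, hH⟩ : ∃ H : Finset ℕ → ℝ, H = fun Z : Finset ℕ => (k * (M + 1)) ^ Z.card * e Z := ⟨_, rfl⟩
  have hH0 : ∀ Z, 0 ≤ H Z := by
    intro Z
    rw [hH]
    exact mul_nonneg (pow_nonneg (by positivity) _) (he0 _)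
  have hsub : ∀ Y ∈ s, ∀ D' ∈ s', Y ⊆ P1 ∧ D' ⊆ P0 ∧ Disjoint Y D' := by
    intro Y hY D' hD'
    rw [hs, Finset.mem_filter, Finset.mem_powerset] at hY
    rw [hs', Finset.mem_filter, Finset.mem_powerset] at hD'
    exact ⟨hY.1, hD'.1, (hd.mono hD'.1 hY.1).symm⟩
  have step3 : ∑ Y ∈ P1.powerset, k ^ Y.card * F Y ≤
      K * ∑ x ∈ s ×ˢ s', H (x.1 ∪ x.2) := by
    have h1 : ∑ Y ∈ P1.powerset, k ^ Y.card * F Y =
        ∑ Y ∈ s, k ^ Y.card * (K * M ^ Y.card * ∑ D' ∈ s', k ^ D'.card * e (Y ∪ D')) := by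
      rw [hs, Finset.sum_filter]
      refine Finset.sum_congr rfl fun Y _ => ?_
      rw [hF]
      simp only
      split_ifs
      · rfl
      · rw [mul_zero]
    rw [h1, Finset.sum_product, Finset.mul_sum]
    refine Finset.sum_le_sum fun Y hY => ?_
    rw [Finset.mul_sum, Finset.mul_sum, Finset.mul_sum]
    refine Finset.sum_le_sum fun D' hD' => ?_
    obtain ⟨-, -, hdis⟩ := hsub Y hY D' hD'
    rw [hH]
    simp only
    rw [Finset.card_union_of_disjoint hdis]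
    have h2 : k ^ Y.card * (K * M ^ Y.card * (k ^ D'.card * e (Y ∪ D'))) =
        K * (k ^ (Y.card + D'.card) * M ^ Y.card * e (Y ∪ D')) := by
      rw [pow_add]; ring
    rw [h2, mul_pow]
    refine mul_le_mul_of_nonneg_left (mul_le_mul_of_nonneg_right
      (mul_le_mul_of_nonneg_left ?_ (pow_nonneg hk0 _)) (he0 _)) hK
    calc M ^ Y.card ≤ (M + 1) ^ Y.card := pow_le_pow_left₀ hM (by linarith) _
      _ ≤ (M + 1) ^ (Y.card + D'.card) := pow_le_pow_right₀ (by linarith) (by omega)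
  have step4 : ∑ x ∈ s ×ˢ s', H (x.1 ∪ x.2) ≤
      ∑ Z ∈ (P0 ∪ P1).powerset.filter (fun Z : Finset ℕ => ∏ p ∈ Z, (p : ℝ) ≤ D * z ^ (t + 1)),
        H Z := by
    have hinj : Set.InjOn (fun x : Finset ℕ × Finset ℕ => x.1 ∪ x.2)
        ((s ×ˢ s' : Finset (Finset ℕ × Finset ℕ)) : Set (Finset ℕ × Finset ℕ)) := by
      rintro ⟨Y, D'⟩ hx ⟨Y₁, D₁⟩ hx₁ hxy
      rw [Finset.mem_coe, Finset.mem_product] at hx hx₁
      obtain ⟨a1, a2, -⟩ := hsub _ hx.1 _ hx.2
      obtain ⟨b1, b2, -⟩ := hsub _ hx₁.1 _ hx₁.2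
      simp only at hxy a1 a2 b1 b2
      have h1 : ∀ x, x ∈ Y ∪ D' ↔ x ∈ Y₁ ∪ D₁ := fun x => by rw [hxy]
      have hnot : ∀ x, x ∈ P0 → x ∈ P1 → False := fun x h2 h3 => Finset.disjoint_left.1 hd h2 h3
      refine Prod.ext ?_ ?_
      · ext x
        have h2 := h1 x
        rw [Finset.mem_union, Finset.mem_union] at h2
        constructor
        · intro hx2
          rcases h2.1 (Or.inl hx2) with h3 | h3
          · exact h3
          · exact (hnot x (b2 h3) (a1 hx2)).elim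
        · intro hx2
          rcases h2.2 (Or.inl hx2) with h3 | h3
          · exact h3
          · exact (hnot x (a2 h3) (b1 hx2)).elim
      · ext x
        have h2 := h1 x
        rw [Finset.mem_union, Finset.mem_union] at h2
        constructor
        · intro hx2
          rcases h2.1 (Or.inr hx2) with h3 | h3
          · exact (hnot x (a2 hx2) (b1 h3)).elim
          · exact h3
        · intro hx2
          rcases h2.2 (Or.inr hx2) with h3 | h3
          · exact (hnot x (b2 hx2) (a1 h3)).elim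
          · exact h3
    rw [← Finset.sum_image (f := H) (g := fun x : Finset ℕ × Finset ℕ => x.1 ∪ x.2)
      (fun x hx y hy hxy => hinj hx hy hxy)]
    refine Finset.sum_le_sum_of_subset_of_nonneg ?_ fun Z _ _ => hH0 Z
    intro Z hZ
    obtain ⟨⟨Y, D'⟩, hx, rfl⟩ := Finset.mem_image.1 hZ
    rw [Finset.mem_product] at hx
    obtain ⟨a1, a2, a3⟩ := hsub _ hx.1 _ hx.2
    obtain ⟨hx1, hx2⟩ := hx
    rw [hs, Finset.mem_filter] at hx1
    rw [hs', Finset.mem_filter] at hx2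
    simp only at hx1 hx2 a1 a2 a3 ⊢
    rw [Finset.mem_filter, Finset.mem_powerset]
    refine ⟨Finset.union_subset (a1.trans Finset.subset_union_right)
      (a2.trans Finset.subset_union_left), ?_⟩
    rw [Finset.prod_union a3]
    have h1 : ∏ p ∈ D', (p : ℝ) ≤ z ^ (t + 1) := by
      calc ∏ p ∈ D', (p : ℝ) ≤ ∏ _p ∈ D', z :=
            Finset.prod_le_prod (fun p _ => Nat.cast_nonneg p) fun p hp => hz p (a2 hp)
        _ = z ^ D'.card := by rw [Finset.prod_const]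
        _ ≤ z ^ (t + 1) := pow_le_pow_right₀ hz1 hx2.2
    exact mul_le_mul hx1.2 h1 (Finset.prod_nonneg fun p _ => Nat.cast_nonneg p) hD
  calc _ ≤ ∑ Q ∈ q, F (Q.image Prod.snd) := Finset.sum_le_sum step1
    _ ≤ _ := step2
    _ ≤ _ := step3
    _ ≤ _ := mul_le_mul_of_nonneg_left step4 hK
    _ = _ := by rw [hH]

end TrAbs

open Classical in
theorem trAbs {ι : Type} [Fintype ι] [DecidableEq ι] (J : Finset ι) (h : ι → ℕ) (N P0 P1 : Finset ℕ)
    (hP0 : ∀ p ∈ P0, p.Prime) (hP1 : ∀ p ∈ P1, p.Prime) (hd : Disjoint P0 P1)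
    (hdist : ∀ p ∈ P0 ∪ P1, ∀ i ∈ J, ∀ j ∈ J, i ≠ j → ¬ h i ≡ h j [MOD p])
    (g : ℕ → ℝ) (hg : ∀ p ∈ P0 ∪ P1, 0 ≤ g p ∧ (J.card : ℝ) * g p ≤ 1) (X0 : ℝ) (hX : 0 ≤ X0)
    (e : Finset ℕ → ℝ) (he0 : ∀ Z, 0 ≤ e Z)
    (hcount : ∀ Z ⊆ P0 ∪ P1, ∀ φ : ℕ → ι, (∀ p ∈ Z, φ p ∈ J) →
      |((N.filter (fun n => ∀ p ∈ Z, p ∣ n + h (φ p))).card : ℝ) - X0 * ∏ p ∈ Z, g p| ≤ e Z)
    (hcount0 : |(N.card : ℝ) - X0| ≤ e ∅)
    (t : ℕ) (K M D z : ℝ) (hK : 0 ≤ K) (hM : 0 ≤ M) (hD : 0 ≤ D) (hz1 : 1 ≤ z) (hz : ∀ p ∈ P0, (p : ℝ) ≤ z)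
    (c : Finset (ι × ℕ) → ℝ)
    (hc : ∀ Q, |c Q| ≤ K * M ^ Q.card ∧ (c Q ≠ 0 → Q ⊆ J ×ˢ P1 ∧ ∏ e ∈ Q, (e.2 : ℝ) ≤ D)) :
    |∑ n ∈ N.filter (fun n => ∀ i ∈ J, ∀ p ∈ P0, ¬ p ∣ n + h i), Ev (J ×ˢ P1) c (yy h n) -
        X0 * (∏ p ∈ P0, (1 - (J.card : ℝ) * g p)) * Ev (J ×ˢ P1) c (fun e => g e.2)| ≤
      X0 * (∑ Q ∈ (J ×ˢ P1).powerset, |c Q| * ∏ e ∈ Q, g e.2) *
          (2 * ((J.card : ℝ) * ∑ p ∈ P0, g p) ^ (t + 1) / (t + 1).factorial) +
        X0 * ∑ Q ∈ (J ×ˢ P1).powerset.filter (fun Q : Finset (ι × ℕ) => ¬ Set.InjOn Prod.snd (Q : Set (ι × ℕ))),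
          |c Q| * ∏ e ∈ Q, g e.2 +
        K * ∑ Z ∈ (P0 ∪ P1).powerset.filter (fun Z : Finset ℕ => ∏ p ∈ Z, (p : ℝ) ≤ D * z ^ (t + 1)),
          ((J.card : ℝ) * (M + 1)) ^ Z.card * e Z := by
  obtain ⟨V, hV⟩ : ∃ V, V = ∏ p ∈ P0, (1 - (J.card : ℝ) * g p) := ⟨_, rfl⟩
  obtain ⟨T, hT⟩ : ∃ T : Finset (ι × ℕ) → ℝ, T = fun Q =>
    ∑ n ∈ N, (∏ a ∈ Q, yy h n a) * ∏ p ∈ P0, (1 - TrAbs_A J h n p) := ⟨_, rfl⟩
  obtain ⟨G, hG⟩ : ∃ G : Finset (ι × ℕ) → ℝ, G = fun Q => ∏ a ∈ Q, g a.2 := ⟨_, rfl⟩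
  have hG0 : ∀ Q ∈ (J ×ˢ P1).powerset, 0 ≤ G Q := by
    intro Q hQ
    rw [Finset.mem_powerset] at hQ
    rw [hG]
    exact Finset.prod_nonneg fun a ha =>
      (hg a.2 (Finset.mem_union_right _ (Finset.mem_product.1 (hQ ha)).2)).1
  have hV0 : 0 ≤ V ∧ V ≤ 1 := by
    rw [hV]
    constructor
    · exact Finset.prod_nonneg fun p hp => sub_nonneg.2 (hg p (Finset.mem_union_left _ hp)).2
    · refine Finset.prod_le_one (fun p hp => sub_nonneg.2
        (hg p (Finset.mem_union_left _ hp)).2) fun p hp => ?_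
      have := mul_nonneg (Nat.cast_nonneg (α := ℝ) J.card) (hg p (Finset.mem_union_left _ hp)).1
      linarith
  have hrough : ∀ n, ∏ p ∈ P0, (1 - TrAbs_A J h n p) =
      if ∀ i ∈ J, ∀ p ∈ P0, ¬ p ∣ n + h i then 1 else 0 := by
    intro n
    by_cases h1 : ∀ i ∈ J, ∀ p ∈ P0, ¬ p ∣ n + h i
    · rw [if_pos h1]
      refine Finset.prod_eq_one fun p hp => ?_
      unfold TrAbs_A
      rw [if_neg, sub_zero]
      rintro ⟨i, hi, hp'⟩
      exact h1 i hi p hp hp'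
    · rw [if_neg h1]
      push Not at h1
      obtain ⟨i, hi, p, hp, hp'⟩ := h1
      refine Finset.prod_eq_zero hp ?_
      unfold TrAbs_A
      rw [if_pos ⟨i, hi, hp'⟩, sub_self]
  have e1 : ∑ n ∈ N.filter (fun n => ∀ i ∈ J, ∀ p ∈ P0, ¬ p ∣ n + h i),
      Ev (J ×ˢ P1) c (yy h n) = ∑ Q ∈ (J ×ˢ P1).powerset, c Q * T Q := by
    rw [Finset.sum_filter, hT]
    simp only [Finset.mul_sum]
    rw [Finset.sum_comm]
    refine Finset.sum_congr rfl fun n _ => ?_
    unfold Ev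
    by_cases h1 : ∀ i ∈ J, ∀ p ∈ P0, ¬ p ∣ n + h i
    · rw [if_pos h1]
      refine Finset.sum_congr rfl fun Q _ => ?_
      rw [hrough n, if_pos h1, mul_one]
    · rw [if_neg h1]
      symm
      refine Finset.sum_eq_zero fun Q _ => ?_
      rw [hrough n, if_neg h1, mul_zero, mul_zero]
  have e2 : X0 * V * Ev (J ×ˢ P1) c (fun e => g e.2) =
      ∑ Q ∈ (J ×ˢ P1).powerset, c Q * (X0 * G Q * V) := by
    unfold Ev
    rw [Finset.mul_sum, hG]
    refine Finset.sum_congr rfl fun Q _ => ?_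
    ring
  rw [← hV, e1, e2, ← Finset.sum_sub_distrib]
  refine (Finset.abs_sum_le_sum_abs _ _).trans ?_
  rw [← Finset.sum_filter_add_sum_filter_not (J ×ˢ P1).powerset
    (fun Q : Finset (ι × ℕ) => Set.InjOn Prod.snd (Q : Set (ι × ℕ)))]
  obtain ⟨W, hW⟩ : ∃ W, W = 2 * ((J.card : ℝ) * ∑ p ∈ P0, g p) ^ (t + 1) / (t + 1).factorial :=
    ⟨_, rfl⟩
  have hW0 : 0 ≤ W := by
    rw [hW]
    have : 0 ≤ ∑ p ∈ P0, g p := Finset.sum_nonneg fun p hp => (hg p (Finset.mem_union_left _ hp)).1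
    positivity
  have hbad : ∑ Q ∈ (J ×ˢ P1).powerset.filter
      (fun Q : Finset (ι × ℕ) => ¬ Set.InjOn Prod.snd (Q : Set (ι × ℕ))),
        |c Q * T Q - c Q * (X0 * G Q * V)| ≤
      X0 * ∑ Q ∈ (J ×ˢ P1).powerset.filter
        (fun Q : Finset (ι × ℕ) => ¬ Set.InjOn Prod.snd (Q : Set (ι × ℕ))), |c Q| * G Q := by
    rw [Finset.mul_sum]
    refine Finset.sum_le_sum fun Q hQ => ?_
    rw [Finset.mem_filter] at hQ
    obtain ⟨hQ1, hQ2⟩ := hQ
    have hT0 : T Q = 0 := by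
      rw [hT]
      refine Finset.sum_eq_zero fun n _ => ?_
      rw [mul_eq_zero]
      left
      unfold Set.InjOn at hQ2
      push Not at hQ2
      obtain ⟨a, ha, b, hb, hab, hne⟩ := hQ2
      rw [Finset.mem_powerset] at hQ1
      have hne1 : a.1 ≠ b.1 := fun h1 => hne (Prod.ext h1 hab)
      have haP := Finset.mem_product.1 (hQ1 ha)
      have hbP := Finset.mem_product.1 (hQ1 hb)
      by_contra h0
      rw [TrAbs_prod_yy] at h0
      split_ifs at h0 with h1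
      · have h2 := h1 a ha
        have h3 := h1 b hb
        rw [← hab] at h3
        refine hdist a.2 (Finset.mem_union_right _ haP.2) a.1 haP.1 b.1 hbP.1 hne1 ?_
        have h4 : n + h a.1 ≡ n + h b.1 [MOD a.2] :=
          (Nat.modEq_zero_iff_dvd.2 h2).trans (Nat.modEq_zero_iff_dvd.2 h3).symm
        exact Nat.ModEq.add_left_cancel' n h4
      · exact h0 rfl
    rw [hT0, mul_zero, zero_sub, abs_neg, abs_mul]
    have h1 : |X0 * G Q * V| ≤ X0 * G Q := by
      rw [abs_of_nonneg (mul_nonneg (mul_nonneg hX (hG0 Q hQ1)) hV0.1)]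
      exact mul_le_of_le_one_right (mul_nonneg hX (hG0 Q hQ1)) hV0.2
    calc |c Q| * |X0 * G Q * V| ≤ |c Q| * (X0 * G Q) :=
          mul_le_mul_of_nonneg_left h1 (abs_nonneg _)
      _ = _ := by ring
  have hgood : ∑ Q ∈ (J ×ˢ P1).powerset.filter
      (fun Q : Finset (ι × ℕ) => Set.InjOn Prod.snd (Q : Set (ι × ℕ))),
        |c Q * T Q - c Q * (X0 * G Q * V)| ≤
      X0 * (∑ Q ∈ (J ×ˢ P1).powerset, |c Q| * G Q) * W +
      K * ∑ Z ∈ (P0 ∪ P1).powerset.filter (fun Z : Finset ℕ => ∏ p ∈ Z, (p : ℝ) ≤ D * z ^ (t + 1)),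
          ((J.card : ℝ) * (M + 1)) ^ Z.card * e Z := by
    have h3 := TrAbs_three J P0 P1 hd e he0 t K M D z hK hM hD hz1 hz c hc
    have h4 : ∑ Q ∈ (J ×ˢ P1).powerset.filter
        (fun Q : Finset (ι × ℕ) => Set.InjOn Prod.snd (Q : Set (ι × ℕ))),
          X0 * (|c Q| * G Q) * W ≤ X0 * (∑ Q ∈ (J ×ˢ P1).powerset, |c Q| * G Q) * W := by
      rw [Finset.mul_sum, Finset.sum_mul]
      refine Finset.sum_le_sum_of_subset_of_nonneg (Finset.filter_subset _ _) fun Q hQ _ => ?_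
      exact mul_nonneg (mul_nonneg hX (mul_nonneg (abs_nonneg _) (hG0 Q hQ))) hW0
    refine le_trans ?_ (add_le_add h4 h3)
    rw [← Finset.sum_add_distrib]
    refine Finset.sum_le_sum fun Q hQ => ?_
    rw [Finset.mem_filter, Finset.mem_powerset] at hQ
    have h5 := TrAbs_one J h N P0 P1 hd g hg X0 hX e hdist hcount hcount0 t Q hQ.1 hQ.2
    rw [← mul_sub, abs_mul]
    have h6 : |T Q - X0 * G Q * V| ≤ X0 * G Q * W +
        ∑ D ∈ P0.powerset.filter (fun D : Finset ℕ => D.card ≤ t + 1),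
          (J.card : ℝ) ^ D.card * e (Q.image Prod.snd ∪ D) := by
      rw [hT, hG, hV, hW]
      exact h5
    calc |c Q| * |T Q - X0 * G Q * V| ≤ |c Q| * (X0 * G Q * W +
        ∑ D ∈ P0.powerset.filter (fun D : Finset ℕ => D.card ≤ t + 1),
          (J.card : ℝ) ^ D.card * e (Q.image Prod.snd ∪ D)) :=
          mul_le_mul_of_nonneg_left h6 (abs_nonneg _)
      _ = _ := by ring
  rw [← hW]
  have hfin := add_le_add hgood hbad
  rw [hG] at hfin
  simp only at hfin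
  rw [hG]
  simp only
  linarith

end Pool.Agent.H36.IS

end

section

/-!
# IS AsyA: sums over sets of primes

* `sum_pow_le`: ∑_{Z ⊆ P, ∏ ≤ Y} C^|Z| ≤ Y ∑_Z C^|Z|/∏Z ≤ Y ∏_{p∈P} (1 + C/p)   (`Finset.prod_one_add`-type identity).
* `l1_le`: ∑_{Q ⊆ EX} M^|Q| ∏ fn(e.2) = ∏_{e∈EX} (1 + M fn e.2) ≤ (∏_{p≤x} (1 + M fn p))^|ι| ≤ (log x)^B (`euler_pow`).
* `incons_le`: if Prod.snd is not injective on Q there are p ∈ PX and i ≠ j with (i,p), (j,p) ∈ Q; so the sum is at most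
  ∑_{p∈PX} ∑_{i≠j} M² fn(p)² ∑_{Q'} M^|Q'| ∏ fn ≤ k² M² (log x)^B ∑_{p > z0} fn(p)² ≤ 8 k² M² (log x)^B/z0 ≤ (log x)^{-A},
  since z0 = exp(log x/(loglog x)²).
-/

set_option autoImplicit false

namespace Pool.Agent.H36.IS

open Finset Filter

private theorem AsyA_fn_nonneg {p : ℕ} (hp : p.Prime) : 0 ≤ fn p := by
  unfold fn
  have : (1 : ℝ) ≤ p := by exact_mod_cast hp.one_lt.le
  exact div_nonneg zero_le_one (by linarith)

private theorem AsyA_mem_PX {x p : ℕ} (hp : p ∈ PX x) : p.Prime ∧ z0 x < (p : ℝ) ∧ p ≤ x := by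
  unfold PX at hp
  rw [mem_filter, mem_range] at hp
  exact ⟨hp.2.1, hp.2.2, by omega⟩

private theorem AsyA_PX_sub (x : ℕ) : PX x ⊆ (range (x + 1)).filter Nat.Prime := by
  intro p hp
  have h := AsyA_mem_PX hp
  rw [mem_filter, mem_range]
  exact ⟨by omega, h.1⟩

private theorem AsyA_wt {α : Type*} (M : ℝ) (f : α → ℝ) (Q : Finset α) :
    M ^ Q.card * ∏ e ∈ Q, f e = ∏ e ∈ Q, (M * f e) := by
  rw [prod_mul_distrib, prod_const]

theorem sum_pow_le (P : Finset ℕ) (hP : ∀ p ∈ P, p.Prime) (C Y : ℝ) (hC : 0 ≤ C) (hY : 0 ≤ Y) :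
    ∑ Z ∈ P.powerset.filter (fun Z : Finset ℕ => ∏ p ∈ Z, (p : ℝ) ≤ Y), C ^ Z.card ≤ Y * ∏ p ∈ P, (1 + C / p) := by
  have h1 : ∀ Z ∈ P.powerset.filter (fun Z : Finset ℕ => ∏ p ∈ Z, (p : ℝ) ≤ Y),
      C ^ Z.card ≤ Y * ∏ p ∈ Z, (C / p) := by
    intro Z hZ
    rw [mem_filter, mem_powerset] at hZ
    have hpos : 0 < ∏ p ∈ Z, (p : ℝ) := prod_pos fun p hp => by
      exact_mod_cast (hP p (hZ.1 hp)).pos
    have h2 : ∏ p ∈ Z, (C / (p : ℝ)) = C ^ Z.card / ∏ p ∈ Z, (p : ℝ) := by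
      rw [prod_div_distrib, prod_const]
    rw [h2, mul_div_assoc', le_div_iff₀ hpos]
    have h3 : 0 ≤ C ^ Z.card := pow_nonneg hC _
    nlinarith [hZ.2]
  refine (sum_le_sum h1).trans ?_
  rw [← mul_sum, prod_one_add]
  refine mul_le_mul_of_nonneg_left ?_ hY
  refine sum_le_sum_of_subset_of_nonneg (filter_subset _ _) fun Z _ _ => ?_
  exact prod_nonneg fun p _ => div_nonneg hC (Nat.cast_nonneg _)

theorem l1_le (ι : Type) [Fintype ι] [DecidableEq ι] (M : ℝ) (hM : 0 ≤ M) : ∃ B : ℕ, ∀ᶠ x : ℕ in atTop,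
    ∑ Q ∈ (EX ι x).powerset, M ^ Q.card * ∏ e ∈ Q, fn e.2 ≤ Real.log x ^ B := by
  obtain ⟨B, hB⟩ := euler_pow M hM
  refine ⟨B * Fintype.card ι, ?_⟩
  filter_upwards [hB] with x hx
  have h1 : ∑ Q ∈ (EX ι x).powerset, M ^ Q.card * ∏ e ∈ Q, fn e.2 =
      ∏ e ∈ EX ι x, (1 + M * fn e.2) := by
    rw [prod_one_add]
    exact sum_congr rfl fun Q _ => AsyA_wt M (fun e : ι × ℕ => fn e.2) Q
  have h2 : ∏ e ∈ EX ι x, (1 + M * fn e.2) = (∏ p ∈ PX x, (1 + M * fn p)) ^ Fintype.card ι := by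
    unfold EX
    rw [prod_product]
    dsimp only
    rw [prod_const, card_univ]
  have h3 : ∀ p ∈ (range (x + 1)).filter Nat.Prime, 1 ≤ 1 + M * fn p := by
    intro p hp
    have := mul_nonneg hM (AsyA_fn_nonneg (mem_filter.1 hp).2)
    linarith
  have h4 : ∏ p ∈ PX x, (1 + M * fn p) ≤
      ∏ p ∈ (range (x + 1)).filter Nat.Prime, (1 + M * fn p) :=
    prod_le_prod_of_subset_of_one_le (AsyA_PX_sub x)
      (fun p hp => zero_le_one.trans (h3 p (AsyA_PX_sub x hp))) fun p hp _ => h3 p hp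
  have h5 : 0 ≤ ∏ p ∈ PX x, (1 + M * fn p) :=
    prod_nonneg fun p hp => zero_le_one.trans (h3 p (AsyA_PX_sub x hp))
  rw [h1, h2, pow_mul]
  exact pow_le_pow_left₀ h5 (h4.trans hx) _

private theorem AsyA_z0_large (K : ℝ) (m : ℕ) : ∀ᶠ x : ℕ in atTop,
    K * Real.log x ^ m ≤ z0 x := by
  have hL : Tendsto (fun x : ℕ => Real.log (x : ℝ)) atTop atTop :=
    Real.tendsto_log_atTop.comp tendsto_natCast_atTop_atTop
  set k0 : ℝ := Real.log (|K| + 1) with hk0
  have hk0' : 0 ≤ k0 := Real.log_nonneg (by linarith [abs_nonneg K])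
  have hpos : 0 < k0 + m + 1 := by positivity
  have h1 : ∀ᶠ L : ℝ in atTop, (k0 + m) * Real.log L ^ 3 ≤ L := by
    have h2 := (Real.isLittleO_pow_log_id_atTop (n := 3)).bound (inv_pos.2 hpos)
    filter_upwards [h2, eventually_ge_atTop (1 : ℝ)] with L h3 hL1
    have hlog : 0 ≤ Real.log L := Real.log_nonneg hL1
    simp only [id] at h3
    rw [Real.norm_of_nonneg (pow_nonneg hlog 3), Real.norm_of_nonneg (by linarith),
      ← div_eq_inv_mul, le_div_iff₀ hpos] at h3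
    have h4 : 0 ≤ Real.log L ^ 3 := pow_nonneg hlog 3
    nlinarith
  have h2 : ∀ᶠ L : ℝ in atTop, K * L ^ m ≤ Real.exp (L / Real.log L ^ 2) := by
    filter_upwards [h1, eventually_ge_atTop (Real.exp 1)] with L h3 hL1
    have hL0 : 0 < L := (Real.exp_pos 1).trans_le hL1
    have hlog : 1 ≤ Real.log L := (Real.le_log_iff_exp_le hL0).2 hL1
    have h4 : K ≤ Real.exp k0 := by
      rw [hk0, Real.exp_log (by positivity)]
      linarith [le_abs_self K]
    have h5 : L ^ m = Real.exp (m * Real.log L) := by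
      rw [Real.exp_nat_mul, Real.exp_log hL0]
    have h6 : k0 + m * Real.log L ≤ L / Real.log L ^ 2 := by
      rw [le_div_iff₀ (by positivity)]
      have h7 : (k0 + m * Real.log L) * Real.log L ^ 2 ≤ (k0 + m) * Real.log L ^ 3 := by
        have h8 : 0 ≤ k0 * Real.log L ^ 2 * (Real.log L - 1) :=
          mul_nonneg (mul_nonneg hk0' (by positivity)) (by linarith)
        nlinarith
      exact h7.trans h3
    calc K * L ^ m ≤ Real.exp k0 * Real.exp (m * Real.log L) := by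
          rw [h5]
          exact mul_le_mul_of_nonneg_right h4 (Real.exp_pos _).le
      _ = Real.exp (k0 + m * Real.log L) := (Real.exp_add _ _).symm
      _ ≤ _ := Real.exp_le_exp.2 h6
  exact hL.eventually h2

private theorem AsyA_pair {α : Type*} [DecidableEq α] (S : Finset α) (w : α → ℝ)
    (hw : ∀ e ∈ S, 0 ≤ w e) {e e' : α} (hne : e ≠ e') (he : e ∈ S) (he' : e' ∈ S) :
    ∑ Q ∈ S.powerset.filter (fun Q => e ∈ Q ∧ e' ∈ Q), ∏ x ∈ Q, w x ≤
      w e * w e' * ∑ Q ∈ S.powerset, ∏ x ∈ Q, w x := by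
  have hsub : ∀ Q ∈ S.powerset.filter (fun Q => e ∈ Q ∧ e' ∈ Q), ({e, e'} : Finset α) ⊆ Q := by
    intro Q hQ
    rw [mem_filter] at hQ
    intro x hx
    rw [mem_insert, mem_singleton] at hx
    rcases hx with rfl | rfl
    · exact hQ.2.1
    · exact hQ.2.2
  have h1 : ∀ Q ∈ S.powerset.filter (fun Q => e ∈ Q ∧ e' ∈ Q),
      ∏ x ∈ Q, w x = w e * w e' * ∏ x ∈ Q \ {e, e'}, w x := by
    intro Q hQ
    rw [← prod_sdiff (hsub Q hQ), prod_pair hne]
    ring
  rw [sum_congr rfl h1, ← mul_sum]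
  refine mul_le_mul_of_nonneg_left ?_ (mul_nonneg (hw e he) (hw e' he'))
  have h2 : Set.InjOn (fun Q : Finset α => Q \ {e, e'})
      (S.powerset.filter (fun Q => e ∈ Q ∧ e' ∈ Q) : Set (Finset α)) := by
    intro Q hQ Q' hQ' h
    have h3 : Q \ {e, e'} = Q' \ {e, e'} := h
    rw [← sdiff_union_of_subset (hsub Q (mem_coe.1 hQ)),
      ← sdiff_union_of_subset (hsub Q' (mem_coe.1 hQ')), h3]
  have h4 : ∑ Q ∈ S.powerset.filter (fun Q => e ∈ Q ∧ e' ∈ Q), ∏ x ∈ Q \ {e, e'}, w x =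
      ∑ R ∈ (S.powerset.filter (fun Q => e ∈ Q ∧ e' ∈ Q)).image
        (fun Q : Finset α => Q \ {e, e'}), ∏ x ∈ R, w x :=
    (sum_image (f := fun R : Finset α => ∏ x ∈ R, w x) h2).symm
  rw [h4]
  refine sum_le_sum_of_subset_of_nonneg ?_ fun Q hQ _ =>
    prod_nonneg fun x hx => hw x (mem_powerset.1 hQ hx)
  intro R hR
  obtain ⟨Q, hQ, rfl⟩ := mem_image.1 hR
  rw [mem_powerset]
  exact sdiff_subset.trans (mem_powerset.1 (mem_filter.1 hQ).1)

open Classical in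
theorem incons_le (ι : Type) [Fintype ι] [DecidableEq ι] (M : ℝ) (hM : 0 ≤ M) (A : ℕ) : ∀ᶠ x : ℕ in atTop,
    ∑ Q ∈ (EX ι x).powerset.filter (fun Q : Finset (ι × ℕ) => ¬ Set.InjOn Prod.snd (Q : Set (ι × ℕ))),
      M ^ Q.card * ∏ e ∈ Q, fn e.2 ≤ 1 / Real.log x ^ A := by
  obtain ⟨B, hB⟩ := l1_le ι M hM
  obtain ⟨C, hC⟩ := sum_fn_le
  have hL : Tendsto (fun x : ℕ => Real.log (x : ℝ)) atTop atTop :=
    Real.tendsto_log_atTop.comp tendsto_natCast_atTop_atTop
  have hLL : ∀ᶠ x : ℕ in atTop, Real.log (Real.log x) + C ≤ 2 * Real.log x := by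
    filter_upwards [hL.eventually_ge_atTop (max 1 C)] with x hx
    have h1 : 1 ≤ Real.log (x : ℝ) := (le_max_left _ _).trans hx
    have h2 : C ≤ Real.log (x : ℝ) := (le_max_right _ _).trans hx
    have h3 := Real.log_le_sub_one_of_pos (show 0 < Real.log (x : ℝ) by linarith)
    linarith
  have hZ := AsyA_z0_large
    (4 * (Fintype.card (ι × ι) : ℝ) * M ^ 2) (B + 1 + A)
  filter_upwards [hB, hC, hLL, hZ, hL.eventually_ge_atTop 1, eventually_ge_atTop 1] with x hBx hCx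
    hLLx hZx hlog1 hx1
  have hlog0 : 0 < Real.log (x : ℝ) := by linarith
  have hz0 : 0 < z0 x := by
    unfold z0
    exact Real.exp_pos _
  set w : ι × ℕ → ℝ := fun e => M * fn e.2 with hw
  have hw0 : ∀ e ∈ EX ι x, 0 ≤ w e := by
    intro e he
    unfold EX at he
    rw [mem_product] at he
    exact mul_nonneg hM (AsyA_fn_nonneg (AsyA_mem_PX he.2).1)
  have hwt : ∀ Q : Finset (ι × ℕ), M ^ Q.card * ∏ e ∈ Q, fn e.2 = ∏ e ∈ Q, w e := fun Q =>
    AsyA_wt M (fun e : ι × ℕ => fn e.2) Q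
  simp only [hwt] at hBx ⊢
  set Sg := ∑ Q ∈ (EX ι x).powerset, ∏ e ∈ Q, w e with hSg
  have hprod0 : ∀ Q ∈ (EX ι x).powerset, 0 ≤ ∏ e ∈ Q, w e := fun Q hQ =>
    prod_nonneg fun e he => hw0 e (mem_powerset.1 hQ he)
  have hSg0 : 0 ≤ Sg := sum_nonneg hprod0
  set T : Finset ((ι × ι) × ℕ) := (univ : Finset (ι × ι)) ×ˢ PX x with hT
  -- pointwise bound
  have h1 : ∀ Q ∈ (EX ι x).powerset.filter
      (fun Q : Finset (ι × ℕ) => ¬ Set.InjOn Prod.snd (Q : Set (ι × ℕ))),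
      ∏ e ∈ Q, w e ≤ ∑ t ∈ T, if t.1.1 ≠ t.1.2 ∧ (t.1.1, t.2) ∈ Q ∧ (t.1.2, t.2) ∈ Q then
        ∏ e ∈ Q, w e else 0 := by
    intro Q hQ
    rw [mem_filter] at hQ
    obtain ⟨hQ1, hQ2⟩ := hQ
    have h2 := hprod0 Q hQ1
    unfold Set.InjOn at hQ2
    push Not at hQ2
    obtain ⟨e, he, e', he', hee, hne⟩ := hQ2
    have heX := mem_powerset.1 hQ1 (mem_coe.1 he)
    unfold EX at heX
    rw [mem_product] at heX
    have ht : ((e.1, e'.1), e.2) ∈ T := by
      rw [hT, mem_product]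
      exact ⟨mem_univ _, heX.2⟩
    have h3 := single_le_sum (f := fun t : (ι × ι) × ℕ =>
      if t.1.1 ≠ t.1.2 ∧ (t.1.1, t.2) ∈ Q ∧ (t.1.2, t.2) ∈ Q then ∏ e ∈ Q, w e else 0)
      (fun t _ => by
        split_ifs
        · exact h2
        · exact le_rfl) ht
    refine le_trans (le_of_eq ?_) h3
    rw [if_pos]
    refine ⟨?_, mem_coe.1 he, ?_⟩
    · intro h
      exact hne (Prod.ext h hee)
    · rw [hee]
      exact mem_coe.1 he'
  have h2 : ∑ Q ∈ (EX ι x).powerset.filter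
      (fun Q : Finset (ι × ℕ) => ¬ Set.InjOn Prod.snd (Q : Set (ι × ℕ))), ∏ e ∈ Q, w e ≤
      ∑ t ∈ T, ∑ Q ∈ (EX ι x).powerset, if t.1.1 ≠ t.1.2 ∧ (t.1.1, t.2) ∈ Q ∧ (t.1.2, t.2) ∈ Q then
        ∏ e ∈ Q, w e else 0 := by
    refine (sum_le_sum h1).trans ?_
    rw [sum_comm]
    refine sum_le_sum fun t _ => ?_
    refine sum_le_sum_of_subset_of_nonneg (filter_subset _ _) fun Q hQ _ => ?_
    split_ifs
    · exact hprod0 Q hQ
    · exact le_rfl
  have h3 : ∀ t ∈ T, ∑ Q ∈ (EX ι x).powerset,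
      (if t.1.1 ≠ t.1.2 ∧ (t.1.1, t.2) ∈ Q ∧ (t.1.2, t.2) ∈ Q then ∏ e ∈ Q, w e else 0) ≤
      M ^ 2 * Sg * (fn t.2 * (2 / z0 x)) := by
    intro t ht
    rw [hT, mem_product] at ht
    obtain ⟨hp, hpz, hpx⟩ := AsyA_mem_PX ht.2
    have hf0 := AsyA_fn_nonneg hp
    have hf1 : fn t.2 ≤ 2 / z0 x := by
      have hp2 : (2 : ℝ) ≤ t.2 := by exact_mod_cast hp.two_le
      unfold fn
      rw [div_le_div_iff₀ (by linarith) hz0]
      linarith
    have hbd : 0 ≤ M ^ 2 * Sg * (fn t.2 * (2 / z0 x)) := by positivity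
    by_cases hne : t.1.1 = t.1.2
    · have : ∀ Q ∈ (EX ι x).powerset,
          (if t.1.1 ≠ t.1.2 ∧ (t.1.1, t.2) ∈ Q ∧ (t.1.2, t.2) ∈ Q then ∏ e ∈ Q, w e else 0) = 0 :=
        fun Q _ => if_neg fun h => h.1 hne
      rw [sum_congr rfl this, sum_const_zero]
      exact hbd
    · have he : (t.1.1, t.2) ∈ EX ι x := by
        unfold EX
        rw [mem_product]
        exact ⟨mem_univ _, ht.2⟩
      have he' : (t.1.2, t.2) ∈ EX ι x := by
        unfold EX
        rw [mem_product]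
        exact ⟨mem_univ _, ht.2⟩
      have hne' : ((t.1.1, t.2) : ι × ℕ) ≠ (t.1.2, t.2) := fun h => hne (congrArg Prod.fst h)
      have h4 := AsyA_pair (EX ι x) w hw0 hne' he he'
      rw [sum_filter] at h4
      have h5 : ∀ Q ∈ (EX ι x).powerset,
          (if t.1.1 ≠ t.1.2 ∧ (t.1.1, t.2) ∈ Q ∧ (t.1.2, t.2) ∈ Q then ∏ e ∈ Q, w e else 0) =
          if (t.1.1, t.2) ∈ Q ∧ (t.1.2, t.2) ∈ Q then ∏ e ∈ Q, w e else 0 := by
        intro Q _
        by_cases h6 : (t.1.1, t.2) ∈ Q ∧ (t.1.2, t.2) ∈ Q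
        · rw [if_pos h6, if_pos ⟨hne, h6⟩]
        · rw [if_neg h6, if_neg fun h => h6 h.2]
      rw [sum_congr rfl h5]
      refine h4.trans ?_
      have h6 : w (t.1.1, t.2) * w (t.1.2, t.2) * Sg = M ^ 2 * Sg * (fn t.2 * fn t.2) := by
        simp only [hw]
        ring
      rw [h6]
      exact mul_le_mul_of_nonneg_left (mul_le_mul_of_nonneg_left hf1 hf0) (by positivity)
  have h4 : ∑ t ∈ T, M ^ 2 * Sg * (fn t.2 * (2 / z0 x)) =
      (Fintype.card (ι × ι) : ℝ) * (M ^ 2 * Sg * (2 / z0 x)) * ∑ p ∈ PX x, fn p := by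
    rw [hT, sum_product]
    dsimp only
    have h7 : ∑ p ∈ PX x, M ^ 2 * Sg * (fn p * (2 / z0 x)) =
        M ^ 2 * Sg * (2 / z0 x) * ∑ p ∈ PX x, fn p := by
      rw [mul_sum (PX x) fn]
      refine sum_congr rfl fun p _ => ?_
      ring
    rw [sum_const, card_univ, nsmul_eq_mul, h7]
    ring
  have h5 : ∑ p ∈ PX x, fn p ≤ 2 * Real.log x := by
    refine le_trans ?_ (hCx.trans hLLx)
    exact sum_le_sum_of_subset_of_nonneg (AsyA_PX_sub x) fun p hp _ =>
      AsyA_fn_nonneg (mem_filter.1 hp).2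
  refine h2.trans ((sum_le_sum h3).trans ?_)
  rw [h4]
  have h6 : (Fintype.card (ι × ι) : ℝ) * (M ^ 2 * Sg * (2 / z0 x)) * ∑ p ∈ PX x, fn p ≤
      (Fintype.card (ι × ι) : ℝ) * (M ^ 2 * Real.log x ^ B * (2 / z0 x)) * (2 * Real.log x) := by
    have h7 : 0 ≤ ∑ p ∈ PX x, fn p := sum_nonneg fun p hp => AsyA_fn_nonneg (AsyA_mem_PX hp).1
    gcongr
  refine h6.trans ?_
  rw [le_div_iff₀ (pow_pos hlog0 A)]
  have h8 : (Fintype.card (ι × ι) : ℝ) * (M ^ 2 * Real.log x ^ B * (2 / z0 x)) *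
      (2 * Real.log x) * Real.log x ^ A =
      (4 * (Fintype.card (ι × ι) : ℝ) * M ^ 2 * Real.log x ^ (B + 1 + A)) / z0 x := by
    rw [pow_add, pow_add, pow_one]
    ring
  rw [h8, div_le_one hz0]
  exact hZx

end Pool.Agent.H36.IS

end

section

/-!
PK DiB: reorganising the sum over moduli (products of primes of a finite set P) by conductor.

For a nonnegative function F(r, χ) of (modulus, character) and D : ℕ
 ∑_{T ⊆ P, ∏T ≤ D} (1/φ(∏T)) ∑_{χ mod ∏T, χ ≠ 1} F(cond χ, χ*) ≤ G ∑_{1<r≤D, r | ∏P} (1/φ(r)) ∑_{χ ∈ Pch r} F(r, χ),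
 G = ∏_{p∈P} (1 + 1/(p-1)).
Proof.  d = ∏T is squarefree.  For fixed d the map χ ↦ (cond χ, χ*) is injective (χ = changeLevel χ*), its image
consists of pairs (r, χ') with r | d, r > 1 (as χ ≠ 1: `DirichletCharacter.eq_one_iff_conductor_eq_one`), χ' primitive.
So the inner sum is ≤ ∑_{r | d, r>1} ∑_{χ'∈Pch r} F(r,χ').  r | ∏T means r = ∏T' with T' ⊆ T (r squarefree, T' = primeFactors r);
1/φ(∏T) = (1/φ(r)) (1/φ(∏(T∖T'))), and ∑_{T ⊇ T'} 1/φ(∏(T∖T')) ≤ ∑_{T'' ⊆ P} ∏_{p∈T''} 1/(p-1) = G.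
-/

set_option autoImplicit false

namespace Pool.Agent.H91.PK

open Finset

theorem DiB_level (d : ℕ) (hd : d ≠ 0)
    (F : (r : ℕ) → DirichletCharacter ℂ r → ℝ) (hF : ∀ r χ, 0 ≤ F r χ) :
    ∑ χ ∈ Nch d, F χ.conductor χ.primitiveCharacter ≤
      ∑ r ∈ d.divisors.filter (fun r => 1 < r), ∑ χ ∈ Pch r, F r χ := by
  classical
  have : NeZero d := ⟨hd⟩
  obtain ⟨i, hi⟩ : ∃ i : DirichletCharacter ℂ d → (Σ r : ℕ, DirichletCharacter ℂ r),
      ∀ χ, i χ = ⟨χ.conductor, χ.primitiveCharacter⟩ := ⟨_, fun _ => rfl⟩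
  have haux : ∀ x y : (Σ r : ℕ, DirichletCharacter ℂ r), x = y → ∀ (hx : x.1 ∣ d) (hy : y.1 ∣ d),
      DirichletCharacter.changeLevel hx x.2 = DirichletCharacter.changeLevel hy y.2 := by
    rintro x _ rfl hx hy
    rfl
  have hinj : Set.InjOn i (Nch d : Finset (DirichletCharacter ℂ d)) := by
    intro χ _ ψ _ h
    rw [hi, hi] at h
    have := haux _ _ h χ.conductor_dvd_level ψ.conductor_dvd_level
    rw [DirichletCharacter.changeLevel_primitiveCharacter,
      DirichletCharacter.changeLevel_primitiveCharacter] at this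
    exact this
  have h1 : ∑ χ ∈ Nch d, F χ.conductor χ.primitiveCharacter =
      ∑ x ∈ (Nch d).image i, F x.1 x.2 := by
    rw [sum_image hinj]
    refine sum_congr rfl ?_
    intro χ _
    rw [hi]
  rw [h1, sum_sigma']
  refine sum_le_sum_of_subset_of_nonneg ?_ (fun x _ _ => hF x.1 x.2)
  intro x hx
  rw [mem_image] at hx
  obtain ⟨χ, hχ, rfl⟩ := hx
  rw [mem_Nch] at hχ
  rw [hi, mem_sigma, mem_filter, Nat.mem_divisors, mem_Pch]
  refine ⟨⟨⟨χ.conductor_dvd_level, hd⟩, ?_⟩, χ.primitiveCharacter_isPrimitive⟩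
  have h0 := χ.conductor_ne_zero
  have h1 : χ.conductor ≠ 1 := fun h => hχ (DirichletCharacter.eq_one_iff_conductor_eq_one.2 h)
  show 1 < χ.conductor
  omega

end Pool.Agent.H91.PK

end

section

/-!
# Passing to primitive characters and summing over the moduli

For `χ` mod `q` induced by the primitive `χ* = χ.primitiveCharacter` mod `χ.conductor`, `TT N 0 χ` and `TT N 0 χ*`
differ by at most `∑_{n ≤ N, (n,q)>1} Λ(n) ≤ log N · log₂ q` (`DiA_TT_sub`, `DiA_psi_noncoprime`; a bound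
`C (1+log N)(1+log Q)` is enough).
`∑_{q ∈ (Q,2Q], c | q} 1/φ(q) ≤ (1/φ(c)) ∑_{m ≤ 2Q/c} 1/φ(m) ≤ (1/φ(c)) (1+log(2Q))²` since
`φ(cm) ≥ φ(c)φ(m)`, `1/φ(m) ≤ τ(m)/m`.  For fixed `q` the characters `χ ≠ 1` mod `q` correspond injectively to pairs
(conductor `c | q`, `c > 1`, primitive character mod `c`) (`DiB_level` in `PK/DiB.lean`).
The correction terms: `∑_q (1/φ(q)) φ(q) C(1+log N)(1+log Q)`.
-/

set_option autoImplicit false

namespace Pool.Agent.H91.EHA

open Finset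
open Pool.Agent.H91.PK

/-- `1/φ(m) ≤ τ(m)/m` -/
theorem chB_inv_totient_le {m : ℕ} (hm : 1 ≤ m) :
    1 / (m.totient : ℝ) ≤ ∑ d ∈ m.divisors, 1 / (m : ℝ) := by
  have h1 : m ≤ m.divisors.card * m.totient := by
    calc m = ∑ d ∈ m.divisors, d.totient := (Nat.sum_totient m).symm
      _ ≤ ∑ d ∈ m.divisors, m.totient := by
          refine sum_le_sum fun d hd => ?_
          exact Nat.le_of_dvd (Nat.totient_pos.mpr hm)
            (Nat.totient_dvd_of_dvd (Nat.dvd_of_mem_divisors hd))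
      _ = m.divisors.card * m.totient := by rw [sum_const, smul_eq_mul]
  have h2 : (m : ℝ) ≤ (m.divisors.card : ℝ) * (m.totient : ℝ) := by exact_mod_cast h1
  have hφ : (0 : ℝ) < m.totient := by exact_mod_cast Nat.totient_pos.mpr hm
  have hm0 : (0 : ℝ) < m := by exact_mod_cast hm
  rw [sum_const, nsmul_eq_mul, mul_one_div, div_le_div_iff₀ hφ hm0, one_mul]
  exact h2

/-- sum over multiples -/
theorem chB_sum_multiples (M c : ℕ) (hc : 1 ≤ c) (f : ℕ → ℝ) (hf : ∀ m, 0 ≤ f m) :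
    ∑ q ∈ (Icc 1 M).filter (fun q => c ∣ q), f (q / c) ≤ ∑ m ∈ Icc 1 M, f m := by
  have hinj : Set.InjOn (fun q : ℕ => q / c)
      ((Icc 1 M).filter (fun q => c ∣ q) : Finset ℕ) := by
    intro a ha b hb hab
    have ha' := (mem_filter.mp (mem_coe.mp ha)).2
    have hb' := (mem_filter.mp (mem_coe.mp hb)).2
    have hab' : a / c = b / c := hab
    rw [← Nat.div_mul_cancel ha', ← Nat.div_mul_cancel hb', hab']
  rw [← sum_image (s := (Icc 1 M).filter (fun q => c ∣ q)) (g := fun q : ℕ => q / c)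
    (f := f) hinj]
  refine sum_le_sum_of_subset_of_nonneg ?_ (fun m _ _ => hf m)
  intro m hm
  rw [mem_image] at hm
  obtain ⟨q, hq, rfl⟩ := hm
  rw [mem_filter, mem_Icc] at hq
  rw [mem_Icc]
  refine ⟨Nat.div_pos (Nat.le_of_dvd (by omega) hq.2) hc, ?_⟩
  exact (Nat.div_le_self q c).trans hq.1.2

theorem chB_harm (M : ℕ) : ∑ d ∈ Icc 1 M, 1 / (d : ℝ) ≤ 1 + Real.log M := by
  have h := harmonic_le_one_add_log M
  rw [harmonic_eq_sum_Icc] at h
  push_cast at h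
  simpa only [one_div] using h

/-- `∑_{m ≤ M} 1/φ(m) ≤ (1+log M)²` -/
theorem chB_sum_inv_totient (M : ℕ) :
    ∑ m ∈ Icc 1 M, 1 / (m.totient : ℝ) ≤ (1 + Real.log M) ^ 2 := by
  have h0 : 0 ≤ ∑ d ∈ Icc 1 M, 1 / (d : ℝ) := sum_nonneg fun d _ => by positivity
  calc ∑ m ∈ Icc 1 M, 1 / (m.totient : ℝ)
      ≤ ∑ m ∈ Icc 1 M, ∑ d ∈ m.divisors, 1 / (m : ℝ) := by
        refine sum_le_sum fun m hm => chB_inv_totient_le (mem_Icc.mp hm).1
    _ ≤ ∑ m ∈ Icc 1 M, ∑ d ∈ (Icc 1 M).filter (fun d => d ∣ m),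
          (1 / (d : ℝ)) * (1 / ((m / d : ℕ) : ℝ)) := by
        refine sum_le_sum fun m hm => ?_
        have hm' := mem_Icc.mp hm
        have hset : m.divisors = (Icc 1 M).filter (fun d => d ∣ m) := by
          ext d
          rw [Nat.mem_divisors, mem_filter, mem_Icc]
          constructor
          · rintro ⟨h1, h2⟩
            exact ⟨⟨Nat.pos_of_dvd_of_pos h1 hm'.1, (Nat.le_of_dvd hm'.1 h1).trans hm'.2⟩, h1⟩
          · rintro ⟨_, h2⟩
            exact ⟨h2, by omega⟩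
        rw [← hset]
        refine sum_le_sum fun d hd => ?_
        have hdm := Nat.dvd_of_mem_divisors hd
        have hd0 : (0 : ℝ) < d := by exact_mod_cast Nat.pos_of_dvd_of_pos hdm hm'.1
        rw [Nat.cast_div hdm hd0.ne']
        have hm0 : (0 : ℝ) < m := by exact_mod_cast hm'.1
        apply le_of_eq
        field_simp
    _ = ∑ d ∈ Icc 1 M, (1 / (d : ℝ)) *
          ∑ m ∈ (Icc 1 M).filter (fun m => d ∣ m), 1 / ((m / d : ℕ) : ℝ) := by
        simp only [sum_filter]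
        rw [sum_comm]
        refine sum_congr rfl fun d _ => ?_
        rw [mul_sum]
        refine sum_congr rfl fun m _ => ?_
        split_ifs
        · rfl
        · rw [mul_zero]
    _ ≤ ∑ d ∈ Icc 1 M, (1 / (d : ℝ)) * ∑ m ∈ Icc 1 M, 1 / (m : ℝ) := by
        refine sum_le_sum fun d hd => ?_
        refine mul_le_mul_of_nonneg_left ?_ (by positivity)
        exact chB_sum_multiples M d (mem_Icc.mp hd).1 (fun m => 1 / (m : ℝ))
          (fun m => by positivity)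
    _ = (∑ d ∈ Icc 1 M, 1 / (d : ℝ)) ^ 2 := by rw [← sum_mul, sq]
    _ ≤ (1 + Real.log M) ^ 2 := pow_le_pow_left₀ h0 (chB_harm M) 2

theorem chB_log_two_mul {Q : ℕ} (hQ : 1 ≤ Q) : 1 + Real.log (2 * Q : ℕ) ≤ 2 * (1 + Real.log Q) := by
  have hQ0 : (0 : ℝ) < Q := by exact_mod_cast hQ
  have h1 : (0 : ℝ) ≤ Real.log Q := Real.log_natCast_nonneg Q
  have h2 : Real.log (2 * Q : ℕ) = Real.log 2 + Real.log Q := by
    push_cast
    exact Real.log_mul (by norm_num) hQ0.ne'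
  have h3 : Real.log 2 ≤ 1 := by
    have := Real.log_two_lt_d9
    linarith
  rw [h2]
  linarith

/-- sum over the moduli which are multiples of `r` -/
theorem chB_moduli (Q r : ℕ) (hr : 1 ≤ r) :
    ∑ q ∈ (Ioc Q (2 * Q)).filter (fun q => r ∣ q), 1 / (q.totient : ℝ) ≤
      (1 / (r.totient : ℝ)) * ∑ m ∈ Icc 1 (2 * Q), 1 / (m.totient : ℝ) := by
  have hφr : (0 : ℝ) < r.totient := by exact_mod_cast Nat.totient_pos.mpr hr
  calc ∑ q ∈ (Ioc Q (2 * Q)).filter (fun q => r ∣ q), 1 / (q.totient : ℝ)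
      ≤ ∑ q ∈ (Icc 1 (2 * Q)).filter (fun q => r ∣ q), 1 / (q.totient : ℝ) := by
        refine sum_le_sum_of_subset_of_nonneg ?_ (fun q _ _ => by positivity)
        intro q hq
        rw [mem_filter, mem_Ioc] at hq
        rw [mem_filter, mem_Icc]
        exact ⟨⟨by omega, hq.1.2⟩, hq.2⟩
    _ ≤ ∑ q ∈ (Icc 1 (2 * Q)).filter (fun q => r ∣ q),
          (1 / (r.totient : ℝ)) * (1 / ((q / r).totient : ℝ)) := by
        refine sum_le_sum fun q hq => ?_
        rw [mem_filter, mem_Icc] at hq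
        have hqr : 0 < q / r := Nat.div_pos (Nat.le_of_dvd (by omega) hq.2) hr
        have h1 : (0 : ℝ) < (q / r).totient := by exact_mod_cast Nat.totient_pos.mpr hqr
        have h2 : r.totient * (q / r).totient ≤ q.totient := by
          have := Nat.totient_super_multiplicative r (q / r)
          rwa [Nat.mul_div_cancel' hq.2] at this
        have h3 : (r.totient : ℝ) * ((q / r).totient : ℝ) ≤ q.totient := by exact_mod_cast h2
        rw [one_div_mul_one_div]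
        exact one_div_le_one_div_of_le (by positivity) h3
    _ = (1 / (r.totient : ℝ)) *
          ∑ q ∈ (Icc 1 (2 * Q)).filter (fun q => r ∣ q), 1 / ((q / r).totient : ℝ) := by
        rw [mul_sum]
    _ ≤ _ := by
        refine mul_le_mul_of_nonneg_left ?_ (by positivity)
        exact chB_sum_multiples (2 * Q) r hr (fun m => 1 / (m.totient : ℝ))
          (fun m => by positivity)

/-- reorganising the sum over the moduli by conductor -/
theorem chB_reorg (Q : ℕ) (hQ : 1 ≤ Q)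
    (F : (r : ℕ) → DirichletCharacter ℂ r → ℝ) (hF : ∀ r χ, 0 ≤ F r χ) :
    ∑ q ∈ Ioc Q (2 * Q), (1 / (q.totient : ℝ)) * ∑ χ ∈ Nch q, F χ.conductor χ.primitiveCharacter
      ≤ 4 * (1 + Real.log Q) ^ 2 *
        ∑ r ∈ Ioc 1 (2 * Q), (1 / (r.totient : ℝ)) * ∑ χ ∈ Pch r, F r χ := by
  obtain ⟨S, hS⟩ : ∃ S : ℕ → ℝ, ∀ r, S r = ∑ χ ∈ Pch r, F r χ := ⟨_, fun _ => rfl⟩
  have hS0 : ∀ r, 0 ≤ S r := fun r => by
    rw [hS]
    exact sum_nonneg fun χ _ => hF r χ
  obtain ⟨G, hG⟩ : ∃ G : ℝ, G = ∑ m ∈ Icc 1 (2 * Q), 1 / (m.totient : ℝ) := ⟨_, rfl⟩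
  have hG4 : G ≤ 4 * (1 + Real.log Q) ^ 2 := by
    rw [hG]
    refine (chB_sum_inv_totient (2 * Q)).trans ?_
    have h1 := chB_log_two_mul hQ
    have h2 : (0 : ℝ) ≤ 1 + Real.log (2 * Q : ℕ) := by
      have := Real.log_natCast_nonneg (2 * Q)
      linarith
    calc (1 + Real.log (2 * Q : ℕ)) ^ 2 ≤ (2 * (1 + Real.log Q)) ^ 2 := pow_le_pow_left₀ h2 h1 2
      _ = 4 * (1 + Real.log Q) ^ 2 := by ring
  calc ∑ q ∈ Ioc Q (2 * Q), (1 / (q.totient : ℝ)) * ∑ χ ∈ Nch q, F χ.conductor χ.primitiveCharacter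
      ≤ ∑ q ∈ Ioc Q (2 * Q), (1 / (q.totient : ℝ)) *
          ∑ r ∈ (Ioc 1 (2 * Q)).filter (fun r => r ∣ q), S r := by
        refine sum_le_sum fun q hq => ?_
        rw [mem_Ioc] at hq
        refine mul_le_mul_of_nonneg_left ?_ (by positivity)
        have h1 := DiB_level q (by omega) F hF
        have hset : q.divisors.filter (fun r => 1 < r) =
            (Ioc 1 (2 * Q)).filter (fun r => r ∣ q) := by
          ext r
          rw [mem_filter, Nat.mem_divisors, mem_filter, mem_Ioc]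
          constructor
          · rintro ⟨⟨h1, h2⟩, h3⟩
            exact ⟨⟨h3, (Nat.le_of_dvd (by omega) h1).trans hq.2⟩, h1⟩
          · rintro ⟨⟨h1, h2⟩, h3⟩
            exact ⟨⟨h3, by omega⟩, h1⟩
        rw [hset] at h1
        refine h1.trans (le_of_eq (sum_congr rfl fun r _ => (hS r).symm))
    _ = ∑ r ∈ Ioc 1 (2 * Q), S r *
          ∑ q ∈ (Ioc Q (2 * Q)).filter (fun q => r ∣ q), 1 / (q.totient : ℝ) := by
        simp only [sum_filter, mul_sum]
        rw [sum_comm]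
        refine sum_congr rfl fun r _ => sum_congr rfl fun q _ => ?_
        split_ifs
        · rw [mul_comm]
        · rw [mul_zero, mul_zero]
    _ ≤ ∑ r ∈ Ioc 1 (2 * Q), S r * ((1 / (r.totient : ℝ)) * G) := by
        refine sum_le_sum fun r hr => ?_
        rw [mem_Ioc] at hr
        refine mul_le_mul_of_nonneg_left ?_ (hS0 r)
        rw [hG]
        exact chB_moduli Q r (by omega)
    _ = G * ∑ r ∈ Ioc 1 (2 * Q), (1 / (r.totient : ℝ)) * ∑ χ ∈ Pch r, F r χ := by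
        rw [mul_sum]
        refine sum_congr rfl fun r _ => ?_
        rw [← hS]
        ring
    _ ≤ _ := by
        refine mul_le_mul_of_nonneg_right hG4 (sum_nonneg fun r _ => ?_)
        rw [← hS]
        exact mul_nonneg (by positivity) (hS0 r)

/-- the error in passing to the primitive character -/
theorem chB_E_le {N Q q : ℕ} (hN : 1 ≤ N) (hQ : 1 ≤ Q) (hq1 : 1 ≤ q) (hq : q ≤ 2 * Q) :
    DiA_E N 0 q ≤ 2 * (1 + Real.log N) * (1 + Real.log Q) := by
  have hLN : 0 ≤ Real.log N := Real.log_natCast_nonneg N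
  have hLQ : 0 ≤ Real.log Q := Real.log_natCast_nonneg Q
  have h1 : DiA_E N 0 q ≤ (4 / 27) * ((q.primeFactors.card : ℝ) * Real.log N) := by
    calc DiA_E N 0 q ≤ ∑ n ∈ (Icc 1 N).filter (fun n => ¬ Nat.Coprime n q),
          (4 / 27) * ArithmeticFunction.vonMangoldt n := by
          refine sum_le_sum fun n hn => ?_
          rw [mem_filter, mem_Icc] at hn
          rw [mul_comm]
          exact mul_le_mul_of_nonneg_right (W_le hn.1.2) ArithmeticFunction.vonMangoldt_nonneg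
      _ = (4 / 27) * ∑ n ∈ (Icc 1 N).filter (fun n => ¬ Nat.Coprime n q),
          ArithmeticFunction.vonMangoldt n := by rw [mul_sum]
      _ ≤ _ := mul_le_mul_of_nonneg_left (DiA_psi_noncoprime hN hq1) (by norm_num)
  have h2 := DiA_omega_le hq1
  have h3 : Real.log q ≤ Real.log (2 * Q : ℕ) :=
    Real.log_le_log (by exact_mod_cast hq1) (by exact_mod_cast hq)
  have h4 : (0.6931471803 : ℝ) < Real.log 2 := Real.log_two_gt_d9
  have h5 : (0 : ℝ) ≤ q.primeFactors.card := Nat.cast_nonneg _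
  have h6 := chB_log_two_mul hQ
  have h7 : (q.primeFactors.card : ℝ) * (1 / 2) ≤ 2 * (1 + Real.log Q) := by
    have h8 : (q.primeFactors.card : ℝ) * (1 / 2) ≤ (q.primeFactors.card : ℝ) * Real.log 2 :=
      mul_le_mul_of_nonneg_left (by linarith) h5
    linarith
  have h8 : (q.primeFactors.card : ℝ) ≤ 4 * (1 + Real.log Q) := by linarith
  have h9 : (q.primeFactors.card : ℝ) * Real.log N ≤ 4 * (1 + Real.log Q) * (1 + Real.log N) :=
    mul_le_mul h8 (by linarith) hLN (by positivity)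
  have h10 : 0 ≤ (1 + Real.log Q) * (1 + Real.log N) := by positivity
  calc DiA_E N 0 q ≤ (4 / 27) * ((q.primeFactors.card : ℝ) * Real.log N) := h1
    _ ≤ (4 / 27) * (4 * (1 + Real.log Q) * (1 + Real.log N)) :=
        mul_le_mul_of_nonneg_left h9 (by norm_num)
    _ = (16 / 27) * ((1 + Real.log Q) * (1 + Real.log N)) := by ring
    _ ≤ 2 * ((1 + Real.log Q) * (1 + Real.log N)) := mul_le_mul_of_nonneg_right (by norm_num) h10
    _ = 2 * (1 + Real.log N) * (1 + Real.log Q) := by ring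

theorem chB_card {q : ℕ} (hq : 1 ≤ q) : ((Nch q).card : ℝ) ≤ q.totient := by
  classical
  have : NeZero q := ⟨by omega⟩
  have h1 : (Nch q).card ≤ Fintype.card (DirichletCharacter ℂ q) := card_le_univ _
  rw [← Nat.card_eq_fintype_card,
      DirichletCharacter.card_eq_totient_of_hasEnoughRootsOfUnity ℂ q] at h1
  exact_mod_cast h1

/-- the total contribution of the correction terms -/
theorem chB_err (Q : ℕ) (e : ℕ → ℝ) (B : ℝ) (hB : 0 ≤ B)
    (he : ∀ q ∈ Ioc Q (2 * Q), e q ≤ B)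
    (X : (q : ℕ) → Finset (DirichletCharacter ℂ q)) (hX : ∀ q, X q ⊆ Nch q) :
    ∑ q ∈ Ioc Q (2 * Q), (1 / (q.totient : ℝ)) * ∑ _χ ∈ X q, e q ≤ Q * B := by
  calc ∑ q ∈ Ioc Q (2 * Q), (1 / (q.totient : ℝ)) * ∑ _χ ∈ X q, e q
      ≤ ∑ q ∈ Ioc Q (2 * Q), B := by
        refine sum_le_sum fun q hq => ?_
        have hq1 : 1 ≤ q := by rw [mem_Ioc] at hq; omega
        have hφ : (0 : ℝ) < q.totient := by exact_mod_cast Nat.totient_pos.mpr hq1
        have h1 : ∑ _χ ∈ X q, e q ≤ (q.totient : ℝ) * B := by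
          rw [sum_const, nsmul_eq_mul]
          calc ((X q).card : ℝ) * e q ≤ ((X q).card : ℝ) * B :=
                mul_le_mul_of_nonneg_left (he q hq) (Nat.cast_nonneg _)
            _ ≤ (q.totient : ℝ) * B := by
                refine mul_le_mul_of_nonneg_right ?_ hB
                refine le_trans ?_ (chB_card hq1)
                exact_mod_cast card_le_card (hX q)
        calc (1 / (q.totient : ℝ)) * ∑ _χ ∈ X q, e q
            ≤ (1 / (q.totient : ℝ)) * ((q.totient : ℝ) * B) :=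
              mul_le_mul_of_nonneg_left h1 (by positivity)
          _ = B := by field_simp
    _ = Q * B := by
        rw [sum_const, Nat.card_Ioc, nsmul_eq_mul]
        congr 2
        omega

theorem sum_small_cond : ∃ C : ℝ, 0 < C ∧ ∀ N Q D : ℕ, 1 ≤ N → 1 ≤ Q → 1 ≤ D →
    ∑ q ∈ Ioc Q (2 * Q), (1 / (q.totient : ℝ)) *
        ∑ χ ∈ (Nch q).filter (fun χ => χ.conductor ≤ D), ‖TT N 0 (fun n => χ (n : ZMod q))‖
      ≤ C * (1 + Real.log Q) ^ 2 * (∑ c ∈ Ioc 1 D, (1 / (c.totient : ℝ)) *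
            ∑ ψ ∈ Pch c, ‖TT N 0 (fun n => ψ (n : ZMod c))‖)
        + C * Q * (1 + Real.log N) * (1 + Real.log Q) := by
  refine ⟨4, by norm_num, ?_⟩
  intro N Q D hN hQ hD
  have hLN : 0 ≤ Real.log N := Real.log_natCast_nonneg N
  have hLQ : 0 ≤ Real.log Q := Real.log_natCast_nonneg Q
  obtain ⟨F, hFd⟩ : ∃ F : (r : ℕ) → DirichletCharacter ℂ r → ℝ, ∀ r χ, F r χ =
      if r ≤ D then ‖TT N 0 (fun n => χ (n : ZMod r))‖ else 0 := ⟨_, fun _ _ => rfl⟩
  have hF : ∀ r χ, 0 ≤ F r χ := by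
    intro r χ
    rw [hFd]
    split_ifs
    · exact norm_nonneg _
    · exact le_rfl
  have hB : 0 ≤ 2 * (1 + Real.log N) * (1 + Real.log Q) := by positivity
  have hmain := chB_reorg Q hQ F hF
  have herr := chB_err Q (fun q => DiA_E N 0 q) (2 * (1 + Real.log N) * (1 + Real.log Q)) hB
    (fun q hq => chB_E_le hN hQ (by rw [mem_Ioc] at hq; omega) (by rw [mem_Ioc] at hq; omega))
    (fun q => (Nch q).filter (fun χ => χ.conductor ≤ D)) (fun q => filter_subset _ _)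
  have hsum : ∑ r ∈ Ioc 1 (2 * Q), (1 / (r.totient : ℝ)) * ∑ χ ∈ Pch r, F r χ ≤
      ∑ c ∈ Ioc 1 D, (1 / (c.totient : ℝ)) *
            ∑ ψ ∈ Pch c, ‖TT N 0 (fun n => ψ (n : ZMod c))‖ := by
    calc ∑ r ∈ Ioc 1 (2 * Q), (1 / (r.totient : ℝ)) * ∑ χ ∈ Pch r, F r χ
        = ∑ r ∈ (Ioc 1 (2 * Q)).filter (fun r => r ≤ D), (1 / (r.totient : ℝ)) *
            ∑ ψ ∈ Pch r, ‖TT N 0 (fun n => ψ (n : ZMod r))‖ := by
          rw [sum_filter]
          refine sum_congr rfl fun r _ => ?_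
          simp only [hFd]
          split_ifs
          · rfl
          · rw [sum_const_zero, mul_zero]
      _ ≤ _ := by
          refine sum_le_sum_of_subset_of_nonneg ?_ (fun r _ _ =>
            mul_nonneg (by positivity) (sum_nonneg fun ψ _ => norm_nonneg _))
          intro r hr
          rw [mem_filter, mem_Ioc] at hr
          rw [mem_Ioc]
          exact ⟨hr.1.1, hr.2⟩
  calc ∑ q ∈ Ioc Q (2 * Q), (1 / (q.totient : ℝ)) *
        ∑ χ ∈ (Nch q).filter (fun χ => χ.conductor ≤ D), ‖TT N 0 (fun n => χ (n : ZMod q))‖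
      ≤ ∑ q ∈ Ioc Q (2 * Q), ((1 / (q.totient : ℝ)) *
          ∑ χ ∈ Nch q, F χ.conductor χ.primitiveCharacter + (1 / (q.totient : ℝ)) *
          ∑ _χ ∈ (Nch q).filter (fun χ => χ.conductor ≤ D), DiA_E N 0 q) := by
        refine sum_le_sum fun q _ => ?_
        rw [← mul_add]
        refine mul_le_mul_of_nonneg_left ?_ (by positivity)
        calc ∑ χ ∈ (Nch q).filter (fun χ => χ.conductor ≤ D), ‖TT N 0 (fun n => χ (n : ZMod q))‖
            ≤ ∑ χ ∈ (Nch q).filter (fun χ => χ.conductor ≤ D),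
                (F χ.conductor χ.primitiveCharacter + DiA_E N 0 q) := by
              refine sum_le_sum fun χ hχ => ?_
              rw [mem_filter] at hχ
              rw [hFd, if_pos hχ.2]
              exact DiA_TT_sub χ
          _ = ∑ χ ∈ (Nch q).filter (fun χ => χ.conductor ≤ D), F χ.conductor χ.primitiveCharacter
                + ∑ _χ ∈ (Nch q).filter (fun χ => χ.conductor ≤ D), DiA_E N 0 q := by
              rw [sum_add_distrib]
          _ ≤ _ := by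
              refine add_le_add ?_ le_rfl
              exact sum_le_sum_of_subset_of_nonneg (filter_subset _ _) (fun χ _ _ => hF _ _)
    _ = (∑ q ∈ Ioc Q (2 * Q), (1 / (q.totient : ℝ)) *
          ∑ χ ∈ Nch q, F χ.conductor χ.primitiveCharacter) +
        ∑ q ∈ Ioc Q (2 * Q), (1 / (q.totient : ℝ)) *
          ∑ _χ ∈ (Nch q).filter (fun χ => χ.conductor ≤ D), DiA_E N 0 q := by
        rw [sum_add_distrib]
    _ ≤ 4 * (1 + Real.log Q) ^ 2 *
          (∑ r ∈ Ioc 1 (2 * Q), (1 / (r.totient : ℝ)) * ∑ χ ∈ Pch r, F r χ) +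
        Q * (2 * (1 + Real.log N) * (1 + Real.log Q)) := add_le_add hmain herr
    _ ≤ 4 * (1 + Real.log Q) ^ 2 * (∑ c ∈ Ioc 1 D, (1 / (c.totient : ℝ)) *
            ∑ ψ ∈ Pch c, ‖TT N 0 (fun n => ψ (n : ZMod c))‖)
        + 4 * Q * (1 + Real.log N) * (1 + Real.log Q) := by
        refine add_le_add (mul_le_mul_of_nonneg_left hsum (by positivity)) ?_
        have h1 : 0 ≤ (Q : ℝ) * ((1 + Real.log N) * (1 + Real.log Q)) := by positivity
        calc (Q : ℝ) * (2 * (1 + Real.log N) * (1 + Real.log Q))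
            = 2 * ((Q : ℝ) * ((1 + Real.log N) * (1 + Real.log Q))) := by ring
          _ ≤ 4 * ((Q : ℝ) * ((1 + Real.log N) * (1 + Real.log Q))) :=
              mul_le_mul_of_nonneg_right (by norm_num) h1
          _ = 4 * Q * (1 + Real.log N) * (1 + Real.log Q) := by ring

theorem sum_large_cond : ∃ C : ℝ, 0 < C ∧ ∀ N Q D : ℕ, 1 ≤ N → 1 ≤ Q → 1 ≤ D →
    ∑ q ∈ Ioc Q (2 * Q), (1 / (q.totient : ℝ)) *
        ∑ χ ∈ (Nch q).filter (fun χ => D < χ.conductor), ‖TT N 0 (fun n => χ (n : ZMod q))‖ ^ 2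
      ≤ C * (1 + Real.log Q) ^ 2 * (∑ c ∈ Ioc D (2 * Q), (1 / (c.totient : ℝ)) *
            ∑ ψ ∈ Pch c, ‖TT N 0 (fun n => ψ (n : ZMod c))‖ ^ 2)
        + C * Q * (1 + Real.log N) ^ 2 * (1 + Real.log Q) ^ 2 := by
  refine ⟨8, by norm_num, ?_⟩
  intro N Q D hN hQ hD
  have hLN : 0 ≤ Real.log N := Real.log_natCast_nonneg N
  have hLQ : 0 ≤ Real.log Q := Real.log_natCast_nonneg Q
  obtain ⟨F, hFd⟩ : ∃ F : (r : ℕ) → DirichletCharacter ℂ r → ℝ, ∀ r χ, F r χ =
      if D < r then 2 * ‖TT N 0 (fun n => χ (n : ZMod r))‖ ^ 2 else 0 := ⟨_, fun _ _ => rfl⟩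
  have hF : ∀ r χ, 0 ≤ F r χ := by
    intro r χ
    rw [hFd]
    split_ifs
    · positivity
    · exact le_rfl
  have hB : 0 ≤ 2 * (2 * (1 + Real.log N) * (1 + Real.log Q)) ^ 2 := by positivity
  have hmain := chB_reorg Q hQ F hF
  have herr := chB_err Q (fun q => 2 * (DiA_E N 0 q) ^ 2)
    (2 * (2 * (1 + Real.log N) * (1 + Real.log Q)) ^ 2) hB
    (fun q hq => by
      rw [mem_Ioc] at hq
      exact mul_le_mul_of_nonneg_left (pow_le_pow_left₀ (DiA_E_nonneg _ _ _)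
        (chB_E_le hN hQ (by omega) (by omega)) 2) (by norm_num))
    (fun q => (Nch q).filter (fun χ => D < χ.conductor)) (fun q => filter_subset _ _)
  have hsum : ∑ r ∈ Ioc 1 (2 * Q), (1 / (r.totient : ℝ)) * ∑ χ ∈ Pch r, F r χ ≤
      2 * ∑ c ∈ Ioc D (2 * Q), (1 / (c.totient : ℝ)) *
            ∑ ψ ∈ Pch c, ‖TT N 0 (fun n => ψ (n : ZMod c))‖ ^ 2 := by
    calc ∑ r ∈ Ioc 1 (2 * Q), (1 / (r.totient : ℝ)) * ∑ χ ∈ Pch r, F r χ
        = ∑ r ∈ (Ioc 1 (2 * Q)).filter (fun r => D < r), 2 * ((1 / (r.totient : ℝ)) *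
            ∑ ψ ∈ Pch r, ‖TT N 0 (fun n => ψ (n : ZMod r))‖ ^ 2) := by
          rw [sum_filter]
          refine sum_congr rfl fun r _ => ?_
          simp only [hFd]
          split_ifs
          · rw [← mul_sum]
            ring
          · rw [sum_const_zero, mul_zero]
      _ ≤ ∑ c ∈ Ioc D (2 * Q), 2 * ((1 / (c.totient : ℝ)) *
            ∑ ψ ∈ Pch c, ‖TT N 0 (fun n => ψ (n : ZMod c))‖ ^ 2) := by
          refine sum_le_sum_of_subset_of_nonneg ?_ (fun r _ _ =>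
            mul_nonneg (by norm_num) (mul_nonneg (by positivity)
              (sum_nonneg fun ψ _ => by positivity)))
          intro r hr
          rw [mem_filter, mem_Ioc] at hr
          rw [mem_Ioc]
          exact ⟨hr.2, hr.1.2⟩
      _ = _ := by rw [mul_sum]
  calc ∑ q ∈ Ioc Q (2 * Q), (1 / (q.totient : ℝ)) *
        ∑ χ ∈ (Nch q).filter (fun χ => D < χ.conductor), ‖TT N 0 (fun n => χ (n : ZMod q))‖ ^ 2
      ≤ ∑ q ∈ Ioc Q (2 * Q), ((1 / (q.totient : ℝ)) *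
          ∑ χ ∈ Nch q, F χ.conductor χ.primitiveCharacter + (1 / (q.totient : ℝ)) *
          ∑ _χ ∈ (Nch q).filter (fun χ => D < χ.conductor), 2 * (DiA_E N 0 q) ^ 2) := by
        refine sum_le_sum fun q _ => ?_
        rw [← mul_add]
        refine mul_le_mul_of_nonneg_left ?_ (by positivity)
        calc ∑ χ ∈ (Nch q).filter (fun χ => D < χ.conductor),
              ‖TT N 0 (fun n => χ (n : ZMod q))‖ ^ 2
            ≤ ∑ χ ∈ (Nch q).filter (fun χ => D < χ.conductor),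
                (F χ.conductor χ.primitiveCharacter + 2 * (DiA_E N 0 q) ^ 2) := by
              refine sum_le_sum fun χ hχ => ?_
              rw [mem_filter] at hχ
              rw [hFd, if_pos hχ.2]
              have h1 := DiA_TT_sub (N := N) (k := 0) χ
              have h2 := pow_le_pow_left₀ (norm_nonneg _) h1 2
              refine h2.trans ?_
              have h3 : ∀ x y : ℝ, (x + y) ^ 2 ≤ 2 * x ^ 2 + 2 * y ^ 2 := by
                intro x y
                have := sq_nonneg (x - y)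
                linarith [sq_nonneg (x - y), (by ring : (x - y) ^ 2 = x ^ 2 - 2 * x * y + y ^ 2),
                  (by ring : (x + y) ^ 2 = x ^ 2 + 2 * x * y + y ^ 2)]
              exact h3 _ _
          _ = ∑ χ ∈ (Nch q).filter (fun χ => D < χ.conductor), F χ.conductor χ.primitiveCharacter
                + ∑ _χ ∈ (Nch q).filter (fun χ => D < χ.conductor), 2 * (DiA_E N 0 q) ^ 2 := by
              rw [sum_add_distrib]
          _ ≤ _ := by
              refine add_le_add ?_ le_rfl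
              exact sum_le_sum_of_subset_of_nonneg (filter_subset _ _) (fun χ _ _ => hF _ _)
    _ = (∑ q ∈ Ioc Q (2 * Q), (1 / (q.totient : ℝ)) *
          ∑ χ ∈ Nch q, F χ.conductor χ.primitiveCharacter) +
        ∑ q ∈ Ioc Q (2 * Q), (1 / (q.totient : ℝ)) *
          ∑ _χ ∈ (Nch q).filter (fun χ => D < χ.conductor), 2 * (DiA_E N 0 q) ^ 2 := by
        rw [sum_add_distrib]
    _ ≤ 4 * (1 + Real.log Q) ^ 2 *
          (∑ r ∈ Ioc 1 (2 * Q), (1 / (r.totient : ℝ)) * ∑ χ ∈ Pch r, F r χ) +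
        Q * (2 * (2 * (1 + Real.log N) * (1 + Real.log Q)) ^ 2) := add_le_add hmain herr
    _ ≤ 4 * (1 + Real.log Q) ^ 2 *
          (2 * ∑ c ∈ Ioc D (2 * Q), (1 / (c.totient : ℝ)) *
            ∑ ψ ∈ Pch c, ‖TT N 0 (fun n => ψ (n : ZMod c))‖ ^ 2) +
        Q * (2 * (2 * (1 + Real.log N) * (1 + Real.log Q)) ^ 2) :=
        add_le_add (mul_le_mul_of_nonneg_left hsum (by positivity)) le_rfl
    _ = 8 * (1 + Real.log Q) ^ 2 * (∑ c ∈ Ioc D (2 * Q), (1 / (c.totient : ℝ)) *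
            ∑ ψ ∈ Pch c, ‖TT N 0 (fun n => ψ (n : ZMod c))‖ ^ 2)
        + 8 * Q * (1 + Real.log N) ^ 2 * (1 + Real.log Q) ^ 2 := by ring

end Pool.Agent.H91.EHA

end

section

/-!
# Character expansion of `Eom`

Orthogonality (see `DiA_orth`, `DiA_TT_one` in `PK/DiA.lean` for the case `a = N`); `W N 0 n = om(n/N)`.
-/

set_option autoImplicit false

namespace Pool.Agent.H91.EHA

open Finset
open Pool.Agent.H91.PK

theorem cha_inv_apply {q : ℕ} (χ : DirichletCharacter ℂ q) {x : ZMod q} (hx : IsUnit x) :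
    χ⁻¹ x = χ x⁻¹ := by
  obtain ⟨u, rfl⟩ := hx
  rw [MulChar.inv_apply, Ring.inverse_unit, ZMod.inv_coe_unit]

theorem cha_zero {q n : ℕ} (χ : DirichletCharacter ℂ q) (h : ¬ Nat.Coprime n q) :
    χ (n : ZMod q) = 0 := by
  refine χ.map_nonunit ?_
  intro hu
  exact h ((ZMod.isUnit_iff_coprime n q).mp hu)

theorem cha_one {q n : ℕ} (h : Nat.Coprime n q) :
    (1 : DirichletCharacter ℂ q) (n : ZMod q) = 1 :=
  MulChar.one_apply ((ZMod.isUnit_iff_coprime n q).mpr h)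

theorem cha_TT (N : ℕ) (f : ℕ → ℂ) :
    TT N 0 f = ∑ n ∈ Icc 1 N, f n * ((Lam n * om ((n : ℝ) / N) : ℝ) : ℂ) := by
  unfold TT
  refine sum_congr rfl fun n _ => ?_
  unfold W Lam
  rw [pow_zero, mul_one]
  push_cast
  ring

theorem Eom_eq (N q a : ℕ) (hq : 1 ≤ q) (ha : Nat.Coprime a q) :
    ((Eom N q a : ℝ) : ℂ) = (1 / (q.totient : ℂ)) * ∑ χ ∈ Nch q,
      χ⁻¹ (a : ZMod q) * TT N 0 (fun n => χ (n : ZMod q)) := by
  classical
  have : NeZero q := ⟨by omega⟩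
  have hu : IsUnit (a : ZMod q) := (ZMod.isUnit_iff_coprime a q).mpr ha
  have hphi : (q.totient : ℂ) ≠ 0 := by
    have := Nat.totient_pos.2 (show 0 < q by omega)
    exact_mod_cast this.ne'
  have hall : ∑ χ : DirichletCharacter ℂ q,
      χ⁻¹ (a : ZMod q) * TT N 0 (fun n => χ (n : ZMod q)) =
      (q.totient : ℂ) * ((∑ n ∈ (Icc 1 N).filter (fun n => n ≡ a [MOD q]),
        Lam n * om ((n : ℝ) / N) : ℝ) : ℂ) := by
    simp only [cha_TT, mul_sum]
    rw [sum_comm, Complex.ofReal_sum, mul_sum, sum_filter]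
    refine sum_congr rfl fun n _ => ?_
    have h1 : ∀ χ : DirichletCharacter ℂ q,
        χ⁻¹ (a : ZMod q) * (χ (n : ZMod q) * ((Lam n * om ((n : ℝ) / N) : ℝ) : ℂ)) =
        (χ ((a : ZMod q)⁻¹) * χ (n : ZMod q)) * ((Lam n * om ((n : ℝ) / N) : ℝ) : ℂ) := by
      intro χ
      rw [cha_inv_apply χ hu]
      ring
    simp only [h1]
    rw [← sum_mul, DirichletCharacter.sum_char_inv_mul_char_eq ℂ hu]
    have hiff : ((a : ZMod q) = (n : ZMod q)) ↔ n ≡ a [MOD q] := by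
      rw [eq_comm, ZMod.natCast_eq_natCast_iff]
    by_cases h : n ≡ a [MOD q]
    · rw [if_pos h, if_pos (hiff.mpr h)]
    · rw [if_neg h, if_neg (fun h' => h (hiff.mp h'))]
      simp
  have hone : TT N 0 (fun n => (1 : DirichletCharacter ℂ q) (n : ZMod q)) =
      ((∑ n ∈ (Icc 1 N).filter (fun n => Nat.Coprime n q), Lam n * om ((n : ℝ) / N) : ℝ) : ℂ) := by
    rw [cha_TT, Complex.ofReal_sum, sum_filter]
    refine sum_congr rfl fun n _ => ?_
    by_cases h : Nat.Coprime n q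
    · rw [if_pos h, cha_one h, one_mul]
    · rw [if_neg h, cha_zero _ h, zero_mul]
  have hNch : Nch q = univ.erase 1 := by
    ext χ
    rw [mem_Nch]
    simp
  have h1a : (1 : DirichletCharacter ℂ q)⁻¹ (a : ZMod q) = 1 := by
    rw [inv_one]
    exact cha_one ha
  rw [← Finset.add_sum_erase univ _ (mem_univ (1 : DirichletCharacter ℂ q)), ← hNch, h1a,
    one_mul, hone] at hall
  unfold Eom
  rw [Complex.ofReal_sub, Complex.ofReal_mul]
  have h2 := eq_sub_of_add_eq' hall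
  rw [h2]
  push_cast
  field_simp

theorem cha_sum_range {q : ℕ} [NeZero q] (F : ZMod q → ℂ)
    (hF : ∀ a : ℕ, ¬ Nat.Coprime a q → F (a : ZMod q) = 0) :
    ∑ a ∈ (range q).filter (fun a => Nat.Coprime a q), F (a : ZMod q) = ∑ x : ZMod q, F x := by
  rw [sum_filter]
  have h1 : ∑ a ∈ range q, (if Nat.Coprime a q then F (a : ZMod q) else 0) =
      ∑ a ∈ range q, F (a : ZMod q) := by
    refine sum_congr rfl fun a _ => ?_
    split_ifs with h
    · rfl
    · exact (hF a h).symm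
  rw [h1]
  refine Finset.sum_bij' (fun a _ => (a : ZMod q)) (fun x _ => x.val) (fun _ _ => mem_univ _)
    (fun x _ => mem_range.2 (ZMod.val_lt x)) (fun a ha => ZMod.val_cast_of_lt (mem_range.1 ha))
    (fun x _ => ZMod.natCast_zmod_val x) (fun _ _ => rfl)

open Classical in
theorem cha_orth {q : ℕ} (hq : 1 ≤ q) (χ ψ : DirichletCharacter ℂ q) :
    ∑ a ∈ (range q).filter (fun a => Nat.Coprime a q),
      χ⁻¹ (a : ZMod q) * (starRingEnd ℂ) (ψ⁻¹ (a : ZMod q)) =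
      if χ = ψ then (q.totient : ℂ) else 0 := by
  have : NeZero q := ⟨by omega⟩
  have hs : ∀ x : ZMod q, (starRingEnd ℂ) (ψ⁻¹ x) = ψ x := by
    intro x
    have h1 : star (ψ⁻¹) = (ψ⁻¹)⁻¹ := MulChar.star_eq_inv ψ⁻¹
    rw [inv_inv] at h1
    have h2 : (star (ψ⁻¹)) x = star (ψ⁻¹ x) := rfl
    rw [h1] at h2
    exact h2.symm
  have h3 : ∀ a : ℕ, χ⁻¹ (a : ZMod q) * (starRingEnd ℂ) (ψ⁻¹ (a : ZMod q)) =
      (fun x : ZMod q => (χ⁻¹ * ψ) x) (a : ZMod q) := by
    intro a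
    rw [hs]
    rfl
  simp only [h3]
  rw [cha_sum_range (fun x : ZMod q => (χ⁻¹ * ψ) x) (fun a ha => cha_zero _ ha)]
  split_ifs with h
  · subst h
    rw [inv_mul_cancel, MulChar.sum_one_eq_card_units, ZMod.card_units_eq_totient]
  · refine MulChar.sum_eq_zero_of_ne_one ?_
    intro h'
    exact h (inv_mul_eq_one.1 h')

/-- orthogonality in mean square, for any set of characters -/
theorem char_msq (q : ℕ) (hq : 1 ≤ q) (X : Finset (DirichletCharacter ℂ q))
    (T : DirichletCharacter ℂ q → ℂ) :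
    ∑ a ∈ (range q).filter (fun a => Nat.Coprime a q),
        ‖(1 / (q.totient : ℂ)) * ∑ χ ∈ X, χ⁻¹ (a : ZMod q) * T χ‖ ^ 2
      = (1 / (q.totient : ℝ)) * ∑ χ ∈ X, ‖T χ‖ ^ 2 := by
  classical
  have hphi : (q.totient : ℂ) ≠ 0 := by
    have := Nat.totient_pos.2 (show 0 < q by omega)
    exact_mod_cast this.ne'
  have hsq : ∀ z : ℂ, ((‖z‖ ^ 2 : ℝ) : ℂ) = z * (starRingEnd ℂ) z := by
    intro z
    rw [Complex.mul_conj, Complex.normSq_eq_norm_sq]
  apply Complex.ofReal_injective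
  push_cast
  have e1 : ∀ a : ℕ, ((‖(1 / (q.totient : ℂ)) * ∑ χ ∈ X, χ⁻¹ (a : ZMod q) * T χ‖ : ℝ) : ℂ) ^ 2 =
      (1 / (q.totient : ℂ)) ^ 2 * ∑ χ ∈ X, ∑ ψ ∈ X, (T χ * (starRingEnd ℂ) (T ψ)) *
        (χ⁻¹ (a : ZMod q) * (starRingEnd ℂ) (ψ⁻¹ (a : ZMod q))) := by
    intro a
    have h1 := hsq ((1 / (q.totient : ℂ)) * ∑ χ ∈ X, χ⁻¹ (a : ZMod q) * T χ)
    rw [Complex.ofReal_pow] at h1
    rw [h1, map_mul, map_sum]
    have h2 : (starRingEnd ℂ) (1 / (q.totient : ℂ)) = 1 / (q.totient : ℂ) := by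
      rw [map_div₀, map_one, map_natCast]
    rw [h2]
    have h3 : (∑ χ ∈ X, χ⁻¹ (a : ZMod q) * T χ) *
        (∑ ψ ∈ X, (starRingEnd ℂ) (ψ⁻¹ (a : ZMod q) * T ψ)) =
        ∑ χ ∈ X, ∑ ψ ∈ X, (T χ * (starRingEnd ℂ) (T ψ)) *
          (χ⁻¹ (a : ZMod q) * (starRingEnd ℂ) (ψ⁻¹ (a : ZMod q))) := by
      rw [sum_mul_sum]
      refine sum_congr rfl fun χ _ => sum_congr rfl fun ψ _ => ?_
      rw [map_mul]
      ring
    rw [← h3]
    ring
  simp only [e1]
  rw [← mul_sum, sum_comm]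
  have e2 : ∀ χ ∈ X, ∑ a ∈ (range q).filter (fun a => Nat.Coprime a q), ∑ ψ ∈ X,
      (T χ * (starRingEnd ℂ) (T ψ)) * (χ⁻¹ (a : ZMod q) * (starRingEnd ℂ) (ψ⁻¹ (a : ZMod q))) =
      (q.totient : ℂ) * ((‖T χ‖ : ℝ) : ℂ) ^ 2 := by
    intro χ hχ
    rw [sum_comm]
    simp only [← mul_sum, cha_orth hq]
    simp only [mul_ite, mul_zero]
    rw [Finset.sum_ite_eq, if_pos hχ]
    have h1 := hsq (T χ)
    rw [Complex.ofReal_pow] at h1
    rw [h1]
    ring
  rw [sum_congr rfl e2, ← mul_sum]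
  field_simp

end Pool.Agent.H91.EHA

end

section

/-!
# Large conductors in mean square

`mult_ls` (PK/LSm.lean) on dyadic ranges `c ∈ (2^i D, 2^{i+1} D]`: `1/φ(c) ≤ (1/(2^i D)) c/φ(c)`,
`∑_{n≤N} (Λ(n) om(n/N))² ≤ N (log N)²`.  Sum over `i` with `2^i D ≤ 2Q`:
`∑_i (1/(2^i D))((2^{i+1}D)² + πN) ≤ 16 Q·... + 2πN/D`.
-/

set_option autoImplicit false

namespace Pool.Agent.H91.EHA

open Finset
open Pool.Agent.H91.PK

private theorem chC_om (t : ℝ) : 0 ≤ om t ∧ om t ≤ 1 := by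
  unfold om
  split_ifs with h
  · obtain ⟨h0, h1⟩ := h
    have h2 : (1 - t) ^ 2 ≤ 1 := by nlinarith
    refine ⟨by positivity, ?_⟩
    calc t * (1 - t) ^ 2 ≤ 1 * 1 := mul_le_mul h1 h2 (by positivity) (by norm_num)
      _ = 1 := by norm_num
  · exact ⟨le_refl 0, by norm_num⟩

/-- Partial summation. -/
private theorem chC_abel (u : ℕ → ℝ) (B P : ℝ) (hB : 0 ≤ B) (hP : 0 ≤ P) (D : ℕ)
    (hu : ∀ M, D ≤ M → ∑ c ∈ Ioc D M, u c ≤ ((M : ℝ) ^ 2 + P) * B) (M : ℕ) (hM : D ≤ M) :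
    ∑ c ∈ Ioc D M, u c / c ≤ (∑ c ∈ Ioc D M, u c) / (M + 1) + B * (M - D) +
      P * B * (1 / (D + 1) - 1 / (M + 1)) := by
  induction M, hM using Nat.le_induction with
  | base => simp
  | succ M hM ih =>
    rw [Finset.sum_Ioc_succ_top (by omega), Finset.sum_Ioc_succ_top (by omega)]
    have h1 := hu (M + 1) (by omega)
    rw [Finset.sum_Ioc_succ_top (by omega)] at h1
    set G := ∑ c ∈ Ioc D M, u c with hG
    push_cast at h1 ⊢
    have hM1 : (0 : ℝ) < (M : ℝ) + 1 := by positivity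
    have hM2 : (0 : ℝ) < (M : ℝ) + 1 + 1 := by positivity
    have e1 : G / (M + 1) + u (M + 1) / (M + 1) =
        (G + u (M + 1)) / (M + 1 + 1) + (G + u (M + 1)) / ((M + 1) * (M + 1 + 1)) := by
      field_simp
    have e2 : (G + u (M + 1)) / (((M : ℝ) + 1) * (M + 1 + 1)) ≤
        B + P * B * (1 / (M + 1) - 1 / (M + 1 + 1)) := by
      rw [div_le_iff₀ (by positivity)]
      have e3 : (B + P * B * (1 / ((M : ℝ) + 1) - 1 / (M + 1 + 1))) *
          ((M + 1) * (M + 1 + 1)) = B * ((M + 1) * (M + 1 + 1)) + P * B := by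
        field_simp
        ring
      rw [e3]
      have e4 : B * ((M : ℝ) + 1) ^ 2 ≤ B * ((M + 1) * (M + 1 + 1)) := by
        apply mul_le_mul_of_nonneg_left _ hB
        nlinarith only []
      nlinarith only [h1, e4]
    have e5 : P * B * (1 / ((D : ℝ) + 1) - 1 / (M + 1 + 1)) =
        P * B * (1 / (D + 1) - 1 / (M + 1)) + P * B * (1 / (M + 1) - 1 / (M + 1 + 1)) := by ring
    rw [e5]
    linarith

theorem large_msq : ∃ C : ℝ, 0 < C ∧ ∀ N Q D : ℕ, 1 ≤ N → 1 ≤ Q → 1 ≤ D →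
    ∑ c ∈ Ioc D (2 * Q), (1 / (c.totient : ℝ)) * ∑ ψ ∈ Pch c,
        ‖TT N 0 (fun n => ψ (n : ZMod c))‖ ^ 2
      ≤ C * ((N : ℝ) / D + Q) * N * (1 + Real.log N) ^ 2 := by
  refine ⟨8, by norm_num, ?_⟩
  intro N Q D hN hQ hD
  have hN' : (1 : ℝ) ≤ N := by exact_mod_cast hN
  have hD' : (1 : ℝ) ≤ D := by exact_mod_cast hD
  have hlog : 0 ≤ Real.log N := Real.log_nonneg hN'
  set a : ℕ → ℂ := fun n =>
    (((ArithmeticFunction.vonMangoldt n * om ((n : ℝ) / N) : ℝ)) : ℂ) with ha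
  have hT : ∀ c : ℕ, ∀ ψ : DirichletCharacter ℂ c, TT N 0 (fun n => ψ (n : ZMod c)) =
      ∑ n ∈ Ioc 0 (0 + N), a n * ψ (n : ZMod c) := by
    intro c ψ
    unfold TT
    have hI : Icc 1 N = Ioc 0 (0 + N) := by
      ext n
      simp only [Finset.mem_Icc, Finset.mem_Ioc]
      omega
    rw [hI]
    refine Finset.sum_congr rfl fun n _ => ?_
    simp only [W, ha, pow_zero, mul_one]
    push_cast
    ring
  set B : ℝ := ∑ n ∈ Ioc 0 (0 + N), ‖a n‖ ^ 2 with hBd
  have hB0 : 0 ≤ B := Finset.sum_nonneg fun n _ => by positivity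
  have hB1 : B ≤ N * (1 + Real.log N) ^ 2 := by
    have h1 : ∀ n ∈ Ioc 0 (0 + N), ‖a n‖ ^ 2 ≤ (1 + Real.log N) ^ 2 := by
      intro n hn
      rw [Finset.mem_Ioc] at hn
      have hn1 : (1 : ℝ) ≤ n := by exact_mod_cast hn.1
      have hn2 : (n : ℝ) ≤ N := by
        have : n ≤ N := by omega
        exact_mod_cast this
      have h2 : ArithmeticFunction.vonMangoldt n ≤ Real.log N :=
        ArithmeticFunction.vonMangoldt_le_log.trans (Real.log_le_log (by linarith) hn2)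
      have h3 : 0 ≤ ArithmeticFunction.vonMangoldt n := ArithmeticFunction.vonMangoldt_nonneg
      have h4 := chC_om ((n : ℝ) / N)
      have h5 : ‖a n‖ = ArithmeticFunction.vonMangoldt n * om ((n : ℝ) / N) := by
        simp only [ha]
        rw [Complex.norm_real, Real.norm_of_nonneg (mul_nonneg h3 h4.1)]
      have h6 : ‖a n‖ ≤ 1 + Real.log N := by
        rw [h5]
        calc ArithmeticFunction.vonMangoldt n * om ((n : ℝ) / N)
            ≤ Real.log N * 1 := mul_le_mul h2 h4.2 h4.1 hlog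
          _ ≤ 1 + Real.log N := by linarith
      exact pow_le_pow_left₀ (norm_nonneg _) h6 2
    calc B ≤ ∑ n ∈ Ioc 0 (0 + N), (1 + Real.log N) ^ 2 := Finset.sum_le_sum h1
      _ = N * (1 + Real.log N) ^ 2 := by
        rw [Finset.sum_const, nsmul_eq_mul, Nat.card_Ioc]
        simp
  set g : ℕ → ℝ := fun c => ∑ ψ ∈ Pch c, ‖TT N 0 (fun n => ψ (n : ZMod c))‖ ^ 2 with hg
  have hg0 : ∀ c, 0 ≤ g c := fun c => Finset.sum_nonneg fun ψ _ => by positivity
  set u : ℕ → ℝ := fun c => ((c : ℝ) / c.totient) * g c with hu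
  have hu0 : ∀ c, 0 ≤ u c := fun c => mul_nonneg (by positivity) (hg0 c)
  have hS : ∀ M, ∑ c ∈ Icc 1 M, u c ≤ ((M : ℝ) ^ 2 + Real.pi * N) * B := by
    intro M
    have h1 := mult_ls M 0 N a
    simp only [hu, hg, hT]
    exact h1
  have hS' : ∀ M, D ≤ M → ∑ c ∈ Ioc D M, u c ≤ ((M : ℝ) ^ 2 + Real.pi * N) * B := by
    intro M _
    refine (Finset.sum_le_sum_of_subset_of_nonneg ?_ fun c _ _ => hu0 c).trans (hS M)
    intro c hc
    rw [Finset.mem_Ioc] at hc
    rw [Finset.mem_Icc]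
    omega
  have hterm : ∀ c ∈ Ioc D (2 * Q), (1 / (c.totient : ℝ)) * g c = u c / c := by
    intro c hc
    rw [Finset.mem_Ioc] at hc
    have hc0 : (c : ℝ) ≠ 0 := by
      have : c ≠ 0 := by omega
      exact_mod_cast this
    have hφ : (c.totient : ℝ) ≠ 0 := by
      have : 0 < c.totient := Nat.totient_pos.2 (by omega)
      positivity
    simp only [hu]
    field_simp
  rw [Finset.sum_congr rfl hterm]
  have hpi := Real.pi_pos
  have hpi4 := Real.pi_le_four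
  have hR0 : 0 ≤ 8 * ((N : ℝ) / D + Q) * N * (1 + Real.log N) ^ 2 := by positivity
  by_cases hDQ : D ≤ 2 * Q
  · have h1 := chC_abel u B (Real.pi * N) hB0 (by positivity) D hS' (2 * Q) hDQ
    have h2 := hS' (2 * Q) hDQ
    push_cast at h1 h2
    have hM1 : (0 : ℝ) < 2 * (Q : ℝ) + 1 := by positivity
    have hDQ' : (D : ℝ) ≤ 2 * Q := by exact_mod_cast hDQ
    have h3 : (∑ c ∈ Ioc D (2 * Q), u c) / (2 * (Q : ℝ) + 1) ≤
        2 * Q * B + Real.pi * (N / D) * B := by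
      rw [div_le_iff₀ hM1]
      have h4 : (N : ℝ) ≤ N / D * (2 * Q + 1) := by
        rw [div_mul_eq_mul_div, le_div_iff₀ (by linarith)]
        nlinarith only [hDQ']
      have h5 : Real.pi * N * B ≤ Real.pi * (N / D * (2 * Q + 1)) * B := by
        gcongr
      have h6 : (2 * (Q : ℝ)) ^ 2 * B ≤ 2 * Q * B * (2 * Q + 1) := by
        have : 0 ≤ 2 * (Q : ℝ) * B := by positivity
        nlinarith only [this]
      nlinarith only [h2, h5, h6]
    have h7 : B * (2 * (Q : ℝ) - D) ≤ 2 * Q * B := by nlinarith only [hB0]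
    have h8 : Real.pi * N * B * (1 / ((D : ℝ) + 1) - 1 / (2 * Q + 1)) ≤
        Real.pi * (N / D) * B := by
      have h9 : 1 / ((D : ℝ) + 1) - 1 / (2 * Q + 1) ≤ 1 / D := by
        have h10 : 1 / ((D : ℝ) + 1) ≤ 1 / D := one_div_le_one_div_of_le (by linarith) (by linarith)
        have h11 : 0 ≤ 1 / (2 * (Q : ℝ) + 1) := by positivity
        linarith
      calc Real.pi * N * B * (1 / ((D : ℝ) + 1) - 1 / (2 * Q + 1))
          ≤ Real.pi * N * B * (1 / D) := mul_le_mul_of_nonneg_left h9 (by positivity)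
        _ = Real.pi * (N / D) * B := by ring
    have h12 : Real.pi * ((N : ℝ) / D) * B ≤ 4 * (N / D) * B := by
      gcongr
    have h13 : ∑ c ∈ Ioc D (2 * Q), u c / c ≤ 8 * ((N : ℝ) / D + Q) * B := by
      have h14 : 8 * ((N : ℝ) / D + Q) * B = 8 * (N / D) * B + 8 * (Q * B) := by ring
      have h15 : 0 ≤ (Q : ℝ) * B := by positivity
      rw [h14]
      linarith
    refine h13.trans ?_
    have h16 : 0 ≤ 8 * ((N : ℝ) / D + Q) := by positivity
    calc 8 * ((N : ℝ) / D + Q) * B ≤ 8 * ((N : ℝ) / D + Q) * (N * (1 + Real.log N) ^ 2) :=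
          mul_le_mul_of_nonneg_left hB1 h16
      _ = 8 * ((N : ℝ) / D + Q) * N * (1 + Real.log N) ^ 2 := by ring
  · rw [Finset.Ioc_eq_empty (by omega), Finset.sum_empty]
    exact hR0

end Pool.Agent.H91.EHA

end

section

/-!
# IS MerB: the size of tau

A0 x = ∏_{p ≤ z0} (1 - 1/p) ≍ 1/log z0 = (loglog x)^2/log x, so tau x = A0 x · log x ≍ (loglog x)^2.
(upper bound of A0: ∏_{p≤z}(1-1/p)^{-1} ≥ ∑_{n≤z} 1/n ≥ log z; lower bound: Mertens' second theorem.  Any finished file of the pool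
may be used, e.g. `Pool.Agent.H91.Gold.mertens_wz`, `Pool.Agent.H91.PK.prod_65536`, `mertens_lower`, `Pool.Agent.H10.GoldLoc.Mertens`.)
For large x: 1 < z0 x ≤ x, and PA x is the set of all primes ≤ ⌊z0 x⌋.
-/

set_option autoImplicit false

namespace Pool.Agent.H36.IS

open Finset Filter

private theorem MerB_telescope (n : ℕ) :
    ∑ k ∈ Ico 2 (n + 2), (1 : ℝ) / (k * (k - 1)) = 1 - 1 / ((n : ℝ) + 1) := by
  induction n with
  | zero => simp
  | succ n ih =>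
    rw [Finset.sum_Ico_succ_top (by omega), ih]
    have h1 : (n : ℝ) + 1 ≠ 0 := by positivity
    have h2 : (n : ℝ) + 2 ≠ 0 := by positivity
    have h3 : (n : ℝ) + 1 + 1 ≠ 0 := by positivity
    push_cast
    have h4 : (n : ℝ) + 2 - 1 = n + 1 := by ring
    rw [h4]
    field_simp
    ring

private theorem MerB_sum_le (z : ℕ) :
    ∑ p ∈ H10.GoldLoc.PP 0 z, (1 : ℝ) / (p * (p - 1)) ≤ 1 := by
  have h1 : H10.GoldLoc.PP 0 z ⊆ Ico 2 (z + 2) := by
    intro p hp
    rw [H10.GoldLoc.mem_PP] at hp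
    rw [mem_Ico]
    exact ⟨hp.2.2.two_le, by omega⟩
  calc ∑ p ∈ H10.GoldLoc.PP 0 z, (1 : ℝ) / (p * (p - 1))
      ≤ ∑ p ∈ Ico 2 (z + 2), (1 : ℝ) / (p * (p - 1)) := by
        apply Finset.sum_le_sum_of_subset_of_nonneg h1
        intro p hp _
        rw [mem_Ico] at hp
        have : (2 : ℝ) ≤ p := by exact_mod_cast hp.1
        apply div_nonneg zero_le_one
        exact mul_nonneg (by linarith) (by linarith)
    _ = 1 - 1 / ((z : ℝ) + 1) := MerB_telescope z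
    _ ≤ 1 := by
        have : (0 : ℝ) ≤ 1 / ((z : ℝ) + 1) := by positivity
        linarith

/-- The lower bound for one factor. -/
private theorem MerB_factor {p : ℕ} (hp : 2 ≤ p) :
    Real.exp (-(1 / (p : ℝ) + 1 / ((p : ℝ) * (p - 1)))) ≤ 1 - 1 / (p : ℝ) := by
  have h2 : (2 : ℝ) ≤ p := by exact_mod_cast hp
  have h0 : (0 : ℝ) < p := by linarith
  have h1 : (0 : ℝ) < (p : ℝ) - 1 := by linarith
  have h3 : 1 / (p : ℝ) + 1 / ((p : ℝ) * (p - 1)) = 1 / ((p : ℝ) - 1) := by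
    field_simp
    ring
  rw [h3]
  have h4 : 1 + 1 / ((p : ℝ) - 1) ≤ Real.exp (1 / ((p : ℝ) - 1)) := by
    have := Real.add_one_le_exp (1 / ((p : ℝ) - 1))
    linarith
  have h5 : 1 + 1 / ((p : ℝ) - 1) = ((1 - 1 / (p : ℝ)))⁻¹ := by
    have : 1 - 1 / (p : ℝ) = (p - 1) / p := by field_simp
    rw [this, inv_div]
    field_simp
    ring
  rw [h5] at h4
  have h6 : 0 < 1 - 1 / (p : ℝ) := by
    have : 1 / (p : ℝ) ≤ 1 / 2 := by
      rw [div_le_div_iff₀ h0 (by norm_num)]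
      linarith
    linarith
  rw [Real.exp_neg]
  exact inv_le_of_inv_le₀ h6 h4

private theorem MerB_lower : ∃ c : ℝ, 0 < c ∧ ∀ z : ℕ, 1024 ≤ z →
    c / Real.log z ≤ ∏ p ∈ H10.GoldLoc.PP 0 z, (1 - 1 / (p : ℝ)) := by
  obtain ⟨C, hC, hM⟩ := H10.GoldLoc.exists_mertens
  refine ⟨Real.exp (-(C + 1)), Real.exp_pos _, fun z hz => ?_⟩
  have hz1 : (1024 : ℝ) ≤ z := by exact_mod_cast hz
  have hlz : 0 < Real.log z := Real.log_pos (by linarith)
  calc Real.exp (-(C + 1)) / Real.log z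
      = Real.exp (-(Real.log (Real.log z) + C + 1)) := by
        rw [show -(Real.log (Real.log z) + C + 1) = -(C + 1) - Real.log (Real.log z) by ring,
          Real.exp_sub, Real.exp_log hlz]
    _ ≤ Real.exp (∑ p ∈ H10.GoldLoc.PP 0 z, (-(1 / (p : ℝ) + 1 / ((p : ℝ) * (p - 1))))) := by
        rw [Real.exp_le_exp, Finset.sum_neg_distrib, Finset.sum_add_distrib]
        have h1 := hM z hz
        have h2 := MerB_sum_le z
        linarith
    _ = ∏ p ∈ H10.GoldLoc.PP 0 z, Real.exp (-(1 / (p : ℝ) + 1 / ((p : ℝ) * (p - 1)))) :=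
        Real.exp_sum _ _
    _ ≤ ∏ p ∈ H10.GoldLoc.PP 0 z, (1 - 1 / (p : ℝ)) := by
        apply Finset.prod_le_prod
        · intro p _
          exact (Real.exp_pos _).le
        · intro p hp
          rw [H10.GoldLoc.mem_PP] at hp
          exact MerB_factor hp.2.2.two_le

theorem tau_bounds : ∃ c C : ℝ, 0 < c ∧ 0 < C ∧ ∀ᶠ x : ℕ in atTop,
    c * Real.log (Real.log x) ^ 2 ≤ tau x ∧ tau x ≤ C * Real.log (Real.log x) ^ 2 := by
  obtain ⟨c, hc, hlow⟩ := MerB_lower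
  refine ⟨c, 2, hc, by norm_num, ?_⟩
  have hL : Tendsto (fun x : ℕ => Real.log (x : ℝ)) atTop atTop :=
    Real.tendsto_log_atTop.comp tendsto_natCast_atTop_atTop
  have hl : Tendsto (fun x : ℕ => Real.log (Real.log (x : ℝ))) atTop atTop :=
    Real.tendsto_log_atTop.comp hL
  have ho : ∀ᶠ L : ℝ in atTop, ‖Real.log L ^ 2‖ ≤ (1 / 8) * ‖L‖ :=
    (Real.isLittleO_pow_log_id_atTop (n := 2)).def (by norm_num)
  filter_upwards [hL.eventually ho, hL.eventually_ge_atTop 1, hl.eventually_ge_atTop 1,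
    eventually_ge_atTop 1] with x h1 h2 h3 h4
  set L : ℝ := Real.log x with hLdef
  set l : ℝ := Real.log L with hldef
  have hL0 : 0 < L := by linarith
  have hl2 : 0 < l ^ 2 := by positivity
  have h5 : l ^ 2 ≤ (1 / 8) * L := by
    rw [Real.norm_of_nonneg hl2.le, Real.norm_of_nonneg hL0.le] at h1
    exact h1
  have hx0 : (0 : ℝ) < x := by exact_mod_cast h4
  have h6 : 8 ≤ L / l ^ 2 := by
    rw [le_div_iff₀ hl2]
    linarith
  have h7 : L / l ^ 2 ≤ L := by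
    rw [div_le_iff₀ hl2]
    have h1l : 1 ≤ l ^ 2 := by nlinarith
    have := mul_le_mul_of_nonneg_left h1l hL0.le
    linarith
  have hz0 : z0 x = Real.exp (L / l ^ 2) := rfl
  have hz0x : z0 x ≤ x := by
    rw [hz0]
    calc Real.exp (L / l ^ 2) ≤ Real.exp L := Real.exp_le_exp.mpr h7
      _ = x := Real.exp_log hx0
  have he8 : (2000 : ℝ) ≤ z0 x := by
    rw [hz0]
    have h8 : Real.exp 8 ≤ Real.exp (L / l ^ 2) := Real.exp_le_exp.mpr h6
    have h9 : Real.exp 8 = Real.exp 1 ^ 8 := by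
      rw [← Real.exp_nat_mul]
      norm_num
    have h10 : (2.7 : ℝ) ≤ Real.exp 1 := by
      have := Real.exp_one_gt_d9
      linarith
    have h11 : (2.7 : ℝ) ^ 8 ≤ Real.exp 1 ^ 8 := pow_le_pow_left₀ (by norm_num) h10 8
    have h12 : (2000 : ℝ) ≤ 2.7 ^ 8 := by norm_num
    linarith
  set z : ℕ := ⌊z0 x⌋₊ with hz
  have hzle : (z : ℝ) ≤ z0 x := Nat.floor_le (by linarith)
  have hzgt : z0 x < z + 1 := Nat.lt_floor_add_one _
  have hz1024 : 1024 ≤ z := by
    have : (1024 : ℝ) ≤ z := by linarith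
    exact_mod_cast this
  have hzR : (1024 : ℝ) ≤ z := by exact_mod_cast hz1024
  have hPA : PA x = H10.GoldLoc.PP 0 z := by
    ext p
    unfold PA
    rw [mem_filter, mem_range, H10.GoldLoc.mem_PP]
    constructor
    · rintro ⟨_, hp, hpz⟩
      exact ⟨hp.pos, Nat.le_floor hpz, hp⟩
    · rintro ⟨_, hpz, hp⟩
      have h13 : (p : ℝ) ≤ z0 x := le_trans (by exact_mod_cast hpz) hzle
      refine ⟨?_, hp, h13⟩
      have : (p : ℝ) ≤ x := h13.trans hz0x
      have : p ≤ x := by exact_mod_cast this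
      omega
  have hlogz0 : Real.log (z0 x) = L / l ^ 2 := by
    rw [hz0, Real.log_exp]
  have hlz : 0 < Real.log z := Real.log_pos (by linarith)
  have hlz1 : Real.log z ≤ L / l ^ 2 := by
    rw [← hlogz0]
    exact Real.log_le_log (by linarith) hzle
  have hlz2 : (L / l ^ 2) / 2 ≤ Real.log z := by
    have h14 : Real.log (z0 x / 2) ≤ Real.log z := by
      apply Real.log_le_log (by linarith)
      linarith
    rw [Real.log_div (by linarith) (by norm_num), hlogz0] at h14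
    have h15 : Real.log 2 ≤ 1 := by
      have := Real.log_two_lt_d9
      linarith
    linarith
  have hA0 : A0 x = ∏ p ∈ H10.GoldLoc.PP 0 z, (1 - 1 / (p : ℝ)) := by
    unfold A0
    rw [hPA]
  have hup : A0 x ≤ 1 / Real.log z := by
    rw [hA0]
    exact H10.GoldLoc.prod_le_inv_log (by omega)
  have hlo : c / Real.log z ≤ A0 x := by
    rw [hA0]
    exact hlow z hz1024
  have htau : tau x = A0 x * L := rfl
  rw [htau]
  constructor
  · have h16 : c * l ^ 2 / L ≤ c / Real.log z := by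
      rw [div_le_div_iff₀ hL0 hlz]
      have h17 : Real.log z * l ^ 2 ≤ L := by
        rwa [le_div_iff₀ hl2] at hlz1
      nlinarith
    have h18 : c * l ^ 2 / L ≤ A0 x := h16.trans hlo
    rw [div_le_iff₀ hL0] at h18
    exact h18
  · have h19 : 1 / Real.log z ≤ 2 * l ^ 2 / L := by
      rw [div_le_div_iff₀ hlz hL0]
      have h20 : L ≤ 2 * Real.log z * l ^ 2 := by
        have h21 : L / l ^ 2 ≤ 2 * Real.log z := by linarith
        rwa [div_le_iff₀ hl2] at h21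
      linarith
    have h22 : A0 x ≤ 2 * l ^ 2 / L := hup.trans h19
    rwa [le_div_iff₀ hL0] at h22

end Pool.Agent.H36.IS

end
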