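import Mathlib

/-! The parts of this file: H56.GX.Defs, H56.GX.VEq, H56.GX.MzB, H56.GX.Gau, H56.GX.SMCont, H56.GX.ZLeft, H82.GY.JBu, H82.GY.Defs, H82.GY.Dir, H82.GY.WEner, H56.GX.DiffB, H56.GX.Simple, H56.GX.ZRefl, H56.GX.Contour, H56.GX.RectA, H56.GX.RectB, H56.GX.SMLine, H56.GX.Good, H56.GX.JB, H82.GY.Sel, H82.GY.WinY, H56.GX.SMSmall. -/

section

/-!
Project GX (MP_0575cc_nt): the Good-Churchhouse law fails for windows `H = o(X)`.
Common definitions.
-/

set_option autoImplicit false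

namespace Pool.Agent.H56.GX

open MeasureTheory Set Complex

/-- `M x H` is the sum of `μ(n)` over the integers `n` with `|n - x| < H / 2`
(written exactly as in the frozen statement S15903). -/
noncomputable def M (x H : ℝ) : ℝ :=
  ∑ n ∈ (Finset.range (⌈x + H⌉₊ + 1)).filter (fun n : ℕ => |(n : ℝ) - x| < H / 2),
    ((ArithmeticFunction.moebius n : ℤ) : ℝ)

/-- The variance `V(X;H) = (1/X) ∫_X^{2X} M(x;H)^2 dx`. -/
noncomputable def V (X H : ℝ) : ℝ := (1 / X) * ∫ x in X..2 * X, (M x H) ^ 2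

/-- The summatory function `∑_{n ≤ x} μ(n)` (zero for `x < 1`). -/
noncomputable def Mz (x : ℝ) : ℝ :=
  ∑ n ∈ Finset.Icc 1 ⌊x⌋₊, ((ArithmeticFunction.moebius n : ℤ) : ℝ)

/-- The Mellin transform `∫_1^∞ Mz(x) x^{-s-1} dx`, equal to `1 / (s ζ(s))` for `Re s > 1`. -/
noncomputable def F (s : ℂ) : ℂ := ∫ x in Ioi (1 : ℝ), (Mz x : ℂ) * (x : ℂ) ^ (-s - 1)

/-- The Gaussian weight `exp (η² (s - 1/2)² / 2)`. -/
noncomputable def K (η : ℝ) (s : ℂ) : ℂ := Complex.exp ((η : ℂ) ^ 2 * (s - 1 / 2) ^ 2 / 2)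

/-- The Gaussian density of standard deviation `η`. -/
noncomputable def gk (η v : ℝ) : ℝ :=
  (η * Real.sqrt (2 * Real.pi))⁻¹ * Real.exp (-(v ^ 2) / (2 * η ^ 2))

/-- The smoothed summatory function. -/
noncomputable def SM (η x : ℝ) : ℝ :=
  ∫ v : ℝ, Mz (x * Real.exp (-v)) * Real.exp (v / 2) * gk η v

/-- The integral on the line `Re s = -1/2`. -/
noncomputable def J (η x : ℝ) : ℂ :=
  (2 * Real.pi : ℂ)⁻¹ * ∫ t : ℝ, K η (-(1 / 2) + t * I) * (x : ℂ) ^ (-(1 / 2) + t * I : ℂ) *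
    ((-(1 / 2) + t * I) * riemannZeta (-(1 / 2) + t * I))⁻¹

/-- The ordinates of the zeros of `ζ` on the critical line. -/
def Zr : Set ℝ := {γ : ℝ | riemannZeta (1 / 2 + γ * I) = 0}

/-- The residue of `1 / (s ζ(s))` at `1/2 + iγ` (for a simple zero). -/
noncomputable def r (γ : ℝ) : ℂ := ((1 / 2 + γ * I) * deriv riemannZeta (1 / 2 + γ * I))⁻¹

/-- The coefficients of the smoothed explicit formula. -/
noncomputable def a (η γ : ℝ) : ℂ := K η (1 / 2 + γ * I) * r γ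

end Pool.Agent.H56.GX

end

section

/-!
GX module VEq.

For `0 < H ≤ X` the window sum `M x H` is `Mz (x + H/2) - Mz (x - H/2)` for all `x ∈ [X, 2X]` except
those with `x + H/2 ∈ ℤ` (a countable set): both are sums of `μ(n)`, over `x - H/2 < n < x + H/2`
and over `x - H/2 < n ≤ x + H/2` (note `x - H/2 ≥ X/2 > 0`, `μ(0) = 0`).

Proof. Put `f n = μ(n)`. `Mz (x+H/2) - Mz (x-H/2) = ∑_{⌊x-H/2⌋₊ < n ≤ ⌊x+H/2⌋₊} f n`
(`Finset.Icc`/`Finset.Ioc` splitting), and `n ≤ ⌊y⌋₊ ↔ n ≤ y` (`Nat.le_floor_iff`) for `y ≥ 0`. The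
filter in `M` is `{n ≤ ⌈x+H⌉₊ : |n - x| < H/2}`; the condition `n ≤ ⌈x+H⌉₊` is automatic.
The countable exceptional set is null: `Set.Countable.ae_notMem` (the image of `ℕ` or `ℤ` under
`n ↦ n - H/2`), then `intervalIntegral.integral_congr_ae`.
-/

set_option autoImplicit false

namespace Pool.Agent.H56.GX

open MeasureTheory Set Complex Filter Topology

theorem M_eq_Mz (x H : ℝ) (hH : 0 < H) (hx : H ≤ x) (hn : ∀ n : ℕ, x + H / 2 ≠ n) :
    M x H = Mz (x + H / 2) - Mz (x - H / 2) := by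
  have h0 : 0 ≤ x - H / 2 := by linarith
  have h1 : 0 ≤ x + H / 2 := by linarith
  have hab : ⌊x - H / 2⌋₊ ≤ ⌊x + H / 2⌋₊ := Nat.floor_le_floor (by linarith)
  have hS : (Finset.range (⌈x + H⌉₊ + 1)).filter (fun n : ℕ => |(n : ℝ) - x| < H / 2)
      = Finset.Ioc ⌊x - H / 2⌋₊ ⌊x + H / 2⌋₊ := by
    ext n
    rw [Finset.mem_filter, Finset.mem_range, Finset.mem_Ioc, Nat.floor_lt h0, Nat.le_floor_iff h1,
      abs_lt, Nat.lt_succ_iff]
    constructor
    · rintro ⟨_, h3, h4⟩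
      constructor <;> linarith
    · rintro ⟨h3, h4⟩
      have h5 : (n : ℝ) < x + H / 2 := lt_of_le_of_ne h4 (fun h => hn n h.symm)
      refine ⟨?_, by linarith, by linarith⟩
      have h6 : (n : ℝ) ≤ x + H := by linarith
      exact_mod_cast h6.trans (Nat.le_ceil _)
  have hU : Finset.Icc 1 ⌊x + H / 2⌋₊
      = Finset.Icc 1 ⌊x - H / 2⌋₊ ∪ Finset.Ioc ⌊x - H / 2⌋₊ ⌊x + H / 2⌋₊ := by
    ext n
    rw [Finset.mem_union, Finset.mem_Icc, Finset.mem_Icc, Finset.mem_Ioc]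
    omega
  have hD : Disjoint (Finset.Icc 1 ⌊x - H / 2⌋₊) (Finset.Ioc ⌊x - H / 2⌋₊ ⌊x + H / 2⌋₊) := by
    rw [Finset.disjoint_left]
    intro n h3 h4
    rw [Finset.mem_Icc] at h3
    rw [Finset.mem_Ioc] at h4
    omega
  unfold M Mz
  rw [hS, hU, Finset.sum_union hD]
  ring

theorem V_eq (X H : ℝ) (hX : 0 < X) (hH : 0 < H) (hHX : H ≤ X) :
    V X H = (1 / X) * ∫ x in X..2 * X, (Mz (x + H / 2) - Mz (x - H / 2)) ^ 2 := by
  unfold V
  congr 1
  apply intervalIntegral.integral_congr_ae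
  have hc : (Set.range (fun n : ℕ => (n : ℝ) - H / 2)).Countable := Set.countable_range _
  filter_upwards [hc.ae_notMem volume] with x hx hx2
  rw [Set.uIoc_of_le (by linarith)] at hx2
  rw [M_eq_Mz x H hH (hHX.trans hx2.1.le)]
  intro n h
  exact hx ⟨n, by show (n : ℝ) - H / 2 = x; linarith⟩

end Pool.Agent.H56.GX

end

section

/-!
GX module MzB: elementary facts about `Mz`.

`Mz` is measurable: it is the composition of the (measurable) `Nat.floor` with a function `ℕ → ℝ`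
(`measurable_from_nat` / `measurable_from_top`, `Nat.measurable_floor`).
`|Mz x| ≤ ⌊x⌋₊ ≤ x` for `x ≥ 0` (`|μ| ≤ 1`, `ArithmeticFunction.abs_moebius_le_one`), `Mz x = 0` for
`x < 1`, `Mz x = 1` for `1 ≤ x < 2`.
Interval integrability on every interval of functions dominated by a continuous function: bounded
measurable functions on bounded intervals are integrable.
-/

set_option autoImplicit false

namespace Pool.Agent.H56.GX

open MeasureTheory Set Complex Filter Topology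

theorem Mz_measurable : Measurable Mz := by
  have h : Mz = (fun n : ℕ => ∑ k ∈ Finset.Icc 1 n, ((ArithmeticFunction.moebius k : ℤ) : ℝ)) ∘
      fun x : ℝ => ⌊x⌋₊ := rfl
  rw [h]
  exact (measurable_from_nat).comp Nat.measurable_floor

theorem Mz_abs_le (x : ℝ) (hx : 0 ≤ x) : |Mz x| ≤ x := by
  unfold Mz
  refine le_trans (Finset.abs_sum_le_sum_abs _ _) ?_
  refine le_trans (Finset.sum_le_card_nsmul _ _ 1 fun n _ => ?_) ?_
  · exact_mod_cast ArithmeticFunction.abs_moebius_le_one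
  · rw [Nat.card_Icc, Nat.add_sub_cancel, nsmul_eq_mul, mul_one]
    exact Nat.floor_le hx

theorem Mz_lt_one (x : ℝ) (hx : x < 1) : Mz x = 0 := by
  unfold Mz
  rw [Nat.floor_eq_zero.2 hx]
  simp

/-- valid for all real `x` -/
theorem Mz_abs_le' (x : ℝ) : |Mz x| ≤ |x| := by
  rcases le_or_gt 0 x with h | h
  · rw [abs_of_nonneg h]
    exact Mz_abs_le x h
  · rw [Mz_lt_one x (by linarith), abs_zero]
    exact abs_nonneg x

theorem Mz_lt_two (x : ℝ) (hx1 : 1 ≤ x) (hx : x < 2) : Mz x = 1 := by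
  unfold Mz
  have h : ⌊x⌋₊ = 1 := by
    rw [Nat.floor_eq_iff (by linarith)]
    norm_num
    exact ⟨hx1, hx⟩
  rw [h]
  simp

theorem Mz_sq_intervalIntegrable (a b : ℝ) :
    IntervalIntegrable (fun x => (Mz x) ^ 2) volume a b := by
  have hg : IntervalIntegrable (fun x : ℝ => x ^ 2) volume a b :=
    (continuous_pow 2).intervalIntegrable a b
  refine hg.mono_fun' (Mz_measurable.pow_const 2).aestronglyMeasurable ?_
  refine Filter.Eventually.of_forall fun x => ?_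
  simp only
  rw [Real.norm_of_nonneg (sq_nonneg _)]
  exact sq_le_sq.2 (Mz_abs_le' x)

theorem Mz_diff_sq_intervalIntegrable (a b p q : ℝ) :
    IntervalIntegrable (fun x => (Mz (x + p) - Mz (x + q)) ^ 2) volume a b := by
  have hg : IntervalIntegrable (fun x : ℝ => (|x + p| + |x + q|) ^ 2) volume a b :=
    Continuous.intervalIntegrable (by fun_prop) a b
  have hm : Measurable fun x : ℝ => (Mz (x + p) - Mz (x + q)) ^ 2 :=
    ((Mz_measurable.comp (measurable_id.add_const p)).sub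
      (Mz_measurable.comp (measurable_id.add_const q))).pow_const 2
  refine hg.mono_fun' hm.aestronglyMeasurable ?_
  refine Filter.Eventually.of_forall fun x => ?_
  simp only
  rw [Real.norm_of_nonneg (sq_nonneg _)]
  refine sq_le_sq.2 ?_
  rw [abs_of_nonneg (show 0 ≤ |x + p| + |x + q| by positivity)]
  refine le_trans (abs_sub _ _) ?_
  exact add_le_add (Mz_abs_le' _) (Mz_abs_le' _)

end Pool.Agent.H56.GX

end

section

/-!
GX module Gau: the Gaussian weights `gk` and `K`.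

(1) `gk η` is positive, continuous, integrable with integral `1` (`integral_gaussian`).
(2) moments: `∫ |v|^k e^{2|v|} gk η v dv ≤ C_k η^k` for `0 < η ≤ 1`: substitute `v = η w`
(`Measure.integral_comp_mul_left`): `= η^k ∫ |w|^k e^{2η|w|} gk 1 w dw ≤ η^k ∫ |w|^k e^{2|w|} gk 1 w dw`.
(3) `‖K η (σ+it)‖ = exp(η² ((σ-1/2)² - t²)/2)`.
(4) `K η` is entire, and the inverse transform: for real `w` and `σ`,
`(1/2π) ∫ K η (σ + it) e^{(σ+it) w} dt = e^{w/2} gk η w` (`0 < η`). Proof: it is a Gaussian integral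
`integral_cexp_quadratic` (in Mathlib/Analysis/SpecialFunctions/Gaussian/FourierTransform.lean):
with `b = -η²/2`, `c = i (η² (σ-1/2) + w)`, `d = η² (σ-1/2)²/2 + σ w`; the value is
`(2π/η²)^{1/2} exp(d - c²/(4b))`, and `-c²/(4b) = -(η²(σ-1/2)+w)²/(2η²)`, `d - c²/(4b) = w/2 - w²/(2η²)`.
-/

set_option autoImplicit false

namespace Pool.Agent.H56.GX

open MeasureTheory Set Complex Filter Topology

theorem gk_pos (η : ℝ) (hη : 0 < η) (v : ℝ) : 0 < gk η v := by
  unfold gk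
  positivity

theorem gk_continuous (η : ℝ) : Continuous (gk η) := by
  unfold gk
  fun_prop

private theorem Gau_eq (η : ℝ) (v : ℝ) :
    gk η v = (η * Real.sqrt (2 * Real.pi))⁻¹ * Real.exp (-(1 / (2 * η ^ 2)) * v ^ 2) := by
  unfold gk
  congr 2
  ring

theorem gk_integrable (η : ℝ) (hη : 0 < η) : Integrable (gk η) := by
  have h : Integrable (fun v : ℝ => (η * Real.sqrt (2 * Real.pi))⁻¹ *
      Real.exp (-(1 / (2 * η ^ 2)) * v ^ 2)) :=
    (integrable_exp_neg_mul_sq (by positivity)).const_mul _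
  have e : gk η = fun v : ℝ => (η * Real.sqrt (2 * Real.pi))⁻¹ *
      Real.exp (-(1 / (2 * η ^ 2)) * v ^ 2) := funext (Gau_eq η)
  rw [e]
  exact h

private theorem Gau_sqrt (η : ℝ) (hη : 0 < η) :
    Real.sqrt (Real.pi / (1 / (2 * η ^ 2))) = η * Real.sqrt (2 * Real.pi) := by
  rw [show Real.pi / (1 / (2 * η ^ 2)) = η ^ 2 * (2 * Real.pi) by field_simp,
    Real.sqrt_mul (by positivity), Real.sqrt_sq hη.le]

theorem gk_integral (η : ℝ) (hη : 0 < η) : ∫ v : ℝ, gk η v = 1 := by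
  simp only [Gau_eq]
  rw [integral_const_mul, integral_gaussian, Gau_sqrt η hη]
  have : η * Real.sqrt (2 * Real.pi) ≠ 0 := by positivity
  field_simp

theorem gk_neg (η v : ℝ) : gk η (-v) = gk η v := by
  unfold gk
  rw [neg_sq]

/-- `gk` is even and decreasing in `|v|` -/
theorem gk_anti (η : ℝ) (hη : 0 < η) (v w : ℝ) (h : |v| ≤ |w|) : gk η w ≤ gk η v := by
  unfold gk
  apply mul_le_mul_of_nonneg_left _ (by positivity)
  apply Real.exp_le_exp.2
  apply div_le_div_of_nonneg_right _ (by positivity)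
  have := sq_le_sq.2 h
  linarith

private theorem Gau_bound (k : ℕ) (η : ℝ) (hη : 0 < η) (hη1 : η ≤ 1) (v : ℝ) :
    |v| ^ k * Real.exp (2 * |v|) * gk η v ≤
      η ^ k * (k.factorial * Real.exp 9) * (η * Real.sqrt (2 * Real.pi))⁻¹ *
        Real.exp (-(1 / (4 * η ^ 2)) * v ^ 2) := by
  set t : ℝ := |v| / η with ht
  have ht0 : 0 ≤ t := by positivity
  have hv : |v| = η * t := by
    rw [ht]
    field_simp
  have hvt : |v| ≤ t := by
    rw [hv]
    nlinarith
  have h1 : |v| ^ k ≤ η ^ k * (k.factorial * Real.exp t) := by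
    rw [hv, mul_pow]
    apply mul_le_mul_of_nonneg_left _ (by positivity)
    have h2 := Real.pow_div_factorial_le_exp t ht0 k
    rw [div_le_iff₀ (by positivity)] at h2
    linarith
  have h2 : Real.exp (2 * |v|) ≤ Real.exp (2 * t) := Real.exp_le_exp.2 (by linarith)
  have h3 : v ^ 2 = η ^ 2 * t ^ 2 := by
    rw [← sq_abs v, hv]
    ring
  have h4 : Real.exp (-(1 / (2 * η ^ 2)) * v ^ 2) = Real.exp (-(t ^ 2) / 2) := by
    congr 1
    rw [h3]
    field_simp
  have h5 : Real.exp (-(1 / (4 * η ^ 2)) * v ^ 2) = Real.exp (-(t ^ 2) / 4) := by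
    congr 1
    rw [h3]
    field_simp
  rw [Gau_eq, h4, h5]
  have h6 : Real.exp t * Real.exp (2 * t) * Real.exp (-(t ^ 2) / 2) ≤
      Real.exp 9 * Real.exp (-(t ^ 2) / 4) := by
    rw [← Real.exp_add, ← Real.exp_add, ← Real.exp_add, Real.exp_le_exp]
    nlinarith [sq_nonneg (t - 6)]
  calc |v| ^ k * Real.exp (2 * |v|) * ((η * Real.sqrt (2 * Real.pi))⁻¹ *
        Real.exp (-(t ^ 2) / 2))
      ≤ (η ^ k * (k.factorial * Real.exp t)) * Real.exp (2 * t) *
        ((η * Real.sqrt (2 * Real.pi))⁻¹ * Real.exp (-(t ^ 2) / 2)) := by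
        apply mul_le_mul_of_nonneg_right _ (by positivity)
        exact mul_le_mul h1 h2 (by positivity) (by positivity)
    _ = (η ^ k * k.factorial * (η * Real.sqrt (2 * Real.pi))⁻¹) *
        (Real.exp t * Real.exp (2 * t) * Real.exp (-(t ^ 2) / 2)) := by ring
    _ ≤ (η ^ k * k.factorial * (η * Real.sqrt (2 * Real.pi))⁻¹) *
        (Real.exp 9 * Real.exp (-(t ^ 2) / 4)) := by
        apply mul_le_mul_of_nonneg_left h6 (by positivity)
    _ = _ := by ring

theorem gk_moment (k : ℕ) : ∃ C : ℝ, 0 < C ∧ ∀ η : ℝ, 0 < η → η ≤ 1 →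
    Integrable (fun v : ℝ => |v| ^ k * Real.exp (2 * |v|) * gk η v) ∧
      ∫ v : ℝ, |v| ^ k * Real.exp (2 * |v|) * gk η v ≤ C * η ^ k := by
  refine ⟨(k.factorial * Real.exp 9) * Real.sqrt 2, by positivity, fun η hη hη1 => ?_⟩
  have hdom : Integrable (fun v : ℝ => η ^ k * (k.factorial * Real.exp 9) *
      (η * Real.sqrt (2 * Real.pi))⁻¹ * Real.exp (-(1 / (4 * η ^ 2)) * v ^ 2)) :=
    (integrable_exp_neg_mul_sq (by positivity)).const_mul _
  have hint : Integrable (fun v : ℝ => |v| ^ k * Real.exp (2 * |v|) * gk η v) := by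
    refine hdom.mono' ?_ (Filter.Eventually.of_forall fun v => ?_)
    · apply Continuous.aestronglyMeasurable
      have := gk_continuous η
      fun_prop
    · rw [Real.norm_eq_abs, abs_of_nonneg]
      · exact Gau_bound k η hη hη1 v
      · exact mul_nonneg (by positivity) (gk_pos η hη v).le
  refine ⟨hint, ?_⟩
  refine (integral_mono hint hdom (fun v => Gau_bound k η hη hη1 v)).trans ?_
  rw [integral_const_mul, integral_gaussian]
  have h1 : Real.sqrt (Real.pi / (1 / (4 * η ^ 2))) = η * (Real.sqrt (2 * Real.pi) * Real.sqrt 2) := by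
    rw [show Real.pi / (1 / (4 * η ^ 2)) = η ^ 2 * ((2 * Real.pi) * 2) by field_simp; ring,
      Real.sqrt_mul (by positivity), Real.sqrt_sq hη.le, Real.sqrt_mul (by positivity)]
  rw [h1]
  have h2 : Real.sqrt (2 * Real.pi) ≠ 0 := by positivity
  apply le_of_eq
  field_simp

theorem K_norm (η σ t : ℝ) :
    ‖K η (σ + t * I)‖ = Real.exp (η ^ 2 * ((σ - 1 / 2) ^ 2 - t ^ 2) / 2) := by
  unfold K
  rw [Complex.norm_exp]
  congr 1
  have h : (η : ℂ) ^ 2 * ((σ : ℂ) + t * I - 1 / 2) ^ 2 / 2 =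
      ((η ^ 2 * ((σ - 1 / 2) ^ 2 - t ^ 2) / 2 : ℝ) : ℂ) + ((η ^ 2 * (σ - 1 / 2) * t : ℝ) : ℂ) * I := by
    push_cast
    linear_combination (η : ℂ) ^ 2 * (t : ℂ) ^ 2 / 2 * Complex.I_sq
  rw [h, Complex.add_re, Complex.ofReal_re, Complex.re_ofReal_mul, Complex.I_re]
  ring

theorem K_differentiable (η : ℝ) : Differentiable ℂ (K η) := by
  unfold K
  fun_prop

theorem K_inverse (η : ℝ) (hη : 0 < η) (σ w : ℝ) :
    (2 * Real.pi : ℂ)⁻¹ * ∫ t : ℝ, K η (σ + t * I) * Complex.exp ((σ + t * I) * w) =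
      ((Real.exp (w / 2) * gk η w : ℝ) : ℂ) := by
  have hηc : (η : ℂ) ≠ 0 := Complex.ofReal_ne_zero.2 hη.ne'
  have e1 : ∀ t : ℝ, K η (σ + t * I) * Complex.exp ((σ + t * I) * w) =
      Complex.exp (-((η : ℂ) ^ 2 / 2) * (t : ℂ) ^ 2 + (I * ((η : ℂ) ^ 2 * (σ - 1 / 2) + w)) * t +
        ((η : ℂ) ^ 2 * (σ - 1 / 2) ^ 2 / 2 + σ * w)) := by
    intro t
    unfold K
    rw [← Complex.exp_add]
    congr 1
    linear_combination (η : ℂ) ^ 2 * (t : ℂ) ^ 2 / 2 * Complex.I_sq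
  simp_rw [e1]
  have hre : (-((η : ℂ) ^ 2 / 2)).re < 0 := by
    rw [show (-((η : ℂ) ^ 2 / 2)) = ((-(η ^ 2 / 2) : ℝ) : ℂ) by push_cast; ring,
      Complex.ofReal_re]
    have : 0 < η ^ 2 := by positivity
    linarith
  rw [integral_cexp_quadratic hre]
  have e2 : ((Real.pi : ℂ) / -(-((η : ℂ) ^ 2 / 2))) ^ (1 / 2 : ℂ) =
      ((Real.sqrt (2 * Real.pi) / η : ℝ) : ℂ) := by
    rw [show ((Real.pi : ℂ) / -(-((η : ℂ) ^ 2 / 2))) = ((2 * Real.pi / η ^ 2 : ℝ) : ℂ) by
      push_cast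
      field_simp]
    rw [show (1 / 2 : ℂ) = ((1 / 2 : ℝ) : ℂ) by push_cast; rfl,
      ← Complex.ofReal_cpow (by positivity), ← Real.sqrt_eq_rpow, Real.sqrt_div (by positivity),
      Real.sqrt_sq hη.le]
  have e3 : (η : ℂ) ^ 2 * (σ - 1 / 2) ^ 2 / 2 + σ * w -
      (I * ((η : ℂ) ^ 2 * (σ - 1 / 2) + w)) ^ 2 / (4 * -((η : ℂ) ^ 2 / 2)) =
      ((w / 2 + -(w ^ 2) / (2 * η ^ 2) : ℝ) : ℂ) := by
    push_cast
    rw [mul_pow, Complex.I_sq]
    field_simp
    ring
  rw [e2, e3]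
  unfold gk
  rw [← Complex.ofReal_exp, Real.exp_add]
  have h2 : Real.sqrt (2 * Real.pi) ≠ 0 := by positivity
  have h3 : Real.sqrt (2 * Real.pi) * Real.sqrt (2 * Real.pi) = 2 * Real.pi :=
    Real.mul_self_sqrt (by positivity)
  have h4 : (2 * Real.pi)⁻¹ * (Real.sqrt (2 * Real.pi) / η) = (η * Real.sqrt (2 * Real.pi))⁻¹ := by
    rw [← h3]
    have h5 : Real.sqrt (Real.sqrt (2 * Real.pi) * Real.sqrt (2 * Real.pi)) =
      Real.sqrt (2 * Real.pi) := by rw [h3]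
    rw [h5]
    field_simp
  rw [show (2 * Real.pi : ℂ)⁻¹ = (((2 * Real.pi)⁻¹ : ℝ) : ℂ) by push_cast; rfl,
    ← Complex.ofReal_mul, ← Complex.ofReal_mul, Complex.ofReal_inj, ← mul_assoc, h4]
  ring

end Pool.Agent.H56.GX

end

section

/-!
GX module SMCont: continuity and integrability of `SM η`.

`SM η` is continuous on `(0, ∞)`: substituting `w = log x - v`,
`SM η x = ∫ Mz(e^w) e^{(log x - w)/2} gk η (log x - w) dw`, dominated convergence
(`continuousOn_of_dominated` or `continuous_of_dominated` in the variable `ℓ = log x` on bounded sets: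
`|Mz(e^w)| ≤ e^{|w|}`, and for `|ℓ| ≤ L`: `gk η (ℓ - w) ≤ C exp(-w²/(4η²) + L²/(2η²))`).
`IntervalIntegrable` of `(Mz (x+s) - SM η (x+s))²` on `[p,q]` with `p + s, q + s > 0`: bounded and measurable
there (`SM η` is bounded on the compact interval by continuity, `|Mz x| ≤ x`).
-/

set_option autoImplicit false

namespace Pool.Agent.H56.GX

open MeasureTheory Set Complex Filter Topology

private theorem SMCont_exp (η L l w : ℝ) (hη : 0 < η) (hl : |l| ≤ L) :
    w + (l - w) / 2 + -((l - w) ^ 2) / (2 * η ^ 2) ≤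
      (L / 2 + L ^ 2 / (2 * η ^ 2) + η ^ 2 / 2) + -(1 / (8 * η ^ 2)) * w ^ 2 := by
  have hη2 : 0 < η ^ 2 := by positivity
  have hl1 : l ≤ L := (le_abs_self l).trans hl
  have hl2 : l ^ 2 ≤ L ^ 2 := by
    rw [← sq_abs l]
    exact pow_le_pow_left₀ (abs_nonneg l) hl 2
  have h1 : w / 2 ≤ w ^ 2 / (8 * η ^ 2) + η ^ 2 / 2 := by
    have : w ^ 2 / (8 * η ^ 2) + η ^ 2 / 2 - w / 2 = (w - 2 * η ^ 2) ^ 2 / (8 * η ^ 2) := by
      field_simp
      ring
    have h2 : 0 ≤ (w - 2 * η ^ 2) ^ 2 / (8 * η ^ 2) := by positivity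
    linarith
  have h3 : -((l - w) ^ 2) / (2 * η ^ 2) ≤ L ^ 2 / (2 * η ^ 2) - w ^ 2 / (4 * η ^ 2) := by
    have : L ^ 2 / (2 * η ^ 2) - w ^ 2 / (4 * η ^ 2) - -((l - w) ^ 2) / (2 * η ^ 2) =
        (2 * (L ^ 2 - l ^ 2) + (w - 2 * l) ^ 2) / (4 * η ^ 2) := by
      field_simp
      ring
    have h2 : 0 ≤ (2 * (L ^ 2 - l ^ 2) + (w - 2 * l) ^ 2) / (4 * η ^ 2) := by
      apply div_nonneg _ (by positivity)
      have : 0 ≤ L ^ 2 - l ^ 2 := by linarith
      positivity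
    linarith
  have h4 : w ^ 2 / (4 * η ^ 2) = w ^ 2 / (8 * η ^ 2) + w ^ 2 / (8 * η ^ 2) := by
    field_simp
    ring
  have h5 : -(1 / (8 * η ^ 2)) * w ^ 2 = - (w ^ 2 / (8 * η ^ 2)) := by
    field_simp
  rw [h5]
  linarith

private theorem SMCont_bd (η L l w : ℝ) (hη : 0 < η) (hl : |l| ≤ L) :
    ‖Mz (Real.exp w) * Real.exp ((l - w) / 2) * gk η (l - w)‖ ≤
      ((η * Real.sqrt (2 * Real.pi))⁻¹ *
        Real.exp (L / 2 + L ^ 2 / (2 * η ^ 2) + η ^ 2 / 2)) *
          Real.exp (-(1 / (8 * η ^ 2)) * w ^ 2) := by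
  have hg := gk_pos η hη (l - w)
  have hM : |Mz (Real.exp w)| ≤ Real.exp w := Mz_abs_le _ (Real.exp_pos w).le
  rw [norm_mul, norm_mul, Real.norm_eq_abs, Real.norm_eq_abs, Real.norm_eq_abs, abs_of_pos hg,
    abs_of_pos (Real.exp_pos ((l - w) / 2))]
  have hc : 0 < (η * Real.sqrt (2 * Real.pi))⁻¹ := by positivity
  calc |Mz (Real.exp w)| * Real.exp ((l - w) / 2) * gk η (l - w)
      ≤ Real.exp w * Real.exp ((l - w) / 2) * gk η (l - w) := by
        apply mul_le_mul_of_nonneg_right _ hg.le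
        exact mul_le_mul_of_nonneg_right hM (Real.exp_pos _).le
    _ = (η * Real.sqrt (2 * Real.pi))⁻¹ *
          Real.exp (w + (l - w) / 2 + -((l - w) ^ 2) / (2 * η ^ 2)) := by
        unfold gk
        rw [Real.exp_add, Real.exp_add]
        ring
    _ ≤ (η * Real.sqrt (2 * Real.pi))⁻¹ *
          Real.exp ((L / 2 + L ^ 2 / (2 * η ^ 2) + η ^ 2 / 2) +
            -(1 / (8 * η ^ 2)) * w ^ 2) := by
        apply mul_le_mul_of_nonneg_left _ hc.le
        exact Real.exp_le_exp.mpr (SMCont_exp η L l w hη hl)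
    _ = _ := by
        rw [Real.exp_add]
        ring

private theorem SMCont_cont (η : ℝ) (hη : 0 < η) : Continuous (fun l : ℝ =>
    ∫ w : ℝ, Mz (Real.exp w) * Real.exp ((l - w) / 2) * gk η (l - w)) := by
  rw [continuous_iff_continuousAt]
  intro l₀
  have hgc := gk_continuous η
  apply continuousAt_of_dominated
    (bound := fun w => ((η * Real.sqrt (2 * Real.pi))⁻¹ *
        Real.exp ((|l₀| + 1) / 2 + (|l₀| + 1) ^ 2 / (2 * η ^ 2) + η ^ 2 / 2)) *
          Real.exp (-(1 / (8 * η ^ 2)) * w ^ 2))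
  · refine Eventually.of_forall (fun l => ?_)
    apply AEStronglyMeasurable.mul
    · apply AEStronglyMeasurable.mul
      · exact (Mz_measurable.comp Real.measurable_exp).aestronglyMeasurable
      · exact (by fun_prop : Continuous (fun w : ℝ => Real.exp ((l - w) / 2))).aestronglyMeasurable
    · exact (hgc.comp (by fun_prop : Continuous (fun w : ℝ => l - w))).aestronglyMeasurable
  · have h1 : ∀ᶠ l in 𝓝 l₀, |l| < |l₀| + 1 := by
      have : ContinuousAt (fun l : ℝ => |l|) l₀ := continuous_abs.continuousAt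
      exact this.eventually (gt_mem_nhds (by linarith))
    filter_upwards [h1] with l hl
    exact Eventually.of_forall (fun w => SMCont_bd η (|l₀| + 1) l w hη hl.le)
  · apply Integrable.const_mul
    exact integrable_exp_neg_mul_sq (by positivity)
  · refine Eventually.of_forall (fun w => ?_)
    apply Continuous.continuousAt
    apply Continuous.mul
    · apply Continuous.mul continuous_const
      fun_prop
    · exact hgc.comp (by fun_prop : Continuous (fun l : ℝ => l - w))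

private theorem SMCont_eq (η x : ℝ) (hx : 0 < x) :
    SM η x = ∫ w : ℝ, Mz (Real.exp w) * Real.exp ((Real.log x - w) / 2) *
      gk η (Real.log x - w) := by
  unfold SM
  have h := integral_sub_left_eq_self
    (fun v : ℝ => Mz (x * Real.exp (-v)) * Real.exp (v / 2) * gk η v) volume (Real.log x)
  rw [← h]
  apply integral_congr_ae
  refine Eventually.of_forall (fun w => ?_)
  have h2 : x * Real.exp (-(Real.log x - w)) = Real.exp w := by
    have : -(Real.log x - w) = -Real.log x + w := by ring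
    rw [this, Real.exp_add, Real.exp_neg, Real.exp_log hx]
    field_simp
  simp only [h2]

theorem SM_continuousOn (η : ℝ) (hη : 0 < η) : ContinuousOn (SM η) (Ioi 0) := by
  have h1 : ContinuousOn (fun x : ℝ => ∫ w : ℝ, Mz (Real.exp w) *
      Real.exp ((Real.log x - w) / 2) * gk η (Real.log x - w)) (Ioi 0) := by
    apply (SMCont_cont η hη).comp_continuousOn
    apply Real.continuousOn_log.mono
    intro x hx
    have : 0 < x := hx
    simp only [mem_compl_iff, mem_singleton_iff]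
    exact this.ne'
  exact h1.congr (fun x hx => SMCont_eq η x hx)

theorem err_intervalIntegrable (η : ℝ) (hη : 0 < η) (p q s : ℝ) (hp : 0 < p + s) (hq : 0 < q + s) :
    IntervalIntegrable (fun x => (Mz (x + s) - SM η (x + s)) ^ 2) volume p q := by
  have hsub : ∀ x ∈ uIcc p q, x + s ∈ Ioi (0 : ℝ) := by
    intro x hx
    rw [mem_uIcc] at hx
    simp only [mem_Ioi]
    rcases hx with ⟨h1, _⟩ | ⟨h1, _⟩ <;> linarith
  have hcont : ContinuousOn (fun x => SM η (x + s)) (uIcc p q) :=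
    (SM_continuousOn η hη).comp (by fun_prop) hsub
  obtain ⟨C, hC⟩ := isCompact_uIcc.exists_bound_of_continuousOn hcont
  obtain ⟨D, hD⟩ := isCompact_uIcc.exists_bound_of_continuousOn
    (by fun_prop : ContinuousOn (fun x : ℝ => x + s) (uIcc p q))
  rw [intervalIntegrable_iff]
  refine IntegrableOn.of_bound (by simp) ?_ ((D + C) ^ 2) ?_
  · apply AEStronglyMeasurable.pow
    apply AEStronglyMeasurable.sub
    · exact (Mz_measurable.comp (measurable_id.add_const s)).aestronglyMeasurable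
    · exact (hcont.mono uIoc_subset_uIcc).aestronglyMeasurable measurableSet_uIoc
  · rw [ae_restrict_iff' measurableSet_uIoc]
    refine Eventually.of_forall (fun x hx => ?_)
    have hx' := uIoc_subset_uIcc hx
    have h1 := hC x hx'
    have h2 := hD x hx'
    have h3 : |Mz (x + s)| ≤ |x + s| := Mz_abs_le' _
    rw [Real.norm_eq_abs] at h1 h2
    rw [norm_pow, Real.norm_eq_abs]
    apply pow_le_pow_left₀ (abs_nonneg _)
    have := abs_sub (Mz (x + s)) (SM η (x + s))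
    linarith

end Pool.Agent.H56.GX

end

section

/-!
GX module ZLeft: `ζ` on the line `Re s = -1/2`: `|ζ(-1/2+it)| ≥ c (1+|t|)`.

Functional equation (`riemannZeta_one_sub`) with `w = 3/2 - it`, `1 - w = -1/2 + it`:
`ζ(-1/2+it) = 2 (2π)^{-w} Γ(w) cos(π w/2) ζ(w)`.
* `Γ(w) = (w-1) Γ(w-1) = (1/2 - it) Γ(1/2 - it)`, `|Γ(1/2-it)|² = Γ(1/2-it) Γ(1/2+it) = π / cosh(π t)`
  (`Complex.Gamma_mul_Gamma_one_sub`, `Complex.Gamma_conj`).
* `|cos(3π/4 - iπt/2)|² = cos²(3π/4) + sinh²(πt/2) = 1/2 + sinh²(πt/2) = cosh(πt)/2`.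
  So `|Γ(1/2-it) cos(πw/2)|² = π/2` exactly.
* `|(2π)^{-w}| = (2π)^{-3/2}`.
* `|ζ(w)| ≥ 1/3`: `ζ(w)⁻¹ = LSeries μ w` has norm `≤ ∑ n^{-3/2} ≤ 3` (or any constant:
  `∑_{n≥1} n^{-3/2} < ∞` suffices, e.g. `‖LSeries μ w‖ ≤ ∑' ‖term‖ ≤ ∑' n^{-3/2}`, independent of `t`).
Hence `|ζ(-1/2+it)| = 2 (2π)^{-3/2} √(π/2) |1/2 - it| |ζ(w)| ≥ c (1 + |t|)`.
-/

set_option autoImplicit false

namespace Pool.Agent.H56.GX

open MeasureTheory Set Complex Filter Topology

/-- `|cos(3π/4 - iπt/2)|² = cosh(πt)/2`. -/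
lemma ZLeft_cos (t : ℝ) :
    ‖Complex.cos (Real.pi * (3 / 2 - t * I) / 2)‖ ^ 2 = Real.cosh (Real.pi * t) / 2 := by
  have h1 : (Real.pi * (3 / 2 - t * I) / 2 : ℂ)
      = ((3 * Real.pi / 4 : ℝ) : ℂ) - ((Real.pi * t / 2 : ℝ) : ℂ) * I := by
    push_cast; ring
  rw [h1, Complex.cos_sub, Complex.cos_mul_I, Complex.sin_mul_I, ← Complex.ofReal_cos,
    ← Complex.ofReal_sin, ← Complex.ofReal_cosh, ← Complex.ofReal_sinh]
  have h2 : ((Real.cos (3 * Real.pi / 4) : ℝ) : ℂ) * ((Real.cosh (Real.pi * t / 2) : ℝ) : ℂ)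
      + ((Real.sin (3 * Real.pi / 4) : ℝ) : ℂ) * (((Real.sinh (Real.pi * t / 2) : ℝ) : ℂ) * I)
      = (((Real.cos (3 * Real.pi / 4) * Real.cosh (Real.pi * t / 2)) : ℝ) : ℂ)
        + (((Real.sin (3 * Real.pi / 4) * Real.sinh (Real.pi * t / 2)) : ℝ) : ℂ) * I := by
    push_cast; ring
  rw [h2, ← Complex.normSq_eq_norm_sq, Complex.normSq_add_mul_I]
  have hc : Real.cos (3 * Real.pi / 4) ^ 2 = 1 / 2 := by
    rw [Real.cos_sq]
    have : 2 * (3 * Real.pi / 4) = Real.pi / 2 + Real.pi := by ring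
    rw [this, Real.cos_add_pi, Real.cos_pi_div_two]; norm_num
  have hs : Real.sin (3 * Real.pi / 4) ^ 2 = 1 / 2 := by
    rw [Real.sin_sq, hc]; norm_num
  have hcosh : Real.cosh (Real.pi * t)
      = Real.cosh (Real.pi * t / 2) ^ 2 + Real.sinh (Real.pi * t / 2) ^ 2 := by
    rw [← Real.cosh_two_mul]; congr 1; ring
  rw [mul_pow, mul_pow, hc, hs, hcosh]; ring

/-- `|Γ(1/2 - it)|² = π / cosh(πt)`. -/
lemma ZLeft_Gamma (t : ℝ) :
    ‖Complex.Gamma (1 / 2 - t * I)‖ ^ 2 = Real.pi / Real.cosh (Real.pi * t) := by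
  have h1 : (1 : ℂ) - (1 / 2 - t * I) = (starRingEnd ℂ) (1 / 2 - t * I) := by
    rw [map_sub, map_mul, Complex.conj_I, Complex.conj_ofReal]
    have : (starRingEnd ℂ) (1 / 2 : ℂ) = 1 / 2 := by
      rw [map_div₀, map_one]
      congr 1
      exact Complex.conj_ofNat 2
    rw [this]; ring
  have h2 := Complex.Gamma_mul_Gamma_one_sub (1 / 2 - t * I)
  rw [h1, Complex.Gamma_conj] at h2
  have h3 : ‖Complex.Gamma (1 / 2 - t * I)‖ ^ 2
      = ‖Complex.Gamma (1 / 2 - t * I) * (starRingEnd ℂ) (Complex.Gamma (1 / 2 - t * I))‖ := by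
    rw [norm_mul, Complex.norm_conj, sq]
  rw [h3, h2]
  have h4 : Complex.sin (Real.pi * (1 / 2 - t * I)) = ((Real.cosh (Real.pi * t) : ℝ) : ℂ) := by
    have : (Real.pi * (1 / 2 - t * I) : ℂ)
        = (Real.pi : ℂ) / 2 - ((Real.pi * t : ℝ) : ℂ) * I := by push_cast; ring
    rw [this, Complex.sin_pi_div_two_sub, Complex.cos_mul_I, ← Complex.ofReal_cosh]
  rw [h4, norm_div, Complex.norm_real, Complex.norm_real, Real.norm_eq_abs, Real.norm_eq_abs,
    abs_of_pos Real.pi_pos, abs_of_pos (Real.cosh_pos _)]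

/-- A uniform lower bound for `ζ` on the line `Re s = 3/2`. -/
lemma ZLeft_zeta : ∃ c : ℝ, 0 < c ∧ ∀ t : ℝ, c ≤ ‖riemannZeta (3 / 2 - t * I)‖ := by
  have hre : ∀ t : ℝ, ((3 / 2 : ℂ) - t * I).re = 3 / 2 := by
    intro t; simp
  have hsum : Summable (fun n : ℕ => ‖LSeries.term (1 : ℕ → ℂ) ((3 / 2 : ℝ) : ℂ) n‖) := by
    have h := (LSeriesSummable_one_iff (s := ((3 / 2 : ℝ) : ℂ))).mpr (by
      rw [Complex.ofReal_re]; norm_num)
    exact h.norm
  set B : ℝ := ∑' n : ℕ, ‖LSeries.term (1 : ℕ → ℂ) ((3 / 2 : ℝ) : ℂ) n‖ with hB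
  have hterm : ∀ (t : ℝ) (n : ℕ),
      ‖LSeries.term (fun n : ℕ => ((ArithmeticFunction.moebius n : ℤ) : ℂ)) (3 / 2 - t * I) n‖
        ≤ ‖LSeries.term (1 : ℕ → ℂ) ((3 / 2 : ℝ) : ℂ) n‖ := by
    intro t n
    refine (LSeries.norm_term_le (g := (1 : ℕ → ℂ)) _ ?_).trans ?_
    · have h1 : |ArithmeticFunction.moebius n| ≤ 1 := ArithmeticFunction.abs_moebius_le_one
      have h2 : ‖((ArithmeticFunction.moebius n : ℤ) : ℂ)‖ ≤ 1 := by
        rw [Complex.norm_intCast]; exact_mod_cast h1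
      simpa using h2
    · refine LSeries.norm_term_le_of_re_le_re _ ?_ n
      rw [hre, Complex.ofReal_re]
  have hB1 : ∀ t : ℝ,
      ‖LSeries (fun n : ℕ => ((ArithmeticFunction.moebius n : ℤ) : ℂ)) (3 / 2 - t * I)‖ ≤ B := by
    intro t
    rw [LSeries]
    exact (norm_tsum_le_tsum_norm
      (Summable.of_nonneg_of_le (fun n => norm_nonneg _) (hterm t) hsum)).trans
      ((Summable.of_nonneg_of_le (fun n => norm_nonneg _) (hterm t) hsum).tsum_le_tsum
        (hterm t) hsum)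
  have hprod : ∀ t : ℝ, riemannZeta (3 / 2 - t * I)
      * LSeries (fun n : ℕ => ((ArithmeticFunction.moebius n : ℤ) : ℂ)) (3 / 2 - t * I) = 1 := by
    intro t
    have h1 : 1 < ((3 / 2 : ℂ) - t * I).re := by rw [hre]; norm_num
    rw [← ArithmeticFunction.LSeries_zeta_eq_riemannZeta h1]
    exact ArithmeticFunction.LSeries_zeta_mul_Lseries_moebius h1
  have hBpos : 0 < B := by
    have h := hprod 0
    rcases lt_or_ge 0 B with h1 | h1
    · exact h1
    · exfalso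
      have h2 := (hB1 0).trans h1
      have h3 := norm_le_zero_iff.mp h2
      rw [h3, mul_zero] at h
      exact zero_ne_one h
  refine ⟨1 / B, by positivity, fun t => ?_⟩
  have h := congrArg norm (hprod t)
  rw [norm_mul, norm_one] at h
  rw [div_le_iff₀ hBpos]
  calc (1 : ℝ) = _ := h.symm
    _ ≤ ‖riemannZeta (3 / 2 - t * I)‖ * B :=
      mul_le_mul_of_nonneg_left (hB1 t) (norm_nonneg _)

theorem zeta_left : ∃ c : ℝ, 0 < c ∧ ∀ t : ℝ, c * (1 + |t|) ≤ ‖riemannZeta (-(1 / 2) + t * I)‖ := by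
  obtain ⟨c0, hc0, hz⟩ := ZLeft_zeta
  set A : ℝ := 2 * (2 * Real.pi) ^ (-(3 / 2 : ℝ)) * Real.sqrt (Real.pi / 2) with hA
  have hApos : 0 < A := by
    have : (0 : ℝ) < 2 * Real.pi := by positivity
    have h1 : (0 : ℝ) < (2 * Real.pi) ^ (-(3 / 2 : ℝ)) := Real.rpow_pos_of_pos this _
    have h2 : 0 < Real.sqrt (Real.pi / 2) := Real.sqrt_pos.mpr (by positivity)
    positivity
  refine ⟨A * c0 / 4, by positivity, fun t => ?_⟩
  have hw : (-(1 / 2) + t * I : ℂ) = 1 - (3 / 2 - t * I) := by ring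
  have hre : ((3 / 2 : ℂ) - t * I).re = 3 / 2 := by simp
  have hne : ∀ n : ℕ, (3 / 2 - t * I : ℂ) ≠ -n := by
    intro n h
    have := congrArg Complex.re h
    rw [hre] at this
    simp at this
    have h2 : (0 : ℝ) ≤ n := Nat.cast_nonneg n
    linarith
  have hne1 : (3 / 2 - t * I : ℂ) ≠ 1 := by
    intro h
    have := congrArg Complex.re h
    rw [hre] at this
    norm_num at this
  rw [hw, riemannZeta_one_sub hne hne1]
  have hG : Complex.Gamma (3 / 2 - t * I) = (1 / 2 - t * I) * Complex.Gamma (1 / 2 - t * I) := by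
    have h0 : (1 / 2 - t * I : ℂ) ≠ 0 := by
      intro h
      have := congrArg Complex.re h
      simp at this
    rw [← Complex.Gamma_add_one _ h0]
    congr 1; ring
  rw [hG]
  have hpow : ‖(2 * (Real.pi : ℂ)) ^ (-(3 / 2 - t * I : ℂ))‖ = (2 * Real.pi) ^ (-(3 / 2 : ℝ)) := by
    have h1 : (2 * (Real.pi : ℂ)) = ((2 * Real.pi : ℝ) : ℂ) := by push_cast; ring
    rw [h1, Complex.norm_cpow_eq_rpow_re_of_pos (by positivity), Complex.neg_re, hre]
  have hGc : ‖Complex.Gamma (1 / 2 - t * I)‖ * ‖Complex.cos (Real.pi * (3 / 2 - t * I) / 2)‖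
      = Real.sqrt (Real.pi / 2) := by
    have h1 : (‖Complex.Gamma (1 / 2 - t * I)‖
        * ‖Complex.cos (Real.pi * (3 / 2 - t * I) / 2)‖) ^ 2 = Real.pi / 2 := by
      rw [mul_pow, ZLeft_Gamma, ZLeft_cos]
      have := (Real.cosh_pos (Real.pi * t)).ne'
      field_simp
    rw [← h1, Real.sqrt_sq (by positivity)]
  have hlin : (1 + |t|) / 4 ≤ ‖(1 / 2 - t * I : ℂ)‖ := by
    have h1 : |((1 / 2 - t * I : ℂ)).re| ≤ ‖(1 / 2 - t * I : ℂ)‖ := Complex.abs_re_le_norm _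
    have h2 : |((1 / 2 - t * I : ℂ)).im| ≤ ‖(1 / 2 - t * I : ℂ)‖ := Complex.abs_im_le_norm _
    have h3 : ((1 / 2 - t * I : ℂ)).re = 1 / 2 := by simp
    have h4 : ((1 / 2 - t * I : ℂ)).im = -t := by simp
    rw [h3] at h1
    rw [h4, abs_neg] at h2
    have h5 : |(1 / 2 : ℝ)| = 1 / 2 := abs_of_pos (by norm_num)
    rw [h5] at h1
    have h6 := abs_nonneg t
    linarith
  have hnorm : ‖2 * (2 * (Real.pi : ℂ)) ^ (-(3 / 2 - t * I : ℂ))
      * ((1 / 2 - t * I) * Complex.Gamma (1 / 2 - t * I))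
      * Complex.cos (Real.pi * (3 / 2 - t * I) / 2) * riemannZeta (3 / 2 - t * I)‖
      = A * ‖(1 / 2 - t * I : ℂ)‖ * ‖riemannZeta (3 / 2 - t * I)‖ := by
    rw [norm_mul, norm_mul, norm_mul, norm_mul, norm_mul, hpow, Complex.norm_two, hA, ← hGc]
    ring
  rw [hnorm]
  calc A * c0 / 4 * (1 + |t|) = A * ((1 + |t|) / 4) * c0 := by ring
    _ ≤ A * ‖(1 / 2 - t * I : ℂ)‖ * ‖riemannZeta (3 / 2 - t * I)‖ := by
      have h7 : A * ((1 + |t|) / 4) ≤ A * ‖(1 / 2 - t * I : ℂ)‖ :=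
        mul_le_mul_of_nonneg_left hlin hApos.le
      have h8 : 0 ≤ A * ‖(1 / 2 - t * I : ℂ)‖ := by positivity
      exact mul_le_mul h7 (hz t) hc0.le h8

end Pool.Agent.H56.GX

end

section

/-!
GY module JBu: `J η x` is bounded uniformly in `0 < η ≤ 1`, `x ≥ 1/4`.

The integrand of `J` has norm `exp(η²(1-t²)/2) x^(-1/2) ‖((-1/2+it) ζ(-1/2+it))⁻¹‖ ≤ e^(1/2) · 2 · C / (1+|t|)²`
(`K_norm` with `σ = -1/2`: `(σ - 1/2)² = 1`; `zeta_left`: `‖ζ(-1/2+it)‖ ≥ c (1+|t|)`; `‖-1/2+it‖ ≥ (1+|t|)/3`), and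
`∫ (1+|t|)^(-2) dt < ∞`. See the private lemmas in `GX/JB.lean` (copy what is needed), where `J_bdd` is proved with a constant
that depends on `η`.
-/

set_option autoImplicit false

namespace Pool.Agent.H82.GY

open MeasureTheory Set Complex Filter Topology
open Pool.Agent.H56.GX

/-- the point `-1/2 + it` -/
private noncomputable def JBu_s (t : ℝ) : ℂ := -(1 / 2) + t * I

private lemma JBu_s_re (t : ℝ) : (JBu_s t).re = -(1 / 2) := by simp [JBu_s]

private lemma JBu_s_im (t : ℝ) : (JBu_s t).im = t := by simp [JBu_s]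

private lemma JBu_s_norm (t : ℝ) : 1 + |t| ≤ 3 * ‖JBu_s t‖ := by
  have h1 := Complex.abs_re_le_norm (JBu_s t)
  have h2 := Complex.abs_im_le_norm (JBu_s t)
  rw [JBu_s_re] at h1
  rw [JBu_s_im] at h2
  have h3 : |(-(1 / 2) : ℝ)| = 1 / 2 := by norm_num
  rw [h3] at h1
  linarith

private lemma JBu_K_norm (η t : ℝ) : ‖K η (JBu_s t)‖ = Real.exp (η ^ 2 * (1 - t ^ 2) / 2) := by
  have h := K_norm η (-(1 / 2)) t
  have e : (((-(1 / 2) : ℝ) : ℂ) + t * I) = JBu_s t := by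
    rw [JBu_s]; push_cast; ring
  rw [e] at h
  rw [h]
  norm_num

private lemma JBu_zeta_inv (c : ℝ) (hc : 0 < c)
    (h : ∀ t : ℝ, c * (1 + |t|) ≤ ‖riemannZeta (-(1 / 2) + t * I)‖) (t : ℝ) :
    riemannZeta (JBu_s t) ≠ 0 ∧ ‖(riemannZeta (JBu_s t))⁻¹‖ ≤ (c * (1 + |t|))⁻¹ := by
  have h1 : c * (1 + |t|) ≤ ‖riemannZeta (JBu_s t)‖ := h t
  have h2 : 0 < c * (1 + |t|) := by positivity
  refine ⟨norm_pos_iff.1 (h2.trans_le h1), ?_⟩
  rw [norm_inv]
  exact inv_anti₀ h2 h1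

private lemma JBu_inv_norm (c : ℝ) (hc : 0 < c)
    (h : ∀ t : ℝ, c * (1 + |t|) ≤ ‖riemannZeta (-(1 / 2) + t * I)‖) (t : ℝ) :
    ‖(JBu_s t * riemannZeta (JBu_s t))⁻¹‖ ≤ 3 / c * (1 + ‖t‖) ^ (-2 : ℝ) := by
  obtain ⟨h0, h1⟩ := JBu_zeta_inv c hc h t
  have h2 := JBu_s_norm t
  have h3 : 0 ≤ |t| := abs_nonneg t
  have h4 : ‖(JBu_s t)⁻¹‖ ≤ 3 * (1 + |t|)⁻¹ := by
    rw [norm_inv]
    have h5 : (3 * (1 + |t|)⁻¹) = ((1 + |t|) / 3)⁻¹ := by
      rw [inv_div, div_eq_mul_inv]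
    rw [h5]
    exact inv_anti₀ (by positivity) (by linarith)
  rw [mul_inv, norm_mul, Real.norm_eq_abs]
  have h6 : (1 + |t|) ^ (-2 : ℝ) = (1 + |t|)⁻¹ * (1 + |t|)⁻¹ := by
    rw [Real.rpow_neg (by positivity), ← mul_inv]
    norm_num [sq]
  rw [h6]
  calc ‖(JBu_s t)⁻¹‖ * ‖(riemannZeta (JBu_s t))⁻¹‖ ≤ (3 * (1 + |t|)⁻¹) * (c * (1 + |t|))⁻¹ :=
        mul_le_mul h4 h1 (norm_nonneg _) (by positivity)
    _ = 3 / c * ((1 + |t|)⁻¹ * (1 + |t|)⁻¹) := by rw [mul_inv, div_eq_mul_inv]; ring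

/-- the integrand of `J` -/
private noncomputable def JBu_G (η x t : ℝ) : ℂ :=
  K η (JBu_s t) * (x : ℂ) ^ (JBu_s t) * (JBu_s t * riemannZeta (JBu_s t))⁻¹

private lemma JBu_J_eq (η x : ℝ) : J η x = (2 * Real.pi : ℂ)⁻¹ * ∫ t : ℝ, JBu_G η x t := rfl

private lemma JBu_two_pi : ‖((2 * Real.pi : ℂ))⁻¹‖ ≤ 1 := by
  rw [norm_inv, norm_mul]
  have h1 : ‖(2 : ℂ)‖ = 2 := by norm_num
  have h2 : ‖(Real.pi : ℂ)‖ = Real.pi := by
    rw [Complex.norm_real, Real.norm_of_nonneg Real.pi_pos.le]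
  rw [h1, h2]
  refine inv_le_one_of_one_le₀ ?_
  linarith [Real.pi_gt_three]

theorem J_bdd_unif : ∃ C : ℝ, 0 < C ∧ ∀ η x : ℝ, 0 < η → η ≤ 1 → 1 / 4 ≤ x → ‖J η x‖ ≤ C := by
  obtain ⟨c, hc, h⟩ := zeta_left
  have hint : Integrable (fun t : ℝ => (1 + ‖t‖) ^ (-2 : ℝ)) := by
    refine integrable_one_add_norm ?_
    rw [Module.finrank_self]
    norm_num
  set B : ℝ := ∫ t : ℝ, (1 + ‖t‖) ^ (-2 : ℝ) with hB
  have hB0 : 0 ≤ B := integral_nonneg fun t => by positivity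
  refine ⟨12 / c * B + 1, by positivity, fun η x hη hη1 hx => ?_⟩
  have hx0 : 0 < x := by linarith
  have h2 : x ^ (-(1 / 2) : ℝ) ≤ 2 := by
    have h3 : x ^ (-(1 / 2) : ℝ) ≤ (1 / 4 : ℝ) ^ (-(1 / 2) : ℝ) :=
      Real.rpow_le_rpow_of_nonpos (by norm_num) hx (by norm_num)
    have h4 : (1 / 4 : ℝ) ^ (-(1 / 2) : ℝ) = 2 := by
      rw [Real.rpow_neg (by norm_num), ← Real.sqrt_eq_rpow,
        show (1 / 4 : ℝ) = (1 / 2) ^ 2 by norm_num, Real.sqrt_sq (by norm_num)]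
      norm_num
    linarith
  have hbd : ∀ t : ℝ, ‖JBu_G η x t‖ ≤ (12 / c) * (1 + ‖t‖) ^ (-2 : ℝ) := by
    intro t
    rw [JBu_G, norm_mul, norm_mul, JBu_K_norm, Complex.norm_cpow_eq_rpow_re_of_pos hx0, JBu_s_re]
    have h1 := JBu_inv_norm c hc h t
    have h5 : Real.exp (η ^ 2 * (1 - t ^ 2) / 2) ≤ 2 := by
      have h3 : Real.exp (η ^ 2 * (1 - t ^ 2) / 2) ≤ Real.exp (1 / 2) := by
        refine Real.exp_le_exp.2 ?_
        have ha : 0 ≤ η ^ 2 * t ^ 2 := by positivity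
        have hb : η ^ 2 ≤ 1 := by nlinarith
        nlinarith
      have h4 : Real.exp (1 / 2) ≤ 2 := by
        have h5 : Real.exp (1 / 2) ^ 2 ≤ 2 ^ 2 := by
          rw [← Real.exp_nat_mul]
          have := Real.exp_one_lt_d9
          norm_num
          linarith
        exact (sq_le_sq₀ (Real.exp_pos _).le (by norm_num)).1 h5
      exact h3.trans h4
    calc Real.exp (η ^ 2 * (1 - t ^ 2) / 2) * x ^ (-(1 / 2) : ℝ) *
          ‖(JBu_s t * riemannZeta (JBu_s t))⁻¹‖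
        ≤ 2 * 2 * (3 / c * (1 + ‖t‖) ^ (-2 : ℝ)) := by
          gcongr
      _ = (12 / c) * (1 + ‖t‖) ^ (-2 : ℝ) := by ring
  have hI : ‖∫ t : ℝ, JBu_G η x t‖ ≤ (12 / c) * B := by
    rw [hB, ← integral_const_mul]
    exact norm_integral_le_of_norm_le (hint.const_mul _) (Filter.Eventually.of_forall hbd)
  rw [JBu_J_eq, norm_mul]
  calc ‖((2 * Real.pi : ℂ))⁻¹‖ * ‖∫ t : ℝ, JBu_G η x t‖ ≤ 1 * (12 / c * B) :=
        mul_le_mul JBu_two_pi hI (norm_nonneg _) zero_le_one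
    _ ≤ 12 / c * B + 1 := by linarith

end Pool.Agent.H82.GY

end

section

/-!
Project GY (MP_0575cc_nt, LargeWindowFailure raised): the Good-Churchhouse law fails for suitable
windows `H(X)` of exact order `X / g(X)`, for EVERY nondecreasing `g → ∞` with `g(2X) ≤ 2 g(X)` and
`g(X) ≤ (log log X)^(1-ε)`. Common definitions. `Mz`, `V`, `F`, `K`, `gk`, `SM`, `J`, `Zr`, `r`, `a` are those of
project GX (`Pool/Agent/H56/GX/Defs.lean`).
-/

set_option autoImplicit false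

namespace Pool.Agent.H82.GY

open MeasureTheory Set Complex Filter Topology
open Pool.Agent.H56.GX

/-- mean square bound for `Mz` up to a slowly growing factor (replaces `SBound` of GX) -/
def WB (C : ℝ) : Prop :=
  ∀ X : ℝ, 1 ≤ X → ∫ x in X..2 * X, (Mz x) ^ 2 ≤ C * X ^ 2 * Real.sqrt (1 + Real.log X)

/-- regular functions -/
structure Reg (g : ℝ → ℝ) : Prop where
  mono : Monotone g
  one_le : ∀ X : ℝ, 1 ≤ g X
  dbl : ∀ X : ℝ, g (2 * X) ≤ 2 * g X

/-- the bounds that are refuted: `c H ≤ V(X;H) ≤ B H` for `κ X / g X ≤ H ≤ X / g X`, `X ≥ X₀` -/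
def Hyp (c B κ X₀ : ℝ) (g : ℝ → ℝ) : Prop :=
  ∀ X H : ℝ, X₀ ≤ X → κ * X / g X ≤ H → H ≤ X / g X → c * H ≤ V X H ∧ V X H ≤ B * H

/-- window energies that follow from the upper bound in `Hyp` -/
def WinG (B κ Y₀ : ℝ) (g : ℝ → ℝ) : Prop :=
  ∀ Y k : ℝ, Y₀ ≤ Y → 2 * κ * Y / g Y ≤ k → k ≤ Y / (2 * g Y) →
    ∫ x in Y..2 * Y, (Mz (x + k) - Mz x) ^ 2 ≤ 2 * B * Y * k

/-- window energies near one scale `X`, for windows near one length `h₀` -/
def LW (B X h₀ : ℝ) : Prop :=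
  ∀ Y k : ℝ, X / 8 ≤ Y → Y ≤ 2 * X → h₀ / 2 ≤ k → k ≤ 2 * h₀ →
    ∫ x in Y..2 * Y, (Mz (x + k) - Mz x) ^ 2 ≤ 2 * B * Y * k

/-- mean squares seen from the scale `X` -/
def MSc (D X : ℝ) : Prop :=
  ∀ Y : ℝ, 0 ≤ Y → ∫ x in (0 : ℝ)..Y, (Mz x) ^ 2 ≤ D * Y ^ 2 * (1 + Y / X)

end Pool.Agent.H82.GY

end

section

/-!
GY module Dir: simultaneous recurrence (Dirichlet), with an explicit bound. Pure Mathlib.

Let `n = S.card`, and for `k = 0, ..., N^n` consider the function `b_k : S → Fin N`,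
`b_k γ = ⌊N · fract (k τ₀ γ / (2π))⌋`. There are `N^n + 1` values of `k` and `N^n` functions, so
(`Finset.exists_ne_map_eq_of_card_lt_of_maps_to` or `Fintype.exists_ne_map_eq_of_card_lt`) `b_k = b_l` for some `k < l ≤ N^n`.
Put `τ = (l - k) τ₀`. For `γ ∈ S`: the fractional parts of `l τ₀ γ/(2π)` and `k τ₀ γ/(2π)` differ by at most `1/N`, so
`γ τ / (2π) = integer + e`, `|e| ≤ 1/N`, and `‖exp(i γ τ) - 1‖ = ‖exp(2π i e) - 1‖ ≤ 2π |e| ≤ 2π/N`
(`Complex.norm_exp_I_mul_ofReal_sub_one_le` or `Real.norm_exp_I_mul_ofReal_sub_one_le` or similar: `‖exp(ix) - 1‖ ≤ |x|`).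
-/

set_option autoImplicit false

namespace Pool.Agent.H82.GY

open MeasureTheory Set Complex Filter Topology

private lemma Dir_fract {N : ℕ} (hN : 1 ≤ N) {a b : ℝ}
    (h : ⌊(N : ℝ) * Int.fract a⌋₊ = ⌊(N : ℝ) * Int.fract b⌋₊) :
    |Int.fract a - Int.fract b| ≤ 1 / N := by
  have hN0 : (0 : ℝ) < N := by exact_mod_cast hN
  have ha0 : 0 ≤ (N : ℝ) * Int.fract a := mul_nonneg hN0.le (Int.fract_nonneg a)
  have hb0 : 0 ≤ (N : ℝ) * Int.fract b := mul_nonneg hN0.le (Int.fract_nonneg b)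
  have h1 := Nat.floor_le ha0
  have h2 := Nat.lt_floor_add_one ((N : ℝ) * Int.fract a)
  have h3 := Nat.floor_le hb0
  have h4 := Nat.lt_floor_add_one ((N : ℝ) * Int.fract b)
  rw [h] at h1 h2
  rw [abs_le]
  have e1 : (N : ℝ) * (1 / N) = 1 := by field_simp
  constructor
  · by_contra hc
    push Not at hc
    have := mul_lt_mul_of_pos_left hc hN0
    nlinarith
  · by_contra hc
    push Not at hc
    have := mul_lt_mul_of_pos_left hc hN0
    nlinarith

theorem dirichlet_recur (S : Finset ℝ) (N : ℕ) (hN : 1 ≤ N) (τ₀ : ℝ) (hτ : 0 < τ₀) :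
    ∃ τ : ℝ, τ₀ ≤ τ ∧ τ ≤ (N : ℝ) ^ S.card * τ₀ ∧
      ∀ γ ∈ S, ‖Complex.exp ((γ * τ : ℝ) * I) - 1‖ ≤ 2 * Real.pi / N := by
  classical
  have hN0 : (0 : ℝ) < N := by exact_mod_cast hN
  have hpi : 0 < Real.pi := Real.pi_pos
  let x : ℕ → ℝ → ℝ := fun k γ => k * τ₀ * γ / (2 * Real.pi)
  have hlt : ∀ (k : ℕ) (γ : ℝ), ⌊(N : ℝ) * Int.fract (x k γ)⌋₊ < N := by
    intro k γ
    rw [Nat.floor_lt (mul_nonneg hN0.le (Int.fract_nonneg _))]
    have := Int.fract_lt_one (x k γ)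
    nlinarith
  let f : Fin (N ^ S.card + 1) → (S → Fin N) := fun k γ => ⟨⌊(N : ℝ) * Int.fract (x k γ)⌋₊, hlt k γ⟩
  obtain ⟨k, l, hkl, hf⟩ : ∃ k l : Fin (N ^ S.card + 1), k ≠ l ∧ f k = f l := by
    apply Fintype.exists_ne_map_eq_of_card_lt
    rw [Fintype.card_fun, Fintype.card_fin, Fintype.card_fin, Fintype.card_coe]
    omega
  obtain ⟨k, l, hkl, hf⟩ : ∃ k l : Fin (N ^ S.card + 1), k < l ∧ f k = f l := by
    rcases lt_or_gt_of_ne hkl with h | h
    · exact ⟨k, l, h, hf⟩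
    · exact ⟨l, k, h, hf.symm⟩
  have hkl' : (k : ℕ) < (l : ℕ) := hkl
  have hl : (l : ℕ) ≤ N ^ S.card := by
    have := l.2
    omega
  refine ⟨((l : ℕ) - (k : ℕ) : ℝ) * τ₀, ?_, ?_, ?_⟩
  · have h1 : (1 : ℝ) ≤ ((l : ℕ) - (k : ℕ) : ℝ) := by
      have : ((k : ℕ) : ℝ) + 1 ≤ ((l : ℕ) : ℝ) := by exact_mod_cast hkl'
      linarith
    nlinarith
  · apply mul_le_mul_of_nonneg_right _ hτ.le
    have h1 : ((l : ℕ) : ℝ) ≤ (N : ℝ) ^ S.card := by exact_mod_cast hl
    have h2 : (0 : ℝ) ≤ ((k : ℕ) : ℝ) := Nat.cast_nonneg _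
    linarith
  · intro γ hγ
    have h1 := congrFun hf ⟨γ, hγ⟩
    have h2 : ⌊(N : ℝ) * Int.fract (x k γ)⌋₊ = ⌊(N : ℝ) * Int.fract (x l γ)⌋₊ := by
      have := congrArg Fin.val h1
      exact this
    have h3 := Dir_fract hN h2
    rw [abs_sub_comm] at h3
    have hx : x l γ - x k γ = (⌊x l γ⌋ - ⌊x k γ⌋ : ℤ) + (Int.fract (x l γ) - Int.fract (x k γ)) := by
      push_cast
      have e1 := Int.floor_add_fract (x l γ)
      have e2 := Int.floor_add_fract (x k γ)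
      linarith
    set m : ℤ := ⌊x l γ⌋ - ⌊x k γ⌋ with hm
    set e : ℝ := Int.fract (x l γ) - Int.fract (x k γ) with he
    have h4 : γ * (((l : ℕ) - (k : ℕ) : ℝ) * τ₀) = 2 * Real.pi * (m + e) := by
      rw [← hx]
      simp only [x]
      field_simp
    have h5 : Complex.exp ((γ * (((l : ℕ) - (k : ℕ) : ℝ) * τ₀) : ℝ) * I) = Complex.exp (((2 * Real.pi * e : ℝ)) * I) := by
      rw [h4, Complex.exp_eq_exp_iff_exists_int]
      refine ⟨m, ?_⟩
      push_cast
      ring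
    rw [h5]
    have h6 : ‖Complex.exp (((2 * Real.pi * e : ℝ)) * I) - 1‖ ≤ ‖(2 * Real.pi * e : ℝ)‖ := by
      rw [mul_comm]
      exact Real.norm_exp_I_mul_ofReal_sub_one_le
    refine h6.trans ?_
    rw [Real.norm_eq_abs, abs_mul, abs_of_pos (by positivity : (0 : ℝ) < 2 * Real.pi), div_eq_mul_one_div]
    exact mul_le_mul_of_nonneg_left h3 (by positivity)

end Pool.Agent.H82.GY

end

section

/-!
GY module WEner: window energies at the scale `X` for all `u ∈ [0, X/80]`, from windows of length about `h₀`.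
(Compare `GX/Ener.lean`, 133 lines.)

For `k ∈ [h₀/2, 2h₀]` and `[p, q] ⊂ [X/4, X]`: `∫_p^q (Mz (y+k) - Mz y)² dy ≤ 2B(X/4)k + 2B(X/2)k = (3/2) B X k`
(`LW` for `Y = X/4` and `Y = X/2`).                                                              (E)
Substitute `x = y + u`: the integral is `∫_{(7/20)X-u}^{X-u} (Mz (y+u) - Mz y)² dy`.
Case `u ≤ h₀`: `(Mz (y+u) - Mz y)² ≤ 2 (Mz (y+u+h₀) - Mz y)² + 2 (Mz (y+u+h₀) - Mz (y+u))²`. The first has window
`u+h₀ ∈ [h₀, 2h₀]` and `y ∈ [(7/20)X-u, X-u] ⊂ [X/4, X]`: `≤ (3/2) B X 2 h₀`; the second, with `y' = y+u ∈ [(7/20)X, X]`, window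
`h₀`: `≤ (3/2) B X h₀`. Total `≤ 9 B X h₀`.
Case `u > h₀`: `m = ⌈u/h₀⌉₊`, `k = u/m`, so `m ≤ 2u/h₀` and `h₀/2 ≤ k ≤ h₀`.
`Mz (y+u) - Mz y = ∑_{j<m} (Mz (y+(j+1)k) - Mz (y+jk))`, Cauchy-Schwarz, and (E) for `y + jk ∈ [X/4, X]`:
`≤ m² (3/2) B X k = (3/2) B X m u ≤ 3 B X u²/h₀`.
-/

set_option autoImplicit false

namespace Pool.Agent.H82.GY

open MeasureTheory Set Complex Filter Topology
open Pool.Agent.H56.GX

/-- the integrand is integrable -/
private theorem WEner_int (a b p q : ℝ) :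
    IntervalIntegrable (fun x => (Mz (x + p) - Mz (x + q)) ^ 2) volume a b :=
  Mz_diff_sq_intervalIntegrable a b p q

private theorem WEner_int0 (a b p : ℝ) :
    IntervalIntegrable (fun x => (Mz (x + p) - Mz x) ^ 2) volume a b := by
  simpa using Mz_diff_sq_intervalIntegrable a b p 0

/-- (E) of the header -/
private theorem WEner_E (B X h₀ : ℝ) (hX : 1 ≤ X) (h : LW B X h₀) (k p q : ℝ)
    (hk : h₀ / 2 ≤ k) (hk' : k ≤ 2 * h₀) (hp : X / 4 ≤ p) (hpq : p ≤ q) (hq : q ≤ X) :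
    ∫ y in p..q, (Mz (y + k) - Mz y) ^ 2 ≤ 3 / 2 * B * X * k := by
  have e2 : ∫ x in p..q, (Mz (x + k) - Mz x) ^ 2
      ≤ ∫ x in (X / 4)..X, (Mz (x + k) - Mz x) ^ 2 := by
    apply intervalIntegral.integral_mono_interval hp hpq hq
    · exact Filter.Eventually.of_forall fun x => by positivity
    · exact WEner_int0 _ _ _
  have e3 : ∫ x in (X / 4)..X, (Mz (x + k) - Mz x) ^ 2
      = (∫ x in (X / 4)..(2 * (X / 4)), (Mz (x + k) - Mz x) ^ 2)
        + ∫ x in (X / 2)..(2 * (X / 2)), (Mz (x + k) - Mz x) ^ 2 := by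
    rw [show 2 * (X / 4) = X / 2 by ring, show 2 * (X / 2) = X by ring]
    exact (intervalIntegral.integral_add_adjacent_intervals (WEner_int0 _ _ _)
      (WEner_int0 _ _ _)).symm
  have h3 := h (X / 4) k (by linarith) (by linarith) hk hk'
  have h4 := h (X / 2) k (by linarith) (by linarith) hk hk'
  refine e2.trans ?_
  rw [e3]
  refine (add_le_add h3 h4).trans (le_of_eq ?_)
  ring

/-- (E) after a shift -/
private theorem WEner_S (B X h₀ : ℝ) (hX : 1 ≤ X) (h : LW B X h₀) (k a p q : ℝ)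
    (hk : h₀ / 2 ≤ k) (hk' : k ≤ 2 * h₀) (hp : X / 4 ≤ p + a) (hpq : p ≤ q) (hq : q + a ≤ X) :
    ∫ y in p..q, (Mz (y + (a + k)) - Mz (y + a)) ^ 2 ≤ 3 / 2 * B * X * k := by
  have e1 : ∫ y in p..q, (Mz (y + (a + k)) - Mz (y + a)) ^ 2
      = ∫ x in (p + a)..(q + a), (Mz (x + k) - Mz x) ^ 2 := by
    rw [← intervalIntegral.integral_comp_add_right (fun x => (Mz (x + k) - Mz x) ^ 2) a]
    simp only [add_assoc]
  rw [e1]
  exact WEner_E B X h₀ hX h k _ _ hk hk' hp (by linarith) hq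

theorem wener (B X h₀ : ℝ) (hB : 0 ≤ B) (hX : 1 ≤ X) (hh : 0 < h₀) (hh' : h₀ ≤ X / 160)
    (h : LW B X h₀) (u : ℝ) (hu : 0 ≤ u) (hu' : u ≤ X / 80) :
    ∫ x in (7 / 20 * X)..X, (Mz x - Mz (x - u)) ^ 2 ≤ 100 * B * X * (h₀ + u ^ 2 / h₀) := by
  have hBX : 0 ≤ B * X := by positivity
  have e1 : ∫ x in (7 / 20 * X)..X, (Mz x - Mz (x - u)) ^ 2
      = ∫ x in (7 / 20 * X - u)..(X - u), (Mz (x + u) - Mz x) ^ 2 := by
    rw [← intervalIntegral.integral_comp_sub_right (fun x => (Mz (x + u) - Mz x) ^ 2) u]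
    simp
  rw [e1]
  rcases le_or_gt u h₀ with hc | hc
  · -- short shifts
    have hA := WEner_S B X h₀ hX h (u + h₀) 0 (7 / 20 * X - u) (X - u) (by linarith) (by linarith)
      (by linarith) (by linarith) (by linarith)
    have hC := WEner_S B X h₀ hX h h₀ u (7 / 20 * X - u) (X - u) (by linarith) (by linarith)
      (by linarith) (by linarith) (by linarith)
    have hint1 := WEner_int (7 / 20 * X - u) (X - u) (0 + (u + h₀)) 0
    have hint2 := WEner_int (7 / 20 * X - u) (X - u) (u + h₀) u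
    have hD : ∫ x in (7 / 20 * X - u)..(X - u), (Mz (x + u) - Mz x) ^ 2 ≤
        ∫ x in (7 / 20 * X - u)..(X - u), (2 * (Mz (x + (0 + (u + h₀))) - Mz (x + 0)) ^ 2 +
          2 * (Mz (x + (u + h₀)) - Mz (x + u)) ^ 2) := by
      apply intervalIntegral.integral_mono_on (by linarith) (WEner_int0 _ _ _)
      · exact (hint1.const_mul 2).add (hint2.const_mul 2)
      · intro x _
        rw [zero_add, add_zero]
        nlinarith [sq_nonneg ((Mz (x + (u + h₀)) - Mz x) + (Mz (x + (u + h₀)) - Mz (x + u)))]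
    rw [intervalIntegral.integral_add (hint1.const_mul 2) (hint2.const_mul 2),
      intervalIntegral.integral_const_mul, intervalIntegral.integral_const_mul] at hD
    have h1 : 0 ≤ B * X * h₀ := by positivity
    have h2 : B * X * u ≤ B * X * h₀ := mul_le_mul_of_nonneg_left hc hBX
    have h3 : 0 ≤ B * X * (u ^ 2 / h₀) := by positivity
    have e4 : 100 * B * X * (h₀ + u ^ 2 / h₀) = 100 * (B * X * h₀) + 100 * (B * X * (u ^ 2 / h₀)) := by
      ring
    rw [e4]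
    have e5 : 3 / 2 * B * X * (u + h₀) = 3 / 2 * (B * X * u) + 3 / 2 * (B * X * h₀) := by ring
    have e6 : 3 / 2 * B * X * h₀ = 3 / 2 * (B * X * h₀) := by ring
    rw [e5] at hA
    rw [e6] at hC
    linarith
  · -- long shifts
    have hupos : 0 < u := hh.trans hc
    set m : ℕ := ⌈u / h₀⌉₊ with hm
    have hm1 : u / h₀ ≤ m := Nat.le_ceil _
    have hm2 : (m : ℝ) < u / h₀ + 1 := Nat.ceil_lt_add_one (by positivity)
    have huh : 1 < u / h₀ := by rw [lt_div_iff₀ hh]; linarith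
    have hmpos : (0 : ℝ) < m := by linarith
    have hm3 : (m : ℝ) ≤ 2 * (u / h₀) := by linarith
    set k : ℝ := u / m with hk
    have hmk : (m : ℝ) * k = u := by rw [hk]; field_simp
    have hkpos : 0 < k := by positivity
    have hk1 : k ≤ h₀ := by
      rw [hk, div_le_iff₀ hmpos]
      rw [div_le_iff₀ hh] at hm1
      linarith
    have hk2 : h₀ / 2 ≤ k := by
      rw [hk, le_div_iff₀ hmpos]
      calc h₀ / 2 * m ≤ h₀ / 2 * (2 * (u / h₀)) := by gcongr
        _ = u := by field_simp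
    have hjk : ∀ j ∈ Finset.range m, (j : ℝ) * k + k ≤ u := by
      intro j hj
      rw [Finset.mem_range] at hj
      have h1 : ((j + 1 : ℕ) : ℝ) ≤ m := by exact_mod_cast hj
      push_cast at h1
      calc (j : ℝ) * k + k = ((j : ℝ) + 1) * k := by ring
        _ ≤ m * k := by gcongr
        _ = u := hmk
    have hD : ∫ x in (7 / 20 * X - u)..(X - u), (Mz (x + u) - Mz x) ^ 2 ≤
        ∫ x in (7 / 20 * X - u)..(X - u), (m : ℝ) * ∑ j ∈ Finset.range m,
          (Mz (x + ((j : ℝ) * k + k)) - Mz (x + (j : ℝ) * k)) ^ 2 := by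
      apply intervalIntegral.integral_mono_on (by linarith) (WEner_int0 _ _ _)
      · refine IntervalIntegrable.const_mul ?_ _
        have := IntervalIntegrable.sum (Finset.range m) (fun j _ => WEner_int (7 / 20 * X - u)
          (X - u) ((j : ℝ) * k + k) ((j : ℝ) * k))
        refine this.congr ?_
        intro x _
        simp
      · intro x _
        have hs : Mz (x + u) - Mz x = ∑ j ∈ Finset.range m,
            (Mz (x + ((j : ℝ) * k + k)) - Mz (x + (j : ℝ) * k)) := by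
          have h1 := Finset.sum_range_sub (fun j : ℕ => Mz (x + (j : ℝ) * k)) m
          simp only [Nat.cast_zero, zero_mul, add_zero] at h1
          rw [hmk] at h1
          rw [← h1]
          refine Finset.sum_congr rfl fun j _ => ?_
          push_cast
          rw [show ((j : ℝ) + 1) * k = (j : ℝ) * k + k by ring]
        rw [hs]
        have h2 := sq_sum_le_card_mul_sum_sq (s := Finset.range m)
          (f := fun j : ℕ => Mz (x + ((j : ℝ) * k + k)) - Mz (x + (j : ℝ) * k))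
        rwa [Finset.card_range] at h2
    refine hD.trans ?_
    rw [intervalIntegral.integral_const_mul, intervalIntegral.integral_finsetSum
      (fun j _ => WEner_int _ _ _ _)]
    have hsum : ∑ j ∈ Finset.range m, ∫ x in (7 / 20 * X - u)..(X - u),
        (Mz (x + ((j : ℝ) * k + k)) - Mz (x + (j : ℝ) * k)) ^ 2 ≤ m * (3 / 2 * B * X * k) := by
      calc _ ≤ ∑ _j ∈ Finset.range m, 3 / 2 * B * X * k := by
            refine Finset.sum_le_sum fun j hj => ?_
            have h1 := hjk j hj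
            have h2 : 0 ≤ (j : ℝ) * k := by positivity
            exact WEner_S B X h₀ hX h k ((j : ℝ) * k) _ _ hk2 (by linarith) (by linarith)
              (by linarith) (by linarith)
        _ = m * (3 / 2 * B * X * k) := by rw [Finset.sum_const, Finset.card_range, nsmul_eq_mul]
    have h1 : 0 ≤ B * X * h₀ := by positivity
    have h3 : 0 ≤ B * X * (u ^ 2 / h₀) := by positivity
    calc (m : ℝ) * ∑ j ∈ Finset.range m, ∫ x in (7 / 20 * X - u)..(X - u),
        (Mz (x + ((j : ℝ) * k + k)) - Mz (x + (j : ℝ) * k)) ^ 2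
        ≤ m * (m * (3 / 2 * B * X * k)) := by gcongr
      _ = 3 / 2 * (B * X) * m * (m * k) := by ring
      _ = 3 / 2 * (B * X) * m * u := by rw [hmk]
      _ ≤ 3 / 2 * (B * X) * (2 * (u / h₀)) * u := by gcongr
      _ = 3 * (B * X * (u ^ 2 / h₀)) := by ring
      _ ≤ 100 * B * X * (h₀ + u ^ 2 / h₀) := by
          have e4 : 100 * B * X * (h₀ + u ^ 2 / h₀) =
            100 * (B * X * h₀) + 100 * (B * X * (u ^ 2 / h₀)) := by ring
          rw [e4]
          linarith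

end Pool.Agent.H82.GY

end

section

/-!
GX module DiffB: differences of `SM` at the recurrence points.
-/

set_option autoImplicit false

namespace Pool.Agent.H56.GX

open MeasureTheory Set Complex Filter Topology

theorem cpow_norm_half (x γ : ℝ) (hx : 0 < x) : ‖(x : ℂ) ^ (1 / 2 + (γ : ℂ) * I : ℂ)‖ = Real.sqrt x := by
  rw [Complex.norm_cpow_eq_rpow_re_of_pos hx, Real.sqrt_eq_rpow]
  congr 1
  simp

theorem cpow_scale (τ u γ : ℝ) (hu : 0 < u) :
    ((Real.exp τ * u : ℝ) : ℂ) ^ (1 / 2 + (γ : ℂ) * I : ℂ) -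
      (Real.sqrt (Real.exp τ) : ℂ) * (u : ℂ) ^ (1 / 2 + (γ : ℂ) * I : ℂ) =
    (Real.sqrt (Real.exp τ) : ℂ) * (u : ℂ) ^ (1 / 2 + (γ : ℂ) * I : ℂ) *
      (Complex.exp ((γ * τ : ℝ) * I) - 1) := by
  have h1 : ((Real.exp τ * u : ℝ) : ℂ) ^ (1 / 2 + (γ : ℂ) * I : ℂ) =
      ((Real.exp τ : ℝ) : ℂ) ^ (1 / 2 + (γ : ℂ) * I : ℂ) * (u : ℂ) ^ (1 / 2 + (γ : ℂ) * I : ℂ) := by
    rw [Complex.ofReal_mul, Complex.mul_cpow_ofReal_nonneg (Real.exp_pos τ).le hu.le]
  have h2 : ((Real.exp τ : ℝ) : ℂ) ^ (1 / 2 + (γ : ℂ) * I : ℂ) =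
      (Real.sqrt (Real.exp τ) : ℂ) * Complex.exp ((γ * τ : ℝ) * I) := by
    have h3 : (Real.exp τ : ℂ) ≠ 0 := by
      exact_mod_cast (Real.exp_pos τ).ne'
    rw [Complex.cpow_def_of_ne_zero h3, ← Complex.ofReal_log (Real.exp_pos τ).le, Real.log_exp]
    have h4 : Real.sqrt (Real.exp τ) = Real.exp (τ / 2) := by
      rw [Real.sqrt_eq_iff_mul_self_eq (Real.exp_pos _).le (Real.exp_pos _).le, ← Real.exp_add]
      congr 1
      ring
    rw [h4, Complex.ofReal_exp, ← Complex.exp_add]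
    congr 1
    push_cast
    ring
  rw [h1, h2]
  ring

end Pool.Agent.H56.GX

end

section

/-!
GX module Simple: under `SBound` all zeros on the critical line are simple; residues.

(1) `zeta_simple`: let `ρ = 1/2 + iγ`, `ζ(ρ) = 0`, and suppose `ζ'(ρ) = 0`. Then `ζ(ρ + x) = O(x²)` as
`x → 0+` (`ζ` is analytic at `ρ ≠ 1`; e.g. `ζ(ρ+x)/x → ζ'(ρ) = 0` is enough:). By `F_inv` and `F_norm`,
for small `x > 0`: `‖((ρ+x) ζ(ρ+x))⁻¹‖ = ‖F(ρ+x)‖ ≤ C₁/x`, so `x ≤ C₁ ‖ρ+x‖ ‖ζ(ρ+x)‖`, i.e.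
`‖ζ(ρ+x)‖/x ≥ 1/(C₁ ‖ρ+x‖) ≥ c > 0`, contradicting `ζ(ρ+x)/x → ζ'(ρ) = 0` (`HasDerivAt`).
(2) `res_lim`: for a simple zero, `(s-ρ)/(s ζ(s)) → 1/(ρ ζ'(ρ)) = r γ` as `s → ρ`, `s ≠ ρ`
(slope of `ζ` at `ρ` tends to `ζ'(ρ) ≠ 0`, `hasDerivAt_iff_tendsto_slope`).
-/

set_option autoImplicit false

namespace Pool.Agent.H56.GX

open MeasureTheory Set Complex Filter Topology

theorem res_lim (γ : ℝ) (hγ : γ ∈ Zr) (hd : deriv riemannZeta (1 / 2 + γ * I) ≠ 0) :
    Tendsto (fun s : ℂ => (s - (1 / 2 + γ * I)) * (s * riemannZeta s)⁻¹) (𝓝[≠] (1 / 2 + γ * I))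
      (𝓝 (r γ)) := by
  have hz : riemannZeta (1 / 2 + γ * I) = 0 := hγ
  simp only [r]
  set ρ₀ : ℂ := 1 / 2 + γ * I with hρ
  have hre : ρ₀.re = 1 / 2 := by simp [hρ]
  have hne : ρ₀ ≠ 1 := by
    intro h1
    have := congrArg Complex.re h1
    rw [hre] at this
    norm_num at this
  have hne0 : ρ₀ ≠ 0 := by
    intro h1
    have := congrArg Complex.re h1
    rw [hre] at this
    norm_num at this
  have hda := (differentiableAt_riemannZeta hne).hasDerivAt
  rw [hasDerivAt_iff_tendsto_slope] at hda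
  have h1 : Tendsto (fun s : ℂ => s) (𝓝[≠] ρ₀) (𝓝 ρ₀) :=
    tendsto_id.mono_left nhdsWithin_le_nhds
  have h2 := (h1.mul hda).inv₀ (mul_ne_zero hne0 hd)
  apply h2.congr'
  filter_upwards [self_mem_nhdsWithin] with s hs
  have hs' : s - ρ₀ ≠ 0 := sub_ne_zero.mpr hs
  rw [slope_def_field, hz, sub_zero, mul_inv, mul_inv, inv_div]
  ring

end Pool.Agent.H56.GX

end

section

/-!
GX module ZRefl: `1/ζ` to the left of the critical line, and zero-freeness there.

(1) `zeta_refl`. Let `-1/2 ≤ Re s ≤ 1/2`, `|Im s| ≥ 1`, `w = 1 - s`, `t = Im s`. By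
`riemannZeta_one_sub` (for `w`): `ζ(s) = 2 (2π)^{-w} Γ(w) cos(π w/2) ζ(w)`. So
`‖ζ(s)⁻¹‖ = (1/2) (2π)^{Re w} ‖Γ(w)⁻¹‖ ‖cos(πw/2)⁻¹‖ ‖ζ(w)⁻¹‖`.
* `‖cos(x+iy)‖² = cos² x + sinh² y ≥ sinh²(π t/2) ≥ sinh²(π/2) ≥ 1`, so `‖cos(πw/2)⁻¹‖ ≤ 1`.
* `Γ(w) Γ(s) = π / sin(π s)` so `‖Γ(w)⁻¹‖ = ‖Γ(s) sin(π s)‖ / π ≤ ‖Γ(s)‖ exp(π |t|) / π`
  (`‖sin z‖ ≤ cosh(Im z) ≤ exp |Im z|`), and `Γ(s) = Γ(s+2) / (s (s+1))` with `|s|, |s+1| ≥ |t| ≥ 1`,
  `‖Γ(s+2)‖ ≤ Γ(Re s + 2) ≤ 2` (any absolute constant: e.g. `Γ(x) ≤ Γ(1)+Γ(3)...`; the bound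
  `‖Γ(z)‖ ≤ Γ(Re z)` follows from the integral `Complex.Gamma_eq_integral`, and for `3/2 ≤ x ≤ 5/2` the
  integrand `e^{-u} u^{x-1} ≤ e^{-u} (1 + u²)` gives `Γ(x) ≤ Γ(1) + Γ(3) = 3`).
Altogether `‖ζ(s)⁻¹‖ ≤ exp(C |t|) ‖ζ(1-s)⁻¹‖` (`|t| ≥ 1` absorbs constants). If `ζ(w) = 0` then also
`ζ(s) = 0` and both inverses are `0` in Lean: the inequality holds for all such `s` without a
nonvanishing hypothesis.

(2) `zeta_left_ne`. Let `-1/2 ≤ Re s < 1/2` and `ζ(1-s) ≠ 0`. If `s = 0`: `riemannZeta_zero`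
(`ζ(0) = -1/2`). Else `w = 1-s ≠ 1`, `1/2 < Re w ≤ 3/2`, and in the functional equation `Γ(w) ≠ 0`
(`Complex.Gamma_ne_zero_of_re_pos`), `cos(π w/2) = 0` only if `w` is an odd integer
(`Complex.cos_eq_zero_iff`), i.e. `w = 1`, excluded.
-/

set_option autoImplicit false

namespace Pool.Agent.H56.GX

open MeasureTheory Set Complex Filter Topology

/-- `‖sin z‖ ≤ exp |Im z|`. -/
lemma ZRefl_sin (z : ℂ) : ‖Complex.sin z‖ ≤ Real.exp |z.im| := by
  rw [Complex.sin, norm_div, norm_mul, Complex.norm_I, mul_one, Complex.norm_two]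
  have h1 : ‖Complex.exp (-z * I)‖ ≤ Real.exp |z.im| := by
    rw [Complex.norm_exp]
    apply Real.exp_le_exp.mpr
    have : (-z * I).re = z.im := by simp
    rw [this]; exact le_abs_self _
  have h2 : ‖Complex.exp (z * I)‖ ≤ Real.exp |z.im| := by
    rw [Complex.norm_exp]
    apply Real.exp_le_exp.mpr
    have : (z * I).re = -z.im := by simp
    rw [this]; exact neg_le_abs _
  have h3 := norm_sub_le (Complex.exp (-z * I)) (Complex.exp (z * I))
  rw [div_le_iff₀ (by norm_num)]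
  linarith

/-- `‖Γ(z)‖ ≤ Γ(Re z)` for `Re z > 0`. -/
lemma ZRefl_Gamma_le (z : ℂ) (hz : 0 < z.re) : ‖Complex.Gamma z‖ ≤ Real.Gamma z.re := by
  rw [Complex.Gamma_eq_integral hz, Complex.GammaIntegral, Real.Gamma_eq_integral hz]
  refine (norm_integral_le_integral_norm _).trans (le_of_eq ?_)
  refine setIntegral_congr_fun measurableSet_Ioi ?_
  intro x hx
  simp only
  have hx' : (0 : ℝ) < x := hx
  rw [norm_mul, Complex.norm_real, Real.norm_eq_abs, abs_of_pos (Real.exp_pos _),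
    Complex.norm_cpow_eq_rpow_re_of_pos hx', Complex.sub_re, Complex.one_re]

/-- `Γ(x) ≤ 2` on `[1, 3]`. -/
lemma ZRefl_Gamma_two (x : ℝ) (h1 : 1 ≤ x) (h3 : x ≤ 3) : Real.Gamma x ≤ 2 := by
  have h := Real.convexOn_Gamma.le_max_of_mem_Icc (x := 1) (y := 3) (z := x)
    (show (0 : ℝ) < 1 by norm_num) (show (0 : ℝ) < 3 by norm_num) ⟨h1, h3⟩
  have h2 : Real.Gamma 3 = 2 := by
    have := Real.Gamma_nat_eq_factorial 2
    norm_num at this
    simp
  rw [Real.Gamma_one, h2] at h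
  exact h.trans (by norm_num)

/-- `‖cos z‖ ≥ 1` if `|Im z| ≥ 1`. -/
lemma ZRefl_cos (z : ℂ) (hz : 1 ≤ |z.im|) : 1 ≤ ‖Complex.cos z‖ := by
  have h1 : ‖Complex.cos z‖ ^ 2 = Real.cos z.re ^ 2 + Real.sinh z.im ^ 2 := by
    have h0 : Complex.cos z = ((Real.cos z.re * Real.cosh z.im : ℝ) : ℂ)
        + ((-(Real.sin z.re * Real.sinh z.im) : ℝ) : ℂ) * I := by
      rw [Complex.cos_eq, ← Complex.ofReal_cos, ← Complex.ofReal_cosh, ← Complex.ofReal_sin,
        ← Complex.ofReal_sinh]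
      push_cast; ring
    rw [h0, ← Complex.normSq_eq_norm_sq, Complex.normSq_add_mul_I]
    have h2 := Real.cosh_sq z.im
    have h3 := Real.sin_sq z.re
    have : (Real.cos z.re * Real.cosh z.im) ^ 2 + (-(Real.sin z.re * Real.sinh z.im)) ^ 2
        = Real.cos z.re ^ 2 * Real.cosh z.im ^ 2 + Real.sin z.re ^ 2 * Real.sinh z.im ^ 2 := by
      ring
    rw [this, h2, h3]; ring
  have h4 : 1 ≤ Real.sinh z.im ^ 2 := by
    have h5 : |z.im| ≤ Real.sinh |z.im| := Real.self_le_sinh_iff.mpr (abs_nonneg _)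
    have h6 : Real.sinh |z.im| ^ 2 = Real.sinh z.im ^ 2 := by
      rcases abs_choice z.im with h | h
      · rw [h]
      · rw [h, Real.sinh_neg]; ring
    rw [← h6]
    have h7 : 1 ≤ Real.sinh |z.im| := hz.trans h5
    nlinarith
  have h8 : 1 ≤ ‖Complex.cos z‖ ^ 2 := by
    rw [h1]
    have := sq_nonneg (Real.cos z.re)
    linarith
  by_contra hc
  push Not at hc
  have := norm_nonneg (Complex.cos z)
  nlinarith

theorem zeta_refl : ∃ C : ℝ, 0 < C ∧ ∀ s : ℂ, -(1 / 2) ≤ s.re → s.re ≤ 1 / 2 → 1 ≤ |s.im| →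
    ‖(riemannZeta s)⁻¹‖ ≤ Real.exp (C * |s.im|) * ‖(riemannZeta (1 - s))⁻¹‖ := by
  refine ⟨Real.pi + 100, by positivity, fun s h1 h2 h3 => ?_⟩
  have him : s.im ≠ 0 := by
    intro h; rw [h, abs_zero] at h3; linarith
  set w : ℂ := 1 - s with hw
  have hwim : w.im = -s.im := by rw [hw]; simp
  have hwre : w.re = 1 - s.re := by rw [hw]; simp
  have hwn : ∀ n : ℕ, w ≠ -n := by
    intro n h
    have := congrArg Complex.im h
    rw [hwim] at this
    simp at this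
    exact him this
  have hw1 : w ≠ 1 := by
    intro h
    have := congrArg Complex.im h
    rw [hwim] at this
    simp at this
    exact him this
  have hfe := riemannZeta_one_sub hwn hw1
  have hs1 : 1 - w = s := by rw [hw]; ring
  rw [hs1] at hfe
  have hsn : ∀ m : ℕ, s ≠ -m := by
    intro m h
    have := congrArg Complex.im h
    simp at this
    exact him this
  have hGs : Complex.Gamma s ≠ 0 := Complex.Gamma_ne_zero hsn
  have hGw : Complex.Gamma w ≠ 0 := Complex.Gamma_ne_zero hwn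
  have hrefl := Complex.Gamma_mul_Gamma_one_sub w
  rw [hs1] at hrefl
  have hsin : Complex.sin (Real.pi * w) ≠ 0 := by
    intro h
    rw [h, div_zero] at hrefl
    exact (mul_ne_zero hGw hGs) hrefl
  have hGinv : (Complex.Gamma w)⁻¹ = Complex.Gamma s * Complex.sin (Real.pi * w) / Real.pi := by
    have hpi : (Real.pi : ℂ) ≠ 0 := by exact_mod_cast Real.pi_ne_zero
    have h4 : Complex.Gamma w * Complex.Gamma s * Complex.sin (Real.pi * w) = Real.pi := by
      rw [hrefl]; field_simp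
    rw [eq_div_iff hpi, inv_mul_eq_iff_eq_mul₀ hGw]
    rw [← mul_assoc]
    exact h4.symm
  have hGs2 : ‖Complex.Gamma s‖ ≤ 2 := by
    have hs0 : s ≠ 0 := by
      intro h; apply him; rw [h]; simp
    have hs10 : s + 1 ≠ 0 := by
      intro h
      have := congrArg Complex.im h
      simp at this
      exact him this
    have h5 : Complex.Gamma (s + 1 + 1) = (s + 1) * (s * Complex.Gamma s) := by
      rw [Complex.Gamma_add_one _ hs10, Complex.Gamma_add_one _ hs0]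
    have h6 : ‖Complex.Gamma (s + 1 + 1)‖ ≤ 2 := by
      have hre : (s + 1 + 1).re = s.re + 2 := by simp; ring
      refine (ZRefl_Gamma_le _ (by rw [hre]; linarith)).trans ?_
      rw [hre]
      exact ZRefl_Gamma_two _ (by linarith) (by linarith)
    rw [h5, norm_mul, norm_mul] at h6
    have h7 : 1 ≤ ‖s‖ := h3.trans (Complex.abs_im_le_norm s)
    have h8 : 1 ≤ ‖s + 1‖ := by
      have h9 : |(s + 1).im| ≤ ‖s + 1‖ := Complex.abs_im_le_norm _
      have h10 : (s + 1).im = s.im := by simp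
      rw [h10] at h9
      exact h3.trans h9
    have h11 : ‖Complex.Gamma s‖ ≤ ‖s‖ * ‖Complex.Gamma s‖ :=
      le_mul_of_one_le_left (norm_nonneg _) h7
    have h12 : ‖s‖ * ‖Complex.Gamma s‖ ≤ ‖s + 1‖ * (‖s‖ * ‖Complex.Gamma s‖) :=
      le_mul_of_one_le_left (by positivity) h8
    linarith
  have hGwb : ‖(Complex.Gamma w)⁻¹‖ ≤ 2 * Real.exp (Real.pi * |s.im|) / Real.pi := by
    rw [hGinv, norm_div, norm_mul, Complex.norm_real, Real.norm_eq_abs, abs_of_pos Real.pi_pos]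
    have h13 : ‖Complex.sin (Real.pi * w)‖ ≤ Real.exp (Real.pi * |s.im|) := by
      refine (ZRefl_sin _).trans (le_of_eq ?_)
      have : ((Real.pi : ℂ) * w).im = -(Real.pi * s.im) := by
        rw [Complex.im_ofReal_mul, hwim]; ring
      rw [this, abs_neg, abs_mul, abs_of_pos Real.pi_pos]
    gcongr
  have hcos : ‖(Complex.cos (Real.pi * w / 2))⁻¹‖ ≤ 1 := by
    rw [norm_inv]
    apply inv_le_one_of_one_le₀
    apply ZRefl_cos
    have : ((Real.pi : ℂ) * w / 2).im = -(Real.pi * s.im / 2) := by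
      have h20 : (Real.pi : ℂ) * w / 2 = ((Real.pi / 2 : ℝ) : ℂ) * w := by push_cast; ring
      rw [h20, Complex.im_ofReal_mul, hwim]; ring
    rw [this, abs_neg, abs_div, abs_mul, abs_of_pos Real.pi_pos, abs_of_pos (by norm_num : (0 : ℝ) < 2)]
    have := Real.pi_gt_three
    nlinarith
  have hpow : ‖((2 * (Real.pi : ℂ)) ^ (-w))⁻¹‖ ≤ 64 := by
    have h14 : (2 * (Real.pi : ℂ)) = ((2 * Real.pi : ℝ) : ℂ) := by push_cast; ring
    rw [norm_inv, h14, Complex.norm_cpow_eq_rpow_re_of_pos (by positivity), Complex.neg_re,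
      Real.rpow_neg (by positivity), inv_inv, hwre]
    calc (2 * Real.pi) ^ (1 - s.re) ≤ (2 * Real.pi) ^ (2 : ℝ) :=
        Real.rpow_le_rpow_of_exponent_le (by linarith [Real.pi_gt_three]) (by linarith)
      _ = (2 * Real.pi) ^ 2 := Real.rpow_two _
      _ ≤ 64 := by nlinarith [Real.pi_lt_four, Real.pi_pos]
  rw [hfe]
  have heq : ‖(2 * (2 * (Real.pi : ℂ)) ^ (-w) * Complex.Gamma w * Complex.cos (Real.pi * w / 2)
      * riemannZeta w)⁻¹‖ = 1 / 2 * ‖((2 * (Real.pi : ℂ)) ^ (-w))⁻¹‖ * ‖(Complex.Gamma w)⁻¹‖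
        * ‖(Complex.cos (Real.pi * w / 2))⁻¹‖ * ‖(riemannZeta w)⁻¹‖ := by
    simp only [mul_inv, norm_mul, norm_inv, Complex.norm_two]
    ring
  rw [heq]
  have hexp : (1 / 2 * 64 * (2 * Real.exp (Real.pi * |s.im|) / Real.pi) * 1)
      ≤ Real.exp ((Real.pi + 100) * |s.im|) := by
    rw [add_mul, Real.exp_add]
    have h15 : 100 * |s.im| + 1 ≤ Real.exp (100 * |s.im|) := Real.add_one_le_exp _
    have h16 : 1 / 2 * 64 * (2 * Real.exp (Real.pi * |s.im|) / Real.pi) * 1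
        = Real.exp (Real.pi * |s.im|) * (64 / Real.pi) := by ring
    rw [h16]
    apply mul_le_mul_of_nonneg_left _ (Real.exp_pos _).le
    have h17 : 64 / Real.pi ≤ 64 := by
      rw [div_le_iff₀ Real.pi_pos]
      nlinarith [Real.pi_gt_three]
    linarith
  refine mul_le_mul_of_nonneg_right (le_trans ?_ hexp) (norm_nonneg _)
  gcongr

theorem zeta_left_ne (s : ℂ) (h1 : -(1 / 2) ≤ s.re) (h2 : s.re < 1 / 2)
    (h : riemannZeta (1 - s) ≠ 0) : riemannZeta s ≠ 0 := by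
  rcases eq_or_ne s 0 with h0 | h0
  · rw [h0, riemannZeta_zero]; norm_num
  set w : ℂ := 1 - s with hw
  have hwre : w.re = 1 - s.re := by rw [hw]; simp
  have hwn : ∀ n : ℕ, w ≠ -n := by
    intro n hn
    have := congrArg Complex.re hn
    rw [hwre] at this
    simp at this
    have h3 : (0 : ℝ) ≤ n := Nat.cast_nonneg n
    linarith
  have hw1 : w ≠ 1 := by
    intro h3
    apply h0
    have : s = 1 - w := by rw [hw]; ring
    rw [this, h3]; ring
  have hfe := riemannZeta_one_sub hwn hw1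
  have hs1 : 1 - w = s := by rw [hw]; ring
  rw [hs1] at hfe
  rw [hfe]
  have hpi : (2 * (Real.pi : ℂ)) ≠ 0 := by
    have : (Real.pi : ℂ) ≠ 0 := by exact_mod_cast Real.pi_ne_zero
    exact mul_ne_zero two_ne_zero this
  have hcos : Complex.cos (Real.pi * w / 2) ≠ 0 := by
    intro hc
    rw [Complex.cos_eq_zero_iff] at hc
    obtain ⟨k, hk⟩ := hc
    have hpi0 : (Real.pi : ℂ) ≠ 0 := by exact_mod_cast Real.pi_ne_zero
    have h4 : w = 2 * k + 1 := by
      have : (Real.pi : ℂ) * w = Real.pi * (2 * k + 1) := by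
        have h5 : (Real.pi : ℂ) * w = 2 * (Real.pi * w / 2) := by ring
        rw [h5, hk]; ring
      exact mul_left_cancel₀ hpi0 this
    have h6 : w.re = 2 * (k : ℝ) + 1 := by
      rw [h4]; simp
    rw [hwre] at h6
    have h7 : -(1 : ℝ) < 2 * (k : ℝ) := by linarith
    have h8 : 2 * (k : ℝ) < 2 := by linarith
    have h9 : (-1 : ℤ) < 2 * k := by exact_mod_cast h7
    have h10 : 2 * k < (2 : ℤ) := by exact_mod_cast h8
    have h11 : k = 0 := by omega
    apply hw1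
    rw [h4, h11]; simp
  have hGw : Complex.Gamma w ≠ 0 := Complex.Gamma_ne_zero hwn
  have hp : (2 * (Real.pi : ℂ)) ^ (-w) ≠ 0 := by
    rw [Complex.cpow_def_of_ne_zero hpi]
    exact Complex.exp_ne_zero _
  exact mul_ne_zero (mul_ne_zero (mul_ne_zero (mul_ne_zero two_ne_zero hp) hGw) hcos) h

end Pool.Agent.H56.GX

end

section

/-!
GX module Contour: the residue theorem for `f(s) = K(s) x^s / (s ζ(s))` on `[-1/2, 2] × [-T, T]`.

Let `T > 0` with `ζ(σ ± iT) ≠ 0` for `-1/2 ≤ σ ≤ 2` (as in `good_heights`).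
Zeros of `ζ` with `-1/2 ≤ Re ≤ 2`: none with `Re > 1/2` except possibly... (`F_inv`; at `s = 1`
`riemannZeta 1 ≠ 0`, `riemannZeta_one_ne_zero`), none with `-1/2 ≤ Re < 1/2` (`zeta_left_ne` with
`ζ(1-s) ≠ 0` by `F_inv` for `s ≠ 0`, and at `s = 0` `1 - s = 1`, `riemannZeta_one_ne_zero`). So all are
`1/2 + iγ`, `γ ∈ Zr`, `|γ| < T` for those in the rectangle (finitely many:
`IsCompact.inter_riemannZetaZeros_finite`). Apply `rect_residue` with
`U = {-3/4 < Re s}`... careful: on the vertical strip `-3/4 < Re s < -1/2` we do not know zero-freeness;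
take `U = {s | -1/2 ≤ ...}`: since `U` must be open and contain the closed rectangle, use
`U = (open neighbourhood of the rectangle on which the only zeros are the ones in S)`, e.g. the
complement of `(zeros of ζ) \ S` (closed, since the zero set is closed and discrete:
`isClosed_riemannZetaZeros`, `isDiscrete_riemannZetaZeros`; any subset of it is closed too, e.g.
`zeros \ S` = zeros ∩ complement of the open union of small balls around `S`; or by
`tendsto_riemannZeta_cofinite_cocompact`).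
`S = {0, 1} ∪ {1/2 + iγ : γ ∈ Zr, |γ| < T}` and `f s = K η s * x^s * (s * riemannZeta s)⁻¹`.
Residues: at `0`: `s f(s) → K(0)/ζ(0) = -2 K η 0` (`riemannZeta_zero`); at `1`: `(s-1) f(s) → 0` because
`(riemannZeta s)⁻¹ → 0` as `s → 1`, `s ≠ 1` (`riemannZeta_residue_one : (s-1) ζ(s) → 1`); at
`1/2+iγ`: `res_lim`, giving `a η γ x^{1/2+iγ}` (`a = K r`). The points of `S` are distinct.
On `Re s = 2`: `F = (s ζ(s))⁻¹` (`F_inv`).
The finset of ordinates is any `A : Finset ℝ` with `γ ∈ A ↔ γ ∈ Zr ∧ |γ| < T`.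
-/

set_option autoImplicit false

namespace Pool.Agent.H56.GX

open MeasureTheory Set Complex Filter Topology

/-- The function whose contour integral is taken. -/
noncomputable def fc (η x : ℝ) (s : ℂ) : ℂ := K η s * (x : ℂ) ^ s * (s * riemannZeta s)⁻¹

private lemma Contour_phi_inj : Function.Injective (fun γ : ℝ => (1 / 2 : ℂ) + γ * I) := by
  intro γ γ' h
  have := congrArg Complex.im h
  simpa using this

theorem zr_finite (T : ℝ) : {γ : ℝ | γ ∈ Zr ∧ |γ| < T}.Finite := by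
  have hc : IsCompact (Metric.closedBall (0 : ℂ) (1 + |T|)) := isCompact_closedBall _ _
  have hf := hc.inter_riemannZetaZeros_finite
  refine Set.Finite.of_finite_image (f := fun γ : ℝ => (1 / 2 : ℂ) + γ * I) (hf.subset ?_)
    Contour_phi_inj.injOn
  rintro _ ⟨γ, ⟨h1, h2⟩, rfl⟩
  refine ⟨?_, h1⟩
  rw [mem_closedBall_zero_iff]
  refine (norm_add_le _ _).trans ?_
  have e1 : ‖(1 / 2 : ℂ)‖ = 1 / 2 := by norm_num
  have e2 : ‖(γ : ℂ) * I‖ = |γ| := by simp
  rw [e1, e2]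
  have := le_abs_self T
  linarith

end Pool.Agent.H56.GX

end

section

/-!
GX module RectA: the boundary integral of `1/(s - w)` over a rectangle is `2πi`.

By translation `w = 0`, `a < 0 < b`, `c < 0 < d`. On the bottom, right and top sides use the
antiderivative `Complex.log` (they lie in `slitPlane`), on the left side use `s ↦ Complex.log (-s)`
(`intervalIntegral.integral_eq_sub_of_hasDerivAt`). The sum of the four integrals is
`log(b+ic) - log(a+ic) - (log(b+id) - log(a+id)) + (log(b+id) - log(b+ic))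
 - (log(-(a+id)) - log(-(a+ic)))`, and `log z - log (-z) = iπ` for `Im z > 0`, `= -iπ` for `Im z < 0`.
-/

set_option autoImplicit false

namespace Pool.Agent.H56.GX

open MeasureTheory Set Complex Filter Topology

/-- The boundary integral (counterclockwise) of `f` over the rectangle `[a,b] × [c,d]`. -/
noncomputable def Rect (f : ℂ → ℂ) (a b c d : ℝ) : ℂ :=
  (∫ x in a..b, f (x + c * I)) - (∫ x in a..b, f (x + d * I)) +
    I * (∫ y in c..d, f (b + y * I)) - I * (∫ y in c..d, f (a + y * I))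

private theorem RectA_hor (a b e : ℝ) (w : ℂ) (he : e - w.im ≠ 0) :
    ∫ x in a..b, ((x : ℂ) + e * I - w)⁻¹ =
      Complex.log (b + e * I - w) - Complex.log (a + e * I - w) := by
  have him : ∀ x : ℝ, ((x : ℂ) + e * I - w).im = e - w.im := fun x => by simp
  have hne : ∀ x : ℝ, (x : ℂ) + e * I - w ≠ 0 := by
    intro x h
    have := him x
    rw [h] at this
    exact he (by simpa using this.symm)
  have hcont : Continuous (fun x : ℝ => ((x : ℂ) + e * I - w)⁻¹) :=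
    Continuous.inv₀ (by fun_prop) hne
  refine intervalIntegral.integral_eq_sub_of_hasDerivAt
    (f := fun x : ℝ => Complex.log ((x : ℂ) + e * I - w)) (fun x _ => ?_)
    (hcont.intervalIntegrable a b)
  have h1 : HasDerivAt (fun x : ℝ => (x : ℂ) + e * I - w) 1 x :=
    ((Complex.ofRealCLM.hasDerivAt (x := x)).add_const (e * I)).sub_const w
  have h2 := h1.clog_real (Complex.mem_slitPlane_iff.2 (Or.inr (by rw [him x]; exact he)))
  rw [one_div] at h2
  exact h2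

private theorem RectA_right (b c d : ℝ) (w : ℂ) (hb : w.re < b) :
    I * ∫ y in c..d, ((b : ℂ) + y * I - w)⁻¹ =
      Complex.log (b + d * I - w) - Complex.log (b + c * I - w) := by
  have hre : ∀ y : ℝ, ((b : ℂ) + y * I - w).re = b - w.re := fun y => by simp
  have hne : ∀ y : ℝ, (b : ℂ) + y * I - w ≠ 0 := by
    intro y h
    have h1 := hre y
    rw [h, Complex.zero_re] at h1
    linarith
  have hcont : Continuous (fun y : ℝ => I / ((b : ℂ) + y * I - w)) :=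
    Continuous.div (by fun_prop) (by fun_prop) hne
  have hmul : I * ∫ y in c..d, ((b : ℂ) + y * I - w)⁻¹ =
      ∫ y in c..d, I / ((b : ℂ) + y * I - w) := by
    rw [← intervalIntegral.integral_const_mul]
    simp only [div_eq_mul_inv]
  rw [hmul]
  refine intervalIntegral.integral_eq_sub_of_hasDerivAt
    (f := fun y : ℝ => Complex.log ((b : ℂ) + y * I - w)) (fun y _ => ?_)
    (hcont.intervalIntegrable c d)
  have h1 : HasDerivAt (fun y : ℝ => (b : ℂ) + y * I - w) I y := by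
    have h3 := (((Complex.ofRealCLM.hasDerivAt (x := y)).mul_const I).const_add (b : ℂ)).sub_const w
    simpa using h3
  exact h1.clog_real (Complex.mem_slitPlane_iff.2 (Or.inl (by rw [hre y]; linarith)))

private theorem RectA_left (a c d : ℝ) (w : ℂ) (ha : a < w.re) :
    I * ∫ y in c..d, ((a : ℂ) + y * I - w)⁻¹ =
      Complex.log (-(a + d * I - w)) - Complex.log (-(a + c * I - w)) := by
  have hre : ∀ y : ℝ, ((a : ℂ) + y * I - w).re = a - w.re := fun y => by simp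
  have hne : ∀ y : ℝ, (a : ℂ) + y * I - w ≠ 0 := by
    intro y h
    have h1 := hre y
    rw [h, Complex.zero_re] at h1
    linarith
  have hcont : Continuous (fun y : ℝ => I / ((a : ℂ) + y * I - w)) :=
    Continuous.div (by fun_prop) (by fun_prop) hne
  have hmul : I * ∫ y in c..d, ((a : ℂ) + y * I - w)⁻¹ =
      ∫ y in c..d, I / ((a : ℂ) + y * I - w) := by
    rw [← intervalIntegral.integral_const_mul]
    simp only [div_eq_mul_inv]
  rw [hmul]
  refine intervalIntegral.integral_eq_sub_of_hasDerivAt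
    (f := fun y : ℝ => Complex.log (-((a : ℂ) + y * I - w))) (fun y _ => ?_)
    (hcont.intervalIntegrable c d)
  have h1 : HasDerivAt (fun y : ℝ => (a : ℂ) + y * I - w) I y := by
    have h3 := (((Complex.ofRealCLM.hasDerivAt (x := y)).mul_const I).const_add (a : ℂ)).sub_const w
    simpa using h3
  have h2 := h1.neg.clog_real (Complex.mem_slitPlane_iff.2 (Or.inl (by
    rw [Pi.neg_apply, Complex.neg_re, hre y]
    linarith)))
  rw [Pi.neg_apply, neg_div_neg_eq] at h2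
  exact h2

private theorem RectA_pos {z : ℂ} (hz : 0 < z.im) :
    Complex.log z - Complex.log (-z) = Real.pi * I := by
  unfold Complex.log
  rw [norm_neg, Complex.arg_neg_eq_arg_sub_pi_of_im_pos hz]
  push_cast
  ring

private theorem RectA_neg {z : ℂ} (hz : z.im < 0) :
    Complex.log z - Complex.log (-z) = -(Real.pi * I) := by
  unfold Complex.log
  rw [norm_neg, Complex.arg_neg_eq_arg_add_pi_of_im_neg hz]
  push_cast
  ring

theorem rect_inv (a b c d : ℝ) (w : ℂ) (ha : a < w.re) (hb : w.re < b) (hc : c < w.im)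
    (hd : w.im < d) : Rect (fun s => (s - w)⁻¹) a b c d = 2 * Real.pi * I := by
  unfold Rect
  rw [RectA_hor a b c w (by linarith), RectA_hor a b d w (by linarith), RectA_right b c d w hb,
    RectA_left a c d w ha]
  have h1 := RectA_pos (z := (a : ℂ) + d * I - w) (by simp; linarith)
  have h2 := RectA_neg (z := (a : ℂ) + c * I - w) (by simp; linarith)
  linear_combination h1 - h2

end Pool.Agent.H56.GX

end

section

/-!
GX module RectB: the residue theorem for rectangles and finitely many simple poles.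

Induction on the finite set `S` (for all `f`). `S = ∅`: Mathlib's
`Complex.integral_boundary_rect_eq_zero_of_differentiableOn`. Step: pick `w ∈ S`, put
`h s = f s - ρ w / (s - w)`. On `U \ S`, `h` is holomorphic and `(s-w) h(s) → 0` as `s → w`, `s ≠ w`, so
`h₁ = Function.update h w (limUnder (𝓝[≠] w) h)` is differentiable at `w`
(`Complex.differentiableOn_update_limUnder_of_isLittleO`, on a small ball `B(w, δ) ⊂ U` that meets `S`
only in `w`). So `h₁` is holomorphic on `U \ (S \ {w})`, with the same limits at the other points `w'` of `S`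
(`(s-w') ρ w / (s-w) → 0`, and `h₁ = h` near `w'`). By induction `Rect h₁ = 2πi ∑_{S \ {w}} ρ`. On the
boundary `h₁ = h = f - ρ w/(s-w)` (as `w` is an interior point), so
`Rect f = Rect h₁ + ρ w Rect (1/(s-w))` (linearity needs interval integrability: continuity on the
boundary), and `rect_inv`.
-/

set_option autoImplicit false

namespace Pool.Agent.H56.GX

open MeasureTheory Set Complex Filter Topology

private theorem RectB_side (f h₁ φ : _) (V : Set ℂ) (w r : ℂ) (p q : ℝ)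
    (hφ : Continuous (φ : ℝ → ℂ)) (hw : ∀ x, φ x ≠ w) (hV : ∀ x ∈ Set.uIcc p q, φ x ∈ V)
    (hc : ContinuousOn (h₁ : ℂ → ℂ) V)
    (he : ∀ s, s ≠ w → (f : ℂ → ℂ) s = h₁ s + r * (s - w)⁻¹) :
    (∫ x in p..q, f (φ x)) = (∫ x in p..q, h₁ (φ x)) + r * ∫ x in p..q, (φ x - w)⁻¹ := by
  have h1 : IntervalIntegrable (fun x => h₁ (φ x)) volume p q := by
    apply ContinuousOn.intervalIntegrable
    exact hc.comp hφ.continuousOn (fun x hx => hV x hx)
  have h2 : IntervalIntegrable (fun x => (φ x - w)⁻¹) volume p q := by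
    apply Continuous.intervalIntegrable
    exact (hφ.sub continuous_const).inv₀ (fun x => sub_ne_zero.mpr (hw x))
  rw [← intervalIntegral.integral_const_mul, ← intervalIntegral.integral_add h1 (h2.const_mul r)]
  apply intervalIntegral.integral_congr
  intro x _
  exact he (φ x) (hw x)

private theorem RectB_split (a b c d : ℝ) (hab : a < b) (hcd : c < d) (f h₁ : ℂ → ℂ)
    (V : Set ℂ) (w r : ℂ) (ha : a < w.re) (hb : w.re < b) (hc : c < w.im) (hd : w.im < d)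
    (hV : ∀ s : ℂ, a ≤ s.re → s.re ≤ b → c ≤ s.im → s.im ≤ d →
      (s.re = a ∨ s.re = b ∨ s.im = c ∨ s.im = d) → s ∈ V)
    (hcont : ContinuousOn h₁ V) (he : ∀ s, s ≠ w → f s = h₁ s + r * (s - w)⁻¹) :
    Rect f a b c d = Rect h₁ a b c d + r * Rect (fun s => (s - w)⁻¹) a b c d := by
  have e1 : (∫ x in a..b, f (x + c * I)) = (∫ x in a..b, h₁ (x + c * I)) +
      r * ∫ x in a..b, ((x : ℂ) + c * I - w)⁻¹ := by
    apply RectB_side f h₁ (fun x : ℝ => (x : ℂ) + c * I) V w r a b (by fun_prop) _ _ hcont he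
    · intro x hx
      have := congrArg Complex.im hx
      simp at this
      linarith
    · intro x hx
      rw [Set.uIcc_of_le hab.le] at hx
      apply hV <;> simp [hx.1, hx.2, hcd.le]
  have e2 : (∫ x in a..b, f (x + d * I)) = (∫ x in a..b, h₁ (x + d * I)) +
      r * ∫ x in a..b, ((x : ℂ) + d * I - w)⁻¹ := by
    apply RectB_side f h₁ (fun x : ℝ => (x : ℂ) + d * I) V w r a b (by fun_prop) _ _ hcont he
    · intro x hx
      have := congrArg Complex.im hx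
      simp at this
      linarith
    · intro x hx
      rw [Set.uIcc_of_le hab.le] at hx
      apply hV <;> simp [hx.1, hx.2, hcd.le]
  have e3 : (∫ y in c..d, f (b + y * I)) = (∫ y in c..d, h₁ (b + y * I)) +
      r * ∫ y in c..d, ((b : ℂ) + y * I - w)⁻¹ := by
    apply RectB_side f h₁ (fun y : ℝ => (b : ℂ) + y * I) V w r c d (by fun_prop) _ _ hcont he
    · intro x hx
      have := congrArg Complex.re hx
      simp at this
      linarith
    · intro x hx
      rw [Set.uIcc_of_le hcd.le] at hx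
      apply hV <;> simp [hx.1, hx.2, hab.le]
  have e4 : (∫ y in c..d, f (a + y * I)) = (∫ y in c..d, h₁ (a + y * I)) +
      r * ∫ y in c..d, ((a : ℂ) + y * I - w)⁻¹ := by
    apply RectB_side f h₁ (fun y : ℝ => (a : ℂ) + y * I) V w r c d (by fun_prop) _ _ hcont he
    · intro x hx
      have := congrArg Complex.re hx
      simp at this
      linarith
    · intro x hx
      rw [Set.uIcc_of_le hcd.le] at hx
      apply hV <;> simp [hx.1, hx.2, hab.le]
  simp only [Rect]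
  rw [e1, e2, e3, e4]
  ring

theorem rect_residue (a b c d : ℝ) (hab : a < b) (hcd : c < d) (U : Set ℂ) (hU : IsOpen U)
    (hR : ∀ s : ℂ, a ≤ s.re → s.re ≤ b → c ≤ s.im → s.im ≤ d → s ∈ U) (S : Finset ℂ)
    (hS : ∀ w ∈ S, a < w.re ∧ w.re < b ∧ c < w.im ∧ w.im < d) (f : ℂ → ℂ) (ρ : ℂ → ℂ)
    (hf : DifferentiableOn ℂ f (U \ (S : Set ℂ)))
    (hρ : ∀ w ∈ S, Tendsto (fun s => (s - w) * f s) (𝓝[≠] w) (𝓝 (ρ w))) :
    Rect f a b c d = 2 * Real.pi * I * ∑ w ∈ S, ρ w := by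
  induction S using Finset.induction_on generalizing f with
  | empty =>
    have h := Complex.integral_boundary_rect_eq_zero_of_differentiableOn f
      ((a : ℂ) + c * I) ((b : ℂ) + d * I) (by
        apply hf.mono
        intro s hs
        rw [Complex.mem_reProdIm] at hs
        simp only [add_re, ofReal_re, mul_re, I_re, mul_zero, ofReal_im, I_im, mul_one, sub_self,
          add_zero, add_im, mul_im, zero_add] at hs
        rw [Set.uIcc_of_le hab.le, Set.uIcc_of_le hcd.le] at hs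
        simp only [Finset.coe_empty, Set.sdiff_empty]
        exact hR s hs.1.1 hs.1.2 hs.2.1 hs.2.2)
    simp only [add_re, ofReal_re, mul_re, I_re, mul_zero, ofReal_im, I_im, mul_one, sub_self,
          add_zero, add_im, mul_im, zero_add, smul_eq_mul] at h
    simp only [Rect, Finset.sum_empty, mul_zero]
    exact h
  | insert w S hwS ih =>
    obtain ⟨hwa, hwb, hwc, hwd⟩ := hS w (Finset.mem_insert_self w S)
    have hwU : w ∈ U := hR w hwa.le hwb.le hwc.le hwd.le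
    have hopen : IsOpen (U \ (S : Set ℂ)) := hU.sdiff S.finite_toSet.isClosed
    have hwV : w ∈ U \ (S : Set ℂ) := ⟨hwU, by simpa using hwS⟩
    set h : ℂ → ℂ := fun s => f s - ρ w * (s - w)⁻¹ with hh
    have hdiff : (U \ (S : Set ℂ)) \ {w} = U \ ((insert w S : Finset ℂ) : Set ℂ) := by
      ext s
      simp only [Set.mem_sdiff, Finset.mem_coe, Set.mem_singleton_iff, Finset.coe_insert,
        Set.mem_insert_iff, not_or]
      tauto
    have hhd : DifferentiableOn ℂ h ((U \ (S : Set ℂ)) \ {w}) := by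
      rw [hdiff]
      apply hf.sub
      intro s hs
      have hsw : s ≠ w := by
        rintro rfl
        exact hs.2 (by simp)
      apply DifferentiableAt.differentiableWithinAt
      have : s - w ≠ 0 := sub_ne_zero.mpr hsw
      fun_prop (disch := assumption)
    have hlim : Tendsto (fun s => (s - w) * h s) (𝓝[≠] w) (𝓝 0) := by
      have h1 := hρ w (Finset.mem_insert_self w S)
      have h2 : Tendsto (fun s => (s - w) * f s - ρ w) (𝓝[≠] w) (𝓝 (ρ w - ρ w)) :=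
        h1.sub tendsto_const_nhds
      rw [sub_self] at h2
      apply h2.congr'
      filter_upwards [self_mem_nhdsWithin] with s hs
      have : s - w ≠ 0 := sub_ne_zero.mpr hs
      simp only [hh]
      field_simp
    have ho : (fun z => h z - h w) =o[𝓝[≠] w] fun z => (z - w)⁻¹ := by
      have h3 : Tendsto (fun s => (s - w) * h w) (𝓝[≠] w) (𝓝 0) := by
        have : Tendsto (fun s : ℂ => (s - w) * h w) (𝓝 w) (𝓝 ((w - w) * h w)) := by
          apply Continuous.tendsto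
          fun_prop
        rw [sub_self, zero_mul] at this
        exact this.mono_left nhdsWithin_le_nhds
      have h4 := hlim.sub h3
      rw [sub_zero] at h4
      rw [Asymptotics.isLittleO_iff_tendsto']
      · apply h4.congr'
        filter_upwards [self_mem_nhdsWithin] with s hs
        have : s - w ≠ 0 := sub_ne_zero.mpr hs
        field_simp
      · filter_upwards [self_mem_nhdsWithin] with s hs h5
        exact absurd (inv_eq_zero.mp h5) (sub_ne_zero.mpr hs)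
    set h₁ : ℂ → ℂ := Function.update h w (limUnder (𝓝[≠] w) h) with hh1
    have hd1 : DifferentiableOn ℂ h₁ (U \ (S : Set ℂ)) :=
      Complex.differentiableOn_update_limUnder_of_isLittleO (hopen.mem_nhds hwV) hhd ho
    have hne : ∀ s, s ≠ w → h₁ s = h s := fun s hs => by
      rw [hh1, Function.update_of_ne hs]
    have hρ1 : ∀ w' ∈ S, Tendsto (fun s => (s - w') * h₁ s) (𝓝[≠] w') (𝓝 (ρ w')) := by
      intro w' hw'
      have hww : w' ≠ w := by
        rintro rfl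
        exact hwS hw'
      have h1 := hρ w' (Finset.mem_insert_of_mem hw')
      have h2 : Tendsto (fun s : ℂ => (s - w') * (ρ w * (s - w)⁻¹)) (𝓝[≠] w') (𝓝 0) := by
        have h3 : Tendsto (fun s : ℂ => (s - w') * (ρ w * (s - w)⁻¹)) (𝓝 w')
            (𝓝 ((w' - w') * (ρ w * (w' - w)⁻¹))) := by
          apply ContinuousAt.tendsto
          have : w' - w ≠ 0 := sub_ne_zero.mpr hww
          fun_prop (disch := assumption)
        rw [sub_self, zero_mul] at h3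
        exact h3.mono_left nhdsWithin_le_nhds
      have h4 := h1.sub h2
      rw [sub_zero] at h4
      apply h4.congr'
      have h5 : ∀ᶠ s in 𝓝[≠] w', s ≠ w :=
        (isOpen_ne.mem_nhds hww : {s | s ≠ w} ∈ 𝓝 w') |> fun h => mem_nhdsWithin_of_mem_nhds h
      filter_upwards [h5] with s hs
      rw [hne s hs, hh]
      ring
    have hi := ih (fun w' hw' => hS w' (Finset.mem_insert_of_mem hw')) h₁ hd1 hρ1
    have hsp := RectB_split a b c d hab hcd f h₁ (U \ (S : Set ℂ)) w (ρ w) hwa hwb hwc hwd (by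
        intro s h1 h2 h3 h4 h5
        refine ⟨hR s h1 h2 h3 h4, ?_⟩
        intro hs
        obtain ⟨k1, k2, k3, k4⟩ := hS s (Finset.mem_insert_of_mem (by simpa using hs))
        rcases h5 with h5 | h5 | h5 | h5 <;> linarith) hd1.continuousOn (by
        intro s hs
        rw [hne s hs, hh]
        ring)
    rw [hsp, hi, rect_inv a b c d w hwa hwb hwc hwd, Finset.sum_insert hwS]
    ring

end Pool.Agent.H56.GX

end

section

/-!
GX module SMLine: `SM` as an inverse Mellin integral on `Re s = 2`.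

For `0 < η`, `0 < x`:
`SM η x = (1/2π) ∫ F(2+it) K(2+it) x^{2+it} dt`. Here `F(2+it) = ∫_1^∞ Mz(y) y^{-3-it} dy` converges
absolutely (`|Mz y| ≤ y`), `‖K(2+it)‖ = exp(η²(9/4 - t²)/2)` is integrable in `t`, so Fubini gives
`∫_1^∞ Mz(y) y^{-1} [(1/2π) ∫ K(2+it) (x/y)^{2+it} dt] dy = ∫_1^∞ Mz(y) y^{-1} e^{w/2} gk η w dy` with
`w = log (x/y)` (`K_inverse` with `σ = 2`), and the substitution `y = x e^{-v}` (`v ∈ (-∞, log x)`; for
`v > log x` the integrand of `SM` is `0` as `x e^{-v} < 1`) gives `SM η x`. E.g.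
`MeasureTheory.integral_image_eq_integral_abs_deriv_smul` or
`integral_comp_mul_deriv_Ioi`-type lemmas with `v ↦ x e^{-v}`.
Also the integrability of `t ↦ F(2+it) K(2+it) x^{2+it}` (`‖F(2+it)‖ ≤ ∫_1^∞ y^{-2} dy = 1`, and
continuity in `t` of `F(2+it)` by dominated convergence, for measurability).
-/

set_option autoImplicit false

namespace Pool.Agent.H56.GX

open MeasureTheory Set Complex Filter Topology

private theorem SMLine_norm_integrand (t y : ℝ) (hy : 1 < y) :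
    ‖(Mz y : ℂ) * (y : ℂ) ^ (-(2 + t * I) - 1 : ℂ)‖ ≤ y ^ (-2 : ℝ) := by
  have hy0 : 0 < y := by linarith
  rw [norm_mul, Complex.norm_cpow_eq_rpow_re_of_pos hy0, Complex.norm_real, Real.norm_eq_abs]
  have h1 : (-(2 + t * I) - 1 : ℂ).re = -3 := by
    simp
    norm_num
  rw [h1]
  have h2 : |Mz y| ≤ y := Mz_abs_le y hy0.le
  have h3 : y * y ^ (-3 : ℝ) = y ^ (-2 : ℝ) := by
    have : y ^ (1 : ℝ) * y ^ (-3 : ℝ) = y ^ (-2 : ℝ) := by
      rw [← Real.rpow_add hy0]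
      norm_num
    rwa [Real.rpow_one] at this
  rw [← h3]
  exact mul_le_mul_of_nonneg_right h2 (Real.rpow_nonneg hy0.le _)

private theorem SMLine_bound_integrable :
    Integrable (fun y : ℝ => y ^ (-2 : ℝ)) (volume.restrict (Ioi (1 : ℝ))) :=
  integrableOn_Ioi_rpow_of_lt (by norm_num) one_pos

private theorem SMLine_bound_integral : ∫ y in Ioi (1 : ℝ), y ^ (-2 : ℝ) = 1 := by
  rw [integral_Ioi_rpow_of_lt (by norm_num) one_pos]
  norm_num

theorem F_two_bound (t : ℝ) : ‖F (2 + t * I)‖ ≤ 1 := by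
  unfold F
  refine (norm_integral_le_of_norm_le SMLine_bound_integrable ?_).trans
    SMLine_bound_integral.le
  exact ae_restrict_of_forall_mem measurableSet_Ioi fun y hy => SMLine_norm_integrand t y hy

theorem F_two_continuous : Continuous (fun t : ℝ => F (2 + t * I)) := by
  unfold F
  refine continuous_of_dominated (bound := fun y : ℝ => y ^ (-2 : ℝ)) ?_ ?_
    SMLine_bound_integrable ?_
  · intro t
    refine Measurable.aestronglyMeasurable ?_
    exact (Complex.measurable_ofReal.comp Mz_measurable).mul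
      (Complex.measurable_ofReal.pow_const _)
  · intro t
    exact ae_restrict_of_forall_mem measurableSet_Ioi fun y hy => SMLine_norm_integrand t y hy
  · refine ae_restrict_of_forall_mem measurableSet_Ioi fun y hy => ?_
    have hy0 : (y : ℂ) ≠ 0 := by
      have : (0 : ℝ) < y := lt_trans one_pos hy
      exact_mod_cast this.ne'
    refine continuous_const.mul ?_
    refine Continuous.const_cpow ?_ (Or.inl hy0)
    fun_prop

private theorem SMLine_K_cont (η : ℝ) : Continuous (fun t : ℝ => K η (2 + t * I)) := by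
  have h := (K_differentiable η).continuous
  exact h.comp (by fun_prop)

private theorem SMLine_cpow_cont (x : ℝ) (hx : 0 < x) :
    Continuous (fun t : ℝ => (x : ℂ) ^ (2 + t * I : ℂ)) := by
  refine Continuous.const_cpow ?_ (Or.inl (by exact_mod_cast hx.ne'))
  fun_prop

private theorem SMLine_cpow_norm (x : ℝ) (hx : 0 < x) (t : ℝ) :
    ‖(x : ℂ) ^ (2 + t * I : ℂ)‖ = x ^ (2 : ℝ) := by
  rw [Complex.norm_cpow_eq_rpow_re_of_pos hx]
  congr 1
  simp

private theorem SMLine_K_norm (η t : ℝ) :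
    ‖K η (2 + t * I)‖ = Real.exp (η ^ 2 * ((2 - 1 / 2) ^ 2) / 2) * Real.exp (-(η ^ 2 / 2) * t ^ 2) := by
  have h := K_norm η 2 t
  have h2 : ((2 : ℝ) : ℂ) = 2 := by norm_num
  rw [h2] at h
  rw [h, ← Real.exp_add]
  congr 1
  ring

private theorem SMLine_gauss_integrable (η : ℝ) (hη : 0 < η) :
    Integrable (fun t : ℝ => ‖K η (2 + t * I)‖) := by
  have h : (fun t : ℝ => ‖K η (2 + t * I)‖) = fun t : ℝ =>
      Real.exp (η ^ 2 * ((2 - 1 / 2) ^ 2) / 2) * Real.exp (-(η ^ 2 / 2) * t ^ 2) := by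
    funext t
    exact SMLine_K_norm η t
  rw [h]
  exact (integrable_exp_neg_mul_sq (by positivity)).const_mul _

theorem sm_line_integrable (η x : ℝ) (hη : 0 < η) (hx : 0 < x) :
    Integrable (fun t : ℝ => K η (2 + t * I) * (x : ℂ) ^ (2 + t * I : ℂ) * F (2 + t * I)) := by
  refine ((SMLine_gauss_integrable η hη).mul_const (x ^ (2 : ℝ))).mono' ?_ ?_
  · exact (((SMLine_K_cont η).mul (SMLine_cpow_cont x hx)).mul F_two_continuous).aestronglyMeasurable
  · refine Filter.Eventually.of_forall fun t => ?_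
    rw [norm_mul, norm_mul, SMLine_cpow_norm x hx t]
    exact mul_le_of_le_one_right (by positivity) (F_two_bound t)

private theorem SMLine_inner (η x y : ℝ) (hη : 0 < η) (hx : 0 < x) (hy : 0 < y) :
    (2 * Real.pi : ℂ)⁻¹ * ∫ t : ℝ, K η (2 + t * I) * (x : ℂ) ^ (2 + t * I : ℂ) *
        ((Mz y : ℂ) * (y : ℂ) ^ (-(2 + t * I) - 1 : ℂ)) =
      ((Mz y * (y⁻¹ * (Real.exp ((Real.log x - Real.log y) / 2) *
        gk η (Real.log x - Real.log y))) : ℝ) : ℂ) := by
  have h1 : ∀ t : ℝ, K η (2 + t * I) * (x : ℂ) ^ (2 + t * I : ℂ) *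
        ((Mz y : ℂ) * (y : ℂ) ^ (-(2 + t * I) - 1 : ℂ)) =
      ((Mz y : ℂ) * (y : ℂ)⁻¹) * (K η ((2 : ℝ) + t * I) *
        Complex.exp (((2 : ℝ) + t * I) * ((Real.log x - Real.log y : ℝ) : ℂ))) := by
    intro t
    have hx0 : (x : ℂ) ≠ 0 := by exact_mod_cast hx.ne'
    have hy0 : (y : ℂ) ≠ 0 := by exact_mod_cast hy.ne'
    have h2 : (y : ℂ) ^ (-(2 + t * I) - 1 : ℂ) = (y : ℂ) ^ (-(2 + t * I) : ℂ) * (y : ℂ)⁻¹ := by
      rw [sub_eq_add_neg, Complex.cpow_add _ _ hy0, Complex.cpow_neg_one]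
    have h3 : (x : ℂ) ^ (2 + t * I : ℂ) * (y : ℂ) ^ (-(2 + t * I) : ℂ) =
        Complex.exp (((2 : ℝ) + t * I) * ((Real.log x - Real.log y : ℝ) : ℂ)) := by
      rw [Complex.cpow_def_of_ne_zero hx0, Complex.cpow_def_of_ne_zero hy0, ← Complex.exp_add,
        ← Complex.ofReal_log hx.le, ← Complex.ofReal_log hy.le]
      congr 1
      push_cast
      ring
    have h4 : ((2 : ℝ) : ℂ) = 2 := by norm_num
    rw [h2, ← h3, h4]
    ring
  simp_rw [h1]
  rw [integral_const_mul, mul_left_comm, K_inverse η hη 2 (Real.log x - Real.log y)]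
  push_cast
  ring

private theorem SMLine_prod_integrable (η x : ℝ) (hη : 0 < η) (hx : 0 < x) :
    Integrable (Function.uncurry fun (t y : ℝ) => K η (2 + t * I) * (x : ℂ) ^ (2 + t * I : ℂ) *
        ((Mz y : ℂ) * (y : ℂ) ^ (-(2 + t * I) - 1 : ℂ)))
      ((volume : Measure ℝ).prod (volume.restrict (Ioi (1 : ℝ)))) := by
  have hb := ((SMLine_gauss_integrable η hη).mul_const (x ^ (2 : ℝ))).mul_prod
    SMLine_bound_integrable
  refine hb.mono' ?_ ?_
  · refine Measurable.aestronglyMeasurable ?_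
    have m1 : Measurable (fun z : ℝ × ℝ => K η (2 + z.1 * I)) :=
      (SMLine_K_cont η).measurable.comp measurable_fst
    have m2 : Measurable (fun z : ℝ × ℝ => (x : ℂ) ^ (2 + z.1 * I : ℂ)) :=
      (SMLine_cpow_cont x hx).measurable.comp measurable_fst
    have m3 : Measurable (fun z : ℝ × ℝ => (Mz z.2 : ℂ)) :=
      (Complex.measurable_ofReal.comp Mz_measurable).comp measurable_snd
    have m4 : Measurable (fun z : ℝ × ℝ => (z.2 : ℂ) ^ (-(2 + z.1 * I) - 1 : ℂ)) := by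
      refine Measurable.pow (Complex.measurable_ofReal.comp measurable_snd) ?_
      have hc : Continuous (fun t : ℝ => (-(2 + t * I) - 1 : ℂ)) := by fun_prop
      exact hc.measurable.comp measurable_fst
    exact (m1.mul m2).mul (m3.mul m4)
  · have hset : (volume : Measure ℝ).prod (volume.restrict (Ioi (1 : ℝ))) =
        ((volume : Measure ℝ).prod volume).restrict (univ ×ˢ Ioi (1 : ℝ)) := by
      rw [← Measure.prod_restrict, Measure.restrict_univ]
    rw [hset]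
    refine ae_restrict_of_forall_mem (MeasurableSet.univ.prod measurableSet_Ioi) ?_
    rintro ⟨t, y⟩ ⟨-, hy⟩
    show ‖K η (2 + t * I) * (x : ℂ) ^ (2 + t * I : ℂ) *
        ((Mz y : ℂ) * (y : ℂ) ^ (-(2 + t * I) - 1 : ℂ))‖ ≤ _
    rw [norm_mul, norm_mul, SMLine_cpow_norm x hx t]
    exact mul_le_mul_of_nonneg_left (SMLine_norm_integrand t y hy) (by positivity)

theorem sm_line (η x : ℝ) (hη : 0 < η) (hx : 0 < x) :
    (SM η x : ℂ) = (2 * Real.pi : ℂ)⁻¹ *
      ∫ t : ℝ, K η (2 + t * I) * (x : ℂ) ^ (2 + t * I : ℂ) * F (2 + t * I) := by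
  have h1 : ∀ t : ℝ, K η (2 + t * I) * (x : ℂ) ^ (2 + t * I : ℂ) * F (2 + t * I) =
      ∫ y in Ioi (1 : ℝ), K η (2 + t * I) * (x : ℂ) ^ (2 + t * I : ℂ) *
        ((Mz y : ℂ) * (y : ℂ) ^ (-(2 + t * I) - 1 : ℂ)) := by
    intro t
    unfold F
    rw [integral_const_mul]
  simp_rw [h1]
  rw [integral_integral_swap (SMLine_prod_integrable η x hη hx), ← integral_const_mul]
  have h2 : ∫ y in Ioi (1 : ℝ), (2 * Real.pi : ℂ)⁻¹ * ∫ t : ℝ,
        K η (2 + t * I) * (x : ℂ) ^ (2 + t * I : ℂ) *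
        ((Mz y : ℂ) * (y : ℂ) ^ (-(2 + t * I) - 1 : ℂ)) =
      ∫ y in Ioi (1 : ℝ), ((Mz y * (y⁻¹ * (Real.exp ((Real.log x - Real.log y) / 2) *
        gk η (Real.log x - Real.log y))) : ℝ) : ℂ) := by
    refine setIntegral_congr_fun measurableSet_Ioi fun y hy => ?_
    exact SMLine_inner η x y hη hx (lt_trans one_pos hy)
  rw [h2, integral_complex_ofReal]
  congr 1
  set g : ℝ → ℝ := fun y => Mz y * (y⁻¹ * (Real.exp ((Real.log x - Real.log y) / 2) *
        gk η (Real.log x - Real.log y))) with hg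
  have h3 : ∫ y in Ioi (1 : ℝ), g y = ∫ y in Ioi (0 : ℝ), g y := by
    rw [← integral_Ici_eq_integral_Ioi]
    symm
    refine setIntegral_eq_of_subset_of_forall_sdiff_eq_zero measurableSet_Ioi ?_ ?_
    · intro y hy
      have hy1 : (1 : ℝ) ≤ y := hy
      exact mem_Ioi.2 (lt_of_lt_of_le one_pos hy1)
    · intro y hy
      have hy1 : y < 1 := not_le.1 hy.2
      simp only [hg, Mz_lt_one y hy1, zero_mul]
  rw [h3]
  have himg : (fun v : ℝ => x * Real.exp (-v)) '' univ = Ioi (0 : ℝ) := by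
    ext y
    constructor
    · rintro ⟨v, -, rfl⟩
      exact mul_pos hx (Real.exp_pos _)
    · intro hy
      refine ⟨Real.log x - Real.log y, trivial, ?_⟩
      show x * Real.exp (-(Real.log x - Real.log y)) = y
      rw [neg_sub, Real.exp_sub, Real.exp_log hx, Real.exp_log hy]
      field_simp
  have hder : ∀ v ∈ (univ : Set ℝ), HasDerivWithinAt (fun v : ℝ => x * Real.exp (-v))
      (-(x * Real.exp (-v))) univ v := by
    intro v _
    have h := ((hasDerivAt_neg v).exp.const_mul x).hasDerivWithinAt (s := univ)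
    refine h.congr_deriv ?_
    ring
  have hinj : InjOn (fun v : ℝ => x * Real.exp (-v)) univ := by
    intro v _ w _ hvw
    have h := mul_left_cancel₀ hx.ne' hvw
    have h' := Real.exp_injective h
    linarith
  rw [← himg, integral_image_eq_integral_abs_deriv_smul MeasurableSet.univ hder hinj g,
    Measure.restrict_univ]
  unfold SM
  refine integral_congr_ae (Filter.Eventually.of_forall fun v => ?_)
  have hpos : 0 < x * Real.exp (-v) := mul_pos hx (Real.exp_pos _)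
  have hlog : Real.log x - Real.log (x * Real.exp (-v)) = v := by
    rw [Real.log_mul hx.ne' (Real.exp_pos _).ne', Real.log_exp]
    ring
  show Mz (x * Real.exp (-v)) * Real.exp (v / 2) * gk η v = |-(x * Real.exp (-v))| •
    (Mz (x * Real.exp (-v)) * ((x * Real.exp (-v))⁻¹ *
      (Real.exp ((Real.log x - Real.log (x * Real.exp (-v))) / 2) *
        gk η (Real.log x - Real.log (x * Real.exp (-v))))))
  rw [hlog, abs_neg, abs_of_pos hpos, smul_eq_mul]
  field_simp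

end Pool.Agent.H56.GX

end

section

/-!
GX module Good: good heights.

Put `g(t) = ∫_{-1/2}^{2} ‖((σ+it) ζ(σ+it))⁻¹‖ dσ` (work with `lintegral`/`ℝ≥0∞`). For `N ≥ 1`:
`∫_N^{N+1} g(t) dt` is, by Tonelli, `∫_{-1/2}^2 ∫_N^{N+1} ‖...‖ dt dσ`.
* `1/2 < σ ≤ 2`: the integrand is `‖F(σ+it)‖` (`F_inv`), and Cauchy-Schwarz on an interval of length 1 with
  `F_L2` gives `≤ (C₂/(σ-1/2))^{1/2}`.
* `-1/2 ≤ σ < 1/2`, `s = σ+it`: `‖(s ζ(s))⁻¹‖ ≤ exp(C t) ‖s‖⁻¹ ‖ζ(1-s)⁻¹‖` (`zeta_refl`), and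
  `ζ(1-s)⁻¹ = (1-s) F(1-s)` (`F_inv`, `1/2 < Re (1-s) ≤ 3/2`), `‖1-s‖ ≤ 2‖s‖` (`‖s‖ ≥ 1`); so
  `≤ 2 exp(C(N+1)) ‖F(1-s)‖` and the `t`-integral is `≤ 2 exp(C(N+1)) (C₂/(1/2-σ))^{1/2}`
  (substitute `t → -t`).
* `∫_{1/2}^2 (σ-1/2)^{-1/2} dσ < ∞` and the same on the left. Total `≤ exp(C' (N+1))`.
So the set of `t ∈ [N,N+1]` with `g(t) ≤ 4 exp(C'(N+1))` has measure `≥ 3/4` (Markov). The set of
`t ∈ [N,N+1]` such that `ζ` has a zero `σ+it` with `-1/2 ≤ σ ≤ 2` is finite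
(`IsCompact.inter_riemannZetaZeros_finite`, Mathlib/NumberTheory/LSeries/ZetaZeros.lean), so null. Choose `T`
in the first set and outside the second. Statements for the line `Im s = -T` follow from
`riemannZeta_conj` (`ζ(conj s) = conj ζ(s)`, Mathlib/NumberTheory/Harmonic/ZetaAsymp.lean).
Convert from `lintegral` to the interval integral at the end (the function is continuous in `σ` for the chosen `T`).
-/

set_option autoImplicit false

namespace Pool.Agent.H56.GX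

open MeasureTheory Set Complex Filter Topology
open scoped ENNReal

/-- the integrand -/
noncomputable def Good_G (σ t : ℝ) : ℝ := ‖((σ + t * I) * riemannZeta (σ + t * I))⁻¹‖

theorem Good_G_nonneg (σ t : ℝ) : 0 ≤ Good_G σ t := norm_nonneg _

theorem Good_measurable_zeta : Measurable riemannZeta := by
  apply measurable_of_continuousOn_compl_singleton 1
  intro s hs
  exact (differentiableAt_riemannZeta hs).continuousAt.continuousWithinAt

theorem Good_measurable_G : Measurable (Function.uncurry Good_G) := by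
  unfold Good_G Function.uncurry
  have h1 : Measurable (fun a : ℝ × ℝ => ((a.1 : ℂ) + a.2 * I)) := by fun_prop
  exact ((h1.mul (Good_measurable_zeta.comp h1)).inv).norm

theorem Good_amgm (x a : ℝ) (ha : 0 < a) : 2 * x ≤ a * x ^ 2 + 1 / a := by
  have h : 0 ≤ (a * x - 1) ^ 2 / a := by positivity
  have e : (a * x - 1) ^ 2 / a = a * x ^ 2 + 1 / a - 2 * x := by
    field_simp
    ring
  linarith

theorem Good_conj_norm (σ t : ℝ) :
    ‖(((σ : ℂ) - t * I) * riemannZeta (σ - t * I))⁻¹‖ = Good_G σ t := by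
  have h1 : (σ : ℂ) - t * I = (starRingEnd ℂ) (σ + t * I) := by simp [sub_eq_add_neg]
  unfold Good_G
  rw [h1, riemannZeta_conj, ← map_mul, ← map_inv₀, RCLike.norm_conj]

theorem Good_measurable_slice (T : ℝ) : Measurable (fun σ : ℝ => Good_G σ T) := by
  unfold Good_G
  have h1 : Measurable (fun σ : ℝ => ((σ : ℂ) + T * I)) := by fun_prop
  exact ((h1.mul (Good_measurable_zeta.comp h1)).inv).norm

end Pool.Agent.H56.GX

end

section

/-!
GX module JB: the left line integral `J`.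

The integrand `K η (-1/2+it) x^{-1/2+it} ((-1/2+it) ζ(-1/2+it))⁻¹` has norm
`≤ exp(η²(1-t²)/2) x^{-1/2} · C / (1+|t|)²`... (`|{-1/2+it}| ≥ (1+|t|)/3`, `zeta_left`); it is
continuous in `t` (`ζ(-1/2+it) ≠ 0` by `zeta_left`).
* `J_integrable`, `J_bdd`: `‖J η x‖ ≤ C_η` for `x ≥ 1/4`.
* `J_lip`: for `x, y ∈ [1/4, 1]`: `|x^{s} - y^{s}| ≤ |s| · 8 · |x - y|` for `s = -1/2 + it` (mean value:
  the derivative of `u ↦ u^s` is `s u^{s-1}`, `|u^{s-1}| = u^{-3/2} ≤ 8`), so the factor `|s|` cancels and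
  `‖J η x - J η y‖ ≤ C |x-y| ∫ exp(η²(1-t²)/2) / (1+|t|) dt`, and for `0 < η ≤ 1`
  `∫ e^{1/2} e^{-η²t²/2}/(1+|t|) dt ≤ C η^{-1/4}`: indeed `e^{-η²t²/2} ≤ C (η|t|)^{-1/4}`... e.g.
  `e^{-u²/2} ≤ 2 (1+u)^{-1/4}`-type bounds: `(1+|t|)^{1/4} ≤ η^{-1/4} (1+η|t|)^{1/4}` (as
  `η ≤ 1`), so `e^{-η²t²/2} ≤ C (1+η|t|)^{-1/4} ≤ C η^{-1/4} (1+|t|)^{-1/4}`, and `∫ (1+|t|)^{-5/4} dt < ∞`.
-/

set_option autoImplicit false

namespace Pool.Agent.H56.GX

open MeasureTheory Set Complex Filter Topology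

/-- the point `-1/2 + it` -/
private noncomputable def JB_s (t : ℝ) : ℂ := -(1 / 2) + t * I

private lemma JB_s_re (t : ℝ) : (JB_s t).re = -(1 / 2) := by simp [JB_s]

private lemma JB_s_im (t : ℝ) : (JB_s t).im = t := by simp [JB_s]

private lemma JB_s_ne_zero (t : ℝ) : JB_s t ≠ 0 := by
  intro h
  have := congrArg Complex.re h
  rw [JB_s_re, zero_re] at this
  norm_num at this

private lemma JB_s_ne_one (t : ℝ) : JB_s t ≠ 1 := by
  intro h
  have := congrArg Complex.re h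
  rw [JB_s_re, one_re] at this
  norm_num at this

private lemma JB_s_continuous : Continuous JB_s := by
  unfold JB_s
  fun_prop

private lemma JB_s_norm (t : ℝ) : 1 + |t| ≤ 3 * ‖JB_s t‖ := by
  have h1 := Complex.abs_re_le_norm (JB_s t)
  have h2 := Complex.abs_im_le_norm (JB_s t)
  rw [JB_s_re] at h1
  rw [JB_s_im] at h2
  have h3 : |(-(1 / 2) : ℝ)| = 1 / 2 := by norm_num
  rw [h3] at h1
  linarith

private lemma JB_K_norm (η t : ℝ) : ‖K η (JB_s t)‖ = Real.exp (η ^ 2 * (1 - t ^ 2) / 2) := by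
  have h := K_norm η (-(1 / 2)) t
  have e : (((-(1 / 2) : ℝ) : ℂ) + t * I) = JB_s t := by
    rw [JB_s]; push_cast; ring
  rw [e] at h
  rw [h]
  norm_num

private lemma JB_zeta_inv (c : ℝ) (hc : 0 < c)
    (h : ∀ t : ℝ, c * (1 + |t|) ≤ ‖riemannZeta (-(1 / 2) + t * I)‖) (t : ℝ) :
    riemannZeta (JB_s t) ≠ 0 ∧ ‖(riemannZeta (JB_s t))⁻¹‖ ≤ (c * (1 + |t|))⁻¹ := by
  have h1 : c * (1 + |t|) ≤ ‖riemannZeta (JB_s t)‖ := h t
  have h2 : 0 < c * (1 + |t|) := by positivity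
  refine ⟨norm_pos_iff.1 (h2.trans_le h1), ?_⟩
  rw [norm_inv]
  exact inv_anti₀ h2 h1

private lemma JB_inv_norm (c : ℝ) (hc : 0 < c)
    (h : ∀ t : ℝ, c * (1 + |t|) ≤ ‖riemannZeta (-(1 / 2) + t * I)‖) (t : ℝ) :
    ‖(JB_s t * riemannZeta (JB_s t))⁻¹‖ ≤ 3 / c := by
  obtain ⟨h0, h1⟩ := JB_zeta_inv c hc h t
  have h2 := JB_s_norm t
  have h3 : 0 ≤ |t| := abs_nonneg t
  have h4 : ‖(JB_s t)⁻¹‖ ≤ 3 := by
    rw [norm_inv]
    refine inv_le_of_inv_le₀ (by norm_num) ?_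
    linarith
  have h5 : (c * (1 + |t|))⁻¹ ≤ c⁻¹ := by
    refine inv_anti₀ hc ?_
    nlinarith
  rw [mul_inv, norm_mul]
  calc ‖(JB_s t)⁻¹‖ * ‖(riemannZeta (JB_s t))⁻¹‖ ≤ 3 * c⁻¹ :=
        mul_le_mul h4 (h1.trans h5) (norm_nonneg _) (by norm_num)
    _ = 3 / c := by rw [div_eq_mul_inv]

/-- the integrand of `J` -/
private noncomputable def JB_G (η x t : ℝ) : ℂ :=
  K η (JB_s t) * (x : ℂ) ^ (JB_s t) * (JB_s t * riemannZeta (JB_s t))⁻¹

private lemma JB_zeta_continuous : Continuous (fun t : ℝ => riemannZeta (JB_s t)) := by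
  rw [continuous_iff_continuousAt]
  intro t
  exact ContinuousAt.comp (f := JB_s) (g := riemannZeta)
    (differentiableAt_riemannZeta (JB_s_ne_one t)).continuousAt JB_s_continuous.continuousAt

private lemma JB_G_continuous (η x : ℝ) (hx : 0 < x) : Continuous (JB_G η x) := by
  obtain ⟨c, hc, h⟩ := zeta_left
  have hx0 : (x : ℂ) ≠ 0 := by exact_mod_cast hx.ne'
  unfold JB_G
  refine Continuous.mul (Continuous.mul ?_ ?_) ?_
  · exact (K_differentiable η).continuous.comp JB_s_continuous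
  · exact JB_s_continuous.const_cpow (Or.inl hx0)
  · exact (JB_s_continuous.mul JB_zeta_continuous).inv₀
      fun t => mul_ne_zero (JB_s_ne_zero t) (JB_zeta_inv c hc h t).1

private lemma JB_G_bound (c : ℝ) (hc : 0 < c)
    (h : ∀ t : ℝ, c * (1 + |t|) ≤ ‖riemannZeta (-(1 / 2) + t * I)‖) (η x : ℝ) (hx : 0 < x) (t : ℝ) :
    ‖JB_G η x t‖ ≤ (Real.exp (η ^ 2 / 2) * x ^ (-(1 / 2) : ℝ) * (3 / c)) *
      Real.exp (-(η ^ 2 / 2) * t ^ 2) := by
  rw [JB_G, norm_mul, norm_mul, JB_K_norm, Complex.norm_cpow_eq_rpow_re_of_pos hx, JB_s_re]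
  have h1 := JB_inv_norm c hc h t
  have h2 : Real.exp (η ^ 2 * (1 - t ^ 2) / 2) =
      Real.exp (η ^ 2 / 2) * Real.exp (-(η ^ 2 / 2) * t ^ 2) := by
    rw [← Real.exp_add]; congr 1; ring
  rw [h2]
  have h3 : 0 ≤ Real.exp (η ^ 2 / 2) * Real.exp (-(η ^ 2 / 2) * t ^ 2) * x ^ (-(1 / 2) : ℝ) := by
    positivity
  calc _ ≤ Real.exp (η ^ 2 / 2) * Real.exp (-(η ^ 2 / 2) * t ^ 2) * x ^ (-(1 / 2) : ℝ) * (3 / c) :=
        mul_le_mul_of_nonneg_left h1 h3
    _ = _ := by ring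

private lemma JB_G_integrable (η x : ℝ) (hη : 0 < η) (hx : 0 < x) : Integrable (JB_G η x) := by
  obtain ⟨c, hc, h⟩ := zeta_left
  refine Integrable.mono' ((integrable_exp_neg_mul_sq (b := η ^ 2 / 2) (by positivity)).const_mul
    (Real.exp (η ^ 2 / 2) * x ^ (-(1 / 2) : ℝ) * (3 / c)))
    (JB_G_continuous η x hx).aestronglyMeasurable ?_
  exact Filter.Eventually.of_forall fun t => JB_G_bound c hc h η x hx t

theorem J_integrable (η x : ℝ) (hη : 0 < η) (hx : 0 < x) :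
    Integrable (fun t : ℝ => K η (-(1 / 2) + t * I) * (x : ℂ) ^ (-(1 / 2) + t * I : ℂ) *
      ((-(1 / 2) + t * I) * riemannZeta (-(1 / 2) + t * I))⁻¹) :=
  JB_G_integrable η x hη hx

private lemma JB_J_eq (η x : ℝ) : J η x = (2 * Real.pi : ℂ)⁻¹ * ∫ t : ℝ, JB_G η x t := rfl

private lemma JB_two_pi : ‖((2 * Real.pi : ℂ))⁻¹‖ ≤ 1 := by
  rw [norm_inv, norm_mul]
  have h1 : ‖(2 : ℂ)‖ = 2 := by norm_num
  have h2 : ‖(Real.pi : ℂ)‖ = Real.pi := by
    rw [Complex.norm_real, Real.norm_of_nonneg Real.pi_pos.le]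
  rw [h1, h2]
  refine inv_le_one_of_one_le₀ ?_
  linarith [Real.pi_gt_three]

private lemma JB_cpow_lip (t x y : ℝ) (hx : 1 / 4 ≤ x) (hx1 : x ≤ 1) (hy : 1 / 4 ≤ y)
    (hy1 : y ≤ 1) :
    ‖(x : ℂ) ^ (JB_s t) / JB_s t - (y : ℂ) ^ (JB_s t) / JB_s t‖ ≤ 8 * |x - y| := by
  have hne : JB_s t - 1 ≠ -1 := by
    intro h'
    exact JB_s_ne_zero t (by linear_combination h')
  have key := (convex_Icc (1 / 4 : ℝ) 1).norm_image_sub_le_of_norm_hasDerivWithin_le
    (f := fun u : ℝ => (u : ℂ) ^ (JB_s t) / JB_s t) (f' := fun u : ℝ => (u : ℂ) ^ (JB_s t - 1))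
    (C := 8) (x := y) (y := x) ?_ ?_ ⟨hy, hy1⟩ ⟨hx, hx1⟩
  · simpa [Real.norm_eq_abs] using key
  · intro u hu
    have hu0 : u ≠ 0 := by
      have := hu.1
      intro h0
      rw [h0] at this
      norm_num at this
    have := hasDerivAt_ofReal_cpow_const' hu0 hne
    rw [sub_add_cancel] at this
    exact this.hasDerivWithinAt
  · intro u hu
    have hu0 : 0 < u := by linarith [hu.1]
    rw [Complex.norm_cpow_eq_rpow_re_of_pos hu0, sub_re, JB_s_re, one_re]
    have h3 : u ^ (-(1 / 2) - 1 : ℝ) ≤ (1 / 4 : ℝ) ^ (-(1 / 2) - 1 : ℝ) :=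
      Real.rpow_le_rpow_of_nonpos (by norm_num) hu.1 (by norm_num)
    have h4 : (1 / 4 : ℝ) ^ (-(1 / 2) - 1 : ℝ) = 8 := by
      rw [show (-(1 / 2) - 1 : ℝ) = -(1 / 2 + 1) by norm_num, Real.rpow_neg (by norm_num),
        Real.rpow_add (by norm_num), Real.rpow_one, ← Real.sqrt_eq_rpow,
        show (1 / 4 : ℝ) = (1 / 2) ^ 2 by norm_num, Real.sqrt_sq (by norm_num)]
      norm_num
    linarith

private lemma JB_gauss (η t : ℝ) (hη : 0 < η) (hη1 : η ≤ 1) :
    Real.exp (η ^ 2 * (1 - t ^ 2) / 2) * (1 + |t|) ^ (-1 : ℝ) ≤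
      4 * η ^ (-(1 / 4) : ℝ) * (1 + ‖t‖) ^ (-(5 / 4) : ℝ) := by
  rw [Real.norm_eq_abs]
  set u : ℝ := |t| with hu
  have hu0 : 0 ≤ u := abs_nonneg t
  have ht2 : t ^ 2 = u ^ 2 := (sq_abs t).symm
  rw [ht2]
  have h1 : Real.exp (η ^ 2 * (1 - u ^ 2) / 2) =
      Real.exp (η ^ 2 / 2) * Real.exp (-((η * u) ^ 2 / 2)) := by
    rw [← Real.exp_add]; congr 1; ring
  have h2 : Real.exp (η ^ 2 / 2) ≤ 2 := by
    have h3 : Real.exp (η ^ 2 / 2) ≤ Real.exp (1 / 2) := by
      refine Real.exp_le_exp.2 ?_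
      nlinarith
    have h4 : Real.exp (1 / 2) ≤ 2 := by
      have h5 : Real.exp (1 / 2) ^ 2 ≤ 2 ^ 2 := by
        rw [← Real.exp_nat_mul]
        have := Real.exp_one_lt_d9
        norm_num
        linarith
      exact (sq_le_sq₀ (Real.exp_pos _).le (by norm_num)).1 h5
    exact h3.trans h4
  -- e^{-v^2/2} (1+v)^{1/4} ≤ 2
  have h5 : ∀ v : ℝ, 0 ≤ v → Real.exp (-(v ^ 2 / 2)) * (1 + v) ^ (1 / 4 : ℝ) ≤ 2 := by
    intro v hv
    have h6 : (1 + v) ^ (1 / 4 : ℝ) ≤ 1 + v := by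
      have := Real.rpow_le_rpow_of_exponent_le (show (1 : ℝ) ≤ 1 + v by linarith)
        (show (1 / 4 : ℝ) ≤ 1 by norm_num)
      rwa [Real.rpow_one] at this
    have h7 : 1 + v ≤ 2 * Real.exp (v ^ 2 / 2) := by
      have := Real.add_one_le_exp (v ^ 2 / 2)
      nlinarith [sq_nonneg (v - 1 / 2)]
    rw [Real.exp_neg]
    have h8 : 0 < Real.exp (v ^ 2 / 2) := Real.exp_pos _
    rw [inv_mul_le_iff₀ h8]
    linarith
  have h9 : (1 + u) ^ (1 / 4 : ℝ) ≤ η ^ (-(1 / 4) : ℝ) * (1 + η * u) ^ (1 / 4 : ℝ) := by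
    rw [Real.rpow_neg hη.le, ← Real.inv_rpow hη.le, ← Real.mul_rpow (by positivity) (by positivity)]
    refine Real.rpow_le_rpow (by positivity) ?_ (by norm_num)
    rw [inv_mul_eq_div, le_div_iff₀ hη]
    nlinarith
  have h10 : (1 + u) ^ (-1 : ℝ) = (1 + u) ^ (1 / 4 : ℝ) * (1 + u) ^ (-(5 / 4) : ℝ) := by
    rw [← Real.rpow_add (by positivity)]; norm_num
  have h11 : 0 ≤ (1 + u) ^ (-(5 / 4) : ℝ) := by positivity
  have h12 : 0 ≤ η ^ (-(1 / 4) : ℝ) := by positivity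
  rw [h1, h10]
  have h13 := h5 (η * u) (by positivity)
  calc Real.exp (η ^ 2 / 2) * Real.exp (-((η * u) ^ 2 / 2)) *
        ((1 + u) ^ (1 / 4 : ℝ) * (1 + u) ^ (-(5 / 4) : ℝ))
      ≤ 2 * Real.exp (-((η * u) ^ 2 / 2)) *
        ((η ^ (-(1 / 4) : ℝ) * (1 + η * u) ^ (1 / 4 : ℝ)) * (1 + u) ^ (-(5 / 4) : ℝ)) := by
        gcongr
    _ = 2 * (Real.exp (-((η * u) ^ 2 / 2)) * (1 + η * u) ^ (1 / 4 : ℝ)) *
        (η ^ (-(1 / 4) : ℝ) * (1 + u) ^ (-(5 / 4) : ℝ)) := by ring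
    _ ≤ 2 * 2 * (η ^ (-(1 / 4) : ℝ) * (1 + u) ^ (-(5 / 4) : ℝ)) := by
        gcongr
    _ = 4 * η ^ (-(1 / 4) : ℝ) * (1 + u) ^ (-(5 / 4) : ℝ) := by ring

theorem J_lip : ∃ C : ℝ, 0 < C ∧ ∀ η x y : ℝ, 0 < η → η ≤ 1 → 1 / 4 ≤ x → x ≤ 1 → 1 / 4 ≤ y →
    y ≤ 1 → ‖J η x - J η y‖ ≤ C * η ^ (-(1 / 4) : ℝ) * |x - y| := by
  obtain ⟨c, hc, h⟩ := zeta_left
  have hint : Integrable (fun t : ℝ => (1 + ‖t‖) ^ (-(5 / 4) : ℝ)) := by
    refine integrable_one_add_norm ?_
    rw [Module.finrank_self]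
    norm_num
  set B : ℝ := ∫ t : ℝ, (1 + ‖t‖) ^ (-(5 / 4) : ℝ) with hB
  have hB0 : 0 ≤ B := integral_nonneg fun t => by positivity
  refine ⟨32 / c * B + 1, by positivity, fun η x y hη hη1 hx hx1 hy hy1 => ?_⟩
  have hx0 : 0 < x := by linarith
  have hy0 : 0 < y := by linarith
  have hp : 0 ≤ η ^ (-(1 / 4) : ℝ) := by positivity
  have hsub : J η x - J η y = (2 * Real.pi : ℂ)⁻¹ * ∫ t : ℝ, (JB_G η x t - JB_G η y t) := by
    rw [JB_J_eq, JB_J_eq, integral_sub (JB_G_integrable η x hη hx0) (JB_G_integrable η y hη hy0)]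
    ring
  have hbd : ∀ t : ℝ, ‖JB_G η x t - JB_G η y t‖ ≤
      (32 / c * η ^ (-(1 / 4) : ℝ) * |x - y|) * (1 + ‖t‖) ^ (-(5 / 4) : ℝ) := by
    intro t
    have e : JB_G η x t - JB_G η y t = K η (JB_s t) *
        ((x : ℂ) ^ (JB_s t) / JB_s t - (y : ℂ) ^ (JB_s t) / JB_s t) *
          (riemannZeta (JB_s t))⁻¹ := by
      rw [JB_G, JB_G, mul_inv, div_eq_mul_inv, div_eq_mul_inv]
      ring
    rw [e, norm_mul, norm_mul, JB_K_norm]
    have h1 := JB_cpow_lip t x y hx hx1 hy hy1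
    have h2 := (JB_zeta_inv c hc h t).2
    have h3 := JB_gauss η t hη hη1
    have h4 : (c * (1 + |t|))⁻¹ = c⁻¹ * (1 + |t|) ^ (-1 : ℝ) := by
      rw [mul_inv, Real.rpow_neg_one]
    rw [h4] at h2
    calc Real.exp (η ^ 2 * (1 - t ^ 2) / 2) *
          ‖(x : ℂ) ^ (JB_s t) / JB_s t - (y : ℂ) ^ (JB_s t) / JB_s t‖ *
          ‖(riemannZeta (JB_s t))⁻¹‖
        ≤ Real.exp (η ^ 2 * (1 - t ^ 2) / 2) * (8 * |x - y|) * (c⁻¹ * (1 + |t|) ^ (-1 : ℝ)) := by
          gcongr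
      _ = (Real.exp (η ^ 2 * (1 - t ^ 2) / 2) * (1 + |t|) ^ (-1 : ℝ)) * (8 * |x - y| * c⁻¹) := by
          ring
      _ ≤ (4 * η ^ (-(1 / 4) : ℝ) * (1 + ‖t‖) ^ (-(5 / 4) : ℝ)) * (8 * |x - y| * c⁻¹) := by
          gcongr
      _ = _ := by rw [div_eq_mul_inv]; ring
  have hI : ‖∫ t : ℝ, (JB_G η x t - JB_G η y t)‖ ≤ (32 / c * η ^ (-(1 / 4) : ℝ) * |x - y|) * B := by
    rw [hB, ← integral_const_mul]
    exact norm_integral_le_of_norm_le (hint.const_mul _) (Filter.Eventually.of_forall hbd)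
  rw [hsub, norm_mul]
  calc ‖((2 * Real.pi : ℂ))⁻¹‖ * ‖∫ t : ℝ, (JB_G η x t - JB_G η y t)‖
      ≤ 1 * ((32 / c * η ^ (-(1 / 4) : ℝ) * |x - y|) * B) :=
        mul_le_mul JB_two_pi hI (norm_nonneg _) zero_le_one
    _ ≤ (32 / c * B + 1) * η ^ (-(1 / 4) : ℝ) * |x - y| := by
        have h5 : 0 ≤ η ^ (-(1 / 4) : ℝ) * |x - y| := by positivity
        nlinarith [h5]

end Pool.Agent.H56.GX

end

section

/-!
GY module Sel: a slowly growing monotone function is nearly constant on suitable long intervals. Pure Mathlib.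

Suppose not: for all `y ≥ y₀`, `G (y + A (2 G y)^θ) > 2 G y`. We may assume `y₀ ≥ max y₁ 1`. Define `y_{k+1} = y_k + A (2 G y_k)^θ`,
`G_k = G y_k`. Then `G_{k+1} > 2 G_k`, so `G_k ≥ 2^k`, and for `j ≤ k`: `G_j ≤ 2^(j-k) G_k`. Hence
`y_{k+1} ≤ y₀ + A ∑_{j ≤ k} (2 G_j)^θ ≤ y₀ + A (2 G_k)^θ ∑_{i ≥ 0} 2^(-iθ) ≤ y₀ + 2 A (2 G_k)^θ` (`θ ≥ 1`)
`≤ (y₀ + 2 A 2^θ) G_k^θ =: L G_k^θ` (`G_k ≥ 1`), with `L ≥ 1`. So `2 G_k < G_{k+1} = G y_{k+1} ≤ (y_{k+1})^θ' ≤ L^θ' G_k^(θ θ')`, i.e.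
`2 G_k^(1 - θθ') < L^θ'` for all `k`, while `G_k ≥ 2^k → ∞` and `1 - θθ' > 0`: contradiction.
(It is convenient to prove by induction the invariant `y_{k} ≤ y₀ + 2 A (2 G_{k-1})^θ`, i.e. `y_{k+1} - y₀ ≤ 2 A (2 G_k)^θ`:
`y_{k+2} - y₀ ≤ 2A (2G_k)^θ + A (2 G_{k+1})^θ ≤ 2 A (G_{k+1})^θ + A (2 G_{k+1})^θ ≤ 2 A (2 G_{k+1})^θ`, as `2 ≤ 2^θ`.)
-/

set_option autoImplicit false

namespace Pool.Agent.H82.GY

open MeasureTheory Set Filter Topology

theorem select (G : ℝ → ℝ) (hG : Monotone G) (hG1 : ∀ y : ℝ, 1 ≤ G y) (θ θ' A y₁ : ℝ) (hθ : 1 ≤ θ)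
    (hθ' : 0 ≤ θ') (hθθ : θ * θ' < 1) (hA : 0 < A) (hslow : ∀ y : ℝ, y₁ ≤ y → G y ≤ y ^ θ') (y₀ : ℝ) :
    ∃ y : ℝ, y₀ ≤ y ∧ G (y + A * (2 * G y) ^ θ) ≤ 2 * G y := by
  classical
  by_contra hcon
  push Not at hcon
  set Y : ℝ := max y₀ (max y₁ 1) with hYdef
  have hY0 : y₀ ≤ Y := le_max_left _ _
  have hY1 : y₁ ≤ Y := (le_max_left _ _).trans (le_max_right _ _)
  have hY2 : 1 ≤ Y := (le_max_right _ _).trans (le_max_right _ _)
  let y : ℕ → ℝ := fun k => Nat.rec Y (fun _ z => z + A * (2 * G z) ^ θ) k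
  have hy0 : y 0 = Y := rfl
  have hys : ∀ k, y (k + 1) = y k + A * (2 * G (y k)) ^ θ := fun k => rfl
  have hpos : ∀ z : ℝ, 0 < A * (2 * G z) ^ θ := fun z => by
    have : 0 < 2 * G z := by linarith [hG1 z]
    positivity
  have hyY : ∀ k, Y ≤ y k := by
    intro k
    induction k with
    | zero => exact le_of_eq hy0.symm
    | succ k ih => rw [hys]; linarith [hpos (y k)]
  have hg : ∀ k, 2 * G (y k) < G (y (k + 1)) := fun k => by
    rw [hys]
    exact hcon (y k) (hY0.trans (hyY k))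
  have hg2 : ∀ k, (2 : ℝ) ^ k ≤ G (y k) := by
    intro k
    induction k with
    | zero => rw [pow_zero]; exact hG1 _
    | succ k ih => rw [pow_succ]; linarith [hg k]
  have hθ0 : 0 ≤ θ := by linarith
  have h2θ : (2 : ℝ) ≤ 2 ^ θ := by
    calc (2 : ℝ) = 2 ^ (1 : ℝ) := (Real.rpow_one 2).symm
      _ ≤ 2 ^ θ := Real.rpow_le_rpow_of_exponent_le (by norm_num) hθ
  have hinv : ∀ k, y (k + 1) - Y ≤ 2 * A * (2 * G (y k)) ^ θ := by
    intro k
    induction k with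
    | zero =>
      rw [hys, hy0]
      have := hpos Y
      nlinarith
    | succ k ih =>
      rw [hys (k + 1)]
      have h1 : (2 * G (y k)) ^ θ ≤ (G (y (k + 1))) ^ θ :=
        Real.rpow_le_rpow (by linarith [hG1 (y k)]) (hg k).le hθ0
      have h2 : (2 * G (y (k + 1))) ^ θ = 2 ^ θ * (G (y (k + 1))) ^ θ :=
        Real.mul_rpow (by norm_num) (by linarith [hG1 (y (k + 1))])
      have h3 : 0 ≤ (G (y (k + 1))) ^ θ := Real.rpow_nonneg (by linarith [hG1 (y (k + 1))]) _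
      have h4 : 2 * A * (2 * G (y k)) ^ θ ≤ 2 * A * (G (y (k + 1))) ^ θ :=
        mul_le_mul_of_nonneg_left h1 (by positivity)
      have h5 : A * (2 * (G (y (k + 1))) ^ θ) ≤ A * (2 ^ θ * (G (y (k + 1))) ^ θ) :=
        mul_le_mul_of_nonneg_left (mul_le_mul_of_nonneg_right h2θ h3) hA.le
      rw [h2]
      nlinarith
  set L : ℝ := Y + 2 * A * 2 ^ θ with hL
  have hLpos : 0 < L := by positivity
  have hyL : ∀ k, y (k + 1) ≤ L * (G (y k)) ^ θ := by
    intro k
    have h1 := hinv k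
    have h2 : (2 * G (y k)) ^ θ = 2 ^ θ * (G (y k)) ^ θ :=
      Real.mul_rpow (by norm_num) (by linarith [hG1 (y k)])
    have h3 : 1 ≤ (G (y k)) ^ θ := Real.one_le_rpow (hG1 _) hθ0
    rw [h2] at h1
    have h4 : Y ≤ Y * (G (y k)) ^ θ := le_mul_of_one_le_right (by linarith) h3
    rw [hL]
    nlinarith
  have hfin : ∀ k : ℕ, ((2 : ℝ) ^ (1 - θ * θ')) ^ k ≤ L ^ θ' := by
    intro k
    have hgk : 0 < G (y k) := by linarith [hG1 (y k)]
    have h1 : G (y (k + 1)) ≤ L ^ θ' * (G (y k)) ^ (θ * θ') := by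
      calc G (y (k + 1)) ≤ (y (k + 1)) ^ θ' := hslow (y (k + 1)) (hY1.trans (hyY (k + 1)))
        _ ≤ (L * (G (y k)) ^ θ) ^ θ' :=
            Real.rpow_le_rpow (by linarith [hyY (k + 1)]) (hyL k) hθ'
        _ = L ^ θ' * (G (y k)) ^ (θ * θ') := by
            rw [Real.mul_rpow hLpos.le (by positivity), ← Real.rpow_mul hgk.le]
    have h2 : G (y k) ≤ L ^ θ' * (G (y k)) ^ (θ * θ') := by linarith [hg k]
    have h3 : G (y k) = (G (y k)) ^ (1 - θ * θ') * (G (y k)) ^ (θ * θ') := by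
      rw [← Real.rpow_add hgk]
      simp
    have h4 : (G (y k)) ^ (1 - θ * θ') ≤ L ^ θ' := by
      have h5 : 0 < (G (y k)) ^ (θ * θ') := Real.rpow_pos_of_pos hgk _
      refine le_of_mul_le_mul_right ?_ h5
      rw [← h3]
      exact h2
    calc ((2 : ℝ) ^ (1 - θ * θ')) ^ k = ((2 : ℝ) ^ k) ^ (1 - θ * θ') := by
          rw [← Real.rpow_natCast, ← Real.rpow_natCast, ← Real.rpow_mul (by norm_num),
            ← Real.rpow_mul (by norm_num), mul_comm]
      _ ≤ (G (y k)) ^ (1 - θ * θ') :=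
          Real.rpow_le_rpow (by positivity) (hg2 k) (by linarith)
      _ ≤ L ^ θ' := h4
  have hone : 1 < (2 : ℝ) ^ (1 - θ * θ') := Real.one_lt_rpow (by norm_num) (by linarith)
  obtain ⟨k, hk⟩ := pow_unbounded_of_one_lt (L ^ θ') hone
  exact absurd (hfin k) (not_le.mpr hk)

end Pool.Agent.H82.GY

end

section

/-!
GY module WinY: from the hypothesis to the window energies. (Adapt `GX/WinHyp.lean`, 59 lines.)

Let `Y ≥ max X₀ 1` and `2 κ Y / g Y ≤ k ≤ Y / (2 g Y)`; so `0 < k ≤ Y / 2` (`g ≥ 1`). Put `X = Y + k / 2`, so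
`Y ≤ X ≤ 2 Y` and `g Y ≤ g X ≤ g (2 Y) ≤ 2 g Y`. Then `κ X / g X ≤ 2 κ Y / g Y ≤ k` and
`X / g X ≥ Y / (2 g Y) ≥ k`. So `V X k ≤ B k`, and as in `GX/WinHyp.lean` (`V_eq`, substitution `x' = x + k/2`,
`[Y+k/2, 2Y+k/2] ⊂ [X, 2X]`): `∫_Y^{2Y} (Mz (x+k) - Mz x)² ≤ X V(X;k) ≤ X B k ≤ 2 Y B k`.
-/

set_option autoImplicit false

namespace Pool.Agent.H82.GY

open MeasureTheory Set Complex Filter Topology
open Pool.Agent.H56.GX

theorem win_of_hyp (c B κ X₀ : ℝ) (g : ℝ → ℝ) (hg : Reg g) (hB : 0 ≤ B) (hκ : 0 < κ)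
    (h : Hyp c B κ X₀ g) : WinG B κ (max X₀ 1) g := by
  intro Y k hY hk1 hk2
  have hY1 : 1 ≤ Y := (le_max_right _ _).trans hY
  have hYX : X₀ ≤ Y := (le_max_left _ _).trans hY
  have hg1 : 1 ≤ g Y := hg.one_le Y
  have hg0 : 0 < g Y := by linarith
  have hk0 : 0 < k := lt_of_lt_of_le (by positivity) hk1
  have hkY : k ≤ Y / 2 := by
    refine hk2.trans ?_
    apply div_le_div_of_nonneg_left (by linarith) (by norm_num)
    linarith
  have hgX1 : g Y ≤ g (Y + k / 2) := hg.mono (by linarith)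
  have hgX2 : g (Y + k / 2) ≤ 2 * g Y := (hg.mono (by linarith)).trans (hg.dbl Y)
  have hgX0 : 0 < g (Y + k / 2) := by linarith
  have e1 : κ * (Y + k / 2) / g (Y + k / 2) ≤ k := by
    refine le_trans ?_ hk1
    apply div_le_div₀ (by positivity) _ hg0 hgX1
    nlinarith
  have e2 : k ≤ (Y + k / 2) / g (Y + k / 2) := by
    refine hk2.trans ?_
    apply div_le_div₀ (by linarith) (by linarith) hgX0 hgX2
  have hV := (h (Y + k / 2) k (by linarith) e1 e2).2
  rw [V_eq (Y + k / 2) k (by linarith) hk0 (by linarith)] at hV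
  have hX0 : 0 < Y + k / 2 := by linarith
  have h3 : ∫ x in (Y + k / 2)..2 * (Y + k / 2), (Mz (x + k / 2) - Mz (x - k / 2)) ^ 2
      ≤ (Y + k / 2) * (B * k) := by
    rw [one_div, inv_mul_le_iff₀ hX0] at hV
    exact hV
  have h4 : ∫ x in Y..2 * Y, (Mz (x + k) - Mz x) ^ 2
      = ∫ x in (Y + k / 2)..(2 * Y + k / 2), (Mz (x + k / 2) - Mz (x - k / 2)) ^ 2 := by
    rw [← intervalIntegral.integral_comp_add_right
      (fun x => (Mz (x + k / 2) - Mz (x - k / 2)) ^ 2) (k / 2)]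
    apply intervalIntegral.integral_congr
    intro x _
    show (Mz (x + k) - Mz x) ^ 2 = (Mz (x + k / 2 + k / 2) - Mz (x + k / 2 - k / 2)) ^ 2
    rw [show x + k / 2 + k / 2 = x + k by ring, show x + k / 2 - k / 2 = x by ring]
  rw [h4]
  have hint := Mz_diff_sq_intervalIntegrable (Y + k / 2) (2 * (Y + k / 2)) (k / 2) (-(k / 2))
  have h5 : ∫ x in (Y + k / 2)..(2 * Y + k / 2), (Mz (x + k / 2) - Mz (x - k / 2)) ^ 2
      ≤ ∫ x in (Y + k / 2)..2 * (Y + k / 2), (Mz (x + k / 2) - Mz (x - k / 2)) ^ 2 := by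
    apply intervalIntegral.integral_mono_interval le_rfl (by linarith) (by linarith)
    · exact Filter.Eventually.of_forall (fun x => sq_nonneg _)
    · simpa [sub_eq_add_neg] using hint
  refine h5.trans (h3.trans ?_)
  have h6 : 0 ≤ B * k := mul_nonneg hB hk0.le
  nlinarith

end Pool.Agent.H82.GY

end

section

/-!
GX module SMSmall: `|SM η y| ≤ C η²` for `0 < y ≤ 17/20`, `0 < η ≤ 1`.

`Mz (y e^{-v}) = 0` unless `y e^{-v} ≥ 1`, i.e. `e^{-v} ≥ 20/17`, `v ≤ -log(20/17) ≤ -0.16`; there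
`|v| ≥ 4/25` (or any positive constant `c₀ ≤ log(20/17)`; `log(20/17) ≥ 1 - 17/20 = 3/20`) and
`|Mz(y e^{-v}) e^{v/2}| ≤ y e^{-v} e^{v/2} ≤ e^{|v|/2} ≤ (v²/c₀²) e^{2|v|}`. So
`|SM η y| ≤ c₀⁻² ∫ |v|² e^{2|v|} gk η v dv ≤ C η²` (`gk_moment 2`).
-/

set_option autoImplicit false

namespace Pool.Agent.H56.GX

open MeasureTheory Set Complex Filter Topology

private theorem SMSmall_pt (η y v : ℝ) (hη : 0 < η) (hy : 0 < y) (hy2 : y ≤ 17 / 20) :
    ‖Mz (y * Real.exp (-v)) * Real.exp (v / 2) * gk η v‖ ≤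
      400 / 9 * (|v| ^ 2 * Real.exp (2 * |v|) * gk η v) := by
  have hg := gk_pos η hη v
  have hR : 0 ≤ 400 / 9 * (|v| ^ 2 * Real.exp (2 * |v|) * gk η v) := by positivity
  by_cases h : y * Real.exp (-v) < 1
  · rw [Mz_lt_one _ h]
    simpa using hR
  · push Not at h
    have h1 : Real.exp v ≤ y := by
      have h2 : Real.exp v * (y * Real.exp (-v)) = y := by
        rw [mul_comm y, ← mul_assoc, ← Real.exp_add]
        simp
      calc Real.exp v = Real.exp v * 1 := by ring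
        _ ≤ Real.exp v * (y * Real.exp (-v)) := by
          apply mul_le_mul_of_nonneg_left h (Real.exp_pos v).le
        _ = y := h2
    have h3 : v ≤ -(3 / 20) := by
      have := Real.add_one_le_exp v
      linarith
    have h4 : |v| = -v := abs_of_neg (by linarith)
    have h5 : |Mz (y * Real.exp (-v))| ≤ Real.exp (-v) := by
      refine (Mz_abs_le _ (by positivity)).trans ?_
      have := Real.exp_pos (-v)
      nlinarith
    have h6 : Real.exp (v / 2) ≤ 1 := by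
      rw [Real.exp_le_one_iff]
      linarith
    have h7 : Real.exp (-v) ≤ Real.exp (2 * |v|) := by
      apply Real.exp_le_exp.mpr
      rw [h4]
      linarith
    have h8 : (1 : ℝ) ≤ 400 / 9 * |v| ^ 2 := by
      rw [h4]
      nlinarith
    rw [norm_mul, norm_mul, Real.norm_eq_abs, Real.norm_eq_abs, Real.norm_eq_abs, abs_of_pos hg,
      abs_of_pos (Real.exp_pos (v / 2))]
    calc |Mz (y * Real.exp (-v))| * Real.exp (v / 2) * gk η v
        ≤ (Real.exp (2 * |v|) * 1) * gk η v := by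
          apply mul_le_mul_of_nonneg_right _ hg.le
          exact mul_le_mul (h5.trans h7) h6 (Real.exp_pos _).le (Real.exp_pos _).le
      _ ≤ (Real.exp (2 * |v|) * (400 / 9 * |v| ^ 2)) * gk η v := by
          apply mul_le_mul_of_nonneg_right _ hg.le
          exact mul_le_mul_of_nonneg_left h8 (Real.exp_pos _).le
      _ = 400 / 9 * (|v| ^ 2 * Real.exp (2 * |v|) * gk η v) := by ring

theorem SM_small : ∃ C : ℝ, 0 < C ∧ ∀ η y : ℝ, 0 < η → η ≤ 1 → 0 < y → y ≤ 17 / 20 →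
    |SM η y| ≤ C * η ^ 2 := by
  obtain ⟨C, hC, hC2⟩ := gk_moment 2
  refine ⟨400 / 9 * C, by positivity, ?_⟩
  intro η y hη hη1 hy hy2
  obtain ⟨hi, hb⟩ := hC2 η hη hη1
  have h := norm_integral_le_of_norm_le (μ := volume)
    (f := fun v : ℝ => Mz (y * Real.exp (-v)) * Real.exp (v / 2) * gk η v)
    (hi.const_mul (400 / 9))
    (Eventually.of_forall (fun v => SMSmall_pt η y v hη hy hy2))
  rw [Real.norm_eq_abs, integral_const_mul] at h
  calc |SM η y| ≤ 400 / 9 * ∫ v : ℝ, |v| ^ 2 * Real.exp (2 * |v|) * gk η v := h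
    _ ≤ 400 / 9 * (C * η ^ 2) := by
      apply mul_le_mul_of_nonneg_left hb (by norm_num)
    _ = 400 / 9 * C * η ^ 2 := by ring

end Pool.Agent.H56.GX

end
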