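import Pool.Agent.H47.B1.M02

/-! The parts of this file: H56.GX.Final, H82.GY.SBY, H82.GY.WChg, H82.GY.WErr. -/

section

/-!
GX module Final: assembly.
-/

set_option autoImplicit false

namespace Pool.Agent.H56.GX

open MeasureTheory Set Complex Filter Topology

/-- monotonicity of the error integral under shifts -/
theorem shift_err (η X X' s R : ℝ) (hη : 0 < η) (hX : 0 < X) (h1 : 7 / 20 * X ≤ X' + s) (h2 : 0 ≤ X')
    (h3 : 2 * X' + s ≤ 17 / 20 * X)
    (hR : ∫ x in (7 / 20 * X)..(17 / 20 * X), (Mz x - SM η x) ^ 2 ≤ R) :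
    ∫ x in X'..2 * X', (Mz (x + s) - SM η (x + s)) ^ 2 ≤ R := by
  have e1 : ∫ x in X'..2 * X', (Mz (x + s) - SM η (x + s)) ^ 2 =
      ∫ x in (X' + s)..(2 * X' + s), (Mz x - SM η x) ^ 2 :=
    intervalIntegral.integral_comp_add_right (fun x => (Mz x - SM η x) ^ 2) s
  rw [e1]
  refine le_trans ?_ hR
  have hi : IntervalIntegrable (fun x => (Mz x - SM η x) ^ 2) volume (7 / 20 * X) (17 / 20 * X) := by
    have := err_intervalIntegrable η hη (7 / 20 * X) (17 / 20 * X) 0 (by linarith) (by linarith)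
    simpa using this
  exact intervalIntegral.integral_mono_interval h1 (by linarith) h3
    (Filter.Eventually.of_forall fun x => sq_nonneg _) hi

/-- upper bound for the variance at a recurrence point -/
theorem var_bound (η X δ R Dm : ℝ) (hη : 0 < η) (hX : 0 < X) (hδ : 0 < δ) (hδ1 : δ ≤ 1 / 10)
    (hR : ∫ x in (7 / 20 * X)..(17 / 20 * X), (Mz x - SM η x) ^ 2 ≤ R)
    (hD : ∀ x : ℝ, 2 / 5 * X ≤ x → x ≤ 4 / 5 * X →
      |SM η (x + δ * (2 / 5 * X) / 2) - SM η (x - δ * (2 / 5 * X) / 2)| ≤ Dm) :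
    V (2 / 5 * X) (δ * (2 / 5 * X)) ≤ 15 * R / X + 3 * Dm ^ 2 := by
  set X' := 2 / 5 * X with hX'
  set H := δ * X' with hH
  have hX'0 : 0 < X' := by positivity
  have hH0 : 0 < H := by positivity
  have hHX : H ≤ X' := by
    rw [hH]
    nlinarith
  have hHs : H / 2 ≤ X / 50 := by
    rw [hH, hX']
    nlinarith
  rw [V_eq X' H hX'0 hH0 hHX]
  have i1 : IntervalIntegrable (fun x => (Mz (x + H / 2) - SM η (x + H / 2)) ^ 2) volume X' (2 * X') :=
    err_intervalIntegrable η hη _ _ _ (by linarith) (by linarith)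
  have i2 : IntervalIntegrable (fun x => (Mz (x + -(H / 2)) - SM η (x + -(H / 2))) ^ 2) volume
      X' (2 * X') :=
    err_intervalIntegrable η hη _ _ _ (by linarith) (by linarith)
  have i3 : IntervalIntegrable (fun x => (Mz (x + H / 2) - Mz (x - H / 2)) ^ 2) volume X' (2 * X') := by
    have := Mz_diff_sq_intervalIntegrable X' (2 * X') (H / 2) (-(H / 2))
    simpa only [← sub_eq_add_neg] using this
  have hp : ∀ x ∈ Icc X' (2 * X'), (Mz (x + H / 2) - Mz (x - H / 2)) ^ 2 ≤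
      3 * (Mz (x + H / 2) - SM η (x + H / 2)) ^ 2 +
        3 * (Mz (x + -(H / 2)) - SM η (x + -(H / 2))) ^ 2 + 3 * Dm ^ 2 := by
    intro x hx
    have h1 := hD x hx.1 (by linarith [hx.2])
    have h2 : (SM η (x + H / 2) - SM η (x - H / 2)) ^ 2 ≤ Dm ^ 2 := by
      rw [← sq_abs]
      exact pow_le_pow_left₀ (abs_nonneg _) h1 2
    rw [← sub_eq_add_neg]
    nlinarith [sq_nonneg ((Mz (x + H / 2) - SM η (x + H / 2)) + (Mz (x - H / 2) - SM η (x - H / 2))),
      sq_nonneg ((Mz (x + H / 2) - SM η (x + H / 2)) - (SM η (x + H / 2) - SM η (x - H / 2))),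
      sq_nonneg ((Mz (x - H / 2) - SM η (x - H / 2)) + (SM η (x + H / 2) - SM η (x - H / 2)))]
  have hint : ∫ x in X'..2 * X', (Mz (x + H / 2) - Mz (x - H / 2)) ^ 2 ≤
      3 * R + 3 * R + 3 * Dm ^ 2 * X' := by
    calc ∫ x in X'..2 * X', (Mz (x + H / 2) - Mz (x - H / 2)) ^ 2
        ≤ ∫ x in X'..2 * X', (3 * (Mz (x + H / 2) - SM η (x + H / 2)) ^ 2 +
          3 * (Mz (x + -(H / 2)) - SM η (x + -(H / 2))) ^ 2 + 3 * Dm ^ 2) :=
          intervalIntegral.integral_mono_on (by linarith) i3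
            (((i1.const_mul 3).add (i2.const_mul 3)).add intervalIntegrable_const) hp
      _ = 3 * (∫ x in X'..2 * X', (Mz (x + H / 2) - SM η (x + H / 2)) ^ 2) +
          3 * (∫ x in X'..2 * X', (Mz (x + -(H / 2)) - SM η (x + -(H / 2))) ^ 2) +
            3 * Dm ^ 2 * X' := by
          rw [intervalIntegral.integral_add ((i1.const_mul 3).add (i2.const_mul 3))
            intervalIntegrable_const, intervalIntegral.integral_add (i1.const_mul 3)
            (i2.const_mul 3), intervalIntegral.integral_const_mul,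
            intervalIntegral.integral_const_mul, intervalIntegral.integral_const, smul_eq_mul]
          ring
      _ ≤ 3 * R + 3 * R + 3 * Dm ^ 2 * X' := by
          have j1 := shift_err η X X' (H / 2) R hη hX (by linarith) hX'0.le (by linarith) hR
          have j2 := shift_err η X X' (-(H / 2)) R hη hX (by linarith) hX'0.le (by linarith) hR
          linarith
  calc 1 / X' * ∫ x in X'..2 * X', (Mz (x + H / 2) - Mz (x - H / 2)) ^ 2
      ≤ 1 / X' * (3 * R + 3 * R + 3 * Dm ^ 2 * X') :=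
        mul_le_mul_of_nonneg_left hint (by positivity)
    _ = 15 * R / X + 3 * Dm ^ 2 := by
        rw [hX']
        field_simp
        ring

theorem final_sh (δ X : ℝ) (hX : 0 < X) (hδ : δ ≤ 1 / 40) : δ * (2 / 5 * X) / 2 ≤ X / 100 := by
  have := mul_le_mul_of_nonneg_right hδ hX.le
  linarith

end Pool.Agent.H56.GX

end

section

/-!
GY module SBY: the window bounds imply mean square bounds for `Mz`. (Adapt `GX/SB.lean`, 229 lines.)

(1) `sb`. Write `b X = ∫_X^{2X} Mz²`. Let `X ≥ 4 Y₀`, `G = g X`, `k₀ = ⌈4 G⌉₊` (so `4 G ≤ k₀ ≤ 5 G`, as `G ≥ 1`),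
`h = X / (2 k₀)`. For every `Y ∈ [X/2, 2X]`: `G/2 ≤ g (X/2) ≤ g Y ≤ g (2X) ≤ 2 G` (`dbl`, `mono`), so
`Y / (2 g Y) ≥ (X/2)/(4G) = X/(8G) ≥ h` and `2 κ Y / g Y ≤ 4 κ X / (G/2) = 8 κ X / G ≤ X / (10 G) ≤ h`
(`κ ≤ 1/128`). Hence `∫_Y^{2Y} (Mz (x+h) - Mz x)² ≤ 2 B Y h` by `WinG`.
Shifts: for `j < 2 k₀` the function `x ↦ Mz (x + (j+1) h) - Mz (x + j h)` on `[X/2, X]` has
`∫ (...)² = ∫_{X/2 + jh}^{X + jh} (Mz (x+h) - Mz x)² dx ≤ 2 B (3X/2) h = 3 B X h` (the interval is contained in `[Y, 2Y]`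
with `Y = X/2 + jh ≤ 3X/2`). With `(u + v)² ≤ (3/2) u² + 3 v²` and Cauchy-Schwarz, for `m ≤ 2 k₀`:
`∫_{X/2}^X Mz (x + m h)² dx ≤ (3/2) b(X/2) + 3 m² · 3 B X h ≤ (3/2) b(X/2) + 3 (2k₀)² 3 B X² / (2k₀)
 = (3/2) b(X/2) + 18 B k₀ X² ≤ (3/2) b(X/2) + 90 B G X²`. Apply this with `m = k₀` (`mh = X/2`, gives `∫_X^{3X/2} Mz²`)
and `m = 2 k₀` (`mh = X`, gives `∫_{3X/2}^{2X} Mz²`): `b X ≤ 3 b(X/2) + 180 B g(X) X²` for `X ≥ 4 Y₀`.
Trivial bound `b X ≤ 4 X³` (`|Mz x| ≤ x`), so `b X ≤ 16 Y₀ X² ≤ 16 Y₀ X² g X` for `X ≤ 4 Y₀`.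
Claim `b X ≤ C X² g X` for `X ≥ 1` with `C = max (16 Y₀) (720 B) + 1` (induction on `n` for `X ≤ 4 Y₀ 2^n`):
`b X ≤ 3 C (X/2)² g(X/2) + 180 B g(X) X² ≤ (3/4) C X² g X + (1/4) C X² g X`.
(For `X/2 < 1`: not needed, since `X ≥ 4 Y₀ ≥ 4`.)

(2) `low_int_g`: as `low_int` in `GX/Low.lean` (dyadic blocks; `g (Y/2^k) ≤ g Y`; `Mz = 0` on `(0,1)`, the block that contains
`1` is `≤ Z²`-type as in `low_dyadic` there).

(3) `g_scale`: for `0 < X`: if `Y ≤ X` then `g Y ≤ g X`. Otherwise let `n` be minimal with `Y ≤ 2^n X`; then `2^n ≤ 2 Y / X` and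
`g Y ≤ g (2^n X) ≤ 2^n g X ≤ 2 (Y/X) g X` (`dbl` iterated).
(4) `msc_of_sb`: `∫_0^Y Mz² ≤ C Y² g Y ≤ 2 C g(X) Y² (1 + Y/X)`.
(5) `wb_of_slow`: for `X ≥ max X₁ 3` (say): `g X ≤ (log log X)^θ ≤ max 1 (log log X) ≤ 2 √(1 + log X)` (use
`Real.add_one_le_exp` / `Real.log_le_sub_one_of_pos`: `log y ≤ 2 √y` for `y > 0`); if `log log X < 1` then
`(log log X)^θ ≤ 1` when `log log X ≥ 0` (take `X ≥ e`). For `1 ≤ X ≤ X₂`: `g X ≤ g X₂ ≤ g X₂ √(1 + log X)`.
-/

set_option autoImplicit false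

namespace Pool.Agent.H82.GY

open MeasureTheory Set Complex Filter Topology
open Pool.Agent.H56.GX

private theorem SBY_pointwise (x k : ℝ) (m : ℕ) :
    (Mz (x + m * k)) ^ 2 ≤ 3 / 2 * (Mz x) ^ 2
      + 3 * m * ∑ j ∈ Finset.range m,
        (Mz (x + ((j + 1 : ℕ) : ℝ) * k) - Mz (x + (j : ℝ) * k)) ^ 2 := by
  have h1 := Finset.sum_range_sub (fun j : ℕ => Mz (x + (j : ℝ) * k)) m
  have h2 := sq_sum_le_card_mul_sum_sq (s := Finset.range m)
    (f := fun j : ℕ => Mz (x + ((j + 1 : ℕ) : ℝ) * k) - Mz (x + (j : ℝ) * k))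
  rw [h1, Finset.card_range, Nat.cast_zero, zero_mul, add_zero] at h2
  set u := Mz x
  set w := Mz (x + m * k)
  set S := ∑ j ∈ Finset.range m, (Mz (x + ((j + 1 : ℕ) : ℝ) * k) - Mz (x + (j : ℝ) * k)) ^ 2
  nlinarith [sq_nonneg (u - 2 * (w - u))]

private theorem SBY_shift_int (a b c : ℝ) :
    IntervalIntegrable (fun x => (Mz (x + c)) ^ 2) volume a b := by
  have h := (Mz_sq_intervalIntegrable (a + c) (b + c)).comp_add_right c
  simpa using h

private theorem SBY_trivial (X : ℝ) (hX : 0 ≤ X) : ∫ x in X..2 * X, (Mz x) ^ 2 ≤ 4 * X ^ 3 := by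
  have h1 : ∫ x in X..2 * X, (Mz x) ^ 2 ≤ ∫ x in X..2 * X, (4 * X ^ 2) := by
    apply intervalIntegral.integral_mono_on (by linarith) (Mz_sq_intervalIntegrable _ _)
      intervalIntegrable_const
    intro x hx
    have h2 := Mz_abs_le x (hX.trans hx.1)
    have h3 : |Mz x| ≤ 2 * X := h2.trans hx.2
    rw [← sq_abs]
    nlinarith [abs_nonneg (Mz x)]
  refine h1.trans ?_
  rw [intervalIntegral.integral_const, smul_eq_mul]
  nlinarith

private theorem SBY_rec (B κ Y₀ : ℝ) (g : ℝ → ℝ) (hg : Reg g) (hB : 0 ≤ B) (hκ : 0 < κ)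
    (hκ' : κ ≤ 1 / 128) (hY : 1 ≤ Y₀) (hW : WinG B κ Y₀ g) (X : ℝ) (hX : 4 * Y₀ ≤ X) :
    ∫ x in X..2 * X, (Mz x) ^ 2 ≤
      3 * (∫ x in (X / 2)..X, (Mz x) ^ 2) + 240 * B * g X * X ^ 2 := by
  have hX0 : 0 < X := by linarith
  set G : ℝ := g X with hG
  have hG1 : 1 ≤ G := hg.one_le X
  have hG0 : 0 < G := by linarith
  set k : ℕ := ⌈4 * G⌉₊ with hk
  have hk1 : 4 * G ≤ (k : ℝ) := Nat.le_ceil _
  have hk2 : (k : ℝ) ≤ 5 * G := by
    have := Nat.ceil_lt_add_one (show 0 ≤ 4 * G by linarith)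
    linarith
  have hk0 : (1 : ℝ) ≤ k := by linarith
  have hkpos : (0 : ℝ) < k := by linarith
  set η : ℝ := X / (2 * k) with hη
  have hη0 : 0 < η := by positivity
  have hkη : (k : ℝ) * η = X / 2 := by rw [hη]; field_simp
  have h2kη : ((2 * k : ℕ) : ℝ) * η = X := by
    push_cast
    rw [mul_assoc, hkη]; ring
  have hwin : ∀ j : ℕ, j < 2 * k →
      ∫ x in (X / 2)..X, (Mz (x + ((j + 1 : ℕ) : ℝ) * η) - Mz (x + (j : ℝ) * η)) ^ 2
        ≤ 4 * B * X * η := by
    intro j hj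
    have hjη0 : 0 ≤ (j : ℝ) * η := by positivity
    have hjη : (j : ℝ) * η ≤ X := by
      rw [← h2kη]
      apply mul_le_mul_of_nonneg_right _ hη0.le
      exact_mod_cast hj.le
    have e1 : ∫ x in (X / 2)..X, (Mz (x + ((j + 1 : ℕ) : ℝ) * η) - Mz (x + (j : ℝ) * η)) ^ 2
        = ∫ x in (X / 2 + j * η)..(X + j * η), (Mz (x + η) - Mz x) ^ 2 := by
      rw [← intervalIntegral.integral_comp_add_right (fun x => (Mz (x + η) - Mz x) ^ 2) (j * η)]
      apply intervalIntegral.integral_congr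
      intro x _
      show (Mz (x + ((j + 1 : ℕ) : ℝ) * η) - Mz (x + (j : ℝ) * η)) ^ 2
        = (Mz (x + j * η + η) - Mz (x + j * η)) ^ 2
      congr 3
      push_cast
      ring
    rw [e1]
    have e2 : ∫ x in (X / 2 + j * η)..(X + j * η), (Mz (x + η) - Mz x) ^ 2
        ≤ ∫ x in (X / 2 + j * η)..2 * (X / 2 + j * η), (Mz (x + η) - Mz x) ^ 2 := by
      apply intervalIntegral.integral_mono_interval le_rfl (by linarith) (by linarith)
      · exact Filter.Eventually.of_forall (fun x => sq_nonneg _)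
      · simpa using Mz_diff_sq_intervalIntegrable (X / 2 + j * η) (2 * (X / 2 + j * η)) η 0
    refine e2.trans ?_
    set Y : ℝ := X / 2 + j * η with hYd
    have hY1 : X / 2 ≤ Y := by linarith
    have hY2 : Y ≤ 2 * X := by linarith
    have hYp : 0 < Y := by linarith
    have hgY1 : G / 2 ≤ g Y := by
      have a1 := hg.dbl (X / 2)
      have a2 := hg.mono hY1
      rw [show 2 * (X / 2) = X by ring] at a1
      linarith
    have hgY2 : g Y ≤ 2 * G := (hg.mono hY2).trans (hg.dbl X)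
    have hgYp : 0 < g Y := by linarith
    have e3 := hW Y η (by linarith) ?_ ?_
    · refine e3.trans ?_
      have : Y * η ≤ 2 * X * η := mul_le_mul_of_nonneg_right hY2 hη0.le
      nlinarith
    · -- `2 κ Y / g Y ≤ η`
      rw [hη, div_le_div_iff₀ hgYp (by positivity)]
      have b1 : κ * Y * (k : ℝ) ≤ 1 / 128 * (2 * X) * (5 * G) := by
        refine mul_le_mul (mul_le_mul hκ' hY2 hYp.le (by norm_num)) hk2 hkpos.le (by positivity)
      have b2 : X * (G / 2) ≤ X * g Y := mul_le_mul_of_nonneg_left hgY1 hX0.le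
      have b3 : 0 ≤ X * G := by positivity
      nlinarith
    · -- `η ≤ Y / (2 g Y)`
      rw [hη, div_le_div_iff₀ (by positivity) (by positivity)]
      have b1 : X * (2 * g Y) ≤ X * (2 * (2 * G)) :=
        mul_le_mul_of_nonneg_left (by linarith) hX0.le
      have b2 : (X / 2) * (2 * (4 * G)) ≤ Y * (2 * k) :=
        mul_le_mul hY1 (by linarith) (by positivity) hYp.le
      nlinarith
  have hm : ∀ m : ℕ, m ≤ 2 * k →
      ∫ x in (X / 2)..X, (Mz (x + m * η)) ^ 2
        ≤ 3 / 2 * (∫ x in (X / 2)..X, (Mz x) ^ 2) + 120 * B * G * X ^ 2 := by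
    intro m hm
    have i1 : ∀ j : ℕ, IntervalIntegrable
        (fun x => (Mz (x + ((j + 1 : ℕ) : ℝ) * η) - Mz (x + (j : ℝ) * η)) ^ 2) volume (X / 2) X :=
      fun j => Mz_diff_sq_intervalIntegrable _ _ _ _
    have i2 : IntervalIntegrable (fun x => 3 * (m : ℝ) * ∑ j ∈ Finset.range m,
        (Mz (x + ((j + 1 : ℕ) : ℝ) * η) - Mz (x + (j : ℝ) * η)) ^ 2) volume (X / 2) X := by
      apply IntervalIntegrable.const_mul
      have := IntervalIntegrable.sum (Finset.range m) (fun j _ => i1 j)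
      simpa [Finset.sum_fn] using this
    have i3 : IntervalIntegrable (fun x => 3 / 2 * (Mz x) ^ 2) volume (X / 2) X :=
      (Mz_sq_intervalIntegrable _ _).const_mul _
    have e1 : ∫ x in (X / 2)..X, (Mz (x + m * η)) ^ 2
        ≤ ∫ x in (X / 2)..X, (3 / 2 * (Mz x) ^ 2 + 3 * (m : ℝ) * ∑ j ∈ Finset.range m,
          (Mz (x + ((j + 1 : ℕ) : ℝ) * η) - Mz (x + (j : ℝ) * η)) ^ 2) := by
      apply intervalIntegral.integral_mono_on (by linarith) (SBY_shift_int _ _ _) (i3.add i2)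
      intro x _
      exact SBY_pointwise x η m
    refine e1.trans ?_
    rw [intervalIntegral.integral_add i3 i2, intervalIntegral.integral_const_mul,
      intervalIntegral.integral_const_mul, intervalIntegral.integral_finsetSum (fun j _ => i1 j)]
    have e2 : ∑ j ∈ Finset.range m, ∫ x in (X / 2)..X,
        (Mz (x + ((j + 1 : ℕ) : ℝ) * η) - Mz (x + (j : ℝ) * η)) ^ 2
        ≤ m * (4 * B * X * η) := by
      calc _ ≤ ∑ j ∈ Finset.range m, (4 * B * X * η) :=
            Finset.sum_le_sum (fun j hj => hwin j (lt_of_lt_of_le (Finset.mem_range.1 hj) hm))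
        _ = m * (4 * B * X * η) := by rw [Finset.sum_const, Finset.card_range, nsmul_eq_mul]
    have hm2 : (m : ℝ) ≤ 2 * k := by exact_mod_cast hm
    have hm0 : (0 : ℝ) ≤ m := Nat.cast_nonneg m
    have e3 : 3 * (m : ℝ) * (m * (4 * B * X * η)) ≤ 120 * B * G * X ^ 2 := by
      have e4 : (m : ℝ) * m ≤ (2 * k) * (2 * k) := mul_le_mul hm2 hm2 hm0 (by positivity)
      have e5 : 0 ≤ 12 * B * X * η := by positivity
      calc 3 * (m : ℝ) * (m * (4 * B * X * η)) = (m * m) * (12 * B * X * η) := by ring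
        _ ≤ ((2 * k) * (2 * k)) * (12 * B * X * η) := mul_le_mul_of_nonneg_right e4 e5
        _ = 48 * B * X * k * (k * η) := by ring
        _ = 24 * B * X ^ 2 * k := by rw [hkη]; ring
        _ ≤ 24 * B * X ^ 2 * (5 * G) := mul_le_mul_of_nonneg_left hk2 (by positivity)
        _ = 120 * B * G * X ^ 2 := by ring
    have e6 : 3 * (m : ℝ) * ∑ j ∈ Finset.range m, ∫ x in (X / 2)..X,
        (Mz (x + ((j + 1 : ℕ) : ℝ) * η) - Mz (x + (j : ℝ) * η)) ^ 2
        ≤ 3 * (m : ℝ) * (m * (4 * B * X * η)) := mul_le_mul_of_nonneg_left e2 (by positivity)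
    linarith
  have s1 : ∫ x in X..2 * X, (Mz x) ^ 2
      = (∫ x in X..(3 / 2 * X), (Mz x) ^ 2) + ∫ x in (3 / 2 * X)..2 * X, (Mz x) ^ 2 :=
    (intervalIntegral.integral_add_adjacent_intervals (Mz_sq_intervalIntegrable _ _)
      (Mz_sq_intervalIntegrable _ _)).symm
  have s2 : ∫ x in X..(3 / 2 * X), (Mz x) ^ 2 = ∫ x in (X / 2)..X, (Mz (x + k * η)) ^ 2 := by
    rw [intervalIntegral.integral_comp_add_right (fun x => (Mz x) ^ 2) ((k : ℝ) * η), hkη]
    congr 1 <;> ring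
  have s3 : ∫ x in (3 / 2 * X)..2 * X, (Mz x) ^ 2
      = ∫ x in (X / 2)..X, (Mz (x + ((2 * k : ℕ) : ℝ) * η)) ^ 2 := by
    rw [intervalIntegral.integral_comp_add_right (fun x => (Mz x) ^ 2) (((2 * k : ℕ) : ℝ) * η),
      h2kη]
    congr 1 <;> ring
  have t1 := hm k (by omega)
  have t2 := hm (2 * k) le_rfl
  rw [s1, s2, s3]
  linarith

theorem sb (B κ Y₀ : ℝ) (g : ℝ → ℝ) (hg : Reg g) (hB : 0 ≤ B) (hκ : 0 < κ) (hκ' : κ ≤ 1 / 128)
    (hY : 1 ≤ Y₀) (h : WinG B κ Y₀ g) :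
    ∃ C : ℝ, 1 ≤ C ∧ ∀ X : ℝ, 1 ≤ X → ∫ x in X..2 * X, (Mz x) ^ 2 ≤ C * X ^ 2 * g X := by
  have hrec := SBY_rec B κ Y₀ g hg hB hκ hκ' hY h
  set C : ℝ := 16 * Y₀ + 960 * B with hC
  have hC1 : 1 ≤ C := by rw [hC]; linarith
  have hbase : ∀ X : ℝ, 0 ≤ X → X ≤ 4 * Y₀ →
      ∫ x in X..2 * X, (Mz x) ^ 2 ≤ C * X ^ 2 * g X := by
    intro X hX0 hX
    refine (SBY_trivial X hX0).trans ?_
    have h1 : 4 * X ^ 3 ≤ 16 * Y₀ * X ^ 2 := by nlinarith [sq_nonneg X]
    have h2 : 0 ≤ 960 * B * X ^ 2 := by positivity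
    have h3 : 4 * X ^ 3 ≤ C * X ^ 2 := by
      rw [hC]
      nlinarith
    have h4 : C * X ^ 2 * 1 ≤ C * X ^ 2 * g X :=
      mul_le_mul_of_nonneg_left (hg.one_le X) (by positivity)
    linarith
  have hind : ∀ n : ℕ, ∀ X : ℝ, 0 ≤ X → X ≤ 4 * Y₀ * 2 ^ n →
      ∫ x in X..2 * X, (Mz x) ^ 2 ≤ C * X ^ 2 * g X := by
    intro n
    induction n with
    | zero =>
      intro X hX0 hX
      exact hbase X hX0 (by simpa using hX)
    | succ n ih =>
      intro X hX0 hX
      rcases le_total X (4 * Y₀) with hc | hc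
      · exact hbase X hX0 hc
      · have h1 := hrec X hc
        have h2 := ih (X / 2) (by linarith) (by rw [pow_succ] at hX; linarith)
        rw [show 2 * (X / 2) = X by ring] at h2
        have h3 : 960 * B ≤ C := by rw [hC]; linarith
        have hgp : 0 < g X := lt_of_lt_of_le one_pos (hg.one_le X)
        have h4 : 960 * B * (g X * X ^ 2) ≤ C * (g X * X ^ 2) :=
          mul_le_mul_of_nonneg_right h3 (by positivity)
        have h5 : C * (X / 2) ^ 2 * g (X / 2) ≤ C * (X / 2) ^ 2 * g X :=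
          mul_le_mul_of_nonneg_left (hg.mono (by linarith)) (by positivity)
        nlinarith
  refine ⟨C, hC1, ?_⟩
  intro X hX
  obtain ⟨n, hn⟩ := pow_unbounded_of_one_lt X (one_lt_two)
  refine hind n X (by linarith) ?_
  have : (2 : ℝ) ^ n ≤ 4 * Y₀ * 2 ^ n := by
    have : (0 : ℝ) < 2 ^ n := by positivity
    nlinarith
  linarith

private theorem SBY_zero (a b : ℝ) (hab : a ≤ b) (hb : b ≤ 1) :
    ∫ x in a..b, (Mz x) ^ 2 = 0 := by
  apply intervalIntegral.integral_zero_ae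
  have h1 : ∀ᵐ x : ℝ, x ≠ b := by
    have : (volume : Measure ℝ) {b} = 0 := by simp
    have h2 : {x : ℝ | ¬ x ≠ b} = {b} := by
      ext x
      simp
    rw [ae_iff, h2]
    exact this
  filter_upwards [h1] with x hx hx2
  rw [uIoc_of_le hab] at hx2
  have : x < b := lt_of_le_of_ne hx2.2 hx
  rw [Mz_lt_one x (by linarith)]
  simp

private theorem SBY_dyadic (C : ℝ) (hC : 1 ≤ C) (g : ℝ → ℝ) (hg : Reg g)
    (h : ∀ X : ℝ, 1 ≤ X → ∫ x in X..2 * X, (Mz x) ^ 2 ≤ C * X ^ 2 * g X) (Z : ℝ) (hZ : 0 ≤ Z) :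
    ∫ x in Z..2 * Z, (Mz x) ^ 2 ≤ C * Z ^ 2 * g Z := by
  have hgZ := hg.one_le Z
  have hle : C * Z ^ 2 * 1 ≤ C * Z ^ 2 * g Z :=
    mul_le_mul_of_nonneg_left hgZ (by positivity)
  rcases le_or_gt 1 Z with h1 | h1
  · exact h Z h1
  rcases le_or_gt (2 * Z) 1 with h2 | h2
  · rw [SBY_zero Z (2 * Z) (by linarith) h2]
    positivity
  · have h3 : ∫ x in Z..2 * Z, (Mz x) ^ 2 =
        (∫ x in Z..1, (Mz x) ^ 2) + ∫ x in (1 : ℝ)..2 * Z, (Mz x) ^ 2 :=
      (intervalIntegral.integral_add_adjacent_intervals (Mz_sq_intervalIntegrable _ _)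
        (Mz_sq_intervalIntegrable _ _)).symm
    have h4 : ∫ x in (1 : ℝ)..2 * Z, (Mz x) ^ 2 = ∫ x in (1 : ℝ)..2 * Z, (1 : ℝ) := by
      apply intervalIntegral.integral_congr_ae
      apply Filter.Eventually.of_forall
      intro x hx
      rw [uIoc_of_le h2.le] at hx
      have h5 : x < 2 := by
        have := hx.2
        linarith
      rw [Mz_lt_two x hx.1.le h5]
      norm_num
    refine le_trans ?_ hle
    rw [h3, SBY_zero Z 1 h1.le le_rfl, h4, intervalIntegral.integral_const]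
    simp only [smul_eq_mul, mul_one, zero_add]
    nlinarith [sq_nonneg (Z - 1), sq_nonneg Z]

theorem low_int_g (C : ℝ) (hC : 1 ≤ C) (g : ℝ → ℝ) (hg : Reg g)
    (h : ∀ X : ℝ, 1 ≤ X → ∫ x in X..2 * X, (Mz x) ^ 2 ≤ C * X ^ 2 * g X) (Y : ℝ) (hY : 0 ≤ Y) :
    ∫ x in (0 : ℝ)..Y, (Mz x) ^ 2 ≤ C * Y ^ 2 * g Y := by
  have hgY := hg.one_le Y
  have key : ∀ n : ℕ, ∫ x in (Y / 2 ^ n)..Y, (Mz x) ^ 2 ≤
      C * Y ^ 2 * g Y * ((1 - (1 / 4) ^ n) / 3) := by
    intro n
    induction n with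
    | zero => simp
    | succ n ih =>
      have h1 : ∫ x in (Y / 2 ^ (n + 1))..Y, (Mz x) ^ 2 =
          (∫ x in (Y / 2 ^ (n + 1))..(Y / 2 ^ n), (Mz x) ^ 2) + ∫ x in (Y / 2 ^ n)..Y, (Mz x) ^ 2 :=
        (intervalIntegral.integral_add_adjacent_intervals (Mz_sq_intervalIntegrable _ _)
          (Mz_sq_intervalIntegrable _ _)).symm
      have h2 := SBY_dyadic C hC g hg h (Y / 2 ^ (n + 1)) (by positivity)
      have hgm : g (Y / 2 ^ (n + 1)) ≤ g Y :=
        hg.mono (div_le_self hY (one_le_pow₀ (by norm_num)))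
      have h2' : C * (Y / 2 ^ (n + 1)) ^ 2 * g (Y / 2 ^ (n + 1)) ≤
          C * (Y / 2 ^ (n + 1)) ^ 2 * g Y := mul_le_mul_of_nonneg_left hgm (by positivity)
      replace h2 := h2.trans h2'
      have h3 : 2 * (Y / 2 ^ (n + 1)) = Y / 2 ^ n := by
        rw [pow_succ]
        field_simp
      rw [h3] at h2
      rw [h1]
      have h4 : C * (Y / 2 ^ (n + 1)) ^ 2 = C * Y ^ 2 * ((1 / 4) ^ n / 4) := by
        have h5 : ((2 : ℝ) ^ (n + 1)) ^ 2 = 4 * 4 ^ n := by
          rw [← pow_mul, mul_comm, pow_mul]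
          norm_num
          ring
        rw [div_pow, h5, one_div, inv_pow]
        field_simp
      rw [h4] at h2
      calc _ ≤ C * Y ^ 2 * ((1 / 4) ^ n / 4) * g Y +
            C * Y ^ 2 * g Y * ((1 - (1 / 4) ^ n) / 3) := add_le_add h2 ih
        _ = C * Y ^ 2 * g Y * ((1 - (1 / 4) ^ (n + 1)) / 3) := by
          rw [pow_succ]
          ring
  obtain ⟨n, hn⟩ : ∃ n : ℕ, Y < 2 ^ n := pow_unbounded_of_one_lt Y (by norm_num)
  have h1 : Y / 2 ^ n ≤ 1 := by
    rw [div_le_one (by positivity)]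
    exact hn.le
  have h2 : ∫ x in (0 : ℝ)..Y, (Mz x) ^ 2 =
      (∫ x in (0 : ℝ)..(Y / 2 ^ n), (Mz x) ^ 2) + ∫ x in (Y / 2 ^ n)..Y, (Mz x) ^ 2 :=
    (intervalIntegral.integral_add_adjacent_intervals (Mz_sq_intervalIntegrable _ _)
      (Mz_sq_intervalIntegrable _ _)).symm
  rw [h2, SBY_zero 0 (Y / 2 ^ n) (by positivity) h1, zero_add]
  refine (key n).trans ?_
  have h3 : (1 - (1 / 4 : ℝ) ^ n) / 3 ≤ 1 := by
    have : 0 ≤ (1 / 4 : ℝ) ^ n := by positivity
    linarith
  have h4 : 0 ≤ C * Y ^ 2 * g Y := by positivity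
  calc C * Y ^ 2 * g Y * ((1 - (1 / 4) ^ n) / 3) ≤ C * Y ^ 2 * g Y * 1 :=
        mul_le_mul_of_nonneg_left h3 h4
    _ = C * Y ^ 2 * g Y := mul_one _

private theorem SBY_iter (g : ℝ → ℝ) (hg : Reg g) (X : ℝ) (n : ℕ) :
    g (2 ^ n * X) ≤ 2 ^ n * g X := by
  induction n with
  | zero => simp
  | succ n ih =>
    have h1 := hg.dbl (2 ^ n * X)
    have h2 : (2 : ℝ) ^ (n + 1) * X = 2 * (2 ^ n * X) := by rw [pow_succ]; ring
    rw [h2]
    calc g (2 * (2 ^ n * X)) ≤ 2 * g (2 ^ n * X) := h1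
      _ ≤ 2 * (2 ^ n * g X) := by linarith
      _ = 2 ^ (n + 1) * g X := by rw [pow_succ]; ring

theorem g_scale (g : ℝ → ℝ) (hg : Reg g) (X Y : ℝ) (hX : 0 < X) (hY : 0 ≤ Y) :
    g Y ≤ 2 * g X * (1 + Y / X) := by
  have hgX := hg.one_le X
  have hYX : 0 ≤ Y / X := div_nonneg hY hX.le
  rcases le_total Y X with h | h
  · have h1 := hg.mono h
    nlinarith
  · have h1 : 1 ≤ Y / X := by rwa [le_div_iff₀ hX, one_mul]
    obtain ⟨n, hn1, hn2⟩ := exists_nat_pow_near h1 (one_lt_two : (1 : ℝ) < 2)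
    have h2 : Y ≤ 2 ^ (n + 1) * X := by
      rw [div_lt_iff₀ hX] at hn2
      exact hn2.le
    have h3 := (hg.mono h2).trans (SBY_iter g hg X (n + 1))
    have h4 : (2 : ℝ) ^ (n + 1) * g X ≤ 2 * (Y / X) * g X := by
      refine mul_le_mul_of_nonneg_right ?_ (by linarith)
      rw [pow_succ]
      linarith
    nlinarith

theorem msc_of_sb (C : ℝ) (hC : 1 ≤ C) (g : ℝ → ℝ) (hg : Reg g)
    (h : ∀ X : ℝ, 1 ≤ X → ∫ x in X..2 * X, (Mz x) ^ 2 ≤ C * X ^ 2 * g X) (X : ℝ) (hX : 0 < X) :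
    MSc (2 * C * g X) X := by
  intro Y hY
  refine (low_int_g C hC g hg h Y hY).trans ?_
  calc C * Y ^ 2 * g Y ≤ C * Y ^ 2 * (2 * g X * (1 + Y / X)) :=
        mul_le_mul_of_nonneg_left (g_scale g hg X Y hX hY) (by positivity)
    _ = 2 * C * g X * Y ^ 2 * (1 + Y / X) := by ring

theorem wb_of_slow (C : ℝ) (hC : 1 ≤ C) (g : ℝ → ℝ) (hg : Reg g)
    (h : ∀ X : ℝ, 1 ≤ X → ∫ x in X..2 * X, (Mz x) ^ 2 ≤ C * X ^ 2 * g X) (θ X₁ : ℝ) (hθ : 0 ≤ θ)
    (hθ1 : θ ≤ 1) (hs : ∀ X : ℝ, X₁ ≤ X → g X ≤ (Real.log (Real.log X)) ^ θ) :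
    ∃ C' : ℝ, 1 ≤ C' ∧ WB C' := by
  set X₂ : ℝ := max X₁ 3 with hX₂
  have hg2 := hg.one_le X₂
  have hgp : 0 ≤ g X₂ := by linarith
  have hbound : ∀ X : ℝ, 1 ≤ X → g X ≤ (2 + g X₂) * Real.sqrt (1 + Real.log X) := by
    intro X hX
    have hlog : 0 ≤ Real.log X := Real.log_nonneg hX
    have hsq : 1 ≤ Real.sqrt (1 + Real.log X) := by
      rw [Real.one_le_sqrt]
      linarith
    rcases le_total X X₂ with h1 | h1
    · have h2 := hg.mono h1
      nlinarith
    · have hX1 : X₁ ≤ X := (le_max_left _ _).trans h1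
      have hX3 : 3 ≤ X := (le_max_right _ _).trans h1
      have hy : 1 ≤ Real.log X := by
        rw [Real.le_log_iff_exp_le (by linarith)]
        have := Real.exp_one_lt_d9
        linarith
      have hyp : 0 < Real.log X := by linarith
      have hll : 0 ≤ Real.log (Real.log X) := Real.log_nonneg hy
      have h2 : Real.log (Real.log X) ≤ 2 * Real.sqrt (1 + Real.log X) := by
        have h3 : Real.log (Real.log X) ≤ 2 * Real.sqrt (Real.log X) := by
          have h4 := Real.log_le_sub_one_of_pos (Real.sqrt_pos.2 hyp)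
          rw [Real.log_sqrt hyp.le] at h4
          linarith
        have h5 : Real.sqrt (Real.log X) ≤ Real.sqrt (1 + Real.log X) :=
          Real.sqrt_le_sqrt (by linarith)
        linarith
      have h6 : (Real.log (Real.log X)) ^ θ ≤ 2 * Real.sqrt (1 + Real.log X) := by
        rcases le_total (Real.log (Real.log X)) 1 with h7 | h7
        · have := Real.rpow_le_one hll h7 hθ
          linarith
        · have h8 : (Real.log (Real.log X)) ^ θ ≤ (Real.log (Real.log X)) ^ (1 : ℝ) :=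
            Real.rpow_le_rpow_of_exponent_le h7 hθ1
          rw [Real.rpow_one] at h8
          linarith
      have h9 := hs X hX1
      nlinarith
  refine ⟨C * (2 + g X₂), by nlinarith, fun X hX => ?_⟩
  refine (h X hX).trans ?_
  calc C * X ^ 2 * g X ≤ C * X ^ 2 * ((2 + g X₂) * Real.sqrt (1 + Real.log X)) :=
        mul_le_mul_of_nonneg_left (hbound X hX) (by positivity)
    _ = C * (2 + g X₂) * X ^ 2 * Real.sqrt (1 + Real.log X) := by ring

end Pool.Agent.H82.GY

end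

section

/-!
GY module WChg: the change of variables. Copy `chg` (and the private lemmas `Chg_one`, `Chg_int2`) of `GX/Chg.lean` (341 lines) with
`v₀ = 1/80` and the energy bound `wener` instead of `ener2`:
`∫_0^{v₀} gk η v ∫_{(7/20)X}^{X} (Mz x - Mz (x e^{-v}))² dx dv ≤ (6/X) ∫_0^{X v₀} gk η (u/X) 100 B X (h₀ + u²/h₀) du
 = 600 B X ∫_0^{v₀} gk η w (h₀ + X² w²/h₀) dw ≤ 600 B X (h₀ + C₂ η² X²/h₀)` (`gk_integral`, `gk_moment 2`)
`= 600 B (h₀/X + C₂ η² X/h₀) X²`.
-/

set_option autoImplicit false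

namespace Pool.Agent.H82.GY

open MeasureTheory Set Complex Filter Topology
open Pool.Agent.H56.GX

private theorem WChg_int2 (f : ℝ → ℝ → ℝ) (hf : Measurable (Function.uncurry f)) (a b c d C : ℝ)
    (hb : ∀ x ∈ Ioc a b, ∀ y ∈ Ioc c d, |f x y| ≤ C) :
    Integrable (Function.uncurry f)
      ((volume.restrict (Ioc a b)).prod (volume.restrict (Ioc c d))) := by
  refine Integrable.of_bound hf.aestronglyMeasurable C ?_
  rw [Measure.prod_restrict]
  refine (ae_restrict_iff' (measurableSet_Ioc.prod measurableSet_Ioc)).2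
    (Filter.Eventually.of_forall ?_)
  rintro ⟨x, y⟩ ⟨hx, hy⟩
  exact hb x hx y hy

private theorem WChg_one (η X x v₀ : ℝ) (hη : 0 < η) (hX : 1 ≤ X) (hx1 : 7 / 20 * X ≤ x)
    (hx2 : x ≤ X) (hv : 0 < v₀) (hv' : v₀ ≤ 1 / 80) :
    ∫ v in Ioc 0 v₀, gk η v * (Mz x - Mz (x * Real.exp (-v))) ^ 2 ≤
      (6 / X) * ∫ u in Ioc 0 (X * v₀), gk η (u / X) * (Mz x - Mz (x - u)) ^ 2 := by
  have hX0 : 0 < X := by linarith
  have hx0 : 0 < x := by nlinarith
  have hgk0 : ∀ w, 0 ≤ gk η w := fun w => (gk_pos η hη w).le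
  have hgkb : ∀ w, gk η w ≤ gk η 0 := fun w => gk_anti η hη 0 w (by simp)
  have hmeas2 : Measurable (fun u : ℝ => gk η (u / X) * (Mz x - Mz (x - u)) ^ 2) := by
    have h1 : Measurable (fun u : ℝ => gk η (u / X)) :=
      (gk_continuous η).measurable.comp (measurable_id.div_const X)
    have h2 : Measurable (fun u : ℝ => Mz (x - u)) :=
      Mz_measurable.comp (measurable_const.sub measurable_id)
    exact h1.mul ((measurable_const.sub h2).pow_const 2)
  have hmeas1 : Measurable (fun v : ℝ => gk η v * (Mz x - Mz (x * Real.exp (-v))) ^ 2) := by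
    have h2 : Measurable (fun v : ℝ => Mz (x * Real.exp (-v))) :=
      Mz_measurable.comp (measurable_const.mul (Real.measurable_exp.comp measurable_neg))
    exact (gk_continuous η).measurable.mul ((measurable_const.sub h2).pow_const 2)
  have hMb : ∀ y z : ℝ, |y| ≤ X → |z| ≤ X → (Mz y - Mz z) ^ 2 ≤ (2 * X) ^ 2 := by
    intro y z hy hz
    have h1 := Mz_abs_le' y
    have h2 := Mz_abs_le' z
    rw [← sq_abs]
    refine pow_le_pow_left₀ (abs_nonneg _) ?_ 2
    refine (abs_sub _ _).trans ?_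
    linarith
  have hint2 : IntegrableOn (fun u : ℝ => gk η (u / X) * (Mz x - Mz (x - u)) ^ 2)
      (Ioc 0 (X * v₀)) := by
    refine Measure.integrableOn_of_bounded (M := gk η 0 * (2 * X) ^ 2) (by simp)
      hmeas2.aestronglyMeasurable ?_
    refine (ae_restrict_iff' measurableSet_Ioc).2 (Filter.Eventually.of_forall ?_)
    intro u hu
    rw [Real.norm_of_nonneg (mul_nonneg (hgk0 _) (sq_nonneg _))]
    have h1 : |x| ≤ X := by rw [abs_of_pos hx0]; exact hx2
    have h2 : |x - u| ≤ X := by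
      have : X * v₀ ≤ X := mul_le_of_le_one_right hX0.le (by linarith)
      rw [abs_le]; constructor
      · linarith [hu.1, hu.2]
      · linarith [hu.1]
    exact mul_le_mul (hgkb _) (hMb _ _ h1 h2) (sq_nonneg _) (hgk0 _)
  have hint1 : IntegrableOn (fun v : ℝ => gk η v * (Mz x - Mz (x * Real.exp (-v))) ^ 2)
      (Ioc 0 v₀) := by
    refine Measure.integrableOn_of_bounded (M := gk η 0 * (2 * X) ^ 2) (by simp)
      hmeas1.aestronglyMeasurable ?_
    refine (ae_restrict_iff' measurableSet_Ioc).2 (Filter.Eventually.of_forall ?_)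
    intro v hv1
    rw [Real.norm_of_nonneg (mul_nonneg (hgk0 _) (sq_nonneg _))]
    have h1 : |x| ≤ X := by rw [abs_of_pos hx0]; exact hx2
    have h2 : |x * Real.exp (-v)| ≤ X := by
      have h3 : Real.exp (-v) ≤ 1 := Real.exp_le_one_iff.2 (by linarith [hv1.1])
      have h4 := Real.exp_pos (-v)
      rw [abs_of_nonneg (by positivity)]
      nlinarith
    exact mul_le_mul (hgkb _) (hMb _ _ h1 h2) (sq_nonneg _) (hgk0 _)
  -- change of variables
  have hder : ∀ v ∈ Ioc 0 v₀, HasDerivWithinAt (fun v : ℝ => x * (1 - Real.exp (-v)))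
      (x * Real.exp (-v)) (Ioc 0 v₀) v := by
    intro v _
    have h1 : HasDerivAt (fun v : ℝ => x * (1 - Real.exp (-v)))
        (x * (0 - Real.exp (-v) * (-1))) v := by
      refine HasDerivAt.const_mul x ?_
      refine (hasDerivAt_const v (1 : ℝ)).sub ?_
      exact (hasDerivAt_neg v).exp
    have h2 : x * (0 - Real.exp (-v) * (-1)) = x * Real.exp (-v) := by ring
    rw [h2] at h1
    exact h1.hasDerivWithinAt
  have hinj : InjOn (fun v : ℝ => x * (1 - Real.exp (-v))) (Ioc 0 v₀) := by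
    intro a _ b _ hab
    simp only at hab
    have h1 := mul_left_cancel₀ hx0.ne' hab
    have h2 : Real.exp (-a) = Real.exp (-b) := by linarith
    have h3 := Real.exp_injective h2
    linarith
  have hcv := integral_image_eq_integral_abs_deriv_smul measurableSet_Ioc hder hinj
    (fun u : ℝ => gk η (u / X) * (Mz x - Mz (x - u)) ^ 2)
  have himg : (fun v : ℝ => x * (1 - Real.exp (-v))) '' Ioc 0 v₀ ⊆ Ioc 0 (X * v₀) := by
    rintro _ ⟨v, hv1, rfl⟩
    have h3 : Real.exp (-v) < 1 := by rw [Real.exp_lt_one_iff]; linarith [hv1.1]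
    have h4 : -v + 1 ≤ Real.exp (-v) := Real.add_one_le_exp _
    constructor
    · simp only; nlinarith
    · simp only
      have h5 : 1 - Real.exp (-v) ≤ v₀ := by linarith [hv1.2]
      exact mul_le_mul hx2 h5 (by linarith) hX0.le
  have hmono : ∫ u in (fun v : ℝ => x * (1 - Real.exp (-v))) '' Ioc 0 v₀,
      gk η (u / X) * (Mz x - Mz (x - u)) ^ 2 ≤
      ∫ u in Ioc 0 (X * v₀), gk η (u / X) * (Mz x - Mz (x - u)) ^ 2 := by
    refine setIntegral_mono_set hint2 ?_ (LE.le.eventuallyLE himg)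
    exact Filter.Eventually.of_forall (fun u => mul_nonneg (hgk0 _) (sq_nonneg _))
  rw [hcv] at hmono
  have hint3 : IntegrableOn (fun v : ℝ => |x * Real.exp (-v)| •
      (fun u : ℝ => gk η (u / X) * (Mz x - Mz (x - u)) ^ 2) (x * (1 - Real.exp (-v))))
      (Ioc 0 v₀) := by
    refine (integrableOn_image_iff_integrableOn_abs_deriv_smul measurableSet_Ioc hder hinj
      (fun u : ℝ => gk η (u / X) * (Mz x - Mz (x - u)) ^ 2)).1 ?_
    exact hint2.mono_set himg
  have hpt : ∫ v in Ioc 0 v₀, gk η v * (Mz x - Mz (x * Real.exp (-v))) ^ 2 ≤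
      ∫ v in Ioc 0 v₀, (6 / X) * (|x * Real.exp (-v)| •
      (fun u : ℝ => gk η (u / X) * (Mz x - Mz (x - u)) ^ 2) (x * (1 - Real.exp (-v)))) := by
    refine setIntegral_mono_on hint1 (hint3.const_mul _) measurableSet_Ioc ?_
    intro v hv1
    have h3 : Real.exp (-v) < 1 := by rw [Real.exp_lt_one_iff]; linarith [hv1.1]
    have h4 : -v + 1 ≤ Real.exp (-v) := Real.add_one_le_exp _
    have h5 : x - x * (1 - Real.exp (-v)) = x * Real.exp (-v) := by ring
    simp only [smul_eq_mul]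
    rw [h5, abs_of_nonneg (by positivity)]
    have h6 : gk η v ≤ gk η (x * (1 - Real.exp (-v)) / X) := by
      refine gk_anti η hη _ _ ?_
      rw [abs_of_nonneg (by apply div_nonneg (mul_nonneg hx0.le (by linarith)) hX0.le),
        abs_of_nonneg hv1.1.le, div_le_iff₀ hX0]
      have : 1 - Real.exp (-v) ≤ v := by linarith
      have h7 : x * (1 - Real.exp (-v)) ≤ X * v := mul_le_mul hx2 this (by linarith) hX0.le
      linarith
    have h7 : 1 ≤ 6 / X * (x * Real.exp (-v)) := by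
      have h8 : 79 / 80 ≤ Real.exp (-v) := by linarith [hv1.2]
      have h9 : X / 6 ≤ x * Real.exp (-v) := by nlinarith
      rw [div_mul_eq_mul_div, le_div_iff₀ hX0]
      linarith
    have h10 : 6 / X * (x * Real.exp (-v) * (gk η (x * (1 - Real.exp (-v)) / X) *
        (Mz x - Mz (x * Real.exp (-v))) ^ 2)) = (6 / X * (x * Real.exp (-v))) *
        (gk η (x * (1 - Real.exp (-v)) / X) * (Mz x - Mz (x * Real.exp (-v))) ^ 2) := by ring
    rw [h10]
    have h11 : gk η v * (Mz x - Mz (x * Real.exp (-v))) ^ 2 ≤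
        gk η (x * (1 - Real.exp (-v)) / X) * (Mz x - Mz (x * Real.exp (-v))) ^ 2 :=
      mul_le_mul_of_nonneg_right h6 (sq_nonneg _)
    have h12 : 0 ≤ gk η (x * (1 - Real.exp (-v)) / X) * (Mz x - Mz (x * Real.exp (-v))) ^ 2 :=
      mul_nonneg (hgk0 _) (sq_nonneg _)
    nlinarith
  refine hpt.trans ?_
  rw [integral_const_mul]
  exact mul_le_mul_of_nonneg_left hmono (by positivity)

theorem wchg : ∃ A : ℝ, 0 < A ∧ ∀ B X h₀ η : ℝ, 0 ≤ B → 1 ≤ X → 0 < h₀ → h₀ ≤ X / 160 → LW B X h₀ →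
    0 < η → η ≤ 1 → ∫ v in (0 : ℝ)..(1 / 80), gk η v *
      (∫ x in (7 / 20 * X)..X, (Mz x - Mz (x * Real.exp (-v))) ^ 2) ≤
        A * B * (h₀ / X + η ^ 2 * X / h₀) * X ^ 2 := by
  obtain ⟨C₂, hC₂, hmom⟩ := gk_moment 2
  refine ⟨600 * (C₂ + 1), by positivity, ?_⟩
  intro B X h₀ η hB hX1 hh hh' hLW hη hη1
  have hX0 : 0 < X := by linarith
  have hgk0 : ∀ w, 0 ≤ gk η w := fun w => (gk_pos η hη w).le
  have hgkb : ∀ w, gk η w ≤ gk η 0 := fun w => gk_anti η hη 0 w (by simp)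
  obtain ⟨v₀, hv₀⟩ : ∃ v₀ : ℝ, v₀ = 1 / 80 := ⟨_, rfl⟩
  rw [← hv₀]
  have hv0 : 0 < v₀ := by rw [hv₀]; norm_num
  have hv1 : v₀ ≤ 1 / 80 := hv₀.le
  have hMb : ∀ y z : ℝ, |y| ≤ X → |z| ≤ X → (Mz y - Mz z) ^ 2 ≤ (2 * X) ^ 2 := by
    intro y z hy hz
    have h1 := Mz_abs_le' y
    have h2 := Mz_abs_le' z
    rw [← sq_abs]
    refine pow_le_pow_left₀ (abs_nonneg _) ?_ 2
    refine (abs_sub _ _).trans ?_
    linarith
  have h7X : 7 / 20 * X ≤ X := by linarith
  -- the two product functions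
  let f1 : ℝ → ℝ → ℝ := fun v x => gk η v * (Mz x - Mz (x * Real.exp (-v))) ^ 2
  let f2 : ℝ → ℝ → ℝ := fun u x => gk η (u / X) * (Mz x - Mz (x - u)) ^ 2
  have hm1 : Measurable (Function.uncurry f1) := by
    have e1 : Measurable (fun p : ℝ × ℝ => gk η p.1) :=
      (gk_continuous η).measurable.comp measurable_fst
    have e2 : Measurable (fun p : ℝ × ℝ => Mz p.2) := Mz_measurable.comp measurable_snd
    have e3 : Measurable (fun p : ℝ × ℝ => Mz (p.2 * Real.exp (-p.1))) :=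
      Mz_measurable.comp (measurable_snd.mul (Real.measurable_exp.comp measurable_fst.neg))
    exact e1.mul ((e2.sub e3).pow_const 2)
  have hm2 : Measurable (Function.uncurry f2) := by
    have e1 : Measurable (fun p : ℝ × ℝ => gk η (p.1 / X)) :=
      (gk_continuous η).measurable.comp (measurable_fst.div_const X)
    have e2 : Measurable (fun p : ℝ × ℝ => Mz p.2) := Mz_measurable.comp measurable_snd
    have e3 : Measurable (fun p : ℝ × ℝ => Mz (p.2 - p.1)) :=
      Mz_measurable.comp (measurable_snd.sub measurable_fst)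
    exact e1.mul ((e2.sub e3).pow_const 2)
  have hI1 := WChg_int2 f1 hm1 0 v₀ (7 / 20 * X) X (gk η 0 * (2 * X) ^ 2) (by
    intro v hv x hx
    simp only [f1]
    rw [abs_of_nonneg (mul_nonneg (hgk0 _) (sq_nonneg _))]
    have hx0 : 0 < x := by linarith [hx.1]
    have e1 : |x| ≤ X := by rw [abs_of_pos hx0]; exact hx.2
    have e2 : |x * Real.exp (-v)| ≤ X := by
      have h3 : Real.exp (-v) ≤ 1 := Real.exp_le_one_iff.2 (by linarith [hv.1])
      have h4 := Real.exp_pos (-v)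
      rw [abs_of_nonneg (by positivity)]
      nlinarith [hx.2]
    exact mul_le_mul (hgkb _) (hMb _ _ e1 e2) (sq_nonneg _) (hgk0 _))
  have hI2 := WChg_int2 f2 hm2 0 (X * v₀) (7 / 20 * X) X (gk η 0 * (2 * X) ^ 2) (by
    intro u hu x hx
    simp only [f2]
    rw [abs_of_nonneg (mul_nonneg (hgk0 _) (sq_nonneg _))]
    have hx0 : 0 < x := by linarith [hx.1]
    have e1 : |x| ≤ X := by rw [abs_of_pos hx0]; exact hx.2
    have e2 : |x - u| ≤ X := by
      have : X * v₀ ≤ X := mul_le_of_le_one_right hX0.le (by linarith)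
      rw [abs_le]; constructor
      · linarith [hu.1, hu.2]
      · linarith [hu.1, hx.2]
    exact mul_le_mul (hgkb _) (hMb _ _ e1 e2) (sq_nonneg _) (hgk0 _))
  have step1 : ∫ v in (0 : ℝ)..v₀, gk η v *
        (∫ x in (7 / 20 * X)..X, (Mz x - Mz (x * Real.exp (-v))) ^ 2)
      = ∫ v in Ioc 0 v₀, ∫ x in Ioc (7 / 20 * X) X, f1 v x := by
    rw [intervalIntegral.integral_of_le hv0.le]
    refine integral_congr_ae (Filter.Eventually.of_forall (fun v => ?_))
    simp only [f1]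
    rw [intervalIntegral.integral_of_le h7X, integral_const_mul]
  have step2 : ∫ v in Ioc 0 v₀, ∫ x in Ioc (7 / 20 * X) X, f1 v x
      = ∫ x in Ioc (7 / 20 * X) X, ∫ v in Ioc 0 v₀, f1 v x := integral_integral_swap hI1
  have step3 : ∫ x in Ioc (7 / 20 * X) X, ∫ v in Ioc 0 v₀, f1 v x ≤
      ∫ x in Ioc (7 / 20 * X) X, (6 / X) * ∫ u in Ioc 0 (X * v₀), f2 u x := by
    refine setIntegral_mono_on ?_ ?_ measurableSet_Ioc ?_
    · exact hI1.integral_prod_right
    · exact (hI2.integral_prod_right).const_mul _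
    · intro x hx
      exact WChg_one η X x v₀ hη hX1 hx.1.le hx.2 hv0 hv1
  have step4 : ∫ x in Ioc (7 / 20 * X) X, (6 / X) * ∫ u in Ioc 0 (X * v₀), f2 u x
      = (6 / X) * ∫ u in Ioc 0 (X * v₀), ∫ x in Ioc (7 / 20 * X) X, f2 u x := by
    rw [integral_const_mul, integral_integral_swap hI2]
  have step5 : ∫ u in Ioc 0 (X * v₀), ∫ x in Ioc (7 / 20 * X) X, f2 u x ≤
      ∫ u in Ioc 0 (X * v₀), gk η (u / X) * (100 * B * X * (h₀ + u ^ 2 / h₀)) := by
    refine setIntegral_mono_on ?_ ?_ measurableSet_Ioc ?_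
    · exact hI2.integral_prod_left
    · have hc : Continuous (fun u : ℝ => gk η (u / X) * (100 * B * X * (h₀ + u ^ 2 / h₀))) := by
        have := (gk_continuous η).comp (continuous_id.div_const X)
        exact this.mul (by fun_prop)
      exact (hc.integrableOn_Icc).mono_set Ioc_subset_Icc_self
    · intro u hu
      have e1 : ∫ x in Ioc (7 / 20 * X) X, f2 u x =
          gk η (u / X) * ∫ x in (7 / 20 * X)..X, (Mz x - Mz (x - u)) ^ 2 := by
        rw [intervalIntegral.integral_of_le h7X, ← integral_const_mul]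
      rw [e1]
      refine mul_le_mul_of_nonneg_left ?_ (hgk0 _)
      refine wener B X h₀ hB hX1 hh hh' hLW u hu.1.le ?_
      have := hu.2
      rw [hv₀] at this
      linarith
  have step6 : ∫ u in Ioc 0 (X * v₀), gk η (u / X) * (100 * B * X * (h₀ + u ^ 2 / h₀))
      = 100 * B * X ^ 2 * ∫ w in Ioc 0 v₀, gk η w * (h₀ + X ^ 2 / h₀ * w ^ 2) := by
    rw [← intervalIntegral.integral_of_le (by positivity),
      ← intervalIntegral.integral_of_le hv0.le]
    have e1 : ∀ u : ℝ, gk η (u / X) * (100 * B * X * (h₀ + u ^ 2 / h₀)) =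
        (100 * B * X) * (fun w : ℝ => gk η w * (h₀ + X ^ 2 / h₀ * w ^ 2)) (u / X) := by
      intro u
      simp only
      have : u ^ 2 = X ^ 2 * (u / X) ^ 2 := by field_simp
      rw [this]
      ring
    simp_rw [e1]
    rw [intervalIntegral.integral_const_mul]
    rw [intervalIntegral.integral_comp_div (fun w : ℝ => gk η w * (h₀ + X ^ 2 / h₀ * w ^ 2)) hX0.ne']
    have e2 : X * v₀ / X = v₀ := by field_simp
    rw [zero_div, e2, smul_eq_mul]
    ring
  have step7 : ∫ w in Ioc 0 v₀, gk η w * (h₀ + X ^ 2 / h₀ * w ^ 2) ≤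
      X ^ 2 / h₀ * (C₂ * η ^ 2) + h₀ := by
    obtain ⟨g1, g2⟩ := hmom η hη hη1
    have g3 := gk_integrable η hη
    have g4 := gk_integral η hη
    have hq0 : 0 ≤ X ^ 2 / h₀ := by positivity
    have e1 : ∫ w in Ioc 0 v₀, gk η w * (h₀ + X ^ 2 / h₀ * w ^ 2) ≤
        ∫ w in Ioc 0 v₀, (X ^ 2 / h₀ * (|w| ^ 2 * Real.exp (2 * |w|) * gk η w) +
          h₀ * gk η w) := by
      refine setIntegral_mono_on ?_ ?_ measurableSet_Ioc ?_
      · have hc : Continuous (fun w : ℝ => gk η w * (h₀ + X ^ 2 / h₀ * w ^ 2)) :=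
          (gk_continuous η).mul (by fun_prop)
        exact (hc.integrableOn_Icc).mono_set Ioc_subset_Icc_self
      · exact ((g1.const_mul _).add (g3.const_mul h₀)).integrableOn
      · intro w hw
        have e2 : w ^ 2 ≤ |w| ^ 2 * Real.exp (2 * |w|) := by
          have e3 : 1 ≤ Real.exp (2 * |w|) := Real.one_le_exp (by positivity)
          rw [sq_abs]
          exact le_mul_of_one_le_right (sq_nonneg w) e3
        have e6 := hgk0 w
        have e7 : X ^ 2 / h₀ * w ^ 2 * gk η w ≤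
            X ^ 2 / h₀ * (|w| ^ 2 * Real.exp (2 * |w|)) * gk η w :=
          mul_le_mul_of_nonneg_right (mul_le_mul_of_nonneg_left e2 hq0) e6
        calc gk η w * (h₀ + X ^ 2 / h₀ * w ^ 2) = X ^ 2 / h₀ * w ^ 2 * gk η w + h₀ * gk η w := by
              ring
          _ ≤ X ^ 2 / h₀ * (|w| ^ 2 * Real.exp (2 * |w|)) * gk η w + h₀ * gk η w :=
              by linarith
          _ = _ := by ring
    refine e1.trans ?_
    have e2 : ∫ w in Ioc 0 v₀, (X ^ 2 / h₀ * (|w| ^ 2 * Real.exp (2 * |w|) * gk η w) +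
          h₀ * gk η w) ≤
        ∫ w : ℝ, (X ^ 2 / h₀ * (|w| ^ 2 * Real.exp (2 * |w|) * gk η w) + h₀ * gk η w) := by
      refine setIntegral_le_integral ((g1.const_mul _).add (g3.const_mul h₀)) ?_
      refine Filter.Eventually.of_forall (fun w => ?_)
      have e6 := hgk0 w
      simp only [Pi.zero_apply]
      positivity
    refine e2.trans ?_
    rw [integral_add (g1.const_mul _) (g3.const_mul h₀), integral_const_mul, integral_const_mul, g4]
    have e3 := mul_le_mul_of_nonneg_left g2 hq0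
    linarith
  have hfin : ∫ v in (0 : ℝ)..v₀, gk η v *
        (∫ x in (7 / 20 * X)..X, (Mz x - Mz (x * Real.exp (-v))) ^ 2)
      ≤ (6 / X) * (100 * B * X ^ 2 * (X ^ 2 / h₀ * (C₂ * η ^ 2) + h₀)) := by
    rw [step1, step2]
    refine step3.trans ?_
    rw [step4]
    refine mul_le_mul_of_nonneg_left ?_ (by positivity)
    refine step5.trans ?_
    rw [step6]
    exact mul_le_mul_of_nonneg_left step7 (by positivity)
  refine hfin.trans ?_
  have e1 : (6 / X) * (100 * B * X ^ 2 * (X ^ 2 / h₀ * (C₂ * η ^ 2) + h₀)) =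
      600 * B * (h₀ / X) * X ^ 2 + 600 * C₂ * B * (η ^ 2 * X / h₀) * X ^ 2 := by
    field_simp
    ring
  rw [e1]
  have e2 : 0 ≤ C₂ * (B * (h₀ / X) * X ^ 2) := by positivity
  have e3 : 0 ≤ B * (η ^ 2 * X / h₀) * X ^ 2 := by positivity
  nlinarith

end Pool.Agent.H82.GY

end

section

/-!
GY module WErr: `∫_{(7/20)X}^{(17/20)X} (Mz - SM η)² ≤ A (B (h₀/X + η² X/h₀) + D η²) X²`.

Copy `GX/Err.lean` (583 lines) with `v₀ = 1/80` instead of `δ₀/8`, and `MSc D X` instead of `SBound C`: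
* `Err_E` becomes: for `0 ≤ a ≤ b ≤ X`: `∫_a^b Mz(x e^{-v})² dx = e^v ∫ Mz² ≤ e^v D (b e^{-v})² (1 + b e^{-v}/X)
  ≤ D X² (e^{-v} + e^{-2v})`. For `v = 0`: `∫_a^b Mz² ≤ 2 D X²`.
* `Err_G_le` becomes: `ErrG ≤ 2 ErrD + 2 (1 - e^{v/2})² D X² (e^{-v} + e^{-2v}) ≤ 2 ErrD + 2 D X² |v|² e^{2|v|}`: for `v ≤ 0`
  `(1 - e^{v/2})² ≤ v²/4` and `e^{-v} + e^{-2v} ≤ 2 e^{2|v|}`; for `v ≥ 0` `(1 - e^{v/2})² ≤ (v²/4) e^v` and `e^{-v} + e^{-2v} ≤ 2 e^{-v}`.
* `Err_D_big`: `ErrD ≤ 4 D X² + 2 D X² (e^{-v} + e^{-2v}) ≤ 8 D X² e^{2|v|}`.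
* local part `|v| ≤ 1/80`: `wchg` (twice, for `v > 0` and `v < 0`), as in `err`.
* part `|v| > 1/80`: `ErrD ≤ 8 D X² e^{2|v|} ≤ 8 · 80² D X² |v|² e^{2|v|}`, so both remaining parts are bounded by `gk_moment 2`:
  `≤ C D η² X²`.
-/

set_option autoImplicit false

namespace Pool.Agent.H82.GY

open MeasureTheory Set Complex Filter Topology
open Pool.Agent.H56.GX

/-- bounded measurable functions on bounded intervals -/
private theorem WErr_ii {f : ℝ → ℝ} (hf : Measurable f) {a b : ℝ} (M : ℝ) (hab : a ≤ b)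
    (h : ∀ x ∈ Icc a b, |f x| ≤ M) : IntervalIntegrable f volume a b := by
  rw [intervalIntegrable_iff_integrableOn_Ioc_of_le hab]
  refine Measure.integrableOn_of_bounded (M := M) ?_ hf.aestronglyMeasurable ?_
  · simp
  · filter_upwards [ae_restrict_mem measurableSet_Ioc] with x hx
    exact h x ⟨hx.1.le, hx.2⟩

private theorem WErr_exp (u : ℝ) : (1 - Real.exp u) ^ 2 ≤ u ^ 2 * Real.exp (2 * |u|) := by
  have h1 : |1 - Real.exp u| ≤ |u| * Real.exp |u| := by
    rcases le_total 0 u with h | h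
    · rw [abs_of_nonneg h, abs_sub_comm, abs_of_nonneg (by linarith [Real.add_one_le_exp u])]
      have h2 := Real.add_one_le_exp (-u)
      have h3 : Real.exp u * Real.exp (-u) = 1 := by rw [← Real.exp_add]; simp
      have h4 : 0 < Real.exp u := Real.exp_pos u
      nlinarith
    · have h2 := Real.add_one_le_exp u
      have h3 : Real.exp u ≤ 1 := Real.exp_le_one_iff.2 h
      rw [abs_of_nonneg (by linarith), abs_of_nonpos h]
      have h4 : 1 ≤ Real.exp (-u) := Real.one_le_exp (by linarith)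
      nlinarith
  have h2 : (1 - Real.exp u) ^ 2 ≤ (|u| * Real.exp |u|) ^ 2 := by
    rw [← sq_abs (1 - Real.exp u)]
    exact pow_le_pow_left₀ (abs_nonneg _) h1 2
  refine h2.trans (le_of_eq ?_)
  rw [mul_pow, sq_abs, ← Real.exp_nat_mul]
  norm_num

private theorem WErr_M2 (v : ℝ) : Measurable fun x : ℝ => Mz (x * Real.exp (-v)) :=
  Mz_measurable.comp (measurable_id.mul_const _)

private theorem WErr_bd {a b x v : ℝ} (ha : 0 ≤ a) (hx : x ∈ Icc a b) :
    |Mz (x * Real.exp (-v))| ≤ b * Real.exp (-v) := by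
  have h0 : 0 ≤ x := ha.trans hx.1
  have h1 := Mz_abs_le (x * Real.exp (-v)) (mul_nonneg h0 (Real.exp_pos _).le)
  exact h1.trans (mul_le_mul_of_nonneg_right hx.2 (Real.exp_pos _).le)

private theorem WErr_bd0 {a b x : ℝ} (ha : 0 ≤ a) (hx : x ∈ Icc a b) :
    |Mz x| ≤ b :=
  (Mz_abs_le x (ha.trans hx.1)).trans hx.2

private theorem WErr_E (D X : ℝ) (hD : 0 ≤ D) (hX : 0 < X) (hS : MSc D X) (a b v : ℝ) (ha : 0 ≤ a)
    (hab : a ≤ b) (hbX : b ≤ X) :
    ∫ x in a..b, (Mz (x * Real.exp (-v))) ^ 2 ≤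
      D * X ^ 2 * (Real.exp (-v) + Real.exp (-v) ^ 2) := by
  have he : 0 < Real.exp (-v) := Real.exp_pos _
  rw [intervalIntegral.integral_comp_mul_right (fun y => Mz y ^ 2) he.ne', smul_eq_mul]
  have hb0 : 0 ≤ b := ha.trans hab
  have hb : 0 ≤ b * Real.exp (-v) := mul_nonneg hb0 he.le
  have h1 : ∫ x in (a * Real.exp (-v))..(b * Real.exp (-v)), Mz x ^ 2 ≤
      ∫ x in (0 : ℝ)..(b * Real.exp (-v)), Mz x ^ 2 := by
    refine intervalIntegral.integral_mono_interval (mul_nonneg ha he.le)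
      (mul_le_mul_of_nonneg_right hab he.le) le_rfl ?_ (Mz_sq_intervalIntegrable _ _)
    exact Eventually.of_forall fun x => sq_nonneg _
  have h2 := hS _ hb
  have h3 : b * Real.exp (-v) / X ≤ Real.exp (-v) := by
    rw [div_le_iff₀ hX]
    nlinarith
  have hb2 : b ^ 2 ≤ X ^ 2 := pow_le_pow_left₀ hb0 hbX 2
  calc (Real.exp (-v))⁻¹ * ∫ x in (a * Real.exp (-v))..(b * Real.exp (-v)), Mz x ^ 2
      ≤ (Real.exp (-v))⁻¹ * (D * (b * Real.exp (-v)) ^ 2 * (1 + b * Real.exp (-v) / X)) :=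
        mul_le_mul_of_nonneg_left (h1.trans h2) (inv_nonneg.2 he.le)
    _ ≤ (Real.exp (-v))⁻¹ * (D * (b * Real.exp (-v)) ^ 2 * (1 + Real.exp (-v))) := by
        refine mul_le_mul_of_nonneg_left ?_ (inv_nonneg.2 he.le)
        exact mul_le_mul_of_nonneg_left (by linarith) (by positivity)
    _ = D * b ^ 2 * (Real.exp (-v) + Real.exp (-v) ^ 2) := by
        field_simp
    _ ≤ D * X ^ 2 * (Real.exp (-v) + Real.exp (-v) ^ 2) := by
        refine mul_le_mul_of_nonneg_right ?_ (by positivity)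
        exact mul_le_mul_of_nonneg_left hb2 hD

/-- the mean square of the increment -/
private noncomputable def WErrD (a b v : ℝ) : ℝ :=
  ∫ x in a..b, (Mz x - Mz (x * Real.exp (-v))) ^ 2

private theorem WErr_Dii {a b : ℝ} (v : ℝ) (ha : 0 ≤ a) (hab : a ≤ b) :
    IntervalIntegrable (fun x => (Mz x - Mz (x * Real.exp (-v))) ^ 2) volume a b := by
  refine WErr_ii ((Mz_measurable.sub (WErr_M2 v)).pow_const 2)
    ((b + b * Real.exp (-v)) ^ 2) hab ?_
  intro x hx
  rw [abs_pow]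
  refine pow_le_pow_left₀ (abs_nonneg _) ?_ 2
  exact (abs_sub _ _).trans (add_le_add (WErr_bd0 ha hx) (WErr_bd ha hx))

private theorem WErr_Eii {a b : ℝ} (v : ℝ) (ha : 0 ≤ a) (hab : a ≤ b) :
    IntervalIntegrable (fun x => (Mz (x * Real.exp (-v))) ^ 2) volume a b := by
  refine WErr_ii ((WErr_M2 v).pow_const 2) ((b * Real.exp (-v)) ^ 2) hab ?_
  intro x hx
  rw [abs_pow]
  exact pow_le_pow_left₀ (abs_nonneg _) (WErr_bd ha hx) 2

private theorem WErr_Gii {a b : ℝ} (v : ℝ) (ha : 0 ≤ a) (hab : a ≤ b) :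
    IntervalIntegrable (fun x => (Mz x - Mz (x * Real.exp (-v)) * Real.exp (v / 2)) ^ 2)
      volume a b := by
  refine WErr_ii ((Mz_measurable.sub ((WErr_M2 v).mul_const _)).pow_const 2)
    ((b + b * Real.exp (-v) * Real.exp (v / 2)) ^ 2) hab ?_
  intro x hx
  rw [abs_pow]
  refine pow_le_pow_left₀ (abs_nonneg _) ?_ 2
  refine (abs_sub _ _).trans (add_le_add (WErr_bd0 ha hx) ?_)
  rw [abs_mul, abs_of_pos (Real.exp_pos (v / 2))]
  exact mul_le_mul_of_nonneg_right (WErr_bd ha hx) (Real.exp_pos _).le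

private theorem WErr_D_nonneg {a b v : ℝ} (hab : a ≤ b) : 0 ≤ WErrD a b v :=
  intervalIntegral.integral_nonneg hab fun _ _ => sq_nonneg _

private theorem WErr_expabs (v : ℝ) : Real.exp (-v) + Real.exp (-v) ^ 2 ≤ 2 * Real.exp (2 * |v|) := by
  have h0 := neg_le_abs v
  have h1 := abs_nonneg v
  have h2 : Real.exp (-v) ≤ Real.exp (2 * |v|) := Real.exp_le_exp.2 (by linarith)
  have h3 : Real.exp (-v) ^ 2 ≤ Real.exp (2 * |v|) := by
    rw [← Real.exp_nat_mul]
    refine Real.exp_le_exp.2 ?_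
    push_cast
    linarith
  linarith

private theorem WErr_D_big (D X : ℝ) (hD : 0 ≤ D) (hX : 0 < X) (hS : MSc D X) (a b v : ℝ)
    (ha : 0 ≤ a) (hab : a ≤ b) (hbX : b ≤ X) :
    WErrD a b v ≤ 8 * D * X ^ 2 * Real.exp (2 * |v|) := by
  unfold WErrD
  have h1 : ∫ x in a..b, (Mz x - Mz (x * Real.exp (-v))) ^ 2 ≤
      ∫ x in a..b, (2 * (Mz x) ^ 2 + 2 * (Mz (x * Real.exp (-v))) ^ 2) := by
    refine intervalIntegral.integral_mono_on hab (WErr_Dii v ha hab)
      (((Mz_sq_intervalIntegrable a b).const_mul 2).add ((WErr_Eii v ha hab).const_mul 2)) ?_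
    intro x _
    nlinarith [sq_nonneg (Mz x + Mz (x * Real.exp (-v)))]
  rw [intervalIntegral.integral_add ((Mz_sq_intervalIntegrable a b).const_mul 2)
    ((WErr_Eii v ha hab).const_mul 2), intervalIntegral.integral_const_mul,
    intervalIntegral.integral_const_mul] at h1
  have h2 := WErr_E D X hD hX hS a b v ha hab hbX
  have h3 : ∫ x in a..b, Mz x ^ 2 ≤ 2 * (D * X ^ 2) := by
    have h4 := WErr_E D X hD hX hS a b 0 ha hab hbX
    have h5 : D * X ^ 2 * (Real.exp (-0) + Real.exp (-0) ^ 2) = 2 * (D * X ^ 2) := by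
      simp only [neg_zero, Real.exp_zero]
      ring
    rw [h5] at h4
    simpa using h4
  have h6 := WErr_expabs v
  have hDX : 0 ≤ D * X ^ 2 := by positivity
  have h7 : D * X ^ 2 * (Real.exp (-v) + Real.exp (-v) ^ 2) ≤
      D * X ^ 2 * (2 * Real.exp (2 * |v|)) := mul_le_mul_of_nonneg_left h6 hDX
  have h8 : D * X ^ 2 ≤ D * X ^ 2 * Real.exp (2 * |v|) :=
    le_mul_of_one_le_right hDX (Real.one_le_exp (by positivity))
  linarith

private theorem WErr_D_mono {a b c v : ℝ} (ha : 0 ≤ a) (hab : a ≤ b) (hbc : b ≤ c) :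
    WErrD a b v ≤ WErrD a c v := by
  unfold WErrD
  refine intervalIntegral.integral_mono_interval le_rfl hab hbc ?_ (WErr_Dii v ha (hab.trans hbc))
  exact Eventually.of_forall fun x => sq_nonneg _

private theorem WErr_D_neg {a b c w : ℝ} (ha : 0 ≤ a) (hab : a ≤ b) (hw : 0 ≤ w)
    (hbc : b * Real.exp w ≤ c) : WErrD a b (-w) ≤ WErrD a c w := by
  unfold WErrD
  have he : 0 < Real.exp w := Real.exp_pos _
  have he1 : 1 ≤ Real.exp w := Real.one_le_exp hw
  have h1 : ∫ x in a..b, (Mz x - Mz (x * Real.exp (-(-w)))) ^ 2 =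
      ∫ x in a..b, (fun y => (Mz y - Mz (y * Real.exp (-w))) ^ 2) (x * Real.exp w) := by
    refine intervalIntegral.integral_congr fun x _ => ?_
    show (Mz x - Mz (x * Real.exp (-(-w)))) ^ 2 =
      (Mz (x * Real.exp w) - Mz (x * Real.exp w * Real.exp (-w))) ^ 2
    have h2 : x * Real.exp w * Real.exp (-w) = x := by
      rw [mul_assoc, ← Real.exp_add]; simp
    rw [h2, neg_neg]
    ring
  rw [h1, intervalIntegral.integral_comp_mul_right
    (fun y => (Mz y - Mz (y * Real.exp (-w))) ^ 2) he.ne', smul_eq_mul]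
  have hac : a ≤ a * Real.exp w := le_mul_of_one_le_right ha he1
  have hab' : a * Real.exp w ≤ b * Real.exp w := mul_le_mul_of_nonneg_right hab he.le
  have h3 : ∫ x in (a * Real.exp w)..(b * Real.exp w), (Mz x - Mz (x * Real.exp (-w))) ^ 2 ≤
      ∫ x in a..c, (Mz x - Mz (x * Real.exp (-w))) ^ 2 := by
    refine intervalIntegral.integral_mono_interval hac hab' hbc ?_
      (WErr_Dii w ha (hac.trans (hab'.trans hbc)))
    exact Eventually.of_forall fun x => sq_nonneg _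
  have h4 : 0 ≤ ∫ x in (a * Real.exp w)..(b * Real.exp w),
      (Mz x - Mz (x * Real.exp (-w))) ^ 2 :=
    intervalIntegral.integral_nonneg hab' fun _ _ => sq_nonneg _
  have h5 : (Real.exp w)⁻¹ ≤ 1 := inv_le_one_of_one_le₀ he1
  calc (Real.exp w)⁻¹ * ∫ x in (a * Real.exp w)..(b * Real.exp w),
        (Mz x - Mz (x * Real.exp (-w))) ^ 2
      ≤ 1 * ∫ x in (a * Real.exp w)..(b * Real.exp w),
        (Mz x - Mz (x * Real.exp (-w))) ^ 2 := mul_le_mul_of_nonneg_right h5 h4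
    _ ≤ _ := by rw [one_mul]; exact h3

private theorem WErr_D_meas (a b : ℝ) (hab : a ≤ b) : StronglyMeasurable fun v => WErrD a b v := by
  have h1 : (fun v => WErrD a b v) =
      fun v => ∫ x in Ioc a b, (Mz x - Mz (x * Real.exp (-v))) ^ 2 := by
    funext v
    unfold WErrD
    rw [intervalIntegral.integral_of_le hab]
  rw [h1]
  refine StronglyMeasurable.integral_prod_left
    (f := fun (x v : ℝ) => (Mz x - Mz (x * Real.exp (-v))) ^ 2) ?_
  have h2 : Measurable (Function.uncurry fun (x v : ℝ) => (Mz x - Mz (x * Real.exp (-v))) ^ 2) := by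
    refine Measurable.pow_const (Measurable.sub (Mz_measurable.comp measurable_fst) ?_) 2
    exact Mz_measurable.comp (measurable_fst.mul (Real.measurable_exp.comp measurable_snd.neg))
  exact h2.stronglyMeasurable

/-- the mean square of the integrand of the error -/
private noncomputable def WErrG (a b v : ℝ) : ℝ :=
  ∫ x in a..b, (Mz x - Mz (x * Real.exp (-v)) * Real.exp (v / 2)) ^ 2

private theorem WErr_expsq (v : ℝ) : (1 - Real.exp (v / 2)) ^ 2 * (Real.exp (-v) + Real.exp (-v) ^ 2) ≤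
    |v| ^ 2 / 2 * Real.exp (2 * |v|) := by
  rcases le_total 0 v with hv | hv
  · -- `v ≥ 0`
    have h3 := WErr_exp (v / 2)
    have h4 : (v / 2) ^ 2 * Real.exp (2 * |v / 2|) = |v| ^ 2 / 4 * Real.exp |v| := by
      rw [abs_div, abs_two, sq_abs]
      have : 2 * (|v| / 2) = |v| := by ring
      rw [this]
      ring
    rw [h4] at h3
    have h5 : Real.exp (-v) ≤ 1 := Real.exp_le_one_iff.2 (by linarith)
    have h6 : 0 < Real.exp (-v) := Real.exp_pos _
    have h7 : Real.exp (-v) + Real.exp (-v) ^ 2 ≤ 2 := by nlinarith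
    have h8 : Real.exp |v| ≤ Real.exp (2 * |v|) :=
      Real.exp_le_exp.2 (by linarith [abs_nonneg v])
    calc (1 - Real.exp (v / 2)) ^ 2 * (Real.exp (-v) + Real.exp (-v) ^ 2)
        ≤ (|v| ^ 2 / 4 * Real.exp |v|) * 2 :=
          mul_le_mul h3 h7 (by positivity) (by positivity)
      _ ≤ (|v| ^ 2 / 4 * Real.exp (2 * |v|)) * 2 := by
          refine mul_le_mul_of_nonneg_right ?_ (by norm_num)
          exact mul_le_mul_of_nonneg_left h8 (by positivity)
      _ = _ := by ring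
  · -- `v ≤ 0`
    have h1 : (1 - Real.exp (v / 2)) ^ 2 ≤ |v| ^ 2 / 4 := by
      have h2 := Real.add_one_le_exp (v / 2)
      have h3 : Real.exp (v / 2) ≤ 1 := Real.exp_le_one_iff.2 (by linarith)
      have h4 : 1 - Real.exp (v / 2) ≤ |v| / 2 := by
        rw [abs_of_nonpos hv]
        linarith
      have h5 : 0 ≤ 1 - Real.exp (v / 2) := by linarith
      have h6 := pow_le_pow_left₀ h5 h4 2
      refine h6.trans (le_of_eq ?_)
      ring
    calc (1 - Real.exp (v / 2)) ^ 2 * (Real.exp (-v) + Real.exp (-v) ^ 2)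
        ≤ (|v| ^ 2 / 4) * (2 * Real.exp (2 * |v|)) :=
          mul_le_mul h1 (WErr_expabs v) (by positivity) (by positivity)
      _ = _ := by ring

private theorem WErr_G_le (D X : ℝ) (hD : 0 ≤ D) (hX : 0 < X) (hS : MSc D X) (a b v : ℝ)
    (ha : 0 ≤ a) (hab : a ≤ b) (hbX : b ≤ X) : WErrG a b v ≤ 2 * WErrD a b v +
      D * X ^ 2 * (|v| ^ 2 * Real.exp (2 * |v|)) := by
  have h1 : WErrG a b v ≤ ∫ x in a..b, (2 * (Mz x - Mz (x * Real.exp (-v))) ^ 2 +
      (2 * (1 - Real.exp (v / 2)) ^ 2) * (Mz (x * Real.exp (-v))) ^ 2) := by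
    unfold WErrG
    refine intervalIntegral.integral_mono_on hab (WErr_Gii v ha hab)
      (((WErr_Dii v ha hab).const_mul 2).add ((WErr_Eii v ha hab).const_mul _)) ?_
    intro x _
    nlinarith [sq_nonneg ((Mz x - Mz (x * Real.exp (-v))) -
      (1 - Real.exp (v / 2)) * Mz (x * Real.exp (-v)))]
  rw [intervalIntegral.integral_add ((WErr_Dii v ha hab).const_mul 2)
    ((WErr_Eii v ha hab).const_mul _), intervalIntegral.integral_const_mul,
    intervalIntegral.integral_const_mul] at h1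
  have h2 := WErr_E D X hD hX hS a b v ha hab hbX
  have h3 := WErr_expsq v
  have hDX : 0 ≤ D * X ^ 2 := by positivity
  have h7 : 2 * (1 - Real.exp (v / 2)) ^ 2 * ∫ x in a..b, (Mz (x * Real.exp (-v))) ^ 2 ≤
      2 * (1 - Real.exp (v / 2)) ^ 2 * (D * X ^ 2 * (Real.exp (-v) + Real.exp (-v) ^ 2)) :=
    mul_le_mul_of_nonneg_left h2 (by positivity)
  have h8 : 2 * (1 - Real.exp (v / 2)) ^ 2 * (D * X ^ 2 * (Real.exp (-v) + Real.exp (-v) ^ 2)) =
      2 * (D * X ^ 2) * ((1 - Real.exp (v / 2)) ^ 2 * (Real.exp (-v) + Real.exp (-v) ^ 2)) := by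
    ring
  have h9 : 2 * (D * X ^ 2) * ((1 - Real.exp (v / 2)) ^ 2 * (Real.exp (-v) + Real.exp (-v) ^ 2)) ≤
      2 * (D * X ^ 2) * (|v| ^ 2 / 2 * Real.exp (2 * |v|)) :=
    mul_le_mul_of_nonneg_left h3 (by positivity)
  have h10 : ∫ x in a..b, (Mz x - Mz (x * Real.exp (-v))) ^ 2 = WErrD a b v := rfl
  rw [h10] at h1
  rw [h8] at h7
  linarith

private theorem WErr_f_bd (x v : ℝ) :
    (Mz x - Mz (x * Real.exp (-v)) * Real.exp (v / 2)) ^ 2 ≤ 4 * x ^ 2 * Real.exp (2 * |v|) := by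
  have h1 : |Mz x| ≤ |x| * Real.exp |v| := by
    refine (Mz_abs_le' x).trans ?_
    exact le_mul_of_one_le_right (abs_nonneg x) (Real.one_le_exp (abs_nonneg v))
  have h2 : |Mz (x * Real.exp (-v)) * Real.exp (v / 2)| ≤ |x| * Real.exp |v| := by
    rw [abs_mul, abs_of_pos (Real.exp_pos (v / 2))]
    have h3 := Mz_abs_le' (x * Real.exp (-v))
    rw [abs_mul, abs_of_pos (Real.exp_pos (-v))] at h3
    calc |Mz (x * Real.exp (-v))| * Real.exp (v / 2)
        ≤ |x| * Real.exp (-v) * Real.exp (v / 2) :=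
          mul_le_mul_of_nonneg_right h3 (Real.exp_pos _).le
      _ = |x| * Real.exp (-v + v / 2) := by rw [mul_assoc, ← Real.exp_add]
      _ ≤ |x| * Real.exp |v| := by
          refine mul_le_mul_of_nonneg_left (Real.exp_le_exp.2 ?_) (abs_nonneg x)
          have := neg_le_abs v
          have := abs_nonneg v
          linarith
  have h3 : |Mz x - Mz (x * Real.exp (-v)) * Real.exp (v / 2)| ≤ 2 * (|x| * Real.exp |v|) :=
    (abs_sub _ _).trans (by linarith)
  have h4 := pow_le_pow_left₀ (abs_nonneg _) h3 2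
  rw [sq_abs] at h4
  refine h4.trans (le_of_eq ?_)
  have : Real.exp (2 * |v|) = Real.exp |v| * Real.exp |v| := by
    rw [← Real.exp_add]; ring_nf
  rw [this, ← sq_abs x]
  ring

private theorem WErr_mom0 (η : ℝ) (hη : 0 < η) (hη1 : η ≤ 1) :
    Integrable fun v : ℝ => Real.exp (2 * |v|) * gk η v := by
  obtain ⟨C, _, hC⟩ := gk_moment 0
  have h := (hC η hη hη1).1
  simpa using h

private theorem WErr_fv_meas (x : ℝ) :
    Measurable fun v : ℝ => Mz (x * Real.exp (-v)) * Real.exp (v / 2) :=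
  (Mz_measurable.comp (measurable_const.mul (Real.measurable_exp.comp measurable_neg))).mul
    (Real.measurable_exp.comp (measurable_id.div_const 2))

private theorem WErr_pt (η : ℝ) (hη : 0 < η) (hη1 : η ≤ 1) (x : ℝ) :
    (Mz x - SM η x) ^ 2 ≤
      ∫ v : ℝ, gk η v * (Mz x - Mz (x * Real.exp (-v)) * Real.exp (v / 2)) ^ 2 := by
  have hm0 := WErr_mom0 η hη hη1
  have hgm : Measurable (gk η) := (gk_continuous η).measurable
  set f : ℝ → ℝ := fun v => Mz x - Mz (x * Real.exp (-v)) * Real.exp (v / 2) with hf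
  have hfm : Measurable f := measurable_const.sub (WErr_fv_meas x)
  have int2 : Integrable fun v => gk η v * f v ^ 2 := by
    refine (hm0.const_mul (4 * x ^ 2)).mono' (hgm.mul (hfm.pow_const 2)).aestronglyMeasurable ?_
    refine Eventually.of_forall fun v => ?_
    rw [Real.norm_eq_abs, abs_mul, abs_of_pos (gk_pos η hη v), abs_of_nonneg (sq_nonneg _)]
    calc gk η v * f v ^ 2 ≤ gk η v * (4 * x ^ 2 * Real.exp (2 * |v|)) :=
          mul_le_mul_of_nonneg_left (WErr_f_bd x v) (gk_pos η hη v).le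
      _ = _ := by ring
  have int1 : Integrable fun v => gk η v * f v := by
    refine ((gk_integrable η hη).add int2).mono' (hgm.mul hfm).aestronglyMeasurable ?_
    refine Eventually.of_forall fun v => ?_
    rw [Real.norm_eq_abs, abs_mul, abs_of_pos (gk_pos η hη v)]
    have h1 : |f v| ≤ 1 + f v ^ 2 := by
      rw [← sq_abs (f v)]
      nlinarith [sq_nonneg (|f v| - 1), abs_nonneg (f v)]
    calc gk η v * |f v| ≤ gk η v * (1 + f v ^ 2) :=
          mul_le_mul_of_nonneg_left h1 (gk_pos η hη v).le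
      _ = _ := by simp only [Pi.add_apply]; ring
  have hS : Mz x - SM η x = ∫ v : ℝ, gk η v * f v := by
    have h1 : ∫ v : ℝ, Mz x * gk η v = Mz x := by
      rw [integral_const_mul, gk_integral η hη, mul_one]
    have h2 : Integrable fun v : ℝ => Mz x * gk η v := (gk_integrable η hη).const_mul _
    have h3 : Integrable fun v : ℝ =>
        Mz (x * Real.exp (-v)) * Real.exp (v / 2) * gk η v := by
      refine (h2.sub int1).congr (Eventually.of_forall fun v => ?_)
      simp only [Pi.sub_apply, hf]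
      ring
    calc Mz x - SM η x = (∫ v : ℝ, Mz x * gk η v) -
          ∫ v : ℝ, Mz (x * Real.exp (-v)) * Real.exp (v / 2) * gk η v := by rw [h1]; rfl
      _ = ∫ v : ℝ, (Mz x * gk η v - Mz (x * Real.exp (-v)) * Real.exp (v / 2) * gk η v) :=
          (integral_sub h2 h3).symm
      _ = _ := by
          refine integral_congr_ae (Eventually.of_forall fun v => ?_)
          simp only [hf]
          ring
  set m : ℝ := ∫ v : ℝ, gk η v * f v with hm
  have h0 : 0 ≤ ∫ v : ℝ, gk η v * (f v - m) ^ 2 :=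
    integral_nonneg fun v => mul_nonneg (gk_pos η hη v).le (sq_nonneg _)
  have h1 : ∫ v : ℝ, gk η v * (f v - m) ^ 2 =
      (∫ v : ℝ, gk η v * f v ^ 2) - 2 * m * m + m ^ 2 := by
    calc ∫ v : ℝ, gk η v * (f v - m) ^ 2
        = ∫ v : ℝ, ((gk η v * f v ^ 2 - 2 * m * (gk η v * f v)) + m ^ 2 * gk η v) := by
          refine integral_congr_ae (Eventually.of_forall fun v => ?_)
          simp only []
          ring
      _ = (∫ v : ℝ, (gk η v * f v ^ 2 - 2 * m * (gk η v * f v))) + ∫ v : ℝ, m ^ 2 * gk η v :=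
          integral_add (int2.sub (int1.const_mul _)) ((gk_integrable η hη).const_mul _)
      _ = _ := by
          rw [integral_sub int2 (int1.const_mul _), integral_const_mul, integral_const_mul,
            gk_integral η hη, mul_one]
  rw [hS]
  rw [h1] at h0
  nlinarith

private theorem WErr_prod (η : ℝ) (hη : 0 < η) (hη1 : η ≤ 1) (a b : ℝ) :
    Integrable (Function.uncurry fun (x v : ℝ) =>
      gk η v * (Mz x - Mz (x * Real.exp (-v)) * Real.exp (v / 2)) ^ 2)
      ((volume.restrict (Ioc a b)).prod volume) := by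
  have h1 : Integrable (fun x : ℝ => 4 * x ^ 2) (volume.restrict (Ioc a b)) := by
    have h2 : Continuous fun x : ℝ => 4 * x ^ 2 := by fun_prop
    exact (h2.integrableOn_Icc (a := a) (b := b)).mono_set Ioc_subset_Icc_self
  have h3 := h1.mul_prod (WErr_mom0 η hη hη1)
  refine h3.mono' ?_ ?_
  · refine Measurable.aestronglyMeasurable ?_
    refine Measurable.mul ((gk_continuous η).measurable.comp measurable_snd) ?_
    refine Measurable.pow_const (Measurable.sub (Mz_measurable.comp measurable_fst) ?_) 2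
    refine Measurable.mul ?_ (Real.measurable_exp.comp (measurable_snd.div_const 2))
    exact Mz_measurable.comp (measurable_fst.mul (Real.measurable_exp.comp measurable_snd.neg))
  · refine Eventually.of_forall fun z => ?_
    rcases z with ⟨x, v⟩
    show ‖gk η v * (Mz x - Mz (x * Real.exp (-v)) * Real.exp (v / 2)) ^ 2‖ ≤
      4 * x ^ 2 * (Real.exp (2 * |v|) * gk η v)
    rw [Real.norm_eq_abs, abs_mul, abs_of_pos (gk_pos η hη v), abs_of_nonneg (sq_nonneg _)]
    calc gk η v * (Mz x - Mz (x * Real.exp (-v)) * Real.exp (v / 2)) ^ 2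
        ≤ gk η v * (4 * x ^ 2 * Real.exp (2 * |v|)) :=
          mul_le_mul_of_nonneg_left (WErr_f_bd x v) (gk_pos η hη v).le
      _ = _ := by ring

private theorem WErr_swap (η : ℝ) (hη : 0 < η) (hη1 : η ≤ 1) (a b : ℝ) (ha : 0 < a)
    (hab : a ≤ b) : ∫ x in a..b, (Mz x - SM η x) ^ 2 ≤ ∫ v : ℝ, gk η v * WErrG a b v := by
  have hp := WErr_prod η hη hη1 a b
  have h1 : IntervalIntegrable (fun x => (Mz x - SM η x) ^ 2) volume a b := by
    have h := err_intervalIntegrable η hη a b 0 (by linarith) (by linarith)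
    simpa using h
  have h2 : IntervalIntegrable (fun x => ∫ v : ℝ,
      gk η v * (Mz x - Mz (x * Real.exp (-v)) * Real.exp (v / 2)) ^ 2) volume a b := by
    rw [intervalIntegrable_iff_integrableOn_Ioc_of_le hab]
    exact hp.integral_prod_left
  have h3 := intervalIntegral.integral_mono_on hab h1 h2 fun x _ => WErr_pt η hη hη1 x
  refine h3.trans (le_of_eq ?_)
  rw [intervalIntegral.integral_of_le hab]
  rw [integral_integral_swap hp]
  refine integral_congr_ae (Eventually.of_forall fun v => ?_)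
  simp only []
  rw [integral_const_mul]
  unfold WErrG
  rw [intervalIntegral.integral_of_le hab]

private theorem WErr_G_int (η : ℝ) (hη : 0 < η) (hη1 : η ≤ 1) (a b : ℝ) (hab : a ≤ b) :
    Integrable fun v : ℝ => gk η v * WErrG a b v := by
  have h := (WErr_prod η hη hη1 a b).integral_prod_right
  refine h.congr (Eventually.of_forall fun v => ?_)
  simp only [Function.uncurry]
  rw [integral_const_mul]
  unfold WErrG
  rw [intervalIntegral.integral_of_le hab]

theorem werr : ∃ A : ℝ, 0 < A ∧ ∀ B X h₀ η D : ℝ, 0 ≤ B → 1 ≤ X → 0 < h₀ → h₀ ≤ X / 160 → LW B X h₀ →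
    0 ≤ D → MSc D X → 0 < η → η ≤ 1 →
    ∫ x in (7 / 20 * X)..(17 / 20 * X), (Mz x - SM η x) ^ 2 ≤
      A * (B * (h₀ / X + η ^ 2 * X / h₀) + D * η ^ 2) * X ^ 2 := by
  obtain ⟨A0, hA0, hchg⟩ := wchg
  obtain ⟨C2, hC2, hm2⟩ := gk_moment 2
  refine ⟨4 * A0 + 102401 * C2, by positivity, ?_⟩
  intro B X h₀ η D hB hX1 hh₀ hh₀X hLW hD hS hη hη1
  have hX0 : 0 < X := by linarith
  have hchgX := hchg B X h₀ η hB hX1 hh₀ hh₀X hLW hη hη1
  have hv0 : (0 : ℝ) < 1 / 80 := by norm_num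
  set a : ℝ := 7 / 20 * X with ha
  set b : ℝ := 17 / 20 * X with hb
  have ha0 : 0 < a := by positivity
  have hab : a ≤ b := by rw [ha, hb]; linarith
  have hbX : b ≤ X := by rw [hb]; linarith
  have haX : a ≤ X := hab.trans hbX
  refine (WErr_swap η hη hη1 a b ha0 hab).trans ?_
  -- the local part
  let g : ℝ → ℝ := fun u => gk η u * WErrD a X u
  let H : ℝ → ℝ := (Iic (1 / 80 : ℝ)).indicator g
  have hgmeas : StronglyMeasurable g :=
    (gk_continuous η).stronglyMeasurable.mul (WErr_D_meas a X haX)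
  have hHmeas : StronglyMeasurable H := hgmeas.indicator measurableSet_Iic
  have hHabs : StronglyMeasurable fun v : ℝ => H |v| :=
    hHmeas.comp_measurable continuous_abs.measurable
  have hHint : Integrable fun v : ℝ => H |v| := by
    refine ((WErr_mom0 η hη hη1).const_mul (8 * D * X ^ 2)).mono' hHabs.aestronglyMeasurable ?_
    refine Eventually.of_forall fun v => ?_
    have hg0 : 0 < gk η v := gk_pos η hη v
    by_cases hv : |v| ≤ 1 / 80
    · have h1 : H |v| = gk η |v| * WErrD a X |v| := indicator_of_mem (mem_Iic.2 hv) g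
      have h2 : gk η |v| = gk η v := by
        rcases abs_choice v with h | h
        · rw [h]
        · rw [h, gk_neg]
      rw [h1, h2, Real.norm_eq_abs, abs_mul, abs_of_pos hg0,
        abs_of_nonneg (WErr_D_nonneg haX)]
      have h3 := WErr_D_big D X hD hX0 hS a X |v| ha0.le haX le_rfl
      rw [abs_abs] at h3
      calc gk η v * WErrD a X |v| ≤ gk η v * (8 * D * X ^ 2 * Real.exp (2 * |v|)) :=
            mul_le_mul_of_nonneg_left h3 hg0.le
        _ = _ := by ring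
    · have h1 : H |v| = 0 := indicator_of_notMem (fun h => hv (mem_Iic.1 h)) g
      rw [h1, norm_zero]
      positivity
  have hHval : ∫ v : ℝ, H |v| ≤ 2 * (A0 * B * (h₀ / X + η ^ 2 * X / h₀) * X ^ 2) := by
    rw [integral_comp_abs (f := H)]
    have h1 : ∫ x in Ioi (0 : ℝ), H x = ∫ v in (0 : ℝ)..(1 / 80), g v := by
      rw [intervalIntegral.integral_of_le hv0.le]
      show ∫ x in Ioi (0 : ℝ), (Iic (1 / 80 : ℝ)).indicator g x = _
      rw [setIntegral_indicator measurableSet_Iic, Ioi_inter_Iic]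
    rw [h1]
    exact mul_le_mul_of_nonneg_left hchgX (by norm_num)
  -- pointwise bound
  have hpt : ∀ v : ℝ, gk η v * WErrG a b v ≤ 2 * H |v| +
      (102401 * (D * X ^ 2)) * (|v| ^ 2 * Real.exp (2 * |v|) * gk η v) := by
    intro v
    have hg0 : 0 < gk η v := gk_pos η hη v
    have h1 := WErr_G_le D X hD hX0 hS a b v ha0.le hab hbX
    have hE : 0 ≤ Real.exp (2 * |v|) := (Real.exp_pos _).le
    have hH0 : 0 ≤ H |v| := by
      refine indicator_nonneg (fun u _ => ?_) _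
      exact mul_nonneg (gk_pos η hη u).le (WErr_D_nonneg haX)
    have h3 : gk η v * WErrD a b v ≤ H |v| +
        (51200 * (D * X ^ 2)) * (|v| ^ 2 * Real.exp (2 * |v|) * gk η v) := by
      by_cases hv : |v| ≤ 1 / 80
      · have h4 : H |v| = gk η |v| * WErrD a X |v| := indicator_of_mem (mem_Iic.2 hv) g
        have h5 : gk η |v| = gk η v := by
          rcases abs_choice v with h | h
          · rw [h]
          · rw [h, gk_neg]
        have h6 : WErrD a b v ≤ WErrD a X |v| := by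
          rcases le_total 0 v with h0 | h0
          · rw [abs_of_nonneg h0]
            exact WErr_D_mono ha0.le hab hbX
          · have h7 : v = -|v| := by rw [abs_of_nonpos h0, neg_neg]
            have h8 : WErrD a b (-|v|) ≤ WErrD a X |v| := by
              refine WErr_D_neg ha0.le hab (abs_nonneg v) ?_
              have h10 := Real.add_one_le_exp (-|v|)
              have h11 : Real.exp |v| * Real.exp (-|v|) = 1 := by
                rw [← Real.exp_add]; simp
              have h12 : 0 < Real.exp |v| := Real.exp_pos _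
              have h13 : Real.exp |v| ≤ 80 / 79 := by nlinarith
              rw [hb]
              nlinarith
            rw [← h7] at h8
            exact h8
        rw [h4, h5]
        have h7 := mul_le_mul_of_nonneg_left h6 hg0.le
        have h8 : 0 ≤ (51200 * (D * X ^ 2)) * (|v| ^ 2 * Real.exp (2 * |v|) * gk η v) := by
          positivity
        linarith
      · push Not at hv
        have h4 := WErr_D_big D X hD hX0 hS a b v ha0.le hab hbX
        have h10 : 1 ≤ 6400 * |v| ^ 2 := by nlinarith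
        have h11 : 8 * D * X ^ 2 * Real.exp (2 * |v|) ≤
            8 * D * X ^ 2 * Real.exp (2 * |v|) * (6400 * |v| ^ 2) :=
          le_mul_of_one_le_right (by positivity) h10
        calc gk η v * WErrD a b v
            ≤ gk η v * (8 * D * X ^ 2 * Real.exp (2 * |v|) * (6400 * |v| ^ 2)) :=
              mul_le_mul_of_nonneg_left (h4.trans h11) hg0.le
          _ = (51200 * (D * X ^ 2)) * (|v| ^ 2 * Real.exp (2 * |v|) * gk η v) := by ring
          _ ≤ _ := by linarith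
    calc gk η v * WErrG a b v
        ≤ gk η v * (2 * WErrD a b v + D * X ^ 2 * (|v| ^ 2 * Real.exp (2 * |v|))) :=
          mul_le_mul_of_nonneg_left h1 hg0.le
      _ = 2 * (gk η v * WErrD a b v) +
          (D * X ^ 2) * (|v| ^ 2 * Real.exp (2 * |v|) * gk η v) := by ring
      _ ≤ 2 * (H |v| +
          (51200 * (D * X ^ 2)) * (|v| ^ 2 * Real.exp (2 * |v|) * gk η v)) +
          (D * X ^ 2) * (|v| ^ 2 * Real.exp (2 * |v|) * gk η v) := by linarith
      _ = _ := by ring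
  have hi2 := (hm2 η hη hη1).1
  have hA := hHint.const_mul 2
  have hB2 := hi2.const_mul (102401 * (D * X ^ 2))
  have hfin : ∫ v : ℝ, gk η v * WErrG a b v ≤ ∫ v : ℝ, (2 * H |v| +
      (102401 * (D * X ^ 2)) * (|v| ^ 2 * Real.exp (2 * |v|) * gk η v)) :=
    integral_mono (WErr_G_int η hη hη1 a b hab) (hA.add hB2) hpt
  refine hfin.trans ?_
  have e1 : ∫ v : ℝ, (2 * H |v| +
      (102401 * (D * X ^ 2)) * (|v| ^ 2 * Real.exp (2 * |v|) * gk η v)) =
      2 * (∫ v : ℝ, H |v|) + 102401 * (D * X ^ 2) *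
      ∫ v : ℝ, |v| ^ 2 * Real.exp (2 * |v|) * gk η v := by
    rw [integral_add hA hB2, integral_const_mul, integral_const_mul]
  refine (le_of_eq e1).trans ?_
  have h2 := (hm2 η hη hη1).2
  have h4 : 102401 * (D * X ^ 2) * (∫ v : ℝ, |v| ^ 2 * Real.exp (2 * |v|) * gk η v) ≤
      102401 * (D * X ^ 2) * (C2 * η ^ 2) := mul_le_mul_of_nonneg_left h2 (by positivity)
  have hq : 0 ≤ B * (h₀ / X + η ^ 2 * X / h₀) := by positivity
  have h5 : 2 * (2 * (A0 * B * (h₀ / X + η ^ 2 * X / h₀) * X ^ 2)) ≤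
      (4 * A0 + 102401 * C2) * (B * (h₀ / X + η ^ 2 * X / h₀)) * X ^ 2 := by
    have h6 : 0 ≤ 102401 * C2 * (B * (h₀ / X + η ^ 2 * X / h₀)) * X ^ 2 := by positivity
    nlinarith
  have h7 : 102401 * (D * X ^ 2) * (C2 * η ^ 2) ≤
      (4 * A0 + 102401 * C2) * (D * η ^ 2) * X ^ 2 := by
    have h8 : 0 ≤ 4 * A0 * (D * η ^ 2) * X ^ 2 := by positivity
    nlinarith
  have h9 : (4 * A0 + 102401 * C2) * (B * (h₀ / X + η ^ 2 * X / h₀) + D * η ^ 2) * X ^ 2 =
      (4 * A0 + 102401 * C2) * (B * (h₀ / X + η ^ 2 * X / h₀)) * X ^ 2 +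
      (4 * A0 + 102401 * C2) * (D * η ^ 2) * X ^ 2 := by ring
  rw [h9]
  linarith

end Pool.Agent.H82.GY

end
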