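import Pool.Agent.H47.B1.M01
import Pool.Agent.H47.B1.M03

/-! The parts of this file: H82.GY.ZCount, H82.GY.WSum, H82.GY.RecurQ, H82.GY.WLow, H56.GX.FEq, H82.GY.WF, H82.GY.WRes, H82.GY.WContour, H56.GX.FL2, H82.GY.WL2, H82.GY.WGood, H82.GY.WExplicit, H82.GY.FinalY. -/

section

/-!
GY module ZCount: the number of zeros of `ζ` on the critical line up to height `U` is `O(U log U)`.

(1) `zeros_disc`. Let `f` be holomorphic on (a neighbourhood of) the closed ball `B(c, R)`, `‖f‖ ≤ M` there, and let `S` be a finite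
set of zeros of `f` in `B(c, ρ)`, `ρ < R`. Then `‖f c‖ ≤ M (ρ/(R-ρ))^|S|`. Induction on `S`: for `w ∈ S` let
`f₁ = dslope f w`: holomorphic on the same set, `f z = (z - w) f₁ z`, `‖f₁‖ ≤ M/(R-ρ)` on the sphere and hence on the ball
(`Complex.norm_le_of_forall_mem_frontier_norm_le`), `f₁` vanishes on `S \ {w}`, and `‖f c‖ = ‖c - w‖ ‖f₁ c‖ ≤ ρ ‖f₁ c‖`.
(2) `zcount_local`. For `|t| ≥ 4` take `c = 6/5 + it`, `R = 8/5`, `ρ = 3/4`: for `γ ∈ Zr`, `|γ - t| ≤ 1/10`: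
`|c - (1/2 + iγ)|² ≤ 49/100 + 1/100 ≤ (3/4)²`; `ρ/(R-ρ) = (3/4)/(17/20) = 15/17 < 1`. On `B(c, R)`: `Re ≥ -2/5 ≥ -1/2`, `|Im| ≥ 2`,
so `Pool.Agent.H95.GC.zeta_growth : ‖ζ(s)‖ ≤ 2 (1 + ‖s‖)^2` gives `M ≤ 2 (5 + |t|)²`, and
`‖ζ(6/5 + it)‖ ≥ c₀ > 0` with `c₀` independent of `t`: `‖ζ(s)⁻¹‖ = ‖∑ μ(n) n^{-s}‖ ≤ ∑ n^{-6/5} < ∞` (see `ZLeft_zeta` in
`GX/ZLeft.lean`, the same with `3/2` instead of `6/5`). So `(17/15)^|S| ≤ M / c₀` and `|S| ≤ A log (2 + |t|)`.
For `|t| ≤ 4` the set `{γ ∈ Zr : |γ| ≤ 5}` is finite (`IsCompact.inter_riemannZetaZeros_finite`).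
(3) `zcount`: cover `[-U, U]` by at most `10 U + 2` intervals `[t - 1/10, t + 1/10]`, `t = j/5`.
-/

set_option autoImplicit false

namespace Pool.Agent.H82.GY

open MeasureTheory Set Complex Filter Topology
open Pool.Agent.H56.GX

theorem zeros_disc (f : ℂ → ℂ) (c : ℂ) (R ρ M : ℝ) (hρ : 0 ≤ ρ) (hR : ρ < R) (U : Set ℂ) (hU : IsOpen U)
    (hUc : Metric.closedBall c R ⊆ U) (hf : DifferentiableOn ℂ f U)
    (hM : ∀ z ∈ Metric.closedBall c R, ‖f z‖ ≤ M) (S : Finset ℂ)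
    (hS : ∀ w ∈ S, dist w c ≤ ρ ∧ f w = 0) : ‖f c‖ ≤ M * (ρ / (R - ρ)) ^ S.card := by
  classical
  have hR0 : 0 < R := lt_of_le_of_lt hρ hR
  have hRρ : 0 < R - ρ := by linarith
  induction S using Finset.induction_on generalizing f M with
  | empty =>
    simpa using hM c (Metric.mem_closedBall_self hR0.le)
  | insert w S hw ih =>
    have hwS := hS w (Finset.mem_insert_self w S)
    have hwc : w ∈ Metric.closedBall c R := by
      rw [Metric.mem_closedBall]; linarith [hwS.1]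
    have hnhd : U ∈ 𝓝 w := hU.mem_nhds (hUc hwc)
    have hf1 : DifferentiableOn ℂ (dslope f w) U := (Complex.differentiableOn_dslope hnhd).mpr hf
    have hM1 : ∀ z ∈ Metric.closedBall c R, ‖dslope f w z‖ ≤ M / (R - ρ) := by
      intro z hz
      have hd : DiffContOnCl ℂ (dslope f w) (Metric.ball c R) := hf1.diffContOnCl_ball hUc
      refine Complex.norm_le_of_forall_mem_frontier_norm_le (U := Metric.ball c R)
        Metric.isBounded_ball hd ?_ ?_
      · intro y hy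
        rw [frontier_ball c hR0.ne', Metric.mem_sphere] at hy
        have hyw : y ≠ w := by
          rintro rfl
          linarith [hwS.1]
        have hyw' : R - ρ ≤ ‖y - w‖ := by
          have h1 : dist y c ≤ dist y w + dist w c := dist_triangle _ _ _
          rw [← dist_eq_norm]
          linarith [hwS.1]
        rw [dslope_of_ne _ hyw, slope_def_field, hwS.2, sub_zero, norm_div]
        have h2 := hM y (by rw [Metric.mem_closedBall, hy])
        have h3 : 0 ≤ M := (norm_nonneg _).trans h2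
        gcongr
      · rw [closure_ball c hR0.ne']
        exact hz
    have hS1 : ∀ v ∈ S, dist v c ≤ ρ ∧ dslope f w v = 0 := by
      intro v hv
      have hv1 := hS v (Finset.mem_insert_of_mem hv)
      refine ⟨hv1.1, ?_⟩
      have hvw : v ≠ w := by
        rintro rfl
        exact hw hv
      rw [dslope_of_ne _ hvw, slope_def_field, hwS.2, hv1.2]
      simp
    have h := ih (dslope f w) (M / (R - ρ)) hf1 hM1 hS1
    have e : f c = (c - w) * dslope f w c := by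
      have h1 := sub_smul_dslope f w c
      rw [hwS.2, sub_zero, smul_eq_mul] at h1
      exact h1.symm
    rw [e, norm_mul, Finset.card_insert_of_notMem hw, pow_succ]
    have hcw : ‖c - w‖ ≤ ρ := by
      rw [← dist_eq_norm, dist_comm]; exact hwS.1
    calc ‖c - w‖ * ‖dslope f w c‖ ≤ ρ * (M / (R - ρ) * (ρ / (R - ρ)) ^ S.card) :=
          mul_le_mul hcw h (norm_nonneg _) hρ
      _ = M * ((ρ / (R - ρ)) ^ S.card * (ρ / (R - ρ))) := by ring

/-- A uniform lower bound for `ζ` on the line `Re s = 6/5`. -/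
private lemma ZCount_zeta : ∃ c : ℝ, 0 < c ∧ ∀ t : ℝ, c ≤ ‖riemannZeta (6 / 5 + t * I)‖ := by
  have hre : ∀ t : ℝ, ((6 / 5 : ℂ) + t * I).re = 6 / 5 := by
    intro t; simp
  have hsum : Summable (fun n : ℕ => ‖LSeries.term (1 : ℕ → ℂ) ((6 / 5 : ℝ) : ℂ) n‖) := by
    have h := (LSeriesSummable_one_iff (s := ((6 / 5 : ℝ) : ℂ))).mpr (by
      rw [Complex.ofReal_re]; norm_num)
    exact h.norm
  set B : ℝ := ∑' n : ℕ, ‖LSeries.term (1 : ℕ → ℂ) ((6 / 5 : ℝ) : ℂ) n‖ with hB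
  have hterm : ∀ (t : ℝ) (n : ℕ),
      ‖LSeries.term (fun n : ℕ => ((ArithmeticFunction.moebius n : ℤ) : ℂ)) (6 / 5 + t * I) n‖
        ≤ ‖LSeries.term (1 : ℕ → ℂ) ((6 / 5 : ℝ) : ℂ) n‖ := by
    intro t n
    refine (LSeries.norm_term_le (g := (1 : ℕ → ℂ)) _ ?_).trans ?_
    · have h1 : |ArithmeticFunction.moebius n| ≤ 1 := ArithmeticFunction.abs_moebius_le_one
      have h2 : ‖((ArithmeticFunction.moebius n : ℤ) : ℂ)‖ ≤ 1 := by
        rw [Complex.norm_intCast]; exact_mod_cast h1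
      simpa using h2
    · refine LSeries.norm_term_le_of_re_le_re _ ?_ n
      rw [hre, Complex.ofReal_re]
  have hB1 : ∀ t : ℝ,
      ‖LSeries (fun n : ℕ => ((ArithmeticFunction.moebius n : ℤ) : ℂ)) (6 / 5 + t * I)‖ ≤ B := by
    intro t
    rw [LSeries]
    exact (norm_tsum_le_tsum_norm
      (Summable.of_nonneg_of_le (fun n => norm_nonneg _) (hterm t) hsum)).trans
      ((Summable.of_nonneg_of_le (fun n => norm_nonneg _) (hterm t) hsum).tsum_le_tsum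
        (hterm t) hsum)
  have hprod : ∀ t : ℝ, riemannZeta (6 / 5 + t * I)
      * LSeries (fun n : ℕ => ((ArithmeticFunction.moebius n : ℤ) : ℂ)) (6 / 5 + t * I) = 1 := by
    intro t
    have h1 : 1 < ((6 / 5 : ℂ) + t * I).re := by rw [hre]; norm_num
    rw [← ArithmeticFunction.LSeries_zeta_eq_riemannZeta h1]
    exact ArithmeticFunction.LSeries_zeta_mul_Lseries_moebius h1
  have hBpos : 0 < B := by
    have h := hprod 0
    rcases lt_or_ge 0 B with h1 | h1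
    · exact h1
    · exfalso
      have h2 := (hB1 0).trans h1
      have h3 := norm_le_zero_iff.mp h2
      rw [h3, mul_zero] at h
      exact zero_ne_one h
  refine ⟨1 / B, by positivity, fun t => ?_⟩
  have h := congrArg norm (hprod t)
  rw [norm_mul, norm_one] at h
  rw [div_le_iff₀ hBpos]
  calc (1 : ℝ) = _ := h.symm
    _ ≤ ‖riemannZeta (6 / 5 + t * I)‖ * B :=
      mul_le_mul_of_nonneg_left (hB1 t) (norm_nonneg _)

private lemma ZCount_inj : Function.Injective (fun γ : ℝ => (1 / 2 + (γ : ℂ) * I : ℂ)) := by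
  intro a b h
  have h1 := congrArg Complex.im h
  simpa using h1

private lemma ZCount_fin : ({γ : ℝ | γ ∈ Zr ∧ |γ| ≤ 5}).Finite := by
  have h := IsCompact.inter_riemannZetaZeros_finite (isCompact_closedBall (0 : ℂ) 6)
  refine Set.Finite.subset (h.preimage (ZCount_inj.injOn)) ?_
  rintro γ ⟨h1, h2⟩
  rw [mem_preimage]
  refine ⟨?_, h1⟩
  rw [Metric.mem_closedBall, dist_zero_right]
  refine (norm_add_le _ _).trans ?_
  rw [norm_mul, Complex.norm_I, mul_one, Complex.norm_real, Real.norm_eq_abs]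
  have : ‖(1 / 2 : ℂ)‖ = 1 / 2 := by
    rw [norm_div, norm_one, Complex.norm_ofNat]
  linarith

private lemma ZCount_large : ∃ A : ℝ, 0 < A ∧ ∀ (t : ℝ) (S : Finset ℝ), 4 ≤ |t| →
    (∀ γ ∈ S, γ ∈ Zr ∧ |γ - t| ≤ 1 / 10) → (S.card : ℝ) ≤ A * Real.log (2 + |t|) := by
  classical
  obtain ⟨c0, hc0, hz⟩ := ZCount_zeta
  have hl17 : 0 < Real.log (17 / 15) := Real.log_pos (by norm_num)
  refine ⟨(|Real.log (2 / c0)| + 4) / Real.log (17 / 15), by positivity, ?_⟩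
  intro t S ht hS
  set c : ℂ := 6 / 5 + t * I with hc
  have hcre : c.re = 6 / 5 := by simp [hc]
  have hcim : c.im = t := by simp [hc]
  have hball : ∀ z ∈ Metric.closedBall c (8 / 5), -1 / 2 ≤ z.re ∧ 1 ≤ |z.im| ∧
      ‖z‖ ≤ |t| + 14 / 5 := by
    intro z hz
    rw [Metric.mem_closedBall, dist_eq_norm] at hz
    have h1 := (Complex.abs_re_le_norm (z - c)).trans hz
    have h2 := (Complex.abs_im_le_norm (z - c)).trans hz
    rw [Complex.sub_re, hcre] at h1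
    rw [Complex.sub_im, hcim] at h2
    refine ⟨?_, ?_, ?_⟩
    · have := (abs_le.mp h1).1
      linarith
    · have h3 : |t| ≤ |z.im| + |z.im - t| := by
        have := abs_add_le z.im (t - z.im)
        rw [add_sub_cancel, abs_sub_comm t z.im] at this
        exact this
      linarith
    · have h4 : ‖c‖ ≤ 6 / 5 + |t| := by
        refine (norm_add_le _ _).trans ?_
        rw [norm_mul, Complex.norm_I, mul_one, Complex.norm_real, Real.norm_eq_abs, norm_div,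
          Complex.norm_ofNat, Complex.norm_ofNat]
      have h5 : ‖z‖ ≤ ‖z - c‖ + ‖c‖ := by
        have := norm_add_le (z - c) c
        rwa [sub_add_cancel] at this
      linarith
  have hdisc := zeros_disc riemannZeta c (8 / 5) (3 / 4) (2 * (5 + |t|) ^ 2) (by norm_num)
    (by norm_num) {z : ℂ | z ≠ 1} isOpen_ne (by
      intro z hz h1
      have h1' : z = 1 := h1
      have := (hball z hz).2.1
      rw [h1'] at this
      simp at this
      linarith)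
    (fun z hz => (differentiableAt_riemannZeta hz).differentiableWithinAt)
    (by
      intro z hz
      obtain ⟨g1, g2, g3⟩ := hball z hz
      refine (Pool.Agent.H95.GC.zeta_growth z g1 g2).trans ?_
      have h0 := norm_nonneg z
      have : 1 + ‖z‖ ≤ 5 + |t| := by linarith
      gcongr)
    (S.image (fun γ : ℝ => (1 / 2 + (γ : ℂ) * I : ℂ)))
    (by
      intro w hw
      rw [Finset.mem_image] at hw
      obtain ⟨γ, hγ, rfl⟩ := hw
      refine ⟨?_, (hS γ hγ).1⟩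
      have h1 := (hS γ hγ).2
      rw [dist_eq_norm]
      have h2 : ‖(1 / 2 + (γ : ℂ) * I : ℂ) - c‖ ^ 2 ≤ (3 / 4) ^ 2 := by
        rw [← Complex.normSq_eq_norm_sq, Complex.normSq_apply]
        have e1 : ((1 / 2 + (γ : ℂ) * I : ℂ) - c).re = -(7 / 10) := by
          rw [Complex.sub_re, hcre]; simp; norm_num
        have e2 : ((1 / 2 + (γ : ℂ) * I : ℂ) - c).im = γ - t := by
          rw [Complex.sub_im, hcim]; simp
        rw [e1, e2]
        have h3 := abs_le.mp h1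
        nlinarith
      exact (pow_le_pow_iff_left₀ (norm_nonneg _) (by norm_num) two_ne_zero).mp h2)
  rw [Finset.card_image_of_injective _ ZCount_inj] at hdisc
  have h1 : c0 ≤ 2 * (5 + |t|) ^ 2 * ((3 / 4) / (8 / 5 - 3 / 4)) ^ S.card := (hz t).trans hdisc
  have e1 : ((3 / 4) / (8 / 5 - 3 / 4) : ℝ) = (17 / 15)⁻¹ := by norm_num
  rw [e1, inv_pow] at h1
  have hpw : (0 : ℝ) < (17 / 15) ^ S.card := by positivity
  have h2 : (17 / 15 : ℝ) ^ S.card ≤ 2 / c0 * (5 + |t|) ^ 2 := by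
    have h3 : c0 * (17 / 15) ^ S.card ≤ 2 * (5 + |t|) ^ 2 := by
      calc c0 * (17 / 15) ^ S.card ≤ (2 * (5 + |t|) ^ 2 * ((17 / 15) ^ S.card)⁻¹) * (17 / 15) ^ S.card := by
            gcongr
        _ = 2 * (5 + |t|) ^ 2 := by field_simp
    calc (17 / 15 : ℝ) ^ S.card = (c0 * (17 / 15) ^ S.card) / c0 := by field_simp
      _ ≤ (2 * (5 + |t|) ^ 2) / c0 := by gcongr
      _ = 2 / c0 * (5 + |t|) ^ 2 := by ring
  have h3 := Real.log_le_log hpw h2
  have ht0 : 0 ≤ |t| := abs_nonneg t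
  rw [Real.log_pow, Real.log_mul (by positivity) (by positivity), Real.log_pow] at h3
  push_cast at h3
  have h4 : Real.log (5 + |t|) ≤ 2 * Real.log (2 + |t|) := by
    have : Real.log (5 + |t|) ≤ Real.log ((2 + |t|) ^ 2) := by
      refine Real.log_le_log (by positivity) ?_
      nlinarith
    rw [Real.log_pow] at this
    push_cast at this
    exact this
  have h5 : 1 ≤ Real.log (2 + |t|) := by
    have h6 : Real.exp 1 ≤ 2 + |t| := by
      have := Real.exp_one_lt_d9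
      linarith
    have h7 := Real.log_le_log (Real.exp_pos 1) h6
    rwa [Real.log_exp] at h7
  have h6 : Real.log (2 / c0) ≤ |Real.log (2 / c0)| * Real.log (2 + |t|) := by
    calc Real.log (2 / c0) ≤ |Real.log (2 / c0)| * 1 := by rw [mul_one]; exact le_abs_self _
      _ ≤ |Real.log (2 / c0)| * Real.log (2 + |t|) := by gcongr
  rw [div_mul_eq_mul_div, le_div_iff₀ hl17]
  nlinarith

theorem zcount_local : ∃ A : ℝ, 0 < A ∧ ∀ (t : ℝ) (S : Finset ℝ),
    (∀ γ ∈ S, γ ∈ Zr ∧ |γ - t| ≤ 1 / 10) → (S.card : ℝ) ≤ A * Real.log (2 + |t|) := by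
  classical
  obtain ⟨A, hA, h⟩ := ZCount_large
  have hfin := ZCount_fin
  set N : ℕ := hfin.toFinset.card with hN
  have hl2 : 0 < Real.log 2 := Real.log_pos (by norm_num)
  refine ⟨A + (N + 1) / Real.log 2, by positivity, ?_⟩
  intro t S hS
  have hlt : Real.log 2 ≤ Real.log (2 + |t|) :=
    Real.log_le_log (by norm_num) (by linarith [abs_nonneg t])
  have hlt0 : 0 ≤ Real.log (2 + |t|) := hl2.le.trans hlt
  rcases le_or_gt 4 |t| with h4 | h4
  · refine (h t S h4 hS).trans ?_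
    refine mul_le_mul_of_nonneg_right ?_ hlt0
    have : 0 ≤ ((N : ℝ) + 1) / Real.log 2 := by positivity
    linarith
  · have hsub : S ⊆ hfin.toFinset := by
      intro γ hγ
      rw [Set.Finite.mem_toFinset]
      obtain ⟨h1, h2⟩ := hS γ hγ
      refine ⟨h1, ?_⟩
      have h3 : |γ| ≤ |γ - t| + |t| := by
        have := abs_add_le (γ - t) t
        rwa [sub_add_cancel] at this
      linarith
    have hc : (S.card : ℝ) ≤ N := by
      rw [hN]
      exact_mod_cast Finset.card_le_card hsub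
    calc (S.card : ℝ) ≤ N := hc
      _ ≤ (N + 1) / Real.log 2 * Real.log 2 := by
          rw [div_mul_cancel₀ _ hl2.ne']; linarith
      _ ≤ (N + 1) / Real.log 2 * Real.log (2 + |t|) := by gcongr
      _ ≤ (A + (N + 1) / Real.log 2) * Real.log (2 + |t|) := by
          refine mul_le_mul_of_nonneg_right ?_ hlt0
          linarith

theorem zcount : ∃ A : ℝ, 0 < A ∧ ∀ (U : ℝ) (S : Finset ℝ), 1 ≤ U →
    (∀ γ ∈ S, γ ∈ Zr ∧ |γ| ≤ U) → (S.card : ℝ) ≤ A * U * Real.log (2 + U) := by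
  classical
  obtain ⟨A, hA, h⟩ := zcount_local
  refine ⟨26 * A, by positivity, ?_⟩
  intro U S hU hS
  set f : ℝ → ℤ := fun γ => round (5 * γ) with hf
  have hfr : ∀ γ : ℝ, |γ - (f γ : ℝ) / 5| ≤ 1 / 10 := by
    intro γ
    have h1 := abs_sub_round (5 * γ)
    have e : γ - (f γ : ℝ) / 5 = (5 * γ - (round (5 * γ) : ℝ)) / 5 := by
      simp only [hf]; ring
    rw [e, abs_div, abs_of_pos (by norm_num : (0 : ℝ) < 5)]
    linarith
  have hcard : (S.card : ℝ) = ∑ j ∈ S.image f, ((S.filter (fun γ => f γ = j)).card : ℝ) := by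
    rw [Finset.card_eq_sum_card_image f S]
    push_cast
    rfl
  have hlU : 0 ≤ Real.log (2 + U) := Real.log_nonneg (by linarith)
  have hb : ∀ j ∈ S.image f, ((S.filter (fun γ => f γ = j)).card : ℝ) ≤
      2 * A * Real.log (2 + U) := by
    intro j hj
    rw [Finset.mem_image] at hj
    obtain ⟨γ, hγ, rfl⟩ := hj
    have h1 := h ((f γ : ℝ) / 5) (S.filter (fun γ' => f γ' = f γ)) (by
      intro γ' hγ'
      rw [Finset.mem_filter] at hγ'
      refine ⟨(hS γ' hγ'.1).1, ?_⟩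
      rw [← hγ'.2]
      exact hfr γ')
    refine h1.trans ?_
    have h2 : |(f γ : ℝ) / 5| ≤ U + 1 / 10 := by
      have h3 := hfr γ
      have h4 := (hS γ hγ).2
      have h5 : |(f γ : ℝ) / 5| ≤ |γ| + |γ - (f γ : ℝ) / 5| := by
        have := abs_sub γ (γ - (f γ : ℝ) / 5)
        rwa [sub_sub_cancel] at this
      linarith
    have h3 : Real.log (2 + |(f γ : ℝ) / 5|) ≤ 2 * Real.log (2 + U) := by
      have h4 : Real.log (2 + |(f γ : ℝ) / 5|) ≤ Real.log ((2 + U) ^ 2) := by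
        refine Real.log_le_log (by positivity) ?_
        nlinarith
      rw [Real.log_pow] at h4
      push_cast at h4
      exact h4
    calc A * Real.log (2 + |(f γ : ℝ) / 5|) ≤ A * (2 * Real.log (2 + U)) := by gcongr
      _ = 2 * A * Real.log (2 + U) := by ring
  have himg : ((S.image f).card : ℝ) ≤ 13 * U := by
    have hsub : S.image f ⊆ Finset.Icc (-⌊5 * U + 1⌋) ⌊5 * U + 1⌋ := by
      intro j hj
      rw [Finset.mem_image] at hj
      obtain ⟨γ, hγ, rfl⟩ := hj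
      have h3 := hfr γ
      have h4 := (hS γ hγ).2
      have h5 := abs_le.mp h3
      have h6 := abs_le.mp h4
      rw [Finset.mem_Icc]
      constructor
      · rw [neg_le, Int.le_floor]
        push_cast
        linarith [h5.1, h5.2, h6.1, h6.2]
      · rw [Int.le_floor]
        linarith [h5.1, h5.2, h6.1, h6.2]
    have h1 : ((S.image f).card : ℝ) ≤ ((Finset.Icc (-⌊5 * U + 1⌋) ⌊5 * U + 1⌋).card : ℝ) := by
      exact_mod_cast Finset.card_le_card hsub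
    rw [Int.card_Icc] at h1
    have h2 : 0 ≤ ⌊5 * U + 1⌋ := Int.floor_nonneg.mpr (by linarith)
    have h3 : (((⌊5 * U + 1⌋ + 1 - -⌊5 * U + 1⌋).toNat : ℕ) : ℝ) = 2 * (⌊5 * U + 1⌋ : ℝ) + 1 := by
      have h4 : (((⌊5 * U + 1⌋ + 1 - -⌊5 * U + 1⌋).toNat : ℕ) : ℤ) = 2 * ⌊5 * U + 1⌋ + 1 := by
        rw [Int.toNat_of_nonneg (by omega)]; ring
      exact_mod_cast h4
    rw [h3] at h1
    have h5 := Int.floor_le (5 * U + 1)
    linarith
  rw [hcard]
  calc ∑ j ∈ S.image f, ((S.filter (fun γ => f γ = j)).card : ℝ)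
      ≤ ∑ _j ∈ S.image f, 2 * A * Real.log (2 + U) := Finset.sum_le_sum hb
    _ = ((S.image f).card : ℝ) * (2 * A * Real.log (2 + U)) := by
        rw [Finset.sum_const, nsmul_eq_mul]
    _ ≤ 13 * U * (2 * A * Real.log (2 + U)) := by
        refine mul_le_mul_of_nonneg_right himg ?_
        positivity
    _ = 26 * A * U * Real.log (2 + U) := by ring

end Pool.Agent.H82.GY

end

section

/-!
GY module WSum: sums over the zeros on the critical line.

(1) `zsum`: `∑_{γ ∈ Zr} (1+|γ|)^(-3) < ∞`. For a finite set `S ⊂ Zr` split it by the cells `2^j ≤ 1 + |γ| < 2^(j+1)`: by `zcount`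
a cell has at most `A 2^(j+1) log(2 + 2^(j+1)) ≤ A' 4^j` elements (or use `S.card ≤ A U log (2+U) ≤ A U (1+U)`), so the sum is
`≤ ∑_j A' 4^j 2^(-3j) < ∞`. (`summable_of_sum_le`.)
(2) `a_norm`: `‖a η γ‖ = exp(-(η γ)²/2) ‖r γ‖` (`K_norm` in `GX/Gau.lean` with `σ = 1/2`, see `ASum.lean`).
(3) `asum`: suppose `‖r γ‖ ≤ A (1+|γ|)^k` on `Zr`. For `0 < η ≤ 1`: `(1+|γ|)^(k+3) exp(-(ηγ)²/4) ≤ D₁ (1/η)^(k+3)`, because
`1 + |γ| ≤ (1 + η|γ|)/η` and `(1+u)^(k+3) exp(-u²/4)` is bounded on `[0,∞)`. So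
`‖a η γ‖ ≤ A D₁ (1/η)^(k+3) (1+|γ|)^(-3)`: summable, and `∑ ‖a η γ‖ ≤ D (1/η)^m` with `m = k+3`; and for `|γ| > U ≥ 0`
the same with the extra factor `exp(-(ηγ)²/4) ≤ exp(-(ηU)²/4)`.
-/

set_option autoImplicit false

namespace Pool.Agent.H82.GY

open MeasureTheory Set Complex Filter Topology
open Pool.Agent.H56.GX

private theorem wSum_log (U : ℝ) (hU : 1 ≤ U) : Real.log (2 + U) ≤ 2 * U := by
  have := Real.log_le_sub_one_of_pos (show (0 : ℝ) < 2 + U by linarith)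
  linarith

private theorem wSum_fiber (A : ℝ) (hA : 0 < A)
    (h : ∀ (U : ℝ) (S : Finset ℝ), 1 ≤ U → (∀ γ ∈ S, γ ∈ Zr ∧ |γ| ≤ U) →
      (S.card : ℝ) ≤ A * U * Real.log (2 + U)) (S : Finset Zr) (j : ℕ)
    (hS : ∀ γ ∈ S, (2 : ℝ) ^ j ≤ 1 + |(γ : ℝ)| ∧ 1 + |(γ : ℝ)| < 2 ^ (j + 1)) :
    ∑ γ ∈ S, ((1 + |(γ : ℝ)|) ^ 3)⁻¹ ≤ 8 * A * (1 / 2) ^ j := by
  have hp : (0 : ℝ) < 2 ^ j := by positivity
  have h1 : ∑ γ ∈ S, ((1 + |(γ : ℝ)|) ^ 3)⁻¹ ≤ ∑ _γ ∈ S, (((2 : ℝ) ^ j) ^ 3)⁻¹ := by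
    refine Finset.sum_le_sum fun γ hγ => ?_
    exact inv_anti₀ (by positivity) (pow_le_pow_left₀ hp.le (hS γ hγ).1 3)
  rw [Finset.sum_const, nsmul_eq_mul] at h1
  have hU : (1 : ℝ) ≤ 2 ^ (j + 1) := one_le_pow₀ (by norm_num)
  have hcard : (S.card : ℝ) ≤ A * 2 ^ (j + 1) * Real.log (2 + 2 ^ (j + 1)) := by
    have h2 := h (2 ^ (j + 1)) (S.map ⟨Subtype.val, Subtype.val_injective⟩) hU (by
      intro γ hγ
      rw [Finset.mem_map] at hγ
      obtain ⟨g, hg, rfl⟩ := hγ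
      refine ⟨g.2, ?_⟩
      have := (hS g hg).2
      show |(g : ℝ)| ≤ _
      linarith)
    rwa [Finset.card_map] at h2
  have hlog := wSum_log (2 ^ (j + 1)) hU
  have hcard2 : (S.card : ℝ) ≤ 8 * A * ((2 : ℝ) ^ j) ^ 2 := by
    refine hcard.trans ?_
    calc A * 2 ^ (j + 1) * Real.log (2 + 2 ^ (j + 1))
        ≤ A * 2 ^ (j + 1) * (2 * 2 ^ (j + 1)) := mul_le_mul_of_nonneg_left hlog (by positivity)
      _ = 8 * A * ((2 : ℝ) ^ j) ^ 2 := by ring
  refine h1.trans ?_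
  calc (S.card : ℝ) * (((2 : ℝ) ^ j) ^ 3)⁻¹
      ≤ (8 * A * ((2 : ℝ) ^ j) ^ 2) * (((2 : ℝ) ^ j) ^ 3)⁻¹ :=
        mul_le_mul_of_nonneg_right hcard2 (by positivity)
    _ = 8 * A * (1 / 2) ^ j := by
        rw [one_div, inv_pow]
        field_simp

theorem zsum : Summable (fun γ : Zr => ((1 + |(γ : ℝ)|) ^ 3)⁻¹) := by
  classical
  obtain ⟨A, hA, h⟩ := zcount
  refine summable_of_sum_le (c := 16 * A) (fun γ => by positivity) fun S => ?_
  set f : Zr → ℕ := fun γ => Nat.log 2 ⌊1 + |(γ : ℝ)|⌋₊ with hf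
  have hfl : ∀ γ : Zr, (2 : ℝ) ^ (f γ) ≤ 1 + |(γ : ℝ)| ∧ 1 + |(γ : ℝ)| < 2 ^ (f γ + 1) := by
    intro γ
    have h0 : (0 : ℝ) ≤ 1 + |(γ : ℝ)| := by positivity
    have h1 : 1 ≤ ⌊1 + |(γ : ℝ)|⌋₊ := by
      rw [Nat.one_le_floor_iff]
      linarith [abs_nonneg (γ : ℝ)]
    constructor
    · have h2 : 2 ^ (f γ) ≤ ⌊1 + |(γ : ℝ)|⌋₊ := Nat.pow_log_le_self 2 (by omega)
      have h3 : ((2 ^ (f γ) : ℕ) : ℝ) ≤ (⌊1 + |(γ : ℝ)|⌋₊ : ℝ) := by exact_mod_cast h2
      push_cast at h3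
      exact h3.trans (Nat.floor_le h0)
    · have h2 : ⌊1 + |(γ : ℝ)|⌋₊ < 2 ^ (f γ + 1) := Nat.lt_pow_succ_log_self (by norm_num) _
      have h3 : 1 + |(γ : ℝ)| < ((2 ^ (f γ + 1) : ℕ) : ℝ) := by
        rw [← Nat.floor_lt h0]
        exact h2
      push_cast at h3
      exact h3
  set J : ℕ := S.sup f + 1 with hJ
  have hmaps : ∀ γ ∈ S, f γ ∈ Finset.range J := by
    intro γ hγ
    rw [Finset.mem_range, hJ]
    exact Nat.lt_succ_of_le (Finset.le_sup hγ)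
  rw [← Finset.sum_fiberwise_of_maps_to hmaps]
  have h1 : ∑ j ∈ Finset.range J, ∑ γ ∈ S with f γ = j, ((1 + |(γ : ℝ)|) ^ 3)⁻¹ ≤
      ∑ j ∈ Finset.range J, 8 * A * (1 / 2) ^ j := by
    refine Finset.sum_le_sum fun j _ => ?_
    refine wSum_fiber A hA h _ j fun γ hγ => ?_
    rw [Finset.mem_filter] at hγ
    have := hfl γ
    rw [hγ.2] at this
    exact this
  refine h1.trans ?_
  rw [← Finset.mul_sum]
  have h2 : ∑ j ∈ Finset.range J, ((1 : ℝ) / 2) ^ j ≤ 2 := by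
    have h3 := (summable_geometric_of_lt_one (by norm_num) (by norm_num :
      (1 : ℝ) / 2 < 1)).sum_le_tsum (Finset.range J) (fun j _ => by positivity)
    rw [tsum_geometric_of_lt_one (by norm_num) (by norm_num)] at h3
    norm_num at h3 ⊢
    exact h3
  nlinarith

theorem a_norm (η γ : ℝ) : ‖a η γ‖ = Real.exp (-(η * γ) ^ 2 / 2) * ‖r γ‖ := by
  have hK : ‖K η (1 / 2 + γ * I)‖ = Real.exp (-(η * γ) ^ 2 / 2) := by
    have h1 := K_norm η (1 / 2) γ
    rw [sub_self] at h1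
    have h2 : ((1 / 2 : ℝ) : ℂ) = 1 / 2 := by push_cast; ring
    rw [h2] at h1
    rw [h1]
    congr 1
    ring
  unfold a
  rw [norm_mul, hK]

private theorem wSum_poly (K : ℕ) (u : ℝ) (hu : 0 ≤ u) :
    (1 + u) ^ K ≤ (K.factorial * Real.exp 2) * Real.exp (u ^ 2 / 4) := by
  have h1 := Real.pow_div_factorial_le_exp (1 + u) (by linarith) K
  rw [div_le_iff₀ (by positivity)] at h1
  have h2 : Real.exp (1 + u) ≤ Real.exp 2 * Real.exp (u ^ 2 / 4) := by
    rw [← Real.exp_add]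
    refine Real.exp_le_exp.2 ?_
    nlinarith [sq_nonneg (u / 2 - 1)]
  have h3 : (0 : ℝ) ≤ K.factorial := by positivity
  calc (1 + u) ^ K ≤ Real.exp (1 + u) * K.factorial := h1
    _ ≤ (Real.exp 2 * Real.exp (u ^ 2 / 4)) * K.factorial := mul_le_mul_of_nonneg_right h2 h3
    _ = _ := by ring

private theorem wSum_pt (A : ℝ) (k : ℕ) (hA : 0 < A) (η γ : ℝ) (hη : 0 < η) (hη1 : η ≤ 1)
    (hr : ‖r γ‖ ≤ A * (1 + |γ|) ^ k) :
    ‖a η γ‖ ≤ A * ((k + 3).factorial * Real.exp 2) * (1 / η) ^ (k + 3) *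
      Real.exp (-(η * γ) ^ 2 / 4) * ((1 + |γ|) ^ 3)⁻¹ := by
  have hγ0 := abs_nonneg γ
  have hg : (0 : ℝ) < 1 + |γ| := by linarith
  have h1 : 1 + |γ| ≤ (1 / η) * (1 + η * |γ|) := by
    have e1 : 1 ≤ 1 / η := (one_le_div hη).2 hη1
    have e2 : (1 / η) * (1 + η * |γ|) = 1 / η + |γ| := by
      field_simp
    rw [e2]
    linarith
  have h2 : (1 + |γ|) ^ (k + 3) ≤ (1 / η) ^ (k + 3) *
      (((k + 3).factorial * Real.exp 2) * Real.exp ((η * |γ|) ^ 2 / 4)) := by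
    calc (1 + |γ|) ^ (k + 3) ≤ ((1 / η) * (1 + η * |γ|)) ^ (k + 3) :=
          pow_le_pow_left₀ hg.le h1 _
      _ = (1 / η) ^ (k + 3) * (1 + η * |γ|) ^ (k + 3) := mul_pow _ _ _
      _ ≤ _ := mul_le_mul_of_nonneg_left (wSum_poly (k + 3) (η * |γ|) (by positivity))
          (by positivity)
  have h3 : (η * |γ|) ^ 2 = (η * γ) ^ 2 := by
    rw [mul_pow, mul_pow, sq_abs]
  rw [h3] at h2
  have h4 : Real.exp ((η * γ) ^ 2 / 4) * Real.exp (-(η * γ) ^ 2 / 2) =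
      Real.exp (-(η * γ) ^ 2 / 4) := by
    rw [← Real.exp_add]
    congr 1
    ring
  rw [a_norm]
  calc Real.exp (-(η * γ) ^ 2 / 2) * ‖r γ‖
      ≤ Real.exp (-(η * γ) ^ 2 / 2) * (A * (1 + |γ|) ^ k) :=
        mul_le_mul_of_nonneg_left hr (Real.exp_pos _).le
    _ = A * Real.exp (-(η * γ) ^ 2 / 2) * ((1 + |γ|) ^ (k + 3)) * ((1 + |γ|) ^ 3)⁻¹ := by
        rw [pow_add]
        field_simp
    _ ≤ A * Real.exp (-(η * γ) ^ 2 / 2) * ((1 / η) ^ (k + 3) *
      (((k + 3).factorial * Real.exp 2) * Real.exp ((η * γ) ^ 2 / 4))) * ((1 + |γ|) ^ 3)⁻¹ := by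
        refine mul_le_mul_of_nonneg_right (mul_le_mul_of_nonneg_left h2 ?_) (by positivity)
        exact mul_nonneg hA.le (Real.exp_pos _).le
    _ = A * ((k + 3).factorial * Real.exp 2) * (1 / η) ^ (k + 3) *
        (Real.exp ((η * γ) ^ 2 / 4) * Real.exp (-(η * γ) ^ 2 / 2)) * ((1 + |γ|) ^ 3)⁻¹ := by
        ring
    _ = _ := by rw [h4]

theorem asum (A : ℝ) (k : ℕ) (hA : 0 < A) (hr : ∀ γ ∈ Zr, ‖r γ‖ ≤ A * (1 + |γ|) ^ k) :
    ∃ (D : ℝ) (m : ℕ), 0 < D ∧ ∀ η : ℝ, 0 < η → η ≤ 1 →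
      Summable (fun γ : Zr => ‖a η γ‖) ∧ ∑' γ : Zr, ‖a η γ‖ ≤ D * (1 / η) ^ m ∧
      ∀ U : ℝ, 0 ≤ U → ∑' γ : Zr, (if U < |(γ : ℝ)| then ‖a η γ‖ else 0) ≤
        D * (1 / η) ^ m * Real.exp (-(η * U) ^ 2 / 4) := by
  set Z : ℝ := ∑' γ : Zr, ((1 + |(γ : ℝ)|) ^ 3)⁻¹ with hZ
  have hZ0 : 0 ≤ Z := tsum_nonneg fun γ => by positivity
  set D₁ : ℝ := A * ((k + 3).factorial * Real.exp 2) with hD₁
  have hD₁0 : 0 < D₁ := by positivity
  refine ⟨D₁ * (Z + 1), k + 3, by positivity, fun η hη hη1 => ?_⟩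
  have hE : 0 < (1 / η) ^ (k + 3) := by positivity
  have hpt : ∀ γ : Zr, ‖a η γ‖ ≤ D₁ * (1 / η) ^ (k + 3) * Real.exp (-(η * γ) ^ 2 / 4) *
      ((1 + |(γ : ℝ)|) ^ 3)⁻¹ := fun γ => wSum_pt A k hA η γ hη hη1 (hr γ γ.2)
  have hpt1 : ∀ γ : Zr, ‖a η γ‖ ≤ D₁ * (1 / η) ^ (k + 3) * ((1 + |(γ : ℝ)|) ^ 3)⁻¹ := by
    intro γ
    refine (hpt γ).trans (mul_le_mul_of_nonneg_right ?_ (by positivity))
    refine mul_le_of_le_one_right (by positivity) (Real.exp_le_one_iff.2 ?_)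
    have := sq_nonneg (η * (γ : ℝ))
    linarith
  have hs1 : Summable fun γ : Zr => D₁ * (1 / η) ^ (k + 3) * ((1 + |(γ : ℝ)|) ^ 3)⁻¹ :=
    zsum.mul_left _
  have hs : Summable (fun γ : Zr => ‖a η γ‖) :=
    Summable.of_nonneg_of_le (fun γ => norm_nonneg _) hpt1 hs1
  refine ⟨hs, ?_, fun U hU => ?_⟩
  · refine (hs.tsum_le_tsum hpt1 hs1).trans ?_
    rw [tsum_mul_left, ← hZ]
    nlinarith [mul_pos hD₁0 hE]
  · have hpt2 : ∀ γ : Zr, (if U < |(γ : ℝ)| then ‖a η γ‖ else 0) ≤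
        D₁ * (1 / η) ^ (k + 3) * Real.exp (-(η * U) ^ 2 / 4) * ((1 + |(γ : ℝ)|) ^ 3)⁻¹ := by
      intro γ
      split_ifs with h
      · refine (hpt γ).trans (mul_le_mul_of_nonneg_right ?_ (by positivity))
        refine mul_le_mul_of_nonneg_left (Real.exp_le_exp.2 ?_) (by positivity)
        have h1 : (η * U) ^ 2 ≤ (η * (γ : ℝ)) ^ 2 := by
          rw [mul_pow, mul_pow]
          refine mul_le_mul_of_nonneg_left ?_ (by positivity)
          rw [← sq_abs (γ : ℝ)]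
          exact pow_le_pow_left₀ hU h.le 2
        linarith
      · positivity
    have hs2 : Summable fun γ : Zr => D₁ * (1 / η) ^ (k + 3) *
        Real.exp (-(η * U) ^ 2 / 4) * ((1 + |(γ : ℝ)|) ^ 3)⁻¹ := zsum.mul_left _
    have hs3 : Summable (fun γ : Zr => (if U < |(γ : ℝ)| then ‖a η γ‖ else 0)) :=
      Summable.of_nonneg_of_le (fun γ => by split_ifs <;> positivity) hpt2 hs2
    refine (hs3.tsum_le_tsum hpt2 hs2).trans ?_
    rw [tsum_mul_left, ← hZ]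
    have h0 : 0 < D₁ * (1 / η) ^ (k + 3) * Real.exp (-(η * U) ^ 2 / 4) :=
      mul_pos (mul_pos hD₁0 hE) (Real.exp_pos _)
    nlinarith

/-- summability for all `η > 0` (for `η > 1` compare with `η = 1`: `‖a η γ‖ ≤ ‖a 1 γ‖`) -/
theorem asum_summable (A : ℝ) (k : ℕ) (hA : 0 < A) (hr : ∀ γ ∈ Zr, ‖r γ‖ ≤ A * (1 + |γ|) ^ k)
    (η : ℝ) (hη : 0 < η) : Summable (fun γ : Zr => ‖a η γ‖) := by
  obtain ⟨D, m, -, h⟩ := asum A k hA hr
  rcases le_or_gt η 1 with h1 | h1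
  · exact (h η hη h1).1
  · refine Summable.of_nonneg_of_le (fun γ => norm_nonneg _) (fun γ => ?_)
      (h 1 one_pos le_rfl).1
    rw [a_norm, a_norm]
    refine mul_le_mul_of_nonneg_right (Real.exp_le_exp.2 ?_) (norm_nonneg _)
    rw [one_mul, mul_pow]
    have h2 : 1 ≤ η ^ 2 := one_le_pow₀ h1.le
    nlinarith [sq_nonneg (γ : ℝ)]

end Pool.Agent.H82.GY

end

section

/-!
GY module RecurQ: quantitative recurrence.

Let `D, m` be as in `asum`, `A₀` as in `zcount`. Put `ℓ = log (1/η) ≥ log 2 > 1/2`. Choose a constant `K ≥ 1` with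
`K² ℓ²/4 ≥ (m + 2) ℓ + log (4 D)` for all `ℓ ≥ 1/2` and with `K ≥ 4`; `U = K ℓ / η` (so `U ≥ 1`). Then the tail satisfies
`∑_{|γ| > U} ‖a‖ ‖exp(iγτ) - 1‖ ≤ 2 D (1/η)^m exp(-K²ℓ²/4) ≤ η²/2`.
Let `S` be the finite set of `γ ∈ Zr` with `|γ| ≤ U` (`zcount` bounds the cardinality of all its finite subsets, so it is finite;
or `IsCompact.inter_riemannZetaZeros_finite`), `n = S.card ≤ A₀ U log(2+U)`, and `N = ⌈4 π D (1/η)^(m+2)⌉₊ + 1`. With `τ` from
`dirichlet_recur`: `∑_{γ ∈ S} ‖a‖ ‖exp(iγτ) - 1‖ ≤ (2π/N) D (1/η)^m ≤ η²/2`.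
Finally `N^n = exp(n log N)`, `log N ≤ K₁ ℓ` and `log(2+U) ≤ K₂ ℓ` (constants depending on `D, m, K`; `ℓ ≥ log 2`), so
`n log N ≤ A₀ K (ℓ/η) K₂ ℓ K₁ ℓ = D' (1/η) ℓ³`.
(The tsum over `Zr` splits as `∑ (if |γ| ≤ U ...) + ∑ (if U < |γ| ...)`.)
-/

set_option autoImplicit false

namespace Pool.Agent.H82.GY

open MeasureTheory Set Complex Filter Topology
open Pool.Agent.H56.GX

private lemma RecurQ_finite (A₀ U : ℝ) (hz : ∀ S : Finset ℝ, (∀ γ ∈ S, γ ∈ Zr ∧ |γ| ≤ U) →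
    (S.card : ℝ) ≤ A₀ * U * Real.log (2 + U)) : {γ : ℝ | γ ∈ Zr ∧ |γ| ≤ U}.Finite := by
  by_contra hinf
  have hinf' : {γ : ℝ | γ ∈ Zr ∧ |γ| ≤ U}.Infinite := hinf
  obtain ⟨T, hT, hTc⟩ := hinf'.exists_subset_card_eq (⌊A₀ * U * Real.log (2 + U)⌋₊ + 1)
  have h1 := hz T (fun γ hγ => hT hγ)
  rw [hTc] at h1
  push_cast at h1
  have h2 := Nat.lt_floor_add_one (A₀ * U * Real.log (2 + U))
  linarith

theorem recurQ (A : ℝ) (k : ℕ) (hA : 0 < A) (hr : ∀ γ ∈ Zr, ‖r γ‖ ≤ A * (1 + |γ|) ^ k) :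
    ∃ D' : ℝ, 0 < D' ∧ ∀ η τ₀ : ℝ, 0 < η → η ≤ 1 / 2 → 1 ≤ τ₀ →
      ∃ τ : ℝ, τ₀ ≤ τ ∧ τ ≤ τ₀ * Real.exp (D' * (1 / η) * (Real.log (1 / η)) ^ 3) ∧
        ∑' γ : Zr, ‖a η γ‖ * ‖Complex.exp (((γ : ℝ) * τ : ℝ) * I) - 1‖ ≤ η ^ 2 := by
  obtain ⟨D, m, hD, hs⟩ := asum A k hA hr
  obtain ⟨A₀, hA₀, hz⟩ := zcount
  have hpi := Real.pi_pos
  obtain ⟨K, hKdef⟩ : ∃ K : ℝ, K = 4 + 4 * ((m : ℝ) + 2) + 4 * |Real.log (4 * D)| := ⟨_, rfl⟩
  have hm0 : (0 : ℝ) ≤ (m : ℝ) := Nat.cast_nonneg m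
  have habs : 0 ≤ |Real.log (4 * D)| := abs_nonneg _
  have hK4 : 4 ≤ K := by rw [hKdef]; linarith
  obtain ⟨K₁, hK₁⟩ : ∃ K₁ : ℝ, K₁ = 2 * Real.log (4 * Real.pi * D + 2) + ((m : ℝ) + 2) := ⟨_, rfl⟩
  obtain ⟨K₂, hK₂⟩ : ∃ K₂ : ℝ, K₂ = 2 * Real.log (2 * K) + 2 := ⟨_, rfl⟩
  have hlogD : 0 ≤ Real.log (4 * Real.pi * D + 2) := Real.log_nonneg (by
    have : 0 < 4 * Real.pi * D := by positivity
    linarith)
  have hlogK : 0 ≤ Real.log (2 * K) := Real.log_nonneg (by linarith)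
  have hK₁0 : 0 < K₁ := by rw [hK₁]; linarith
  have hK₂0 : 0 < K₂ := by rw [hK₂]; linarith
  have hK0 : 0 < K := by linarith
  refine ⟨A₀ * K * K₂ * K₁, by positivity, ?_⟩
  intro η τ₀ hη hη2 hτ₀
  obtain ⟨l, hl⟩ : ∃ l : ℝ, l = Real.log (1 / η) := ⟨_, rfl⟩
  have hη1 : η ≤ 1 := by linarith
  have h1η : 2 ≤ 1 / η := by
    rw [le_div_iff₀ hη]
    linarith
  have h1η0 : 0 < 1 / η := by positivity
  have hl2 : 1 / 2 ≤ l := by
    rw [hl]
    have h1 : Real.log 2 ≤ Real.log (1 / η) := Real.log_le_log (by norm_num) h1η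
    have h2 := Real.log_two_gt_d9
    linarith
  have hl0 : 0 < l := by linarith
  have hexpl : Real.exp l = 1 / η := by rw [hl, Real.exp_log h1η0]
  have hll : l ≤ 1 / η := by
    rw [← hexpl]
    have := Real.add_one_le_exp l
    linarith
  obtain ⟨U, hU⟩ : ∃ U : ℝ, U = K * l / η := ⟨_, rfl⟩
  have hU4 : 4 ≤ U := by
    rw [hU, mul_div_assoc, div_eq_mul_one_div l η]
    have h1 : 1 ≤ l * (1 / η) := by nlinarith only [h1η, hl2, hη, hη2]
    nlinarith only [hKdef, habs, hη, hη2, h1]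
  have hηU : η * U = K * l := by rw [hU]; field_simp
  obtain ⟨hsum, hsumle, htail⟩ := hs η hη hη1
  have htailU := htail U (by linarith)
  rw [hηU] at htailU
  -- powers of `1/η` as exponentials
  have hpow : ∀ j : ℕ, (1 / η) ^ j = Real.exp (j * l) := by
    intro j
    rw [← hexpl, ← Real.exp_nat_mul]
  -- the tail
  have hKl : ((m : ℝ) + 2) * l + Real.log (4 * D) ≤ (K * l) ^ 2 / 4 := by
    have h1 : Real.log (4 * D) ≤ |Real.log (4 * D)| := le_abs_self _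
    have h2 : K * K ≥ 4 * K := by nlinarith only [hKdef, habs, hη, hη2]
    have h3 : l * l ≥ l / 2 := by nlinarith only [hl2, hη, hη2]
    have h4 : (K * l) ^ 2 / 4 = (K * K) * (l * l) / 4 := by ring
    have h5 : (K * K) * (l * l) ≥ 4 * K * (l / 2) :=
      mul_le_mul h2 h3 (by positivity) (by positivity)
    have h6 : K * l ≥ (2 * ((m : ℝ) + 2) + 4 * |Real.log (4 * D)|) * l := by
      apply mul_le_mul_of_nonneg_right _ hl0.le
      rw [hKdef]
      linarith only [hη, hη2]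
    have h7 : |Real.log (4 * D)| * l ≥ |Real.log (4 * D)| * (1 / 2) := mul_le_mul_of_nonneg_left hl2 habs
    rw [h4]
    nlinarith only [h1, h5, h6, h7]
  have hexpK : Real.exp (-(K * l) ^ 2 / 4) ≤ (Real.exp (((m : ℝ) + 2) * l) * (4 * D))⁻¹ := by
    have h1 : (Real.exp (((m : ℝ) + 2) * l) * (4 * D))⁻¹ = Real.exp (-(((m : ℝ) + 2) * l + Real.log (4 * D))) := by
      rw [Real.exp_neg, Real.exp_add, Real.exp_log (by positivity)]
    rw [h1]
    apply Real.exp_le_exp.2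
    have : -(K * l) ^ 2 / 4 = -((K * l) ^ 2 / 4) := by ring
    rw [this]
    linarith only [hKl]
  have hη2' : Real.exp (2 * l) = (η ^ 2)⁻¹ := by
    have := hpow 2
    push_cast at this
    rw [← this]
    field_simp
  have hexpm2 : Real.exp (((m : ℝ) + 2) * l) = (1 / η) ^ m * (η ^ 2)⁻¹ := by
    rw [hpow m, ← hη2', ← Real.exp_add]
    ring_nf
  have hηm : 0 < (1 / η) ^ m := by positivity
  have htail2 : D * (1 / η) ^ m * Real.exp (-(K * l) ^ 2 / 4) ≤ η ^ 2 / 4 := by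
    calc D * (1 / η) ^ m * Real.exp (-(K * l) ^ 2 / 4)
        ≤ D * (1 / η) ^ m * (Real.exp (((m : ℝ) + 2) * l) * (4 * D))⁻¹ :=
          mul_le_mul_of_nonneg_left hexpK (by positivity)
      _ = η ^ 2 / 4 := by
          rw [hexpm2]
          field_simp
  -- the modulus of the recurrence
  obtain ⟨N, hN⟩ : ∃ N : ℕ, N = ⌈4 * Real.pi * D * (1 / η) ^ (m + 2)⌉₊ + 1 := ⟨_, rfl⟩
  have hN1 : 1 ≤ N := by omega
  have hN0 : (0 : ℝ) < N := by exact_mod_cast hN1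
  have hNge : 4 * Real.pi * D * (1 / η) ^ (m + 2) ≤ N := by
    rw [hN]
    push_cast
    have := Nat.le_ceil (4 * Real.pi * D * (1 / η) ^ (m + 2))
    linarith only [hη, hη2, this]
  have hone : 1 ≤ (1 / η) ^ (m + 2) := one_le_pow₀ (by linarith only [hη, hη2, h1η])
  have hNle : (N : ℝ) ≤ (4 * Real.pi * D + 2) * (1 / η) ^ (m + 2) := by
    rw [hN]
    push_cast
    have h1 : 0 ≤ 4 * Real.pi * D * (1 / η) ^ (m + 2) := by positivity
    have := Nat.ceil_lt_add_one h1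
    nlinarith only [hone, this]
  have hlogN : Real.log N ≤ K₁ * l := by
    have h1 : Real.log N ≤ Real.log ((4 * Real.pi * D + 2) * (1 / η) ^ (m + 2)) := Real.log_le_log hN0 hNle
    rw [Real.log_mul (by positivity) (by positivity), Real.log_pow, ← hl] at h1
    push_cast at h1
    rw [hK₁]
    nlinarith only [h1, hlogD, hl2]
  have hlogN0 : 0 ≤ Real.log N := Real.log_nonneg (by exact_mod_cast hN1)
  have hfin := RecurQ_finite A₀ U (fun S hS => hz U S (by linarith only [hη, hη2, hU4]) hS)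
  have hcard : (hfin.toFinset.card : ℝ) ≤ A₀ * U * Real.log (2 + U) :=
    hz U _ (by linarith only [hη, hη2, hU4]) (fun γ hγ => (hfin.mem_toFinset).1 hγ)
  have hlogU : Real.log (2 + U) ≤ K₂ * l := by
    have h1 : 2 + U ≤ 2 * K * (1 / η) ^ 2 := by
      have h2 : U ≤ K * (1 / η) ^ 2 := by
        rw [hU, mul_div_assoc, div_eq_mul_one_div l η, pow_two]
        apply mul_le_mul_of_nonneg_left _ hK0.le
        exact mul_le_mul_of_nonneg_right hll h1η0.le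
      nlinarith only [hη, hη2, hU4, h2]
    have h2 := Real.log_le_log (by linarith only [hη, hη2, hU4]) h1
    rw [Real.log_mul (by positivity) (by positivity), Real.log_pow, ← hl] at h2
    push_cast at h2
    rw [hK₂]
    nlinarith only [h2, hlogK, hl2]
  obtain ⟨τ, hτ1, hτ2, hτ3⟩ := dirichlet_recur hfin.toFinset N hN1 τ₀ (by linarith only [hη, hη2, hτ₀])
  refine ⟨τ, hτ1, ?_, ?_⟩
  · have h1 : (N : ℝ) ^ hfin.toFinset.card ≤ Real.exp (A₀ * K * K₂ * K₁ * (1 / η) * l ^ 3) := by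
      have h2 : (N : ℝ) ^ hfin.toFinset.card = Real.exp (hfin.toFinset.card * Real.log N) := by
        rw [Real.exp_nat_mul, Real.exp_log hN0]
      rw [h2]
      apply Real.exp_le_exp.2
      calc (hfin.toFinset.card : ℝ) * Real.log N ≤ (A₀ * U * Real.log (2 + U)) * (K₁ * l) :=
            mul_le_mul hcard hlogN hlogN0 ((Nat.cast_nonneg _).trans hcard)
        _ ≤ (A₀ * U * (K₂ * l)) * (K₁ * l) := by
            apply mul_le_mul_of_nonneg_right _ (by positivity)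
            apply mul_le_mul_of_nonneg_left hlogU
            have : 0 < U := by linarith only [hη, hη2, hU4]
            positivity
        _ = A₀ * K * K₂ * K₁ * (1 / η) * l ^ 3 := by
            rw [hU]
            field_simp
    rw [← hl]
    have h3 := mul_le_mul_of_nonneg_right h1 (by linarith only [hη, hη2, hτ₀] : (0 : ℝ) ≤ τ₀)
    linarith only [hfin, hτ2, h3]
  · -- the sum
    have hsumt : Summable (fun γ : Zr => if U < |(γ : ℝ)| then ‖a η γ‖ else 0) := by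
      refine Summable.of_nonneg_of_le (fun γ => ?_) (fun γ => ?_) hsum
      · split_ifs
        · exact norm_nonneg _
        · exact le_rfl
      · split_ifs
        · exact le_rfl
        · exact norm_nonneg _
    have hpt : ∀ γ : Zr, ‖a η γ‖ * ‖Complex.exp (((γ : ℝ) * τ : ℝ) * I) - 1‖ ≤
        2 * Real.pi / N * ‖a η γ‖ + 2 * (if U < |(γ : ℝ)| then ‖a η γ‖ else 0) := by
      intro γ
      have h0 : 0 ≤ ‖a η γ‖ := norm_nonneg _
      by_cases hγ : U < |(γ : ℝ)|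
      · rw [if_pos hγ]
        have h1 : ‖Complex.exp (((γ : ℝ) * τ : ℝ) * I) - 1‖ ≤ 2 := by
          refine (norm_sub_le _ _).trans ?_
          rw [Complex.norm_exp_ofReal_mul_I, norm_one]
          norm_num
        have h2 := mul_le_mul_of_nonneg_left h1 h0
        have h3 : 0 ≤ 2 * Real.pi / N * ‖a η γ‖ := by positivity
        linarith only [h2, h3]
      · rw [if_neg hγ]
        have h1 := hτ3 (γ : ℝ) ((hfin.mem_toFinset).2 ⟨γ.2, not_lt.1 hγ⟩)
        have h2 := mul_le_mul_of_nonneg_left h1 h0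
        linarith only [h2]
    have hsR : Summable (fun γ : Zr => 2 * Real.pi / N * ‖a η γ‖ +
        2 * (if U < |(γ : ℝ)| then ‖a η γ‖ else 0)) := (hsum.mul_left _).add (hsumt.mul_left _)
    have hsL : Summable (fun γ : Zr => ‖a η γ‖ * ‖Complex.exp (((γ : ℝ) * τ : ℝ) * I) - 1‖) :=
      Summable.of_nonneg_of_le (fun γ => mul_nonneg (norm_nonneg _) (norm_nonneg _)) hpt hsR
    have h1 := hsL.tsum_le_tsum hpt hsR
    rw [(hsum.mul_left _).tsum_add (hsumt.mul_left _), tsum_mul_left, tsum_mul_left] at h1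
    have h2 : 2 * Real.pi / N * ∑' γ : Zr, ‖a η γ‖ ≤ η ^ 2 / 2 := by
      have h3 : 2 * Real.pi / N * ∑' γ : Zr, ‖a η γ‖ ≤ 2 * Real.pi / N * (D * (1 / η) ^ m) :=
        mul_le_mul_of_nonneg_left hsumle (by positivity)
      have h4 : 2 * Real.pi / N * (D * (1 / η) ^ m) ≤ η ^ 2 / 2 := by
        rw [div_mul_eq_mul_div, div_le_iff₀ hN0]
        have h5 : 2 * Real.pi * (D * (1 / η) ^ m) = η ^ 2 / 2 * (4 * Real.pi * D * (1 / η) ^ (m + 2)) := by
          rw [pow_add]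
          field_simp
          ring
        rw [h5]
        exact mul_le_mul_of_nonneg_left hNge (by positivity)
      exact h3.trans h4
    have h5 : 2 * ∑' γ : Zr, (if U < |(γ : ℝ)| then ‖a η γ‖ else 0) ≤ η ^ 2 / 2 := by
      linarith only [htailU, htail2]
    linarith only [htailU, htail2, h1, h2]

end Pool.Agent.H82.GY

end

section

/-!
GY module WLow: integrals of `Mz²` and `|Mz|` against powers, from `WB`. (Adapt `GX/Low.lean`, `tail_sq` and `tail_abs`.)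

(1) General lemma: let `G : ℝ → ℝ` be nonnegative, interval integrable on every interval, and `∫_X^{2X} G ≤ D X²` for
`X ≥ 1`. Then for `0 < s ≤ 3`: `x ↦ G x · x^(-2-2s)` is integrable on `(1,∞)` with integral `≤ 4 D / s`. The proof is
word for word that of `tail_sq` in `GX/Low.lean` (only there `G = Mz²`).
(2) `wtail_sq`: for `0 < σ ≤ 3` apply (1) with `G x = Mz x² · x^(-σ)` (on `x ≥ 1`; put `G x = Mz x² · (max x 1)^(-σ)` to
have it defined and integrable everywhere) and `s = σ / 2`: `∫_X^{2X} G ≤ X^(-σ) ∫_X^{2X} Mz² ≤ C X² X^(-σ) √(1 + log X)`,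
and `√(1 + log X) ≤ 2 σ^(-1/2) X^(σ/2)` because `σ (1 + log X) ≤ 3 + σ log X ≤ 3 + X^σ ≤ 4 X^σ` (`log y ≤ y`). So
`D = 2 C σ^(-1/2)` and the integral is `≤ 8 D / σ = 16 C σ^(-3/2)`.
(3) `wtail_abs`: `|Mz| x^(-3/2-σ) ≤ (Mz² x^(-2-σ) + x^(-1-σ)) / 2` (AM-GM) as in `GX/Low.lean`; use (2) with `σ/2` and
`1/σ ≤ 2 σ^(-3/2)` (`σ ≤ 3`, `√3 ≤ 2`).
-/

set_option autoImplicit false

namespace Pool.Agent.H82.GY

open MeasureTheory Set Complex Filter Topology
open Pool.Agent.H56.GX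

private theorem WLow_tail_int (σ a b : ℝ) (ha : 1 ≤ a) (hab : a ≤ b) :
    IntervalIntegrable (fun x : ℝ => (Mz x) ^ 2 * x ^ (-2 - 2 * σ)) volume a b := by
  apply (Mz_sq_intervalIntegrable a b).mul_continuousOn
  apply ContinuousOn.rpow_const continuousOn_id
  intro x hx
  left
  rw [uIcc_of_le hab] at hx
  have := hx.1
  simp only [id_eq]
  intro h0
  linarith

private theorem WLow_geom (σ : ℝ) (hσ : 0 < σ) (hσ3 : σ ≤ 3) (n : ℕ) :
    ∑ k ∈ Finset.range n, ((4 : ℝ) ^ (-σ)) ^ k ≤ 4 / σ := by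
  have hq0 : 0 ≤ (4 : ℝ) ^ (-σ) := Real.rpow_nonneg (by norm_num) _
  have hq1 : (4 : ℝ) ^ (-σ) < 1 := Real.rpow_lt_one_of_one_lt_of_neg (by norm_num) (by linarith)
  have h1 : ∑ k ∈ Finset.range n, ((4 : ℝ) ^ (-σ)) ^ k ≤ (1 - (4 : ℝ) ^ (-σ))⁻¹ := by
    have hs := summable_geometric_of_lt_one hq0 hq1
    have := hs.sum_le_tsum (Finset.range n) (fun k _ => pow_nonneg hq0 k)
    rwa [tsum_geometric_of_lt_one hq0 hq1] at this
  refine h1.trans ?_
  have h2 : 1 + σ ≤ (4 : ℝ) ^ σ := by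
    have h3 : (4 : ℝ) ^ σ = Real.exp (Real.log 4 * σ) := Real.rpow_def_of_pos (by norm_num) σ
    have h4 : (1 : ℝ) ≤ Real.log 4 := by
      rw [Real.le_log_iff_exp_le (by norm_num)]
      have := Real.exp_one_lt_d9
      linarith
    rw [h3]
    have h5 := Real.add_one_le_exp (Real.log 4 * σ)
    nlinarith
  have h6 : (4 : ℝ) ^ (-σ) ≤ 1 / (1 + σ) := by
    rw [Real.rpow_neg (by norm_num), ← one_div]
    exact one_div_le_one_div_of_le (by linarith) h2
  have h7 : σ / 4 ≤ 1 - (4 : ℝ) ^ (-σ) := by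
    have h8 : 1 - 1 / (1 + σ) = σ / (1 + σ) := by
      field_simp
      ring
    have h9 : σ / 4 ≤ σ / (1 + σ) := by
      apply div_le_div_of_nonneg_left hσ.le (by linarith) (by linarith)
    linarith
  have h10 : (1 - (4 : ℝ) ^ (-σ))⁻¹ ≤ (σ / 4)⁻¹ := by
    apply inv_anti₀ (by positivity) h7
  rwa [inv_div] at h10

private theorem WLow_sqrt (X σ : ℝ) (hX : 1 ≤ X) (hσ : 0 < σ) (hσ3 : σ ≤ 3) :
    Real.sqrt (1 + Real.log X) ≤ 2 * σ ^ (-(1 / 2) : ℝ) * X ^ σ := by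
  have hX0 : (0 : ℝ) < X := by linarith
  have h1 : (1 : ℝ) ≤ X ^ σ := Real.one_le_rpow hX hσ.le
  have h2 : σ * Real.log X ≤ X ^ σ - 1 := by
    rw [← Real.log_rpow hX0]
    exact Real.log_le_sub_one_of_pos (by positivity)
  have h3 : (0 : ℝ) ≤ 2 * σ ^ (-(1 / 2) : ℝ) * X ^ σ := by positivity
  rw [Real.sqrt_le_left h3]
  have h4 : (σ ^ (-(1 / 2) : ℝ)) ^ 2 = σ⁻¹ := by
    rw [← Real.rpow_natCast, ← Real.rpow_mul hσ.le]
    norm_num
    rw [Real.rpow_neg_one]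
  have h5 : (2 * σ ^ (-(1 / 2) : ℝ) * X ^ σ) ^ 2 = σ⁻¹ * (4 * (X ^ σ) ^ 2) := by
    rw [mul_pow, mul_pow, h4]
    ring
  rw [h5]
  have h6 : σ * (1 + Real.log X) ≤ 4 * (X ^ σ) ^ 2 := by nlinarith
  calc 1 + Real.log X = σ⁻¹ * (σ * (1 + Real.log X)) := by field_simp
    _ ≤ σ⁻¹ * (4 * (X ^ σ) ^ 2) := mul_le_mul_of_nonneg_left h6 (by positivity)

private theorem WLow_tail_bound (C : ℝ) (hC : 1 ≤ C) (h : WB C) (σ : ℝ) (hσ : 0 < σ)
    (hσ3 : σ ≤ 3) (n : ℕ) : ∫ x in (1 : ℝ)..2 ^ n, (Mz x) ^ 2 * x ^ (-2 - 2 * σ) ≤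
      (2 * C * σ ^ (-(1 / 2) : ℝ)) * ∑ k ∈ Finset.range n, ((4 : ℝ) ^ (-(σ / 2))) ^ k := by
  induction n with
  | zero => simp
  | succ n ih =>
    have hp1 : (1 : ℝ) ≤ 2 ^ n := one_le_pow₀ (by norm_num)
    have hp2 : (2 : ℝ) ^ n ≤ 2 ^ (n + 1) := by
      rw [pow_succ]
      linarith
    have h1 : ∫ x in (1 : ℝ)..2 ^ (n + 1), (Mz x) ^ 2 * x ^ (-2 - 2 * σ) =
        (∫ x in (1 : ℝ)..2 ^ n, (Mz x) ^ 2 * x ^ (-2 - 2 * σ)) +
          ∫ x in (2 : ℝ) ^ n..2 ^ (n + 1), (Mz x) ^ 2 * x ^ (-2 - 2 * σ) :=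
      (intervalIntegral.integral_add_adjacent_intervals (WLow_tail_int σ _ _ le_rfl hp1)
        (WLow_tail_int σ _ _ hp1 hp2)).symm
    have h2 : ∫ x in (2 : ℝ) ^ n..2 ^ (n + 1), (Mz x) ^ 2 * x ^ (-2 - 2 * σ) ≤
        ∫ x in (2 : ℝ) ^ n..2 ^ (n + 1), (Mz x) ^ 2 * ((2 : ℝ) ^ n) ^ (-2 - 2 * σ) := by
      apply intervalIntegral.integral_mono_on hp2 (WLow_tail_int σ _ _ hp1 hp2)
      · exact (Mz_sq_intervalIntegrable _ _).mul_const _
      · intro x hx
        apply mul_le_mul_of_nonneg_left _ (sq_nonneg _)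
        apply Real.rpow_le_rpow_of_nonpos (by linarith) hx.1 (by linarith)
    have h3 : ∫ x in (2 : ℝ) ^ n..2 ^ (n + 1), (Mz x) ^ 2 * ((2 : ℝ) ^ n) ^ (-2 - 2 * σ) =
        (∫ x in (2 : ℝ) ^ n..2 * 2 ^ n, (Mz x) ^ 2) * ((2 : ℝ) ^ n) ^ (-2 - 2 * σ) := by
      rw [intervalIntegral.integral_mul_const, pow_succ, mul_comm (2 ^ n : ℝ) 2]
    have h4 : ∫ x in (2 : ℝ) ^ n..2 * 2 ^ n, (Mz x) ^ 2 ≤
        (C * ((2 : ℝ) ^ n) ^ 2) * (2 * σ ^ (-(1 / 2) : ℝ) * ((2 : ℝ) ^ n) ^ σ) :=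
      (h (2 ^ n) hp1).trans
        (mul_le_mul_of_nonneg_left (WLow_sqrt _ σ hp1 hσ hσ3) (by positivity))
    have h5 : ((C * ((2 : ℝ) ^ n) ^ 2) * (2 * σ ^ (-(1 / 2) : ℝ) * ((2 : ℝ) ^ n) ^ σ)) *
        ((2 : ℝ) ^ n) ^ (-2 - 2 * σ) =
          (2 * C * σ ^ (-(1 / 2) : ℝ)) * ((4 : ℝ) ^ (-(σ / 2))) ^ n := by
      have hpos : (0 : ℝ) < 2 ^ n := by positivity
      have e1 : ((2 : ℝ) ^ n) ^ σ * ((2 : ℝ) ^ n) ^ (-2 - 2 * σ) =
          (((2 : ℝ) ^ n) ^ 2)⁻¹ * ((4 : ℝ) ^ (-(σ / 2))) ^ n := by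
        rw [← Real.rpow_add hpos]
        have e2 : (σ + (-2 - 2 * σ) : ℝ) = -((2 : ℕ) : ℝ) + (2 * -(σ / 2)) := by
          push_cast
          ring
        rw [e2, Real.rpow_add hpos, Real.rpow_neg hpos.le, Real.rpow_natCast]
        congr 1
        rw [← Real.rpow_natCast 2 n, ← Real.rpow_mul (by norm_num),
          ← Real.rpow_natCast ((4 : ℝ) ^ (-(σ / 2))) n, ← Real.rpow_mul (by norm_num)]
        have e3 : (4 : ℝ) = (2 : ℝ) ^ (2 : ℝ) := by norm_num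
        rw [e3, ← Real.rpow_mul (by norm_num)]
        congr 1
        ring
      calc ((C * ((2 : ℝ) ^ n) ^ 2) * (2 * σ ^ (-(1 / 2) : ℝ) * ((2 : ℝ) ^ n) ^ σ)) *
          ((2 : ℝ) ^ n) ^ (-2 - 2 * σ) =
            (2 * C * σ ^ (-(1 / 2) : ℝ)) * (((2 : ℝ) ^ n) ^ 2 *
              (((2 : ℝ) ^ n) ^ σ * ((2 : ℝ) ^ n) ^ (-2 - 2 * σ))) := by ring
        _ = _ := by
          rw [e1]
          field_simp
    have h6 : (∫ x in (2 : ℝ) ^ n..2 * 2 ^ n, (Mz x) ^ 2) * ((2 : ℝ) ^ n) ^ (-2 - 2 * σ) ≤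
        ((C * ((2 : ℝ) ^ n) ^ 2) * (2 * σ ^ (-(1 / 2) : ℝ) * ((2 : ℝ) ^ n) ^ σ)) *
          ((2 : ℝ) ^ n) ^ (-2 - 2 * σ) :=
      mul_le_mul_of_nonneg_right h4 (Real.rpow_nonneg (by positivity) _)
    rw [h1, Finset.sum_range_succ, mul_add]
    rw [h5] at h6
    rw [h3] at h2
    exact add_le_add ih (h2.trans h6)

private theorem WLow_pow (σ : ℝ) (hσ : 0 < σ) :
    σ ^ (-(1 / 2) : ℝ) * σ⁻¹ = σ ^ (-(3 / 2) : ℝ) := by
  rw [← Real.rpow_neg_one, ← Real.rpow_add hσ]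
  norm_num

theorem wtail_sq (C : ℝ) (hC : 1 ≤ C) (h : WB C) : ∃ C' : ℝ, 0 < C' ∧ ∀ σ : ℝ, 0 < σ → σ ≤ 3 →
    IntegrableOn (fun x : ℝ => (Mz x) ^ 2 * x ^ (-2 - 2 * σ)) (Ioi 1) ∧
      ∫ x in Ioi (1 : ℝ), (Mz x) ^ 2 * x ^ (-2 - 2 * σ) ≤ C' * σ ^ (-(3 / 2) : ℝ) := by
  refine ⟨16 * C, by positivity, fun σ hσ hσ3 => ?_⟩
  have hb : Tendsto (fun n : ℕ => (2 : ℝ) ^ n) atTop atTop :=
    tendsto_pow_atTop_atTop_of_one_lt (by norm_num)
  have hp1 : ∀ n : ℕ, (1 : ℝ) ≤ 2 ^ n := fun n => one_le_pow₀ (by norm_num)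
  have hbound : ∀ n : ℕ, ∫ x in (1 : ℝ)..2 ^ n, (Mz x) ^ 2 * x ^ (-2 - 2 * σ) ≤
      16 * C * σ ^ (-(3 / 2) : ℝ) := by
    intro n
    refine (WLow_tail_bound C hC h σ hσ hσ3 n).trans ?_
    have h1 := mul_le_mul_of_nonneg_left (WLow_geom (σ / 2) (by linarith) (by linarith) n)
      (by positivity : (0 : ℝ) ≤ 2 * C * σ ^ (-(1 / 2) : ℝ))
    refine h1.trans (le_of_eq ?_)
    rw [← WLow_pow σ hσ]
    field_simp
    ring
  have hint : IntegrableOn (fun x : ℝ => (Mz x) ^ 2 * x ^ (-2 - 2 * σ)) (Ioi 1) := by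
    apply integrableOn_Ioi_of_intervalIntegral_norm_bounded (l := atTop)
      (16 * C * σ ^ (-(3 / 2) : ℝ)) 1 (b := fun n : ℕ => (2 : ℝ) ^ n)
    · intro n
      exact (WLow_tail_int σ 1 (2 ^ n) le_rfl (hp1 n)).1
    · exact hb
    · apply Filter.Eventually.of_forall
      intro n
      refine le_trans (le_of_eq ?_) (hbound n)
      apply intervalIntegral.integral_congr
      intro x hx
      rw [uIcc_of_le (hp1 n)] at hx
      have hx0 : (0 : ℝ) < x := by linarith [hx.1]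
      exact Real.norm_of_nonneg (by positivity)
  refine ⟨hint, ?_⟩
  have ht := intervalIntegral_tendsto_integral_Ioi 1 hint hb
  exact le_of_tendsto ht (Filter.Eventually.of_forall hbound)

theorem wtail_abs (C : ℝ) (hC : 1 ≤ C) (h : WB C) : ∃ C' : ℝ, 0 < C' ∧ ∀ σ : ℝ, 0 < σ → σ ≤ 3 →
    IntegrableOn (fun x : ℝ => |Mz x| * x ^ (-(3 / 2) - σ)) (Ioi 1) ∧
      ∫ x in Ioi (1 : ℝ), |Mz x| * x ^ (-(3 / 2) - σ) ≤ C' * σ ^ (-(3 / 2) : ℝ) := by
  obtain ⟨C', hC', hC''⟩ := wtail_sq C hC h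
  refine ⟨2 * C' + 1, by positivity, fun σ hσ hσ3 => ?_⟩
  obtain ⟨hi1, hb1⟩ := hC'' (σ / 2) (by linarith) (by linarith)
  have hi2 : IntegrableOn (fun x : ℝ => x ^ (-1 - σ)) (Ioi 1) :=
    integrableOn_Ioi_rpow_of_lt (by linarith) one_pos
  have hb2 : ∫ x in Ioi (1 : ℝ), x ^ (-1 - σ) = 1 / σ := by
    rw [integral_Ioi_rpow_of_lt (by linarith) one_pos, Real.one_rpow]
    have : -1 - σ + 1 = -σ := by ring
    rw [this, neg_div_neg_eq]
  set g : ℝ → ℝ := fun x => ((Mz x) ^ 2 * x ^ (-2 - 2 * (σ / 2)) + x ^ (-1 - σ)) / 2 with hg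
  have hgi : IntegrableOn g (Ioi 1) := (hi1.add hi2).div_const 2
  have hle : ∀ x : ℝ, x ∈ Ioi (1 : ℝ) → |Mz x| * x ^ (-(3 / 2) - σ) ≤ g x := by
    intro x hx
    have hx0 : (0 : ℝ) < x := lt_trans one_pos hx
    have e1 : x ^ (-(3 / 2) - σ) = x ^ (-1 - σ / 2) * x ^ (-(1 / 2) - σ / 2) := by
      rw [← Real.rpow_add hx0]
      congr 1
      ring
    have e2 : x ^ (-2 - 2 * (σ / 2)) = x ^ (-1 - σ / 2) * x ^ (-1 - σ / 2) := by
      rw [← Real.rpow_add hx0]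
      congr 1
      ring
    have e3 : x ^ (-1 - σ) = x ^ (-(1 / 2) - σ / 2) * x ^ (-(1 / 2) - σ / 2) := by
      rw [← Real.rpow_add hx0]
      congr 1
      ring
    rw [hg]
    simp only
    rw [e1, e2, e3, ← sq_abs (Mz x)]
    nlinarith [sq_nonneg (|Mz x| * x ^ (-1 - σ / 2) - x ^ (-(1 / 2) - σ / 2))]
  have hmeas : AEStronglyMeasurable (fun x : ℝ => |Mz x| * x ^ (-(3 / 2) - σ))
      (volume.restrict (Ioi (1 : ℝ))) := by
    apply Measurable.aestronglyMeasurable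
    exact (Mz_measurable.abs).mul (measurable_id.pow_const _)
  have hint : IntegrableOn (fun x : ℝ => |Mz x| * x ^ (-(3 / 2) - σ)) (Ioi 1) := by
    refine Integrable.mono' hgi hmeas ?_
    rw [ae_restrict_iff' measurableSet_Ioi]
    apply Filter.Eventually.of_forall
    intro x hx
    have hx0 : (0 : ℝ) < x := lt_trans one_pos hx
    rw [Real.norm_of_nonneg (by positivity)]
    exact hle x hx
  refine ⟨hint, ?_⟩
  have h1 : ∫ x in Ioi (1 : ℝ), |Mz x| * x ^ (-(3 / 2) - σ) ≤ ∫ x in Ioi (1 : ℝ), g x :=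
    setIntegral_mono_on hint hgi measurableSet_Ioi hle
  have h2 : ∫ x in Ioi (1 : ℝ), g x =
      ((∫ x in Ioi (1 : ℝ), (Mz x) ^ 2 * x ^ (-2 - 2 * (σ / 2))) +
        ∫ x in Ioi (1 : ℝ), x ^ (-1 - σ)) / 2 := by
    rw [hg, integral_div, integral_add hi1 hi2]
  rw [h2, hb2] at h1
  refine h1.trans ?_
  have h3 : (σ / 2) ^ (-(3 / 2) : ℝ) ≤ 4 * σ ^ (-(3 / 2) : ℝ) := by
    rw [Real.div_rpow hσ.le (by norm_num)]
    have h5 : (1 / 4 : ℝ) ≤ (2 : ℝ) ^ (-(3 / 2) : ℝ) := by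
      have h6 : (1 / 4 : ℝ) = (2 : ℝ) ^ (-2 : ℝ) := by
        rw [Real.rpow_neg (by norm_num)]
        norm_num
      rw [h6]
      exact Real.rpow_le_rpow_of_exponent_le (by norm_num) (show (-2 : ℝ) ≤ -(3 / 2) by norm_num)
    rw [div_le_iff₀ (by positivity)]
    have h7 : 0 ≤ σ ^ (-(3 / 2) : ℝ) := by positivity
    nlinarith
  have h4 : 1 / σ ≤ 2 * σ ^ (-(3 / 2) : ℝ) := by
    rw [← WLow_pow σ hσ, one_div]
    have h5 : (1 / 2 : ℝ) ≤ σ ^ (-(1 / 2) : ℝ) := by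
      have h6 : (1 / 2 : ℝ) = (4 : ℝ) ^ (-(1 / 2) : ℝ) := by
        rw [Real.rpow_neg (by norm_num), ← Real.sqrt_eq_rpow]
        have h8 : (4 : ℝ) = 2 ^ 2 := by norm_num
        rw [h8, Real.sqrt_sq (by norm_num)]
        norm_num
      exact h6.le.trans
        (Real.rpow_le_rpow_of_nonpos hσ (show σ ≤ 4 by linarith) (by norm_num))
    have h7 : 0 < σ⁻¹ := by positivity
    nlinarith
  have h5 : C' * (σ / 2) ^ (-(3 / 2) : ℝ) ≤ C' * (4 * σ ^ (-(3 / 2) : ℝ)) :=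
    mul_le_mul_of_nonneg_left h3 hC'.le
  have h6 := hb1.trans h5
  linarith

end Pool.Agent.H82.GY

end

section

/-!
GX module FEq: `s ζ(s) F(s) = 1` for `Re s > 1`.

Mathlib: `LSeries_eq_mul_integral` (file `Mathlib/NumberTheory/LSeries/SumCoeff.lean`) applied to
`f n = μ(n)` with `r = 1` gives `LSeries μ s = s * ∫_{Ioi 1} (∑_{k ≤ ⌊t⌋₊} μ(k)) * t^(-(s+1))`
(partial sums are `O(n)` since `|μ| ≤ 1`), which is `s * F s` (check the exponent: `-s - 1`);
and `LSeries ζ * LSeries μ = 1`: `ArithmeticFunction.LSeries_zeta_mul_Lseries_moebius` (for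
`1 < s.re`), with `ArithmeticFunction.LSeries_zeta_eq_riemannZeta`.
-/

set_option autoImplicit false

namespace Pool.Agent.H56.GX

open MeasureTheory Set Complex Filter Topology

theorem F_eq (s : ℂ) (hs : 1 < s.re) : s * riemannZeta s * F s = 1 := by
  have hbig : (fun n : ℕ => ∑ k ∈ Finset.Icc 1 n,
      ‖(fun m : ℕ => ((ArithmeticFunction.moebius m : ℤ) : ℂ)) k‖) =O[atTop]
      fun n : ℕ => (n : ℝ) ^ (1 : ℝ) := by
    refine Asymptotics.isBigO_of_le _ (fun n => ?_)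
    rw [Real.rpow_one, Real.norm_of_nonneg (Finset.sum_nonneg fun _ _ => norm_nonneg _),
      Real.norm_of_nonneg (Nat.cast_nonneg n)]
    have h1 : ∀ k ∈ Finset.Icc 1 n,
        ‖(fun m : ℕ => ((ArithmeticFunction.moebius m : ℤ) : ℂ)) k‖ ≤ 1 := by
      intro k _
      have h2 : |ArithmeticFunction.moebius k| ≤ 1 := ArithmeticFunction.abs_moebius_le_one
      simp only [Complex.norm_intCast]
      exact_mod_cast h2
    refine (Finset.sum_le_sum h1).trans (le_of_eq ?_)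
    simp
  have h1 := LSeries_eq_mul_integral' (fun m : ℕ => ((ArithmeticFunction.moebius m : ℤ) : ℂ))
    zero_le_one hs hbig
  have h2 : ∫ t in Set.Ioi (1 : ℝ),
      (∑ k ∈ Finset.Icc 1 ⌊t⌋₊, ((ArithmeticFunction.moebius k : ℤ) : ℂ)) *
        (t : ℂ) ^ (-(s + 1)) = F s := by
    rw [F]
    apply MeasureTheory.integral_congr_ae
    filter_upwards with t
    simp only [Mz]
    push_cast
    congr 2
    ring
  rw [h2] at h1
  have h3 := ArithmeticFunction.LSeries_zeta_mul_Lseries_moebius hs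
  rw [ArithmeticFunction.LSeries_zeta_eq_riemannZeta hs] at h3
  have h4 : LSeries (fun m : ℕ => ((ArithmeticFunction.moebius m : ℤ) : ℂ)) s = s * F s := h1
  rw [h4] at h3
  rw [← h3]
  ring

end Pool.Agent.H56.GX

end

section

/-!
GY module WF: under `WB`, `F` is holomorphic in `Re s > 1/2`, `‖F s‖ ≤ C₁ (Re s - 1/2)^(-3/2)`, and
`s ζ(s) F(s) = 1` for `s ≠ 1`. Copy `GX/FHol.lean` and `GX/FId.lean` (in them replace `tail_abs` by `wtail_abs`, i.e.
only integrability and the new bound are used); the private lemmas there can be copied too.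
-/

set_option autoImplicit false

namespace Pool.Agent.H82.GY

open MeasureTheory Set Complex Filter Topology
open Pool.Agent.H56.GX

private theorem WF_norm (s : ℂ) {x : ℝ} (hx : 0 < x) :
    ‖(Mz x : ℂ) * (x : ℂ) ^ (-s - 1)‖ = |Mz x| * x ^ (-s.re - 1) := by
  rw [norm_mul, Complex.norm_real, Real.norm_eq_abs, Complex.norm_cpow_eq_rpow_re_of_pos hx]
  simp

private theorem WF_meas (s : ℂ) :
    Measurable fun x : ℝ => (Mz x : ℂ) * (x : ℂ) ^ (-s - 1) :=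
  (Complex.measurable_ofReal.comp Mz_measurable).mul (Complex.measurable_ofReal.pow_const _)

private theorem WF_int {s : ℂ} {σ : ℝ} (hσ : σ ≤ s.re - 1 / 2)
    (hi : IntegrableOn (fun x : ℝ => |Mz x| * x ^ (-(3 / 2) - σ)) (Ioi 1)) :
    IntegrableOn (fun x : ℝ => (Mz x : ℂ) * (x : ℂ) ^ (-s - 1)) (Ioi 1) := by
  refine Integrable.mono' hi (WF_meas s).aestronglyMeasurable ?_
  filter_upwards [ae_restrict_mem measurableSet_Ioi] with x hx
  have hx1 : (1 : ℝ) < x := hx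
  rw [WF_norm s (by linarith)]
  apply mul_le_mul_of_nonneg_left _ (abs_nonneg _)
  apply Real.rpow_le_rpow_of_exponent_le hx1.le
  linarith

theorem wF_diff (C : ℝ) (hC : 1 ≤ C) (h : WB C) :
    DifferentiableOn ℂ F {s : ℂ | 1 / 2 < s.re} := by
  obtain ⟨C', hC', ht⟩ := wtail_abs C hC h
  intro s₀ hs₀
  have hs : 1 / 2 < s₀.re := hs₀
  apply DifferentiableAt.differentiableWithinAt
  set σ : ℝ := min (s₀.re - 1 / 2) 3 with hσ
  have hσ0 : 0 < σ := lt_min (by linarith) (by norm_num)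
  have hσ3 : σ ≤ 3 := min_le_right _ _
  have hσs : σ ≤ s₀.re - 1 / 2 := min_le_left _ _
  have hi0 := (ht σ hσ0 hσ3).1
  have hi4 := (ht (σ / 4) (by linarith) (by linarith)).1
  have hball : Metric.ball s₀ (σ / 2) ∈ 𝓝 s₀ := Metric.ball_mem_nhds s₀ (by linarith)
  have key := hasDerivAt_integral_of_dominated_loc_of_deriv_le (μ := volume.restrict (Ioi (1 : ℝ)))
    (F := fun (s : ℂ) (x : ℝ) => (Mz x : ℂ) * (x : ℂ) ^ (-s - 1))
    (F' := fun (s : ℂ) (x : ℝ) => (Mz x : ℂ) * ((x : ℂ) ^ (-s - 1) * Complex.log x * (-1)))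
    (x₀ := s₀) (bound := fun x : ℝ => (4 / σ) * (|Mz x| * x ^ (-(3 / 2) - σ / 4)))
    hball (Eventually.of_forall fun s => (WF_meas s).aestronglyMeasurable)
    (WF_int hσs hi0)
    (((Complex.measurable_ofReal.comp Mz_measurable).mul
      (((Complex.measurable_ofReal.pow_const _).mul
        (Complex.measurable_log.comp Complex.measurable_ofReal)).mul_const _)).aestronglyMeasurable)
    ?_ (hi4.const_mul _) ?_
  · exact key.2.differentiableAt
  · filter_upwards [ae_restrict_mem measurableSet_Ioi] with x hx s hsb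
    have hx1 : (1 : ℝ) < x := hx
    have hx0 : 0 < x := by linarith
    have hre : s₀.re - σ / 2 < s.re := by
      have h1 : |(s - s₀).re| ≤ ‖s - s₀‖ := Complex.abs_re_le_norm _
      have h2 : ‖s - s₀‖ < σ / 2 := by
        rw [← dist_eq_norm]
        exact hsb
      have h3 := (abs_le.1 h1).1
      rw [Complex.sub_re] at h3
      linarith
    have hlog : ‖Complex.log (x : ℂ)‖ = Real.log x := by
      rw [← Complex.ofReal_log hx0.le, Complex.norm_real,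
        Real.norm_of_nonneg (Real.log_nonneg hx1.le)]
    have hn : ‖(Mz x : ℂ) * ((x : ℂ) ^ (-s - 1) * Complex.log x * (-1))‖ =
        |Mz x| * (x ^ (-s.re - 1) * Real.log x) := by
      rw [norm_mul, norm_mul, norm_mul, hlog, Complex.norm_real, Real.norm_eq_abs,
        Complex.norm_cpow_eq_rpow_re_of_pos hx0, norm_neg, norm_one, mul_one]
      simp
    rw [hn]
    have h4 : x ^ (-s.re - 1) ≤ x ^ (-(3 / 2) - σ / 2) := by
      apply Real.rpow_le_rpow_of_exponent_le hx1.le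
      linarith
    have h5 : Real.log x ≤ x ^ (σ / 4) / (σ / 4) := Real.log_le_rpow_div hx0.le (by linarith)
    have h6 : x ^ (-s.re - 1) * Real.log x ≤ x ^ (-(3 / 2) - σ / 2) * (x ^ (σ / 4) / (σ / 4)) :=
      mul_le_mul h4 h5 (Real.log_nonneg hx1.le) (Real.rpow_nonneg hx0.le _)
    have h7 : x ^ (-(3 / 2) - σ / 2) * x ^ (σ / 4) = x ^ (-(3 / 2) - σ / 4) := by
      rw [← Real.rpow_add hx0]
      congr 1
      ring
    calc |Mz x| * (x ^ (-s.re - 1) * Real.log x)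
        ≤ |Mz x| * (x ^ (-(3 / 2) - σ / 2) * (x ^ (σ / 4) / (σ / 4))) :=
          mul_le_mul_of_nonneg_left h6 (abs_nonneg _)
      _ = (4 / σ) * (|Mz x| * (x ^ (-(3 / 2) - σ / 2) * x ^ (σ / 4))) := by
          field_simp
      _ = (4 / σ) * (|Mz x| * x ^ (-(3 / 2) - σ / 4)) := by rw [h7]
  · filter_upwards [ae_restrict_mem measurableSet_Ioi] with x hx s _
    have hx1 : (1 : ℝ) < x := hx
    have hx0 : (x : ℂ) ≠ 0 := by
      have : x ≠ 0 := by linarith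
      exact_mod_cast this
    have hd : HasDerivAt (fun s : ℂ => -s - 1) (-1) s := ((hasDerivAt_id s).neg).sub_const 1
    exact (hd.const_cpow (Or.inl hx0)).const_mul _

theorem wF_norm (C : ℝ) (hC : 1 ≤ C) (h : WB C) : ∃ C₁ : ℝ, 0 < C₁ ∧
    ∀ s : ℂ, 1 / 2 < s.re → s.re ≤ 7 / 2 → ‖F s‖ ≤ C₁ * (s.re - 1 / 2) ^ (-(3 / 2) : ℝ) := by
  obtain ⟨C', hC', ht⟩ := wtail_abs C hC h
  refine ⟨C', hC', fun s hs hs2 => ?_⟩
  obtain ⟨hi, hb⟩ := ht (s.re - 1 / 2) (by linarith) (by linarith)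
  refine le_trans ?_ hb
  rw [F]
  refine (norm_integral_le_integral_norm _).trans (le_of_eq ?_)
  apply setIntegral_congr_fun measurableSet_Ioi
  intro x hx
  have hx1 : (1 : ℝ) < x := hx
  have hx0 : 0 < x := by linarith
  change ‖(Mz x : ℂ) * (x : ℂ) ^ (-s - 1)‖ = |Mz x| * x ^ (-(3 / 2) - (s.re - 1 / 2))
  rw [WF_norm s hx0]
  congr 2
  ring

/-- The domain. -/
private def WF_U : Set ℂ := {s : ℂ | 1 / 2 < s.re ∧ s ≠ 1}

private theorem WF_isOpen : IsOpen WF_U :=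
  (isOpen_lt continuous_const Complex.continuous_re).inter isOpen_ne

private theorem WF_preconnected : IsPreconnected WF_U := by
  set A : Set ℂ := {s | 1 / 2 < s.re} ∩ {s | 0 < s.im} with hA
  set B : Set ℂ := {s | 1 < s.re} with hB
  set C : Set ℂ := {s | 1 / 2 < s.re} ∩ {s | s.im < 0} with hC
  set D : Set ℂ := {s | 1 / 2 < s.re} ∩ {s | s.re < 1} with hD
  have pA : IsPreconnected A :=
    ((convex_halfSpace_re_gt _).inter (convex_halfSpace_im_gt _)).isPreconnected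
  have pB : IsPreconnected B := (convex_halfSpace_re_gt _).isPreconnected
  have pC : IsPreconnected C :=
    ((convex_halfSpace_re_gt _).inter (convex_halfSpace_im_lt _)).isPreconnected
  have pD : IsPreconnected D :=
    ((convex_halfSpace_re_gt _).inter (convex_halfSpace_re_lt _)).isPreconnected
  have h1 : IsPreconnected (A ∪ B) := by
    refine pA.union (⟨2, 1⟩ : ℂ) ?_ ?_ pB
    · constructor
      · simp; norm_num
      · simp
    · simp [hB]
  have h2 : IsPreconnected ((A ∪ B) ∪ C) := by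
    refine h1.union (⟨2, -1⟩ : ℂ) ?_ ?_ pC
    · right; simp [hB]
    · constructor
      · simp; norm_num
      · simp
  have h3 : IsPreconnected (((A ∪ B) ∪ C) ∪ D) := by
    refine h2.union (⟨3 / 4, 1⟩ : ℂ) ?_ ?_ pD
    · left; left
      constructor
      · change (1 / 2 : ℝ) < 3 / 4
        norm_num
      · change (0 : ℝ) < 1
        norm_num
    · constructor
      · change (1 / 2 : ℝ) < 3 / 4
        norm_num
      · change (3 / 4 : ℝ) < 1
        norm_num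
  have h4 : ((A ∪ B) ∪ C) ∪ D = WF_U := by
    ext s
    simp only [hA, hB, hC, hD, WF_U, mem_union, mem_inter_iff, mem_ofPred_eq]
    constructor
    · rintro (((⟨h1, h2⟩ | h) | ⟨h1, h2⟩) | ⟨h1, h2⟩)
      · exact ⟨h1, by rintro rfl; simp at h2⟩
      · exact ⟨by linarith, by rintro rfl; simp at h⟩
      · exact ⟨h1, by rintro rfl; simp at h2⟩
      · exact ⟨h1, by rintro rfl; simp at h2⟩
    · rintro ⟨h1, h2⟩
      by_cases him : s.im = 0
      · rcases lt_trichotomy s.re 1 with h | h | h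
        · exact Or.inr ⟨h1, h⟩
        · exact absurd (Complex.ext h (by simpa using him)) h2
        · exact Or.inl (Or.inl (Or.inr h))
      · rcases lt_or_gt_of_ne him with h | h
        · exact Or.inl (Or.inr ⟨h1, h⟩)
        · exact Or.inl (Or.inl (Or.inl ⟨h1, h⟩))
  rw [← h4]
  exact h3

theorem wF_ident (C : ℝ) (hC : 1 ≤ C) (h : WB C) (s : ℂ) (hs : 1 / 2 < s.re) (hs1 : s ≠ 1) :
    s * riemannZeta s * F s = 1 := by
  have hf : AnalyticOnNhd ℂ (fun s => s * riemannZeta s * F s) WF_U := by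
    apply DifferentiableOn.analyticOnNhd _ WF_isOpen
    intro z hz
    have hF : DifferentiableAt ℂ F z :=
      (wF_diff C hC h).differentiableAt
        ((isOpen_lt continuous_const Complex.continuous_re).mem_nhds hz.1)
    exact ((differentiableAt_id.mul (differentiableAt_riemannZeta hz.2)).mul
      hF).differentiableWithinAt
  have hg : AnalyticOnNhd ℂ (fun _ : ℂ => (1 : ℂ)) WF_U := fun z _ => analyticAt_const
  have heq := hf.eqOn_of_preconnected_of_eventuallyEq hg WF_preconnected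
    (z₀ := 2) ⟨by norm_num, by norm_num⟩ (by
      have : {s : ℂ | 1 < s.re} ∈ nhds (2 : ℂ) :=
        (isOpen_lt continuous_const Complex.continuous_re).mem_nhds (by simp)
      filter_upwards [this] with z hz
      exact F_eq z hz)
  exact heq ⟨hs, hs1⟩

theorem wF_inv (C : ℝ) (hC : 1 ≤ C) (h : WB C) (s : ℂ) (hs : 1 / 2 < s.re) (hs1 : s ≠ 1) :
    riemannZeta s ≠ 0 ∧ F s = (s * riemannZeta s)⁻¹ := by
  have h1 := wF_ident C hC h s hs hs1
  refine ⟨?_, ?_⟩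
  · intro h0
    rw [h0] at h1
    simp at h1
  · exact eq_inv_of_mul_eq_one_right h1

end Pool.Agent.H82.GY

end

section

/-!
GY module WRes: under `WB` the zeros on the critical line are simple, with residues of polynomial size.

Main estimate. Let `γ ∈ Zr`, `ρ = 1/2 + iγ`, `0 < δ ≤ 1/8`. By `wF_ident` and `wF_norm` at `s = ρ + δ`:
`1 = ‖s‖ ‖ζ(s)‖ ‖F s‖ ≤ (2 + |γ|) ‖ζ(ρ+δ)‖ C₁ δ^(-3/2)`, so `‖ζ(ρ+δ)‖ ≥ δ^(3/2) / (C₁ (2 + |γ|))`.     (*)
(1) `wzeta_simple`: if `ζ'(ρ) = 0` then `‖ζ(ρ+δ)‖ ≤ M δ²` for small `δ > 0` with some `M` (`ζ` is analytic at `ρ`; e.g.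
`(hasFPowerSeries...).isBigO`, or: `D = dslope ζ ρ` is differentiable near `ρ` with `D ρ = ζ'(ρ) = 0`, so
`‖D(ρ+δ)‖ ≤ M δ`, and `ζ(ρ+δ) = δ D(ρ+δ)`). With (*): `δ^(3/2)/(C₁(2+|γ|)) ≤ M δ²` for all small `δ`: false.
(2) `wres_poly`: for `|γ| ≥ 2`: `D = dslope ζ ρ` is holomorphic on a neighbourhood of the closed ball `B(ρ, 1/2)`
(`1` is not in it), with `‖D‖ ≤ 2 · 8 (1+|γ|)²` on the sphere (`‖ζ‖ ≤ 8 (1+|γ|)²` on the ball: see `zder_large` in `GX/ZDer.lean`, from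
`Pool.Agent.H95.GC.zeta_growth`), hence on the ball (maximum principle), so by Schwarz
(`Complex.dist_le_div_mul_dist_of_mapsTo_ball`) or Cauchy: `‖D(ρ+δ) - D(ρ)‖ ≤ 128 (1+|γ|)² δ` for `δ ≤ 1/8` (any absolute
constant is fine). As `ζ(ρ+δ) = δ D(ρ+δ)` and `D(ρ) = ζ'(ρ)`, (*) gives
`‖ζ'(ρ)‖ ≥ δ^(1/2)/(C₁(2+|γ|)) - 128 (1+|γ|)² δ`. Choose `δ^(1/2) = c₀ / (1+|γ|)^3` with a small constant `c₀ > 0`: then
`‖ζ'(ρ)‖ ≥ c₁ / (1+|γ|)^4`, and `‖r γ‖ = ‖ρ ζ'(ρ)‖⁻¹ ≤ (2/c₁) (1+|γ|)^4`.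
For `|γ| < 2` there are finitely many `γ ∈ Zr` (`zr_finite` is in `GX/Contour.lean`; prove it directly from
`IsCompact.inter_riemannZetaZeros_finite`, or use compactness): take the maximum. `k = 4` works; the statement is existential.
-/

set_option autoImplicit false

namespace Pool.Agent.H82.GY

open MeasureTheory Set Complex Filter Topology
open Pool.Agent.H56.GX

private theorem wRes_ne (γ : ℝ) : (1 / 2 + γ * I : ℂ) ≠ 1 := by
  intro h
  have := congrArg Complex.re h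
  norm_num at this

private theorem wRes_star (C₁ : ℝ) (hF : ∀ s : ℂ, 1 / 2 < s.re → s.re ≤ 7 / 2 →
    ‖F s‖ ≤ C₁ * (s.re - 1 / 2) ^ (-(3 / 2) : ℝ))
    (hid : ∀ s : ℂ, 1 / 2 < s.re → s ≠ 1 → s * riemannZeta s * F s = 1)
    (γ x : ℝ) (hx : 0 < x) (hx3 : x ≤ 1 / 3) :
    x ^ 3 ≤ C₁ * (2 + |γ|) * ‖riemannZeta (1 / 2 + γ * I + ((x ^ 2 : ℝ) : ℂ))‖ := by
  set s : ℂ := 1 / 2 + γ * I + ((x ^ 2 : ℝ) : ℂ) with hs
  have hx2 : 0 < x ^ 2 := by positivity
  have hx9 : x ^ 2 ≤ 1 / 9 := by nlinarith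
  have hre : s.re = 1 / 2 + x ^ 2 := by
    rw [hs, add_re, add_re, ofReal_re, mul_re, ofReal_re, ofReal_im, I_re, I_im]
    norm_num
  have hs1 : s ≠ 1 := by
    intro h
    rw [h, one_re] at hre
    linarith
  have h1 := hid s (by rw [hre]; linarith) hs1
  have h2 := hF s (by rw [hre]; linarith) (by rw [hre]; linarith)
  have hpow : (s.re - 1 / 2) ^ (-(3 / 2) : ℝ) = (x ^ 3)⁻¹ := by
    rw [hre, add_sub_cancel_left, ← Real.rpow_natCast x 2, ← Real.rpow_mul hx.le]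
    have e : ((2 : ℕ) : ℝ) * (-(3 / 2)) = -((3 : ℕ) : ℝ) := by norm_num
    rw [e, Real.rpow_neg hx.le, Real.rpow_natCast]
  rw [hpow] at h2
  have hnorm : ‖s‖ ≤ 2 + |γ| := by
    rw [hs]
    refine (norm_add_le _ _).trans ?_
    have e1 : ‖(1 / 2 + γ * I : ℂ)‖ ≤ 1 / 2 + |γ| := by
      refine (norm_add_le _ _).trans ?_
      rw [norm_mul, Complex.norm_I, mul_one, Complex.norm_real, Real.norm_eq_abs]
      norm_num
    have e2 : ‖((x ^ 2 : ℝ) : ℂ)‖ = x ^ 2 := by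
      rw [Complex.norm_real, Real.norm_eq_abs, abs_of_pos hx2]
    rw [e2]
    linarith
  have h3 : ‖s‖ * ‖riemannZeta s‖ * ‖F s‖ = 1 := by
    rw [← norm_mul, ← norm_mul, h1, norm_one]
  have h4 : (1 : ℝ) ≤ (2 + |γ|) * ‖riemannZeta s‖ * (C₁ * (x ^ 3)⁻¹) := by
    rw [← h3]
    refine mul_le_mul (mul_le_mul_of_nonneg_right hnorm (norm_nonneg _)) h2 (norm_nonneg _) ?_
    have := abs_nonneg γ
    positivity
  have hx30 : 0 < x ^ 3 := by positivity
  calc x ^ 3 = 1 * x ^ 3 := (one_mul _).symm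
    _ ≤ ((2 + |γ|) * ‖riemannZeta s‖ * (C₁ * (x ^ 3)⁻¹)) * x ^ 3 :=
        mul_le_mul_of_nonneg_right h4 hx30.le
    _ = C₁ * (2 + |γ|) * ‖riemannZeta s‖ := by
        field_simp

private theorem wRes_dslope (γ x : ℝ) (hγ : riemannZeta (1 / 2 + γ * I) = 0) :
    riemannZeta (1 / 2 + γ * I + ((x ^ 2 : ℝ) : ℂ)) =
      ((x ^ 2 : ℝ) : ℂ) * dslope riemannZeta (1 / 2 + γ * I)
        (1 / 2 + γ * I + ((x ^ 2 : ℝ) : ℂ)) := by
  have h := sub_smul_dslope riemannZeta (1 / 2 + γ * I : ℂ) (1 / 2 + γ * I + ((x ^ 2 : ℝ) : ℂ))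
  rw [hγ, sub_zero, add_sub_cancel_left, smul_eq_mul] at h
  exact h.symm

private theorem wRes_diff (c : ℂ) (hc : c ≠ 1) (U : Set ℂ) (hU : U ∈ 𝓝 c) (h1 : (1 : ℂ) ∉ U) :
    DifferentiableOn ℂ (dslope riemannZeta c) U := by
  rw [Complex.differentiableOn_dslope hU]
  intro z hz
  refine (differentiableAt_riemannZeta ?_).differentiableWithinAt
  rintro rfl
  exact h1 hz

theorem wzeta_simple (C : ℝ) (hC : 1 ≤ C) (h : WB C) (γ : ℝ) (hγ : γ ∈ Zr) :
    deriv riemannZeta (1 / 2 + γ * I) ≠ 0 := by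
  intro h0
  obtain ⟨C₁, hC₁, hF⟩ := wF_norm C hC h
  have hstar := wRes_star C₁ hF (wF_ident C hC h) γ
  have hz : riemannZeta (1 / 2 + γ * I) = 0 := hγ
  set ρ : ℂ := 1 / 2 + γ * I with hρ
  have hρ1 : ρ ≠ 1 := wRes_ne γ
  have hd : DifferentiableAt ℂ (dslope riemannZeta ρ) ρ :=
    (wRes_diff ρ hρ1 ({1}ᶜ) (isOpen_compl_singleton.mem_nhds hρ1) (by simp)).differentiableAt
      (isOpen_compl_singleton.mem_nhds hρ1)
  have hO := hd.isBigO_sub
  rw [dslope_same, h0] at hO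
  obtain ⟨M, hM⟩ := hO.bound
  have htend : Tendsto (fun x : ℝ => ρ + ((x ^ 2 : ℝ) : ℂ)) (𝓝[>] 0) (𝓝 ρ) := by
    have hc : Continuous fun x : ℝ => ρ + ((x ^ 2 : ℝ) : ℂ) := by fun_prop
    have := hc.tendsto 0
    simp only [ne_eq, OfNat.ofNat_ne_zero, not_false_eq_true, zero_pow, ofReal_zero,
      add_zero] at this
    exact this.mono_left nhdsWithin_le_nhds
  have hev := htend.eventually hM
  have hB : 0 < C₁ * (2 + |γ|) * (|M| + 1) := by
    have := abs_nonneg γ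
    have := abs_nonneg M
    positivity
  have hsmall : ∀ᶠ x : ℝ in 𝓝[>] 0, x < min (1 / 3) (1 / (C₁ * (2 + |γ|) * (|M| + 1))) :=
    Filter.Eventually.filter_mono nhdsWithin_le_nhds (Iio_mem_nhds (lt_min (by norm_num)
      (by positivity)))
  obtain ⟨x, ⟨hx1, hx2⟩, hx0⟩ := ((hev.and hsmall).and self_mem_nhdsWithin).exists
  have hx0' : (0 : ℝ) < x := hx0
  have k1 := hstar x hx0' ((hx2.le).trans (min_le_left _ _))
  rw [wRes_dslope γ x hz, norm_mul] at k1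
  rw [sub_zero, add_sub_cancel_left] at hx1
  have e2 : ‖((x ^ 2 : ℝ) : ℂ)‖ = x ^ 2 := by
    rw [Complex.norm_real, Real.norm_eq_abs, abs_of_pos (by positivity)]
  rw [e2] at hx1 k1
  have k2 : ‖dslope riemannZeta ρ (ρ + ((x ^ 2 : ℝ) : ℂ))‖ ≤ (|M| + 1) * x ^ 2 := by
    refine hx1.trans (mul_le_mul_of_nonneg_right ?_ (by positivity))
    linarith [le_abs_self M]
  have k3 : x ^ 3 ≤ (C₁ * (2 + |γ|) * (|M| + 1) * x) * x ^ 3 := by
    refine k1.trans ?_
    have h1 : x ^ 2 * ‖dslope riemannZeta ρ (ρ + ((x ^ 2 : ℝ) : ℂ))‖ ≤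
        x ^ 2 * ((|M| + 1) * x ^ 2) := mul_le_mul_of_nonneg_left k2 (by positivity)
    have h2 : 0 ≤ C₁ * (2 + |γ|) := by
      have := abs_nonneg γ
      positivity
    calc C₁ * (2 + |γ|) * (x ^ 2 * ‖dslope riemannZeta ρ (ρ + ((x ^ 2 : ℝ) : ℂ))‖)
        ≤ C₁ * (2 + |γ|) * (x ^ 2 * ((|M| + 1) * x ^ 2)) := mul_le_mul_of_nonneg_left h1 h2
      _ = (C₁ * (2 + |γ|) * (|M| + 1) * x) * x ^ 3 := by ring
  have k4 : C₁ * (2 + |γ|) * (|M| + 1) * x < 1 := by
    have := lt_of_lt_of_le hx2 (min_le_right _ _)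
    rw [lt_div_iff₀ hB] at this
    linarith
  have hx3 : 0 < x ^ 3 := by positivity
  have := mul_lt_mul_of_pos_right k4 hx3
  linarith

private theorem wRes_ball (γ : ℝ) (hγ : 2 ≤ |γ|) (z : ℂ)
    (hz : z ∈ Metric.closedBall (1 / 2 + γ * I : ℂ) (1 / 2)) :
    0 ≤ z.re ∧ 1 ≤ |z.im| ∧ ‖z‖ ≤ 1 + |γ| := by
  rw [Metric.mem_closedBall, dist_eq_norm] at hz
  have h1 := (Complex.abs_re_le_norm (z - (1 / 2 + γ * I))).trans hz
  have h2 := (Complex.abs_im_le_norm (z - (1 / 2 + γ * I))).trans hz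
  have e1 : (z - (1 / 2 + γ * I)).re = z.re - 1 / 2 := by simp
  have e2 : (z - (1 / 2 + γ * I)).im = z.im - γ := by simp
  rw [e1] at h1
  rw [e2] at h2
  refine ⟨by linarith [(abs_le.1 h1).1], ?_, ?_⟩
  · have h3 : |γ| ≤ |z.im| + |z.im - γ| := by
      have := abs_sub_abs_le_abs_sub γ z.im
      rw [abs_sub_comm] at this
      linarith
    linarith
  · have h4 : ‖z‖ ≤ ‖z - (1 / 2 + γ * I)‖ + ‖(1 / 2 + γ * I : ℂ)‖ := by
      have := norm_add_le (z - (1 / 2 + γ * I)) (1 / 2 + γ * I : ℂ)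
      rwa [sub_add_cancel] at this
    have h5 : ‖(1 / 2 + γ * I : ℂ)‖ ≤ 1 / 2 + |γ| := by
      refine (norm_add_le _ _).trans ?_
      rw [norm_mul, Complex.norm_I, mul_one, Complex.norm_real, Real.norm_eq_abs]
      norm_num
    linarith

private theorem wRes_lip (γ : ℝ) (hγ : 2 ≤ |γ|) (hz : riemannZeta (1 / 2 + γ * I) = 0)
    (z : ℂ) (hzb : z ∈ Metric.ball (1 / 2 + γ * I : ℂ) (1 / 2)) :
    ‖dslope riemannZeta (1 / 2 + γ * I) z - deriv riemannZeta (1 / 2 + γ * I)‖ ≤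
      64 * (1 + |γ|) ^ 2 * ‖z - (1 / 2 + γ * I)‖ := by
  set ρ : ℂ := 1 / 2 + γ * I with hρ
  have hγ0 := abs_nonneg γ
  have hρ1 : ρ ≠ 1 := wRes_ne γ
  have h1 : (1 : ℂ) ∉ Metric.closedBall ρ (1 / 2) := by
    intro h
    have := (wRes_ball γ hγ 1 h).2.1
    simp at this
    linarith
  have hdc : DifferentiableOn ℂ (dslope riemannZeta ρ) (Metric.closedBall ρ (1 / 2)) :=
    wRes_diff ρ hρ1 _ (Metric.closedBall_mem_nhds ρ (by norm_num)) h1
  have hdcc : DiffContOnCl ℂ (dslope riemannZeta ρ) (Metric.ball ρ (1 / 2)) := by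
    apply DifferentiableOn.diffContOnCl
    rw [closure_ball _ (by norm_num)]
    exact hdc
  have hfr : ∀ w ∈ frontier (Metric.ball ρ (1 / 2)), ‖dslope riemannZeta ρ w‖ ≤
      16 * (1 + |γ|) ^ 2 := by
    intro w hw
    rw [frontier_ball _ (by norm_num)] at hw
    obtain ⟨g1, g2, g3⟩ := wRes_ball γ hγ w (Metric.sphere_subset_closedBall hw)
    have h4 := Pool.Agent.H95.GC.zeta_growth w (by linarith) g2
    have h5 : (1 + ‖w‖) ^ 2 ≤ (2 * (1 + |γ|)) ^ 2 :=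
      pow_le_pow_left₀ (by positivity) (by linarith) 2
    have h6 : ‖w - ρ‖ = 1 / 2 := by
      rwa [mem_sphere_iff_norm] at hw
    have h7 := congrArg norm (sub_smul_dslope riemannZeta ρ w)
    rw [norm_smul, h6, hz, sub_zero] at h7
    have h8 : ‖dslope riemannZeta ρ w‖ = 2 * ‖riemannZeta w‖ := by linarith
    rw [h8]
    nlinarith
  have hmax : ∀ w ∈ Metric.closedBall ρ (1 / 2), ‖dslope riemannZeta ρ w‖ ≤
      16 * (1 + |γ|) ^ 2 := by
    intro w hw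
    refine Complex.norm_le_of_forall_mem_frontier_norm_le Metric.isBounded_ball hdcc hfr ?_
    rwa [closure_ball _ (by norm_num)]
  have hmaps : MapsTo (dslope riemannZeta ρ) (Metric.ball ρ (1 / 2))
      (Metric.closedBall (dslope riemannZeta ρ ρ) (32 * (1 + |γ|) ^ 2)) := by
    intro w hw
    rw [Metric.mem_closedBall, dist_eq_norm]
    refine (norm_sub_le _ _).trans ?_
    have a1 := hmax w (Metric.ball_subset_closedBall hw)
    have a2 := hmax ρ (Metric.mem_closedBall_self (by norm_num))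
    linarith
  have hfin := Complex.dist_le_div_mul_dist_of_mapsTo_ball
    (hdc.mono Metric.ball_subset_closedBall) hmaps hzb
  rw [dist_eq_norm, dist_eq_norm, dslope_same] at hfin
  refine hfin.trans (le_of_eq ?_)
  ring

private theorem wRes_large (C₁ : ℝ) (hC₁ : 0 < C₁)
    (hF : ∀ s : ℂ, 1 / 2 < s.re → s.re ≤ 7 / 2 →
      ‖F s‖ ≤ C₁ * (s.re - 1 / 2) ^ (-(3 / 2) : ℝ))
    (hid : ∀ s : ℂ, 1 / 2 < s.re → s ≠ 1 → s * riemannZeta s * F s = 1)
    (c₀ : ℝ) (hc₀ : 0 < c₀) (hc1 : c₀ ≤ 1 / 3) (hc2 : 256 * C₁ * c₀ ≤ 1)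
    (γ : ℝ) (hγ : 2 ≤ |γ|) (hz : riemannZeta (1 / 2 + γ * I) = 0) :
    ‖r γ‖ ≤ 8 * C₁ / c₀ * (1 + |γ|) ^ 4 := by
  have hγ0 := abs_nonneg γ
  set g : ℝ := 1 + |γ| with hg
  have hg1 : 1 ≤ g := by linarith
  have hg0 : 0 < g := by linarith
  set x : ℝ := c₀ / g ^ 3 with hx
  have hx0 : 0 < x := by positivity
  have hg3 : 1 ≤ g ^ 3 := one_le_pow₀ hg1
  have hxc : x ≤ c₀ := div_le_self hc₀.le hg3
  have hx13 : x ≤ 1 / 3 := hxc.trans hc1
  have k1 := wRes_star C₁ hF hid γ x hx0 hx13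
  rw [wRes_dslope γ x hz, norm_mul] at k1
  have e2 : ‖((x ^ 2 : ℝ) : ℂ)‖ = x ^ 2 := by
    rw [Complex.norm_real, Real.norm_eq_abs, abs_of_pos (by positivity)]
  have hx9 : x ^ 2 < 1 / 2 := by nlinarith
  have hmem : (1 / 2 + γ * I + ((x ^ 2 : ℝ) : ℂ)) ∈ Metric.ball (1 / 2 + γ * I : ℂ) (1 / 2) := by
    rw [Metric.mem_ball, dist_eq_norm, add_sub_cancel_left, e2]
    exact hx9
  have k2 := wRes_lip γ hγ hz _ hmem
  rw [add_sub_cancel_left, e2, ← hg] at k2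
  rw [e2] at k1
  set D := dslope riemannZeta (1 / 2 + γ * I) (1 / 2 + γ * I + ((x ^ 2 : ℝ) : ℂ)) with hD
  set Z := deriv riemannZeta (1 / 2 + γ * I) with hZ
  have k3 : ‖D‖ ≤ ‖Z‖ + 64 * g ^ 2 * x ^ 2 := by
    have := norm_le_norm_add_norm_sub' D Z
    linarith
  have hx2 : 0 < x ^ 2 := by positivity
  have k4 : x ≤ 2 * C₁ * g * ‖D‖ := by
    have h1 : x ^ 2 * x ≤ x ^ 2 * (2 * C₁ * g * ‖D‖) := by
      calc x ^ 2 * x = x ^ 3 := by ring
        _ ≤ C₁ * (2 + |γ|) * (x ^ 2 * ‖D‖) := k1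
        _ ≤ C₁ * (2 * g) * (x ^ 2 * ‖D‖) := by
            refine mul_le_mul_of_nonneg_right (mul_le_mul_of_nonneg_left ?_ hC₁.le)
              (by positivity)
            linarith
        _ = x ^ 2 * (2 * C₁ * g * ‖D‖) := by ring
    exact le_of_mul_le_mul_left h1 hx2
  have k5 : 2 * C₁ * g * (64 * g ^ 2 * x ^ 2) ≤ x / 2 := by
    have hgx : g ^ 3 * x = c₀ := by
      rw [hx]
      field_simp
    calc 2 * C₁ * g * (64 * g ^ 2 * x ^ 2) = 128 * C₁ * (g ^ 3 * x) * x := by ring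
      _ = (256 * C₁ * c₀) * (x / 2) := by rw [hgx]; ring
      _ ≤ 1 * (x / 2) := mul_le_mul_of_nonneg_right hc2 (by positivity)
      _ = x / 2 := one_mul _
  have k6 : x ≤ 4 * C₁ * g * ‖Z‖ := by
    have : 2 * C₁ * g * ‖D‖ ≤ 2 * C₁ * g * (‖Z‖ + 64 * g ^ 2 * x ^ 2) :=
      mul_le_mul_of_nonneg_left k3 (by positivity)
    linarith
  have hZ0 : 0 < ‖Z‖ := by
    by_contra hcon
    have hZz : ‖Z‖ = 0 := le_antisymm (not_lt.1 hcon) (norm_nonneg _)
    rw [hZz, mul_zero] at k6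
    linarith
  have hρ : (1 : ℝ) / 2 ≤ ‖(1 / 2 + γ * I : ℂ)‖ := by
    have := Complex.abs_re_le_norm (1 / 2 + γ * I : ℂ)
    have e : (1 / 2 + γ * I : ℂ).re = 1 / 2 := by simp
    rw [e] at this
    refine le_trans ?_ this
    rw [abs_of_pos (by norm_num)]
  unfold r
  rw [← hZ, norm_inv, norm_mul]
  have hpos : 0 < ‖(1 / 2 + γ * I : ℂ)‖ * ‖Z‖ := by positivity
  rw [inv_le_comm₀ hpos (by positivity)]
  have k7 : (8 * C₁ / c₀ * g ^ 4)⁻¹ = (1 / 2) * (x / (4 * C₁ * g)) := by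
    rw [hx]
    field_simp
    norm_num
  rw [k7]
  refine mul_le_mul hρ ?_ (by positivity) (norm_nonneg _)
  rw [div_le_iff₀ (by positivity)]
  linarith

private theorem wRes_finite (T : ℝ) : {γ : ℝ | γ ∈ Zr ∧ |γ| < T}.Finite := by
  have hinj : Function.Injective (fun γ : ℝ => (1 / 2 : ℂ) + γ * I) := by
    intro γ γ' h
    have := congrArg Complex.im h
    simpa using this
  have hc : IsCompact (Metric.closedBall (0 : ℂ) (1 + |T|)) := isCompact_closedBall _ _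
  have hf := hc.inter_riemannZetaZeros_finite
  refine Set.Finite.of_finite_image (f := fun γ : ℝ => (1 / 2 : ℂ) + γ * I) (hf.subset ?_)
    hinj.injOn
  rintro _ ⟨γ, ⟨h1, h2⟩, rfl⟩
  refine ⟨?_, h1⟩
  rw [mem_closedBall_zero_iff]
  refine (norm_add_le _ _).trans ?_
  have e1 : ‖(1 / 2 : ℂ)‖ = 1 / 2 := by norm_num
  have e2 : ‖(γ : ℂ) * I‖ = |γ| := by simp
  rw [e1, e2]
  have := le_abs_self T
  linarith

theorem wres_poly (C : ℝ) (hC : 1 ≤ C) (h : WB C) : ∃ (A : ℝ) (k : ℕ), 0 < A ∧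
    ∀ γ ∈ Zr, ‖r γ‖ ≤ A * (1 + |γ|) ^ k := by
  obtain ⟨C₁, hC₁, hF⟩ := wF_norm C hC h
  obtain ⟨M, hM⟩ := ((wRes_finite 2).image (fun γ => ‖r γ‖)).bddAbove
  set c₀ : ℝ := min (1 / 3) (1 / (256 * C₁)) with hc₀
  have h1 : 0 < c₀ := lt_min (by norm_num) (by positivity)
  have h2 : c₀ ≤ 1 / 3 := min_le_left _ _
  have h3 : 256 * C₁ * c₀ ≤ 1 := by
    have : c₀ ≤ 1 / (256 * C₁) := min_le_right _ _
    rw [le_div_iff₀ (by positivity)] at this
    linarith
  refine ⟨max M 0 + 8 * C₁ / c₀, 4, by positivity, fun γ hγ => ?_⟩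
  have hγ0 := abs_nonneg γ
  have h4 : (1 : ℝ) ≤ (1 + |γ|) ^ 4 := one_le_pow₀ (by linarith)
  have h5 : 0 ≤ max M 0 := le_max_right _ _
  have h6 : 0 < 8 * C₁ / c₀ := by positivity
  rcases le_or_gt 2 |γ| with hg | hg
  · refine (wRes_large C₁ hC₁ hF (wF_ident C hC h) c₀ h1 h2 h3 γ hg hγ).trans ?_
    refine mul_le_mul_of_nonneg_right ?_ (by positivity)
    linarith
  · have h7 : ‖r γ‖ ≤ M := hM ⟨γ, ⟨hγ, hg⟩, rfl⟩
    have h8 : ‖r γ‖ ≤ max M 0 + 8 * C₁ / c₀ := by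
      have := le_max_left M 0
      linarith
    refine h8.trans ?_
    exact le_mul_of_one_le_right (by positivity) h4

end Pool.Agent.H82.GY

end

section

/-!
GY module WContour: the residue theorem under `WB`. Copy `contour` (and the private lemmas it uses) of `GX/Contour.lean` with
`F_inv`, `zeta_simple` replaced by `wF_inv`, `wzeta_simple`; `fc`, `zr_finite`, `res_lim`, `rect_residue` are imported.
-/

set_option autoImplicit false

namespace Pool.Agent.H82.GY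

open MeasureTheory Set Complex Filter Topology
open Pool.Agent.H56.GX

private lemma WContour_phi_re (γ : ℝ) : ((1 / 2 : ℂ) + γ * I).re = 1 / 2 := by
  simp

private lemma WContour_phi_im (γ : ℝ) : ((1 / 2 : ℂ) + γ * I).im = γ := by
  simp

private lemma WContour_phi_inj : Function.Injective (fun γ : ℝ => (1 / 2 : ℂ) + γ * I) := by
  intro γ γ' h
  have := congrArg Complex.im h
  simpa using this

private lemma WContour_class (C : ℝ) (hC : 1 ≤ C) (h : WB C) (s : ℂ) (h1 : -(1 / 2) ≤ s.re)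
    (hz : riemannZeta s = 0) : s = (1 / 2 : ℂ) + s.im * I := by
  have hs1 : s ≠ 1 := by
    rintro rfl
    exact riemannZeta_one_ne_zero hz
  have hre : s.re = 1 / 2 := by
    rcases lt_trichotomy s.re (1 / 2) with hlt | heq | hgt
    · exfalso
      refine zeta_left_ne s h1 hlt ?_ hz
      by_cases h0 : 1 - s = 1
      · rw [h0]; exact riemannZeta_one_ne_zero
      · refine (wF_inv C hC h (1 - s) ?_ h0).1
        rw [sub_re, one_re]; linarith
    · exact heq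
    · exact absurd hz (wF_inv C hC h s hgt hs1).1
  apply Complex.ext
  · rw [WContour_phi_re, hre]
  · rw [WContour_phi_im]

private lemma WContour_cont (η x : ℝ) (hx : 0 < x) : Continuous (fun s => K η s * (x : ℂ) ^ s) := by
  have hx0 : (x : ℂ) ≠ 0 := by exact_mod_cast hx.ne'
  exact (K_differentiable η).continuous.mul (continuous_id.const_cpow (Or.inl hx0))

private lemma WContour_lim_zero (η x : ℝ) (hx : 0 < x) :
    Tendsto (fun s => (s - 0) * fc η x s) (𝓝[≠] (0 : ℂ)) (𝓝 (-2 * K η 0)) := by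
  have hx0 : (x : ℂ) ≠ 0 := by exact_mod_cast hx.ne'
  have hz : ContinuousAt riemannZeta 0 := (differentiableAt_riemannZeta zero_ne_one).continuousAt
  have hz0 : riemannZeta 0 ≠ 0 := by rw [riemannZeta_zero]; norm_num
  have hcont : ContinuousAt (fun s => K η s * (x : ℂ) ^ s * (riemannZeta s)⁻¹) 0 :=
    (WContour_cont η x hx).continuousAt.mul (hz.inv₀ hz0)
  have hval : K η 0 * (x : ℂ) ^ (0 : ℂ) * (riemannZeta 0)⁻¹ = -2 * K η 0 := by
    rw [riemannZeta_zero, cpow_zero]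
    norm_num
    ring
  have hlim := hcont.tendsto.mono_left (nhdsWithin_le_nhds (s := {(0 : ℂ)}ᶜ))
  rw [hval] at hlim
  refine hlim.congr' ?_
  filter_upwards [self_mem_nhdsWithin] with s hs
  have hs0 : s ≠ 0 := hs
  rw [fc, mul_inv, sub_zero]
  field_simp

private lemma WContour_lim_one (η x : ℝ) (hx : 0 < x) :
    Tendsto (fun s => (s - 1) * fc η x s) (𝓝[≠] (1 : ℂ)) (𝓝 0) := by
  have h1 : Tendsto (fun s : ℂ => (s - 1) * ((s - 1) * riemannZeta s)⁻¹) (𝓝[≠] (1 : ℂ))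
      (𝓝 ((1 - 1) * 1⁻¹)) := by
    refine Tendsto.mul ?_ (riemannZeta_residue_one.inv₀ one_ne_zero)
    exact ((continuous_id.sub continuous_const).tendsto (1 : ℂ)).mono_left nhdsWithin_le_nhds
  have h2 : Tendsto (fun s : ℂ => (s - 1) * (K η s * (x : ℂ) ^ s) * s⁻¹) (𝓝[≠] (1 : ℂ))
      (𝓝 ((1 - 1) * (K η 1 * (x : ℂ) ^ (1 : ℂ)) * 1⁻¹)) := by
    refine Tendsto.mono_left ?_ nhdsWithin_le_nhds
    refine ContinuousAt.tendsto (f := fun s : ℂ => (s - 1) * (K η s * (x : ℂ) ^ s) * s⁻¹) ?_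
    exact ((continuous_id.sub continuous_const).continuousAt.mul
      (WContour_cont η x hx).continuousAt).mul (continuousAt_inv₀ one_ne_zero)
  have h3 := h2.mul h1
  rw [sub_self, zero_mul, zero_mul, zero_mul] at h3
  refine h3.congr' ?_
  filter_upwards [self_mem_nhdsWithin] with s hs
  have hs1 : s - 1 ≠ 0 := sub_ne_zero.2 hs
  rw [fc, mul_inv, mul_inv]
  field_simp

private lemma WContour_lim_zero' (η x γ : ℝ) (hx : 0 < x) (hγ : γ ∈ Zr)
    (hd : deriv riemannZeta (1 / 2 + γ * I) ≠ 0) :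
    Tendsto (fun s => (s - (1 / 2 + γ * I)) * fc η x s) (𝓝[≠] ((1 / 2 : ℂ) + γ * I))
      (𝓝 (a η γ * (x : ℂ) ^ (1 / 2 + γ * I : ℂ))) := by
  have h1 := ((WContour_cont η x hx).tendsto ((1 / 2 : ℂ) + γ * I)).mono_left
    (nhdsWithin_le_nhds (s := {(1 / 2 : ℂ) + γ * I}ᶜ))
  have h2 := h1.mul (res_lim γ hγ hd)
  have e : K η (1 / 2 + γ * I) * (x : ℂ) ^ (1 / 2 + γ * I : ℂ) * r γ =
      a η γ * (x : ℂ) ^ (1 / 2 + γ * I : ℂ) := by
    rw [a]; ring
  rw [e] at h2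
  refine h2.congr fun s => ?_
  rw [fc]; ring

theorem wcontour (C : ℝ) (hC : 1 ≤ C) (h : WB C) (η x T : ℝ) (hη : 0 < η) (hx : 0 < x)
    (hT : 0 < T)
    (hz : ∀ σ : ℝ, -(1 / 2) ≤ σ → σ ≤ 2 → riemannZeta (σ + T * I) ≠ 0 ∧ riemannZeta (σ - T * I) ≠ 0) :
    Rect (fc η x) (-(1 / 2)) 2 (-T) T = 2 * Real.pi * I *
      (-2 * K η 0 + ∑ γ ∈ (zr_finite T).toFinset, a η γ * (x : ℂ) ^ (1 / 2 + γ * I : ℂ)) := by
  classical
  have hx0 : (x : ℂ) ≠ 0 := by exact_mod_cast hx.ne'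
  set A : Finset ℝ := (zr_finite T).toFinset with hA
  have hAmem : ∀ γ : ℝ, γ ∈ A ↔ γ ∈ Zr ∧ |γ| < T := by
    intro γ
    rw [hA, Set.Finite.mem_toFinset, Set.mem_ofPred_eq]
  set S' : Finset ℂ := A.image (fun γ : ℝ => (1 / 2 : ℂ) + γ * I) with hS'
  set S : Finset ℂ := insert 0 (insert 1 S') with hS
  have h1S' : (1 : ℂ) ∉ S' := by
    rw [hS', Finset.mem_image]
    rintro ⟨γ, -, hγ⟩
    have := congrArg Complex.re hγ
    rw [WContour_phi_re, one_re] at this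
    norm_num at this
  have h0S' : (0 : ℂ) ∉ insert (1 : ℂ) S' := by
    rw [Finset.mem_insert, hS', Finset.mem_image]
    rintro (h0 | ⟨γ, -, hγ⟩)
    · exact zero_ne_one h0
    · have := congrArg Complex.re hγ
      rw [WContour_phi_re, zero_re] at this
      norm_num at this
  -- the open set
  have hcomp : IsCompact (Metric.closedBall (0 : ℂ) (T + 3)) := isCompact_closedBall _ _
  have hfin := hcomp.inter_riemannZetaZeros_finite
  set Z' : Set ℂ := (Metric.closedBall (0 : ℂ) (T + 3) ∩ riemannZetaZeros) \ (S : Set ℂ) with hZ'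
  have hZ'fin : Z'.Finite := hfin.subset sdiff_subset
  set U : Set ℂ := Metric.ball (0 : ℂ) (T + 3) \ Z' with hU
  have hUo : IsOpen U := Metric.isOpen_ball.sdiff hZ'fin.isClosed
  have hzero : ∀ s : ℂ, -(1 / 2) ≤ s.re → s.re ≤ 2 → -T ≤ s.im → s.im ≤ T → riemannZeta s = 0 →
      s ∈ S' := by
    intro s h1 h2 h3 h4 h5
    have hs := WContour_class C hC h s h1 h5
    have hh := hz (1 / 2) (by norm_num) (by norm_num)
    push_cast at hh
    have hne1 : s.im ≠ T := by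
      intro h6
      rw [h6] at hs
      rw [hs] at h5
      exact hh.1 h5
    have hne2 : s.im ≠ -T := by
      intro h6
      rw [h6] at hs
      rw [hs] at h5
      apply hh.2
      rw [← h5]
      congr 1
      push_cast
      ring
    rw [hS', Finset.mem_image]
    refine ⟨s.im, ?_, hs.symm⟩
    rw [hAmem]
    refine ⟨?_, abs_lt.2 ⟨lt_of_le_of_ne h3 (Ne.symm hne2), lt_of_le_of_ne h4 hne1⟩⟩
    change riemannZeta (1 / 2 + (s.im : ℂ) * I) = 0
    rw [← hs]; exact h5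
  have hR : ∀ s : ℂ, -(1 / 2) ≤ s.re → s.re ≤ 2 → -T ≤ s.im → s.im ≤ T → s ∈ U := by
    intro s h1 h2 h3 h4
    refine ⟨?_, ?_⟩
    · rw [mem_ball_zero_iff]
      have := Complex.norm_le_abs_re_add_abs_im s
      have e1 : |s.re| ≤ 2 := abs_le.2 ⟨by linarith, h2⟩
      have e2 : |s.im| ≤ T := abs_le.2 ⟨h3, h4⟩
      linarith
    · rintro ⟨⟨-, h5⟩, h6⟩
      apply h6
      have := hzero s h1 h2 h3 h4 h5
      rw [hS]
      exact Finset.mem_coe.2 (Finset.mem_insert_of_mem (Finset.mem_insert_of_mem this))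
  have hSin : ∀ w ∈ S, -(1 / 2) < w.re ∧ w.re < 2 ∧ -T < w.im ∧ w.im < T := by
    intro w hw
    rw [hS, Finset.mem_insert, Finset.mem_insert, hS', Finset.mem_image] at hw
    rcases hw with rfl | rfl | ⟨γ, hγ, rfl⟩
    · simp [hT]
    · refine ⟨by norm_num, by norm_num, by simpa using hT, by simpa using hT⟩
    · rw [hAmem] at hγ
      rw [WContour_phi_re, WContour_phi_im]
      have := abs_lt.1 hγ.2
      exact ⟨by norm_num, by norm_num, this.1, this.2⟩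
  have hdiff : DifferentiableOn ℂ (fc η x) (U \ (S : Set ℂ)) := by
    intro s hs
    have hsS : s ∉ S := fun h' => hs.2 (Finset.mem_coe.2 h')
    have hs0 : s ≠ 0 := by
      rintro rfl; exact hsS (by rw [hS]; exact Finset.mem_insert_self _ _)
    have hs1 : s ≠ 1 := by
      rintro rfl
      exact hsS (by rw [hS]; exact Finset.mem_insert_of_mem (Finset.mem_insert_self _ _))
    have hsz : riemannZeta s ≠ 0 := by
      intro h5
      apply hs.1.2
      exact ⟨⟨Metric.ball_subset_closedBall hs.1.1, h5⟩, hs.2⟩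
    have hd1 : DifferentiableAt ℂ riemannZeta s := differentiableAt_riemannZeta hs1
    refine DifferentiableAt.differentiableWithinAt ?_
    unfold fc
    refine DifferentiableAt.mul (DifferentiableAt.mul (K_differentiable η s) ?_) ?_
    · exact differentiableAt_id.const_cpow (Or.inl hx0)
    · exact (differentiableAt_id.mul hd1).inv (mul_ne_zero hs0 hsz)
  set ρ : ℂ → ℂ := fun s => if s = 0 then -2 * K η 0 else if s = 1 then 0 else
    a η s.im * (x : ℂ) ^ s with hρ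
  have hρphi : ∀ γ : ℝ, ρ ((1 / 2 : ℂ) + γ * I) = a η γ * (x : ℂ) ^ (1 / 2 + γ * I : ℂ) := by
    intro γ
    have e0 : (1 / 2 : ℂ) + γ * I ≠ 0 := by
      intro h'
      have := congrArg Complex.re h'
      rw [WContour_phi_re, zero_re] at this
      norm_num at this
    have e1 : (1 / 2 : ℂ) + γ * I ≠ 1 := by
      intro h'
      have := congrArg Complex.re h'
      rw [WContour_phi_re, one_re] at this
      norm_num at this
    rw [hρ]
    simp only [e0, e1, if_false, WContour_phi_im]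
  have hlim : ∀ w ∈ S, Tendsto (fun s => (s - w) * fc η x s) (𝓝[≠] w) (𝓝 (ρ w)) := by
    intro w hw
    rw [hS, Finset.mem_insert, Finset.mem_insert, hS', Finset.mem_image] at hw
    rcases hw with rfl | rfl | ⟨γ, hγ, rfl⟩
    · have : ρ 0 = -2 * K η 0 := by rw [hρ]; simp
      rw [this]
      exact WContour_lim_zero η x hx
    · have : ρ 1 = 0 := by rw [hρ]; simp
      rw [this]
      exact WContour_lim_one η x hx
    · rw [hρphi]
      rw [hAmem] at hγ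
      exact WContour_lim_zero' η x γ hx hγ.1 (wzeta_simple C hC h γ hγ.1)
  have key := rect_residue (-(1 / 2)) 2 (-T) T (by norm_num) (by linarith) U hUo hR S hSin
    (fc η x) ρ hdiff hlim
  rw [key, hS, Finset.sum_insert h0S', Finset.sum_insert h1S', hS',
    Finset.sum_image (fun _ _ _ _ h' => WContour_phi_inj h')]
  have e0 : ρ 0 = -2 * K η 0 := by rw [hρ]; simp
  have e1 : ρ 1 = 0 := by rw [hρ]; simp
  rw [e0, e1, zero_add]
  congr 2
  exact Finset.sum_congr rfl fun γ _ => hρphi γ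

end Pool.Agent.H82.GY

end

section

/-!
GX module FL2: under `SBound`, `∫_ℝ ‖F(1/2 + σ + it)‖² dt ≤ C₂ / σ` for `0 < σ ≤ 3`.

With `x = e^u`: `F(1/2+σ+it) = ∫_0^∞ f(u) e^{-itu} du`, `f(u) = Mz(e^u) e^{-(1/2+σ)u}` for `u > 0`, and
`∫ |f| = ∫_1^∞ |Mz| x^(-3/2-σ) dx < ∞` (`tail_abs`), `∫ f² = ∫_1^∞ Mz² x^(-2-2σ) dx ≤ C' / σ`
(`tail_sq`). Plancherel: `∫_ℝ |F(1/2+σ+it)|² dt = 2π ∫ f²`. Only `≤` is needed. Elementary proof:
for `ε > 0`, by Fubini (everything absolutely convergent since `f ∈ L¹` and the weight is Gaussian)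
`∫ |F|² e^{-ε t²} dt = ∬ f(u) f(v) (∫ e^{-εt²} e^{-it(u-v)} dt) du dv
   = ∬ f(u) f(v) √(π/ε) e^{-(u-v)²/(4ε)} du dv ≤ ∫ f(u)² (∫ √(π/ε) e^{-(u-v)²/(4ε)} dv) du = 2π ∫ f²`
(by `|f(u) f(v)| ≤ (f(u)² + f(v)²)/2` and symmetry), then `ε → 0` (monotone convergence / Fatou).
Alternatives: `mean_F` of `Pool/Agent/H95/GC/MeanF.lean` with the weight `1/(1+(t/T)²)`, `T → ∞`; or
Mathlib's Plancherel theorem in `Mathlib/Analysis/Fourier/LpSpace.lean`.
`t ↦ F(1/2+σ+it)` is continuous (by `F_diff`).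
-/

set_option autoImplicit false

namespace Pool.Agent.H56.GX

open MeasureTheory Set Complex Filter Topology

/-- the Fourier transform of the Gaussian weight -/
noncomputable def FL2_G (ε w : ℝ) : ℝ := Real.sqrt (Real.pi / ε) * Real.exp (-(1 / (4 * ε)) * w ^ 2)

theorem FL2_G_eq {ε : ℝ} (hε : 0 < ε) (w : ℝ) :
    ∫ t : ℝ, Complex.exp (-(ε : ℂ) * t ^ 2) * Complex.exp (-(I * t * w)) = (FL2_G ε w : ℂ) := by
  have h := fourierIntegral_gaussian (b := (ε : ℂ)) (by simpa using hε) (-(w : ℂ))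
  have h1 : ∀ t : ℝ, Complex.exp (-(ε : ℂ) * t ^ 2) * Complex.exp (-(I * t * w)) =
      Complex.exp (I * (-(w : ℂ)) * t) * Complex.exp (-(ε : ℂ) * t ^ 2) := by
    intro t
    rw [mul_comm]
    congr 2
    ring
  simp_rw [h1]
  rw [h]
  unfold FL2_G
  rw [Real.sqrt_eq_rpow]
  push_cast [Complex.ofReal_cpow (show 0 ≤ Real.pi / ε by positivity)]
  congr 2
  ring

theorem FL2_G_nonneg (ε w : ℝ) : 0 ≤ FL2_G ε w := by
  unfold FL2_G
  positivity

theorem FL2_G_neg (ε w : ℝ) : FL2_G ε (-w) = FL2_G ε w := by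
  unfold FL2_G
  rw [neg_sq]

theorem FL2_G_integrable {ε : ℝ} (hε : 0 < ε) : Integrable (FL2_G ε) := by
  unfold FL2_G
  exact (integrable_exp_neg_mul_sq (by positivity)).const_mul _

theorem FL2_G_integral {ε : ℝ} (hε : 0 < ε) : ∫ w : ℝ, FL2_G ε w = 2 * Real.pi := by
  unfold FL2_G
  rw [integral_const_mul, integral_gaussian, ← Real.sqrt_mul (by positivity)]
  have : Real.pi / ε * (Real.pi / (1 / (4 * ε))) = (2 * Real.pi) ^ 2 := by
    field_simp
    ring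
  rw [this, Real.sqrt_sq (by positivity)]

/-- the Fourier integral -/
noncomputable def FL2_g (f : ℝ → ℝ) (t : ℝ) : ℂ := ∫ u : ℝ, (f u : ℂ) * Complex.exp (-(I * t * u))

theorem FL2_exp_norm (t u : ℝ) : ‖Complex.exp (-(I * t * u))‖ = 1 := by
  have : -(I * (t : ℂ) * u) = ((-(t * u) : ℝ) : ℂ) * I := by
    push_cast
    ring
  rw [this, Complex.norm_exp_ofReal_mul_I]

theorem FL2_exp_norm' (t u : ℝ) : ‖Complex.exp (I * t * u)‖ = 1 := by
  have : I * (t : ℂ) * u = ((t * u : ℝ) : ℂ) * I := by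
    push_cast
    ring
  rw [this, Complex.norm_exp_ofReal_mul_I]

theorem FL2_integrable {f : ℝ → ℝ} (hf : Integrable f) (t : ℝ) :
    Integrable fun u : ℝ => (f u : ℂ) * Complex.exp (-(I * t * u)) := by
  refine hf.norm.mono' ?_ ?_
  · refine hf.ofReal.aestronglyMeasurable.mul ?_
    exact Continuous.aestronglyMeasurable (by fun_prop)
  · refine Eventually.of_forall fun u => ?_
    rw [norm_mul, FL2_exp_norm, mul_one, Complex.norm_real]

theorem FL2_continuous {f : ℝ → ℝ} (hf : Integrable f) : Continuous (FL2_g f) := by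
  refine continuous_of_dominated (bound := fun u => ‖f u‖) (fun t => ?_) (fun t => ?_) hf.norm ?_
  · exact (FL2_integrable hf t).aestronglyMeasurable
  · refine Eventually.of_forall fun u => ?_
    rw [norm_mul, FL2_exp_norm, mul_one, Complex.norm_real]
  · refine Eventually.of_forall fun u => ?_
    fun_prop

theorem FL2_conj {f : ℝ → ℝ} (t : ℝ) :
    (starRingEnd ℂ) (FL2_g f t) = ∫ u : ℝ, (f u : ℂ) * Complex.exp (I * t * u) := by
  unfold FL2_g
  rw [← integral_conj]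
  refine integral_congr_ae (Eventually.of_forall fun u => ?_)
  simp only [map_mul, Complex.conj_ofReal, ← Complex.exp_conj, map_neg, Complex.conj_I]
  congr 2
  ring

theorem FL2_norm_sq {f : ℝ → ℝ} (t : ℝ) :
    ((‖FL2_g f t‖ ^ 2 : ℝ) : ℂ) = ∫ z : ℝ × ℝ, ((f z.1 : ℂ) * Complex.exp (-(I * t * z.1))) *
      ((f z.2 : ℂ) * Complex.exp (I * t * z.2)) := by
  have h := integral_prod_mul (μ := (volume : Measure ℝ)) (ν := (volume : Measure ℝ))
    (fun u : ℝ => (f u : ℂ) * Complex.exp (-(I * t * u)))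
    (fun u : ℝ => (f u : ℂ) * Complex.exp (I * t * u))
  rw [Measure.volume_eq_prod, h, ← FL2_conj]
  have h2 : FL2_g f t * (starRingEnd ℂ) (FL2_g f t) = (‖FL2_g f t‖ : ℂ) ^ 2 := Complex.mul_conj' _
  push_cast
  exact h2.symm

theorem FL2_weighted_eq {f : ℝ → ℝ} (hf : Integrable f) {ε : ℝ} (hε : 0 < ε) :
    ∫ t : ℝ, Real.exp (-ε * t ^ 2) * ‖FL2_g f t‖ ^ 2 =
      ∫ z : ℝ × ℝ, f z.1 * f z.2 * FL2_G ε (z.1 - z.2) := by
  have hA : Integrable fun t : ℝ => Real.exp (-ε * t ^ 2) := integrable_exp_neg_mul_sq hε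
  have hff : Integrable (fun z : ℝ × ℝ => ‖f z.1‖ * ‖f z.2‖) (volume.prod volume) :=
    hf.norm.mul_prod hf.norm
  have hI : Integrable (Function.uncurry fun (t : ℝ) (z : ℝ × ℝ) =>
      Complex.exp (-(ε : ℂ) * t ^ 2) * (((f z.1 : ℂ) * Complex.exp (-(I * t * z.1))) *
        ((f z.2 : ℂ) * Complex.exp (I * t * z.2)))) ((volume : Measure ℝ).prod
          ((volume : Measure ℝ).prod (volume : Measure ℝ))) := by
    refine (hA.mul_prod hff).mono' ?_ ?_
    · simp only [Function.uncurry_def]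
      refine AEStronglyMeasurable.mul (Continuous.aestronglyMeasurable (by fun_prop)) ?_
      refine AEStronglyMeasurable.mul (AEStronglyMeasurable.mul ?_ ?_)
        (AEStronglyMeasurable.mul ?_ ?_)
      · exact (hf.ofReal.aestronglyMeasurable.comp_fst).comp_snd
      · exact Continuous.aestronglyMeasurable (by fun_prop)
      · exact (hf.ofReal.aestronglyMeasurable.comp_snd).comp_snd
      · exact Continuous.aestronglyMeasurable (by fun_prop)
    · refine Eventually.of_forall fun x => ?_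
      simp only [Function.uncurry_def]
      rw [norm_mul, norm_mul, norm_mul, norm_mul, FL2_exp_norm, FL2_exp_norm', mul_one, mul_one,
        Complex.norm_real, Complex.norm_real, Complex.norm_exp]
      have : (-(ε : ℂ) * (x.1 : ℂ) ^ 2).re = -ε * x.1 ^ 2 := by
        have : (-(ε : ℂ) * (x.1 : ℂ) ^ 2) = ((-ε * x.1 ^ 2 : ℝ) : ℂ) := by push_cast; ring
        rw [this, Complex.ofReal_re]
      rw [this]
  have hC : ((∫ t : ℝ, Real.exp (-ε * t ^ 2) * ‖FL2_g f t‖ ^ 2 : ℝ) : ℂ) =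
      ((∫ z : ℝ × ℝ, f z.1 * f z.2 * FL2_G ε (z.1 - z.2) : ℝ) : ℂ) := by
    rw [← integral_complex_ofReal, ← integral_complex_ofReal]
    have h1 : ∀ t : ℝ, ((Real.exp (-ε * t ^ 2) * ‖FL2_g f t‖ ^ 2 : ℝ) : ℂ) =
        ∫ z : ℝ × ℝ, Complex.exp (-(ε : ℂ) * t ^ 2) *
          (((f z.1 : ℂ) * Complex.exp (-(I * t * z.1))) *
            ((f z.2 : ℂ) * Complex.exp (I * t * z.2))) := by
      intro t
      rw [integral_const_mul, ← FL2_norm_sq]
      push_cast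
      rfl
    simp_rw [h1]
    rw [Measure.volume_eq_prod, integral_integral_swap hI]
    refine integral_congr_ae (Eventually.of_forall fun z => ?_)
    simp only
    have h2 : ∀ t : ℝ, Complex.exp (-(ε : ℂ) * t ^ 2) *
          (((f z.1 : ℂ) * Complex.exp (-(I * t * z.1))) *
            ((f z.2 : ℂ) * Complex.exp (I * t * z.2))) =
        ((f z.1 : ℂ) * (f z.2 : ℂ)) * (Complex.exp (-(ε : ℂ) * t ^ 2) *
          Complex.exp (-(I * t * ((z.1 - z.2 : ℝ) : ℂ)))) := by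
      intro t
      have h3 : Complex.exp (-(I * t * ((z.1 - z.2 : ℝ) : ℂ))) =
          Complex.exp (-(I * t * z.1)) * Complex.exp (I * t * z.2) := by
        rw [← Complex.exp_add]
        congr 1
        push_cast
        ring
      rw [h3]
      ring
    simp_rw [h2]
    rw [integral_const_mul, FL2_G_eq hε]
    push_cast
    ring
  exact Complex.ofReal_injective hC

theorem FL2_quad_le {f : ℝ → ℝ} (hf : Integrable f) (hf2 : Integrable fun u => f u ^ 2)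
    {ε : ℝ} (hε : 0 < ε) :
    ∫ z : ℝ × ℝ, f z.1 * f z.2 * FL2_G ε (z.1 - z.2) ≤ 2 * Real.pi * ∫ u : ℝ, f u ^ 2 := by
  have hG := FL2_G_integrable hε
  have h2 : Integrable (fun z : ℝ × ℝ => f z.2 ^ 2 * FL2_G ε (z.1 - z.2))
      ((volume : Measure ℝ).prod volume) := by
    have := hf2.convolution_integrand (ContinuousLinearMap.mul ℝ ℝ) hG
    simpa using this
  have h1 : Integrable (fun z : ℝ × ℝ => f z.1 ^ 2 * FL2_G ε (z.1 - z.2))
      ((volume : Measure ℝ).prod volume) := by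
    have := h2.swap
    refine this.congr (Eventually.of_forall fun z => ?_)
    simp only [Function.comp_apply, Prod.fst_swap, Prod.snd_swap]
    rw [← FL2_G_neg ε (z.2 - z.1), neg_sub]
  have e2 : ∫ z : ℝ × ℝ, f z.2 ^ 2 * FL2_G ε (z.1 - z.2) = 2 * Real.pi * ∫ u : ℝ, f u ^ 2 := by
    rw [Measure.volume_eq_prod, integral_prod_symm _ h2]
    simp only
    have : ∀ y : ℝ, ∫ x : ℝ, f y ^ 2 * FL2_G ε (x - y) = f y ^ 2 * (2 * Real.pi) := by
      intro y
      rw [integral_const_mul, integral_sub_right_eq_self (FL2_G ε), FL2_G_integral hε]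
    simp_rw [this]
    rw [integral_mul_const, mul_comm]
  have e1 : ∫ z : ℝ × ℝ, f z.1 ^ 2 * FL2_G ε (z.1 - z.2) = 2 * Real.pi * ∫ u : ℝ, f u ^ 2 := by
    rw [Measure.volume_eq_prod, integral_prod _ h1]
    simp only
    have : ∀ x : ℝ, ∫ y : ℝ, f x ^ 2 * FL2_G ε (x - y) = f x ^ 2 * (2 * Real.pi) := by
      intro x
      rw [integral_const_mul, integral_sub_left_eq_self (FL2_G ε), FL2_G_integral hε]
    simp_rw [this]
    rw [integral_mul_const, mul_comm]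
  have hle : ∀ z : ℝ × ℝ, |f z.1 * f z.2 * FL2_G ε (z.1 - z.2)| ≤
      (f z.1 ^ 2 * FL2_G ε (z.1 - z.2) + f z.2 ^ 2 * FL2_G ε (z.1 - z.2)) / 2 := by
    intro z
    rw [abs_mul, abs_of_nonneg (FL2_G_nonneg ε (z.1 - z.2))]
    have h3 : |f z.1 * f z.2| ≤ (f z.1 ^ 2 + f z.2 ^ 2) / 2 := by
      rw [abs_le]
      constructor <;> nlinarith [sq_nonneg (f z.1 + f z.2), sq_nonneg (f z.1 - f z.2)]
    have h4 := mul_le_mul_of_nonneg_right h3 (FL2_G_nonneg ε (z.1 - z.2))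
    linarith
  have hmeas : AEStronglyMeasurable (fun z : ℝ × ℝ => f z.1 * f z.2 * FL2_G ε (z.1 - z.2))
      ((volume : Measure ℝ).prod volume) := by
    refine (hf.aestronglyMeasurable.comp_fst.mul hf.aestronglyMeasurable.comp_snd).mul ?_
    refine Continuous.aestronglyMeasurable ?_
    unfold FL2_G
    fun_prop
  have hint : Integrable (fun z : ℝ × ℝ => f z.1 * f z.2 * FL2_G ε (z.1 - z.2))
      ((volume : Measure ℝ).prod volume) :=
    ((h1.add h2).div_const 2).mono' hmeas (Eventually.of_forall fun z => hle z)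
  have h5 : ∫ z : ℝ × ℝ, f z.1 * f z.2 * FL2_G ε (z.1 - z.2) ≤
      ∫ z : ℝ × ℝ, (f z.1 ^ 2 * FL2_G ε (z.1 - z.2) + f z.2 ^ 2 * FL2_G ε (z.1 - z.2)) / 2 := by
    rw [Measure.volume_eq_prod]
    exact integral_mono hint ((h1.add h2).div_const 2) fun z => le_trans (le_abs_self _) (hle z)
  have h6 : ∫ z : ℝ × ℝ, (f z.1 ^ 2 * FL2_G ε (z.1 - z.2) + f z.2 ^ 2 * FL2_G ε (z.1 - z.2)) / 2 =
      2 * Real.pi * ∫ u : ℝ, f u ^ 2 := by
    rw [integral_div]
    have h7 : ∫ z : ℝ × ℝ, (f z.1 ^ 2 * FL2_G ε (z.1 - z.2) + f z.2 ^ 2 * FL2_G ε (z.1 - z.2)) =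
        (∫ z : ℝ × ℝ, f z.1 ^ 2 * FL2_G ε (z.1 - z.2)) +
          ∫ z : ℝ × ℝ, f z.2 ^ 2 * FL2_G ε (z.1 - z.2) := by
      rw [Measure.volume_eq_prod]
      exact integral_add h1 h2
    rw [h7, e1, e2]
    ring
  linarith

theorem FL2_interval {f : ℝ → ℝ} (hf : Integrable f) (hf2 : Integrable fun u => f u ^ 2)
    {T : ℝ} (hT : 0 ≤ T) :
    ∫ t in (-T)..T, ‖FL2_g f t‖ ^ 2 ≤ 2 * Real.pi * ∫ u : ℝ, f u ^ 2 := by
  set A : ℝ := 2 * Real.pi * ∫ u : ℝ, f u ^ 2 with hA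
  have hcont := FL2_continuous hf
  have hgle : ∀ t : ℝ, ‖FL2_g f t‖ ≤ ∫ u : ℝ, ‖f u‖ := by
    intro t
    unfold FL2_g
    refine le_trans (norm_integral_le_integral_norm _) (le_of_eq ?_)
    refine integral_congr_ae (Eventually.of_forall fun u => ?_)
    simp only
    rw [norm_mul, FL2_exp_norm, mul_one, Complex.norm_real]
  have key : ∀ ε : ℝ, 0 < ε → ∫ t in (-T)..T, ‖FL2_g f t‖ ^ 2 ≤ A * Real.exp (ε * T ^ 2) := by
    intro ε hε
    have hTT : -T ≤ T := by linarith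
    have hw : Integrable fun t : ℝ => Real.exp (-ε * t ^ 2) * ‖FL2_g f t‖ ^ 2 := by
      refine ((integrable_exp_neg_mul_sq hε).mul_const ((∫ u : ℝ, ‖f u‖) ^ 2)).mono'
        (Continuous.aestronglyMeasurable (by fun_prop)) (Eventually.of_forall fun t => ?_)
      rw [Real.norm_of_nonneg (by positivity)]
      gcongr
      exact hgle t
    have h1 : ∫ t in (-T)..T, Real.exp (-ε * t ^ 2) * ‖FL2_g f t‖ ^ 2 ≤ A := by
      rw [intervalIntegral.integral_of_le hTT]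
      refine le_trans (setIntegral_le_integral hw (Eventually.of_forall fun t => by positivity)) ?_
      rw [FL2_weighted_eq hf hε]
      exact FL2_quad_le hf hf2 hε
    have h2 : ∫ t in (-T)..T, Real.exp (-ε * T ^ 2) * ‖FL2_g f t‖ ^ 2 ≤
        ∫ t in (-T)..T, Real.exp (-ε * t ^ 2) * ‖FL2_g f t‖ ^ 2 := by
      refine intervalIntegral.integral_mono_on hTT
        (Continuous.intervalIntegrable (by fun_prop) _ _)
        (Continuous.intervalIntegrable (by fun_prop) _ _) fun t ht => ?_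
      have h3 : t ^ 2 ≤ T ^ 2 := by
        have := abs_le.2 ⟨ht.1, ht.2⟩
        exact sq_le_sq' ht.1 ht.2
      have h4 : Real.exp (-ε * T ^ 2) ≤ Real.exp (-ε * t ^ 2) := by
        apply Real.exp_le_exp.2
        nlinarith
      exact mul_le_mul_of_nonneg_right h4 (by positivity)
    rw [intervalIntegral.integral_const_mul] at h2
    have h5 := le_trans h2 h1
    have h6 : Real.exp (ε * T ^ 2) * Real.exp (-ε * T ^ 2) = 1 := by
      rw [← Real.exp_add]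
      simp
    calc ∫ t in (-T)..T, ‖FL2_g f t‖ ^ 2
        = Real.exp (ε * T ^ 2) * (Real.exp (-ε * T ^ 2) * ∫ t in (-T)..T, ‖FL2_g f t‖ ^ 2) := by
          rw [← mul_assoc, h6, one_mul]
      _ ≤ Real.exp (ε * T ^ 2) * A := mul_le_mul_of_nonneg_left h5 (Real.exp_pos _).le
      _ = A * Real.exp (ε * T ^ 2) := mul_comm _ _
  have hlim : Tendsto (fun ε : ℝ => A * Real.exp (ε * T ^ 2)) (𝓝[>] 0) (𝓝 A) := by
    have hc : Continuous fun ε : ℝ => A * Real.exp (ε * T ^ 2) := by fun_prop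
    have := (hc.tendsto 0).mono_left (nhdsWithin_le_nhds (s := Ioi 0))
    simpa using this
  refine ge_of_tendsto hlim ?_
  filter_upwards [self_mem_nhdsWithin] with ε hε
  exact key ε hε

theorem FL2_main {f : ℝ → ℝ} (hf : Integrable f) (hf2 : Integrable fun u => f u ^ 2) :
    Integrable (fun t : ℝ => ‖FL2_g f t‖ ^ 2) ∧
      ∫ t : ℝ, ‖FL2_g f t‖ ^ 2 ≤ 2 * Real.pi * ∫ u : ℝ, f u ^ 2 := by
  have hcont := FL2_continuous hf
  have ha : Tendsto (fun n : ℕ => -(n : ℝ)) atTop atBot :=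
    tendsto_neg_atTop_atBot.comp tendsto_natCast_atTop_atTop
  have hb : Tendsto (fun n : ℕ => (n : ℝ)) atTop atTop := tendsto_natCast_atTop_atTop
  have hI : Integrable (fun t : ℝ => ‖FL2_g f t‖ ^ 2) := by
    refine integrable_of_intervalIntegral_norm_bounded (2 * Real.pi * ∫ u : ℝ, f u ^ 2)
      (fun n => ?_) ha hb ?_
    · exact (Continuous.integrableOn_Ioc (by fun_prop))
    · refine Eventually.of_forall fun n => ?_
      have := FL2_interval hf hf2 (T := (n : ℝ)) (Nat.cast_nonneg n)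
      simpa only [norm_pow, norm_norm] using this
  refine ⟨hI, ?_⟩
  refine le_of_tendsto (intervalIntegral_tendsto_integral hI ha hb) ?_
  exact Eventually.of_forall fun n => FL2_interval hf hf2 (T := (n : ℝ)) (Nat.cast_nonneg n)

/-- the function on the exponential scale -/
noncomputable def FL2_f (σ u : ℝ) : ℝ :=
  (Ioi (0 : ℝ)).indicator (fun u => Mz (Real.exp u) * Real.exp (-(1 / 2 + σ) * u)) u

theorem FL2_image : Real.exp '' Ioi (0 : ℝ) = Ioi (1 : ℝ) := by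
  ext x
  simp only [mem_image, mem_Ioi]
  constructor
  · rintro ⟨u, hu, rfl⟩
    exact Real.one_lt_exp_iff.2 hu
  · intro hx
    exact ⟨Real.log x, Real.log_pos hx, Real.exp_log (by linarith)⟩

theorem FL2_cov_int (g : ℝ → ℂ) :
    ∫ x in Ioi (1 : ℝ), g x = ∫ u in Ioi (0 : ℝ), (Real.exp u : ℂ) * g (Real.exp u) := by
  rw [← FL2_image, integral_image_eq_integral_abs_deriv_smul measurableSet_Ioi
    (fun x _ => (Real.hasDerivAt_exp x).hasDerivWithinAt) Real.exp_injective.injOn]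
  refine setIntegral_congr_fun measurableSet_Ioi fun u _ => ?_
  simp only [abs_of_pos (Real.exp_pos u), Complex.real_smul]

theorem FL2_cov_real (g : ℝ → ℝ) :
    (IntegrableOn g (Ioi 1) ↔ IntegrableOn (fun u => Real.exp u * g (Real.exp u)) (Ioi 0)) ∧
    ∫ x in Ioi (1 : ℝ), g x = ∫ u in Ioi (0 : ℝ), Real.exp u * g (Real.exp u) := by
  constructor
  · rw [← FL2_image, integrableOn_image_iff_integrableOn_abs_deriv_smul measurableSet_Ioi
      (fun x _ => (Real.hasDerivAt_exp x).hasDerivWithinAt) Real.exp_injective.injOn]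
    refine integrableOn_congr_fun (fun u _ => ?_) measurableSet_Ioi
    simp only [abs_of_pos (Real.exp_pos u), smul_eq_mul]
  · rw [← FL2_image, integral_image_eq_integral_abs_deriv_smul measurableSet_Ioi
      (fun x _ => (Real.hasDerivAt_exp x).hasDerivWithinAt) Real.exp_injective.injOn]
    refine setIntegral_congr_fun measurableSet_Ioi fun u _ => ?_
    simp only [abs_of_pos (Real.exp_pos u), smul_eq_mul]

end Pool.Agent.H56.GX

end

section

/-!
GY module WL2: under `WB`, `∫_ℝ ‖F(1/2 + σ + it)‖² dt ≤ C₂ σ^(-3/2)` for `0 < σ ≤ 3`. Copy the proof of `F_L2` at the end of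
`GX/FL2.lean` (its tools `FL2_main`, `FL2_f`, `FL2_g`, `FL2_cov_int`, `FL2_cov_real` are imported), with `tail_sq`,
`tail_abs` replaced by `wtail_sq`, `wtail_abs`.
-/

set_option autoImplicit false

namespace Pool.Agent.H82.GY

open MeasureTheory Set Complex Filter Topology
open Pool.Agent.H56.GX

theorem wF_L2 (C : ℝ) (hC : 1 ≤ C) (h : WB C) : ∃ C₂ : ℝ, 0 < C₂ ∧ ∀ σ : ℝ, 0 < σ → σ ≤ 3 →
    Integrable (fun t : ℝ => ‖F (1 / 2 + σ + t * I)‖ ^ 2) ∧
      ∫ t : ℝ, ‖F (1 / 2 + σ + t * I)‖ ^ 2 ≤ C₂ * σ ^ (-(3 / 2) : ℝ) := by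
  obtain ⟨C₁, hC₁, hsq⟩ := wtail_sq C hC h
  obtain ⟨C₃, hC₃, habs⟩ := wtail_abs C hC h
  refine ⟨2 * Real.pi * C₁, by positivity, fun σ hσ hσ3 => ?_⟩
  obtain ⟨hs1, hs2⟩ := hsq σ hσ hσ3
  obtain ⟨ha1, _⟩ := habs σ hσ hσ3
  have hexp : ∀ (u c : ℝ), (Real.exp u) ^ c = Real.exp (c * u) := by
    intro u c
    rw [← Real.exp_mul, mul_comm]
  -- integrability
  have hmeas : Measurable fun u : ℝ => Mz (Real.exp u) * Real.exp (-(1 / 2 + σ) * u) :=
    (Mz_measurable.comp Real.measurable_exp).mul (by fun_prop)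
  have hf : Integrable (FL2_f σ) := by
    unfold FL2_f
    rw [integrable_indicator_iff measurableSet_Ioi]
    have h1 := (FL2_cov_real _).1.1 ha1
    refine Integrable.mono' h1 hmeas.aestronglyMeasurable (Eventually.of_forall fun u => ?_)
    rw [hexp, norm_mul, Real.norm_eq_abs, Real.norm_of_nonneg (Real.exp_pos _).le, mul_left_comm,
      ← Real.exp_add]
    refine le_of_eq ?_
    congr 2
    ring
  have hsqeq : ∀ u : ℝ, (FL2_f σ u) ^ 2 = (Ioi (0 : ℝ)).indicator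
      (fun u => Real.exp u * ((Mz (Real.exp u)) ^ 2 * (Real.exp u) ^ (-2 - 2 * σ))) u := by
    intro u
    unfold FL2_f
    by_cases hu : u ∈ Ioi (0 : ℝ)
    · rw [indicator_of_mem hu, indicator_of_mem hu, hexp, mul_left_comm, ← Real.exp_add, mul_pow,
        ← Real.exp_nat_mul]
      congr 2
      push_cast
      ring
    · rw [indicator_of_notMem hu, indicator_of_notMem hu]
      ring
  have hf2 : Integrable fun u => FL2_f σ u ^ 2 := by
    simp_rw [hsqeq]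
    rw [integrable_indicator_iff measurableSet_Ioi]
    exact (FL2_cov_real _).1.1 hs1
  have hint : ∫ u : ℝ, FL2_f σ u ^ 2 ≤ C₁ * σ ^ (-(3 / 2) : ℝ) := by
    simp_rw [hsqeq]
    rw [integral_indicator measurableSet_Ioi]
    rw [(FL2_cov_real (fun x : ℝ => (Mz x) ^ 2 * x ^ (-2 - 2 * σ))).2] at hs2
    exact hs2
  have hFg : ∀ t : ℝ, F (1 / 2 + σ + t * I) = FL2_g (FL2_f σ) t := by
    intro t
    unfold F FL2_g
    rw [FL2_cov_int, ← integral_indicator measurableSet_Ioi]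
    refine integral_congr_ae (Eventually.of_forall fun u => ?_)
    unfold FL2_f
    by_cases hu : u ∈ Ioi (0 : ℝ)
    · simp only [indicator_of_mem hu]
      have h1 : ((Real.exp u : ℝ) : ℂ) ^ (-(1 / 2 + (σ : ℂ) + t * I) - 1) =
          Complex.exp (u * (-(1 / 2 + (σ : ℂ) + t * I) - 1)) := by
        rw [Complex.cpow_def_of_ne_zero (by exact_mod_cast (Real.exp_pos u).ne'),
          ← Complex.ofReal_log (Real.exp_pos u).le, Real.log_exp]
      rw [h1]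
      push_cast
      have h2 : Complex.exp u * ((Mz (Real.exp u) : ℂ) *
          Complex.exp (u * (-(1 / 2 + (σ : ℂ) + t * I) - 1))) =
          (Mz (Real.exp u) : ℂ) * (Complex.exp u *
            Complex.exp (u * (-(1 / 2 + (σ : ℂ) + t * I) - 1))) := by ring
      rw [h2, ← Complex.exp_add, mul_assoc, ← Complex.exp_add]
      congr 2
      ring
    · simp only [indicator_of_notMem hu]
      simp
  obtain ⟨hm1, hm2⟩ := FL2_main hf hf2
  simp_rw [hFg]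
  refine ⟨hm1, le_trans hm2 ?_⟩
  have := mul_le_mul_of_nonneg_left hint (show 0 ≤ 2 * Real.pi by positivity)
  calc 2 * Real.pi * ∫ u : ℝ, FL2_f σ u ^ 2 ≤ 2 * Real.pi * (C₁ * σ ^ (-(3 / 2) : ℝ)) := this
    _ = 2 * Real.pi * C₁ * σ ^ (-(3 / 2) : ℝ) := by ring

end Pool.Agent.H82.GY

end

section

/-!
GY module WGood: good heights under `WB`. Copy `Good_fixed` and `good_heights` of `GX/Good.lean` (331 lines; the other lemmas of that
file are imported), replacing `F_L2`, `F_inv` by `wF_L2`, `wF_inv`. Since now `∫ ‖F(1/2+d+it)‖² dt ≤ C₂ d^(-3/2)`, take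
`a = d^(3/4)`: `a · C₂ d^(-3/2) = C₂ d^(-3/4) = C₂ (1/a)`, so the weight `|σ - 1/2|^(-1/2)` is replaced by
`|σ - 1/2|^(-(3/4))`, which is integrable on `[-1/2, 2]` too (copy `Good_weight_integrable`).
-/

set_option autoImplicit false

namespace Pool.Agent.H82.GY

open MeasureTheory Set Complex Filter Topology
open Pool.Agent.H56.GX
open scoped ENNReal

private theorem WGood_weight_integrable :
    IntegrableOn (fun σ : ℝ => |σ - 1 / 2| ^ (-(3 / 4) : ℝ)) (Icc (-(1 / 2)) 2) := by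
  have hr : (-1 : ℝ) < -(3 / 4) := by norm_num
  have h1 : IntervalIntegrable (fun σ : ℝ => |σ - 1 / 2| ^ (-(3 / 4) : ℝ)) volume (1 / 2) 2 := by
    have h := (intervalIntegral.intervalIntegrable_rpow' hr (a := 0) (b := 3 / 2)).comp_sub_right (1 / 2)
    norm_num at h
    refine h.congr ?_
    rw [uIoc_of_le (by norm_num)]
    intro x hx
    have : 0 < x - 1 / 2 := by linarith [hx.1]
    simp only [abs_of_pos this]
  have h2 : IntervalIntegrable (fun σ : ℝ => |σ - 1 / 2| ^ (-(3 / 4) : ℝ)) volume (-(1 / 2)) (1 / 2) := by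
    have h := (intervalIntegral.intervalIntegrable_rpow' hr (a := 1) (b := 0)).comp_sub_left (1 / 2)
    norm_num at h
    refine h.congr ?_
    rw [uIoc_of_le (by norm_num)]
    intro x hx
    have : x - 1 / 2 ≤ 0 := by linarith [hx.2]
    simp only [abs_of_nonpos this]
    norm_num
  have h3 := h2.trans h1
  rw [intervalIntegrable_iff_integrableOn_Icc_of_le (by norm_num)] at h3
  exact h3

/-- the bound on a horizontal segment, for fixed `σ`. -/
private theorem WGood_fixed (C : ℝ) (hC : 1 ≤ C) (h : WB C) : ∃ C₅ : ℝ, 0 < C₅ ∧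
    ∀ N : ℕ, 1 ≤ N → ∀ σ : ℝ, σ ∈ Icc (-(1 / 2) : ℝ) 2 → σ ≠ 1 / 2 →
      ∫⁻ t in Icc (N : ℝ) (N + 1), ENNReal.ofReal (Good_G σ t)
        ≤ ENNReal.ofReal (C₅ * Real.exp (C₅ * (N + 1)) * |σ - 1 / 2| ^ (-(3 / 4) : ℝ)) := by
  obtain ⟨C2, hC2, hL2⟩ := wF_L2 C hC h
  obtain ⟨C3, hC3, hzr⟩ := zeta_refl
  refine ⟨max C3 (C2 + 1), by positivity, ?_⟩
  intro N hN σ hσ hσ'
  have hN' : (1 : ℝ) ≤ N := by exact_mod_cast hN
  set d : ℝ := |σ - 1 / 2| with hd
  have hd0 : 0 < d := abs_pos.2 (sub_ne_zero.2 hσ')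
  have hd3 : d ≤ 3 := by
    rw [hd, abs_le]
    constructor <;> linarith [hσ.1, hσ.2]
  set E : ℝ := Real.exp (C3 * (N + 1)) with hE
  have hE1 : 1 ≤ E := Real.one_le_exp (by positivity)
  set a : ℝ := d ^ (3 / 4 : ℝ) with ha
  have ha0 : 0 < a := Real.rpow_pos_of_pos hd0 _
  have hinv : 1 / a = d ^ (-(3 / 4) : ℝ) := by
    rw [ha, Real.rpow_neg hd0.le, one_div]
  -- a function of `t` with the right bound
  obtain ⟨f, hf_int, hf_le, hGf⟩ : ∃ f : ℝ → ℝ, Integrable f ∧ (∫ t, f t ≤ C2 * d ^ (-(3 / 2) : ℝ)) ∧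
      (∀ t, 0 ≤ f t) ∧ ∀ t ∈ Icc (N : ℝ) (N + 1), Good_G σ t ≤ E * (a * f t + 1 / a) := by
    rcases lt_or_gt_of_ne hσ' with hlt | hgt
    · have hdd : d = 1 / 2 - σ := by rw [hd, abs_of_neg (by linarith)]; ring
      obtain ⟨hi, hb⟩ := hL2 d hd0 hd3
      refine ⟨fun t => ‖F (1 / 2 + d + (-t : ℝ) * I)‖ ^ 2, hi.comp_neg, ?_, fun t => by positivity, ?_⟩
      · rw [integral_neg_eq_self (fun t : ℝ => ‖F (1 / 2 + d + t * I)‖ ^ 2)]
        exact hb
      · intro t ht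
        have ht1 : 1 ≤ t := by linarith [ht.1]
        have him : ((σ : ℂ) + t * I).im = t := by simp
        have hre : ((σ : ℂ) + t * I).re = σ := by simp
        have h1 := hzr (σ + t * I) (by rw [hre]; exact hσ.1) (by rw [hre]; exact hlt.le)
          (by rw [him, abs_of_pos (by linarith)]; exact ht1)
        rw [him, abs_of_pos (by linarith : (0:ℝ) < t)] at h1
        have hw : (1 : ℂ) - (σ + t * I) = 1 / 2 + d + (-t : ℝ) * I := by
          rw [hdd]; push_cast; ring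
        have hwre : ((1 : ℂ) - (σ + t * I)).re = 1 - σ := by simp
        have hwim : ((1 : ℂ) - (σ + t * I)).im = -t := by simp
        have hw1 : (1 : ℂ) - (σ + t * I) ≠ 1 := by
          intro hc
          have := congrArg Complex.im hc
          rw [hwim] at this
          simp at this
          linarith
        have h2 := wF_inv C hC h (1 - (σ + t * I)) (by rw [hwre]; linarith) hw1
        have hsn : 1 ≤ ‖(σ : ℂ) + t * I‖ := by
          have := Complex.abs_im_le_norm ((σ : ℂ) + t * I)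
          rw [him, abs_of_pos (by linarith : (0:ℝ) < t)] at this
          linarith
        have hw0 : (1 : ℂ) - (σ + t * I) ≠ 0 := by
          intro hc
          have := congrArg Complex.im hc
          rw [hwim] at this
          simp at this
          linarith
        have h3 : (riemannZeta (1 - (σ + t * I)))⁻¹ = (1 - (σ + t * I)) * F (1 - (σ + t * I)) := by
          rw [h2.2, mul_inv, ← mul_assoc, mul_inv_cancel₀ hw0, one_mul]
        have h4 : ‖(1 : ℂ) - (σ + t * I)‖ ≤ 2 * ‖(σ : ℂ) + t * I‖ := by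
          calc ‖(1 : ℂ) - (σ + t * I)‖ ≤ ‖(1 : ℂ)‖ + ‖(σ : ℂ) + t * I‖ := norm_sub_le _ _
            _ ≤ _ := by rw [norm_one]; linarith
        have h5 : Real.exp (C3 * t) ≤ E := Real.exp_le_exp.2 (by nlinarith [ht.2])
        have h6 := Good_amgm ‖F (1 / 2 + d + (-t : ℝ) * I)‖ a ha0
        unfold Good_G
        rw [mul_inv, norm_mul, norm_inv]
        calc ‖(σ : ℂ) + t * I‖⁻¹ * ‖(riemannZeta (σ + t * I))⁻¹‖
            ≤ ‖(σ : ℂ) + t * I‖⁻¹ * (Real.exp (C3 * t) * ‖(riemannZeta (1 - (σ + t * I)))⁻¹‖) := by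
              gcongr
          _ = ‖(σ : ℂ) + t * I‖⁻¹ * (Real.exp (C3 * t) * (‖(1 : ℂ) - (σ + t * I)‖ *
                ‖F (1 - (σ + t * I))‖)) := by rw [h3, norm_mul]
          _ ≤ ‖(σ : ℂ) + t * I‖⁻¹ * (E * ((2 * ‖(σ : ℂ) + t * I‖) *
                ‖F (1 - (σ + t * I))‖)) := by gcongr
          _ = E * (2 * ‖F (1 - (σ + t * I))‖) := by
              field_simp
          _ ≤ _ := by
              rw [hw]
              gcongr
    · have hdd : d = σ - 1 / 2 := by rw [hd, abs_of_pos (by linarith)]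
      obtain ⟨hi, hb⟩ := hL2 d hd0 hd3
      refine ⟨fun t => ‖F (1 / 2 + d + t * I)‖ ^ 2, hi, hb, fun t => by positivity, ?_⟩
      intro t ht
      have ht1 : 1 ≤ t := by linarith [ht.1]
      have hw : (σ : ℂ) + t * I = 1 / 2 + d + t * I := by
        rw [hdd]; push_cast; ring
      have hre : ((σ : ℂ) + t * I).re = σ := by simp
      have him : ((σ : ℂ) + t * I).im = t := by simp
      have h2 := wF_inv C hC h (σ + t * I) (by rw [hre]; linarith) (by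
        intro hc
        have := congrArg Complex.im hc
        rw [him] at this
        simp at this
        linarith)
      have h6 := Good_amgm ‖F (1 / 2 + d + t * I)‖ a ha0
      unfold Good_G
      rw [← h2.2, hw]
      have h7 : 0 ≤ a * ‖F (1 / 2 + d + t * I)‖ ^ 2 + 1 / a := by positivity
      have h8 : 0 ≤ ‖F (1 / 2 + d + t * I)‖ := norm_nonneg _
      nlinarith
  obtain ⟨hf0, hGf⟩ := hGf
  have hint : IntegrableOn (fun t => E * (a * f t + 1 / a)) (Icc (N : ℝ) (N + 1)) := by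
    apply Integrable.const_mul
    apply Integrable.add
    · exact (hf_int.const_mul a).integrableOn
    · simp
  calc ∫⁻ t in Icc (N : ℝ) (N + 1), ENNReal.ofReal (Good_G σ t)
      ≤ ∫⁻ t in Icc (N : ℝ) (N + 1), ENNReal.ofReal (E * (a * f t + 1 / a)) := by
        apply setLIntegral_mono' measurableSet_Icc
        intro t ht
        exact ENNReal.ofReal_le_ofReal (hGf t ht)
    _ = ENNReal.ofReal (∫ t in Icc (N : ℝ) (N + 1), E * (a * f t + 1 / a)) := by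
        rw [ofReal_integral_eq_lintegral_ofReal hint]
        filter_upwards with t
        have := hf0 t
        positivity
    _ ≤ _ := by
        apply ENNReal.ofReal_le_ofReal
        have h1 : ∫ t in Icc (N : ℝ) (N + 1), E * (a * f t + 1 / a)
            = E * (a * (∫ t in Icc (N : ℝ) (N + 1), f t) + 1 / a) := by
          rw [integral_const_mul, integral_add (hf_int.const_mul a).integrableOn (by simp),
            integral_const_mul]
          simp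
        have h2 : ∫ t in Icc (N : ℝ) (N + 1), f t ≤ C2 * d ^ (-(3 / 2) : ℝ) :=
          (setIntegral_le_integral hf_int (Filter.Eventually.of_forall hf0)).trans hf_le
        have h3 : a * (C2 * d ^ (-(3 / 2) : ℝ)) = C2 * (1 / a) := by
          rw [hinv, ha, mul_left_comm, ← Real.rpow_add hd0]
          norm_num
        have h4 : 0 < 1 / a := by positivity
        rw [h1, ← hinv]
        calc E * (a * (∫ t in Icc (N : ℝ) (N + 1), f t) + 1 / a)
            ≤ E * (a * (C2 * d ^ (-(3 / 2) : ℝ)) + 1 / a) := by gcongr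
          _ = (C2 + 1) * E * (1 / a) := by rw [h3]; ring
          _ ≤ max C3 (C2 + 1) * Real.exp (max C3 (C2 + 1) * (N + 1)) * (1 / a) := by
              gcongr
              · exact le_max_right _ _
              · rw [hE]
                apply Real.exp_le_exp.2
                gcongr
                exact le_max_left _ _

theorem wgood_heights (C : ℝ) (hC : 1 ≤ C) (h : WB C) : ∃ C₄ : ℝ, 0 < C₄ ∧
    ∀ N : ℕ, 1 ≤ N → ∃ T : ℝ, (N : ℝ) ≤ T ∧ T ≤ N + 1 ∧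
      (∀ σ : ℝ, -(1 / 2) ≤ σ → σ ≤ 2 → riemannZeta (σ + T * I) ≠ 0 ∧ riemannZeta (σ - T * I) ≠ 0) ∧
      (∫ σ in (-(1 / 2) : ℝ)..2, ‖((σ + T * I) * riemannZeta (σ + T * I))⁻¹‖
        ≤ Real.exp (C₄ * (N + 1))) ∧
      (∫ σ in (-(1 / 2) : ℝ)..2, ‖((σ - T * I) * riemannZeta (σ - T * I))⁻¹‖
        ≤ Real.exp (C₄ * (N + 1))) := by
  obtain ⟨C5, hC5, hfix⟩ := WGood_fixed C hC h
  set w : ℝ → ℝ := fun σ => |σ - 1 / 2| ^ (-(3 / 4) : ℝ) with hw
  have hw0 : ∀ σ, 0 ≤ w σ := fun σ => Real.rpow_nonneg (abs_nonneg _) _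
  set I0 : ℝ := ∫ σ in Icc (-(1 / 2) : ℝ) 2, w σ with hI0
  have hI0n : 0 ≤ I0 := integral_nonneg hw0
  refine ⟨C5 + C5 * I0, by positivity, ?_⟩
  intro N hN
  have hN' : (1 : ℝ) ≤ N := by exact_mod_cast hN
  -- Tonelli
  set g : ℝ → ℝ≥0∞ := fun t => ∫⁻ σ in Icc (-(1 / 2) : ℝ) 2, ENNReal.ofReal (Good_G σ t) with hg
  have hmeas : Measurable (Function.uncurry fun σ t : ℝ => ENNReal.ofReal (Good_G σ t)) :=
    ENNReal.measurable_ofReal.comp Good_measurable_G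
  have hm3 : Measurable (Function.uncurry fun t σ : ℝ => ENNReal.ofReal (Good_G σ t)) := by
    have := hmeas.comp (measurable_swap (α := ℝ) (β := ℝ))
    exact this
  have hgm : Measurable g := hm3.lintegral_prod_right'
  have htot : ∫⁻ t in Icc (N : ℝ) (N + 1), g t
      ≤ ENNReal.ofReal (C5 * Real.exp (C5 * (N + 1)) * I0) := by
    have hsw : ∫⁻ t in Icc (N : ℝ) (N + 1), g t =
        ∫⁻ σ in Icc (-(1 / 2) : ℝ) 2, ∫⁻ t in Icc (N : ℝ) (N + 1), ENNReal.ofReal (Good_G σ t) := by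
      exact lintegral_lintegral_swap hm3.aemeasurable
    rw [hsw]
    calc ∫⁻ σ in Icc (-(1 / 2) : ℝ) 2, ∫⁻ t in Icc (N : ℝ) (N + 1), ENNReal.ofReal (Good_G σ t)
        ≤ ∫⁻ σ in Icc (-(1 / 2) : ℝ) 2, ENNReal.ofReal (C5 * Real.exp (C5 * (N + 1)) * w σ) := by
          apply lintegral_mono_ae
          have hae : ∀ᵐ σ : ℝ ∂(volume.restrict (Icc (-(1 / 2) : ℝ) 2)), σ ≠ 1 / 2 := by
            apply ae_restrict_of_ae
            exact Measure.ae_ne volume (1 / 2)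
          filter_upwards [ae_restrict_mem measurableSet_Icc, hae] with σ hσ hσ'
          exact hfix N hN σ hσ hσ'
      _ = ENNReal.ofReal (∫ σ in Icc (-(1 / 2) : ℝ) 2, C5 * Real.exp (C5 * (N + 1)) * w σ) := by
          rw [ofReal_integral_eq_lintegral_ofReal (WGood_weight_integrable.const_mul _)]
          filter_upwards with σ
          have := hw0 σ
          positivity
      _ = _ := by rw [integral_const_mul]
  -- the bad heights
  set S : Set ℂ := Icc (-(1 / 2) : ℝ) 2 ×ℂ Icc (N : ℝ) (N + 1) with hS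
  have hScomp : IsCompact S := isCompact_Icc.reProdIm isCompact_Icc
  have hfin := hScomp.inter_riemannZetaZeros_finite
  set Bad : Set ℝ := Complex.im '' (S ∩ riemannZetaZeros) ∪ (Icc (N : ℝ) (N + 1))ᶜ with hBad
  have hprob : IsProbabilityMeasure ((volume : Measure ℝ).restrict (Icc (N : ℝ) (N + 1))) := by
    constructor
    simp [Measure.restrict_apply]
  have hBad0 : (volume.restrict (Icc (N : ℝ) (N + 1))) Bad = 0 := by
    rw [hBad]
    apply measure_union_null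
    · exact (hfin.image _).measure_zero _
    · rw [Measure.restrict_apply measurableSet_Icc.compl]
      simp
  obtain ⟨T, hT1, hT2⟩ := exists_notMem_null_le_lintegral
    (μ := volume.restrict (Icc (N : ℝ) (N + 1))) hgm.aemeasurable hBad0
  have hTm : T ∈ Icc (N : ℝ) (N + 1) := by
    by_contra hc
    exact hT1 (Or.inr hc)
  have hTz : ∀ σ : ℝ, -(1 / 2) ≤ σ → σ ≤ 2 → riemannZeta (σ + T * I) ≠ 0 := by
    intro σ h1 h2 h3
    apply hT1
    left
    refine ⟨σ + T * I, ⟨?_, h3⟩, by simp⟩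
    rw [hS, Complex.mem_reProdIm]
    have hre : ((σ : ℂ) + T * I).re = σ := by simp
    have him : ((σ : ℂ) + T * I).im = T := by simp
    rw [hre, him]
    exact ⟨⟨h1, h2⟩, hTm⟩
  have hTz' : ∀ σ : ℝ, -(1 / 2) ≤ σ → σ ≤ 2 → riemannZeta (σ - T * I) ≠ 0 := by
    intro σ h1 h2
    have h3 : (σ : ℂ) - T * I = (starRingEnd ℂ) (σ + T * I) := by simp [sub_eq_add_neg]
    rw [h3, riemannZeta_conj]
    intro hc
    exact hTz σ h1 h2 ((map_eq_zero (starRingEnd ℂ)).1 hc)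
  have hfinal : ∫ σ in (-(1 / 2) : ℝ)..2, Good_G σ T ≤ Real.exp ((C5 + C5 * I0) * (N + 1)) := by
    have hm2 : Measurable (fun σ : ℝ => Good_G σ T) := Good_measurable_slice T
    rw [intervalIntegral.integral_of_le (by norm_num), ← integral_Icc_eq_integral_Ioc,
      integral_eq_lintegral_of_nonneg_ae (Filter.Eventually.of_forall fun σ => Good_G_nonneg σ T)
        hm2.aestronglyMeasurable]
    have h1 : g T ≤ ENNReal.ofReal (C5 * Real.exp (C5 * (N + 1)) * I0) := hT2.trans htot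
    calc (∫⁻ σ in Icc (-(1 / 2) : ℝ) 2, ENNReal.ofReal (Good_G σ T)).toReal
        ≤ C5 * Real.exp (C5 * (N + 1)) * I0 := ENNReal.toReal_le_of_le_ofReal (by positivity) h1
      _ = Real.exp (C5 * (N + 1)) * (C5 * I0) := by ring
      _ ≤ Real.exp (C5 * (N + 1)) * Real.exp (C5 * I0 * (N + 1)) := by
          gcongr
          have h2 : C5 * I0 ≤ C5 * I0 * (N + 1) := by
            have : 0 ≤ C5 * I0 := by positivity
            nlinarith
          have h3 := Real.add_one_le_exp (C5 * I0 * (N + 1))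
          linarith
      _ = _ := by rw [← Real.exp_add]; congr 1; ring
  refine ⟨T, hTm.1, hTm.2, fun σ h1 h2 => ⟨hTz σ h1 h2, hTz' σ h1 h2⟩, hfinal, ?_⟩
  simp_rw [Good_conj_norm]
  exact hfinal

end Pool.Agent.H82.GY

end

section

/-!
GY module WExplicit: the smoothed explicit formula and differences of `SM` at the recurrence points, under `WB`.
* `wexplicit`: copy `explicit` of `GX/Explicit.lean` (264 lines), replacing `good_heights`, `contour`, `F_inv`, `a_summable` by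
  `wgood_heights`, `wcontour`, `wF_inv`, and `asum_summable` (with `wres_poly`).
* `wdiff_bound`: copy `a_cpow_summable`, `scale_bound`, `diff_bound` of `GX/DiffB.lean` (160 lines) in the same way.
-/

set_option autoImplicit false

namespace Pool.Agent.H82.GY

open MeasureTheory Set Complex Filter Topology
open Pool.Agent.H56.GX

private theorem WExplicit_rpow_le (x σ : ℝ) (hx : 0 < x) (h1 : -(1 / 2) ≤ σ) (h2 : σ ≤ 2) :
    x ^ σ ≤ x ^ (2 : ℝ) + x ^ (-(1 / 2) : ℝ) := by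
  have h3 : 0 < x ^ (2 : ℝ) := Real.rpow_pos_of_pos hx _
  have h4 : 0 < x ^ (-(1 / 2) : ℝ) := Real.rpow_pos_of_pos hx _
  rcases le_total 1 x with h | h
  · have := Real.rpow_le_rpow_of_exponent_le h h2
    linarith
  · have := Real.rpow_le_rpow_of_exponent_ge hx h h1
    linarith

/-- a horizontal side -/
private theorem WExplicit_side (η x T E : ℝ) (hx : 0 < x) (hT : 0 < |T|)
    (hz : ∀ σ : ℝ, -(1 / 2) ≤ σ → σ ≤ 2 → riemannZeta (σ + T * I) ≠ 0)
    (hE : ∫ σ in (-(1 / 2) : ℝ)..2, ‖((σ + T * I) * riemannZeta (σ + T * I))⁻¹‖ ≤ E) :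
    ‖∫ σ in (-(1 / 2) : ℝ)..2, fc η x (σ + T * I)‖ ≤
      Real.exp (η ^ 2 * (9 / 4 - T ^ 2) / 2) * (x ^ (2 : ℝ) + x ^ (-(1 / 2) : ℝ)) * E := by
  have hT0 : T ≠ 0 := abs_pos.1 hT
  have hne : ∀ σ : ℝ, (σ : ℂ) + T * I ≠ 0 := by
    intro σ h0
    have := congrArg Complex.im h0
    simp at this
    exact hT0 this
  have hne1 : ∀ σ : ℝ, (σ : ℂ) + T * I ≠ 1 := by
    intro σ h0
    have := congrArg Complex.im h0
    simp at this
    exact hT0 this
  have hc : ContinuousOn (fun σ : ℝ => ((σ + T * I) * riemannZeta (σ + T * I))⁻¹)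
      (uIcc (-(1 / 2) : ℝ) 2) := by
    intro σ hσ
    rw [uIcc_of_le (by norm_num)] at hσ
    have h1 : ContinuousAt (fun σ : ℝ => (σ : ℂ) + T * I) σ := by fun_prop
    have h2 : ContinuousAt (fun σ : ℝ => riemannZeta (σ + T * I)) σ := by
      have h3 : ContinuousAt riemannZeta ((σ : ℂ) + T * I) :=
        (differentiableAt_riemannZeta (hne1 σ)).continuousAt
      exact ContinuousAt.comp (f := fun σ : ℝ => (σ : ℂ) + T * I) h3 h1
    exact ((h1.mul h2).inv₀ (mul_ne_zero (hne σ) (hz σ hσ.1 hσ.2))).continuousWithinAt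
  have hi : IntervalIntegrable (fun σ : ℝ => Real.exp (η ^ 2 * (9 / 4 - T ^ 2) / 2) *
      (x ^ (2 : ℝ) + x ^ (-(1 / 2) : ℝ)) * ‖((σ + T * I) * riemannZeta (σ + T * I))⁻¹‖) volume
      (-(1 / 2) : ℝ) 2 := (hc.norm.intervalIntegrable).const_mul _
  refine (intervalIntegral.norm_integral_le_of_norm_le (by norm_num) ?_ hi).trans ?_
  · refine Filter.Eventually.of_forall fun σ hσ => ?_
    unfold fc
    rw [norm_mul, norm_mul, K_norm, Complex.norm_cpow_eq_rpow_re_of_pos hx]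
    have hre : ((σ : ℂ) + T * I).re = σ := by simp
    rw [hre]
    apply mul_le_mul_of_nonneg_right _ (norm_nonneg _)
    apply mul_le_mul _ (WExplicit_rpow_le x σ hx hσ.1.le hσ.2) (Real.rpow_nonneg hx.le _)
      (Real.exp_pos _).le
    apply Real.exp_le_exp.2
    have h1 : (σ - 1 / 2) ^ 2 ≤ 9 / 4 := by nlinarith [hσ.1, hσ.2]
    have h2 : 0 ≤ η ^ 2 := sq_nonneg η
    have h3 : η ^ 2 * ((σ - 1 / 2) ^ 2 - T ^ 2) ≤ η ^ 2 * (9 / 4 - T ^ 2) :=
      mul_le_mul_of_nonneg_left (by linarith) h2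
    linarith
  · rw [intervalIntegral.integral_const_mul]
    apply mul_le_mul_of_nonneg_left hE
    have h3 : 0 < x ^ (2 : ℝ) := Real.rpow_pos_of_pos hx _
    have h4 : 0 < x ^ (-(1 / 2) : ℝ) := Real.rpow_pos_of_pos hx _
    positivity

private theorem WExplicit_lim (η D C₄ : ℝ) (hη : 0 < η) (T : ℕ → ℝ) (hT : ∀ n : ℕ, (n : ℝ) + 1 ≤ T n) :
    Tendsto (fun n : ℕ => Real.exp (η ^ 2 * (9 / 4 - T n ^ 2) / 2) * D *
      Real.exp (C₄ * ((n + 1 : ℕ) + 1))) atTop (𝓝 0) := by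
  have h1 : Tendsto (fun n : ℕ => Real.exp (-(((n : ℝ) + 1) * ((η ^ 2 / 2) * ((n : ℝ) + 1) - 2 * |C₄|)
      - η ^ 2 * (9 / 8)))) atTop (𝓝 0) := by
    apply Real.tendsto_exp_neg_atTop_nhds_zero.comp
    apply tendsto_atTop_add_const_right
    have h2 : Tendsto (fun n : ℕ => (n : ℝ) + 1) atTop atTop :=
      tendsto_atTop_add_const_right _ _ tendsto_natCast_atTop_atTop
    apply Tendsto.atTop_mul_atTop₀ h2
    apply tendsto_atTop_add_const_right
    exact h2.const_mul_atTop (by positivity)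
  have h2 := h1.const_mul |D|
  rw [mul_zero] at h2
  refine squeeze_zero_norm (fun n => ?_) h2
  rw [norm_mul, norm_mul, Real.norm_of_nonneg (Real.exp_pos _).le,
    Real.norm_of_nonneg (Real.exp_pos _).le, Real.norm_eq_abs]
  rw [show Real.exp (η ^ 2 * (9 / 4 - T n ^ 2) / 2) * |D| * Real.exp (C₄ * ((n + 1 : ℕ) + 1)) =
    |D| * (Real.exp (η ^ 2 * (9 / 4 - T n ^ 2) / 2) * Real.exp (C₄ * ((n + 1 : ℕ) + 1))) by ring,
    ← Real.exp_add]
  apply mul_le_mul_of_nonneg_left _ (abs_nonneg _)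
  apply Real.exp_le_exp.2
  have h3 := hT n
  have h4 : (0 : ℝ) ≤ n := by positivity
  have h5 : ((n : ℝ) + 1) ^ 2 ≤ T n ^ 2 := pow_le_pow_left₀ (by positivity) h3 2
  have h6 : C₄ ≤ |C₄| := le_abs_self _
  have h7 : C₄ * (((n + 1 : ℕ) : ℝ) + 1) ≤ 2 * |C₄| * ((n : ℝ) + 1) := by
    push_cast
    have h8 : C₄ * ((n : ℝ) + 1 + 1) ≤ |C₄| * ((n : ℝ) + 1 + 1) :=
      mul_le_mul_of_nonneg_right h6 (by positivity)
    have h9 : |C₄| * ((n : ℝ) + 1 + 1) ≤ |C₄| * (2 * ((n : ℝ) + 1)) :=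
      mul_le_mul_of_nonneg_left (by linarith) (abs_nonneg _)
    linarith
  have h8 : η ^ 2 * ((n : ℝ) + 1) ^ 2 ≤ η ^ 2 * T n ^ 2 :=
    mul_le_mul_of_nonneg_left h5 (sq_nonneg _)
  nlinarith

private theorem WExplicit_sum (C : ℝ) (hC : 1 ≤ C) (h : WB C) (η : ℝ) (hη : 0 < η) :
    Summable (fun γ : Zr => ‖a η γ‖) := by
  obtain ⟨A, k, hA, hr⟩ := wres_poly C hC h
  exact asum_summable A k hA hr η hη

theorem wexplicit (C : ℝ) (hC : 1 ≤ C) (h : WB C) (η x : ℝ) (hη : 0 < η) (hx : 0 < x) :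
    (SM η x : ℂ) = J η x - 2 * K η 0 + ∑' γ : Zr, a η γ * (x : ℂ) ^ (1 / 2 + (γ : ℝ) * I : ℂ) := by
  obtain ⟨C₄, hC₄, hgood⟩ := wgood_heights C hC h
  choose T hT1 hT2 hT3 hT4 hT5 using fun n : ℕ => hgood (n + 1) (by omega)
  have hTn : ∀ n : ℕ, (n : ℝ) + 1 ≤ T n := fun n => by
    have := hT1 n
    push_cast at this
    exact this
  have hTpos : ∀ n : ℕ, 0 < T n := fun n => by
    have h1 := hTn n
    have h2 : (0 : ℝ) ≤ n := by positivity
    linarith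
  have hTtop : Tendsto T atTop atTop :=
    tendsto_atTop_mono hTn (tendsto_atTop_add_const_right _ _ tendsto_natCast_atTop_atTop)
  have hTbot : Tendsto (fun n => -T n) atTop atBot := tendsto_neg_atTop_atBot.comp hTtop
  -- the contour formula
  have hcont : ∀ n : ℕ, Rect (fc η x) (-(1 / 2)) 2 (-T n) (T n) = 2 * Real.pi * I *
      (-2 * K η 0 + ∑ γ ∈ (zr_finite (T n)).toFinset, a η γ * (x : ℂ) ^ (1 / 2 + γ * I : ℂ)) :=
    fun n => wcontour C hC h η x (T n) hη hx (hTpos n) (hT3 n)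
  -- the horizontal sides
  have htop : Tendsto (fun n : ℕ => ∫ σ in (-(1 / 2) : ℝ)..2, fc η x (σ + (T n : ℝ) * I)) atTop
      (𝓝 0) := by
    refine squeeze_zero_norm (fun n => ?_)
      (WExplicit_lim η (x ^ (2 : ℝ) + x ^ (-(1 / 2) : ℝ)) C₄ hη T hTn)
    exact WExplicit_side η x (T n) _ hx (abs_pos.2 (hTpos n).ne') (fun σ h1 h2 => (hT3 n σ h1 h2).1)
      (hT4 n)
  have hbot : Tendsto (fun n : ℕ => ∫ σ in (-(1 / 2) : ℝ)..2, fc η x (σ + ((-T n : ℝ) : ℂ) * I)) atTop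
      (𝓝 0) := by
    refine squeeze_zero_norm (fun n => ?_)
      (WExplicit_lim η (x ^ (2 : ℝ) + x ^ (-(1 / 2) : ℝ)) C₄ hη T hTn)
    have e : ∀ σ : ℝ, (σ : ℂ) + ((-T n : ℝ) : ℂ) * I = σ - T n * I := by
      intro σ
      push_cast
      ring
    have h1 := WExplicit_side η x (-T n) (Real.exp (C₄ * ((n + 1 : ℕ) + 1))) hx
      (abs_pos.2 (neg_ne_zero.2 (hTpos n).ne'))
      (fun σ h1 h2 => by rw [e σ]; exact (hT3 n σ h1 h2).2)
      (by simp only [e]; exact hT5 n)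
    rw [neg_sq] at h1
    exact h1
  -- the right side
  have hF : ∀ t : ℝ, fc η x (2 + t * I) =
      K η (2 + t * I) * (x : ℂ) ^ (2 + t * I : ℂ) * F (2 + t * I) := by
    intro t
    unfold fc
    rw [(wF_inv C hC h (2 + t * I) (by simp; norm_num) (by
      intro h0
      have := congrArg Complex.re h0
      simp at this)).2]
  have hright : Tendsto (fun n : ℕ => ∫ y in (-T n)..(T n), fc η x (2 + y * I)) atTop
      (𝓝 (2 * Real.pi * (SM η x : ℂ))) := by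
    have h1 : Integrable (fun t : ℝ => fc η x (2 + t * I)) := by
      simp only [hF]
      exact sm_line_integrable η x hη hx
    have h2 := intervalIntegral_tendsto_integral h1 hTbot hTtop
    have h3 : ∫ t : ℝ, fc η x (2 + t * I) = 2 * Real.pi * (SM η x : ℂ) := by
      rw [sm_line η x hη hx, ← mul_assoc, mul_inv_cancel₀, one_mul]
      · simp only [hF]
      · have := Real.pi_ne_zero
        simp [this]
    rw [h3] at h2
    exact h2
  -- the left side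
  have hleft : Tendsto (fun n : ℕ => ∫ y in (-T n)..(T n), fc η x (-(1 / 2) + y * I)) atTop
      (𝓝 (2 * Real.pi * J η x)) := by
    have h1 : Integrable (fun t : ℝ => fc η x (-(1 / 2) + t * I)) := J_integrable η x hη hx
    have h2 := intervalIntegral_tendsto_integral h1 hTbot hTtop
    have h3 : ∫ t : ℝ, fc η x (-(1 / 2) + t * I) = 2 * Real.pi * J η x := by
      unfold J
      rw [← mul_assoc, mul_inv_cancel₀, one_mul]
      · rfl
      · have := Real.pi_ne_zero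
        simp [this]
    rw [h3] at h2
    exact h2
  -- the sum
  have hsum : Tendsto (fun n : ℕ => ∑ γ ∈ (zr_finite (T n)).toFinset,
      a η γ * (x : ℂ) ^ (1 / 2 + γ * I : ℂ)) atTop
      (𝓝 (∑' γ : Zr, a η γ * (x : ℂ) ^ (1 / 2 + (γ : ℝ) * I : ℂ))) := by
    classical
    have h1 : Summable (fun γ : Zr => a η γ * (x : ℂ) ^ (1 / 2 + (γ : ℝ) * I : ℂ)) := by
      apply Summable.of_norm
      have h2 := (WExplicit_sum C hC h η hη).mul_right (x ^ (1 / 2 : ℝ))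
      refine h2.congr fun γ => ?_
      rw [norm_mul, Complex.norm_cpow_eq_rpow_re_of_pos hx]
      congr 2
      simp
    have h2 : Tendsto (fun n : ℕ => (zr_finite (T n)).toFinset.subtype (fun γ => γ ∈ Zr)) atTop
        atTop := by
      apply tendsto_atTop_finset_of_monotone
      · apply monotone_nat_of_le_succ
        intro n γ hγ
        rw [Finset.mem_subtype, Set.Finite.mem_toFinset] at hγ ⊢
        refine ⟨hγ.1, hγ.2.trans_le ?_⟩
        have h3 := hT2 n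
        have h4 := hT1 (n + 1)
        push_cast at h3 h4
        linarith
      · intro γ
        obtain ⟨n, hn⟩ := exists_nat_gt |(γ : ℝ)|
        refine ⟨n, ?_⟩
        rw [Finset.mem_subtype, Set.Finite.mem_toFinset]
        refine ⟨γ.2, hn.trans_le ?_⟩
        have := hTn n
        linarith
    have h3 := h1.hasSum.comp h2
    refine h3.congr fun n => ?_
    simp only [Function.comp]
    exact Finset.sum_subtype_of_mem (fun γ : ℝ => a η γ * (x : ℂ) ^ (1 / 2 + γ * I : ℂ))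
      (fun γ hγ => by
        rw [Set.Finite.mem_toFinset] at hγ
        exact hγ.1)
  -- limits
  have hL : Tendsto (fun n : ℕ => Rect (fc η x) (-(1 / 2)) 2 (-T n) (T n)) atTop
      (𝓝 (0 - 0 + I * (2 * Real.pi * (SM η x : ℂ)) - I * (2 * Real.pi * J η x))) := by
    unfold Rect
    have e1 : (((2 : ℝ)) : ℂ) = 2 := by push_cast; rfl
    have e2 : (((-(1 / 2) : ℝ)) : ℂ) = -(1 / 2) := by push_cast; rfl
    simp only [e1, e2]
    exact ((hbot.sub htop).add (hright.const_mul I)).sub (hleft.const_mul I)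
  have hR : Tendsto (fun n : ℕ => Rect (fc η x) (-(1 / 2)) 2 (-T n) (T n)) atTop
      (𝓝 (2 * Real.pi * I *
      (-2 * K η 0 + ∑' γ : Zr, a η γ * (x : ℂ) ^ (1 / 2 + (γ : ℝ) * I : ℂ)))) := by
    simp only [hcont]
    exact (hsum.const_add _).const_mul _
  have hE := tendsto_nhds_unique hL hR
  have hpi : (2 * Real.pi * I : ℂ) ≠ 0 := by
    have := Real.pi_ne_zero
    simp [this]
  have h5 : 2 * Real.pi * I * ((SM η x : ℂ) - J η x) = 2 * Real.pi * I *
      (-2 * K η 0 + ∑' γ : Zr, a η γ * (x : ℂ) ^ (1 / 2 + (γ : ℝ) * I : ℂ)) := by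
    rw [← hE]
    ring
  have h6 := mul_left_cancel₀ hpi h5
  rw [sub_eq_iff_eq_add] at h6
  rw [h6]
  ring

private theorem WExplicit_cpow_summable (C : ℝ) (hC : 1 ≤ C) (h : WB C) (η x : ℝ) (hη : 0 < η) (hx : 0 < x) :
    Summable (fun γ : Zr => a η γ * (x : ℂ) ^ (1 / 2 + (γ : ℝ) * I : ℂ)) := by
  have h1 := (WExplicit_sum C hC h η hη).mul_right (Real.sqrt x)
  refine Summable.of_norm_bounded h1 fun γ => ?_
  rw [norm_mul, cpow_norm_half x γ hx]

private theorem WExplicit_scale_bound (C : ℝ) (hC : 1 ≤ C) (h : WB C) (η τ u ε : ℝ) (hη : 0 < η) (hu : 0 < u)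
    (hu1 : u ≤ 1)
    (hτ : ∑' γ : Zr, ‖a η γ‖ * ‖Complex.exp (((γ : ℝ) * τ : ℝ) * I) - 1‖ ≤ ε) :
    ‖((SM η (Real.exp τ * u) : ℝ) : ℂ) - (Real.sqrt (Real.exp τ) : ℂ) * (SM η u : ℂ) -
        (J η (Real.exp τ * u) - 2 * K η 0) + (Real.sqrt (Real.exp τ) : ℂ) * (J η u - 2 * K η 0)‖ ≤
      Real.sqrt (Real.exp τ) * ε := by
  have hX : 0 < Real.exp τ := Real.exp_pos τ
  have hXu : 0 < Real.exp τ * u := mul_pos hX hu
  rw [wexplicit C hC h η _ hη hXu, wexplicit C hC h η u hη hu]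
  have hs1 := WExplicit_cpow_summable C hC h η _ hη hXu
  have hs2 := WExplicit_cpow_summable C hC h η u hη hu
  have h1 : (J η (Real.exp τ * u) - 2 * K η 0 +
        ∑' γ : Zr, a η γ * ((Real.exp τ * u : ℝ) : ℂ) ^ (1 / 2 + (γ : ℝ) * I : ℂ)) -
      (Real.sqrt (Real.exp τ) : ℂ) * (J η u - 2 * K η 0 +
        ∑' γ : Zr, a η γ * (u : ℂ) ^ (1 / 2 + (γ : ℝ) * I : ℂ)) -
        (J η (Real.exp τ * u) - 2 * K η 0) + (Real.sqrt (Real.exp τ) : ℂ) * (J η u - 2 * K η 0) =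
      ∑' γ : Zr, (a η γ * ((Real.exp τ * u : ℝ) : ℂ) ^ (1 / 2 + (γ : ℝ) * I : ℂ) -
        (Real.sqrt (Real.exp τ) : ℂ) * (a η γ * (u : ℂ) ^ (1 / 2 + (γ : ℝ) * I : ℂ))) := by
    rw [hs1.tsum_sub (hs2.mul_left _), tsum_mul_left]
    ring
  rw [h1]
  have hw : Summable fun γ : Zr => ‖a η γ‖ * ‖Complex.exp (((γ : ℝ) * τ : ℝ) * I) - 1‖ := by
    refine Summable.of_nonneg_of_le (fun γ => by positivity) (fun γ => ?_)
      ((WExplicit_sum C hC h η hη).mul_right 2)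
    refine mul_le_mul_of_nonneg_left ?_ (norm_nonneg _)
    refine (norm_sub_le _ _).trans ?_
    rw [Complex.norm_exp_ofReal_mul_I, norm_one]
    norm_num
  have h2 : ∀ γ : Zr, ‖a η γ * ((Real.exp τ * u : ℝ) : ℂ) ^ (1 / 2 + (γ : ℝ) * I : ℂ) -
        (Real.sqrt (Real.exp τ) : ℂ) * (a η γ * (u : ℂ) ^ (1 / 2 + (γ : ℝ) * I : ℂ))‖ ≤
      Real.sqrt (Real.exp τ) * (‖a η γ‖ * ‖Complex.exp (((γ : ℝ) * τ : ℝ) * I) - 1‖) := by
    intro γ
    have h3 : a η γ * ((Real.exp τ * u : ℝ) : ℂ) ^ (1 / 2 + (γ : ℝ) * I : ℂ) -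
        (Real.sqrt (Real.exp τ) : ℂ) * (a η γ * (u : ℂ) ^ (1 / 2 + (γ : ℝ) * I : ℂ)) =
        a η γ * ((Real.sqrt (Real.exp τ) : ℂ) * (u : ℂ) ^ (1 / 2 + ((γ : ℝ) : ℂ) * I : ℂ) *
          (Complex.exp (((γ : ℝ) * τ : ℝ) * I) - 1)) := by
      rw [← cpow_scale τ u γ hu]
      ring
    rw [h3, norm_mul, norm_mul, norm_mul, cpow_norm_half u γ hu, Complex.norm_real,
      Real.norm_of_nonneg (Real.sqrt_nonneg _)]
    have h4 : Real.sqrt u ≤ 1 := Real.sqrt_le_one.2 hu1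
    have h5 : 0 ≤ Real.sqrt (Real.exp τ) * (‖a η γ‖ * ‖Complex.exp (((γ : ℝ) * τ : ℝ) * I) - 1‖) := by
      positivity
    calc ‖a η γ‖ * (Real.sqrt (Real.exp τ) * Real.sqrt u *
          ‖Complex.exp (((γ : ℝ) * τ : ℝ) * I) - 1‖)
        = Real.sqrt u * (Real.sqrt (Real.exp τ) *
          (‖a η γ‖ * ‖Complex.exp (((γ : ℝ) * τ : ℝ) * I) - 1‖)) := by ring
      _ ≤ 1 * (Real.sqrt (Real.exp τ) *
          (‖a η γ‖ * ‖Complex.exp (((γ : ℝ) * τ : ℝ) * I) - 1‖)) :=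
          mul_le_mul_of_nonneg_right h4 h5
      _ = _ := one_mul _
  calc ‖∑' γ : Zr, (a η γ * ((Real.exp τ * u : ℝ) : ℂ) ^ (1 / 2 + (γ : ℝ) * I : ℂ) -
        (Real.sqrt (Real.exp τ) : ℂ) * (a η γ * (u : ℂ) ^ (1 / 2 + (γ : ℝ) * I : ℂ)))‖
      ≤ ∑' γ : Zr, Real.sqrt (Real.exp τ) *
          (‖a η γ‖ * ‖Complex.exp (((γ : ℝ) * τ : ℝ) * I) - 1‖) :=
        tsum_of_norm_bounded (hw.mul_left _).hasSum h2
    _ = Real.sqrt (Real.exp τ) * ∑' γ : Zr,
          (‖a η γ‖ * ‖Complex.exp (((γ : ℝ) * τ : ℝ) * I) - 1‖) := tsum_mul_left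
    _ ≤ Real.sqrt (Real.exp τ) * ε := mul_le_mul_of_nonneg_left hτ (Real.sqrt_nonneg _)

theorem wdiff_bound (C : ℝ) (hC : 1 ≤ C) (h : WB C) (η τ u u' ε CS CL CJ : ℝ) (hη : 0 < η)
    (hτ0 : 0 ≤ τ)
    (hu : 1 / 4 ≤ u) (hu1 : u ≤ 17 / 20) (hu' : 1 / 4 ≤ u') (hu1' : u' ≤ 17 / 20)
    (hCS : ∀ y : ℝ, 0 < y → y ≤ 17 / 20 → |SM η y| ≤ CS)
    (hCL : ∀ x y : ℝ, 1 / 4 ≤ x → x ≤ 1 → 1 / 4 ≤ y → y ≤ 1 → ‖J η x - J η y‖ ≤ CL * |x - y|)
    (hCJ : ∀ x : ℝ, 1 / 4 ≤ x → ‖J η x‖ ≤ CJ)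
    (hτ : ∑' γ : Zr, ‖a η γ‖ * ‖Complex.exp (((γ : ℝ) * τ : ℝ) * I) - 1‖ ≤ ε) :
    |SM η (Real.exp τ * u) - SM η (Real.exp τ * u')| ≤
      2 * CJ + Real.sqrt (Real.exp τ) * (2 * CS + CL * |u - u'| + 2 * ε) := by
  have hX1 : 1 ≤ Real.exp τ := Real.one_le_exp hτ0
  have h1 := WExplicit_scale_bound C hC h η τ u ε hη (by linarith) (by linarith) hτ
  have h2 := WExplicit_scale_bound C hC h η τ u' ε hη (by linarith) (by linarith) hτ
  set X := Real.exp τ with hX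
  set q := Real.sqrt X with hq
  have hq0 : 0 ≤ q := Real.sqrt_nonneg _
  set E : ℂ := ((SM η (X * u) : ℝ) : ℂ) - (q : ℂ) * (SM η u : ℂ) -
        (J η (X * u) - 2 * K η 0) + (q : ℂ) * (J η u - 2 * K η 0) with hE
  set E' : ℂ := ((SM η (X * u') : ℝ) : ℂ) - (q : ℂ) * (SM η u' : ℂ) -
        (J η (X * u') - 2 * K η 0) + (q : ℂ) * (J η u' - 2 * K η 0) with hE'
  have h3 : (((SM η (X * u) - SM η (X * u') : ℝ)) : ℂ) =
      (E - E') + (q : ℂ) * ((SM η u - SM η u' : ℝ) : ℂ) + (J η (X * u) - J η (X * u')) -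
        (q : ℂ) * (J η u - J η u') := by
    rw [hE, hE']
    push_cast
    ring
  have h4 : |SM η (X * u) - SM η (X * u')| = ‖(((SM η (X * u) - SM η (X * u') : ℝ)) : ℂ)‖ := by
    rw [Complex.norm_real, Real.norm_eq_abs]
  rw [h4, h3]
  have hXu : 1 / 4 ≤ X * u := by nlinarith
  have hXu' : 1 / 4 ≤ X * u' := by nlinarith
  have b1 : ‖E - E'‖ ≤ 2 * (q * ε) := (norm_sub_le _ _).trans (by linarith)
  have b2 : ‖(q : ℂ) * ((SM η u - SM η u' : ℝ) : ℂ)‖ ≤ q * (2 * CS) := by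
    rw [norm_mul, Complex.norm_real, Complex.norm_real, Real.norm_of_nonneg hq0, Real.norm_eq_abs]
    refine mul_le_mul_of_nonneg_left ?_ hq0
    have := abs_sub (SM η u) (SM η u')
    have e1 := hCS u (by linarith) hu1
    have e2 := hCS u' (by linarith) hu1'
    linarith
  have b3 : ‖J η (X * u) - J η (X * u')‖ ≤ 2 * CJ :=
    (norm_sub_le _ _).trans (by have := hCJ _ hXu; have := hCJ _ hXu'; linarith)
  have b4 : ‖(q : ℂ) * (J η u - J η u')‖ ≤ q * (CL * |u - u'|) := by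
    rw [norm_mul, Complex.norm_real, Real.norm_of_nonneg hq0]
    exact mul_le_mul_of_nonneg_left (hCL u u' hu (by linarith) hu' (by linarith)) hq0
  calc ‖(E - E') + (q : ℂ) * ((SM η u - SM η u' : ℝ) : ℂ) + (J η (X * u) - J η (X * u')) -
        (q : ℂ) * (J η u - J η u')‖
      ≤ ‖E - E'‖ + ‖(q : ℂ) * ((SM η u - SM η u' : ℝ) : ℂ)‖ + ‖J η (X * u) - J η (X * u')‖ +
        ‖(q : ℂ) * (J η u - J η u')‖ := by
        refine (norm_sub_le _ _).trans (add_le_add_left ?_ _)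
        exact (norm_add_le _ _).trans (add_le_add_left (norm_add_le _ _) _)
    _ ≤ _ := by
        nlinarith

end Pool.Agent.H82.GY

end

section

/-!
GY module FinalY: assembly.
-/

set_option autoImplicit false

namespace Pool.Agent.H82.GY

open MeasureTheory Set Complex Filter Topology
open Pool.Agent.H56.GX

/-- slow functions are small compared with `X` -/
theorem slow_small (g : ℝ → ℝ) (hg : Reg g) (θ X₁ M : ℝ) (hθ1 : θ ≤ 1)
    (hs : ∀ X : ℝ, X₁ ≤ X → g X ≤ (Real.log (Real.log X)) ^ θ) :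
    ∃ X₂ : ℝ, ∀ X : ℝ, X₂ ≤ X → M * g X ≤ X := by
  have h1 : ∀ᶠ X : ℝ in atTop, 1 ≤ Real.log (Real.log X) :=
    (Real.tendsto_log_atTop.comp Real.tendsto_log_atTop).eventually_ge_atTop 1
  have h2 : ∀ᶠ X : ℝ in atTop, ‖Real.log X‖ ≤ (1 / (|M| + 1)) * ‖id X‖ :=
    Real.isLittleO_log_id_atTop.bound (by positivity)
  obtain ⟨X₂, hX₂⟩ := eventually_atTop.1 ((h1.and h2).and (eventually_ge_atTop (max X₁ 1)))
  refine ⟨X₂, fun X hX => ?_⟩
  obtain ⟨⟨e1, e2⟩, e3⟩ := hX₂ X hX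
  have e4 : X₁ ≤ X := (le_max_left _ _).trans e3
  have e5 : 1 ≤ X := (le_max_right _ _).trans e3
  have hX0 : 0 < X := by linarith
  have e6 := hs X e4
  have e7 : (Real.log (Real.log X)) ^ θ ≤ Real.log (Real.log X) := by
    have := Real.rpow_le_rpow_of_exponent_le e1 hθ1
    rwa [Real.rpow_one] at this
  have e8 : 0 < Real.log X := by
    by_contra hcon
    push Not at hcon
    have : Real.log X = 0 := le_antisymm hcon (Real.log_nonneg e5)
    rw [this, Real.log_zero] at e1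
    linarith
  have e9 : Real.log (Real.log X) ≤ Real.log X := by
    have := Real.log_le_sub_one_of_pos e8
    linarith
  have e10 : Real.log X ≤ (1 / (|M| + 1)) * X := by
    rw [Real.norm_of_nonneg e8.le, id, Real.norm_of_nonneg hX0.le] at e2
    exact e2
  have hg1 := hg.one_le X
  have e11 : g X ≤ (1 / (|M| + 1)) * X := by linarith
  have e12 : M * g X ≤ (|M| + 1) * g X := by
    have := le_abs_self M
    nlinarith
  refine e12.trans ?_
  calc (|M| + 1) * g X ≤ (|M| + 1) * ((1 / (|M| + 1)) * X) :=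
        mul_le_mul_of_nonneg_left e11 (by positivity)
    _ = X := by
        have : (|M| + 1) ≠ 0 := by positivity
        field_simp

/-- the selected scale -/
theorem scale (g : ℝ → ℝ) (hg : Reg g) (hlim : Tendsto g atTop atTop) (θ' X₁ : ℝ) (hθ0 : 0 ≤ θ')
    (hs : ∀ X : ℝ, X₁ ≤ X → g X ≤ (Real.log (Real.log X)) ^ θ')
    (Dq ε : ℝ) (hD : 0 < Dq) (hε : 0 < ε) (hεθ : (1 + 2 * ε) * θ' < 1) (T₀ Xm : ℝ)
    (hrec : ∀ η τ₀ : ℝ, 0 < η → η ≤ 1 / 2 → 1 ≤ τ₀ →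
      ∃ τ : ℝ, τ₀ ≤ τ ∧ τ ≤ τ₀ * Real.exp (Dq * (1 / η) * (Real.log (1 / η)) ^ 3) ∧
        ∑' γ : Zr, ‖a η γ‖ * ‖Complex.exp (((γ : ℝ) * τ : ℝ) * I) - 1‖ ≤ η ^ 2) :
    ∃ T τ : ℝ, T₀ ≤ T ∧ 2 ≤ T ∧ 0 ≤ τ ∧ Xm ≤ Real.exp τ ∧ T / 2 ≤ g (Real.exp τ) ∧ g (Real.exp τ) ≤ T ∧
      ∑' γ : Zr, ‖a (T ^ (-(1 + ε))) γ‖ * ‖Complex.exp (((γ : ℝ) * τ : ℝ) * I) - 1‖ ≤
        (T ^ (-(1 + ε))) ^ 2 := by
  set G : ℝ → ℝ := fun y => g (Real.exp (Real.exp y)) with hG
  have hGm : Monotone G := by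
    intro y z hyz
    exact hg.mono (Real.exp_le_exp.2 (Real.exp_le_exp.2 hyz))
  have hG1 : ∀ y, 1 ≤ G y := fun y => hg.one_le _
  have hslow : ∀ y : ℝ, X₁ ≤ y → G y ≤ y ^ θ' := by
    intro y hy
    have h1 : y ≤ Real.exp (Real.exp y) := by
      have e1 := Real.add_one_le_exp y
      have e2 := Real.add_one_le_exp (Real.exp y)
      linarith
    have h2 := hs (Real.exp (Real.exp y)) (hy.trans h1)
    rw [Real.log_exp, Real.log_exp] at h2
    exact h2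
  have hGlim : Tendsto G atTop atTop :=
    hlim.comp (Real.tendsto_exp_atTop.comp Real.tendsto_exp_atTop)
  obtain ⟨y₂, hy₂⟩ := eventually_atTop.1 (hGlim.eventually_ge_atTop T₀)
  set A : ℝ := Dq * ((1 + ε) * (3 / ε)) ^ 3 with hA
  have hA0 : 0 < A := by positivity
  obtain ⟨y, hy, hGy⟩ := select G hGm hG1 (1 + 2 * ε) θ' A X₁ (by linarith) hθ0 hεθ hA0 hslow
    (max y₂ (max Xm 0))
  have hy2 : y₂ ≤ y := (le_max_left _ _).trans hy
  have hyX : Xm ≤ y := ((le_max_left _ _).trans (le_max_right _ _)).trans hy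
  have hy0 : 0 ≤ y := ((le_max_right _ _).trans (le_max_right _ _)).trans hy
  set T : ℝ := 2 * G y with hT
  have hT1 : 2 ≤ T := by
    have := hG1 y
    linarith
  have hTT : T₀ ≤ T := by
    have h1 := hy₂ y hy2
    have h2 := hG1 y
    linarith
  have hT0 : 0 < T := by linarith
  set η : ℝ := T ^ (-(1 + ε)) with hη
  have hη0 : 0 < η := Real.rpow_pos_of_pos hT0 _
  have hηinv : 1 / η = T ^ (1 + ε) := by
    rw [hη, Real.rpow_neg hT0.le, one_div, inv_inv]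
  have hη12 : η ≤ 1 / 2 := by
    have h1 : (2 : ℝ) ≤ T ^ (1 + ε) := by
      calc (2 : ℝ) ≤ T := hT1
        _ = T ^ (1 : ℝ) := (Real.rpow_one T).symm
        _ ≤ T ^ (1 + ε) := Real.rpow_le_rpow_of_exponent_le (by linarith) (by linarith)
    rw [← hηinv] at h1
    rw [le_div_iff₀ hη0] at h1
    linarith
  obtain ⟨τ, hτ1, hτ2, hτ3⟩ := hrec η (Real.exp y) hη0 hη12 (Real.one_le_exp hy0)
  have hτ0 : 0 ≤ τ := (Real.exp_pos y).le.trans hτ1
  refine ⟨T, τ, hTT, hT1, hτ0, ?_, ?_, ?_, hτ3⟩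
  · have e1 := Real.add_one_le_exp y
    have e2 := Real.add_one_le_exp τ
    linarith
  · have h1 : G y ≤ g (Real.exp τ) := hg.mono (Real.exp_le_exp.2 hτ1)
    rw [hT]
    linarith
  · have hlog : Real.log (1 / η) = (1 + ε) * Real.log T := by
      rw [hηinv, Real.log_rpow hT0]
    have hlogT : Real.log T ≤ T ^ (ε / 3) / (ε / 3) := Real.log_le_rpow_div hT0.le (by positivity)
    have hlogT0 : 0 ≤ Real.log T := Real.log_nonneg (by linarith)
    have h1 : (Real.log (1 / η)) ^ 3 ≤ ((1 + ε) * (3 / ε)) ^ 3 * T ^ ε := by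
      rw [hlog]
      have h2 : (1 + ε) * Real.log T ≤ (1 + ε) * (3 / ε) * T ^ (ε / 3) := by
        have h3 : T ^ (ε / 3) / (ε / 3) = 3 / ε * T ^ (ε / 3) := by
          field_simp
        rw [h3] at hlogT
        calc (1 + ε) * Real.log T ≤ (1 + ε) * (3 / ε * T ^ (ε / 3)) :=
              mul_le_mul_of_nonneg_left hlogT (by positivity)
          _ = _ := by ring
      have h4 : ((1 + ε) * Real.log T) ^ 3 ≤ ((1 + ε) * (3 / ε) * T ^ (ε / 3)) ^ 3 :=
        pow_le_pow_left₀ (by positivity) h2 3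
      refine h4.trans (le_of_eq ?_)
      rw [mul_pow _ (T ^ (ε / 3)) 3, ← Real.rpow_natCast (T ^ (ε / 3)) 3, ← Real.rpow_mul hT0.le]
      congr 2
      push_cast
      ring
    have h2 : Dq * (1 / η) * (Real.log (1 / η)) ^ 3 ≤ A * T ^ (1 + 2 * ε) := by
      rw [hηinv]
      rw [hηinv] at h1
      calc Dq * T ^ (1 + ε) * (Real.log (T ^ (1 + ε))) ^ 3
          ≤ Dq * T ^ (1 + ε) * (((1 + ε) * (3 / ε)) ^ 3 * T ^ ε) :=
            mul_le_mul_of_nonneg_left h1 (by positivity)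
        _ = A * (T ^ (1 + ε) * T ^ ε) := by rw [hA]; ring
        _ = A * T ^ (1 + 2 * ε) := by
            rw [← Real.rpow_add hT0]
            congr 2
            ring
    have h3 : τ ≤ Real.exp (y + A * T ^ (1 + 2 * ε)) := by
      refine hτ2.trans ?_
      rw [← Real.exp_add]
      exact Real.exp_le_exp.2 (by linarith)
    have h4 : g (Real.exp τ) ≤ G (y + A * T ^ (1 + 2 * ε)) := hg.mono (Real.exp_le_exp.2 h3)
    exact h4.trans hGy

/-- parameters: powers of `T` beat constants -/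
theorem params (ε M₁ M₂ : ℝ) (hε : 0 < ε) : ∃ T₀ : ℝ, 40 ≤ T₀ ∧ ∀ T : ℝ, T₀ ≤ T →
    M₁ ≤ T ^ (2 * ε) ∧ M₂ ≤ T ^ (3 / 8 : ℝ) := by
  have h1 : Tendsto (fun T : ℝ => T ^ (2 * ε)) atTop atTop := tendsto_rpow_atTop (by positivity)
  have h2 : Tendsto (fun T : ℝ => T ^ (3 / 8 : ℝ)) atTop atTop := tendsto_rpow_atTop (by norm_num)
  obtain ⟨N, hN⟩ := eventually_atTop.1
    ((h1.eventually_ge_atTop M₁).and (h2.eventually_ge_atTop M₂))
  refine ⟨max N 40, le_max_right _ _, fun T hT => hN T ((le_max_left _ _).trans hT)⟩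

/-- the size of `Q` -/
theorem final_Qy (c CS CL ε T : ℝ) (hc : 0 < c) (hCS : 0 < CS) (hCL : 0 < CL) (hε : 0 < ε) (hε4 : ε ≤ 1 / 4)
    (hT : 40 ≤ T) (hM : 120 * (2 * CS + 2 + CL) ^ 2 / c ≤ T ^ (3 / 8 : ℝ)) :
    (2 * (CS * (T ^ (-(1 + ε))) ^ 2) + CL * (T ^ (-(1 + ε))) ^ (-(1 / 4) : ℝ) * (2 / 5 * (1 / T)) +
      2 * (T ^ (-(1 + ε))) ^ 2) ^ 2 ≤ c / (120 * T) := by
  have hT0 : 0 < T := by linarith
  have hT1 : 1 ≤ T := by linarith
  have e1 : (T ^ (-(1 + ε))) ^ 2 ≤ T ^ (-(11 / 16) : ℝ) := by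
    rw [← Real.rpow_natCast (T ^ (-(1 + ε))) 2, ← Real.rpow_mul hT0.le]
    apply Real.rpow_le_rpow_of_exponent_le hT1
    push_cast
    linarith
  have e2 : (T ^ (-(1 + ε))) ^ (-(1 / 4) : ℝ) * (2 / 5 * (1 / T)) ≤ T ^ (-(11 / 16) : ℝ) := by
    rw [← Real.rpow_mul hT0.le]
    have h1 : T ^ (-(1 + ε) * -(1 / 4)) ≤ T ^ (5 / 16 : ℝ) :=
      Real.rpow_le_rpow_of_exponent_le hT1 (by linarith)
    have h2 : T ^ (-(11 / 16) : ℝ) = T ^ (5 / 16 : ℝ) * (1 / T) := by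
      have : (-(11 / 16) : ℝ) = 5 / 16 + (-1) := by norm_num
      rw [this, Real.rpow_add hT0, Real.rpow_neg_one, one_div]
    rw [h2]
    have h3 : 0 < T ^ (5 / 16 : ℝ) := Real.rpow_pos_of_pos hT0 _
    have h4 : 0 < 1 / T := by positivity
    calc T ^ (-(1 + ε) * -(1 / 4)) * (2 / 5 * (1 / T)) ≤ T ^ (5 / 16 : ℝ) * (2 / 5 * (1 / T)) :=
          mul_le_mul_of_nonneg_right h1 (by positivity)
      _ ≤ T ^ (5 / 16 : ℝ) * (1 / T) := by
          apply mul_le_mul_of_nonneg_left _ h3.le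
          linarith
  set L : ℝ := 2 * CS + 2 + CL with hL
  have hL0 : 0 < L := by positivity
  set p : ℝ := T ^ (-(11 / 16) : ℝ) with hp
  have hp0 : 0 < p := Real.rpow_pos_of_pos hT0 _
  have e3 : 2 * (CS * (T ^ (-(1 + ε))) ^ 2) + CL * (T ^ (-(1 + ε))) ^ (-(1 / 4) : ℝ) * (2 / 5 * (1 / T)) +
      2 * (T ^ (-(1 + ε))) ^ 2 ≤ L * p := by
    have h1 := mul_le_mul_of_nonneg_left e1 hCS.le
    have h2 := mul_le_mul_of_nonneg_left e2 hCL.le
    have h3 : CL * (T ^ (-(1 + ε))) ^ (-(1 / 4) : ℝ) * (2 / 5 * (1 / T)) =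
        CL * ((T ^ (-(1 + ε))) ^ (-(1 / 4) : ℝ) * (2 / 5 * (1 / T))) := by ring
    rw [h3, hL]
    nlinarith
  have e4 : 0 ≤ 2 * (CS * (T ^ (-(1 + ε))) ^ 2) +
      CL * (T ^ (-(1 + ε))) ^ (-(1 / 4) : ℝ) * (2 / 5 * (1 / T)) + 2 * (T ^ (-(1 + ε))) ^ 2 := by
    have := Real.rpow_pos_of_pos hT0 (-(1 + ε))
    have := Real.rpow_pos_of_pos this (-(1 / 4) : ℝ)
    positivity
  have e5 := pow_le_pow_left₀ e4 e3 2
  refine e5.trans ?_
  have e6 : p ^ 2 * T ^ (3 / 8 : ℝ) = 1 / T := by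
    rw [hp, ← Real.rpow_natCast (T ^ (-(11 / 16) : ℝ)) 2, ← Real.rpow_mul hT0.le,
      ← Real.rpow_add hT0, one_div, ← Real.rpow_neg_one]
    congr 1
    norm_num
  have e7 : 120 * L ^ 2 ≤ T ^ (3 / 8 : ℝ) * c := by
    rwa [div_le_iff₀ hc] at hM
  have e8 : L ^ 2 * p ^ 2 * 120 ≤ c * (1 / T) := by
    calc L ^ 2 * p ^ 2 * 120 = (120 * L ^ 2) * p ^ 2 := by ring
      _ ≤ (T ^ (3 / 8 : ℝ) * c) * p ^ 2 := mul_le_mul_of_nonneg_right e7 (sq_nonneg _)
      _ = c * (p ^ 2 * T ^ (3 / 8 : ℝ)) := by ring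
      _ = c * (1 / T) := by rw [e6]
  rw [mul_pow]
  have e9 : c / (120 * T) = c * (1 / T) / 120 := by
    field_simp
  rw [e9, le_div_iff₀ (by norm_num)]
  exact e8

/-- the size of the smoothing error -/
theorem final_Ry (B c A₁ C κ₂ ε T X gX : ℝ) (hB : 0 < B) (hA₁ : 0 < A₁) (hC : 1 ≤ C)
    (hκ : 0 < κ₂) (hκc : κ₂ ≤ c / (300 * A₁ * B)) (hT : 40 ≤ T) (hX : 0 < X)
    (hgX : gX ≤ T) (hM : (B / κ₂ + 2 * C) / (B * κ₂) ≤ T ^ (2 * ε)) :
    15 * (A₁ * (B * ((κ₂ * X / T) / X + (T ^ (-(1 + ε))) ^ 2 * X / (κ₂ * X / T)) +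
      (2 * C * gX) * (T ^ (-(1 + ε))) ^ 2) * X ^ 2) / X ≤ c * X / (10 * T) := by
  have hT0 : 0 < T := by linarith
  set η2 : ℝ := (T ^ (-(1 + ε))) ^ 2 with hη2
  have hη20 : 0 < η2 := by
    have := Real.rpow_pos_of_pos hT0 (-(1 + ε))
    positivity
  have e1 : η2 * T * T ^ (2 * ε) = 1 / T := by
    rw [hη2, ← Real.rpow_natCast (T ^ (-(1 + ε))) 2, ← Real.rpow_mul hT0.le]
    nth_rewrite 2 [← Real.rpow_one T]
    rw [← Real.rpow_add hT0, ← Real.rpow_add hT0, one_div, ← Real.rpow_neg_one]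
    congr 1
    push_cast
    ring
  have e2 : (B / κ₂ + 2 * C) * (η2 * T) ≤ B * κ₂ / T := by
    rw [div_le_iff₀ (by positivity)] at hM
    have h1 : 0 < η2 * T := by positivity
    calc (B / κ₂ + 2 * C) * (η2 * T) ≤ (T ^ (2 * ε) * (B * κ₂)) * (η2 * T) :=
          mul_le_mul_of_nonneg_right hM h1.le
      _ = (η2 * T * T ^ (2 * ε)) * (B * κ₂) := by ring
      _ = B * κ₂ / T := by rw [e1]; ring
  have e3 : B * ((κ₂ * X / T) / X + η2 * X / (κ₂ * X / T)) + (2 * C * gX) * η2 ≤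
      2 * (B * κ₂ / T) := by
    have h1 : (κ₂ * X / T) / X = κ₂ / T := by field_simp
    have h2 : η2 * X / (κ₂ * X / T) = η2 * T / κ₂ := by field_simp
    have h3 : (2 * C * gX) * η2 ≤ 2 * C * (η2 * T) := by
      have : 2 * C * η2 * gX ≤ 2 * C * η2 * T := mul_le_mul_of_nonneg_left hgX (by positivity)
      linarith
    rw [h1, h2]
    have h4 : B * (κ₂ / T + η2 * T / κ₂) = B * κ₂ / T + (B / κ₂) * (η2 * T) := by
      field_simp
    rw [h4]
    linarith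
  have e4 : 15 * (A₁ * (B * ((κ₂ * X / T) / X + η2 * X / (κ₂ * X / T)) +
      (2 * C * gX) * η2) * X ^ 2) / X ≤ 15 * (A₁ * (2 * (B * κ₂ / T)) * X ^ 2) / X := by
    apply div_le_div_of_nonneg_right _ hX.le
    apply mul_le_mul_of_nonneg_left _ (by norm_num)
    apply mul_le_mul_of_nonneg_right _ (by positivity)
    exact mul_le_mul_of_nonneg_left e3 hA₁.le
  refine e4.trans ?_
  have e5 : κ₂ * (300 * A₁ * B) ≤ c := by
    rwa [le_div_iff₀ (by positivity)] at hκc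
  have e6 : 15 * (A₁ * (2 * (B * κ₂ / T)) * X ^ 2) / X = (κ₂ * (300 * A₁ * B)) * X / (10 * T) := by
    field_simp
    ring
  rw [e6]
  apply div_le_div_of_nonneg_right _ (by positivity)
  exact mul_le_mul_of_nonneg_right e5 hX.le

theorem no_hyp (c B : ℝ) (hc : 0 < c) (hB : 0 < B) : ∃ κ : ℝ, 0 < κ ∧ κ ≤ 1 / 128 ∧
    ∀ (g : ℝ → ℝ) (θ' X₁ : ℝ), Reg g → Tendsto g atTop atTop → 0 ≤ θ' → θ' < 1 →
      (∀ X : ℝ, X₁ ≤ X → g X ≤ (Real.log (Real.log X)) ^ θ') → ∀ X₀ : ℝ, ¬ Hyp c B κ X₀ g := by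
  obtain ⟨A₁, hA₁, herr⟩ := werr
  obtain ⟨CS, hCS0, hCS⟩ := SM_small
  obtain ⟨CL, hCL0, hCL⟩ := J_lip
  obtain ⟨CJ, hCJ0, hCJ⟩ := J_bdd_unif
  set κ₂ : ℝ := min (1 / 160) (c / (300 * A₁ * B)) with hκ₂
  have hκ₂0 : 0 < κ₂ := lt_min (by norm_num) (by positivity)
  have hκ₂a : κ₂ ≤ 1 / 160 := min_le_left _ _
  have hκ₂b : κ₂ ≤ c / (300 * A₁ * B) := min_le_right _ _
  refine ⟨κ₂ / 128, by positivity, by linarith, ?_⟩
  intro g θ' X₁ hg hlim hθ0 hθ1 hs X₀ hyp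
  have hw := win_of_hyp c B (κ₂ / 128) X₀ g hg hB.le (by positivity) hyp
  obtain ⟨C, hC, hS⟩ := sb B (κ₂ / 128) (max X₀ 1) g hg hB.le (by positivity) (by linarith)
    (le_max_right _ _) hw
  obtain ⟨C', hC', hWB⟩ := wb_of_slow C hC g hg hS θ' X₁ hθ0 hθ1.le hs
  obtain ⟨A₂, k, hA₂, hr⟩ := wres_poly C' hC' hWB
  obtain ⟨Dq, hDq, hrec⟩ := recurQ A₂ k hA₂ hr
  set ε : ℝ := (1 - θ') / 4 with hε
  have hε0 : 0 < ε := by
    rw [hε]
    linarith
  have hε4 : ε ≤ 1 / 4 := by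
    rw [hε]
    linarith
  have hεθ : (1 + 2 * ε) * θ' < 1 := by
    rw [hε]
    nlinarith
  obtain ⟨T₀, hT₀, hpar⟩ := params ε ((B / κ₂ + 2 * C) / (B * κ₂))
    (120 * (2 * CS + 2 + CL) ^ 2 / c) hε0
  obtain ⟨X₂, hX₂⟩ := slow_small g hg θ' X₁ (960 * CJ ^ 2 / c) hθ1.le hs
  obtain ⟨T, τ, hTT, hT2, hτ0, hXm, hg1, hg2, hrecT⟩ := scale g hg hlim θ' X₁ hθ0 hs Dq ε hDq hε0 hεθ T₀
    (max (8 * max X₀ 1) X₂) hrec
  obtain ⟨hM₁, hM₂⟩ := hpar T hTT
  have hT40 : 40 ≤ T := hT₀.trans hTT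
  have hT0 : 0 < T := by linarith
  set X : ℝ := Real.exp τ with hX
  have hX0 : 0 < X := Real.exp_pos τ
  have hX8 : 8 * max X₀ 1 ≤ X := (le_max_left _ _).trans hXm
  have hXX₂ : X₂ ≤ X := (le_max_right _ _).trans hXm
  have hm1 : 1 ≤ max X₀ 1 := le_max_right _ _
  have hX1 : 1 ≤ X := by linarith
  set η : ℝ := T ^ (-(1 + ε)) with hη
  have hη0 : 0 < η := Real.rpow_pos_of_pos hT0 _
  have hη1 : η ≤ 1 := by
    rw [hη]
    apply Real.rpow_le_one_of_one_le_of_nonpos (by linarith)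
    linarith
  -- values of g near X
  have hgY : ∀ Y : ℝ, X / 8 ≤ Y → Y ≤ 2 * X → T / 16 ≤ g Y ∧ g Y ≤ 2 * T := by
    intro Y hY1 hY2
    have e1 := hg.mono hY1
    have e2 := hg.mono hY2
    have e3 := hg.dbl X
    have e4 := hg.dbl (X / 8)
    have e5 := hg.dbl (2 * (X / 8))
    have e6 := hg.dbl (2 * (2 * (X / 8)))
    have e7 : 2 * (2 * (2 * (X / 8))) = X := by ring
    rw [e7] at e6
    constructor
    · linarith
    · linarith
  set h₀ : ℝ := κ₂ * X / T with hh₀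
  have hh0 : 0 < h₀ := by positivity
  have hh160 : h₀ ≤ X / 160 := by
    rw [hh₀, div_le_div_iff₀ hT0 (by norm_num)]
    have e1 := mul_le_mul_of_nonneg_right hκ₂a hX0.le
    have e2 := mul_le_mul_of_nonneg_left hT40 hX0.le
    linarith
  have hLW : LW B X h₀ := by
    intro Y u hY1 hY2 hu1 hu2
    obtain ⟨g1, g2⟩ := hgY Y hY1 hY2
    have hgY0 : 0 < g Y := by linarith
    have hY0 : 0 < Y := by linarith
    refine hw Y u (by linarith) ?_ ?_
    · refine le_trans ?_ hu1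
      rw [hh₀, div_le_iff₀ hgY0]
      have e1 : κ₂ * X / T / 2 * (T / 16) = κ₂ * X / 32 := by
        field_simp
        ring
      have e2 : κ₂ * X / T / 2 * (T / 16) ≤ κ₂ * X / T / 2 * g Y :=
        mul_le_mul_of_nonneg_left g1 (by positivity)
      have e3 : κ₂ * Y ≤ κ₂ * (2 * X) := mul_le_mul_of_nonneg_left hY2 hκ₂0.le
      linarith
    · refine hu2.trans ?_
      rw [hh₀, le_div_iff₀ (by positivity)]
      have e1 : 2 * (κ₂ * X / T) * (2 * g Y) ≤ 2 * (κ₂ * X / T) * (2 * (2 * T)) :=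
        mul_le_mul_of_nonneg_left (by linarith) (by positivity)
      have e2 : 2 * (κ₂ * X / T) * (2 * (2 * T)) = 8 * (κ₂ * X) := by
        field_simp
        ring
      have e3 := mul_le_mul_of_nonneg_right hκ₂a hX0.le
      linarith
  have hMS : MSc (2 * C * g X) X := msc_of_sb C hC g hg hS X hX0
  have hgX1 := hg.one_le X
  have hR := herr B X h₀ η (2 * C * g X) hB.le hX1 hh0 hh160 hLW (by positivity) hMS hη0 hη1
  -- the difference bound
  set q := Real.sqrt X with hq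
  have hqq : q ^ 2 = X := Real.sq_sqrt hX0.le
  set Q := 2 * (CS * η ^ 2) + CL * η ^ (-(1 / 4) : ℝ) * (2 / 5 * (1 / T)) + 2 * η ^ 2 with hQ
  have hδ1 : 1 / T ≤ 1 / 40 := one_div_le_one_div_of_le (by norm_num) hT40
  have hδ0 : 0 < 1 / T := by positivity
  have hD : ∀ x : ℝ, 2 / 5 * X ≤ x → x ≤ 4 / 5 * X →
      |SM η (x + 1 / T * (2 / 5 * X) / 2) - SM η (x - 1 / T * (2 / 5 * X) / 2)| ≤ 2 * CJ + q * Q := by
    intro x hx1 hx2
    have hs1 : 0 ≤ 1 / T * (2 / 5 * X) / 2 := by positivity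
    have hs' : 1 / T * (2 / 5 * X) / 2 ≤ X / 100 := final_sh (1 / T) X hX0 hδ1
    have e1 : x + 1 / T * (2 / 5 * X) / 2 = X * ((x + 1 / T * (2 / 5 * X) / 2) / X) := by
      field_simp
    have e2 : x - 1 / T * (2 / 5 * X) / 2 = X * ((x - 1 / T * (2 / 5 * X) / 2) / X) := by
      field_simp
    have hd := wdiff_bound C' hC' hWB η τ ((x + 1 / T * (2 / 5 * X) / 2) / X)
      ((x - 1 / T * (2 / 5 * X) / 2) / X) (η ^ 2) (CS * η ^ 2) (CL * η ^ (-(1 / 4) : ℝ)) CJ hη0 hτ0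
      (by rw [le_div_iff₀ hX0]; linarith) (by rw [div_le_iff₀ hX0]; linarith)
      (by rw [le_div_iff₀ hX0]; linarith) (by rw [div_le_iff₀ hX0]; linarith)
      (fun y hy1 hy2 => hCS η y hη0 hη1 hy1 hy2)
      (fun x y h1 h2 h3 h4 => hCL η x y hη0 hη1 h1 h2 h3 h4)
      (fun x hx => hCJ η x hη0 hη1 hx) hrecT
    rw [← hX, ← e1, ← e2] at hd
    have e3 : |(x + 1 / T * (2 / 5 * X) / 2) / X - (x - 1 / T * (2 / 5 * X) / 2) / X| =
        2 / 5 * (1 / T) := by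
      have : (x + 1 / T * (2 / 5 * X) / 2) / X - (x - 1 / T * (2 / 5 * X) / 2) / X =
          2 / 5 * (1 / T) := by
        field_simp
        ring
      rw [this, abs_of_nonneg (by positivity)]
    rw [e3] at hd
    exact hd
  have hvar := var_bound η X (1 / T) _ _ hη0 hX0 hδ0 (by linarith) hR hD
  -- the lower bound
  have hX25 : 0 < 2 / 5 * X := by positivity
  have hgX' : T / 8 ≤ g (2 / 5 * X) ∧ g (2 / 5 * X) ≤ T := by
    have e1 : X / 4 ≤ 2 / 5 * X := by linarith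
    have e2 := hg.mono e1
    have e3 := hg.dbl (X / 4)
    have e4 := hg.dbl (2 * (X / 4))
    have e5 : 2 * (2 * (X / 4)) = X := by ring
    rw [e5] at e4
    have e6 := hg.mono (show 2 / 5 * X ≤ X by linarith)
    constructor
    · linarith
    · linarith
  have hg0' : 0 < g (2 / 5 * X) := by linarith [hgX'.1]
  have hlow := (hyp (2 / 5 * X) (1 / T * (2 / 5 * X)) (by linarith [le_max_left X₀ 1]) (by
      rw [div_le_iff₀ hg0']
      have e1 : 1 / T * (2 / 5 * X) * (T / 8) ≤ 1 / T * (2 / 5 * X) * g (2 / 5 * X) :=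
        mul_le_mul_of_nonneg_left hgX'.1 (by positivity)
      have e2 : 1 / T * (2 / 5 * X) * (T / 8) = X / 20 := by
        field_simp
        ring
      have e3 := mul_le_mul_of_nonneg_right hκ₂a hX0.le
      linarith) (by
      rw [le_div_iff₀ hg0']
      have e1 : 1 / T * (2 / 5 * X) * g (2 / 5 * X) ≤ 1 / T * (2 / 5 * X) * T :=
        mul_le_mul_of_nonneg_left hgX'.2 (by positivity)
      have e2 : 1 / T * (2 / 5 * X) * T = 2 / 5 * X := by
        field_simp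
      linarith)).1
  -- numerical contradiction
  have hQsq : Q ^ 2 ≤ c / (120 * T) := final_Qy c CS CL ε T hc hCS0 hCL0 hε0 hε4 hT40 hM₂
  have hfirst : 15 * (A₁ * (B * (h₀ / X + η ^ 2 * X / h₀) + (2 * C * g X) * η ^ 2) * X ^ 2) / X ≤
      c * X / (10 * T) :=
    final_Ry B c A₁ C κ₂ ε T X (g X) hB hA₁ hC hκ₂0 hκ₂b hT40 hX0 hg2 hM₁
  have hCJX : 480 * CJ ^ 2 * T ≤ c * X := by
    have e1 := hX₂ X hXX₂
    have e2 : 960 * CJ ^ 2 / c * (T / 2) ≤ 960 * CJ ^ 2 / c * g X :=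
      mul_le_mul_of_nonneg_left hg1 (by positivity)
    have e3 : 960 * CJ ^ 2 / c * (T / 2) ≤ X := e2.trans e1
    have e4 : 960 * CJ ^ 2 / c * (T / 2) = 480 * CJ ^ 2 * T / c := by
      ring
    rw [e4, div_le_iff₀ hc] at e3
    linarith
  have hDm : 3 * (2 * CJ + q * Q) ^ 2 ≤ c * X / (10 * T) := by
    have f1 : (2 * CJ + q * Q) ^ 2 ≤ 8 * CJ ^ 2 + 2 * (X * Q ^ 2) := by
      have g1 : (q * Q) ^ 2 = X * Q ^ 2 := by
        rw [mul_pow, hqq]
      have g2 : (2 * CJ + q * Q) ^ 2 = 8 * CJ ^ 2 + 2 * (q * Q) ^ 2 - (2 * CJ - q * Q) ^ 2 := by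
        ring
      have g3 := sq_nonneg (2 * CJ - q * Q)
      rw [g2, g1]
      linarith
    have f2 : X * Q ^ 2 ≤ X * (c / (120 * T)) := mul_le_mul_of_nonneg_left hQsq hX0.le
    have f3 : 24 * CJ ^ 2 ≤ c * X / (20 * T) := by
      rw [le_div_iff₀ (by positivity)]
      linarith
    have f4 : c * X / (10 * T) = c * X / (20 * T) + 6 * (X * (c / (120 * T))) := by
      field_simp
      ring
    rw [f4]
    linarith
  have hcd2 : c * (1 / T * (2 / 5 * X)) = 4 * (c * X / (10 * T)) := by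
    field_simp
    ring
  have hpos : 0 < c * X / (10 * T) := by positivity
  linarith

end Pool.Agent.H82.GY

end
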