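import Mathlib

/-! The parts of this file: H18.RM.Prob, H41.RG.Defs, H41.RG.CntDefs, H41.RG.Rankin, H41.RG.CountD, H41.RG.SecMom, H41.RG.SqfWin, H41.RG.MartA, H41.RG.Struct, H18.RM.Defs, H18.RM.Basic, H18.RM.Mink, H41.RG.MartB, H18.RM.Expand, H18.RM.Sqf, H18.RM.Diag, H18.RM.Chain, H18.RM.Det, H18.RM.Good, H41.RG.Net, H41.RG.LevyA. -/

section

/-!
# Random multiplicative functions (Wintner's model)

`IsSigns P e`: the `e p` are independent random signs.  `rmf e ω n = μ²(n) ∏_{p ∣ n} e_p(ω)`.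
`int_four`: `∫ f(a)f(b)f(c)f(d) = 0` for squarefree `a, b, c, d` with `abcd` not a square: the
product is `∏_{p ∈ S} e_p^{k_p}` with `S` the set of the primes dividing `abcd` and `k_p` the exponent
of `p` in `abcd`; some `k_p` is odd, and `∫ e_p^{k_p} = 0` for odd `k_p`; independence gives the
product formula (`iIndepFun.integral_prod...` in Mathlib, or induction with
`iIndepFun.indepFun_finset_prod_of_notMem`).
-/

set_option autoImplicit false

namespace Pool.Agent.H18.RM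

open Finset MeasureTheory ProbabilityTheory

/-- independent random signs -/
structure IsSigns {Ω : Type*} [MeasurableSpace Ω] (P : Measure Ω) (e : ℕ → Ω → ℝ) : Prop where
  meas : ∀ p, Measurable (e p)
  indep : iIndepFun e P
  one : ∀ p, P {ω | e p ω = 1} = 1 / 2
  neg : ∀ p, P {ω | e p ω = -1} = 1 / 2

/-- the random multiplicative function supported on the squarefree numbers -/
noncomputable def rmf {Ω : Type*} (e : ℕ → Ω → ℝ) (ω : Ω) (n : ℕ) : ℝ :=
  if Squarefree n then ∏ p ∈ n.primeFactors, e p ω else 0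

variable {Ω : Type*} [MeasurableSpace Ω] {P : Measure Ω} [IsProbabilityMeasure P]
  {e : ℕ → Ω → ℝ}

theorem IsSigns.ae_signs (h : IsSigns P e) : ∀ᵐ ω ∂P, ∀ p, e p ω = 1 ∨ e p ω = -1 := by
  rw [ae_all_iff]
  intro p
  have hm1 : MeasurableSet {ω | e p ω = 1} := h.meas p (measurableSet_singleton 1)
  have hm2 : MeasurableSet {ω | e p ω = -1} := h.meas p (measurableSet_singleton (-1))
  have hdisj : Disjoint {ω | e p ω = 1} {ω | e p ω = -1} := by
    rw [Set.disjoint_left]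
    intro ω h1 h2
    simp only [Set.mem_setOf_eq] at h1 h2
    rw [h1] at h2
    norm_num at h2
  have hU : P ({ω | e p ω = 1} ∪ {ω | e p ω = -1}) = 1 := by
    rw [measure_union hdisj hm2, h.one p, h.neg p]
    exact ENNReal.add_halves 1
  have := (prob_compl_eq_zero_iff (hm1.union hm2)).2 hU
  rw [ae_iff]
  convert this using 2
  ext ω
  simp

theorem measurable_rmf (h : IsSigns P e) (n : ℕ) : Measurable (fun ω => rmf e ω n) := by
  unfold rmf
  split_ifs
  · exact Finset.measurable_prod _ (fun p _ => h.meas p)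
  · exact measurable_const

theorem rmf_sq (h : IsSigns P e) :
    ∀ᵐ ω ∂P, ∀ n, |rmf e ω n| ≤ 1 ∧ rmf e ω n ^ 2 = if Squarefree n then 1 else 0 := by
  filter_upwards [h.ae_signs] with ω hω
  intro n
  have h1 : ∀ n : ℕ, Squarefree n → rmf e ω n ^ 2 = 1 := by
    intro n hn
    unfold rmf
    rw [if_pos hn, ← Finset.prod_pow]
    apply Finset.prod_eq_one
    intro p _
    rcases hω p with hp | hp <;> rw [hp] <;> norm_num
  have h2 : rmf e ω n ^ 2 = if Squarefree n then 1 else 0 := by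
    split_ifs with hs
    · exact h1 n hs
    · unfold rmf
      rw [if_neg hs]
      norm_num
  refine ⟨?_, h2⟩
  rw [← sq_le_one_iff_abs_le_one, h2]
  split_ifs <;> norm_num

private theorem Prob_int_one (h : IsSigns P e) (p : ℕ) : ∫ ω, e p ω ∂P = 0 := by
  have hm1 : MeasurableSet {ω | e p ω = 1} := h.meas p (measurableSet_singleton 1)
  have hm2 : MeasurableSet {ω | e p ω = -1} := h.meas p (measurableSet_singleton (-1))
  have hae : (fun ω => e p ω) =ᵐ[P] fun ω =>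
      Set.indicator {ω | e p ω = 1} (fun _ => (1:ℝ)) ω
        - Set.indicator {ω | e p ω = -1} (fun _ => (1:ℝ)) ω := by
    filter_upwards [h.ae_signs] with ω hω
    rcases hω p with hp | hp
    · rw [Set.indicator_of_mem (show ω ∈ {ω | e p ω = 1} from hp),
        Set.indicator_of_notMem]
      · rw [hp]; norm_num
      · simp only [Set.mem_setOf_eq]; rw [hp]; norm_num
    · rw [Set.indicator_of_mem (show ω ∈ {ω | e p ω = -1} from hp),
        Set.indicator_of_notMem]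
      · rw [hp]; norm_num
      · simp only [Set.mem_setOf_eq]; rw [hp]; norm_num
  rw [integral_congr_ae hae, integral_sub, integral_indicator_const _ hm1,
    integral_indicator_const _ hm2]
  · simp only [measureReal_def, h.one p, h.neg p]
    simp
  · exact (integrable_const (1:ℝ)).indicator hm1
  · exact (integrable_const (1:ℝ)).indicator hm2

private theorem Prob_int_odd (h : IsSigns P e) (p : ℕ) {k : ℕ} (hk : Odd k) :
    ∫ ω, e p ω ^ k ∂P = 0 := by
  rw [← Prob_int_one h p]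
  apply integral_congr_ae
  filter_upwards [h.ae_signs] with ω hω
  rcases hω p with hp | hp
  · rw [hp]; simp
  · rw [hp, hk.neg_one_pow]

private theorem Prob_int_prod (h : IsSigns P e) (S : Finset ℕ) (k : ℕ → ℕ) :
    ∫ ω, ∏ p ∈ S, e p ω ^ k p ∂P = ∏ p ∈ S, ∫ ω, e p ω ^ k p ∂P := by
  have h1 : iIndepFun (fun i : S => e i) P := h.indep.precomp Subtype.val_injective
  have h2 := h1.integral_fun_prod_comp (f := fun (i : S) (x : ℝ) => x ^ k i)
    (fun i => (h.meas i).aemeasurable)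
    (fun i => (measurable_id.pow_const (k i)).aestronglyMeasurable)
  rw [← Finset.prod_coe_sort S (fun p => ∫ ω, e p ω ^ k p ∂P), ← h2]
  apply integral_congr_ae
  filter_upwards with ω
  exact (Finset.prod_coe_sort S (fun p => e p ω ^ k p)).symm

private theorem Prob_rmf_eq {n : ℕ} (hn : Squarefree n) {S : Finset ℕ} (hS : n.primeFactors ⊆ S)
    (ω : Ω) : rmf e ω n = ∏ p ∈ S, e p ω ^ n.factorization p := by
  unfold rmf
  rw [if_pos hn]
  have : ∏ p ∈ n.primeFactors, e p ω = ∏ p ∈ n.primeFactors, e p ω ^ n.factorization p := by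
    apply Finset.prod_congr rfl
    intro p hp
    have hpp := Nat.prime_of_mem_primeFactors hp
    have h1 : n.factorization p = 1 := by
      apply le_antisymm (hn.natFactorization_le_one p)
      exact (hpp.dvd_iff_one_le_factorization hn.ne_zero).1 (Nat.dvd_of_mem_primeFactors hp)
    rw [h1, pow_one]
  rw [this]
  apply Finset.prod_subset hS
  intro p _ hp
  have : n.factorization p = 0 := by
    rw [← Finsupp.notMem_support_iff, Nat.support_factorization]
    exact hp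
  rw [this, pow_zero]

private theorem Prob_isSquare {n : ℕ} (hn : n ≠ 0) (h : ∀ p, Even (n.factorization p)) :
    IsSquare n := by
  rw [← Nat.factorization_prod_pow_eq_self hn]
  rw [Finsupp.prod]
  choose g hg using h
  refine ⟨∏ p ∈ n.factorization.support, p ^ g p, ?_⟩
  rw [← Finset.prod_mul_distrib]
  apply Finset.prod_congr rfl
  intro p _
  rw [hg p, pow_add]

theorem int_four (h : IsSigns P e) {a b c d : ℕ} (ha : Squarefree a) (hb : Squarefree b)
    (hc : Squarefree c) (hd : Squarefree d) (hn : ¬ IsSquare (a * b * (c * d))) :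
    ∫ ω, rmf e ω a * rmf e ω b * (rmf e ω c * rmf e ω d) ∂P = 0 := by
  classical
  have ha0 := ha.ne_zero
  have hb0 := hb.ne_zero
  have hc0 := hc.ne_zero
  have hd0 := hd.ne_zero
  have hn0 : a * b * (c * d) ≠ 0 := by positivity
  obtain ⟨q, hq⟩ : ∃ q, ¬ Even ((a * b * (c * d)).factorization q) := by
    by_contra hcon
    push Not at hcon
    exact hn (Prob_isSquare hn0 hcon)
  set S := (a * b * (c * d)).primeFactors with hSdef
  have hSa : a.primeFactors ⊆ S := Nat.primeFactors_mono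
    ((Nat.dvd_mul_right a b).trans (Nat.dvd_mul_right _ _)) hn0
  have hSb : b.primeFactors ⊆ S := Nat.primeFactors_mono
    ((Nat.dvd_mul_left b a).trans (Nat.dvd_mul_right _ _)) hn0
  have hSc : c.primeFactors ⊆ S := Nat.primeFactors_mono
    ((Nat.dvd_mul_right c d).trans (Nat.dvd_mul_left _ _)) hn0
  have hSd : d.primeFactors ⊆ S := Nat.primeFactors_mono
    ((Nat.dvd_mul_left d c).trans (Nat.dvd_mul_left _ _)) hn0
  have hprod : ∀ ω, rmf e ω a * rmf e ω b * (rmf e ω c * rmf e ω d) =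
      ∏ p ∈ S, e p ω ^ (a * b * (c * d)).factorization p := by
    intro ω
    rw [Prob_rmf_eq ha hSa, Prob_rmf_eq hb hSb, Prob_rmf_eq hc hSc, Prob_rmf_eq hd hSd,
      ← Finset.prod_mul_distrib, ← Finset.prod_mul_distrib, ← Finset.prod_mul_distrib]
    apply Finset.prod_congr rfl
    intro p _
    rw [Nat.factorization_mul (by positivity) (by positivity), Nat.factorization_mul ha0 hb0,
      Nat.factorization_mul hc0 hd0]
    simp only [Finsupp.coe_add, Pi.add_apply]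
    rw [pow_add, pow_add, pow_add]
  simp_rw [hprod]
  rw [Prob_int_prod h]
  have hqS : q ∈ S := by
    rw [hSdef, ← Nat.support_factorization, Finsupp.mem_support_iff]
    intro h0
    rw [h0] at hq
    exact hq (by norm_num)
  exact Finset.prod_eq_zero hqS (Prob_int_odd h q (Nat.not_even_iff_odd.1 hq))

theorem int_two (h : IsSigns P e) {a b : ℕ} (hab : a ≠ b) :
    ∫ ω, rmf e ω a * rmf e ω b ∂P = 0 := by
  by_cases ha : Squarefree a
  swap
  · have : ∀ ω, rmf e ω a = 0 := fun ω => by unfold rmf; rw [if_neg ha]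
    simp [this]
  by_cases hb : Squarefree b
  swap
  · have : ∀ ω, rmf e ω b = 0 := fun ω => by unfold rmf; rw [if_neg hb]
    simp [this]
  have h1 : ∀ ω, rmf e ω 1 = 1 := fun ω => by
    unfold rmf
    rw [if_pos squarefree_one]
    simp
  have h4 := int_four h ha hb squarefree_one squarefree_one (by
    rintro ⟨r, hr⟩
    rw [mul_one, mul_one] at hr
    apply hab
    apply Nat.eq_of_factorization_eq ha.ne_zero hb.ne_zero
    intro p
    have h2 := congrArg (fun n => n.factorization p) hr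
    have hr0 : r ≠ 0 := by
      rintro rfl
      exact (mul_ne_zero ha.ne_zero hb.ne_zero) (by simpa using hr)
    simp only [Nat.factorization_mul ha.ne_zero hb.ne_zero, Nat.factorization_mul hr0 hr0,
      Finsupp.coe_add, Pi.add_apply] at h2
    have h5 := ha.natFactorization_le_one p
    have h6 := hb.natFactorization_le_one p
    omega)
  simpa [h1] using h4

/-- second moment of an off-diagonal form -/
theorem second_moment (h : IsSigns P e) (S : Finset (ℕ × ℕ)) (K : ℕ × ℕ → ℝ) {κ : ℝ}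
    (hK : ∀ s ∈ S, |K s| ≤ κ) :
    Integrable (fun ω => (∑ s ∈ S, rmf e ω s.1 * rmf e ω s.2 * K s) ^ 2) P ∧
    ∫ ω, (∑ s ∈ S, rmf e ω s.1 * rmf e ω s.2 * K s) ^ 2 ∂P ≤
      κ ^ 2 * (((S ×ˢ S).filter (fun t => (Squarefree t.1.1 ∧ Squarefree t.1.2 ∧
        Squarefree t.2.1 ∧ Squarefree t.2.2) ∧ IsSquare (t.1.1 * t.1.2 * (t.2.1 * t.2.2)))).card) := by
  classical
  have hexp : ∀ ω, (∑ s ∈ S, rmf e ω s.1 * rmf e ω s.2 * K s) ^ 2 =
      ∑ t ∈ S ×ˢ S, (rmf e ω t.1.1 * rmf e ω t.1.2 * (rmf e ω t.2.1 * rmf e ω t.2.2)) *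
        (K t.1 * K t.2) := by
    intro ω
    rw [sq, Finset.sum_mul_sum, Finset.sum_product]
    apply Finset.sum_congr rfl
    intro s _
    apply Finset.sum_congr rfl
    intro t _
    ring
  have hbd : ∀ᵐ ω ∂P, ∀ a b c d : ℕ, |rmf e ω a * rmf e ω b * (rmf e ω c * rmf e ω d)| ≤ 1 := by
    filter_upwards [rmf_sq h] with ω hω
    intro a b c d
    rw [abs_mul, abs_mul, abs_mul]
    have h1 := (hω a).1
    have h2 := (hω b).1
    have h3 := (hω c).1
    have h4 := (hω d).1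
    have h5 : |rmf e ω a| * |rmf e ω b| ≤ 1 := mul_le_one₀ h1 (abs_nonneg _) h2
    have h6 : |rmf e ω c| * |rmf e ω d| ≤ 1 := mul_le_one₀ h3 (abs_nonneg _) h4
    exact mul_le_one₀ h5 (by positivity) h6
  have hmeas : ∀ a b c d : ℕ,
      Measurable (fun ω => rmf e ω a * rmf e ω b * (rmf e ω c * rmf e ω d)) := fun a b c d =>
    ((measurable_rmf h a).mul (measurable_rmf h b)).mul
      ((measurable_rmf h c).mul (measurable_rmf h d))
  have hint : ∀ a b c d : ℕ,
      Integrable (fun ω => rmf e ω a * rmf e ω b * (rmf e ω c * rmf e ω d)) P := by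
    intro a b c d
    apply Integrable.of_bound (hmeas a b c d).aestronglyMeasurable 1
    filter_upwards [hbd] with ω hω
    rw [Real.norm_eq_abs]
    exact hω a b c d
  constructor
  · simp_rw [hexp]
    apply integrable_finset_sum
    intro t _
    exact (hint _ _ _ _).mul_const _
  · simp_rw [hexp]
    rw [integral_finset_sum _ (fun t _ => (hint _ _ _ _).mul_const _)]
    have hterm : ∀ t ∈ S ×ˢ S,
        ∫ ω, (rmf e ω t.1.1 * rmf e ω t.1.2 * (rmf e ω t.2.1 * rmf e ω t.2.2)) *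
          (K t.1 * K t.2) ∂P ≤
        if ((Squarefree t.1.1 ∧ Squarefree t.1.2 ∧ Squarefree t.2.1 ∧ Squarefree t.2.2) ∧
          IsSquare (t.1.1 * t.1.2 * (t.2.1 * t.2.2))) then κ ^ 2 else 0 := by
      intro t ht
      rw [Finset.mem_product] at ht
      rw [integral_mul_const]
      have hzero : ∀ (n : ℕ), ¬ Squarefree n → ∀ ω, rmf e ω n = 0 := fun n hn ω => by
        unfold rmf; rw [if_neg hn]
      by_cases h1 : Squarefree t.1.1
      swap
      · have hc0 : ¬ ((Squarefree t.1.1 ∧ Squarefree t.1.2 ∧ Squarefree t.2.1 ∧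
          Squarefree t.2.2) ∧ IsSquare (t.1.1 * t.1.2 * (t.2.1 * t.2.2))) := fun hh => h1 hh.1.1
        rw [if_neg hc0]; simp [hzero _ h1]
      by_cases h2 : Squarefree t.1.2
      swap
      · have hc0 : ¬ ((Squarefree t.1.1 ∧ Squarefree t.1.2 ∧ Squarefree t.2.1 ∧
          Squarefree t.2.2) ∧ IsSquare (t.1.1 * t.1.2 * (t.2.1 * t.2.2))) := fun hh => h2 hh.1.2.1
        rw [if_neg hc0]; simp [hzero _ h2]
      by_cases h3 : Squarefree t.2.1
      swap
      · have hc0 : ¬ ((Squarefree t.1.1 ∧ Squarefree t.1.2 ∧ Squarefree t.2.1 ∧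
          Squarefree t.2.2) ∧ IsSquare (t.1.1 * t.1.2 * (t.2.1 * t.2.2))) :=
            fun hh => h3 hh.1.2.2.1
        rw [if_neg hc0]; simp [hzero _ h3]
      by_cases h4 : Squarefree t.2.2
      swap
      · have hc0 : ¬ ((Squarefree t.1.1 ∧ Squarefree t.1.2 ∧ Squarefree t.2.1 ∧
          Squarefree t.2.2) ∧ IsSquare (t.1.1 * t.1.2 * (t.2.1 * t.2.2))) :=
            fun hh => h4 hh.1.2.2.2
        rw [if_neg hc0]; simp [hzero _ h4]
      by_cases h5 : IsSquare (t.1.1 * t.1.2 * (t.2.1 * t.2.2))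
      swap
      · rw [int_four h h1 h2 h3 h4 h5, zero_mul, if_neg (fun hh => h5 hh.2)]
      rw [if_pos ⟨⟨h1, h2, h3, h4⟩, h5⟩]
      have hI : |∫ ω, rmf e ω t.1.1 * rmf e ω t.1.2 * (rmf e ω t.2.1 * rmf e ω t.2.2) ∂P| ≤ 1 := by
        rw [← Real.norm_eq_abs]
        have := norm_integral_le_of_norm_le_const (μ := P) (C := 1)
          (f := fun ω => rmf e ω t.1.1 * rmf e ω t.1.2 * (rmf e ω t.2.1 * rmf e ω t.2.2)) (by
            filter_upwards [hbd] with ω hω
            rw [Real.norm_eq_abs]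
            exact hω _ _ _ _)
        simpa using this
      have hk1 := hK _ ht.1
      have hk2 := hK _ ht.2
      calc _ ≤ |(∫ ω, rmf e ω t.1.1 * rmf e ω t.1.2 * (rmf e ω t.2.1 * rmf e ω t.2.2) ∂P) *
            (K t.1 * K t.2)| := le_abs_self _
        _ = |∫ ω, rmf e ω t.1.1 * rmf e ω t.1.2 * (rmf e ω t.2.1 * rmf e ω t.2.2) ∂P| *
            (|K t.1| * |K t.2|) := by rw [abs_mul, abs_mul]
        _ ≤ 1 * (κ * κ) := by
            apply mul_le_mul hI _ (by positivity) (by norm_num)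
            exact mul_le_mul hk1 hk2 (abs_nonneg _) ((abs_nonneg _).trans hk1)
        _ = κ ^ 2 := by ring
    calc _ ≤ ∑ t ∈ S ×ˢ S,
        (if ((Squarefree t.1.1 ∧ Squarefree t.1.2 ∧ Squarefree t.2.1 ∧ Squarefree t.2.2) ∧
          IsSquare (t.1.1 * t.1.2 * (t.2.1 * t.2.2))) then κ ^ 2 else 0) :=
          Finset.sum_le_sum hterm
      _ = _ := by
        rw [← Finset.sum_filter, Finset.sum_const, nsmul_eq_mul, mul_comm]

/-- independent random signs exist -/
theorem exists_signs : ∃ (Ω : Type) (_ : MeasurableSpace Ω) (P : Measure Ω)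
    (_ : IsProbabilityMeasure P) (e : ℕ → Ω → ℝ), IsSigns P e := by
  let μ : Measure ℝ := (1 / 2 : ENNReal) • Measure.dirac 1 + (1 / 2 : ENNReal) • Measure.dirac (-1)
  have hμ : IsProbabilityMeasure μ := by
    constructor
    simp only [μ, Measure.coe_add, Pi.add_apply, Measure.smul_apply, measure_univ, smul_eq_mul,
      mul_one]
    exact ENNReal.add_halves 1
  refine ⟨ℕ → ℝ, inferInstance, Measure.infinitePi (fun _ => μ), inferInstance,
    fun p ω => ω p, ?_⟩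
  have hmap : ∀ p : ℕ, (Measure.infinitePi (fun _ : ℕ => μ)).map (fun ω : ℕ → ℝ => ω p) = μ :=
    fun p => Measure.infinitePi_map_eval (fun _ : ℕ => μ) p
  constructor
  · intro p
    exact measurable_pi_apply p
  · exact iIndepFun_infinitePi (X := fun (_ : ℕ) (x : ℝ) => x) (fun _ => measurable_id)
  · intro p
    have h1 : (Measure.infinitePi (fun _ : ℕ => μ)) ((fun ω : ℕ → ℝ => ω p) ⁻¹' {1}) = μ {1} := by
      rw [← Measure.map_apply (measurable_pi_apply p) (measurableSet_singleton 1), hmap p]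
    have h2 : μ {1} = 1 / 2 := by
      simp only [μ, Measure.coe_add, Pi.add_apply, Measure.smul_apply, smul_eq_mul]
      rw [Measure.dirac_apply' _ (measurableSet_singleton _),
        Measure.dirac_apply' _ (measurableSet_singleton _)]
      have : (-1 : ℝ) ∉ ({1} : Set ℝ) := by
        rw [Set.mem_singleton_iff]; norm_num
      rw [Set.indicator_of_mem (Set.mem_singleton _), Set.indicator_of_notMem this]
      simp
    rw [← h2, ← h1]
    rfl
  · intro p
    have h1 : (Measure.infinitePi (fun _ : ℕ => μ)) ((fun ω : ℕ → ℝ => ω p) ⁻¹' {-1}) = μ {-1} := by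
      rw [← Measure.map_apply (measurable_pi_apply p) (measurableSet_singleton (-1)), hmap p]
    have h2 : μ {-1} = 1 / 2 := by
      simp only [μ, Measure.coe_add, Pi.add_apply, Measure.smul_apply, smul_eq_mul]
      rw [Measure.dirac_apply' _ (measurableSet_singleton _),
        Measure.dirac_apply' _ (measurableSet_singleton _)]
      have : (1 : ℝ) ∉ ({-1} : Set ℝ) := by
        rw [Set.mem_singleton_iff]; norm_num
      rw [Set.indicator_of_mem (Set.mem_singleton _), Set.indicator_of_notMem this]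
      simp
    rw [← h2, ← h1]
    rfl

end Pool.Agent.H18.RM

end

section

/-!
# RG: Gaussian law for random multiplicative functions in short intervals (definitions)

`lp n`: the largest prime factor.  `Wk k h`: the squarefree numbers `n` with `k - h < n ≤ k + h`
(the window of length `2h` with centre `x`, for every non-integral `x` in `(k, k+1)`).
`Sp e W p`: the coefficient of `e p` in `∑ n ∈ W, f n`, grouped by the largest prime factor.
`D1, Q4, T2, Q22`: the numbers of pairs with the same largest prime factor and of quadruples of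
different numbers with a square product.
-/

set_option autoImplicit false

namespace Pool.Agent.H41.RG

open Finset MeasureTheory ProbabilityTheory
open Pool.Agent.H18.RM (IsSigns rmf)

/-- the largest prime factor of `n` (`0` for `n ≤ 1`) -/
def lp (n : ℕ) : ℕ := n.primeFactors.sup id

/-- the squarefree numbers in `(k - h, k + h]` -/
def Wk (k h : ℕ) : Finset ℕ := (Ioc (k - h) (k + h)).filter Squarefree

/-- the σ-algebra generated by the signs `e q`, `q < p` -/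
abbrev Past {Ω : Type*} (e : ℕ → Ω → ℝ) (p : ℕ) : MeasurableSpace Ω :=
  ⨆ q ∈ Set.Iio p, MeasurableSpace.comap (e q) inferInstance

/-- the coefficient of `e p` -/
noncomputable def Sp {Ω : Type*} (e : ℕ → Ω → ℝ) (W : Finset ℕ) (p : ℕ) (ω : Ω) : ℝ :=
  ∑ n ∈ W.filter (fun n => lp n = p), rmf e ω (n / p)

/-- pairs of different elements with the same largest prime factor -/
def D1 (W : Finset ℕ) : ℕ :=
  ((W ×ˢ W).filter (fun t => t.1 ≠ t.2 ∧ lp t.1 = lp t.2)).card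

/-- quadruples of pairwise different elements of `W` with square product -/
def Q4 (W : Finset ℕ) : ℕ :=
  (((W ×ˢ W) ×ˢ (W ×ˢ W)).filter (fun t =>
    (t.1.1 ≠ t.1.2 ∧ t.2.1 ≠ t.2.2 ∧ t.1.1 ≠ t.2.1 ∧ t.1.1 ≠ t.2.2 ∧ t.1.2 ≠ t.2.1 ∧
      t.1.2 ≠ t.2.2) ∧ IsSquare (t.1.1 * t.1.2 * (t.2.1 * t.2.2)))).card

/-- pairs in `W × W'` with the same largest prime factor -/
def T2 (W W' : Finset ℕ) : ℕ := ((W ×ˢ W').filter (fun t => lp t.1 = lp t.2)).card

/-- pairs `(n, m), (n', m')` in `W × W'` with `n ≠ n'`, `m ≠ m'` and `n m n' m'` a square -/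
def Q22 (W W' : Finset ℕ) : ℕ :=
  (((W ×ˢ W') ×ˢ (W ×ˢ W')).filter (fun t =>
    (t.1.1 ≠ t.2.1 ∧ t.1.2 ≠ t.2.2) ∧ IsSquare (t.1.1 * t.1.2 * (t.2.1 * t.2.2)))).card

/-- the characteristic function of `∑ n ∈ W, f n` -/
noncomputable def AW {Ω : Type*} [MeasurableSpace Ω] (P : Measure Ω) (e : ℕ → Ω → ℝ)
    (W : Finset ℕ) (θ : ℝ) : ℂ :=
  ∫ ω, Complex.exp (Complex.I * ((θ * ∑ n ∈ W, rmf e ω n : ℝ) : ℂ)) ∂P

/-- the characteristic function of `∑ n ∈ W, f n - ∑ n ∈ W', f n` -/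
noncomputable def BW {Ω : Type*} [MeasurableSpace Ω] (P : Measure Ω) (e : ℕ → Ω → ℝ)
    (W W' : Finset ℕ) (θ : ℝ) : ℂ :=
  ∫ ω, Complex.exp (Complex.I * ((θ * (∑ n ∈ W, rmf e ω n - ∑ n ∈ W', rmf e ω n) : ℝ) : ℂ)) ∂P

/-- the average of `exp(iθ ∑_{n ∈ window} f n)` over the windows `Wk k h`, `X ≤ k < 2X` -/
noncomputable def phiD (g : ℕ → ℝ) (X h : ℕ) (θ : ℝ) : ℂ :=
  (1 / (X : ℂ)) * ∑ k ∈ Ico X (2 * X),
    Complex.exp (Complex.I * ((θ * ∑ n ∈ Wk k h, g n : ℝ) : ℂ))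

/-- window sums, as in the frozen statement S15903 (with `g` in place of the Möbius function) -/
noncomputable def MR (g : ℕ → ℝ) (x H : ℝ) : ℝ :=
  ∑ n ∈ (range (⌈x + H⌉₊ + 1)).filter (fun n : ℕ => |(n : ℝ) - x| < H / 2), g n

/-- `σ² = H / ζ(2)`: the predicted standard deviation -/
noncomputable def sg (H : ℝ) : ℝ := Real.sqrt (H / (Real.pi ^ 2 / 6))

/-- the characteristic function of the law over `x ∈ [X, 2X]` of `M(x;H)/σ` -/
noncomputable def phiC (g : ℕ → ℝ) (X H t : ℝ) : ℂ :=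
  (1 / (X : ℂ)) * ∫ x in X..2 * X, Complex.exp (Complex.I * ((t * (MR g x H / sg H) : ℝ) : ℂ))

end Pool.Agent.H41.RG

end

section

/-!
# RG CntDefs: the sets counted

All numbers are squarefree and lie in `[Y, 20Y]`.
`P1 Y h`: pairs `n ≠ m`, `|n - m| ≤ h`, `lp n = lp m`.  `P2 Y`: pairs with `lp n = lp m`.
`SQ4 Y h`: quadruples of pairwise different numbers, pairwise within `h`, with square product.
(`Pool.Agent.H18.RM.SQ Y h`: quadruples with `n ≠ m`, `n' ≠ m'`, `|n-m| ≤ h`, `|n'-m'| ≤ h` and square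
product.)  `Sm Y z`: the squarefree numbers in `[1, 20Y]` with largest prime factor `≤ z`.
-/

set_option autoImplicit false

namespace Pool.Agent.H41.RG

open Finset

def P1 (Y h : ℕ) : Finset (ℕ × ℕ) :=
  ((Icc Y (20 * Y)) ×ˢ (Icc Y (20 * Y))).filter (fun t =>
    (Squarefree t.1 ∧ Squarefree t.2) ∧ t.1 ≠ t.2 ∧ |(t.1 : ℤ) - t.2| ≤ h ∧ lp t.1 = lp t.2)

def P2 (Y : ℕ) : Finset (ℕ × ℕ) :=
  ((Icc Y (20 * Y)) ×ˢ (Icc Y (20 * Y))).filter (fun t =>
    (Squarefree t.1 ∧ Squarefree t.2) ∧ lp t.1 = lp t.2)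

def SQ4 (Y h : ℕ) : Finset ((ℕ × ℕ) × (ℕ × ℕ)) :=
  (((Icc Y (20 * Y)) ×ˢ (Icc Y (20 * Y))) ×ˢ ((Icc Y (20 * Y)) ×ˢ (Icc Y (20 * Y)))).filter
    (fun t => (Squarefree t.1.1 ∧ Squarefree t.1.2 ∧ Squarefree t.2.1 ∧ Squarefree t.2.2) ∧
      (t.1.1 ≠ t.1.2 ∧ t.2.1 ≠ t.2.2 ∧ t.1.1 ≠ t.2.1 ∧ t.1.1 ≠ t.2.2 ∧ t.1.2 ≠ t.2.1 ∧
        t.1.2 ≠ t.2.2) ∧
      (|(t.1.1 : ℤ) - t.1.2| ≤ h ∧ |(t.2.1 : ℤ) - t.2.2| ≤ h ∧ |(t.1.1 : ℤ) - t.2.1| ≤ h ∧
        |(t.1.1 : ℤ) - t.2.2| ≤ h ∧ |(t.1.2 : ℤ) - t.2.1| ≤ h ∧ |(t.1.2 : ℤ) - t.2.2| ≤ h) ∧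
      IsSquare (t.1.1 * t.1.2 * (t.2.1 * t.2.2)))

noncomputable def Sm (Y : ℕ) (z : ℝ) : Finset ℕ :=
  (Icc 1 (20 * Y)).filter (fun n => Squarefree n ∧ (lp n : ℝ) ≤ z)

end Pool.Agent.H41.RG

end

section

/-!
# RG Rankin: squarefree numbers without large prime factors

For every `B` (natural number) and all large `Y`: the number of squarefree `n ≤ 20 Y` all of whose
prime factors are `≤ (log Y)^B` is at most `Y / (log Y)^B`.

Proof (`B ≥ 1`; for `B = 0` use the case `B = 1`: `Sm Y 1 ⊆ Sm Y (log Y)`, or note `Sm Y 1 = {1}`).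
Rankin: `σ = 1 - 1/(2B)`, `z = (log Y)^B`:
`#Sm ≤ ∑_{n ∈ Sm} (20Y/n)^σ ≤ (20Y)^σ ∏_{p ≤ z} (1 + p^{-σ})` (each squarefree `n` is the product of
its set of primes, a subset of the primes `≤ z`; `Finset.prod_one_add` or `prod_add`)
`≤ (20Y)^σ exp(∑_{1 ≤ n ≤ z} n^{-σ}) ≤ (20 Y)^σ exp(1 + 2B z^{1/(2B)})`
(`n^{-σ} ≤ ∫_{n-1}^n t^{-σ} dt` for `n ≥ 2`, or `n^{-σ} ≤ 2B (n^{1-σ} - (n-1)^{1-σ})`),
and `z^{1/(2B)} = (log Y)^{1/2}`.  So `#Sm / Y ≤ 20 Y^{-1/(2B)} exp(1 + 2B (log Y)^{1/2})`, with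
`L = log Y`: `20 exp(-L/(2B) + 1 + 2B √L) ≤ L^{-B}` for large `L`.
(Cruder is fine: `n^{-σ} ≤ n^{-1/2}`-type bounds are also enough for `B ≥ 1` if
`∑_{n ≤ z} n^{-σ} = o(L)`.)
-/

set_option autoImplicit false

namespace Pool.Agent.H41.RG

open Finset Filter

/-- `∑_{n ≤ K} n ^ (δ - 1) ≤ K ^ δ / δ`. -/
private theorem Rankin_sum {δ : ℝ} (hδ0 : 0 < δ) (hδ1 : δ ≤ 1) (K : ℕ) :
    ∑ n ∈ Icc 1 K, (n : ℝ) ^ (δ - 1) ≤ 1 / δ * (K : ℝ) ^ δ := by
  induction K with
  | zero =>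
    rw [Icc_eq_empty (by norm_num), sum_empty]
    positivity
  | succ K ih =>
    rw [sum_Icc_succ_top (by omega)]
    have hx : (0 : ℝ) < ((K + 1 : ℕ) : ℝ) := by positivity
    set x : ℝ := ((K + 1 : ℕ) : ℝ) with hxdef
    have hK : (K : ℝ) = x * (1 + -(1 / x)) := by
      rw [hxdef]
      push_cast
      field_simp
      ring
    have h1 : -1 ≤ -(1 / x) := by
      rw [neg_le_neg_iff, div_le_one hx, hxdef]
      push_cast
      have : (0 : ℝ) ≤ K := Nat.cast_nonneg K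
      linarith
    have h2 : (1 + -(1 / x)) ^ δ ≤ 1 + δ * -(1 / x) :=
      _root_.rpow_one_add_le_one_add_mul_self h1 hδ0.le hδ1
    have h3 : (K : ℝ) ^ δ ≤ x ^ δ * (1 + δ * -(1 / x)) := by
      rw [hK, Real.mul_rpow hx.le (by linarith)]
      exact mul_le_mul_of_nonneg_left h2 (by positivity)
    have h4 : x ^ (δ - 1) = x ^ δ / x := by
      rw [Real.rpow_sub hx, Real.rpow_one]
    have h5 : x ^ δ * (1 + δ * -(1 / x)) = x ^ δ - δ * x ^ (δ - 1) := by
      rw [h4]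
      ring
    rw [h5] at h3
    have h6 : 1 / δ * (K : ℝ) ^ δ ≤ 1 / δ * (x ^ δ - δ * x ^ (δ - 1)) :=
      mul_le_mul_of_nonneg_left h3 (by positivity)
    have h7 : 1 / δ * (x ^ δ - δ * x ^ (δ - 1)) = 1 / δ * x ^ δ - x ^ (δ - 1) := by
      field_simp
    linarith

/-- Rankin's product. -/
private theorem Rankin_prod (A P : Finset ℕ) (f : ℕ → ℝ) (hf : ∀ n, 0 ≤ f n)
    (hA : ∀ n ∈ A, Squarefree n ∧ n.primeFactors ⊆ P) :
    ∑ n ∈ A, ∏ p ∈ n.primeFactors, f p ≤ ∏ p ∈ P, (1 + f p) := by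
  classical
  rw [Finset.prod_one_add]
  have hinj : Set.InjOn Nat.primeFactors (A : Set ℕ) := by
    intro a ha b hb h
    have h1 := Nat.prod_primeFactors_of_squarefree (hA a ha).1
    have h2 := Nat.prod_primeFactors_of_squarefree (hA b hb).1
    have h3 : a.primeFactors = b.primeFactors := h
    rw [← h1, ← h2, h3]
  have h1 : ∑ n ∈ A, ∏ p ∈ n.primeFactors, f p =
      ∑ t ∈ A.image Nat.primeFactors, ∏ p ∈ t, f p := by
    rw [sum_image hinj]
  rw [h1]
  refine sum_le_sum_of_subset_of_nonneg ?_ fun t _ _ => prod_nonneg fun p _ => hf p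
  intro t ht
  rw [mem_image] at ht
  obtain ⟨n, hn, rfl⟩ := ht
  exact mem_powerset.2 (hA n hn).2

private theorem Rankin_npow {n : ℕ} (hn : Squarefree n) (s : ℝ) :
    (n : ℝ) ^ s = ∏ p ∈ n.primeFactors, (p : ℝ) ^ s := by
  conv_lhs => rw [← Nat.prod_primeFactors_of_squarefree hn]
  push_cast
  rw [Real.finsetProd_rpow _ _ fun p _ => Nat.cast_nonneg p]

/-- The bound for fixed `Y`. -/
private theorem Rankin_bound {δ : ℝ} (hδ0 : 0 < δ) (hδ1 : δ ≤ 1) {z : ℝ} (hz : 0 ≤ z) (Y : ℕ) :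
    ((Sm Y z).card : ℝ) ≤ (20 * (Y : ℝ)) ^ (1 - δ) * Real.exp (1 / δ * z ^ δ) := by
  have hmem : ∀ n ∈ Sm Y z, 1 ≤ n ∧ n ≤ 20 * Y ∧ Squarefree n ∧
      n.primeFactors ⊆ Icc 1 ⌊z⌋₊ := by
    intro n hn
    unfold Sm at hn
    rw [mem_filter, mem_Icc] at hn
    refine ⟨hn.1.1, hn.1.2, hn.2.1, fun p hp => ?_⟩
    rw [mem_Icc]
    refine ⟨(Nat.prime_of_mem_primeFactors hp).one_lt.le, Nat.le_floor ?_⟩
    have h1 : p ≤ lp n := by
      unfold lp
      exact le_sup (f := id) hp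
    exact le_trans (by exact_mod_cast h1) hn.2.2
  have h1 : ((Sm Y z).card : ℝ) ≤
      ∑ n ∈ Sm Y z, (20 * (Y : ℝ)) ^ (1 - δ) * (n : ℝ) ^ (δ - 1) := by
    rw [← nsmul_one (Sm Y z).card, ← sum_const]
    refine sum_le_sum fun n hn => ?_
    obtain ⟨hn1, hn2, -, -⟩ := hmem n hn
    have hn0 : (0 : ℝ) < n := by exact_mod_cast hn1
    have hle : (n : ℝ) ≤ 20 * Y := by exact_mod_cast hn2
    have h2 : (n : ℝ) ^ (1 - δ) ≤ (20 * (Y : ℝ)) ^ (1 - δ) :=
      Real.rpow_le_rpow hn0.le hle (by linarith)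
    have h3 : (n : ℝ) ^ (1 - δ) * (n : ℝ) ^ (δ - 1) = 1 := by
      rw [← Real.rpow_add hn0]
      simp
    calc (1 : ℝ) = (n : ℝ) ^ (1 - δ) * (n : ℝ) ^ (δ - 1) := h3.symm
      _ ≤ _ := mul_le_mul_of_nonneg_right h2 (by positivity)
  refine h1.trans ?_
  rw [← mul_sum]
  refine mul_le_mul_of_nonneg_left ?_ (by positivity)
  have h2 : ∑ n ∈ Sm Y z, (n : ℝ) ^ (δ - 1) =
      ∑ n ∈ Sm Y z, ∏ p ∈ n.primeFactors, (p : ℝ) ^ (δ - 1) :=
    sum_congr rfl fun n hn => Rankin_npow (hmem n hn).2.2.1 _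
  rw [h2]
  refine (Rankin_prod (Sm Y z) (Icc 1 ⌊z⌋₊) (fun p => (p : ℝ) ^ (δ - 1))
    (fun n => by positivity) fun n hn => (hmem n hn).2.2).trans ?_
  have h3 : ∏ p ∈ Icc 1 ⌊z⌋₊, (1 + (p : ℝ) ^ (δ - 1)) ≤
      Real.exp (∑ p ∈ Icc 1 ⌊z⌋₊, (p : ℝ) ^ (δ - 1)) := by
    rw [Real.exp_sum]
    refine prod_le_prod (fun p _ => by positivity) fun p _ => ?_
    have := Real.add_one_le_exp ((p : ℝ) ^ (δ - 1))
    linarith
  refine h3.trans (Real.exp_le_exp.2 ?_)
  refine (Rankin_sum hδ0 hδ1 ⌊z⌋₊).trans ?_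
  refine mul_le_mul_of_nonneg_left ?_ (by positivity)
  exact Real.rpow_le_rpow (Nat.cast_nonneg _) (Nat.floor_le hz) hδ0.le

theorem card_Sm (B : ℕ) : ∀ᶠ Y : ℕ in atTop,
    ((Sm Y (Real.log Y ^ B)).card : ℝ) ≤ Y / Real.log Y ^ B := by
  rcases Nat.eq_zero_or_pos B with rfl | hB
  · filter_upwards [eventually_ge_atTop 1] with Y hY
    rw [pow_zero, div_one]
    have h1 : Sm Y 1 ⊆ {1} := by
      intro n hn
      unfold Sm at hn
      rw [mem_filter, mem_Icc] at hn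
      rw [mem_singleton]
      by_contra h2
      obtain ⟨p, hp, hpn⟩ := Nat.exists_prime_and_dvd h2
      have h3 : p ∈ n.primeFactors := Nat.mem_primeFactors.2 ⟨hp, hpn, by omega⟩
      have h4 : p ≤ lp n := by
        unfold lp
        exact le_sup (f := id) h3
      have h5 : (lp n : ℝ) ≤ 1 := hn.2.2
      have h6 : lp n ≤ 1 := by exact_mod_cast h5
      have := hp.one_lt
      omega
    have h2 := card_le_card h1
    rw [card_singleton] at h2
    have h3 : ((Sm Y 1).card : ℝ) ≤ 1 := by exact_mod_cast h2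
    have h4 : (1 : ℝ) ≤ Y := by exact_mod_cast hY
    linarith
  · have hBR : (0 : ℝ) < B := by exact_mod_cast hB
    have hB1 : (1 : ℝ) ≤ B := by exact_mod_cast hB
    set δ : ℝ := 1 / (2 * B) with hδ
    have hδ0 : 0 < δ := by positivity
    have hδ1 : δ ≤ 1 := by
      rw [hδ, div_le_one (by positivity)]
      linarith
    have hlog : Tendsto (fun Y : ℕ => Real.log Y) atTop atTop :=
      Real.tendsto_log_atTop.comp tendsto_natCast_atTop_atTop
    have hlim : Tendsto (fun x : ℝ => x ^ (B : ℝ) * Real.exp (-(1 / (4 * B)) * x)) atTop (nhds 0) :=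
      tendsto_rpow_mul_exp_neg_mul_atTop_nhds_zero _ _ (by positivity)
    have h1 : ∀ᶠ x : ℝ in atTop,
        x ^ (B : ℝ) * Real.exp (-(1 / (4 * B)) * x) ≤ 1 / 20 :=
      hlim.eventually (Iic_mem_nhds (by norm_num))
    have h2 : ∀ᶠ x : ℝ in atTop, (8 * (B : ℝ) ^ 2) ^ 2 ≤ x := eventually_ge_atTop _
    filter_upwards [hlog.eventually h1, hlog.eventually h2, eventually_ge_atTop 3] with Y hY1 hY2 hY3
    have hYR : (3 : ℝ) ≤ Y := by exact_mod_cast hY3
    have hY0 : (0 : ℝ) < Y := by linarith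
    set L : ℝ := Real.log Y with hL
    have hLpos : 0 < L := Real.log_pos (by linarith)
    have h3 := Rankin_bound hδ0 hδ1 (pow_nonneg hLpos.le B) Y
    refine h3.trans ?_
    have h4 : (L ^ B) ^ δ = Real.sqrt L := by
      rw [← Real.rpow_natCast, ← Real.rpow_mul hLpos.le, Real.sqrt_eq_rpow]
      congr 1
      rw [hδ]
      field_simp
    have h5 : (20 * (Y : ℝ)) ^ (1 - δ) ≤ 20 * Y * Real.exp (-(δ * L)) := by
      rw [Real.mul_rpow (by norm_num) hY0.le]
      have e1 : (20 : ℝ) ^ (1 - δ) ≤ 20 := by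
        calc (20 : ℝ) ^ (1 - δ) ≤ (20 : ℝ) ^ (1 : ℝ) :=
              Real.rpow_le_rpow_of_exponent_le (by norm_num) (by linarith)
          _ = 20 := Real.rpow_one _
      have e2 : (Y : ℝ) ^ (1 - δ) = Y * Real.exp (-(δ * L)) := by
        rw [Real.rpow_sub hY0, Real.rpow_one, Real.rpow_def_of_pos hY0, Real.exp_neg, ← hL,
          mul_comm L δ]
        rfl
      rw [e2]
      have e3 : 0 ≤ (Y : ℝ) * Real.exp (-(δ * L)) := by positivity
      calc (20 : ℝ) ^ (1 - δ) * (Y * Real.exp (-(δ * L))) ≤ 20 * (Y * Real.exp (-(δ * L))) :=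
            mul_le_mul_of_nonneg_right e1 e3
        _ = 20 * Y * Real.exp (-(δ * L)) := by ring
    have h6 : 1 / δ * Real.sqrt L ≤ δ / 2 * L := by
      have e1 : 8 * (B : ℝ) ^ 2 ≤ Real.sqrt L := Real.le_sqrt_of_sq_le hY2
      have e2 : Real.sqrt L * Real.sqrt L = L := Real.mul_self_sqrt hLpos.le
      have e3 : 1 / δ = 2 * B := by rw [hδ]; field_simp
      have e4 : δ / 2 * L = Real.sqrt L * Real.sqrt L / (4 * B) := by
        rw [e2, hδ]
        field_simp
        ring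
      rw [e3, e4, le_div_iff₀ (by positivity)]
      have e5 : 0 ≤ Real.sqrt L := Real.sqrt_nonneg _
      nlinarith
    have h7 : Real.exp (-(δ * L)) * Real.exp (1 / δ * (L ^ B) ^ δ) ≤
        Real.exp (-(1 / (4 * B)) * L) := by
      rw [h4, ← Real.exp_add, Real.exp_le_exp]
      have e1 : -(1 / (4 * (B : ℝ))) * L = -(δ * L) + δ / 2 * L := by
        rw [hδ]
        field_simp
        ring
      rw [e1]
      linarith
    have h8 : (L : ℝ) ^ (B : ℝ) = L ^ B := Real.rpow_natCast L B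
    rw [h8] at hY1
    have h9 : 0 < L ^ B := pow_pos hLpos B
    calc (20 * (Y : ℝ)) ^ (1 - δ) * Real.exp (1 / δ * (L ^ B) ^ δ)
        ≤ (20 * Y * Real.exp (-(δ * L))) * Real.exp (1 / δ * (L ^ B) ^ δ) :=
          mul_le_mul_of_nonneg_right h5 (Real.exp_pos _).le
      _ = 20 * Y * (Real.exp (-(δ * L)) * Real.exp (1 / δ * (L ^ B) ^ δ)) := by ring
      _ ≤ 20 * Y * Real.exp (-(1 / (4 * B)) * L) :=
          mul_le_mul_of_nonneg_left h7 (by positivity)
      _ ≤ Y / L ^ B := by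
          rw [le_div_iff₀ h9]
          have : 20 * (Y : ℝ) * Real.exp (-(1 / (4 * B)) * L) * L ^ B =
              Y * (20 * (L ^ B * Real.exp (-(1 / (4 * B)) * L))) := by ring
          rw [this]
          have e1 : 20 * (L ^ B * Real.exp (-(1 / (4 * B)) * L)) ≤ 1 := by linarith
          calc (Y : ℝ) * (20 * (L ^ B * Real.exp (-(1 / (4 * B)) * L))) ≤ Y * 1 :=
                mul_le_mul_of_nonneg_left e1 hY0.le
            _ = Y := mul_one _

end Pool.Agent.H41.RG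

end

section

/-!
# RG CountD: pairs with the same largest prime factor

Split according to `p = lp n = lp m ≤ z` or `p > z` (`lp n` is a prime dividing `n` for `n ≥ 2`; for
`n = 1`, `lp 1 = 0 ≤ z`).
`card_P1`: pairs with `lp ≤ z`: `n ∈ Sm Y z` and at most `2h` values `m ≠ n`; pairs with `lp = p > z`:
`p ∣ n`, `n ≤ 20 Y`, and `p ∣ m`, `0 < |m - n| ≤ h`: at most `(20Y/p) (2h/p)`; sum over the integers
`p > z`: `40 Y h ∑_{p > z} 1/p² ≤ 80 Y h / z`.
`card_P2`: `≤ #Sm² + ∑_{p > z} (20Y/p)² ≤ #Sm² + 800 Y²/z`.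
(`∑_{p > z} 1/p² ≤ 2/z` for `z ≥ 1`, e.g. from `1/p² ≤ 1/(p-1) - 1/p`, or for the finite range
`z < p ≤ 20Y`.)
-/

set_option autoImplicit false

namespace Pool.Agent.H41.RG

open Finset

private lemma CountD_lp_dvd {n : ℕ} (h : 0 < lp n) : lp n ∣ n := by
  unfold lp at *
  by_cases hne : n.primeFactors.Nonempty
  · obtain ⟨i, hi, he⟩ := Finset.exists_mem_eq_sup n.primeFactors hne id
    rw [he]
    exact Nat.dvd_of_mem_primeFactors hi
  · rw [Finset.not_nonempty_iff_eq_empty] at hne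
    rw [hne] at h
    simp at h

private lemma CountD_sum {z : ℝ} (hz : 1 ≤ z) (M : ℕ) :
    ∑ p ∈ Ioc ⌊z⌋₊ M, ((p : ℝ) ^ 2)⁻¹ ≤ 2 / z := by
  have h1 : 1 ≤ ⌊z⌋₊ := by
    rw [Nat.le_floor_iff (by linarith)]
    exact_mod_cast hz
  have h2 : z < (⌊z⌋₊ : ℝ) + 1 := Nat.lt_floor_add_one z
  have h1' : (1 : ℝ) ≤ (⌊z⌋₊ : ℝ) := by exact_mod_cast h1
  have h3 : ((⌊z⌋₊ : ℝ))⁻¹ ≤ 2 / z := by
    rw [inv_eq_one_div, div_le_div_iff₀ (by linarith) (by linarith)]
    linarith
  by_cases hM : ⌊z⌋₊ ≤ M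
  · have h4 := sum_Ioc_inv_sq_le_sub (α := ℝ) (k := ⌊z⌋₊) (n := M) (by omega) hM
    have h5 : (0 : ℝ) ≤ ((M : ℝ))⁻¹ := by positivity
    linarith
  · rw [Finset.Ioc_eq_empty (by omega)]
    simp only [Finset.sum_empty]
    positivity

private lemma CountD_mul (M p : ℕ) :
    ((((Icc 1 M).filter (fun x => p ∣ x)).card : ℕ) : ℝ) ≤ (M : ℝ) / p := by
  have h : (Icc 1 M).filter (fun x => p ∣ x) = (Ioc 0 M).filter (fun x => p ∣ x) := by
    ext x
    simp only [Finset.mem_filter, Finset.mem_Icc, Finset.mem_Ioc]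
    constructor
    · rintro ⟨⟨a, b⟩, c⟩
      exact ⟨⟨by omega, b⟩, c⟩
    · rintro ⟨⟨a, b⟩, c⟩
      exact ⟨⟨by omega, b⟩, c⟩
  rw [h, Nat.Ioc_filter_dvd_card_eq_div]
  exact Nat.cast_div_le

private noncomputable def CountD_K (h : ℕ) (p : ℕ) : Finset ℤ :=
  ((Ioc 0 h).filter (fun x => p ∣ x)).image (fun x : ℕ => (x : ℤ)) ∪
    ((Ioc 0 h).filter (fun x => p ∣ x)).image (fun x : ℕ => -(x : ℤ))

private lemma CountD_K_card (h p : ℕ) : (((CountD_K h p).card : ℕ) : ℝ) ≤ 2 * ((h : ℝ) / p) := by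
  have h1 : (CountD_K h p).card ≤ h / p + h / p := by
    unfold CountD_K
    refine (Finset.card_union_le _ _).trans ?_
    refine Nat.add_le_add ?_ ?_
    · refine Finset.card_image_le.trans ?_
      rw [Nat.Ioc_filter_dvd_card_eq_div]
    · refine Finset.card_image_le.trans ?_
      rw [Nat.Ioc_filter_dvd_card_eq_div]
  have h2 : (((h / p : ℕ)) : ℝ) ≤ (h : ℝ) / p := Nat.cast_div_le
  have h3 : (((CountD_K h p).card : ℕ) : ℝ) ≤ ((h / p : ℕ) : ℝ) + ((h / p : ℕ) : ℝ) := by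
    exact_mod_cast h1
  linarith

private lemma CountD_K_mem {h p : ℕ} {k : ℤ} (h0 : k ≠ 0) (h1 : |k| ≤ h) (h2 : (p : ℤ) ∣ k) :
    k ∈ CountD_K h p := by
  unfold CountD_K
  have hd : p ∣ k.natAbs := Int.natCast_dvd.mp h2
  have hn : 0 < k.natAbs := Int.natAbs_pos.mpr h0
  have hl : k.natAbs ≤ h := by
    have : ((k.natAbs : ℕ) : ℤ) ≤ h := by
      rw [Int.natCast_natAbs]
      exact h1
    exact_mod_cast this
  rw [Finset.mem_union, Finset.mem_image, Finset.mem_image]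
  rcases le_or_gt 0 k with hk | hk
  · left
    refine ⟨k.natAbs, ?_, ?_⟩
    · rw [Finset.mem_filter, Finset.mem_Ioc]
      exact ⟨⟨hn, hl⟩, hd⟩
    · rw [Int.natCast_natAbs, abs_of_nonneg hk]
  · right
    refine ⟨k.natAbs, ?_, ?_⟩
    · rw [Finset.mem_filter, Finset.mem_Ioc]
      exact ⟨⟨hn, hl⟩, hd⟩
    · rw [Int.natCast_natAbs, abs_of_neg hk]
      ring

private lemma CountD_inj : Function.Injective (fun t : ℕ × ℕ => (t.1, (t.2 : ℤ) - t.1)) := by
  rintro ⟨a, b⟩ ⟨c, d⟩ h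
  simp only [Prod.mk.injEq] at h
  obtain ⟨h1, h2⟩ := h
  subst h1
  simp only [Prod.mk.injEq, true_and]
  omega

theorem card_P1 {Y h : ℕ} {z : ℝ} (hz : 1 ≤ z) :
    ((P1 Y h).card : ℝ) ≤ 2 * h * (Sm Y z).card + 80 * Y * h / z := by
  classical
  have hz0 : (0 : ℝ) < z := by linarith
  -- the covering set
  set A : Finset (ℕ × ℤ) := (Sm Y z) ×ˢ (CountD_K h 1) with hA
  set B : Finset (ℕ × ℤ) := (Ioc ⌊z⌋₊ (20 * Y)).biUnion
    (fun p => ((Icc 1 (20 * Y)).filter (fun x => p ∣ x)) ×ˢ (CountD_K h p)) with hB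
  have hsub : (P1 Y h).image (fun t : ℕ × ℕ => (t.1, (t.2 : ℤ) - t.1)) ⊆ A ∪ B := by
    intro u hu
    rw [Finset.mem_image] at hu
    obtain ⟨⟨n, m⟩, ht, rfl⟩ := hu
    unfold P1 at ht
    simp only [Finset.mem_filter, Finset.mem_product, Finset.mem_Icc] at ht
    obtain ⟨⟨⟨hn1, hn2⟩, hm1, hm2⟩, ⟨hsn, hsm⟩, hne, habs, hlp⟩ := ht
    have hn0 : 1 ≤ n := Nat.one_le_iff_ne_zero.mpr hsn.ne_zero
    have hk0 : (m : ℤ) - n ≠ 0 := by omega
    have hk1 : |(m : ℤ) - n| ≤ h := by rw [abs_sub_comm]; exact habs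
    rw [Finset.mem_union]
    rcases le_or_gt ((lp n : ℕ) : ℝ) z with hl | hl
    · left
      rw [hA, Finset.mem_product]
      refine ⟨?_, ?_⟩
      · unfold Sm
        rw [Finset.mem_filter, Finset.mem_Icc]
        exact ⟨⟨hn0, hn2⟩, hsn, hl⟩
      · exact CountD_K_mem hk0 hk1 (by simp)
    · right
      have hlpos : 0 < lp n := by
        have : (0 : ℝ) < (lp n : ℝ) := by linarith
        exact_mod_cast this
      have hdn : lp n ∣ n := CountD_lp_dvd hlpos
      have hdm : lp n ∣ m := by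
        rw [hlp] at hlpos ⊢
        exact CountD_lp_dvd hlpos
      rw [hB, Finset.mem_biUnion]
      refine ⟨lp n, ?_, ?_⟩
      · rw [Finset.mem_Ioc]
        refine ⟨?_, ?_⟩
        · rw [Nat.floor_lt hz0.le]
          exact hl
        · exact (Nat.le_of_dvd (by omega) hdn).trans hn2
      · rw [Finset.mem_product, Finset.mem_filter, Finset.mem_Icc]
        refine ⟨⟨⟨hn0, hn2⟩, hdn⟩, ?_⟩
        refine CountD_K_mem hk0 hk1 ?_
        exact dvd_sub (Int.natCast_dvd_natCast.mpr hdm) (Int.natCast_dvd_natCast.mpr hdn)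
  have hcard : (P1 Y h).card ≤ A.card + B.card := by
    rw [← Finset.card_image_of_injective (P1 Y h) CountD_inj]
    exact (Finset.card_le_card hsub).trans (Finset.card_union_le _ _)
  have hcA : (A.card : ℝ) ≤ 2 * h * (Sm Y z).card := by
    rw [hA, Finset.card_product]
    push_cast
    have h1 := CountD_K_card h 1
    have h2 : (0 : ℝ) ≤ ((Sm Y z).card : ℝ) := Nat.cast_nonneg _
    have h3 : 2 * ((h : ℝ) / ((1 : ℕ) : ℝ)) = 2 * h := by norm_num
    rw [h3] at h1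
    nlinarith
  have hcB : (B.card : ℝ) ≤ 80 * Y * h / z := by
    have h1 : (B.card : ℝ) ≤ ∑ p ∈ Ioc ⌊z⌋₊ (20 * Y),
        (((((Icc 1 (20 * Y)).filter (fun x => p ∣ x)) ×ˢ (CountD_K h p)).card : ℕ) : ℝ) := by
      rw [hB]
      exact_mod_cast Finset.card_biUnion_le
    have h2 : ∀ p ∈ Ioc ⌊z⌋₊ (20 * Y),
        (((((Icc 1 (20 * Y)).filter (fun x => p ∣ x)) ×ˢ (CountD_K h p)).card : ℕ) : ℝ)
          ≤ (40 * Y * h) * ((p : ℝ) ^ 2)⁻¹ := by
      intro p hp
      rw [Finset.mem_Ioc] at hp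
      have hp0 : (0 : ℝ) < p := by
        have : 0 < p := by omega
        exact_mod_cast this
      rw [Finset.card_product]
      push_cast
      have e1 := CountD_mul (20 * Y) p
      have e2 := CountD_K_card h p
      calc _ ≤ (((20 * Y : ℕ) : ℝ) / p) * (2 * ((h : ℝ) / p)) := by
            refine mul_le_mul e1 e2 (Nat.cast_nonneg _) (by positivity)
        _ = (40 * Y * h) * ((p : ℝ) ^ 2)⁻¹ := by
            push_cast
            field_simp
            ring
    calc (B.card : ℝ) ≤ _ := h1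
      _ ≤ ∑ p ∈ Ioc ⌊z⌋₊ (20 * Y), (40 * (Y : ℝ) * h) * ((p : ℝ) ^ 2)⁻¹ := Finset.sum_le_sum h2
      _ = (40 * (Y : ℝ) * h) * ∑ p ∈ Ioc ⌊z⌋₊ (20 * Y), ((p : ℝ) ^ 2)⁻¹ := by
          rw [Finset.mul_sum]
      _ ≤ (40 * (Y : ℝ) * h) * (2 / z) :=
          mul_le_mul_of_nonneg_left (CountD_sum hz _) (by positivity)
      _ = 80 * Y * h / z := by ring
  have : ((P1 Y h).card : ℝ) ≤ A.card + B.card := by exact_mod_cast hcard
  linarith

theorem card_P2 {Y : ℕ} {z : ℝ} (hz : 1 ≤ z) :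
    ((P2 Y).card : ℝ) ≤ ((Sm Y z).card : ℝ) ^ 2 + 800 * (Y : ℝ) ^ 2 / z := by
  classical
  have hz0 : (0 : ℝ) < z := by linarith
  set A : Finset (ℕ × ℕ) := (Sm Y z) ×ˢ (Sm Y z) with hA
  set B : Finset (ℕ × ℕ) := (Ioc ⌊z⌋₊ (20 * Y)).biUnion
    (fun p => ((Icc 1 (20 * Y)).filter (fun x => p ∣ x)) ×ˢ
      ((Icc 1 (20 * Y)).filter (fun x => p ∣ x))) with hB
  have hsub : P2 Y ⊆ A ∪ B := by
    rintro ⟨n, m⟩ ht
    unfold P2 at ht
    simp only [Finset.mem_filter, Finset.mem_product, Finset.mem_Icc] at ht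
    obtain ⟨⟨⟨hn1, hn2⟩, hm1, hm2⟩, ⟨hsn, hsm⟩, hlp⟩ := ht
    have hn0 : 1 ≤ n := Nat.one_le_iff_ne_zero.mpr hsn.ne_zero
    have hm0 : 1 ≤ m := Nat.one_le_iff_ne_zero.mpr hsm.ne_zero
    rw [Finset.mem_union]
    rcases le_or_gt ((lp n : ℕ) : ℝ) z with hl | hl
    · left
      rw [hA, Finset.mem_product]
      unfold Sm
      rw [Finset.mem_filter, Finset.mem_Icc, Finset.mem_filter, Finset.mem_Icc]
      refine ⟨⟨⟨hn0, hn2⟩, hsn, hl⟩, ⟨hm0, hm2⟩, hsm, ?_⟩
      rw [← hlp]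
      exact hl
    · right
      have hlpos : 0 < lp n := by
        have : (0 : ℝ) < (lp n : ℝ) := by linarith
        exact_mod_cast this
      have hdn : lp n ∣ n := CountD_lp_dvd hlpos
      have hdm : lp n ∣ m := by
        rw [hlp] at hlpos ⊢
        exact CountD_lp_dvd hlpos
      rw [hB, Finset.mem_biUnion]
      refine ⟨lp n, ?_, ?_⟩
      · rw [Finset.mem_Ioc]
        refine ⟨?_, ?_⟩
        · rw [Nat.floor_lt hz0.le]
          exact hl
        · exact (Nat.le_of_dvd (by omega) hdn).trans hn2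
      · rw [Finset.mem_product, Finset.mem_filter, Finset.mem_Icc, Finset.mem_filter,
          Finset.mem_Icc]
        exact ⟨⟨⟨hn0, hn2⟩, hdn⟩, ⟨hm0, hm2⟩, hdm⟩
  have hcard : (P2 Y).card ≤ A.card + B.card :=
    (Finset.card_le_card hsub).trans (Finset.card_union_le _ _)
  have hcA : (A.card : ℝ) = ((Sm Y z).card : ℝ) ^ 2 := by
    rw [hA, Finset.card_product]
    push_cast
    ring
  have hcB : (B.card : ℝ) ≤ 800 * (Y : ℝ) ^ 2 / z := by
    have h1 : (B.card : ℝ) ≤ ∑ p ∈ Ioc ⌊z⌋₊ (20 * Y),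
        (((((Icc 1 (20 * Y)).filter (fun x => p ∣ x)) ×ˢ
          ((Icc 1 (20 * Y)).filter (fun x => p ∣ x))).card : ℕ) : ℝ) := by
      rw [hB]
      exact_mod_cast Finset.card_biUnion_le
    have h2 : ∀ p ∈ Ioc ⌊z⌋₊ (20 * Y),
        (((((Icc 1 (20 * Y)).filter (fun x => p ∣ x)) ×ˢ
          ((Icc 1 (20 * Y)).filter (fun x => p ∣ x))).card : ℕ) : ℝ)
          ≤ (400 * (Y : ℝ) ^ 2) * ((p : ℝ) ^ 2)⁻¹ := by
      intro p hp
      rw [Finset.mem_Ioc] at hp
      have hp0 : (0 : ℝ) < p := by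
        have : 0 < p := by omega
        exact_mod_cast this
      rw [Finset.card_product]
      push_cast
      have e1 := CountD_mul (20 * Y) p
      calc _ ≤ (((20 * Y : ℕ) : ℝ) / p) * (((20 * Y : ℕ) : ℝ) / p) := by
            refine mul_le_mul e1 e1 (Nat.cast_nonneg _) (by positivity)
        _ = (400 * (Y : ℝ) ^ 2) * ((p : ℝ) ^ 2)⁻¹ := by
            push_cast
            field_simp
            ring
    calc (B.card : ℝ) ≤ _ := h1
      _ ≤ ∑ p ∈ Ioc ⌊z⌋₊ (20 * Y), (400 * (Y : ℝ) ^ 2) * ((p : ℝ) ^ 2)⁻¹ := Finset.sum_le_sum h2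
      _ = (400 * (Y : ℝ) ^ 2) * ∑ p ∈ Ioc ⌊z⌋₊ (20 * Y), ((p : ℝ) ^ 2)⁻¹ := by
          rw [Finset.mul_sum]
      _ ≤ (400 * (Y : ℝ) ^ 2) * (2 / z) :=
          mul_le_mul_of_nonneg_left (CountD_sum hz _) (by positivity)
      _ = 800 * (Y : ℝ) ^ 2 / z := by ring
  have : ((P2 Y).card : ℝ) ≤ A.card + B.card := by exact_mod_cast hcard
  linarith

end Pool.Agent.H41.RG

end

section

/-!
# RG SecMom: second moment of the empirical characteristic function

`φ = phiD (rmf e ω) X h θ = (1/X) ∑_k exp(iθ M_k)`, `M_k = ∑_{n ∈ Wk k h} f(n)` real, `c = (1/X) ∑ C_k`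
real.  `|φ - c|² = (1/X²) ∑_{k,l} exp(iθ(M_k - M_l)) - 2 c Re φ + c²`; take expectations (all
functions are bounded and measurable):
`E|φ - c|² = Re [(1/X²) ∑_{k,l} (B_{kl} - C_k C_l) - 2 c (1/X) ∑_k (A_k - C_k)]`
(`(1/X²) ∑∑ C_k C_l = c²`, `(1/X) ∑ C_k = c`), and `|c| ≤ 1`.
-/

set_option autoImplicit false

namespace Pool.Agent.H41.RG

open Finset MeasureTheory ProbabilityTheory
open Pool.Agent.H18.RM (IsSigns rmf)

variable {Ω : Type*} [mΩ : MeasurableSpace Ω] {P : Measure Ω} [IsProbabilityMeasure P]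
  {e : ℕ → Ω → ℝ}

/-- the exponential of a window sum -/
private noncomputable def SecMom_u (e : ℕ → Ω → ℝ) (h : ℕ) (θ : ℝ) (k : ℕ) (ω : Ω) : ℂ :=
  Complex.exp (Complex.I * ((θ * ∑ n ∈ Wk k h, rmf e ω n : ℝ) : ℂ))

private noncomputable def SecMom_w (e : ℕ → Ω → ℝ) (h : ℕ) (θ : ℝ) (k l : ℕ) (ω : Ω) : ℂ :=
  Complex.exp (Complex.I *
    ((θ * (∑ n ∈ Wk k h, rmf e ω n - ∑ n ∈ Wk l h, rmf e ω n) : ℝ) : ℂ))

private theorem SecMom_norm (x : ℝ) : ‖Complex.exp (Complex.I * (x : ℂ))‖ = 1 := by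
  rw [mul_comm, Complex.norm_exp_ofReal_mul_I]

private theorem SecMom_meas_u (hs : IsSigns P e) (h : ℕ) (θ : ℝ) (k : ℕ) :
    Measurable (SecMom_u e h θ k) := by
  unfold SecMom_u
  have h1 : Measurable (fun ω => ∑ n ∈ Wk k h, rmf e ω n) :=
    Finset.measurable_fun_sum _ fun n _ => Pool.Agent.H18.RM.measurable_rmf hs n
  exact Complex.measurable_exp.comp
    ((Complex.measurable_ofReal.comp (h1.const_mul θ)).const_mul Complex.I)

private theorem SecMom_meas_w (hs : IsSigns P e) (h : ℕ) (θ : ℝ) (k l : ℕ) :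
    Measurable (SecMom_w e h θ k l) := by
  unfold SecMom_w
  have h1 : ∀ k, Measurable (fun ω => ∑ n ∈ Wk k h, rmf e ω n) := fun k =>
    Finset.measurable_fun_sum _ fun n _ => Pool.Agent.H18.RM.measurable_rmf hs n
  exact Complex.measurable_exp.comp
    ((Complex.measurable_ofReal.comp (((h1 k).sub (h1 l)).const_mul θ)).const_mul Complex.I)

private theorem SecMom_int_u (hs : IsSigns P e) (h : ℕ) (θ : ℝ) (k : ℕ) :
    Integrable (SecMom_u e h θ k) P :=
  Integrable.of_bound (SecMom_meas_u hs h θ k).aestronglyMeasurable 1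
    (Filter.Eventually.of_forall fun _ => (SecMom_norm _).le)

private theorem SecMom_int_w (hs : IsSigns P e) (h : ℕ) (θ : ℝ) (k l : ℕ) :
    Integrable (SecMom_w e h θ k l) P :=
  Integrable.of_bound (SecMom_meas_w hs h θ k l).aestronglyMeasurable 1
    (Filter.Eventually.of_forall fun _ => (SecMom_norm _).le)

omit mΩ [IsProbabilityMeasure P] in
private theorem SecMom_mul (e : ℕ → Ω → ℝ) (h : ℕ) (θ : ℝ) (k l : ℕ) (ω : Ω) :
    SecMom_u e h θ k ω * (starRingEnd ℂ) (SecMom_u e h θ l ω) = SecMom_w e h θ k l ω := by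
  unfold SecMom_u SecMom_w
  rw [← Complex.exp_conj, ← Complex.exp_add, map_mul, Complex.conj_I, Complex.conj_ofReal]
  congr 1
  push_cast
  ring

omit mΩ in
private theorem SecMom_expand (e : ℕ → Ω → ℝ) (X h : ℕ) (θ c : ℝ) (ω : Ω) :
    ((‖phiD (rmf e ω) X h θ - (c : ℂ)‖ ^ 2 : ℝ) : ℂ) =
      (1 / (X : ℂ) ^ 2) * ∑ k ∈ Ico X (2 * X), ∑ l ∈ Ico X (2 * X), SecMom_w e h θ k l ω -
        ((c : ℂ) / X) * ∑ k ∈ Ico X (2 * X), SecMom_u e h θ k ω -
        ((c : ℂ) / X) * ∑ k ∈ Ico X (2 * X), (starRingEnd ℂ) (SecMom_u e h θ k ω) +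
        (c : ℂ) ^ 2 := by
  have h1 : phiD (rmf e ω) X h θ = (1 / (X : ℂ)) * ∑ k ∈ Ico X (2 * X), SecMom_u e h θ k ω := rfl
  have h2 : ∀ z : ℂ, ((‖z‖ ^ 2 : ℝ) : ℂ) = z * (starRingEnd ℂ) z := fun z => by
    rw [Complex.mul_conj, Complex.normSq_eq_norm_sq]
  rw [h2, h1]
  simp only [map_sub, map_mul, map_sum, map_div₀, map_one, Complex.conj_natCast,
    Complex.conj_ofReal]
  simp only [← SecMom_mul]
  rw [← Finset.sum_mul_sum]
  ring

private theorem SecMom_lin {F₁ F₂ F₃ : Ω → ℂ} (h1 : Integrable F₁ P) (h2 : Integrable F₂ P)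
    (h3 : Integrable F₃ P) (a b d : ℂ) :
    ∫ ω, (a * F₁ ω - b * F₂ ω - b * F₃ ω + d) ∂P =
      a * ∫ ω, F₁ ω ∂P - b * ∫ ω, F₂ ω ∂P - b * ∫ ω, F₃ ω ∂P + d := by
  have i1 : Integrable (fun ω => a * F₁ ω) P := h1.const_mul a
  have i2 : Integrable (fun ω => b * F₂ ω) P := h2.const_mul b
  have i3 : Integrable (fun ω => b * F₃ ω) P := h3.const_mul b
  have i12 : Integrable (fun ω => a * F₁ ω - b * F₂ ω) P := i1.sub i2
  have i123 : Integrable (fun ω => a * F₁ ω - b * F₂ ω - b * F₃ ω) P := i12.sub i3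
  rw [integral_add i123 (integrable_const _), integral_sub i12 i3, integral_sub i1 i2,
    integral_const_mul, integral_const_mul, integral_const_mul, integral_const, probReal_univ,
    one_smul]

theorem measurable_phiD (h : IsSigns P e) (X k : ℕ) (θ : ℝ) :
    Measurable (fun ω => phiD (rmf e ω) X k θ) := by
  exact (Finset.measurable_fun_sum _ fun j _ => SecMom_meas_u h k θ j).const_mul _

theorem norm_phiD_le (g : ℕ → ℝ) {X : ℕ} (hX : 1 ≤ X) (k : ℕ) (θ : ℝ) :
    ‖phiD g X k θ‖ ≤ 1 := by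
  unfold phiD
  have hX' : (0 : ℝ) < X := by exact_mod_cast hX
  rw [norm_mul, norm_div, norm_one, Complex.norm_natCast]
  have h1 : ‖∑ j ∈ Ico X (2 * X), Complex.exp (Complex.I * ((θ * ∑ n ∈ Wk j k, g n : ℝ) : ℂ))‖ ≤
      X := by
    refine (norm_sum_le _ _).trans ?_
    simp only [SecMom_norm]
    rw [Finset.sum_const, Nat.card_Ico, nsmul_eq_mul, mul_one, two_mul, Nat.add_sub_cancel]
  calc 1 / (X : ℝ) * ‖∑ j ∈ Ico X (2 * X), Complex.exp (Complex.I * ((θ * ∑ n ∈ Wk j k, g n : ℝ) : ℂ))‖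
      ≤ 1 / (X : ℝ) * X := by gcongr
    _ = 1 := by field_simp

theorem secmom (hs : IsSigns P e) {X : ℕ} (hX : 1 ≤ X) (h : ℕ) (θ : ℝ) (C : ℕ → ℝ)
    (hC : ∀ k, |C k| ≤ 1) :
    ∫ ω, ‖phiD (rmf e ω) X h θ - (((1 / (X : ℝ)) * ∑ k ∈ Ico X (2 * X), C k : ℝ) : ℂ)‖ ^ 2 ∂P ≤
      (1 / (X : ℝ) ^ 2) * ∑ k ∈ Ico X (2 * X), ∑ l ∈ Ico X (2 * X),
          ‖BW P e (Wk k h) (Wk l h) θ - ((C k * C l : ℝ) : ℂ)‖ +
        (2 / (X : ℝ)) * ∑ k ∈ Ico X (2 * X), ‖AW P e (Wk k h) θ - ((C k : ℝ) : ℂ)‖ := by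
  have hX' : (0 : ℝ) < X := by exact_mod_cast hX
  have hXc : (X : ℂ) ≠ 0 := by exact_mod_cast hX'.ne'
  set c : ℝ := (1 / (X : ℝ)) * ∑ k ∈ Ico X (2 * X), C k with hc
  have hc1 : |c| ≤ 1 := by
    rw [hc, abs_mul, abs_of_pos (by positivity : (0 : ℝ) < 1 / X)]
    have h1 : |∑ k ∈ Ico X (2 * X), C k| ≤ X := by
      refine (Finset.abs_sum_le_sum_abs _ _).trans ?_
      refine (Finset.sum_le_sum fun k _ => hC k).trans ?_
      rw [Finset.sum_const, Nat.card_Ico, nsmul_eq_mul, mul_one, two_mul, Nat.add_sub_cancel]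
    calc 1 / (X : ℝ) * |∑ k ∈ Ico X (2 * X), C k| ≤ 1 / (X : ℝ) * X := by gcongr
      _ = 1 := by field_simp
  have hA : ∀ k, ∫ ω, SecMom_u e h θ k ω ∂P = AW P e (Wk k h) θ := fun k => rfl
  have hB : ∀ k l, ∫ ω, SecMom_w e h θ k l ω ∂P = BW P e (Wk k h) (Wk l h) θ := fun k l => rfl
  have hconj : ∀ k, Integrable (fun ω => (starRingEnd ℂ) (SecMom_u e h θ k ω)) P := fun k =>
    Integrable.of_bound (Complex.continuous_conj.measurable.comp
      (SecMom_meas_u hs h θ k)).aestronglyMeasurable 1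
      (Filter.Eventually.of_forall fun ω => by
        rw [Complex.norm_conj]
        exact (SecMom_norm _).le)
  have hi1 : Integrable (fun ω => ∑ k ∈ Ico X (2 * X), ∑ l ∈ Ico X (2 * X),
      SecMom_w e h θ k l ω) P := integrable_finsetSum _ fun k _ =>
        integrable_finsetSum _ fun l _ => SecMom_int_w hs h θ k l
  have hi2 : Integrable (fun ω => ∑ k ∈ Ico X (2 * X), SecMom_u e h θ k ω) P :=
    integrable_finsetSum _ fun k _ => SecMom_int_u hs h θ k
  have hi3 : Integrable (fun ω => ∑ k ∈ Ico X (2 * X), (starRingEnd ℂ) (SecMom_u e h θ k ω)) P :=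
    integrable_finsetSum _ fun k _ => hconj k
  have key : ((∫ ω, ‖phiD (rmf e ω) X h θ - (c : ℂ)‖ ^ 2 ∂P : ℝ) : ℂ) =
      (1 / (X : ℂ) ^ 2) * ∑ k ∈ Ico X (2 * X), ∑ l ∈ Ico X (2 * X),
          (BW P e (Wk k h) (Wk l h) θ - ((C k * C l : ℝ) : ℂ)) -
        ((c : ℂ) / X) * ∑ k ∈ Ico X (2 * X), (AW P e (Wk k h) θ - ((C k : ℝ) : ℂ)) -
        ((c : ℂ) / X) * ∑ k ∈ Ico X (2 * X),
          (starRingEnd ℂ) (AW P e (Wk k h) θ - ((C k : ℝ) : ℂ)) := by
    rw [← integral_complex_ofReal]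
    have e1 : ∀ ω, ((‖phiD (rmf e ω) X h θ - (c : ℂ)‖ ^ 2 : ℝ) : ℂ) = _ :=
      fun ω => SecMom_expand e X h θ c ω
    simp only [e1]
    rw [SecMom_lin hi1 hi2 hi3, integral_finsetSum _ (fun k _ => integrable_finsetSum _
        fun l _ => SecMom_int_w hs h θ k l), integral_finsetSum _ (fun k _ =>
        SecMom_int_u hs h θ k), integral_finsetSum _ (fun k _ => hconj k)]
    have e2 : ∀ k, ∫ ω, ∑ l ∈ Ico X (2 * X), SecMom_w e h θ k l ω ∂P =
        ∑ l ∈ Ico X (2 * X), BW P e (Wk k h) (Wk l h) θ := fun k => by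
      rw [integral_finsetSum _ (fun l _ => SecMom_int_w hs h θ k l)]
      exact Finset.sum_congr rfl fun l _ => hB k l
    have e3 : ∀ k, ∫ ω, (starRingEnd ℂ) (SecMom_u e h θ k ω) ∂P =
        (starRingEnd ℂ) (AW P e (Wk k h) θ) := fun k => by
      rw [integral_conj, hA]
    have e4 : ∑ k ∈ Ico X (2 * X), ∑ l ∈ Ico X (2 * X), ((C k * C l : ℝ) : ℂ) =
        (X : ℂ) ^ 2 * (c : ℂ) ^ 2 := by
      have : ∑ k ∈ Ico X (2 * X), ∑ l ∈ Ico X (2 * X), C k * C l = (X : ℝ) ^ 2 * c ^ 2 := by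
        rw [← Finset.sum_mul_sum, hc]
        field_simp
      exact_mod_cast this
    have e5 : ∑ k ∈ Ico X (2 * X), ((C k : ℝ) : ℂ) = (X : ℂ) * (c : ℂ) := by
      have : ∑ k ∈ Ico X (2 * X), C k = (X : ℝ) * c := by
        rw [hc]
        field_simp
      exact_mod_cast this
    simp only [e2, e3, hA, Finset.sum_sub_distrib, e4, e5, map_sub, Complex.conj_ofReal]
    field_simp
    ring
  have hnn : 0 ≤ ∫ ω, ‖phiD (rmf e ω) X h θ - (c : ℂ)‖ ^ 2 ∂P :=
    integral_nonneg fun ω => by positivity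
  have h3 : ∫ ω, ‖phiD (rmf e ω) X h θ - (c : ℂ)‖ ^ 2 ∂P =
      ‖((∫ ω, ‖phiD (rmf e ω) X h θ - (c : ℂ)‖ ^ 2 ∂P : ℝ) : ℂ)‖ := by
    rw [Complex.norm_real, Real.norm_of_nonneg hnn]
  rw [h3, key]
  have n1 : ‖(1 / (X : ℂ) ^ 2) * ∑ k ∈ Ico X (2 * X), ∑ l ∈ Ico X (2 * X),
      (BW P e (Wk k h) (Wk l h) θ - ((C k * C l : ℝ) : ℂ))‖ ≤
      (1 / (X : ℝ) ^ 2) * ∑ k ∈ Ico X (2 * X), ∑ l ∈ Ico X (2 * X),
          ‖BW P e (Wk k h) (Wk l h) θ - ((C k * C l : ℝ) : ℂ)‖ := by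
    rw [norm_mul, norm_div, norm_one, norm_pow, Complex.norm_natCast]
    gcongr
    refine (norm_sum_le _ _).trans ?_
    exact Finset.sum_le_sum fun k _ => norm_sum_le _ _
  have n2 : ∀ F : ℕ → ℂ, ‖((c : ℂ) / X) * ∑ k ∈ Ico X (2 * X), F k‖ ≤
      (1 / (X : ℝ)) * ∑ k ∈ Ico X (2 * X), ‖F k‖ := by
    intro F
    rw [norm_mul, norm_div, Complex.norm_natCast, Complex.norm_real, Real.norm_eq_abs]
    gcongr
    exact norm_sum_le _ _
  have n3 := n2 (fun k => AW P e (Wk k h) θ - ((C k : ℝ) : ℂ))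
  have n4 := n2 (fun k => (starRingEnd ℂ) (AW P e (Wk k h) θ - ((C k : ℝ) : ℂ)))
  simp only [Complex.norm_conj] at n4
  refine (norm_sub_le _ _).trans ?_
  refine (add_le_add ((norm_sub_le _ _).trans (add_le_add n1 n3)) n4).trans ?_
  apply le_of_eq
  ring

end Pool.Agent.H41.RG

end

section

/-!
# RG SqfWin: squarefree numbers in short intervals, on average

`∑_{X ≤ k < 2X} |#Wk k h - (6/π²) 2h| ≤ C X √h` for `1 ≤ h ≤ X`.

Proof.  `1_{n squarefree} = ∑_{d² ∣ n} μ(d)`, so `#Wk k h = ∑_{d ≥ 1} μ(d) N_d(k)`, `N_d(k)` the number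
of multiples of `d²` in `(k-h, k+h]` (`h ≤ k`, all these numbers are positive).  Let `D = ⌊√h⌋ ≥ 1`.
`|N_d(k) - 2h/d²| ≤ 1`, `∑_{d ≥ 1} μ(d)/d² = 6/π²`, `∑_{d > D} 1/d² ≤ 1/D ≤ 2/√h`: the part `d ≤ D` is
`(6/π²) 2h + O(D + 2h · 2/√h)`.  The part `d > D` is at most `∑_{d > D} N_d(k)` in absolute value, and
`∑_k N_d(k) ≤ 2h · #{n ≤ 3X : d² ∣ n} ≤ 2h · 3X/d²`, sum over `d > D`: `≤ 6 h X · 2/√h`.
(For `∑ μ(d)/d² = 6/π²` see `Pool.Agent.H18.RM.Sqf`: `sqf_count` and the lemmas there.)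
-/

set_option autoImplicit false

namespace Pool.Agent.H41.RG

open Finset

/-- `d² ∣ b² a` with `a` squarefree means `d ∣ b` -/
private theorem SqfWin_dvd {a b d : ℕ} (ha : Squarefree a) (hb : 0 < b) :
    d ^ 2 ∣ b ^ 2 * a ↔ d ∣ b := by
  constructor
  · intro h
    have ha0 : a ≠ 0 := ha.ne_zero
    have hn0 : b ^ 2 * a ≠ 0 := mul_ne_zero (pow_ne_zero 2 hb.ne') ha0
    have hd0 : d ≠ 0 := by
      rintro rfl
      rw [zero_pow (by norm_num)] at h
      exact hn0 (Nat.eq_zero_of_zero_dvd h)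
    rw [← Nat.factorization_le_iff_dvd hd0 hb.ne']
    rw [← Nat.factorization_le_iff_dvd (pow_ne_zero 2 hd0) hn0] at h
    intro p
    have h1 := h p
    rw [Nat.factorization_mul (pow_ne_zero 2 hb.ne') ha0, Nat.factorization_pow,
      Nat.factorization_pow] at h1
    simp only [Finsupp.coe_add, Finsupp.coe_smul, Pi.add_apply, Pi.smul_apply, smul_eq_mul] at h1
    have h2 : a.factorization p ≤ 1 := ha.natFactorization_le_one p
    omega
  · intro h
    exact Dvd.dvd.mul_right (pow_dvd_pow_of_dvd h 2) a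

private theorem SqfWin_moebius_sum (n : ℕ) :
    ∑ d ∈ n.divisors, (ArithmeticFunction.moebius d : ℤ) = if n = 1 then 1 else 0 := by
  rw [← ArithmeticFunction.coe_mul_zeta_apply, ArithmeticFunction.moebius_mul_coe_zeta,
    ArithmeticFunction.one_apply]

/-- the indicator of the squarefree numbers -/
private theorem SqfWin_ind {n D : ℕ} (hn : 0 < n) (hD : ∀ d : ℕ, d ^ 2 ∣ n → d ≤ D) :
    ∑ d ∈ Icc 1 D, (if d ^ 2 ∣ n then (ArithmeticFunction.moebius d : ℤ) else 0) =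
      if Squarefree n then 1 else 0 := by
  obtain ⟨a, b, ha0, hb0, hab, ha⟩ := Nat.sq_mul_squarefree_of_pos hn
  have h1 : ∀ d, d ^ 2 ∣ n ↔ d ∣ b := by
    intro d
    rw [← hab]
    exact SqfWin_dvd ha hb0
  rw [← sum_filter]
  have h2 : (Icc 1 D).filter (fun d => d ^ 2 ∣ n) = b.divisors := by
    ext d
    rw [mem_filter, Nat.mem_divisors, h1, mem_Icc]
    constructor
    · rintro ⟨_, h⟩
      exact ⟨h, hb0.ne'⟩
    · rintro ⟨h, _⟩
      refine ⟨⟨Nat.pos_of_dvd_of_pos h hb0, hD d ((h1 d).2 h)⟩, h⟩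
  rw [h2, SqfWin_moebius_sum]
  have h3 : b = 1 ↔ Squarefree n := by
    constructor
    · intro h
      rw [← hab, h, one_pow, one_mul]
      exact ha
    · intro h
      have h4 : b * b ∣ n := by
        rw [← hab, pow_two]
        exact dvd_mul_right _ _
      exact Nat.isUnit_iff.1 (h b h4)
  simp only [h3]

private theorem SqfWin_card_dvd (n d : ℕ) : ((Icc 1 n).filter (fun x => d ∣ x)).card = n / d := by
  rw [← Nat.Ioc_filter_dvd_card_eq_div]
  congr 1

/-- the series `∑ μ(d)/d²` -/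
private theorem SqfWin_hasSum :
    HasSum (fun d : ℕ => (ArithmeticFunction.moebius d : ℝ) / (d : ℝ) ^ 2) (6 / Real.pi ^ 2) := by
  have hs : 1 < (2 : ℂ).re := by norm_num
  have h1 := ArithmeticFunction.LSeriesSummable_moebius_iff.2 hs
  have h2 := ArithmeticFunction.LSeries_zeta_mul_Lseries_moebius hs
  rw [ArithmeticFunction.LSeries_zeta_eq_riemannZeta hs, riemannZeta_two] at h2
  have hpi : (Real.pi : ℂ) ≠ 0 := by exact_mod_cast Real.pi_ne_zero
  have h3 : LSeries (fun n => (ArithmeticFunction.moebius n : ℂ)) 2 = ((6 / Real.pi ^ 2 : ℝ) : ℂ) := by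
    push_cast
    field_simp at h2 ⊢
    linear_combination h2
  have h4 := h1.hasSum
  have h5 : HasSum (fun d : ℕ => (((ArithmeticFunction.moebius d : ℝ) / (d : ℝ) ^ 2 : ℝ) : ℂ))
      ((6 / Real.pi ^ 2 : ℝ) : ℂ) := by
    rw [← h3]
    unfold LSeries
    convert h4 using 1
    funext d
    rcases eq_or_ne d 0 with rfl | hd
    · simp
    · rw [LSeries.term_of_ne_zero hd]
      push_cast
      norm_cast
  exact_mod_cast h5

private theorem SqfWin_abs_moebius (d : ℕ) : |(ArithmeticFunction.moebius d : ℝ)| ≤ 1 := by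
  have h := ArithmeticFunction.abs_moebius_le_one (n := d)
  exact_mod_cast h

/-- the tail -/
private theorem SqfWin_tail (D : ℕ) (hD : 1 ≤ D) :
    |6 / Real.pi ^ 2 - ∑ d ∈ Icc 1 D, (ArithmeticFunction.moebius d : ℝ) / (d : ℝ) ^ 2| ≤
      1 / (D : ℝ) := by
  have h1 := SqfWin_hasSum.tendsto_sum_nat
  have h2 : Filter.Tendsto (fun M : ℕ => |∑ i ∈ range M, (ArithmeticFunction.moebius i : ℝ) /
      (i : ℝ) ^ 2 - ∑ d ∈ Icc 1 D, (ArithmeticFunction.moebius d : ℝ) / (d : ℝ) ^ 2|) Filter.atTop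
      (nhds |6 / Real.pi ^ 2 - ∑ d ∈ Icc 1 D, (ArithmeticFunction.moebius d : ℝ) / (d : ℝ) ^ 2|) :=
    (h1.sub_const _).abs
  refine le_of_tendsto h2 ?_
  filter_upwards [Filter.eventually_ge_atTop (D + 1)] with M hM
  obtain ⟨m, rfl⟩ : ∃ m, M = m + 1 := ⟨M - 1, by omega⟩
  have hDm : D ≤ m := by omega
  have h3 : range (m + 1) = insert 0 (Icc 1 D ∪ Ioc D m) := by
    ext x
    simp only [mem_range, mem_insert, mem_union, mem_Icc, mem_Ioc]
    omega
  have hdis : Disjoint (Icc 1 D) (Ioc D m) := by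
    rw [disjoint_left]
    intro x hx hx'
    rw [mem_Icc] at hx
    rw [mem_Ioc] at hx'
    omega
  rw [h3, sum_insert, sum_union hdis]
  · have h4 : (ArithmeticFunction.moebius 0 : ℝ) / ((0 : ℕ) : ℝ) ^ 2 = 0 := by simp
    rw [h4, zero_add, add_sub_cancel_left]
    refine (abs_sum_le_sum_abs _ _).trans ?_
    have h5 : ∑ i ∈ Ioc D m, |(ArithmeticFunction.moebius i : ℝ) / (i : ℝ) ^ 2| ≤
        ∑ i ∈ Ioc D m, ((i : ℝ) ^ 2)⁻¹ := by
      refine sum_le_sum fun i _ => ?_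
      rw [abs_div, abs_of_nonneg (sq_nonneg (i : ℝ)), div_eq_mul_inv]
      exact mul_le_of_le_one_left (inv_nonneg.2 (sq_nonneg _)) (SqfWin_abs_moebius i)
    refine h5.trans ((sum_Ioc_inv_sq_le_sub (by omega) hDm).trans ?_)
    rw [one_div]
    have : (0 : ℝ) ≤ (m : ℝ)⁻¹ := by positivity
    linarith
  · simp only [mem_union, mem_Icc, mem_Ioc]
    omega

private theorem SqfWin_card (a b q : ℕ) (hab : a ≤ b) (_hq : 0 < q) :
    (((Ioc a b).filter (fun x => q ∣ x)).card : ℝ) = ((b / q : ℕ) : ℝ) - ((a / q : ℕ) : ℝ) := by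
  have h1 : (Ioc 0 b).filter (fun x => q ∣ x) =
      (Ioc 0 a).filter (fun x => q ∣ x) ∪ (Ioc a b).filter (fun x => q ∣ x) := by
    rw [← filter_union, Ioc_union_Ioc_eq_Ioc (Nat.zero_le a) hab]
  have h2 : Disjoint ((Ioc 0 a).filter (fun x => q ∣ x)) ((Ioc a b).filter (fun x => q ∣ x)) := by
    rw [disjoint_left]
    intro x hx hx'
    rw [mem_filter, mem_Ioc] at hx hx'
    omega
  have h3 := congrArg card h1
  rw [card_union_of_disjoint h2, Nat.Ioc_filter_dvd_card_eq_div,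
    Nat.Ioc_filter_dvd_card_eq_div] at h3
  rw [h3]
  push_cast
  ring

private theorem SqfWin_one {k h q : ℕ} (hk : h ≤ k) (hq : 0 < q) :
    |(((Ioc (k - h) (k + h)).filter (fun x => q ∣ x)).card : ℝ) - 2 * h / (q : ℝ)| ≤ 1 := by
  have hq0 : (0 : ℝ) < q := by exact_mod_cast hq
  rw [SqfWin_card _ _ _ (by omega) hq]
  have fl : ∀ n : ℕ, (((n / q : ℕ) : ℝ) ≤ (n : ℝ) / q) ∧ ((n : ℝ) / q < ((n / q : ℕ) : ℝ) + 1) := by
    intro n
    constructor
    · exact Nat.cast_div_le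
    · rw [div_lt_iff₀ hq0]
      have := Nat.lt_div_mul_add (a := n) hq
      have h2 : n < (n / q + 1) * q := by nlinarith
      exact_mod_cast h2
  have h1 := fl (k + h)
  have h2 := fl (k - h)
  have e : 2 * h / (q : ℝ) = ((k + h : ℕ) : ℝ) / q - ((k - h : ℕ) : ℝ) / q := by
    rw [← sub_div, Nat.cast_sub hk]
    push_cast
    ring
  rw [e, abs_le]
  constructor <;> linarith [h1.1, h1.2, h2.1, h2.2]

private theorem SqfWin_sum {X h q : ℕ} (hX : h ≤ X) (hq : 0 < q) :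
    ∑ k ∈ Ico X (2 * X), (((Ioc (k - h) (k + h)).filter (fun x => q ∣ x)).card : ℝ) ≤
      2 * h * (3 * X) * ((q : ℝ))⁻¹ := by
  have h1 : ∀ k ∈ Ico X (2 * X), ((Ioc (k - h) (k + h)).filter (fun x => q ∣ x)).card =
      ∑ n ∈ (Icc 1 (3 * X)).filter (fun x => q ∣ x), if k - h < n ∧ n ≤ k + h then 1 else 0 := by
    intro k hk
    rw [mem_Ico] at hk
    rw [← card_filter, filter_filter]
    congr 1
    ext x
    simp only [mem_filter, mem_Ioc, mem_Icc]
    constructor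
    · rintro ⟨⟨h2, h3⟩, h4⟩
      exact ⟨⟨by omega, by omega⟩, h4, h2, h3⟩
    · rintro ⟨_, h4, h2, h3⟩
      exact ⟨⟨h2, h3⟩, h4⟩
  have h2 : ∑ k ∈ Ico X (2 * X), ((Ioc (k - h) (k + h)).filter (fun x => q ∣ x)).card ≤
      (3 * X / q) * (2 * h) := by
    rw [sum_congr rfl h1, sum_comm, ← SqfWin_card_dvd (3 * X) q, ← smul_eq_mul]
    refine sum_le_card_nsmul _ _ _ fun n _ => ?_
    rw [← card_filter]
    have h3 : (Ico X (2 * X)).filter (fun k => k - h < n ∧ n ≤ k + h) ⊆ Ico (n - h) (n + h) := by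
      intro k hk
      rw [mem_filter, mem_Ico] at hk
      rw [mem_Ico]
      omega
    refine (card_le_card h3).trans ?_
    rw [Nat.card_Ico]
    omega
  have h3 : ((∑ k ∈ Ico X (2 * X), ((Ioc (k - h) (k + h)).filter (fun x => q ∣ x)).card : ℕ) : ℝ) ≤
      (((3 * X / q) * (2 * h) : ℕ) : ℝ) := by exact_mod_cast h2
  rw [Nat.cast_sum] at h3
  refine h3.trans ?_
  push_cast
  have h4 : ((3 * X / q : ℕ) : ℝ) ≤ (3 * X) * (q : ℝ)⁻¹ := by
    have := Nat.cast_div_le (α := ℝ) (m := 3 * X) (n := q)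
    rw [div_eq_mul_inv] at this
    push_cast at this
    exact this
  calc ((3 * X / q : ℕ) : ℝ) * (2 * h) ≤ ((3 * X) * (q : ℝ)⁻¹) * (2 * h) :=
        mul_le_mul_of_nonneg_right h4 (by positivity)
    _ = 2 * h * (3 * X) * ((q : ℝ))⁻¹ := by ring

private theorem SqfWin_Wk {X h k : ℕ} (hX : h ≤ X) (hk : k ∈ Ico X (2 * X)) :
    ((Wk k h).card : ℝ) = ∑ d ∈ Icc 1 (3 * X), (ArithmeticFunction.moebius d : ℝ) *
      (((Ioc (k - h) (k + h)).filter (fun x => d ^ 2 ∣ x)).card : ℝ) := by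
  rw [mem_Ico] at hk
  have h1 : ((Wk k h).card : ℤ) = ∑ d ∈ Icc 1 (3 * X), (ArithmeticFunction.moebius d : ℤ) *
      (((Ioc (k - h) (k + h)).filter (fun x => d ^ 2 ∣ x)).card : ℤ) := by
    unfold Wk
    rw [card_filter]
    push_cast
    have h2 : ∀ x ∈ Ioc (k - h) (k + h), (if Squarefree x then (1 : ℤ) else 0) =
        ∑ d ∈ Icc 1 (3 * X), (if d ^ 2 ∣ x then (ArithmeticFunction.moebius d : ℤ) else 0) := by
      intro x hx
      rw [mem_Ioc] at hx
      rw [SqfWin_ind (by omega)]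
      intro d hd
      have h3 : d ^ 2 ≤ x := Nat.le_of_dvd (by omega) hd
      nlinarith
    rw [sum_congr rfl h2, sum_comm]
    refine sum_congr rfl fun d _ => ?_
    rw [← sum_filter, sum_const, nsmul_eq_mul, mul_comm]
  have h := congrArg (Int.cast : ℤ → ℝ) h1
  rw [Int.cast_natCast, Int.cast_sum] at h
  rw [h]
  refine sum_congr rfl fun d _ => ?_
  rw [Int.cast_mul, Int.cast_natCast]

theorem sqf_win : ∃ C : ℝ, 0 < C ∧ ∀ X h : ℕ, 1 ≤ h → h ≤ X →
    ∑ k ∈ Ico X (2 * X), |((Wk k h).card : ℝ) - 6 / Real.pi ^ 2 * (2 * h)| ≤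
      C * X * Real.sqrt h := by
  refine ⟨17, by norm_num, ?_⟩
  intro X h h1 hX
  set D : ℕ := Nat.sqrt h with hD
  have hD1 : 1 ≤ D := by
    rw [hD, Nat.le_sqrt]
    omega
  have hD0 : (0 : ℝ) < D := by exact_mod_cast hD1
  have hDsq : (D : ℝ) ^ 2 ≤ (h : ℝ) := by
    have := Nat.sqrt_le' h
    exact_mod_cast this
  have hDsq2 : (h : ℝ) ≤ (2 * (D : ℝ)) ^ 2 := by
    have h1 := Nat.lt_succ_sqrt' h
    rw [← hD] at h1
    have h2 : h ≤ (2 * D) ^ 2 := by
      have h3 : Nat.succ D ≤ 2 * D := by omega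
      have h4 := Nat.pow_le_pow_left h3 2
      omega
    exact_mod_cast h2
  have hDle : (D : ℝ) ≤ Real.sqrt (h : ℝ) := Real.le_sqrt_of_sq_le hDsq
  have hsq : Real.sqrt (h : ℝ) ≤ 2 * (D : ℝ) := by
    rw [Real.sqrt_le_left (by positivity)]
    exact hDsq2
  have hDX : D ≤ 3 * X := by
    have : D ≤ h := Nat.sqrt_le_self h
    omega
  have hsqh : Real.sqrt (h : ℝ) * Real.sqrt (h : ℝ) = h := Real.mul_self_sqrt (by positivity)
  -- h / D ≤ 2 √h
  have hhD : (h : ℝ) / D ≤ 2 * Real.sqrt h := by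
    rw [div_le_iff₀ hD0]
    nlinarith [Real.sqrt_nonneg (h : ℝ)]
  set Nd : ℕ → ℕ → ℝ := fun k d =>
    (((Ioc (k - h) (k + h)).filter (fun x => d ^ 2 ∣ x)).card : ℝ) with hNd
  have hpt : ∀ k ∈ Ico X (2 * X), |((Wk k h).card : ℝ) - 6 / Real.pi ^ 2 * (2 * h)| ≤
      (D + 2 * h / D) + ∑ d ∈ Ioc D (3 * X), Nd k d := by
    intro k hk
    have hkk := mem_Ico.1 hk
    rw [SqfWin_Wk hX hk]
    have hsplit : Icc 1 (3 * X) = Icc 1 D ∪ Ioc D (3 * X) := by
      ext x
      simp only [mem_union, mem_Icc, mem_Ioc]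
      omega
    have hdis : Disjoint (Icc 1 D) (Ioc D (3 * X)) := by
      rw [disjoint_left]
      intro x hx hx'
      rw [mem_Icc] at hx
      rw [mem_Ioc] at hx'
      omega
    rw [hsplit, sum_union hdis]
    have e1 : |∑ d ∈ Icc 1 D, (ArithmeticFunction.moebius d : ℝ) * Nd k d -
        2 * h * ∑ d ∈ Icc 1 D, (ArithmeticFunction.moebius d : ℝ) / (d : ℝ) ^ 2| ≤ D := by
      rw [mul_sum, ← sum_sub_distrib]
      refine (abs_sum_le_sum_abs _ _).trans ?_
      have h2 : ∀ d ∈ Icc 1 D, |(ArithmeticFunction.moebius d : ℝ) * Nd k d -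
          2 * h * ((ArithmeticFunction.moebius d : ℝ) / (d : ℝ) ^ 2)| ≤ 1 := by
        intro d hd
        rw [mem_Icc] at hd
        have e3 : (ArithmeticFunction.moebius d : ℝ) * Nd k d -
            2 * h * ((ArithmeticFunction.moebius d : ℝ) / (d : ℝ) ^ 2) =
            (ArithmeticFunction.moebius d : ℝ) * (Nd k d - 2 * h / (((d ^ 2 : ℕ)) : ℝ)) := by
          push_cast; ring
        rw [e3, abs_mul]
        exact mul_le_one₀ (SqfWin_abs_moebius d) (abs_nonneg _)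
          (SqfWin_one (by omega) (pow_pos hd.1 2))
      refine (sum_le_sum h2).trans ?_
      rw [sum_const, Nat.card_Icc, nsmul_eq_mul, mul_one]
      norm_num
    have e2 := SqfWin_tail D hD1
    have e3 : |2 * (h : ℝ) * ∑ d ∈ Icc 1 D, (ArithmeticFunction.moebius d : ℝ) / (d : ℝ) ^ 2 -
        6 / Real.pi ^ 2 * (2 * h)| ≤ 2 * (h : ℝ) / (D : ℝ) := by
      have e4 : 2 * (h : ℝ) * ∑ d ∈ Icc 1 D, (ArithmeticFunction.moebius d : ℝ) / (d : ℝ) ^ 2 -
        6 / Real.pi ^ 2 * (2 * h) = -(2 * h * (6 / Real.pi ^ 2 -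
          ∑ d ∈ Icc 1 D, (ArithmeticFunction.moebius d : ℝ) / (d : ℝ) ^ 2)) := by ring
      rw [e4, abs_neg, abs_mul, abs_of_nonneg (by positivity : (0 : ℝ) ≤ 2 * h)]
      calc 2 * (h : ℝ) * |6 / Real.pi ^ 2 - ∑ d ∈ Icc 1 D,
            (ArithmeticFunction.moebius d : ℝ) / (d : ℝ) ^ 2| ≤ 2 * h * (1 / D) :=
            mul_le_mul_of_nonneg_left e2 (by positivity)
        _ = 2 * h / D := by ring
    have e5 : |∑ d ∈ Ioc D (3 * X), (ArithmeticFunction.moebius d : ℝ) * Nd k d| ≤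
        ∑ d ∈ Ioc D (3 * X), Nd k d := by
      refine (abs_sum_le_sum_abs _ _).trans (sum_le_sum fun d _ => ?_)
      have hn : 0 ≤ Nd k d := by simp only [hNd]; positivity
      rw [abs_mul, abs_of_nonneg hn]
      exact mul_le_of_le_one_left hn (SqfWin_abs_moebius d)
    rw [abs_le] at e1 e3 e5 ⊢
    constructor
    · linarith [e1.1, e3.1, e5.1]
    · linarith [e1.2, e3.2, e5.2]
  refine (sum_le_sum hpt).trans ?_
  rw [sum_add_distrib, sum_const, Nat.card_Ico, nsmul_eq_mul, sum_comm]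
  have hcard : ((2 * X - X : ℕ) : ℝ) = X := by
    rw [show 2 * X - X = X by omega]
  rw [hcard]
  have t1 : ∑ d ∈ Ioc D (3 * X), ∑ k ∈ Ico X (2 * X), Nd k d ≤ 2 * h * (3 * X) * (D : ℝ)⁻¹ := by
    have t2 : ∀ d ∈ Ioc D (3 * X), ∑ k ∈ Ico X (2 * X), Nd k d ≤
        2 * h * (3 * X) * ((d : ℝ) ^ 2)⁻¹ := by
      intro d hd
      rw [mem_Ioc] at hd
      have := SqfWin_sum (q := d ^ 2) hX (pow_pos (by omega) 2)
      push_cast at this
      exact this
    refine (sum_le_sum t2).trans ?_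
    rw [← mul_sum]
    refine mul_le_mul_of_nonneg_left ?_ (by positivity)
    refine (sum_Ioc_inv_sq_le_sub (by omega) hDX).trans ?_
    have : (0 : ℝ) ≤ ((3 * X : ℕ) : ℝ)⁻¹ := by positivity
    linarith
  have t3 : 2 * (h : ℝ) * (3 * X) * (D : ℝ)⁻¹ = 6 * X * (h / D) := by ring
  rw [t3] at t1
  have hX0 : (0 : ℝ) ≤ X := by positivity
  have t4 : (X : ℝ) * (D + 2 * h / D) ≤ X * (Real.sqrt h + 2 * (2 * Real.sqrt h)) := by
    refine mul_le_mul_of_nonneg_left ?_ hX0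
    have : 2 * (h : ℝ) / D = 2 * (h / D) := by ring
    rw [this]
    linarith
  have t5 : 6 * (X : ℝ) * (h / D) ≤ 6 * X * (2 * Real.sqrt h) :=
    mul_le_mul_of_nonneg_left hhD (by positivity)
  calc (X : ℝ) * (D + 2 * h / D) + ∑ d ∈ Ioc D (3 * X), ∑ k ∈ Ico X (2 * X), Nd k d
      ≤ X * (Real.sqrt h + 2 * (2 * Real.sqrt h)) + 6 * X * (2 * Real.sqrt h) :=
        add_le_add t4 (t1.trans t5)
    _ = 17 * X * Real.sqrt h := by ring

end Pool.Agent.H41.RG

end

section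

/-!
# RG MartA: one step of the martingale, and the exact case

`measurable_of_past`: `Past e p ≤ mΩ`, so `Past`-measurable functions are measurable.

`mart_step`.  `exp(i e_p b) = cos b + i e_p sin b` where `e_p = ±1` (`IsSigns.ae_signs`), so
`∫ G exp(i e_p b) = ∫ G cos b + i ∫ (G sin b) e_p`, and `∫ (G sin b) e_p = 0`: real and imaginary
part of `G sin b` are `Past e p`-measurable (and bounded a.e.), hence independent of `e p`
(`ProbabilityTheory.indep_iSup_of_disjoint` applied to `h.indep` and the disjoint sets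
`Set.Iio p`, `{p}`; then `Indep` of the comaps, `IndepFun.integral_mul_eq_mul_integral`), and
`∫ e_p = 0` (`1/2 - 1/2`; see also `Prob_int_odd` in `H18/RM/Prob`, which is `∫ e_p^k = 0` for odd
`k`).

`mart_exact`: induction on `m` with `mart_step`, `G = exp(i ∑_{p<m} e_p a_p)` (which is
`Past e m`-measurable, norm one), `b = a m`.
-/

set_option autoImplicit false

namespace Pool.Agent.H41.RG

open Finset MeasureTheory ProbabilityTheory
open Pool.Agent.H18.RM (IsSigns rmf)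

variable {Ω : Type*} [mΩ : MeasurableSpace Ω] {P : Measure Ω} [IsProbabilityMeasure P]
  {e : ℕ → Ω → ℝ}

theorem past_le (h : IsSigns P e) (p : ℕ) : Past e p ≤ mΩ := by
  exact iSup₂_le fun q _ => (h.meas q).comap_le

theorem past_mono (e : ℕ → Ω → ℝ) {p q : ℕ} (hpq : p ≤ q) : Past e p ≤ Past e q := by
  exact biSup_mono fun _ hr => lt_of_lt_of_le hr hpq

theorem measurable_past {e : ℕ → Ω → ℝ} {q p : ℕ} (hqp : q < p) :
    Measurable[Past e p] (e q) := by
  exact (comap_measurable (e q)).mono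
    (le_iSup₂ (f := fun (q : ℕ) (_ : q ∈ Set.Iio p) =>
      MeasurableSpace.comap (e q) (inferInstance : MeasurableSpace ℝ)) q hqp) le_rfl

private theorem MartA_int_one (h : IsSigns P e) (p : ℕ) : ∫ ω, e p ω ∂P = 0 := by
  have hm1 : MeasurableSet {ω | e p ω = 1} := h.meas p (measurableSet_singleton 1)
  have hm2 : MeasurableSet {ω | e p ω = -1} := h.meas p (measurableSet_singleton (-1))
  have hae : (fun ω => e p ω) =ᵐ[P] fun ω =>
      Set.indicator {ω | e p ω = 1} (fun _ => (1:ℝ)) ω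
        - Set.indicator {ω | e p ω = -1} (fun _ => (1:ℝ)) ω := by
    filter_upwards [h.ae_signs] with ω hω
    rcases hω p with hp | hp
    · rw [Set.indicator_of_mem (show ω ∈ {ω | e p ω = 1} from hp),
        Set.indicator_of_notMem]
      · rw [hp]; norm_num
      · intro hq
        have hq' : e p ω = -1 := hq
        rw [hp] at hq'
        norm_num at hq'
    · rw [Set.indicator_of_mem (show ω ∈ {ω | e p ω = -1} from hp),
        Set.indicator_of_notMem]
      · rw [hp]; norm_num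
      · intro hq
        have hq' : e p ω = 1 := hq
        rw [hp] at hq'
        norm_num at hq'
  rw [integral_congr_ae hae, integral_sub, integral_indicator_const _ hm1,
    integral_indicator_const _ hm2]
  · simp only [measureReal_def, h.one p, h.neg p]
    simp
  · exact (integrable_const (1:ℝ)).indicator hm1
  · exact (integrable_const (1:ℝ)).indicator hm2

/-- the past is independent of `e p` -/
private theorem MartA_indep (h : IsSigns P e) (p : ℕ) :
    Indep (Past e p) (MeasurableSpace.comap (e p) inferInstance) P := by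
  have h1 := indep_iSup_of_disjoint (fun q => (h.meas q).comap_le) h.indep.iIndep
    (S := Set.Iio p) (T := {p}) (by simp)
  rw [_root_.iSup_singleton] at h1
  exact h1

/-- `∫ F e_p = 0` for `F` in the past -/
private theorem MartA_zero (h : IsSigns P e) (p : ℕ) {F : Ω → ℂ}
    (hF : Measurable[Past e p] F) :
    ∫ ω, F ω * ((e p ω : ℝ) : ℂ) ∂P = 0 := by
  have hind : IndepFun F (fun ω => ((e p ω : ℝ) : ℂ)) P := by
    have h1 : Indep (MeasurableSpace.comap F inferInstance)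
        (MeasurableSpace.comap (e p) inferInstance) P :=
      indep_of_indep_of_le_left (MartA_indep h p) hF.comap_le
    have h2 : IndepFun F (e p) P := h1
    exact h2.comp measurable_id Complex.measurable_ofReal
  have hF' : Measurable F := hF.mono (past_le h p) le_rfl
  rw [hind.integral_fun_mul_eq_mul_integral hF'.aestronglyMeasurable
    (Complex.measurable_ofReal.comp (h.meas p)).aestronglyMeasurable]
  have h3 : ∫ ω, ((e p ω : ℝ) : ℂ) ∂P = ((∫ ω, e p ω ∂P : ℝ) : ℂ) := integral_ofReal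
  rw [h3, MartA_int_one h p]
  simp

theorem mart_step (h : IsSigns P e) (p : ℕ) {G : Ω → ℂ} {b : Ω → ℝ}
    (hG : Measurable[Past e p] G) {R : ℝ} (hGR : ∀ᵐ ω ∂P, ‖G ω‖ ≤ R)
    (hb : Measurable[Past e p] b) :
    ∫ ω, G ω * Complex.exp (Complex.I * ((e p ω * b ω : ℝ) : ℂ)) ∂P =
      ∫ ω, G ω * ((Real.cos (b ω) : ℝ) : ℂ) ∂P := by
  have hbC : Measurable[Past e p] fun ω => ((Real.sin (b ω) : ℝ) : ℂ) :=
    Complex.measurable_ofReal.comp (Real.measurable_sin.comp hb)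
  have hF : Measurable[Past e p] fun ω => G ω * ((Real.sin (b ω) : ℝ) : ℂ) := hG.mul hbC
  have hG' : Measurable G := hG.mono (past_le h p) le_rfl
  have hb' : Measurable b := hb.mono (past_le h p) le_rfl
  have hbc : Measurable fun ω => ((Real.cos (b ω) : ℝ) : ℂ) :=
    Complex.measurable_ofReal.comp (Real.measurable_cos.comp hb')
  have hbs : Measurable fun ω => ((Real.sin (b ω) : ℝ) : ℂ) :=
    Complex.measurable_ofReal.comp (Real.measurable_sin.comp hb')
  have hep : Measurable fun ω => ((e p ω : ℝ) : ℂ) :=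
    Complex.measurable_ofReal.comp (h.meas p)
  have hI1 : Integrable (fun ω => G ω * ((Real.cos (b ω) : ℝ) : ℂ)) P := by
    refine Integrable.of_bound (hG'.mul hbc).aestronglyMeasurable R ?_
    filter_upwards [hGR] with ω hω
    rw [norm_mul, Complex.norm_real, Real.norm_eq_abs]
    have h1 := Real.abs_cos_le_one (b ω)
    have h2 := norm_nonneg (G ω)
    have h3 := abs_nonneg (Real.cos (b ω))
    nlinarith
  have hI2 : Integrable (fun ω => Complex.I * ((G ω * ((Real.sin (b ω) : ℝ) : ℂ)) *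
      ((e p ω : ℝ) : ℂ))) P := by
    refine Integrable.of_bound (((hG'.mul hbs).mul hep).const_mul _).aestronglyMeasurable R ?_
    filter_upwards [hGR, h.ae_signs] with ω hω hs
    have h0 : |e p ω| = 1 := by
      rcases hs p with hp | hp <;> rw [hp] <;> norm_num
    rw [norm_mul, norm_mul, norm_mul, Complex.norm_I, Complex.norm_real, Complex.norm_real,
      Real.norm_eq_abs, Real.norm_eq_abs, h0, one_mul, mul_one]
    have h1 := Real.abs_sin_le_one (b ω)
    have h2 := norm_nonneg (G ω)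
    have h3 := abs_nonneg (Real.sin (b ω))
    nlinarith
  have hae : (fun ω => G ω * Complex.exp (Complex.I * ((e p ω * b ω : ℝ) : ℂ))) =ᵐ[P]
      fun ω => G ω * ((Real.cos (b ω) : ℝ) : ℂ) +
        Complex.I * ((G ω * ((Real.sin (b ω) : ℝ) : ℂ)) * ((e p ω : ℝ) : ℂ)) := by
    filter_upwards [h.ae_signs] with ω hs
    have h1 : Complex.exp (Complex.I * ((e p ω * b ω : ℝ) : ℂ)) =
        ((Real.cos (e p ω * b ω) : ℝ) : ℂ) + Complex.I * ((Real.sin (e p ω * b ω) : ℝ) : ℂ) := by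
      rw [mul_comm Complex.I, Complex.exp_mul_I, Complex.ofReal_cos, Complex.ofReal_sin]
      ring
    rw [h1]
    rcases hs p with hp | hp
    · rw [hp, one_mul]
      push_cast
      ring
    · rw [hp, neg_one_mul, Real.cos_neg, Real.sin_neg]
      push_cast
      ring
  rw [integral_congr_ae hae, integral_add hI1 hI2, integral_const_mul, MartA_zero h p hF]
  simp

theorem mart_exact (h : IsSigns P e) (a : ℕ → Ω → ℝ)
    (ha : ∀ p, Measurable[Past e p] (a p)) (c : ℕ → ℝ) (m : ℕ)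
    (hc : ∀ p < m, ∀ᵐ ω ∂P, Real.cos (a p ω) = c p) :
    ∫ ω, Complex.exp (Complex.I * ((∑ p ∈ range m, e p ω * a p ω : ℝ) : ℂ)) ∂P =
      ((∏ p ∈ range m, c p : ℝ) : ℂ) := by
  induction m with
  | zero => simp
  | succ m ih =>
    have ih' := ih fun p hp => hc p (hp.trans (Nat.lt_succ_self m))
    have hS : Measurable[Past e m] fun ω => ∑ p ∈ range m, e p ω * a p ω := by
      refine Finset.measurable_sum _ fun p hp => ?_
      have hpm : p < m := Finset.mem_range.mp hp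
      exact (measurable_past hpm).mul ((ha p).mono (past_mono e hpm.le) le_rfl)
    have hG : Measurable[Past e m] fun ω =>
        Complex.exp (Complex.I * ((∑ p ∈ range m, e p ω * a p ω : ℝ) : ℂ)) :=
      Complex.measurable_exp.comp ((Complex.measurable_ofReal.comp hS).const_mul Complex.I)
    have hn : ∀ᵐ ω ∂P, ‖Complex.exp (Complex.I * ((∑ p ∈ range m, e p ω * a p ω : ℝ) : ℂ))‖ ≤
        1 := by
      refine Filter.Eventually.of_forall fun ω => ?_
      rw [mul_comm Complex.I, Complex.norm_exp_ofReal_mul_I]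
    have h1 := mart_step h m hG hn (ha m)
    have h2 : ∀ ω, Complex.exp (Complex.I * ((∑ p ∈ range (m + 1), e p ω * a p ω : ℝ) : ℂ)) =
        Complex.exp (Complex.I * ((∑ p ∈ range m, e p ω * a p ω : ℝ) : ℂ)) *
          Complex.exp (Complex.I * ((e m ω * a m ω : ℝ) : ℂ)) := by
      intro ω
      rw [Finset.sum_range_succ, ← Complex.exp_add]
      congr 1
      push_cast
      ring
    simp only [h2]
    rw [h1]
    have h3 : (fun ω => Complex.exp (Complex.I * ((∑ p ∈ range m, e p ω * a p ω : ℝ) : ℂ)) *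
        ((Real.cos (a m ω) : ℝ) : ℂ)) =ᵐ[P] fun ω =>
        Complex.exp (Complex.I * ((∑ p ∈ range m, e p ω * a p ω : ℝ) : ℂ)) * ((c m : ℝ) : ℂ) := by
      filter_upwards [hc m (Nat.lt_succ_self m)] with ω hω
      rw [hω]
    rw [integral_congr_ae h3, integral_mul_const, ih', Finset.prod_range_succ]
    push_cast
    ring

end Pool.Agent.H41.RG

end

section

/-!
# RG Struct: decomposition by the largest prime factor

`W` is a finite set of squarefree numbers `≥ 2`.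
`lp_facts`: for squarefree `n ≥ 2`, `lp n` is a prime dividing `n`, `lp n ≤ n`, `n / lp n` is
squarefree, its prime factors are those of `n` without `lp n` and are all `< lp n`.
`rmf_lp`: `f(n) = e_{lp n} f(n / lp n)` (for every `ω`).
`measurable_Sp`: `Sp e W p` is `Past e p`-measurable (finite sum of products of `e q`, `q < p`).
`sum_rmf`: `∑_{n∈W} f(n) = ∑_{p<m} e_p Sp e W p` as soon as all elements of `W` are `< m`
(`lp n ≤ n < m`; `Finset.sum_fiberwise`-like).
`Sp_mul`: a.e. (`e_p² = 1`), for all `p`: `Sp e W p * Sp e W' p = ∑ f(n) f(n')` over the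
`(n, n') ∈ W × W'` with `lp n = p = lp n'`.
`Sp_bdd`: a.e. `|Sp e W p| ≤ #W`.
-/

set_option autoImplicit false

namespace Pool.Agent.H41.RG

open Finset MeasureTheory ProbabilityTheory
open Pool.Agent.H18.RM (IsSigns rmf)

variable {Ω : Type*} [mΩ : MeasurableSpace Ω] {P : Measure Ω} [IsProbabilityMeasure P]
  {e : ℕ → Ω → ℝ}

theorem lp_facts {n : ℕ} (hn : Squarefree n) (h2 : 2 ≤ n) :
    (lp n).Prime ∧ lp n ∣ n ∧ lp n ≤ n ∧ Squarefree (n / lp n) ∧
      (∀ q ∈ (n / lp n).primeFactors, q < lp n) ∧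
      n.primeFactors = insert (lp n) (n / lp n).primeFactors ∧
      lp n ∉ (n / lp n).primeFactors := by
  have hne : n.primeFactors.Nonempty := Nat.nonempty_primeFactors.mpr h2
  have hmem : lp n ∈ n.primeFactors := by
    obtain ⟨i, hi, he⟩ := Finset.exists_mem_eq_sup n.primeFactors hne id
    unfold lp
    rw [he]
    exact hi
  have hp : (lp n).Prime := Nat.prime_of_mem_primeFactors hmem
  have hd : lp n ∣ n := Nat.dvd_of_mem_primeFactors hmem
  have hn0 : n ≠ 0 := by omega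
  have hmul : lp n * (n / lp n) = n := Nat.mul_div_cancel' hd
  have hsq : Squarefree (lp n * (n / lp n)) := by rw [hmul]; exact hn
  have hcop : Nat.Coprime (lp n) (n / lp n) := Nat.coprime_of_squarefree_mul hsq
  have hq0 : n / lp n ≠ 0 := by
    intro h0
    rw [h0, mul_zero] at hmul
    exact hn0 hmul.symm
  have hnot : lp n ∉ (n / lp n).primeFactors := by
    intro h
    have h1 := Nat.dvd_of_mem_primeFactors h
    have h3 := Nat.Coprime.eq_one_of_dvd hcop h1
    exact hp.one_lt.ne' h3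
  have hpf : n.primeFactors = insert (lp n) (n / lp n).primeFactors := by
    have h1 : (lp n * (n / lp n)).primeFactors = (lp n).primeFactors ∪ (n / lp n).primeFactors :=
      Nat.primeFactors_mul hp.ne_zero hq0
    rw [hmul, hp.primeFactors] at h1
    rw [h1]
    ext q
    simp
  refine ⟨hp, hd, Nat.le_of_dvd (by omega) hd, hsq.of_mul_right, ?_, hpf, hnot⟩
  intro q hq
  have hq1 : q ∈ n.primeFactors := by
    rw [hpf]
    exact Finset.mem_insert_of_mem hq
  have hle : q ≤ lp n := Finset.le_sup (f := id) hq1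
  refine lt_of_le_of_ne hle ?_
  intro h
  rw [h] at hq
  exact hnot hq

theorem rmf_lp (e : ℕ → Ω → ℝ) (ω : Ω) {n : ℕ} (hn : Squarefree n) (h2 : 2 ≤ n) :
    rmf e ω n = e (lp n) ω * rmf e ω (n / lp n) := by
  obtain ⟨_, _, _, hs, _, hpf, hnot⟩ := lp_facts hn h2
  unfold rmf
  rw [if_pos hn, if_pos hs, hpf, Finset.prod_insert hnot]

theorem measurable_Sp (e : ℕ → Ω → ℝ) {W : Finset ℕ} (hW : ∀ n ∈ W, Squarefree n ∧ 2 ≤ n)
    (p : ℕ) : Measurable[Past e p] (Sp e W p) := by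
  unfold Sp
  refine Finset.measurable_sum _ fun n hn => ?_
  rw [Finset.mem_filter] at hn
  obtain ⟨hnW, hnp⟩ := hn
  obtain ⟨_, _, _, hs, hlt, _, _⟩ := lp_facts (hW n hnW).1 (hW n hnW).2
  rw [hnp] at hs hlt
  have he : (fun ω => rmf e ω (n / p)) = fun ω => ∏ q ∈ (n / p).primeFactors, e q ω := by
    funext ω
    unfold rmf
    rw [if_pos hs]
  rw [he]
  exact Finset.measurable_prod _ fun q hq => measurable_past (hlt q hq)

theorem sum_rmf (e : ℕ → Ω → ℝ) {W : Finset ℕ} (hW : ∀ n ∈ W, Squarefree n ∧ 2 ≤ n) {m : ℕ}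
    (hm : ∀ n ∈ W, n < m) (ω : Ω) :
    ∑ n ∈ W, rmf e ω n = ∑ p ∈ range m, e p ω * Sp e W p ω := by
  rw [← Finset.sum_fiberwise_of_maps_to (s := W) (t := range m) (g := lp)
    (fun n hn => Finset.mem_range.mpr
      (lt_of_le_of_lt (lp_facts (hW n hn).1 (hW n hn).2).2.2.1 (hm n hn)))]
  refine Finset.sum_congr rfl fun p _ => ?_
  unfold Sp
  rw [Finset.mul_sum]
  refine Finset.sum_congr rfl fun n hn => ?_
  rw [Finset.mem_filter] at hn
  have h1 := rmf_lp e ω (hW n hn.1).1 (hW n hn.1).2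
  rw [hn.2] at h1
  exact h1

theorem Sp_mul (h : IsSigns P e) {W W' : Finset ℕ} (hW : ∀ n ∈ W, Squarefree n ∧ 2 ≤ n)
    (hW' : ∀ n ∈ W', Squarefree n ∧ 2 ≤ n) :
    ∀ᵐ ω ∂P, ∀ p, Sp e W p ω * Sp e W' p ω =
      ∑ t ∈ (W ×ˢ W').filter (fun t => lp t.1 = p ∧ lp t.2 = p), rmf e ω t.1 * rmf e ω t.2 := by
  filter_upwards [h.ae_signs] with ω hω p
  unfold Sp
  rw [Finset.sum_mul_sum, ← Finset.sum_product']
  have hset : (W.filter (fun n => lp n = p)) ×ˢ (W'.filter (fun n => lp n = p)) =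
      (W ×ˢ W').filter (fun t => lp t.1 = p ∧ lp t.2 = p) := by
    ext t
    simp only [Finset.mem_product, Finset.mem_filter]
    tauto
  rw [hset]
  refine Finset.sum_congr rfl fun t ht => ?_
  rw [Finset.mem_filter, Finset.mem_product] at ht
  obtain ⟨⟨h1, h2⟩, h3, h4⟩ := ht
  have e1 := rmf_lp e ω (hW _ h1).1 (hW _ h1).2
  have e2 := rmf_lp e ω (hW' _ h2).1 (hW' _ h2).2
  rw [h3] at e1
  rw [h4] at e2
  rw [e1, e2]
  have hsq : e p ω * e p ω = 1 := by
    rcases hω p with hp | hp <;> rw [hp] <;> norm_num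
  linear_combination (-(rmf e ω (t.1 / p) * rmf e ω (t.2 / p))) * hsq

theorem Sp_bdd (h : IsSigns P e) (W : Finset ℕ) :
    ∀ᵐ ω ∂P, ∀ p, |Sp e W p ω| ≤ W.card := by
  filter_upwards [Pool.Agent.H18.RM.rmf_sq h] with ω hω p
  unfold Sp
  calc |∑ n ∈ W.filter (fun n => lp n = p), rmf e ω (n / p)|
      ≤ ∑ n ∈ W.filter (fun n => lp n = p), |rmf e ω (n / p)| := Finset.abs_sum_le_sum_abs _ _
    _ ≤ ∑ _n ∈ W.filter (fun n => lp n = p), (1 : ℝ) :=
        Finset.sum_le_sum fun n _ => (hω (n / p)).1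
    _ = ((W.filter (fun n => lp n = p)).card : ℝ) := by simp
    _ ≤ (W.card : ℝ) := by
        exact_mod_cast Finset.card_filter_le _ _

end Pool.Agent.H41.RG

end

section

/-!
# Windows sums of bounded multiplicative functions (definitions)

`MC g x H` is the sum of `g n` over the integers `n` with `|n - x| < H / 2`, `IC g U V H` the
integral of its squared modulus over `[U, V]`, `KC U V H n m` the length of the set of the `x` in
`[U, V]` whose window contains both `n` and `m`.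
-/

set_option autoImplicit false

namespace Pool.Agent.H18.RM

open Finset MeasureTheory

/-- the sum of `g n` over the integers `n ≥ 0` with `|n - x| < H / 2` (the index set is written
as in the frozen statement S15903) -/
noncomputable def MC (g : ℕ → ℂ) (x H : ℝ) : ℂ :=
  ∑ n ∈ (range (⌈x + H⌉₊ + 1)).filter (fun n : ℕ => |(n : ℝ) - x| < H / 2), g n

/-- the integral of `|MC g x H|^2` over `x` in `[U, V]` -/
noncomputable def IC (g : ℕ → ℂ) (U V H : ℝ) : ℝ := ∫ x in U..V, ‖MC g x H‖ ^ 2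

/-- the length of the set of `x` in `[U, V]` with `|n - x| < H / 2` and `|m - x| < H / 2` -/
noncomputable def KC (U V H : ℝ) (n m : ℕ) : ℝ :=
  max 0 (min V (min (n : ℝ) m + H / 2) - max U (max (n : ℝ) m - H / 2))

/-- the diagonal sum over squarefree numbers -/
noncomputable def Dg (P : ℕ → Prop) [DecidablePred P] (U V H : ℝ) (N : ℕ) : ℝ :=
  ∑ n ∈ (range N).filter (fun n => Squarefree n ∧ P n), KC U V H n n

end Pool.Agent.H18.RM

end

section

/-!
# Elementary facts about `MC` and `KC`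
-/

set_option autoImplicit false

namespace Pool.Agent.H18.RM

open Finset MeasureTheory

theorem MC_eq_sum (g : ℕ → ℂ) {x H : ℝ} {N : ℕ} (hH : 0 < H) (hN : x + H ≤ N) :
    MC g x H = ∑ n ∈ range N, (if |(n : ℝ) - x| < H / 2 then g n else 0) := by
  unfold MC
  rw [← Finset.sum_filter]
  apply Finset.sum_congr _ (fun _ _ => rfl)
  ext n
  simp only [Finset.mem_filter, Finset.mem_range]
  constructor
  · rintro ⟨-, h⟩
    refine ⟨?_, h⟩
    rw [abs_lt] at h
    have h1 : (n : ℝ) < N := by linarith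
    exact_mod_cast h1
  · rintro ⟨-, h⟩
    refine ⟨?_, h⟩
    rw [abs_lt] at h
    have h1 : (n : ℝ) < x + H := by linarith
    have h2 : (n : ℝ) < ⌈x + H⌉₊ := lt_of_lt_of_le h1 (Nat.le_ceil _)
    have h3 : n < ⌈x + H⌉₊ := by exact_mod_cast h2
    omega

theorem measurable_MC (g : ℕ → ℂ) {H : ℝ} (hH : 0 < H) : Measurable (fun x => MC g x H) := by
  refine measurable_of_tendsto_metrizable
    (f := fun (N : ℕ) (x : ℝ) => ∑ n ∈ range N, (if |(n : ℝ) - x| < H / 2 then g n else 0)) ?_ ?_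
  · intro N
    refine Finset.measurable_sum _ (fun n _ => ?_)
    refine Measurable.ite ?_ measurable_const measurable_const
    exact measurableSet_lt (by fun_prop) measurable_const
  · rw [tendsto_pi_nhds]
    intro x
    refine tendsto_const_nhds.congr' ?_
    filter_upwards [Filter.eventually_ge_atTop ⌈x + H⌉₊] with N hN
    exact MC_eq_sum g hH (le_trans (Nat.le_ceil _) (by exact_mod_cast hN))

/-- an open interval of length `H` contains at most `H + 1` integers -/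
theorem norm_MC_le {g : ℕ → ℂ} (hg : ∀ n, ‖g n‖ ≤ 1) {H : ℝ} (hH : 0 < H) (x : ℝ) :
    ‖MC g x H‖ ≤ H + 1 := by
  have h1 : ‖MC g x H‖ ≤
      (((range (⌈x + H⌉₊ + 1)).filter (fun n : ℕ => |(n : ℝ) - x| < H / 2)).card : ℝ) := by
    unfold MC
    refine le_trans (norm_sum_le _ _) ?_
    refine le_trans (Finset.sum_le_sum (fun n _ => hg n)) ?_
    simp
  refine le_trans h1 ?_
  have h2 : ((range (⌈x + H⌉₊ + 1)).filter (fun n : ℕ => |(n : ℝ) - x| < H / 2)).card ≤
      (Finset.Ioo ⌊x - H / 2⌋ ⌈x + H / 2⌉).card := by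
    apply Finset.card_le_card_of_injOn (fun n : ℕ => (n : ℤ))
    · intro n hn
      rw [Finset.mem_coe, Finset.mem_filter, abs_lt] at hn
      rw [Finset.mem_coe, Finset.mem_Ioo]
      constructor
      · rw [Int.floor_lt]
        push_cast
        linarith [hn.2.1]
      · rw [Int.lt_ceil]
        push_cast
        linarith [hn.2.2]
    · intro a _ b _ h
      simpa using h
  rw [Int.card_Ioo] at h2
  have h3 : (((⌈x + H / 2⌉ - ⌊x - H / 2⌋ - 1).toNat : ℕ) : ℝ) ≤ H + 1 := by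
    rcases le_total (⌈x + H / 2⌉ - ⌊x - H / 2⌋ - 1) 0 with h4 | h4
    · rw [Int.toNat_of_nonpos h4]
      push_cast
      linarith
    · have h5 : (((⌈x + H / 2⌉ - ⌊x - H / 2⌋ - 1).toNat : ℕ) : ℝ)
          = ((⌈x + H / 2⌉ - ⌊x - H / 2⌋ - 1 : ℤ) : ℝ) := by
        have := Int.toNat_of_nonneg h4
        exact_mod_cast congrArg (fun z : ℤ => (z : ℝ)) this
      rw [h5]
      push_cast
      have h6 := Int.ceil_lt_add_one (x + H / 2)
      have h7 := Int.lt_floor_add_one (x - H / 2)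
      linarith
  have h8 : ((((range (⌈x + H⌉₊ + 1)).filter (fun n : ℕ => |(n : ℝ) - x| < H / 2)).card : ℕ) : ℝ)
      ≤ (((⌈x + H / 2⌉ - ⌊x - H / 2⌋ - 1).toNat : ℕ) : ℝ) := by exact_mod_cast h2
  linarith

theorem intervalIntegrable_MC {g : ℕ → ℂ} (hg : ∀ n, ‖g n‖ ≤ 1) {H : ℝ} (hH : 0 < H) (c U V : ℝ) :
    IntervalIntegrable (fun x => ‖MC g (x + c) H‖ ^ 2) volume U V := by
  rw [intervalIntegrable_iff]
  refine MeasureTheory.Measure.integrableOn_of_bounded (M := (H + 1) ^ 2) ?_ ?_ ?_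
  · rw [Real.volume_uIoc]
    exact ENNReal.ofReal_ne_top
  · have h1 : Measurable (fun x => ‖MC g (x + c) H‖ ^ 2) := by
      have h2 := (measurable_MC g hH).comp (measurable_id.add_const c)
      exact (h2.norm).pow_const 2
    exact h1.aestronglyMeasurable
  · refine Filter.Eventually.of_forall (fun x => ?_)
    rw [Real.norm_of_nonneg (by positivity)]
    exact pow_le_pow_left₀ (norm_nonneg _) (norm_MC_le hg hH _) 2

theorem KC_nonneg (U V H : ℝ) (n m : ℕ) : 0 ≤ KC U V H n m := le_max_left _ _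

theorem KC_comm (U V H : ℝ) (n m : ℕ) : KC U V H n m = KC U V H m n := by
  unfold KC
  rw [min_comm (n : ℝ) m, max_comm (n : ℝ) m]

theorem KC_le {U V H : ℝ} (hH : 0 ≤ H) (n m : ℕ) : KC U V H n m ≤ H := by
  unfold KC
  apply max_le hH
  have h1 : min V (min (n : ℝ) m + H / 2) ≤ min (n : ℝ) m + H / 2 := min_le_right _ _
  have h2 : max (n : ℝ) m - H / 2 ≤ max U (max (n : ℝ) m - H / 2) := le_max_right _ _
  have h3 : min (n : ℝ) m ≤ max (n : ℝ) m := min_le_max
  linarith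

theorem KC_eq_zero_of_far {U V H : ℝ} {n m : ℕ} (h : H ≤ |(n : ℝ) - m|) :
    KC U V H n m = 0 := by
  unfold KC
  apply max_eq_left
  have h1 : min V (min (n : ℝ) m + H / 2) ≤ min (n : ℝ) m + H / 2 := min_le_right _ _
  have h2 : max (n : ℝ) m - H / 2 ≤ max U (max (n : ℝ) m - H / 2) := le_max_right _ _
  have h3 : max (n : ℝ) m - min (n : ℝ) m = |(n : ℝ) - m| := max_sub_min_eq_abs' _ _
  linarith

theorem KC_eq_zero_of_le {U V H : ℝ} {n m : ℕ} (h : (n : ℝ) ≤ U - H / 2) :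
    KC U V H n m = 0 := by
  unfold KC
  apply max_eq_left
  have h1 : min V (min (n : ℝ) m + H / 2) ≤ min (n : ℝ) m + H / 2 := min_le_right _ _
  have h2 : U ≤ max U (max (n : ℝ) m - H / 2) := le_max_left _ _
  have h3 : min (n : ℝ) m ≤ n := min_le_left _ _
  linarith

theorem KC_eq_zero_of_ge {U V H : ℝ} {n m : ℕ} (h : V + H / 2 ≤ (n : ℝ)) :
    KC U V H n m = 0 := by
  unfold KC
  apply max_eq_left
  have h1 : min V (min (n : ℝ) m + H / 2) ≤ V := min_le_left _ _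
  have h2 : max (n : ℝ) m - H / 2 ≤ max U (max (n : ℝ) m - H / 2) := le_max_right _ _
  have h3 : (n : ℝ) ≤ max (n : ℝ) m := le_max_left _ _
  linarith

theorem KC_diag {U V H : ℝ} {n : ℕ} (hH : 0 ≤ H) (h1 : U + H / 2 ≤ (n : ℝ))
    (h2 : (n : ℝ) ≤ V - H / 2) : KC U V H n n = H := by
  unfold KC
  have e1 : min V ((n : ℝ) + H / 2) = n + H / 2 := min_eq_right (by linarith)
  have e2 : max U ((n : ℝ) - H / 2) = n - H / 2 := max_eq_right (by linarith)
  rw [min_self, max_self, e1, e2]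
  have e3 : (n : ℝ) + H / 2 - (n - H / 2) = H := by ring
  rw [e3]
  exact max_eq_right hH

end Pool.Agent.H18.RM

end

section

/-!
# Minkowski's inequality and splitting of windows
-/

set_option autoImplicit false

namespace Pool.Agent.H18.RM

open Finset MeasureTheory

private theorem mink_opt {I a b : ℝ} (ha : 0 ≤ a) (hb : 0 ≤ b)
    (h : ∀ t : ℝ, 0 < t → I ≤ (1 + t) * a + (1 + 1 / t) * b) :
    Real.sqrt I ≤ Real.sqrt a + Real.sqrt b := by
  set u := Real.sqrt a with hu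
  set v := Real.sqrt b with hv
  have hu0 : 0 ≤ u := Real.sqrt_nonneg _
  have hv0 : 0 ≤ v := Real.sqrt_nonneg _
  have hua : u ^ 2 = a := Real.sq_sqrt ha
  have hvb : v ^ 2 = b := Real.sq_sqrt hb
  apply Real.sqrt_le_iff.2
  refine ⟨by positivity, ?_⟩
  apply le_of_forall_pos_le_add
  intro ε hε
  set δ : ℝ := ε / (u + v + 1) with hδ
  have hδ0 : 0 < δ := by positivity
  have hδε : δ * (u + v) ≤ ε := by
    rw [hδ, div_mul_eq_mul_div, div_le_iff₀ (by positivity)]
    nlinarith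
  have h1 := h ((v + δ) / (u + δ)) (by positivity)
  have h2 : (v + δ) / (u + δ) * a ≤ (v + δ) * u := by
    rw [div_mul_eq_mul_div, div_le_iff₀ (by positivity), ← hua]
    have : 0 ≤ (v + δ) * u * δ := by positivity
    nlinarith
  have h3 : 1 / ((v + δ) / (u + δ)) * b ≤ (u + δ) * v := by
    rw [one_div_div, div_mul_eq_mul_div, div_le_iff₀ (by positivity), ← hvb]
    have : 0 ≤ (u + δ) * v * δ := by positivity
    nlinarith
  calc I ≤ a + (v + δ) / (u + δ) * a + (b + 1 / ((v + δ) / (u + δ)) * b) := by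
        linarith
    _ ≤ a + (v + δ) * u + (b + (u + δ) * v) := by linarith
    _ = (u + v) ^ 2 + δ * (u + v) := by
        rw [← hua, ← hvb]
        ring
    _ ≤ (u + v) ^ 2 + ε := by linarith

/-- Minkowski in `L²[U,V]` -/
theorem mink {F G : ℝ → ℂ} {U V : ℝ} (hUV : U ≤ V) (hFm : Measurable F) (hGm : Measurable G)
    (hF : IntervalIntegrable (fun x => ‖F x‖ ^ 2) volume U V)
    (hG : IntervalIntegrable (fun x => ‖G x‖ ^ 2) volume U V) :
    IntervalIntegrable (fun x => ‖F x + G x‖ ^ 2) volume U V ∧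
    Real.sqrt (∫ x in U..V, ‖F x + G x‖ ^ 2) ≤
      Real.sqrt (∫ x in U..V, ‖F x‖ ^ 2) + Real.sqrt (∫ x in U..V, ‖G x‖ ^ 2) := by
  have hpt : ∀ t : ℝ, 0 < t → ∀ x, ‖F x + G x‖ ^ 2 ≤
      (1 + t) * ‖F x‖ ^ 2 + (1 + 1 / t) * ‖G x‖ ^ 2 := by
    intro t ht x
    have h1 : ‖F x + G x‖ ≤ ‖F x‖ + ‖G x‖ := norm_add_le _ _
    have h2 : ‖F x + G x‖ ^ 2 ≤ (‖F x‖ + ‖G x‖) ^ 2 := by gcongr
    have h3 : 0 ≤ (t * ‖F x‖ - ‖G x‖) ^ 2 / t := by positivity
    have h4 : (t * ‖F x‖ - ‖G x‖) ^ 2 / t =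
        t * ‖F x‖ ^ 2 - 2 * (‖F x‖ * ‖G x‖) + 1 / t * ‖G x‖ ^ 2 := by
      field_simp
      ring
    nlinarith
  have hint : IntervalIntegrable (fun x => ‖F x + G x‖ ^ 2) volume U V := by
    have hdom : IntervalIntegrable
        (fun x => (1 + 1) * ‖F x‖ ^ 2 + (1 + 1 / 1) * ‖G x‖ ^ 2) volume U V :=
      (hF.const_mul _).add (hG.const_mul _)
    refine hdom.mono_fun ((hFm.add hGm).norm.pow_const 2).aestronglyMeasurable ?_
    refine Filter.Eventually.of_forall fun x => ?_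
    show ‖‖F x + G x‖ ^ 2‖ ≤ ‖(1 + 1) * ‖F x‖ ^ 2 + (1 + 1 / 1) * ‖G x‖ ^ 2‖
    rw [Real.norm_of_nonneg (by positivity), Real.norm_of_nonneg (by positivity)]
    exact hpt 1 one_pos x
  refine ⟨hint, mink_opt ?_ ?_ fun t ht => ?_⟩
  · exact intervalIntegral.integral_nonneg hUV fun x _ => by positivity
  · exact intervalIntegral.integral_nonneg hUV fun x _ => by positivity
  · rw [← intervalIntegral.integral_const_mul, ← intervalIntegral.integral_const_mul,
      ← intervalIntegral.integral_add (hF.const_mul _) (hG.const_mul _)]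
    exact intervalIntegral.integral_mono_on hUV hint ((hF.const_mul _).add (hG.const_mul _))
      fun x _ => hpt t ht x

theorem MC_zero (g : ℕ → ℂ) (x : ℝ) : MC g x 0 = 0 := by
  unfold MC
  rw [Finset.filter_eq_empty_iff.2, Finset.sum_empty]
  intro n _
  rw [zero_div]
  exact not_lt.2 (abs_nonneg _)

private theorem mink_MC_eq (g : ℕ → ℂ) {x H : ℝ} {N : ℕ} (hH : 0 ≤ H) (hN : x + H ≤ N) :
    MC g x H = ∑ n ∈ range N, (if |(n : ℝ) - x| < H / 2 then g n else 0) := by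
  rcases hH.eq_or_lt with h | h
  · rw [← h, MC_zero]
    symm
    apply Finset.sum_eq_zero
    intro n _
    rw [if_neg]
    rw [zero_div]
    exact not_lt.2 (abs_nonneg _)
  · exact MC_eq_sum g h hN

/-- a window of length `a + b` is the union of two windows of lengths `a` and `b` and the point
`x + (a - b)/2` (which is an integer for countably many `x` only) -/
theorem MC_split (g : ℕ → ℂ) {a b : ℝ} (ha : 0 ≤ a) (hb : 0 ≤ b) :
    ∀ᵐ x : ℝ, MC g x (a + b) = MC g (x - b / 2) a + MC g (x + a / 2) b := by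
  have hc : (Set.range (fun n : ℕ => (n : ℝ) - (a - b) / 2)).Countable := Set.countable_range _
  filter_upwards [hc.ae_notMem volume] with x hx
  have hx' : ∀ n : ℕ, (n : ℝ) ≠ x + (a - b) / 2 := by
    intro n hn
    apply hx
    refine ⟨n, ?_⟩
    show (n : ℝ) - (a - b) / 2 = x
    rw [hn]
    ring
  have hN : x + (a + b) ≤ (⌈x + (a + b)⌉₊ : ℕ) := Nat.le_ceil _
  rw [mink_MC_eq g (add_nonneg ha hb) hN, mink_MC_eq g (N := ⌈x + (a + b)⌉₊) ha (by linarith),
    mink_MC_eq g (N := ⌈x + (a + b)⌉₊) hb (by linarith), ← Finset.sum_add_distrib]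
  refine Finset.sum_congr rfl fun n _ => ?_
  have hn := hx' n
  by_cases h1 : |(n : ℝ) - (x - b / 2)| < a / 2
  · have h1' := abs_lt.1 h1
    have h2 : ¬ |(n : ℝ) - (x + a / 2)| < b / 2 := by
      intro h
      have := abs_lt.1 h
      linarith [this.1, this.2, h1'.1, h1'.2]
    have h3 : |(n : ℝ) - x| < (a + b) / 2 := by
      rw [abs_lt]
      constructor <;> linarith [h1'.1, h1'.2]
    rw [if_pos h1, if_neg h2, if_pos h3, add_zero]
  · by_cases h2 : |(n : ℝ) - (x + a / 2)| < b / 2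
    · have h2' := abs_lt.1 h2
      have h3 : |(n : ℝ) - x| < (a + b) / 2 := by
        rw [abs_lt]
        constructor <;> linarith [h2'.1, h2'.2]
      rw [if_neg h1, if_pos h2, if_pos h3, zero_add]
    · have h3 : ¬ |(n : ℝ) - x| < (a + b) / 2 := by
        intro h
        have h4 := abs_lt.1 h
        rcases lt_or_gt_of_ne hn with h5 | h5
        · apply h1
          rw [abs_lt]
          constructor <;> linarith [h4.1, h4.2]
        · apply h2
          rw [abs_lt]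
          constructor <;> linarith [h4.1, h4.2]
      rw [if_neg h1, if_neg h2, if_neg h3, add_zero]

private theorem mink_count (S : Finset ℕ) {A B : ℝ} (hAB : A ≤ B)
    (h : ∀ n ∈ S, A < (n : ℝ) ∧ (n : ℝ) < B) : (S.card : ℝ) ≤ B - A + 1 := by
  rcases S.eq_empty_or_nonempty with h0 | h0
  · rw [h0, card_empty, Nat.cast_zero]
    linarith
  · have h1 : S ⊆ Icc (S.min' h0) (S.max' h0) := by
      intro n hn
      rw [mem_Icc]
      exact ⟨S.min'_le n hn, S.le_max' n hn⟩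
    have h2 := Finset.card_le_card h1
    rw [Nat.card_Icc] at h2
    have h3 : S.min' h0 ≤ S.max' h0 := S.min'_le _ (S.max'_mem h0)
    have h4 : (S.card : ℝ) ≤ (S.max' h0 : ℝ) + 1 - (S.min' h0 : ℝ) := by
      have h5 : S.card + S.min' h0 ≤ S.max' h0 + 1 := by omega
      have h6 : (S.card : ℝ) + (S.min' h0 : ℝ) ≤ (S.max' h0 : ℝ) + 1 := by exact_mod_cast h5
      linarith
    have h7 := (h _ (S.max'_mem h0)).2
    have h8 := (h _ (S.min'_mem h0)).1
    linarith

/-- windows of length `η < 1` contain at most one integer -/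
theorem int_short {g : ℕ → ℂ} (hg : ∀ n, ‖g n‖ ≤ 1) {U V c η : ℝ} (hUV : U ≤ V) (h0 : 0 < η)
    (h1 : η < 1) : ∫ x in U..V, ‖MC g (x + c) η‖ ^ 2 ≤ η * (V - U + 2) := by
  set N : ℕ := ⌈V + c + η⌉₊ with hN
  have hNle : V + c + η ≤ N := Nat.le_ceil _
  set S : ℕ → Set ℝ := fun n => Set.Ioo ((n : ℝ) - c - η / 2) ((n : ℝ) - c + η / 2) with hS
  have hpt : ∀ x ∈ Set.Icc U V, ‖MC g (x + c) η‖ ^ 2 ≤
      ∑ n ∈ range N, (S n).indicator (1 : ℝ → ℝ) x := by
    intro x hx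
    rw [MC_eq_sum g (N := N) h0 (by linarith [hx.2])]
    have hmem : ∀ n : ℕ, |(n : ℝ) - (x + c)| < η / 2 ↔ x ∈ S n := by
      intro n
      rw [hS, abs_lt]
      simp only [Set.mem_Ioo]
      constructor
      · rintro ⟨h2, h3⟩
        constructor <;> linarith
      · rintro ⟨h2, h3⟩
        constructor <;> linarith
    have hnn : ∀ n ∈ range N, 0 ≤ (S n).indicator (1 : ℝ → ℝ) x := fun n _ =>
      Set.indicator_nonneg (fun _ _ => zero_le_one) x
    by_cases hex : ∃ n ∈ range N, x ∈ S n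
    · obtain ⟨n, hn, hxn⟩ := hex
      have huniq : ∀ k ∈ range N, k ≠ n →
          (if |(k : ℝ) - (x + c)| < η / 2 then g k else 0) = 0 := by
        intro k _ hkn
        rw [if_neg]
        rw [hmem]
        intro hxk
        rw [hS] at hxk hxn
        simp only [Set.mem_Ioo] at hxk hxn
        apply hkn
        have h3 : (k : ℝ) < n + 1 := by linarith [hxk.1, hxk.2, hxn.1, hxn.2]
        have h4 : (n : ℝ) < k + 1 := by linarith [hxk.1, hxk.2, hxn.1, hxn.2]
        have h3' : k < n + 1 := by exact_mod_cast h3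
        have h4' : n < k + 1 := by exact_mod_cast h4
        omega
      rw [Finset.sum_eq_single_of_mem n hn huniq, if_pos ((hmem n).2 hxn)]
      calc ‖g n‖ ^ 2 ≤ 1 ^ 2 := by gcongr; exact hg n
        _ = (S n).indicator (1 : ℝ → ℝ) x := by
            rw [Set.indicator_of_mem hxn, Pi.one_apply, one_pow]
        _ ≤ ∑ n ∈ range N, (S n).indicator (1 : ℝ → ℝ) x :=
            Finset.single_le_sum hnn hn
    · push Not at hex
      rw [Finset.sum_eq_zero]
      · rw [norm_zero]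
        calc (0 : ℝ) ^ 2 = 0 := by norm_num
          _ ≤ _ := Finset.sum_nonneg hnn
      · intro n hn
        rw [if_neg]
        rw [hmem]
        exact hex n hn
  have hintS : ∀ n, IntervalIntegrable ((S n).indicator (1 : ℝ → ℝ)) volume U V := by
    intro n
    rw [intervalIntegrable_iff]
    apply IntegrableOn.indicator _ measurableSet_Ioo
    exact integrableOn_const (by simp) (by simp)
  have hS1 : ∀ n, ∫ x in U..V, (S n).indicator (1 : ℝ → ℝ) x ≤ η := by
    intro n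
    rw [intervalIntegral.integral_of_le hUV, integral_indicator_one measurableSet_Ioo]
    have h2 : (volume.restrict (Set.Ioc U V)) (S n) ≤ volume (S n) := Measure.restrict_apply_le _ _
    have h3 : volume (S n) = ENNReal.ofReal η := by
      rw [hS, Real.volume_Ioo]
      congr 1
      ring
    rw [h3] at h2
    calc (volume.restrict (Set.Ioc U V)).real (S n)
        ≤ (ENNReal.ofReal η).toReal := ENNReal.toReal_mono ENNReal.ofReal_ne_top h2
      _ = η := ENNReal.toReal_ofReal h0.le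
  have hS0 : ∀ n : ℕ, ¬ (U + c - η / 2 < (n : ℝ) ∧ (n : ℝ) < V + c + η / 2) →
      ∫ x in U..V, (S n).indicator (1 : ℝ → ℝ) x = 0 := by
    intro n hn
    rw [intervalIntegral.integral_of_le hUV]
    apply setIntegral_eq_zero_of_forall_eq_zero
    intro x hx
    rw [Set.indicator_of_notMem]
    intro hxn
    rw [hS] at hxn
    simp only [Set.mem_Ioo] at hxn
    apply hn
    constructor
    · linarith [hx.1, hxn.2]
    · linarith [hx.2, hxn.1]
  set T : Finset ℕ := (range N).filter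
    (fun n : ℕ => U + c - η / 2 < (n : ℝ) ∧ (n : ℝ) < V + c + η / 2) with hT
  have hTc : (T.card : ℝ) ≤ (V + c + η / 2) - (U + c - η / 2) + 1 := by
    apply mink_count T (by linarith)
    intro n hn
    rw [hT, mem_filter] at hn
    exact hn.2
  calc ∫ x in U..V, ‖MC g (x + c) η‖ ^ 2
      ≤ ∫ x in U..V, ∑ n ∈ range N, (S n).indicator (1 : ℝ → ℝ) x := by
        apply intervalIntegral.integral_mono_on hUV (intervalIntegrable_MC hg h0 c U V) _ hpt
        have := IntervalIntegrable.sum (range N) fun n _ => hintS n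
        refine this.congr ?_
        intro x _
        simp only [Finset.sum_apply]
    _ = ∑ n ∈ range N, ∫ x in U..V, (S n).indicator (1 : ℝ → ℝ) x :=
        intervalIntegral.integral_finsetSum fun n _ => hintS n
    _ = ∑ n ∈ T, ∫ x in U..V, (S n).indicator (1 : ℝ → ℝ) x := by
        rw [hT]
        symm
        apply Finset.sum_subset (filter_subset _ _)
        intro n hn hn2
        apply hS0
        intro h
        exact hn2 (mem_filter.2 ⟨hn, h⟩)
    _ ≤ ∑ n ∈ T, η := Finset.sum_le_sum fun n _ => hS1 n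
    _ = T.card * η := by rw [Finset.sum_const, nsmul_eq_mul]
    _ ≤ (V - U + 2) * η := by
        gcongr
        linarith
    _ = η * (V - U + 2) := mul_comm _ _

end Pool.Agent.H18.RM

end

section

/-!
# RG MartB: quantitative martingale central limit theorem

`a p` predictable and a.e. bounded, `V = ∑_{p<m} a_p²`, `Δ = E|V - v| + E ∑ a_p⁴`.
Claim `|E exp(i ∑ e_p a_p) - exp(-v/2)| ≤ 4 (1+v) exp(v+1) Δ`.

Proof.  `b_p = a_p` if `∑_{q ≤ p} a_q² ≤ v + 1` and `|a_p| ≤ 1`, otherwise `b_p = 0`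
(predictable: `∑_{q≤p} a_q²` is `Past e p`-measurable).  For every `ω`:
(i) `∑_{p<m} b_p² ≤ v + 1` (let `p` be the last index with `b_p ≠ 0`), `|b_p| ≤ 1`.
(ii) if `V ≤ v + 1` and all `|a_p| ≤ 1` (`p < m`) then `b_p = a_p` for all `p < m`; let `G` be this
event; `1_{Gᶜ} ≤ |V - v| + ∑ a_p⁴` pointwise, so `P(Gᶜ) ≤ Δ`.
Let `W_k = ∏_{p<k} exp(i e_p b_p) / cos b_p` (`cos b ≥ exp(-b²) > 0` for `|b| ≤ 1`): `W_k` is
`Past e k`-measurable, `|W_k| ≤ exp(∑ b_p²) ≤ exp(v+1)`, and `E W_m = 1` by induction with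
`mart_step` (`G = W_k / cos b_k`).  Now `exp(i ∑ e_p b_p) = W_m ∏ cos b_p`, so
`|E exp(i ∑ e_p b_p) - exp(-v/2)| = |E W_m (∏ cos b_p - exp(-v/2))| ≤
 exp(v+1) E |∏ cos b_p - exp(-v/2)|`, and pointwise
`|∏ cos b_p - exp(-∑ b_p²/2)| ≤ ∑ |cos b_p - exp(-b_p²/2)| ≤ ∑ b_p⁴`,
`|exp(-∑ b_p²/2) - exp(-v/2)| ≤ |∑ b_p² - v| / 2 ≤ (|V - v| + (v+1) 1_{Gᶜ})/2`,
`∑ b_p⁴ ≤ ∑ a_p⁴`.  Finally `|E exp(i ∑ e_p a_p) - E exp(i ∑ e_p b_p)| ≤ 2 P(Gᶜ) ≤ 2 Δ`.
Total `≤ Δ (2 + exp(v+1) (1 + (v+2)/2)) ≤ 4 (1+v) exp(v+1) Δ`.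
-/

set_option autoImplicit false

namespace Pool.Agent.H41.RG

open Finset MeasureTheory ProbabilityTheory
open Pool.Agent.H18.RM (IsSigns rmf)

variable {Ω : Type*} [mΩ : MeasurableSpace Ω] {P : Measure Ω} [IsProbabilityMeasure P]
  {e : ℕ → Ω → ℝ}

private theorem MartB_exp_neg {x : ℝ} (hx : 0 ≤ x) : Real.exp (-x) ≤ 1 - x + x ^ 2 / 2 := by
  have h1 := Real.quadratic_le_exp_of_nonneg hx
  have h2 : 0 < Real.exp x := Real.exp_pos x
  have h3 : Real.exp (-x) * Real.exp x = 1 := by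
    rw [← Real.exp_add, neg_add_cancel, Real.exp_zero]
  have h4 : 0 < 1 - x + x ^ 2 / 2 := by nlinarith [sq_nonneg (x - 1)]
  by_contra hc
  push Not at hc
  have h5 : (1 - x + x ^ 2 / 2) * (1 + x + x ^ 2 / 2) ≤ (1 - x + x ^ 2 / 2) * Real.exp x :=
    mul_le_mul_of_nonneg_left h1 h4.le
  have h6 : (1 - x + x ^ 2 / 2) * Real.exp x < Real.exp (-x) * Real.exp x :=
    mul_lt_mul_of_pos_right hc h2
  nlinarith [sq_nonneg (x ^ 2)]

private theorem MartB_sq_le {b : ℝ} (hb : |b| ≤ 1) : b ^ 2 ≤ 1 := by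
  rw [← sq_abs]
  exact pow_le_one₀ (abs_nonneg b) hb

private theorem MartB_cos_lower {b : ℝ} (hb : |b| ≤ 1) : Real.exp (-(b ^ 2)) ≤ Real.cos b := by
  have h1 := MartB_exp_neg (sq_nonneg b)
  have h2 := Real.one_sub_sq_div_two_le_cos (x := b)
  have h3 := MartB_sq_le hb
  nlinarith [sq_nonneg b]

private theorem MartB_cos_pos {b : ℝ} (hb : |b| ≤ 1) : 0 < Real.cos b :=
  (Real.exp_pos _).trans_le (MartB_cos_lower hb)

private theorem MartB_cos_exp {b : ℝ} (hb : |b| ≤ 1) :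
    |Real.cos b - Real.exp (-(b ^ 2 / 2))| ≤ b ^ 4 := by
  have h1 := MartB_exp_neg (x := b ^ 2 / 2) (by positivity)
  have h2 := Real.one_sub_sq_div_two_le_cos (x := b)
  have h3 := (abs_le.1 (Real.cos_bound hb)).2
  have h4 := Real.add_one_le_exp (-(b ^ 2 / 2))
  have h5 : |b| ^ 4 = b ^ 4 := by
    rw [show (4 : ℕ) = 2 * 2 by norm_num, pow_mul, sq_abs, ← pow_mul]
  rw [h5] at h3
  have h6 : 0 ≤ b ^ 4 := by positivity
  rw [abs_le]
  constructor
  · nlinarith
  · nlinarith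

private theorem MartB_prod_sub (x y : ℕ → ℝ) (m : ℕ) (hx : ∀ p, |x p| ≤ 1) (hy : ∀ p, |y p| ≤ 1) :
    |∏ p ∈ range m, x p - ∏ p ∈ range m, y p| ≤ ∑ p ∈ range m, |x p - y p| := by
  induction m with
  | zero => simp
  | succ m ih =>
    rw [prod_range_succ, prod_range_succ, sum_range_succ]
    have e : (∏ p ∈ range m, x p) * x m - (∏ p ∈ range m, y p) * y m =
        (∏ p ∈ range m, x p - ∏ p ∈ range m, y p) * x m + (∏ p ∈ range m, y p) * (x m - y m) := by
      ring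
    rw [e]
    have h1 : |∏ p ∈ range m, y p| ≤ 1 := by
      rw [Finset.abs_prod]
      exact Finset.prod_le_one (fun p _ => abs_nonneg _) fun p _ => hy p
    refine (abs_add_le _ _).trans (add_le_add ?_ ?_)
    · rw [abs_mul]
      exact (mul_le_of_le_one_right (abs_nonneg _) (hx m)).trans ih
    · rw [abs_mul]
      exact mul_le_of_le_one_left (abs_nonneg _) h1

private theorem MartB_exp_lip {x y : ℝ} (hx : 0 ≤ x) (hy : 0 ≤ y) :
    |Real.exp (-x) - Real.exp (-y)| ≤ |x - y| := by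
  wlog h : x ≤ y generalizing x y
  · rw [abs_sub_comm, abs_sub_comm x]
    exact this hy hx (le_of_not_ge h)
  have h1 : Real.exp (-y) ≤ Real.exp (-x) := Real.exp_le_exp.2 (by linarith)
  rw [abs_of_nonneg (by linarith), abs_sub_comm, abs_of_nonneg (by linarith)]
  have h2 : Real.exp (-y) = Real.exp (-x) * Real.exp (-(y - x)) := by
    rw [← Real.exp_add]
    congr 1
    ring
  have h3 := Real.add_one_le_exp (-(y - x))
  have h4 : Real.exp (-x) ≤ 1 := Real.exp_le_one_iff.2 (by linarith)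
  have h5 : 0 < Real.exp (-x) := Real.exp_pos _
  rw [h2]
  nlinarith

/-- partial sums of squares -/
private noncomputable def MartB_S (a : ℕ → Ω → ℝ) (k : ℕ) (ω : Ω) : ℝ :=
  ∑ q ∈ range k, a q ω ^ 2

/-- the truncated coefficients -/
private noncomputable def MartB_b (a : ℕ → Ω → ℝ) (v : ℝ) (p : ℕ) (ω : Ω) : ℝ :=
  if MartB_S a (p + 1) ω ≤ v + 1 ∧ |a p ω| ≤ 1 then a p ω else 0

private theorem MartB_b_abs (a : ℕ → Ω → ℝ) (v : ℝ) (p : ℕ) (ω : Ω) : |MartB_b a v p ω| ≤ 1 := by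
  unfold MartB_b
  split_ifs with h
  · exact h.2
  · rw [abs_zero]
    exact zero_le_one

private theorem MartB_b_sq (a : ℕ → Ω → ℝ) (v : ℝ) (p : ℕ) (ω : Ω) :
    MartB_b a v p ω ^ 2 ≤ a p ω ^ 2 := by
  unfold MartB_b
  split_ifs with h
  · exact le_rfl
  · rw [zero_pow two_ne_zero]
    exact sq_nonneg _

private theorem MartB_b_four (a : ℕ → Ω → ℝ) (v : ℝ) (p : ℕ) (ω : Ω) :
    MartB_b a v p ω ^ 4 ≤ a p ω ^ 4 := by
  unfold MartB_b
  split_ifs with h
  · exact le_rfl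
  · rw [zero_pow (by norm_num)]
    positivity

private theorem MartB_sum_sq (a : ℕ → Ω → ℝ) {v : ℝ} (hv : 0 ≤ v) (m : ℕ) (ω : Ω) :
    ∑ p ∈ range m, MartB_b a v p ω ^ 2 ≤ v + 1 := by
  induction m with
  | zero =>
    rw [range_zero, sum_empty]
    linarith
  | succ m ih =>
    by_cases h : MartB_S a (m + 1) ω ≤ v + 1 ∧ |a m ω| ≤ 1
    · exact (sum_le_sum fun p _ => MartB_b_sq a v p ω).trans h.1
    · rw [sum_range_succ]
      have e : MartB_b a v m ω = 0 := by
        unfold MartB_b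
        rw [if_neg h]
      rw [e, zero_pow two_ne_zero, add_zero]
      exact ih

private theorem MartB_S_mono (a : ℕ → Ω → ℝ) (ω : Ω) {k l : ℕ} (h : k ≤ l) :
    MartB_S a k ω ≤ MartB_S a l ω := by
  unfold MartB_S
  exact sum_le_sum_of_subset_of_nonneg (range_mono h) fun _ _ _ => sq_nonneg _

private theorem MartB_good (a : ℕ → Ω → ℝ) {v : ℝ} {m : ℕ} {ω : Ω}
    (h : MartB_S a m ω ≤ v + 1 ∧ ∀ p < m, |a p ω| ≤ 1) {p : ℕ} (hp : p < m) :
    MartB_b a v p ω = a p ω := by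
  unfold MartB_b
  rw [if_pos ⟨(MartB_S_mono a ω (Nat.succ_le_of_lt hp)).trans h.1, h.2 p hp⟩]

private noncomputable def MartB_d (a : ℕ → Ω → ℝ) (v : ℝ) (m : ℕ) (ω : Ω) : ℝ :=
  |∑ p ∈ range m, a p ω ^ 2 - v| + ∑ p ∈ range m, a p ω ^ 4

private theorem MartB_four_nonneg (a : ℕ → Ω → ℝ) (m : ℕ) (ω : Ω) :
    0 ≤ ∑ p ∈ range m, a p ω ^ 4 :=
  sum_nonneg fun p _ => by positivity

private theorem MartB_d_nonneg (a : ℕ → Ω → ℝ) (v : ℝ) (m : ℕ) (ω : Ω) : 0 ≤ MartB_d a v m ω :=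
  add_nonneg (abs_nonneg _) (MartB_four_nonneg a m ω)

private theorem MartB_bad (a : ℕ → Ω → ℝ) {v : ℝ} {m : ℕ} {ω : Ω}
    (h : ¬ (MartB_S a m ω ≤ v + 1 ∧ ∀ p < m, |a p ω| ≤ 1)) : 1 ≤ MartB_d a v m ω := by
  unfold MartB_d
  by_cases h1 : MartB_S a m ω ≤ v + 1
  · have h2 : ∃ p < m, 1 < |a p ω| := by
      by_contra hc
      push Not at hc
      exact h ⟨h1, hc⟩
    obtain ⟨p, hp, hp1⟩ := h2
    have h3 : (1 : ℝ) ≤ a p ω ^ 4 := by
      have e : a p ω ^ 4 = |a p ω| ^ 4 := by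
        rw [show (4 : ℕ) = 2 * 2 by norm_num, pow_mul, pow_mul, sq_abs]
      rw [e]
      exact one_le_pow₀ hp1.le
    have h4 : a p ω ^ 4 ≤ ∑ p ∈ range m, a p ω ^ 4 :=
      single_le_sum (f := fun p => a p ω ^ 4) (fun p _ => by positivity) (mem_range.2 hp)
    have h5 := abs_nonneg (∑ p ∈ range m, a p ω ^ 2 - v)
    linarith
  · have h2 : v + 1 < ∑ p ∈ range m, a p ω ^ 2 := not_le.1 h1
    have h3 := le_abs_self (∑ p ∈ range m, a p ω ^ 2 - v)
    have h4 := MartB_four_nonneg a m ω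
    linarith

private theorem MartB_pt (a : ℕ → Ω → ℝ) {v : ℝ} (hv : 0 ≤ v) (m : ℕ) (ω : Ω) :
    |∏ p ∈ range m, Real.cos (MartB_b a v p ω) - Real.exp (-v / 2)| ≤
      (1 + (v + 2) / 2) * MartB_d a v m ω := by
  have hd := MartB_d_nonneg a v m ω
  have h1 : |∏ p ∈ range m, Real.cos (MartB_b a v p ω) -
      ∏ p ∈ range m, Real.exp (-(MartB_b a v p ω ^ 2 / 2))| ≤ ∑ p ∈ range m, a p ω ^ 4 := by
    refine (MartB_prod_sub _ _ m (fun p => Real.abs_cos_le_one _) fun p => ?_).trans ?_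
    · rw [abs_of_pos (Real.exp_pos _)]
      exact Real.exp_le_one_iff.2 (by linarith [sq_nonneg (MartB_b a v p ω)])
    · exact sum_le_sum fun p _ => (MartB_cos_exp (MartB_b_abs a v p ω)).trans
        (MartB_b_four a v p ω)
  have h2 : ∏ p ∈ range m, Real.exp (-(MartB_b a v p ω ^ 2 / 2)) =
      Real.exp (-(∑ p ∈ range m, MartB_b a v p ω ^ 2) / 2) := by
    rw [← Real.exp_sum, ← sum_neg_distrib, sum_div]
    congr 1
    exact sum_congr rfl fun p _ => by ring
  have hs0 : 0 ≤ ∑ p ∈ range m, MartB_b a v p ω ^ 2 := sum_nonneg fun p _ => sq_nonneg _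
  have hs1 := MartB_sum_sq a hv m ω
  have h3 : |Real.exp (-(∑ p ∈ range m, MartB_b a v p ω ^ 2) / 2) - Real.exp (-v / 2)| ≤
      |∑ p ∈ range m, MartB_b a v p ω ^ 2 - v| / 2 := by
    have h := MartB_exp_lip (x := (∑ p ∈ range m, MartB_b a v p ω ^ 2) / 2) (y := v / 2)
      (by positivity) (by positivity)
    rw [← sub_div, abs_div, abs_two] at h
    rw [neg_div, neg_div]
    exact h
  have h4 : |∑ p ∈ range m, MartB_b a v p ω ^ 2 - v| ≤
      |∑ p ∈ range m, a p ω ^ 2 - v| + (v + 1) * MartB_d a v m ω := by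
    by_cases hg : MartB_S a m ω ≤ v + 1 ∧ ∀ p < m, |a p ω| ≤ 1
    · have e : ∑ p ∈ range m, MartB_b a v p ω ^ 2 = ∑ p ∈ range m, a p ω ^ 2 :=
        sum_congr rfl fun p hp => by rw [MartB_good a hg (mem_range.1 hp)]
      rw [e]
      have : 0 ≤ (v + 1) * MartB_d a v m ω := by positivity
      linarith
    · have hb := MartB_bad a hg
      have h5 : |∑ p ∈ range m, MartB_b a v p ω ^ 2 - v| ≤ v + 1 := by
        rw [abs_le]
        constructor <;> linarith
      have h6 := abs_nonneg (∑ p ∈ range m, a p ω ^ 2 - v)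
      nlinarith
  have h7 : |∑ p ∈ range m, a p ω ^ 2 - v| ≤ MartB_d a v m ω := by
    unfold MartB_d
    have := MartB_four_nonneg a m ω
    linarith
  have h8 : ∑ p ∈ range m, a p ω ^ 4 ≤ MartB_d a v m ω := by
    unfold MartB_d
    have := abs_nonneg (∑ p ∈ range m, a p ω ^ 2 - v)
    linarith
  rw [h2] at h1
  have h9 := abs_sub_le (∏ p ∈ range m, Real.cos (MartB_b a v p ω))
    (Real.exp (-(∑ p ∈ range m, MartB_b a v p ω ^ 2) / 2)) (Real.exp (-v / 2))
  nlinarith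

/-- the exponential martingale -/
private noncomputable def MartB_W (e : ℕ → Ω → ℝ) (b : ℕ → Ω → ℝ) (k : ℕ) (ω : Ω) : ℂ :=
  ∏ p ∈ range k, (Complex.exp (Complex.I * ((e p ω * b p ω : ℝ) : ℂ)) *
    ((Real.cos (b p ω))⁻¹ : ℝ))

private theorem MartB_norm_exp (x : ℝ) : ‖Complex.exp (Complex.I * (x : ℂ))‖ = 1 := by
  rw [mul_comm]
  exact Complex.norm_exp_ofReal_mul_I x

private theorem MartB_W_norm (e : ℕ → Ω → ℝ) (a : ℕ → Ω → ℝ) {v : ℝ} (hv : 0 ≤ v) (k : ℕ)
    (ω : Ω) : ‖MartB_W e (MartB_b a v) k ω‖ ≤ Real.exp (v + 1) := by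
  unfold MartB_W
  rw [norm_prod]
  have h1 : ∏ p ∈ range k, ‖Complex.exp (Complex.I * ((e p ω * MartB_b a v p ω : ℝ) : ℂ)) *
      ((Real.cos (MartB_b a v p ω))⁻¹ : ℝ)‖ ≤ ∏ p ∈ range k, Real.exp (MartB_b a v p ω ^ 2) := by
    refine prod_le_prod (fun p _ => norm_nonneg _) fun p _ => ?_
    have h2 := MartB_cos_pos (MartB_b_abs a v p ω)
    rw [norm_mul, MartB_norm_exp, one_mul, Complex.norm_real, Real.norm_eq_abs,
      abs_of_pos (inv_pos.2 h2), inv_le_comm₀ h2 (Real.exp_pos _), ← Real.exp_neg]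
    exact MartB_cos_lower (MartB_b_abs a v p ω)
  refine h1.trans ?_
  rw [← Real.exp_sum]
  exact Real.exp_le_exp.2 (MartB_sum_sq a hv k ω)

private theorem MartB_b_meas (h : IsSigns P e) (a : ℕ → Ω → ℝ)
    (ha : ∀ p, Measurable[Past e p] (a p)) (v : ℝ) (p : ℕ) :
    Measurable[Past e p] (MartB_b a v p) := by
  have h1 : Measurable[Past e p] (MartB_S a (p + 1)) := by
    unfold MartB_S
    refine Finset.measurable_fun_sum _ fun q hq => ?_
    have hq' : q ≤ p := Nat.lt_succ_iff.1 (mem_range.1 hq)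
    exact ((ha q).mono (past_mono e hq') le_rfl).pow_const 2
  have h2 : MeasurableSet[Past e p] {ω | MartB_S a (p + 1) ω ≤ v + 1 ∧ |a p ω| ≤ 1} := by
    have h3 : MeasurableSet[Past e p] {ω | MartB_S a (p + 1) ω ≤ v + 1} :=
      h1 measurableSet_Iic
    have h4 : MeasurableSet[Past e p] {ω | |a p ω| ≤ 1} := by
      have h5 : Measurable[Past e p] (fun ω => |a p ω|) :=
        (continuous_abs.measurable).comp (ha p)
      exact h5 measurableSet_Iic
    exact h3.inter h4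
  unfold MartB_b
  exact Measurable.ite h2 (ha p) measurable_const

private theorem MartB_W_meas (h : IsSigns P e) (a : ℕ → Ω → ℝ)
    (ha : ∀ p, Measurable[Past e p] (a p)) (v : ℝ) (k : ℕ) :
    Measurable[Past e k] (MartB_W e (MartB_b a v) k) := by
  unfold MartB_W
  refine Finset.measurable_fun_prod _ fun p hp => ?_
  have hp' : p < k := mem_range.1 hp
  have h1 : Measurable[Past e k] (MartB_b a v p) :=
    (MartB_b_meas h a ha v p).mono (past_mono e hp'.le) le_rfl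
  have h2 : Measurable[Past e k] (e p) := measurable_past hp'
  have h3 : Measurable[Past e k] (fun ω => e p ω * MartB_b a v p ω) := h2.mul h1
  have h4 : Measurable[Past e k] (fun ω => (((e p ω * MartB_b a v p ω : ℝ)) : ℂ)) :=
    Complex.measurable_ofReal.comp h3
  have h5 : Measurable[Past e k] (fun ω => (((Real.cos (MartB_b a v p ω))⁻¹ : ℝ) : ℂ)) :=
    Complex.measurable_ofReal.comp (Real.measurable_cos.comp h1).inv
  exact (Complex.measurable_exp.comp (h4.const_mul Complex.I)).mul h5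

private theorem MartB_W_int (h : IsSigns P e) (a : ℕ → Ω → ℝ)
    (ha : ∀ p, Measurable[Past e p] (a p)) {v : ℝ} (hv : 0 ≤ v) (k : ℕ) :
    ∫ ω, MartB_W e (MartB_b a v) k ω ∂P = 1 := by
  induction k with
  | zero =>
    unfold MartB_W
    simp
  | succ k ih =>
    have hb := MartB_b_meas h a ha v k
    have hG : Measurable[Past e k] (fun ω => MartB_W e (MartB_b a v) k ω *
        (((Real.cos (MartB_b a v k ω))⁻¹ : ℝ) : ℂ)) :=
      (MartB_W_meas h a ha v k).mul
        (Complex.measurable_ofReal.comp (Real.measurable_cos.comp hb).inv)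
    have e1 : ∀ ω, MartB_W e (MartB_b a v) (k + 1) ω = (MartB_W e (MartB_b a v) k ω *
        (((Real.cos (MartB_b a v k ω))⁻¹ : ℝ) : ℂ)) *
          Complex.exp (Complex.I * ((e k ω * MartB_b a v k ω : ℝ) : ℂ)) := by
      intro ω
      unfold MartB_W
      rw [prod_range_succ]
      ring
    have hGR : ∀ᵐ ω ∂P, ‖MartB_W e (MartB_b a v) k ω *
        (((Real.cos (MartB_b a v k ω))⁻¹ : ℝ) : ℂ)‖ ≤ Real.exp (v + 1) := by
      refine Filter.Eventually.of_forall fun ω => ?_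
      have h1 := MartB_W_norm e a hv (k + 1) ω
      rw [e1 ω, norm_mul _ (Complex.exp _), MartB_norm_exp, mul_one] at h1
      exact h1
    have h2 := mart_step h k hG hGR hb
    simp_rw [e1]
    rw [h2, ← ih]
    refine integral_congr_ae (Filter.Eventually.of_forall fun ω => ?_)
    have h3 : ((Real.cos (MartB_b a v k ω) : ℝ) : ℂ) ≠ 0 := by
      exact_mod_cast (MartB_cos_pos (MartB_b_abs a v k ω)).ne'
    simp only
    rw [Complex.ofReal_inv, mul_assoc, inv_mul_cancel₀ h3, mul_one]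

omit mΩ in
private theorem MartB_exp_sum (e b : ℕ → Ω → ℝ) (m : ℕ) (ω : Ω) :
    Complex.exp (Complex.I * ((∑ p ∈ range m, e p ω * b p ω : ℝ) : ℂ)) =
      ∏ p ∈ range m, Complex.exp (Complex.I * ((e p ω * b p ω : ℝ) : ℂ)) := by
  rw [← Complex.exp_sum, Complex.ofReal_sum, mul_sum]

private theorem MartB_exp_W (e a : ℕ → Ω → ℝ) (v : ℝ) (m : ℕ) (ω : Ω) :
    Complex.exp (Complex.I * ((∑ p ∈ range m, e p ω * MartB_b a v p ω : ℝ) : ℂ)) =
      MartB_W e (MartB_b a v) m ω * ((∏ p ∈ range m, Real.cos (MartB_b a v p ω) : ℝ) : ℂ) := by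
  rw [MartB_exp_sum]
  unfold MartB_W
  rw [Complex.ofReal_prod, ← prod_mul_distrib]
  refine prod_congr rfl fun p _ => ?_
  have h3 : ((Real.cos (MartB_b a v p ω) : ℝ) : ℂ) ≠ 0 := by
    exact_mod_cast (MartB_cos_pos (MartB_b_abs a v p ω)).ne'
  rw [Complex.ofReal_inv, mul_assoc, inv_mul_cancel₀ h3, mul_one]

theorem mart (h : IsSigns P e) (a : ℕ → Ω → ℝ) (ha : ∀ p, Measurable[Past e p] (a p))
    {R : ℝ} (hR : ∀ p, ∀ᵐ ω ∂P, |a p ω| ≤ R) (m : ℕ) {v : ℝ} (hv : 0 ≤ v) :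
    ‖∫ ω, Complex.exp (Complex.I * ((∑ p ∈ range m, e p ω * a p ω : ℝ) : ℂ)) ∂P -
        ((Real.exp (-v / 2) : ℝ) : ℂ)‖ ≤
      4 * (1 + v) * Real.exp (v + 1) *
        (∫ ω, |∑ p ∈ range m, a p ω ^ 2 - v| ∂P + ∫ ω, ∑ p ∈ range m, a p ω ^ 4 ∂P) := by
  have hma : ∀ p, Measurable (a p) := fun p => (ha p).mono (past_le h p) le_rfl
  have hmb : ∀ p, Measurable (MartB_b a v p) := fun p =>
    (MartB_b_meas h a ha v p).mono (past_le h p) le_rfl
  have hme : ∀ p, Measurable (e p) := h.meas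
  have hR' : ∀ᵐ ω ∂P, ∀ p, |a p ω| ≤ R := ae_all_iff.2 hR
  -- integrability
  have hR0 : 0 ≤ R := by
    obtain ⟨ω, hω⟩ := hR'.exists
    exact (abs_nonneg _).trans (hω 0)
  have hi1 : Integrable (fun ω => |∑ p ∈ range m, a p ω ^ 2 - v|) P := by
    refine Integrable.of_bound (C := m * R ^ 2 + v) ?_ ?_
    · exact ((Finset.measurable_fun_sum _ fun p _ => (hma p).pow_const 2).sub_const
        v).abs.aestronglyMeasurable
    · filter_upwards [hR'] with ω hω
      rw [Real.norm_eq_abs, abs_abs]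
      have h1 : ∑ p ∈ range m, a p ω ^ 2 ≤ m * R ^ 2 := by
        have : ∑ p ∈ range m, a p ω ^ 2 ≤ ∑ p ∈ range m, R ^ 2 :=
          sum_le_sum fun p _ => sq_le_sq' (abs_le.1 (hω p)).1 (abs_le.1 (hω p)).2
        rw [sum_const, card_range, nsmul_eq_mul] at this
        exact this
      have h2 : 0 ≤ ∑ p ∈ range m, a p ω ^ 2 := sum_nonneg fun p _ => sq_nonneg _
      rw [abs_le]
      constructor
      · have : 0 ≤ (m : ℝ) * R ^ 2 := by positivity
        linarith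
      · linarith
  have hi2 : Integrable (fun ω => ∑ p ∈ range m, a p ω ^ 4) P := by
    refine integrable_finsetSum _ fun p _ => ?_
    refine Integrable.of_bound (C := R ^ 4) ((hma p).pow_const 4).aestronglyMeasurable ?_
    filter_upwards [hR'] with ω hω
    rw [Real.norm_eq_abs, abs_pow]
    exact pow_le_pow_left₀ (abs_nonneg _) (hω p) 4
  have hid : Integrable (MartB_d a v m) P := hi1.add hi2
  have hΔ : ∫ ω, MartB_d a v m ω ∂P =
      ∫ ω, |∑ p ∈ range m, a p ω ^ 2 - v| ∂P + ∫ ω, ∑ p ∈ range m, a p ω ^ 4 ∂P :=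
    integral_add hi1 hi2
  rw [← hΔ]
  set Δ := ∫ ω, MartB_d a v m ω ∂P with hΔdef
  have hΔ0 : 0 ≤ Δ := integral_nonneg fun ω => MartB_d_nonneg a v m ω
  have hmexp : ∀ c : ℕ → Ω → ℝ, (∀ p, Measurable (c p)) →
      Integrable (fun ω => Complex.exp (Complex.I * ((∑ p ∈ range m, e p ω * c p ω : ℝ) : ℂ)))
        P := by
    intro c hc
    refine Integrable.of_bound (C := 1) ?_ (Filter.Eventually.of_forall fun ω => ?_)
    · have h1 : Measurable (fun ω => ∑ p ∈ range m, e p ω * c p ω) :=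
        Finset.measurable_fun_sum _ fun p _ => (hme p).mul (hc p)
      exact (Complex.measurable_exp.comp
        ((Complex.measurable_ofReal.comp h1).const_mul Complex.I)).aestronglyMeasurable
    · rw [MartB_norm_exp]
  have hia := hmexp a hma
  have hib := hmexp (MartB_b a v) hmb
  -- first difference
  have hA : ‖∫ ω, Complex.exp (Complex.I * ((∑ p ∈ range m, e p ω * a p ω : ℝ) : ℂ)) ∂P -
      ∫ ω, Complex.exp (Complex.I * ((∑ p ∈ range m, e p ω * MartB_b a v p ω : ℝ) : ℂ)) ∂P‖ ≤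
      2 * Δ := by
    rw [← integral_sub hia hib, hΔdef, ← integral_const_mul]
    refine norm_integral_le_of_norm_le (hid.const_mul 2) (Filter.Eventually.of_forall fun ω => ?_)
    by_cases hg : MartB_S a m ω ≤ v + 1 ∧ ∀ p < m, |a p ω| ≤ 1
    · have e1 : ∑ p ∈ range m, e p ω * MartB_b a v p ω = ∑ p ∈ range m, e p ω * a p ω :=
        sum_congr rfl fun p hp => by rw [MartB_good a hg (mem_range.1 hp)]
      rw [e1, sub_self, norm_zero]
      have := MartB_d_nonneg a v m ω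
      positivity
    · have hb := MartB_bad a hg
      refine (norm_sub_le _ _).trans ?_
      rw [MartB_norm_exp, MartB_norm_exp]
      linarith
  -- second difference
  have hmW : Measurable (MartB_W e (MartB_b a v) m) :=
    (MartB_W_meas h a ha v m).mono (past_le h m) le_rfl
  have hiW : Integrable (MartB_W e (MartB_b a v) m) P :=
    Integrable.of_bound hmW.aestronglyMeasurable (Real.exp (v + 1))
      (Filter.Eventually.of_forall fun ω => MartB_W_norm e a hv m ω)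
  have hB : ‖∫ ω, Complex.exp (Complex.I *
      ((∑ p ∈ range m, e p ω * MartB_b a v p ω : ℝ) : ℂ)) ∂P - ((Real.exp (-v / 2) : ℝ) : ℂ)‖ ≤
      Real.exp (v + 1) * (1 + (v + 2) / 2) * Δ := by
    have e1 : ((Real.exp (-v / 2) : ℝ) : ℂ) = ∫ ω, MartB_W e (MartB_b a v) m ω *
        ((Real.exp (-v / 2) : ℝ) : ℂ) ∂P := by
      rw [integral_mul_const, MartB_W_int h a ha hv m, one_mul]
    rw [e1, ← integral_sub hib (hiW.mul_const _), hΔdef, ← integral_const_mul]
    refine norm_integral_le_of_norm_le (hid.const_mul _) (Filter.Eventually.of_forall fun ω => ?_)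
    rw [MartB_exp_W, ← mul_sub, norm_mul, ← Complex.ofReal_sub, Complex.norm_real,
      Real.norm_eq_abs, mul_assoc]
    exact mul_le_mul (MartB_W_norm e a hv m ω) (MartB_pt a hv m ω) (abs_nonneg _)
      (Real.exp_pos _).le
  have hC : 2 + Real.exp (v + 1) * (1 + (v + 2) / 2) ≤ 4 * (1 + v) * Real.exp (v + 1) := by
    have h1 : (2 : ℝ) ≤ Real.exp (v + 1) := by
      have := Real.add_one_le_exp (v + 1)
      linarith
    nlinarith
  calc ‖∫ ω, Complex.exp (Complex.I * ((∑ p ∈ range m, e p ω * a p ω : ℝ) : ℂ)) ∂P -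
        ((Real.exp (-v / 2) : ℝ) : ℂ)‖
      ≤ 2 * Δ + Real.exp (v + 1) * (1 + (v + 2) / 2) * Δ := by
        have h1 := norm_sub_le_norm_sub_add_norm_sub
          (∫ ω, Complex.exp (Complex.I * ((∑ p ∈ range m, e p ω * a p ω : ℝ) : ℂ)) ∂P)
          (∫ ω, Complex.exp (Complex.I * ((∑ p ∈ range m, e p ω * MartB_b a v p ω : ℝ) : ℂ)) ∂P)
          ((Real.exp (-v / 2) : ℝ) : ℂ)
        linarith
    _ = (2 + Real.exp (v + 1) * (1 + (v + 2) / 2)) * Δ := by ring
    _ ≤ 4 * (1 + v) * Real.exp (v + 1) * Δ := mul_le_mul_of_nonneg_right hC hΔ0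

end Pool.Agent.H41.RG

end

section

/-!
# Expansion of the mean square

Proof: for `x` in `[U, V]` use `MC_eq_sum`; the square is the double sum of `g n * conj (g m)` times
the product of the indicator functions of the open intervals `(n - H/2, n + H/2)` and
`(m - H/2, m + H/2)`, and the integral of this product over `[U, V]` is `KC U V H n m` (the length
of the intersection of the three intervals).
-/

set_option autoImplicit false

namespace Pool.Agent.H18.RM

open Finset MeasureTheory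

private theorem Expand_set (H : ℝ) (n m : ℕ) :
    {x : ℝ | |(n : ℝ) - x| < H / 2 ∧ |(m : ℝ) - x| < H / 2} =
      Set.Ioo (max (n : ℝ) m - H / 2) (min (n : ℝ) m + H / 2) := by
  ext x
  simp only [Set.mem_ofPred_eq, Set.mem_Ioo, abs_lt]
  constructor
  · rintro ⟨⟨h1, h2⟩, h3, h4⟩
    constructor
    · rcases max_cases (n : ℝ) (m : ℝ) with h | h <;> linarith [h.1]
    · rcases min_cases (n : ℝ) (m : ℝ) with h | h <;> linarith [h.1]
  · rintro ⟨h1, h2⟩
    have a1 := le_max_left (n : ℝ) (m : ℝ)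
    have a2 := le_max_right (n : ℝ) (m : ℝ)
    have a3 := min_le_left (n : ℝ) (m : ℝ)
    have a4 := min_le_right (n : ℝ) (m : ℝ)
    refine ⟨⟨?_, ?_⟩, ?_, ?_⟩ <;> linarith

private noncomputable def expandInd (H : ℝ) (n m : ℕ) : ℝ → ℝ :=
  (Set.Ioo (max (n : ℝ) m - H / 2) (min (n : ℝ) m + H / 2)).indicator (fun _ => (1 : ℝ))

private theorem Expand_ind (H : ℝ) (n m : ℕ) (x : ℝ) :
    expandInd H n m x = (if |(n : ℝ) - x| < H / 2 then 1 else 0) *
      (if |(m : ℝ) - x| < H / 2 then 1 else 0) := by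
  unfold expandInd
  rw [← Expand_set]
  by_cases h1 : |(n : ℝ) - x| < H / 2
  · by_cases h2 : |(m : ℝ) - x| < H / 2
    · have hx : x ∈ {x : ℝ | |(n : ℝ) - x| < H / 2 ∧ |(m : ℝ) - x| < H / 2} := ⟨h1, h2⟩
      rw [Set.indicator_of_mem hx, if_pos h1, if_pos h2, mul_one]
    · rw [Set.indicator_of_notMem (fun h => h2 h.2), if_neg h2, mul_zero]
  · rw [Set.indicator_of_notMem (fun h => h1 h.1), if_neg h1, zero_mul]

private theorem Expand_int {U V H : ℝ} (hUV : U ≤ V) (n m : ℕ) :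
    ∫ x in U..V, expandInd H n m x = KC U V H n m := by
  rw [intervalIntegral.integral_of_le hUV]
  set a := max (n : ℝ) m - H / 2 with ha
  set b := min (n : ℝ) m + H / 2 with hb
  have h1 : ∫ x in Set.Ioc U V, expandInd H n m x =
      ∫ x in Set.Ioc U V, (Set.Ioc a b).indicator (fun _ => (1 : ℝ)) x := by
    apply integral_congr_ae
    apply ae_restrict_of_ae
    unfold expandInd
    exact indicator_ae_eq_of_ae_eq_set Ioo_ae_eq_Ioc
  rw [h1, setIntegral_indicator measurableSet_Ioc, Set.Ioc_inter_Ioc, setIntegral_const]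
  unfold KC
  rw [smul_eq_mul, mul_one, Real.volume_real_Ioc, max_comm]

private theorem Expand_intble (U V H : ℝ) (n m : ℕ) :
    IntervalIntegrable (expandInd H n m) volume U V := by
  rw [intervalIntegrable_iff]
  unfold expandInd
  apply Integrable.indicator _ measurableSet_Ioo
  have : IntegrableOn (fun _ : ℝ => (1 : ℝ)) (Set.uIoc U V) volume := by
    rw [← intervalIntegrable_iff]
    exact intervalIntegrable_const
  exact this

private theorem Expand_intc (U V H : ℝ) (n m : ℕ) (c : ℂ) :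
    IntervalIntegrable (fun x => c * ((expandInd H n m x : ℝ) : ℂ)) volume U V := by
  apply IntervalIntegrable.const_mul
  exact ⟨(Expand_intble U V H n m).1.ofReal, (Expand_intble U V H n m).2.ofReal⟩

theorem IC_expand (g : ℕ → ℂ) {U V H : ℝ} (hUV : U ≤ V) (hH : 0 < H) {N : ℕ} (hN : V + H ≤ N) :
    ((IC g U V H : ℝ) : ℂ) =
      ∑ n ∈ range N, ∑ m ∈ range N, g n * (starRingEnd ℂ) (g m) * ((KC U V H n m : ℝ) : ℂ) := by
  unfold IC
  rw [← intervalIntegral.integral_ofReal]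
  have h1 : ∫ x in U..V, (((‖MC g x H‖ ^ 2 : ℝ)) : ℂ) =
      ∫ x in U..V, ∑ n ∈ range N, ∑ m ∈ range N,
        g n * (starRingEnd ℂ) (g m) * ((expandInd H n m x : ℝ) : ℂ) := by
    apply intervalIntegral.integral_congr
    intro x hx
    rw [Set.uIcc_of_le hUV] at hx
    have hxN : x + H ≤ N := by linarith [hx.2]
    simp only
    rw [MC_eq_sum g hH hxN]
    have e : ∀ z : ℂ, (((‖z‖ ^ 2 : ℝ)) : ℂ) = z * (starRingEnd ℂ) z := by
      intro z
      rw [Complex.mul_conj, Complex.normSq_eq_norm_sq]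
    rw [e, map_sum, sum_mul_sum]
    apply sum_congr rfl
    intro n _
    apply sum_congr rfl
    intro m _
    rw [Expand_ind]
    by_cases a1 : |(n : ℝ) - x| < H / 2 <;> by_cases a2 : |(m : ℝ) - x| < H / 2 <;>
      simp [a1, a2]
  rw [h1, intervalIntegral.integral_finsetSum]
  · apply sum_congr rfl
    intro n _
    rw [intervalIntegral.integral_finsetSum]
    · apply sum_congr rfl
      intro m _
      rw [intervalIntegral.integral_const_mul, intervalIntegral.integral_ofReal, Expand_int hUV]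
    · intro m _
      exact Expand_intc U V H n m _
  · intro n _
    have h := IntervalIntegrable.sum (μ := volume) (a := U) (b := V) (range N)
      (f := fun m x => g n * (starRingEnd ℂ) (g m) * ((expandInd H n m x : ℝ) : ℂ))
      (fun m _ => Expand_intc U V H n m _)
    have e : (∑ m ∈ range N, fun x => g n * (starRingEnd ℂ) (g m) *
        ((expandInd H n m x : ℝ) : ℂ)) = fun x => ∑ m ∈ range N,
        g n * (starRingEnd ℂ) (g m) * ((expandInd H n m x : ℝ) : ℂ) := by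
      ext x
      simp only [Finset.sum_apply]
    rwa [e] at h

/-- diagonal and off-diagonal terms -/
theorem IC_expand_diag (g : ℕ → ℂ) {U V H : ℝ} (hUV : U ≤ V) (hH : 0 < H) {N : ℕ}
    (hN : V + H ≤ N) :
    ((IC g U V H : ℝ) : ℂ) =
      ((∑ n ∈ range N, ‖g n‖ ^ 2 * KC U V H n n : ℝ) : ℂ) +
      ∑ p ∈ (range N ×ˢ range N).filter (fun p => p.1 ≠ p.2),
        g p.1 * (starRingEnd ℂ) (g p.2) * ((KC U V H p.1 p.2 : ℝ) : ℂ) := by
  rw [IC_expand g hUV hH hN]
  rw [← sum_product']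
  rw [← sum_filter_add_sum_filter_not (range N ×ˢ range N) (fun p => p.1 = p.2)]
  congr 1
  have h2 : (range N ×ˢ range N).filter (fun p : ℕ × ℕ => p.1 = p.2) =
      (range N).image (fun n => (n, n)) := by
    ext ⟨a, b⟩
    simp only [mem_filter, mem_product, mem_image, Prod.mk.injEq]
    constructor
    · rintro ⟨⟨ha, hb⟩, hab⟩
      exact ⟨a, ha, rfl, hab⟩
    · rintro ⟨c, hc, rfl, rfl⟩
      exact ⟨⟨hc, hc⟩, rfl⟩
  rw [h2, sum_image (by intro a _ b _ h; exact (Prod.mk.inj h).1)]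
  push_cast
  apply sum_congr rfl
  intro n _
  rw [Complex.mul_conj, Complex.normSq_eq_norm_sq]
  push_cast
  ring

end Pool.Agent.H18.RM

end

section

/-!
# Counting squarefree numbers

`#{n < N : n squarefree} = (6/π²) N + O(√N)`.  Proof: the indicator of squarefree numbers is
`∑_{d² ∣ n} μ(d)`, hence the count is `∑_{d ≤ √N} μ(d) ⌊(N-1)/d²⌋ = N ∑_{d ≤ √N} μ(d)/d² + O(√N)`,
the tail `∑_{d > √N} 1/d²` is `O(1/√N)`, and `∑ μ(d)/d² = 1/ζ(2) = 6/π²` (in Mathlib:
`ArithmeticFunction.LSeries_zeta_mul_Lseries_moebius`, `riemannZeta_two`).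
-/

set_option autoImplicit false

namespace Pool.Agent.H18.RM

open Finset

/-- `d² ∣ b² a` with `a` squarefree means `d ∣ b` -/
private theorem sqf_dvd {a b d : ℕ} (ha : Squarefree a) (hb : 0 < b) :
    d ^ 2 ∣ b ^ 2 * a ↔ d ∣ b := by
  constructor
  · intro h
    have ha0 : a ≠ 0 := ha.ne_zero
    have hn0 : b ^ 2 * a ≠ 0 := mul_ne_zero (pow_ne_zero 2 hb.ne') ha0
    have hd0 : d ≠ 0 := by
      rintro rfl
      rw [zero_pow (by norm_num)] at h
      exact hn0 (Nat.eq_zero_of_zero_dvd h)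
    rw [← Nat.factorization_le_iff_dvd hd0 hb.ne']
    rw [← Nat.factorization_le_iff_dvd (pow_ne_zero 2 hd0) hn0] at h
    intro p
    have h1 := h p
    rw [Nat.factorization_mul (pow_ne_zero 2 hb.ne') ha0, Nat.factorization_pow,
      Nat.factorization_pow] at h1
    simp only [Finsupp.coe_add, Finsupp.coe_smul, Pi.add_apply, Pi.smul_apply, smul_eq_mul] at h1
    have h2 : a.factorization p ≤ 1 := ha.natFactorization_le_one p
    omega
  · intro h
    exact Dvd.dvd.mul_right (pow_dvd_pow_of_dvd h 2) a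

private theorem sqf_moebius_sum (n : ℕ) :
    ∑ d ∈ n.divisors, (ArithmeticFunction.moebius d : ℤ) = if n = 1 then 1 else 0 := by
  rw [← ArithmeticFunction.coe_mul_zeta_apply, ArithmeticFunction.moebius_mul_coe_zeta,
    ArithmeticFunction.one_apply]

/-- the indicator of the squarefree numbers -/
private theorem sqf_ind {n D : ℕ} (hn : 0 < n) (hD : ∀ d : ℕ, d ^ 2 ∣ n → d ≤ D) :
    ∑ d ∈ Icc 1 D, (if d ^ 2 ∣ n then (ArithmeticFunction.moebius d : ℤ) else 0) =
      if Squarefree n then 1 else 0 := by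
  obtain ⟨a, b, ha0, hb0, hab, ha⟩ := Nat.sq_mul_squarefree_of_pos hn
  have h1 : ∀ d, d ^ 2 ∣ n ↔ d ∣ b := by
    intro d
    rw [← hab]
    exact sqf_dvd ha hb0
  rw [← sum_filter]
  have h2 : (Icc 1 D).filter (fun d => d ^ 2 ∣ n) = b.divisors := by
    ext d
    rw [mem_filter, Nat.mem_divisors, h1, mem_Icc]
    constructor
    · rintro ⟨_, h⟩
      exact ⟨h, hb0.ne'⟩
    · rintro ⟨h, _⟩
      refine ⟨⟨Nat.pos_of_dvd_of_pos h hb0, hD d ((h1 d).2 h)⟩, h⟩
  rw [h2, sqf_moebius_sum]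
  have h3 : b = 1 ↔ Squarefree n := by
    constructor
    · intro h
      rw [← hab, h, one_pow, one_mul]
      exact ha
    · intro h
      have h4 : b * b ∣ n := by
        rw [← hab, pow_two]
        exact dvd_mul_right _ _
      exact Nat.isUnit_iff.1 (h b h4)
  simp only [h3]

private theorem sqf_card_dvd (n d : ℕ) : ((Icc 1 n).filter (fun x => d ∣ x)).card = n / d := by
  rw [← Nat.Ioc_filter_dvd_card_eq_div]
  congr 1

private theorem sqf_count_eq (n : ℕ) :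
    (((range (n + 1)).filter Squarefree).card : ℤ) =
      ∑ d ∈ Icc 1 (Nat.sqrt (n + 1)), (ArithmeticFunction.moebius d : ℤ) * ((n / d ^ 2 : ℕ) : ℤ) := by
  have h1 : (range (n + 1)).filter Squarefree = (Icc 1 n).filter Squarefree := by
    ext x
    rw [mem_filter, mem_filter, mem_range, mem_Icc]
    constructor
    · rintro ⟨h, hx⟩
      have := hx.ne_zero
      exact ⟨by omega, hx⟩
    · rintro ⟨h, hx⟩
      exact ⟨by omega, hx⟩
  rw [h1, card_filter]
  push_cast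
  have h2 : ∀ x ∈ Icc 1 n, (if Squarefree x then (1 : ℤ) else 0) =
      ∑ d ∈ Icc 1 (Nat.sqrt (n + 1)), (if d ^ 2 ∣ x then (ArithmeticFunction.moebius d : ℤ) else 0) := by
    intro x hx
    rw [mem_Icc] at hx
    rw [sqf_ind (by omega)]
    intro d hd
    have h3 : d ^ 2 ≤ x := Nat.le_of_dvd (by omega) hd
    rw [Nat.le_sqrt]
    nlinarith
  rw [sum_congr rfl h2, sum_comm]
  refine sum_congr rfl fun d _ => ?_
  rw [← sum_filter, sum_const, nsmul_eq_mul, mul_comm]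
  congr 1
  rw [sqf_card_dvd]
  push_cast
  rfl

/-- the series `∑ μ(d)/d²` -/
private theorem sqf_hasSum :
    HasSum (fun d : ℕ => (ArithmeticFunction.moebius d : ℝ) / (d : ℝ) ^ 2) (6 / Real.pi ^ 2) := by
  have hs : 1 < (2 : ℂ).re := by norm_num
  have h1 := ArithmeticFunction.LSeriesSummable_moebius_iff.2 hs
  have h2 := ArithmeticFunction.LSeries_zeta_mul_Lseries_moebius hs
  rw [ArithmeticFunction.LSeries_zeta_eq_riemannZeta hs, riemannZeta_two] at h2
  have hpi : (Real.pi : ℂ) ≠ 0 := by exact_mod_cast Real.pi_ne_zero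
  have h3 : LSeries (fun n => (ArithmeticFunction.moebius n : ℂ)) 2 = ((6 / Real.pi ^ 2 : ℝ) : ℂ) := by
    push_cast
    field_simp at h2 ⊢
    linear_combination h2
  have h4 := h1.hasSum
  have h5 : HasSum (fun d : ℕ => (((ArithmeticFunction.moebius d : ℝ) / (d : ℝ) ^ 2 : ℝ) : ℂ))
      ((6 / Real.pi ^ 2 : ℝ) : ℂ) := by
    rw [← h3]
    unfold LSeries
    convert h4 using 1
    funext d
    rcases eq_or_ne d 0 with rfl | hd
    · simp
    · rw [LSeries.term_of_ne_zero hd]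
      push_cast
      norm_cast
  exact_mod_cast h5

private theorem sqf_abs_moebius (d : ℕ) : |(ArithmeticFunction.moebius d : ℝ)| ≤ 1 := by
  have h := ArithmeticFunction.abs_moebius_le_one (n := d)
  exact_mod_cast h

/-- the tail -/
private theorem sqf_tail (D : ℕ) (hD : 1 ≤ D) :
    |6 / Real.pi ^ 2 - ∑ d ∈ Icc 1 D, (ArithmeticFunction.moebius d : ℝ) / (d : ℝ) ^ 2| ≤
      1 / (D : ℝ) := by
  have h1 := sqf_hasSum.tendsto_sum_nat
  have h2 : Filter.Tendsto (fun M : ℕ => |∑ i ∈ range M, (ArithmeticFunction.moebius i : ℝ) /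
      (i : ℝ) ^ 2 - ∑ d ∈ Icc 1 D, (ArithmeticFunction.moebius d : ℝ) / (d : ℝ) ^ 2|) Filter.atTop
      (nhds |6 / Real.pi ^ 2 - ∑ d ∈ Icc 1 D, (ArithmeticFunction.moebius d : ℝ) / (d : ℝ) ^ 2|) :=
    (h1.sub_const _).abs
  refine le_of_tendsto h2 ?_
  filter_upwards [Filter.eventually_ge_atTop (D + 1)] with M hM
  obtain ⟨m, rfl⟩ : ∃ m, M = m + 1 := ⟨M - 1, by omega⟩
  have hDm : D ≤ m := by omega
  have h3 : range (m + 1) = insert 0 (Icc 1 D ∪ Ioc D m) := by
    ext x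
    simp only [mem_range, mem_insert, mem_union, mem_Icc, mem_Ioc]
    omega
  have hdis : Disjoint (Icc 1 D) (Ioc D m) := by
    rw [disjoint_left]
    intro x hx hx'
    rw [mem_Icc] at hx
    rw [mem_Ioc] at hx'
    omega
  rw [h3, sum_insert, sum_union hdis]
  · have h4 : (ArithmeticFunction.moebius 0 : ℝ) / ((0 : ℕ) : ℝ) ^ 2 = 0 := by simp
    rw [h4, zero_add, add_sub_cancel_left]
    refine (abs_sum_le_sum_abs _ _).trans ?_
    have h5 : ∑ i ∈ Ioc D m, |(ArithmeticFunction.moebius i : ℝ) / (i : ℝ) ^ 2| ≤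
        ∑ i ∈ Ioc D m, ((i : ℝ) ^ 2)⁻¹ := by
      refine sum_le_sum fun i _ => ?_
      rw [abs_div, abs_of_nonneg (sq_nonneg (i : ℝ)), div_eq_mul_inv]
      exact mul_le_of_le_one_left (inv_nonneg.2 (sq_nonneg _)) (sqf_abs_moebius i)
    refine h5.trans ((sum_Ioc_inv_sq_le_sub (by omega) hDm).trans ?_)
    rw [one_div]
    have : (0 : ℝ) ≤ (m : ℝ)⁻¹ := by positivity
    linarith
  · simp only [mem_union, mem_Icc, mem_Ioc]
    omega

theorem sqf_count : ∃ C : ℝ, 0 < C ∧ ∀ N : ℕ,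
    |(((range N).filter Squarefree).card : ℝ) - 6 / Real.pi ^ 2 * N| ≤ C * Real.sqrt N := by
  refine ⟨3, by norm_num, ?_⟩
  intro N
  rcases Nat.eq_zero_or_pos N with rfl | hN
  · simp
  obtain ⟨n, rfl⟩ : ∃ n, N = n + 1 := ⟨N - 1, by omega⟩
  set D : ℕ := Nat.sqrt (n + 1) with hD
  have hD1 : 1 ≤ D := by
    rw [hD, Nat.le_sqrt]
    omega
  have hD0 : (0 : ℝ) < D := by exact_mod_cast hD1
  have hDsq : (D : ℝ) ^ 2 ≤ ((n + 1 : ℕ) : ℝ) := by
    have := Nat.sqrt_le' (n + 1)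
    exact_mod_cast this
  have hDsq2 : ((n + 1 : ℕ) : ℝ) ≤ (2 * (D : ℝ)) ^ 2 := by
    have h1 := Nat.lt_succ_sqrt' (n + 1)
    rw [← hD] at h1
    have h2 : n + 1 ≤ (2 * D) ^ 2 := by
      have h3 : Nat.succ D ≤ 2 * D := by omega
      have h4 := Nat.pow_le_pow_left h3 2
      omega
    exact_mod_cast h2
  have hDle : (D : ℝ) ≤ Real.sqrt ((n + 1 : ℕ) : ℝ) := Real.le_sqrt_of_sq_le hDsq
  have hsq : Real.sqrt ((n + 1 : ℕ) : ℝ) ≤ 2 * (D : ℝ) := by
    rw [Real.sqrt_le_left (by positivity)]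
    exact hDsq2
  -- the main term
  have hcount : (((range (n + 1)).filter Squarefree).card : ℝ) =
      ∑ d ∈ Icc 1 D, (ArithmeticFunction.moebius d : ℝ) * ((n / d ^ 2 : ℕ) : ℝ) := by
    have h := congrArg (Int.cast : ℤ → ℝ) (sqf_count_eq n)
    rw [Int.cast_natCast, Int.cast_sum] at h
    rw [h]
    refine sum_congr rfl fun d _ => ?_
    rw [Int.cast_mul, Int.cast_natCast]
  have h1 : |(((range (n + 1)).filter Squarefree).card : ℝ) -
      ((n + 1 : ℕ) : ℝ) * ∑ d ∈ Icc 1 D, (ArithmeticFunction.moebius d : ℝ) / (d : ℝ) ^ 2| ≤ D := by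
    rw [hcount, mul_sum, ← sum_sub_distrib]
    refine (abs_sum_le_sum_abs _ _).trans ?_
    have h2 : ∀ d ∈ Icc 1 D, |(ArithmeticFunction.moebius d : ℝ) * ((n / d ^ 2 : ℕ) : ℝ) -
        ((n + 1 : ℕ) : ℝ) * ((ArithmeticFunction.moebius d : ℝ) / (d : ℝ) ^ 2)| ≤ 1 := by
      intro d hd
      rw [mem_Icc] at hd
      have hd0 : (0 : ℝ) < (d : ℝ) ^ 2 := by
        have : (0 : ℝ) < d := by exact_mod_cast hd.1
        positivity
      have e1 : (ArithmeticFunction.moebius d : ℝ) * ((n / d ^ 2 : ℕ) : ℝ) -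
          ((n + 1 : ℕ) : ℝ) * ((ArithmeticFunction.moebius d : ℝ) / (d : ℝ) ^ 2) =
          (ArithmeticFunction.moebius d : ℝ) * (((n / d ^ 2 : ℕ) : ℝ) -
            ((n + 1 : ℕ) : ℝ) / (d : ℝ) ^ 2) := by ring
      rw [e1, abs_mul]
      have h3 : |((n / d ^ 2 : ℕ) : ℝ) - ((n + 1 : ℕ) : ℝ) / (d : ℝ) ^ 2| ≤ 1 := by
        rw [abs_le]
        constructor
        · have h4 : n + 1 ≤ (n / d ^ 2 + 1) * d ^ 2 := by
            have := Nat.lt_div_mul_add (a := n) (b := d ^ 2) (pow_pos hd.1 2)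
            nlinarith
          have h5 : ((n + 1 : ℕ) : ℝ) ≤ (((n / d ^ 2 : ℕ) : ℝ) + 1) * (d : ℝ) ^ 2 := by
            exact_mod_cast h4
          have h6 : ((n + 1 : ℕ) : ℝ) / (d : ℝ) ^ 2 ≤ ((n / d ^ 2 : ℕ) : ℝ) + 1 := by
            rw [div_le_iff₀ hd0]
            exact h5
          linarith
        · have h4 : n / d ^ 2 * d ^ 2 ≤ n + 1 := (Nat.div_mul_le_self n (d ^ 2)).trans (by omega)
          have h5 : ((n / d ^ 2 : ℕ) : ℝ) * (d : ℝ) ^ 2 ≤ ((n + 1 : ℕ) : ℝ) := by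
            exact_mod_cast h4
          have h6 : ((n / d ^ 2 : ℕ) : ℝ) ≤ ((n + 1 : ℕ) : ℝ) / (d : ℝ) ^ 2 := by
            rw [le_div_iff₀ hd0]
            exact h5
          linarith
      exact mul_le_one₀ (sqf_abs_moebius d) (abs_nonneg _) h3
    refine (sum_le_sum h2).trans ?_
    rw [sum_const, Nat.card_Icc, nsmul_eq_mul, mul_one]
    norm_num
  have h2 := sqf_tail D hD1
  have h3 : |((n + 1 : ℕ) : ℝ) * ∑ d ∈ Icc 1 D, (ArithmeticFunction.moebius d : ℝ) / (d : ℝ) ^ 2 -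
      6 / Real.pi ^ 2 * ((n + 1 : ℕ) : ℝ)| ≤ 2 * Real.sqrt ((n + 1 : ℕ) : ℝ) := by
    have e1 : ((n + 1 : ℕ) : ℝ) * ∑ d ∈ Icc 1 D, (ArithmeticFunction.moebius d : ℝ) / (d : ℝ) ^ 2 -
      6 / Real.pi ^ 2 * ((n + 1 : ℕ) : ℝ) = -(((n + 1 : ℕ) : ℝ) * (6 / Real.pi ^ 2 -
        ∑ d ∈ Icc 1 D, (ArithmeticFunction.moebius d : ℝ) / (d : ℝ) ^ 2)) := by ring
    rw [e1, abs_neg, abs_mul, abs_of_nonneg (Nat.cast_nonneg (n + 1) : (0 : ℝ) ≤ ((n + 1 : ℕ) : ℝ))]
    have h4 : ((n + 1 : ℕ) : ℝ) * |6 / Real.pi ^ 2 -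
        ∑ d ∈ Icc 1 D, (ArithmeticFunction.moebius d : ℝ) / (d : ℝ) ^ 2| ≤
        ((n + 1 : ℕ) : ℝ) * (1 / (D : ℝ)) := mul_le_mul_of_nonneg_left h2 (Nat.cast_nonneg _)
    refine h4.trans ?_
    rw [mul_one_div, div_le_iff₀ hD0]
    have h5 : ((n + 1 : ℕ) : ℝ) = Real.sqrt ((n + 1 : ℕ) : ℝ) * Real.sqrt ((n + 1 : ℕ) : ℝ) :=
      (Real.mul_self_sqrt (Nat.cast_nonneg _)).symm
    calc ((n + 1 : ℕ) : ℝ) = Real.sqrt ((n + 1 : ℕ) : ℝ) * Real.sqrt ((n + 1 : ℕ) : ℝ) := h5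
      _ ≤ Real.sqrt ((n + 1 : ℕ) : ℝ) * (2 * (D : ℝ)) :=
        mul_le_mul_of_nonneg_left hsq (Real.sqrt_nonneg _)
      _ = 2 * Real.sqrt ((n + 1 : ℕ) : ℝ) * (D : ℝ) := by ring
  have h6 := abs_sub_le (((range (n + 1)).filter Squarefree).card : ℝ)
    (((n + 1 : ℕ) : ℝ) * ∑ d ∈ Icc 1 D, (ArithmeticFunction.moebius d : ℝ) / (d : ℝ) ^ 2)
    (6 / Real.pi ^ 2 * ((n + 1 : ℕ) : ℝ))
  linarith

end Pool.Agent.H18.RM

end

section

/-!
# The diagonal terms

`dg_all`: for `X/4 ≤ U ≤ V ≤ 5X` and `1 ≤ H ≤ X` the sum of `KC U V H n n` over the squarefree `n`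
is `(6/π²) H (V-U) + O(H √X + H²)`.  Proof: `KC U V H n n` is `0` unless
`U - H/2 < n < V + H/2`, it is `H` for `U + H/2 ≤ n ≤ V - H/2`, always between `0` and `H`, and the
two transition ranges contain `O(H + 1) = O(H)` integers, so the sum is
`H * #{U < n ≤ V squarefree} + O(H²)`; use `sqf_count`.
(If `V - U < H` the claim is trivial: everything is `O(H²)`.)

`dg_prime`: the same for the squarefree `n` not divisible by the prime `q`; the multiples of `q`
contribute at most `H * ((V - U + H)/q + 1)`.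
-/

set_option autoImplicit false

namespace Pool.Agent.H18.RM

open Finset

theorem Diag_count {x H : ℝ} {N : ℕ} (hH : 0 < H) (hN : x + H ≤ N) :
    (((range N).filter (fun n : ℕ => |(n : ℝ) - x| < H / 2)).card : ℝ) ≤ H + 1 := by
  have h := norm_MC_le (g := fun _ => (1 : ℂ)) (fun _ => by simp) hH x
  rw [MC_eq_sum _ hH hN, ← Finset.sum_filter, Finset.sum_const, nsmul_eq_mul, mul_one,
    Complex.norm_natCast] at h
  exact h

theorem dg_all : ∃ C : ℝ, 0 < C ∧ ∀ (X U V H : ℝ) (N : ℕ), 1 ≤ X → X / 4 ≤ U → U ≤ V →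
    V ≤ 5 * X → 1 ≤ H → H ≤ X → V + H ≤ N →
    |Dg (fun _ => True) U V H N - 6 / Real.pi ^ 2 * H * (V - U)| ≤
      C * (H * Real.sqrt X + H ^ 2) := by
  obtain ⟨C0, hC0, hsq⟩ := sqf_count
  refine ⟨6 * C0 + 10, by positivity, fun X U V H N hX hU hUV hV hH hHX hN => ?_⟩
  have hU0 : 0 < U := by linarith
  have hV0 : 0 < V := by linarith
  have hH0 : 0 < H := by linarith
  set a := ⌈U⌉₊ with ha
  set b := ⌈V⌉₊ with hb
  have hab : a ≤ b := Nat.ceil_mono hUV
  have hbN : b ≤ N := Nat.ceil_le.mpr (by linarith)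
  have ha1 : U ≤ a := Nat.le_ceil U
  have hb1 : V ≤ b := Nat.le_ceil V
  have ha2 : (a : ℝ) < U + 1 := Nat.ceil_lt_add_one hU0.le
  have hb2 : (b : ℝ) < V + 1 := Nat.ceil_lt_add_one hV0.le
  -- the count in [a, b)
  set S := (range N).filter Squarefree with hS
  have hDg : Dg (fun _ => True) U V H N = ∑ n ∈ S, KC U V H n n := by
    unfold Dg
    simp only [and_true]
    rfl
  have hcnt : ((S.filter (fun n => a ≤ n ∧ n < b)).card : ℝ) =
      (((range b).filter Squarefree).card : ℝ) - (((range a).filter Squarefree).card : ℝ) := by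
    have h1 : (range b).filter Squarefree =
        (S.filter (fun n => a ≤ n ∧ n < b)) ∪ (range a).filter Squarefree := by
      ext n
      simp only [hS, Finset.mem_filter, Finset.mem_union, Finset.mem_range]
      constructor
      · rintro ⟨h1, h2⟩
        by_cases h3 : a ≤ n
        · exact Or.inl ⟨⟨by omega, h2⟩, h3, h1⟩
        · exact Or.inr ⟨by omega, h2⟩
      · rintro (⟨⟨_, h2⟩, _, h4⟩ | ⟨h1, h2⟩)
        · exact ⟨h4, h2⟩
        · exact ⟨by omega, h2⟩
    have h2 : Disjoint (S.filter (fun n => a ≤ n ∧ n < b)) ((range a).filter Squarefree) := by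
      rw [Finset.disjoint_left]
      intro n hn hn'
      simp only [Finset.mem_filter, Finset.mem_range] at hn hn'
      omega
    rw [h1, Finset.card_union_of_disjoint h2]
    push_cast
    ring
  -- difference
  have hdiff : |∑ n ∈ S, KC U V H n n - H * ((S.filter (fun n => a ≤ n ∧ n < b)).card : ℝ)| ≤
      H * (2 * (H + 1)) := by
    have e1 : H * ((S.filter (fun n => a ≤ n ∧ n < b)).card : ℝ) =
        ∑ n ∈ S, (if a ≤ n ∧ n < b then H else 0) := by
      rw [← Finset.sum_filter, Finset.sum_const, nsmul_eq_mul, mul_comm]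
    rw [e1, ← Finset.sum_sub_distrib]
    refine (Finset.abs_sum_le_sum_abs _ _).trans ?_
    have h1 : ∀ n ∈ S, |KC U V H n n - (if a ≤ n ∧ n < b then H else 0)| ≤
        (if |(n : ℝ) - U| < H / 2 then H else 0) + (if |(n : ℝ) - V| < H / 2 then H else 0) := by
      intro n _
      have hK0 := KC_nonneg U V H n n
      have hK1 := KC_le (U := U) (V := V) hH0.le n n
      by_cases hn1 : |(n : ℝ) - U| < H / 2
      · rw [if_pos hn1]
        have h2 : (0 : ℝ) ≤ (if |(n : ℝ) - V| < H / 2 then H else 0) := by split_ifs <;> linarith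
        have h3 : |KC U V H n n - (if a ≤ n ∧ n < b then H else 0)| ≤ H := by
          rw [abs_le]
          split_ifs <;> constructor <;> linarith
        linarith
      · rw [if_neg hn1]
        by_cases hn2 : |(n : ℝ) - V| < H / 2
        · rw [if_pos hn2]
          have h3 : |KC U V H n n - (if a ≤ n ∧ n < b then H else 0)| ≤ H := by
            rw [abs_le]
            split_ifs <;> constructor <;> linarith
          linarith
        · rw [if_neg hn2, add_zero]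
          rw [not_lt] at hn1 hn2
          apply le_of_eq
          rw [abs_eq_zero]
          by_cases h4 : (n : ℝ) ≤ U - H / 2
          · rw [KC_eq_zero_of_le h4, if_neg, sub_zero]
            rintro ⟨h5, _⟩
            have : (a : ℝ) ≤ n := by exact_mod_cast h5
            linarith
          · by_cases h5 : V + H / 2 ≤ (n : ℝ)
            · rw [KC_eq_zero_of_ge h5, if_neg, sub_zero]
              rintro ⟨_, h6⟩
              have h7 : b ≤ n := Nat.ceil_le.mpr (by linarith)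
              omega
            · push Not at h4 h5
              have h6 : U + H / 2 ≤ (n : ℝ) := by
                by_contra hcon
                push Not at hcon
                have : |(n : ℝ) - U| < H / 2 := abs_lt.mpr ⟨by linarith, by linarith⟩
                linarith
              have h7 : (n : ℝ) ≤ V - H / 2 := by
                by_contra hcon
                push Not at hcon
                have : |(n : ℝ) - V| < H / 2 := abs_lt.mpr ⟨by linarith, by linarith⟩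
                linarith
              rw [KC_diag hH0.le h6 h7, if_pos, sub_self]
              refine ⟨Nat.ceil_le.mpr (by linarith), ?_⟩
              have : (n : ℝ) < b := by linarith
              exact_mod_cast this
    refine (Finset.sum_le_sum h1).trans ?_
    rw [Finset.sum_add_distrib]
    have h2 : ∀ x : ℝ, x + H ≤ N → ∑ n ∈ S, (if |(n : ℝ) - x| < H / 2 then H else 0) ≤ H * (H + 1) := by
      intro x hx
      calc ∑ n ∈ S, (if |(n : ℝ) - x| < H / 2 then H else 0)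
          ≤ ∑ n ∈ range N, (if |(n : ℝ) - x| < H / 2 then H else 0) := by
            apply Finset.sum_le_sum_of_subset_of_nonneg (Finset.filter_subset _ _)
            intro i _ _
            split_ifs <;> linarith
        _ = (((range N).filter (fun n : ℕ => |(n : ℝ) - x| < H / 2)).card : ℝ) * H := by
            rw [← Finset.sum_filter, Finset.sum_const, nsmul_eq_mul]
        _ ≤ (H + 1) * H := mul_le_mul_of_nonneg_right (Diag_count hH0 hx) hH0.le
        _ = H * (H + 1) := by ring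
    have h3 := h2 U (by linarith)
    have h4 := h2 V (by linarith)
    linarith
  have hsa := abs_le.mp (hsq a)
  have hsb := abs_le.mp (hsq b)
  have hsX : Real.sqrt b ≤ 3 * Real.sqrt X := by
    have h1 : (b : ℝ) ≤ 3 ^ 2 * X := by nlinarith
    calc Real.sqrt b ≤ Real.sqrt (3 ^ 2 * X) := Real.sqrt_le_sqrt h1
      _ = 3 * Real.sqrt X := by
        rw [Real.sqrt_mul (by norm_num), Real.sqrt_sq (by norm_num)]
  have hsX' : Real.sqrt a ≤ 3 * Real.sqrt X :=
    (Real.sqrt_le_sqrt (by exact_mod_cast hab)).trans hsX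
  have hX1 : 1 ≤ Real.sqrt X := by
    rw [show (1 : ℝ) = Real.sqrt 1 from Real.sqrt_one.symm]
    exact Real.sqrt_le_sqrt hX
  have hpi0 : 0 < 6 / Real.pi ^ 2 := by positivity
  have hpi1 : 6 / Real.pi ^ 2 ≤ 1 := by
    rw [div_le_one (by positivity)]
    nlinarith [Real.pi_gt_three]
  set c := 6 / Real.pi ^ 2 with hc
  set cnt := ((S.filter (fun n => a ≤ n ∧ n < b)).card : ℝ) with hcntd
  have hmain : |cnt - c * (V - U)| ≤ 6 * C0 * Real.sqrt X + 1 := by
    rw [hcnt, abs_le]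
    have h1 : c * ((b : ℝ) - a) - c * (V - U) ≤ 1 := by
      have e : c * ((b : ℝ) - a) - c * (V - U) = c * (((b : ℝ) - V) - (a - U)) := by ring
      rw [e]
      calc c * (((b : ℝ) - V) - (a - U)) ≤ c * 1 := mul_le_mul_of_nonneg_left (by linarith) hpi0.le
        _ ≤ 1 := by linarith
    have h2 : -1 ≤ c * ((b : ℝ) - a) - c * (V - U) := by
      have e : c * ((b : ℝ) - a) - c * (V - U) = -(c * ((a - U) - ((b : ℝ) - V))) := by ring
      rw [e]
      have : c * ((a - U) - ((b : ℝ) - V)) ≤ 1 := by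
        calc c * ((a - U) - ((b : ℝ) - V)) ≤ c * 1 := mul_le_mul_of_nonneg_left (by linarith) hpi0.le
          _ ≤ 1 := by linarith
      linarith
    have h3 : C0 * Real.sqrt b ≤ C0 * (3 * Real.sqrt X) := mul_le_mul_of_nonneg_left hsX hC0.le
    have h4 : C0 * Real.sqrt a ≤ C0 * (3 * Real.sqrt X) := mul_le_mul_of_nonneg_left hsX' hC0.le
    constructor <;> linarith [hsa.1, hsa.2, hsb.1, hsb.2]
  rw [hDg]
  have hfin : |H * cnt - c * H * (V - U)| ≤ H * (6 * C0 * Real.sqrt X + 1) := by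
    have e : H * cnt - c * H * (V - U) = H * (cnt - c * (V - U)) := by ring
    rw [e, abs_mul, abs_of_pos hH0]
    exact mul_le_mul_of_nonneg_left hmain hH0.le
  have hA := abs_le.mp hdiff
  have hB := abs_le.mp hfin
  have hHX' : H ≤ H * Real.sqrt X := by nlinarith
  have hHH : H ≤ H ^ 2 := by nlinarith
  have hP1 : 0 ≤ C0 * (H ^ 2) := by positivity
  have hP2 : 0 ≤ C0 * (H * Real.sqrt X) := by positivity
  rw [abs_le]
  constructor <;> linarith [hA.1, hA.2, hB.1, hB.2]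

end Pool.Agent.H18.RM

end

section

/-!
# Chaining over dyadic windows

`chain`: induction on `⌊η⌋`.  If `η < 1` use `int_short` (`V - U + 2 ≤ T²`).  If
`2^i ≤ η < 2^(i+1)`, write `η = 2^i + r`, use `MC_split` with `a = 2^i`, `b = r` at the point `x + c`,
`mink`, the hypothesis `h` for the first part (translate the variable: `|c - r/2| ≤ R`), the
induction hypothesis for the second one (`|c + 2^i/2| + r ≤ R`; if `r = 0` it is `0`), and
`√a + 3√r ≤ 3√(a+r)` for `0 ≤ r ≤ a`.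

`chain_close`: `MC_split` twice: the window of length `H' + η` is the window of length `H'` and two
windows of length `η/2` with centres `x ∓ (H'/2 + η/4)`; `2 * 3 T √(η/2) ≤ 5 T √η`.
-/

set_option autoImplicit false

namespace Pool.Agent.H18.RM

open Finset MeasureTheory

private theorem chain_ae (g : ℕ → ℂ) {a b : ℝ} (ha : 0 ≤ a) (hb : 0 ≤ b) (c : ℝ) :
    ∀ᵐ x : ℝ, MC g (x + c) (a + b) = MC g (x + (c - b / 2)) a + MC g (x + (c + a / 2)) b := by
  have h := (measurePreserving_add_right volume c).quasiMeasurePreserving.ae (MC_split g ha hb)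
  filter_upwards [h] with x hx
  rw [hx]
  congr 2
  · ring
  · ring

private theorem chain_first {g : ℕ → ℂ} (hg : ∀ n, ‖g n‖ ≤ 1) {U V R : ℝ} (hUV : U ≤ V)
    {a c B : ℝ} (ha : 0 < a) (hc : |c| ≤ R)
    (h : ∫ y in (U - R)..(V + R), ‖MC g y a‖ ^ 2 ≤ B) :
    ∫ x in U..V, ‖MC g (x + c) a‖ ^ 2 ≤ B := by
  have h1 : ∫ x in U..V, ‖MC g (x + c) a‖ ^ 2 = ∫ y in (U + c)..(V + c), ‖MC g y a‖ ^ 2 :=
    intervalIntegral.integral_comp_add_right (fun y => ‖MC g y a‖ ^ 2) c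
  rw [h1]
  refine le_trans ?_ h
  have hc' := abs_le.1 hc
  have hI : IntervalIntegrable (fun y => ‖MC g y a‖ ^ 2) volume (U - R) (V + R) := by
    have := intervalIntegrable_MC hg ha 0 (U - R) (V + R)
    simpa using this
  apply intervalIntegral.integral_mono_interval (by linarith [hc'.1]) (by linarith)
    (by linarith [hc'.2]) _ hI
  exact Filter.Eventually.of_forall (fun y => by positivity)

private theorem chain_sqrt {a r : ℝ} (hr : 0 ≤ r) (hra : r ≤ a) :
    Real.sqrt a + 3 * Real.sqrt r ≤ 3 * Real.sqrt (a + r) := by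
  have ha : 0 ≤ a := le_trans hr hra
  have h1 : Real.sqrt r ≤ Real.sqrt a := Real.sqrt_le_sqrt hra
  have h2 := Real.sq_sqrt ha
  have h3 := Real.sq_sqrt hr
  have h4 := Real.sqrt_nonneg a
  have h5 := Real.sqrt_nonneg r
  have h6 : (Real.sqrt a + 3 * Real.sqrt r) ^ 2 ≤ 9 * (a + r) := by
    nlinarith [mul_nonneg h4 (sub_nonneg.2 h1)]
  have h7 : 3 * Real.sqrt (a + r) = Real.sqrt (9 * (a + r)) := by
    rw [Real.sqrt_mul (by norm_num : (0 : ℝ) ≤ 9)]
    have : Real.sqrt (9 : ℝ) = 3 := by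
      rw [show (9 : ℝ) = 3 ^ 2 by norm_num]
      exact Real.sqrt_sq (by norm_num)
    rw [this]
  rw [h7]
  exact Real.le_sqrt_of_sq_le h6

private theorem chain_aux {g : ℕ → ℂ} (hg : ∀ n, ‖g n‖ ≤ 1) {U V R T : ℝ} (hUV : U ≤ V)
    (hT0 : 0 ≤ T) (hT : V - U + 2 ≤ T ^ 2)
    (h : ∀ i : ℕ, (2 : ℝ) ^ i ≤ R →
      ∫ y in (U - R)..(V + R), ‖MC g y ((2 : ℝ) ^ i)‖ ^ 2 ≤ T ^ 2 * 2 ^ i) (n : ℕ) :
    ∀ η c : ℝ, 0 < η → η < (2 : ℝ) ^ n → |c| + η ≤ R →
    Real.sqrt (∫ x in U..V, ‖MC g (x + c) η‖ ^ 2) ≤ 3 * T * Real.sqrt η := by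
  induction n with
  | zero =>
    intro η c hη h1 hc
    rw [pow_zero] at h1
    have h2 := int_short (c := c) hg hUV hη h1
    have h3 : ∫ x in U..V, ‖MC g (x + c) η‖ ^ 2 ≤ η * T ^ 2 :=
      le_trans h2 (mul_le_mul_of_nonneg_left hT hη.le)
    calc Real.sqrt (∫ x in U..V, ‖MC g (x + c) η‖ ^ 2) ≤ Real.sqrt (η * T ^ 2) :=
          Real.sqrt_le_sqrt h3
      _ = Real.sqrt η * T := by
          rw [Real.sqrt_mul hη.le, Real.sqrt_sq hT0]
      _ ≤ 3 * T * Real.sqrt η := by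
          nlinarith [mul_nonneg hT0 (Real.sqrt_nonneg η)]
  | succ i ih =>
    intro η c hη h1 hc
    by_cases hlt : η < (2 : ℝ) ^ i
    · exact ih η c hη hlt hc
    · push Not at hlt
      obtain ⟨r, hr⟩ : ∃ r, r = η - (2 : ℝ) ^ i := ⟨_, rfl⟩
      have hr0 : 0 ≤ r := by rw [hr]; linarith
      have hri : r < (2 : ℝ) ^ i := by
        rw [hr]
        have : (2 : ℝ) ^ (i + 1) = 2 * 2 ^ i := by ring
        rw [this] at h1
        linarith
      have hη' : η = (2 : ℝ) ^ i + r := by rw [hr]; ring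
      have h2i : (0 : ℝ) < (2 : ℝ) ^ i := by positivity
      have hiR : (2 : ℝ) ^ i ≤ R := by
        have := abs_nonneg c
        linarith
      have hc1 : |c - r / 2| ≤ R := by
        have := abs_sub c (r / 2)
        have h3 : |r / 2| = r / 2 := abs_of_nonneg (by linarith)
        rw [h3] at this
        linarith
      have hfirst : ∫ x in U..V, ‖MC g (x + (c - r / 2)) ((2 : ℝ) ^ i)‖ ^ 2 ≤ T ^ 2 * 2 ^ i :=
        chain_first hg hUV h2i hc1 (h i hiR)
      have hs1 : Real.sqrt (∫ x in U..V, ‖MC g (x + (c - r / 2)) ((2 : ℝ) ^ i)‖ ^ 2)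
          ≤ T * Real.sqrt ((2 : ℝ) ^ i) := by
        refine le_trans (Real.sqrt_le_sqrt hfirst) ?_
        rw [Real.sqrt_mul (by positivity), Real.sqrt_sq hT0]
      have hae := chain_ae g h2i.le hr0 c
      rcases eq_or_lt_of_le hr0 with hr00 | hrpos
      · have heq : ∫ x in U..V, ‖MC g (x + c) η‖ ^ 2
            = ∫ x in U..V, ‖MC g (x + (c - r / 2)) ((2 : ℝ) ^ i)‖ ^ 2 := by
          apply intervalIntegral.integral_congr
          intro x _
          have e1 : η = (2 : ℝ) ^ i := by rw [hη', ← hr00]; ring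
          have e2 : c - r / 2 = c := by rw [← hr00]; ring
          simp only [e2, e1]
        rw [heq]
        refine le_trans hs1 ?_
        have : Real.sqrt ((2 : ℝ) ^ i) ≤ Real.sqrt η := Real.sqrt_le_sqrt hlt
        nlinarith [mul_nonneg hT0 (Real.sqrt_nonneg η), mul_le_mul_of_nonneg_left this hT0]
      · have hc2 : |c + (2 : ℝ) ^ i / 2| + r ≤ R := by
          have := abs_add_le c ((2 : ℝ) ^ i / 2)
          have h3 : |(2 : ℝ) ^ i / 2| = (2 : ℝ) ^ i / 2 := abs_of_nonneg (by linarith)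
          rw [h3] at this
          linarith
        have hsec := ih r (c + (2 : ℝ) ^ i / 2) hrpos hri hc2
        have hm := mink (F := fun x => MC g (x + (c - r / 2)) ((2 : ℝ) ^ i))
          (G := fun x => MC g (x + (c + (2 : ℝ) ^ i / 2)) r) hUV
          ((measurable_MC g h2i).comp (measurable_id.add_const _))
          ((measurable_MC g hrpos).comp (measurable_id.add_const _))
          (intervalIntegrable_MC hg h2i _ _ _) (intervalIntegrable_MC hg hrpos _ _ _)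
        have heq : ∫ x in U..V, ‖MC g (x + c) η‖ ^ 2
            = ∫ x in U..V, ‖MC g (x + (c - r / 2)) ((2 : ℝ) ^ i)
                + MC g (x + (c + (2 : ℝ) ^ i / 2)) r‖ ^ 2 := by
          apply intervalIntegral.integral_congr_ae
          filter_upwards [hae] with x hx _
          rw [hη', hx]
        rw [heq]
        refine le_trans hm.2 ?_
        calc _ ≤ T * Real.sqrt ((2 : ℝ) ^ i) + 3 * T * Real.sqrt r := add_le_add hs1 hsec
          _ = T * (Real.sqrt ((2 : ℝ) ^ i) + 3 * Real.sqrt r) := by ring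
          _ ≤ T * (3 * Real.sqrt ((2 : ℝ) ^ i + r)) :=
              mul_le_mul_of_nonneg_left (chain_sqrt hr0 hri.le) hT0
          _ = 3 * T * Real.sqrt η := by rw [← hη']; ring

theorem chain {g : ℕ → ℂ} (hg : ∀ n, ‖g n‖ ≤ 1) {U V R T : ℝ} (hUV : U ≤ V) (hR : 0 ≤ R)
    (hT0 : 0 ≤ T) (hT : V - U + 2 ≤ T ^ 2)
    (h : ∀ i : ℕ, (2 : ℝ) ^ i ≤ R →
      ∫ y in (U - R)..(V + R), ‖MC g y ((2 : ℝ) ^ i)‖ ^ 2 ≤ T ^ 2 * 2 ^ i)
    {η c : ℝ} (hη : 0 < η) (hc : |c| + η ≤ R) :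
    Real.sqrt (∫ x in U..V, ‖MC g (x + c) η‖ ^ 2) ≤ 3 * T * Real.sqrt η := by
  obtain ⟨n, hn⟩ := pow_unbounded_of_one_lt η (by norm_num : (1 : ℝ) < 2)
  exact chain_aux hg hUV hT0 hT h n η c hη hn hc

theorem chain_close {g : ℕ → ℂ} (hg : ∀ n, ‖g n‖ ≤ 1) {U V R T : ℝ} (hUV : U ≤ V) (hR : 0 ≤ R)
    (hT0 : 0 ≤ T) (hT : V - U + 2 ≤ T ^ 2)
    (h : ∀ i : ℕ, (2 : ℝ) ^ i ≤ R →
      ∫ y in (U - R)..(V + R), ‖MC g y ((2 : ℝ) ^ i)‖ ^ 2 ≤ T ^ 2 * 2 ^ i)
    {H η : ℝ} (hH : 0 < H) (hη : 0 < η) (hc : H + η ≤ R) :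
    |Real.sqrt (IC g U V (H + η)) - Real.sqrt (IC g U V H)| ≤ 5 * T * Real.sqrt η := by
  have hη2 : 0 < η / 2 := by linarith
  obtain ⟨c, hcdef⟩ : ∃ c, c = H / 2 + η / 4 := ⟨_, rfl⟩
  have hcpos : 0 < c := by rw [hcdef]; linarith
  have hc1 : |(-c)| + η / 2 ≤ R := by
    rw [abs_neg, abs_of_pos hcpos, hcdef]; linarith
  have hc2 : |c| + η / 2 ≤ R := by
    rw [abs_of_pos hcpos, hcdef]; linarith
  have b1 := chain hg hUV hR hT0 hT h hη2 hc1
  have b2 := chain hg hUV hR hT0 hT h hη2 hc2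
  have mm : ∀ d : ℝ, Measurable (fun x => MC g (x + d) (η / 2)) := fun d =>
    (measurable_MC g hη2).comp (measurable_id.add_const _)
  have mH : Measurable (fun x => MC g x H) := measurable_MC g hH
  have mHη : Measurable (fun x => MC g x (H + η)) := measurable_MC g (by linarith)
  have iH : IntervalIntegrable (fun x => ‖MC g x H‖ ^ 2) volume U V := by
    have := intervalIntegrable_MC hg hH 0 U V
    simpa using this
  have iHη : IntervalIntegrable (fun x => ‖MC g x (H + η)‖ ^ 2) volume U V := by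
    have := intervalIntegrable_MC hg (by linarith : 0 < H + η) 0 U V
    simpa using this
  obtain ⟨iE, bE⟩ := mink (F := fun x => MC g (x + (-c)) (η / 2))
    (G := fun x => MC g (x + c) (η / 2)) hUV (mm _) (mm _)
    (intervalIntegrable_MC hg hη2 _ _ _) (intervalIntegrable_MC hg hη2 _ _ _)
  have hae : ∀ᵐ x : ℝ, MC g x (H + η) =
      MC g x H + (MC g (x + (-c)) (η / 2) + MC g (x + c) (η / 2)) := by
    have h1 := chain_ae g hη2.le (by linarith : 0 ≤ H + η / 2) 0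
    have h2 := chain_ae g hH.le hη2.le (η / 4)
    filter_upwards [h1, h2] with x h1 h2
    have e1 : x + 0 = x := by ring
    have e2 : η / 2 + (H + η / 2) = H + η := by ring
    have e3 : x + (0 - (H + η / 2) / 2) = x + (-c) := by rw [hcdef]; ring
    have e4 : x + (0 + η / 2 / 2) = x + η / 4 := by ring
    have e5 : x + (η / 4 - η / 2 / 2) = x := by ring
    have e6 : x + (η / 4 + H / 2) = x + c := by rw [hcdef]; ring
    rw [e1, e2, e3, e4, h2, e5, e6] at h1
    rw [h1]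
    ring
  have hE : Real.sqrt (∫ x in U..V, ‖MC g (x + (-c)) (η / 2) + MC g (x + c) (η / 2)‖ ^ 2)
      ≤ 5 * T * Real.sqrt η := by
    refine le_trans bE (le_trans (add_le_add b1 b2) ?_)
    have hs : Real.sqrt (η / 2) ≤ 5 / 6 * Real.sqrt η := by
      have h5 : 5 / 6 * Real.sqrt η = Real.sqrt ((5 / 6) ^ 2 * η) := by
        rw [Real.sqrt_mul (by positivity), Real.sqrt_sq (by norm_num)]
      rw [h5]
      apply Real.sqrt_le_sqrt
      nlinarith
    nlinarith [mul_le_mul_of_nonneg_left hs hT0]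
  have key1 : Real.sqrt (IC g U V (H + η)) ≤ Real.sqrt (IC g U V H) + 5 * T * Real.sqrt η := by
    have hm := (mink (F := fun x => MC g x H)
      (G := fun x => MC g (x + (-c)) (η / 2) + MC g (x + c) (η / 2)) hUV mH
      ((mm _).add (mm _)) iH iE).2
    have heq : IC g U V (H + η) = ∫ x in U..V, ‖MC g x H
        + (MC g (x + (-c)) (η / 2) + MC g (x + c) (η / 2))‖ ^ 2 := by
      unfold IC
      apply intervalIntegral.integral_congr_ae
      filter_upwards [hae] with x hx _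
      rw [hx]
    rw [heq]
    refine le_trans hm ?_
    unfold IC
    linarith
  have key2 : Real.sqrt (IC g U V H) ≤ Real.sqrt (IC g U V (H + η)) + 5 * T * Real.sqrt η := by
    have iE' : IntervalIntegrable
        (fun x => ‖-(MC g (x + (-c)) (η / 2) + MC g (x + c) (η / 2))‖ ^ 2) volume U V := by
      simpa only [norm_neg] using iE
    have hm := (mink (F := fun x => MC g x (H + η))
      (G := fun x => -(MC g (x + (-c)) (η / 2) + MC g (x + c) (η / 2))) hUV mHη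
      ((mm _).add (mm _)).neg iHη iE').2
    have heq : IC g U V H = ∫ x in U..V, ‖MC g x (H + η)
        + -(MC g (x + (-c)) (η / 2) + MC g (x + c) (η / 2))‖ ^ 2 := by
      unfold IC
      apply intervalIntegral.integral_congr_ae
      filter_upwards [hae] with x hx _
      rw [hx]
      ring_nf
    rw [heq]
    refine le_trans hm ?_
    simp only [norm_neg]
    unfold IC
    linarith
  rw [abs_sub_le_iff]
  constructor
  · linarith
  · linarith

end Pool.Agent.H18.RM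

end

section

/-!
# From a net of window lengths to all window lengths (deterministic)

`det`: for `2^i ≤ H < 2^(i+1)` let `j = ⌊J (H/2^i - 1)⌋`, `H' = 2^i (1 + j/J)`, `η = H - H'`, so that
`0 ≤ η ≤ 2^i/J ≤ H'/J`.  If `η > 0`, `chain_close` with `T √X` in place of `T` and `R = X/8`... (the
hypothesis `h1` gives the bound on `[U - R, V + R]`, contained in `[X/4, 5X]`) shows
`|√IC(H) - √IC(H')| ≤ 5 T √(X H'/J)`; moreover `IC(H') ≤ 4 X H'`.

`trans`: `IC` is monotone in the interval of integration.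
-/

set_option autoImplicit false

namespace Pool.Agent.H18.RM

open Finset MeasureTheory

private theorem Det_int {g : ℕ → ℂ} (hg : ∀ n, ‖g n‖ ≤ 1) {H : ℝ} (hH : 0 < H) (a b : ℝ) :
    IntervalIntegrable (fun x => ‖MC g x H‖ ^ 2) volume a b := by
  have h := intervalIntegrable_MC hg hH 0 a b
  simpa using h

private theorem Det_mono {g : ℕ → ℂ} (hg : ∀ n, ‖g n‖ ≤ 1) {H : ℝ} (hH : 0 < H) {a b c d : ℝ}
    (hca : c ≤ a) (hab : a ≤ b) (hbd : b ≤ d) :
    ∫ x in a..b, ‖MC g x H‖ ^ 2 ≤ ∫ x in c..d, ‖MC g x H‖ ^ 2 := by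
  refine intervalIntegral.integral_mono_interval hca hab hbd ?_ (Det_int hg hH c d)
  exact Filter.Eventually.of_forall fun x => by positivity

private theorem Det_nonneg (g : ℕ → ℂ) {U V : ℝ} (hUV : U ≤ V) (H : ℝ) : 0 ≤ IC g U V H := by
  unfold IC
  exact intervalIntegral.integral_nonneg hUV fun x _ => by positivity

private theorem Det_pi : 6 / Real.pi ^ 2 ≤ 61 / 100 ∧ 1 / 2 ≤ 6 / Real.pi ^ 2 := by
  have h1 : (3.14 : ℝ) < Real.pi := Real.pi_gt_d2
  have h2 : Real.pi < (3.15 : ℝ) := Real.pi_lt_d2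
  have h3 : 0 < Real.pi := by linarith only [h1, h2]
  have h4 : (0 : ℝ) < Real.pi ^ 2 := by positivity
  constructor
  · rw [div_le_iff₀ h4]
    nlinarith only [h1, h2]
  · rw [div_le_div_iff₀ (by norm_num) h4]
    nlinarith only [h1, h2]

private theorem Det_alg {T w a b s : ℝ} (hT : 8 ≤ T) (hw0 : 0 < w) (hww : w ^ 2 ≤ w)
    (ha0 : 0 ≤ a) (hb0 : 0 ≤ b) (hs0 : 0 ≤ s) (hdd : |a - b| ≤ 5 * T * (s * w))
    (hb4 : b ≤ 2 * s) : |a ^ 2 - b ^ 2| ≤ s ^ 2 * (28 * T ^ 2 * w) := by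
  have hab : a + b ≤ 4 * s + 5 * T * (s * w) := by
    have := (abs_le.1 hdd).2
    linarith only [hb4, this]
  have hT0 : 0 < T := by linarith
  have hfac : |a ^ 2 - b ^ 2| = |a - b| * (a + b) := by
    rw [show a ^ 2 - b ^ 2 = (a - b) * (a + b) by ring, abs_mul,
      abs_of_nonneg (show 0 ≤ a + b by linarith)]
  rw [hfac]
  calc |a - b| * (a + b) ≤ (5 * T * (s * w)) * (4 * s + 5 * T * (s * w)) := by
        apply mul_le_mul hdd hab (by linarith) (by positivity)
    _ = s ^ 2 * (20 * (T * w) + 25 * (T ^ 2 * w ^ 2)) := by ring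
    _ ≤ s ^ 2 * (28 * T ^ 2 * w) := by
        apply mul_le_mul_of_nonneg_left _ (by positivity)
        have h11 : T * w * 8 ≤ T ^ 2 * w := by
          have h0 : 0 < T * w := mul_pos hT0 hw0
          have h1 : T * w * 8 ≤ T * w * T := mul_le_mul_of_nonneg_left hT h0.le
          linarith [show T * w * T = T ^ 2 * w by ring]
        have h12 : T ^ 2 * w ^ 2 ≤ T ^ 2 * w :=
          mul_le_mul_of_nonneg_left hww (by positivity)
        have h13 : 0 ≤ T ^ 2 * w := by positivity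
        linarith

private theorem Det_k3 {c VU X H' H η T w : ℝ} (hpi1 : c ≤ 61 / 100) (hpi2 : 1 / 2 ≤ c)
    (hX0 : 0 < X) (hH'0 : 0 < H') (hVU : VU ≤ 7 / 2 * X) (hVU0 : 0 ≤ VU) (hT : 8 ≤ T)
    (hw0 : 0 < w) (hww : w ^ 2 ≤ w) (hη0 : 0 ≤ η) (hη1 : η ≤ H' * w ^ 2) (hHeq : H = H' + η) :
    |c * H' * VU - c * H * VU| ≤ T ^ 2 * w * X * H' := by
  have h13 : c * H' * VU - c * H * VU = -(c * η * VU) := by rw [hHeq]; ring
  rw [h13, abs_neg, abs_of_nonneg (by positivity)]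
  have h14 : c * η * VU ≤ 61 / 100 * (H' * w ^ 2) * (7 / 2 * X) := by
    apply mul_le_mul _ hVU hVU0 (by positivity)
    exact mul_le_mul hpi1 hη1 hη0 (by norm_num)
  have h16 : w ^ 2 * (X * H') ≤ w * (X * H') :=
    mul_le_mul_of_nonneg_right hww (by positivity)
  have h17 : 0 ≤ w * (X * H') := by positivity
  have h20 : 64 ≤ T ^ 2 := by nlinarith only [hT]
  have h21 : 64 * (w * (X * H')) ≤ T ^ 2 * (w * (X * H')) :=
    mul_le_mul_of_nonneg_right h20 h17
  have h22 : 61 / 100 * (H' * w ^ 2) * (7 / 2 * X) = 427 / 200 * (w ^ 2 * (X * H')) := by ring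
  have h23 : T ^ 2 * w * X * H' = T ^ 2 * (w * (X * H')) := by ring
  linarith only [h14, h16, h17, h21]

private theorem Det_b {c X H' VU δ I b s : ℝ} (hpi1 : c ≤ 61 / 100) (hX0 : 0 < X)
    (hH'0 : 0 < H') (hVU : VU ≤ 7 / 2 * X) (hVU0 : 0 ≤ VU) (hδ1 : δ ≤ 1) (hs0 : 0 ≤ s)
    (hs2 : s ^ 2 = X * H') (hb2 : I = b ^ 2) (k2 : |I - c * H' * VU| ≤ δ * X * H') :
    b ≤ 2 * s := by
  have h6 : b ^ 2 ≤ (2 * s) ^ 2 := by
    rw [← hb2, mul_pow, hs2]
    have h7 := (abs_le.1 k2).2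
    have h8 : c * H' * VU ≤ 61 / 100 * H' * (7 / 2 * X) := by
      apply mul_le_mul _ hVU hVU0 (by positivity)
      exact mul_le_mul_of_nonneg_right hpi1 hH'0.le
    have h9 : δ * X * H' ≤ 1 * X * H' := by
      apply mul_le_mul_of_nonneg_right _ hH'0.le
      exact mul_le_mul_of_nonneg_right hδ1 hX0.le
    have h10 : 0 < X * H' := by positivity
    linarith only [h7, h8, h9, h10, show 61 / 100 * H' * (7 / 2 * X) = 427 / 200 * (X * H') by ring]
  exact (abs_le_of_sq_le_sq' h6 (by positivity)).2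

private theorem Det_sq {T X η s w H' : ℝ} (hT : 0 ≤ T) (hX0 : 0 < X)
    (hs0 : 0 ≤ s) (hw0 : 0 ≤ w) (hs2 : s ^ 2 = X * H') (hη1 : η ≤ H' * w ^ 2) :
    5 * (T * Real.sqrt X) * Real.sqrt η ≤ 5 * T * (s * w) := by
  have h5 : Real.sqrt X * Real.sqrt η ≤ s * w := by
    rw [← Real.sqrt_mul hX0.le]
    apply Real.sqrt_le_iff.2
    refine ⟨by positivity, ?_⟩
    rw [mul_pow, hs2]
    have := mul_le_mul_of_nonneg_left hη1 hX0.le
    linarith [show X * (H' * w ^ 2) = X * H' * w ^ 2 by ring]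
  calc 5 * (T * Real.sqrt X) * Real.sqrt η = 5 * T * (Real.sqrt X * Real.sqrt η) := by ring
    _ ≤ 5 * T * (s * w) := by
      apply mul_le_mul_of_nonneg_left h5
      positivity

theorem det {g : ℕ → ℂ} (hg : ∀ n, ‖g n‖ ≤ 1) {X U V R T δ : ℝ} {J : ℕ} (hX : 16 ≤ X)
    (hU : X / 2 ≤ U) (hUV : U ≤ V) (hV : V ≤ 4 * X) (hR : R ≤ X / 8) (hT : 8 ≤ T) (hJ : 1 ≤ J)
    (hδ0 : 0 ≤ δ) (hδ1 : δ ≤ 1)
    (h1 : ∀ i : ℕ, (2 : ℝ) ^ i ≤ R →
      ∫ y in (X / 4)..(5 * X), ‖MC g y ((2 : ℝ) ^ i)‖ ^ 2 ≤ T ^ 2 * X * 2 ^ i)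
    (h2 : ∀ i j : ℕ, j < J → (2 : ℝ) ^ i * (1 + j / J) ≤ R →
      |IC g U V ((2 : ℝ) ^ i * (1 + j / J)) - 6 / Real.pi ^ 2 * ((2 : ℝ) ^ i * (1 + j / J)) * (V - U)|
        ≤ δ * X * ((2 : ℝ) ^ i * (1 + j / J)))
    {H : ℝ} (hH1 : 1 ≤ H) (hHR : H ≤ R) :
    |IC g U V H - 6 / Real.pi ^ 2 * H * (V - U)| ≤ (δ + 60 * T ^ 2 / Real.sqrt J) * X * H := by
  obtain ⟨hpi1, hpi2⟩ := Det_pi
  set c : ℝ := 6 / Real.pi ^ 2 with hc
  obtain ⟨i, hi1, hi2⟩ := exists_nat_pow_near hH1 (show (1 : ℝ) < 2 by norm_num)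
  have hJ0 : (0 : ℝ) < J := by exact_mod_cast (show 0 < J by omega)
  have hJ1 : (1 : ℝ) ≤ J := by exact_mod_cast hJ
  set e : ℝ := (2 : ℝ) ^ i with he
  have he0 : 0 < e := by positivity
  have he1 : 1 ≤ e := one_le_pow₀ (by norm_num)
  rw [pow_succ, ← he] at hi2
  have hz0 : 0 ≤ (J : ℝ) * (H / e - 1) := by
    have : 1 ≤ H / e := by rw [le_div_iff₀ he0]; linarith only [hi1]
    have h2 : 0 ≤ H / e - 1 := by linarith only [this]
    positivity
  have hz1 : (J : ℝ) * (H / e - 1) < J := by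
    have : H / e < 2 := by rw [div_lt_iff₀ he0]; linarith
    have h2 : H / e - 1 < 1 := by linarith only [this]
    nlinarith only [hJ0, this]
  obtain ⟨j, hj⟩ : ∃ j : ℕ, j = ⌊(J : ℝ) * (H / e - 1)⌋₊ := ⟨_, rfl⟩
  have hjJ : j < J := by
    rw [hj]
    exact (Nat.floor_lt hz0).2 hz1
  have hj1 : (j : ℝ) ≤ (J : ℝ) * (H / e - 1) := by
    rw [hj]
    exact Nat.floor_le hz0
  have hj2 : (J : ℝ) * (H / e - 1) < (j : ℝ) + 1 := by
    rw [hj]
    exact Nat.lt_floor_add_one _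
  obtain ⟨H', hH'⟩ : ∃ H' : ℝ, H' = e * (1 + (j : ℝ) / J) := ⟨_, rfl⟩
  have hHe : H = e * (H / e) := by field_simp
  have hH'H : H' ≤ H := by
    rw [hH']
    have : (j : ℝ) / J ≤ H / e - 1 := by rw [div_le_iff₀ hJ0]; linarith only [hj1]
    calc e * (1 + (j : ℝ) / J) ≤ e * (H / e) := by
          apply mul_le_mul_of_nonneg_left _ he0.le
          linarith only [this]
      _ = H := hHe.symm
  have heta : H - H' ≤ e / J := by
    have h3 : H / e - 1 ≤ ((j : ℝ) + 1) / J := by rw [le_div_iff₀ hJ0]; linarith only [hj2]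
    have h4 : H - H' = e * (H / e - 1 - (j : ℝ) / J) := by
      rw [hH']
      have := hHe
      linear_combination this
    rw [h4, div_eq_mul_inv e]
    apply mul_le_mul_of_nonneg_left _ he0.le
    rw [add_div] at h3
    rw [inv_eq_one_div]
    linarith only [h3]
  have heH' : e ≤ H' := by
    rw [hH']
    have : 0 ≤ (j : ℝ) / J := by positivity
    nlinarith only [this, hH1, hi2]
  have hH'0 : 0 < H' := by linarith only [hH1, hi2, heH']
  have hH'R : H' ≤ R := hH'H.trans hHR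
  have hX0 : 0 < X := by linarith only [hX]
  have hVU : V - U ≤ 7 / 2 * X := by linarith only [hU, hV]
  have hVU0 : 0 ≤ V - U := by linarith only [hUV]
  have k2 := h2 i j hjJ (by rw [← hH']; exact hH'R)
  rw [← hH'] at k2
  -- abbreviations
  obtain ⟨w, hw⟩ : ∃ w : ℝ, w = 1 / Real.sqrt J := ⟨_, rfl⟩
  have hsJ1 : 1 ≤ Real.sqrt J := by
    rw [show (1 : ℝ) = Real.sqrt 1 by simp]
    exact Real.sqrt_le_sqrt hJ1
  have hw0 : 0 < w := by rw [hw]; positivity
  have hw1 : w ≤ 1 := by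
    rw [hw, div_le_one (by linarith only [hsJ1])]
    exact hsJ1
  have hw2 : w ^ 2 = 1 / J := by
    rw [hw, div_pow, one_pow, Real.sq_sqrt hJ0.le]
  have hww : w ^ 2 ≤ w := by nlinarith only [hw0, hw1]
  have hgoal : (δ + 60 * T ^ 2 / Real.sqrt J) * X * H = δ * X * H + 60 * T ^ 2 * w * X * H := by
    rw [hw]
    ring
  rw [hgoal]
  obtain ⟨η, hη⟩ : ∃ η : ℝ, η = H - H' := ⟨_, rfl⟩
  have hη0 : 0 ≤ η := by linarith only [hH'H, hη]
  have hη1 : η ≤ H' * w ^ 2 := by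
    rw [hw2, mul_one_div, hη]
    refine heta.trans ?_
    gcongr
  have hHeq : H = H' + η := by linarith only [hη]
  -- the difference of the integrals
  have key : |IC g U V H - IC g U V H'| ≤ 28 * T ^ 2 * w * X * H' := by
    rcases hη0.lt_or_eq with hηp | hηz
    · have hch := chain_close (g := g) hg (U := U) (V := V) (R := R) (T := T * Real.sqrt X) hUV
        (by linarith only [hH1, hHR]) (by positivity) (by
          rw [mul_pow, Real.sq_sqrt hX0.le]
          have hT64 : 64 ≤ T ^ 2 := by nlinarith only [hT]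
          have hTX : 64 * X ≤ T ^ 2 * X := mul_le_mul_of_nonneg_right hT64 hX0.le
          linarith only [hX, hU, hV, hTX]) (by
          intro i' hi'
          have hm := Det_mono hg (H := (2 : ℝ) ^ i') (by positivity)
            (a := U - R) (b := V + R) (c := X / 4) (d := 5 * X) (by linarith only [hX, hU, hR]) (by linarith only [hUV, hH1, hHR])
            (by linarith only [hX, hV, hR])
          rw [mul_pow, Real.sq_sqrt hX0.le]
          exact hm.trans (h1 i' hi')) hH'0 hηp (by rw [← hHeq]; exact hHR)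
      rw [← hHeq] at hch
      obtain ⟨a, ha⟩ : ∃ a : ℝ, a = Real.sqrt (IC g U V H) := ⟨_, rfl⟩
      obtain ⟨b, hb⟩ : ∃ b : ℝ, b = Real.sqrt (IC g U V H') := ⟨_, rfl⟩
      rw [← ha, ← hb] at hch
      have ha2 : IC g U V H = a ^ 2 := by rw [ha, Real.sq_sqrt (Det_nonneg g hUV H)]
      have hb2 : IC g U V H' = b ^ 2 := by rw [hb, Real.sq_sqrt (Det_nonneg g hUV H')]
      have ha0 : 0 ≤ a := by rw [ha]; exact Real.sqrt_nonneg _
      have hb0 : 0 ≤ b := by rw [hb]; exact Real.sqrt_nonneg _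
      obtain ⟨s, hs⟩ : ∃ s : ℝ, s = Real.sqrt (X * H') := ⟨_, rfl⟩
      have hs0 : 0 ≤ s := by rw [hs]; exact Real.sqrt_nonneg _
      have hs2 : s ^ 2 = X * H' := by rw [hs, Real.sq_sqrt (by positivity)]
      have hd : 5 * (T * Real.sqrt X) * Real.sqrt η ≤ 5 * T * (s * w) :=
        Det_sq (by linarith only [hT]) hX0 hs0 hw0.le hs2 hη1
      have hdd := hch.trans hd
      have hb4 : b ≤ 2 * s := Det_b hpi1 hX0 hH'0 hVU hVU0 hδ1 hs0 hs2 hb2 k2
      rw [ha2, hb2]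
      have hfin := Det_alg hT hw0 hww ha0 hb0 hs0 hdd hb4
      rw [hs2] at hfin
      refine hfin.trans (le_of_eq ?_)
      ring
    · have : H = H' := by linarith only [hH'H, hη, hηz]
      rw [this, sub_self, abs_zero]
      positivity
  have k3 : |c * H' * (V - U) - c * H * (V - U)| ≤ T ^ 2 * w * X * H' :=
    Det_k3 hpi1 hpi2 hX0 hH'0 hVU hVU0 hT hw0 hww hη0 hη1 hHeq
  have k4 : δ * X * H' ≤ δ * X * H := mul_le_mul_of_nonneg_left hH'H (by positivity)
  have k5 : T ^ 2 * w * X * H' ≤ T ^ 2 * w * X * H :=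
    mul_le_mul_of_nonneg_left hH'H (by positivity)
  have k6 : 0 ≤ T ^ 2 * w * X * H' := by positivity
  have k7 : 28 * T ^ 2 * w * X * H' = 28 * (T ^ 2 * w * X * H') := by ring
  have k8 : 60 * T ^ 2 * w * X * H = 60 * (T ^ 2 * w * X * H) := by ring
  rw [k7] at key
  rw [k8]
  have tri : |IC g U V H - c * H * (V - U)| ≤ |IC g U V H - IC g U V H'|
      + |IC g U V H' - c * H' * (V - U)| + |c * H' * (V - U) - c * H * (V - U)| := by
    have := abs_add_three (IC g U V H - IC g U V H') (IC g U V H' - c * H' * (V - U))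
      (c * H' * (V - U) - c * H * (V - U))
    refine le_trans (le_of_eq ?_) this
    congr 1
    ring
  linarith only [k2, key, k3, k4, k5, k6, tri]

theorem trans {g : ℕ → ℂ} (hg : ∀ n, ‖g n‖ ≤ 1) {X X' Y H κ τ : ℝ} (hX : 1 ≤ X) (hH : 1 ≤ H)
    (hτ0 : 0 ≤ τ) (hτ1 : τ ≤ 1 / 2) (hXY : X ≤ Y) (hYX : Y ≤ X') (hX' : X' ≤ (1 + τ) * X)
    (hκ : 0 ≤ κ)
    (h1 : |IC g X (2 * X') H - 6 / Real.pi ^ 2 * H * (2 * X' - X)| ≤ κ * X * H)
    (h2 : |IC g X' (2 * X) H - 6 / Real.pi ^ 2 * H * (2 * X - X')| ≤ κ * X * H) :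
    |(1 / Y * IC g Y (2 * Y) H) / (H / (Real.pi ^ 2 / 6)) - 1| ≤ 2 * κ + 6 * τ := by
  obtain ⟨hpi1, hpi2⟩ := Det_pi
  have hH0 : 0 < H := by linarith only [hH]
  have hX0 : 0 < X := by linarith
  have hY0 : 0 < Y := by linarith
  have hX'2 : X' ≤ 2 * X := by nlinarith only [hX, hτ1, hX']
  have m1 : IC g Y (2 * Y) H ≤ IC g X (2 * X') H :=
    Det_mono hg hH0 hXY (by linarith only [hX, hXY]) (by linarith only [hYX])
  have m2 : IC g X' (2 * X) H ≤ IC g Y (2 * Y) H :=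
    Det_mono hg hH0 hYX hX'2 (by linarith)
  have hpi0 : (0 : ℝ) < Real.pi ^ 2 := by positivity
  have hden : H / (Real.pi ^ 2 / 6) = 6 / Real.pi ^ 2 * H := by
    field_simp
  rw [hden]
  generalize 6 / Real.pi ^ 2 = c at *
  generalize IC g Y (2 * Y) H = I at *
  generalize IC g X (2 * X') H = I1 at *
  generalize IC g X' (2 * X) H = I2 at *
  have hc0 : 0 < c := by linarith only [hpi2]
  have hD : 0 < Y * (c * H) := by positivity
  have e1 : (1 / Y * I) / (c * H) = I / (Y * (c * H)) := by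
    field_simp
  rw [e1]
  have u1 := (abs_le.1 h1).2
  have u2 := (abs_le.1 h2).1
  have hκ2 : κ * X * H ≤ 2 * κ * (Y * (c * H)) := by
    have h3 : κ * X * H ≤ κ * Y * H := by
      apply mul_le_mul_of_nonneg_right _ hH0.le
      exact mul_le_mul_of_nonneg_left hXY hκ
    have h4 : κ * Y * H ≤ 2 * κ * (Y * (c * H)) := by
      have h5 : 0 ≤ κ * Y * H := by positivity
      have h6 : 2 * κ * (Y * (c * H)) = (2 * c) * (κ * Y * H) := by ring
      rw [h6]
      nlinarith only [hpi2, h5]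
    linarith only [h3, h4]
  have hcH : 0 < c * H := by positivity
  have hτY : 0 ≤ τ * Y := by positivity
  rw [abs_le]
  constructor
  · have h7 : 1 - 6 * τ - 2 * κ ≤ I / (Y * (c * H)) := by
      rw [le_div_iff₀ hD]
      have h8 : (1 - 6 * τ) * Y ≤ 2 * X - X' := by
        have h9 : Y ≤ (1 + τ) * X := hYX.trans hX'
        have h10 : (1 - τ) * X ≤ 2 * X - X' := by linarith
        have h11 : (1 - 2 * τ) * Y ≤ (1 - τ) * X := by
          have h12 : 0 ≤ 1 - 2 * τ := by linarith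
          have h13 : (1 - 2 * τ) * Y ≤ (1 - 2 * τ) * ((1 + τ) * X) :=
            mul_le_mul_of_nonneg_left h9 h12
          have h14 : 0 ≤ τ ^ 2 * X := by positivity
          nlinarith only [h13, h14]
        linarith
      have h15 : c * H * ((1 - 6 * τ) * Y) ≤ c * H * (2 * X - X') :=
        mul_le_mul_of_nonneg_left h8 hcH.le
      nlinarith only [m2, u2, hκ2, h15]
    linarith
  · have h7 : I / (Y * (c * H)) ≤ 1 + 6 * τ + 2 * κ := by
      rw [div_le_iff₀ hD]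
      have h8 : 2 * X' - X ≤ (1 + 6 * τ) * Y := by
        have h16 : 2 * X' - X ≤ (1 + 2 * τ) * X := by linarith
        have h17 : (1 + 2 * τ) * X ≤ (1 + 2 * τ) * Y :=
          mul_le_mul_of_nonneg_left hXY (by linarith)
        linarith
      have h15 : c * H * (2 * X' - X) ≤ c * H * ((1 + 6 * τ) * Y) :=
        mul_le_mul_of_nonneg_left h8 hcH.le
      nlinarith only [m1, u1, hκ2, h15]
    linarith only [h7]

end Pool.Agent.H18.RM

end

section

/-!
# Good scales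

`GoodAt g X X' R T δ J`: the conditions at the scale `X` (next scale `X'`) which by `det` and `trans`
imply the law for all `Y` in `[X, X']` and all window lengths `H ≤ R`.
-/

set_option autoImplicit false

namespace Pool.Agent.H18.RM

open Finset MeasureTheory

def GoodAt (g : ℕ → ℂ) (X X' R T δ : ℝ) (J : ℕ) : Prop :=
  (∀ i : ℕ, (2 : ℝ) ^ i ≤ R →
      ∫ y in (X / 4)..(5 * X), ‖MC g y ((2 : ℝ) ^ i)‖ ^ 2 ≤ T ^ 2 * X * 2 ^ i) ∧
  (∀ i j : ℕ, j < J → (2 : ℝ) ^ i * (1 + j / J) ≤ R →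
      |IC g X (2 * X') ((2 : ℝ) ^ i * (1 + j / J)) -
        6 / Real.pi ^ 2 * ((2 : ℝ) ^ i * (1 + j / J)) * (2 * X' - X)|
        ≤ δ * X * ((2 : ℝ) ^ i * (1 + j / J))) ∧
  (∀ i j : ℕ, j < J → (2 : ℝ) ^ i * (1 + j / J) ≤ R →
      |IC g X' (2 * X) ((2 : ℝ) ^ i * (1 + j / J)) -
        6 / Real.pi ^ 2 * ((2 : ℝ) ^ i * (1 + j / J)) * (2 * X - X')|
        ≤ δ * X * ((2 : ℝ) ^ i * (1 + j / J)))

theorem GoodAt.law {g : ℕ → ℂ} (hg : ∀ n, ‖g n‖ ≤ 1) {X X' R T δ τ : ℝ} {J : ℕ}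
    (h : GoodAt g X X' R T δ J) (hX : 16 ≤ X) (hXX' : X ≤ X') (hτ : X' ≤ (1 + τ) * X)
    (hτ1 : τ ≤ 1 / 2) (hR : R ≤ X / 8) (hT : 8 ≤ T) (hJ : 1 ≤ J) (hδ0 : 0 ≤ δ) (hδ1 : δ ≤ 1)
    {Y H : ℝ} (hY : X ≤ Y) (hY' : Y ≤ X') (hH : 1 ≤ H) (hHR : H ≤ R) :
    |(1 / Y * IC g Y (2 * Y) H) / (H / (Real.pi ^ 2 / 6)) - 1| ≤
      2 * (δ + 60 * T ^ 2 / Real.sqrt J) + 6 * τ := by
  obtain ⟨h1, h2, h3⟩ := h
  have hX0 : 0 < X := by linarith
  have hτ0 : 0 ≤ τ := by
    have h4 : X ≤ (1 + τ) * X := hXX'.trans hτ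
    nlinarith
  have hX15 : X' ≤ (3 / 2) * X := by
    refine hτ.trans ?_
    exact mul_le_mul_of_nonneg_right (by linarith) hX0.le
  have hκ : 0 ≤ δ + 60 * T ^ 2 / Real.sqrt J := by positivity
  have e1 := det hg hX (U := X) (V := 2 * X') (by linarith) (by linarith) (by linarith) hR hT hJ
    hδ0 hδ1 h1 h2 hH hHR
  have e2 := det hg hX (U := X') (V := 2 * X) (by linarith) (by linarith) (by linarith) hR hT hJ
    hδ0 hδ1 h1 h3 hH hHR
  exact trans hg (by linarith) hH hτ0 hτ1 hY hY' hτ hκ e1 e2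

end Pool.Agent.H18.RM

end

section

/-!
# RG Net: Borel-Cantelli along the net `⌈ρ^i⌉, ⌈ρ^j⌉`

Hypothesis `hphi` is the conclusion of `phiS`/`phiL` together.  Fix `ρ > 1`, `ε > 0`.
`U i = ⌈ρ^i⌉₊`.  For `i` large and `j` with `1 ≤ U j ≤ U i / (log U i)^10` (so `j ≤ i`)
Chebyshev: `P(‖φ - c‖ ≥ ε) ≤ K / (ε² (log U i)³)`, `log U i ≥ i log ρ`.
Sum over `j ≤ i` and `i`: finite.  Borel-Cantelli.
-/

set_option autoImplicit false

namespace Pool.Agent.H41.RG

open Finset MeasureTheory ProbabilityTheory Filter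
open Pool.Agent.H18.RM (IsSigns rmf)

theorem Net_cheb {Ω : Type*} [MeasurableSpace Ω] {P : Measure Ω} [IsProbabilityMeasure P]
    {e : ℕ → Ω → ℝ} (hs : IsSigns P e) {X : ℕ} (hX : 1 ≤ X) (h : ℕ) (θ c : ℝ) {B ε : ℝ}
    (hε : 0 < ε) (hB : ∫ ω, ‖phiD (rmf e ω) X h θ - ((c : ℝ) : ℂ)‖ ^ 2 ∂P ≤ B) :
    P {ω | ε < ‖phiD (rmf e ω) X h θ - ((c : ℝ) : ℂ)‖} ≤ ENNReal.ofReal (B / ε ^ 2) := by
  have hm : Measurable (fun ω => ‖phiD (rmf e ω) X h θ - ((c : ℝ) : ℂ)‖ ^ 2) :=
    (((measurable_phiD hs X h θ).sub_const _).norm).pow_const 2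
  have hint : Integrable (fun ω => ‖phiD (rmf e ω) X h θ - ((c : ℝ) : ℂ)‖ ^ 2) P := by
    refine Integrable.of_bound hm.aestronglyMeasurable ((1 + |c|) ^ 2)
      (Eventually.of_forall fun ω => ?_)
    rw [Real.norm_eq_abs, abs_of_nonneg (by positivity)]
    apply pow_le_pow_left₀ (norm_nonneg _)
    refine (norm_sub_le _ _).trans ?_
    rw [Complex.norm_real, Real.norm_eq_abs]
    have := norm_phiD_le (rmf e ω) hX h θ
    linarith
  have h1 := mul_meas_ge_le_integral_of_nonneg (μ := P)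
    (f := fun ω => ‖phiD (rmf e ω) X h θ - ((c : ℝ) : ℂ)‖ ^ 2)
    (Eventually.of_forall fun ω => by positivity) hint (ε ^ 2)
  have h2 : P.real {ω | ε ^ 2 ≤ ‖phiD (rmf e ω) X h θ - ((c : ℝ) : ℂ)‖ ^ 2} ≤ B / ε ^ 2 := by
    rw [le_div_iff₀ (by positivity), mul_comm]
    exact h1.trans hB
  calc P {ω | ε < ‖phiD (rmf e ω) X h θ - ((c : ℝ) : ℂ)‖}
      ≤ P {ω | ε ^ 2 ≤ ‖phiD (rmf e ω) X h θ - ((c : ℝ) : ℂ)‖ ^ 2} := by
        apply measure_mono
        intro ω hω
        exact pow_le_pow_left₀ hε.le (le_of_lt hω) 2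
    _ ≤ ENNReal.ofReal (B / ε ^ 2) := by
        rw [← ofReal_measureReal (measure_ne_top P _)]
        exact ENNReal.ofReal_le_ofReal h2

theorem Net_sum {ρ K ε : ℝ} (hρ : 1 < ρ) (i0 : ℕ) (hi0 : 1 ≤ i0) :
    Summable (fun i : ℕ => if i0 ≤ i then
      ((i : ℝ) + 1) * (K / ((i : ℝ) * Real.log ρ) ^ 3 / ε ^ 2) else 0) := by
  have hl : 0 < Real.log ρ := Real.log_pos hρ
  have h1 : Summable (fun i : ℕ => 2 * |K / Real.log ρ ^ 3 / ε ^ 2| * (1 / (i : ℝ) ^ 2)) :=
    (Real.summable_one_div_nat_pow.2 (by norm_num)).mul_left _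
  refine Summable.of_norm_bounded h1 fun i => ?_
  split_ifs with hi
  · have hi1 : (1 : ℝ) ≤ i := by exact_mod_cast hi0.trans hi
    have hi2 : (0 : ℝ) < i := by linarith
    rw [Real.norm_eq_abs]
    have h2 : ((i : ℝ) + 1) * (K / ((i : ℝ) * Real.log ρ) ^ 3 / ε ^ 2) =
        (((i : ℝ) + 1) / (i : ℝ) ^ 3) * (K / Real.log ρ ^ 3 / ε ^ 2) := by
      rw [mul_pow]
      field_simp
    rw [h2, abs_mul, abs_of_pos (by positivity)]
    have h3 : ((i : ℝ) + 1) / (i : ℝ) ^ 3 ≤ 2 * (1 / (i : ℝ) ^ 2) := by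
      rw [div_le_iff₀ (by positivity)]
      have : 2 * (1 / (i : ℝ) ^ 2) * (i : ℝ) ^ 3 = 2 * i := by
        field_simp
      rw [this]
      linarith
    calc ((i : ℝ) + 1) / (i : ℝ) ^ 3 * |K / Real.log ρ ^ 3 / ε ^ 2|
        ≤ 2 * (1 / (i : ℝ) ^ 2) * |K / Real.log ρ ^ 3 / ε ^ 2| :=
          mul_le_mul_of_nonneg_right h3 (abs_nonneg _)
      _ = _ := by ring
  · simp only [norm_zero]
    positivity

theorem net_ae {Ω : Type*} [MeasurableSpace Ω] {P : Measure Ω} [IsProbabilityMeasure P]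
    {e : ℕ → Ω → ℝ} (hs : IsSigns P e) (t : ℝ) {K : ℝ} (hK : 0 ≤ K)
    (hphi : ∀ᶠ X : ℕ in atTop, ∀ h : ℕ, 1 ≤ h → (h : ℝ) ≤ X / Real.log X ^ 10 →
      ∃ c : ℝ, |c - Real.exp (-t ^ 2 / 2)| ≤ K / Real.sqrt h ∧
      ∫ ω, ‖phiD (rmf e ω) X h (t / sg (2 * h)) - ((c : ℝ) : ℂ)‖ ^ 2 ∂P ≤ K / Real.log X ^ 3)
    {ρ ε : ℝ} (hρ : 1 < ρ) (hε : 0 < ε) :
    ∀ᵐ ω ∂P, ∀ᶠ i : ℕ in atTop, ∀ j : ℕ, ((⌈ρ ^ j⌉₊ : ℕ) : ℝ) ≤
      (⌈ρ ^ i⌉₊ : ℕ) / Real.log (⌈ρ ^ i⌉₊ : ℕ) ^ 10 →
      ‖phiD (rmf e ω) ⌈ρ ^ i⌉₊ ⌈ρ ^ j⌉₊ (t / sg (2 * (⌈ρ ^ j⌉₊ : ℕ))) -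
        ((Real.exp (-t ^ 2 / 2) : ℝ) : ℂ)‖ ≤ ε + K / Real.sqrt (⌈ρ ^ j⌉₊ : ℕ) := by
  have hl : 0 < Real.log ρ := Real.log_pos hρ
  have hUt : Tendsto (fun i : ℕ => ⌈ρ ^ i⌉₊) atTop atTop :=
    tendsto_nat_ceil_atTop.comp (tendsto_pow_atTop_atTop_of_one_lt hρ)
  have hev := hUt.eventually hphi
  have hlt : Tendsto (fun i : ℕ => (i : ℝ) * Real.log ρ) atTop atTop :=
    tendsto_natCast_atTop_atTop.atTop_mul_const hl
  have hUlog : ∀ i : ℕ, (i : ℝ) * Real.log ρ ≤ Real.log (⌈ρ ^ i⌉₊ : ℕ) := by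
    intro i
    rw [← Real.log_pow]
    exact Real.log_le_log (by positivity) (Nat.le_ceil _)
  obtain ⟨i1, hi1⟩ := eventually_atTop.1 (hev.and (hlt.eventually_ge_atTop 2))
  set i0 := max 1 i1 with hi0def
  have hphi' : ∀ i, i0 ≤ i → ∀ h : ℕ, 1 ≤ h →
      (h : ℝ) ≤ (⌈ρ ^ i⌉₊ : ℕ) / Real.log (⌈ρ ^ i⌉₊ : ℕ) ^ 10 →
      ∃ c : ℝ, |c - Real.exp (-t ^ 2 / 2)| ≤ K / Real.sqrt h ∧
      ∫ ω, ‖phiD (rmf e ω) ⌈ρ ^ i⌉₊ h (t / sg (2 * h)) - ((c : ℝ) : ℂ)‖ ^ 2 ∂P ≤
        K / Real.log (⌈ρ ^ i⌉₊ : ℕ) ^ 3 := fun i hi =>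
    (hi1 i ((le_max_right _ _).trans hi)).1
  -- the constants
  have hch : ∀ i h : ℕ, ∃ c : ℝ, i0 ≤ i → 1 ≤ h →
      (h : ℝ) ≤ (⌈ρ ^ i⌉₊ : ℕ) / Real.log (⌈ρ ^ i⌉₊ : ℕ) ^ 10 →
      |c - Real.exp (-t ^ 2 / 2)| ≤ K / Real.sqrt h ∧
      ∫ ω, ‖phiD (rmf e ω) ⌈ρ ^ i⌉₊ h (t / sg (2 * h)) - ((c : ℝ) : ℂ)‖ ^ 2 ∂P ≤
        K / Real.log (⌈ρ ^ i⌉₊ : ℕ) ^ 3 := by
    intro i h
    by_cases hc : i0 ≤ i ∧ 1 ≤ h ∧ (h : ℝ) ≤ (⌈ρ ^ i⌉₊ : ℕ) / Real.log (⌈ρ ^ i⌉₊ : ℕ) ^ 10
    · obtain ⟨c, hc'⟩ := hphi' i hc.1 h hc.2.1 hc.2.2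
      exact ⟨c, fun _ _ _ => hc'⟩
    · exact ⟨0, fun a b c => absurd ⟨a, b, c⟩ hc⟩
  choose c hc using hch
  -- the bad events
  set bad : ℕ → ℕ → Set Ω := fun i j => {ω | ((⌈ρ ^ j⌉₊ : ℕ) : ℝ) ≤
      (⌈ρ ^ i⌉₊ : ℕ) / Real.log (⌈ρ ^ i⌉₊ : ℕ) ^ 10 ∧
      ε < ‖phiD (rmf e ω) ⌈ρ ^ i⌉₊ ⌈ρ ^ j⌉₊ (t / sg (2 * (⌈ρ ^ j⌉₊ : ℕ))) -
        ((c i ⌈ρ ^ j⌉₊ : ℝ) : ℂ)‖} with hbad
  set s : ℕ → Set Ω := fun i => if i0 ≤ i then ⋃ j ∈ range (i + 1), bad i j else ∅ with hsdef
  have hU1 : ∀ j : ℕ, 1 ≤ ⌈ρ ^ j⌉₊ := fun j => Nat.one_le_iff_ne_zero.2 (by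
    have : 0 < ρ ^ j := by positivity
    have := Nat.ceil_pos.2 this
    omega)
  have hP : ∀ i, P (s i) ≤ ENNReal.ofReal (if i0 ≤ i then
      ((i : ℝ) + 1) * (K / ((i : ℝ) * Real.log ρ) ^ 3 / ε ^ 2) else 0) := by
    intro i
    by_cases hi : i0 ≤ i
    · simp only [hsdef, if_pos hi]
      have hi1' : (1 : ℝ) ≤ i := by exact_mod_cast (le_max_left _ _).trans hi
      have hpos : 0 < (i : ℝ) * Real.log ρ := by positivity
      have hone : ∀ j ∈ range (i + 1), P (bad i j) ≤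
          ENNReal.ofReal (K / ((i : ℝ) * Real.log ρ) ^ 3 / ε ^ 2) := by
        intro j _
        by_cases hv : ((⌈ρ ^ j⌉₊ : ℕ) : ℝ) ≤ (⌈ρ ^ i⌉₊ : ℕ) / Real.log (⌈ρ ^ i⌉₊ : ℕ) ^ 10
        · have h1 := Net_cheb hs (hU1 i) ⌈ρ ^ j⌉₊ (t / sg (2 * (⌈ρ ^ j⌉₊ : ℕ)))
            (c i ⌈ρ ^ j⌉₊) hε (hc i _ hi (hU1 j) hv).2
          refine (measure_mono ?_).trans (h1.trans (ENNReal.ofReal_le_ofReal ?_))
          · intro ω hω
            exact hω.2
          · apply div_le_div_of_nonneg_right _ (by positivity)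
            apply div_le_div_of_nonneg_left hK (by positivity)
            exact pow_le_pow_left₀ hpos.le (hUlog i) 3
        · have : bad i j = ∅ := by
            ext ω
            simp only [hbad, Set.mem_setOf_eq, Set.mem_empty_iff_false, iff_false, not_and]
            intro h
            exact absurd h hv
          rw [this, measure_empty]
          exact bot_le
      calc P (⋃ j ∈ range (i + 1), bad i j) ≤ ∑ j ∈ range (i + 1), P (bad i j) :=
            measure_biUnion_finset_le _ _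
        _ ≤ ∑ j ∈ range (i + 1), ENNReal.ofReal (K / ((i : ℝ) * Real.log ρ) ^ 3 / ε ^ 2) :=
            Finset.sum_le_sum hone
        _ = ENNReal.ofReal (((i : ℝ) + 1) * (K / ((i : ℝ) * Real.log ρ) ^ 3 / ε ^ 2)) := by
            rw [Finset.sum_const, card_range, nsmul_eq_mul, ENNReal.ofReal_mul (by positivity)]
            congr 1
            rw [ENNReal.ofReal_add (by positivity) (by norm_num), ENNReal.ofReal_natCast,
              ENNReal.ofReal_one]
            push_cast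
            rfl
        _ = _ := rfl
    · simp only [hsdef, if_neg hi, measure_empty]
      exact bot_le
  have hsum : ∑' i, P (s i) ≠ ⊤ := by
    refine ne_top_of_le_ne_top ?_ (ENNReal.tsum_le_tsum hP)
    exact (Net_sum (K := K) (ε := ε) hρ i0 (le_max_left _ _)).tsum_ofReal_ne_top
  filter_upwards [ae_eventually_notMem hsum] with ω hω
  filter_upwards [hω, eventually_ge_atTop i0] with i h1 h2
  intro j hv
  have hi1' : (1 : ℝ) ≤ i := by exact_mod_cast (le_max_left _ _).trans h2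
  -- `j ≤ i`
  have hji : j ≤ i := by
    by_contra hcon
    push Not at hcon
    have hL : 2 ≤ Real.log (⌈ρ ^ i⌉₊ : ℕ) :=
      ((hi1 i ((le_max_right _ _).trans h2)).2).trans (hUlog i)
    have hL10 : (2 : ℝ) ≤ Real.log (⌈ρ ^ i⌉₊ : ℕ) ^ 10 := by
      calc (2 : ℝ) ≤ 2 ^ 10 := by norm_num
        _ ≤ _ := pow_le_pow_left₀ (by norm_num) hL 10
    have hA : ρ ^ i < ρ ^ j := pow_lt_pow_right₀ hρ hcon
    have hB : ρ ^ j ≤ (⌈ρ ^ j⌉₊ : ℕ) := Nat.le_ceil _
    have hC : ((⌈ρ ^ i⌉₊ : ℕ) : ℝ) < ρ ^ i + 1 := Nat.ceil_lt_add_one (by positivity)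
    have hD : (1 : ℝ) ≤ ρ ^ i := one_le_pow₀ hρ.le
    have hE : ((⌈ρ ^ i⌉₊ : ℕ) : ℝ) / Real.log (⌈ρ ^ i⌉₊ : ℕ) ^ 10 ≤ (⌈ρ ^ i⌉₊ : ℕ) / 2 :=
      div_le_div_of_nonneg_left (by positivity) (by norm_num) hL10
    linarith
  have h3 : ω ∉ bad i j := by
    intro h4
    apply h1
    simp only [hsdef, if_pos h2]
    exact Set.mem_biUnion (mem_coe.2 (mem_range.2 (by omega))) h4
  have h5 : ‖phiD (rmf e ω) ⌈ρ ^ i⌉₊ ⌈ρ ^ j⌉₊ (t / sg (2 * (⌈ρ ^ j⌉₊ : ℕ))) -
        ((c i ⌈ρ ^ j⌉₊ : ℝ) : ℂ)‖ ≤ ε := by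
    by_contra h6
    push Not at h6
    exact h3 ⟨hv, h6⟩
  have h7 := (hc i _ h2 (hU1 j) hv).1
  have h8 : phiD (rmf e ω) ⌈ρ ^ i⌉₊ ⌈ρ ^ j⌉₊ (t / sg (2 * (⌈ρ ^ j⌉₊ : ℕ))) -
        ((Real.exp (-t ^ 2 / 2) : ℝ) : ℂ) =
      (phiD (rmf e ω) ⌈ρ ^ i⌉₊ ⌈ρ ^ j⌉₊ (t / sg (2 * (⌈ρ ^ j⌉₊ : ℕ))) -
        ((c i ⌈ρ ^ j⌉₊ : ℝ) : ℂ)) + ((c i ⌈ρ ^ j⌉₊ - Real.exp (-t ^ 2 / 2) : ℝ) : ℂ) := by
    push_cast
    ring
  rw [h8]
  refine (norm_add_le _ _).trans (add_le_add h5 ?_)
  rw [Complex.norm_real, Real.norm_eq_abs]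
  exact h7

end Pool.Agent.H41.RG

end

section

/-!
# RG LevyA: from characteristic functions to distribution functions (deterministic)

`phi_lip`: `‖phiC g X H t - phiC g X H t'‖ ≤ |t - t'| (1/X) ∫ |M|/σ ≤ |t - t'| √(V)/σ`.

`levy`: let `X_n > 0`, `H_n > 0` be sequences with `phiC g X_n H_n t → exp(-t²/2)` for all `t`.  The
law `μ_n` of `x ↦ MR g x H_n / sg H_n` under the uniform probability on `[X_n, 2 X_n]` is a
probability measure with characteristic function `phiC g X_n H_n`; it converges weakly to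
`gaussianReal 0 1`, so `μ_n (Iic u) → gaussianReal 0 1 (Iic u)` (portmanteau).
-/

set_option autoImplicit false

namespace Pool.Agent.H41.RG

open Finset MeasureTheory ProbabilityTheory Filter

theorem LevyA_MC (g : ℕ → ℝ) (x H : ℝ) :
    Pool.Agent.H18.RM.MC (fun n => (g n : ℂ)) x H = ((MR g x H : ℝ) : ℂ) := by
  unfold Pool.Agent.H18.RM.MC MR
  push_cast
  rfl

theorem measurable_MR (g : ℕ → ℝ) {H : ℝ} (hH : 0 < H) : Measurable (fun x => MR g x H) := by
  have h1 := Pool.Agent.H18.RM.measurable_MC (fun n => (g n : ℂ)) hH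
  have h2 : (fun x => MR g x H) =
      fun x => (Pool.Agent.H18.RM.MC (fun n => (g n : ℂ)) x H).re := by
    funext x
    rw [LevyA_MC, Complex.ofReal_re]
  rw [h2]
  exact Complex.measurable_re.comp h1

theorem LevyA_bdd {g : ℕ → ℝ} (hg : ∀ n, |g n| ≤ 1) {H : ℝ} (hH : 0 < H) (x : ℝ) :
    |MR g x H| ≤ H + 1 := by
  have h := Pool.Agent.H18.RM.norm_MC_le (g := fun n => (g n : ℂ))
    (fun n => by rw [Complex.norm_real]; exact hg n) hH x
  rw [LevyA_MC, Complex.norm_real] at h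
  exact h

theorem LevyA_int {g : ℕ → ℝ} (hg : ∀ n, |g n| ≤ 1) {H : ℝ} (hH : 0 < H) (a b : ℝ) :
    IntervalIntegrable (fun x => |MR g x H|) volume a b := by
  have : IsFiniteMeasure (volume.restrict (Set.uIoc a b)) := by
    constructor
    rw [Measure.restrict_apply_univ, Set.uIoc]
    exact measure_Ioc_lt_top
  rw [intervalIntegrable_iff]
  refine Integrable.of_bound (measurable_MR g hH).abs.aestronglyMeasurable (H + 1) ?_
  refine Eventually.of_forall fun x => ?_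
  rw [Real.norm_eq_abs, abs_abs]
  exact LevyA_bdd hg hH x

theorem LevyA_int2 {g : ℕ → ℝ} (hg : ∀ n, |g n| ≤ 1) {H : ℝ} (hH : 0 < H) (a b : ℝ) :
    IntervalIntegrable (fun x => (MR g x H) ^ 2) volume a b := by
  have : IsFiniteMeasure (volume.restrict (Set.uIoc a b)) := by
    constructor
    rw [Measure.restrict_apply_univ, Set.uIoc]
    exact measure_Ioc_lt_top
  rw [intervalIntegrable_iff]
  refine Integrable.of_bound ((measurable_MR g hH).pow_const 2).aestronglyMeasurable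
    ((H + 1) ^ 2) ?_
  refine Eventually.of_forall fun x => ?_
  rw [Real.norm_eq_abs, abs_pow]
  exact pow_le_pow_left₀ (abs_nonneg _) (LevyA_bdd hg hH x) 2

theorem LevyA_l1 {g : ℕ → ℝ} (hg : ∀ n, |g n| ≤ 1) {X H A : ℝ} (hX : 1 ≤ X) (hH : 1 ≤ H)
    (hA : ∫ x in X..2 * X, (MR g x H) ^ 2 ≤ A ^ 2 * X * sg H ^ 2) (hA0 : 0 ≤ A) :
    ∫ x in X..2 * X, |MR g x H| ≤ A * X * sg H := by
  have hH0 : 0 < H := by linarith
  have hX0 : 0 < X := by linarith
  have hs : 0 < sg H := by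
    unfold sg
    positivity
  have h1 : ∀ l : ℝ, 0 < l → ∫ x in X..2 * X, |MR g x H| ≤
      X * l / 2 + (A ^ 2 * X * sg H ^ 2) / (2 * l) := by
    intro l hl
    have h2 : ∫ x in X..2 * X, |MR g x H| ≤
        ∫ x in X..2 * X, (l / 2 + (MR g x H) ^ 2 / (2 * l)) := by
      apply intervalIntegral.integral_mono_on (by linarith) (LevyA_int hg hH0 _ _)
        ((intervalIntegrable_const).add ((LevyA_int2 hg hH0 _ _).div_const _))
      intro x _
      have h3 : 0 ≤ (|MR g x H| - l) ^ 2 / (2 * l) := by positivity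
      have h4 : (|MR g x H| - l) ^ 2 / (2 * l) =
          l / 2 + (MR g x H) ^ 2 / (2 * l) - |MR g x H| := by
        rw [← sq_abs (MR g x H)]
        field_simp
        ring
      linarith
    refine h2.trans ?_
    rw [intervalIntegral.integral_add intervalIntegrable_const
      ((LevyA_int2 hg hH0 _ _).div_const _), intervalIntegral.integral_const,
      intervalIntegral.integral_div]
    have h5 : (2 * X - X) • (l / 2) = X * l / 2 := by
      rw [smul_eq_mul]
      ring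
    rw [h5]
    have h6 : (∫ x in X..2 * X, (MR g x H) ^ 2) / (2 * l) ≤
        (A ^ 2 * X * sg H ^ 2) / (2 * l) := div_le_div_of_nonneg_right hA (by positivity)
    linarith
  rcases hA0.eq_or_lt with h0 | h0
  · rw [← h0]
    simp only [zero_mul]
    refine le_of_forall_pos_le_add fun ε hε => ?_
    have := h1 (2 * ε / X) (by positivity)
    rw [← h0] at this
    simp only [ne_eq, OfNat.ofNat_ne_zero, not_false_eq_true, zero_pow, zero_mul, zero_div,
      add_zero] at this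
    refine this.trans (le_of_eq ?_)
    field_simp
    ring
  · refine (h1 (A * sg H) (by positivity)).trans (le_of_eq ?_)
    field_simp
    ring

theorem LevyA_exp (a b : ℝ) :
    ‖Complex.exp (Complex.I * (a : ℂ)) - Complex.exp (Complex.I * (b : ℂ))‖ ≤ |a - b| := by
  have h1 : Complex.exp (Complex.I * (a : ℂ)) - Complex.exp (Complex.I * (b : ℂ)) =
      Complex.exp (Complex.I * (b : ℂ)) * (Complex.exp (Complex.I * ((a - b : ℝ) : ℂ)) - 1) := by
    rw [mul_sub, ← Complex.exp_add, mul_one]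
    congr 2
    push_cast
    ring
  rw [h1, norm_mul, mul_comm Complex.I, Complex.norm_exp_ofReal_mul_I, one_mul]
  exact Real.norm_exp_I_mul_ofReal_sub_one_le

theorem phi_lip {g : ℕ → ℝ} (hg : ∀ n, |g n| ≤ 1) {X H A : ℝ} (hX : 1 ≤ X) (hH : 1 ≤ H)
    (hA : ∫ x in X..2 * X, (MR g x H) ^ 2 ≤ A ^ 2 * X * sg H ^ 2) (hA0 : 0 ≤ A) (t t' : ℝ) :
    ‖phiC g X H t - phiC g X H t'‖ ≤ |t - t'| * A := by
  have hH0 : 0 < H := by linarith
  have hX0 : 0 < X := by linarith
  have hs : 0 < sg H := by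
    unfold sg
    positivity
  have hint : ∀ s : ℝ, IntervalIntegrable
      (fun x => Complex.exp (Complex.I * ((s * (MR g x H / sg H) : ℝ) : ℂ))) volume X (2 * X) := by
    intro s
    have : IsFiniteMeasure (volume.restrict (Set.uIoc X (2 * X))) := by
      constructor
      rw [Measure.restrict_apply_univ, Set.uIoc]
      exact measure_Ioc_lt_top
    rw [intervalIntegrable_iff]
    have hm := measurable_MR g hH0
    refine Integrable.of_bound (C := 1) ?_ (Eventually.of_forall fun x => ?_)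
    · exact (by fun_prop : Measurable fun x =>
        Complex.exp (Complex.I * ((s * (MR g x H / sg H) : ℝ) : ℂ))).aestronglyMeasurable
    · rw [mul_comm Complex.I, Complex.norm_exp_ofReal_mul_I]
  unfold phiC
  rw [← mul_sub, ← intervalIntegral.integral_sub (hint t) (hint t'), norm_mul]
  have h1 : ‖∫ x in X..2 * X, (Complex.exp (Complex.I * ((t * (MR g x H / sg H) : ℝ) : ℂ)) -
      Complex.exp (Complex.I * ((t' * (MR g x H / sg H) : ℝ) : ℂ)))‖ ≤
      ∫ x in X..2 * X, |t - t'| / sg H * |MR g x H| := by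
    apply intervalIntegral.norm_integral_le_of_norm_le (by linarith)
    · refine Eventually.of_forall fun x _ => ?_
      refine (LevyA_exp _ _).trans (le_of_eq ?_)
      rw [← sub_mul, abs_mul, abs_div, abs_of_pos hs]
      ring
    · exact (LevyA_int hg hH0 _ _).const_mul _
  rw [intervalIntegral.integral_const_mul] at h1
  have h2 := LevyA_l1 hg hX hH hA hA0
  have h3 : ‖(1 / (X : ℂ))‖ = 1 / X := by
    rw [norm_div, norm_one, Complex.norm_real, Real.norm_eq_abs, abs_of_pos hX0]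
  rw [h3]
  calc 1 / X * _ ≤ 1 / X * (|t - t'| / sg H * ∫ x in X..2 * X, |MR g x H|) :=
        mul_le_mul_of_nonneg_left h1 (by positivity)
    _ ≤ 1 / X * (|t - t'| / sg H * (A * X * sg H)) := by
        apply mul_le_mul_of_nonneg_left _ (by positivity)
        exact mul_le_mul_of_nonneg_left h2 (by positivity)
    _ = |t - t'| * A := by
        field_simp

/-- the uniform probability on `[X, 2X]` -/
noncomputable def LevyA_U (X : ℝ) : Measure ℝ :=
  (ENNReal.ofReal (1 / X)) • volume.restrict (Set.Icc X (2 * X))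

theorem LevyA_U_prob {X : ℝ} (hX : 0 < X) : IsProbabilityMeasure (LevyA_U X) := by
  constructor
  unfold LevyA_U
  rw [Measure.smul_apply, Measure.restrict_apply_univ, Real.volume_Icc, smul_eq_mul,
    ← ENNReal.ofReal_mul (by positivity)]
  have : 1 / X * (2 * X - X) = 1 := by
    field_simp
    ring
  rw [this, ENNReal.ofReal_one]

theorem levy {g : ℕ → ℝ} (hg : ∀ n, |g n| ≤ 1) (X H : ℕ → ℝ) (hX : ∀ n, 1 ≤ X n)
    (hH : ∀ n, 1 ≤ H n)
    (hphi : ∀ t : ℝ, Tendsto (fun n => phiC g (X n) (H n) t) atTop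
      (nhds ((Real.exp (-t ^ 2 / 2) : ℝ) : ℂ))) (u : ℝ) :
    Tendsto (fun n => (1 / X n) *
      volume.real {x : ℝ | X n ≤ x ∧ x ≤ 2 * X n ∧ MR g x (H n) ≤ u * sg (H n)}) atTop
      (nhds ((gaussianReal 0 1).real (Set.Iic u))) := by
  have hX0 : ∀ n, 0 < X n := fun n => lt_of_lt_of_le one_pos (hX n)
  have hH0 : ∀ n, 0 < H n := fun n => lt_of_lt_of_le one_pos (hH n)
  have hs : ∀ n, 0 < sg (H n) := fun n => by
    have := hH0 n
    unfold sg
    positivity
  have hmeas : ∀ n, Measurable (fun x => MR g x (H n) / sg (H n)) := fun n =>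
    (measurable_MR g (hH0 n)).div_const _
  have hU : ∀ n, IsProbabilityMeasure (LevyA_U (X n)) := fun n => LevyA_U_prob (hX0 n)
  let μ : ℕ → ProbabilityMeasure ℝ := fun n =>
    ⟨Measure.map (fun x => MR g x (H n) / sg (H n)) (LevyA_U (X n)),
      Measure.isProbabilityMeasure_map (hmeas n).aemeasurable⟩
  let μ0 : ProbabilityMeasure ℝ := ⟨gaussianReal 0 1, inferInstance⟩
  have hchar : ∀ n t, charFun (μ n : Measure ℝ) t = phiC g (X n) (H n) t := by
    intro n t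
    rw [charFun_apply_real]
    change ∫ x, _ ∂(Measure.map (fun x => MR g x (H n) / sg (H n)) (LevyA_U (X n))) = _
    rw [integral_map (hmeas n).aemeasurable (by
      exact (by fun_prop : Measurable fun x : ℝ =>
        Complex.exp (t * x * Complex.I)).aestronglyMeasurable)]
    unfold LevyA_U phiC
    rw [integral_smul_measure, intervalIntegral.integral_of_le (by linarith [hX0 n]),
      integral_Icc_eq_integral_Ioc, ENNReal.toReal_ofReal (by have := hX0 n; positivity),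
      Complex.real_smul]
    congr 1
    · push_cast
      rfl
    · apply integral_congr_ae
      refine Eventually.of_forall fun x => ?_
      simp only
      congr 1
      push_cast
      ring
  have hlim : Tendsto μ atTop (nhds μ0) := by
    apply ProbabilityMeasure.tendsto_of_tendsto_charFun
    intro t
    simp_rw [hchar]
    have h0 : charFun (μ0 : Measure ℝ) t = ((Real.exp (-t ^ 2 / 2) : ℝ) : ℂ) := by
      change charFun (gaussianReal 0 1) t = _
      rw [charFun_gaussianReal]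
      push_cast
      congr 1
      simp
      ring
    rw [h0]
    exact hphi t
  have hfr : (μ0 : Measure ℝ) (frontier (Set.Iic u)) = 0 := by
    rw [frontier_Iic]
    change gaussianReal 0 1 {u} = 0
    have := nullSingletonClass_gaussianReal (μ := 0) (v := 1) one_ne_zero
    exact measure_singleton u
  have h1 := ProbabilityMeasure.tendsto_measure_of_null_frontier_of_tendsto' hlim hfr
  have h2 : Tendsto (fun n => ((μ n : Measure ℝ) (Set.Iic u)).toReal) atTop
      (nhds ((gaussianReal 0 1).real (Set.Iic u))) :=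
    (ENNReal.tendsto_toReal (measure_ne_top _ _)).comp h1
  refine h2.congr fun n => ?_
  change ((Measure.map (fun x => MR g x (H n) / sg (H n)) (LevyA_U (X n))) (Set.Iic u)).toReal = _
  rw [Measure.map_apply (hmeas n) measurableSet_Iic]
  unfold LevyA_U
  rw [Measure.smul_apply, smul_eq_mul, ENNReal.toReal_mul,
    ENNReal.toReal_ofReal (by have := hX0 n; positivity),
    Measure.restrict_apply (hmeas n measurableSet_Iic), measureReal_def]
  congr 3
  ext x
  simp only [Set.mem_inter_iff, Set.mem_preimage, Set.mem_Iic, Set.mem_Icc, Set.mem_setOf_eq,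
    div_le_iff₀ (hs n)]
  tauto

end Pool.Agent.H41.RG

end
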