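import Pool.Agent.H47.B1.H91.PK.Msq
import Pool.Agent.H47.B1.M05

/-! The parts of this file: H18.RM.CountS, H41.RG.CountQ4, H41.RG.AvgA, H41.RG.AvgB, H41.RG.Char0, H41.RG.BridgeA, H41.RG.Mom, H41.RG.Char, H18.RM.ProbA, H18.RM.BadA, H18.RM.SeqA. -/

section

/-!
# Quadruples with square product

`SQ Y h` is the set of the quadruples `((n,m),(n',m'))` of squarefree numbers in `[Y, 20Y]` with
`n ≠ m`, `n' ≠ m'`, `|n - m| ≤ h`, `|n' - m'| ≤ h` and `n m n' m'` a square.  Claim: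
`#SQ ≤ C Y h (1 + log (20Y))^4`.

Proof.  Write `g = gcd(n,m)`, `n = g a`, `m = g b`, `g' = gcd(n',m')`, `n' = g' a'`, `m' = g' b'`.
`a, b` are coprime and squarefree (divisors of squarefree numbers), so `ab` is squarefree, and so is
`a'b'`; as `n m n' m' = (g g')² (ab)(a'b')` is a square, `(ab)(a'b')` is a square, hence
`ab = a'b'`.  `g` divides `n - m ≠ 0`, so `g ≤ h`; `g² ab = nm ≥ Y²` and `g'² a'b' = n'm' ≤ 400 Y²`
give `g' ≤ 20 g`.  The quadruple is determined by `(g, a, b, a', g')`, where `a'` is a divisor of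
`ab`: the number of quadruples with given `g` is at most
`20 g ∑_{a ≠ b, a,b ≤ 20Y/g, |a-b| ≤ h/g} τ(ab)` and `τ(ab) ≤ τ(a)τ(b) ≤ (τ(a)²+τ(b)²)/2`, so (for
given `a` there are at most `2h/g` values `b ≠ a` with `|a-b| ≤ h/g`) at most
`20 g (2h/g) ∑_{a ≤ 20Y/g} τ(a)² ≤ 40 h (20Y/g) (1 + log (20Y))³`
(`Pool.Agent.H91.PK`: `Msq_tau_sq`).  Sum over `g ≤ 20Y`.
-/

set_option autoImplicit false

namespace Pool.Agent.H18.RM

open Finset

def SQ (Y h : ℕ) : Finset ((ℕ × ℕ) × (ℕ × ℕ)) :=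
  (((Icc Y (20 * Y)) ×ˢ (Icc Y (20 * Y))) ×ˢ ((Icc Y (20 * Y)) ×ˢ (Icc Y (20 * Y)))).filter
    (fun t => (Squarefree t.1.1 ∧ Squarefree t.1.2 ∧ Squarefree t.2.1 ∧ Squarefree t.2.2) ∧
      (t.1.1 ≠ t.1.2 ∧ t.2.1 ≠ t.2.2) ∧
      (|(t.1.1 : ℤ) - t.1.2| ≤ h ∧ |(t.2.1 : ℤ) - t.2.2| ≤ h) ∧
      IsSquare (t.1.1 * t.1.2 * (t.2.1 * t.2.2)))

/-- a square times a number being a square, the number is a square -/
theorem CountS_sq_of_mul {k x : ℕ} (hk : 0 < k) (h : IsSquare (k ^ 2 * x)) : IsSquare x := by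
  obtain ⟨y, hy⟩ := h
  have h1 : k ^ 2 ∣ y ^ 2 := ⟨x, by rw [hy]; ring⟩
  have h2 : k ∣ y := (Nat.pow_dvd_pow_iff (by norm_num)).1 h1
  obtain ⟨z, rfl⟩ := h2
  refine ⟨z, ?_⟩
  have : k ^ 2 * x = k ^ 2 * (z * z) := by rw [hy]; ring
  exact Nat.eq_of_mul_eq_mul_left (by positivity) this

/-- two squarefree numbers with square product are equal -/
theorem CountS_eq {u v : ℕ} (hu : Squarefree u) (hv : Squarefree v) (h : IsSquare (u * v)) :
    u = v := by
  obtain ⟨w, hw⟩ := h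
  have hu0 : u ≠ 0 := hu.ne_zero
  have hv0 : v ≠ 0 := hv.ne_zero
  have hw0 : w ≠ 0 := by
    rintro rfl
    simp at hw
    tauto
  apply Nat.eq_of_factorization_eq hu0 hv0
  intro p
  have h1 := hu.natFactorization_le_one p
  have h2 := hv.natFactorization_le_one p
  have h3 : (u * v).factorization p = (w * w).factorization p := by rw [hw]
  rw [Nat.factorization_mul hu0 hv0, Nat.factorization_mul hw0 hw0] at h3
  simp only [Finsupp.add_apply] at h3
  omega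

/-- the cofactors of the gcd of two squarefree numbers have squarefree product -/
theorem CountS_cof {n m : ℕ} (hn : Squarefree n) (hm : Squarefree m) :
    Squarefree (n / n.gcd m * (m / n.gcd m)) := by
  have hn0 : 0 < n := Nat.pos_of_ne_zero hn.ne_zero
  have hg : 0 < n.gcd m := Nat.gcd_pos_of_pos_left _ hn0
  rw [Nat.squarefree_mul (Nat.coprime_div_gcd_div_gcd hg)]
  exact ⟨hn.squarefree_of_dvd (Nat.div_dvd_of_dvd (Nat.gcd_dvd_left _ _)),
    hm.squarefree_of_dvd (Nat.div_dvd_of_dvd (Nat.gcd_dvd_right _ _))⟩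

/-- the pairs `(a, b)` for given `g` -/
def CountS_P (Y h g : ℕ) : Finset (ℕ × ℕ) :=
  ((Icc 1 (20 * Y / g)) ×ˢ (Icc 1 (20 * Y / g))).filter
    (fun p => p.1 ≠ p.2 ∧ |(p.1 : ℤ) - p.2| * g ≤ h)

/-- the parameter set -/
def CountS_T (Y h : ℕ) : Finset (Σ _ : ℕ, Σ _ : ℕ × ℕ, ℕ × ℕ) :=
  (Icc 1 (20 * Y)).sigma (fun g => (CountS_P Y h g).sigma
    (fun p => (p.1 * p.2).divisors ×ˢ Icc 1 (20 * g)))

theorem CountS_card_T (Y h : ℕ) : (CountS_T Y h).card =
    ∑ g ∈ Icc 1 (20 * Y), ∑ p ∈ CountS_P Y h g, (p.1 * p.2).divisors.card * (20 * g) := by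
  unfold CountS_T
  rw [card_sigma]
  refine sum_congr rfl (fun g _ => ?_)
  rw [card_sigma]
  refine sum_congr rfl (fun p _ => ?_)
  rw [card_product]
  simp

/-- the main injection -/
theorem CountS_inj (Y h : ℕ) (hY : 1 ≤ Y) : (SQ Y h).card ≤ (CountS_T Y h).card := by
  classical
  refine Finset.card_le_card_of_injOn
    (fun t => ⟨t.1.1.gcd t.1.2, ⟨(t.1.1 / t.1.1.gcd t.1.2, t.1.2 / t.1.1.gcd t.1.2),
      (t.2.1 / t.2.1.gcd t.2.2, t.2.1.gcd t.2.2)⟩⟩) ?_ ?_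
  · rintro ⟨⟨n, m⟩, ⟨n', m'⟩⟩ ht
    simp only [SQ, coe_filter, mem_product, mem_Icc, Set.mem_ofPred_eq] at ht
    obtain ⟨⟨⟨⟨h1, h2⟩, h3, h4⟩, ⟨h5, h6⟩, h7, h8⟩, ⟨s1, s2, s3, s4⟩, ⟨d1, d2⟩, ⟨e1, e2⟩, hs⟩ := ht
    have hn0 : 0 < n := by omega
    have hn0' : 0 < n' := by omega
    set g := n.gcd m with hg
    set g' := n'.gcd m' with hg'
    have hg0 : 0 < g := Nat.gcd_pos_of_pos_left _ hn0
    have hg0' : 0 < g' := Nat.gcd_pos_of_pos_left _ hn0'
    have hcof := CountS_cof s1 s2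
    have hcof' := CountS_cof s3 s4
    rw [← hg] at hcof
    rw [← hg'] at hcof'
    obtain ⟨a, ha⟩ := Nat.gcd_dvd_left n m
    obtain ⟨b, hb⟩ := Nat.gcd_dvd_right n m
    obtain ⟨a', ha'⟩ := Nat.gcd_dvd_left n' m'
    obtain ⟨b', hb'⟩ := Nat.gcd_dvd_right n' m'
    rw [← hg] at ha hb
    rw [← hg'] at ha' hb'
    have qa : n / g = a := by
      conv_lhs => rw [ha]
      exact Nat.mul_div_cancel_left a hg0
    have qb : m / g = b := by
      conv_lhs => rw [hb]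
      exact Nat.mul_div_cancel_left b hg0
    have qa' : n' / g' = a' := by
      conv_lhs => rw [ha']
      exact Nat.mul_div_cancel_left a' hg0'
    have qb' : m' / g' = b' := by
      conv_lhs => rw [hb']
      exact Nat.mul_div_cancel_left b' hg0'
    rw [qa, qb] at hcof
    rw [qa', qb'] at hcof'
    have hab : a * b = a' * b' := by
      apply CountS_eq hcof hcof'
      apply CountS_sq_of_mul (k := g * g') (Nat.mul_pos hg0 hg0')
      have : (g * g') ^ 2 * (a * b * (a' * b')) = n * m * (n' * m') := by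
        rw [ha, hb, ha', hb']; ring
      rw [this]
      exact hs
    have hab0 : 0 < a * b := Nat.pos_of_ne_zero hcof.ne_zero
    have ha0 : 0 < a := Nat.pos_of_mul_pos_right hab0
    have hb0 : 0 < b := Nat.pos_of_mul_pos_left hab0
    simp only [CountS_T, coe_sigma, Set.mem_sigma_iff, mem_coe, mem_Icc, mem_product, CountS_P,
      coe_product, coe_filter, Set.mem_ofPred_eq, Nat.mem_divisors, Set.mem_prod, coe_Icc,
      Set.mem_Icc]
    rw [qa, qb, qa']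
    refine ⟨⟨hg0, ?_⟩, ⟨⟨⟨ha0, ?_⟩, hb0, ?_⟩, ?_, ?_⟩, ⟨?_, hab0.ne'⟩, hg0', ?_⟩
    · exact (Nat.le_of_dvd hn0 (Nat.gcd_dvd_left _ _)).trans h2
    · rw [Nat.le_div_iff_mul_le hg0, mul_comm, ← ha]
      exact h2
    · rw [Nat.le_div_iff_mul_le hg0, mul_comm, ← hb]
      exact h4
    · intro he
      apply d1
      rw [ha, hb, he]
    · have : |(a : ℤ) - b| * g = |(n : ℤ) - m| := by
        have e : (n : ℤ) - m = ((a : ℤ) - b) * g := by
          have e1 : (n : ℤ) = g * a := by exact_mod_cast ha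
          have e2 : (m : ℤ) = g * b := by exact_mod_cast hb
          rw [e1, e2]; ring
        rw [e, abs_mul]
        congr 1
        simp
      rw [this]
      exact e1
    · rw [hab]
      exact Dvd.intro _ rfl
    · have k1 : Y ^ 2 ≤ g ^ 2 * (a * b) := by
        have : Y * Y ≤ n * m := Nat.mul_le_mul h1 h3
        calc Y ^ 2 = Y * Y := by ring
          _ ≤ n * m := this
          _ = g ^ 2 * (a * b) := by rw [ha, hb]; ring
      have k2 : g' ^ 2 * (a * b) ≤ 400 * Y ^ 2 := by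
        have : n' * m' ≤ (20 * Y) * (20 * Y) := Nat.mul_le_mul h6 h8
        calc g' ^ 2 * (a * b) = n' * m' := by rw [hab, ha', hb']; ring
          _ ≤ (20 * Y) * (20 * Y) := this
          _ = 400 * Y ^ 2 := by ring
      have k3 : g' ^ 2 * (a * b) ≤ (20 * g) ^ 2 * (a * b) := by
        calc g' ^ 2 * (a * b) ≤ 400 * Y ^ 2 := k2
          _ ≤ 400 * (g ^ 2 * (a * b)) := Nat.mul_le_mul_left _ k1
          _ = (20 * g) ^ 2 * (a * b) := by ring
      have k4 : g' ^ 2 ≤ (20 * g) ^ 2 := Nat.le_of_mul_le_mul_right k3 hab0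
      exact (Nat.pow_le_pow_iff_left (by norm_num)).1 k4
  · rintro ⟨⟨n, m⟩, ⟨n', m'⟩⟩ ht ⟨⟨p, q⟩, ⟨p', q'⟩⟩ hu heq
    simp only [SQ, coe_filter, mem_product, mem_Icc, Set.mem_ofPred_eq] at ht hu
    obtain ⟨⟨⟨⟨h1, h2⟩, h3, h4⟩, ⟨h5, h6⟩, h7, h8⟩, ⟨s1, s2, s3, s4⟩, ⟨d1, d2⟩, ⟨e1, e2⟩, hs⟩ := ht
    obtain ⟨⟨⟨⟨h1', h2'⟩, h3', h4'⟩, ⟨h5', h6'⟩, h7', h8'⟩, ⟨s1', s2', s3', s4'⟩, ⟨d1', d2'⟩,
      ⟨e1', e2'⟩, hs'⟩ := hu
    simp only [Sigma.mk.injEq, heq_eq_eq, Prod.mk.injEq] at heq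
    obtain ⟨f1, ⟨f2, f3⟩, f4, f5⟩ := heq
    have key : ∀ {x y z w : ℕ}, Squarefree x → Squarefree y → Squarefree z → Squarefree w →
        IsSquare (x * y * (z * w)) →
        (x / x.gcd y) * (y / x.gcd y) = (z / z.gcd w) * (w / z.gcd w) := by
      intro x y z w hx hy hz hw hsq
      have hx0 : 0 < x := Nat.pos_of_ne_zero hx.ne_zero
      have hz0 : 0 < z := Nat.pos_of_ne_zero hz.ne_zero
      have hg0 : 0 < x.gcd y := Nat.gcd_pos_of_pos_left _ hx0
      have hg0' : 0 < z.gcd w := Nat.gcd_pos_of_pos_left _ hz0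
      apply CountS_eq (CountS_cof hx hy) (CountS_cof hz hw)
      apply CountS_sq_of_mul (k := x.gcd y * z.gcd w) (Nat.mul_pos hg0 hg0')
      have e : (x.gcd y * z.gcd w) ^ 2 * (x / x.gcd y * (y / x.gcd y) *
          (z / z.gcd w * (w / z.gcd w))) = x * y * (z * w) := by
        have a1 := Nat.mul_div_cancel' (Nat.gcd_dvd_left x y)
        have a2 := Nat.mul_div_cancel' (Nat.gcd_dvd_right x y)
        have a3 := Nat.mul_div_cancel' (Nat.gcd_dvd_left z w)
        have a4 := Nat.mul_div_cancel' (Nat.gcd_dvd_right z w)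
        calc _ = (x.gcd y * (x / x.gcd y)) * (x.gcd y * (y / x.gcd y)) *
            ((z.gcd w * (z / z.gcd w)) * (z.gcd w * (w / z.gcd w))) := by ring
          _ = _ := by rw [a1, a2, a3, a4]
      rw [e]
      exact hsq
    have k1 := key s1 s2 s3 s4 hs
    have k2 := key s1' s2' s3' s4' hs'
    have hn : n = p := by
      rw [← Nat.mul_div_cancel' (Nat.gcd_dvd_left n m), ← Nat.mul_div_cancel' (Nat.gcd_dvd_left p q),
        f2, f1]
    have hm : m = q := by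
      rw [← Nat.mul_div_cancel' (Nat.gcd_dvd_right n m),
        ← Nat.mul_div_cancel' (Nat.gcd_dvd_right p q), f3, f1]
    have hn' : n' = p' := by
      rw [← Nat.mul_div_cancel' (Nat.gcd_dvd_left n' m'),
        ← Nat.mul_div_cancel' (Nat.gcd_dvd_left p' q'), f4, f5]
    have hq0 : 0 < p' / p'.gcd q' := by
      have hp0 : 0 < p' := by omega
      exact Nat.div_pos (Nat.le_of_dvd hp0 (Nat.gcd_dvd_left _ _)) (Nat.gcd_pos_of_pos_left _ hp0)
    have hb' : m' / n'.gcd m' = q' / p'.gcd q' := by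
      rw [f2, f3, k2, f4] at k1
      exact (Nat.eq_of_mul_eq_mul_left hq0 k1).symm
    have hm' : m' = q' := by
      rw [← Nat.mul_div_cancel' (Nat.gcd_dvd_right n' m'),
        ← Nat.mul_div_cancel' (Nat.gcd_dvd_right p' q'), hb', f5]
    rw [hn, hm, hn', hm']

/-- the number of `b ≠ a` close to `a` -/
theorem CountS_close (M a h g : ℕ) (hg : 1 ≤ g) :
    (((Icc 1 M).filter (fun b : ℕ => a ≠ b ∧ |(a : ℤ) - b| * g ≤ h)).card : ℝ) ≤
      2 * ((h : ℝ) / g) := by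
  have h1 : ((Icc 1 M).filter (fun b : ℕ => a ≠ b ∧ |(a : ℤ) - b| * g ≤ h)).card ≤
      ((Icc ((a : ℤ) - (h / g : ℕ)) ((a : ℤ) + (h / g : ℕ))).erase (a : ℤ)).card := by
    refine Finset.card_le_card_of_injOn (fun b : ℕ => (b : ℤ)) ?_ ?_
    · intro b hb
      simp only [coe_filter, mem_Icc, Set.mem_ofPred_eq] at hb
      obtain ⟨-, hb1, hb2⟩ := hb
      have hab : |(a : ℤ) - b| ≤ (h / g : ℕ) := by
        have : (a - b : ℤ).natAbs * g ≤ h := by
          have e : ((a - b : ℤ).natAbs : ℤ) = |(a : ℤ) - b| := Int.natCast_natAbs _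
          zify
          exact hb2
        have h3 : (a - b : ℤ).natAbs ≤ h / g := (Nat.le_div_iff_mul_le (by omega)).2 this
        have e : ((a - b : ℤ).natAbs : ℤ) = |(a : ℤ) - b| := Int.natCast_natAbs _
        rw [← e]
        exact_mod_cast h3
      rw [abs_le] at hab
      simp only [coe_erase, coe_Icc, Set.mem_sdiff, Set.mem_Icc, Set.mem_singleton_iff]
      refine ⟨⟨by linarith [hab.2], by linarith [hab.1]⟩, ?_⟩
      intro h5
      apply hb1
      exact_mod_cast h5.symm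
    · intro b _ c _ hbc
      simpa using hbc
  have h2 : ((Icc ((a : ℤ) - (h / g : ℕ)) ((a : ℤ) + (h / g : ℕ))).erase (a : ℤ)).card =
      2 * (h / g) := by
    rw [card_erase_of_mem, Int.card_Icc]
    · omega
    · rw [mem_Icc]
      constructor <;> linarith [Int.natCast_nonneg (h / g)]
  rw [h2] at h1
  have h3 : ((h / g : ℕ) : ℝ) ≤ (h : ℝ) / g := Nat.cast_div_le
  calc _ ≤ ((2 * (h / g) : ℕ) : ℝ) := by exact_mod_cast h1
    _ = 2 * ((h / g : ℕ) : ℝ) := by push_cast; ring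
    _ ≤ _ := by linarith

/-- the sum over the pairs for given `g` -/
theorem CountS_pairs (Y h g : ℕ) (hg : 1 ≤ g) (hgY : g ≤ 20 * Y) :
    ∑ p ∈ CountS_P Y h g, ((p.1 * p.2).divisors.card : ℝ) ≤
      2 * ((h : ℝ) / g) * ((20 * Y / g : ℕ) * (Real.log (20 * Y / g : ℕ) + 1) ^ 3) := by
  have hM : 1 ≤ 20 * Y / g := Nat.div_pos hgY hg
  set M := 20 * Y / g with hMdef
  have hts := Pool.Agent.H91.PK.Msq_tau_sq M hM
  have h0 : (0 : ℝ) ≤ (h : ℝ) / g := by positivity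
  have hterm : ∀ p : ℕ × ℕ, ((p.1 * p.2).divisors.card : ℝ) ≤
      (1 / 2) * (p.1.divisors.card : ℝ) ^ 2 + (1 / 2) * (p.2.divisors.card : ℝ) ^ 2 := by
    intro p
    have h2 : (p.1 * p.2).divisors.card ≤ p.1.divisors.card * p.2.divisors.card := by
      rw [Nat.divisors_mul]
      exact card_mul_le
    have h3 : ((p.1 * p.2).divisors.card : ℝ) ≤ p.1.divisors.card * p.2.divisors.card := by
      exact_mod_cast h2
    nlinarith [sq_nonneg ((p.1.divisors.card : ℝ) - p.2.divisors.card)]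
  have hA : ∑ p ∈ CountS_P Y h g, (p.1.divisors.card : ℝ) ^ 2 ≤
      2 * ((h : ℝ) / g) * ∑ a ∈ Icc 1 M, (a.divisors.card : ℝ) ^ 2 := by
    unfold CountS_P
    rw [sum_filter, sum_product, mul_sum]
    refine sum_le_sum (fun a _ => ?_)
    rw [← sum_filter]
    dsimp only
    rw [sum_const, nsmul_eq_mul]
    have := CountS_close M a h g hg
    exact mul_le_mul_of_nonneg_right this (by positivity)
  have hB : ∑ p ∈ CountS_P Y h g, (p.2.divisors.card : ℝ) ^ 2 ≤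
      2 * ((h : ℝ) / g) * ∑ a ∈ Icc 1 M, (a.divisors.card : ℝ) ^ 2 := by
    unfold CountS_P
    rw [sum_filter, sum_product_right, mul_sum]
    refine sum_le_sum (fun b _ => ?_)
    rw [← sum_filter]
    dsimp only
    rw [sum_const, nsmul_eq_mul]
    have h1 := CountS_close M b h g hg
    have h2 : (Icc 1 M).filter (fun a : ℕ => a ≠ b ∧ |(a : ℤ) - b| * g ≤ h) =
        (Icc 1 M).filter (fun a : ℕ => b ≠ a ∧ |(b : ℤ) - a| * g ≤ h) := by
      apply filter_congr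
      intro a _
      rw [abs_sub_comm, ne_comm]
    rw [← hMdef, h2]
    exact mul_le_mul_of_nonneg_right h1 (by positivity)
  calc ∑ p ∈ CountS_P Y h g, ((p.1 * p.2).divisors.card : ℝ)
      ≤ ∑ p ∈ CountS_P Y h g, ((1 / 2) * (p.1.divisors.card : ℝ) ^ 2 +
          (1 / 2) * (p.2.divisors.card : ℝ) ^ 2) := sum_le_sum (fun p _ => hterm p)
    _ = (1 / 2) * ∑ p ∈ CountS_P Y h g, (p.1.divisors.card : ℝ) ^ 2 +
          (1 / 2) * ∑ p ∈ CountS_P Y h g, (p.2.divisors.card : ℝ) ^ 2 := by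
        rw [sum_add_distrib, mul_sum, mul_sum]
    _ ≤ 2 * ((h : ℝ) / g) * ∑ a ∈ Icc 1 M, (a.divisors.card : ℝ) ^ 2 := by linarith
    _ ≤ _ := mul_le_mul_of_nonneg_left hts (by positivity)

theorem card_SQ : ∃ C : ℝ, 0 < C ∧ ∀ Y h : ℕ, 1 ≤ Y → 1 ≤ h →
    ((SQ Y h).card : ℝ) ≤ C * Y * h * (1 + Real.log (20 * Y)) ^ 4 := by
  refine ⟨800, by norm_num, fun Y h hY hh => ?_⟩
  have hY0 : (0 : ℝ) < Y := by exact_mod_cast hY
  have hY1 : (1 : ℝ) ≤ Y := by exact_mod_cast hY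
  have hlog : 0 ≤ Real.log (20 * Y) := Real.log_nonneg (by linarith)
  have h1 : ((SQ Y h).card : ℝ) ≤ ((CountS_T Y h).card : ℝ) := by
    exact_mod_cast CountS_inj Y h hY
  rw [CountS_card_T] at h1
  refine h1.trans ?_
  push_cast
  have h2 : ∀ g ∈ Icc 1 (20 * Y), ∑ p ∈ CountS_P Y h g,
      ((p.1 * p.2).divisors.card : ℝ) * (20 * (g : ℝ)) ≤
      800 * Y * h * (1 + Real.log (20 * Y)) ^ 3 * (1 / (g : ℝ)) := by
    intro g hg
    rw [mem_Icc] at hg
    have hg0 : (0 : ℝ) < g := by exact_mod_cast hg.1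
    rw [← sum_mul]
    have h3 := CountS_pairs Y h g hg.1 hg.2
    have hM : 1 ≤ 20 * Y / g := Nat.div_pos hg.2 hg.1
    have hM1 : (1 : ℝ) ≤ ((20 * Y / g : ℕ) : ℝ) := by exact_mod_cast hM
    have h4 : ((20 * Y / g : ℕ) : ℝ) ≤ (20 * Y : ℝ) / g := by
      have : ((20 * Y / g : ℕ) : ℝ) ≤ ((20 * Y : ℕ) : ℝ) / g := Nat.cast_div_le
      simpa using this
    have h5 : ((20 * Y / g : ℕ) : ℝ) ≤ (20 * Y : ℝ) := by
      have : 20 * Y / g ≤ 20 * Y := Nat.div_le_self _ _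
      exact_mod_cast this
    have h6 : Real.log (20 * Y / g : ℕ) ≤ Real.log (20 * Y) :=
      Real.log_le_log (by linarith) h5
    have h7 : 0 ≤ Real.log (20 * Y / g : ℕ) := Real.log_nonneg hM1
    have h8 : (Real.log (20 * Y / g : ℕ) + 1) ^ 3 ≤ (1 + Real.log (20 * Y)) ^ 3 := by
      apply pow_le_pow_left₀ (by linarith)
      linarith
    calc (∑ p ∈ CountS_P Y h g, ((p.1 * p.2).divisors.card : ℝ)) * (20 * (g : ℝ))
        ≤ (2 * ((h : ℝ) / g) * ((20 * Y / g : ℕ) * (Real.log (20 * Y / g : ℕ) + 1) ^ 3)) *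
            (20 * (g : ℝ)) := mul_le_mul_of_nonneg_right h3 (by positivity)
      _ ≤ (2 * ((h : ℝ) / g) * ((20 * Y : ℝ) / g * (1 + Real.log (20 * Y)) ^ 3)) *
            (20 * (g : ℝ)) := by
          apply mul_le_mul_of_nonneg_right _ (by positivity)
          apply mul_le_mul_of_nonneg_left _ (by positivity)
          exact mul_le_mul h4 h8 (by positivity) (by positivity)
      _ = 800 * Y * h * (1 + Real.log (20 * Y)) ^ 3 * (1 / (g : ℝ)) := by
          field_simp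
          ring
  refine (sum_le_sum h2).trans ?_
  rw [← mul_sum]
  have h9 := Pool.Agent.H91.PK.Msq_harmonic (20 * Y)
  push_cast at h9
  calc 800 * (Y : ℝ) * h * (1 + Real.log (20 * Y)) ^ 3 * ∑ g ∈ Icc 1 (20 * Y), (1 / (g : ℝ))
      ≤ 800 * (Y : ℝ) * h * (1 + Real.log (20 * Y)) ^ 3 * (1 + Real.log (20 * Y)) :=
        mul_le_mul_of_nonneg_left h9 (by positivity)
    _ = _ := by ring

end Pool.Agent.H18.RM

end

section

/-!
# RG CountQ4: four different numbers in a short interval with square product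

`#SQ4 Y h ≤ C h² (1 + log (20Y))^4` for `1 ≤ h ≤ Y`.

Proof (compare `H18/RM/CountS`).  Let `((n,m),(n',m')) ∈ SQ4`, `g = gcd(n,m)`, `g' = gcd(n',m')`,
`n = g a`, `m = g b`, `n' = g' a'`, `m' = g' b'`: `a, b` coprime squarefree, so `ab` is squarefree, the
same for `a'b'`, and `(ab)(a'b')` is a square, so `ab = a'b'` (`CountS_eq`).  Put `a1 = gcd(a, a')`,
`a2 = a / a1`, `b1 = a' / a1`, `b2 = b / b1`; since `a' ∣ a b` and `gcd(a'/a1, a/a1) = 1`, `b1 ∣ b`, and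
`n = g a1 a2`, `m = g b1 b2`, `n' = g' a1 b1`, `m' = g' a2 b2`.
Closeness: `(g/g')² = nm/(n'm')`, `(a1/b2)² = nn'/(mm')`, `(a2/b1)² = nm'/(mn')`.  All four numbers are
`≥ Y` and within `h ≤ Y` of each other, so the ratio of two of them is in `[1/2, 2]` and differs from
`1` by at most `h/Y`; hence `|g - g'| ≤ 8 g h / Y` (crude constant), `|a1 - b2| ≤ 8 a1 h / Y`,
`|a2 - b1| ≤ 8 a2 h / Y`.
At most one of the equalities `g = g'`, `a1 = b2`, `a2 = b1` holds: `a1 = b2` divides both `a` and `b`,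
which are coprime, so `a1 = b2 = 1`; likewise `a2 = b1 = 1`.  If `g = g'` and `a1 = b2 = 1` then
`n = g a2 = m'`, contradiction; if `g = g'` and `a2 = b1 = 1` then `n = g a1 = n'`, contradiction;
if `a1 = b2 = 1`, `a2 = b1 = 1` then `n = m`.
Count: the quadruple is determined by `(g, a1, a2, g', b2, b1)`.  Given `(g, a1, a2)` with product
`n ≤ 20 Y` the number of `u' ≠ u` with `|u' - u| ≤ 8 u h/Y` is `≤ E(u) := 16 u h / Y`, so the number of
`(g', b2, b1)` with at most one equality is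
`≤ E(g)E(a1)(1+E(a2)) + E(g)E(a2)(1+E(a1)) + E(a1)E(a2)(1+E(g)) ≤ 3 (16 h/Y)² 17 (g a1 a2)
 ≤ 3 · 256 · 17 · 20 h²/Y` (using `1 + E(u) ≤ 17 u`).  The number of triples `(g, a1, a2)` with
product `≤ 20 Y` is `≤ 20 Y (1 + log 20Y)²` (`∑_{g ≤ M} ∑_{a ≤ M/g} M/(g a)`; `Msq_harmonic` in
`Pool.Agent.H91.PK`: `∑_{g ≤ M} 1/g ≤ 1 + log M`).
-/

set_option autoImplicit false

namespace Pool.Agent.H41.RG

open Finset

/-- the radius of the window around `u` -/
def CountQ4_k (Y h u : ℕ) : ℕ := 3 * u * h / Y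

def CountQ4_E (Y h u : ℕ) : Finset ℕ := Icc (u - CountQ4_k Y h u) (u + CountQ4_k Y h u)

def CountQ4_D (Y h u : ℕ) : Finset ℕ := (CountQ4_E Y h u).erase u

def CountQ4_U (M : ℕ) : Finset (Σ _ : ℕ, Σ _ : ℕ, ℕ) :=
  (Icc 1 M).sigma (fun u => (Icc 1 M).sigma (fun v => Icc 1 (M / (u * v))))

def CountQ4_V (Y h : ℕ) (u : Σ _ : ℕ, Σ _ : ℕ, ℕ) : Finset (ℕ × ℕ × ℕ) :=
  (CountQ4_D Y h u.1 ×ˢ CountQ4_D Y h u.2.1 ×ˢ CountQ4_E Y h u.2.2) ∪
    ((CountQ4_D Y h u.1 ×ˢ CountQ4_E Y h u.2.1 ×ˢ CountQ4_D Y h u.2.2) ∪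
      (CountQ4_E Y h u.1 ×ˢ CountQ4_D Y h u.2.1 ×ˢ CountQ4_D Y h u.2.2))

def CountQ4_phi (t : Σ _ : (Σ _ : ℕ, Σ _ : ℕ, ℕ), ℕ × ℕ × ℕ) : (ℕ × ℕ) × (ℕ × ℕ) :=
  ((t.1.1 * (t.1.2.1 * t.1.2.2), t.1.1 * (t.2.2.2 * t.2.2.1)),
    (t.2.1 * (t.1.2.1 * t.2.2.2), t.2.1 * (t.1.2.2 * t.2.2.1)))

theorem CountQ4_mem_E {Y h u v : ℕ} (hY : 1 ≤ Y) (hd : |(u : ℤ) - v| * Y ≤ 3 * u * h) :
    v ∈ CountQ4_E Y h u := by
  unfold CountQ4_E CountQ4_k
  set k := 3 * u * h / Y with hk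
  have key : ∀ d : ℕ, d * Y ≤ 3 * u * h → d ≤ k := fun d hd => by
    rw [hk, Nat.le_div_iff_mul_le (by omega)]
    exact hd
  rw [mem_Icc]
  rcases le_total u v with hv | hv
  · have h1 : |(u : ℤ) - v| = ((v - u : ℕ) : ℤ) := by
      rw [Nat.cast_sub hv, abs_sub_comm, abs_of_nonneg]
      have : (u : ℤ) ≤ v := by exact_mod_cast hv
      linarith
    rw [h1] at hd
    have h2 : (v - u) * Y ≤ 3 * u * h := by exact_mod_cast hd
    have h3 := key _ h2
    omega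
  · have h1 : |(u : ℤ) - v| = ((u - v : ℕ) : ℤ) := by
      rw [Nat.cast_sub hv, abs_of_nonneg]
      have : (v : ℤ) ≤ u := by exact_mod_cast hv
      linarith
    rw [h1] at hd
    have h2 : (u - v) * Y ≤ 3 * u * h := by exact_mod_cast hd
    have h3 := key _ h2
    omega

theorem CountQ4_card_D (Y h u : ℕ) (hY : 1 ≤ Y) :
    ((CountQ4_D Y h u).card : ℝ) ≤ 6 * u * h / Y := by
  have h1 : (CountQ4_D Y h u).card ≤ 2 * CountQ4_k Y h u := by
    unfold CountQ4_D CountQ4_E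
    rw [card_erase_of_mem (by rw [mem_Icc]; omega), Nat.card_Icc]
    omega
  have h2 : ((CountQ4_k Y h u : ℕ) : ℝ) ≤ (3 * u * h : ℕ) / (Y : ℝ) := by
    unfold CountQ4_k
    exact Nat.cast_div_le
  have h3 : ((CountQ4_D Y h u).card : ℝ) ≤ 2 * (CountQ4_k Y h u : ℕ) := by exact_mod_cast h1
  refine h3.trans ?_
  push_cast at h2
  calc (2 : ℝ) * (CountQ4_k Y h u : ℕ) ≤ 2 * (3 * u * h / Y) := by linarith
    _ = 6 * u * h / Y := by ring

theorem CountQ4_card_E (Y h u : ℕ) (hY : 1 ≤ Y) (hh : h ≤ Y) (hu : 1 ≤ u) :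
    ((CountQ4_E Y h u).card : ℝ) ≤ 7 * u := by
  have h1 : (CountQ4_E Y h u).card ≤ (CountQ4_D Y h u).card + 1 := by
    unfold CountQ4_D
    rw [card_erase_of_mem (by unfold CountQ4_E; rw [mem_Icc]; omega)]
    omega
  have h2 : ((CountQ4_E Y h u).card : ℝ) ≤ (CountQ4_D Y h u).card + 1 := by exact_mod_cast h1
  have h3 := CountQ4_card_D Y h u hY
  have hY' : (0 : ℝ) < Y := by exact_mod_cast hY
  have hh' : (h : ℝ) ≤ Y := by exact_mod_cast hh
  have hu' : (1 : ℝ) ≤ u := by exact_mod_cast hu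
  have h4 : 6 * (u : ℝ) * h / Y ≤ 6 * u := by
    rw [div_le_iff₀ hY']
    nlinarith
  linarith

theorem CountQ4_card_V (Y h : ℕ) (u : Σ _ : ℕ, Σ _ : ℕ, ℕ) (hY : 1 ≤ Y) (hh : h ≤ Y)
    (h1 : 1 ≤ u.1) (h2 : 1 ≤ u.2.1) (h3 : 1 ≤ u.2.2) :
    ((CountQ4_V Y h u).card : ℝ) ≤ 756 * ((h : ℝ) / Y) ^ 2 * (u.1 * u.2.1 * u.2.2) := by
  obtain ⟨a, b, c⟩ := u
  simp only at h1 h2 h3
  have e1 := CountQ4_card_E Y h a hY hh h1
  have e2 := CountQ4_card_E Y h b hY hh h2
  have e3 := CountQ4_card_E Y h c hY hh h3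
  have d1 := CountQ4_card_D Y h a hY
  have d2 := CountQ4_card_D Y h b hY
  have d3 := CountQ4_card_D Y h c hY
  have hY' : (0 : ℝ) < Y := by exact_mod_cast hY
  have key : ((CountQ4_V Y h ⟨a, b, c⟩).card : ℝ) ≤
      (CountQ4_D Y h a).card * ((CountQ4_D Y h b).card * (CountQ4_E Y h c).card) +
      ((CountQ4_D Y h a).card * ((CountQ4_E Y h b).card * (CountQ4_D Y h c).card) +
      (CountQ4_E Y h a).card * ((CountQ4_D Y h b).card * (CountQ4_D Y h c).card)) := by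
    unfold CountQ4_V
    have k1 := card_union_le (CountQ4_D Y h a ×ˢ CountQ4_D Y h b ×ˢ CountQ4_E Y h c)
      ((CountQ4_D Y h a ×ˢ CountQ4_E Y h b ×ˢ CountQ4_D Y h c) ∪
      (CountQ4_E Y h a ×ˢ CountQ4_D Y h b ×ˢ CountQ4_D Y h c))
    have k2 := card_union_le (CountQ4_D Y h a ×ˢ CountQ4_E Y h b ×ˢ CountQ4_D Y h c)
      (CountQ4_E Y h a ×ˢ CountQ4_D Y h b ×ˢ CountQ4_D Y h c)
    simp only [card_product] at k1 k2
    exact_mod_cast k1.trans (Nat.add_le_add_left k2 _)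
  have ea : (0 : ℝ) ≤ a := Nat.cast_nonneg _
  have eb : (0 : ℝ) ≤ b := Nat.cast_nonneg _
  have ec : (0 : ℝ) ≤ c := Nat.cast_nonneg _
  have eh : (0 : ℝ) ≤ h := Nat.cast_nonneg _
  refine key.trans ?_
  have n1 : (0 : ℝ) ≤ (CountQ4_D Y h a).card := Nat.cast_nonneg _
  have n2 : (0 : ℝ) ≤ (CountQ4_D Y h b).card := Nat.cast_nonneg _
  have n3 : (0 : ℝ) ≤ (CountQ4_D Y h c).card := Nat.cast_nonneg _
  have m1 : (0 : ℝ) ≤ (CountQ4_E Y h a).card := Nat.cast_nonneg _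
  have m2 : (0 : ℝ) ≤ (CountQ4_E Y h b).card := Nat.cast_nonneg _
  have m3 : (0 : ℝ) ≤ (CountQ4_E Y h c).card := Nat.cast_nonneg _
  have q1 : ((CountQ4_D Y h a).card : ℝ) * ((CountQ4_D Y h b).card * (CountQ4_E Y h c).card) ≤
      (6 * a * h / Y) * ((6 * b * h / Y) * (7 * c)) := by gcongr
  have q2 : ((CountQ4_D Y h a).card : ℝ) * ((CountQ4_E Y h b).card * (CountQ4_D Y h c).card) ≤
      (6 * a * h / Y) * ((7 * b) * (6 * c * h / Y)) := by gcongr
  have q3 : ((CountQ4_E Y h a).card : ℝ) * ((CountQ4_D Y h b).card * (CountQ4_D Y h c).card) ≤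
      (7 * a) * ((6 * b * h / Y) * (6 * c * h / Y)) := by gcongr
  refine (add_le_add q1 (add_le_add q2 q3)).trans (le_of_eq ?_)
  field_simp
  ring

theorem CountQ4_card_U (M : ℕ) :
    ((CountQ4_U M).card : ℝ) ≤ M * (1 + Real.log M) ^ 2 := by
  unfold CountQ4_U
  rw [card_sigma]
  simp only [card_sigma, Nat.card_Icc, Nat.add_sub_cancel]
  push_cast
  have hM : (0 : ℝ) ≤ M := Nat.cast_nonneg _
  calc ∑ u ∈ Icc 1 M, ∑ v ∈ Icc 1 M, ((M / (u * v) : ℕ) : ℝ)
      ≤ ∑ u ∈ Icc 1 M, ∑ v ∈ Icc 1 M, (M : ℝ) * ((1 / (u : ℝ)) * (1 / (v : ℝ))) := by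
        refine sum_le_sum fun u _ => sum_le_sum fun v _ => ?_
        refine (Nat.cast_div_le).trans (le_of_eq ?_)
        push_cast
        rw [one_div, one_div, ← mul_inv, div_eq_mul_inv]
    _ = M * ((∑ u ∈ Icc 1 M, 1 / (u : ℝ)) * ∑ v ∈ Icc 1 M, 1 / (v : ℝ)) := by
        rw [sum_mul_sum, mul_sum]
        refine sum_congr rfl fun u _ => ?_
        rw [mul_sum]
    _ ≤ M * (1 + Real.log M) ^ 2 := by
        have h1 := Pool.Agent.H91.PK.Msq_harmonic M
        have h2 : (0 : ℝ) ≤ ∑ u ∈ Icc 1 M, 1 / (u : ℝ) := sum_nonneg fun u _ => by positivity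
        rw [pow_two]
        gcongr

/-- closeness of the square roots -/
theorem CountQ4_close {Y h u v K x y z w : ℕ} (hY : 1 ≤ Y) (hh : h ≤ Y)
    (e1 : u ^ 2 * K = x * y) (e2 : v ^ 2 * K = z * w)
    (hx : Y ≤ x) (hy : Y ≤ y) (hxz : |(x : ℤ) - z| ≤ h) (hyw : |(y : ℤ) - w| ≤ h) :
    |(u : ℤ) - v| * Y ≤ 3 * u * h := by
  have f1 : (u : ℤ) ^ 2 * K = x * y := by exact_mod_cast e1
  have f2 : (v : ℤ) ^ 2 * K = z * w := by exact_mod_cast e2
  have hu0 : (0 : ℤ) ≤ u := Int.natCast_nonneg _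
  have hv0 : (0 : ℤ) ≤ v := Int.natCast_nonneg _
  have hK0 : (0 : ℤ) ≤ K := Int.natCast_nonneg _
  have hh0 : (0 : ℤ) ≤ h := Int.natCast_nonneg _
  have hY0 : (1 : ℤ) ≤ Y := by exact_mod_cast hY
  have hx' : (Y : ℤ) ≤ x := by exact_mod_cast hx
  have hy' : (Y : ℤ) ≤ y := by exact_mod_cast hy
  have hh' : (h : ℤ) ≤ Y := by exact_mod_cast hh
  have hw0 : (0 : ℤ) ≤ w := Int.natCast_nonneg _
  have hx0 : (0 : ℤ) < x := by linarith
  have hy0 : (0 : ℤ) < y := by linarith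
  have hw2 : (w : ℤ) ≤ 2 * y := by
    have := (abs_le.1 hyw).1
    linarith
  have k1 : ((u : ℤ) - v) * ((u + v) * K) = x * (y - w) + w * (x - z) := by
    have : ((u : ℤ) - v) * ((u + v) * K) = u ^ 2 * K - v ^ 2 * K := by ring
    rw [this, f1, f2]
    ring
  have k2 : |(u : ℤ) - v| * ((u + v) * K) ≤ h * (x + w) := by
    have h1 : |((u : ℤ) - v) * ((u + v) * K)| = |(u : ℤ) - v| * ((u + v) * K) := by
      rw [abs_mul, abs_of_nonneg (a := ((u : ℤ) + v) * K) (by positivity)]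
    rw [← h1, k1]
    calc |(x : ℤ) * (y - w) + w * (x - z)| ≤ |(x : ℤ) * (y - w)| + |(w : ℤ) * (x - z)| :=
          abs_add_le _ _
      _ = x * |(y : ℤ) - w| + w * |(x : ℤ) - z| := by
          rw [abs_mul, abs_mul, abs_of_pos hx0, abs_of_nonneg hw0]
      _ ≤ x * h + w * h := by gcongr
      _ = h * (x + w) := by ring
  have k3 : |(u : ℤ) - v| * (u * K) ≤ h * (x + w) := by
    refine le_trans ?_ k2
    gcongr
    linarith
  have k4 : |(u : ℤ) - v| * (x * y) ≤ u * (h * (x + w)) := by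
    calc |(u : ℤ) - v| * (x * y) = u * (|(u : ℤ) - v| * (u * K)) := by rw [← f1]; ring
      _ ≤ u * (h * (x + w)) := by gcongr
  have k5 : ((x : ℤ) + w) * Y ≤ 3 * (x * y) := by
    nlinarith [mul_le_mul_of_nonneg_left hy' hx0.le, mul_le_mul_of_nonneg_left hx' hy0.le]
  have k6 : (|(u : ℤ) - v| * Y) * (x * y) ≤ (3 * u * h) * (x * y) := by
    calc (|(u : ℤ) - v| * Y) * (x * y) = (|(u : ℤ) - v| * (x * y)) * Y := by ring
      _ ≤ (u * (h * (x + w))) * Y := by gcongr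
      _ = (u * h) * ((x + w) * Y) := by ring
      _ ≤ (u * h) * (3 * (x * y)) := by gcongr
      _ = (3 * u * h) * (x * y) := by ring
  exact le_of_mul_le_mul_right k6 (mul_pos hx0 hy0)

theorem CountQ4_subset (Y h : ℕ) (hY : 1 ≤ Y) (hh : h ≤ Y) :
    SQ4 Y h ⊆ ((CountQ4_U (20 * Y)).sigma (fun u => CountQ4_V Y h u)).image CountQ4_phi := by
  classical
  rintro ⟨⟨n, m⟩, ⟨n', m'⟩⟩ ht
  simp only [SQ4, mem_filter, mem_product, mem_Icc] at ht
  obtain ⟨⟨⟨⟨h1, h2⟩, h3, h4⟩, ⟨h5, h6⟩, h7, h8⟩, ⟨s1, s2, s3, s4⟩, ⟨d1, d2, d3, d4, d5, d6⟩,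
    ⟨c1, c2, c3, c4, c5, c6⟩, hs⟩ := ht
  have hn0 : 0 < n := by omega
  have hm0 : 0 < m := by omega
  have hn0' : 0 < n' := by omega
  set g := n.gcd m with hg
  set g' := n'.gcd m' with hg'
  have hg0 : 0 < g := Nat.gcd_pos_of_pos_left _ hn0
  have hg0' : 0 < g' := Nat.gcd_pos_of_pos_left _ hn0'
  have hcof := Pool.Agent.H18.RM.CountS_cof s1 s2
  have hcof' := Pool.Agent.H18.RM.CountS_cof s3 s4
  have hcop : Nat.Coprime (n / g) (m / g) := Nat.coprime_div_gcd_div_gcd hg0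
  rw [← hg] at hcof
  rw [← hg'] at hcof'
  obtain ⟨a, ha⟩ := Nat.gcd_dvd_left n m
  obtain ⟨b, hb⟩ := Nat.gcd_dvd_right n m
  obtain ⟨a', ha'⟩ := Nat.gcd_dvd_left n' m'
  obtain ⟨b', hb'⟩ := Nat.gcd_dvd_right n' m'
  rw [← hg] at ha hb
  rw [← hg'] at ha' hb'
  have qa : n / g = a := by
    conv_lhs => rw [ha]
    exact Nat.mul_div_cancel_left a hg0
  have qb : m / g = b := by
    conv_lhs => rw [hb]
    exact Nat.mul_div_cancel_left b hg0
  have qa' : n' / g' = a' := by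
    conv_lhs => rw [ha']
    exact Nat.mul_div_cancel_left a' hg0'
  have qb' : m' / g' = b' := by
    conv_lhs => rw [hb']
    exact Nat.mul_div_cancel_left b' hg0'
  rw [qa, qb] at hcof hcop
  rw [qa', qb'] at hcof'
  have hab : a * b = a' * b' := by
    apply Pool.Agent.H18.RM.CountS_eq hcof hcof'
    apply Pool.Agent.H18.RM.CountS_sq_of_mul (k := g * g') (Nat.mul_pos hg0 hg0')
    have : (g * g') ^ 2 * (a * b * (a' * b')) = n * m * (n' * m') := by
      rw [ha, hb, ha', hb']; ring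
    rw [this]
    exact hs
  have hab0 : 0 < a * b := Nat.pos_of_ne_zero hcof.ne_zero
  have ha0 : 0 < a := Nat.pos_of_mul_pos_right hab0
  have hb0 : 0 < b := Nat.pos_of_mul_pos_left hab0
  clear_value g g'
  -- second factorization
  have hq0 : 0 < a.gcd a' := Nat.gcd_pos_of_pos_left _ ha0
  have hcop2 : Nat.Coprime (a / a.gcd a') (a' / a.gcd a') := Nat.coprime_div_gcd_div_gcd hq0
  obtain ⟨a2, ha2⟩ := Nat.gcd_dvd_left a a'
  obtain ⟨b1, hb1⟩ := Nat.gcd_dvd_right a a'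
  set a1 := a.gcd a' with ha1
  have r1 : a / a1 = a2 := by
    conv_lhs => rw [ha2]
    exact Nat.mul_div_cancel_left a2 hq0
  have r2 : a' / a1 = b1 := by
    conv_lhs => rw [hb1]
    exact Nat.mul_div_cancel_left b1 hq0
  rw [r1, r2] at hcop2
  clear_value a1
  have hd1 : a2 * b = b1 * b' := by
    apply Nat.eq_of_mul_eq_mul_left hq0
    calc a1 * (a2 * b) = a1 * a2 * b := by ring
      _ = a * b := by rw [← ha2]
      _ = a' * b' := hab
      _ = a1 * (b1 * b') := by rw [hb1]; ring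
  have hd2 : b1 ∣ b := by
    have : b1 ∣ a2 * b := ⟨b', hd1⟩
    exact (Nat.Coprime.symm hcop2).dvd_of_dvd_mul_left this
  obtain ⟨b2, hb2⟩ := hd2
  have hb10 : 0 < b1 := Nat.pos_of_ne_zero (by rintro rfl; simp at hb2; omega)
  have hb20 : 0 < b2 := Nat.pos_of_ne_zero (by rintro rfl; simp at hb2; omega)
  have ha20 : 0 < a2 := Nat.pos_of_ne_zero (by rintro rfl; simp at ha2; omega)
  have hd3 : b' = a2 * b2 := by
    apply Nat.eq_of_mul_eq_mul_left hb10
    rw [← hd1, hb2]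
    ring
  have en : n = g * (a1 * a2) := by rw [ha, ha2]
  have em : m = g * (b1 * b2) := by rw [hb, hb2]
  have en' : n' = g' * (a1 * b1) := by rw [ha', hb1]
  have em' : m' = g' * (a2 * b2) := by rw [hb', hd3]
  have hcop3 : Nat.Coprime (a1 * a2) (b1 * b2) := by rw [← ha2, ← hb2]; exact hcop
  rw [mem_image]
  refine ⟨⟨⟨g, a1, a2⟩, (g', b2, b1)⟩, ?_, ?_⟩
  · rw [mem_sigma]
    constructor
    · unfold CountQ4_U
      simp only [mem_sigma, mem_Icc]
      have hM : g * (a1 * a2) ≤ 20 * Y := by rw [← en]; exact h2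
      have hg1 : g ≤ g * (a1 * a2) := Nat.le_mul_of_pos_right _ (Nat.mul_pos hq0 ha20)
      have ha11 : a1 ≤ g * (a1 * a2) := by
        calc a1 ≤ a1 * (g * a2) := Nat.le_mul_of_pos_right _ (Nat.mul_pos hg0 ha20)
          _ = g * (a1 * a2) := by ring
      refine ⟨⟨hg0, by omega⟩, ⟨hq0, by omega⟩, ha20, ?_⟩
      rw [Nat.le_div_iff_mul_le (Nat.mul_pos hg0 hq0)]
      calc a2 * (g * a1) = g * (a1 * a2) := by ring
        _ ≤ 20 * Y := hM
    · -- the windows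
      have w1 : g' ∈ CountQ4_E Y h g := by
        refine CountQ4_mem_E hY (CountQ4_close (K := a1 * a2 * (b1 * b2)) hY hh (x := n) (y := m)
          (z := n') (w := m') ?_ ?_ h1 h3 c3 c6)
        · rw [en, em]; ring
        · rw [en', em']; ring
      have w2 : b2 ∈ CountQ4_E Y h a1 := by
        refine CountQ4_mem_E hY (CountQ4_close (K := g * g' * (a2 * b1)) hY hh (x := n) (y := n')
          (z := m) (w := m') ?_ ?_ h1 h5 c1 c2)
        · rw [en, en']; ring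
        · rw [em, em']; ring
      have w3 : b1 ∈ CountQ4_E Y h a2 := by
        refine CountQ4_mem_E hY (CountQ4_close (K := g * g' * (a1 * b2)) hY hh (x := n) (y := m')
          (z := m) (w := n') ?_ ?_ h1 h7 c1 ?_)
        · rw [en, em']; ring
        · rw [em, en']; ring
        · rw [abs_sub_comm]; exact c2
      have o1 : a1 = b2 → a1 = 1 := fun e => by
        have k1 : a1 ∣ 1 := by
          rw [← hcop3.gcd_eq_one]
          exact Nat.dvd_gcd (Dvd.intro _ rfl) (by rw [e]; exact Dvd.intro_left _ rfl)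
        exact Nat.dvd_one.1 k1
      have o2 : a2 = b1 → a2 = 1 := fun e => by
        have k1 : a2 ∣ 1 := by
          rw [← hcop3.gcd_eq_one]
          exact Nat.dvd_gcd (Dvd.intro_left _ rfl) (by rw [e]; exact Dvd.intro _ rfl)
        exact Nat.dvd_one.1 k1
      have p1 : ¬ (g = g' ∧ a1 = b2) := by
        rintro ⟨e1, e2⟩
        have e3 := o1 e2
        apply d4
        rw [en, em', ← e1, ← e2, e3]
        ring
      have p2 : ¬ (g = g' ∧ a2 = b1) := by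
        rintro ⟨e1, e2⟩
        have e3 := o2 e2
        apply d3
        rw [en, en', ← e1, ← e2]
      have p3 : ¬ (a1 = b2 ∧ a2 = b1) := by
        rintro ⟨e1, e2⟩
        apply d1
        rw [en, em, ← e1, ← e2]
        ring
      unfold CountQ4_V CountQ4_D
      simp only [mem_union, mem_product, mem_erase]
      by_cases z1 : g' = g
      · have z2 : b2 ≠ a1 := fun e => p1 ⟨z1.symm, e.symm⟩
        have z3 : b1 ≠ a2 := fun e => p2 ⟨z1.symm, e.symm⟩
        exact Or.inr (Or.inr ⟨w1, ⟨z2, w2⟩, z3, w3⟩)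
      · by_cases z2 : b2 = a1
        · have z3 : b1 ≠ a2 := fun e => p3 ⟨z2.symm, e.symm⟩
          exact Or.inr (Or.inl ⟨⟨z1, w1⟩, w2, z3, w3⟩)
        · exact Or.inl ⟨⟨z1, w1⟩, ⟨z2, w2⟩, w3⟩
  · unfold CountQ4_phi
    simp only
    rw [← en, ← em, ← en', ← em']

theorem card_SQ4 : ∃ C : ℝ, 0 < C ∧ ∀ Y h : ℕ, 1 ≤ Y → 1 ≤ h → h ≤ Y →
    ((SQ4 Y h).card : ℝ) ≤ C * (h : ℝ) ^ 2 * (1 + Real.log (20 * Y)) ^ 4 := by
  classical
  refine ⟨756 * 20 * 20, by norm_num, fun Y h hY hh0 hh => ?_⟩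
  have hY' : (0 : ℝ) < Y := by exact_mod_cast hY
  have hM1 : (1 : ℝ) ≤ 20 * Y := by
    have : (1 : ℝ) ≤ Y := by exact_mod_cast hY
    linarith
  have hlog : 0 ≤ Real.log (20 * Y) := Real.log_nonneg hM1
  have h1 : (SQ4 Y h).card ≤ ∑ u ∈ CountQ4_U (20 * Y), (CountQ4_V Y h u).card := by
    rw [← card_sigma]
    exact (card_le_card (CountQ4_subset Y h hY hh)).trans card_image_le
  have h2 : ((SQ4 Y h).card : ℝ) ≤ ∑ u ∈ CountQ4_U (20 * Y), ((CountQ4_V Y h u).card : ℝ) := by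
    exact_mod_cast h1
  refine h2.trans ?_
  have h3 : ∀ u ∈ CountQ4_U (20 * Y), ((CountQ4_V Y h u).card : ℝ) ≤
      756 * ((h : ℝ) / Y) ^ 2 * (20 * Y) := by
    intro u hu
    unfold CountQ4_U at hu
    simp only [mem_sigma, mem_Icc] at hu
    obtain ⟨⟨k1, _⟩, ⟨k2, _⟩, k3, k4⟩ := hu
    refine (CountQ4_card_V Y h u hY hh k1 k2 k3).trans ?_
    have k5 : u.1 * u.2.1 * u.2.2 ≤ 20 * Y := by
      rw [Nat.le_div_iff_mul_le (Nat.mul_pos k1 k2)] at k4
      calc u.1 * u.2.1 * u.2.2 = u.2.2 * (u.1 * u.2.1) := by ring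
        _ ≤ 20 * Y := k4
    have k6 : (u.1 : ℝ) * u.2.1 * u.2.2 ≤ 20 * Y := by exact_mod_cast k5
    gcongr
  refine (sum_le_sum h3).trans ?_
  rw [sum_const, nsmul_eq_mul]
  have h4 := CountQ4_card_U (20 * Y)
  push_cast at h4
  calc ((CountQ4_U (20 * Y)).card : ℝ) * (756 * ((h : ℝ) / Y) ^ 2 * (20 * Y))
      ≤ (20 * Y * (1 + Real.log (20 * Y)) ^ 2) * (756 * ((h : ℝ) / Y) ^ 2 * (20 * Y)) := by
        gcongr
    _ = 756 * 20 * 20 * (h : ℝ) ^ 2 * (1 + Real.log (20 * Y)) ^ 2 := by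
        field_simp
    _ ≤ 756 * 20 * 20 * (h : ℝ) ^ 2 * (1 + Real.log (20 * Y)) ^ 4 := by
        have : (1 + Real.log (20 * Y)) ^ 2 ≤ (1 + Real.log (20 * Y)) ^ 4 :=
          pow_le_pow_right₀ (by linarith) (by norm_num)
        gcongr

end Pool.Agent.H41.RG

end

section

/-!
# RG AvgA: averages over the windows

`X ≥ 2`, `1 ≤ h`, `2h ≤ X`, `Y = X/2` (natural division): for `X ≤ k < 2X` the window `Wk k h` lies in
`[Y, 20 Y]` (`k - h ≥ X/2`, `k + h ≤ 5X/2 ≤ 20 Y`) and any two of its elements differ by at most `2h`.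
For a given `n` at most `2h` values of `k` satisfy `k - h < n ≤ k + h`.  So for a set of tuples counted
over the window the sum over `k` (and `l`) is at most `2h` (or `(2h)²`) times the number of tuples
in `[Y, 20Y]` satisfying the conditions.
For `Q22`: `((n,m),(n',m'))` with `n, n' ∈ Wk k h`, `m, m' ∈ Wk l h` corresponds to
`((n,n'),(m,m')) ∈ SQ Y (2h)`.
-/

set_option autoImplicit false

namespace Pool.Agent.H41.RG

open Finset
open Pool.Agent.H18.RM (SQ)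

private theorem AvgA_gen {ι α β : Type} (K : Finset ι) (F : ι → Finset α) (T : Finset β)
    (φ : α → β) (hφ : Function.Injective φ) (c : ℕ) (h1 : ∀ i ∈ K, ∀ a ∈ F i, φ a ∈ T)
    (h2 : ∀ a, ∃ L : Finset ι, L.card ≤ c ∧ ∀ i ∈ K, a ∈ F i → i ∈ L) :
    ∑ i ∈ K, (F i).card ≤ c * T.card := by
  classical
  rw [← card_sigma]
  refine card_le_mul_card_image_of_maps_to (f := fun p : Sigma (fun _ : ι => α) => φ p.2)
    ?_ c ?_
  · rintro ⟨i, a⟩ hp
    rw [mem_sigma] at hp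
    exact h1 i hp.1 a hp.2
  · intro b _
    by_cases hb : ∃ a, φ a = b
    · obtain ⟨a, ha⟩ := hb
      obtain ⟨L, hL, hL'⟩ := h2 a
      refine le_trans ?_ hL
      refine card_le_card_of_injOn (fun p : Sigma (fun _ : ι => α) => p.1) ?_ ?_
      · rintro ⟨i, a'⟩ hp
        have hp' := mem_filter.1 (mem_coe.1 hp)
        have hp1 := mem_sigma.1 hp'.1
        have ha' : a' = a := hφ (hp'.2.trans ha.symm)
        subst ha'
        exact mem_coe.2 (hL' i hp1.1 hp1.2)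
      · rintro ⟨i, a'⟩ hp ⟨j, a''⟩ hq hpq
        have hp' := (mem_filter.1 (mem_coe.1 hp)).2
        have hq' := (mem_filter.1 (mem_coe.1 hq)).2
        have ha' : a' = a'' := hφ (hp'.trans hq'.symm)
        have hij : i = j := hpq
        rw [hij, ha']
    · rw [filter_eq_empty_iff.2]
      · simp
      · intro p _ hp
        exact hb ⟨p.2, hp⟩

private theorem AvgA_mem {k h n : ℕ} : n ∈ Wk k h ↔ (k - h < n ∧ n ≤ k + h) ∧ Squarefree n := by
  unfold Wk
  rw [mem_filter, mem_Ioc]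

private theorem AvgA_L (n h : ℕ) : (Ico (n - h) (n + h)).card ≤ 2 * h := by
  rw [Nat.card_Ico]
  omega

private theorem AvgA_k {X h k n : ℕ} (h2 : 2 * h ≤ X) (hk : k ∈ Ico X (2 * X)) (hn : n ∈ Wk k h) :
    k ∈ Ico (n - h) (n + h) := by
  rw [mem_Ico] at hk ⊢
  have := (AvgA_mem.1 hn).1
  omega

private theorem AvgA_I {X h k n : ℕ} (hX : 2 ≤ X) (h2 : 2 * h ≤ X) (hk : k ∈ Ico X (2 * X))
    (hn : n ∈ Wk k h) : n ∈ Icc (X / 2) (20 * (X / 2)) := by
  rw [mem_Ico] at hk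
  rw [mem_Icc]
  have := (AvgA_mem.1 hn).1
  omega

private theorem AvgA_d {k h n m : ℕ} (hn : n ∈ Wk k h) (hm : m ∈ Wk k h) :
    |(n : ℤ) - m| ≤ ((2 * h : ℕ) : ℤ) := by
  have h1 := (AvgA_mem.1 hn).1
  have h2 := (AvgA_mem.1 hm).1
  rw [abs_le]
  constructor <;> omega

theorem sum_D1 {X h : ℕ} (hX : 2 ≤ X) (h1 : 1 ≤ h) (h2 : 2 * h ≤ X) :
    ∑ k ∈ Ico X (2 * X), D1 (Wk k h) ≤ 2 * h * (P1 (X / 2) (2 * h)).card := by
  unfold D1
  refine AvgA_gen (Ico X (2 * X)) _ _ (fun t : ℕ × ℕ => t) Function.injective_id _ ?_ ?_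
  · intro k hk t ht
    obtain ⟨ht1, ht2, ht3⟩ := mem_filter.1 ht
    obtain ⟨ha, hb⟩ := mem_product.1 ht1
    unfold P1
    exact mem_filter.2 ⟨mem_product.2 ⟨AvgA_I hX h2 hk ha, AvgA_I hX h2 hk hb⟩,
      ⟨(AvgA_mem.1 ha).2, (AvgA_mem.1 hb).2⟩, ht2, AvgA_d ha hb, ht3⟩
  · intro t
    refine ⟨Ico (t.1 - h) (t.1 + h), AvgA_L _ _, fun k hk ht => ?_⟩
    exact AvgA_k h2 hk (mem_product.1 (mem_filter.1 ht).1).1

theorem sum_Q4 {X h : ℕ} (hX : 2 ≤ X) (h1 : 1 ≤ h) (h2 : 2 * h ≤ X) :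
    ∑ k ∈ Ico X (2 * X), Q4 (Wk k h) ≤ 2 * h * (SQ4 (X / 2) (2 * h)).card := by
  unfold Q4
  refine AvgA_gen (Ico X (2 * X)) _ _ (fun t : (ℕ × ℕ) × (ℕ × ℕ) => t) Function.injective_id _
    ?_ ?_
  · intro k hk t ht
    obtain ⟨ht1, ht2, ht3⟩ := mem_filter.1 ht
    obtain ⟨hab, hcd⟩ := mem_product.1 ht1
    obtain ⟨ha, hb⟩ := mem_product.1 hab
    obtain ⟨hc, hd⟩ := mem_product.1 hcd
    unfold SQ4
    exact mem_filter.2 ⟨mem_product.2 ⟨mem_product.2 ⟨AvgA_I hX h2 hk ha, AvgA_I hX h2 hk hb⟩,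
      mem_product.2 ⟨AvgA_I hX h2 hk hc, AvgA_I hX h2 hk hd⟩⟩,
      ⟨(AvgA_mem.1 ha).2, (AvgA_mem.1 hb).2, (AvgA_mem.1 hc).2, (AvgA_mem.1 hd).2⟩, ht2,
      ⟨AvgA_d ha hb, AvgA_d hc hd, AvgA_d ha hc, AvgA_d ha hd, AvgA_d hb hc, AvgA_d hb hd⟩, ht3⟩
  · intro t
    refine ⟨Ico (t.1.1 - h) (t.1.1 + h), AvgA_L _ _, fun k hk ht => ?_⟩
    exact AvgA_k h2 hk (mem_product.1 (mem_product.1 (mem_filter.1 ht).1).1).1

private theorem AvgA_L2 (n m h : ℕ) :
    ((Ico (n - h) (n + h)) ×ˢ (Ico (m - h) (m + h))).card ≤ (2 * h) ^ 2 := by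
  rw [card_product, sq]
  exact Nat.mul_le_mul (AvgA_L _ _) (AvgA_L _ _)

theorem sum_T2 {X h : ℕ} (hX : 2 ≤ X) (h1 : 1 ≤ h) (h2 : 2 * h ≤ X) :
    ∑ k ∈ Ico X (2 * X), ∑ l ∈ Ico X (2 * X), T2 (Wk k h) (Wk l h) ≤
      (2 * h) ^ 2 * (P2 (X / 2)).card := by
  rw [← sum_product' (Ico X (2 * X)) (Ico X (2 * X)) (fun k l => T2 (Wk k h) (Wk l h))]
  unfold T2
  refine AvgA_gen ((Ico X (2 * X)) ×ˢ (Ico X (2 * X))) _ _ (fun t : ℕ × ℕ => t)
    Function.injective_id _ ?_ ?_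
  · intro p hp t ht
    obtain ⟨hk, hl⟩ := mem_product.1 hp
    obtain ⟨ht1, ht3⟩ := mem_filter.1 ht
    obtain ⟨ha, hb⟩ := mem_product.1 ht1
    unfold P2
    exact mem_filter.2 ⟨mem_product.2 ⟨AvgA_I hX h2 hk ha, AvgA_I hX h2 hl hb⟩,
      ⟨(AvgA_mem.1 ha).2, (AvgA_mem.1 hb).2⟩, ht3⟩
  · intro t
    refine ⟨(Ico (t.1 - h) (t.1 + h)) ×ˢ (Ico (t.2 - h) (t.2 + h)), AvgA_L2 _ _ _,
      fun p hp ht => ?_⟩
    obtain ⟨hk, hl⟩ := mem_product.1 hp
    obtain ⟨ha, hb⟩ := mem_product.1 (mem_filter.1 ht).1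
    exact mem_product.2 ⟨AvgA_k h2 hk ha, AvgA_k h2 hl hb⟩

theorem sum_Q22 {X h : ℕ} (hX : 2 ≤ X) (h1 : 1 ≤ h) (h2 : 2 * h ≤ X) :
    ∑ k ∈ Ico X (2 * X), ∑ l ∈ Ico X (2 * X), Q22 (Wk k h) (Wk l h) ≤
      (2 * h) ^ 2 * (SQ (X / 2) (2 * h)).card := by
  rw [← sum_product' (Ico X (2 * X)) (Ico X (2 * X)) (fun k l => Q22 (Wk k h) (Wk l h))]
  unfold Q22
  refine AvgA_gen ((Ico X (2 * X)) ×ˢ (Ico X (2 * X))) _ _
    (fun t : (ℕ × ℕ) × (ℕ × ℕ) => ((t.1.1, t.2.1), (t.1.2, t.2.2))) ?_ _ ?_ ?_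
  · rintro ⟨⟨a, b⟩, ⟨c, d⟩⟩ ⟨⟨a', b'⟩, ⟨c', d'⟩⟩ h
    simp only [Prod.mk.injEq] at h ⊢
    obtain ⟨⟨h3, h4⟩, h5, h6⟩ := h
    exact ⟨⟨h3, h5⟩, h4, h6⟩
  · intro p hp t ht
    obtain ⟨hk, hl⟩ := mem_product.1 hp
    obtain ⟨ht1, ht2, ht3⟩ := mem_filter.1 ht
    obtain ⟨hab, hcd⟩ := mem_product.1 ht1
    obtain ⟨ha, hb⟩ := mem_product.1 hab
    obtain ⟨hc, hd⟩ := mem_product.1 hcd
    unfold SQ
    refine mem_filter.2 ⟨mem_product.2 ⟨mem_product.2 ⟨AvgA_I hX h2 hk ha, AvgA_I hX h2 hk hc⟩,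
      mem_product.2 ⟨AvgA_I hX h2 hl hb, AvgA_I hX h2 hl hd⟩⟩,
      ⟨(AvgA_mem.1 ha).2, (AvgA_mem.1 hc).2, (AvgA_mem.1 hb).2, (AvgA_mem.1 hd).2⟩, ht2,
      ⟨AvgA_d ha hc, AvgA_d hb hd⟩, ?_⟩
    have h5 : t.1.1 * t.2.1 * (t.1.2 * t.2.2) = t.1.1 * t.1.2 * (t.2.1 * t.2.2) := by ring
    simp only [h5]
    exact ht3
  · intro t
    refine ⟨(Ico (t.1.1 - h) (t.1.1 + h)) ×ˢ (Ico (t.1.2 - h) (t.1.2 + h)), AvgA_L2 _ _ _,
      fun p hp ht => ?_⟩
    obtain ⟨hk, hl⟩ := mem_product.1 hp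
    obtain ⟨ha, hb⟩ := mem_product.1 (mem_product.1 (mem_filter.1 ht).1).1
    exact mem_product.2 ⟨AvgA_k h2 hk ha, AvgA_k h2 hl hb⟩

theorem Wk_facts {k h : ℕ} (hk : h + 1 ≤ k) :
    (∀ n ∈ Wk k h, Squarefree n ∧ 2 ≤ n) ∧ (Wk k h).card ≤ 2 * h := by
  constructor
  · intro n hn
    have := AvgA_mem.1 hn
    exact ⟨this.2, by omega⟩
  · unfold Wk
    refine (card_filter_le _ _).trans ?_
    rw [Nat.card_Ioc]
    omega

theorem Wk_disjoint {k l h : ℕ} (hk : h ≤ k) (hl : h ≤ l) (hkl : k + 2 * h ≤ l ∨ l + 2 * h ≤ k) :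
    Disjoint (Wk k h) (Wk l h) := by
  rw [disjoint_left]
  intro n hn hn'
  have h1 := (AvgA_mem.1 hn).1
  have h2 := (AvgA_mem.1 hn').1
  omega

end Pool.Agent.H41.RG

end

section

/-!
# RG AvgB: bounds for the averages

`L = log X`.  There is `C` such that for all large `X` and all `h ≥ 1` with `h ≤ X / L^10`:
`∑_k D1 ≤ C X h² / L^20`, `∑_k Q4 ≤ C h³ L^4`, `∑_{k,l} T2 ≤ C X² h² / L^20`,
`∑_{k,l} Q22 ≤ C X h³ L^4`.

Proof: `AvgA`, then `card_P1`, `card_P2` with `z = (log Y)^20`, `Y = X/2` (natural division; `log Y ≥ L/2`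
for large `X`), `card_Sm 20`, `card_SQ4`, `Pool.Agent.H18.RM.card_SQ`; `1 + log(20Y) ≤ 3 L` for large `X`.
-/

set_option autoImplicit false

namespace Pool.Agent.H41.RG

open Finset Filter

theorem avgB : ∃ C : ℝ, 1 ≤ C ∧ ∀ᶠ X : ℕ in atTop, ∀ h : ℕ, 1 ≤ h →
    (h : ℝ) ≤ X / Real.log X ^ 10 →
    (∑ k ∈ Ico X (2 * X), (D1 (Wk k h) : ℝ) ≤ C * X * (h : ℝ) ^ 2 / Real.log X ^ 20) ∧
    (∑ k ∈ Ico X (2 * X), (Q4 (Wk k h) : ℝ) ≤ C * (h : ℝ) ^ 3 * Real.log X ^ 4) ∧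
    (∑ k ∈ Ico X (2 * X), ∑ l ∈ Ico X (2 * X), (T2 (Wk k h) (Wk l h) : ℝ) ≤
      C * (X : ℝ) ^ 2 * (h : ℝ) ^ 2 / Real.log X ^ 20) ∧
    (∑ k ∈ Ico X (2 * X), ∑ l ∈ Ico X (2 * X), (Q22 (Wk k h) (Wk l h) : ℝ) ≤
      C * X * (h : ℝ) ^ 3 * Real.log X ^ 4) := by
  obtain ⟨C4, hC4, h4⟩ := card_SQ4
  obtain ⟨Cs, hCs, hs⟩ := Pool.Agent.H18.RM.card_SQ
  obtain ⟨N, hN⟩ := eventually_atTop.1 (card_Sm 20)
  refine ⟨1 + 1000 * 2 ^ 20 + 648 * C4 + 324 * Cs, by nlinarith, ?_⟩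
  have hlog : ∀ᶠ X : ℕ in atTop, (2 : ℝ) ≤ Real.log X :=
    (Real.tendsto_log_atTop.comp tendsto_natCast_atTop_atTop).eventually_ge_atTop 2
  filter_upwards [hlog, eventually_ge_atTop (2 * N), eventually_ge_atTop 16] with X hL hXN hX16
  intro h h1 hh
  obtain ⟨Y, hYdef⟩ : ∃ Y, Y = X / 2 := ⟨_, rfl⟩
  have hX0 : (16 : ℝ) ≤ X := by exact_mod_cast hX16
  have hY2 : (Y : ℝ) ≤ X / 2 := by
    have : 2 * Y ≤ X := by omega
    have : (2 : ℝ) * Y ≤ X := by exact_mod_cast this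
    linarith
  have hY4 : (X : ℝ) / 4 ≤ Y := by
    have : X ≤ 2 * Y + 1 := by omega
    have : (X : ℝ) ≤ 2 * Y + 1 := by exact_mod_cast this
    linarith
  have hYN : N ≤ Y := by omega
  have hY0 : (0 : ℝ) < Y := by linarith
  have hY1 : 1 ≤ Y := by omega
  obtain ⟨L, hLdef⟩ : ∃ L, L = Real.log X := ⟨_, rfl⟩
  obtain ⟨l, hldef⟩ : ∃ l, l = Real.log Y := ⟨_, rfl⟩
  rw [← hLdef] at hL hh ⊢
  have hLl : L / 2 ≤ l := by
    have h5 : Real.sqrt X ≤ Y := by
      refine le_trans ?_ hY4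
      have h6 : (4 : ℝ) ≤ Real.sqrt X := by
        rw [show (4 : ℝ) = Real.sqrt 16 by
          rw [show (16 : ℝ) = 4 ^ 2 by norm_num]
          exact (Real.sqrt_sq (by norm_num)).symm]
        exact Real.sqrt_le_sqrt hX0
      have h7 : Real.sqrt X * Real.sqrt X = X := Real.mul_self_sqrt (by linarith)
      nlinarith
    have h6 : Real.log (Real.sqrt X) ≤ Real.log Y :=
      Real.log_le_log (Real.sqrt_pos.2 (by linarith)) h5
    rw [Real.log_sqrt (by linarith), ← hLdef, ← hldef] at h6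
    exact h6
  have hl1 : 1 ≤ l := by linarith
  have hlpow : (1 : ℝ) ≤ l ^ 20 := one_le_pow₀ hl1
  have hlpos : (0 : ℝ) < l ^ 20 := by positivity
  have hLpos : (0 : ℝ) < L := by linarith
  have hh0 : (1 : ℝ) ≤ h := by exact_mod_cast h1
  -- the size of h
  have hhX : (h : ℝ) ≤ X / 1024 := by
    refine hh.trans ?_
    apply div_le_div_of_nonneg_left (by linarith) (by norm_num)
    calc (1024 : ℝ) = 2 ^ 10 := by norm_num
      _ ≤ L ^ 10 := pow_le_pow_left₀ (by norm_num) hL 10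
  have h2Y : 2 * h ≤ Y := by
    have : (2 : ℝ) * h ≤ Y := by linarith
    exact_mod_cast this
  have h2X : 2 * h ≤ X := by omega
  -- the main quantity
  obtain ⟨a, ha⟩ : ∃ a : ℝ, a = Y / l ^ 20 := ⟨_, rfl⟩
  have ha0 : 0 < a := by rw [ha]; positivity
  have haY : a ≤ Y := by
    rw [ha]
    exact div_le_self hY0.le hlpow
  have hab : a ≤ X * 2 ^ 19 / L ^ 20 := by
    have h5 : (L / 2) ^ 20 ≤ l ^ 20 := pow_le_pow_left₀ (by linarith) hLl 20
    have h6 : (Y : ℝ) / l ^ 20 ≤ (X / 2) / (L / 2) ^ 20 :=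
      div_le_div₀ (by linarith) hY2 (by positivity) h5
    rw [ha]
    refine h6.trans (le_of_eq ?_)
    field_simp
  have hS : ((Sm Y (l ^ 20)).card : ℝ) ≤ a := by
    rw [ha, hldef]
    exact hN Y hYN
  have hS0 : (0 : ℝ) ≤ (Sm Y (l ^ 20)).card := Nat.cast_nonneg _
  have hlog20 : 0 ≤ 1 + Real.log (20 * Y) ∧ 1 + Real.log (20 * Y) ≤ 3 * L := by
    constructor
    · have : 0 ≤ Real.log (20 * Y) := Real.log_nonneg (by linarith)
      linarith
    · have h5 : Real.log (20 * Y) ≤ Real.log (10 * X) :=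
        Real.log_le_log (by linarith) (by linarith)
      have h8 : Real.log (10 * (X : ℝ)) = Real.log 10 + L := by
        rw [Real.log_mul (by norm_num) (by linarith), hLdef]
      rw [h8] at h5
      have h6 : Real.log 10 ≤ 3 := by
        rw [Real.log_le_iff_le_exp (by norm_num)]
        have h7 : (2.7 : ℝ) ≤ Real.exp 1 := by
          have := Real.exp_one_gt_d9
          linarith
        calc (10 : ℝ) ≤ 2.7 ^ 3 := by norm_num
          _ ≤ Real.exp 1 ^ 3 := pow_le_pow_left₀ (by norm_num) h7 3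
          _ = Real.exp 3 := by rw [← Real.exp_nat_mul]; norm_num
      linarith
  have hlog4 : (1 + Real.log (20 * Y)) ^ 4 ≤ 81 * L ^ 4 := by
    calc (1 + Real.log (20 * Y)) ^ 4 ≤ (3 * L) ^ 4 := pow_le_pow_left₀ hlog20.1 hlog20.2 4
      _ = 81 * L ^ 4 := by ring
  have hdiv : ∀ c c' T : ℝ, c ≤ c' → 0 ≤ T → c * T ≤ c' * T := fun c c' T hc hT =>
    mul_le_mul_of_nonneg_right hc hT
  have hL20 : (0 : ℝ) < L ^ 20 := by positivity
  refine ⟨?_, ?_, ?_, ?_⟩
  · have e1 : (∑ k ∈ Ico X (2 * X), (D1 (Wk k h) : ℝ)) ≤ 2 * h * ((P1 Y (2 * h)).card : ℝ) := by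
      have := sum_D1 (X := X) (h := h) (by omega) h1 h2X
      rw [← hYdef] at this
      exact_mod_cast this
    have e2 := card_P1 (Y := Y) (h := 2 * h) (z := l ^ 20) hlpow
    have e3 : 80 * (Y : ℝ) * ((2 * h : ℕ) : ℝ) / l ^ 20 = 160 * h * a := by
      rw [ha]
      push_cast
      ring
    rw [e3] at e2
    push_cast at e2
    have e4 : ((P1 Y (2 * h)).card : ℝ) ≤ 164 * h * a := by
      have : 2 * (2 * (h : ℝ)) * (Sm Y (l ^ 20)).card ≤ 2 * (2 * (h : ℝ)) * a :=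
        mul_le_mul_of_nonneg_left hS (by positivity)
      linarith
    calc (∑ k ∈ Ico X (2 * X), (D1 (Wk k h) : ℝ)) ≤ 2 * h * (164 * h * a) :=
          e1.trans (mul_le_mul_of_nonneg_left e4 (by positivity))
      _ = 328 * (h : ℝ) ^ 2 * a := by ring
      _ ≤ 328 * (h : ℝ) ^ 2 * (X * 2 ^ 19 / L ^ 20) :=
          mul_le_mul_of_nonneg_left hab (by positivity)
      _ = (164 * 2 ^ 20) * (X * (h : ℝ) ^ 2 / L ^ 20) := by ring
      _ ≤ (1 + 1000 * 2 ^ 20 + 648 * C4 + 324 * Cs) * (X * (h : ℝ) ^ 2 / L ^ 20) :=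
          hdiv _ _ _ (by nlinarith) (by positivity)
      _ = (1 + 1000 * 2 ^ 20 + 648 * C4 + 324 * Cs) * X * (h : ℝ) ^ 2 / L ^ 20 := by ring
  · have e1 : (∑ k ∈ Ico X (2 * X), (Q4 (Wk k h) : ℝ)) ≤ 2 * h * ((SQ4 Y (2 * h)).card : ℝ) := by
      have := sum_Q4 (X := X) (h := h) (by omega) h1 h2X
      rw [← hYdef] at this
      exact_mod_cast this
    have e2 := h4 Y (2 * h) hY1 (by omega) h2Y
    push_cast at e2
    calc (∑ k ∈ Ico X (2 * X), (Q4 (Wk k h) : ℝ))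
        ≤ 2 * h * (C4 * (2 * (h : ℝ)) ^ 2 * (1 + Real.log (20 * Y)) ^ 4) :=
          e1.trans (mul_le_mul_of_nonneg_left e2 (by positivity))
      _ ≤ 2 * h * (C4 * (2 * (h : ℝ)) ^ 2 * (81 * L ^ 4)) := by
          apply mul_le_mul_of_nonneg_left _ (by positivity)
          exact mul_le_mul_of_nonneg_left hlog4 (by positivity)
      _ = (648 * C4) * ((h : ℝ) ^ 3 * L ^ 4) := by ring
      _ ≤ (1 + 1000 * 2 ^ 20 + 648 * C4 + 324 * Cs) * ((h : ℝ) ^ 3 * L ^ 4) :=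
          hdiv _ _ _ (by nlinarith) (by positivity)
      _ = (1 + 1000 * 2 ^ 20 + 648 * C4 + 324 * Cs) * (h : ℝ) ^ 3 * L ^ 4 := by ring
  · have e1 : (∑ k ∈ Ico X (2 * X), ∑ l ∈ Ico X (2 * X), (T2 (Wk k h) (Wk l h) : ℝ)) ≤
        (2 * h) ^ 2 * ((P2 Y).card : ℝ) := by
      have := sum_T2 (X := X) (h := h) (by omega) h1 h2X
      rw [← hYdef] at this
      exact_mod_cast this
    have e2 := card_P2 (Y := Y) (z := l ^ 20) hlpow
    have e3 : 800 * (Y : ℝ) ^ 2 / l ^ 20 = 800 * Y * a := by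
      rw [ha]
      ring
    rw [e3] at e2
    have e4 : ((Sm Y (l ^ 20)).card : ℝ) ^ 2 ≤ Y * a := by
      calc ((Sm Y (l ^ 20)).card : ℝ) ^ 2 ≤ a ^ 2 := pow_le_pow_left₀ hS0 hS 2
        _ = a * a := by ring
        _ ≤ Y * a := mul_le_mul_of_nonneg_right haY ha0.le
    have e5 : ((P2 Y).card : ℝ) ≤ 801 * (Y * a) := by linarith
    have e6 : (Y : ℝ) * a ≤ X / 2 * (X * 2 ^ 19 / L ^ 20) :=
      mul_le_mul hY2 hab ha0.le (by linarith)
    calc (∑ k ∈ Ico X (2 * X), ∑ l ∈ Ico X (2 * X), (T2 (Wk k h) (Wk l h) : ℝ))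
        ≤ (2 * h) ^ 2 * (801 * (Y * a)) :=
          e1.trans (mul_le_mul_of_nonneg_left e5 (by positivity))
      _ ≤ (2 * h) ^ 2 * (801 * (X / 2 * (X * 2 ^ 19 / L ^ 20))) := by
          apply mul_le_mul_of_nonneg_left _ (by positivity)
          linarith
      _ = (801 * 2 ^ 20) * ((X : ℝ) ^ 2 * (h : ℝ) ^ 2 / L ^ 20) := by ring
      _ ≤ (1 + 1000 * 2 ^ 20 + 648 * C4 + 324 * Cs) * ((X : ℝ) ^ 2 * (h : ℝ) ^ 2 / L ^ 20) :=
          hdiv _ _ _ (by nlinarith) (by positivity)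
      _ = (1 + 1000 * 2 ^ 20 + 648 * C4 + 324 * Cs) * (X : ℝ) ^ 2 * (h : ℝ) ^ 2 / L ^ 20 := by
          ring
  · have e1 : (∑ k ∈ Ico X (2 * X), ∑ l ∈ Ico X (2 * X), (Q22 (Wk k h) (Wk l h) : ℝ)) ≤
        (2 * h) ^ 2 * ((Pool.Agent.H18.RM.SQ Y (2 * h)).card : ℝ) := by
      have := sum_Q22 (X := X) (h := h) (by omega) h1 h2X
      rw [← hYdef] at this
      exact_mod_cast this
    have e2 := hs Y (2 * h) hY1 (by omega)
    push_cast at e2
    calc (∑ k ∈ Ico X (2 * X), ∑ l ∈ Ico X (2 * X), (Q22 (Wk k h) (Wk l h) : ℝ))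
        ≤ (2 * h) ^ 2 * (Cs * Y * (2 * (h : ℝ)) * (1 + Real.log (20 * Y)) ^ 4) :=
          e1.trans (mul_le_mul_of_nonneg_left e2 (by positivity))
      _ ≤ (2 * h) ^ 2 * (Cs * (X / 2) * (2 * (h : ℝ)) * (81 * L ^ 4)) := by
          apply mul_le_mul_of_nonneg_left _ (by positivity)
          refine mul_le_mul ?_ hlog4 (pow_nonneg hlog20.1 4) (by positivity)
          apply mul_le_mul_of_nonneg_right _ (by positivity)
          exact mul_le_mul_of_nonneg_left hY2 hCs.le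
      _ = (324 * Cs) * (X * (h : ℝ) ^ 3 * L ^ 4) := by ring
      _ ≤ (1 + 1000 * 2 ^ 20 + 648 * C4 + 324 * Cs) * (X * (h : ℝ) ^ 3 * L ^ 4) :=
          hdiv _ _ _ (by nlinarith) (by positivity)
      _ = (1 + 1000 * 2 ^ 20 + 648 * C4 + 324 * Cs) * X * (h : ℝ) ^ 3 * L ^ 4 := by ring

end Pool.Agent.H41.RG

end

section

/-!
# RG Char0: the exact case (all largest prime factors different)

If `D1 W = 0` (no two different elements with the same largest prime factor) then for every `p`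
the set `W.filter (lp = p)` has at most one element, `Sp e W p = ± 1` (a.e.) or `0`, so
`cos (θ Sp) = cos θ` or `1` a.e.; `mart_exact` with `a p = θ Sp e W p` and `sum_rmf` gives
`AW = (cos θ)^#W` (the number of `p < m` with nonempty fibre is `#W`).
`BW`: the same with `a p = θ (Sp e W p - Sp e W' p)`; by `T2 W W' = 0` no `p` has both fibres
nonempty.
-/

set_option autoImplicit false

namespace Pool.Agent.H41.RG

open Finset MeasureTheory ProbabilityTheory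
open Pool.Agent.H18.RM (IsSigns rmf)

variable {Ω : Type*} [mΩ : MeasurableSpace Ω] {P : Measure Ω} [IsProbabilityMeasure P]
  {e : ℕ → Ω → ℝ}

private theorem Char0_inj {W : Finset ℕ} (h0 : D1 W = 0) {n n' : ℕ} (hn : n ∈ W) (hn' : n' ∈ W)
    (h : lp n = lp n') : n = n' := by
  by_contra hne
  unfold D1 at h0
  rw [card_eq_zero] at h0
  have : (n, n') ∈ (W ×ˢ W).filter (fun t => t.1 ≠ t.2 ∧ lp t.1 = lp t.2) :=
    mem_filter.2 ⟨mem_product.2 ⟨hn, hn'⟩, hne, h⟩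
  rw [h0] at this
  exact absurd this (notMem_empty _)

private theorem Char0_T {W W' : Finset ℕ} (h0 : T2 W W' = 0) {n n' : ℕ} (hn : n ∈ W)
    (hn' : n' ∈ W') : lp n ≠ lp n' := by
  intro h
  unfold T2 at h0
  rw [card_eq_zero] at h0
  have : (n, n') ∈ (W ×ˢ W').filter (fun t => lp t.1 = lp t.2) :=
    mem_filter.2 ⟨mem_product.2 ⟨hn, hn'⟩, h⟩
  rw [h0] at this
  exact absurd this (notMem_empty _)

private theorem Char0_rmf {e : ℕ → Ω → ℝ} {ω : Ω} (h : ∀ p, e p ω = 1 ∨ e p ω = -1) {k : ℕ}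
    (hk : Squarefree k) : rmf e ω k = 1 ∨ rmf e ω k = -1 := by
  unfold rmf
  rw [if_pos hk]
  generalize k.primeFactors = s
  induction s using Finset.induction_on with
  | empty => left; simp
  | insert a s ha ih =>
    rw [prod_insert ha]
    rcases h a with h1 | h1 <;> rcases ih with h2 | h2 <;> rw [h1, h2] <;> norm_num

private theorem Char0_Sp {e : ℕ → Ω → ℝ} {ω : Ω} (h : ∀ p, e p ω = 1 ∨ e p ω = -1)
    {W : Finset ℕ} (hW : ∀ n ∈ W, Squarefree n ∧ 2 ≤ n) (h0 : D1 W = 0) (p : ℕ) :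
    (p ∈ W.image lp ∧ (Sp e W p ω = 1 ∨ Sp e W p ω = -1)) ∨
      (p ∉ W.image lp ∧ Sp e W p ω = 0) := by
  by_cases hp : p ∈ W.image lp
  · left
    refine ⟨hp, ?_⟩
    obtain ⟨n, hn, hnp⟩ := mem_image.1 hp
    have e1 : W.filter (fun n => lp n = p) = {n} := by
      ext k
      rw [mem_filter, mem_singleton]
      constructor
      · rintro ⟨hk, hkp⟩
        exact Char0_inj h0 hk hn (hkp.trans hnp.symm)
      · rintro rfl
        exact ⟨hn, hnp⟩
    unfold Sp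
    rw [e1, sum_singleton]
    have h1 := (lp_facts (hW n hn).1 (hW n hn).2).2.2.2.1
    rw [hnp] at h1
    exact Char0_rmf h h1
  · right
    refine ⟨hp, ?_⟩
    have e1 : W.filter (fun n => lp n = p) = ∅ := by
      rw [filter_eq_empty_iff]
      intro n hn hnp
      exact hp (mem_image.2 ⟨n, hn, hnp⟩)
    unfold Sp
    rw [e1, sum_empty]

private theorem Char0_cos {x : ℝ} (h : x = 1 ∨ x = -1) (θ : ℝ) :
    Real.cos (θ * x) = Real.cos θ := by
  rcases h with h | h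
  · rw [h, mul_one]
  · rw [h, mul_neg_one, Real.cos_neg]

private theorem Char0_main (h : IsSigns P e) {W W' : Finset ℕ}
    (hW : ∀ n ∈ W, Squarefree n ∧ 2 ≤ n) (hW' : ∀ n ∈ W', Squarefree n ∧ 2 ≤ n)
    (h0 : D1 W = 0) (h0' : D1 W' = 0) (h2 : T2 W W' = 0) (θ : ℝ) :
    BW P e W W' θ = ((Real.cos θ ^ W.card * Real.cos θ ^ W'.card : ℝ) : ℂ) := by
  have hm0 : ∃ m : ℕ, ∀ n ∈ W ∪ W', n < m :=
    ⟨(W ∪ W').sup id + 1, fun n hn => Nat.lt_succ_of_le (le_sup (f := id) hn)⟩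
  obtain ⟨m, hm⟩ := hm0
  have hmW : ∀ n ∈ W, n < m := fun n hn => hm n (mem_union_left _ hn)
  have hmW' : ∀ n ∈ W', n < m := fun n hn => hm n (mem_union_right _ hn)
  set S : Finset ℕ := W.image lp ∪ W'.image lp with hS
  have hmain := mart_exact h (fun p ω => θ * (Sp e W p ω - Sp e W' p ω))
    (fun p => ((measurable_Sp e hW p).sub (measurable_Sp e hW' p)).const_mul θ)
    (fun p => if p ∈ S then Real.cos θ else 1) m ?_
  · have e1 : BW P e W W' θ = ∫ ω, Complex.exp (Complex.I *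
        ((∑ p ∈ range m, e p ω * (θ * (Sp e W p ω - Sp e W' p ω)) : ℝ) : ℂ)) ∂P := by
      unfold BW
      refine integral_congr_ae (Filter.Eventually.of_forall fun ω => ?_)
      simp only
      congr 3
      rw [sum_rmf e hW hmW ω, sum_rmf e hW' hmW' ω, ← sum_sub_distrib, mul_sum]
      exact sum_congr rfl fun p _ => by ring
    rw [e1, hmain]
    congr 1
    rw [prod_ite_mem, prod_const, ← pow_add]
    congr 1
    have hsub : S ⊆ range m := by
      intro p hp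
      rw [mem_range]
      rcases mem_union.1 hp with hp | hp
      · obtain ⟨n, hn, rfl⟩ := mem_image.1 hp
        exact (lp_facts (hW n hn).1 (hW n hn).2).2.2.1.trans_lt (hmW n hn)
      · obtain ⟨n, hn, rfl⟩ := mem_image.1 hp
        exact (lp_facts (hW' n hn).1 (hW' n hn).2).2.2.1.trans_lt (hmW' n hn)
    rw [inter_eq_right.2 hsub, hS, card_union_of_disjoint, card_image_of_injOn, card_image_of_injOn]
    · intro a ha b hb hab
      exact Char0_inj h0' ha hb hab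
    · intro a ha b hb hab
      exact Char0_inj h0 ha hb hab
    · rw [Finset.disjoint_left]
      intro p hp hp'
      obtain ⟨n, hn, hn1⟩ := mem_image.1 hp
      obtain ⟨n', hn', hn1'⟩ := mem_image.1 hp'
      exact Char0_T h2 hn hn' (hn1.trans hn1'.symm)
  · intro p _
    filter_upwards [h.ae_signs] with ω hω
    rcases Char0_Sp hω hW h0 p with ⟨h3, h4⟩ | ⟨h3, h4⟩
    · have h5 : p ∉ W'.image lp := by
        intro hp'
        obtain ⟨n, hn, hn1⟩ := mem_image.1 h3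
        obtain ⟨n', hn', hn1'⟩ := mem_image.1 hp'
        exact Char0_T h2 hn hn' (hn1.trans hn1'.symm)
      have h6 : Sp e W' p ω = 0 := by
        rcases Char0_Sp hω hW' h0' p with ⟨h7, _⟩ | ⟨_, h7⟩
        · exact absurd h7 h5
        · exact h7
      rw [h6, sub_zero, if_pos (mem_union_left _ h3)]
      exact Char0_cos h4 θ
    · rcases Char0_Sp hω hW' h0' p with ⟨h5, h6⟩ | ⟨h5, h6⟩
      · rw [h4, zero_sub, mul_neg, Real.cos_neg, if_pos (mem_union_right _ h5)]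
        exact Char0_cos h6 θ
      · have h7 : p ∉ S := by
          rw [hS, mem_union]
          push Not
          exact ⟨h3, h5⟩
        rw [h4, h6, sub_zero, mul_zero, Real.cos_zero, if_neg h7]

theorem charA0 (h : IsSigns P e) {W : Finset ℕ} (hW : ∀ n ∈ W, Squarefree n ∧ 2 ≤ n)
    (h0 : D1 W = 0) (θ : ℝ) : AW P e W θ = ((Real.cos θ ^ W.card : ℝ) : ℂ) := by
  have h1 := Char0_main h hW (W' := ∅) (by simp) h0 (by simp [D1]) (by simp [T2]) θ
  rw [card_empty, pow_zero, mul_one] at h1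
  rw [← h1]
  unfold AW BW
  simp

theorem charB0 (h : IsSigns P e) {W W' : Finset ℕ} (hW : ∀ n ∈ W, Squarefree n ∧ 2 ≤ n)
    (hW' : ∀ n ∈ W', Squarefree n ∧ 2 ≤ n) (h0 : D1 W = 0) (h0' : D1 W' = 0)
    (h2 : T2 W W' = 0) (θ : ℝ) :
    BW P e W W' θ = ((Real.cos θ ^ W.card * Real.cos θ ^ W'.card : ℝ) : ℂ) := Char0_main h hW hW' h0 h0' h2 θ

end Pool.Agent.H41.RG

end

section

/-!
# RG BridgeA: passage from `(K, 2h)` to `(X, H)` (deterministic)

`g` real with `|g n| ≤ 1`.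

`disc_eq`: for natural `h ≤ K`, `phiC g K (2h) t = phiD g K h (t / sg (2h))`: for `x ∈ (k, k+1)` the
integers with `|n - x| < h` are those with `k - h < n ≤ k + h`; on `Wk` only squarefree numbers are
summed, so we assume `g n = 0` for `n` not squarefree.

`phi_X`: changing `X` to `X'` (`X ≤ X' ≤ (1+η) X`): `‖phiC g X H t - phiC g X' H t‖ ≤ 6 η`
(the integrand has modulus one; intervals `[X,2X]`, `[X',2X']`).

`phi_H`: changing `H` to `H'` for the same `X`, `0 < H' ≤ H ≤ 4 H'` (or the other way round):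
`|exp(iu) - exp(iv)| ≤ |u - v|` and
`avg |M(x;H)/σ_H - M(x;H')/σ_{H'}| ≤ avg |M(x;H) - M(x;H')|/σ_H + avg |M(x;H')| |1/σ_H - 1/σ_{H'}|`,
Cauchy-Schwarz.  For almost all `x`: `M(x;H) - M(x;H') = M(x + s; r) + M(x - s; r)`, `r = (H-H')/2`,
`s = (H+H')/4` (see `MC_split` in `H18/RM/Mink`); `[X - s, 2X + s] ⊆ [X/2, 4X]`; if `r ≥ 1` the
hypothesis `hMS` bounds `∫_{X/2}^{4X} M(x;r)² ≤ 7 X r`; if `r < 1` then the window contains at most
one integer, `|M| ≤ 1`, `∫_{X/2}^{4X} M(x;r)² ≤ 4 X`.  `1/σ_{H'} - 1/σ_H = (1/σ_{H'}) (1 - √(H'/H))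
≤ (1/σ_{H'}) (H - H')/H`.
-/

set_option autoImplicit false

namespace Pool.Agent.H41.RG

open Finset MeasureTheory

private theorem BridgeA_MC (g : ℕ → ℝ) (x H : ℝ) :
    H18.RM.MC (fun n => (g n : ℂ)) x H = ((MR g x H : ℝ) : ℂ) := by
  unfold H18.RM.MC MR
  push_cast
  rfl

private theorem BridgeA_norm (g : ℕ → ℝ) (x H : ℝ) :
    ‖H18.RM.MC (fun n => (g n : ℂ)) x H‖ = |MR g x H| := by
  rw [BridgeA_MC, Complex.norm_real, Real.norm_eq_abs]

private theorem BridgeA_meas (g : ℕ → ℝ) {H : ℝ} (hH : 0 < H) : Measurable (fun x => MR g x H) := by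
  have h1 := H18.RM.measurable_MC (fun n => (g n : ℂ)) hH
  have h2 : (fun x => MR g x H) = fun x => (H18.RM.MC (fun n => (g n : ℂ)) x H).re := by
    funext x
    rw [BridgeA_MC, Complex.ofReal_re]
  rw [h2]
  exact Complex.measurable_re.comp h1

private theorem BridgeA_gc {g : ℕ → ℝ} (hg : ∀ n, |g n| ≤ 1) : ∀ n, ‖(g n : ℂ)‖ ≤ 1 := by
  intro n
  rw [Complex.norm_real, Real.norm_eq_abs]
  exact hg n

private theorem BridgeA_le {g : ℕ → ℝ} (hg : ∀ n, |g n| ≤ 1) {H : ℝ} (hH : 0 < H) (x : ℝ) :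
    |MR g x H| ≤ H + 1 := by
  rw [← BridgeA_norm]
  exact H18.RM.norm_MC_le (BridgeA_gc hg) hH x

private theorem BridgeA_int {F : ℝ → ℝ} (hF : Measurable F) {M : ℝ} (hM : ∀ x, |F x| ≤ M)
    (a b : ℝ) : IntervalIntegrable F volume a b := by
  rw [intervalIntegrable_iff]
  refine MeasureTheory.Measure.integrableOn_of_bounded (M := M) ?_ hF.aestronglyMeasurable ?_
  · rw [Real.volume_uIoc]
    exact ENNReal.ofReal_ne_top
  · exact Filter.Eventually.of_forall hM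

private theorem BridgeA_intc {F : ℝ → ℂ} (hF : Measurable F) {M : ℝ} (hM : ∀ x, ‖F x‖ ≤ M)
    (a b : ℝ) : IntervalIntegrable F volume a b := by
  rw [intervalIntegrable_iff]
  refine MeasureTheory.Measure.integrableOn_of_bounded (M := M) ?_ hF.aestronglyMeasurable ?_
  · rw [Real.volume_uIoc]
    exact ENNReal.ofReal_ne_top
  · exact Filter.Eventually.of_forall hM

/-- the integrand -/
private noncomputable def BridgeA_f (g : ℕ → ℝ) (H t x : ℝ) : ℂ :=
  Complex.exp (Complex.I * ((t * (MR g x H / sg H) : ℝ) : ℂ))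

private theorem BridgeA_f_norm (g : ℕ → ℝ) (H t x : ℝ) : ‖BridgeA_f g H t x‖ = 1 := by
  unfold BridgeA_f
  rw [mul_comm]
  exact Complex.norm_exp_ofReal_mul_I _

private theorem BridgeA_f_meas (g : ℕ → ℝ) {H : ℝ} (hH : 0 < H) (t : ℝ) :
    Measurable (BridgeA_f g H t) := by
  unfold BridgeA_f
  have h1 : Measurable (fun x => t * (MR g x H / sg H)) :=
    ((BridgeA_meas g hH).div_const _).const_mul t
  exact Complex.measurable_exp.comp ((Complex.measurable_ofReal.comp h1).const_mul _)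

private theorem BridgeA_f_int (g : ℕ → ℝ) {H : ℝ} (hH : 0 < H) (t a b : ℝ) :
    IntervalIntegrable (BridgeA_f g H t) volume a b :=
  BridgeA_intc (BridgeA_f_meas g hH t) (M := 1) (fun x => (BridgeA_f_norm g H t x).le) a b

private theorem BridgeA_f_bd (g : ℕ → ℝ) (H t : ℝ) {a b : ℝ} (hab : a ≤ b) :
    ‖∫ x in a..b, BridgeA_f g H t x‖ ≤ b - a := by
  have := intervalIntegral.norm_integral_le_of_norm_le_const (a := a) (b := b)
    (f := BridgeA_f g H t) (C := 1) (fun x _ => (BridgeA_f_norm g H t x).le)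
  rw [one_mul, abs_of_nonneg (by linarith)] at this
  exact this

private theorem BridgeA_exp (u v : ℝ) :
    ‖Complex.exp (Complex.I * (u : ℂ)) - Complex.exp (Complex.I * (v : ℂ))‖ ≤ |u - v| := by
  have e : Complex.exp (Complex.I * (u : ℂ)) - Complex.exp (Complex.I * (v : ℂ)) =
      Complex.exp ((v : ℂ) * Complex.I) * (Complex.exp (Complex.I * ((u - v : ℝ) : ℂ)) - 1) := by
    rw [mul_sub, mul_one, ← Complex.exp_add]
    congr 2
    · push_cast; ring
    · ring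
  rw [e, norm_mul, Complex.norm_exp_ofReal_mul_I, one_mul, ← Real.norm_eq_abs]
  exact Real.norm_exp_I_mul_ofReal_sub_one_le

private theorem BridgeA_window {g : ℕ → ℝ} (hg0 : ∀ n, ¬ Squarefree n → g n = 0) {k h : ℕ}
    (hk : h ≤ k) {x : ℝ} (hx : x ∈ Set.Ioo (k : ℝ) (k + 1)) :
    MR g x (2 * h) = ∑ n ∈ Wk k h, g n := by
  unfold MR Wk
  rw [sum_filter_of_ne (s := Ioc (k - h) (k + h)) (p := Squarefree) (f := g)]
  · apply sum_congr _ (fun _ _ => rfl)
    ext n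
    simp only [mem_filter, mem_range, mem_Ioc]
    have e : (2 * (h : ℝ)) / 2 = h := by ring
    rw [e, abs_lt]
    have hkh : ((k - h : ℕ) : ℝ) = (k : ℝ) - h := Nat.cast_sub hk
    constructor
    · rintro ⟨-, h1, h2⟩
      constructor
      · have h3 : ((k - h : ℕ) : ℝ) < n := by rw [hkh]; linarith only [h1, hx, hx.1]
        exact_mod_cast h3
      · have h3 : (n : ℝ) < ((k + h + 1 : ℕ) : ℝ) := by push_cast; linarith [hx.2]
        have h4 : n < k + h + 1 := by exact_mod_cast h3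
        omega
    · rintro ⟨h1, h2⟩
      have h3 : ((k - h + 1 : ℕ) : ℝ) ≤ n := by exact_mod_cast h1
      have h4 : (n : ℝ) ≤ ((k + h : ℕ) : ℝ) := by exact_mod_cast h2
      push_cast [hkh] at h3 h4
      have h5 : (n : ℝ) < x + h := by linarith only [h4, hx, hx.1]
      refine ⟨?_, by linarith only [h3, hx, hx.2], by linarith only [h5]⟩
      have h6 : (n : ℝ) < ((⌈x + 2 * (h : ℝ)⌉₊ + 1 : ℕ) : ℝ) := by
        have := Nat.le_ceil (x + 2 * (h : ℝ))
        have h7 : (0 : ℝ) ≤ h := by positivity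
        push_cast
        linarith only [h3, h4, h5, this]
      exact_mod_cast h6
  · intro n _ hn
    by_contra hc
    exact hn (hg0 n hc)

theorem disc_eq {g : ℕ → ℝ} (hg0 : ∀ n, ¬ Squarefree n → g n = 0) {K h : ℕ} (h1 : 1 ≤ h)
    (hK : h ≤ K) (t : ℝ) :
    phiC g K (2 * h) t = phiD g K h (t / sg (2 * h)) := by
  have hh0 : (0 : ℝ) < 2 * h := by
    have : (0 : ℝ) < h := by exact_mod_cast h1
    linarith
  unfold phiC phiD
  have e1 := intervalIntegral.sum_integral_adjacent_intervals_Ico (μ := volume)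
    (f := BridgeA_f g (2 * h) t) (a := fun k : ℕ => (k : ℝ)) (m := K) (n := 2 * K) (by omega)
    (fun k _ => BridgeA_f_int g hh0 t _ _)
  have e2 : ∫ x in (K : ℝ)..2 * K, Complex.exp (Complex.I * ((t * (MR g x (2 * h) /
      sg (2 * h)) : ℝ) : ℂ)) = ∫ x in (K : ℝ)..((2 * K : ℕ) : ℝ), BridgeA_f g (2 * h) t x := by
    have hc : ((2 * K : ℕ) : ℝ) = 2 * (K : ℝ) := by push_cast; ring
    rw [hc]
    rfl
  rw [e2, ← e1]
  congr 1
  refine sum_congr rfl fun k hk => ?_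
  rw [mem_Ico] at hk
  have hk1 : (k : ℝ) ≤ ((k + 1 : ℕ) : ℝ) := by push_cast; linarith only
  rw [intervalIntegral.integral_of_le hk1, integral_Ioc_eq_integral_Ioo]
  have e3 : ∀ x ∈ Set.Ioo (k : ℝ) ((k + 1 : ℕ) : ℝ), BridgeA_f g (2 * h) t x =
      Complex.exp (Complex.I * ((t / sg (2 * h) * ∑ n ∈ Wk k h, g n : ℝ) : ℂ)) := by
    intro x hx
    push_cast at hx
    unfold BridgeA_f
    rw [BridgeA_window hg0 (by omega) hx]
    congr 3
    ring
  rw [setIntegral_congr_fun measurableSet_Ioo e3, setIntegral_const]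
  have e4 : (volume : Measure ℝ).real (Set.Ioo (k : ℝ) ((k + 1 : ℕ) : ℝ)) = 1 := by
    rw [Measure.real, Real.volume_Ioo]
    push_cast
    norm_num
  rw [e4, one_smul]

theorem phi_X {g : ℕ → ℝ} (hg : ∀ n, |g n| ≤ 1) {X X' H η : ℝ} (hX : 1 ≤ X) (hH : 0 < H)
    (hXX : X ≤ X') (hX' : X' ≤ (1 + η) * X) (hη : η ≤ 1) (t : ℝ) :
    ‖phiC g X H t - phiC g X' H t‖ ≤ 6 * η := by
  have hX0 : 0 < X := by linarith
  have hX0' : 0 < X' := by linarith
  have hη0 : 0 ≤ η := by nlinarith only [hXX, hX', hX]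
  set f := BridgeA_f g H t with hf
  have hint : ∀ a b, IntervalIntegrable f volume a b := fun a b => BridgeA_f_int g hH t a b
  have e0 : phiC g X H t - phiC g X' H t =
      ((1 / (X : ℂ)) - (1 / (X' : ℂ))) * (∫ x in X..2 * X, f x) +
      (1 / (X' : ℂ)) * ((∫ x in X..X', f x) - ∫ x in (2 * X)..(2 * X'), f x) := by
    have h1 : (∫ x in X..2 * X, f x) + (∫ x in (2 * X)..(2 * X'), f x) =
        (∫ x in X..X', f x) + ∫ x in X'..(2 * X'), f x := by
      rw [intervalIntegral.integral_add_adjacent_intervals (hint _ _) (hint _ _),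
        intervalIntegral.integral_add_adjacent_intervals (hint _ _) (hint _ _)]
    have h2 : phiC g X H t = (1 / (X : ℂ)) * ∫ x in X..2 * X, f x := rfl
    have h3 : phiC g X' H t = (1 / (X' : ℂ)) * ∫ x in X'..2 * X', f x := rfl
    rw [h2, h3]
    linear_combination (1 / (X' : ℂ)) * h1
  have n1 : ‖((1 / (X : ℂ)) - (1 / (X' : ℂ)))‖ = 1 / X - 1 / X' := by
    have e : ((1 / (X : ℂ)) - (1 / (X' : ℂ))) = ((1 / X - 1 / X' : ℝ) : ℂ) := by push_cast; ring
    rw [e, Complex.norm_real, Real.norm_eq_abs, abs_of_nonneg]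
    rw [sub_nonneg]
    exact one_div_le_one_div_of_le hX0 hXX
  have n2 : ‖(1 / (X' : ℂ))‖ = 1 / X' := by
    rw [norm_div, norm_one, Complex.norm_real, Real.norm_eq_abs, abs_of_pos hX0']
  have b1 : ‖∫ x in X..2 * X, f x‖ ≤ X := by
    have := BridgeA_f_bd g H t (a := X) (b := 2 * X) (by linarith)
    linarith
  have b2 : ‖(∫ x in X..X', f x) - ∫ x in (2 * X)..(2 * X'), f x‖ ≤ 3 * (X' - X) := by
    have h1 := BridgeA_f_bd g H t (a := X) (b := X') hXX
    have h2 := BridgeA_f_bd g H t (a := 2 * X) (b := 2 * X') (by linarith only [hXX])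
    have h3 := norm_sub_le (∫ x in X..X', f x) (∫ x in (2 * X)..(2 * X'), f x)
    linarith
  rw [e0]
  refine (norm_add_le _ _).trans ?_
  rw [norm_mul, norm_mul, n1, n2]
  have c1 : (1 / X - 1 / X') * ‖∫ x in X..2 * X, f x‖ ≤ (1 / X - 1 / X') * X := by
    refine mul_le_mul_of_nonneg_left b1 ?_
    rw [sub_nonneg]
    exact one_div_le_one_div_of_le hX0 hXX
  have c2 : 1 / X' * ‖(∫ x in X..X', f x) - ∫ x in (2 * X)..(2 * X'), f x‖ ≤
      1 / X' * (3 * (X' - X)) := mul_le_mul_of_nonneg_left b2 (by positivity)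
  have c3 : (1 / X - 1 / X') * X = (X' - X) / X' := by field_simp
  have c4 : 1 / X' * (3 * (X' - X)) = 3 * ((X' - X) / X') := by ring
  have c5 : (X' - X) / X' ≤ η := by
    rw [div_le_iff₀ hX0']
    nlinarith only [hX', hX, hXX]
  rw [c3] at c1
  rw [c4] at c2
  linarith only [hη0, c1, c2, c5]

private theorem BridgeA_ae (g : ℕ → ℝ) {H' r : ℝ} (hH : 0 < H') (hr : 0 < r) :
    ∀ᵐ x : ℝ, MR g x (H' + 2 * r) = MR g x H' +
      (MR g (x + (-(H' / 2 + r / 2))) r + MR g (x + (H' / 2 + r / 2)) r) := by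
  have key : ∀ (c : ℝ) {a b : ℝ}, 0 ≤ a → 0 ≤ b → ∀ᵐ x : ℝ, MR g (x + c) (a + b) =
      MR g (x + (c - b / 2)) a + MR g (x + (c + a / 2)) b := by
    intro c a b ha hb
    have h := (measurePreserving_add_right volume c).quasiMeasurePreserving.ae
      (H18.RM.MC_split (fun n => (g n : ℂ)) ha hb)
    filter_upwards [h] with x hx
    simp only [BridgeA_MC] at hx
    have h2 : MR g (x + c) (a + b) = MR g (x + c - b / 2) a + MR g (x + c + a / 2) b := by
      exact_mod_cast hx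
    rw [h2]
    congr 2 <;> ring
  have h1 := key 0 hr.le (by linarith : 0 ≤ H' + r)
  have h2 := key (r / 2) hH.le hr.le
  filter_upwards [h1, h2] with x h1 h2
  have e1 : x + 0 = x := by ring
  have e2 : r + (H' + r) = H' + 2 * r := by ring
  have e3 : x + (0 - (H' + r) / 2) = x + (-(H' / 2 + r / 2)) := by ring
  have e4 : x + (0 + r / 2) = x + r / 2 := by ring
  have e5 : x + (r / 2 - r / 2) = x := by ring
  have e6 : x + (r / 2 + H' / 2) = x + (H' / 2 + r / 2) := by ring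
  rw [e1, e2, e3, e4, h2, e5, e6] at h1
  rw [h1]
  ring

private theorem BridgeA_sqint {g : ℕ → ℝ} (hg : ∀ n, |g n| ≤ 1) {H : ℝ} (hH : 0 < H)
    (c a b : ℝ) : IntervalIntegrable (fun x => (MR g (x + c) H) ^ 2) volume a b := by
  refine BridgeA_int (M := (H + 1) ^ 2) ?_ ?_ a b
  · exact ((BridgeA_meas g hH).comp (measurable_id.add_const c)).pow_const 2
  · intro x
    rw [abs_of_nonneg (sq_nonneg _), ← sq_abs]
    exact pow_le_pow_left₀ (abs_nonneg _) (BridgeA_le hg hH _) 2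

private theorem BridgeA_short {g : ℕ → ℝ} (hg : ∀ n, |g n| ≤ 1) {X H r c : ℝ} (hX : 16 ≤ X)
    (hr : 0 < r) (hrH : r ≤ H) (hc : |c| ≤ X / 2)
    (hMS : ∀ Y ∈ ({X / 2, X, 2 * X} : Set ℝ), ∀ r : ℝ, 1 ≤ r → r ≤ H →
      ∫ x in Y..2 * Y, (MR g x r) ^ 2 ≤ 2 * Y * r) :
    ∫ x in X..2 * X, (MR g (x + c) r) ^ 2 ≤ 7 * X * r := by
  rcases lt_or_ge r 1 with h1 | h1
  · have h2 := H18.RM.int_short (BridgeA_gc hg) (U := X) (V := 2 * X) (c := c) (by linarith only [hX, hr, h1]) hr h1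
    simp only [BridgeA_norm, sq_abs] at h2
    refine h2.trans ?_
    nlinarith only [hr, hX]
  · have e1 : ∫ x in X..2 * X, (MR g (x + c) r) ^ 2 = ∫ y in (X + c)..(2 * X + c), (MR g y r) ^ 2 :=
      intervalIntegral.integral_comp_add_right (fun y => (MR g y r) ^ 2) c
    have hi : ∀ a b, IntervalIntegrable (fun x => (MR g x r) ^ 2) volume a b := by
      intro a b
      have := BridgeA_sqint hg hr 0 a b
      simpa only [add_zero] using this
    have hc' := abs_le.1 hc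
    have e2 : ∫ y in (X + c)..(2 * X + c), (MR g y r) ^ 2 ≤
        ∫ y in (X / 2)..(2 * (2 * X)), (MR g y r) ^ 2 := by
      apply intervalIntegral.integral_mono_interval (by linarith only [hc', hc'.1]) (by linarith)
        (by linarith only [hX, hc', hc'.2]) _ (hi _ _)
      exact Filter.Eventually.of_forall (fun y => by positivity)
    have e3 : ∫ y in (X / 2)..(2 * (2 * X)), (MR g y r) ^ 2 =
        (∫ y in (X / 2)..(2 * (X / 2)), (MR g y r) ^ 2) + (∫ y in X..(2 * X), (MR g y r) ^ 2) +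
        ∫ y in (2 * X)..(2 * (2 * X)), (MR g y r) ^ 2 := by
      have e4 : 2 * (X / 2) = X := by ring
      rw [e4, intervalIntegral.integral_add_adjacent_intervals (hi _ _) (hi _ _),
        intervalIntegral.integral_add_adjacent_intervals (hi _ _) (hi _ _)]
    have m1 := hMS (X / 2) (by simp) r h1 hrH
    have m2 := hMS X (by simp) r h1 hrH
    have m3 := hMS (2 * X) (by simp) r h1 hrH
    rw [e1]
    refine e2.trans ?_
    rw [e3]
    linarith only [m1, m2, m3]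

theorem phi_H : ∃ C : ℝ, 1 ≤ C ∧ ∀ (g : ℕ → ℝ), (∀ n, |g n| ≤ 1) → ∀ X H H' : ℝ, 16 ≤ X →
    1 ≤ H' → H' ≤ H → H ≤ 4 * H' → 4 * H ≤ X →
    (∀ Y ∈ ({X / 2, X, 2 * X} : Set ℝ), ∀ r : ℝ, 1 ≤ r → r ≤ H →
      ∫ x in Y..2 * Y, (MR g x r) ^ 2 ≤ 2 * Y * r) → ∀ t : ℝ,
    ‖phiC g X H t - phiC g X H' t‖ ≤ C * |t| * Real.sqrt ((H - H') / H + 1 / H) := by
  refine ⟨33, by norm_num, ?_⟩
  intro g hg X H H' hX hH1 hHH hH4 hHX hMS t
  have hX0 : 0 < X := by linarith
  have hH0' : 0 < H' := by linarith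
  have hH0 : 0 < H := by linarith
  rcases hHH.eq_or_lt with heq | hlt
  · rw [heq, sub_self, norm_zero]
    positivity
  set δ : ℝ := (H - H') / H with hδ
  have hδ0 : 0 < δ := div_pos (by linarith) hH0
  have hδ1 : δ ≤ 1 := by
    rw [hδ, div_le_one hH0]; linarith
  set r : ℝ := (H - H') / 2 with hr
  have hr0 : 0 < r := by rw [hr]; linarith
  have hrH : r ≤ H := by rw [hr]; linarith only [hH1, hHH]
  set D : ℝ → ℝ := fun x => MR g x H / sg H - MR g x H' / sg H' with hD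
  have hDm : Measurable D := ((BridgeA_meas g hH0).div_const _).sub
    ((BridgeA_meas g hH0').div_const _)
  -- the standard deviations
  have hpi : (0 : ℝ) < Real.pi ^ 2 / 6 := by positivity
  have hpi2 : Real.pi ^ 2 / 6 < 2 := by
    have := Real.pi_lt_d2
    have h3 := Real.pi_pos
    nlinarith only [this, h3]
  have hs2 : ∀ {y : ℝ}, 0 < y → sg y ^ 2 = y / (Real.pi ^ 2 / 6) := fun hy => by
    unfold sg
    rw [Real.sq_sqrt (by positivity)]
  have hs0 : ∀ {y : ℝ}, 0 < y → 0 < sg y := fun hy => by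
    unfold sg
    exact Real.sqrt_pos.mpr (by positivity)
  have hsH := hs0 hH0
  have hsH' := hs0 hH0'
  have hsle : sg H' ≤ sg H := by
    unfold sg
    apply Real.sqrt_le_sqrt
    gcongr
  -- bound of the difference of the inverses
  have hinv : |1 / sg H - 1 / sg H'| ≤ δ / sg H' := by
    have h1 : 1 / sg H ≤ 1 / sg H' := one_div_le_one_div_of_le hsH' hsle
    rw [abs_of_nonpos (by linarith only [h1])]
    -- sg H' / sg H ≥ H' / H
    have h2 : H' / H ≤ sg H' / sg H := by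
      have h3 : (sg H' / sg H) ^ 2 = H' / H := by
        rw [div_pow, hs2 hH0', hs2 hH0]
        field_simp
      have h4 : 0 < sg H' / sg H := div_pos hsH' hsH
      have h5 : sg H' / sg H ≤ 1 := (div_le_one hsH).mpr hsle
      rw [← h3]
      nlinarith only [h4, h5]
    have h6 : -(1 / sg H - 1 / sg H') = (1 - sg H' / sg H) / sg H' := by
      field_simp
      ring
    rw [h6]
    have h7 : 1 - sg H' / sg H ≤ δ := by
      have : δ = 1 - H' / H := by rw [hδ]; field_simp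
      rw [this]
      linarith only [h2]
    gcongr
  have i1 : ∀ c : ℝ, IntervalIntegrable (fun x => (MR g (x + c) r) ^ 2) volume X (2 * X) :=
    fun c => BridgeA_sqint hg hr0 c _ _
  have i2 : IntervalIntegrable (fun x => (MR g x H') ^ 2) volume X (2 * X) := by
    have := BridgeA_sqint hg hH0' 0 X (2 * X)
    simpa only [add_zero] using this
  set s : ℝ := H' / 2 + r / 2 with hs
  have hsX : |s| ≤ X / 2 := by
    rw [abs_of_pos (by rw [hs]; linarith only [hH1, hr0]), hs, hr]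
    linarith only [hX, hHH, hHX]
  have hsX' : |-s| ≤ X / 2 := by rw [abs_neg]; exact hsX
  have hb1 := BridgeA_short hg hX hr0 hrH hsX hMS
  have hb2 := BridgeA_short hg hX hr0 hrH hsX' hMS
  have hb3 : ∫ x in X..2 * X, (MR g x H') ^ 2 ≤ 2 * X * H' :=
    hMS X (by simp) H' hH1 hHH
  have hae := BridgeA_ae g hH0' hr0
  have hHr : H' + 2 * r = H := by rw [hr]; ring
  rw [hHr] at hae
  have hDint : IntervalIntegrable (fun x => D x ^ 2) volume X (2 * X) := by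
    refine BridgeA_int (M := ((H + 1) / sg H + (H' + 1) / sg H') ^ 2) (hDm.pow_const 2) ?_ _ _
    intro x
    rw [abs_of_nonneg (sq_nonneg _), ← sq_abs]
    refine pow_le_pow_left₀ (abs_nonneg _) ?_ 2
    refine (abs_sub _ _).trans (add_le_add ?_ ?_)
    · rw [abs_div, abs_of_pos hsH]
      exact div_le_div_of_nonneg_right (BridgeA_le hg hH0 x) hsH.le
    · rw [abs_div, abs_of_pos hsH']
      exact div_le_div_of_nonneg_right (BridgeA_le hg hH0' x) hsH'.le
  -- the mean square of `D`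
  have hD2 : ∫ x in X..2 * X, D x ^ 2 ≤ 64 * X * δ := by
    have hpt : ∀ᵐ x : ℝ, D x ^ 2 ≤ 4 / sg H ^ 2 * (MR g (x + s) r) ^ 2 +
        4 / sg H ^ 2 * (MR g (x + (-s)) r) ^ 2 + 2 * (δ / sg H') ^ 2 * (MR g x H') ^ 2 := by
      filter_upwards [hae] with x hx
      set a := MR g (x + s) r
      set b := MR g (x + (-s)) r
      set m := MR g x H' with hm
      have e1 : D x = (b + a) / sg H + m * (1 / sg H - 1 / sg H') := by
        simp only [hD]
        rw [hx]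
        ring
      rw [e1]
      have e2 : ((b + a) / sg H + m * (1 / sg H - 1 / sg H')) ^ 2 ≤
          2 * ((b + a) / sg H) ^ 2 + 2 * (m * (1 / sg H - 1 / sg H')) ^ 2 := by
        nlinarith only [sq_nonneg ((b + a) / sg H - m * (1 / sg H - 1 / sg H'))]
      refine e2.trans ?_
      have e3 : 2 * ((b + a) / sg H) ^ 2 ≤ 4 / sg H ^ 2 * a ^ 2 + 4 / sg H ^ 2 * b ^ 2 := by
        have e4 : 2 * ((b + a) / sg H) ^ 2 = 2 / sg H ^ 2 * (b + a) ^ 2 := by
          rw [div_pow]; ring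
        have e5 : 4 / sg H ^ 2 * a ^ 2 + 4 / sg H ^ 2 * b ^ 2 =
            2 / sg H ^ 2 * (2 * a ^ 2 + 2 * b ^ 2) := by ring
        rw [e4, e5]
        refine mul_le_mul_of_nonneg_left ?_ (by positivity)
        nlinarith only [sq_nonneg (a - b)]
      have e6 : 2 * (m * (1 / sg H - 1 / sg H')) ^ 2 ≤ 2 * (δ / sg H') ^ 2 * m ^ 2 := by
        rw [mul_pow, ← sq_abs (1 / sg H - 1 / sg H')]
        have : |1 / sg H - 1 / sg H'| ^ 2 ≤ (δ / sg H') ^ 2 :=
          pow_le_pow_left₀ (abs_nonneg _) hinv 2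
        nlinarith only [this, sq_nonneg m]
      linarith only [e3, e6]
    have hI := intervalIntegral.integral_mono_ae (by linarith only [hX] : X ≤ 2 * X) hDint
      ((((i1 s).const_mul (4 / sg H ^ 2)).add ((i1 (-s)).const_mul (4 / sg H ^ 2))).add
        (i2.const_mul (2 * (δ / sg H') ^ 2))) hpt
    refine hI.trans ?_
    have hI2 : ∫ x in X..2 * X, (4 / sg H ^ 2 * (MR g (x + s) r) ^ 2 +
        4 / sg H ^ 2 * (MR g (x + (-s)) r) ^ 2 + 2 * (δ / sg H') ^ 2 * (MR g x H') ^ 2) =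
        4 / sg H ^ 2 * (∫ x in X..2 * X, (MR g (x + s) r) ^ 2) +
        4 / sg H ^ 2 * (∫ x in X..2 * X, (MR g (x + (-s)) r) ^ 2) +
        2 * (δ / sg H') ^ 2 * (∫ x in X..2 * X, (MR g x H') ^ 2) := by
      rw [intervalIntegral.integral_add (((i1 s).const_mul _).add ((i1 (-s)).const_mul _))
          (i2.const_mul _),
        intervalIntegral.integral_add ((i1 s).const_mul _) ((i1 (-s)).const_mul _),
        intervalIntegral.integral_const_mul, intervalIntegral.integral_const_mul,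
        intervalIntegral.integral_const_mul]
    have hI3 : 4 / sg H ^ 2 * (∫ x in X..2 * X, (MR g (x + s) r) ^ 2) +
        4 / sg H ^ 2 * (∫ x in X..2 * X, (MR g (x + (-s)) r) ^ 2) +
        2 * (δ / sg H') ^ 2 * (∫ x in X..2 * X, (MR g x H') ^ 2) ≤
        4 / sg H ^ 2 * (7 * X * r) + 4 / sg H ^ 2 * (7 * X * r) +
        2 * (δ / sg H') ^ 2 * (2 * X * H') := by
      gcongr
    have hI4 : 4 / sg H ^ 2 * (7 * X * r) + 4 / sg H ^ 2 * (7 * X * r) +
        2 * (δ / sg H') ^ 2 * (2 * X * H') = Real.pi ^ 2 / 6 * X * (28 * δ + 4 * δ ^ 2) := by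
      rw [div_pow, hs2 hH0, hs2 hH0', hr, hδ]
      field_simp
      ring
    have hI5 : Real.pi ^ 2 / 6 * X * (28 * δ + 4 * δ ^ 2) ≤ 64 * X * δ := by
      have h1 : 28 * δ + 4 * δ ^ 2 ≤ 32 * δ := by nlinarith only [hδ0, hδ1]
      calc Real.pi ^ 2 / 6 * X * (28 * δ + 4 * δ ^ 2) ≤ 2 * X * (32 * δ) := by
            gcongr
        _ = 64 * X * δ := by ring
    rw [hI4] at hI3
    calc _ = _ := hI2
      _ ≤ _ := hI3
      _ ≤ _ := hI5
  -- from the mean square to the mean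
  have hsδ : 0 < Real.sqrt δ := Real.sqrt_pos.mpr hδ0
  have hsδ2 : Real.sqrt δ * Real.sqrt δ = δ := Real.mul_self_sqrt hδ0.le
  have hDabs : ∫ x in X..2 * X, |D x| ≤ 33 * X * Real.sqrt δ := by
    have hpt : ∀ x, |D x| ≤ Real.sqrt δ / 2 + 1 / (2 * Real.sqrt δ) * D x ^ 2 := by
      intro x
      have h1 : 0 ≤ (|D x| - Real.sqrt δ) ^ 2 / (2 * Real.sqrt δ) := by positivity
      have h2 : (|D x| - Real.sqrt δ) ^ 2 / (2 * Real.sqrt δ) =
          Real.sqrt δ / 2 + 1 / (2 * Real.sqrt δ) * D x ^ 2 - |D x| := by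
        rw [← sq_abs (D x)]
        field_simp
        ring
      linarith only [h1, h2]
    have hDabsint : IntervalIntegrable (fun x => |D x|) volume X (2 * X) := by
      refine BridgeA_int (M := (H + 1) / sg H + (H' + 1) / sg H') hDm.abs ?_ _ _
      intro x
      rw [abs_abs]
      refine (abs_sub _ _).trans (add_le_add ?_ ?_)
      · rw [abs_div, abs_of_pos hsH]
        exact div_le_div_of_nonneg_right (BridgeA_le hg hH0 x) hsH.le
      · rw [abs_div, abs_of_pos hsH']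
        exact div_le_div_of_nonneg_right (BridgeA_le hg hH0' x) hsH'.le
    have hI := intervalIntegral.integral_mono (by linarith only [hX] : X ≤ 2 * X) hDabsint
      ((intervalIntegrable_const (c := Real.sqrt δ / 2)).add
        (hDint.const_mul (1 / (2 * Real.sqrt δ)))) hpt
    refine hI.trans ?_
    have hI2 : ∫ x in X..2 * X, (Real.sqrt δ / 2 + 1 / (2 * Real.sqrt δ) * D x ^ 2) =
        X * (Real.sqrt δ / 2) + 1 / (2 * Real.sqrt δ) * ∫ x in X..2 * X, D x ^ 2 := by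
      rw [intervalIntegral.integral_add intervalIntegrable_const (hDint.const_mul _),
        intervalIntegral.integral_const_mul, intervalIntegral.integral_const, smul_eq_mul]
      ring
    have hI3 : 1 / (2 * Real.sqrt δ) * ∫ x in X..2 * X, D x ^ 2 ≤
        1 / (2 * Real.sqrt δ) * (64 * X * δ) := mul_le_mul_of_nonneg_left hD2 (by positivity)
    have hI4 : 1 / (2 * Real.sqrt δ) * (64 * X * δ) = 32 * X * Real.sqrt δ := by
      have h1 : 1 / (2 * Real.sqrt δ) * (64 * X * δ) =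
          1 / (2 * Real.sqrt δ) * (64 * X * (Real.sqrt δ * Real.sqrt δ)) := by rw [hsδ2]
      rw [h1]
      field_simp
      ring
    rw [hI4] at hI3
    calc _ = _ := hI2
      _ ≤ X * (Real.sqrt δ / 2) + 32 * X * Real.sqrt δ := by linarith only [hI3]
      _ ≤ 33 * X * Real.sqrt δ := by nlinarith only [hsδ, hX]
  -- the difference of the characteristic functions
  have hfin : ‖phiC g X H t - phiC g X H' t‖ ≤ 33 * |t| * Real.sqrt δ := by
    have e0 : phiC g X H t - phiC g X H' t =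
        (1 / (X : ℂ)) * ∫ x in X..2 * X, (BridgeA_f g H t x - BridgeA_f g H' t x) := by
      rw [intervalIntegral.integral_sub (BridgeA_f_int g hH0 t _ _)
        (BridgeA_f_int g hH0' t _ _)]
      have h2 : phiC g X H t = (1 / (X : ℂ)) * ∫ x in X..2 * X, BridgeA_f g H t x := rfl
      have h3 : phiC g X H' t = (1 / (X : ℂ)) * ∫ x in X..2 * X, BridgeA_f g H' t x := rfl
      rw [h2, h3]
      ring
    have hDabsint : IntervalIntegrable (fun x => |t| * |D x|) volume X (2 * X) := by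
      refine BridgeA_int (M := |t| * ((H + 1) / sg H + (H' + 1) / sg H'))
        (hDm.abs.const_mul _) ?_ _ _
      intro x
      rw [abs_mul, abs_abs, abs_abs]
      refine mul_le_mul_of_nonneg_left ?_ (abs_nonneg _)
      refine (abs_sub _ _).trans (add_le_add ?_ ?_)
      · rw [abs_div, abs_of_pos hsH]
        exact div_le_div_of_nonneg_right (BridgeA_le hg hH0 x) hsH.le
      · rw [abs_div, abs_of_pos hsH']
        exact div_le_div_of_nonneg_right (BridgeA_le hg hH0' x) hsH'.le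
    have hle : ‖∫ x in X..2 * X, (BridgeA_f g H t x - BridgeA_f g H' t x)‖ ≤
        ∫ x in X..2 * X, |t| * |D x| := by
      refine intervalIntegral.norm_integral_le_of_norm_le (by linarith only [hX]) ?_ hDabsint
      refine Filter.Eventually.of_forall fun x _ => ?_
      refine (BridgeA_exp _ _).trans ?_
      rw [← mul_sub, abs_mul]
    rw [intervalIntegral.integral_const_mul] at hle
    rw [e0, norm_mul, norm_div, norm_one, Complex.norm_real, Real.norm_eq_abs, abs_of_pos hX0]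
    calc 1 / X * ‖∫ x in X..2 * X, (BridgeA_f g H t x - BridgeA_f g H' t x)‖
        ≤ 1 / X * (|t| * (33 * X * Real.sqrt δ)) := by
          refine mul_le_mul_of_nonneg_left (hle.trans ?_) (by positivity)
          exact mul_le_mul_of_nonneg_left hDabs (abs_nonneg _)
      _ = 33 * |t| * Real.sqrt δ := by
          field_simp
  refine hfin.trans ?_
  refine mul_le_mul_of_nonneg_left ?_ (by positivity)
  apply Real.sqrt_le_sqrt
  have : 0 ≤ 1 / H := by positivity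
  linarith only [this]

end Pool.Agent.H41.RG

end

section

/-!
# RG Mom: second and fourth moments

All three from `Sp_mul` and `Pool.Agent.H18.RM.second_moment` (with `K = 1`, `κ = 1`), which bounds
the second moment of `∑_{s ∈ S} f(s.1) f(s.2)` by the number of `t ∈ S × S` with square product.

`momA`: a.e. `∑_{p<m} Sp² - #W = ∑_{(n,n') ∈ S} f(n) f(n')`, `S` = pairs of `W × W` with `n ≠ n'`,
`lp n = lp n'` (the diagonal `n = n'` gives `f(n)² = 1` for each `n ∈ W`).  In a quadruple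
`(n,m),(n',m') ∈ S × S` with square product either all four are different (`Q4`), or two are
equal; as `n ≠ m`, `n' ≠ m'` this means `n = n'` (then `m m'` is a square, so `m = m'`), or `n = m'`
(then `m = n'`), etc.: at most `2 #S = 2 D1` of these (for two squarefree numbers with square
product are equal: `Pool.Agent.H18.RM.CountS_eq`; `CountS_sq_of_mul` cancels a square factor).
`momB`: `Sp² = N_p + O_p` with `N_p` the number of `n ∈ W` with `lp n = p` and `O_p` the off-diagonal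
sum with both `lp = p`; `Sp⁴ ≤ 2 N_p² + 2 O_p²`; `∑_p N_p² = #W + D1`;
`∑_p E O_p² ≤ ∑_p #{t ∈ S_p × S_p square} ≤ #{t ∈ S × S square} ≤ 2 D1 + Q4`.
`momC` (`W`, `W'` disjoint): `∑_{p<m} Sp(W) Sp(W') = ∑_{(n,m) ∈ S'} f(n) f(m)`, `S'` = pairs of
`W × W'` with the same `lp`; for `(n,m),(n',m') ∈ S'` with square product `n = n'` iff `m = m'`.
-/

set_option autoImplicit false

namespace Pool.Agent.H41.RG

open Finset MeasureTheory ProbabilityTheory
open Pool.Agent.H18.RM (IsSigns rmf)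

variable {Ω : Type*} [mΩ : MeasurableSpace Ω] {P : Measure Ω} [IsProbabilityMeasure P]
  {e : ℕ → Ω → ℝ}

private theorem Mom_sm (h : IsSigns P e) (S : Finset (ℕ × ℕ)) :
    Integrable (fun ω => (∑ s ∈ S, rmf e ω s.1 * rmf e ω s.2) ^ 2) P ∧
    ∫ ω, (∑ s ∈ S, rmf e ω s.1 * rmf e ω s.2) ^ 2 ∂P ≤
      (((S ×ˢ S).filter (fun t => IsSquare (t.1.1 * t.1.2 * (t.2.1 * t.2.2)))).card : ℝ) := by
  have h1 := Pool.Agent.H18.RM.second_moment h S (fun _ => 1) (κ := 1) (fun s _ => by simp)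
  simp only [mul_one, one_pow, one_mul] at h1
  refine ⟨h1.1, h1.2.trans ?_⟩
  have h2 : ((S ×ˢ S).filter (fun t => (Squarefree t.1.1 ∧ Squarefree t.1.2 ∧
        Squarefree t.2.1 ∧ Squarefree t.2.2) ∧ IsSquare (t.1.1 * t.1.2 * (t.2.1 * t.2.2)))).card ≤
      ((S ×ˢ S).filter (fun t => IsSquare (t.1.1 * t.1.2 * (t.2.1 * t.2.2)))).card := by
    refine Finset.card_le_card fun t ht => ?_
    rw [Finset.mem_filter] at ht ⊢
    exact ⟨ht.1, ht.2.2⟩
  exact_mod_cast h2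

private theorem Mom_sq (h : IsSigns P e) :
    ∀ᵐ ω ∂P, ∀ n, Squarefree n → rmf e ω n * rmf e ω n = 1 := by
  filter_upwards [h.ae_signs] with ω hω n hn
  unfold rmf
  rw [if_pos hn, ← Finset.prod_mul_distrib]
  refine Finset.prod_eq_one fun p _ => ?_
  rcases hω p with h1 | h1 <;> rw [h1] <;> norm_num

/-- partition by the largest prime factor -/
private theorem Mom_fiber {W W' : Finset ℕ} {m : ℕ} (hm : ∀ n ∈ W, lp n < m) (F : ℕ × ℕ → ℝ) :
    ∑ p ∈ range m, ∑ t ∈ (W ×ˢ W').filter (fun t => lp t.1 = p ∧ lp t.2 = p), F t =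
      ∑ t ∈ (W ×ˢ W').filter (fun t => lp t.1 = lp t.2), F t := by
  have h1 : ∀ t ∈ (W ×ˢ W').filter (fun t => lp t.1 = lp t.2), lp t.1 ∈ range m := by
    intro t ht
    rw [Finset.mem_filter, Finset.mem_product] at ht
    exact Finset.mem_range.2 (hm _ ht.1.1)
  rw [← Finset.sum_fiberwise_of_maps_to h1]
  refine Finset.sum_congr rfl fun p _ => Finset.sum_congr ?_ fun _ _ => rfl
  ext t
  simp only [Finset.mem_filter]
  constructor
  · rintro ⟨h2, h3, h4⟩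
    exact ⟨⟨h2, h3.trans h4.symm⟩, h3⟩
  · rintro ⟨⟨h2, h3⟩, h4⟩
    exact ⟨h2, h4, h3 ▸ h4⟩

/-- the diagonal is split off -/
private theorem Mom_diag (W : Finset ℕ) (Q : ℕ × ℕ → Prop) [DecidablePred Q]
    (F : ℕ × ℕ → ℝ) :
    ∑ t ∈ (W ×ˢ W).filter Q, F t = ∑ n ∈ W.filter (fun n => Q (n, n)), F (n, n) +
      ∑ t ∈ (W ×ˢ W).filter (fun t => t.1 ≠ t.2 ∧ Q t), F t := by
  rw [← Finset.sum_filter_add_sum_filter_not ((W ×ˢ W).filter Q) (fun t => t.1 = t.2)]
  congr 1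
  · symm
    refine Finset.sum_bij (fun n _ => (n, n)) ?_ ?_ ?_ ?_
    · intro n hn
      rw [Finset.mem_filter] at hn
      rw [Finset.mem_filter, Finset.mem_filter, Finset.mem_product]
      exact ⟨⟨⟨hn.1, hn.1⟩, hn.2⟩, rfl⟩
    · intro n _ n' _ h
      exact congrArg Prod.fst h
    · rintro ⟨a, b⟩ ht
      rw [Finset.mem_filter, Finset.mem_filter, Finset.mem_product] at ht
      obtain ⟨⟨⟨h1, -⟩, h2⟩, h3⟩ := ht
      have h3' : a = b := h3
      subst h3'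
      exact ⟨a, Finset.mem_filter.2 ⟨h1, h2⟩, rfl⟩
    · intro n _
      rfl
  · refine Finset.sum_congr ?_ fun _ _ => rfl
    ext t
    simp only [Finset.mem_filter]
    constructor
    · rintro ⟨⟨h1, h2⟩, h3⟩
      exact ⟨h1, h3, h2⟩
    · rintro ⟨h1, h2, h3⟩
      exact ⟨⟨h1, h3⟩, h2⟩

private theorem Mom_eq {W W' : Finset ℕ} (hW : ∀ n ∈ W, Squarefree n ∧ 2 ≤ n)
    (hW' : ∀ n ∈ W', Squarefree n ∧ 2 ≤ n) {a b c d : ℕ} (ha : a ∈ W) (hb : b ∈ W') (hd : d ∈ W')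
    (hac : a = c) (hs : IsSquare (a * b * (c * d))) : b = d := by
  subst hac
  refine Pool.Agent.H18.RM.CountS_eq (hW' b hb).1 (hW' d hd).1 ?_
  refine Pool.Agent.H18.RM.CountS_sq_of_mul (k := a) (by have := (hW a ha).2; omega) ?_
  have e : a ^ 2 * (b * d) = a * b * (a * d) := by ring
  rw [e]
  exact hs

private theorem Mom_perm {a b c d : ℕ} (hs : IsSquare (a * b * (c * d))) :
    IsSquare (b * a * (d * c)) ∧ IsSquare (a * b * (d * c)) ∧ IsSquare (b * a * (c * d)) := by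
  rw [mul_comm b a, mul_comm d c]
  exact ⟨hs, hs, hs⟩

private theorem Mom_countA {W : Finset ℕ} (hW : ∀ n ∈ W, Squarefree n ∧ 2 ≤ n)
    (S : Finset (ℕ × ℕ)) (hS : S = (W ×ˢ W).filter (fun t => t.1 ≠ t.2 ∧ lp t.1 = lp t.2)) :
    ((S ×ˢ S).filter (fun t => IsSquare (t.1.1 * t.1.2 * (t.2.1 * t.2.2)))).card ≤
      2 * D1 W + Q4 W := by
  have hSc : S.card = D1 W := by rw [hS]; rfl
  have hsub : (S ×ˢ S).filter (fun t => IsSquare (t.1.1 * t.1.2 * (t.2.1 * t.2.2))) ⊆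
      (S.image (fun s => (s, s)) ∪ S.image (fun s => (s, (s.2, s.1)))) ∪
      ((W ×ˢ W) ×ˢ (W ×ˢ W)).filter (fun t =>
    (t.1.1 ≠ t.1.2 ∧ t.2.1 ≠ t.2.2 ∧ t.1.1 ≠ t.2.1 ∧ t.1.1 ≠ t.2.2 ∧ t.1.2 ≠ t.2.1 ∧
      t.1.2 ≠ t.2.2) ∧ IsSquare (t.1.1 * t.1.2 * (t.2.1 * t.2.2))) := by
    rintro ⟨⟨a, b⟩, ⟨c, d⟩⟩ ht
    rw [Finset.mem_filter, Finset.mem_product] at ht
    obtain ⟨⟨h1, h2⟩, hs⟩ := ht
    have hs' : IsSquare (a * b * (c * d)) := hs
    obtain ⟨p1, p2, p3⟩ := Mom_perm hs'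
    have h1' := h1
    have h2' := h2
    rw [hS, Finset.mem_filter, Finset.mem_product] at h1' h2'
    obtain ⟨⟨ha, hb⟩, hab, -⟩ := h1'
    obtain ⟨⟨hc, hd⟩, hcd, -⟩ := h2'
    simp only at ha hb hab hc hd hcd
    by_cases e1 : a = c
    · have e2 := Mom_eq hW hW ha hb hd e1 hs'
      subst e1 e2
      exact Finset.mem_union_left _ (Finset.mem_union_left _ (Finset.mem_image.2 ⟨_, h1, rfl⟩))
    by_cases e3 : a = d
    · have e2 := Mom_eq hW hW ha hb hc e3 p2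
      subst e3 e2
      exact Finset.mem_union_left _ (Finset.mem_union_right _ (Finset.mem_image.2 ⟨_, h1, rfl⟩))
    by_cases e4 : b = c
    · have e2 := Mom_eq hW hW hb ha hd e4 p3
      exact absurd e2 e3
    by_cases e5 : b = d
    · have e2 := Mom_eq hW hW hb ha hc e5 p1
      exact absurd e2 e1
    refine Finset.mem_union_right _ (Finset.mem_filter.2 ⟨?_, ⟨hab, hcd, e1, e3, e4, e5⟩, hs⟩)
    exact Finset.mem_product.2 ⟨Finset.mem_product.2 ⟨ha, hb⟩, Finset.mem_product.2 ⟨hc, hd⟩⟩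
  refine (Finset.card_le_card hsub).trans ((Finset.card_union_le _ _).trans ?_)
  refine Nat.add_le_add ((Finset.card_union_le _ _).trans ?_) le_rfl
  rw [two_mul, ← hSc]
  exact Nat.add_le_add Finset.card_image_le Finset.card_image_le

private theorem Mom_countC {W W' : Finset ℕ} (hW : ∀ n ∈ W, Squarefree n ∧ 2 ≤ n)
    (hW' : ∀ n ∈ W', Squarefree n ∧ 2 ≤ n)
    (S : Finset (ℕ × ℕ)) (hS : S = (W ×ˢ W').filter (fun t => lp t.1 = lp t.2)) :
    ((S ×ˢ S).filter (fun t => IsSquare (t.1.1 * t.1.2 * (t.2.1 * t.2.2)))).card ≤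
      T2 W W' + Q22 W W' := by
  have hSc : S.card = T2 W W' := by rw [hS]; rfl
  have hsub : (S ×ˢ S).filter (fun t => IsSquare (t.1.1 * t.1.2 * (t.2.1 * t.2.2))) ⊆
      S.image (fun s => (s, s)) ∪
      ((W ×ˢ W') ×ˢ (W ×ˢ W')).filter (fun t =>
    (t.1.1 ≠ t.2.1 ∧ t.1.2 ≠ t.2.2) ∧ IsSquare (t.1.1 * t.1.2 * (t.2.1 * t.2.2))) := by
    rintro ⟨⟨a, b⟩, ⟨c, d⟩⟩ ht
    rw [Finset.mem_filter, Finset.mem_product] at ht
    obtain ⟨⟨h1, h2⟩, hs⟩ := ht
    have hs' : IsSquare (a * b * (c * d)) := hs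
    obtain ⟨p1, p2, p3⟩ := Mom_perm hs'
    have h1' := h1
    have h2' := h2
    rw [hS, Finset.mem_filter, Finset.mem_product] at h1' h2'
    obtain ⟨⟨ha, hb⟩, -⟩ := h1'
    obtain ⟨⟨hc, hd⟩, -⟩ := h2'
    simp only at ha hb hc hd
    by_cases e1 : a = c
    · have e2 := Mom_eq hW hW' ha hb hd e1 hs'
      subst e1 e2
      exact Finset.mem_union_left _ (Finset.mem_image.2 ⟨_, h1, rfl⟩)
    by_cases e5 : b = d
    · have e2 := Mom_eq hW' hW hb ha hc e5 p1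
      exact absurd e2 e1
    refine Finset.mem_union_right _ (Finset.mem_filter.2 ⟨?_, ⟨e1, e5⟩, hs⟩)
    exact Finset.mem_product.2 ⟨Finset.mem_product.2 ⟨ha, hb⟩, Finset.mem_product.2 ⟨hc, hd⟩⟩
  refine (Finset.card_le_card hsub).trans ((Finset.card_union_le _ _).trans ?_)
  refine Nat.add_le_add ?_ le_rfl
  rw [← hSc]
  exact Finset.card_image_le

theorem momA (h : IsSigns P e) {W : Finset ℕ} (hW : ∀ n ∈ W, Squarefree n ∧ 2 ≤ n) {m : ℕ}
    (hm : ∀ n ∈ W, n < m) :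
    ∫ ω, (∑ p ∈ range m, Sp e W p ω ^ 2 - W.card) ^ 2 ∂P ≤ 2 * D1 W + Q4 W := by
  have hm' : ∀ n ∈ W, lp n < m := fun n hn =>
    lt_of_le_of_lt (lp_facts (hW n hn).1 (hW n hn).2).2.2.1 (hm n hn)
  have hae : ∀ᵐ ω ∂P, (∑ p ∈ range m, Sp e W p ω ^ 2 - W.card) ^ 2 =
      (∑ s ∈ (W ×ˢ W).filter (fun t => t.1 ≠ t.2 ∧ lp t.1 = lp t.2),
        rmf e ω s.1 * rmf e ω s.2) ^ 2 := by
    filter_upwards [Sp_mul h hW hW, Mom_sq h] with ω h1 h2
    congr 1
    have h3 : ∑ p ∈ range m, Sp e W p ω ^ 2 =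
        ∑ t ∈ (W ×ˢ W).filter (fun t => lp t.1 = lp t.2), rmf e ω t.1 * rmf e ω t.2 := by
      rw [← Mom_fiber hm']
      exact Finset.sum_congr rfl fun p _ => by rw [sq, h1 p]
    rw [h3, Mom_diag W (fun t => lp t.1 = lp t.2)]
    have h4 : ∑ n ∈ W.filter (fun n => lp (n, n).1 = lp (n, n).2),
        rmf e ω (n, n).1 * rmf e ω (n, n).2 = (W.card : ℝ) := by
      rw [Finset.filter_true_of_mem (fun n _ => rfl),
        Finset.sum_congr rfl (fun n hn => h2 n (hW n hn).1), Finset.sum_const, nsmul_eq_mul,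
        mul_one]
    rw [h4]
    ring
  rw [integral_congr_ae hae]
  refine (Mom_sm h _).2.trans ?_
  exact_mod_cast Mom_countA hW _ rfl

theorem momB (h : IsSigns P e) {W : Finset ℕ} (hW : ∀ n ∈ W, Squarefree n ∧ 2 ≤ n) {m : ℕ}
    (hm : ∀ n ∈ W, n < m) :
    ∫ ω, ∑ p ∈ range m, Sp e W p ω ^ 4 ∂P ≤ 2 * W.card + 6 * D1 W + 2 * Q4 W := by
  have hm' : ∀ n ∈ W, lp n < m := fun n hn =>
    lt_of_le_of_lt (lp_facts (hW n hn).1 (hW n hn).2).2.2.1 (hm n hn)
  set Sf : ℕ → Finset (ℕ × ℕ) := fun p =>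
    (W ×ˢ W).filter (fun t => t.1 ≠ t.2 ∧ (lp t.1 = p ∧ lp t.2 = p)) with hSf
  set N : ℕ → ℝ := fun p => ((W.filter (fun n => lp n = p)).card : ℝ) with hN
  have hae : ∀ᵐ ω ∂P, ∑ p ∈ range m, Sp e W p ω ^ 4 ≤
      ∑ p ∈ range m, (2 * N p ^ 2 + 2 * (∑ s ∈ Sf p, rmf e ω s.1 * rmf e ω s.2) ^ 2) := by
    filter_upwards [Sp_mul h hW hW, Mom_sq h] with ω h1 h2
    refine Finset.sum_le_sum fun p _ => ?_
    have h3 : Sp e W p ω ^ 2 = N p + ∑ s ∈ Sf p, rmf e ω s.1 * rmf e ω s.2 := by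
      rw [sq, h1 p, Mom_diag W (fun t => lp t.1 = p ∧ lp t.2 = p)]
      congr 1
      have h5 : W.filter (fun n => lp (n, n).1 = p ∧ lp (n, n).2 = p) =
          W.filter (fun n => lp n = p) := by
        refine Finset.filter_congr fun n _ => ?_
        exact and_self_iff
      rw [h5, Finset.sum_congr rfl (fun n hn => h2 n (hW n (Finset.mem_filter.1 hn).1).1),
        Finset.sum_const, nsmul_eq_mul, mul_one]
    have h4 : Sp e W p ω ^ 4 = (Sp e W p ω ^ 2) ^ 2 := by ring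
    rw [h4, h3]
    nlinarith [sq_nonneg (N p - ∑ s ∈ Sf p, rmf e ω s.1 * rmf e ω s.2)]
  have hint : ∀ p, Integrable (fun ω => (∑ s ∈ Sf p, rmf e ω s.1 * rmf e ω s.2) ^ 2) P :=
    fun p => (Mom_sm h _).1
  have hint2 : ∀ p, Integrable (fun ω =>
      2 * N p ^ 2 + 2 * (∑ s ∈ Sf p, rmf e ω s.1 * rmf e ω s.2) ^ 2) P :=
    fun p => (integrable_const _).add ((hint p).const_mul 2)
  have h1 : ∫ ω, ∑ p ∈ range m, Sp e W p ω ^ 4 ∂P ≤
      ∫ ω, ∑ p ∈ range m, (2 * N p ^ 2 + 2 * (∑ s ∈ Sf p, rmf e ω s.1 * rmf e ω s.2) ^ 2) ∂P := by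
    refine integral_mono_of_nonneg (Filter.Eventually.of_forall fun ω => ?_)
      (integrable_finsetSum _ fun p _ => hint2 p) hae
    exact Finset.sum_nonneg fun p _ => by positivity
  refine h1.trans ?_
  rw [integral_finsetSum _ fun p _ => hint2 p]
  have h2 : ∀ p ∈ range m, ∫ ω, (2 * N p ^ 2 +
      2 * (∑ s ∈ Sf p, rmf e ω s.1 * rmf e ω s.2) ^ 2) ∂P ≤ 2 * N p ^ 2 + 2 *
        ((((Sf p) ×ˢ (Sf p)).filter
          (fun t => IsSquare (t.1.1 * t.1.2 * (t.2.1 * t.2.2)))).card : ℝ) := by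
    intro p _
    rw [integral_add (integrable_const _) ((hint p).const_mul 2), integral_const,
      integral_const_mul]
    simp only [probReal_univ, one_smul]
    have := (Mom_sm h (Sf p)).2
    linarith
  refine (Finset.sum_le_sum h2).trans ?_
  rw [Finset.sum_add_distrib, ← Finset.mul_sum, ← Finset.mul_sum]
  have h3 : ∑ p ∈ range m, N p ^ 2 = W.card + D1 W := by
    have e1 : ∀ p ∈ range m, N p ^ 2 =
        ∑ t ∈ (W ×ˢ W).filter (fun t => lp t.1 = p ∧ lp t.2 = p), (1 : ℝ) := by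
      intro p _
      have e2 : (W ×ˢ W).filter (fun t => lp t.1 = p ∧ lp t.2 = p) =
          (W.filter (fun n => lp n = p)) ×ˢ (W.filter (fun n => lp n = p)) := by
        ext t
        simp only [Finset.mem_filter, Finset.mem_product]
        tauto
      rw [e2, Finset.sum_const, Finset.card_product, nsmul_eq_mul, mul_one, Nat.cast_mul, sq]
    rw [Finset.sum_congr rfl e1, Mom_fiber hm' (fun _ => (1 : ℝ)),
      Mom_diag W (fun t => lp t.1 = lp t.2) (fun _ => (1 : ℝ))]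
    rw [Finset.filter_true_of_mem (fun n _ => rfl), Finset.sum_const, Finset.sum_const,
      nsmul_eq_mul, nsmul_eq_mul, mul_one, mul_one]
    rfl
  set S : Finset (ℕ × ℕ) := (W ×ˢ W).filter (fun t => t.1 ≠ t.2 ∧ lp t.1 = lp t.2) with hS
  have h4 : ∑ p ∈ range m, ((((Sf p) ×ˢ (Sf p)).filter
      (fun t => IsSquare (t.1.1 * t.1.2 * (t.2.1 * t.2.2)))).card : ℝ) ≤
      (((S ×ˢ S).filter (fun t => IsSquare (t.1.1 * t.1.2 * (t.2.1 * t.2.2)))).card : ℝ) := by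
    have e1 : ∀ t ∈ (S ×ˢ S).filter (fun t => IsSquare (t.1.1 * t.1.2 * (t.2.1 * t.2.2))),
        lp t.1.1 ∈ range m := by
      intro t ht
      rw [Finset.mem_filter, Finset.mem_product, hS, Finset.mem_filter, Finset.mem_product] at ht
      exact Finset.mem_range.2 (hm' _ ht.1.1.1.1)
    rw [Finset.card_eq_sum_card_fiberwise e1, ← Nat.cast_sum]
    refine Nat.cast_le.2 (Finset.sum_le_sum fun p _ => Finset.card_le_card fun t ht => ?_)
    simp only [hSf, hS, Finset.mem_filter, Finset.mem_product] at ht ⊢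
    obtain ⟨⟨⟨⟨h5, h6⟩, h7, h8, h9⟩, ⟨⟨h10, h11⟩, h12, h13, h14⟩⟩, h15⟩ := ht
    exact ⟨⟨⟨⟨⟨h5, h6⟩, h7, h8.trans h9.symm⟩, ⟨⟨h10, h11⟩, h12, h13.trans h14.symm⟩⟩, h15⟩, h8⟩
  have h5 : (((S ×ˢ S).filter (fun t =>
      IsSquare (t.1.1 * t.1.2 * (t.2.1 * t.2.2)))).card : ℝ) ≤ 2 * D1 W + Q4 W := by
    exact_mod_cast Mom_countA hW S hS
  rw [h3]
  linarith

theorem momC (h : IsSigns P e) {W W' : Finset ℕ} (hW : ∀ n ∈ W, Squarefree n ∧ 2 ≤ n)
    (hW' : ∀ n ∈ W', Squarefree n ∧ 2 ≤ n) (hd : Disjoint W W') {m : ℕ}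
    (hm : ∀ n ∈ W, n < m) (hm' : ∀ n ∈ W', n < m) :
    ∫ ω, (∑ p ∈ range m, Sp e W p ω * Sp e W' p ω) ^ 2 ∂P ≤ T2 W W' + Q22 W W' := by
  have hm1 : ∀ n ∈ W, lp n < m := fun n hn =>
    lt_of_le_of_lt (lp_facts (hW n hn).1 (hW n hn).2).2.2.1 (hm n hn)
  have hae : ∀ᵐ ω ∂P, (∑ p ∈ range m, Sp e W p ω * Sp e W' p ω) ^ 2 =
      (∑ s ∈ (W ×ˢ W').filter (fun t => lp t.1 = lp t.2),
        rmf e ω s.1 * rmf e ω s.2) ^ 2 := by
    filter_upwards [Sp_mul h hW hW'] with ω h1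
    congr 1
    rw [← Mom_fiber hm1]
    exact Finset.sum_congr rfl fun p _ => h1 p
  rw [integral_congr_ae hae]
  refine (Mom_sm h _).2.trans ?_
  exact_mod_cast Mom_countC hW hW' _ rfl

end Pool.Agent.H41.RG

end

section

/-!
# RG Char: characteristic functions of one and of two window sums

`charA`: `mart` with `a p = θ Sp e W p` (`sum_rmf`), `m` larger than all elements of `W`:
`E|θ² ∑ Sp² - v| ≤ |θ² #W - v| + θ² E|∑ Sp² - #W|` and `|Y| ≤ δ + Y²/δ` with `momA`;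
`∑ a⁴ = θ⁴ ∑ Sp⁴` with `momB`.
`charB`: `mart` with `a p = θ (Sp e W p - Sp e W' p)`:
`∑ a² = θ² (∑ Sp² + ∑ Sp'² - 2 ∑ Sp Sp')`, `|2 C| ≤ δ + C²/δ`, `a⁴ ≤ 8 θ⁴ (Sp⁴ + Sp'⁴)`.
-/

set_option autoImplicit false

namespace Pool.Agent.H41.RG

open Finset MeasureTheory ProbabilityTheory
open Pool.Agent.H18.RM (IsSigns rmf)

variable {Ω : Type*} [mΩ : MeasurableSpace Ω] {P : Measure Ω} [IsProbabilityMeasure P]
  {e : ℕ → Ω → ℝ}

private theorem Char_bound {X : ℕ → Ω → ℝ} {K : ℝ} {ω : Ω} (hb : ∀ p, |X p ω| ≤ K) (m : ℕ) :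
    |∑ p ∈ range m, X p ω| ≤ m * K := by
  calc |∑ p ∈ range m, X p ω| ≤ ∑ p ∈ range m, |X p ω| := Finset.abs_sum_le_sum_abs _ _
    _ ≤ ∑ _p ∈ range m, K := Finset.sum_le_sum fun p _ => hb p
    _ = m * K := by simp

private theorem Char_int_sum {X : ℕ → Ω → ℝ} (hX : ∀ p, Measurable (X p)) {K : ℝ}
    (hb : ∀ᵐ ω ∂P, ∀ p, |X p ω| ≤ K) (m : ℕ) :
    Integrable (fun ω => ∑ p ∈ range m, X p ω) P := by
  refine Integrable.of_bound (Finset.measurable_sum _ fun p _ => hX p).aestronglyMeasurable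
    (m * K) ?_
  filter_upwards [hb] with ω hω
  rw [Real.norm_eq_abs]
  exact Char_bound hω m

private theorem Char_int_sq {X : ℕ → Ω → ℝ} (hX : ∀ p, Measurable (X p)) {K : ℝ}
    (hb : ∀ᵐ ω ∂P, ∀ p, |X p ω| ≤ K) (m : ℕ) (c : ℝ) :
    Integrable (fun ω => (∑ p ∈ range m, X p ω - c) ^ 2) P := by
  refine Integrable.of_bound (((Finset.measurable_sum _ fun p _ => hX p).sub_const
    c).pow_const 2).aestronglyMeasurable ((m * K + |c|) ^ 2) ?_
  filter_upwards [hb] with ω hω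
  rw [Real.norm_eq_abs, abs_pow]
  refine pow_le_pow_left₀ (abs_nonneg _) ?_ 2
  refine (abs_sub _ _).trans ?_
  have := Char_bound hω m
  linarith

private theorem Char_young {δ : ℝ} (hδ : 0 < δ) (y : ℝ) : 2 * |y| ≤ δ + y ^ 2 / δ := by
  have h1 : 0 ≤ (|y| - δ) ^ 2 / δ := by positivity
  have h2 : (|y| - δ) ^ 2 / δ = y ^ 2 / δ - 2 * |y| + δ := by
    field_simp
    rw [← sq_abs y]
    ring
  linarith

private theorem Char_young' {δ : ℝ} (hδ : 0 < δ) (y : ℝ) : |y| ≤ δ + y ^ 2 / δ := by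
  have := Char_young hδ y
  have := abs_nonneg y
  linarith

private theorem Char_meas (h : IsSigns P e) {W : Finset ℕ} (hW : ∀ n ∈ W, Squarefree n ∧ 2 ≤ n)
    (p : ℕ) : Measurable (Sp e W p) :=
  (measurable_Sp e hW p).mono (past_le h p) le_rfl

private theorem Char_lt (W : Finset ℕ) : ∀ n ∈ W, n < W.sup id + 1 := by
  intro n hn
  exact Nat.lt_succ_of_le (Finset.le_sup (f := id) hn)

private theorem Char_int2 (h : IsSigns P e) {W : Finset ℕ}
    (hW : ∀ n ∈ W, Squarefree n ∧ 2 ≤ n) (m : ℕ) (c : ℝ) :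
    Integrable (fun ω => (∑ p ∈ range m, Sp e W p ω ^ 2 - c) ^ 2) P := by
  refine Char_int_sq (X := fun p ω => Sp e W p ω ^ 2)
    (fun p => (Char_meas h hW p).pow_const 2) (K := (W.card : ℝ) ^ 2) ?_ m c
  filter_upwards [Sp_bdd h W] with ω hω p
  rw [abs_pow]
  exact pow_le_pow_left₀ (abs_nonneg _) (hω p) 2

private theorem Char_int4 (h : IsSigns P e) {W : Finset ℕ}
    (hW : ∀ n ∈ W, Squarefree n ∧ 2 ≤ n) (m : ℕ) :
    Integrable (fun ω => ∑ p ∈ range m, Sp e W p ω ^ 4) P := by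
  refine Char_int_sum (X := fun p ω => Sp e W p ω ^ 4)
    (fun p => (Char_meas h hW p).pow_const 4) (K := (W.card : ℝ) ^ 4) ?_ m
  filter_upwards [Sp_bdd h W] with ω hω p
  rw [abs_pow]
  exact pow_le_pow_left₀ (abs_nonneg _) (hω p) 4

private theorem Char_intC (h : IsSigns P e) {W W' : Finset ℕ}
    (hW : ∀ n ∈ W, Squarefree n ∧ 2 ≤ n) (hW' : ∀ n ∈ W', Squarefree n ∧ 2 ≤ n) (m : ℕ) :
    Integrable (fun ω => (∑ p ∈ range m, Sp e W p ω * Sp e W' p ω) ^ 2) P := by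
  have h1 := Char_int_sq (P := P) (X := fun p ω => Sp e W p ω * Sp e W' p ω)
    (fun p => (Char_meas h hW p).mul (Char_meas h hW' p)) (K := (W.card : ℝ) * W'.card) (by
      filter_upwards [Sp_bdd h W, Sp_bdd h W'] with ω hω hω' p
      rw [abs_mul]
      exact mul_le_mul (hω p) (hω' p) (abs_nonneg _) (by positivity)) m 0
  simpa using h1

private theorem Char_int_aff {Y : Ω → ℝ} (hY : Integrable Y P) (c t d δ : ℝ) :
    Integrable (fun ω => c + t * (d + Y ω / δ)) P ∧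
      ∫ ω, (c + t * (d + Y ω / δ)) ∂P = c + t * (d + (∫ ω, Y ω ∂P) / δ) := by
  have h1 : Integrable (fun ω => Y ω / δ) P := hY.div_const δ
  have h2 : Integrable (fun ω => d + Y ω / δ) P := (integrable_const _).add h1
  have h3 : Integrable (fun ω => t * (d + Y ω / δ)) P := h2.const_mul t
  refine ⟨(integrable_const _).add h3, ?_⟩
  rw [integral_add (integrable_const _) h3, integral_const_mul,
    integral_add (integrable_const _) h1, integral_div]
  simp only [integral_const, probReal_univ, one_smul]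

/-- the fourth moments, with the factor `θ` -/
private theorem Char_momB (h : IsSigns P e) {W : Finset ℕ} (hW : ∀ n ∈ W, Squarefree n ∧ 2 ≤ n)
    {m : ℕ} (hm : ∀ n ∈ W, n < m) (θ : ℝ) :
    ∫ ω, ∑ p ∈ range m, (θ * Sp e W p ω) ^ 4 ∂P ≤
      θ ^ 4 * (2 * W.card + 6 * D1 W + 2 * Q4 W) := by
  have h1 : ∀ ω, ∑ p ∈ range m, (θ * Sp e W p ω) ^ 4 =
      θ ^ 4 * ∑ p ∈ range m, Sp e W p ω ^ 4 := by
    intro ω
    rw [Finset.mul_sum]
    exact Finset.sum_congr rfl fun p _ => by ring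
  simp only [h1]
  rw [integral_const_mul]
  exact mul_le_mul_of_nonneg_left (momB h hW hm) (by positivity)

theorem charA (h : IsSigns P e) {W : Finset ℕ} (hW : ∀ n ∈ W, Squarefree n ∧ 2 ≤ n)
    (θ : ℝ) {v δ : ℝ} (hv : 0 ≤ v) (hδ : 0 < δ) :
    ‖AW P e W θ - ((Real.exp (-v / 2) : ℝ) : ℂ)‖ ≤ 4 * (1 + v) * Real.exp (v + 1) *
      (|θ ^ 2 * W.card - v| + θ ^ 2 * (δ + (2 * D1 W + Q4 W) / δ) +
        θ ^ 4 * (2 * W.card + 6 * D1 W + 2 * Q4 W)) := by
  obtain ⟨m, hm⟩ : ∃ m, ∀ n ∈ W, n < m := ⟨_, Char_lt W⟩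
  have hM := mart h (fun p ω => θ * Sp e W p ω)
    (fun p => (measurable_Sp e hW p).const_mul θ) (R := |θ| * W.card) (fun p => by
      filter_upwards [Sp_bdd h W] with ω hω
      rw [abs_mul]
      exact mul_le_mul_of_nonneg_left (hω p) (abs_nonneg _)) m hv
  have hA : AW P e W θ = ∫ ω, Complex.exp (Complex.I *
      ((∑ p ∈ range m, e p ω * (θ * Sp e W p ω) : ℝ) : ℂ)) ∂P := by
    unfold AW
    congr 1
    funext ω
    rw [sum_rmf e hW hm ω, Finset.mul_sum]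
    congr 3
    exact Finset.sum_congr rfl fun p _ => by ring
  rw [hA]
  refine hM.trans (mul_le_mul_of_nonneg_left ?_ (by positivity))
  have h1 : ∫ ω, |∑ p ∈ range m, (θ * Sp e W p ω) ^ 2 - v| ∂P ≤
      |θ ^ 2 * W.card - v| + θ ^ 2 * (δ + (2 * D1 W + Q4 W) / δ) := by
    have hY := Char_int2 h hW m (W.card : ℝ)
    obtain ⟨hint, hval⟩ := Char_int_aff hY (|θ ^ 2 * W.card - v|) (θ ^ 2) δ δ
    have h2 : ∫ ω, |∑ p ∈ range m, (θ * Sp e W p ω) ^ 2 - v| ∂P ≤
        ∫ ω, (|θ ^ 2 * W.card - v| + θ ^ 2 * (δ +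
        (∑ p ∈ range m, Sp e W p ω ^ 2 - W.card) ^ 2 / δ)) ∂P := by
      refine integral_mono_of_nonneg (Filter.Eventually.of_forall fun ω => abs_nonneg _) hint
        (Filter.Eventually.of_forall fun ω => ?_)
      simp only
      have e1 : ∑ p ∈ range m, (θ * Sp e W p ω) ^ 2 =
          θ ^ 2 * ∑ p ∈ range m, Sp e W p ω ^ 2 := by
        rw [Finset.mul_sum]
        exact Finset.sum_congr rfl fun p _ => by ring
      rw [e1]
      set S := ∑ p ∈ range m, Sp e W p ω ^ 2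
      have e2 : θ ^ 2 * S - v = (θ ^ 2 * W.card - v) + θ ^ 2 * (S - W.card) := by ring
      rw [e2]
      refine (abs_add_le _ _).trans (add_le_add le_rfl ?_)
      rw [abs_mul, abs_of_nonneg (sq_nonneg θ)]
      exact mul_le_mul_of_nonneg_left (Char_young' hδ _) (sq_nonneg θ)
    refine h2.trans ?_
    rw [hval]
    have h3 := momA h hW hm
    have h4 : (∫ ω, (∑ p ∈ range m, Sp e W p ω ^ 2 - W.card) ^ 2 ∂P) / δ ≤
        (2 * D1 W + Q4 W) / δ := div_le_div_of_nonneg_right h3 hδ.le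
    have h5 := mul_le_mul_of_nonneg_left (add_le_add (le_refl δ) h4) (sq_nonneg θ)
    linarith
  have h2 := Char_momB h hW hm θ
  linarith

theorem charB (h : IsSigns P e) {W W' : Finset ℕ} (hW : ∀ n ∈ W, Squarefree n ∧ 2 ≤ n)
    (hW' : ∀ n ∈ W', Squarefree n ∧ 2 ≤ n) (hd : Disjoint W W')
    (θ : ℝ) {v δ : ℝ} (hv : 0 ≤ v) (hδ : 0 < δ) :
    ‖BW P e W W' θ - ((Real.exp (-v / 2) : ℝ) : ℂ)‖ ≤ 4 * (1 + v) * Real.exp (v + 1) *
      (|θ ^ 2 * (W.card + W'.card) - v| +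
        θ ^ 2 * (3 * δ + ((2 * D1 W + Q4 W) + (2 * D1 W' + Q4 W') + (T2 W W' + Q22 W W')) / δ) +
        8 * θ ^ 4 * ((2 * W.card + 6 * D1 W + 2 * Q4 W) +
          (2 * W'.card + 6 * D1 W' + 2 * Q4 W'))) := by
  obtain ⟨m, hm, hm'⟩ : ∃ m, (∀ n ∈ W, n < m) ∧ ∀ n ∈ W', n < m := by
    refine ⟨max (W.sup id + 1) (W'.sup id + 1), fun n hn => ?_, fun n hn => ?_⟩
    · exact (Char_lt W n hn).trans_le (le_max_left _ _)
    · exact (Char_lt W' n hn).trans_le (le_max_right _ _)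
  have hM := mart h (fun p ω => θ * (Sp e W p ω - Sp e W' p ω))
    (fun p => ((measurable_Sp e hW p).sub (measurable_Sp e hW' p)).const_mul θ)
    (R := |θ| * (W.card + W'.card)) (fun p => by
      filter_upwards [Sp_bdd h W, Sp_bdd h W'] with ω hω hω'
      rw [abs_mul]
      exact mul_le_mul_of_nonneg_left ((abs_sub _ _).trans (add_le_add (hω p) (hω' p)))
        (abs_nonneg _)) m hv
  have hB : BW P e W W' θ = ∫ ω, Complex.exp (Complex.I *
      ((∑ p ∈ range m, e p ω * (θ * (Sp e W p ω - Sp e W' p ω)) : ℝ) : ℂ)) ∂P := by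
    unfold BW
    congr 1
    funext ω
    rw [sum_rmf e hW hm ω, sum_rmf e hW' hm' ω, ← Finset.sum_sub_distrib, Finset.mul_sum]
    congr 3
    exact Finset.sum_congr rfl fun p _ => by ring
  rw [hB]
  refine hM.trans (mul_le_mul_of_nonneg_left ?_ (by positivity))
  have h1 : ∫ ω, |∑ p ∈ range m, (θ * (Sp e W p ω - Sp e W' p ω)) ^ 2 - v| ∂P ≤
      |θ ^ 2 * (W.card + W'.card) - v| + θ ^ 2 * (3 * δ +
        ((2 * D1 W + Q4 W) + (2 * D1 W' + Q4 W') + (T2 W W' + Q22 W W')) / δ) := by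
    have hY := Char_int2 h hW m (W.card : ℝ)
    have hY' := Char_int2 h hW' m (W'.card : ℝ)
    have hC := Char_intC h hW hW' m
    have hsum : Integrable (fun ω => (∑ p ∈ range m, Sp e W p ω ^ 2 - W.card) ^ 2 +
        (∑ p ∈ range m, Sp e W' p ω ^ 2 - W'.card) ^ 2 +
        (∑ p ∈ range m, Sp e W p ω * Sp e W' p ω) ^ 2) P := (hY.add hY').add hC
    obtain ⟨hint, hval⟩ := Char_int_aff hsum (|θ ^ 2 * (W.card + W'.card) - v|) (θ ^ 2)
      (3 * δ) δ
    have h2 : ∫ ω, |∑ p ∈ range m, (θ * (Sp e W p ω - Sp e W' p ω)) ^ 2 - v| ∂P ≤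
        ∫ ω, (|θ ^ 2 * (W.card + W'.card) - v| + θ ^ 2 * (3 * δ +
        ((∑ p ∈ range m, Sp e W p ω ^ 2 - W.card) ^ 2 +
        (∑ p ∈ range m, Sp e W' p ω ^ 2 - W'.card) ^ 2 +
        (∑ p ∈ range m, Sp e W p ω * Sp e W' p ω) ^ 2) / δ)) ∂P := by
      refine integral_mono_of_nonneg (Filter.Eventually.of_forall fun ω => abs_nonneg _) hint
        (Filter.Eventually.of_forall fun ω => ?_)
      simp only
      have e1 : ∑ p ∈ range m, (θ * (Sp e W p ω - Sp e W' p ω)) ^ 2 =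
          θ ^ 2 * (∑ p ∈ range m, Sp e W p ω ^ 2 + ∑ p ∈ range m, Sp e W' p ω ^ 2 -
            2 * ∑ p ∈ range m, Sp e W p ω * Sp e W' p ω) := by
        rw [Finset.mul_sum, ← Finset.sum_add_distrib, ← Finset.sum_sub_distrib, Finset.mul_sum]
        exact Finset.sum_congr rfl fun p _ => by ring
      rw [e1]
      set S := ∑ p ∈ range m, Sp e W p ω ^ 2
      set S' := ∑ p ∈ range m, Sp e W' p ω ^ 2
      set T := ∑ p ∈ range m, Sp e W p ω * Sp e W' p ω
      have e2 : θ ^ 2 * (S + S' - 2 * T) - v = (θ ^ 2 * (W.card + W'.card) - v) +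
          θ ^ 2 * ((S - W.card) + (S' - W'.card) - 2 * T) := by ring
      rw [e2]
      refine (abs_add_le _ _).trans (add_le_add le_rfl ?_)
      rw [abs_mul, abs_of_nonneg (sq_nonneg θ)]
      refine mul_le_mul_of_nonneg_left ?_ (sq_nonneg θ)
      have y1 := Char_young' hδ (S - W.card)
      have y2 := Char_young' hδ (S' - W'.card)
      have y3 := Char_young hδ T
      have y4 : |(S - W.card) + (S' - W'.card) - 2 * T| ≤
          |S - W.card| + |S' - W'.card| + 2 * |T| := by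
        refine (abs_sub _ _).trans (add_le_add (abs_add_le _ _) ?_)
        rw [abs_mul, abs_of_pos (by norm_num : (0 : ℝ) < 2)]
      have y5 : ((S - W.card) ^ 2 + (S' - W'.card) ^ 2 + T ^ 2) / δ =
          (S - W.card) ^ 2 / δ + (S' - W'.card) ^ 2 / δ + T ^ 2 / δ := by ring
      rw [y5]
      linarith
    refine h2.trans ?_
    have hs1 : ∫ ω, ((∑ p ∈ range m, Sp e W p ω ^ 2 - W.card) ^ 2 +
        (∑ p ∈ range m, Sp e W' p ω ^ 2 - W'.card) ^ 2 +
        (∑ p ∈ range m, Sp e W p ω * Sp e W' p ω) ^ 2) ∂P =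
        (∫ ω, (∑ p ∈ range m, Sp e W p ω ^ 2 - W.card) ^ 2 ∂P) +
        (∫ ω, (∑ p ∈ range m, Sp e W' p ω ^ 2 - W'.card) ^ 2 ∂P) +
        (∫ ω, (∑ p ∈ range m, Sp e W p ω * Sp e W' p ω) ^ 2 ∂P) := by
      have hYY : Integrable (fun ω => (∑ p ∈ range m, Sp e W p ω ^ 2 - W.card) ^ 2 +
        (∑ p ∈ range m, Sp e W' p ω ^ 2 - W'.card) ^ 2) P := hY.add hY'
      rw [integral_add hYY hC, integral_add hY hY']
    rw [hval, hs1]
    have h3 := momA h hW hm
    have h3' := momA h hW' hm'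
    have h3C := momC h hW hW' hd hm hm'
    have h4 : ((∫ ω, (∑ p ∈ range m, Sp e W p ω ^ 2 - W.card) ^ 2 ∂P) +
        (∫ ω, (∑ p ∈ range m, Sp e W' p ω ^ 2 - W'.card) ^ 2 ∂P) +
        (∫ ω, (∑ p ∈ range m, Sp e W p ω * Sp e W' p ω) ^ 2 ∂P)) / δ ≤
        ((2 * D1 W + Q4 W) + (2 * D1 W' + Q4 W') + (T2 W W' + Q22 W W')) / δ :=
      div_le_div_of_nonneg_right (add_le_add (add_le_add h3 h3') h3C) hδ.le
    have h5 := mul_le_mul_of_nonneg_left (add_le_add (le_refl (3 * δ)) h4) (sq_nonneg θ)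
    linarith
  have h2 : ∫ ω, ∑ p ∈ range m, (θ * (Sp e W p ω - Sp e W' p ω)) ^ 4 ∂P ≤
      8 * θ ^ 4 * ((2 * W.card + 6 * D1 W + 2 * Q4 W) +
          (2 * W'.card + 6 * D1 W' + 2 * Q4 W')) := by
    have hI := Char_int4 h hW m
    have hI' := Char_int4 h hW' m
    have h3 : ∫ ω, ∑ p ∈ range m, (θ * (Sp e W p ω - Sp e W' p ω)) ^ 4 ∂P ≤
        ∫ ω, 8 * θ ^ 4 * (∑ p ∈ range m, Sp e W p ω ^ 4 + ∑ p ∈ range m, Sp e W' p ω ^ 4) ∂P := by
      refine integral_mono_of_nonneg (Filter.Eventually.of_forall fun ω => ?_)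
        ((hI.add hI').const_mul _) (Filter.Eventually.of_forall fun ω => ?_)
      · exact Finset.sum_nonneg fun p _ => by positivity
      · simp only
        rw [← Finset.sum_add_distrib, Finset.mul_sum]
        refine Finset.sum_le_sum fun p _ => ?_
        set x := Sp e W p ω
        set y := Sp e W' p ω
        have e1 : (θ * (x - y)) ^ 4 = θ ^ 4 * (x - y) ^ 4 := by ring
        have e2 : 8 * θ ^ 4 * (x ^ 4 + y ^ 4) = θ ^ 4 * (8 * (x ^ 4 + y ^ 4)) := by ring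
        rw [e1, e2]
        refine mul_le_mul_of_nonneg_left ?_ (by positivity)
        have f1 : (x - y) ^ 2 ≤ 2 * (x ^ 2 + y ^ 2) := by nlinarith [sq_nonneg (x + y)]
        have f2 : ((x - y) ^ 2) ^ 2 ≤ (2 * (x ^ 2 + y ^ 2)) ^ 2 :=
          pow_le_pow_left₀ (sq_nonneg _) f1 2
        nlinarith [sq_nonneg (x ^ 2 - y ^ 2)]
    refine h3.trans ?_
    rw [integral_const_mul, integral_add hI hI']
    exact mul_le_mul_of_nonneg_left (add_le_add (momB h hW hm) (momB h hW' hm'))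
      (by positivity)
  linarith

end Pool.Agent.H41.RG

end

section

/-!
# Deviation probabilities for the random model

`prob_dev`: by `IC_expand_diag` (with `N = ⌈V + H⌉₊`) and `rmf_sq`, almost surely
`IC - (6/π²) H (V-U) = (Dg - (6/π²) H (V-U)) + D`, `D` the off-diagonal form with `K = KC U V H`,
`|K| ≤ H`, and only pairs with `n ≠ m`, `|n-m| < H`, `n, m` in `[Y, 20Y]`, `Y = ⌈X/4⌉`, matter.
By `dg_all` the first difference is at most `(lam/2) X H`; `∫ D² ≤ H² #SQ(Y, ⌈H⌉)` by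
`second_moment`, and Chebyshev.

`prob_up`: the expectation of the integral is `∑_{n squarefree} KC(X/4, 5X, H, n, n) ≤ 10 X H`
(`IC_expand_diag`, `int_two`), and Markov.
-/

set_option autoImplicit false

namespace Pool.Agent.H18.RM

open Finset MeasureTheory ProbabilityTheory

universe u

private theorem ProbA_expand {Ω : Type*} (e : ℕ → Ω → ℝ) (ω : Ω) {U V H : ℝ} (hUV : U ≤ V)
    (hH : 0 < H) {N : ℕ} (hN : V + H ≤ N) :
    IC (fun n => (rmf e ω n : ℂ)) U V H =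
      (∑ n ∈ range N, rmf e ω n ^ 2 * KC U V H n n) +
      ∑ p ∈ (range N ×ˢ range N).filter (fun p => p.1 ≠ p.2),
        rmf e ω p.1 * rmf e ω p.2 * KC U V H p.1 p.2 := by
  have h := IC_expand_diag (fun n => (rmf e ω n : ℂ)) hUV hH hN
  apply Complex.ofReal_injective
  rw [h]
  simp only [Complex.norm_real, Real.norm_eq_abs, sq_abs, Complex.conj_ofReal]
  push_cast
  rfl

private theorem ProbA_int {Ω : Type*} [MeasurableSpace Ω] {P : Measure Ω}
    [IsProbabilityMeasure P] {e : ℕ → Ω → ℝ} (h : IsSigns P e) (a b : ℕ) :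
    Integrable (fun ω => rmf e ω a * rmf e ω b) P := by
  refine Integrable.of_bound
    ((measurable_rmf h a).mul (measurable_rmf h b)).aestronglyMeasurable 1 ?_
  filter_upwards [rmf_sq h] with ω hω
  rw [Real.norm_eq_abs, abs_mul]
  calc |rmf e ω a| * |rmf e ω b| ≤ 1 * 1 :=
        mul_le_mul (hω a).1 (hω b).1 (abs_nonneg _) zero_le_one
    _ = 1 := one_mul 1

private theorem ProbA_markov {Ω : Type*} [MeasurableSpace Ω] {P : Measure Ω}
    [IsProbabilityMeasure P] {f : Ω → ℝ} (hf0 : 0 ≤ᵐ[P] f) (hf : Integrable f P) {ε B : ℝ}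
    (hε : 0 < ε) (hB : ∫ ω, f ω ∂P ≤ B) :
    P {ω | ε ≤ f ω} ≤ ENNReal.ofReal (B / ε) := by
  have h1 := mul_meas_ge_le_integral_of_nonneg hf0 hf ε
  have h2 : P.real {ω | ε ≤ f ω} ≤ B / ε := by
    rw [le_div_iff₀ hε, mul_comm]
    exact h1.trans hB
  rw [← ofReal_measureReal (measure_ne_top P _)]
  exact ENNReal.ofReal_le_ofReal h2

theorem prob_dev : ∃ C : ℝ, 1 ≤ C ∧ ∀ (Ω : Type u) [MeasurableSpace Ω] (P : Measure Ω)
    [IsProbabilityMeasure P] (e : ℕ → Ω → ℝ), IsSigns P e → ∀ (X U V H lam : ℝ), 32 ≤ X →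
    X / 2 ≤ U → U ≤ V → V ≤ 4 * X → 1 ≤ H → H ≤ X / 8 →
    C * (1 / Real.sqrt X + H / X) ≤ lam →
    P {ω | lam * X * H < |IC (fun n => (rmf e ω n : ℂ)) U V H -
        6 / Real.pi ^ 2 * H * (V - U)|} ≤
      ENNReal.ofReal (C * (1 + Real.log X) ^ 4 * H / (lam ^ 2 * X)) := by
  obtain ⟨C1, hC1, hSQ⟩ := card_SQ
  obtain ⟨C2, hC2, hDg⟩ := dg_all
  refine ⟨1 + 2 * C2 + 216 * C1, by linarith, ?_⟩
  intro Ω _ P _ e he X U V H lam hX hU hUV hV hH hHX hlam
  have hX0 : 0 < X := by linarith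
  have hH0 : 0 < H := by linarith
  have hsX : 0 < Real.sqrt X := Real.sqrt_pos.mpr hX0
  have hq : 0 < 1 / Real.sqrt X + H / X := by positivity
  have hlam0 : 0 < lam := lt_of_lt_of_le (by positivity) hlam
  set N : ℕ := ⌈V + H⌉₊ with hN
  have hVN : V + H ≤ N := Nat.le_ceil _
  set Y : ℕ := ⌈X / 4⌉₊ with hY
  set h : ℕ := ⌈H⌉₊ with hh
  have hYl : X / 4 ≤ Y := Nat.le_ceil _
  have hYu : (Y : ℝ) ≤ X / 4 + 1 := (Nat.ceil_lt_add_one (by positivity)).le
  have hhl : H ≤ h := Nat.le_ceil _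
  have hhu : (h : ℝ) ≤ H + 1 := (Nat.ceil_lt_add_one (by positivity)).le
  have hY1 : 1 ≤ Y := by
    have : (1 : ℝ) ≤ Y := by linarith
    exact_mod_cast this
  have hh1 : 1 ≤ h := by
    have : (1 : ℝ) ≤ h := by linarith
    exact_mod_cast this
  -- the relevant pairs
  set S : Finset (ℕ × ℕ) := ((range N ×ˢ range N).filter (fun p => p.1 ≠ p.2)).filter
    (fun p => (Y ≤ p.1 ∧ p.1 ≤ 20 * Y) ∧ (Y ≤ p.2 ∧ p.2 ≤ 20 * Y) ∧
      |(p.1 : ℤ) - p.2| ≤ h) with hS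
  set K : ℕ × ℕ → ℝ := fun s => KC U V H s.1 s.2 with hK
  have hzero : ∀ p : ℕ × ℕ, p ∉ S → p ∈ (range N ×ˢ range N).filter (fun p => p.1 ≠ p.2) →
      KC U V H p.1 p.2 = 0 := by
    intro p hpS hp
    by_contra hne
    apply hpS
    rw [hS, mem_filter]
    refine ⟨hp, ?_⟩
    have key : ∀ n m : ℕ, KC U V H n m ≠ 0 → Y ≤ n ∧ n ≤ 20 * Y := by
      intro n m hnm
      have h1 : U - H / 2 < (n : ℝ) := by
        by_contra hcon
        exact hnm (KC_eq_zero_of_le (not_lt.mp hcon))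
      have h2 : (n : ℝ) < V + H / 2 := by
        by_contra hcon
        exact hnm (KC_eq_zero_of_ge (not_lt.mp hcon))
      constructor
      · have : (Y : ℝ) ≤ n := by linarith
        exact_mod_cast this
      · have : (n : ℝ) ≤ ((20 * Y : ℕ) : ℝ) := by
          push_cast
          linarith
        exact_mod_cast this
    refine ⟨key _ _ hne, key p.2 p.1 (by rw [KC_comm]; exact hne), ?_⟩
    have h3 : |(p.1 : ℝ) - p.2| < H := by
      by_contra hcon
      exact hne (KC_eq_zero_of_far (not_lt.mp hcon))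
    have h4 : ((|(p.1 : ℤ) - p.2| : ℤ) : ℝ) ≤ ((h : ℤ) : ℝ) := by
      push_cast
      linarith
    exact_mod_cast h4
  have hsm := second_moment he S K (κ := H) (fun s _ => by
    rw [hK]
    simp only
    rw [abs_of_nonneg (KC_nonneg _ _ _ _ _)]
    exact KC_le hH0.le _ _)
  set D : Ω → ℝ := fun ω => ∑ s ∈ S, rmf e ω s.1 * rmf e ω s.2 * K s with hD
  have hsub : ((S ×ˢ S).filter (fun t => (Squarefree t.1.1 ∧ Squarefree t.1.2 ∧
        Squarefree t.2.1 ∧ Squarefree t.2.2) ∧ IsSquare (t.1.1 * t.1.2 * (t.2.1 * t.2.2)))) ⊆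
      SQ Y h := by
    intro t ht
    rw [mem_filter, mem_product] at ht
    obtain ⟨⟨ht1, ht2⟩, hsf, hsq⟩ := ht
    rw [hS, mem_filter, mem_filter] at ht1 ht2
    rw [SQ, mem_filter, mem_product, mem_product, mem_product, mem_Icc, mem_Icc, mem_Icc, mem_Icc]
    exact ⟨⟨⟨ht1.2.1, ht1.2.2.1⟩, ⟨ht2.2.1, ht2.2.2.1⟩⟩, hsf, ⟨ht1.1.2, ht2.1.2⟩,
      ⟨ht1.2.2.2, ht2.2.2.2⟩, hsq⟩
  have hL0 : 0 ≤ Real.log X := Real.log_nonneg (by linarith)
  have hcard : (((S ×ˢ S).filter (fun t => (Squarefree t.1.1 ∧ Squarefree t.1.2 ∧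
        Squarefree t.2.1 ∧ Squarefree t.2.2) ∧
        IsSquare (t.1.1 * t.1.2 * (t.2.1 * t.2.2)))).card : ℝ) ≤
      54 * C1 * X * H * (1 + Real.log X) ^ 4 := by
    have h1 : (((S ×ˢ S).filter (fun t => (Squarefree t.1.1 ∧ Squarefree t.1.2 ∧
        Squarefree t.2.1 ∧ Squarefree t.2.2) ∧
        IsSquare (t.1.1 * t.1.2 * (t.2.1 * t.2.2)))).card : ℝ) ≤ ((SQ Y h).card : ℝ) := by
      exact_mod_cast card_le_card hsub
    have h2 := hSQ Y h hY1 hh1
    have hlog : Real.log (20 * Y) ≤ 2 + Real.log X := by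
      have h20 : (20 : ℝ) * Y ≤ 6 * X := by linarith
      have h6 : Real.log 6 ≤ 2 := by
        rw [Real.log_le_iff_le_exp (by norm_num)]
        have he2 : (2.7182818283 : ℝ) < Real.exp 1 := Real.exp_one_gt_d9
        have : Real.exp 2 = Real.exp 1 * Real.exp 1 := by
          rw [← Real.exp_add]; norm_num
        rw [this]
        nlinarith
      calc Real.log (20 * Y) ≤ Real.log (6 * X) :=
            Real.log_le_log (by positivity) h20
        _ = Real.log 6 + Real.log X := Real.log_mul (by norm_num) hX0.ne'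
        _ ≤ 2 + Real.log X := by linarith
    have hlog0 : 0 ≤ Real.log (20 * Y) := by
      apply Real.log_nonneg
      have : (1 : ℝ) ≤ Y := by exact_mod_cast hY1
      linarith
    have h3 : (1 + Real.log (20 * Y)) ^ 4 ≤ 81 * (1 + Real.log X) ^ 4 := by
      calc (1 + Real.log (20 * Y)) ^ 4 ≤ (3 * (1 + Real.log X)) ^ 4 :=
            pow_le_pow_left₀ (by linarith) (by linarith) 4
        _ = 81 * (1 + Real.log X) ^ 4 := by ring
    have h4 : (Y : ℝ) * h ≤ X / 3 * (2 * H) :=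
      mul_le_mul (by linarith) (by linarith) (by positivity) (by positivity)
    calc _ ≤ ((SQ Y h).card : ℝ) := h1
      _ ≤ C1 * Y * h * (1 + Real.log (20 * Y)) ^ 4 := h2
      _ = C1 * ((Y : ℝ) * h) * (1 + Real.log (20 * Y)) ^ 4 := by ring
      _ ≤ C1 * (X / 3 * (2 * H)) * (81 * (1 + Real.log X) ^ 4) := by
          apply mul_le_mul _ h3 (by positivity) (by positivity)
          exact mul_le_mul_of_nonneg_left h4 hC1.le
      _ = 54 * C1 * X * H * (1 + Real.log X) ^ 4 := by ring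
  have hint : ∫ ω, D ω ^ 2 ∂P ≤ H ^ 2 * (54 * C1 * X * H * (1 + Real.log X) ^ 4) :=
    hsm.2.trans (mul_le_mul_of_nonneg_left hcard (by positivity))
  -- the event
  have hdg : |Dg (fun _ => True) U V H N - 6 / Real.pi ^ 2 * H * (V - U)| ≤ lam / 2 * X * H := by
    have h1 := hDg X U V H N (by linarith) (by linarith) hUV (by linarith) hH (by linarith) hVN
    have h2 : C2 * (H * Real.sqrt X + H ^ 2) = C2 * (1 / Real.sqrt X + H / X) * X * H := by
      have hs : Real.sqrt X * Real.sqrt X = X := Real.mul_self_sqrt hX0.le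
      have h3 : 1 / Real.sqrt X * X = Real.sqrt X := by
        field_simp
        linarith [Real.sq_sqrt hX0.le]
      have h4 : H / X * X = H := by field_simp
      calc C2 * (H * Real.sqrt X + H ^ 2)
          = C2 * (1 / Real.sqrt X * X + H / X * X) * H := by rw [h3, h4]; ring
        _ = _ := by ring
    rw [h2] at h1
    refine h1.trans ?_
    have h5 : C2 * (1 / Real.sqrt X + H / X) ≤ lam / 2 := by
      have : (2 * C2) * (1 / Real.sqrt X + H / X) ≤
          (1 + 2 * C2 + 216 * C1) * (1 / Real.sqrt X + H / X) :=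
        mul_le_mul_of_nonneg_right (by linarith) hq.le
      linarith
    have h6 := mul_le_mul_of_nonneg_right h5 hX0.le
    exact mul_le_mul_of_nonneg_right h6 hH0.le
  have hev : P {ω | lam * X * H < |IC (fun n => (rmf e ω n : ℂ)) U V H -
        6 / Real.pi ^ 2 * H * (V - U)|} ≤ P {ω | (lam / 2 * X * H) ^ 2 ≤ D ω ^ 2} := by
    apply measure_mono_ae
    filter_upwards [rmf_sq he] with ω hω hmem
    change lam * X * H < |IC (fun n => (rmf e ω n : ℂ)) U V H -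
        6 / Real.pi ^ 2 * H * (V - U)| at hmem
    change (lam / 2 * X * H) ^ 2 ≤ D ω ^ 2
    have hex := ProbA_expand e ω hUV hH0 hVN
    have hdiag : (∑ n ∈ range N, rmf e ω n ^ 2 * KC U V H n n) =
        Dg (fun _ => True) U V H N := by
      unfold Dg
      rw [sum_filter]
      apply sum_congr rfl
      intro n _
      rw [(hω n).2]
      by_cases hs : Squarefree n <;> simp [hs]
    have hoff : (∑ p ∈ (range N ×ˢ range N).filter (fun p => p.1 ≠ p.2),
        rmf e ω p.1 * rmf e ω p.2 * KC U V H p.1 p.2) = D ω := by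
      rw [hD]
      symm
      apply sum_subset (filter_subset _ _)
      intro p hp hpS
      change rmf e ω p.1 * rmf e ω p.2 * KC U V H p.1 p.2 = 0
      rw [hzero p hpS hp, mul_zero]
    rw [hex, hdiag, hoff] at hmem
    have h1 : |Dg (fun _ => True) U V H N + D ω - 6 / Real.pi ^ 2 * H * (V - U)| ≤
        |Dg (fun _ => True) U V H N - 6 / Real.pi ^ 2 * H * (V - U)| + |D ω| := by
      have : Dg (fun _ => True) U V H N + D ω - 6 / Real.pi ^ 2 * H * (V - U) =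
        (Dg (fun _ => True) U V H N - 6 / Real.pi ^ 2 * H * (V - U)) + D ω := by ring
      rw [this]
      exact abs_add_le _ _
    have h2 : lam / 2 * X * H ≤ |D ω| := by
      have : lam * X * H = lam / 2 * X * H + lam / 2 * X * H := by ring
      linarith
    calc (lam / 2 * X * H) ^ 2 ≤ |D ω| ^ 2 := pow_le_pow_left₀ (by positivity) h2 2
      _ = D ω ^ 2 := sq_abs _
  refine hev.trans ((ProbA_markov (Filter.Eventually.of_forall fun ω => sq_nonneg _) hsm.1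
    (by positivity) hint).trans ?_)
  apply ENNReal.ofReal_le_ofReal
  have h1 : H ^ 2 * (54 * C1 * X * H * (1 + Real.log X) ^ 4) / (lam / 2 * X * H) ^ 2 =
      216 * C1 * (1 + Real.log X) ^ 4 * H / (lam ^ 2 * X) := by
    field_simp
    ring
  rw [h1]
  apply div_le_div_of_nonneg_right _ (by positivity)
  apply mul_le_mul_of_nonneg_right _ hH0.le
  apply mul_le_mul_of_nonneg_right _ (by positivity)
  linarith

theorem prob_up {Ω : Type u} [MeasurableSpace Ω] {P : Measure Ω}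
    [IsProbabilityMeasure P] {e : ℕ → Ω → ℝ} (h : IsSigns P e) {X H T : ℝ} (hX : 32 ≤ X)
    (hH : 1 ≤ H) (hHX : H ≤ X) (hT : 0 < T) :
    P {ω | T ^ 2 * X * H < ∫ y in (X / 4)..(5 * X), ‖MC (fun n => (rmf e ω n : ℂ)) y H‖ ^ 2} ≤
      ENNReal.ofReal (10 / T ^ 2) := by
  have hX0 : 0 < X := by linarith
  have hH0 : 0 < H := by linarith
  set N : ℕ := ⌈5 * X + H⌉₊ with hN
  have hVN : 5 * X + H ≤ N := Nat.le_ceil _
  have hUV : X / 4 ≤ 5 * X := by linarith
  have hex : ∀ ω, IC (fun n => (rmf e ω n : ℂ)) (X / 4) (5 * X) H =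
      (∑ n ∈ range N, rmf e ω n ^ 2 * KC (X / 4) (5 * X) H n n) +
      ∑ p ∈ (range N ×ˢ range N).filter (fun p => p.1 ≠ p.2),
        rmf e ω p.1 * rmf e ω p.2 * KC (X / 4) (5 * X) H p.1 p.2 :=
    fun ω => ProbA_expand e ω hUV hH0 hVN
  have hi1 : ∀ n ∈ range N, Integrable (fun ω => rmf e ω n ^ 2 * KC (X / 4) (5 * X) H n n) P := by
    intro n _
    have := ProbA_int h n n
    simp only [← sq] at this
    exact this.mul_const _
  have hi2 : ∀ p ∈ (range N ×ˢ range N).filter (fun p => p.1 ≠ p.2), Integrable (fun ω =>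
      rmf e ω p.1 * rmf e ω p.2 * KC (X / 4) (5 * X) H p.1 p.2) P :=
    fun p _ => (ProbA_int h p.1 p.2).mul_const _
  have hI : Integrable (fun ω => IC (fun n => (rmf e ω n : ℂ)) (X / 4) (5 * X) H) P := by
    have := (integrable_finsetSum _ hi1).add (integrable_finsetSum _ hi2)
    refine this.congr (Filter.Eventually.of_forall fun ω => ?_)
    simp only [Pi.add_apply]
    rw [hex ω]
  have hE : ∫ ω, IC (fun n => (rmf e ω n : ℂ)) (X / 4) (5 * X) H ∂P ≤ 10 * X * H := by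
    have h1 : ∫ ω, IC (fun n => (rmf e ω n : ℂ)) (X / 4) (5 * X) H ∂P =
        ∫ ω, ∑ n ∈ range N, rmf e ω n ^ 2 * KC (X / 4) (5 * X) H n n ∂P := by
      simp only [hex]
      rw [integral_add (integrable_finsetSum _ hi1) (integrable_finsetSum _ hi2),
        integral_finsetSum _ hi2]
      have : ∑ p ∈ (range N ×ˢ range N).filter (fun p => p.1 ≠ p.2), ∫ ω,
          rmf e ω p.1 * rmf e ω p.2 * KC (X / 4) (5 * X) H p.1 p.2 ∂P = 0 := by
        apply sum_eq_zero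
        intro p hp
        rw [integral_mul_const, int_two h (mem_filter.mp hp).2, zero_mul]
      rw [this, add_zero]
    rw [h1]
    have h2 : ∫ ω, ∑ n ∈ range N, rmf e ω n ^ 2 * KC (X / 4) (5 * X) H n n ∂P ≤
        ∫ _ω : Ω, 10 * X * H ∂P := by
      apply integral_mono_ae (integrable_finsetSum _ hi1) (integrable_const _)
      filter_upwards [rmf_sq h] with ω hω
      have h3 : ∀ n ∈ range N, rmf e ω n ^ 2 * KC (X / 4) (5 * X) H n n ≤
          if (n : ℝ) < 5 * X + H / 2 then H else 0 := by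
        intro n _
        by_cases hn : (n : ℝ) < 5 * X + H / 2
        · rw [if_pos hn]
          have h4 : rmf e ω n ^ 2 ≤ 1 := by
            rw [(hω n).2]
            split_ifs <;> norm_num
          calc rmf e ω n ^ 2 * KC (X / 4) (5 * X) H n n ≤ 1 * H :=
                mul_le_mul h4 (KC_le hH0.le _ _) (KC_nonneg _ _ _ _ _) zero_le_one
            _ = H := one_mul H
        · rw [if_neg hn, KC_eq_zero_of_ge (not_lt.mp hn), mul_zero]
      refine (sum_le_sum h3).trans ?_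
      rw [← sum_filter, sum_const, nsmul_eq_mul]
      apply mul_le_mul_of_nonneg_right _ hH0.le
      have h5 : (range N).filter (fun n : ℕ => (n : ℝ) < 5 * X + H / 2) ⊆
          range (⌈5 * X + H / 2⌉₊) := by
        intro n hn
        rw [mem_range]
        exact Nat.lt_ceil.mpr (mem_filter.mp hn).2
      have h6 : (((range N).filter (fun n : ℕ => (n : ℝ) < 5 * X + H / 2)).card : ℝ) ≤
          (⌈5 * X + H / 2⌉₊ : ℝ) := by
        have := card_le_card h5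
        rw [card_range] at this
        exact_mod_cast this
      have h7 : (⌈5 * X + H / 2⌉₊ : ℝ) ≤ 5 * X + H / 2 + 1 :=
        (Nat.ceil_lt_add_one (by positivity)).le
      linarith
    rw [integral_const, probReal_univ, one_smul] at h2
    exact h2
  have hnn : 0 ≤ᵐ[P] fun ω => IC (fun n => (rmf e ω n : ℂ)) (X / 4) (5 * X) H := by
    apply Filter.Eventually.of_forall
    intro ω
    change 0 ≤ ∫ y in (X / 4)..(5 * X), ‖MC (fun n => (rmf e ω n : ℂ)) y H‖ ^ 2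
    exact intervalIntegral.integral_nonneg hUV (fun y _ => sq_nonneg _)
  have hm := ProbA_markov hnn hI (ε := T ^ 2 * X * H) (by positivity) hE
  refine (measure_mono ?_).trans (hm.trans ?_)
  · intro ω hω
    change T ^ 2 * X * H < ∫ y in (X / 4)..(5 * X), ‖MC (fun n => (rmf e ω n : ℂ)) y H‖ ^ 2 at hω
    exact hω.le
  · apply ENNReal.ofReal_le_ofReal
    apply le_of_eq
    field_simp

end Pool.Agent.H18.RM

end

section

/-!
# The probability of a bad scale (random model)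

Union bound with `prob_up` (at most `2 log X + 2` values of `i` with `2^i ≤ R ≤ X`) and `prob_dev`
(for the two intervals `[X, 2X']` and `[X', 2X]`, and all `i, j` with `2^i (1 + j/J) ≤ R`; for
given `i` there are at most `J` values of `j`, each window length is at most `2^(i+1)`, and
`∑_{2^i ≤ R} 2^(i+1) ≤ 4 R`).
-/

set_option autoImplicit false

namespace Pool.Agent.H18.RM

open Finset MeasureTheory ProbabilityTheory

universe u

private theorem badA_pow_iff {R : ℝ} (hR : 1 ≤ R) (i : ℕ) :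
    (2 : ℝ) ^ i ≤ R ↔ i ∈ range (Nat.log 2 ⌊R⌋₊ + 1) := by
  have hR0 : 0 ≤ R := by linarith
  have hm : ⌊R⌋₊ ≠ 0 := by
    have : 1 ≤ ⌊R⌋₊ := Nat.le_floor (by simpa using hR)
    omega
  rw [mem_range, Nat.lt_succ_iff, Nat.le_log_iff_pow_le (by norm_num) hm]
  constructor
  · intro h
    exact Nat.le_floor (by push_cast; exact h)
  · intro h
    have h1 : ((2 ^ i : ℕ) : ℝ) ≤ (⌊R⌋₊ : ℝ) := by exact_mod_cast h
    push_cast at h1
    exact h1.trans (Nat.floor_le hR0)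

private theorem badA_count {X R : ℝ} (hR : 1 ≤ R) (hRX : R ≤ X) :
    ((Nat.log 2 ⌊R⌋₊ + 1 : ℕ) : ℝ) ≤ 2 * Real.log X + 2 := by
  have h1 : (2 : ℝ) ^ (Nat.log 2 ⌊R⌋₊) ≤ R :=
    (badA_pow_iff hR _).2 (by rw [mem_range]; omega)
  have h2 : Real.log ((2 : ℝ) ^ (Nat.log 2 ⌊R⌋₊)) ≤ Real.log X :=
    Real.log_le_log (by positivity) (h1.trans hRX)
  rw [Real.log_pow] at h2
  have h3 := Real.log_two_gt_d9
  have h4 : (0 : ℝ) ≤ (Nat.log 2 ⌊R⌋₊ : ℕ) := Nat.cast_nonneg _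
  push_cast
  nlinarith

private theorem badA_geom {R : ℝ} (hR : 1 ≤ R) :
    ∑ i ∈ range (Nat.log 2 ⌊R⌋₊ + 1), (2 : ℝ) ^ (i + 1) ≤ 4 * R := by
  have h1 : (2 : ℝ) ^ (Nat.log 2 ⌊R⌋₊) ≤ R :=
    (badA_pow_iff hR _).2 (by rw [mem_range]; omega)
  have h2 : ∀ n : ℕ, ∑ i ∈ range n, (2 : ℝ) ^ (i + 1) = 2 * 2 ^ n - 2 := by
    intro n
    induction n with
    | zero => norm_num
    | succ n ih => rw [sum_range_succ, ih]; ring
  rw [h2, pow_succ]
  linarith

private theorem badA_union {Ω : Type u} [MeasurableSpace Ω] (P : Measure Ω) (n0 J : ℕ)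
    (S : ℕ → ℕ → Set Ω) (c : ℝ) (hc : 0 ≤ c) (R : ℝ)
    (hS : ∀ i ∈ range n0, ∀ j ∈ range J, P (S i j) ≤ ENNReal.ofReal (c * 2 ^ (i + 1)))
    (hg : ∑ i ∈ range n0, (2 : ℝ) ^ (i + 1) ≤ 4 * R) :
    P (⋃ i ∈ range n0, ⋃ j ∈ range J, S i j) ≤ ENNReal.ofReal (c * J * (4 * R)) := by
  calc P (⋃ i ∈ range n0, ⋃ j ∈ range J, S i j)
      ≤ ∑ i ∈ range n0, P (⋃ j ∈ range J, S i j) := measure_biUnion_finset_le _ _
    _ ≤ ∑ i ∈ range n0, ∑ j ∈ range J, P (S i j) :=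
        sum_le_sum fun i _ => measure_biUnion_finset_le _ _
    _ ≤ ∑ i ∈ range n0, ∑ j ∈ range J, ENNReal.ofReal (c * 2 ^ (i + 1)) :=
        sum_le_sum fun i hi => sum_le_sum fun j hj => hS i hi j hj
    _ = ENNReal.ofReal (∑ i ∈ range n0, ∑ j ∈ range J, c * 2 ^ (i + 1)) := by
        rw [ENNReal.ofReal_sum_of_nonneg (fun i _ => sum_nonneg fun j _ => by positivity)]
        refine sum_congr rfl fun i _ => ?_
        rw [ENNReal.ofReal_sum_of_nonneg (fun j _ => by positivity)]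
    _ ≤ ENNReal.ofReal (c * J * (4 * R)) := by
        apply ENNReal.ofReal_le_ofReal
        have h1 : ∑ i ∈ range n0, ∑ j ∈ range J, c * (2 : ℝ) ^ (i + 1) =
            c * J * ∑ i ∈ range n0, (2 : ℝ) ^ (i + 1) := by
          rw [mul_sum]
          refine sum_congr rfl fun i _ => ?_
          rw [sum_const, card_range, nsmul_eq_mul]
          ring
        rw [h1]
        exact mul_le_mul_of_nonneg_left hg (by positivity)

theorem prob_bad : ∃ C : ℝ, 1 ≤ C ∧ ∀ (Ω : Type u) [MeasurableSpace Ω] (P : Measure Ω)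
    [IsProbabilityMeasure P] (e : ℕ → Ω → ℝ), IsSigns P e → ∀ (X X' R T δ : ℝ) (J : ℕ), 32 ≤ X →
    X ≤ X' → X' ≤ 3 / 2 * X → 1 ≤ R → R ≤ X / 8 → 0 < T → 1 ≤ J →
    C * (1 / Real.sqrt X + R / X) ≤ δ →
    P {ω | ¬ GoodAt (fun n => (rmf e ω n : ℂ)) X X' R T δ J} ≤
      ENNReal.ofReal ((2 * Real.log X + 2) * (10 / T ^ 2) +
        C * (1 + Real.log X) ^ 4 * J * R / (δ ^ 2 * X)) := by
  obtain ⟨C0, hC0, hdev⟩ := prob_dev.{u}
  refine ⟨8 * C0, by linarith, ?_⟩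
  intro Ω _ P _ e he X X' R T δ J hX hXX' hX' hR hRX hT hJ hδ
  have hX0 : 0 < X := by linarith
  have hR0 : 0 < R := by linarith
  have hs : 0 < Real.sqrt X := Real.sqrt_pos.mpr hX0
  have hJ0 : (0 : ℝ) < J := by exact_mod_cast hJ
  have hlog : 0 ≤ Real.log X := Real.log_nonneg (by linarith)
  have hbr : 0 < 1 / Real.sqrt X + R / X := by positivity
  have hδ0 : 0 < δ := lt_of_lt_of_le (by positivity) hδ
  have hδC : C0 * (1 / Real.sqrt X + R / X) ≤ δ := by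
    refine le_trans ?_ hδ
    apply mul_le_mul_of_nonneg_right _ hbr.le
    linarith
  set n0 : ℕ := Nat.log 2 ⌊R⌋₊ + 1 with hn0
  set c : ℝ := C0 * (1 + Real.log X) ^ 4 / (δ ^ 2 * X) with hc
  have hc0 : 0 ≤ c := by positivity
  -- the events
  set A : ℕ → Set Ω := fun i => {ω | T ^ 2 * X * (2 : ℝ) ^ i <
    ∫ y in (X / 4)..(5 * X), ‖MC (fun n => (rmf e ω n : ℂ)) y ((2 : ℝ) ^ i)‖ ^ 2} with hA
  set Bd : ℝ → ℝ → ℕ → ℕ → Set Ω := fun U V i j => {ω | (2 : ℝ) ^ i * (1 + j / J) ≤ R ∧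
      δ * X * ((2 : ℝ) ^ i * (1 + j / J)) <
        |IC (fun n => (rmf e ω n : ℂ)) U V ((2 : ℝ) ^ i * (1 + j / J)) -
        6 / Real.pi ^ 2 * ((2 : ℝ) ^ i * (1 + j / J)) * (V - U)|} with hBd
  have hsub : {ω | ¬ GoodAt (fun n => (rmf e ω n : ℂ)) X X' R T δ J} ⊆
      (⋃ i ∈ range n0, A i) ∪ ((⋃ i ∈ range n0, ⋃ j ∈ range J, Bd X (2 * X') i j) ∪
        (⋃ i ∈ range n0, ⋃ j ∈ range J, Bd X' (2 * X) i j)) := by
    intro ω hω
    rw [Set.mem_ofPred_eq] at hω
    by_contra hcon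
    rw [Set.mem_union, Set.mem_union, not_or, not_or] at hcon
    obtain ⟨h1, h2, h3⟩ := hcon
    apply hω
    have hidx : ∀ i j : ℕ, (2 : ℝ) ^ i * (1 + j / J) ≤ R → i ∈ range n0 := by
      intro i j h
      refine (badA_pow_iff hR i).1 (le_trans ?_ h)
      have : (0 : ℝ) ≤ (j : ℝ) / J := by positivity
      nlinarith [show (0 : ℝ) < 2 ^ i by positivity]
    refine ⟨?_, ?_, ?_⟩
    · intro i hi
      by_contra hlt
      rw [not_le] at hlt
      exact h1 (Set.mem_biUnion ((badA_pow_iff hR i).1 hi) hlt)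
    · intro i j hj hij
      by_contra hlt
      rw [not_le] at hlt
      exact h2 (Set.mem_biUnion (hidx i j hij) (Set.mem_biUnion (mem_range.2 hj) ⟨hij, hlt⟩))
    · intro i j hj hij
      by_contra hlt
      rw [not_le] at hlt
      exact h3 (Set.mem_biUnion (hidx i j hij) (Set.mem_biUnion (mem_range.2 hj) ⟨hij, hlt⟩))
  -- the upper bounds
  have hPA : P (⋃ i ∈ range n0, A i) ≤
      ENNReal.ofReal ((2 * Real.log X + 2) * (10 / T ^ 2)) := by
    calc P (⋃ i ∈ range n0, A i) ≤ ∑ i ∈ range n0, P (A i) := measure_biUnion_finset_le _ _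
      _ ≤ ∑ i ∈ range n0, ENNReal.ofReal (10 / T ^ 2) := by
        refine sum_le_sum fun i hi => ?_
        have hi' : (2 : ℝ) ^ i ≤ R := (badA_pow_iff hR i).2 hi
        exact prob_up he hX (one_le_pow₀ (by norm_num)) (by linarith) hT
      _ = ENNReal.ofReal (n0 * (10 / T ^ 2)) := by
        rw [sum_const, card_range, nsmul_eq_mul, ENNReal.ofReal_mul (Nat.cast_nonneg _),
          ENNReal.ofReal_natCast]
      _ ≤ _ := by
        apply ENNReal.ofReal_le_ofReal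
        apply mul_le_mul_of_nonneg_right _ (by positivity)
        exact badA_count hR (by linarith)
  have hPB : ∀ U V : ℝ, X / 2 ≤ U → U ≤ V → V ≤ 4 * X →
      P (⋃ i ∈ range n0, ⋃ j ∈ range J, Bd U V i j) ≤ ENNReal.ofReal (c * J * (4 * R)) := by
    intro U V hU hUV hV
    refine badA_union P n0 J (Bd U V) c hc0 R ?_ (badA_geom hR)
    intro i hi j hj
    by_cases hij : (2 : ℝ) ^ i * (1 + j / J) ≤ R
    · have hjJ : (j : ℝ) / J ≤ 1 := by
        rw [div_le_one hJ0]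
        exact_mod_cast (mem_range.1 hj).le
      have hj0 : (0 : ℝ) ≤ (j : ℝ) / J := by positivity
      have h2i : (1 : ℝ) ≤ 2 ^ i := one_le_pow₀ (by norm_num)
      have hH1 : 1 ≤ (2 : ℝ) ^ i * (1 + j / J) := by nlinarith
      have hH2 : (2 : ℝ) ^ i * (1 + j / J) ≤ 2 ^ (i + 1) := by
        rw [pow_succ]; nlinarith
      have hmain := hdev Ω P e he X U V ((2 : ℝ) ^ i * (1 + j / J)) δ hX hU hUV hV hH1
        (hij.trans hRX) (by
          refine le_trans ?_ hδC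
          apply mul_le_mul_of_nonneg_left _ (by linarith)
          gcongr)
      calc P (Bd U V i j) ≤ P {ω | δ * X * ((2 : ℝ) ^ i * (1 + j / J)) <
            |IC (fun n => (rmf e ω n : ℂ)) U V ((2 : ℝ) ^ i * (1 + j / J)) -
            6 / Real.pi ^ 2 * ((2 : ℝ) ^ i * (1 + j / J)) * (V - U)|} :=
            measure_mono fun ω hω => hω.2
        _ ≤ ENNReal.ofReal (C0 * (1 + Real.log X) ^ 4 * ((2 : ℝ) ^ i * (1 + j / J)) /
            (δ ^ 2 * X)) := hmain
        _ ≤ ENNReal.ofReal (c * 2 ^ (i + 1)) := by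
          apply ENNReal.ofReal_le_ofReal
          rw [hc, div_mul_eq_mul_div]
          gcongr
    · have hemp : Bd U V i j = ∅ := by
        ext ω
        simp only [hBd, Set.mem_ofPred_eq, Set.mem_empty_iff_false, iff_false, not_and]
        intro h
        exact absurd h hij
      rw [hemp, measure_empty]
      exact bot_le
  have hfin : (2 * Real.log X + 2) * (10 / T ^ 2) + (c * J * (4 * R) + c * J * (4 * R)) =
      (2 * Real.log X + 2) * (10 / T ^ 2) +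
        8 * C0 * (1 + Real.log X) ^ 4 * J * R / (δ ^ 2 * X) := by
    rw [hc]; field_simp; ring
  calc P {ω | ¬ GoodAt (fun n => (rmf e ω n : ℂ)) X X' R T δ J}
      ≤ P ((⋃ i ∈ range n0, A i) ∪ ((⋃ i ∈ range n0, ⋃ j ∈ range J, Bd X (2 * X') i j) ∪
        (⋃ i ∈ range n0, ⋃ j ∈ range J, Bd X' (2 * X) i j))) := measure_mono hsub
    _ ≤ P (⋃ i ∈ range n0, A i) + (P (⋃ i ∈ range n0, ⋃ j ∈ range J, Bd X (2 * X') i j) +
        P (⋃ i ∈ range n0, ⋃ j ∈ range J, Bd X' (2 * X) i j)) :=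
        (measure_union_le _ _).trans (add_le_add le_rfl (measure_union_le _ _))
    _ ≤ ENNReal.ofReal ((2 * Real.log X + 2) * (10 / T ^ 2)) +
        (ENNReal.ofReal (c * J * (4 * R)) + ENNReal.ofReal (c * J * (4 * R))) :=
        add_le_add hPA (add_le_add (hPB _ _ (by linarith) (by linarith) (by linarith))
          (hPB _ _ (by linarith) (by linarith) (by linarith)))
    _ = _ := by
        rw [← ENNReal.ofReal_add (by positivity) (by positivity),
          ← ENNReal.ofReal_add (by positivity) (by positivity), hfin]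

end Pool.Agent.H18.RM

end

section

/-!
# The almost sure law for the random model

Scales `X_k = exp(k^α)`, `α = 1/(B+3)`, `L = log X_k = k^α`; `T = L^(B+3)`,
`J = ⌈L^(6B+14)⌉`, `δ = L^(-(B+1))`, `R = X_k / L^(9B+24)`.
* `X_{k+1}/X_k = exp((k+1)^α - k^α) ≤ exp(α k^(α-1)) ≤ 1 + 2 L^(-(B+2))` for large `k`, since
  `k^(α-1) = L^(-(B+2))`.
* `prob_bad`: the probability of the `k`-th bad event is at most
  `30 L^(1-2(B+3)) + C' L^(-(B+4)) ≤ C'' (k^(-(2B+5)/(B+3)) + k^(-(B+4)/(B+3)))`, summable, so by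
  Borel-Cantelli (`measure_limsup_atTop_eq_zero` / `ae_eventually_notMem`) almost surely all large
  scales are good.
* `GoodAt.law`: for `Y` in `[X_k, X_{k+1}]` and `1 ≤ H ≤ Y/(log Y)^(9B+25) ≤ R` the error is at most
  `2(δ + 60 T²/√J) + 6τ ≤ 134 L^(-(B+1)) ≤ (log Y)^(-B)` (`T²/√J ≤ L^(2B+6-(3B+7))`).
-/

set_option autoImplicit false

namespace Pool.Agent.H18.RM

open Finset MeasureTheory ProbabilityTheory Filter

/-- `L_k = k^(1/(B+3))` -/
private noncomputable def seqaL (B k : ℕ) : ℝ := (k : ℝ) ^ (((B + 3 : ℕ) : ℝ)⁻¹)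

private theorem seqaL_nonneg (B k : ℕ) : 0 ≤ seqaL B k := by
  unfold seqaL; positivity

private theorem seqaL_pow (B k : ℕ) : seqaL B k ^ (B + 3) = k := by
  unfold seqaL
  exact Real.rpow_inv_natCast_pow (Nat.cast_nonneg k) (by omega)

private theorem seqaL_mono (B : ℕ) {k l : ℕ} (h : k ≤ l) : seqaL B k ≤ seqaL B l := by
  unfold seqaL
  apply Real.rpow_le_rpow (Nat.cast_nonneg k) (by exact_mod_cast h) (by positivity)

private theorem seqaL_tendsto (B : ℕ) : Tendsto (seqaL B) atTop atTop := by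
  unfold seqaL
  have h := tendsto_rpow_atTop (y := (((B + 3 : ℕ) : ℝ)⁻¹)) (by positivity)
  exact h.comp tendsto_natCast_atTop_atTop

private theorem seqaL_step (B k : ℕ) (h1 : 1 ≤ seqaL B k) :
    seqaL B (k + 1) - seqaL B k ≤ 1 / seqaL B k ^ (B + 2) := by
  set a := seqaL B k with ha
  set b := seqaL B (k + 1) with hb
  have hab : a ≤ b := seqaL_mono B (Nat.le_succ k)
  have ha' : a ^ (B + 3) = k := seqaL_pow B k
  have hb' : b ^ (B + 3) = k + 1 := by
    have := seqaL_pow B (k + 1)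
    rw [← hb] at this
    rw [this]; push_cast; ring
  have h2 : a ^ (B + 2) ≤ b ^ (B + 2) := pow_le_pow_left₀ (by linarith) hab _
  have h3 : b ^ (B + 3) = b * b ^ (B + 2) := by ring
  have h4 : a ^ (B + 3) = a * a ^ (B + 2) := by ring
  have hapos : 0 < a ^ (B + 2) := by positivity
  rw [le_div_iff₀ hapos]
  have h5 : b * a ^ (B + 2) ≤ b * b ^ (B + 2) := mul_le_mul_of_nonneg_left h2 (by linarith)
  have h6 : (b - a) * a ^ (B + 2) = b * a ^ (B + 2) - a * a ^ (B + 2) := by ring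
  rw [h6]
  linarith

private theorem seqa_exp_step (B k : ℕ) (h2 : 2 ≤ seqaL B k) :
    Real.exp (seqaL B (k + 1)) ≤ (1 + 2 / seqaL B k ^ (B + 2)) * Real.exp (seqaL B k) := by
  set a := seqaL B k with ha
  set b := seqaL B (k + 1) with hb
  have hab : a ≤ b := seqaL_mono B (Nat.le_succ k)
  have hs := seqaL_step B k (by linarith)
  rw [← ha, ← hb] at hs
  have h4 : (4:ℝ) ≤ a ^ (B + 2) := by
    calc (4:ℝ) = 2 ^ 2 := by norm_num
      _ ≤ a ^ 2 := pow_le_pow_left₀ (by norm_num) h2 2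
      _ ≤ a ^ (B + 2) := pow_le_pow_right₀ (by linarith) (by omega)
  have h5 : 1 / a ^ (B + 2) ≤ 1 / 4 := one_div_le_one_div_of_le (by norm_num) h4
  set t := b - a with ht
  have ht0 : 0 ≤ t := by linarith
  have hexp : Real.exp t ≤ 1 + 2 * t := by
    rcases ht0.eq_or_lt with h0 | h0
    · rw [← h0]; simp
    · have h6 := (Real.exp_bound_div_one_sub_of_interval' h0 (by linarith)).le
      refine h6.trans ?_
      rw [div_le_iff₀ (by linarith)]
      nlinarith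
  have e : Real.exp b = Real.exp t * Real.exp a := by
    rw [← Real.exp_add, ht]; ring_nf
  rw [e]
  apply mul_le_mul_of_nonneg_right _ (Real.exp_pos a).le
  have : 2 / a ^ (B + 2) = 2 * (1 / a ^ (B + 2)) := by ring
  rw [this]
  linarith

/-- the threshold for the size of `L` -/
private theorem seqa_threshold (B : ℕ) (C : ℝ) : ∃ M : ℝ, 8 ≤ M ∧ 2 * C ≤ M ∧
    134 * 2 ^ B ≤ M ∧ ∀ L : ℝ, M ≤ L → L ^ (9 * B + 24) ≤ Real.exp L := by
  have h := Real.tendsto_exp_div_pow_atTop (9 * B + 24)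
  have h1 := (tendsto_atTop.1 h 1)
  obtain ⟨M0, hM0⟩ := Filter.eventually_atTop.1 h1
  refine ⟨max M0 (max 8 (max (2 * C) (134 * 2 ^ B))), ?_, ?_, ?_, ?_⟩
  · exact (le_max_left _ _).trans (le_max_right _ _)
  · exact (le_max_left _ _).trans ((le_max_right _ _).trans (le_max_right _ _))
  · exact (le_max_right _ _).trans ((le_max_right _ _).trans (le_max_right _ _))
  · intro L hL
    have h8 : 8 ≤ L := ((le_max_left _ _).trans (le_max_right _ _)).trans hL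
    have := hM0 L ((le_max_left _ _).trans hL)
    rw [le_div_iff₀ (by positivity)] at this
    linarith

/-- numerical facts at one scale -/
private theorem seqa_num (B : ℕ) (C L : ℝ) (hC : 1 ≤ C) (h8 : 8 ≤ L) (hC2 : 2 * C ≤ L)
    (hE : L ^ (9 * B + 24) ≤ Real.exp L) :
    32 ≤ Real.exp L ∧ 1 ≤ Real.exp L / L ^ (9 * B + 24) ∧
      Real.exp L / L ^ (9 * B + 24) ≤ Real.exp L / 8 ∧
      C * (1 / Real.sqrt (Real.exp L) + Real.exp L / L ^ (9 * B + 24) / Real.exp L)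
        ≤ 1 / L ^ (B + 1) := by
  have hL0 : 0 < L := by linarith
  have hL1 : 1 ≤ L := by linarith
  have hP : 0 < L ^ (9 * B + 24) := by positivity
  have hexp := Real.exp_pos L
  have h64 : (64:ℝ) ≤ L ^ (9 * B + 24) := by
    calc (64:ℝ) = 8 ^ 2 := by norm_num
      _ ≤ L ^ 2 := pow_le_pow_left₀ (by norm_num) h8 2
      _ ≤ L ^ (9 * B + 24) := pow_le_pow_right₀ hL1 (by omega)
  refine ⟨by linarith, ?_, ?_, ?_⟩
  · rw [le_div_iff₀ hP]; linarith
  · apply div_le_div_of_nonneg_left hexp.le (by norm_num) (by linarith)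
  · have h1 : L ^ (B + 2) ≤ Real.sqrt (Real.exp L) := by
      apply Real.le_sqrt_of_sq_le
      calc (L ^ (B + 2)) ^ 2 = L ^ (2 * B + 4) := by ring
        _ ≤ L ^ (9 * B + 24) := pow_le_pow_right₀ hL1 (by omega)
        _ ≤ _ := hE
    have h2 : 1 / Real.sqrt (Real.exp L) ≤ 1 / L ^ (B + 2) :=
      one_div_le_one_div_of_le (by positivity) h1
    have h3 : Real.exp L / L ^ (9 * B + 24) / Real.exp L ≤ 1 / L ^ (B + 2) := by
      have : Real.exp L / L ^ (9 * B + 24) / Real.exp L = 1 / L ^ (9 * B + 24) := by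
        field_simp
      rw [this]
      exact one_div_le_one_div_of_le (by positivity) (pow_le_pow_right₀ hL1 (by omega))
    calc C * (1 / Real.sqrt (Real.exp L) + Real.exp L / L ^ (9 * B + 24) / Real.exp L)
        ≤ C * (1 / L ^ (B + 2) + 1 / L ^ (B + 2)) :=
          mul_le_mul_of_nonneg_left (add_le_add h2 h3) (by linarith)
      _ = (2 * C) / L ^ (B + 2) := by ring
      _ ≤ L / L ^ (B + 2) := by gcongr
      _ = 1 / L ^ (B + 1) := by
          have : L ^ (B + 2) = L * L ^ (B + 1) := by ring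
          rw [this]; field_simp

/-- the probability bound at one scale -/
private theorem seqa_prob (B k : ℕ) (C : ℝ) (hC : 1 ≤ C) (h8 : 8 ≤ seqaL B k) :
    (2 * Real.log (Real.exp (seqaL B k)) + 2) * (10 / (seqaL B k ^ (B + 3)) ^ 2) +
        C * (1 + Real.log (Real.exp (seqaL B k))) ^ 4 * (⌈seqaL B k ^ (6 * B + 14)⌉₊ : ℕ)
          * (Real.exp (seqaL B k) / seqaL B k ^ (9 * B + 24))
          / ((1 / seqaL B k ^ (B + 1)) ^ 2 * Real.exp (seqaL B k))
      ≤ (40 + 32 * C) * (1 / (k : ℝ) ^ (1 + (((B + 3 : ℕ) : ℝ)⁻¹))) := by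
  set L := seqaL B k with hL
  have hL0 : 0 < L := by linarith
  have hL1 : 1 ≤ L := by linarith
  have hLk : L ^ (B + 3) = k := seqaL_pow B k
  have hk0 : (0:ℝ) < k := by rw [← hLk]; positivity
  have hkL : (k : ℝ) ^ (1 + (((B + 3 : ℕ) : ℝ)⁻¹)) = L ^ (B + 4) := by
    rw [Real.rpow_add hk0, Real.rpow_one]
    have : (k:ℝ) ^ (((B + 3 : ℕ) : ℝ)⁻¹) = L := rfl
    rw [this, ← hLk]; ring
  rw [hkL, Real.log_exp]
  have hexp := Real.exp_pos L
  have h1 : (2 * L + 2) * (10 / (L ^ (B + 3)) ^ 2) ≤ 40 * (1 / L ^ (B + 4)) := by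
    calc (2 * L + 2) * (10 / (L ^ (B + 3)) ^ 2) ≤ (4 * L) * (10 / (L ^ (B + 3)) ^ 2) :=
          mul_le_mul_of_nonneg_right (by linarith) (by positivity)
      _ = 40 * (1 / L ^ (2 * B + 5)) := by
          have : (L ^ (B + 3)) ^ 2 = L * L ^ (2 * B + 5) := by ring
          rw [this]; field_simp; norm_num
      _ ≤ 40 * (1 / L ^ (B + 4)) := by
          apply mul_le_mul_of_nonneg_left _ (by norm_num)
          exact one_div_le_one_div_of_le (by positivity) (pow_le_pow_right₀ hL1 (by omega))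
  have hJ : ((⌈L ^ (6 * B + 14)⌉₊ : ℕ) : ℝ) ≤ 2 * L ^ (6 * B + 14) := by
    have h3 := (Nat.ceil_lt_add_one (show 0 ≤ L ^ (6 * B + 14) by positivity)).le
    have h4 : (1:ℝ) ≤ L ^ (6 * B + 14) := one_le_pow₀ hL1
    linarith
  have h2 : C * (1 + L) ^ 4 * (⌈L ^ (6 * B + 14)⌉₊ : ℕ) * (Real.exp L / L ^ (9 * B + 24))
          / ((1 / L ^ (B + 1)) ^ 2 * Real.exp L) ≤ 32 * C * (1 / L ^ (B + 4)) := by
    have e1 : C * (1 + L) ^ 4 * (⌈L ^ (6 * B + 14)⌉₊ : ℕ) * (Real.exp L / L ^ (9 * B + 24))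
          / ((1 / L ^ (B + 1)) ^ 2 * Real.exp L)
        = C * (1 + L) ^ 4 * (⌈L ^ (6 * B + 14)⌉₊ : ℕ) * (L ^ (2 * B + 2) / L ^ (9 * B + 24)) := by
      have : (1 / L ^ (B + 1)) ^ 2 = 1 / L ^ (2 * B + 2) := by
        rw [div_pow, one_pow, ← pow_mul]; ring_nf
      rw [this]; field_simp
    rw [e1]
    calc C * (1 + L) ^ 4 * (⌈L ^ (6 * B + 14)⌉₊ : ℕ) * (L ^ (2 * B + 2) / L ^ (9 * B + 24))
        ≤ C * (2 * L) ^ 4 * (2 * L ^ (6 * B + 14)) * (L ^ (2 * B + 2) / L ^ (9 * B + 24)) := by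
          gcongr
          linarith
      _ = 32 * C * (L ^ (8 * B + 20) / L ^ (9 * B + 24)) := by
          have : L ^ (8 * B + 20) = L ^ 4 * L ^ (6 * B + 14) * L ^ (2 * B + 2) := by ring
          rw [this]; ring
      _ = 32 * C * (1 / L ^ (B + 4)) := by
          have : L ^ (9 * B + 24) = L ^ (8 * B + 20) * L ^ (B + 4) := by ring
          rw [this]
          congr 1
          field_simp
  have h3 : (40 + 32 * C) * (1 / L ^ (B + 4)) = 40 * (1 / L ^ (B + 4)) + 32 * C * (1 / L ^ (B + 4)) := by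
    ring
  rw [h3]
  exact add_le_add h1 h2

theorem law_ae {Ω : Type*} [MeasurableSpace Ω] {P : Measure Ω} [IsProbabilityMeasure P]
    {e : ℕ → Ω → ℝ} (h : IsSigns P e) (B : ℕ) :
    ∀ᵐ ω ∂P, ∀ᶠ X : ℝ in atTop, ∀ H : ℝ, 1 ≤ H → H ≤ X / Real.log X ^ (9 * B + 25) →
      |(1 / X * IC (fun n => (rmf e ω n : ℂ)) X (2 * X) H) / (H / (Real.pi ^ 2 / 6)) - 1| ≤
        1 / Real.log X ^ B := by
  obtain ⟨C, hC, hbad⟩ := prob_bad
  obtain ⟨M, hM8, hM2, hM134, hME⟩ := seqa_threshold B C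
  obtain ⟨K1, hK1⟩ := Filter.eventually_atTop.1 ((seqaL_tendsto B).eventually_ge_atTop M)
  -- the bad events
  set bad : ℕ → Set Ω := fun k => {ω | ¬ GoodAt (fun n => (rmf e ω n : ℂ))
    (Real.exp (seqaL B k)) (Real.exp (seqaL B (k + 1)))
    (Real.exp (seqaL B k) / seqaL B k ^ (9 * B + 24)) (seqaL B k ^ (B + 3))
    (1 / seqaL B k ^ (B + 1)) ⌈seqaL B k ^ (6 * B + 14)⌉₊} with hbaddef
  set s : ℕ → Set Ω := fun k => if K1 ≤ k then bad k else ∅ with hs
  have hbound : ∀ k, P (s k) ≤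
      ENNReal.ofReal ((40 + 32 * C) * (1 / (k : ℝ) ^ (1 + (((B + 3 : ℕ) : ℝ)⁻¹)))) := by
    intro k
    by_cases hk : K1 ≤ k
    · have hML := hK1 k hk
      have h8 : 8 ≤ seqaL B k := hM8.trans hML
      obtain ⟨n1, n2, n3, n4⟩ := seqa_num B C (seqaL B k) hC h8 (hM2.trans hML) (hME _ hML)
      have hstep := seqa_exp_step B k (by linarith)
      have hsk : s k = bad k := by simp only [hs, if_pos hk]
      rw [hsk]
      have hp := hbad Ω P e h (Real.exp (seqaL B k)) (Real.exp (seqaL B (k + 1)))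
        (Real.exp (seqaL B k) / seqaL B k ^ (9 * B + 24)) (seqaL B k ^ (B + 3))
        (1 / seqaL B k ^ (B + 1)) ⌈seqaL B k ^ (6 * B + 14)⌉₊ n1
        (Real.exp_le_exp.2 (seqaL_mono B (Nat.le_succ k)))
        (by
          refine hstep.trans ?_
          have h4 : (4:ℝ) ≤ seqaL B k ^ (B + 2) := by
            calc (4:ℝ) ≤ 8 ^ 2 := by norm_num
              _ ≤ seqaL B k ^ 2 := pow_le_pow_left₀ (by norm_num) h8 2
              _ ≤ seqaL B k ^ (B + 2) := pow_le_pow_right₀ (by linarith) (by omega)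
          have h5 : 2 / seqaL B k ^ (B + 2) ≤ 2 / 4 :=
            div_le_div_of_nonneg_left (by norm_num) (by norm_num) h4
          apply mul_le_mul_of_nonneg_right _ (Real.exp_pos _).le
          linarith)
        n2 n3 (by positivity)
        (Nat.one_le_iff_ne_zero.2 (by
          have : 0 < seqaL B k ^ (6 * B + 14) := by positivity
          have := Nat.ceil_pos.2 this
          omega)) n4
      refine hp.trans (ENNReal.ofReal_le_ofReal ?_)
      exact seqa_prob B k C hC h8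
    · have hsk : s k = ∅ := by simp only [hs, if_neg hk]
      rw [hsk]; simp
  have hsum : Summable (fun k : ℕ => (40 + 32 * C) * (1 / (k : ℝ) ^ (1 + (((B + 3 : ℕ) : ℝ)⁻¹)))) := by
    apply Summable.mul_left
    apply Real.summable_one_div_nat_rpow.2
    have : (0:ℝ) < ((B + 3 : ℕ) : ℝ)⁻¹ := by positivity
    linarith
  have hfin : ∑' k, P (s k) ≠ ⊤ := by
    refine ne_top_of_le_ne_top hsum.tsum_ofReal_ne_top ?_
    exact ENNReal.tsum_le_tsum hbound
  have hBC := ae_eventually_notMem hfin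
  filter_upwards [hBC, rmf_sq h] with ω hω hsq
  obtain ⟨K0, hK0⟩ := Filter.eventually_atTop.1 hω
  set g : ℕ → ℂ := fun n => (rmf e ω n : ℂ) with hg
  have hg1 : ∀ n, ‖g n‖ ≤ 1 := by
    intro n
    simp only [hg]
    rw [Complex.norm_real]
    exact (hsq n).1
  -- the index of the scale
  have hidx : ∀ᶠ X : ℝ in atTop, (max K0 K1 : ℕ) ≤ ⌊Real.log X ^ (B + 3)⌋₊ ∧ 1 ≤ Real.log X
      ∧ 0 < X := by
    have h1 : Tendsto (fun X : ℝ => ⌊Real.log X ^ (B + 3)⌋₊) atTop atTop := by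
      refine tendsto_nat_floor_atTop.comp ?_
      exact (tendsto_pow_atTop (by omega)).comp Real.tendsto_log_atTop
    have h2 := h1.eventually_ge_atTop (max K0 K1)
    have h3 := Real.tendsto_log_atTop.eventually_ge_atTop 1
    filter_upwards [h2, h3, Filter.eventually_gt_atTop (0:ℝ)] with X a b c using ⟨a, b, c⟩
  filter_upwards [hidx] with Y hY H hH1 hH2
  obtain ⟨hk, hlog1, hY0⟩ := hY
  set k := ⌊Real.log Y ^ (B + 3)⌋₊ with hkdef
  have hkK1 : K1 ≤ k := (le_max_right _ _).trans hk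
  have hML := hK1 k hkK1
  have hgood : GoodAt g (Real.exp (seqaL B k)) (Real.exp (seqaL B (k + 1)))
    (Real.exp (seqaL B k) / seqaL B k ^ (9 * B + 24)) (seqaL B k ^ (B + 3))
    (1 / seqaL B k ^ (B + 1)) ⌈seqaL B k ^ (6 * B + 14)⌉₊ := by
    have h1 := hK0 k ((le_max_left _ _).trans hk)
    have h2 : s k = bad k := by simp only [hs, if_pos hkK1]
    rw [h2] at h1
    simp only [hbaddef] at h1
    by_contra hcon
    exact h1 hcon
  set L := seqaL B k with hL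
  have h8 : 8 ≤ L := hM8.trans hML
  have hL0 : 0 < L := by linarith
  have hL1 : 1 ≤ L := by linarith
  obtain ⟨n1, n2, n3, n4⟩ := seqa_num B C L hC h8 (hM2.trans hML) (hME _ hML)
  have hstep := seqa_exp_step B k (by linarith)
  rw [← hL] at hstep
  -- location of Y
  have hlogk : L ≤ Real.log Y := by
    have h1 : (k : ℝ) ≤ Real.log Y ^ (B + 3) := Nat.floor_le (by positivity)
    by_contra hcon
    push Not at hcon
    have h2 : Real.log Y ^ (B + 3) < L ^ (B + 3) :=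
      pow_lt_pow_left₀ hcon (by linarith) (by omega)
    rw [hL, seqaL_pow] at h2
    linarith
  have hlogk1 : Real.log Y ≤ seqaL B (k + 1) := by
    have h1 : Real.log Y ^ (B + 3) < k + 1 := Nat.lt_floor_add_one _
    by_contra hcon
    push Not at hcon
    have h2 : seqaL B (k + 1) ^ (B + 3) ≤ Real.log Y ^ (B + 3) :=
      pow_le_pow_left₀ (seqaL_nonneg B _) hcon.le _
    rw [seqaL_pow] at h2
    push_cast at h2
    linarith
  have hYe : Real.exp (Real.log Y) = Y := Real.exp_log hY0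
  have hY1 : Real.exp L ≤ Y := by rw [← hYe]; exact Real.exp_le_exp.2 hlogk
  have hY2 : Y ≤ Real.exp (seqaL B (k + 1)) := by
    rw [← hYe]; exact Real.exp_le_exp.2 hlogk1
  have h64 : (64:ℝ) ≤ L ^ (B + 2) := by
    calc (64:ℝ) = 8 ^ 2 := by norm_num
      _ ≤ L ^ 2 := pow_le_pow_left₀ (by norm_num) h8 2
      _ ≤ L ^ (B + 2) := pow_le_pow_right₀ hL1 (by omega)
  have hτ1 : 2 / L ^ (B + 2) ≤ 1 / 2 := by
    rw [div_le_div_iff₀ (by positivity) (by norm_num)]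
    linarith
  have hexp := Real.exp_pos L
  have hHR : H ≤ Real.exp L / L ^ (9 * B + 24) := by
    refine hH2.trans ?_
    have h1 : Y ≤ L * Real.exp L := by
      refine (hY2.trans hstep).trans ?_
      apply mul_le_mul_of_nonneg_right _ hexp.le
      linarith
    calc Y / Real.log Y ^ (9 * B + 25) ≤ (L * Real.exp L) / L ^ (9 * B + 25) := by
          apply div_le_div₀ (by positivity) h1 (by positivity)
          exact pow_le_pow_left₀ hL0.le hlogk _
      _ = Real.exp L / L ^ (9 * B + 24) := by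
          have : L ^ (9 * B + 25) = L * L ^ (9 * B + 24) := by ring
          rw [this]; field_simp
  have hlaw := GoodAt.law hg1 (τ := 2 / L ^ (B + 2)) hgood (by linarith)
    (Real.exp_le_exp.2 (seqaL_mono B (Nat.le_succ k))) hstep hτ1 n3
    (by
      calc (8:ℝ) ≤ L := h8
        _ = L ^ 1 := (pow_one L).symm
        _ ≤ L ^ (B + 3) := pow_le_pow_right₀ hL1 (by omega))
    (Nat.one_le_iff_ne_zero.2 (by
      have : 0 < L ^ (6 * B + 14) := by positivity
      have := Nat.ceil_pos.2 this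
      omega))
    (by positivity)
    (by
      rw [div_le_one (by positivity)]
      exact one_le_pow₀ hL1)
    hY1 hY2 hH1 hHR
  refine hlaw.trans ?_
  -- the error
  have hJ : 60 * (L ^ (B + 3)) ^ 2 / Real.sqrt (⌈L ^ (6 * B + 14)⌉₊ : ℕ) ≤ 60 / L ^ (B + 1) := by
    have h1 : L ^ (3 * B + 7) ≤ Real.sqrt (⌈L ^ (6 * B + 14)⌉₊ : ℕ) := by
      apply Real.le_sqrt_of_sq_le
      calc (L ^ (3 * B + 7)) ^ 2 = L ^ (6 * B + 14) := by ring
        _ ≤ _ := Nat.le_ceil _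
    calc 60 * (L ^ (B + 3)) ^ 2 / Real.sqrt (⌈L ^ (6 * B + 14)⌉₊ : ℕ)
        ≤ 60 * (L ^ (B + 3)) ^ 2 / L ^ (3 * B + 7) := by gcongr
      _ = 60 / L ^ (B + 1) := by
          have : L ^ (3 * B + 7) = (L ^ (B + 3)) ^ 2 * L ^ (B + 1) := by ring
          rw [this]; field_simp
  have hτ2 : 6 * (2 / L ^ (B + 2)) ≤ 12 * (1 / L ^ (B + 1)) := by
    have : 1 / L ^ (B + 2) ≤ 1 / L ^ (B + 1) :=
      one_div_le_one_div_of_le (by positivity) (pow_le_pow_right₀ hL1 (by omega))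
    calc 6 * (2 / L ^ (B + 2)) = 12 * (1 / L ^ (B + 2)) := by ring
      _ ≤ _ := by linarith
  have htot : 2 * (1 / L ^ (B + 1) + 60 * (L ^ (B + 3)) ^ 2 / Real.sqrt (⌈L ^ (6 * B + 14)⌉₊ : ℕ))
      + 6 * (2 / L ^ (B + 2)) ≤ 134 * (1 / L ^ (B + 1)) := by
    have : 60 / L ^ (B + 1) = 60 * (1 / L ^ (B + 1)) := by ring
    rw [this] at hJ
    linarith
  refine htot.trans ?_
  have hlog2 : Real.log Y ≤ 2 * L := by
    have h1 := seqaL_step B k (by linarith)
    rw [← hL] at h1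
    have h2 : 1 / L ^ (B + 2) ≤ 1 := by
      rw [div_le_one (by positivity)]; exact one_le_pow₀ hL1
    linarith
  have h1 : Real.log Y ^ B ≤ (2 * L) ^ B := pow_le_pow_left₀ (by linarith) hlog2 B
  have h2 : 1 / (2 * L) ^ B ≤ 1 / Real.log Y ^ B := one_div_le_one_div_of_le (by positivity) h1
  refine le_trans ?_ h2
  have h3 : 134 * 2 ^ B ≤ L := hM134.trans hML
  rw [mul_one_div, div_le_div_iff₀ (by positivity) (by positivity), mul_pow]
  calc 134 * (2 ^ B * L ^ B) = (134 * 2 ^ B) * L ^ B := by ring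
    _ ≤ L * L ^ B := mul_le_mul_of_nonneg_right h3 (by positivity)
    _ = 1 * L ^ (B + 1) := by ring

end Pool.Agent.H18.RM

end
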