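import Pool.Agent.H47.B1.M06

/-! The parts of this file: H41.RG.PhiS, H41.RG.PhiL, H41.RG.Unif, H41.RG.Fin. -/

section

/-!
# RG PhiS: short windows, `1 ≤ h ≤ L^8`

`θ = t / sg (2h)`, `C k = cos(θ)^#Wk`, `c = (1/X) ∑ C k`.  `secmom`: by `charA0` the terms with
`D1 (Wk k h) = 0` vanish, the number of the other `k` is at most `∑ D1 ≤ C X h²/L^20 ≤ C X/L^4`
(`avgB`; each term is at most `2`); by `charB0` the pairs with `D1 = D1 = T2 = 0` vanish, the number of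
the other pairs is at most `2 X ∑ D1 + ∑∑ T2 ≤ 3 C X²/L^4`.
`|c - exp(-t²/2)| ≤ K/√h`: with `N = #Wk ≤ 2h`:
`|cos(θ)^N - exp(-θ²/2)^N| ≤ N |cos θ - exp(-θ²/2)| ≤ N θ⁴ ≤ C_t/h` and
`|exp(-Nθ²/2) - exp(-t²/2)| ≤ |N θ² - t²|/2 = (θ²/2) |N - (6/π²) 2h|`, average with `sqf_win`.
-/

set_option autoImplicit false

namespace Pool.Agent.H41.RG

open Finset MeasureTheory ProbabilityTheory Filter
open Pool.Agent.H18.RM (IsSigns rmf)

universe u

private theorem PhiS_cos (θ : ℝ) : |Real.cos θ - Real.exp (-θ ^ 2 / 2)| ≤ 2 * θ ^ 4 := by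
  by_cases hθ : |θ| ≤ 1
  · have h1 := Real.cos_bound hθ
    have h2 : |(-θ ^ 2 / 2 : ℝ)| ≤ 1 := by
      have h3 : θ ^ 2 ≤ 1 := (sq_le_one_iff_abs_le_one _).2 hθ
      rw [abs_le]
      constructor <;> nlinarith [sq_nonneg θ]
    have h3 := Real.abs_exp_sub_one_sub_id_le h2
    have h4 : |θ| ^ 4 = θ ^ 4 := by
      rw [pow_abs, abs_of_nonneg (by positivity)]
    rw [h4] at h1
    have h5 : (-θ ^ 2 / 2) ^ 2 = θ ^ 4 / 4 := by ring
    rw [h5] at h3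
    have h6 := abs_le.1 h1
    have h7 := abs_le.1 h3
    have h8 : 0 ≤ θ ^ 4 := by positivity
    rw [abs_le]
    constructor <;> linarith [h6.1, h6.2, h7.1, h7.2]
  · push Not at hθ
    have h1 : 1 ≤ θ ^ 4 := by
      have : (1 : ℝ) ≤ |θ| ^ 4 := one_le_pow₀ hθ.le
      rwa [pow_abs, abs_of_nonneg (by positivity)] at this
    have h2 := Real.cos_le_one θ
    have h3 := Real.neg_one_le_cos θ
    have h4 : Real.exp (-θ ^ 2 / 2) ≤ 1 := by
      rw [Real.exp_le_one_iff]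
      nlinarith [sq_nonneg θ]
    have h5 := Real.exp_pos (-θ ^ 2 / 2)
    rw [abs_le]
    constructor <;> linarith

private theorem PhiS_pow {a b : ℝ} (ha : |a| ≤ 1) (hb : |b| ≤ 1) (N : ℕ) :
    |a ^ N - b ^ N| ≤ N * |a - b| := by
  induction N with
  | zero => simp
  | succ N ih =>
    have e : a ^ (N + 1) - b ^ (N + 1) = a * (a ^ N - b ^ N) + b ^ N * (a - b) := by ring
    rw [e]
    refine (abs_add_le _ _).trans ?_
    rw [abs_mul, abs_mul, abs_pow]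
    have h1 : |a| * |a ^ N - b ^ N| ≤ 1 * |a ^ N - b ^ N| :=
      mul_le_mul_of_nonneg_right ha (abs_nonneg _)
    have h2 : |b| ^ N * |a - b| ≤ 1 * |a - b| :=
      mul_le_mul_of_nonneg_right (pow_le_one₀ (abs_nonneg _) hb) (abs_nonneg _)
    push_cast
    linarith

private theorem PhiS_exp {x y : ℝ} (hx : x ≤ 0) (hy : y ≤ 0) :
    |Real.exp x - Real.exp y| ≤ |x - y| := by
  have key : ∀ a b : ℝ, a ≤ b → b ≤ 0 → |Real.exp b - Real.exp a| ≤ |b - a| := by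
    intro a b hab hb
    rw [abs_of_nonneg (sub_nonneg.2 (Real.exp_le_exp.2 hab)), abs_of_nonneg (sub_nonneg.2 hab)]
    have h1 : Real.exp a = Real.exp b * Real.exp (a - b) := by rw [← Real.exp_add]; ring_nf
    have h2 := Real.add_one_le_exp (a - b)
    have h3 : Real.exp b ≤ 1 := Real.exp_le_one_iff.2 hb
    have h4 := Real.exp_pos b
    rw [h1]
    nlinarith
  rcases le_total x y with hxy | hxy
  · rw [abs_sub_comm (Real.exp x), abs_sub_comm x]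
    exact key x y hxy hy
  · exact key y x hxy hx

private theorem PhiS_pi : Real.pi ^ 2 / 6 ≤ 2 := by
  have h1 := Real.pi_lt_d2
  have h2 := Real.pi_pos
  nlinarith

private theorem PhiS_sg (t : ℝ) {h : ℕ} (h1 : 1 ≤ h) :
    (t / sg (2 * h)) ^ 2 = t ^ 2 * (Real.pi ^ 2 / 6) / (2 * h) := by
  have hh : (0 : ℝ) < h := by exact_mod_cast h1
  have hp := Real.pi_pos
  unfold sg
  rw [div_pow, Real.sq_sqrt (by positivity)]
  field_simp

private theorem PhiS_one (t : ℝ) {h : ℕ} (h1 : 1 ≤ h) {N : ℕ} (hN : N ≤ 2 * h) :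
    |Real.cos (t / sg (2 * h)) ^ N - Real.exp (-t ^ 2 / 2)| ≤
      4 * t ^ 4 / h + t ^ 2 / h * |(N : ℝ) - 6 / Real.pi ^ 2 * (2 * h)| := by
  have hh : (0 : ℝ) < h := by exact_mod_cast h1
  have hp := Real.pi_pos
  have hp2 := PhiS_pi
  have hN' : (N : ℝ) ≤ 2 * h := by exact_mod_cast hN
  have hs := PhiS_sg t h1
  set θ := t / sg (2 * h) with hθ
  have a1 := PhiS_pow (Real.abs_cos_le_one θ) (b := Real.exp (-θ ^ 2 / 2)) (by
    rw [abs_of_pos (Real.exp_pos _), Real.exp_le_one_iff]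
    nlinarith [sq_nonneg θ]) N
  have a2 := PhiS_cos θ
  have a3 : θ ^ 4 ≤ t ^ 4 / h ^ 2 := by
    have : θ ^ 4 = (θ ^ 2) ^ 2 := by ring
    rw [this, hs, div_pow, mul_pow, div_le_div_iff₀ (by positivity) (by positivity)]
    have b1 : (Real.pi ^ 2 / 6) ^ 2 ≤ 2 ^ 2 := pow_le_pow_left₀ (by positivity) hp2 2
    have b2 : 0 ≤ t ^ 4 * (h : ℝ) ^ 2 := by positivity
    have b3 := mul_le_mul_of_nonneg_left b1 b2
    calc (t ^ 2) ^ 2 * (Real.pi ^ 2 / 6) ^ 2 * (h : ℝ) ^ 2 =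
        t ^ 4 * (h : ℝ) ^ 2 * (Real.pi ^ 2 / 6) ^ 2 := by ring
      _ ≤ _ := b3
      _ = t ^ 4 * (2 * h) ^ 2 := by ring
  have a4 : (N : ℝ) * |Real.cos θ - Real.exp (-θ ^ 2 / 2)| ≤ 4 * t ^ 4 / h := by
    calc (N : ℝ) * |Real.cos θ - Real.exp (-θ ^ 2 / 2)| ≤ (2 * h) * (2 * (t ^ 4 / h ^ 2)) := by
          refine mul_le_mul hN' (a2.trans ?_) (abs_nonneg _) (by positivity)
          linarith
      _ = 4 * t ^ 4 / h := by field_simp; ring
  have a5 : Real.exp (-θ ^ 2 / 2) ^ N = Real.exp (N * (-θ ^ 2 / 2)) := by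
    rw [← Real.exp_nat_mul]
  have a6 : |Real.exp (N * (-θ ^ 2 / 2)) - Real.exp (-t ^ 2 / 2)| ≤
      |(N * (-θ ^ 2 / 2)) - (-t ^ 2 / 2)| := by
    refine PhiS_exp ?_ ?_
    · have : 0 ≤ (N : ℝ) * θ ^ 2 := by positivity
      linarith
    · have : 0 ≤ t ^ 2 := by positivity
      linarith
  have a7 : (N * (-θ ^ 2 / 2)) - (-t ^ 2 / 2) =
      -(θ ^ 2 / 2) * ((N : ℝ) - 6 / Real.pi ^ 2 * (2 * h)) := by
    rw [hs]
    field_simp
    ring
  have a8 : θ ^ 2 / 2 ≤ t ^ 2 / h := by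
    rw [hs, div_div, div_le_div_iff₀ (by positivity) hh]
    have := mul_le_mul_of_nonneg_left hp2 (show 0 ≤ t ^ 2 * h by positivity)
    nlinarith [show 0 ≤ t ^ 2 * (h : ℝ) by positivity]
  rw [a7, abs_mul, abs_neg, abs_of_nonneg (show 0 ≤ θ ^ 2 / 2 by positivity)] at a6
  have a9 := mul_le_mul_of_nonneg_right a8 (abs_nonneg ((N : ℝ) - 6 / Real.pi ^ 2 * (2 * h)))
  calc |Real.cos θ ^ N - Real.exp (-t ^ 2 / 2)| ≤
      |Real.cos θ ^ N - Real.exp (-θ ^ 2 / 2) ^ N| +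
        |Real.exp (-θ ^ 2 / 2) ^ N - Real.exp (-t ^ 2 / 2)| := abs_sub_le _ _ _
    _ ≤ 4 * t ^ 4 / h + t ^ 2 / h * |(N : ℝ) - 6 / Real.pi ^ 2 * (2 * h)| := by
      rw [a5] at a1 ⊢
      linarith

private theorem PhiS_AW {Ω : Type u} [MeasurableSpace Ω] (P : Measure Ω) [IsProbabilityMeasure P]
    (e : ℕ → Ω → ℝ) (W : Finset ℕ) (θ : ℝ) : ‖AW P e W θ‖ ≤ 1 := by
  unfold AW
  refine (norm_integral_le_of_norm_le_const (C := 1) (Eventually.of_forall fun ω => ?_)).trans ?_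
  · rw [mul_comm, Complex.norm_exp_ofReal_mul_I]
  · simp

private theorem PhiS_BW {Ω : Type u} [MeasurableSpace Ω] (P : Measure Ω) [IsProbabilityMeasure P]
    (e : ℕ → Ω → ℝ) (W W' : Finset ℕ) (θ : ℝ) : ‖BW P e W W' θ‖ ≤ 1 := by
  unfold BW
  refine (norm_integral_le_of_norm_le_const (C := 1) (Eventually.of_forall fun ω => ?_)).trans ?_
  · rw [mul_comm, Complex.norm_exp_ofReal_mul_I]
  · simp

theorem phiS (t : ℝ) : ∃ K : ℝ, 1 ≤ K ∧ ∀ᶠ X : ℕ in atTop, ∀ h : ℕ, 1 ≤ h →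
    (h : ℝ) ≤ Real.log X ^ 8 → ∃ c : ℝ, |c - Real.exp (-t ^ 2 / 2)| ≤ K / Real.sqrt h ∧
    ∀ (Ω : Type u) [MeasurableSpace Ω] (P : Measure Ω) [IsProbabilityMeasure P]
      (e : ℕ → Ω → ℝ), IsSigns P e →
    ∫ ω, ‖phiD (rmf e ω) X h (t / sg (2 * h)) - ((c : ℝ) : ℂ)‖ ^ 2 ∂P ≤
      K / Real.log X ^ 3 := by
  obtain ⟨C, hC1, hC⟩ := avgB
  obtain ⟨C₂, hC₂, hsq⟩ := sqf_win
  refine ⟨10 * C + 4 * t ^ 4 + t ^ 2 * C₂ + 1, by
    have : 0 ≤ 4 * t ^ 4 + t ^ 2 * C₂ := by positivity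
    linarith, ?_⟩
  have hcast : Tendsto (fun X : ℕ => (X : ℝ)) atTop atTop := tendsto_natCast_atTop_atTop
  have hlog : Tendsto (fun X : ℕ => Real.log (X : ℝ)) atTop atTop :=
    Real.tendsto_log_atTop.comp hcast
  have e1 : ∀ᶠ X : ℕ in atTop, Real.log (X : ℝ) ^ 18 ≤ X := by
    have h1 : (fun x : ℝ => Real.log x ^ 18) =o[atTop] fun x => x := by
      have := isLittleO_log_rpow_rpow_atTop (s := 1) 18 one_pos
      refine (this.congr' ?_ ?_)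
      · filter_upwards with x
        norm_cast
      · filter_upwards with x
        rw [Real.rpow_one]
    have h2 := h1.bound one_pos
    have h3 := hcast.eventually h2
    filter_upwards [h3] with X hX
    have h5 : |(X : ℝ)| = X := abs_of_nonneg (Nat.cast_nonneg X)
    rw [one_mul, Real.norm_eq_abs, Real.norm_eq_abs, h5] at hX
    exact (le_abs_self _).trans hX
  have e2 : ∀ᶠ X : ℕ in atTop, (2 : ℝ) ≤ Real.log (X : ℝ) := hlog.eventually_ge_atTop 2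
  filter_upwards [hC, e1, e2, eventually_ge_atTop 2] with X hX hX18 hL2 hX2 h h1 hh
  set L := Real.log (X : ℝ) with hL
  have hL0 : 0 < L := by linarith
  have hX0 : (0 : ℝ) < X := by
    have : (2 : ℝ) ≤ X := by exact_mod_cast hX2
    linarith
  have hh0 : (0 : ℝ) < h := by exact_mod_cast h1
  have hhX : (h : ℝ) ≤ X / L ^ 10 := by
    rw [le_div_iff₀ (by positivity)]
    calc (h : ℝ) * L ^ 10 ≤ L ^ 8 * L ^ 10 := mul_le_mul_of_nonneg_right hh (by positivity)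
      _ = L ^ 18 := by ring
      _ ≤ X := hX18
  have hhX' : h + 1 ≤ X := by
    have a1 : (h : ℝ) * 2 ≤ X := by
      have b1 : (2 : ℝ) ≤ L ^ 10 := by
        calc (2 : ℝ) ≤ 2 ^ 10 := by norm_num
          _ ≤ L ^ 10 := pow_le_pow_left₀ (by norm_num) hL2 10
      calc (h : ℝ) * 2 ≤ h * L ^ 10 := mul_le_mul_of_nonneg_left b1 hh0.le
        _ ≤ X := by rwa [le_div_iff₀ (by positivity)] at hhX
    have a2 : h * 2 ≤ X := by exact_mod_cast a1
    omega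
  obtain ⟨g1, -, g3, -⟩ := hX h h1 hhX
  have hW : ∀ k ∈ Ico X (2 * X), (∀ n ∈ Wk k h, Squarefree n ∧ 2 ≤ n) ∧
      (Wk k h).card ≤ 2 * h := fun k hk => Wk_facts (hhX'.trans (mem_Ico.1 hk).1)
  set θ := t / sg (2 * h) with hθ
  set Ck : ℕ → ℝ := fun k => Real.cos θ ^ (Wk k h).card with hCk
  have hCk1 : ∀ k, |Ck k| ≤ 1 := fun k => by
    simp only [hCk]
    rw [abs_pow]
    exact pow_le_one₀ (abs_nonneg _) (Real.abs_cos_le_one θ)
  have hcard : ((Ico X (2 * X)).card : ℝ) = X := by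
    rw [Nat.card_Ico]
    have : 2 * X - X = X := by omega
    rw [this]
  -- the numerical bounds
  have hL4 : (h : ℝ) ^ 2 / L ^ 20 ≤ 1 / L ^ 4 := by
    rw [div_le_div_iff₀ (by positivity) (by positivity)]
    have : (h : ℝ) ^ 2 ≤ (L ^ 8) ^ 2 := pow_le_pow_left₀ hh0.le hh 2
    calc (h : ℝ) ^ 2 * L ^ 4 ≤ (L ^ 8) ^ 2 * L ^ 4 :=
          mul_le_mul_of_nonneg_right this (by positivity)
      _ = 1 * L ^ 20 := by ring
  have g1' : ∑ k ∈ Ico X (2 * X), (D1 (Wk k h) : ℝ) ≤ C * X / L ^ 4 := by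
    refine g1.trans ?_
    calc C * X * (h : ℝ) ^ 2 / L ^ 20 = C * X * ((h : ℝ) ^ 2 / L ^ 20) := by ring
      _ ≤ C * X * (1 / L ^ 4) := mul_le_mul_of_nonneg_left hL4 (by positivity)
      _ = C * X / L ^ 4 := by ring
  have g3' : ∑ k ∈ Ico X (2 * X), ∑ l ∈ Ico X (2 * X), (T2 (Wk k h) (Wk l h) : ℝ) ≤
      C * X ^ 2 / L ^ 4 := by
    refine g3.trans ?_
    calc C * (X : ℝ) ^ 2 * (h : ℝ) ^ 2 / L ^ 20 = C * (X : ℝ) ^ 2 * ((h : ℝ) ^ 2 / L ^ 20) := by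
          ring
      _ ≤ C * (X : ℝ) ^ 2 * (1 / L ^ 4) := mul_le_mul_of_nonneg_left hL4 (by positivity)
      _ = C * (X : ℝ) ^ 2 / L ^ 4 := by ring
  refine ⟨(1 / (X : ℝ)) * ∑ k ∈ Ico X (2 * X), Ck k, ?_, ?_⟩
  · -- the constant
    have b1 : (1 / (X : ℝ)) * ∑ k ∈ Ico X (2 * X), Ck k - Real.exp (-t ^ 2 / 2) =
        (1 / (X : ℝ)) * ∑ k ∈ Ico X (2 * X), (Ck k - Real.exp (-t ^ 2 / 2)) := by
      rw [sum_sub_distrib, sum_const, nsmul_eq_mul, hcard]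
      field_simp
    rw [b1, abs_mul, abs_of_pos (by positivity : (0 : ℝ) < 1 / X)]
    have b2 : |∑ k ∈ Ico X (2 * X), (Ck k - Real.exp (-t ^ 2 / 2))| ≤
        X * (4 * t ^ 4 / h) + t ^ 2 / h * (C₂ * X * Real.sqrt h) := by
      refine (abs_sum_le_sum_abs _ _).trans ?_
      calc ∑ k ∈ Ico X (2 * X), |Ck k - Real.exp (-t ^ 2 / 2)| ≤
          ∑ k ∈ Ico X (2 * X), (4 * t ^ 4 / h + t ^ 2 / h *
            |((Wk k h).card : ℝ) - 6 / Real.pi ^ 2 * (2 * h)|) :=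
            sum_le_sum fun k hk => PhiS_one t h1 (hW k hk).2
        _ = X * (4 * t ^ 4 / h) + t ^ 2 / h *
            ∑ k ∈ Ico X (2 * X), |((Wk k h).card : ℝ) - 6 / Real.pi ^ 2 * (2 * h)| := by
            rw [sum_add_distrib, sum_const, nsmul_eq_mul, hcard, mul_sum]
        _ ≤ _ := by
            have := mul_le_mul_of_nonneg_left (hsq X h h1 (by omega))
              (show 0 ≤ t ^ 2 / (h : ℝ) by positivity)
            linarith
    have hs0 : 0 < Real.sqrt h := Real.sqrt_pos.2 hh0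
    have hs1 : Real.sqrt h * Real.sqrt h = h := Real.mul_self_sqrt hh0.le
    have hs2 : 1 ≤ Real.sqrt h := by
      rw [Real.one_le_sqrt]
      exact_mod_cast h1
    calc 1 / (X : ℝ) * |∑ k ∈ Ico X (2 * X), (Ck k - Real.exp (-t ^ 2 / 2))| ≤
        1 / (X : ℝ) * (X * (4 * t ^ 4 / h) + t ^ 2 / h * (C₂ * X * Real.sqrt h)) :=
          mul_le_mul_of_nonneg_left b2 (by positivity)
      _ = 4 * t ^ 4 / h + t ^ 2 * C₂ * (Real.sqrt h / h) := by field_simp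
      _ = 4 * t ^ 4 / h + t ^ 2 * C₂ / Real.sqrt h := by
          have : Real.sqrt h / h = 1 / Real.sqrt h := by
            rw [div_eq_div_iff hh0.ne' hs0.ne']
            linarith
          rw [this]; ring
      _ ≤ 4 * t ^ 4 / Real.sqrt h + t ^ 2 * C₂ / Real.sqrt h := by
          have : 4 * t ^ 4 / (h : ℝ) ≤ 4 * t ^ 4 / Real.sqrt h := by
            refine div_le_div_of_nonneg_left (by positivity) hs0 ?_
            nlinarith
          linarith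
      _ = (4 * t ^ 4 + t ^ 2 * C₂) / Real.sqrt h := by ring
      _ ≤ _ := by
          refine div_le_div_of_nonneg_right ?_ hs0.le
          linarith
  · -- the second moment
    intro Ω _ P _ e he
    refine (secmom he (by omega) h θ Ck hCk1).trans ?_
    have c1 : ∀ k ∈ Ico X (2 * X), ‖AW P e (Wk k h) θ - ((Ck k : ℝ) : ℂ)‖ ≤
        2 * (D1 (Wk k h) : ℝ) := by
      intro k hk
      by_cases hD : D1 (Wk k h) = 0
      · rw [charA0 he (hW k hk).1 hD θ, sub_self, norm_zero, hD]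
        simp
      · have d1 : (1 : ℝ) ≤ D1 (Wk k h) := by
          exact_mod_cast Nat.one_le_iff_ne_zero.2 hD
        have d2 := PhiS_AW P e (Wk k h) θ
        have d3 : ‖((Ck k : ℝ) : ℂ)‖ ≤ 1 := by
          rw [Complex.norm_real]
          exact hCk1 k
        have d4 := norm_sub_le (AW P e (Wk k h) θ) ((Ck k : ℝ) : ℂ)
        linarith
    have c2 : ∀ k ∈ Ico X (2 * X), ∀ l ∈ Ico X (2 * X),
        ‖BW P e (Wk k h) (Wk l h) θ - ((Ck k * Ck l : ℝ) : ℂ)‖ ≤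
        2 * (D1 (Wk k h) : ℝ) + 2 * (D1 (Wk l h) : ℝ) + 2 * (T2 (Wk k h) (Wk l h) : ℝ) := by
      intro k hk l hl
      by_cases hD : D1 (Wk k h) = 0 ∧ D1 (Wk l h) = 0 ∧ T2 (Wk k h) (Wk l h) = 0
      · obtain ⟨hD1, hD2, hT⟩ := hD
        rw [charB0 he (hW k hk).1 (hW l hl).1 hD1 hD2 hT θ, sub_self, norm_zero]
        positivity
      · have d1 : (1 : ℝ) ≤ (D1 (Wk k h) : ℝ) + (D1 (Wk l h) : ℝ) +
            (T2 (Wk k h) (Wk l h) : ℝ) := by
          have : 1 ≤ D1 (Wk k h) + D1 (Wk l h) + T2 (Wk k h) (Wk l h) := by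
            by_contra hcon
            exact hD (by omega)
          exact_mod_cast this
        have d2 := PhiS_BW P e (Wk k h) (Wk l h) θ
        have d3 : ‖((Ck k * Ck l : ℝ) : ℂ)‖ ≤ 1 := by
          rw [Complex.norm_real, norm_mul]
          exact mul_le_one₀ (hCk1 k) (norm_nonneg _) (hCk1 l)
        have d4 := norm_sub_le (BW P e (Wk k h) (Wk l h) θ) ((Ck k * Ck l : ℝ) : ℂ)
        linarith
    have c3 : ∑ k ∈ Ico X (2 * X), ‖AW P e (Wk k h) θ - ((Ck k : ℝ) : ℂ)‖ ≤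
        2 * (C * X / L ^ 4) := by
      refine (sum_le_sum c1).trans ?_
      rw [← mul_sum]
      linarith
    have c4 : ∑ k ∈ Ico X (2 * X), ∑ l ∈ Ico X (2 * X),
        ‖BW P e (Wk k h) (Wk l h) θ - ((Ck k * Ck l : ℝ) : ℂ)‖ ≤
        6 * (C * X ^ 2 / L ^ 4) := by
      refine (sum_le_sum fun k hk => sum_le_sum fun l hl => c2 k hk l hl).trans ?_
      have s1 : ∑ k ∈ Ico X (2 * X), ∑ l ∈ Ico X (2 * X), (2 * (D1 (Wk k h) : ℝ) +
          2 * (D1 (Wk l h) : ℝ) + 2 * (T2 (Wk k h) (Wk l h) : ℝ)) =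
          X * (2 * ∑ k ∈ Ico X (2 * X), (D1 (Wk k h) : ℝ)) +
          X * (2 * ∑ k ∈ Ico X (2 * X), (D1 (Wk k h) : ℝ)) +
          2 * ∑ k ∈ Ico X (2 * X), ∑ l ∈ Ico X (2 * X), (T2 (Wk k h) (Wk l h) : ℝ) := by
        simp only [sum_add_distrib, sum_const, nsmul_eq_mul, hcard, ← mul_sum]
      rw [s1]
      have s2 := mul_le_mul_of_nonneg_left g1' hX0.le
      have s3 : (X : ℝ) * (C * X / L ^ 4) = C * X ^ 2 / L ^ 4 := by ring
      rw [s3] at s2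
      linarith
    calc (1 / (X : ℝ) ^ 2) * ∑ k ∈ Ico X (2 * X), ∑ l ∈ Ico X (2 * X),
          ‖BW P e (Wk k h) (Wk l h) θ - ((Ck k * Ck l : ℝ) : ℂ)‖ +
        (2 / (X : ℝ)) * ∑ k ∈ Ico X (2 * X), ‖AW P e (Wk k h) θ - ((Ck k : ℝ) : ℂ)‖ ≤
        (1 / (X : ℝ) ^ 2) * (6 * (C * X ^ 2 / L ^ 4)) + (2 / (X : ℝ)) * (2 * (C * X / L ^ 4)) :=
          add_le_add (mul_le_mul_of_nonneg_left c4 (by positivity))
            (mul_le_mul_of_nonneg_left c3 (by positivity))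
      _ = 10 * C / L ^ 4 := by field_simp; ring
      _ ≤ 10 * C / L ^ 3 := by
          refine div_le_div_of_nonneg_left (by positivity) (by positivity) ?_
          exact pow_le_pow_right₀ (by linarith) (by norm_num)
      _ ≤ _ := by
          refine div_le_div_of_nonneg_right ?_ (by positivity)
          have : 0 ≤ 4 * t ^ 4 + t ^ 2 * C₂ := by positivity
          linarith

end Pool.Agent.H41.RG

end

section

/-!
# RG PhiL: long windows, `L^8 ≤ h ≤ X/L^10`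

`θ = t / sg (2h)`, so `θ² = t² (π²/6)/(2h)`; `L = log X`.  Use `secmom` with the constant
`C k = exp(-t²/2)`; `C k * C l = exp(-t²)`.
`charA` with `v = t²`, `δ = h/L³`, for every `k` (`Wk_facts`), averaged over `k` with `avgB`, `sqf_win`:
`avg |θ² N_k - t²| = θ² avg |N_k - (6/π²) 2h| ≤ C_t / √h ≤ C_t / L^4`; `θ² δ ≤ C_t / L³`;
`θ² avg(2 D1 + Q4)/δ ≤ C_t (L³/h²) (C h²/L^20 + C h³ L^4 / X) ≤ C_t / L³`;
`θ⁴ avg(2N + 6 D1 + 2 Q4) ≤ C_t/h² (4h + C h²/L^20 + C h³ L^4/X) ≤ C_t / L^3`.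
`charB` with `v = 2 t²` and the same `δ` for the pairs `(k,l)` with `|k - l| ≥ 2h` (`Wk_disjoint`); the
other pairs, at most `4 h X` of them, contribute at most `2` each: `8h/X ≤ 8/L^10`.
-/

set_option autoImplicit false

namespace Pool.Agent.H41.RG

open Finset MeasureTheory ProbabilityTheory Filter
open Pool.Agent.H18.RM (IsSigns rmf)

universe u

private theorem PhiL_sumA {S : Finset ℕ} {a N d q : ℕ → ℝ} {c x v δ : ℝ}
    (ha : ∀ k ∈ S, a k ≤ c * (|x * N k - v| + x * (δ + (2 * d k + q k) / δ) +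
      x ^ 2 * (2 * N k + 6 * d k + 2 * q k))) :
    ∑ k ∈ S, a k ≤ c * (∑ k ∈ S, |x * N k - v| +
      x * (S.card * δ + (2 * ∑ k ∈ S, d k + ∑ k ∈ S, q k) / δ) +
      x ^ 2 * (2 * ∑ k ∈ S, N k + 6 * ∑ k ∈ S, d k + 2 * ∑ k ∈ S, q k)) := by
  refine (sum_le_sum ha).trans (le_of_eq ?_)
  simp only [← mul_sum, sum_add_distrib, ← sum_div, sum_const, nsmul_eq_mul]

private theorem PhiL_sumB {S : Finset ℕ} {b T Q I : ℕ → ℕ → ℝ} {E g w : ℕ → ℝ} {c x δ : ℝ}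
    (hb : ∀ k ∈ S, ∀ l ∈ S, b k l ≤ 2 * I k l + c * ((E k + E l) +
      x * (3 * δ + ((g k + g l) + (T k l + Q k l)) / δ) + 8 * x ^ 2 * (w k + w l))) :
    ∑ k ∈ S, ∑ l ∈ S, b k l ≤ 2 * ∑ k ∈ S, ∑ l ∈ S, I k l +
      c * (2 * S.card * ∑ k ∈ S, E k + x * (3 * δ * (S.card : ℝ) ^ 2 +
        (2 * S.card * ∑ k ∈ S, g k + (∑ k ∈ S, ∑ l ∈ S, T k l + ∑ k ∈ S, ∑ l ∈ S, Q k l)) / δ) +
        8 * x ^ 2 * (2 * S.card * ∑ k ∈ S, w k)) := by
  refine (sum_le_sum fun k hk => sum_le_sum fun l hl => hb k hk l hl).trans (le_of_eq ?_)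
  simp only [sum_add_distrib, ← mul_sum, ← sum_div, sum_const, nsmul_eq_mul]
  ring

private theorem PhiL_g1 {D c X L H : ℝ} (hc : 0 ≤ c) (hX : 0 ≤ X) (hL : 1 ≤ L) (hH : 0 < H)
    (h : D ≤ c * X * H ^ 2 / L ^ 20) :
    D / H ^ 2 * L ^ 3 ≤ c * (X / L ^ 3) ∧ D / H ^ 2 ≤ c * (X / L ^ 3) := by
  have h0 : 0 < L := by linarith
  have h1 : D / H ^ 2 ≤ c * X / L ^ 20 := by
    rw [div_le_iff₀ (by positivity)]
    calc D ≤ _ := h
      _ = c * X / L ^ 20 * H ^ 2 := by ring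
  have h2 : 0 ≤ c * X := mul_nonneg hc hX
  constructor
  · calc D / H ^ 2 * L ^ 3 ≤ c * X / L ^ 20 * L ^ 3 :=
        mul_le_mul_of_nonneg_right h1 (by positivity)
      _ ≤ c * (X / L ^ 3) := by
        rw [div_mul_eq_mul_div, ← mul_div_assoc, div_le_div_iff₀ (by positivity) (by positivity)]
        have h3 : L ^ 6 ≤ L ^ 20 := pow_le_pow_right₀ hL (by norm_num)
        have h4 := mul_le_mul_of_nonneg_left h3 h2
        calc c * X * L ^ 3 * L ^ 3 = c * X * L ^ 6 := by ring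
          _ ≤ _ := h4
  · refine h1.trans ?_
    rw [← mul_div_assoc, div_le_div_iff₀ (by positivity) (by positivity)]
    exact mul_le_mul_of_nonneg_left (pow_le_pow_right₀ hL (by norm_num)) h2

private theorem PhiL_g2 {Q c X L H : ℝ} (hc : 0 ≤ c) (hL : 1 ≤ L) (hH : 0 < H)
    (hHX : H ≤ X / L ^ 10) (h : Q ≤ c * H ^ 3 * L ^ 4) :
    Q / H ^ 2 * L ^ 3 ≤ c * (X / L ^ 3) ∧ Q / H ^ 2 ≤ c * (X / L ^ 3) := by
  have h0 : 0 < L := by linarith
  have h1 : Q / H ^ 2 ≤ c * H * L ^ 4 := by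
    rw [div_le_iff₀ (by positivity)]
    calc Q ≤ _ := h
      _ = c * H * L ^ 4 * H ^ 2 := by ring
  have h2 : H * L ^ 7 ≤ X / L ^ 3 := by
    rw [le_div_iff₀ (by positivity)] at hHX ⊢
    calc H * L ^ 7 * L ^ 3 = H * L ^ 10 := by ring
      _ ≤ X := hHX
  constructor
  · calc Q / H ^ 2 * L ^ 3 ≤ c * H * L ^ 4 * L ^ 3 :=
        mul_le_mul_of_nonneg_right h1 (by positivity)
      _ = c * (H * L ^ 7) := by ring
      _ ≤ _ := mul_le_mul_of_nonneg_left h2 hc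
  · refine h1.trans ?_
    have h3 : H * L ^ 4 ≤ H * L ^ 7 :=
      mul_le_mul_of_nonneg_left (pow_le_pow_right₀ hL (by norm_num)) hH.le
    calc c * H * L ^ 4 = c * (H * L ^ 4) := by ring
      _ ≤ _ := mul_le_mul_of_nonneg_left (h3.trans h2) hc

private theorem PhiL_close (X h : ℕ) :
    ∑ k ∈ Ico X (2 * X), ∑ l ∈ Ico X (2 * X),
      (if (k + 2 * h ≤ l ∨ l + 2 * h ≤ k) then (0 : ℝ) else 1) ≤ (X : ℝ) * (4 * h) := by
  have h1 : ∀ k ∈ Ico X (2 * X), ∑ l ∈ Ico X (2 * X),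
      (if (k + 2 * h ≤ l ∨ l + 2 * h ≤ k) then (0 : ℝ) else 1) ≤ 4 * h := by
    intro k _
    have e : ∑ l ∈ Ico X (2 * X), (if (k + 2 * h ≤ l ∨ l + 2 * h ≤ k) then (0 : ℝ) else 1) =
        (((Ico X (2 * X)).filter (fun l => ¬ (k + 2 * h ≤ l ∨ l + 2 * h ≤ k))).card : ℝ) := by
      rw [← Finset.sum_boole]
      refine sum_congr rfl fun l _ => ?_
      by_cases hc : k + 2 * h ≤ l ∨ l + 2 * h ≤ k
      · rw [if_pos hc, if_neg (not_not.2 hc)]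
      · rw [if_neg hc, if_pos hc]
    rw [e]
    have h2 : ((Ico X (2 * X)).filter (fun l => ¬ (k + 2 * h ≤ l ∨ l + 2 * h ≤ k))).card ≤
        (Ico (k + 1 - 2 * h) (k + 2 * h)).card := by
      refine card_le_card fun l hl => ?_
      rw [mem_filter] at hl
      rw [mem_Ico]
      omega
    rw [Nat.card_Ico] at h2
    have h3 : ((Ico X (2 * X)).filter (fun l => ¬ (k + 2 * h ≤ l ∨ l + 2 * h ≤ k))).card ≤
        4 * h := by omega
    exact_mod_cast h3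
  refine (sum_le_sum h1).trans (le_of_eq ?_)
  rw [sum_const, Nat.card_Ico, nsmul_eq_mul]
  have : 2 * X - X = X := by omega
  rw [this]

private theorem PhiL_BW {Ω : Type*} [MeasurableSpace Ω] (P : Measure Ω) [IsProbabilityMeasure P]
    (e : ℕ → Ω → ℝ) (W W' : Finset ℕ) (θ : ℝ) {c : ℝ} (h0 : 0 ≤ c) (h1 : c ≤ 1) :
    ‖BW P e W W' θ - ((c : ℝ) : ℂ)‖ ≤ 2 := by
  have h2 : ‖BW P e W W' θ‖ ≤ 1 := by
    unfold BW
    have := norm_integral_le_of_norm_le_const (μ := P) (C := 1)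
      (f := fun ω => Complex.exp (Complex.I * ((θ * (∑ n ∈ W, rmf e ω n -
        ∑ n ∈ W', rmf e ω n) : ℝ) : ℂ))) (Eventually.of_forall fun ω => by
          rw [mul_comm, Complex.norm_exp_ofReal_mul_I])
    simpa using this
  have h3 : ‖((c : ℝ) : ℂ)‖ ≤ 1 := by
    rw [Complex.norm_real, Real.norm_eq_abs, abs_of_nonneg h0]
    exact h1
  calc _ ≤ ‖BW P e W W' θ‖ + ‖((c : ℝ) : ℂ)‖ := norm_sub_le _ _
    _ ≤ 2 := by linarith

private theorem PhiL_theta (t : ℝ) {h : ℕ} (hh : 1 ≤ h) :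
    (t / sg (2 * h)) ^ 2 = t ^ 2 * Real.pi ^ 2 / 12 / h := by
  have hpi := Real.pi_pos
  have h1 : (0 : ℝ) < h := by exact_mod_cast hh
  unfold sg
  rw [div_pow, Real.sq_sqrt (by positivity)]
  field_simp
  ring

theorem phiL (t : ℝ) : ∃ K : ℝ, 1 ≤ K ∧ ∀ᶠ X : ℕ in atTop, ∀ h : ℕ, Real.log X ^ 8 ≤ h →
    (h : ℝ) ≤ X / Real.log X ^ 10 →
    ∀ (Ω : Type u) [MeasurableSpace Ω] (P : Measure Ω) [IsProbabilityMeasure P]
      (e : ℕ → Ω → ℝ), IsSigns P e →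
    ∫ ω, ‖phiD (rmf e ω) X h (t / sg (2 * h)) - ((Real.exp (-t ^ 2 / 2) : ℝ) : ℂ)‖ ^ 2 ∂P ≤
      K / Real.log X ^ 3 := by
  obtain ⟨C2, hC2, hav⟩ := avgB
  obtain ⟨C1, hC1, hsq⟩ := sqf_win
  obtain ⟨τ, hτ⟩ : ∃ τ : ℝ, τ = t ^ 2 * Real.pi ^ 2 / 12 := ⟨_, rfl⟩
  have hτ0 : 0 ≤ τ := by
    rw [hτ]
    positivity
  obtain ⟨cA, hcA⟩ : ∃ c : ℝ, c = 4 * (1 + t ^ 2) * Real.exp (t ^ 2 + 1) := ⟨_, rfl⟩
  obtain ⟨cB, hcB⟩ : ∃ c : ℝ, c = 4 * (1 + 2 * t ^ 2) * Real.exp (2 * t ^ 2 + 1) := ⟨_, rfl⟩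
  have hcA0 : 0 ≤ cA := by
    rw [hcA]
    positivity
  have hcB0 : 0 ≤ cB := by
    rw [hcB]
    positivity
  have hC20 : 0 ≤ C2 := by linarith
  obtain ⟨K1, hK1⟩ : ∃ K : ℝ, K = cA * (τ * C1 + τ * (1 + 3 * C2) + τ ^ 2 * (4 + 8 * C2)) :=
    ⟨_, rfl⟩
  obtain ⟨K2, hK2⟩ : ∃ K : ℝ, K = 8 + cB * (2 * (τ * C1) + τ * (3 + 8 * C2) +
    16 * τ ^ 2 * (4 + 8 * C2)) := ⟨_, rfl⟩
  have hK10 : 0 ≤ K1 := by
    rw [hK1]
    positivity
  have hK20 : 1 ≤ K2 := by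
    rw [hK2]
    have : 0 ≤ cB * (2 * (τ * C1) + τ * (3 + 8 * C2) + 16 * τ ^ 2 * (4 + 8 * C2)) := by
      positivity
    linarith
  refine ⟨K2 + 2 * K1, by linarith, ?_⟩
  have hlog : ∀ᶠ X : ℕ in atTop, 2 ≤ Real.log X :=
    (Real.tendsto_log_atTop.comp tendsto_natCast_atTop_atTop).eventually_ge_atTop 2
  filter_upwards [hav, hlog, eventually_ge_atTop 2] with X hav hL2 hX2 h hh hh' Ω _ P _ e he
  obtain ⟨L, hL⟩ : ∃ L : ℝ, L = Real.log X := ⟨_, rfl⟩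
  rw [← hL] at hh hh' hL2 hav ⊢
  have hL1 : 1 ≤ L := by linarith
  have hL0 : 0 < L := by linarith
  have hX0 : (2 : ℝ) ≤ X := by exact_mod_cast hX2
  have hH1 : (1 : ℝ) ≤ h := by
    refine le_trans ?_ hh
    exact one_le_pow₀ hL1
  have hH0 : (0 : ℝ) < h := by linarith
  have h1 : 1 ≤ h := by exact_mod_cast hH1
  have hhX : (h : ℝ) ≤ X / 2 := by
    refine hh'.trans ?_
    refine div_le_div_of_nonneg_left (by linarith only [hX0]) (by norm_num) ?_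
    calc (2 : ℝ) ≤ L := hL2
      _ = L ^ 1 := (pow_one L).symm
      _ ≤ L ^ 10 := pow_le_pow_right₀ hL1 (by norm_num)
  have hhX1 : h + 1 ≤ X := by
    have : (h : ℝ) + 1 ≤ X := by linarith
    exact_mod_cast this
  obtain ⟨a1, a2, a3, a4⟩ := hav h h1 (by rw [hL]; rw [← hL]; exact hh')
  have a5 := hsq X h h1 (by omega)
  -- the parameters
  obtain ⟨θ, hθ⟩ : ∃ θ : ℝ, θ = t / sg (2 * h) := ⟨_, rfl⟩
  have hx : θ ^ 2 = τ / h := by
    rw [hθ, PhiL_theta t h1, hτ]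
  have hx4 : θ ^ 4 = (τ / h) ^ 2 := by
    rw [← hx]
    ring
  obtain ⟨δ, hδ⟩ : ∃ δ : ℝ, δ = h / L ^ 3 := ⟨_, rfl⟩
  have hδ0 : 0 < δ := by
    rw [hδ]
    positivity
  obtain ⟨κ, hκ⟩ : ∃ κ : ℝ, κ = Real.exp (-t ^ 2 / 2) := ⟨_, rfl⟩
  have hκ0 : 0 < κ := by
    rw [hκ]
    exact Real.exp_pos _
  have hκ1 : κ ≤ 1 := by
    rw [hκ, Real.exp_le_one_iff]
    have := sq_nonneg t
    linarith only [this]
  have hκ2 : κ * κ = Real.exp (-(2 * t ^ 2) / 2) := by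
    rw [hκ, ← Real.exp_add]
    congr 1
    ring
  have hcard : (((Ico X (2 * X)).card : ℕ) : ℝ) = X := by
    rw [Nat.card_Ico]
    have : 2 * X - X = X := by omega
    rw [this]
  obtain ⟨U, hU⟩ : ∃ U : ℝ, U = X / L ^ 3 := ⟨_, rfl⟩
  have hU0 : 0 ≤ U := by
    rw [hU]
    positivity
  have hW : ∀ k ∈ Ico X (2 * X), (∀ n ∈ Wk k h, Squarefree n ∧ 2 ≤ n) ∧ (Wk k h).card ≤ 2 * h := by
    intro k hk
    rw [mem_Ico] at hk
    exact Wk_facts (by omega)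
  -- the sums
  have sE : ∑ k ∈ Ico X (2 * X), |τ / h * ((Wk k h).card : ℝ) - t ^ 2| ≤ τ * C1 * U := by
    have e1 : ∀ k ∈ Ico X (2 * X), |τ / h * ((Wk k h).card : ℝ) - t ^ 2| =
        τ / h * |((Wk k h).card : ℝ) - 6 / Real.pi ^ 2 * (2 * h)| := by
      intro k _
      have hpi := Real.pi_pos
      rw [← abs_of_nonneg (div_nonneg hτ0 hH0.le), ← abs_mul, abs_of_nonneg (div_nonneg hτ0 hH0.le)]
      congr 1
      rw [mul_sub]
      congr 1
      rw [hτ]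
      field_simp
      ring
    rw [sum_congr rfl e1, ← mul_sum]
    refine (mul_le_mul_of_nonneg_left a5 (div_nonneg hτ0 hH0.le)).trans ?_
    have hr : L ^ 3 ≤ Real.sqrt h := by
      refine Real.le_sqrt_of_sq_le ?_
      refine le_trans ?_ hh
      rw [← pow_mul]
      exact pow_le_pow_right₀ hL1 (by norm_num)
    have hr0 : 0 < Real.sqrt h := Real.sqrt_pos.2 hH0
    have e2 : τ / h * (C1 * X * Real.sqrt h) = τ * C1 * (X / Real.sqrt h) := by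
      have : (h : ℝ) = Real.sqrt h * Real.sqrt h := (Real.mul_self_sqrt hH0.le).symm
      rw [div_mul_eq_mul_div, mul_div_assoc', div_eq_div_iff hH0.ne' hr0.ne']
      calc τ * (C1 * X * Real.sqrt h) * Real.sqrt h = τ * C1 * X * (Real.sqrt h * Real.sqrt h) := by
            ring
        _ = τ * C1 * X * h := by rw [← this]
    rw [e2, hU]
    refine mul_le_mul_of_nonneg_left ?_ (by positivity)
    exact div_le_div_of_nonneg_left (by linarith only [hX0]) (by positivity) hr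
  have sN : (∑ k ∈ Ico X (2 * X), ((Wk k h).card : ℝ)) / (h : ℝ) ^ 2 ≤ 2 * U := by
    have e1 : ∑ k ∈ Ico X (2 * X), ((Wk k h).card : ℝ) ≤ X * (2 * h) := by
      calc ∑ k ∈ Ico X (2 * X), ((Wk k h).card : ℝ) ≤ ∑ k ∈ Ico X (2 * X), (2 * h : ℝ) := by
            refine sum_le_sum fun k hk => ?_
            exact_mod_cast (hW k hk).2
        _ = X * (2 * h) := by rw [sum_const, nsmul_eq_mul, hcard]
    rw [div_le_iff₀ (by positivity)]
    refine e1.trans ?_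
    have e2 : L ^ 3 ≤ h := (pow_le_pow_right₀ hL1 (by norm_num)).trans hh
    have e3 : 1 ≤ (h : ℝ) / L ^ 3 := by
      rw [le_div_iff₀ (by positivity), one_mul]
      exact e2
    have e4 : 2 * U * (h : ℝ) ^ 2 = X * (2 * h) * (h / L ^ 3) := by
      rw [hU]
      ring
    rw [e4]
    exact le_mul_of_one_le_right (by positivity) e3
  obtain ⟨D, hD⟩ : ∃ D : ℝ, D = ∑ k ∈ Ico X (2 * X), (D1 (Wk k h) : ℝ) := ⟨_, rfl⟩
  obtain ⟨Q, hQ⟩ : ∃ Q : ℝ, Q = ∑ k ∈ Ico X (2 * X), (Q4 (Wk k h) : ℝ) := ⟨_, rfl⟩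
  obtain ⟨N, hN⟩ : ∃ N : ℝ, N = ∑ k ∈ Ico X (2 * X), ((Wk k h).card : ℝ) := ⟨_, rfl⟩
  obtain ⟨T, hT⟩ : ∃ T : ℝ, T = ∑ k ∈ Ico X (2 * X), ∑ l ∈ Ico X (2 * X),
    (T2 (Wk k h) (Wk l h) : ℝ) := ⟨_, rfl⟩
  obtain ⟨R, hR⟩ : ∃ R : ℝ, R = ∑ k ∈ Ico X (2 * X), ∑ l ∈ Ico X (2 * X),
    (Q22 (Wk k h) (Wk l h) : ℝ) := ⟨_, rfl⟩
  rw [← hD] at a1
  rw [← hQ] at a2
  rw [← hT] at a3
  rw [← hR] at a4
  rw [← hN] at sN
  have hXn : (0 : ℝ) ≤ X := by linarith only [hX0]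
  have bD := PhiL_g1 hC20 hXn hL1 hH0 a1
  have bQ := PhiL_g2 hC20 hL1 hH0 hh' a2
  have bT := PhiL_g1 (c := C2 * X) (mul_nonneg hC20 hXn) hXn hL1 hH0
    (le_of_le_of_eq a3 (by ring))
  have bR := PhiL_g2 (c := C2 * X) (mul_nonneg hC20 hXn) hL1 hH0 hh' a4
  rw [← hU] at bD bQ bT bR
  -- first sum
  have S1 : ∑ k ∈ Ico X (2 * X), ‖AW P e (Wk k h) θ - ((κ : ℝ) : ℂ)‖ ≤ K1 * U := by
    have e1 : ∀ k ∈ Ico X (2 * X), ‖AW P e (Wk k h) θ - ((κ : ℝ) : ℂ)‖ ≤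
        cA * (|τ / h * ((Wk k h).card : ℝ) - t ^ 2| + τ / h * (δ + (2 * (D1 (Wk k h) : ℝ) +
          (Q4 (Wk k h) : ℝ)) / δ) + (τ / h) ^ 2 * (2 * ((Wk k h).card : ℝ) +
          6 * (D1 (Wk k h) : ℝ) + 2 * (Q4 (Wk k h) : ℝ))) := by
      intro k hk
      have := charA (P := P) he (hW k hk).1 θ (v := t ^ 2) (sq_nonneg t) hδ0
      rw [hx4, hx, ← hcA, ← hκ] at this
      exact this
    refine (PhiL_sumA e1).trans ?_
    rw [hcard, ← hD, ← hQ, ← hN, hK1, mul_assoc]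
    refine mul_le_mul_of_nonneg_left ?_ hcA0
    have e2 : τ / h * (X * δ + (2 * D + Q) / δ) =
        τ * (U + (2 * (D / (h : ℝ) ^ 2 * L ^ 3) + Q / (h : ℝ) ^ 2 * L ^ 3)) := by
      rw [hδ, hU]
      field_simp
    have e3 : (τ / h) ^ 2 * (2 * N + 6 * D + 2 * Q) =
        τ ^ 2 * (2 * (N / (h : ℝ) ^ 2) + 6 * (D / (h : ℝ) ^ 2) + 2 * (Q / (h : ℝ) ^ 2)) := by
      field_simp
    rw [e2, e3]
    have e4 : τ * (U + (2 * (D / (h : ℝ) ^ 2 * L ^ 3) + Q / (h : ℝ) ^ 2 * L ^ 3)) ≤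
        τ * (U + (2 * (C2 * U) + C2 * U)) := by
      refine mul_le_mul_of_nonneg_left ?_ hτ0
      linarith only [bD, bQ, bD.1, bQ.1]
    have e5 : τ ^ 2 * (2 * (N / (h : ℝ) ^ 2) + 6 * (D / (h : ℝ) ^ 2) + 2 * (Q / (h : ℝ) ^ 2)) ≤
        τ ^ 2 * (2 * (2 * U) + 6 * (C2 * U) + 2 * (C2 * U)) := by
      refine mul_le_mul_of_nonneg_left ?_ (sq_nonneg τ)
      linarith only [sN, bD, bQ, bD.2, bQ.2]
    calc _ ≤ τ * C1 * U + τ * (U + (2 * (C2 * U) + C2 * U)) +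
          τ ^ 2 * (2 * (2 * U) + 6 * (C2 * U) + 2 * (C2 * U)) := add_le_add (add_le_add sE e4) e5
      _ = (τ * C1 + τ * (1 + 3 * C2) + τ ^ 2 * (4 + 8 * C2)) * U := by ring
  -- second sum
  have S2 : ∑ k ∈ Ico X (2 * X), ∑ l ∈ Ico X (2 * X),
      ‖BW P e (Wk k h) (Wk l h) θ - ((κ * κ : ℝ) : ℂ)‖ ≤ K2 * (X * U) := by
    have e1 : ∀ k ∈ Ico X (2 * X), ∀ l ∈ Ico X (2 * X),
        ‖BW P e (Wk k h) (Wk l h) θ - ((κ * κ : ℝ) : ℂ)‖ ≤
        2 * (if (k + 2 * h ≤ l ∨ l + 2 * h ≤ k) then (0 : ℝ) else 1) +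
        cB * ((|τ / h * ((Wk k h).card : ℝ) - t ^ 2| + |τ / h * ((Wk l h).card : ℝ) - t ^ 2|) +
          τ / h * (3 * δ + (((2 * (D1 (Wk k h) : ℝ) + (Q4 (Wk k h) : ℝ)) +
            (2 * (D1 (Wk l h) : ℝ) + (Q4 (Wk l h) : ℝ))) +
            ((T2 (Wk k h) (Wk l h) : ℝ) + (Q22 (Wk k h) (Wk l h) : ℝ))) / δ) +
          8 * (τ / h) ^ 2 * ((2 * ((Wk k h).card : ℝ) + 6 * (D1 (Wk k h) : ℝ) +
            2 * (Q4 (Wk k h) : ℝ)) + (2 * ((Wk l h).card : ℝ) + 6 * (D1 (Wk l h) : ℝ) +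
            2 * (Q4 (Wk l h) : ℝ)))) := by
      intro k hk l hl
      have hτh : 0 ≤ τ / h := div_nonneg hτ0 hH0.le
      by_cases hc : k + 2 * h ≤ l ∨ l + 2 * h ≤ k
      · rw [if_pos hc, mul_zero, zero_add]
        have hk' := mem_Ico.1 hk
        have hl' := mem_Ico.1 hl
        have hdis : Disjoint (Wk k h) (Wk l h) := Wk_disjoint (by omega) (by omega) hc
        have := charB (P := P) he (hW k hk).1 (hW l hl).1 hdis θ (v := 2 * t ^ 2)
          (by positivity) hδ0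
        rw [hx4, hx, ← hcB, ← hκ2] at this
        refine this.trans (mul_le_mul_of_nonneg_left ?_ hcB0)
        have e2 : |τ / h * (((Wk k h).card : ℝ) + ((Wk l h).card : ℝ)) - 2 * t ^ 2| ≤
            |τ / h * ((Wk k h).card : ℝ) - t ^ 2| + |τ / h * ((Wk l h).card : ℝ) - t ^ 2| := by
          have : τ / h * (((Wk k h).card : ℝ) + ((Wk l h).card : ℝ)) - 2 * t ^ 2 =
            (τ / h * ((Wk k h).card : ℝ) - t ^ 2) + (τ / h * ((Wk l h).card : ℝ) - t ^ 2) := by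
            ring
          rw [this]
          exact abs_add_le _ _
        exact add_le_add (add_le_add e2 le_rfl) le_rfl
      · rw [if_neg hc, mul_one]
        have h2 := PhiL_BW P e (Wk k h) (Wk l h) θ (c := κ * κ) (by positivity)
          (mul_le_one₀ hκ1 hκ0.le hκ1)
        refine h2.trans ?_
        have : 0 ≤ cB * ((|τ / h * ((Wk k h).card : ℝ) - t ^ 2| +
          |τ / h * ((Wk l h).card : ℝ) - t ^ 2|) +
          τ / h * (3 * δ + (((2 * (D1 (Wk k h) : ℝ) + (Q4 (Wk k h) : ℝ)) +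
            (2 * (D1 (Wk l h) : ℝ) + (Q4 (Wk l h) : ℝ))) +
            ((T2 (Wk k h) (Wk l h) : ℝ) + (Q22 (Wk k h) (Wk l h) : ℝ))) / δ) +
          8 * (τ / h) ^ 2 * ((2 * ((Wk k h).card : ℝ) + 6 * (D1 (Wk k h) : ℝ) +
            2 * (Q4 (Wk k h) : ℝ)) + (2 * ((Wk l h).card : ℝ) + 6 * (D1 (Wk l h) : ℝ) +
            2 * (Q4 (Wk l h) : ℝ)))) := by
          positivity
        linarith only [this]
    refine (PhiL_sumB e1).trans ?_
    have e2 := PhiL_close X h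
    rw [hcard, ← hT, ← hR]
    have e3 : ∑ k ∈ Ico X (2 * X), (2 * (D1 (Wk k h) : ℝ) + (Q4 (Wk k h) : ℝ)) = 2 * D + Q := by
      rw [sum_add_distrib, ← mul_sum, ← hD, ← hQ]
    have e4 : ∑ k ∈ Ico X (2 * X), (2 * ((Wk k h).card : ℝ) + 6 * (D1 (Wk k h) : ℝ) +
        2 * (Q4 (Wk k h) : ℝ)) = 2 * N + 6 * D + 2 * Q := by
      rw [sum_add_distrib, sum_add_distrib, ← mul_sum, ← mul_sum, ← mul_sum, ← hD, ← hQ, ← hN]
    rw [e3, e4]
    have e5 : τ / h * (3 * δ * (X : ℝ) ^ 2 + (2 * X * (2 * D + Q) + (T + R)) / δ) =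
        τ * (3 * (X * U) + (2 * X * (2 * (D / (h : ℝ) ^ 2 * L ^ 3) + Q / (h : ℝ) ^ 2 * L ^ 3) +
          (T / (h : ℝ) ^ 2 * L ^ 3 + R / (h : ℝ) ^ 2 * L ^ 3))) := by
      rw [hδ, hU]
      field_simp
    have e6 : 8 * (τ / h) ^ 2 * (2 * X * (2 * N + 6 * D + 2 * Q)) =
        16 * τ ^ 2 * (X * (2 * (N / (h : ℝ) ^ 2) + 6 * (D / (h : ℝ) ^ 2) +
          2 * (Q / (h : ℝ) ^ 2))) := by
      field_simp
      ring
    rw [e5, e6]
    have e7 : 2 * X * (2 * (D / (h : ℝ) ^ 2 * L ^ 3) + Q / (h : ℝ) ^ 2 * L ^ 3) ≤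
        2 * X * (2 * (C2 * U) + C2 * U) := by
      refine mul_le_mul_of_nonneg_left ?_ (by positivity)
      linarith only [bD, bQ, bD.1, bQ.1]
    have e8 : τ * (3 * (X * U) + (2 * X * (2 * (D / (h : ℝ) ^ 2 * L ^ 3) +
          Q / (h : ℝ) ^ 2 * L ^ 3) + (T / (h : ℝ) ^ 2 * L ^ 3 + R / (h : ℝ) ^ 2 * L ^ 3))) ≤
        τ * (3 * (X * U) + (2 * X * (2 * (C2 * U) + C2 * U) + (C2 * X * U + C2 * X * U))) := by
      refine mul_le_mul_of_nonneg_left ?_ hτ0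
      linarith only [bT, bR, e7, bT.1, bR.1]
    have e9 : 16 * τ ^ 2 * (X * (2 * (N / (h : ℝ) ^ 2) + 6 * (D / (h : ℝ) ^ 2) +
          2 * (Q / (h : ℝ) ^ 2))) ≤
        16 * τ ^ 2 * (X * (2 * (2 * U) + 6 * (C2 * U) + 2 * (C2 * U))) := by
      refine mul_le_mul_of_nonneg_left (mul_le_mul_of_nonneg_left ?_ hXn) (by positivity)
      linarith only [sN, bD, bQ, bD.2, bQ.2]
    have e10 : 2 * X * ∑ k ∈ Ico X (2 * X), |τ / h * ((Wk k h).card : ℝ) - t ^ 2| ≤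
        2 * X * (τ * C1 * U) := mul_le_mul_of_nonneg_left sE (by positivity)
    have e11 : (X : ℝ) * (4 * h) ≤ 4 * (X * U) := by
      have : (h : ℝ) ≤ U := by
        rw [hU]
        refine hh'.trans ?_
        exact div_le_div_of_nonneg_left hXn (by positivity) (pow_le_pow_right₀ hL1 (by norm_num))
      nlinarith only [this]
    have e12 := mul_le_mul_of_nonneg_left (add_le_add (add_le_add e10 e8) e9) hcB0
    calc _ ≤ 2 * (4 * (X * U)) + cB * (2 * X * (τ * C1 * U) +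
          τ * (3 * (X * U) + (2 * X * (2 * (C2 * U) + C2 * U) + (C2 * X * U + C2 * X * U))) +
          16 * τ ^ 2 * (X * (2 * (2 * U) + 6 * (C2 * U) + 2 * (C2 * U)))) := by
          refine add_le_add ?_ e12
          linarith only [e2, e11]
      _ = K2 * (X * U) := by
        rw [hK2]
        ring
  -- end
  have hfin := secmom (P := P) he (X := X) (by omega) h θ (fun _ => κ) (fun _ => by
    rw [abs_of_pos hκ0]
    exact hκ1)
  have e1 : (1 / (X : ℝ)) * ∑ k ∈ Ico X (2 * X), κ = κ := by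
    rw [sum_const, nsmul_eq_mul, hcard]
    field_simp
  rw [e1] at hfin
  rw [← hκ, ← hθ]
  refine hfin.trans ?_
  have hX0' : (0 : ℝ) < X := by linarith only [hX0]
  have f1 := mul_le_mul_of_nonneg_left S2 (by positivity : (0 : ℝ) ≤ 1 / (X : ℝ) ^ 2)
  have f2 := mul_le_mul_of_nonneg_left S1 (by positivity : (0 : ℝ) ≤ 2 / (X : ℝ))
  refine (add_le_add f1 f2).trans (le_of_eq ?_)
  rw [hU]
  field_simp

end Pool.Agent.H41.RG

end

section

/-!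
# RG Unif: uniform statement for fixed `t`

`MS_ae`: from `Pool.Agent.H18.RM.law_ae` with `B = 0` (`|V/(H/ζ(2)) - 1| ≤ 1`, so
`∫_Y^{2Y} M² ≤ 2 (6/π²) Y H ≤ 2 Y H`; `MR` against `MC`: see `M_sq` in
`Pool/Agent/Results/MP_0575cc_nt/RandomModel.lean`).

`unif`: fix `t`, `δ > 0`; take `η` small, `ρ = 1 + η`, `ε = δ/4`; `phiS`, `phiL` give `hphi` (for
`h ≤ L^8` or `h ≥ L^8`), `net_ae` gives the net.  Given large `X`, `H` choose `i` with
`ρ^i ≤ X < ρ^(i+1)`, `K = ⌈ρ^i⌉₊`, and `j` with `ρ^j ≤ H/2 < ρ^(j+1)`, `h = ⌈ρ^j⌉₊`: `|X - K| ≤ 2ηX`,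
`|H - 2h| ≤ 2 η H + 2`.  `phiC g K (2h) t = phiD g K h _` (`disc_eq`);
`phi_H` (whichever of `H`, `2h` is larger) and `phi_X` (whichever of `X`, `K` is larger).  The
hypothesis of `phi_H` holds for large `X` by `MS_ae` (`r ≤ H ≤ X/L^25 ≤ Y/(log Y)^25` for
`Y ∈ {X/2, X, 2X}`; note that `y/(log y)^25` is increasing for large `y` and `Y = X/2` loses a factor `2`,
so use it for the windows `r ≤ H ≤ X/L^26`, which is at most `(X/2)/(log(X/2))^25` for large `X`; the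
range of `H` in the statement is `X/L^26`).  Errors: `6·2η + C|t| √(4η + 4/H) + ε + K/√h ≤ δ` for
small `η` and large `H`.  Take a countable intersection over `δ = 1/(n+1)`.
-/

set_option autoImplicit false

namespace Pool.Agent.H41.RG

open Finset MeasureTheory ProbabilityTheory Filter
open Pool.Agent.H18.RM (IsSigns rmf)

private theorem Unif_MR_sq (g : ℕ → ℝ) (x H : ℝ) :
    (MR g x H) ^ 2 = ‖Pool.Agent.H18.RM.MC (fun n => (g n : ℂ)) x H‖ ^ 2 := by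
  have : Pool.Agent.H18.RM.MC (fun n => (g n : ℂ)) x H = ((MR g x H : ℝ) : ℂ) := by
    unfold Pool.Agent.H18.RM.MC MR
    push_cast
    rfl
  rw [this, Complex.norm_real, Real.norm_eq_abs, sq_abs]

theorem MS_ae {Ω : Type*} [MeasurableSpace Ω] {P : Measure Ω} [IsProbabilityMeasure P]
    {e : ℕ → Ω → ℝ} (hs : IsSigns P e) :
    ∀ᵐ ω ∂P, ∀ᶠ X : ℝ in atTop, ∀ r : ℝ, 1 ≤ r → r ≤ X / Real.log X ^ 25 →
      ∫ x in X..2 * X, (MR (rmf e ω) x r) ^ 2 ≤ 2 * X * r := by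
  filter_upwards [Pool.Agent.H18.RM.law_ae hs 0] with ω hω
  filter_upwards [hω, eventually_ge_atTop (1 : ℝ)] with X hX hX1 r hr1 hr2
  have h1 := hX r hr1 (by simpa using hr2)
  have e1 : ∫ x in X..2 * X, (MR (rmf e ω) x r) ^ 2 =
      Pool.Agent.H18.RM.IC (fun n => (rmf e ω n : ℂ)) X (2 * X) r := by
    unfold Pool.Agent.H18.RM.IC
    simp only [Unif_MR_sq]
  rw [e1]
  set I := Pool.Agent.H18.RM.IC (fun n => (rmf e ω n : ℂ)) X (2 * X) r with hI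
  rw [pow_zero, div_one] at h1
  have h2 := (abs_le.1 h1).2
  have hX0 : 0 < X := by linarith
  have hr0 : 0 < r := by linarith
  have hpi : 3 < Real.pi := Real.pi_gt_three
  have hq : 0 < r / (Real.pi ^ 2 / 6) := by positivity
  have h3 : 1 / X * I ≤ 2 * (r / (Real.pi ^ 2 / 6)) := by
    have h4 : 1 / X * I / (r / (Real.pi ^ 2 / 6)) ≤ 2 := by linarith
    rwa [div_le_iff₀ hq] at h4
  have h5 : r / (Real.pi ^ 2 / 6) ≤ r := by
    apply div_le_self hr0.le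
    nlinarith
  have h6 : 1 / X * I ≤ 2 * r := by linarith
  have h7 : I = X * (1 / X * I) := by field_simp
  rw [h7]
  nlinarith

/-- From a net point to `(X, H)`. -/
private theorem Unif_step {C : ℝ} (hC : 1 ≤ C)
    (hphiH : ∀ (g : ℕ → ℝ), (∀ n, |g n| ≤ 1) → ∀ X H H' : ℝ, 16 ≤ X →
      1 ≤ H' → H' ≤ H → H ≤ 4 * H' → 4 * H ≤ X →
      (∀ Y ∈ ({X / 2, X, 2 * X} : Set ℝ), ∀ r : ℝ, 1 ≤ r → r ≤ H →
        ∫ x in Y..2 * Y, (MR g x r) ^ 2 ≤ 2 * Y * r) → ∀ t : ℝ,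
      ‖phiC g X H t - phiC g X H' t‖ ≤ C * |t| * Real.sqrt ((H - H') / H + 1 / H))
    {g : ℕ → ℝ} (hg : ∀ n, |g n| ≤ 1) (hg0 : ∀ n, ¬ Squarefree n → g n = 0)
    {X H : ℝ} {K h : ℕ} {η : ℝ} (t : ℝ) (hη0 : 0 < η) (hη1 : η ≤ 1)
    (hX : 16 ≤ X) (hH : 4 ≤ H) (hHX : 8 * H ≤ X)
    (hK1 : (K : ℝ) ≤ (1 + η) * X) (hK2 : X ≤ (1 + η) * K)
    (hh1 : 2 * (h : ℝ) ≤ H + 2) (hh2 : H ≤ (1 + η) * (2 * h))
    (hms : ∀ Y ∈ ({X / 2, X, 2 * X} : Set ℝ), ∀ r : ℝ, 1 ≤ r → r ≤ 2 * H →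
      ∫ x in Y..2 * Y, (MR g x r) ^ 2 ≤ 2 * Y * r) :
    ‖phiC g X H t - phiD g K h (t / sg (2 * h))‖ ≤ C * |t| * Real.sqrt (η + 3 / H) + 6 * η := by
  have hh0 : (0 : ℝ) ≤ h := Nat.cast_nonneg h
  have hK0 : (0 : ℝ) ≤ K := Nat.cast_nonneg K
  have hH2 : H ≤ 2 * (2 * (h : ℝ)) := by nlinarith
  have hX2 : X ≤ 2 * (K : ℝ) := by nlinarith
  have hh3 : (1 : ℝ) ≤ h := by linarith
  have hh4 : 1 ≤ h := by exact_mod_cast hh3
  have hhK : (h : ℝ) ≤ K := by linarith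
  have hhK' : h ≤ K := by exact_mod_cast hhK
  have hH0 : 0 < H := by linarith
  have hCt : 0 ≤ C * |t| := mul_nonneg (by linarith) (abs_nonneg t)
  -- the length
  have s1 : ‖phiC g X H t - phiC g X (2 * h) t‖ ≤ C * |t| * Real.sqrt (η + 3 / H) := by
    rcases le_total (2 * (h : ℝ)) H with hc | hc
    · refine (hphiH g hg X H (2 * h) hX (by linarith) hc (by linarith) (by linarith)
        (fun Y hY r hr1 hr2 => hms Y hY r hr1 (by linarith)) t).trans ?_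
      refine mul_le_mul_of_nonneg_left (Real.sqrt_le_sqrt ?_) hCt
      have e1 : (H - 2 * (h : ℝ)) / H ≤ η := by
        rw [div_le_iff₀ hH0]
        nlinarith
      have e2 : 1 / H ≤ 3 / H := div_le_div_of_nonneg_right (by norm_num) hH0.le
      linarith
    · rw [norm_sub_rev]
      refine (hphiH g hg X (2 * h) H hX (by linarith) hc (by linarith) (by linarith)
        (fun Y hY r hr1 hr2 => hms Y hY r hr1 (by linarith)) t).trans ?_
      refine mul_le_mul_of_nonneg_left (Real.sqrt_le_sqrt ?_) hCt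
      have h2h : 0 < 2 * (h : ℝ) := by linarith
      have e1 : (2 * (h : ℝ) - H) / (2 * h) + 1 / (2 * h) ≤ 3 / (2 * h) := by
        rw [← add_div]
        exact div_le_div_of_nonneg_right (by linarith) h2h.le
      have e2 : 3 / (2 * (h : ℝ)) ≤ 3 / H := div_le_div_of_nonneg_left (by norm_num) hH0 hc
      linarith
  -- the interval
  have s2 : ‖phiC g X (2 * h) t - phiC g K (2 * h) t‖ ≤ 6 * η := by
    rcases le_total X (K : ℝ) with hc | hc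
    · exact phi_X hg (by linarith) (by linarith) hc hK1 hη1 t
    · rw [norm_sub_rev]
      exact phi_X hg (by linarith) (by linarith) hc hK2 hη1 t
  rw [← disc_eq hg0 hh4 hhK' t]
  calc ‖phiC g X H t - phiC g K (2 * h) t‖
      = ‖(phiC g X H t - phiC g X (2 * h) t) + (phiC g X (2 * h) t - phiC g K (2 * h) t)‖ := by
        congr 1; ring
    _ ≤ _ := (norm_add_le _ _).trans (add_le_add s1 s2)

/-- Conditions on the sizes. -/
private theorem Unif_size {X H L : ℝ} {K h : ℕ} (hX : 16 ≤ X) (hH : 4 ≤ H)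
    (hL : Real.log X = L) (hL27 : 2 ^ 27 ≤ L) (hHX : H ≤ X / L ^ 26)
    (hK1 : (K : ℝ) ≤ 2 * X) (hK2 : X ≤ 2 * K) (hh1 : 2 * (h : ℝ) ≤ H + 2) :
    8 * H ≤ X ∧ (h : ℝ) ≤ K / Real.log K ^ 10 ∧
      ∀ Y ∈ ({X / 2, X, 2 * X} : Set ℝ), 2 * H ≤ Y / Real.log Y ^ 25 := by
  have hX0 : 0 < X := by linarith
  have hL0 : 0 < L := by linarith [show (0 : ℝ) < 2 ^ 27 by norm_num]
  have hL1 : 1 ≤ L := by linarith [show (1 : ℝ) ≤ 2 ^ 27 by norm_num]
  have hHL : H * L ^ 26 ≤ X := by rwa [le_div_iff₀ (by positivity)] at hHX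
  have hlog2 : Real.log 2 ≤ 1 := by
    have := Real.log_le_sub_one_of_pos (show (0 : ℝ) < 2 by norm_num)
    linarith
  have hlog2X : Real.log (2 * X) ≤ 2 * L := by
    rw [Real.log_mul (by norm_num) (by positivity), hL]
    linarith
  have hY : ∀ Y : ℝ, X / 2 ≤ Y → Y ≤ 2 * X → 0 < Real.log Y ∧ Real.log Y ≤ 2 * L := by
    intro Y h1 h2
    have hY0 : 0 < Y := by linarith
    refine ⟨Real.log_pos (by linarith), ?_⟩
    exact (Real.log_le_log hY0 h2).trans hlog2X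
  have hP : ∀ n : ℕ, n ≤ 25 → 2 ^ (n + 1) * L ^ n ≤ L ^ 26 := by
    intro n hn
    calc 2 ^ (n + 1) * L ^ n ≤ 2 ^ 27 * L ^ n := by
          refine mul_le_mul_of_nonneg_right ?_ (by positivity)
          exact pow_le_pow_right₀ (by norm_num) (by omega)
      _ ≤ L * L ^ n := mul_le_mul_of_nonneg_right hL27 (by positivity)
      _ = L ^ (n + 1) := by ring
      _ ≤ L ^ 26 := pow_le_pow_right₀ hL1 (by omega)
  refine ⟨?_, ?_, ?_⟩
  · have h1 : (8 : ℝ) ≤ L ^ 26 := by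
      calc (8 : ℝ) ≤ 2 ^ 27 := by norm_num
        _ ≤ L := hL27
        _ = L ^ 1 := (pow_one L).symm
        _ ≤ L ^ 26 := pow_le_pow_right₀ hL1 (by norm_num)
    nlinarith
  · obtain ⟨l0, l1⟩ := hY K (by linarith) hK1
    rw [le_div_iff₀ (by positivity)]
    have h1 : Real.log K ^ 10 ≤ (2 * L) ^ 10 := pow_le_pow_left₀ l0.le l1 10
    have h2 : 2 ^ (10 + 1) * L ^ 10 ≤ L ^ 26 := hP 10 (by norm_num)
    have h3 : (h : ℝ) ≤ H := by linarith
    have h4 : (2 * L) ^ 10 * 2 ≤ L ^ 26 := by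
      calc (2 * L) ^ 10 * 2 = 2 ^ (10 + 1) * L ^ 10 := by ring
        _ ≤ _ := h2
    calc (h : ℝ) * Real.log K ^ 10 ≤ H * (2 * L) ^ 10 := by
          apply mul_le_mul h3 h1 (by positivity) (by linarith)
      _ ≤ (K : ℝ) := by
          have h5 : H * ((2 * L) ^ 10 * 2) ≤ H * L ^ 26 :=
            mul_le_mul_of_nonneg_left h4 (by linarith)
          linarith
  · have key : ∀ Y : ℝ, X / 2 ≤ Y → Y ≤ 2 * X → 2 * H ≤ Y / Real.log Y ^ 25 := by
      intro Y h1 h2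
      obtain ⟨l0, l1⟩ := hY Y h1 h2
      rw [le_div_iff₀ (by positivity)]
      have h3 : Real.log Y ^ 25 ≤ (2 * L) ^ 25 := pow_le_pow_left₀ l0.le l1 25
      have h4 : (2 * L) ^ 25 * 4 ≤ L ^ 26 := by
        calc (2 * L) ^ 25 * 4 = 2 ^ 27 * L ^ 25 := by ring
          _ ≤ L * L ^ 25 := mul_le_mul_of_nonneg_right hL27 (by positivity)
          _ = L ^ 26 := by ring
      calc 2 * H * Real.log Y ^ 25 ≤ 2 * H * (2 * L) ^ 25 :=
            mul_le_mul_of_nonneg_left h3 (by linarith)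
        _ ≤ X / 2 := by
            have h5 : H * ((2 * L) ^ 25 * 4) ≤ H * L ^ 26 :=
              mul_le_mul_of_nonneg_left h4 (by linarith)
            linarith
        _ ≤ Y := h1
    intro Y hYm
    simp only [Set.mem_insert_iff, Set.mem_singleton_iff] at hYm
    rcases hYm with rfl | rfl | rfl
    · exact key _ le_rfl (by linarith)
    · exact key _ (by linarith) (by linarith)
    · exact key _ (by linarith) le_rfl

/-- The choice of `η`. -/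
private theorem Unif_eta {A δ : ℝ} (hA : 0 ≤ A) (hδ : 0 < δ) :
    ∃ η : ℝ, 0 < η ∧ η ≤ 1 ∧ 6 * η ≤ δ / 4 ∧ A * Real.sqrt (2 * η) ≤ δ / 4 := by
  refine ⟨min 1 (min (δ / 24) ((δ / 4) ^ 2 / (2 * A ^ 2 + 1))), ?_, min_le_left _ _, ?_, ?_⟩
  · refine lt_min one_pos (lt_min (by positivity) (by positivity))
  · have := (min_le_right (1 : ℝ) (min (δ / 24) ((δ / 4) ^ 2 / (2 * A ^ 2 + 1)))).trans
      (min_le_left _ _)
    linarith
  · set η := min 1 (min (δ / 24) ((δ / 4) ^ 2 / (2 * A ^ 2 + 1))) with hη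
    have h1 : η ≤ (δ / 4) ^ 2 / (2 * A ^ 2 + 1) := (min_le_right _ _).trans (min_le_right _ _)
    have h2 : η * (2 * A ^ 2 + 1) ≤ (δ / 4) ^ 2 := by rwa [le_div_iff₀ (by positivity)] at h1
    have h0 : 0 < η := lt_min one_pos (lt_min (by positivity) (by positivity))
    have h3 : A * Real.sqrt (2 * η) = Real.sqrt (A ^ 2 * (2 * η)) := by
      rw [Real.sqrt_mul (sq_nonneg A) (2 * η), Real.sqrt_sq hA]
    rw [h3]
    apply Real.sqrt_le_iff.2
    refine ⟨by positivity, ?_⟩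
    nlinarith

theorem unif {Ω : Type*} [MeasurableSpace Ω] {P : Measure Ω} [IsProbabilityMeasure P]
    {e : ℕ → Ω → ℝ} (hs : IsSigns P e) (t : ℝ) :
    ∀ᵐ ω ∂P, ∀ δ : ℝ, 0 < δ → ∃ X₀ H₀ : ℝ, ∀ X H : ℝ, X₀ ≤ X → H₀ ≤ H →
      H ≤ X / Real.log X ^ 26 →
      ‖phiC (rmf e ω) X H t - ((Real.exp (-t ^ 2 / 2) : ℝ) : ℂ)‖ ≤ δ := by
  obtain ⟨C, hC, hphiH⟩ := phi_H
  obtain ⟨K₁, hK₁, hL⟩ := phiL t
  obtain ⟨K₂, hK₂, hS⟩ := phiS t
  set K := max K₁ K₂ with hK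
  have hK0 : 0 ≤ K := le_max_of_le_left (by linarith)
  have hphi : ∀ᶠ X : ℕ in atTop, ∀ h : ℕ, 1 ≤ h → (h : ℝ) ≤ X / Real.log X ^ 10 →
      ∃ c : ℝ, |c - Real.exp (-t ^ 2 / 2)| ≤ K / Real.sqrt h ∧
      ∫ ω, ‖phiD (rmf e ω) X h (t / sg (2 * h)) - ((c : ℝ) : ℂ)‖ ^ 2 ∂P ≤
        K / Real.log X ^ 3 := by
    filter_upwards [hL, hS, eventually_ge_atTop 3] with X hXL hXS hX3 h h1 h2
    have hlog : 0 ≤ Real.log (X : ℝ) ^ 3 := by
      have : 0 ≤ Real.log (X : ℝ) := Real.log_natCast_nonneg X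
      positivity
    rcases le_total (h : ℝ) (Real.log X ^ 8) with hc | hc
    · obtain ⟨c, hc1, hc2⟩ := hXS h h1 hc
      refine ⟨c, hc1.trans ?_, (hc2 _ P e hs).trans ?_⟩
      · exact div_le_div_of_nonneg_right (le_max_right _ _) (Real.sqrt_nonneg _)
      · exact div_le_div_of_nonneg_right (le_max_right _ _) hlog
    · refine ⟨Real.exp (-t ^ 2 / 2), ?_, (hXL h hc h2 _ P e hs).trans ?_⟩
      · rw [sub_self, abs_zero]
        positivity
      · exact div_le_div_of_nonneg_right (le_max_left _ _) hlog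
  have hA : 0 ≤ C * |t| := mul_nonneg (by linarith) (abs_nonneg t)
  -- the net for one `δ`
  have hone : ∀ n : ℕ, ∀ᵐ ω ∂P, ∃ X₀ H₀ : ℝ, ∀ X H : ℝ, X₀ ≤ X → H₀ ≤ H →
      H ≤ X / Real.log X ^ 26 →
      ‖phiC (rmf e ω) X H t - ((Real.exp (-t ^ 2 / 2) : ℝ) : ℂ)‖ ≤ 1 / ((n : ℝ) + 1) := by
    intro n
    set δ : ℝ := 1 / ((n : ℝ) + 1) with hδ
    have hδ0 : 0 < δ := by positivity
    obtain ⟨η, hη0, hη1, hη2, hη3⟩ := Unif_eta hA hδ0
    have hρ : 1 < 1 + η := by linarith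
    filter_upwards [net_ae hs t hK0 hphi hρ (show 0 < δ / 4 by positivity), MS_ae hs,
      Pool.Agent.H18.RM.rmf_sq hs] with ω hnet hms hsq
    set g := rmf e ω with hgdef
    have hg : ∀ n, |g n| ≤ 1 := fun n => (hsq n).1
    have hg0 : ∀ n, ¬ Squarefree n → g n = 0 := by
      intro n hn
      rw [hgdef]
      unfold rmf
      rw [if_neg hn]
    obtain ⟨I₀, hI₀⟩ := eventually_atTop.1 hnet
    obtain ⟨X₁, hX₁⟩ := eventually_atTop.1 hms
    refine ⟨max (max ((1 + η) ^ I₀) (2 * X₁)) (max (max 16 (1 / η)) (Real.exp (2 ^ 27))),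
      max (max 4 (3 / η)) ((8 * K / δ) ^ 2), fun X H hX hH hHX => ?_⟩
    have x1 : (1 + η) ^ I₀ ≤ X := ((le_max_left _ _).trans (le_max_left _ _)).trans hX
    have x2 : 2 * X₁ ≤ X := ((le_max_right _ _).trans (le_max_left _ _)).trans hX
    have x3 : 16 ≤ X :=
      (((le_max_left _ _).trans (le_max_left _ _)).trans (le_max_right _ _)).trans hX
    have x4 : 1 / η ≤ X :=
      (((le_max_right _ _).trans (le_max_left _ _)).trans (le_max_right _ _)).trans hX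
    have x5 : Real.exp (2 ^ 27) ≤ X := ((le_max_right _ _).trans (le_max_right _ _)).trans hX
    have y1 : 4 ≤ H := ((le_max_left _ _).trans (le_max_left _ _)).trans hH
    have y2 : 3 / η ≤ H := ((le_max_right _ _).trans (le_max_left _ _)).trans hH
    have y3 : (8 * K / δ) ^ 2 ≤ H := (le_max_right _ _).trans hH
    have hX0 : 0 < X := by linarith
    have hH0 : 0 < H := by linarith
    have hL27 : 2 ^ 27 ≤ Real.log X := (Real.le_log_iff_exp_le hX0).2 x5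
    -- the net point
    obtain ⟨i, hi1, hi2⟩ := exists_nat_pow_near (show 1 ≤ X by linarith) hρ
    obtain ⟨j, hj1, hj2⟩ := exists_nat_pow_near (show 1 ≤ H / 2 by linarith) hρ
    have hiI : I₀ ≤ i := by
      by_contra hc
      have h1 : i + 1 ≤ I₀ := by omega
      have h2 : (1 + η) ^ (i + 1) ≤ (1 + η) ^ I₀ := pow_le_pow_right₀ hρ.le h1
      linarith
    have hρi : 0 ≤ (1 + η) ^ i := by positivity
    have hρj : 0 ≤ (1 + η) ^ j := by positivity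
    have s2 := hI₀ i hiI j
    have k1 : (1 + η) ^ i ≤ (⌈(1 + η) ^ i⌉₊ : ℝ) := Nat.le_ceil _
    have k2 : (⌈(1 + η) ^ i⌉₊ : ℝ) < (1 + η) ^ i + 1 := Nat.ceil_lt_add_one hρi
    have k3 : (1 + η) ^ j ≤ (⌈(1 + η) ^ j⌉₊ : ℝ) := Nat.le_ceil _
    have k4 : (⌈(1 + η) ^ j⌉₊ : ℝ) < (1 + η) ^ j + 1 := Nat.ceil_lt_add_one hρj
    have hpi : (1 + η) ^ (i + 1) = (1 + η) * (1 + η) ^ i := by ring
    have hpj : (1 + η) ^ (j + 1) = (1 + η) * (1 + η) ^ j := by ring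
    rw [hpi] at hi2
    rw [hpj] at hj2
    generalize ⌈(1 + η) ^ i⌉₊ = Kn at k1 k2 s2
    generalize ⌈(1 + η) ^ j⌉₊ = hn at k3 k4 s2
    generalize (1 + η) ^ i = A at hi1 hi2 k1 k2 hρi
    generalize (1 + η) ^ j = B at hj1 hj2 k3 k4 hρj
    have hηX : 1 ≤ η * X := by
      rw [div_le_iff₀ hη0] at x4
      linarith
    have hKn0 : (0 : ℝ) ≤ (Kn : ℝ) := Nat.cast_nonneg _
    have hhn0 : (0 : ℝ) ≤ (hn : ℝ) := Nat.cast_nonneg _
    have hK1 : (Kn : ℝ) ≤ (1 + η) * X := by linarith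
    have hK2 : X ≤ (1 + η) * (Kn : ℝ) := by
      have := mul_le_mul_of_nonneg_left k1 (show (0 : ℝ) ≤ 1 + η by linarith)
      linarith
    have hh1 : 2 * (hn : ℝ) ≤ H + 2 := by linarith
    have hh2 : H ≤ (1 + η) * (2 * (hn : ℝ)) := by
      have := mul_le_mul_of_nonneg_left k3 (show (0 : ℝ) ≤ 1 + η by linarith)
      linarith
    have hK3 : (Kn : ℝ) ≤ 2 * X := by
      have := mul_le_mul_of_nonneg_right hη1 hX0.le
      linarith
    have hK4 : X ≤ 2 * (Kn : ℝ) := by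
      have := mul_le_mul_of_nonneg_right hη1 hKn0
      linarith
    obtain ⟨z1, z2, z3⟩ := Unif_size x3 y1 rfl hL27 hHX hK3 hK4 hh1
    have hms' : ∀ Y ∈ ({X / 2, X, 2 * X} : Set ℝ), ∀ r : ℝ, 1 ≤ r → r ≤ 2 * H →
        ∫ x in Y..2 * Y, (MR g x r) ^ 2 ≤ 2 * Y * r := by
      intro Y hY r hr1 hr2
      refine hX₁ Y ?_ r hr1 (hr2.trans (z3 Y hY))
      simp only [Set.mem_insert_iff, Set.mem_singleton_iff] at hY
      rcases hY with rfl | rfl | rfl <;> linarith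
    have s1 := Unif_step hC hphiH hg hg0 t hη0 hη1 x3 y1 z1 hK1 hK2 hh1 hh2 hms'
    have s2' := s2 z2
    have s3 : C * |t| * Real.sqrt (η + 3 / H) ≤ δ / 4 := by
      refine (mul_le_mul_of_nonneg_left (Real.sqrt_le_sqrt ?_) hA).trans hη3
      have : 3 / H ≤ η := by
        rw [div_le_iff₀ hη0] at y2
        rw [div_le_iff₀ hH0]
        linarith
      linarith
    have s4 : K / Real.sqrt (hn : ℝ) ≤ δ / 4 := by
      have h1 : H / 4 ≤ (hn : ℝ) := by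
        have := mul_le_mul_of_nonneg_right hη1 hhn0
        linarith
      have h2 : (4 * K / δ) ^ 2 ≤ (hn : ℝ) := by
        refine le_trans ?_ h1
        have : (8 * K / δ) ^ 2 = 4 * (4 * K / δ) ^ 2 := by ring
        linarith
      have h3 : 4 * K / δ ≤ Real.sqrt (hn : ℝ) := Real.le_sqrt_of_sq_le h2
      have h4 : 0 < Real.sqrt (hn : ℝ) := by
        apply Real.sqrt_pos.2
        linarith
      rw [div_le_iff₀ h4]
      rw [div_le_iff₀ hδ0] at h3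
      linarith
    calc ‖phiC g X H t - ((Real.exp (-t ^ 2 / 2) : ℝ) : ℂ)‖
        = ‖(phiC g X H t - phiD g Kn hn (t / sg (2 * (hn : ℕ)))) +
            (phiD g Kn hn (t / sg (2 * (hn : ℕ))) -
              ((Real.exp (-t ^ 2 / 2) : ℝ) : ℂ))‖ := by
          congr 1; ring
      _ ≤ _ := norm_add_le _ _
      _ ≤ (C * |t| * Real.sqrt (η + 3 / H) + 6 * η) +
          (δ / 4 + K / Real.sqrt (hn : ℝ)) := add_le_add s1 s2'
      _ ≤ δ := by linarith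
  have hall := ae_all_iff.2 hone
  filter_upwards [hall] with ω hω δ hδ
  obtain ⟨n, hn⟩ := exists_nat_one_div_lt hδ
  obtain ⟨X₀, H₀, h0⟩ := hω n
  exact ⟨X₀, H₀, fun X H h1 h2 h3 => (h0 X H h1 h2 h3).trans hn.le⟩

end Pool.Agent.H41.RG

end

section

/-!
# RG Fin: the Gaussian law

`unif` for all rational `t` (countable intersection), `phi_lip` with `MS_ae` (`A = 2`) extends it to all
real `t`.  For a function `H` as in the statement and a sequence `X_n → ∞` (`tendsto_of_seq_tendsto`)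
use `levy` (for large `n`; modify finitely many terms, e.g. `X n ⊔ 1`, `H n ⊔ 1`).
-/

set_option autoImplicit false

namespace Pool.Agent.H41.RG

open Finset MeasureTheory ProbabilityTheory Filter
open Pool.Agent.H18.RM (IsSigns rmf)

theorem Fin_sg (H : ℝ) (hH : 0 ≤ H) : sg H ^ 2 = H / (Real.pi ^ 2 / 6) := by
  unfold sg
  rw [Real.sq_sqrt (by positivity)]

/-- the deterministic part -/
theorem Fin_det {g : ℕ → ℝ} (hg : ∀ n, |g n| ≤ 1)
    (hMS : ∀ᶠ X : ℝ in atTop, ∀ r : ℝ, 1 ≤ r → r ≤ X / Real.log X ^ 25 →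
      ∫ x in X..2 * X, (MR g x r) ^ 2 ≤ 2 * X * r)
    (hU : ∀ q : ℚ, ∀ δ : ℝ, 0 < δ → ∃ X₀ H₀ : ℝ, ∀ X H : ℝ, X₀ ≤ X → H₀ ≤ H →
      H ≤ X / Real.log X ^ 26 →
      ‖phiC g X H q - ((Real.exp (-(q : ℝ) ^ 2 / 2) : ℝ) : ℂ)‖ ≤ δ)
    {H : ℝ → ℝ} (hH : Tendsto H atTop atTop)
    (hHX : ∀ᶠ X in atTop, H X ≤ X / Real.log X ^ 26) (t : ℝ) :
    Tendsto (fun X => phiC g X (H X) t) atTop (nhds ((Real.exp (-t ^ 2 / 2) : ℝ) : ℂ)) := by
  rw [Metric.tendsto_nhds]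
  intro ε hε
  -- continuity of the limit
  have hcont : Continuous (fun s : ℝ => Real.exp (-s ^ 2 / 2)) := by fun_prop
  have h1 := Metric.continuousAt_iff.1 (hcont.continuousAt (x := t)) (ε / 4) (by positivity)
  obtain ⟨d, hd, hd1⟩ := h1
  obtain ⟨q, hq1, hq2⟩ := exists_rat_btwn (show t < t + min d (ε / 8) by
    have : 0 < min d (ε / 8) := lt_min hd (by positivity)
    linarith)
  have hqt : |t - q| ≤ ε / 8 ∧ |(q : ℝ) - t| < d := by
    have h2 : min d (ε / 8) ≤ d := min_le_left _ _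
    have h3 : min d (ε / 8) ≤ ε / 8 := min_le_right _ _
    constructor
    · rw [abs_le]
      constructor <;> linarith
    · rw [abs_lt]
      constructor <;> linarith
  obtain ⟨X₀, H₀, hXH⟩ := hU q (ε / 4) (by positivity)
  filter_upwards [hMS, hHX, hH.eventually_ge_atTop (max 1 H₀), eventually_ge_atTop (max 1 X₀),
    eventually_ge_atTop (Real.exp 1)] with X e1 e2 e3 e4 e5
  have hX1 : 1 ≤ X := (le_max_left _ _).trans e4
  have hX0 : 0 < X := by linarith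
  have hH1 : 1 ≤ H X := (le_max_left _ _).trans e3
  have hl : 1 ≤ Real.log X := by
    rw [Real.le_log_iff_exp_le hX0]
    exact e5
  have h25 : H X ≤ X / Real.log X ^ 25 := by
    refine e2.trans ?_
    exact div_le_div_of_nonneg_left hX0.le (by positivity) (pow_le_pow_right₀ hl (by norm_num))
  have hA := e1 (H X) hH1 h25
  have hA2 : ∫ x in X..2 * X, (MR g x (H X)) ^ 2 ≤ (2 : ℝ) ^ 2 * X * sg (H X) ^ 2 := by
    refine hA.trans ?_
    rw [Fin_sg _ (by linarith)]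
    have hpi : Real.pi ^ 2 < 12 := by
      have := Real.pi_lt_d2
      have := Real.pi_pos
      nlinarith
    have h4 : H X ≤ 2 * (H X / (Real.pi ^ 2 / 6)) := by
      rw [mul_div_assoc', le_div_iff₀ (by positivity)]
      nlinarith
    have h5 : 0 ≤ 2 * X := by linarith
    calc 2 * X * H X ≤ 2 * X * (2 * (H X / (Real.pi ^ 2 / 6))) := mul_le_mul_of_nonneg_left h4 h5
      _ = 2 ^ 2 * X * (H X / (Real.pi ^ 2 / 6)) := by ring
  have h6 := phi_lip hg hX1 hH1 hA2 (by norm_num) t q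
  have h7 := hXH X (H X) ((le_max_right _ _).trans e4) ((le_max_right _ _).trans e3) e2
  have h8 := hd1 (x := (q : ℝ)) (by rw [Real.dist_eq]; exact hqt.2)
  rw [Real.dist_eq] at h8
  rw [dist_eq_norm]
  have h9 : phiC g X (H X) t - ((Real.exp (-t ^ 2 / 2) : ℝ) : ℂ) =
      (phiC g X (H X) t - phiC g X (H X) q) +
      (phiC g X (H X) q - ((Real.exp (-(q : ℝ) ^ 2 / 2) : ℝ) : ℂ)) +
      ((Real.exp (-(q : ℝ) ^ 2 / 2) - Real.exp (-t ^ 2 / 2) : ℝ) : ℂ) := by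
    push_cast
    ring
  rw [h9]
  have h10 : ‖((Real.exp (-(q : ℝ) ^ 2 / 2) - Real.exp (-t ^ 2 / 2) : ℝ) : ℂ)‖ < ε / 4 := by
    rw [Complex.norm_real, Real.norm_eq_abs]
    exact h8
  calc _ ≤ ‖phiC g X (H X) t - phiC g X (H X) q‖ +
        ‖phiC g X (H X) q - ((Real.exp (-(q : ℝ) ^ 2 / 2) : ℝ) : ℂ)‖ +
        ‖((Real.exp (-(q : ℝ) ^ 2 / 2) - Real.exp (-t ^ 2 / 2) : ℝ) : ℂ)‖ := norm_add₃_le
    _ < ε / 8 * 2 + ε / 4 + ε / 4 := by
        have : |t - q| * 2 ≤ ε / 8 * 2 := mul_le_mul_of_nonneg_right hqt.1 (by norm_num)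
        linarith
    _ ≤ ε := by linarith

theorem Fin_levy {g : ℕ → ℝ} (hg : ∀ n, |g n| ≤ 1) {H : ℝ → ℝ} (hH : Tendsto H atTop atTop)
    (hphi : ∀ t : ℝ, Tendsto (fun X => phiC g X (H X) t) atTop
      (nhds ((Real.exp (-t ^ 2 / 2) : ℝ) : ℂ))) (u : ℝ) :
    Tendsto (fun X => (1 / X) *
        volume.real {x : ℝ | X ≤ x ∧ x ≤ 2 * X ∧ MR g x (H X) ≤ u * sg (H X)}) atTop
        (nhds ((gaussianReal 0 1).real (Set.Iic u))) := by
  apply tendsto_of_seq_tendsto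
  intro x hx
  have hHx : Tendsto (fun n => H (x n)) atTop atTop := hH.comp hx
  have e1 : ∀ᶠ n in atTop, 1 ≤ x n := hx.eventually_ge_atTop 1
  have e2 : ∀ᶠ n in atTop, 1 ≤ H (x n) := hHx.eventually_ge_atTop 1
  have h1 := levy hg (fun n => max 1 (x n)) (fun n => max 1 (H (x n)))
    (fun n => le_max_left _ _) (fun n => le_max_left _ _) (by
      intro t
      refine ((hphi t).comp hx).congr' ?_
      filter_upwards [e1, e2] with n h1 h2
      simp only [Function.comp, max_eq_right h1, max_eq_right h2]) u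
  refine h1.congr' ?_
  filter_upwards [e1, e2] with n h1 h2
  simp only [max_eq_right h1, max_eq_right h2, Function.comp]

theorem gauss {Ω : Type*} [MeasurableSpace Ω] {P : Measure Ω} [IsProbabilityMeasure P]
    {e : ℕ → Ω → ℝ} (hs : IsSigns P e) :
    ∀ᵐ ω ∂P, ∀ H : ℝ → ℝ, Tendsto H atTop atTop →
      (∀ᶠ X in atTop, H X ≤ X / Real.log X ^ 26) → ∀ u : ℝ,
      Tendsto (fun X => (1 / X) *
        volume.real {x : ℝ | X ≤ x ∧ x ≤ 2 * X ∧ MR (rmf e ω) x (H X) ≤ u * sg (H X)}) atTop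
        (nhds ((gaussianReal 0 1).real (Set.Iic u))) := by
  have h1 : ∀ᵐ ω ∂P, ∀ q : ℚ, ∀ δ : ℝ, 0 < δ → ∃ X₀ H₀ : ℝ, ∀ X H : ℝ, X₀ ≤ X → H₀ ≤ H →
      H ≤ X / Real.log X ^ 26 →
      ‖phiC (rmf e ω) X H q - ((Real.exp (-(q : ℝ) ^ 2 / 2) : ℝ) : ℂ)‖ ≤ δ :=
    ae_all_iff.2 fun q => unif hs (q : ℝ)
  filter_upwards [h1, MS_ae hs, Pool.Agent.H18.RM.rmf_sq hs] with ω h1 h2 h3
  intro H hH hHX u
  exact Fin_levy (fun n => (h3 n).1) hH
    (fun t => Fin_det (fun n => (h3 n).1) h2 h1 hH hHX t) u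

end Pool.Agent.H41.RG

end
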