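import Pool.Agent.H47.B1.M01

/-! The parts of this file: H14.CO.Line, H14.CO.Defs, H14.CO.Kern, H14.CO.Cut, H14.CO.Ch, H95.GC.Reflect, H14.CO.ZetaG. -/

section

/-!
# CO module Line: shifting a vertical line of integration

PROOF. Cauchy's theorem on the rectangle `[a,b] × [-R,R]`
(`Complex.integral_boundary_rect_eq_zero_of_differentiableOn`); the horizontal sides are
`≤ (b-a) C/(1+R^2) → 0`, the vertical ones converge to the full integrals
(`intervalIntegral_tendsto_integral`), both lines being integrable since `F` is continuous there and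
`≤ C/(1+y^2)`.
-/

set_option autoImplicit false

namespace Pool.Agent.H14.CO

open Set MeasureTheory Complex

/-- Integrability on a vertical line. -/
theorem line_integrable (F : ℂ → ℂ) (a : ℝ) (hF : ∀ y : ℝ, ContinuousAt F (a + y * I)) (C : ℝ)
    (hC : ∀ y : ℝ, ‖F (a + y * I)‖ ≤ C / (1 + y ^ 2)) :
    Integrable (fun y : ℝ => F (a + y * I)) := by
  have hcont : Continuous (fun y : ℝ => F (a + y * I)) := by
    rw [continuous_iff_continuousAt]
    intro y
    have h1 : ContinuousAt (fun y : ℝ => (a + y * I : ℂ)) y := by fun_prop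
    exact ContinuousAt.comp (f := fun y : ℝ => (a + y * I : ℂ)) (hF y) h1
  refine Integrable.mono' (integrable_inv_one_add_sq.const_mul C) hcont.aestronglyMeasurable ?_
  refine Filter.Eventually.of_forall fun y => ?_
  rw [← div_eq_mul_inv]
  exact hC y

/-- Shift of a vertical line. -/
theorem line_shift (F : ℂ → ℂ) (a b : ℝ) (hab : a ≤ b)
    (hF : ∀ z : ℂ, a ≤ z.re → z.re ≤ b → DifferentiableAt ℂ F z) (C : ℝ)
    (hC : ∀ z : ℂ, a ≤ z.re → z.re ≤ b → ‖F z‖ ≤ C / (1 + z.im ^ 2)) :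
    ∫ y : ℝ, F (a + y * I) = ∫ y : ℝ, F (b + y * I) := by
  have hia : Integrable (fun y : ℝ => F (a + y * I)) := by
    refine line_integrable F a (fun y => (hF _ (by simp) (by simpa using hab)).continuousAt) C
      (fun y => ?_)
    simpa using hC (a + y * I) (by simp) (by simpa using hab)
  have hib : Integrable (fun y : ℝ => F (b + y * I)) := by
    refine line_integrable F b (fun y => (hF _ (by simpa using hab) (by simp)).continuousAt) C
      (fun y => ?_)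
    simpa using hC (b + y * I) (by simpa using hab) (by simp)
  -- the rectangle
  have hrect : ∀ R : ℝ, (∫ x : ℝ in a..b, F (x + (-R : ℝ) * I)) - (∫ x : ℝ in a..b, F (x + R * I)) +
      I • (∫ y : ℝ in (-R)..R, F (b + y * I)) - I • (∫ y : ℝ in (-R)..R, F (a + y * I)) = 0 := by
    intro R
    have h := integral_boundary_rect_eq_zero_of_differentiableOn F (⟨a, -R⟩ : ℂ) (⟨b, R⟩ : ℂ) ?_
    · simpa using h
    · intro z hz
      rw [mem_reProdIm, uIcc_of_le hab] at hz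
      exact (hF z hz.1.1 hz.1.2).differentiableWithinAt
  have hhor : ∀ R : ℝ, ‖∫ x : ℝ in a..b, F (x + R * I)‖ ≤ C / (1 + R ^ 2) * |b - a| := by
    intro R
    refine intervalIntegral.norm_integral_le_of_norm_le_const fun x hx => ?_
    rw [uIoc_of_le hab] at hx
    simpa using hC (x + R * I) (by simpa using hx.1.le) (by simpa using hx.2)
  have hlim0 : Filter.Tendsto (fun R : ℝ => C / (1 + R ^ 2) * |b - a|) Filter.atTop (nhds 0) := by
    have h1 : Filter.Tendsto (fun R : ℝ => 1 + R ^ 2) Filter.atTop Filter.atTop :=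
      Filter.tendsto_atTop_add_const_left _ _ (Filter.tendsto_pow_atTop (by norm_num))
    have h2 := (Filter.Tendsto.const_div_atTop h1 C).mul_const |b - a|
    simpa using h2
  have hA : Filter.Tendsto (fun R : ℝ => ∫ x : ℝ in a..b, F (x + R * I)) Filter.atTop (nhds 0) :=
    squeeze_zero_norm hhor hlim0
  have hB : Filter.Tendsto (fun R : ℝ => ∫ x : ℝ in a..b, F (x + (-R : ℝ) * I)) Filter.atTop
      (nhds 0) := by
    refine squeeze_zero_norm (fun R => ?_) hlim0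
    have := hhor (-R)
    rwa [neg_sq] at this
  have hCa := intervalIntegral_tendsto_integral hia Filter.tendsto_neg_atTop_atBot
    Filter.tendsto_id
  have hCb := intervalIntegral_tendsto_integral hib Filter.tendsto_neg_atTop_atBot
    Filter.tendsto_id
  have hlim := ((hB.sub hA).add (hCb.const_smul I)).sub (hCa.const_smul I)
  have hzero : Filter.Tendsto (fun R : ℝ => (∫ x : ℝ in a..b, F (x + (-R : ℝ) * I)) -
      (∫ x : ℝ in a..b, F (x + R * I)) + I • (∫ y : ℝ in (-R)..id R, F (b + y * I)) -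
      I • (∫ y : ℝ in (-R)..id R, F (a + y * I))) Filter.atTop (nhds 0) := by
    refine tendsto_const_nhds.congr fun R => ?_
    exact (hrect R).symm
  have h0 := tendsto_nhds_unique hlim hzero
  simp only [sub_self, zero_add, smul_eq_mul] at h0
  rw [← mul_sub, mul_eq_zero] at h0
  rcases h0 with h0 | h0
  · exact absurd h0 I_ne_zero
  · exact (sub_eq_zero.1 h0).symm

/-- The integral of the Poisson kernel. -/
theorem Line_poisson {c : ℝ} (hc : c ≠ 0) :
    Integrable (fun y : ℝ => c / (c ^ 2 + y ^ 2)) ∧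
      ∫ y : ℝ, c / (c ^ 2 + y ^ 2) = |c| / c * Real.pi := by
  have h1 : (fun y : ℝ => c / (c ^ 2 + y ^ 2)) = fun y : ℝ => c⁻¹ * (1 + (y / c) ^ 2)⁻¹ := by
    funext y
    have : c ^ 2 + y ^ 2 ≠ 0 := by positivity
    have h2 : 1 + (y / c) ^ 2 = (c ^ 2 + y ^ 2) / c ^ 2 := by
      field_simp
    rw [h2]
    field_simp
  constructor
  · rw [h1]
    exact (integrable_inv_one_add_sq.comp_div hc).const_mul _
  · rw [h1, integral_const_mul]
    have := Measure.integral_comp_div (fun y : ℝ => (1 + y ^ 2)⁻¹) c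
    rw [this, integral_univ_inv_one_add_sq, smul_eq_mul]
    field_simp

/-- A rational function with value `1` at `0` and decay `1/y^2`. -/
noncomputable def Line_E (K : ℝ) (z : ℂ) : ℂ := K ^ 2 / ((K : ℂ) ^ 2 - z ^ 2)

theorem Line_E_ne {K : ℝ} {z : ℂ} (h : |z.re| < K) : (K : ℂ) ^ 2 - z ^ 2 ≠ 0 := by
  have h1 : (K : ℂ) ^ 2 - z ^ 2 = (K - z) * (K + z) := by ring
  rw [abs_lt] at h
  rw [h1]
  refine mul_ne_zero ?_ ?_
  · intro h2
    have := congrArg Complex.re h2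
    simp at this
    linarith
  · intro h2
    have := congrArg Complex.re h2
    simp at this
    linarith

theorem Line_E_bound {K : ℝ} (hK : 2 ≤ K) {z : ℂ} (h : |z.re| ≤ K / 2) :
    ‖Line_E K z‖ ≤ K ^ 2 / (1 + z.im ^ 2) := by
  have h' := abs_le.1 h
  have hpos : 0 < 1 + z.im ^ 2 := by positivity
  have h1 : (K : ℂ) ^ 2 - z ^ 2 = (K - z) * (K + z) := by ring
  have h2 : 1 + z.im ^ 2 ≤ ‖(K : ℂ) - z‖ ^ 2 := by
    rw [Complex.sq_norm, Complex.normSq_apply]
    simp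
    nlinarith
  have h3 : 1 + z.im ^ 2 ≤ ‖(K : ℂ) + z‖ ^ 2 := by
    rw [Complex.sq_norm, Complex.normSq_apply]
    simp
    nlinarith
  have h4 : 1 + z.im ^ 2 ≤ ‖(K : ℂ) ^ 2 - z ^ 2‖ := by
    rw [h1, norm_mul]
    refine le_of_sq_le_sq ?_ (by positivity)
    rw [mul_pow, sq (1 + z.im ^ 2)]
    exact mul_le_mul h2 h3 hpos.le (by positivity)
  unfold Line_E
  rw [norm_div]
  have h5 : ‖(K : ℂ) ^ 2‖ = K ^ 2 := by
    rw [norm_pow, Complex.norm_real, Real.norm_eq_abs, sq_abs]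
  rw [h5]
  exact div_le_div_of_nonneg_left (by positivity) hpos h4

theorem Line_E_diff {K : ℝ} {z : ℂ} (h : |z.re| < K) : DifferentiableAt ℂ (Line_E K) z := by
  unfold Line_E
  exact DifferentiableAt.div (by fun_prop) (by fun_prop) (Line_E_ne h)

theorem Line_E_zero {K : ℝ} (hK : 0 < K) : Line_E K 0 = 1 := by
  unfold Line_E
  have : (K : ℂ) ^ 2 ≠ 0 := by
    have : (K : ℂ) ≠ 0 := by exact_mod_cast hK.ne'
    exact pow_ne_zero 2 this
  simp [this]

theorem Line_J_integrable {K σ : ℝ} (hK : 2 ≤ K) (hσ : σ ≠ 0) (h : |σ| ≤ K / 2) :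
    Integrable (fun y : ℝ => Line_E K (σ + y * I) / (σ + y * I)) := by
  have hσ' : |σ| < K := by linarith
  refine line_integrable (fun z => Line_E K z / z) σ (fun y => ?_) (K ^ 2 / |σ|) (fun y => ?_)
  · refine (DifferentiableAt.div (Line_E_diff (by simpa using hσ')) differentiableAt_id
      ?_).continuousAt
    intro h2
    have := congrArg Complex.re h2
    simp at this
    exact hσ this
  · have h1 := Line_E_bound (z := (σ + y * I : ℂ)) hK (by simpa using h)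
    rw [norm_div]
    have h2 : |σ| ≤ ‖(σ + y * I : ℂ)‖ := by
      simpa using Complex.abs_re_le_norm (σ + y * I : ℂ)
    have h3 : 0 < |σ| := abs_pos.2 hσ
    simp only [add_im, ofReal_im, mul_im, ofReal_re, I_im, mul_one, I_re, mul_zero, add_zero,
      zero_add] at h1
    calc ‖Line_E K (σ + y * I)‖ / ‖(σ + y * I : ℂ)‖ ≤ (K ^ 2 / (1 + y ^ 2)) / |σ| :=
          div_le_div₀ (by positivity) h1 h3 h2
      _ = K ^ 2 / |σ| / (1 + y ^ 2) := by rw [div_right_comm]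

theorem Line_J {K σ : ℝ} (hK : 2 ≤ K) (hσ : σ ≠ 0) (h : |σ| ≤ K / 2) :
    ∫ y : ℝ, Line_E K (σ + y * I) / (σ + y * I) = ((|σ| / σ * Real.pi : ℝ) : ℂ) := by
  have h' := abs_le.1 h
  have hi := Line_J_integrable hK hσ h
  set f : ℝ → ℂ := fun y => Line_E K (σ + y * I) / (σ + y * I) with hf
  have hsum : ∀ y : ℝ, f y + f (-y) = ((2 * (σ / (σ ^ 2 + y ^ 2)) +
      ((K - σ) / ((K - σ) ^ 2 + y ^ 2) - (K + σ) / ((K + σ) ^ 2 + y ^ 2)) : ℝ) : ℂ) := by
    intro y
    have hz : ∀ t : ℝ, (σ + t * I : ℂ) ≠ 0 := by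
      intro t h2
      have := congrArg Complex.re h2
      simp at this
      exact hσ this
    have hm : ∀ t : ℝ, ((K : ℂ) - (σ + t * I)) ≠ 0 := by
      intro t h2
      have := congrArg Complex.re h2
      simp at this
      linarith
    have hp : ∀ t : ℝ, ((K : ℂ) + (σ + t * I)) ≠ 0 := by
      intro t h2
      have := congrArg Complex.re h2
      simp at this
      linarith
    have hpf : ∀ t : ℝ, f t = 1 / (σ + t * I) + (1 / 2) * (1 / ((K : ℂ) - (σ + t * I)) -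
        1 / ((K : ℂ) + (σ + t * I))) := by
      intro t
      have h1 := hz t
      have h2 := hm t
      have h3 := hp t
      have h4 : (K : ℂ) ^ 2 - (σ + t * I) ^ 2 = (K - (σ + t * I)) * (K + (σ + t * I)) := by ring
      rw [hf]
      simp only
      unfold Line_E
      rw [h4]
      field_simp
      ring
    have hkey : ∀ c : ℝ, c ≠ 0 → (1 / ((c : ℂ) + y * I) + 1 / ((c : ℂ) + (-y : ℝ) * I)) =
        ((2 * (c / (c ^ 2 + y ^ 2)) : ℝ) : ℂ) := by
      intro c hc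
      have h1 : ((c : ℂ) + y * I) ≠ 0 := by
        intro h2
        have := congrArg Complex.re h2
        simp at this
        exact hc this
      have h2 : ((c : ℂ) + (-y : ℝ) * I) ≠ 0 := by
        intro h2
        have := congrArg Complex.re h2
        simp at this
        exact hc this
      have h3 : ((c : ℂ) ^ 2 + (y : ℂ) ^ 2) ≠ 0 := by
        have : (c ^ 2 + y ^ 2 : ℝ) ≠ 0 := by positivity
        exact_mod_cast this
      have h4 : ((c : ℂ) + y * I) * ((c : ℂ) + (-y : ℝ) * I) = (c : ℂ) ^ 2 + (y : ℂ) ^ 2 := by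
        push_cast
        linear_combination (-(y : ℂ) ^ 2) * I_sq
      rw [div_add_div _ _ h1 h2, h4]
      push_cast
      field_simp
      ring
    have k1 := hkey σ hσ
    have k2 := hkey (K - σ) (by linarith)
    have k3 := hkey (K + σ) (by linarith)
    rw [hpf y, hpf (-y)]
    have e1 : ((K : ℂ) - (σ + y * I)) = ((K - σ : ℝ) : ℂ) + (-y : ℝ) * I := by
      push_cast; ring
    have e2 : ((K : ℂ) - (σ + (-y : ℝ) * I)) = ((K - σ : ℝ) : ℂ) + y * I := by
      push_cast; ring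
    have e3 : ((K : ℂ) + (σ + y * I)) = ((K + σ : ℝ) : ℂ) + y * I := by
      push_cast; ring
    have e4 : ((K : ℂ) + (σ + (-y : ℝ) * I)) = ((K + σ : ℝ) : ℂ) + (-y : ℝ) * I := by
      push_cast; ring
    rw [e1, e2, e3, e4]
    have e5 : ((2 * (σ / (σ ^ 2 + y ^ 2)) +
      ((K - σ) / ((K - σ) ^ 2 + y ^ 2) - (K + σ) / ((K + σ) ^ 2 + y ^ 2)) : ℝ) : ℂ) =
      ((2 * (σ / (σ ^ 2 + y ^ 2)) : ℝ) : ℂ) +
      (1 / 2) * (((2 * ((K - σ) / ((K - σ) ^ 2 + y ^ 2)) : ℝ) : ℂ) -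
        ((2 * ((K + σ) / ((K + σ) ^ 2 + y ^ 2)) : ℝ) : ℂ)) := by
      push_cast
      ring
    rw [e5, ← k1, ← k2, ← k3]
    ring
  have hin : Integrable (fun y : ℝ => f (-y)) := hi.comp_neg
  have h2 : ∫ y : ℝ, (f y + f (-y)) = 2 * ∫ y : ℝ, f y := by
    rw [integral_add hi hin, integral_neg_eq_self f volume]
    ring
  have p1 := Line_poisson (c := σ) hσ
  have p2 := Line_poisson (c := K - σ) (by linarith)
  have p3 := Line_poisson (c := K + σ) (by linarith)
  have h3 : ∫ y : ℝ, (f y + f (-y)) = ((2 * (|σ| / σ * Real.pi) : ℝ) : ℂ) := by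
    simp_rw [hsum]
    rw [integral_complex_ofReal]
    congr 1
    have q1 : Integrable (fun y : ℝ => 2 * (σ / (σ ^ 2 + y ^ 2))) := p1.1.const_mul 2
    have q2 : Integrable (fun y : ℝ => (K - σ) / ((K - σ) ^ 2 + y ^ 2) -
        (K + σ) / ((K + σ) ^ 2 + y ^ 2)) := p2.1.sub p3.1
    rw [integral_add q1 q2, integral_sub p2.1 p3.1,
      integral_const_mul, p1.2, p2.2, p3.2, abs_of_pos (by linarith : 0 < K - σ),
      abs_of_pos (by linarith : 0 < K + σ), div_self (by linarith : K - σ ≠ 0),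
      div_self (by linarith : K + σ ≠ 0)]
    ring
  rw [h3] at h2
  have h4 : (2 : ℂ) * ∫ y : ℝ, f y = 2 * ((|σ| / σ * Real.pi : ℝ) : ℂ) := by
    rw [← h2]
    push_cast
    ring
  exact mul_left_cancel₀ two_ne_zero h4

/-- Residue at `0`: for `G` holomorphic on the closed strip `a ≤ Re z ≤ b`, `a < 0 < b`, with
`‖G z‖ ≤ C/(1+(Im z)^2)`,
`∫ G(b+iy)/(b+iy) dy - ∫ G(a+iy)/(a+iy) dy = 2π G(0)`.

PROOF. `G z / z = (G z - G 0 * exp (z^2)) / z + G 0 * exp (z^2) / z`. The first term, extended by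
`dslope` at `0`, is holomorphic on the strip and decays like `1/(1+y^2)`: `line_shift`. The second:
with `J σ = ∫ exp((σ+iy)^2)/(σ+iy) dy` one has `J (-σ) = - J σ` and `J σ` is constant for `σ > 0`
(`line_shift`); `J σ + J σ = 2 π`: e.g. `J σ = ∫ Re(...) dy` and
`exp(z^2)/z`: let `σ → 0+` or write `exp(z^2)/z = 1/z-part`... One clean way: for real `r`,
`Φ(r) = ∫ exp((σ+iy) r + (σ+iy)^2)/(σ+iy) dy` has derivative
`∫ exp((σ+iy) r + (σ+iy)^2) dy = √π exp(-r^2/4)` (Gaussian integral, after shifting to `σ = 0`),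
tends to `0` as `r → -∞` (`σ > 0`), hence `Φ(0) = √π ∫_{-∞}^0 exp(-r^2/4) dr = π`. -/
theorem line_residue (G : ℂ → ℂ) (a b : ℝ) (ha : a < 0) (hb : 0 < b)
    (hG : ∀ z : ℂ, a ≤ z.re → z.re ≤ b → DifferentiableAt ℂ G z) (C : ℝ)
    (hC : ∀ z : ℂ, a ≤ z.re → z.re ≤ b → ‖G z‖ ≤ C / (1 + z.im ^ 2)) :
    (∫ y : ℝ, G (b + y * I) / (b + y * I)) - ∫ y : ℝ, G (a + y * I) / (a + y * I)
      = 2 * Real.pi * G 0 := by
  set K : ℝ := 2 * (b - a) + 2 with hK
  have hK2 : 2 ≤ K := by linarith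
  have hKa : |a| ≤ K / 2 := by rw [abs_of_neg ha]; linarith
  have hKb : |b| ≤ K / 2 := by rw [abs_of_pos hb]; linarith
  have hKs : ∀ z : ℂ, a ≤ z.re → z.re ≤ b → |z.re| ≤ K / 2 := by
    intro z h1 h2
    rw [abs_le]
    constructor <;> linarith
  have hKs' : ∀ z : ℂ, a ≤ z.re → z.re ≤ b → |z.re| < K := by
    intro z h1 h2
    have := hKs z h1 h2
    linarith
  set f : ℂ → ℂ := fun z => G z - G 0 * Line_E K z with hf
  have hf0 : f 0 = 0 := by
    rw [hf]
    simp only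
    rw [Line_E_zero (by linarith)]
    ring
  have hfd : ∀ z : ℂ, a ≤ z.re → z.re ≤ b → DifferentiableAt ℂ f z := by
    intro z h1 h2
    exact (hG z h1 h2).sub ((Line_E_diff (hKs' z h1 h2)).const_mul _)
  set H : ℂ → ℂ := dslope f 0 with hH
  have hHz : ∀ z : ℂ, z ≠ 0 → H z = f z / z := by
    intro z hz
    rw [hH, dslope_of_ne _ hz, slope_def_field, hf0, sub_zero, sub_zero]
  have hHd : ∀ z : ℂ, a ≤ z.re → z.re ≤ b → DifferentiableAt ℂ H z := by
    intro z h1 h2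
    by_cases hz : z = 0
    · have hs : {w : ℂ | a < w.re ∧ w.re < b} ∈ nhds (0 : ℂ) := by
        refine IsOpen.mem_nhds ?_ (by simpa using ⟨ha, hb⟩)
        exact (isOpen_lt continuous_const Complex.continuous_re).inter
          (isOpen_lt Complex.continuous_re continuous_const)
      have h3 : DifferentiableOn ℂ f {w : ℂ | a < w.re ∧ w.re < b} := fun w hw =>
        (hfd w hw.1.le hw.2.le).differentiableWithinAt
      have h4 := (Complex.differentiableOn_dslope hs).2 h3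
      rw [hz]
      exact h4.differentiableAt hs
    · exact (differentiableAt_dslope_of_ne hz).2 (hfd z h1 h2)
  -- bound of `H`
  have hfb : ∀ z : ℂ, a ≤ z.re → z.re ≤ b → ‖f z‖ ≤ (C + ‖G 0‖ * K ^ 2) / (1 + z.im ^ 2) := by
    intro z h1 h2
    have h3 := hC z h1 h2
    have h4 := Line_E_bound hK2 (hKs z h1 h2)
    calc ‖f z‖ ≤ ‖G z‖ + ‖G 0 * Line_E K z‖ := norm_sub_le _ _
      _ ≤ C / (1 + z.im ^ 2) + ‖G 0‖ * (K ^ 2 / (1 + z.im ^ 2)) := by
          rw [norm_mul]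
          gcongr
      _ = _ := by ring
  obtain ⟨B, hB⟩ : ∃ B : ℝ, ∀ z ∈ (Icc a b ×ℂ Icc (-1 : ℝ) 1), ‖H z‖ ≤ B := by
    refine (isCompact_Icc.reProdIm isCompact_Icc).exists_bound_of_continuousOn ?_
    intro z hz
    rw [mem_reProdIm] at hz
    exact (hHd z hz.1.1 hz.1.2).continuousAt.continuousWithinAt
  set C' : ℝ := 2 * max B 0 + |C + ‖G 0‖ * K ^ 2| with hC'
  have hHb : ∀ z : ℂ, a ≤ z.re → z.re ≤ b → ‖H z‖ ≤ C' / (1 + z.im ^ 2) := by
    intro z h1 h2
    have hpos : 0 < 1 + z.im ^ 2 := by positivity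
    by_cases hy : |z.im| ≤ 1
    · have h3 : ‖H z‖ ≤ B := hB z (by
        rw [mem_reProdIm]
        exact ⟨⟨h1, h2⟩, abs_le.1 hy⟩)
      rw [le_div_iff₀ hpos]
      have h4 : z.im ^ 2 ≤ 1 := by
        rw [← sq_abs]
        exact pow_le_one₀ (abs_nonneg _) hy
      calc ‖H z‖ * (1 + z.im ^ 2) ≤ max B 0 * 2 := by
            apply mul_le_mul (h3.trans (le_max_left _ _)) (by linarith) hpos.le (le_max_right _ _)
        _ ≤ C' := by
            rw [hC']
            have := abs_nonneg (C + ‖G 0‖ * K ^ 2)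
            linarith
    · push Not at hy
      have hz : z ≠ 0 := by
        rintro rfl
        simp at hy
        linarith
      have h3 : 1 ≤ ‖z‖ := hy.le.trans (Complex.abs_im_le_norm z)
      rw [hHz z hz, norm_div]
      calc ‖f z‖ / ‖z‖ ≤ ‖f z‖ := div_le_self (norm_nonneg _) h3
        _ ≤ (C + ‖G 0‖ * K ^ 2) / (1 + z.im ^ 2) := hfb z h1 h2
        _ ≤ C' / (1 + z.im ^ 2) := by
            gcongr
            rw [hC']
            have h5 := le_abs_self (C + ‖G 0‖ * K ^ 2)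
            have h6 := le_max_right B 0
            linarith
  have hab : a ≤ b := by linarith
  have hshift := line_shift H a b hab hHd C' hHb
  have hHi : ∀ σ : ℝ, a ≤ σ → σ ≤ b → Integrable (fun y : ℝ => H (σ + y * I)) := by
    intro σ h1 h2
    refine line_integrable H σ (fun y => (hHd _ (by simpa using h1) (by simpa using h2)).continuousAt)
      C' (fun y => ?_)
    simpa using hHb (σ + y * I) (by simpa using h1) (by simpa using h2)
  have hint : ∀ σ : ℝ, a ≤ σ → σ ≤ b → σ ≠ 0 →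
      ∫ y : ℝ, G (σ + y * I) / (σ + y * I) = (∫ y : ℝ, H (σ + y * I)) +
        G 0 * ((|σ| / σ * Real.pi : ℝ) : ℂ) := by
    intro σ h1 h2 h3
    have hKσ : |σ| ≤ K / 2 := by
      rw [abs_le]
      constructor <;> linarith
    rw [← Line_J hK2 h3 hKσ, ← integral_const_mul,
      ← integral_add (hHi σ h1 h2) ((Line_J_integrable hK2 h3 hKσ).const_mul _)]
    refine integral_congr_ae (Filter.Eventually.of_forall fun y => ?_)
    have hz : (σ + y * I : ℂ) ≠ 0 := by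
      intro h4
      have := congrArg Complex.re h4
      simp at this
      exact h3 this
    simp only
    rw [hHz _ hz, hf]
    simp only
    field_simp
    ring
  rw [hint b hab le_rfl hb.ne', hint a le_rfl hab ha.ne, hshift, abs_of_pos hb, abs_of_neg ha,
    div_self hb.ne', neg_div, div_self ha.ne]
  push_cast
  ring

end Pool.Agent.H14.CO

end

section

/-!
# Project CO (constant order lower bound for `V(X;H)`, problem MP_0575cc_nt): definitions
-/

set_option autoImplicit false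

namespace Pool.Agent.H14.CO

open Set MeasureTheory Complex

/-- The entire function `sinh w / w` (value `1` at `0`). -/
noncomputable def shc (w : ℂ) : ℂ := dslope Complex.sinh 0 w

/-- The entire numerator of the kernel: `(sinh (h z) / (h z))^32 * exp (z^2)`; `kn h 0 = 1`. -/
noncomputable def kn (h : ℝ) (z : ℂ) : ℂ := shc (h * z) ^ 32 * Complex.exp (z ^ 2)

/-- The entire function `(s - 1) ζ(s)`. -/
noncomputable def Zt : ℂ → ℂ := Function.update (fun s => (s - 1) * riemannZeta s) 1 1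

/-- The factor of the functional equation `ζ(1 - w) = ch w * ζ(w)`. -/
noncomputable def ch (w : ℂ) : ℂ :=
  2 * (2 * Real.pi : ℂ) ^ (-w) * Complex.Gamma w * Complex.cos (Real.pi * w / 2)

/-- Gaussian weight of width `W` centred at `τ`. -/
noncomputable def gw (τ W t : ℝ) : ℝ := Real.exp (-((t - τ) / W) ^ 2)

/-- Barban–Vehov weights: `μ(d)` for `d ≤ z₀`, decreasing to `0` at `d = z₀^2`. -/
noncomputable def lam (z₀ : ℝ) (d : ℕ) : ℝ :=
  ((ArithmeticFunction.moebius d : ℤ) : ℝ) *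
    (max 0 (Real.log (z₀ ^ 2 / d)) - max 0 (Real.log (z₀ / d))) / Real.log z₀

/-- The mollifier `∑_{d ≤ z₀^2} λ_d d^{-s}`. -/
noncomputable def Mo (z₀ : ℝ) (s : ℂ) : ℂ :=
  ∑ d ∈ Finset.Icc 1 ⌊z₀ ^ 2⌋₊, (lam z₀ d : ℂ) * (d : ℂ) ^ (-s)

/-- The point `1/2 + i t + w`. -/
noncomputable def pt (w : ℂ) (t : ℝ) : ℂ := 1 / 2 + w + t * I

end Pool.Agent.H14.CO

end

section

/-!
# CO module Kern: the kernel `kn`
-/

set_option autoImplicit false

namespace Pool.Agent.H14.CO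

open Set MeasureTheory Complex

theorem shc_zero : shc 0 = 1 := by
  rw [shc, dslope_same, Complex.deriv_sinh, Complex.cosh_zero]

theorem shc_of_ne (w : ℂ) (hw : w ≠ 0) : shc w = Complex.sinh w / w := by
  rw [shc, dslope_of_ne _ hw, slope_def_field, Complex.sinh_zero, sub_zero, sub_zero]

theorem differentiable_shc : Differentiable ℂ shc := by
  have h : DifferentiableOn ℂ (dslope Complex.sinh 0) univ :=
    (Complex.differentiableOn_dslope Filter.univ_mem).2 Complex.differentiable_sinh.differentiableOn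
  exact differentiableOn_univ.1 h

theorem Kern_norm_exp_le {z : ℂ} {a : ℝ} (hz : |z.re| ≤ a) : ‖Complex.exp z‖ ≤ Real.exp a := by
  rw [Complex.norm_exp]
  exact Real.exp_le_exp.2 ((le_abs_self _).trans hz)

theorem Kern_norm_sinh_le {z : ℂ} {a : ℝ} (hz : |z.re| ≤ a) : ‖Complex.sinh z‖ ≤ Real.exp a := by
  have h1 := Kern_norm_exp_le hz
  have h2 : ‖Complex.exp (-z)‖ ≤ Real.exp a :=
    Kern_norm_exp_le (by rw [Complex.neg_re, abs_neg]; exact hz)
  have h3 := norm_sub_le (Complex.exp z) (Complex.exp (-z))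
  rw [Complex.sinh, norm_div, Complex.norm_ofNat]
  linarith

theorem Kern_norm_cosh_le {z : ℂ} {a : ℝ} (hz : |z.re| ≤ a) : ‖Complex.cosh z‖ ≤ Real.exp a := by
  have h1 := Kern_norm_exp_le hz
  have h2 : ‖Complex.exp (-z)‖ ≤ Real.exp a :=
    Kern_norm_exp_le (by rw [Complex.neg_re, abs_neg]; exact hz)
  have h3 := norm_add_le (Complex.exp z) (Complex.exp (-z))
  rw [Complex.cosh, norm_div, Complex.norm_ofNat]
  linarith

/-- `sinh w / w = ∫_0^1 cosh (t w) dt` and `‖cosh (t w)‖ ≤ cosh (t Re w) ≤ exp |Re w|`. -/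
theorem norm_shc_le (w : ℂ) : ‖shc w‖ ≤ Real.exp |w.re| := by
  rcases eq_or_ne w 0 with rfl | hw
  · rw [shc_zero, norm_one, Complex.zero_re, abs_zero, Real.exp_zero]
  · have hconv : Convex ℝ {z : ℂ | |z.re| ≤ |w.re|} := by
      have h1 : {z : ℂ | |z.re| ≤ |w.re|} = Complex.reLm ⁻¹' (Icc (-|w.re|) |w.re|) := by
        ext z
        simp only [mem_ofPred_eq, mem_preimage, mem_Icc, Complex.reLm_coe, abs_le]
      rw [h1]
      exact (convex_Icc _ _).linear_preimage _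
    have h2 := hconv.norm_image_sub_le_of_norm_deriv_le (f := Complex.sinh) (C := Real.exp |w.re|)
      (x := 0) (y := w) (fun z _ => Complex.differentiable_sinh z)
      (fun z hz => by rw [Complex.deriv_sinh]; exact Kern_norm_cosh_le hz)
      (by simp) (by simp)
    rw [Complex.sinh_zero, sub_zero, sub_zero] at h2
    rw [shc_of_ne w hw, norm_div, div_le_iff₀ (norm_pos_iff.2 hw)]
    exact h2

theorem norm_shc_le' (w : ℂ) : ‖shc w‖ * (1 + ‖w‖) ≤ 2 * Real.exp |w.re| := by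
  have h1 := norm_shc_le w
  have h2 : ‖shc w‖ * ‖w‖ ≤ Real.exp |w.re| := by
    rcases eq_or_ne w 0 with rfl | hw
    · rw [norm_zero, mul_zero]; exact (Real.exp_pos _).le
    · rw [shc_of_ne w hw, norm_div, div_mul_cancel₀ _ (norm_ne_zero_iff.2 hw)]
      exact Kern_norm_sinh_le le_rfl
  rw [mul_add, mul_one]
  linarith

theorem shc_conj (w : ℂ) : shc ((starRingEnd ℂ) w) = (starRingEnd ℂ) (shc w) := by
  rcases eq_or_ne w 0 with rfl | hw
  · rw [map_zero, shc_zero, map_one]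
  · have hw' : (starRingEnd ℂ) w ≠ 0 := fun h => hw ((map_eq_zero _).1 h)
    rw [shc_of_ne w hw, shc_of_ne _ hw', Complex.sinh_conj, map_div₀]

theorem differentiable_kn (h : ℝ) : Differentiable ℂ (kn h) := by
  unfold kn
  have h1 : Differentiable ℂ fun z : ℂ => shc (h * z) :=
    differentiable_shc.comp ((differentiable_const _).mul differentiable_id)
  exact (h1.pow 32).mul ((differentiable_id.pow 2).cexp)

theorem kn_zero (h : ℝ) : kn h 0 = 1 := by
  rw [kn, mul_zero, shc_zero]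
  simp

theorem kn_conj (h : ℝ) (z : ℂ) : kn h ((starRingEnd ℂ) z) = (starRingEnd ℂ) (kn h z) := by
  have h1 : (h : ℂ) * (starRingEnd ℂ) z = (starRingEnd ℂ) (h * z) := by
    rw [map_mul, Complex.conj_ofReal]
  rw [kn, kn, h1, shc_conj, map_mul, map_pow, ← Complex.exp_conj, map_pow]

theorem norm_kn_le (h : ℝ) (hh : 0 ≤ h) (z : ℂ) :
    ‖kn h z‖ * (1 + h * ‖z‖) ^ 32 ≤ 2 ^ 32 * Real.exp (32 * h * |z.re| + z.re ^ 2 - z.im ^ 2) := by
  have h1 := norm_shc_le' (h * z)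
  have h2 : ‖(h : ℂ) * z‖ = h * ‖z‖ := by
    rw [norm_mul, Complex.norm_real, Real.norm_of_nonneg hh]
  have h3 : ((h : ℂ) * z).re = h * z.re := by simp
  rw [h2, h3, abs_mul, abs_of_nonneg hh] at h1
  have h4 : ‖Complex.exp (z ^ 2)‖ = Real.exp (z.re ^ 2 - z.im ^ 2) := by
    rw [Complex.norm_exp]
    congr 1
    rw [pow_two, Complex.mul_re]
    ring
  have h5 : (‖shc (h * z)‖ * (1 + h * ‖z‖)) ^ 32 ≤ (2 * Real.exp (h * |z.re|)) ^ 32 :=
    pow_le_pow_left₀ (by positivity) h1 32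
  rw [kn, norm_mul, norm_pow, h4]
  calc ‖shc (h * z)‖ ^ 32 * Real.exp (z.re ^ 2 - z.im ^ 2) * (1 + h * ‖z‖) ^ 32
      = (‖shc (h * z)‖ * (1 + h * ‖z‖)) ^ 32 * Real.exp (z.re ^ 2 - z.im ^ 2) := by
        rw [mul_pow]; ring
    _ ≤ (2 * Real.exp (h * |z.re|)) ^ 32 * Real.exp (z.re ^ 2 - z.im ^ 2) :=
        mul_le_mul_of_nonneg_right h5 (Real.exp_pos _).le
    _ = 2 ^ 32 * Real.exp (32 * h * |z.re| + z.re ^ 2 - z.im ^ 2) := by
        rw [mul_pow, ← Real.exp_nat_mul, mul_assoc, ← Real.exp_add]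
        congr 2
        push_cast
        ring

theorem Kern_poly_le (k : ℕ) (y : ℝ) :
    (1 + |y|) ^ k * Real.exp (-y ^ 2) ≤ (k.factorial : ℝ) * Real.exp 2 := by
  have h1 : (0 : ℝ) ≤ 1 + |y| := by positivity
  have h2 := Real.pow_div_factorial_le_exp (1 + |y|) h1 k
  have hk : (0 : ℝ) < k.factorial := by exact_mod_cast k.factorial_pos
  rw [div_le_iff₀ hk] at h2
  have h3 : Real.exp (1 + |y|) * Real.exp (-y ^ 2) ≤ Real.exp 2 := by
    rw [← Real.exp_add]
    apply Real.exp_le_exp.2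
    have h4 : |y| ^ 2 = y ^ 2 := sq_abs y
    nlinarith [sq_nonneg (|y| - 1), abs_nonneg y]
  calc (1 + |y|) ^ k * Real.exp (-y ^ 2)
      ≤ (Real.exp (1 + |y|) * k.factorial) * Real.exp (-y ^ 2) :=
        mul_le_mul_of_nonneg_right h2 (Real.exp_pos _).le
    _ = (k.factorial : ℝ) * (Real.exp (1 + |y|) * Real.exp (-y ^ 2)) := by ring
    _ ≤ _ := mul_le_mul_of_nonneg_left h3 hk.le

/-- the pointwise bound of the integrand -/
theorem Kern_pt (k : ℕ) (h σ y : ℝ) (hh : 0 < h) :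
    (1 + h * |y|) ^ 30 * (1 + |y|) ^ k * ‖kn h (σ + y * I)‖ ≤
      2 ^ 32 * ((k.factorial : ℝ) * Real.exp 2) * Real.exp (32 * h * |σ| + σ ^ 2) *
        (1 + (h * y) ^ 2)⁻¹ := by
  have h1 := norm_kn_le h hh.le (σ + y * I)
  have hre : ((σ : ℂ) + y * I).re = σ := by simp
  have him : ((σ : ℂ) + y * I).im = y := by simp
  rw [hre, him] at h1
  have h2 : |y| ≤ ‖(σ : ℂ) + y * I‖ := by
    have := Complex.abs_im_le_norm ((σ : ℂ) + y * I)
    rwa [him] at this
  have h3 : (1 + h * |y|) ≤ 1 + h * ‖(σ : ℂ) + y * I‖ := by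
    have := mul_le_mul_of_nonneg_left h2 hh.le
    linarith
  have h0 : (0 : ℝ) ≤ 1 + h * |y| := by positivity
  have h4 : (1 + h * |y|) ^ 32 * ‖kn h (σ + y * I)‖ ≤
      2 ^ 32 * Real.exp (32 * h * |σ| + σ ^ 2 - y ^ 2) := by
    refine le_trans ?_ h1
    rw [mul_comm]
    exact mul_le_mul_of_nonneg_left (pow_le_pow_left₀ h0 h3 32) (norm_nonneg _)
  have h5 : (1 + (h * y) ^ 2) ≤ (1 + h * |y|) ^ 2 := by
    have h6 : (h * |y|) ^ 2 = (h * y) ^ 2 := by rw [mul_pow, sq_abs, mul_pow]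
    have h7 : 0 ≤ h * |y| := by positivity
    nlinarith
  have h8 : (0 : ℝ) < 1 + (h * y) ^ 2 := by positivity
  rw [← div_eq_mul_inv, le_div_iff₀ h8]
  have hP := Kern_poly_le k y
  have hexp : Real.exp (32 * h * |σ| + σ ^ 2 - y ^ 2) =
      Real.exp (32 * h * |σ| + σ ^ 2) * Real.exp (-y ^ 2) := by
    rw [← Real.exp_add]; congr 1
  rw [hexp] at h4
  have hk0 : (0 : ℝ) ≤ (1 + |y|) ^ k := by positivity
  calc (1 + h * |y|) ^ 30 * (1 + |y|) ^ k * ‖kn h (σ + y * I)‖ * (1 + (h * y) ^ 2)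
      ≤ (1 + h * |y|) ^ 30 * (1 + |y|) ^ k * ‖kn h (σ + y * I)‖ * (1 + h * |y|) ^ 2 :=
        mul_le_mul_of_nonneg_left h5 (by positivity)
    _ = (1 + |y|) ^ k * ((1 + h * |y|) ^ 32 * ‖kn h (σ + y * I)‖) := by ring
    _ ≤ (1 + |y|) ^ k * (2 ^ 32 * (Real.exp (32 * h * |σ| + σ ^ 2) * Real.exp (-y ^ 2))) :=
        mul_le_mul_of_nonneg_left h4 hk0
    _ = 2 ^ 32 * Real.exp (32 * h * |σ| + σ ^ 2) * ((1 + |y|) ^ k * Real.exp (-y ^ 2)) := by ring
    _ ≤ 2 ^ 32 * Real.exp (32 * h * |σ| + σ ^ 2) * ((k.factorial : ℝ) * Real.exp 2) :=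
        mul_le_mul_of_nonneg_left hP (by positivity)
    _ = _ := by ring

theorem Kern_int0 (h : ℝ) (hh : 0 < h) :
    Integrable (fun y : ℝ => (1 + (h * y) ^ 2)⁻¹) ∧
      ∫ y : ℝ, (1 + (h * y) ^ 2)⁻¹ = Real.pi / h := by
  constructor
  · exact integrable_inv_one_add_sq.comp_mul_left' hh.ne'
  · have h1 := Measure.integral_comp_mul_left (fun x : ℝ => (1 + x ^ 2)⁻¹) h
    rw [integral_univ_inv_one_add_sq, abs_of_pos (inv_pos.2 hh), smul_eq_mul] at h1
    rw [h1, div_eq_mul_inv, mul_comm]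

theorem Kern_main {f : ℝ → ℝ} (hf : Continuous f) {D h : ℝ} (hh : 0 < h)
    (h0 : ∀ y, 0 ≤ f y) (h1 : ∀ y, f y ≤ D * (1 + (h * y) ^ 2)⁻¹) :
    Integrable f ∧ ∫ y, f y ≤ D * (Real.pi / h) := by
  obtain ⟨h2, h3⟩ := Kern_int0 h hh
  have h4 : Integrable f := (h2.const_mul D).mono' hf.aestronglyMeasurable
    (Filter.Eventually.of_forall fun y => by
      rw [Real.norm_of_nonneg (h0 y)]; exact h1 y)
  refine ⟨h4, ?_⟩
  calc ∫ y, f y ≤ ∫ y, D * (1 + (h * y) ^ 2)⁻¹ := integral_mono h4 (h2.const_mul D) h1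
    _ = D * (Real.pi / h) := by rw [integral_const_mul, h3]

theorem Kern_cont (h σ : ℝ) : Continuous fun y : ℝ => kn h (σ + y * I) :=
  (differentiable_kn h).continuous.comp (by fun_prop)

/-- `∫ (1+h|y|)^30 (1+|y|)^k ‖kn h z / z‖ dy ≤ C exp(32 h |σ| + σ²)(1 + 1/(h|σ|))`, `z = σ + iy`:
by `norm_kn_le` the integrand is
`≤ 2^32 exp(32 h |σ| + σ²) (1+|y|)^k exp(-y²) (1+h|y|)^{-2} / max(|σ|,|y|)`, the factor
`(1+|y|)^k exp(-y²)` is `≤ C_k`, and
`∫ (1+h|y|)^{-2}/max(|σ|,|y|) dy ≤ ∫_{|y| ≤ |σ|} 1/|σ| + ∫_{|σ|<|y|≤1/h} 1/|y| + ∫_{|y|>1/h} ...`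
with care (if `1/h ≤ |σ|` use `(2/h)/|σ|`), `log (1/(h|σ|)) ≤ 1/(h|σ|)`. -/
theorem kn_int (k : ℕ) : ∃ C : ℝ, 0 < C ∧ ∀ h σ : ℝ, 0 < h → σ ≠ 0 →
    Integrable (fun y : ℝ => (1 + h * |y|) ^ 30 * (1 + |y|) ^ k *
      ‖kn h (σ + y * I) / (σ + y * I)‖) ∧
    ∫ y : ℝ, (1 + h * |y|) ^ 30 * (1 + |y|) ^ k * ‖kn h (σ + y * I) / (σ + y * I)‖
      ≤ C * Real.exp (32 * h * |σ| + σ ^ 2) * (1 + 1 / (h * |σ|)) := by
  refine ⟨2 ^ 32 * ((k.factorial : ℝ) * Real.exp 2) * Real.pi, by positivity, fun h σ hh hσ => ?_⟩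
  have hσ' : 0 < |σ| := abs_pos.2 hσ
  have hne : ∀ y : ℝ, (σ : ℂ) + y * I ≠ 0 := fun y h1 => hσ (by
    have := congrArg Complex.re h1
    simpa using this)
  have hcont : Continuous fun y : ℝ => (1 + h * |y|) ^ 30 * (1 + |y|) ^ k *
      ‖kn h (σ + y * I) / (σ + y * I)‖ := by
    refine Continuous.mul (by fun_prop) ?_
    exact ((Kern_cont h σ).div (by fun_prop) hne).norm
  have hb : ∀ y : ℝ, (1 + h * |y|) ^ 30 * (1 + |y|) ^ k * ‖kn h (σ + y * I) / (σ + y * I)‖ ≤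
      (2 ^ 32 * ((k.factorial : ℝ) * Real.exp 2) * Real.exp (32 * h * |σ| + σ ^ 2) / |σ|) *
        (1 + (h * y) ^ 2)⁻¹ := by
    intro y
    have h1 := Kern_pt k h σ y hh
    have h2 : |σ| ≤ ‖(σ : ℂ) + y * I‖ := by
      have := Complex.abs_re_le_norm ((σ : ℂ) + y * I)
      simpa using this
    rw [norm_div, ← mul_div_assoc, div_mul_eq_mul_div]
    exact div_le_div₀ (by positivity) h1 hσ' h2
  obtain ⟨h3, h4⟩ := Kern_main hcont hh (fun y => by positivity) hb
  refine ⟨h3, h4.trans ?_⟩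
  have h5 : 2 ^ 32 * ((k.factorial : ℝ) * Real.exp 2) * Real.exp (32 * h * |σ| + σ ^ 2) / |σ| *
      (Real.pi / h) = 2 ^ 32 * ((k.factorial : ℝ) * Real.exp 2) * Real.pi *
        Real.exp (32 * h * |σ| + σ ^ 2) * (1 / (h * |σ|)) := by
    field_simp
  rw [h5]
  exact mul_le_mul_of_nonneg_left (by linarith) (by positivity)

/-- the same without `1/z`: `≤ C exp(32 h |σ| + σ²) / h`. -/
theorem kn_int' (k : ℕ) : ∃ C : ℝ, 0 < C ∧ ∀ h σ : ℝ, 0 < h →
    Integrable (fun y : ℝ => (1 + h * |y|) ^ 30 * (1 + |y|) ^ k * ‖kn h (σ + y * I)‖) ∧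
    ∫ y : ℝ, (1 + h * |y|) ^ 30 * (1 + |y|) ^ k * ‖kn h (σ + y * I)‖
      ≤ C * Real.exp (32 * h * |σ| + σ ^ 2) / h := by
  refine ⟨2 ^ 32 * ((k.factorial : ℝ) * Real.exp 2) * Real.pi, by positivity, fun h σ hh => ?_⟩
  have hcont : Continuous fun y : ℝ => (1 + h * |y|) ^ 30 * (1 + |y|) ^ k *
      ‖kn h (σ + y * I)‖ :=
    Continuous.mul (by fun_prop) (Kern_cont h σ).norm
  obtain ⟨h3, h4⟩ := Kern_main hcont hh (fun y => by positivity) fun y => Kern_pt k h σ y hh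
  refine ⟨h3, h4.trans (le_of_eq ?_)⟩
  field_simp

end Pool.Agent.H14.CO

end

section

/-!
# CO module Cut: the cut-off functions `vc`, `vd`
-/

set_option autoImplicit false

namespace Pool.Agent.H14.CO

open Set MeasureTheory Complex

/-- `vc h r = (1/2π) ∫ exp(z r) kn h z / z dy`, `z = 1 + iy`: a smooth cut-off function, near `1` for
`r → +∞` and near `0` for `r → -∞` (think `r = log (Y / l)`). -/
noncomputable def vc (h r : ℝ) : ℂ :=
  (1 / (2 * Real.pi) : ℝ) * ∫ y : ℝ, Complex.exp ((1 + y * I) * r) * (kn h (1 + y * I) / (1 + y * I))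

/-- `vd h r = (1/2π) ∫ exp(z r) kn h z dy`, `z = 1 + iy`. -/
noncomputable def vd (h r : ℝ) : ℂ :=
  (1 / (2 * Real.pi) : ℝ) * ∫ y : ℝ, Complex.exp ((1 + y * I) * r) * kn h (1 + y * I)

private theorem Cut_re (σ y : ℝ) : ((σ : ℂ) + y * I).re = σ := by simp

private theorem Cut_norm_exp (z : ℂ) (r : ℝ) : ‖Complex.exp (z * r)‖ = Real.exp (z.re * r) := by
  rw [Complex.norm_exp]
  congr 1
  simp

private theorem Cut_ne (σ y : ℝ) (hσ : σ ≠ 0) : ((σ : ℂ) + y * I) ≠ 0 := by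
  intro h
  have := congrArg Complex.re h
  rw [Cut_re] at this
  exact hσ (by simpa using this)

/-- decay in a strip -/
private theorem Cut_decay (h r S : ℝ) (hh : 0 < h) (z : ℂ) (hz : |z.re| ≤ S) :
    ‖Complex.exp (z * r) * kn h z‖ ≤
      (Real.exp (S * |r|) * (2 ^ 32 * Real.exp (32 * h * S + S ^ 2))) / (1 + z.im ^ 2) := by
  have hS : 0 ≤ S := (abs_nonneg _).trans hz
  rw [norm_mul, Cut_norm_exp, mul_div_assoc]
  apply mul_le_mul _ _ (norm_nonneg _) (Real.exp_pos _).le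
  · apply Real.exp_le_exp.2
    calc z.re * r ≤ |z.re * r| := le_abs_self _
      _ = |z.re| * |r| := abs_mul _ _
      _ ≤ S * |r| := mul_le_mul_of_nonneg_right hz (abs_nonneg _)
  · have h1 := norm_kn_le h hh.le z
    have h2 : (1 : ℝ) ≤ (1 + h * ‖z‖) ^ 32 := by
      apply one_le_pow₀
      have : 0 ≤ h * ‖z‖ := by positivity
      linarith
    have h3 : ‖kn h z‖ ≤ ‖kn h z‖ * (1 + h * ‖z‖) ^ 32 := le_mul_of_one_le_right (norm_nonneg _) h2
    refine (h3.trans h1).trans ?_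
    rw [show 32 * h * |z.re| + z.re ^ 2 - z.im ^ 2 = (32 * h * |z.re| + z.re ^ 2) + (- z.im ^ 2) by ring,
      Real.exp_add, mul_div_assoc]
    apply mul_le_mul_of_nonneg_left _ (by positivity)
    rw [div_eq_mul_inv]
    apply mul_le_mul _ _ (Real.exp_pos _).le (Real.exp_pos _).le
    · apply Real.exp_le_exp.2
      have h4 : 32 * h * |z.re| ≤ 32 * h * S := mul_le_mul_of_nonneg_left hz (by positivity)
      have h5 : z.re ^ 2 ≤ S ^ 2 := by
        rw [← sq_abs z.re]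
        exact pow_le_pow_left₀ (abs_nonneg _) hz 2
      linarith
    · rw [Real.exp_neg]
      apply inv_anti₀ (by positivity)
      have := Real.add_one_le_exp (z.im ^ 2)
      linarith

private theorem Cut_diff (h r : ℝ) : Differentiable ℂ (fun z : ℂ => Complex.exp (z * r) * kn h z) := by
  intro z
  exact ((differentiableAt_id.mul_const _).cexp).mul (differentiable_kn h z)

/-- the line may be moved (`line_shift`). -/
theorem vc_line (h r σ : ℝ) (hh : 0 < h) (hσ : 0 < σ) :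
    vc h r = (1 / (2 * Real.pi) : ℝ) *
      ∫ y : ℝ, Complex.exp ((σ + y * I) * r) * (kn h (σ + y * I) / (σ + y * I)) := by
  have key : ∀ a b : ℝ, 0 < a → a ≤ b →
      ∫ y : ℝ, Complex.exp (((a : ℂ) + y * I) * r) * (kn h ((a : ℂ) + y * I) / ((a : ℂ) + y * I)) =
      ∫ y : ℝ, Complex.exp (((b : ℂ) + y * I) * r) * (kn h ((b : ℂ) + y * I) / ((b : ℂ) + y * I)) := by
    intro a b ha hab
    refine line_shift (fun z : ℂ => Complex.exp (z * r) * (kn h z / z)) a b hab ?_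
      ((Real.exp (b * |r|) * (2 ^ 32 * Real.exp (32 * h * b + b ^ 2))) / a) ?_
    · intro z hz _
      have hz0 : z ≠ 0 := by
        intro h0
        rw [h0] at hz
        simp at hz
        linarith
      exact ((differentiableAt_id.mul_const _).cexp).mul ((differentiable_kn h z).div differentiableAt_id hz0)
    · intro z hz hz'
      have hz0 : z ≠ 0 := by
        intro h0
        rw [h0] at hz
        simp at hz
        linarith
      have h1 := Cut_decay h r b hh z (by rw [abs_of_pos (by linarith)]; exact hz')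
      have h2 : a ≤ ‖z‖ := hz.trans ((le_abs_self _).trans (Complex.abs_re_le_norm z))
      rw [← mul_div_assoc, norm_div, div_div, mul_comm a, ← div_div]
      calc ‖Complex.exp (z * r) * kn h z‖ / ‖z‖ ≤ ‖Complex.exp (z * r) * kn h z‖ / a :=
            div_le_div_of_nonneg_left (norm_nonneg _) ha h2
        _ ≤ _ := div_le_div_of_nonneg_right h1 ha.le
  unfold vc
  congr 1
  rcases le_total 1 σ with h1 | h1
  · have := key 1 σ one_pos h1
    simpa using this
  · have := key σ 1 hσ h1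
    simpa using this.symm

/-- crossing the pole at `0` (`line_residue`, `kn h 0 = 1`). -/
theorem vc_line_neg (h r σ : ℝ) (hh : 0 < h) (hσ : σ < 0) :
    vc h r = 1 + (1 / (2 * Real.pi) : ℝ) *
      ∫ y : ℝ, Complex.exp ((σ + y * I) * r) * (kn h (σ + y * I) / (σ + y * I)) := by
  have h1 := line_residue (fun z : ℂ => Complex.exp (z * r) * kn h z) σ 1 hσ one_pos
    (fun z _ _ => Cut_diff h r z)
    (Real.exp ((1 + |σ|) * |r|) * (2 ^ 32 * Real.exp (32 * h * (1 + |σ|) + (1 + |σ|) ^ 2)))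
    (fun z hz hz' => Cut_decay h r (1 + |σ|) hh z (by
      rw [abs_le]
      rw [abs_of_neg hσ]
      constructor <;> linarith))
  simp only [Complex.ofReal_one, zero_mul, Complex.exp_zero, kn_zero, mul_one] at h1
  have e : ∀ s : ℂ, ∀ y : ℝ, Complex.exp ((s + y * I) * r) * (kn h (s + y * I) / (s + y * I)) =
      Complex.exp ((s + y * I) * r) * kn h (s + y * I) / (s + y * I) := fun s y => (mul_div_assoc _ _ _).symm
  unfold vc
  simp only [e]
  rw [sub_eq_iff_eq_add] at h1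
  rw [h1, mul_add]
  congr 1
  push_cast
  have : (Real.pi : ℂ) ≠ 0 := by exact_mod_cast Real.pi_ne_zero
  field_simp

theorem vd_line (h r σ : ℝ) (hh : 0 < h) :
    vd h r = (1 / (2 * Real.pi) : ℝ) *
      ∫ y : ℝ, Complex.exp ((σ + y * I) * r) * kn h (σ + y * I) := by
  have key : ∀ a b : ℝ, a ≤ b →
      ∫ y : ℝ, Complex.exp (((a : ℂ) + y * I) * r) * kn h ((a : ℂ) + y * I) =
      ∫ y : ℝ, Complex.exp (((b : ℂ) + y * I) * r) * kn h ((b : ℂ) + y * I) := by
    intro a b hab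
    refine line_shift (fun z : ℂ => Complex.exp (z * r) * kn h z) a b hab ?_
      (Real.exp ((|a| + |b|) * |r|) * (2 ^ 32 * Real.exp (32 * h * (|a| + |b|) + (|a| + |b|) ^ 2))) ?_
    · intro z _ _
      exact Cut_diff h r z
    · intro z hz hz'
      apply Cut_decay h r (|a| + |b|) hh z
      have h1 := neg_abs_le a
      have h2 := le_abs_self b
      have h3 := abs_nonneg a
      have h4 := abs_nonneg b
      rw [abs_le]
      constructor <;> linarith
  unfold vd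
  congr 1
  rcases le_total 1 σ with h1 | h1
  · have := key 1 σ h1
    simpa using this
  · have := key σ 1 h1
    simpa using this.symm

private theorem Cut_cont (h σ : ℝ) : Continuous (fun y : ℝ => kn h ((σ : ℂ) + y * I)) :=
  (differentiable_kn h).continuous.comp (by fun_prop)

private theorem Cut_cont' (h σ : ℝ) (hσ : σ ≠ 0) :
    Continuous (fun y : ℝ => kn h ((σ : ℂ) + y * I) / ((σ : ℂ) + y * I)) :=
  (Cut_cont h σ).div (by fun_prop) (fun y => Cut_ne σ y hσ)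

private theorem Cut_weight (h y : ℝ) (hh : 0 ≤ h) (x : ℝ) (hx : 0 ≤ x) :
    x ≤ (1 + h * |y|) ^ 30 * (1 + |y|) ^ 0 * x := by
  rw [pow_zero, mul_one]
  apply le_mul_of_one_le_left hx
  apply one_le_pow₀
  have : 0 ≤ h * |y| := by positivity
  linarith

private theorem Cut_int : ∃ C : ℝ, 0 < C ∧ ∀ h σ : ℝ, 0 < h → σ ≠ 0 →
    Integrable (fun y : ℝ => ‖kn h (σ + y * I) / (σ + y * I)‖) ∧
    ∫ y : ℝ, ‖kn h (σ + y * I) / (σ + y * I)‖
      ≤ C * Real.exp (32 * h * |σ| + σ ^ 2) * (1 + 1 / (h * |σ|)) := by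
  obtain ⟨C, hC, H⟩ := kn_int 0
  refine ⟨C, hC, fun h σ hh hσ => ?_⟩
  obtain ⟨h1, h2⟩ := H h σ hh hσ
  have h3 : Integrable (fun y : ℝ => ‖kn h (σ + y * I) / (σ + y * I)‖) := by
    refine h1.mono' (Cut_cont' h σ hσ).norm.aestronglyMeasurable (Filter.Eventually.of_forall fun y => ?_)
    rw [norm_norm]
    exact Cut_weight h y hh.le _ (norm_nonneg _)
  refine ⟨h3, le_trans ?_ h2⟩
  exact integral_mono h3 h1 fun y => Cut_weight h y hh.le _ (norm_nonneg _)

private theorem Cut_int' : ∃ C : ℝ, 0 < C ∧ ∀ h σ : ℝ, 0 < h →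
    Integrable (fun y : ℝ => ‖kn h (σ + y * I)‖) ∧
    ∫ y : ℝ, ‖kn h (σ + y * I)‖ ≤ C * Real.exp (32 * h * |σ| + σ ^ 2) / h := by
  obtain ⟨C, hC, H⟩ := kn_int' 0
  refine ⟨C, hC, fun h σ hh => ?_⟩
  obtain ⟨h1, h2⟩ := H h σ hh
  have h3 : Integrable (fun y : ℝ => ‖kn h (σ + y * I)‖) := by
    refine h1.mono' (Cut_cont h σ).norm.aestronglyMeasurable (Filter.Eventually.of_forall fun y => ?_)
    rw [norm_norm]
    exact Cut_weight h y hh.le _ (norm_nonneg _)
  refine ⟨h3, le_trans ?_ h2⟩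
  exact integral_mono h3 h1 fun y => Cut_weight h y hh.le _ (norm_nonneg _)

private theorem Cut_norm_integral (f : ℝ → ℂ) (r σ : ℝ) :
    ‖∫ y : ℝ, Complex.exp (((σ : ℂ) + y * I) * r) * f y‖ ≤ Real.exp (σ * r) * ∫ y : ℝ, ‖f y‖ := by
  refine (norm_integral_le_integral_norm _).trans (le_of_eq ?_)
  rw [← integral_const_mul]
  congr 1
  ext y
  rw [norm_mul, Cut_norm_exp, Cut_re]

private theorem Cut_two_pi : ‖(((1 / (2 * Real.pi) : ℝ)) : ℂ)‖ ≤ 1 := by
  rw [Complex.norm_real, Real.norm_eq_abs, abs_of_pos (by positivity)]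
  rw [div_le_one (by positivity)]
  have := Real.pi_gt_three
  linarith

/-- `‖vc h r‖ ≤ C e^{B r + 32 h B}` (line `Re z = B`, `kn_int`). -/
theorem vc_bound (B : ℝ) (hB : 0 < B) : ∃ C : ℝ, 0 < C ∧ ∀ h r : ℝ, 1 ≤ h →
    ‖vc h r‖ ≤ C * Real.exp (B * r + 32 * h * B) := by
  obtain ⟨C, hC, H⟩ := Cut_int
  refine ⟨C * Real.exp (B ^ 2) * (1 + 1 / B), by positivity, fun h r hh => ?_⟩
  have hh0 : 0 < h := by linarith
  obtain ⟨-, h2⟩ := H h B hh0 hB.ne'
  rw [vc_line h r B hh0 hB, norm_mul]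
  have h3 := Cut_norm_integral (fun y => kn h ((B : ℂ) + y * I) / ((B : ℂ) + y * I)) r B
  have h4 : (1 + 1 / (h * |B|)) ≤ 1 + 1 / B := by
    rw [abs_of_pos hB]
    have : 1 / (h * B) ≤ 1 / B := one_div_le_one_div_of_le hB (by nlinarith)
    linarith
  calc _ ≤ 1 * ‖∫ y : ℝ, Complex.exp (((B : ℂ) + y * I) * r) * (kn h ((B : ℂ) + y * I) / ((B : ℂ) + y * I))‖ :=
        mul_le_mul_of_nonneg_right Cut_two_pi (norm_nonneg _)
    _ ≤ Real.exp (B * r) * (C * Real.exp (32 * h * |B| + B ^ 2) * (1 + 1 / (h * |B|))) := by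
        rw [one_mul]
        exact h3.trans (mul_le_mul_of_nonneg_left h2 (Real.exp_pos _).le)
    _ ≤ Real.exp (B * r) * (C * Real.exp (32 * h * |B| + B ^ 2) * (1 + 1 / B)) := by
        apply mul_le_mul_of_nonneg_left _ (Real.exp_pos _).le
        exact mul_le_mul_of_nonneg_left h4 (by positivity)
    _ = _ := by
        rw [abs_of_pos hB, Real.exp_add, Real.exp_add]
        ring

/-- `‖1 - vc h r‖ ≤ C e^{-B r + 32 h B}` (line `Re z = -B`). -/
theorem vc_bound' (B : ℝ) (hB : 0 < B) : ∃ C : ℝ, 0 < C ∧ ∀ h r : ℝ, 1 ≤ h →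
    ‖1 - vc h r‖ ≤ C * Real.exp (-B * r + 32 * h * B) := by
  obtain ⟨C, hC, H⟩ := Cut_int
  refine ⟨C * Real.exp (B ^ 2) * (1 + 1 / B), by positivity, fun h r hh => ?_⟩
  have hh0 : 0 < h := by linarith
  obtain ⟨-, h2⟩ := H h (-B) hh0 (by linarith)
  rw [vc_line_neg h r (-B) hh0 (by linarith), sub_add_cancel_left, norm_neg, norm_mul]
  have h3 := Cut_norm_integral (fun y => kn h (((-B : ℝ) : ℂ) + y * I) / (((-B : ℝ) : ℂ) + y * I)) r (-B)
  have hab : |(-B)| = B := by rw [abs_neg, abs_of_pos hB]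
  have h4 : (1 + 1 / (h * |(-B)|)) ≤ 1 + 1 / B := by
    rw [hab]
    have : 1 / (h * B) ≤ 1 / B := one_div_le_one_div_of_le hB (by nlinarith)
    linarith
  calc _ ≤ 1 * ‖∫ y : ℝ, Complex.exp ((((-B : ℝ) : ℂ) + y * I) * r) *
          (kn h (((-B : ℝ) : ℂ) + y * I) / (((-B : ℝ) : ℂ) + y * I))‖ :=
        mul_le_mul_of_nonneg_right Cut_two_pi (norm_nonneg _)
    _ ≤ Real.exp (-B * r) * (C * Real.exp (32 * h * |(-B)| + (-B) ^ 2) * (1 + 1 / (h * |(-B)|))) := by
        rw [one_mul]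
        exact h3.trans (mul_le_mul_of_nonneg_left h2 (Real.exp_pos _).le)
    _ ≤ Real.exp (-B * r) * (C * Real.exp (32 * h * |(-B)| + (-B) ^ 2) * (1 + 1 / B)) := by
        apply mul_le_mul_of_nonneg_left _ (Real.exp_pos _).le
        exact mul_le_mul_of_nonneg_left h4 (by positivity)
    _ = _ := by
        rw [hab, Real.exp_add, Real.exp_add, neg_sq]
        ring

/-- `‖vd h r‖ ≤ C e^{B r + 32 h |B|}`, any real `B`. -/
theorem vd_bound (B : ℝ) : ∃ C : ℝ, 0 < C ∧ ∀ h r : ℝ, 1 ≤ h →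
    ‖vd h r‖ ≤ C * Real.exp (B * r + 32 * h * |B|) := by
  obtain ⟨C, hC, H⟩ := Cut_int'
  refine ⟨C * Real.exp (B ^ 2), by positivity, fun h r hh => ?_⟩
  have hh0 : 0 < h := by linarith
  obtain ⟨-, h2⟩ := H h B hh0
  rw [vd_line h r B hh0, norm_mul]
  have h3 := Cut_norm_integral (fun y => kn h ((B : ℂ) + y * I)) r B
  have h4 : C * Real.exp (32 * h * |B| + B ^ 2) / h ≤ C * Real.exp (32 * h * |B| + B ^ 2) :=
    div_le_self (by positivity) hh
  calc _ ≤ 1 * ‖∫ y : ℝ, Complex.exp (((B : ℂ) + y * I) * r) * kn h ((B : ℂ) + y * I)‖ :=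
        mul_le_mul_of_nonneg_right Cut_two_pi (norm_nonneg _)
    _ ≤ Real.exp (B * r) * (C * Real.exp (32 * h * |B| + B ^ 2)) := by
        rw [one_mul]
        exact h3.trans (mul_le_mul_of_nonneg_left (h2.trans h4) (Real.exp_pos _).le)
    _ = _ := by
        rw [Real.exp_add, Real.exp_add]
        ring

private theorem Cut_conj_pt (y : ℝ) :
    (starRingEnd ℂ) (1 + (y : ℂ) * I) = 1 + ((-y : ℝ) : ℂ) * I := by
  apply Complex.ext <;> simp

/-- `vc` is real. -/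
theorem vc_conj (h r : ℝ) : (starRingEnd ℂ) (vc h r) = vc h r := by
  unfold vc
  rw [map_mul, Complex.conj_ofReal, ← integral_conj]
  congr 1
  rw [← integral_neg_eq_self
    (fun y : ℝ => Complex.exp ((1 + y * I) * r) * (kn h (1 + y * I) / (1 + y * I)))]
  congr 1
  ext y
  rw [map_mul, map_div₀, ← Complex.exp_conj, map_mul, ← kn_conj, Complex.conj_ofReal, Cut_conj_pt]

private theorem Cut_continuous (f : ℝ → ℂ) (hf : Continuous f) (hi : Integrable fun y => ‖f y‖) :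
    Continuous fun r : ℝ => ∫ y : ℝ, Complex.exp ((1 + y * I) * r) * f y := by
  have e : (fun r : ℝ => ∫ y : ℝ, Complex.exp ((1 + y * I) * r) * f y) =
      fun r : ℝ => Complex.exp r * ∫ y : ℝ, Complex.exp (y * I * r) * f y := by
    ext r
    rw [← integral_const_mul]
    congr 1
    ext y
    rw [← mul_assoc, ← Complex.exp_add]
    congr 2
    ring
  rw [e]
  apply Continuous.mul (by fun_prop)
  apply continuous_of_dominated (bound := fun y => ‖f y‖)
  · intro r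
    exact (Continuous.mul (by fun_prop) hf).aestronglyMeasurable
  · intro r
    refine Filter.Eventually.of_forall fun y => ?_
    rw [norm_mul, Cut_norm_exp]
    simp
  · exact hi
  · refine Filter.Eventually.of_forall fun y => ?_
    fun_prop

theorem continuous_vc (h : ℝ) (hh : 0 < h) : Continuous (vc h) := by
  obtain ⟨C, -, H⟩ := Cut_int
  have h1 := (H h 1 hh one_ne_zero).1
  have h2 := Cut_cont' h 1 one_ne_zero
  simp only [Complex.ofReal_one] at h1 h2
  exact continuous_const.mul (Cut_continuous _ h2 h1)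

theorem continuous_vd (h : ℝ) (hh : 0 < h) : Continuous (vd h) := by
  obtain ⟨C, -, H⟩ := Cut_int'
  have h1 := (H h 1 hh).1
  have h2 := Cut_cont h 1
  simp only [Complex.ofReal_one] at h1 h2
  exact continuous_const.mul (Cut_continuous _ h2 h1)

end Pool.Agent.H14.CO

end

section

/-!
# CO module Ch: the factor `ch` of the functional equation
-/

set_option autoImplicit false

namespace Pool.Agent.H14.CO

open Set MeasureTheory Complex

theorem Ch_ne_neg_nat {w : ℂ} (hw : 0 < w.re) (n : ℕ) : w ≠ -n := by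
  intro h
  have h1 := congrArg Complex.re h
  simp only [neg_re, natCast_re] at h1
  have : (0 : ℝ) ≤ n := n.cast_nonneg
  linarith

theorem differentiableAt_ch (w : ℂ) (hw : 0 < w.re) : DifferentiableAt ℂ ch w := by
  have h2π : (2 * Real.pi : ℂ) ≠ 0 := by
    have := Real.pi_ne_zero
    simp [this]
  unfold ch
  refine DifferentiableAt.mul (DifferentiableAt.mul (DifferentiableAt.mul ?_ ?_) ?_) ?_
  · exact differentiableAt_const _
  · exact (differentiableAt_id.neg).const_cpow (Or.inl h2π)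
  · exact differentiableAt_Gamma w (fun n => Ch_ne_neg_nat hw n)
  · fun_prop

/-- functional equation, `riemannZeta_one_sub`. -/
theorem ch_fe (w : ℂ) (hw : 0 < w.re) (hw1 : w ≠ 1) :
    riemannZeta (1 - w) = ch w * riemannZeta w := by
  rw [riemannZeta_one_sub (fun n => Ch_ne_neg_nat hw n) hw1]
  rfl

theorem Ch_conj (w : ℂ) : ch ((starRingEnd ℂ) w) = (starRingEnd ℂ) (ch w) := by
  have hc2 : (starRingEnd ℂ) 2 = 2 := map_ofNat _ 2
  unfold ch
  simp only [map_mul]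
  congr 1
  · congr 1
    · congr 1
      · exact hc2.symm
      · have harg : (2 * Real.pi : ℂ).arg ≠ Real.pi := by
          have h1 : (2 * Real.pi : ℂ) = ((2 * Real.pi : ℝ) : ℂ) := by push_cast; ring
          rw [h1, arg_ofReal_of_nonneg (by positivity)]
          exact Real.pi_ne_zero.symm
        have h2 := cpow_conj (2 * Real.pi : ℂ) (-w) harg
        rw [← map_neg]
        rw [h2]
        congr 1
        rw [map_mul, hc2, conj_ofReal]
    · exact Gamma_conj w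
  · rw [← cos_conj]
    congr 1
    rw [map_div₀, map_mul, hc2, conj_ofReal]

theorem Ch_mul (w : ℂ) (hs : Complex.sin (Real.pi * w) ≠ 0) : ch w * ch (1 - w) = 1 := by
  have h2π : (2 * Real.pi : ℂ) ≠ 0 := by
    have := Real.pi_ne_zero
    simp [this]
  have hπ : (Real.pi : ℂ) ≠ 0 := by
    exact_mod_cast Real.pi_ne_zero
  unfold ch
  have h1 : (2 * Real.pi : ℂ) ^ (-w) * (2 * Real.pi : ℂ) ^ (-(1 - w)) = (2 * Real.pi : ℂ)⁻¹ := by
    rw [← cpow_add _ _ h2π, ← cpow_neg_one]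
    congr 1
    ring
  have h2 := Gamma_mul_Gamma_one_sub w
  have h3 : Complex.cos (Real.pi * (1 - w) / 2) = Complex.sin (Real.pi * w / 2) := by
    have : (Real.pi : ℂ) * (1 - w) / 2 = Real.pi / 2 - Real.pi * w / 2 := by ring
    rw [this, cos_pi_div_two_sub]
  have h4 : Complex.sin (Real.pi * w) =
      2 * Complex.sin (Real.pi * w / 2) * Complex.cos (Real.pi * w / 2) := by
    rw [← sin_two_mul]
    congr 1
    ring
  rw [h3]
  calc 2 * (2 * Real.pi : ℂ) ^ (-w) * Complex.Gamma w * Complex.cos (Real.pi * w / 2) *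
        (2 * (2 * Real.pi : ℂ) ^ (-(1 - w)) * Complex.Gamma (1 - w) * Complex.sin (Real.pi * w / 2))
      = 2 * ((2 * Real.pi : ℂ) ^ (-w) * (2 * Real.pi : ℂ) ^ (-(1 - w))) *
          (Complex.Gamma w * Complex.Gamma (1 - w)) *
          (2 * Complex.sin (Real.pi * w / 2) * Complex.cos (Real.pi * w / 2)) := by ring
    _ = 1 := by
      rw [h1, h2, ← h4]
      field_simp

theorem Ch_sin_ne (u : ℝ) : Complex.sin (Real.pi * (1 / 2 + u * I)) ≠ 0 := by
  have h1 : (Real.pi : ℂ) * (1 / 2 + u * I) = (Real.pi * u : ℝ) * I + Real.pi / 2 := by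
    push_cast
    ring
  rw [h1, Complex.sin_add_pi_div_two, Complex.cos_mul_I, ← ofReal_cosh]
  exact_mod_cast (Real.cosh_pos _).ne'

/-- `‖Γ(1/2+iu)‖² = π / cosh(π u)` (reflection formula) and
`‖cos(π/4 + iπu/2)‖² = cosh(π u)/2`. -/
theorem norm_ch_half (u : ℝ) : ‖ch (1 / 2 + u * I)‖ = 1 := by
  have h1 := Ch_mul (1 / 2 + u * I) (Ch_sin_ne u)
  have h2 : (1 : ℂ) - (1 / 2 + u * I) = (starRingEnd ℂ) (1 / 2 + u * I) := by
    simp only [map_add, map_mul, conj_ofReal, conj_I, map_div₀, map_one, map_ofNat]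
    ring
  rw [h2, Ch_conj] at h1
  have h3 := congrArg norm h1
  rw [norm_mul, RCLike.norm_conj, norm_one] at h3
  have h4 : 0 ≤ ‖ch (1 / 2 + u * I)‖ := norm_nonneg _
  nlinarith

/-- `‖Γ(σ+iu)‖ / Γ(σ)` is nondecreasing in `σ`. -/
theorem Ch_gamma_mono {σ σ' : ℝ} (hσ : 0 < σ) (hσσ' : σ ≤ σ') (u : ℝ) :
    ‖Complex.Gamma (σ + u * I)‖ * ‖Complex.Gamma (σ' : ℂ)‖ ≤
      ‖Complex.Gamma (σ' + u * I)‖ * ‖Complex.Gamma (σ : ℂ)‖ := by
  have t1 := (GammaSeq_tendsto_Gamma (σ + u * I)).norm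
  have t2 := (GammaSeq_tendsto_Gamma (σ' : ℂ)).norm
  have t3 := (GammaSeq_tendsto_Gamma (σ' + u * I)).norm
  have t4 := (GammaSeq_tendsto_Gamma (σ : ℂ)).norm
  refine le_of_tendsto_of_tendsto (t1.mul t2) (t3.mul t4) ?_
  filter_upwards [Filter.eventually_ge_atTop 1] with n hn
  have hn0 : (0 : ℝ) < n := by exact_mod_cast hn
  have hpow : ∀ s : ℂ, ‖((n : ℂ)) ^ s‖ = (n : ℝ) ^ s.re := by
    intro s
    have := norm_cpow_eq_rpow_re_of_pos hn0 s
    simpa using this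
  have hσ' : 0 < σ' := lt_of_lt_of_le hσ hσσ'
  unfold GammaSeq
  simp only [norm_mul, norm_div, norm_prod, hpow]
  have hre1 : ((σ : ℂ) + u * I).re = σ := by simp
  have hre2 : ((σ' : ℂ) + u * I).re = σ' := by simp
  rw [hre1, hre2, ofReal_re, ofReal_re]
  -- the product inequality
  have hterm : ∀ j ∈ Finset.range (n + 1), ‖(σ' : ℂ) + u * I + j‖ * ‖(σ : ℂ) + j‖ ≤
      ‖(σ : ℂ) + u * I + j‖ * ‖(σ' : ℂ) + j‖ := by
    intro j _
    have hj : (0 : ℝ) ≤ j := j.cast_nonneg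
    have e1 : (σ' : ℂ) + u * I + j = ((σ' + j : ℝ) : ℂ) + (u : ℝ) * I := by push_cast; ring
    have e2 : (σ : ℂ) + u * I + j = ((σ + j : ℝ) : ℂ) + (u : ℝ) * I := by push_cast; ring
    have e3 : (σ : ℂ) + j = ((σ + j : ℝ) : ℂ) := by push_cast; ring
    have e4 : (σ' : ℂ) + j = ((σ' + j : ℝ) : ℂ) := by push_cast; ring
    rw [e1, e2, e3, e4, norm_add_mul_I, norm_add_mul_I, norm_real, norm_real,
      Real.norm_of_nonneg (by linarith : (0 : ℝ) ≤ σ + j),
      Real.norm_of_nonneg (by linarith : (0 : ℝ) ≤ σ' + j)]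
    apply le_of_sq_le_sq _ (by positivity)
    rw [mul_pow, mul_pow, Real.sq_sqrt (by positivity), Real.sq_sqrt (by positivity)]
    have h5 : (σ + j) ^ 2 ≤ (σ' + j) ^ 2 := by
      apply pow_le_pow_left₀ (by linarith)
      linarith
    nlinarith [sq_nonneg u]
  have hprod := Finset.prod_le_prod (s := Finset.range (n + 1))
    (f := fun j : ℕ => ‖(σ' : ℂ) + u * I + j‖ * ‖(σ : ℂ) + j‖)
    (g := fun j : ℕ => ‖(σ : ℂ) + u * I + j‖ * ‖(σ' : ℂ) + j‖)
    (fun j _ => by positivity) hterm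
  rw [Finset.prod_mul_distrib, Finset.prod_mul_distrib] at hprod
  have hpos : ∀ (τ : ℝ) (v : ℝ), 0 < τ → 0 < ∏ j ∈ Finset.range (n + 1), ‖(τ : ℂ) + v * I + (j : ℂ)‖ := by
    intro τ v hτ
    apply Finset.prod_pos
    intro j _
    rw [norm_pos_iff]
    intro h
    have h6 := congrArg Complex.re h
    simp at h6
    have hj : (0 : ℝ) ≤ j := j.cast_nonneg
    linarith
  have p1 := hpos σ u hσ
  have p2 := hpos σ' u hσ'
  have p3 : 0 < ∏ j ∈ Finset.range (n + 1), ‖(σ : ℂ) + (j : ℂ)‖ := by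
    have := hpos σ 0 hσ
    simpa using this
  have p4 : 0 < ∏ j ∈ Finset.range (n + 1), ‖(σ' : ℂ) + (j : ℂ)‖ := by
    have := hpos σ' 0 hσ'
    simpa using this
  have hn1 : 0 ≤ (n : ℝ) ^ σ * ‖((n.factorial : ℕ) : ℂ)‖ * ((n : ℝ) ^ σ' * ‖((n.factorial : ℕ) : ℂ)‖) := by
    positivity
  rw [div_mul_div_comm, div_mul_div_comm]
  rw [div_le_div_iff₀ (by positivity) (by positivity)]
  calc (n : ℝ) ^ σ * ‖((n.factorial : ℕ) : ℂ)‖ * ((n : ℝ) ^ σ' * ‖((n.factorial : ℕ) : ℂ)‖) *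
        ((∏ j ∈ Finset.range (n + 1), ‖(σ' : ℂ) + u * I + (j : ℂ)‖) *
          ∏ j ∈ Finset.range (n + 1), ‖(σ : ℂ) + (j : ℂ)‖)
      ≤ (n : ℝ) ^ σ * ‖((n.factorial : ℕ) : ℂ)‖ * ((n : ℝ) ^ σ' * ‖((n.factorial : ℕ) : ℂ)‖) *
        ((∏ j ∈ Finset.range (n + 1), ‖(σ : ℂ) + u * I + (j : ℂ)‖) *
          ∏ j ∈ Finset.range (n + 1), ‖(σ' : ℂ) + (j : ℂ)‖) :=
        mul_le_mul_of_nonneg_left hprod hn1
    _ = _ := by ring

theorem Ch_gamma_half_sq (u : ℝ) : ‖Complex.Gamma (1 / 2 + u * I)‖ ^ 2 ≤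
    2 * Real.pi * Real.exp (-(Real.pi * |u|)) := by
  have h1 := Gamma_mul_Gamma_one_sub (1 / 2 + u * I)
  have h2 : (1 : ℂ) - (1 / 2 + u * I) = (starRingEnd ℂ) (1 / 2 + u * I) := by
    simp only [map_add, map_mul, conj_ofReal, conj_I, map_div₀, map_one, map_ofNat]
    ring
  rw [h2, Gamma_conj] at h1
  have h3 := congrArg norm h1
  rw [norm_mul, RCLike.norm_conj, norm_div] at h3
  have h4 : (Real.pi : ℂ) * (1 / 2 + u * I) = (Real.pi * u : ℝ) * I + Real.pi / 2 := by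
    push_cast
    ring
  rw [h4, Complex.sin_add_pi_div_two, Complex.cos_mul_I, ← ofReal_cosh, norm_real, norm_real,
    Real.norm_of_nonneg Real.pi_pos.le, Real.norm_of_nonneg (Real.cosh_pos _).le] at h3
  rw [sq, h3]
  have h5 : Real.exp (Real.pi * |u|) / 2 ≤ Real.cosh (Real.pi * u) := by
    rw [← Real.cosh_abs, abs_mul, abs_of_pos Real.pi_pos, Real.cosh_eq]
    have := Real.exp_pos (-(Real.pi * |u|))
    linarith
  rw [div_le_iff₀ (Real.cosh_pos _)]
  have h6 : Real.exp (-(Real.pi * |u|)) * Real.exp (Real.pi * |u|) = 1 := by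
    rw [← Real.exp_add]
    simp
  have h7 : 0 < 2 * Real.pi * Real.exp (-(Real.pi * |u|)) := by positivity
  calc Real.pi = 2 * Real.pi * Real.exp (-(Real.pi * |u|)) * (Real.exp (Real.pi * |u|) / 2) := by
        linear_combination (-Real.pi) * h6
    _ ≤ _ := mul_le_mul_of_nonneg_left h5 h7.le

theorem Ch_gamma_one_sq (u : ℝ) : ‖Complex.Gamma (1 + u * I)‖ ^ 2 ≤
    (1 + 2 * Real.pi * |u|) * Real.exp (-(Real.pi * |u|)) := by
  rcases eq_or_ne u 0 with rfl | hu
  · simp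
  have huI : (u : ℂ) * I ≠ 0 := mul_ne_zero (by exact_mod_cast hu) I_ne_zero
  have h1 := Gamma_mul_Gamma_one_sub (u * I)
  have h0 : Complex.Gamma (1 + u * I) = u * I * Complex.Gamma (u * I) := by
    rw [add_comm, Gamma_add_one _ huI]
  have h2 : (1 : ℂ) - u * I = (starRingEnd ℂ) (1 + u * I) := by
    simp only [map_add, map_mul, conj_ofReal, conj_I, map_one]
    ring
  rw [h2, Gamma_conj] at h1
  have h3 := congrArg norm h1
  rw [norm_mul, RCLike.norm_conj, norm_div] at h3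
  have h4 : (Real.pi : ℂ) * (u * I) = (Real.pi * u : ℝ) * I := by
    push_cast
    ring
  rw [h4, Complex.sin_mul_I, norm_mul, norm_I, mul_one, ← ofReal_sinh, norm_real, norm_real,
    Real.norm_of_nonneg Real.pi_pos.le] at h3
  have h5 : ‖Complex.Gamma (1 + u * I)‖ = |u| * ‖Complex.Gamma (u * I)‖ := by
    rw [h0, norm_mul, norm_mul, norm_I, mul_one, norm_real, Real.norm_eq_abs]
  have h6 : ‖Complex.Gamma (1 + u * I)‖ ^ 2 = |u| * (Real.pi / ‖Real.sinh (Real.pi * u)‖) := by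
    rw [← h3]
    rw [sq]
    nth_rewrite 1 [h5]
    ring
  rw [h6]
  have hx : 0 < |u| := abs_pos.mpr hu
  have h7 : ‖Real.sinh (Real.pi * u)‖ = Real.sinh (Real.pi * |u|) := by
    rw [Real.norm_eq_abs]
    rw [Real.abs_sinh, abs_mul, abs_of_pos Real.pi_pos]
  rw [h7]
  set y : ℝ := Real.pi * |u| with hy
  have hy0 : 0 < y := by positivity
  have hs : 0 < Real.sinh y := Real.sinh_pos_iff.mpr hy0
  have h8 : |u| * (Real.pi / Real.sinh y) = y / Real.sinh y := by
    rw [hy]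
    ring
  have h9 : 1 + 2 * Real.pi * |u| = 1 + 2 * y := by
    rw [hy]
    ring
  rw [h8, h9, div_le_iff₀ hs, Real.sinh_eq]
  have ha : Real.exp (-y) * Real.exp y = 1 := by
    rw [← Real.exp_add]
    simp
  have hb : Real.exp (-y) * Real.exp (-y) = Real.exp (-(2 * y)) := by
    rw [← Real.exp_add]
    congr 1
    ring
  have hc : Real.exp (-(2 * y)) * (1 + 2 * y) ≤ 1 := by
    have h10 : 1 + 2 * y ≤ Real.exp (2 * y) := by
      have := Real.add_one_le_exp (2 * y)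
      linarith
    calc Real.exp (-(2 * y)) * (1 + 2 * y) ≤ Real.exp (-(2 * y)) * Real.exp (2 * y) :=
          mul_le_mul_of_nonneg_left h10 (Real.exp_pos _).le
      _ = 1 := by
        rw [← Real.exp_add]
        simp
  have hd : (1 + 2 * y) * Real.exp (-y) * ((Real.exp y - Real.exp (-y)) / 2) =
      ((1 + 2 * y) - Real.exp (-(2 * y)) * (1 + 2 * y)) / 2 := by
    linear_combination ((1 + 2 * y) / 2) * ha - ((1 + 2 * y) / 2) * hb
  rw [hd]
  linarith

/-- `‖Γ(j/2+iu)‖ ≤ C (1+|u|)^{(j-1)/2} exp(-π|u|/2)`. -/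
theorem Ch_gamma_half_int (j : ℕ) : ∃ C : ℝ, 0 < C ∧ ∀ u : ℝ,
    ‖Complex.Gamma ((((j : ℝ) + 1) / 2 : ℝ) + u * I)‖ ≤
      C * (1 + |u|) ^ ((j : ℝ) / 2) * Real.exp (-(Real.pi * |u| / 2)) := by
  induction j using Nat.twoStepInduction with
  | zero =>
    refine ⟨Real.sqrt (2 * Real.pi), by positivity, fun u => ?_⟩
    have h := Ch_gamma_half_sq u
    have e : (((((0 : ℕ) : ℝ) + 1) / 2 : ℝ) : ℂ) + u * I = 1 / 2 + u * I := by
      push_cast
      ring
    rw [e]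
    have e2 : (1 + |u|) ^ (((0 : ℕ) : ℝ) / 2) = 1 := by simp
    rw [e2, mul_one]
    apply le_of_sq_le_sq _ (by positivity)
    rw [mul_pow, Real.sq_sqrt (by positivity), ← Real.exp_nat_mul]
    have e4 : ((2 : ℕ) : ℝ) * -(Real.pi * |u| / 2) = -(Real.pi * |u|) := by
      push_cast
      ring
    rw [e4]
    exact h
  | one =>
    refine ⟨Real.sqrt (2 * Real.pi), by positivity, fun u => ?_⟩
    have h := Ch_gamma_one_sq u
    have e : (((((1 : ℕ) : ℝ) + 1) / 2 : ℝ) : ℂ) + u * I = 1 + u * I := by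
      push_cast
      ring
    rw [e]
    apply le_of_sq_le_sq _ (by positivity)
    rw [mul_pow, mul_pow, Real.sq_sqrt (by positivity), ← Real.exp_nat_mul,
      ← Real.rpow_natCast ((1 + |u|) ^ (((1 : ℕ) : ℝ) / 2)) 2, ← Real.rpow_mul (by positivity)]
    have e3 : (((1 : ℕ) : ℝ) / 2 * ((2 : ℕ) : ℝ)) = 1 := by norm_num
    rw [e3, Real.rpow_one]
    have e4 : ((2 : ℕ) : ℝ) * -(Real.pi * |u| / 2) = -(Real.pi * |u|) := by
      push_cast
      ring
    rw [e4]
    refine h.trans ?_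
    apply mul_le_mul_of_nonneg_right _ (Real.exp_pos _).le
    have := Real.pi_gt_three
    have hu := abs_nonneg u
    nlinarith
  | more j ih _ =>
    obtain ⟨C, hC, hj⟩ := ih
    refine ⟨C * (((j : ℝ) + 1) / 2 + 1), by positivity, fun u => ?_⟩
    have hjn : (0 : ℝ) ≤ j := j.cast_nonneg
    have hne : (((((j : ℝ) + 1) / 2 : ℝ) : ℂ) + u * I) ≠ 0 := by
      intro h
      have h6 := congrArg Complex.re h
      simp only [add_re, ofReal_re, mul_re, I_re, mul_zero, ofReal_im, I_im, mul_one, sub_self,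
        add_zero, zero_re] at h6
      linarith
    have e : ((((((j + 2 : ℕ)) : ℝ) + 1) / 2 : ℝ) : ℂ) + u * I =
        ((((j : ℝ) + 1) / 2 : ℝ) : ℂ) + u * I + 1 := by
      push_cast
      ring
    rw [e, Gamma_add_one _ hne, norm_mul]
    have h1 : ‖((((j : ℝ) + 1) / 2 : ℝ) : ℂ) + u * I‖ ≤ (((j : ℝ) + 1) / 2 + 1) * (1 + |u|) := by
      refine (norm_add_le _ _).trans ?_
      rw [norm_mul, norm_I, mul_one, norm_real, norm_real,
        Real.norm_of_nonneg (by positivity : (0 : ℝ) ≤ ((j : ℝ) + 1) / 2), Real.norm_eq_abs]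
      have hu := abs_nonneg u
      nlinarith
    have h2 := hj u
    have h3 : (1 + |u|) ^ ((((j + 2 : ℕ)) : ℝ) / 2) = (1 + |u|) ^ ((j : ℝ) / 2) * (1 + |u|) := by
      have hu := abs_nonneg u
      rw [show ((((j + 2 : ℕ)) : ℝ) / 2) = (j : ℝ) / 2 + 1 by push_cast; ring,
        Real.rpow_add (by positivity), Real.rpow_one]
    rw [h3]
    calc ‖((((j : ℝ) + 1) / 2 : ℝ) : ℂ) + u * I‖ *
          ‖Complex.Gamma (((((j : ℝ) + 1) / 2 : ℝ) : ℂ) + u * I)‖
        ≤ ((((j : ℝ) + 1) / 2 + 1) * (1 + |u|)) *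
          (C * (1 + |u|) ^ ((j : ℝ) / 2) * Real.exp (-(Real.pi * |u| / 2))) := by
          apply mul_le_mul h1 h2 (norm_nonneg _)
          have hu := abs_nonneg u
          positivity
      _ = _ := by ring

theorem Ch_cos_le (w : ℂ) : ‖Complex.cos (Real.pi * w / 2)‖ ≤ Real.exp (Real.pi * |w.im| / 2) := by
  have h1 : ∀ z : ℂ, ‖Complex.cos z‖ ≤ Real.exp |z.im| := by
    intro z
    rw [Complex.cos, norm_div]
    have h2 : ‖Complex.exp (z * I)‖ ≤ Real.exp |z.im| := by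
      rw [norm_exp]
      apply Real.exp_le_exp.mpr
      simp only [mul_re, I_re, mul_zero, I_im, mul_one, zero_sub]
      exact neg_le_abs _
    have h3 : ‖Complex.exp (-z * I)‖ ≤ Real.exp |z.im| := by
      rw [norm_exp]
      apply Real.exp_le_exp.mpr
      simp only [neg_mul, neg_re, mul_re, I_re, mul_zero, I_im, mul_one, zero_sub, neg_neg]
      exact le_abs_self _
    have h4 : ‖(2 : ℂ)‖ = 2 := by simp
    rw [h4, div_le_iff₀ (by norm_num)]
    refine (norm_add_le _ _).trans ?_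
    linarith
  refine (h1 _).trans ?_
  apply Real.exp_le_exp.mpr
  have h5 : ((Real.pi : ℂ) * w / 2).im = Real.pi * w.im / 2 := by
    have : (Real.pi : ℂ) * w / 2 = ((Real.pi / 2 : ℝ) : ℂ) * w := by
      push_cast
      ring
    rw [this, im_ofReal_mul]
    ring
  rw [h5, abs_div, abs_mul, abs_of_pos Real.pi_pos]
  simp

/-- `‖ch w‖ ≤ C (1+|Im w|)^{Re w}` for `1/2 ≤ Re w ≤ B`.

PROOF. `‖Γ(σ+iu)‖ / Γ(σ)` is nondecreasing in `σ` (Euler's product), so it is enough to bound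
`Γ` at the half integers, where the reflection formula and the recursion give
`‖Γ(j/2+iu)‖ ≤ C (1+|u|)^{(j-1)/2} exp(-π|u|/2)`; and `‖cos(πw/2)‖ ≤ exp(π|u|/2)`. -/
theorem ch_growth (B : ℝ) (hB : 1 ≤ B) : ∃ C : ℝ, 0 < C ∧ ∀ w : ℂ, 1 / 2 ≤ w.re → w.re ≤ B →
    ‖ch w‖ ≤ C * (1 + |w.im|) ^ w.re := by
  choose C hC hCu using Ch_gamma_half_int
  -- bound of Gamma on [1/2, B]
  have hcompact : IsCompact (Set.Icc (1 / 2 : ℝ) B) := isCompact_Icc
  have hcont : ContinuousOn (fun σ : ℝ => ‖Complex.Gamma (σ : ℂ)‖) (Set.Icc (1 / 2 : ℝ) B) := by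
    intro σ hσ
    have hσ0 : 0 < σ := by linarith [hσ.1]
    have h1 : ContinuousAt Complex.Gamma (σ : ℂ) :=
      (differentiableAt_Gamma (σ : ℂ) (fun n => Ch_ne_neg_nat (by simpa using hσ0) n)).continuousAt
    have h2 : ContinuousAt (fun σ : ℝ => Complex.Gamma (σ : ℂ)) σ :=
      ContinuousAt.comp (f := fun σ : ℝ => (σ : ℂ)) h1 continuous_ofReal.continuousAt
    exact h2.norm.continuousWithinAt
  obtain ⟨G, hG⟩ := (hcompact.image_of_continuousOn hcont).bddAbove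
  have hG' : ∀ σ : ℝ, 1 / 2 ≤ σ → σ ≤ B → ‖Complex.Gamma (σ : ℂ)‖ ≤ G := fun σ h1 h2 =>
    hG ⟨σ, ⟨h1, h2⟩, rfl⟩
  set G' : ℝ := max G 1 with hG'def
  have hG'0 : 0 < G' := lt_of_lt_of_le one_pos (le_max_right _ _)
  set N : ℕ := ⌈2 * B⌉₊ with hN
  set S : ℝ := ∑ j ∈ Finset.range (N + 1), C j / ‖Complex.Gamma ((((j : ℝ) + 1) / 2 : ℝ) : ℂ)‖ with hS
  have hGpos : ∀ j : ℕ, 0 < ‖Complex.Gamma ((((j : ℝ) + 1) / 2 : ℝ) : ℂ)‖ := by
    intro j
    rw [norm_pos_iff]
    apply Gamma_ne_zero_of_re_pos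
    rw [ofReal_re]
    positivity
  have hSpos : 0 < S := by
    apply Finset.sum_pos
    · intro j _
      exact div_pos (hC j) (hGpos j)
    · exact ⟨0, by simp⟩
  refine ⟨2 * (S * G'), by positivity, fun w hw1 hw2 => ?_⟩
  set σ : ℝ := w.re with hσdef
  set u : ℝ := w.im with hudef
  have hσ0 : 0 < σ := by linarith
  have hw : w = (σ : ℂ) + u * I := (re_add_im w).symm
  -- choose j
  obtain ⟨j, hj1, hj2, hj3⟩ : ∃ j : ℕ, σ ≤ ((j : ℝ) + 1) / 2 ∧ (j : ℝ) / 2 ≤ σ ∧ j < N + 1 := by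
    have hceil : 1 ≤ ⌈2 * σ⌉₊ := by
      rw [Nat.one_le_ceil_iff]
      linarith
    refine ⟨⌈2 * σ⌉₊ - 1, ?_, ?_, ?_⟩
    · have h1 : 2 * σ ≤ (⌈2 * σ⌉₊ : ℝ) := Nat.le_ceil _
      rw [Nat.cast_sub hceil]
      push_cast
      linarith
    · have h1 : (⌈2 * σ⌉₊ : ℝ) < 2 * σ + 1 := Nat.ceil_lt_add_one (by linarith)
      rw [Nat.cast_sub hceil]
      push_cast
      linarith
    · have h1 : ⌈2 * σ⌉₊ ≤ N := Nat.ceil_mono (by linarith)
      omega
  have hmono := Ch_gamma_mono hσ0 hj1 u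
  have hcu := hCu j u
  have hu0 : 0 ≤ |u| := abs_nonneg u
  have hGam : ‖Complex.Gamma w‖ ≤ (S * G') * (1 + |u|) ^ σ * Real.exp (-(Real.pi * |u| / 2)) := by
    rw [hw]
    have hgj := hGpos j
    have h1 : ‖Complex.Gamma ((σ : ℂ) + u * I)‖ ≤
        ‖Complex.Gamma (((((j : ℝ) + 1) / 2 : ℝ) : ℂ) + u * I)‖ * ‖Complex.Gamma (σ : ℂ)‖ /
          ‖Complex.Gamma ((((j : ℝ) + 1) / 2 : ℝ) : ℂ)‖ := by
      rw [le_div_iff₀ hgj]
      exact hmono
    have h2 : C j / ‖Complex.Gamma ((((j : ℝ) + 1) / 2 : ℝ) : ℂ)‖ ≤ S := by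
      apply Finset.single_le_sum (f := fun j : ℕ => C j / ‖Complex.Gamma ((((j : ℝ) + 1) / 2 : ℝ) : ℂ)‖)
      · intro i _
        exact (div_pos (hC i) (hGpos i)).le
      · exact Finset.mem_range.mpr hj3
    have h3 : ‖Complex.Gamma (σ : ℂ)‖ ≤ G' := (hG' σ hw1 hw2).trans (le_max_left _ _)
    have h4 : (1 + |u|) ^ ((j : ℝ) / 2) ≤ (1 + |u|) ^ σ :=
      Real.rpow_le_rpow_of_exponent_le (by linarith) hj2
    calc ‖Complex.Gamma ((σ : ℂ) + u * I)‖
        ≤ ‖Complex.Gamma (((((j : ℝ) + 1) / 2 : ℝ) : ℂ) + u * I)‖ * ‖Complex.Gamma (σ : ℂ)‖ /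
          ‖Complex.Gamma ((((j : ℝ) + 1) / 2 : ℝ) : ℂ)‖ := h1
      _ ≤ (C j * (1 + |u|) ^ ((j : ℝ) / 2) * Real.exp (-(Real.pi * |u| / 2))) * G' /
          ‖Complex.Gamma ((((j : ℝ) + 1) / 2 : ℝ) : ℂ)‖ := by
          apply div_le_div_of_nonneg_right _ hgj.le
          apply mul_le_mul hcu h3 (norm_nonneg _)
          have := hC j
          positivity
      _ = (C j / ‖Complex.Gamma ((((j : ℝ) + 1) / 2 : ℝ) : ℂ)‖ * G') * (1 + |u|) ^ ((j : ℝ) / 2) *
          Real.exp (-(Real.pi * |u| / 2)) := by ring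
      _ ≤ (S * G') * (1 + |u|) ^ σ * Real.exp (-(Real.pi * |u| / 2)) := by
          apply mul_le_mul_of_nonneg_right _ (Real.exp_pos _).le
          apply mul_le_mul _ h4 (by positivity) (by positivity)
          exact mul_le_mul_of_nonneg_right h2 hG'0.le
  have hcos := Ch_cos_le w
  have hpow : ‖(2 * Real.pi : ℂ) ^ (-w)‖ ≤ 1 := by
    have h1 : (2 * Real.pi : ℂ) = ((2 * Real.pi : ℝ) : ℂ) := by push_cast; ring
    rw [h1, norm_cpow_eq_rpow_re_of_pos (by positivity), neg_re]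
    apply Real.rpow_le_one_of_one_le_of_nonpos
    · have := Real.pi_gt_three
      linarith
    · linarith
  unfold ch
  rw [norm_mul, norm_mul, norm_mul]
  have h2 : ‖(2 : ℂ)‖ = 2 := by simp
  rw [h2]
  have hexp : Real.exp (-(Real.pi * |u| / 2)) * Real.exp (Real.pi * |u| / 2) = 1 := by
    rw [← Real.exp_add]
    simp
  calc 2 * ‖(2 * Real.pi : ℂ) ^ (-w)‖ * ‖Complex.Gamma w‖ * ‖Complex.cos (Real.pi * w / 2)‖
      ≤ 2 * 1 * ((S * G') * (1 + |u|) ^ σ * Real.exp (-(Real.pi * |u| / 2))) *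
          Real.exp (Real.pi * |u| / 2) := by
        apply mul_le_mul _ hcos (norm_nonneg _) (by positivity)
        apply mul_le_mul _ hGam (norm_nonneg _) (by positivity)
        linarith
    _ = 2 * (S * G') * (1 + |u|) ^ σ *
          (Real.exp (-(Real.pi * |u| / 2)) * Real.exp (Real.pi * |u| / 2)) := by ring
    _ = 2 * (S * G') * (1 + |u|) ^ σ := by rw [hexp, mul_one]

end Pool.Agent.H14.CO

end

section

set_option autoImplicit false

namespace Pool.Agent.H95.GC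

open Set MeasureTheory

private theorem zeta_tsum_bound (s : ℂ) (σ : ℝ) (hσ : 1 < σ) (hs : σ ≤ s.re) :
    ‖riemannZeta s‖ ≤ ∑' n : ℕ, 1 / ((n : ℝ) + 1) ^ σ := by
  have h1 : 1 < s.re := lt_of_lt_of_le hσ hs
  rw [zeta_eq_tsum_one_div_nat_add_one_cpow h1]
  have hsum : Summable fun n : ℕ => 1 / ((n : ℝ) + 1) ^ σ := by
    have := (Real.summable_one_div_nat_rpow (p := σ)).mpr hσ
    have h2 := (summable_nat_add_iff 1).mpr this
    simpa using h2
  refine tsum_of_norm_bounded hsum.hasSum (fun n => ?_)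
  have hpos : (0 : ℝ) < (n : ℝ) + 1 := by positivity
  have h3 : ((n : ℂ) + 1) = (((n : ℝ) + 1 : ℝ) : ℂ) := by push_cast; ring
  rw [norm_div, norm_one, h3, Complex.norm_cpow_eq_rpow_re_of_pos hpos]
  refine one_div_le_one_div_of_le (by positivity) ?_
  exact Real.rpow_le_rpow_of_exponent_le (by linarith) hs

private theorem step (n : ℕ) (hn : 1 ≤ n) :
    1 / ((n : ℝ) + 1) ^ (5 / 4 : ℝ) ≤
      4 / (n : ℝ) ^ (1 / 4 : ℝ) - 4 / ((n : ℝ) + 1) ^ (1 / 4 : ℝ) := by
  have hn' : (1 : ℝ) ≤ n := by exact_mod_cast hn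
  have hpos : (0 : ℝ) < (n : ℝ) + 1 := by positivity
  have hn0 : (0 : ℝ) < n := by linarith
  set b := ((n : ℝ) + 1) ^ (1 / 4 : ℝ) with hb
  set a := (n : ℝ) ^ (1 / 4 : ℝ) with ha
  have hb0 : 0 < b := Real.rpow_pos_of_pos hpos _
  have ha0 : 0 < a := Real.rpow_pos_of_pos hn0 _
  have hb4 : b ^ 4 = (n : ℝ) + 1 := by
    rw [hb, ← Real.rpow_natCast, ← Real.rpow_mul hpos.le]; norm_num
  have ha4 : a ^ 4 = (n : ℝ) := by
    rw [ha, ← Real.rpow_natCast, ← Real.rpow_mul hn0.le]; norm_num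
  have h5 : ((n : ℝ) + 1) ^ (5 / 4 : ℝ) = ((n : ℝ) + 1) * b := by
    rw [hb]
    nth_rewrite 2 [← Real.rpow_one ((n : ℝ) + 1)]
    rw [← Real.rpow_add hpos]; norm_num
  rw [h5]
  -- key: a * (1 + 1 / (4 (n+1))) ≤ b
  have key : a * (1 + 1 / (4 * ((n : ℝ) + 1))) ≤ b := by
    refine le_of_pow_le_pow_left₀ (n := 4) (by norm_num) hb0.le ?_
    rw [mul_pow, ha4, hb4]
    have h6 : (1 + 1 / (4 * ((n : ℝ) + 1))) = (4 * n + 5) / (4 * ((n : ℝ) + 1)) := by
      field_simp; ring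
    rw [h6, div_pow, mul_div_assoc', div_le_iff₀ (by positivity)]
    nlinarith [pow_pos hn0 2, pow_pos hn0 3, pow_pos hn0 4]
  rw [div_sub_div _ _ ha0.ne' hb0.ne', div_le_div_iff₀ (by positivity) (by positivity)]
  have key2 : a ≤ 4 * ((n : ℝ) + 1) * (b - a) := by
    have h7 : a * (1 + 1 / (4 * ((n : ℝ) + 1))) * (4 * ((n : ℝ) + 1)) ≤
        b * (4 * ((n : ℝ) + 1)) := by gcongr
    have h8 : a * (1 + 1 / (4 * ((n : ℝ) + 1))) * (4 * ((n : ℝ) + 1)) =
        a * (4 * ((n : ℝ) + 1)) + a := by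
      field_simp
    rw [h8] at h7
    linarith
  nlinarith

theorem zeta_right_upper (s : ℂ) (hs : 5 / 4 ≤ s.re) : ‖riemannZeta s‖ ≤ 5 := by
  refine (zeta_tsum_bound s (5 / 4) (by norm_num) hs).trans ?_
  refine Real.tsum_le_of_sum_range_le (fun n => by positivity) (fun N => ?_)
  have h : ∀ N : ℕ, ∑ i ∈ Finset.range (N + 1), 1 / ((i : ℝ) + 1) ^ (5 / 4 : ℝ) ≤
      5 - 4 / ((N : ℝ) + 1) ^ (1 / 4 : ℝ) := by
    intro N
    induction N with
    | zero => norm_num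
    | succ N ih =>
      rw [Finset.sum_range_succ]
      have := step (N + 1) (by omega)
      push_cast at this ⊢
      linarith
  rcases N with _ | N
  · norm_num
  · refine (h N).trans ?_
    have : 0 ≤ 4 / ((N : ℝ) + 1) ^ (1 / 4 : ℝ) := by positivity
    linarith

end Pool.Agent.H95.GC

end

section

/-!
# CO module ZetaG: the entire function `(s-1) ζ(s)` and its growth
-/

set_option autoImplicit false

namespace Pool.Agent.H14.CO

open Set MeasureTheory Complex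

theorem Zt_eq (s : ℂ) (hs : s ≠ 1) : Zt s = (s - 1) * riemannZeta s := by
  unfold Zt
  rw [Function.update_of_ne hs]

/-- removable singularity at `1` (`riemannZeta_residue_one`). -/
theorem differentiable_Zt : Differentiable ℂ Zt := by
  rw [← differentiableOn_univ, ← differentiableOn_compl_singleton_and_continuousAt_iff
    (c := (1 : ℂ)) Filter.univ_mem]
  constructor
  · intro s hs
    have hs1 : s ≠ 1 := by
      intro h
      exact hs.2 (by simp [h])
    have hd : DifferentiableAt ℂ (fun s : ℂ => (s - 1) * riemannZeta s) s :=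
      (differentiableAt_id.sub_const 1).mul (differentiableAt_riemannZeta hs1)
    have he : Zt =ᶠ[nhds s] (fun s : ℂ => (s - 1) * riemannZeta s) := by
      have hn : ({1}ᶜ : Set ℂ) ∈ nhds s := isOpen_compl_singleton.mem_nhds (by simpa using hs1)
      filter_upwards [hn] with z hz
      exact Zt_eq z (by simpa using hz)
    exact (hd.congr_of_eventuallyEq he).differentiableWithinAt
  · unfold Zt
    rw [continuousAt_update_same]
    exact riemannZeta_residue_one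

private theorem ZetaG_sub_one (s : ℂ) : ‖s - 1‖ ≤ 1 + ‖s‖ := by
  calc ‖s - 1‖ ≤ ‖s‖ + ‖(1 : ℂ)‖ := norm_sub_le _ _
    _ = 1 + ‖s‖ := by rw [norm_one]; ring

private theorem ZetaG_compact : ∃ K : ℝ, 0 < K ∧ ∀ s : ℂ, -1 / 2 ≤ s.re → s.re ≤ 2 → |s.im| ≤ 1 →
    ‖Zt s‖ ≤ K := by
  have hc : IsCompact (Metric.closedBall (0 : ℂ) 3) := isCompact_closedBall 0 3
  obtain ⟨K, hK⟩ := hc.exists_bound_of_continuousOn differentiable_Zt.continuous.continuousOn
  refine ⟨max K 1, lt_of_lt_of_le one_pos (le_max_right _ _), fun s h1 h2 h3 => ?_⟩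
  refine (hK s ?_).trans (le_max_left _ _)
  rw [mem_closedBall_zero_iff]
  calc ‖s‖ ≤ |s.re| + |s.im| := Complex.norm_le_abs_re_add_abs_im s
    _ ≤ 2 + 1 := by
        have : |s.re| ≤ 2 := abs_le.mpr ⟨by linarith, h2⟩
        linarith
    _ = 3 := by norm_num

/-- `‖(s-1) ζ(s)‖ ≤ C (1+‖s‖)^{B+3}` for `Re s ≥ -B`.

PROOF. `Re s ≥ -1/2`: `Pool.Agent.H95.GC.zeta_growth` for `|Im s| ≥ 1` (file H95/GC/ZetaForm), and for
`|Im s| ≤ 1` either `Pool.Agent.H95.GC.zeta_formula` or (for `Re s ≥ 2`) the bound `ζ = O(1)` and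
compactness for `-1/2 ≤ Re s ≤ 2`. `-B ≤ Re s ≤ -1/2`: `ch_fe` with `w = 1 - s` and `ch_growth`,
`ζ(w)` bounded for `Re w ≥ 3/2` (`Pool.Agent.H95.GC.zeta_right_upper`). -/
theorem Zt_growth (B : ℝ) (hB : 1 ≤ B) : ∃ C : ℝ, 0 < C ∧ ∀ s : ℂ, -B ≤ s.re →
    ‖Zt s‖ ≤ C * (1 + ‖s‖) ^ (B + 3) := by
  obtain ⟨K, hK0, hK⟩ := ZetaG_compact
  obtain ⟨C1, hC10, hC1⟩ := ch_growth (B + 1) (by linarith)
  refine ⟨K + 5 * C1 + 5, by positivity, fun s hs => ?_⟩
  have hn : 0 ≤ ‖s‖ := norm_nonneg s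
  have hbase : (1 : ℝ) ≤ 1 + ‖s‖ := by linarith
  have hbase0 : (0 : ℝ) < 1 + ‖s‖ := by linarith
  have hP1 : (1 : ℝ) ≤ (1 + ‖s‖) ^ (B + 3) := Real.one_le_rpow hbase (by linarith)
  have hP0 : (0 : ℝ) ≤ (1 + ‖s‖) ^ (B + 3) := by linarith
  by_cases hre : -1 / 2 ≤ s.re
  · by_cases him : 1 ≤ |s.im|
    · have hs1 : s ≠ 1 := by
        rintro rfl
        simp at him
        linarith
      rw [Zt_eq s hs1, norm_mul]
      have h2 := Pool.Agent.H95.GC.zeta_growth s hre him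
      have h3 : (1 + ‖s‖) ^ (3 : ℕ) ≤ (1 + ‖s‖) ^ (B + 3) := by
        rw [← Real.rpow_natCast]
        exact Real.rpow_le_rpow_of_exponent_le hbase (by push_cast; linarith)
      calc ‖s - 1‖ * ‖riemannZeta s‖ ≤ (1 + ‖s‖) * (2 * (1 + ‖s‖) ^ 2) :=
            mul_le_mul (ZetaG_sub_one s) h2 (norm_nonneg _) hbase0.le
        _ = 2 * (1 + ‖s‖) ^ (3 : ℕ) := by ring
        _ ≤ 2 * (1 + ‖s‖) ^ (B + 3) := by linarith
        _ ≤ (K + 5 * C1 + 5) * (1 + ‖s‖) ^ (B + 3) :=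
            mul_le_mul_of_nonneg_right (by linarith) hP0
    · push Not at him
      by_cases hre2 : s.re ≤ 2
      · calc ‖Zt s‖ ≤ K := hK s hre hre2 him.le
          _ ≤ K * (1 + ‖s‖) ^ (B + 3) := le_mul_of_one_le_right hK0.le hP1
          _ ≤ (K + 5 * C1 + 5) * (1 + ‖s‖) ^ (B + 3) :=
              mul_le_mul_of_nonneg_right (by linarith) hP0
      · push Not at hre2
        have hs1 : s ≠ 1 := by
          rintro rfl
          simp at hre2
        rw [Zt_eq s hs1, norm_mul]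
        have h2 := Pool.Agent.H95.GC.zeta_right_upper s (by linarith)
        have h3 : (1 + ‖s‖) ≤ (1 + ‖s‖) ^ (B + 3) := by
          calc (1 + ‖s‖) = (1 + ‖s‖) ^ (1 : ℝ) := (Real.rpow_one _).symm
            _ ≤ (1 + ‖s‖) ^ (B + 3) :=
              Real.rpow_le_rpow_of_exponent_le hbase (by linarith)
        calc ‖s - 1‖ * ‖riemannZeta s‖ ≤ (1 + ‖s‖) * 5 :=
              mul_le_mul (ZetaG_sub_one s) h2 (norm_nonneg _) hbase0.le
          _ ≤ 5 * (1 + ‖s‖) ^ (B + 3) := by linarith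
          _ ≤ (K + 5 * C1 + 5) * (1 + ‖s‖) ^ (B + 3) :=
            mul_le_mul_of_nonneg_right (by linarith) hP0
  · push Not at hre
    have hs1 : s ≠ 1 := by
      rintro rfl
      simp at hre
      linarith
    set w : ℂ := 1 - s with hw
    have hwre : w.re = 1 - s.re := by simp [hw]
    have hwim : w.im = -s.im := by simp [hw]
    have hw1 : w ≠ 1 := by
      intro h
      have := congrArg Complex.re h
      rw [hwre] at this
      simp at this
      linarith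
    have hfe := ch_fe w (by rw [hwre]; linarith) hw1
    have hws : 1 - w = s := by rw [hw]; ring
    rw [hws] at hfe
    have hcg := hC1 w (by rw [hwre]; linarith) (by rw [hwre]; linarith)
    have hz := Pool.Agent.H95.GC.zeta_right_upper w (by rw [hwre]; linarith)
    have him : |w.im| ≤ ‖s‖ := by
      rw [hwim, abs_neg]
      exact Complex.abs_im_le_norm s
    have h4 : (1 + |w.im|) ^ w.re ≤ (1 + ‖s‖) ^ (B + 1) := by
      calc (1 + |w.im|) ^ w.re ≤ (1 + ‖s‖) ^ w.re :=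
            Real.rpow_le_rpow (by positivity) (by linarith) (by rw [hwre]; linarith)
        _ ≤ (1 + ‖s‖) ^ (B + 1) :=
            Real.rpow_le_rpow_of_exponent_le hbase (by rw [hwre]; linarith)
    have h5 : (1 + ‖s‖) * (1 + ‖s‖) ^ (B + 1) ≤ (1 + ‖s‖) ^ (B + 3) := by
      calc (1 + ‖s‖) * (1 + ‖s‖) ^ (B + 1)
          = (1 + ‖s‖) ^ (1 : ℝ) * (1 + ‖s‖) ^ (B + 1) := by rw [Real.rpow_one]
        _ = (1 + ‖s‖) ^ (1 + (B + 1)) := (Real.rpow_add hbase0 _ _).symm
        _ ≤ (1 + ‖s‖) ^ (B + 3) :=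
            Real.rpow_le_rpow_of_exponent_le hbase (by linarith)
    rw [Zt_eq s hs1, hfe, norm_mul, norm_mul]
    have h6 : ‖ch w‖ * ‖riemannZeta w‖ ≤ (C1 * (1 + ‖s‖) ^ (B + 1)) * 5 := by
      refine mul_le_mul (hcg.trans ?_) hz (norm_nonneg _) (by positivity)
      exact mul_le_mul_of_nonneg_left h4 hC10.le
    calc ‖s - 1‖ * (‖ch w‖ * ‖riemannZeta w‖)
        ≤ (1 + ‖s‖) * ((C1 * (1 + ‖s‖) ^ (B + 1)) * 5) :=
          mul_le_mul (ZetaG_sub_one s) h6 (by positivity) hbase0.le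
      _ = 5 * C1 * ((1 + ‖s‖) * (1 + ‖s‖) ^ (B + 1)) := by ring
      _ ≤ 5 * C1 * (1 + ‖s‖) ^ (B + 3) := mul_le_mul_of_nonneg_left h5 (by positivity)
      _ ≤ (K + 5 * C1 + 5) * (1 + ‖s‖) ^ (B + 3) :=
          mul_le_mul_of_nonneg_right (by linarith) hP0

end Pool.Agent.H14.CO

end
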