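import Pool.Agent.H47.B1.M08
import Pool.Agent.H47.B1.M09

/-! The parts of this file: H14.CO.Interp, H14.CO.MVT, H14.CO.MobLog, H14.CO.MobCop, H14.CO.BfDef, H14.CO.BfSum, H14.CO.LamB, H14.CO.Gcd, H14.CO.LamIn, H14.CO.Yf, H14.CO.Chi, H14.CO.Select. -/

section

/-!
# CO module Interp: pointwise interpolation between two vertical lines
-/

set_option autoImplicit false

namespace Pool.Agent.H14.CO

open Set MeasureTheory Complex

/-- Weighted Cauchy–Schwarz, private copy (the public statement is `cs_int` below). -/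
theorem Interp_cs (k f : ℝ → ℝ) (hk : Integrable k) (hk0 : ∀ y, 0 ≤ k y)
    (hf : AEStronglyMeasurable f) (hkf : Integrable (fun y => k y * f y ^ 2)) :
    Integrable (fun y => k y * f y) ∧
    (∫ y : ℝ, k y * f y) ^ 2 ≤ (∫ y : ℝ, k y) * ∫ y : ℝ, k y * f y ^ 2 := by
  have h1 : Integrable (fun y => k y * f y) := by
    refine (hk.add hkf).mono' (hk.aestronglyMeasurable.mul hf) ?_
    filter_upwards with y
    rw [Real.norm_eq_abs, abs_mul, abs_of_nonneg (hk0 y)]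
    have h2 : |f y| ≤ 1 + f y ^ 2 := by
      have h3 : f y ^ 2 = |f y| ^ 2 := (sq_abs _).symm
      rw [h3]
      nlinarith [abs_nonneg (f y), sq_nonneg (|f y| - 1)]
    calc k y * |f y| ≤ k y * (1 + f y ^ 2) := mul_le_mul_of_nonneg_left h2 (hk0 y)
      _ = k y + k y * f y ^ 2 := by ring
  refine ⟨h1, ?_⟩
  have h2 : ∀ t : ℝ, 0 ≤ (∫ y : ℝ, k y) * (t * t) + (-2 * ∫ y : ℝ, k y * f y) * t
      + ∫ y : ℝ, k y * f y ^ 2 := by
    intro t
    have h3 : 0 ≤ ∫ y : ℝ, k y * (t - f y) ^ 2 :=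
      integral_nonneg (fun y => mul_nonneg (hk0 y) (sq_nonneg _))
    have h4 : ∫ y : ℝ, k y * (t - f y) ^ 2
        = (∫ y : ℝ, k y) * (t * t) + (-2 * ∫ y : ℝ, k y * f y) * t
          + ∫ y : ℝ, k y * f y ^ 2 := by
      have h5 : (fun y : ℝ => k y * (t - f y) ^ 2)
          = fun y => (k y * (t * t) + (k y * f y) * (-2 * t)) + k y * f y ^ 2 := by
        funext y
        ring
      have i1 : Integrable (fun y : ℝ => k y * (t * t) + (k y * f y) * (-2 * t)) :=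
        (hk.mul_const _).add (h1.mul_const _)
      rw [h5, integral_add i1 hkf,
        integral_add (hk.mul_const _) (h1.mul_const _), integral_mul_const, integral_mul_const]
      ring
    linarith [h3, h4]
  have h3 := discrim_le_zero h2
  unfold discrim at h3
  nlinarith [h3]

/-- the factor `(1+|y|)^n exp(-y²)` is bounded -/
theorem Interp_poly_exp (n : ℕ) (y : ℝ) :
    (1 + |y|) ^ n * Real.exp (-y ^ 2) ≤ (n.factorial : ℝ) * Real.exp 2 := by
  have h1 : (1 + |y|) ^ n / (n.factorial : ℝ) ≤ Real.exp (1 + |y|) :=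
    Real.pow_div_factorial_le_exp _ (by positivity) n
  have h2 : (0 : ℝ) < n.factorial := by exact_mod_cast Nat.factorial_pos n
  have h3 : (1 + |y|) ^ n ≤ n.factorial * Real.exp (1 + |y|) := by
    rw [div_le_iff₀ h2] at h1
    linarith
  calc (1 + |y|) ^ n * Real.exp (-y ^ 2)
      ≤ (n.factorial * Real.exp (1 + |y|)) * Real.exp (-y ^ 2) :=
        mul_le_mul_of_nonneg_right h3 (Real.exp_pos _).le
    _ = n.factorial * Real.exp ((1 + |y|) + -y ^ 2) := by rw [mul_assoc, ← Real.exp_add]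
    _ ≤ n.factorial * Real.exp 2 := by
        apply mul_le_mul_of_nonneg_left _ h2.le
        apply Real.exp_le_exp.mpr
        have h4 : y ^ 2 = |y| ^ 2 := (sq_abs _).symm
        rw [h4]
        nlinarith [sq_nonneg (|y| - 1), abs_nonneg y]

theorem Interp_kn (h : ℝ) (hh : 0 < h) (z : ℂ) (L : ℝ) (hL : |z.re| ≤ L) :
    ‖kn h z‖ ≤ 2 ^ 32 * Real.exp (32 * h * L + L ^ 2) * Real.exp (-z.im ^ 2) := by
  have h1 := norm_kn_le h hh.le z
  have h2 : (1 : ℝ) ≤ (1 + h * ‖z‖) ^ 32 := by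
    apply one_le_pow₀
    have := mul_nonneg hh.le (norm_nonneg z)
    linarith
  have h3 : ‖kn h z‖ ≤ ‖kn h z‖ * (1 + h * ‖z‖) ^ 32 :=
    le_mul_of_one_le_right (norm_nonneg _) h2
  have h4 : Real.exp (32 * h * |z.re| + z.re ^ 2 - z.im ^ 2)
      ≤ Real.exp (32 * h * L + L ^ 2) * Real.exp (-z.im ^ 2) := by
    rw [← Real.exp_add]
    apply Real.exp_le_exp.mpr
    have h5 : z.re ^ 2 ≤ L ^ 2 := by
      rw [← sq_abs]
      exact pow_le_pow_left₀ (abs_nonneg _) hL 2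
    have h6 : 32 * h * |z.re| ≤ 32 * h * L := mul_le_mul_of_nonneg_left hL (by positivity)
    linarith
  calc ‖kn h z‖ ≤ 2 ^ 32 * Real.exp (32 * h * |z.re| + z.re ^ 2 - z.im ^ 2) := h3.trans h1
    _ ≤ 2 ^ 32 * (Real.exp (32 * h * L + L ^ 2) * Real.exp (-z.im ^ 2)) :=
        mul_le_mul_of_nonneg_left h4 (by positivity)
    _ = _ := by ring

/-- one line of the interpolation: with `σ ≠ 0`, `|∫ G(w+σ+iy) exp(lm(σ+iy)) kn/(σ+iy)|² ≤ ...`. -/
theorem Interp_line (G : ℂ → ℂ) (c : ℝ)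
    (hG : ∀ z : ℂ, z.re = c → DifferentiableAt ℂ G z) (A : ℝ) (k : ℕ)
    (hA : ∀ z : ℂ, z.re = c → ‖G z‖ ≤ A * (1 + |z.im|) ^ k)
    (h lm : ℝ) (hh : 0 < h) (w : ℂ) (hwc : c - w.re ≠ 0) :
    ‖∫ y : ℝ, (G (w + ((c - w.re : ℝ) + y * I)) * Complex.exp (lm * ((c - w.re : ℝ) + y * I)) *
        kn h ((c - w.re : ℝ) + y * I)) / ((c - w.re : ℝ) + y * I)‖ ^ 2 ≤
      Real.exp (2 * lm * (c - w.re)) *
        ((∫ y : ℝ, ‖kn h ((c - w.re : ℝ) + y * I) / ((c - w.re : ℝ) + y * I)‖) *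
        ∫ y : ℝ, ‖kn h ((c - w.re : ℝ) + y * I) / ((c - w.re : ℝ) + y * I)‖ *
          ‖G (c + (w.im + y) * I)‖ ^ 2) := by
  set σ : ℝ := c - w.re with hσ
  have hpt : ∀ y : ℝ, w + ((σ : ℂ) + y * I) = c + (w.im + y) * I := by
    intro y
    apply Complex.ext
    · simp [hσ]
    · simp
  have hre : ∀ y : ℝ, ((c : ℂ) + (w.im + y) * I).re = c := by
    intro y
    simp
  have him : ∀ y : ℝ, ((c : ℂ) + (w.im + y) * I).im = w.im + y := by
    intro y
    simp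
  have hσne : ∀ y : ℝ, ((σ : ℂ) + y * I) ≠ 0 := by
    intro y h0
    apply hwc
    have := congrArg Complex.re h0
    simpa using this
  have hA0 : 0 ≤ A := by
    have h1 := hA (c : ℂ) (by simp)
    have h2 : (0 : ℝ) ≤ A * (1 + |(c : ℂ).im|) ^ k := (norm_nonneg _).trans h1
    simpa using h2
  -- continuity
  have hcG : Continuous (fun y : ℝ => G (c + (w.im + y) * I)) := by
    rw [continuous_iff_continuousAt]
    intro y
    have h1 : ContinuousAt G (c + (w.im + y) * I) := (hG _ (hre y)).continuousAt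
    have h2 : ContinuousAt (fun y : ℝ => ((c : ℂ) + (w.im + y) * I)) y := by fun_prop
    exact ContinuousAt.comp (f := fun y : ℝ => ((c : ℂ) + (w.im + y) * I)) h1 h2
  have hck : Continuous (fun y : ℝ => kn h ((σ : ℂ) + y * I) / ((σ : ℂ) + y * I)) := by
    apply Continuous.div
    · exact (differentiable_kn h).continuous.comp (by fun_prop)
    · fun_prop
    · exact hσne
  set K : ℝ → ℝ := fun y => ‖kn h ((σ : ℂ) + y * I) / ((σ : ℂ) + y * I)‖ with hK
  set f : ℝ → ℝ := fun y => ‖G (c + (w.im + y) * I)‖ with hf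
  have hK0 : ∀ y, 0 ≤ K y := fun y => norm_nonneg _
  have hKc : Continuous K := hck.norm
  have hfc : Continuous f := hcG.norm
  obtain ⟨C, hC, hCi⟩ := kn_int (2 * k)
  obtain ⟨hint, -⟩ := hCi h σ hh hwc
  have hone : ∀ y : ℝ, (1 : ℝ) ≤ (1 + h * |y|) ^ 30 := by
    intro y
    apply one_le_pow₀
    have := mul_nonneg hh.le (abs_nonneg y)
    linarith
  have hone2 : ∀ y : ℝ, (1 : ℝ) ≤ (1 + |y|) ^ (2 * k) := by
    intro y
    apply one_le_pow₀
    have := abs_nonneg y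
    linarith
  have hKint : Integrable K := by
    refine hint.mono' hKc.aestronglyMeasurable ?_
    filter_upwards with y
    rw [Real.norm_eq_abs, abs_of_nonneg (hK0 y)]
    have h1 : (1 : ℝ) ≤ (1 + h * |y|) ^ 30 * (1 + |y|) ^ (2 * k) := by
      have := mul_le_mul (hone y) (hone2 y) zero_le_one (zero_le_one.trans (hone y))
      linarith
    exact le_mul_of_one_le_left (hK0 y) h1
  have hfb : ∀ y : ℝ, f y ^ 2 ≤ (A * (1 + |w.im|) ^ k) ^ 2 * (1 + |y|) ^ (2 * k) := by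
    intro y
    have h1 : f y ≤ A * (1 + |w.im + y|) ^ k := by
      have := hA (c + (w.im + y) * I) (hre y)
      rwa [him y] at this
    have h2 : 1 + |w.im + y| ≤ (1 + |w.im|) * (1 + |y|) := by
      have h3 := abs_add_le w.im y
      nlinarith [abs_nonneg w.im, abs_nonneg y, mul_nonneg (abs_nonneg w.im) (abs_nonneg y)]
    have h3 : f y ≤ (A * (1 + |w.im|) ^ k) * (1 + |y|) ^ k := by
      calc f y ≤ A * (1 + |w.im + y|) ^ k := h1
        _ ≤ A * ((1 + |w.im|) * (1 + |y|)) ^ k := by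
            apply mul_le_mul_of_nonneg_left _ hA0
            exact pow_le_pow_left₀ (by positivity) h2 k
        _ = _ := by rw [mul_pow]; ring
    calc f y ^ 2 ≤ ((A * (1 + |w.im|) ^ k) * (1 + |y|) ^ k) ^ 2 :=
          pow_le_pow_left₀ (norm_nonneg _) h3 2
      _ = _ := by rw [mul_pow, ← pow_mul, mul_comm k 2]
  have hKf : Integrable (fun y => K y * f y ^ 2) := by
    refine (hint.const_mul ((A * (1 + |w.im|) ^ k) ^ 2)).mono'
      (hKc.mul (hfc.pow 2)).aestronglyMeasurable ?_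
    filter_upwards with y
    rw [Real.norm_eq_abs, abs_of_nonneg (mul_nonneg (hK0 y) (sq_nonneg _))]
    calc K y * f y ^ 2
        ≤ K y * ((A * (1 + |w.im|) ^ k) ^ 2 * (1 + |y|) ^ (2 * k)) :=
          mul_le_mul_of_nonneg_left (hfb y) (hK0 y)
      _ = (A * (1 + |w.im|) ^ k) ^ 2 * (1 * (1 + |y|) ^ (2 * k) * K y) := by ring
      _ ≤ (A * (1 + |w.im|) ^ k) ^ 2 * ((1 + h * |y|) ^ 30 * (1 + |y|) ^ (2 * k) * K y) := by
          apply mul_le_mul_of_nonneg_left _ (sq_nonneg _)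
          apply mul_le_mul_of_nonneg_right _ (hK0 y)
          exact mul_le_mul_of_nonneg_right (hone y) (by positivity)
  obtain ⟨-, hcs⟩ := Interp_cs K f hKint hK0 hfc.aestronglyMeasurable hKf
  have hnorm : ∀ y : ℝ, ‖(G (w + ((σ : ℂ) + y * I)) * Complex.exp (lm * ((σ : ℂ) + y * I)) *
        kn h ((σ : ℂ) + y * I)) / ((σ : ℂ) + y * I)‖ = Real.exp (lm * σ) * (K y * f y) := by
    intro y
    rw [hpt y]
    have h1 : ‖Complex.exp (lm * ((σ : ℂ) + y * I))‖ = Real.exp (lm * σ) := by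
      rw [Complex.norm_exp]
      congr 1
      simp
    rw [mul_div_assoc, norm_mul, norm_mul, h1]
    simp only [hK, hf]
    ring
  have hle : ‖∫ y : ℝ, (G (w + ((σ : ℂ) + y * I)) * Complex.exp (lm * ((σ : ℂ) + y * I)) *
        kn h ((σ : ℂ) + y * I)) / ((σ : ℂ) + y * I)‖ ≤ Real.exp (lm * σ) * ∫ y : ℝ, K y * f y := by
    refine (norm_integral_le_integral_norm _).trans ?_
    rw [← integral_const_mul]
    apply le_of_eq
    exact integral_congr_ae (Filter.Eventually.of_forall hnorm)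
  calc ‖∫ y : ℝ, (G (w + ((σ : ℂ) + y * I)) * Complex.exp (lm * ((σ : ℂ) + y * I)) *
        kn h ((σ : ℂ) + y * I)) / ((σ : ℂ) + y * I)‖ ^ 2
      ≤ (Real.exp (lm * σ) * ∫ y : ℝ, K y * f y) ^ 2 :=
        pow_le_pow_left₀ (norm_nonneg _) hle 2
    _ = Real.exp (2 * lm * σ) * (∫ y : ℝ, K y * f y) ^ 2 := by
        rw [mul_pow, ← Real.exp_nat_mul]
        congr 2
        push_cast
        ring
    _ ≤ Real.exp (2 * lm * σ) * ((∫ y : ℝ, K y) * ∫ y : ℝ, K y * f y ^ 2) :=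
        mul_le_mul_of_nonneg_left hcs (Real.exp_pos _).le

/-- For `G` holomorphic of polynomial growth on `a ≤ Re z ≤ b` and `a < Re w < b`, `h > 0`, `lm` real.

PROOF. `line_residue` for `z ↦ G (w + z) * exp (lm * z) * kn h z` on the strip
`a - Re w ≤ Re z ≤ b - Re w` (`kn h 0 = 1`, decay from `norm_kn_le`: the factor `exp(-y²)` beats
everything) gives `2π G w = ∫_{(b - Re w)} - ∫_{(a - Re w)}` of `G(w+z) exp(lm z) kn h z / z`;
then `‖∫ f k‖² ≤ (∫ ‖k‖) (∫ ‖k‖ ‖f‖²)`, `(x+y)² ≤ 2x²+2y²` and `2/(4π²) ≤ 1`. -/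
theorem interp (G : ℂ → ℂ) (a b : ℝ)
    (hG : ∀ z : ℂ, a ≤ z.re → z.re ≤ b → DifferentiableAt ℂ G z) (A : ℝ) (k : ℕ)
    (hA : ∀ z : ℂ, a ≤ z.re → z.re ≤ b → ‖G z‖ ≤ A * (1 + |z.im|) ^ k)
    (h lm : ℝ) (hh : 0 < h) (w : ℂ) (hwa : a < w.re) (hwb : w.re < b) :
    ‖G w‖ ^ 2 ≤
      Real.exp (-2 * lm * (w.re - a)) *
        ((∫ y : ℝ, ‖kn h ((a - w.re : ℝ) + y * I) / ((a - w.re : ℝ) + y * I)‖) *
        ∫ y : ℝ, ‖kn h ((a - w.re : ℝ) + y * I) / ((a - w.re : ℝ) + y * I)‖ *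
          ‖G (a + (w.im + y) * I)‖ ^ 2) +
      Real.exp (2 * lm * (b - w.re)) *
        ((∫ y : ℝ, ‖kn h ((b - w.re : ℝ) + y * I) / ((b - w.re : ℝ) + y * I)‖) *
        ∫ y : ℝ, ‖kn h ((b - w.re : ℝ) + y * I) / ((b - w.re : ℝ) + y * I)‖ *
          ‖G (b + (w.im + y) * I)‖ ^ 2) := by
  have hab : a < b := hwa.trans hwb
  have hA0 : 0 ≤ A := by
    have h1 := hA (a : ℂ) (by simp) (by simpa using hab.le)
    have h2 : (0 : ℝ) ≤ A * (1 + |(a : ℂ).im|) ^ k := (norm_nonneg _).trans h1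
    simpa using h2
  set F : ℂ → ℂ := fun z => G (w + z) * Complex.exp (lm * z) * kn h z with hF
  have hFd : ∀ z : ℂ, a - w.re ≤ z.re → z.re ≤ b - w.re → DifferentiableAt ℂ F z := by
    intro z h1 h2
    have h3 : DifferentiableAt ℂ G (w + z) := by
      apply hG
      · rw [Complex.add_re]; linarith
      · rw [Complex.add_re]; linarith
    have h4 : DifferentiableAt ℂ (fun z : ℂ => w + z) z := by fun_prop
    have h5 : DifferentiableAt ℂ (fun z : ℂ => G (w + z)) z :=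
      DifferentiableAt.comp z (g := G) (f := fun z : ℂ => w + z) h3 h4
    have h6 : DifferentiableAt ℂ (fun z : ℂ => Complex.exp (lm * z)) z := by fun_prop
    exact (h5.mul h6).mul (differentiable_kn h z)
  set L : ℝ := b - a with hL
  have hL0 : 0 < L := by rw [hL]; linarith
  have hFb : ∀ z : ℂ, a - w.re ≤ z.re → z.re ≤ b - w.re →
      ‖F z‖ ≤ (A * (1 + |w.im|) ^ k * Real.exp (|lm| * L) *
        (2 ^ 32 * Real.exp (32 * h * L + L ^ 2)) * (((k + 2).factorial : ℝ) * Real.exp 2))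
          / (1 + z.im ^ 2) := by
    intro z h1 h2
    have hzL : |z.re| ≤ L := by
      rw [abs_le]
      constructor
      · rw [hL]; linarith
      · rw [hL]; linarith
    have hGz : ‖G (w + z)‖ ≤ A * (1 + |w.im|) ^ k * (1 + |z.im|) ^ k := by
      have h3 := hA (w + z) (by rw [Complex.add_re]; linarith) (by rw [Complex.add_re]; linarith)
      have h4 : 1 + |(w + z).im| ≤ (1 + |w.im|) * (1 + |z.im|) := by
        rw [Complex.add_im]
        have h5 := abs_add_le w.im z.im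
        nlinarith [abs_nonneg w.im, abs_nonneg z.im, mul_nonneg (abs_nonneg w.im) (abs_nonneg z.im)]
      calc ‖G (w + z)‖ ≤ A * (1 + |(w + z).im|) ^ k := h3
        _ ≤ A * ((1 + |w.im|) * (1 + |z.im|)) ^ k := by
            apply mul_le_mul_of_nonneg_left _ hA0
            exact pow_le_pow_left₀ (by positivity) h4 k
        _ = _ := by rw [mul_pow]; ring
    have hE : ‖Complex.exp (lm * z)‖ ≤ Real.exp (|lm| * L) := by
      rw [Complex.norm_exp]
      apply Real.exp_le_exp.mpr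
      have h3 : ((lm : ℂ) * z).re = lm * z.re := by simp
      rw [h3]
      calc lm * z.re ≤ |lm * z.re| := le_abs_self _
        _ = |lm| * |z.re| := abs_mul _ _
        _ ≤ |lm| * L := mul_le_mul_of_nonneg_left hzL (abs_nonneg _)
    have hkz := Interp_kn h hh z L hzL
    have hy : (1 + |z.im|) ^ k * Real.exp (-z.im ^ 2) * (1 + z.im ^ 2)
        ≤ ((k + 2).factorial : ℝ) * Real.exp 2 := by
      have h3 : 1 + z.im ^ 2 ≤ (1 + |z.im|) ^ 2 := by
        have h4 : z.im ^ 2 = |z.im| ^ 2 := (sq_abs _).symm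
        rw [h4]
        nlinarith [abs_nonneg z.im]
      calc (1 + |z.im|) ^ k * Real.exp (-z.im ^ 2) * (1 + z.im ^ 2)
          ≤ (1 + |z.im|) ^ k * Real.exp (-z.im ^ 2) * (1 + |z.im|) ^ 2 :=
            mul_le_mul_of_nonneg_left h3 (by positivity)
        _ = (1 + |z.im|) ^ (k + 2) * Real.exp (-z.im ^ 2) := by ring
        _ ≤ _ := Interp_poly_exp (k + 2) z.im
    rw [le_div_iff₀ (by positivity)]
    have h3 : ‖F z‖ ≤ (A * (1 + |w.im|) ^ k * (1 + |z.im|) ^ k) * Real.exp (|lm| * L) *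
        (2 ^ 32 * Real.exp (32 * h * L + L ^ 2) * Real.exp (-z.im ^ 2)) := by
      rw [hF]
      simp only
      rw [norm_mul, norm_mul]
      apply mul_le_mul _ hkz (norm_nonneg _) (by positivity)
      exact mul_le_mul hGz hE (norm_nonneg _) (by positivity)
    calc ‖F z‖ * (1 + z.im ^ 2)
        ≤ ((A * (1 + |w.im|) ^ k * (1 + |z.im|) ^ k) * Real.exp (|lm| * L) *
        (2 ^ 32 * Real.exp (32 * h * L + L ^ 2) * Real.exp (-z.im ^ 2))) * (1 + z.im ^ 2) :=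
          mul_le_mul_of_nonneg_right h3 (by positivity)
      _ = (A * (1 + |w.im|) ^ k * Real.exp (|lm| * L) *
        (2 ^ 32 * Real.exp (32 * h * L + L ^ 2))) *
          ((1 + |z.im|) ^ k * Real.exp (-z.im ^ 2) * (1 + z.im ^ 2)) := by ring
      _ ≤ (A * (1 + |w.im|) ^ k * Real.exp (|lm| * L) *
        (2 ^ 32 * Real.exp (32 * h * L + L ^ 2))) * (((k + 2).factorial : ℝ) * Real.exp 2) :=
          mul_le_mul_of_nonneg_left hy (by positivity)
      _ = _ := by ring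
  have hres := line_residue F (a - w.re) (b - w.re) (by linarith) (by linarith) hFd _ hFb
  have hF0 : F 0 = G w := by
    rw [hF]
    simp [kn_zero]
  rw [hF0] at hres
  have hbne : b - w.re ≠ 0 := (sub_pos.mpr hwb).ne'
  have hane : a - w.re ≠ 0 := (sub_neg.mpr hwa).ne
  have hlb := Interp_line G b (fun z hz => hG z (by rw [hz]; exact hab.le) hz.le) A k
    (fun z hz => hA z (by rw [hz]; exact hab.le) hz.le) h lm hh w hbne
  have hla := Interp_line G a (fun z hz => hG z hz.ge (by rw [hz]; exact hab.le)) A k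
    (fun z hz => hA z hz.ge (by rw [hz]; exact hab.le)) h lm hh w hane
  set Ib : ℂ := ∫ y : ℝ, F (((b - w.re : ℝ) : ℂ) + y * I) / (((b - w.re : ℝ) : ℂ) + y * I) with hIb
  set Ia : ℂ := ∫ y : ℝ, F (((a - w.re : ℝ) : ℂ) + y * I) / (((a - w.re : ℝ) : ℂ) + y * I) with hIa
  have hlb' : ‖Ib‖ ^ 2 ≤ Real.exp (2 * lm * (b - w.re)) *
        ((∫ y : ℝ, ‖kn h ((b - w.re : ℝ) + y * I) / ((b - w.re : ℝ) + y * I)‖) *
        ∫ y : ℝ, ‖kn h ((b - w.re : ℝ) + y * I) / ((b - w.re : ℝ) + y * I)‖ *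
          ‖G (b + (w.im + y) * I)‖ ^ 2) := hlb
  have hla' : ‖Ia‖ ^ 2 ≤ Real.exp (-2 * lm * (w.re - a)) *
        ((∫ y : ℝ, ‖kn h ((a - w.re : ℝ) + y * I) / ((a - w.re : ℝ) + y * I)‖) *
        ∫ y : ℝ, ‖kn h ((a - w.re : ℝ) + y * I) / ((a - w.re : ℝ) + y * I)‖ *
          ‖G (a + (w.im + y) * I)‖ ^ 2) := by
    have h1 : -2 * lm * (w.re - a) = 2 * lm * (a - w.re) := by ring
    rw [h1]
    exact hla
  have hn : 2 * Real.pi * ‖G w‖ = ‖Ib - Ia‖ := by
    rw [hres, norm_mul]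
    congr 1
    rw [norm_mul]
    simp [abs_of_pos Real.pi_pos]
  have hn2 : 2 * Real.pi * ‖G w‖ ≤ ‖Ib‖ + ‖Ia‖ := hn.le.trans (norm_sub_le _ _)
  have hpi := Real.pi_gt_three
  have hfin : ‖G w‖ ^ 2 ≤ ‖Ia‖ ^ 2 + ‖Ib‖ ^ 2 := by
    have h1 : 2 * ‖G w‖ ≤ 2 * Real.pi * ‖G w‖ := by
      apply mul_le_mul_of_nonneg_right _ (norm_nonneg _)
      linarith
    have h2 : 2 * ‖G w‖ ≤ ‖Ib‖ + ‖Ia‖ := h1.trans hn2
    nlinarith [norm_nonneg (G w), norm_nonneg Ia, norm_nonneg Ib, sq_nonneg (‖Ia‖ - ‖Ib‖),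
      mul_self_le_mul_self (by positivity : (0:ℝ) ≤ 2 * ‖G w‖) h2]
  linarith [hfin, hla', hlb']

/-- Weighted Cauchy–Schwarz used throughout. -/
theorem cs_int (k f : ℝ → ℝ) (hk : Integrable k) (hk0 : ∀ y, 0 ≤ k y) (hf0 : ∀ y, 0 ≤ f y)
    (hf : AEStronglyMeasurable f) (hkf : Integrable (fun y => k y * f y ^ 2)) :
    (∫ y : ℝ, k y * f y) ^ 2 ≤ (∫ y : ℝ, k y) * ∫ y : ℝ, k y * f y ^ 2 :=
  (Interp_cs k f hk hk0 hf hkf).2

end Pool.Agent.H14.CO

end

section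

/-!
# CO module MVT: the mean value theorem for Dirichlet polynomials with Gaussian weight
-/

set_option autoImplicit false

namespace Pool.Agent.H14.CO

open Set MeasureTheory Complex

private theorem MVT_fun (θ W τ : ℝ) (hW : 0 < W) (t : ℝ) :
    cexp (-(θ * t) * I) * ((gw τ W t : ℝ) : ℂ) =
      cexp (-(1 / (W : ℂ) ^ 2) * (t : ℂ) ^ 2 + (2 * τ / (W : ℂ) ^ 2 - θ * I) * t +
        -((τ : ℂ) ^ 2 / (W : ℂ) ^ 2)) := by
  have hW' : (W : ℂ) ≠ 0 := by exact_mod_cast hW.ne'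
  unfold gw
  rw [ofReal_exp, ← Complex.exp_add]
  congr 1
  push_cast
  field_simp
  ring

private theorem MVT_b (W : ℝ) (hW : 0 < W) : (-(1 / (W : ℂ) ^ 2)).re < 0 := by
  have : (-(1 / (W : ℂ) ^ 2)) = ((-(1 / W ^ 2) : ℝ) : ℂ) := by push_cast; rfl
  rw [this, ofReal_re]
  have : 0 < 1 / W ^ 2 := by positivity
  linarith

private theorem MVT_int (θ W τ : ℝ) (hW : 0 < W) :
    Integrable (fun t : ℝ => cexp (-(θ * t) * I) * ((gw τ W t : ℝ) : ℂ)) := by
  have h : (fun t : ℝ => cexp (-(θ * t) * I) * ((gw τ W t : ℝ) : ℂ)) = fun t : ℝ =>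
      cexp (-(1 / (W : ℂ) ^ 2) * (t : ℂ) ^ 2 + (2 * τ / (W : ℂ) ^ 2 - θ * I) * t +
        -((τ : ℂ) ^ 2 / (W : ℂ) ^ 2)) := funext fun t => MVT_fun θ W τ hW t
  rw [h]
  exact integrable_cexp_quadratic' (MVT_b W hW) _ _

private theorem MVT_val (θ W τ : ℝ) (hW : 0 < W) :
    ∫ t : ℝ, cexp (-(θ * t) * I) * ((gw τ W t : ℝ) : ℂ) =
      ((Real.sqrt Real.pi * W : ℝ) : ℂ) * cexp (-(θ * τ) * I - W ^ 2 * θ ^ 2 / 4) := by
  have hW' : (W : ℂ) ≠ 0 := by exact_mod_cast hW.ne'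
  have h : (fun t : ℝ => cexp (-(θ * t) * I) * ((gw τ W t : ℝ) : ℂ)) = fun t : ℝ =>
      cexp (-(1 / (W : ℂ) ^ 2) * (t : ℂ) ^ 2 + (2 * τ / (W : ℂ) ^ 2 - θ * I) * t +
        -((τ : ℂ) ^ 2 / (W : ℂ) ^ 2)) := funext fun t => MVT_fun θ W τ hW t
  rw [h, integral_cexp_quadratic (MVT_b W hW)]
  congr 1
  · have e1 : (Real.pi : ℂ) / -(-(1 / (W : ℂ) ^ 2)) = ((Real.pi * W ^ 2 : ℝ) : ℂ) := by
      push_cast
      field_simp
    have e2 : (1 / 2 : ℂ) = ((1 / 2 : ℝ) : ℂ) := by push_cast; rfl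
    rw [e1, e2, ← ofReal_cpow (by positivity), ← Real.sqrt_eq_rpow, Real.sqrt_mul Real.pi_pos.le,
      Real.sqrt_sq hW.le]
  · congr 1
    field_simp
    ring_nf
    rw [I_sq]
    ring

private theorem MVT_norm (θ W τ : ℝ) (hW : 0 < W) :
    ‖∫ t : ℝ, cexp (-(θ * t) * I) * ((gw τ W t : ℝ) : ℂ)‖ =
      Real.sqrt Real.pi * W * Real.exp (-(W ^ 2 * θ ^ 2 / 4)) := by
  rw [MVT_val θ W τ hW, norm_mul, norm_real, Complex.norm_exp, Real.norm_eq_abs,
    abs_of_pos (by positivity)]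
  congr 2
  have : (-((θ : ℂ) * τ) * I - (W : ℂ) ^ 2 * θ ^ 2 / 4) =
      ((-(W ^ 2 * θ ^ 2 / 4) : ℝ) : ℂ) + ((-(θ * τ) : ℝ) : ℂ) * I := by
    push_cast
    ring
  rw [this, add_re, ofReal_re, re_ofReal_mul, I_re, mul_zero, add_zero]

private theorem MVT_sq (N : ℕ) (a : ℕ → ℂ) (t : ℝ) :
    ((‖∑ n ∈ Finset.Icc 1 N, a n * (n : ℂ) ^ (-(t * I))‖ ^ 2 : ℝ) : ℂ) =
      ∑ m ∈ Finset.Icc 1 N, ∑ n ∈ Finset.Icc 1 N, a m * (starRingEnd ℂ) (a n) *
        cexp (-(((Real.log m - Real.log n : ℝ) : ℂ) * t) * I) := by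
  have h1 : ∀ n ∈ Finset.Icc 1 N, (n : ℂ) ^ (-(t * I)) = cexp (-(((Real.log n : ℝ) : ℂ) * t) * I) := by
    intro n hn
    rw [Finset.mem_Icc] at hn
    have hn0 : (n : ℂ) ≠ 0 := by exact_mod_cast (by omega : n ≠ 0)
    rw [cpow_def_of_ne_zero hn0, ← natCast_log]
    congr 1
    ring
  rw [Finset.sum_congr rfl fun n hn => by rw [h1 n hn]]
  set S := ∑ n ∈ Finset.Icc 1 N, a n * cexp (-(((Real.log n : ℝ) : ℂ) * t) * I) with hS
  have h2 : ((‖S‖ ^ 2 : ℝ) : ℂ) = S * (starRingEnd ℂ) S := by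
    rw [mul_conj, normSq_eq_norm_sq]
  rw [h2, hS, map_sum, Finset.sum_mul_sum]
  refine Finset.sum_congr rfl fun m _ => Finset.sum_congr rfl fun n _ => ?_
  rw [map_mul, ← exp_conj]
  have h3 : (starRingEnd ℂ) (-(((Real.log n : ℝ) : ℂ) * t) * I) = ((Real.log n : ℝ) : ℂ) * t * I := by
    rw [map_mul, map_neg, map_mul, conj_ofReal, conj_ofReal, conj_I]
    ring
  rw [h3, mul_mul_mul_comm, ← Complex.exp_add]
  congr 2
  push_cast
  ring

private theorem MVT_expand (N : ℕ) (a : ℕ → ℂ) (W τ : ℝ) (t : ℝ) :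
    ((‖∑ n ∈ Finset.Icc 1 N, a n * (n : ℂ) ^ (-(t * I))‖ ^ 2 * gw τ W t : ℝ) : ℂ) =
      ∑ m ∈ Finset.Icc 1 N, ∑ n ∈ Finset.Icc 1 N, a m * (starRingEnd ℂ) (a n) *
        (cexp (-(((Real.log m - Real.log n : ℝ) : ℂ) * t) * I) * ((gw τ W t : ℝ) : ℂ)) := by
  rw [ofReal_mul, MVT_sq, Finset.sum_mul]
  refine Finset.sum_congr rfl fun m _ => ?_
  rw [Finset.sum_mul]
  refine Finset.sum_congr rfl fun n _ => ?_
  ring

private theorem MVT_log {N m n : ℕ} (hm : m ∈ Finset.Icc 1 N) (hn : n ∈ Finset.Icc 1 N)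
    (h : m ≠ n) : 1 / (N : ℝ) ≤ |Real.log m - Real.log n| := by
  have key : ∀ m n : ℕ, m ∈ Finset.Icc 1 N → n ∈ Finset.Icc 1 N → n < m →
      1 / (N : ℝ) ≤ Real.log m - Real.log n := by
    intro m n hm hn h
    rw [Finset.mem_Icc] at hm hn
    have hm0 : (0 : ℝ) < m := by exact_mod_cast (by omega : 0 < m)
    have hn0 : (0 : ℝ) < n := by exact_mod_cast (by omega : 0 < n)
    have hN0 : (0 : ℝ) < N := by exact_mod_cast (by omega : 0 < N)
    rw [← Real.log_div hm0.ne' hn0.ne']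
    have h1 := Real.one_sub_inv_le_log_of_pos (div_pos hm0 hn0)
    refine le_trans ?_ h1
    rw [inv_div]
    have h2 : (n : ℝ) + 1 ≤ m := by exact_mod_cast h
    have h3 : (m : ℝ) ≤ N := by exact_mod_cast hm.2
    have h4 : 1 - (n : ℝ) / m = (m - n) / m := by field_simp
    rw [h4, div_le_div_iff₀ hN0 hm0]
    nlinarith
  rcases lt_or_gt_of_ne h with h' | h'
  · rw [abs_sub_comm]
    exact (key n m hn hm h').trans (le_abs_self _)
  · exact (key m n hm hn h').trans (le_abs_self _)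

/-- PROOF. Expanding the square,
`∫ (m/n)^{it} gw τ W t dt = √π W (m/n)^{iτ} exp(-W² log²(m/n)/4)` (Gaussian Fourier transform,
`fourierIntegral_gaussian`/`integral_cexp_neg_mul_sq_add_const`-type lemmas). Diagonal:
`√π W ∑ ‖a n‖²`. For `m ≠ n ≤ N`, `|log(m/n)| ≥ 1/N` and `W/(2N) ≥ 2(1+log N)`, so the off-diagonal
terms are in total `≤ √π W exp(-4(1+log N)²) (∑ ‖a n‖)² ≤ √π W N exp(-4-4 log N) ∑ ‖a n‖²
≤ √π W e^{-4} ∑ ‖a n‖²`. `√π (1+e^{-4}) ≤ 2`, `√π (1 - e^{-4}) ≥ 3/2`. -/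
theorem gauss_mvt (N : ℕ) (hN : 1 ≤ N) (a : ℕ → ℂ) (W τ : ℝ)
    (hW : 4 * (N : ℝ) * (1 + Real.log N) ≤ W) :
    Integrable (fun t : ℝ => ‖∑ n ∈ Finset.Icc 1 N, a n * (n : ℂ) ^ (-(t * I))‖ ^ 2 * gw τ W t) ∧
    3 / 2 * W * ∑ n ∈ Finset.Icc 1 N, ‖a n‖ ^ 2
      ≤ ∫ t : ℝ, ‖∑ n ∈ Finset.Icc 1 N, a n * (n : ℂ) ^ (-(t * I))‖ ^ 2 * gw τ W t ∧
    ∫ t : ℝ, ‖∑ n ∈ Finset.Icc 1 N, a n * (n : ℂ) ^ (-(t * I))‖ ^ 2 * gw τ W t
      ≤ 2 * W * ∑ n ∈ Finset.Icc 1 N, ‖a n‖ ^ 2 := by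
  have hN1 : (1 : ℝ) ≤ N := by exact_mod_cast hN
  have hN0 : (0 : ℝ) < N := by linarith
  have hL : 0 ≤ Real.log N := Real.log_nonneg hN1
  have hW0 : 0 < W := by
    have : 0 < 4 * (N : ℝ) * (1 + Real.log N) := by positivity
    linarith
  set f : ℝ → ℝ := fun t => ‖∑ n ∈ Finset.Icc 1 N, a n * (n : ℂ) ^ (-(t * I))‖ ^ 2 * gw τ W t with hf
  have hterm : ∀ m n : ℕ, Integrable (fun t : ℝ => a m * (starRingEnd ℂ) (a n) *
      (cexp (-(((Real.log m - Real.log n : ℝ) : ℂ) * t) * I) * ((gw τ W t : ℝ) : ℂ))) :=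
    fun m n => (MVT_int _ W τ hW0).const_mul _
  have hfC : (fun t : ℝ => ((f t : ℝ) : ℂ)) = fun t : ℝ =>
      ∑ m ∈ Finset.Icc 1 N, ∑ n ∈ Finset.Icc 1 N, a m * (starRingEnd ℂ) (a n) *
        (cexp (-(((Real.log m - Real.log n : ℝ) : ℂ) * t) * I) * ((gw τ W t : ℝ) : ℂ)) :=
    funext fun t => MVT_expand N a W τ t
  have hintC : Integrable (fun t : ℝ => ((f t : ℝ) : ℂ)) := by
    rw [hfC]
    exact integrable_finsetSum _ fun m _ => integrable_finsetSum _ fun n _ => hterm m n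
  have hint : Integrable f := by
    have := hintC.re
    simpa using this
  refine ⟨hint, ?_⟩
  -- the value of the integral
  have hval : ((∫ t : ℝ, f t : ℝ) : ℂ) = ∑ m ∈ Finset.Icc 1 N, ∑ n ∈ Finset.Icc 1 N,
      a m * (starRingEnd ℂ) (a n) *
        ∫ t : ℝ, cexp (-(((Real.log m - Real.log n : ℝ) : ℂ) * t) * I) * ((gw τ W t : ℝ) : ℂ) := by
    have h0 : ((∫ t : ℝ, f t : ℝ) : ℂ) = ∫ t : ℝ, ((f t : ℝ) : ℂ) := integral_complex_ofReal.symm
    rw [h0, hfC, integral_finsetSum _ fun m _ =>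
      integrable_finsetSum _ fun n _ => hterm m n]
    refine Finset.sum_congr rfl fun m _ => ?_
    rw [integral_finsetSum _ fun n _ => hterm m n]
    refine Finset.sum_congr rfl fun n _ => ?_
    rw [integral_const_mul]
  set J : ℕ → ℕ → ℂ := fun m n =>
    ∫ t : ℝ, cexp (-(((Real.log m - Real.log n : ℝ) : ℂ) * t) * I) * ((gw τ W t : ℝ) : ℂ) with hJ
  set A := ∑ n ∈ Finset.Icc 1 N, ‖a n‖ ^ 2 with hA
  have hA0 : 0 ≤ A := Finset.sum_nonneg fun n _ => sq_nonneg _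
  set c := Real.sqrt Real.pi * W with hc
  have hc0 : 0 < c := by positivity
  -- diagonal
  have hdiag : ∀ m, J m m = (c : ℂ) := by
    intro m
    rw [hJ]
    simp only
    rw [MVT_val _ W τ hW0, sub_self]
    simp [hc]
  -- off diagonal
  have hoff : ∀ m ∈ Finset.Icc 1 N, ∀ n ∈ Finset.Icc 1 N, m ≠ n →
      ‖J m n‖ ≤ c * (Real.exp (-4) / N) := by
    intro m hm n hn hmn
    rw [hJ]
    simp only
    rw [MVT_norm _ W τ hW0, ← hc]
    refine mul_le_mul_of_nonneg_left ?_ hc0.le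
    have h1 := MVT_log hm hn hmn
    set θ := Real.log m - Real.log n with hθ
    have h2 : 4 * (1 + Real.log N) ≤ W * |θ| := by
      calc 4 * (1 + Real.log N) = (4 * (N : ℝ) * (1 + Real.log N)) * (1 / N) := by
            field_simp
        _ ≤ W * |θ| := by gcongr
    have h3 : 4 + Real.log N ≤ W ^ 2 * θ ^ 2 / 4 := by
      have h4 : W ^ 2 * θ ^ 2 = (W * |θ|) ^ 2 := by rw [mul_pow, sq_abs]
      rw [h4]
      have h5 : (4 * (1 + Real.log N)) ^ 2 ≤ (W * |θ|) ^ 2 := by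
        have : 0 ≤ 4 * (1 + Real.log N) := by positivity
        gcongr
      nlinarith
    calc Real.exp (-(W ^ 2 * θ ^ 2 / 4)) ≤ Real.exp (-4 - Real.log N) :=
          Real.exp_le_exp.2 (by linarith)
      _ = Real.exp (-4) / N := by rw [Real.exp_sub, Real.exp_log hN0]
  -- comparison with the diagonal
  have hsub : ((∫ t : ℝ, f t : ℝ) : ℂ) - ((c * A : ℝ) : ℂ) = ∑ m ∈ Finset.Icc 1 N,
      ∑ n ∈ Finset.Icc 1 N, a m * (starRingEnd ℂ) (a n) * (if m = n then 0 else J m n) := by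
    have e1 : ((c * A : ℝ) : ℂ) = ∑ m ∈ Finset.Icc 1 N, ∑ n ∈ Finset.Icc 1 N,
        a m * (starRingEnd ℂ) (a n) * (if m = n then J m n else 0) := by
      rw [ofReal_mul, hA, ofReal_sum, Finset.mul_sum]
      refine Finset.sum_congr rfl fun m hm => ?_
      rw [Finset.sum_eq_single m]
      · rw [if_pos rfl, hdiag, mul_conj, normSq_eq_norm_sq]
        ring
      · intro n _ hn
        rw [if_neg (Ne.symm hn), mul_zero]
      · intro h
        exact absurd hm h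
    rw [hval, e1, ← Finset.sum_sub_distrib]
    refine Finset.sum_congr rfl fun m _ => ?_
    rw [← Finset.sum_sub_distrib]
    refine Finset.sum_congr rfl fun n _ => ?_
    by_cases h : m = n
    · rw [if_pos h, if_pos h]
      ring
    · rw [if_neg h, if_neg h]
      ring
  have he4 : Real.exp (-4) ≤ 1 / 16 := by
    have h1 : (2 : ℝ) ≤ Real.exp 1 := by
      have := Real.add_one_le_exp (1 : ℝ)
      linarith
    have h2 : Real.exp 4 = Real.exp 1 ^ 4 := by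
      rw [← Real.exp_nat_mul]
      norm_num
    have h3 : (16 : ℝ) ≤ Real.exp 4 := by
      rw [h2]
      calc (16 : ℝ) = 2 ^ 4 := by norm_num
        _ ≤ _ := by gcongr
    rw [Real.exp_neg, one_div]
    gcongr
  have hbound : |(∫ t : ℝ, f t) - c * A| ≤ c * A / 16 := by
    have e1 : |(∫ t : ℝ, f t) - c * A| = ‖((∫ t : ℝ, f t : ℝ) : ℂ) - ((c * A : ℝ) : ℂ)‖ := by
      rw [← ofReal_sub, norm_real, Real.norm_eq_abs]
    rw [e1, hsub]
    have e2 : ‖∑ m ∈ Finset.Icc 1 N, ∑ n ∈ Finset.Icc 1 N,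
        a m * (starRingEnd ℂ) (a n) * (if m = n then 0 else J m n)‖ ≤
        ∑ m ∈ Finset.Icc 1 N, ∑ n ∈ Finset.Icc 1 N, ‖a m‖ * ‖a n‖ * (c * (Real.exp (-4) / N)) := by
      refine (norm_sum_le _ _).trans (Finset.sum_le_sum fun m hm => ?_)
      refine (norm_sum_le _ _).trans (Finset.sum_le_sum fun n hn => ?_)
      rw [norm_mul, norm_mul, RCLike.norm_conj]
      refine mul_le_mul_of_nonneg_left ?_ (by positivity)
      split_ifs with h
      · rw [norm_zero]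
        positivity
      · exact hoff m hm n hn h
    refine e2.trans ?_
    have e3 : ∑ m ∈ Finset.Icc 1 N, ∑ n ∈ Finset.Icc 1 N, ‖a m‖ * ‖a n‖ * (c * (Real.exp (-4) / N)) =
        (∑ m ∈ Finset.Icc 1 N, ‖a m‖) ^ 2 * (c * (Real.exp (-4) / N)) := by
      rw [sq, Finset.sum_mul_sum, Finset.sum_mul]
      refine Finset.sum_congr rfl fun m _ => ?_
      rw [Finset.sum_mul]
    rw [e3]
    have e4 : (∑ m ∈ Finset.Icc 1 N, ‖a m‖) ^ 2 ≤ N * A := by
      have := @sq_sum_le_card_mul_sum_sq ℕ ℝ _ _ _ _ (Finset.Icc 1 N) (fun m => ‖a m‖)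
      rw [Nat.card_Icc, Nat.add_sub_cancel] at this
      exact this
    calc (∑ m ∈ Finset.Icc 1 N, ‖a m‖) ^ 2 * (c * (Real.exp (-4) / N)) ≤
          (N * A) * (c * ((1 / 16) / N)) := by gcongr
      _ = c * A / 16 := by field_simp
  have hb := abs_le.1 hbound
  have hpi1 : Real.sqrt Real.pi ≤ 1775 / 1000 := by
    rw [Real.sqrt_le_left (by norm_num)]
    have := Real.pi_lt_d2
    norm_num at this ⊢
    linarith
  have hpi2 : 177 / 100 ≤ Real.sqrt Real.pi := by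
    apply Real.le_sqrt_of_sq_le
    have := Real.pi_gt_d2
    norm_num at this ⊢
    linarith
  have hWA : 0 ≤ W * A := by positivity
  have hcA1 : c * A ≤ 1775 / 1000 * (W * A) := by
    rw [hc, mul_assoc]
    exact mul_le_mul_of_nonneg_right hpi1 hWA
  have hcA2 : 177 / 100 * (W * A) ≤ c * A := by
    rw [hc, mul_assoc]
    exact mul_le_mul_of_nonneg_right hpi2 hWA
  constructor
  · have : 3 / 2 * W * A = 3 / 2 * (W * A) := by ring
    rw [this]
    linarith [hb.1]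
  · have : 2 * W * A = 2 * (W * A) := by ring
    rw [this]
    linarith [hb.2]

end Pool.Agent.H14.CO

end

section

/-!
# CO module MobLog: the elementary bound for the smoothed sum of `μ(e)/e`
-/

set_option autoImplicit false

namespace Pool.Agent.H14.CO

open Set MeasureTheory Complex

theorem MobLog_dvd_sum (n e : ℕ) (he : 1 ≤ e) (g : ℕ → ℝ) :
    ∑ k ∈ (Finset.Icc 1 n).filter (fun k => e ∣ k), g k
      = ∑ m ∈ Finset.Icc 1 (n / e), g (e * m) := by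
  refine Finset.sum_nbij' (fun k => k / e) (fun m => e * m) ?_ ?_ ?_ ?_ ?_
  · intro k hk
    rw [Finset.mem_filter, Finset.mem_Icc] at hk
    obtain ⟨⟨h1, h2⟩, h3⟩ := hk
    rw [Finset.mem_Icc]
    exact ⟨Nat.div_pos (Nat.le_of_dvd (by omega) h3) he, Nat.div_le_div_right h2⟩
  · intro m hm
    rw [Finset.mem_Icc] at hm
    rw [Finset.mem_filter, Finset.mem_Icc]
    refine ⟨⟨Nat.mul_pos he hm.1, ?_⟩, dvd_mul_right e m⟩
    calc e * m ≤ e * (n / e) := Nat.mul_le_mul_left e hm.2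
      _ ≤ n := Nat.mul_div_le n e
  · intro k hk
    rw [Finset.mem_filter] at hk
    exact Nat.mul_div_cancel' hk.2
  · intro m _
    exact Nat.mul_div_cancel_left m he
  · intro k hk
    rw [Finset.mem_filter] at hk
    rw [Nat.mul_div_cancel' hk.2]

theorem MobLog_exchange (n : ℕ) (hn : 1 ≤ n) (a : ℕ → ℝ) :
    ∑ e ∈ Finset.Icc 1 n, ((ArithmeticFunction.moebius e : ℤ) : ℝ) *
      ∑ m ∈ Finset.Icc 1 (n / e), a (e * m) = a 1 := by
  have h1 : ∀ e ∈ Finset.Icc 1 n, ((ArithmeticFunction.moebius e : ℤ) : ℝ) *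
      ∑ m ∈ Finset.Icc 1 (n / e), a (e * m)
      = ∑ k ∈ Finset.Icc 1 n, if e ∣ k then ((ArithmeticFunction.moebius e : ℤ) : ℝ) * a k else 0 := by
    intro e he
    rw [Finset.mem_Icc] at he
    rw [← MobLog_dvd_sum n e he.1 a, Finset.mul_sum, Finset.sum_filter]
  rw [Finset.sum_congr rfl h1, Finset.sum_comm]
  have h2 : ∀ k ∈ Finset.Icc 1 n,
      (∑ e ∈ Finset.Icc 1 n, if e ∣ k then ((ArithmeticFunction.moebius e : ℤ) : ℝ) * a k else 0)
        = if k = 1 then a 1 else 0 := by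
    intro k hk
    rw [Finset.mem_Icc] at hk
    rw [← Finset.sum_filter, ← Finset.sum_mul]
    have h3 : (Finset.Icc 1 n).filter (fun e => e ∣ k) = k.divisors := by
      ext e
      rw [Finset.mem_filter, Finset.mem_Icc, Nat.mem_divisors]
      constructor
      · rintro ⟨-, h⟩
        exact ⟨h, by omega⟩
      · rintro ⟨h, h0⟩
        exact ⟨⟨Nat.pos_of_dvd_of_pos h (by omega), (Nat.le_of_dvd (by omega) h).trans hk.2⟩, h⟩
    rw [h3]
    have h4 : ∑ d ∈ k.divisors, (ArithmeticFunction.moebius d : ℤ) = if k = 1 then 1 else 0 := by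
      rw [← ArithmeticFunction.coe_mul_zeta_apply, ArithmeticFunction.moebius_mul_coe_zeta,
        ArithmeticFunction.one_apply]
    have h5 : ∑ d ∈ k.divisors, ((ArithmeticFunction.moebius d : ℤ) : ℝ)
        = if k = 1 then 1 else 0 := by
      rw [← Int.cast_sum, h4]
      split_ifs <;> simp
    rw [h5]
    split_ifs with h6
    · rw [h6, one_mul]
    · rw [zero_mul]
  rw [Finset.sum_congr rfl h2, Finset.sum_ite_eq' (Finset.Icc 1 n) 1 (fun _ => a 1),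
    if_pos (Finset.mem_Icc.mpr ⟨le_refl _, hn⟩)]

theorem MobLog_mu_abs (e : ℕ) : |((ArithmeticFunction.moebius e : ℤ) : ℝ)| ≤ 1 := by
  have := ArithmeticFunction.abs_moebius_le_one (n := e)
  exact_mod_cast this

theorem MobLog_mu_sum (n : ℕ) (hn : 1 ≤ n) :
    |∑ e ∈ Finset.Icc 1 n, ((ArithmeticFunction.moebius e : ℤ) : ℝ) / e| ≤ 2 := by
  have h1 := MobLog_exchange n hn (fun _ => 1)
  have h2 : ∀ e ∈ Finset.Icc 1 n, ((ArithmeticFunction.moebius e : ℤ) : ℝ) *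
      ∑ m ∈ Finset.Icc 1 (n / e), (1 : ℝ)
      = ((ArithmeticFunction.moebius e : ℤ) : ℝ) * ((n / e : ℕ) : ℝ) := by
    intro e _
    simp
  rw [Finset.sum_congr rfl h2] at h1
  have hn0 : (0 : ℝ) < n := by exact_mod_cast hn
  have h3 : (n : ℝ) * ∑ e ∈ Finset.Icc 1 n, ((ArithmeticFunction.moebius e : ℤ) : ℝ) / e
      = 1 + ∑ e ∈ Finset.Icc 1 n, ((ArithmeticFunction.moebius e : ℤ) : ℝ) *
        ((n : ℝ) / e - ((n / e : ℕ) : ℝ)) := by
    rw [← h1, ← Finset.sum_add_distrib, Finset.mul_sum]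
    apply Finset.sum_congr rfl
    intro e _
    ring
  have h4 : |∑ e ∈ Finset.Icc 1 n, ((ArithmeticFunction.moebius e : ℤ) : ℝ) *
        ((n : ℝ) / e - ((n / e : ℕ) : ℝ))| ≤ n := by
    calc |∑ e ∈ Finset.Icc 1 n, ((ArithmeticFunction.moebius e : ℤ) : ℝ) *
        ((n : ℝ) / e - ((n / e : ℕ) : ℝ))|
        ≤ ∑ e ∈ Finset.Icc 1 n, |((ArithmeticFunction.moebius e : ℤ) : ℝ) *
        ((n : ℝ) / e - ((n / e : ℕ) : ℝ))| := Finset.abs_sum_le_sum_abs _ _
      _ ≤ ∑ _e ∈ Finset.Icc 1 n, (1 : ℝ) := by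
          apply Finset.sum_le_sum
          intro e he
          rw [Finset.mem_Icc] at he
          have he0 : (0 : ℝ) < e := by exact_mod_cast he.1
          rw [abs_mul]
          have h5 : |(n : ℝ) / e - ((n / e : ℕ) : ℝ)| ≤ 1 := by
            have h6 : ((n / e : ℕ) : ℝ) ≤ (n : ℝ) / e := Nat.cast_div_le
            have h7 : (n : ℝ) / e < ((n / e : ℕ) : ℝ) + 1 := by
              rw [div_lt_iff₀ he0]
              have h8 : n < (n / e + 1) * e := by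
                have := Nat.lt_div_mul_add (a := n) (b := e) he.1
                linarith [this, Nat.add_mul (n / e) 1 e]
              exact_mod_cast h8
            rw [abs_le]
            constructor <;> linarith
          calc |((ArithmeticFunction.moebius e : ℤ) : ℝ)| * |(n : ℝ) / e - ((n / e : ℕ) : ℝ)|
              ≤ 1 * 1 := mul_le_mul (MobLog_mu_abs e) h5 (abs_nonneg _) zero_le_one
            _ = 1 := one_mul 1
      _ = n := by simp
  have h5 : |(n : ℝ) * ∑ e ∈ Finset.Icc 1 n, ((ArithmeticFunction.moebius e : ℤ) : ℝ) / e|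
      ≤ 1 + n := by
    rw [h3]
    refine (abs_add_le _ _).trans ?_
    rw [abs_one]
    linarith
  rw [abs_mul, abs_of_pos hn0] at h5
  have hn1 : (1 : ℝ) ≤ n := by exact_mod_cast hn
  by_contra hcon
  push Not at hcon
  nlinarith [h5, hcon, hn1]

theorem MobLog_harm (k : ℕ) (hk : 1 ≤ k) (x : ℝ) (h1 : (k : ℝ) ≤ x) (h2 : x < k + 1) :
    |((harmonic k : ℚ) : ℝ) - Real.log x - Real.eulerMascheroniConstant| ≤ 2 / x := by
  have hk0 : (0 : ℝ) < k := by exact_mod_cast hk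
  have hk1 : (1 : ℝ) ≤ k := by exact_mod_cast hk
  have hx0 : 0 < x := hk0.trans_le h1
  have h3 := Real.eulerMascheroniSeq_lt_eulerMascheroniConstant k
  have h4 := Real.eulerMascheroniConstant_lt_eulerMascheroniSeq' k
  have h5 : Real.eulerMascheroniSeq' k = ((harmonic k : ℚ) : ℝ) - Real.log k := by
    unfold Real.eulerMascheroniSeq'
    rw [if_neg (by omega)]
  have h6 : Real.eulerMascheroniSeq k = ((harmonic k : ℚ) : ℝ) - Real.log (k + 1) := rfl
  rw [h5] at h4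
  rw [h6] at h3
  have h7 : Real.log k ≤ Real.log x := Real.log_le_log hk0 h1
  have h8 : Real.log x ≤ Real.log (k + 1) := Real.log_le_log hx0 h2.le
  have h9 : Real.log (k + 1) - Real.log k ≤ 1 / k := by
    rw [← Real.log_div (by positivity) hk0.ne']
    have h10 : ((k : ℝ) + 1) / k = 1 + 1 / k := by
      field_simp
    rw [h10]
    have := Real.log_le_sub_one_of_pos (show (0 : ℝ) < 1 + 1 / k by positivity)
    linarith
  have h10 : 1 / (k : ℝ) ≤ 2 / x := by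
    rw [div_le_div_iff₀ hk0 hx0]
    linarith
  rw [abs_le]
  constructor
  · linarith
  · linarith

theorem MobLog_harmonic (k : ℕ) : ∑ m ∈ Finset.Icc 1 k, 1 / (m : ℝ) = ((harmonic k : ℚ) : ℝ) := by
  induction k with
  | zero => simp
  | succ k ih =>
    rw [Finset.sum_Icc_succ_top (by omega), ih, harmonic_succ]
    push_cast
    rw [one_div]

/-- `|∑_{e ≤ X} μ(e)/e log(X/e)| ≤ C`.

PROOF. `F(x) = ∑_{n ≤ x} x/n = x (log x + γ) + O(1)`, and `∑_{e ≤ X} μ(e) F(X/e) = X` (Möbius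
inversion). So `X ∑ μ(e)/e log(X/e) = X - γ X ∑ μ(e)/e + O(X)`, `|∑_{e≤X} μ(e)/e| ≤ 1` (e.g.
`Pool.Agent.H91.…Msq.sum_moebius_coprime`, file H91/PK/Msq, with `g = 1`, or
`∑ μ(e) ⌊X/e⌋ = 1`). Harmonic sums: `Mathlib/NumberTheory/Harmonic/EulerMascheroni`. -/
theorem moebius_log : ∃ C : ℝ, 0 < C ∧ ∀ X : ℝ, 1 ≤ X →
    |∑ e ∈ Finset.Icc 1 ⌊X⌋₊, ((ArithmeticFunction.moebius e : ℤ) : ℝ) / e * Real.log (X / e)| ≤ C := by
  refine ⟨3 + 2 * |Real.eulerMascheroniConstant|, by positivity, ?_⟩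
  intro X hX
  set n : ℕ := ⌊X⌋₊ with hn
  have hX0 : 0 < X := zero_lt_one.trans_le hX
  have hn1 : 1 ≤ n := Nat.one_le_floor_iff X |>.mpr hX
  have hnX : (n : ℝ) ≤ X := Nat.floor_le hX0.le
  -- the identity
  have h1 := MobLog_exchange n hn1 (fun k => 1 / (k : ℝ))
  have h2 : ∀ e ∈ Finset.Icc 1 n, ((ArithmeticFunction.moebius e : ℤ) : ℝ) *
      ∑ m ∈ Finset.Icc 1 (n / e), 1 / ((e * m : ℕ) : ℝ)
      = ((ArithmeticFunction.moebius e : ℤ) : ℝ) / e * ((harmonic (n / e) : ℚ) : ℝ) := by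
    intro e he
    rw [← MobLog_harmonic, Finset.mul_sum, Finset.mul_sum]
    apply Finset.sum_congr rfl
    intro m _
    push_cast
    rw [div_mul_div_comm, mul_one, mul_one_div]
  rw [Finset.sum_congr rfl h2] at h1
  simp only [Nat.cast_one, div_one] at h1
  have h3 : ∑ e ∈ Finset.Icc 1 n, ((ArithmeticFunction.moebius e : ℤ) : ℝ) / e * Real.log (X / e)
      = 1 - Real.eulerMascheroniConstant *
          ∑ e ∈ Finset.Icc 1 n, ((ArithmeticFunction.moebius e : ℤ) : ℝ) / e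
        - ∑ e ∈ Finset.Icc 1 n, ((ArithmeticFunction.moebius e : ℤ) : ℝ) / e *
          (((harmonic (n / e) : ℚ) : ℝ) - Real.log (X / e) - Real.eulerMascheroniConstant) := by
    rw [← h1, Finset.mul_sum, ← Finset.sum_sub_distrib, ← Finset.sum_sub_distrib]
    apply Finset.sum_congr rfl
    intro e _
    ring
  have h4 : |∑ e ∈ Finset.Icc 1 n, ((ArithmeticFunction.moebius e : ℤ) : ℝ) / e *
          (((harmonic (n / e) : ℚ) : ℝ) - Real.log (X / e) - Real.eulerMascheroniConstant)| ≤ 2 := by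
    calc |∑ e ∈ Finset.Icc 1 n, ((ArithmeticFunction.moebius e : ℤ) : ℝ) / e *
          (((harmonic (n / e) : ℚ) : ℝ) - Real.log (X / e) - Real.eulerMascheroniConstant)|
        ≤ ∑ e ∈ Finset.Icc 1 n, |((ArithmeticFunction.moebius e : ℤ) : ℝ) / e *
          (((harmonic (n / e) : ℚ) : ℝ) - Real.log (X / e) - Real.eulerMascheroniConstant)| :=
          Finset.abs_sum_le_sum_abs _ _
      _ ≤ ∑ _e ∈ Finset.Icc 1 n, 2 / X := by
          apply Finset.sum_le_sum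
          intro e he
          rw [Finset.mem_Icc] at he
          have he0 : (0 : ℝ) < e := by exact_mod_cast he.1
          have hfl : ⌊X / e⌋₊ = n / e := by rw [hn, Nat.floor_div_natCast]
          have hk1 : 1 ≤ n / e := Nat.div_pos he.2 he.1
          have hxe0 : 0 < X / e := div_pos hX0 he0
          have hle : ((n / e : ℕ) : ℝ) ≤ X / e := by
            rw [← hfl]
            exact Nat.floor_le hxe0.le
          have hlt : X / e < ((n / e : ℕ) : ℝ) + 1 := by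
            rw [← hfl]
            exact Nat.lt_floor_add_one _
          have h5 := MobLog_harm (n / e) hk1 (X / e) hle hlt
          rw [abs_mul, abs_div, abs_of_pos he0]
          have h6 : |((ArithmeticFunction.moebius e : ℤ) : ℝ)| / (e : ℝ) ≤ 1 / e :=
            div_le_div_of_nonneg_right (MobLog_mu_abs e) he0.le
          calc |((ArithmeticFunction.moebius e : ℤ) : ℝ)| / (e : ℝ) *
              |((harmonic (n / e) : ℚ) : ℝ) - Real.log (X / e) - Real.eulerMascheroniConstant|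
              ≤ 1 / e * (2 / (X / e)) :=
                mul_le_mul h6 h5 (abs_nonneg _) (by positivity)
            _ = 2 / X := by field_simp
      _ = n * (2 / X) := by simp
      _ ≤ X * (2 / X) := mul_le_mul_of_nonneg_right hnX (by positivity)
      _ = 2 := by field_simp
  have h5 := MobLog_mu_sum n hn1
  rw [h3]
  have h6 : |Real.eulerMascheroniConstant *
          ∑ e ∈ Finset.Icc 1 n, ((ArithmeticFunction.moebius e : ℤ) : ℝ) / e|
        ≤ |Real.eulerMascheroniConstant| * 2 := by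
    rw [abs_mul]
    exact mul_le_mul_of_nonneg_left h5 (abs_nonneg _)
  rw [abs_le] at h4 h6 ⊢
  constructor <;> linarith [h4.1, h4.2, h6.1, h6.2]

end Pool.Agent.H14.CO

end

section

/-!
# CO module MobCop: smoothed Möbius sums with a coprimality condition and a shift
-/

set_option autoImplicit false

namespace Pool.Agent.H14.CO

open Set MeasureTheory Complex

/-- `∏_{p ∣ r} (1 - 1/p)^{-1}` -/
noncomputable def sg (r : ℕ) : ℝ := ∏ p ∈ r.primeFactors, (1 - 1 / (p : ℝ))⁻¹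

/-- the general term -/
private noncomputable def tm (u : ℂ) (X : ℝ) (e : ℕ) : ℂ :=
  ((ArithmeticFunction.moebius e : ℤ) : ℂ) * (e : ℂ) ^ (-(1 + u)) * (Real.log (X / e) : ℂ)

private noncomputable def ms (u : ℂ) (S : Finset ℕ) (X : ℝ) : ℂ :=
  ∑ e ∈ (Finset.Icc 1 ⌊X⌋₊).filter (fun e => ∀ p ∈ S, ¬ p ∣ e), tm u X e

/-! ## The case without coprimality condition -/

private noncomputable def ph (u : ℂ) (L s : ℝ) : ℂ := Complex.exp (-u * s) * ((L - s : ℝ) : ℂ)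

private noncomputable def ps (u : ℂ) (L s : ℝ) : ℂ :=
  (u ^ 2 * ((L - s : ℝ) : ℂ) + 2 * u) * Complex.exp (-u * s)

private theorem ps_cont (u : ℂ) (L : ℝ) : Continuous (ps u L) := by
  unfold ps
  fun_prop

private theorem taylor (u : ℂ) {L l : ℝ} (h0 : 0 ≤ l) (h1 : l ≤ L) :
    ph u L l = Complex.exp (-u * L) * ((L - l : ℝ) : ℂ) +
      ∫ s in (0 : ℝ)..L, ((max 0 (s - l) : ℝ) : ℂ) * ps u L s := by
  have hc : Continuous fun s : ℝ => ((max 0 (s - l) : ℝ) : ℂ) * ps u L s := by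
    have := ps_cont u L
    fun_prop
  have hsplit : ∫ s in (0 : ℝ)..L, ((max 0 (s - l) : ℝ) : ℂ) * ps u L s =
      (∫ s in (0 : ℝ)..l, ((max 0 (s - l) : ℝ) : ℂ) * ps u L s) +
      ∫ s in l..L, ((max 0 (s - l) : ℝ) : ℂ) * ps u L s :=
    (intervalIntegral.integral_add_adjacent_intervals (hc.intervalIntegrable _ _)
      (hc.intervalIntegrable _ _)).symm
  have hz : ∫ s in (0 : ℝ)..l, ((max 0 (s - l) : ℝ) : ℂ) * ps u L s = 0 := by
    rw [intervalIntegral.integral_congr (g := fun _ => (0 : ℂ))]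
    · simp
    · intro s hs
      rw [Set.uIcc_of_le h0] at hs
      have : max 0 (s - l) = 0 := max_eq_left (by linarith [hs.2])
      simp only [this, Complex.ofReal_zero, zero_mul]
  have hm : ∫ s in l..L, ((max 0 (s - l) : ℝ) : ℂ) * ps u L s =
      ∫ s in l..L, ((s - l : ℝ) : ℂ) * ps u L s := by
    apply intervalIntegral.integral_congr
    intro s hs
    rw [Set.uIcc_of_le h1] at hs
    have : max 0 (s - l) = s - l := max_eq_right (by linarith [hs.1])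
    simp only [this]
  let G : ℝ → ℂ := fun s => ((s - l : ℝ) : ℂ) *
    (-u * Complex.exp (-u * s) * ((L - s : ℝ) : ℂ) - Complex.exp (-u * s)) -
    Complex.exp (-u * s) * ((L - s : ℝ) : ℂ)
  have hG : ∀ s ∈ Set.uIcc l L, HasDerivAt G (((s - l : ℝ) : ℂ) * ps u L s) s := by
    intro s _
    have hid : HasDerivAt (fun s : ℝ => (s : ℂ)) 1 s := Complex.ofRealCLM.hasDerivAt
    have he : HasDerivAt (fun s : ℝ => Complex.exp (-u * s)) (Complex.exp (-u * s) * (-u * 1)) s :=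
      (hid.const_mul (-u)).cexp
    have h2 : HasDerivAt (fun s : ℝ => ((L - s : ℝ) : ℂ)) (-1) s := by
      have := hid.const_sub (L : ℂ)
      refine this.congr_of_eventuallyEq (Filter.Eventually.of_forall fun t => ?_)
      push_cast
      rfl
    have h3 : HasDerivAt (fun s : ℝ => ((s - l : ℝ) : ℂ)) 1 s := by
      have := hid.sub_const (l : ℂ)
      refine this.congr_of_eventuallyEq (Filter.Eventually.of_forall fun t => ?_)
      push_cast
      rfl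
    have h4 := (h3.mul (((he.const_mul (-u)).mul h2).sub he)).sub (he.mul h2)
    refine h4.congr_deriv ?_
    simp only [ps, Pi.sub_apply, Pi.mul_apply]
    ring
  have hi : IntervalIntegrable (fun s : ℝ => ((s - l : ℝ) : ℂ) * ps u L s) volume l L := by
    apply Continuous.intervalIntegrable
    have := ps_cont u L
    fun_prop
  have h5 := intervalIntegral.integral_eq_sub_of_hasDerivAt hG hi
  rw [hsplit, hz, zero_add, hm, h5]
  simp only [G, ph]
  push_cast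
  ring

private theorem ps_norm (u : ℂ) {L s : ℝ} (h0 : 0 ≤ s) (h1 : s ≤ L) :
    ‖ps u L s‖ ≤ (‖u‖ ^ 2 * L + 2 * ‖u‖) * Real.exp (|u.re| * L) := by
  rw [ps, norm_mul]
  have hL : 0 ≤ L := h0.trans h1
  apply mul_le_mul _ _ (norm_nonneg _) (by positivity)
  · refine (norm_add_le _ _).trans ?_
    rw [norm_mul, norm_mul, norm_pow, Complex.norm_real, Real.norm_of_nonneg (by linarith : 0 ≤ L - s),
      Complex.norm_ofNat]
    have : ‖u‖ ^ 2 * (L - s) ≤ ‖u‖ ^ 2 * L := by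
      apply mul_le_mul_of_nonneg_left (by linarith) (by positivity)
    linarith
  · rw [Complex.norm_exp]
    apply Real.exp_le_exp.2
    have h2 : (-u * (s : ℂ)).re = -u.re * s := by
      rw [Complex.re_mul_ofReal, Complex.neg_re]
    rw [h2]
    calc -u.re * s ≤ |u.re| * s := mul_le_mul_of_nonneg_right (neg_le_abs _) h0
      _ ≤ |u.re| * L := mul_le_mul_of_nonneg_left h1 (abs_nonneg _)

private theorem ms_empty {C : ℝ} (hC : 0 < C) (hA : ∀ X : ℝ, 1 ≤ X →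
    |∑ e ∈ Finset.Icc 1 ⌊X⌋₊, ((ArithmeticFunction.moebius e : ℤ) : ℝ) / e *
      Real.log (X / e)| ≤ C) (u : ℂ) {X : ℝ} (hX : 1 ≤ X) :
    ‖ms u ∅ X‖ ≤ C * X ^ |u.re| * (1 + ‖u‖ * Real.log X) ^ 2 := by
  set L := Real.log X with hL
  have hL0 : 0 ≤ L := Real.log_nonneg hX
  have hX0 : 0 < X := by linarith
  have hps := ps_cont u L
  have hterm : ∀ e ∈ Finset.Icc 1 ⌊X⌋₊, tm u X e =
      (((ArithmeticFunction.moebius e : ℤ) : ℝ) / e : ℝ) *
        (Complex.exp (-u * L) * ((Real.log (X / e) : ℝ) : ℂ) +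
        ∫ s in (0 : ℝ)..L, ((max 0 (s - Real.log e) : ℝ) : ℂ) * ps u L s) := by
    intro e he
    rw [Finset.mem_Icc] at he
    have he1 : (1 : ℝ) ≤ e := by exact_mod_cast he.1
    have he0 : (0 : ℝ) < e := by linarith
    have heX : (e : ℝ) ≤ X := (Nat.le_floor_iff hX0.le).1 he.2
    have hlog : Real.log (X / e) = L - Real.log e := Real.log_div hX0.ne' he0.ne'
    rw [tm, hlog, ← taylor u (Real.log_nonneg he1) (Real.log_le_log he0 heX), ph]
    have hec : (e : ℂ) ≠ 0 := by exact_mod_cast he0.ne'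
    have hcp : (e : ℂ) ^ (-(1 + u)) = (e : ℂ)⁻¹ * Complex.exp (-u * (Real.log e : ℝ)) := by
      rw [neg_add, Complex.cpow_add _ _ hec, Complex.cpow_neg_one, Complex.cpow_def_of_ne_zero hec,
        Complex.natCast_log, mul_comm (Complex.log _)]
    rw [hcp]
    push_cast
    ring
  have hsum : ms u ∅ X = Complex.exp (-u * L) *
      ((∑ e ∈ Finset.Icc 1 ⌊X⌋₊, ((ArithmeticFunction.moebius e : ℤ) : ℝ) / e *
        Real.log (X / e) : ℝ) : ℂ) +
      ∫ s in (0 : ℝ)..L, ((∑ e ∈ Finset.Icc 1 ⌊X⌋₊, ((ArithmeticFunction.moebius e : ℤ) : ℝ) / e *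
        max 0 (s - Real.log e) : ℝ) : ℂ) * ps u L s := by
    have hf : (Finset.Icc 1 ⌊X⌋₊).filter (fun e => ∀ p ∈ (∅ : Finset ℕ), ¬ p ∣ e) =
        Finset.Icc 1 ⌊X⌋₊ := by
      apply Finset.filter_true_of_mem
      intro e _ p hp
      simp at hp
    rw [ms, hf, Finset.sum_congr rfl hterm]
    simp only [mul_add]
    rw [Finset.sum_add_distrib]
    congr 1
    · push_cast
      rw [Finset.mul_sum]
      apply Finset.sum_congr rfl
      intro e _
      ring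
    · have h1 : ∀ s : ℝ, ((∑ e ∈ Finset.Icc 1 ⌊X⌋₊, ((ArithmeticFunction.moebius e : ℤ) : ℝ) / e *
          max 0 (s - Real.log e) : ℝ) : ℂ) * ps u L s =
          ∑ e ∈ Finset.Icc 1 ⌊X⌋₊, ((((ArithmeticFunction.moebius e : ℤ) : ℝ) / e : ℝ) : ℂ) *
            (((max 0 (s - Real.log e) : ℝ) : ℂ) * ps u L s) := by
        intro s
        push_cast
        rw [Finset.sum_mul]
        apply Finset.sum_congr rfl
        intro e _
        ring
      simp only [h1]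
      rw [intervalIntegral.integral_finsetSum]
      · apply Finset.sum_congr rfl
        intro e _
        rw [intervalIntegral.integral_const_mul]
      · intro e _
        apply Continuous.intervalIntegrable
        fun_prop
  have hAs : ∀ s : ℝ, 0 ≤ s → s ≤ L →
      |∑ e ∈ Finset.Icc 1 ⌊X⌋₊, ((ArithmeticFunction.moebius e : ℤ) : ℝ) / e *
        max 0 (s - Real.log e)| ≤ C := by
    intro s hs0 hsL
    have h1 := hA (Real.exp s) (Real.one_le_exp hs0)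
    have hle : Real.exp s ≤ X := by
      rw [← Real.exp_log hX0]
      exact Real.exp_le_exp.2 hsL
    have h2 : ∑ e ∈ Finset.Icc 1 ⌊X⌋₊, ((ArithmeticFunction.moebius e : ℤ) : ℝ) / e *
        max 0 (s - Real.log e) =
        ∑ e ∈ Finset.Icc 1 ⌊Real.exp s⌋₊, ((ArithmeticFunction.moebius e : ℤ) : ℝ) / e *
        Real.log (Real.exp s / e) := by
      symm
      have hsub : Finset.Icc 1 ⌊Real.exp s⌋₊ ⊆ Finset.Icc 1 ⌊X⌋₊ :=
        Finset.Icc_subset_Icc_right (Nat.floor_le_floor hle)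
      rw [← Finset.sum_subset_zero_on_sdiff hsub (f := fun e =>
        ((ArithmeticFunction.moebius e : ℤ) : ℝ) / e * Real.log (Real.exp s / e))]
      · intro e he
        rw [Finset.mem_sdiff, Finset.mem_Icc, Finset.mem_Icc] at he
        have he1 : (1 : ℝ) ≤ e := by exact_mod_cast he.1.1
        have h3 : Real.exp s < e := by
          by_contra hcon
          push Not at hcon
          exact he.2 ⟨he.1.1, (Nat.le_floor_iff (Real.exp_pos s).le).2 hcon⟩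
        have h4 : s ≤ Real.log e := by
          rw [← Real.log_exp s]
          exact Real.log_le_log (Real.exp_pos s) h3.le
        rw [max_eq_left (by linarith), mul_zero]
      · intro e he
        rw [Finset.mem_Icc] at he
        have he1 : (1 : ℝ) ≤ e := by exact_mod_cast he.1
        have he0 : (0 : ℝ) < e := by linarith
        have h3 : (e : ℝ) ≤ Real.exp s := (Nat.le_floor_iff (Real.exp_pos s).le).1 he.2
        have h4 : Real.log e ≤ s := by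
          rw [← Real.log_exp s]
          exact Real.log_le_log he0 h3
        rw [Real.log_div (Real.exp_pos s).ne' he0.ne', Real.log_exp,
          max_eq_right (by linarith)]
    rw [h2]
    exact h1
  have hXe : X ^ |u.re| = Real.exp (|u.re| * L) := by
    rw [Real.rpow_def_of_pos hX0, mul_comm]
  have hn1 : ‖Complex.exp (-u * L)‖ ≤ X ^ |u.re| := by
    rw [hXe, Complex.norm_exp]
    apply Real.exp_le_exp.2
    rw [Complex.re_mul_ofReal, Complex.neg_re]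
    exact mul_le_mul_of_nonneg_right (neg_le_abs _) hL0
  rw [hsum]
  refine (norm_add_le _ _).trans ?_
  have hb1 : ‖Complex.exp (-u * L) *
      ((∑ e ∈ Finset.Icc 1 ⌊X⌋₊, ((ArithmeticFunction.moebius e : ℤ) : ℝ) / e *
        Real.log (X / e) : ℝ) : ℂ)‖ ≤ X ^ |u.re| * C := by
    rw [norm_mul, Complex.norm_real, Real.norm_eq_abs]
    exact mul_le_mul hn1 (hA X hX) (abs_nonneg _) (Real.rpow_nonneg hX0.le _)
  have hb2 : ‖∫ s in (0 : ℝ)..L, ((∑ e ∈ Finset.Icc 1 ⌊X⌋₊,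
      ((ArithmeticFunction.moebius e : ℤ) : ℝ) / e *
        max 0 (s - Real.log e) : ℝ) : ℂ) * ps u L s‖ ≤
      (C * ((‖u‖ ^ 2 * L + 2 * ‖u‖) * X ^ |u.re|)) * |L - 0| := by
    apply intervalIntegral.norm_integral_le_of_norm_le_const
    intro s hs
    rw [Set.uIoc_of_le hL0] at hs
    rw [norm_mul, Complex.norm_real, Real.norm_eq_abs, hXe]
    exact mul_le_mul (hAs s hs.1.le hs.2) (ps_norm u hs.1.le hs.2) (norm_nonneg _) hC.le
  refine (add_le_add hb1 hb2).trans (le_of_eq ?_)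
  rw [sub_zero, abs_of_nonneg hL0]
  ring

/-! ## Coprimality conditions -/

private theorem ms_insert (u : ℂ) (S : Finset ℕ) (p : ℕ) (hp : p.Prime)
    (hS : ∀ q ∈ S, q.Prime) (hpS : p ∉ S) {X : ℝ} (hX : 1 ≤ X) :
    ms u (insert p S) X =
      ms u S X + (p : ℂ) ^ (-(1 + u)) * ms u (insert p S) (X / p) := by
  have hX0 : 0 < X := by linarith
  have hp0 : (0 : ℝ) < p := by exact_mod_cast hp.pos
  have hXp : 0 < X / p := div_pos hX0 hp0
  set T := (Finset.Icc 1 ⌊X⌋₊).filter (fun e => ∀ q ∈ S, ¬ q ∣ e) with hT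
  have h1 : ms u (insert p S) X = ∑ e ∈ T.filter (fun e => ¬ p ∣ e), tm u X e := by
    rw [ms]
    apply Finset.sum_congr _ (fun _ _ => rfl)
    ext e
    rw [hT, Finset.mem_filter, Finset.mem_filter, Finset.mem_filter, Finset.forall_mem_insert]
    tauto
  have h2 : ∑ e ∈ T.filter (fun e => p ∣ e), tm u X e =
      -((p : ℂ) ^ (-(1 + u)) * ms u (insert p S) (X / p)) := by
    set T' := (Finset.Icc 1 ⌊X / p⌋₊).filter (fun e => ∀ q ∈ insert p S, ¬ q ∣ e) with hT'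
    have hinj : Set.InjOn (fun e : ℕ => p * e) (T' : Set ℕ) := by
      intro a _ b _ hab
      exact Nat.eq_of_mul_eq_mul_left hp.pos hab
    have hsub : T'.image (fun e => p * e) ⊆ T.filter (fun e => p ∣ e) := by
      intro e he
      rw [Finset.mem_image] at he
      obtain ⟨f, hf, rfl⟩ := he
      rw [hT', Finset.mem_filter, Finset.mem_Icc, Finset.forall_mem_insert] at hf
      rw [Finset.mem_filter, hT, Finset.mem_filter, Finset.mem_Icc]
      refine ⟨⟨⟨Nat.mul_pos hp.pos hf.1.1, ?_⟩, ?_⟩, dvd_mul_right p f⟩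
      · rw [Nat.le_floor_iff hX0.le]
        have h3 := (Nat.le_floor_iff hXp.le).1 hf.1.2
        rw [le_div_iff₀ hp0] at h3
        push_cast
        linarith
      · intro q hq hdvd
        rcases (Nat.Prime.dvd_mul (hS q hq)).1 hdvd with h | h
        · have : q = p := (Nat.prime_dvd_prime_iff_eq (hS q hq) hp).1 h
          exact hpS (this ▸ hq)
        · exact hf.2.2 q hq h
    rw [← Finset.sum_subset hsub, Finset.sum_image hinj, ms, ← hT', Finset.mul_sum,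
      ← Finset.sum_neg_distrib]
    · apply Finset.sum_congr rfl
      intro e he
      rw [hT', Finset.mem_filter, Finset.mem_Icc, Finset.forall_mem_insert] at he
      have hcop : Nat.Coprime p e := (Nat.Prime.coprime_iff_not_dvd hp).2 he.2.1
      rw [tm, tm, ArithmeticFunction.isMultiplicative_moebius.map_mul_of_coprime hcop,
        ArithmeticFunction.moebius_apply_prime hp]
      push_cast
      rw [natCast_mul_natCast_cpow, div_div]
      ring
    · intro e he hne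
      rw [Finset.mem_filter, hT, Finset.mem_filter, Finset.mem_Icc] at he
      obtain ⟨f, rfl⟩ := he.2
      have hpf : p ∣ f := by
        by_contra hcon
        apply hne
        rw [Finset.mem_image]
        refine ⟨f, ?_, rfl⟩
        rw [hT', Finset.mem_filter, Finset.mem_Icc, Finset.forall_mem_insert]
        have hf1 : 1 ≤ f := by
          rcases Nat.eq_zero_or_pos f with h | h
          · rw [h] at he
            simp at he
          · exact h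
        refine ⟨⟨hf1, ?_⟩, hcon, fun q hq hdvd => he.1.2 q hq (hdvd.mul_left p)⟩
        rw [Nat.le_floor_iff hXp.le, le_div_iff₀ hp0]
        have h3 := (Nat.le_floor_iff hX0.le).1 he.1.1.2
        push_cast at h3
        linarith
      have hmu : ArithmeticFunction.moebius (p * f) = 0 := by
        apply ArithmeticFunction.moebius_eq_zero_of_not_squarefree
        intro hsq
        obtain ⟨g, rfl⟩ := hpf
        have h3 := hsq p ⟨g, by ring⟩
        exact hp.one_lt.ne' (Nat.isUnit_iff.1 h3)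
      rw [tm, hmu]
      simp
  have h3 := Finset.sum_filter_add_sum_filter_not T (fun e => p ∣ e) (tm u X)
  rw [h2, ← h1] at h3
  have h4 : ms u S X = ∑ e ∈ T, tm u X e := rfl
  rw [h4, ← h3]
  ring

private theorem ms_bound {C : ℝ} (hC : 0 < C) (hA : ∀ X : ℝ, 1 ≤ X →
    |∑ e ∈ Finset.Icc 1 ⌊X⌋₊, ((ArithmeticFunction.moebius e : ℤ) : ℝ) / e *
      Real.log (X / e)| ≤ C) (u : ℂ) (S : Finset ℕ) :
    (∀ q ∈ S, q.Prime) → ∀ X : ℝ, 1 ≤ X →
    ‖ms u S X‖ ≤ C * (∏ p ∈ S, (1 - 1 / (p : ℝ))⁻¹) * X ^ |u.re| *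
      (1 + ‖u‖ * Real.log X) ^ 2 := by
  induction S using Finset.induction_on with
  | empty =>
    intro _ X hX
    rw [Finset.prod_empty, mul_one]
    exact ms_empty hC hA u hX
  | insert p S hpS ih =>
    intro hS
    have hS' : ∀ q ∈ S, q.Prime := fun q hq => hS q (Finset.mem_insert_of_mem hq)
    have hp : p.Prime := hS p (Finset.mem_insert_self p S)
    have ih' := ih hS'
    have key : ∀ n : ℕ, ∀ X : ℝ, 1 ≤ X → X < n + 1 →
        ‖ms u (insert p S) X‖ ≤ C * (∏ q ∈ insert p S, (1 - 1 / (q : ℝ))⁻¹) * X ^ |u.re| *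
          (1 + ‖u‖ * Real.log X) ^ 2 := by
      intro n
      induction n with
      | zero =>
        intro X hX hlt
        push_cast at hlt
        linarith
      | succ n ihn =>
        intro X hX hlt
        have hX0 : 0 < X := by linarith
        have hp2 : (2 : ℝ) ≤ p := by exact_mod_cast hp.two_le
        have hp0 : (0 : ℝ) < p := by linarith
        have hP : 0 < ∏ q ∈ S, (1 - 1 / (q : ℝ))⁻¹ := by
          apply Finset.prod_pos
          intro q hq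
          have hq2 : (2 : ℝ) ≤ q := by exact_mod_cast (hS' q hq).two_le
          rw [inv_pos, sub_pos, div_lt_one (by linarith)]
          linarith
        have hfac : 0 < 1 - 1 / (p : ℝ) := by
          rw [sub_pos, div_lt_one hp0]
          linarith
        rw [Finset.prod_insert hpS]
        set P := ∏ q ∈ S, (1 - 1 / (q : ℝ))⁻¹ with hPdef
        have hL0 : 0 ≤ Real.log X := Real.log_nonneg hX
        rw [ms_insert u S p hp hS' hpS hX]
        refine (norm_add_le _ _).trans ?_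
        have hb1 := ih' X hX
        have hb2 : ‖(p : ℂ) ^ (-(1 + u)) * ms u (insert p S) (X / p)‖ ≤
            (1 / p) * (C * ((1 - 1 / (p : ℝ))⁻¹ * P) * X ^ |u.re| *
              (1 + ‖u‖ * Real.log X) ^ 2) := by
          rcases lt_or_ge (X / p) 1 with h | h
          · have h0 : ms u (insert p S) (X / p) = 0 := by
              have h1 : ⌊X / p⌋₊ = 0 := Nat.floor_eq_zero.2 h
              rw [ms, h1]
              simp
            rw [h0, mul_zero, norm_zero]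
            positivity
          · have hlt2 : X / p < n + 1 := by
              have hX2 : 2 ≤ X := by
                rw [le_div_iff₀ hp0] at h
                linarith
              have h1 : X / p ≤ X / 2 := div_le_div_of_nonneg_left hX0.le (by norm_num) hp2
              push_cast at hlt
              linarith
            have h1 := ihn (X / p) h hlt2
            rw [Finset.prod_insert hpS, ← hPdef] at h1
            have hnp : ‖(p : ℂ) ^ (-(1 + u))‖ = (p : ℝ) ^ (-(1 + u.re)) := by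
              rw [Complex.norm_natCast_cpow_of_pos hp.pos]
              simp
            rw [norm_mul, hnp]
            have h2 : (1 + ‖u‖ * Real.log (X / p)) ^ 2 ≤ (1 + ‖u‖ * Real.log X) ^ 2 := by
              have h3 : Real.log (X / p) ≤ Real.log X := by
                apply Real.log_le_log (by positivity)
                exact div_le_self hX0.le (by linarith)
              have h4 : 0 ≤ Real.log (X / p) := Real.log_nonneg h
              have h5 : ‖u‖ * Real.log (X / p) ≤ ‖u‖ * Real.log X :=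
                mul_le_mul_of_nonneg_left h3 (norm_nonneg _)
              have h6 : 0 ≤ ‖u‖ * Real.log (X / p) := mul_nonneg (norm_nonneg _) h4
              apply pow_le_pow_left₀ (by linarith)
              linarith
            have h3 : (p : ℝ) ^ (-(1 + u.re)) * (X / p) ^ |u.re| ≤ (1 / p) * X ^ |u.re| := by
              rw [Real.div_rpow hX0.le hp0.le, ← mul_div_assoc, mul_comm _ (X ^ |u.re|),
                mul_div_assoc, mul_comm (1 / (p : ℝ))]
              apply mul_le_mul_of_nonneg_left _ (Real.rpow_nonneg hX0.le _)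
              rw [← Real.rpow_sub hp0, one_div, ← Real.rpow_neg_one]
              apply Real.rpow_le_rpow_of_exponent_le (by linarith)
              have := neg_le_abs u.re
              linarith
            have hK : 0 ≤ C * ((1 - 1 / (p : ℝ))⁻¹ * P) := by positivity
            calc (p : ℝ) ^ (-(1 + u.re)) * ‖ms u (insert p S) (X / p)‖
                ≤ (p : ℝ) ^ (-(1 + u.re)) * (C * ((1 - 1 / (p : ℝ))⁻¹ * P) * (X / p) ^ |u.re| *
                  (1 + ‖u‖ * Real.log (X / p)) ^ 2) :=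
                  mul_le_mul_of_nonneg_left h1 (Real.rpow_nonneg hp0.le _)
              _ = (C * ((1 - 1 / (p : ℝ))⁻¹ * P)) *
                  ((p : ℝ) ^ (-(1 + u.re)) * (X / p) ^ |u.re|) *
                  (1 + ‖u‖ * Real.log (X / p)) ^ 2 := by ring
              _ ≤ (C * ((1 - 1 / (p : ℝ))⁻¹ * P)) * ((1 / p) * X ^ |u.re|) *
                  (1 + ‖u‖ * Real.log X) ^ 2 := by
                  apply mul_le_mul _ h2 (by positivity) (by positivity)
                  exact mul_le_mul_of_nonneg_left h3 hK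
              _ = _ := by ring
        refine (add_le_add hb1 hb2).trans (le_of_eq ?_)
        have hne : 1 - 1 / (p : ℝ) ≠ 0 := hfac.ne'
        have e1 : P + 1 / (p : ℝ) * ((1 - 1 / (p : ℝ))⁻¹ * P) = (1 - 1 / (p : ℝ))⁻¹ * P := by
          have e2 : (1 - 1 / (p : ℝ)) * (1 - 1 / (p : ℝ))⁻¹ = 1 := mul_inv_cancel₀ hne
          calc P + 1 / (p : ℝ) * ((1 - 1 / (p : ℝ))⁻¹ * P)
              = P * ((1 - 1 / (p : ℝ)) * (1 - 1 / (p : ℝ))⁻¹) +
                1 / (p : ℝ) * ((1 - 1 / (p : ℝ))⁻¹ * P) := by rw [e2, mul_one]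
            _ = _ := by ring
        calc C * P * X ^ |u.re| * (1 + ‖u‖ * Real.log X) ^ 2 +
              1 / (p : ℝ) * (C * ((1 - 1 / (p : ℝ))⁻¹ * P) * X ^ |u.re| *
                (1 + ‖u‖ * Real.log X) ^ 2)
            = C * (P + 1 / (p : ℝ) * ((1 - 1 / (p : ℝ))⁻¹ * P)) * X ^ |u.re| *
              (1 + ‖u‖ * Real.log X) ^ 2 := by ring
          _ = _ := by rw [e1]
    intro X hX
    obtain ⟨n, hn⟩ := exists_nat_gt X
    exact key n X hX (by linarith)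

/-- PROOF. (i) `r = 1`: Abel summation against `A(t) = ∑_{e ≤ t} μ(e)/e log(t/e)` (bounded by
`moebius_log`; `A` is continuous, `t A'(t) = ∑_{e≤t} μ(e)/e`): with `φ(t) = t^{-u} log(X/t)`,
`∑ μ(e)/e φ(e) = -[A(t) t φ'(t)]_1^X + ∫_1^X A(t) (t φ'(t))' dt`,
`t φ' = -u t^{-u} log(X/t) - t^{-u}`, `t (t φ')' = u² t^{-u} log(X/t) + 2 u t^{-u}`, so
`≤ C X^{|Re u|} (1 + 2|u| log X + |u|² log² X)`.
(Alternatively avoid calculus by a discrete Abel summation.)
(ii) general `r`, induction on the prime factors `p` of `r` and (strong) on `⌊X⌋`: for `p ∤ r`,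
`m_{rp}(X) = m_r(X) + p^{-(1+u)} m_{rp}(X/p)`, where `m_r(X) = ∑_{e≤X,(e,r)=1} μ(e) e^{-(1+u)} log(X/e)`,
and `X^{|Re u|} sg(r) + p^{-1-Re u} (X/p)^{|Re u|} sg(rp) ≤ X^{|Re u|} sg(rp)`. -/
theorem moebius_cop : ∃ C : ℝ, 0 < C ∧ ∀ (r : ℕ), r ≠ 0 → ∀ (X : ℝ), 1 ≤ X → ∀ u : ℂ,
    ‖∑ e ∈ (Finset.Icc 1 ⌊X⌋₊).filter (fun e => Nat.Coprime e r),
      ((ArithmeticFunction.moebius e : ℤ) : ℂ) * (e : ℂ) ^ (-(1 + u)) * (Real.log (X / e) : ℂ)‖
      ≤ C * sg r * X ^ |u.re| * (1 + ‖u‖ * Real.log X) ^ 2 := by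
  obtain ⟨C, hC, hA⟩ := moebius_log
  refine ⟨C, hC, fun r hr X hX u => ?_⟩
  have h1 := ms_bound hC hA u r.primeFactors (fun q hq => Nat.prime_of_mem_primeFactors hq) X hX
  have h2 : (Finset.Icc 1 ⌊X⌋₊).filter (fun e => Nat.Coprime e r) =
      (Finset.Icc 1 ⌊X⌋₊).filter (fun e => ∀ p ∈ r.primeFactors, ¬ p ∣ e) := by
    apply Finset.filter_congr
    intro e _
    constructor
    · intro h p hp hdvd
      have hp1 := Nat.prime_of_mem_primeFactors hp
      have hp2 := Nat.dvd_of_mem_primeFactors hp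
      exact hp1.one_lt.ne' (Nat.eq_one_of_dvd_coprimes h hdvd hp2)
    · intro h
      apply Nat.coprime_of_dvd
      intro p hp hpe hpr
      exact h p (Nat.mem_primeFactors.2 ⟨hp, hpr, hr⟩) hpe
  rw [h2]
  exact h1

end Pool.Agent.H14.CO

end

section

/-!
# CO: the functions `rad`, `bf`
-/

set_option autoImplicit false

namespace Pool.Agent.H14.CO

open Set MeasureTheory Complex

/-- the product of the primes dividing `f` -/
noncomputable def rad (f : ℕ) : ℕ := ∏ p ∈ f.primeFactors, p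

/-- `b(f) = ∑_{g₁,g₂ ∣ rad f, f ∣ g₁ g₂} 1/(g₁ g₂)` -/
noncomputable def bf (f : ℕ) : ℝ :=
  ∑ g₁ ∈ (rad f).divisors, ∑ g₂ ∈ (rad f).divisors, if f ∣ g₁ * g₂ then 1 / ((g₁ : ℝ) * g₂) else 0

end Pool.Agent.H14.CO

end

section

/-!
# CO module BfSum: a sum of a multiplicative function
-/

set_option autoImplicit false

namespace Pool.Agent.H14.CO

open Set MeasureTheory Complex

/-- the summand -/
private noncomputable def BfSum_G (f : ℕ) : ℝ := (f : ℝ) * (sg f ^ 2 * bf f) ^ 2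

private lemma BfSum_rad_mul {m n : ℕ} (h : Nat.Coprime m n) : rad (m * n) = rad m * rad n := by
  unfold rad
  rw [h.primeFactors_mul, Finset.prod_union h.disjoint_primeFactors]

private lemma BfSum_sg_mul {m n : ℕ} (h : Nat.Coprime m n) : sg (m * n) = sg m * sg n := by
  unfold sg
  rw [h.primeFactors_mul, Finset.prod_union h.disjoint_primeFactors]

private lemma BfSum_rad_coprime {m n : ℕ} (h : Nat.Coprime m n) : Nat.Coprime (rad m) n := by
  unfold rad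
  rw [Nat.coprime_prod_left_iff]
  intro p hp
  exact h.coprime_dvd_left (Nat.dvd_of_mem_primeFactors hp)

private lemma BfSum_sum_mul {r s : ℕ} (h : Nat.Coprime r s) (F : ℕ → ℝ) :
    ∑ g ∈ (r * s).divisors, F g = ∑ a ∈ r.divisors, ∑ b ∈ s.divisors, F (a * b) := by
  rw [← Finset.sum_product', Nat.divisors_mul, Finset.mul_def]
  rw [Finset.sum_image]
  exact h.mul_injOn_divisors

private lemma BfSum_bf_mul {m n : ℕ} (h : Nat.Coprime m n) : bf (m * n) = bf m * bf n := by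
  have hrn : Nat.Coprime m (rad n) := (BfSum_rad_coprime h.symm).symm
  have hrm : Nat.Coprime (rad m) n := BfSum_rad_coprime h
  have hr : Nat.Coprime (rad m) (rad n) := BfSum_rad_coprime hrn
  have key : ∀ a₁ ∈ (rad m).divisors, ∀ b₁ ∈ (rad n).divisors, ∀ a₂ ∈ (rad m).divisors,
      ∀ b₂ ∈ (rad n).divisors,
      (if m * n ∣ a₁ * b₁ * (a₂ * b₂) then 1 / (((a₁ * b₁ : ℕ) : ℝ) * ((a₂ * b₂ : ℕ) : ℝ)) else 0)
      = (if m ∣ a₁ * a₂ then 1 / ((a₁ : ℝ) * a₂) else 0)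
        * (if n ∣ b₁ * b₂ then 1 / ((b₁ : ℝ) * b₂) else 0) := by
    intro a₁ ha₁ b₁ hb₁ a₂ ha₂ b₂ hb₂
    have ha₁' := Nat.dvd_of_mem_divisors ha₁
    have ha₂' := Nat.dvd_of_mem_divisors ha₂
    have hb₁' := Nat.dvd_of_mem_divisors hb₁
    have hb₂' := Nat.dvd_of_mem_divisors hb₂
    have hmb : Nat.Coprime m (b₁ * b₂) :=
      Nat.Coprime.mul_right (hrn.coprime_dvd_right hb₁') (hrn.coprime_dvd_right hb₂')
    have hna : Nat.Coprime n (a₁ * a₂) :=
      Nat.Coprime.mul_right (hrm.symm.coprime_dvd_right ha₁') (hrm.symm.coprime_dvd_right ha₂')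
    have heq : a₁ * b₁ * (a₂ * b₂) = (a₁ * a₂) * (b₁ * b₂) := by ring
    have hiff : m * n ∣ a₁ * b₁ * (a₂ * b₂) ↔ m ∣ a₁ * a₂ ∧ n ∣ b₁ * b₂ := by
      rw [heq]
      constructor
      · intro hd
        constructor
        · exact hmb.dvd_of_dvd_mul_right ((Dvd.intro _ rfl).trans hd)
        · exact hna.dvd_of_dvd_mul_left ((Dvd.intro_left _ rfl).trans hd)
      · rintro ⟨h1, h2⟩
        exact Nat.mul_dvd_mul h1 h2
    by_cases h1 : m ∣ a₁ * a₂
    · by_cases h2 : n ∣ b₁ * b₂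
      · rw [if_pos (hiff.2 ⟨h1, h2⟩), if_pos h1, if_pos h2]
        push_cast
        rw [div_mul_div_comm, one_mul]
        congr 1
        ring
      · rw [if_neg (fun hh => h2 (hiff.1 hh).2), if_neg h2, mul_zero]
    · rw [if_neg (fun hh => h1 (hiff.1 hh).1), if_neg h1, zero_mul]
  calc bf (m * n)
      = ∑ a₁ ∈ (rad m).divisors, ∑ b₁ ∈ (rad n).divisors, ∑ a₂ ∈ (rad m).divisors,
          ∑ b₂ ∈ (rad n).divisors,
          (if m * n ∣ a₁ * b₁ * (a₂ * b₂) then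
            1 / (((a₁ * b₁ : ℕ) : ℝ) * ((a₂ * b₂ : ℕ) : ℝ)) else 0) := by
        unfold bf
        rw [BfSum_rad_mul h, BfSum_sum_mul hr]
        refine Finset.sum_congr rfl fun a₁ _ => Finset.sum_congr rfl fun b₁ _ => ?_
        rw [BfSum_sum_mul hr]
    _ = ∑ a₁ ∈ (rad m).divisors, ∑ b₁ ∈ (rad n).divisors, ∑ a₂ ∈ (rad m).divisors,
          ∑ b₂ ∈ (rad n).divisors, (if m ∣ a₁ * a₂ then 1 / ((a₁ : ℝ) * a₂) else 0)
            * (if n ∣ b₁ * b₂ then 1 / ((b₁ : ℝ) * b₂) else 0) := by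
        refine Finset.sum_congr rfl fun a₁ ha₁ => Finset.sum_congr rfl fun b₁ hb₁ =>
          Finset.sum_congr rfl fun a₂ ha₂ => Finset.sum_congr rfl fun b₂ hb₂ => ?_
        exact key a₁ ha₁ b₁ hb₁ a₂ ha₂ b₂ hb₂
    _ = bf m * bf n := by
        unfold bf
        rw [Finset.sum_mul]
        refine Finset.sum_congr rfl fun a₁ _ => ?_
        rw [Finset.sum_comm, Finset.sum_mul]
        refine Finset.sum_congr rfl fun a₂ _ => ?_
        rw [Finset.mul_sum]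
        refine Finset.sum_congr rfl fun b₁ _ => ?_
        rw [Finset.mul_sum]

private lemma BfSum_G_mul {m n : ℕ} (h : Nat.Coprime m n) :
    BfSum_G (m * n) = BfSum_G m * BfSum_G n := by
  unfold BfSum_G
  rw [BfSum_bf_mul h, BfSum_sg_mul h]
  push_cast
  ring

private lemma BfSum_G_nonneg (n : ℕ) : 0 ≤ BfSum_G n := by
  unfold BfSum_G
  positivity

private lemma BfSum_G_one : BfSum_G 1 = 1 := by
  unfold BfSum_G sg bf rad
  simp

private lemma BfSum_rad_pow {p k : ℕ} (hp : p.Prime) (hk : k ≠ 0) : rad (p ^ k) = p := by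
  unfold rad
  rw [Nat.primeFactors_prime_pow hk hp, Finset.prod_singleton]

private lemma BfSum_sg_pow {p k : ℕ} (hp : p.Prime) (hk : k ≠ 0) :
    sg (p ^ k) = (1 - 1 / (p : ℝ))⁻¹ := by
  unfold sg
  rw [Nat.primeFactors_prime_pow hk hp, Finset.prod_singleton]

private lemma BfSum_bf_pow {p k : ℕ} (hp : p.Prime) (hk : k ≠ 0) :
    bf (p ^ k) = (if p ^ k ∣ 1 then 1 else 0) + 2 * (if p ^ k ∣ p then 1 / (p : ℝ) else 0)
      + (if p ^ k ∣ p * p then 1 / ((p : ℝ) * p) else 0) := by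
  unfold bf
  rw [BfSum_rad_pow hp hk, hp.divisors]
  have h1 : (1 : ℕ) ∉ ({p} : Finset ℕ) := by
    rw [Finset.mem_singleton]; exact hp.one_lt.ne
  rw [Finset.sum_insert h1, Finset.sum_insert h1, Finset.sum_singleton, Finset.sum_singleton,
    Finset.sum_insert h1, Finset.sum_singleton]
  simp only [one_mul, mul_one, Nat.cast_one, div_one]
  ring

private lemma BfSum_G_p {p : ℕ} (hp : p.Prime) :
    BfSum_G (p ^ 1) = (p : ℝ) * (((1 - 1 / (p : ℝ))⁻¹) ^ 2 * (2 / p + 1 / (p * p))) ^ 2 := by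
  unfold BfSum_G
  rw [BfSum_bf_pow hp one_ne_zero, BfSum_sg_pow hp one_ne_zero]
  have h1 : ¬ (p ^ 1 ∣ 1) := by rw [pow_one]; exact hp.one_lt.ne' ∘ Nat.dvd_one.1
  rw [if_neg h1, if_pos (by rw [pow_one]), if_pos (by rw [pow_one]; exact Dvd.intro _ rfl), pow_one]
  ring

private lemma BfSum_G_p2 {p : ℕ} (hp : p.Prime) :
    BfSum_G (p ^ 2) = (p : ℝ) ^ 2 * (((1 - 1 / (p : ℝ))⁻¹) ^ 2 * (1 / (p * p))) ^ 2 := by
  unfold BfSum_G
  rw [BfSum_bf_pow hp two_ne_zero, BfSum_sg_pow hp two_ne_zero]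
  have h1 : ¬ (p ^ 2 ∣ 1) := by
    intro h
    have := Nat.dvd_one.1 h
    have := hp.one_lt
    nlinarith
  have h2 : ¬ (p ^ 2 ∣ p) := by
    intro h
    have := Nat.le_of_dvd hp.pos h
    have := hp.one_lt
    nlinarith
  rw [if_neg h1, if_neg h2, if_pos (by rw [sq])]
  push_cast
  ring

private lemma BfSum_G_pk {p k : ℕ} (hp : p.Prime) (hk : 3 ≤ k) : BfSum_G (p ^ k) = 0 := by
  unfold BfSum_G
  have hk0 : k ≠ 0 := by omega
  rw [BfSum_bf_pow hp hk0]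
  have h3 : p ^ 3 ∣ p ^ k := pow_dvd_pow _ hk
  have h1 : ¬ (p ^ k ∣ 1) := by
    intro h
    have := Nat.le_of_dvd one_pos (h3.trans h)
    have := hp.one_lt
    nlinarith [sq_nonneg p, pow_pos hp.pos 2, pow_lt_pow_left₀ hp.one_lt (by norm_num) (n := 3) (by norm_num)]
  have h2 : ¬ (p ^ k ∣ p) := by
    intro h
    have h5 := (Nat.pow_dvd_pow_iff_le_right hp.one_lt).1 (by rw [pow_one]; exact h3.trans h : p ^ 3 ∣ p ^ 1)
    omega
  have h4 : ¬ (p ^ k ∣ p * p) := by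
    intro h
    rw [← sq] at h
    have h5 := (Nat.pow_dvd_pow_iff_le_right hp.one_lt).1 (h3.trans h)
    omega
  rw [if_neg h1, if_neg h2, if_neg h4]
  ring

private lemma BfSum_tsum {p : ℕ} (hp : p.Prime) :
    ∑' n : ℕ, BfSum_G (p ^ n) = 1 + BfSum_G (p ^ 1) + BfSum_G (p ^ 2) := by
  rw [tsum_eq_sum (s := Finset.range 3)]
  · rw [Finset.sum_range_succ, Finset.sum_range_succ, Finset.sum_range_succ, Finset.sum_range_zero,
      pow_zero, BfSum_G_one]
    ring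
  · intro b hb
    rw [Finset.mem_range, not_lt] at hb
    exact BfSum_G_pk hp hb

private lemma BfSum_summable {p : ℕ} (hp : p.Prime) :
    Summable (fun n : ℕ => ‖BfSum_G (p ^ n)‖) := by
  apply summable_of_ne_finset_zero (s := Finset.range 3)
  intro b hb
  rw [Finset.mem_range, not_lt] at hb
  rw [BfSum_G_pk hp hb, norm_zero]

private lemma BfSum_local {p : ℕ} (hp : p.Prime) :
    BfSum_G (p ^ 1) + BfSum_G (p ^ 2) ≤ 4 / p + 216 / (p : ℝ) ^ 2 := by
  rw [BfSum_G_p hp, BfSum_G_p2 hp]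
  have hp2 : (2 : ℝ) ≤ p := by exact_mod_cast hp.two_le
  have hp0 : (0 : ℝ) < p := by linarith
  set x : ℝ := 1 / (p : ℝ) with hx
  have hx0 : 0 < x := by positivity
  have hx1 : x ≤ 1 / 2 := by
    rw [hx]; exact one_div_le_one_div_of_le (by norm_num) hp2
  set y : ℝ := (1 - x)⁻¹ with hy
  have hy1 : y ≤ 1 + 2 * x := by
    rw [hy, inv_le_comm₀ (by linarith) (by linarith)]
    rw [← one_div, div_le_iff₀ (by linarith)]
    nlinarith
  have hy0 : 0 < y := by rw [hy]; apply inv_pos.2; linarith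
  have hy4 : y ^ 4 ≤ 1 + 30 * x := by
    have h1 : y ^ 4 ≤ (1 + 2 * x) ^ 4 := pow_le_pow_left₀ hy0.le hy1 4
    have h2 : (1 + 2 * x) ^ 4 ≤ 1 + 30 * x := by
      nlinarith [mul_pos hx0 hx0, mul_nonneg hx0.le (sub_nonneg.2 hx1),
        mul_nonneg (mul_pos hx0 hx0).le (sub_nonneg.2 hx1),
        mul_nonneg (mul_pos (mul_pos hx0 hx0) hx0).le (sub_nonneg.2 hx1)]
    exact h1.trans h2
  have hp' : (p : ℝ) = 1 / x := by rw [hx]; field_simp
  have e1 : (p : ℝ) * (y ^ 2 * (2 / p + 1 / (p * p))) ^ 2 = y ^ 4 * (4 * x + 4 * x ^ 2 + x ^ 3) := by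
    rw [hp']; field_simp; ring
  have e2 : (p : ℝ) ^ 2 * (y ^ 2 * (1 / (p * p))) ^ 2 = y ^ 4 * x ^ 2 := by
    rw [hp']; field_simp
  have e3 : 4 / (p : ℝ) + 216 / (p : ℝ) ^ 2 = 4 * x + 216 * x ^ 2 := by
    rw [hx]; field_simp
  rw [e1, e2, e3]
  have h5 : y ^ 4 * (4 * x + 4 * x ^ 2 + x ^ 3) + y ^ 4 * x ^ 2
      ≤ (1 + 30 * x) * (4 * x + 5 * x ^ 2 + x ^ 3) := by
    have : y ^ 4 * (4 * x + 4 * x ^ 2 + x ^ 3) + y ^ 4 * x ^ 2
      = y ^ 4 * (4 * x + 5 * x ^ 2 + x ^ 3) := by ring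
    rw [this]
    apply mul_le_mul_of_nonneg_right hy4
    positivity
  refine h5.trans ?_
  nlinarith [mul_pos hx0 hx0, mul_nonneg hx0.le (sub_nonneg.2 hx1),
        mul_nonneg (mul_pos hx0 hx0).le (sub_nonneg.2 hx1),
        mul_nonneg (mul_pos (mul_pos hx0 hx0) hx0).le (sub_nonneg.2 hx1)]

private lemma BfSum_sq_sum (F : ℕ) : ∑ p ∈ (F + 1).primesBelow, 1 / (p : ℝ) ^ 2 ≤ 1 := by
  have h1 : ∀ N : ℕ, 1 ≤ N → ∑ k ∈ Finset.Ioc 1 N, 1 / (k : ℝ) ^ 2 ≤ 1 - 1 / (N : ℝ) := by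
    intro N hN
    induction N, hN using Nat.le_induction with
    | base => simp
    | succ n hn ih =>
      rw [Finset.sum_Ioc_succ_top hn]
      have hn0 : (0 : ℝ) < n := by exact_mod_cast hn
      have : 1 / ((n + 1 : ℕ) : ℝ) ^ 2 ≤ 1 / n - 1 / ((n + 1 : ℕ) : ℝ) := by
        push_cast
        rw [div_sub_div _ _ hn0.ne' (by positivity), div_le_div_iff₀ (by positivity) (by positivity)]
        nlinarith
      linarith
  rcases Nat.eq_zero_or_pos F with hF | hF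
  · subst hF
    simp [Nat.primesBelow]
    rw [Finset.sum_eq_zero]
    · norm_num
    · intro x hx
      simp at hx
      exact absurd (hx.1 ▸ hx.2) Nat.not_prime_zero
  · have h2 : ∑ p ∈ (F + 1).primesBelow, 1 / (p : ℝ) ^ 2 ≤ ∑ k ∈ Finset.Ioc 1 F, 1 / (k : ℝ) ^ 2 := by
      apply Finset.sum_le_sum_of_subset_of_nonneg
      · intro p hp
        rw [Nat.mem_primesBelow] at hp
        rw [Finset.mem_Ioc]
        exact ⟨hp.2.one_lt, by omega⟩
      · intros; positivity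
    have h3 := h1 F hF
    have h4 : (0 : ℝ) ≤ 1 / F := by positivity
    linarith

/-- the sum over `f ≤ F` is bounded by the Euler product -/
private lemma BfSum_euler (F : ℕ) :
    ∑ f ∈ Finset.Icc 1 F, BfSum_G f
      ≤ ∏ p ∈ (F + 1).primesBelow, (1 + BfSum_G (p ^ 1) + BfSum_G (p ^ 2)) := by
  obtain ⟨h1, h2⟩ := EulerProduct.summable_and_hasSum_smoothNumbers_prod_primesBelow_tsum
    (f := BfSum_G) BfSum_G_one (fun {m n} h => BfSum_G_mul h) (fun {p} hp => BfSum_summable hp) (F + 1)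
  have h3 : ∏ p ∈ (F + 1).primesBelow, ∑' n : ℕ, BfSum_G (p ^ n)
      = ∏ p ∈ (F + 1).primesBelow, (1 + BfSum_G (p ^ 1) + BfSum_G (p ^ 2)) := by
    apply Finset.prod_congr rfl
    intro p hp
    exact BfSum_tsum (Nat.prime_of_mem_primesBelow hp)
  rw [← h3]
  let i : Finset.Icc 1 F → (F + 1).smoothNumbers := fun x =>
    ⟨x.1, Nat.mem_smoothNumbers_of_lt (Finset.mem_Icc.1 x.2).1
      (Nat.lt_succ_of_le (Finset.mem_Icc.1 x.2).2)⟩
  have hi : Function.Injective i := by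
    intro x y hxy
    have := congrArg Subtype.val hxy
    exact Subtype.ext this
  have h4 : ∑ x : Finset.Icc 1 F, BfSum_G (i x : ℕ)
      ≤ ∏ p ∈ (F + 1).primesBelow, ∑' n : ℕ, BfSum_G (p ^ n) := by
    have h5 := sum_le_hasSum (f := fun m : (F + 1).smoothNumbers => BfSum_G m)
      (Finset.univ.map ⟨i, hi⟩) (fun m _ => BfSum_G_nonneg _) h2
    rw [Finset.sum_map] at h5
    exact h5
  rw [← Finset.sum_coe_sort]
  exact h4

private lemma BfSum_big : ∃ C : ℝ, 0 < C ∧ ∀ F : ℕ, 1024 ≤ F →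
    ∑ f ∈ Finset.Icc 1 F, BfSum_G f ≤ C * Real.log F ^ 4 := by
  obtain ⟨C, hC0, hC⟩ := Pool.Agent.H10.GoldLoc.exists_mertens
  refine ⟨Real.exp (4 * C + 216), Real.exp_pos _, ?_⟩
  intro F hF
  have hlog : 1 < Real.log F := by
    have h1 : (1024 : ℝ) ≤ F := by exact_mod_cast hF
    have h2 : Real.log 1024 ≤ Real.log F := Real.log_le_log (by norm_num) h1
    have h3 : Real.log 1024 = 10 * Real.log 2 := by
      rw [show (1024 : ℝ) = (2 : ℝ) ^ (10 : ℕ) by norm_num, Real.log_pow]; norm_num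
    have := Real.log_two_gt_d9
    linarith
  refine (BfSum_euler F).trans ?_
  calc ∏ p ∈ (F + 1).primesBelow, (1 + BfSum_G (p ^ 1) + BfSum_G (p ^ 2))
      ≤ ∏ p ∈ (F + 1).primesBelow, Real.exp (4 / p + 216 / (p : ℝ) ^ 2) := by
        apply Finset.prod_le_prod
        · intro p _
          have := BfSum_G_nonneg (p ^ 1)
          have := BfSum_G_nonneg (p ^ 2)
          linarith
        · intro p hp
          have h1 := BfSum_local (Nat.prime_of_mem_primesBelow hp)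
          have h2 := Real.add_one_le_exp (4 / (p : ℝ) + 216 / (p : ℝ) ^ 2)
          linarith
    _ = Real.exp (∑ p ∈ (F + 1).primesBelow, (4 / (p : ℝ) + 216 / (p : ℝ) ^ 2)) := by
        rw [Real.exp_sum]
    _ ≤ Real.exp (4 * (Real.log (Real.log F) + C) + 216) := by
        apply Real.exp_le_exp.2
        rw [Finset.sum_add_distrib]
        have h1 : ∑ p ∈ (F + 1).primesBelow, 4 / (p : ℝ) ≤ 4 * (Real.log (Real.log F) + C) := by
          have h2 := hC F hF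
          have h3 : ∑ p ∈ (F + 1).primesBelow, 4 / (p : ℝ)
              = 4 * ∑ p ∈ Pool.Agent.H10.GoldLoc.PP 0 F, (1 : ℝ) / p := by
            rw [Finset.mul_sum]
            have h4 : (F + 1).primesBelow = Pool.Agent.H10.GoldLoc.PP 0 F := by
              ext p
              rw [Nat.mem_primesBelow, Pool.Agent.H10.GoldLoc.mem_PP]
              constructor
              · rintro ⟨h5, h6⟩
                exact ⟨h6.pos, by omega, h6⟩
              · rintro ⟨_, h5, h6⟩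
                exact ⟨by omega, h6⟩
            rw [h4]
            apply Finset.sum_congr rfl
            intro p _
            ring
          rw [h3]
          linarith
        have h2 : ∑ p ∈ (F + 1).primesBelow, 216 / (p : ℝ) ^ 2 ≤ 216 := by
          have h3 := BfSum_sq_sum F
          have h4 : ∑ p ∈ (F + 1).primesBelow, 216 / (p : ℝ) ^ 2
              = 216 * ∑ p ∈ (F + 1).primesBelow, 1 / (p : ℝ) ^ 2 := by
            rw [Finset.mul_sum]
            apply Finset.sum_congr rfl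
            intro p _
            ring
          rw [h4]
          linarith
        linarith
    _ = Real.exp (4 * C + 216) * Real.log F ^ 4 := by
        have h1 : 4 * (Real.log (Real.log F) + C) + 216
          = (4 * C + 216) + ((4 : ℕ) : ℝ) * Real.log (Real.log F) := by push_cast; ring
        rw [h1, Real.exp_add, Real.exp_nat_mul, Real.exp_log (by linarith)]

/-- `∑_{f ≤ F} f b(f)² sg(f)^4 ≤ C (log F)^4`.

PROOF. `G(f) = f b(f)² sg(f)^4` is multiplicative, `G(p) = (4+4/p+1/p²)(1-1/p)^{-4}/p`,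
`G(p²) = (1-1/p)^{-4}/p²`, `G(p^k) = 0` for `k ≥ 3` (`b(p)=2/p+1/p²`, `b(p²)=1/p²`). So
`∑_{f≤F} G(f) ≤ ∏_{p≤F} (1+G(p)+G(p²)) ≤ exp(∑_{p ≤ F} (4/p + C/p²)) ≤ C (log F)^4` by Mertens
(`∑_{p≤F} 1/p ≤ log log F + C`: `Pool/Agent/H91/PK/MR.lean`, `MR_sum_inv`, or
`H91/GoldMertens3.lean`). -/
theorem bf_sum : ∃ C : ℝ, 0 < C ∧ ∀ F : ℕ, 2 ≤ F →
    ∑ f ∈ Finset.Icc 1 F, (f : ℝ) * (sg f ^ 2 * bf f) ^ 2 ≤ C * Real.log F ^ 4 := by
  obtain ⟨C, hC0, hC⟩ := BfSum_big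
  refine ⟨C * 10 ^ 4, by positivity, ?_⟩
  intro F hF
  change ∑ f ∈ Finset.Icc 1 F, BfSum_G f ≤ _
  have hl2 : 0 < Real.log 2 := Real.log_pos (by norm_num)
  have hlF : Real.log 2 ≤ Real.log F := Real.log_le_log (by norm_num) (by exact_mod_cast hF)
  rcases le_or_gt 1024 F with h | h
  · refine (hC F h).trans ?_
    have h1 : 0 ≤ Real.log F ^ 4 := by positivity
    nlinarith [mul_nonneg hC0.le h1]
  · have h1 : ∑ f ∈ Finset.Icc 1 F, BfSum_G f ≤ ∑ f ∈ Finset.Icc 1 1024, BfSum_G f :=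
      Finset.sum_le_sum_of_subset_of_nonneg (Finset.Icc_subset_Icc_right h.le)
        (fun f _ _ => BfSum_G_nonneg f)
    have h2 := hC 1024 le_rfl
    have h3 : Real.log ((1024 : ℕ) : ℝ) = 10 * Real.log 2 := by
      rw [show ((1024 : ℕ) : ℝ) = (2 : ℝ) ^ (10 : ℕ) by norm_num, Real.log_pow]; norm_num
    rw [h3] at h2
    have h4 : Real.log 2 ^ 4 ≤ Real.log F ^ 4 := pow_le_pow_left₀ hl2.le hlF 4
    calc ∑ f ∈ Finset.Icc 1 F, BfSum_G f ≤ C * (10 * Real.log 2) ^ 4 := h1.trans h2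
      _ = C * 10 ^ 4 * Real.log 2 ^ 4 := by ring
      _ ≤ C * 10 ^ 4 * Real.log F ^ 4 := by
          apply mul_le_mul_of_nonneg_left h4
          positivity

end Pool.Agent.H14.CO

end

section

/-!
# CO module LamB: basic properties of the weights
-/

set_option autoImplicit false

namespace Pool.Agent.H14.CO

open Set MeasureTheory Complex

private theorem LamB_log (z₀ : ℝ) (hz : 1 < z₀) (d : ℕ) (hd : 0 < d) :
    Real.log (z₀ ^ 2 / d) = Real.log z₀ + Real.log (z₀ / d) := by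
  have hz0 : 0 < z₀ := by linarith
  have hd0 : (0 : ℝ) < d := Nat.cast_pos.2 hd
  rw [← Real.log_mul hz0.ne' (by positivity)]
  congr 1
  ring

theorem abs_lam_le (z₀ : ℝ) (hz : 1 < z₀) (d : ℕ) : |lam z₀ d| ≤ 1 := by
  rcases Nat.eq_zero_or_pos d with rfl | hd
  · simp [lam]
  · have hl : 0 < Real.log z₀ := Real.log_pos hz
    have h1 := LamB_log z₀ hz d hd
    have hμ : |((ArithmeticFunction.moebius d : ℤ) : ℝ)| ≤ 1 := by
      have := ArithmeticFunction.abs_moebius_le_one (n := d)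
      exact_mod_cast this
    unfold lam
    rw [h1, abs_div, abs_mul, abs_of_pos hl, div_le_one hl]
    have h2 : |max 0 (Real.log z₀ + Real.log (z₀ / d)) - max 0 (Real.log (z₀ / d))| ≤
        Real.log z₀ := by
      rw [abs_le]
      constructor
      · have : max 0 (Real.log (z₀ / d)) ≤ max 0 (Real.log z₀ + Real.log (z₀ / d)) :=
          max_le_max le_rfl (by linarith)
        linarith
      · have : max 0 (Real.log z₀ + Real.log (z₀ / d)) ≤
            Real.log z₀ + max 0 (Real.log (z₀ / d)) :=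
          max_le (by linarith [le_max_left 0 (Real.log (z₀ / d))])
            (by linarith [le_max_right 0 (Real.log (z₀ / d))])
        linarith
    calc |((ArithmeticFunction.moebius d : ℤ) : ℝ)| *
          |max 0 (Real.log z₀ + Real.log (z₀ / d)) - max 0 (Real.log (z₀ / d))| ≤
          1 * Real.log z₀ := mul_le_mul hμ h2 (abs_nonneg _) zero_le_one
      _ = Real.log z₀ := one_mul _

theorem lam_eq_zero (z₀ : ℝ) (hz : 1 < z₀) (d : ℕ) (hd : z₀ ^ 2 ≤ d) : lam z₀ d = 0 := by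
  have hz0 : 0 < z₀ := by linarith
  have hd0 : (0 : ℝ) < d := lt_of_lt_of_le (by positivity) hd
  have h1 : Real.log (z₀ ^ 2 / d) ≤ 0 :=
    Real.log_nonpos (by positivity) ((div_le_one hd0).2 hd)
  have h2 : Real.log (z₀ / d) ≤ 0 := by
    refine Real.log_nonpos (by positivity) ((div_le_one hd0).2 (le_trans ?_ hd))
    nlinarith
  unfold lam
  rw [max_eq_left h1, max_eq_left h2]
  simp

theorem lam_small (z₀ : ℝ) (hz : 1 < z₀) (d : ℕ) (hd : (d : ℝ) ≤ z₀) :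
    lam z₀ d = ((ArithmeticFunction.moebius d : ℤ) : ℝ) := by
  rcases Nat.eq_zero_or_pos d with rfl | hd0
  · simp [lam]
  · have hl : 0 < Real.log z₀ := Real.log_pos hz
    have h1 := LamB_log z₀ hz d hd0
    have hd1 : (0 : ℝ) < d := Nat.cast_pos.2 hd0
    have h2 : 0 ≤ Real.log (z₀ / d) := Real.log_nonneg ((one_le_div hd1).2 hd)
    unfold lam
    rw [h1, max_eq_right h2, max_eq_right (by linarith)]
    field_simp
    ring

theorem differentiable_Mo (z₀ : ℝ) : Differentiable ℂ (Mo z₀) := by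
  have h : Mo z₀ = fun s => ∑ d ∈ Finset.Icc 1 ⌊z₀ ^ 2⌋₊, (lam z₀ d : ℂ) * (d : ℂ) ^ (-s) := rfl
  rw [h]
  refine Differentiable.fun_sum fun d hd => ?_
  have hd0 : (d : ℂ) ≠ 0 := Nat.cast_ne_zero.2 (by have := (Finset.mem_Icc.1 hd).1; omega)
  exact (differentiable_neg.const_cpow (Or.inl hd0)).const_mul _

theorem continuous_Mo (z₀ : ℝ) : Continuous (Mo z₀) := (differentiable_Mo z₀).continuous

/-- crude bound (number of terms times the largest). -/
theorem norm_Mo_le (z₀ : ℝ) (hz : 1 < z₀) (s : ℂ) : ‖Mo z₀ s‖ ≤ z₀ ^ (2 + 2 * |s.re|) := by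
  have hz0 : 0 < z₀ := by linarith
  have h1 : ‖Mo z₀ s‖ ≤ ∑ d ∈ Finset.Icc 1 ⌊z₀ ^ 2⌋₊, z₀ ^ (2 * |s.re|) := by
    unfold Mo
    refine (norm_sum_le _ _).trans (Finset.sum_le_sum fun d hd => ?_)
    have hd1 : 1 ≤ d := (Finset.mem_Icc.1 hd).1
    have hd2 : (d : ℝ) ≤ z₀ ^ 2 := by
      have := (Finset.mem_Icc.1 hd).2
      exact (Nat.le_floor_iff (by positivity)).1 this
    have hd3 : (1 : ℝ) ≤ d := by exact_mod_cast hd1
    rw [norm_mul, Complex.norm_real, Real.norm_eq_abs, Complex.norm_natCast_cpow_of_pos hd1]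
    have h2 : (d : ℝ) ^ (-s).re ≤ z₀ ^ (2 * |s.re|) := by
      calc (d : ℝ) ^ (-s).re ≤ (d : ℝ) ^ |s.re| := by
            refine Real.rpow_le_rpow_of_exponent_le hd3 ?_
            rw [Complex.neg_re]
            exact neg_le_abs _
        _ ≤ (z₀ ^ 2) ^ |s.re| := Real.rpow_le_rpow (by positivity) hd2 (abs_nonneg _)
        _ = z₀ ^ (2 * |s.re|) := by
            rw [Real.rpow_mul hz0.le]
            norm_num
    calc |lam z₀ d| * (d : ℝ) ^ (-s).re ≤ 1 * z₀ ^ (2 * |s.re|) :=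
          mul_le_mul (abs_lam_le z₀ hz d) h2 (by positivity) zero_le_one
      _ = z₀ ^ (2 * |s.re|) := one_mul _
  refine h1.trans ?_
  rw [Finset.sum_const, Nat.card_Icc, Nat.add_sub_cancel, nsmul_eq_mul, Real.rpow_add hz0]
  refine mul_le_mul_of_nonneg_right ?_ (by positivity)
  refine (Nat.floor_le (by positivity)).trans (le_of_eq ?_)
  norm_num

end Pool.Agent.H14.CO

end

section

/-!
# CO module Gcd: diagonalisation of the quadratic form with the lcm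
-/

set_option autoImplicit false

namespace Pool.Agent.H14.CO

open Set MeasureTheory Complex

/-- the arithmetic function `n ↦ n^s` -/
private noncomputable def Gcd_pw (s : ℝ) : ArithmeticFunction ℝ :=
  ⟨fun n => if n = 0 then 0 else (n : ℝ) ^ s, by simp⟩

private theorem Gcd_pw_apply (s : ℝ) {n : ℕ} (hn : n ≠ 0) : Gcd_pw s n = (n : ℝ) ^ s := by
  show (if n = 0 then (0 : ℝ) else (n : ℝ) ^ s) = (n : ℝ) ^ s
  rw [if_neg hn]

/-- the Jordan function with real exponent -/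
private noncomputable def Gcd_J (s : ℝ) : ArithmeticFunction ℝ :=
  ((ArithmeticFunction.moebius : ArithmeticFunction ℤ) : ArithmeticFunction ℝ) * Gcd_pw s

private theorem Gcd_zetaJ (s : ℝ) {n : ℕ} (hn : n ≠ 0) :
    ∑ f ∈ n.divisors, Gcd_J s f = (n : ℝ) ^ s := by
  have h1 : ((ArithmeticFunction.zeta : ArithmeticFunction ℕ) : ArithmeticFunction ℝ) * Gcd_J s
      = Gcd_pw s := by
    unfold Gcd_J
    rw [← mul_assoc, ArithmeticFunction.coe_zeta_mul_coe_moebius, one_mul]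
  rw [← ArithmeticFunction.coe_zeta_mul_apply, h1, Gcd_pw_apply s hn]

private theorem Gcd_pw_mult (s : ℝ) : (Gcd_pw s).IsMultiplicative := by
  refine ArithmeticFunction.IsMultiplicative.iff_ne_zero.2 ⟨?_, ?_⟩
  · rw [Gcd_pw_apply s one_ne_zero]
    simp
  · intro m n hm hn _
    rw [Gcd_pw_apply s hm, Gcd_pw_apply s hn, Gcd_pw_apply s (mul_ne_zero hm hn)]
    push_cast
    exact Real.mul_rpow (Nat.cast_nonneg _) (Nat.cast_nonneg _)

private theorem Gcd_J_mult (s : ℝ) : (Gcd_J s).IsMultiplicative :=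
  ArithmeticFunction.isMultiplicative_moebius.intCast.mul (Gcd_pw_mult s)

private theorem Gcd_J_prime_pow {s : ℝ} (hs : 0 ≤ s) {p : ℕ} (hp : p.Prime) (k : ℕ) :
    0 ≤ Gcd_J s (p ^ k) := by
  rcases k with _ | k
  · rw [pow_zero, (Gcd_J_mult s).map_one]
    exact zero_le_one
  · have h1 := Gcd_zetaJ s (n := p ^ (k + 1)) (pow_ne_zero _ hp.ne_zero)
    have h2 := Gcd_zetaJ s (n := p ^ k) (pow_ne_zero _ hp.ne_zero)
    rw [Nat.sum_divisors_prime_pow hp] at h1 h2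
    rw [Finset.sum_range_succ, h2] at h1
    have h3 : ((p ^ k : ℕ) : ℝ) ^ s ≤ ((p ^ (k + 1) : ℕ) : ℝ) ^ s := by
      refine Real.rpow_le_rpow (Nat.cast_nonneg _) ?_ hs
      exact_mod_cast Nat.pow_le_pow_right hp.pos (Nat.le_succ k)
    linarith

private theorem Gcd_J_nonneg {s : ℝ} (hs : 0 ≤ s) (n : ℕ) : 0 ≤ Gcd_J s n := by
  rcases eq_or_ne n 0 with rfl | hn
  · rw [ArithmeticFunction.map_zero]
  · rw [ArithmeticFunction.IsMultiplicative.multiplicative_factorization _ (Gcd_J_mult s) hn]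
    refine Finset.prod_nonneg fun p hp => ?_
    exact Gcd_J_prime_pow hs (Nat.prime_of_mem_primeFactors (by simpa using hp)) _

private theorem Gcd_J_le {s : ℝ} (hs : 0 ≤ s) {n : ℕ} (hn : n ≠ 0) : Gcd_J s n ≤ (n : ℝ) ^ s := by
  rw [← Gcd_zetaJ s hn]
  exact Finset.single_le_sum (f := fun f => Gcd_J s f) (fun f _ => Gcd_J_nonneg hs f)
    (Nat.mem_divisors_self n hn)

private theorem Gcd_summable (s : ℝ) (hs : 1 < s) : Summable (fun m : ℕ => (m : ℝ) ^ (-s)) :=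
  Real.summable_nat_rpow.2 (by linarith)

private theorem Gcd_hasSum_mult (s : ℝ) (hs : 1 < s) (L : ℕ) (hL : L ≠ 0) :
    HasSum (fun n : ℕ => if L ∣ n then (n : ℝ) ^ (-s) else 0)
      ((L : ℝ) ^ (-s) * ∑' m : ℕ, (m : ℝ) ^ (-s)) := by
  have hinj : Function.Injective (fun m : ℕ => L * m) := fun a b h =>
    Nat.eq_of_mul_eq_mul_left (Nat.pos_of_ne_zero hL) h
  rw [← hinj.hasSum_iff]
  · have h1 := (Gcd_summable s hs).hasSum.mul_left ((L : ℝ) ^ (-s))
    have h2 : ((fun n : ℕ => if L ∣ n then (n : ℝ) ^ (-s) else 0) ∘ fun m : ℕ => L * m)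
        = fun m : ℕ => (L : ℝ) ^ (-s) * (m : ℝ) ^ (-s) := by
      funext m
      show (if L ∣ L * m then ((L * m : ℕ) : ℝ) ^ (-s) else 0) = _
      rw [if_pos (dvd_mul_right L m)]
      push_cast
      exact Real.mul_rpow (Nat.cast_nonneg _) (Nat.cast_nonneg _)
    rw [h2]
    exact h1
  · intro n hn
    rw [if_neg]
    rintro ⟨m, rfl⟩
    exact hn ⟨m, rfl⟩

private theorem Gcd_zeta_le (s : ℝ) (hs : 1 < s) : ∑' m : ℕ, (m : ℝ) ^ (-s) ≤ 1 + 1 / (s - 1) := by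
  refine (Gcd_summable s hs).tsum_le_of_sum_range_le fun n => ?_
  have hmono : ∑ i ∈ Finset.range n, (i : ℝ) ^ (-s) ≤
      ∑ i ∈ Finset.range (n + 2), (i : ℝ) ^ (-s) :=
    Finset.sum_le_sum_of_subset_of_nonneg (Finset.range_mono (by omega))
      fun i _ _ => Real.rpow_nonneg (Nat.cast_nonneg _) _
  refine hmono.trans ?_
  rw [Finset.sum_range_succ', Finset.sum_range_succ']
  have h0 : ((0 : ℕ) : ℝ) ^ (-s) = 0 := by
    rw [Nat.cast_zero]
    exact Real.zero_rpow (by linarith)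
  have h1 : (((0 + 1 : ℕ) : ℝ)) ^ (-s) = 1 := by simp
  rw [h0, h1, add_zero, add_comm]
  refine add_le_add_right ?_ 1
  have hanti : AntitoneOn (fun x : ℝ => x ^ (-s)) (Set.Icc (1 : ℝ) (1 + n)) := by
    intro x hx y _ hxy
    exact Real.rpow_le_rpow_of_nonpos (by linarith [hx.1]) hxy (by linarith)
  have h2 := hanti.sum_le_integral
  have h3 : ∑ i ∈ Finset.range n, (((i + 1 + 1 : ℕ) : ℝ)) ^ (-s) =
      ∑ i ∈ Finset.range n, (fun x : ℝ => x ^ (-s)) (1 + ((i + 1 : ℕ) : ℝ)) := by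
    refine Finset.sum_congr rfl fun i _ => ?_
    show _ = (1 + ((i + 1 : ℕ) : ℝ)) ^ (-s)
    congr 1
    push_cast
    ring
  rw [h3]
  refine h2.trans ?_
  have hn1 : (1 : ℝ) ≤ 1 + n := by
    have : (0 : ℝ) ≤ n := Nat.cast_nonneg n
    linarith
  rw [integral_rpow]
  · rw [Real.one_rpow]
    have h4 : 0 ≤ (1 + (n : ℝ)) ^ (-s + 1) := Real.rpow_nonneg (by linarith) _
    have h5 : ((1 + (n : ℝ)) ^ (-s + 1) - 1) / (-s + 1) = (1 - (1 + (n : ℝ)) ^ (-s + 1)) / (s - 1) := by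
      have h6 : -s + 1 ≠ 0 := by linarith
      have h7 : s - 1 ≠ 0 := by linarith
      field_simp
      ring
    rw [h5]
    exact div_le_div_of_nonneg_right (by linarith) (by linarith)
  · right
    constructor
    · linarith
    · rw [Set.uIcc_of_le hn1]
      intro h
      linarith [h.1]

private theorem Gcd_lcm (s : ℝ) (D D' : ℕ) (hD : D ≠ 0) (hD' : D' ≠ 0) :
    ((Nat.lcm D D' : ℕ) : ℝ) ^ (-s) =
      (D : ℝ) ^ (-s) * (D' : ℝ) ^ (-s) * ((Nat.gcd D D' : ℕ) : ℝ) ^ s := by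
  have hg : 0 < Nat.gcd D D' := Nat.gcd_pos_of_pos_left _ (Nat.pos_of_ne_zero hD)
  have hl : 0 < Nat.lcm D D' := Nat.lcm_pos (Nat.pos_of_ne_zero hD) (Nat.pos_of_ne_zero hD')
  have h1 : ((Nat.gcd D D' : ℕ) : ℝ) * ((Nat.lcm D D' : ℕ) : ℝ) = (D : ℝ) * (D' : ℝ) := by
    exact_mod_cast Nat.gcd_mul_lcm D D'
  have h2 : ((Nat.gcd D D' : ℕ) : ℝ) ^ (-s) * ((Nat.lcm D D' : ℕ) : ℝ) ^ (-s) =
      (D : ℝ) ^ (-s) * (D' : ℝ) ^ (-s) := by
    rw [← Real.mul_rpow (Nat.cast_nonneg _) (Nat.cast_nonneg _), h1,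
      Real.mul_rpow (Nat.cast_nonneg _) (Nat.cast_nonneg _)]
  rw [← h2]
  have h3 : ((Nat.gcd D D' : ℕ) : ℝ) ^ (-s) * ((Nat.gcd D D' : ℕ) : ℝ) ^ s = 1 := by
    have hg' : (0 : ℝ) < ((Nat.gcd D D' : ℕ) : ℝ) := by exact_mod_cast hg
    rw [← Real.rpow_add hg']
    simp
  calc ((Nat.lcm D D' : ℕ) : ℝ) ^ (-s)
      = (((Nat.gcd D D' : ℕ) : ℝ) ^ (-s) * ((Nat.gcd D D' : ℕ) : ℝ) ^ s) *
        ((Nat.lcm D D' : ℕ) : ℝ) ^ (-s) := by rw [h3, one_mul]
    _ = _ := by ring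

private theorem Gcd_quad (s : ℝ) (M : ℕ) (c : ℕ → ℝ) :
    ∑ D ∈ Finset.Icc 1 M, ∑ D' ∈ Finset.Icc 1 M,
      c D * c D' * ((Nat.lcm D D' : ℕ) : ℝ) ^ (-s) =
    ∑ f ∈ Finset.Icc 1 M, Gcd_J s f *
      (∑ D ∈ (Finset.Icc 1 M).filter (fun D => f ∣ D), c D * (D : ℝ) ^ (-s)) ^ 2 := by
  have h1 : ∀ D ∈ Finset.Icc 1 M, ∀ D' ∈ Finset.Icc 1 M,
      c D * c D' * ((Nat.lcm D D' : ℕ) : ℝ) ^ (-s) =
      ∑ f ∈ Finset.Icc 1 M, if f ∣ D ∧ f ∣ D' then
        Gcd_J s f * ((c D * (D : ℝ) ^ (-s)) * (c D' * (D' : ℝ) ^ (-s))) else 0 := by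
    intro D hD D' hD'
    rw [Finset.mem_Icc] at hD hD'
    have hD0 : D ≠ 0 := by omega
    have hD0' : D' ≠ 0 := by omega
    have hg0 : Nat.gcd D D' ≠ 0 := Nat.gcd_ne_zero_left hD0
    rw [← Finset.sum_filter]
    have h2 : (Finset.Icc 1 M).filter (fun f => f ∣ D ∧ f ∣ D') = (Nat.gcd D D').divisors := by
      ext f
      rw [Finset.mem_filter, Finset.mem_Icc, Nat.mem_divisors]
      constructor
      · rintro ⟨_, h3, h4⟩
        exact ⟨Nat.dvd_gcd h3 h4, hg0⟩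
      · rintro ⟨h3, _⟩
        have h4 : f ∣ D := h3.trans (Nat.gcd_dvd_left _ _)
        have h5 : f ∣ D' := h3.trans (Nat.gcd_dvd_right _ _)
        refine ⟨⟨Nat.pos_of_dvd_of_pos h4 (by omega), (Nat.le_of_dvd (by omega) h4).trans hD.2⟩,
          h4, h5⟩
    rw [h2, ← Finset.sum_mul, Gcd_zetaJ s hg0, Gcd_lcm s D D' hD0 hD0']
    ring
  rw [Finset.sum_congr rfl fun D hD => Finset.sum_congr rfl fun D' hD' => h1 D hD D' hD']
  rw [Finset.sum_congr rfl fun D _ => Finset.sum_comm, Finset.sum_comm]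
  refine Finset.sum_congr rfl fun f _ => ?_
  rw [sq, Finset.sum_mul_sum, Finset.mul_sum, Finset.sum_filter]
  refine Finset.sum_congr rfl fun D _ => ?_
  by_cases hfD : f ∣ D
  · rw [if_pos hfD, Finset.mul_sum, Finset.sum_filter]
    refine Finset.sum_congr rfl fun D' _ => ?_
    by_cases hfD' : f ∣ D'
    · rw [if_pos ⟨hfD, hfD'⟩, if_pos hfD']
    · rw [if_neg (fun h => hfD' h.2), if_neg hfD']
  · rw [if_neg hfD]
    exact Finset.sum_eq_zero fun D' _ => if_neg fun h => hfD h.1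

private theorem Gcd_filter (n M : ℕ) (hn : n ≠ 0) :
    n.divisors.filter (fun D => D ≤ M) = (Finset.Icc 1 M).filter (fun D => D ∣ n) := by
  ext D
  simp only [Finset.mem_filter, Nat.mem_divisors, Finset.mem_Icc]
  constructor
  · rintro ⟨⟨h1, _⟩, h2⟩
    exact ⟨⟨Nat.pos_of_dvd_of_pos h1 (Nat.pos_of_ne_zero hn), h2⟩, h1⟩
  · rintro ⟨⟨_, h2⟩, h1⟩
    exact ⟨⟨h1, hn⟩, h2⟩

private theorem Gcd_real (s : ℝ) (hs : 1 < s) (M N : ℕ) (c : ℕ → ℝ) :
    ∑ n ∈ Finset.Icc 1 N, (n : ℝ) ^ (-s) *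
        (∑ D ∈ (Finset.Icc 1 M).filter (fun D => D ∣ n), c D) ^ 2
      ≤ (1 + 1 / (s - 1)) * ∑ f ∈ Finset.Icc 1 M, (f : ℝ) ^ s *
        (∑ D ∈ (Finset.Icc 1 M).filter (fun D => f ∣ D), c D * (D : ℝ) ^ (-s)) ^ 2 := by
  set Z := ∑' m : ℕ, (m : ℝ) ^ (-s) with hZ
  have hZ0 : 0 ≤ Z := tsum_nonneg fun m => Real.rpow_nonneg (Nat.cast_nonneg _) _
  have hhas : HasSum (fun n : ℕ => (n : ℝ) ^ (-s) *
      (∑ D ∈ (Finset.Icc 1 M).filter (fun D => D ∣ n), c D) ^ 2)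
      (∑ D ∈ Finset.Icc 1 M, ∑ D' ∈ Finset.Icc 1 M,
        c D * c D' * (((Nat.lcm D D' : ℕ) : ℝ) ^ (-s) * Z)) := by
    have h1 : (fun n : ℕ => (n : ℝ) ^ (-s) *
      (∑ D ∈ (Finset.Icc 1 M).filter (fun D => D ∣ n), c D) ^ 2) =
        fun n : ℕ => ∑ D ∈ Finset.Icc 1 M, ∑ D' ∈ Finset.Icc 1 M,
          c D * c D' * (if Nat.lcm D D' ∣ n then (n : ℝ) ^ (-s) else 0) := by
      funext n
      rw [sq, Finset.sum_mul_sum, Finset.mul_sum, Finset.sum_filter]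
      refine Finset.sum_congr rfl fun D _ => ?_
      by_cases hD : D ∣ n
      · rw [if_pos hD, Finset.mul_sum, Finset.sum_filter]
        refine Finset.sum_congr rfl fun D' _ => ?_
        by_cases hD' : D' ∣ n
        · rw [if_pos hD', if_pos (Nat.lcm_dvd hD hD')]
          ring
        · rw [if_neg hD', if_neg fun h => hD' ((Nat.dvd_lcm_right D D').trans h), mul_zero]
      · rw [if_neg hD]
        refine (Finset.sum_eq_zero fun D' _ => ?_).symm
        rw [if_neg fun h => hD ((Nat.dvd_lcm_left D D').trans h), mul_zero]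
    rw [h1]
    refine hasSum_sum fun D hD => hasSum_sum fun D' hD' => ?_
    rw [Finset.mem_Icc] at hD hD'
    exact (Gcd_hasSum_mult s hs (Nat.lcm D D')
      (Nat.lcm_ne_zero (by omega) (by omega))).mul_left (c D * c D')
  have hle : ∑ n ∈ Finset.Icc 1 N, (n : ℝ) ^ (-s) *
        (∑ D ∈ (Finset.Icc 1 M).filter (fun D => D ∣ n), c D) ^ 2 ≤
      ∑ D ∈ Finset.Icc 1 M, ∑ D' ∈ Finset.Icc 1 M,
        c D * c D' * (((Nat.lcm D D' : ℕ) : ℝ) ^ (-s) * Z) :=
    sum_le_hasSum _ (fun n _ => mul_nonneg (Real.rpow_nonneg (Nat.cast_nonneg _) _)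
      (sq_nonneg _)) hhas
  refine hle.trans ?_
  have h2 : ∑ D ∈ Finset.Icc 1 M, ∑ D' ∈ Finset.Icc 1 M,
        c D * c D' * (((Nat.lcm D D' : ℕ) : ℝ) ^ (-s) * Z) =
      Z * ∑ D ∈ Finset.Icc 1 M, ∑ D' ∈ Finset.Icc 1 M,
        c D * c D' * ((Nat.lcm D D' : ℕ) : ℝ) ^ (-s) := by
    rw [Finset.mul_sum]
    refine Finset.sum_congr rfl fun D _ => ?_
    rw [Finset.mul_sum]
    refine Finset.sum_congr rfl fun D' _ => ?_
    ring
  rw [h2, Gcd_quad]
  have h3 : ∑ f ∈ Finset.Icc 1 M, Gcd_J s f *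
      (∑ D ∈ (Finset.Icc 1 M).filter (fun D => f ∣ D), c D * (D : ℝ) ^ (-s)) ^ 2 ≤
      ∑ f ∈ Finset.Icc 1 M, (f : ℝ) ^ s *
        (∑ D ∈ (Finset.Icc 1 M).filter (fun D => f ∣ D), c D * (D : ℝ) ^ (-s)) ^ 2 := by
    refine Finset.sum_le_sum fun f hf => ?_
    rw [Finset.mem_Icc] at hf
    exact mul_le_mul_of_nonneg_right (Gcd_J_le (by linarith) (by omega)) (sq_nonneg _)
  have h4 : 0 ≤ ∑ f ∈ Finset.Icc 1 M, (f : ℝ) ^ s *
        (∑ D ∈ (Finset.Icc 1 M).filter (fun D => f ∣ D), c D * (D : ℝ) ^ (-s)) ^ 2 :=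
    Finset.sum_nonneg fun f _ => mul_nonneg (Real.rpow_nonneg (Nat.cast_nonneg _) _) (sq_nonneg _)
  calc Z * _ ≤ Z * _ := mul_le_mul_of_nonneg_left h3 hZ0
    _ ≤ _ := mul_le_mul_of_nonneg_right (Gcd_zeta_le s hs) h4

private theorem Gcd_cpow (s : ℝ) (D : ℕ) : (D : ℂ) ^ (-(s : ℂ)) = (((D : ℝ) ^ (-s) : ℝ) : ℂ) := by
  rw [Complex.ofReal_cpow (Nat.cast_nonneg D)]
  push_cast
  rfl

private theorem Gcd_normsq (z : ℂ) : ‖z‖ ^ 2 = z.re ^ 2 + z.im ^ 2 := by
  rw [Complex.sq_norm, Complex.normSq_apply]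
  ring

/-- For real `s > 1` and `c` supported on `[1, M]`,
`∑_{n ≤ N} n^{-s} |∑_{D ∣ n, D ≤ M} c_D|² ≤ (1 + 1/(s-1)) ∑_{f ≤ M} f^s |∑_{f ∣ D ≤ M} c_D D^{-s}|²`.

PROOF. The left side is at most the sum over all `n ≥ 1`, which equals
`∑_{D,D'} c_D conj(c_{D'}) ∑_{[D,D'] ∣ n} n^{-s} = ζ(s) ∑_{D,D'} c_D conj(c_{D'}) [D,D']^{-s}`,
`[D,D']^{-s} = (D D')^{-s} (D,D')^s = (D D')^{-s} ∑_{f ∣ (D,D')} J(f)`, `J = μ * id^s`,
`0 ≤ J(f) = f^s ∏_{p∣f} (1 - p^{-s}) ≤ f^s`, giving `ζ(s) ∑_f J(f) |∑_{f∣D} c_D D^{-s}|²`;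
`ζ(s) ≤ 1 + 1/(s-1)`. -/
theorem gcd_form (s : ℝ) (hs : 1 < s) (M N : ℕ) (c : ℕ → ℂ) :
    ∑ n ∈ Finset.Icc 1 N, (n : ℝ) ^ (-s) *
        ‖∑ D ∈ n.divisors.filter (fun D => D ≤ M), c D‖ ^ 2
      ≤ (1 + 1 / (s - 1)) * ∑ f ∈ Finset.Icc 1 M, (f : ℝ) ^ s *
        ‖∑ D ∈ (Finset.Icc 1 M).filter (fun D => f ∣ D), c D * (D : ℂ) ^ (-(s : ℂ))‖ ^ 2 := by
  have h1 := Gcd_real s hs M N (fun D => (c D).re)
  have h2 := Gcd_real s hs M N (fun D => (c D).im)
  have hL : ∑ n ∈ Finset.Icc 1 N, (n : ℝ) ^ (-s) *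
        ‖∑ D ∈ n.divisors.filter (fun D => D ≤ M), c D‖ ^ 2 =
      ∑ n ∈ Finset.Icc 1 N, (n : ℝ) ^ (-s) *
        (∑ D ∈ (Finset.Icc 1 M).filter (fun D => D ∣ n), (c D).re) ^ 2 +
      ∑ n ∈ Finset.Icc 1 N, (n : ℝ) ^ (-s) *
        (∑ D ∈ (Finset.Icc 1 M).filter (fun D => D ∣ n), (c D).im) ^ 2 := by
    rw [← Finset.sum_add_distrib]
    refine Finset.sum_congr rfl fun n hn => ?_
    rw [Finset.mem_Icc] at hn
    rw [Gcd_filter n M (by omega), Gcd_normsq, Complex.re_sum, Complex.im_sum, mul_add]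
  have hR : ∑ f ∈ Finset.Icc 1 M, (f : ℝ) ^ s *
        ‖∑ D ∈ (Finset.Icc 1 M).filter (fun D => f ∣ D), c D * (D : ℂ) ^ (-(s : ℂ))‖ ^ 2 =
      ∑ f ∈ Finset.Icc 1 M, (f : ℝ) ^ s *
        (∑ D ∈ (Finset.Icc 1 M).filter (fun D => f ∣ D), (c D).re * (D : ℝ) ^ (-s)) ^ 2 +
      ∑ f ∈ Finset.Icc 1 M, (f : ℝ) ^ s *
        (∑ D ∈ (Finset.Icc 1 M).filter (fun D => f ∣ D), (c D).im * (D : ℝ) ^ (-s)) ^ 2 := by
    rw [← Finset.sum_add_distrib]
    refine Finset.sum_congr rfl fun f _ => ?_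
    rw [Gcd_normsq, Complex.re_sum, Complex.im_sum, mul_add]
    congr 3
    · refine Finset.sum_congr rfl fun D _ => ?_
      rw [Gcd_cpow, Complex.re_mul_ofReal]
    · refine Finset.sum_congr rfl fun D _ => ?_
      rw [Gcd_cpow, Complex.im_mul_ofReal]
  rw [hL, hR, mul_add]
  exact add_le_add h1 h2

end Pool.Agent.H14.CO

end

section

/-!
# CO module LamIn: sums of the weights over integers with given gcd with `r`
-/

set_option autoImplicit false

namespace Pool.Agent.H14.CO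

open Set MeasureTheory Complex

theorem LamIn_sg_nonneg (r : ℕ) : 0 ≤ sg r := by
  unfold sg
  refine Finset.prod_nonneg fun p hp => ?_
  have hp1 : (1 : ℝ) ≤ p := by exact_mod_cast (Nat.prime_of_mem_primeFactors hp).one_le
  have : 1 / (p : ℝ) ≤ 1 := (div_le_one (by linarith)).2 hp1
  exact inv_nonneg.2 (by linarith)

theorem LamIn_bound {C : ℝ} (hC : 0 < C) {r g : ℕ} {X : ℝ} {u : ℂ}
    (h : ‖∑ e ∈ (Finset.Icc 1 ⌊X⌋₊).filter (fun e => Nat.Coprime e r),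
      ((ArithmeticFunction.moebius e : ℤ) : ℂ) * (e : ℂ) ^ (-(1 + u)) * (Real.log (X / e) : ℂ)‖
      ≤ C * sg r * X ^ |u.re| * (1 + ‖u‖ * Real.log X) ^ 2)
    {z₀ : ℝ} (hz : 2 ≤ z₀) (hg : 0 < g) (hX : 1 ≤ X) (hXg : X * g ≤ z₀ ^ 2) :
    ‖(g : ℂ) ^ (-(1 + u)) * ∑ e ∈ (Finset.Icc 1 ⌊X⌋₊).filter (fun e => Nat.Coprime e r),
      ((ArithmeticFunction.moebius e : ℤ) : ℂ) * (e : ℂ) ^ (-(1 + u)) * (Real.log (X / e) : ℂ)‖
      ≤ 4 * C * sg r * (1 / g) * z₀ ^ (2 * |u.re|) * (1 + ‖u‖ * Real.log z₀) ^ 2 := by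
  have hg1 : (1 : ℝ) ≤ g := by exact_mod_cast hg
  have hg0 : (0 : ℝ) < g := by linarith
  have hX0 : 0 < X := by linarith
  have hz0 : 0 < z₀ := by linarith
  have ha : 0 ≤ |u.re| := abs_nonneg _
  have hlz : 0 ≤ Real.log z₀ := Real.log_nonneg (by linarith)
  have hlX : 0 ≤ Real.log X := Real.log_nonneg hX
  rw [norm_mul, Complex.norm_natCast_cpow_of_pos hg]
  have hre : (-(1 + u)).re = -(1 + u.re) := by simp
  rw [hre]
  have hXz : X ≤ z₀ ^ 2 := le_trans (le_mul_of_one_le_right hX0.le hg1) hXg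
  have hlog : Real.log X ≤ 2 * Real.log z₀ := by
    have h1 := Real.log_le_log hX0 hXz
    rw [Real.log_pow] at h1
    exact_mod_cast h1
  have hsq : (1 + ‖u‖ * Real.log X) ^ 2 ≤ 4 * (1 + ‖u‖ * Real.log z₀) ^ 2 := by
    have h1 : 1 + ‖u‖ * Real.log X ≤ 2 * (1 + ‖u‖ * Real.log z₀) := by
      nlinarith [mul_le_mul_of_nonneg_left hlog (norm_nonneg u)]
    have h2 : 0 ≤ 1 + ‖u‖ * Real.log X := by positivity
    calc (1 + ‖u‖ * Real.log X) ^ 2 ≤ (2 * (1 + ‖u‖ * Real.log z₀)) ^ 2 := pow_le_pow_left₀ h2 h1 2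
      _ = 4 * (1 + ‖u‖ * Real.log z₀) ^ 2 := by ring
  have hpow : (g : ℝ) ^ (-(1 + u.re)) * X ^ |u.re| ≤ (1 / g) * z₀ ^ (2 * |u.re|) := by
    have h1 : X ^ |u.re| ≤ (z₀ ^ 2 / g) ^ |u.re| :=
      Real.rpow_le_rpow hX0.le ((le_div_iff₀ hg0).2 hXg) ha
    have h2 : (z₀ ^ 2 / g : ℝ) ^ |u.re| = z₀ ^ (2 * |u.re|) / (g : ℝ) ^ |u.re| := by
      rw [Real.div_rpow (by positivity) hg0.le]
      congr 1
      rw [Real.rpow_mul hz0.le]
      norm_num
    have h3 : (g : ℝ) ^ (-(1 + u.re)) = (1 / g) * (g : ℝ) ^ (-u.re) := by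
      rw [show -(1 + u.re) = -1 + -u.re by ring, Real.rpow_add hg0, Real.rpow_neg_one, one_div]
    have h4 : (g : ℝ) ^ (-u.re) ≤ (g : ℝ) ^ |u.re| :=
      Real.rpow_le_rpow_of_exponent_le hg1 (neg_le_abs _)
    have h5 : 0 < (g : ℝ) ^ |u.re| := Real.rpow_pos_of_pos hg0 _
    have h6 : 0 ≤ z₀ ^ (2 * |u.re|) := Real.rpow_nonneg hz0.le _
    rw [h3]
    calc (1 / (g : ℝ)) * (g : ℝ) ^ (-u.re) * X ^ |u.re|
        ≤ (1 / (g : ℝ)) * (g : ℝ) ^ |u.re| * (z₀ ^ (2 * |u.re|) / (g : ℝ) ^ |u.re|) := by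
          rw [← h2]
          gcongr
      _ = (1 / g) * z₀ ^ (2 * |u.re|) := by
          field_simp
  have hsg := LamIn_sg_nonneg r
  have hgp : 0 ≤ (g : ℝ) ^ (-(1 + u.re)) := Real.rpow_nonneg hg0.le _
  calc (g : ℝ) ^ (-(1 + u.re)) * ‖∑ e ∈ (Finset.Icc 1 ⌊X⌋₊).filter (fun e => Nat.Coprime e r),
      ((ArithmeticFunction.moebius e : ℤ) : ℂ) * (e : ℂ) ^ (-(1 + u)) * (Real.log (X / e) : ℂ)‖
      ≤ (g : ℝ) ^ (-(1 + u.re)) * (C * sg r * X ^ |u.re| * (1 + ‖u‖ * Real.log X) ^ 2) :=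
        mul_le_mul_of_nonneg_left h hgp
    _ = (C * sg r) * ((g : ℝ) ^ (-(1 + u.re)) * X ^ |u.re|) * (1 + ‖u‖ * Real.log X) ^ 2 := by ring
    _ ≤ (C * sg r) * ((1 / g) * z₀ ^ (2 * |u.re|)) * (4 * (1 + ‖u‖ * Real.log z₀) ^ 2) := by
        have h7 : 0 ≤ C * sg r := mul_nonneg hC.le hsg
        have h8 : 0 ≤ (1 / (g : ℝ)) * z₀ ^ (2 * |u.re|) := by positivity
        exact mul_le_mul (mul_le_mul_of_nonneg_left hpow h7) hsq (by positivity) (mul_nonneg h7 h8)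
    _ = 4 * C * sg r * (1 / g) * z₀ ^ (2 * |u.re|) * (1 + ‖u‖ * Real.log z₀) ^ 2 := by ring

/-- reindexing of the sum over the multiples of `g` -/
theorem LamIn_reindex {z₀ : ℝ} {r g : ℕ} (hr : Squarefree r) (hgr : g ∣ r) (f : ℕ → ℂ)
    (hf : ∀ d, ArithmeticFunction.moebius d = 0 → f d = 0) :
    ∑ d ∈ (Finset.Icc 1 ⌊z₀ ^ 2⌋₊).filter (fun d => Nat.gcd d r = g), f d =
      ∑ e ∈ (Finset.Icc 1 ⌊z₀ ^ 2 / g⌋₊).filter (fun e => Nat.Coprime e r), f (g * e) := by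
  classical
  have hr0 : r ≠ 0 := hr.ne_zero
  have hg : 0 < g := Nat.pos_of_dvd_of_pos hgr (Nat.pos_of_ne_zero hr0)
  have hg0 : (0 : ℝ) < g := by exact_mod_cast hg
  have hz2 : (0 : ℝ) ≤ z₀ ^ 2 := sq_nonneg z₀
  have hinj : Function.Injective fun e : ℕ => g * e := fun a b h => Nat.eq_of_mul_eq_mul_left hg h
  rw [← Finset.sum_image (f := f) (g := fun e : ℕ => g * e) (fun a _ b _ h => hinj h)]
  symm
  refine Finset.sum_subset ?_ ?_
  · intro d hd
    rw [Finset.mem_image] at hd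
    obtain ⟨e, he, rfl⟩ := hd
    rw [Finset.mem_filter, Finset.mem_Icc] at he
    obtain ⟨⟨he1, he2⟩, hcop⟩ := he
    rw [Finset.mem_filter, Finset.mem_Icc]
    refine ⟨⟨Nat.mul_pos hg he1, ?_⟩, ?_⟩
    · rw [Nat.le_floor_iff hz2]
      have h1 := (Nat.le_floor_iff (by positivity)).1 he2
      rw [le_div_iff₀ hg0] at h1
      push_cast
      linarith
    · rw [Nat.Coprime.gcd_mul_right_cancel g hcop]
      exact Nat.gcd_eq_left hgr
  · intro d hd hdn
    apply hf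
    by_contra hmu
    have hsq : Squarefree d := ArithmeticFunction.moebius_ne_zero_iff_squarefree.1 hmu
    rw [Finset.mem_filter, Finset.mem_Icc] at hd
    obtain ⟨⟨hd1, hd2⟩, hgcd⟩ := hd
    have hgd : g ∣ d := hgcd ▸ Nat.gcd_dvd_left d r
    obtain ⟨e, rfl⟩ := hgd
    have he0 : 0 < e := Nat.pos_of_ne_zero (by rintro rfl; simp at hd1)
    apply hdn
    rw [Finset.mem_image]
    refine ⟨e, ?_, rfl⟩
    rw [Finset.mem_filter, Finset.mem_Icc]
    refine ⟨⟨he0, ?_⟩, ?_⟩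
    · rw [Nat.le_floor_iff (by positivity), le_div_iff₀ hg0]
      have h1 := (Nat.le_floor_iff hz2).1 hd2
      push_cast at h1
      linarith
    · have hge : Nat.Coprime g e := Nat.coprime_of_squarefree_mul hsq
      by_contra hnc
      obtain ⟨p, hp, hpe, hpr⟩ := Nat.Prime.not_coprime_iff_dvd.1 hnc
      have h1 : p ∣ Nat.gcd (g * e) r := Nat.dvd_gcd (hpe.mul_left g) hpr
      rw [hgcd] at h1
      exact Nat.Prime.not_coprime_iff_dvd.2 ⟨p, hp, h1, hpe⟩ hge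

/-- The sum over multiples of one factor.

PROOF. `d = g e` with `(e, r) = 1` (as `lam z₀ d = 0` unless `d` is squarefree),
`lam z₀ (g e) = μ(g) μ(e) (log⁺(z₀²/(g e)) - log⁺(z₀/(g e)))/log z₀`, so the sum is
`μ(g) g^{-(1+u)} (m_r(z₀²/g) - m_r(z₀/g))/log z₀` (each term present only if `g ≤ z₀²`, `g ≤ z₀`),
`moebius_cop`: each is `≤ C sg(r) (z₀²)^{|Re u|} (1+2‖u‖ log z₀)²`, with `g^{-Re u} (z₀²/g)^{|Re u|} ≤ z₀^{2|Re u|}`
(if `g ≤ z₀²`). -/
theorem lam_inner : ∃ C : ℝ, 0 < C ∧ ∀ z₀ : ℝ, 2 ≤ z₀ → ∀ (r g : ℕ), Squarefree r → g ∣ r → ∀ u : ℂ,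
    ‖∑ d ∈ (Finset.Icc 1 ⌊z₀ ^ 2⌋₊).filter (fun d => Nat.gcd d r = g),
      (lam z₀ d : ℂ) * (d : ℂ) ^ (-(1 + u))‖
      ≤ C / Real.log z₀ * sg r * (1 / g) * z₀ ^ (2 * |u.re|) * (1 + ‖u‖ * Real.log z₀) ^ 2 := by
  obtain ⟨C, hC, hmc⟩ := moebius_cop
  refine ⟨8 * C, by positivity, fun z₀ hz r g hr hgr u => ?_⟩
  have hr0 : r ≠ 0 := hr.ne_zero
  have hg : 0 < g := Nat.pos_of_dvd_of_pos hgr (Nat.pos_of_ne_zero hr0)
  have hg1 : (1 : ℝ) ≤ g := by exact_mod_cast hg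
  have hg0 : (0 : ℝ) < g := by linarith
  have hz0 : 0 < z₀ := by linarith
  have hlz : 0 < Real.log z₀ := Real.log_pos (by linarith)
  have hsg := LamIn_sg_nonneg r
  set B : ℝ := 4 * C * sg r * (1 / g) * z₀ ^ (2 * |u.re|) * (1 + ‖u‖ * Real.log z₀) ^ 2 with hB
  have hB0 : 0 ≤ B := by positivity
  -- the two Moebius sums
  let Sm : ℝ → ℂ := fun Y => (g : ℂ) ^ (-(1 + u)) *
    ∑ e ∈ (Finset.Icc 1 ⌊z₀ ^ 2 / g⌋₊).filter (fun e => Nat.Coprime e r),
      ((ArithmeticFunction.moebius e : ℤ) : ℂ) * (e : ℂ) ^ (-(1 + u)) *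
        ((max 0 (Real.log (Y / (g * e))) : ℝ) : ℂ)
  have hSm : ∀ Y : ℝ, 0 < Y → Y ≤ z₀ ^ 2 → ‖Sm Y‖ ≤ B := by
    intro Y hY0 hY
    rcases lt_or_ge (Y / g) 1 with hlt | hge
    · have h0 : Sm Y = 0 := by
        simp only [Sm]
        rw [Finset.sum_eq_zero, mul_zero]
        intro e he
        rw [Finset.mem_filter, Finset.mem_Icc] at he
        have he1 : (1 : ℝ) ≤ e := by exact_mod_cast he.1.1
        have h1 : Real.log (Y / (g * e)) ≤ 0 := by
          apply Real.log_nonpos (by positivity)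
          rw [div_lt_one hg0] at hlt
          rw [div_le_one (by positivity)]
          nlinarith
        rw [max_eq_left h1]
        simp
      rw [h0, norm_zero]
      exact hB0
    · have h1 : Sm Y = (g : ℂ) ^ (-(1 + u)) *
          ∑ e ∈ (Finset.Icc 1 ⌊Y / g⌋₊).filter (fun e => Nat.Coprime e r),
            ((ArithmeticFunction.moebius e : ℤ) : ℂ) * (e : ℂ) ^ (-(1 + u)) *
              (Real.log (Y / g / e) : ℂ) := by
        simp only [Sm]
        congr 1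
        symm
        have hsub : (Finset.Icc 1 ⌊Y / g⌋₊).filter (fun e => Nat.Coprime e r) ⊆
            (Finset.Icc 1 ⌊z₀ ^ 2 / g⌋₊).filter (fun e => Nat.Coprime e r) := by
          refine Finset.filter_subset_filter _ (Finset.Icc_subset_Icc_right ?_)
          exact Nat.floor_le_floor (div_le_div_of_nonneg_right hY hg0.le)
        have hz' : ∀ e ∈ (Finset.Icc 1 ⌊z₀ ^ 2 / g⌋₊).filter (fun e => Nat.Coprime e r),
            e ∉ (Finset.Icc 1 ⌊Y / g⌋₊).filter (fun e => Nat.Coprime e r) →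
            ((ArithmeticFunction.moebius e : ℤ) : ℂ) * (e : ℂ) ^ (-(1 + u)) *
              ((max 0 (Real.log (Y / (g * e))) : ℝ) : ℂ) = 0 := by
          intro e he hne
          rw [Finset.mem_filter, Finset.mem_Icc] at he hne
          have he1 : (1 : ℝ) ≤ e := by exact_mod_cast he.1.1
          have h2 : ⌊Y / g⌋₊ < e := by
            by_contra hcon
            exact hne ⟨⟨he.1.1, not_lt.1 hcon⟩, he.2⟩
          have h3 : Y / g < e := (Nat.floor_lt (by positivity)).1 h2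
          have h1 : Real.log (Y / (g * e)) ≤ 0 := by
            apply Real.log_nonpos (by positivity)
            rw [div_le_one (by positivity)]
            rw [div_lt_iff₀ hg0] at h3
            nlinarith
          rw [max_eq_left h1]
          simp
        rw [← Finset.sum_subset hsub hz']
        refine Finset.sum_congr rfl fun e he => ?_
        rw [Finset.mem_filter, Finset.mem_Icc] at he
        have he1 : (1 : ℝ) ≤ e := by exact_mod_cast he.1.1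
        have h3 : (e : ℝ) ≤ Y / g := (Nat.le_floor_iff (by positivity)).1 he.1.2
        have h4 : 0 ≤ Real.log (Y / (g * e)) := by
          apply Real.log_nonneg
          rw [le_div_iff₀ hg0] at h3
          rw [one_le_div (by positivity)]
          nlinarith
        rw [max_eq_right h4, div_div]
      rw [h1]
      refine LamIn_bound hC (hmc r hr0 (Y / g) hge u) hz hg hge ?_
      rw [div_mul_cancel₀ _ hg0.ne']
      exact hY
  have hre := LamIn_reindex (z₀ := z₀) hr hgr (fun d => (lam z₀ d : ℂ) * (d : ℂ) ^ (-(1 + u))) (by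
    intro d hd
    simp only [lam, hd]
    simp)
  rw [hre]
  have hmain : ∑ e ∈ (Finset.Icc 1 ⌊z₀ ^ 2 / g⌋₊).filter (fun e => Nat.Coprime e r),
      (lam z₀ (g * e) : ℂ) * ((g * e : ℕ) : ℂ) ^ (-(1 + u)) =
      (((ArithmeticFunction.moebius g : ℤ) : ℂ) / (Real.log z₀ : ℂ)) * (Sm (z₀ ^ 2) - Sm z₀) := by
    simp only [Sm]
    rw [← mul_sub, ← Finset.sum_sub_distrib, Finset.mul_sum, Finset.mul_sum]
    refine Finset.sum_congr rfl fun e he => ?_
    rw [Finset.mem_filter, Finset.mem_Icc] at he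
    have hge : Nat.Coprime g e := (Nat.Coprime.coprime_dvd_right hgr he.2).symm
    have hmul : ((ArithmeticFunction.moebius (g * e) : ℤ) : ℝ) =
        ((ArithmeticFunction.moebius g : ℤ) : ℝ) * ((ArithmeticFunction.moebius e : ℤ) : ℝ) := by
      rw [ArithmeticFunction.isMultiplicative_moebius.map_mul_of_coprime hge]
      push_cast
      rfl
    have hcp : ((g * e : ℕ) : ℂ) ^ (-(1 + u)) = (g : ℂ) ^ (-(1 + u)) * (e : ℂ) ^ (-(1 + u)) := by
      rw [Nat.cast_mul, Complex.natCast_mul_natCast_cpow]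
    rw [hcp]
    unfold lam
    rw [hmul]
    push_cast
    ring
  rw [hmain, norm_mul, norm_div, Complex.norm_real, Real.norm_of_nonneg hlz.le]
  have hmu : ‖((ArithmeticFunction.moebius g : ℤ) : ℂ)‖ ≤ 1 := by
    rw [Complex.norm_intCast]
    exact_mod_cast ArithmeticFunction.abs_moebius_le_one
  have h5 : ‖Sm (z₀ ^ 2) - Sm z₀‖ ≤ 2 * B := by
    have h6 := norm_sub_le (Sm (z₀ ^ 2)) (Sm z₀)
    have h7 := hSm (z₀ ^ 2) (by positivity) le_rfl
    have h8 := hSm z₀ hz0 (by nlinarith)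
    linarith
  calc ‖((ArithmeticFunction.moebius g : ℤ) : ℂ)‖ / Real.log z₀ * ‖Sm (z₀ ^ 2) - Sm z₀‖
      ≤ 1 / Real.log z₀ * (2 * B) := by
        refine mul_le_mul (div_le_div_of_nonneg_right hmu hlz.le) h5 (norm_nonneg _) (by positivity)
    _ = 8 * C / Real.log z₀ * sg r * (1 / g) * z₀ ^ (2 * |u.re|) * (1 + ‖u‖ * Real.log z₀) ^ 2 := by
        rw [hB]
        ring

end Pool.Agent.H14.CO

end

section

/-!
# CO module Yf: the diagonalised mollifier sums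
-/

set_option autoImplicit false

namespace Pool.Agent.H14.CO

open Set MeasureTheory Complex

private theorem Yf_rad_ne_zero (f : ℕ) : rad f ≠ 0 :=
  Finset.prod_ne_zero_iff.2 fun _ hp => (Nat.prime_of_mem_primeFactors hp).ne_zero

private theorem Yf_rad_primeFactors (f : ℕ) : (rad f).primeFactors = f.primeFactors :=
  Nat.primeFactors_prod_primeFactors f

private theorem Yf_rad_squarefree (f : ℕ) : Squarefree (rad f) := by
  rw [Nat.squarefree_iff_prime_squarefree]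
  intro p hp hdvd
  have hpr : p ∣ rad f := (dvd_mul_right p p).trans hdvd
  have hpf : p ∈ f.primeFactors := by
    rw [← Yf_rad_primeFactors]
    exact Nat.mem_primeFactors.2 ⟨hp, hpr, Yf_rad_ne_zero f⟩
  have h1 : p * ∏ q ∈ f.primeFactors.erase p, q = rad f :=
    Finset.mul_prod_erase f.primeFactors (fun q => q) hpf
  rw [← h1] at hdvd
  have h2 : p ∣ ∏ q ∈ f.primeFactors.erase p, q := Nat.dvd_of_mul_dvd_mul_left hp.pos hdvd
  obtain ⟨q, hq, hpq⟩ := (hp.prime.dvd_finsetProd_iff _).1 h2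
  have hq1 := Finset.mem_erase.1 hq
  exact hq1.1 ((Nat.prime_dvd_prime_iff_eq hp (Nat.prime_of_mem_primeFactors hq1.2)).1 hpq).symm

private theorem Yf_coprime {f e : ℕ} (hf : f ≠ 0) (h : Nat.Coprime e (rad f)) : Nat.Coprime f e := by
  refine Nat.coprime_of_dvd fun p hp hpf hpe => ?_
  have h1 : p ∣ rad f := by
    have : p ∈ (rad f).primeFactors := by
      rw [Yf_rad_primeFactors]
      exact Nat.mem_primeFactors.2 ⟨hp, hpf, hf⟩
    exact Nat.dvd_of_mem_primeFactors this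
  exact Nat.Prime.not_coprime_iff_dvd.2 ⟨p, hp, hpe, h1⟩ h

private theorem Yf_dvd_iff {f d₁ d₂ : ℕ} (hf : f ≠ 0) (h₁ : Squarefree d₁) (h₂ : Squarefree d₂) :
    f ∣ d₁ * d₂ ↔ f ∣ Nat.gcd d₁ (rad f) * Nat.gcd d₂ (rad f) := by
  constructor
  · intro h
    have e₁ : d₁ = Nat.gcd d₁ (rad f) * (d₁ / Nat.gcd d₁ (rad f)) :=
      (Nat.mul_div_cancel' (Nat.gcd_dvd_left _ _)).symm
    have e₂ : d₂ = Nat.gcd d₂ (rad f) * (d₂ / Nat.gcd d₂ (rad f)) :=
      (Nat.mul_div_cancel' (Nat.gcd_dvd_left _ _)).symm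
    have c₁ : Nat.Coprime f (d₁ / Nat.gcd d₁ (rad f)) :=
      Yf_coprime hf (Nat.coprime_div_gcd_of_squarefree h₁ (Yf_rad_ne_zero f))
    have c₂ : Nat.Coprime f (d₂ / Nat.gcd d₂ (rad f)) :=
      Yf_coprime hf (Nat.coprime_div_gcd_of_squarefree h₂ (Yf_rad_ne_zero f))
    have h3 : f ∣ (Nat.gcd d₁ (rad f) * Nat.gcd d₂ (rad f)) *
        ((d₁ / Nat.gcd d₁ (rad f)) * (d₂ / Nat.gcd d₂ (rad f))) := by
      have h4 : d₁ * d₂ = (Nat.gcd d₁ (rad f) * Nat.gcd d₂ (rad f)) *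
        ((d₁ / Nat.gcd d₁ (rad f)) * (d₂ / Nat.gcd d₂ (rad f))) := by
        conv_lhs => rw [e₁, e₂]
        ring
      rwa [← h4]
    exact (c₁.mul_right c₂).dvd_of_dvd_mul_right h3
  · intro h
    exact h.trans (mul_dvd_mul (Nat.gcd_dvd_left _ _) (Nat.gcd_dvd_left _ _))

private theorem Yf_lam_zero {z₀ : ℝ} {d : ℕ} (h : ¬ Squarefree d) : lam z₀ d = 0 := by
  unfold lam
  rw [ArithmeticFunction.moebius_eq_zero_of_not_squarefree h]
  simp

/-- PROOF. `r = rad f`; since `lam z₀ d = 0` unless `d` is squarefree, for squarefree `d₁, d₂`: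
`f ∣ d₁ d₂ ↔ f ∣ gcd(d₁,r) gcd(d₂,r)`. Split according to `g_i = gcd(d_i, r)` and use
`lam_inner` twice. -/
theorem Yf_bound : ∃ C : ℝ, 0 < C ∧ ∀ z₀ : ℝ, 2 ≤ z₀ → ∀ f : ℕ, f ≠ 0 → ∀ u₁ u₂ : ℂ,
    ‖∑ d₁ ∈ Finset.Icc 1 ⌊z₀ ^ 2⌋₊, ∑ d₂ ∈ Finset.Icc 1 ⌊z₀ ^ 2⌋₊,
      if f ∣ d₁ * d₂ then (lam z₀ d₁ : ℂ) * (lam z₀ d₂ : ℂ) * (d₁ : ℂ) ^ (-(1 + u₁)) *
        (d₂ : ℂ) ^ (-(1 + u₂)) else 0‖
      ≤ C / Real.log z₀ ^ 2 * sg f ^ 2 * bf f * z₀ ^ (2 * |u₁.re| + 2 * |u₂.re|) *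
        ((1 + ‖u₁‖ * Real.log z₀) ^ 2 * (1 + ‖u₂‖ * Real.log z₀) ^ 2) := by
  obtain ⟨C, hC, hin⟩ := lam_inner
  refine ⟨C ^ 2, by positivity, ?_⟩
  intro z₀ hz f hf u₁ u₂
  set I := Finset.Icc 1 ⌊z₀ ^ 2⌋₊ with hI
  set a : ℂ → ℕ → ℂ := fun u d => (lam z₀ d : ℂ) * (d : ℂ) ^ (-(1 + u)) with ha
  set S : ℂ → ℕ → ℂ := fun u g => ∑ d ∈ I.filter (fun d => Nat.gcd d (rad f) = g), a u d with hS
  have hsum : (∑ d₁ ∈ I, ∑ d₂ ∈ I,
      if f ∣ d₁ * d₂ then (lam z₀ d₁ : ℂ) * (lam z₀ d₂ : ℂ) * (d₁ : ℂ) ^ (-(1 + u₁)) *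
        (d₂ : ℂ) ^ (-(1 + u₂)) else 0) =
      ∑ g₁ ∈ (rad f).divisors, ∑ g₂ ∈ (rad f).divisors,
        if f ∣ g₁ * g₂ then S u₁ g₁ * S u₂ g₂ else 0 := by
    have h1 : ∀ d₁ ∈ I, ∀ d₂ ∈ I,
      (if f ∣ d₁ * d₂ then (lam z₀ d₁ : ℂ) * (lam z₀ d₂ : ℂ) * (d₁ : ℂ) ^ (-(1 + u₁)) *
        (d₂ : ℂ) ^ (-(1 + u₂)) else 0) =
      if f ∣ Nat.gcd d₁ (rad f) * Nat.gcd d₂ (rad f) then a u₁ d₁ * a u₂ d₂ else 0 := by
      intro d₁ _ d₂ _
      by_cases h₁ : Squarefree d₁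
      · by_cases h₂ : Squarefree d₂
        · by_cases hd : f ∣ d₁ * d₂
          · rw [if_pos hd, if_pos ((Yf_dvd_iff hf h₁ h₂).1 hd)]
            simp only [ha]
            ring
          · rw [if_neg hd, if_neg (fun h => hd ((Yf_dvd_iff hf h₁ h₂).2 h))]
        · simp [ha, Yf_lam_zero h₂]
      · simp [ha, Yf_lam_zero h₁]
    rw [Finset.sum_congr rfl fun d₁ h₁ => Finset.sum_congr rfl fun d₂ h₂ => h1 d₁ h₁ d₂ h₂]
    have hmaps : ∀ d ∈ I, Nat.gcd d (rad f) ∈ (rad f).divisors := fun d _ =>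
      Nat.mem_divisors.2 ⟨Nat.gcd_dvd_right _ _, Yf_rad_ne_zero f⟩
    rw [← Finset.sum_fiberwise_of_maps_to hmaps]
    refine Finset.sum_congr rfl fun g₁ _ => ?_
    have h2 : ∀ d₁ ∈ I.filter (fun d => Nat.gcd d (rad f) = g₁),
        (∑ d₂ ∈ I, if f ∣ Nat.gcd d₁ (rad f) * Nat.gcd d₂ (rad f) then a u₁ d₁ * a u₂ d₂ else 0) =
        ∑ g₂ ∈ (rad f).divisors, if f ∣ g₁ * g₂ then a u₁ d₁ * S u₂ g₂ else 0 := by
      intro d₁ hd₁
      rw [← Finset.sum_fiberwise_of_maps_to hmaps]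
      refine Finset.sum_congr rfl fun g₂ _ => ?_
      have hg₁ : Nat.gcd d₁ (rad f) = g₁ := (Finset.mem_filter.1 hd₁).2
      by_cases hg : f ∣ g₁ * g₂
      · rw [if_pos hg]
        simp only [hS]
        rw [Finset.mul_sum]
        refine Finset.sum_congr rfl fun d₂ hd₂ => ?_
        rw [hg₁, (Finset.mem_filter.1 hd₂).2, if_pos hg]
      · rw [if_neg hg]
        refine Finset.sum_eq_zero fun d₂ hd₂ => ?_
        rw [hg₁, (Finset.mem_filter.1 hd₂).2, if_neg hg]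
    rw [Finset.sum_congr rfl h2, Finset.sum_comm]
    refine Finset.sum_congr rfl fun g₂ _ => ?_
    by_cases hg : f ∣ g₁ * g₂
    · simp only [if_pos hg, hS]
      rw [Finset.sum_mul]
    · simp only [if_neg hg, Finset.sum_const_zero]
  rw [hsum]
  have hlog : 0 < Real.log z₀ := Real.log_pos (by linarith)
  have hz0 : 0 < z₀ := by linarith
  have hsg : sg (rad f) = sg f := by
    unfold sg
    rw [Yf_rad_primeFactors]
  set K : ℂ → ℝ := fun u => C / Real.log z₀ * sg f * z₀ ^ (2 * |u.re|) *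
    (1 + ‖u‖ * Real.log z₀) ^ 2 with hK
  have hSb : ∀ u : ℂ, ∀ g ∈ (rad f).divisors, ‖S u g‖ ≤ K u * (1 / (g : ℝ)) := by
    intro u g hg
    have h := hin z₀ hz (rad f) g (Yf_rad_squarefree f) (Nat.dvd_of_mem_divisors hg) u
    rw [hsg] at h
    refine h.trans (le_of_eq ?_)
    simp only [hK]
    ring
  have hnorm : ‖∑ g₁ ∈ (rad f).divisors, ∑ g₂ ∈ (rad f).divisors,
        if f ∣ g₁ * g₂ then S u₁ g₁ * S u₂ g₂ else 0‖ ≤
      ∑ g₁ ∈ (rad f).divisors, ∑ g₂ ∈ (rad f).divisors,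
        if f ∣ g₁ * g₂ then K u₁ * K u₂ * (1 / ((g₁ : ℝ) * g₂)) else 0 := by
    refine (norm_sum_le _ _).trans (Finset.sum_le_sum fun g₁ hg₁ => ?_)
    refine (norm_sum_le _ _).trans (Finset.sum_le_sum fun g₂ hg₂ => ?_)
    by_cases hg : f ∣ g₁ * g₂
    · rw [if_pos hg, if_pos hg, norm_mul]
      refine (mul_le_mul (hSb u₁ g₁ hg₁) (hSb u₂ g₂ hg₂) (norm_nonneg _)
        ((norm_nonneg _).trans (hSb u₁ g₁ hg₁))).trans (le_of_eq ?_)
      rw [one_div_mul_one_div (g₁ : ℝ) (g₂ : ℝ) |>.symm]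
      ring
    · rw [if_neg hg, if_neg hg, norm_zero]
  refine hnorm.trans (le_of_eq ?_)
  have hbf : ∑ g₁ ∈ (rad f).divisors, ∑ g₂ ∈ (rad f).divisors,
        (if f ∣ g₁ * g₂ then K u₁ * K u₂ * (1 / ((g₁ : ℝ) * g₂)) else 0) =
      K u₁ * K u₂ * bf f := by
    unfold bf
    rw [Finset.mul_sum]
    refine Finset.sum_congr rfl fun g₁ _ => ?_
    rw [Finset.mul_sum]
    refine Finset.sum_congr rfl fun g₂ _ => ?_
    by_cases hg : f ∣ g₁ * g₂
    · rw [if_pos hg, if_pos hg]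
    · rw [if_neg hg, if_neg hg, mul_zero]
  rw [hbf]
  simp only [hK]
  rw [Real.rpow_add hz0]
  field_simp

end Pool.Agent.H14.CO

end

section

/-!
# CO module Chi: `|χ|` near the critical line
-/

set_option autoImplicit false

namespace Pool.Agent.H14.CO

open Set MeasureTheory Complex

/-- One factor of the product formula. -/
lemma Chi_factor (x u s : ℝ) (hx : |x| ≤ 1 / 4) (hu : 1 ≤ |u|) (hs : 1 / 2 ≤ s) :
    x * Real.log (((s + 1 / 2) ^ 2 + u ^ 2) / ((s - 1 / 2) ^ 2 + u ^ 2))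
      ≤ Real.log (((s + x) ^ 2 + u ^ 2) / (s ^ 2 + u ^ 2)) + 4 * (1 / s - 1 / (s + 1)) := by
  have hu2 : 1 ≤ u ^ 2 := by
    have h1 : |u| ^ 2 = u ^ 2 := sq_abs u
    nlinarith
  obtain ⟨hx1, hx2⟩ := abs_le.mp hx
  have hv : 0 < s ^ 2 + u ^ 2 := by positivity
  have hp : 0 < (s + 1 / 2) ^ 2 + u ^ 2 := by positivity
  have hm : 0 < (s - 1 / 2) ^ 2 + u ^ 2 := by nlinarith only [hu2]
  have hw : 0 < (s + x) ^ 2 + u ^ 2 := by nlinarith only [hu2]
  have hBpos : 0 < ((s + 1 / 2) ^ 2 + u ^ 2) / ((s - 1 / 2) ^ 2 + u ^ 2) := div_pos hp hm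
  have hApos : 0 < ((s + x) ^ 2 + u ^ 2) / (s ^ 2 + u ^ 2) := div_pos hw hv
  have hB1 : Real.log (((s + 1 / 2) ^ 2 + u ^ 2) / ((s - 1 / 2) ^ 2 + u ^ 2))
      ≤ (2 * s + 4) / (s ^ 2 + u ^ 2) := by
    have h1 := Real.log_le_sub_one_of_pos hBpos
    have h2 : ((s + 1 / 2) ^ 2 + u ^ 2) / ((s - 1 / 2) ^ 2 + u ^ 2) - 1
        = 2 * s / ((s - 1 / 2) ^ 2 + u ^ 2) := by
      rw [div_sub_one hm.ne']
      congr 1
      ring
    have h3 : 2 * s / ((s - 1 / 2) ^ 2 + u ^ 2) ≤ (2 * s + 4) / (s ^ 2 + u ^ 2) := by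
      rw [div_le_div_iff₀ hm hv]
      nlinarith only [hu2, sq_nonneg (s - 1)]
    linarith
  have hB2 : (2 * s - 4) / (s ^ 2 + u ^ 2) ≤
      Real.log (((s + 1 / 2) ^ 2 + u ^ 2) / ((s - 1 / 2) ^ 2 + u ^ 2)) := by
    have h1 := Real.one_sub_inv_le_log_of_pos hBpos
    have h2 : 1 - (((s + 1 / 2) ^ 2 + u ^ 2) / ((s - 1 / 2) ^ 2 + u ^ 2))⁻¹
        = 2 * s / ((s + 1 / 2) ^ 2 + u ^ 2) := by
      rw [inv_div, one_sub_div hp.ne']
      congr 1
      ring
    have h3 : (2 * s - 4) / (s ^ 2 + u ^ 2) ≤ 2 * s / ((s + 1 / 2) ^ 2 + u ^ 2) := by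
      rw [div_le_div_iff₀ hv hp]
      nlinarith only [hu2]
    linarith only [h1, h2, h3]
  have hB3 : x * Real.log (((s + 1 / 2) ^ 2 + u ^ 2) / ((s - 1 / 2) ^ 2 + u ^ 2))
      ≤ (2 * s * x + 1) / (s ^ 2 + u ^ 2) := by
    rcases le_total 0 x with h0 | h0
    · refine (mul_le_mul_of_nonneg_left hB1 h0).trans ?_
      rw [← mul_div_assoc]
      refine div_le_div_of_nonneg_right ?_ hv.le
      nlinarith only [hx2]
    · refine (mul_le_mul_of_nonpos_left hB2 h0).trans ?_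
      rw [← mul_div_assoc]
      refine div_le_div_of_nonneg_right ?_ hv.le
      nlinarith only [hx1]
  have hA1 : (2 * s * x - 1) / (s ^ 2 + u ^ 2) ≤
      Real.log (((s + x) ^ 2 + u ^ 2) / (s ^ 2 + u ^ 2)) := by
    have h1 := Real.one_sub_inv_le_log_of_pos hApos
    have h2 : 1 - (((s + x) ^ 2 + u ^ 2) / (s ^ 2 + u ^ 2))⁻¹
        = (2 * s * x + x ^ 2) / ((s + x) ^ 2 + u ^ 2) := by
      rw [inv_div, one_sub_div hw.ne']
      congr 1
      ring
    have hx3 : x ^ 2 ≤ 1 / 16 := by nlinarith only [hx1, hx2]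
    have hx4 : x ^ 3 ≤ 1 / 64 := by
      have : x ^ 3 = x * x ^ 2 := by ring
      nlinarith only [hx2, hx3]
    have h4 : 4 * s ^ 2 * x ^ 2 ≤ s ^ 2 / 4 := by nlinarith only [hx3]
    have h5 : 2 * s * x ^ 3 ≤ s / 32 := by nlinarith only [hs, hx4]
    have h6 : -(2 * s * x) ≤ s / 2 := by nlinarith only [hs, hx1]
    have h3 : (2 * s * x - 1) / (s ^ 2 + u ^ 2) ≤
        (2 * s * x + x ^ 2) / ((s + x) ^ 2 + u ^ 2) := by
      rw [div_le_div_iff₀ hv hw]
      have h7 : (2 * s * x + x ^ 2) * (s ^ 2 + u ^ 2) - (2 * s * x - 1) * ((s + x) ^ 2 + u ^ 2)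
          = x ^ 2 * (s ^ 2 + u ^ 2) + (s ^ 2 + u ^ 2) + 2 * s * x + x ^ 2
            - 4 * s ^ 2 * x ^ 2 - 2 * s * x ^ 3 := by ring
      have h8 : 0 ≤ x ^ 2 * (s ^ 2 + u ^ 2) := by positivity
      nlinarith [sq_nonneg (s - 1), sq_nonneg x]
    linarith only [h1, h2, h3]
  have hS : 2 / (s ^ 2 + u ^ 2) ≤ 4 * (1 / s - 1 / (s + 1)) := by
    have hs0 : 0 < s := by linarith only [hs]
    have h1 : 4 * (1 / s - 1 / (s + 1)) = 4 / (s * (s + 1)) := by
      field_simp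
      ring
    rw [h1, div_le_div_iff₀ hv (by positivity)]
    nlinarith only [hu2]
  have hfin : (2 * s * x + 1) / (s ^ 2 + u ^ 2)
      = (2 * s * x - 1) / (s ^ 2 + u ^ 2) + 2 / (s ^ 2 + u ^ 2) := by
    rw [← add_div]
    congr 1
    ring
  linarith only [hB3, hA1, hS, hfin]

/-- The summed form. -/
lemma Chi_sum (x u : ℝ) (hx : |x| ≤ 1 / 4) (hu : 1 ≤ |u|) (n : ℕ) :
    x * Real.log (((n : ℝ) ^ 2 + u ^ 2) / u ^ 2) + 4 * (1 / ((n : ℝ) + 1 / 2))
      ≤ ∑ j ∈ Finset.range n,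
        Real.log ((((j : ℝ) + 1 / 2 + x) ^ 2 + u ^ 2) / (((j : ℝ) + 1 / 2) ^ 2 + u ^ 2)) + 8 := by
  have hu2 : 0 < u ^ 2 := by
    have h1 : |u| ^ 2 = u ^ 2 := sq_abs u
    nlinarith
  induction n with
  | zero =>
    simp only [Nat.cast_zero, Finset.range_zero, Finset.sum_empty]
    rw [zero_pow two_ne_zero, zero_add, div_self hu2.ne', Real.log_one]
    norm_num
  | succ n ih =>
    rw [Finset.sum_range_succ]
    have h1 := Chi_factor x u ((n : ℝ) + 1 / 2) hx hu (by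
      have : (0 : ℝ) ≤ n := Nat.cast_nonneg n
      linarith only [])
    have e1 : (n : ℝ) + 1 / 2 + 1 / 2 = n + 1 := by ring
    have e2 : (n : ℝ) + 1 / 2 - 1 / 2 = n := by ring
    rw [e1, e2] at h1
    have hn0 : 0 < (n : ℝ) ^ 2 + u ^ 2 := by positivity
    have hn1 : 0 < ((n : ℝ) + 1) ^ 2 + u ^ 2 := by positivity
    have h2 : Real.log ((((n + 1 : ℕ) : ℝ) ^ 2 + u ^ 2) / u ^ 2)
        = Real.log (((n : ℝ) ^ 2 + u ^ 2) / u ^ 2)
          + Real.log ((((n : ℝ) + 1) ^ 2 + u ^ 2) / ((n : ℝ) ^ 2 + u ^ 2)) := by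
      rw [← Real.log_mul (div_pos hn0 hu2).ne' (div_pos hn1 hn0).ne']
      congr 1
      push_cast
      field_simp
    have e3 : ((n + 1 : ℕ) : ℝ) + 1 / 2 = (n : ℝ) + 1 / 2 + 1 := by push_cast; ring
    rw [h2, e3, mul_add]
    linarith

lemma Chi_prod (x u : ℝ) (hx : |x| ≤ 1 / 4) (hu : 1 ≤ |u|) (n : ℕ) :
    (((n : ℝ) ^ 2 + u ^ 2) / u ^ 2) ^ x *
        ∏ j ∈ Finset.range n, (((j : ℝ) + 1 / 2) ^ 2 + u ^ 2)
      ≤ Real.exp 8 * ∏ j ∈ Finset.range n, (((j : ℝ) + 1 / 2 + x) ^ 2 + u ^ 2) := by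
  have hu2 : 0 < u ^ 2 := by
    have h1 : |u| ^ 2 = u ^ 2 := sq_abs u
    nlinarith only [hu, h1]
  have hn0 : 0 < (n : ℝ) ^ 2 + u ^ 2 := by positivity
  have h := Chi_sum x u hx hu n
  have h0 : 0 ≤ 4 * (1 / ((n : ℝ) + 1 / 2)) := by positivity
  have hA : ∀ j : ℕ, 0 < ((j : ℝ) + 1 / 2 + x) ^ 2 + u ^ 2 := fun j => by positivity
  have hV : ∀ j : ℕ, 0 < ((j : ℝ) + 1 / 2) ^ 2 + u ^ 2 := fun j => by positivity
  have h2 : x * Real.log (((n : ℝ) ^ 2 + u ^ 2) / u ^ 2) ≤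
      Real.log (∏ j ∈ Finset.range n,
        ((((j : ℝ) + 1 / 2 + x) ^ 2 + u ^ 2) / (((j : ℝ) + 1 / 2) ^ 2 + u ^ 2))) + 8 := by
    rw [Real.log_prod (fun j _ => (div_pos (hA j) (hV j)).ne')]
    linarith only [h, h0]
  have h3 := Real.exp_le_exp.mpr h2
  rw [Real.exp_add, Real.exp_log (Finset.prod_pos fun j _ => div_pos (hA j) (hV j))] at h3
  rw [Real.rpow_def_of_pos (div_pos hn0 hu2), mul_comm (Real.log _) x]
  have hP : 0 < ∏ j ∈ Finset.range n, (((j : ℝ) + 1 / 2) ^ 2 + u ^ 2) :=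
    Finset.prod_pos fun j _ => hV j
  rw [Finset.prod_div_distrib] at h3
  calc _ ≤ ((∏ j ∈ Finset.range n, (((j : ℝ) + 1 / 2 + x) ^ 2 + u ^ 2)) /
        (∏ j ∈ Finset.range n, (((j : ℝ) + 1 / 2) ^ 2 + u ^ 2)) * Real.exp 8) *
        ∏ j ∈ Finset.range n, (((j : ℝ) + 1 / 2) ^ 2 + u ^ 2) :=
      mul_le_mul_of_nonneg_right h3 hP.le
    _ = _ := by
      rw [mul_comm (_ / _) (Real.exp 8), mul_assoc, div_mul_cancel₀ _ hP.ne']

lemma Chi_gseq (x u : ℝ) (n : ℕ) (hn : 0 < n) :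
    ‖Complex.GammaSeq (1 / 2 + x + u * I) n‖ ^ 2 =
      (n : ℝ) ^ (1 + 2 * x) * ((n.factorial : ℝ)) ^ 2 /
        ∏ j ∈ Finset.range (n + 1), (((j : ℝ) + 1 / 2 + x) ^ 2 + u ^ 2) := by
  have hn' : (0 : ℝ) < n := Nat.cast_pos.mpr hn
  unfold Complex.GammaSeq
  rw [norm_div, norm_mul, norm_prod, div_pow, mul_pow, ← Finset.prod_pow]
  congr 1
  · congr 1
    · rw [Complex.norm_natCast_cpow_of_pos hn, ← Real.rpow_natCast, ← Real.rpow_mul hn'.le]
      congr 1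
      simp
      ring
    · simp
  · refine Finset.prod_congr rfl fun j _ => ?_
    rw [← Complex.normSq_eq_norm_sq, Complex.normSq_apply]
    simp
    ring

lemma Chi_gseq_le (x u : ℝ) (hx : |x| ≤ 1 / 4) (hu : 1 ≤ |u|) (n : ℕ) (hn : 1 ≤ n)
    (hnu : |u| ≤ n) :
    ‖Complex.GammaSeq (1 / 2 + x + u * I) n‖ ^ 2 ≤
      (5 * Real.exp 8 * (u ^ 2) ^ x) * ‖Complex.GammaSeq (1 / 2 + u * I) n‖ ^ 2 := by
  have hu2 : 0 < u ^ 2 := by
    have h1 : |u| ^ 2 = u ^ 2 := sq_abs u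
    nlinarith only [hu, h1]
  have hn' : (1 : ℝ) ≤ n := by exact_mod_cast hn
  have hn0 : (0 : ℝ) < n := by linarith
  have e0 : (1 / 2 + u * I : ℂ) = 1 / 2 + ((0 : ℝ) : ℂ) + u * I := by simp
  rw [e0, Chi_gseq x u n hn, Chi_gseq 0 u n hn]
  have h := Chi_prod x u hx hu (n + 1)
  have hA : 0 < ∏ j ∈ Finset.range (n + 1), (((j : ℝ) + 1 / 2 + x) ^ 2 + u ^ 2) :=
    Finset.prod_pos fun j _ => by positivity
  have hV : 0 < ∏ j ∈ Finset.range (n + 1), (((j : ℝ) + 1 / 2 + 0) ^ 2 + u ^ 2) :=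
    Finset.prod_pos fun j _ => by positivity
  have hV' : ∏ j ∈ Finset.range (n + 1), (((j : ℝ) + 1 / 2) ^ 2 + u ^ 2)
      = ∏ j ∈ Finset.range (n + 1), (((j : ℝ) + 1 / 2 + 0) ^ 2 + u ^ 2) := by
    simp only [add_zero]
  rw [hV'] at h
  set P := ∏ j ∈ Finset.range (n + 1), (((j : ℝ) + 1 / 2 + x) ^ 2 + u ^ 2) with hP
  set V := ∏ j ∈ Finset.range (n + 1), (((j : ℝ) + 1 / 2 + 0) ^ 2 + u ^ 2) with hVd
  have hq : 0 < ((n + 1 : ℕ) : ℝ) ^ 2 + u ^ 2 := by positivity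
  set q := ((n + 1 : ℕ) : ℝ) ^ 2 + u ^ 2 with hqd
  -- the base lies in `[1/5, 1]`
  have hu3 : u ^ 2 ≤ (n : ℝ) ^ 2 := by
    have h1 : |u| ^ 2 = u ^ 2 := sq_abs u
    rw [← h1]
    exact pow_le_pow_left₀ (abs_nonneg _) hnu 2
  have hb1 : (n : ℝ) ^ 2 / q ≤ 1 := by
    rw [div_le_one hq, hqd]
    push_cast
    nlinarith only [hu, hnu]
  have hb2 : 1 / 5 ≤ (n : ℝ) ^ 2 / q := by
    rw [div_le_div_iff₀ (by norm_num) hq, hqd]
    push_cast
    nlinarith only [hu, hnu, hu3]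
  have hb0 : 0 < (n : ℝ) ^ 2 / q := by positivity
  have hb3 : ((n : ℝ) ^ 2 / q) ^ x ≤ 5 := by
    obtain ⟨hx1, hx2⟩ := abs_le.mp hx
    calc ((n : ℝ) ^ 2 / q) ^ x ≤ ((n : ℝ) ^ 2 / q) ^ (-1 : ℝ) :=
          Real.rpow_le_rpow_of_exponent_ge hb0 hb1 (by linarith only [hx1])
      _ = ((n : ℝ) ^ 2 / q)⁻¹ := Real.rpow_neg_one _
      _ ≤ (1 / 5)⁻¹ := inv_anti₀ (by norm_num) hb2
      _ = 5 := by norm_num
  have e1 : (q / u ^ 2) ^ x = q ^ x / (u ^ 2) ^ x := Real.div_rpow hq.le hu2.le x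
  have e2 : ((n : ℝ) ^ 2 / q) ^ x = ((n : ℝ) ^ 2) ^ x / q ^ x :=
    Real.div_rpow (by positivity) hq.le x
  have hux : 0 < (u ^ 2) ^ x := Real.rpow_pos_of_pos hu2 x
  have hqx : 0 < q ^ x := Real.rpow_pos_of_pos hq x
  have e3 : (n : ℝ) ^ (1 + 2 * x) = n * ((n : ℝ) ^ 2) ^ x := by
    rw [Real.rpow_add hn0, Real.rpow_one]
    congr 1
    rw [← Real.rpow_natCast, ← Real.rpow_mul hn0.le]
    norm_num
  have e4 : (n : ℝ) ^ (1 + 2 * (0 : ℝ)) = n := by
    simp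
  rw [e3, e4]
  rw [e1] at h
  rw [e2] at hb3
  have hb4 : ((n : ℝ) ^ 2) ^ x ≤ 5 * q ^ x := by
    rwa [div_le_iff₀ hqx] at hb3
  have h' : q ^ x * V ≤ (u ^ 2) ^ x * (Real.exp 8 * P) := by
    have := mul_le_mul_of_nonneg_left h hux.le
    calc q ^ x * V = (u ^ 2) ^ x * (q ^ x / (u ^ 2) ^ x * V) := by field_simp
      _ ≤ _ := this
  rw [mul_div_assoc', div_le_div_iff₀ hA hV]
  have hN : 0 < (n : ℝ) * (n.factorial : ℝ) ^ 2 := by positivity
  calc (n : ℝ) * ((n : ℝ) ^ 2) ^ x * (n.factorial : ℝ) ^ 2 * V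
      = ((n : ℝ) * (n.factorial : ℝ) ^ 2) * (((n : ℝ) ^ 2) ^ x * V) := by ring
    _ ≤ ((n : ℝ) * (n.factorial : ℝ) ^ 2) * ((5 * q ^ x) * V) := by
        refine mul_le_mul_of_nonneg_left ?_ hN.le
        exact mul_le_mul_of_nonneg_right hb4 hV.le
    _ = ((n : ℝ) * (n.factorial : ℝ) ^ 2) * (5 * (q ^ x * V)) := by ring
    _ ≤ ((n : ℝ) * (n.factorial : ℝ) ^ 2) * (5 * ((u ^ 2) ^ x * (Real.exp 8 * P))) := by
        refine mul_le_mul_of_nonneg_left ?_ hN.le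
        linarith only [h']
    _ = _ := by ring

lemma Chi_gamma (x u : ℝ) (hx : |x| ≤ 1 / 4) (hu : 1 ≤ |u|) :
    ‖Complex.Gamma (1 / 2 + x + u * I)‖ ^ 2 ≤
      (5 * Real.exp 8 * (u ^ 2) ^ x) * ‖Complex.Gamma (1 / 2 + u * I)‖ ^ 2 := by
  have h1 := ((Complex.GammaSeq_tendsto_Gamma (1 / 2 + x + u * I)).norm).pow 2
  have h2 := (((Complex.GammaSeq_tendsto_Gamma (1 / 2 + u * I)).norm).pow 2).const_mul
    (5 * Real.exp 8 * (u ^ 2) ^ x)
  refine le_of_tendsto_of_tendsto h1 h2 ?_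
  filter_upwards [Filter.eventually_ge_atTop (max 1 ⌈|u|⌉₊)] with n hn
  refine Chi_gseq_le x u hx hu n ((le_max_left _ _).trans hn) ?_
  exact (Nat.le_ceil _).trans (by exact_mod_cast (le_max_right _ _).trans hn)

lemma Chi_cos (a b : ℝ) : ‖Complex.cos (a + b * I)‖ ^ 2 = Real.cos a ^ 2 + Real.sinh b ^ 2 := by
  rw [Complex.cos_add_mul_I, ← Complex.ofReal_cos, ← Complex.ofReal_sin, ← Complex.ofReal_cosh,
    ← Complex.ofReal_sinh, ← Complex.normSq_eq_norm_sq, Complex.normSq_apply]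
  simp only [Complex.sub_re, Complex.mul_re, Complex.ofReal_re, Complex.ofReal_im, Complex.I_re,
    Complex.I_im, Complex.sub_im, Complex.mul_im]
  ring_nf
  rw [Real.sin_sq, Real.cosh_sq]
  ring

lemma Chi_ch (x u : ℝ) (hx : |x| ≤ 1 / 4) (hu : 1 ≤ |u|) :
    ‖ch (1 / 2 + x + u * I)‖ ≤ (7 * (5 * Real.exp 8 * 2)) * |u| ^ x := by
  obtain ⟨hx1, hx2⟩ := abs_le.mp hx
  have hu0 : 0 < |u| := by linarith only [hu]
  have hG := Chi_gamma x u hx hu
  have hcos : ‖Complex.cos (Real.pi * (1 / 2 + x + u * I) / 2)‖ ^ 2 ≤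
      2 * ‖Complex.cos (Real.pi * (1 / 2 + u * I) / 2)‖ ^ 2 := by
    have e1 : (Real.pi * (1 / 2 + x + u * I) / 2 : ℂ)
        = ((Real.pi * (1 / 2 + x) / 2 : ℝ) : ℂ) + ((Real.pi * u / 2 : ℝ) : ℂ) * I := by
      push_cast; ring
    have e2 : (Real.pi * (1 / 2 + u * I) / 2 : ℂ)
        = ((Real.pi / 4 : ℝ) : ℂ) + ((Real.pi * u / 2 : ℝ) : ℂ) * I := by
      push_cast; ring
    rw [e1, e2, Chi_cos, Chi_cos, Real.cos_pi_div_four]
    have h1 := Real.cos_sq_le_one (Real.pi * (1 / 2 + x) / 2)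
    have h2 : (Real.sqrt 2 / 2) ^ 2 = 1 / 2 := by
      rw [div_pow, Real.sq_sqrt (by norm_num)]; norm_num
    rw [h2]
    nlinarith only [h1]
  have hpi : 0 < 2 * Real.pi := by positivity
  have hnp : ∀ w : ℂ, ‖((2 * Real.pi : ℂ) ^ (-w))‖ = (2 * Real.pi) ^ (-w.re) := by
    intro w
    have : (2 * Real.pi : ℂ) = ((2 * Real.pi : ℝ) : ℂ) := by push_cast; ring
    rw [this, Complex.norm_cpow_eq_rpow_re_of_pos hpi]
    simp
  have hpx : (2 * Real.pi) ^ (-x) ≤ 7 := by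
    calc (2 * Real.pi) ^ (-x) ≤ (2 * Real.pi) ^ (1 : ℝ) :=
          Real.rpow_le_rpow_of_exponent_le (by linarith only [Real.pi_gt_three]) (by linarith only [hx1])
      _ = 2 * Real.pi := Real.rpow_one _
      _ ≤ 7 := by linarith only [Real.pi_lt_d2]
  have h1 := norm_ch_half u
  unfold ch at h1 ⊢
  rw [norm_mul, norm_mul, norm_mul, hnp] at h1 ⊢
  have er : (1 / 2 + x + u * I : ℂ).re = 1 / 2 + x := by simp
  have er0 : (1 / 2 + u * I : ℂ).re = 1 / 2 := by simp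
  rw [er0] at h1
  rw [er]
  set g := ‖Complex.Gamma (1 / 2 + x + u * I)‖ with hg
  set g0 := ‖Complex.Gamma (1 / 2 + u * I)‖ with hg0
  set c := ‖Complex.cos (Real.pi * (1 / 2 + x + u * I) / 2)‖ with hc
  set c0 := ‖Complex.cos (Real.pi * (1 / 2 + u * I) / 2)‖ with hc0
  have hgn : 0 ≤ g := norm_nonneg _
  have hg0n : 0 ≤ g0 := norm_nonneg _
  have hcn : 0 ≤ c := norm_nonneg _
  have hc0n : 0 ≤ c0 := norm_nonneg _
  have hux : (u ^ 2) ^ x = (|u| ^ x) ^ 2 := by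
    rw [← sq_abs u, ← Real.rpow_natCast, ← Real.rpow_mul hu0.le, ← Real.rpow_natCast,
      ← Real.rpow_mul hu0.le]
    congr 1
    push_cast
    ring
  have hup : 0 < |u| ^ x := Real.rpow_pos_of_pos hu0 x
  have hE : 1 ≤ 5 * Real.exp 8 * 2 := by
    have := Real.add_one_le_exp (8 : ℝ)
    linarith only [this]
  have hprod : g * c ≤ (5 * Real.exp 8 * 2) * |u| ^ x * (g0 * c0) := by
    have h3 : (g * c) ^ 2 ≤ ((5 * Real.exp 8 * 2) * |u| ^ x * (g0 * c0)) ^ 2 := by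
      calc (g * c) ^ 2 = g ^ 2 * c ^ 2 := by ring
        _ ≤ ((5 * Real.exp 8 * (u ^ 2) ^ x) * g0 ^ 2) * (2 * c0 ^ 2) :=
            mul_le_mul hG hcos (sq_nonneg _) (by positivity)
        _ = (5 * Real.exp 8 * 2) * ((|u| ^ x) ^ 2 * (g0 * c0) ^ 2) := by
            rw [hux]; ring
        _ ≤ (5 * Real.exp 8 * 2) ^ 2 * ((|u| ^ x) ^ 2 * (g0 * c0) ^ 2) := by
            refine mul_le_mul_of_nonneg_right ?_ (by positivity)
            nlinarith only [hE]
        _ = _ := by ring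
    exact le_of_sq_le_sq h3 (by positivity)
  have h2n : ‖(2 : ℂ)‖ = 2 := by simp
  rw [h2n] at h1 ⊢
  have hsplit : (2 * Real.pi) ^ (-(1 / 2 + x)) = (2 * Real.pi) ^ (-(1 / 2 : ℝ)) *
      (2 * Real.pi) ^ (-x) := by
    rw [← Real.rpow_add hpi]
    congr 1
    ring
  rw [hsplit]
  set p := (2 * Real.pi) ^ (-(1 / 2 : ℝ)) with hp
  have hp0 : 0 < p := Real.rpow_pos_of_pos hpi _
  have hpx0 : 0 < (2 * Real.pi) ^ (-x) := Real.rpow_pos_of_pos hpi _
  calc 2 * (p * (2 * Real.pi) ^ (-x)) * g * c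
      = (2 * Real.pi) ^ (-x) * (2 * p * (g * c)) := by ring
    _ ≤ 7 * (2 * p * ((5 * Real.exp 8 * 2) * |u| ^ x * (g0 * c0))) := by
        refine mul_le_mul hpx ?_ (by positivity) (by norm_num)
        refine mul_le_mul_of_nonneg_left hprod (by positivity)
    _ = (7 * (5 * Real.exp 8 * 2)) * |u| ^ x * (2 * p * g0 * c0) := by ring
    _ = (7 * (5 * Real.exp 8 * 2)) * |u| ^ x := by rw [h1, mul_one]

/-- `|ζ(1/2-x+iu)| ≤ C |u|^x |ζ(1/2+x+iu)|` for `|x| ≤ 1/4` (both signs of `x`), `|u| ≥ 1`.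

PROOF. By conjugation `|ζ(1/2-x+iu)| = |ch(1/2+x-iu)| |ζ(1/2+x-iu)|`, and the factor is compared with
`|ch(1/2-iu)| = 1` through Euler's limit formula for `Γ`. -/
theorem chi_bound : ∃ C : ℝ, 0 < C ∧ ∀ x u : ℝ, |x| ≤ 1 / 4 → 1 ≤ |u| →
    ‖riemannZeta (1 / 2 - x + u * I)‖ ≤ C * |u| ^ x * ‖riemannZeta (1 / 2 + x + u * I)‖ := by
  refine ⟨7 * (5 * Real.exp 8 * 2), by positivity, fun x u hx hu => ?_⟩
  obtain ⟨hx1, hx2⟩ := abs_le.mp hx
  have hu0 : u ≠ 0 := by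
    rintro rfl
    norm_num at hu
  have hfe := ch_fe (1 / 2 + x + ((-u : ℝ) : ℂ) * I) (by simp; linarith) (by
    intro h
    have := congrArg Complex.im h
    simp at this
    exact hu0 this)
  have e1 : (1 - (1 / 2 + x + ((-u : ℝ) : ℂ) * I) : ℂ) = 1 / 2 - x + u * I := by
    push_cast; ring
  rw [e1] at hfe
  rw [hfe, norm_mul]
  have hc := Chi_ch x (-u) hx (by rwa [abs_neg])
  rw [abs_neg] at hc
  have e2 : (1 / 2 + x + ((-u : ℝ) : ℂ) * I : ℂ) = (starRingEnd ℂ) (1 / 2 + x + u * I) := by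
    apply Complex.ext <;> simp
  have e3 : ‖riemannZeta (1 / 2 + x + ((-u : ℝ) : ℂ) * I)‖ = ‖riemannZeta (1 / 2 + x + u * I)‖ := by
    rw [e2, riemannZeta_conj, Complex.norm_conj]
  rw [e3]
  exact mul_le_mul_of_nonneg_right hc (norm_nonneg _)

end Pool.Agent.H14.CO

end

section

/-!
# CO module Select: choosing separated points
-/

set_option autoImplicit false

namespace Pool.Agent.H14.CO

open Set MeasureTheory Complex

private lemma Select_sum (g : ℝ → ℝ) (hg : Continuous g) (Gd : Set ℝ)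
    (hGd : MeasurableSet Gd) (a ℓ : ℝ) (hℓ : 0 < ℓ) (n : ℕ) :
    ∫ x in Gd ∩ Ico a (a + n * ℓ), g x =
      ∑ j ∈ Finset.range n, ∫ x in Gd ∩ Ico (a + j * ℓ) (a + (j + 1) * ℓ), g x := by
  induction n with
  | zero => simp
  | succ n ih =>
    rw [Finset.sum_range_succ, ← ih]
    have h1 : Gd ∩ Ico a (a + ((n + 1 : ℕ) : ℝ) * ℓ) =
        (Gd ∩ Ico a (a + n * ℓ)) ∪ (Gd ∩ Ico (a + n * ℓ) (a + (n + 1) * ℓ)) := by
      rw [← inter_union_distrib_left, Ico_union_Ico_eq_Ico]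
      · push_cast; rfl
      · have : 0 ≤ (n : ℝ) * ℓ := by positivity
        linarith
      · nlinarith
    rw [h1]
    refine setIntegral_union ?_ (hGd.inter measurableSet_Ico) ?_ ?_
    · refine Disjoint.mono inter_subset_right inter_subset_right ?_
      rw [Set.disjoint_left]
      intro x hx hx'
      exact absurd hx.2 (not_lt.2 hx'.1)
    · exact (hg.integrableOn_Icc (a := a) (b := a + n * ℓ)).mono_set
        (inter_subset_right.trans Ico_subset_Icc_self)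
    · exact (hg.integrableOn_Icc (a := a + n * ℓ) (b := a + (n + 1) * ℓ)).mono_set
        (inter_subset_right.trans Ico_subset_Icc_self)

private lemma Select_cell (g : ℝ → ℝ) (hg : Continuous g) (hg0 : ∀ t, 0 ≤ g t) (Gd : Set ℝ)
    (b ℓ : ℝ) (hℓ : 0 < ℓ) (hv : volume (Gd ∩ Ico b (b + ℓ)) ≠ 0) :
    ∃ t ∈ Gd ∩ Ico b (b + ℓ), ∫ x in Gd ∩ Ico b (b + ℓ), g x ≤ ℓ * g t := by
  have hle : volume (Gd ∩ Ico b (b + ℓ)) ≤ ENNReal.ofReal ℓ := by
    refine (measure_mono inter_subset_right).trans ?_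
    rw [Real.volume_Ico]
    ring_nf
    exact le_rfl
  have htop : volume (Gd ∩ Ico b (b + ℓ)) ≠ ⊤ := ne_top_of_le_ne_top ENNReal.ofReal_ne_top hle
  have hint : IntegrableOn g (Gd ∩ Ico b (b + ℓ)) :=
    (hg.integrableOn_Icc (a := b) (b := b + ℓ)).mono_set
      (inter_subset_right.trans Ico_subset_Icc_self)
  obtain ⟨t, ht, htt⟩ := exists_setAverage_le hv htop hint
  refine ⟨t, ht, ?_⟩
  rw [setAverage_eq, smul_eq_mul] at htt
  have hr : 0 < volume.real (Gd ∩ Ico b (b + ℓ)) := by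
    rw [Measure.real]
    exact ENNReal.toReal_pos hv htop
  have hr2 : volume.real (Gd ∩ Ico b (b + ℓ)) ≤ ℓ := by
    rw [Measure.real]
    exact ENNReal.toReal_le_of_le_ofReal hℓ.le hle
  have h3 : ∫ x in Gd ∩ Ico b (b + ℓ), g x ≤ volume.real (Gd ∩ Ico b (b + ℓ)) * g t := by
    have := mul_le_mul_of_nonneg_left htt hr.le
    rwa [← mul_assoc, mul_inv_cancel₀ hr.ne', one_mul] at this
  exact h3.trans (mul_le_mul_of_nonneg_right hr2 (hg0 t))

private lemma Select_sep {a ℓ x y : ℝ} (hℓ : 0 < ℓ) {i j : ℕ} (hij : i + 2 ≤ j)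
    (hx : x ∈ Ico (a + i * ℓ) (a + i * ℓ + ℓ)) (hy : y ∈ Ico (a + j * ℓ) (a + j * ℓ + ℓ)) :
    ℓ ≤ y - x := by
  have h1 : ((i : ℝ) + 2) * ℓ ≤ j * ℓ := by
    refine mul_le_mul_of_nonneg_right ?_ hℓ.le
    exact_mod_cast hij
  have h2 := hx.2
  have h3 := hy.1
  nlinarith

/-- PROOF. Cells `J_j = [a + jℓ, a + (j+1)ℓ)`, `j < n`. For each `j` with `∫_{J_j ∩ Gd} g > 0` choose
`t_j ∈ J_j ∩ Gd` with `ℓ g(t_j) ≥ ∫_{J_j ∩ Gd} g` (otherwise `g < (∫)/ℓ` on `J_j ∩ Gd` and integrating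
gives a contradiction since `|J_j ∩ Gd| ≤ ℓ`). `∑_j ∫_{J_j∩Gd} g = ∫_{Gd} g` (up to the null set
`{a + nℓ}`). Take the even or the odd `j`, whichever carries at least half; then
`|t_i - t_j| ≥ ℓ`. -/
theorem select (g : ℝ → ℝ) (hg : Continuous g) (hg0 : ∀ t, 0 ≤ g t) (Gd : Set ℝ)
    (hGd : MeasurableSet Gd) (a ℓ : ℝ) (hℓ : 0 < ℓ) (n : ℕ) (hsub : Gd ⊆ Icc a (a + n * ℓ)) :
    ∃ (S : Finset ℕ) (t : ℕ → ℝ), (∀ j ∈ S, j < n ∧ t j ∈ Gd) ∧
      (∀ i ∈ S, ∀ j ∈ S, i ≠ j → ℓ ≤ |t i - t j|) ∧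
      ∫ x in Gd, g x ≤ 2 * ℓ * ∑ j ∈ S, g (t j) := by
  classical
  set J : ℕ → Set ℝ := fun j => Gd ∩ Ico (a + j * ℓ) (a + j * ℓ + ℓ) with hJ
  have hchoice : ∀ j : ℕ, ∃ t : ℝ, volume (J j) ≠ 0 → t ∈ J j ∧ ∫ x in J j, g x ≤ ℓ * g t := by
    intro j
    by_cases h : volume (J j) = 0
    · exact ⟨0, fun h' => absurd h h'⟩
    · obtain ⟨t, ht, ht2⟩ := Select_cell g hg hg0 Gd (a + j * ℓ) ℓ hℓ h
      exact ⟨t, fun _ => ⟨ht, ht2⟩⟩
  choose t ht using hchoice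
  set A : Finset ℕ := (Finset.range n).filter (fun j => volume (J j) ≠ 0) with hA
  -- the integral
  have h1 : ∫ x in Gd, g x = ∑ j ∈ Finset.range n, ∫ x in J j, g x := by
    have hcong : ∫ x in Gd, g x = ∫ x in Gd ∩ Ico a (a + n * ℓ), g x := by
      refine setIntegral_congr_set ?_
      have h2 : Gd = Gd ∩ Icc a (a + n * ℓ) := (inter_eq_left.2 hsub).symm
      conv_lhs => rw [h2]
      exact (Filter.EventuallyEq.rfl).inter Ico_ae_eq_Icc.symm
    rw [hcong, Select_sum g hg Gd hGd a ℓ hℓ n]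
    refine Finset.sum_congr rfl fun j _ => ?_
    have : a + ((j : ℝ) + 1) * ℓ = a + j * ℓ + ℓ := by ring
    rw [this]
  have h2 : ∫ x in Gd, g x ≤ ∑ j ∈ A, ℓ * g (t j) := by
    rw [h1, hA, Finset.sum_filter]
    refine Finset.sum_le_sum fun j _ => ?_
    by_cases h : volume (J j) = 0
    · rw [if_neg (by simpa using h), setIntegral_measure_zero _ h]
    · rw [if_pos h]; exact (ht j h).2
  have hsplit : ∑ j ∈ A, ℓ * g (t j) =
      ∑ j ∈ A.filter (fun j => j % 2 = 0), ℓ * g (t j) +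
        ∑ j ∈ A.filter (fun j => ¬ j % 2 = 0), ℓ * g (t j) :=
    (Finset.sum_filter_add_sum_filter_not A (fun j => j % 2 = 0) _).symm
  have key : ∀ S : Finset ℕ, S ⊆ A → (∀ i ∈ S, ∀ j ∈ S, i % 2 = j % 2) →
      (∀ j ∈ S, j < n ∧ t j ∈ Gd) ∧ (∀ i ∈ S, ∀ j ∈ S, i ≠ j → ℓ ≤ |t i - t j|) := by
    intro S hSA hpar
    have hmem : ∀ j ∈ S, j < n ∧ volume (J j) ≠ 0 := by
      intro j hj
      have := hSA hj
      rw [hA, Finset.mem_filter, Finset.mem_range] at this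
      exact this
    refine ⟨fun j hj => ⟨(hmem j hj).1, (ht j (hmem j hj).2).1.1⟩, ?_⟩
    intro i hi j hj hij
    have hi' := (ht i (hmem i hi).2).1.2
    have hj' := (ht j (hmem j hj).2).1.2
    have hp := hpar i hi j hj
    rcases lt_or_gt_of_ne hij with h | h
    · have := Select_sep hℓ (show i + 2 ≤ j by omega) hi' hj'
      rw [abs_sub_comm]
      exact this.trans (le_abs_self _)
    · have := Select_sep hℓ (show j + 2 ≤ i by omega) hj' hi'
      exact this.trans (le_abs_self _)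
  rcases le_total (∑ j ∈ A.filter (fun j => j % 2 = 0), ℓ * g (t j))
      (∑ j ∈ A.filter (fun j => ¬ j % 2 = 0), ℓ * g (t j)) with hcase | hcase
  · refine ⟨A.filter (fun j => ¬ j % 2 = 0), t, ?_⟩
    obtain ⟨k1, k2⟩ := key (A.filter (fun j => ¬ j % 2 = 0)) (Finset.filter_subset _ _) (by
      intro i hi j hj
      rw [Finset.mem_filter] at hi hj
      omega)
    refine ⟨k1, k2, ?_⟩
    rw [mul_assoc, Finset.mul_sum]
    linarith
  · refine ⟨A.filter (fun j => j % 2 = 0), t, ?_⟩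
    obtain ⟨k1, k2⟩ := key (A.filter (fun j => j % 2 = 0)) (Finset.filter_subset _ _) (by
      intro i hi j hj
      rw [Finset.mem_filter] at hi hj
      omega)
    refine ⟨k1, k2, ?_⟩
    rw [mul_assoc, Finset.mul_sum]
    linarith

end Pool.Agent.H14.CO

end
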