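import Pool.Agent.H47.B1.M10

/-! The parts of this file: H95.GC.Ident, H14.CO.CloseFar, H14.CO.MoB, H14.CO.GoodA, H14.CO.GoodD, H95.GC.ThreeCircles, H14.CO.Zdet, H14.CO.GoodE, H14.CO.GoodB, H95.GC.CoreA, H14.CO.LSamp. -/

section

set_option autoImplicit false

namespace Pool.Agent.H95.GC

open Set MeasureTheory

/-- `M x H` as a sum over any longer range. -/
theorem M_eq_sum (x H : ℝ) (L : ℕ) (hL : x + H / 2 ≤ L) :
    M x H = ∑ n ∈ Finset.range L,
      (if |(n : ℝ) - x| < H / 2 then ((ArithmeticFunction.moebius n : ℤ) : ℝ) else 0) := by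
  unfold M
  rw [← Finset.sum_filter]
  refine Finset.sum_congr ?_ fun _ _ => rfl
  ext n
  simp only [Finset.mem_filter, Finset.mem_range, and_congr_left_iff]
  intro hn
  have hH : 0 < H := by
    have := (abs_nonneg _).trans_lt hn
    linarith
  have h1 : (n : ℝ) < x + H / 2 := by
    have := (abs_lt.1 hn).2
    linarith
  constructor
  · intro _
    exact_mod_cast h1.trans_le hL
  · intro _
    have h2 : (n : ℝ) < (⌈x + H⌉₊ : ℝ) + 1 := by
      have := Nat.le_ceil (x + H)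
      linarith
    exact_mod_cast h2

theorem measurable_M : Measurable (Function.uncurry M) := by
  have hlim : ∀ p : ℝ × ℝ, Filter.Tendsto (fun L : ℕ => ∑ n ∈ Finset.range L,
      (if |(n : ℝ) - p.1| < p.2 / 2 then ((ArithmeticFunction.moebius n : ℤ) : ℝ) else 0))
      Filter.atTop (nhds (Function.uncurry M p)) := by
    intro p
    apply tendsto_const_nhds.congr'
    filter_upwards [Filter.eventually_ge_atTop ⌈p.1 + p.2 / 2⌉₊] with L hL
    rw [← M_eq_sum p.1 p.2 L ((Nat.le_ceil _).trans (by exact_mod_cast hL))]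
    rfl
  refine measurable_of_tendsto_metrizable (f := fun (L : ℕ) (p : ℝ × ℝ) => ∑ n ∈ Finset.range L,
      (if |(n : ℝ) - p.1| < p.2 / 2 then ((ArithmeticFunction.moebius n : ℤ) : ℝ) else 0))
      ?_ (tendsto_pi_nhds.2 hlim)
  intro L
  apply Finset.measurable_sum
  intro n _
  apply Measurable.ite
  · apply measurableSet_lt
    · fun_prop
    · fun_prop
  · exact measurable_const
  · exact measurable_const

theorem abs_M_le (x H : ℝ) (hH : 0 ≤ H) : |M x H| ≤ H + 1 := by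
  unfold M
  set S := (Finset.range (⌈x + H⌉₊ + 1)).filter (fun n : ℕ => |(n : ℝ) - x| < H / 2) with hS
  have h1 : |∑ n ∈ S, ((ArithmeticFunction.moebius n : ℤ) : ℝ)| ≤ S.card := by
    refine (Finset.abs_sum_le_sum_abs _ _).trans ?_
    rw [Finset.card_eq_sum_ones, Nat.cast_sum]
    apply Finset.sum_le_sum
    intro n _
    have := ArithmeticFunction.abs_moebius_le_one (n := n)
    rw [Nat.cast_one]
    exact_mod_cast this
  refine h1.trans ?_
  rcases S.eq_empty_or_nonempty with h0 | hne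
  · rw [h0]; simp; linarith
  · set a := S.min' hne with ha
    set b := S.max' hne with hb
    have haS : a ∈ S := S.min'_mem hne
    have hbS : b ∈ S := S.max'_mem hne
    have hsub : S ⊆ Finset.Icc a b := by
      intro n hn
      rw [Finset.mem_Icc]
      exact ⟨S.min'_le n hn, S.le_max' n hn⟩
    have hcard : S.card ≤ b + 1 - a := by
      have := Finset.card_le_card hsub
      simpa using this
    have hab : a ≤ b := S.min'_le b hbS
    have h2 : ((b + 1 - a : ℕ) : ℝ) = (b : ℝ) + 1 - a := by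
      rw [Nat.cast_sub (by omega)]
      push_cast
      ring
    have h3 : (S.card : ℝ) ≤ (b : ℝ) + 1 - a := by
      rw [← h2]; exact_mod_cast hcard
    have h4 := (abs_lt.1 (Finset.mem_filter.1 haS).2).1
    have h5 := (abs_lt.1 (Finset.mem_filter.1 hbS).2).2
    linarith

/-- no integer `n ≥ 1` in the window -/
theorem M_eq_zero (x δ : ℝ) (hδ0 : 0 < δ) (hδ1 : δ ≤ 1) (hx0 : 0 < x) (hx : x ≤ 2 / 3) :
    M x (δ * x) = 0 := by
  unfold M
  apply Finset.sum_eq_zero
  intro n hn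
  have h := (Finset.mem_filter.1 hn).2
  have h1 := abs_lt.1 h
  have hdx : δ * x ≤ x := by nlinarith
  rcases Nat.eq_zero_or_pos n with h0 | hpos
  · exfalso
    rw [h0] at h1
    have := h1.1
    push_cast at this
    linarith
  · exfalso
    have h2 : (1 : ℝ) ≤ n := by exact_mod_cast hpos
    linarith [h1.2]

/-- The Möbius inversion identity for proportional windows. -/
theorem window_identity (δ x : ℝ) (hδ0 : 0 < δ) (hδ1 : δ ≤ 1) (hx : 0 < x) (K : ℕ)
    (hK : 3 * x / 2 ≤ K) :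
    ∑ k ∈ Finset.Icc 1 K, M (x / k) (δ * (x / k)) = if |1 - x| < δ * x / 2 then 1 else 0 := by
  classical
  have hdx : δ * x ≤ x := by nlinarith
  have hdx0 : 0 < δ * x := by positivity
  -- the inner sums, over a common range
  have hM : ∀ k ∈ Finset.Icc 1 K, M (x / k) (δ * (x / k))
      = ∑ n ∈ Finset.range (K + 1),
        (if |((k * n : ℕ) : ℝ) - x| < δ * x / 2 then
          ((ArithmeticFunction.moebius n : ℤ) : ℝ) else 0) := by
    intro k hk
    have hk1 : (1 : ℝ) ≤ k := by exact_mod_cast (Finset.mem_Icc.1 hk).1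
    have hk0 : (0 : ℝ) < k := by linarith
    rw [M_eq_sum (x / k) (δ * (x / k)) (K + 1)]
    · refine Finset.sum_congr rfl fun n _ => ?_
      have : (|(n : ℝ) - x / k| < δ * (x / k) / 2) ↔ (|((k * n : ℕ) : ℝ) - x| < δ * x / 2) := by
        have e1 : |((k * n : ℕ) : ℝ) - x| = k * |(n : ℝ) - x / k| := by
          rw [← abs_of_pos hk0, ← abs_mul, abs_of_pos hk0]
          congr 1
          push_cast
          field_simp
        have e2 : δ * x / 2 = k * (δ * (x / k) / 2) := by field_simp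
        rw [e1, e2]
        exact (mul_lt_mul_iff_right₀ hk0).symm
      simp only [this]
    · have h1 : x / k ≤ x := div_le_self hx.le hk1
      have h2 : δ * (x / k) ≤ x / k := by
        have : 0 < x / k := by positivity
        nlinarith
      push_cast
      linarith
  rw [Finset.sum_congr rfl hM]
  -- reorganise by `m = k * n`
  have key : ∀ k ∈ Finset.Icc 1 K, ∀ n ∈ Finset.range (K + 1),
      (if |((k * n : ℕ) : ℝ) - x| < δ * x / 2 then
          ((ArithmeticFunction.moebius n : ℤ) : ℝ) else 0)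
      = ∑ m ∈ Finset.Icc 1 K, if k * n = m then (if |(m : ℝ) - x| < δ * x / 2 then
          ((ArithmeticFunction.moebius n : ℤ) : ℝ) else 0) else 0 := by
    intro k hk n hn
    by_cases hw : |((k * n : ℕ) : ℝ) - x| < δ * x / 2
    · have h1 := abs_lt.1 hw
      have hpos : 1 ≤ k * n := by
        rcases Nat.eq_zero_or_pos (k * n) with h0 | hpos
        · exfalso
          rw [h0] at h1
          have := h1.1
          push_cast at this
          linarith
        · exact hpos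
      have hle : k * n ≤ K := by
        have : ((k * n : ℕ) : ℝ) < K := by linarith [h1.2]
        exact (by exact_mod_cast this : k * n < K).le
      rw [Finset.sum_eq_single_of_mem (k * n) (Finset.mem_Icc.2 ⟨hpos, hle⟩)]
      · simp
      · intro m _ hm
        rw [if_neg (fun h => hm h.symm)]
    · rw [if_neg hw]
      symm
      apply Finset.sum_eq_zero
      intro m _
      split_ifs with h1 h2
      · subst h1
        exact absurd h2 hw
      · rfl
      · rfl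
  have step1 : ∑ k ∈ Finset.Icc 1 K, ∑ n ∈ Finset.range (K + 1),
        (if |((k * n : ℕ) : ℝ) - x| < δ * x / 2 then
          ((ArithmeticFunction.moebius n : ℤ) : ℝ) else 0)
      = ∑ m ∈ Finset.Icc 1 K, (if |(m : ℝ) - x| < δ * x / 2 then
          (∑ k ∈ Finset.Icc 1 K, ∑ n ∈ Finset.range (K + 1),
            if k * n = m then ((ArithmeticFunction.moebius n : ℤ) : ℝ) else 0) else 0) := by
    calc _ = ∑ k ∈ Finset.Icc 1 K, ∑ n ∈ Finset.range (K + 1), ∑ m ∈ Finset.Icc 1 K,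
            (if k * n = m then (if |(m : ℝ) - x| < δ * x / 2 then
          ((ArithmeticFunction.moebius n : ℤ) : ℝ) else 0) else 0) :=
          Finset.sum_congr rfl fun k hk => Finset.sum_congr rfl fun n hn => key k hk n hn
      _ = ∑ k ∈ Finset.Icc 1 K, ∑ m ∈ Finset.Icc 1 K, ∑ n ∈ Finset.range (K + 1),
            (if k * n = m then (if |(m : ℝ) - x| < δ * x / 2 then
          ((ArithmeticFunction.moebius n : ℤ) : ℝ) else 0) else 0) :=
          Finset.sum_congr rfl fun k hk => Finset.sum_comm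
      _ = ∑ m ∈ Finset.Icc 1 K, ∑ k ∈ Finset.Icc 1 K, ∑ n ∈ Finset.range (K + 1),
            (if k * n = m then (if |(m : ℝ) - x| < δ * x / 2 then
          ((ArithmeticFunction.moebius n : ℤ) : ℝ) else 0) else 0) := Finset.sum_comm
      _ = _ := by
          refine Finset.sum_congr rfl fun m hm => ?_
          by_cases hw : |(m : ℝ) - x| < δ * x / 2
          · simp only [hw, if_true]
          · simp only [hw, if_false, ite_self, Finset.sum_const_zero]
  rw [step1]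
  -- the divisor sum
  have hdiv : ∀ m ∈ Finset.Icc 1 K, (∑ k ∈ Finset.Icc 1 K, ∑ n ∈ Finset.range (K + 1),
            if k * n = m then ((ArithmeticFunction.moebius n : ℤ) : ℝ) else 0)
        = if m = 1 then 1 else 0 := by
    intro m hm
    obtain ⟨hm1, hmK⟩ := Finset.mem_Icc.1 hm
    have h1 : ∑ n ∈ m.divisors, ((ArithmeticFunction.moebius n : ℤ) : ℝ)
        = if m = 1 then 1 else 0 := by
      have h := congrArg (fun f => f m) ArithmeticFunction.moebius_mul_coe_zeta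
      simp only [ArithmeticFunction.mul_zeta_apply, ArithmeticFunction.coe_mul_zeta_apply, ArithmeticFunction.one_apply] at h
      exact_mod_cast h
    rw [← h1, Finset.sum_comm]
    symm
    have hsub : m.divisors ⊆ Finset.range (K + 1) := by
      intro d hd
      have := Nat.divisor_le hd
      simp only [Finset.mem_range]
      omega
    rw [← Finset.sum_subset hsub]
    · refine Finset.sum_congr rfl fun d hd => ?_
      have hdm := Nat.dvd_of_mem_divisors hd
      obtain ⟨c, hc⟩ := hdm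
      have hd0 : 0 < d := Nat.pos_of_mem_divisors hd
      have hc1 : 1 ≤ c := by
        rcases Nat.eq_zero_or_pos c with h0 | h0
        · rw [h0] at hc; omega
        · exact h0
      have hcK : c ≤ K := by
        refine le_trans ?_ hmK
        rw [hc]
        exact Nat.le_mul_of_pos_left c hd0
      rw [Finset.sum_eq_single_of_mem c (Finset.mem_Icc.2 ⟨hc1, hcK⟩)]
      · rw [if_pos (by rw [hc]; ring)]
      · intro k _ hk
        rw [if_neg]
        intro h
        apply hk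
        have : k * d = c * d := by rw [h, hc]; ring
        exact Nat.eq_of_mul_eq_mul_right hd0 this
    · intro n _ hn
      apply Finset.sum_eq_zero
      intro k _
      rw [if_neg]
      intro h
      apply hn
      rw [Nat.mem_divisors]
      exact ⟨⟨k, by rw [← h]; ring⟩, by omega⟩
  have step2 : ∑ m ∈ Finset.Icc 1 K, (if |(m : ℝ) - x| < δ * x / 2 then
          (∑ k ∈ Finset.Icc 1 K, ∑ n ∈ Finset.range (K + 1),
            if k * n = m then ((ArithmeticFunction.moebius n : ℤ) : ℝ) else 0) else 0)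
      = ∑ m ∈ Finset.Icc 1 K, if m = 1 then (if |(1 : ℝ) - x| < δ * x / 2 then 1 else 0) else 0 := by
    refine Finset.sum_congr rfl fun m hm => ?_
    rw [hdiv m hm]
    by_cases h1 : m = 1
    · subst h1
      simp
    · simp [h1]
  rw [step2]
  by_cases hw : |(1 : ℝ) - x| < δ * x / 2
  · have h1 := abs_lt.1 hw
    have hK1 : 1 ≤ K := by
      have : (0 : ℝ) < K := by linarith
      exact_mod_cast this
    rw [Finset.sum_eq_single_of_mem 1 (Finset.mem_Icc.2 ⟨le_rfl, hK1⟩)]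
    · simp
    · intro m _ hm
      rw [if_neg hm]
  · simp [hw]

end Pool.Agent.H95.GC

end

section

/-!
# CO module CloseFar: `ζ M` on the line `Re s = 2`
-/

set_option autoImplicit false

namespace Pool.Agent.H14.CO

open Set MeasureTheory Complex

private theorem CloseFar_card (k : ℕ) : k.divisors.card ≤ 2 * Nat.sqrt k := by
  have hsub : k.divisors ⊆ (Finset.Icc 1 (Nat.sqrt k)) ∪
      (Finset.Icc 1 (Nat.sqrt k)).image (fun e => k / e) := by
    intro d hd
    rw [Nat.mem_divisors] at hd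
    obtain ⟨⟨e, he⟩, hk⟩ := hd
    have hd0 : 0 < d := by
      rcases Nat.eq_zero_or_pos d with h | h
      · exfalso
        apply hk
        rw [he, h, zero_mul]
      · exact h
    have he0 : 0 < e := by
      rcases Nat.eq_zero_or_pos e with h | h
      · exfalso
        apply hk
        rw [he, h, mul_zero]
      · exact h
    rw [Finset.mem_union]
    by_cases h : d ≤ Nat.sqrt k
    · left
      rw [Finset.mem_Icc]
      exact ⟨hd0, h⟩
    · right
      rw [Finset.mem_image]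
      refine ⟨e, ?_, ?_⟩
      · rw [Finset.mem_Icc]
        refine ⟨he0, ?_⟩
        by_contra h2
        have h3 : (Nat.sqrt k + 1) * (Nat.sqrt k + 1) ≤ d * e :=
          Nat.mul_le_mul (by omega) (by omega)
        have h4 := Nat.lt_succ_sqrt k
        rw [← he] at h3
        exact absurd (lt_of_lt_of_le h4 h3) (lt_irrefl _)
      · rw [he]
        exact Nat.mul_div_cancel _ he0
  calc k.divisors.card ≤ _ := Finset.card_le_card hsub
    _ ≤ (Finset.Icc 1 (Nat.sqrt k)).card + ((Finset.Icc 1 (Nat.sqrt k)).image (fun e => k / e)).card :=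
        Finset.card_union_le _ _
    _ ≤ (Finset.Icc 1 (Nat.sqrt k)).card + (Finset.Icc 1 (Nat.sqrt k)).card :=
        Nat.add_le_add_left Finset.card_image_le _
    _ = 2 * Nat.sqrt k := by
        rw [Nat.card_Icc]
        omega

/-- coefficients of `ζ M` -/
private noncomputable def CloseFar_a (z₀ : ℝ) (k : ℕ) : ℝ := ∑ d ∈ k.divisors, lam z₀ d

private theorem CloseFar_abs (z₀ : ℝ) (hz : 1 < z₀) (k : ℕ) :
    |CloseFar_a z₀ k| ≤ 2 * Real.sqrt k := by
  unfold CloseFar_a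
  calc |∑ d ∈ k.divisors, lam z₀ d| ≤ ∑ d ∈ k.divisors, |lam z₀ d| :=
        Finset.abs_sum_le_sum_abs _ _
    _ ≤ ∑ _d ∈ k.divisors, (1 : ℝ) := Finset.sum_le_sum fun d _ => abs_lam_le z₀ hz d
    _ = (k.divisors.card : ℝ) := by simp
    _ ≤ ((2 * Nat.sqrt k : ℕ) : ℝ) := by exact_mod_cast CloseFar_card k
    _ ≤ 2 * Real.sqrt k := by
        push_cast
        have := Real.nat_sqrt_le_real_sqrt (a := k)
        linarith

private theorem CloseFar_a_eq (z₀ : ℝ) (hz : 1 < z₀) (k : ℕ) (hk : (k : ℝ) ≤ z₀) :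
    CloseFar_a z₀ k = if k = 1 then 1 else 0 := by
  unfold CloseFar_a
  have h1 : ∀ d ∈ k.divisors, lam z₀ d = ((ArithmeticFunction.moebius d : ℤ) : ℝ) := by
    intro d hd
    apply lam_small z₀ hz
    have h2 : d ≤ k := Nat.divisor_le hd
    have h3 : (d : ℝ) ≤ k := by exact_mod_cast h2
    linarith
  rw [Finset.sum_congr rfl h1]
  have h4 : ∑ d ∈ k.divisors, (ArithmeticFunction.moebius d : ℤ) = if k = 1 then 1 else 0 := by
    rw [← ArithmeticFunction.coe_mul_zeta_apply, ArithmeticFunction.moebius_mul_coe_zeta,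
      ArithmeticFunction.one_apply]
  have h5 : ((∑ d ∈ k.divisors, (ArithmeticFunction.moebius d : ℤ) : ℤ) : ℝ) =
      ∑ d ∈ k.divisors, ((ArithmeticFunction.moebius d : ℤ) : ℝ) := by
    push_cast
    rfl
  rw [← h5, h4]
  split_ifs <;> simp

private theorem CloseFar_hasSum (z₀ : ℝ) (hz : 1 < z₀) (s : ℂ) (hs : s.re = 2) :
    HasSum (fun k : ℕ => if k = 0 then (0 : ℂ) else (CloseFar_a z₀ k : ℂ) / (k : ℂ) ^ s)
      (riemannZeta s * Mo z₀ s) := by
  have hs1 : 1 < s.re := by rw [hs]; norm_num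
  set f : ℕ → ℂ := fun n => (lam z₀ n : ℂ) with hf
  have hzero : ∀ n ∉ Finset.Icc 1 ⌊z₀ ^ 2⌋₊, LSeries.term f s n = 0 := by
    intro n hn
    rcases Nat.eq_zero_or_pos n with h | h
    · rw [h, LSeries.term_zero]
    · rw [LSeries.term_of_ne_zero (by omega)]
      have h1 : ⌊z₀ ^ 2⌋₊ < n := by
        by_contra h2
        apply hn
        rw [Finset.mem_Icc]
        omega
      have h2 : z₀ ^ 2 < n := (Nat.floor_lt (by positivity)).mp h1
      rw [hf]
      simp only []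
      rw [lam_eq_zero z₀ hz n h2.le]
      simp
  have hfs : LSeriesSummable f s := summable_of_ne_finset_zero hzero
  have hMo : LSeries f s = Mo z₀ s := by
    unfold LSeries Mo
    rw [tsum_eq_sum hzero]
    apply Finset.sum_congr rfl
    intro n hn
    rw [Finset.mem_Icc] at hn
    rw [LSeries.term_of_ne_zero (by omega), cpow_neg, div_eq_mul_inv]
  have h1s : LSeriesSummable 1 s := LSeriesSummable_one_iff.mpr hs1
  have hconv := LSeriesHasSum.convolution hfs.LSeriesHasSum h1s.LSeriesHasSum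
  rw [hMo, LSeries_one_eq_riemannZeta hs1, mul_comm] at hconv
  have hfun : (fun k : ℕ => if k = 0 then (0 : ℂ) else (CloseFar_a z₀ k : ℂ) / (k : ℂ) ^ s) =
      LSeries.term (LSeries.convolution f 1) s := by
    funext k
    by_cases hk : k = 0
    · rw [if_pos hk, hk, LSeries.term_zero]
    · rw [if_neg hk, LSeries.term_of_ne_zero hk, LSeries.convolution_def]
      simp only [Pi.one_apply, mul_one]
      have hsum : ∑ p ∈ k.divisorsAntidiagonal, f p.1 = ∑ d ∈ k.divisors, f d := by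
        rw [Nat.sum_divisorsAntidiagonal (fun d _ => f d)]
      rw [hsum]
      unfold CloseFar_a
      push_cast
      rfl
  rw [hfun]
  exact hconv

private theorem CloseFar_step (n : ℕ) (hn : 1 ≤ n) :
    1 / Real.sqrt (n + 1) ^ 3 ≤ 2 * (1 / Real.sqrt n - 1 / Real.sqrt (n + 1)) := by
  have hn0 : (0 : ℝ) < n := by exact_mod_cast hn
  set a := Real.sqrt n with ha
  set b := Real.sqrt (n + 1) with hb
  have ha0 : 0 < a := Real.sqrt_pos.mpr hn0
  have hb0 : 0 < b := Real.sqrt_pos.mpr (by positivity)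
  have hab : a ≤ b := Real.sqrt_le_sqrt (by linarith)
  have ha2 : a ^ 2 = n := Real.sq_sqrt hn0.le
  have hb2 : b ^ 2 = n + 1 := Real.sq_sqrt (by positivity)
  have h1 : (b - a) * (b + a) = 1 := by
    have : (b - a) * (b + a) = b ^ 2 - a ^ 2 := by ring
    rw [this, ha2, hb2]
    ring
  have h2 : 1 / a - 1 / b = 1 / (a * b * (b + a)) := by
    rw [div_sub_div _ _ ha0.ne' hb0.ne', div_eq_div_iff (by positivity) (by positivity)]
    calc (1 * b - a * 1) * (a * b * (b + a)) = ((b - a) * (b + a)) * (a * b) := by ring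
      _ = 1 * (a * b) := by rw [h1]
  rw [h2, mul_one_div, div_le_div_iff₀ (by positivity) (by positivity)]
  have h3 : a * b * (b + a) ≤ b * b * (b + b) := by
    apply mul_le_mul _ (by linarith) (by positivity) (by positivity)
    exact mul_le_mul_of_nonneg_right hab hb0.le
  calc 1 * (a * b * (b + a)) = a * b * (b + a) := one_mul _
    _ ≤ b * b * (b + b) := h3
    _ = 2 * b ^ 3 := by ring

private noncomputable def CloseFar_g (N k : ℕ) : ℝ :=
  if N < k then 4 * (1 / Real.sqrt ((k - 1 : ℕ) : ℝ) - 1 / Real.sqrt k) else 0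

private theorem CloseFar_g_nonneg (N k : ℕ) (hN : 1 ≤ N) : 0 ≤ CloseFar_g N k := by
  unfold CloseFar_g
  split_ifs with h
  · have h1 : (0 : ℝ) < ((k - 1 : ℕ) : ℝ) := by
      have : 0 < k - 1 := by omega
      exact_mod_cast this
    have h2 : ((k - 1 : ℕ) : ℝ) ≤ k := by exact_mod_cast Nat.sub_le k 1
    have h3 : 1 / Real.sqrt k ≤ 1 / Real.sqrt ((k - 1 : ℕ) : ℝ) :=
      one_div_le_one_div_of_le (Real.sqrt_pos.mpr h1) (Real.sqrt_le_sqrt h2)
    linarith
  · exact le_refl _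

private theorem CloseFar_g_hasSum (N : ℕ) (hN : 1 ≤ N) :
    HasSum (CloseFar_g N) (4 / Real.sqrt N) := by
  rw [hasSum_iff_tendsto_nat_of_nonneg (fun k => CloseFar_g_nonneg N k hN)]
  rw [← Filter.tendsto_add_atTop_iff_nat (N + 1)]
  have hpart : ∀ n : ℕ, ∑ k ∈ Finset.range (n + (N + 1)), CloseFar_g N k =
      4 / Real.sqrt N - 4 / Real.sqrt ((N + n : ℕ) : ℝ) := by
    intro n
    induction n with
    | zero =>
      rw [zero_add, add_zero, sub_self]
      apply Finset.sum_eq_zero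
      intro k hk
      rw [Finset.mem_range] at hk
      unfold CloseFar_g
      rw [if_neg (by omega)]
    | succ n ih =>
      have e : n + 1 + (N + 1) = (n + (N + 1)) + 1 := by ring
      rw [e, Finset.sum_range_succ, ih]
      unfold CloseFar_g
      rw [if_pos (by omega)]
      have e1 : n + (N + 1) - 1 = N + n := by omega
      have e2 : n + (N + 1) = N + (n + 1) := by omega
      rw [e1, e2]
      ring
  simp only [hpart]
  have h1 : Filter.Tendsto (fun n : ℕ => 4 / Real.sqrt ((N + n : ℕ) : ℝ)) Filter.atTop (nhds 0) := by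
    apply Filter.Tendsto.div_atTop tendsto_const_nhds
    apply Real.tendsto_sqrt_atTop.comp
    apply tendsto_natCast_atTop_atTop.comp
    apply Filter.tendsto_atTop_mono (f := fun n => n) (fun n => by omega) Filter.tendsto_id
  have h2 := (tendsto_const_nhds (x := 4 / Real.sqrt (N : ℝ))).sub h1
  rw [sub_zero] at h2
  exact h2

/-- `|ζ(s) M(s) - 1| ≤ 6 z₀^{-1/2}` for `Re s = 2`.

PROOF. `ζ(s) M(s) = ∑ a_k k^{-s}`, `a_k = ∑_{d ∣ k} lam d`, `a_1 = 1`, `a_k = ∑_{d∣k} μ(d) = 0` for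
`1 < k ≤ z₀` (`lam_small`), `|a_k| ≤ τ(k) ≤ 2√k`; `∑_{k > z₀} 2 k^{-3/2} ≤ 6 z₀^{-1/2}`. -/
theorem close_far (z₀ : ℝ) (hz : 2 ≤ z₀) (s : ℂ) (hs : s.re = 2) :
    ‖riemannZeta s * Mo z₀ s - 1‖ ≤ 6 * z₀ ^ (-(1 / 2) : ℝ) := by
  have hz1 : 1 < z₀ := by linarith
  set N := ⌊z₀⌋₊ with hN
  have hN2 : 2 ≤ N := Nat.le_floor (by exact_mod_cast hz)
  have hNz : (N : ℝ) ≤ z₀ := Nat.floor_le (by linarith)
  have hzN : z₀ < N + 1 := Nat.lt_floor_add_one z₀
  have hNR : (2 : ℝ) ≤ N := by exact_mod_cast hN2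
  have h1 := CloseFar_hasSum z₀ hz1 s hs
  have h2 : HasSum (fun k : ℕ => if k = 1 then (1 : ℂ) else 0) 1 := hasSum_ite_eq 1 1
  have h3 := h1.sub h2
  have h4 : ∀ k : ℕ, ‖(if k = 0 then (0 : ℂ) else (CloseFar_a z₀ k : ℂ) / (k : ℂ) ^ s) -
      (if k = 1 then (1 : ℂ) else 0)‖ ≤ CloseFar_g N k := by
    intro k
    by_cases hkN : k ≤ N
    · have hg : CloseFar_g N k = 0 := by
        unfold CloseFar_g
        rw [if_neg (by omega)]
      rw [hg]
      by_cases hk0 : k = 0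
      · rw [if_pos hk0, if_neg (by omega)]
        simp
      · have hkR : (k : ℝ) ≤ z₀ := by
          have : (k : ℝ) ≤ N := by exact_mod_cast hkN
          linarith
        rw [if_neg hk0, CloseFar_a_eq z₀ hz1 k hkR]
        by_cases hk1 : k = 1
        · rw [if_pos hk1, if_pos hk1, hk1]
          simp
        · rw [if_neg hk1, if_neg hk1]
          simp
    · have hk : N < k := by omega
      have hg : CloseFar_g N k = 4 * (1 / Real.sqrt ((k - 1 : ℕ) : ℝ) - 1 / Real.sqrt k) := by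
        unfold CloseFar_g
        rw [if_pos hk]
      rw [hg, if_neg (by omega), if_neg (by omega), sub_zero, norm_div,
        Complex.norm_natCast_cpow_of_pos (by omega), hs, Complex.norm_real, Real.norm_eq_abs]
      have hk0 : (0 : ℝ) < k := by
        have : 0 < k := by omega
        exact_mod_cast this
      have hstep := CloseFar_step (k - 1) (by omega)
      have hcast : (((k - 1 : ℕ) : ℝ) + 1) = k := by
        have : k - 1 + 1 = k := by omega
        exact_mod_cast this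
      rw [hcast] at hstep
      have hsq : Real.sqrt k ^ 2 = k := Real.sq_sqrt hk0.le
      have hs0 : 0 < Real.sqrt k := Real.sqrt_pos.mpr hk0
      have h5 : |CloseFar_a z₀ k| / (k : ℝ) ^ (2 : ℝ) ≤ 2 * (1 / Real.sqrt k ^ 3) := by
        have e : (k : ℝ) ^ (2 : ℝ) = Real.sqrt k ^ 4 := by
          have e1 : (k : ℝ) ^ (2 : ℝ) = (k : ℝ) ^ 2 := by
            rw [← Real.rpow_natCast]
            norm_num
          rw [e1]
          nth_rewrite 1 [← hsq]
          ring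
        rw [e, mul_one_div, div_le_div_iff₀ (by positivity) (by positivity)]
        calc |CloseFar_a z₀ k| * Real.sqrt k ^ 3 ≤ (2 * Real.sqrt k) * Real.sqrt k ^ 3 :=
              mul_le_mul_of_nonneg_right (CloseFar_abs z₀ hz1 k) (by positivity)
          _ = 2 * Real.sqrt k ^ 4 := by ring
      linarith
  have h5 := h3.norm_le_of_bounded (CloseFar_g_hasSum N (by omega)) h4
  refine h5.trans ?_
  have hz0 : 0 < z₀ := by linarith
  have e : z₀ ^ (-(1 / 2) : ℝ) = 1 / Real.sqrt z₀ := by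
    rw [Real.rpow_neg hz0.le, Real.sqrt_eq_rpow]
    exact (one_div _).symm
  rw [e, mul_one_div, div_le_div_iff₀ (Real.sqrt_pos.mpr (by linarith)) (Real.sqrt_pos.mpr hz0)]
  have h6 : Real.sqrt z₀ ≤ 3 / 2 * Real.sqrt N := by
    rw [Real.sqrt_le_left (by positivity), mul_pow, Real.sq_sqrt (by linarith)]
    linarith
  linarith

end Pool.Agent.H14.CO

end

section

/-!
# CO module MoB: mean square of the mollifier
-/

set_option autoImplicit false

namespace Pool.Agent.H14.CO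

open Set MeasureTheory Complex

/-- The coefficients of the mollifier at `1/2 + w`. -/
private noncomputable def MoB_a (z₀ : ℝ) (w : ℂ) (d : ℕ) : ℂ :=
  (lam z₀ d : ℂ) * (d : ℂ) ^ (-(1 / 2 + w))

private theorem MoB_Mo_eq (z₀ : ℝ) (w : ℂ) (t : ℝ) :
    Mo z₀ (pt w t) = ∑ n ∈ Finset.Icc 1 ⌊z₀ ^ 2⌋₊, MoB_a z₀ w n * (n : ℂ) ^ (-(t * I)) := by
  unfold Mo
  refine Finset.sum_congr rfl fun d hd => ?_
  have hd1 : 1 ≤ d := (Finset.mem_Icc.mp hd).1
  have hd0 : (d : ℂ) ≠ 0 := by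
    have : d ≠ 0 := by omega
    exact_mod_cast this
  unfold MoB_a pt
  rw [mul_assoc, ← Complex.cpow_add _ _ hd0]
  congr 2
  ring

private theorem MoB_norm_a (z₀ : ℝ) (w : ℂ) (d : ℕ) (hd : 1 ≤ d) :
    ‖MoB_a z₀ w d‖ ^ 2 = |lam z₀ d| ^ 2 * (d : ℝ) ^ (-(1 + 2 * w.re)) := by
  unfold MoB_a
  have hd0 : (0 : ℝ) < d := by exact_mod_cast hd
  rw [norm_mul, mul_pow, Complex.norm_real, Real.norm_eq_abs,
    Complex.norm_natCast_cpow_of_pos (by omega)]
  congr 1
  rw [← Real.rpow_natCast, ← Real.rpow_mul hd0.le]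
  congr 1
  simp
  ring

private theorem MoB_harm (N : ℕ) :
    ∑ d ∈ Finset.Icc 1 N, (1 / (d : ℝ)) ≤ 1 + Real.log N := by
  have h := harmonic_le_one_add_log N
  rw [harmonic_eq_sum_Icc] at h
  push_cast at h
  simpa [one_div] using h

/-- numerical facts about `z₀ = T ^ θ`. -/
private theorem MoB_basic (θ : ℝ) (hθ0 : 0 < θ) (hθ1 : θ ≤ 1 / 40) (T : ℝ) (hT : 256 ≤ T) :
    1 < T ^ θ ∧ (1 : ℝ) ≤ Real.log T ∧ 1 ≤ ⌊(T ^ θ) ^ 2⌋₊ ∧
    ((⌊(T ^ θ) ^ 2⌋₊ : ℕ) : ℝ) ≤ T ^ (2 * θ) ∧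
    Real.log ((⌊(T ^ θ) ^ 2⌋₊ : ℕ) : ℝ) ≤ 2 * θ * Real.log T ∧
    8 * (4 * ((⌊(T ^ θ) ^ 2⌋₊ : ℕ) : ℝ) * (1 + Real.log ((⌊(T ^ θ) ^ 2⌋₊ : ℕ) : ℝ)))
      ≤ T ^ (9 / 10 : ℝ) := by
  have hT1 : (1 : ℝ) < T := by linarith
  have hT0 : (0 : ℝ) < T := by linarith
  have hz : 1 < T ^ θ := Real.one_lt_rpow hT1 hθ0
  have hL : (1 : ℝ) ≤ Real.log T := by
    rw [Real.le_log_iff_exp_le hT0]
    have := Real.exp_one_lt_d9
    linarith
  have hsq : (T ^ θ) ^ 2 = T ^ (2 * θ) := by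
    rw [← Real.rpow_natCast, ← Real.rpow_mul hT0.le]
    congr 1
    push_cast
    ring
  have hN1 : 1 ≤ ⌊(T ^ θ) ^ 2⌋₊ := by
    rw [Nat.one_le_floor_iff]
    nlinarith only [hz]
  have hNle : ((⌊(T ^ θ) ^ 2⌋₊ : ℕ) : ℝ) ≤ T ^ (2 * θ) := by
    rw [← hsq]
    exact Nat.floor_le (by positivity)
  have hNpos : (0 : ℝ) < ((⌊(T ^ θ) ^ 2⌋₊ : ℕ) : ℝ) := by exact_mod_cast hN1
  have hlogN : Real.log ((⌊(T ^ θ) ^ 2⌋₊ : ℕ) : ℝ) ≤ 2 * θ * Real.log T := by
    have h1 := Real.log_le_log hNpos hNle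
    rwa [Real.log_rpow hT0] at h1
  refine ⟨hz, hL, hN1, hNle, hlogN, ?_⟩
  have h20 : T ^ (2 * θ) ≤ T ^ (1 / 20 : ℝ) :=
    Real.rpow_le_rpow_of_exponent_le hT1.le (by linarith only [hθ1])
  have hlog20 : Real.log T ≤ T ^ (1 / 20 : ℝ) / (1 / 20) :=
    Real.log_le_rpow_div hT0.le (by norm_num)
  have hone : (1 : ℝ) ≤ T ^ (1 / 20 : ℝ) := Real.one_le_rpow hT1.le (by norm_num)
  have hlog : Real.log ((⌊(T ^ θ) ^ 2⌋₊ : ℕ) : ℝ) ≤ T ^ (1 / 20 : ℝ) := by
    have : 2 * θ * Real.log T ≤ (1 / 20) * Real.log T := by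
      apply mul_le_mul_of_nonneg_right (by linarith only [hθ1]) (by linarith)
    linarith
  have hlog0 : 0 ≤ Real.log ((⌊(T ^ θ) ^ 2⌋₊ : ℕ) : ℝ) :=
    Real.log_nonneg (by exact_mod_cast hN1)
  have h10 : T ^ (1 / 20 : ℝ) * T ^ (1 / 20 : ℝ) = T ^ (1 / 10 : ℝ) := by
    rw [← Real.rpow_add hT0]
    norm_num
  have h910 : T ^ (9 / 10 : ℝ) = T ^ (1 / 10 : ℝ) * T ^ (8 / 10 : ℝ) := by
    rw [← Real.rpow_add hT0]
    norm_num
  have h64 : (64 : ℝ) ≤ T ^ (8 / 10 : ℝ) := by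
    have h1 : (256 : ℝ) ^ (8 / 10 : ℝ) ≤ T ^ (8 / 10 : ℝ) :=
      Real.rpow_le_rpow (by norm_num) hT (by norm_num)
    have h2 : (64 : ℝ) ≤ (256 : ℝ) ^ (8 / 10 : ℝ) := by
      have h3 : (256 : ℝ) = 2 ^ (8 : ℝ) := by
        rw [show (8 : ℝ) = ((8 : ℕ) : ℝ) by norm_num, Real.rpow_natCast]
        norm_num
      rw [h3, ← Real.rpow_mul (by norm_num)]
      have h4 : (64 : ℝ) = 2 ^ (6 : ℝ) := by
        rw [show (6 : ℝ) = ((6 : ℕ) : ℝ) by norm_num, Real.rpow_natCast]
        norm_num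
      rw [h4]
      exact Real.rpow_le_rpow_of_exponent_le (by norm_num) (by norm_num)
    linarith only [h1, h2]
  set n : ℝ := ((⌊(T ^ θ) ^ 2⌋₊ : ℕ) : ℝ) with hn
  set y : ℝ := T ^ (1 / 20 : ℝ) with hy
  have hny : n ≤ y := hNle.trans h20
  have h1 : n * (1 + Real.log n) ≤ y * (2 * y) := by
    apply mul_le_mul hny (by linarith only [hone, hlog]) (by linarith only [hlog0]) (by linarith only [hone])
  calc 8 * (4 * n * (1 + Real.log n)) = 32 * (n * (1 + Real.log n)) := by ring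
    _ ≤ 32 * (y * (2 * y)) := by linarith only [h1]
    _ = 64 * T ^ (1 / 10 : ℝ) := by rw [← h10]; ring
    _ ≤ T ^ (9 / 10 : ℝ) := by
        rw [h910]
        have : 0 < T ^ (1 / 10 : ℝ) := Real.rpow_pos_of_pos hT0 _
        nlinarith only [h64, h10]

/-- Right of the critical line without loss: for `Re w ≥ 0`, `≤ C W L`. -/
theorem mo_upper_right (θ : ℝ) (hθ0 : 0 < θ) (hθ1 : θ ≤ 1 / 40) : ∃ C : ℝ, 0 < C ∧ ∃ T₀ : ℝ, 1 < T₀ ∧
    ∀ T : ℝ, T₀ ≤ T → ∀ τ W : ℝ, T ^ (9 / 10 : ℝ) ≤ W → ∀ w : ℂ, 0 ≤ w.re →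
    Integrable (fun t : ℝ => ‖Mo (T ^ θ) (pt w t)‖ ^ 2 * gw τ W t) ∧
    ∫ t : ℝ, ‖Mo (T ^ θ) (pt w t)‖ ^ 2 * gw τ W t ≤ C * W * Real.log T := by
  refine ⟨4, by norm_num, 256, by norm_num, ?_⟩
  intro T hT τ W hW w hw
  obtain ⟨hz, hL, hN1, hNle, hlogN, hbig⟩ := MoB_basic θ hθ0 hθ1 T hT
  have hT0 : (0 : ℝ) < T := by linarith only [hT]
  have hW0 : 0 < W := lt_of_lt_of_le (Real.rpow_pos_of_pos hT0 _) hW
  set N : ℕ := ⌊(T ^ θ) ^ 2⌋₊ with hN
  have hNlog0 : 0 ≤ Real.log (N : ℝ) := Real.log_nonneg (by exact_mod_cast hN1)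
  have hcond : 4 * (N : ℝ) * (1 + Real.log N) ≤ W := by
    have : 0 ≤ 4 * (N : ℝ) * (1 + Real.log N) := by positivity
    linarith
  obtain ⟨hint, -, hup⟩ := gauss_mvt N hN1 (MoB_a (T ^ θ) w) W τ hcond
  have hfun : (fun t : ℝ => ‖Mo (T ^ θ) (pt w t)‖ ^ 2 * gw τ W t) =
      fun t : ℝ => ‖∑ n ∈ Finset.Icc 1 N, MoB_a (T ^ θ) w n * (n : ℂ) ^ (-(t * I))‖ ^ 2
        * gw τ W t := by
    funext t
    rw [MoB_Mo_eq]
  rw [hfun]
  refine ⟨hint, hup.trans ?_⟩
  have hsum : ∑ n ∈ Finset.Icc 1 N, ‖MoB_a (T ^ θ) w n‖ ^ 2 ≤ 1 + Real.log N := by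
    refine le_trans (Finset.sum_le_sum fun d hd => ?_) (MoB_harm N)
    have hd1 : 1 ≤ d := (Finset.mem_Icc.mp hd).1
    have hd0 : (0 : ℝ) < d := by exact_mod_cast hd1
    have hd1' : (1 : ℝ) ≤ d := by exact_mod_cast hd1
    rw [MoB_norm_a _ _ _ hd1]
    have hl : |lam (T ^ θ) d| ^ 2 ≤ 1 := by
      have := abs_lam_le (T ^ θ) hz d
      have h0 := abs_nonneg (lam (T ^ θ) d)
      nlinarith only [hθ0, this, h0]
    have hpow : (d : ℝ) ^ (-(1 + 2 * w.re)) ≤ 1 / (d : ℝ) := by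
      have h1 : (d : ℝ) ^ (-(1 + 2 * w.re)) ≤ (d : ℝ) ^ (-1 : ℝ) :=
        Real.rpow_le_rpow_of_exponent_le hd1' (by linarith)
      rwa [Real.rpow_neg_one, ← one_div] at h1
    calc |lam (T ^ θ) d| ^ 2 * (d : ℝ) ^ (-(1 + 2 * w.re))
        ≤ 1 * (1 / (d : ℝ)) := by
          apply mul_le_mul hl hpow (by positivity) (by norm_num)
      _ = _ := one_mul _
  have hlog1 : 1 + Real.log (N : ℝ) ≤ 2 * Real.log T := by
    have : 2 * θ * Real.log T ≤ 1 * Real.log T := by
      apply mul_le_mul_of_nonneg_right (by linarith only [hθ1]) (by linarith only [hL])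
    linarith only [hL, hlogN, this]
  calc 2 * W * ∑ n ∈ Finset.Icc 1 N, ‖MoB_a (T ^ θ) w n‖ ^ 2
      ≤ 2 * W * (2 * Real.log T) := by
        apply mul_le_mul_of_nonneg_left (hsum.trans hlog1) (by positivity)
    _ = 4 * W * Real.log T := by ring

private theorem MoB_inv_sq (N : ℕ) : ∑ b ∈ Finset.Icc 1 N, (1 / (b : ℝ) ^ 2) ≤ 2 := by
  have h : ∀ N : ℕ, 1 ≤ N → ∑ b ∈ Finset.Icc 1 N, (1 / (b : ℝ) ^ 2) ≤ 2 - 1 / (N : ℝ) := by
    intro N hN
    induction N, hN using Nat.le_induction with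
    | base => norm_num
    | succ n hn ih =>
      rw [Finset.sum_Icc_succ_top (by omega)]
      have hn0 : (0 : ℝ) < n := by exact_mod_cast hn
      push_cast
      have h1 : 1 / ((n : ℝ) + 1) ^ 2 ≤ 1 / (n : ℝ) - 1 / ((n : ℝ) + 1) := by
        rw [div_sub_div _ _ (by positivity) (by positivity), div_le_div_iff₀ (by positivity) (by positivity)]
        nlinarith
      linarith
  rcases Nat.eq_zero_or_pos N with h0 | h0
  · subst h0
    simp
  · have h1 := h N h0
    have : (0 : ℝ) ≤ 1 / (N : ℝ) := by positivity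
    linarith only [h1, this]

/-- `(1/2) log (N + 1) ≤ ∑_{d ≤ N} μ²(d)/d`. -/
private theorem MoB_sqfree (N : ℕ) :
    Real.log (N + 1) ≤ 2 * ∑ d ∈ (Finset.Icc 1 N).filter Squarefree, (1 / (d : ℝ)) := by
  have hf : ∀ n : ℕ, ∃ p : ℕ × ℕ, p.2 ^ 2 * p.1 = n ∧ Squarefree p.1 := by
    intro n
    obtain ⟨a, b, hab, ha⟩ := Nat.sq_mul_squarefree n
    exact ⟨(a, b), hab, ha⟩
  choose g hg1 hg2 using hf
  have hlog : Real.log (N + 1) ≤ ∑ n ∈ Finset.Icc 1 N, (1 / (n : ℝ)) := by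
    have h := log_add_one_le_harmonic N
    rw [harmonic_eq_sum_Icc] at h
    push_cast at h
    simpa [one_div] using h
  have hinj : Set.InjOn g (Finset.Icc 1 N : Finset ℕ) := by
    intro a _ b _ hab
    rw [← hg1 a, ← hg1 b, hab]
  have hsum : ∑ n ∈ Finset.Icc 1 N, (1 / (n : ℝ)) ≤
      ∑ p ∈ ((Finset.Icc 1 N).filter Squarefree) ×ˢ (Finset.Icc 1 N),
        (1 / (p.1 : ℝ)) * (1 / (p.2 : ℝ) ^ 2) := by
    have h1 : ∑ n ∈ Finset.Icc 1 N, (1 / (n : ℝ)) =
        ∑ n ∈ Finset.Icc 1 N, (1 / ((g n).1 : ℝ)) * (1 / ((g n).2 : ℝ) ^ 2) := by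
      refine Finset.sum_congr rfl fun n _ => ?_
      have : (n : ℝ) = ((g n).2 : ℝ) ^ 2 * ((g n).1 : ℝ) := by
        exact_mod_cast (hg1 n).symm
      rw [this, one_div_mul_one_div, mul_comm]
    rw [h1, ← Finset.sum_image (f := fun p : ℕ × ℕ => (1 / (p.1 : ℝ)) * (1 / (p.2 : ℝ) ^ 2)) hinj]
    refine Finset.sum_le_sum_of_subset_of_nonneg ?_ (fun p _ _ => by positivity)
    intro p hp
    obtain ⟨n, hn, rfl⟩ := Finset.mem_image.mp hp
    have hn1 := (Finset.mem_Icc.mp hn).1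
    have hnN := (Finset.mem_Icc.mp hn).2
    have e := hg1 n
    have hp1 : (g n).1 ≠ 0 := by
      intro h
      rw [h, mul_zero] at e
      omega
    have hp2 : (g n).2 ≠ 0 := by
      intro h
      rw [h] at e
      simp at e
      omega
    have hle1 : (g n).1 ≤ n := by
      calc (g n).1 = 1 * (g n).1 := (one_mul _).symm
        _ ≤ (g n).2 ^ 2 * (g n).1 := Nat.mul_le_mul_right _ (Nat.one_le_pow _ _ (by omega))
        _ = n := e
    have hle2 : (g n).2 ≤ n := by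
      calc (g n).2 ≤ (g n).2 ^ 2 := Nat.le_self_pow (by norm_num) _
        _ = (g n).2 ^ 2 * 1 := (mul_one _).symm
        _ ≤ (g n).2 ^ 2 * (g n).1 := Nat.mul_le_mul_left _ (by omega)
        _ = n := e
    rw [Finset.mem_product, Finset.mem_filter, Finset.mem_Icc, Finset.mem_Icc]
    exact ⟨⟨⟨by omega, by omega⟩, hg2 n⟩, ⟨by omega, by omega⟩⟩
  rw [Finset.sum_product] at hsum
  simp_rw [← Finset.mul_sum] at hsum
  rw [← Finset.sum_mul] at hsum
  have h2 := MoB_inv_sq N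
  have h3 : 0 ≤ ∑ d ∈ (Finset.Icc 1 N).filter Squarefree, (1 / (d : ℝ)) :=
    Finset.sum_nonneg fun _ _ => by positivity
  calc Real.log (N + 1) ≤ _ := hlog
    _ ≤ _ := hsum
    _ ≤ (∑ d ∈ (Finset.Icc 1 N).filter Squarefree, (1 / (d : ℝ))) * 2 :=
        mul_le_mul_of_nonneg_left h2 h3
    _ = _ := mul_comm _ _

/-- PROOF. `gauss_mvt` (lower) with width `W₁ = W/8` at `w = 0`:
`≥ (3/2) W₁ S`, `S = ∑ |lam d|²/d ≥ ∑_{d ≤ z₀} μ²(d)/d ≥ (1/2) log z₀`
(`∑_{n≤x} 1/n ≤ (∑_{d≤x} μ²(d)/d)(∑ 1/m²)`). The part `|t-τ| > W` of that Gaussian integral is at most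
`e^{-32} ∫ ‖Mo‖² gw τ (√2 W₁) ≤ e^{-32} 2√2 W₁ S` since
`gw τ W₁ t ≤ e^{-32} gw τ (√2 W₁) t` for `|t - τ| ≥ 8 W₁`. -/
theorem mo_lower (θ : ℝ) (hθ0 : 0 < θ) (hθ1 : θ ≤ 1 / 40) : ∃ c : ℝ, 0 < c ∧ ∃ T₀ : ℝ, 1 < T₀ ∧
    ∀ T : ℝ, T₀ ≤ T → ∀ τ W : ℝ, T ^ (9 / 10 : ℝ) ≤ W →
    c * W * Real.log T ≤ ∫ t in (τ - W)..(τ + W), ‖Mo (T ^ θ) (pt 0 t)‖ ^ 2 := by
  refine ⟨θ / 16, by positivity, 256, by norm_num, ?_⟩
  intro T hT τ W hW
  obtain ⟨hz, hL, hN1, hNle, hlogN, hbig⟩ := MoB_basic θ hθ0 hθ1 T hT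
  have hT0 : (0 : ℝ) < T := by linarith only [hT]
  have hW0 : 0 < W := lt_of_lt_of_le (Real.rpow_pos_of_pos hT0 _) hW
  set N : ℕ := ⌊(T ^ θ) ^ 2⌋₊ with hN
  have hNlog0 : 0 ≤ Real.log (N : ℝ) := Real.log_nonneg (by exact_mod_cast hN1)
  set W₁ : ℝ := W / 8 with hW₁
  have hW₁0 : 0 < W₁ := by positivity
  have hcond1 : 4 * (N : ℝ) * (1 + Real.log N) ≤ W₁ := by
    rw [hW₁]
    linarith
  have hs2 : (1 : ℝ) ≤ Real.sqrt 2 := by
    rw [Real.one_le_sqrt]
    norm_num
  have hs2' : Real.sqrt 2 ≤ 2 := by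
    rw [Real.sqrt_le_left (by norm_num)]
    norm_num
  have hcond2 : 4 * (N : ℝ) * (1 + Real.log N) ≤ Real.sqrt 2 * W₁ := by
    nlinarith only [hW, hW0, hbig, hW₁, hs2]
  obtain ⟨hint1, hlow, -⟩ := gauss_mvt N hN1 (MoB_a (T ^ θ) 0) W₁ τ hcond1
  obtain ⟨hint2, -, hup⟩ := gauss_mvt N hN1 (MoB_a (T ^ θ) 0) (Real.sqrt 2 * W₁) τ hcond2
  set S : ℝ := ∑ n ∈ Finset.Icc 1 N, ‖MoB_a (T ^ θ) 0 n‖ ^ 2 with hS
  have hS0 : 0 ≤ S := Finset.sum_nonneg fun _ _ => by positivity
  set f : ℝ → ℝ := fun t => ‖∑ n ∈ Finset.Icc 1 N, MoB_a (T ^ θ) 0 n * (n : ℂ) ^ (-(t * I))‖ ^ 2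
    with hf
  have hfeq : ∀ t : ℝ, f t = ‖Mo (T ^ θ) (pt 0 t)‖ ^ 2 := fun t => by
    rw [MoB_Mo_eq]
  have hf0 : ∀ t, 0 ≤ f t := fun t => by positivity
  have hfc : Continuous f := by
    have : f = fun t : ℝ => ‖Mo (T ^ θ) (pt 0 t)‖ ^ 2 := funext hfeq
    rw [this]
    have hpt : Continuous (fun t : ℝ => pt 0 t) := by
      unfold pt
      fun_prop
    exact ((continuous_Mo (T ^ θ)).comp hpt).norm.pow 2
  -- lower bound of S
  have hSlow : θ * Real.log T ≤ 2 * S := by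
    have h1 := MoB_sqfree ⌊T ^ θ⌋₊
    have h2 : θ * Real.log T ≤ Real.log ((⌊T ^ θ⌋₊ : ℝ) + 1) := by
      rw [← Real.log_rpow hT0]
      exact Real.log_le_log (by positivity) (Nat.lt_floor_add_one _).le
    have h3 : ∑ d ∈ (Finset.Icc 1 ⌊T ^ θ⌋₊).filter Squarefree, (1 / (d : ℝ)) ≤ S := by
      have hsub : (Finset.Icc 1 ⌊T ^ θ⌋₊).filter Squarefree ⊆ Finset.Icc 1 N := by
        intro d hd
        have hd' := (Finset.mem_filter.mp hd).1
        rw [Finset.mem_Icc] at hd' ⊢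
        refine ⟨hd'.1, hd'.2.trans ?_⟩
        rw [hN]
        apply Nat.floor_le_floor
        nlinarith only [hz]
      calc ∑ d ∈ (Finset.Icc 1 ⌊T ^ θ⌋₊).filter Squarefree, (1 / (d : ℝ))
          = ∑ d ∈ (Finset.Icc 1 ⌊T ^ θ⌋₊).filter Squarefree, ‖MoB_a (T ^ θ) 0 d‖ ^ 2 := by
            refine Finset.sum_congr rfl fun d hd => ?_
            obtain ⟨hd', hsq⟩ := Finset.mem_filter.mp hd
            rw [Finset.mem_Icc] at hd'
            have hdle : (d : ℝ) ≤ T ^ θ := (Nat.le_floor_iff (by positivity)).mp hd'.2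
            rw [MoB_norm_a _ _ _ hd'.1, lam_small (T ^ θ) hz d hdle]
            have hmu : |((ArithmeticFunction.moebius d : ℤ) : ℝ)| ^ 2 = 1 := by
              rw [sq_abs]
              have : (ArithmeticFunction.moebius d : ℤ) ^ 2 = 1 := by
                rw [ArithmeticFunction.moebius_sq]
                simp [hsq]
              exact_mod_cast this
            rw [hmu, one_mul]
            simp [Real.rpow_neg_one]
        _ ≤ S := Finset.sum_le_sum_of_subset_of_nonneg hsub (fun _ _ _ => by positivity)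
    linarith only [h1, h2, h3]
  -- pointwise inequality
  have hpt : ∀ t : ℝ, f t * gw τ W₁ t ≤
      (Set.Ioc (τ - W) (τ + W)).indicator f t
        + Real.exp (-32) * (f t * gw τ (Real.sqrt 2 * W₁) t) := by
    intro t
    have hg1 : gw τ W₁ t ≤ 1 := by
      unfold gw
      rw [Real.exp_le_one_iff]
      have : 0 ≤ ((t - τ) / W₁) ^ 2 := by positivity
      linarith only [this]
    by_cases ht : t ∈ Set.Ioc (τ - W) (τ + W)
    · rw [Set.indicator_of_mem ht]
      have h1 : f t * gw τ W₁ t ≤ f t * 1 := mul_le_mul_of_nonneg_left hg1 (hf0 t)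
      have h2 : 0 ≤ Real.exp (-32) * (f t * gw τ (Real.sqrt 2 * W₁) t) := by
        have : 0 ≤ gw τ (Real.sqrt 2 * W₁) t := (Real.exp_pos _).le
        have := hf0 t
        positivity
      linarith only [h1, h2]
    · rw [Set.indicator_of_notMem ht, zero_add]
      have h8 : 64 ≤ ((t - τ) / W₁) ^ 2 := by
        rw [Set.mem_Ioc, not_and_or, not_lt, not_le] at ht
        have habs : W ≤ |t - τ| := by
          rcases ht with h | h
          · rw [le_abs]
            right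
            linarith only [h]
          · rw [le_abs]
            left
            linarith only [h]
        rw [div_pow, le_div_iff₀ (by positivity), ← sq_abs (t - τ)]
        have : W₁ = W / 8 := rfl
        rw [this]
        have h3 : W ^ 2 ≤ |t - τ| ^ 2 := by
          apply pow_le_pow_left₀ hW0.le habs
        nlinarith only [h3]
      have hgle : gw τ W₁ t ≤ Real.exp (-32) * gw τ (Real.sqrt 2 * W₁) t := by
        unfold gw
        rw [← Real.exp_add]
        apply Real.exp_le_exp.mpr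
        have hsq2 : Real.sqrt 2 ^ 2 = 2 := Real.sq_sqrt (by norm_num)
        have : ((t - τ) / (Real.sqrt 2 * W₁)) ^ 2 = ((t - τ) / W₁) ^ 2 / 2 := by
          rw [div_pow, div_pow, mul_pow, hsq2]
          field_simp
        rw [this]
        linarith only [h8]
      calc f t * gw τ W₁ t ≤ f t * (Real.exp (-32) * gw τ (Real.sqrt 2 * W₁) t) :=
            mul_le_mul_of_nonneg_left hgle (hf0 t)
        _ = _ := by ring
  have hindint : Integrable ((Set.Ioc (τ - W) (τ + W)).indicator f) := by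
    rw [integrable_indicator_iff measurableSet_Ioc]
    exact (hfc.integrableOn_Icc (a := τ - W) (b := τ + W)).mono_set Set.Ioc_subset_Icc_self
  have hmain : ∫ t : ℝ, f t * gw τ W₁ t ≤
      (∫ t in (τ - W)..(τ + W), f t)
        + Real.exp (-32) * ∫ t : ℝ, f t * gw τ (Real.sqrt 2 * W₁) t := by
    have h1 : ∫ t : ℝ, f t * gw τ W₁ t ≤ ∫ t : ℝ, ((Set.Ioc (τ - W) (τ + W)).indicator f t
        + Real.exp (-32) * (f t * gw τ (Real.sqrt 2 * W₁) t)) :=
      integral_mono hint1 (hindint.add (hint2.const_mul _)) hpt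
    rw [integral_add hindint (hint2.const_mul _), integral_const_mul,
      integral_indicator measurableSet_Ioc] at h1
    rwa [intervalIntegral.integral_of_le (by linarith only [hW0])]
  have hfin : ∫ t in (τ - W)..(τ + W), ‖Mo (T ^ θ) (pt 0 t)‖ ^ 2 = ∫ t in (τ - W)..(τ + W), f t := by
    congr 1
    funext t
    exact (hfeq t).symm
  rw [hfin]
  have he : Real.exp (-32) ≤ 1 / 33 := by
    have h1 : (33 : ℝ) ≤ Real.exp 32 := by
      have := Real.add_one_le_exp (32 : ℝ)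
      linarith only [this]
    rw [Real.exp_neg, ← one_div]
    exact one_div_le_one_div_of_le (by norm_num) h1
  have he0 : 0 ≤ Real.exp (-32) := (Real.exp_pos _).le
  have hI2 : ∫ t : ℝ, f t * gw τ (Real.sqrt 2 * W₁) t ≤ 4 * W₁ * S := by
    refine hup.trans ?_
    have : 2 * (Real.sqrt 2 * W₁) ≤ 4 * W₁ := by nlinarith only [hθ1, hW0, hW₁, hs2, hs2']
    exact mul_le_mul_of_nonneg_right this hS0
  have hWS : 0 ≤ W₁ * S := by positivity
  have h4 : Real.exp (-32) * ∫ t : ℝ, f t * gw τ (Real.sqrt 2 * W₁) t ≤ 1 / 33 * (4 * (W₁ * S)) := by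
    calc Real.exp (-32) * ∫ t : ℝ, f t * gw τ (Real.sqrt 2 * W₁) t
        ≤ Real.exp (-32) * (4 * W₁ * S) := mul_le_mul_of_nonneg_left hI2 he0
      _ ≤ 1 / 33 * (4 * (W₁ * S)) := by
        rw [mul_assoc 4]
        exact mul_le_mul_of_nonneg_right he (by positivity)
  have h5 : W₁ * S ≤ ∫ t in (τ - W)..(τ + W), f t := by
    have h6 : 3 / 2 * W₁ * S = 3 / 2 * (W₁ * S) := by ring
    rw [h6] at hlow
    linarith only [hlow, hmain, hWS, h4]
  have h7 : θ / 16 * W * Real.log T ≤ W₁ * S := by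
    have h8 : W₁ * S = W / 16 * (2 * S) := by
      rw [hW₁]
      ring
    rw [h8]
    calc θ / 16 * W * Real.log T = W / 16 * (θ * Real.log T) := by ring
      _ ≤ W / 16 * (2 * S) := mul_le_mul_of_nonneg_left hSlow (by positivity)
  exact h7.trans h5

end Pool.Agent.H14.CO

end

section

/-!
# CO: supremum of `ζ` on a small disc by mean squares on two vertical lines
-/

set_option autoImplicit false

namespace Pool.Agent.H14.CO

open Set MeasureTheory Complex

/-- weight -/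
noncomputable def qk (R y : ℝ) : ℝ := 1 / R * ((1 + |y| / R) ^ 32)⁻¹ * Real.exp (-(y ^ 2) / 2)

/-- mean square on the two lines -/
noncomputable def Qf (R t : ℝ) : ℝ :=
  ∫ y : ℝ, qk R y * (‖riemannZeta (pt (-(8 * R) : ℝ) (t + y))‖ ^ 2 +
    ‖riemannZeta (pt (8 * R : ℝ) (t + y))‖ ^ 2)

theorem qk_nonneg (R y : ℝ) (hR : 0 < R) : 0 ≤ qk R y := by
  unfold qk; positivity

theorem continuous_qk (R : ℝ) (hR : 0 < R) : Continuous (qk R) := by
  unfold qk
  have : ∀ y : ℝ, (1 + |y| / R) ^ 32 ≠ 0 := fun y => by positivity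
  fun_prop (disch := assumption)

/-- the kernel is bounded by the weight -/
theorem kern_le (R v y σ : ℝ) (hR : 0 < R) (hR1 : R ≤ 1 / 100) (hv : |v| ≤ 6 * R)
    (hσ1 : 2 * R ≤ |σ|) (hσ2 : |σ| ≤ 14 * R) :
    ‖kn (1 / R) (σ + y * I) / (σ + y * I)‖ ≤
      (2 ^ 32 * Real.exp (32 * 14 + 2) * 7 ^ 32) * qk R (v + y) := by
  have hσ0 : 0 < |σ| := by linarith [mul_pos (two_pos : (0 : ℝ) < 2) hR]
  have hk := norm_kn_le (1 / R) (by positivity) (σ + y * I)
  have hre : ((σ : ℂ) + y * I).re = σ := by simp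
  have him : ((σ : ℂ) + y * I).im = y := by simp
  rw [hre, him] at hk
  have hny : |y| ≤ ‖(σ : ℂ) + y * I‖ := by
    have := Complex.abs_im_le_norm ((σ : ℂ) + y * I)
    rwa [him] at this
  have hnσ : |σ| ≤ ‖(σ : ℂ) + y * I‖ := by
    have := Complex.abs_re_le_norm ((σ : ℂ) + y * I)
    rwa [hre] at this
  -- lower bound of the weight factor
  have h1 : (1 + |y| / R) ^ 32 ≤ (1 + 1 / R * ‖(σ : ℂ) + y * I‖) ^ 32 := by
    apply pow_le_pow_left₀ (by positivity)
    have : |y| / R = 1 / R * |y| := by ring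
    rw [this]
    gcongr
  have h2 : ‖kn (1 / R) (σ + y * I)‖ ≤ 2 ^ 32 * Real.exp (32 * (1 / R) * |σ| + σ ^ 2 - y ^ 2) *
      ((1 + |y| / R) ^ 32)⁻¹ := by
    rw [← div_eq_mul_inv, le_div_iff₀ (by positivity)]
    exact (mul_le_mul_of_nonneg_left h1 (norm_nonneg _)).trans hk
  have h3 : Real.exp (32 * (1 / R) * |σ| + σ ^ 2 - y ^ 2) ≤
      Real.exp (32 * 14 + 2) * Real.exp (-((v + y) ^ 2) / 2) := by
    rw [← Real.exp_add]
    apply Real.exp_le_exp.2
    have e1 : 32 * (1 / R) * |σ| ≤ 32 * 14 := by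
      have e10 : 1 / R * |σ| ≤ 14 := by
        rw [one_div, inv_mul_le_iff₀ hR]; linarith
      have e11 : 32 * (1 / R) * |σ| = 32 * (1 / R * |σ|) := by ring
      rw [e11]
      exact mul_le_mul_of_nonneg_left e10 (by norm_num)
    have e2 : σ ^ 2 ≤ 1 := by
      rw [← sq_abs]
      have : |σ| ≤ 1 := by linarith
      exact pow_le_one₀ (abs_nonneg σ) this
    have e3 : v ^ 2 ≤ 1 := by
      rw [← sq_abs]
      have : |v| ≤ 1 := by linarith
      exact pow_le_one₀ (abs_nonneg v) this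
    have e0 : (v + y) ^ 2 = 2 * v ^ 2 + 2 * y ^ 2 - (v - y) ^ 2 := by ring
    rw [e0]
    have e4 := sq_nonneg (v - y)
    linarith only [e1, e2, e3, e4]
  have h4 : ((1 + |y| / R) ^ 32)⁻¹ ≤ 7 ^ 32 * ((1 + |v + y| / R) ^ 32)⁻¹ := by
    rw [← div_eq_mul_inv, le_div_iff₀ (by positivity), inv_mul_le_iff₀ (by positivity), ← mul_pow]
    apply pow_le_pow_left₀ (by positivity)
    have e4 : |v + y| ≤ 6 * R + |y| := (abs_add_le v y).trans (by linarith)
    have e5 : |v + y| / R ≤ 6 + |y| / R := by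
      rw [div_le_iff₀ hR]
      have : (6 + |y| / R) * R = 6 * R + |y| := by field_simp
      rw [this]; exact e4
    have e6 : 0 ≤ |y| / R := by positivity
    linarith only [e5, e6]
  rw [norm_div]
  calc ‖kn (1 / R) (σ + y * I)‖ / ‖(σ : ℂ) + y * I‖
      ≤ ‖kn (1 / R) (σ + y * I)‖ / R := by
        apply div_le_div_of_nonneg_left (norm_nonneg _) hR
        linarith
    _ ≤ (2 ^ 32 * (Real.exp (32 * 14 + 2) * Real.exp (-((v + y) ^ 2) / 2)) *
        (7 ^ 32 * ((1 + |v + y| / R) ^ 32)⁻¹)) / R := by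
        apply div_le_div_of_nonneg_right _ hR.le
        refine h2.trans ?_
        exact mul_le_mul (mul_le_mul_of_nonneg_left h3 (by positivity)) h4 (by positivity)
          (by positivity)
    _ = _ := by unfold qk; ring

/-- polynomial growth of `ζ` on the strip -/
theorem zeta_strip : ∃ A : ℝ, 0 < A ∧ ∀ w : ℂ, |w.re| ≤ 1 / 4 → ∀ t : ℝ,
    ‖riemannZeta (1 / 2 + t * I + w)‖ ≤ A * (1 + |t + w.im|) ^ 4 := by
  obtain ⟨C, hC, hg⟩ := Zt_growth 1 le_rfl
  refine ⟨4 * (C * 3 ^ 4), by positivity, ?_⟩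
  intro w hw t
  set s : ℂ := 1 / 2 + t * I + w with hs
  have hre : s.re = 1 / 2 + w.re := by simp [hs]
  have him : s.im = t + w.im := by simp [hs]
  rw [abs_le] at hw
  have hs1 : s ≠ 1 := by
    intro h
    have := congrArg Complex.re h
    rw [hre, Complex.one_re] at this
    linarith
  have h1 : 1 / 4 ≤ ‖s - 1‖ := by
    have h2 := Complex.abs_re_le_norm (s - 1)
    rw [Complex.sub_re, hre, Complex.one_re] at h2
    refine le_trans ?_ h2
    rw [le_abs]
    right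
    linarith
  have h3 := hg s (by rw [hre]; linarith)
  rw [Zt_eq s hs1, norm_mul] at h3
  have h4 : ‖s‖ ≤ 1 + |t + w.im| := by
    refine (Complex.norm_le_abs_re_add_abs_im _).trans ?_
    rw [hre, him, abs_of_nonneg (by linarith)]
    linarith
  have h5 : (1 + ‖s‖) ^ ((1 : ℝ) + 3) ≤ (3 * (1 + |t + w.im|)) ^ 4 := by
    have : ((1 : ℝ) + 3) = ((4 : ℕ) : ℝ) := by norm_num
    rw [this, Real.rpow_natCast]
    apply pow_le_pow_left₀ (by positivity)
    have := abs_nonneg (t + w.im)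
    linarith
  have h6 : 1 / 4 * ‖riemannZeta s‖ ≤ C * (3 * (1 + |t + w.im|)) ^ 4 :=
    (mul_le_mul_of_nonneg_right h1 (norm_nonneg _)).trans
      (h3.trans (mul_le_mul_of_nonneg_left h5 hC.le))
  calc ‖riemannZeta s‖ = 4 * (1 / 4 * ‖riemannZeta s‖) := by ring
    _ ≤ 4 * (C * (3 * (1 + |t + w.im|)) ^ 4) := by linarith
    _ = _ := by ring

theorem pt_eq (x t y : ℝ) : pt (x : ℝ) (t + y : ℝ) = 1 / 2 + t * I + (x + y * I) := by
  unfold pt; push_cast; ring

theorem continuous_zeta_line (x : ℝ) (hx : |x| ≤ 1 / 4) :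
    Continuous (fun t : ℝ => riemannZeta (pt (x : ℝ) t)) := by
  rw [continuous_iff_continuousAt]
  intro t
  have h1 : pt (x : ℝ) t ≠ 1 := by
    intro h
    have := congrArg Complex.re h
    rw [abs_le] at hx
    simp [pt] at this
    linarith
  have h2 : Continuous fun t : ℝ => pt (x : ℝ) t := by unfold pt; fun_prop
  exact (differentiableAt_riemannZeta h1).continuousAt.comp (f := fun t : ℝ => pt (x : ℝ) t)
    h2.continuousAt

theorem integrable_qz (R x t : ℝ) (hR : 0 < R) (hx : |x| ≤ 1 / 4) :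
    Integrable fun y : ℝ => qk R y * ‖riemannZeta (pt (x : ℝ) (t + y))‖ ^ 2 := by
  obtain ⟨A, hA, hAb⟩ := zeta_strip
  have hg : Integrable fun y : ℝ => (1 / R * (A ^ 2 * (1 + |t|) ^ 8)) *
      ((1 + |y|) ^ 8 * Real.exp (-(y ^ 2) / 2)) := by
    apply Integrable.const_mul
    have h1 : Integrable fun y : ℝ => (1 + |y|) ^ 8 * Real.exp (-(1 / 2 : ℝ) * y ^ 2) := by
      have h2 : ∀ y : ℝ, (1 + |y|) ^ 8 * Real.exp (-(1 / 2 : ℝ) * y ^ 2) ≤
          (2 ^ 8 * (1 * Real.exp (-(1 / 2 : ℝ) * y ^ 2))) +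
            2 ^ 8 * (y ^ 8 * Real.exp (-(1 / 2 : ℝ) * y ^ 2)) := by
        intro y
        have h3 : (1 + |y|) ^ 8 ≤ 2 ^ 8 * (1 + y ^ 8) := by
          have h4 : (1 + |y|) ^ 8 ≤ 2 ^ (8 - 1) * (1 ^ 8 + |y| ^ 8) :=
            add_pow_le (by norm_num) (abs_nonneg y) 8
          have h5 : |y| ^ 8 = y ^ 8 := by
            rw [← abs_pow]; exact abs_of_nonneg (by positivity)
          rw [h5] at h4
          have h6 : 0 ≤ y ^ 8 := by positivity
          norm_num at h4 ⊢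
          linarith
        have := mul_le_mul_of_nonneg_right h3 (Real.exp_pos (-(1 / 2 : ℝ) * y ^ 2)).le
        linarith
      have h7 : Integrable fun y : ℝ => Real.exp (-(1 / 2 : ℝ) * y ^ 2) :=
        integrable_exp_neg_mul_sq (by norm_num)
      have h8 : Integrable fun y : ℝ => y ^ 8 * Real.exp (-(1 / 2 : ℝ) * y ^ 2) := by
        have := integrable_rpow_mul_exp_neg_mul_sq (b := 1 / 2) (by norm_num) (s := 8) (by norm_num)
        refine this.congr (Filter.Eventually.of_forall fun y => ?_)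
        simp only
        congr 1
        have : (8 : ℝ) = ((8 : ℕ) : ℝ) := by norm_num
        rw [this, Real.rpow_natCast]
      refine Integrable.mono' (((h7.const_mul (2 ^ 8)).add (h8.const_mul (2 ^ 8))))
        (by fun_prop) (Filter.Eventually.of_forall fun y => ?_)
      rw [Real.norm_eq_abs, abs_of_nonneg (by positivity)]
      have := h2 y
      simpa using this
    refine h1.congr (Filter.Eventually.of_forall fun y => ?_)
    simp only
    congr 2
    ring
  refine hg.mono' ?_ (Filter.Eventually.of_forall fun y => ?_)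
  · have h1 := (continuous_zeta_line x hx).comp (continuous_const_add t)
    exact ((continuous_qk R hR).mul ((h1.norm).pow 2)).aestronglyMeasurable
  · rw [Real.norm_eq_abs, abs_of_nonneg (mul_nonneg (qk_nonneg R y hR) (by positivity))]
    have h1 := hAb (x + y * I) (by simpa using hx) t
    rw [← pt_eq] at h1
    have him : ((x : ℂ) + y * I).im = y := by simp
    rw [him] at h1
    have h2 : (1 + |t + y|) ≤ (1 + |t|) * (1 + |y|) := by
      have e1 := abs_add_le t y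
      have e2 := mul_nonneg (abs_nonneg t) (abs_nonneg y)
      have e3 : (1 + |t|) * (1 + |y|) = 1 + |t| + |y| + |t| * |y| := by ring
      rw [e3]
      linarith only [e1, e2]
    have h3 : ‖riemannZeta (pt (x : ℝ) (t + y : ℝ))‖ ^ 2 ≤
        A ^ 2 * (1 + |t|) ^ 8 * (1 + |y|) ^ 8 := by
      calc _ ≤ (A * (1 + |t + y|) ^ 4) ^ 2 := pow_le_pow_left₀ (norm_nonneg _) h1 2
        _ ≤ (A * ((1 + |t|) * (1 + |y|)) ^ 4) ^ 2 := by gcongr
        _ = _ := by ring
    have h4 : qk R y ≤ 1 / R * Real.exp (-(y ^ 2) / 2) := by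
      unfold qk
      apply mul_le_mul_of_nonneg_right _ (Real.exp_pos _).le
      refine mul_le_of_le_one_right (by positivity) ?_
      apply inv_le_one_of_one_le₀
      apply one_le_pow₀
      have : 0 ≤ |y| / R := by positivity
      linarith
    calc _ ≤ (1 / R * Real.exp (-(y ^ 2) / 2)) * (A ^ 2 * (1 + |t|) ^ 8 * (1 + |y|) ^ 8) := by
          refine mul_le_mul h4 ?_ (by positivity) (by positivity)
          exact_mod_cast h3
      _ = _ := by ring

/-- The supremum bound. -/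
theorem sup_bound : ∃ C : ℝ, 0 < C ∧ ∀ R : ℝ, 0 < R → R ≤ 1 / 100 → ∀ t : ℝ, ∀ w : ℂ,
    ‖w‖ ≤ 6 * R → ‖riemannZeta (1 / 2 + t * I + w)‖ ^ 2 ≤ C * Qf R t := by
  obtain ⟨A, hA, hAb⟩ := zeta_strip
  obtain ⟨Ck, hCk, hkn⟩ := kn_int 0
  set D : ℝ := 2 ^ 32 * Real.exp (32 * 14 + 2) * 7 ^ 32 with hD
  have hD0 : 0 < D := by positivity
  refine ⟨Ck * Real.exp (32 * 14 + 1) * 2 * D, by positivity, ?_⟩
  intro R hR hR1 t w hw
  have hwre : |w.re| ≤ 6 * R := (Complex.abs_re_le_norm w).trans hw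
  have hwim : |w.im| ≤ 6 * R := (Complex.abs_im_le_norm w).trans hw
  rw [abs_le] at hwre
  have hne : ∀ z : ℂ, -(8 * R) ≤ z.re → z.re ≤ 8 * R → (1 / 2 + t * I + z) ≠ 1 := by
    intro z h1 h2 h
    have := congrArg Complex.re h
    simp at this
    linarith
  have hmain := interp (fun z => riemannZeta (1 / 2 + t * I + z)) (-(8 * R)) (8 * R)
    (fun z h1 h2 => by
      have h3 : DifferentiableAt ℂ (fun z : ℂ => 1 / 2 + t * I + z) z := by fun_prop
      exact (differentiableAt_riemannZeta (hne z h1 h2)).comp z h3)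
    (A * (1 + |t|) ^ 4) 4
    (fun z h1 h2 => by
      refine (hAb z (by rw [abs_le]; constructor <;> linarith) t).trans ?_
      have : (1 + |t + z.im|) ≤ (1 + |t|) * (1 + |z.im|) := by
        have e1 := abs_add_le t z.im
        have e2 := mul_nonneg (abs_nonneg t) (abs_nonneg z.im)
        have e3 : (1 + |t|) * (1 + |z.im|) = 1 + |t| + |z.im| + |t| * |z.im| := by ring
        rw [e3]
        linarith only [e1, e2]
      calc A * (1 + |t + z.im|) ^ 4 ≤ A * ((1 + |t|) * (1 + |z.im|)) ^ 4 := by gcongr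
        _ = _ := by ring)
    (1 / R) 0 (by positivity) w (by linarith) (by linarith)
  -- the two terms
  have hterm : ∀ x : ℝ, (x = -(8 * R) ∨ x = 8 * R) →
      (∫ y : ℝ, ‖kn (1 / R) ((x - w.re : ℝ) + y * I) / ((x - w.re : ℝ) + y * I)‖) *
        (∫ y : ℝ, ‖kn (1 / R) ((x - w.re : ℝ) + y * I) / ((x - w.re : ℝ) + y * I)‖ *
          ‖riemannZeta (1 / 2 + t * I + (x + (w.im + y) * I))‖ ^ 2) ≤
      (Ck * Real.exp (32 * 14 + 1) * 2) * (D * ∫ y : ℝ, qk R y *
        ‖riemannZeta (pt (x : ℝ) (t + y))‖ ^ 2) := by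
    intro x hx
    have hxa : |x| = 8 * R := by
      rcases hx with h | h <;> rw [h]
      · rw [abs_neg, abs_of_pos (by positivity)]
      · rw [abs_of_pos (by positivity)]
    have hx4 : |x| ≤ 1 / 4 := by rw [hxa]; linarith
    set σ := x - w.re with hσ
    have hσ1 : 2 * R ≤ |σ| := by
      rw [hσ]
      rcases hx with h | h
      · rw [h, le_abs]; right; linarith
      · rw [h, le_abs]; left; linarith
    have hσ2 : |σ| ≤ 14 * R := by
      rw [hσ, abs_le]
      rcases hx with h | h <;> rw [h] <;> constructor <;> linarith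
    have hσ0 : 0 < |σ| := by linarith [mul_pos (two_pos : (0 : ℝ) < 2) hR]
    have hσne : σ ≠ 0 := abs_pos.1 hσ0
    have i1 : ∫ y : ℝ, ‖kn (1 / R) ((σ : ℝ) + y * I) / ((σ : ℝ) + y * I)‖ ≤
        Ck * Real.exp (32 * 14 + 1) * 2 := by
      obtain ⟨k1, k2⟩ := hkn (1 / R) σ (by positivity) hσne
      have k3 : ∫ y : ℝ, ‖kn (1 / R) ((σ : ℝ) + y * I) / ((σ : ℝ) + y * I)‖ ≤
          ∫ y : ℝ, (1 + 1 / R * |y|) ^ 30 * (1 + |y|) ^ 0 *
            ‖kn (1 / R) (σ + y * I) / (σ + y * I)‖ := by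
        apply integral_mono_of_nonneg (Filter.Eventually.of_forall fun y => norm_nonneg _) k1
        refine Filter.Eventually.of_forall fun y => ?_
        simp only [pow_zero, mul_one]
        refine le_mul_of_one_le_left (norm_nonneg _) ?_
        apply one_le_pow₀
        have : 0 ≤ 1 / R * |y| := by positivity
        linarith
      refine k3.trans (k2.trans ?_)
      have e1 : 32 * (1 / R) * |σ| + σ ^ 2 ≤ 32 * 14 + 1 := by
        have e10 : 1 / R * |σ| ≤ 14 := by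
          rw [one_div, inv_mul_le_iff₀ hR]; linarith
        have e2 : σ ^ 2 ≤ 1 := by
          rw [← sq_abs]
          have : |σ| ≤ 1 := by linarith
          exact pow_le_one₀ (abs_nonneg σ) this
        have e11 : 32 * (1 / R) * |σ| = 32 * (1 / R * |σ|) := by ring
        have e12 := mul_le_mul_of_nonneg_left e10 (show (0 : ℝ) ≤ 32 by norm_num)
        rw [e11]
        linarith only [e12, e2]
      have e3 : 1 + 1 / (1 / R * |σ|) ≤ 2 := by
        have : 1 ≤ 1 / R * |σ| := by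
          rw [one_div, le_inv_mul_iff₀ hR]; linarith
        have := (div_le_one (by linarith)).2 this
        linarith
      have e4 := Real.exp_le_exp.2 e1
      have e5 : 0 ≤ 1 + 1 / (1 / R * |σ|) := by positivity
      gcongr
    have i2 : ∫ y : ℝ, ‖kn (1 / R) ((σ : ℝ) + y * I) / ((σ : ℝ) + y * I)‖ *
          ‖riemannZeta (1 / 2 + t * I + (x + (w.im + y) * I))‖ ^ 2 ≤
        D * ∫ y : ℝ, qk R y * ‖riemannZeta (pt (x : ℝ) (t + y))‖ ^ 2 := by
      have j1 : ∫ y : ℝ, qk R y * ‖riemannZeta (pt (x : ℝ) (t + y))‖ ^ 2 =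
          ∫ y : ℝ, qk R (w.im + y) * ‖riemannZeta (pt (x : ℝ) (t + (w.im + y)))‖ ^ 2 := by
        exact (integral_add_left_eq_self (fun y : ℝ => qk R y *
          ‖riemannZeta (pt (x : ℝ) (t + y))‖ ^ 2) w.im).symm
      rw [j1, ← integral_const_mul]
      apply integral_mono_of_nonneg (Filter.Eventually.of_forall fun y => by positivity)
      · exact ((integrable_qz R x t hR hx4).comp_add_left w.im).const_mul D
      · refine Filter.Eventually.of_forall fun y => ?_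
        simp only
        have j2 : (1 / 2 + t * I + (x + (w.im + y) * I) : ℂ) = pt (x : ℝ) (t + (w.im + y) : ℝ) := by
          unfold pt; push_cast; ring
        rw [j2, ← mul_assoc]
        apply mul_le_mul_of_nonneg_right _ (by positivity)
        exact kern_le R w.im y σ hR hR1 hwim hσ1 hσ2
    have i3 : 0 ≤ ∫ y : ℝ, ‖kn (1 / R) ((σ : ℝ) + y * I) / ((σ : ℝ) + y * I)‖ *
          ‖riemannZeta (1 / 2 + t * I + (x + (w.im + y) * I))‖ ^ 2 :=
      integral_nonneg fun y => by positivity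
    exact mul_le_mul i1 i2 i3 (by positivity)
  have h1 := hterm (-(8 * R)) (Or.inl rfl)
  have h2 := hterm (8 * R) (Or.inr rfl)
  have hQ : Qf R t = (∫ y : ℝ, qk R y * ‖riemannZeta (pt (-(8 * R) : ℝ) (t + y))‖ ^ 2) +
      ∫ y : ℝ, qk R y * ‖riemannZeta (pt (8 * R : ℝ) (t + y))‖ ^ 2 := by
    rw [Qf, ← integral_add (integrable_qz R _ t hR (by rw [abs_neg, abs_of_pos (by positivity)]; linarith))
      (integrable_qz R _ t hR (by rw [abs_of_pos (by positivity)]; linarith))]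
    congr 1
    funext y
    ring
  simp only [mul_zero, zero_mul, Real.exp_zero, one_mul] at hmain
  refine hmain.trans ?_
  rw [hQ]
  calc _ ≤ _ := add_le_add h1 h2
    _ = _ := by ring

end Pool.Agent.H14.CO

end

section

/-!
# CO: auxiliary lemmas for the choice of good points
-/

set_option autoImplicit false

namespace Pool.Agent.H14.CO

open Set MeasureTheory Complex

theorem union_le (g : ℝ → ℝ) (hg0 : ∀ t, 0 ≤ g t) (A B : Set ℝ)
    (hA : IntegrableOn g A) (hB : IntegrableOn g B) :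
    ∫ t in A ∪ B, g t ≤ (∫ t in A, g t) + ∫ t in B, g t := by
  rw [← integral_add_measure hA hB]
  exact integral_mono_measure (Measure.restrict_union_le A B)
    (Filter.Eventually.of_forall hg0) (Integrable.add_measure hA hB)

theorem fub (F : ℝ → ℝ → ℝ) (hF : Continuous (Function.uncurry F)) (φ₀ a b M : ℝ)
    (hφ : 0 ≤ φ₀) (hM : ∀ φ ∈ Icc (-φ₀) φ₀, ∫ t in Icc a b, F t φ ≤ M) :
    ∫ t in Icc a b, (∫ φ in (-φ₀)..φ₀, F t φ) ≤ 2 * φ₀ * M := by
  have h1 : ∀ t, (∫ φ in (-φ₀)..φ₀, F t φ) = ∫ φ in Icc (-φ₀) φ₀, F t φ := by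
    intro t
    rw [intervalIntegral.integral_of_le (by linarith), ← integral_Icc_eq_integral_Ioc]
  simp_rw [h1]
  have hint : Integrable (Function.uncurry F)
      ((volume.restrict (Icc a b)).prod (volume.restrict (Icc (-φ₀) φ₀))) := by
    rw [Measure.prod_restrict]
    exact (hF.continuousOn).integrableOn_compact (isCompact_Icc.prod isCompact_Icc)
  rw [integral_integral_swap hint]
  calc ∫ φ in Icc (-φ₀) φ₀, ∫ t in Icc a b, F t φ
      ≤ ∫ _ in Icc (-φ₀) φ₀, M := by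
        apply setIntegral_mono_on hint.integral_prod_right (integrableOn_const (by simp))
          measurableSet_Icc hM
    _ = 2 * φ₀ * M := by
        rw [setIntegral_const, smul_eq_mul, Measure.real, Real.volume_Icc,
          ENNReal.toReal_ofReal (by linarith)]
        ring

theorem continuous_pint (F : ℝ → ℝ → ℝ) (hF : Continuous (Function.uncurry F)) (a b : ℝ) :
    Continuous fun t => ∫ φ in a..b, F t φ :=
  intervalIntegral.continuous_parametric_intervalIntegral_of_continuous' hF a b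

/-- choice of `G` -/
theorem choose_G (b₀ c K₀ κ X : ℝ) (hc : 0 < c) (hK : 0 < K₀) (hκ : 0 < κ) : ∃ G : ℝ, 1 < G ∧
    b₀ ≤ Real.sqrt G ∧ (1 + G) ^ 8 * Real.exp (-c * Real.sqrt G) ≤ K₀ ∧
    2 * (Real.pi / 2 - Real.arccos (1 / Real.sqrt G)) ≤ κ ∧ X < 3 * G / 32 := by
  have h1 : ∀ᶠ G : ℝ in Filter.atTop, b₀ ≤ Real.sqrt G :=
    Real.tendsto_sqrt_atTop.eventually_ge_atTop b₀
  have h2 : ∀ᶠ G : ℝ in Filter.atTop, (1 + G) ^ 8 * Real.exp (-c * Real.sqrt G) ≤ K₀ := by
    have e1 : Filter.Tendsto (fun x : ℝ => 2 ^ 8 / c ^ 16 * ((c * x) ^ 16 * Real.exp (-(c * x))))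
        Filter.atTop (nhds (2 ^ 8 / c ^ 16 * 0)) := by
      apply Filter.Tendsto.const_mul
      exact (Real.tendsto_pow_mul_exp_neg_atTop_nhds_zero 16).comp
        (Filter.tendsto_id.const_mul_atTop hc)
    rw [mul_zero] at e1
    have e2 := (e1.comp Real.tendsto_sqrt_atTop).eventually (ge_mem_nhds hK)
    filter_upwards [e2, Filter.eventually_ge_atTop 1] with G hG hG1
    refine le_trans ?_ hG
    simp only [Function.comp]
    have e3 : Real.sqrt G ^ 16 = G ^ 8 := by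
      have : Real.sqrt G ^ 16 = (Real.sqrt G ^ 2) ^ 8 := by ring
      rw [this, Real.sq_sqrt (by linarith)]
    have e4 : 2 ^ 8 / c ^ 16 * ((c * Real.sqrt G) ^ 16 * Real.exp (-(c * Real.sqrt G))) =
        2 ^ 8 * G ^ 8 * Real.exp (-(c * Real.sqrt G)) := by
      rw [mul_pow, e3]
      field_simp
    rw [e4]
    have e5 : -c * Real.sqrt G = -(c * Real.sqrt G) := by ring
    rw [e5]
    apply mul_le_mul_of_nonneg_right _ (Real.exp_pos _).le
    rw [← mul_pow]
    exact pow_le_pow_left₀ (by linarith) (by linarith) 8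
  have h3 : ∀ᶠ G : ℝ in Filter.atTop,
      2 * (Real.pi / 2 - Real.arccos (1 / Real.sqrt G)) ≤ κ := by
    have e1 : Filter.Tendsto (fun G : ℝ => 1 / Real.sqrt G) Filter.atTop (nhds 0) := by
      simp_rw [one_div]
      exact Filter.Tendsto.inv_tendsto_atTop Real.tendsto_sqrt_atTop
    have e2 : Filter.Tendsto (fun G : ℝ => 2 * (Real.pi / 2 - Real.arccos (1 / Real.sqrt G)))
        Filter.atTop (nhds (2 * (Real.pi / 2 - Real.arccos 0))) := by
      apply Filter.Tendsto.const_mul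
      apply Filter.Tendsto.const_sub
      exact (Real.continuous_arccos.tendsto 0).comp e1
    rw [Real.arccos_zero, sub_self, mul_zero] at e2
    exact e2.eventually (ge_mem_nhds hκ)
  have h4 : ∀ᶠ G : ℝ in Filter.atTop, X < 3 * G / 32 := by
    filter_upwards [Filter.eventually_gt_atTop (32 * X / 3)] with G hG
    linarith
  have h5 := Filter.eventually_gt_atTop (1 : ℝ)
  obtain ⟨G, g5, g1, g2, g3, g4⟩ := (h5.and (h1.and (h2.and (h3.and h4)))).exists
  exact ⟨G, g5, g1, g2, g3, g4⟩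

/-- reflecting a zero into the right half of the strip -/
theorem reflect_zero (t r : ℝ) (hr : r ≤ 1 / 4) (ρ : ℂ) (hρ : riemannZeta ρ = 0)
    (hd : ‖ρ - (1 / 2 + t * I)‖ ≤ r) :
    ∃ ρ' : ℂ, riemannZeta ρ' = 0 ∧ 1 / 2 ≤ ρ'.re ∧ ‖ρ' - (1 / 2 + t * I)‖ ≤ r := by
  rcases le_or_gt (1 / 2) ρ.re with h | h
  · exact ⟨ρ, hρ, h, hd⟩
  · refine ⟨1 - (starRingEnd ℂ) ρ, ?_, ?_, ?_⟩
    · have hre : |ρ.re - 1 / 2| ≤ 1 / 4 := by
        have := (Complex.abs_re_le_norm (ρ - (1 / 2 + t * I))).trans (hd.trans hr)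
        simpa using this
      rw [abs_le] at hre
      have h1 : riemannZeta ((starRingEnd ℂ) ρ) = 0 := by
        rw [riemannZeta_conj, hρ, map_zero]
      have hre2 : ((starRingEnd ℂ) ρ).re = ρ.re := Complex.conj_re ρ
      have h2 := ch_fe ((starRingEnd ℂ) ρ) (by rw [hre2]; linarith) (by
        intro h3
        have := congrArg Complex.re h3
        rw [hre2, Complex.one_re] at this
        linarith)
      rw [h2, h1, mul_zero]
    · rw [Complex.sub_re, Complex.conj_re, Complex.one_re]; linarith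
    · have h3 : (1 - (starRingEnd ℂ) ρ) - (1 / 2 + t * I) =
          -(starRingEnd ℂ) (ρ - (1 / 2 + t * I)) := by
        simp only [map_sub, map_add, map_mul, Complex.conj_ofReal, Complex.conj_I, map_div₀, map_one]
        have : (starRingEnd ℂ) (2 : ℂ) = 2 := Complex.conj_ofNat 2
        rw [this]
        ring
      rw [h3, norm_neg, RCLike.norm_conj]
      exact hd

end Pool.Agent.H14.CO

end

section

set_option autoImplicit false

namespace Pool.Agent.H95.GC

open Set MeasureTheory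

/-- A zero-free holomorphic function on a disc has a holomorphic logarithm. -/
theorem exists_log (f : ℂ → ℂ) (c : ℂ) (R : ℝ) (hR : 0 < R)
    (hf : DifferentiableOn ℂ f (Metric.ball c R)) (hf0 : ∀ z ∈ Metric.ball c R, f z ≠ 0) :
    ∃ L : ℂ → ℂ, DifferentiableOn ℂ L (Metric.ball c R) ∧ L c = 0 ∧
      ∀ z ∈ Metric.ball c R, f z = f c * Complex.exp (L z) := by
  have hdf : DifferentiableOn ℂ (deriv f) (Metric.ball c R) := hf.deriv Metric.isOpen_ball
  have hq : DifferentiableOn ℂ (fun z => deriv f z / f z) (Metric.ball c R) := hdf.div hf hf0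
  have hex := hq.isExactOn_ball
  obtain ⟨L, hL0, hL⟩ := hex.with_val_at c 0
  refine ⟨L, fun z hz => (hL z hz).differentiableAt.differentiableWithinAt, hL0, ?_⟩
  -- f * exp (-L) is constant
  set h : ℂ → ℂ := fun z => f z * Complex.exp (-(L z)) with hh
  have hcmem : c ∈ Metric.ball c R := Metric.mem_ball_self hR
  have hder : ∀ z ∈ Metric.ball c R, HasDerivAt h 0 z := by
    intro z hz
    have hfz : HasDerivAt f (deriv f z) z :=
      (hf.differentiableAt (Metric.isOpen_ball.mem_nhds hz)).hasDerivAt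
    have h1 := hfz.mul ((hL z hz).neg.cexp)
    refine h1.congr_deriv ?_
    have := hf0 z hz
    field_simp
    ring
  have hconst : ∀ z ∈ Metric.ball c R, h z = h c := by
    intro z hz
    have hconv : Convex ℝ (Metric.ball c R) := convex_ball c R
    apply hconv.is_const_of_fderivWithin_eq_zero (𝕜 := ℂ)
      (fun x hx => (hder x hx).differentiableAt.differentiableWithinAt) ?_ hz hcmem
    intro x hx
    have := (hder x hx).hasFDerivAt.fderiv
    rw [fderivWithin_of_isOpen Metric.isOpen_ball hx, this]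
    ext
    simp
  intro z hz
  have := hconst z hz
  simp only [hh, hL0, neg_zero, Complex.exp_zero, mul_one] at this
  rw [← this, mul_assoc, ← Complex.exp_add, neg_add_cancel, Complex.exp_zero, mul_one]

end Pool.Agent.H95.GC

end

section

/-!
# CO module Zdet: deterministic zero detection in a small disc around a point of the critical line
-/

set_option autoImplicit false

namespace Pool.Agent.H14.CO

open Set MeasureTheory Complex

/-- points close to `1/2 + i t` are not `1` -/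
theorem Zdet_ne_one {t r : ℝ} {z : ℂ} (ht : 100 ≤ t) (hr : r ≤ 1)
    (hz : ‖z - (1 / 2 + t * I)‖ ≤ r) : z ≠ 1 := by
  intro h
  rw [h] at hz
  have h1 := (Complex.abs_im_le_norm (1 - (1 / 2 + t * I))).trans hz
  have h2 : (1 - (1 / 2 + (t : ℂ) * I)).im = -t := by simp
  rw [h2, abs_neg, abs_of_nonneg (by linarith)] at h1
  linarith

theorem Zdet_analyticAt {z : ℂ} (hz : z ≠ 1) : AnalyticAt ℂ riemannZeta z := by
  have hd : DifferentiableOn ℂ riemannZeta {1}ᶜ :=
    fun w hw => (differentiableAt_riemannZeta hw).differentiableWithinAt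
  exact hd.analyticAt (isOpen_compl_singleton.mem_nhds hz)

/-- Borel-Carathéodory: lower bound for a zero free function -/
theorem Zdet_bc (f : ℂ → ℂ) (c : ℂ) (R M : ℝ) (hR : 0 < R) (hM : 0 < M)
    (hf : DifferentiableOn ℂ f (Metric.ball c (4 * R)))
    (hf0 : ∀ z ∈ Metric.ball c (4 * R), f z ≠ 0)
    (hb : ∀ z ∈ Metric.ball c (4 * R), Real.log ‖f z‖ ≤ Real.log ‖f c‖ + M) :
    ∀ z : ℂ, ‖z - c‖ ≤ 2 * R → Real.log ‖f c‖ - 2 * M ≤ Real.log ‖f z‖ := by
  obtain ⟨L, hL, hL0, hLe⟩ := Pool.Agent.H95.GC.exists_log f c (4 * R) (by linarith) hf hf0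
  have hc : f c ≠ 0 := hf0 c (Metric.mem_ball_self (by linarith))
  have hre : ∀ z ∈ Metric.ball c (4 * R), Real.log ‖f z‖ = Real.log ‖f c‖ + (L z).re := by
    intro z hz
    rw [hLe z hz, norm_mul, Complex.norm_exp,
      Real.log_mul (norm_ne_zero_iff.2 hc) (Real.exp_pos _).ne', Real.log_exp]
  intro z hz
  have hzb : z ∈ Metric.ball c (4 * R) := by
    rw [mem_ball_iff_norm]; linarith
  set F : ℂ → ℂ := fun w => L (c + w) with hF
  have hmaps : ∀ w ∈ Metric.ball (0 : ℂ) (4 * R), c + w ∈ Metric.ball c (4 * R) := by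
    intro w hw
    rw [mem_ball_iff_norm] at hw ⊢
    simpa using hw
  have hFd : DifferentiableOn ℂ F (Metric.ball 0 (4 * R)) := by
    refine hL.comp ?_ hmaps
    exact (differentiable_id.const_add c).differentiableOn
  have hFM : Set.MapsTo F (Metric.ball 0 (4 * R)) {z | z.re ≤ M} := by
    intro w hw
    have h1 := hre _ (hmaps w hw)
    have h2 := hb _ (hmaps w hw)
    show (L (c + w)).re ≤ M
    linarith
  have hw : z - c ∈ Metric.ball (0 : ℂ) (4 * R) := by
    rw [mem_ball_iff_norm, sub_zero]; linarith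
  have h3 := Complex.borelCaratheodory_zero hM hFd hFM (by linarith) hw (by simp [hF, hL0])
  have h4 : F (z - c) = L z := by simp [hF]
  rw [h4] at h3
  have h5 : 2 * M * ‖z - c‖ / (4 * R - ‖z - c‖) ≤ 2 * M := by
    rw [div_le_iff₀ (by linarith)]
    have : ‖z - c‖ ≤ 4 * R - ‖z - c‖ := by linarith
    exact mul_le_mul_of_nonneg_left this (by linarith)
  have h6 := neg_le_abs (L z).re
  have h7 := Complex.abs_re_le_norm (L z)
  rw [hre z hzb]
  linarith

/-- `s = 1/2 + it`, `z φ = s + R e^{iφ}`. `P` is any continuous function (the mollifier), `m > 0`.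

PROOF. Suppose `ζ ≠ 0` on the closed ball `‖z - s‖ ≤ 6R`.
(a) Measure of bad angles: let `bad ⊆ [-π/2, π/2]` be the set of `φ` with `|φ| > φ₀`, or
`‖ζ(zφ) P(zφ) - 1‖ > 1/2`, or `‖P(zφ)‖ > A m`. By Chebyshev its measure is
`≤ κ := 2(π/2 - φ₀) + 4κ₃ + A₃/A²`. For `φ` not bad, `m ‖ζ(zφ)‖ ≥ ‖ζ P‖/A ≥ 1/(2A) =: c₀`.
`κ < π` (from (5), as the bracket multiplying `κ` is nonnegative; or directly the hypothesis `hκ`), so a
good angle `φ₁` exists; `z₁ = z φ₁`.
(b) Borel–Carathéodory with centre `z₁`, radius `4R` (`ball z₁ (4R) ⊆ closedBall s (5R)`): there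
`ζ = ζ(z₁) exp g`, `g z₁ = 0`, `Re g ≤ K₁ + log(1/(m‖ζ z₁‖)) ≤ K₁ + log(2A)`
(`Pool.Agent.H95.GC.exists_log` in H95/GC/ThreeCircles.lean; Mathlib `BorelCaratheodory`), hence for
`‖z - z₁‖ ≤ 2R`: `‖g z‖ ≤ 2 (K₁ + log (2A))` and
`log (m‖ζ z‖) ≥ -log(2A) - 2(K₁ + log(2A)) = -(2K₁ + 3 log(2A))`. This covers all `z φ`.
(c) Mean value (`AnalyticOnNhd.circleAverage_log_norm_of_ne_zero`) on the circle `‖z - s‖ = R`:
`log(m‖ζ s‖) = (1/2π) ∫_{-π/2}^{π/2} [log m‖ζ(s+Re^{iφ})‖ + log m‖ζ(s - R e^{-iφ})‖] dφ`, and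
`s - R e^{-iφ} = 1/2 - x + iu` with `x = R cos φ`, `u = t + R sin φ ≥ t/2`, so by `hχ`
`log‖ζ(s - Re^{-iφ})‖ ≥ log‖ζ(s+Re^{iφ})‖ + x log(t/2) - log(1/cχ)`.
`∫ cos = 2`. So
`log A₀ ≥ (1/π) ∫ log(m‖ζ(zφ)‖) dφ + (R/π) log(t/2) - (1/2) log(1/cχ)
 ≥ -log(2A) - (κ/π)(2K₁ + 3 log(2A)) + (R/π) log(t/2) - (1/2) log(1/cχ)`,
contradicting (5). -/
theorem zdet (t R m K₁ A₀ A A₃ κ₃ φ₀ cχ : ℝ) (P : ℂ → ℂ) (hP : Continuous P)
    (ht : 100 ≤ t) (hR0 : 0 < R) (hR1 : R ≤ 1 / 100) (hm : 0 < m) (hK₁ : 0 ≤ K₁) (hA₀ : 0 < A₀)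
    (hA : 1 ≤ A) (hA₃ : 0 ≤ A₃) (hκ₃ : 0 ≤ κ₃) (hφ₀ : 0 ≤ φ₀) (hφ₁ : φ₀ ≤ Real.pi / 2)
    (hcχ0 : 0 < cχ) (hcχ1 : cχ ≤ 1)
    (hχ : ∀ x u : ℝ, 0 ≤ x → x ≤ 1 / 4 → 1 ≤ u →
      cχ * u ^ x * ‖riemannZeta (1 / 2 + x + u * I)‖ ≤ ‖riemannZeta (1 / 2 - x + u * I)‖)
    (h1 : ∀ z : ℂ, ‖z - (1 / 2 + t * I)‖ ≤ 6 * R → ‖riemannZeta z‖ * m ≤ Real.exp K₁)
    (h2 : ‖riemannZeta (1 / 2 + t * I)‖ * m ≤ A₀)
    (h3 : ∫ φ in (-φ₀)..φ₀, ‖riemannZeta (1 / 2 + t * I + R * Complex.exp (φ * I)) *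
      P (1 / 2 + t * I + R * Complex.exp (φ * I)) - 1‖ ^ 2 ≤ κ₃)
    (h4 : ∫ φ in (-φ₀)..φ₀, ‖P (1 / 2 + t * I + R * Complex.exp (φ * I))‖ ^ 2 ≤ A₃ * m ^ 2)
    (hκ : 2 * (Real.pi / 2 - φ₀) + 4 * κ₃ + A₃ / A ^ 2 < 1)
    (h5 : Real.log A₀ < R * Real.log (t / 2) / Real.pi - 1 / 2 * Real.log (1 / cχ) -
      Real.log (2 * A) - (2 * (Real.pi / 2 - φ₀) + 4 * κ₃ + A₃ / A ^ 2) / Real.pi *
        (2 * K₁ + 3 * Real.log (2 * A))) :
    ∃ ρ : ℂ, riemannZeta ρ = 0 ∧ ‖ρ - (1 / 2 + t * I)‖ ≤ 6 * R := by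
  by_contra hcon
  push Not at hcon
  have hπ := Real.pi_pos
  set s : ℂ := 1 / 2 + t * I with hs
  set Z : ℝ → ℂ := fun φ => s + R * Complex.exp (φ * I) with hZ
  have hnz : ∀ z : ℂ, ‖z - s‖ ≤ 6 * R → riemannZeta z ≠ 0 := by
    intro z hz h0
    exact absurd hz (not_le.2 (hcon z h0))
  have hne : ∀ z : ℂ, ‖z - s‖ ≤ 6 * R → z ≠ 1 := fun z hz =>
    Zdet_ne_one ht (by linarith) hz
  have hZn : ∀ φ : ℝ, ‖Z φ - s‖ = R := by
    intro φ
    simp only [hZ, add_sub_cancel_left, norm_mul, Complex.norm_real, Real.norm_eq_abs,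
      abs_of_pos hR0, Complex.norm_exp_ofReal_mul_I, mul_one]
  have hZ6 : ∀ φ : ℝ, ‖Z φ - s‖ ≤ 6 * R := fun φ => by rw [hZn]; linarith
  have hZc : Continuous Z := by fun_prop
  have hzc : Continuous fun φ : ℝ => riemannZeta (Z φ) := by
    rw [continuous_iff_continuousAt]
    intro φ
    exact ContinuousAt.comp (Zdet_analyticAt (hne _ (hZ6 φ))).continuousAt hZc.continuousAt
  set h : ℝ → ℝ := fun φ => Real.log ‖riemannZeta (Z φ)‖ with hh
  have hhc : Continuous h := by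
    refine Continuous.log hzc.norm fun φ => ?_
    exact norm_ne_zero_iff.2 (hnz _ (hZ6 φ))
  have hlogA : 0 < Real.log (2 * A) := Real.log_pos (by linarith)
  have hA0 : 0 < A := by linarith
  -- the majorant of the bad set
  set B : ℝ → ℝ := fun φ => 4 * ‖riemannZeta (Z φ) * P (Z φ) - 1‖ ^ 2 +
    ‖P (Z φ)‖ ^ 2 / (A ^ 2 * m ^ 2) with hB
  have hPc : Continuous fun φ : ℝ => P (Z φ) := hP.comp hZc
  have hBc : Continuous B := by
    simp only [hB]
    exact (continuous_const.mul (((hzc.mul hPc).sub continuous_const).norm.pow 2)).add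
      ((hPc.norm.pow 2).div_const _)
  have hB0 : ∀ φ, 0 ≤ B φ := fun φ => by simp only [hB]; positivity
  have hgood : ∀ φ, B φ < 1 → Real.log m + h φ ≥ - Real.log (2 * A) := by
    intro φ hφ
    have e1 : 0 ≤ ‖P (Z φ)‖ ^ 2 / (A ^ 2 * m ^ 2) := by positivity
    have e2 : 0 ≤ 4 * ‖riemannZeta (Z φ) * P (Z φ) - 1‖ ^ 2 := by positivity
    have e3 : ‖riemannZeta (Z φ) * P (Z φ) - 1‖ ≤ 1 / 2 := by
      have : ‖riemannZeta (Z φ) * P (Z φ) - 1‖ ^ 2 ≤ (1 / 2) ^ 2 := by
        simp only [hB] at hφ; linarith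
      exact le_of_sq_le_sq this (by norm_num)
    have e4 : ‖P (Z φ)‖ ≤ A * m := by
      have h6 : ‖P (Z φ)‖ ^ 2 / (A ^ 2 * m ^ 2) ≤ 1 := by simp only [hB] at hφ; linarith
      rw [div_le_one (by positivity)] at h6
      have : ‖P (Z φ)‖ ^ 2 ≤ (A * m) ^ 2 := by rw [mul_pow]; exact h6
      exact le_of_sq_le_sq this (by positivity)
    have e5 : 1 / 2 ≤ ‖riemannZeta (Z φ)‖ * ‖P (Z φ)‖ := by
      rw [← norm_mul]
      have := norm_sub_norm_le (1 : ℂ) (1 - riemannZeta (Z φ) * P (Z φ))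
      rw [sub_sub_cancel, norm_one, norm_sub_rev] at this
      linarith
    have hz0 : 0 < ‖riemannZeta (Z φ)‖ := norm_pos_iff.2 (hnz _ (hZ6 φ))
    have e6 : 1 / (2 * A) ≤ m * ‖riemannZeta (Z φ)‖ := by
      rw [div_le_iff₀ (by positivity)]
      have : ‖riemannZeta (Z φ)‖ * ‖P (Z φ)‖ ≤ ‖riemannZeta (Z φ)‖ * (A * m) :=
        mul_le_mul_of_nonneg_left e4 hz0.le
      nlinarith
    have e7 := Real.log_le_log (by positivity) e6
    rw [Real.log_mul hm.ne' hz0.ne', one_div, Real.log_inv] at e7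
    exact e7
  -- integrals of the majorant
  have hBint : ∫ φ in (-φ₀)..φ₀, B φ ≤ 4 * κ₃ + A₃ / A ^ 2 := by
    simp only [hB]
    rw [intervalIntegral.integral_add, intervalIntegral.integral_const_mul,
      intervalIntegral.integral_div]
    · refine add_le_add (mul_le_mul_of_nonneg_left h3 (by norm_num)) ?_
      rw [div_le_div_iff₀ (by positivity) (by positivity)]
      calc (∫ φ in (-φ₀)..φ₀, ‖P (Z φ)‖ ^ 2) * A ^ 2 ≤ (A₃ * m ^ 2) * A ^ 2 :=
            mul_le_mul_of_nonneg_right h4 (by positivity)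
        _ = A₃ * (A ^ 2 * m ^ 2) := by ring
    · exact (continuous_const.mul
        (((hzc.mul hPc).sub continuous_const).norm.pow 2)).intervalIntegrable _ _
    · exact ((hPc.norm.pow 2).div_const _).intervalIntegrable _ _
  -- a good angle
  obtain ⟨φ₁, hφ₁g⟩ : ∃ φ, B φ < 1 := by
    by_contra hno
    push Not at hno
    have h6 : ∫ _φ in (-φ₀)..φ₀, (1 : ℝ) ≤ ∫ φ in (-φ₀)..φ₀, B φ :=
      intervalIntegral.integral_mono_on (by linarith) (continuous_const.intervalIntegrable _ _)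
        (hBc.intervalIntegrable _ _) fun φ _ => hno φ
    rw [intervalIntegral.integral_const, smul_eq_mul, mul_one] at h6
    have := Real.pi_gt_three
    linarith
  have hg1 := hgood φ₁ hφ₁g
  -- Borel-Caratheodory
  have hbc := Zdet_bc riemannZeta (Z φ₁) R (K₁ + Real.log (2 * A)) hR0 (by linarith)
    (fun z hz => ((Zdet_analyticAt (hne z (by
      rw [mem_ball_iff_norm] at hz
      have := norm_add_le (z - Z φ₁) (Z φ₁ - s)
      rw [sub_add_sub_cancel, hZn] at this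
      linarith))).differentiableAt).differentiableWithinAt)
    (fun z hz => hnz z (by
      rw [mem_ball_iff_norm] at hz
      have := norm_add_le (z - Z φ₁) (Z φ₁ - s)
      rw [sub_add_sub_cancel, hZn] at this
      linarith))
    (fun z hz => by
      rw [mem_ball_iff_norm] at hz
      have h6 := norm_add_le (z - Z φ₁) (Z φ₁ - s)
      rw [sub_add_sub_cancel, hZn] at h6
      have h7 : ‖z - s‖ ≤ 6 * R := by linarith
      have h8 := h1 z h7
      have hz0 : 0 < ‖riemannZeta z‖ := norm_pos_iff.2 (hnz z h7)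
      have h9 := Real.log_le_log (by positivity) h8
      rw [Real.log_exp, Real.log_mul hz0.ne' hm.ne'] at h9
      simp only [hh] at hg1
      linarith)
  have hall : ∀ φ, Real.log m + h φ ≥ -(2 * K₁ + 3 * Real.log (2 * A)) := by
    intro φ
    have h6 := hbc (Z φ) (by
      have := norm_sub_le (Z φ - s) (Z φ₁ - s)
      rw [sub_sub_sub_cancel_right, hZn, hZn] at this
      linarith)
    simp only [hh] at hg1 ⊢
    linarith
  -- the lower bound on the half circle
  set Λ : ℝ := 2 * K₁ + 3 * Real.log (2 * A) with hΛ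
  have hΛ0 : 0 ≤ Λ := by simp only [hΛ]; linarith
  have hint : ∀ a b : ℝ, IntervalIntegrable (fun φ => Real.log m + h φ) volume a b :=
    fun a b => (continuous_const.add hhc).intervalIntegrable _ _
  have hmid : ∫ φ in (-φ₀)..φ₀, (Real.log m + h φ) ≥
      -(2 * φ₀ * Real.log (2 * A)) - Λ * (4 * κ₃ + A₃ / A ^ 2) := by
    have h6 : ∫ φ in (-φ₀)..φ₀, (-Real.log (2 * A) - Λ * B φ) ≤
        ∫ φ in (-φ₀)..φ₀, (Real.log m + h φ) := by
      refine intervalIntegral.integral_mono_on (by linarith)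
        ((continuous_const.sub (continuous_const.mul hBc)).intervalIntegrable _ _)
        (hint _ _) fun φ _ => ?_
      rcases lt_or_ge (B φ) 1 with h7 | h7
      · have := hgood φ h7
        have := mul_nonneg hΛ0 (hB0 φ)
        linarith
      · have := hall φ
        have : Λ * 1 ≤ Λ * B φ := mul_le_mul_of_nonneg_left h7 hΛ0
        linarith
    have hLB : Continuous fun φ => Λ * B φ := continuous_const.mul hBc
    rw [intervalIntegral.integral_sub (f := fun _ => -Real.log (2 * A)) (g := fun φ => Λ * B φ)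
      (continuous_const.intervalIntegrable _ _)
      (hLB.intervalIntegrable _ _), intervalIntegral.integral_const,
      intervalIntegral.integral_const_mul, smul_eq_mul] at h6
    have h7 := mul_le_mul_of_nonneg_left hBint hΛ0
    have h8 : (φ₀ - -φ₀) * -Real.log (2 * A) = -(2 * φ₀ * Real.log (2 * A)) := by ring
    rw [h8] at h6
    linarith
  have hout : ∀ a b : ℝ, a ≤ b → ∫ φ in a..b, (Real.log m + h φ) ≥
      (b - a) * (-Real.log (2 * A) - Λ) := by
    intro a b hab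
    have h6 : ∫ _φ in a..b, (-Real.log (2 * A) - Λ) ≤ ∫ φ in a..b, (Real.log m + h φ) := by
      refine intervalIntegral.integral_mono_on hab (continuous_const.intervalIntegrable _ _)
        (hint _ _) fun φ _ => ?_
      have := hall φ
      linarith
    rw [intervalIntegral.integral_const, smul_eq_mul] at h6
    exact h6
  have hhalf : ∫ φ in (-(Real.pi / 2))..(Real.pi / 2), (Real.log m + h φ) ≥
      -(Real.pi * Real.log (2 * A)) -
        Λ * (2 * (Real.pi / 2 - φ₀) + 4 * κ₃ + A₃ / A ^ 2) := by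
    rw [← intervalIntegral.integral_add_adjacent_intervals (hint (-(Real.pi / 2)) (-φ₀)) (hint _ _),
      ← intervalIntegral.integral_add_adjacent_intervals (hint (-φ₀) φ₀) (hint _ _)]
    have h6 := hout (-(Real.pi / 2)) (-φ₀) (by linarith)
    have h7 := hout φ₀ (Real.pi / 2) hφ₁
    have h8 : (-φ₀ - -(Real.pi / 2)) * (-Real.log (2 * A) - Λ) +
        (Real.pi / 2 - φ₀) * (-Real.log (2 * A) - Λ) + (-(2 * φ₀ * Real.log (2 * A)) -
          Λ * (4 * κ₃ + A₃ / A ^ 2)) = -(Real.pi * Real.log (2 * A)) -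
        Λ * (2 * (Real.pi / 2 - φ₀) + 4 * κ₃ + A₃ / A ^ 2) := by ring
    linarith
  have hhalf2 : ∫ φ in (-(Real.pi / 2))..(Real.pi / 2), (Real.log m + h φ) =
      Real.pi * Real.log m + ∫ φ in (-(Real.pi / 2))..(Real.pi / 2), h φ := by
    rw [intervalIntegral.integral_add (continuous_const.intervalIntegrable _ _)
      (hhc.intervalIntegrable _ _), intervalIntegral.integral_const, smul_eq_mul]
    ring
  -- the reflected half circle
  have hrefl : ∀ φ ∈ Set.Icc (-(Real.pi / 2)) (Real.pi / 2),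
      Real.log cχ + R * Real.cos φ * Real.log (t / 2) + h φ ≤ h (Real.pi - φ) := by
    intro φ hφ
    have hcos : 0 ≤ Real.cos φ := Real.cos_nonneg_of_mem_Icc hφ
    have hcos1 : Real.cos φ ≤ 1 := Real.cos_le_one φ
    have hsin1 : -1 ≤ Real.sin φ := Real.neg_one_le_sin φ
    have hx0 : 0 ≤ R * Real.cos φ := mul_nonneg hR0.le hcos
    have hx1 : R * Real.cos φ ≤ 1 / 4 := by nlinarith
    have hu : t / 2 ≤ t + R * Real.sin φ := by nlinarith
    have hu1 : 1 ≤ t + R * Real.sin φ := by linarith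
    have h6 := hχ (R * Real.cos φ) (t + R * Real.sin φ) hx0 hx1 hu1
    have e1 : (1 / 2 + ((R * Real.cos φ : ℝ) : ℂ) + ((t + R * Real.sin φ : ℝ) : ℂ) * I) = Z φ := by
      simp only [hZ, hs]
      rw [Complex.exp_mul_I]
      push_cast
      ring
    have e2 : (1 / 2 - ((R * Real.cos φ : ℝ) : ℂ) + ((t + R * Real.sin φ : ℝ) : ℂ) * I) =
        Z (Real.pi - φ) := by
      simp only [hZ, hs]
      rw [Complex.exp_mul_I]
      push_cast
      rw [Complex.cos_pi_sub, Complex.sin_pi_sub]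
      ring
    rw [e1, e2] at h6
    have hz0 : 0 < ‖riemannZeta (Z φ)‖ := norm_pos_iff.2 (hnz _ (hZ6 φ))
    have hup : 0 < (t + R * Real.sin φ) ^ (R * Real.cos φ) := Real.rpow_pos_of_pos (by linarith) _
    have h7 := Real.log_le_log (by positivity) h6
    rw [Real.log_mul (by positivity) hz0.ne', Real.log_mul hcχ0.ne' hup.ne',
      Real.log_rpow (by linarith)] at h7
    have h8 : Real.log (t / 2) ≤ Real.log (t + R * Real.sin φ) :=
      Real.log_le_log (by linarith) hu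
    have h9 := mul_le_mul_of_nonneg_left h8 hx0
    simp only [hh]
    linarith
  have hrefl2 : Real.pi * Real.log cχ + 2 * R * Real.log (t / 2) +
      ∫ φ in (-(Real.pi / 2))..(Real.pi / 2), h φ ≤
      ∫ φ in (-(Real.pi / 2))..(Real.pi / 2), h (Real.pi - φ) := by
    have h6 : ∫ φ in (-(Real.pi / 2))..(Real.pi / 2),
        (Real.log cχ + R * Real.cos φ * Real.log (t / 2) + h φ) ≤
        ∫ φ in (-(Real.pi / 2))..(Real.pi / 2), h (Real.pi - φ) := by
      refine intervalIntegral.integral_mono_on (by linarith)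
        (Continuous.intervalIntegrable (by fun_prop) _ _)
        (Continuous.intervalIntegrable (by fun_prop) _ _) hrefl
    have h7 : ∫ φ in (-(Real.pi / 2))..(Real.pi / 2),
        (Real.log cχ + R * Real.cos φ * Real.log (t / 2) + h φ) =
        Real.pi * Real.log cχ + 2 * R * Real.log (t / 2) +
          ∫ φ in (-(Real.pi / 2))..(Real.pi / 2), h φ := by
      rw [intervalIntegral.integral_add (Continuous.intervalIntegrable (by fun_prop) _ _)
        (hhc.intervalIntegrable _ _),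
        intervalIntegral.integral_add (Continuous.intervalIntegrable (by fun_prop) _ _)
          (Continuous.intervalIntegrable (by fun_prop) _ _), intervalIntegral.integral_const,
        intervalIntegral.integral_mul_const, intervalIntegral.integral_const_mul, integral_cos,
        smul_eq_mul, Real.sin_neg, Real.sin_pi_div_two]
      ring
    linarith
  -- mean value
  have hmv : Real.log ‖riemannZeta s‖ = (2 * Real.pi)⁻¹ *
      ((∫ φ in (-(Real.pi / 2))..(Real.pi / 2), h φ) +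
        ∫ φ in (-(Real.pi / 2))..(Real.pi / 2), h (Real.pi - φ)) := by
    have h6 := AnalyticOnNhd.circleAverage_log_norm_of_ne_zero (R := R) (c := s)
      (g := riemannZeta)
      (fun z hz => Zdet_analyticAt (hne z (by
        rw [mem_closedBall_iff_norm, abs_of_pos hR0] at hz; linarith)))
      (fun z hz => hnz z (by
        rw [mem_closedBall_iff_norm, abs_of_pos hR0] at hz; linarith))
    rw [← h6, Real.circleAverage_eq_integral_add (-(Real.pi / 2)), smul_eq_mul]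
    congr 1
    have e : ∀ θ : ℝ, Real.log ‖riemannZeta (circleMap s R (θ + -(Real.pi / 2)))‖ =
        h (θ - Real.pi / 2) := by
      intro θ
      simp only [hh, hZ, circleMap, sub_eq_add_neg]
    simp only [e]
    have e1 : ∫ x in (0 : ℝ)..2 * Real.pi, h (x - Real.pi / 2) =
        ∫ x in (-(Real.pi / 2))..(3 * Real.pi / 2), h x := by
      rw [intervalIntegral.integral_comp_sub_right (fun x => h x) (Real.pi / 2)]
      congr 1 <;> ring
    have e2 : ∫ φ in (-(Real.pi / 2))..(Real.pi / 2), h (Real.pi - φ) =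
        ∫ x in (Real.pi / 2)..(3 * Real.pi / 2), h x := by
      rw [intervalIntegral.integral_comp_sub_left (fun x => h x) Real.pi]
      congr 1 <;> ring
    rw [e1, e2, intervalIntegral.integral_add_adjacent_intervals
      (hhc.intervalIntegrable _ _) (hhc.intervalIntegrable _ _)]
  -- conclusion
  have hz0 : 0 < ‖riemannZeta s‖ := norm_pos_iff.2 (hnz s (by rw [sub_self, norm_zero]; linarith))
  have h6 := Real.log_le_log (by positivity) h2
  rw [Real.log_mul hz0.ne' hm.ne'] at h6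
  have h7 : Real.log (1 / cχ) = -Real.log cχ := by rw [one_div, Real.log_inv]
  rw [h7] at h5
  set J := ∫ φ in (-(Real.pi / 2))..(Real.pi / 2), h φ with hJ
  have h8 : Real.pi * Real.log ‖riemannZeta s‖ ≥ J + Real.pi / 2 * Real.log cχ +
      R * Real.log (t / 2) := by
    have h9 : Real.pi * Real.log ‖riemannZeta s‖ = 1 / 2 *
      (J + ∫ φ in (-(Real.pi / 2))..(Real.pi / 2), h (Real.pi - φ)) := by
      rw [hmv]
      field_simp
    rw [h9]
    linarith
  rw [hhalf2] at hhalf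
  have h9 : Real.pi * Real.log A₀ < Real.pi * (R * Real.log (t / 2) / Real.pi -
      1 / 2 * -Real.log cχ - Real.log (2 * A) -
      (2 * (Real.pi / 2 - φ₀) + 4 * κ₃ + A₃ / A ^ 2) / Real.pi * Λ) :=
    mul_lt_mul_of_pos_left h5 hπ
  have h10 : Real.pi * (R * Real.log (t / 2) / Real.pi -
      1 / 2 * -Real.log cχ - Real.log (2 * A) -
      (2 * (Real.pi / 2 - φ₀) + 4 * κ₃ + A₃ / A ^ 2) / Real.pi * Λ) =
      R * Real.log (t / 2) + Real.pi / 2 * Real.log cχ - Real.pi * Real.log (2 * A) -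
      Λ * (2 * (Real.pi / 2 - φ₀) + 4 * κ₃ + A₃ / A ^ 2) := by
    field_simp
    ring
  rw [h10] at h9
  have h11 := mul_le_mul_of_nonneg_left h6 hπ.le
  linarith

end Pool.Agent.H14.CO

end

section

/-!
# CO: the pointwise part of the good set
-/

set_option autoImplicit false

namespace Pool.Agent.H14.CO

open Set MeasureTheory Complex

theorem W_le (T : ℝ) (hT0 : 0 < T) (hL : 30 ≤ Real.log T) : T ^ (9 / 10 : ℝ) ≤ T / 4 := by
  have hexpL : Real.exp (Real.log T) = T := Real.exp_log hT0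
  have e1 : T ^ (9 / 10 : ℝ) = T * Real.exp (-(Real.log T / 10)) := by
    calc T ^ (9 / 10 : ℝ) = Real.exp (Real.log T * (9 / 10)) := Real.rpow_def_of_pos hT0 _
      _ = Real.exp (Real.log T) * Real.exp (-(Real.log T / 10)) := by
          rw [← Real.exp_add]; congr 1; ring
      _ = T * Real.exp (-(Real.log T / 10)) := by rw [hexpL]
  have e2 : Real.exp (-(Real.log T / 10)) ≤ 1 / 4 := by
    rw [Real.exp_neg, one_div]
    apply inv_anti₀ (by norm_num)
    have := Real.add_one_le_exp (Real.log T / 10)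
    linarith
  rw [e1]
  have := mul_le_mul_of_nonneg_left e2 hT0.le
  linarith

theorem K1_bound (CS Cq c₄ G A₁ C₂ q z m : ℝ) (hCS : 0 < CS) (hCq : 0 < Cq) (hc₄ : 0 < c₄)
    (hG : 1 ≤ G) (hA₁ : A₁ = 8 * (Cq * Real.exp (Cq * G)) / c₄)
    (hC₂ : C₂ = (|Real.log (8 * CS * Cq / c₄)| + Cq) / 2)
    (hz : 0 ≤ z) (hm : 0 ≤ m) (h1 : z ^ 2 ≤ CS * q) (h2 : q * m ^ 2 ≤ A₁) :
    z * m ≤ Real.exp (C₂ * G) := by
  have h3 : (z * m) ^ 2 ≤ CS * A₁ := by
    calc (z * m) ^ 2 = z ^ 2 * m ^ 2 := by ring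
      _ ≤ (CS * q) * m ^ 2 := mul_le_mul_of_nonneg_right h1 (sq_nonneg m)
      _ = CS * (q * m ^ 2) := by ring
      _ ≤ CS * A₁ := mul_le_mul_of_nonneg_left h2 hCS.le
  have h4 : CS * A₁ ≤ Real.exp (C₂ * G) ^ 2 := by
    have e1 : CS * A₁ = (8 * CS * Cq / c₄) * Real.exp (Cq * G) := by rw [hA₁]; ring
    have e2 : 8 * CS * Cq / c₄ ≤ Real.exp (|Real.log (8 * CS * Cq / c₄)| * G) := by
      have hp : 0 < 8 * CS * Cq / c₄ := by positivity
      calc 8 * CS * Cq / c₄ = Real.exp (Real.log (8 * CS * Cq / c₄)) := (Real.exp_log hp).symm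
        _ ≤ _ := by
            apply Real.exp_le_exp.2
            have := le_abs_self (Real.log (8 * CS * Cq / c₄))
            have h5 := abs_nonneg (Real.log (8 * CS * Cq / c₄))
            nlinarith
    rw [e1]
    calc (8 * CS * Cq / c₄) * Real.exp (Cq * G)
        ≤ Real.exp (|Real.log (8 * CS * Cq / c₄)| * G) * Real.exp (Cq * G) :=
          mul_le_mul_of_nonneg_right e2 (Real.exp_pos _).le
      _ = Real.exp (C₂ * G) ^ 2 := by
          rw [← Real.exp_add, ← Real.exp_nat_mul]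
          congr 1
          rw [hC₂]; push_cast; ring
  have h5 : 0 ≤ z * m := mul_nonneg hz hm
  exact (pow_le_pow_iff_left₀ h5 (Real.exp_pos _).le (by norm_num)).1 (h3.trans h4)

theorem chi_conv (Cχ cχ : ℝ) (hcχ0 : 0 < cχ) (hcχC : cχ * Cχ ≤ 1)
    (hchi : ∀ x u : ℝ, |x| ≤ 1 / 4 → 1 ≤ |u| →
      ‖riemannZeta (1 / 2 - x + u * I)‖ ≤ Cχ * |u| ^ x * ‖riemannZeta (1 / 2 + x + u * I)‖) :
    ∀ x u : ℝ, 0 ≤ x → x ≤ 1 / 4 → 1 ≤ u →
      cχ * u ^ x * ‖riemannZeta (1 / 2 + x + u * I)‖ ≤ ‖riemannZeta (1 / 2 - x + u * I)‖ := by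
  intro x u hx0 hx1 hu
  have h1 := hchi (-x) u (by rw [abs_neg, abs_of_nonneg hx0]; exact hx1)
    (by rw [abs_of_nonneg (by linarith)]; exact hu)
  rw [abs_of_nonneg (by linarith : 0 ≤ u)] at h1
  have e1 : (1 / 2 - ((-x : ℝ) : ℂ) + u * I) = 1 / 2 + x + u * I := by push_cast; ring
  have e2 : (1 / 2 + ((-x : ℝ) : ℂ) + u * I) = 1 / 2 - x + u * I := by push_cast; ring
  rw [e1, e2] at h1
  have hu0 : 0 < u := by linarith
  have e3 : u ^ x * u ^ (-x) = 1 := by
    rw [← Real.rpow_add hu0, add_neg_cancel, Real.rpow_zero]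
  have hux : 0 < u ^ x := Real.rpow_pos_of_pos hu0 x
  calc cχ * u ^ x * ‖riemannZeta (1 / 2 + x + u * I)‖
      ≤ cχ * u ^ x * (Cχ * u ^ (-x) * ‖riemannZeta (1 / 2 - x + u * I)‖) :=
        mul_le_mul_of_nonneg_left h1 (by positivity)
    _ = (cχ * Cχ) * (u ^ x * u ^ (-x)) * ‖riemannZeta (1 / 2 - x + u * I)‖ := by ring
    _ ≤ 1 * 1 * ‖riemannZeta (1 / 2 - x + u * I)‖ := by
        rw [e3]
        gcongr
    _ = _ := by ring

theorem logt_le (T t : ℝ) (hT0 : 0 < T) (hL : 30 ≤ Real.log T) (ht : T / 2 ≤ t) :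
    Real.log T / 2 ≤ Real.log (t / 2) := by
  have hexpL : Real.exp (Real.log T) = T := Real.exp_log hT0
  rw [Real.le_log_iff_exp_le (by linarith)]
  have e1 : Real.exp (Real.log T / 2) ^ 2 = T := by
    calc Real.exp (Real.log T / 2) ^ 2 = Real.exp (Real.log T) := by
          rw [← Real.exp_nat_mul]; congr 1; push_cast; ring
      _ = T := hexpL
  have e2 : 4 ≤ Real.exp (Real.log T / 2) := by
    have := Real.add_one_le_exp (Real.log T / 2)
    linarith
  nlinarith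

theorem num5 (G R L lt κs κ₀ K₁ la lA lc X₀ : ℝ) (hG : 1 < G) (hR : 0 < R) (hLR : L * R = G)
    (hlt : L / 2 ≤ lt) (hκs0 : 0 ≤ κs) (hκs1 : κs ≤ κ₀) (hκ₀1 : κ₀ ≤ 1 / 16)
    (hK : 0 ≤ K₁) (hκK : κ₀ * (2 * K₁) ≤ G / 8) (hlA : 0 ≤ lA)
    (hX₀ : X₀ = la + 1 / 2 * lc + 4 * lA) (hX : X₀ < 3 * G / 32) :
    la < R * lt / Real.pi - 1 / 2 * lc - lA - κs / Real.pi * (2 * K₁ + 3 * lA) := by
  have hπ := Real.pi_pos
  have hπ4 := Real.pi_le_four
  have hπ3 := Real.pi_gt_three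
  have h1 : G / 2 ≤ R * lt := by
    calc G / 2 = R * (L / 2) := by rw [← hLR]; ring
      _ ≤ _ := mul_le_mul_of_nonneg_left hlt hR.le
  have h2 : κs / Real.pi * (2 * K₁ + 3 * lA) ≤ (G / 8 + 3 * lA) / Real.pi := by
    rw [div_mul_eq_mul_div]
    apply div_le_div_of_nonneg_right _ hπ.le
    have h3 : κs * (2 * K₁) ≤ κ₀ * (2 * K₁) := mul_le_mul_of_nonneg_right hκs1 (by positivity)
    have h4 : κs * (3 * lA) ≤ 1 * (3 * lA) :=
      mul_le_mul_of_nonneg_right (by linarith) (by positivity)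
    linarith
  have h5 : G / 2 / Real.pi ≤ R * lt / Real.pi := div_le_div_of_nonneg_right h1 hπ.le
  have h6 : (G / 8 + 3 * lA) / Real.pi ≤ G / 8 / Real.pi + 3 * lA := by
    rw [add_div]
    have : 3 * lA / Real.pi ≤ 3 * lA := div_le_self (by positivity) (by linarith)
    linarith
  have h7 : 3 * G / 32 ≤ G / 2 / Real.pi - G / 8 / Real.pi := by
    have : G / 2 / Real.pi - G / 8 / Real.pi = (3 * G / 8) / Real.pi := by ring
    rw [this, le_div_iff₀ hπ]
    nlinarith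
  rw [hX₀] at hX
  linarith

/-- pointwise: the four bounds give a zero -/
theorem good_point (CS Cq Cχ c₄ C₂ κ₀ A₁ A₂ A₃ A κ₃ φ₀ cχ X₀ G L R T t m z₀ : ℝ)
    (hCS : 0 < CS) (hCq : 0 < Cq) (hc₄ : 0 < c₄)
    (hsup : ∀ R : ℝ, 0 < R → R ≤ 1 / 100 → ∀ t : ℝ, ∀ w : ℂ,
      ‖w‖ ≤ 6 * R → ‖riemannZeta (1 / 2 + t * I + w)‖ ^ 2 ≤ CS * Qf R t)
    (hchi : ∀ x u : ℝ, |x| ≤ 1 / 4 → 1 ≤ |u| →
      ‖riemannZeta (1 / 2 - x + u * I)‖ ≤ Cχ * |u| ^ x * ‖riemannZeta (1 / 2 + x + u * I)‖)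
    (hcχ0 : 0 < cχ) (hcχ1 : cχ ≤ 1) (hcχC : cχ * Cχ ≤ 1)
    (hC₂ : C₂ = (|Real.log (8 * CS * Cq / c₄)| + Cq) / 2)
    (hκ₀ : κ₀ = 1 / (16 * (C₂ + 1)))
    (hA₁ : A₁ = 8 * (Cq * Real.exp (Cq * G)) / c₄) (hA₂0 : 0 < A₂) (hA₃0 : 0 < A₃)
    (hA1 : 1 ≤ A) (hAκ : A₃ / A ^ 2 ≤ κ₀ / 8) (hκ₃ : κ₃ = κ₀ / 32)
    (hX₀ : X₀ = Real.log (Real.sqrt A₂) + 1 / 2 * Real.log (1 / cχ) + 4 * Real.log (2 * A))
    (hG1 : 1 < G) (hφ0 : 0 ≤ φ₀) (hφ1 : φ₀ ≤ Real.pi / 2)
    (hg3 : 2 * (Real.pi / 2 - φ₀) ≤ κ₀ / 8) (hg4 : X₀ < 3 * G / 32)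
    (hT0 : 0 < T) (hL : L = Real.log T) (hLG : 600 * G ≤ L) (hR : R = G / L)
    (ht1 : T / 2 ≤ t) (hm : m = ‖Mo z₀ (pt 0 t)‖) (hm0 : 0 < m)
    (n1 : Qf R t * m ^ 2 ≤ A₁)
    (n2 : ‖riemannZeta (pt 0 t)‖ ^ 2 * m ^ 2 ≤ A₂)
    (n3 : ∫ φ in (-φ₀)..φ₀, ‖riemannZeta (1 / 2 + t * I + R * Complex.exp (φ * I)) *
      Mo z₀ (1 / 2 + t * I + R * Complex.exp (φ * I)) - 1‖ ^ 2 ≤ κ₃)
    (n4 : ∫ φ in (-φ₀)..φ₀, ‖Mo z₀ (1 / 2 + t * I + R * Complex.exp (φ * I))‖ ^ 2 ≤
      A₃ * m ^ 2) :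
    ∃ ρ : ℂ, riemannZeta ρ = 0 ∧ 1 / 2 ≤ ρ.re ∧ ‖ρ - pt 0 t‖ ≤ 6 * G / L := by
  have hC₂0 : 0 < C₂ := by rw [hC₂]; positivity
  have hκ₀0 : 0 < κ₀ := by rw [hκ₀]; positivity
  have hκ₀1 : κ₀ ≤ 1 / 16 := by
    rw [hκ₀]
    apply one_div_le_one_div_of_le (by norm_num)
    linarith
  have hL0 : 0 < L := by linarith
  have hR0 : 0 < R := by rw [hR]; positivity
  have hR1 : R ≤ 1 / 600 := by
    rw [hR, div_le_iff₀ hL0]; linarith
  have hR100 : R ≤ 1 / 100 := by linarith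
  have hLR : L * R = G := by rw [hR]; field_simp
  have hL30 : 30 ≤ Real.log T := by rw [← hL]; linarith
  have hT600 : 600 ≤ T := by
    have h1 := Real.add_one_le_exp (Real.log T)
    rw [Real.exp_log hT0, ← hL] at h1
    linarith
  have ht100 : 100 ≤ t := by linarith
  have hpt0 : pt 0 t = 1 / 2 + t * I := by unfold pt; ring
  rw [hpt0] at n2
  have hK₁ : ∀ z : ℂ, ‖z - (1 / 2 + t * I)‖ ≤ 6 * R →
      ‖riemannZeta z‖ * m ≤ Real.exp (C₂ * G) := by
    intro z hz
    have h1 := hsup R hR0 hR100 t (z - (1 / 2 + t * I)) hz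
    have h2 : (1 / 2 + t * I + (z - (1 / 2 + t * I)) : ℂ) = z := by ring
    rw [h2] at h1
    exact K1_bound CS Cq c₄ G A₁ C₂ (Qf R t) _ m hCS hCq hc₄ hG1.le hA₁ hC₂ (norm_nonneg _)
      hm0.le h1 n1
  have hA₀ : ‖riemannZeta (1 / 2 + t * I)‖ * m ≤ Real.sqrt A₂ := by
    apply Real.le_sqrt_of_sq_le
    rw [mul_pow]; exact n2
  have hlogt : L / 2 ≤ Real.log (t / 2) := by
    rw [hL]; exact logt_le T t hT0 hL30 ht1
  have hlog2A : 0 ≤ Real.log (2 * A) := Real.log_nonneg (by linarith)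
  have hκ₃0 : 0 < κ₃ := by rw [hκ₃]; positivity
  have hκs1 : 2 * (Real.pi / 2 - φ₀) + 4 * κ₃ + A₃ / A ^ 2 ≤ κ₀ := by
    rw [hκ₃]
    linarith
  have hκs0 : 0 ≤ 2 * (Real.pi / 2 - φ₀) + 4 * κ₃ + A₃ / A ^ 2 := by
    have : 0 ≤ Real.pi / 2 - φ₀ := by linarith
    positivity
  have hκC : κ₀ * (2 * (C₂ * G)) ≤ G / 8 := by
    have h1 : κ₀ * (C₂ + 1) = 1 / 16 := by rw [hκ₀]; field_simp
    have h2 : κ₀ * C₂ ≤ 1 / 16 := by
      have : κ₀ * C₂ ≤ κ₀ * (C₂ + 1) := mul_le_mul_of_nonneg_left (by linarith) hκ₀0.le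
      linarith
    have h3 := mul_le_mul_of_nonneg_right h2 (show 0 ≤ 2 * G by linarith)
    linarith
  have h5 := num5 G R L (Real.log (t / 2)) _ κ₀ (C₂ * G) (Real.log (Real.sqrt A₂))
    (Real.log (2 * A)) (Real.log (1 / cχ)) X₀ hG1 hR0 hLR hlogt hκs0 hκs1 hκ₀1 (by positivity)
    hκC hlog2A hX₀ hg4
  have hκ1 : 2 * (Real.pi / 2 - φ₀) + 4 * κ₃ + A₃ / A ^ 2 < 1 := by
    have h0 : κ₀ < 1 := lt_of_le_of_lt hκ₀1 (by norm_num)
    exact lt_of_le_of_lt hκs1 h0
  obtain ⟨ρ, hρ0, hρd⟩ := zdet t R m (C₂ * G) (Real.sqrt A₂) A A₃ κ₃ φ₀ cχ (Mo z₀)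
    (continuous_Mo z₀) ht100 hR0 hR100 hm0 (by positivity) (Real.sqrt_pos.2 hA₂0) hA1 hA₃0.le
    hκ₃0.le hφ0 hφ1 hcχ0 hcχ1 (chi_conv Cχ cχ hcχ0 hcχC hchi) hK₁ hA₀ n3 n4 hκ1 h5
  obtain ⟨ρ', r1, r2, r3⟩ := reflect_zero t (6 * R) (by linarith) ρ hρ0 hρd
  refine ⟨ρ', r1, r2, ?_⟩
  rw [hpt0]
  refine r3.trans (le_of_eq ?_)
  rw [hR]; ring

end Pool.Agent.H14.CO

end

section

/-!
# CO: mean square of the supremum weight, and Chebyshev-type bounds for bad sets
-/

set_option autoImplicit false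

namespace Pool.Agent.H14.CO

open Set MeasureTheory Complex

/-- Chebyshev: the `g`-mass of the set where `f > A`. -/
theorem markov_mass (f g : ℝ → ℝ) (a b A M : ℝ) (hf : Measurable f) (hf0 : ∀ t, 0 ≤ f t)
    (hg : Continuous g) (hg0 : ∀ t, 0 ≤ g t) (hA : 0 < A)
    (hfg : IntegrableOn (fun t => f t * g t) (Icc a b))
    (hM : ∫ t in Icc a b, f t * g t ≤ M) :
    ∫ t in Icc a b ∩ {t | A < f t}, g t ≤ M / A := by
  have hms : MeasurableSet {t | A < f t} := measurableSet_lt measurable_const hf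
  have hgi : IntegrableOn g (Icc a b) := hg.continuousOn.integrableOn_Icc
  rw [le_div_iff₀ hA]
  calc (∫ t in Icc a b ∩ {t | A < f t}, g t) * A
      = ∫ t in Icc a b ∩ {t | A < f t}, A * g t := by
        rw [integral_const_mul]; ring
    _ ≤ ∫ t in Icc a b ∩ {t | A < f t}, f t * g t := by
        apply setIntegral_mono_on ((hgi.mono_set inter_subset_left).const_mul A)
          (hfg.mono_set inter_subset_left) (measurableSet_Icc.inter hms)
        intro t ht
        exact mul_le_mul_of_nonneg_right ht.2.le (hg0 t)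
    _ ≤ ∫ t in Icc a b, f t * g t := by
        apply setIntegral_mono_set hfg
        · exact Filter.Eventually.of_forall fun t => mul_nonneg (hf0 t) (hg0 t)
        · exact Filter.Eventually.of_forall fun t ht => ht.1
    _ ≤ M := hM

theorem gw_lower (τ W t : ℝ) (hW : 0 < W) (ht : t ∈ Icc (τ - W) (τ + W)) :
    Real.exp (-1) ≤ gw τ W t := by
  unfold gw
  apply Real.exp_le_exp.2
  have h1 : |(t - τ) / W| ≤ 1 := by
    rw [abs_div, abs_of_pos hW, div_le_one hW, abs_le]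
    constructor <;> linarith [ht.1, ht.2]
  have h2 : ((t - τ) / W) ^ 2 ≤ 1 := by
    rw [← sq_abs]
    exact pow_le_one₀ (abs_nonneg _) h1
  linarith

/-- passing from the Gaussian weight to the interval -/
theorem interval_of_gauss (f : ℝ → ℝ) (hf0 : ∀ t, 0 ≤ f t) (τ W M : ℝ) (hW : 0 < W)
    (hfm : AEStronglyMeasurable f)
    (hi : Integrable (fun t => f t * gw τ W t)) (hM : ∫ t, f t * gw τ W t ≤ M) :
    IntegrableOn f (Icc (τ - W) (τ + W)) ∧ ∫ t in Icc (τ - W) (τ + W), f t ≤ Real.exp 1 * M := by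
  have hpt : ∀ t ∈ Icc (τ - W) (τ + W), f t ≤ Real.exp 1 * (f t * gw τ W t) := by
    intro t ht
    have h1 := gw_lower τ W t hW ht
    have h2 : 1 ≤ Real.exp 1 * gw τ W t := by
      calc (1 : ℝ) = Real.exp 1 * Real.exp (-1) := by rw [← Real.exp_add]; simp
        _ ≤ _ := mul_le_mul_of_nonneg_left h1 (Real.exp_pos _).le
    calc f t = f t * 1 := by ring
      _ ≤ f t * (Real.exp 1 * gw τ W t) := mul_le_mul_of_nonneg_left h2 (hf0 t)
      _ = _ := by ring
  have hi2 : IntegrableOn (fun t => Real.exp 1 * (f t * gw τ W t)) (Icc (τ - W) (τ + W)) :=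
    (hi.const_mul _).integrableOn
  have hio : IntegrableOn f (Icc (τ - W) (τ + W)) := by
    refine hi2.mono' hfm.restrict ?_
    refine (ae_restrict_iff' measurableSet_Icc).2 (Filter.Eventually.of_forall fun t ht => ?_)
    rw [Real.norm_eq_abs, abs_of_nonneg (hf0 t)]
    exact hpt t ht
  refine ⟨hio, ?_⟩
  calc ∫ t in Icc (τ - W) (τ + W), f t
      ≤ ∫ t in Icc (τ - W) (τ + W), Real.exp 1 * (f t * gw τ W t) :=
        setIntegral_mono_on hio hi2 measurableSet_Icc hpt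
    _ ≤ ∫ t, Real.exp 1 * (f t * gw τ W t) := by
        apply setIntegral_le_integral (hi.const_mul _)
        refine Filter.Eventually.of_forall fun t => ?_
        have : 0 ≤ gw τ W t := (Real.exp_pos _).le
        have := hf0 t
        positivity
    _ ≤ _ := by rw [integral_const_mul]; exact mul_le_mul_of_nonneg_left hM (Real.exp_pos _).le

/-- `∫ qk R y (1+|y|/R)^8 (1+|y|)^k dy ≤ C`. -/
theorem qk_moment (k : ℕ) : ∃ C : ℝ, 0 < C ∧ ∀ R : ℝ, 0 < R →
    Integrable (fun y : ℝ => qk R y * ((1 + |y| / R) ^ 8 * (1 + |y|) ^ k)) ∧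
    ∫ y : ℝ, qk R y * ((1 + |y| / R) ^ 8 * (1 + |y|) ^ k) ≤ C := by
  -- bound of the Gaussian factor
  obtain ⟨D, hD⟩ : ∃ D : ℝ, ∀ y : ℝ, (1 + |y|) ^ k * Real.exp (-(y ^ 2) / 2) ≤ D := by
    have hc : Continuous fun x : ℝ => (1 + x) ^ k * Real.exp (-(x ^ 2) / 2) := by fun_prop
    have ht : Filter.Tendsto (fun x : ℝ => (1 + x) ^ k * Real.exp (-(x ^ 2) / 2))
        Filter.atTop (nhds 0) := by
      have h1 : Filter.Tendsto (fun x : ℝ => (1 + x) ^ k * Real.exp (-(1 + x)))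
          Filter.atTop (nhds 0) :=
        (Real.tendsto_pow_mul_exp_neg_atTop_nhds_zero k).comp
          (Filter.tendsto_atTop_add_const_left _ 1 Filter.tendsto_id)
      refine squeeze_zero' ?_ ?_ h1
      · filter_upwards [Filter.eventually_ge_atTop 0] with x hx
        positivity
      · filter_upwards [Filter.eventually_ge_atTop 4] with x hx
        apply mul_le_mul_of_nonneg_left _ (by positivity)
        apply Real.exp_le_exp.2
        nlinarith
    obtain ⟨D, hD⟩ : ∃ D : ℝ, ∀ x : ℝ, 0 ≤ x → (1 + x) ^ k * Real.exp (-(x ^ 2) / 2) ≤ D := by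
      have h2 := ht.eventually (ge_mem_nhds (zero_lt_one))
      obtain ⟨X, hX⟩ := Filter.eventually_atTop.1 h2
      obtain ⟨M, hM⟩ := (isCompact_Icc (a := (0 : ℝ)) (b := max X 0)).exists_bound_of_continuousOn
        hc.continuousOn
      refine ⟨max 1 M, fun x hx => ?_⟩
      rcases le_total X x with h | h
      · exact (hX x h).trans (le_max_left _ _)
      · exact ((le_abs_self _).trans (hM x ⟨hx, h.trans (le_max_left _ _)⟩)).trans
          (le_max_right _ _)
    refine ⟨D, fun y => ?_⟩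
    have := hD |y| (abs_nonneg y)
    rwa [sq_abs] at this
  have hD0 : 0 < D := by
    have h0 := hD 0
    rw [abs_zero, add_zero, one_pow, one_mul] at h0
    exact (Real.exp_pos _).trans_le h0
  have hl : Integrable fun y : ℝ => (1 + y ^ 2)⁻¹ := integrable_inv_one_add_sq
  refine ⟨D * Real.pi, by positivity, ?_⟩
  intro R hR
  have hb : ∀ y : ℝ, qk R y * ((1 + |y| / R) ^ 8 * (1 + |y|) ^ k) ≤
      D * (1 / R * (1 + (y / R) ^ 2)⁻¹) := by
    intro y
    have hp : 0 < 1 + |y| / R := by positivity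
    have e1 : qk R y * ((1 + |y| / R) ^ 8 * (1 + |y|) ^ k) =
        1 / R * (((1 + |y| / R) ^ 32)⁻¹ * (1 + |y| / R) ^ 8) *
          ((1 + |y|) ^ k * Real.exp (-(y ^ 2) / 2)) := by
      unfold qk
      generalize (1 + |y|) ^ k = P
      generalize ((1 + |y| / R) ^ 32)⁻¹ = P2
      generalize (1 + |y| / R) ^ 8 = P3
      ring
    have e2 : ((1 + |y| / R) ^ 32)⁻¹ * (1 + |y| / R) ^ 8 ≤ (1 + (y / R) ^ 2)⁻¹ := by
      have e3 : ((1 + |y| / R) ^ 32)⁻¹ * (1 + |y| / R) ^ 8 = ((1 + |y| / R) ^ 24)⁻¹ := by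
        have : (1 + |y| / R) ^ 32 = (1 + |y| / R) ^ 24 * (1 + |y| / R) ^ 8 := by
          rw [← pow_add]
        rw [this, mul_inv, mul_assoc, inv_mul_cancel₀ (by positivity), mul_one]
      rw [e3]
      apply inv_anti₀ (by positivity)
      have e4 : 1 + (y / R) ^ 2 ≤ (1 + |y| / R) ^ 2 := by
        have : (y / R) ^ 2 = (|y| / R) ^ 2 := by rw [div_pow, div_pow, sq_abs]
        rw [this]
        have : 0 ≤ |y| / R := by positivity
        nlinarith
      refine e4.trans ?_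
      apply pow_le_pow_right₀ _ (by norm_num)
      have : 0 ≤ |y| / R := by positivity
      linarith
    rw [e1]
    calc _ ≤ 1 / R * (1 + (y / R) ^ 2)⁻¹ * D := by
          apply mul_le_mul (mul_le_mul_of_nonneg_left e2 (by positivity)) (hD y) (by positivity)
            (by positivity)
      _ = _ := by ring
  have hi1 : Integrable fun y : ℝ => D * (1 / R * (1 + (y / R) ^ 2)⁻¹) := by
    apply Integrable.const_mul
    apply Integrable.const_mul
    exact hl.comp_div hR.ne'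
  have hi : Integrable (fun y : ℝ => qk R y * ((1 + |y| / R) ^ 8 * (1 + |y|) ^ k)) := by
    refine hi1.mono' ?_ (Filter.Eventually.of_forall fun y => ?_)
    · have := continuous_qk R hR
      have h2 : Continuous fun y : ℝ => (1 + |y| / R) ^ 8 * (1 + |y|) ^ k := by fun_prop
      exact (this.mul h2).aestronglyMeasurable
    · rw [Real.norm_eq_abs, abs_of_nonneg (mul_nonneg (qk_nonneg R y hR) (by positivity))]
      exact hb y
  refine ⟨hi, ?_⟩
  calc _ ≤ ∫ y : ℝ, D * (1 / R * (1 + (y / R) ^ 2)⁻¹) := integral_mono hi hi1 hb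
    _ = _ := by
        rw [integral_const_mul, integral_const_mul,
          Measure.integral_comp_div (fun x : ℝ => (1 + x ^ 2)⁻¹) R, integral_univ_inv_one_add_sq,
          abs_of_pos hR, smul_eq_mul]
        field_simp

end Pool.Agent.H14.CO

end

section

set_option autoImplicit false

namespace Pool.Agent.H95.GC

open Set MeasureTheory

/-- the window function in the logarithmic variable -/
noncomputable def g (δ u : ℝ) : ℝ := M (Real.exp u) (δ * Real.exp u)

theorem measurable_g (δ : ℝ) : Measurable (g δ) := by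
  have h : g δ = fun u => Function.uncurry M (Real.exp u, δ * Real.exp u) := by
    funext u; rfl
  rw [h]
  exact measurable_M.comp (by fun_prop)

theorem abs_g_le (δ u : ℝ) (hδ0 : 0 < δ) (hδ1 : δ ≤ 1) : |g δ u| ≤ Real.exp u + 1 := by
  have h := abs_M_le (Real.exp u) (δ * Real.exp u) (by positivity)
  have h2 : δ * Real.exp u ≤ 1 * Real.exp u :=
    mul_le_mul_of_nonneg_right hδ1 (Real.exp_pos u).le
  unfold g
  linarith

theorem g_eq_zero (δ u : ℝ) (hδ0 : 0 < δ) (hδ1 : δ ≤ 1) (hu : u ≤ -1) : g δ u = 0 := by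
  unfold g
  apply M_eq_zero _ _ hδ0 hδ1 (Real.exp_pos u)
  have h1 : Real.exp u ≤ Real.exp (-1) := Real.exp_le_exp.mpr hu
  have h2 : Real.exp (-1) ≤ 2 / 3 := by
    rw [Real.exp_neg]
    have := Real.exp_one_gt_d9
    rw [inv_le_comm₀ (Real.exp_pos 1) (by norm_num)]
    linarith
  linarith

end Pool.Agent.H95.GC

end

section

/-!
# CO module LSamp: large sieve with slowly varying amplitudes
-/

set_option autoImplicit false

namespace Pool.Agent.H14.CO

open Set MeasureTheory Complex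

theorem LSamp_summable : Summable fun m : ℤ => 8 / (1 + (m : ℝ) ^ 2) := by
  have h1 : Summable fun m : ℤ => 1 / (m : ℝ) ^ 2 := Real.summable_one_div_int_pow.2 (by norm_num)
  have h2 : Summable fun m : ℤ => 8 * (1 / (m : ℝ) ^ 2) + (if m = 0 then (8 : ℝ) else 0) :=
    (h1.mul_left 8).add (summable_of_ne_finset_zero (s := {0}) fun b hb => by
      rw [Finset.mem_singleton] at hb
      rw [if_neg hb])
  refine Summable.of_nonneg_of_le (fun m => by positivity) (fun m => ?_) h2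
  by_cases hm : m = 0
  · subst hm; simp
  · rw [if_neg hm, add_zero, mul_one_div]
    have h3 : (0 : ℝ) < (m : ℝ) ^ 2 := by positivity
    exact div_le_div_of_nonneg_left (by norm_num) h3 (by linarith)

theorem LSamp_floor (x : ℝ) : Real.exp (-x ^ 2 / 4) ≤ 8 / (1 + ((⌊x⌋ : ℤ) : ℝ) ^ 2) := by
  have h1 := Int.floor_le x
  have h2 := Int.lt_floor_add_one x
  set m : ℝ := ((⌊x⌋ : ℤ) : ℝ)
  have h3 : m ^ 2 ≤ 2 * x ^ 2 + 2 := by nlinarith [sq_nonneg (x + (m - x)), sq_nonneg (m - 2 * x)]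
  have h4 := Real.add_one_le_exp (x ^ 2 / 4)
  have h5 : Real.exp (-x ^ 2 / 4) = (Real.exp (x ^ 2 / 4))⁻¹ := by
    rw [← Real.exp_neg]; congr 1; ring
  have h6 : (0 : ℝ) < 1 + m ^ 2 := by positivity
  rw [h5, inv_le_comm₀ (Real.exp_pos _) (by positivity), inv_div, div_le_iff₀ (by norm_num)]
  nlinarith

/-- Gaussian sums over `1`-separated points. -/
theorem LSamp_sep : ∃ C : ℝ, 0 < C ∧ ∀ (n : ℕ) (x : ℕ → ℝ),
    (∀ i < n, ∀ j < n, i ≠ j → 1 ≤ |x i - x j|) →
    ∑ j ∈ Finset.range n, Real.exp (-(x j) ^ 2 / 4) ≤ C := by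
  refine ⟨(∑' m : ℤ, 8 / (1 + (m : ℝ) ^ 2)) + 1, ?_, fun n x hx => ?_⟩
  · have : 0 ≤ ∑' m : ℤ, 8 / (1 + (m : ℝ) ^ 2) := tsum_nonneg fun m => by positivity
    linarith
  have hinj : Set.InjOn (fun j => ⌊x j⌋) (Finset.range n : Set ℕ) := by
    intro i hi j hj hij
    by_contra hne
    have h1 := hx i (Finset.mem_range.1 hi) j (Finset.mem_range.1 hj) hne
    have h2 := Int.abs_sub_lt_one_of_floor_eq_floor hij
    linarith
  calc ∑ j ∈ Finset.range n, Real.exp (-(x j) ^ 2 / 4)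
      ≤ ∑ j ∈ Finset.range n, 8 / (1 + ((⌊x j⌋ : ℤ) : ℝ) ^ 2) :=
        Finset.sum_le_sum fun j _ => LSamp_floor (x j)
    _ = ∑ m ∈ (Finset.range n).image (fun j => ⌊x j⌋), 8 / (1 + (m : ℝ) ^ 2) := by
        rw [Finset.sum_image hinj]
    _ ≤ ∑' m : ℤ, 8 / (1 + (m : ℝ) ^ 2) :=
        LSamp_summable.sum_le_tsum _ fun m _ => by positivity
    _ ≤ _ := by linarith

/-- The Gaussian weight. -/
theorem LSamp_wint (a : ℝ) {X : ℝ} (hX : 0 < X) :
    Integrable fun u : ℝ => Real.exp (-((u - a) / X) ^ 2) := by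
  have h1 : Integrable fun u : ℝ => Real.exp (-(1 / X ^ 2) * u ^ 2) :=
    integrable_exp_neg_mul_sq (by positivity)
  have h2 := h1.comp_sub_right a
  refine h2.congr (Filter.Eventually.of_forall fun u => ?_)
  show Real.exp (-(1 / X ^ 2) * (u - a) ^ 2) = Real.exp (-((u - a) / X) ^ 2)
  congr 1
  rw [div_pow]; ring

theorem LSamp_fourier (a : ℝ) {X : ℝ} (hX : 0 < X) (δ : ℝ) :
    ‖∫ u : ℝ, ((Real.exp (-((u - a) / X) ^ 2) : ℝ) : ℂ) * Complex.exp (-(δ * u * I))‖ =
      √Real.pi * X * Real.exp (-(X * δ) ^ 2 / 4) := by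
  have h1 : (fun u : ℝ => ((Real.exp (-((u - a) / X) ^ 2) : ℝ) : ℂ) *
      Complex.exp (-(δ * u * I))) = fun u : ℝ => (fun v : ℝ => Complex.exp (-(δ * a * I)) *
        (Complex.exp (I * ((-δ : ℝ) : ℂ) * v) * Complex.exp (-((1 / X ^ 2 : ℝ) : ℂ) * v ^ 2)))
          (u - a) := by
    funext u
    show _ = Complex.exp (-(δ * a * I)) * (Complex.exp (I * ((-δ : ℝ) : ℂ) * ((u - a : ℝ) : ℂ)) *
      Complex.exp (-((1 / X ^ 2 : ℝ) : ℂ) * ((u - a : ℝ) : ℂ) ^ 2))
    rw [← Complex.exp_add, ← Complex.exp_add, Complex.ofReal_exp, ← Complex.exp_add]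
    congr 1
    push_cast
    field_simp
    ring
  rw [h1, integral_sub_right_eq_self (fun v : ℝ => Complex.exp (-(δ * a * I)) *
        (Complex.exp (I * ((-δ : ℝ) : ℂ) * v) * Complex.exp (-((1 / X ^ 2 : ℝ) : ℂ) * v ^ 2))) a,
    integral_const_mul, norm_mul]
  have hb : (0 : ℝ) < ((1 / X ^ 2 : ℝ) : ℂ).re := by rw [Complex.ofReal_re]; positivity
  rw [fourierIntegral_gaussian hb, norm_mul]
  have h2 : ‖Complex.exp (-(δ * a * I))‖ = 1 := by
    rw [Complex.norm_exp]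
    simp
  have h3 : ((Real.pi : ℂ) / ((1 / X ^ 2 : ℝ) : ℂ)) = ((Real.pi * X ^ 2 : ℝ) : ℂ) := by
    push_cast; field_simp
  have h4 : ‖((Real.pi : ℂ) / ((1 / X ^ 2 : ℝ) : ℂ)) ^ (1 / 2 : ℂ)‖ = √Real.pi * X := by
    rw [h3, Complex.norm_cpow_eq_rpow_re_of_pos (by positivity)]
    have : (1 / 2 : ℂ).re = 1 / 2 := by norm_num
    rw [this, ← Real.sqrt_eq_rpow, Real.sqrt_mul Real.pi_pos.le, Real.sqrt_sq hX.le]
  have h5 : ‖Complex.exp (-((-δ : ℝ) : ℂ) ^ 2 / (4 * ((1 / X ^ 2 : ℝ) : ℂ)))‖ =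
      Real.exp (-(X * δ) ^ 2 / 4) := by
    have : -((-δ : ℝ) : ℂ) ^ 2 / (4 * ((1 / X ^ 2 : ℝ) : ℂ)) = ((-(X * δ) ^ 2 / 4 : ℝ) : ℂ) := by
      push_cast; field_simp
    rw [this, Complex.norm_exp, Complex.ofReal_re]
  rw [h2, h4, h5, one_mul]

/-- Schur test. -/
theorem LSamp_schur (n : ℕ) (c : ℕ → ℝ) (K : ℕ → ℕ → ℝ) (B : ℝ)
    (hK : ∀ i j, 0 ≤ K i j) (hs : ∀ i j, K i j = K j i)
    (hB : ∀ i < n, ∑ j ∈ Finset.range n, K i j ≤ B) :
    ∑ i ∈ Finset.range n, ∑ j ∈ Finset.range n, c i * c j * K i j ≤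
      B * ∑ i ∈ Finset.range n, c i ^ 2 := by
  have h1 : ∀ i j, c i * c j * K i j ≤ (c i ^ 2 * K i j + c j ^ 2 * K i j) / 2 := by
    intro i j
    have := mul_nonneg (sq_nonneg (c i - c j)) (hK i j)
    nlinarith
  calc ∑ i ∈ Finset.range n, ∑ j ∈ Finset.range n, c i * c j * K i j
      ≤ ∑ i ∈ Finset.range n, ∑ j ∈ Finset.range n, (c i ^ 2 * K i j + c j ^ 2 * K i j) / 2 :=
        Finset.sum_le_sum fun i _ => Finset.sum_le_sum fun j _ => h1 i j
    _ = (∑ i ∈ Finset.range n, ∑ j ∈ Finset.range n, c i ^ 2 * K i j +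
          ∑ i ∈ Finset.range n, ∑ j ∈ Finset.range n, c j ^ 2 * K i j) / 2 := by
        simp only [← Finset.sum_div, Finset.sum_add_distrib]
    _ = ∑ i ∈ Finset.range n, ∑ j ∈ Finset.range n, c i ^ 2 * K i j := by
        have h2 : ∑ i ∈ Finset.range n, ∑ j ∈ Finset.range n, c j ^ 2 * K i j =
            ∑ i ∈ Finset.range n, ∑ j ∈ Finset.range n, c i ^ 2 * K i j := by
          rw [Finset.sum_comm]
          exact Finset.sum_congr rfl fun i _ => Finset.sum_congr rfl fun j _ => by rw [hs j i]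
        rw [h2]; ring
    _ = ∑ i ∈ Finset.range n, c i ^ 2 * ∑ j ∈ Finset.range n, K i j := by
        simp only [Finset.mul_sum]
    _ ≤ ∑ i ∈ Finset.range n, c i ^ 2 * B :=
        Finset.sum_le_sum fun i hi =>
          mul_le_mul_of_nonneg_left (hB i (Finset.mem_range.1 hi)) (sq_nonneg _)
    _ = B * ∑ i ∈ Finset.range n, c i ^ 2 := by rw [← Finset.sum_mul, mul_comm]

theorem LSamp_cont (n : ℕ) (γ : ℕ → ℝ) (b : ℕ → ℂ) :
    Continuous fun u : ℝ => ∑ i ∈ Finset.range n, b i * Complex.exp (-(γ i * u * I)) := by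
  fun_prop

/-- Expansion of the weighted mean square. -/
theorem LSamp_weighted (n : ℕ) (γ : ℕ → ℝ) (b : ℕ → ℂ) (a : ℝ) {X : ℝ} (hX : 0 < X) :
    Integrable (fun u : ℝ => Real.exp (-((u - a) / X) ^ 2) *
      ‖∑ i ∈ Finset.range n, b i * Complex.exp (-(γ i * u * I))‖ ^ 2) ∧
    ∫ u : ℝ, Real.exp (-((u - a) / X) ^ 2) *
      ‖∑ i ∈ Finset.range n, b i * Complex.exp (-(γ i * u * I))‖ ^ 2 ≤
      ∑ i ∈ Finset.range n, ∑ j ∈ Finset.range n, ‖b i‖ * ‖b j‖ *
        (√Real.pi * X * Real.exp (-(X * (γ i - γ j)) ^ 2 / 4)) := by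
  set w : ℝ → ℝ := fun u => Real.exp (-((u - a) / X) ^ 2) with hw
  have hexp : ∀ u : ℝ, ((w u * ‖∑ i ∈ Finset.range n,
      b i * Complex.exp (-(γ i * u * I))‖ ^ 2 : ℝ) : ℂ) =
      ∑ i ∈ Finset.range n, ∑ j ∈ Finset.range n, b i * (starRingEnd ℂ) (b j) *
        (((w u : ℝ) : ℂ) * Complex.exp (-(((γ i - γ j : ℝ) : ℂ) * u * I))) := by
    intro u
    rw [← Complex.normSq_eq_norm_sq, Complex.ofReal_mul, ← Complex.mul_conj, map_sum,
      Finset.sum_mul_sum, Finset.mul_sum]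
    refine Finset.sum_congr rfl fun i _ => ?_
    rw [Finset.mul_sum]
    refine Finset.sum_congr rfl fun j _ => ?_
    have h1 : (starRingEnd ℂ) (b j * Complex.exp (-(γ j * u * I))) =
        (starRingEnd ℂ) (b j) * Complex.exp (γ j * u * I) := by
      rw [map_mul, ← Complex.exp_conj]
      congr 2
      simp
    have h2 : Complex.exp (-(((γ i - γ j : ℝ) : ℂ) * u * I)) =
        Complex.exp (-(γ i * u * I)) * Complex.exp (γ j * u * I) := by
      rw [← Complex.exp_add]; congr 1; push_cast; ring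
    rw [h1, h2]; ring
  have hint : ∀ δ : ℝ, Integrable fun u : ℝ => ((w u : ℝ) : ℂ) *
      Complex.exp (-((δ : ℂ) * u * I)) := by
    intro δ
    refine (LSamp_wint a hX).mono' ?_ (Filter.Eventually.of_forall fun u => ?_)
    · exact (by fun_prop : Continuous fun u : ℝ => ((Real.exp (-((u - a) / X) ^ 2) : ℝ) : ℂ) *
        Complex.exp (-((δ : ℂ) * u * I))).aestronglyMeasurable
    · rw [norm_mul, Complex.norm_real, Complex.norm_exp]
      simp [hw]
  have hint2 : ∀ i ∈ Finset.range n, ∀ j ∈ Finset.range n, Integrable fun u : ℝ =>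
      b i * (starRingEnd ℂ) (b j) *
        (((w u : ℝ) : ℂ) * Complex.exp (-(((γ i - γ j : ℝ) : ℂ) * u * I))) :=
    fun i _ j _ => (hint _).const_mul _
  have hint3 : Integrable fun u : ℝ => ((w u * ‖∑ i ∈ Finset.range n,
      b i * Complex.exp (-(γ i * u * I))‖ ^ 2 : ℝ) : ℂ) := by
    simp_rw [hexp]
    exact integrable_finsetSum _ fun i hi => integrable_finsetSum _ fun j hj => hint2 i hi j hj
  have hint4 : Integrable fun u : ℝ => w u * ‖∑ i ∈ Finset.range n,
      b i * Complex.exp (-(γ i * u * I))‖ ^ 2 := by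
    have := hint3.re
    simpa only [RCLike.re_eq_complex_re, Complex.ofReal_re] using this
  refine ⟨hint4, ?_⟩
  have h0 : 0 ≤ ∫ u : ℝ, w u * ‖∑ i ∈ Finset.range n,
      b i * Complex.exp (-(γ i * u * I))‖ ^ 2 := integral_nonneg fun u => by
    show 0 ≤ w u * _
    rw [hw]; positivity
  have h1 : ∫ u : ℝ, w u * ‖∑ i ∈ Finset.range n,
      b i * Complex.exp (-(γ i * u * I))‖ ^ 2 = ‖∫ u : ℝ, ((w u * ‖∑ i ∈ Finset.range n,
      b i * Complex.exp (-(γ i * u * I))‖ ^ 2 : ℝ) : ℂ)‖ := by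
    rw [integral_complex_ofReal, Complex.norm_real, Real.norm_of_nonneg h0]
  rw [h1]
  simp_rw [hexp]
  rw [integral_finsetSum _ fun i hi => integrable_finsetSum _ fun j hj => hint2 i hi j hj]
  refine (norm_sum_le _ _).trans (Finset.sum_le_sum fun i hi => ?_)
  rw [integral_finsetSum _ fun j hj => hint2 i hi j hj]
  refine (norm_sum_le _ _).trans (Finset.sum_le_sum fun j hj => ?_)
  rw [integral_const_mul, norm_mul, norm_mul, RCLike.norm_conj]
  exact mul_le_mul_of_nonneg_left (LSamp_fourier a hX (γ i - γ j)).le (by positivity)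

/-- Constant amplitudes. PROOF. Majorise `1_{[a,a+ℓ]}` by `e · exp(-((u-a)/X)²)`-type Gaussian with
`X = L + ℓ`, expand the square; the off-diagonal Gaussian Fourier coefficients
`√π X exp(-X² (γ_i-γ_j)²/4)` summed over `j` (for fixed `i`, the `γ_j` are `1/L`-separated and
`X ≥ L`) are `≤ C X`; `|b_i b_j| ≤ (|b_i|²+|b_j|²)/2`. -/
theorem ls_const : ∃ C : ℝ, 0 < C ∧ ∀ (n : ℕ) (γ : ℕ → ℝ) (L : ℝ), 1 ≤ L →
    (∀ i < n, ∀ j < n, i ≠ j → 1 / L ≤ |γ i - γ j|) → ∀ (b : ℕ → ℂ) (a ℓ : ℝ), 0 ≤ ℓ →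
    ∫ u in a..(a + ℓ), ‖∑ i ∈ Finset.range n, b i * Complex.exp (-(γ i * u * I))‖ ^ 2
      ≤ C * (L + ℓ) * ∑ i ∈ Finset.range n, ‖b i‖ ^ 2 := by
  obtain ⟨C₀, hC₀, hsep⟩ := LSamp_sep
  refine ⟨Real.exp 1 * (√Real.pi * C₀), by positivity, fun n γ L hL hγ b a ℓ hℓ => ?_⟩
  have hL0 : 0 < L := by linarith
  have hX : 0 < L + ℓ := by linarith
  obtain ⟨h1, h2⟩ := LSamp_weighted n γ b a hX
  set S : ℝ → ℝ := fun u => ‖∑ i ∈ Finset.range n, b i * Complex.exp (-(γ i * u * I))‖ ^ 2 with hS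
  have hScont : Continuous S := (LSamp_cont n γ b).norm.pow 2
  have h3 : ∫ u in a..(a + ℓ), S u ≤
      Real.exp 1 * ∫ u : ℝ, Real.exp (-((u - a) / (L + ℓ)) ^ 2) * S u := by
    rw [intervalIntegral.integral_of_le (by linarith), ← integral_const_mul]
    have h4 : Integrable fun u : ℝ => Real.exp 1 * (Real.exp (-((u - a) / (L + ℓ)) ^ 2) * S u) :=
      h1.const_mul _
    refine le_trans (setIntegral_mono_on (hScont.integrableOn_Ioc) h4.integrableOn
      measurableSet_Ioc fun u hu => ?_) (setIntegral_le_integral h4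
        (Filter.Eventually.of_forall fun u => ?_))
    · have h5 : 0 ≤ (u - a) / (L + ℓ) := div_nonneg (by linarith [hu.1]) hX.le
      have h6 : (u - a) / (L + ℓ) ≤ 1 := (div_le_one hX).2 (by linarith [hu.2])
      have h7 : 1 ≤ Real.exp 1 * Real.exp (-((u - a) / (L + ℓ)) ^ 2) := by
        rw [← Real.exp_add]
        apply Real.one_le_exp
        nlinarith
      rw [← mul_assoc]
      exact le_mul_of_one_le_left (sq_nonneg _) h7
    · show 0 ≤ Real.exp 1 * (Real.exp (-((u - a) / (L + ℓ)) ^ 2) * S u)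
      have : 0 ≤ S u := sq_nonneg _
      positivity
  have h4 : ∑ i ∈ Finset.range n, ∑ j ∈ Finset.range n, ‖b i‖ * ‖b j‖ *
        (√Real.pi * (L + ℓ) * Real.exp (-((L + ℓ) * (γ i - γ j)) ^ 2 / 4)) ≤
      (√Real.pi * (L + ℓ) * C₀) * ∑ i ∈ Finset.range n, ‖b i‖ ^ 2 := by
    refine LSamp_schur n (fun i => ‖b i‖) (fun i j => √Real.pi * (L + ℓ) *
      Real.exp (-((L + ℓ) * (γ i - γ j)) ^ 2 / 4)) _ (fun i j => by positivity) (fun i j => ?_)
      fun i hi => ?_
    · show √Real.pi * (L + ℓ) * Real.exp (-((L + ℓ) * (γ i - γ j)) ^ 2 / 4) =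
        √Real.pi * (L + ℓ) * Real.exp (-((L + ℓ) * (γ j - γ i)) ^ 2 / 4)
      congr 2
      ring
    · rw [← Finset.mul_sum]
      refine mul_le_mul_of_nonneg_left ?_ (by positivity)
      refine le_trans (Finset.sum_le_sum fun j _ => ?_)
        (hsep n (fun j => L * (γ j - γ i)) fun j hj k hk hjk => ?_)
      · apply Real.exp_le_exp.2
        have h5 : (L * (γ j - γ i)) ^ 2 ≤ ((L + ℓ) * (γ i - γ j)) ^ 2 := by
          rw [mul_pow, mul_pow, show (γ j - γ i) ^ 2 = (γ i - γ j) ^ 2 by ring]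
          exact mul_le_mul_of_nonneg_right (pow_le_pow_left₀ hL0.le (by linarith) 2)
            (sq_nonneg _)
        linarith
      · have h5 := hγ j hj k hk hjk
        rw [div_le_iff₀ hL0] at h5
        have h6 : L * (γ j - γ i) - L * (γ k - γ i) = L * (γ j - γ k) := by ring
        rw [h6, abs_mul, abs_of_pos hL0]
        linarith
  calc ∫ u in a..(a + ℓ), S u
      ≤ Real.exp 1 * ((√Real.pi * (L + ℓ) * C₀) * ∑ i ∈ Finset.range n, ‖b i‖ ^ 2) :=
        h3.trans (mul_le_mul_of_nonneg_left (h2.trans h4) (Real.exp_pos _).le)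
    _ = _ := by ring

/-- Cauchy-Schwarz for interval integrals of continuous functions. -/
theorem LSamp_cs {g : ℝ → ℝ} (hg : Continuous g) {a u : ℝ} (hau : a ≤ u) :
    (∫ v in a..u, g v) ^ 2 ≤ (u - a) * ∫ v in a..u, g v ^ 2 := by
  rcases hau.eq_or_lt with rfl | hlt
  · simp
  have hpos : 0 < u - a := by linarith
  set m : ℝ := (∫ v in a..u, g v) / (u - a) with hm
  have h1 : 0 ≤ ∫ v in a..u, (g v - m) ^ 2 :=
    intervalIntegral.integral_nonneg hau fun v _ => sq_nonneg _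
  have h2 : ∫ v in a..u, (g v - m) ^ 2 =
      (∫ v in a..u, g v ^ 2) - 2 * m * (∫ v in a..u, g v) + m ^ 2 * (u - a) := by
    have h3 : ∀ v, (g v - m) ^ 2 = g v ^ 2 - 2 * m * g v + m ^ 2 := fun v => by ring
    simp_rw [h3]
    rw [intervalIntegral.integral_add, intervalIntegral.integral_sub,
      intervalIntegral.integral_const_mul, intervalIntegral.integral_const, smul_eq_mul]
    · ring
    · exact (hg.pow 2).intervalIntegrable _ _
    · exact (hg.const_mul _).intervalIntegrable _ _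
    · exact ((hg.pow 2).sub (hg.const_mul _)).intervalIntegrable _ _
    · exact continuous_const.intervalIntegrable _ _
  have h4 : (∫ v in a..u, g v) = m * (u - a) := by rw [hm]; field_simp
  rw [h2, h4] at h1
  rw [h4]
  nlinarith

/-- PROOF. `f i u = f i a + ∫_a^u f' i v dv`, so
`‖∑ e^{-iγ_i u} f i u‖² ≤ 2‖∑ e^{-iγ_i u} f i a‖² + 2 ℓ ∫_a^{a+ℓ} ‖∑ e^{-iγ_i u} f' i v‖² dv`
(Cauchy–Schwarz), integrate over `u ∈ [a,a+ℓ]` and use `ls_const` for each fixed `v`. -/
theorem ls_amp : ∃ C : ℝ, 0 < C ∧ ∀ (n : ℕ) (γ : ℕ → ℝ) (L : ℝ), 1 ≤ L →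
    (∀ i < n, ∀ j < n, i ≠ j → 1 / L ≤ |γ i - γ j|) → ∀ (f f' : ℕ → ℝ → ℂ) (a ℓ : ℝ), 0 ≤ ℓ →
    (∀ i < n, ∀ u : ℝ, HasDerivAt (f i) (f' i u) u) → (∀ i < n, Continuous (f' i)) →
    ∫ u in a..(a + ℓ), ‖∑ i ∈ Finset.range n, Complex.exp (-(γ i * u * I)) * f i u‖ ^ 2
      ≤ C * (L + ℓ) * (∑ i ∈ Finset.range n, ‖f i a‖ ^ 2 +
        ℓ * ∫ v in a..(a + ℓ), ∑ i ∈ Finset.range n, ‖f' i v‖ ^ 2) := by
  obtain ⟨C, hC, hls⟩ := ls_const
  refine ⟨2 * C, by positivity, fun n γ L hL hγ f f' a ℓ hℓ hd hc => ?_⟩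
  have hle : a ≤ a + ℓ := by linarith
  set T : ℝ → ℝ → ℂ := fun u v =>
    ∑ i ∈ Finset.range n, f' i v * Complex.exp (-(γ i * u * I)) with hT
  have hTc : Continuous fun p : ℝ × ℝ => T p.1 p.2 := by
    refine continuous_finsetSum _ fun i hi => ?_
    have h1 := hc i (Finset.mem_range.1 hi)
    exact (h1.comp continuous_snd).mul (by fun_prop)
  have hTv : ∀ u, Continuous fun v => T u v := fun u =>
    hTc.comp (by fun_prop : Continuous fun v : ℝ => (u, v))
  have hTn : Continuous fun p : ℝ × ℝ => ‖T p.1 p.2‖ ^ 2 := hTc.norm.pow 2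
  have hfc : ∀ i < n, Continuous (f i) := fun i hi =>
    continuous_iff_continuousAt.2 fun u => (hd i hi u).continuousAt
  -- pointwise bound
  have hpt : ∀ u ∈ Icc a (a + ℓ),
      ‖∑ i ∈ Finset.range n, Complex.exp (-(γ i * u * I)) * f i u‖ ^ 2 ≤
        2 * ‖∑ i ∈ Finset.range n, f i a * Complex.exp (-(γ i * u * I))‖ ^ 2 +
          2 * ℓ * ∫ v in a..(a + ℓ), ‖T u v‖ ^ 2 := by
    intro u hu
    have h1 : ∑ i ∈ Finset.range n, Complex.exp (-(γ i * u * I)) * f i u =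
        (∑ i ∈ Finset.range n, f i a * Complex.exp (-(γ i * u * I))) + ∫ v in a..u, T u v := by
      rw [hT]
      show _ = _ + ∫ v in a..u, ∑ i ∈ Finset.range n, f' i v * Complex.exp (-(γ i * u * I))
      rw [intervalIntegral.integral_finsetSum, ← Finset.sum_add_distrib]
      · refine Finset.sum_congr rfl fun i hi => ?_
        have h2 := hc i (Finset.mem_range.1 hi)
        rw [intervalIntegral.integral_mul_const,
          intervalIntegral.integral_eq_sub_of_hasDerivAt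
            (fun x _ => hd i (Finset.mem_range.1 hi) x) (h2.intervalIntegrable _ _)]
        ring
      · intro i hi
        exact ((hc i (Finset.mem_range.1 hi)).mul continuous_const).intervalIntegrable _ _
    have h2 : ‖∫ v in a..u, T u v‖ ^ 2 ≤ ℓ * ∫ v in a..(a + ℓ), ‖T u v‖ ^ 2 := by
      have h3 : ‖∫ v in a..u, T u v‖ ≤ ∫ v in a..u, ‖T u v‖ :=
        intervalIntegral.norm_integral_le_integral_norm hu.1
      have h4 := LSamp_cs (hTv u).norm hu.1
      have h5 : ∫ v in a..u, ‖T u v‖ ^ 2 ≤ ∫ v in a..(a + ℓ), ‖T u v‖ ^ 2 :=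
        intervalIntegral.integral_mono_interval le_rfl hu.1 hu.2
          (Filter.Eventually.of_forall fun v => sq_nonneg _)
          (((hTv u).norm.pow 2).intervalIntegrable _ _)
      have h6 : 0 ≤ ∫ v in a..u, ‖T u v‖ ^ 2 :=
        intervalIntegral.integral_nonneg hu.1 fun v _ => sq_nonneg _
      calc ‖∫ v in a..u, T u v‖ ^ 2 ≤ (∫ v in a..u, ‖T u v‖) ^ 2 :=
            pow_le_pow_left₀ (norm_nonneg _) h3 2
        _ ≤ (u - a) * ∫ v in a..u, ‖T u v‖ ^ 2 := h4
        _ ≤ ℓ * ∫ v in a..(a + ℓ), ‖T u v‖ ^ 2 :=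
            mul_le_mul (by linarith [hu.2]) h5 h6 hℓ
    rw [h1]
    have h3 := norm_add_le (∑ i ∈ Finset.range n, f i a * Complex.exp (-(γ i * u * I)))
      (∫ v in a..u, T u v)
    have h4 : ‖(∑ i ∈ Finset.range n, f i a * Complex.exp (-(γ i * u * I))) +
        ∫ v in a..u, T u v‖ ^ 2 ≤
        2 * ‖∑ i ∈ Finset.range n, f i a * Complex.exp (-(γ i * u * I))‖ ^ 2 +
          2 * ‖∫ v in a..u, T u v‖ ^ 2 := by
      have h5 := pow_le_pow_left₀ (norm_nonneg _) h3 2
      have h6 := add_sq_le (a := ‖∑ i ∈ Finset.range n, f i a * Complex.exp (-(γ i * u * I))‖)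
        (b := ‖∫ v in a..u, T u v‖)
      linarith
    linarith
  have hIc : Continuous fun u : ℝ => ∫ v in a..(a + ℓ), ‖T u v‖ ^ 2 :=
    intervalIntegral.continuous_parametric_intervalIntegral_of_continuous' hTn a (a + ℓ)
  have hswap : ∫ u in a..(a + ℓ), ∫ v in a..(a + ℓ), ‖T u v‖ ^ 2 =
      ∫ v in a..(a + ℓ), ∫ u in a..(a + ℓ), ‖T u v‖ ^ 2 := by
    refine intervalIntegral_intervalIntegral_swap (F := fun u v => ‖T u v‖ ^ 2) ?_
    have h1 : IntegrableOn (Function.uncurry fun u v => ‖T u v‖ ^ 2)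
        (uIcc a (a + ℓ) ×ˢ uIcc a (a + ℓ)) :=
      ContinuousOn.integrableOn_compact (isCompact_uIcc.prod isCompact_uIcc) hTn.continuousOn
    exact h1.mono_set (prod_mono uIoc_subset_uIcc uIoc_subset_uIcc)
  have hin : ∀ v, ∫ u in a..(a + ℓ), ‖T u v‖ ^ 2 ≤
      C * (L + ℓ) * ∑ i ∈ Finset.range n, ‖f' i v‖ ^ 2 := fun v =>
    hls n γ L hL hγ (fun i => f' i v) a ℓ hℓ
  have hF'c : Continuous fun v => ∑ i ∈ Finset.range n, ‖f' i v‖ ^ 2 :=
    continuous_finsetSum _ fun i hi => ((hc i (Finset.mem_range.1 hi)).norm.pow 2)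
  have hLHS : Continuous fun u : ℝ =>
      ‖∑ i ∈ Finset.range n, Complex.exp (-(γ i * u * I)) * f i u‖ ^ 2 := by
    refine (continuous_finsetSum _ fun i hi => ?_).norm.pow 2
    have h1 := hfc i (Finset.mem_range.1 hi)
    exact (by fun_prop : Continuous fun u : ℝ => Complex.exp (-(γ i * u * I))).mul h1
  have hA : Continuous fun u : ℝ =>
      ‖∑ i ∈ Finset.range n, f i a * Complex.exp (-(γ i * u * I))‖ ^ 2 :=
    (LSamp_cont n γ fun i => f i a).norm.pow 2
  calc ∫ u in a..(a + ℓ), ‖∑ i ∈ Finset.range n, Complex.exp (-(γ i * u * I)) * f i u‖ ^ 2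
      ≤ ∫ u in a..(a + ℓ), (2 * ‖∑ i ∈ Finset.range n, f i a * Complex.exp (-(γ i * u * I))‖ ^ 2 +
          2 * ℓ * ∫ v in a..(a + ℓ), ‖T u v‖ ^ 2) :=
        intervalIntegral.integral_mono_on hle (hLHS.intervalIntegrable _ _)
          (((hA.const_mul _).add (hIc.const_mul _)).intervalIntegrable _ _) hpt
    _ = 2 * (∫ u in a..(a + ℓ), ‖∑ i ∈ Finset.range n, f i a * Complex.exp (-(γ i * u * I))‖ ^ 2) +
          2 * ℓ * ∫ u in a..(a + ℓ), ∫ v in a..(a + ℓ), ‖T u v‖ ^ 2 := by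
        rw [intervalIntegral.integral_add ((hA.const_mul _).intervalIntegrable _ _)
          ((hIc.const_mul _).intervalIntegrable _ _), intervalIntegral.integral_const_mul,
          intervalIntegral.integral_const_mul]
    _ ≤ 2 * (C * (L + ℓ) * ∑ i ∈ Finset.range n, ‖f i a‖ ^ 2) +
          2 * ℓ * ∫ v in a..(a + ℓ), C * (L + ℓ) * ∑ i ∈ Finset.range n, ‖f' i v‖ ^ 2 := by
        rw [hswap]
        have h1 := hls n γ L hL hγ (fun i => f i a) a ℓ hℓ
        have h2 : ∫ v in a..(a + ℓ), ∫ u in a..(a + ℓ), ‖T u v‖ ^ 2 ≤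
            ∫ v in a..(a + ℓ), C * (L + ℓ) * ∑ i ∈ Finset.range n, ‖f' i v‖ ^ 2 :=
          intervalIntegral.integral_mono_on hle
            ((intervalIntegral.continuous_parametric_intervalIntegral_of_continuous'
              (f := fun v u => ‖T u v‖ ^ 2) (hTn.comp continuous_swap) a
                (a + ℓ)).intervalIntegrable _ _)
            ((hF'c.const_mul _).intervalIntegrable _ _) fun v _ => hin v
        have h3 := mul_le_mul_of_nonneg_left h2 (by positivity : 0 ≤ 2 * ℓ)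
        linarith
    _ = _ := by
        rw [intervalIntegral.integral_const_mul]
        ring

end Pool.Agent.H14.CO

end
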