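import Pool.Agent.H47.B1.M10
import Pool.Agent.H47.B1.M11

/-! The parts of this file: H14.CO.MeanS, H14.CO.AB, H14.CO.AR, H14.CO.CB, H14.CO.CBL, H14.CO.U. -/

section

/-!
# CO module MeanS: mean square of a smoothly cut zeta sum times a short Dirichlet polynomial
-/

set_option autoImplicit false

namespace Pool.Agent.H14.CO

open Set MeasureTheory Complex

/-- The Dirichlet polynomial `∑_{D ≤ T^{1/10}} a_D D^{-1/2-it}`. -/
noncomputable def DP (T : ℝ) (a : ℕ → ℂ) (t : ℝ) : ℂ :=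
  ∑ D ∈ Finset.Icc 1 ⌊T ^ (1 / 10 : ℝ)⌋₊, a D * (D : ℂ) ^ (-(1 / 2 + t * I : ℂ))

private theorem MeanS_gw (W τ : ℝ) (hW : 4 ≤ W) :
    Integrable (gw τ W) ∧ ∫ t, gw τ W t ≤ 2 * W := by
  have h := gauss_mvt 1 le_rfl (fun _ => 1) W τ (by simpa using hW)
  have h1 : (fun t : ℝ => ‖∑ n ∈ Finset.Icc (1 : ℕ) 1, (1 : ℂ) * (n : ℂ) ^ (-(t * I))‖ ^ 2 * gw τ W t) =
      gw τ W := by
    funext t
    simp
  rw [h1] at h
  refine ⟨h.1, h.2.2.trans ?_⟩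
  simp

/-- the coefficients of the cut zeta sum -/
private noncomputable def MeanS_G (v : ℝ → ℂ) (r x y₀ : ℝ) (n : ℕ) : ℂ :=
  (n : ℂ) ^ (-(x + y₀ * I : ℂ)) * v (r - Real.log n)

private theorem MeanS_term (v : ℝ → ℂ) (r x y₀ t : ℝ) (l : ℕ) :
    LSeries.term (MeanS_G v r x y₀) (1 / 2 + t * I) (l + 1) =
      ((l + 1 : ℕ) : ℂ) ^ (-(1 / 2 + x + (t + y₀) * I : ℂ)) * v (r - Real.log (l + 1 : ℕ)) := by
  have hl : ((l + 1 : ℕ) : ℂ) ≠ 0 := Nat.cast_ne_zero.2 (Nat.succ_ne_zero l)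
  rw [LSeries.term_of_ne_zero (Nat.succ_ne_zero l), MeanS_G]
  have h1 : (-(1 / 2 + x + (t + y₀) * I) : ℂ) = -(x + y₀ * I) - (1 / 2 + t * I) := by ring
  rw [h1, Complex.cpow_sub _ _ hl]
  ring

private theorem MeanS_summable (v : ℝ → ℂ) (r x y₀ : ℝ)
    (hsum : ∀ s : ℂ, Summable (fun l : ℕ => ‖((l + 1 : ℕ) : ℂ) ^ (-s) * v (r - Real.log (l + 1 : ℕ))‖))
    (t : ℝ) : LSeriesSummable (MeanS_G v r x y₀) (1 / 2 + t * I) := by
  rw [LSeriesSummable, ← summable_nat_add_iff 1]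
  have h1 := (hsum (1 / 2 + x + (t + y₀) * I)).of_norm
  refine h1.congr fun l => ?_
  rw [MeanS_term]

private theorem MeanS_LG (v : ℝ → ℂ) (r x y₀ : ℝ)
    (hsum : ∀ s : ℂ, Summable (fun l : ℕ => ‖((l + 1 : ℕ) : ℂ) ^ (-s) * v (r - Real.log (l + 1 : ℕ))‖))
    (t : ℝ) : ∑' l : ℕ, ((l + 1 : ℕ) : ℂ) ^ (-(1 / 2 + x + (t + y₀) * I : ℂ)) *
      v (r - Real.log (l + 1 : ℕ)) = LSeries (MeanS_G v r x y₀) (1 / 2 + t * I) := by
  rw [LSeries, (MeanS_summable v r x y₀ hsum t).tsum_eq_zero_add, LSeries.term_zero, zero_add]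
  exact tsum_congr fun l => (MeanS_term v r x y₀ t l).symm

private theorem MeanS_DP (T : ℝ) (hT : 1 ≤ T) (a : ℕ → ℂ) (ha : ∀ D : ℕ, T ^ (1 / 10 : ℝ) < D → a D = 0)
    (t : ℝ) : LSeriesSummable a (1 / 2 + t * I) ∧ LSeries a (1 / 2 + t * I) = DP T a t := by
  have h0 : ∀ n ∉ Finset.Icc 1 ⌊T ^ (1 / 10 : ℝ)⌋₊, LSeries.term a (1 / 2 + t * I) n = 0 := by
    intro n hn
    rw [Finset.mem_Icc, not_and_or] at hn
    rcases Nat.eq_zero_or_pos n with rfl | hn0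
    · exact LSeries.term_zero _ _
    · rcases hn with h | h
      · exact absurd hn0 h
      · rw [LSeries.term_of_ne_zero hn0.ne', ha n, zero_div]
        have h1 : ⌊T ^ (1 / 10 : ℝ)⌋₊ < n := not_le.1 h
        exact (Nat.floor_lt (by positivity)).1 h1
  refine ⟨summable_of_ne_finset_zero (s := Finset.Icc 1 ⌊T ^ (1 / 10 : ℝ)⌋₊) h0, ?_⟩
  rw [LSeries, tsum_eq_sum h0, DP]
  refine Finset.sum_congr rfl fun D hD => ?_
  rw [Finset.mem_Icc] at hD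
  rw [LSeries.term_of_ne_zero (by omega), Complex.cpow_neg, div_eq_mul_inv]

private theorem MeanS_conv (a : ℕ → ℂ) (v : ℝ → ℂ) (r x y₀ : ℝ) (n : ℕ) :
    LSeries.convolution a (MeanS_G v r x y₀) n =
      ∑ D ∈ n.divisors, a D * ((n / D : ℕ) : ℂ) ^ (-(x + y₀ * I : ℂ)) * v (r - Real.log (n / D : ℕ)) := by
  rw [LSeries.convolution_def]
  show ∑ p ∈ n.divisorsAntidiagonal, a p.1 * MeanS_G v r x y₀ p.2 = _
  rw [Nat.sum_divisorsAntidiagonal (fun D e => a D * MeanS_G v r x y₀ e)]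
  refine Finset.sum_congr rfl fun D _ => ?_
  rw [MeanS_G, mul_assoc]

/-- size of the coefficients -/
private theorem MeanS_size {T : ℝ} (hT : Real.exp 3200 ≤ T) {Cv : ℝ} (hCv : 0 < Cv) (a : ℕ → ℂ)
    (ha : ∀ D : ℕ, T ^ (1 / 10 : ℝ) < D → a D = 0) (haT : ∀ D, ‖a D‖ ≤ T) (v : ℝ → ℂ)
    (hv : ∀ r, ‖v r‖ ≤ Cv * Real.exp (100 * r + Real.log T)) (x y₀ : ℝ) (hx : 0 ≤ x) (n : ℕ) (hn : 1 ≤ n) :
    ‖LSeries.convolution a (MeanS_G v (11 / 20 * Real.log T) x y₀) n‖ ≤ Cv * T ^ (68 : ℕ) / (n : ℝ) ^ (100 : ℕ) := by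
  have hT1 : (1 : ℝ) ≤ T := (Real.one_le_exp (by norm_num)).trans hT
  have hT0 : (0 : ℝ) < T := by linarith
  have hn0 : (0 : ℝ) < n := by exact_mod_cast hn
  rw [MeanS_conv]
  set X := ⌊T ^ (1 / 10 : ℝ)⌋₊ with hX
  have hsub : ∑ D ∈ n.divisors, a D * ((n / D : ℕ) : ℂ) ^ (-(x + y₀ * I : ℂ)) *
      v (11 / 20 * Real.log T - Real.log (n / D : ℕ)) =
      ∑ D ∈ n.divisors ∩ Finset.Icc 1 X, a D * ((n / D : ℕ) : ℂ) ^ (-(x + y₀ * I : ℂ)) *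
        v (11 / 20 * Real.log T - Real.log (n / D : ℕ)) := by
    symm
    refine Finset.sum_subset Finset.inter_subset_left fun D hD hD' => ?_
    have hDpos : 0 < D := Nat.pos_of_mem_divisors hD
    rw [Finset.mem_inter, not_and, Finset.mem_Icc] at hD'
    have h1 := hD' hD
    have h2 : X < D := by
      by_contra h
      exact h1 ⟨hDpos, not_lt.1 h⟩
    rw [ha D ((Nat.floor_lt (by positivity)).1 h2), zero_mul, zero_mul]
  rw [hsub]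
  have hterm : ∀ D ∈ n.divisors ∩ Finset.Icc 1 X, ‖a D * ((n / D : ℕ) : ℂ) ^ (-(x + y₀ * I : ℂ)) *
      v (11 / 20 * Real.log T - Real.log (n / D : ℕ))‖ ≤ Cv * T ^ (67 : ℕ) / (n : ℝ) ^ (100 : ℕ) := by
    intro D hD
    rw [Finset.mem_inter, Finset.mem_Icc] at hD
    obtain ⟨hDn, hD1, hD2⟩ := hD
    have hdvd : D ∣ n := Nat.dvd_of_mem_divisors hDn
    have hD0 : (0 : ℝ) < D := by exact_mod_cast hD1
    have hDT : (D : ℝ) ≤ T ^ (1 / 10 : ℝ) := (Nat.cast_le.2 hD2).trans (Nat.floor_le (by positivity))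
    have hq : 0 < n / D := Nat.div_pos (Nat.le_of_dvd hn hdvd) hD1
    have hqc : ((n / D : ℕ) : ℝ) = n / D := Nat.cast_div hdvd hD0.ne'
    have hq1 : (1 : ℝ) ≤ ((n / D : ℕ) : ℝ) := by exact_mod_cast hq
    rw [norm_mul, norm_mul, Complex.norm_natCast_cpow_of_pos hq]
    have hre : (-(x + y₀ * I : ℂ)).re = -x := by simp
    rw [hre]
    have h1 : ((n / D : ℕ) : ℝ) ^ (-x) ≤ 1 := Real.rpow_le_one_of_one_le_of_nonpos hq1 (by linarith only [hx])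
    have h2 := hv (11 / 20 * Real.log T - Real.log (n / D : ℕ))
    have h3 : Real.exp (100 * (11 / 20 * Real.log T - Real.log (n / D : ℕ)) + Real.log T) =
        T ^ (56 : ℕ) * ((D : ℝ) ^ (100 : ℕ) / (n : ℝ) ^ (100 : ℕ)) := by
      have h4 : 100 * (11 / 20 * Real.log T - Real.log (n / D : ℕ)) + Real.log T =
          ((56 : ℕ) : ℝ) * Real.log T - ((100 : ℕ) : ℝ) * Real.log (n / D : ℕ) := by
        push_cast
        ring
      rw [h4, Real.exp_sub, Real.exp_nat_mul, Real.exp_nat_mul, Real.exp_log hT0,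
        Real.exp_log (by linarith only [hq1]), hqc, div_pow]
      field_simp
    rw [h3] at h2
    have h5 : (D : ℝ) ^ (100 : ℕ) ≤ T ^ (10 : ℕ) := by
      calc (D : ℝ) ^ (100 : ℕ) ≤ (T ^ (1 / 10 : ℝ)) ^ (100 : ℕ) := pow_le_pow_left₀ hD0.le hDT _
        _ = T ^ (10 : ℕ) := by
          rw [← Real.rpow_natCast, ← Real.rpow_mul hT0.le, ← Real.rpow_natCast]
          norm_num
    calc ‖a D‖ * ((n / D : ℕ) : ℝ) ^ (-x) * ‖v (11 / 20 * Real.log T - Real.log (n / D : ℕ))‖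
        ≤ T * 1 * (Cv * (T ^ (56 : ℕ) * (T ^ (10 : ℕ) / (n : ℝ) ^ (100 : ℕ)))) := by
          refine mul_le_mul (mul_le_mul (haT D) h1 (by positivity) hT0.le) (h2.trans ?_)
            (norm_nonneg _) (by positivity)
          gcongr
      _ = Cv * T ^ (67 : ℕ) / (n : ℝ) ^ (100 : ℕ) := by
          ring
  refine (norm_sum_le_of_le _ hterm).trans ?_
  rw [Finset.sum_const, nsmul_eq_mul]
  have hcard : ((n.divisors ∩ Finset.Icc 1 X).card : ℝ) ≤ T := by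
    have h1 : (n.divisors ∩ Finset.Icc 1 X).card ≤ X := by
      refine (Finset.card_le_card Finset.inter_subset_right).trans ?_
      rw [Nat.card_Icc]
      omega
    have h2 : (X : ℝ) ≤ T ^ (1 / 10 : ℝ) := Nat.floor_le (by positivity)
    have h3 : T ^ (1 / 10 : ℝ) ≤ T := by
      calc T ^ (1 / 10 : ℝ) ≤ T ^ (1 : ℝ) := Real.rpow_le_rpow_of_exponent_le hT1 (by norm_num)
        _ = T := Real.rpow_one T
    exact (Nat.cast_le.2 h1).trans (h2.trans h3)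
  calc ((n.divisors ∩ Finset.Icc 1 X).card : ℝ) * (Cv * T ^ (67 : ℕ) / (n : ℝ) ^ (100 : ℕ))
      ≤ T * (Cv * T ^ (67 : ℕ) / (n : ℝ) ^ (100 : ℕ)) :=
        mul_le_mul_of_nonneg_right hcard (by positivity)
    _ = Cv * T ^ (68 : ℕ) / (n : ℝ) ^ (100 : ℕ) := by ring

private theorem MeanS_tailterm {T : ℝ} (hT : Real.exp 3200 ≤ T) {Cv : ℝ} (hCv : 0 < Cv) (c : ℕ → ℂ)
    (hc : ∀ n : ℕ, 1 ≤ n → ‖c n‖ ≤ Cv * T ^ (68 : ℕ) / (n : ℝ) ^ (100 : ℕ)) (t : ℝ) (n : ℕ)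
    (hn : ⌊T ^ (7 / 10 : ℝ)⌋₊ < n) : ‖LSeries.term c (1 / 2 + t * I) n‖ ≤ Cv * (1 / (n : ℝ) ^ 2) := by
  have hT1 : (1 : ℝ) ≤ T := (Real.one_le_exp (by norm_num)).trans hT
  have hT0 : (0 : ℝ) < T := by linarith only [hT1]
  have hn1 : 1 ≤ n := by omega
  have hn0 : (0 : ℝ) < n := by exact_mod_cast hn1
  have hn1' : (1 : ℝ) ≤ n := by exact_mod_cast hn1
  have hnT : T ^ (7 / 10 : ℝ) < n := (Nat.floor_lt (by positivity)).1 hn
  rw [LSeries.term_of_ne_zero (by omega), norm_div, Complex.norm_natCast_cpow_of_pos hn1]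
  have hre : (1 / 2 + t * I : ℂ).re = 1 / 2 := by simp
  rw [hre]
  have h1 : (1 : ℝ) ≤ (n : ℝ) ^ (1 / 2 : ℝ) := Real.one_le_rpow hn1' (by norm_num)
  have h2 : T ^ (68 : ℕ) ≤ (n : ℝ) ^ (98 : ℕ) := by
    calc T ^ (68 : ℕ) = T ^ (68 : ℝ) := by rw [← Real.rpow_natCast]; norm_num
      _ ≤ T ^ (7 / 10 * 98 : ℝ) := Real.rpow_le_rpow_of_exponent_le hT1 (by norm_num)
      _ = (T ^ (7 / 10 : ℝ)) ^ (98 : ℕ) := by
        rw [← Real.rpow_natCast, ← Real.rpow_mul hT0.le]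
        norm_num
      _ ≤ (n : ℝ) ^ (98 : ℕ) := pow_le_pow_left₀ (by positivity) hnT.le _
  calc ‖c n‖ / (n : ℝ) ^ (1 / 2 : ℝ) ≤ ‖c n‖ := div_le_self (norm_nonneg _) h1
    _ ≤ Cv * T ^ (68 : ℕ) / (n : ℝ) ^ (100 : ℕ) := hc n hn1
    _ ≤ Cv * (n : ℝ) ^ (98 : ℕ) / (n : ℝ) ^ (100 : ℕ) := by gcongr
    _ = Cv * (1 / (n : ℝ) ^ 2) := by
        have : (n : ℝ) ^ (100 : ℕ) = (n : ℝ) ^ (98 : ℕ) * (n : ℝ) ^ 2 := by ring
        rw [this]
        field_simp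

private theorem MeanS_W {T W : ℝ} (hT : Real.exp 3200 ≤ T) (hW : T ^ (9 / 10 : ℝ) ≤ W) :
    1 ≤ ⌊T ^ (7 / 10 : ℝ)⌋₊ ∧ 4 ≤ W ∧
    4 * (⌊T ^ (7 / 10 : ℝ)⌋₊ : ℝ) * (1 + Real.log ⌊T ^ (7 / 10 : ℝ)⌋₊) ≤ W := by
  have hT1 : (1 : ℝ) ≤ T := (Real.one_le_exp (by norm_num)).trans hT
  have hT0 : (0 : ℝ) < T := by linarith
  have hL : 3200 ≤ Real.log T := (Real.le_log_iff_exp_le hT0).2 hT
  set N := ⌊T ^ (7 / 10 : ℝ)⌋₊ with hN
  have hN1 : 1 ≤ N := by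
    rw [hN, Nat.one_le_floor_iff]
    exact Real.one_le_rpow hT1 (by norm_num)
  have hN1' : (1 : ℝ) ≤ N := by exact_mod_cast hN1
  have hNT : (N : ℝ) ≤ T ^ (7 / 10 : ℝ) := Nat.floor_le (by positivity)
  have hlog : Real.log N ≤ 7 / 10 * Real.log T := by
    calc Real.log N ≤ Real.log (T ^ (7 / 10 : ℝ)) := Real.log_le_log (by linarith only [hN1']) hNT
      _ = 7 / 10 * Real.log T := Real.log_rpow hT0 _
  have hlog0 : 0 ≤ Real.log N := Real.log_nonneg hN1'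
  have h1 : 4 * (1 + 7 / 10 * Real.log T) ≤ T ^ (2 / 10 : ℝ) := by
    have h2 : T ^ (2 / 10 : ℝ) = Real.exp (1 / 10 * Real.log T) ^ 2 := by
      rw [← Real.exp_nat_mul, Real.rpow_def_of_pos hT0]
      congr 1
      push_cast
      ring
    have h3 := Real.add_one_le_exp (1 / 10 * Real.log T)
    have h4 : (1 / 10 * Real.log T + 1) ^ 2 ≤ Real.exp (1 / 10 * Real.log T) ^ 2 :=
      pow_le_pow_left₀ (by linarith only [hL]) h3 2
    rw [h2]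
    nlinarith only [hL, h4]
  have h5 : T ^ (7 / 10 : ℝ) * T ^ (2 / 10 : ℝ) = T ^ (9 / 10 : ℝ) := by
    rw [← Real.rpow_add hT0]
    norm_num
  have h6 : 4 * (N : ℝ) * (1 + Real.log N) ≤ W := by
    calc 4 * (N : ℝ) * (1 + Real.log N) ≤ 4 * T ^ (7 / 10 : ℝ) * (1 + 7 / 10 * Real.log T) := by
          gcongr
      _ = T ^ (7 / 10 : ℝ) * (4 * (1 + 7 / 10 * Real.log T)) := by ring
      _ ≤ T ^ (7 / 10 : ℝ) * T ^ (2 / 10 : ℝ) := by gcongr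
      _ ≤ W := by rw [h5]; exact hW
  refine ⟨hN1, ?_, h6⟩
  nlinarith only [hN1', hlog0, h6]

private theorem MeanS_main (v : ℝ → ℝ → ℂ) (S : ℝ → ℝ → ℂ → ℂ)
    (hS : ∀ h r s, S h r s = ∑' l : ℕ, ((l + 1 : ℕ) : ℂ) ^ (-s) * v h (r - Real.log (l + 1 : ℕ)))
    (hv : ∃ C : ℝ, 0 < C ∧ ∀ h r : ℝ, 1 ≤ h → ‖v h r‖ ≤ C * Real.exp (100 * r + 32 * h * 100))
    (hsum : ∀ h r : ℝ, 0 < h → ∀ s : ℂ,
      Summable (fun l : ℕ => ‖((l + 1 : ℕ) : ℂ) ^ (-s) * v h (r - Real.log (l + 1 : ℕ))‖))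
    (hd : ∃ C : ℝ, 0 < C ∧ ∀ T K Q : ℝ, Real.exp 3200 ≤ T → 1 ≤ K → 0 ≤ Q → ∀ a : ℕ → ℂ,
      DiagHyp T K Q a → ∀ x y₀ : ℝ, 0 ≤ x → x ≤ K / Real.log T → ∀ N : ℕ,
      ∑ n ∈ Finset.Icc 1 N, (1 / (n : ℝ)) *
        ‖∑ D ∈ n.divisors, a D * ((n / D : ℕ) : ℂ) ^ (-(x + y₀ * I : ℂ)) *
          v (Real.log T / 3200) (11 / 20 * Real.log T - Real.log (n / D : ℕ))‖ ^ 2
        ≤ C * (1 + K) ^ 8 * Q * (1 + Real.log T * |y₀|) ^ 8) :
    ∃ C : ℝ, 0 < C ∧ ∃ T₀ : ℝ, Real.exp 3200 ≤ T₀ ∧ ∀ T : ℝ, T₀ ≤ T →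
    ∀ K Q : ℝ, 1 ≤ K → 1 ≤ Q → ∀ a : ℕ → ℂ, (∀ D : ℕ, T ^ (1 / 10 : ℝ) < D → a D = 0) →
    (∀ D, ‖a D‖ ≤ T) → DiagHyp T K Q a →
    ∀ x y₀ τ W : ℝ, 0 ≤ x → x ≤ K / Real.log T → T ^ (9 / 10 : ℝ) ≤ W →
    Integrable (fun t : ℝ => ‖S (Real.log T / 3200) (11 / 20 * Real.log T)
      (1 / 2 + x + (t + y₀) * I) * DP T a t‖ ^ 2 * gw τ W t) ∧
    ∫ t : ℝ, ‖S (Real.log T / 3200) (11 / 20 * Real.log T)
      (1 / 2 + x + (t + y₀) * I) * DP T a t‖ ^ 2 * gw τ W t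
      ≤ C * (1 + K) ^ 8 * W * Q * (1 + Real.log T * |y₀|) ^ 8 := by
  obtain ⟨Cv, hCv, hv⟩ := hv
  obtain ⟨Cd, hCd, hd⟩ := hd
  have hz : Summable (fun n : ℕ => 1 / (n : ℝ) ^ 2) := Real.summable_one_div_nat_pow.2 one_lt_two
  set Z : ℝ := ∑' n : ℕ, 1 / (n : ℝ) ^ 2 with hZ
  have hZ0 : 0 ≤ Z := tsum_nonneg fun n => by positivity
  set E : ℝ := Cv * Z with hE
  have hE0 : 0 ≤ E := by positivity
  refine ⟨4 * Cd + 4 * E ^ 2, by positivity, Real.exp 3200, le_rfl, ?_⟩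
  intro T hT K Q hK hQ a ha haT hDH x y₀ τ W hx hxK hW
  have hT1 : (1 : ℝ) ≤ T := (Real.one_le_exp (by norm_num)).trans hT
  have hT0 : (0 : ℝ) < T := by linarith
  have hL : 3200 ≤ Real.log T := (Real.le_log_iff_exp_le hT0).2 hT
  obtain ⟨hN1, hW4, hWN⟩ := MeanS_W hT hW
  set N := ⌊T ^ (7 / 10 : ℝ)⌋₊ with hN
  set vv : ℝ → ℂ := v (Real.log T / 3200) with hvv
  set r : ℝ := 11 / 20 * Real.log T with hr
  set G := MeanS_G vv r x y₀ with hG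
  set c := LSeries.convolution a G with hc
  have hsum' : ∀ s : ℂ, Summable (fun l : ℕ => ‖((l + 1 : ℕ) : ℂ) ^ (-s) * vv (r - Real.log (l + 1 : ℕ))‖) :=
    hsum (Real.log T / 3200) r (by linarith only [hL])
  have hvb : ∀ r', ‖vv r'‖ ≤ Cv * Real.exp (100 * r' + Real.log T) := by
    intro r'
    have h1 := hv (Real.log T / 3200) r' (by linarith only [hL])
    have h2 : 32 * (Real.log T / 3200) * 100 = Real.log T := by ring
    rw [h2] at h1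
    exact h1
  have hcb : ∀ n : ℕ, 1 ≤ n → ‖c n‖ ≤ Cv * T ^ (68 : ℕ) / (n : ℝ) ^ (100 : ℕ) := fun n hn =>
    MeanS_size hT hCv a ha haT vv hvb x y₀ hx n hn
  -- the product as a Dirichlet series
  have hprod : ∀ t : ℝ, S (Real.log T / 3200) r (1 / 2 + x + (t + y₀) * I) * DP T a t =
      LSeries c (1 / 2 + t * I) := by
    intro t
    obtain ⟨hA1, hA2⟩ := MeanS_DP T hT1 a ha t
    rw [hS, MeanS_LG vv r x y₀ hsum' t, ← hA2, mul_comm, hc,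
      LSeries_convolution' hA1 (MeanS_summable vv r x y₀ hsum' t)]
  have hcs : ∀ t : ℝ, LSeriesSummable c (1 / 2 + t * I) := fun t =>
    (MeanS_DP T hT1 a ha t).1.convolution (MeanS_summable vv r x y₀ hsum' t)
  -- main part and tail
  set P : ℝ → ℂ := fun t => ∑ n ∈ Finset.Icc 1 N, (c n * (n : ℂ) ^ (-(1 / 2) : ℂ)) * (n : ℂ) ^ (-(t * I)) with hP
  set R : ℝ → ℂ := fun t => ∑' i : ℕ, LSeries.term c (1 / 2 + t * I) (i + (N + 1)) with hR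
  have hsplit : ∀ t : ℝ, LSeries c (1 / 2 + t * I) = P t + R t := by
    intro t
    rw [LSeries, ← (hcs t).sum_add_tsum_nat_add (N + 1)]
    congr 1
    have h1 : ∑ n ∈ Finset.range (N + 1), LSeries.term c (1 / 2 + t * I) n =
        ∑ n ∈ Finset.Icc 1 N, LSeries.term c (1 / 2 + t * I) n := by
      symm
      refine Finset.sum_subset ?_ fun n hn hn' => ?_
      · intro n hn
        rw [Finset.mem_Icc] at hn
        rw [Finset.mem_range]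
        omega
      · rw [Finset.mem_range] at hn
        rw [Finset.mem_Icc] at hn'
        have : n = 0 := by omega
        rw [this, LSeries.term_zero]
    rw [h1, hP]
    refine Finset.sum_congr rfl fun n hn => ?_
    rw [Finset.mem_Icc] at hn
    have hn0 : (n : ℂ) ≠ 0 := Nat.cast_ne_zero.2 (by omega)
    rw [LSeries.term_of_ne_zero (by omega), mul_assoc, ← Complex.cpow_add _ _ hn0, div_eq_mul_inv,
      ← Complex.cpow_neg]
    congr 2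
    ring
  have htb : ∀ (t : ℝ) (i : ℕ), ‖LSeries.term c (1 / 2 + t * I) (i + (N + 1))‖ ≤
      Cv * (1 / ((i + (N + 1) : ℕ) : ℝ) ^ 2) := fun t i =>
    MeanS_tailterm hT hCv c hcb t (i + (N + 1)) (by omega)
  have hzs : Summable (fun i : ℕ => Cv * (1 / ((i + (N + 1) : ℕ) : ℝ) ^ 2)) :=
    ((summable_nat_add_iff (N + 1)).2 hz).mul_left Cv
  have hRb : ∀ t : ℝ, ‖R t‖ ≤ E := by
    intro t
    have h1 : ∑' i : ℕ, (1 / ((i + (N + 1) : ℕ) : ℝ) ^ 2) ≤ Z := by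
      have h2 := hz.sum_add_tsum_nat_add (N + 1)
      have h3 : 0 ≤ ∑ i ∈ Finset.range (N + 1), 1 / (i : ℝ) ^ 2 := Finset.sum_nonneg fun i _ => by positivity
      rw [hZ]
      linarith only [h2, h3]
    refine (tsum_of_norm_bounded hzs.hasSum (htb t)).trans ?_
    rw [tsum_mul_left, hE]
    exact mul_le_mul_of_nonneg_left h1 hCv.le
  have hRc : Continuous R := by
    refine continuous_tsum (fun i => ?_) hzs fun i t => htb t i
    have h0 : ((i + (N + 1) : ℕ) : ℂ) ≠ 0 := Nat.cast_ne_zero.2 (by omega)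
    have h1 : (fun t : ℝ => LSeries.term c (1 / 2 + t * I) (i + (N + 1))) =
        fun t : ℝ => c (i + (N + 1)) / ((i + (N + 1) : ℕ) : ℂ) ^ (1 / 2 + t * I : ℂ) := by
      funext t
      rw [LSeries.term_of_ne_zero (by omega)]
    rw [h1]
    refine Continuous.div continuous_const ?_ fun t => ?_
    · exact Continuous.const_cpow (by fun_prop) (Or.inl h0)
    · rw [Complex.cpow_ne_zero_iff]
      exact Or.inl h0
  have hPc : Continuous P := by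
    refine continuous_finsetSum _ fun n hn => ?_
    rw [Finset.mem_Icc] at hn
    have h0 : (n : ℂ) ≠ 0 := Nat.cast_ne_zero.2 (by omega)
    exact continuous_const.mul (Continuous.const_cpow (by fun_prop) (Or.inl h0))
  obtain ⟨hPint, -, hPle⟩ := gauss_mvt N hN1 (fun n => c n * (n : ℂ) ^ (-(1 / 2) : ℂ)) W τ hWN
  obtain ⟨hgint, hgle⟩ := MeanS_gw W τ hW4
  have hg0 : ∀ t, 0 ≤ gw τ W t := fun t => (Real.exp_pos _).le
  have hgc : Continuous (gw τ W) := by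
    unfold gw
    fun_prop
  have hdom : ∀ t : ℝ, ‖S (Real.log T / 3200) r (1 / 2 + x + (t + y₀) * I) * DP T a t‖ ^ 2 * gw τ W t ≤
      2 * (‖P t‖ ^ 2 * gw τ W t) + 2 * E ^ 2 * gw τ W t := by
    intro t
    rw [hprod t, hsplit t]
    have h1 : ‖P t + R t‖ ^ 2 ≤ 2 * ‖P t‖ ^ 2 + 2 * E ^ 2 := by
      have h2 := norm_add_le (P t) (R t)
      have h3 := hRb t
      have h4 : ‖P t + R t‖ ≤ ‖P t‖ + E := by linarith only [h2, h3]
      have h5 : ‖P t + R t‖ ^ 2 ≤ (‖P t‖ + E) ^ 2 := pow_le_pow_left₀ (norm_nonneg _) h4 2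
      nlinarith only [h5, sq_nonneg (‖P t‖ - E)]
    nlinarith only [mul_le_mul_of_nonneg_right h1 (hg0 t)]
  have hbi : Integrable (fun t : ℝ => 2 * (‖P t‖ ^ 2 * gw τ W t) + 2 * E ^ 2 * gw τ W t) :=
    (hPint.const_mul 2).add (hgint.const_mul (2 * E ^ 2))
  have hmeas : (fun t : ℝ => ‖S (Real.log T / 3200) r (1 / 2 + x + (t + y₀) * I) * DP T a t‖ ^ 2 * gw τ W t) =
      fun t : ℝ => ‖P t + R t‖ ^ 2 * gw τ W t := by
    funext t
    rw [hprod t, hsplit t]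
  have hint : Integrable (fun t : ℝ => ‖S (Real.log T / 3200) r (1 / 2 + x + (t + y₀) * I) * DP T a t‖ ^ 2 *
      gw τ W t) := by
    refine hbi.mono' ?_ (Filter.Eventually.of_forall fun t => ?_)
    · rw [hmeas]
      exact ((hPc.add hRc).norm.pow 2 |>.mul hgc).aestronglyMeasurable
    · rw [Real.norm_of_nonneg (mul_nonneg (sq_nonneg _) (hg0 t))]
      exact hdom t
  refine ⟨hint, ?_⟩
  have hdiag := hd T K Q hT hK (by linarith only [hQ]) a hDH x y₀ hx hxK N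
  have hsq : ∑ n ∈ Finset.Icc 1 N, ‖c n * (n : ℂ) ^ (-(1 / 2) : ℂ)‖ ^ 2 ≤
      Cd * (1 + K) ^ 8 * Q * (1 + Real.log T * |y₀|) ^ 8 := by
    refine le_trans (le_of_eq ?_) hdiag
    refine Finset.sum_congr rfl fun n hn => ?_
    rw [Finset.mem_Icc] at hn
    have hn0 : (0 : ℝ) < n := by
      have : 0 < n := by omega
      exact_mod_cast this
    rw [← MeanS_conv, norm_mul, Complex.norm_natCast_cpow_of_pos (by omega), mul_pow]
    have h1 : (-(1 / 2) : ℂ).re = -(1 / 2) := by simp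
    rw [h1]
    have h2 : ((n : ℝ) ^ (-(1 / 2) : ℝ)) ^ 2 = 1 / (n : ℝ) := by
      rw [← Real.rpow_natCast, ← Real.rpow_mul hn0.le]
      have : (-(1 / 2) : ℝ) * ((2 : ℕ) : ℝ) = -1 := by norm_num
      rw [this, Real.rpow_neg_one, one_div]
    rw [h2, mul_comm]
  have hW0 : 0 < W := by linarith only [hW4]
  have hK8 : 1 ≤ (1 + K) ^ 8 := one_le_pow₀ (by linarith only [hK])
  have hY8 : 1 ≤ (1 + Real.log T * |y₀|) ^ 8 := by
    refine one_le_pow₀ ?_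
    have : 0 ≤ Real.log T * |y₀| := mul_nonneg (by linarith only [hL]) (abs_nonneg _)
    linarith only [this]
  calc ∫ t : ℝ, ‖S (Real.log T / 3200) r (1 / 2 + x + (t + y₀) * I) * DP T a t‖ ^ 2 * gw τ W t
      ≤ ∫ t : ℝ, (2 * (‖P t‖ ^ 2 * gw τ W t) + 2 * E ^ 2 * gw τ W t) :=
        integral_mono hint hbi hdom
    _ = 2 * (∫ t : ℝ, ‖P t‖ ^ 2 * gw τ W t) + 2 * E ^ 2 * ∫ t : ℝ, gw τ W t := by
        rw [integral_add (hPint.const_mul 2) (hgint.const_mul (2 * E ^ 2)), integral_const_mul,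
          integral_const_mul]
    _ ≤ 2 * (2 * W * (Cd * (1 + K) ^ 8 * Q * (1 + Real.log T * |y₀|) ^ 8)) + 2 * E ^ 2 * (2 * W) := by
        have h1 : ∫ t : ℝ, ‖P t‖ ^ 2 * gw τ W t ≤
            2 * W * (Cd * (1 + K) ^ 8 * Q * (1 + Real.log T * |y₀|) ^ 8) :=
          hPle.trans (mul_le_mul_of_nonneg_left hsq (by positivity))
        have h2 : 2 * E ^ 2 * ∫ t : ℝ, gw τ W t ≤ 2 * E ^ 2 * (2 * W) :=
          mul_le_mul_of_nonneg_left hgle (by positivity)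
        linarith only [h1, h2]
    _ ≤ (4 * Cd + 4 * E ^ 2) * (1 + K) ^ 8 * W * Q * (1 + Real.log T * |y₀|) ^ 8 := by
        have h3 : 1 ≤ (1 + K) ^ 8 * Q * (1 + Real.log T * |y₀|) ^ 8 :=
          one_le_mul_of_one_le_of_one_le (one_le_mul_of_one_le_of_one_le hK8 hQ) hY8
        have h4 : 4 * E ^ 2 * W * 1 ≤ 4 * E ^ 2 * W * ((1 + K) ^ 8 * Q * (1 + Real.log T * |y₀|) ^ 8) :=
          mul_le_mul_of_nonneg_left h3 (by positivity)
        generalize (1 + Real.log T * |y₀|) ^ 8 = Y at h4 ⊢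
        calc 2 * (2 * W * (Cd * (1 + K) ^ 8 * Q * Y)) + 2 * E ^ 2 * (2 * W) =
            4 * Cd * (1 + K) ^ 8 * W * Q * Y + 4 * E ^ 2 * W * 1 := by ring
          _ ≤ 4 * Cd * (1 + K) ^ 8 * W * Q * Y + 4 * E ^ 2 * W * ((1 + K) ^ 8 * Q * Y) := by
              linarith only [h4]
          _ = _ := by ring

/-- PROOF. `Sc h r (1/2+x+i(t+y₀)) * DP T a t = ∑_{n ≥ 1} c_n n^{-1/2-it}`,
`c_n = ∑_{D∣n} a_D (n/D)^{-(x+iy₀)} vc h (r - log(n/D))` (product of an absolutely convergent series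
with a finite sum). Split at `N₁ = ⌊T^{7/10}⌋`. Terms `n ≤ N₁`: `gauss_mvt`
(`4 N₁ (1 + log N₁) ≤ T^{9/10} ≤ W` for `T ≥ T₀`) with coefficients `c_n n^{-1/2}`, then `diag_vc`.
Terms `n > N₁`: `‖c_n‖ ≤ T^{1/10} · T · C e^{100 (r - log(n/T^{1/10})) + 3200 h}
= C T^{11/10} (T^{55+10+1}/n^{100})` (`vc_bound` with `B = 100`), so the tail is in absolute value
`≤ C T^{11/10 + 66} ∑_{n > T^{7/10}} n^{-100.5} ≤ C T^{-2}` pointwise; its mean square is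
`≤ C T^{-4} √π W ≤ W Q` as `Q ≥ 1`. -/
theorem mean_Sc : ∃ C : ℝ, 0 < C ∧ ∃ T₀ : ℝ, Real.exp 3200 ≤ T₀ ∧ ∀ T : ℝ, T₀ ≤ T →
    ∀ K Q : ℝ, 1 ≤ K → 1 ≤ Q → ∀ a : ℕ → ℂ, (∀ D : ℕ, T ^ (1 / 10 : ℝ) < D → a D = 0) →
    (∀ D, ‖a D‖ ≤ T) → DiagHyp T K Q a →
    ∀ x y₀ τ W : ℝ, 0 ≤ x → x ≤ K / Real.log T → T ^ (9 / 10 : ℝ) ≤ W →
    Integrable (fun t : ℝ => ‖Sc (Real.log T / 3200) (11 / 20 * Real.log T)
      (1 / 2 + x + (t + y₀) * I) * DP T a t‖ ^ 2 * gw τ W t) ∧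
    ∫ t : ℝ, ‖Sc (Real.log T / 3200) (11 / 20 * Real.log T)
      (1 / 2 + x + (t + y₀) * I) * DP T a t‖ ^ 2 * gw τ W t
      ≤ C * (1 + K) ^ 8 * W * Q * (1 + Real.log T * |y₀|) ^ 8 := by
  exact MeanS_main vc Sc (fun _ _ _ => rfl) (vc_bound 100 (by norm_num))
    (fun h r hh s => summable_vc h r hh s) diag_vc

theorem mean_Sd : ∃ C : ℝ, 0 < C ∧ ∃ T₀ : ℝ, Real.exp 3200 ≤ T₀ ∧ ∀ T : ℝ, T₀ ≤ T →
    ∀ K Q : ℝ, 1 ≤ K → 1 ≤ Q → ∀ a : ℕ → ℂ, (∀ D : ℕ, T ^ (1 / 10 : ℝ) < D → a D = 0) →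
    (∀ D, ‖a D‖ ≤ T) → DiagHyp T K Q a →
    ∀ x y₀ τ W : ℝ, 0 ≤ x → x ≤ K / Real.log T → T ^ (9 / 10 : ℝ) ≤ W →
    Integrable (fun t : ℝ => ‖Sd (Real.log T / 3200) (11 / 20 * Real.log T)
      (1 / 2 + x + (t + y₀) * I) * DP T a t‖ ^ 2 * gw τ W t) ∧
    ∫ t : ℝ, ‖Sd (Real.log T / 3200) (11 / 20 * Real.log T)
      (1 / 2 + x + (t + y₀) * I) * DP T a t‖ ^ 2 * gw τ W t
      ≤ C * (1 + K) ^ 8 * W * Q * (1 + Real.log T * |y₀|) ^ 8 := by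
  refine MeanS_main vd Sd (fun _ _ _ => rfl) ?_ (fun h r hh s => summable_vd h r hh s) diag_vd
  obtain ⟨C, hC, h⟩ := vd_bound 100
  refine ⟨C, hC, fun h' r hh => ?_⟩
  have h1 := h h' r hh
  rwa [abs_of_pos (by norm_num : (0 : ℝ) < 100)] at h1

end Pool.Agent.H14.CO

end

section

/-!
# CO module AB: mean square of `ζ` times a short Dirichlet polynomial
-/

set_option autoImplicit false

namespace Pool.Agent.H14.CO

open Set MeasureTheory Complex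

theorem AB_Sc_cont (h r : ℝ) (hh : 0 < h) (σ : ℝ) :
    Continuous (fun t : ℝ => Sc h r (σ + t * I)) := by
  unfold Sc
  refine continuous_tsum (u := fun l : ℕ =>
    ‖((l + 1 : ℕ) : ℂ) ^ (-(σ : ℂ)) * vc h (r - Real.log (l + 1 : ℕ))‖) ?_ (summable_vc h r hh σ) ?_
  · intro l
    refine Continuous.mul ?_ continuous_const
    refine Continuous.const_cpow (by fun_prop) (Or.inl ?_)
    exact_mod_cast Nat.succ_ne_zero l
  · intro l t
    rw [norm_mul, norm_mul, Complex.norm_natCast_cpow_of_pos (Nat.succ_pos l),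
      Complex.norm_natCast_cpow_of_pos (Nat.succ_pos l)]
    simp

theorem AB_Sc_bdd (h r : ℝ) (hh : 0 < h) (σ : ℝ) :
    ∃ B : ℝ, 0 ≤ B ∧ ∀ t : ℝ, ‖Sc h r (σ + t * I)‖ ≤ B := by
  refine ⟨∑' l : ℕ, ‖((l + 1 : ℕ) : ℂ) ^ (-(σ : ℂ)) * vc h (r - Real.log (l + 1 : ℕ))‖,
    tsum_nonneg (fun _ => norm_nonneg _), fun t => ?_⟩
  have hn : ∀ l : ℕ, ‖((l + 1 : ℕ) : ℂ) ^ (-(σ + t * I : ℂ)) * vc h (r - Real.log (l + 1 : ℕ))‖
      = ‖((l + 1 : ℕ) : ℂ) ^ (-(σ : ℂ)) * vc h (r - Real.log (l + 1 : ℕ))‖ := by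
    intro l
    rw [norm_mul, norm_mul, Complex.norm_natCast_cpow_of_pos (Nat.succ_pos l),
      Complex.norm_natCast_cpow_of_pos (Nat.succ_pos l)]
    simp
  unfold Sc
  calc ‖∑' l : ℕ, ((l + 1 : ℕ) : ℂ) ^ (-(σ + t * I : ℂ)) * vc h (r - Real.log (l + 1 : ℕ))‖
      ≤ ∑' l : ℕ, ‖((l + 1 : ℕ) : ℂ) ^ (-(σ + t * I : ℂ)) * vc h (r - Real.log (l + 1 : ℕ))‖ :=
        norm_tsum_le_tsum_norm (summable_vc h r hh _)
    _ = _ := tsum_congr hn

theorem AB_DP_cont (T : ℝ) (a : ℕ → ℂ) : Continuous (fun t : ℝ => DP T a t) := by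
  unfold DP
  refine continuous_finsetSum _ (fun D hD => ?_)
  refine Continuous.mul continuous_const ?_
  refine Continuous.const_cpow (by fun_prop) (Or.inl ?_)
  have := (Finset.mem_Icc.mp hD).1
  exact_mod_cast (by omega : D ≠ 0)

theorem AB_DP_le (T : ℝ) (hT : 1 ≤ T) (a : ℕ → ℂ) (ha : ∀ D, ‖a D‖ ≤ T) (t : ℝ) :
    ‖DP T a t‖ ≤ T ^ 2 := by
  unfold DP
  have h1 : ∀ D ∈ Finset.Icc 1 ⌊T ^ (1 / 10 : ℝ)⌋₊,
      ‖a D * (D : ℂ) ^ (-(1 / 2 + t * I : ℂ))‖ ≤ T := by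
    intro D hD
    have hD1 := (Finset.mem_Icc.mp hD).1
    rw [norm_mul, Complex.norm_natCast_cpow_of_pos (by omega)]
    have h2 : (D : ℝ) ^ (-(1 / 2 + t * I : ℂ)).re ≤ 1 := by
      refine Real.rpow_le_one_of_one_le_of_nonpos (by exact_mod_cast hD1) ?_
      simp
    calc ‖a D‖ * (D : ℝ) ^ (-(1 / 2 + t * I : ℂ)).re ≤ T * 1 := by
          refine mul_le_mul (ha D) h2 (by positivity) (by linarith only [hT])
      _ = T := mul_one T
  have hfl : ((⌊T ^ (1 / 10 : ℝ)⌋₊ : ℕ) : ℝ) ≤ T := by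
    refine (Nat.floor_le (by positivity)).trans ?_
    calc T ^ (1 / 10 : ℝ) ≤ T ^ (1 : ℝ) := Real.rpow_le_rpow_of_exponent_le hT (by norm_num)
      _ = T := Real.rpow_one T
  calc ‖∑ D ∈ Finset.Icc 1 ⌊T ^ (1 / 10 : ℝ)⌋₊, a D * (D : ℂ) ^ (-(1 / 2 + t * I : ℂ))‖
      ≤ ∑ D ∈ Finset.Icc 1 ⌊T ^ (1 / 10 : ℝ)⌋₊, T := norm_sum_le_of_le _ h1
    _ = (⌊T ^ (1 / 10 : ℝ)⌋₊ : ℝ) * T := by simp
    _ ≤ T * T := by
        refine mul_le_mul_of_nonneg_right hfl (by linarith only [hT])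
    _ = T ^ 2 := by ring

theorem AB_gw_cont (τ W : ℝ) : Continuous (fun t : ℝ => gw τ W t) := by
  unfold gw; fun_prop

theorem AB_gw_pos (τ W t : ℝ) : 0 < gw τ W t := by
  unfold gw; positivity

/-- moments of the Gaussian -/
theorem AB_moment : ∃ M : ℝ, 0 < M ∧ ∀ τ W : ℝ, 0 < W →
    Integrable (fun t : ℝ => (1 + |t - τ| / W) ^ 202 * gw τ W t) ∧
    ∫ t : ℝ, (1 + |t - τ| / W) ^ 202 * gw τ W t ≤ M * W := by
  have hf : Integrable (fun u : ℝ => (1 + |u|) ^ 202 * Real.exp (-(u ^ 2))) := by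
    have h0 : Integrable (fun u : ℝ =>
        ((Nat.factorial 202 : ℝ) * Real.exp (3 / 2)) * Real.exp (-(1 / 2 : ℝ) * u ^ 2)) :=
      (integrable_exp_neg_mul_sq (by norm_num)).const_mul _
    refine h0.mono' (by fun_prop) (Filter.Eventually.of_forall fun u => ?_)
    have h1 := Real.pow_div_factorial_le_exp (1 + |u|) (by positivity) 202
    have h2 : (0 : ℝ) < (Nat.factorial 202 : ℝ) := by exact_mod_cast Nat.factorial_pos 202
    rw [div_le_iff₀ h2] at h1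
    rw [Real.norm_of_nonneg (by positivity)]
    calc (1 + |u|) ^ 202 * Real.exp (-(u ^ 2))
        ≤ (Real.exp (1 + |u|) * (Nat.factorial 202 : ℝ)) * Real.exp (-(u ^ 2)) := by
          exact mul_le_mul_of_nonneg_right h1 (Real.exp_pos _).le
      _ = (Nat.factorial 202 : ℝ) * (Real.exp (1 + |u|) * Real.exp (-(u ^ 2))) := by ring
      _ = (Nat.factorial 202 : ℝ) * Real.exp ((1 + |u|) + (-(u ^ 2))) := by
          rw [Real.exp_add (1 + |u|)]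
      _ ≤ (Nat.factorial 202 : ℝ) * Real.exp (3 / 2 + (-(1 / 2 : ℝ) * u ^ 2)) := by
          refine mul_le_mul_of_nonneg_left (Real.exp_le_exp.mpr ?_) h2.le
          nlinarith only [sq_nonneg (|u| - 1), sq_abs u]
      _ = ((Nat.factorial 202 : ℝ) * Real.exp (3 / 2)) * Real.exp (-(1 / 2 : ℝ) * u ^ 2) := by
          rw [Real.exp_add]; ring
  refine ⟨(∫ u : ℝ, (1 + |u|) ^ 202 * Real.exp (-(u ^ 2))) + 1, ?_, ?_⟩
  · have : 0 ≤ ∫ u : ℝ, (1 + |u|) ^ 202 * Real.exp (-(u ^ 2)) :=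
      integral_nonneg (fun u => by positivity)
    linarith
  · intro τ W hW
    have hc : (fun t : ℝ => (1 + |t - τ| / W) ^ 202 * gw τ W t)
        = fun t : ℝ => (fun v : ℝ => (fun u : ℝ => (1 + |u|) ^ 202 * Real.exp (-(u ^ 2))) (v / W))
          (t - τ) := by
      funext t
      simp only [gw, abs_div, abs_of_pos hW]
    constructor
    · rw [hc]
      exact (hf.comp_div hW.ne').comp_sub_right τ
    · rw [hc, integral_sub_right_eq_self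
        (fun v : ℝ => (fun u : ℝ => (1 + |u|) ^ 202 * Real.exp (-(u ^ 2))) (v / W)) τ]
      have h9 := Measure.integral_comp_div
        (fun u : ℝ => (1 + |u|) ^ 202 * Real.exp (-(u ^ 2))) W
      rw [abs_of_pos hW, smul_eq_mul] at h9
      refine h9.le.trans ?_
      nlinarith

/-- the kernel on the line `Re z = -x` -/
noncomputable def AB_k (h x y : ℝ) : ℝ :=
  (1 + 4 * ‖(-x + y * I : ℂ)‖) * ‖kn h (-x + y * I) / (-x + y * I)‖

theorem AB_k_nonneg (h x y : ℝ) : 0 ≤ AB_k h x y := by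
  unfold AB_k; positivity

theorem AB_k_cont (h x : ℝ) (hx : 0 < x) : Continuous (fun y : ℝ => AB_k h x y) := by
  unfold AB_k
  have hne : ∀ y : ℝ, (-x + y * I : ℂ) ≠ 0 := by
    intro y h0
    have := congrArg Complex.re h0
    simp at this
    linarith
  have hk : Continuous (fun y : ℝ => kn h (-x + y * I)) :=
    (differentiable_kn h).continuous.comp (by fun_prop)
  refine Continuous.mul (by fun_prop) ?_
  exact (hk.div (by fun_prop) hne).norm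

theorem AB_kernel : ∃ C : ℝ, 0 < C ∧ ∀ L K : ℝ, 3200 ≤ L → 1 ≤ K → K / L ≤ 1 / 4 →
    Integrable (fun y : ℝ => AB_k (L / 3200) (K / L) y) ∧
    Integrable (fun y : ℝ => AB_k (L / 3200) (K / L) y * (1 + L * |y|) ^ 8) ∧
    ∫ y : ℝ, AB_k (L / 3200) (K / L) y ≤ C * Real.exp (K / 100) ∧
    ∫ y : ℝ, AB_k (L / 3200) (K / L) y * (1 + L * |y|) ^ 8 ≤ C * Real.exp (K / 100) := by
  obtain ⟨C, hC, hk⟩ := kn_int 1
  refine ⟨4 * 3200 ^ 8 * C * Real.exp 1 * 3201, by positivity, ?_⟩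
  intro L K hL hK hKL
  have hL0 : 0 < L := by linarith
  have hK0 : 0 < K := by linarith
  have hx : 0 < K / L := by positivity
  have hh : 0 < L / 3200 := by positivity
  have hσ : (-(K / L) : ℝ) ≠ 0 := by linarith
  obtain ⟨hi, hb⟩ := hk (L / 3200) (-(K / L)) hh hσ
  set G : ℝ → ℝ := fun y : ℝ => (1 + L / 3200 * |y|) ^ 30 * (1 + |y|) ^ 1 *
      ‖kn (L / 3200) (((-(K / L) : ℝ) : ℂ) + y * I) / (((-(K / L) : ℝ) : ℂ) + y * I)‖ with hG
  have hG0 : ∀ y, 0 ≤ G y := by intro y; simp only [hG]; positivity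
  have hbd : ∫ y, G y ≤ C * Real.exp (K / 100) * Real.exp 1 * 3201 := by
    refine hb.trans ?_
    have e1 : |(-(K / L) : ℝ)| = K / L := by rw [abs_neg, abs_of_pos hx]
    have e2 : L / 3200 * (K / L) = K / 3200 := by field_simp
    rw [e1]
    have e3 : 32 * (L / 3200) * (K / L) = K / 100 := by
      rw [mul_assoc, e2]; ring
    rw [e3, e2, Real.exp_add]
    have e4 : Real.exp ((-(K / L)) ^ 2) ≤ Real.exp 1 := by
      refine Real.exp_le_exp.mpr ?_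
      nlinarith only [hKL, hx]
    have e5 : 1 + 1 / (K / 3200) ≤ 3201 := by
      have : 1 / (K / 3200) ≤ 3200 := by
        rw [div_le_iff₀ (by positivity)]
        linarith only [hK]
      linarith
    have e6 : (0 : ℝ) ≤ 1 + 1 / (K / 3200) := by positivity
    have hp : 0 < Real.exp (K / 100) := Real.exp_pos _
    calc C * (Real.exp (K / 100) * Real.exp ((-(K / L)) ^ 2)) * (1 + 1 / (K / 3200))
        ≤ C * (Real.exp (K / 100) * Real.exp 1) * 3201 := by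
          refine mul_le_mul ?_ e5 e6 (by positivity)
          refine mul_le_mul_of_nonneg_left ?_ hC.le
          exact mul_le_mul_of_nonneg_left e4 hp.le
      _ = C * Real.exp (K / 100) * Real.exp 1 * 3201 := by ring
  have hcast : (((-(K / L) : ℝ) : ℂ)) = -((K / L : ℝ) : ℂ) := by push_cast; ring
  have h1 : ∀ y : ℝ, AB_k (L / 3200) (K / L) y * (1 + L * |y|) ^ 8 ≤ 4 * 3200 ^ 8 * G y := by
    intro y
    simp only [hG, hcast]
    unfold AB_k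
    set nn : ℝ := ‖kn (L / 3200) (-((K / L : ℝ) : ℂ) + y * I) / (-((K / L : ℝ) : ℂ) + y * I)‖ with hnn
    have hnn0 : 0 ≤ nn := norm_nonneg _
    have a1 : 1 + 4 * ‖(-((K / L : ℝ) : ℂ) + y * I : ℂ)‖ ≤ 4 * (1 + |y|) := by
      have : ‖(-((K / L : ℝ) : ℂ) + y * I : ℂ)‖ ≤ K / L + |y| := by
        refine (norm_add_le _ _).trans ?_
        rw [norm_neg, norm_mul, Complex.norm_I, mul_one, Complex.norm_real, Complex.norm_real,
          Real.norm_eq_abs, Real.norm_eq_abs, abs_of_pos hx]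
      linarith
    have a2 : (1 + L * |y|) ^ 8 ≤ 3200 ^ 8 * (1 + L / 3200 * |y|) ^ 30 := by
      have b0 : 0 ≤ |y| := abs_nonneg y
      have b1 : (1 + L * |y|) ≤ 3200 * (1 + L / 3200 * |y|) := by nlinarith only []
      have b2 : 1 ≤ 1 + L / 3200 * |y| := by
        have : 0 ≤ L / 3200 * |y| := by positivity
        linarith only [this]
      calc (1 + L * |y|) ^ 8 ≤ (3200 * (1 + L / 3200 * |y|)) ^ 8 :=
            pow_le_pow_left₀ (by positivity) b1 8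
        _ = 3200 ^ 8 * (1 + L / 3200 * |y|) ^ 8 := by rw [mul_pow]
        _ ≤ 3200 ^ 8 * (1 + L / 3200 * |y|) ^ 30 := by
            refine mul_le_mul_of_nonneg_left ?_ (by positivity)
            exact pow_le_pow_right₀ b2 (by norm_num)
    have a1' : 0 ≤ 1 + 4 * ‖(-((K / L : ℝ) : ℂ) + y * I : ℂ)‖ := by positivity
    calc (1 + 4 * ‖(-((K / L : ℝ) : ℂ) + y * I : ℂ)‖) * nn * (1 + L * |y|) ^ 8
        ≤ (4 * (1 + |y|)) * nn * (3200 ^ 8 * (1 + L / 3200 * |y|) ^ 30) := by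
          refine mul_le_mul ?_ a2 (by positivity) (by positivity)
          exact mul_le_mul_of_nonneg_right a1 hnn0
      _ = 4 * 3200 ^ 8 * ((1 + L / 3200 * |y|) ^ 30 * (1 + |y|) ^ 1 * nn) := by ring
  have h0 : ∀ y : ℝ, AB_k (L / 3200) (K / L) y ≤ AB_k (L / 3200) (K / L) y * (1 + L * |y|) ^ 8 := by
    intro y
    refine le_mul_of_one_le_right (AB_k_nonneg _ _ _) ?_
    refine one_le_pow₀ ?_
    have : 0 ≤ L * |y| := by positivity
    linarith only [this]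
  have hiG : Integrable (fun y => 4 * 3200 ^ 8 * G y) := hi.const_mul _
  have hc := AB_k_cont (L / 3200) (K / L) hx
  have i2 : Integrable (fun y : ℝ => AB_k (L / 3200) (K / L) y * (1 + L * |y|) ^ 8) := by
    refine hiG.mono' ?_ (Filter.Eventually.of_forall fun y => ?_)
    · exact (hc.mul (by fun_prop)).aestronglyMeasurable
    · rw [Real.norm_of_nonneg (mul_nonneg (AB_k_nonneg _ _ _) (by positivity))]
      exact h1 y
  have i1 : Integrable (fun y : ℝ => AB_k (L / 3200) (K / L) y) := by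
    refine i2.mono' hc.aestronglyMeasurable (Filter.Eventually.of_forall fun y => ?_)
    rw [Real.norm_of_nonneg (AB_k_nonneg _ _ _)]
    exact h0 y
  have b2 : ∫ y : ℝ, AB_k (L / 3200) (K / L) y * (1 + L * |y|) ^ 8 ≤
      4 * 3200 ^ 8 * C * Real.exp 1 * 3201 * Real.exp (K / 100) := by
    calc ∫ y : ℝ, AB_k (L / 3200) (K / L) y * (1 + L * |y|) ^ 8
        ≤ ∫ y : ℝ, 4 * 3200 ^ 8 * G y := integral_mono i2 hiG h1
      _ = 4 * 3200 ^ 8 * ∫ y : ℝ, G y := integral_const_mul _ _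
      _ ≤ 4 * 3200 ^ 8 * (C * Real.exp (K / 100) * Real.exp 1 * 3201) := by
          refine mul_le_mul_of_nonneg_left hbd (by positivity)
      _ = 4 * 3200 ^ 8 * C * Real.exp 1 * 3201 * Real.exp (K / 100) := by ring
  exact ⟨i1, i2, (integral_mono i1 i2 h0).trans b2, b2⟩

/-- Cauchy–Schwarz for the third term. -/
theorem AB_third (h r x : ℝ) (hh : 0 < h) (hx : 0 < x)
    (hi : Integrable (fun y : ℝ => AB_k h x y)) (t : ℝ) (D : ℂ) (g : ℝ) (hg : 0 ≤ g) :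
    ((∫ y : ℝ, AB_k h x y * ‖Sc h r (1 / 2 + (t + y) * I)‖) * ‖D‖) ^ 2 * g ≤
      (∫ y : ℝ, AB_k h x y) *
        ∫ y : ℝ, AB_k h x y * (‖Sc h r (1 / 2 + (t + y) * I) * D‖ ^ 2 * g) := by
  obtain ⟨B, hB0, hB⟩ := AB_Sc_bdd h r hh (1 / 2)
  have hcont : Continuous (fun y : ℝ => Sc h r (1 / 2 + (t + y) * I)) := by
    have h1 := (AB_Sc_cont h r hh (1 / 2)).comp (continuous_const.add continuous_id : Continuous (fun y : ℝ => t + y))
    refine h1.congr (fun y => ?_)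
    simp
  have hB' : ∀ y : ℝ, ‖Sc h r (1 / 2 + (t + y) * I)‖ ≤ B := by
    intro y
    have := hB (t + y)
    push_cast at this
    exact this
  have hif : Integrable (fun y : ℝ => AB_k h x y * ‖Sc h r (1 / 2 + (t + y) * I)‖ ^ 2) := by
    refine (hi.mul_const (B ^ 2)).mono' ?_ (Filter.Eventually.of_forall fun y => ?_)
    · exact ((AB_k_cont h x hx).mul (hcont.norm.pow 2)).aestronglyMeasurable
    · rw [Real.norm_of_nonneg (mul_nonneg (AB_k_nonneg _ _ _) (by positivity))]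
      refine mul_le_mul_of_nonneg_left ?_ (AB_k_nonneg _ _ _)
      exact pow_le_pow_left₀ (norm_nonneg _) (hB' y) 2
  have hcs := cs_int (fun y => AB_k h x y) (fun y => ‖Sc h r (1 / 2 + (t + y) * I)‖) hi
    (fun y => AB_k_nonneg h x y) (fun y => norm_nonneg _) hcont.norm.aestronglyMeasurable hif
  have he : ∫ y : ℝ, AB_k h x y * (‖Sc h r (1 / 2 + (t + y) * I) * D‖ ^ 2 * g)
      = (∫ y : ℝ, AB_k h x y * ‖Sc h r (1 / 2 + (t + y) * I)‖ ^ 2) * (‖D‖ ^ 2 * g) := by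
    rw [← integral_mul_const]
    refine integral_congr_ae (Filter.Eventually.of_forall fun y => ?_)
    simp only [norm_mul]
    ring
  rw [he]
  have hn : 0 ≤ ‖D‖ ^ 2 * g := by positivity
  calc ((∫ y : ℝ, AB_k h x y * ‖Sc h r (1 / 2 + (t + y) * I)‖) * ‖D‖) ^ 2 * g
      = (∫ y : ℝ, AB_k h x y * ‖Sc h r (1 / 2 + (t + y) * I)‖) ^ 2 * (‖D‖ ^ 2 * g) := by ring
    _ ≤ ((∫ y : ℝ, AB_k h x y) *
          ∫ y : ℝ, AB_k h x y * ‖Sc h r (1 / 2 + (t + y) * I)‖ ^ 2) * (‖D‖ ^ 2 * g) :=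
        mul_le_mul_of_nonneg_right hcs hn
    _ = _ := by ring

/-- Tonelli for the third term. -/
theorem AB_ton (h r x T : ℝ) (hh : 0 < h) (hx : 0 < x) (hT : 1 ≤ T) (a : ℕ → ℂ)
    (ha : ∀ D, ‖a D‖ ≤ T) (τ W : ℝ) (hW : 0 < W)
    (hi : Integrable (fun y : ℝ => AB_k h x y))
    (Z : ℝ) (L : ℝ) (hi8 : Integrable (fun y : ℝ => AB_k h x y * (1 + L * |y|) ^ 8))
    (hm : ∀ y : ℝ, ∫ t : ℝ, ‖Sc h r (1 / 2 + (t + y) * I) * DP T a t‖ ^ 2 * gw τ W t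
      ≤ Z * (1 + L * |y|) ^ 8) :
    Integrable (fun t : ℝ => ∫ y : ℝ, AB_k h x y *
      (‖Sc h r (1 / 2 + (t + y) * I) * DP T a t‖ ^ 2 * gw τ W t)) ∧
    ∫ t : ℝ, ∫ y : ℝ, AB_k h x y *
      (‖Sc h r (1 / 2 + (t + y) * I) * DP T a t‖ ^ 2 * gw τ W t) ≤
      Z * ∫ y : ℝ, AB_k h x y * (1 + L * |y|) ^ 8 := by
  obtain ⟨B, hB0, hB⟩ := AB_Sc_bdd h r hh (1 / 2)
  have hB' : ∀ t y : ℝ, ‖Sc h r (1 / 2 + (t + y) * I)‖ ≤ B := by
    intro t y
    have := hB (t + y)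
    push_cast at this
    exact this
  have hcont : Continuous (fun p : ℝ × ℝ => Sc h r (1 / 2 + (p.1 + p.2) * I)) := by
    have h1 := (AB_Sc_cont h r hh (1 / 2)).comp
      (continuous_fst.add continuous_snd : Continuous (fun p : ℝ × ℝ => p.1 + p.2))
    refine h1.congr (fun y => ?_)
    simp
  have hcF : Continuous (fun p : ℝ × ℝ => AB_k h x p.2 *
      (‖Sc h r (1 / 2 + (p.1 + p.2) * I) * DP T a p.1‖ ^ 2 * gw τ W p.1)) := by
    refine ((AB_k_cont h x hx).comp continuous_snd).mul ?_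
    refine Continuous.mul ?_ ((AB_gw_cont τ W).comp continuous_fst)
    exact ((hcont.mul ((AB_DP_cont T a).comp continuous_fst)).norm).pow 2
  have hgi : Integrable (fun t : ℝ => gw τ W t) := by
    have h0 : Integrable (fun u : ℝ => Real.exp (-(1 : ℝ) * u ^ 2)) :=
      integrable_exp_neg_mul_sq (by norm_num)
    have h1 := (h0.comp_div hW.ne').comp_sub_right τ
    refine h1.congr (Filter.Eventually.of_forall fun t => ?_)
    simp [gw]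
  have hint : Integrable (fun p : ℝ × ℝ => AB_k h x p.2 *
      (‖Sc h r (1 / 2 + (p.1 + p.2) * I) * DP T a p.1‖ ^ 2 * gw τ W p.1))
      (volume.prod volume) := by
    have h2 : Integrable (fun p : ℝ × ℝ => ((B * T ^ 2) ^ 2 * gw τ W p.1) * AB_k h x p.2)
        (volume.prod volume) := (hgi.const_mul ((B * T ^ 2) ^ 2)).mul_prod hi
    refine h2.mono' hcF.aestronglyMeasurable (Filter.Eventually.of_forall fun p => ?_)
    have hk0 := AB_k_nonneg h x p.2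
    have hg0 := (AB_gw_pos τ W p.1).le
    rw [Real.norm_of_nonneg (by positivity)]
    have h3 : ‖Sc h r (1 / 2 + (p.1 + p.2) * I) * DP T a p.1‖ ^ 2 ≤ (B * T ^ 2) ^ 2 := by
      refine pow_le_pow_left₀ (norm_nonneg _) ?_ 2
      rw [norm_mul]
      exact mul_le_mul (hB' _ _) (AB_DP_le T hT a ha _) (norm_nonneg _) hB0
    calc AB_k h x p.2 * (‖Sc h r (1 / 2 + (p.1 + p.2) * I) * DP T a p.1‖ ^ 2 * gw τ W p.1)
        ≤ AB_k h x p.2 * ((B * T ^ 2) ^ 2 * gw τ W p.1) := by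
          refine mul_le_mul_of_nonneg_left ?_ hk0
          exact mul_le_mul_of_nonneg_right h3 hg0
      _ = _ := by ring
  constructor
  · exact hint.integral_prod_left
  · rw [integral_integral_swap (f := fun (t y : ℝ) => AB_k h x y *
      (‖Sc h r (1 / 2 + (t + y) * I) * DP T a t‖ ^ 2 * gw τ W t)) hint]
    rw [← integral_const_mul]
    refine integral_mono hint.integral_prod_right (hi8.const_mul Z) (fun y => ?_)
    simp only
    rw [integral_const_mul]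
    calc AB_k h x y * ∫ t : ℝ, ‖Sc h r (1 / 2 + (t + y) * I) * DP T a t‖ ^ 2 * gw τ W t
        ≤ AB_k h x y * (Z * (1 + L * |y|) ^ 8) :=
          mul_le_mul_of_nonneg_left (hm y) (AB_k_nonneg _ _ _)
      _ = _ := by ring

/-- The fourth term. -/
theorem AB_fourth (T : ℝ) (hT : 1 ≤ T) (a : ℕ → ℂ) (ha : ∀ D, ‖a D‖ ≤ T) (τ W t C : ℝ)
    (hW : 0 < W) (hWT : W ≤ T) :
    ((C * T ^ (-6 : ℝ) * (1 + |t| / T) ^ 101) * ‖DP T a t‖) ^ 2 * gw τ W t ≤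
      (C ^ 2 * (1 + |τ| / T) ^ 202) * ((1 + |t - τ| / W) ^ 202 * gw τ W t) := by
  have hT0 : 0 < T := by linarith
  have hD := AB_DP_le T hT a ha t
  have hg := (AB_gw_pos τ W t).le
  have h1 : T ^ (-6 : ℝ) * ‖DP T a t‖ ≤ 1 := by
    have e1 : T ^ (-6 : ℝ) = (T ^ 6)⁻¹ := by
      rw [Real.rpow_neg hT0.le]
      norm_cast
    rw [e1]
    have h6 : (0 : ℝ) < T ^ 6 := by positivity
    rw [inv_mul_le_iff₀ h6, mul_one]
    refine hD.trans ?_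
    exact pow_le_pow_right₀ hT (by norm_num)
  have h2 : (1 + |t| / T) ≤ (1 + |τ| / T) * (1 + |t - τ| / W) := by
    have h3 : |t| ≤ |τ| + |t - τ| := by
      have : t = τ + (t - τ) := by ring
      calc |t| = |τ + (t - τ)| := by rw [← this]
        _ ≤ |τ| + |t - τ| := abs_add_le _ _
    have h4 : |t| / T ≤ |τ| / T + |t - τ| / T := by
      rw [← add_div]
      exact div_le_div_of_nonneg_right h3 hT0.le
    have h5 : |t - τ| / T ≤ |t - τ| / W := div_le_div_of_nonneg_left (abs_nonneg _) hW hWT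
    have h6 : 0 ≤ |τ| / T := by positivity
    have h7 : 0 ≤ |t - τ| / W := by positivity
    nlinarith only [h4, h5, mul_nonneg h6 h7]
  have h3 : (1 + |t| / T) ^ 202 ≤ (1 + |τ| / T) ^ 202 * (1 + |t - τ| / W) ^ 202 := by
    rw [← mul_pow]
    exact pow_le_pow_left₀ (by positivity) h2 202
  have h0 : 0 ≤ T ^ (-6 : ℝ) * ‖DP T a t‖ := by positivity
  have h101 : (1 + |t| / T) ^ 202 = ((1 + |t| / T) ^ 101) ^ 2 := by rw [← pow_mul]
  have hu0 : 0 ≤ (1 + |t| / T) ^ 101 := by positivity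
  have hv0 : 0 ≤ (1 + |τ| / T) ^ 202 := by positivity
  have hw0 : 0 ≤ (1 + |t - τ| / W) ^ 202 := by positivity
  rw [h101] at h3
  generalize (1 + |t| / T) ^ 101 = u at *
  generalize (1 + |τ| / T) ^ 202 = v at *
  generalize (1 + |t - τ| / W) ^ 202 = w at *
  generalize T ^ (-6 : ℝ) = q at *
  generalize ‖DP T a t‖ = d at *
  generalize gw τ W t = g at *
  calc ((C * q * u) * d) ^ 2 * g
      = (C ^ 2 * u ^ 2) * (q * d) ^ 2 * g := by ring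
    _ ≤ (C ^ 2 * u ^ 2) * 1 * g := by
        refine mul_le_mul_of_nonneg_right ?_ hg
        refine mul_le_mul_of_nonneg_left ?_ (by positivity)
        exact pow_le_one₀ h0 h1
    _ = C ^ 2 * (u ^ 2 * g) := by ring
    _ ≤ C ^ 2 * ((v * w) * g) := by
        refine mul_le_mul_of_nonneg_left ?_ (by positivity)
        exact mul_le_mul_of_nonneg_right h3 hg
    _ = _ := by ring

theorem AB_zeta_cont (x : ℝ) (hx : x ≤ 1 / 4) :
    Continuous (fun t : ℝ => riemannZeta (1 / 2 + x + t * I)) := by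
  rw [continuous_iff_continuousAt]
  intro t
  have h1 : (1 / 2 + x + t * I : ℂ) ≠ 1 := by
    intro h0
    have := congrArg Complex.re h0
    simp at this
    linarith
  have h2 : ContinuousAt riemannZeta (1 / 2 + x + t * I : ℂ) :=
    (differentiableAt_riemannZeta h1).continuousAt
  have h3 : ContinuousAt (fun t : ℝ => (1 / 2 + x + t * I : ℂ)) t := by fun_prop
  exact ContinuousAt.comp (f := fun t : ℝ => (1 / 2 + x + t * I : ℂ)) h2 h3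

/-- pointwise algebra -/
theorem AB_alg (zz p₁ p₂ p₃ p₄ d g X Y : ℝ) (hz : zz ≤ p₁ + 4 * p₂ + p₃ + p₄) (hzz : 0 ≤ zz)
    (hd : 0 ≤ d) (hg : 0 ≤ g) (hX : (p₃ * d) ^ 2 * g ≤ X) (hY : (p₄ * d) ^ 2 * g ≤ Y) :
    (zz * d) ^ 2 * g ≤ 4 * ((((p₁ * d) ^ 2 * g) + 16 * ((p₂ * d) ^ 2 * g) + X) + Y) := by
  have e1 : (zz * d) ^ 2 ≤ 4 * ((p₁ * d) ^ 2 + 16 * (p₂ * d) ^ 2 + (p₃ * d) ^ 2 + (p₄ * d) ^ 2) := by
    have e2 : zz * d ≤ p₁ * d + 4 * (p₂ * d) + p₃ * d + p₄ * d := by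
      calc zz * d ≤ (p₁ + 4 * p₂ + p₃ + p₄) * d := mul_le_mul_of_nonneg_right hz hd
        _ = _ := by ring
    have e3 : (zz * d) ^ 2 ≤ (p₁ * d + 4 * (p₂ * d) + p₃ * d + p₄ * d) ^ 2 :=
      pow_le_pow_left₀ (by positivity) e2 2
    refine e3.trans ?_
    generalize p₁ * d = a
    generalize p₂ * d = b
    generalize p₃ * d = c
    generalize p₄ * d = e
    nlinarith only [sq_nonneg (a - 4 * b), sq_nonneg (a - c), sq_nonneg (a - e), sq_nonneg (4 * b - c), sq_nonneg (4 * b - e)]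
  calc (zz * d) ^ 2 * g
      ≤ (4 * ((p₁ * d) ^ 2 + 16 * (p₂ * d) ^ 2 + (p₃ * d) ^ 2 + (p₄ * d) ^ 2)) * g :=
        mul_le_mul_of_nonneg_right e1 hg
    _ = 4 * ((((p₁ * d) ^ 2 * g) + 16 * ((p₂ * d) ^ 2 * g) + (p₃ * d) ^ 2 * g) +
        (p₄ * d) ^ 2 * g) := by ring
    _ ≤ _ := by linarith

/-- final combination -/
theorem AB_comb (C₁ C₂ C₃ C₄ M K W Q R v I1 I2 I3 I4 kI : ℝ) (hC₁ : 0 < C₁) (hC₂ : 0 < C₂)
    (hC₃ : 0 < C₃) (hC₄ : 0 < C₄) (hM : 0 < M) (hK : 1 ≤ K) (hW : 0 < W) (hQ : 1 ≤ Q)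
    (hR : 1 ≤ R) (hv0 : 0 ≤ v) (hv : v ≤ R)
    (h1 : I1 ≤ C₁ * (1 + K) ^ 8 * W * Q) (h2 : I2 ≤ C₂ * (1 + K) ^ 8 * W * Q)
    (hkI0 : 0 ≤ kI) (hkI : kI ≤ C₄ * Real.exp (K / 100))
    (h3 : I3 ≤ (C₁ * (1 + K) ^ 8 * W * Q) * (C₄ * Real.exp (K / 100)))
    (h4 : I4 ≤ M * W) :
    4 * ((I1 + 16 * I2 + kI * I3) + (C₃ ^ 2 * v) * I4) ≤
      (2 + 4 * 40320 * Real.exp 1 * (C₁ + 16 * C₂ + C₄ ^ 2 * C₁ + C₃ ^ 2 * M)) *
        Real.exp ((2 + 4 * 40320 * Real.exp 1 * (C₁ + 16 * C₂ + C₄ ^ 2 * C₁ + C₃ ^ 2 * M)) * K) *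
        W * Q * R := by
  have hQ0 : 0 < Q := by linarith
  have hK0 : 0 < K := by linarith
  have hR0 : 0 < R := by linarith
  set S : ℝ := C₁ + 16 * C₂ + C₄ ^ 2 * C₁ + C₃ ^ 2 * M with hS
  have hS0 : 0 < S := by positivity
  have hP : (1 + K) ^ 8 ≤ 40320 * (Real.exp 1 * Real.exp K) := by
    have := Real.pow_div_factorial_le_exp (1 + K) (by positivity) 8
    rw [div_le_iff₀ (by positivity)] at this
    rw [Real.exp_add] at this
    have e : ((Nat.factorial 8 : ℕ) : ℝ) = 40320 := by norm_num [Nat.factorial]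
    rw [e] at this
    linarith only [this]
  obtain ⟨E, hE⟩ : ∃ E : ℝ, E = Real.exp (2 * K) := ⟨_, rfl⟩
  have hE1 : 1 ≤ E := by rw [hE]; exact Real.one_le_exp (by positivity)
  have hE0 : 0 < E := by linarith only [hE1]
  have hEK : Real.exp K ≤ E := by rw [hE]; exact Real.exp_le_exp.mpr (by linarith only [hK])
  have hEK2 : Real.exp (K / 100) * Real.exp (K / 100) * Real.exp K ≤ E := by
    rw [← Real.exp_add, ← Real.exp_add, hE]
    exact Real.exp_le_exp.mpr (by linarith)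
  obtain ⟨c, hc⟩ : ∃ c : ℝ, c = 40320 * Real.exp 1 := ⟨_, rfl⟩
  have hc1 : 1 ≤ c := by
    have : (1 : ℝ) ≤ Real.exp 1 := Real.one_le_exp (by norm_num)
    rw [hc]; linarith only [this]
  have hc0 : 0 < c := by linarith only [hc1]
  have hP' : (1 + K) ^ 8 ≤ c * Real.exp K := by rw [hc]; linarith only [hP]
  have hfin : E ≤ Real.exp ((2 + 4 * 40320 * Real.exp 1 * S) * K) := by
    rw [hE]
    refine Real.exp_le_exp.mpr ?_
    have : 0 ≤ 4 * 40320 * Real.exp 1 * S * K := by positivity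
    linarith only [this]
  have hcS : 4 * S * c ≤ 2 + 4 * 40320 * Real.exp 1 * S := by rw [hc]; linarith only []
  obtain ⟨P, hPd⟩ : ∃ P : ℝ, P = (1 + K) ^ 8 := ⟨_, rfl⟩
  have hP0 : 0 < P := by rw [hPd]; positivity
  rw [← hPd] at hP' h1 h2 h3
  have hPE : P ≤ c * E := hP'.trans (mul_le_mul_of_nonneg_left hEK hc0.le)
  have hWQ : 0 < W * Q := by positivity
  have hcE : 0 < c * E := by positivity
  -- term 1
  have t1 : I1 ≤ C₁ * (c * E) * (W * Q) * R := by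
    calc I1 ≤ C₁ * P * W * Q := h1
      _ = C₁ * P * (W * Q) * 1 := by ring
      _ ≤ C₁ * (c * E) * (W * Q) * R := by
          refine mul_le_mul ?_ hR (by norm_num) (by positivity)
          refine mul_le_mul_of_nonneg_right ?_ hWQ.le
          exact mul_le_mul_of_nonneg_left hPE hC₁.le
  have t2 : I2 ≤ C₂ * (c * E) * (W * Q) * R := by
    calc I2 ≤ C₂ * P * W * Q := h2
      _ = C₂ * P * (W * Q) * 1 := by ring
      _ ≤ C₂ * (c * E) * (W * Q) * R := by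
          refine mul_le_mul ?_ hR (by norm_num) (by positivity)
          refine mul_le_mul_of_nonneg_right ?_ hWQ.le
          exact mul_le_mul_of_nonneg_left hPE hC₂.le
  have hek : 0 < Real.exp (K / 100) := Real.exp_pos _
  obtain ⟨ek, hekd⟩ : ∃ ek : ℝ, ek = Real.exp (K / 100) := ⟨_, rfl⟩
  rw [← hekd] at hEK2 hkI h3 hek
  have t3 : kI * I3 ≤ (C₄ ^ 2 * C₁) * (c * E) * (W * Q) * R := by
    have b0 : 0 ≤ (C₁ * P * W * Q) * (C₄ * ek) := by positivity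
    calc kI * I3 ≤ kI * ((C₁ * P * W * Q) * (C₄ * ek)) := mul_le_mul_of_nonneg_left h3 hkI0
      _ ≤ (C₄ * ek) * ((C₁ * P * W * Q) * (C₄ * ek)) := mul_le_mul_of_nonneg_right hkI b0
      _ = (C₄ ^ 2 * C₁) * (P * (ek * ek)) * (W * Q) * 1 := by ring
      _ ≤ (C₄ ^ 2 * C₁) * (c * E) * (W * Q) * R := by
          refine mul_le_mul ?_ hR (by norm_num) (by positivity)
          refine mul_le_mul_of_nonneg_right ?_ hWQ.le
          refine mul_le_mul_of_nonneg_left ?_ (by positivity)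
          calc P * (ek * ek) ≤ (c * Real.exp K) * (ek * ek) :=
                mul_le_mul_of_nonneg_right hP' (by positivity)
            _ = c * (ek * ek * Real.exp K) := by ring
            _ ≤ c * E := mul_le_mul_of_nonneg_left hEK2 hc0.le
  have t4 : (C₃ ^ 2 * v) * I4 ≤ (C₃ ^ 2 * M) * (c * E) * (W * Q) * R := by
    have b0 : 0 ≤ C₃ ^ 2 * v := by positivity
    calc (C₃ ^ 2 * v) * I4 ≤ (C₃ ^ 2 * v) * (M * W) := mul_le_mul_of_nonneg_left h4 b0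
      _ = (C₃ ^ 2 * M * (1 * 1) * (W * 1)) * v := by ring
      _ ≤ (C₃ ^ 2 * M * (c * E) * (W * Q)) * R := by
          refine mul_le_mul ?_ hv hv0 (by positivity)
          refine mul_le_mul ?_ ?_ (by positivity) (by positivity)
          · refine mul_le_mul_of_nonneg_left ?_ (by positivity)
            exact mul_le_mul hc1 hE1 (by norm_num) hc0.le
          · exact mul_le_mul_of_nonneg_left hQ hW.le
      _ = _ := by ring
  have tot : 4 * ((I1 + 16 * I2 + kI * I3) + (C₃ ^ 2 * v) * I4) ≤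
      4 * (S * (c * E) * (W * Q) * R) := by
    have : S * (c * E) * (W * Q) * R = C₁ * (c * E) * (W * Q) * R +
      16 * (C₂ * (c * E) * (W * Q) * R) + (C₄ ^ 2 * C₁) * (c * E) * (W * Q) * R +
      (C₃ ^ 2 * M) * (c * E) * (W * Q) * R := by rw [hS]; ring
    rw [this]
    linarith only [t1, t2, t3, t4]
  refine tot.trans ?_
  have hS' : 0 < 2 + 4 * 40320 * Real.exp 1 * S := by positivity
  generalize 2 + 4 * 40320 * Real.exp 1 * S = U at *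
  calc 4 * (S * (c * E) * (W * Q) * R) = (4 * S * c) * E * (W * Q) * R := by ring
    _ ≤ U * Real.exp (U * K) * (W * Q) * R := by
        refine mul_le_mul_of_nonneg_right ?_ (by linarith)
        refine mul_le_mul_of_nonneg_right ?_ hWQ.le
        exact mul_le_mul hcS hfin hE0.le (by positivity)
    _ = _ := by ring

/-- PROOF. Multiply `afe` (with `x = K/L`) by `‖DP T a t‖`, square (`(a+b+c+d)² ≤ 4(a²+b²+c²+d²)`),
multiply by `gw` and integrate. First two terms: `mean_Sc`, `mean_Sd` with `x = K/L`, `y₀ = 0`. Third: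
`cs_int` with `k(y) = (1+4|z|) ‖kn h z/z‖`, `z = -x+iy` (`∫ k ≤ C e^{K/100}` by `kn_int`,
`h|σ| = K/3200`, `σ² ≤ 1`), Tonelli, `mean_Sc` with `x = 0`, `y₀ = y`, and
`∫ (1+L|y|)^8 k(y) dy ≤ C e^{K/100}`. Fourth: `‖DP T a t‖ ≤ T^{11/10}`, and
`(1+|t|/T)^{202} ≤ (1+|τ|/T)^{202} (1+|t-τ|/W)^{202}` for `W ≤ T`;
`∫ (1+|t-τ|/W)^{202} gw τ W t dt = C W`. `(1+K)^8 e^{K/50} ≤ C e^K`. -/
theorem AB : ∃ C : ℝ, 0 < C ∧ ∀ K : ℝ, 1 ≤ K → ∃ T₀ : ℝ, Real.exp 3200 ≤ T₀ ∧ ∀ T : ℝ, T₀ ≤ T →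
    ∀ Q : ℝ, 1 ≤ Q → ∀ a : ℕ → ℂ, (∀ D : ℕ, T ^ (1 / 10 : ℝ) < D → a D = 0) →
    (∀ D, ‖a D‖ ≤ T) → DiagHyp T K Q a →
    ∀ τ W : ℝ, T ^ (9 / 10 : ℝ) ≤ W → W ≤ T →
    Integrable (fun t : ℝ => ‖riemannZeta (1 / 2 + (K / Real.log T : ℝ) + t * I) * DP T a t‖ ^ 2 *
      gw τ W t) ∧
    ∫ t : ℝ, ‖riemannZeta (1 / 2 + (K / Real.log T : ℝ) + t * I) * DP T a t‖ ^ 2 * gw τ W t
      ≤ C * Real.exp (C * K) * W * Q * (1 + |τ| / T) ^ 300 := by
  obtain ⟨C₁, hC₁, T₁, hT₁, h₁⟩ := mean_Sc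
  obtain ⟨C₂, hC₂, T₂, hT₂, h₂⟩ := mean_Sd
  obtain ⟨C₃, hC₃, h₃⟩ := afe
  obtain ⟨C₄, hC₄, h₄⟩ := AB_kernel
  obtain ⟨M, hM, h₅⟩ := AB_moment
  refine ⟨2 + 4 * 40320 * Real.exp 1 * (C₁ + 16 * C₂ + C₄ ^ 2 * C₁ + C₃ ^ 2 * M),
    by positivity, ?_⟩
  intro K hK
  refine ⟨max (max T₁ T₂) (Real.exp (4 * K)), (hT₁.trans (le_max_left _ _)).trans (le_max_left _ _), ?_⟩
  intro T hT Q hQ a ha0 ha hdiag τ W hW hWT
  have hTT₁ : T₁ ≤ T := ((le_max_left _ _).trans (le_max_left _ _)).trans hT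
  have hTT₂ : T₂ ≤ T := ((le_max_right _ _).trans (le_max_left _ _)).trans hT
  have hTe : Real.exp 3200 ≤ T := hT₁.trans hTT₁
  have hTK : Real.exp (4 * K) ≤ T := (le_max_right _ _).trans hT
  have hT0 : 0 < T := (Real.exp_pos _).trans_le hTe
  have hT1 : 1 ≤ T := by
    have : (1 : ℝ) ≤ Real.exp 3200 := Real.one_le_exp (by norm_num)
    linarith only [hT₁, hTT₁, this]
  have hK0 : 0 < K := by linarith
  have hL1 : 3200 ≤ Real.log T := by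
    rw [Real.le_log_iff_exp_le hT0]; exact hTe
  have hLK : 4 * K ≤ Real.log T := by
    rw [Real.le_log_iff_exp_le hT0]; exact hTK
  have hL0 : 0 < Real.log T := by linarith
  have hx0 : 0 < K / Real.log T := by positivity
  have hx4 : K / Real.log T ≤ 1 / 4 := by
    rw [div_le_iff₀ hL0]; linarith
  have hW0 : 0 < W := lt_of_lt_of_le (by positivity) hW
  have hh0 : 0 < Real.log T / 3200 := by positivity
  obtain ⟨k1, k2, k3, k4⟩ := h₄ (Real.log T) K hL1 hK hx4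
  -- the four pieces
  have iA := h₁ T hTT₁ K Q hK hQ a ha0 ha hdiag (K / Real.log T) 0 τ W hx0.le le_rfl hW
  have iB := h₂ T hTT₂ K Q hK hQ a ha0 ha hdiag (K / Real.log T) 0 τ W hx0.le le_rfl hW
  simp only [abs_zero, mul_zero, add_zero, one_pow, mul_one, Complex.ofReal_zero] at iA iB
  have hm : ∀ y : ℝ, ∫ t : ℝ, ‖Sc (Real.log T / 3200) (11 / 20 * Real.log T)
      (1 / 2 + (t + y) * I) * DP T a t‖ ^ 2 * gw τ W t
      ≤ (C₁ * (1 + K) ^ 8 * W * Q) * (1 + Real.log T * |y|) ^ 8 := by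
    intro y
    have := (h₁ T hTT₁ K Q hK hQ a ha0 ha hdiag 0 y τ W le_rfl hx0.le hW).2
    simp only [Complex.ofReal_zero, add_zero] at this
    exact this
  have hTon := AB_ton (Real.log T / 3200) (11 / 20 * Real.log T) (K / Real.log T) T hh0 hx0 hT1 a ha
    τ W hW0 k1 (C₁ * (1 + K) ^ 8 * W * Q) (Real.log T) k2 hm
  have hMom := h₅ τ W hW0
  -- pointwise inequality
  have hpt : ∀ t : ℝ, ‖riemannZeta (1 / 2 + (K / Real.log T : ℝ) + t * I) * DP T a t‖ ^ 2 * gw τ W t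
      ≤ 4 * (((‖Sc (Real.log T / 3200) (11 / 20 * Real.log T)
          (1 / 2 + (K / Real.log T : ℝ) + t * I) * DP T a t‖ ^ 2 * gw τ W t) +
        16 * (‖Sd (Real.log T / 3200) (11 / 20 * Real.log T)
          (1 / 2 + (K / Real.log T : ℝ) + t * I) * DP T a t‖ ^ 2 * gw τ W t) +
        (∫ y : ℝ, AB_k (Real.log T / 3200) (K / Real.log T) y) *
          ∫ y : ℝ, AB_k (Real.log T / 3200) (K / Real.log T) y *
          (‖Sc (Real.log T / 3200) (11 / 20 * Real.log T) (1 / 2 + (t + y) * I) * DP T a t‖ ^ 2 *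
            gw τ W t)) +
        (C₃ ^ 2 * (1 + |τ| / T) ^ 202) * ((1 + |t - τ| / W) ^ 202 * gw τ W t)) := by
    intro t
    have hg0 := (AB_gw_pos τ W t).le
    have hz := h₃ T hTe (K / Real.log T) t hx0 hx4
    have h3 := AB_third (Real.log T / 3200) (11 / 20 * Real.log T) (K / Real.log T) hh0 hx0 k1 t
      (DP T a t) (gw τ W t) hg0
    have h4 := AB_fourth T hT1 a ha τ W t C₃ hW0 hWT
    simp only [norm_mul] at h3 ⊢
    exact AB_alg _ _ _ _ _ _ _ _ _ hz (norm_nonneg _) (norm_nonneg _) hg0 h3 h4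
  have hR : 1 ≤ (1 + |τ| / T) := by
    have : 0 ≤ |τ| / T := by positivity
    linarith only [this]
  have hv0 : 0 ≤ (1 + |τ| / T) ^ 202 := by positivity
  have hvR : (1 + |τ| / T) ^ 202 ≤ (1 + |τ| / T) ^ 300 := pow_le_pow_right₀ hR (by norm_num)
  have hR1 : 1 ≤ (1 + |τ| / T) ^ 300 := one_le_pow₀ hR
  have hcl : Continuous (fun t : ℝ =>
      ‖riemannZeta (1 / 2 + (K / Real.log T : ℝ) + t * I) * DP T a t‖ ^ 2 * gw τ W t) :=
    ((((AB_zeta_cont (K / Real.log T) hx4).mul (AB_DP_cont T a)).norm).pow 2).mul (AB_gw_cont τ W)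
  generalize (1 + |τ| / T) ^ 202 = v at *
  generalize (1 + |τ| / T) ^ 300 = R at *
  obtain ⟨F4, hF4⟩ : ∃ F4 : ℝ → ℝ, F4 = fun t : ℝ => (1 + |t - τ| / W) ^ 202 * gw τ W t := ⟨_, rfl⟩
  obtain ⟨F3, hF3⟩ : ∃ F3 : ℝ → ℝ, F3 = fun t : ℝ =>
      ∫ y : ℝ, AB_k (Real.log T / 3200) (K / Real.log T) y *
          (‖Sc (Real.log T / 3200) (11 / 20 * Real.log T) (1 / 2 + (t + y) * I) * DP T a t‖ ^ 2 *
            gw τ W t) := ⟨_, rfl⟩
  obtain ⟨F1, hF1⟩ : ∃ F1 : ℝ → ℝ, F1 = fun t : ℝ => ‖Sc (Real.log T / 3200) (11 / 20 * Real.log T)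
          (1 / 2 + (K / Real.log T : ℝ) + t * I) * DP T a t‖ ^ 2 * gw τ W t := ⟨_, rfl⟩
  obtain ⟨F2, hF2⟩ : ∃ F2 : ℝ → ℝ, F2 = fun t : ℝ => ‖Sd (Real.log T / 3200) (11 / 20 * Real.log T)
          (1 / 2 + (K / Real.log T : ℝ) + t * I) * DP T a t‖ ^ 2 * gw τ W t := ⟨_, rfl⟩
  obtain ⟨kI, hkI⟩ : ∃ kI : ℝ, kI = ∫ y : ℝ, AB_k (Real.log T / 3200) (K / Real.log T) y := ⟨_, rfl⟩
  have hkI0 : 0 ≤ kI := by rw [hkI]; exact integral_nonneg (fun y => AB_k_nonneg _ _ _)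
  rw [← hF4] at hMom
  rw [← hF3] at hTon
  rw [← hF1] at iA
  rw [← hF2] at iB
  rw [← hkI] at k3
  have hpt' : ∀ t : ℝ, ‖riemannZeta (1 / 2 + (K / Real.log T : ℝ) + t * I) * DP T a t‖ ^ 2 * gw τ W t
      ≤ 4 * ((F1 t + 16 * F2 t + kI * F3 t) + (C₃ ^ 2 * v) * F4 t) := by
    intro t
    rw [hF1, hF2, hF3, hF4, hkI]
    exact hpt t
  clear hpt
  have i12 : Integrable (fun t : ℝ => F1 t + 16 * F2 t) := iA.1.add (iB.1.const_mul 16)
  have i123 : Integrable (fun t : ℝ => F1 t + 16 * F2 t + kI * F3 t) :=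
    i12.add (hTon.1.const_mul kI)
  have i4 : Integrable (fun t : ℝ => (C₃ ^ 2 * v) * F4 t) := hMom.1.const_mul _
  have iG : Integrable (fun t : ℝ => 4 * ((F1 t + 16 * F2 t + kI * F3 t) + (C₃ ^ 2 * v) * F4 t)) :=
    (i123.add i4).const_mul 4
  have iL : Integrable (fun t : ℝ =>
      ‖riemannZeta (1 / 2 + (K / Real.log T : ℝ) + t * I) * DP T a t‖ ^ 2 * gw τ W t) := by
    refine iG.mono' hcl.aestronglyMeasurable (Filter.Eventually.of_forall fun t => ?_)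
    have hg0 := (AB_gw_pos τ W t).le
    rw [Real.norm_of_nonneg (mul_nonneg (by positivity) hg0)]
    exact hpt' t
  refine ⟨iL, ?_⟩
  refine (integral_mono iL iG hpt').trans ?_
  have eG : ∫ t : ℝ, 4 * ((F1 t + 16 * F2 t + kI * F3 t) + (C₃ ^ 2 * v) * F4 t) =
      4 * (((∫ t, F1 t) + 16 * (∫ t, F2 t) + kI * ∫ t, F3 t) + (C₃ ^ 2 * v) * ∫ t, F4 t) := by
    rw [integral_const_mul, integral_add i123 i4, integral_add i12 (hTon.1.const_mul kI),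
      integral_add iA.1 (iB.1.const_mul 16), integral_const_mul, integral_const_mul,
      integral_const_mul]
  rw [eG]
  refine AB_comb C₁ C₂ C₃ C₄ M K W Q R v _ _ _ _ kI hC₁ hC₂ hC₃ hC₄ hM hK hW0 hQ hR1 hv0 hvR
    iA.2 iB.2 hkI0 k3 ?_ hMom.2
  refine hTon.2.trans ?_
  refine mul_le_mul_of_nonneg_left k4 ?_
  have : 0 < Q := by linarith only [hQ]
  positivity

end Pool.Agent.H14.CO

end

section

/-!
# CO module AR: the coefficients of `M(s+w₁) M(s+w₂)` satisfy `DiagHyp`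
-/

set_option autoImplicit false

namespace Pool.Agent.H14.CO

open Set MeasureTheory Complex

/-- coefficients of `Mo z₀ (s+w₁) * Mo z₀ (s+w₂)` -/
noncomputable def aa (z₀ : ℝ) (w₁ w₂ : ℂ) (D : ℕ) : ℂ :=
  ∑ d ∈ D.divisorsAntidiagonal, (lam z₀ d.1 : ℂ) * (d.1 : ℂ) ^ (-w₁) *
    ((lam z₀ d.2 : ℂ) * (d.2 : ℂ) ^ (-w₂))

private theorem AR_conv (K M : ℕ) (hKM : K * K ≤ M) (P : ℕ → Prop) [DecidablePred P]
    (F₁ F₂ : ℕ → ℂ) (h1 : ∀ d, K < d → F₁ d = 0) (h2 : ∀ d, K < d → F₂ d = 0) :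
    ∑ D ∈ (Finset.Icc 1 M).filter P, ∑ d ∈ D.divisorsAntidiagonal, F₁ d.1 * F₂ d.2
      = ∑ d₁ ∈ Finset.Icc 1 K, ∑ d₂ ∈ Finset.Icc 1 K,
          if P (d₁ * d₂) then F₁ d₁ * F₂ d₂ else 0 := by
  have hD : ∀ D ∈ (Finset.Icc 1 M).filter P,
      ∑ d ∈ D.divisorsAntidiagonal, F₁ d.1 * F₂ d.2
      = ∑ d ∈ Finset.Icc 1 K ×ˢ Finset.Icc 1 K,
          if d.1 * d.2 = D then F₁ d.1 * F₂ d.2 else 0 := by
    intro D hD
    have hD1 := (Finset.mem_Icc.1 (Finset.mem_filter.1 hD).1).1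
    rw [← Finset.sum_filter]
    symm
    apply Finset.sum_subset
    · intro d hd
      simp only [Finset.mem_filter, Finset.mem_product, Finset.mem_Icc] at hd
      rw [Nat.mem_divisorsAntidiagonal]
      exact ⟨hd.2, by omega⟩
    · intro d hd hd'
      rw [Nat.mem_divisorsAntidiagonal] at hd
      by_contra hne
      apply hd'
      have e1 : F₁ d.1 ≠ 0 := fun h => hne (by simp [h])
      have e2 : F₂ d.2 ≠ 0 := fun h => hne (by simp [h])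
      have k1 : d.1 ≤ K := by
        by_contra h
        exact e1 (h1 _ (by omega))
      have k2 : d.2 ≤ K := by
        by_contra h
        exact e2 (h2 _ (by omega))
      have p1 : d.1 ≠ 0 := by
        intro h
        apply hd.2
        rw [← hd.1, h, Nat.zero_mul]
      have p2 : d.2 ≠ 0 := by
        intro h
        apply hd.2
        rw [← hd.1, h, Nat.mul_zero]
      simp only [Finset.mem_filter, Finset.mem_product, Finset.mem_Icc]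
      exact ⟨⟨⟨by omega, k1⟩, ⟨by omega, k2⟩⟩, hd.1⟩
  rw [Finset.sum_congr rfl hD, Finset.sum_comm, Finset.sum_product]
  refine Finset.sum_congr rfl fun d₁ hd₁ => Finset.sum_congr rfl fun d₂ hd₂ => ?_
  rw [Finset.mem_Icc] at hd₁ hd₂
  dsimp only
  rw [Finset.sum_ite_eq]
  have hm : d₁ * d₂ ∈ Finset.Icc 1 M := by
    rw [Finset.mem_Icc]
    exact ⟨Nat.mul_pos hd₁.1 hd₂.1, le_trans (Nat.mul_le_mul hd₁.2 hd₂.2) hKM⟩
  by_cases hP : P (d₁ * d₂)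
  · rw [if_pos hP, if_pos (Finset.mem_filter.2 ⟨hm, hP⟩)]
  · rw [if_neg hP, if_neg (fun h => hP (Finset.mem_filter.1 h).2)]

private theorem AR_aa_cpow (z₀ : ℝ) (w₁ w₂ t : ℂ) (D : ℕ) :
    aa z₀ w₁ w₂ D * (D : ℂ) ^ t = ∑ d ∈ D.divisorsAntidiagonal,
      ((lam z₀ d.1 : ℂ) * (d.1 : ℂ) ^ (-w₁) * (d.1 : ℂ) ^ t) *
      ((lam z₀ d.2 : ℂ) * (d.2 : ℂ) ^ (-w₂) * (d.2 : ℂ) ^ t) := by
  unfold aa
  rw [Finset.sum_mul]
  refine Finset.sum_congr rfl fun d hd => ?_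
  rw [Nat.mem_divisorsAntidiagonal] at hd
  have : (D : ℂ) ^ t = (d.1 : ℂ) ^ t * (d.2 : ℂ) ^ t := by
    rw [← hd.1, Nat.cast_mul, Complex.natCast_mul_natCast_cpow]
  rw [this]
  ring

private theorem AR_lam_zero (z₀ : ℝ) (hz : 1 < z₀) (d : ℕ) (hd : ⌊z₀ ^ 2⌋₊ < d) :
    lam z₀ d = 0 := by
  apply lam_eq_zero z₀ hz
  exact le_of_lt ((Nat.floor_lt (by positivity)).1 hd)

private theorem AR_sq_le (z₀ : ℝ) (M : ℕ) (hM : z₀ ^ 4 ≤ M) :
    ⌊z₀ ^ 2⌋₊ * ⌊z₀ ^ 2⌋₊ ≤ M := by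
  have h := Nat.floor_le (show (0 : ℝ) ≤ z₀ ^ 2 by positivity)
  have h2 : ((⌊z₀ ^ 2⌋₊ * ⌊z₀ ^ 2⌋₊ : ℕ) : ℝ) ≤ M := by
    push_cast
    calc (⌊z₀ ^ 2⌋₊ : ℝ) * ⌊z₀ ^ 2⌋₊ ≤ z₀ ^ 2 * z₀ ^ 2 := by
          apply mul_le_mul h h (by positivity) (by positivity)
      _ = z₀ ^ 4 := by ring
      _ ≤ M := hM
  exact_mod_cast h2

theorem Mo_mul (z₀ : ℝ) (hz : 1 < z₀) (s w₁ w₂ : ℂ) (M : ℕ) (hM : z₀ ^ 4 ≤ M) :
    Mo z₀ (s + w₁) * Mo z₀ (s + w₂) = ∑ D ∈ Finset.Icc 1 M, aa z₀ w₁ w₂ D * (D : ℂ) ^ (-s) := by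
  have h1 : ∑ D ∈ Finset.Icc 1 M, aa z₀ w₁ w₂ D * (D : ℂ) ^ (-s)
      = ∑ D ∈ (Finset.Icc 1 M).filter (fun _ => True), ∑ d ∈ D.divisorsAntidiagonal,
      ((lam z₀ d.1 : ℂ) * (d.1 : ℂ) ^ (-w₁) * (d.1 : ℂ) ^ (-s)) *
      ((lam z₀ d.2 : ℂ) * (d.2 : ℂ) ^ (-w₂) * (d.2 : ℂ) ^ (-s)) := by
    rw [Finset.filter_true_of_mem (fun _ _ => trivial)]
    exact Finset.sum_congr rfl fun D _ => AR_aa_cpow z₀ w₁ w₂ (-s) D
  rw [h1, AR_conv ⌊z₀ ^ 2⌋₊ M (AR_sq_le z₀ M hM) (fun _ => True)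
    (fun d => (lam z₀ d : ℂ) * (d : ℂ) ^ (-w₁) * (d : ℂ) ^ (-s))
    (fun d => (lam z₀ d : ℂ) * (d : ℂ) ^ (-w₂) * (d : ℂ) ^ (-s))
    (fun d hd => by simp [AR_lam_zero z₀ hz d hd])
    (fun d hd => by simp [AR_lam_zero z₀ hz d hd])]
  unfold Mo
  rw [Finset.sum_mul]
  refine Finset.sum_congr rfl fun d₁ hd₁ => ?_
  rw [Finset.mul_sum]
  refine Finset.sum_congr rfl fun d₂ hd₂ => ?_
  rw [Finset.mem_Icc] at hd₁ hd₂
  have n1 : (d₁ : ℂ) ≠ 0 := Nat.cast_ne_zero.2 (by omega)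
  have n2 : (d₂ : ℂ) ≠ 0 := Nat.cast_ne_zero.2 (by omega)
  rw [if_pos trivial, show -(s + w₁) = -w₁ + -s by ring, show -(s + w₂) = -w₂ + -s by ring,
    Complex.cpow_add _ _ n1, Complex.cpow_add _ _ n2]
  ring

/-- the inner sum as a double sum -/
private theorem AR_inner (z₀ : ℝ) (hz : 1 < z₀) (w₁ w₂ v : ℂ) (M f : ℕ) (hM : z₀ ^ 4 ≤ M) :
    ∑ D ∈ (Finset.Icc 1 M).filter (fun D => f ∣ D), aa z₀ w₁ w₂ D * (D : ℂ) ^ (-(1 + v))
    = ∑ d₁ ∈ Finset.Icc 1 ⌊z₀ ^ 2⌋₊, ∑ d₂ ∈ Finset.Icc 1 ⌊z₀ ^ 2⌋₊,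
      if f ∣ d₁ * d₂ then (lam z₀ d₁ : ℂ) * (lam z₀ d₂ : ℂ) * (d₁ : ℂ) ^ (-(1 + (v + w₁))) *
        (d₂ : ℂ) ^ (-(1 + (v + w₂))) else 0 := by
  rw [Finset.sum_congr rfl fun D _ => AR_aa_cpow z₀ w₁ w₂ (-(1 + v)) D,
    AR_conv ⌊z₀ ^ 2⌋₊ M (AR_sq_le z₀ M hM) (fun D => f ∣ D)
    (fun d => (lam z₀ d : ℂ) * (d : ℂ) ^ (-w₁) * (d : ℂ) ^ (-(1 + v)))
    (fun d => (lam z₀ d : ℂ) * (d : ℂ) ^ (-w₂) * (d : ℂ) ^ (-(1 + v)))
    (fun d hd => by simp [AR_lam_zero z₀ hz d hd])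
    (fun d hd => by simp [AR_lam_zero z₀ hz d hd])]
  refine Finset.sum_congr rfl fun d₁ hd₁ => Finset.sum_congr rfl fun d₂ hd₂ => ?_
  rw [Finset.mem_Icc] at hd₁ hd₂
  have n1 : (d₁ : ℂ) ≠ 0 := Nat.cast_ne_zero.2 (by omega)
  have n2 : (d₂ : ℂ) ≠ 0 := Nat.cast_ne_zero.2 (by omega)
  split_ifs with h
  · rw [show -(1 + (v + w₁)) = -w₁ + -(1 + v) by ring,
      show -(1 + (v + w₂)) = -w₂ + -(1 + v) by ring,
      Complex.cpow_add _ _ n1, Complex.cpow_add _ _ n2]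
    ring
  · rfl

private theorem AR_aa_zero (z₀ : ℝ) (hz : 1 < z₀) (w₁ w₂ : ℂ) (M D : ℕ) (hM : z₀ ^ 4 ≤ M)
    (hD : M < D) : aa z₀ w₁ w₂ D = 0 := by
  unfold aa
  refine Finset.sum_eq_zero fun d hd => ?_
  rw [Nat.mem_divisorsAntidiagonal] at hd
  by_cases h1 : ⌊z₀ ^ 2⌋₊ < d.1
  · simp [AR_lam_zero z₀ hz d.1 h1]
  by_cases h2 : ⌊z₀ ^ 2⌋₊ < d.2
  · simp [AR_lam_zero z₀ hz d.2 h2]
  exfalso
  have h3 : d.1 * d.2 ≤ ⌊z₀ ^ 2⌋₊ * ⌊z₀ ^ 2⌋₊ := Nat.mul_le_mul (by omega) (by omega)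
  have h4 := AR_sq_le z₀ M hM
  rw [hd.1] at h3
  omega

/-- the sum in `DiagHyp`, one term -/
private theorem AR_term (z₀ : ℝ) (hz : 1 < z₀) (w₁ w₂ z : ℂ) (M n : ℕ) (hM : z₀ ^ 4 ≤ M)
    (hn : 1 ≤ n) :
    (1 / (n : ℝ)) * ‖∑ D ∈ n.divisors, aa z₀ w₁ w₂ D * ((n / D : ℕ) : ℂ) ^ (-z)‖ ^ 2
    = (n : ℝ) ^ (-(1 + 2 * z.re)) *
      ‖∑ D ∈ n.divisors.filter (fun D => D ≤ M), aa z₀ w₁ w₂ D * (D : ℂ) ^ z‖ ^ 2 := by
  have hn0 : (n : ℝ) ≠ 0 := Nat.cast_ne_zero.2 (by omega)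
  have hnpos : (0 : ℝ) < n := Nat.cast_pos.2 (by omega)
  have e1 : ∑ D ∈ n.divisors, aa z₀ w₁ w₂ D * ((n / D : ℕ) : ℂ) ^ (-z)
      = (n : ℂ) ^ (-z) * ∑ D ∈ n.divisors.filter (fun D => D ≤ M),
        aa z₀ w₁ w₂ D * (D : ℂ) ^ z := by
    rw [Finset.mul_sum, Finset.sum_filter]
    refine Finset.sum_congr rfl fun D hD => ?_
    rw [Nat.mem_divisors] at hD
    split_ifs with h
    · have hD0 : D ≠ 0 := by
        rintro rfl
        exact hD.2 (Nat.eq_zero_of_zero_dvd hD.1)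
      have hDc : (D : ℂ) ≠ 0 := Nat.cast_ne_zero.2 hD0
      have e2 : (n : ℂ) ^ (-z) = (D : ℂ) ^ (-z) * ((n / D : ℕ) : ℂ) ^ (-z) := by
        rw [← Complex.natCast_mul_natCast_cpow, ← Nat.cast_mul, Nat.mul_div_cancel' hD.1]
      have e3 : (D : ℂ) ^ (-z) * (D : ℂ) ^ z = 1 := by
        rw [← Complex.cpow_add _ _ hDc, neg_add_cancel, Complex.cpow_zero]
      rw [e2]
      calc aa z₀ w₁ w₂ D * ((n / D : ℕ) : ℂ) ^ (-z)
          = aa z₀ w₁ w₂ D * ((n / D : ℕ) : ℂ) ^ (-z) * ((D : ℂ) ^ (-z) * (D : ℂ) ^ z) := by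
            rw [e3, mul_one]
        _ = _ := by ring
    · rw [AR_aa_zero z₀ hz w₁ w₂ M D hM (by omega), zero_mul]
  rw [e1, norm_mul, Complex.norm_natCast_cpow_of_pos (by omega), mul_pow, ← mul_assoc]
  congr 1
  rw [← Real.rpow_natCast ((n : ℝ) ^ (-z).re) 2, ← Real.rpow_mul hnpos.le, one_div,
    ← Real.rpow_neg_one, ← Real.rpow_add hnpos]
  congr 1
  simp only [Complex.neg_re, Nat.cast_ofNat]
  ring

/-- PROOF. With `z₀ = T^θ`, `L = log T`; `(n/D)^{-z} = n^{-z} D^z` and `|n^{-z}|² = n^{-2 Re z}`, so the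
sum in `DiagHyp` is `∑ n^{-s} |∑_{D∣n} c_D|²`, `s = 1 + 2 Re z`, `c_D = aa D * D^z`, `gcd_form`:
`≤ (1+L/2) ∑_{f ≤ z₀^4} f^s |∑_{f∣D} aa D D^{z-s}|²`, `z - s = -(1 + conj z)`, and
`∑_{f∣D} aa D D^{-(1+conj z)}` is the sum of `Yf_bound` with `u_i = conj z + w_i`,
`|Re u_i| ≤ (2K+1)/L`, `‖u_i‖ ≤ ‖z‖ + ‖w_i‖`. `f^{s-1} ≤ z₀^{8 Re z} ≤ e^{8θ(K+1)}`, `bf_sum` with
`F = ⌊z₀^4⌋`: `(log F)^4 ≤ 256 (log z₀)^4`. Total
`≤ C e^{CK} L (1+L‖z‖)^8 (1+L‖w₁‖)^4 (1+L‖w₂‖)^4`. -/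
theorem AR (θ : ℝ) (hθ0 : 0 < θ) (hθ1 : θ ≤ 1 / 40) : ∃ C : ℝ, 0 < C ∧ ∃ T₀ : ℝ, 1 < T₀ ∧
    ∀ T : ℝ, T₀ ≤ T → ∀ K : ℝ, 1 ≤ K → ∀ w₁ w₂ : ℂ,
    |w₁.re| ≤ K / Real.log T → |w₂.re| ≤ K / Real.log T →
    DiagHyp T K (C * Real.exp (C * K) * Real.log T * (1 + Real.log T * ‖w₁‖) ^ 4 *
      (1 + Real.log T * ‖w₂‖) ^ 4) (aa (T ^ θ) w₁ w₂) := by
  obtain ⟨C₁, hC₁, hY⟩ := Yf_bound
  obtain ⟨C₂, hC₂, hB⟩ := bf_sum
  refine ⟨1250 * C₁ ^ 2 * C₂ + 2, by positivity, max (Real.exp 1) ((2 : ℝ) ^ (1 / θ)), ?_, ?_⟩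
  · exact lt_of_lt_of_le (by rw [← Real.exp_zero]; exact Real.exp_lt_exp.2 (by norm_num))
      (le_max_left _ _)
  intro T hT K hK w₁ w₂ hw₁ hw₂
  have hTe : Real.exp 1 ≤ T := le_trans (le_max_left _ _) hT
  have hT2 : (2 : ℝ) ^ (1 / θ) ≤ T := le_trans (le_max_right _ _) hT
  have hTpos : 0 < T := lt_of_lt_of_le (Real.exp_pos _) hTe
  have hL1 : 1 ≤ Real.log T := by
    rw [Real.le_log_iff_exp_le hTpos]
    exact hTe
  intro z hzl hzu N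
  set L : ℝ := Real.log T with hL
  have hLpos : 0 < L := by linarith only [hL1]
  have hz2 : 2 ≤ T ^ θ := by
    calc (2 : ℝ) = ((2 : ℝ) ^ (1 / θ)) ^ θ := by
          rw [← Real.rpow_mul (by norm_num), one_div, inv_mul_cancel₀ hθ0.ne', Real.rpow_one]
      _ ≤ T ^ θ := Real.rpow_le_rpow (by positivity) hT2 hθ0.le
  have hlz : Real.log (T ^ θ) = θ * L := by rw [Real.log_rpow hTpos]
  set z₀ : ℝ := T ^ θ with hz₀
  have hz1 : 1 < z₀ := by linarith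
  have hz0 : 0 < z₀ := by linarith
  have hlzpos : 0 < Real.log z₀ := Real.log_pos hz1
  have hlzL : Real.log z₀ ≤ L := by
    rw [hlz]
    nlinarith only [hθ1, hL1]
  set ℓ : ℝ := Real.log z₀ with hℓ
  set M : ℕ := ⌈z₀ ^ 4⌉₊ with hMdef
  have hM4 : z₀ ^ 4 ≤ (M : ℝ) := Nat.le_ceil _
  have hz4 : (1 : ℝ) ≤ z₀ ^ 4 := one_le_pow₀ hz1.le
  have hM5 : (M : ℝ) ≤ z₀ ^ 5 := by
    have h1 : (M : ℝ) < z₀ ^ 4 + 1 := Nat.ceil_lt_add_one (by positivity)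
    have h2 : z₀ ^ 4 * 2 ≤ z₀ ^ 4 * z₀ := mul_le_mul_of_nonneg_left hz2 (by positivity)
    have h3 : z₀ ^ 5 = z₀ ^ 4 * z₀ := by ring
    linarith
  have hM2 : 2 ≤ M := by
    have h1 : (2 : ℝ) ≤ z₀ ^ 4 := by
      calc (2 : ℝ) ≤ z₀ := hz2
        _ = z₀ ^ 1 := (pow_one _).symm
        _ ≤ z₀ ^ 4 := pow_le_pow_right₀ hz1.le (by norm_num)
    exact_mod_cast le_trans h1 hM4
  have hzre : 0 < z.re := lt_of_lt_of_le (by positivity) hzl
  have hs : 1 < 1 + 2 * z.re := by linarith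
  have hKL : 0 ≤ K / L := by positivity
  -- the exponential factors
  have hx1 : z.re * L ≤ K + 1 := by
    rw [le_div_iff₀ hLpos] at hzu
    exact hzu
  have hu : ∀ w : ℂ, |w.re| ≤ K / L → |((starRingEnd ℂ) z + w).re| * L ≤ 2 * K + 1 := by
    intro w hw
    have h1 : |((starRingEnd ℂ) z + w).re| ≤ |z.re| + |w.re| := by
      rw [Complex.add_re, Complex.conj_re]
      exact abs_add_le _ _
    rw [abs_of_pos hzre] at h1
    have h2 : |w.re| * L ≤ K := by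
      rw [le_div_iff₀ hLpos] at hw
      exact hw
    nlinarith only [hL1, hx1, h1, h2]
  have hn : ∀ w : ℂ, 1 + ‖(starRingEnd ℂ) z + w‖ * ℓ ≤ (1 + L * ‖z‖) * (1 + L * ‖w‖) := by
    intro w
    have h1 : ‖(starRingEnd ℂ) z + w‖ ≤ ‖z‖ + ‖w‖ := by
      refine (norm_add_le _ _).trans_eq ?_
      rw [Complex.norm_conj]
    have h2 : ‖(starRingEnd ℂ) z + w‖ * ℓ ≤ (‖z‖ + ‖w‖) * L :=
      mul_le_mul h1 hlzL hlzpos.le (by positivity)
    have h3 : 0 ≤ L * ‖z‖ * (L * ‖w‖) := by positivity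
    nlinarith only [h2, h3]
  have hE : z₀ ^ (2 * |((starRingEnd ℂ) z + w₁).re| + 2 * |((starRingEnd ℂ) z + w₂).re|)
      ≤ Real.exp (θ * (8 * K + 4)) := by
    rw [Real.rpow_def_of_pos hz0, Real.exp_le_exp]
    change ℓ * _ ≤ _
    rw [hlz]
    have h1 := hu w₁ hw₁
    have h2 := hu w₂ hw₂
    have h3 : L * (2 * |((starRingEnd ℂ) z + w₁).re| + 2 * |((starRingEnd ℂ) z + w₂).re|)
        ≤ 8 * K + 4 := by nlinarith only [h1, h2]
    calc θ * L * (2 * |((starRingEnd ℂ) z + w₁).re| + 2 * |((starRingEnd ℂ) z + w₂).re|)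
        = θ * (L * (2 * |((starRingEnd ℂ) z + w₁).re| + 2 * |((starRingEnd ℂ) z + w₂).re|)) := by
          ring
      _ ≤ θ * (8 * K + 4) := mul_le_mul_of_nonneg_left h3 hθ0.le
  -- the polynomial factors
  set P : ℝ := (1 + L * ‖z‖) ^ 4 * ((1 + L * ‖w₁‖) ^ 2 * (1 + L * ‖w₂‖) ^ 2) with hP
  have hP0 : 0 ≤ P := by positivity
  have hPle : (1 + ‖(starRingEnd ℂ) z + w₁‖ * ℓ) ^ 2 * (1 + ‖(starRingEnd ℂ) z + w₂‖ * ℓ) ^ 2
      ≤ P := by
    calc (1 + ‖(starRingEnd ℂ) z + w₁‖ * ℓ) ^ 2 * (1 + ‖(starRingEnd ℂ) z + w₂‖ * ℓ) ^ 2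
        ≤ ((1 + L * ‖z‖) * (1 + L * ‖w₁‖)) ^ 2 * ((1 + L * ‖z‖) * (1 + L * ‖w₂‖)) ^ 2 := by
          apply mul_le_mul
          · exact pow_le_pow_left₀ (by positivity) (hn w₁) 2
          · exact pow_le_pow_left₀ (by positivity) (hn w₂) 2
          · positivity
          · positivity
      _ = P := by rw [hP]; ring
  have hbf0 : ∀ f : ℕ, 0 ≤ bf f := by
    intro f
    unfold bf
    refine Finset.sum_nonneg fun g₁ _ => Finset.sum_nonneg fun g₂ _ => ?_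
    split_ifs
    · positivity
    · exact le_refl _
  -- the inner sums
  have hin : ∀ f ∈ Finset.Icc 1 M,
      ‖∑ D ∈ (Finset.Icc 1 M).filter (fun D => f ∣ D),
        (aa z₀ w₁ w₂ D * (D : ℂ) ^ z) * (D : ℂ) ^ (-((1 + 2 * z.re : ℝ) : ℂ))‖
      ≤ C₁ / ℓ ^ 2 * (sg f ^ 2 * bf f) * Real.exp (θ * (8 * K + 4)) * P := by
    intro f hf
    have hf0 : f ≠ 0 := by
      have := (Finset.mem_Icc.1 hf).1
      omega
    have e1 : ∑ D ∈ (Finset.Icc 1 M).filter (fun D => f ∣ D),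
        (aa z₀ w₁ w₂ D * (D : ℂ) ^ z) * (D : ℂ) ^ (-((1 + 2 * z.re : ℝ) : ℂ))
        = ∑ D ∈ (Finset.Icc 1 M).filter (fun D => f ∣ D),
          aa z₀ w₁ w₂ D * (D : ℂ) ^ (-(1 + (starRingEnd ℂ) z)) := by
      refine Finset.sum_congr rfl fun D hD => ?_
      have hD1 := (Finset.mem_Icc.1 (Finset.mem_filter.1 hD).1).1
      have hDc : (D : ℂ) ≠ 0 := Nat.cast_ne_zero.2 (by omega)
      rw [mul_assoc, ← Complex.cpow_add _ _ hDc]
      congr 2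
      apply Complex.ext
      · simp
        ring
      · simp
    rw [e1, AR_inner z₀ hz1 w₁ w₂ _ M f hM4]
    refine (hY z₀ hz2 f hf0 _ _).trans ?_
    have q1 : 0 ≤ sg f ^ 2 * bf f := mul_nonneg (sq_nonneg _) (hbf0 f)
    calc C₁ / ℓ ^ 2 * sg f ^ 2 * bf f *
          z₀ ^ (2 * |((starRingEnd ℂ) z + w₁).re| + 2 * |((starRingEnd ℂ) z + w₂).re|) *
          ((1 + ‖(starRingEnd ℂ) z + w₁‖ * ℓ) ^ 2 * (1 + ‖(starRingEnd ℂ) z + w₂‖ * ℓ) ^ 2)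
        = (C₁ / ℓ ^ 2 * (sg f ^ 2 * bf f)) *
          z₀ ^ (2 * |((starRingEnd ℂ) z + w₁).re| + 2 * |((starRingEnd ℂ) z + w₂).re|) *
          ((1 + ‖(starRingEnd ℂ) z + w₁‖ * ℓ) ^ 2 * (1 + ‖(starRingEnd ℂ) z + w₂‖ * ℓ) ^ 2) := by
          ring
      _ ≤ (C₁ / ℓ ^ 2 * (sg f ^ 2 * bf f)) * Real.exp (θ * (8 * K + 4)) * P := by
          apply mul_le_mul _ hPle (by positivity)
            (mul_nonneg (mul_nonneg (by positivity) q1) (Real.exp_pos _).le)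
          exact mul_le_mul_of_nonneg_left hE (mul_nonneg (by positivity) q1)
  -- the weights
  have hwt : ∀ f ∈ Finset.Icc 1 M, (f : ℝ) ^ (1 + 2 * z.re)
      ≤ (f : ℝ) * Real.exp (θ * (10 * (K + 1))) := by
    intro f hf
    have hf1 := Finset.mem_Icc.1 hf
    have hfpos : (0 : ℝ) < f := Nat.cast_pos.2 (by omega)
    rw [Real.rpow_add hfpos, Real.rpow_one]
    apply mul_le_mul_of_nonneg_left _ hfpos.le
    rw [Real.rpow_def_of_pos hfpos, Real.exp_le_exp]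
    have h1 : Real.log f ≤ 5 * (θ * L) := by
      rw [← hlz, hℓ]
      calc Real.log f ≤ Real.log (z₀ ^ 5) := by
            apply Real.log_le_log hfpos
            refine le_trans ?_ hM5
            exact_mod_cast hf1.2
        _ = 5 * Real.log z₀ := by
            rw [Real.log_pow]
            norm_num
    have h2 : 0 ≤ 2 * z.re := by linarith only [hzre]
    calc Real.log f * (2 * z.re) ≤ 5 * (θ * L) * (2 * z.re) :=
          mul_le_mul_of_nonneg_right h1 h2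
      _ = θ * (10 * (z.re * L)) := by ring
      _ ≤ θ * (10 * (K + 1)) := by
          apply mul_le_mul_of_nonneg_left _ hθ0.le
          linarith
  have hlogM : Real.log M ≤ 5 * ℓ := by
    rw [hℓ]
    calc Real.log M ≤ Real.log (z₀ ^ 5) := by
          apply Real.log_le_log (by positivity) hM5
      _ = 5 * Real.log z₀ := by
          rw [Real.log_pow]
          norm_num
  have hlogM0 : 0 ≤ Real.log M := Real.log_natCast_nonneg M
  have hpre : 1 + 1 / ((1 + 2 * z.re) - 1) ≤ 2 * L := by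
    have h1 : 1 / ((1 + 2 * z.re) - 1) ≤ L / 2 := by
      rw [show (1 + 2 * z.re) - 1 = 2 * z.re by ring, div_le_iff₀ (by linarith)]
      rw [div_le_iff₀ hLpos] at hzl
      nlinarith only [hzl]
    linarith only [hL1, h1]
  set A : ℝ := C₁ / ℓ ^ 2 * Real.exp (θ * (8 * K + 4)) * P with hA
  have hA0 : 0 ≤ A := by positivity
  calc ∑ n ∈ Finset.Icc 1 N, (1 / (n : ℝ)) *
        ‖∑ D ∈ n.divisors, aa z₀ w₁ w₂ D * ((n / D : ℕ) : ℂ) ^ (-z)‖ ^ 2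
      = ∑ n ∈ Finset.Icc 1 N, (n : ℝ) ^ (-(1 + 2 * z.re)) *
        ‖∑ D ∈ n.divisors.filter (fun D => D ≤ M), aa z₀ w₁ w₂ D * (D : ℂ) ^ z‖ ^ 2 := by
        refine Finset.sum_congr rfl fun n hn' => ?_
        exact AR_term z₀ hz1 w₁ w₂ z M n hM4 (Finset.mem_Icc.1 hn').1
    _ ≤ (1 + 1 / ((1 + 2 * z.re) - 1)) * ∑ f ∈ Finset.Icc 1 M, (f : ℝ) ^ (1 + 2 * z.re) *
        ‖∑ D ∈ (Finset.Icc 1 M).filter (fun D => f ∣ D),
          (aa z₀ w₁ w₂ D * (D : ℂ) ^ z) * (D : ℂ) ^ (-((1 + 2 * z.re : ℝ) : ℂ))‖ ^ 2 :=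
        gcd_form (1 + 2 * z.re) hs M N (fun D => aa z₀ w₁ w₂ D * (D : ℂ) ^ z)
    _ ≤ (2 * L) * ∑ f ∈ Finset.Icc 1 M, (Real.exp (θ * (10 * (K + 1))) * A ^ 2) *
        ((f : ℝ) * (sg f ^ 2 * bf f) ^ 2) := by
        apply mul_le_mul hpre _ (Finset.sum_nonneg fun f _ => by positivity) (by positivity)
        refine Finset.sum_le_sum fun f hf => ?_
        calc (f : ℝ) ^ (1 + 2 * z.re) *
            ‖∑ D ∈ (Finset.Icc 1 M).filter (fun D => f ∣ D),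
              (aa z₀ w₁ w₂ D * (D : ℂ) ^ z) * (D : ℂ) ^ (-((1 + 2 * z.re : ℝ) : ℂ))‖ ^ 2
            ≤ ((f : ℝ) * Real.exp (θ * (10 * (K + 1)))) *
              (C₁ / ℓ ^ 2 * (sg f ^ 2 * bf f) * Real.exp (θ * (8 * K + 4)) * P) ^ 2 := by
              apply mul_le_mul (hwt f hf) _ (by positivity) (by positivity)
              exact pow_le_pow_left₀ (norm_nonneg _) (hin f hf) 2
          _ = (Real.exp (θ * (10 * (K + 1))) * A ^ 2) * ((f : ℝ) * (sg f ^ 2 * bf f) ^ 2) := by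
              rw [hA]
              ring
    _ = (2 * L) * ((Real.exp (θ * (10 * (K + 1))) * A ^ 2) *
          ∑ f ∈ Finset.Icc 1 M, ((f : ℝ) * (sg f ^ 2 * bf f) ^ 2)) := by
        rw [← Finset.mul_sum]
    _ ≤ (2 * L) * ((Real.exp (θ * (10 * (K + 1))) * A ^ 2) * (C₂ * (5 * ℓ) ^ 4)) := by
        apply mul_le_mul_of_nonneg_left _ (by positivity)
        apply mul_le_mul_of_nonneg_left _ (by positivity)
        refine (hB M hM2).trans ?_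
        apply mul_le_mul_of_nonneg_left _ hC₂.le
        exact pow_le_pow_left₀ hlogM0 hlogM 4
    _ = (1250 * C₁ ^ 2 * C₂) * (Real.exp (θ * (10 * (K + 1))) *
          (Real.exp (θ * (8 * K + 4))) ^ 2) * L * P ^ 2 := by
        rw [hA]
        field_simp
        ring
    _ ≤ (1250 * C₁ ^ 2 * C₂ + 2) * Real.exp ((1250 * C₁ ^ 2 * C₂ + 2) * K) * L * P ^ 2 := by
        apply mul_le_mul_of_nonneg_right _ (by positivity)
        apply mul_le_mul_of_nonneg_right _ hLpos.le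
        apply mul_le_mul (by linarith) _ (by positivity) (by positivity)
        rw [← Real.exp_nat_mul, ← Real.exp_add, Real.exp_le_exp]
        have h1 : 0 ≤ (1250 * C₁ ^ 2 * C₂) * K := by positivity
        have h2 : θ * (26 * K + 18) ≤ 1 / 40 * (26 * K + 18) :=
          mul_le_mul_of_nonneg_right hθ1 (by linarith only [hK])
        push_cast
        nlinarith only [hK, h1, h2]
    _ = (1250 * C₁ ^ 2 * C₂ + 2) * Real.exp ((1250 * C₁ ^ 2 * C₂ + 2) * K) * L *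
          (1 + L * ‖w₁‖) ^ 4 * (1 + L * ‖w₂‖) ^ 4 * (1 + L * ‖z‖) ^ 8 := by
        rw [hP]
        ring

end Pool.Agent.H14.CO

end

section

/-!
# CO module CB: mean square of `ζ M M` to the right of the critical line
-/

set_option autoImplicit false

namespace Pool.Agent.H14.CO

open Set MeasureTheory Complex

private theorem CB_pow (θ T : ℝ) (hθ1 : θ ≤ 1 / 40) (hT : 1 < T) :
    (T ^ θ) ^ 4 ≤ T ^ (1 / 10 : ℝ) := by
  rw [← Real.rpow_natCast, ← Real.rpow_mul (by linarith)]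
  exact Real.rpow_le_rpow_of_exponent_le hT.le (by push_cast; linarith)

private theorem CB_supp (θ T : ℝ) (hθ0 : 0 < θ) (hθ1 : θ ≤ 1 / 40) (hT : 1 < T) (w₁ w₂ : ℂ) (D : ℕ)
    (hD : T ^ (1 / 10 : ℝ) < D) : aa (T ^ θ) w₁ w₂ D = 0 := by
  have hz : 1 < T ^ θ := Real.one_lt_rpow hT hθ0
  refine Finset.sum_eq_zero fun d hd => ?_
  rw [Nat.mem_divisorsAntidiagonal] at hd
  have h4 := CB_pow θ T hθ1 hT
  rcases le_or_gt ((T ^ θ) ^ 2) d.1 with h | h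
  · rw [lam_eq_zero _ hz _ h]; simp
  · have h2 : (T ^ θ) ^ 2 ≤ d.2 := by
      by_contra h3
      rw [not_le] at h3
      have h5 : (D : ℝ) = d.1 * d.2 := by exact_mod_cast hd.1.symm
      have h6 : (d.1 : ℝ) * d.2 ≤ (T ^ θ) ^ 2 * (T ^ θ) ^ 2 := by gcongr
      have h7 : (T ^ θ) ^ 2 * (T ^ θ) ^ 2 = (T ^ θ) ^ 4 := by ring
      linarith
    rw [lam_eq_zero _ hz _ h2]; simp

private theorem CB_cpow (L K : ℝ) (hK : 0 ≤ K / L) (w : ℂ) (hw : |w.re| ≤ K / L) (d : ℕ) (hd : 1 ≤ d) :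
    ‖(d : ℂ) ^ (-w)‖ ≤ (d : ℝ) ^ (K / L) := by
  have hd0 : (0 : ℝ) < d := by exact_mod_cast hd
  have hd1 : (1 : ℝ) ≤ d := by exact_mod_cast hd
  have h1 : ((d : ℝ) : ℂ) = (d : ℂ) := by push_cast; rfl
  rw [← h1, Complex.norm_cpow_eq_rpow_re_of_pos hd0]
  refine Real.rpow_le_rpow_of_exponent_le hd1 ?_
  rw [Complex.neg_re]
  exact (neg_le_abs _).trans hw

private theorem CB_bound (θ T K : ℝ) (hθ0 : 0 < θ) (hθ1 : θ ≤ 1 / 40) (hT : 1 < T) (hK : 0 ≤ K)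
    (hTK : Real.exp K ≤ T) (w₁ w₂ : ℂ) (hw₁ : |w₁.re| ≤ K / Real.log T) (hw₂ : |w₂.re| ≤ K / Real.log T)
    (D : ℕ) : ‖aa (T ^ θ) w₁ w₂ D‖ ≤ T := by
  rcases lt_or_ge (T ^ (1 / 10 : ℝ)) D with hD | hD
  · rw [CB_supp θ T hθ0 hθ1 hT w₁ w₂ D hD, norm_zero]
    linarith
  have hz : 1 < T ^ θ := Real.one_lt_rpow hT hθ0
  have hL : 0 < Real.log T := Real.log_pos hT
  have hKL : 0 ≤ K / Real.log T := by positivity
  rcases Nat.eq_zero_or_pos D with h0 | h0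
  · subst h0
    unfold aa
    simp
    linarith
  have hD1 : (1 : ℝ) ≤ D := by exact_mod_cast h0
  have hterm : ∀ d ∈ D.divisorsAntidiagonal, ‖(lam (T ^ θ) d.1 : ℂ) * (d.1 : ℂ) ^ (-w₁) *
      ((lam (T ^ θ) d.2 : ℂ) * (d.2 : ℂ) ^ (-w₂))‖ ≤ (D : ℝ) ^ (K / Real.log T) := by
    intro d hd
    rw [Nat.mem_divisorsAntidiagonal] at hd
    have h1 : 1 ≤ d.1 := by
      rcases Nat.eq_zero_or_pos d.1 with h | h
      · rw [h, zero_mul] at hd; omega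
      · exact h
    have h2 : 1 ≤ d.2 := by
      rcases Nat.eq_zero_or_pos d.2 with h | h
      · rw [h, mul_zero] at hd; omega
      · exact h
    have h3 := CB_cpow _ _ hKL w₁ hw₁ d.1 h1
    have h4 := CB_cpow _ _ hKL w₂ hw₂ d.2 h2
    have h5 : ‖(lam (T ^ θ) d.1 : ℂ)‖ ≤ 1 := by
      rw [Complex.norm_real]; exact abs_lam_le _ hz _
    have h6 : ‖(lam (T ^ θ) d.2 : ℂ)‖ ≤ 1 := by
      rw [Complex.norm_real]; exact abs_lam_le _ hz _
    rw [norm_mul, norm_mul, norm_mul]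
    calc ‖(lam (T ^ θ) d.1 : ℂ)‖ * ‖(d.1 : ℂ) ^ (-w₁)‖ * (‖(lam (T ^ θ) d.2 : ℂ)‖ * ‖(d.2 : ℂ) ^ (-w₂)‖)
        ≤ 1 * (d.1 : ℝ) ^ (K / Real.log T) * (1 * (d.2 : ℝ) ^ (K / Real.log T)) := by gcongr
      _ = ((d.1 : ℝ) * d.2) ^ (K / Real.log T) := by
          rw [Real.mul_rpow (Nat.cast_nonneg _) (Nat.cast_nonneg _)]; ring
      _ = (D : ℝ) ^ (K / Real.log T) := by
          congr 1
          exact_mod_cast hd.1
  have hcard : (D.divisorsAntidiagonal.card : ℝ) ≤ D := by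
    have : D.divisorsAntidiagonal.card = D.divisors.card := by
      rw [← Nat.map_div_right_divisors, Finset.card_map]
    rw [this]
    exact_mod_cast Nat.card_divisors_le_self D
  have hT0 : 0 < T := by linarith
  have hpow : (D : ℝ) ^ (K / Real.log T) ≤ Real.exp (K / 10) := by
    calc (D : ℝ) ^ (K / Real.log T) ≤ (T ^ (1 / 10 : ℝ)) ^ (K / Real.log T) := by gcongr
      _ = Real.exp (K / 10) := by
          rw [← Real.rpow_mul hT0.le, Real.rpow_def_of_pos hT0]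
          congr 1
          field_simp
  calc ‖aa (T ^ θ) w₁ w₂ D‖ ≤ ∑ d ∈ D.divisorsAntidiagonal, (D : ℝ) ^ (K / Real.log T) :=
        (norm_sum_le _ _).trans (Finset.sum_le_sum hterm)
    _ = (D.divisorsAntidiagonal.card : ℝ) * (D : ℝ) ^ (K / Real.log T) := by
        rw [Finset.sum_const, nsmul_eq_mul]
    _ ≤ T ^ (1 / 10 : ℝ) * Real.exp (K / 10) := by
        have := hcard.trans hD
        gcongr
    _ ≤ T ^ (1 / 10 : ℝ) * T ^ (9 / 10 : ℝ) := by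
        have h1 : Real.exp (K / 10) ≤ Real.exp (K * (9 / 10)) := Real.exp_le_exp.2 (by linarith)
        have h2 : Real.exp (K * (9 / 10)) = (Real.exp K) ^ (9 / 10 : ℝ) := by rw [Real.exp_mul]
        have h3 : (Real.exp K) ^ (9 / 10 : ℝ) ≤ T ^ (9 / 10 : ℝ) := by gcongr
        rw [h2] at h1
        have h4 := h1.trans h3
        gcongr
    _ = T := by
        rw [← Real.rpow_add hT0]
        norm_num

private theorem CB_DP (θ T : ℝ) (hθ0 : 0 < θ) (hθ1 : θ ≤ 1 / 40) (hT : 1 < T) (w₁ w₂ : ℂ) (t : ℝ) :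
    DP T (aa (T ^ θ) w₁ w₂) t = Mo (T ^ θ) (pt w₁ t) * Mo (T ^ θ) (pt w₂ t) := by
  have hz : 1 < T ^ θ := Real.one_lt_rpow hT hθ0
  have hfl : T ^ (1 / 10 : ℝ) < ((⌊T ^ (1 / 10 : ℝ)⌋₊ + 1 : ℕ) : ℝ) := by
    push_cast
    exact Nat.lt_floor_add_one _
  have h1 := Mo_mul (T ^ θ) hz (1 / 2 + t * I) w₁ w₂ (⌊T ^ (1 / 10 : ℝ)⌋₊ + 1)
    ((CB_pow θ T hθ1 hT).trans hfl.le)
  have h2 : pt w₁ t = 1 / 2 + t * I + w₁ := by unfold pt; ring
  have h3 : pt w₂ t = 1 / 2 + t * I + w₂ := by unfold pt; ring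
  rw [h2, h3, h1, Finset.sum_Icc_succ_top (by omega), CB_supp θ T hθ0 hθ1 hT w₁ w₂ _ hfl, zero_mul, add_zero,
    DP]

private theorem CB_mono {T K Q Q' : ℝ} {a : ℕ → ℂ} (hT : 1 < T) (hQ : Q ≤ Q') (h : DiagHyp T K Q a) :
    DiagHyp T K Q' a := by
  intro z h1 h2 N
  have hL : 0 < Real.log T := Real.log_pos hT
  refine (h z h1 h2 N).trans ?_
  gcongr

/-- PROOF. `AB` for `a = aa (T^θ) w₁ w₂` (`DP T a t = Mo (pt w₁ t) Mo (pt w₂ t)` by `Mo_mul`,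
`z₀^4 = T^{4θ} ≤ T^{1/10}`, `‖aa D‖ ≤ τ(D) D^{2K/L}`-type crude bound `≤ T` for `T ≥ T₀(K)`,
support from `lam_eq_zero`) and `AR`. -/
theorem CB (θ : ℝ) (hθ0 : 0 < θ) (hθ1 : θ ≤ 1 / 40) : ∃ C : ℝ, 0 < C ∧ ∀ K : ℝ, 1 ≤ K →
    ∃ T₀ : ℝ, Real.exp 3200 ≤ T₀ ∧ ∀ T : ℝ, T₀ ≤ T → ∀ τ W : ℝ, T ^ (9 / 10 : ℝ) ≤ W → W ≤ T →
    ∀ w₁ w₂ : ℂ, |w₁.re| ≤ K / Real.log T → |w₂.re| ≤ K / Real.log T →
    Integrable (fun t : ℝ => ‖riemannZeta (pt (K / Real.log T : ℝ) t) *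
      (Mo (T ^ θ) (pt w₁ t) * Mo (T ^ θ) (pt w₂ t))‖ ^ 2 * gw τ W t) ∧
    ∫ t : ℝ, ‖riemannZeta (pt (K / Real.log T : ℝ) t) *
      (Mo (T ^ θ) (pt w₁ t) * Mo (T ^ θ) (pt w₂ t))‖ ^ 2 * gw τ W t
      ≤ C * Real.exp (C * K) * W * Real.log T * ((1 + Real.log T * ‖w₁‖) ^ 4 *
        (1 + Real.log T * ‖w₂‖) ^ 4) * (1 + |τ| / T) ^ 300 := by
  obtain ⟨C₁, hC₁, hAB⟩ := AB
  obtain ⟨C₂, hC₂, T₂, hT₂, hAR⟩ := AR θ hθ0 hθ1
  set C₃ := max C₂ 1 with hC₃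
  have hC₃1 : 1 ≤ C₃ := le_max_right _ _
  have hC₂₃ : C₂ ≤ C₃ := le_max_left _ _
  refine ⟨C₁ * C₃ + C₁ + C₃, by positivity, fun K hK => ?_⟩
  have h7 : C₁ * K + C₃ * K ≤ (C₁ * C₃ + C₁ + C₃) * K := by
    have h0 : 0 ≤ C₁ * C₃ * K := by positivity
    calc C₁ * K + C₃ * K ≤ C₁ * K + C₃ * K + C₁ * C₃ * K := le_add_of_nonneg_right h0
      _ = (C₁ * C₃ + C₁ + C₃) * K := by ring
  obtain ⟨T₁, hT₁, hAB⟩ := hAB K hK
  refine ⟨max T₁ (max T₂ (Real.exp K)), hT₁.trans (le_max_left _ _), fun T hT τ W hW1 hW2 w₁ w₂ hw₁ hw₂ => ?_⟩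
  have hTT₁ : T₁ ≤ T := (le_max_left _ _).trans hT
  have hTT₂ : T₂ ≤ T := ((le_max_left _ _).trans (le_max_right _ _)).trans hT
  have hTK : Real.exp K ≤ T := ((le_max_right _ _).trans (le_max_right _ _)).trans hT
  have hT1 : 1 < T := lt_of_lt_of_le hT₂ hTT₂
  have hT0 : 0 < T := by linarith
  have hL3200 : 3200 ≤ Real.log T := by
    rw [Real.le_log_iff_exp_le hT0]
    exact hT₁.trans hTT₁
  have hL0 : 0 < Real.log T := by linarith
  have hW0 : 0 < W := lt_of_lt_of_le (by positivity) hW1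
  set Q := C₃ * Real.exp (C₃ * K) * Real.log T * (1 + Real.log T * ‖w₁‖) ^ 4 *
      (1 + Real.log T * ‖w₂‖) ^ 4 with hQ
  have h1 : DiagHyp T K Q (aa (T ^ θ) w₁ w₂) := by
    refine CB_mono hT1 ?_ (hAR T hTT₂ K hK w₁ w₂ hw₁ hw₂)
    rw [hQ]
    have : C₂ * K ≤ C₃ * K := by gcongr
    have := Real.exp_le_exp.2 this
    gcongr
  have hQ1 : 1 ≤ Q := by
    have h2 : 1 ≤ Real.exp (C₃ * K) := Real.one_le_exp (by positivity)
    have h3 : 1 ≤ (1 + Real.log T * ‖w₁‖) ^ 4 := one_le_pow₀ (by linarith [mul_nonneg hL0.le (norm_nonneg w₁)])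
    have h4 : 1 ≤ (1 + Real.log T * ‖w₂‖) ^ 4 := one_le_pow₀ (by linarith [mul_nonneg hL0.le (norm_nonneg w₂)])
    rw [hQ]
    refine one_le_mul_of_one_le_of_one_le (one_le_mul_of_one_le_of_one_le (one_le_mul_of_one_le_of_one_le
      (one_le_mul_of_one_le_of_one_le hC₃1 h2) (by linarith)) h3) h4
  have h5 := hAB T hTT₁ Q hQ1 (aa (T ^ θ) w₁ w₂) (CB_supp θ T hθ0 hθ1 hT1 w₁ w₂)
    (CB_bound θ T K hθ0 hθ1 hT1 (by linarith) hTK w₁ w₂ hw₁ hw₂) h1 τ W hW1 hW2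
  simp only [CB_DP θ T hθ0 hθ1 hT1 w₁ w₂] at h5
  refine ⟨h5.1, h5.2.trans ?_⟩
  have hPτ : (0 : ℝ) ≤ (1 + |τ| / T) ^ 300 := by positivity
  refine mul_le_mul_of_nonneg_right ?_ hPτ
  have h6 : C₁ * Real.exp (C₁ * K) * W * Q = (C₁ * C₃) * (Real.exp (C₁ * K) * Real.exp (C₃ * K)) * W * Real.log T *
      ((1 + Real.log T * ‖w₁‖) ^ 4 * (1 + Real.log T * ‖w₂‖) ^ 4) := by
    rw [hQ]; ring
  rw [h6, ← Real.exp_add]
  have h8 := Real.exp_le_exp.2 h7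
  have h9 : C₁ * C₃ ≤ C₁ * C₃ + C₁ + C₃ := by linarith
  gcongr

end Pool.Agent.H14.CO

end

section

/-!
# CO module CBL: mean square of `ζ M M` to the left of the critical line
-/

set_option autoImplicit false

namespace Pool.Agent.H14.CO

open Set MeasureTheory Complex

private theorem CBL_re_pt (w : ℂ) (t : ℝ) : (pt w t).re = 1 / 2 + w.re := by
  unfold pt
  simp

private theorem CBL_continuous_pt (w : ℂ) : Continuous (fun t : ℝ => pt w t) := by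
  unfold pt
  fun_prop

private theorem CBL_continuous_Mo_pt (z : ℝ) (w : ℂ) : Continuous (fun t : ℝ => Mo z (pt w t)) :=
  (continuous_Mo z).comp (CBL_continuous_pt w)

private theorem CBL_continuous_zeta (x : ℝ) (hx : |x| ≤ 1 / 4) :
    Continuous (fun t : ℝ => riemannZeta (pt (x : ℂ) t)) := by
  rw [continuous_iff_continuousAt]
  intro t
  have hne : pt (x : ℂ) t ≠ 1 := by
    intro h
    have h1 := congrArg Complex.re h
    rw [CBL_re_pt] at h1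
    simp at h1
    have := abs_le.mp hx
    linarith
  exact ContinuousAt.comp (f := fun t : ℝ => pt (x : ℂ) t) (g := riemannZeta)
    (differentiableAt_riemannZeta hne).continuousAt (CBL_continuous_pt _).continuousAt

private theorem CBL_zeta_small : ∃ C : ℝ, 0 < C ∧ ∀ x t : ℝ, |x| ≤ 1 / 4 → |t| ≤ 1 →
    ‖riemannZeta (pt (x : ℂ) t)‖ ≤ C := by
  have hK : IsCompact ((Icc (-(1 / 4) : ℝ) (1 / 4)) ×ˢ (Icc (-1 : ℝ) 1)) :=
    isCompact_Icc.prod isCompact_Icc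
  have hc : ContinuousOn (fun p : ℝ × ℝ => riemannZeta (pt (p.1 : ℂ) p.2))
      ((Icc (-(1 / 4) : ℝ) (1 / 4)) ×ˢ (Icc (-1 : ℝ) 1)) := by
    intro p hp
    have hp1 := hp.1
    rw [mem_Icc] at hp1
    have hne : pt (p.1 : ℂ) p.2 ≠ 1 := by
      intro h
      have h1 := congrArg Complex.re h
      rw [CBL_re_pt] at h1
      simp at h1
      linarith
    apply ContinuousAt.continuousWithinAt
    have hcont : Continuous (fun p : ℝ × ℝ => pt (p.1 : ℂ) p.2) := by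
      unfold pt
      fun_prop
    exact ContinuousAt.comp (f := fun p : ℝ × ℝ => pt (p.1 : ℂ) p.2) (g := riemannZeta)
      (differentiableAt_riemannZeta hne).continuousAt hcont.continuousAt
  obtain ⟨C, hC⟩ := hK.exists_bound_of_continuousOn hc
  refine ⟨max C 1, lt_max_of_lt_right one_pos, ?_⟩
  intro x t hx ht
  have h := hC (x, t) ⟨by rw [mem_Icc]; exact abs_le.mp hx, by rw [mem_Icc]; exact abs_le.mp ht⟩
  exact h.trans (le_max_left _ _)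

private theorem CBL_gauss (r : ℝ) :
    (1 + r) * Real.exp (-r ^ 2) ≤ 2 * Real.exp (-(r / 2) ^ 2) := by
  have h1 : Real.exp (-(r / 2) ^ 2) = Real.exp (3 / 4 * r ^ 2) * Real.exp (-r ^ 2) := by
    rw [← Real.exp_add]
    congr 1
    ring
  rw [h1, ← mul_assoc]
  apply mul_le_mul_of_nonneg_right _ (Real.exp_pos _).le
  have h2 := Real.add_one_le_exp (3 / 4 * r ^ 2)
  nlinarith [sq_nonneg (r - 1 / 3)]

private theorem CBL_pow (T K t : ℝ) (hT0 : 0 < T) (hL : 0 < Real.log T)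
    (hx : 0 < K / Real.log T) (hx2 : 2 * (K / Real.log T) ≤ 1) (ht0 : 0 < |t|) :
    (|t| ^ (K / Real.log T)) ^ 2 ≤ Real.exp (2 * K) * (1 + |t| / T) := by
  have e1 : (|t| ^ (K / Real.log T)) ^ 2 = |t| ^ (2 * (K / Real.log T)) := by
    rw [← Real.rpow_natCast, ← Real.rpow_mul ht0.le]
    congr 1
    push_cast
    ring
  have e2 : |t| ^ (2 * (K / Real.log T)) ≤ (T * (1 + |t| / T)) ^ (2 * (K / Real.log T)) := by
    apply Real.rpow_le_rpow ht0.le _ (by positivity)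
    rw [mul_add, mul_div_cancel₀ _ hT0.ne']
    linarith
  have e3 : T ^ (2 * (K / Real.log T)) = Real.exp (2 * K) := by
    rw [Real.rpow_def_of_pos hT0]
    congr 1
    field_simp
  have e4 : (1 + |t| / T) ^ (2 * (K / Real.log T)) ≤ 1 + |t| / T := by
    have h1 : 1 ≤ 1 + |t| / T := by
      have : 0 ≤ |t| / T := by positivity
      linarith
    calc (1 + |t| / T) ^ (2 * (K / Real.log T)) ≤ (1 + |t| / T) ^ (1 : ℝ) :=
          Real.rpow_le_rpow_of_exponent_le h1 (by linarith)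
      _ = 1 + |t| / T := Real.rpow_one _
  rw [e1]
  refine e2.trans ?_
  rw [Real.mul_rpow hT0.le (by positivity), e3]
  exact mul_le_mul_of_nonneg_left e4 (Real.exp_pos _).le

private theorem CBL_r (T τ W t : ℝ) (hW0 : 0 < W) (hWT : W ≤ T) :
    1 + |t| / T ≤ (1 + |τ| / T) * (1 + |(t - τ) / W|) := by
  have hT0 : 0 < T := hW0.trans_le hWT
  have h1 : |t| ≤ |τ| + |t - τ| := by
    calc |t| = |τ + (t - τ)| := by ring_nf
      _ ≤ |τ| + |t - τ| := abs_add_le _ _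
  have h2 : |(t - τ) / W| = |t - τ| / W := by rw [abs_div, abs_of_pos hW0]
  have h3 : |t - τ| / T ≤ |t - τ| / W :=
    div_le_div_of_nonneg_left (abs_nonneg _) hW0 hWT
  have h4 : |t| / T ≤ |τ| / T + |t - τ| / T := by
    rw [← add_div]
    exact div_le_div_of_nonneg_right h1 hT0.le
  have h5 : 0 ≤ |t - τ| / W := by positivity
  have h6 : 0 ≤ |τ| / T := by positivity
  rw [h2]
  have h7 := mul_nonneg h6 h5
  have h8 : (1 + |τ| / T) * (1 + |t - τ| / W) =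
      1 + |τ| / T + |t - τ| / W + |τ| / T * (|t - τ| / W) := by ring
  rw [h8]
  linarith

private theorem CBL_g (τ W t : ℝ) :
    (1 + |(t - τ) / W|) * gw τ W t ≤ 2 * gw τ (2 * W) t := by
  have h := CBL_gauss |(t - τ) / W|
  unfold gw
  have e1 : -((t - τ) / W) ^ 2 = -|(t - τ) / W| ^ 2 := by rw [sq_abs]
  have e2 : -((t - τ) / (2 * W)) ^ 2 = -(|(t - τ) / W| / 2) ^ 2 := by
    rw [div_pow |(t - τ) / W|, sq_abs]
    ring
  rw [e1, e2]
  exact h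

private theorem CBL_alg1 (C₁ C₂ K W L P Q : ℝ) :
    (2 * C₂ ^ 2 * Real.exp (2 * K) * Q) * (C₁ * Real.exp (C₁ * K) * (2 * W) * L * P * Q ^ 300) =
      (4 * C₂ ^ 2 * C₁) * (Real.exp ((2 + C₁) * K) * (W * L * P * Q ^ 301)) := by
  rw [add_mul, Real.exp_add, pow_succ Q 300]
  generalize Q ^ 300 = R
  ring

private theorem CBL_alg2 {X Y a b C E E' W L P R : ℝ} (h1 : X ≤ a * (E * (W * L * P * R)))
    (h2 : Y ≤ b * (E * (W * L * P * R))) (h3 : a + b ≤ C) (hC : 0 ≤ C) (h4 : E ≤ E')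
    (hE : 0 ≤ E) (h5 : 0 ≤ W * L * P * R) : X + Y ≤ C * E' * W * L * P * R := by
  calc X + Y ≤ (a + b) * (E * (W * L * P * R)) := by
        rw [add_mul]
        exact add_le_add h1 h2
    _ ≤ C * (E' * (W * L * P * R)) := by
        apply mul_le_mul h3 _ (by positivity) hC
        exact mul_le_mul_of_nonneg_right h4 h5
    _ = _ := by ring

private theorem CBL_alg3 {C₃ E W L P R : ℝ} (hW : 0 ≤ W) (hL : 1 ≤ L) (hP : 1 ≤ P) (hR : 1 ≤ R)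
    (hE : 1 ≤ E) : 2 * (C₃ ^ 2 * W) ≤ (2 * C₃ ^ 2) * (E * (W * L * P * R)) := by
  have h1 : 1 ≤ E * (L * P * R) := one_le_mul_of_one_le_of_one_le hE
    (one_le_mul_of_one_le_of_one_le (one_le_mul_of_one_le_of_one_le hL hP) hR)
  have h2 : 0 ≤ 2 * (C₃ ^ 2 * W) := by positivity
  calc 2 * (C₃ ^ 2 * W) = 2 * (C₃ ^ 2 * W) * 1 := (mul_one _).symm
    _ ≤ 2 * (C₃ ^ 2 * W) * (E * (L * P * R)) := mul_le_mul_of_nonneg_left h1 h2
    _ = _ := by ring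

private theorem CBL_small_aux {f g C P W : ℝ} (hf : 0 ≤ f) (h5 : f ≤ C * P)
    (hg : g ≤ 1) (h6 : P ^ 2 ≤ W) : f ^ 2 * g ≤ C ^ 2 * W := by
  calc f ^ 2 * g ≤ f ^ 2 * 1 := mul_le_mul_of_nonneg_left hg (sq_nonneg _)
    _ = f ^ 2 := mul_one _
    _ ≤ (C * P) ^ 2 := pow_le_pow_left₀ hf h5 2
    _ = C ^ 2 * P ^ 2 := by ring
    _ ≤ C ^ 2 * W := mul_le_mul_of_nonneg_left h6 (sq_nonneg _)

private theorem CBL_big_aux {C a z m u r g g' Q E : ℝ} (ha : 0 ≤ a)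
    (hg0 : 0 ≤ g) (hQ : 0 ≤ Q) (hE : 0 ≤ E)
    (h1 : a ≤ C * u * z) {v : ℝ} (h2 : u ^ 2 ≤ E * v) (h3 : v ≤ Q * r)
    (h4 : r * g ≤ 2 * g') : (a * m) ^ 2 * g ≤ (2 * C ^ 2 * E * Q) * ((z * m) ^ 2 * g') := by
  calc (a * m) ^ 2 * g = a ^ 2 * (m ^ 2 * g) := by ring
    _ ≤ (C * u * z) ^ 2 * (m ^ 2 * g) :=
        mul_le_mul_of_nonneg_right (pow_le_pow_left₀ ha h1 2) (by positivity)
    _ = (C ^ 2 * z ^ 2 * m ^ 2 * g) * u ^ 2 := by ring
    _ ≤ (C ^ 2 * z ^ 2 * m ^ 2 * g) * (E * (Q * r)) := by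
        apply mul_le_mul_of_nonneg_left _ (by positivity)
        exact h2.trans (mul_le_mul_of_nonneg_left h3 hE)
    _ = (C ^ 2 * z ^ 2 * m ^ 2 * E * Q) * (r * g) := by ring
    _ ≤ (C ^ 2 * z ^ 2 * m ^ 2 * E * Q) * (2 * g') :=
        mul_le_mul_of_nonneg_left h4 (by positivity)
    _ = _ := by ring

/-- Left line: PROOF. Substitute `t' = t + Im w₀`-type shifts; here the statement is for
`w₀ = -K/L` (real): `chi_bound` with `x = K/L ≤ 1/4`: for `|t| ≥ 1`,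
`‖ζ(pt (-K/L) t)‖² ≤ C |t|^{2K/L} ‖ζ(pt (K/L) t)‖²`, `|t|^{2K/L} ≤ e^{2K} (1+|t|/T)` if `2K ≤ L`,
`(1+|t|/T) ≤ (1+|τ|/T)(1+|t-τ|/W)` and `(1+r) e^{-r²} ≤ 2 e^{-r²/4}`, i.e.
`(1+|t-τ|/W) gw τ W t ≤ 2 gw τ (2W) t`; then `CB` with width `2W ≤ T`. For `|t| ≤ 1`: `‖ζ‖ ≤ C`
near `1/2` (compactness), `‖Mo‖ ≤ 2 z₀^{2}`-crude: `≤ C T^{8θ} ≤ W` as `8θ ≤ 1/5`. -/
theorem CB_left (θ : ℝ) (hθ0 : 0 < θ) (hθ1 : θ ≤ 1 / 40) : ∃ C : ℝ, 0 < C ∧ ∀ K : ℝ, 1 ≤ K →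
    ∃ T₀ : ℝ, Real.exp 3200 ≤ T₀ ∧ ∀ T : ℝ, T₀ ≤ T → ∀ τ W : ℝ, T ^ (9 / 10 : ℝ) ≤ W → W ≤ T / 2 →
    ∀ w₁ w₂ : ℂ, |w₁.re| ≤ K / Real.log T → |w₂.re| ≤ K / Real.log T →
    Integrable (fun t : ℝ => ‖riemannZeta (pt (-(K / Real.log T) : ℝ) t) *
      (Mo (T ^ θ) (pt w₁ t) * Mo (T ^ θ) (pt w₂ t))‖ ^ 2 * gw τ W t) ∧
    ∫ t : ℝ, ‖riemannZeta (pt (-(K / Real.log T) : ℝ) t) *
      (Mo (T ^ θ) (pt w₁ t) * Mo (T ^ θ) (pt w₂ t))‖ ^ 2 * gw τ W t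
      ≤ C * Real.exp (C * K) * W * Real.log T * ((1 + Real.log T * ‖w₁‖) ^ 4 *
        (1 + Real.log T * ‖w₂‖) ^ 4) * (1 + |τ| / T) ^ 301 := by
  obtain ⟨C₁, hC₁, hCB⟩ := CB θ hθ0 hθ1
  obtain ⟨C₂, hC₂, hchi⟩ := chi_bound
  obtain ⟨C₃, hC₃, hsm⟩ := CBL_zeta_small
  refine ⟨4 * C₂ ^ 2 * C₁ + 2 * C₃ ^ 2 + 2 + C₁, by positivity, ?_⟩
  intro K hK
  obtain ⟨T₁, hT₁, hT⟩ := hCB K hK
  refine ⟨max T₁ (Real.exp (4 * K)), le_max_of_le_left hT₁, ?_⟩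
  intro T hTT τ W hW1 hW2 w₁ w₂ hw₁ hw₂
  have hTT₁ : T₁ ≤ T := (le_max_left _ _).trans hTT
  have hTK : Real.exp (4 * K) ≤ T := (le_max_right _ _).trans hTT
  have hT0 : 0 < T := (Real.exp_pos _).trans_le hTK
  have hL : 4 * K ≤ Real.log T := (Real.le_log_iff_exp_le hT0).mpr hTK
  have hL4 : 4 ≤ Real.log T := by linarith
  have hT1 : 1 ≤ T := by
    have h := Real.add_one_le_exp (4 * K)
    linarith
  set L := Real.log T with hLdef
  set x := K / L with hxdef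
  have hLpos : 0 < L := by linarith
  have hxpos : 0 < x := by positivity
  have hx4 : x ≤ 1 / 4 := by
    rw [hxdef, div_le_div_iff₀ hLpos (by norm_num)]
    linarith
  have hxabs : |x| ≤ 1 / 4 := by rwa [abs_of_pos hxpos]
  have hW0 : 0 < W := (Real.rpow_pos_of_pos hT0 _).trans_le hW1
  have hW1' : T ^ (9 / 10 : ℝ) ≤ 2 * W := by linarith [Real.rpow_pos_of_pos hT0 (9 / 10 : ℝ)]
  have hW2' : 2 * W ≤ T := by linarith
  set FR : ℝ → ℝ := fun t => ‖riemannZeta (pt (x : ℂ) t) *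
      (Mo (T ^ θ) (pt w₁ t) * Mo (T ^ θ) (pt w₂ t))‖ ^ 2 * gw τ (2 * W) t with hFR
  set FL : ℝ → ℝ := fun t => ‖riemannZeta (pt (-x : ℝ) t) *
      (Mo (T ^ θ) (pt w₁ t) * Mo (T ^ θ) (pt w₂ t))‖ ^ 2 * gw τ W t with hFL
  set Q : ℝ := 1 + |τ| / T with hQ
  have hQ1 : 1 ≤ Q := by
    have : 0 ≤ |τ| / T := by positivity
    linarith
  set A : ℝ := 2 * C₂ ^ 2 * Real.exp (2 * K) * Q with hA
  have hA0 : 0 ≤ A := by positivity
  -- crude bound of the mollifiers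
  have hz1 : 1 < T ^ θ := by
    apply Real.one_lt_rpow _ hθ0
    have := Real.add_one_le_exp (4 * K)
    linarith
  have hMo : ∀ w : ℂ, |w.re| ≤ x → ∀ t : ℝ, ‖Mo (T ^ θ) (pt w t)‖ ≤ T ^ (4 * θ) := by
    intro w hw t
    refine (norm_Mo_le _ hz1 _).trans ?_
    rw [← Real.rpow_mul hT0.le]
    apply Real.rpow_le_rpow_of_exponent_le hT1
    have h1 : |(pt w t).re| ≤ 1 := by
      rw [CBL_re_pt]
      have := abs_le.mp hw
      rw [abs_le]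
      constructor <;> linarith
    calc θ * (2 + 2 * |(pt w t).re|) ≤ θ * 4 := mul_le_mul_of_nonneg_left (by linarith) hθ0.le
      _ = 4 * θ := by ring
  set B : ℝ := C₃ ^ 2 * W with hB
  have hB0 : 0 ≤ B := by positivity
  have hsmall : ∀ t : ℝ, |t| ≤ 1 → FL t ≤ B := by
    intro t ht
    have h1 : ‖riemannZeta (pt (-x : ℝ) t)‖ ≤ C₃ := hsm (-x) t (by rwa [abs_neg]) ht
    have h2 := hMo w₁ hw₁ t
    have h3 := hMo w₂ hw₂ t
    have h4 : gw τ W t ≤ 1 := by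
      unfold gw
      rw [Real.exp_le_one_iff]
      have := sq_nonneg ((t - τ) / W)
      linarith
    have h5 : ‖riemannZeta (pt (-x : ℝ) t) * (Mo (T ^ θ) (pt w₁ t) * Mo (T ^ θ) (pt w₂ t))‖ ≤
        C₃ * (T ^ (4 * θ) * T ^ (4 * θ)) := by
      rw [norm_mul, norm_mul]
      apply mul_le_mul h1 _ (by positivity) hC₃.le
      exact mul_le_mul h2 h3 (norm_nonneg _) (by positivity)
    have h6 : (T ^ (4 * θ) * T ^ (4 * θ)) ^ 2 ≤ W := by
      rw [← Real.rpow_add hT0, ← Real.rpow_natCast, ← Real.rpow_mul hT0.le]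
      refine le_trans ?_ hW1
      apply Real.rpow_le_rpow_of_exponent_le hT1
      push_cast
      linarith
    exact CBL_small_aux (norm_nonneg _) h5 h4 h6
  have hbig : ∀ t : ℝ, 1 ≤ |t| → FL t ≤ A * FR t := by
    intro t ht
    have hζ : ‖riemannZeta (pt (-x : ℝ) t)‖ ≤ C₂ * |t| ^ x * ‖riemannZeta (pt (x : ℂ) t)‖ := by
      have h := hchi x t hxabs ht
      have e1 : (1 / 2 - (x : ℂ) + t * I) = pt (-x : ℝ) t := by
        unfold pt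
        push_cast
        ring
      have e2 : (1 / 2 + (x : ℂ) + t * I) = pt (x : ℂ) t := by
        unfold pt
        ring
      rw [e1, e2] at h
      exact h
    have ht0 : 0 < |t| := by linarith
    have hpow : (|t| ^ x) ^ 2 ≤ Real.exp (2 * K) * (1 + |t| / T) :=
      CBL_pow T K t hT0 hLpos hxpos (by linarith) ht0
    have hr : 1 + |t| / T ≤ Q * (1 + |(t - τ) / W|) := CBL_r T τ W t hW0 (by linarith)
    have hg : (1 + |(t - τ) / W|) * gw τ W t ≤ 2 * gw τ (2 * W) t := CBL_g τ W t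
    set m : ℝ := ‖Mo (T ^ θ) (pt w₁ t) * Mo (T ^ θ) (pt w₂ t)‖ with hm
    set z : ℝ := ‖riemannZeta (pt (x : ℂ) t)‖ with hz
    have hgw0 : 0 ≤ gw τ W t := (Real.exp_pos _).le
    have hfl : FL t = (‖riemannZeta (pt (-x : ℝ) t)‖ * m) ^ 2 * gw τ W t := by
      rw [← norm_mul]
    have hfr : FR t = (z * m) ^ 2 * gw τ (2 * W) t := by
      rw [← norm_mul]
    rw [hfl, hfr]
    exact CBL_big_aux (norm_nonneg _) hgw0 (zero_le_one.trans hQ1) (Real.exp_pos _).le hζ hpow hr hg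
  set G : ℝ → ℝ := fun t => A * FR t + (Icc (-1 : ℝ) 1).indicator (fun _ => B) t with hG
  have hFR0 : ∀ t, 0 ≤ FR t := fun t => mul_nonneg (sq_nonneg _) (Real.exp_pos _).le
  have hFL0 : ∀ t, 0 ≤ FL t := fun t => mul_nonneg (sq_nonneg _) (Real.exp_pos _).le
  have hFG : ∀ t, FL t ≤ G t := by
    intro t
    rw [hG]
    simp only []
    by_cases ht : |t| ≤ 1
    · rw [indicator_of_mem (by rw [mem_Icc]; exact abs_le.mp ht)]
      have := hsmall t ht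
      have := mul_nonneg hA0 (hFR0 t)
      linarith
    · have h1 := hbig t (by linarith)
      have h2 : 0 ≤ (Icc (-1 : ℝ) 1).indicator (fun _ => B) t :=
        indicator_nonneg (fun _ _ => hB0) t
      linarith
  have hindint : Integrable ((Icc (-1 : ℝ) 1).indicator (fun _ => B)) := by
    rw [integrable_indicator_iff measurableSet_Icc]
    exact integrableOn_const (by simp)
  set P : ℝ := (1 + L * ‖w₁‖) ^ 4 * (1 + L * ‖w₂‖) ^ 4 with hP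
  have hP1 : 1 ≤ P := by
    have h1 : 1 ≤ 1 + L * ‖w₁‖ := by
      have : 0 ≤ L * ‖w₁‖ := by positivity
      linarith
    have h2 : 1 ≤ 1 + L * ‖w₂‖ := by
      have : 0 ≤ L * ‖w₂‖ := by positivity
      linarith
    exact one_le_mul_of_one_le_of_one_le (one_le_pow₀ h1) (one_le_pow₀ h2)
  have hE : Real.exp ((2 + C₁) * K) ≤
      Real.exp ((4 * C₂ ^ 2 * C₁ + 2 * C₃ ^ 2 + 2 + C₁) * K) := by
    apply Real.exp_le_exp.mpr
    apply mul_le_mul_of_nonneg_right _ (by linarith)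
    have : 0 ≤ 4 * C₂ ^ 2 * C₁ := by positivity
    have : 0 ≤ 2 * C₃ ^ 2 := by positivity
    linarith
  have hE1 : 1 ≤ Real.exp ((2 + C₁) * K) := by
    apply Real.one_le_exp
    positivity
  have hfac : (4 * C₂ ^ 2 * C₁) + (2 * C₃ ^ 2) ≤ 4 * C₂ ^ 2 * C₁ + 2 * C₃ ^ 2 + 2 + C₁ := by
    linarith
  have hQ301 : 1 ≤ Q ^ 301 := one_le_pow₀ hQ1
  have hR2 : 2 * B ≤ (2 * C₃ ^ 2) * (Real.exp ((2 + C₁) * K) * (W * L * P * Q ^ 301)) :=
    CBL_alg3 hW0.le (by linarith only [hL4]) hP1 hQ301 hE1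
  have hpos : 0 ≤ W * L * P * Q ^ 301 :=
    mul_nonneg (mul_nonneg (mul_nonneg hW0.le hLpos.le) (zero_le_one.trans hP1))
      (zero_le_one.trans hQ301)
  have hTgt := hT T hTT₁ τ (2 * W) hW1' hW2' w₁ w₂ hw₁ hw₂
  clear hT
  have hint : Integrable FR := hTgt.1
  have hGint : Integrable G := (hint.const_mul A).add hindint
  have hcont : Continuous FL := by
    rw [hFL]
    have h1 := CBL_continuous_zeta (-x) (by rwa [abs_neg])
    have h2 := CBL_continuous_Mo_pt (T ^ θ) w₁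
    have h3 := CBL_continuous_Mo_pt (T ^ θ) w₂
    have h4 : Continuous (fun t => gw τ W t) := by
      unfold gw
      fun_prop
    exact ((h1.mul (h2.mul h3)).norm.pow 2).mul h4
  have hFLint : Integrable FL := by
    apply hGint.mono' hcont.aestronglyMeasurable
    filter_upwards with t
    rw [Real.norm_of_nonneg (hFL0 t)]
    exact hFG t
  refine ⟨hFLint, ?_⟩
  have hI : ∫ t, FL t ≤ A * (∫ t, FR t) + 2 * B := by
    calc ∫ t, FL t ≤ ∫ t, G t := integral_mono hFLint hGint hFG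
      _ = A * (∫ t, FR t) + 2 * B := by
        rw [hG, integral_add (hint.const_mul A) hindint, integral_const_mul,
          integral_indicator measurableSet_Icc, setIntegral_const]
        simp
        norm_num
  refine hI.trans ?_
  have hbd : ∫ t, FR t ≤ C₁ * Real.exp (C₁ * K) * (2 * W) * L * P * Q ^ 300 := hTgt.2
  clear hTgt
  have hR1 : A * (∫ t, FR t) ≤ (4 * C₂ ^ 2 * C₁) * (Real.exp ((2 + C₁) * K) * (W * L * P * Q ^ 301)) :=
    (mul_le_mul_of_nonneg_left hbd hA0).trans (le_of_eq (CBL_alg1 C₁ C₂ K W L P Q))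
  exact CBL_alg2 hR1 hR2 hfac (by positivity) hE (by positivity) hpos

end Pool.Agent.H14.CO

end

section

/-!
# CO module U: mean square of `ζ M M` near the critical line
-/

set_option autoImplicit false

namespace Pool.Agent.H14.CO

open Set MeasureTheory Complex

private lemma U_line (k q : ℝ → ℝ) (hkc : Continuous k) (hk0 : ∀ y, 0 ≤ k y)
    (Φ : ℝ → ℝ → ℝ)
    (hΦc : Continuous (fun p : ℝ × ℝ => Φ p.1 p.2)) (hΦ0 : ∀ t y, 0 ≤ Φ t y)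
    (B : ℝ) (hB : 0 ≤ B)
    (hI : ∀ y, Integrable (fun t => Φ t y))
    (hb : ∀ y, ∫ t, Φ t y ≤ B * q y)
    (hk : Integrable (fun y => q y * k y)) (C4 : ℝ)
    (hC4 : ∫ y, q y * k y ≤ C4) :
    Integrable (fun t => ∫ y, k y * Φ t y) ∧ ∫ t, ∫ y, k y * Φ t y ≤ B * C4 := by
  have hFc : Continuous (fun p : ℝ × ℝ => k p.2 * Φ p.1 p.2) :=
    (hkc.comp continuous_snd).mul hΦc
  have hFm : AEStronglyMeasurable (fun p : ℝ × ℝ => k p.2 * Φ p.1 p.2)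
      ((volume : Measure ℝ).prod (volume : Measure ℝ)) := hFc.aestronglyMeasurable
  have hpt : ∀ y, ∫ t, ‖k y * Φ t y‖ = k y * ∫ t, Φ t y := by
    intro y
    rw [← integral_const_mul]
    refine integral_congr_ae (Filter.Eventually.of_forall fun t => ?_)
    simp only [Real.norm_eq_abs]
    exact abs_of_nonneg (mul_nonneg (hk0 y) (hΦ0 t y))
  have hkey : ∀ y, k y * ∫ t, Φ t y ≤ B * (q y * k y) := by
    intro y
    calc k y * ∫ t, Φ t y ≤ k y * (B * q y) :=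
          mul_le_mul_of_nonneg_left (hb y) (hk0 y)
      _ = B * (q y * k y) := by ring
  have hFi : Integrable (fun p : ℝ × ℝ => k p.2 * Φ p.1 p.2)
      ((volume : Measure ℝ).prod (volume : Measure ℝ)) := by
    rw [integrable_prod_iff' hFm]
    refine ⟨Filter.Eventually.of_forall fun y => (hI y).const_mul (k y), ?_⟩
    refine Integrable.mono' (hk.const_mul B) ?_ (Filter.Eventually.of_forall fun y => ?_)
    · exact hFm.norm.prod_swap.integral_prod_right'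
    · simp only [hpt]
      rw [Real.norm_eq_abs, abs_of_nonneg (mul_nonneg (hk0 y)
        (integral_nonneg fun t => hΦ0 t y))]
      exact hkey y
  refine ⟨hFi.integral_prod_left, ?_⟩
  have hsw : ∫ t, ∫ y, k y * Φ t y = ∫ y, ∫ t, k y * Φ t y :=
    integral_integral_swap (f := fun t y => k y * Φ t y) hFi
  rw [hsw]
  have h2 : ∫ y, ∫ t, k y * Φ t y ≤ ∫ y, B * (q y * k y) := by
    refine integral_mono ?_ (hk.const_mul B) fun y => ?_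
    · exact hFi.integral_prod_right
    · change ∫ t, k y * Φ t y ≤ _
      rw [integral_const_mul]
      exact hkey y
  refine h2.trans ?_
  rw [integral_const_mul]
  exact mul_le_mul_of_nonneg_left hC4 hB

private lemma U_shift (z₀ : ℝ) (s : ℂ) (τ W v t : ℝ) (w₁ w₂ : ℂ) :
    ‖riemannZeta (pt s (t + v)) * (Mo z₀ (pt w₁ t) * Mo z₀ (pt w₂ t))‖ ^ 2 * gw τ W t
      = ‖riemannZeta (pt s (t + v)) * (Mo z₀ (pt (w₁ - v * I) (t + v)) *
        Mo z₀ (pt (w₂ - v * I) (t + v)))‖ ^ 2 * gw (τ + v) W (t + v) := by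
  have e1 : ∀ w : ℂ, pt (w - v * I) (t + v) = pt w t := by
    intro w
    unfold pt
    push_cast
    ring
  have e2 : gw (τ + v) W (t + v) = gw τ W t := by
    unfold gw
    have : t + v - (τ + v) = t - τ := by ring
    rw [this]
  rw [e1, e1, e2]

private lemma U_norm (L K : ℝ) (hL : 0 < L) (hK : 1 ≤ K) (w₀ w : ℂ) (y : ℝ)
    (h0 : |w₀.re| ≤ K / L) :
    1 + L * ‖w - ((w₀.im + y : ℝ) : ℂ) * I‖ ≤
      (1 + L * ‖w₀ - w‖) * ((1 + K) * (K * (1 + L / K * |y|))) := by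
  have e : w - ((w₀.im + y : ℝ) : ℂ) * I = (w - w₀) + (w₀.re : ℂ) + (-(y : ℂ) * I) := by
    have h := Complex.re_add_im w₀
    push_cast
    linear_combination -h
  have hn : ‖w - ((w₀.im + y : ℝ) : ℂ) * I‖ ≤ ‖w₀ - w‖ + |w₀.re| + |y| := by
    rw [e]
    refine (norm_add_le _ _).trans ?_
    refine add_le_add ((norm_add_le _ _).trans ?_) ?_
    · rw [norm_sub_rev w w₀]
      refine add_le_add le_rfl ?_
      rw [Complex.norm_real, Real.norm_eq_abs]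
    · rw [norm_mul, Complex.norm_I, mul_one, norm_neg, Complex.norm_real, Real.norm_eq_abs]
  have hK0 : 0 < K := by linarith
  have hA : 0 ≤ L * ‖w₀ - w‖ := by positivity
  have hB : 0 ≤ L * |y| := by positivity
  have e2 : K * (1 + L / K * |y|) = K + L * |y| := by
    field_simp
  have h1 : L * |w₀.re| ≤ K := by
    calc L * |w₀.re| ≤ L * (K / L) := mul_le_mul_of_nonneg_left h0 hL.le
      _ = K := by field_simp
  have h2 : 1 + L * ‖w - ((w₀.im + y : ℝ) : ℂ) * I‖ ≤ 1 + (L * ‖w₀ - w‖ + K + L * |y|) := by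
    have := mul_le_mul_of_nonneg_left hn hL.le
    nlinarith
  refine h2.trans ?_
  rw [e2]
  set A := L * ‖w₀ - w‖
  set B := L * |y|
  have h3 : 1 + A + K + B ≤ (1 + A) * ((1 + K) * (1 + B)) := by
    have i1 : 0 ≤ A * K := mul_nonneg hA hK0.le
    have i2 : 0 ≤ A * B := mul_nonneg hA hB
    have i3 : 0 ≤ K * B := mul_nonneg hK0.le hB
    have i4 : 0 ≤ A * (K * B) := mul_nonneg hA i3
    have i5 : (1 + A) * ((1 + K) * (1 + B)) =
        1 + A + K + B + (A * K + A * B + K * B + A * (K * B)) := by ring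
    rw [i5]
    linarith only [i1, i2, i3, i4]
  have h4 : (1 + A) * ((1 + K) * (1 + B)) ≤ (1 + A) * ((1 + K) * (K + B)) := by
    refine mul_le_mul_of_nonneg_left ?_ (by linarith)
    exact mul_le_mul_of_nonneg_left (by linarith) (by linarith)
  linarith

private lemma U_exp (K : ℝ) (hK : 1 ≤ K) : ((1 + K) * K) ^ 8 ≤ Real.exp (16 * K) := by
  have hK0 : 0 < K := by linarith
  have k1 : 1 + K ≤ Real.exp K := by
    have := Real.add_one_le_exp K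
    linarith
  have k2 : K ≤ Real.exp K := by linarith
  have j1 : (1 + K) * K ≤ Real.exp (2 * K) := by
    calc (1 + K) * K ≤ Real.exp K * Real.exp K :=
          mul_le_mul k1 k2 hK0.le (Real.exp_pos _).le
      _ = Real.exp (2 * K) := by rw [← Real.exp_add]; ring_nf
  calc ((1 + K) * K) ^ 8 ≤ (Real.exp (2 * K)) ^ 8 :=
        pow_le_pow_left₀ (by positivity) j1 8
    _ = Real.exp (16 * K) := by rw [← Real.exp_nat_mul]; congr 1; push_cast; ring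

private lemma U_pow (K X A1 A2 n1 n2 : ℝ) (hK : 1 ≤ K) (hX : 1 ≤ X) (hA1 : 0 < A1)
    (hA2 : 0 < A2) (hn1 : 0 ≤ n1) (hn2 : 0 ≤ n2)
    (h1 : n1 ≤ A1 * ((1 + K) * (K * X))) (h2 : n2 ≤ A2 * ((1 + K) * (K * X))) :
    n1 ^ 4 * n2 ^ 4 ≤ (A1 ^ 4 * A2 ^ 4) * (Real.exp (16 * K) * X ^ 30) := by
  have hK0 : 0 < K := by linarith
  have hX0 : 0 < X := by linarith
  have i1 : n1 ^ 4 ≤ (A1 * ((1 + K) * (K * X))) ^ 4 := pow_le_pow_left₀ hn1 h1 4
  have i2 : n2 ^ 4 ≤ (A2 * ((1 + K) * (K * X))) ^ 4 := pow_le_pow_left₀ hn2 h2 4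
  have i3 := mul_le_mul i1 i2 (pow_nonneg hn2 4) (by positivity)
  refine i3.trans ?_
  have e : (A1 * ((1 + K) * (K * X))) ^ 4 * (A2 * ((1 + K) * (K * X))) ^ 4 =
      (A1 ^ 4 * A2 ^ 4) * (((1 + K) * K) ^ 8 * X ^ 8) := by ring
  rw [e]
  refine mul_le_mul_of_nonneg_left ?_ (by positivity)
  exact mul_le_mul (U_exp K hK) (pow_le_pow_right₀ hX (by norm_num)) (by positivity)
    (Real.exp_pos _).le

private lemma U_tau (T τ u y : ℝ) (N : ℕ) (hT : 1 ≤ T) :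
    (1 + |τ + (u + y)| / T) ^ N ≤ (1 + |τ + u| / T) ^ N * (1 + |y|) ^ N := by
  rw [← mul_pow]
  refine pow_le_pow_left₀ (by positivity) ?_ N
  have hT0 : 0 < T := by linarith
  have j1 : |τ + (u + y)| ≤ |τ + u| + |y| := by
    have : τ + (u + y) = (τ + u) + y := by ring
    rw [this]
    exact abs_add_le _ _
  have j2 : |τ + (u + y)| / T ≤ |τ + u| / T + |y| := by
    calc |τ + (u + y)| / T ≤ (|τ + u| + |y|) / T := by gcongr
      _ = |τ + u| / T + |y| / T := add_div _ _ _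
      _ ≤ |τ + u| / T + |y| := by
          have := div_le_self (abs_nonneg y) hT
          linarith
  have j3 : 0 ≤ |τ + u| / T := by positivity
  have j4 : 0 ≤ |y| := abs_nonneg y
  nlinarith [mul_nonneg j3 j4]

private lemma U_comb (A P P' E X30 Q D Y : ℝ) (hA : 0 ≤ A) (hP : P ≤ P' * (E * X30))
    (hQ : Q ≤ D * Y) (hQ0 : 0 ≤ Q) (hP'0 : 0 ≤ P' * (E * X30)) :
    A * P * Q ≤ (A * P' * D * E) * (X30 * Y) := by
  calc A * P * Q ≤ A * (P' * (E * X30)) * (D * Y) :=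
        mul_le_mul (mul_le_mul_of_nonneg_left hP hA) hQ hQ0 (mul_nonneg hA hP'0)
    _ = _ := by ring

/-- inner bound for one line, all shifts. -/
private lemma U_inner (z₀ T L K h A τ W : ℝ) (N : ℕ) (hT : 1 ≤ T) (hL : 0 < L) (hK : 1 ≤ K)
    (hh : h = L / K) (hA : 0 ≤ A) (s : ℂ) (w₀ w₁ w₂ : ℂ)
    (h0 : |w₀.re| ≤ K / L) (h1 : |w₁.re| ≤ K / L) (h2 : |w₂.re| ≤ K / L)
    (hCB : ∀ τ' : ℝ, ∀ v₁ v₂ : ℂ, |v₁.re| ≤ 2 * K / L → |v₂.re| ≤ 2 * K / L →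
      Integrable (fun t : ℝ => ‖riemannZeta (pt s t) *
        (Mo z₀ (pt v₁ t) * Mo z₀ (pt v₂ t))‖ ^ 2 * gw τ' W t) ∧
      ∫ t : ℝ, ‖riemannZeta (pt s t) * (Mo z₀ (pt v₁ t) * Mo z₀ (pt v₂ t))‖ ^ 2 * gw τ' W t
        ≤ A * ((1 + L * ‖v₁‖) ^ 4 * (1 + L * ‖v₂‖) ^ 4) * (1 + |τ'| / T) ^ N) (y : ℝ) :
    Integrable (fun t : ℝ => ‖riemannZeta (pt s (t + (w₀.im + y))) *
        (Mo z₀ (pt w₁ t) * Mo z₀ (pt w₂ t))‖ ^ 2 * gw τ W t) ∧
    ∫ t : ℝ, ‖riemannZeta (pt s (t + (w₀.im + y))) *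
        (Mo z₀ (pt w₁ t) * Mo z₀ (pt w₂ t))‖ ^ 2 * gw τ W t
      ≤ (A * ((1 + L * ‖w₀ - w₁‖) ^ 4 * (1 + L * ‖w₀ - w₂‖) ^ 4) *
          (1 + |τ + w₀.im| / T) ^ N * Real.exp (16 * K)) *
          ((1 + h * |y|) ^ 30 * (1 + |y|) ^ N) := by
  have hK0 : 0 < K := by linarith
  have hKL : K / L ≤ 2 * K / L := by
    rw [mul_div_assoc]
    have : 0 ≤ K / L := by positivity
    linarith
  have hr : ∀ w : ℂ, |w.re| ≤ K / L →
      |(w - ((w₀.im + y : ℝ) : ℂ) * I).re| ≤ 2 * K / L := by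
    intro w hw
    have : (w - ((w₀.im + y : ℝ) : ℂ) * I).re = w.re := by simp
    rw [this]
    exact hw.trans hKL
  obtain ⟨hI, hb⟩ := hCB (τ + (w₀.im + y)) (w₁ - ((w₀.im + y : ℝ) : ℂ) * I)
    (w₂ - ((w₀.im + y : ℝ) : ℂ) * I) (hr w₁ h1) (hr w₂ h2)
  have hfun : (fun t : ℝ => ‖riemannZeta (pt s (t + (w₀.im + y))) *
        (Mo z₀ (pt w₁ t) * Mo z₀ (pt w₂ t))‖ ^ 2 * gw τ W t) =
      fun t => (fun t : ℝ => ‖riemannZeta (pt s t) *
        (Mo z₀ (pt (w₁ - ((w₀.im + y : ℝ) : ℂ) * I) t) *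
        Mo z₀ (pt (w₂ - ((w₀.im + y : ℝ) : ℂ) * I) t))‖ ^ 2 *
        gw (τ + (w₀.im + y)) W t) (t + (w₀.im + y)) := by
    funext t
    exact U_shift z₀ s τ W (w₀.im + y) t w₁ w₂
  rw [hfun]
  refine ⟨hI.comp_add_right (w₀.im + y), ?_⟩
  refine (le_of_eq (integral_add_right_eq_self (fun t : ℝ => ‖riemannZeta (pt s t) *
        (Mo z₀ (pt (w₁ - ((w₀.im + y : ℝ) : ℂ) * I) t) *
        Mo z₀ (pt (w₂ - ((w₀.im + y : ℝ) : ℂ) * I) t))‖ ^ 2 *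
        gw (τ + (w₀.im + y)) W t) (w₀.im + y))).trans (hb.trans ?_)
  have hn1 := U_norm L K hL hK w₀ w₁ y h0
  have hn2 := U_norm L K hL hK w₀ w₂ y h0
  rw [← hh] at hn1 hn2
  have hh0 : 0 < h := by rw [hh]; positivity
  have hx : 1 ≤ 1 + h * |y| := by
    have : 0 ≤ h * |y| := by positivity
    linarith
  have hp := U_pow K (1 + h * |y|) (1 + L * ‖w₀ - w₁‖) (1 + L * ‖w₀ - w₂‖) _ _ hK hx
    (by positivity) (by positivity) (by positivity) (by positivity) hn1 hn2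
  have hq := U_tau T τ w₀.im y N hT
  exact U_comb A _ _ _ _ _ _ _ hA hp hq (by positivity) (by positivity)

private lemma U_growth : ∃ C : ℝ, 0 < C ∧ ∀ t : ℝ, ∀ z : ℂ, |z.re| ≤ 1 / 4 →
    DifferentiableAt ℂ (fun w => riemannZeta (pt w t)) z ∧
    ‖riemannZeta (pt z t)‖ ≤ (C * (2 + |t|) ^ 4) * (1 + |z.im|) ^ 4 := by
  obtain ⟨C, hC, hg⟩ := Zt_growth 1 le_rfl
  refine ⟨4 * C, by positivity, fun t z hz => ?_⟩
  have hre : (pt z t).re = 1 / 2 + z.re := by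
    simp [pt]
  have hz' := abs_le.mp hz
  have hne : pt z t ≠ 1 := by
    intro h
    have : (pt z t).re = 1 := by rw [h]; simp
    rw [hre] at this
    linarith [hz'.2]
  refine ⟨?_, ?_⟩
  · have h1 : DifferentiableAt ℂ riemannZeta (pt z t) := differentiableAt_riemannZeta hne
    have h2 : DifferentiableAt ℂ (fun w => pt w t) z := by
      unfold pt
      fun_prop
    exact h1.comp z h2
  · have h1 := hg (pt z t) (by rw [hre]; linarith [hz'.1])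
    rw [Zt_eq _ hne, norm_mul] at h1
    have h2 : 1 / 4 ≤ ‖pt z t - 1‖ := by
      have h3 := Complex.abs_re_le_norm (pt z t - 1)
      have h4 : (pt z t - 1).re = -(1 / 2) + z.re := by
        rw [Complex.sub_re, hre, Complex.one_re]; ring
      rw [h4] at h3
      have h5 : |(-(1 / 2) + z.re : ℝ)| = 1 / 2 - z.re := by
        rw [abs_of_nonpos (by linarith [hz'.2])]; ring
      rw [h5] at h3
      linarith [hz'.2]
    have h6 : ‖pt z t‖ ≤ 3 / 4 + |z.im| + |t| := by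
      have h7 := Complex.norm_le_abs_re_add_abs_im (pt z t)
      have h8 : (pt z t).im = z.im + t := by simp [pt]
      rw [hre, h8] at h7
      have h9 : |1 / 2 + z.re| ≤ 3 / 4 := by
        rw [abs_le]; constructor <;> linarith [hz'.1, hz'.2]
      have h10 := abs_add_le z.im t
      linarith
    have h11 : 1 + ‖pt z t‖ ≤ (2 + |t|) * (1 + |z.im|) := by
      have h12 : 0 ≤ |t| := abs_nonneg t
      have h13 : 0 ≤ |z.im| := abs_nonneg _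
      nlinarith [mul_nonneg h12 h13]
    have h14 : C * (1 + ‖pt z t‖) ^ ((1 : ℝ) + 3) ≤ C * ((2 + |t|) * (1 + |z.im|)) ^ 4 := by
      have e : ((1 : ℝ) + 3) = ((4 : ℕ) : ℝ) := by norm_num
      rw [e, Real.rpow_natCast]
      exact mul_le_mul_of_nonneg_left (pow_le_pow_left₀ (by positivity) h11 4) hC.le
    have h15 : 1 / 4 * ‖riemannZeta (pt z t)‖ ≤ C * ((2 + |t|) * (1 + |z.im|)) ^ 4 :=
      (mul_le_mul_of_nonneg_right h2 (norm_nonneg _)).trans (h1.trans h14)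
    have h16 : C * ((2 + |t|) * (1 + |z.im|)) ^ 4 = C * (2 + |t|) ^ 4 * (1 + |z.im|) ^ 4 := by
      ring
    rw [h16] at h15
    have h17 : 4 * C * (2 + |t|) ^ 4 * (1 + |z.im|) ^ 4 =
        4 * (C * (2 + |t|) ^ 4 * (1 + |z.im|) ^ 4) := by ring
    rw [h17]
    linarith

private lemma U_ker_cont (h σ : ℝ) (hσ : σ ≠ 0) :
    Continuous (fun y : ℝ => ‖kn h (σ + y * I) / (σ + y * I)‖) := by
  have h1 : Continuous (fun y : ℝ => ((σ : ℂ) + y * I)) := by fun_prop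
  refine (Continuous.div ((differentiable_kn h).continuous.comp h1) h1 fun y => ?_).norm
  intro h0
  apply hσ
  have := congrArg Complex.re h0
  simpa using this

private lemma U_kint (k q : ℝ → ℝ) (hkc : Continuous k) (hk0 : ∀ y, 0 ≤ k y)
    (hq : ∀ y, 1 ≤ q y) (hk : Integrable (fun y => q y * k y)) (C4 : ℝ)
    (hC4 : ∫ y, q y * k y ≤ C4) : ∫ y, k y ≤ C4 := by
  have hle : ∀ y, k y ≤ q y * k y := by
    intro y
    have := mul_le_mul_of_nonneg_right (hq y) (hk0 y)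
    linarith
  have hki : Integrable k := by
    refine Integrable.mono' hk hkc.aestronglyMeasurable (Filter.Eventually.of_forall fun y => ?_)
    rw [Real.norm_eq_abs, abs_of_nonneg (hk0 y)]
    exact hle y
  exact (integral_mono hki hk hle).trans hC4

private lemma U_zcont (s : ℂ) (hs : s.re < 1 / 2) : Continuous (fun t : ℝ => riemannZeta (pt s t)) := by
  rw [continuous_iff_continuousAt]
  intro t
  have hne : pt s t ≠ 1 := by
    intro h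
    have h1 : (pt s t).re = 1 := by rw [h]; simp
    have h2 : (pt s t).re = 1 / 2 + s.re := by simp [pt]
    linarith
  have h1 : ContinuousAt riemannZeta (pt s t) := (differentiableAt_riemannZeta hne).continuousAt
  have h2 : Continuous (fun t : ℝ => pt s t) := by
    unfold pt
    fun_prop
  exact ContinuousAt.comp (f := fun t : ℝ => pt s t) h1 h2.continuousAt

private lemma U_ptcont (w : ℂ) : Continuous (fun t : ℝ => pt w t) := by
  unfold pt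
  fun_prop

private lemma U_gwcont (τ W : ℝ) : Continuous (fun t : ℝ => gw τ W t) := by
  unfold gw
  fun_prop

/-- one line: the double integral. -/
private lemma U_one (z₀ τ W h σ C4 B : ℝ) (N : ℕ) (s : ℂ) (hs : s.re < 1 / 2) (w₀ w₁ w₂ : ℂ)
    (hσ : σ ≠ 0) (hh : 0 < h) (hB : 0 ≤ B)
    (hk : Integrable (fun y : ℝ => (1 + h * |y|) ^ 30 * (1 + |y|) ^ N *
      ‖kn h (σ + y * I) / (σ + y * I)‖))
    (hC4 : ∫ y : ℝ, (1 + h * |y|) ^ 30 * (1 + |y|) ^ N * ‖kn h (σ + y * I) / (σ + y * I)‖ ≤ C4)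
    (hin : ∀ y : ℝ, Integrable (fun t : ℝ => ‖riemannZeta (pt s (t + (w₀.im + y))) *
        (Mo z₀ (pt w₁ t) * Mo z₀ (pt w₂ t))‖ ^ 2 * gw τ W t) ∧
      ∫ t : ℝ, ‖riemannZeta (pt s (t + (w₀.im + y))) *
        (Mo z₀ (pt w₁ t) * Mo z₀ (pt w₂ t))‖ ^ 2 * gw τ W t
      ≤ B * ((1 + h * |y|) ^ 30 * (1 + |y|) ^ N)) :
    Integrable (fun t : ℝ => ∫ y : ℝ, ‖kn h (σ + y * I) / (σ + y * I)‖ *
      (‖riemannZeta (pt s (t + (w₀.im + y))) *
        (Mo z₀ (pt w₁ t) * Mo z₀ (pt w₂ t))‖ ^ 2 * gw τ W t)) ∧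
    (∫ t : ℝ, ∫ y : ℝ, ‖kn h (σ + y * I) / (σ + y * I)‖ *
      (‖riemannZeta (pt s (t + (w₀.im + y))) *
        (Mo z₀ (pt w₁ t) * Mo z₀ (pt w₂ t))‖ ^ 2 * gw τ W t)) ≤ B * C4 ∧
    (∫ y : ℝ, ‖kn h (σ + y * I) / (σ + y * I)‖) ≤ C4 := by
  have hkc := U_ker_cont h σ hσ
  have hΦc : Continuous (fun p : ℝ × ℝ => ‖riemannZeta (pt s (p.1 + (w₀.im + p.2))) *
        (Mo z₀ (pt w₁ p.1) * Mo z₀ (pt w₂ p.1))‖ ^ 2 * gw τ W p.1) := by
    have c1 : Continuous (fun p : ℝ × ℝ => p.1 + (w₀.im + p.2)) := by fun_prop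
    have c2 := (U_zcont s hs).comp c1
    have c3 : Continuous (fun p : ℝ × ℝ => Mo z₀ (pt w₁ p.1)) :=
      (continuous_Mo z₀).comp ((U_ptcont w₁).comp continuous_fst)
    have c4 : Continuous (fun p : ℝ × ℝ => Mo z₀ (pt w₂ p.1)) :=
      (continuous_Mo z₀).comp ((U_ptcont w₂).comp continuous_fst)
    have c5 : Continuous (fun p : ℝ × ℝ => gw τ W p.1) := (U_gwcont τ W).comp continuous_fst
    exact ((c2.mul (c3.mul c4)).norm.pow 2).mul c5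
  have hmain := U_line (fun y : ℝ => ‖kn h (σ + y * I) / (σ + y * I)‖)
    (fun y : ℝ => (1 + h * |y|) ^ 30 * (1 + |y|) ^ N) hkc (fun y => norm_nonneg _)
    (fun t y : ℝ => ‖riemannZeta (pt s (t + (w₀.im + y))) *
        (Mo z₀ (pt w₁ t) * Mo z₀ (pt w₂ t))‖ ^ 2 * gw τ W t) hΦc
    (fun t y => mul_nonneg (sq_nonneg _) (Real.exp_pos _).le) B hB
    (fun y => (hin y).1) (fun y => (hin y).2) hk C4 hC4
  refine ⟨hmain.1, hmain.2, ?_⟩
  refine U_kint (fun y : ℝ => ‖kn h (σ + y * I) / (σ + y * I)‖)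
    (fun y : ℝ => (1 + h * |y|) ^ 30 * (1 + |y|) ^ N) hkc (fun y => norm_nonneg _) ?_ hk C4 hC4
  intro y
  have h1 : 1 ≤ 1 + h * |y| := by
    have : 0 ≤ h * |y| := by positivity
    linarith
  have h2 : 1 ≤ 1 + |y| := by
    have : 0 ≤ |y| := abs_nonneg y
    linarith
  exact one_le_mul_of_one_le_of_one_le (one_le_pow₀ h1) (one_le_pow₀ h2)

private lemma U_kern_const (C3 K L h σ : ℝ) (hC3 : 0 < C3) (hK : 1 ≤ K) (hL : 16 * K ≤ L)
    (hh : h = L / K) (h1 : K / L ≤ |σ|) (h2 : |σ| ≤ 3 * K / L) :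
    C3 * Real.exp (32 * h * |σ| + σ ^ 2) * (1 + 1 / (h * |σ|)) ≤ C3 * Real.exp 97 * 2 := by
  have hK0 : 0 < K := by linarith
  have hL0 : 0 < L := by linarith
  have hh0 : 0 < h := by rw [hh]; positivity
  have a1 : 1 ≤ h * |σ| := by
    calc (1 : ℝ) = L / K * (K / L) := by field_simp
      _ ≤ h * |σ| := by rw [hh]; exact mul_le_mul_of_nonneg_left h1 (by positivity)
  have a2 : h * |σ| ≤ 3 := by
    calc h * |σ| ≤ L / K * (3 * K / L) := by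
          rw [hh]; exact mul_le_mul_of_nonneg_left h2 (by positivity)
      _ = 3 := by field_simp
  have a3 : σ ^ 2 ≤ 1 := by
    have b1 : |σ| ≤ 1 := by
      refine h2.trans ?_
      rw [div_le_one hL0]
      linarith
    rw [← sq_abs]
    exact pow_le_one₀ (abs_nonneg σ) b1
  have a4 : 1 / (h * |σ|) ≤ 1 := by
    rw [div_le_one (by linarith)]
    exact a1
  have a5 : Real.exp (32 * h * |σ| + σ ^ 2) ≤ Real.exp 97 := by
    apply Real.exp_le_exp.mpr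
    have b1 : 32 * h * |σ| = 32 * (h * |σ|) := by ring
    rw [b1]
    linarith only [a2, a3]
  have a6 : 0 ≤ 1 / (h * |σ|) := by positivity
  refine mul_le_mul (mul_le_mul_of_nonneg_left a5 hC3.le) (by linarith) (by linarith)
    (by positivity)

private lemma U_fin (c c' e e' W L P Q : ℝ) (hce : c * e ≤ c' * e') (hW : 0 ≤ W) (hL : 0 ≤ L)
    (hP : 0 ≤ P) (hQ : 0 ≤ Q) : c * e * W * L * P * Q ≤ c' * e' * W * L * P * Q := by
  have h1 := mul_le_mul_of_nonneg_right hce hW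
  have h2 := mul_le_mul_of_nonneg_right h1 hL
  have h3 := mul_le_mul_of_nonneg_right h2 hP
  exact mul_le_mul_of_nonneg_right h3 hQ

/-- pointwise inequality at a fixed `t`. -/
private lemma U_point (z₀ τ W h a b C4 K L : ℝ) (hK : 1 ≤ K) (hL : 16 * K ≤ L) (hh : 0 < h)
    (ha : a = -(2 * K / L)) (hb : b = 2 * K / L)
    (w₀ w₁ w₂ : ℂ) (h0 : |w₀.re| ≤ K / L)
    (hka : (∫ y : ℝ, ‖kn h ((a - w₀.re : ℝ) + y * I) / ((a - w₀.re : ℝ) + y * I)‖) ≤ C4)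
    (hkb : (∫ y : ℝ, ‖kn h ((b - w₀.re : ℝ) + y * I) / ((b - w₀.re : ℝ) + y * I)‖) ≤ C4) (t : ℝ) :
    ‖riemannZeta (pt w₀ t) * (Mo z₀ (pt w₁ t) * Mo z₀ (pt w₂ t))‖ ^ 2 * gw τ W t ≤
      C4 * (∫ y : ℝ, ‖kn h ((a - w₀.re : ℝ) + y * I) / ((a - w₀.re : ℝ) + y * I)‖ *
        (‖riemannZeta (pt (a : ℂ) (t + (w₀.im + y))) *
        (Mo z₀ (pt w₁ t) * Mo z₀ (pt w₂ t))‖ ^ 2 * gw τ W t)) +
      C4 * (∫ y : ℝ, ‖kn h ((b - w₀.re : ℝ) + y * I) / ((b - w₀.re : ℝ) + y * I)‖ *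
        (‖riemannZeta (pt (b : ℂ) (t + (w₀.im + y))) *
        (Mo z₀ (pt w₁ t) * Mo z₀ (pt w₂ t))‖ ^ 2 * gw τ W t)) := by
  have hK0 : 0 < K := by linarith
  have hL0 : 0 < L := by linarith
  have hKL : 0 < K / L := by positivity
  have hb8 : 2 * K / L ≤ 1 / 8 := by
    rw [div_le_iff₀ hL0]; linarith
  have h2KL : 2 * K / L = 2 * (K / L) := by ring
  have h0' := abs_le.mp h0
  obtain ⟨C, hC, hg⟩ := U_growth
  have hzz : ∀ z : ℂ, a ≤ z.re → z.re ≤ b → |z.re| ≤ 1 / 4 := by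
    intro z hz1 hz2
    rw [abs_le]
    constructor
    · linarith
    · linarith
  have hint := interp (fun w => riemannZeta (pt w t)) a b
    (fun z hz1 hz2 => (hg t z (hzz z hz1 hz2)).1) (C * (2 + |t|) ^ 4) 4
    (fun z hz1 hz2 => (hg t z (hzz z hz1 hz2)).2) h 0 hh w₀
    (by rw [ha]; linarith) (by rw [hb]; linarith)
  have e0 : Real.exp (-2 * 0 * (w₀.re - a)) = 1 := by simp
  have e1 : Real.exp (2 * 0 * (b - w₀.re)) = 1 := by simp
  rw [e0, e1, one_mul, one_mul] at hint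
  have epa : ∀ (c y : ℝ), pt ((c : ℂ) + ((w₀.im : ℂ) + (y : ℂ)) * I) t =
      pt (c : ℂ) (t + (w₀.im + y)) := by
    intro c y
    unfold pt
    push_cast
    ring
  have hM : 0 ≤ ‖Mo z₀ (pt w₁ t) * Mo z₀ (pt w₂ t)‖ ^ 2 * gw τ W t :=
    mul_nonneg (sq_nonneg _) (Real.exp_pos _).le
  have hsplit : ∀ ζ : ℂ, ‖ζ * (Mo z₀ (pt w₁ t) * Mo z₀ (pt w₂ t))‖ ^ 2 * gw τ W t =
      ‖ζ‖ ^ 2 * (‖Mo z₀ (pt w₁ t) * Mo z₀ (pt w₂ t)‖ ^ 2 * gw τ W t) := by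
    intro ζ
    rw [norm_mul ζ, mul_pow]
    ring
  have hone : ∀ c : ℝ, (∫ y : ℝ, ‖kn h ((c - w₀.re : ℝ) + y * I) / ((c - w₀.re : ℝ) + y * I)‖ *
        (‖riemannZeta (pt (c : ℂ) (t + (w₀.im + y))) *
        (Mo z₀ (pt w₁ t) * Mo z₀ (pt w₂ t))‖ ^ 2 * gw τ W t)) =
      (∫ y : ℝ, ‖kn h ((c - w₀.re : ℝ) + y * I) / ((c - w₀.re : ℝ) + y * I)‖ *
        ‖riemannZeta (pt ((c : ℂ) + ((w₀.im : ℂ) + (y : ℂ)) * I) t)‖ ^ 2) *
        (‖Mo z₀ (pt w₁ t) * Mo z₀ (pt w₂ t)‖ ^ 2 * gw τ W t) := by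
    intro c
    rw [← integral_mul_const]
    congr 1
    funext y
    rw [hsplit, epa]
    ring
  rw [hsplit, hone a, hone b]
  have hIa : 0 ≤ ∫ y : ℝ, ‖kn h ((a - w₀.re : ℝ) + y * I) / ((a - w₀.re : ℝ) + y * I)‖ *
        ‖riemannZeta (pt ((a : ℂ) + ((w₀.im : ℂ) + (y : ℂ)) * I) t)‖ ^ 2 :=
    integral_nonneg fun y => mul_nonneg (norm_nonneg _) (sq_nonneg _)
  have hIb : 0 ≤ ∫ y : ℝ, ‖kn h ((b - w₀.re : ℝ) + y * I) / ((b - w₀.re : ℝ) + y * I)‖ *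
        ‖riemannZeta (pt ((b : ℂ) + ((w₀.im : ℂ) + (y : ℂ)) * I) t)‖ ^ 2 :=
    integral_nonneg fun y => mul_nonneg (norm_nonneg _) (sq_nonneg _)
  have j1 := mul_le_mul_of_nonneg_right hka hIa
  have j2 := mul_le_mul_of_nonneg_right hkb hIb
  have j3 := hint.trans (add_le_add j1 j2)
  have j4 := mul_le_mul_of_nonneg_right j3 hM
  refine j4.trans (le_of_eq ?_)
  ring

/-- The general upper bound (U).

PROOF. Fix `t`; `interp` for `G(w) = ζ(1/2 + it + w)` (if `1/2 + it + w = 1` could occur the strip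
`|Re w| ≤ 2K/L < 1/2` avoids it), lines `a = -2K/L`, `b = 2K/L`, `lm = 0`, `h = L/K`, at `w = w₀`
(`Re w₀ - a, b - Re w₀ ∈ [K/L, 3K/L]`, so `h|σ| ∈ [1,3]` in `kn_int`). Multiply by
`‖Mo (pt w₁ t) Mo (pt w₂ t)‖² gw τ W t`, integrate over `t` (Tonelli); for fixed `y` substitute
`t = t' - v`, `v = Im w₀ + y`: the `t`-integral becomes
`∫ ‖ζ(pt (±2K/L) t') Mo (pt (w₁ - iv) t') Mo (pt (w₂ - iv) t')‖² gw (τ+v) W t' dt'`, bounded by `CB` or
`CB_left` with `2K`; `‖w_i - iv‖ ≤ ‖w_i - w₀‖ + |Re w₀| + |y|`, so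
`(1+L‖w_i-iv‖)^4 ≤ (1+L‖w_i-w₀‖)^4 (1+K)^4 (1+L|y|)^4`, `1+L|y| ≤ K(1+h|y|)`, and
`(1+|τ+v|/T)^{301} ≤ (1+|τ+Im w₀|/T)^{301} (1+|y|)^{301}`; `kn_int` with `k = 301`. -/
theorem U (θ : ℝ) (hθ0 : 0 < θ) (hθ1 : θ ≤ 1 / 40) : ∃ C : ℝ, 0 < C ∧ ∀ K : ℝ, 1 ≤ K →
    ∃ T₀ : ℝ, Real.exp 3200 ≤ T₀ ∧ ∀ T : ℝ, T₀ ≤ T → ∀ τ W : ℝ, T ^ (9 / 10 : ℝ) ≤ W → W ≤ T / 2 →
    ∀ w₀ w₁ w₂ : ℂ, |w₀.re| ≤ K / Real.log T → |w₁.re| ≤ K / Real.log T →
    |w₂.re| ≤ K / Real.log T →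
    Integrable (fun t : ℝ => ‖riemannZeta (pt w₀ t) *
      (Mo (T ^ θ) (pt w₁ t) * Mo (T ^ θ) (pt w₂ t))‖ ^ 2 * gw τ W t) ∧
    ∫ t : ℝ, ‖riemannZeta (pt w₀ t) *
      (Mo (T ^ θ) (pt w₁ t) * Mo (T ^ θ) (pt w₂ t))‖ ^ 2 * gw τ W t
      ≤ C * Real.exp (C * K) * W * Real.log T * ((1 + Real.log T * ‖w₀ - w₁‖) ^ 4 *
        (1 + Real.log T * ‖w₀ - w₂‖) ^ 4) * (1 + |τ + w₀.im| / T) ^ 301 := by
  obtain ⟨N, hN⟩ : ∃ N : ℕ, N = 301 := ⟨_, rfl⟩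
  obtain ⟨N', hN'⟩ : ∃ N' : ℕ, N' = 300 := ⟨_, rfl⟩
  have hCBs := CB θ hθ0 hθ1
  have hCLs := CB_left θ hθ0 hθ1
  rw [← hN] at hCLs ⊢
  rw [← hN'] at hCBs
  obtain ⟨C1, hC1, h1⟩ := hCBs
  obtain ⟨C2, hC2, h2⟩ := hCLs
  obtain ⟨C3, hC3, h3⟩ := kn_int N
  have hNN : N' ≤ N := by omega
  clear hN hN'
  set Cm : ℝ := max C1 C2 with hCm
  have hCm1 : C1 ≤ Cm := le_max_left _ _
  have hCm2 : C2 ≤ Cm := le_max_right _ _
  have hCm0 : 0 < Cm := lt_of_lt_of_le hC1 hCm1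
  set C4 : ℝ := C3 * Real.exp 97 * 2 with hC4
  have hC40 : 0 < C4 := by positivity
  refine ⟨2 * C4 ^ 2 * Cm + (2 * Cm + 16), by positivity, fun K hK => ?_⟩
  have hK0 : 0 < K := by linarith
  obtain ⟨T1, hT1e, hT1⟩ := h1 (2 * K) (by linarith)
  obtain ⟨T2, hT2e, hT2⟩ := h2 (2 * K) (by linarith)
  refine ⟨max (max T1 T2) (Real.exp (16 * K)), hT1e.trans ((le_max_left _ _).trans (le_max_left _ _)),
    fun T hT τ W hW1 hW2 w₀ w₁ w₂ h0 h1' h2' => ?_⟩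
  have hTT1 : T1 ≤ T := ((le_max_left _ _).trans (le_max_left _ _)).trans hT
  have hTT2 : T2 ≤ T := ((le_max_right _ _).trans (le_max_left _ _)).trans hT
  have hTe : Real.exp (16 * K) ≤ T := (le_max_right _ _).trans hT
  have hT0 : 0 < T := lt_of_lt_of_le (Real.exp_pos _) hTe
  have hLK : 16 * K ≤ Real.log T := by
    have := Real.log_le_log (Real.exp_pos _) hTe
    rwa [Real.log_exp] at this
  have hT1' : 1 ≤ T := by
    refine le_trans ?_ hTe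
    have := Real.add_one_le_exp (16 * K)
    linarith
  have hW0 : 0 < W := lt_of_lt_of_le (Real.rpow_pos_of_pos hT0 _) hW1
  have hWT : W ≤ T := by linarith
  set L : ℝ := Real.log T with hLdef
  have hL0 : 0 < L := by linarith
  set z₀ : ℝ := T ^ θ with hz₀
  set h : ℝ := L / K with hh
  have hh0 : 0 < h := by rw [hh]; positivity
  set A : ℝ := Cm * Real.exp (2 * Cm * K) * W * L with hA
  have hA0 : 0 ≤ A := by rw [hA]; positivity
  have hKLp : 0 < K / L := by positivity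
  have h2KL : 2 * K / L = 2 * (K / L) := by ring
  have h3KL : 3 * K / L = 3 * (K / L) := by ring
  -- the two line bounds
  have hexp : ∀ c : ℝ, 0 < c → c ≤ Cm → c * Real.exp (c * (2 * K)) * W * L ≤ A := by
    intro c hc0 hc
    rw [hA]
    have i1 : c * (2 * K) ≤ 2 * Cm * K := by
      calc c * (2 * K) ≤ Cm * (2 * K) := mul_le_mul_of_nonneg_right hc (by positivity)
        _ = 2 * Cm * K := by ring
    have i2 : Real.exp (c * (2 * K)) ≤ Real.exp (2 * Cm * K) := Real.exp_le_exp.mpr i1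
    have i3 : c * Real.exp (c * (2 * K)) ≤ Cm * Real.exp (2 * Cm * K) :=
      mul_le_mul hc i2 (Real.exp_pos _).le hCm0.le
    exact mul_le_mul_of_nonneg_right (mul_le_mul_of_nonneg_right i3 hW0.le) hL0.le
  have hb1 : ∀ τ' : ℝ, (1 + |τ'| / T) ^ N' ≤ (1 + |τ'| / T) ^ N := by
    intro τ'
    have : 0 ≤ |τ'| / T := by positivity
    exact pow_le_pow_right₀ (by linarith) hNN
  have hright : ∀ τ' : ℝ, ∀ v₁ v₂ : ℂ, |v₁.re| ≤ 2 * K / L → |v₂.re| ≤ 2 * K / L →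
      Integrable (fun t : ℝ => ‖riemannZeta (pt ((2 * K / L : ℝ) : ℂ) t) *
        (Mo z₀ (pt v₁ t) * Mo z₀ (pt v₂ t))‖ ^ 2 * gw τ' W t) ∧
      ∫ t : ℝ, ‖riemannZeta (pt ((2 * K / L : ℝ) : ℂ) t) *
        (Mo z₀ (pt v₁ t) * Mo z₀ (pt v₂ t))‖ ^ 2 * gw τ' W t
        ≤ A * ((1 + L * ‖v₁‖) ^ 4 * (1 + L * ‖v₂‖) ^ 4) * (1 + |τ'| / T) ^ N := by
    intro τ' v₁ v₂ hv1 hv2
    obtain ⟨i1, i2⟩ := hT1 T hTT1 τ' W hW1 hWT v₁ v₂ hv1 hv2
    refine ⟨i1, i2.trans ?_⟩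
    have i3 := hexp C1 hC1 hCm1
    refine mul_le_mul (mul_le_mul_of_nonneg_right i3 (by positivity)) (hb1 τ') (by positivity)
      (by positivity)
  have hleft : ∀ τ' : ℝ, ∀ v₁ v₂ : ℂ, |v₁.re| ≤ 2 * K / L → |v₂.re| ≤ 2 * K / L →
      Integrable (fun t : ℝ => ‖riemannZeta (pt ((-(2 * K / L) : ℝ) : ℂ) t) *
        (Mo z₀ (pt v₁ t) * Mo z₀ (pt v₂ t))‖ ^ 2 * gw τ' W t) ∧
      ∫ t : ℝ, ‖riemannZeta (pt ((-(2 * K / L) : ℝ) : ℂ) t) *
        (Mo z₀ (pt v₁ t) * Mo z₀ (pt v₂ t))‖ ^ 2 * gw τ' W t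
        ≤ A * ((1 + L * ‖v₁‖) ^ 4 * (1 + L * ‖v₂‖) ^ 4) * (1 + |τ'| / T) ^ N := by
    intro τ' v₁ v₂ hv1 hv2
    obtain ⟨i1, i2⟩ := hT2 T hTT2 τ' W hW1 hW2 v₁ v₂ hv1 hv2
    refine ⟨i1, i2.trans ?_⟩
    have i3 := hexp C2 hC2 hCm2
    exact mul_le_mul_of_nonneg_right (mul_le_mul_of_nonneg_right i3 (by positivity))
      (by positivity)
  clear_value L z₀ h A Cm C4
  have h0' := abs_le.mp h0
  -- the kernel constants
  have hσa : ∀ σ : ℝ, σ = -(2 * K / L) - w₀.re → K / L ≤ |σ| ∧ |σ| ≤ 3 * K / L := by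
    intro σ hσ
    have : |σ| = 2 * K / L + w₀.re := by
      rw [hσ, abs_of_nonpos (by linarith)]; ring
    rw [this]
    constructor <;> linarith
  have hσb : ∀ σ : ℝ, σ = 2 * K / L - w₀.re → K / L ≤ |σ| ∧ |σ| ≤ 3 * K / L := by
    intro σ hσ
    have : |σ| = 2 * K / L - w₀.re := by
      rw [hσ, abs_of_nonneg (by linarith)]
    rw [this]
    constructor <;> linarith
  obtain ⟨ha1, ha2⟩ := hσa _ rfl
  obtain ⟨hb1', hb2'⟩ := hσb _ rfl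
  have hane : -(2 * K / L) - w₀.re ≠ 0 := by
    intro h
    rw [h, abs_zero] at ha1
    linarith
  have hbne : 2 * K / L - w₀.re ≠ 0 := by
    intro h
    rw [h, abs_zero] at hb1'
    linarith
  obtain ⟨ka1, ka2⟩ := h3 h (-(2 * K / L) - w₀.re) hh0 hane
  obtain ⟨kb1, kb2⟩ := h3 h (2 * K / L - w₀.re) hh0 hbne
  have ka3 := ka2.trans (U_kern_const C3 K L h _ hC3 hK hLK hh ha1 ha2)
  have kb3 := kb2.trans (U_kern_const C3 K L h _ hC3 hK hLK hh hb1' hb2')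
  rw [← hC4] at ka3 kb3
  set B : ℝ := A * ((1 + L * ‖w₀ - w₁‖) ^ 4 * (1 + L * ‖w₀ - w₂‖) ^ 4) *
          (1 + |τ + w₀.im| / T) ^ N * Real.exp (16 * K) with hB
  have hB0 : 0 ≤ B := by rw [hB]; positivity
  clear_value B
  have hb8 : 2 * K / L ≤ 1 / 8 := by
    rw [div_le_iff₀ hL0]; linarith
  obtain ⟨ia1, ia2, ia3⟩ := U_one z₀ τ W h (-(2 * K / L) - w₀.re) C4 B N
    ((-(2 * K / L) : ℝ) : ℂ) (by rw [Complex.ofReal_re]; linarith) w₀ w₁ w₂ hane hh0 hB0 ka1 ka3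
    (fun y => by rw [hB]; exact U_inner z₀ T L K h A τ W N hT1' hL0 hK hh hA0 _ w₀ w₁ w₂ h0 h1' h2' hleft y)
  obtain ⟨ib1, ib2, ib3⟩ := U_one z₀ τ W h (2 * K / L - w₀.re) C4 B N
    ((2 * K / L : ℝ) : ℂ) (by rw [Complex.ofReal_re]; linarith) w₀ w₁ w₂ hbne hh0 hB0 kb1 kb3
    (fun y => by rw [hB]; exact U_inner z₀ T L K h A τ W N hT1' hL0 hK hh hA0 _ w₀ w₁ w₂ h0 h1' h2' hright y)
  have hpt := U_point z₀ τ W h (-(2 * K / L)) (2 * K / L) C4 K L hK hLK hh0 rfl rfl w₀ w₁ w₂ h0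
    ia3 ib3
  have hsum := (ia1.const_mul C4).add (ib1.const_mul C4)
  have hFc : Continuous (fun t : ℝ => ‖riemannZeta (pt w₀ t) *
      (Mo z₀ (pt w₁ t) * Mo z₀ (pt w₂ t))‖ ^ 2 * gw τ W t) := by
    have c2 := U_zcont w₀ (by linarith)
    have c3 : Continuous (fun t : ℝ => Mo z₀ (pt w₁ t)) :=
      (continuous_Mo z₀).comp (U_ptcont w₁)
    have c4 : Continuous (fun t : ℝ => Mo z₀ (pt w₂ t)) :=
      (continuous_Mo z₀).comp (U_ptcont w₂)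
    exact ((c2.mul (c3.mul c4)).norm.pow 2).mul (U_gwcont τ W)
  have hF0 : ∀ t : ℝ, 0 ≤ ‖riemannZeta (pt w₀ t) *
      (Mo z₀ (pt w₁ t) * Mo z₀ (pt w₂ t))‖ ^ 2 * gw τ W t :=
    fun t => mul_nonneg (sq_nonneg _) (Real.exp_pos _).le
  have hFi : Integrable (fun t : ℝ => ‖riemannZeta (pt w₀ t) *
      (Mo z₀ (pt w₁ t) * Mo z₀ (pt w₂ t))‖ ^ 2 * gw τ W t) := by
    refine Integrable.mono' hsum hFc.aestronglyMeasurable
      (Filter.Eventually.of_forall fun t => ?_)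
    rw [Real.norm_eq_abs, abs_of_nonneg (hF0 t)]
    exact hpt t
  refine ⟨hFi, ?_⟩
  have hle := integral_mono hFi hsum hpt
  rw [integral_add' (ia1.const_mul C4) (ib1.const_mul C4), integral_const_mul,
    integral_const_mul] at hle
  have hle2 := hle.trans (add_le_add (mul_le_mul_of_nonneg_left ia2 hC40.le)
    (mul_le_mul_of_nonneg_left ib2 hC40.le))
  refine hle2.trans ?_
  have hfin : C4 * (B * C4) + C4 * (B * C4) =
      (2 * C4 ^ 2 * Cm) * (Real.exp (2 * Cm * K) * Real.exp (16 * K)) * W * L *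
      ((1 + L * ‖w₀ - w₁‖) ^ 4 * (1 + L * ‖w₀ - w₂‖) ^ 4) * (1 + |τ + w₀.im| / T) ^ N := by
    rw [hB, hA]; ring
  rw [hfin, ← Real.exp_add]
  have hc1 : 2 * C4 ^ 2 * Cm ≤ 2 * C4 ^ 2 * Cm + (2 * Cm + 16) := by linarith
  have hc2 : Real.exp (2 * Cm * K + 16 * K) ≤
      Real.exp ((2 * C4 ^ 2 * Cm + (2 * Cm + 16)) * K) := by
    apply Real.exp_le_exp.mpr
    have : 0 ≤ 2 * C4 ^ 2 * Cm * K := by positivity
    have e1 : (2 * C4 ^ 2 * Cm + (2 * Cm + 16)) * K =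
        2 * C4 ^ 2 * Cm * K + (2 * Cm * K + 16 * K) := by ring
    rw [e1]
    linarith only [this]
  have hc3 := mul_le_mul hc1 hc2 (Real.exp_pos _).le (by positivity)
  exact U_fin _ _ _ _ _ _ _ _ hc3 hW0.le hL0.le (by positivity) (by positivity)

end Pool.Agent.H14.CO

end
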