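import Pool.Agent.H47.B1.M12
import Pool.Agent.H47.B1.M14

/-! The parts of this file: H14.CO.EnSum, H14.CO.Close, H14.CO.GoodC, H14.CO.Good. -/

section

/-!
# CO module EnSum: the discrete mean square at separated points (local version)
-/

set_option autoImplicit false

namespace Pool.Agent.H14.CO

open Set MeasureTheory Complex

/-- the kernel `L e^{-y²} (1+L|y|)^{-32}`. -/
private noncomputable def kk (L y : ℝ) : ℝ := L * Real.exp (-y ^ 2) / (1 + L * |y|) ^ 32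

private theorem kk_nonneg {L : ℝ} (hL : 0 ≤ L) (y : ℝ) : 0 ≤ kk L y := by
  unfold kk
  positivity

private theorem kk_continuous {L : ℝ} (hL : 0 ≤ L) : Continuous (kk L) := by
  unfold kk
  refine Continuous.div (by fun_prop) (by fun_prop) fun y => ?_
  have : 0 ≤ L * |y| := by positivity
  positivity

private theorem ker_le {L G : ℝ} (hL : 1 ≤ L) (_hG : 1 ≤ G) (hGL : (G + 1) / L ≤ 1) {σ : ℝ}
    (h1 : 1 / L ≤ |σ|) (h2 : |σ| ≤ (G + 1) / L) (y : ℝ) :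
    ‖kn L (σ + y * I) / (σ + y * I)‖ ≤
      (2 ^ 32 * Real.exp (32 * (G + 1) + 1)) * kk L y := by
  have hL0 : 0 < L := by linarith
  have hre : ((σ : ℂ) + y * I).re = σ := by simp
  have him : ((σ : ℂ) + y * I).im = y := by simp
  have h3 := norm_kn_le L hL0.le ((σ : ℂ) + y * I)
  rw [hre, him] at h3
  have hy : |y| ≤ ‖(σ : ℂ) + y * I‖ := by
    have := Complex.abs_im_le_norm ((σ : ℂ) + y * I)
    rwa [him] at this
  have hs : |σ| ≤ ‖(σ : ℂ) + y * I‖ := by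
    have := Complex.abs_re_le_norm ((σ : ℂ) + y * I)
    rwa [hre] at this
  have hz : 1 / L ≤ ‖(σ : ℂ) + y * I‖ := h1.trans hs
  have hz0 : 0 < ‖(σ : ℂ) + y * I‖ := lt_of_lt_of_le (by positivity) hz
  have h4 : ‖kn L (σ + y * I)‖ * (1 + L * |y|) ^ 32 ≤
      2 ^ 32 * Real.exp (32 * (G + 1) + 1) * Real.exp (-y ^ 2) := by
    calc ‖kn L (σ + y * I)‖ * (1 + L * |y|) ^ 32
        ≤ ‖kn L (σ + y * I)‖ * (1 + L * ‖(σ : ℂ) + y * I‖) ^ 32 := by gcongr
      _ ≤ 2 ^ 32 * Real.exp (32 * L * |σ| + σ ^ 2 - y ^ 2) := h3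
      _ ≤ 2 ^ 32 * Real.exp ((32 * (G + 1) + 1) + (-y ^ 2)) := by
          have h5 : L * |σ| ≤ G + 1 := by
            have := mul_le_mul_of_nonneg_left h2 hL0.le
            rwa [mul_div_cancel₀ _ hL0.ne'] at this
          have h6 : σ ^ 2 ≤ 1 := by
            rw [← sq_abs]
            have := h2.trans hGL
            nlinarith only [hGL, h2, abs_nonneg σ]
          have h7 : 32 * L * |σ| + σ ^ 2 - y ^ 2 ≤ (32 * (G + 1) + 1) + (-y ^ 2) := by nlinarith only [h5, h6]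
          gcongr
      _ = 2 ^ 32 * Real.exp (32 * (G + 1) + 1) * Real.exp (-y ^ 2) := by
          rw [Real.exp_add]; ring
  have hp : 0 < (1 + L * |y|) ^ 32 := by positivity
  rw [norm_div, div_le_iff₀ hz0]
  have h8 : ‖kn L (σ + y * I)‖ ≤
      2 ^ 32 * Real.exp (32 * (G + 1) + 1) * Real.exp (-y ^ 2) / (1 + L * |y|) ^ 32 := by
    rw [le_div_iff₀ hp]; exact h4
  refine h8.trans ?_
  unfold kk
  have h9 : 1 ≤ L * ‖(σ : ℂ) + y * I‖ := by
    have := mul_le_mul_of_nonneg_left hz hL0.le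
    rwa [mul_one_div_cancel hL0.ne'] at this
  have h10 : 0 ≤ 2 ^ 32 * Real.exp (32 * (G + 1) + 1) * Real.exp (-y ^ 2) / (1 + L * |y|) ^ 32 := by
    positivity
  calc 2 ^ 32 * Real.exp (32 * (G + 1) + 1) * Real.exp (-y ^ 2) / (1 + L * |y|) ^ 32
      ≤ (2 ^ 32 * Real.exp (32 * (G + 1) + 1) * Real.exp (-y ^ 2) / (1 + L * |y|) ^ 32) *
        (L * ‖(σ : ℂ) + y * I‖) := le_mul_of_one_le_right h10 h9
    _ = _ := by ring

private theorem int_inv_sq {L : ℝ} (hL : 0 < L) :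
    Integrable (fun y : ℝ => L * (1 + (L * y) ^ 2)⁻¹) ∧ ∫ y : ℝ, L * (1 + (L * y) ^ 2)⁻¹ = Real.pi := by
  constructor
  · exact ((integrable_inv_one_add_sq.comp_mul_left' hL.ne')).const_mul L
  · rw [integral_const_mul, Measure.integral_comp_mul_left (fun x : ℝ => (1 + x ^ 2)⁻¹) L,
      integral_univ_inv_one_add_sq, abs_of_pos (inv_pos.2 hL), smul_eq_mul, ← mul_assoc,
      mul_inv_cancel₀ hL.ne', one_mul]

private theorem pow_inv_le {L : ℝ} (hL : 0 < L) (y : ℝ) {m : ℕ} (hm : 2 ≤ m) :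
    ((1 + L * |y|) ^ m)⁻¹ ≤ (1 + (L * y) ^ 2)⁻¹ := by
  have h0 : 0 ≤ L * |y| := by positivity
  have h1 : (1 + L * |y|) ^ 2 ≤ (1 + L * |y|) ^ m := pow_le_pow_right₀ (by linarith) hm
  have h2 : (L * y) ^ 2 = (L * |y|) ^ 2 := by rw [mul_pow, mul_pow, sq_abs]
  rw [h2]
  apply inv_anti₀ (by positivity)
  nlinarith only [h0, h1]

private theorem kk_le {L : ℝ} (hL : 0 < L) (y : ℝ) : kk L y ≤ L * (1 + (L * y) ^ 2)⁻¹ := by
  unfold kk
  rw [div_eq_mul_inv]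
  have h1 := pow_inv_le hL y (m := 32) (by norm_num)
  have h2 : Real.exp (-y ^ 2) ≤ 1 := by
    rw [Real.exp_le_one_iff]
    nlinarith only []
  have h3 : 0 ≤ ((1 + L * |y|) ^ 32)⁻¹ := by positivity
  calc L * Real.exp (-y ^ 2) * ((1 + L * |y|) ^ 32)⁻¹ ≤ L * 1 * ((1 + L * |y|) ^ 32)⁻¹ := by gcongr
    _ ≤ L * 1 * (1 + (L * y) ^ 2)⁻¹ := by gcongr
    _ = _ := by ring

private theorem kk_integrable {L : ℝ} (hL : 0 < L) : Integrable (kk L) := by
  refine (int_inv_sq hL).1.mono' (kk_continuous hL.le).aestronglyMeasurable ?_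
  refine Filter.Eventually.of_forall fun y => ?_
  rw [Real.norm_of_nonneg (kk_nonneg hL.le y)]
  exact kk_le hL y

private theorem kk_int {L : ℝ} (hL : 0 < L) : ∫ y : ℝ, kk L y ≤ 4 := by
  have h1 : ∫ y : ℝ, kk L y ≤ ∫ y : ℝ, L * (1 + (L * y) ^ 2)⁻¹ :=
    integral_mono (kk_integrable hL) (int_inv_sq hL).1 fun y => kk_le hL y
  rw [(int_inv_sq hL).2] at h1
  linarith [Real.pi_le_four]

/-- separated points. -/
private theorem sep_sum : ∃ C : ℝ, 0 < C ∧ ∀ (L : ℝ), 0 < L → ∀ (S : Finset ℕ) (t : ℕ → ℝ),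
    (∀ i ∈ S, ∀ j ∈ S, i ≠ j → 1 / L ≤ |t i - t j|) → ∀ u : ℝ,
    ∑ i ∈ S, ((1 + L * |u - t i|) ^ 16)⁻¹ ≤ C := by
  have hs : Summable fun m : ℤ => 4 * ((1 + |(m : ℝ)|) ^ 2)⁻¹ := by
    apply Summable.mul_left
    have h0 : Summable fun n : ℕ => ((1 + |(n : ℝ)|) ^ 2)⁻¹ := by
      have h1 : Summable fun n : ℕ => ((n : ℝ) ^ 2)⁻¹ := Real.summable_nat_pow_inv.2 (by norm_num)
      have h2 := (summable_nat_add_iff 1).2 h1
      refine h2.congr fun n => ?_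
      rw [abs_of_nonneg (Nat.cast_nonneg n)]
      push_cast
      ring
    refine Summable.of_nat_of_neg (by simpa using h0) ?_
    simpa using h0
  refine ⟨(∑' m : ℤ, 4 * ((1 + |(m : ℝ)|) ^ 2)⁻¹) + 1, ?_, ?_⟩
  · have : 0 ≤ ∑' m : ℤ, 4 * ((1 + |(m : ℝ)|) ^ 2)⁻¹ := tsum_nonneg fun m => by positivity
    linarith
  intro L hL S t hsep u
  have hinj : Set.InjOn (fun i => ⌊L * (t i - u)⌋) (S : Set ℕ) := by
    intro i hi j hj hij
    by_contra hne
    have h1 := hsep i hi j hj hne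
    have h2 : |L * (t i - u) - L * (t j - u)| < 1 := Int.abs_sub_lt_one_of_floor_eq_floor hij
    have h3 : L * (t i - u) - L * (t j - u) = L * (t i - t j) := by ring
    rw [h3, abs_mul, abs_of_pos hL] at h2
    have h4 := mul_le_mul_of_nonneg_left h1 hL.le
    rw [mul_one_div_cancel hL.ne'] at h4
    linarith
  have hterm : ∀ i ∈ S, ((1 + L * |u - t i|) ^ 16)⁻¹ ≤
      4 * ((1 + |((⌊L * (t i - u)⌋ : ℤ) : ℝ)|) ^ 2)⁻¹ := by
    intro i _
    have h1 : L * |u - t i| = |L * (t i - u)| := by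
      rw [abs_mul, abs_of_pos hL, abs_sub_comm]
    rw [h1]
    set a := L * (t i - u) with ha
    have h2 : |((⌊a⌋ : ℤ) : ℝ)| ≤ |a| + 1 := by
      have h3 : ((⌊a⌋ : ℤ) : ℝ) ≤ a := Int.floor_le a
      have h4 : a < (⌊a⌋ : ℤ) + 1 := Int.lt_floor_add_one a
      rw [abs_le]
      constructor
      · have := neg_abs_le a
        linarith
      · have := le_abs_self a
        linarith
    have h5 : 0 ≤ |a| := abs_nonneg a
    have h6 : (1 + |a|) ^ 2 ≤ (1 + |a|) ^ 16 := pow_le_pow_right₀ (by linarith) (by norm_num)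
    have h7 : (1 + |((⌊a⌋ : ℤ) : ℝ)|) ^ 2 ≤ 4 * (1 + |a|) ^ 2 := by
      have h8 : 0 ≤ |((⌊a⌋ : ℤ) : ℝ)| := abs_nonneg _
      nlinarith only [h2, h5, h8]
    have h9 : 0 < (1 + |((⌊a⌋ : ℤ) : ℝ)|) ^ 2 := by positivity
    have h10 : 0 < (1 + |a|) ^ 16 := by positivity
    rw [← div_eq_mul_inv, inv_eq_one_div, div_le_div_iff₀ h10 h9]
    nlinarith only [h6, h7]
  calc ∑ i ∈ S, ((1 + L * |u - t i|) ^ 16)⁻¹
      ≤ ∑ i ∈ S, 4 * ((1 + |((⌊L * (t i - u)⌋ : ℤ) : ℝ)|) ^ 2)⁻¹ := Finset.sum_le_sum hterm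
    _ = ∑ m ∈ S.image (fun i => ⌊L * (t i - u)⌋), 4 * ((1 + |(m : ℝ)|) ^ 2)⁻¹ :=
        (Finset.sum_image (f := fun m : ℤ => 4 * ((1 + |(m : ℝ)|) ^ 2)⁻¹) hinj).symm
    _ ≤ ∑' m : ℤ, 4 * ((1 + |(m : ℝ)|) ^ 2)⁻¹ := hs.sum_le_tsum _ fun m _ => by positivity
    _ ≤ _ := by linarith

private theorem ofReal_integral_le (f : ℝ → ℝ) (hf : ∀ y, 0 ≤ f y) :
    ENNReal.ofReal (∫ y, f y) ≤ ∫⁻ y, ENNReal.ofReal (f y) := by
  by_cases h : Integrable f
  · rw [ofReal_integral_eq_lintegral_ofReal h (Filter.Eventually.of_forall hf)]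
  · rw [integral_undef h, ENNReal.ofReal_zero]
    exact zero_le

/-- `interp` with `lm = 0`, `h = L`. -/
private theorem point {L G : ℝ} (hL : 1 ≤ L) (hG : 1 ≤ G) (hGL : (G + 1) / L ≤ 1) (F : ℂ → ℂ)
    (a b : ℝ) (hF : ∀ z : ℂ, a ≤ z.re → z.re ≤ b → DifferentiableAt ℂ F z) (A : ℝ) (k : ℕ)
    (hA : ∀ z : ℂ, a ≤ z.re → z.re ≤ b → ‖F z‖ ≤ A * (1 + |z.im|) ^ k) (w : ℂ)
    (h1 : 1 / L ≤ w.re - a) (h2 : w.re - a ≤ (G + 1) / L)
    (h3 : 1 / L ≤ b - w.re) (h4 : b - w.re ≤ (G + 1) / L) :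
    ENNReal.ofReal (‖F w‖ ^ 2) ≤
      ENNReal.ofReal (4 * (2 ^ 32 * Real.exp (32 * (G + 1) + 1)) ^ 2) *
        ((∫⁻ y : ℝ, ENNReal.ofReal (kk L y * ‖F (a + (w.im + y) * I)‖ ^ 2)) +
          ∫⁻ y : ℝ, ENNReal.ofReal (kk L y * ‖F (b + (w.im + y) * I)‖ ^ 2)) := by
  have hL0 : 0 < L := by linarith
  have hLi : 0 < 1 / L := by positivity
  have h5 := interp F a b hF A k hA L 0 hL0 w (by linarith) (by linarith)
  set C₁ := 2 ^ 32 * Real.exp (32 * (G + 1) + 1) with hC₁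
  have hC₁0 : 0 ≤ C₁ := by positivity
  simp only [mul_zero, zero_mul, Real.exp_zero, one_mul] at h5
  -- one side
  have side : ∀ (σ c : ℝ), 1 / L ≤ |σ| → |σ| ≤ (G + 1) / L →
      ENNReal.ofReal ((∫ y : ℝ, ‖kn L ((σ : ℝ) + y * I) / ((σ : ℝ) + y * I)‖) *
        ∫ y : ℝ, ‖kn L ((σ : ℝ) + y * I) / ((σ : ℝ) + y * I)‖ *
          ‖F (c + (w.im + y) * I)‖ ^ 2) ≤
      ENNReal.ofReal (4 * C₁ ^ 2) *
        ∫⁻ y : ℝ, ENNReal.ofReal (kk L y * ‖F (c + (w.im + y) * I)‖ ^ 2) := by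
    intro σ c hσ1 hσ2
    have hk : ∀ y : ℝ, ‖kn L ((σ : ℝ) + y * I) / ((σ : ℝ) + y * I)‖ ≤ C₁ * kk L y :=
      fun y => ker_le hL hG hGL hσ1 hσ2 y
    have hP : ∫ y : ℝ, ‖kn L ((σ : ℝ) + y * I) / ((σ : ℝ) + y * I)‖ ≤ 4 * C₁ := by
      calc ∫ y : ℝ, ‖kn L ((σ : ℝ) + y * I) / ((σ : ℝ) + y * I)‖
          ≤ ∫ y : ℝ, C₁ * kk L y :=
            integral_mono_of_nonneg (Filter.Eventually.of_forall fun y => norm_nonneg _)
              ((kk_integrable hL0).const_mul C₁) (Filter.Eventually.of_forall hk)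
        _ = C₁ * ∫ y : ℝ, kk L y := integral_const_mul _ _
        _ ≤ C₁ * 4 := by gcongr; exact kk_int hL0
        _ = 4 * C₁ := by ring
    set Q := ∫ y : ℝ, ‖kn L ((σ : ℝ) + y * I) / ((σ : ℝ) + y * I)‖ *
          ‖F (c + (w.im + y) * I)‖ ^ 2 with hQ
    have hQ0 : 0 ≤ Q := integral_nonneg fun y => by positivity
    calc ENNReal.ofReal ((∫ y : ℝ, ‖kn L ((σ : ℝ) + y * I) / ((σ : ℝ) + y * I)‖) * Q)
        ≤ ENNReal.ofReal (4 * C₁ * Q) :=
          ENNReal.ofReal_le_ofReal (mul_le_mul_of_nonneg_right hP hQ0)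
      _ = ENNReal.ofReal (4 * C₁) * ENNReal.ofReal Q := ENNReal.ofReal_mul (by positivity)
      _ ≤ ENNReal.ofReal (4 * C₁) * ∫⁻ y : ℝ, ENNReal.ofReal
            (‖kn L ((σ : ℝ) + y * I) / ((σ : ℝ) + y * I)‖ * ‖F (c + (w.im + y) * I)‖ ^ 2) := by
          gcongr
          exact ofReal_integral_le _ fun y => by positivity
      _ ≤ ENNReal.ofReal (4 * C₁) * ∫⁻ y : ℝ, ENNReal.ofReal C₁ * ENNReal.ofReal
            (kk L y * ‖F (c + (w.im + y) * I)‖ ^ 2) := by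
          gcongr with y
          rw [← ENNReal.ofReal_mul hC₁0]
          apply ENNReal.ofReal_le_ofReal
          calc ‖kn L ((σ : ℝ) + y * I) / ((σ : ℝ) + y * I)‖ * ‖F (c + (w.im + y) * I)‖ ^ 2
              ≤ (C₁ * kk L y) * ‖F (c + (w.im + y) * I)‖ ^ 2 :=
                mul_le_mul_of_nonneg_right (hk y) (by positivity)
            _ = _ := by ring
      _ = ENNReal.ofReal (4 * C₁) * (ENNReal.ofReal C₁ * ∫⁻ y : ℝ, ENNReal.ofReal
            (kk L y * ‖F (c + (w.im + y) * I)‖ ^ 2)) := by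
          rw [lintegral_const_mul' _ _ ENNReal.ofReal_ne_top]
      _ = ENNReal.ofReal (4 * C₁ ^ 2) * ∫⁻ y : ℝ, ENNReal.ofReal
            (kk L y * ‖F (c + (w.im + y) * I)‖ ^ 2) := by
          rw [← mul_assoc, ← ENNReal.ofReal_mul (by positivity)]
          congr 2
          ring
  have ea : |a - w.re| = w.re - a := by
    rw [abs_of_nonpos (by linarith only [h1, hLi])]; ring
  have eb : |b - w.re| = b - w.re := abs_of_nonneg (by linarith only [h3, hLi])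
  calc ENNReal.ofReal (‖F w‖ ^ 2) ≤ _ := ENNReal.ofReal_le_ofReal h5
    _ ≤ _ := ENNReal.ofReal_add_le
    _ ≤ _ := add_le_add (side (a - w.re) a (by rw [ea]; exact h1) (by rw [ea]; exact h2))
        (side (b - w.re) b (by rw [eb]; exact h3) (by rw [eb]; exact h4))
    _ = _ := by rw [mul_add]

/-- growth of `ζ` in the strip `1/2 ≤ Re s ≤ 3/4`. -/
private theorem zeta_strip_p : ∃ A : ℝ, 0 < A ∧ ∀ s : ℂ, 1 / 2 ≤ s.re → s.re ≤ 3 / 4 →
    ‖riemannZeta s‖ ≤ A * (1 + |s.im|) ^ 4 := by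
  obtain ⟨C, hC, h⟩ := Zt_growth 1 le_rfl
  refine ⟨64 * C, by positivity, fun s h1 h2 => ?_⟩
  have hs : s ≠ 1 := by
    intro h3
    rw [h3] at h2
    norm_num at h2
  have h4 := h s (by linarith)
  rw [Zt_eq s hs, norm_mul] at h4
  have h5 : 1 / 4 ≤ ‖s - 1‖ := by
    have h6 := Complex.abs_re_le_norm (s - 1)
    rw [Complex.sub_re, Complex.one_re, abs_of_nonpos (by linarith only [h2])] at h6
    linarith
  have h7 : ‖s‖ ≤ 1 + |s.im| := by
    have := Complex.norm_le_abs_re_add_abs_im s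
    rw [abs_of_nonneg (by linarith : (0 : ℝ) ≤ s.re)] at this
    linarith
  have h8 : (1 + ‖s‖) ^ ((1 : ℝ) + 3) ≤ 16 * (1 + |s.im|) ^ 4 := by
    have h9 : ((1 : ℝ) + 3) = ((4 : ℕ) : ℝ) := by norm_num
    rw [h9, Real.rpow_natCast]
    calc (1 + ‖s‖) ^ 4 ≤ (2 * (1 + |s.im|)) ^ 4 := by
          gcongr
          nlinarith only [h7, abs_nonneg s.im]
      _ = 16 * (1 + |s.im|) ^ 4 := by ring
  have h10 : 1 / 4 * ‖riemannZeta s‖ ≤ C * (16 * (1 + |s.im|) ^ 4) :=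
    calc 1 / 4 * ‖riemannZeta s‖ ≤ ‖s - 1‖ * ‖riemannZeta s‖ := by gcongr
      _ ≤ C * (1 + ‖s‖) ^ ((1 : ℝ) + 3) := h4
      _ ≤ _ := by gcongr
  linarith only [h10]

private theorem zeta_diff (s : ℂ) (h : s.re ≤ 3 / 4) : DifferentiableAt ℂ riemannZeta s := by
  apply differentiableAt_riemannZeta
  intro h3
  rw [h3] at h
  norm_num at h

private theorem Mo_diff (z₀ : ℝ) : Differentiable ℂ (Mo z₀) := by
  unfold Mo
  refine Differentiable.fun_sum fun d hd => ?_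
  have hd1 : 1 ≤ d := (Finset.mem_Icc.1 hd).1
  have hd0 : (d : ℂ) ≠ 0 := by
    have : d ≠ 0 := by omega
    exact_mod_cast this
  refine Differentiable.const_mul ?_ _
  intro s
  exact (differentiableAt_id.neg).const_cpow (Or.inl hd0)

private theorem Mo_bdd (z₀ : ℝ) : ∃ A : ℝ, 0 ≤ A ∧ ∀ s : ℂ, 0 ≤ s.re → ‖Mo z₀ s‖ ≤ A := by
  refine ⟨∑ d ∈ Finset.Icc 1 ⌊z₀ ^ 2⌋₊, |lam z₀ d|, Finset.sum_nonneg fun d _ => abs_nonneg _,
    fun s hs => ?_⟩
  unfold Mo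
  refine (norm_sum_le _ _).trans (Finset.sum_le_sum fun d hd => ?_)
  have hd1 : 1 ≤ d := (Finset.mem_Icc.1 hd).1
  rw [norm_mul, Complex.norm_real, Real.norm_eq_abs]
  have h1 : ‖(d : ℂ) ^ (-s)‖ ≤ 1 := by
    rw [Complex.norm_natCast_cpow_of_pos (by omega), Complex.neg_re]
    exact Real.rpow_le_one_of_one_le_of_nonpos (by exact_mod_cast hd1) (by linarith)
  calc |lam z₀ d| * ‖(d : ℂ) ^ (-s)‖ ≤ |lam z₀ d| * 1 := by gcongr
    _ = _ := mul_one _

/-- the product of two kernels, algebra. -/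
private theorem kprod_alg {g X P Q a b c d : ℝ} (hg : 1 ≤ g) (hX : 1 ≤ X) (hP : 1 ≤ P)
    (hQ : 1 ≤ Q) (hden : X ≤ g * (Q * P)) (ha : 0 ≤ a) (hd : 0 ≤ d) (hb : a ≤ b * (c * d))
    (hbc : 0 ≤ b * (c * d)) (L : ℝ) :
    L ^ 2 * a * ((Q ^ 32 * P ^ 32)⁻¹) ≤
      (g ^ 16 * b) * (L ^ 2 * (X ^ 16)⁻¹ * c) * ((P ^ 16)⁻¹ * d) := by
  have hg0 : 0 < g := by linarith
  have hX0 : 0 < X := by linarith
  have hP0 : 0 < P := by linarith
  have hQ0 : 0 < Q := by linarith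
  have h1 : X ^ 16 * P ^ 16 ≤ g ^ 16 * (Q ^ 32 * P ^ 32) := by
    have h2 : X ^ 16 ≤ (g * (Q * P)) ^ 16 := pow_le_pow_left₀ hX0.le hden 16
    have h3 : Q ^ 16 ≤ Q ^ 32 := pow_le_pow_right₀ hQ (by norm_num)
    calc X ^ 16 * P ^ 16 ≤ (g * (Q * P)) ^ 16 * P ^ 16 := by gcongr
      _ = g ^ 16 * (Q ^ 16 * (P ^ 16 * P ^ 16)) := by rw [mul_pow, mul_pow]; ring
      _ ≤ g ^ 16 * (Q ^ 32 * (P ^ 16 * P ^ 16)) := by gcongr
      _ = _ := by rw [← pow_add]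
  have hinv : (Q ^ 32 * P ^ 32)⁻¹ ≤ g ^ 16 * (X ^ 16 * P ^ 16)⁻¹ := by
    rw [inv_eq_one_div, ← div_eq_mul_inv, div_le_div_iff₀ (by positivity) (by positivity), one_mul]
    exact h1
  calc L ^ 2 * a * ((Q ^ 32 * P ^ 32)⁻¹)
      ≤ L ^ 2 * (b * (c * d)) * (g ^ 16 * (X ^ 16 * P ^ 16)⁻¹) := by gcongr
    _ = _ := by
        rw [mul_inv]
        ring

/-- the product of two kernels. -/
private theorem kprod {L G : ℝ} (hL : 1 ≤ L) (hG : 1 ≤ G) {δ : ℝ} (hδ : |δ| ≤ G / L) (p x : ℝ) :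
    kk L p * kk L (p + x - δ) ≤
      ((1 + G) ^ 16 * Real.exp (G ^ 2)) * (L ^ 2 * ((1 + L * |x|) ^ 16)⁻¹ * Real.exp (-x ^ 2 / 6)) *
        (((1 + L * |p|) ^ 16)⁻¹ * Real.exp (-p ^ 2 / 2)) := by
  have hL0 : 0 < L := by linarith
  set q := p + x - δ with hq
  have hδG : |δ| ≤ G := hδ.trans (div_le_self (by linarith) hL)
  have hLδ : L * |δ| ≤ G := by
    have := mul_le_mul_of_nonneg_left hδ hL0.le
    rwa [mul_div_cancel₀ _ hL0.ne'] at this
  have hx : x = q - p + δ := by rw [hq]; ring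
  have habs : |x| ≤ |q| + |p| + |δ| := by
    rw [hx]
    calc |q - p + δ| ≤ |q - p| + |δ| := abs_add_le _ _
      _ ≤ |q| + |p| + |δ| := by
        have := abs_sub q p
        linarith
  -- denominators
  have h2 : 0 ≤ L * |q| := by positivity
  have h3 : 0 ≤ L * |p| := by positivity
  have h3' : 0 ≤ L * |x| := by positivity
  have hden : (1 + L * |x|) ≤ (1 + G) * ((1 + L * |q|) * (1 + L * |p|)) := by
    have h1 : L * |x| ≤ L * |q| + L * |p| + G := by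
      calc L * |x| ≤ L * (|q| + |p| + |δ|) := by gcongr
        _ = L * |q| + L * |p| + L * |δ| := by ring
        _ ≤ _ := by linarith
    nlinarith only [h2, h1, mul_nonneg h2 h3, mul_nonneg (by linarith : (0:ℝ) ≤ G) h2, mul_nonneg (by linarith : (0:ℝ) ≤ G) h3, mul_nonneg (by linarith : (0:ℝ) ≤ G) (mul_nonneg h2 h3)]
  have hexp : Real.exp (-p ^ 2) * Real.exp (-q ^ 2) ≤
      Real.exp (G ^ 2) * (Real.exp (-x ^ 2 / 6) * Real.exp (-p ^ 2 / 2)) := by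
    rw [← Real.exp_add, ← Real.exp_add, ← Real.exp_add]
    apply Real.exp_le_exp.2
    have h1 : x ^ 2 ≤ 3 * (q ^ 2 + p ^ 2 + δ ^ 2) := by
      rw [hx]
      nlinarith only [sq_nonneg (q + p), sq_nonneg (q - δ), sq_nonneg (p + δ)]
    have h2 : δ ^ 2 ≤ G ^ 2 := by
      rw [← sq_abs]
      exact pow_le_pow_left₀ (abs_nonneg _) hδG 2
    nlinarith only [h1, h2, sq_nonneg q, sq_nonneg G]
  have h4 := kprod_alg (g := 1 + G) (X := 1 + L * |x|) (P := 1 + L * |p|) (Q := 1 + L * |q|)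
    (a := Real.exp (-p ^ 2) * Real.exp (-q ^ 2)) (b := Real.exp (G ^ 2))
    (c := Real.exp (-x ^ 2 / 6)) (d := Real.exp (-p ^ 2 / 2)) (by linarith) (by linarith)
    (by linarith) (by linarith) hden (by positivity) (by positivity) hexp (by positivity) L
  refine le_trans (le_of_eq ?_) h4
  unfold kk
  rw [div_mul_div_comm, div_eq_mul_inv, mul_comm ((1 + L * |p|) ^ 32)]
  congr 1
  ring

/-- the Gaussian weight. -/
private theorem gauss_le {τ W t u : ℝ} (hW : 1 ≤ W) (ht : |t - τ| ≤ W) :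
    Real.exp (-(u - t) ^ 2 / 2) ≤ 3 * gw τ (4 * W) u := by
  unfold gw
  have h1 : (u - τ) ^ 2 ≤ 2 * (u - t) ^ 2 + 2 * W ^ 2 := by
    have h2 : (t - τ) ^ 2 ≤ W ^ 2 := by
      rw [← sq_abs]
      exact pow_le_pow_left₀ (abs_nonneg _) ht 2
    nlinarith [sq_nonneg ((u - t) - (t - τ))]
  have h3 : ((u - τ) / (4 * W)) ^ 2 ≤ (u - t) ^ 2 / 2 + 1 := by
    rw [div_pow, div_le_iff₀ (by positivity)]
    nlinarith only [h1, sq_nonneg (u - t), mul_nonneg (sq_nonneg (u - t)) (by nlinarith : (0:ℝ) ≤ W ^ 2 - 1), sq_nonneg W]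
  calc Real.exp (-(u - t) ^ 2 / 2) ≤ Real.exp (1 + -((u - τ) / (4 * W)) ^ 2) := by
        apply Real.exp_le_exp.2
        linarith only [h3]
    _ = Real.exp 1 * Real.exp (-((u - τ) / (4 * W)) ^ 2) := Real.exp_add _ _
    _ ≤ 3 * Real.exp (-((u - τ) / (4 * W)) ^ 2) := by
        gcongr
        exact Real.exp_one_lt_three.le

private theorem poly_gauss_aux (n : ℕ) : ∃ C : ℝ, 0 < C ∧ ∀ x : ℝ,
    (1 + |x|) ^ n * Real.exp (-x ^ 2 / 6) ≤ C := by
  refine ⟨(Nat.factorial n : ℝ) * Real.exp (5 / 2), by positivity, fun x => ?_⟩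
  have h1 := Real.pow_div_factorial_le_exp (x := 1 + |x|) (by positivity) n
  rw [div_le_iff₀ (by positivity)] at h1
  calc (1 + |x|) ^ n * Real.exp (-x ^ 2 / 6)
      ≤ (Real.exp (1 + |x|) * (Nat.factorial n : ℝ)) * Real.exp (-x ^ 2 / 6) := by gcongr
    _ = (Nat.factorial n : ℝ) * Real.exp ((1 + |x|) + -x ^ 2 / 6) := by
        rw [Real.exp_add (1 + |x|) (-x ^ 2 / 6)]; ring
    _ ≤ _ := by
        gcongr
        have : x ^ 2 = |x| ^ 2 := (sq_abs x).symm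
        nlinarith only [this, sq_nonneg (|x| - 3)]

private theorem poly_gauss : ∃ C : ℝ, 0 < C ∧ ∀ x : ℝ,
    (1 + |x|) ^ 301 * Real.exp (-x ^ 2 / 6) ≤ C := poly_gauss_aux 301

/-- the sum over the points of the products of two kernels. -/
private theorem sum_kprod : ∃ C : ℝ, 0 < C ∧ ∀ (L G : ℝ), 1 ≤ L → 1 ≤ G → ∀ τ W : ℝ, 1 ≤ W →
    ∀ (S : Finset ℕ) (t r : ℕ → ℝ), (∀ i ∈ S, |t i - τ| ≤ W ∧ |r i - t i| ≤ G / L) →
    (∀ i ∈ S, ∀ j ∈ S, i ≠ j → 1 / L ≤ |t i - t j|) → ∀ u x : ℝ,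
    ∑ i ∈ S, kk L (u - t i) * kk L (x + (u - r i)) ≤
      (C * ((1 + G) ^ 16 * Real.exp (G ^ 2))) *
        (L ^ 2 * ((1 + L * |x|) ^ 16)⁻¹ * Real.exp (-x ^ 2 / 6)) * gw τ (4 * W) u := by
  obtain ⟨C, hC, h⟩ := sep_sum
  refine ⟨3 * C, by positivity, fun L G hL hG τ W hW S t r hS hsep u x => ?_⟩
  have hL0 : 0 < L := by linarith
  have hgw : 0 ≤ gw τ (4 * W) u := (Real.exp_pos _).le
  set E := ((1 + G) ^ 16 * Real.exp (G ^ 2)) with hE
  set D := (L ^ 2 * ((1 + L * |x|) ^ 16)⁻¹ * Real.exp (-x ^ 2 / 6)) with hD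
  have hE0 : 0 ≤ E := by positivity
  have hD0 : 0 ≤ D := by positivity
  have h1 : ∀ i ∈ S, kk L (u - t i) * kk L (x + (u - r i)) ≤
      (E * D * (3 * gw τ (4 * W) u)) * ((1 + L * |u - t i|) ^ 16)⁻¹ := by
    intro i hi
    have h2 := kprod hL hG (hS i hi).2 (u - t i) x
    have e1 : u - t i + x - (r i - t i) = x + (u - r i) := by ring
    rw [e1] at h2
    refine h2.trans ?_
    have h3 := gauss_le (u := u) hW (hS i hi).1
    have h4 : 0 ≤ ((1 + L * |u - t i|) ^ 16)⁻¹ := by positivity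
    calc E * D * (((1 + L * |u - t i|) ^ 16)⁻¹ * Real.exp (-(u - t i) ^ 2 / 2))
        ≤ E * D * (((1 + L * |u - t i|) ^ 16)⁻¹ * (3 * gw τ (4 * W) u)) := by gcongr
      _ = _ := by ring
  calc ∑ i ∈ S, kk L (u - t i) * kk L (x + (u - r i))
      ≤ ∑ i ∈ S, (E * D * (3 * gw τ (4 * W) u)) * ((1 + L * |u - t i|) ^ 16)⁻¹ :=
        Finset.sum_le_sum h1
    _ = (E * D * (3 * gw τ (4 * W) u)) * ∑ i ∈ S, ((1 + L * |u - t i|) ^ 16)⁻¹ :=
        (Finset.mul_sum _ _ _).symm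
    _ ≤ (E * D * (3 * gw τ (4 * W) u)) * C := by
        gcongr
        exact h L hL0 S t hsep u
    _ = _ := by ring

private theorem gw_continuous (τ W : ℝ) : Continuous (gw τ W) := by
  unfold gw
  fun_prop

/-- exchange of the order of integration. -/
private theorem tonelli {C L τ W : ℝ} (hC : 0 ≤ C) (hL : 1 ≤ L) (S : Finset ℕ) (t r : ℕ → ℝ)
    (hk : ∀ u x : ℝ, ∑ i ∈ S, kk L (u - t i) * kk L (x + (u - r i)) ≤
      C * (L ^ 2 * ((1 + L * |x|) ^ 16)⁻¹ * Real.exp (-x ^ 2 / 6)) * gw τ (4 * W) u)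
    (Z N : ℝ → ℝ) (hZ : Continuous Z) (hN : Continuous N) (hZ0 : ∀ y, 0 ≤ Z y)
    (hN0 : ∀ y, 0 ≤ N y) (v : ℝ) :
    ∑ i ∈ S, (∫⁻ y : ℝ, ENNReal.ofReal (kk L y * Z (r i + v + y))) *
        (∫⁻ y : ℝ, ENNReal.ofReal (kk L y * N (t i + y))) ≤
      ∫⁻ x : ℝ, ENNReal.ofReal (C * (L ^ 2 * ((1 + L * |x|) ^ 16)⁻¹ * Real.exp (-x ^ 2 / 6))) *
        ∫⁻ u : ℝ, ENNReal.ofReal (Z (u + (v + x)) * N u * gw τ (4 * W) u) := by
  have hL0 : 0 ≤ L := by linarith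
  have hkc := kk_continuous hL0
  have hgc := gw_continuous τ (4 * W)
  have h1 : ∀ i, (∫⁻ y : ℝ, ENNReal.ofReal (kk L y * Z (r i + v + y))) *
        (∫⁻ y : ℝ, ENNReal.ofReal (kk L y * N (t i + y))) =
      ∫⁻ u : ℝ, ENNReal.ofReal (kk L (u - t i) * N u) *
        ∫⁻ y : ℝ, ENNReal.ofReal (kk L y * Z (r i + v + y)) := by
    intro i
    have h2 : (∫⁻ y : ℝ, ENNReal.ofReal (kk L y * N (t i + y))) =
        ∫⁻ u : ℝ, ENNReal.ofReal (kk L (u - t i) * N u) := by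
      rw [← lintegral_sub_right_eq_self _ (t i)]
      congr 1
      ext u
      rw [add_sub_cancel]
    rw [h2, mul_comm, lintegral_mul_const]
    exact (by fun_prop : Continuous fun u => kk L (u - t i) * N u).measurable.ennreal_ofReal
  have h3 : ∀ i (u : ℝ), (∫⁻ y : ℝ, ENNReal.ofReal (kk L y * Z (r i + v + y))) =
      ∫⁻ x : ℝ, ENNReal.ofReal (kk L (x + (u - r i)) * Z (u + (v + x))) := by
    intro i u
    rw [← lintegral_add_right_eq_self _ (u - r i)]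
    congr 1
    ext x
    congr 3
    ring
  calc ∑ i ∈ S, (∫⁻ y : ℝ, ENNReal.ofReal (kk L y * Z (r i + v + y))) *
        (∫⁻ y : ℝ, ENNReal.ofReal (kk L y * N (t i + y)))
      = ∑ i ∈ S, ∫⁻ u : ℝ, ENNReal.ofReal (kk L (u - t i) * N u) *
        ∫⁻ y : ℝ, ENNReal.ofReal (kk L y * Z (r i + v + y)) := Finset.sum_congr rfl fun i _ => h1 i
    _ = ∫⁻ u : ℝ, ∑ i ∈ S, ENNReal.ofReal (kk L (u - t i) * N u) *
        ∫⁻ y : ℝ, ENNReal.ofReal (kk L y * Z (r i + v + y)) := by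
        rw [lintegral_finsetSum]
        intro i _
        exact ((by fun_prop : Continuous fun u => kk L (u - t i) * N u).measurable.ennreal_ofReal).mul_const _
    _ ≤ ∫⁻ u : ℝ, ∫⁻ x : ℝ, ENNReal.ofReal
          (C * (L ^ 2 * ((1 + L * |x|) ^ 16)⁻¹ * Real.exp (-x ^ 2 / 6))) *
          ENNReal.ofReal (Z (u + (v + x)) * N u * gw τ (4 * W) u) := by
        refine lintegral_mono fun u => ?_
        have h4 : ∑ i ∈ S, ENNReal.ofReal (kk L (u - t i) * N u) *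
            ∫⁻ y : ℝ, ENNReal.ofReal (kk L y * Z (r i + v + y)) =
            ∫⁻ x : ℝ, ∑ i ∈ S, ENNReal.ofReal (kk L (u - t i) * N u) *
              ENNReal.ofReal (kk L (x + (u - r i)) * Z (u + (v + x))) := by
          rw [lintegral_finsetSum]
          · refine Finset.sum_congr rfl fun i _ => ?_
            rw [h3 i u, lintegral_const_mul' _ _ ENNReal.ofReal_ne_top]
          · intro i _
            exact ((by fun_prop : Continuous fun x => kk L (x + (u - r i)) *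
              Z (u + (v + x))).measurable.ennreal_ofReal).const_mul _
        show ∑ i ∈ S, ENNReal.ofReal (kk L (u - t i) * N u) *
            ∫⁻ y : ℝ, ENNReal.ofReal (kk L y * Z (r i + v + y)) ≤ _
        rw [h4]
        refine lintegral_mono fun x => ?_
        show ∑ i ∈ S, ENNReal.ofReal (kk L (u - t i) * N u) *
              ENNReal.ofReal (kk L (x + (u - r i)) * Z (u + (v + x))) ≤ _
        have h5 : ∀ i ∈ S, ENNReal.ofReal (kk L (u - t i) * N u) *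
              ENNReal.ofReal (kk L (x + (u - r i)) * Z (u + (v + x))) =
            ENNReal.ofReal ((kk L (u - t i) * kk L (x + (u - r i))) * (Z (u + (v + x)) * N u)) := by
          intro i _
          rw [← ENNReal.ofReal_mul (mul_nonneg (kk_nonneg hL0 _) (hN0 _))]
          congr 1
          ring
        rw [Finset.sum_congr rfl h5, ← ENNReal.ofReal_sum_of_nonneg
          (fun i _ => mul_nonneg (mul_nonneg (kk_nonneg hL0 _) (kk_nonneg hL0 _))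
            (mul_nonneg (hZ0 _) (hN0 _))),
          ← ENNReal.ofReal_mul (by positivity), ← Finset.sum_mul]
        apply ENNReal.ofReal_le_ofReal
        calc (∑ i ∈ S, kk L (u - t i) * kk L (x + (u - r i))) * (Z (u + (v + x)) * N u)
            ≤ (C * (L ^ 2 * ((1 + L * |x|) ^ 16)⁻¹ * Real.exp (-x ^ 2 / 6)) * gw τ (4 * W) u) *
              (Z (u + (v + x)) * N u) :=
              mul_le_mul_of_nonneg_right (hk u x) (mul_nonneg (hZ0 _) (hN0 _))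
          _ = _ := by ring
    _ = ∫⁻ x : ℝ, ∫⁻ u : ℝ, ENNReal.ofReal
          (C * (L ^ 2 * ((1 + L * |x|) ^ 16)⁻¹ * Real.exp (-x ^ 2 / 6))) *
          ENNReal.ofReal (Z (u + (v + x)) * N u * gw τ (4 * W) u) := by
        refine lintegral_lintegral_swap ?_
        have hden : Continuous fun p : ℝ × ℝ => ((1 + L * |p.2|) ^ 16)⁻¹ := by
          refine Continuous.inv₀ (by fun_prop) fun p => ?_
          have : 0 ≤ L * |p.2| := by positivity
          positivity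
        have hA : Continuous fun p : ℝ × ℝ =>
            C * (L ^ 2 * ((1 + L * |p.2|) ^ 16)⁻¹ * Real.exp (-p.2 ^ 2 / 6)) := by
          have : Continuous fun p : ℝ × ℝ => Real.exp (-p.2 ^ 2 / 6) := by fun_prop
          fun_prop
        have hB : Continuous fun p : ℝ × ℝ => Z (p.1 + (v + p.2)) * N p.1 * gw τ (4 * W) p.1 := by
          fun_prop
        exact (hA.measurable.ennreal_ofReal.mul hB.measurable.ennreal_ofReal).aemeasurable
    _ = _ := by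
        refine lintegral_congr fun x => ?_
        rw [lintegral_const_mul' _ _ ENNReal.ofReal_ne_top]

private theorem alg1 {κ a b c : ℝ} (hκ : 0 ≤ κ) (ha : 0 ≤ a) (h : b ≤ κ + a) :
    1 + b ≤ (1 + κ) * (1 + a) := by
  nlinarith [mul_nonneg hκ ha]

private theorem alg2 {κ a b c : ℝ} (hκ : 0 ≤ κ) (ha : 0 ≤ a) (hc : 0 ≤ c) (h : b ≤ κ + (c + a)) :
    1 + b ≤ (1 + κ) * ((1 + c) * (1 + a)) := by
  nlinarith [mul_nonneg hκ ha, mul_nonneg hκ hc, mul_nonneg hc ha,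
    mul_nonneg hκ (mul_nonneg hc ha)]

private theorem alg3 {a b c : ℝ} (ha : 0 ≤ a) (hc : 0 ≤ c) (h : b ≤ 3 + (c + a)) :
    1 + b ≤ 4 * ((1 + c) * (1 + a)) := by
  nlinarith [mul_nonneg hc ha]

private theorem alg4 (C L X16 e B k X Zn Y V c4 : ℝ) (n : ℕ) (hc4 : c4 = 4 ^ n) :
    C * (L ^ 2 * X16 * e) * (B * ((k * X) ^ 4 * (k * (Zn * X)) ^ 4) * (4 * (Y * V)) ^ n) =
    (C * B * k ^ 8 * Zn ^ 4 * L ^ 2) * (X16 * X ^ 8) * ((c4 * Y ^ n) * (V ^ n * e)) := by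
  rw [mul_pow 4 (Y * V) n, mul_pow Y V n, ← hc4]
  generalize Y ^ n = y
  generalize V ^ n = v
  ring

private theorem alg5 (C L q B k Zn y Cp c4 : ℝ) :
    (C * B * k ^ 8 * Zn ^ 4 * L ^ 2) * q * ((c4 * y) * Cp) =
    (C * Cp * (B * k ^ 8 * c4) * L * (Zn ^ 4 * y)) * (L * q) := by
  ring

/-- the bound for one pair of lines. -/
private theorem pair_bound {z₀ B K T τ W L κ C Cp : ℝ} {z : ℂ} (n : ℕ) (hL : 1 ≤ L) (hT : 1 ≤ T)
    (hτ : |τ| ≤ 3 * T) (hC : 0 ≤ C) (hB : 0 ≤ B) (hκ : 0 ≤ κ)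
    (hCp : ∀ x : ℝ, (1 + |x|) ^ n * Real.exp (-x ^ 2 / 6) ≤ Cp)
    (hU : ∀ w₀ w₁ w₂ : ℂ, |w₀.re| ≤ K / L → |w₁.re| ≤ K / L → |w₂.re| ≤ K / L →
      Integrable (fun t : ℝ => ‖riemannZeta (pt w₀ t) * (Mo z₀ (pt w₁ t) * Mo z₀ (pt w₂ t))‖ ^ 2 *
        gw τ (4 * W) t) ∧
      ∫ t : ℝ, ‖riemannZeta (pt w₀ t) * (Mo z₀ (pt w₁ t) * Mo z₀ (pt w₂ t))‖ ^ 2 * gw τ (4 * W) t
        ≤ B * ((1 + L * ‖w₀ - w₁‖) ^ 4 * (1 + L * ‖w₀ - w₂‖) ^ 4) *
          (1 + |τ + w₀.im| / T) ^ n)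
    (σ σ' : ℝ) (h0 : |σ - 1 / 2| ≤ K / L) (h1 : |σ' - 1 / 2 + z.re| ≤ K / L)
    (h2 : |σ' - 1 / 2| ≤ K / L) (h3 : |σ - σ' - z.re| ≤ κ / L) (h4 : |σ - σ'| ≤ κ / L) :
    ∫⁻ x : ℝ, ENNReal.ofReal (C * (L ^ 2 * ((1 + L * |x|) ^ 16)⁻¹ * Real.exp (-x ^ 2 / 6))) *
        ∫⁻ u : ℝ, ENNReal.ofReal (‖riemannZeta (σ + ((u + (z.im + x) : ℝ) : ℂ) * I)‖ ^ 2 *
          ‖Mo z₀ (σ' + (u : ℂ) * I + z) * Mo z₀ (σ' + (u : ℂ) * I)‖ ^ 2 * gw τ (4 * W) u) ≤
      ENNReal.ofReal ((C * Cp * (B * (1 + κ) ^ 8 * (4 : ℝ) ^ n)) * (4 * L) *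
        ((1 + L * ‖z‖) ^ 4 * (1 + ‖z‖) ^ n)) := by
  have hL0 : 0 < L := by linarith
  obtain ⟨c4, hc4⟩ : ∃ c4 : ℝ, c4 = (4 : ℝ) ^ n := ⟨_, rfl⟩
  have hc40 : 0 ≤ c4 := by rw [hc4]; positivity
  have hCp0 : 0 ≤ Cp := le_trans (by positivity) (hCp 0)
  rw [← hc4]
  set Zn := 1 + L * ‖z‖ with hZn
  set Y := 1 + ‖z‖ with hY
  have hZn1 : 1 ≤ Zn := by
    have : 0 ≤ L * ‖z‖ := by positivity
    linarith
  have hY1 : 1 ≤ Y := by
    have := norm_nonneg z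
    linarith
  have key : ∀ x : ℝ,
      ENNReal.ofReal (C * (L ^ 2 * ((1 + L * |x|) ^ 16)⁻¹ * Real.exp (-x ^ 2 / 6))) *
        ∫⁻ u : ℝ, ENNReal.ofReal (‖riemannZeta (σ + ((u + (z.im + x) : ℝ) : ℂ) * I)‖ ^ 2 *
          ‖Mo z₀ (σ' + (u : ℂ) * I + z) * Mo z₀ (σ' + (u : ℂ) * I)‖ ^ 2 * gw τ (4 * W) u) ≤
      ENNReal.ofReal ((C * Cp * (B * (1 + κ) ^ 8 * c4) * L * (Zn ^ 4 * Y ^ n)) *
        (L * (1 + (L * x) ^ 2)⁻¹)) := by
    intro x
    obtain ⟨w₀, hw₀⟩ : ∃ w : ℂ, w = ((σ - 1 / 2 : ℝ) : ℂ) + ((z.im + x : ℝ) : ℂ) * I := ⟨_, rfl⟩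
    obtain ⟨w₁, hw₁⟩ : ∃ w : ℂ, w = ((σ' - 1 / 2 : ℝ) : ℂ) + z := ⟨_, rfl⟩
    obtain ⟨w₂, hw₂⟩ : ∃ w : ℂ, w = ((σ' - 1 / 2 : ℝ) : ℂ) := ⟨_, rfl⟩
    have r0 : w₀.re = σ - 1 / 2 := by simp [hw₀]
    have i0 : w₀.im = z.im + x := by simp [hw₀]
    have r1 : w₁.re = σ' - 1 / 2 + z.re := by simp [hw₁]
    have r2 : w₂.re = σ' - 1 / 2 := by simp [hw₂]
    obtain ⟨hint, hbd⟩ := hU w₀ w₁ w₂ (by rw [r0]; exact h0) (by rw [r1]; exact h1)
      (by rw [r2]; exact h2)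
    have hfun : (fun t : ℝ => ‖riemannZeta (pt w₀ t) * (Mo z₀ (pt w₁ t) * Mo z₀ (pt w₂ t))‖ ^ 2 *
        gw τ (4 * W) t) = fun u : ℝ => ‖riemannZeta (σ + ((u + (z.im + x) : ℝ) : ℂ) * I)‖ ^ 2 *
          ‖Mo z₀ (σ' + (u : ℂ) * I + z) * Mo z₀ (σ' + (u : ℂ) * I)‖ ^ 2 * gw τ (4 * W) u := by
      funext u
      have e0 : pt w₀ u = σ + ((u + (z.im + x) : ℝ) : ℂ) * I := by
        unfold pt; rw [hw₀]; push_cast; ring
      have e1 : pt w₁ u = σ' + (u : ℂ) * I + z := by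
        unfold pt; rw [hw₁]; push_cast; ring
      have e2 : pt w₂ u = σ' + (u : ℂ) * I := by
        unfold pt; rw [hw₂]; push_cast; ring
      rw [e0, e1, e2, norm_mul, mul_pow]
    rw [hfun] at hint hbd
    have hgw0 : ∀ u, 0 ≤ gw τ (4 * W) u := fun u => (Real.exp_pos _).le
    rw [← ofReal_integral_eq_lintegral_ofReal hint (Filter.Eventually.of_forall fun u =>
      mul_nonneg (by positivity) (hgw0 u))]
    rw [← ENNReal.ofReal_mul (by positivity)]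
    apply ENNReal.ofReal_le_ofReal
    have habs : ‖w₀ - w₁‖ ≤ κ / L + |x| := by
      refine (Complex.norm_le_abs_re_add_abs_im _).trans ?_
      have e1 : (w₀ - w₁).re = σ - σ' - z.re := by rw [Complex.sub_re, r0, r1]; ring
      have e2 : (w₀ - w₁).im = x := by
        rw [Complex.sub_im, i0]; simp [hw₁]
      rw [e1, e2]
      linarith only [h3]
    have habs2 : ‖w₀ - w₂‖ ≤ κ / L + (‖z‖ + |x|) := by
      refine (Complex.norm_le_abs_re_add_abs_im _).trans ?_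
      have e1 : (w₀ - w₂).re = σ - σ' := by rw [Complex.sub_re, r0, r2]; ring
      have e2 : (w₀ - w₂).im = z.im + x := by
        rw [Complex.sub_im, i0]; simp [hw₂]
      rw [e1, e2]
      have h5 : |z.im + x| ≤ ‖z‖ + |x| :=
        (abs_add_le _ _).trans (by linarith only [Complex.abs_im_le_norm z])
      linarith
    set X := 1 + L * |x| with hX
    set V := 1 + |x| with hV
    have hx0 : 0 ≤ |x| := abs_nonneg x
    have hX1 : 1 ≤ X := by
      have : 0 ≤ L * |x| := by positivity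
      linarith only [this]
    have hV1 : 1 ≤ V := by linarith only [hx0]
    have hz0 : 0 ≤ ‖z‖ := norm_nonneg z
    have b1 : 1 + L * ‖w₀ - w₁‖ ≤ (1 + κ) * X := by
      have h6 : L * ‖w₀ - w₁‖ ≤ κ + L * |x| := by
        have := mul_le_mul_of_nonneg_left habs hL0.le
        rw [mul_add, mul_div_cancel₀ _ hL0.ne'] at this
        exact this
      exact alg1 (c := 0) hκ (by positivity) h6
    have b2 : 1 + L * ‖w₀ - w₂‖ ≤ (1 + κ) * (Zn * X) := by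
      have h6 : L * ‖w₀ - w₂‖ ≤ κ + (L * ‖z‖ + L * |x|) := by
        have := mul_le_mul_of_nonneg_left habs2 hL0.le
        rw [mul_add, mul_div_cancel₀ _ hL0.ne', mul_add] at this
        exact this
      exact alg2 hκ (by positivity) (by positivity) h6
    have b3 : 1 + |τ + w₀.im| / T ≤ 4 * (Y * V) := by
      rw [i0]
      have h6 : |τ + (z.im + x)| ≤ 3 * T + (‖z‖ + |x|) := by
        have h7 : |τ + (z.im + x)| ≤ |τ| + (|z.im| + |x|) :=
          (abs_add_le _ _).trans (by linarith only [abs_add_le z.im x])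
        linarith only [hτ, h7, Complex.abs_im_le_norm z]
      have h8 : |τ + (z.im + x)| / T ≤ 3 + (‖z‖ + |x|) := by
        rw [div_le_iff₀ (by linarith only [hT])]
        have h9 : 0 ≤ (‖z‖ + |x|) * (T - 1) := mul_nonneg (by positivity) (by linarith only [hT])
        have h10 : (3 + (‖z‖ + |x|)) * T = 3 * T + (‖z‖ + |x|) + (‖z‖ + |x|) * (T - 1) := by ring
        rw [h10]
        linarith only [h6, h9]
      exact alg3 hx0 hz0 h8
    have hin : ((X ^ 16)⁻¹) * X ^ 8 ≤ (1 + (L * x) ^ 2)⁻¹ := by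
      have h9 : ((X ^ 16)⁻¹) * X ^ 8 = (X ^ 8)⁻¹ := by
        have hX0 : X ≠ 0 := by linarith
        field_simp
      rw [h9]
      exact pow_inv_le hL0 x (by norm_num)
    have hgauss := hCp x
    have hX0' : 0 ≤ (X ^ 16)⁻¹ := by positivity
    calc C * (L ^ 2 * (X ^ 16)⁻¹ * Real.exp (-x ^ 2 / 6)) * _
        ≤ C * (L ^ 2 * (X ^ 16)⁻¹ * Real.exp (-x ^ 2 / 6)) *
          (B * (((1 + κ) * X) ^ 4 * ((1 + κ) * (Zn * X)) ^ 4) * (4 * (Y * V)) ^ n) := by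
          refine mul_le_mul_of_nonneg_left (hbd.trans ?_) (by positivity)
          gcongr
      _ = (C * B * (1 + κ) ^ 8 * Zn ^ 4 * L ^ 2) * ((((X ^ 16)⁻¹) * X ^ 8)) *
            ((c4 * Y ^ n) * (V ^ n * Real.exp (-x ^ 2 / 6))) := alg4 _ _ _ _ _ _ _ _ _ _ _ n hc4
      _ ≤ (C * B * (1 + κ) ^ 8 * Zn ^ 4 * L ^ 2) * ((1 + (L * x) ^ 2)⁻¹) *
            ((c4 * Y ^ n) * Cp) := by
          gcongr
      _ = _ := alg5 _ _ _ _ _ _ _ _ _
  set M := C * Cp * (B * (1 + κ) ^ 8 * c4) * L * (Zn ^ 4 * Y ^ n) with hM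
  have hM0 : 0 ≤ M := by positivity
  calc _ ≤ ∫⁻ x : ℝ, ENNReal.ofReal (M * (L * (1 + (L * x) ^ 2)⁻¹)) := lintegral_mono key
    _ = ENNReal.ofReal (∫ x : ℝ, M * (L * (1 + (L * x) ^ 2)⁻¹)) := by
        rw [ofReal_integral_eq_lintegral_ofReal ((int_inv_sq hL0).1.const_mul M)
          (Filter.Eventually.of_forall fun x => by positivity)]
    _ ≤ _ := by
        apply ENNReal.ofReal_le_ofReal
        rw [integral_const_mul, (int_inv_sq hL0).2]
        calc M * Real.pi ≤ M * 4 := by gcongr; exact Real.pi_le_four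
          _ = _ := by rw [hM]; ring

private theorem ratio_le {a L : ℝ} {b : ℝ} (hL : 0 < L) (h : a ≤ b) : a / L ≤ b / L :=
  div_le_div_of_nonneg_right h hL.le

/-- the sum for fixed `L`, `z₀`. -/
private theorem main_sum : ∃ C : ℝ, 0 < C ∧ ∀ (z₀ G K₀ B T τ W L Cp : ℝ) (z : ℂ) (n : ℕ),
    1 ≤ G → 2 ≤ K₀ → 1 ≤ T → 1 ≤ W → |τ| ≤ 3 * T → 4 * (K₀ + G + 2) ≤ L → 0 ≤ B →
    (∀ x : ℝ, (1 + |x|) ^ n * Real.exp (-x ^ 2 / 6) ≤ Cp) →
    (∀ w₀ w₁ w₂ : ℂ, |w₀.re| ≤ (K₀ + G + 2) / L → |w₁.re| ≤ (K₀ + G + 2) / L →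
      |w₂.re| ≤ (K₀ + G + 2) / L →
      Integrable (fun t : ℝ => ‖riemannZeta (pt w₀ t) * (Mo z₀ (pt w₁ t) * Mo z₀ (pt w₂ t))‖ ^ 2 *
        gw τ (4 * W) t) ∧
      ∫ t : ℝ, ‖riemannZeta (pt w₀ t) * (Mo z₀ (pt w₁ t) * Mo z₀ (pt w₂ t))‖ ^ 2 * gw τ (4 * W) t
        ≤ B * ((1 + L * ‖w₀ - w₁‖) ^ 4 * (1 + L * ‖w₀ - w₂‖) ^ 4) *
          (1 + |τ + w₀.im| / T) ^ n) →
    ∀ (S : Finset ℕ) (t : ℕ → ℝ) (ρ : ℕ → ℂ),
    (∀ i ∈ S, |t i - τ| ≤ W ∧ 1 / 2 ≤ (ρ i).re ∧ ‖ρ i - pt 0 (t i)‖ ≤ G / L) →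
    (∀ i ∈ S, ∀ j ∈ S, i ≠ j → 1 / L ≤ |t i - t j|) → z.re = K₀ / L →
    ∑ i ∈ S, ‖Mo z₀ (pt 0 (t i))‖ ^ 2 *
        ‖riemannZeta (ρ i + z) * Mo z₀ (pt 0 (t i) + z)‖ ^ 2
      ≤ ((4 * (2 ^ 32 * Real.exp (32 * (G + 1) + 1)) ^ 2) ^ 2 * 4 *
          ((C * ((1 + G) ^ 16 * Real.exp (G ^ 2))) * Cp *
            (B * (1 + (2 * K₀ + G + 2)) ^ 8 * (4 : ℝ) ^ n))) * (4 * L) *
        ((1 + L * ‖z‖) ^ 4 * (1 + ‖z‖) ^ n) := by
  obtain ⟨C, hC, hsum⟩ := sum_kprod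
  obtain ⟨A, hA, hzA⟩ := zeta_strip_p
  refine ⟨C, hC, ?_⟩
  intro z₀ G K₀ B T τ W L Cp z n hG hK₀ hT hW hτ hL4 hB hCp hU S t ρ hS hsep hz
  have hL : 1 ≤ L := by linarith
  have hL0 : 0 < L := by linarith
  have hGL : (G + 1) / L ≤ 1 := by rw [div_le_one hL0]; linarith
  obtain ⟨C₂, hC₂⟩ : ∃ c : ℝ, c = 4 * (2 ^ 32 * Real.exp (32 * (G + 1) + 1)) ^ 2 := ⟨_, rfl⟩
  have hC₂0 : 0 ≤ C₂ := by rw [hC₂]; positivity
  obtain ⟨C₃, hC₃⟩ : ∃ c : ℝ, c = C * ((1 + G) ^ 16 * Real.exp (G ^ 2)) := ⟨_, rfl⟩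
  have hC₃0 : 0 ≤ C₃ := by rw [hC₃]; positivity
  rw [← hC₂, ← hC₃]
  -- the lines
  obtain ⟨a, ha⟩ : ∃ a : ℝ, a = 1 / 2 + (K₀ - 1) / L := ⟨_, rfl⟩
  obtain ⟨b, hb⟩ : ∃ b : ℝ, b = 1 / 2 + (K₀ + G + 1) / L := ⟨_, rfl⟩
  obtain ⟨a', ha'⟩ : ∃ a : ℝ, a = 1 / 2 - 1 / L := ⟨_, rfl⟩
  obtain ⟨b', hb'⟩ : ∃ b : ℝ, b = 1 / 2 + 1 / L := ⟨_, rfl⟩
  have hLi : 0 < 1 / L := by positivity
  have hLi8 : 1 / L ≤ 1 / 20 := by
    rw [div_le_div_iff₀ hL0 (by norm_num)]; linarith only [hG, hK₀, hL4]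
  have e1 : (K₀ - 1) / L = K₀ / L - 1 / L := by rw [sub_div]
  have e2 : (K₀ + G + 1) / L = K₀ / L + G / L + 1 / L := by rw [add_div, add_div]
  have e3 : (K₀ + G + 2) / L = K₀ / L + G / L + 2 * (1 / L) := by rw [add_div, add_div]; ring
  have e4 : (2 * K₀ + G + 2) / L = 2 * (K₀ / L) + G / L + 2 * (1 / L) := by
    rw [add_div, add_div]; ring
  have e5 : (G + 1) / L = G / L + 1 / L := by rw [add_div]
  have hK2 : 2 * (1 / L) ≤ K₀ / L := by
    rw [← mul_div_assoc, mul_one]; exact ratio_le hL0 hK₀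
  have hG1 : 1 / L ≤ G / L := ratio_le hL0 hG
  have hbig : (K₀ + G + 2) / L ≤ 1 / 4 := by
    rw [div_le_iff₀ hL0]; linarith only [hL4]
  have hb34 : b ≤ 3 / 4 := by rw [hb, e2]; rw [e3] at hbig; linarith only [hLi, hbig]
  have ha12 : 1 / 2 ≤ a := by rw [ha, e1]; linarith only [hLi, hK2]
  have hab : a ≤ b := by rw [ha, hb, e1, e2]; linarith only [hLi, hG1]
  -- continuity
  have hZc : ∀ σ : ℝ, 1 / 2 ≤ σ → σ ≤ 3 / 4 →
      Continuous fun u : ℝ => ‖riemannZeta (σ + ((u : ℝ) : ℂ) * I)‖ ^ 2 := by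
    intro σ _ hσ2
    refine Continuous.pow (Continuous.norm ?_) 2
    rw [continuous_iff_continuousAt]
    intro u
    have h1 : ContinuousAt riemannZeta (σ + ((u : ℝ) : ℂ) * I) :=
      (zeta_diff _ (by simpa using hσ2)).continuousAt
    exact ContinuousAt.comp (f := fun u : ℝ => (σ : ℂ) + ((u : ℝ) : ℂ) * I) h1
      (by fun_prop : Continuous fun u : ℝ => (σ : ℂ) + ((u : ℝ) : ℂ) * I).continuousAt
  have hMc : Continuous (Mo z₀) := (Mo_diff z₀).continuous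
  have hNc : ∀ σ' : ℝ, Continuous fun u : ℝ =>
      ‖Mo z₀ (σ' + (u : ℂ) * I + z) * Mo z₀ (σ' + (u : ℂ) * I)‖ ^ 2 := by
    intro σ'
    fun_prop
  -- pointwise bounds
  have hp1 : ∀ i ∈ S, ENNReal.ofReal (‖riemannZeta (ρ i + z)‖ ^ 2) ≤ ENNReal.ofReal C₂ *
      ((∫⁻ y : ℝ, ENNReal.ofReal (kk L y *
          ‖riemannZeta (a + (((ρ i).im + z.im + y : ℝ) : ℂ) * I)‖ ^ 2)) +
        ∫⁻ y : ℝ, ENNReal.ofReal (kk L y *
          ‖riemannZeta (b + (((ρ i).im + z.im + y : ℝ) : ℂ) * I)‖ ^ 2)) := by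
    intro i hi
    obtain ⟨_, h2, h3⟩ := hS i hi
    have h4 : |(ρ i).re - 1 / 2| ≤ G / L := by
      have h5 := (Complex.abs_re_le_norm (ρ i - pt 0 (t i))).trans h3
      have h6 : (ρ i - pt 0 (t i)).re = (ρ i).re - 1 / 2 := by
        unfold pt; simp
      rwa [h6] at h5
    have h5 : (ρ i).re ≤ 1 / 2 + G / L := by
      have := (abs_le.1 h4).2
      linarith only [this]
    have hre : (ρ i + z).re = (ρ i).re + K₀ / L := by rw [Complex.add_re, hz]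
    have him : (ρ i + z).im = (ρ i).im + z.im := Complex.add_im _ _
    have h6 := point hL hG hGL riemannZeta a b
      (fun w _ h => zeta_diff w (h.trans hb34)) A 4
      (fun w h h' => hzA w (ha12.trans h) (h'.trans hb34)) (ρ i + z)
      (by rw [hre, ha, e1]; linarith only [h2]) (by rw [hre, ha, e1, e5]; linarith only [h5])
      (by rw [hre, hb, e2]; linarith only [h5]) (by rw [hre, hb, e2, e5]; linarith only [h2])
    rw [← hC₂, him] at h6
    have h7 : ∀ (σ : ℝ) (y : ℝ), (σ : ℂ) + (((((ρ i).im + z.im : ℝ)) : ℂ) + (y : ℂ)) * I =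
        σ + (((ρ i).im + z.im + y : ℝ) : ℂ) * I := by
      intro σ y; push_cast; ring
    simp only [h7] at h6
    exact h6
  obtain ⟨A', hA'0, hA'⟩ := Mo_bdd z₀
  have hp2 : ∀ i ∈ S, ENNReal.ofReal (‖Mo z₀ (pt 0 (t i) + z) * Mo z₀ (pt 0 (t i))‖ ^ 2) ≤
      ENNReal.ofReal C₂ *
      ((∫⁻ y : ℝ, ENNReal.ofReal (kk L y *
          ‖Mo z₀ (a' + ((t i + y : ℝ) : ℂ) * I + z) * Mo z₀ (a' + ((t i + y : ℝ) : ℂ) * I)‖ ^ 2)) +
        ∫⁻ y : ℝ, ENNReal.ofReal (kk L y *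
          ‖Mo z₀ (b' + ((t i + y : ℝ) : ℂ) * I + z) *
            Mo z₀ (b' + ((t i + y : ℝ) : ℂ) * I)‖ ^ 2)) := by
    intro i _
    have hre : (pt 0 (t i)).re = 1 / 2 := by unfold pt; simp
    have him : (pt 0 (t i)).im = t i := by unfold pt; simp
    have hzre : 0 ≤ z.re := by rw [hz]; positivity
    have h6 := point hL hG hGL (fun w => Mo z₀ (w + z) * Mo z₀ w) a' b'
      (fun w _ _ => by
        have h1 : DifferentiableAt ℂ (fun w => Mo z₀ (w + z)) w :=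
          ((Mo_diff z₀).comp (differentiable_id.add_const z)) w
        exact h1.mul (Mo_diff z₀ w)) (A' * A') 0
      (fun w h _ => by
        rw [pow_zero, mul_one, norm_mul]
        have h1 : 0 ≤ w.re := by rw [ha'] at h; linarith only [hLi, hLi8, h]
        exact mul_le_mul (hA' _ (by rw [Complex.add_re]; linarith only [hz, ha', hLi, hK2, h])) (hA' _ h1) (norm_nonneg _)
          hA'0) (pt 0 (t i))
      (by rw [hre, ha']; linarith only []) (by rw [hre, ha', e5]; linarith only [hLi, hG1])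
      (by rw [hre, hb']; linarith only []) (by rw [hre, hb', e5]; linarith only [hLi, hG1])
    rw [← hC₂, him] at h6
    have h7 : ∀ (σ : ℝ) (y : ℝ), (σ : ℂ) + (((t i : ℝ) : ℂ) + (y : ℂ)) * I =
        σ + ((t i + y : ℝ) : ℂ) * I := by
      intro σ y; push_cast; ring
    simp only [h7] at h6
    exact h6
  -- the abbreviations
  obtain ⟨E, hE⟩ : ∃ E : ℝ → ℕ → ENNReal, ∀ σ i, E σ i = ∫⁻ y : ℝ, ENNReal.ofReal (kk L y *
          ‖riemannZeta (σ + (((ρ i).im + z.im + y : ℝ) : ℂ) * I)‖ ^ 2) := ⟨_, fun _ _ => rfl⟩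
  obtain ⟨E', hE'⟩ : ∃ E : ℝ → ℕ → ENNReal, ∀ σ i, E σ i = ∫⁻ y : ℝ, ENNReal.ofReal (kk L y *
          ‖Mo z₀ (σ + ((t i + y : ℝ) : ℂ) * I + z) * Mo z₀ (σ + ((t i + y : ℝ) : ℂ) * I)‖ ^ 2) :=
    ⟨_, fun _ _ => rfl⟩
  simp only [← hE] at hp1
  simp only [← hE'] at hp2
  obtain ⟨R, hR⟩ : ∃ R : ℝ, R = (C₃ * Cp * (B * (1 + (2 * K₀ + G + 2)) ^ 8 * (4 : ℝ) ^ n)) *
      (4 * L) * ((1 + L * ‖z‖) ^ 4 * (1 + ‖z‖) ^ n) := ⟨_, rfl⟩
  have hCp0 : 0 ≤ Cp := le_trans (by positivity) (hCp 0)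
  have hR0 : 0 ≤ R := by
    rw [hR]
    have : 0 ≤ 1 + (2 * K₀ + G + 2) := by linarith only [hG, hK₀]
    positivity
  have hr : ∀ i ∈ S, |t i - τ| ≤ W ∧ |(ρ i).im - t i| ≤ G / L := by
    intro i hi
    obtain ⟨h1, _, h3⟩ := hS i hi
    refine ⟨h1, ?_⟩
    have h5 := (Complex.abs_im_le_norm (ρ i - pt 0 (t i))).trans h3
    have h6 : (ρ i - pt 0 (t i)).im = (ρ i).im - t i := by
      unfold pt; simp
    rwa [h6] at h5
  have hpair : ∀ σ σ' : ℝ, (1 / 2 ≤ σ ∧ σ ≤ 3 / 4) → |σ - 1 / 2| ≤ (K₀ + G + 2) / L →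
      |σ' - 1 / 2 + z.re| ≤ (K₀ + G + 2) / L → |σ' - 1 / 2| ≤ (K₀ + G + 2) / L →
      |σ - σ' - z.re| ≤ (2 * K₀ + G + 2) / L → |σ - σ'| ≤ (2 * K₀ + G + 2) / L →
      ∑ i ∈ S, E σ i * E' σ' i ≤ ENNReal.ofReal R := by
    intro σ σ' hσ h0 h1 h2 h3 h4
    have h5 := tonelli (τ := τ) (W := W) hC₃0 hL S t (fun i => (ρ i).im)
      (by
        intro u x
        rw [hC₃]
        exact hsum L G hL hG τ W hW S t (fun i => (ρ i).im) hr hsep u x)
      (fun u : ℝ => ‖riemannZeta (σ + ((u : ℝ) : ℂ) * I)‖ ^ 2)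
      (fun u : ℝ => ‖Mo z₀ (σ' + (u : ℂ) * I + z) * Mo z₀ (σ' + (u : ℂ) * I)‖ ^ 2)
      (hZc σ hσ.1 hσ.2) (hNc σ') (fun _ => by positivity) (fun _ => by positivity) z.im
    have h6 := pair_bound n hL hT hτ hC₃0 hB (by linarith only [hG, hK₀] : 0 ≤ 2 * K₀ + G + 2) hCp hU σ σ'
      h0 h1 h2 h3 h4
    rw [hR]
    refine le_trans (le_of_eq ?_) (h5.trans h6)
    refine Finset.sum_congr rfl fun i _ => ?_
    rw [hE, hE']
  have q1 : ∀ σ, (σ = a ∨ σ = b) → ∀ σ', (σ' = a' ∨ σ' = b') →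
      ∑ i ∈ S, E σ i * E' σ' i ≤ ENNReal.ofReal R := by
    intro σ hσ σ' hσ'
    have hK0 : 0 ≤ K₀ / L := by linarith only [hLi, hK2]
    have hG0 : 0 ≤ G / L := by linarith only [hLi, hG1]
    have hσ1 : 1 / 2 + (K₀ / L - 1 / L) ≤ σ ∧ σ ≤ 1 / 2 + (K₀ / L + G / L + 1 / L) := by
      rcases hσ with rfl | rfl
      · rw [ha, e1]; constructor <;> linarith only [hLi, hG1]
      · rw [hb, e2]; constructor <;> linarith only [hLi, hG1]
    have hσ2 : 1 / 2 - 1 / L ≤ σ' ∧ σ' ≤ 1 / 2 + 1 / L := by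
      rcases hσ' with rfl | rfl
      · rw [ha']; constructor <;> linarith only [hLi]
      · rw [hb']; constructor <;> linarith only [hLi]
    obtain ⟨s1, s2⟩ := hσ1
    obtain ⟨s3, s4⟩ := hσ2
    rw [e3] at hbig
    refine hpair σ σ' ⟨by linarith only [hLi, hK2, s1], by linarith only [hLi, hbig, s2]⟩ ?_ ?_ ?_ ?_ ?_
    · rw [abs_le, e3]; constructor <;> linarith only [hLi, hK2, hG1, s1, s2]
    · rw [abs_le, e3, hz]; constructor <;> linarith only [hLi, hK2, hG1, s3, s4]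
    · rw [abs_le, e3]; constructor <;> linarith only [hLi, hK2, hG1, s3, s4]
    · rw [abs_le, e4, hz]; constructor <;> linarith only [hLi, hK2, hG1, s1, s4, s2, s3]
    · rw [abs_le, e4]; constructor <;> linarith only [hLi, hK2, hG1, s1, s4, s2, s3]
  -- conclusion
  have hterm : ∀ i ∈ S, ENNReal.ofReal (‖Mo z₀ (pt 0 (t i))‖ ^ 2 *
        ‖riemannZeta (ρ i + z) * Mo z₀ (pt 0 (t i) + z)‖ ^ 2) ≤
      (ENNReal.ofReal C₂ * ENNReal.ofReal C₂) * ((E a i * E' a' i + E a i * E' b' i) +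
        (E b i * E' a' i + E b i * E' b' i)) := by
    intro i hi
    have h1 : ‖Mo z₀ (pt 0 (t i))‖ ^ 2 *
        ‖riemannZeta (ρ i + z) * Mo z₀ (pt 0 (t i) + z)‖ ^ 2 =
        ‖riemannZeta (ρ i + z)‖ ^ 2 * ‖Mo z₀ (pt 0 (t i) + z) * Mo z₀ (pt 0 (t i))‖ ^ 2 := by
      rw [norm_mul, norm_mul]; ring
    rw [h1, ENNReal.ofReal_mul (by positivity)]
    calc _ ≤ (ENNReal.ofReal C₂ * (E a i + E b i)) * (ENNReal.ofReal C₂ * (E' a' i + E' b' i)) :=
          mul_le_mul' (hp1 i hi) (hp2 i hi)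
      _ = _ := by ring
  have hfin : ENNReal.ofReal (∑ i ∈ S, ‖Mo z₀ (pt 0 (t i))‖ ^ 2 *
        ‖riemannZeta (ρ i + z) * Mo z₀ (pt 0 (t i) + z)‖ ^ 2) ≤
      ENNReal.ofReal (C₂ * C₂ * (4 * R)) := by
    rw [ENNReal.ofReal_sum_of_nonneg (fun i _ => by positivity)]
    calc _ ≤ ∑ i ∈ S, (ENNReal.ofReal C₂ * ENNReal.ofReal C₂) *
          ((E a i * E' a' i + E a i * E' b' i) + (E b i * E' a' i + E b i * E' b' i)) :=
          Finset.sum_le_sum hterm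
      _ = (ENNReal.ofReal C₂ * ENNReal.ofReal C₂) *
          ((∑ i ∈ S, E a i * E' a' i + ∑ i ∈ S, E a i * E' b' i) +
            (∑ i ∈ S, E b i * E' a' i + ∑ i ∈ S, E b i * E' b' i)) := by
          rw [← Finset.mul_sum, Finset.sum_add_distrib, Finset.sum_add_distrib,
            Finset.sum_add_distrib]
      _ ≤ (ENNReal.ofReal C₂ * ENNReal.ofReal C₂) *
          ((ENNReal.ofReal R + ENNReal.ofReal R) + (ENNReal.ofReal R + ENNReal.ofReal R)) := by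
          gcongr
          · exact q1 a (Or.inl rfl) a' (Or.inl rfl)
          · exact q1 a (Or.inl rfl) b' (Or.inr rfl)
          · exact q1 b (Or.inr rfl) a' (Or.inl rfl)
          · exact q1 b (Or.inr rfl) b' (Or.inr rfl)
      _ = _ := by
          rw [← ENNReal.ofReal_add hR0 hR0, ← ENNReal.ofReal_add (by positivity) (by positivity),
            ← ENNReal.ofReal_mul hC₂0, ← ENNReal.ofReal_mul (by positivity)]
          congr 1
          ring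
  have h9 := (ENNReal.ofReal_le_ofReal_iff (by positivity)).1 hfin
  refine h9.trans (le_of_eq ?_)
  rw [hR]
  generalize (4 : ℝ) ^ n = c4
  generalize (1 + ‖z‖) ^ n = y
  ring

/-- `s_i = 1/2 + i t_i` (`= pt 0 (t i)`), `‖ρ_i - s_i‖ ≤ G/L` with `Re ρ_i ≥ 1/2`, `Re z = K₀/L`,
`K₀ ≥ 2`.

PROOF. (a) `interp` for `G(w) = Zt w/(…)`… simply `ζ` on the strip between the lines
`a = 1/2 + (K₀-1)/L`, `b = 1/2 + (K₀+G+1)/L` (to the left of `1`; `ζ` has polynomial growth there by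
`Zt_growth`; near `Im = 0` it is bounded as the strip is away from `1`), `lm = 0`, `h = L`, at
`w = ρ_i + z`: by `norm_kn_le`
(`|σ| ∈ [1/L, (G+2)/L]`, kernel `≤ C_G L (1+L|y|)^{-32} e^{-y²}`)
`‖ζ(ρ_i+z)‖² ≤ C_G ∫ L (1+L|y - Im ρ_i - v|)^{-32} e^{-(…)²} (‖ζ(a+iy)‖²+‖ζ(b+iy)‖²) dy`, `v = Im z`
(`a, b` here as real parts).
(b) `interp` for `w ↦ Mo (w+z) Mo w` at `w = s_i` with the lines `Re = 1/2 ± 1/L`, `h = L`:
`‖M(s_i+z) M(s_i)‖² ≤ C ∫ L (1+L|y'-t_i|)^{-32} e^{-(y'-t_i)²} (…at 1/2 ± 1/L + iy') dy'`.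
(c) Multiply, put `y = y' + v + x`: since `|y - Im ρ_i - v| + |y' - t_i| + G/L ≥ |x|`,
`(1+L|y-Im ρ_i - v|)^{-32} (1+L|y'-t_i|)^{-32} ≤ C_G (1+L|x|)^{-16} (1+L|y'-t_i|)^{-16}`. Sum over `i`:
`∑_i (1+L|y'-t_i|)^{-16} e^{-(y'-t_i)²} ≤ C gw τ (4W) y'` (separation `1/L`, `|t_i - τ| ≤ W`, `W ≥ 1`).
So the sum is `≤ C_G L² ∫ (1+L|x|)^{-16} ∫ ‖ζ(σ + i(y'+v+x)) M(σ'+iy'+z) M(σ'+iy')‖² gw τ (4W) y' dy' dx`
over the four choices `σ ∈ {a,b}`, `σ' = 1/2 ± 1/L`; `U` with `w₀ = σ - 1/2 + i(v+x)`,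
`w₁ = σ'-1/2+z`, `w₂ = σ' - 1/2`, `K = K₀+G+2`, width `4W ≤ T/2`: inner
`≤ C_G W L (1+L|x|)^4 (1+L‖z‖)^4 (1+L|x|)^4 (1+(|τ|+|v|+|x|)/T)^{301}`. The Gaussian decay in `x`
must be kept as well: `e^{-(y-Im ρ_i - v)²/2} e^{-(y'-t_i)²/2} ≤ C e^{-x²/8}`. Total
`≤ C_G L² · (1/L) · W L (1+L‖z‖)^4 (1+‖z‖)^{301}` as `|τ| ≤ 3T`. -/
theorem ensum_local (θ : ℝ) (hθ0 : 0 < θ) (hθ1 : θ ≤ 1 / 40) (G K₀ : ℝ) (hG : 1 ≤ G) (hK₀ : 2 ≤ K₀) :
    ∃ C : ℝ, 0 < C ∧ ∃ T₀ : ℝ, Real.exp 3200 ≤ T₀ ∧ ∀ T : ℝ, T₀ ≤ T →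
    ∀ τ W : ℝ, T ^ (9 / 10 : ℝ) ≤ W → 4 * W ≤ T / 2 → |τ| ≤ 3 * T →
    ∀ (S : Finset ℕ) (t : ℕ → ℝ) (ρ : ℕ → ℂ),
    (∀ i ∈ S, |t i - τ| ≤ W ∧ 1 / 2 ≤ (ρ i).re ∧ ‖ρ i - pt 0 (t i)‖ ≤ G / Real.log T) →
    (∀ i ∈ S, ∀ j ∈ S, i ≠ j → 1 / Real.log T ≤ |t i - t j|) →
    ∀ z : ℂ, z.re = K₀ / Real.log T →
    ∑ i ∈ S, ‖Mo (T ^ θ) (pt 0 (t i))‖ ^ 2 *
        ‖riemannZeta (ρ i + z) * Mo (T ^ θ) (pt 0 (t i) + z)‖ ^ 2
      ≤ C * W * Real.log T ^ 2 * (1 + Real.log T * ‖z‖) ^ 4 * (1 + ‖z‖) ^ 301 := by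
  obtain ⟨CU, hCU, hU⟩ := U θ hθ0 hθ1
  obtain ⟨TU, hTU, hU'⟩ := hU (K₀ + G + 2) (by linarith)
  obtain ⟨C, hC, hmain⟩ := main_sum
  obtain ⟨Cp, hCp0, hCp⟩ := poly_gauss
  obtain ⟨c4, hc4⟩ : ∃ c4 : ℝ, c4 = (4 : ℝ) ^ 301 := ⟨_, rfl⟩
  have hc40 : 0 < c4 := by rw [hc4]; positivity
  have hk0 : 0 < 1 + (2 * K₀ + G + 2) := by linarith
  have h1G : 0 < 1 + G := by linarith
  refine ⟨((4 * (2 ^ 32 * Real.exp (32 * (G + 1) + 1)) ^ 2) ^ 2 * 4 *
          ((C * ((1 + G) ^ 16 * Real.exp (G ^ 2))) * Cp *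
            ((CU * Real.exp (CU * (K₀ + G + 2)) * 4) * (1 + (2 * K₀ + G + 2)) ^ 8 * c4))) * 4,
    by positivity, max (max (Real.exp 3200) TU) (Real.exp (4 * (K₀ + G + 2))),
    (le_max_left _ _).trans (le_max_left _ _), ?_⟩
  intro T hT τ W hW1 hW2 hτ S t ρ hS hsep z hz
  have hT1 : Real.exp 3200 ≤ T := ((le_max_left _ _).trans (le_max_left _ _)).trans hT
  have hT2 : TU ≤ T := ((le_max_right _ _).trans (le_max_left _ _)).trans hT
  have hT3 : Real.exp (4 * (K₀ + G + 2)) ≤ T := (le_max_right _ _).trans hT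
  have hT0 : 0 < T := (Real.exp_pos _).trans_le hT1
  have hTone : 1 ≤ T := le_trans (Real.one_le_exp (by norm_num)) hT1
  have hL : 4 * (K₀ + G + 2) ≤ Real.log T := by
    rw [Real.le_log_iff_exp_le hT0]; exact hT3
  have hL0 : 0 < Real.log T := by linarith only [hG, hK₀, hL]
  have hWone : 1 ≤ W := le_trans (Real.one_le_rpow hTone (by norm_num)) hW1
  have hW0 : 0 < W := by linarith only [hWone]
  have h1 := hmain (T ^ θ) G K₀ (CU * Real.exp (CU * (K₀ + G + 2)) * (4 * W) * Real.log T) T τ W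
    (Real.log T) Cp z 301 hG hK₀ hTone hWone hτ hL (by positivity) hCp
    (fun w₀ w₁ w₂ h0 h1 h2 => hU' T hT2 τ (4 * W) (by linarith only [hW1, hWone]) hW2 w₀ w₁ w₂ h0 h1 h2)
    S t ρ hS hsep hz
  refine h1.trans (le_of_eq ?_)
  rw [← hc4]
  generalize (1 + ‖z‖) ^ 301 = y
  generalize (4 * (2 ^ 32 * Real.exp (32 * (G + 1) + 1)) ^ 2) ^ 2 = g1
  generalize (1 + G) ^ 16 * Real.exp (G ^ 2) = g2
  generalize (1 + (2 * K₀ + G + 2)) ^ 8 = g3
  generalize Real.exp (CU * (K₀ + G + 2)) = g4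
  ring

end Pool.Agent.H14.CO

end

section

/-!
# CO module Close: `ζ M` is close to `1` at distance `b / log T` to the right of the critical line,
in mean square with respect to `|M(1/2+it)|² dt`
-/

set_option autoImplicit false

namespace Pool.Agent.H14.CO

open Set MeasureTheory Complex

/-- auxiliary function. -/
noncomputable def Close_G (z₀ : ℝ) (u : ℂ) : ℂ := (Zt u * Mo z₀ u - (u - 1)) / (u + 1)

theorem Close_ne (u : ℂ) (hu : 0 ≤ u.re) : u + 1 ≠ 0 := by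
  intro h
  have := congrArg Complex.re h
  simp at this
  linarith

theorem Close_G_eq (z₀ : ℝ) (u : ℂ) (hu : u ≠ 1) :
    Close_G z₀ u = (u - 1) / (u + 1) * (riemannZeta u * Mo z₀ u - 1) := by
  unfold Close_G
  rw [Zt_eq u hu]
  ring

theorem Close_norm_le (u : ℂ) (hu : 0 ≤ u.re) : ‖(u - 1) / (u + 1)‖ ≤ 1 := by
  have h1 : u + 1 ≠ 0 := Close_ne u hu
  have h1' : 0 < ‖u + 1‖ := norm_pos_iff.mpr h1
  rw [norm_div, div_le_one h1']
  have h2 : ‖u - 1‖ ^ 2 ≤ ‖u + 1‖ ^ 2 := by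
    rw [← Complex.normSq_eq_norm_sq, ← Complex.normSq_eq_norm_sq, Complex.normSq_apply,
      Complex.normSq_apply]
    simp
    nlinarith
  exact le_of_sq_le_sq h2 (norm_nonneg _)

theorem Close_G_upper (z₀ : ℝ) (u : ℂ) (hu : u ≠ 1) (hu' : 0 ≤ u.re) :
    ‖Close_G z₀ u‖ ≤ ‖riemannZeta u * Mo z₀ u - 1‖ := by
  rw [Close_G_eq z₀ u hu, norm_mul]
  exact mul_le_of_le_one_left (norm_nonneg _) (Close_norm_le u hu')

theorem Close_G_lower (z₀ : ℝ) (u : ℂ) (hu : 10 ≤ |u.im|) :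
    ‖riemannZeta u * Mo z₀ u - 1‖ ≤ 2 * ‖Close_G z₀ u‖ := by
  have hu1 : u ≠ 1 := by
    rintro rfl
    simp at hu
    linarith
  have h10 : 10 ≤ ‖u + 1‖ := by
    have := Complex.abs_im_le_norm (u + 1)
    simp at this
    linarith
  have h1' : 0 < ‖u + 1‖ := by linarith
  have h2 : ‖u + 1‖ - 2 ≤ ‖u - 1‖ := by
    have : ‖u + 1‖ ≤ ‖u - 1‖ + ‖(2 : ℂ)‖ := by
      have h3 : u + 1 = (u - 1) + 2 := by ring
      calc ‖u + 1‖ = ‖(u - 1) + 2‖ := by rw [← h3]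
        _ ≤ _ := norm_add_le _ _
    simp at this
    linarith
  have h3 : 1 / 2 ≤ ‖(u - 1) / (u + 1)‖ := by
    rw [norm_div, le_div_iff₀ h1']
    linarith only [h10, h2]
  rw [Close_G_eq z₀ u hu1, norm_mul]
  have := norm_nonneg (riemannZeta u * Mo z₀ u - 1)
  nlinarith only [h3, this]

theorem Close_G_diff (z₀ : ℝ) (u : ℂ) (hu : 0 ≤ u.re) : DifferentiableAt ℂ (Close_G z₀) u := by
  unfold Close_G
  apply DifferentiableAt.div
  · apply DifferentiableAt.sub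
    · exact (differentiable_Zt u).mul (differentiable_Mo z₀ u)
    · exact differentiableAt_id.sub (differentiableAt_const _)
  · exact differentiableAt_id.add (differentiableAt_const _)
  · exact Close_ne u hu

theorem Close_G_growth (z₀ : ℝ) (hz : 1 < z₀) : ∃ A : ℝ, 0 < A ∧ ∀ u : ℂ, 0 ≤ u.re → u.re ≤ 2 →
    ‖Close_G z₀ u‖ ≤ A * (1 + |u.im|) ^ 4 := by
  obtain ⟨C, hC, hZ⟩ := Zt_growth 1 le_rfl
  refine ⟨C * 81 * z₀ ^ (6 : ℝ) + 3, by positivity, fun u h0 h2 => ?_⟩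
  have h1' : 1 ≤ ‖u + 1‖ := by
    have := Complex.re_le_norm (u + 1)
    simp at this
    linarith
  have hy : 0 ≤ |u.im| := abs_nonneg _
  have hun : ‖u‖ ≤ 2 + |u.im| := by
    have := Complex.norm_le_abs_re_add_abs_im u
    rw [abs_of_nonneg h0] at this
    linarith
  have hZu : ‖Zt u‖ ≤ C * (3 * (1 + |u.im|)) ^ 4 := by
    have h := hZ u (by linarith)
    have h4 : (1 + ‖u‖) ^ ((1 : ℝ) + 3) = (1 + ‖u‖) ^ 4 := by
      rw [← Real.rpow_natCast]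
      norm_num
    rw [h4] at h
    refine h.trans ?_
    gcongr
    linarith
  have hM : ‖Mo z₀ u‖ ≤ z₀ ^ (6 : ℝ) := by
    refine (norm_Mo_le z₀ hz u).trans ?_
    apply Real.rpow_le_rpow_of_exponent_le hz.le
    rw [abs_of_nonneg h0]
    linarith
  have h1y : 1 ≤ (1 + |u.im|) := by linarith
  have h1y4 : (1 + |u.im|) ≤ (1 + |u.im|) ^ 4 := by
    calc (1 + |u.im|) = (1 + |u.im|) ^ 1 := by ring
      _ ≤ (1 + |u.im|) ^ 4 := pow_le_pow_right₀ h1y (by norm_num)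
  have hu1 : ‖u - 1‖ ≤ 3 * (1 + |u.im|) ^ 4 := by
    calc ‖u - 1‖ ≤ ‖u‖ + ‖(1 : ℂ)‖ := norm_sub_le _ _
      _ ≤ 3 * (1 + |u.im|) := by rw [norm_one]; linarith
      _ ≤ _ := by linarith
  unfold Close_G
  rw [norm_div]
  calc ‖Zt u * Mo z₀ u - (u - 1)‖ / ‖u + 1‖ ≤ ‖Zt u * Mo z₀ u - (u - 1)‖ :=
        div_le_self (norm_nonneg _) h1'
    _ ≤ ‖Zt u * Mo z₀ u‖ + ‖u - 1‖ := norm_sub_le _ _
    _ ≤ C * (3 * (1 + |u.im|)) ^ 4 * z₀ ^ (6 : ℝ) + 3 * (1 + |u.im|) ^ 4 := by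
        apply add_le_add _ hu1
        rw [norm_mul]
        apply mul_le_mul hZu hM (norm_nonneg _) (by positivity)
    _ = _ := by ring

theorem Close_G_cont (z₀ : ℝ) (c : ℂ) (hc : 0 ≤ c.re) :
    Continuous (fun v : ℝ => Close_G z₀ (c + v * I)) := by
  rw [continuous_iff_continuousAt]
  intro v
  have h1 : 0 ≤ (c + v * I).re := by simpa using hc
  have h2 : ContinuousAt (Close_G z₀) (c + v * I) := (Close_G_diff z₀ _ h1).continuousAt
  have h3 : ContinuousAt (fun v : ℝ => c + v * I) v := by fun_prop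
  exact ContinuousAt.comp (f := fun v : ℝ => c + v * I) (g := Close_G z₀) h2 h3

theorem Close_pow (t y : ℝ) (k : ℕ) : (1 + |t + y|) ^ k ≤ (1 + |t|) ^ k * (1 + |y|) ^ k := by
  rw [← mul_pow]
  have h1 : |t + y| ≤ |t| + |y| := abs_add_le t y
  have h2 : 0 ≤ |t| := abs_nonneg t
  have h3 : 0 ≤ |y| := abs_nonneg y
  gcongr
  nlinarith

/-- Tonelli for the convolution type integrals. -/
theorem Close_tonelli (κ g m : ℝ → ℝ) (α β A : ℝ) (k : ℕ) (hκ0 : ∀ y, 0 ≤ κ y)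
    (hκm : Continuous κ) (hκ : Integrable (fun y => κ y * (1 + |y|) ^ k))
    (hg : Continuous g) (hg0 : ∀ v, 0 ≤ g v) (hgA : ∀ v, g v ≤ A * (1 + |v|) ^ k)
    (hm : Continuous m) (hm0 : ∀ t, 0 ≤ m t) (B : ℝ → ℝ)
    (hB : ∀ y, ∫ t in Ioc α β, m t * g (t + y) ≤ B y) (hBi : Integrable (fun y => κ y * B y)) :
    Integrable (fun t => m t * ∫ y, κ y * g (t + y)) (volume.restrict (Ioc α β)) ∧
    ∫ t in Ioc α β, m t * ∫ y, κ y * g (t + y) ≤ ∫ y, κ y * B y := by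
  have hA : 0 ≤ A := by
    have := (hg0 0).trans (hgA 0)
    simpa using this
  set μ := (volume.restrict (Ioc α β)) with hμ
  have hF : Integrable (Function.uncurry fun (t y : ℝ) => m t * (κ y * g (t + y)))
      (μ.prod volume) := by
    have hb : Integrable (fun z : ℝ × ℝ => (m z.1 * A * (1 + |z.1|) ^ k) *
        (κ z.2 * (1 + |z.2|) ^ k)) (μ.prod volume) := by
      apply Integrable.mul_prod (f := fun t : ℝ => m t * A * (1 + |t|) ^ k)
        (g := fun y : ℝ => κ y * (1 + |y|) ^ k) _ hκ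
      have hc : Continuous (fun t : ℝ => m t * A * (1 + |t|) ^ k) := by fun_prop
      exact (hc.integrableOn_Icc (a := α) (b := β)).mono_set Ioc_subset_Icc_self
    refine hb.mono' ?_ ?_
    · have : Continuous (Function.uncurry fun (t y : ℝ) => m t * (κ y * g (t + y))) := by
        simp only [Function.uncurry_def]
        fun_prop
      exact this.aestronglyMeasurable
    · refine Filter.Eventually.of_forall fun z => ?_
      simp only [Function.uncurry_def]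
      rw [Real.norm_eq_abs, abs_of_nonneg (mul_nonneg (hm0 _) (mul_nonneg (hκ0 _) (hg0 _)))]
      have h1 := hgA (z.1 + z.2)
      have h2 := Close_pow z.1 z.2 k
      have h3 : g (z.1 + z.2) ≤ A * ((1 + |z.1|) ^ k * (1 + |z.2|) ^ k) :=
        h1.trans (mul_le_mul_of_nonneg_left h2 hA)
      calc m z.1 * (κ z.2 * g (z.1 + z.2))
          ≤ m z.1 * (κ z.2 * (A * ((1 + |z.1|) ^ k * (1 + |z.2|) ^ k))) :=
            mul_le_mul_of_nonneg_left (mul_le_mul_of_nonneg_left h3 (hκ0 _)) (hm0 _)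
        _ = _ := by ring
  have e1 : (fun t => m t * ∫ y, κ y * g (t + y)) =
      fun t => ∫ y, m t * (κ y * g (t + y)) := by
    funext t
    rw [integral_const_mul]
  constructor
  · rw [e1]
    exact hF.integral_prod_left
  · rw [e1]
    rw [integral_integral_swap hF]
    apply integral_mono_of_nonneg
    · refine Filter.Eventually.of_forall fun y => ?_
      apply integral_nonneg
      intro t
      exact mul_nonneg (hm0 _) (mul_nonneg (hκ0 _) (hg0 _))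
    · exact hBi
    · refine Filter.Eventually.of_forall fun y => ?_
      have e2 : (∫ t, m t * (κ y * g (t + y)) ∂μ) = κ y * ∫ t in Ioc α β, m t * g (t + y) := by
        rw [← integral_const_mul]
        congr 1
        funext t
        ring
      simp only
      rw [e2]
      exact mul_le_mul_of_nonneg_left (hB y) (hκ0 y)

/-- the kernel. -/
noncomputable def Close_k (h σ y : ℝ) : ℝ := ‖kn h (σ + y * I) / (σ + y * I)‖

theorem Close_k_nonneg (h σ y : ℝ) : 0 ≤ Close_k h σ y := norm_nonneg _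

theorem Close_k_cont (h σ : ℝ) (hσ : σ ≠ 0) : Continuous (Close_k h σ) := by
  unfold Close_k
  apply Continuous.norm
  apply Continuous.div
  · exact (differentiable_kn h).continuous.comp (by fun_prop)
  · fun_prop
  · intro y hy
    have := congrArg Complex.re hy
    simp at this
    exact hσ this

theorem Close_k_int (k : ℕ) : ∃ C : ℝ, 0 < C ∧ ∀ h σ : ℝ, 0 < h → σ ≠ 0 →
    Integrable (fun y : ℝ => Close_k h σ y * ((1 + h * |y|) ^ 30 * (1 + |y|) ^ k)) ∧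
    Integrable (fun y : ℝ => Close_k h σ y * (1 + |y|) ^ k) ∧
    Integrable (fun y : ℝ => Close_k h σ y) ∧
    ∫ y : ℝ, Close_k h σ y * ((1 + h * |y|) ^ 30 * (1 + |y|) ^ k)
      ≤ C * Real.exp (32 * h * |σ| + σ ^ 2) * (1 + 1 / (h * |σ|)) ∧
    ∫ y : ℝ, Close_k h σ y
      ≤ C * Real.exp (32 * h * |σ| + σ ^ 2) * (1 + 1 / (h * |σ|)) := by
  obtain ⟨C, hC, H⟩ := kn_int k
  refine ⟨C, hC, fun h σ hh hσ => ?_⟩
  obtain ⟨h1, h2⟩ := H h σ hh hσ
  have e : (fun y : ℝ => Close_k h σ y * ((1 + h * |y|) ^ 30 * (1 + |y|) ^ k)) =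
      (fun y : ℝ => (1 + h * |y|) ^ 30 * (1 + |y|) ^ k * ‖kn h (σ + y * I) / (σ + y * I)‖) := by
    funext y
    unfold Close_k
    ring
  have i1 : Integrable (fun y : ℝ => Close_k h σ y * ((1 + h * |y|) ^ 30 * (1 + |y|) ^ k)) := by
    rw [e]; exact h1
  have hc := Close_k_cont h σ hσ
  have b1 : ∀ y : ℝ, 1 ≤ (1 + h * |y|) ^ 30 := fun y =>
    one_le_pow₀ (by have := mul_nonneg hh.le (abs_nonneg y); linarith only [this])
  have b2 : ∀ y : ℝ, 1 ≤ (1 + |y|) ^ k := fun y =>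
    one_le_pow₀ (by have := abs_nonneg y; linarith)
  have i2 : Integrable (fun y : ℝ => Close_k h σ y * (1 + |y|) ^ k) := by
    refine i1.mono' ?_ ?_
    · have : Continuous (fun y : ℝ => Close_k h σ y * (1 + |y|) ^ k) := by fun_prop
      exact this.aestronglyMeasurable
    · refine Filter.Eventually.of_forall fun y => ?_
      have hp : 0 ≤ (1 + |y|) ^ k := zero_le_one.trans (b2 y)
      rw [Real.norm_eq_abs, abs_of_nonneg (mul_nonneg (Close_k_nonneg _ _ _) hp)]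
      apply mul_le_mul_of_nonneg_left _ (Close_k_nonneg _ _ _)
      exact le_mul_of_one_le_left hp (b1 y)
  have i3 : Integrable (fun y : ℝ => Close_k h σ y) := by
    refine i2.mono' hc.aestronglyMeasurable ?_
    refine Filter.Eventually.of_forall fun y => ?_
    rw [Real.norm_eq_abs, abs_of_nonneg (Close_k_nonneg _ _ _)]
    exact le_mul_of_one_le_right (Close_k_nonneg _ _ _) (b2 y)
  refine ⟨i1, i2, i3, ?_, ?_⟩
  · rw [e]; exact h2
  · refine le_trans ?_ h2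
    rw [← e]
    apply integral_mono i3 i1
    intro y
    simp only
    apply le_mul_of_one_le_right (Close_k_nonneg _ _ _)
    have := b1 y
    have := b2 y
    nlinarith

/-- the squared function on a line. -/
noncomputable def Close_g (z₀ a : ℝ) (w : ℂ) (v : ℝ) : ℝ :=
  ‖Close_G z₀ ((1 / 2 + a + w.im * I) + v * I)‖ ^ 2

theorem Close_g_cont (z₀ a : ℝ) (w : ℂ) (ha : 0 ≤ a) : Continuous (Close_g z₀ a w) := by
  unfold Close_g
  have := Close_G_cont z₀ (1 / 2 + a + w.im * I) (by simp; linarith only [ha])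
  fun_prop

theorem Close_g_growth (z₀ a : ℝ) (w : ℂ) (hz : 1 < z₀) (ha : 0 ≤ a) (ha2 : a ≤ 3 / 2) :
    ∃ A : ℝ, ∀ v, Close_g z₀ a w v ≤ A * (1 + |v|) ^ 8 := by
  obtain ⟨A, hA, H⟩ := Close_G_growth z₀ hz
  refine ⟨(A * (1 + |w.im|) ^ 4) ^ 2, fun v => ?_⟩
  unfold Close_g
  have h := H ((1 / 2 + a + w.im * I) + v * I) (by simp; linarith) (by simp; linarith)
  have h1 : ((1 / 2 + a + w.im * I) + v * I : ℂ).im = w.im + v := by simp
  rw [h1] at h
  have h2 := Close_pow w.im v 4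
  have h3 : ‖Close_G z₀ ((1 / 2 + a + w.im * I) + v * I)‖ ≤
      A * ((1 + |w.im|) ^ 4 * (1 + |v|) ^ 4) :=
    h.trans (mul_le_mul_of_nonneg_left h2 hA.le)
  calc ‖Close_G z₀ ((1 / 2 + a + w.im * I) + v * I)‖ ^ 2
      ≤ (A * ((1 + |w.im|) ^ 4 * (1 + |v|) ^ 4)) ^ 2 :=
        pow_le_pow_left₀ (norm_nonneg _) h3 2
    _ = _ := by ring

theorem Close_point (z₀ : ℝ) (hz : 1 < z₀) (a b : ℝ) (ha : 0 ≤ a) (hb : b ≤ 3 / 2)
    (h lm : ℝ) (hh : 0 < h) (w : ℂ) (hwa : a < w.re) (hwb : w.re < b) (t : ℝ) :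
    ‖Close_G z₀ (pt w t)‖ ^ 2 ≤
      Real.exp (-2 * lm * (w.re - a)) *
        ((∫ y : ℝ, Close_k h (a - w.re) y) *
        ∫ y : ℝ, Close_k h (a - w.re) y * Close_g z₀ a w (t + y)) +
      Real.exp (2 * lm * (b - w.re)) *
        ((∫ y : ℝ, Close_k h (b - w.re) y) *
        ∫ y : ℝ, Close_k h (b - w.re) y * Close_g z₀ b w (t + y)) := by
  obtain ⟨A, hA, H⟩ := Close_G_growth z₀ hz
  have key := interp (fun w' => Close_G z₀ (pt w' t)) a b
    (by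
      intro z hza hzb
      have h1 : 0 ≤ (pt z t).re := by unfold pt; simp; linarith only [ha, hwa, hza]
      have h2 := Close_G_diff z₀ (pt z t) h1
      have h3 : DifferentiableAt ℂ (fun w' : ℂ => pt w' t) z := by
        unfold pt
        fun_prop
      exact DifferentiableAt.comp (f := fun w' : ℂ => pt w' t) (g := Close_G z₀) z h2 h3)
    (A * (1 + |t|) ^ 4) 4
    (by
      intro z hza hzb
      have h := H (pt z t) (by unfold pt; simp; linarith only [ha, hza]) (by unfold pt; simp; linarith)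
      have h1 : (pt z t).im = t + z.im := by unfold pt; simp; ring
      rw [h1] at h
      have h2 := Close_pow t z.im 4
      calc ‖Close_G z₀ (pt z t)‖ ≤ A * (1 + |t + z.im|) ^ 4 := h
        _ ≤ A * ((1 + |t|) ^ 4 * (1 + |z.im|) ^ 4) := mul_le_mul_of_nonneg_left h2 hA.le
        _ = _ := by ring)
    h lm hh w hwa hwb
  have e : ∀ (x y : ℝ), ‖Close_G z₀ (pt ((x : ℂ) + (w.im + y) * I) t)‖ ^ 2 =
      Close_g z₀ x w (t + y) := by
    intro x y
    unfold Close_g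
    congr 3
    unfold pt
    push_cast
    ring
  simp only [e] at key
  exact key

theorem Close_gw (τ W t : ℝ) (hW : 0 < W) (h1 : τ - W < t) (h2 : t ≤ τ + W) :
    1 ≤ Real.exp 1 * gw τ W t := by
  unfold gw
  rw [← Real.exp_add]
  apply Real.one_le_exp
  have h3 : ((t - τ) / W) ^ 2 ≤ 1 := by
    rw [div_pow, div_le_one (by positivity)]
    apply sq_le_sq'
    · linarith
    · linarith
  linarith

theorem Close_gw_nonneg (τ W t : ℝ) : 0 ≤ gw τ W t := (Real.exp_pos _).le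

theorem Close_m_cont (z₀ : ℝ) : Continuous (fun t : ℝ => ‖Mo z₀ (pt 0 t)‖ ^ 2) := by
  have h1 : Continuous (fun t : ℝ => pt 0 t) := by
    unfold pt
    fun_prop
  have := (continuous_Mo z₀).comp h1
  have h2 : Continuous (fun t : ℝ => Mo z₀ (pt 0 t)) := this
  fun_prop

/-- general domination of a window integral by a Gaussian one. -/
theorem Close_win (f F : ℝ → ℝ) (τ W : ℝ) (hf0 : ∀ t, 0 ≤ f t)
    (hF0 : ∀ t, 0 ≤ F t) (hF : Integrable F)
    (hfF : ∀ t, τ - W < t → t ≤ τ + W → f t ≤ F t) :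
    ∫ t in Ioc (τ - W) (τ + W), f t ≤ ∫ t, F t := by
  calc ∫ t in Ioc (τ - W) (τ + W), f t ≤ ∫ t in Ioc (τ - W) (τ + W), F t := by
        apply integral_mono_of_nonneg
        · exact Filter.Eventually.of_forall hf0
        · exact hF.integrableOn
        · exact ae_restrict_of_forall_mem measurableSet_Ioc fun t ht => hfF t ht.1 ht.2
    _ ≤ ∫ t, F t := setIntegral_le_integral hF (Filter.Eventually.of_forall hF0)

theorem Close_mwin (z₀ τ W M : ℝ) (hW : 0 < W)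
    (hi : Integrable (fun t : ℝ => ‖Mo z₀ (pt 0 t)‖ ^ 2 * gw τ W t))
    (hM : ∫ t : ℝ, ‖Mo z₀ (pt 0 t)‖ ^ 2 * gw τ W t ≤ M) :
    ∫ t in Ioc (τ - W) (τ + W), ‖Mo z₀ (pt 0 t)‖ ^ 2 ≤ Real.exp 1 * M := by
  calc ∫ t in Ioc (τ - W) (τ + W), ‖Mo z₀ (pt 0 t)‖ ^ 2
      ≤ ∫ t, Real.exp 1 * (‖Mo z₀ (pt 0 t)‖ ^ 2 * gw τ W t) := by
        apply Close_win
        · intro t; positivity
        · intro t
          have := Close_gw_nonneg τ W t
          positivity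
        · exact hi.const_mul _
        · intro t h1 h2
          have h3 := Close_gw τ W t hW h1 h2
          have h4 : 0 ≤ ‖Mo z₀ (pt 0 t)‖ ^ 2 := by positivity
          calc ‖Mo z₀ (pt 0 t)‖ ^ 2 = ‖Mo z₀ (pt 0 t)‖ ^ 2 * 1 := by ring
            _ ≤ ‖Mo z₀ (pt 0 t)‖ ^ 2 * (Real.exp 1 * gw τ W t) :=
              mul_le_mul_of_nonneg_left h3 h4
            _ = _ := by ring
    _ = Real.exp 1 * ∫ t, (‖Mo z₀ (pt 0 t)‖ ^ 2 * gw τ W t) := integral_const_mul _ _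
    _ ≤ _ := mul_le_mul_of_nonneg_left hM (Real.exp_pos _).le

theorem Close_nearwin (z₀ τ W M N a y : ℝ) (w : ℂ) (hW : 0 < W) (ha : 0 ≤ a) (ha2 : a < 1 / 2)
    (hi : Integrable (fun t : ℝ => ‖Mo z₀ (pt 0 t)‖ ^ 2 * gw τ W t))
    (hM : ∫ t : ℝ, ‖Mo z₀ (pt 0 t)‖ ^ 2 * gw τ W t ≤ M)
    (hi' : Integrable (fun t : ℝ => ‖riemannZeta (pt (a + (w.im + y) * I) t) *
      (Mo z₀ (pt (a + (w.im + y) * I) t) * Mo z₀ (pt 0 t))‖ ^ 2 * gw τ W t))
    (hN : ∫ t : ℝ, ‖riemannZeta (pt (a + (w.im + y) * I) t) *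
      (Mo z₀ (pt (a + (w.im + y) * I) t) * Mo z₀ (pt 0 t))‖ ^ 2 * gw τ W t ≤ N) :
    ∫ t in Ioc (τ - W) (τ + W), ‖Mo z₀ (pt 0 t)‖ ^ 2 * Close_g z₀ a w (t + y) ≤
      2 * Real.exp 1 * (N + M) := by
  calc ∫ t in Ioc (τ - W) (τ + W), ‖Mo z₀ (pt 0 t)‖ ^ 2 * Close_g z₀ a w (t + y)
      ≤ ∫ t, 2 * Real.exp 1 * ((‖riemannZeta (pt (a + (w.im + y) * I) t) *
      (Mo z₀ (pt (a + (w.im + y) * I) t) * Mo z₀ (pt 0 t))‖ ^ 2 * gw τ W t) +
        (‖Mo z₀ (pt 0 t)‖ ^ 2 * gw τ W t)) := by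
        apply Close_win
        · intro t
          unfold Close_g
          positivity
        · intro t
          have := Close_gw_nonneg τ W t
          positivity
        · exact (hi'.add hi).const_mul _
        · intro t h1 h2
          have h3 := Close_gw τ W t hW h1 h2
          have hg := Close_gw_nonneg τ W t
          obtain ⟨u, hu⟩ : ∃ u, u = pt (a + (w.im + y) * I) t := ⟨_, rfl⟩
          have hre : u.re = 1 / 2 + a := by
            rw [hu]; unfold pt; simp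
          have hu1 : u ≠ 1 := by
            intro h
            rw [h] at hre
            simp at hre
            linarith
          have e : Close_g z₀ a w (t + y) = ‖Close_G z₀ u‖ ^ 2 := by
            unfold Close_g
            rw [hu]
            congr 3
            unfold pt
            push_cast
            ring
          have h4 := Close_G_upper z₀ u hu1 (by rw [hre]; linarith only [ha])
          rw [e, ← hu]
          obtain ⟨q, hq⟩ : ∃ q, q = Mo z₀ (pt 0 t) := ⟨_, rfl⟩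
          rw [← hq]
          have h5 : ‖q‖ ^ 2 * ‖Close_G z₀ u‖ ^ 2 ≤
              2 * (‖riemannZeta u * (Mo z₀ u * q)‖ ^ 2 + ‖q‖ ^ 2) := by
            calc ‖q‖ ^ 2 * ‖Close_G z₀ u‖ ^ 2
                ≤ ‖q‖ ^ 2 * ‖riemannZeta u * Mo z₀ u - 1‖ ^ 2 :=
                  mul_le_mul_of_nonneg_left (pow_le_pow_left₀ (norm_nonneg _) h4 2)
                    (by positivity)
              _ = ‖riemannZeta u * (Mo z₀ u * q) - q‖ ^ 2 := by
                  rw [← mul_pow, ← norm_mul]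
                  congr 2
                  ring
              _ ≤ (‖riemannZeta u * (Mo z₀ u * q)‖ + ‖q‖) ^ 2 :=
                  pow_le_pow_left₀ (norm_nonneg _) (norm_sub_le _ _) 2
              _ ≤ _ := by
                  nlinarith only [sq_nonneg (‖riemannZeta u * (Mo z₀ u * q)‖ - ‖q‖)]
          have h6 : 0 ≤ 2 * (‖riemannZeta u * (Mo z₀ u * q)‖ ^ 2 + ‖q‖ ^ 2) := by positivity
          calc ‖q‖ ^ 2 * ‖Close_G z₀ u‖ ^ 2
              ≤ 2 * (‖riemannZeta u * (Mo z₀ u * q)‖ ^ 2 + ‖q‖ ^ 2) * 1 := by rw [mul_one]; exact h5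
            _ ≤ 2 * (‖riemannZeta u * (Mo z₀ u * q)‖ ^ 2 + ‖q‖ ^ 2) *
                (Real.exp 1 * gw τ W t) := mul_le_mul_of_nonneg_left h3 h6
            _ = _ := by ring
    _ = 2 * Real.exp 1 * ∫ t, ((‖riemannZeta (pt (a + (w.im + y) * I) t) *
      (Mo z₀ (pt (a + (w.im + y) * I) t) * Mo z₀ (pt 0 t))‖ ^ 2 * gw τ W t) +
        (‖Mo z₀ (pt 0 t)‖ ^ 2 * gw τ W t)) := integral_const_mul _ _
    _ ≤ _ := by
        rw [integral_add hi' hi]
        apply mul_le_mul_of_nonneg_left _ (by positivity)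
        linarith

theorem Close_farwin (z₀ τ W M y : ℝ) (w : ℂ) (hz : 2 ≤ z₀)
    (hM : ∫ t in Ioc (τ - W) (τ + W), ‖Mo z₀ (pt 0 t)‖ ^ 2 ≤ M) :
    ∫ t in Ioc (τ - W) (τ + W), ‖Mo z₀ (pt 0 t)‖ ^ 2 * Close_g z₀ (3 / 2 : ℝ) w (t + y) ≤
      36 * z₀⁻¹ * M := by
  have hz0 : 0 < z₀ := by linarith
  have hp : ∀ t : ℝ, Close_g z₀ (3 / 2 : ℝ) w (t + y) ≤ 36 * z₀⁻¹ := by
    intro t
    unfold Close_g
    obtain ⟨u, hu⟩ : ∃ u : ℂ, u = (1 / 2 + ((3 / 2 : ℝ) : ℂ) + w.im * I) + ((t + y : ℝ) : ℂ) * I :=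
      ⟨_, rfl⟩
    rw [← hu]
    have hre : u.re = 2 := by
      rw [hu]; simp; norm_num
    have hu1 : u ≠ 1 := by
      intro h
      rw [h] at hre
      simp at hre
    have h4 := Close_G_upper z₀ u hu1 (by rw [hre]; norm_num)
    have h5 := h4.trans (close_far z₀ hz u hre)
    calc ‖Close_G z₀ u‖ ^ 2 ≤ (6 * z₀ ^ (-(1 / 2) : ℝ)) ^ 2 :=
          pow_le_pow_left₀ (norm_nonneg _) h5 2
      _ = 36 * z₀⁻¹ := by
          rw [mul_pow, ← Real.rpow_natCast (z₀ ^ (-(1 / 2) : ℝ)), ← Real.rpow_mul hz0.le]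
          norm_num
          exact Real.rpow_neg_one z₀
  calc ∫ t in Ioc (τ - W) (τ + W), ‖Mo z₀ (pt 0 t)‖ ^ 2 * Close_g z₀ (3 / 2 : ℝ) w (t + y)
      ≤ ∫ t in Ioc (τ - W) (τ + W), ‖Mo z₀ (pt 0 t)‖ ^ 2 * (36 * z₀⁻¹) := by
        apply integral_mono_of_nonneg
        · refine Filter.Eventually.of_forall fun t => ?_
          simp only [Pi.zero_apply]
          unfold Close_g
          positivity
        · have hc : Continuous (fun t : ℝ => ‖Mo z₀ (pt 0 t)‖ ^ 2 * (36 * z₀⁻¹)) :=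
            (Close_m_cont z₀).mul continuous_const
          exact (hc.integrableOn_Icc (a := τ - W) (b := τ + W)).mono_set Ioc_subset_Icc_self
        · refine Filter.Eventually.of_forall fun t => ?_
          simp only
          exact mul_le_mul_of_nonneg_left (hp t) (by positivity)
    _ = (∫ t in Ioc (τ - W) (τ + W), ‖Mo z₀ (pt 0 t)‖ ^ 2) * (36 * z₀⁻¹) :=
        integral_mul_const _ _
    _ ≤ M * (36 * z₀⁻¹) := mul_le_mul_of_nonneg_right hM (by positivity)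
    _ = _ := by ring

/-- constant of the near line bound. -/
noncomputable def Close_C (CU Cm : ℝ) : ℝ :=
  2 * Real.exp 1 * (16 * 5 ^ 301 * (CU * Real.exp CU) + Cm)

theorem Close_C_pos (CU Cm : ℝ) (hCU : 0 < CU) (hCm : 0 < Cm) : 0 < Close_C CU Cm := by
  unfold Close_C
  positivity

/-- pointwise size of the near line bound. -/
theorem Close_size (CU Cm L T τ h h₁ y : ℝ) (w w₀ : ℂ) (W : ℝ) (hCU : 0 < CU) (hCm : 0 < Cm)
    (hL : 0 < L) (hT : 1 ≤ T) (hW : 0 ≤ W) (hτ0 : 0 ≤ τ) (hτ : τ ≤ 3 * T) (hh : 0 < h)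
    (hh1 : h * h₁ = 1) (hh1w : h₁ ≤ ‖w‖) (hw : |w.im| ≤ 1)
    (hw₀ : w₀ = ((1 / L : ℝ) : ℂ) + (w.im + y) * I) :
    2 * Real.exp 1 * (CU * Real.exp (CU * 1) * W * L * ((1 + L * ‖w₀ - w₀‖) ^ 4 *
        (1 + L * ‖w₀ - 0‖) ^ 4) * (1 + |τ + w₀.im| / T) ^ 301 + Cm * W * L) ≤
      Close_C CU Cm * W * L *
        (1 + L * ‖w‖) ^ 8 * ((1 + h * |y|) ^ 30 * (1 + |y|) ^ 301) := by
  unfold Close_C
  have hy : 0 ≤ |y| := abs_nonneg y
  have hwn : 0 ≤ ‖w‖ := norm_nonneg w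
  have hhy : 0 ≤ h * |y| := mul_nonneg hh.le hy
  have hLw : 0 ≤ L * ‖w‖ := mul_nonneg hL.le hwn
  have e0 : ‖w₀ - w₀‖ = 0 := by simp
  have e1 : L * ‖w₀ - 0‖ ≤ 1 + L * ‖w‖ + L * |y| := by
    rw [sub_zero, hw₀]
    have h1 : ‖((1 / L : ℝ) : ℂ) + (w.im + y) * I‖ ≤ 1 / L + (‖w‖ + |y|) := by
      refine (norm_add_le _ _).trans ?_
      have h2 : ‖((1 / L : ℝ) : ℂ)‖ = 1 / L := by
        rw [Complex.norm_real, Real.norm_eq_abs, abs_of_pos (by positivity)]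
      have h3 : ‖((w.im : ℂ) + y) * I‖ ≤ ‖w‖ + |y| := by
        rw [norm_mul, Complex.norm_I, mul_one]
        have h4 : ((w.im : ℂ) + y) = ((w.im + y : ℝ) : ℂ) := by push_cast; ring
        rw [h4, Complex.norm_real, Real.norm_eq_abs]
        exact (abs_add_le _ _).trans (by gcongr; exact Complex.abs_im_le_norm w)
      linarith only [h2, h3]
    calc L * ‖((1 / L : ℝ) : ℂ) + (w.im + y) * I‖ ≤ L * (1 / L + (‖w‖ + |y|)) :=
          mul_le_mul_of_nonneg_left h1 hL.le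
      _ = 1 + L * ‖w‖ + L * |y| := by field_simp; ring
  have e2 : L * |y| ≤ (L * ‖w‖) * (h * |y|) := by
    have h1 : 1 ≤ h * ‖w‖ := by
      rw [← hh1]
      exact mul_le_mul_of_nonneg_left hh1w hh.le
    calc L * |y| = (L * |y|) * 1 := by ring
      _ ≤ (L * |y|) * (h * ‖w‖) := mul_le_mul_of_nonneg_left h1 (by positivity)
      _ = _ := by ring
  have e3 : 1 + L * ‖w₀ - 0‖ ≤ 2 * (1 + L * ‖w‖) ^ 2 * (1 + h * |y|) := by
    nlinarith only [hhy, hLw, e1, e2, mul_nonneg (mul_nonneg hLw hLw) hhy]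
  have e4 : (1 + L * ‖w₀ - 0‖) ^ 4 ≤ 16 * (1 + L * ‖w‖) ^ 8 * (1 + h * |y|) ^ 4 := by
    calc (1 + L * ‖w₀ - 0‖) ^ 4 ≤ (2 * (1 + L * ‖w‖) ^ 2 * (1 + h * |y|)) ^ 4 := by
          apply pow_le_pow_left₀ _ e3
          positivity
      _ = _ := by ring
  have e5 : (1 + |τ + w₀.im| / T) ^ 301 ≤ 5 ^ 301 * (1 + |y|) ^ 301 := by
    rw [← mul_pow]
    apply pow_le_pow_left₀ (by positivity)
    have h1 : w₀.im = w.im + y := by rw [hw₀]; simp
    have h2 : |τ + w₀.im| ≤ 3 * T + 1 + |y| := by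
      rw [h1]
      calc |τ + (w.im + y)| ≤ |τ| + |w.im + y| := abs_add_le _ _
        _ ≤ |τ| + (|w.im| + |y|) := by gcongr; exact abs_add_le _ _
        _ ≤ _ := by rw [abs_of_nonneg hτ0]; linarith
    have h3 : |τ + w₀.im| / T ≤ 4 + |y| := by
      rw [div_le_iff₀ (by linarith only [hT])]
      have e10 := mul_le_mul_of_nonneg_left hT hy
      have e11 : (4 + |y|) * T = 4 * T + |y| * T := by ring
      rw [e11]
      linarith only [h2, e10, hT]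
    linarith only [h3, hy]
  have e6 : (1 + h * |y|) ^ 4 ≤ (1 + h * |y|) ^ 30 :=
    pow_le_pow_right₀ (by linarith only [hhy]) (by norm_num)
  have e7 : 1 ≤ (1 + L * ‖w‖) ^ 8 := one_le_pow₀ (by linarith only [hLw])
  have e8 : 1 ≤ (1 + h * |y|) ^ 30 := one_le_pow₀ (by linarith only [hhy])
  have e9 : 1 ≤ (1 + |y|) ^ 301 := one_le_pow₀ (by linarith only [hy])
  have hWL : 0 ≤ W * L := mul_nonneg hW hL.le
  obtain ⟨P, hP⟩ : ∃ P, P = (1 + L * ‖w‖) ^ 8 := ⟨_, rfl⟩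
  obtain ⟨Q, hQ⟩ : ∃ Q, Q = (1 + h * |y|) ^ 30 := ⟨_, rfl⟩
  obtain ⟨R, hR⟩ : ∃ R, R = (1 + |y|) ^ 301 := ⟨_, rfl⟩
  obtain ⟨Z, hZ⟩ : ∃ Z : ℝ, Z = 5 ^ 301 := ⟨_, rfl⟩
  have hZ0 : 0 ≤ Z := by rw [hZ]; positivity
  have g1 : (1 + L * ‖w₀ - w₀‖) ^ 4 = 1 := by rw [e0]; simp
  rw [g1, one_mul, mul_one, mul_assoc _ (_ ^ 4) (_ ^ 301)]
  rw [← hP, ← hQ, ← hR, ← hZ]
  rw [← hP] at e4 e7
  rw [← hQ] at e6 e8
  rw [← hR] at e5 e9
  rw [← hZ] at e5
  have g2 : (1 + L * ‖w₀ - 0‖) ^ 4 ≤ 16 * P * Q :=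
    e4.trans (mul_le_mul_of_nonneg_left e6 (by positivity))
  have g3 : (1 + L * ‖w₀ - 0‖) ^ 4 * (1 + |τ + w₀.im| / T) ^ 301 ≤ (16 * P * Q) * (Z * R) :=
    mul_le_mul g2 e5 (by positivity) (by positivity)
  have g4 : (1 : ℝ) ≤ P * (Q * R) :=
    one_le_mul_of_one_le_of_one_le e7 (one_le_mul_of_one_le_of_one_le e8 e9)
  obtain ⟨U₁, hU₁⟩ : ∃ U₁, U₁ = (1 + L * ‖w₀ - 0‖) ^ 4 := ⟨_, rfl⟩
  obtain ⟨V₁, hV₁⟩ : ∃ V₁, V₁ = (1 + |τ + w₀.im| / T) ^ 301 := ⟨_, rfl⟩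
  rw [← hU₁, ← hV₁] at g3
  rw [← hU₁, ← hV₁]
  clear hU₁ hV₁ e1 e2 e3 e4 e5 e6 g1 g2 hP hQ hR hZ
  obtain ⟨E, hE⟩ : ∃ E, E = Real.exp 1 := ⟨_, rfl⟩
  have hE0 : 0 < E := by rw [hE]; exact Real.exp_pos 1
  obtain ⟨D, hD⟩ : ∃ D, D = CU * Real.exp CU := ⟨_, rfl⟩
  have hD0 : 0 < D := by rw [hD]; exact mul_pos hCU (Real.exp_pos _)
  rw [← hE, ← hD]
  calc 2 * E * (D * W * L * (U₁ * V₁) + Cm * W * L)
      = 2 * E * ((D * (W * L)) * (U₁ * V₁) + (Cm * (W * L)) * 1) := by ring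
    _ ≤ 2 * E * ((D * (W * L)) * ((16 * P * Q) * (Z * R)) +
        (Cm * (W * L)) * (P * (Q * R))) := by
        apply mul_le_mul_of_nonneg_left _ (by positivity)
        apply add_le_add
        · exact mul_le_mul_of_nonneg_left g3 (by positivity)
        · exact mul_le_mul_of_nonneg_left g4 (by positivity)
    _ = _ := by ring

/-- the kernel integrals, explicit form for the two lines. -/
theorem Close_kbd (Ck h σ X : ℝ) (hCk : 0 < Ck) (h1 : 1 ≤ h * |σ|)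
    (hX : 32 * h * |σ| + σ ^ 2 ≤ X) :
    Ck * Real.exp (32 * h * |σ| + σ ^ 2) * (1 + 1 / (h * |σ|)) ≤ 2 * Ck * Real.exp X := by
  have h2 : 1 / (h * |σ|) ≤ 1 := by
    rw [div_le_one (by linarith)]
    exact h1
  have h3 : 0 ≤ 1 / (h * |σ|) := by
    apply div_nonneg zero_le_one
    linarith
  calc Ck * Real.exp (32 * h * |σ| + σ ^ 2) * (1 + 1 / (h * |σ|))
      ≤ Ck * Real.exp X * 2 := by
        gcongr
        linarith
    _ = _ := by ring

/-- Final numerical combination. -/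
theorem Close_final (c₁ L b Ea Eb Ia Ib Na Nb E1 E2 X Cn Cf Z P W J : ℝ)
    (hEb0 : 0 ≤ Eb) (hE2 : 0 ≤ E2) (hX : 0 ≤ X)
    (hCf : 0 ≤ Cf) (hP : 1 ≤ P) (hWL : 0 ≤ W * L)
    (hIa : Ia ≤ E1) (hIa0 : 0 ≤ Ia) (hIb : Ib ≤ E2 * X)
    (hNa : Na ≤ Cn * W * L * P * E1)
    (hNb : Nb ≤ (36 * Z * (Cf * W * L)) * (E2 * X)) (hNb0 : 0 ≤ Nb) (hNa0 : 0 ≤ Na)
    (hEa : Ea ≤ Real.exp (-c₁ * b)) (hEX : Eb * (X * X) * Z ≤ Real.exp (-c₁ * b))
    (hJ : J ≤ 4 * (Ea * (Ia * Na) + Eb * (Ib * Nb))) :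
    J ≤ 4 * (E1 * (Cn * E1) + E2 * E2 * (36 * Cf)) * P * Real.exp (-c₁ * b) * W * L := by
  have hE1 : 0 ≤ E1 := hIa0.trans hIa
  have h1 : Ia * Na ≤ E1 * (Cn * W * L * P * E1) := mul_le_mul hIa hNa hNa0 hE1
  have h1' : 0 ≤ E1 * (Cn * W * L * P * E1) := le_trans (mul_nonneg hIa0 hNa0) h1
  have h2 : Ea * (Ia * Na) ≤ Real.exp (-c₁ * b) * (E1 * (Cn * W * L * P * E1)) :=
    mul_le_mul hEa h1 (mul_nonneg hIa0 hNa0) (Real.exp_pos _).le
  have h3 : Ib * Nb ≤ (E2 * X) * ((36 * Z * (Cf * W * L)) * (E2 * X)) :=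
    mul_le_mul hIb hNb hNb0 (by positivity)
  have h4 : Eb * (Ib * Nb) ≤ Eb * ((E2 * X) * ((36 * Z * (Cf * W * L)) * (E2 * X))) :=
    mul_le_mul_of_nonneg_left h3 hEb0
  have h5 : Eb * ((E2 * X) * ((36 * Z * (Cf * W * L)) * (E2 * X))) =
      (Eb * (X * X) * Z) * (E2 * E2 * (36 * Cf) * (W * L)) := by ring
  have h6 : (Eb * (X * X) * Z) * (E2 * E2 * (36 * Cf) * (W * L)) ≤
      Real.exp (-c₁ * b) * (E2 * E2 * (36 * Cf) * (W * L)) :=
    mul_le_mul_of_nonneg_right hEX (by positivity)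
  have h7 : Real.exp (-c₁ * b) * (E2 * E2 * (36 * Cf) * (W * L)) ≤
      Real.exp (-c₁ * b) * (E2 * E2 * (36 * Cf) * (W * L)) * P := by
    apply le_mul_of_one_le_right _ hP
    have := (Real.exp_pos (-c₁ * b)).le
    positivity
  calc J ≤ 4 * (Ea * (Ia * Na) + Eb * (Ib * Nb)) := hJ
    _ ≤ 4 * (Real.exp (-c₁ * b) * (E1 * (Cn * W * L * P * E1)) +
        Real.exp (-c₁ * b) * (E2 * E2 * (36 * Cf) * (W * L)) * P) := by
        linarith
    _ = _ := by ring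

/-- PROOF. Fix `t`, `s = 1/2+it`; `interp` for
`G(w') = (Zt (s+w') Mo (s+w') - (s+w'-1))/(s+w'+1) = ((s+w'-1)/(s+w'+1)) (ζ M (s+w') - 1)` on
`1/L ≤ Re w' ≤ 3/2`, at `w' = w`, with `h = 1/h₁`, `h₁ = Re w - 1/L ≥ (b-1)/L`, `lm = c₁ L`,
`c₁ = θ/12`. On both lines `|(s+w'-1)/(s+w'+1)| ≤ 1`; at `w` it is `≥ 1/2` since
`|Im (s+w)| ≥ T/4 ≥ 10`.
Near line (`Re w' = 1/L`): weight `e^{-2 lm h₁} = e^{-2c₁(L Re w - 1)} ≤ e^{-c₁ b}`; `kn_int` with
`h|σ| = 1`; `‖(ζM-1) M(s)‖² ≤ 2‖ζ M M(s)‖² + 2‖M(s)‖²`, integrate over `t` against `gw τ W`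
(`gw ≥ e^{-1}` on the window): `U` with `K = 1`, `w₀ = w₁ = 1/L + i(Im w + y)`, `w₂ = 0` and
`mo_upper`: `≤ C W L (1+L‖w₀‖)^4`, `1+L‖w₀‖ ≤ 2(1+L‖w‖)(1+L|y|)`, `L = h (L h₁) ≤ h L‖w‖`, so
`(1+L|y|)^4 ≤ (1+L‖w‖)^4 (1+h|y|)^4`.
Far line (`Re w' = 3/2`): `|ζM-1| ≤ 6 T^{-θ/2}` (`close_far`), `σ = 3/2 - Re w ≤ 3/2`,
`(∫κ)² ≤ C e^{64·(3/2)/h₁} ≤ C T^{96/(b-1)}`, `e^{2 lm σ} ≤ T^{3c₁} = T^{θ/4}`; with
`b ≥ b₀ = 1 + 800/θ` (`96/(b-1) ≤ θ/8`) the total is `≤ C T^{-θ + θ/4 + θ/8} W L ≤ e^{-c b} W L` for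
`T ≥ T₀(b)`. -/
theorem closeness (θ : ℝ) (hθ0 : 0 < θ) (hθ1 : θ ≤ 1 / 40) : ∃ C c b₀ : ℝ, 0 < C ∧ 0 < c ∧ 2 ≤ b₀ ∧
    ∀ b : ℝ, b₀ ≤ b → ∃ T₀ : ℝ, Real.exp 3200 ≤ T₀ ∧ ∀ T : ℝ, T₀ ≤ T →
    ∀ τ W : ℝ, T ^ (9 / 10 : ℝ) ≤ W → W ≤ T / 4 → T / 2 ≤ τ → τ ≤ 3 * T →
    ∀ w : ℂ, b / Real.log T ≤ w.re → w.re ≤ 1 / 8 → |w.im| ≤ 1 →
    ∫ t in (τ - W)..(τ + W), ‖(riemannZeta (pt w t) * Mo (T ^ θ) (pt w t) - 1) *
      Mo (T ^ θ) (pt 0 t)‖ ^ 2
      ≤ C * (1 + Real.log T * ‖w‖) ^ 8 * Real.exp (-c * b) * W * Real.log T := by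
  obtain ⟨CU, hCU, HU⟩ := U θ hθ0 hθ1
  obtain ⟨TU, hTU, HU⟩ := HU 1 le_rfl
  obtain ⟨Cm, hCm, Tm, hTm, Hm⟩ := mo_upper_right θ hθ0 hθ1
  obtain ⟨Ck, hCk, Hk⟩ := Close_k_int 301
  obtain ⟨Ck8, hCk8, Hk8⟩ := Close_k_int 8
  obtain ⟨E1, hE1⟩ : ∃ E1, E1 = 2 * Ck * Real.exp 33 := ⟨_, rfl⟩
  obtain ⟨E2, hE2⟩ : ∃ E2, E2 = 2 * Ck * Real.exp (9 / 4) := ⟨_, rfl⟩
  obtain ⟨Cn, hCn⟩ : ∃ Cn, Cn = Close_C CU Cm := ⟨_, rfl⟩
  obtain ⟨Cf, hCf⟩ : ∃ Cf, Cf = Real.exp 1 * Cm := ⟨_, rfl⟩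
  have hE1p : 0 < E1 := by rw [hE1]; positivity
  have hE2p : 0 < E2 := by rw [hE2]; positivity
  have hCnp : 0 < Cn := by rw [hCn]; exact Close_C_pos CU Cm hCU hCm
  have hCfp : 0 < Cf := by rw [hCf]; positivity
  have h800 : 0 < 800 / θ := by positivity
  have h800' : 1 ≤ 800 / θ := by
    rw [le_div_iff₀ hθ0]
    linarith
  refine ⟨4 * (E1 * (Cn * E1) + E2 * E2 * (36 * Cf)), θ / 12, 1 + 800 / θ, by positivity,
    by positivity, by linarith only [h800'], fun b hb => ?_⟩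
  refine ⟨max (max (Real.exp 3200) (Real.exp b)) (max (max TU Tm) (Real.exp (1 / θ))),
    (le_max_left _ _).trans (le_max_left _ _), ?_⟩
  intro T hT τ W hW hW4 hτ1 hτ2 w hw1 hw2 hw3
  have hT1 : Real.exp 3200 ≤ T := ((le_max_left _ _).trans (le_max_left _ _)).trans hT
  have hT2 : Real.exp b ≤ T := ((le_max_right _ _).trans (le_max_left _ _)).trans hT
  have hT3 : TU ≤ T := (((le_max_left _ _).trans (le_max_left _ _)).trans (le_max_right _ _)).trans hT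
  have hT4 : Tm ≤ T := (((le_max_right _ _).trans (le_max_left _ _)).trans (le_max_right _ _)).trans hT
  have hT5 : Real.exp (1 / θ) ≤ T := ((le_max_right _ _).trans (le_max_right _ _)).trans hT
  have hTbig : 3201 ≤ T := by
    have := Real.add_one_le_exp (3200 : ℝ)
    linarith only [hT1, this]
  have hT0 : 0 < T := by linarith only [hTbig]
  obtain ⟨L, hL⟩ : ∃ L, L = Real.log T := ⟨_, rfl⟩
  have hL1 : 3200 ≤ L := by
    rw [hL, Real.le_log_iff_exp_le hT0]; exact hT1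
  have hL2 : b ≤ L := by
    rw [hL, Real.le_log_iff_exp_le hT0]; exact hT2
  have hL3 : 1 / θ ≤ L := by
    rw [hL, Real.le_log_iff_exp_le hT0]; exact hT5
  have hL0 : 0 < L := by linarith
  obtain ⟨z₀, hz₀⟩ : ∃ z₀, z₀ = T ^ θ := ⟨_, rfl⟩
  have hz₀' : z₀ = Real.exp (θ * L) := by
    rw [hz₀, Real.rpow_def_of_pos hT0, hL, mul_comm]
  have hz2 : 2 ≤ z₀ := by
    rw [hz₀']
    have h1 : 1 ≤ θ * L := by
      rw [div_le_iff₀ hθ0] at hL3
      linarith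
    have h2 := Real.add_one_le_exp (θ * L)
    linarith only [h1, h2]
  have hz1 : 1 < z₀ := by linarith only [hz2]
  have hWpos : 0 < W := lt_of_lt_of_le (Real.rpow_pos_of_pos hT0 _) hW
  rw [← hL] at hw1
  rw [← hL, ← hz₀]
  -- the parameters
  have hb1 : 1 + 800 / θ ≤ b := hb
  have hb2 : 2 ≤ b := by linarith only [h800', hb]
  have hwre : b ≤ L * w.re := by
    rw [div_le_iff₀ hL0] at hw1
    linarith only [hw1]
  obtain ⟨h₁, hh₁⟩ : ∃ h₁, h₁ = w.re - 1 / L := ⟨_, rfl⟩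
  have hLh₁ : L * h₁ = L * w.re - 1 := by
    rw [hh₁]; field_simp
  have hh₁p : 0 < h₁ := by
    have : 0 < L * h₁ := by rw [hLh₁]; linarith only [h800', hb, hwre]
    exact (mul_pos_iff_of_pos_left hL0).mp this
  have h1L : 0 < 1 / L := by positivity
  have hh₁8 : h₁ ≤ 1 / 8 := by linarith only [hw2, hh₁, h1L]
  obtain ⟨h, hh⟩ : ∃ h, h = 1 / h₁ := ⟨_, rfl⟩
  have hhp : 0 < h := by rw [hh]; positivity
  have hhh₁ : h * h₁ = 1 := by rw [hh]; field_simp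
  have hwa : 1 / L < w.re := by linarith only [hh₁, hh₁p]
  have hwb : w.re < 3 / 2 := by linarith only [hw2]
  have hσa : (1 / L - w.re) ≠ 0 := by linarith only [hh₁, hh₁p]
  have hσb : (3 / 2 - w.re) ≠ 0 := by linarith only [hw2]
  have hσa' : |1 / L - w.re| = h₁ := by
    rw [abs_of_neg (by linarith only [hh₁, hh₁p])]; linarith only [hh₁]
  have hσb' : |3 / 2 - w.re| = 3 / 2 - w.re := abs_of_pos (by linarith only [hw2])
  obtain ⟨ka1, ka2, ka3, ka4, ka5⟩ := Hk h (1 / L - w.re) hhp hσa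
  obtain ⟨kb1, kb2, kb3, kb4, kb5⟩ := Hk h (3 / 2 - w.re) hhp hσb
  have ka8 := (Hk8 h (1 / L - w.re) hhp hσa).2.1
  have kb8 := (Hk8 h (3 / 2 - w.re) hhp hσb).2.1
  have bda : Ck * Real.exp (32 * h * |1 / L - w.re| + (1 / L - w.re) ^ 2) *
      (1 + 1 / (h * |1 / L - w.re|)) ≤ E1 := by
    rw [hE1]
    apply Close_kbd _ _ _ _ hCk
    · rw [hσa', hhh₁]
    · rw [hσa', mul_assoc, hhh₁]
      have : (1 / L - w.re) ^ 2 ≤ 1 := by
        rw [← sq_abs, hσa']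
        exact pow_le_one₀ hh₁p.le (by linarith only [hh₁8])
      linarith only [this]
  obtain ⟨X, hX⟩ : ∃ X, X = Real.exp (48 * L / (b - 1)) := ⟨_, rfl⟩
  have hXp : 0 < X := by rw [hX]; exact Real.exp_pos _
  have hb3 : 0 < b - 1 := by linarith only [hb2]
  have hh48 : h ≤ L / (b - 1) := by
    rw [hh, div_le_div_iff₀ hh₁p hb3]
    linarith only [hLh₁, hwre]
  have bdb : Ck * Real.exp (32 * h * |3 / 2 - w.re| + (3 / 2 - w.re) ^ 2) *
      (1 + 1 / (h * |3 / 2 - w.re|)) ≤ E2 * X := by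
    have e : E2 * X = 2 * Ck * Real.exp (9 / 4 + 48 * L / (b - 1)) := by
      rw [hE2, hX, Real.exp_add]; ring
    rw [e]
    apply Close_kbd _ _ _ _ hCk
    · rw [hσb']
      have h8 : 1 ≤ 3 / 2 - w.re := by linarith only [hw2]
      have h9 : 1 ≤ h := by
        rw [hh, le_div_iff₀ hh₁p]
        linarith only [hh₁8]
      exact one_le_mul_of_one_le_of_one_le h9 h8
    · rw [hσb']
      have hs1 : 0 ≤ w.re := by linarith only [hwa, h1L]
      have hs2 : 0 ≤ 3 / 2 - w.re := by linarith only [hw2]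
      have hs3 : 3 / 2 - w.re ≤ 3 / 2 := by linarith only [hs1]
      have h10 : (3 / 2 - w.re) ^ 2 ≤ 9 / 4 :=
        (pow_le_pow_left₀ hs2 hs3 2).trans_eq (by norm_num)
      have h11 : 32 * h * (3 / 2 - w.re) ≤ 48 * L / (b - 1) := by
        calc 32 * h * (3 / 2 - w.re) ≤ 32 * h * (3 / 2) :=
              mul_le_mul_of_nonneg_left hs3 (by positivity)
          _ = 48 * h := by ring
          _ ≤ 48 * (L / (b - 1)) := by linarith only [hh48]
          _ = _ := by ring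
      linarith only [h10, h11]
  -- mean squares
  obtain ⟨im, Im⟩ := Hm T hT4 τ W hW 0 (by simp)
  rw [← hL] at Im
  rw [← hz₀] at im Im
  have mw := Close_mwin z₀ τ W (Cm * W * L) hWpos im Im
  -- near line
  have hmc := Close_m_cont z₀
  have hwn : h₁ ≤ ‖w‖ := by
    have := Complex.re_le_norm w
    linarith only [this, hh₁, h1L]
  have hbn : ∀ y : ℝ, ∫ t in Ioc (τ - W) (τ + W), ‖Mo z₀ (pt 0 t)‖ ^ 2 *
      Close_g z₀ (1 / L) w (t + y) ≤
      Cn * W * L * (1 + L * ‖w‖) ^ 8 * ((1 + h * |y|) ^ 30 * (1 + |y|) ^ 301) := by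
    intro y
    obtain ⟨w₀, hw₀⟩ : ∃ w₀ : ℂ, w₀ = ((1 / L : ℝ) : ℂ) + (w.im + y) * I := ⟨_, rfl⟩
    have hw₀re : w₀.re = 1 / L := by rw [hw₀]; simp
    have hw₀re' : |w₀.re| ≤ 1 / Real.log T := by
      rw [hw₀re, ← hL, abs_of_pos h1L]
    obtain ⟨iU, IU⟩ := HU T hT3 τ W hW (by linarith only [hW4, hT0]) w₀ w₀ 0 hw₀re' hw₀re'
      (by rw [← hL]; simpa using h1L.le)
    rw [← hL] at IU
    rw [← hz₀] at iU IU
    rw [hw₀] at iU
    have h2 := Close_nearwin z₀ τ W (Cm * W * L) (CU * Real.exp (CU * 1) * W * L *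
      ((1 + L * ‖w₀ - w₀‖) ^ 4 * (1 + L * ‖w₀ - 0‖) ^ 4) * (1 + |τ + w₀.im| / T) ^ 301)
      (1 / L) y w hWpos h1L.le (by rw [div_lt_div_iff₀ hL0 (by norm_num)]; linarith only [hL1]) im Im
      iU (by rw [← hw₀]; exact IU)
    refine h2.trans ?_
    rw [hCn]
    exact Close_size CU Cm L T τ h h₁ y w w₀ W hCU hCm hL0 (by linarith only [hTbig]) hWpos.le
      (by linarith only [hτ1, hT0])
      hτ2 hhp hhh₁ hwn hw3 hw₀
  obtain ⟨Aa, hAa⟩ := Close_g_growth z₀ (1 / L) w hz1 h1L.le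
    (by rw [div_le_div_iff₀ hL0 (by norm_num)]; linarith only [hL1])
  obtain ⟨Ab, hAb⟩ := Close_g_growth z₀ (3 / 2) w hz1 (by norm_num) le_rfl
  obtain ⟨Tni, Tn⟩ := Close_tonelli (Close_k h (1 / L - w.re)) (Close_g z₀ (1 / L) w)
    (fun t : ℝ => ‖Mo z₀ (pt 0 t)‖ ^ 2) (τ - W) (τ + W) Aa 8 (Close_k_nonneg _ _)
    (Close_k_cont _ _ hσa) ka8 (Close_g_cont z₀ _ w h1L.le)
    (fun v => by unfold Close_g; positivity) hAa hmc (fun t => by positivity)
    (fun y => Cn * W * L * (1 + L * ‖w‖) ^ 8 * ((1 + h * |y|) ^ 30 * (1 + |y|) ^ 301)) hbn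
    (by
      have := ka1.const_mul (Cn * W * L * (1 + L * ‖w‖) ^ 8)
      refine this.congr (Filter.Eventually.of_forall fun y => ?_)
      simp only
      rw [mul_left_comm])
  obtain ⟨Tfi, Tf⟩ := Close_tonelli (Close_k h (3 / 2 - w.re)) (Close_g z₀ (3 / 2) w)
    (fun t : ℝ => ‖Mo z₀ (pt 0 t)‖ ^ 2) (τ - W) (τ + W) Ab 8 (Close_k_nonneg _ _)
    (Close_k_cont _ _ hσb) kb8 (Close_g_cont z₀ _ w (by norm_num))
    (fun v => by unfold Close_g; positivity) hAb hmc (fun t => by positivity)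
    (fun _ => 36 * z₀⁻¹ * (Cf * W * L))
    (fun y => Close_farwin z₀ τ W _ y w hz2 (mw.trans_eq (by rw [hCf]; ring)))
    (kb3.mul_const _)
  have hNa : ∫ t in Ioc (τ - W) (τ + W), ‖Mo z₀ (pt 0 t)‖ ^ 2 *
      ∫ y, Close_k h (1 / L - w.re) y * Close_g z₀ (1 / L) w (t + y) ≤
      Cn * W * L * (1 + L * ‖w‖) ^ 8 * E1 := by
    refine Tn.trans ?_
    have e : (fun y : ℝ => Close_k h (1 / L - w.re) y *
        (Cn * W * L * (1 + L * ‖w‖) ^ 8 * ((1 + h * |y|) ^ 30 * (1 + |y|) ^ 301))) =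
        fun y : ℝ => (Cn * W * L * (1 + L * ‖w‖) ^ 8) * (Close_k h (1 / L - w.re) y *
        ((1 + h * |y|) ^ 30 * (1 + |y|) ^ 301)) := by
      funext y
      rw [mul_left_comm]
    rw [e, integral_const_mul]
    apply mul_le_mul_of_nonneg_left (ka4.trans bda)
    positivity
  have hNb : ∫ t in Ioc (τ - W) (τ + W), ‖Mo z₀ (pt 0 t)‖ ^ 2 *
      ∫ y, Close_k h (3 / 2 - w.re) y * Close_g z₀ (3 / 2) w (t + y) ≤
      (36 * z₀⁻¹ * (Cf * W * L)) * (E2 * X) := by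
    refine Tf.trans ?_
    rw [integral_mul_const, mul_comm]
    apply mul_le_mul_of_nonneg_left (kb5.trans bdb)
    have : 0 < z₀ := by linarith only [hz2]
    positivity
  have hNa0 : 0 ≤ ∫ t in Ioc (τ - W) (τ + W), ‖Mo z₀ (pt 0 t)‖ ^ 2 *
      ∫ y, Close_k h (1 / L - w.re) y * Close_g z₀ (1 / L) w (t + y) := by
    apply integral_nonneg
    intro t
    apply mul_nonneg (by positivity)
    apply integral_nonneg
    intro y
    apply mul_nonneg (Close_k_nonneg _ _ _)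
    unfold Close_g
    positivity
  have hNb0 : 0 ≤ ∫ t in Ioc (τ - W) (τ + W), ‖Mo z₀ (pt 0 t)‖ ^ 2 *
      ∫ y, Close_k h (3 / 2 - w.re) y * Close_g z₀ (3 / 2) w (t + y) := by
    apply integral_nonneg
    intro t
    apply mul_nonneg (by positivity)
    apply integral_nonneg
    intro y
    apply mul_nonneg (Close_k_nonneg _ _ _)
    unfold Close_g
    positivity
  have hIa0 : 0 ≤ ∫ y, Close_k h (1 / L - w.re) y :=
    integral_nonneg fun y => Close_k_nonneg _ _ _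
  have hIb0 : 0 ≤ ∫ y, Close_k h (3 / 2 - w.re) y :=
    integral_nonneg fun y => Close_k_nonneg _ _ _
  obtain ⟨Ea, hEa⟩ : ∃ Ea, Ea = Real.exp (-2 * (θ / 12 * L) * (w.re - 1 / L)) := ⟨_, rfl⟩
  obtain ⟨Eb, hEb⟩ : ∃ Eb, Eb = Real.exp (2 * (θ / 12 * L) * (3 / 2 - w.re)) := ⟨_, rfl⟩
  have hEa' : Ea ≤ Real.exp (-(θ / 12) * b) := by
    rw [hEa, Real.exp_le_exp]
    have e : -2 * (θ / 12 * L) * (w.re - 1 / L) = -(θ / 12) * (2 * (L * w.re - 1)) := by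
      field_simp
    rw [e]
    have h1 : b ≤ 2 * (L * w.re - 1) := by linarith only [hwre, hb2]
    exact mul_le_mul_of_nonpos_left h1 (by linarith only [hθ0])
  have hEX : Eb * (X * X) * z₀⁻¹ ≤ Real.exp (-(θ / 12) * b) := by
    rw [hEb, hX, hz₀', ← Real.exp_neg, ← Real.exp_add, ← Real.exp_add, ← Real.exp_add,
      Real.exp_le_exp]
    have hw0 : 0 ≤ w.re := by linarith only [hwa, h1L]
    have h1 : 2 * (θ / 12 * L) * (3 / 2 - w.re) ≤ θ * L / 4 := by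
      calc 2 * (θ / 12 * L) * (3 / 2 - w.re) = (θ * L / 6) * (3 / 2 - w.re) := by ring
        _ ≤ (θ * L / 6) * (3 / 2) :=
          mul_le_mul_of_nonneg_left (by linarith only [hw0]) (by positivity)
        _ = _ := by ring
    have h2 : 48 * L / (b - 1) ≤ 48 * L * θ / 800 := by
      rw [div_le_div_iff₀ hb3 (by norm_num)]
      have h3 : 800 ≤ θ * (b - 1) := by
        have : 800 / θ ≤ b - 1 := by linarith only [hb1]
        rw [div_le_iff₀ hθ0] at this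
        linarith only [this]
      calc 48 * L * 800 ≤ 48 * L * (θ * (b - 1)) :=
            mul_le_mul_of_nonneg_left h3 (by positivity)
        _ = _ := by ring
    have h3 : θ * b ≤ θ * L := mul_le_mul_of_nonneg_left hL2 hθ0.le
    have h4 : 0 ≤ θ * L := by positivity
    linarith only [h1, h2, h3, h4]
  have hp1 : 1 ≤ (1 + L * ‖w‖) ^ 8 := by
    apply one_le_pow₀
    have : 0 ≤ L * ‖w‖ := by positivity
    linarith only [this]
  rw [intervalIntegral.integral_of_le (by linarith only [hWpos])]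
  apply Close_final (θ / 12) L b Ea Eb _ _ _ _ E1 E2 X Cn Cf z₀⁻¹ _ W _
    (by rw [hEb]; positivity) hE2p.le hXp.le hCfp.le
    hp1 (by positivity) (ka5.trans bda) hIa0 (kb5.trans bdb) hNa hNb
    hNb0 hNa0 hEa' hEX
  -- the pointwise comparison
  calc ∫ t in Ioc (τ - W) (τ + W), ‖(riemannZeta (pt w t) * Mo z₀ (pt w t) - 1) *
      Mo z₀ (pt 0 t)‖ ^ 2
      ≤ ∫ t in Ioc (τ - W) (τ + W), 4 * (Ea * ((∫ y, Close_k h (1 / L - w.re) y) *
        (‖Mo z₀ (pt 0 t)‖ ^ 2 *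
          ∫ y, Close_k h (1 / L - w.re) y * Close_g z₀ (1 / L) w (t + y))) +
        Eb * ((∫ y, Close_k h (3 / 2 - w.re) y) * (‖Mo z₀ (pt 0 t)‖ ^ 2 *
          ∫ y, Close_k h (3 / 2 - w.re) y * Close_g z₀ (3 / 2) w (t + y)))) := by
        apply integral_mono_of_nonneg
        · refine Filter.Eventually.of_forall fun t => ?_
          simp only [Pi.zero_apply]
          positivity
        · exact (((Tni.const_mul _).const_mul _).add ((Tfi.const_mul _).const_mul _)).const_mul _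
        · apply ae_restrict_of_forall_mem measurableSet_Ioc
          intro t ht
          have him : 10 ≤ |(pt w t).im| := by
            have e : (pt w t).im = w.im + t := by unfold pt; simp
            rw [e]
            have h1 := (abs_le.mp hw3).1
            have h2 := ht.1
            have h3 : 10 ≤ w.im + t := by linarith only [h1, h2, hτ1, hW4, hTbig]
            exact h3.trans (le_abs_self _)
          have h1 := Close_G_lower z₀ (pt w t) him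
          have h2 := Close_point z₀ hz1 (1 / L) (3 / 2) h1L.le le_rfl h (θ / 12 * L) hhp w hwa hwb t
          rw [← hEa, ← hEb] at h2
          obtain ⟨q, hq⟩ : ∃ q, q = ‖Mo z₀ (pt 0 t)‖ ^ 2 := ⟨_, rfl⟩
          have hq0 : 0 ≤ q := by rw [hq]; positivity
          simp only
          rw [norm_mul, mul_pow, ← hq]
          have h3 : ‖riemannZeta (pt w t) * Mo z₀ (pt w t) - 1‖ ^ 2 ≤
              4 * ‖Close_G z₀ (pt w t)‖ ^ 2 := by
            calc ‖riemannZeta (pt w t) * Mo z₀ (pt w t) - 1‖ ^ 2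
                ≤ (2 * ‖Close_G z₀ (pt w t)‖) ^ 2 := pow_le_pow_left₀ (norm_nonneg _) h1 2
              _ = _ := by ring
          have h4 := mul_le_mul_of_nonneg_right
            (h3.trans (mul_le_mul_of_nonneg_left h2 (by norm_num : (0 : ℝ) ≤ 4))) hq0
          refine h4.trans (le_of_eq ?_)
          ring
    _ = _ := by
        rw [integral_const_mul, integral_add ((Tni.const_mul _).const_mul _)
          ((Tfi.const_mul _).const_mul _), integral_const_mul, integral_const_mul,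
          integral_const_mul, integral_const_mul]

end Pool.Agent.H14.CO

end

section

/-!
# CO: the `|M|²`-mass integral of the supremum weight
-/

set_option autoImplicit false

namespace Pool.Agent.H14.CO

open Set MeasureTheory Complex

/-- the density -/
noncomputable def gM (z₀ t : ℝ) : ℝ := ‖Mo z₀ (pt 0 t)‖ ^ 2

theorem gM_nonneg (z₀ t : ℝ) : 0 ≤ gM z₀ t := by unfold gM; positivity

theorem continuous_gM (z₀ : ℝ) : Continuous (gM z₀) := by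
  unfold gM
  have h1 : Continuous fun t : ℝ => pt 0 t := by unfold pt; fun_prop
  exact (((continuous_Mo z₀).comp h1).norm).pow 2

theorem continuous_gw (τ W : ℝ) : Continuous (gw τ W) := by
  unfold gw; fun_prop

/-- one line -/
theorem line_mass (θ : ℝ) (hθ0 : 0 < θ) (hθ1 : θ ≤ 1 / 40) : ∃ C : ℝ, 0 < C ∧ ∀ G : ℝ, 1 ≤ G →
    ∃ T₀ : ℝ, Real.exp 3200 ≤ T₀ ∧ ∀ T : ℝ, T₀ ≤ T → ∀ τ W : ℝ, T ^ (9 / 10 : ℝ) ≤ W → W ≤ T / 2 →
    T ≤ τ → τ ≤ 2 * T → ∀ x : ℝ, |x| = 8 * (G / Real.log T) →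
    Integrable (fun t : ℝ => (∫ y : ℝ, qk (G / Real.log T) y *
      ‖riemannZeta (pt (x : ℝ) (t + y))‖ ^ 2) * (gM (T ^ θ) t * gM (T ^ θ) t) * gw τ W t) ∧
    ∫ t : ℝ, (∫ y : ℝ, qk (G / Real.log T) y *
      ‖riemannZeta (pt (x : ℝ) (t + y))‖ ^ 2) * (gM (T ^ θ) t * gM (T ^ θ) t) * gw τ W t
      ≤ C * Real.exp (C * G) * (W * Real.log T) := by
  obtain ⟨C, hC, hU⟩ := U θ hθ0 hθ1
  obtain ⟨k, hk⟩ : ∃ k : ℕ, k = 301 := ⟨_, rfl⟩
  rw [← hk] at hU
  obtain ⟨Cq, hCq, hq⟩ := qk_moment k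
  set C' : ℝ := max (C * 9 ^ 8 * 40320 * 3 ^ k * Cq) (8 * C + 1) with hC'
  have hC'1 : C * 9 ^ 8 * 40320 * 3 ^ k * Cq ≤ C' := le_max_left _ _
  have hC'2 : 8 * C + 1 ≤ C' := le_max_right _ _
  refine ⟨C', by linarith, ?_⟩
  intro G hG
  obtain ⟨T₁, hT₁e, hUT⟩ := hU (8 * G) (by linarith)
  refine ⟨max T₁ (Real.exp (32 * G)), le_max_of_le_left hT₁e, ?_⟩
  intro T hT τ W hW1 hW2 hτ1 hτ2 x hx
  have hTa : T₁ ≤ T := (le_max_left _ _).trans hT
  have hTb : Real.exp (32 * G) ≤ T := (le_max_right _ _).trans hT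
  have hT0 : 0 < T := (Real.exp_pos _).trans_le hTb
  have hT1 : 1 ≤ T := (Real.one_le_exp (by positivity)).trans hTb
  set L := Real.log T with hL
  have hLG : 32 * G ≤ L := by rw [hL, Real.le_log_iff_exp_le hT0]; exact hTb
  have hL0 : 0 < L := by linarith
  have hW0 : 0 < W := (Real.rpow_pos_of_pos hT0 _).trans_le hW1
  set R := G / L with hR
  have hR0 : 0 < R := by positivity
  have hx4 : |x| ≤ 1 / 4 := by
    rw [hx, hR, mul_div_assoc', div_le_iff₀ hL0]; linarith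
  set z₀ := T ^ θ
  set Φ : ℝ → ℝ → ℝ := fun t y => qk R y * ‖riemannZeta (pt (x : ℝ) (t + y))‖ ^ 2 *
    (gM z₀ t * gM z₀ t) * gw τ W t with hΦ
  have hΦ0 : ∀ t y, 0 ≤ Φ t y := by
    intro t y
    have h1 := qk_nonneg R y hR0
    have h2 := gM_nonneg z₀ t
    have h3 : 0 ≤ gw τ W t := (Real.exp_pos _).le
    simp only [hΦ]
    positivity
  have hcont : Continuous (Function.uncurry Φ) := by
    have h1 := (continuous_zeta_line x hx4).comp (continuous_fst.add continuous_snd :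
      Continuous fun p : ℝ × ℝ => p.1 + p.2)
    have h2 := (continuous_qk R hR0).comp (continuous_snd : Continuous fun p : ℝ × ℝ => p.2)
    have h3 := (continuous_gM z₀).comp (continuous_fst : Continuous fun p : ℝ × ℝ => p.1)
    have h4 := (continuous_gw τ W).comp (continuous_fst : Continuous fun p : ℝ × ℝ => p.1)
    have h5 : Function.uncurry Φ = fun p : ℝ × ℝ => qk R p.2 *
        ‖riemannZeta (pt (x : ℝ) (p.1 + p.2))‖ ^ 2 * (gM z₀ p.1 * gM z₀ p.1) * gw τ W p.1 := by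
      funext p
      simp only [hΦ, Function.uncurry]
    rw [h5]
    have h6 : Continuous fun p : ℝ × ℝ => ‖riemannZeta (pt (x : ℝ) (p.1 + p.2 : ℝ))‖ ^ 2 :=
      (h1.norm).pow 2
    have h7 : Continuous fun p : ℝ × ℝ => ‖riemannZeta (pt (x : ℝ) (p.1 + p.2))‖ ^ 2 := by
      exact_mod_cast h6
    exact ((h2.mul h7).mul (h3.mul h3)).mul h4
  -- for fixed `y`
  have hfix : ∀ y : ℝ, Integrable (fun t => Φ t y) ∧ ∫ t, Φ t y ≤
      (C * Real.exp (C * (8 * G)) * W * L * (9 * G) ^ 8 * 3 ^ k) *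
        (qk R y * ((1 + |y| / R) ^ 8 * (1 + |y|) ^ k)) := by
    intro y
    have hre : ((x : ℂ) + y * I).re = x := by simp
    have him : ((x : ℂ) + y * I).im = y := by simp
    have hxK : |((x : ℂ) + y * I).re| ≤ 8 * G / L := by
      rw [hre, hx, hR, mul_div_assoc]
    have h0K : |(0 : ℂ).re| ≤ 8 * G / L := by
      rw [Complex.zero_re, abs_zero]; positivity
    obtain ⟨u1, u2⟩ := hUT T hTa τ W hW1 hW2 (x + y * I) 0 0 hxK h0K h0K
    have e1 : ∀ t, Φ t y = qk R y * (‖riemannZeta (pt (x + y * I) t) *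
        (Mo z₀ (pt 0 t) * Mo z₀ (pt 0 t))‖ ^ 2 * gw τ W t) := by
      intro t
      have : pt ((x : ℂ) + y * I) t = pt (x : ℝ) (t + y) := by unfold pt; push_cast; ring
      simp only [hΦ, gM]
      rw [this, norm_mul, norm_mul]
      ring
    have hfe : (fun t => Φ t y) = fun t => qk R y * (‖riemannZeta (pt (x + y * I) t) *
        (Mo z₀ (pt 0 t) * Mo z₀ (pt 0 t))‖ ^ 2 * gw τ W t) := funext e1
    refine ⟨by rw [hfe]; exact u1.const_mul _, ?_⟩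
    rw [hfe, integral_const_mul]
    have hq0 := qk_nonneg R y hR0
    rw [sub_zero, him] at u2
    have b1 : 1 + L * ‖(x : ℂ) + y * I‖ ≤ 9 * G * (1 + |y| / R) := by
      have c1 : ‖(x : ℂ) + y * I‖ ≤ 8 * R + |y| := by
        refine (Complex.norm_le_abs_re_add_abs_im _).trans ?_
        rw [hre, him, hx]
      have c2 : L * (8 * R + |y|) = 8 * G + G * (|y| / R) := by
        rw [hR]; field_simp
      have c3 : 0 ≤ |y| / R := by positivity
      have c4 := mul_le_mul_of_nonneg_left c1 hL0.le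
      rw [c2] at c4
      nlinarith only [hG, c3, c4]
    have b2 : 1 + |τ + y| / T ≤ 3 * (1 + |y|) := by
      have d1 : |τ + y| ≤ 2 * T + |y| := by
        refine (abs_add_le _ _).trans ?_
        rw [abs_of_nonneg (by linarith : 0 ≤ τ)]
        linarith
      have d2 : |τ + y| / T ≤ 2 + |y| := by
        rw [div_le_iff₀ hT0]
        nlinarith only [hT1, d1, abs_nonneg y]
      linarith only [d2, abs_nonneg y]
    have b0 : 0 ≤ 1 + L * ‖(x : ℂ) + y * I‖ := by positivity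
    have b0' : 0 ≤ 1 + |τ + y| / T := by positivity
    calc qk R y * ∫ t, ‖riemannZeta (pt (x + y * I) t) *
          (Mo z₀ (pt 0 t) * Mo z₀ (pt 0 t))‖ ^ 2 * gw τ W t
        ≤ qk R y * (C * Real.exp (C * (8 * G)) * W * L * ((1 + L * ‖(x : ℂ) + y * I‖) ^ 4 *
          (1 + L * ‖(x : ℂ) + y * I‖) ^ 4) * (1 + |τ + y| / T) ^ k) :=
          mul_le_mul_of_nonneg_left u2 hq0
      _ ≤ qk R y * (C * Real.exp (C * (8 * G)) * W * L * ((9 * G * (1 + |y| / R)) ^ 4 *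
          (9 * G * (1 + |y| / R)) ^ 4) * (3 * (1 + |y|)) ^ k) := by
          gcongr
      _ = _ := by
          rw [mul_pow 3 (1 + |y|) k]
          generalize (1 + |y|) ^ k = P
          generalize (3 : ℝ) ^ k = P2
          ring
  have hmeas : AEStronglyMeasurable (Function.uncurry Φ) (volume.prod volume) :=
    hcont.aestronglyMeasurable
  have hqi := (hq R hR0).1
  have hprod : Integrable (Function.uncurry Φ) (volume.prod volume) := by
    rw [integrable_prod_iff' hmeas]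
    refine ⟨Filter.Eventually.of_forall fun y => (hfix y).1, ?_⟩
    refine (hqi.const_mul (C * Real.exp (C * (8 * G)) * W * L * (9 * G) ^ 8 * 3 ^ k)).mono' ?_ ?_
    · exact hmeas.norm.prod_swap.integral_prod_right'
    · refine Filter.Eventually.of_forall fun y => ?_
      have h1 : ∀ t, ‖Function.uncurry Φ (t, y)‖ = Φ t y := by
        intro t
        simp only [Function.uncurry]
        rw [Real.norm_eq_abs, abs_of_nonneg (hΦ0 t y)]
      simp_rw [h1]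
      rw [Real.norm_eq_abs, abs_of_nonneg (integral_nonneg fun t => hΦ0 t y)]
      exact (hfix y).2
  have hswap : ∫ t, ∫ y, Φ t y = ∫ y, ∫ t, Φ t y := integral_integral_swap hprod
  have hinner : ∀ t, (∫ y, Φ t y) = (∫ y : ℝ, qk R y * ‖riemannZeta (pt (x : ℝ) (t + y))‖ ^ 2) *
      (gM z₀ t * gM z₀ t) * gw τ W t := by
    intro t
    simp only [hΦ]
    rw [integral_mul_const, integral_mul_const]
  have hint := hprod.integral_prod_left
  simp only [Function.uncurry] at hint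
  constructor
  · refine hint.congr (Filter.Eventually.of_forall fun t => ?_)
    exact hinner t
  · rw [← integral_congr_ae (Filter.Eventually.of_forall hinner), hswap]
    calc ∫ y, ∫ t, Φ t y ≤ ∫ y, (C * Real.exp (C * (8 * G)) * W * L * (9 * G) ^ 8 * 3 ^ k) *
          (qk R y * ((1 + |y| / R) ^ 8 * (1 + |y|) ^ k)) := by
          apply integral_mono_of_nonneg
            (Filter.Eventually.of_forall fun y => integral_nonneg fun t => hΦ0 t y)
            (hqi.const_mul _) (Filter.Eventually.of_forall fun y => (hfix y).2)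
      _ ≤ (C * Real.exp (C * (8 * G)) * W * L * (9 * G) ^ 8 * 3 ^ k) * Cq := by
          rw [integral_const_mul]
          exact mul_le_mul_of_nonneg_left (hq R hR0).2 (by positivity)
      _ ≤ C' * Real.exp (C' * G) * (W * L) := by
          have f1 : G ^ 8 ≤ 40320 * Real.exp G := by
            have := Real.pow_div_factorial_le_exp G (by linarith) 8
            rw [div_le_iff₀ (by positivity)] at this
            have h8 : ((Nat.factorial 8 : ℕ) : ℝ) = 40320 := by norm_num [Nat.factorial]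
            rw [h8] at this
            linarith
          have f2 : Real.exp (C * (8 * G)) * Real.exp G ≤ Real.exp (C' * G) := by
            rw [← Real.exp_add]
            apply Real.exp_le_exp.2
            nlinarith only [hC'2, hG]
          calc (C * Real.exp (C * (8 * G)) * W * L * (9 * G) ^ 8 * 3 ^ k) * Cq
              = (C * 9 ^ 8 * 3 ^ k * Cq) * (Real.exp (C * (8 * G)) * G ^ 8) * (W * L) := by
                rw [mul_pow]
                generalize (3 : ℝ) ^ k = P2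
                ring
            _ ≤ (C * 9 ^ 8 * 3 ^ k * Cq) * (Real.exp (C * (8 * G)) * (40320 * Real.exp G)) *
                (W * L) := by gcongr
            _ = (C * 9 ^ 8 * 40320 * 3 ^ k * Cq) * (Real.exp (C * (8 * G)) * Real.exp G) *
                (W * L) := by
                generalize (3 : ℝ) ^ k = P2
                ring
            _ ≤ C' * Real.exp (C' * G) * (W * L) := by
                gcongr

/-- the mass integral -/
theorem Q_mass (θ : ℝ) (hθ0 : 0 < θ) (hθ1 : θ ≤ 1 / 40) : ∃ C : ℝ, 0 < C ∧ ∀ G : ℝ, 1 ≤ G →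
    ∃ T₀ : ℝ, Real.exp 3200 ≤ T₀ ∧ ∀ T : ℝ, T₀ ≤ T → ∀ τ W : ℝ, T ^ (9 / 10 : ℝ) ≤ W → W ≤ T / 2 →
    T ≤ τ → τ ≤ 2 * T →
    Measurable (Qf (G / Real.log T)) ∧ (∀ t, 0 ≤ Qf (G / Real.log T) t) ∧
    IntegrableOn (fun t : ℝ => (Qf (G / Real.log T) t * gM (T ^ θ) t) * gM (T ^ θ) t)
      (Icc (τ - W) (τ + W)) ∧
    ∫ t in Icc (τ - W) (τ + W), (Qf (G / Real.log T) t * gM (T ^ θ) t) * gM (T ^ θ) t
      ≤ C * Real.exp (C * G) * (W * Real.log T) := by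
  obtain ⟨C, hC, hl⟩ := line_mass θ hθ0 hθ1
  refine ⟨Real.exp 1 * 2 * C + C, by positivity, ?_⟩
  intro G hG
  obtain ⟨T₁, hT₁e, hlT⟩ := hl G hG
  refine ⟨max T₁ (Real.exp (32 * G)), le_max_of_le_left hT₁e, ?_⟩
  intro T hT τ W hW1 hW2 hτ1 hτ2
  have hTa : T₁ ≤ T := (le_max_left _ _).trans hT
  have hTb : Real.exp (32 * G) ≤ T := (le_max_right _ _).trans hT
  have hT0 : 0 < T := (Real.exp_pos _).trans_le hTb
  set L := Real.log T with hL
  have hLG : 32 * G ≤ L := by rw [hL, Real.le_log_iff_exp_le hT0]; exact hTb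
  have hL0 : 0 < L := by linarith
  have hW0 : 0 < W := (Real.rpow_pos_of_pos hT0 _).trans_le hW1
  set R := G / L with hR
  have hR0 : 0 < R := by positivity
  have hx1 : |-(8 * R)| = 8 * R := by rw [abs_neg, abs_of_pos (by positivity)]
  have hx2 : |8 * R| = 8 * R := abs_of_pos (by positivity)
  have h8 : 8 * R ≤ 1 / 4 := by rw [hR, mul_div_assoc', div_le_iff₀ hL0]; linarith
  have hsplit : ∀ t, Qf R t = (∫ y : ℝ, qk R y * ‖riemannZeta (pt (-(8 * R) : ℝ) (t + y))‖ ^ 2) +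
      ∫ y : ℝ, qk R y * ‖riemannZeta (pt (8 * R : ℝ) (t + y))‖ ^ 2 := by
    intro t
    rw [Qf, ← integral_add (integrable_qz R _ t hR0 (by rw [hx1]; exact h8))
      (integrable_qz R _ t hR0 (by rw [hx2]; exact h8))]
    congr 1
    funext y
    ring
  have hmeas1 : ∀ x : ℝ, |x| ≤ 1 / 4 → Measurable fun t : ℝ =>
      ∫ y : ℝ, qk R y * ‖riemannZeta (pt (x : ℝ) (t + y))‖ ^ 2 := by
    intro x hx
    have h1 := (continuous_zeta_line x hx).comp (continuous_fst.add continuous_snd :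
      Continuous fun p : ℝ × ℝ => p.1 + p.2)
    have h2 := (continuous_qk R hR0).comp (continuous_snd : Continuous fun p : ℝ × ℝ => p.2)
    have h6 : Continuous fun p : ℝ × ℝ => ‖riemannZeta (pt (x : ℝ) (p.1 + p.2 : ℝ))‖ ^ 2 :=
      (h1.norm).pow 2
    have h7 : Continuous fun p : ℝ × ℝ => ‖riemannZeta (pt (x : ℝ) (p.1 + p.2))‖ ^ 2 := by
      exact_mod_cast h6
    have h8 : Continuous fun p : ℝ × ℝ => qk R p.2 *
      ‖riemannZeta (pt (x : ℝ) (p.1 + p.2))‖ ^ 2 := h2.mul h7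
    have h9 := (h8.stronglyMeasurable).integral_prod_right' (ν := (volume : Measure ℝ))
    exact h9.measurable
  have hQm : Measurable (Qf R) := by
    have : Qf R = fun t => (∫ y : ℝ, qk R y * ‖riemannZeta (pt (-(8 * R) : ℝ) (t + y))‖ ^ 2) +
      ∫ y : ℝ, qk R y * ‖riemannZeta (pt (8 * R : ℝ) (t + y))‖ ^ 2 := funext hsplit
    rw [this]
    exact (hmeas1 _ (by rw [hx1]; exact h8)).add (hmeas1 _ (by rw [hx2]; exact h8))
  have hQ0 : ∀ t, 0 ≤ Qf R t := by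
    intro t
    rw [Qf]
    apply integral_nonneg
    intro y
    have := qk_nonneg R y hR0
    show 0 ≤ qk R y * (‖riemannZeta (pt (-(8 * R) : ℝ) (t + y))‖ ^ 2 +
      ‖riemannZeta (pt (8 * R : ℝ) (t + y))‖ ^ 2)
    positivity
  refine ⟨hQm, hQ0, ?_⟩
  obtain ⟨a1, a2⟩ := hlT T hTa τ W hW1 hW2 hτ1 hτ2 (-(8 * R)) hx1
  obtain ⟨b1, b2⟩ := hlT T hTa τ W hW1 hW2 hτ1 hτ2 (8 * R) hx2
  have hfe : ∀ t, (Qf R t * gM (T ^ θ) t) * gM (T ^ θ) t * gw τ W t =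
      (∫ y : ℝ, qk R y * ‖riemannZeta (pt (-(8 * R) : ℝ) (t + y))‖ ^ 2) *
        (gM (T ^ θ) t * gM (T ^ θ) t) * gw τ W t +
      (∫ y : ℝ, qk R y * ‖riemannZeta (pt (8 * R : ℝ) (t + y))‖ ^ 2) *
        (gM (T ^ θ) t * gM (T ^ θ) t) * gw τ W t := by
    intro t
    rw [hsplit t]
    ring
  have hI : Integrable fun t => (Qf R t * gM (T ^ θ) t) * gM (T ^ θ) t * gw τ W t := by
    rw [funext hfe]
    exact a1.add b1
  have hM : ∫ t, (Qf R t * gM (T ^ θ) t) * gM (T ^ θ) t * gw τ W t ≤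
      2 * (C * Real.exp (C * G) * (W * L)) := by
    rw [funext hfe, integral_add a1 b1]
    linarith
  have hg := continuous_gM (T ^ θ)
  obtain ⟨r1, r2⟩ := interval_of_gauss (fun t => (Qf R t * gM (T ^ θ) t) * gM (T ^ θ) t)
    (fun t => mul_nonneg (mul_nonneg (hQ0 t) (gM_nonneg _ t)) (gM_nonneg _ t)) τ W _ hW0
    ((hQm.mul hg.measurable).mul hg.measurable).aestronglyMeasurable hI hM
  refine ⟨r1, r2.trans ?_⟩
  have e1 : Real.exp (C * G) ≤ Real.exp ((Real.exp 1 * 2 * C + C) * G) := by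
    apply Real.exp_le_exp.2
    have : 0 ≤ Real.exp 1 * 2 * C := by positivity
    nlinarith only [hG, this]
  calc Real.exp 1 * (2 * (C * Real.exp (C * G) * (W * L)))
      = (Real.exp 1 * 2 * C) * Real.exp (C * G) * (W * L) := by ring
    _ ≤ (Real.exp 1 * 2 * C + C) * Real.exp ((Real.exp 1 * 2 * C + C) * G) * (W * L) := by
        have hWL : 0 ≤ W * L := by positivity
        apply mul_le_mul_of_nonneg_right _ hWL
        apply mul_le_mul (by linarith only [hC]) e1 (Real.exp_pos _).le (by positivity)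

end Pool.Agent.H14.CO

end

section

/-!
# CO module Good: most points (for the measure `|M(1/2+it)|² dt`) have a zero within `G / log T`
-/

set_option autoImplicit false

namespace Pool.Agent.H14.CO

open Set MeasureTheory Complex

/-- the point on the circle -/
theorem circ_pt (t R φ : ℝ) : pt (R * Complex.exp (φ * I)) t =
    1 / 2 + t * I + R * Complex.exp (φ * I) := by
  unfold pt; ring

theorem circ_ne_one (t R φ : ℝ) (hR0 : 0 < R) (hR1 : R ≤ 1 / 100) :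
    (1 / 2 + t * I + R * Complex.exp (φ * I) : ℂ) ≠ 1 := by
  intro h
  have h1 := congrArg Complex.re h
  have h2 : ((R : ℂ) * Complex.exp (φ * I)).re = R * Real.cos φ := by
    rw [Complex.re_ofReal_mul, Complex.exp_ofReal_mul_I_re]
  rw [Complex.add_re, h2, Complex.one_re] at h1
  simp at h1
  have h3 := Real.cos_le_one φ
  nlinarith

theorem continuous_zcirc (R : ℝ) (hR0 : 0 < R) (hR1 : R ≤ 1 / 100) :
    Continuous (fun p : ℝ × ℝ => riemannZeta (1 / 2 + p.1 * I + R * Complex.exp (p.2 * I))) := by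
  rw [continuous_iff_continuousAt]
  intro p
  have h1 : Continuous fun p : ℝ × ℝ => (1 / 2 + p.1 * I + R * Complex.exp (p.2 * I) : ℂ) := by
    fun_prop
  exact (differentiableAt_riemannZeta (circ_ne_one p.1 R p.2 hR0 hR1)).continuousAt.comp
    (f := fun p : ℝ × ℝ => (1 / 2 + p.1 * I + R * Complex.exp (p.2 * I) : ℂ)) h1.continuousAt

theorem continuous_Mcirc (z₀ R : ℝ) :
    Continuous (fun p : ℝ × ℝ => Mo z₀ (1 / 2 + p.1 * I + R * Complex.exp (p.2 * I))) := by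
  have h1 : Continuous fun p : ℝ × ℝ => (1 / 2 + p.1 * I + R * Complex.exp (p.2 * I) : ℂ) := by
    fun_prop
  exact (continuous_Mo z₀).comp h1

theorem good_set (θ : ℝ) (hθ0 : 0 < θ) (hθ1 : θ ≤ 1 / 40) : ∃ G c : ℝ, 1 ≤ G ∧ 0 < c ∧
    ∃ T₀ : ℝ, Real.exp 3200 ≤ T₀ ∧ ∀ T : ℝ, T₀ ≤ T → ∀ τ : ℝ, T ≤ τ → τ ≤ 2 * T →
    ∃ Gd : Set ℝ, MeasurableSet Gd ∧ Gd ⊆ Icc (τ - T ^ (9 / 10 : ℝ)) (τ + T ^ (9 / 10 : ℝ)) ∧
      c * T ^ (9 / 10 : ℝ) * Real.log T ≤ ∫ t in Gd, ‖Mo (T ^ θ) (pt 0 t)‖ ^ 2 ∧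
      ∀ t ∈ Gd, ∃ ρ : ℂ, riemannZeta ρ = 0 ∧ 1 / 2 ≤ ρ.re ∧ ‖ρ - pt 0 t‖ ≤ G / Real.log T := by
  obtain ⟨c₄, hc₄, T₁, hT₁, hlow⟩ := mo_lower θ hθ0 hθ1
  obtain ⟨Cq, hCq, hQm⟩ := Q_mass θ hθ0 hθ1
  obtain ⟨CU, hCU, hU⟩ := U θ hθ0 hθ1
  obtain ⟨k, hk⟩ : ∃ k : ℕ, k = 301 := ⟨_, rfl⟩
  rw [← hk] at hU
  obtain ⟨T₂, hT₂e, hUT⟩ := hU 1 le_rfl
  obtain ⟨CM, hCM, T₃, hT₃, hMu⟩ := mo_upper_right θ hθ0 hθ1
  obtain ⟨Cc, cc, b₀, hCc, hcc, hb₀, hclose⟩ := closeness θ hθ0 hθ1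
  obtain ⟨CS, hCS, hsup⟩ := sup_bound
  obtain ⟨Cχ, hCχ, hchi⟩ := chi_bound
  -- constants
  set cχ : ℝ := min 1 (1 / Cχ) with hcχ
  have hcχ0 : 0 < cχ := lt_min one_pos (by positivity)
  have hcχ1 : cχ ≤ 1 := min_le_left _ _
  have hcχC : cχ * Cχ ≤ 1 := by
    calc cχ * Cχ ≤ (1 / Cχ) * Cχ := mul_le_mul_of_nonneg_right (min_le_right _ _) hCχ.le
      _ = 1 := by field_simp
  set C₂ : ℝ := (|Real.log (8 * CS * Cq / c₄)| + Cq) / 2 with hC₂
  have hC₂0 : 0 < C₂ := by rw [hC₂]; positivity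
  set κ₀ : ℝ := 1 / (16 * (C₂ + 1)) with hκ₀
  have hκ₀0 : 0 < κ₀ := by rw [hκ₀]; positivity
  have hκ₀1 : κ₀ ≤ 1 / 16 := by
    rw [hκ₀]
    apply one_div_le_one_div_of_le (by norm_num)
    linarith only [hC₂0]
  set C₀ : ℝ := CU * Real.exp (CU * 1) * 3 ^ k with hC₀
  have hC₀0 : 0 < C₀ := by rw [hC₀]; positivity
  set A₂ : ℝ := 8 * (Real.exp 1 * C₀) / c₄ with hA₂
  have hA₂0 : 0 < A₂ := by rw [hA₂]; positivity
  set A₃ : ℝ := 8 * (Real.pi * (Real.exp 1 * CM)) / c₄ with hA₃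
  have hA₃0 : 0 < A₃ := by rw [hA₃]; positivity
  set A : ℝ := max 1 (Real.sqrt (8 * A₃ / κ₀)) with hA
  have hA1 : 1 ≤ A := le_max_left _ _
  have hA0 : 0 < A := by linarith only [hA1]
  have hAκ : A₃ / A ^ 2 ≤ κ₀ / 8 := by
    have h1 : 8 * A₃ / κ₀ ≤ A ^ 2 := by
      have h2 : Real.sqrt (8 * A₃ / κ₀) ≤ A := le_max_right _ _
      calc 8 * A₃ / κ₀ = Real.sqrt (8 * A₃ / κ₀) ^ 2 := (Real.sq_sqrt (by positivity)).symm
        _ ≤ A ^ 2 := pow_le_pow_left₀ (Real.sqrt_nonneg _) h2 2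
    rw [div_le_iff₀ hκ₀0] at h1
    rw [div_le_iff₀ (by positivity)]
    linarith only [h1]
  set κ₃ : ℝ := κ₀ / 32 with hκ₃
  have hκ₃0 : 0 < κ₃ := by rw [hκ₃]; positivity
  set X₀ : ℝ := Real.log (Real.sqrt A₂) + 1 / 2 * Real.log (1 / cχ) + 4 * Real.log (2 * A) with hX₀
  obtain ⟨G, hG1, hg1, hg2, hg3, hg4⟩ := choose_G b₀ cc (κ₃ * c₄ / (8 * (Real.pi * Cc))) (κ₀ / 8) X₀
    hcc (by positivity) (by positivity)
  set b := Real.sqrt G with hb
  have hb1 : 1 < b := by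
    rw [hb]; exact Real.lt_sqrt_of_sq_lt (by linarith only [hG1])
  have hbG : b / G = 1 / b := by
    have : b * b = G := Real.mul_self_sqrt (by linarith only [hG1])
    rw [← this]; field_simp
  set φ₀ := Real.arccos (1 / b) with hφ₀
  have hφ0 : 0 ≤ φ₀ := Real.arccos_nonneg _
  have hφ1 : φ₀ ≤ Real.pi / 2 := Real.arccos_le_pi_div_two.2 (by positivity)
  have hcosφ : Real.cos φ₀ = 1 / b := Real.cos_arccos
    (by have : 0 < 1 / b := by positivity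
        linarith only [this]) ((div_le_one (by linarith only [hb₀, hg1])).2 hb1.le)
  obtain ⟨T₄, hT₄e, hQT⟩ := hQm G hG1.le
  obtain ⟨T₅, hT₅e, hCT⟩ := hclose b hg1
  refine ⟨6 * G, c₄ / 2, by linarith only [hG1], by positivity,
    max (max (max T₁ T₂) (max T₃ T₄)) (max T₅ (Real.exp (600 * G))), ?_, ?_⟩
  · exact le_max_of_le_left (le_max_of_le_left (le_max_of_le_right hT₂e))
  intro T hT τ hτ1 hτ2
  have h12 := (le_max_left _ _).trans hT
  have h56 := (le_max_right _ _).trans hT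
  have hTa : T₁ ≤ T := (le_max_left _ _).trans ((le_max_left _ _).trans h12)
  have hTb : T₂ ≤ T := (le_max_right _ _).trans ((le_max_left _ _).trans h12)
  have hTc : T₃ ≤ T := (le_max_left _ _).trans ((le_max_right _ _).trans h12)
  have hTd : T₄ ≤ T := (le_max_right _ _).trans ((le_max_right _ _).trans h12)
  have hTe : T₅ ≤ T := (le_max_left _ _).trans h56
  have hTf : Real.exp (600 * G) ≤ T := (le_max_right _ _).trans h56
  have hT0 : 0 < T := (Real.exp_pos _).trans_le hTf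
  set L := Real.log T with hL
  have hLG : 600 * G ≤ L := by rw [hL, Real.le_log_iff_exp_le hT0]; exact hTf
  have hL0 : 0 < L := by linarith only [hG1, hLG]
  have hexpL : Real.exp L = T := Real.exp_log hT0
  have hT1000 : 600 ≤ T := by
    have := Real.add_one_le_exp L
    rw [hexpL] at this
    linarith only [hG1, hLG, this]
  set W := T ^ (9 / 10 : ℝ) with hW
  have hW0 : 0 < W := Real.rpow_pos_of_pos hT0 _
  have hW4 : W ≤ T / 4 := W_le T hT0 (by rw [← hL]; linarith only [hG1, hLG])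
  have hWL : 0 < W * L := by positivity
  set R := G / L with hR
  have hR0 : 0 < R := by positivity
  have hR1 : R ≤ 1 / 600 := by
    rw [hR, div_le_iff₀ hL0]; linarith only [hLG]
  have hR100 : R ≤ 1 / 100 := by linarith only [hR1]
  have hLR : L * R = G := by rw [hR]; field_simp
  set z₀ := T ^ θ with hz₀
  set g := gM z₀ with hg
  have hgc : Continuous g := continuous_gM z₀
  have hg0 : ∀ t, 0 ≤ g t := gM_nonneg z₀
  set I₀ := Icc (τ - W) (τ + W) with hI₀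
  have hgI : IntegrableOn g I₀ := hgc.continuousOn.integrableOn_Icc
  -- total mass
  have hmass : c₄ * W * L ≤ ∫ t in I₀, g t := by
    have := hlow T hTa τ W le_rfl
    rw [intervalIntegral.integral_of_le (by linarith only [hW0]), ← integral_Icc_eq_integral_Ioc] at this
    exact this
  -- f1
  obtain ⟨q1, q2, q3, q4⟩ := hQT T hTd τ W le_rfl (by linarith only [hT1000, hW4]) hτ1 hτ2
  set A₁ : ℝ := 8 * (Cq * Real.exp (Cq * G)) / c₄ with hA₁
  have hA₁0 : 0 < A₁ := by rw [hA₁]; positivity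
  set B₁ : Set ℝ := {t | A₁ < Qf R t * g t} with hB₁
  have hB₁m : MeasurableSet B₁ := measurableSet_lt measurable_const (q1.mul hgc.measurable)
  have hm1 : ∫ t in I₀ ∩ B₁, g t ≤ c₄ * W * L / 8 := by
    have := markov_mass (fun t => Qf R t * g t) g (τ - W) (τ + W) A₁ _ (q1.mul hgc.measurable)
      (fun t => mul_nonneg (q2 t) (hg0 t)) hgc hg0 hA₁0 q3 q4
    refine this.trans (le_of_eq ?_)
    rw [hA₁]
    have e1 : Cq * Real.exp (Cq * G) ≠ 0 := by positivity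
    field_simp
    try ring
  -- f2
  have hc2 : Continuous fun t : ℝ => ‖riemannZeta (pt (0 : ℝ) t)‖ ^ 2 :=
    ((continuous_zeta_line 0 (by norm_num)).norm).pow 2
  set f₂ : ℝ → ℝ := fun t => ‖riemannZeta (pt (0 : ℝ) t)‖ ^ 2 * g t with hf₂
  have hf₂c : Continuous f₂ := hc2.mul hgc
  set B₂ : Set ℝ := {t | A₂ < f₂ t} with hB₂
  have hB₂m : MeasurableSet B₂ := measurableSet_lt measurable_const hf₂c.measurable
  have hm2 : ∫ t in I₀ ∩ B₂, g t ≤ c₄ * W * L / 8 := by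
    have h0K : |(0 : ℂ).re| ≤ 1 / L := by rw [Complex.zero_re, abs_zero]; positivity
    obtain ⟨u1, u2⟩ := hUT T hTb τ W le_rfl (by linarith only [hT1000, hW4]) 0 0 0 h0K h0K h0K
    have e1 : ∀ t, ‖riemannZeta (pt 0 t) * (Mo z₀ (pt 0 t) * Mo z₀ (pt 0 t))‖ ^ 2 * gw τ W t =
        (f₂ t * g t) * gw τ W t := by
      intro t
      simp only [hf₂, hg, gM]
      have : pt ((0 : ℝ) : ℂ) t = pt 0 t := by rw [Complex.ofReal_zero]
      rw [this, norm_mul, norm_mul]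
      ring
    rw [funext e1] at u1 u2
    have u3 : ∫ t, (f₂ t * g t) * gw τ W t ≤ C₀ * (W * L) := by
      refine u2.trans ?_
      have v1 : 1 + |τ + (0 : ℂ).im| / T ≤ 3 := by
        rw [Complex.zero_im, add_zero, abs_of_nonneg (by linarith only [hτ1, hT1000])]
        have : τ / T ≤ 2 := by rw [div_le_iff₀ hT0]; linarith only [hτ2]
        linarith only [this]
      have v0 : 0 ≤ 1 + |τ + (0 : ℂ).im| / T := by positivity
      have v2 := pow_le_pow_left₀ v0 v1 k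
      rw [sub_zero, norm_zero, mul_zero, add_zero, one_pow, one_mul, mul_one]
      calc CU * Real.exp (CU * 1) * W * L * (1 + |τ + (0 : ℂ).im| / T) ^ k
          ≤ CU * Real.exp (CU * 1) * W * L * 3 ^ k :=
            mul_le_mul_of_nonneg_left v2 (by positivity)
        _ = C₀ * (W * L) := by rw [hC₀]; ring
    obtain ⟨w1, w2⟩ := interval_of_gauss (fun t => f₂ t * g t)
      (fun t => mul_nonneg (mul_nonneg (by positivity) (hg0 t)) (hg0 t)) τ W _ hW0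
      (hf₂c.mul hgc).aestronglyMeasurable u1 u3
    have := markov_mass f₂ g (τ - W) (τ + W) A₂ _ hf₂c.measurable
      (fun t => mul_nonneg (by positivity) (hg0 t)) hgc hg0 hA₂0 w1 w2
    refine this.trans (le_of_eq ?_)
    rw [hA₂]; field_simp
  -- f3
  set F₃ : ℝ → ℝ → ℝ := fun t φ => ‖riemannZeta (1 / 2 + t * I + R * Complex.exp (φ * I)) *
      Mo z₀ (1 / 2 + t * I + R * Complex.exp (φ * I)) - 1‖ ^ 2 with hF₃
  have hF₃c : Continuous (Function.uncurry F₃) := by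
    have h1 := continuous_zcirc R hR0 hR100
    have h2 := continuous_Mcirc z₀ R
    have h3 : Continuous fun p : ℝ × ℝ =>
        ‖riemannZeta (1 / 2 + p.1 * I + R * Complex.exp (p.2 * I)) *
        Mo z₀ (1 / 2 + p.1 * I + R * Complex.exp (p.2 * I)) - 1‖ ^ 2 :=
      (((h1.mul h2).sub continuous_const).norm).pow 2
    exact h3
  set f₃ : ℝ → ℝ := fun t => ∫ φ in (-φ₀)..φ₀, F₃ t φ with hf₃
  have hf₃c : Continuous f₃ := continuous_pint F₃ hF₃c _ _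
  set B₃ : Set ℝ := {t | κ₃ < f₃ t} with hB₃
  have hB₃m : MeasurableSet B₃ := measurableSet_lt measurable_const hf₃c.measurable
  have hcosge : ∀ φ ∈ Icc (-φ₀) φ₀, 1 / b ≤ Real.cos φ := by
    intro φ hφ
    have h1 : |φ| ≤ φ₀ := abs_le.2 hφ
    rw [← hcosφ, ← Real.cos_abs φ]
    exact Real.cos_le_cos_of_nonneg_of_le_pi (abs_nonneg _) (by linarith only [hφ0, hφ1]) h1
  have hwre : ∀ φ : ℝ, ((R : ℂ) * Complex.exp (φ * I)).re = R * Real.cos φ := by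
    intro φ; rw [Complex.re_ofReal_mul, Complex.exp_ofReal_mul_I_re]
  have hwim : ∀ φ : ℝ, ((R : ℂ) * Complex.exp (φ * I)).im = R * Real.sin φ := by
    intro φ; rw [Complex.im_ofReal_mul, Complex.exp_ofReal_mul_I_im]
  have hwn : ∀ φ : ℝ, ‖(R : ℂ) * Complex.exp (φ * I)‖ = R := by
    intro φ
    rw [norm_mul, Complex.norm_real, Real.norm_eq_abs, abs_of_pos hR0, Complex.norm_exp_ofReal_mul_I,
      mul_one]
  have hf₃0 : ∀ t, 0 ≤ f₃ t := fun t =>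
    intervalIntegral.integral_nonneg (by linarith only [hφ0]) fun φ _ => by
      simp only [hF₃]; positivity
  have hm3 : ∫ t in I₀ ∩ B₃, g t ≤ c₄ * W * L / 8 := by
    set M₃ := Cc * (1 + G) ^ 8 * Real.exp (-cc * b) * W * L with hM₃
    have hM₃0 : 0 ≤ M₃ := by rw [hM₃]; positivity
    have h1 : ∫ t in Icc (τ - W) (τ + W), (∫ φ in (-φ₀)..φ₀, F₃ t φ * g t) ≤ 2 * φ₀ * M₃ := by
      apply fub (fun t φ => F₃ t φ * g t)
      · have : Continuous fun p : ℝ × ℝ => F₃ p.1 p.2 * g p.1 :=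
          hF₃c.mul (hgc.comp continuous_fst)
        exact this
      · exact hφ0
      · intro φ hφ
        have e1 := hCT T hTe τ W le_rfl hW4 (by linarith only [hτ1, hT1000]) (by linarith only [hτ2, hT1000])
          (R * Complex.exp (φ * I)) (by
            rw [hwre, ← hL]
            calc b / L = R * (b / G) := by rw [hR]; field_simp
              _ = R * (1 / b) := by rw [hbG]
              _ ≤ R * Real.cos φ := mul_le_mul_of_nonneg_left (hcosge φ hφ) hR0.le)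
          (by
            rw [hwre]
            calc R * Real.cos φ ≤ R * 1 := mul_le_mul_of_nonneg_left (Real.cos_le_one φ) hR0.le
              _ ≤ 1 / 8 := by linarith only [hR1])
          (by
            rw [hwim, abs_mul, abs_of_pos hR0]
            calc R * |Real.sin φ| ≤ R * 1 := mul_le_mul_of_nonneg_left (Real.abs_sin_le_one φ) hR0.le
              _ ≤ 1 := by linarith only [hR1])
        rw [intervalIntegral.integral_of_le (by linarith only [hW0]), ← integral_Icc_eq_integral_Ioc,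
          hwn, ← hL, hLR] at e1
        refine le_trans (le_of_eq ?_) e1
        apply integral_congr_ae
        refine Filter.Eventually.of_forall fun t => ?_
        simp only [hF₃, hg, gM]
        rw [circ_pt, norm_mul, mul_pow]
    have h2 : ∫ t in Icc (τ - W) (τ + W), f₃ t * g t ≤ Real.pi * M₃ := by
      have e2 : ∀ t, (∫ φ in (-φ₀)..φ₀, F₃ t φ * g t) = f₃ t * g t := by
        intro t
        rw [intervalIntegral.integral_mul_const]
      simp_rw [e2] at h1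
      refine h1.trans ?_
      apply mul_le_mul_of_nonneg_right _ hM₃0
      linarith only [hφ1]
    have := markov_mass f₃ g (τ - W) (τ + W) κ₃ _ hf₃c.measurable hf₃0 hgc hg0 hκ₃0
      (hf₃c.mul hgc).continuousOn.integrableOn_Icc h2
    refine this.trans ?_
    rw [div_le_iff₀ hκ₃0]
    have e3 : Real.pi * M₃ = (Real.pi * Cc) * ((1 + G) ^ 8 * Real.exp (-cc * b)) * (W * L) := by
      rw [hM₃]; ring
    rw [e3]
    calc (Real.pi * Cc) * ((1 + G) ^ 8 * Real.exp (-cc * b)) * (W * L)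
        ≤ (Real.pi * Cc) * (κ₃ * c₄ / (8 * (Real.pi * Cc))) * (W * L) := by
          have : 0 < Real.pi * Cc := by positivity
          gcongr
      _ = c₄ * W * L / 8 * κ₃ := by
          have : Real.pi * Cc ≠ 0 := by positivity
          field_simp
  -- f4
  set F₄ : ℝ → ℝ → ℝ := fun t φ => ‖Mo z₀ (1 / 2 + t * I + R * Complex.exp (φ * I))‖ ^ 2 with hF₄
  have hF₄c : Continuous (Function.uncurry F₄) := by
    have h2 := continuous_Mcirc z₀ R
    have h3 : Continuous fun p : ℝ × ℝ =>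
        ‖Mo z₀ (1 / 2 + p.1 * I + R * Complex.exp (p.2 * I))‖ ^ 2 := (h2.norm).pow 2
    exact h3
  set f₄ : ℝ → ℝ := fun t => ∫ φ in (-φ₀)..φ₀, F₄ t φ with hf₄
  have hf₄c : Continuous f₄ := continuous_pint F₄ hF₄c _ _
  set B₄ : Set ℝ := {t | A₃ * g t < f₄ t} with hB₄
  have hB₄m : MeasurableSet B₄ :=
    measurableSet_lt (hgc.measurable.const_mul A₃) hf₄c.measurable
  have hm4 : ∫ t in I₀ ∩ B₄, g t ≤ c₄ * W * L / 8 := by
    set M₄ := Real.exp 1 * (CM * W * L) with hM₄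
    have hM₄0 : 0 ≤ M₄ := by rw [hM₄]; positivity
    have h1 : ∫ t in Icc (τ - W) (τ + W), f₄ t ≤ 2 * φ₀ * M₄ := by
      apply fub F₄ hF₄c _ _ _ _ hφ0
      intro φ hφ
      obtain ⟨m1, m2⟩ := hMu T hTc τ W le_rfl (R * Complex.exp (φ * I)) (by
        rw [hwre]
        have := hcosge φ hφ
        have h3 : 0 < 1 / b := by positivity
        have : 0 ≤ Real.cos φ := by linarith only [this, h3]
        positivity)
      have hMc : Continuous fun t : ℝ => ‖Mo z₀ (pt (R * Complex.exp (φ * I)) t)‖ ^ 2 := by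
        have h1 : Continuous fun t : ℝ => pt (R * Complex.exp (φ * I)) t := by unfold pt; fun_prop
        exact (((continuous_Mo z₀).comp h1).norm).pow 2
      obtain ⟨n1, n2⟩ := interval_of_gauss
        (fun t => ‖Mo z₀ (pt (R * Complex.exp (φ * I)) t)‖ ^ 2)
        (fun t => by positivity) τ W _ hW0 hMc.aestronglyMeasurable m1 m2
      refine le_trans (le_of_eq ?_) n2
      apply integral_congr_ae
      refine Filter.Eventually.of_forall fun t => ?_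
      simp only [hF₄]
      rw [circ_pt]
    have h2 : (∫ t in I₀ ∩ B₄, g t) * A₃ ≤ 2 * φ₀ * M₄ := by
      calc (∫ t in I₀ ∩ B₄, g t) * A₃ = ∫ t in I₀ ∩ B₄, A₃ * g t := by
            rw [integral_const_mul]; ring
        _ ≤ ∫ t in I₀ ∩ B₄, f₄ t := by
            apply setIntegral_mono_on ((hgI.mono_set inter_subset_left).const_mul A₃)
              ((hf₄c.continuousOn.integrableOn_Icc (μ := volume)).mono_set inter_subset_left)
              (measurableSet_Icc.inter hB₄m)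
            intro t ht
            exact ht.2.le
        _ ≤ ∫ t in I₀, f₄ t := by
            apply setIntegral_mono_set (hf₄c.continuousOn.integrableOn_Icc)
            · refine Filter.Eventually.of_forall fun t => ?_
              exact intervalIntegral.integral_nonneg (by linarith only [hφ0]) fun φ _ => by
                simp only [hF₄]; positivity
            · exact Filter.Eventually.of_forall fun t ht => ht.1
        _ ≤ _ := h1
    have h3 : 2 * φ₀ * M₄ ≤ Real.pi * M₄ := mul_le_mul_of_nonneg_right (by linarith only [hφ1]) hM₄0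
    have h4 : Real.pi * M₄ = c₄ * W * L / 8 * A₃ := by
      rw [hM₄, hA₃]; field_simp
    have h5 : (∫ t in I₀ ∩ B₄, g t) * A₃ ≤ c₄ * W * L / 8 * A₃ := by
      rw [← h4]; exact h2.trans h3
    exact le_of_mul_le_mul_right h5 hA₃0
  -- the zero set of g
  set B₅ : Set ℝ := {t | g t = 0} with hB₅
  have hB₅m : MeasurableSet B₅ := hgc.measurable (measurableSet_singleton 0)
  have hm5 : ∫ t in I₀ ∩ B₅, g t = 0 := by
    rw [setIntegral_eq_zero_of_forall_eq_zero]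
    intro t ht
    exact ht.2
  -- the good set
  set Bd := (I₀ ∩ B₁) ∪ ((I₀ ∩ B₂) ∪ ((I₀ ∩ B₃) ∪ ((I₀ ∩ B₄) ∪ (I₀ ∩ B₅)))) with hBd
  have hII : ∀ B : Set ℝ, IntegrableOn g (I₀ ∩ B) := fun B => hgI.mono_set inter_subset_left
  have hBdmass : ∫ t in Bd, g t ≤ c₄ * W * L / 2 := by
    have i5 := union_le g hg0 (I₀ ∩ B₄) (I₀ ∩ B₅) (hII _) (hII _)
    have j5 := (hII B₄).union (hII B₅)
    have i4 := union_le g hg0 (I₀ ∩ B₃) _ (hII _) j5
    have j4 := (hII B₃).union j5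
    have i3 := union_le g hg0 (I₀ ∩ B₂) _ (hII _) j4
    have j3 := (hII B₂).union j4
    have i2 := union_le g hg0 (I₀ ∩ B₁) _ (hII _) j3
    rw [hBd]
    linarith only [hm1, hm2, hm3, hm4, hm5, i5, i4, i3, i2]
  have hBdm : MeasurableSet Bd :=
    (measurableSet_Icc.inter hB₁m).union ((measurableSet_Icc.inter hB₂m).union
      ((measurableSet_Icc.inter hB₃m).union ((measurableSet_Icc.inter hB₄m).union
        (measurableSet_Icc.inter hB₅m))))
  have hBdsub : Bd ⊆ I₀ := by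
    rw [hBd]
    exact union_subset inter_subset_left (union_subset inter_subset_left
      (union_subset inter_subset_left (union_subset inter_subset_left inter_subset_left)))
  refine ⟨I₀ \ Bd, measurableSet_Icc.diff hBdm, diff_subset, ?_, ?_⟩
  · have h1 : ∫ t in I₀ \ Bd, g t = (∫ t in I₀, g t) - ∫ t in Bd, g t :=
      setIntegral_diff hBdm hgI hBdsub
    have h2 : ∫ t in I₀ \ Bd, ‖Mo z₀ (pt 0 t)‖ ^ 2 = ∫ t in I₀ \ Bd, g t := rfl
    rw [h2, h1]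
    linarith only [hmass, hBdmass]
  · intro t ht
    have htI : t ∈ I₀ := ht.1
    have hnot : t ∉ Bd := ht.2
    simp only [hBd, mem_union, mem_inter_iff, not_or, not_and] at hnot
    obtain ⟨n1, n2, n3, n4, n5⟩ := hnot
    replace n1 := n1 htI
    replace n2 := n2 htI
    replace n3 := n3 htI
    replace n4 := n4 htI
    replace n5 := n5 htI
    simp only [hB₁, mem_setOf_eq, not_lt] at n1
    simp only [hB₂, mem_setOf_eq, not_lt] at n2
    simp only [hB₃, mem_setOf_eq, not_lt] at n3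
    simp only [hB₄, mem_setOf_eq, not_lt] at n4
    simp only [hB₅, mem_setOf_eq] at n5
    have ht1 : T / 2 ≤ t := by
      have h1 : τ - W ≤ t := htI.1
      linarith only [h1, hW4, hτ1, hT0]
    set m := ‖Mo z₀ (pt 0 t)‖ with hm
    have hgm : g t = m ^ 2 := rfl
    have hm0 : 0 < m := by
      have h1 : 0 ≤ m := norm_nonneg _
      rcases h1.lt_or_eq with h | h
      · exact h
      · exfalso; apply n5; rw [hgm, ← h]; ring
    rw [hgm] at n1 n4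
    have n2' : ‖riemannZeta (pt 0 t)‖ ^ 2 * m ^ 2 ≤ A₂ := by
      have h1 : f₂ t = ‖riemannZeta (pt 0 t)‖ ^ 2 * m ^ 2 := by
        simp only [hf₂]
        rw [hgm, Complex.ofReal_zero]
      rw [← h1]; exact n2
    exact good_point CS Cq Cχ c₄ C₂ κ₀ A₁ A₂ A₃ A κ₃ φ₀ cχ X₀ G L R T t m z₀ hCS hCq hc₄ hsup
      hchi hcχ0 hcχ1 hcχC hC₂ hκ₀ hA₁ hA₂0 hA₃0 hA1 hAκ hκ₃ hX₀ hG1 hφ0 hφ1 hg3 hg4 hT0 hL hLG
      hR ht1 hm hm0 n1 n2' n3 n4

end Pool.Agent.H14.CO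

end
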