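import Pool.Agent.H47.B1.M21
import Pool.Agent.H47.B1.M23
import Pool.Agent.H47.B1.M26

/-! The parts of this file: H91.EHA.Main, H36.IS.GUa, H36.IS.GU. -/

section

/-!
# Assembly over all moduli
-/

set_option autoImplicit false

namespace Pool.Agent.H91.EHA

open Finset
open Pool.Agent.H91.PK

/-- The prime number theorem, uniformly below `x`. -/
lemma pnt' (c : ℕ) : ∃ x0 : ℕ, ∀ x : ℕ, x0 ≤ x → ∀ t : ℕ, t ≤ x →
    |(∑ n ∈ Icc 1 t, Lam n) - t| ≤ x / Real.log x ^ c := by
  obtain ⟨C, hC, hp⟩ := pnt (c + 1)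
  obtain ⟨x1, hx1⟩ := log_ge (max 2 (C * 2 ^ (c + 1)))
  obtain ⟨x2, hx2⟩ := log_pow_le_rpow (c + 2) (1 / 2) (by norm_num)
  refine ⟨max (max x1 x2) 3, fun x hx t ht => ?_⟩
  have e1 : x1 ≤ x := le_trans (le_trans (le_max_left _ _) (le_max_left _ _)) hx
  have e2 : x2 ≤ x := le_trans (le_trans (le_max_right _ _) (le_max_left _ _)) hx
  have e3 : 3 ≤ x := le_trans (le_max_right _ _) hx
  have hx3' : (3 : ℝ) ≤ x := by exact_mod_cast e3
  have hxpos : (0 : ℝ) < x := by linarith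
  have hxone : (1 : ℝ) ≤ x := by linarith
  set L : ℝ := Real.log x with hL
  have hl := hx1 x e1
  have hL2 : 2 ≤ L := (le_max_left _ _).trans hl
  have hLC : C * 2 ^ (c + 1) ≤ L := (le_max_right _ _).trans hl
  have hLpos : 0 < L := by linarith
  have hp2 := hx2 x e2
  by_cases hts : (x : ℝ) ^ (1 / 2 : ℝ) ≤ t
  · have ht1 : 1 < (t : ℝ) := by
      refine lt_of_lt_of_le ?_ hts
      exact Real.one_lt_rpow (by linarith) (by norm_num)
    have ht2 : 2 ≤ t := by
      have : 1 < t := by exact_mod_cast ht1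
      omega
    have htpos : (0 : ℝ) < t := by linarith
    have h1 := hp t ht2
    have h2 : L / 2 ≤ Real.log t := by
      have h3 := Real.log_le_log (by positivity) hts
      rw [Real.log_rpow hxpos] at h3
      linarith
    refine h1.trans ?_
    have htx : (t : ℝ) ≤ x := by exact_mod_cast ht
    have hlt : 0 < Real.log t := by linarith
    rw [div_le_div_iff₀ (by positivity) (by positivity)]
    calc C * t * L ^ c ≤ C * x * L ^ c := by
          apply mul_le_mul_of_nonneg_right _ (by positivity)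
          exact mul_le_mul_of_nonneg_left htx hC.le
      _ = x * (C * 2 ^ (c + 1)) * L ^ c / 2 ^ (c + 1) := by
          field_simp
      _ ≤ x * L * L ^ c / 2 ^ (c + 1) := by
          apply div_le_div_of_nonneg_right _ (by positivity)
          apply mul_le_mul_of_nonneg_right _ (by positivity)
          exact mul_le_mul_of_nonneg_left hLC hxpos.le
      _ = x * (L / 2) ^ (c + 1) := by
          rw [div_pow]
          ring
      _ ≤ x * Real.log t ^ (c + 1) := by
          apply mul_le_mul_of_nonneg_left _ hxpos.le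
          exact pow_le_pow_left₀ (by positivity) h2 _
  · push Not at hts
    have h1 : |(∑ n ∈ Icc 1 t, Lam n) - t| ≤ t * (L + 1) := by
      have h2 : 0 ≤ ∑ n ∈ Icc 1 t, Lam n :=
        Finset.sum_nonneg fun n _ => ArithmeticFunction.vonMangoldt_nonneg
      have h3 : ∑ n ∈ Icc 1 t, Lam n ≤ t * L := by
        have h4 : ∀ n ∈ Icc 1 t, Lam n ≤ L := by
          intro n hn
          rw [mem_Icc] at hn
          refine ArithmeticFunction.vonMangoldt_le_log.trans ?_
          apply Real.log_le_log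
          · exact_mod_cast hn.1
          · exact_mod_cast hn.2.trans ht
        refine (Finset.sum_le_sum h4).trans ?_
        rw [Finset.sum_const, Nat.card_Icc, nsmul_eq_mul]
        simp
      have h5 : (0 : ℝ) ≤ t := by positivity
      rw [abs_le]
      constructor
      · nlinarith
      · nlinarith
    refine h1.trans ?_
    rw [le_div_iff₀ (by positivity)]
    have h2 : (x : ℝ) ^ (1 / 2 : ℝ) * (x : ℝ) ^ (1 / 2 : ℝ) = x := by
      rw [← Real.rpow_add hxpos]
      norm_num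
    calc (t : ℝ) * (L + 1) * L ^ c ≤ (x : ℝ) ^ (1 / 2 : ℝ) * (L * L) * L ^ c := by
          apply mul_le_mul_of_nonneg_right _ (by positivity)
          apply mul_le_mul hts.le _ (by positivity) (by positivity)
          nlinarith
      _ = (x : ℝ) ^ (1 / 2 : ℝ) * L ^ (c + 2) := by ring
      _ ≤ (x : ℝ) ^ (1 / 2 : ℝ) * (x : ℝ) ^ (1 / 2 : ℝ) := by
          apply mul_le_mul_of_nonneg_left hp2 (by positivity)
      _ = x := h2

/-- `err x 1 a = 0`. -/
lemma err_one (x : ℕ) (a : ZMod 1) : err x 1 a = 0 := by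
  unfold err
  have h1 : ((Icc 1 x).filter (fun p : ℕ => Nat.Prime p ∧ ((p : ZMod 1) = a))).card
      = Nat.primeCounting x := by
    rw [Nat.primeCounting, Nat.primeCounting', Nat.count_eq_card_filter_range]
    congr 1
    ext p
    simp only [mem_filter, mem_Icc, mem_range]
    constructor
    · rintro ⟨⟨_, h2⟩, h3, _⟩
      exact ⟨by omega, h3⟩
    · rintro ⟨h2, h3⟩
      exact ⟨⟨h3.one_le, by omega⟩, h3, Subsingleton.elim _ _⟩
  rw [h1]
  simp

/-- a sum over a union is at most the sum of the sums. -/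
lemma sum_biUnion_le' (J : Finset ℕ) (S : ℕ → Finset ℕ) (F : ℕ → ℝ) (hF : ∀ q, 0 ≤ F q) :
    ∑ q ∈ J.biUnion S, F q ≤ ∑ j ∈ J, ∑ q ∈ S j, F q := by
  classical
  induction J using Finset.induction_on with
  | empty => simp
  | insert j J hj ih =>
    rw [Finset.biUnion_insert, Finset.sum_insert hj]
    have h := Finset.sum_union_inter (s₁ := S j) (s₂ := J.biUnion S) (f := F)
    have h2 : 0 ≤ ∑ q ∈ S j ∩ J.biUnion S, F q := Finset.sum_nonneg fun q _ => hF q
    linarith

/-- the union of dyadic intervals. -/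
lemma dyadic_cover (F : ℕ → ℝ) (hF : ∀ q, 0 ≤ F q) (M J : ℕ) (hM : M < 2 ^ J) (P : ℕ → Prop)
    [DecidablePred P] (hF1 : F 1 = 0) (b : ℝ) (hb : 0 ≤ b)
    (hblock : ∀ j < J, ∀ q : ℕ, q ≤ M → P q → 2 ^ j < q → q ≤ 2 ^ (j + 1) →
      ∑ q ∈ Ioc (2 ^ j) (2 * 2 ^ j), F q ≤ b) :
    ∑ q ∈ (Icc 1 M).filter P, F q ≤ J * b := by
  have h1 : ∑ q ∈ (Icc 1 M).filter P, F q
      ≤ ∑ j ∈ range J, ∑ q ∈ (Ioc (2 ^ j) (2 * 2 ^ j)).filter (fun q => q ≤ M ∧ P q), F q := by
    rw [← Finset.sum_erase _ hF1]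
    have h2 : ((Icc 1 M).filter P).erase 1
        ⊆ (range J).biUnion
          (fun j => (Ioc (2 ^ j) (2 * 2 ^ j)).filter (fun q => q ≤ M ∧ P q)) := by
      intro q hq
      rw [mem_erase, mem_filter, mem_Icc] at hq
      obtain ⟨hq1, ⟨hq2, hq3⟩, hq4⟩ := hq
      rw [mem_biUnion]
      have hq5 : 2 ≤ q := by omega
      -- `j = log2 (q - 1)`
      have h3 : q - 1 ≠ 0 := by omega
      refine ⟨Nat.log 2 (q - 1), ?_, ?_⟩
      · rw [mem_range]
        apply Nat.log_lt_of_lt_pow h3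
        omega
      · rw [mem_filter, mem_Ioc]
        refine ⟨⟨?_, ?_⟩, hq3, hq4⟩
        · have := Nat.pow_log_le_self 2 h3
          omega
        · have := Nat.lt_pow_succ_log_self (b := 2) (by norm_num) (q - 1)
          rw [pow_succ] at this
          omega
    refine (Finset.sum_le_sum_of_subset_of_nonneg h2 (fun q _ _ => hF q)).trans ?_
    exact sum_biUnion_le' _ _ F hF
  refine h1.trans ?_
  have h2 : ∀ j ∈ range J,
      ∑ q ∈ (Ioc (2 ^ j) (2 * 2 ^ j)).filter (fun q => q ≤ M ∧ P q), F q ≤ b := by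
    intro j hj
    rw [mem_range] at hj
    by_cases hne : ((Ioc (2 ^ j) (2 * 2 ^ j)).filter (fun q => q ≤ M ∧ P q)).Nonempty
    · obtain ⟨q, hq⟩ := hne
      rw [mem_filter, mem_Ioc] at hq
      refine le_trans ?_ (hblock j hj q hq.2.1 hq.2.2 hq.1.1 (by rw [pow_succ]; omega))
      exact Finset.sum_le_sum_of_subset_of_nonneg (Finset.filter_subset _ _)
        (fun q _ _ => hF q)
    · rw [Finset.not_nonempty_iff_eq_empty] at hne
      rw [hne, Finset.sum_empty]
      exact hb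
  refine (Finset.sum_le_sum h2).trans ?_
  rw [Finset.sum_const, card_range, nsmul_eq_mul]

end Pool.Agent.H91.EHA

end

section

/-!
# IS GUa: counting rough numbers

`rough_count`: for y ≥ exp(20 log x/loglog x):  #{1 ≤ n ≤ y : no p ∈ PA x divides n} ≤ (1+ε) A0 x · y.

Proof: `trAbs` with ι = Unit (J = univ), h = 0, N = Ioc 0 ⌊y⌋ (or Icc 1 ⌊y⌋), P0 = PA x, P1 = ∅, g p = 1/p, X0 = y, e Z = 1
(#{n ≤ y : ∏Z ∣ n} = ⌊y/∏Z⌋), c = indicator of ∅ (K = 1, M = 0, D = 1), z = max 1 (z0 x), t + 1 = ⌊10 loglog x⌋: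
 #{rough} ≤ y A0 + 2 y (∑_{p≤z0} 1/p)^(t+1)/(t+1)! + ∑_{Z ⊆ PA, ∏ ≤ z0^(t+1)} 2^|Z|... (weights (|J|(M+1))^|Z| = 1)
 with ∑ 1/p ≤ ∑ fn p ≤ loglog x + C =: l + C (`sum_fn_le`), (l+C)^m/m! ≤ (e(l+C)/m)^m ≤ (1/3)^(9l) ≤ (log x)^{-9}, m = ⌊10 l⌋, while
 A0 = tau/log x ≥ 1/log x for large x (`tau_bounds`);
 z0^m ≤ exp(log x/l² · 10 l) = exp(10 log x/l) ≤ y^(1/2), and the last sum is ≤ y^(1/2) ∏(1+1/p) ≤ y^(1/2) (log x)^B (`sum_pow_le`,
 `euler_pow`) ≤ (ε/2) A0 y since y^(1/2) ≥ exp(10 log x/l) beats every power of log x.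
-/

set_option autoImplicit false

namespace Pool.Agent.H36.IS

open Finset Filter

/-- counting multiples -/
private theorem GUa_count (Z : Finset ℕ) (hZ : ∀ p ∈ Z, p.Prime) (y : ℝ) (hy : 0 ≤ y) :
    |(((Icc 1 ⌊y⌋₊).filter (fun n => ∀ p ∈ Z, p ∣ n)).card : ℝ) - y * ∏ p ∈ Z, (1 / (p : ℝ))| ≤ 1 := by
  have h1 : (Icc 1 ⌊y⌋₊).filter (fun n => ∀ p ∈ Z, p ∣ n) =
      (Ioc 0 ⌊y⌋₊).filter (fun n => ∏ p ∈ Z, p ∣ n) := by
    ext n
    simp only [mem_filter, mem_Icc, mem_Ioc]
    refine and_congr ?_ ?_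
    · omega
    · constructor
      · intro h
        exact Finset.prod_primes_dvd n (fun p hp => (hZ p hp).prime) h
      · intro h p hp
        exact (Finset.dvd_prod_of_mem _ hp).trans h
  rw [h1, Nat.Ioc_filter_dvd_card_eq_div]
  have hP : (0 : ℝ) < ((∏ p ∈ Z, p : ℕ) : ℝ) := by
    exact_mod_cast Finset.prod_pos fun p hp => (hZ p hp).pos
  have h2 : y * ∏ p ∈ Z, (1 / (p : ℝ)) = y / ((∏ p ∈ Z, p : ℕ) : ℝ) := by
    rw [Finset.prod_div_distrib, prod_const_one, Nat.cast_prod, mul_one_div]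
  rw [h2, ← Nat.floor_div_natCast, abs_le]
  have h3 : 0 ≤ y / ((∏ p ∈ Z, p : ℕ) : ℝ) := div_nonneg hy hP.le
  have h4 := Nat.floor_le h3
  have h5 := Nat.lt_floor_add_one (y / ((∏ p ∈ Z, p : ℕ) : ℝ))
  constructor <;> linarith

private theorem GUa_mem {x p : ℕ} (hp : p ∈ PA x) : p.Prime ∧ (p : ℝ) ≤ z0 x := by
  unfold PA at hp
  exact (mem_filter.1 hp).2

/-- Brun's sieve, finite form -/
private theorem GUa_fin (x t : ℕ) (y : ℝ) (hy : 0 ≤ y) (hz : 1 ≤ z0 x) :
    (((Icc 1 ⌊y⌋₊).filter (fun n => ∀ p ∈ PA x, ¬ p ∣ n)).card : ℝ) ≤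
      y * A0 x + y * (2 * (∑ p ∈ PA x, 1 / (p : ℝ)) ^ (t + 1) / (t + 1).factorial) +
        z0 x ^ (t + 1) * ∏ p ∈ PA x, (1 + 1 / (p : ℝ)) := by
  classical
  have key := trAbs (ι := Unit) Finset.univ (fun _ => 0) (Icc 1 ⌊y⌋₊) (PA x) ∅
    (fun p hp => (GUa_mem hp).1) (fun p hp => absurd hp (Finset.notMem_empty p))
    (Finset.disjoint_empty_right _) (fun p _ i _ j _ hij => absurd (Subsingleton.elim i j) hij)
    (fun p => 1 / (p : ℝ))
    (fun p hp => by
      rw [union_empty] at hp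
      have hp2 : (1 : ℝ) ≤ p := by exact_mod_cast (GUa_mem hp).1.one_le
      refine ⟨by positivity, ?_⟩
      simp only [card_univ, Fintype.card_unit, Nat.cast_one, one_mul]
      rw [div_le_one (by linarith)]
      exact hp2)
    y hy (fun _ => 1) (fun _ => zero_le_one)
    (fun Z hZ φ _ => by
      simp only [add_zero]
      refine GUa_count Z (fun p hp => ?_) y hy
      have := hZ hp
      rw [union_empty] at this
      exact (GUa_mem this).1)
    (by
      have h0 := GUa_count ∅ (fun p hp => absurd hp (Finset.notMem_empty p)) y hy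
      simpa using h0)
    t 1 0 1 (z0 x) zero_le_one le_rfl zero_le_one hz (fun p hp => (GUa_mem hp).2)
    (fun Q => if Q = ∅ then 1 else 0)
    (fun Q => by
      by_cases hQ : Q = ∅
      · subst hQ
        simp
      · rw [if_neg hQ]
        simp [hQ])
  simp only [product_empty, powerset_empty, card_univ, Fintype.card_unit, Nat.cast_one, one_mul,
    mul_one, zero_add, one_pow, add_zero, Ev, sum_singleton, prod_empty, if_true, abs_one,
    union_empty, mem_univ, forall_const, sum_const, nsmul_eq_mul] at key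
  have hempty : ({∅} : Finset (Finset (Unit × ℕ))).filter
      (fun Q : Finset (Unit × ℕ) => ¬ Set.InjOn Prod.snd (Q : Set (Unit × ℕ))) = ∅ := by
    rw [filter_eq_empty_iff]
    intro Q hQ
    rw [mem_singleton] at hQ
    subst hQ
    simp
  rw [hempty, sum_empty, mul_zero, add_zero] at key
  have h1 := sum_pow_le (PA x) (fun p hp => (GUa_mem hp).1) 1 (z0 x ^ (t + 1)) zero_le_one
    (pow_nonneg (zero_le_one.trans hz) _)
  simp only [one_pow, sum_const, nsmul_eq_mul, mul_one] at h1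
  have hA : ∏ p ∈ PA x, (1 - 1 / (p : ℝ)) = A0 x := rfl
  rw [hA] at key
  have h2 := (abs_le.1 key).2
  linarith

theorem rough_count (ε : ℝ) (hε : 0 < ε) : ∀ᶠ x : ℕ in atTop, ∀ y : ℝ,
    Real.exp (20 * Real.log x / Real.log (Real.log x)) ≤ y →
    (((Icc 1 ⌊y⌋₊).filter (fun n => ∀ p ∈ PA x, ¬ p ∣ n)).card : ℝ) ≤ (1 + ε) * A0 x * y := by
  obtain ⟨C, hC⟩ := sum_fn_le
  obtain ⟨B, hB⟩ := euler_pow 1 zero_le_one
  obtain ⟨c, C', hc, hC', hT⟩ := tau_bounds
  have hlog : Tendsto (fun x : ℕ => Real.log (Real.log x)) atTop atTop :=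
    Real.tendsto_log_atTop.comp (Real.tendsto_log_atTop.comp tendsto_natCast_atTop_atTop)
  have e1 := hlog.eventually_ge_atTop 1
  have e2 := hlog.eventually_ge_atTop (10 * C)
  have e3 := hlog.eventually_ge_atTop (1 / c)
  have e4 := hlog.eventually_ge_atTop (4 / ε)
  have e5 := hlog.eventually_ge_atTop ((B : ℝ) + 2)
  have e6 := hlog.eventually_ge_atTop (-Real.log (ε / 2))
  filter_upwards [hC, hB, hT, e1, e2, e3, e4, e5, e6] with x hCx hBx hTx h1 h2 h3 h4 h5 h6 y hy
  set L := Real.log x with hL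
  set l := Real.log L with hl
  have hl0 : 0 < l := by linarith
  have hL1 : 1 < L := by
    by_contra hcon
    push Not at hcon
    have : l ≤ 0 := by
      rcases le_or_gt L 0 with h | h
      · have hL0 : 0 ≤ L := Real.log_natCast_nonneg x
        have : L = 0 := le_antisymm h hL0
        rw [hl, this, Real.log_zero]
      · exact Real.log_nonpos h.le hcon
    linarith
  have hL0 : 0 < L := by linarith
  have hexp : Real.exp l = L := Real.exp_log hL0
  -- size of `z0`
  have hz0 : z0 x = Real.exp (L / l ^ 2) := rfl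
  have hz : 1 ≤ z0 x := by
    rw [hz0]
    exact Real.one_le_exp (by positivity)
  -- the number `m = t + 1`
  set m := ⌊10 * l⌋₊ with hm
  have hm1 : (m : ℝ) ≤ 10 * l := Nat.floor_le (by linarith)
  have hm2 : 10 * l < (m : ℝ) + 1 := Nat.lt_floor_add_one _
  have hm3 : 9 * l ≤ (m : ℝ) := by linarith
  have hm4 : m ≠ 0 := by
    intro h
    rw [h] at hm3
    norm_num at hm3
    linarith
  obtain ⟨t, ht⟩ := Nat.exists_eq_succ_of_ne_zero hm4
  have ht' : t + 1 = m := ht.symm
  have hy0 : 0 ≤ y := (Real.exp_pos _).le.trans hy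
  have key := GUa_fin x t y hy0 hz
  rw [ht'] at key
  -- `A0 ≥ exp (-l)`
  have hA : Real.exp (-l) ≤ A0 x := by
    have h7 : c * l ^ 2 ≤ A0 x * L := hTx.1
    have h8 : 1 ≤ c * l ^ 2 := by
      rw [div_le_iff₀ hc] at h3
      nlinarith
    rw [Real.exp_neg, hexp, inv_le_iff_one_le_mul₀ hL0]
    linarith
  have hA0 : 0 < A0 x := (Real.exp_pos _).trans_le hA
  -- subset
  have hsub : PA x ⊆ (range (x + 1)).filter Nat.Prime := by
    intro p hp
    unfold PA at hp
    rw [mem_filter] at hp ⊢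
    exact ⟨hp.1, hp.2.1⟩
  have hfn : ∀ p : ℕ, p.Prime → 0 ≤ 1 / (p : ℝ) ∧ 1 / (p : ℝ) ≤ fn p := by
    intro p hp
    have : (2 : ℝ) ≤ p := by exact_mod_cast hp.two_le
    refine ⟨by positivity, ?_⟩
    unfold fn
    exact one_div_le_one_div_of_le (by linarith) (by linarith)
  have hS0 : 0 ≤ ∑ p ∈ PA x, 1 / (p : ℝ) := sum_nonneg fun p hp => (hfn p (GUa_mem hp).1).1
  have hS : ∑ p ∈ PA x, 1 / (p : ℝ) ≤ 11 / 10 * l := by
    have h7 : ∑ p ∈ PA x, 1 / (p : ℝ) ≤ ∑ p ∈ (range (x + 1)).filter Nat.Prime, fn p := by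
      refine (sum_le_sum fun p hp => (hfn p (GUa_mem hp).1).2).trans ?_
      refine sum_le_sum_of_subset_of_nonneg hsub fun p hp _ => ?_
      have := hfn p (mem_filter.1 hp).2
      linarith
    linarith
  have hE : ∏ p ∈ PA x, (1 + 1 / (p : ℝ)) ≤ L ^ B := by
    have h7 : ∏ p ∈ PA x, (1 + 1 / (p : ℝ)) ≤
        ∏ p ∈ (range (x + 1)).filter Nat.Prime, (1 + 1 * fn p) := by
      calc ∏ p ∈ PA x, (1 + 1 / (p : ℝ)) ≤ ∏ p ∈ PA x, (1 + 1 * fn p) := by
            refine prod_le_prod (fun p hp => ?_) (fun p hp => ?_)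
            · have := hfn p (GUa_mem hp).1
              linarith
            · have := hfn p (GUa_mem hp).1
              linarith
        _ ≤ (∏ p ∈ (range (x + 1)).filter Nat.Prime \ PA x, (1 + 1 * fn p)) *
              ∏ p ∈ PA x, (1 + 1 * fn p) := by
            refine le_mul_of_one_le_left ?_ ?_
            · exact prod_nonneg fun p hp => by
                have := hfn p (GUa_mem hp).1
                linarith
            · have h8 : ∏ _p ∈ (range (x + 1)).filter Nat.Prime \ PA x, (1 : ℝ) ≤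
                  ∏ p ∈ (range (x + 1)).filter Nat.Prime \ PA x, (1 + 1 * fn p) := by
                refine prod_le_prod (fun _ _ => zero_le_one) fun p hp => ?_
                have := hfn p (mem_filter.1 (Finset.mem_sdiff.1 hp).1).2
                linarith
              rwa [prod_const_one] at h8
        _ = _ := prod_sdiff hsub
    exact h7.trans hBx
  have hE0 : 0 ≤ ∏ p ∈ PA x, (1 + 1 / (p : ℝ)) := prod_nonneg fun p hp => by
    have := hfn p (GUa_mem hp).1
    linarith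
  -- the first term
  have T1 : 2 * (∑ p ∈ PA x, 1 / (p : ℝ)) ^ m / m.factorial ≤ ε / 2 * A0 x := by
    have he2 : Real.exp 2 ≤ 739 / 100 := by
      have h7 : Real.exp 2 = Real.exp 1 * Real.exp 1 := by rw [← Real.exp_add]; norm_num
      have h8 := Real.exp_one_lt_d9
      have h9 := Real.exp_pos 1
      rw [h7]
      nlinarith
    have h7 : ∑ p ∈ PA x, 1 / (p : ℝ) ≤ m * Real.exp (-2) := by
      rw [Real.exp_neg, ← div_eq_mul_inv, le_div_iff₀ (Real.exp_pos 2)]
      have h8 : (∑ p ∈ PA x, 1 / (p : ℝ)) * Real.exp 2 ≤ 11 / 10 * l * (739 / 100) :=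
        mul_le_mul hS he2 (Real.exp_pos _).le (by linarith)
      linarith
    have h8 := pow_le_pow_left₀ hS0 h7 m
    have h9 : (m : ℝ) ^ m / m.factorial ≤ Real.exp m :=
      Real.pow_div_factorial_le_exp (m : ℝ) (Nat.cast_nonneg m) m
    have hf : (0 : ℝ) < m.factorial := by exact_mod_cast m.factorial_pos
    have h10 : (∑ p ∈ PA x, 1 / (p : ℝ)) ^ m / m.factorial ≤ Real.exp (-(9 * l)) := by
      calc (∑ p ∈ PA x, 1 / (p : ℝ)) ^ m / m.factorial ≤
            (m * Real.exp (-2)) ^ m / m.factorial := div_le_div_of_nonneg_right h8 hf.le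
        _ = (m : ℝ) ^ m / m.factorial * Real.exp (-2) ^ m := by rw [mul_pow]; ring
        _ ≤ Real.exp m * Real.exp (-2) ^ m :=
            mul_le_mul_of_nonneg_right h9 (pow_nonneg (Real.exp_pos _).le _)
        _ = Real.exp (-m) := by
            rw [← Real.exp_nat_mul, ← Real.exp_add]
            congr 1
            ring
        _ ≤ Real.exp (-(9 * l)) := Real.exp_le_exp.2 (by linarith)
    have h11 : Real.exp (-(9 * l)) ≤ ε / 4 * Real.exp (-l) := by
      have h12 : Real.exp (-(9 * l)) = Real.exp (-(8 * l)) * Real.exp (-l) := by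
        rw [← Real.exp_add]
        congr 1
        ring
      rw [h12]
      refine mul_le_mul_of_nonneg_right ?_ (Real.exp_pos _).le
      rw [Real.exp_neg, inv_le_comm₀ (Real.exp_pos _) (by linarith)]
      have h13 : (ε / 4)⁻¹ = 4 / ε := by rw [inv_div]
      rw [h13]
      have h14 := Real.add_one_le_exp (8 * l)
      linarith
    have h12 : 2 * (∑ p ∈ PA x, 1 / (p : ℝ)) ^ m / m.factorial =
        2 * ((∑ p ∈ PA x, 1 / (p : ℝ)) ^ m / m.factorial) := by ring
    rw [h12]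
    nlinarith
  -- the second term
  have T2 : z0 x ^ m * ∏ p ∈ PA x, (1 + 1 / (p : ℝ)) ≤ ε / 2 * A0 x * y := by
    have h7 : z0 x ^ m ≤ Real.exp (10 * L / l) := by
      rw [hz0, ← Real.exp_nat_mul]
      refine Real.exp_le_exp.2 ?_
      have h8 : (m : ℝ) * (L / l ^ 2) ≤ 10 * l * (L / l ^ 2) :=
        mul_le_mul_of_nonneg_right hm1 (by positivity)
      have h9 : 10 * l * (L / l ^ 2) = 10 * L / l := by
        field_simp
      linarith
    have h8 : L ^ B = Real.exp (B * l) := by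
      rw [Real.exp_nat_mul, hexp]
    have h9 : l ^ 2 / 6 ≤ L / l := by
      have h10 := Real.pow_div_factorial_le_exp l hl0.le 3
      rw [hexp] at h10
      rw [le_div_iff₀ hl0]
      have : (Nat.factorial 3 : ℝ) = 6 := by norm_num [Nat.factorial]
      rw [this] at h10
      calc l ^ 2 / 6 * l = l ^ 3 / 6 := by ring
        _ ≤ L := h10
    have h10 : 10 * L / l = 10 * (L / l) := by ring
    have h11 : 20 * L / l = 10 * L / l + 10 * (L / l) := by ring
    have h12 : Real.exp (10 * L / l) * Real.exp (B * l) ≤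
        ε / 2 * Real.exp (-l) * Real.exp (20 * L / l) := by
      have h13 : ε / 2 = Real.exp (Real.log (ε / 2)) := (Real.exp_log (by linarith)).symm
      rw [h13, ← Real.exp_add, ← Real.exp_add, ← Real.exp_add]
      refine Real.exp_le_exp.2 ?_
      rw [h11]
      nlinarith
    calc z0 x ^ m * ∏ p ∈ PA x, (1 + 1 / (p : ℝ)) ≤ Real.exp (10 * L / l) * Real.exp (B * l) := by
          rw [← h8]
          exact mul_le_mul h7 hE hE0 (Real.exp_pos _).le
      _ ≤ ε / 2 * Real.exp (-l) * Real.exp (20 * L / l) := h12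
      _ ≤ ε / 2 * A0 x * y := by
          refine mul_le_mul ?_ hy (Real.exp_pos _).le (by positivity)
          exact mul_le_mul_of_nonneg_left hA (by linarith)
  have T1' := mul_le_mul_of_nonneg_left T1 hy0
  linarith

end Pool.Agent.H36.IS

end

section

/-!
# IS GU: upper bound for rough sums

`GG_up`: for c log x ≤ t ≤ log x:  GG (PX x) t = ∑_{a ≤ e^t squarefree, z0-rough} 1/φ(a) ≤ (1+ε) A0 x · t.

Proof.  Step 1: `rough_count` (GUa): R(y) = #{n ≤ y : no prime factor ≤ z0} ≤ (1+ε) A0 y for y ≥ Y0 := exp(20 log x/loglog x).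
Step 2 (partial summation).  ∑_{a ≤ e^t rough} 1/a ≤ ∑_{a ≤ Y0 rough} 1/a + ∑_{Y0 < a ≤ e^t} 1/a;  the first sum is
 ≤ ∏_{z0 < p ≤ Y0} (1-1/p)^{-1} ≤ C log Y0/log z0 = 20 C loglog x (Mertens);  second: ∑_{Y0<a≤y} 1/a = R(y)/y - R(Y0)/Y0 +
 ∫_{Y0}^y R(u)/u² du ≤ (1+ε)A0 (1 + t)  (or dyadic/discrete Abel summation: ∑ R(n)/(n(n+1))).
 Since A0 · c log x ≍ c (loglog x)^2 (`tau_bounds`), the first sum and the term (1+ε)A0 are ≤ ε A0 t for large x.
Step 3.  1/φ(a) ≤ (1/a) (1 - 1/z0)^{-ω(a)}, ω(a) ≤ log x/log z0 = (loglog x)^2, so 1/φ(a) ≤ (1+ε)/a.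
-/

set_option autoImplicit false

namespace Pool.Agent.H36.IS

open Finset Filter

/-- Abel summation. -/
private lemma GU_abel (P : ℕ → Prop) [DecidablePred P] (K : ℝ) (hK : 0 ≤ K) (M : ℕ)
    (hR : ∀ n, M + 1 ≤ n → (((Icc 1 n).filter P).card : ℝ) ≤ K * n) (N : ℕ) (hN : 1 ≤ N) :
    ∑ n ∈ (Ioc M N).filter P, 1 / (n : ℝ) ≤ K * (2 + Real.log N) := by
  have hlogN : 0 ≤ Real.log (N : ℝ) := Real.log_natCast_nonneg N
  rcases Nat.lt_or_ge M N with hMN | hMN
  swap
  · rw [Finset.Ioc_eq_empty (by omega), Finset.filter_empty, Finset.sum_empty]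
    positivity
  have key : ∀ j : ℕ, ∑ n ∈ (Ioc M (M + j)).filter P, 1 / (n : ℝ) ≤
      (((Icc 1 (M + j)).filter P).card : ℝ) / ((M + j : ℕ) + 1 : ℝ) +
        K * (Real.log ((M + j : ℕ) + 1 : ℝ) - Real.log ((M : ℝ) + 1)) := by
    intro j
    induction j with
    | zero =>
      rw [Nat.add_zero, Finset.Ioc_self, Finset.filter_empty, Finset.sum_empty, sub_self, mul_zero,
        add_zero]
      positivity
    | succ j ih =>
      have e1 : Ioc M (M + (j + 1)) = insert (M + (j + 1)) (Ioc M (M + j)) := by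
        ext a
        simp only [Finset.mem_Ioc, Finset.mem_insert]
        omega
      have e2 : Icc 1 (M + (j + 1)) = insert (M + (j + 1)) (Icc 1 (M + j)) := by
        ext a
        simp only [Finset.mem_Icc, Finset.mem_insert]
        omega
      have n1 : M + (j + 1) ∉ (Ioc M (M + j)).filter P := by
        simp
      have n2 : M + (j + 1) ∉ (Icc 1 (M + j)).filter P := by
        simp
      set R : ℝ := (((Icc 1 (M + j)).filter P).card : ℝ) with hRdef
      set R' : ℝ := (((Icc 1 (M + (j + 1))).filter P).card : ℝ) with hR'def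
      set a : ℝ := ((M + j : ℕ) : ℝ) + 1 with ha
      have ha0 : 0 < a := by positivity
      have ha' : ((M + (j + 1) : ℕ) : ℝ) = a := by rw [ha]; push_cast; ring
      have hcase : ∑ n ∈ (Ioc M (M + (j + 1))).filter P, 1 / (n : ℝ) ≤
          R' / a + K * (Real.log a - Real.log ((M : ℝ) + 1)) := by
        by_cases hp : P (M + (j + 1))
        · have hR' : R' = R + 1 := by
            rw [hR'def, e2, Finset.filter_insert, if_pos hp, Finset.card_insert_of_notMem n2]
            push_cast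
            rfl
          rw [e1, Finset.filter_insert, if_pos hp, Finset.sum_insert n1, ha', hR']
          have : (R + 1) / a = R / a + 1 / a := by ring
          rw [this]
          linarith
        · have hR' : R' = R := by
            rw [hR'def, e2, Finset.filter_insert, if_neg hp]
          rw [e1, Finset.filter_insert, if_neg hp, hR']
          exact ih
      have hR1 : R' ≤ K * a := by
        have := hR (M + (j + 1)) (by omega)
        rw [ha'] at this
        exact this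
      have hlog : 1 / (a + 1) ≤ Real.log (a + 1) - Real.log a := by
        rw [← Real.log_div (by positivity) (by positivity)]
        have h1 := Real.one_sub_inv_le_log_of_pos (show 0 < (a + 1) / a by positivity)
        refine le_trans (le_of_eq ?_) h1
        field_simp
        ring
      have hdiff : R' / a ≤ R' / (a + 1) + K * (Real.log (a + 1) - Real.log a) := by
        have h1 : R' / a - R' / (a + 1) = R' / a * (1 / (a + 1)) := by
          field_simp
          ring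
        have h2 : R' / a ≤ K := by
          rw [div_le_iff₀ ha0]
          exact hR1
        have h3 : R' / a * (1 / (a + 1)) ≤ K * (1 / (a + 1)) :=
          mul_le_mul_of_nonneg_right h2 (by positivity)
        have h4 : K * (1 / (a + 1)) ≤ K * (Real.log (a + 1) - Real.log a) :=
          mul_le_mul_of_nonneg_left hlog hK
        linarith
      rw [ha']
      have e3 : K * (Real.log (a + 1) - Real.log ((M : ℝ) + 1)) =
          K * (Real.log (a + 1) - Real.log a) + K * (Real.log a - Real.log ((M : ℝ) + 1)) := by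
        ring
      rw [e3]
      linarith
  obtain ⟨j, rfl⟩ := Nat.exists_eq_add_of_le hMN.le
  have h1 := key j
  have hN0 : (1 : ℝ) ≤ ((M + j : ℕ) : ℝ) := by exact_mod_cast hN
  have h2 : (((Icc 1 (M + j)).filter P).card : ℝ) / (((M + j : ℕ) : ℝ) + 1) ≤ K := by
    rw [div_le_iff₀ (by linarith)]
    have := hR (M + j) (by omega)
    nlinarith
  have h3 : Real.log (((M + j : ℕ) : ℝ) + 1) ≤ 1 + Real.log ((M + j : ℕ) : ℝ) := by
    have h4 : Real.log (((M + j : ℕ) : ℝ) + 1) ≤ Real.log (2 * ((M + j : ℕ) : ℝ)) :=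
      Real.log_le_log (by linarith) (by linarith)
    rw [Real.log_mul (by norm_num) (by linarith)] at h4
    have h5 := Real.log_two_lt_d9
    linarith
  have h6 : 0 ≤ Real.log ((M : ℝ) + 1) := Real.log_nonneg (by
    have : (0 : ℝ) ≤ M := Nat.cast_nonneg M
    linarith)
  have h7 : K * (Real.log (((M + j : ℕ) : ℝ) + 1) - Real.log ((M : ℝ) + 1)) ≤
      K * (1 + Real.log ((M + j : ℕ) : ℝ)) := mul_le_mul_of_nonneg_left (by linarith) hK
  calc _ ≤ _ := h1
    _ ≤ K + K * (1 + Real.log ((M + j : ℕ) : ℝ)) := add_le_add h2 h7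
    _ = K * (2 + Real.log ((M + j : ℕ) : ℝ)) := by ring

private lemma GU_fn_pos {p : ℕ} (hp : p.Prime) : 0 < fn p := by
  unfold fn
  have : (2 : ℝ) ≤ p := by exact_mod_cast hp.two_le
  exact div_pos one_pos (by linarith)

private lemma GU_one_add_fn {p : ℕ} (hp : p.Prime) : (1 + fn p) * (1 - 1 / (p : ℝ)) = 1 := by
  unfold fn
  have : (2 : ℝ) ≤ p := by exact_mod_cast hp.two_le
  have h1 : (p : ℝ) - 1 ≠ 0 := by linarith
  have h2 : (p : ℝ) ≠ 0 := by linarith
  field_simp
  ring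

private lemma GU_A0_pos (x : ℕ) : 0 < A0 x := by
  unfold A0
  refine Finset.prod_pos fun p hp => ?_
  have hp' : p.Prime := (Finset.mem_filter.1 hp).2.1
  have : (2 : ℝ) ≤ p := by exact_mod_cast hp'.two_le
  have : 1 / (p : ℝ) < 1 := by
    rw [div_lt_one (by linarith)]
    linarith
  linarith

/-- The sets with product at most `Y`. -/
private lemma GU_first (x : ℕ) (Y B : ℝ) (hzY : z0 x ≤ Y) (hY : 1 ≤ Y)
    (hsum : ∑ p ∈ (range (⌊Y⌋₊ + 1)).filter Nat.Prime, fn p ≤ B) :
    ∑ S ∈ (PX x).powerset.filter (fun S => lg S ≤ Real.log Y), ∏ p ∈ S, fn p ≤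
      A0 x * Real.exp B := by
  classical
  have hPXp : ∀ p ∈ PX x, p.Prime ∧ z0 x < (p : ℝ) := fun p hp => (Finset.mem_filter.1 hp).2
  set P1 : Finset ℕ := (PX x).filter (fun p : ℕ => (p : ℝ) ≤ Y) with hP1
  have h1 : ∑ S ∈ (PX x).powerset.filter (fun S => lg S ≤ Real.log Y), ∏ p ∈ S, fn p ≤
      ∑ S ∈ P1.powerset, ∏ p ∈ S, fn p := by
    refine Finset.sum_le_sum_of_subset_of_nonneg ?_ ?_
    · intro S hS
      rw [Finset.mem_filter, Finset.mem_powerset] at hS
      rw [Finset.mem_powerset]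
      intro p hp
      rw [hP1, Finset.mem_filter]
      refine ⟨hS.1 hp, ?_⟩
      have hp0 : (0 : ℝ) < p := by exact_mod_cast (hPXp p (hS.1 hp)).1.pos
      have h2 : Real.log p ≤ lg S := by
        unfold lg
        refine Finset.single_le_sum (f := fun p : ℕ => Real.log (p : ℝ)) ?_ hp
        intro q _
        exact Real.log_natCast_nonneg q
      exact (Real.log_le_log_iff hp0 (by linarith)).1 (h2.trans hS.2)
    · intro S hS _
      refine Finset.prod_nonneg fun p hp => ?_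
      have := Finset.mem_powerset.1 hS hp
      exact (GU_fn_pos (hPXp p (Finset.mem_filter.1 this).1).1).le
  have h2 : ∑ S ∈ P1.powerset, ∏ p ∈ S, fn p = ∏ p ∈ P1, (1 + fn p) :=
    (Finset.prod_one_add P1).symm
  have hdisj : Disjoint (PA x) P1 := by
    rw [Finset.disjoint_left]
    intro p hp hp'
    have a1 := (Finset.mem_filter.1 hp).2.2
    have a2 := (hPXp p (Finset.mem_filter.1 hp').1).2
    linarith
  have h3 : ∏ p ∈ P1, (1 + fn p) = A0 x * ∏ p ∈ PA x ∪ P1, (1 + fn p) := by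
    rw [Finset.prod_union hdisj, ← mul_assoc]
    have : A0 x * ∏ p ∈ PA x, (1 + fn p) = 1 := by
      unfold A0
      rw [← Finset.prod_mul_distrib]
      refine Finset.prod_eq_one fun p hp => ?_
      rw [mul_comm]
      exact GU_one_add_fn (Finset.mem_filter.1 hp).2.1
    rw [this, one_mul]
  have hsub : PA x ∪ P1 ⊆ (range (⌊Y⌋₊ + 1)).filter Nat.Prime := by
    intro p hp
    rw [Finset.mem_union] at hp
    rw [Finset.mem_filter, Finset.mem_range]
    rcases hp with hp | hp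
    · have := (Finset.mem_filter.1 hp).2
      exact ⟨Nat.lt_succ_of_le (Nat.le_floor (this.2.trans hzY)), this.1⟩
    · have h5 := Finset.mem_filter.1 hp
      exact ⟨Nat.lt_succ_of_le (Nat.le_floor h5.2), (hPXp p h5.1).1⟩
  have h4 : ∏ p ∈ PA x ∪ P1, (1 + fn p) ≤ Real.exp B := by
    calc ∏ p ∈ PA x ∪ P1, (1 + fn p) ≤
          ∏ p ∈ (range (⌊Y⌋₊ + 1)).filter Nat.Prime, (1 + fn p) := by
          refine Finset.prod_le_prod_of_subset_of_one_le hsub (fun p hp => ?_)
            (fun p hp _ => ?_)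
          · have := GU_fn_pos (Finset.mem_filter.1 (hsub hp)).2
            linarith
          · have := GU_fn_pos (Finset.mem_filter.1 hp).2
            linarith
      _ ≤ ∏ p ∈ (range (⌊Y⌋₊ + 1)).filter Nat.Prime, Real.exp (fn p) := by
          refine Finset.prod_le_prod (fun p hp => ?_) (fun p _ => ?_)
          · have := GU_fn_pos (Finset.mem_filter.1 hp).2
            linarith
          · have := Real.add_one_le_exp (fn p)
            linarith
      _ = Real.exp (∑ p ∈ (range (⌊Y⌋₊ + 1)).filter Nat.Prime, fn p) := by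
          rw [Real.exp_sum]
      _ ≤ Real.exp B := Real.exp_le_exp.2 hsum
  rw [h2, h3] at h1
  exact h1.trans (mul_le_mul_of_nonneg_left h4 (GU_A0_pos x).le)

private lemma GU_lg_eq (S : Finset ℕ) (hS : ∀ p ∈ S, p.Prime) :
    Real.log ((∏ p ∈ S, p : ℕ) : ℝ) = lg S := by
  unfold lg
  push_cast
  rw [Real.log_prod]
  intro p hp
  exact_mod_cast (hS p hp).ne_zero

private lemma GU_prod_fn (z s δ : ℝ) (hz : 2 ≤ z) (hexp : Real.exp (2 * s / z) ≤ 1 + δ)
    (S : Finset ℕ) (hS : ∀ p ∈ S, p.Prime ∧ z < (p : ℝ)) (hs : (S.card : ℝ) ≤ s) :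
    ∏ p ∈ S, fn p ≤ (1 + δ) * (1 / ((∏ p ∈ S, p : ℕ) : ℝ)) := by
  have h1 : ∏ p ∈ S, fn p ≤ ∏ p ∈ S, (1 / (p : ℝ) * Real.exp (2 / z)) := by
    refine Finset.prod_le_prod (fun p hp => (GU_fn_pos (hS p hp).1).le) (fun p hp => ?_)
    have hp2 := (hS p hp).2
    unfold fn
    have h2 : (0 : ℝ) < (p : ℝ) - 1 := by linarith
    have h3 : 2 / z + 1 ≤ Real.exp (2 / z) := Real.add_one_le_exp _
    have h4 : 1 / ((p : ℝ) - 1) ≤ 1 / (p : ℝ) * (2 / z + 1) := by
      rw [div_le_iff₀ h2]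
      have h5 : 1 / (p : ℝ) * (2 / z + 1) * ((p : ℝ) - 1) =
          ((2 + z) * ((p : ℝ) - 1)) / (z * p) := by
        field_simp
      have hz0 : 0 < z := by linarith
      have hp0 : (0 : ℝ) < p := by linarith
      rw [h5, le_div_iff₀ (mul_pos hz0 hp0)]
      nlinarith
    exact h4.trans (mul_le_mul_of_nonneg_left h3 (by positivity))
  refine h1.trans ?_
  rw [Finset.prod_mul_distrib, Finset.prod_const]
  have h2 : Real.exp (2 / z) ^ S.card ≤ 1 + δ := by
    rw [← Real.exp_nat_mul]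
    refine le_trans (Real.exp_le_exp.2 ?_) hexp
    have : (S.card : ℝ) * (2 / z) = 2 * (S.card : ℝ) / z := by ring
    rw [this]
    exact div_le_div_of_nonneg_right (by linarith) (by linarith)
  have h3 : ∏ p ∈ S, (1 / (p : ℝ)) = 1 / ((∏ p ∈ S, p : ℕ) : ℝ) := by
    push_cast
    rw [Finset.prod_div_distrib, Finset.prod_const_one]
  rw [h3, mul_comm]
  exact mul_le_mul_of_nonneg_right h2 (by positivity)

/-- The sets with product larger than `Y`. -/
private lemma GU_second (x : ℕ) (Y t δ K s : ℝ) (hY : 1 ≤ Y) (hz2 : 2 ≤ z0 x) (hK : 0 ≤ K)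
    (hδ : 0 ≤ δ) (ht : 0 ≤ t)
    (hcount : ∀ y : ℝ, Y ≤ y →
      (((Icc 1 ⌊y⌋₊).filter (fun n => ∀ p ∈ PA x, ¬ p ∣ n)).card : ℝ) ≤ K * y)
    (hexp : Real.exp (2 * s / z0 x) ≤ 1 + δ)
    (hs : ∀ S ⊆ PX x, lg S ≤ t → (S.card : ℝ) ≤ s) :
    ∑ S ∈ (PX x).powerset.filter (fun S => Real.log Y < lg S ∧ lg S ≤ t), ∏ p ∈ S, fn p ≤
      (1 + δ) * (K * (2 + t)) := by
  classical
  have hPXp : ∀ p ∈ PX x, p.Prime ∧ z0 x < (p : ℝ) := fun p hp => (Finset.mem_filter.1 hp).2
  set F := (PX x).powerset.filter (fun S => Real.log Y < lg S ∧ lg S ≤ t) with hF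
  have hFm : ∀ S ∈ F, S ⊆ PX x ∧ Real.log Y < lg S ∧ lg S ≤ t := by
    intro S hS
    rw [hF, Finset.mem_filter, Finset.mem_powerset] at hS
    exact hS
  have hFp : ∀ S ∈ F, ∀ p ∈ S, p.Prime := fun S hS p hp => (hPXp p ((hFm S hS).1 hp)).1
  have h1 : ∑ S ∈ F, ∏ p ∈ S, fn p ≤ ∑ S ∈ F, (1 + δ) * (1 / ((∏ p ∈ S, p : ℕ) : ℝ)) := by
    refine Finset.sum_le_sum fun S hS => ?_
    exact GU_prod_fn (z0 x) s δ hz2 hexp S (fun p hp => hPXp p ((hFm S hS).1 hp))
      (hs S (hFm S hS).1 (hFm S hS).2.2)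
  have hinj : ∀ S ∈ F, ∀ S' ∈ F, ∏ p ∈ S, p = ∏ p ∈ S', p → S = S' := by
    intro S hS S' hS' h
    rw [← Nat.primeFactors_prod (hFp S hS), ← Nat.primeFactors_prod (hFp S' hS'), h]
  have h2 : ∑ S ∈ F, (1 / ((∏ p ∈ S, p : ℕ) : ℝ)) =
      ∑ n ∈ F.image (fun S => ∏ p ∈ S, p), 1 / (n : ℝ) := by
    rw [Finset.sum_image hinj]
  have hsub : F.image (fun S => ∏ p ∈ S, p) ⊆
      (Ioc ⌊Y⌋₊ ⌊Real.exp t⌋₊).filter (fun n => ∀ p ∈ PA x, ¬ p ∣ n) := by
    intro n hn
    rw [Finset.mem_image] at hn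
    obtain ⟨S, hS, rfl⟩ := hn
    have hlg := GU_lg_eq S (hFp S hS)
    have hpos : (0 : ℝ) < ((∏ p ∈ S, p : ℕ) : ℝ) := by
      exact_mod_cast Finset.prod_pos fun p hp => (hFp S hS p hp).pos
    have hm := hFm S hS
    rw [Finset.mem_filter, Finset.mem_Ioc]
    refine ⟨⟨?_, ?_⟩, ?_⟩
    · have h3 : Real.log Y < Real.log ((∏ p ∈ S, p : ℕ) : ℝ) := by
        rw [hlg]
        exact hm.2.1
      have h4 : Y < ((∏ p ∈ S, p : ℕ) : ℝ) :=
        (Real.log_lt_log_iff (by linarith) hpos).1 h3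
      exact (Nat.floor_lt (by linarith)).2 h4
    · apply Nat.le_floor
      have h3 : Real.log ((∏ p ∈ S, p : ℕ) : ℝ) ≤ t := by
        rw [hlg]
        exact hm.2.2
      exact (Real.log_le_iff_le_exp hpos).1 h3
    · intro p hp hdvd
      have hp' := (Finset.mem_filter.1 hp).2
      rw [Prime.dvd_finsetProd_iff hp'.1.prime] at hdvd
      obtain ⟨q, hq, hpq⟩ := hdvd
      have hqp := hFp S hS q hq
      have : p = q := (Nat.prime_dvd_prime_iff_eq hp'.1 hqp).1 hpq
      have h5 := (hPXp q (hm.1 hq)).2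
      rw [← this] at h5
      linarith [hp'.2]
  have h3 : ∑ n ∈ F.image (fun S => ∏ p ∈ S, p), 1 / (n : ℝ) ≤
      ∑ n ∈ (Ioc ⌊Y⌋₊ ⌊Real.exp t⌋₊).filter (fun n => ∀ p ∈ PA x, ¬ p ∣ n), 1 / (n : ℝ) :=
    Finset.sum_le_sum_of_subset_of_nonneg hsub (fun n _ _ => by positivity)
  have hN1 : 1 ≤ ⌊Real.exp t⌋₊ := by
    apply Nat.le_floor
    rw [Nat.cast_one]
    exact Real.one_le_exp ht
  have h4 := GU_abel (fun n => ∀ p ∈ PA x, ¬ p ∣ n) K hK ⌊Y⌋₊ (by
    intro n hn
    have h5 : Y ≤ (n : ℝ) := by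
      have h6 := Nat.lt_floor_add_one Y
      have h7 : ((⌊Y⌋₊ + 1 : ℕ) : ℝ) ≤ n := by exact_mod_cast hn
      push_cast at h7
      linarith
    have h8 := hcount n h5
    rwa [Nat.floor_natCast] at h8) ⌊Real.exp t⌋₊ hN1
  have h5 : Real.log (⌊Real.exp t⌋₊ : ℝ) ≤ t := by
    have h6 : ((⌊Real.exp t⌋₊ : ℕ) : ℝ) ≤ Real.exp t := Nat.floor_le (Real.exp_pos t).le
    have h7 : (0 : ℝ) < (⌊Real.exp t⌋₊ : ℝ) := by exact_mod_cast hN1
    exact (Real.log_le_iff_le_exp h7).2 h6
  rw [← Finset.mul_sum, h2] at h1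
  refine h1.trans (mul_le_mul_of_nonneg_left ?_ (by linarith))
  refine h3.trans (h4.trans (mul_le_mul_of_nonneg_left (by linarith) hK))

private lemma GU_card (x : ℕ) (l L : ℝ) (hl : 0 < l) (hL : 0 < L) (hz : z0 x = Real.exp (L / l ^ 2))
    (S : Finset ℕ) (hS : S ⊆ PX x) (h : lg S ≤ L) : (S.card : ℝ) ≤ l ^ 2 := by
  have h1 : (S.card : ℝ) * (L / l ^ 2) ≤ lg S := by
    unfold lg
    rw [← nsmul_eq_mul]
    refine Finset.card_nsmul_le_sum S _ _ fun p hp => ?_
    have h2 := (Finset.mem_filter.1 (hS hp)).2.2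
    rw [hz] at h2
    have h3 : (0 : ℝ) < p := (Real.exp_pos _).trans h2
    exact ((Real.lt_log_iff_exp_lt h3).2 h2).le
  have h2 : (S.card : ℝ) * (L / l ^ 2) ≤ L := h1.trans h
  have h3 : (S.card : ℝ) * (L / l ^ 2) = (S.card : ℝ) / l ^ 2 * L := by ring
  rw [h3] at h2
  have h4 : (S.card : ℝ) / l ^ 2 ≤ 1 := by
    by_contra hc
    rw [not_le] at hc
    have := mul_lt_mul_of_pos_right hc hL
    linarith
  rwa [div_le_one (by positivity)] at h4

theorem GG_up (c ε : ℝ) (hc : 0 < c) (hε : 0 < ε) : ∀ᶠ x : ℕ in atTop, ∀ t : ℝ,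
    c * Real.log x ≤ t → t ≤ Real.log x → GG (PX x) t ≤ (1 + ε) * A0 x * t := by
  classical
  obtain ⟨C, hC⟩ := sum_fn_le
  obtain ⟨δ, hδ0, hδ1, hδε⟩ : ∃ δ : ℝ, 0 < δ ∧ δ ≤ 1 ∧ 8 * δ ≤ ε := by
    refine ⟨min 1 (ε / 8), lt_min one_pos (by linarith), min_le_left _ _, ?_⟩
    have := min_le_right (1 : ℝ) (ε / 8)
    linarith
  have hl : Tendsto (fun x : ℕ => Real.log (Real.log (x : ℝ))) atTop atTop :=
    Real.tendsto_log_atTop.comp (Real.tendsto_log_atTop.comp tendsto_natCast_atTop_atTop)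
  have hL : Tendsto (fun x : ℕ => Real.log (x : ℝ)) atTop atTop :=
    Real.tendsto_log_atTop.comp tendsto_natCast_atTop_atTop
  have T1 := Real.tendsto_exp_div_pow_atTop 1
  have T2 := Real.tendsto_exp_div_pow_atTop 2
  have T3 := Real.tendsto_exp_div_pow_atTop 3
  -- the lower limit tends to infinity
  have hY : Tendsto (fun x : ℕ => ⌊Real.exp (20 * Real.log x / Real.log (Real.log x))⌋₊)
      atTop atTop := by
    have h1 : Tendsto (fun x : ℕ => Real.exp (20 * (Real.exp (Real.log (Real.log (x : ℝ))) /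
        Real.log (Real.log (x : ℝ)) ^ 1))) atTop atTop :=
      Real.tendsto_exp_atTop.comp ((T1.comp hl).const_mul_atTop (by norm_num))
    refine tendsto_nat_floor_atTop.comp (h1.congr' ?_)
    filter_upwards [hL.eventually_ge_atTop 1] with x hx
    rw [Real.exp_log (by linarith), pow_one, mul_div_assoc]
  filter_upwards [hL.eventually_ge_atTop 1, hl.eventually_ge_atTop 1,
    hl.eventually_ge_atTop (20 * Real.exp C / (c * δ)),
    (T3.comp hl).eventually_ge_atTop 1,
    (T2.comp hl).eventually_ge_atTop (2 / Real.log (1 + δ)),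
    hl.eventually_ge_atTop (2 / (c * δ)),
    rough_count δ hδ0, hY.eventually hC] with x hx1 hx2 hx3 hx4 hx5 hx6 hx7 hx8
  intro t ht1 ht2
  simp only [Function.comp_apply] at hx4 hx5
  have hL0 : 0 < Real.log (x : ℝ) := by linarith
  rw [Real.exp_log hL0] at hx4 hx5
  set L := Real.log (x : ℝ) with hLdef
  set l := Real.log L with hldef
  have hl0 : 0 < l := by linarith
  have hz : z0 x = Real.exp (L / l ^ 2) := rfl
  have hLl : l ≤ L := by
    have := Real.log_le_sub_one_of_pos hL0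
    linarith
  have hzL : L ≤ z0 x := by
    have h1 : l ≤ L / l ^ 2 := by
      have h2 : L / l ^ 3 * l = L / l ^ 2 := by
        field_simp
      rw [← h2]
      calc l = 1 * l := (one_mul l).symm
        _ ≤ L / l ^ 3 * l := mul_le_mul_of_nonneg_right hx4 hl0.le
    rw [hz]
    calc L = Real.exp l := (Real.exp_log hL0).symm
      _ ≤ _ := Real.exp_le_exp.2 h1
  have hL2 : 2 ≤ L := by
    have h1 : L = Real.exp l := (Real.exp_log hL0).symm
    rw [h1]
    have := Real.add_one_le_exp l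
    linarith
  have hz2 : 2 ≤ z0 x := hL2.trans hzL
  set Y := Real.exp (20 * L / l) with hYdef
  have hYlog : Real.log Y = 20 * L / l := Real.log_exp _
  have hzY : z0 x ≤ Y := by
    rw [hz, hYdef]
    apply Real.exp_le_exp.2
    rw [div_le_div_iff₀ (by positivity) hl0]
    have : l ≤ 20 * l ^ 2 := by nlinarith
    nlinarith
  have hY1 : 1 ≤ Y := by
    linarith
  have hA := GU_A0_pos x
  have ht0 : 0 < t := lt_of_lt_of_le (by positivity) ht1
  -- splitting
  have hsplit : GG (PX x) t ≤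
      ∑ S ∈ (PX x).powerset.filter (fun S => lg S ≤ Real.log Y), ∏ p ∈ S, fn p +
      ∑ S ∈ (PX x).powerset.filter (fun S => Real.log Y < lg S ∧ lg S ≤ t), ∏ p ∈ S, fn p := by
    unfold GG
    rw [Finset.sum_filter, Finset.sum_filter, ← Finset.sum_add_distrib]
    refine Finset.sum_le_sum fun S hS => ?_
    have hnn : 0 ≤ ∏ p ∈ S, fn p := Finset.prod_nonneg fun p hp =>
      (GU_fn_pos (Finset.mem_filter.1 (Finset.mem_powerset.1 hS hp)).2.1).le
    by_cases h1 : lg S ≤ t
    · by_cases h2 : lg S ≤ Real.log Y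
      · rw [if_pos h1, if_pos h2]
        split_ifs <;> linarith
      · rw [if_pos h1, if_neg h2, if_pos ⟨not_le.1 h2, h1⟩]
        linarith
    · rw [if_neg h1]
      split_ifs <;> linarith
  have hfirst := GU_first x Y (Real.log (Real.log (⌊Y⌋₊ : ℝ)) + C) hzY hY1 hx8
  have hsecond := GU_second x Y t δ ((1 + δ) * A0 x) (l ^ 2) hY1 hz2 (by positivity) hδ0.le
    ht0.le hx7 (by
      have h1 : 2 * l ^ 2 / z0 x ≤ Real.log (1 + δ) := by
        have hlog : 0 < Real.log (1 + δ) := Real.log_pos (by linarith)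
        have h2 : 2 / Real.log (1 + δ) * l ^ 2 ≤ L := by
          rwa [le_div_iff₀ (by positivity)] at hx5
        have h3 : 2 * l ^ 2 ≤ Real.log (1 + δ) * L := by
          have h4 : 2 / Real.log (1 + δ) * l ^ 2 = 2 * l ^ 2 / Real.log (1 + δ) := by ring
          rw [h4, div_le_iff₀ hlog] at h2
          linarith
        rw [div_le_iff₀ (by linarith)]
        exact h3.trans (mul_le_mul_of_nonneg_left hzL hlog.le)
      calc Real.exp (2 * l ^ 2 / z0 x) ≤ Real.exp (Real.log (1 + δ)) := Real.exp_le_exp.2 h1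
        _ = 1 + δ := Real.exp_log (by linarith))
    (fun S hS hSt => GU_card x l L hl0 hL0 hz S hS (hSt.trans ht2))
  have h1 : A0 x * Real.exp (Real.log (Real.log (⌊Y⌋₊ : ℝ)) + C) ≤ δ * A0 x * t := by
    have h2 : Real.exp (Real.log (Real.log (⌊Y⌋₊ : ℝ)) + C) ≤ 20 * L / l * Real.exp C := by
      rw [Real.exp_add]
      refine mul_le_mul_of_nonneg_right ?_ (Real.exp_pos C).le
      have h3 : Real.log (⌊Y⌋₊ : ℝ) ≤ 20 * L / l := by
        rw [← hYlog]
        rcases Nat.eq_zero_or_pos ⌊Y⌋₊ with h0 | h0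
        · rw [h0, Nat.cast_zero, Real.log_zero]
          exact Real.log_nonneg hY1
        · exact Real.log_le_log (by exact_mod_cast h0) (Nat.floor_le (by linarith))
      have h4 : 0 < Real.log (⌊Y⌋₊ : ℝ) := by
        apply Real.log_pos
        have h5 : 2 ≤ ⌊Y⌋₊ := Nat.le_floor (by push_cast; linarith)
        have h6 : (2 : ℝ) ≤ (⌊Y⌋₊ : ℝ) := by exact_mod_cast h5
        linarith
      rw [Real.exp_log h4]
      exact h3
    have h5 : 20 * L / l * Real.exp C ≤ δ * t := by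
      have h6 : 20 * Real.exp C ≤ c * δ * l := by
        have h7 := hx3
        rw [div_le_iff₀ (by positivity)] at h7
        linarith
      have h8 : 20 * L / l * Real.exp C = (20 * Real.exp C) * (L / l) := by ring
      rw [h8]
      calc (20 * Real.exp C) * (L / l) ≤ (c * δ * l) * (L / l) :=
            mul_le_mul_of_nonneg_right h6 (by positivity)
        _ = δ * (c * L) := by field_simp
        _ ≤ δ * t := mul_le_mul_of_nonneg_left ht1 hδ0.le
    calc A0 x * Real.exp (Real.log (Real.log (⌊Y⌋₊ : ℝ)) + C) ≤ A0 x * (δ * t) :=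
          mul_le_mul_of_nonneg_left (h2.trans h5) hA.le
      _ = δ * A0 x * t := by ring
  have h2 : 2 + t ≤ (1 + δ) * t := by
    have h3 : 2 ≤ c * δ * l := by
      have h7 := hx6
      rw [div_le_iff₀ (by positivity)] at h7
      linarith
    have h4 : c * δ * l ≤ δ * t := by
      calc c * δ * l ≤ c * δ * L := mul_le_mul_of_nonneg_left hLl (by positivity)
        _ = δ * (c * L) := by ring
        _ ≤ δ * t := mul_le_mul_of_nonneg_left ht1 hδ0.le
    linarith
  have h3 : (1 + δ) * ((1 + δ) * A0 x * (2 + t)) ≤ (1 + 7 * δ) * A0 x * t := by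
    have h4 : (1 + δ) * (1 + δ) * (1 + δ) ≤ 1 + 7 * δ := by
      have d2 : δ * δ ≤ δ := by nlinarith
      have d3 : δ * δ * δ ≤ δ := by nlinarith
      have d4 : (1 + δ) * (1 + δ) * (1 + δ) = 1 + 3 * δ + 3 * (δ * δ) + δ * δ * δ := by ring
      rw [d4]
      linarith
    calc (1 + δ) * ((1 + δ) * A0 x * (2 + t)) ≤ (1 + δ) * ((1 + δ) * A0 x * ((1 + δ) * t)) := by
          gcongr
      _ = ((1 + δ) * (1 + δ) * (1 + δ)) * (A0 x * t) := by ring
      _ ≤ (1 + 7 * δ) * (A0 x * t) := mul_le_mul_of_nonneg_right h4 (by positivity)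
      _ = (1 + 7 * δ) * A0 x * t := by ring
  have h4 : (1 + 8 * δ) * (A0 x * t) ≤ (1 + ε) * (A0 x * t) :=
    mul_le_mul_of_nonneg_right (by linarith) (by positivity)
  calc GG (PX x) t ≤ _ := hsplit
    _ ≤ δ * A0 x * t + (1 + 7 * δ) * A0 x * t :=
      add_le_add (hfirst.trans h1) (hsecond.trans h3)
    _ = (1 + 8 * δ) * (A0 x * t) := by ring
    _ ≤ (1 + ε) * (A0 x * t) := h4
    _ = (1 + ε) * A0 x * t := by ring

end Pool.Agent.H36.IS

end
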