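import Pool.Agent.H47.B1.M21
import Pool.Agent.H47.B1.M29
import Pool.Agent.H47.B1.M30

/-! The parts of this file: H91.PK.SvC, H91.PK.SvB, H36.IS.SumG, H36.IS.MCa, H36.IS.Pnt, H36.IS2.WtZ, H36.IS2.VR2, H36.IS2.StU2, H36.IS2.StL2. -/

section

/-!
PK SvC: Mertens for large primes.

From `Pool.Agent.H91.Gold.mertens_wz` (naturals 65536 ≤ w ≤ z: ∑_{w<p≤z} 1/p ≤ log(log z/log w) + 0.2295/log w).

* `mass_big`: for reals e^24 ≤ a ≤ z, every finite set P of primes in (a, z]: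
   ∑_{p∈P} 1/(p-1) ≤ log(log z/log a) + 0.2296/log a.
   (take w = ⌊a⌋, Z = ⌊z⌋; log w ≥ log a - 2e-10, log Z ≤ log z; ∑ (1/(p-1) - 1/p) ≤ ∑_{n > a} 1/(n(n-1)) ≤ 2/a ≤ 1e-10.
   The tiny errors fit: log(log a/log w) ≤ 1e-11·..., 0.0001/log a dominates all of them only if log a is not huge: note that
   all error terms are ≤ 10/a while 0.0001/log a ≥ 10/a for a ≥ e^24.)
* `V_ratio`: for 1 < a ≤ z and P with `BigP z P`:  Vg g1 {p ∈ P, p ≤ a} ≤ 1.01 · (log z/log a) · Vg g1 P.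
   (with a' = max a e^24: if z ≤ e^24, P is empty. The primes of P in (a', z]: ∏ (1-g)^{-1} ≤ exp(∑ g + ∑ g²) ≤
    (log z/log a') exp(0.2296/24 + 1e-9) ≤ 1.01 log z/log a.)
-/

set_option autoImplicit false

namespace Pool.Agent.H91.PK

open Finset

theorem SvC_exp24 : (10 : ℝ) ^ 10 ≤ Real.exp 24 := by
  have h1 := Real.exp_one_gt_d9
  have h2 : Real.exp 24 = Real.exp 1 ^ 24 := by
    rw [← Real.exp_nat_mul]
    norm_num
  rw [h2]
  calc (10 : ℝ) ^ 10 ≤ (2.7 : ℝ) ^ 24 := by norm_num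
    _ ≤ Real.exp 1 ^ 24 := pow_le_pow_left₀ (by norm_num) (by linarith) 24

/-- `log a / a` is small -/
theorem SvC_log_div {a : ℝ} (ha : Real.exp 24 ≤ a) : Real.log a ≤ 0.00001 * a / 5 := by
  have h0 : 0 < a := (Real.exp_pos _).trans_le ha
  have h1 : Real.log a / a ≤ Real.log (Real.exp 24) / Real.exp 24 := by
    refine Real.log_div_self_antitoneOn ?_ ?_ ha
    · exact Real.exp_le_exp.mpr (by norm_num)
    · exact (Real.exp_le_exp.mpr (by norm_num : (1 : ℝ) ≤ 24)).trans ha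
  rw [Real.log_exp] at h1
  have h2 : (24 : ℝ) / Real.exp 24 ≤ 24 / 10 ^ 10 :=
    div_le_div_of_nonneg_left (by norm_num) (by norm_num) SvC_exp24
  have h3 : Real.log a / a ≤ 24 / 10 ^ 10 := h1.trans h2
  rw [div_le_iff₀ h0] at h3
  nlinarith

theorem SvC_tail (w Z : ℕ) (hw : 3 ≤ w) (hwZ : w ≤ Z) :
    ∑ n ∈ Ioc w Z, 1 / (((n : ℝ) - 1) * ((n : ℝ) - 2)) = 1 / ((w : ℝ) - 1) - 1 / ((Z : ℝ) - 1) := by
  induction Z, hwZ using Nat.le_induction with
  | base => simp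
  | succ m hm ih =>
    have hm3 : (3 : ℝ) ≤ m := by exact_mod_cast hw.trans hm
    rw [← Finset.insert_Ioc_right_eq_Ioc_add_one (by omega), Finset.sum_insert (by simp), ih]
    push_cast
    have hw3 : (3 : ℝ) ≤ w := by exact_mod_cast hw
    have h1 : (m : ℝ) - 1 ≠ 0 := by linarith
    have h2 : (m : ℝ) ≠ 0 := by linarith
    have h3 : (w : ℝ) - 1 ≠ 0 := by linarith
    rw [show (m : ℝ) + 1 - 1 = m by ring, show (m : ℝ) + 1 - 2 = m - 1 by ring]
    field_simp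
    ring

theorem SvC_tail_le {w : ℕ} (hw : 3 ≤ w) (P : Finset ℕ) (hP : ∀ p ∈ P, w < p) :
    ∑ n ∈ P, 1 / (((n : ℝ) - 1) * ((n : ℝ) - 2)) ≤ 1 / ((w : ℝ) - 1) := by
  set Z := max w (P.sup id) with hZ
  have hsub : P ⊆ Ioc w Z := by
    intro p hp
    rw [Finset.mem_Ioc]
    exact ⟨hP p hp, (Finset.le_sup (f := id) hp).trans (le_max_right _ _)⟩
  have hw' : (3 : ℝ) ≤ w := by exact_mod_cast hw
  have hwZ : w ≤ Z := le_max_left _ _
  have hZ' : (3 : ℝ) ≤ Z := by exact_mod_cast hw.trans hwZ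
  have h1 : ∑ n ∈ P, 1 / (((n : ℝ) - 1) * ((n : ℝ) - 2))
      ≤ ∑ n ∈ Ioc w Z, 1 / (((n : ℝ) - 1) * ((n : ℝ) - 2)) := by
    refine Finset.sum_le_sum_of_subset_of_nonneg hsub fun n hn _ => ?_
    rw [Finset.mem_Ioc] at hn
    have : (3 : ℝ) < n := by
      have : (w : ℝ) < n := by exact_mod_cast hn.1
      linarith
    have h3 : 0 < (n : ℝ) - 1 := by linarith
    have h4 : 0 < (n : ℝ) - 2 := by linarith
    positivity
  refine h1.trans ?_
  rw [SvC_tail w Z hw hwZ]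
  have : 0 ≤ 1 / ((Z : ℝ) - 1) := by
    apply div_nonneg (by norm_num)
    linarith
  linarith

/-- data for `a ≥ e^24`: `w = ⌊a⌋` -/
theorem SvC_floor {a : ℝ} (ha : Real.exp 24 ≤ a) :
    65536 ≤ ⌊a⌋₊ ∧ 1 / ((⌊a⌋₊ : ℝ) - 1) ≤ 2 / a ∧ Real.log a - 2 / a ≤ Real.log (⌊a⌋₊ : ℝ) ∧
      Real.log (⌊a⌋₊ : ℝ) ≤ Real.log a := by
  have h10 : (10 : ℝ) ^ 10 ≤ a := SvC_exp24.trans ha
  have h0 : 0 < a := (Real.exp_pos _).trans_le ha
  have h1 : a < (⌊a⌋₊ : ℝ) + 1 := Nat.lt_floor_add_one a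
  have h2 : (⌊a⌋₊ : ℝ) ≤ a := Nat.floor_le h0.le
  have hw : 65536 ≤ ⌊a⌋₊ := by
    apply Nat.le_floor
    push_cast
    linarith
  have hw0 : (65536 : ℝ) ≤ (⌊a⌋₊ : ℝ) := by exact_mod_cast hw
  refine ⟨hw, ?_, ?_, Real.log_le_log (by linarith) h2⟩
  · rw [div_le_div_iff₀ (by linarith) h0]
    nlinarith
  · have h3 : Real.log (a - 1) ≤ Real.log (⌊a⌋₊ : ℝ) := Real.log_le_log (by linarith) (by linarith)
    have h4 : a - 1 = a * ((a - 1) / a) := by field_simp
    have h5 : 0 < (a - 1) / a := div_pos (by linarith) h0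
    rw [h4, Real.log_mul h0.ne' h5.ne'] at h3
    have h6 := Real.one_sub_inv_le_log_of_pos h5
    have h7 : 1 - ((a - 1) / a)⁻¹ = -(1 / (a - 1)) := by
      rw [inv_div]
      have : a - 1 ≠ 0 := by linarith
      field_simp
      ring
    have h8 : 1 / (a - 1) ≤ 2 / a := by
      rw [div_le_div_iff₀ (by linarith) h0]
      nlinarith
    linarith

theorem SvC_mass {a z : ℝ} (ha : Real.exp 24 ≤ a) (haz : a ≤ z) (P : Finset ℕ)
    (hP : ∀ p ∈ P, p.Prime ∧ a < p ∧ (p : ℝ) ≤ z) :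
    ∑ p ∈ P, g1 p + 4 * ∑ p ∈ P, 1 / (((p : ℝ) - 1) * ((p : ℝ) - 2))
      ≤ Real.log (Real.log z / Real.log a) + 0.2296 / Real.log a := by
  obtain ⟨hw, hw1, hw2, hw3⟩ := SvC_floor ha
  set w := ⌊a⌋₊ with hwdef
  set Z := ⌊z⌋₊ with hZdef
  have h0 : 0 < a := (Real.exp_pos _).trans_le ha
  have h10 : (10 : ℝ) ^ 10 ≤ a := SvC_exp24.trans ha
  have hwZ : w ≤ Z := Nat.floor_le_floor haz
  have hwR : (65536 : ℝ) ≤ w := by exact_mod_cast hw
  have hZR : (w : ℝ) ≤ Z := by exact_mod_cast hwZ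
  have hla : 24 ≤ Real.log a := by
    rw [Real.le_log_iff_exp_le h0]
    exact ha
  have h2a : 2 / a ≤ 1 := by
    rw [div_le_one h0]
    linarith
  have hlw : 23 ≤ Real.log w := by linarith
  have hlz : Real.log a ≤ Real.log z := Real.log_le_log h0 haz
  have hlZ : Real.log Z ≤ Real.log z := Real.log_le_log (by linarith) (Nat.floor_le (by linarith))
  have hlwZ : Real.log w ≤ Real.log Z := Real.log_le_log (by linarith) hZR
  -- primes
  have hsub : P ⊆ Pool.Agent.H91.Gold.Pr w Z := by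
    intro p hp
    obtain ⟨h1, h2, h3⟩ := hP p hp
    unfold Pool.Agent.H91.Gold.Pr
    rw [Finset.mem_filter, Finset.mem_Ioc]
    refine ⟨⟨?_, ?_⟩, h1⟩
    · rw [hwdef]
      exact (Nat.floor_lt h0.le).mpr h2
    · exact Nat.le_floor h3
  have hinv : ∑ p ∈ P, (1 : ℝ) / p ≤ Real.log (Real.log Z / Real.log w) + 0.2295 / Real.log w := by
    refine (Finset.sum_le_sum_of_subset_of_nonneg hsub fun p _ _ => by positivity).trans ?_
    exact Pool.Agent.H91.Gold.mertens_wz hw hwZ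
  have htail : ∑ p ∈ P, 1 / (((p : ℝ) - 1) * ((p : ℝ) - 2)) ≤ 2 / a := by
    refine (SvC_tail_le (w := w) (by omega) P ?_).trans hw1
    intro p hp
    exact (Nat.floor_lt h0.le).mpr (hP p hp).2.1
  have hg : ∑ p ∈ P, g1 p ≤ ∑ p ∈ P, (1 : ℝ) / p + ∑ p ∈ P, 1 / (((p : ℝ) - 1) * ((p : ℝ) - 2)) := by
    rw [← Finset.sum_add_distrib]
    refine Finset.sum_le_sum fun p hp => ?_
    have hp1 : (10 : ℝ) ^ 10 < p := lt_of_le_of_lt h10 (hP p hp).2.1
    unfold g1
    have h1 : (0 : ℝ) < p := by linarith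
    have h2 : 0 < (p : ℝ) - 1 := by linarith
    have h3 : 0 < (p : ℝ) - 2 := by linarith
    have h4 : 1 / ((p : ℝ) - 1) - 1 / p = 1 / (p * ((p : ℝ) - 1)) := by
      field_simp
      ring
    have h5 : 1 / (p * ((p : ℝ) - 1)) ≤ 1 / (((p : ℝ) - 1) * ((p : ℝ) - 2)) := by
      apply div_le_div_of_nonneg_left (by norm_num) (by positivity)
      nlinarith
    linarith
  -- the logs
  have hl1 : Real.log (Real.log Z / Real.log w) ≤ Real.log (Real.log z / Real.log a) + (2 / a) := by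
    have e1 : Real.log (Real.log Z / Real.log w) ≤ Real.log (Real.log z / Real.log w) := by
      apply Real.log_le_log (div_pos (by linarith) (by linarith))
      exact div_le_div_of_nonneg_right hlZ (by linarith)
    have e2 : Real.log z / Real.log w = (Real.log z / Real.log a) * (Real.log a / Real.log w) := by
      have : Real.log a ≠ 0 := by linarith
      have : Real.log w ≠ 0 := by linarith
      field_simp
    rw [e2, Real.log_mul (div_pos (by linarith) (by linarith)).ne' (div_pos (by linarith) (by linarith)).ne'] at e1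
    have e3 : Real.log (Real.log a / Real.log w) ≤ Real.log a / Real.log w - 1 :=
      Real.log_le_sub_one_of_pos (div_pos (by linarith) (by linarith))
    have e4 : Real.log a / Real.log w - 1 ≤ 2 / a := by
      rw [sub_le_iff_le_add, div_le_iff₀ (by linarith)]
      nlinarith [div_pos two_pos h0]
    linarith
  have hl2 : 0.2295 / Real.log w ≤ 0.2295 / Real.log a + 2 / a := by
    rw [div_le_iff₀ (by linarith), add_mul]
    have e1 : 0.2295 / Real.log a * Real.log w ≥ 0.2295 - 0.2295 / Real.log a * (2 / a) := by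
      have : 0.2295 / Real.log a * Real.log w ≥ 0.2295 / Real.log a * (Real.log a - 2 / a) := by
        apply mul_le_mul_of_nonneg_left hw2
        apply div_nonneg (by norm_num) (by linarith)
      have e2 : 0.2295 / Real.log a * (Real.log a - 2 / a) = 0.2295 - 0.2295 / Real.log a * (2 / a) := by
        have : Real.log a ≠ 0 := by linarith
        field_simp
      linarith
    have e3 : 0.2295 / Real.log a ≤ 1 := by
      rw [div_le_one (by linarith)]
      linarith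
    have e4 : 0 ≤ 2 / a := by positivity
    nlinarith
  have hfin : 14 * (1 / a) ≤ 0.0001 / Real.log a := by
    have := SvC_log_div ha
    rw [le_div_iff₀ (by linarith)]
    rw [mul_comm, ← mul_assoc, mul_one_div, div_le_iff₀ h0]
    linarith
  have e5 : (2 : ℝ) / a = 2 * (1 / a) := by ring
  have e6 : (0.2296 : ℝ) / Real.log a = 0.2295 / Real.log a + 0.0001 / Real.log a := by ring
  rw [e6]
  rw [e5] at htail hl1 hl2
  linarith

theorem SvC_nonneg {a : ℝ} (ha : Real.exp 24 ≤ a) (P : Finset ℕ) (hP : ∀ p ∈ P, a < (p : ℝ)) :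
    0 ≤ ∑ p ∈ P, 1 / (((p : ℝ) - 1) * ((p : ℝ) - 2)) := by
  refine Finset.sum_nonneg fun p hp => ?_
  have hp1 : (10 : ℝ) ^ 10 < p := lt_of_le_of_lt (SvC_exp24.trans ha) (hP p hp)
  have h2 : 0 < (p : ℝ) - 1 := by linarith
  have h3 : 0 < (p : ℝ) - 2 := by linarith
  positivity

theorem mass_big {a z : ℝ} (ha : Real.exp 24 ≤ a) (haz : a ≤ z) (P : Finset ℕ)
    (hP : ∀ p ∈ P, p.Prime ∧ a < p ∧ (p : ℝ) ≤ z) :
    ∑ p ∈ P, g1 p ≤ Real.log (Real.log z / Real.log a) + 0.2296 / Real.log a := by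
  have h1 := SvC_mass ha haz P hP
  have h2 := SvC_nonneg ha P (fun p hp => (hP p hp).2.1)
  linarith

theorem SvC_g1_lt {p : ℕ} (hp : Real.exp 24 < p) : 0 < g1 p ∧ g1 p ≤ 1 / 4 := by
  have h1 : (10 : ℝ) ^ 10 < p := lt_of_le_of_lt SvC_exp24 hp
  unfold g1
  have h2 : 0 < (p : ℝ) - 1 := by linarith
  refine ⟨by positivity, ?_⟩
  rw [div_le_div_iff₀ h2 (by norm_num)]
  linarith

theorem V_pos {z : ℝ} {P : Finset ℕ} (hP : BigP z P) : 0 < Vg g1 P := by
  unfold Vg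
  refine Finset.prod_pos fun p hp => ?_
  have := SvC_g1_lt (hP p hp).2.1
  linarith

theorem SvC_one_sub {x : ℝ} (hx : 0 ≤ x) (hx2 : x ≤ 1 / 2) : Real.exp (-(x + 2 * x ^ 2)) ≤ 1 - x := by
  have h1 : 0 < 1 - x := by linarith
  rw [← Real.le_log_iff_exp_le h1]
  have h2 := Real.one_sub_inv_le_log_of_pos h1
  have h3 : -(x + 2 * x ^ 2) ≤ 1 - (1 - x)⁻¹ := by
    rw [le_sub_iff_add_le, ← le_sub_iff_add_le', inv_le_iff_one_le_mul₀ h1]
    nlinarith [mul_nonneg hx hx, mul_nonneg (mul_nonneg hx hx) (by linarith : 0 ≤ 1 / 2 - x)]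
  linarith

theorem SvC_prod (g : ℕ → ℝ) (P : Finset ℕ) (hg : ∀ p ∈ P, 0 ≤ g p ∧ g p ≤ 1 / 2) :
    Real.exp (-(∑ p ∈ P, g p + 2 * ∑ p ∈ P, g p ^ 2)) ≤ Vg g P := by
  unfold Vg
  rw [Finset.mul_sum, ← Finset.sum_add_distrib, ← Finset.sum_neg_distrib, Real.exp_sum]
  exact Finset.prod_le_prod (fun _ _ => (Real.exp_pos _).le)
    fun p hp => SvC_one_sub (hg p hp).1 (hg p hp).2

/-- lower bound for `Vg g1` -/
theorem V1_lower {a z : ℝ} (ha : Real.exp 24 ≤ a) (haz : a ≤ z) (P : Finset ℕ)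
    (hP : ∀ p ∈ P, p.Prime ∧ a < p ∧ (p : ℝ) ≤ z) :
    Real.log a / Real.log z ≤ 1.01 * Vg g1 P := by
  have h0 : 0 < a := (Real.exp_pos _).trans_le ha
  have hla : 24 ≤ Real.log a := by
    rw [Real.le_log_iff_exp_le h0]
    exact ha
  have hlz : Real.log a ≤ Real.log z := Real.log_le_log h0 haz
  have hm := SvC_mass ha haz P hP
  have hsq : ∑ p ∈ P, g1 p ^ 2 ≤ ∑ p ∈ P, 1 / (((p : ℝ) - 1) * ((p : ℝ) - 2)) := by
    refine Finset.sum_le_sum fun p hp => ?_
    have hp1 : (10 : ℝ) ^ 10 < p := lt_of_le_of_lt (SvC_exp24.trans ha) (hP p hp).2.1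
    have h2 : 0 < (p : ℝ) - 1 := by linarith
    have h3 : 0 < (p : ℝ) - 2 := by linarith
    unfold g1
    rw [div_pow, one_pow, pow_two]
    apply div_le_div_of_nonneg_left (by norm_num) (by positivity)
    nlinarith
  have hn := SvC_nonneg ha P (fun p hp => (hP p hp).2.1)
  have hV := SvC_prod g1 P (fun p hp => by
    have := SvC_g1_lt (lt_of_le_of_lt ha (hP p hp).2.1)
    exact ⟨this.1.le, by linarith⟩)
  have h1 : Real.exp (-(Real.log (Real.log z / Real.log a) + 0.2296 / 24)) ≤ Vg g1 P := by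
    refine le_trans (Real.exp_le_exp.mpr ?_) hV
    have : (0.2296 : ℝ) / Real.log a ≤ 0.2296 / 24 :=
      div_le_div_of_nonneg_left (by norm_num) (by norm_num) hla
    linarith
  rw [neg_add, Real.exp_add, Real.exp_neg, Real.exp_log (div_pos (by linarith) (by linarith)), inv_div] at h1
  have h2 : (1 : ℝ) - 0.2296 / 24 ≤ Real.exp (-(0.2296 / 24)) := by
    have := Real.add_one_le_exp (-(0.2296 / 24) : ℝ)
    linarith
  have h3 : 0 < Real.log a / Real.log z := div_pos (by linarith) (by linarith)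
  nlinarith

end Pool.Agent.H91.PK

end

section

/-!
PK SvB: the Brun-Hooley base sieve for large primes.

For every real z ≥ 1 and every finite set P of primes in (e^24, z]:  U1 14 1.00015 and L1 14 0.99985.

Proof.  Blocks B_j = P ∩ (z^(2^-(j+1)), z^(2^-j)], j = 0,1,...; only finitely many are nonempty (as primes are > e^24);
b_j = 6 for j = 0,1,2 and b_j = 2j+2 for j ≥ 3.  By induction (from the bottom block up, or by strong induction on z,
proving for every n the statement  CHn(n, z): Ch g1 P (z^{σ_n}) (z^{σ_n+1}) (F_n) (G_n)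
 where in CHn(n, ·) the top block is treated with b_n, σ_n = ∑_{j≥n} b_j 2^{-(j-n)}:  σ_0 = 13 exactly
 (6+3+3/2 + ∑_{j≥3} (2j+2)2^{-j} = 10.5 + 2.5), σ_3 = 8·2.5 = 20, σ_n = b_n + σ_{n+1}/2; for n ≥ 3: σ_n = 4n+8.)
 Induct on m := number such that z ≤ exp(24·2^m): if z ≤ e^24, P = ∅ and `Ch_empty` + mono suffices.
 Step: P' = {p ∈ P, p ≤ z^{1/2}}, B = {p ∈ P, p > z^{1/2}}, apply `Ch.step` with the level of P' at index n+1:
  D = (z^{1/2})^{σ_{n+1}}, D' = (z^{1/2})^{σ_{n+1}+1}; D z^{b_n} = z^{σ_n}, D' z^{b_n} ≤ z^{σ_n+1}, D z^{b_n+1} = z^{σ_n+1}.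
 ε: es_{b+1} ≤ μ^{b+1}/(b+1)! with μ = ∑_{p∈B} g1 p ≤ log 2 + 0.2296/24 (+ if z^{1/2} < e^24 use a = e^24, ratio ≤ 2)
  ≤ 0.7028  (`mass_big`), and Vg g1 B ≥ exp(-μ - 1e-9) ≥ 0.4951 .
  b = 6: 0.7028^7/5040/0.4951 ≤ 3.4e-5;  b = 2n+2 (n ≥ 3): ε_n ≤ 0.7028^{2n+3}/(2n+3)!/0.4951, sum over n ≥ 3 ≤ 1e-6.
 So F ≤ (1+3.4e-5)^3 (1+1e-6) ≤ 1.00015·…, G ≤ 3·3.4e-5 + 1e-6 ≤ 1.1e-4.
-/

set_option autoImplicit false

namespace Pool.Agent.H91.PK

open Finset

theorem SvB_exp24 : (2 : ℝ) < Real.exp 24 := by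
  have := Real.add_one_le_exp (24 : ℝ)
  linarith

theorem SvB_g1 {z : ℝ} {P : Finset ℕ} (hP : BigP z P) : ∀ p ∈ P, 0 ≤ g1 p ∧ g1 p < 1 := by
  intro p hp
  have h1 := (hP p hp).2.1
  have h2 := SvB_exp24
  unfold g1
  constructor
  · apply div_nonneg zero_le_one
    linarith
  · rw [div_lt_one (by linarith)]
    linarith

theorem SvB_B {z : ℝ} (hz : 1 ≤ z) {P : Finset ℕ} (hP : BigP z P) :
    ∑ p ∈ P.filter (fun p : ℕ => Real.sqrt z < (p : ℝ)), g1 p ≤ 0.7028 ∧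
      0.495 ≤ Vg g1 (P.filter (fun p : ℕ => Real.sqrt z < (p : ℝ))) := by
  set B := P.filter (fun p : ℕ => Real.sqrt z < (p : ℝ)) with hB
  rcases le_or_gt z (Real.exp 24) with h | h
  · have hB0 : B = ∅ := by
      rw [Finset.eq_empty_iff_forall_notMem]
      intro p hp
      have h1 := hP p (Finset.mem_filter.1 hp).1
      linarith [h1.2.1, h1.2.2]
    rw [hB0]
    unfold Vg
    simp
    norm_num
  · set a := max (Real.sqrt z) (Real.exp 24) with ha
    have ha24 : Real.exp 24 ≤ a := le_max_right _ _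
    have hsq : Real.sqrt z ≤ z := by
      rw [Real.sqrt_le_left (by linarith)]
      nlinarith
    have haz : a ≤ z := max_le hsq h.le
    have hB' : ∀ p ∈ B, p.Prime ∧ a < p ∧ (p : ℝ) ≤ z := by
      intro p hp
      obtain ⟨h1, h2⟩ := Finset.mem_filter.1 hp
      obtain ⟨h3, h4, h5⟩ := hP p h1
      exact ⟨h3, max_lt h2 h4, h5⟩
    have ha0 : 0 < a := lt_of_lt_of_le (Real.exp_pos _) ha24
    have hloga : 24 ≤ Real.log a := by
      rw [Real.le_log_iff_exp_le ha0]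
      exact ha24
    have hlogz : Real.log z ≤ 2 * Real.log a := by
      have h1 : Real.log (Real.sqrt z) ≤ Real.log a :=
        Real.log_le_log (Real.sqrt_pos.2 (by linarith)) (le_max_left _ _)
      rw [Real.log_sqrt (by linarith)] at h1
      linarith
    have hlogaz : Real.log a ≤ Real.log z := Real.log_le_log ha0 haz
    have hlogz0 : 0 < Real.log z := by linarith
    have h1 := mass_big ha24 haz B hB'
    have h2 := V1_lower ha24 haz B hB'
    constructor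
    · have h3 : Real.log (Real.log z / Real.log a) ≤ Real.log 2 := by
        apply Real.log_le_log (by positivity)
        rw [div_le_iff₀ (by linarith)]
        exact hlogz
      have h4 := Real.log_two_lt_d9
      have h5 : 0.2296 / Real.log a ≤ 0.2296 / 24 := by
        apply div_le_div_of_nonneg_left (by norm_num) (by norm_num) hloga
      have h6 : (0.2296 : ℝ) / 24 ≤ 0.00957 := by norm_num
      norm_num at h4 ⊢
      linarith
    · have h3 : 1 / 2 ≤ Real.log a / Real.log z := by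
        rw [le_div_iff₀ hlogz0]
        linarith
      norm_num at h2 ⊢
      linarith

/-- one step of the sieve -/
theorem SvB_step {z : ℝ} (hz : 1 ≤ z) {P : Finset ℕ} (hP : BigP z P) {σ F G ε : ℝ} {b : ℕ}
    (hb : Even b) (hσ : 0 ≤ σ) (hε0 : 0 ≤ ε)
    (hrec : Ch g1 (P.filter (fun p : ℕ => (p : ℝ) ≤ Real.sqrt z)) (Real.sqrt z ^ σ)
      (Real.sqrt z ^ (σ + 1)) F G)
    (hε : (0.7028 : ℝ) ^ (b + 1) / (b + 1).factorial ≤ ε * 0.495) :
    Ch g1 P (z ^ (σ / 2 + b)) (z ^ (σ / 2 + b + 1)) (F * (1 + ε)) (G + ε) := by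
  set P' := P.filter (fun p : ℕ => (p : ℝ) ≤ Real.sqrt z) with hP'
  set B := P.filter (fun p : ℕ => Real.sqrt z < (p : ℝ)) with hB
  obtain ⟨hm1, hm2⟩ := SvB_B hz hP
  rw [← hB] at hm1 hm2
  have hz0 : 0 < z := by linarith
  have hs1 : 1 ≤ Real.sqrt z := Real.one_le_sqrt.2 hz
  have hg := SvB_g1 hP
  have hgB : ∀ p ∈ B, 0 ≤ g1 p ∧ g1 p < 1 := fun p hp => hg p (Finset.mem_filter.1 hp).1
  have hgP : ∀ p ∈ P', 0 ≤ g1 p ∧ g1 p < 1 := fun p hp => hg p (Finset.mem_filter.1 hp).1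
  have hdis : Disjoint B P' := by
    rw [Finset.disjoint_left]
    intro p h1 h2
    have h3 := (Finset.mem_filter.1 h1).2
    have h4 := (Finset.mem_filter.1 h2).2
    linarith
  have hes : Gold.es g1 B (b + 1) ≤ ε * Vg g1 B := by
    have h1 := Gold.es_le B (fun p hp => (hgB p hp).1) (b + 1)
    have h2 : (∑ p ∈ B, g1 p) ^ (b + 1) / ((b + 1).factorial : ℝ) ≤
        (0.7028 : ℝ) ^ (b + 1) / (b + 1).factorial := by
      apply div_le_div_of_nonneg_right _ (by positivity)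
      exact pow_le_pow_left₀ (Finset.sum_nonneg fun p hp => (hgB p hp).1) hm1 _
    have h3 : ε * 0.495 ≤ ε * Vg g1 B := mul_le_mul_of_nonneg_left hm2 hε0
    linarith
  have h := hrec.step hdis (Real.one_le_rpow hs1 hσ) hz
    (fun p hp => (hP p (Finset.mem_filter.1 hp).1).2.2) hb hgP hgB hes
  have hun : P' ∪ B = P := by
    ext p
    simp only [hP', hB, Finset.mem_union, Finset.mem_filter]
    constructor
    · rintro (h | h) <;> exact h.1
    · intro h
      rcases le_or_gt (p : ℝ) (Real.sqrt z) with h1 | h1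
      · exact Or.inl ⟨h, h1⟩
      · exact Or.inr ⟨h, h1⟩
  rw [hun] at h
  have hV : 0 < Vg g1 P := V_pos hP
  have hsq : ∀ x : ℝ, Real.sqrt z ^ x = z ^ (x / 2) := by
    intro x
    rw [Real.sqrt_eq_rpow, ← Real.rpow_mul hz0.le]
    congr 1
    ring
  refine h.mono hV ?_ ?_ le_rfl le_rfl
  · rw [hsq, ← Real.rpow_natCast z b, ← Real.rpow_add hz0]
  · apply max_le
    · rw [hsq, ← Real.rpow_natCast z b, ← Real.rpow_add hz0]
      apply Real.rpow_le_rpow_of_exponent_le hz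
      linarith
    · rw [hsq, ← Real.rpow_natCast z (b + 1), ← Real.rpow_add hz0]
      apply Real.rpow_le_rpow_of_exponent_le hz
      push_cast
      linarith

theorem SvB_fact_aux (x : ℝ) (N : ℕ) : x ^ (N + 2) / ((N + 2).factorial : ℝ) =
    x ^ N / (N.factorial : ℝ) * (x ^ 2 / (((N : ℝ) + 2) * ((N : ℝ) + 1))) := by
  have h1 : (N + 2).factorial = (N + 2) * ((N + 1) * N.factorial) := by
    rw [Nat.factorial_succ, Nat.factorial_succ]
  rw [h1]
  push_cast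
  have h2 : (N.factorial : ℝ) ≠ 0 := by positivity
  field_simp
  rw [pow_add]

theorem SvB_fact (k : ℕ) : (0.7028 : ℝ) ^ (2 * k + 8 + 1) / (2 * k + 8 + 1).factorial ≤
    (2.4e-7 * (1 / 2 : ℝ) ^ k) * 0.495 := by
  induction k with
  | zero =>
    norm_num [Nat.factorial]
  | succ k ih =>
    have h1 : 2 * (k + 1) + 8 + 1 = (2 * k + 8 + 1) + 2 := by ring
    rw [h1, SvB_fact_aux]
    set N := 2 * k + 8 + 1 with hN
    have hN0 : (0 : ℝ) ≤ N := Nat.cast_nonneg N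
    have h3 : (0.7028 : ℝ) ^ 2 / (((N : ℝ) + 2) * ((N : ℝ) + 1)) ≤ 1 / 2 := by
      rw [div_le_iff₀ (by positivity)]
      nlinarith
    have h4 : 0 ≤ (0.7028 : ℝ) ^ 2 / (((N : ℝ) + 2) * ((N : ℝ) + 1)) := by
      positivity
    have h5 : 0 ≤ (0.7028 : ℝ) ^ N / (N.factorial : ℝ) := by positivity
    calc _ ≤ (2.4e-7 * (1 / 2 : ℝ) ^ k) * 0.495 * (1 / 2) := by
          apply mul_le_mul ih h3 h4 (h5.trans ih)
      _ = _ := by ring

theorem SvB_empty {z : ℝ} (hz : 1 ≤ z) {P : Finset ℕ} (hP : BigP z P) (h : z ≤ Real.exp 24)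
    {σ F G : ℝ} (hσ : 0 ≤ σ) (hF : 1 ≤ F) (hG : 0 ≤ G) :
    Ch g1 P (z ^ σ) (z ^ (σ + 1)) F G := by
  have hP0 : P = ∅ := by
    rw [Finset.eq_empty_iff_forall_notMem]
    intro p hp
    have h1 := hP p hp
    linarith [h1.2.1, h1.2.2]
  subst hP0
  refine (Ch_empty g1).mono (V_pos hP) ?_ ?_ hF hG
  · exact Real.one_le_rpow hz hσ
  · exact Real.one_le_rpow hz (by linarith)

theorem SvB_bigP_filter {z : ℝ} {P : Finset ℕ} (hP : BigP z P) :
    BigP (Real.sqrt z) (P.filter (fun p : ℕ => (p : ℝ) ≤ Real.sqrt z)) := by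
  intro p hp
  obtain ⟨h1, h2⟩ := Finset.mem_filter.1 hp
  exact ⟨(hP p h1).1, (hP p h1).2.1, h2⟩

/-- the lower blocks -/
theorem SvB_low (m : ℕ) : ∀ (k : ℕ) (z : ℝ), 1 ≤ z → z ≤ Real.exp (24 * 2 ^ m) →
    ∀ P, BigP z P → Ch g1 P (z ^ (4 * k + 20 : ℝ)) (z ^ ((4 * k + 20 : ℝ) + 1))
      (1 + 9.6e-7 * (1 / 2 : ℝ) ^ k) (4.8e-7 * (1 / 2 : ℝ) ^ k) := by
  induction m with
  | zero =>
    intro k z hz hz' P hP
    apply SvB_empty hz hP (by simpa using hz') (by positivity)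
    · have : (0 : ℝ) ≤ 9.6e-7 * (1 / 2 : ℝ) ^ k := by positivity
      linarith
    · positivity
  | succ m ih =>
    intro k z hz hz' P hP
    have hs1 : 1 ≤ Real.sqrt z := Real.one_le_sqrt.2 hz
    have hs2 : Real.sqrt z ≤ Real.exp (24 * 2 ^ m) := by
      rw [Real.sqrt_le_left (Real.exp_pos _).le, ← Real.exp_nat_mul]
      refine hz'.trans (Real.exp_le_exp.2 ?_)
      rw [pow_succ]
      push_cast
      linarith
    have hrec := ih (k + 1) (Real.sqrt z) hs1 hs2 _ (SvB_bigP_filter hP)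
    have hq : (0 : ℝ) < (1 / 2 : ℝ) ^ k := by positivity
    have hq1 : (1 / 2 : ℝ) ^ k ≤ 1 := pow_le_one₀ (by norm_num) (by norm_num)
    have h := SvB_step hz hP (b := 2 * k + 8) ⟨k + 4, by ring⟩ (by positivity) (by positivity)
      hrec (SvB_fact k)
    have hV : 0 < Vg g1 P := V_pos hP
    refine h.mono hV ?_ ?_ ?_ ?_
    · apply Real.rpow_le_rpow_of_exponent_le hz
      push_cast
      linarith
    · apply Real.rpow_le_rpow_of_exponent_le hz
      push_cast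
      linarith
    · rw [pow_succ]
      nlinarith
    · rw [pow_succ]
      nlinarith

theorem SvB_exists (z : ℝ) : ∃ m : ℕ, z ≤ Real.exp (24 * 2 ^ m) := by
  obtain ⟨m, hm⟩ := pow_unbounded_of_one_lt z (by norm_num : (1 : ℝ) < 2)
  refine ⟨m, ?_⟩
  have h1 := Real.add_one_le_exp (24 * 2 ^ m : ℝ)
  have h2 : (0 : ℝ) < 2 ^ m := by positivity
  linarith

theorem SvB_l3 (z : ℝ) (hz : 1 ≤ z) (P : Finset ℕ) (hP : BigP z P) :
    Ch g1 P (z ^ (20 : ℝ)) (z ^ ((20 : ℝ) + 1)) (1 + 9.6e-7) 4.8e-7 := by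
  obtain ⟨m, hm⟩ := SvB_exists z
  have h := SvB_low m 0 z hz hm P hP
  have h1 : (4 * ((0 : ℕ) : ℝ) + 20) = 20 := by push_cast; ring
  rw [h1, pow_zero, mul_one, mul_one] at h
  exact h

theorem SvB_up (σ F G : ℝ) (hσ : 0 ≤ σ)
    (h : ∀ z : ℝ, 1 ≤ z → ∀ P : Finset ℕ, BigP z P → Ch g1 P (z ^ σ) (z ^ (σ + 1)) F G)
    (z : ℝ) (hz : 1 ≤ z) (P : Finset ℕ) (hP : BigP z P) :
    Ch g1 P (z ^ (σ / 2 + 6)) (z ^ (σ / 2 + 6 + 1)) (F * (1 + 3.4e-5)) (G + 3.4e-5) := by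
  have hs1 : 1 ≤ Real.sqrt z := Real.one_le_sqrt.2 hz
  have h1 := SvB_step hz hP (b := 6) (ε := 3.4e-5) ⟨3, rfl⟩ hσ (by norm_num)
    (h _ hs1 _ (SvB_bigP_filter hP)) (by norm_num [Nat.factorial])
  push_cast at h1
  exact h1

theorem SvB_main (z : ℝ) (hz : 1 ≤ z) (P : Finset ℕ) (hP : BigP z P) :
    Ch g1 P (z ^ (13 : ℝ)) (z ^ (14 : ℝ)) 1.00015 0.00015 := by
  have h2 := SvB_up 20 _ _ (by norm_num) SvB_l3
  have h2' : ∀ z : ℝ, 1 ≤ z → ∀ P : Finset ℕ, BigP z P → Ch g1 P (z ^ (16 : ℝ))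
      (z ^ ((16 : ℝ) + 1)) ((1 + 9.6e-7) * (1 + 3.4e-5)) (4.8e-7 + 3.4e-5) := by
    intro z hz P hP
    have := h2 z hz P hP
    norm_num at this ⊢
    exact this
  have h1 := SvB_up 16 _ _ (by norm_num) h2'
  have h1' : ∀ z : ℝ, 1 ≤ z → ∀ P : Finset ℕ, BigP z P → Ch g1 P (z ^ (14 : ℝ))
      (z ^ ((14 : ℝ) + 1)) ((1 + 9.6e-7) * (1 + 3.4e-5) * (1 + 3.4e-5))
      (4.8e-7 + 3.4e-5 + 3.4e-5) := by
    intro z hz P hP
    have := h1 z hz P hP
    norm_num at this ⊢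
    exact this
  have h0 := SvB_up 14 _ _ (by norm_num) h1' z hz P hP
  refine h0.mono (V_pos hP) ?_ ?_ ?_ ?_
  · apply Real.rpow_le_rpow_of_exponent_le hz
    norm_num
  · apply Real.rpow_le_rpow_of_exponent_le hz
    norm_num
  · norm_num
  · norm_num

theorem U1_base : U1 14 1.00015 := by
  intro z hz P hP
  have h := (SvB_main z hz P hP).up
  refine h.mono ?_ le_rfl
  apply Real.rpow_le_rpow_of_exponent_le hz
  norm_num

theorem L1_base : L1 14 0.99985 := by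
  intro z hz P hP
  have h := (SvB_main z hz P hP).lo (by norm_num)
  refine h.mono le_rfl ?_
  apply mul_le_mul_of_nonneg_right _ (V_pos hP).le
  norm_num

end Pool.Agent.H91.PK

end

section

/-!
# IS SumG: Selberg extension (upper bounds for one or two rough marks)

S ⊆ EZ a set of atoms (used with S = Si i or Si i ∪ Si j); Z a 0/1 shape on S with Z ∅ = 1, support product ≤ x^ρ,
T = ∑_{A⊆S} Z A ∏ fo gi ≥ 1.  On the n for which no atom of S occurs (yy h n e = 0 for e ∈ S):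
Ly(y) = Ly(pr S y) (`Ev_lam_pr`) and, with v = pr S y, Ly(v) = Ly(pr S (ext S Z T v)) = Ly(ext S Z T v) (`pr_ext`, `Ev_lam_pr`), so
∑_{n ∈ AA, no atom of S} Ly(y)² ≤ ∑_{n∈AA} Ly(ext S Z T v)² ≤ Mn · My(ext ..) + x/L^A = Mn · My(v)/T + x/L^A
(`sumI` at level θ+ρ < 1/2, `yok_pr`, `yok_ext`, `MM_ext`).
-/

set_option autoImplicit false

namespace Pool.Agent.H36.IS

open Finset Filter

private theorem SumG_EZ_sub (ι : Type) [Fintype ι] [DecidableEq ι] (x : ℕ) (δ : ℝ) : EZ ι x δ ⊆ EX ι x := by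
  intro e he
  unfold EZ at he
  unfold EX
  rw [mem_product] at he ⊢
  exact ⟨he.1, filter_subset _ _ he.2⟩

open Classical in
theorem sumG (ι : Type) [Fintype ι] [DecidableEq ι] (h : ι → ℕ) (W b : ℕ) (hG : Good h W b) (B1 : ℕ) (δ θ ρ : ℝ)
    (hδ : 0 < δ) (hδ1 : δ ≤ 1) (hθρ : θ + ρ < 1 / 2) (A : ℕ) :
    ∀ᶠ x : ℕ in atTop, ∀ (y : Finset (ι × ℕ) → ℝ) (S : Finset (ι × ℕ)) (Z : Finset (ι × ℕ) → ℝ) (T : ℝ),
      Yok x δ θ (Real.log x ^ B1) y → S ⊆ EZ ι x δ → (∀ A, Z A = 0 ∨ Z A = 1) →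
      (∀ A, A ⊆ S → Z A ≠ 0 → ∏ e ∈ A, (e.2 : ℝ) ≤ (x : ℝ) ^ ρ) → 1 ≤ T →
      ∑ A ∈ S.powerset, Z A * ∏ e ∈ A, fo gi e = T →
      ∑ n ∈ (AA h W b x).filter (fun n => ∀ e ∈ S, yy h n e = 0), Ly h x δ y n ^ 2 ≤
        Mn ι W x * (My ι x δ (pr S (fo gi) y) / T) + x / Real.log x ^ A := by
  obtain ⟨B, hB⟩ := yok_pr ι B1
  filter_upwards [hB, sumI ι h W b hG B δ (θ + ρ) hδ hδ1 hθρ A, eventually_ge_atTop 1] with x hx hI hx1
  intro y S Z T hy hS hZ hZs hT hTT
  have hT0 : T ≠ 0 := by linarith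
  have hv := hx δ θ y S hS hy
  have hvd : ∀ R, pr S (fo gi) y R ≠ 0 → Disjoint R S := fun R hR => (pr_disj hR).1
  have hw := yok_ext hx1 hS hv hZ hZs hT
  have hg : ∀ e ∈ EZ ι x δ, 0 < gi e ∧ gi e < 1 := fun e he =>
    (fo_gi (SumG_EZ_sub ι x δ he)).2
  have hLy : ∀ n, (∀ e ∈ S, yy h n e = 0) → Ly h x δ y n = Ly h x δ (ext S Z T (pr S (fo gi) y)) n := by
    intro n hn
    unfold Ly
    rw [← Ev_lam_pr hS hg y hn, ← Ev_lam_pr hS hg (ext S Z T (pr S (fo gi) y)) hn,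
      pr_ext hT0 hTT hvd]
  have h1 := (abs_le.1 (hI _ hw)).2
  have h2 : My ι x δ (ext S Z T (pr S (fo gi) y)) = My ι x δ (pr S (fo gi) y) / T :=
    MM_ext hS hZ hT0 hTT hvd
  rw [h2] at h1
  have h3 : ∑ n ∈ (AA h W b x).filter (fun n => ∀ e ∈ S, yy h n e = 0), Ly h x δ y n ^ 2 ≤
      ∑ n ∈ AA h W b x, Ly h x δ (ext S Z T (pr S (fo gi) y)) n ^ 2 := by
    calc ∑ n ∈ (AA h W b x).filter (fun n => ∀ e ∈ S, yy h n e = 0), Ly h x δ y n ^ 2
        = ∑ n ∈ (AA h W b x).filter (fun n => ∀ e ∈ S, yy h n e = 0),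
            Ly h x δ (ext S Z T (pr S (fo gi) y)) n ^ 2 := by
          refine sum_congr rfl fun n hn => ?_
          rw [hLy n (mem_filter.1 hn).2]
      _ ≤ _ := sum_le_sum_of_subset_of_nonneg (filter_subset _ _) fun n _ _ => sq_nonneg _
  linarith

end Pool.Agent.H36.IS

end

section

/-!
# IS MCa: Mertens on cells

`mert_cell`: ∑_{x^a < p ≤ x^b} 1/(p-1) ≤ log(b/a) + ε for large x.  (`Pool.Agent.H91.Gold.mertens_wz`:
∑_{w<p≤z} 1/p ≤ log(log z/log w) + 0.2295/log w with w = ⌊x^a⌋, z = ⌊x^b⌋; log⌊x^a⌋ ≥ a log x - 1/..., 1/(p-1) - 1/p ≤ 2/p²,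
∑_{p>w} 2/p² ≤ 4/w.)
-/

set_option autoImplicit false

namespace Pool.Agent.H36.IS

open Finset Filter

private theorem MCa_tel {w : ℕ} (hw : 1 ≤ w) {z : ℕ} (hwz : w ≤ z) :
    ∑ n ∈ Ioc w z, (1 / ((n : ℝ) - 1) - 1 / (n : ℝ)) = 1 / (w : ℝ) - 1 / (z : ℝ) := by
  induction z, hwz using Nat.le_induction with
  | base => simp
  | succ z hz ih =>
    rw [← Finset.insert_Ioc_right_eq_Ioc_add_one hz, Finset.sum_insert (by simp), ih]
    push_cast
    ring

private theorem MCa_sum {w z : ℕ} (hw : 65536 ≤ w) (hwz : w ≤ z) :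
    ∑ p ∈ Pool.Agent.H91.Gold.Pr w z, fn p ≤
      Real.log (Real.log z / Real.log w) + 0.2295 / Real.log w + 1 / (w : ℝ) := by
  have h1 := Pool.Agent.H91.Gold.mertens_wz hw hwz
  have h2 : ∑ p ∈ Pool.Agent.H91.Gold.Pr w z, fn p =
      ∑ p ∈ Pool.Agent.H91.Gold.Pr w z, (1 : ℝ) / p +
        ∑ p ∈ Pool.Agent.H91.Gold.Pr w z, (1 / ((p : ℝ) - 1) - 1 / (p : ℝ)) := by
    rw [← Finset.sum_add_distrib]
    refine Finset.sum_congr rfl fun p _ => ?_
    unfold fn
    ring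
  have h3 : ∑ p ∈ Pool.Agent.H91.Gold.Pr w z, (1 / ((p : ℝ) - 1) - 1 / (p : ℝ)) ≤
      ∑ n ∈ Ioc w z, (1 / ((n : ℝ) - 1) - 1 / (n : ℝ)) := by
    refine Finset.sum_le_sum_of_subset_of_nonneg (Finset.filter_subset _ _) ?_
    intro n hn _
    have hn' : w < n := (Finset.mem_Ioc.1 hn).1
    have hn2 : (1 : ℝ) < n := by
      have : 1 < n := by omega
      exact_mod_cast this
    have : 1 / (n : ℝ) ≤ 1 / ((n : ℝ) - 1) :=
      one_div_le_one_div_of_le (by linarith) (by linarith)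
    linarith
  rw [MCa_tel (by omega) hwz] at h3
  have h4 : (0 : ℝ) ≤ 1 / (z : ℝ) := by positivity
  linarith

private theorem MCa_lim (a b : ℝ) (ha : 0 < a) (hb : 0 < b) :
    Tendsto (fun t : ℝ => Real.log (b * t / (a * t - 1)) + 1.2295 / (a * t - 1)) atTop
      (nhds (Real.log (b / a))) := by
  have h1 : Tendsto (fun t : ℝ => a * t - 1) atTop atTop :=
    tendsto_atTop_add_const_right atTop (-1) (tendsto_id.const_mul_atTop ha)
  have h2 : Tendsto (fun t : ℝ => b / a + b / a * (a * t - 1)⁻¹) atTop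
      (nhds (b / a + b / a * 0)) :=
    (tendsto_inv_atTop_zero.comp h1).const_mul _ |>.const_add _
  have h3 : Tendsto (fun t : ℝ => b * t / (a * t - 1)) atTop (nhds (b / a)) := by
    rw [mul_zero, add_zero] at h2
    refine h2.congr' ?_
    filter_upwards [h1.eventually_gt_atTop 0] with t ht
    have h5 : a * t - 1 ≠ 0 := ht.ne'
    field_simp
    ring
  have h4 : Tendsto (fun t : ℝ => 1.2295 / (a * t - 1)) atTop (nhds 0) := h1.const_div_atTop _
  have h5 := (h3.log (div_pos hb ha).ne').add h4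
  rwa [add_zero] at h5

theorem mert_cell (a b ε : ℝ) (ha : 0 < a) (hab : a ≤ b) (hb : b ≤ 1) (hε : 0 < ε) : ∀ᶠ x : ℕ in atTop,
    ∑ p ∈ (PX x).filter (fun p : ℕ => (x : ℝ) ^ a < p ∧ (p : ℝ) ≤ (x : ℝ) ^ b), fn p ≤ Real.log (b / a) + ε := by
  have hb0 : 0 < b := lt_of_lt_of_le ha hab
  have hlog : Tendsto (fun x : ℕ => Real.log (x : ℝ)) atTop atTop :=
    Real.tendsto_log_atTop.comp tendsto_natCast_atTop_atTop
  have e1 : ∀ᶠ x : ℕ in atTop, Real.log (b * Real.log x / (a * Real.log x - 1)) +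
      1.2295 / (a * Real.log x - 1) < Real.log (b / a) + ε :=
    ((MCa_lim a b ha hb0).comp hlog).eventually_lt_const (by linarith)
  have e2 : ∀ᶠ x : ℕ in atTop, (65536 : ℝ) ≤ (x : ℝ) ^ a :=
    ((tendsto_rpow_atTop ha).comp tendsto_natCast_atTop_atTop).eventually_ge_atTop _
  have e3 : ∀ᶠ x : ℕ in atTop, 1 < a * Real.log (x : ℝ) :=
    (hlog.const_mul_atTop ha).eventually_gt_atTop 1
  filter_upwards [e1, e2, e3, eventually_ge_atTop 1] with x h1 h2 h3 h4
  have hx1 : (1 : ℝ) ≤ x := by exact_mod_cast h4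
  have hx0 : (0 : ℝ) < x := by linarith
  have hw : 65536 ≤ ⌊(x : ℝ) ^ a⌋₊ := Nat.le_floor (by exact_mod_cast h2)
  have hwz : ⌊(x : ℝ) ^ a⌋₊ ≤ ⌊(x : ℝ) ^ b⌋₊ :=
    Nat.floor_mono (Real.rpow_le_rpow_of_exponent_le hx1 hab)
  have hsub : (PX x).filter (fun p : ℕ => (x : ℝ) ^ a < p ∧ (p : ℝ) ≤ (x : ℝ) ^ b) ⊆
      Pool.Agent.H91.Gold.Pr ⌊(x : ℝ) ^ a⌋₊ ⌊(x : ℝ) ^ b⌋₊ := by
    intro p hp
    rw [Finset.mem_filter] at hp
    obtain ⟨hp, hpa, hpb⟩ := hp
    unfold PX at hp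
    rw [Finset.mem_filter] at hp
    rw [Pool.Agent.H91.Gold.mem_Pr]
    refine ⟨⟨?_, Nat.le_floor hpb⟩, hp.2.1⟩
    exact (Nat.floor_lt (by positivity)).2 hpa
  have hle : ∑ p ∈ (PX x).filter (fun p : ℕ => (x : ℝ) ^ a < p ∧ (p : ℝ) ≤ (x : ℝ) ^ b), fn p ≤
      ∑ p ∈ Pool.Agent.H91.Gold.Pr ⌊(x : ℝ) ^ a⌋₊ ⌊(x : ℝ) ^ b⌋₊, fn p := by
    refine Finset.sum_le_sum_of_subset_of_nonneg hsub ?_
    intro p hp _
    have : 1 ≤ p := (Pool.Agent.H91.Gold.mem_Pr.1 hp).2.one_lt.le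
    have h5 : (1 : ℝ) ≤ p := by exact_mod_cast this
    unfold fn
    exact div_nonneg zero_le_one (by linarith)
  have hm := MCa_sum hw hwz
  have hwr : (65536 : ℝ) ≤ (⌊(x : ℝ) ^ a⌋₊ : ℝ) := by exact_mod_cast hw
  have hlw : a * Real.log x - 1 ≤ Real.log (⌊(x : ℝ) ^ a⌋₊ : ℝ) := by
    have h5 : (x : ℝ) ^ a / 2 ≤ (⌊(x : ℝ) ^ a⌋₊ : ℝ) := by
      have := Nat.lt_floor_add_one ((x : ℝ) ^ a)
      linarith
    have h6 : Real.log ((x : ℝ) ^ a / 2) ≤ Real.log (⌊(x : ℝ) ^ a⌋₊ : ℝ) :=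
      Real.log_le_log (by positivity) h5
    rw [Real.log_div (by positivity) (by norm_num), Real.log_rpow hx0] at h6
    have h7 : Real.log 2 ≤ 1 := by
      have := Real.log_two_lt_d9
      linarith
    linarith
  have hlz : Real.log (⌊(x : ℝ) ^ b⌋₊ : ℝ) ≤ b * Real.log x := by
    rw [← Real.log_rpow hx0]
    refine Real.log_le_log ?_ (Nat.floor_le (by positivity))
    have : 0 < ⌊(x : ℝ) ^ b⌋₊ := by omega
    exact_mod_cast this
  have hpos : 0 < a * Real.log x - 1 := by linarith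
  have hlz0 : 0 < Real.log (⌊(x : ℝ) ^ b⌋₊ : ℝ) := by
    refine Real.log_pos ?_
    have : 1 < ⌊(x : ℝ) ^ b⌋₊ := by omega
    exact_mod_cast this
  have hlwp : 0 < Real.log (⌊(x : ℝ) ^ a⌋₊ : ℝ) := lt_of_lt_of_le hpos hlw
  have k1 : Real.log (Real.log (⌊(x : ℝ) ^ b⌋₊ : ℝ) / Real.log (⌊(x : ℝ) ^ a⌋₊ : ℝ)) ≤
      Real.log (b * Real.log x / (a * Real.log x - 1)) := by
    refine Real.log_le_log (div_pos hlz0 hlwp) ?_
    exact div_le_div₀ (hlz0.le.trans hlz) hlz hpos hlw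
  have k2 : 0.2295 / Real.log (⌊(x : ℝ) ^ a⌋₊ : ℝ) ≤ 0.2295 / (a * Real.log x - 1) :=
    div_le_div_of_nonneg_left (by norm_num) hpos hlw
  have k3 : 1 / (⌊(x : ℝ) ^ a⌋₊ : ℝ) ≤ 1 / (a * Real.log x - 1) := by
    refine one_div_le_one_div_of_le hpos (hlw.trans ?_)
    have := Real.log_le_sub_one_of_pos (x := (⌊(x : ℝ) ^ a⌋₊ : ℝ)) (by linarith)
    linarith
  have k4 : (1.2295 : ℝ) / (a * Real.log x - 1) =
      0.2295 / (a * Real.log x - 1) + 1 / (a * Real.log x - 1) := by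
    rw [← add_div]
    norm_num
  linarith

end Pool.Agent.H36.IS

end

section

/-!
# IS Pnt: the prime number theorem for (x, 2x]

From any form of the PNT in the pool (`Pool.Agent.H91.EHA` : `pnt'` is used in GMain.lean; or other finished files).
-/

set_option autoImplicit false

namespace Pool.Agent.H36.IS

open Finset Filter

open Chebyshev in
private theorem Pnt_psi (y : ℕ) : ∑ n ∈ Icc 1 y, (ArithmeticFunction.vonMangoldt n : ℝ) = psi y := by
  unfold psi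
  rw [Nat.floor_natCast]
  rfl

private theorem Pnt_theta_diff (x : ℕ) :
    DP x = (Nat.primesLE (2 * x) \ Nat.primesLE x).card ∧
    Chebyshev.theta ((2 * x : ℕ) : ℝ) - Chebyshev.theta x =
      ∑ p ∈ Nat.primesLE (2 * x) \ Nat.primesLE x, Real.log p := by
  have hsub : Nat.primesLE x ⊆ Nat.primesLE (2 * x) := by
    intro p hp
    rw [Nat.mem_primesLE] at hp ⊢
    exact ⟨hp.1.trans (by omega), hp.2⟩
  constructor
  · unfold DP
    rw [Finset.card_sdiff_of_subset hsub, Nat.cast_sub (Finset.card_le_card hsub)]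
    rw [Nat.primesLE_card_eq_primeCounting, Nat.primesLE_card_eq_primeCounting]
  · rw [Chebyshev.theta_eq_sum_primesLE_log, Chebyshev.theta_eq_sum_primesLE_log,
      ← Finset.sum_sdiff hsub]
    ring

private theorem Pnt_bounds {C : ℝ} (hC : 0 < C)
    (hp : ∀ y : ℕ, 2 ≤ y → |(∑ n ∈ Icc 1 y, (ArithmeticFunction.vonMangoldt n : ℝ)) - y| ≤
      C * y / Real.log y ^ 1) (x : ℕ) (hx : 2 ≤ x) :
    DP x * Real.log x ≤ x + 3 * C * x / Real.log x + 4 * √(2 * x) * Real.log (2 * x) ∧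
    x - 3 * C * x / Real.log x - 4 * √(2 * x) * Real.log (2 * x) ≤ DP x * Real.log (2 * x) := by
  have hx2 : (2 : ℝ) ≤ x := by exact_mod_cast hx
  have hx0 : (0 : ℝ) < x := by linarith
  have hlx : 0 < Real.log x := Real.log_pos (by linarith)
  have hl2x : Real.log x ≤ Real.log (2 * x) := Real.log_le_log hx0 (by linarith)
  obtain ⟨h1, h2⟩ := Pnt_theta_diff x
  have p1 := abs_le.1 (hp x hx)
  have p2 := abs_le.1 (hp (2 * x) (by omega))
  rw [Pnt_psi] at p1 p2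
  push_cast at p2 h2
  rw [pow_one] at p1 p2
  have q1 : C * (2 * x) / Real.log (2 * x) ≤ C * (2 * x) / Real.log x :=
    div_le_div_of_nonneg_left (by positivity) hlx hl2x
  have q2 : C * (2 * x) / Real.log x = 2 * (C * x / Real.log x) := by ring
  have q3 : 3 * C * x / Real.log x = 3 * (C * x / Real.log x) := by ring
  have t1 := Chebyshev.psi_sub_theta_le (x := (x : ℝ)) (by linarith)
  have t2 := Chebyshev.psi_sub_theta_le (x := 2 * (x : ℝ)) (by linarith)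
  have t3 := Chebyshev.theta_le_psi (x : ℝ)
  have t4 := Chebyshev.theta_le_psi (2 * (x : ℝ))
  have s1 : √(x : ℝ) ≤ √(2 * x) := Real.sqrt_le_sqrt (by linarith)
  have s2 : 2 * √(x : ℝ) * Real.log x ≤ 2 * √(2 * x) * Real.log (2 * x) := by
    apply mul_le_mul _ hl2x hlx.le (by positivity)
    linarith
  have s3 : 0 ≤ 2 * √(2 * (x : ℝ)) * Real.log (2 * x) := by
    have := hlx.le.trans hl2x
    positivity
  have mem : ∀ p ∈ Nat.primesLE (2 * x) \ Nat.primesLE x, x < p ∧ p ≤ 2 * x := by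
    intro p hp
    rw [Finset.mem_sdiff, Nat.mem_primesLE, Nat.mem_primesLE] at hp
    refine ⟨?_, hp.1.1⟩
    by_contra h
    exact hp.2 ⟨by omega, hp.1.2⟩
  have lo : DP x * Real.log x ≤ Chebyshev.theta (2 * (x : ℝ)) - Chebyshev.theta x := by
    rw [h2, h1, ← nsmul_eq_mul]
    refine Finset.card_nsmul_le_sum _ _ _ fun p hp => ?_
    exact Real.log_le_log hx0 (by exact_mod_cast (mem p hp).1.le)
  have hi : Chebyshev.theta (2 * (x : ℝ)) - Chebyshev.theta x ≤ DP x * Real.log (2 * x) := by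
    rw [h2, h1, ← nsmul_eq_mul]
    refine Finset.sum_le_card_nsmul _ _ _ fun p hp => ?_
    have hpos : (0 : ℝ) < p := by
      have := (mem p hp).1
      exact_mod_cast (by omega : 0 < p)
    exact Real.log_le_log hpos (by exact_mod_cast (mem p hp).2)
  constructor
  · linarith [p1.1, p1.2, p2.1, p2.2]
  · linarith [p1.1, p1.2, p2.1, p2.2]

private theorem Pnt_lim (C : ℝ) : Tendsto (fun x : ℕ => 3 * C / Real.log x +
    4 * √(2 * x) * Real.log (2 * x) / x) atTop (nhds 0) := by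
  have h1 : Tendsto (fun x : ℝ => Real.log x) atTop atTop := Real.tendsto_log_atTop
  have h2 : Tendsto (fun x : ℝ => 3 * C / Real.log x) atTop (nhds 0) :=
    tendsto_const_nhds.div_atTop h1
  have h3 : Tendsto (fun x : ℝ => Real.log x / x ^ (1 / 2 : ℝ)) atTop (nhds 0) :=
    (isLittleO_log_rpow_atTop (by norm_num : (0 : ℝ) < 1 / 2)).tendsto_div_nhds_zero
  have h4 : Tendsto (fun x : ℝ => 2 * x) atTop atTop :=
    tendsto_id.const_mul_atTop (by norm_num : (0 : ℝ) < 2)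
  have h5 : Tendsto (fun x : ℝ => Real.log (2 * x) / (2 * x) ^ (1 / 2 : ℝ)) atTop (nhds 0) :=
    h3.comp h4
  have h6 : Tendsto (fun x : ℝ => 3 * C / Real.log x +
      8 * (Real.log (2 * x) / (2 * x) ^ (1 / 2 : ℝ))) atTop (nhds (0 + 8 * 0)) :=
    h2.add (h5.const_mul 8)
  rw [mul_zero, add_zero] at h6
  have h7 := h6.comp (tendsto_natCast_atTop_atTop (R := ℝ))
  refine h7.congr' ?_
  filter_upwards [eventually_gt_atTop 0] with x hx
  have hx0 : (0 : ℝ) < x := by exact_mod_cast hx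
  simp only [Function.comp]
  congr 1
  rw [← Real.sqrt_eq_rpow]
  have hs : √(2 * (x : ℝ)) * √(2 * (x : ℝ)) = 2 * x := Real.mul_self_sqrt (by positivity)
  have hs0 : 0 < √(2 * (x : ℝ)) := Real.sqrt_pos.2 (by positivity)
  rw [mul_div_assoc', div_eq_div_iff hs0.ne' hx0.ne']
  linear_combination (-4 * Real.log (2 * x)) * hs

theorem DP_pnt (ε : ℝ) (hε : 0 < ε) : ∀ᶠ x : ℕ in atTop,
    (1 - ε) * (x / Real.log x) ≤ DP x ∧ DP x ≤ (1 + ε) * (x / Real.log x) := by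
  obtain ⟨C, hC, hp'⟩ := Pool.Agent.H91.EHA.pnt 1
  have hp : ∀ y : ℕ, 2 ≤ y → |(∑ n ∈ Icc 1 y, (ArithmeticFunction.vonMangoldt n : ℝ)) - y| ≤
      C * y / Real.log y ^ 1 := hp'
  have h1 := Pnt_lim C
  have h2 : Tendsto (fun x : ℕ => Real.log (2 * x) / Real.log x) atTop (nhds 1) := by
    have h3 : Tendsto (fun x : ℝ => Real.log 2 / Real.log x) atTop (nhds 0) :=
      tendsto_const_nhds.div_atTop Real.tendsto_log_atTop
    have h4 : Tendsto (fun x : ℝ => Real.log 2 / Real.log x + 1) atTop (nhds (0 + 1)) :=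
      h3.add tendsto_const_nhds
    rw [zero_add] at h4
    have h5 := h4.comp (tendsto_natCast_atTop_atTop (R := ℝ))
    refine h5.congr' ?_
    filter_upwards [eventually_gt_atTop 1] with x hx
    have hx1 : (1 : ℝ) < x := by exact_mod_cast hx
    have hl := Real.log_pos hx1
    simp only [Function.comp]
    rw [Real.log_mul (by norm_num) (by linarith)]
    field_simp
  have h3 : Tendsto (fun x : ℕ => (1 - ε) * (Real.log (2 * x) / Real.log x) +
      (3 * C / Real.log x + 4 * √(2 * x) * Real.log (2 * x) / x)) atTop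
      (nhds ((1 - ε) * 1 + 0)) := (h2.const_mul _).add h1
  have e1 := h3.eventually_le_const (u := 1) (by linarith)
  have e2 := h1.eventually_le_const (u := ε) hε
  filter_upwards [e1, e2, eventually_ge_atTop 2] with x e1 e2 hx
  have hx2 : (2 : ℝ) ≤ x := by exact_mod_cast hx
  have hx0 : (0 : ℝ) < x := by linarith
  have hlx : 0 < Real.log x := Real.log_pos (by linarith)
  have hl2x : Real.log x ≤ Real.log (2 * x) := Real.log_le_log hx0 (by linarith)
  have hl2 : 0 < Real.log (2 * x) := hlx.trans_le hl2x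
  obtain ⟨b1, b2⟩ := Pnt_bounds hC hp x hx
  set E : ℝ := 3 * C / Real.log x + 4 * √(2 * x) * Real.log (2 * x) / x with hE
  have hE2 : E * x = 3 * C * x / Real.log x + 4 * √(2 * x) * Real.log (2 * x) := by
    rw [hE]
    field_simp
  constructor
  · have h6 : (1 - E) * x ≤ DP x * Real.log (2 * x) := by linarith
    have h7 : (1 - ε) * (Real.log (2 * x) / Real.log x) * x ≤ (1 - E) * x :=
      mul_le_mul_of_nonneg_right (by linarith) hx0.le
    have h8 : (1 - ε) * (x / Real.log x) * Real.log (2 * x) ≤ DP x * Real.log (2 * x) := by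
      refine le_trans (le_of_eq ?_) (h7.trans h6)
      ring
    exact le_of_mul_le_mul_right h8 hl2
  · have h6 : DP x * Real.log x ≤ (1 + ε) * x := by
      have : E * x ≤ ε * x := mul_le_mul_of_nonneg_right e2 hx0.le
      linarith
    rw [← mul_div_assoc, le_div_iff₀ hlx]
    exact h6

end Pool.Agent.H36.IS

end

section

/-!
# ISP WtZ: weights on the primes in (x^δ, x^ζ] (sets of primes, no component)

As in Pool/Agent/H36/IS/Wts.lean (copy the private lemmas): P = PZ x ζ \ PZ x δ (primes in (x^δ, x^ζ]), z = x^ζ, `BigP2 z P` since x^δ > e^2400 for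
large x; L2 (resp. U2) gives c with |c| ≤ 1, supported on T ⊆ P, ∏ ≤ z^s = x^(ζ s), ev c P y ≤ Vg y P on 0/1 vectors, f Vg g1 P ≤ ev c P g1.
evD (PX x) c m = ev c P ([p ∣ m]) (`SvA_ev_superset` or the support), Vg ([p ∣ m]) P = [no p ∈ P divides m].
Change of the density g1 = 1/(p-1) to 1/p: all primes of P are > x^δ, |∏_{T} 1/(p-1) - ∏_T 1/p| ≤ tiny ∏_T 1/(p-1) (`fn_gi` with ι = Unit, or
directly: ∏ (1 + 1/(p-1)) - 1 ≤ ..), ∑_T ∏_T 1/(p-1) ≤ C (`mert_cell`, as log(ζ/δ) is a constant: ∏_{P}(1 + 1/(p-1)) ≤ exp(∑) ), V2 x δ ζ ≥ c > 0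
and Vg g1 P ≥ (1 - tiny) V2.
`V2_pos`: V2 is bounded below: ∏ (1 - 1/p) ≥ exp(-2∑ 1/p) ≥ exp(-2(log(ζ/δ)+1)).
-/

set_option autoImplicit false

namespace Pool.Agent.H36.IS2

open Finset Filter Pool.Agent.H36.IS

open Pool.Agent.H91.PK (ev Vg ZO Wt g1)

private theorem WtZ_affine (c : Finset ℕ → ℝ) (P : Finset ℕ) (g : ℕ → ℝ) (a : ℕ) :
    ev c P g = g a * ev c P (Function.update g a 1) +
      (1 - g a) * ev c P (Function.update g a 0) := by
  unfold ev
  rw [Finset.mul_sum, Finset.mul_sum, ← Finset.sum_add_distrib]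
  refine Finset.sum_congr rfl fun T _ => ?_
  by_cases h : a ∈ T
  · have h1 : ∀ v : ℝ, ∏ p ∈ T, Function.update g a v p = v * ∏ p ∈ T.erase a, g p := by
      intro v
      rw [← Finset.mul_prod_erase T _ h, Function.update_self]
      congr 1
      exact Finset.prod_congr rfl fun p hp => Function.update_of_ne (Finset.ne_of_mem_erase hp) _ _
    rw [h1, h1, ← Finset.mul_prod_erase T g h]
    ring
  · have h1 : ∀ v : ℝ, ∏ p ∈ T, Function.update g a v p = ∏ p ∈ T, g p := by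
      intro v
      refine Finset.prod_congr rfl fun p hp => Function.update_of_ne ?_ _ _
      rintro rfl
      exact h hp
    rw [h1, h1]
    ring

private theorem WtZ_nonneg_aux (c : Finset ℕ → ℝ) (P : Finset ℕ) (h : ∀ y, ZO y → 0 ≤ ev c P y)
    (A : Finset ℕ) : ∀ g : ℕ → ℝ, (∀ p ∈ A, 0 ≤ g p ∧ g p ≤ 1) →
      (∀ p, p ∉ A → g p = 0 ∨ g p = 1) → 0 ≤ ev c P g := by
  induction A using Finset.induction_on with
  | empty =>
    intro g _ hg
    exact h g (fun p => hg p (Finset.notMem_empty p))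
  | insert a A ha ih =>
    intro g hg1 hg2
    rw [WtZ_affine c P g a]
    have h1 := hg1 a (mem_insert_self a A)
    have h2 : ∀ v : ℝ, v = 0 ∨ v = 1 → 0 ≤ ev c P (Function.update g a v) := by
      intro v hv
      apply ih
      · intro p hp
        have hne : p ≠ a := by
          rintro rfl
          exact ha hp
        rw [Function.update_of_ne hne]
        exact hg1 p (mem_insert_of_mem hp)
      · intro p hp
        by_cases e : p = a
        · subst e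
          rw [Function.update_self]
          exact hv
        · rw [Function.update_of_ne e]
          apply hg2
          rw [mem_insert, not_or]
          exact ⟨e, hp⟩
    have h3 := mul_nonneg h1.1 (h2 1 (Or.inr rfl))
    have h4 := mul_nonneg (by linarith : 0 ≤ 1 - g a) (h2 0 (Or.inl rfl))
    linarith

private theorem WtZ_ev_congr (c : Finset ℕ → ℝ) (P : Finset ℕ) {g g' : ℕ → ℝ}
    (h : ∀ p ∈ P, g p = g' p) : ev c P g = ev c P g' := by
  unfold ev
  refine Finset.sum_congr rfl fun T hT => ?_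
  congr 1
  exact Finset.prod_congr rfl fun p hp => h p (mem_powerset.mp hT hp)

private theorem WtZ_nonneg (c : Finset ℕ → ℝ) (P : Finset ℕ) (h : ∀ y, ZO y → 0 ≤ ev c P y)
    (g : ℕ → ℝ) (hg : ∀ p ∈ P, 0 ≤ g p ∧ g p ≤ 1) : 0 ≤ ev c P g := by
  classical
  rw [WtZ_ev_congr c P (g' := fun p => if p ∈ P then g p else 0)
    (fun p hp => by simp only [hp, if_true])]
  apply WtZ_nonneg_aux c P h P
  · intro p hp
    simp only [hp, if_true]
    exact hg p hp
  · intro p hp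
    left
    simp only [hp, if_false]

private theorem WtZ_prod_ge (P : Finset ℕ) (a : ℕ → ℝ) (ha : ∀ p ∈ P, 0 ≤ a p ∧ a p ≤ 1) :
    1 - ∑ p ∈ P, a p ≤ ∏ p ∈ P, (1 - a p) := by
  classical
  induction P using Finset.induction_on with
  | empty => simp
  | insert q P hq ih =>
    rw [Finset.sum_insert hq, Finset.prod_insert hq]
    have h1 := ha q (mem_insert_self q P)
    have h2 := ih (fun p hp => ha p (mem_insert_of_mem hp))
    have h3 : ∏ p ∈ P, (1 - a p) ≤ 1 :=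
      Finset.prod_le_one (fun p hp => by linarith [(ha p (mem_insert_of_mem hp)).2])
        (fun p hp => by linarith [(ha p (mem_insert_of_mem hp)).1])
    nlinarith

private theorem WtZ_sum_le (P : Finset ℕ) (a : ℕ → ℝ) (ha : ∀ p ∈ P, 0 ≤ a p) :
    1 ≤ ∏ p ∈ P, (1 + a p) ∧ ∑ p ∈ P, a p ≤ ∏ p ∈ P, (1 + a p) := by
  classical
  induction P using Finset.induction_on with
  | empty => simp
  | insert q P hq ih =>
    rw [Finset.sum_insert hq, Finset.prod_insert hq]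
    have h1 := ha q (mem_insert_self q P)
    obtain ⟨h2, h3⟩ := ih (fun p hp => ha p (mem_insert_of_mem hp))
    constructor
    · nlinarith
    · nlinarith

private theorem WtZ_dens (P : Finset ℕ) (Z F : ℝ) (hZ : 1 < Z) (hP : ∀ p ∈ P, Z ≤ (p : ℝ))
    (hP2 : ∀ p ∈ P, 2 ≤ p) (hF : ∏ p ∈ P, (1 + fn p) ≤ F) :
    0 < ∏ p ∈ P, (1 - 1 / (p : ℝ)) ∧ 1 ≤ F ∧
    Vg g1 P ≤ ∏ p ∈ P, (1 - 1 / (p : ℝ)) ∧
    (∏ p ∈ P, (1 - 1 / (p : ℝ))) * (1 - F / (Z - 1)) ≤ Vg g1 P ∧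
    ∀ c : Finset ℕ → ℝ, (∀ T, |c T| ≤ 1) → |ev c P g1 - ev c P (fun p => 1 / (p : ℝ))| ≤
      (∏ p ∈ P, (1 - 1 / (p : ℝ))) * (F ^ 3 / (Z - 1)) := by
  have hp2 : ∀ p ∈ P, (2 : ℝ) ≤ p := fun p hp => by exact_mod_cast hP2 p hp
  have hfn0 : ∀ p ∈ P, 0 ≤ fn p := by
    intro p hp
    unfold fn
    have := hp2 p hp
    exact div_nonneg zero_le_one (by linarith)
  have hfn1 : ∀ p ∈ P, fn p ≤ 1 := by
    intro p hp
    unfold fn
    have := hp2 p hp
    rw [div_le_one (by linarith)]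
    linarith
  have hr0 : ∀ p ∈ P, 0 ≤ 1 / (p : ℝ) := fun p _ => by positivity
  have hrf : ∀ p ∈ P, 1 / (p : ℝ) ≤ fn p := by
    intro p hp
    unfold fn
    have := hp2 p hp
    exact one_div_le_one_div_of_le (by linarith) (by linarith)
  have hr1 : ∀ p ∈ P, 0 < 1 - 1 / (p : ℝ) := by
    intro p hp
    have := hp2 p hp
    have h1 : 1 / (p : ℝ) ≤ 1 / 2 := one_div_le_one_div_of_le (by norm_num) this
    linarith
  set Fp : ℝ := ∏ p ∈ P, (1 + fn p) with hFp
  set V : ℝ := ∏ p ∈ P, (1 - 1 / (p : ℝ)) with hV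
  obtain ⟨hFp1, hsum⟩ := WtZ_sum_le P fn hfn0
  rw [← hFp] at hFp1 hsum
  have hF1 : 1 ≤ F := hFp1.trans hF
  have hVpos : 0 < V := Finset.prod_pos hr1
  have hVF : V * Fp = 1 := by
    rw [hV, hFp, ← Finset.prod_mul_distrib]
    apply Finset.prod_eq_one
    intro p hp
    unfold fn
    have := hp2 p hp
    have h1 : (p : ℝ) - 1 ≠ 0 := by
      intro h
      linarith
    have h2 : (p : ℝ) ≠ 0 := by
      intro h
      linarith
    field_simp
    ring
  have hZ1 : 0 < Z - 1 := by linarith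
  have hS2 : ∑ p ∈ P, fn p ^ 2 ≤ F / (Z - 1) := by
    calc ∑ p ∈ P, fn p ^ 2 ≤ ∑ p ∈ P, fn p * (1 / (Z - 1)) := by
          apply Finset.sum_le_sum
          intro p hp
          rw [sq]
          apply mul_le_mul_of_nonneg_left _ (hfn0 p hp)
          unfold fn
          exact one_div_le_one_div_of_le hZ1 (by linarith [hP p hp])
      _ = (∑ p ∈ P, fn p) * (1 / (Z - 1)) := by rw [Finset.sum_mul]
      _ ≤ F * (1 / (Z - 1)) :=
          mul_le_mul_of_nonneg_right (hsum.trans hF) (by positivity)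
      _ = F / (Z - 1) := by ring
  have hg1 : ∀ p, g1 p = fn p := fun p => rfl
  refine ⟨hVpos, hF1, ?_, ?_, ?_⟩
  · unfold Vg
    apply Finset.prod_le_prod
    · intro p hp
      rw [hg1]
      linarith [hfn1 p hp]
    · intro p hp
      rw [hg1]
      linarith [hrf p hp]
  · have h1 : Vg g1 P = V * ∏ p ∈ P, (1 - fn p ^ 2) := by
      unfold Vg
      rw [hV, ← Finset.prod_mul_distrib]
      refine Finset.prod_congr rfl fun p hp => ?_
      rw [hg1]
      unfold fn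
      have := hp2 p hp
      have h1 : (p : ℝ) - 1 ≠ 0 := by
        intro h
        linarith
      have h2 : (p : ℝ) ≠ 0 := by
        intro h
        linarith
      field_simp
      ring
    rw [h1]
    apply mul_le_mul_of_nonneg_left _ hVpos.le
    have h2 := WtZ_prod_ge P (fun p => fn p ^ 2) (fun p hp => ⟨sq_nonneg _, by
      have h3 := hfn1 p hp
      have h4 := hfn0 p hp
      nlinarith⟩)
    linarith
  · intro c hc
    have h1 : |ev c P g1 - ev c P (fun p => 1 / (p : ℝ))| ≤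
        ∑ T ∈ P.powerset, (∏ p ∈ T, fn p - ∏ p ∈ T, 1 / (p : ℝ)) := by
      unfold ev
      rw [← Finset.sum_sub_distrib]
      refine (Finset.abs_sum_le_sum_abs _ _).trans ?_
      apply Finset.sum_le_sum
      intro T hT
      have hT' := mem_powerset.mp hT
      rw [← mul_sub, abs_mul]
      have h2 : ∏ p ∈ T, 1 / (p : ℝ) ≤ ∏ p ∈ T, fn p :=
        Finset.prod_le_prod (fun p hp => hr0 p (hT' hp)) (fun p hp => hrf p (hT' hp))
      have h3 : |∏ p ∈ T, g1 p - ∏ p ∈ T, 1 / (p : ℝ)| =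
          ∏ p ∈ T, fn p - ∏ p ∈ T, 1 / (p : ℝ) := by
        apply abs_of_nonneg
        have : ∏ p ∈ T, g1 p = ∏ p ∈ T, fn p := rfl
        rw [this]
        linarith
      rw [h3]
      calc |c T| * (∏ p ∈ T, fn p - ∏ p ∈ T, 1 / (p : ℝ)) ≤
            1 * (∏ p ∈ T, fn p - ∏ p ∈ T, 1 / (p : ℝ)) :=
            mul_le_mul_of_nonneg_right (hc T) (by linarith)
        _ = _ := one_mul _
    refine h1.trans ?_
    rw [Finset.sum_sub_distrib, ← Finset.prod_one_add, ← Finset.prod_one_add]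
    have h4 : ∏ p ∈ P, (1 + 1 / (p : ℝ)) = Fp * ∏ p ∈ P, (1 - (1 / (p : ℝ)) ^ 2) := by
      rw [hFp, ← Finset.prod_mul_distrib]
      refine Finset.prod_congr rfl fun p hp => ?_
      unfold fn
      have := hp2 p hp
      have h1 : (p : ℝ) - 1 ≠ 0 := by
        intro h
        linarith
      have h2 : (p : ℝ) ≠ 0 := by
        intro h
        linarith
      field_simp
      ring
    have h5 := WtZ_prod_ge P (fun p => (1 / (p : ℝ)) ^ 2) (fun p hp => ⟨sq_nonneg _, by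
      have h3 := hr1 p hp
      have h4 := hr0 p hp
      nlinarith⟩)
    have h6 : ∑ p ∈ P, (1 / (p : ℝ)) ^ 2 ≤ ∑ p ∈ P, fn p ^ 2 := by
      apply Finset.sum_le_sum
      intro p hp
      exact pow_le_pow_left₀ (hr0 p hp) (hrf p hp) 2
    have h7 : 1 - F / (Z - 1) ≤ ∏ p ∈ P, (1 - (1 / (p : ℝ)) ^ 2) := by linarith
    have hFp0 : 0 ≤ Fp := by linarith
    have h8 : Fp * (1 - F / (Z - 1)) ≤ ∏ p ∈ P, (1 + 1 / (p : ℝ)) := by
      rw [h4]
      exact mul_le_mul_of_nonneg_left h7 hFp0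
    have h9 : Fp * (F / (Z - 1)) = V * (Fp ^ 2 * F / (Z - 1)) := by
      have : V * (Fp ^ 2 * F / (Z - 1)) = (V * Fp) * (Fp * (F / (Z - 1))) := by ring
      rw [this, hVF, one_mul]
    have h10 : Fp ^ 2 * F / (Z - 1) ≤ F ^ 3 / (Z - 1) := by
      apply div_le_div_of_nonneg_right _ hZ1.le
      have h11 : Fp ^ 2 ≤ F ^ 2 := pow_le_pow_left₀ hFp0 hF 2
      calc Fp ^ 2 * F ≤ F ^ 2 * F := mul_le_mul_of_nonneg_right h11 (by linarith)
        _ = F ^ 3 := by ring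
    have h12 := mul_le_mul_of_nonneg_left h10 hVpos.le
    have h13 : Fp - ∏ p ∈ P, (1 + 1 / (p : ℝ)) ≤ Fp * (F / (Z - 1)) := by
      have : Fp * (1 - F / (Z - 1)) = Fp - Fp * (F / (Z - 1)) := by ring
      linarith
    linarith

private theorem WtZ_growth (K : ℝ) (N : ℕ) (hK : 0 ≤ K) : ∀ᶠ x : ℕ in atTop,
    K * Real.log x ^ N + 1 ≤ z0 x := by
  have hL : Tendsto (fun x : ℕ => Real.log (x : ℝ)) atTop atTop :=
    Real.tendsto_log_atTop.comp tendsto_natCast_atTop_atTop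
  have hl : Tendsto (fun x : ℕ => Real.log (Real.log (x : ℝ))) atTop atTop :=
    Real.tendsto_log_atTop.comp hL
  have hN : (0 : ℝ) < (N : ℝ) + 2 := by positivity
  have ho : ∀ᶠ L : ℝ in atTop, ‖Real.log L ^ 3‖ ≤ (1 / ((N : ℝ) + 2)) * ‖L‖ :=
    (Real.isLittleO_pow_log_id_atTop (n := 3)).def (by positivity)
  filter_upwards [hL.eventually ho, hL.eventually_ge_atTop (K + 1), hl.eventually_ge_atTop 1]
    with x h1 h2 h3
  set L : ℝ := Real.log x with hLdef
  set l : ℝ := Real.log L with hldef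
  have hL1 : 1 ≤ L := by linarith
  have hL0 : 0 < L := by linarith
  have hl2 : 0 < l ^ 2 := by positivity
  have h5 : l ^ 3 ≤ (1 / ((N : ℝ) + 2)) * L := by
    rw [Real.norm_of_nonneg (by positivity), Real.norm_of_nonneg hL0.le] at h1
    exact h1
  have h6 : ((N : ℝ) + 2) * l ≤ L / l ^ 2 := by
    rw [le_div_iff₀ hl2]
    have h7 : ((N : ℝ) + 2) * l ^ 3 ≤ L := by
      have := mul_le_mul_of_nonneg_left h5 hN.le
      have h8 : ((N : ℝ) + 2) * (1 / ((N : ℝ) + 2) * L) = L := by field_simp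
      linarith
    calc ((N : ℝ) + 2) * l * l ^ 2 = ((N : ℝ) + 2) * l ^ 3 := by ring
      _ ≤ L := h7
  have h9 : L ^ (N + 2) ≤ z0 x := by
    have h10 : z0 x = Real.exp (L / l ^ 2) := rfl
    rw [h10]
    calc L ^ (N + 2) = Real.exp (((N : ℝ) + 2) * l) := by
          have h11 : ((N : ℝ) + 2) * l = ((N + 2 : ℕ) : ℝ) * l := by push_cast; ring
          rw [h11, Real.exp_nat_mul, hldef, Real.exp_log hL0]
      _ ≤ Real.exp (L / l ^ 2) := Real.exp_le_exp.mpr h6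
  have h12 : (1 : ℝ) ≤ L ^ N := one_le_pow₀ hL1
  have h13 : L ^ (N + 2) = L ^ N * (L * L) := by ring
  have h14 : K + 1 ≤ L * L := by nlinarith
  have h15 : L ^ N * (K + 1) ≤ L ^ N * (L * L) := mul_le_mul_of_nonneg_left h14 (by positivity)
  linarith

private theorem WtZ_ev (K : ℝ) (hK : 0 ≤ K) (ε : ℝ) (hε : 0 < ε) :
    ∀ᶠ x : ℕ in atTop, 1 ≤ x ∧ Real.exp 2400 < z0 x ∧
      ∃ F : ℝ, (∀ P ⊆ PX x, ∏ p ∈ P, (1 + fn p) ≤ F) ∧ K * (F ^ 3 / (z0 x - 1)) ≤ ε := by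
  obtain ⟨B, hB⟩ := euler_pow 1 zero_le_one
  filter_upwards [hB, WtZ_growth (K / ε + Real.exp 2400 + 1) (3 * B) (by positivity),
    eventually_ge_atTop 3] with x h1 h2 h3
  have hx3 : (3 : ℝ) ≤ x := by exact_mod_cast h3
  have hlog : 1 ≤ Real.log x := by
    rw [← Real.log_exp 1]
    apply Real.log_le_log (Real.exp_pos 1)
    have := Real.exp_one_lt_d9
    linarith
  have hpow : 1 ≤ Real.log x ^ (3 * B) := one_le_pow₀ hlog
  have hKε : 0 ≤ K / ε := by positivity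
  have he : 0 < Real.exp 2400 := Real.exp_pos 2400
  have hz1 : (K / ε + Real.exp 2400 + 1) * Real.log x ^ (3 * B) + 1 ≤ z0 x := h2
  have hz2 : K / ε + Real.exp 2400 + 1 + 1 ≤ z0 x := by nlinarith
  refine ⟨by omega, by linarith, Real.log x ^ B, ?_, ?_⟩
  · intro P hP
    refine le_trans ?_ h1
    have hsub : P ⊆ (range (x + 1)).filter Nat.Prime := by
      intro p hp
      have h4 := hP hp
      unfold PX at h4
      rw [mem_filter] at h4
      rw [mem_filter]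
      exact ⟨h4.1, h4.2.1⟩
    have hf : ∀ p ∈ (range (x + 1)).filter Nat.Prime, 0 ≤ fn p := by
      intro p hp
      rw [mem_filter] at hp
      have h4 : (2 : ℝ) ≤ p := by exact_mod_cast hp.2.two_le
      unfold fn
      exact div_nonneg zero_le_one (by linarith)
    calc ∏ p ∈ P, (1 + fn p)
        ≤ ∏ p ∈ (range (x + 1)).filter Nat.Prime, (1 + fn p) := by
          rw [← Finset.prod_sdiff hsub]
          have h10 : 1 ≤ ∏ p ∈ (range (x + 1)).filter Nat.Prime \ P, (1 + fn p) :=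
            (WtZ_sum_le _ fn (fun p hp => hf p (mem_sdiff.mp hp).1)).1
          have h11 : 0 ≤ ∏ p ∈ P, (1 + fn p) :=
            Finset.prod_nonneg fun p hp => by linarith [hf p (hsub hp)]
          exact le_mul_of_one_le_left h11 h10
      _ = ∏ p ∈ (range (x + 1)).filter Nat.Prime, (1 + 1 * fn p) := by
          refine Finset.prod_congr rfl fun p _ => ?_
          rw [one_mul]
  · have h5 : (Real.log x ^ B) ^ 3 = Real.log x ^ (3 * B) := by
      rw [← pow_mul, mul_comm]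
    rw [h5, ← mul_div_assoc, div_le_iff₀ (by linarith)]
    have h6 : K = ε * (K / ε) := by field_simp
    have h7 : (K / ε) * Real.log x ^ (3 * B) ≤ z0 x - 1 := by
      have h8 : 0 ≤ (Real.exp 2400 + 1) * Real.log x ^ (3 * B) := by positivity
      have h9 : (K / ε + Real.exp 2400 + 1) * Real.log x ^ (3 * B) =
        (K / ε) * Real.log x ^ (3 * B) + (Real.exp 2400 + 1) * Real.log x ^ (3 * B) := by ring
      linarith
    calc K * Real.log x ^ (3 * B) = ε * ((K / ε) * Real.log x ^ (3 * B)) := by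
          rw [← mul_assoc, ← h6]
      _ ≤ ε * (z0 x - 1) := mul_le_mul_of_nonneg_left h7 hε.le

private theorem WtZ_sub (x : ℕ) (δ ζ : ℝ) : PZ x ζ \ PZ x δ ⊆ PX x := by
  intro p hp
  have h := (mem_sdiff.1 hp).1
  unfold PZ at h
  exact (mem_filter.1 h).1

private theorem WtZ_mem {x : ℕ} {δ ζ : ℝ} {p : ℕ} (hp : p ∈ PZ x ζ \ PZ x δ) :
    p.Prime ∧ z0 x < (p : ℝ) ∧ (p : ℝ) ≤ (x : ℝ) ^ ζ ∧ (x : ℝ) ^ δ < p := by
  obtain ⟨h1, h2⟩ := mem_sdiff.1 hp
  have h3 := WtZ_sub x δ ζ hp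
  unfold PZ at h1 h2
  rw [mem_filter] at h1
  have h4 : ¬ (p : ℝ) ≤ (x : ℝ) ^ δ := fun h => h2 (mem_filter.2 ⟨h3, h⟩)
  unfold PX at h3
  rw [mem_filter] at h3
  exact ⟨h3.2.1, h3.2.2, h1.2, not_le.1 h4⟩

private theorem WtZ_sup {P Z : Finset ℕ} (hPZ : P ⊆ Z) {c : Finset ℕ → ℝ}
    (hc : ∀ T, c T ≠ 0 → T ⊆ P) (y : ℕ → ℝ) : ev c Z y = ev c P y := by
  unfold ev
  symm
  refine Finset.sum_subset (Finset.powerset_mono.mpr hPZ) fun T _ hT => ?_
  rw [mem_powerset] at hT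
  by_cases h : c T = 0
  · rw [h, zero_mul]
  · exact absurd (hc T h) hT

open Classical in
private theorem WtZ_Vg (m : ℕ) (P : Finset ℕ) :
    ZO (fun p : ℕ => if p ∣ m then (1 : ℝ) else 0) ∧
      Vg (fun p : ℕ => if p ∣ m then (1 : ℝ) else 0) P =
        if ∀ p ∈ P, ¬ p ∣ m then 1 else 0 := by
  constructor
  · intro p
    show (if p ∣ m then (1 : ℝ) else 0) = 0 ∨ (if p ∣ m then (1 : ℝ) else 0) = 1
    split_ifs
    · right
      rfl
    · left
      rfl
  · unfold Vg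
    split_ifs with h1
    · apply Finset.prod_eq_one
      intro p hp
      show 1 - (if p ∣ m then (1 : ℝ) else 0) = 1
      rw [if_neg (h1 p hp), sub_zero]
    · push Not at h1
      obtain ⟨p, hp, hdvd⟩ := h1
      apply Finset.prod_eq_zero hp
      show 1 - (if p ∣ m then (1 : ℝ) else 0) = 0
      rw [if_pos hdvd, sub_self]

private theorem WtZ_exp {t : ℝ} (h0 : 0 ≤ t) (h1 : t ≤ 1 / 2) : Real.exp (-(2 * t)) ≤ 1 - t := by
  have h2 := Real.add_one_le_exp (2 * t)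
  have h3 : Real.exp (-(2 * t)) * Real.exp (2 * t) = 1 := by
    rw [← Real.exp_add, neg_add_cancel, Real.exp_zero]
  have h4 := Real.exp_pos (-(2 * t))
  have h5 : (1 : ℝ) ≤ (1 - t) * (2 * t + 1) := by nlinarith
  have h6 : (1 - t) * (2 * t + 1) ≤ (1 - t) * Real.exp (2 * t) :=
    mul_le_mul_of_nonneg_left h2 (by linarith)
  have h7 : Real.exp (-(2 * t)) * 1 ≤ Real.exp (-(2 * t)) * ((1 - t) * Real.exp (2 * t)) :=
    mul_le_mul_of_nonneg_left (h5.trans h6) h4.le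
  have h8 : Real.exp (-(2 * t)) * ((1 - t) * Real.exp (2 * t)) =
      (1 - t) * (Real.exp (-(2 * t)) * Real.exp (2 * t)) := by ring
  rw [h8, h3] at h7
  linarith

theorem V2_pos (δ ζ : ℝ) (hδ : 0 < δ) (hδζ : δ ≤ ζ) (hζ : ζ ≤ 1) : ∃ c : ℝ, 0 < c ∧ ∀ᶠ x : ℕ in atTop,
    c ≤ V2 x δ ζ ∧ V2 x δ ζ ≤ 1 ∧ V1 x δ * V2 x δ ζ = V1 x ζ := by
  refine ⟨Real.exp (-(2 * (Real.log (ζ / δ) + 1))), Real.exp_pos _, ?_⟩
  filter_upwards [mert_cell δ ζ 1 hδ hδζ hζ one_pos, eventually_ge_atTop 1] with x h1 hx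
  have hx1 : (1 : ℝ) ≤ x := by exact_mod_cast hx
  have hp2 : ∀ p ∈ PZ x ζ \ PZ x δ, (2 : ℝ) ≤ p := fun p hp => by
    exact_mod_cast (WtZ_mem hp).1.two_le
  have hsum : ∑ p ∈ PZ x ζ \ PZ x δ, 1 / (p : ℝ) ≤ Real.log (ζ / δ) + 1 := by
    refine le_trans ?_ h1
    have hsub : PZ x ζ \ PZ x δ ⊆
        (PX x).filter (fun p : ℕ => (x : ℝ) ^ δ < p ∧ (p : ℝ) ≤ (x : ℝ) ^ ζ) := by
      intro p hp
      exact mem_filter.2 ⟨WtZ_sub x δ ζ hp, (WtZ_mem hp).2.2.2, (WtZ_mem hp).2.2.1⟩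
    refine (Finset.sum_le_sum fun p hp => ?_ : ∑ p ∈ PZ x ζ \ PZ x δ, 1 / (p : ℝ) ≤
      ∑ p ∈ PZ x ζ \ PZ x δ, fn p).trans (Finset.sum_le_sum_of_subset_of_nonneg hsub ?_)
    · unfold fn
      have := hp2 p hp
      exact one_div_le_one_div_of_le (by linarith) (by linarith)
    · intro p hp _
      have h2 := (mem_filter.1 hp).1
      unfold PX at h2
      have h3 : (2 : ℝ) ≤ p := by exact_mod_cast (mem_filter.1 h2).2.1.two_le
      unfold fn
      exact div_nonneg zero_le_one (by linarith)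
  have hhalf : ∀ p ∈ PZ x ζ \ PZ x δ, 0 ≤ 1 / (p : ℝ) ∧ 1 / (p : ℝ) ≤ 1 / 2 := by
    intro p hp
    have := hp2 p hp
    exact ⟨by positivity, one_div_le_one_div_of_le (by norm_num) this⟩
  refine ⟨?_, ?_, ?_⟩
  · unfold V2
    calc Real.exp (-(2 * (Real.log (ζ / δ) + 1))) ≤
          Real.exp (∑ p ∈ PZ x ζ \ PZ x δ, -(2 * (1 / (p : ℝ)))) := by
          refine Real.exp_le_exp.2 ?_
          rw [Finset.sum_neg_distrib, ← Finset.mul_sum]
          linarith
      _ = ∏ p ∈ PZ x ζ \ PZ x δ, Real.exp (-(2 * (1 / (p : ℝ)))) := Real.exp_sum _ _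
      _ ≤ ∏ p ∈ PZ x ζ \ PZ x δ, (1 - 1 / (p : ℝ)) :=
          Finset.prod_le_prod (fun p _ => (Real.exp_pos _).le)
            (fun p hp => WtZ_exp (hhalf p hp).1 (hhalf p hp).2)
  · unfold V2
    exact Finset.prod_le_one (fun p hp => by linarith [(hhalf p hp).2])
      (fun p hp => by linarith [(hhalf p hp).1])
  · unfold V1 V2
    have hsub : PZ x δ ⊆ PZ x ζ := by
      intro p hp
      unfold PZ at hp ⊢
      rw [mem_filter] at hp ⊢
      exact ⟨hp.1, hp.2.trans (Real.rpow_le_rpow_of_exponent_le hx1 hδζ)⟩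
    rw [mul_comm]
    exact Finset.prod_sdiff hsub

theorem wzL (δ ζ s f ε : ℝ) (hδ : 0 < δ) (hδζ : δ ≤ ζ) (hζ : ζ ≤ 1) (hs : 0 ≤ s) (hf : 0 ≤ f) (hL : L2 s f) (hε : 0 < ε) :
    ∀ᶠ x : ℕ in atTop, ∃ c : Finset ℕ → ℝ, (∀ T, |c T| ≤ 1) ∧
      (∀ T, c T ≠ 0 → T ⊆ PZ x ζ \ PZ x δ ∧ ∏ p ∈ T, (p : ℝ) ≤ (x : ℝ) ^ (ζ * s)) ∧
      (∀ m, evD (PX x) c m ≤ if ∀ p ∈ PZ x ζ \ PZ x δ, ¬ p ∣ m then 1 else 0) ∧
      (f - ε) * V2 x δ ζ ≤ evM (PX x) c := by
  filter_upwards [WtZ_ev (f + 1) (by linarith) ε hε] with x hx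
  obtain ⟨hx1, hz, F, hF, hFε⟩ := hx
  have hx1' : (1 : ℝ) ≤ x := by exact_mod_cast hx1
  have hz1' : 1 < z0 x := by
    have : (1 : ℝ) < Real.exp 2400 := by
      rw [Real.one_lt_exp_iff]
      norm_num
    linarith
  have hζ0 : 0 < ζ := lt_of_lt_of_le hδ hδζ
  have hbig : BigP2 ((x : ℝ) ^ ζ) (PZ x ζ \ PZ x δ) := fun p hp =>
    ⟨(WtZ_mem hp).1, hz.trans (WtZ_mem hp).2.1, (WtZ_mem hp).2.2.1⟩
  obtain ⟨c, hc1, hc2, hc3⟩ := hL ((x : ℝ) ^ ζ) (Real.one_le_rpow hx1' hζ0.le) _ hbig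
  have hsup : ∀ T, c T ≠ 0 → T ⊆ PZ x ζ \ PZ x δ := fun T hT => (hc1.2 T hT).1
  refine ⟨c, hc1.1, ?_, ?_, ?_⟩
  · intro T hT
    obtain ⟨h1, h2⟩ := hc1.2 T hT
    rw [Real.rpow_mul (Nat.cast_nonneg x)]
    exact ⟨h1, h2⟩
  · intro m
    unfold evD
    rw [WtZ_sup (WtZ_sub x δ ζ) hsup]
    obtain ⟨h1, h2⟩ := WtZ_Vg m (PZ x ζ \ PZ x δ)
    have h3 := hc2 _ h1
    rw [h2] at h3
    refine h3.trans (le_of_eq ?_)
    split_ifs <;> rfl
  · have hzp : ∀ p ∈ PZ x ζ \ PZ x δ, z0 x ≤ (p : ℝ) := fun p hp => (WtZ_mem hp).2.1.le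
    obtain ⟨hV0, hF1, hV1, hV2, hV3⟩ := WtZ_dens (PZ x ζ \ PZ x δ) (z0 x) F hz1' hzp
      (fun p hp => (hbig p hp).1.two_le) (hF _ (WtZ_sub x δ ζ))
    have h4 := hV3 c hc1.1
    unfold evM
    rw [WtZ_sup (WtZ_sub x δ ζ) hsup]
    have hVV : V2 x δ ζ = ∏ p ∈ PZ x ζ \ PZ x δ, (1 - 1 / (p : ℝ)) := rfl
    rw [hVV]
    set V : ℝ := ∏ p ∈ PZ x ζ \ PZ x δ, (1 - 1 / (p : ℝ)) with hVdef
    have hz1 : 0 < z0 x - 1 := by linarith
    have h6 : F / (z0 x - 1) ≤ F ^ 3 / (z0 x - 1) := by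
      apply div_le_div_of_nonneg_right _ hz1.le
      nlinarith [mul_self_nonneg (F - 1)]
    have h7 : f * (V * (1 - F / (z0 x - 1))) ≤ f * Vg g1 (PZ x ζ \ PZ x δ) :=
      mul_le_mul_of_nonneg_left hV2 hf
    have h8 := abs_le.mp h4
    have h9 : f * (V * (F / (z0 x - 1))) ≤ f * (V * (F ^ 3 / (z0 x - 1))) :=
      mul_le_mul_of_nonneg_left (mul_le_mul_of_nonneg_left h6 hV0.le) hf
    have h10 : V * ((f + 1) * (F ^ 3 / (z0 x - 1))) ≤ V * ε :=
      mul_le_mul_of_nonneg_left hFε hV0.le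
    have h11 : f * (V * (1 - F / (z0 x - 1))) = f * V - f * (V * (F / (z0 x - 1))) := by ring
    have h12 : V * ((f + 1) * (F ^ 3 / (z0 x - 1))) =
      f * (V * (F ^ 3 / (z0 x - 1))) + V * (F ^ 3 / (z0 x - 1)) := by ring
    have h13 : (f - ε) * V = f * V - V * ε := by ring
    linarith [h8.2, hc3]

theorem wzU (δ ζ s F ε : ℝ) (hδ : 0 < δ) (hδζ : δ ≤ ζ) (hζ : ζ ≤ 1) (hs : 0 ≤ s) (hF : 0 ≤ F) (hU : U2 s F) (hε : 0 < ε) :
    ∀ᶠ x : ℕ in atTop, ∃ c : Finset ℕ → ℝ, (∀ T, |c T| ≤ 1) ∧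
      (∀ T, c T ≠ 0 → T ⊆ PZ x ζ \ PZ x δ ∧ ∏ p ∈ T, (p : ℝ) ≤ (x : ℝ) ^ (ζ * s)) ∧
      (∀ m, (if ∀ p ∈ PZ x ζ \ PZ x δ, ¬ p ∣ m then 1 else 0) ≤ evD (PX x) c m) ∧
      evM (PX x) c ≤ (F + ε) * V2 x δ ζ ∧ 0 ≤ evM (PX x) c := by
  filter_upwards [WtZ_ev 1 zero_le_one ε hε] with x hx
  obtain ⟨hx1, hz, G, hG, hGε⟩ := hx
  have hx1' : (1 : ℝ) ≤ x := by exact_mod_cast hx1
  have hz1' : 1 < z0 x := by
    have : (1 : ℝ) < Real.exp 2400 := by
      rw [Real.one_lt_exp_iff]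
      norm_num
    linarith
  have hζ0 : 0 < ζ := lt_of_lt_of_le hδ hδζ
  have hbig : BigP2 ((x : ℝ) ^ ζ) (PZ x ζ \ PZ x δ) := fun p hp =>
    ⟨(WtZ_mem hp).1, hz.trans (WtZ_mem hp).2.1, (WtZ_mem hp).2.2.1⟩
  obtain ⟨c, hc1, hc2, hc3⟩ := hU ((x : ℝ) ^ ζ) (Real.one_le_rpow hx1' hζ0.le) _ hbig
  have hsup : ∀ T, c T ≠ 0 → T ⊆ PZ x ζ \ PZ x δ := fun T hT => (hc1.2 T hT).1
  have hzp : ∀ p ∈ PZ x ζ \ PZ x δ, z0 x ≤ (p : ℝ) := fun p hp => (WtZ_mem hp).2.1.le
  obtain ⟨hV0, hF1, hV1, hV2, hV3⟩ := WtZ_dens (PZ x ζ \ PZ x δ) (z0 x) G hz1' hzp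
    (fun p hp => (hbig p hp).1.two_le) (hG _ (WtZ_sub x δ ζ))
  refine ⟨c, hc1.1, ?_, ?_, ?_, ?_⟩
  · intro T hT
    obtain ⟨h1, h2⟩ := hc1.2 T hT
    rw [Real.rpow_mul (Nat.cast_nonneg x)]
    exact ⟨h1, h2⟩
  · intro m
    unfold evD
    rw [WtZ_sup (WtZ_sub x δ ζ) hsup]
    obtain ⟨h1, h2⟩ := WtZ_Vg m (PZ x ζ \ PZ x δ)
    have h3 := hc2 _ h1
    rw [h2] at h3
    refine le_trans (le_of_eq ?_) h3
    split_ifs <;> rfl
  · have h4 := hV3 c hc1.1
    unfold evM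
    rw [WtZ_sup (WtZ_sub x δ ζ) hsup]
    have hVV : V2 x δ ζ = ∏ p ∈ PZ x ζ \ PZ x δ, (1 - 1 / (p : ℝ)) := rfl
    rw [hVV]
    set V : ℝ := ∏ p ∈ PZ x ζ \ PZ x δ, (1 - 1 / (p : ℝ)) with hVdef
    have h8 := abs_le.mp h4
    have h9 : F * Vg g1 (PZ x ζ \ PZ x δ) ≤ F * V := mul_le_mul_of_nonneg_left hV1 hF
    have h10 : V * (1 * (G ^ 3 / (z0 x - 1))) ≤ V * ε := mul_le_mul_of_nonneg_left hGε hV0.le
    rw [one_mul] at h10
    have h13 : (F + ε) * V = F * V + V * ε := by ring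
    linarith [h8.1, hc3]
  · unfold evM
    rw [WtZ_sup (WtZ_sub x δ ζ) hsup]
    apply WtZ_nonneg
    · intro y hy
      refine le_trans ?_ (hc2 y hy)
      unfold Vg
      apply Finset.prod_nonneg
      intro p _
      rcases hy p with h | h <;> rw [h] <;> norm_num
    · intro p hp
      have h2 : (2 : ℝ) ≤ p := by exact_mod_cast (hbig p hp).1.two_le
      refine ⟨by positivity, ?_⟩
      rw [div_le_one (by linarith)]
      linarith

end Pool.Agent.H36.IS2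

end

section

/-!
# ISP VR2: Mertens ratio for primes > e^2400 with the constant 1.0001

Copy of `V_ratio` (and `V2_ratio`, `V1_lower`, `V_pos`) of Pool/Agent/H91/PK/SvC.lean with 24 replaced by 2400 and 1.01 by 1.0001:
`mass_big` (valid for a ≥ e^24) gives for a ≥ e^2400: ∑_{a < p ≤ z} 1/(p-1) ≤ log(log z/log a) + 0.2296/log a ≤ log(log z/log a) + 0.0000957,
and ∑ g1² ≤ tiny, so ∏ (1 - g1)^{-1} ≤ (log z/log a) e^{0.0000958} ≤ 1.0001 log z/log a.
`BigP2 z P → BigP z P`.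
-/

set_option autoImplicit false

namespace Pool.Agent.H36.IS2

open Finset Filter Pool.Agent.H36.IS

open Pool.Agent.H91.PK (ev Vg ZO Wt Up Lo g1 BigP U1 L1)

private theorem VR2_exp : Real.exp 24 ≤ Real.exp 2400 := Real.exp_le_exp.mpr (by norm_num)

theorem BigP2.big {z : ℝ} {P : Finset ℕ} (h : BigP2 z P) : BigP z P := by
  intro p hp
  exact ⟨(h p hp).1, lt_of_le_of_lt VR2_exp (h p hp).2.1, (h p hp).2.2⟩

/-- lower bound for `Vg g1` -/
private theorem VR2_lower {a z : ℝ} (ha : Real.exp 2400 ≤ a) (haz : a ≤ z) (P : Finset ℕ)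
    (hP : ∀ p ∈ P, p.Prime ∧ a < p ∧ (p : ℝ) ≤ z) :
    Real.log a / Real.log z ≤ 1.0001 * Vg g1 P := by
  have h0 : 0 < a := (Real.exp_pos _).trans_le ha
  have hla : 2400 ≤ Real.log a := by
    rw [Real.le_log_iff_exp_le h0]
    exact ha
  have ha24 : Real.exp 24 ≤ a := VR2_exp.trans ha
  have hlz : Real.log a ≤ Real.log z := Real.log_le_log h0 haz
  have hm := Pool.Agent.H91.PK.SvC_mass ha24 haz P hP
  have hsq : ∑ p ∈ P, g1 p ^ 2 ≤ ∑ p ∈ P, 1 / (((p : ℝ) - 1) * ((p : ℝ) - 2)) := by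
    refine Finset.sum_le_sum fun p hp => ?_
    have hp1 : (10 : ℝ) ^ 10 < p :=
      lt_of_le_of_lt (Pool.Agent.H91.PK.SvC_exp24.trans ha24) (hP p hp).2.1
    have h2 : 0 < (p : ℝ) - 1 := by linarith
    have h3 : 0 < (p : ℝ) - 2 := by linarith
    unfold g1
    rw [div_pow, one_pow, pow_two]
    apply div_le_div_of_nonneg_left (by norm_num) (by positivity)
    nlinarith
  have hn := Pool.Agent.H91.PK.SvC_nonneg ha24 P (fun p hp => (hP p hp).2.1)
  have hV := Pool.Agent.H91.PK.SvC_prod g1 P (fun p hp => by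
    have := Pool.Agent.H91.PK.SvC_g1_lt (lt_of_le_of_lt ha24 (hP p hp).2.1)
    exact ⟨this.1.le, by linarith⟩)
  have h1 : Real.exp (-(Real.log (Real.log z / Real.log a) + 0.2296 / 2400)) ≤ Vg g1 P := by
    refine le_trans (Real.exp_le_exp.mpr ?_) hV
    have : (0.2296 : ℝ) / Real.log a ≤ 0.2296 / 2400 :=
      div_le_div_of_nonneg_left (by norm_num) (by norm_num) hla
    linarith
  rw [neg_add, Real.exp_add, Real.exp_neg, Real.exp_log (div_pos (by linarith) (by linarith)),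
    inv_div] at h1
  have h2 : (1 : ℝ) - 0.2296 / 2400 ≤ Real.exp (-(0.2296 / 2400)) := by
    have := Real.add_one_le_exp (-(0.2296 / 2400) : ℝ)
    linarith
  have h3 : 0 < Real.log a / Real.log z := div_pos (by linarith) (by linarith)
  nlinarith

theorem V_ratio2 {a z : ℝ} (ha : 1 < a) (haz : a ≤ z) (P : Finset ℕ) (hP : BigP2 z P) :
    Vg g1 (P.filter (fun p : ℕ => (p : ℝ) ≤ a)) ≤ 1.0001 * (Real.log z / Real.log a) * Vg g1 P := by
  have hla : 0 < Real.log a := Real.log_pos ha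
  have hlz : Real.log a ≤ Real.log z := Real.log_le_log (by linarith) haz
  have hza : 1 ≤ Real.log z / Real.log a := by
    rw [one_le_div hla]
    exact hlz
  by_cases hz : z ≤ Real.exp 2400
  · have hPe : P = ∅ := by
      rw [Finset.eq_empty_iff_forall_notMem]
      intro p hp
      have := hP p hp
      linarith [this.2.1, this.2.2]
    subst hPe
    simp only [Finset.filter_empty, Vg, Finset.prod_empty, mul_one]
    linarith
  · push Not at hz
    set a' := max a (Real.exp 2400) with ha'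
    have ha'z : a' ≤ z := max_le haz hz.le
    have ha'24 : Real.exp 2400 ≤ a' := le_max_right _ _
    have ha'pos : 0 < a' := (Real.exp_pos _).trans_le ha'24
    have hfil : P.filter (fun p : ℕ => (p : ℝ) ≤ a) = P.filter (fun p : ℕ => (p : ℝ) ≤ a') := by
      apply Finset.filter_congr
      intro p hp
      constructor
      · intro h
        exact h.trans (le_max_left _ _)
      · intro h
        rcases le_max_iff.mp h with h | h
        · exact h
        · exact absurd h (not_le.mpr (hP p hp).2.1)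
    rw [hfil]
    have hsplit : Vg g1 P = Vg g1 (P.filter (fun p : ℕ => (p : ℝ) ≤ a'))
        * Vg g1 (P.filter (fun p : ℕ => ¬ (p : ℝ) ≤ a')) := by
      unfold Vg
      rw [Finset.prod_filter_mul_prod_filter_not]
    have hlow := VR2_lower ha'24 ha'z (P.filter (fun p : ℕ => ¬ (p : ℝ) ≤ a')) (by
      intro p hp
      rw [Finset.mem_filter, not_le] at hp
      exact ⟨(hP p hp.1).1, hp.2, (hP p hp.1).2.2⟩)
    have hpos : 0 < Vg g1 (P.filter (fun p : ℕ => (p : ℝ) ≤ a')) := by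
      apply Pool.Agent.H91.PK.V_pos (z := z)
      intro p hp
      exact hP.big p (Finset.mem_filter.mp hp).1
    rw [hsplit]
    have hla' : Real.log a ≤ Real.log a' := Real.log_le_log (by linarith) (le_max_left _ _)
    have hlz0 : 0 < Real.log z := by linarith
    have hkey : 1 ≤ 1.0001 * (Real.log z / Real.log a) *
        Vg g1 (P.filter (fun p : ℕ => ¬ (p : ℝ) ≤ a')) := by
      have e1 : Real.log a / Real.log z ≤
          1.0001 * Vg g1 (P.filter (fun p : ℕ => ¬ (p : ℝ) ≤ a')) :=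
        (div_le_div_of_nonneg_right hla' hlz0.le).trans hlow
      have e2 : (Real.log z / Real.log a) * (Real.log a / Real.log z) = 1 := by
        field_simp
      calc (1 : ℝ) = (Real.log z / Real.log a) * (Real.log a / Real.log z) := e2.symm
        _ ≤ (Real.log z / Real.log a) *
            (1.0001 * Vg g1 (P.filter (fun p : ℕ => ¬ (p : ℝ) ≤ a'))) :=
          mul_le_mul_of_nonneg_left e1 (by linarith)
        _ = _ := by ring
    calc Vg g1 (P.filter (fun p : ℕ => (p : ℝ) ≤ a'))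
        = Vg g1 (P.filter (fun p : ℕ => (p : ℝ) ≤ a')) * 1 := (mul_one _).symm
      _ ≤ Vg g1 (P.filter (fun p : ℕ => (p : ℝ) ≤ a')) * (1.0001 * (Real.log z / Real.log a)
          * Vg g1 (P.filter (fun p : ℕ => ¬ (p : ℝ) ≤ a'))) :=
          mul_le_mul_of_nonneg_left hkey hpos.le
      _ = _ := by ring

end Pool.Agent.H36.IS2

end

section

/-!
# ISP StU2: the Buchstab step for the upper function (primes > e^2400)

Copy of `U1_step` (and the private lemmas) of Pool/Agent/H91/PK/SvT.lean with BigP, U1, L1, V_ratio, 1.01 replaced by BigP2, U2, L2,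
V_ratio2, 1.0001.  Also the trivial extension (copy of `U1_ext`), monotonicity, and `U1 s F → U2 s F`.
-/

set_option autoImplicit false

namespace Pool.Agent.H36.IS2

open Finset Filter Pool.Agent.H36.IS

open Pool.Agent.H91.PK (ev Vg ZO Wt Up Lo g1 BigP U1 L1)

open Pool.Agent.H91.PK (V_pos Lo_zero Up_buchstab sum_g_V)

theorem U2.mono {s s' F F' : ℝ} (h : U2 s F) (hs : s ≤ s') (hF : F ≤ F') : U2 s' F' := by
  intro z hz P hP
  exact (h z hz P hP).mono (Real.rpow_le_rpow_of_exponent_le hz hs)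
    (mul_le_mul_of_nonneg_right hF (V_pos hP.big).le)

theorem U2_of_U1 {s F : ℝ} (h : U1 s F) : U2 s F := by
  intro z hz P hP
  exact h z hz P hP.big

private theorem StU2_g1_nonneg {z : ℝ} {P : Finset ℕ} (hP : BigP2 z P) : ∀ p ∈ P, 0 ≤ g1 p := by
  intro p hp
  have h1 : (1 : ℝ) ≤ p := by exact_mod_cast (hP p hp).1.one_le
  unfold g1
  apply div_nonneg zero_le_one
  linarith

private theorem StU2_one {z : ℝ} {P : Finset ℕ} (hP : BigP2 z P) : ∀ p ∈ P, 1 ≤ p :=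
  fun p hp => (hP p hp).1.one_le

private theorem StU2_empty {P : Finset ℕ} (hP : BigP2 1 P) : P = ∅ := by
  rw [Finset.eq_empty_iff_forall_notMem]
  intro p hp
  obtain ⟨h1, h2, h3⟩ := hP p hp
  have h4 : (2 : ℝ) ≤ p := by exact_mod_cast h1.two_le
  linarith

private theorem StU2_filter_le {z a : ℝ} {P : Finset ℕ} (hP : BigP2 z P) :
    BigP2 a (P.filter (fun p : ℕ => (p : ℝ) ≤ a)) := by
  intro p hp
  rw [Finset.mem_filter] at hp
  exact ⟨(hP p hp.1).1, (hP p hp.1).2.1, hp.2⟩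

private theorem StU2_filter_lt {z : ℝ} {P : Finset ℕ} (hP : BigP2 z P) (q : ℕ) :
    BigP2 q (P.filter (fun p => p < q)) := by
  intro p hp
  rw [Finset.mem_filter] at hp
  exact ⟨(hP p hp.1).1, (hP p hp.1).2.1, by exact_mod_cast hp.2.le⟩

/-- the index of the interval containing `q` -/
private noncomputable def StU2_idx (n : ℕ) (a : ℕ → ℝ) (q : ℕ) : ℕ :=
  open Classical in ((range n).filter (fun j => a (j + 1) < (q : ℝ))).card

private theorem StU2_mono {n : ℕ} {a : ℕ → ℝ} (ha : ∀ i < n, a i ≤ a (i + 1)) :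
    ∀ i j, i ≤ j → j ≤ n → a i ≤ a j := by
  intro i j hij
  induction j, hij using Nat.le_induction with
  | base => intro _; exact le_rfl
  | succ j hj ih => intro h; exact (ih (by omega)).trans (ha j (by omega))

private theorem StU2_idx_eq {n : ℕ} {a : ℕ → ℝ} (ha : ∀ i < n, a i ≤ a (i + 1)) {q k : ℕ} (hk : k < n)
    (h1 : a k < (q : ℝ)) (h2 : (q : ℝ) ≤ a (k + 1)) : StU2_idx n a q = k := by
  classical
  unfold StU2_idx
  have : ((range n).filter (fun j => a (j + 1) < (q : ℝ))) = range k := by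
    ext j
    simp only [Finset.mem_filter, Finset.mem_range]
    constructor
    · rintro ⟨hj, hj2⟩
      by_contra hcon
      have := StU2_mono ha (k + 1) (j + 1) (by omega) (by omega)
      linarith
    · intro hj
      refine ⟨by omega, ?_⟩
      have := StU2_mono ha (j + 1) k (by omega) (by omega)
      linarith
  rw [this, Finset.card_range]

private theorem StU2_exists {n : ℕ} {a : ℕ → ℝ} {q : ℝ} (h1 : a 0 < q) (h2 : q ≤ a n) :
    ∃ k < n, a k < q ∧ q ≤ a (k + 1) := by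
  induction n with
  | zero => linarith
  | succ n ih =>
    rcases le_or_gt q (a n) with h | h
    · obtain ⟨k, hk, hk1, hk2⟩ := ih h
      exact ⟨k, by omega, hk1, hk2⟩
    · exact ⟨n, by omega, h, h2⟩

private theorem StU2_sum {n : ℕ} {a : ℕ → ℝ} (ha : ∀ i < n, a i ≤ a (i + 1)) (g : ℕ → ℝ) (P : Finset ℕ)
    (f : ℕ → ℝ) : ∀ k ≤ n,
    ∑ q ∈ P.filter (fun q : ℕ => a 0 < (q : ℝ) ∧ (q : ℝ) ≤ a k),
      g q * (f (StU2_idx n a q) * Vg g (P.filter (fun p => p < q))) =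
    ∑ i ∈ range k, f i * (Vg g (P.filter (fun p : ℕ => (p : ℝ) ≤ a i)) -
      Vg g (P.filter (fun p : ℕ => (p : ℝ) ≤ a (i + 1)))) := by
  intro k
  induction k with
  | zero =>
    intro _
    rw [Finset.range_zero, Finset.sum_empty]
    apply Finset.sum_eq_zero
    intro q hq
    rw [Finset.mem_filter] at hq
    linarith [hq.2.1, hq.2.2]
  | succ k ih =>
    intro hk
    rw [Finset.sum_range_succ, ← ih (by omega), ← sum_g_V P (ha k (by omega)), Finset.mul_sum]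
    have hsplit : P.filter (fun q : ℕ => a 0 < (q : ℝ) ∧ (q : ℝ) ≤ a (k + 1)) =
        P.filter (fun q : ℕ => a 0 < (q : ℝ) ∧ (q : ℝ) ≤ a k) ∪
        P.filter (fun q : ℕ => a k < (q : ℝ) ∧ (q : ℝ) ≤ a (k + 1)) := by
      ext q
      simp only [Finset.mem_filter, Finset.mem_union]
      have h0k := StU2_mono ha 0 k (by omega) (by omega)
      have hk1 := ha k (by omega)
      constructor
      · rintro ⟨h1, h2, h3⟩
        rcases le_or_gt (q : ℝ) (a k) with h | h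
        · exact Or.inl ⟨h1, h2, h⟩
        · exact Or.inr ⟨h1, h, h3⟩
      · rintro (⟨h1, h2, h3⟩ | ⟨h1, h2, h3⟩)
        · exact ⟨h1, h2, h3.trans hk1⟩
        · exact ⟨h1, lt_of_le_of_lt h0k h2, h3⟩
    have hdisj : Disjoint (P.filter (fun q : ℕ => a 0 < (q : ℝ) ∧ (q : ℝ) ≤ a k))
        (P.filter (fun q : ℕ => a k < (q : ℝ) ∧ (q : ℝ) ≤ a (k + 1))) := by
      rw [Finset.disjoint_left]
      intro q h1 h2
      rw [Finset.mem_filter] at h1 h2
      linarith [h1.2.2, h2.2.1]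
    rw [hsplit, Finset.sum_union hdisj]
    congr 1
    apply Finset.sum_congr rfl
    intro q hq
    rw [Finset.mem_filter] at hq
    rw [StU2_idx_eq ha (by omega : k < n) hq.2.1 hq.2.2]
    ring

private theorem StU2_abel (F₀ : ℝ) (f V : ℕ → ℝ) (k : ℕ) :
    F₀ * V 0 - ∑ i ∈ range (k + 1), f i * (V i - V (i + 1)) =
      (F₀ - f 0) * V 0 + ∑ i ∈ range k, (f i - f (i + 1)) * V (i + 1) + f k * V (k + 1) := by
  induction k with
  | zero => simp; ring
  | succ k ih =>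
    rw [Finset.sum_range_succ, Finset.sum_range_succ (fun i => (f i - f (i + 1)) * V (i + 1))]
    have : F₀ * V 0 - (∑ i ∈ range (k + 1), f i * (V i - V (i + 1)) +
        f (k + 1) * (V (k + 1) - V (k + 1 + 1))) =
        (F₀ * V 0 - ∑ i ∈ range (k + 1), f i * (V i - V (i + 1))) -
        f (k + 1) * (V (k + 1) - V (k + 1 + 1)) := by ring
    rw [this, ih]
    ring

private theorem StU2_anti {n : ℕ} {t : ℕ → ℝ} (ht : ∀ i < n, t (i + 1) < t i) :
    ∀ i ≤ n, t n ≤ t i := by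
  intro i hi
  induction n, hi using Nat.le_induction with
  | base => exact le_rfl
  | succ n hn ih =>
    exact (ht n (by omega)).le.trans (ih (fun j hj => ht j (by omega)))

/-- the nodes -/
private theorem StU2_nodes {n : ℕ} {t : ℕ → ℝ} (ht : ∀ i < n, t (i + 1) < t i) (ht0 : 0 < t n)
    {z : ℝ} (hz : 1 < z) :
    (∀ i ≤ n, 0 < t i) ∧ (∀ i ≤ n, 1 < z ^ (t n / t i) ∧ z ^ (t n / t i) ≤ z) ∧
    (∀ i < n, z ^ (t n / t i) ≤ z ^ (t n / t (i + 1))) ∧
    (∀ i ≤ n, (z ^ (t n / t i)) ^ (t i) = z ^ (t n)) ∧ z ^ (t n / t n) = z ∧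
    (∀ i ≤ n, Real.log z / Real.log (z ^ (t n / t i)) = t i / t n) := by
  have hpos : ∀ i ≤ n, 0 < t i := fun i hi => lt_of_lt_of_le ht0 (StU2_anti ht i hi)
  have hz0 : (0 : ℝ) < z := by linarith
  refine ⟨hpos, ?_, ?_, ?_, ?_, ?_⟩
  · intro i hi
    refine ⟨Real.one_lt_rpow hz (div_pos ht0 (hpos i hi)), ?_⟩
    have h1 : t n / t i ≤ 1 := (div_le_one (hpos i hi)).2 (StU2_anti ht i hi)
    calc z ^ (t n / t i) ≤ z ^ (1 : ℝ) := Real.rpow_le_rpow_of_exponent_le hz.le h1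
      _ = z := Real.rpow_one z
  · intro i hi
    apply Real.rpow_le_rpow_of_exponent_le hz.le
    exact div_le_div_of_nonneg_left ht0.le (hpos (i + 1) (by omega)) (ht i hi).le
  · intro i hi
    rw [← Real.rpow_mul hz0.le, div_mul_cancel₀ _ (hpos i hi).ne']
  · rw [div_self ht0.ne', Real.rpow_one]
  · intro i hi
    rw [Real.log_rpow hz0]
    have h1 : Real.log z ≠ 0 := (Real.log_pos hz).ne'
    have h2 := (hpos i hi).ne'
    have h3 := ht0.ne'
    field_simp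

private theorem StU2_levels {n : ℕ} {t : ℕ → ℝ} (ht : ∀ i < n, t (i + 1) < t i) (ht0 : 0 < t n)
    {z : ℝ} (hz : 1 < z) {q k : ℕ} (hk : k < n) (hq : 1 ≤ q)
    (h2 : (q : ℝ) ≤ z ^ (t n / t (k + 1))) : (q : ℝ) ^ (t (k + 1) - 1) ≤ z ^ (t n) / q := by
  obtain ⟨hpos, _, _, hD, _, _⟩ := StU2_nodes ht ht0 hz
  have hq0 : (0 : ℝ) < q := by exact_mod_cast hq
  rw [Real.rpow_sub hq0, Real.rpow_one]
  apply div_le_div_of_nonneg_right _ hq0.le
  rw [← hD (k + 1) (by omega)]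
  exact Real.rpow_le_rpow hq0.le h2 (hpos (k + 1) (by omega)).le

theorem U2_ext {t₀ s F₀ : ℝ} (hs : 0 < s) (hst : s ≤ t₀) (h0 : 0 ≤ F₀) (h : U2 t₀ F₀) :
    U2 s (1.0001 * F₀ * t₀ / s) := by
  intro z hz P hP
  have ht0 : 0 < t₀ := lt_of_lt_of_le hs hst
  rcases eq_or_lt_of_le hz with hz1 | hz1
  · subst hz1
    have hP0 := StU2_empty hP
    subst hP0
    have h1 := h 1 le_rfl ∅ hP
    rw [Real.one_rpow] at h1 ⊢
    refine h1.mono le_rfl (mul_le_mul_of_nonneg_right ?_ (V_pos hP.big).le)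
    rw [le_div_iff₀ hs]
    nlinarith [mul_le_mul_of_nonneg_left hst h0, mul_nonneg h0 ht0.le]
  · have hz0 : (0 : ℝ) < z := by linarith
    set a : ℝ := z ^ (s / t₀) with ha
    have ha1 : 1 < a := Real.one_lt_rpow hz1 (div_pos hs ht0)
    have haz : a ≤ z := by
      calc z ^ (s / t₀) ≤ z ^ (1 : ℝ) :=
            Real.rpow_le_rpow_of_exponent_le hz1.le ((div_le_one ht0).2 hst)
        _ = z := Real.rpow_one z
    have haD : a ^ t₀ = z ^ s := by
      rw [ha, ← Real.rpow_mul hz0.le, div_mul_cancel₀ _ ht0.ne']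
    have hP0 : Up g1 (P.filter (fun p : ℕ => (p : ℝ) ≤ a)) (z ^ s)
        (F₀ * Vg g1 (P.filter (fun p : ℕ => (p : ℝ) ≤ a))) := by
      have := h a ha1.le _ (StU2_filter_le hP)
      rwa [haD] at this
    have hB := Up_buchstab (g := g1) (P := P) (D := z ^ s)
      (M := F₀ * Vg g1 (P.filter (fun p : ℕ => (p : ℝ) ≤ a))) (w := a) (m := fun _ => 0)
      (StU2_g1_nonneg hP) (StU2_one hP) hP0 (fun q _ _ => Lo_zero _ _ _)
    refine hB.mono le_rfl ?_
    have hr := V_ratio2 ha1 haz P hP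
    have hlog : Real.log z / Real.log a = t₀ / s := by
      rw [ha, Real.log_rpow hz0]
      have h1 : Real.log z ≠ 0 := (Real.log_pos hz1).ne'
      have h2 := hs.ne'
      have h3 := ht0.ne'
      field_simp
    rw [hlog] at hr
    have hr2 := mul_le_mul_of_nonneg_left hr h0
    simp only [mul_zero, Finset.sum_const_zero, sub_zero]
    refine hr2.trans (le_of_eq ?_)
    ring

theorem U2_step {n : ℕ} {t : ℕ → ℝ} {F₀ : ℝ} {f : ℕ → ℝ} (hn : 1 ≤ n) (ht : ∀ i < n, t (i + 1) < t i)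
    (ht0 : 0 < t n) (hU : U2 (t 0) F₀) (hL : ∀ i < n, L2 (t (i + 1) - 1) (f i))
    (hf0 : f 0 ≤ F₀) (hf : ∀ i, i + 1 < n → f (i + 1) ≤ f i) :
    U2 (t n) (1.0001 / t n * ((F₀ - f 0) * t 0 + ∑ i ∈ range (n - 1), (f i - f (i + 1)) * t (i + 1))
      + f (n - 1)) := by
  intro z hz P hP
  obtain ⟨n, rfl⟩ : ∃ m, n = m + 1 := ⟨n - 1, by omega⟩
  simp only [Nat.add_sub_cancel]
  rcases eq_or_lt_of_le hz with hz1 | hz1
  · subst hz1
    have hP0 := StU2_empty hP
    subst hP0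
    have h1 := hU 1 le_rfl ∅ hP
    rw [Real.one_rpow] at h1 ⊢
    refine h1.mono le_rfl (mul_le_mul_of_nonneg_right ?_ (V_pos hP.big).le)
    have hanti := StU2_anti ht
    have e1 : (F₀ - f 0) * t (n + 1) ≤ (F₀ - f 0) * t 0 :=
      mul_le_mul_of_nonneg_left (hanti 0 (by omega)) (by linarith)
    have e2 : ∑ i ∈ range n, (f i - f (i + 1)) * t (n + 1) ≤
        ∑ i ∈ range n, (f i - f (i + 1)) * t (i + 1) := by
      apply Finset.sum_le_sum
      intro i hi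
      rw [Finset.mem_range] at hi
      exact mul_le_mul_of_nonneg_left (hanti (i + 1) (by omega)) (by linarith [hf i (by omega)])
    rw [← Finset.sum_mul, Finset.sum_range_sub'] at e2
    have e3 : (F₀ - f n) * t (n + 1) ≤ (F₀ - f 0) * t 0 +
        ∑ i ∈ range n, (f i - f (i + 1)) * t (i + 1) := by nlinarith
    have hfn : f n ≤ f 0 := by
      have : ∀ k ≤ n, f k ≤ f 0 := by
        intro k
        induction k with
        | zero => intro _; exact le_rfl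
        | succ k ih => intro hk; exact (hf k (by omega)).trans (ih (by omega))
      exact this n le_rfl
    have e4 : 0 ≤ (F₀ - f n) * t (n + 1) := mul_nonneg (by linarith) ht0.le
    have e5 : F₀ - f n ≤ 1.0001 / t (n + 1) * ((F₀ - f 0) * t 0 +
        ∑ i ∈ range n, (f i - f (i + 1)) * t (i + 1)) := by
      rw [div_mul_eq_mul_div, le_div_iff₀ ht0]
      nlinarith
    linarith
  · obtain ⟨hpos, ha1, hamono, hD, han, hlog⟩ := StU2_nodes ht ht0 hz1
    set a : ℕ → ℝ := fun i => z ^ (t (n + 1) / t i) with ha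
    have hamono' : ∀ i < n + 1, a i ≤ a (i + 1) := hamono
    set V : ℕ → ℝ := fun i => Vg g1 (P.filter (fun p : ℕ => (p : ℝ) ≤ a i)) with hV
    have hP0 : Up g1 (P.filter (fun p : ℕ => (p : ℝ) ≤ a 0)) (z ^ (t (n + 1))) (F₀ * V 0) := by
      have := hU (a 0) (ha1 0 (by omega)).1.le _ (StU2_filter_le hP)
      rwa [hD 0 (by omega)] at this
    have hB := Up_buchstab (g := g1) (P := P) (D := z ^ (t (n + 1))) (M := F₀ * V 0) (w := a 0)
      (m := fun q => f (StU2_idx (n + 1) a q) * Vg g1 (P.filter (fun p => p < q)))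
      (StU2_g1_nonneg hP) (StU2_one hP) hP0 (by
        intro q hq hq0
        have hqz : (q : ℝ) ≤ a (n + 1) := by
          show (q : ℝ) ≤ z ^ (t (n + 1) / t (n + 1))
          rw [han]; exact (hP q hq).2.2
        obtain ⟨k, hk, hk1, hk2⟩ := StU2_exists hq0 hqz
        show Lo g1 _ _ (f (StU2_idx (n + 1) a q) * _)
        rw [StU2_idx_eq hamono' hk hk1 hk2]
        have hq1 := StU2_one hP q hq
        exact (hL k hk q (by exact_mod_cast hq1) _ (StU2_filter_lt hP q)).mono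
          (StU2_levels ht ht0 hz1 hk hq1 hk2) le_rfl)
    have hsum := StU2_sum hamono' g1 P f (n + 1) le_rfl
    have hfe : P.filter (fun q : ℕ => a 0 < (q : ℝ) ∧ (q : ℝ) ≤ a (n + 1)) =
        P.filter (fun q : ℕ => a 0 < (q : ℝ)) := by
      apply Finset.filter_congr
      intro q hq
      have hqz : (q : ℝ) ≤ a (n + 1) := by
        show (q : ℝ) ≤ z ^ (t (n + 1) / t (n + 1))
        rw [han]; exact (hP q hq).2.2
      exact ⟨fun h => h.1, fun h => ⟨h, hqz⟩⟩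
    rw [hfe] at hsum
    refine hB.mono le_rfl ?_
    rw [hsum]
    have hab := StU2_abel F₀ f V n
    have hab' : F₀ * V 0 - ∑ i ∈ range (n + 1), f i *
        (Vg g1 (P.filter (fun p : ℕ => (p : ℝ) ≤ a i)) -
          Vg g1 (P.filter (fun p : ℕ => (p : ℝ) ≤ a (i + 1)))) =
        (F₀ - f 0) * V 0 + ∑ i ∈ range n, (f i - f (i + 1)) * V (i + 1) + f n * V (n + 1) := hab
    rw [hab']
    have hVn : V (n + 1) = Vg g1 P := by
      show Vg g1 (P.filter (fun p : ℕ => (p : ℝ) ≤ a (n + 1))) = _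
      congr 1
      apply Finset.filter_true_of_mem
      intro q hq
      show (q : ℝ) ≤ z ^ (t (n + 1) / t (n + 1))
      rw [han]; exact (hP q hq).2.2
    have hVr : ∀ i ≤ n + 1, V i ≤ 1.0001 / t (n + 1) * t i * Vg g1 P := by
      intro i hi
      have := V_ratio2 (ha1 i hi).1 (ha1 i hi).2 P hP
      rw [hlog i hi] at this
      refine this.trans (le_of_eq ?_)
      ring
    have k0 : (F₀ - f 0) * V 0 ≤ (F₀ - f 0) * (1.0001 / t (n + 1) * t 0 * Vg g1 P) :=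
      mul_le_mul_of_nonneg_left (hVr 0 (by omega)) (by linarith)
    have k1 : ∑ i ∈ range n, (f i - f (i + 1)) * V (i + 1) ≤
        ∑ i ∈ range n, (f i - f (i + 1)) * (1.0001 / t (n + 1) * t (i + 1) * Vg g1 P) := by
      apply Finset.sum_le_sum
      intro i hi
      rw [Finset.mem_range] at hi
      exact mul_le_mul_of_nonneg_left (hVr (i + 1) (by omega)) (by linarith [hf i (by omega)])
    have k2 : ∑ i ∈ range n, (f i - f (i + 1)) * (1.0001 / t (n + 1) * t (i + 1) * Vg g1 P) =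
        1.0001 / t (n + 1) * (∑ i ∈ range n, (f i - f (i + 1)) * t (i + 1)) * Vg g1 P := by
      rw [Finset.mul_sum, Finset.sum_mul]
      exact Finset.sum_congr rfl (fun i _ => by ring)
    rw [hVn]
    rw [k2] at k1
    nlinarith [k0, k1]

end Pool.Agent.H36.IS2

end

section

/-!
# ISP StL2: the Buchstab step for the lower function (primes > e^2400)

Copy of `L1_step` (and the private lemmas, `L1.mono`, `L1_zero`) of Pool/Agent/H91/PK/SvT.lean with BigP, U1, L1, V_ratio, 1.01 replaced by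
BigP2, U2, L2, V_ratio2, 1.0001.
-/

set_option autoImplicit false

namespace Pool.Agent.H36.IS2

open Finset Filter Pool.Agent.H36.IS

open Pool.Agent.H91.PK (ev Vg ZO Wt Up Lo g1 BigP U1 L1)

open Pool.Agent.H91.PK (V_pos Lo_zero Lo_buchstab sum_g_V)

theorem L2.mono {s s' f f' : ℝ} (h : L2 s f) (hs : s ≤ s') (hf : f' ≤ f) : L2 s' f' := by
  intro z hz P hP
  exact (h z hz P hP).mono (Real.rpow_le_rpow_of_exponent_le hz hs)
    (mul_le_mul_of_nonneg_right hf (V_pos hP.big).le)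

theorem L2_zero (s : ℝ) : L2 s 0 := by
  intro z hz P hP
  rw [zero_mul]
  exact Lo_zero _ _ _

theorem L2_of_L1 {s f : ℝ} (h : L1 s f) : L2 s f := fun z hz P hP => h z hz P hP.big

private theorem StL2_g1_nonneg {z : ℝ} {P : Finset ℕ} (hP : BigP2 z P) : ∀ p ∈ P, 0 ≤ g1 p := by
  intro p hp
  have h1 : (1 : ℝ) ≤ p := by exact_mod_cast (hP p hp).1.one_le
  unfold g1
  apply div_nonneg zero_le_one
  linarith

private theorem StL2_one {z : ℝ} {P : Finset ℕ} (hP : BigP2 z P) : ∀ p ∈ P, 1 ≤ p :=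
  fun p hp => (hP p hp).1.one_le

private theorem StL2_empty {P : Finset ℕ} (hP : BigP2 1 P) : P = ∅ := by
  rw [Finset.eq_empty_iff_forall_notMem]
  intro p hp
  obtain ⟨h1, h2, h3⟩ := hP p hp
  have h4 : (2 : ℝ) ≤ p := by exact_mod_cast h1.two_le
  linarith

private theorem StL2_filter_le {z a : ℝ} {P : Finset ℕ} (hP : BigP2 z P) :
    BigP2 a (P.filter (fun p : ℕ => (p : ℝ) ≤ a)) := by
  intro p hp
  rw [Finset.mem_filter] at hp
  exact ⟨(hP p hp.1).1, (hP p hp.1).2.1, hp.2⟩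

private theorem StL2_filter_lt {z : ℝ} {P : Finset ℕ} (hP : BigP2 z P) (q : ℕ) :
    BigP2 q (P.filter (fun p => p < q)) := by
  intro p hp
  rw [Finset.mem_filter] at hp
  exact ⟨(hP p hp.1).1, (hP p hp.1).2.1, by exact_mod_cast hp.2.le⟩

/-- the index of the interval containing `q` -/
private noncomputable def StL2_idx (n : ℕ) (a : ℕ → ℝ) (q : ℕ) : ℕ :=
  open Classical in ((range n).filter (fun j => a (j + 1) < (q : ℝ))).card

private theorem StL2_mono {n : ℕ} {a : ℕ → ℝ} (ha : ∀ i < n, a i ≤ a (i + 1)) :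
    ∀ i j, i ≤ j → j ≤ n → a i ≤ a j := by
  intro i j hij
  induction j, hij using Nat.le_induction with
  | base => intro _; exact le_rfl
  | succ j hj ih => intro h; exact (ih (by omega)).trans (ha j (by omega))

private theorem StL2_idx_eq {n : ℕ} {a : ℕ → ℝ} (ha : ∀ i < n, a i ≤ a (i + 1)) {q k : ℕ} (hk : k < n)
    (h1 : a k < (q : ℝ)) (h2 : (q : ℝ) ≤ a (k + 1)) : StL2_idx n a q = k := by
  classical
  unfold StL2_idx
  have : ((range n).filter (fun j => a (j + 1) < (q : ℝ))) = range k := by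
    ext j
    simp only [Finset.mem_filter, Finset.mem_range]
    constructor
    · rintro ⟨hj, hj2⟩
      by_contra hcon
      have := StL2_mono ha (k + 1) (j + 1) (by omega) (by omega)
      linarith
    · intro hj
      refine ⟨by omega, ?_⟩
      have := StL2_mono ha (j + 1) k (by omega) (by omega)
      linarith
  rw [this, Finset.card_range]

private theorem StL2_exists {n : ℕ} {a : ℕ → ℝ} {q : ℝ} (h1 : a 0 < q) (h2 : q ≤ a n) :
    ∃ k < n, a k < q ∧ q ≤ a (k + 1) := by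
  induction n with
  | zero => linarith
  | succ n ih =>
    rcases le_or_gt q (a n) with h | h
    · obtain ⟨k, hk, hk1, hk2⟩ := ih h
      exact ⟨k, by omega, hk1, hk2⟩
    · exact ⟨n, by omega, h, h2⟩

private theorem StL2_sum {n : ℕ} {a : ℕ → ℝ} (ha : ∀ i < n, a i ≤ a (i + 1)) (g : ℕ → ℝ) (P : Finset ℕ)
    (f : ℕ → ℝ) : ∀ k ≤ n,
    ∑ q ∈ P.filter (fun q : ℕ => a 0 < (q : ℝ) ∧ (q : ℝ) ≤ a k),
      g q * (f (StL2_idx n a q) * Vg g (P.filter (fun p => p < q))) =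
    ∑ i ∈ range k, f i * (Vg g (P.filter (fun p : ℕ => (p : ℝ) ≤ a i)) -
      Vg g (P.filter (fun p : ℕ => (p : ℝ) ≤ a (i + 1)))) := by
  intro k
  induction k with
  | zero =>
    intro _
    rw [Finset.range_zero, Finset.sum_empty]
    apply Finset.sum_eq_zero
    intro q hq
    rw [Finset.mem_filter] at hq
    linarith [hq.2.1, hq.2.2]
  | succ k ih =>
    intro hk
    rw [Finset.sum_range_succ, ← ih (by omega), ← sum_g_V P (ha k (by omega)), Finset.mul_sum]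
    have hsplit : P.filter (fun q : ℕ => a 0 < (q : ℝ) ∧ (q : ℝ) ≤ a (k + 1)) =
        P.filter (fun q : ℕ => a 0 < (q : ℝ) ∧ (q : ℝ) ≤ a k) ∪
        P.filter (fun q : ℕ => a k < (q : ℝ) ∧ (q : ℝ) ≤ a (k + 1)) := by
      ext q
      simp only [Finset.mem_filter, Finset.mem_union]
      have h0k := StL2_mono ha 0 k (by omega) (by omega)
      have hk1 := ha k (by omega)
      constructor
      · rintro ⟨h1, h2, h3⟩
        rcases le_or_gt (q : ℝ) (a k) with h | h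
        · exact Or.inl ⟨h1, h2, h⟩
        · exact Or.inr ⟨h1, h, h3⟩
      · rintro (⟨h1, h2, h3⟩ | ⟨h1, h2, h3⟩)
        · exact ⟨h1, h2, h3.trans hk1⟩
        · exact ⟨h1, lt_of_le_of_lt h0k h2, h3⟩
    have hdisj : Disjoint (P.filter (fun q : ℕ => a 0 < (q : ℝ) ∧ (q : ℝ) ≤ a k))
        (P.filter (fun q : ℕ => a k < (q : ℝ) ∧ (q : ℝ) ≤ a (k + 1))) := by
      rw [Finset.disjoint_left]
      intro q h1 h2
      rw [Finset.mem_filter] at h1 h2
      linarith [h1.2.2, h2.2.1]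
    rw [hsplit, Finset.sum_union hdisj]
    congr 1
    apply Finset.sum_congr rfl
    intro q hq
    rw [Finset.mem_filter] at hq
    rw [StL2_idx_eq ha (by omega : k < n) hq.2.1 hq.2.2]
    ring

private theorem StL2_abel (F₀ : ℝ) (f V : ℕ → ℝ) (k : ℕ) :
    F₀ * V 0 - ∑ i ∈ range (k + 1), f i * (V i - V (i + 1)) =
      (F₀ - f 0) * V 0 + ∑ i ∈ range k, (f i - f (i + 1)) * V (i + 1) + f k * V (k + 1) := by
  induction k with
  | zero => simp; ring
  | succ k ih =>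
    rw [Finset.sum_range_succ, Finset.sum_range_succ (fun i => (f i - f (i + 1)) * V (i + 1))]
    have : F₀ * V 0 - (∑ i ∈ range (k + 1), f i * (V i - V (i + 1)) +
        f (k + 1) * (V (k + 1) - V (k + 1 + 1))) =
        (F₀ * V 0 - ∑ i ∈ range (k + 1), f i * (V i - V (i + 1))) -
        f (k + 1) * (V (k + 1) - V (k + 1 + 1)) := by ring
    rw [this, ih]
    ring

private theorem StL2_anti {n : ℕ} {t : ℕ → ℝ} (ht : ∀ i < n, t (i + 1) < t i) :
    ∀ i ≤ n, t n ≤ t i := by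
  intro i hi
  induction n, hi using Nat.le_induction with
  | base => exact le_rfl
  | succ n hn ih =>
    exact (ht n (by omega)).le.trans (ih (fun j hj => ht j (by omega)))

/-- the nodes -/
private theorem StL2_nodes {n : ℕ} {t : ℕ → ℝ} (ht : ∀ i < n, t (i + 1) < t i) (ht0 : 0 < t n)
    {z : ℝ} (hz : 1 < z) :
    (∀ i ≤ n, 0 < t i) ∧ (∀ i ≤ n, 1 < z ^ (t n / t i) ∧ z ^ (t n / t i) ≤ z) ∧
    (∀ i < n, z ^ (t n / t i) ≤ z ^ (t n / t (i + 1))) ∧
    (∀ i ≤ n, (z ^ (t n / t i)) ^ (t i) = z ^ (t n)) ∧ z ^ (t n / t n) = z ∧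
    (∀ i ≤ n, Real.log z / Real.log (z ^ (t n / t i)) = t i / t n) := by
  have hpos : ∀ i ≤ n, 0 < t i := fun i hi => lt_of_lt_of_le ht0 (StL2_anti ht i hi)
  have hz0 : (0 : ℝ) < z := by linarith
  refine ⟨hpos, ?_, ?_, ?_, ?_, ?_⟩
  · intro i hi
    refine ⟨Real.one_lt_rpow hz (div_pos ht0 (hpos i hi)), ?_⟩
    have h1 : t n / t i ≤ 1 := (div_le_one (hpos i hi)).2 (StL2_anti ht i hi)
    calc z ^ (t n / t i) ≤ z ^ (1 : ℝ) := Real.rpow_le_rpow_of_exponent_le hz.le h1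
      _ = z := Real.rpow_one z
  · intro i hi
    apply Real.rpow_le_rpow_of_exponent_le hz.le
    exact div_le_div_of_nonneg_left ht0.le (hpos (i + 1) (by omega)) (ht i hi).le
  · intro i hi
    rw [← Real.rpow_mul hz0.le, div_mul_cancel₀ _ (hpos i hi).ne']
  · rw [div_self ht0.ne', Real.rpow_one]
  · intro i hi
    rw [Real.log_rpow hz0]
    have h1 : Real.log z ≠ 0 := (Real.log_pos hz).ne'
    have h2 := (hpos i hi).ne'
    have h3 := ht0.ne'
    field_simp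

private theorem StL2_levels {n : ℕ} {t : ℕ → ℝ} (ht : ∀ i < n, t (i + 1) < t i) (ht0 : 0 < t n)
    {z : ℝ} (hz : 1 < z) {q k : ℕ} (hk : k < n) (hq : 1 ≤ q)
    (h2 : (q : ℝ) ≤ z ^ (t n / t (k + 1))) : (q : ℝ) ^ (t (k + 1) - 1) ≤ z ^ (t n) / q := by
  obtain ⟨hpos, _, _, hD, _, _⟩ := StL2_nodes ht ht0 hz
  have hq0 : (0 : ℝ) < q := by exact_mod_cast hq
  rw [Real.rpow_sub hq0, Real.rpow_one]
  apply div_le_div_of_nonneg_right _ hq0.le
  rw [← hD (k + 1) (by omega)]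
  exact Real.rpow_le_rpow hq0.le h2 (hpos (k + 1) (by omega)).le

theorem L2_step {n : ℕ} {t : ℕ → ℝ} {f₀ : ℝ} {F : ℕ → ℝ} (hn : 1 ≤ n) (ht : ∀ i < n, t (i + 1) < t i)
    (ht0 : 0 < t n) (hL : L2 (t 0) f₀) (hU : ∀ i < n, U2 (t (i + 1) - 1) (F i))
    (hf0 : f₀ ≤ F 0) (hF : ∀ i, i + 1 < n → F i ≤ F (i + 1)) :
    L2 (t n) (F (n - 1) - 1.0001 / t n * ((F 0 - f₀) * t 0 + ∑ i ∈ range (n - 1), (F (i + 1) - F i) * t (i + 1))) := by
  intro z hz P hP
  obtain ⟨n, rfl⟩ : ∃ m, n = m + 1 := ⟨n - 1, by omega⟩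
  simp only [Nat.add_sub_cancel]
  rcases eq_or_lt_of_le hz with hz1 | hz1
  · subst hz1
    have hP0 := StL2_empty hP
    subst hP0
    have h1 := hL 1 le_rfl ∅ hP
    rw [Real.one_rpow] at h1 ⊢
    refine h1.mono le_rfl (mul_le_mul_of_nonneg_right ?_ (V_pos hP.big).le)
    have hanti := StL2_anti ht
    have e1 : (F 0 - f₀) * t (n + 1) ≤ (F 0 - f₀) * t 0 :=
      mul_le_mul_of_nonneg_left (hanti 0 (by omega)) (by linarith)
    have e2 : ∑ i ∈ range n, (F (i + 1) - F i) * t (n + 1) ≤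
        ∑ i ∈ range n, (F (i + 1) - F i) * t (i + 1) := by
      apply Finset.sum_le_sum
      intro i hi
      rw [Finset.mem_range] at hi
      exact mul_le_mul_of_nonneg_left (hanti (i + 1) (by omega)) (by linarith [hF i (by omega)])
    rw [← Finset.sum_mul, Finset.sum_range_sub] at e2
    have e3 : (F n - f₀) * t (n + 1) ≤ (F 0 - f₀) * t 0 +
        ∑ i ∈ range n, (F (i + 1) - F i) * t (i + 1) := by nlinarith
    have hfn : F 0 ≤ F n := by
      have : ∀ k ≤ n, F 0 ≤ F k := by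
        intro k
        induction k with
        | zero => intro _; exact le_rfl
        | succ k ih => intro hk; exact (ih (by omega)).trans (hF k (by omega))
      exact this n le_rfl
    have e4 : 0 ≤ (F n - f₀) * t (n + 1) := mul_nonneg (by linarith) ht0.le
    have e5 : F n - f₀ ≤ 1.0001 / t (n + 1) * ((F 0 - f₀) * t 0 +
        ∑ i ∈ range n, (F (i + 1) - F i) * t (i + 1)) := by
      rw [div_mul_eq_mul_div, le_div_iff₀ ht0]
      nlinarith
    linarith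
  · obtain ⟨hpos, ha1, hamono, hD, han, hlog⟩ := StL2_nodes ht ht0 hz1
    set a : ℕ → ℝ := fun i => z ^ (t (n + 1) / t i) with ha
    have hamono' : ∀ i < n + 1, a i ≤ a (i + 1) := hamono
    set V : ℕ → ℝ := fun i => Vg g1 (P.filter (fun p : ℕ => (p : ℝ) ≤ a i)) with hV
    have hP0 : Lo g1 (P.filter (fun p : ℕ => (p : ℝ) ≤ a 0)) (z ^ (t (n + 1))) (f₀ * V 0) := by
      have := hL (a 0) (ha1 0 (by omega)).1.le _ (StL2_filter_le hP)
      rwa [hD 0 (by omega)] at this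
    have hB := Lo_buchstab (g := g1) (P := P) (D := z ^ (t (n + 1))) (M := f₀ * V 0) (w := a 0)
      (m := fun q => F (StL2_idx (n + 1) a q) * Vg g1 (P.filter (fun p => p < q)))
      (StL2_g1_nonneg hP) (StL2_one hP) hP0 (by
        intro q hq hq0
        have hqz : (q : ℝ) ≤ a (n + 1) := by
          show (q : ℝ) ≤ z ^ (t (n + 1) / t (n + 1))
          rw [han]; exact (hP q hq).2.2
        obtain ⟨k, hk, hk1, hk2⟩ := StL2_exists hq0 hqz
        show Up g1 _ _ (F (StL2_idx (n + 1) a q) * _)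
        rw [StL2_idx_eq hamono' hk hk1 hk2]
        have hq1 := StL2_one hP q hq
        exact (hU k hk q (by exact_mod_cast hq1) _ (StL2_filter_lt hP q)).mono
          (StL2_levels ht ht0 hz1 hk hq1 hk2) le_rfl)
    have hsum := StL2_sum hamono' g1 P F (n + 1) le_rfl
    have hfe : P.filter (fun q : ℕ => a 0 < (q : ℝ) ∧ (q : ℝ) ≤ a (n + 1)) =
        P.filter (fun q : ℕ => a 0 < (q : ℝ)) := by
      apply Finset.filter_congr
      intro q hq
      have hqz : (q : ℝ) ≤ a (n + 1) := by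
        show (q : ℝ) ≤ z ^ (t (n + 1) / t (n + 1))
        rw [han]; exact (hP q hq).2.2
      exact ⟨fun h => h.1, fun h => ⟨h, hqz⟩⟩
    rw [hfe] at hsum
    refine hB.mono le_rfl ?_
    rw [hsum]
    have hab := StL2_abel f₀ F V n
    have hab' : f₀ * V 0 - ∑ i ∈ range (n + 1), F i *
        (Vg g1 (P.filter (fun p : ℕ => (p : ℝ) ≤ a i)) -
          Vg g1 (P.filter (fun p : ℕ => (p : ℝ) ≤ a (i + 1)))) =
        (f₀ - F 0) * V 0 + ∑ i ∈ range n, (F i - F (i + 1)) * V (i + 1) + F n * V (n + 1) := hab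
    rw [hab']
    have hVn : V (n + 1) = Vg g1 P := by
      show Vg g1 (P.filter (fun p : ℕ => (p : ℝ) ≤ a (n + 1))) = _
      congr 1
      apply Finset.filter_true_of_mem
      intro q hq
      show (q : ℝ) ≤ z ^ (t (n + 1) / t (n + 1))
      rw [han]; exact (hP q hq).2.2
    have hVr : ∀ i ≤ n + 1, V i ≤ 1.0001 / t (n + 1) * t i * Vg g1 P := by
      intro i hi
      have := V_ratio2 (ha1 i hi).1 (ha1 i hi).2 P hP
      rw [hlog i hi] at this
      refine this.trans (le_of_eq ?_)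
      ring
    have k0 : (F 0 - f₀) * V 0 ≤ (F 0 - f₀) * (1.0001 / t (n + 1) * t 0 * Vg g1 P) :=
      mul_le_mul_of_nonneg_left (hVr 0 (by omega)) (by linarith)
    have k1 : ∑ i ∈ range n, (F (i + 1) - F i) * V (i + 1) ≤
        ∑ i ∈ range n, (F (i + 1) - F i) * (1.0001 / t (n + 1) * t (i + 1) * Vg g1 P) := by
      apply Finset.sum_le_sum
      intro i hi
      rw [Finset.mem_range] at hi
      exact mul_le_mul_of_nonneg_left (hVr (i + 1) (by omega)) (by linarith [hF i (by omega)])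
    have k2 : ∑ i ∈ range n, (F (i + 1) - F i) * (1.0001 / t (n + 1) * t (i + 1) * Vg g1 P) =
        1.0001 / t (n + 1) * (∑ i ∈ range n, (F (i + 1) - F i) * t (i + 1)) * Vg g1 P := by
      rw [Finset.mul_sum, Finset.sum_mul]
      exact Finset.sum_congr rfl (fun i _ => by ring)
    have k3 : ∑ i ∈ range n, (F i - F (i + 1)) * V (i + 1) =
        - ∑ i ∈ range n, (F (i + 1) - F i) * V (i + 1) := by
      rw [← Finset.sum_neg_distrib]
      exact Finset.sum_congr rfl (fun i _ => by ring)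
    rw [hVn, k3]
    rw [k2] at k1
    nlinarith [k0, k1]

end Pool.Agent.H36.IS2

end
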