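import Pool.Agent.H47.B1.M28
import Pool.Agent.H47.B1.M31

/-! The parts of this file: H36.IS2.SumNL, H36.IS2.HiB, H36.IS2.SumNU, H36.IS2.SumN, H36.IS2.LossP, H36.IS2.LossN, H36.IS.MtA, H36.IS.Mt, H36.IS.Sqr. -/

section

/-!
# ISP SumNL: lower bound for the sums with two nonnegative arrays

As SumNU, with the two-dimensional lower sieve [rough_i][rough_j] ≥ L_i U_j + U_i L_j - U_i U_j (L ≤ [rough] ≤ U, U ≥ 0: for r = [rough] ∈ {0,1}:
r r' - (L U' + U L' - U U') = (U - L)(U' - L') + (r r' - L L') ... check: U U' - L U' - U L' = (U - L)(U' - L') - L L', so the claim is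
r r' + (U-L)(U'-L') ≥ L L': if r = r' = 1 then (with L ≤ 1 ≤ U) 1 + (U-L)(U'-L') - L L' = 1 + U U' - L U' - U L' = ... ≥ 0: write U = 1 + u, L = 1 - l
 (u, l ≥ 0): 1 + (u+l)(u'+l') - (1-l)(1-l') = l + l' + (u+l)(u'+l') - l l' ≥ 0.  If r = 0: L ≤ 0 ≤ U: need (U-L)(U'-L') ≥ L L': (U-L) ≥ -L = |L| ≥ 0
 and U' - L' ≥ |L'|, if L' ≤ 0 fine, if L' > 0 then L L' ≤ 0.)
Multiply by Ly(v)² E E' ≥ 0; main term My(v) · (l_i u_j + u_i l_j - u_i u_j) · evM c · evM c' with l = Ev cL gi, u = Ev cU gi, (f-ε)V1 ≤ l ≤ V1 ≤ u ≤ (F+ε)V1: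
 l_i u_j + u_i l_j - u_i u_j = l_i l_j - (u_i - l_i)(u_j - l_j) ≥ ((f-ε)² - (F - f + 2ε)²) V1².  (f - ε ≥ 0 may be assumed small: hfe.)
-/

set_option autoImplicit false

namespace Pool.Agent.H36.IS2

open Finset Filter Pool.Agent.H36.IS

open Pool.Agent.H91.PK (L1 U1)

private lemma SumNL_Si_sub (x : ℕ) {ι : Type} [Fintype ι] [DecidableEq ι] (δ : ℝ) (i : ι) : Si x δ i ⊆ EZ ι x δ := by
  unfold Si EZ
  intro e he
  rw [Finset.mem_product] at he ⊢
  exact ⟨Finset.mem_univ _, he.2⟩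

private lemma SumNL_EZ_sub (x : ℕ) {ι : Type} [Fintype ι] [DecidableEq ι] (δ : ℝ) : EZ ι x δ ⊆ EX ι x := by
  unfold EZ EX
  intro e he
  rw [Finset.mem_product] at he ⊢
  refine ⟨Finset.mem_univ _, ?_⟩
  unfold PZ at he
  exact (Finset.mem_filter.1 he.2).1

private lemma SumNL_yy01 {ι : Type} [Fintype ι] [DecidableEq ι] (h : ι → ℕ) (n : ℕ) (e : ι × ℕ) :
    yy h n e = 0 ∨ yy h n e = 1 := by
  unfold yy
  split_ifs
  · exact Or.inr rfl
  · exact Or.inl rfl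

private lemma SumNL_My_nonneg {ι : Type} [Fintype ι] [DecidableEq ι] (x : ℕ) (δ : ℝ) (v : Finset (ι × ℕ) → ℝ) :
    0 ≤ My ι x δ v := by
  unfold My MM
  apply Finset.sum_nonneg
  intro R hR
  apply mul_nonneg (sq_nonneg _)
  apply Finset.prod_nonneg
  intro e he
  have h1 := fo_gi (SumNL_EZ_sub x δ (Finset.mem_powerset.1 hR he))
  unfold fo
  exact div_nonneg h1.2.1.le (by linarith [h1.2.2])

private lemma SumNL_V1_nonneg (x : ℕ) (δ : ℝ) : 0 ≤ V1 x δ := by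
  unfold V1
  apply Finset.prod_nonneg
  intro p hp
  have hp' : p.Prime := by
    unfold PZ PX at hp
    exact (Finset.mem_filter.1 (Finset.mem_filter.1 hp).1).2.1
  have h1 : (1 : ℝ) < (p : ℝ) := by exact_mod_cast hp'.one_lt
  have : 1 / (p : ℝ) ≤ 1 := by
    rw [div_le_one (by linarith)]
    exact h1.le
  linarith

/-- support of the Selberg coefficients of a projected function -/
private lemma SumNL_lam_sup {ι : Type} [Fintype ι] [DecidableEq ι] {P S : Finset (ι × ℕ)} {y : Finset (ι × ℕ) → ℝ}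
    (Q : Finset (ι × ℕ)) (h : lam P gi (pr S (fo gi) y) Q ≠ 0) : Q ⊆ P \ S := by
  obtain ⟨R, hQR, hRP, hR⟩ := lam_sup h
  have h1 := (pr_disj hR).1
  intro e he
  rw [Finset.mem_sdiff]
  exact ⟨hRP (hQR he), fun h2 => (Finset.disjoint_left.1 h1) (hQR he) h2⟩

/-- the two-dimensional lower sieve, pointwise -/
private lemma SumNL_pt {L U L' U' : ℝ} {p p' : Prop} [Decidable p] [Decidable p']
    (h1 : L ≤ if p then 1 else 0) (h2 : (if p then 1 else 0) ≤ U)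
    (h3 : L' ≤ if p' then 1 else 0) (h4 : (if p' then 1 else 0) ≤ U') :
    (p ∧ p' → L * U' + U * L' - U * U' ≤ 1) ∧ (¬ (p ∧ p') → L * U' + U * L' - U * U' ≤ 0) := by
  constructor
  · rintro ⟨hp, hp'⟩
    rw [if_pos hp] at h1 h2
    rw [if_pos hp'] at h3 h4
    have g1 := mul_nonneg (sub_nonneg.2 h1) (sub_nonneg.2 h4)
    have g2 := mul_nonneg (sub_nonneg.2 h2) (sub_nonneg.2 h3)
    have g3 := mul_nonneg (sub_nonneg.2 h2) (sub_nonneg.2 h4)
    nlinarith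
  · intro hn
    have hU0 : 0 ≤ U := by
      refine le_trans ?_ h2
      split_ifs <;> norm_num
    have hU0' : 0 ≤ U' := by
      refine le_trans ?_ h4
      split_ifs <;> norm_num
    have hLU : L ≤ U := h1.trans h2
    have hLU' : L' ≤ U' := h3.trans h4
    by_cases hp : p
    · have hp' : ¬ p' := fun h => hn ⟨hp, h⟩
      rw [if_neg hp'] at h3 h4
      have g1 := mul_nonneg hU0 (neg_nonneg.2 h3)
      have g2 := mul_nonneg hU0' (sub_nonneg.2 hLU)
      nlinarith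
    · rw [if_neg hp] at h1 h2
      have g1 := mul_nonneg hU0' (neg_nonneg.2 h1)
      have g2 := mul_nonneg hU0 (sub_nonneg.2 hLU')
      nlinarith

/-- the main term -/
private lemma SumNL_num {li ui lj uj V f F ε : ℝ} (h1 : (f - ε) * V ≤ li) (h2 : li ≤ V) (h3 : V ≤ ui) (h4 : ui ≤ (F + ε) * V)
    (h1' : (f - ε) * V ≤ lj) (h2' : lj ≤ V) (h3' : V ≤ uj) (h4' : uj ≤ (F + ε) * V) (hV : 0 ≤ V) (hf : ε ≤ f) :
    ((f - ε) ^ 2 - (F - f + 2 * ε) ^ 2) * V ^ 2 ≤ li * uj + ui * lj - ui * uj := by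
  have e1 : li * uj + ui * lj - ui * uj = li * lj - (ui - li) * (uj - lj) := by ring
  rw [e1]
  have h0 : 0 ≤ (f - ε) * V := mul_nonneg (by linarith) hV
  have g1 : (f - ε) * V * ((f - ε) * V) ≤ li * lj := mul_le_mul h1 h1' h0 (h0.trans h1)
  have g2 : ui - li ≤ (F - f + 2 * ε) * V := by nlinarith
  have g3 : uj - lj ≤ (F - f + 2 * ε) * V := by nlinarith
  have g4 : (ui - li) * (uj - lj) ≤ (F - f + 2 * ε) * V * ((F - f + 2 * ε) * V) :=
    mul_le_mul g2 g3 (by linarith) (by linarith)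
  nlinarith

open Classical in
theorem sumNL (ι : Type) [Fintype ι] [DecidableEq ι] (h : ι → ℕ) (W b : ℕ) (hG : Good h W b) (B1 : ℕ)
    (δ θ a s f F ε : ℝ) (hδ : 0 < δ) (hδ1 : δ ≤ 1) (hθ : 0 ≤ θ) (ha : 0 ≤ a) (hs : 0 ≤ s) (hf : 0 ≤ f) (hF : 0 ≤ F)
    (hL : L1 s f) (hU : U1 s F) (hε : 0 < ε) (hfe : ε ≤ f) (hlev : 2 * θ + 2 * (δ * s) + 2 * a < 1) (A : ℕ) :
    ∀ᶠ x : ℕ in atTop, ∀ y : Finset (ι × ℕ) → ℝ, Yok x δ θ (Real.log x ^ B1) y →
      ∀ c c' : Finset ℕ → ℝ, ArrN x δ ((x : ℝ) ^ a) c → ArrN x δ ((x : ℝ) ^ a) c' → ∀ i j, i ≠ j →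
      Mn ι W x * (((f - ε) ^ 2 - (F - f + 2 * ε) ^ 2) * V1 x δ ^ 2 * (evM (PX x) c * evM (PX x) c')) *
          My ι x δ (pr (Si x δ i ∪ Si x δ j) (fo gi) y) - x / Real.log x ^ A ≤
        ∑ n ∈ AA h W b x, Ly h x δ y n ^ 2 *
          ((if ∀ p ∈ PZ x δ, ¬ p ∣ n + h i then evD (PX x) c (n + h i) else 0) *
            (if ∀ p ∈ PZ x δ, ¬ p ∣ n + h j then evD (PX x) c' (n + h j) else 0)) := by
  obtain ⟨η1, hη1, hη2⟩ : ∃ η1 : ℝ, 0 < η1 ∧ 2 * θ + 2 * (δ * s) + 2 * a ≤ 1 - η1 :=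
    ⟨1 - (2 * θ + 2 * (δ * s) + 2 * a), by linarith, by linarith⟩
  obtain ⟨B2, hB2⟩ := yok_pr ι B1
  obtain ⟨Bv, hBv⟩ := cls_lam ι B2
  obtain ⟨B3, hB3⟩ := Mn_low ι h W b hG
  have hw := Filter.eventually_all.2 (fun i : ι => wtLU ι h i δ s f F ε hδ hδ1 hs hf hF hL hU hε)
  have hlog : ∀ᶠ x : ℕ in atTop, (3 : ℝ) ≤ Real.log x :=
    (Real.tendsto_log_atTop.comp (tendsto_natCast_atTop_atTop (R := ℝ))).eventually (eventually_ge_atTop 3)
  filter_upwards [hB2, hBv, hB3, hw, hlog, eventually_ge_atTop 3,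
    trI ι h W b hG (Bv + Bv + 2) 143 η1 (by norm_num) hη1 (A + 1)]
    with x hyokpr hclslam hMn hwx hlogx hx3 htr
  intro y hy c c' hc hc' i j hij
  have hx0 : (0 : ℝ) < (x : ℝ) := by
    have : (3 : ℝ) ≤ (x : ℝ) := by exact_mod_cast hx3
    linarith
  have hx1 : (1 : ℝ) ≤ (x : ℝ) := by
    have : (3 : ℝ) ≤ (x : ℝ) := by exact_mod_cast hx3
    linarith
  have hlog1 : (1 : ℝ) ≤ Real.log x := by linarith
  obtain ⟨cL, cU, hLc, hUc, hLs, hUs, hLp, hUp, hLv1, hLv2, hUv1, hUv2⟩ := hwx i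
  obtain ⟨dL, dU, hLc', hUc', hLs', hUs', hLp', hUp', hLv1', hLv2', hUv1', hUv2'⟩ := hwx j
  set E := EX ι x with hE
  set P := EZ ι x δ with hP
  set S := Si x δ i ∪ Si x δ j with hS
  have hiP : Si x δ i ⊆ P := SumNL_Si_sub x δ i
  have hjP : Si x δ j ⊆ P := SumNL_Si_sub x δ j
  have hSP : S ⊆ P := Finset.union_subset hiP hjP
  have hPE : P ⊆ E := SumNL_EZ_sub x δ
  set v := pr S (fo gi) y with hv
  have hyv : Yok x δ θ (Real.log x ^ B2) v := hyokpr δ θ y S hSP hy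
  have hlv : Cls x Bv 2 ((x : ℝ) ^ θ) (lam P gi v) := hclslam δ θ v hyv
  set lv := lam P gi v with hlvdef
  have hlvs : ∀ Q, lv Q ≠ 0 → Q ⊆ P \ S := fun Q hQ => SumNL_lam_sup Q hQ
  have hlvsP : ∀ Q, lv Q ≠ 0 → Q ⊆ P := fun Q hQ => (hlvs Q hQ).trans Finset.sdiff_subset
  set q := uc E lv lv with hq
  have hxθ : (0 : ℝ) ≤ (x : ℝ) ^ θ := Real.rpow_nonneg hx0.le _
  have hqc : Cls x (Bv + Bv) (2 + 2 + 2 * 2) ((x : ℝ) ^ θ * (x : ℝ) ^ θ) q :=
    cls_uc hlog1 (by norm_num) (by norm_num) hxθ hxθ hlv hlv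
  have hqs : ∀ Q, q Q ≠ 0 → Q ⊆ P \ S := by
    intro Q hQ
    have := (uc_sup hlvs hlvs Q hQ).1
    rwa [Finset.union_self] at this
  have hqE : q = uc P lv lv := uc_ground hPE hlvsP hlvsP
  -- the arrays on the large primes
  set PB : Finset ℕ := (PX x).filter (fun p => (x : ℝ) ^ δ < (p : ℝ)) with hPB
  have hPBX : PB ⊆ PX x := Finset.filter_subset _ _
  have hcB : ∀ T, c T ≠ 0 → T ⊆ PB := by
    intro T hT p hp
    have h1 := (hc.1 T).2 hT
    exact Finset.mem_filter.2 ⟨h1.1 hp, h1.2.1 p hp⟩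
  have hcB' : ∀ T, c' T ≠ 0 → T ⊆ PB := by
    intro T hT p hp
    have h1 := (hc'.1 T).2 hT
    exact Finset.mem_filter.2 ⟨h1.1 hp, h1.2.1 p hp⟩
  have hcX : ∀ T, c T ≠ 0 → T ⊆ PX x := fun T hT => (hcB T hT).trans hPBX
  have hcX' : ∀ T, c' T ≠ 0 → T ⊆ PX x := fun T hT => (hcB' T hT).trans hPBX
  set T := trc i c with hT
  set T' := trc j c' with hT'
  have hTs : ∀ Q, T Q ≠ 0 → Q ⊆ ({i} : Finset ι) ×ˢ PB := fun Q hQ => (trc_sup i hcB Q hQ).1
  have hTs' : ∀ Q, T' Q ≠ 0 → Q ⊆ ({j} : Finset ι) ×ˢ PB := fun Q hQ => (trc_sup j hcB' Q hQ).1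
  have hTc : Cls x 1 1 ((x : ℝ) ^ a) T := trc_cls i hlogx hc
  have hTc' : Cls x 1 1 ((x : ℝ) ^ a) T' := trc_cls j hlogx hc'
  have hBE : ∀ k : ι, ({k} : Finset ι) ×ˢ PB ⊆ E := by
    intro k e he
    rw [Finset.mem_product] at he
    rw [hE]
    unfold EX
    rw [Finset.mem_product]
    exact ⟨Finset.mem_univ _, hPBX he.2⟩
  have hBP : ∀ k : ι, Disjoint P (({k} : Finset ι) ×ˢ PB) := by
    intro k
    rw [Finset.disjoint_left]
    intro e he he'
    rw [hP] at he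
    unfold EZ at he
    rw [Finset.mem_product] at he he'
    have h1 := he.2
    unfold PZ at h1
    have h2 := (Finset.mem_filter.1 h1).2
    have h3 := (Finset.mem_filter.1 he'.2).2
    linarith
  have hSij : Disjoint (Si x δ i) (Si x δ j) := by
    rw [Finset.disjoint_left]
    intro e he he'
    unfold Si at he he'
    rw [Finset.mem_product, Finset.mem_singleton] at he he'
    exact hij (he.1.symm.trans he'.1)
  have hBij : Disjoint (({i} : Finset ι) ×ˢ PB) (({j} : Finset ι) ×ˢ PB) := by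
    rw [Finset.disjoint_left]
    intro e he he'
    rw [Finset.mem_product, Finset.mem_singleton] at he he'
    exact hij (he.1.symm.trans he'.1)
  -- evaluation at the density
  have hgP : ∀ e ∈ P, 0 < gi e ∧ gi e < 1 := fun e he => (fo_gi (hPE he)).2
  have hqval : Ev (P \ S) q gi = My ι x δ v := by
    rw [← Ev_sup (Finset.sdiff_subset : P \ S ⊆ P) hqs, hqE, hlvdef, EE_lam hgP]
    unfold My MM
    apply Finset.sum_congr rfl
    intro R hR
    rw [pow_two]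
  have hTval : Ev (({i} : Finset ι) ×ˢ PB) T gi = evM (PX x) c := by
    rw [← Ev_sup (hBE i) hTs, hT, hE, trc_gi i x c hcX]
  have hTval' : Ev (({j} : Finset ι) ×ˢ PB) T' gi = evM (PX x) c' := by
    rw [← Ev_sup (hBE j) hTs', hT', hE, trc_gi j x c' hcX']
  have hDi : Disjoint (P \ S) (Si x δ i) := by
    rw [Finset.disjoint_left]
    intro e he he'
    exact (Finset.mem_sdiff.1 he).2 (by rw [hS]; exact Finset.mem_union_left _ he')
  have hDj : Disjoint (P \ S) (Si x δ j) := by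
    rw [Finset.disjoint_left]
    intro e he he'
    exact (Finset.mem_sdiff.1 he).2 (by rw [hS]; exact Finset.mem_union_right _ he')
  have hval : ∀ a1 b1 : Finset (ι × ℕ) → ℝ, (∀ Q, a1 Q ≠ 0 → Q ⊆ Si x δ i) → (∀ Q, b1 Q ≠ 0 → Q ⊆ Si x δ j) →
      Ev E (uc E (uc E (uc E (uc E q a1) b1) T) T') gi =
        My ι x δ v * Ev (Si x δ i) a1 gi * Ev (Si x δ j) b1 gi * evM (PX x) c * evM (PX x) c' := by
    intro a1 b1 ha1 hb1
    have s1 : ∀ Q, uc E q a1 Q ≠ 0 → Q ⊆ (P \ S) ∪ Si x δ i := fun Q hQ => (uc_sup hqs ha1 Q hQ).1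
    have s2 : ∀ Q, uc E (uc E q a1) b1 Q ≠ 0 → Q ⊆ ((P \ S) ∪ Si x δ i) ∪ Si x δ j :=
      fun Q hQ => (uc_sup s1 hb1 Q hQ).1
    have s3 : ∀ Q, uc E (uc E (uc E q a1) b1) T Q ≠ 0 → Q ⊆ (((P \ S) ∪ Si x δ i) ∪ Si x δ j) ∪ ({i} : Finset ι) ×ˢ PB :=
      fun Q hQ => (uc_sup s2 hTs Q hQ).1
    have g1P : (P \ S) ∪ Si x δ i ⊆ P := Finset.union_subset Finset.sdiff_subset hiP
    have g2P : ((P \ S) ∪ Si x δ i) ∪ Si x δ j ⊆ P := Finset.union_subset g1P hjP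
    have g3E : (((P \ S) ∪ Si x δ i) ∪ Si x δ j) ∪ ({i} : Finset ι) ×ˢ PB ⊆ E := Finset.union_subset (g2P.trans hPE) (hBE i)
    have d1 : Disjoint ((P \ S) ∪ Si x δ i) (Si x δ j) := Finset.disjoint_union_left.2 ⟨hDj, hSij⟩
    have d2 : Disjoint (((P \ S) ∪ Si x δ i) ∪ Si x δ j) (({i} : Finset ι) ×ˢ PB) :=
      Finset.disjoint_of_subset_left g2P (hBP i)
    have d3 : Disjoint ((((P \ S) ∪ Si x δ i) ∪ Si x δ j) ∪ ({i} : Finset ι) ×ˢ PB) (({j} : Finset ι) ×ˢ PB) :=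
      Finset.disjoint_union_left.2 ⟨Finset.disjoint_of_subset_left g2P (hBP j), hBij⟩
    rw [Ev_uc_disj g3E (hBE j) d3 s3 hTs', hTval', ← Ev_sup g3E s3,
      Ev_uc_disj (g2P.trans hPE) (hBE i) d2 s2 hTs, hTval, ← Ev_sup (g2P.trans hPE) s2,
      Ev_uc_disj (g1P.trans hPE) (hjP.trans hPE) d1 s1 hb1, ← Ev_sup (g1P.trans hPE) s1,
      Ev_uc_disj (Finset.sdiff_subset.trans hPE) (hiP.trans hPE) hDi hqs ha1, hqval]
  -- the classes
  have hxx : (0 : ℝ) ≤ (x : ℝ) ^ θ * (x : ℝ) ^ θ := mul_nonneg hxθ hxθ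
  have hxs : (0 : ℝ) ≤ (x : ℝ) ^ (δ * s) := Real.rpow_nonneg hx0.le _
  have hxa : (0 : ℝ) ≤ (x : ℝ) ^ a := Real.rpow_nonneg hx0.le _
  have hcls : ∀ a1 b1 : Finset (ι × ℕ) → ℝ, Cls x 0 1 ((x : ℝ) ^ (δ * s)) a1 → Cls x 0 1 ((x : ℝ) ^ (δ * s)) b1 →
      Cls x (Bv + Bv + 2) 143 ((x : ℝ) ^ (1 - η1)) (uc E (uc E (uc E (uc E q a1) b1) T) T') := by
    intro a1 b1 ha1 hb1
    have h1 := cls_uc hlog1 (by norm_num) (by norm_num) hxx hxs hqc ha1
    have h2 := cls_uc hlog1 (by norm_num) (by norm_num) (mul_nonneg hxx hxs) hxs h1 hb1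
    have h3 := cls_uc hlog1 (by norm_num) (by norm_num) (mul_nonneg (mul_nonneg hxx hxs) hxs) hxa h2 hTc
    have h4 := cls_uc hlog1 (by norm_num) (by norm_num) (mul_nonneg (mul_nonneg (mul_nonneg hxx hxs) hxs) hxa) hxa h3 hTc'
    refine Cls.mono h4 hlog1 (by omega) (by norm_num) (by norm_num) ?_
    rw [← Real.rpow_add hx0, ← Real.rpow_add hx0, ← Real.rpow_add hx0, ← Real.rpow_add hx0, ← Real.rpow_add hx0]
    apply Real.rpow_le_rpow_of_exponent_le hx1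
    linarith
  -- pointwise values
  have hLyv : ∀ n, Ev E lv (yy h n) = Ly h x δ v n := by
    intro n
    rw [Ev_sup hPE hlvsP]
    rfl
  have hpt : ∀ (a1 b1 : Finset (ι × ℕ) → ℝ) (n : ℕ), Ev E (uc E (uc E (uc E (uc E q a1) b1) T) T') (yy h n) =
      Ly h x δ v n ^ 2 * Ev E a1 (yy h n) * Ev E b1 (yy h n) * evD (PX x) c (n + h i) * evD (PX x) c' (n + h j) := by
    intro a1 b1 n
    rw [Ev_uc _ _ (fun e _ => SumNL_yy01 h n e), Ev_uc _ _ (fun e _ => SumNL_yy01 h n e),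
      Ev_uc _ _ (fun e _ => SumNL_yy01 h n e), Ev_uc _ _ (fun e _ => SumNL_yy01 h n e), hq,
      Ev_uc _ _ (fun e _ => SumNL_yy01 h n e), hLyv, hT, hT', hE, trc_yy h i x c hcX n, trc_yy h j x c' hcX' n]
    ring
  have hrough : ∀ n, (∀ p ∈ PZ x δ, ¬ p ∣ n + h i) → (∀ p ∈ PZ x δ, ¬ p ∣ n + h j) → Ly h x δ v n = Ly h x δ y n := by
    intro n hn hn'
    have := Ev_lam_pr hSP hgP y (v := yy h n) (by
      intro e he
      rw [hS, Finset.mem_union] at he
      unfold Si at he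
      rw [Finset.mem_product, Finset.mem_singleton, Finset.mem_product, Finset.mem_singleton] at he
      unfold yy
      rw [if_neg]
      rcases he with he | he
      · rw [he.1]
        exact hn e.2 he.2
      · rw [he.1]
        exact hn' e.2 he.2)
    exact this
  have key : ∀ n ∈ AA h W b x, Ev E (uc E (uc E (uc E (uc E q cL) dU) T) T') (yy h n) +
      Ev E (uc E (uc E (uc E (uc E q cU) dL) T) T') (yy h n) - Ev E (uc E (uc E (uc E (uc E q cU) dU) T) T') (yy h n) ≤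
      Ly h x δ y n ^ 2 * ((if ∀ p ∈ PZ x δ, ¬ p ∣ n + h i then evD (PX x) c (n + h i) else 0) *
            (if ∀ p ∈ PZ x δ, ¬ p ∣ n + h j then evD (PX x) c' (n + h j) else 0)) := by
    intro n _
    rw [hpt, hpt, hpt]
    have hEc : 0 ≤ evD (PX x) c (n + h i) := hc.2.1 _
    have hEc' : 0 ≤ evD (PX x) c' (n + h j) := hc'.2.1 _
    have hsq : 0 ≤ Ly h x δ v n ^ 2 * evD (PX x) c (n + h i) * evD (PX x) c' (n + h j) :=
      mul_nonneg (mul_nonneg (sq_nonneg _) hEc) hEc'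
    have hpt2 := SumNL_pt (hLp n) (hUp n) (hLp' n) (hUp' n)
    have e1 : Ly h x δ v n ^ 2 * Ev E cL (yy h n) * Ev E dU (yy h n) * evD (PX x) c (n + h i) * evD (PX x) c' (n + h j) +
        Ly h x δ v n ^ 2 * Ev E cU (yy h n) * Ev E dL (yy h n) * evD (PX x) c (n + h i) * evD (PX x) c' (n + h j) -
        Ly h x δ v n ^ 2 * Ev E cU (yy h n) * Ev E dU (yy h n) * evD (PX x) c (n + h i) * evD (PX x) c' (n + h j) =
        (Ly h x δ v n ^ 2 * evD (PX x) c (n + h i) * evD (PX x) c' (n + h j)) *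
          (Ev E cL (yy h n) * Ev E dU (yy h n) + Ev E cU (yy h n) * Ev E dL (yy h n) -
            Ev E cU (yy h n) * Ev E dU (yy h n)) := by ring
    rw [e1]
    by_cases hr : (∀ p ∈ PZ x δ, ¬ p ∣ n + h i) ∧ (∀ p ∈ PZ x δ, ¬ p ∣ n + h j)
    · have g1 := mul_le_mul_of_nonneg_left (hpt2.1 hr) hsq
      refine g1.trans (le_of_eq ?_)
      rw [if_pos hr.1, if_pos hr.2, hrough n hr.1 hr.2]
      ring
    · have g1 := mul_nonpos_of_nonneg_of_nonpos hsq (hpt2.2 hr)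
      refine g1.trans (le_of_eq ?_)
      by_cases hr1 : ∀ p ∈ PZ x δ, ¬ p ∣ n + h i
      · have hr2 : ¬ ∀ p ∈ PZ x δ, ¬ p ∣ n + h j := fun h2 => hr ⟨hr1, h2⟩
        rw [if_neg hr2]
        ring
      · rw [if_neg hr1]
        ring
  have hsum := Finset.sum_le_sum key
  rw [Finset.sum_sub_distrib, Finset.sum_add_distrib] at hsum
  have t1 := (abs_le.1 (htr _ (hcls cL dU hLc hUc'))).1
  have t2 := (abs_le.1 (htr _ (hcls cU dL hUc hLc'))).1
  have t3 := (abs_le.1 (htr _ (hcls cU dU hUc hUc'))).2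
  rw [hval cL dU hLs hUs'] at t1
  rw [hval cU dL hUs hLs'] at t2
  rw [hval cU dU hUs hUs'] at t3
  have hMn0 : 0 ≤ Mn ι W x := by
    refine le_trans ?_ hMn
    exact div_nonneg hx0.le (pow_nonneg (by linarith) _)
  have hMy0 : 0 ≤ My ι x δ v := SumNL_My_nonneg x δ v
  have hnum := SumNL_num hLv1 hLv2 hUv1 hUv2 hLv1' hLv2' hUv1' hUv2' (SumNL_V1_nonneg x δ) hfe
  have hfac : 0 ≤ Mn ι W x * My ι x δ v * (evM (PX x) c * evM (PX x) c') :=
    mul_nonneg (mul_nonneg hMn0 hMy0) (mul_nonneg hc.2.2 hc'.2.2)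
  have hmain := mul_le_mul_of_nonneg_left hnum hfac
  have herr : 3 * ((x : ℝ) / Real.log x ^ (A + 1)) ≤ (x : ℝ) / Real.log x ^ A := by
    have hLpos : 0 < Real.log x := by linarith
    have hLA : 0 < Real.log x ^ A := pow_pos hLpos A
    rw [pow_succ, ← div_div, ← mul_div_assoc, div_le_iff₀ hLpos]
    have : 0 ≤ (x : ℝ) / Real.log x ^ A := div_nonneg hx0.le hLA.le
    nlinarith
  have e2 : Mn ι W x * (((f - ε) ^ 2 - (F - f + 2 * ε) ^ 2) * V1 x δ ^ 2 * (evM (PX x) c * evM (PX x) c')) * My ι x δ v =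
      Mn ι W x * My ι x δ v * (evM (PX x) c * evM (PX x) c') * (((f - ε) ^ 2 - (F - f + 2 * ε) ^ 2) * V1 x δ ^ 2) := by ring
  rw [e2]
  have e3 : Mn ι W x * My ι x δ v * (evM (PX x) c * evM (PX x) c') *
      (Ev (Si x δ i) cL gi * Ev (Si x δ j) dU gi + Ev (Si x δ i) cU gi * Ev (Si x δ j) dL gi -
        Ev (Si x δ i) cU gi * Ev (Si x δ j) dU gi) =
      Mn ι W x * (My ι x δ v * Ev (Si x δ i) cL gi * Ev (Si x δ j) dU gi * evM (PX x) c * evM (PX x) c') +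
      Mn ι W x * (My ι x δ v * Ev (Si x δ i) cU gi * Ev (Si x δ j) dL gi * evM (PX x) c * evM (PX x) c') -
      Mn ι W x * (My ι x δ v * Ev (Si x δ i) cU gi * Ev (Si x δ j) dU gi * evM (PX x) c * evM (PX x) c') := by ring
  rw [e3] at hmain
  refine le_trans ?_ hsum
  linarith

end Pool.Agent.H36.IS2

end

section

/-!
# ISP HiB: very precise sieve weights at s = 61

`SvB_low m k z` (Pool/Agent/H91/PK/SvB.lean) with k = 10 (and m from `SvB_exists`): Ch g1 P (z^60) (z^61) (1 + 9.6e-7/1024) (4.8e-7/1024).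
As in `U1_base`, `L1_base`: `(Ch ..).up`, `(Ch ..).lo`; 9.6e-7/1024 < 1e-9.
-/

set_option autoImplicit false

namespace Pool.Agent.H36.IS2

open Pool.Agent.H91.PK (U1 L1)

private theorem HiB_main (z : ℝ) (hz : 1 ≤ z) (P : Finset ℕ) (hP : Pool.Agent.H91.PK.BigP z P) :
    Pool.Agent.H91.PK.Ch Pool.Agent.H91.PK.g1 P (z ^ (60 : ℝ)) (z ^ (61 : ℝ)) (1 + 1e-9) 1e-9 := by
  obtain ⟨m, hm⟩ := Pool.Agent.H91.PK.SvB_exists z
  have h := Pool.Agent.H91.PK.SvB_low m 10 z hz hm P hP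
  refine h.mono (Pool.Agent.H91.PK.V_pos hP) ?_ ?_ ?_ ?_
  · apply Real.rpow_le_rpow_of_exponent_le hz
    norm_num
  · apply Real.rpow_le_rpow_of_exponent_le hz
    norm_num
  · norm_num
  · norm_num

theorem U1_61 : U1 61 (1 + 1e-9) := by
  intro z hz P hP
  have h := (HiB_main z hz P hP).up
  refine h.mono ?_ le_rfl
  apply Real.rpow_le_rpow_of_exponent_le hz
  norm_num

theorem L1_61 : L1 61 (1 - 1e-9) := by
  intro z hz P hP
  have h := (HiB_main z hz P hP).lo (by norm_num)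
  exact h

end Pool.Agent.H36.IS2

end

section

/-!
# ISP SumNU: upper bound for the sums with two nonnegative arrays

S = Si i ∪ Si j, v = pr S (fo gi) y, Ly(y) = Ly(v) on the n which are rough in both components (`Ev_lam_pr`).  [rough_i][rough_j] ≤ Ev cU_i · Ev cU_j
(`wtLU` for i and j), E = trc i c ≥ 0, E' = trc j c' ≥ 0 pointwise:
 sum ≤ ∑_{AA} Ly(v)² Ev cU_i Ev cU_j E E' = (trI, level 2θ + 2 δ s + 2 a < 1) Mn · My(v) · Ev cU_i gi · Ev cU_j gi · evM c · evM c' + x/L^A.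
Factorisation by `Ev_uc_disj` (four disjoint ground sets: EZ \ S, Si i, Si j, {i} × big, {j} × big), `EE_lam`.
-/

set_option autoImplicit false

namespace Pool.Agent.H36.IS2

open Finset Filter Pool.Agent.H36.IS

open Pool.Agent.H91.PK (L1 U1)

private theorem SumNU_EZ_sub (ι : Type) [Fintype ι] [DecidableEq ι] (x : ℕ) (δ : ℝ) : EZ ι x δ ⊆ EX ι x := by
  intro e he
  unfold EZ at he
  unfold EX
  rw [mem_product] at he ⊢
  exact ⟨he.1, filter_subset _ _ he.2⟩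

private theorem SumNU_Si_sub {ι : Type} [Fintype ι] [DecidableEq ι] (x : ℕ) (δ : ℝ) (i : ι) : Si x δ i ⊆ EZ ι x δ := by
  unfold Si EZ
  intro e he
  rw [Finset.mem_product] at he ⊢
  exact ⟨Finset.mem_univ _, he.2⟩

private theorem SumNU_yy01 {ι : Type} [Fintype ι] [DecidableEq ι] (h : ι → ℕ) (n : ℕ) (e : ι × ℕ) :
    yy h n e = 0 ∨ yy h n e = 1 := by
  unfold yy
  split_ifs
  · exact Or.inr rfl
  · exact Or.inl rfl

private theorem SumNU_disj {α : Type} [DecidableEq α] {P P1 P2 : Finset α} (h1 : P1 ⊆ P) (h2 : P2 ⊆ P)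
    (h12 : Disjoint P1 P2) {c d : Finset α → ℝ} (hc : ∀ Q, c Q ≠ 0 → Q ⊆ P1) (hd : ∀ Q, d Q ≠ 0 → Q ⊆ P2)
    (g : α → ℝ) : Ev P (uc P c d) g = Ev P c g * Ev P d g := by
  rw [Ev_uc_disj h1 h2 h12 hc hd, Ev_sup h1 hc, Ev_sup h2 hd]

private theorem SumNU_Mn (ι : Type) [Fintype ι] [DecidableEq ι] {h : ι → ℕ} {W b : ℕ} (hG : Good h W b) (x : ℕ) :
    0 ≤ Mn ι W x := by
  unfold Mn
  refine mul_nonneg (div_nonneg (Nat.cast_nonneg _) (Nat.cast_nonneg _)) (prod_nonneg fun p hp => ?_)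
  unfold PS PA at hp
  rw [mem_filter, mem_filter] at hp
  have h1 := (hG.2.2 p hp.1.2.1 hp.2).1
  have h2 : (Fintype.card ι : ℝ) < p := by exact_mod_cast h1
  have h3 : (0 : ℝ) < p := lt_of_le_of_lt (Nat.cast_nonneg _) h2
  rw [sub_nonneg, div_le_one h3]
  exact h2.le

private theorem SumNU_V1 (x : ℕ) (δ : ℝ) : 0 ≤ V1 x δ := by
  unfold V1
  refine prod_nonneg fun p hp => ?_
  unfold PZ PX at hp
  rw [mem_filter, mem_filter] at hp
  have h1 : (1 : ℝ) ≤ p := by exact_mod_cast hp.1.2.1.one_lt.le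
  rw [sub_nonneg, div_le_one (by linarith)]
  exact h1

open Classical in
theorem sumNU (ι : Type) [Fintype ι] [DecidableEq ι] (h : ι → ℕ) (W b : ℕ) (hG : Good h W b) (B1 : ℕ)
    (δ θ a s f F ε : ℝ) (hδ : 0 < δ) (hδ1 : δ ≤ 1) (hθ : 0 ≤ θ) (ha : 0 ≤ a) (hs : 0 ≤ s) (hf : 0 ≤ f) (hF : 0 ≤ F)
    (hL : L1 s f) (hU : U1 s F) (hε : 0 < ε) (hlev : 2 * θ + 2 * (δ * s) + 2 * a < 1) (A : ℕ) :
    ∀ᶠ x : ℕ in atTop, ∀ y : Finset (ι × ℕ) → ℝ, Yok x δ θ (Real.log x ^ B1) y →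
      ∀ c c' : Finset ℕ → ℝ, ArrN x δ ((x : ℝ) ^ a) c → ArrN x δ ((x : ℝ) ^ a) c' → ∀ i j, i ≠ j →
      ∑ n ∈ AA h W b x, Ly h x δ y n ^ 2 *
          ((if ∀ p ∈ PZ x δ, ¬ p ∣ n + h i then evD (PX x) c (n + h i) else 0) *
            (if ∀ p ∈ PZ x δ, ¬ p ∣ n + h j then evD (PX x) c' (n + h j) else 0)) ≤
        Mn ι W x * (((F + ε) * V1 x δ) ^ 2 * (evM (PX x) c * evM (PX x) c')) *
          My ι x δ (pr (Si x δ i ∪ Si x δ j) (fo gi) y) + x / Real.log x ^ A := by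
  obtain ⟨B2, hB2⟩ := yok_pr ι B1
  obtain ⟨Bw, hBw⟩ := cls_lam ι B2
  have hlog : ∀ᶠ x : ℕ in atTop, (3 : ℝ) ≤ Real.log x :=
    (Real.tendsto_log_atTop.comp (tendsto_natCast_atTop_atTop (R := ℝ))).eventually (eventually_ge_atTop 3)
  have hwt := Filter.eventually_all.mpr fun i : ι => wtLU ι h i δ s f F ε hδ hδ1 hs hf hF hL hU hε
  filter_upwards [hB2, hBw, trI ι h W b hG (Bw + Bw + (0 + 0) + (1 + 1)) 143
    (1 - (2 * θ + 2 * (δ * s) + 2 * a)) (by norm_num) (by linarith) A,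
    hlog, eventually_ge_atTop 2, hwt] with x hx hw htr hlog3 hx2 hwtx
  intro y hy c c' hc hc' i j hij
  have hlogx : (1 : ℝ) ≤ Real.log x := by linarith
  have hx0 : (0 : ℝ) < (x : ℝ) := by exact_mod_cast (by omega : 0 < x)
  obtain ⟨_, ci, _, hci, _, hcis, _, hcige, _, _, hciV, hciF⟩ := hwtx i
  obtain ⟨_, cj, _, hcj, _, hcjs, _, hcjge, _, _, hcjV, hcjF⟩ := hwtx j
  have hcP : ∀ T, c T ≠ 0 → T ⊆ PX x := fun T hT => ((hc.1 T).2 hT).1
  have hcP' : ∀ T, c' T ≠ 0 → T ⊆ PX x := fun T hT => ((hc'.1 T).2 hT).1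
  set S := Si x δ i ∪ Si x δ j with hS
  set P := EZ ι x δ with hP
  set X := EX ι x with hX
  have hSiP : Si x δ i ⊆ P := SumNU_Si_sub x δ i
  have hSjP : Si x δ j ⊆ P := SumNU_Si_sub x δ j
  have hSP : S ⊆ P := union_subset hSiP hSjP
  have hPX : P ⊆ X := SumNU_EZ_sub ι x δ
  have hgP : ∀ e ∈ P, 0 < gi e ∧ gi e < 1 := fun e he => (fo_gi (hPX he)).2
  have hv := hx δ θ y S hSP hy
  set v := pr S (fo gi) y with hvdef
  have hlw : Cls x Bw 2 ((x : ℝ) ^ θ) (lam P gi v) := hw δ θ v hv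
  set lw := lam P gi v with hlwdef
  have hlws : ∀ Q, lw Q ≠ 0 → Q ⊆ P \ S := by
    intro Q hQ e he
    obtain ⟨R, hR1, hR2, hR3⟩ := lam_sup hQ
    rw [Finset.mem_sdiff]
    exact ⟨hR2 (hR1 he), fun heS => Finset.disjoint_left.1 (pr_disj hR3).1 (hR1 he) heS⟩
  have hlws' : ∀ Q, lw Q ≠ 0 → Q ⊆ P := fun Q hQ => (hlws Q hQ).trans Finset.sdiff_subset
  set q := uc X lw lw with hq
  have hxt : (0 : ℝ) ≤ (x : ℝ) ^ θ := Real.rpow_nonneg hx0.le _
  have hxs : (0 : ℝ) ≤ (x : ℝ) ^ (δ * s) := Real.rpow_nonneg hx0.le _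
  have hxa : (0 : ℝ) ≤ (x : ℝ) ^ a := Real.rpow_nonneg hx0.le _
  have hqs : ∀ Q, q Q ≠ 0 → Q ⊆ P \ S := by
    intro Q hQ
    have := (uc_sup hlws hlws Q hQ).1
    rwa [Finset.union_self] at this
  have hqP : q = uc P lw lw := uc_ground hPX hlws' hlws'
  -- the arrays of the large primes
  set E := trc i c with hE
  set E' := trc j c' with hE'
  have hEs : ∀ Q, E Q ≠ 0 → Q ⊆ ({i} : Finset ι) ×ˢ (PX x \ PZ x δ) := by
    intro Q hQ e he
    obtain ⟨h1, h2⟩ := trc_sup i hcP Q hQ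
    have h3 := h1 he
    rw [mem_product] at h3 ⊢
    refine ⟨h3.1, ?_⟩
    rw [Finset.mem_sdiff]
    refine ⟨h3.2, fun h4 => ?_⟩
    have h5 := ((hc.1 _).2 h2).2.1 e.2 (mem_image_of_mem _ he)
    unfold PZ at h4
    rw [mem_filter] at h4
    linarith [h4.2]
  have hEs' : ∀ Q, E' Q ≠ 0 → Q ⊆ ({j} : Finset ι) ×ˢ (PX x \ PZ x δ) := by
    intro Q hQ e he
    obtain ⟨h1, h2⟩ := trc_sup j hcP' Q hQ
    have h3 := h1 he
    rw [mem_product] at h3 ⊢
    refine ⟨h3.1, ?_⟩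
    rw [Finset.mem_sdiff]
    refine ⟨h3.2, fun h4 => ?_⟩
    have h5 := ((hc'.1 _).2 h2).2.1 e.2 (mem_image_of_mem _ he)
    unfold PZ at h4
    rw [mem_filter] at h4
    linarith [h4.2]
  have hBi : ∀ t : ι, ({t} : Finset ι) ×ˢ (PX x \ PZ x δ) ⊆ X \ P := by
    intro t e he
    rw [mem_product, Finset.mem_sdiff] at he
    rw [Finset.mem_sdiff, hX, hP]
    unfold EX EZ
    rw [mem_product, mem_product]
    exact ⟨⟨mem_univ _, he.2.1⟩, fun h1 => he.2.2 h1.2⟩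
  have hdBB : Disjoint (({i} : Finset ι) ×ˢ (PX x \ PZ x δ)) (({j} : Finset ι) ×ˢ (PX x \ PZ x δ)) := by
    rw [Finset.disjoint_left]
    intro e he he'
    rw [mem_product, mem_singleton] at he he'
    exact hij (he.1.symm.trans he'.1)
  have hdSS : Disjoint (Si x δ i) (Si x δ j) := by
    rw [Finset.disjoint_left]
    intro e he he'
    unfold Si at he he'
    rw [mem_product, mem_singleton] at he he'
    exact hij (he.1.symm.trans he'.1)
  set cc := uc X ci cj with hcc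
  have hccs : ∀ Q, cc Q ≠ 0 → Q ⊆ S := fun Q hQ => (uc_sup hcis hcjs Q hQ).1
  set EE := uc X E E' with hEE
  have hEEs : ∀ Q, EE Q ≠ 0 → Q ⊆ X \ P := fun Q hQ =>
    (uc_sup hEs hEs' Q hQ).1.trans (union_subset (hBi i) (hBi j))
  set qc := uc X q cc with hqc
  have hqcs : ∀ Q, qc Q ≠ 0 → Q ⊆ P := fun Q hQ =>
    (uc_sup hqs hccs Q hQ).1.trans (union_subset Finset.sdiff_subset hSP)
  have hXX : X \ P ⊆ X := Finset.sdiff_subset
  -- the class
  have harr : Cls x (Bw + Bw + (0 + 0) + (1 + 1)) 143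
      ((x : ℝ) ^ (1 - (1 - (2 * θ + 2 * (δ * s) + 2 * a)))) (uc X qc EE) := by
    have k1 := cls_uc hlogx (by norm_num) (by norm_num) hxt hxt hlw hlw
    have k2 := cls_uc hlogx (by norm_num) (by norm_num) hxs hxs hci hcj
    have k3 := cls_uc hlogx (by norm_num) (by norm_num) (mul_nonneg hxt hxt) (mul_nonneg hxs hxs) k1 k2
    have k4 := cls_uc hlogx (by norm_num) (by norm_num) hxa hxa (trc_cls i hlog3 hc) (trc_cls j hlog3 hc')
    have k5 := cls_uc hlogx (by norm_num) (by norm_num)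
      (mul_nonneg (mul_nonneg hxt hxt) (mul_nonneg hxs hxs)) (mul_nonneg hxa hxa) k3 k4
    rw [← Real.rpow_add hx0, ← Real.rpow_add hx0, ← Real.rpow_add hx0, ← Real.rpow_add hx0,
      ← Real.rpow_add hx0] at k5
    have e1 : (1 : ℝ) - (1 - (2 * θ + 2 * (δ * s) + 2 * a)) = θ + θ + (δ * s + δ * s) + (a + a) := by ring
    have e2 : (143 : ℝ) = 2 + 2 + 2 * 2 + (1 + 1 + 1 * 1) + (2 + 2 + 2 * 2) * (1 + 1 + 1 * 1) +
        (1 + 1 + 1 * 1) + (2 + 2 + 2 * 2 + (1 + 1 + 1 * 1) + (2 + 2 + 2 * 2) * (1 + 1 + 1 * 1)) *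
          (1 + 1 + 1 * 1) := by norm_num
    rw [e1, e2]
    exact k5
  have ht := (abs_le.1 (htr _ harr)).2
  -- the value at the density
  have hqval : Ev X q gi = My ι x δ v := by
    rw [Ev_sup hPX (fun Q hQ => (hqs Q hQ).trans Finset.sdiff_subset), hqP, hlwdef, EE_lam hgP]
    unfold My MM
    apply Finset.sum_congr rfl
    intro R _
    rw [pow_two]
  have hval : Ev X (uc X qc EE) gi = My ι x δ v * (Ev (Si x δ i) ci gi * Ev (Si x δ j) cj gi) *
      (evM (PX x) c * evM (PX x) c') := by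
    rw [SumNU_disj hPX hXX Finset.disjoint_sdiff hqcs hEEs, hqc,
      SumNU_disj (Finset.sdiff_subset.trans hPX) (hSP.trans hPX) Finset.sdiff_disjoint hqs hccs, hqval, hcc,
      Ev_uc_disj (hSiP.trans hPX) (hSjP.trans hPX) hdSS hcis hcjs, hEE,
      SumNU_disj ((hBi i).trans hXX) ((hBi j).trans hXX) hdBB hEs hEs', hE, hE', trc_gi i x c hcP,
      trc_gi j x c' hcP']
  -- pointwise
  have hyn : ∀ n, ∀ e ∈ X, yy h n e = 0 ∨ yy h n e = 1 := fun n e _ => SumNU_yy01 h n e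
  have hpt : ∀ n, Ev X (uc X qc EE) (yy h n) =
      Ly h x δ v n ^ 2 * (Ev X ci (yy h n) * Ev X cj (yy h n)) *
        (evD (PX x) c (n + h i) * evD (PX x) c' (n + h j)) := by
    intro n
    rw [Ev_uc _ _ (hyn n), hqc, Ev_uc _ _ (hyn n), hq, Ev_uc _ _ (hyn n), hcc, Ev_uc _ _ (hyn n), hEE,
      Ev_uc _ _ (hyn n), Ev_sup hPX hlws', hE, hE', trc_yy h i x c hcP n, trc_yy h j x c' hcP' n]
    unfold Ly
    ring
  have hLy : ∀ n, (∀ p ∈ PZ x δ, ¬ p ∣ n + h i) → (∀ p ∈ PZ x δ, ¬ p ∣ n + h j) →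
      Ly h x δ y n = Ly h x δ v n := by
    intro n hn1 hn2
    have hn' : ∀ e ∈ S, yy h n e = 0 := by
      intro e he
      rw [hS, mem_union] at he
      unfold yy
      rcases he with he | he
      · unfold Si at he
        rw [Finset.mem_product, Finset.mem_singleton] at he
        rw [if_neg]
        rw [he.1]
        exact hn1 e.2 he.2
      · unfold Si at he
        rw [Finset.mem_product, Finset.mem_singleton] at he
        rw [if_neg]
        rw [he.1]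
        exact hn2 e.2 he.2
    unfold Ly
    rw [hvdef, ← Ev_lam_pr hSP hgP y hn']
  have hsum : ∑ n ∈ AA h W b x, Ly h x δ y n ^ 2 *
          ((if ∀ p ∈ PZ x δ, ¬ p ∣ n + h i then evD (PX x) c (n + h i) else 0) *
            (if ∀ p ∈ PZ x δ, ¬ p ∣ n + h j then evD (PX x) c' (n + h j) else 0)) ≤
      ∑ n ∈ AA h W b x, Ev X (uc X qc EE) (yy h n) := by
    refine sum_le_sum fun n _ => ?_
    rw [hpt n]
    have u1 := hcige n
    have u2 := hcjge n
    have w1 := hc.2.1 (n + h i)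
    have w2 := hc'.2.1 (n + h j)
    have z1 : 0 ≤ Ev X ci (yy h n) := le_trans (by split_ifs <;> norm_num) u1
    have z2 : 0 ≤ Ev X cj (yy h n) := le_trans (by split_ifs <;> norm_num) u2
    by_cases r1 : ∀ p ∈ PZ x δ, ¬ p ∣ n + h i
    · by_cases r2 : ∀ p ∈ PZ x δ, ¬ p ∣ n + h j
      · rw [if_pos r1, if_pos r2, hLy n r1 r2]
        rw [if_pos r1] at u1
        rw [if_pos r2] at u2
        have z3 : 1 ≤ Ev X ci (yy h n) * Ev X cj (yy h n) := one_le_mul_of_one_le_of_one_le u1 u2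
        have z4 : 0 ≤ Ly h x δ v n ^ 2 * (evD (PX x) c (n + h i) * evD (PX x) c' (n + h j)) :=
          mul_nonneg (sq_nonneg _) (mul_nonneg w1 w2)
        nlinarith
      · rw [if_neg r2, mul_zero, mul_zero]
        exact mul_nonneg (mul_nonneg (sq_nonneg _) (mul_nonneg z1 z2)) (mul_nonneg w1 w2)
    · rw [if_neg r1, zero_mul, mul_zero]
      exact mul_nonneg (mul_nonneg (sq_nonneg _) (mul_nonneg z1 z2)) (mul_nonneg w1 w2)
  -- the main term
  have hM0 := SumNU_Mn ι hG x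
  have hV0 := SumNU_V1 x δ
  have hMy : 0 ≤ My ι x δ v := by
    unfold My MM
    refine sum_nonneg fun R hR => mul_nonneg (sq_nonneg _) (prod_nonneg fun e he => ?_)
    have h1 := hgP e (mem_powerset.1 hR he)
    unfold fo
    exact div_nonneg h1.1.le (by linarith [h1.2])
  have hmain : Mn ι W x * Ev X (uc X qc EE) gi ≤
      Mn ι W x * (((F + ε) * V1 x δ) ^ 2 * (evM (PX x) c * evM (PX x) c')) * My ι x δ v := by
    rw [hval]
    have k1 : Ev (Si x δ i) ci gi * Ev (Si x δ j) cj gi ≤ ((F + ε) * V1 x δ) ^ 2 := by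
      rw [pow_two]
      exact mul_le_mul hciF hcjF (hV0.trans hcjV) (hV0.trans (hciV.trans hciF))
    have k2 : 0 ≤ evM (PX x) c * evM (PX x) c' := mul_nonneg hc.2.2 hc'.2.2
    have k3 : 0 ≤ Mn ι W x * (evM (PX x) c * evM (PX x) c') * My ι x δ v :=
      mul_nonneg (mul_nonneg hM0 k2) hMy
    have k4 := mul_le_mul_of_nonneg_left k1 k3
    calc Mn ι W x * (My ι x δ v * (Ev (Si x δ i) ci gi * Ev (Si x δ j) cj gi) *
          (evM (PX x) c * evM (PX x) c'))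
        = Mn ι W x * (evM (PX x) c * evM (PX x) c') * My ι x δ v *
          (Ev (Si x δ i) ci gi * Ev (Si x δ j) cj gi) := by ring
      _ ≤ Mn ι W x * (evM (PX x) c * evM (PX x) c') * My ι x δ v * ((F + ε) * V1 x δ) ^ 2 := k4
      _ = _ := by ring
  linarith

end Pool.Agent.H36.IS2

end

section

/-!
# ISP SumN: sums with one nonnegative array

v = pr (Si x δ i) (fo gi) y; on the n with no p ∈ PZ x δ dividing n + h i: Ly(y) = Ly(v) (`Ev_lam_pr`).  With cL, cU from `wtLU`, E = trc i c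
(pointwise ≥ 0 by ArrN and `trc_yy`):
 ∑_{AA} [rough] Ly(y)² E ≥ ∑_{AA} Ly(v)² Ev cL E  and  ≤ ∑_{AA} Ly(v)² Ev cU E.
The arrays uc (uc (uc λ λ) cL) E (λ = lam EZ gi v) are in a class of level 2θ + δ s + a < 1 (`cls_lam`, `yok_pr`, `cls_uc`, `trc_cls`): `trI`; the main
terms factor: λ is supported on EZ \ Si, cL on Si, E on {i} × (primes > x^δ) (`Ev_uc_disj` twice, `EE_lam`, `trc_gi`).
0 ≤ evM c, 0 ≤ My, Mn ≥ 0.  Compare SumL.lean, SumX.lean.
-/

set_option autoImplicit false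

namespace Pool.Agent.H36.IS2

open Finset Filter Pool.Agent.H36.IS

open Pool.Agent.H91.PK (L1 U1)

private lemma SumN_Si_sub (x : ℕ) {ι : Type} [Fintype ι] [DecidableEq ι] (δ : ℝ) (i : ι) : Si x δ i ⊆ EZ ι x δ := by
  unfold Si EZ
  intro e he
  rw [Finset.mem_product] at he ⊢
  exact ⟨Finset.mem_univ _, he.2⟩

private lemma SumN_EZ_sub (x : ℕ) {ι : Type} [Fintype ι] [DecidableEq ι] (δ : ℝ) : EZ ι x δ ⊆ EX ι x := by
  unfold EZ EX
  intro e he
  rw [Finset.mem_product] at he ⊢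
  refine ⟨Finset.mem_univ _, ?_⟩
  unfold PZ at he
  exact (Finset.mem_filter.1 he.2).1

private lemma SumN_yy01 {ι : Type} [Fintype ι] [DecidableEq ι] (h : ι → ℕ) (n : ℕ) (e : ι × ℕ) :
    yy h n e = 0 ∨ yy h n e = 1 := by
  unfold yy
  split_ifs
  · exact Or.inr rfl
  · exact Or.inl rfl

private lemma SumN_My_nonneg {ι : Type} [Fintype ι] [DecidableEq ι] (x : ℕ) (δ : ℝ) (v : Finset (ι × ℕ) → ℝ) :
    0 ≤ My ι x δ v := by
  unfold My MM
  apply Finset.sum_nonneg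
  intro R hR
  apply mul_nonneg (sq_nonneg _)
  apply Finset.prod_nonneg
  intro e he
  have h1 := fo_gi (SumN_EZ_sub x δ (Finset.mem_powerset.1 hR he))
  unfold fo
  exact div_nonneg h1.2.1.le (by linarith [h1.2.2])

/-- support of the Selberg coefficients of a projected function -/
private lemma SumN_lam_sup {ι : Type} [Fintype ι] [DecidableEq ι] {P S : Finset (ι × ℕ)} {y : Finset (ι × ℕ) → ℝ}
    (Q : Finset (ι × ℕ)) (h : lam P gi (pr S (fo gi) y) Q ≠ 0) : Q ⊆ P \ S := by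
  obtain ⟨R, hQR, hRP, hR⟩ := lam_sup h
  have h1 := (pr_disj hR).1
  intro e he
  rw [Finset.mem_sdiff]
  exact ⟨hRP (hQR he), fun h2 => (Finset.disjoint_left.1 h1) (hQR he) h2⟩

open Classical in
theorem sumN (ι : Type) [Fintype ι] [DecidableEq ι] (h : ι → ℕ) (W b : ℕ) (hG : Good h W b) (B1 : ℕ)
    (δ θ a s f F ε : ℝ) (hδ : 0 < δ) (hδ1 : δ ≤ 1) (hθ : 0 ≤ θ) (ha : 0 ≤ a) (hs : 0 ≤ s) (hf : 0 ≤ f) (hF : 0 ≤ F)
    (hL : L1 s f) (hU : U1 s F) (hε : 0 < ε) (hlev : 2 * θ + δ * s + a < 1) (A : ℕ) :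
    ∀ᶠ x : ℕ in atTop, ∀ y : Finset (ι × ℕ) → ℝ, Yok x δ θ (Real.log x ^ B1) y →
      ∀ c : Finset ℕ → ℝ, ArrN x δ ((x : ℝ) ^ a) c → ∀ i,
      Mn ι W x * ((f - ε) * V1 x δ * evM (PX x) c) * My ι x δ (pr (Si x δ i) (fo gi) y) - x / Real.log x ^ A ≤
        ∑ n ∈ AA h W b x, Ly h x δ y n ^ 2 * (if ∀ p ∈ PZ x δ, ¬ p ∣ n + h i then evD (PX x) c (n + h i) else 0) ∧
      ∑ n ∈ AA h W b x, Ly h x δ y n ^ 2 * (if ∀ p ∈ PZ x δ, ¬ p ∣ n + h i then evD (PX x) c (n + h i) else 0) ≤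
        Mn ι W x * ((F + ε) * V1 x δ * evM (PX x) c) * My ι x δ (pr (Si x δ i) (fo gi) y) + x / Real.log x ^ A := by
  obtain ⟨η, hη, hη1⟩ : ∃ η : ℝ, 0 < η ∧ 2 * θ + δ * s + a ≤ 1 - η :=
    ⟨1 - (2 * θ + δ * s + a), by linarith, by linarith⟩
  obtain ⟨B2, hB2⟩ := yok_pr ι B1
  obtain ⟨Bv, hBv⟩ := cls_lam ι B2
  obtain ⟨B3, hB3⟩ := Mn_low ι h W b hG
  have hw := Filter.eventually_all.2 (fun i : ι => wtLU ι h i δ s f F ε hδ hδ1 hs hf hF hL hU hε)
  have hlog : ∀ᶠ x : ℕ in atTop, (3 : ℝ) ≤ Real.log x :=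
    (Real.tendsto_log_atTop.comp (tendsto_natCast_atTop_atTop (R := ℝ))).eventually (eventually_ge_atTop 3)
  filter_upwards [hB2, hBv, hB3, hw, hlog, eventually_ge_atTop 3,
    trI ι h W b hG (Bv + Bv + 1) 35 η (by norm_num) hη A]
    with x hyokpr hclslam hMn hwx hlog3 hx3 htr
  intro y hy c hc i
  have hlogx : (1 : ℝ) ≤ Real.log x := by linarith
  have hx1 : (1 : ℝ) ≤ (x : ℝ) := by
    have : (3 : ℝ) ≤ (x : ℝ) := by exact_mod_cast hx3
    linarith
  have hx0 : (0 : ℝ) < (x : ℝ) := by linarith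
  obtain ⟨cL, cU, hcLc, hcUc, hcLs, hcUs, hcLp, hcUp, hcLv, -, -, hcUv⟩ := hwx i
  set E := EX ι x with hE
  set P := EZ ι x δ with hP
  set S := Si x δ i with hS
  have hSP : S ⊆ P := SumN_Si_sub x δ i
  have hPE : P ⊆ E := SumN_EZ_sub x δ
  set v := pr S (fo gi) y with hv
  have hyv : Yok x δ θ (Real.log x ^ B2) v := hyokpr δ θ y S hSP hy
  have hlv : Cls x Bv 2 ((x : ℝ) ^ θ) (lam P gi v) := hclslam δ θ v hyv
  set lv := lam P gi v with hlvdef
  have hlvs : ∀ Q, lv Q ≠ 0 → Q ⊆ P \ S := fun Q hQ => SumN_lam_sup Q hQ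
  have hlvsP : ∀ Q, lv Q ≠ 0 → Q ⊆ P := fun Q hQ => (hlvs Q hQ).trans Finset.sdiff_subset
  set q := uc E lv lv with hq
  have hxθ : (0 : ℝ) ≤ (x : ℝ) ^ θ := Real.rpow_nonneg hx0.le _
  have hqc : Cls x (Bv + Bv) (2 + 2 + 2 * 2) ((x : ℝ) ^ θ * (x : ℝ) ^ θ) q :=
    cls_uc hlogx (by norm_num) (by norm_num) hxθ hxθ hlv hlv
  have hqs : ∀ Q, q Q ≠ 0 → Q ⊆ P \ S := by
    intro Q hQ
    have := (uc_sup hlvs hlvs Q hQ).1
    rwa [Finset.union_self] at this
  have hqE : q = uc P lv lv := uc_ground hPE hlvsP hlvsP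
  have hxx : (0 : ℝ) ≤ (x : ℝ) ^ θ * (x : ℝ) ^ θ := mul_nonneg hxθ hxθ
  -- the transported array
  have hcsup : ∀ T, c T ≠ 0 → T ⊆ PX x := fun T hT => ((hc.1 T).2 hT).1
  set Ec := trc i c with hEc
  have hEcc : Cls x 1 1 ((x : ℝ) ^ a) Ec := trc_cls i hlog3 hc
  set S3 : Finset (ι × ℕ) := {i} ×ˢ (PX x).filter (fun p : ℕ => (x : ℝ) ^ δ < p) with hS3
  have hEcs : ∀ Q, Ec Q ≠ 0 → Q ⊆ S3 := by
    intro Q hQ
    refine (trc_sup i (P := (PX x).filter (fun p : ℕ => (x : ℝ) ^ δ < p)) ?_ Q hQ).1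
    intro T hT p hp
    have h1 := (hc.1 T).2 hT
    exact Finset.mem_filter.2 ⟨h1.1 hp, h1.2.1 p hp⟩
  have hS3E : S3 ⊆ E := by
    intro e he
    rw [hS3, Finset.mem_product] at he
    rw [hE]
    unfold EX
    rw [Finset.mem_product]
    exact ⟨Finset.mem_univ _, (Finset.mem_filter.1 he.2).1⟩
  have hPS3 : Disjoint P S3 := by
    rw [Finset.disjoint_left]
    intro e he he3
    rw [hS3, Finset.mem_product] at he3
    rw [hP] at he
    unfold EZ PZ at he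
    rw [Finset.mem_product] at he
    have h1 := (Finset.mem_filter.1 he.2).2
    have h2 := (Finset.mem_filter.1 he3.2).2
    linarith
  -- evaluation at the density
  have hgP : ∀ e ∈ P, 0 < gi e ∧ gi e < 1 := fun e he => (fo_gi (hPE he)).2
  have hqval : Ev (P \ S) q gi = My ι x δ v := by
    rw [← Ev_sup (Finset.sdiff_subset : P \ S ⊆ P) hqs, hqE, hlvdef, EE_lam hgP]
    unfold My MM
    apply Finset.sum_congr rfl
    intro R hR
    rw [pow_two]
  have hdisj : Disjoint (P \ S) S := Finset.sdiff_disjoint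
  have hEcv : Ev E Ec gi = evM (PX x) c := trc_gi i x c hcsup
  -- pointwise values
  have hLyv : ∀ n, Ev E lv (yy h n) = Ly h x δ v n := by
    intro n
    rw [Ev_sup hPE hlvsP]
    rfl
  have hEcy : ∀ n, Ev E Ec (yy h n) = evD (PX x) c (n + h i) := fun n => trc_yy h i x c hcsup n
  have hrough : ∀ n, (∀ p ∈ PZ x δ, ¬ p ∣ n + h i) → Ly h x δ v n = Ly h x δ y n := by
    intro n hn
    have := Ev_lam_pr hSP hgP y (v := yy h n) (by
      intro e he
      rw [hS] at he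
      unfold Si at he
      rw [Finset.mem_product, Finset.mem_singleton] at he
      unfold yy
      rw [if_neg]
      rw [he.1]
      exact hn e.2 he.2)
    exact this
  -- everything about one weight
  have hgen : ∀ w : Finset (ι × ℕ) → ℝ, Cls x 0 1 ((x : ℝ) ^ (δ * s)) w → (∀ Q, w Q ≠ 0 → Q ⊆ S) →
      |∑ n ∈ AA h W b x, Ly h x δ v n ^ 2 * Ev E w (yy h n) * evD (PX x) c (n + h i) -
        Mn ι W x * (My ι x δ v * Ev S w gi * evM (PX x) c)| ≤ x / Real.log x ^ A := by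
    intro w hw hws
    have h0 := cls_uc hlogx (by norm_num) (by norm_num) hxx (Real.rpow_nonneg hx0.le _) hqc hw
    have h1 := cls_uc hlogx (by norm_num) (by norm_num)
      (mul_nonneg hxx (Real.rpow_nonneg hx0.le _)) (Real.rpow_nonneg hx0.le _) h0 hEcc
    have h2 : Cls x (Bv + Bv + 1) 35 ((x : ℝ) ^ (1 - η)) (uc E (uc E q w) Ec) := by
      refine Cls.mono h1 hlogx (by omega) (by norm_num) (by norm_num) ?_
      rw [← Real.rpow_add hx0, ← Real.rpow_add hx0, ← Real.rpow_add hx0]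
      apply Real.rpow_le_rpow_of_exponent_le hx1
      linarith
    have h3 := htr _ h2
    have hwP : ∀ Q, uc E q w Q ≠ 0 → Q ⊆ P := by
      intro Q hQ
      have := (uc_sup hqs hws Q hQ).1
      exact this.trans (Finset.union_subset Finset.sdiff_subset hSP)
    have h4 : Ev E (uc E q w) gi = My ι x δ v * Ev S w gi := by
      rw [Ev_uc_disj (Finset.sdiff_subset.trans hPE) (hSP.trans hPE) hdisj hqs hws, hqval]
    have h5 : Ev E (uc E (uc E q w) Ec) gi = My ι x δ v * Ev S w gi * evM (PX x) c := by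
      rw [Ev_uc_disj hPE hS3E hPS3 hwP hEcs, ← Ev_sup hPE hwP, h4, ← Ev_sup hS3E hEcs, hEcv]
    have h6 : ∀ n, Ev E (uc E (uc E q w) Ec) (yy h n) =
        Ly h x δ v n ^ 2 * Ev E w (yy h n) * evD (PX x) c (n + h i) := by
      intro n
      rw [Ev_uc _ _ (fun e _ => SumN_yy01 h n e), Ev_uc _ _ (fun e _ => SumN_yy01 h n e), hq,
        Ev_uc _ _ (fun e _ => SumN_yy01 h n e), hLyv, hEcy]
      ring
    rw [h5, Finset.sum_congr rfl (fun n _ => h6 n)] at h3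
    exact h3
  have hMn0 : 0 ≤ Mn ι W x := by
    refine le_trans ?_ hMn
    exact div_nonneg hx0.le (pow_nonneg (by linarith) _)
  have hMy0 : 0 ≤ My ι x δ v := SumN_My_nonneg x δ v
  have hM0 : 0 ≤ evM (PX x) c := hc.2.2
  have hC0 : 0 ≤ Mn ι W x * (My ι x δ v * evM (PX x) c) := mul_nonneg hMn0 (mul_nonneg hMy0 hM0)
  constructor
  · have ht := abs_le.1 (hgen cL hcLc hcLs)
    have key : ∀ n ∈ AA h W b x, Ly h x δ v n ^ 2 * Ev E cL (yy h n) * evD (PX x) c (n + h i) ≤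
        Ly h x δ y n ^ 2 * (if ∀ p ∈ PZ x δ, ¬ p ∣ n + h i then evD (PX x) c (n + h i) else 0) := by
      intro n _
      have hcL1 := hcLp n
      have hD0 : 0 ≤ evD (PX x) c (n + h i) := hc.2.1 (n + h i)
      by_cases hr1 : ∀ p ∈ PZ x δ, ¬ p ∣ n + h i
      · rw [if_pos hr1] at hcL1
        rw [if_pos hr1, hrough n hr1]
        apply mul_le_mul_of_nonneg_right _ hD0
        have := mul_le_mul_of_nonneg_left hcL1 (sq_nonneg (Ly h x δ y n))
        linarith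
      · rw [if_neg hr1] at hcL1
        rw [if_neg hr1, mul_zero]
        exact mul_nonpos_of_nonpos_of_nonneg (mul_nonpos_of_nonneg_of_nonpos (sq_nonneg _) hcL1) hD0
    have hsum := Finset.sum_le_sum key
    have h1 := mul_le_mul_of_nonneg_left hcLv hC0
    have e1 : Mn ι W x * (My ι x δ v * evM (PX x) c) * ((f - ε) * V1 x δ) =
      Mn ι W x * ((f - ε) * V1 x δ * evM (PX x) c) * My ι x δ v := by ring
    have e2 : Mn ι W x * (My ι x δ v * evM (PX x) c) * Ev S cL gi =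
      Mn ι W x * (My ι x δ v * Ev S cL gi * evM (PX x) c) := by ring
    rw [e1, e2] at h1
    linarith [ht.1]
  · have ht := abs_le.1 (hgen cU hcUc hcUs)
    have key : ∀ n ∈ AA h W b x,
        Ly h x δ y n ^ 2 * (if ∀ p ∈ PZ x δ, ¬ p ∣ n + h i then evD (PX x) c (n + h i) else 0) ≤
        Ly h x δ v n ^ 2 * Ev E cU (yy h n) * evD (PX x) c (n + h i) := by
      intro n _
      have hcU1 := hcUp n
      have hD0 : 0 ≤ evD (PX x) c (n + h i) := hc.2.1 (n + h i)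
      by_cases hr1 : ∀ p ∈ PZ x δ, ¬ p ∣ n + h i
      · rw [if_pos hr1] at hcU1
        rw [if_pos hr1, hrough n hr1]
        apply mul_le_mul_of_nonneg_right _ hD0
        have := mul_le_mul_of_nonneg_left hcU1 (sq_nonneg (Ly h x δ y n))
        linarith
      · rw [if_neg hr1] at hcU1
        rw [if_neg hr1, mul_zero]
        exact mul_nonneg (mul_nonneg (sq_nonneg _) hcU1) hD0
    have hsum := Finset.sum_le_sum key
    have h1 := mul_le_mul_of_nonneg_left hcUv hC0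
    have e1 : Mn ι W x * (My ι x δ v * evM (PX x) c) * ((F + ε) * V1 x δ) =
      Mn ι W x * ((F + ε) * V1 x δ * evM (PX x) c) * My ι x δ v := by ring
    have e2 : Mn ι W x * (My ι x δ v * evM (PX x) c) * Ev S cU gi =
      Mn ι W x * (My ι x δ v * Ev S cU gi * evM (PX x) c) := by ring
    rw [e1, e2] at h1
    linarith [ht.2]

end Pool.Agent.H36.IS2

end

section

/-!
# ISP LossP: pointwise bound outside R12

`SL_cof`: a = p₁ p₂ ∈ SL x 0.09 0.3348: p₁ ≤ 3x/p₂² < 3 x^(1 - 0.6696), a² = p₁ · (p₁ p₂²) ≤ 3 x^(0.3304) · 3x, so a ≤ 3 x^(0.6652) ≤ x^(0.7) for large x;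
 the prime factors of a are p₁, p₂ > x^(0.09) > x^δ.
`loss_pt`: let x be large, x < m ≤ 2x + s, m not in R12, no p ∈ PZ x δ divides m, no p ∈ PZ x 0.09 \ PZ x δ divides m; let N = #{q ∈ PZ x 0.3348 \ PZ x 0.09 : q ∣ m}.
Then 1 - N/2 ≤ (1/2) [MkS (SL x) m] + [∃ p prime, x^δ < p, p² ∣ m].
Proof: all prime factors of m are > x^(0.09) (those ≤ z0 x: hypothesis hz), hence m < p^12 for them (p^12 > x^(1.08) > 2x + s);
so m ∉ R12 means m has at least 3 prime factors with multiplicity.  If N ≥ 2 the left side is ≤ 0.  If some p² ∣ m the right side is ≥ 1.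
Otherwise m is squarefree.  If N = 0: three prime factors > x^(0.3348): m > x^(1.0044) > 2x + s, contradiction.  If N = 1: p₁ the only prime factor
≤ x^(0.3348), the others are > x^(0.3348); there are exactly two others (three: m > x^(0.09 + 1.0044)): m = p₁ p₂ p₃ with p₂ < p₃,
p₁ p₂² < m ≤ 2x + s ≤ 3x, so a = p₁ p₂ ∈ SL and m/a = p₃ is prime.
-/

set_option autoImplicit false

namespace Pool.Agent.H36.IS2

open Finset Filter Pool.Agent.H36.IS Pool.Agent.H76.ISE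

private theorem LossP_ev (c : ℝ) (r : ℝ) (hr : 0 < r) :
    ∀ᶠ x : ℕ in atTop, c ≤ (x : ℝ) ^ r :=
  ((tendsto_rpow_atTop hr).comp tendsto_natCast_atTop_atTop).eventually_ge_atTop c

theorem SL_cof (δ : ℝ) (hδ : 0 < δ) (hδ1 : δ < 0.09) : ∀ᶠ x : ℕ in atTop, ∀ a ∈ SL x 0.09 0.3348,
    0 < a ∧ (a : ℝ) ≤ (x : ℝ) ^ (7 / 10 : ℝ) ∧ ∀ p : ℕ, p.Prime → p ∣ a → (x : ℝ) ^ δ < p := by
  filter_upwards [LossP_ev 9 0.0696 (by norm_num), eventually_ge_atTop 1] with x hx hx1 a ha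
  have hxr : (1 : ℝ) ≤ x := by exact_mod_cast hx1
  have hx0 : (0 : ℝ) < x := by linarith
  unfold SL at ha
  rw [mem_image] at ha
  obtain ⟨⟨p₁, p₂⟩, hpq, rfl⟩ := ha
  rw [mem_filter, mem_product, mem_filter, mem_filter] at hpq
  obtain ⟨⟨⟨-, hp1, h1, h2⟩, -, hp2, h3⟩, h4⟩ := hpq
  simp only at hp1 h1 h2 hp2 h3 h4 ⊢
  have q1 : (0 : ℝ) < p₁ := by exact_mod_cast hp1.pos
  have q2 : (0 : ℝ) < p₂ := by exact_mod_cast hp2.pos
  have h4' : (p₁ : ℝ) * (p₂ : ℝ) ^ 2 ≤ 3 * x := by exact_mod_cast h4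
  refine ⟨Nat.mul_pos hp1.pos hp2.pos, ?_, ?_⟩
  · -- the size
    have e1 : ((x : ℝ) ^ (0.3348 : ℝ)) ^ 2 = (x : ℝ) ^ (0.6696 : ℝ) := by
      rw [← Real.rpow_natCast, ← Real.rpow_mul hx0.le]
      norm_num
    have e2 : (x : ℝ) ^ (0.6696 : ℝ) ≤ (p₂ : ℝ) ^ 2 := by
      rw [← e1]
      exact pow_le_pow_left₀ (by positivity) h3.le 2
    have e3 : (p₁ : ℝ) * (x : ℝ) ^ (0.6696 : ℝ) ≤ 3 * x :=
      (mul_le_mul_of_nonneg_left e2 q1.le).trans h4'
    have e4 : (x : ℝ) ^ (0.6696 : ℝ) * (x : ℝ) ^ (0.3304 : ℝ) = x := by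
      rw [← Real.rpow_add hx0]
      norm_num
    have e5 : (p₁ : ℝ) ≤ 3 * (x : ℝ) ^ (0.3304 : ℝ) := by
      have : (0 : ℝ) < (x : ℝ) ^ (0.6696 : ℝ) := by positivity
      refine le_of_mul_le_mul_right ?_ this
      calc (p₁ : ℝ) * (x : ℝ) ^ (0.6696 : ℝ) ≤ 3 * x := e3
        _ = 3 * ((x : ℝ) ^ (0.6696 : ℝ) * (x : ℝ) ^ (0.3304 : ℝ)) := by rw [e4]
        _ = 3 * (x : ℝ) ^ (0.3304 : ℝ) * (x : ℝ) ^ (0.6696 : ℝ) := by ring
    have e6 : ((p₁ : ℝ) * p₂) ^ 2 ≤ ((x : ℝ) ^ (7 / 10 : ℝ)) ^ 2 := by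
      calc ((p₁ : ℝ) * p₂) ^ 2 = p₁ * (p₁ * p₂ ^ 2) := by ring
        _ ≤ (3 * (x : ℝ) ^ (0.3304 : ℝ)) * (3 * x) :=
            mul_le_mul e5 h4' (by positivity) (by positivity)
        _ = 9 * ((x : ℝ) ^ (0.3304 : ℝ) * x) := by ring
        _ ≤ (x : ℝ) ^ (0.0696 : ℝ) * ((x : ℝ) ^ (0.3304 : ℝ) * x) :=
            mul_le_mul_of_nonneg_right hx (by positivity)
        _ = (x : ℝ) ^ (0.0696 : ℝ) * ((x : ℝ) ^ (0.3304 : ℝ) * (x : ℝ) ^ (1 : ℝ)) := by
            rw [Real.rpow_one]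
        _ = ((x : ℝ) ^ (7 / 10 : ℝ)) ^ 2 := by
            rw [← Real.rpow_add hx0, ← Real.rpow_add hx0, ← Real.rpow_natCast,
              ← Real.rpow_mul hx0.le]
            norm_num
    push_cast
    exact (pow_le_pow_iff_left₀ (by positivity) (by positivity) two_ne_zero).1 e6
  · intro p hp hpa
    have b1 : (x : ℝ) ^ δ ≤ (x : ℝ) ^ (0.09 : ℝ) := Real.rpow_le_rpow_of_exponent_le hxr hδ1.le
    have b2 : (x : ℝ) ^ δ ≤ (x : ℝ) ^ (0.3348 : ℝ) :=
      Real.rpow_le_rpow_of_exponent_le hxr (by linarith)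
    rcases hp.dvd_mul.1 hpa with h | h
    · rw [(Nat.prime_dvd_prime_iff_eq hp hp1).1 h]
      linarith
    · rw [(Nat.prime_dvd_prime_iff_eq hp hp2).1 h]
      linarith

open Classical in
theorem loss_pt (δ : ℝ) (hδ : 0 < δ) (hδ1 : δ < 0.09) (s : ℕ) : ∀ᶠ x : ℕ in atTop, ∀ m : ℕ, x < m → m ≤ 2 * x + s →
    ¬ R12 m → (∀ p : ℕ, p.Prime → (p : ℝ) ≤ z0 x → ¬ p ∣ m) → (∀ p ∈ PZ x δ, ¬ p ∣ m) →
    (∀ p ∈ PZ x 0.09 \ PZ x δ, ¬ p ∣ m) →
    1 - 1 / 2 * (((PZ x 0.3348 \ PZ x 0.09).filter (fun q => q ∣ m)).card : ℝ) ≤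
      (if MkS (SL x 0.09 0.3348) m then 1 / 2 else 0) +
        (if ∃ p : ℕ, p.Prime ∧ (x : ℝ) ^ δ < p ∧ p ^ 2 ∣ m then 1 else 0) := by
  filter_upwards [LossP_ev 3 0.0044 (by norm_num), eventually_ge_atTop (s + 1)] with x hx hxs
    m hm1 hm2 hR hz h1 h2
  have hx1 : 1 ≤ x := by omega
  have hxr : (1 : ℝ) ≤ x := by exact_mod_cast hx1
  have hx0 : (0 : ℝ) < x := by linarith
  have hm0 : m ≠ 0 := by omega
  have hm3 : m ≤ 3 * x := by omega
  have hm3r : (m : ℝ) ≤ 3 * x := by exact_mod_cast hm3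
  -- size
  have hbig : (m : ℝ) ≤ (x : ℝ) ^ (1.0044 : ℝ) := by
    calc (m : ℝ) ≤ 3 * x := hm3r
      _ ≤ (x : ℝ) ^ (0.0044 : ℝ) * x := mul_le_mul_of_nonneg_right hx hx0.le
      _ = (x : ℝ) ^ (0.0044 : ℝ) * (x : ℝ) ^ (1 : ℝ) := by rw [Real.rpow_one]
      _ = (x : ℝ) ^ (1.0044 : ℝ) := by
          rw [← Real.rpow_add hx0]
          norm_num
  -- all prime factors are large
  have hlarge : ∀ p : ℕ, p.Prime → p ∣ m → (x : ℝ) ^ (0.09 : ℝ) < p := by
    intro p hp hpm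
    by_contra hcon
    push Not at hcon
    have hpx : (p : ℝ) ≤ x := by
      calc (p : ℝ) ≤ (x : ℝ) ^ (0.09 : ℝ) := hcon
        _ ≤ (x : ℝ) ^ (1 : ℝ) := Real.rpow_le_rpow_of_exponent_le hxr (by norm_num)
        _ = x := Real.rpow_one _
    have hpx' : p ≤ x := by exact_mod_cast hpx
    have hz' : z0 x < p := by
      by_contra hc
      exact hz p hp (not_lt.1 hc) hpm
    have hmem : p ∈ PZ x 0.09 := by
      unfold PZ PX
      rw [mem_filter, mem_filter, mem_range]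
      exact ⟨⟨by omega, hp, hz'⟩, hcon⟩
    by_cases hmd : p ∈ PZ x δ
    · exact h1 p hmd hpm
    · exact h2 p (mem_sdiff.2 ⟨hmem, hmd⟩) hpm
  have hrough : ∀ p : ℕ, p.Prime → p ∣ m → m < p ^ 12 := by
    intro p hp hpm
    have a1 := hlarge p hp hpm
    have a2 : ((x : ℝ) ^ (0.09 : ℝ)) ^ 12 = (x : ℝ) ^ (1.08 : ℝ) := by
      rw [← Real.rpow_natCast, ← Real.rpow_mul hx0.le]
      norm_num
    have a3 : ((x : ℝ) ^ (0.09 : ℝ)) ^ 12 < (p : ℝ) ^ 12 :=
      pow_lt_pow_left₀ a1 (by positivity) (by norm_num)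
    have a4 : (x : ℝ) ^ (1.0044 : ℝ) ≤ (x : ℝ) ^ (1.08 : ℝ) :=
      Real.rpow_le_rpow_of_exponent_le hxr (by norm_num)
    have a5 : (m : ℝ) < (p : ℝ) ^ 12 := by linarith
    exact_mod_cast a5
  have hlen : 3 ≤ m.primeFactorsList.length := by
    by_contra hcon
    exact hR ⟨by omega, hrough⟩
  have hn0 : (0 : ℝ) ≤ (if MkS (SL x 0.09 0.3348) m then 1 / 2 else 0) := by
    split_ifs <;> norm_num
  -- square factors
  by_cases hsq : ∃ p : ℕ, p.Prime ∧ (x : ℝ) ^ δ < p ∧ p ^ 2 ∣ m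
  · rw [if_pos hsq]
    have : (0 : ℝ) ≤ (((PZ x 0.3348 \ PZ x 0.09).filter (fun q => q ∣ m)).card : ℝ) :=
      Nat.cast_nonneg _
    linarith
  rw [if_neg hsq, add_zero]
  have hδx : (x : ℝ) ^ δ ≤ (x : ℝ) ^ (0.09 : ℝ) := Real.rpow_le_rpow_of_exponent_le hxr hδ1.le
  have hsqf : Squarefree m := by
    rw [Nat.squarefree_iff_prime_squarefree]
    intro p hp hpp
    refine hsq ⟨p, hp, ?_, by rw [pow_two]; exact hpp⟩
    have := hlarge p hp (dvd_trans (dvd_mul_right p p) hpp)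
    linarith
  have hcard : 3 ≤ m.primeFactors.card := by
    have : m.primeFactorsList.toFinset.card = m.primeFactorsList.length :=
      List.toFinset_card_of_nodup ((Nat.squarefree_iff_nodup_primeFactorsList hm0).1 hsqf)
    have h' : m.primeFactors = m.primeFactorsList.toFinset := rfl
    rw [h', this]
    exact hlen
  set F₁ : Finset ℕ := m.primeFactors.filter (fun p : ℕ => (p : ℝ) ≤ (x : ℝ) ^ (0.3348 : ℝ)) with hF₁
  set F₂ : Finset ℕ := m.primeFactors.filter (fun p : ℕ => ¬ (p : ℝ) ≤ (x : ℝ) ^ (0.3348 : ℝ)) with hF₂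
  have hF₁N : (PZ x 0.3348 \ PZ x 0.09).filter (fun q => q ∣ m) = F₁ := by
    ext p
    rw [Finset.mem_filter, Finset.mem_sdiff, hF₁, Finset.mem_filter, Nat.mem_primeFactors]
    constructor
    · rintro ⟨⟨ha, hb⟩, hc⟩
      unfold PZ PX at ha
      rw [mem_filter, mem_filter] at ha
      exact ⟨⟨ha.1.2.1, hc, hm0⟩, ha.2⟩
    · rintro ⟨⟨hp, hpm, -⟩, hle⟩
      have hl := hlarge p hp hpm
      have hpx : (p : ℝ) ≤ x := by
        calc (p : ℝ) ≤ (x : ℝ) ^ (0.3348 : ℝ) := hle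
          _ ≤ (x : ℝ) ^ (1 : ℝ) := Real.rpow_le_rpow_of_exponent_le hxr (by norm_num)
          _ = x := Real.rpow_one _
      have hpx' : p ≤ x := by exact_mod_cast hpx
      have hz' : z0 x < p := by
        by_contra hc
        exact hz p hp (not_lt.1 hc) hpm
      refine ⟨⟨?_, ?_⟩, hpm⟩
      · unfold PZ PX
        rw [mem_filter, mem_filter, mem_range]
        exact ⟨⟨by omega, hp, hz'⟩, hle⟩
      · intro hc
        unfold PZ at hc
        rw [mem_filter] at hc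
        linarith [hc.2]
  rw [hF₁N]
  have hsum : F₁.card + F₂.card = m.primeFactors.card :=
    card_filter_add_card_filter_not _
  have hprodm : ∏ p ∈ m.primeFactors, p = m := Nat.prod_primeFactors_of_squarefree hsqf
  have hpos : ∀ p ∈ m.primeFactors, 0 < p := fun p hp => (Nat.prime_of_mem_primeFactors hp).pos
  have hprod : (∏ p ∈ F₁, p) * ∏ p ∈ F₂, p = m := by
    rw [← hprodm]
    exact prod_filter_mul_prod_filter_not _ _ _
  have hF₂le : F₂.card ≤ 2 := by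
    by_contra hcon
    have c1 : ((x : ℝ) ^ (0.3348 : ℝ)) ^ F₂.card < ∏ p ∈ F₂, (p : ℝ) := by
      rw [← prod_const]
      have hne : F₂.Nonempty := card_pos.1 (by omega)
      refine prod_lt_prod_of_nonempty (fun i _ => by positivity) (fun i hi => ?_) hne
      rw [hF₂, mem_filter] at hi
      exact not_le.1 hi.2
    have c2 : (1 : ℝ) ≤ (x : ℝ) ^ (0.3348 : ℝ) := Real.one_le_rpow hxr (by norm_num)
    have c3 : ((x : ℝ) ^ (0.3348 : ℝ)) ^ 3 ≤ ((x : ℝ) ^ (0.3348 : ℝ)) ^ F₂.card :=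
      pow_le_pow_right₀ c2 (by omega)
    have c4 : ((x : ℝ) ^ (0.3348 : ℝ)) ^ 3 = (x : ℝ) ^ (1.0044 : ℝ) := by
      rw [← Real.rpow_natCast, ← Real.rpow_mul hx0.le]
      norm_num
    have c5 : ∏ p ∈ F₂, (p : ℝ) ≤ m := by
      have : ∏ p ∈ F₂, p ≤ m := by
        conv_rhs => rw [← hprod]
        refine Nat.le_mul_of_pos_left _ (prod_pos fun p hp => hpos p ?_)
        exact (mem_filter.1 hp).1
      have h' : ((∏ p ∈ F₂, p : ℕ) : ℝ) ≤ m := by exact_mod_cast this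
      rwa [Nat.cast_prod] at h'
    linarith
  rcases Nat.lt_or_ge 1 F₁.card with hN | hN
  · have : (2 : ℝ) ≤ (F₁.card : ℝ) := by exact_mod_cast hN
    linarith
  have hc1 : F₁.card = 1 := by omega
  have hc2 : F₂.card = 2 := by omega
  obtain ⟨p₁, hp₁⟩ := card_eq_one.1 hc1
  obtain ⟨p₂, p₃, hp₂₃, hp₂⟩ : ∃ p₂ p₃, p₂ < p₃ ∧ F₂ = {p₂, p₃} := by
    obtain ⟨a, b, hab, hF⟩ := card_eq_two.1 hc2
    rcases lt_or_gt_of_ne hab with h | h
    · exact ⟨a, b, h, hF⟩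
    · exact ⟨b, a, h, by rw [hF, pair_comm]⟩
  have m1 : p₁ ∈ F₁ := by rw [hp₁]; exact mem_singleton_self _
  have m2 : p₂ ∈ F₂ := by rw [hp₂]; simp
  have m3 : p₃ ∈ F₂ := by rw [hp₂]; simp
  rw [hF₁, mem_filter] at m1
  rw [hF₂, mem_filter] at m2 m3
  have P1 := Nat.prime_of_mem_primeFactors m1.1
  have P2 := Nat.prime_of_mem_primeFactors m2.1
  have P3 := Nat.prime_of_mem_primeFactors m3.1
  have hmeq : p₁ * p₂ * p₃ = m := by
    rw [hp₁, hp₂, prod_singleton, prod_pair hp₂₃.ne] at hprod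
    rw [← hprod]
    ring
  have hM : MkS (SL x 0.09 0.3348) m := by
    refine ⟨p₁ * p₂, ?_, ⟨p₃, hmeq.symm⟩, ?_⟩
    · have hle : p₁ * p₂ ^ 2 ≤ 3 * x := by
        calc p₁ * p₂ ^ 2 = p₁ * p₂ * p₂ := by ring
          _ ≤ p₁ * p₂ * p₃ := Nat.mul_le_mul_left _ hp₂₃.le
          _ = m := hmeq
          _ ≤ 3 * x := hm3
      have hle1 : p₁ ≤ 3 * x := (Nat.le_of_dvd (by omega) (Nat.dvd_of_mem_primeFactors m1.1)).trans hm3
      have hle2 : p₂ ≤ 3 * x := (Nat.le_of_dvd (by omega) (Nat.dvd_of_mem_primeFactors m2.1)).trans hm3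
      unfold SL
      rw [mem_image]
      refine ⟨(p₁, p₂), ?_, rfl⟩
      rw [mem_filter, mem_product, mem_filter, mem_filter, mem_range, mem_range]
      refine ⟨⟨⟨by simp only; omega, P1, ?_, m1.2⟩, by simp only; omega, P2, not_le.1 m2.2⟩, hle⟩
      exact hlarge p₁ P1 (Nat.dvd_of_mem_primeFactors m1.1)
    · have : m / (p₁ * p₂) = p₃ := by
        rw [← hmeq]
        exact Nat.mul_div_cancel_left _ (Nat.mul_pos P1.pos P2.pos)
      rw [this]
      exact P3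
  rw [if_pos hM, hc1]
  norm_num

end Pool.Agent.H36.IS2

end

section

/-!
# ISP LossN: the size of the loss

`DP_cof_up`: for a ≤ x^(7/10): DP(x/a) log x/x ≤ (1 + ε)(1/a)/(1 - log a/log x)   (as `DP_cof` in Pool/Agent/H76/ISE/DPa.lean, with the upper bound of
 `DP_pnt`: y = x/a (floor) → ∞ uniformly, DP y ≤ (1+ε') y/log y, and t/log t is increasing for t ≥ e.)
Cells: α_0 = 0.09, α_j = ca j + ν (j ≥ 1), β_0 = 0.3348, β_k = cb k + ν (k ≥ 1).  A pair (p₁,p₂) with p₁ p₂² ≤ 3x < x^(1+ν) lies in a cell (j,k) with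
 j + 2k < 40.  In a cell: 1/(1 - log a/log x) ≤ 1/(1 - ca (j+1) - cb (k+1) - 2ν) and ∑ 1/(p₁p₂) ≤ ∑ fn p₁ ∑ fn p₂ (`mert_cell`).
ν is chosen by continuity from `loss_num`.
-/

set_option autoImplicit false

namespace Pool.Agent.H36.IS2

open Finset Filter Pool.Agent.H36.IS Pool.Agent.H76.ISE

theorem DP_cof_up (ε : ℝ) (hε : 0 < ε) : ∀ᶠ x : ℕ in atTop, ∀ a : ℕ, 0 < a → (a : ℝ) ≤ (x : ℝ) ^ (7 / 10 : ℝ) →
    DP (x / a) * Real.log x / x ≤ (1 + ε) * (1 / (a : ℝ) * (1 / (1 - Real.log a / Real.log x))) := by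
  obtain ⟨Y, hY⟩ := eventually_atTop.1 (DP_pnt ε hε)
  have ht : Tendsto (fun x : ℕ => (x : ℝ) ^ (3 / 10 : ℝ)) atTop atTop :=
    (tendsto_rpow_atTop (by norm_num)).comp tendsto_natCast_atTop_atTop
  filter_upwards [ht.eventually_ge_atTop (Y + 4 : ℝ), eventually_ge_atTop 2] with x hx3 hx2 a ha hax
  have hxR : (2 : ℝ) ≤ x := by exact_mod_cast hx2
  have hx0 : (0 : ℝ) < x := by linarith
  have haR : (1 : ℝ) ≤ a := by exact_mod_cast ha
  have ha0 : (0 : ℝ) < a := by linarith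
  -- x / a is large
  have hq : (x : ℝ) ^ (3 / 10 : ℝ) ≤ x / a := by
    rw [le_div_iff₀ ha0]
    calc (x : ℝ) ^ (3 / 10 : ℝ) * a ≤ (x : ℝ) ^ (3 / 10 : ℝ) * (x : ℝ) ^ (7 / 10 : ℝ) :=
          mul_le_mul_of_nonneg_left hax (by positivity)
      _ = x := by
          rw [← Real.rpow_add hx0]
          norm_num
  have hfl : (x : ℝ) / a - 1 < ((x / a : ℕ) : ℝ) := by
    have := Nat.lt_floor_add_one ((x : ℝ) / a)
    rw [Nat.floor_div_natCast, Nat.floor_natCast] at this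
    linarith
  have hfl2 : ((x / a : ℕ) : ℝ) ≤ x / a := Nat.cast_div_le
  set y : ℕ := x / a with hy
  have hY0 : (0 : ℝ) ≤ Y := Nat.cast_nonneg Y
  have hyY : Y ≤ y := by
    have : (Y : ℝ) ≤ y := by linarith
    exact_mod_cast this
  have hy3 : (3 : ℝ) < y := by linarith
  have he : Real.exp 1 ≤ y := by
    have := Real.exp_one_lt_d9
    linarith
  have hy0 : (0 : ℝ) < y := by linarith
  have hlogy : 0 < Real.log y := Real.log_pos (by linarith)
  have hDP := (hY y hyY).2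
  have hlogx : 0 < Real.log x := Real.log_pos (by linarith)
  have hX0 : (0 : ℝ) < x / a := div_pos hx0 ha0
  have hlX : 0 < Real.log ((x : ℝ) / a) := Real.log_pos (by linarith)
  have hlog : Real.log ((x : ℝ) / a) = Real.log x - Real.log a := Real.log_div hx0.ne' ha0.ne'
  have hmono : (y : ℝ) / Real.log y ≤ (x / a) / Real.log ((x : ℝ) / a) := by
    have h1 := Real.log_div_self_antitoneOn (a := (y : ℝ)) (b := (x : ℝ) / a) he (he.trans hfl2) hfl2
    simp only at h1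
    rw [div_le_div_iff₀ hX0 hy0] at h1
    rw [div_le_div_iff₀ hlogy hlX]
    linarith
  have hd : 0 < Real.log x - Real.log a := by rw [← hlog]; exact hlX
  have h6 : 1 / (1 - Real.log a / Real.log x) = Real.log x / (Real.log x - Real.log a) := by
    have : 1 - Real.log a / Real.log x = (Real.log x - Real.log a) / Real.log x := by
      field_simp
    rw [this, one_div_div]
  rw [h6]
  have h7 : DP y ≤ (1 + ε) * ((x / a) / (Real.log x - Real.log a)) := by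
    rw [← hlog]
    exact hDP.trans (mul_le_mul_of_nonneg_left hmono (by linarith))
  have h8 : (1 + ε) * (1 / (a : ℝ) * (Real.log x / (Real.log x - Real.log a))) =
      (1 + ε) * ((x / a) / (Real.log x - Real.log a)) * Real.log x / x := by
    field_simp
  rw [h8]
  apply div_le_div_of_nonneg_right _ hx0.le
  exact mul_le_mul_of_nonneg_right h7 hlogx.le

/-- the bound as a function of `ν` -/
private noncomputable def Hn (ν : ℝ) : ℝ := ∑ j ∈ range 40, ∑ k ∈ range 20,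
  (if j + 2 * k < 40 then (1 + ν) * ((Real.log ((ca (j + 1) + ν) / ca j) + ν) * (Real.log ((cb (k + 1) + ν) / cb k) + ν)) /
    (1 - (ca (j + 1) + ν) - (cb (k + 1) + ν)) else 0)

private theorem ca_pos (j : ℕ) : 0 < ca j := by unfold ca; positivity

private theorem cb_pos (j : ℕ) : 0 < cb j := by unfold cb; positivity

private theorem den_pos {j k : ℕ} (h : j + 2 * k < 40) : 0.3 < 1 - ca (j + 1) - cb (k + 1) := by
  have h1 : (j : ℝ) + 2 * k ≤ 39 := by exact_mod_cast (by omega : j + 2 * k ≤ 39)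
  have h2 : (0 : ℝ) ≤ k := Nat.cast_nonneg k
  unfold ca cb
  push_cast
  norm_num
  linarith

private theorem Hn_lim : Tendsto Hn (nhds 0) (nhds (Hn 0)) := by
  unfold Hn
  refine tendsto_finsetSum _ (fun j _ => tendsto_finsetSum _ (fun k _ => ?_))
  split_ifs with h
  · have hd := den_pos h
    have h1 : ContinuousAt (fun ν : ℝ => (1 + ν) * ((Real.log ((ca (j + 1) + ν) / ca j) + ν) *
        (Real.log ((cb (k + 1) + ν) / cb k) + ν)) / (1 - (ca (j + 1) + ν) - (cb (k + 1) + ν))) 0 := by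
      have e1 : ContinuousAt (fun ν : ℝ => Real.log ((ca (j + 1) + ν) / ca j)) 0 := by
        apply ContinuousAt.log
        · fun_prop
        · have := div_pos (ca_pos (j + 1)) (ca_pos j)
          simp only [add_zero]
          exact this.ne'
      have e2 : ContinuousAt (fun ν : ℝ => Real.log ((cb (k + 1) + ν) / cb k)) 0 := by
        apply ContinuousAt.log
        · fun_prop
        · have := div_pos (cb_pos (k + 1)) (cb_pos k)
          simp only [add_zero]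
          exact this.ne'
      apply ContinuousAt.div
      · fun_prop
      · fun_prop
      · simp only [add_zero]
        norm_num at hd
        linarith
    exact h1
  · exact tendsto_const_nhds

private theorem Hn_zero : Hn 0 ≤ 2 * 0.2867 := by
  have h := loss_num
  have h1 : Hn 0 = ∑ j ∈ range 40, ∑ k ∈ range 20,
    (if j + 2 * k < 40 then Real.log (ca (j + 1) / ca j) * Real.log (cb (k + 1) / cb k) /
      (1 - ca (j + 1) - cb (k + 1)) else 0) := by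
    unfold Hn
    simp
  rw [h1]
  linarith

private theorem Hn_ex : ∃ ν : ℝ, 0 < ν ∧ ν ≤ 0.0001 ∧ Hn ν ≤ 2 * 0.2868 := by
  have h1 : ∀ᶠ ν in nhds (0 : ℝ), Hn ν < 2 * 0.2868 :=
    Hn_lim.eventually_lt_const (lt_of_le_of_lt Hn_zero (by norm_num))
  have h2 : ∀ᶠ ν in nhdsWithin (0 : ℝ) (Set.Ioi 0), Hn ν < 2 * 0.2868 := h1.filter_mono nhdsWithin_le_nhds
  have h3 : ∀ᶠ ν in nhdsWithin (0 : ℝ) (Set.Ioi 0), ν ∈ Set.Ioo (0 : ℝ) 0.0001 :=
    Ioo_mem_nhdsGT (by norm_num)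
  obtain ⟨ν, h4, h5⟩ := (h2.and h3).exists
  exact ⟨ν, h5.1, h5.2.le, h4.le⟩

private noncomputable def aa (ν : ℝ) (j : ℕ) : ℝ := if j = 0 then 0.09 else ca j + ν

private noncomputable def bb (ν : ℝ) (k : ℕ) : ℝ := if k = 0 then 0.3348 else cb k + ν

private theorem aa_ge {ν : ℝ} (hν : 0 < ν) (j : ℕ) : ca j ≤ aa ν j := by
  unfold aa
  split_ifs with h
  · rw [h]; unfold ca; norm_num
  · linarith

private theorem bb_ge {ν : ℝ} (hν : 0 < ν) (j : ℕ) : cb j ≤ bb ν j := by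
  unfold bb
  split_ifs with h
  · rw [h]; unfold cb; norm_num
  · linarith

private theorem aa_succ (ν : ℝ) (j : ℕ) : aa ν (j + 1) = ca (j + 1) + ν := by
  unfold aa
  rw [if_neg (Nat.succ_ne_zero j)]

private theorem bb_succ (ν : ℝ) (j : ℕ) : bb ν (j + 1) = cb (j + 1) + ν := by
  unfold bb
  rw [if_neg (Nat.succ_ne_zero j)]

private theorem find_cell (f : ℕ → ℝ) (u : ℝ) (N : ℕ) (h0 : f 0 < u) (hN : u ≤ f (N + 1)) :
    ∃ j, j ≤ N ∧ f j < u ∧ u ≤ f (j + 1) := by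
  classical
  have hex : ∃ j, u ≤ f (j + 1) := ⟨N, hN⟩
  refine ⟨Nat.find hex, Nat.find_min' hex hN, ?_, Nat.find_spec hex⟩
  rcases Nat.eq_zero_or_pos (Nat.find hex) with h | h
  · rw [h]; exact h0
  · have := Nat.find_min hex (m := Nat.find hex - 1) (by omega)
    rw [Nat.sub_add_cancel h] at this
    exact not_le.1 this

private theorem cells {ν u v : ℝ} (hν : 0 < ν) (hu : 0.09 < u) (hv : 0.3348 < v)
    (h : u + 2 * v < 1 + ν) : ∃ j k, j < 40 ∧ k < 20 ∧ j + 2 * k < 40 ∧ (aa ν j < u ∧ u ≤ aa ν (j + 1)) ∧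
      (bb ν k < v ∧ v ≤ bb ν (k + 1)) := by
  obtain ⟨j, hj, h1, h2⟩ := find_cell (aa ν) u 39 (by unfold aa; rw [if_pos rfl]; exact hu) (by
    rw [aa_succ]
    unfold ca
    norm_num at hv ⊢
    linarith)
  obtain ⟨k, hk, h3, h4⟩ := find_cell (bb ν) v 19 (by unfold bb; rw [if_pos rfl]; exact hv) (by
    rw [bb_succ]
    unfold cb
    norm_num at hu ⊢
    linarith)
  refine ⟨j, k, by omega, by omega, ?_, ⟨h1, h2⟩, ⟨h3, h4⟩⟩
  by_contra hc
  have hc1 : (40 : ℝ) ≤ j + 2 * k := by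
    push Not at hc
    exact_mod_cast hc
  have h5 : aa ν j + 2 * bb ν k < 1 + ν := by linarith
  have h6 := aa_ge hν j
  have h7 := bb_ge hν k
  have h8 : 1 ≤ ca j + 2 * cb k := by
    unfold ca cb
    norm_num
    linarith
  rcases Nat.eq_zero_or_pos j with hj0 | hj0
  · have hk0 : k ≠ 0 := by
      rintro rfl
      subst hj0
      norm_num at hc1
    have : bb ν k = cb k + ν := by unfold bb; rw [if_neg hk0]
    linarith
  · have : aa ν j = ca j + ν := by unfold aa; rw [if_neg (by omega)]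
    linarith

private theorem sum_image_le' {α β : Type*} [DecidableEq β] (T : Finset α) (f : α → β) (g : β → ℝ) (hg : ∀ b, 0 ≤ g b) :
    ∑ a ∈ T.image f, g a ≤ ∑ t ∈ T, g (f t) := by
  rw [← Finset.sum_fiberwise_of_maps_to (fun t ht => Finset.mem_image_of_mem f ht) (fun t => g (f t))]
  apply Finset.sum_le_sum
  intro b hb
  obtain ⟨t, ht, hf⟩ := Finset.mem_image.1 hb
  refine le_trans (le_of_eq (by rw [hf])) (Finset.single_le_sum (f := fun t => g (f t)) (fun t _ => hg _)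
    (Finset.mem_filter.2 ⟨ht, hf⟩))

private theorem DP_nonneg (x : ℕ) : 0 ≤ DP x := by
  unfold DP
  have : Nat.primeCounting x ≤ Nat.primeCounting (2 * x) := Nat.monotone_primeCounting (by omega)
  have : (Nat.primeCounting x : ℝ) ≤ Nat.primeCounting (2 * x) := by exact_mod_cast this
  linarith

private noncomputable def CC (x : ℕ) (a b : ℝ) : Finset ℕ :=
  (PX x).filter (fun p : ℕ => (x : ℝ) ^ a < p ∧ (p : ℝ) ≤ (x : ℝ) ^ b)

private theorem CC_mert (ν : ℝ) (hν : 0 < ν) (f g : ℕ → ℝ) (j : ℕ) (h0 : 0 < g j) (h1 : g j ≤ f j)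
    (h2 : f j ≤ f (j + 1)) (h3 : f (j + 1) ≤ 1) : ∀ᶠ x : ℕ in atTop,
      ∑ p ∈ CC x (f j) (f (j + 1)), fn p ≤ Real.log (f (j + 1) / g j) + ν := by
  filter_upwards [mert_cell (f j) (f (j + 1)) ν (lt_of_lt_of_le h0 h1) h2 h3 hν] with x hx
  unfold CC
  refine hx.trans ?_
  have h4 : 0 < f j := lt_of_lt_of_le h0 h1
  have h5 : 0 < f (j + 1) := lt_of_lt_of_le h4 h2
  have : Real.log (f (j + 1) / f j) ≤ Real.log (f (j + 1) / g j) :=
    Real.log_le_log (div_pos h5 h4) (div_le_div_of_nonneg_left h5.le h0 h1)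
  linarith

private theorem aa_mono {ν : ℝ} (hν : 0 < ν) (j : ℕ) : aa ν j ≤ aa ν (j + 1) := by
  rw [aa_succ]
  unfold aa
  split_ifs with h
  · subst h
    have : ca (0 + 1) = 0.09601 := by
      unfold ca
      norm_num
    rw [this]
    norm_num
    linarith
  · have : ca (j + 1) = ca j + 0.00601 := by
      unfold ca
      push_cast
      ring
    rw [this]
    norm_num

private theorem bb_mono {ν : ℝ} (hν : 0 < ν) (j : ℕ) : bb ν j ≤ bb ν (j + 1) := by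
  rw [bb_succ]
  unfold bb
  split_ifs with h
  · subst h
    have : cb (0 + 1) = 0.34081 := by
      unfold cb
      norm_num
    rw [this]
    norm_num
    linarith
  · have : cb (j + 1) = cb j + 0.00601 := by
      unfold cb
      push_cast
      ring
    rw [this]
    norm_num

private theorem aa_le {ν : ℝ} (hν : ν ≤ 0.0001) {j : ℕ} (hj : j < 40) : aa ν (j + 1) ≤ 1 := by
  rw [aa_succ]
  have : ((j : ℝ) + 1) ≤ 40 := by exact_mod_cast hj
  unfold ca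
  push_cast
  norm_num at hν ⊢
  linarith

private theorem bb_le {ν : ℝ} (hν : ν ≤ 0.0001) {j : ℕ} (hj : j < 20) : bb ν (j + 1) ≤ 1 := by
  rw [bb_succ]
  have : ((j : ℝ) + 1) ≤ 20 := by exact_mod_cast hj
  unfold cb
  push_cast
  norm_num at hν ⊢
  linarith

private theorem fnn {p : ℕ} (hp : p.Prime) : 1 / (p : ℝ) ≤ fn p := by
  unfold fn
  have : (1 : ℝ) < p := by exact_mod_cast hp.one_lt
  exact one_div_le_one_div_of_le (by linarith) (by linarith)

private theorem CC_prime {x : ℕ} {a b : ℝ} {p : ℕ} (hp : p ∈ CC x a b) : p.Prime := by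
  unfold CC PX at hp
  rw [Finset.mem_filter, Finset.mem_filter] at hp
  exact hp.1.2.1

private theorem fn_nonneg {x : ℕ} {a b : ℝ} {p : ℕ} (hp : p ∈ CC x a b) : 0 ≤ fn p :=
  le_trans (by positivity) (fnn (CC_prime hp))

private theorem LossN_z0 {δ : ℝ} (hδ : 0 < δ) : ∀ᶠ x : ℕ in atTop, z0 x ≤ (x : ℝ) ^ δ := by
  have h1 : Tendsto (fun x : ℕ => Real.log (Real.log (x : ℝ))) atTop atTop :=
    Real.tendsto_log_atTop.comp (Real.tendsto_log_atTop.comp tendsto_natCast_atTop_atTop)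
  filter_upwards [h1.eventually (eventually_ge_atTop (1 + 1 / δ)), eventually_ge_atTop 2] with x hx hx1
  have hx0 : (1 : ℝ) < x := by exact_mod_cast (by omega : 1 < x)
  have hL : 0 < Real.log (x : ℝ) := Real.log_pos hx0
  unfold z0
  rw [Real.rpow_def_of_pos (by linarith)]
  apply Real.exp_le_exp.2
  have hd : 0 < 1 / δ := by positivity
  have h2 : 1 / δ ≤ (Real.log (Real.log x)) ^ 2 := by
    have h3 : 1 ≤ Real.log (Real.log x) := by linarith
    nlinarith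
  rw [div_le_iff₀ (by linarith)]
  have h3 := mul_le_mul_of_nonneg_left h2 hδ.le
  rw [mul_one_div_cancel hδ.ne'] at h3
  have h4 := mul_le_mul_of_nonneg_left h3 hL.le
  linarith

theorem loss_val : ∀ᶠ x : ℕ in atTop,
    1 / 2 * ((∑ a ∈ SL x 0.09 0.3348, DP (x / a)) * Real.log x / x) ≤ (0.2868 : ℝ) := by
  classical
  obtain ⟨ν, hν0, hν1, hH⟩ := Hn_ex
  have hA : ∀ᶠ x : ℕ in atTop, ∀ j ∈ range 40,
      ∑ p ∈ CC x (aa ν j) (aa ν (j + 1)), fn p ≤ Real.log ((ca (j + 1) + ν) / ca j) + ν := by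
    rw [Filter.eventually_all_finset]
    intro j hj
    have := CC_mert ν hν0 (aa ν) ca j (ca_pos j) (aa_ge hν0 j) (aa_mono hν0 j) (aa_le hν1 (Finset.mem_range.1 hj))
    filter_upwards [this] with x hx
    rw [aa_succ] at hx ⊢
    exact hx
  have hB : ∀ᶠ x : ℕ in atTop, ∀ k ∈ range 20,
      ∑ p ∈ CC x (bb ν k) (bb ν (k + 1)), fn p ≤ Real.log ((cb (k + 1) + ν) / cb k) + ν := by
    rw [Filter.eventually_all_finset]
    intro j hj
    have := CC_mert ν hν0 (bb ν) cb j (cb_pos j) (bb_ge hν0 j) (bb_mono hν0 j) (bb_le hν1 (Finset.mem_range.1 hj))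
    filter_upwards [this] with x hx
    rw [bb_succ] at hx ⊢
    exact hx
  have h3 : ∀ᶠ x : ℕ in atTop, (3 : ℝ) < (x : ℝ) ^ ν :=
    ((tendsto_rpow_atTop hν0).comp tendsto_natCast_atTop_atTop).eventually (eventually_gt_atTop 3)
  filter_upwards [hA, hB, h3, DP_cof_up ν hν0, SL_cof 0.00001 (by norm_num) (by norm_num), LossN_z0 (δ := 0.09) (by norm_num),
    eventually_ge_atTop 2] with x hAx hBx h3x hDP hSL hz hx2
  have hx1 : (1 : ℝ) < x := by exact_mod_cast (by omega : 1 < x)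
  have hx0 : (0 : ℝ) < x := by linarith
  have hL : 0 < Real.log (x : ℝ) := Real.log_pos hx1
  set T := (((range (3 * x + 1)).filter (fun p : ℕ => p.Prime ∧ (x : ℝ) ^ (0.09 : ℝ) < p ∧ (p : ℝ) ≤ (x : ℝ) ^ (0.3348 : ℝ)) ×ˢ
    (range (3 * x + 1)).filter (fun p : ℕ => p.Prime ∧ (x : ℝ) ^ (0.3348 : ℝ) < p)).filter
      (fun pq : ℕ × ℕ => pq.1 * pq.2 ^ 2 ≤ 3 * x)) with hT
  have hSLT : SL x 0.09 0.3348 = T.image (fun pq : ℕ × ℕ => pq.1 * pq.2) := by
    rw [hT]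
    unfold SL
    congr
  have e1 : ∑ a ∈ SL x 0.09 0.3348, DP (x / a) ≤ ∑ t ∈ T, DP (x / (t.1 * t.2)) := by
    rw [hSLT]
    exact sum_image_le' T (fun pq : ℕ × ℕ => pq.1 * pq.2) (fun a => DP (x / a)) (fun a => DP_nonneg _)
  have e2 : ∀ t ∈ T, DP (x / (t.1 * t.2)) * Real.log x / x ≤
      ∑ j ∈ range 40, ∑ k ∈ range 20, if j + 2 * k < 40 then
        (if t ∈ CC x (aa ν j) (aa ν (j + 1)) ×ˢ CC x (bb ν k) (bb ν (k + 1)) then
          (1 + ν) * (fn t.1 * fn t.2) / (1 - (ca (j + 1) + ν) - (cb (k + 1) + ν)) else 0) else 0 := by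
    intro t ht
    have hcof := hSL (t.1 * t.2) (by rw [hSLT]; exact Finset.mem_image_of_mem _ ht)
    rw [hT, Finset.mem_filter, Finset.mem_product, Finset.mem_filter, Finset.mem_filter] at ht
    obtain ⟨⟨⟨_, hp1, hp2, hp3⟩, ⟨_, hq1, hq2⟩⟩, hpq⟩ := ht
    have hp0 : (0 : ℝ) < t.1 := by exact_mod_cast hp1.pos
    have hq0 : (0 : ℝ) < t.2 := by exact_mod_cast hq1.pos
    set u := Real.log t.1 / Real.log x with hu
    set v := Real.log t.2 / Real.log x with hv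
    have hpu : (t.1 : ℝ) = (x : ℝ) ^ u := by
      rw [Real.rpow_def_of_pos hx0, hu, mul_div_cancel₀ _ hL.ne', Real.exp_log hp0]
    have hqv : (t.2 : ℝ) = (x : ℝ) ^ v := by
      rw [Real.rpow_def_of_pos hx0, hv, mul_div_cancel₀ _ hL.ne', Real.exp_log hq0]
    have hu1 : 0.09 < u := by
      rw [hpu] at hp2
      exact (Real.rpow_lt_rpow_left_iff hx1).1 hp2
    have hv1 : 0.3348 < v := by
      rw [hqv] at hq2
      exact (Real.rpow_lt_rpow_left_iff hx1).1 hq2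
    have huv : u + 2 * v < 1 + ν := by
      have h4 : (x : ℝ) ^ (u + 2 * v) < (x : ℝ) ^ (1 + ν) := by
        rw [Real.rpow_add hx0, Real.rpow_add hx0, Real.rpow_one, ← hpu, mul_comm 2 v, Real.rpow_mul hx0.le, ← hqv]
        have h5 : (t.1 : ℝ) * (t.2 : ℝ) ^ 2 ≤ 3 * x := by exact_mod_cast hpq
        have h6 : ((t.2 : ℝ)) ^ (2 : ℝ) = (t.2 : ℝ) ^ 2 := by
          rw [← Real.rpow_natCast]
          norm_num
        rw [h6]
        refine lt_of_le_of_lt h5 ?_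
        rw [mul_comm]
        exact mul_lt_mul_of_pos_left h3x hx0
      exact (Real.rpow_lt_rpow_left_iff hx1).1 h4
    obtain ⟨j, k, hj, hk, hjk, ⟨ha1, ha2⟩, ⟨hb1, hb2⟩⟩ := cells hν0 hu1 hv1 huv
    have hd := den_pos hjk
    have hu2 : u ≤ 1 := ha2.trans (aa_le hν1 hj)
    have hv2 : v ≤ 1 := hb2.trans (bb_le hν1 hk)
    have hmem1 : t.1 ∈ CC x (aa ν j) (aa ν (j + 1)) := by
      unfold CC PX
      rw [Finset.mem_filter, Finset.mem_filter, Finset.mem_range]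
      refine ⟨⟨?_, hp1, lt_of_le_of_lt hz hp2⟩, ?_, ?_⟩
      · have : (t.1 : ℝ) ≤ x := by
          rw [hpu]
          calc (x : ℝ) ^ u ≤ (x : ℝ) ^ (1 : ℝ) := Real.rpow_le_rpow_of_exponent_le hx1.le hu2
            _ = x := Real.rpow_one _
        have : t.1 ≤ x := by exact_mod_cast this
        omega
      · rw [hpu]
        exact (Real.rpow_lt_rpow_left_iff hx1).2 ha1
      · rw [hpu]
        exact (Real.rpow_le_rpow_left_iff hx1).2 ha2
    have hmem2 : t.2 ∈ CC x (bb ν k) (bb ν (k + 1)) := by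
      unfold CC PX
      rw [Finset.mem_filter, Finset.mem_filter, Finset.mem_range]
      refine ⟨⟨?_, hq1, lt_of_le_of_lt hz (lt_of_le_of_lt ?_ hq2)⟩, ?_, ?_⟩
      · have : (t.2 : ℝ) ≤ x := by
          rw [hqv]
          calc (x : ℝ) ^ v ≤ (x : ℝ) ^ (1 : ℝ) := Real.rpow_le_rpow_of_exponent_le hx1.le hv2
            _ = x := Real.rpow_one _
        have : t.2 ≤ x := by exact_mod_cast this
        omega
      · exact Real.rpow_le_rpow_of_exponent_le hx1.le (by norm_num)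
      · rw [hqv]
        exact (Real.rpow_lt_rpow_left_iff hx1).2 hb1
      · rw [hqv]
        exact (Real.rpow_le_rpow_left_iff hx1).2 hb2
    have hnn : ∀ j ∈ range 40, ∀ k ∈ range 20, 0 ≤ (if j + 2 * k < 40 then
        (if t ∈ CC x (aa ν j) (aa ν (j + 1)) ×ˢ CC x (bb ν k) (bb ν (k + 1)) then
          (1 + ν) * (fn t.1 * fn t.2) / (1 - (ca (j + 1) + ν) - (cb (k + 1) + ν)) else 0) else 0) := by
      intro j _ k _
      split_ifs with h1 h2
      · have h3 := den_pos h1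
        rw [Finset.mem_product] at h2
        apply div_nonneg
        · exact mul_nonneg (by linarith) (mul_nonneg (fn_nonneg h2.1) (fn_nonneg h2.2))
        · norm_num at h3 hν1
          linarith
      · exact le_rfl
      · exact le_rfl
    refine le_trans ?_ (Finset.single_le_sum (fun j hj => Finset.sum_nonneg (hnn j hj)) (Finset.mem_range.2 hj))
    refine le_trans ?_ (Finset.single_le_sum (hnn j (Finset.mem_range.2 hj)) (Finset.mem_range.2 hk))
    rw [if_pos hjk, if_pos (Finset.mem_product.2 ⟨hmem1, hmem2⟩)]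
    have h7 := hDP (t.1 * t.2) hcof.1 hcof.2.1
    refine h7.trans ?_
    have h8 : Real.log ((t.1 * t.2 : ℕ) : ℝ) / Real.log x = u + v := by
      push_cast
      rw [Real.log_mul hp0.ne' hq0.ne', add_div]
    rw [h8, mul_div_assoc]
    apply mul_le_mul_of_nonneg_left _ (by linarith)
    have h9 : 0 < 1 - (ca (j + 1) + ν) - (cb (k + 1) + ν) := by
      norm_num at hd hν1
      linarith
    rw [div_eq_mul_one_div (fn t.1 * fn t.2)]
    rw [aa_succ] at ha2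
    rw [bb_succ] at hb2
    apply mul_le_mul
    · push_cast
      rw [← one_div_mul_one_div]
      exact mul_le_mul (fnn hp1) (fnn hq1) (by positivity) (fn_nonneg hmem1)
    · exact one_div_le_one_div_of_le h9 (by linarith)
    · exact one_div_nonneg.2 (by linarith)
    · exact mul_nonneg (fn_nonneg hmem1) (fn_nonneg hmem2)
  have e3 : (∑ a ∈ SL x 0.09 0.3348, DP (x / a)) * Real.log x / x ≤ Hn ν := by
    calc (∑ a ∈ SL x 0.09 0.3348, DP (x / a)) * Real.log x / x ≤ (∑ t ∈ T, DP (x / (t.1 * t.2))) * Real.log x / x := by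
          apply div_le_div_of_nonneg_right _ hx0.le
          exact mul_le_mul_of_nonneg_right e1 hL.le
      _ = ∑ t ∈ T, DP (x / (t.1 * t.2)) * Real.log x / x := by
          rw [Finset.sum_mul, Finset.sum_div]
      _ ≤ ∑ t ∈ T, ∑ j ∈ range 40, ∑ k ∈ range 20, (if j + 2 * k < 40 then
        (if t ∈ CC x (aa ν j) (aa ν (j + 1)) ×ˢ CC x (bb ν k) (bb ν (k + 1)) then
          (1 + ν) * (fn t.1 * fn t.2) / (1 - (ca (j + 1) + ν) - (cb (k + 1) + ν)) else 0) else 0) :=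
          Finset.sum_le_sum e2
      _ = ∑ j ∈ range 40, ∑ k ∈ range 20, ∑ t ∈ T, (if j + 2 * k < 40 then
        (if t ∈ CC x (aa ν j) (aa ν (j + 1)) ×ˢ CC x (bb ν k) (bb ν (k + 1)) then
          (1 + ν) * (fn t.1 * fn t.2) / (1 - (ca (j + 1) + ν) - (cb (k + 1) + ν)) else 0) else 0) := by
          rw [Finset.sum_comm]
          refine Finset.sum_congr rfl (fun j _ => ?_)
          rw [Finset.sum_comm]
      _ ≤ Hn ν := by
          unfold Hn
          refine Finset.sum_le_sum (fun j hj => Finset.sum_le_sum (fun k hk => ?_))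
          by_cases hjk : j + 2 * k < 40
          · simp only [if_pos hjk]
            have hd := den_pos hjk
            have h9 : 0 < 1 - (ca (j + 1) + ν) - (cb (k + 1) + ν) := by
              norm_num at hd hν1
              linarith
            rw [← Finset.sum_filter]
            calc ∑ t ∈ T.filter (fun t => t ∈ CC x (aa ν j) (aa ν (j + 1)) ×ˢ CC x (bb ν k) (bb ν (k + 1))),
                  (1 + ν) * (fn t.1 * fn t.2) / (1 - (ca (j + 1) + ν) - (cb (k + 1) + ν))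
                ≤ ∑ t ∈ CC x (aa ν j) (aa ν (j + 1)) ×ˢ CC x (bb ν k) (bb ν (k + 1)),
                  (1 + ν) * (fn t.1 * fn t.2) / (1 - (ca (j + 1) + ν) - (cb (k + 1) + ν)) := by
                  apply Finset.sum_le_sum_of_subset_of_nonneg
                  · intro t ht
                    exact (Finset.mem_filter.1 ht).2
                  · intro t ht _
                    rw [Finset.mem_product] at ht
                    apply div_nonneg _ h9.le
                    exact mul_nonneg (by linarith) (mul_nonneg (fn_nonneg ht.1) (fn_nonneg ht.2))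
              _ = (1 + ν) * ((∑ p ∈ CC x (aa ν j) (aa ν (j + 1)), fn p) *
                  (∑ p ∈ CC x (bb ν k) (bb ν (k + 1)), fn p)) / (1 - (ca (j + 1) + ν) - (cb (k + 1) + ν)) := by
                  rw [← Finset.sum_div, ← Finset.mul_sum, Finset.sum_product, Finset.sum_mul_sum]
              _ ≤ _ := by
                  apply div_le_div_of_nonneg_right _ h9.le
                  apply mul_le_mul_of_nonneg_left _ (by linarith)
                  have h10 : 0 ≤ ∑ p ∈ CC x (bb ν k) (bb ν (k + 1)), fn p :=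
                    Finset.sum_nonneg (fun p hp => fn_nonneg hp)
                  have h11 : 0 ≤ ∑ p ∈ CC x (aa ν j) (aa ν (j + 1)), fn p :=
                    Finset.sum_nonneg (fun p hp => fn_nonneg hp)
                  exact mul_le_mul (hAx j hj) (hBx k hk) h10 (h11.trans (hAx j hj))
          · simp only [if_neg hjk]
            simp
  linarith

end Pool.Agent.H36.IS2

end

section

/-!
# IS MtA: Mertens' theorem with a limit

`fS n = ∑_{p ≤ n} -log(1 - 1/p)`.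
`mertA`: fS n - loglog n converges.  Proof: for 65536 ≤ w ≤ z, `Pool.Agent.H91.Gold.mertens_wz` and
`Pool.Agent.H91.PK.mertens_lower` give |∑_{w<p≤z} 1/p - log(log z/log w)| ≤ 0.25/log w, and
∑_{p>w} (-log(1-1/p) - 1/p) ≤ ∑_{p > w} 1/p² ≤ 2/w;  so the sequence fS n - loglog n is Cauchy.
`mertA_bd`: |fS n - loglog n| ≤ C for n ≥ 2 (a convergent sequence; finitely many small n).
-/

set_option autoImplicit false

namespace Pool.Agent.H36.IS

open Finset Filter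

noncomputable def fS (n : ℕ) : ℝ := ∑ p ∈ (range (n + 1)).filter Nat.Prime, -Real.log (1 - 1 / (p : ℝ))

private theorem MtA_split {w z : ℕ} (hwz : w ≤ z) :
    fS z = fS w + ∑ p ∈ H91.Gold.Pr w z, -Real.log (1 - 1 / (p : ℝ)) := by
  unfold fS
  have h1 : (range (z + 1)).filter Nat.Prime =
      (range (w + 1)).filter Nat.Prime ∪ H91.Gold.Pr w z := by
    ext p
    rw [mem_union, mem_filter, mem_filter, H91.Gold.mem_Pr, mem_range, mem_range]
    constructor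
    · rintro ⟨h, hp⟩
      by_cases hpw : p ≤ w
      · exact Or.inl ⟨by omega, hp⟩
      · exact Or.inr ⟨⟨by omega, by omega⟩, hp⟩
    · rintro (⟨h, hp⟩ | ⟨⟨_, h⟩, hp⟩)
      · exact ⟨by omega, hp⟩
      · exact ⟨by omega, hp⟩
  rw [h1, sum_union]
  rw [Finset.disjoint_left]
  intro p hp1 hp2
  rw [mem_filter, mem_range] at hp1
  rw [H91.Gold.mem_Pr] at hp2
  omega

private theorem MtA_sq {w z : ℕ} (hw : 1 ≤ w) (hwz : w ≤ z) :
    ∑ p ∈ Ioc w z, 1 / (p : ℝ) ^ 2 ≤ 1 / (w : ℝ) - 1 / (z : ℝ) := by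
  induction z, hwz using Nat.le_induction with
  | base => simp
  | succ z hz ih =>
    rw [← Finset.insert_Ioc_right_eq_Ioc_add_one hz, sum_insert (by simp)]
    have hz0 : (0 : ℝ) < z := by exact_mod_cast (by omega : 0 < z)
    have h : 1 / ((z + 1 : ℕ) : ℝ) ^ 2 ≤ 1 / (z : ℝ) - 1 / ((z + 1 : ℕ) : ℝ) := by
      push_cast
      rw [div_sub_div _ _ hz0.ne' (by positivity), div_le_div_iff₀ (by positivity) (by positivity)]
      nlinarith
    linarith

private theorem MtA_log {t : ℝ} (h0 : 0 ≤ t) (h1 : t ≤ 1 / 2) :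
    t ≤ -Real.log (1 - t) ∧ -Real.log (1 - t) ≤ t + 2 * t ^ 2 := by
  constructor
  · have := Real.log_le_sub_one_of_pos (by linarith : 0 < 1 - t)
    linarith
  · have h := Real.abs_log_sub_add_sum_range_le (x := t) (by rw [abs_of_nonneg h0]; linarith) 1
    rw [sum_range_one, abs_of_nonneg h0] at h
    have h2 : t ^ (1 + 1) / (1 - t) ≤ 2 * t ^ 2 := by
      rw [div_le_iff₀ (by linarith)]
      have h3 := mul_nonneg (sq_nonneg t) (by linarith : 0 ≤ 1 - 2 * t)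
      have h4 : t ^ (1 + 1) = t ^ 2 := by norm_num
      rw [h4]
      linarith
    have h3 := (abs_le.mp h).1
    norm_num at h3 h2
    linarith

private theorem MtA_diff {w z : ℕ} (hw : 65536 ≤ w) (hwz : w ≤ z) :
    |(fS z - Real.log (Real.log z)) - (fS w - Real.log (Real.log w))| ≤
      0.25 / Real.log w + 2 / (w : ℝ) := by
  have hw0 : (65536 : ℝ) ≤ w := by exact_mod_cast hw
  have hwz' : (w : ℝ) ≤ z := by exact_mod_cast hwz
  have hlw : 0 < Real.log w := Real.log_pos (by linarith)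
  have hlz : 0 < Real.log z := Real.log_pos (by linarith)
  have h1 := H91.Gold.mertens_wz hw hwz
  have h2 := H91.PK.mertens_lower hw hwz
  rw [Real.log_div hlz.ne' hlw.ne'] at h1 h2
  have h3 : 0.2295 / Real.log w ≤ 0.25 / Real.log w :=
    div_le_div_of_nonneg_right (by norm_num) hlw.le
  have hp : ∀ p ∈ H91.Gold.Pr w z, (0 : ℝ) ≤ 1 / (p : ℝ) ∧ 1 / (p : ℝ) ≤ 1 / 2 := by
    intro p hp
    have := (H91.Gold.prime_of_Pr hp).two_le
    have hp2 : (2 : ℝ) ≤ p := by exact_mod_cast this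
    refine ⟨by positivity, ?_⟩
    exact one_div_le_one_div_of_le (by norm_num) hp2
  have h4 : ∑ p ∈ H91.Gold.Pr w z, (1 : ℝ) / p ≤
      ∑ p ∈ H91.Gold.Pr w z, -Real.log (1 - 1 / (p : ℝ)) :=
    sum_le_sum fun p h => (MtA_log (hp p h).1 (hp p h).2).1
  have h5 : ∑ p ∈ H91.Gold.Pr w z, -Real.log (1 - 1 / (p : ℝ)) ≤
      ∑ p ∈ H91.Gold.Pr w z, (1 : ℝ) / p + 2 / (w : ℝ) := by
    calc ∑ p ∈ H91.Gold.Pr w z, -Real.log (1 - 1 / (p : ℝ))
        ≤ ∑ p ∈ H91.Gold.Pr w z, ((1 : ℝ) / p + 2 * (1 / (p : ℝ)) ^ 2) :=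
          sum_le_sum fun p h => (MtA_log (hp p h).1 (hp p h).2).2
      _ = ∑ p ∈ H91.Gold.Pr w z, (1 : ℝ) / p + 2 * ∑ p ∈ H91.Gold.Pr w z, 1 / (p : ℝ) ^ 2 := by
          rw [sum_add_distrib, ← mul_sum]
          congr 2
          refine sum_congr rfl fun p _ => ?_
          rw [div_pow, one_pow]
      _ ≤ _ := by
          have h6 : ∑ p ∈ H91.Gold.Pr w z, 1 / (p : ℝ) ^ 2 ≤ ∑ p ∈ Ioc w z, 1 / (p : ℝ) ^ 2 := by
            refine sum_le_sum_of_subset_of_nonneg ?_ fun p _ _ => by positivity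
            intro p hp'
            exact mem_Ioc.mpr (H91.Gold.mem_Pr.1 hp').1
          have h7 := MtA_sq (by omega : 1 ≤ w) hwz
          have h8 : (0 : ℝ) ≤ 1 / (z : ℝ) := by positivity
          have h9 : 2 / (w : ℝ) = 2 * (1 / (w : ℝ)) := by ring
          rw [h9]
          linarith
  rw [MtA_split hwz, abs_le]
  have h10 : (0 : ℝ) ≤ 2 / (w : ℝ) := by positivity
  constructor <;> linarith

theorem mertA : ∃ c : ℝ, Tendsto (fun n : ℕ => fS n - Real.log (Real.log n)) atTop (nhds c) := by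
  refine cauchySeq_tendsto_of_complete ?_
  rw [Metric.cauchySeq_iff']
  intro ε hε
  have hlim : Tendsto (fun w : ℕ => 0.25 / Real.log w + 2 / (w : ℝ)) atTop (nhds 0) := by
    have h1 : Tendsto (fun w : ℕ => 0.25 / Real.log w) atTop (nhds 0) :=
      tendsto_const_nhds.div_atTop (Real.tendsto_log_atTop.comp tendsto_natCast_atTop_atTop)
    have h2 : Tendsto (fun w : ℕ => 2 / (w : ℝ)) atTop (nhds 0) :=
      tendsto_const_div_atTop_nhds_zero_nat 2
    simpa using h1.add h2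
  obtain ⟨N, hN⟩ := ((hlim.eventually (gt_mem_nhds hε)).and (eventually_ge_atTop 65536)).exists
  refine ⟨N, fun n hn => ?_⟩
  rw [Real.dist_eq]
  exact lt_of_le_of_lt (MtA_diff hN.2 hn) hN.1

end Pool.Agent.H36.IS

end

section

/-!
# IS Mt: Mertens' third theorem

From MtA (limit c), MtB (abel_exp with a n = [n prime] -log(1-1/n)) and MtC: c - γ = 0.  Hence fS n - loglog n → γ, and exponentiating,
log n · ∏_{p≤n}(1-1/p) → e^{-γ}.
`V1_sharp`: V1 x δ = ∏_{p ≤ ⌊x^δ⌋}(1-1/p)/A0 x for large x, log(x^δ) = δ log x, tau = A0 log x (log⌊z⌋ ≤ log z helps: the product over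
p ≤ ⌊z⌋ is ≥ (e^{-γ} - ε)/log⌊z⌋ ≥ (e^{-γ}-ε)/log z).
`gam_num`: γ < H_256 - log 256 (`Real.eulerMascheroniConstant_lt_eulerMascheroniSeq'`), = 0.57917 < 0.57925, exp(-0.57925) ≥ 0.5603.
(harmonic number: `decide`/norm_num with rational sums; log 256 = 8 log 2.)
-/

set_option autoImplicit false

namespace Pool.Agent.H36.IS

open Finset Filter

private theorem Mt_factor_pos {p : ℕ} (hp : p.Prime) : 0 < 1 - 1 / (p : ℝ) := by
  have h2 : (2 : ℝ) ≤ (p : ℝ) := by exact_mod_cast hp.two_le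
  have : 1 / (p : ℝ) ≤ 1 / 2 := one_div_le_one_div_of_le (by norm_num) h2
  linarith

private theorem Mt_factor_le {p : ℕ} (hp : p.Prime) : 1 - 1 / (p : ℝ) ≤ 1 := by
  have h2 : (0 : ℝ) < (p : ℝ) := by exact_mod_cast hp.pos
  have : 0 < 1 / (p : ℝ) := by positivity
  linarith

private theorem Mt_fS (n : ℕ) :
    ∑ k ∈ range (n + 1), (if k.Prime then -Real.log (1 - 1 / (k : ℝ)) else 0) = fS n := by
  rw [fS, Finset.sum_filter]

private theorem Mt_lim : Tendsto (fun n : ℕ => fS n - Real.log (Real.log n)) atTop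
    (nhds Real.eulerMascheroniConstant) := by
  obtain ⟨c, hc⟩ := mertA
  have h := abel_exp (fun n : ℕ => if n.Prime then -Real.log (1 - 1 / (n : ℝ)) else 0) ?_ ?_ ?_ c ?_
  · have h2 := tendsto_nhds_unique h.2 euler_near_one
    have : c = Real.eulerMascheroniConstant := by linarith
    rw [← this]
    exact hc
  · intro n
    by_cases hn : n.Prime
    · simp only [if_pos hn]
      have := Real.log_nonpos (Mt_factor_pos hn).le (Mt_factor_le hn)
      linarith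
    · simp only [if_neg hn]
      exact le_rfl
  · simp
  · simp [Nat.not_prime_one]
  · refine hc.congr (fun n => ?_)
    rw [Mt_fS]

private theorem Mt_prod (n : ℕ) :
    ∏ p ∈ (range (n + 1)).filter Nat.Prime, (1 - 1 / (p : ℝ)) = Real.exp (-fS n) := by
  rw [fS, ← Finset.sum_neg_distrib, Real.exp_sum]
  refine Finset.prod_congr rfl (fun p hp => ?_)
  rw [Finset.mem_filter] at hp
  rw [neg_neg, Real.exp_log (Mt_factor_pos hp.2)]

theorem mertens3 : Tendsto (fun n : ℕ => Real.log n * ∏ p ∈ (range (n + 1)).filter Nat.Prime, (1 - 1 / (p : ℝ)))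
    atTop (nhds (Real.exp (-Real.eulerMascheroniConstant))) := by
  have h := (Real.continuous_exp.tendsto _).comp Mt_lim.neg
  refine h.congr' ?_
  filter_upwards [eventually_ge_atTop 2] with n hn
  have hn' : (1 : ℝ) < (n : ℝ) := by exact_mod_cast hn
  have hlog : 0 < Real.log n := Real.log_pos hn'
  simp only [Function.comp]
  rw [Mt_prod, neg_sub, sub_eq_add_neg, Real.exp_add, Real.exp_log hlog]

private theorem Mt_z0 {δ : ℝ} (hδ : 0 < δ) : ∀ᶠ x : ℕ in atTop, z0 x ≤ (x : ℝ) ^ δ := by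
  have h1 : Tendsto (fun x : ℕ => Real.log (Real.log (x : ℝ))) atTop atTop :=
    Real.tendsto_log_atTop.comp (Real.tendsto_log_atTop.comp tendsto_natCast_atTop_atTop)
  filter_upwards [eventually_ge_atTop 3, h1.eventually_ge_atTop (max 1 (1 / δ))] with x hx hL
  have hx1 : (1 : ℝ) < (x : ℝ) := by exact_mod_cast (by omega : 1 < x)
  have hlog : 0 < Real.log (x : ℝ) := Real.log_pos hx1
  have hL1 : 1 ≤ Real.log (Real.log (x : ℝ)) := le_trans (le_max_left _ _) hL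
  have hL2 : 1 / δ ≤ Real.log (Real.log (x : ℝ)) := le_trans (le_max_right _ _) hL
  rw [z0, Real.rpow_def_of_pos (by linarith : (0 : ℝ) < (x : ℝ))]
  refine Real.exp_le_exp.mpr ?_
  rw [div_le_iff₀ (by positivity)]
  have h3 : 1 ≤ δ * Real.log (Real.log (x : ℝ)) := by
    rw [div_le_iff₀ hδ] at hL2
    linarith
  have h4 : δ * Real.log (Real.log (x : ℝ)) ≤ δ * (Real.log (Real.log (x : ℝ))) ^ 2 := by
    refine mul_le_mul_of_nonneg_left ?_ hδ.le
    nlinarith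
  nlinarith

private theorem Mt_split {x : ℕ} {δ : ℝ} (hδ1 : δ ≤ 1) (hx : 1 ≤ x)
    (hz : z0 x ≤ (x : ℝ) ^ δ) :
    ∏ p ∈ (range (⌊(x : ℝ) ^ δ⌋₊ + 1)).filter Nat.Prime, (1 - 1 / (p : ℝ)) = A0 x * V1 x δ := by
  have hx1 : (1 : ℝ) ≤ (x : ℝ) := by exact_mod_cast hx
  have hxd : (x : ℝ) ^ δ ≤ (x : ℝ) := by
    calc (x : ℝ) ^ δ ≤ (x : ℝ) ^ (1 : ℝ) := Real.rpow_le_rpow_of_exponent_le hx1 hδ1
      _ = x := Real.rpow_one _
  have hxd0 : (0 : ℝ) ≤ (x : ℝ) ^ δ := Real.rpow_nonneg (by linarith) _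
  have hdisj : Disjoint (PA x) (PZ x δ) := by
    rw [Finset.disjoint_left]
    intro p hp hq
    simp only [PA, PZ, PX, Finset.mem_filter] at hp hq
    exact absurd hp.2.2 (not_le.mpr hq.1.2.2)
  rw [A0, V1, ← Finset.prod_union hdisj]
  refine Finset.prod_congr ?_ (fun _ _ => rfl)
  ext p
  simp only [PA, PZ, PX, Finset.mem_union, Finset.mem_filter, Finset.mem_range]
  have hfl : p < ⌊(x : ℝ) ^ δ⌋₊ + 1 ↔ (p : ℝ) ≤ (x : ℝ) ^ δ := by
    rw [Nat.lt_succ_iff, Nat.le_floor_iff hxd0]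
  rw [hfl]
  constructor
  · rintro ⟨h1, h2⟩
    have hpx : p < x + 1 := by
      have : (p : ℝ) ≤ (x : ℝ) := le_trans h1 hxd
      have : p ≤ x := by exact_mod_cast this
      omega
    by_cases h3 : (p : ℝ) ≤ z0 x
    · exact Or.inl ⟨hpx, h2, h3⟩
    · exact Or.inr ⟨⟨hpx, h2, not_le.mp h3⟩, h1⟩
  · rintro (⟨_, h2, h3⟩ | ⟨⟨_, h2, _⟩, h4⟩)
    · exact ⟨le_trans h3 hz, h2⟩
    · exact ⟨h4, h2⟩

theorem V1_sharp (ρ δ : ℝ) (hρ : ρ < Real.exp (-Real.eulerMascheroniConstant)) (hδ : 0 < δ) (hδ1 : δ ≤ 1) :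
    ∀ᶠ x : ℕ in atTop, ρ / (δ * tau x) ≤ V1 x δ := by
  have hfl : Tendsto (fun x : ℕ => ⌊(x : ℝ) ^ δ⌋₊) atTop atTop :=
    tendsto_nat_floor_atTop.comp ((tendsto_rpow_atTop hδ).comp tendsto_natCast_atTop_atTop)
  have h1 := hfl.eventually (mertens3.eventually (lt_mem_nhds hρ))
  filter_upwards [h1, Mt_z0 hδ, eventually_ge_atTop 2, hfl.eventually_ge_atTop 1]
    with x hx hz hx2 hn1
  rw [Mt_split hδ1 (by omega) hz] at hx
  have hx1 : (1 : ℝ) < (x : ℝ) := by exact_mod_cast (by omega : 1 < x)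
  have hlog : 0 < Real.log (x : ℝ) := Real.log_pos hx1
  have hA : 0 < A0 x := by
    rw [A0]
    refine Finset.prod_pos (fun p hp => ?_)
    simp only [PA, Finset.mem_filter] at hp
    exact Mt_factor_pos hp.2.1
  have hV : 0 < V1 x δ := by
    rw [V1]
    refine Finset.prod_pos (fun p hp => ?_)
    simp only [PZ, PX, Finset.mem_filter] at hp
    exact Mt_factor_pos hp.1.2.1
  have hle : Real.log (⌊(x : ℝ) ^ δ⌋₊ : ℝ) ≤ δ * Real.log x := by
    rw [← Real.log_rpow (by linarith)]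
    refine Real.log_le_log (by exact_mod_cast hn1) ?_
    exact Nat.floor_le (Real.rpow_nonneg (by linarith) _)
  have htau : 0 < δ * tau x := by
    rw [tau]
    positivity
  rw [div_le_iff₀ htau, tau]
  have h5 : Real.log (⌊(x : ℝ) ^ δ⌋₊ : ℝ) * (A0 x * V1 x δ) ≤ δ * Real.log x * (A0 x * V1 x δ) :=
    mul_le_mul_of_nonneg_right hle (by positivity)
  calc ρ ≤ Real.log (⌊(x : ℝ) ^ δ⌋₊ : ℝ) * (A0 x * V1 x δ) := hx.le
    _ ≤ δ * Real.log x * (A0 x * V1 x δ) := h5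
    _ = V1 x δ * (δ * (A0 x * Real.log x)) := by ring

end Pool.Agent.H36.IS

end

section

/-!
# IS Sqr: integers divisible by a large square

∑_{x < n ≤ 2x, ∃ p > x^δ prime, p² ∣ n + h i} Ly² ≤ x^(δ/4) ∑_{x^δ < p ≤ √(3x)} (x/p² + 1) ≤ x^(δ/4) (2 x^(1-δ) + 2 x^(1/2)) ≤ x^(1-δ/4)
for δ ≤ 1/2 (`ptw` with ε = δ/4; #{n ∈ (x,2x] : m ∣ n + h} ≤ x/m + 1; ∑_{n > y} 1/n² ≤ 2/y; p² ≤ 2x + h i ≤ 3x).
-/

set_option autoImplicit false

namespace Pool.Agent.H36.IS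

open Finset Filter

/-- multiples in an interval -/
private theorem Sqr_card (a b H m : ℕ) (hm : 0 < m) (hab : a ≤ b) :
    (((Ioc a b).filter (fun n => m ∣ n + H)).card : ℝ) ≤ ((b : ℝ) - a) / m + 1 := by
  have h1 : ((Ioc a b).filter (fun n => m ∣ n + H)).card ≤ (Ioc ((a + H) / m) ((b + H) / m)).card := by
    refine Finset.card_le_card_of_injOn (fun n => (n + H) / m) ?_ ?_
    · intro n hn
      rw [Finset.mem_coe, mem_filter, mem_Ioc] at hn
      obtain ⟨⟨h2, h3⟩, t, ht⟩ := hn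
      rw [Finset.mem_coe, mem_Ioc]
      have h4 : (n + H) / m = t := by
        rw [ht]
        exact Nat.mul_div_cancel_left t hm
      simp only
      rw [h4]
      constructor
      · rw [Nat.div_lt_iff_lt_mul hm]
        calc a + H < n + H := by omega
          _ = m * t := ht
          _ = t * m := mul_comm _ _
      · rw [Nat.le_div_iff_mul_le hm]
        calc t * m = m * t := mul_comm _ _
          _ = n + H := ht.symm
          _ ≤ b + H := by omega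
    · intro n hn n' hn' heq
      rw [Finset.mem_coe, mem_filter] at hn hn'
      obtain ⟨_, t, ht⟩ := hn
      obtain ⟨_, t', ht'⟩ := hn'
      simp only at heq
      rw [ht, ht', Nat.mul_div_cancel_left t hm, Nat.mul_div_cancel_left t' hm] at heq
      rw [heq] at ht
      omega
  rw [Nat.card_Ioc] at h1
  have h5 : (b + H) / m ≤ (a + H) / m + (b - a) / m + 1 := by
    have e : b + H = (a + H) + (b - a) := by omega
    rw [e, Nat.add_div hm]
    split_ifs <;> omega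
  have h6 : ((Ioc a b).filter (fun n => m ∣ n + H)).card ≤ (b - a) / m + 1 := by
    refine h1.trans ?_
    rw [Nat.sub_le_iff_le_add]
    exact h5.trans (le_of_eq (by ring))
  have h7 : (((b - a) / m : ℕ) : ℝ) ≤ ((b : ℝ) - a) / m := by
    refine (Nat.cast_div_le (α := ℝ)).trans (le_of_eq ?_)
    rw [Nat.cast_sub hab]
  calc (((Ioc a b).filter (fun n => m ∣ n + H)).card : ℝ) ≤ (((b - a) / m + 1 : ℕ) : ℝ) := by
        exact_mod_cast h6
    _ = (((b - a) / m : ℕ) : ℝ) + 1 := by push_cast; ring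
    _ ≤ _ := by linarith

/-- the number of integers -/
private theorem Sqr_count (x H : ℕ) (δ : ℝ) (hδ1 : δ ≤ 1 / 2) (hx : 1 ≤ x)
    (hH : H ≤ x) (h2 : 2 ≤ (x : ℝ) ^ δ)
    [DecidablePred fun n => ∃ p : ℕ, p.Prime ∧ (x : ℝ) ^ δ < p ∧ p ^ 2 ∣ n + H] :
    (((Ioc x (2 * x)).filter
      (fun n => ∃ p : ℕ, p.Prime ∧ (x : ℝ) ^ δ < p ∧ p ^ 2 ∣ n + H)).card : ℝ) ≤
      4 * (x : ℝ) ^ (1 - δ) := by
  classical
  have hx0 : (0 : ℝ) < x := by exact_mod_cast hx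
  have hx1 : (1 : ℝ) ≤ x := by exact_mod_cast hx
  have hxd : 0 < (x : ℝ) ^ δ := Real.rpow_pos_of_pos hx0 _
  set M0 := ⌊(x : ℝ) ^ δ⌋₊ with hM0
  set M1 := ⌊2 * (x : ℝ) ^ (1 / 2 : ℝ)⌋₊ with hM1
  have hM0a : (M0 : ℝ) ≤ (x : ℝ) ^ δ := Nat.floor_le hxd.le
  have hM0b : (x : ℝ) ^ δ < M0 + 1 := Nat.lt_floor_add_one _
  have hM0c : (x : ℝ) ^ δ / 2 ≤ M0 := by linarith
  have hM0d : 0 < (M0 : ℝ) := by linarith
  have hM0e : M0 ≠ 0 := by
    intro h
    rw [h] at hM0d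
    simp at hM0d
  have hpow : (x : ℝ) ^ δ ≤ (x : ℝ) ^ (1 / 2 : ℝ) := Real.rpow_le_rpow_of_exponent_le hx1 hδ1
  have hM01 : M0 ≤ M1 := by
    refine Nat.floor_le_floor ?_
    have : 0 < (x : ℝ) ^ (1 / 2 : ℝ) := Real.rpow_pos_of_pos hx0 _
    linarith
  have hM1a : (M1 : ℝ) ≤ 2 * (x : ℝ) ^ (1 / 2 : ℝ) := Nat.floor_le (by positivity)
  have hsq : ((x : ℝ) ^ (1 / 2 : ℝ)) ^ 2 = x := by
    rw [← Real.rpow_natCast, ← Real.rpow_mul hx0.le]
    norm_num
  have hsub : (Ioc x (2 * x)).filter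
      (fun n => ∃ p : ℕ, p.Prime ∧ (x : ℝ) ^ δ < p ∧ p ^ 2 ∣ n + H) ⊆
      (Ioc M0 M1).biUnion fun m => (Ioc x (2 * x)).filter (fun n => m ^ 2 ∣ n + H) := by
    intro n hn
    rw [mem_filter, mem_Ioc] at hn
    obtain ⟨⟨hn1, hn2⟩, p, hp, hp1, hp2⟩ := hn
    rw [mem_biUnion]
    refine ⟨p, ?_, ?_⟩
    · rw [mem_Ioc]
      constructor
      · have : (M0 : ℝ) < p := lt_of_le_of_lt hM0a hp1
        exact_mod_cast this
      · refine Nat.le_floor ?_
        have h3 : p ^ 2 ≤ n + H := Nat.le_of_dvd (by omega) hp2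
        have h4 : p ^ 2 ≤ 3 * x := by omega
        have h5 : (p : ℝ) ^ 2 ≤ (2 * (x : ℝ) ^ (1 / 2 : ℝ)) ^ 2 := by
          have : ((p ^ 2 : ℕ) : ℝ) ≤ ((3 * x : ℕ) : ℝ) := by exact_mod_cast h4
          push_cast at this
          rw [mul_pow, hsq]
          linarith
        exact le_of_sq_le_sq h5 (by positivity)
    · rw [mem_filter, mem_Ioc]
      exact ⟨⟨hn1, hn2⟩, hp2⟩
  have hcard : (((Ioc x (2 * x)).filter
      (fun n => ∃ p : ℕ, p.Prime ∧ (x : ℝ) ^ δ < p ∧ p ^ 2 ∣ n + H)).card : ℝ) ≤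
      ∑ m ∈ Ioc M0 M1, (x * ((m : ℝ) ^ 2)⁻¹ + 1) := by
    calc _ ≤ ((((Ioc M0 M1).biUnion fun m =>
          (Ioc x (2 * x)).filter (fun n => m ^ 2 ∣ n + H)).card : ℕ) : ℝ) := by
          exact_mod_cast card_le_card hsub
      _ ≤ ((∑ m ∈ Ioc M0 M1, ((Ioc x (2 * x)).filter (fun n => m ^ 2 ∣ n + H)).card : ℕ) : ℝ) := by
          exact_mod_cast card_biUnion_le
      _ = ∑ m ∈ Ioc M0 M1, (((Ioc x (2 * x)).filter (fun n => m ^ 2 ∣ n + H)).card : ℝ) := by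
          push_cast
          rfl
      _ ≤ _ := by
          refine sum_le_sum fun m hm => ?_
          rw [mem_Ioc] at hm
          have hm0 : 0 < m := by omega
          have h6 := Sqr_card x (2 * x) H (m ^ 2) (by positivity) (by omega)
          refine h6.trans (le_of_eq ?_)
          push_cast
          field_simp
          ring
  refine hcard.trans ?_
  rw [sum_add_distrib, ← mul_sum, sum_const, Nat.card_Ioc, nsmul_eq_mul, mul_one]
  have h7 := sum_Ioc_inv_sq_le_sub (α := ℝ) hM0e hM01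
  have h8 : ∑ m ∈ Ioc M0 M1, ((m : ℝ) ^ 2)⁻¹ ≤ (M0 : ℝ)⁻¹ := by
    have : (0 : ℝ) ≤ (M1 : ℝ)⁻¹ := by positivity
    linarith
  have h9 : (x : ℝ) * (M0 : ℝ)⁻¹ ≤ 2 * (x : ℝ) ^ (1 - δ) := by
    rw [Real.rpow_sub hx0, Real.rpow_one, ← div_eq_mul_inv, div_le_iff₀ hM0d]
    have h10 : 2 * ((x : ℝ) / (x : ℝ) ^ δ) * M0 ≥ 2 * ((x : ℝ) / (x : ℝ) ^ δ) * ((x : ℝ) ^ δ / 2) :=
      mul_le_mul_of_nonneg_left hM0c (by positivity)
    have h11 : 2 * ((x : ℝ) / (x : ℝ) ^ δ) * ((x : ℝ) ^ δ / 2) = x := by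
      field_simp
    linarith
  have h12 : ((M1 - M0 : ℕ) : ℝ) ≤ 2 * (x : ℝ) ^ (1 - δ) := by
    have h13 : ((M1 - M0 : ℕ) : ℝ) ≤ M1 := by exact_mod_cast Nat.sub_le _ _
    have h14 : (x : ℝ) ^ (1 / 2 : ℝ) ≤ (x : ℝ) ^ (1 - δ) :=
      Real.rpow_le_rpow_of_exponent_le hx1 (by linarith)
    linarith
  have h15 : (x : ℝ) * ∑ m ∈ Ioc M0 M1, ((m : ℝ) ^ 2)⁻¹ ≤ x * (M0 : ℝ)⁻¹ :=
    mul_le_mul_of_nonneg_left h8 hx0.le
  linarith

open Classical in
theorem sqr_le (ι : Type) [Fintype ι] [DecidableEq ι] (h : ι → ℕ) (B1 : ℕ) (δ : ℝ) (hδ : 0 < δ) (hδ1 : δ ≤ 1 / 2) :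
    ∀ᶠ x : ℕ in atTop, ∀ (θ : ℝ) (y : Finset (ι × ℕ) → ℝ), Yok x δ θ (Real.log x ^ B1) y → ∀ i,
      ∑ n ∈ (Ioc x (2 * x)).filter (fun n => ∃ p : ℕ, p.Prime ∧ (x : ℝ) ^ δ < p ∧ p ^ 2 ∣ n + h i),
        Ly h x δ y n ^ 2 ≤ (x : ℝ) ^ (1 - δ / 4) := by
  have e1 := ptw ι h B1 (δ / 4) (by positivity)
  have e2 : ∀ᶠ x : ℕ in atTop, ∀ i, h i ≤ x :=
    Filter.eventually_all.2 fun i => eventually_ge_atTop (h i)
  have e3 : ∀ᶠ x : ℕ in atTop, 4 ≤ (x : ℝ) ^ (δ / 2) :=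
    ((tendsto_rpow_atTop (by positivity : 0 < δ / 2)).comp
      (tendsto_natCast_atTop_atTop (R := ℝ))).eventually_ge_atTop 4
  filter_upwards [e1, e2, e3, eventually_ge_atTop 1] with x h1 h2 h3 h4 θ y hy i
  have hx0 : (0 : ℝ) < x := by exact_mod_cast h4
  have h5 : 2 ≤ (x : ℝ) ^ δ := by
    have h6 : (x : ℝ) ^ δ = (x : ℝ) ^ (δ / 2) * (x : ℝ) ^ (δ / 2) := by
      rw [← Real.rpow_add hx0]
      congr 1
      ring
    rw [h6]
    nlinarith
  have h7 := Sqr_count x (h i) δ hδ1 h4 (h2 i) h5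
  calc ∑ n ∈ (Ioc x (2 * x)).filter
        (fun n => ∃ p : ℕ, p.Prime ∧ (x : ℝ) ^ δ < p ∧ p ^ 2 ∣ n + h i), Ly h x δ y n ^ 2
      ≤ ∑ _n ∈ (Ioc x (2 * x)).filter
        (fun n => ∃ p : ℕ, p.Prime ∧ (x : ℝ) ^ δ < p ∧ p ^ 2 ∣ n + h i), (x : ℝ) ^ (δ / 4) := by
        refine sum_le_sum fun n hn => ?_
        exact h1 δ θ y hy n (mem_filter.1 hn).1
    _ = (((Ioc x (2 * x)).filter
        (fun n => ∃ p : ℕ, p.Prime ∧ (x : ℝ) ^ δ < p ∧ p ^ 2 ∣ n + h i)).card : ℝ) *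
        (x : ℝ) ^ (δ / 4) := by
        rw [sum_const, nsmul_eq_mul]
    _ ≤ 4 * (x : ℝ) ^ (1 - δ) * (x : ℝ) ^ (δ / 4) :=
        mul_le_mul_of_nonneg_right h7 (by positivity)
    _ ≤ (x : ℝ) ^ (δ / 2) * (x : ℝ) ^ (1 - δ) * (x : ℝ) ^ (δ / 4) := by gcongr
    _ = (x : ℝ) ^ (1 - δ / 4) := by
        rw [← Real.rpow_add hx0, ← Real.rpow_add hx0]
        congr 1
        ring

end Pool.Agent.H36.IS

end
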