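import Pool.Agent.H47.B1.M31
import Pool.Agent.H47.B1.M33
import Pool.Agent.H47.B1.M34

/-! The parts of this file: H36.IS.MarkP, H36.IS.Fin. -/

section

/-!
# IS MarkP: the data of the prime mark

mk x m = m.Prime, δ = 1/4, θ = 0.0001, l x = q1 x = DP x/(x A0 x), q2 x = l x/GG (PZ x (1/4)) (0.2498 log x), c' = 1/2, C = 2.
 l τ = DP log x/x → 1 (`DP_pnt`).  c q2 ≤ l²: l · GG ≥ l · A0 · 0.2498 log x = 0.2498 DP log x/x ≥ 0.2497 (`GG_low`: 0.2498 ≤ 1/4).
 The three sums: `sumP1`, `sumP2` with B1 = 1 (K ≤ log x eventually, `Yok.mono`), θ + ρ = 0.2499 < 1/4.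
-/

set_option autoImplicit false

namespace Pool.Agent.H36.IS

open Finset Filter

private theorem MarkP_A0_pos (x : ℕ) : 0 < A0 x := by
  unfold A0
  apply prod_pos
  intro p hp
  have hp' : p.Prime := (mem_filter.mp hp).2.1
  have h2 : (2 : ℝ) ≤ p := by exact_mod_cast hp'.two_le
  have h3 : 1 / (p : ℝ) ≤ 1 / 2 := one_div_le_one_div_of_le (by norm_num) h2
  linarith

theorem markP : MarkData Nat.Prime (1 / 4) 0.0001 0.2497 := by
  classical
  refine ⟨fun _ m => m.Prime, fun x => DP x / (x * A0 x), fun x => DP x / (x * A0 x),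
    fun x => DP x / (x * A0 x) / GG (PZ x (1 / 4)) (0.2498 * Real.log x), 1 / 2, 2,
    fun _ _ h => h, by norm_num, by norm_num, ?_, ?_⟩
  · have hlog : ∀ᶠ x : ℕ in atTop, 1 ≤ Real.log x :=
      (Real.tendsto_log_atTop.comp tendsto_natCast_atTop_atTop).eventually_ge_atTop 1
    filter_upwards [DP_pnt 0.0001 (by norm_num), GG_low, hlog, eventually_ge_atTop 1] with
      x hx hg hl hx1
    have hx0 : (0 : ℝ) < x := by exact_mod_cast hx1
    have hA := MarkP_A0_pos x
    have hl0 : 0 < Real.log x := by linarith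
    obtain ⟨h1, h2⟩ := hx
    -- `DP log x / x`
    have e0 : DP x / (x * A0 x) * tau x = DP x * Real.log x / x := by
      unfold tau
      field_simp
    have hd1 : 1 - 0.0001 ≤ DP x * Real.log x / x := by
      rw [le_div_iff₀ hx0]
      have h3 := mul_le_mul_of_nonneg_right h1 hl0.le
      have h4 : (1 - 0.0001) * ((x : ℝ) / Real.log x) * Real.log x = (1 - 0.0001) * x := by
        field_simp
      linarith
    have hd2 : DP x * Real.log x / x ≤ 1 + 0.0001 := by
      rw [div_le_iff₀ hx0]
      have h3 := mul_le_mul_of_nonneg_right h2 hl0.le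
      have h4 : (1 + 0.0001) * ((x : ℝ) / Real.log x) * Real.log x = (1 + 0.0001) * x := by
        field_simp
      linarith
    have hDP : 0 < DP x := by
      have h3 : 0 < (1 - 0.0001) * ((x : ℝ) / Real.log x) := by
        have : 0 < (x : ℝ) / Real.log x := by positivity
        nlinarith
      linarith
    have hl' : 0 < DP x / (x * A0 x) := by positivity
    have hGG := hg (1 / 4) (by norm_num) (by norm_num) (0.2498 * Real.log x) (by positivity)
      (by nlinarith)
    have hGp : 0 < GG (PZ x (1 / 4)) (0.2498 * Real.log x) :=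
      lt_of_lt_of_le (by positivity) hGG
    refine ⟨by rw [e0]; linarith, hl'.le, by rw [e0]; linarith, by positivity, ?_⟩
    have h5 : 0.2497 ≤ DP x / (x * A0 x) * GG (PZ x (1 / 4)) (0.2498 * Real.log x) := by
      have h6 : DP x / (x * A0 x) * (A0 x * (0.2498 * Real.log x)) ≤
          DP x / (x * A0 x) * GG (PZ x (1 / 4)) (0.2498 * Real.log x) :=
        mul_le_mul_of_nonneg_left hGG hl'.le
      have h7 : DP x / (x * A0 x) * (A0 x * (0.2498 * Real.log x)) =
          0.2498 * (DP x * Real.log x / x) := by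
        field_simp
      linarith
    have h8 : 0.2497 * (DP x / (x * A0 x) / GG (PZ x (1 / 4)) (0.2498 * Real.log x)) =
        (DP x / (x * A0 x)) * (0.2497 / GG (PZ x (1 / 4)) (0.2498 * Real.log x)) := by
      ring
    rw [h8, sq]
    apply mul_le_mul_of_nonneg_left _ hl'.le
    rw [div_le_iff₀ hGp]
    exact h5
  · intro ι _ _ h W b hG K A
    have hK : ∀ᶠ x : ℕ in atTop, K ≤ Real.log x :=
      (Real.tendsto_log_atTop.comp tendsto_natCast_atTop_atTop).eventually_ge_atTop K
    filter_upwards [sumP1 ι h W b hG 1 (1 / 4) 0.0001 (by norm_num) (by norm_num) (by norm_num)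
      (by norm_num) A, sumP2 ι h W b hG 1 (1 / 4) 0.0001 0.2498 (by norm_num) (by norm_num)
      (by norm_num) (by norm_num) (by norm_num) A, hK] with x h1 h2 hx y hy
    have hy' : Yok x (1 / 4) 0.0001 (Real.log x ^ 1) y := by
      intro R
      obtain ⟨a, b, c⟩ := hy R
      exact ⟨a, by rw [pow_one]; linarith, c⟩
    constructor
    · intro i
      have h3 := abs_le.mp (h1 y hy' i)
      constructor
      · refine le_trans ?_ (le_of_eq (sum_congr (?_ :
          (AA h W b x).filter (fun n => (n + h i).Prime) = _) (fun _ _ => rfl)))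
        · linarith [h3.1]
        · ext n
          simp only [mem_filter]
      · refine le_trans (le_of_eq (sum_congr (?_ : _ =
          (AA h W b x).filter (fun n => (n + h i).Prime)) (fun _ _ => rfl))) ?_
        · ext n
          simp only [mem_filter]
        · linarith [h3.2]
    · intro i j hij
      refine le_trans (le_of_eq (sum_congr (?_ : _ =
          (AA h W b x).filter (fun n => (n + h i).Prime ∧ (n + h j).Prime)) (fun _ _ => rfl))) ?_
      · ext n
        simp only [mem_filter]
      · have h3 := h2 y hy' i j hij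
        refine le_trans (le_of_eq (sum_congr ?_ (fun _ _ => rfl))) h3
        ext n
        simp only [mem_filter]

end Pool.Agent.H36.IS

end

section

/-!
# IS Fin: the main theorems
-/

set_option autoImplicit false

namespace Pool.Agent.H36.IS

theorem stepP : ∃ κ : ℕ → ℕ, Step Nat.Prime 0.2495 κ := by
  obtain ⟨κ, h⟩ := cheb_step Nat.Prime (1 / 4) 0.0001 0.2497 0.2495 (by norm_num) (by norm_num) (by norm_num)
    (by norm_num) (by norm_num) markP (by norm_num)
  exact ⟨κ, toStep h⟩

end Pool.Agent.H36.IS

end
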