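import Pool.Agent.H47.B1.M31

/-! The parts of this file: H36.IS2.Tab2, H36.IS2.NumD, H36.IS2.ArrE. -/

section

/-!
# ISP Tab2: numerical values of the one-dimensional sieve functions (kernel computation)

Copy of Pool/Agent/H91/PK/SvE.lean with the grid step 1/50 instead of 1/10 and the constant 1.0001 instead of 1.01:
grid s_i = (700 - i)/50, i = 0,...,650 (from 14 down to 1), a state is a pair of lists of 651 naturals (scale 10^8); T = 50 times the
node; `(10001 * A + 10000 * T - 1) / (10000 * T)`; drop 52 instead of 12, index 51 instead of 11, 700 instead of 140, 699 instead of 139;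
initial upper values from `U2_ext` (U1_base: 1.00015 at 14).
20 iterations, evaluated by the kernel (decide +kernel; if this is heavy, split it: give the state after every 5 iterations as an explicit
list, or state the lemma for the iterate of an explicit list).
Expected values after 20 iterations (floating point simulation): lower value at 5.52: 0.998039; upper value at 5.52: 1.001936; upper values at
4.36 - 0.16 k, k = 0..16: see `FT` below, which is the simulated value plus 0.002 (so 18 or 19 iterations may suffice).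
-/

set_option autoImplicit false

namespace Pool.Agent.H36.IS2

open Finset Filter Pool.Agent.H36.IS

open Pool.Agent.H91.PK (U1_base L1_base)

/-- upper bounds, scale 10^5, for the upper sieve function at 4.36 - 0.16 k -/
def FT (k : ℕ) : ℕ := [101578, 102112, 102852, 103873, 105276, 107201, 109843, 113482, 118525, 124991, 132225, 140349, 149540, 160019, 172081, 186112, 202638].getD k 0

/-- one pass for the upper function: `T` is ten times the node, `A` the running sum, `c` the last lower value -/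
private def Tab2_goU : ℕ → ℕ → ℕ → List ℕ → List ℕ → List ℕ
  | _, _, _, _, [] => []
  | T, A, c, fs, F :: Fs =>
      min F ((10001 * A + 10000 * T - 1) / (10000 * T) + c) ::
        Tab2_goU (T - 1) (A + (c - min c (fs.headD 0)) * T) (min c (fs.headD 0)) fs.tail Fs

/-- one pass for the lower function -/
private def Tab2_goL : ℕ → ℕ → ℕ → List ℕ → List ℕ → List ℕ
  | _, _, _, _, [] => []
  | T, A, c, [], f :: fs => max f (c - (10001 * A + 10000 * T - 1) / (10000 * T)) :: fs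
  | T, A, c, F :: Fs, f :: fs =>
      max f (c - (10001 * A + 10000 * T - 1) / (10000 * T)) ::
        Tab2_goL (T - 1) (A + (max c F - c) * T) (max c F) Fs fs

/-- one iteration -/
private def Tab2_it (x : List ℕ × List ℕ) : List ℕ × List ℕ :=
  (x.1.headD 0 :: Tab2_goU 699 ((x.1.headD 0 - min (x.2.getD 51 0) (x.1.headD 0)) * 700)
      (min (x.2.getD 51 0) (x.1.headD 0)) (x.2.drop 52) (x.1.drop 1),
   x.2.headD 0 :: Tab2_goL 699 ((max (x.1.getD 51 0) (x.2.headD 0) - x.2.headD 0) * 700)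
      (max (x.1.getD 51 0) (x.2.headD 0)) (x.1.drop 52) (x.2.drop 1))

private def Tab2_iter : ℕ → List ℕ × List ℕ → List ℕ × List ℕ
  | 0, x => x
  | n + 1, x => Tab2_iter n (Tab2_it x)

/-- valid upper values on the grid starting at `s` -/
private def Tab2_OkU : ℝ → List ℕ → Prop
  | _, [] => True
  | s, F :: Fs => U2 s ((F : ℝ) / 10 ^ 8) ∧ Tab2_OkU (s - 1 / 50) Fs

/-- valid lower values on the grid starting at `s` -/
private def Tab2_OkL : ℝ → List ℕ → Prop
  | _, [] => True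
  | s, F :: Fs => L2 s ((F : ℝ) / 10 ^ 8) ∧ Tab2_OkL (s - 1 / 50) Fs

private theorem Tab2_OkL_get : ∀ (l : List ℕ) (s : ℝ) (_ : Tab2_OkL s l) (i : ℕ),
    L2 (s - i / 50) ((l.getD i 0 : ℕ) / 10 ^ 8 : ℝ) := by
  intro l
  induction l with
  | nil =>
    intro s _ i
    simpa using L2_zero (s - i / 50)
  | cons F Fs ih =>
    intro s h i
    cases i with
    | zero => simpa using h.1
    | succ j =>
      have := ih (s - 1 / 50) h.2 j
      have e : s - 1 / 50 - (j : ℝ) / 50 = s - ((j + 1 : ℕ) : ℝ) / 50 := by push_cast; ring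
      rw [e] at this
      simpa using this

private theorem Tab2_OkL_drop : ∀ (k : ℕ) (l : List ℕ) (s : ℝ) (_ : Tab2_OkL s l), Tab2_OkL (s - k / 50) (l.drop k) := by
  intro k
  induction k with
  | zero => intro l s h; simpa using h
  | succ k ih =>
    intro l s h
    cases l with
    | nil => simp [Tab2_OkL]
    | cons F Fs =>
      have := ih Fs (s - 1 / 50) h.2
      have e : s - 1 / 50 - (k : ℝ) / 50 = s - ((k + 1 : ℕ) : ℝ) / 50 := by push_cast; ring
      rw [e] at this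
      simpa using this

private theorem Tab2_OkU_drop : ∀ (k : ℕ) (l : List ℕ) (s : ℝ) (_ : Tab2_OkU s l), Tab2_OkU (s - k / 50) (l.drop k) := by
  intro k
  induction k with
  | zero => intro l s h; simpa using h
  | succ k ih =>
    intro l s h
    cases l with
    | nil => simp [Tab2_OkU]
    | cons F Fs =>
      have := ih Fs (s - 1 / 50) h.2
      have e : s - 1 / 50 - (k : ℝ) / 50 = s - ((k + 1 : ℕ) : ℝ) / 50 := by push_cast; ring
      rw [e] at this
      simpa using this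

private theorem Tab2_OkU_get : ∀ (l : List ℕ) (s : ℝ) (_ : Tab2_OkU s l) (i : ℕ) (_ : i < l.length),
    U2 (s - i / 50) ((l.getD i 0 : ℕ) / 10 ^ 8 : ℝ) := by
  intro l
  induction l with
  | nil => intro s _ i hi; simp at hi
  | cons F Fs ih =>
    intro s h i hi
    cases i with
    | zero => simpa using h.1
    | succ j =>
      have := ih (s - 1 / 50) h.2 j (by simpa using hi)
      have e : s - 1 / 50 - (j : ℝ) / 50 = s - ((j + 1 : ℕ) : ℝ) / 50 := by push_cast; ring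
      rw [e] at this
      simpa using this

/-- state of the upper pass -/
private def Tab2_StU (T A c : ℕ) : Prop :=
  ∃ (n : ℕ) (t : ℕ → ℝ) (f : ℕ → ℝ) (F₀ : ℝ), 1 ≤ n ∧ (∀ i < n, t (i + 1) < t i) ∧ t n = (T : ℝ) / 50 ∧ 0 < t n ∧
    U2 (t 0) F₀ ∧ (∀ i < n, L2 (t (i + 1) - 1) (f i)) ∧ f 0 ≤ F₀ ∧ (∀ i, i + 1 < n → f (i + 1) ≤ f i) ∧
    f (n - 1) = (c : ℝ) / 10 ^ 8 ∧
    (F₀ - f 0) * t 0 + ∑ i ∈ range (n - 1), (f i - f (i + 1)) * t (i + 1) = (A : ℝ) / (5 * 10 ^ 9)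

/-- state of the lower pass -/
private def Tab2_StL (T A c : ℕ) : Prop :=
  ∃ (n : ℕ) (t : ℕ → ℝ) (F : ℕ → ℝ) (f₀ : ℝ), 1 ≤ n ∧ (∀ i < n, t (i + 1) < t i) ∧ t n = (T : ℝ) / 50 ∧ 0 < t n ∧
    L2 (t 0) f₀ ∧ (∀ i < n, U2 (t (i + 1) - 1) (F i)) ∧ f₀ ≤ F 0 ∧ (∀ i, i + 1 < n → F i ≤ F (i + 1)) ∧
    F (n - 1) = (c : ℝ) / 10 ^ 8 ∧
    (F 0 - f₀) * t 0 + ∑ i ∈ range (n - 1), (F (i + 1) - F i) * t (i + 1) = (A : ℝ) / (5 * 10 ^ 9)

private theorem Tab2_ceil (A T : ℕ) (hT : 0 < T) :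
    1.0001 / ((T : ℝ) / 50) * ((A : ℝ) / (5 * 10 ^ 9)) ≤ (((10001 * A + 10000 * T - 1) / (10000 * T) : ℕ) : ℝ) / 10 ^ 8 := by
  have h1 : 10001 * A ≤ (10001 * A + 10000 * T - 1) / (10000 * T) * (10000 * T) := by
    have h := Nat.div_add_mod (10001 * A + 10000 * T - 1) (10000 * T)
    have h2 := Nat.mod_lt (10001 * A + 10000 * T - 1) (show 0 < 10000 * T by omega)
    have h3 : 10000 * T * ((10001 * A + 10000 * T - 1) / (10000 * T)) = (10001 * A + 10000 * T - 1) / (10000 * T) * (10000 * T) :=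
      mul_comm _ _
    omega
  have h2 : (10001 : ℝ) * A ≤ (((10001 * A + 10000 * T - 1) / (10000 * T) : ℕ) : ℝ) * (10000 * T) := by exact_mod_cast h1
  have hT' : (0 : ℝ) < T := by exact_mod_cast hT
  have e : 1.0001 / ((T : ℝ) / 50) * ((A : ℝ) / (5 * 10 ^ 9)) = (10001 * A) / (10000 * T) / 10 ^ 8 := by
    field_simp
    norm_num
    ring
  rw [e]
  apply div_le_div_of_nonneg_right _ (by norm_num)
  rw [div_le_iff₀ (by positivity)]
  exact h2

private theorem Tab2_StU.out {T A c : ℕ} (h : Tab2_StU T A c) :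
    U2 ((T : ℝ) / 50) ((((10001 * A + 10000 * T - 1) / (10000 * T) + c : ℕ) : ℝ) / 10 ^ 8) := by
  obtain ⟨n, t, f, F₀, hn, ht, htn, ht0, hU, hL, hf0, hf, hc, hA⟩ := h
  have hT : 0 < T := by
    rcases Nat.eq_zero_or_pos T with h0 | h0
    · rw [htn, h0] at ht0; simp at ht0
    · exact h0
  have h := U2_step hn ht ht0 hU hL hf0 hf
  rw [hA, hc, htn] at h
  refine h.mono le_rfl ?_
  have := Tab2_ceil A T hT
  push_cast at this ⊢
  rw [add_div]
  linarith

private theorem Tab2_StL.out {T A c : ℕ} (h : Tab2_StL T A c) :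
    L2 ((T : ℝ) / 50) (((c - (10001 * A + 10000 * T - 1) / (10000 * T) : ℕ) : ℝ) / 10 ^ 8) := by
  obtain ⟨n, t, F, f₀, hn, ht, htn, ht0, hL, hU, hf0, hF, hc, hA⟩ := h
  have hT : 0 < T := by
    rcases Nat.eq_zero_or_pos T with h0 | h0
    · rw [htn, h0] at ht0; simp at ht0
    · exact h0
  rcases le_total ((10001 * A + 10000 * T - 1) / (10000 * T)) c with hle | hle
  · have h := L2_step hn ht ht0 hL hU hf0 hF
    rw [hA, hc, htn] at h
    refine h.mono le_rfl ?_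
    have := Tab2_ceil A T hT
    rw [Nat.cast_sub hle, sub_div]
    linarith
  · rw [Nat.sub_eq_zero_of_le hle]
    simpa using L2_zero ((T : ℝ) / 50)

private theorem Tab2_StU.next {T A c c' : ℕ} (h : Tab2_StU T A c) (hT : 2 ≤ T) (hc' : c' ≤ c)
    (hL' : L2 ((T : ℝ) / 50 - 51 / 50) ((c' : ℝ) / 10 ^ 8)) : Tab2_StU (T - 1) (A + (c - c') * T) c' := by
  obtain ⟨n, t, f, F₀, hn, ht, htn, ht0, hU, hL, hf0, hf, hc, hA⟩ := h
  have hT1 : ((T - 1 : ℕ) : ℝ) = (T : ℝ) - 1 := by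
    rw [Nat.cast_sub (by omega)]; simp
  have hTr : (2 : ℝ) ≤ T := by exact_mod_cast hT
  refine ⟨n + 1, fun i => if i ≤ n then t i else ((T : ℝ) - 1) / 50, fun i => if i < n then f i else (c' : ℝ) / 10 ^ 8,
    F₀, by omega, ?_, ?_, ?_, ?_, ?_, ?_, ?_, ?_, ?_⟩
  · intro i hi
    rcases Nat.lt_or_ge i n with h | h
    · simp only [show i + 1 ≤ n by omega, show i ≤ n by omega, if_true]
      exact ht i h
    · have : i = n := by omega
      subst this
      simp only [show ¬ (i + 1 ≤ i) by omega, le_refl, if_true, if_false]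
      rw [htn]; linarith
  · simp only [show ¬ (n + 1 ≤ n) by omega, if_false, hT1]
  · simp only [show ¬ (n + 1 ≤ n) by omega, if_false]
    linarith
  · simpa using hU
  · intro i hi
    rcases Nat.lt_or_ge i n with h | h
    · simp only [show i + 1 ≤ n by omega, h, if_true]
      exact hL i h
    · have : i = n := by omega
      subst this
      simp only [show ¬ (i + 1 ≤ i) by omega, lt_irrefl, if_false]
      have e : ((T : ℝ) - 1) / 50 - 1 = (T : ℝ) / 50 - 51 / 50 := by ring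
      rw [e]; exact hL'
  · simp only [show 0 < n by omega, if_true]; exact hf0
  · intro i hi
    rcases Nat.lt_or_ge (i + 1) n with h | h
    · simp only [h, show i < n by omega, if_true]
      exact hf i h
    · have hin : n = i + 1 := by omega
      simp only [hin, lt_irrefl, show i < i + 1 by omega, if_true, if_false]
      have : f i = (c : ℝ) / 10 ^ 8 := by rw [← hc, hin]; simp
      rw [this]
      have : (c' : ℝ) ≤ c := by exact_mod_cast hc'
      exact div_le_div_of_nonneg_right this (by norm_num)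
  · simp
  · have hs : ∑ i ∈ range (n + 1 - 1), ((if i < n then f i else (c' : ℝ) / 10 ^ 8) -
        (if i + 1 < n then f (i + 1) else (c' : ℝ) / 10 ^ 8)) * (if i + 1 ≤ n then t (i + 1) else ((T : ℝ) - 1) / 50)
        = ∑ i ∈ range (n - 1), (f i - f (i + 1)) * t (i + 1) + (f (n - 1) - (c' : ℝ) / 10 ^ 8) * t n := by
      obtain ⟨m, rfl⟩ : ∃ m, n = m + 1 := ⟨n - 1, by omega⟩
      simp only [Nat.add_sub_cancel]
      rw [Finset.sum_range_succ]
      congr 1
      · apply Finset.sum_congr rfl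
        intro i hi
        have := Finset.mem_range.mp hi
        simp only [show i < m + 1 by omega, show i + 1 < m + 1 by omega, show i + 1 ≤ m + 1 by omega, if_true]
      · simp
    simp only [show 0 < n by omega, Nat.zero_le, if_true]
    rw [hs, ← add_assoc, hA, hc, htn]
    rw [Nat.cast_add, Nat.cast_mul, Nat.cast_sub hc']
    ring

private theorem Tab2_StL.next {T A c c' : ℕ} (h : Tab2_StL T A c) (hT : 2 ≤ T) (hc' : c ≤ c')
    (hU' : U2 ((T : ℝ) / 50 - 51 / 50) ((c' : ℝ) / 10 ^ 8)) : Tab2_StL (T - 1) (A + (c' - c) * T) c' := by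
  obtain ⟨n, t, F, f₀, hn, ht, htn, ht0, hL, hU, hf0, hF, hc, hA⟩ := h
  have hT1 : ((T - 1 : ℕ) : ℝ) = (T : ℝ) - 1 := by
    rw [Nat.cast_sub (by omega)]; simp
  have hTr : (2 : ℝ) ≤ T := by exact_mod_cast hT
  refine ⟨n + 1, fun i => if i ≤ n then t i else ((T : ℝ) - 1) / 50, fun i => if i < n then F i else (c' : ℝ) / 10 ^ 8,
    f₀, by omega, ?_, ?_, ?_, ?_, ?_, ?_, ?_, ?_, ?_⟩
  · intro i hi
    rcases Nat.lt_or_ge i n with h | h
    · simp only [show i + 1 ≤ n by omega, show i ≤ n by omega, if_true]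
      exact ht i h
    · have : i = n := by omega
      subst this
      simp only [show ¬ (i + 1 ≤ i) by omega, le_refl, if_true, if_false]
      rw [htn]; linarith
  · simp only [show ¬ (n + 1 ≤ n) by omega, if_false, hT1]
  · simp only [show ¬ (n + 1 ≤ n) by omega, if_false]
    linarith
  · simpa using hL
  · intro i hi
    rcases Nat.lt_or_ge i n with h | h
    · simp only [show i + 1 ≤ n by omega, h, if_true]
      exact hU i h
    · have : i = n := by omega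
      subst this
      simp only [show ¬ (i + 1 ≤ i) by omega, lt_irrefl, if_false]
      have e : ((T : ℝ) - 1) / 50 - 1 = (T : ℝ) / 50 - 51 / 50 := by ring
      rw [e]; exact hU'
  · simp only [show 0 < n by omega, if_true]; exact hf0
  · intro i hi
    rcases Nat.lt_or_ge (i + 1) n with h | h
    · simp only [h, show i < n by omega, if_true]
      exact hF i h
    · have hin : n = i + 1 := by omega
      simp only [hin, lt_irrefl, show i < i + 1 by omega, if_true, if_false]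
      have : F i = (c : ℝ) / 10 ^ 8 := by rw [← hc, hin]; simp
      rw [this]
      have : (c : ℝ) ≤ c' := by exact_mod_cast hc'
      exact div_le_div_of_nonneg_right this (by norm_num)
  · simp
  · have hs : ∑ i ∈ range (n + 1 - 1), ((if i + 1 < n then F (i + 1) else (c' : ℝ) / 10 ^ 8) -
        (if i < n then F i else (c' : ℝ) / 10 ^ 8)) * (if i + 1 ≤ n then t (i + 1) else ((T : ℝ) - 1) / 50)
        = ∑ i ∈ range (n - 1), (F (i + 1) - F i) * t (i + 1) + ((c' : ℝ) / 10 ^ 8 - F (n - 1)) * t n := by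
      obtain ⟨m, rfl⟩ : ∃ m, n = m + 1 := ⟨n - 1, by omega⟩
      simp only [Nat.add_sub_cancel]
      rw [Finset.sum_range_succ]
      congr 1
      · apply Finset.sum_congr rfl
        intro i hi
        have := Finset.mem_range.mp hi
        simp only [show i < m + 1 by omega, show i + 1 < m + 1 by omega, show i + 1 ≤ m + 1 by omega, if_true]
      · simp
    simp only [show 0 < n by omega, Nat.zero_le, if_true]
    rw [hs, ← add_assoc, hA, hc, htn]
    rw [Nat.cast_add, Nat.cast_mul, Nat.cast_sub hc']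
    ring

private theorem Tab2_StU.init {F0 c : ℕ} (hU : U2 14 ((F0 : ℝ) / 10 ^ 8)) (hc : c ≤ F0)
    (hL : L2 (649 / 50) ((c : ℝ) / 10 ^ 8)) : Tab2_StU 699 ((F0 - c) * 700) c := by
  refine ⟨1, fun i => (700 - (i : ℝ)) / 50, fun _ => (c : ℝ) / 10 ^ 8, (F0 : ℝ) / 10 ^ 8, le_rfl, ?_, ?_, ?_, ?_, ?_,
    ?_, ?_, ?_, ?_⟩
  · intro i _; push_cast; linarith
  · norm_num
  · norm_num
  · norm_num; norm_num at hU; exact hU
  · intro i hi
    have : i = 0 := by omega
    subst this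
    norm_num; norm_num at hL; exact hL
  · have : (c : ℝ) ≤ F0 := by exact_mod_cast hc
    exact div_le_div_of_nonneg_right this (by norm_num)
  · intro i _; exact le_rfl
  · rfl
  · simp only [Nat.sub_self, Finset.range_zero, Finset.sum_empty, Nat.cast_zero]
    rw [Nat.cast_mul, Nat.cast_sub hc]
    push_cast
    ring

private theorem Tab2_StL.init {f0 c : ℕ} (hL : L2 14 ((f0 : ℝ) / 10 ^ 8)) (hc : f0 ≤ c)
    (hU : U2 (649 / 50) ((c : ℝ) / 10 ^ 8)) : Tab2_StL 699 ((c - f0) * 700) c := by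
  refine ⟨1, fun i => (700 - (i : ℝ)) / 50, fun _ => (c : ℝ) / 10 ^ 8, (f0 : ℝ) / 10 ^ 8, le_rfl, ?_, ?_, ?_, ?_, ?_,
    ?_, ?_, ?_, ?_⟩
  · intro i _; push_cast; linarith
  · norm_num
  · norm_num
  · norm_num; norm_num at hL; exact hL
  · intro i hi
    have : i = 0 := by omega
    subst this
    norm_num; norm_num at hU; exact hU
  · have : (f0 : ℝ) ≤ c := by exact_mod_cast hc
    exact div_le_div_of_nonneg_right this (by norm_num)
  · intro i _; exact le_rfl
  · rfl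
  · simp only [Nat.sub_self, Finset.range_zero, Finset.sum_empty, Nat.cast_zero]
    rw [Nat.cast_mul, Nat.cast_sub hc]
    push_cast
    ring

private theorem Tab2_goU_ok : ∀ (Fs : List ℕ) (T A c : ℕ) (fs : List ℕ), T = Fs.length + 49 → Tab2_StU T A c →
    Tab2_OkL ((T : ℝ) / 50 - 51 / 50) fs → Tab2_OkU ((T : ℝ) / 50) Fs →
    Tab2_OkU ((T : ℝ) / 50) (Tab2_goU T A c fs Fs) := by
  intro Fs
  induction Fs with
  | nil => intro T A c fs _ _ _ _; simp [Tab2_goU, Tab2_OkU]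
  | cons F Fs ih =>
    intro T A c fs hT hS hL hU
    have hT1 : ((T - 1 : ℕ) : ℝ) = (T : ℝ) - 1 := by
      rw [Nat.cast_sub (by omega)]; simp
    refine ⟨?_, ?_⟩
    · rcases min_choice F ((10001 * A + 10000 * T - 1) / (10000 * T) + c) with h | h
      · rw [h]; exact hU.1
      · rw [h]; exact hS.out
    · have e1 : (T : ℝ) / 50 - 1 / 50 = ((T - 1 : ℕ) : ℝ) / 50 := by rw [hT1]; ring
      have e2 : (T : ℝ) / 50 - 51 / 50 - 1 / 50 = ((T - 1 : ℕ) : ℝ) / 50 - 51 / 50 := by rw [hT1]; ring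
      rw [e1]
      refine ih (T - 1) _ _ _ ?_ ?_ ?_ ?_
      · simp only [List.length_cons] at hT; omega
      · refine hS.next ?_ (min_le_left _ _) ?_
        · simp only [List.length_cons] at hT; omega
        · have h0 : L2 ((T : ℝ) / 50 - 51 / 50) (((fs.headD 0 : ℕ) : ℝ) / 10 ^ 8) := by
            cases fs with
            | nil => simpa using L2_zero ((T : ℝ) / 50 - 51 / 50)
            | cons a l => exact hL.1
          refine h0.mono le_rfl ?_
          have : ((min c (fs.headD 0) : ℕ) : ℝ) ≤ (fs.headD 0 : ℕ) := by exact_mod_cast min_le_right _ _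
          exact div_le_div_of_nonneg_right this (by norm_num)
      · cases fs with
        | nil => simp [Tab2_OkL]
        | cons a l => have := hL.2; rw [e2] at this; exact this
      · have := hU.2; rw [e1] at this; exact this

private theorem Tab2_goL_ok : ∀ (fs : List ℕ) (T A c : ℕ) (Fs : List ℕ), T = fs.length + 49 → Tab2_StL T A c →
    Tab2_OkU ((T : ℝ) / 50 - 51 / 50) Fs → Tab2_OkL ((T : ℝ) / 50) fs →
    Tab2_OkL ((T : ℝ) / 50) (Tab2_goL T A c Fs fs) := by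
  intro fs
  induction fs with
  | nil => intro T A c Fs _ _ _ _; simp [Tab2_goL, Tab2_OkL]
  | cons f fs ih =>
    intro T A c Fs hT hS hU hL
    have hT1 : ((T - 1 : ℕ) : ℝ) = (T : ℝ) - 1 := by
      rw [Nat.cast_sub (by omega)]; simp
    have hmax : L2 ((T : ℝ) / 50) (((max f (c - (10001 * A + 10000 * T - 1) / (10000 * T)) : ℕ) : ℝ) / 10 ^ 8) := by
      rcases max_choice f (c - (10001 * A + 10000 * T - 1) / (10000 * T)) with h | h
      · rw [h]; exact hL.1
      · rw [h]; exact hS.out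
    cases Fs with
    | nil => exact ⟨hmax, hL.2⟩
    | cons F Fs =>
      refine ⟨hmax, ?_⟩
      have e1 : (T : ℝ) / 50 - 1 / 50 = ((T - 1 : ℕ) : ℝ) / 50 := by rw [hT1]; ring
      have e2 : (T : ℝ) / 50 - 51 / 50 - 1 / 50 = ((T - 1 : ℕ) : ℝ) / 50 - 51 / 50 := by rw [hT1]; ring
      rw [e1]
      refine ih (T - 1) _ _ _ ?_ ?_ ?_ ?_
      · simp only [List.length_cons] at hT; omega
      · refine hS.next ?_ (le_max_left _ _) ?_
        · simp only [List.length_cons] at hT; omega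
        · refine hU.1.mono le_rfl ?_
          have : (F : ℝ) ≤ ((max c F : ℕ) : ℝ) := by exact_mod_cast le_max_right _ _
          exact div_le_div_of_nonneg_right this (by norm_num)
      · have := hU.2; rw [e2] at this; exact this
      · have := hL.2; rw [e1] at this; exact this

private theorem Tab2_goU_length : ∀ (Fs : List ℕ) (T A c : ℕ) (fs : List ℕ), (Tab2_goU T A c fs Fs).length = Fs.length := by
  intro Fs
  induction Fs with
  | nil => intro T A c fs; simp [Tab2_goU]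
  | cons F Fs ih => intro T A c fs; simp [Tab2_goU, ih]

private theorem Tab2_goL_length : ∀ (fs : List ℕ) (T A c : ℕ) (Fs : List ℕ), (Tab2_goL T A c Fs fs).length = fs.length := by
  intro fs
  induction fs with
  | nil => intro T A c Fs; simp [Tab2_goL]
  | cons f fs ih =>
    intro T A c Fs
    cases Fs with
    | nil => simp [Tab2_goL]
    | cons F Fs => simp [Tab2_goL, ih]

/-- valid states -/
private def Tab2_Ok (x : List ℕ × List ℕ) : Prop :=
  x.1.length = 651 ∧ x.2.length = 651 ∧ Tab2_OkU 14 x.1 ∧ Tab2_OkL 14 x.2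

private theorem Tab2_it_ok {x : List ℕ × List ℕ} (h : Tab2_Ok x) : Tab2_Ok (Tab2_it x) := by
  obtain ⟨hl1, hl2, hU, hL⟩ := h
  have hU0 : U2 14 (((x.1.headD 0 : ℕ) : ℝ) / 10 ^ 8) := by
    have := Tab2_OkU_get x.1 14 hU 0 (by omega)
    cases hx : x.1 with
    | nil => rw [hx] at hl1; simp at hl1
    | cons a l => rw [hx] at this; simpa using this
  have hL0 : L2 14 (((x.2.headD 0 : ℕ) : ℝ) / 10 ^ 8) := by
    have := Tab2_OkL_get x.2 14 hL 0
    cases hx : x.2 with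
    | nil => rw [hx] at hl2; simp at hl2
    | cons a l => rw [hx] at this; simpa using this
  have hL51 : L2 (649 / 50) (((x.2.getD 51 0 : ℕ) : ℝ) / 10 ^ 8) := by
    have := Tab2_OkL_get x.2 14 hL 51
    norm_num at this ⊢
    exact this
  have hU51 : U2 (649 / 50) (((x.1.getD 51 0 : ℕ) : ℝ) / 10 ^ 8) := by
    have := Tab2_OkU_get x.1 14 hU 51 (by omega)
    norm_num at this ⊢
    exact this
  refine ⟨?_, ?_, ⟨hU0, ?_⟩, ⟨hL0, ?_⟩⟩
  · simp [Tab2_it, Tab2_goU_length, hl1]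
  · simp [Tab2_it, Tab2_goL_length, hl2]
  · have e : (14 : ℝ) - 1 / 50 = ((699 : ℕ) : ℝ) / 50 := by norm_num
    rw [e]
    refine Tab2_goU_ok _ _ _ _ _ ?_ ?_ ?_ ?_
    · simp [hl1]
    · refine Tab2_StU.init hU0 (min_le_right _ _) ?_
      refine hL51.mono le_rfl ?_
      have : ((min (x.2.getD 51 0) (x.1.headD 0) : ℕ) : ℝ) ≤ (x.2.getD 51 0 : ℕ) := by
        exact_mod_cast min_le_left _ _
      exact div_le_div_of_nonneg_right this (by norm_num)
    · have := Tab2_OkL_drop 52 x.2 14 hL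
      norm_num at this ⊢
      exact this
    · have := Tab2_OkU_drop 1 x.1 14 hU
      norm_num at this ⊢
      exact this
  · have e : (14 : ℝ) - 1 / 50 = ((699 : ℕ) : ℝ) / 50 := by norm_num
    rw [e]
    refine Tab2_goL_ok _ _ _ _ _ ?_ ?_ ?_ ?_
    · simp [hl2]
    · refine Tab2_StL.init hL0 (le_max_right _ _) ?_
      refine hU51.mono le_rfl ?_
      have : ((x.1.getD 51 0 : ℕ) : ℝ) ≤ ((max (x.1.getD 51 0) (x.2.headD 0) : ℕ) : ℝ) := by
        exact_mod_cast le_max_left _ _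
      exact div_le_div_of_nonneg_right this (by norm_num)
    · have := Tab2_OkU_drop 52 x.1 14 hU
      norm_num at this ⊢
      exact this
    · have := Tab2_OkL_drop 1 x.2 14 hL
      norm_num at this ⊢
      exact this

private theorem Tab2_iter_ok : ∀ (k : ℕ) (x : List ℕ × List ℕ), Tab2_Ok x → Tab2_Ok (Tab2_iter k x) := by
  intro k
  induction k with
  | zero => intro x h; exact h
  | succ k ih => intro x h; exact ih _ (Tab2_it_ok h)

/-- initial upper values at `(T-1)/10, ..., ` -/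
private def Tab2_iU : ℕ → List ℕ
  | 0 => []
  | n + 1 => (10001 * 100015 * 700 * 1000 + 10000 * (n + 50) - 1) / (10000 * (n + 50)) :: Tab2_iU n

private def Tab2_iL : ℕ → List ℕ
  | 0 => []
  | n + 1 => 0 :: Tab2_iL n

private def Tab2_init : List ℕ × List ℕ := (100015000 :: Tab2_iU 650, 99985000 :: Tab2_iL 650)

private theorem Tab2_iU_ok : ∀ n : ℕ, n ≤ 650 → Tab2_OkU (((n : ℝ) + 49) / 50) (Tab2_iU n) := by
  intro n
  induction n with
  | zero => intro _; simp [Tab2_iU, Tab2_OkU]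
  | succ n ih =>
    intro hn
    have e : (((n + 1 : ℕ) : ℝ) + 49) / 50 - 1 / 50 = ((n : ℝ) + 49) / 50 := by push_cast; ring
    refine ⟨?_, ?_⟩
    · have hnr : (n : ℝ) ≤ 649 := by exact_mod_cast (show n ≤ 649 by omega)
      have hpos : (0 : ℝ) < (((n + 1 : ℕ) : ℝ) + 49) / 50 := by positivity
      have h := U2_ext hpos (by push_cast; linarith) (by norm_num) (U2_of_U1 U1_base)
      refine h.mono le_rfl ?_
      have h1 : 10001 * 100015 * 700 * 1000 ≤
          (10001 * 100015 * 700 * 1000 + 10000 * (n + 50) - 1) / (10000 * (n + 50)) * (10000 * (n + 50)) := by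
        have h := Nat.div_add_mod (10001 * 100015 * 700 * 1000 + 10000 * (n + 50) - 1) (10000 * (n + 50))
        have h2 := Nat.mod_lt (10001 * 100015 * 700 * 1000 + 10000 * (n + 50) - 1) (show 0 < 10000 * (n + 50) by omega)
        have h3 : 10000 * (n + 50) * ((10001 * 100015 * 700 * 1000 + 10000 * (n + 50) - 1) / (10000 * (n + 50))) =
          (10001 * 100015 * 700 * 1000 + 10000 * (n + 50) - 1) / (10000 * (n + 50)) * (10000 * (n + 50)) := mul_comm _ _
        omega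
      have h2 : (10001 * 100015 * 700 * 1000 : ℝ) ≤
          (((10001 * 100015 * 700 * 1000 + 10000 * (n + 50) - 1) / (10000 * (n + 50)) : ℕ) : ℝ) * (10000 * (n + 50)) := by
        exact_mod_cast h1
      have hn10 : (0 : ℝ) < (n : ℝ) + 50 := by positivity
      have e2 : 1.0001 * 1.00015 * 14 / ((((n + 1 : ℕ) : ℝ) + 49) / 50) =
          (10001 * 100015 * 700 * 1000) / (10000 * ((n : ℝ) + 50)) / 10 ^ 8 := by
        have : (((n + 1 : ℕ) : ℝ) + 49) = (n : ℝ) + 50 := by push_cast; ring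
        rw [this]
        field_simp
        norm_num
      rw [e2]
      apply div_le_div_of_nonneg_right _ (by norm_num)
      rw [div_le_iff₀ (by positivity)]
      exact h2
    · rw [e]
      exact ih (by omega)

private theorem Tab2_iL_ok : ∀ (n : ℕ) (s : ℝ), Tab2_OkL s (Tab2_iL n) := by
  intro n
  induction n with
  | zero => intro s; simp [Tab2_iL, Tab2_OkL]
  | succ n ih => intro s; exact ⟨by simpa using L2_zero s, ih _⟩

private theorem Tab2_init_ok : Tab2_Ok Tab2_init := by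
  refine ⟨by decide +kernel, by decide +kernel, ⟨?_, ?_⟩, ⟨?_, Tab2_iL_ok _ _⟩⟩
  · have := U2_of_U1 U1_base
    norm_num at this ⊢
    exact this
  · have := Tab2_iU_ok 650 le_rfl
    norm_num at this ⊢
    exact this
  · have := L2_of_L1 L1_base
    norm_num at this ⊢
    exact this

private def Tab2_chk (x : List ℕ × List ℕ) : Bool :=
  decide (99780000 ≤ x.2.getD 424 0) && (decide (x.1.getD 424 0 ≤ 100250000) &&
    (List.range 17).all (fun k => decide (x.1.getD (482 + 8 * k) 0 ≤ FT k * 1000)))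

private theorem Tab2_comp : Tab2_chk (Tab2_iter 20 Tab2_init) = true := by
  decide +kernel

private theorem Tab2_comp' : 99780000 ≤ (Tab2_iter 20 Tab2_init).2.getD 424 0 ∧
    (Tab2_iter 20 Tab2_init).1.getD 424 0 ≤ 100250000 ∧
    ∀ k < 17, (Tab2_iter 20 Tab2_init).1.getD (482 + 8 * k) 0 ≤ FT k * 1000 := by
  have h := Tab2_comp
  unfold Tab2_chk at h
  rw [Bool.and_eq_true, Bool.and_eq_true, decide_eq_true_iff, decide_eq_true_iff, List.all_eq_true] at h
  refine ⟨h.1, h.2.1, fun k hk => ?_⟩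
  have := h.2.2 k (List.mem_range.2 hk)
  exact of_decide_eq_true this

private theorem Tab2_finL (i v : ℕ) (h : v ≤ (Tab2_iter 20 Tab2_init).2.getD i 0) :
    L2 (14 - i / 50) ((v : ℝ) / 10 ^ 8) := by
  have h1 := Tab2_OkL_get _ 14 (Tab2_iter_ok 20 _ Tab2_init_ok).2.2.2 i
  refine h1.mono le_rfl ?_
  have : (v : ℝ) ≤ (((Tab2_iter 20 Tab2_init).2.getD i 0 : ℕ) : ℝ) := by exact_mod_cast h
  exact div_le_div_of_nonneg_right this (by norm_num)

private theorem Tab2_finU (i v : ℕ) (hi : i < 651) (h : (Tab2_iter 20 Tab2_init).1.getD i 0 ≤ v) :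
    U2 (14 - i / 50) ((v : ℝ) / 10 ^ 8) := by
  have h0 := Tab2_iter_ok 20 _ Tab2_init_ok
  have h1 := Tab2_OkU_get _ 14 h0.2.2.1 i (by rw [h0.1]; exact hi)
  refine h1.mono le_rfl ?_
  have : (((Tab2_iter 20 Tab2_init).1.getD i 0 : ℕ) : ℝ) ≤ (v : ℝ) := by exact_mod_cast h
  exact div_le_div_of_nonneg_right this (by norm_num)

theorem tab_L : L2 5.52 0.9978 := by
  have := Tab2_finL 424 99780000 Tab2_comp'.1
  norm_num at this ⊢
  exact this

theorem tab_UA : U2 5.52 1.0025 := by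
  have := Tab2_finU 424 100250000 (by norm_num) Tab2_comp'.2.1
  norm_num at this ⊢
  exact this

theorem tab_U (k : ℕ) (hk : k < 17) : U2 (4.36 - 0.16 * k) ((FT k : ℝ) / 10 ^ 5) := by
  have h := Tab2_finU (482 + 8 * k) (FT k * 1000) (by omega) (Tab2_comp'.2.2 k hk)
  have e1 : (14 : ℝ) - ((482 + 8 * k : ℕ) : ℝ) / 50 = 4.36 - 0.16 * k := by
    push_cast
    norm_num
    ring
  have e2 : (((FT k * 1000 : ℕ) : ℝ)) / 10 ^ 8 = (FT k : ℝ) / 10 ^ 5 := by
    push_cast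
    ring
  rw [e1, e2] at h
  exact h

end Pool.Agent.H36.IS2

end

section

/-!
# ISP NumD: the main constant

log(v'/v) ≤ (v' - v)(1/v + 1/v')/2 for v' ≥ v > 0 (convexity of 1/t; or: 2 log u ≤ u - 1/u for u ≥ 1).  With v_k = 1 + 0.16 k the sum
∑_{k<17} (0.16) (1/v_k + 1/v_{k+1})/2 · FT k/10^5 = 1.60347.., half of it 0.80173: 0.9978 - 0.80173.. = 0.19607.
Rational arithmetic (norm_num [FT, Finset.sum_range_succ], or integers with decide +kernel).
-/

set_option autoImplicit false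

namespace Pool.Agent.H36.IS2

open Finset Filter Pool.Agent.H36.IS

private theorem NumD_log (u : ℝ) (hu : 1 ≤ u) : Real.log u ≤ (u - u⁻¹) / 2 := by
  have h0 : 0 < u := by linarith
  have h := Real.self_le_sinh_iff.2 (Real.log_nonneg hu)
  rw [Real.sinh_eq, Real.exp_neg, Real.exp_log h0] at h
  exact h

private theorem NumD_term (k : ℕ) : Real.log ((1 + 0.16 * ((k : ℝ) + 1)) / (1 + 0.16 * (k : ℝ))) ≤
    0.08 * (1 / (1 + 0.16 * (k : ℝ)) + 1 / (1 + 0.16 * ((k : ℝ) + 1))) := by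
  have hk : (0 : ℝ) ≤ k := Nat.cast_nonneg k
  have h1 : (0 : ℝ) < 1 + 0.16 * (k : ℝ) := by positivity
  have h2 : (0 : ℝ) < 1 + 0.16 * ((k : ℝ) + 1) := by positivity
  have h3 : 1 ≤ (1 + 0.16 * ((k : ℝ) + 1)) / (1 + 0.16 * (k : ℝ)) := by
    rw [le_div_iff₀ h1]
    linarith
  refine (NumD_log _ h3).trans (le_of_eq ?_)
  rw [inv_div]
  field_simp
  ring

theorem numD : (0.19605 : ℝ) ≤ 0.9978 - 1 / 2 * ∑ k ∈ range 17,
    Real.log ((1 + 0.16 * ((k : ℝ) + 1)) / (1 + 0.16 * (k : ℝ))) * ((FT k : ℝ) / 10 ^ 5) := by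
  have h1 : ∑ k ∈ range 17, Real.log ((1 + 0.16 * ((k : ℝ) + 1)) / (1 + 0.16 * (k : ℝ))) * ((FT k : ℝ) / 10 ^ 5) ≤
      ∑ k ∈ range 17, 0.08 * (1 / (1 + 0.16 * (k : ℝ)) + 1 / (1 + 0.16 * ((k : ℝ) + 1))) * ((FT k : ℝ) / 10 ^ 5) :=
    Finset.sum_le_sum fun k _ => mul_le_mul_of_nonneg_right (NumD_term k) (by positivity)
  have h2 : ∑ k ∈ range 17, 0.08 * (1 / (1 + 0.16 * (k : ℝ)) + 1 / (1 + 0.16 * ((k : ℝ) + 1))) * ((FT k : ℝ) / 10 ^ 5) ≤
      2 * (0.9978 - 0.19605) := by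
    norm_num [FT, Finset.sum_range_succ]
  linarith

end Pool.Agent.H36.IS2

end

section

/-!
# ISP ArrE: the arrays cA, cB

ζ = 0.09, η = 0.3348 = ζ · 3.72, v_k = 1 + 0.16 k (k = 0..17, v_0 = 1, v_17 = 3.72), P' = PZ x ζ \ PZ x δ, Qs = PZ x η \ PZ x ζ.
cL from `wzL` (s = 5.52, f = 0.9978, `tab_L`), cA = cU from `wzU` (s = 5.52, F = 1.0025, `tab_UA`), c_k from `wzU` (s = 4.36 - 0.16 k = 5.52 - v_{k+1}, `tab_U`).
For q ∈ Qs let k(q) be the k with x^(ζ v_k) < q ≤ x^(ζ v_(k+1)); cq q = c_{k(q)}; level of q · c_{k(q)}: x^(ζ v_{k+1} + ζ (5.52 - v_{k+1})) = x^(0.4968).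
cB = cA - cL + (1/2) qarr Qs cq.  |cA| ≤ 1, |cB| ≤ 2.5.
Values (`qarr_ev`): evD cA m - evD cB m = evD cL m - (1/2) ∑_{q ∈ Qs, q ∣ m} evD (cq q) m ≤ [no p ∈ P' divides m] (1 - (1/2) #{q ∈ Qs, q ∣ m})
 (evD (cq q) m ≥ [rough] ≥ 0).  evD cA ≥ [rough] ≥ evD cL, so evD cB ≥ 0, evD cA ≥ 0.
Main values: evM cA ≤ (1.0025 + ε) V2; evM cA - evM cB = evM cL - (1/2) ∑_{q ∈ Qs} (1/q) evM (cq q)
 ≥ V2 [0.9978 - ε - (1/2) ∑_k (FT k/10^5 + ε)(log(v_{k+1}/v_k) + ε)] ≥ 0.196 V2   (1/q ≤ fn q, `mert_cell` on the cells, `numD`).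
evM cB = evM cA - (evM cA - evM cB) ; 0 ≤ evM cB: from the pointwise nonnegativity, or: evM cA ≥ evM cL and evM (cq q) ≥ 0. For the upper weights
 evM cA ≥ V2 ≥ evM cL would follow by multilinearity; simpler: use the extra clause of this statement only through the sum
 evM cA + evM cB ≤ 3 V2: evM cB ≤ evM cA - 0.196 V2 needs only the above.  For 0 ≤ evM cB use multilinearity (`Wts_nonneg_aux` in
 Pool/Agent/H36/IS/Wts.lean, copy: if ev c P y ≥ 0 for all 0/1 vectors y then ev c P g ≥ 0 for g in [0,1]); note that evD (PX x) c m ≥ 0 for all m gives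
 ev c (PX x) y ≥ 0 for all 0/1 vectors y (take m = the product of the p ∈ PX x with y p = 1).
-/

set_option autoImplicit false

namespace Pool.Agent.H36.IS2

open Finset Filter Pool.Agent.H36.IS

open Pool.Agent.H91.PK (ev ZO)

/-! ### multilinearity -/

private theorem ArrE_affine (c : Finset ℕ → ℝ) (P : Finset ℕ) (g : ℕ → ℝ) (a : ℕ) :
    ev c P g = g a * ev c P (Function.update g a 1) +
      (1 - g a) * ev c P (Function.update g a 0) := by
  unfold ev
  rw [Finset.mul_sum, Finset.mul_sum, ← Finset.sum_add_distrib]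
  refine Finset.sum_congr rfl fun T _ => ?_
  by_cases h : a ∈ T
  · have h1 : ∀ v : ℝ, ∏ p ∈ T, Function.update g a v p = v * ∏ p ∈ T.erase a, g p := by
      intro v
      rw [← Finset.mul_prod_erase T _ h, Function.update_self]
      congr 1
      exact Finset.prod_congr rfl fun p hp => Function.update_of_ne (Finset.ne_of_mem_erase hp) _ _
    rw [h1, h1, ← Finset.mul_prod_erase T g h]
    ring
  · have h1 : ∀ v : ℝ, ∏ p ∈ T, Function.update g a v p = ∏ p ∈ T, g p := by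
      intro v
      refine Finset.prod_congr rfl fun p hp => Function.update_of_ne ?_ _ _
      rintro rfl
      exact h hp
    rw [h1, h1]
    ring

private theorem ArrE_nonneg_aux (c : Finset ℕ → ℝ) (P : Finset ℕ) (h : ∀ y, ZO y → 0 ≤ ev c P y)
    (A : Finset ℕ) : ∀ g : ℕ → ℝ, (∀ p ∈ A, 0 ≤ g p ∧ g p ≤ 1) →
      (∀ p, p ∉ A → g p = 0 ∨ g p = 1) → 0 ≤ ev c P g := by
  induction A using Finset.induction_on with
  | empty =>
    intro g _ hg
    exact h g (fun p => hg p (Finset.notMem_empty p))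
  | insert a A ha ih =>
    intro g hg1 hg2
    rw [ArrE_affine c P g a]
    have h1 := hg1 a (mem_insert_self a A)
    have h2 : ∀ v : ℝ, v = 0 ∨ v = 1 → 0 ≤ ev c P (Function.update g a v) := by
      intro v hv
      apply ih
      · intro p hp
        have hne : p ≠ a := by
          rintro rfl
          exact ha hp
        rw [Function.update_of_ne hne]
        exact hg1 p (mem_insert_of_mem hp)
      · intro p hp
        by_cases e : p = a
        · subst e
          rw [Function.update_self]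
          exact hv
        · rw [Function.update_of_ne e]
          apply hg2
          rw [mem_insert, not_or]
          exact ⟨e, hp⟩
    have h3 := mul_nonneg h1.1 (h2 1 (Or.inr rfl))
    have h4 := mul_nonneg (by linarith : 0 ≤ 1 - g a) (h2 0 (Or.inl rfl))
    linarith

private theorem ArrE_ev_congr (c : Finset ℕ → ℝ) (P : Finset ℕ) {g g' : ℕ → ℝ}
    (h : ∀ p ∈ P, g p = g' p) : ev c P g = ev c P g' := by
  unfold ev
  refine Finset.sum_congr rfl fun T hT => ?_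
  congr 1
  exact Finset.prod_congr rfl fun p hp => h p (mem_powerset.mp hT hp)

private theorem ArrE_nonneg (c : Finset ℕ → ℝ) (P : Finset ℕ) (h : ∀ y, ZO y → 0 ≤ ev c P y)
    (g : ℕ → ℝ) (hg : ∀ p ∈ P, 0 ≤ g p ∧ g p ≤ 1) : 0 ≤ ev c P g := by
  classical
  rw [ArrE_ev_congr c P (g' := fun p => if p ∈ P then g p else 0)
    (fun p hp => by simp only [hp, if_true])]
  apply ArrE_nonneg_aux c P h P
  · intro p hp
    simp only [hp, if_true]
    exact hg p hp
  · intro p hp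
    left
    simp only [hp, if_false]

private theorem ArrE_PX {x p : ℕ} (hp : p ∈ PX x) : p.Prime := by
  unfold PX at hp
  exact (mem_filter.1 hp).2.1

private theorem ArrE_evM_nonneg (x : ℕ) (c : Finset ℕ → ℝ) (h : ∀ m, 0 ≤ evD (PX x) c m) :
    0 ≤ evM (PX x) c := by
  classical
  unfold evM
  refine ArrE_nonneg c (PX x) (fun y hy => ?_) _ fun p hp => ?_
  · have h1 := h (∏ p ∈ (PX x).filter (fun p => y p = 1), p)
    unfold evD at h1
    rw [ArrE_ev_congr c (PX x) (g := y)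
      (g' := fun p => if p ∣ ∏ p ∈ (PX x).filter (fun p => y p = 1), p then 1 else 0)]
    · exact h1
    · intro p hp
      rcases hy p with h0 | h0
      · rw [h0, if_neg]
        intro hd
        obtain ⟨q, hq, hpq⟩ := (ArrE_PX hp).prime.exists_mem_finset_dvd hd
        rw [mem_filter] at hq
        have : p = q := (Nat.prime_dvd_prime_iff_eq (ArrE_PX hp) (ArrE_PX hq.1)).1 hpq
        rw [← this, h0] at hq
        exact zero_ne_one hq.2
      · rw [h0, if_pos]
        exact Finset.dvd_prod_of_mem _ (mem_filter.2 ⟨hp, h0⟩)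
  · have h2 : (2 : ℝ) ≤ p := by exact_mod_cast (ArrE_PX hp).two_le
    refine ⟨by positivity, ?_⟩
    rw [div_le_one (by linarith)]
    linarith

/-! ### the cells -/

private theorem ArrE_mem {x p : ℕ} {a b : ℝ} : p ∈ PZ x b \ PZ x a ↔
    p ∈ PX x ∧ (p : ℝ) ≤ (x : ℝ) ^ b ∧ (x : ℝ) ^ a < p := by
  unfold PZ
  rw [Finset.mem_sdiff, Finset.mem_filter, Finset.mem_filter]
  constructor
  · rintro ⟨⟨h1, h2⟩, h3⟩
    exact ⟨h1, h2, lt_of_not_ge fun h => h3 ⟨h1, h⟩⟩
  · rintro ⟨h1, h2, h3⟩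
    exact ⟨⟨h1, h2⟩, fun h => absurd h.2 (not_le.2 h3)⟩

private theorem ArrE_cell (x : ℕ) : ∃ kq : ℕ → ℕ, ∀ q ∈ PZ x 0.3348 \ PZ x 0.09,
    kq q < 17 ∧ (x : ℝ) ^ ((0.09 : ℝ) * (1 + 0.16 * (kq q : ℝ))) < q ∧
      (q : ℝ) ≤ (x : ℝ) ^ ((0.09 : ℝ) * (1 + 0.16 * ((kq q : ℝ) + 1))) := by
  classical
  have key : ∀ q : ℕ, ∃ k : ℕ, q ∈ PZ x 0.3348 \ PZ x 0.09 →
      k < 17 ∧ (x : ℝ) ^ ((0.09 : ℝ) * (1 + 0.16 * (k : ℝ))) < q ∧
      (q : ℝ) ≤ (x : ℝ) ^ ((0.09 : ℝ) * (1 + 0.16 * ((k : ℝ) + 1))) := by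
    intro q
    by_cases hq : q ∈ PZ x 0.3348 \ PZ x 0.09
    · obtain ⟨-, h1, h2⟩ := ArrE_mem.1 hq
      have h16 : (q : ℝ) ≤ (x : ℝ) ^ ((0.09 : ℝ) * (1 + 0.16 * (((16 : ℕ) : ℝ) + 1))) := by
        have e : (0.09 : ℝ) * (1 + 0.16 * (((16 : ℕ) : ℝ) + 1)) = 0.3348 := by norm_num
        rw [e]
        exact h1
      have hex : ∃ k : ℕ, (q : ℝ) ≤ (x : ℝ) ^ ((0.09 : ℝ) * (1 + 0.16 * ((k : ℝ) + 1))) :=
        ⟨16, h16⟩
      refine ⟨Nat.find hex, fun _ => ⟨?_, ?_, Nat.find_spec hex⟩⟩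
      · have := Nat.find_min' hex h16
        omega
      · rcases Nat.eq_zero_or_pos (Nat.find hex) with h0 | h0
        · rw [h0]
          have e : (0.09 : ℝ) * (1 + 0.16 * ((0 : ℕ) : ℝ)) = 0.09 := by norm_num
          rw [e]
          exact h2
        · have h3 := Nat.find_min hex (m := Nat.find hex - 1) (by omega)
          have e : ((Nat.find hex - 1 : ℕ) : ℝ) + 1 = (Nat.find hex : ℝ) := by
            rw [Nat.cast_sub (by omega)]
            push_cast
            ring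
          rw [e] at h3
          exact lt_of_not_ge h3
    · exact ⟨0, fun h => absurd h hq⟩
  choose kq hkq using key
  exact ⟨kq, hkq⟩

private theorem ArrE_sum (x : ℕ) (kq : ℕ → ℕ) (hkq : ∀ q ∈ PZ x 0.3348 \ PZ x 0.09,
    kq q < 17 ∧ (x : ℝ) ^ ((0.09 : ℝ) * (1 + 0.16 * (kq q : ℝ))) < q ∧
      (q : ℝ) ≤ (x : ℝ) ^ ((0.09 : ℝ) * (1 + 0.16 * ((kq q : ℝ) + 1)))) (w : ℕ → ℝ) (hw : ∀ k, 0 ≤ w k) :
    ∑ q ∈ PZ x 0.3348 \ PZ x 0.09, 1 / (q : ℝ) * w (kq q) ≤ ∑ k ∈ range 17, w k *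
      ∑ p ∈ (PX x).filter (fun p : ℕ => (x : ℝ) ^ ((0.09 : ℝ) * (1 + 0.16 * (k : ℝ))) < p ∧
        (p : ℝ) ≤ (x : ℝ) ^ ((0.09 : ℝ) * (1 + 0.16 * ((k : ℝ) + 1)))), fn p := by
  classical
  rw [← Finset.sum_fiberwise_of_maps_to (t := range 17) (g := kq)
    (fun q hq => mem_range.2 (hkq q hq).1)]
  refine Finset.sum_le_sum fun k _ => ?_
  rw [Finset.mul_sum]
  refine le_trans (Finset.sum_le_sum (g := fun q => w k * fn q) fun q hq => ?_)
    (Finset.sum_le_sum_of_subset_of_nonneg ?_ fun q hq _ => ?_)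
  · obtain ⟨hq1, hq2⟩ := mem_filter.1 hq
    have h2 : (2 : ℝ) ≤ q := by exact_mod_cast (ArrE_PX (ArrE_mem.1 hq1).1).two_le
    rw [hq2, mul_comm]
    refine mul_le_mul_of_nonneg_left ?_ (hw k)
    unfold fn
    exact one_div_le_one_div_of_le (by linarith) (by linarith)
  · intro q hq
    obtain ⟨hq1, hq2⟩ := mem_filter.1 hq
    have h1 := hkq q hq1
    rw [hq2] at h1
    exact mem_filter.2 ⟨(ArrE_mem.1 hq1).1, h1.2⟩
  · have h2 : (2 : ℝ) ≤ q := by exact_mod_cast (ArrE_PX (mem_filter.1 hq).1).two_le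
    refine mul_nonneg (hw k) ?_
    unfold fn
    exact div_nonneg zero_le_one (by linarith)

/-! ### the constant -/

private theorem ArrE_FT (k : ℕ) (hk : k ∈ range 17) : (FT k : ℝ) / 10 ^ 5 ≤ 2.03 := by
  have h1 : FT k ≤ 203000 := by
    rw [mem_range] at hk
    interval_cases k <;> simp [FT]
  have h2 : (FT k : ℝ) ≤ 203000 := by exact_mod_cast h1
  rw [div_le_iff₀ (by norm_num)]
  linarith

private theorem ArrE_log (k : ℕ) : 0 ≤ Real.log ((1 + 0.16 * ((k : ℝ) + 1)) / (1 + 0.16 * (k : ℝ))) ∧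
    Real.log ((1 + 0.16 * ((k : ℝ) + 1)) / (1 + 0.16 * (k : ℝ))) ≤ 0.16 := by
  have hk : (0 : ℝ) ≤ k := Nat.cast_nonneg k
  have h1 : (0 : ℝ) < 1 + 0.16 * (k : ℝ) := by positivity
  constructor
  · refine Real.log_nonneg ?_
    rw [one_le_div h1]
    linarith
  · have h2 := Real.log_le_sub_one_of_pos
      (x := (1 + 0.16 * ((k : ℝ) + 1)) / (1 + 0.16 * (k : ℝ))) (by positivity)
    have h3 : (1 + 0.16 * ((k : ℝ) + 1)) / (1 + 0.16 * (k : ℝ)) ≤ 1.16 := by
      rw [div_le_iff₀ h1]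
      nlinarith
    linarith

private theorem ArrE_const (ε : ℝ) (hε : 0 < ε) (hε1 : ε ≤ 1 / 10 ^ 6) :
    0.196 ≤ (0.9978 - ε) - 1 / 2 * ∑ k ∈ range 17, ((FT k : ℝ) / 10 ^ 5 + ε) *
      (Real.log ((1 + 0.16 * ((k : ℝ) + 1)) / (1 + 0.16 * (k : ℝ))) + ε) := by
  have h1 := numD
  have h2 : ∑ k ∈ range 17, ((FT k : ℝ) / 10 ^ 5 + ε) *
      (Real.log ((1 + 0.16 * ((k : ℝ) + 1)) / (1 + 0.16 * (k : ℝ))) + ε) ≤
      ∑ k ∈ range 17, (Real.log ((1 + 0.16 * ((k : ℝ) + 1)) / (1 + 0.16 * (k : ℝ))) *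
        ((FT k : ℝ) / 10 ^ 5) + 3 * ε) := by
    refine Finset.sum_le_sum fun k hk => ?_
    have h3 := ArrE_FT k hk
    obtain ⟨h4, h5⟩ := ArrE_log k
    set L : ℝ := Real.log ((1 + 0.16 * ((k : ℝ) + 1)) / (1 + 0.16 * (k : ℝ)))
    set F : ℝ := (FT k : ℝ) / 10 ^ 5
    have e : (F + ε) * (L + ε) = L * F + ε * (L + F + ε) := by ring
    rw [e]
    have h6 : L + F + ε ≤ 3 := by
      have : (1 : ℝ) / 10 ^ 6 ≤ 0.1 := by norm_num
      linarith
    have h7 := mul_le_mul_of_nonneg_left h6 hε.le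
    linarith
  rw [Finset.sum_add_distrib, Finset.sum_const, card_range, nsmul_eq_mul] at h2
  push_cast at h2
  have h8 : (52 / 2 : ℝ) * ε + ε ≤ 0.00005 := by
    have : (1 : ℝ) / 10 ^ 6 * 27 ≤ 0.00005 := by norm_num
    linarith
  linarith

/-! ### the arrays -/

/-- the array `cB` -/
private noncomputable def ArrE_cB (Qs : Finset ℕ) (cU cL : Finset ℕ → ℝ) (cq : ℕ → Finset ℕ → ℝ) :
    Finset ℕ → ℝ := fun T => cU T - cL T + 1 / 2 * qarr Qs cq T

private theorem ArrE_ev_cB (P Qs : Finset ℕ) (cU cL : Finset ℕ → ℝ) (cq : ℕ → Finset ℕ → ℝ)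
    (y : ℕ → ℝ) : ev (ArrE_cB Qs cU cL cq) P y =
      ev cU P y - ev cL P y + 1 / 2 * ev (qarr Qs cq) P y := by
  unfold ev ArrE_cB
  rw [Finset.mul_sum, ← Finset.sum_sub_distrib, ← Finset.sum_add_distrib]
  exact Finset.sum_congr rfl fun T _ => by ring

/-- the support condition -/
private def ArrE_S (x : ℕ) (δ : ℝ) (T : Finset ℕ) : Prop :=
  T ⊆ PX x ∧ (∀ p ∈ T, (x : ℝ) ^ δ < p) ∧ ∏ p ∈ T, (p : ℝ) ≤ (x : ℝ) ^ (0.4968 : ℝ)

private theorem ArrE_sup {x : ℕ} {δ s : ℝ} {c : Finset ℕ → ℝ} (hs : (0.09 : ℝ) * s = 0.4968)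
    (hc : ∀ T, c T ≠ 0 → T ⊆ PZ x 0.09 \ PZ x δ ∧ ∏ p ∈ T, (p : ℝ) ≤ (x : ℝ) ^ ((0.09 : ℝ) * s))
    (T : Finset ℕ) (hT : c T ≠ 0) : ArrE_S x δ T := by
  obtain ⟨h1, h2⟩ := hc T hT
  rw [hs] at h2
  exact ⟨fun p hp => (ArrE_mem.1 (h1 hp)).1, fun p hp => (ArrE_mem.1 (h1 hp)).2.2, h2⟩

theorem arr_exists (δ : ℝ) (hδ : 0 < δ) (hδ1 : δ < 0.09) : ∀ᶠ x : ℕ in atTop, ∃ cA cB : Finset ℕ → ℝ,
    ArrN x δ ((x : ℝ) ^ (0.4968 : ℝ)) cA ∧ ArrN x δ ((x : ℝ) ^ (0.4968 : ℝ)) cB ∧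
    (∀ m, evD (PX x) cA m - evD (PX x) cB m ≤
      if ∀ p ∈ PZ x 0.09 \ PZ x δ, ¬ p ∣ m then 1 - 1 / 2 * (((PZ x 0.3348 \ PZ x 0.09).filter (fun q => q ∣ m)).card : ℝ) else 0) ∧
    evM (PX x) cA + evM (PX x) cB ≤ 3 * V2 x δ 0.09 ∧
    0.196 * V2 x δ 0.09 ≤ evM (PX x) cA - evM (PX x) cB := by
  classical
  set ε : ℝ := 1 / 10 ^ 6 with hεd
  have hε : 0 < ε := by rw [hεd]; norm_num
  have hζ : (0.09 : ℝ) ≤ 1 := by norm_num
  obtain ⟨cv, hcv, hV⟩ := V2_pos δ 0.09 hδ hδ1.le hζ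
  have hL := wzL δ 0.09 5.52 0.9978 ε hδ hδ1.le hζ (by norm_num) (by norm_num) tab_L hε
  have hU := wzU δ 0.09 5.52 1.0025 ε hδ hδ1.le hζ (by norm_num) (by norm_num) tab_UA hε
  have hUk : ∀ᶠ x : ℕ in atTop, ∀ k ∈ range 17, ∃ c : Finset ℕ → ℝ, (∀ T, |c T| ≤ 1) ∧
      (∀ T, c T ≠ 0 → T ⊆ PZ x 0.09 \ PZ x δ ∧
        ∏ p ∈ T, (p : ℝ) ≤ (x : ℝ) ^ ((0.09 : ℝ) * (4.36 - 0.16 * (k : ℝ)))) ∧
      (∀ m, (if ∀ p ∈ PZ x 0.09 \ PZ x δ, ¬ p ∣ m then 1 else 0) ≤ evD (PX x) c m) ∧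
      evM (PX x) c ≤ ((FT k : ℝ) / 10 ^ 5 + ε) * V2 x δ 0.09 ∧ 0 ≤ evM (PX x) c := by
    rw [Filter.eventually_all_finset]
    intro k hk
    rw [mem_range] at hk
    refine wzU δ 0.09 (4.36 - 0.16 * (k : ℝ)) ((FT k : ℝ) / 10 ^ 5) ε hδ hδ1.le hζ ?_ (by positivity)
      (tab_U k hk) hε
    have : (k : ℝ) ≤ 16 := by
      have : k ≤ 16 := by omega
      exact_mod_cast this
    linarith
  have hcell : ∀ᶠ x : ℕ in atTop, ∀ k ∈ range 17,
      ∑ p ∈ (PX x).filter (fun p : ℕ => (x : ℝ) ^ ((0.09 : ℝ) * (1 + 0.16 * (k : ℝ))) < p ∧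
        (p : ℝ) ≤ (x : ℝ) ^ ((0.09 : ℝ) * (1 + 0.16 * ((k : ℝ) + 1)))), fn p ≤
        Real.log ((1 + 0.16 * ((k : ℝ) + 1)) / (1 + 0.16 * (k : ℝ))) + ε := by
    rw [Filter.eventually_all_finset]
    intro k hk
    rw [mem_range] at hk
    have hk0 : (0 : ℝ) ≤ k := Nat.cast_nonneg k
    have hk16 : (k : ℝ) ≤ 16 := by
      have : k ≤ 16 := by omega
      exact_mod_cast this
    have h1 := mert_cell ((0.09 : ℝ) * (1 + 0.16 * (k : ℝ))) ((0.09 : ℝ) * (1 + 0.16 * ((k : ℝ) + 1))) ε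
      (by positivity) (by linarith) (by linarith) hε
    filter_upwards [h1] with x hx
    rwa [mul_div_mul_left _ _ (by norm_num : (0.09 : ℝ) ≠ 0)] at hx
  filter_upwards [hV, hL, hU, hUk, hcell, eventually_ge_atTop 1] with x h1 h2 h3 h4 h5 h6
  obtain ⟨hV1, -, -⟩ := h1
  have hV0 : 0 < V2 x δ 0.09 := lt_of_lt_of_le hcv hV1
  obtain ⟨cL, hL1, hL2, hL3, hL4⟩ := h2
  obtain ⟨cU, hU1, hU2, hU3, hU4, hU5⟩ := h3
  have hx1 : (1 : ℝ) ≤ x := by exact_mod_cast h6
  -- the arrays of the cells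
  have hck : ∀ k : ℕ, ∃ c : Finset ℕ → ℝ, k < 17 → (∀ T, |c T| ≤ 1) ∧
      (∀ T, c T ≠ 0 → T ⊆ PZ x 0.09 \ PZ x δ ∧
        ∏ p ∈ T, (p : ℝ) ≤ (x : ℝ) ^ ((0.09 : ℝ) * (4.36 - 0.16 * (k : ℝ)))) ∧
      (∀ m, (if ∀ p ∈ PZ x 0.09 \ PZ x δ, ¬ p ∣ m then 1 else 0) ≤ evD (PX x) c m) ∧
      evM (PX x) c ≤ ((FT k : ℝ) / 10 ^ 5 + ε) * V2 x δ 0.09 ∧ 0 ≤ evM (PX x) c := by
    intro k
    by_cases hk : k < 17
    · obtain ⟨c, hc⟩ := h4 k (mem_range.2 hk)
      exact ⟨c, fun _ => hc⟩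
    · exact ⟨0, fun h => absurd h hk⟩
  choose ck hck' using hck
  obtain ⟨kq, hkq⟩ := ArrE_cell x
  set Qs : Finset ℕ := PZ x 0.3348 \ PZ x 0.09 with hQs
  set P' : Finset ℕ := PZ x 0.09 \ PZ x δ with hP'
  set cq : ℕ → Finset ℕ → ℝ := fun q => ck (kq q) with hcq
  have hQX : Qs ⊆ PX x := fun q hq => (ArrE_mem.1 hq).1
  have hPX : P' ⊆ PX x := fun q hq => (ArrE_mem.1 hq).1
  have hdisj : Disjoint Qs P' := by
    rw [Finset.disjoint_left]
    intro q hq hq'
    have h7 := (ArrE_mem.1 hq).2.2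
    have h8 := (ArrE_mem.1 hq').2.1
    linarith
  have hcqP : ∀ q ∈ Qs, ∀ T, cq q T ≠ 0 → T ⊆ P' := fun q hq T hT =>
    ((hck' (kq q) (hkq q hq).1).2.1 T hT).1
  have hcq1 : ∀ q ∈ Qs, ∀ T, |cq q T| ≤ 1 := fun q hq T => (hck' (kq q) (hkq q hq).1).1 T
  -- values
  have hcBD : ∀ m, evD (PX x) (ArrE_cB Qs cU cL cq) m = evD (PX x) cU m - evD (PX x) cL m +
      1 / 2 * ∑ q ∈ Qs, (if q ∣ m then 1 else 0) * evD (PX x) (cq q) m := by
    intro m
    unfold evD
    rw [ArrE_ev_cB, qarr_ev hQX hPX hdisj hcqP]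
  have hcBM : evM (PX x) (ArrE_cB Qs cU cL cq) = evM (PX x) cU - evM (PX x) cL +
      1 / 2 * ∑ q ∈ Qs, 1 / (q : ℝ) * evM (PX x) (cq q) := by
    unfold evM
    rw [ArrE_ev_cB, qarr_ev hQX hPX hdisj hcqP]
  have hind : ∀ m : ℕ, (0 : ℝ) ≤ if ∀ p ∈ P', ¬ p ∣ m then 1 else 0 := by
    intro m
    split_ifs
    · exact zero_le_one
    · exact le_rfl
  have hcqD : ∀ q ∈ Qs, ∀ m, (if ∀ p ∈ P', ¬ p ∣ m then 1 else 0) ≤ evD (PX x) (cq q) m :=
    fun q hq m => (hck' (kq q) (hkq q hq).1).2.2.1 m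
  have hsumD : ∀ m, 0 ≤ ∑ q ∈ Qs, (if q ∣ m then (1 : ℝ) else 0) * evD (PX x) (cq q) m := by
    intro m
    refine Finset.sum_nonneg fun q hq => mul_nonneg ?_ ((hind m).trans (hcqD q hq m))
    split_ifs
    · exact zero_le_one
    · exact le_rfl
  have hBD : ∀ m, 0 ≤ evD (PX x) (ArrE_cB Qs cU cL cq) m := by
    intro m
    rw [hcBD]
    have h7 := hU3 m
    have h8 := hL3 m
    have h9 := hsumD m
    linarith
  have hsumM : ∑ q ∈ Qs, 1 / (q : ℝ) * evM (PX x) (cq q) ≤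
      (∑ k ∈ range 17, ((FT k : ℝ) / 10 ^ 5 + ε) *
        (Real.log ((1 + 0.16 * ((k : ℝ) + 1)) / (1 + 0.16 * (k : ℝ))) + ε)) * V2 x δ 0.09 := by
    have hw : ∀ k : ℕ, 0 ≤ (FT k : ℝ) / 10 ^ 5 + ε := fun k => by positivity
    have h7 := ArrE_sum x kq hkq (fun k => (FT k : ℝ) / 10 ^ 5 + ε) hw
    have h8 : ∑ q ∈ Qs, 1 / (q : ℝ) * evM (PX x) (cq q) ≤
        (∑ q ∈ Qs, 1 / (q : ℝ) * ((FT (kq q) : ℝ) / 10 ^ 5 + ε)) * V2 x δ 0.09 := by
      rw [Finset.sum_mul]
      refine Finset.sum_le_sum fun q hq => ?_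
      rw [mul_assoc]
      exact mul_le_mul_of_nonneg_left (hck' (kq q) (hkq q hq).1).2.2.2.1 (by positivity)
    refine h8.trans (mul_le_mul_of_nonneg_right (h7.trans ?_) hV0.le)
    exact Finset.sum_le_sum fun k hk => mul_le_mul_of_nonneg_left (h5 k hk) (hw k)
  have hmain : 0.196 * V2 x δ 0.09 ≤ evM (PX x) cU - evM (PX x) (ArrE_cB Qs cU cL cq) := by
    rw [hcBM]
    have h7 := ArrE_const ε hε le_rfl
    have h8 := mul_le_mul_of_nonneg_right h7 hV0.le
    have h9 : (0.9978 - ε - 1 / 2 * ∑ k ∈ range 17, ((FT k : ℝ) / 10 ^ 5 + ε) *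
      (Real.log ((1 + 0.16 * ((k : ℝ) + 1)) / (1 + 0.16 * (k : ℝ))) + ε)) * V2 x δ 0.09 =
      (0.9978 - ε) * V2 x δ 0.09 - 1 / 2 * ((∑ k ∈ range 17, ((FT k : ℝ) / 10 ^ 5 + ε) *
        (Real.log ((1 + 0.16 * ((k : ℝ) + 1)) / (1 + 0.16 * (k : ℝ))) + ε)) * V2 x δ 0.09) := by
      ring
    rw [h9] at h8
    linarith
  refine ⟨cU, ArrE_cB Qs cU cL cq, ⟨fun T => ⟨?_, fun hT => ?_⟩, fun m => ?_, hU5⟩,
    ⟨fun T => ⟨?_, fun hT => ?_⟩, hBD, ArrE_evM_nonneg x _ hBD⟩, fun m => ?_, ?_, hmain⟩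
  · have := hU1 T
    linarith
  · exact ArrE_sup (by norm_num) hU2 T hT
  · exact (hind m).trans (hU3 m)
  · have e1 := abs_le.1 (hU1 T)
    have e2 := abs_le.1 (hL1 T)
    have e3 := abs_le.1 (qarr_bd hdisj hcqP hcq1 T)
    unfold ArrE_cB
    rw [abs_le]
    constructor
    · linarith [e1.1, e2.2, e3.1]
    · linarith [e1.2, e2.1, e3.2]
  · by_cases g1 : cU T = 0
    · by_cases g2 : cL T = 0
      · have g3 : qarr Qs cq T ≠ 0 := by
          intro g3
          apply hT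
          unfold ArrE_cB
          rw [g1, g2, g3]
          ring
        obtain ⟨q, hq, hqT, hne, -⟩ := qarr_sup hdisj hcqP T g3
        obtain ⟨hs1, hs2⟩ := (hck' (kq q) (hkq q hq).1).2.1 _ hne
        have hqm := ArrE_mem.1 hq
        have hmem : ∀ p ∈ T, p = q ∨ p ∈ P' := by
          intro p hp
          by_cases hpq : p = q
          · exact Or.inl hpq
          · exact Or.inr (hs1 (Finset.mem_erase.2 ⟨hpq, hp⟩))
        refine ⟨fun p hp => ?_, fun p hp => ?_, ?_⟩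
        · rcases hmem p hp with h | h
          · rw [h]
            exact hqm.1
          · exact hPX h
        · rcases hmem p hp with h | h
          · rw [h]
            refine lt_of_le_of_lt ?_ hqm.2.2
            exact Real.rpow_le_rpow_of_exponent_le hx1 hδ1.le
          · exact (ArrE_mem.1 h).2.2
        · rw [← Finset.mul_prod_erase T _ hqT]
          have hx0 : (0 : ℝ) < x := by linarith
          calc (q : ℝ) * ∏ p ∈ T.erase q, (p : ℝ) ≤
                (x : ℝ) ^ ((0.09 : ℝ) * (1 + 0.16 * ((kq q : ℝ) + 1))) *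
                  (x : ℝ) ^ ((0.09 : ℝ) * (4.36 - 0.16 * (kq q : ℝ))) :=
                mul_le_mul (hkq q hq).2.2 hs2 (by positivity) (by positivity)
            _ = (x : ℝ) ^ (0.4968 : ℝ) := by
                rw [← Real.rpow_add hx0]
                congr 1
                ring
      · exact ArrE_sup (by norm_num) hL2 T g2
    · exact ArrE_sup (by norm_num) hU2 T g1
  · rw [hcBD]
    have g1 := hL3 m
    split_ifs with g2
    · rw [if_pos g2] at g1
      have g3 : ((Qs.filter (fun q => q ∣ m)).card : ℝ) ≤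
          ∑ q ∈ Qs, (if q ∣ m then (1 : ℝ) else 0) * evD (PX x) (cq q) m := by
        rw [Finset.card_filter]
        push_cast
        refine Finset.sum_le_sum fun q hq => ?_
        have g4 := hcqD q hq m
        rw [if_pos g2] at g4
        split_ifs
        · rw [one_mul]
          exact g4
        · rw [zero_mul]
      linarith
    · rw [if_neg g2] at g1
      have g3 := hsumD m
      linarith
  · have g1 : (1.0025 + ε) * V2 x δ 0.09 ≤ 1.01 * V2 x δ 0.09 := by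
      refine mul_le_mul_of_nonneg_right ?_ hV0.le
      rw [hεd]
      norm_num
    linarith

end Pool.Agent.H36.IS2

end
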