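import Pool.Agent.H47.B1.M18
import Pool.Agent.H47.B1.M39

/-! The parts of this file: H88.E58.Defs, H92.EH3.DivBound, H88.PSI.Defs, H88.PSI.Pw, H88.PSI.Dpm, H88.PSI.BoxD, H88.PSI.Mvt, H88.PSI.Cov, H97.VK.PropB, H88.PSI.BoxL, H97.EP.Defs, H97.EP.ANod, H97.EP.AId, H97.EP.ALow, H97.EP.AUp, H3.LC.Mertens, H97.EP.CC, H97.EP.ARiesz, H97.EP.ADec. -/

section

/-!
# PROJECT EP58 (MP_e68f0a_nt): primes in every interval `(x, x + x^(5/8+e)]`

`L = log X`, `ee t = exp(2 π i t)`.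

* `Bump ψ g`: `ψ` is a Lipschitz bump with support in `[0, 1]`, `g` its Fourier transform;
* `cc f` is `f` as a function to `ℂ`;
* `sw ψ f N x η = ∑_{n ≤ N} f(n) ψ((log n - log x)/η)/η`, the smooth sum over the window `(x, x e^η)`, over `η`.
-/

set_option autoImplicit false

namespace Pool.Agent.H88.E58

open Finset MeasureTheory
open Pool.Agent.H91.PK (ee)

/-- a bump and its Fourier transform -/
structure Bump (ψ : ℝ → ℝ) (g : ℝ → ℂ) : Prop where
  nn : ∀ v, 0 ≤ ψ v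
  le1 : ∀ v, ψ v ≤ 1
  one : ∀ v, 1 / 4 ≤ v → v ≤ 3 / 4 → ψ v = 1
  supp : ∀ v, ψ v ≠ 0 → 0 < v ∧ v < 1
  lip : ∃ C : ℝ, 1 ≤ C ∧ ∀ u v, |ψ u - ψ v| ≤ C * |u - v|
  gcont : Continuous g
  gint : Integrable g
  inv : ∀ v : ℝ, ((ψ v : ℝ) : ℂ) = ∫ t : ℝ, g t * ee (t * v)
  glip : ∃ C : ℝ, 1 ≤ C ∧ ∀ s t, ‖g s - g t‖ ≤ C * |s - t|
  gdec : ∀ k : ℕ, ∃ C : ℝ, 1 ≤ C ∧ ∀ t : ℝ, ‖g t‖ * |t| ^ k ≤ C

/-- a real arithmetic function as a function to `ℂ` -/
noncomputable def cc (f : ArithmeticFunction ℝ) (n : ℕ) : ℂ := ((f n : ℝ) : ℂ)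

/-- the smooth sum of `f` over the window `(x, x e^η)`, divided by `η` -/
noncomputable def sw (ψ : ℝ → ℝ) (f : ℕ → ℂ) (N : ℕ) (x η : ℝ) : ℂ :=
  ∑ n ∈ Icc 1 N, f n * ((ψ ((Real.log n - Real.log x) / η) / η : ℝ) : ℂ)

end Pool.Agent.H88.E58

end

section

/-!
The divisor bound.
-/

set_option autoImplicit false

namespace Pool.Agent.H92.EH

open Finset

theorem div_bound (ε : ℝ) (hε : 0 < ε) : ∃ C : ℝ, 1 ≤ C ∧ ∀ n : ℕ, 1 ≤ n →
    (n.divisors.card : ℝ) ≤ C * (n : ℝ) ^ ε := by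
  have hlog2 : 0 < Real.log 2 := Real.log_pos (by norm_num)
  set K : ℝ := 1 + 1 / (ε * Real.log 2) with hK
  have hK1 : 1 ≤ K := by
    rw [hK]
    have : 0 < 1 / (ε * Real.log 2) := by positivity
    linarith
  set P0 : ℕ := ⌈(2 : ℝ) ^ (1 / ε)⌉₊ with hP0
  refine ⟨K ^ P0, one_le_pow₀ hK1, ?_⟩
  intro n hn
  have hn0 : n ≠ 0 := by omega
  have hfac : ∀ p ∈ n.primeFactors, ((n.factorization p + 1 : ℕ) : ℝ) ≤
      (if p < P0 then K else 1) * ((p : ℝ) ^ (n.factorization p)) ^ ε := by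
    intro p hp
    have hpp := Nat.prime_of_mem_primeFactors hp
    have hp2 : (2 : ℝ) ≤ p := by exact_mod_cast hpp.two_le
    set v := n.factorization p with hv
    have e1 : ((p : ℝ) ^ v) ^ ε = ((p : ℝ) ^ ε) ^ v := by
      rw [← Real.rpow_natCast, ← Real.rpow_mul (by linarith), mul_comm, Real.rpow_mul (by linarith),
        Real.rpow_natCast]
    rw [e1]
    split_ifs with h
    · have h1 : ((2 : ℝ) ^ ε) ^ v ≤ ((p : ℝ) ^ ε) ^ v :=
        pow_le_pow_left₀ (by positivity) (Real.rpow_le_rpow (by norm_num) hp2 hε.le) v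
      have h2 : 1 + (v : ℝ) * (ε * Real.log 2) ≤ ((2 : ℝ) ^ ε) ^ v := by
        have h3 : 1 + ε * Real.log 2 ≤ (2 : ℝ) ^ ε := by
          rw [Real.rpow_def_of_pos (by norm_num)]
          have := Real.add_one_le_exp (Real.log 2 * ε)
          linarith
        have h4 : 1 + (v : ℝ) * (ε * Real.log 2) ≤ (1 + ε * Real.log 2) ^ v :=
          one_add_mul_le_pow (by nlinarith [mul_pos hε hlog2]) v
        refine h4.trans ?_
        exact pow_le_pow_left₀ (by positivity) h3 v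
      have h5 : ((v + 1 : ℕ) : ℝ) ≤ K * (1 + (v : ℝ) * (ε * Real.log 2)) := by
        have h6 : K * (1 + (v : ℝ) * (ε * Real.log 2))
            = 1 + v + 1 / (ε * Real.log 2) + (v : ℝ) * (ε * Real.log 2) := by
          rw [hK]
          field_simp
          ring
        rw [h6]
        push_cast
        have h7 : 0 < 1 / (ε * Real.log 2) := by positivity
        have h8 : 0 ≤ (v : ℝ) * (ε * Real.log 2) := by positivity
        linarith
      calc ((v + 1 : ℕ) : ℝ) ≤ K * (1 + (v : ℝ) * (ε * Real.log 2)) := h5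
        _ ≤ K * ((p : ℝ) ^ ε) ^ v := mul_le_mul_of_nonneg_left (h2.trans h1) (by linarith)
    · push Not at h
      have h1 : (2 : ℝ) ^ (1 / ε) ≤ p := by
        refine (Nat.le_ceil _).trans ?_
        exact_mod_cast h
      have h2 : (2 : ℝ) ≤ (p : ℝ) ^ ε := by
        calc (2 : ℝ) = ((2 : ℝ) ^ (1 / ε)) ^ ε := by
              rw [← Real.rpow_mul (by norm_num), one_div, inv_mul_cancel₀ hε.ne', Real.rpow_one]
          _ ≤ (p : ℝ) ^ ε := Real.rpow_le_rpow (by positivity) h1 hε.le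
      have h3 : ((v + 1 : ℕ) : ℝ) ≤ (2 : ℝ) ^ v := by
        have : v + 1 ≤ 2 ^ v := Nat.lt_two_pow_self
        exact_mod_cast this
      rw [one_mul]
      exact h3.trans (pow_le_pow_left₀ (by norm_num) h2 v)
  have hcard : (n.divisors.card : ℝ) = ∏ p ∈ n.primeFactors, ((n.factorization p + 1 : ℕ) : ℝ) := by
    rw [Nat.card_divisors hn0]
    push_cast
    rfl
  have hprod : (n : ℝ) ^ ε = ∏ p ∈ n.primeFactors, ((p : ℝ) ^ (n.factorization p)) ^ ε := by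
    have h1 : (n : ℝ) = ∏ p ∈ n.primeFactors, ((p : ℝ) ^ (n.factorization p)) := by
      have h2 := Nat.factorization_prod_pow_eq_self hn0
      conv_lhs => rw [← h2]
      rw [Finsupp.prod, Nat.support_factorization]
      push_cast
      rfl
    conv_lhs => rw [h1]
    rw [Real.finset_prod_rpow _ _ (fun p _ => by positivity)]
  rw [hcard, hprod]
  calc ∏ p ∈ n.primeFactors, ((n.factorization p + 1 : ℕ) : ℝ)
      ≤ ∏ p ∈ n.primeFactors, (if p < P0 then K else 1) * ((p : ℝ) ^ (n.factorization p)) ^ ε :=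
        prod_le_prod (fun p _ => by positivity) hfac
    _ = (∏ p ∈ n.primeFactors, (if p < P0 then K else 1))
          * ∏ p ∈ n.primeFactors, ((p : ℝ) ^ (n.factorization p)) ^ ε := prod_mul_distrib
    _ ≤ K ^ P0 * ∏ p ∈ n.primeFactors, ((p : ℝ) ^ (n.factorization p)) ^ ε := by
        apply mul_le_mul_of_nonneg_right _ (prod_nonneg fun p _ => by positivity)
        rw [← prod_filter, prod_const]
        apply pow_le_pow_right₀ hK1
        calc (n.primeFactors.filter (fun p => p < P0)).card ≤ (range P0).card := by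
              apply card_le_card
              intro p hp
              exact mem_range.mpr (mem_filter.mp hp).2
          _ = P0 := card_range P0

end Pool.Agent.H92.EH

end

section

/-!
# PROJECT PSI (MP_967f73_nt): primes in almost all short intervals, in residue classes

THEOREM (`Hux.lean` / `Blk.lean`): for `X^(1/6+e) ≤ H ≤ X^(1/3)`, `d ≤ (log X)^B`, `(u, d) = 1`,
`∑_{X ≤ x < 2X} |∑_{x < n ≤ x+H, n ≡ u (d)} Λ(n) - H/φ(d)|^2 ≤ X H^2/(log X)^A`.

`L = log X`; `ee t = exp(2 π i t)` (`Pool.Agent.H91.PK.ee`).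

* `W f H x` = sum of `f` over the window `(x, x+H]`, `D f H H1 x` = average over the short window minus
  average over the long window;
* `DP f N t = ∑_{n ≤ N} f(n) n^{2 π i t}`;
* `kf k` for `k = 0, 1, 2` is `1`, `log`, `μ`; `seg k a b` = `kf k` on `[a, b)`, `hi k Y` = `kf k` on `[Y, ∞)`,
  `pc k j = seg k (2^j) (2^(j+1))`, `lot k y w` = `kf k` on `[1, 2^y)` (`k = 0, 1`) or `[1, 2^w)` (`k = 2`);
* `Tp κ y w = ∏ i, lot (κ i) y w` (Dirichlet convolution);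
* `tw χ f n = f(n) χ(n)`, `cl d u f n = f(n)` if `n ≡ u (d)`, `0` otherwise.
-/

set_option autoImplicit false

namespace Pool.Agent.H88.PSI

open Finset MeasureTheory
open Pool.Agent.H91.PK (ee)

/-- the Dirichlet polynomial `∑_{n ≤ N} f(n) n^{2 π i t}` -/
noncomputable def DP (f : ℕ → ℂ) (N : ℕ) (t : ℝ) : ℂ :=
  ∑ n ∈ Icc 1 N, f n * ee (t * Real.log n)

/-- the second moment `∑_{n ≤ N} |f(n)|^2` -/
noncomputable def SS (f : ℕ → ℂ) (N : ℕ) : ℝ := ∑ n ∈ Icc 1 N, ‖f n‖ ^ 2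

/-- the number of divisors -/
noncomputable def tau (n : ℕ) : ℝ := (n.divisors.card : ℝ)

/-- `1`, `log`, `μ` -/
noncomputable def kf (k : Fin 3) (n : ℕ) : ℝ :=
  if k = 0 then 1 else if k = 1 then Real.log n else ((ArithmeticFunction.moebius n : ℤ) : ℝ)

/-- `kf k` on `[a, b)` -/
noncomputable def seg (k : Fin 3) (a b : ℕ) : ArithmeticFunction ℝ :=
  ⟨fun n => if n ≠ 0 ∧ a ≤ n ∧ n < b then kf k n else 0, by simp⟩

/-- `kf k` on `[Y, ∞)` -/
noncomputable def hi (k : Fin 3) (Y : ℕ) : ArithmeticFunction ℝ :=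
  ⟨fun n => if n ≠ 0 ∧ Y ≤ n then kf k n else 0, by simp⟩

/-- a dyadic piece of `kf k` -/
noncomputable def pc (k : Fin 3) (j : ℕ) : ArithmeticFunction ℝ := seg k (2 ^ j) (2 ^ (j + 1))

/-- the exponent of the upper end of the range of a variable of kind `k` -/
def top (k : Fin 3) (y w : ℕ) : ℕ := if k = 2 then w else y

/-- the truncated function of kind `k` -/
noncomputable def lot (k : Fin 3) (y w : ℕ) : ArithmeticFunction ℝ := seg k 1 (2 ^ top k y w)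

/-- a product of truncated functions -/
noncomputable def Tp {r : ℕ} (κ : Fin r → Fin 3) (y w : ℕ) : ArithmeticFunction ℝ :=
  ∏ i, lot (κ i) y w

/-- a product of dyadic pieces -/
noncomputable def Pp {r : ℕ} (κ : Fin r → Fin 3) (j : Fin r → ℕ) : ArithmeticFunction ℝ :=
  ∏ i, pc (κ i) (j i)

/-- the kinds of the variables in the second term of the Heath-Brown identity -/
def k4 : Fin 4 → Fin 3 := ![1, 0, 2, 2]

/-- the kinds of the variables in the third term of the Heath-Brown identity -/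
def k6 : Fin 6 → Fin 3 := ![1, 0, 0, 2, 2, 2]

/-- the coefficients of type I with a logarithm in the smooth variable -/
noncomputable def cA (w : ℕ) : ArithmeticFunction ℝ :=
  (3 : ℝ) • seg 2 1 (2 ^ w) - (3 : ℝ) • (hi 0 1 * seg 2 1 (2 ^ w) ^ 2)
    + hi 0 1 ^ 2 * seg 2 1 (2 ^ w) ^ 3

/-- the coefficients of type I without a logarithm in the smooth variable -/
noncomputable def cB (y w : ℕ) : ArithmeticFunction ℝ :=
  seg 1 1 (2 ^ y) * (hi 0 1 + seg 0 1 (2 ^ y)) * seg 2 1 (2 ^ w) ^ 3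
    - (3 : ℝ) • (seg 1 1 (2 ^ y) * seg 2 1 (2 ^ w) ^ 2)

/-- the von Mangoldt function -/
noncomputable def La : ArithmeticFunction ℝ := ArithmeticFunction.vonMangoldt

/-- twist by a character -/
noncomputable def tw {d : ℕ} (χ : DirichletCharacter ℂ d) (f : ArithmeticFunction ℝ) :
    ArithmeticFunction ℂ :=
  ⟨fun n => ((f n : ℝ) : ℂ) * χ (n : ZMod d), by simp⟩

end Pool.Agent.H88.PSI

end

section

/-!
# PSI Pw: pointwise bounds, supports, divisor bounds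

`|(f * g)(n)| ≤ ∑_{d ∣ n} |f(d)| |g(n/d)|` and `tau d ≤ tau n` for `d ∣ n`, `n ≠ 0`.
`tau_eps`: from `∑_{m ≤ n} tau(m)^j ≤ n (1 + log n)^(2^j)` (`Pool.Agent.H35.U.tau_pow` in
`Pool/Agent/H35/U/TauM.lean`) with `j ≥ 2/e`, or from any divisor bound of the pool (`H92/EH3/DivBound.lean`).
-/

set_option autoImplicit false

namespace Pool.Agent.H88.PSI

open Finset

private theorem Pw_tau_nonneg (n : ℕ) : 0 ≤ tau n := by
  unfold tau
  positivity

private theorem Pw_tau_one_le {n : ℕ} (hn : n ≠ 0) : 1 ≤ tau n := by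
  unfold tau
  have : 0 < n.divisors.card := by
    rw [Finset.card_pos]
    exact ⟨1, Nat.one_mem_divisors.2 hn⟩
  exact_mod_cast this

private theorem Pw_tau_dvd {d n : ℕ} (h : d ∣ n) (hn : n ≠ 0) : tau d ≤ tau n := by
  unfold tau
  exact_mod_cast Finset.card_le_card (Nat.divisors_subset_of_dvd hn h)

private theorem Pw_card (n : ℕ) : (n.divisorsAntidiagonal.card : ℝ) = tau n := by
  unfold tau
  have h := Nat.sum_divisorsAntidiagonal (fun _ _ => (1:ℝ)) (n := n)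
  simp only [Finset.sum_const, nsmul_eq_mul, mul_one] at h
  exact h

private theorem Pw_mul {R : Type*} [NormedCommRing R] (f g : ArithmeticFunction R) (A B : ℝ)
    (hA : 0 ≤ A) (hB : 0 ≤ B) (a b : ℕ) (hf : ∀ n, ‖f n‖ ≤ A * tau n ^ a)
    (hg : ∀ n, ‖g n‖ ≤ B * tau n ^ b) (n : ℕ) : ‖(f * g) n‖ ≤ A * B * tau n ^ (a + b + 1) := by
  have ht := Pw_tau_nonneg n
  rcases Nat.eq_zero_or_pos n with h0 | h0
  · subst h0
    rw [ArithmeticFunction.map_zero, norm_zero]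
    positivity
  · rw [ArithmeticFunction.mul_apply]
    refine (norm_sum_le _ _).trans ?_
    have h1 : ∀ x ∈ n.divisorsAntidiagonal, ‖f x.1 * g x.2‖ ≤ A * B * tau n ^ (a + b) := by
      intro x hx
      rw [Nat.mem_divisorsAntidiagonal] at hx
      have hx1 : tau x.1 ≤ tau n := Pw_tau_dvd ⟨x.2, hx.1.symm⟩ hx.2
      have hx2 : tau x.2 ≤ tau n := Pw_tau_dvd ⟨x.1, by rw [mul_comm]; exact hx.1.symm⟩ hx.2
      have h2 : ‖f x.1‖ ≤ A * tau n ^ a := (hf x.1).trans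
        (mul_le_mul_of_nonneg_left (pow_le_pow_left₀ (Pw_tau_nonneg _) hx1 a) hA)
      have h3 : ‖g x.2‖ ≤ B * tau n ^ b := (hg x.2).trans
        (mul_le_mul_of_nonneg_left (pow_le_pow_left₀ (Pw_tau_nonneg _) hx2 b) hB)
      calc ‖f x.1 * g x.2‖ ≤ ‖f x.1‖ * ‖g x.2‖ := norm_mul_le _ _
        _ ≤ (A * tau n ^ a) * (B * tau n ^ b) :=
            mul_le_mul h2 h3 (norm_nonneg _) (by positivity)
        _ = A * B * tau n ^ (a + b) := by rw [pow_add]; ring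
    refine (Finset.sum_le_sum h1).trans (le_of_eq ?_)
    rw [Finset.sum_const, nsmul_eq_mul, Pw_card, pow_succ]
    ring

/-- products of bounded functions -/
theorem prod_bd {r : ℕ} (f : Fin r → ArithmeticFunction ℂ) (L : ℝ) (hL : 1 ≤ L)
    (h : ∀ i n, ‖f i n‖ ≤ L) (n : ℕ) : ‖(∏ i, f i) n‖ ≤ L ^ r * tau n ^ r := by
  have key : ∀ s : Finset (Fin r), ∀ n : ℕ, ‖(∏ i ∈ s, f i) n‖ ≤ L ^ s.card * tau n ^ s.card := by
    intro s
    induction s using Finset.induction_on with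
    | empty =>
      intro n
      rw [Finset.prod_empty, Finset.card_empty, pow_zero, pow_zero, mul_one,
        ArithmeticFunction.one_apply]
      split_ifs
      · rw [norm_one]
      · rw [norm_zero]
        exact zero_le_one
    | insert i s hi ih =>
      intro n
      rw [Finset.prod_insert hi, Finset.card_insert_of_notMem hi]
      have h1 := Pw_mul (f i) (∏ i ∈ s, f i) L (L ^ s.card) (by linarith) (by positivity) 0 s.card
        (fun m => by rw [pow_zero, mul_one]; exact h i m) ih n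
      refine h1.trans (le_of_eq ?_)
      rw [zero_add, pow_succ L]
      ring
  have h2 := key univ n
  rw [Finset.card_univ, Fintype.card_fin] at h2
  exact h2

/-- products of functions supported on `[N i, 2 N i)` -/
theorem prod_supp {r : ℕ} (f : Fin r → ArithmeticFunction ℂ) (N : Fin r → ℕ)
    (h : ∀ i n, f i n ≠ 0 → N i ≤ n ∧ n < 2 * N i) (n : ℕ) (hn : (∏ i, f i) n ≠ 0) :
    ∏ i, N i ≤ n ∧ n ≤ ∏ i, (2 * N i) := by
  have key : ∀ s : Finset (Fin r), ∀ n : ℕ, (∏ i ∈ s, f i) n ≠ 0 →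
      ∏ i ∈ s, N i ≤ n ∧ n ≤ ∏ i ∈ s, (2 * N i) := by
    intro s
    induction s using Finset.induction_on with
    | empty =>
      intro n hn
      rw [Finset.prod_empty, ArithmeticFunction.one_apply] at hn
      rw [Finset.prod_empty, Finset.prod_empty]
      split_ifs at hn with h1
      · omega
      · exact absurd rfl hn
    | insert i s hi ih =>
      intro n hn
      rw [Finset.prod_insert hi, ArithmeticFunction.mul_apply] at hn
      obtain ⟨x, hx, hne⟩ := Finset.exists_ne_zero_of_sum_ne_zero hn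
      rw [Nat.mem_divisorsAntidiagonal] at hx
      have h1 := h i x.1 (left_ne_zero_of_mul hne)
      have h2 := ih x.2 (right_ne_zero_of_mul hne)
      rw [Finset.prod_insert hi, Finset.prod_insert hi, ← hx.1]
      exact ⟨Nat.mul_le_mul h1.1 h2.1, Nat.mul_le_mul h1.2.le h2.2⟩
  exact key univ n hn

private theorem Pw_sub (f g : ArithmeticFunction ℝ) (n : ℕ) : (f - g) n = f n - g n := by
  rw [sub_eq_add_neg, ArithmeticFunction.add_apply, sub_eq_add_neg]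
  rfl

private theorem Pw_seg2 (w : ℕ) (n : ℕ) : ‖seg 2 1 (2 ^ w) n‖ ≤ 1 * tau n ^ 0 := by
  rw [pow_zero, mul_one]
  show ‖if n ≠ 0 ∧ 1 ≤ n ∧ n < 2 ^ w then kf 2 n else 0‖ ≤ 1
  split_ifs
  · have h1 : kf 2 n = ((ArithmeticFunction.moebius n : ℤ) : ℝ) := by
      unfold kf
      rw [if_neg (by decide), if_neg (by decide)]
    rw [h1, Real.norm_eq_abs, ← Int.cast_abs]
    exact_mod_cast ArithmeticFunction.abs_moebius_le_one
  · rw [norm_zero]
    exact zero_le_one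

private theorem Pw_hi0 (n : ℕ) : ‖hi 0 1 n‖ ≤ 1 * tau n ^ 0 := by
  rw [pow_zero, mul_one]
  show ‖if n ≠ 0 ∧ 1 ≤ n then kf 0 n else 0‖ ≤ 1
  split_ifs
  · have h1 : kf 0 n = 1 := by
      unfold kf
      rw [if_pos rfl]
    rw [h1, norm_one]
  · rw [norm_zero]
    exact zero_le_one

private theorem Pw_seg0 (y : ℕ) (n : ℕ) : ‖seg 0 1 (2 ^ y) n‖ ≤ 1 := by
  show ‖if n ≠ 0 ∧ 1 ≤ n ∧ n < 2 ^ y then kf 0 n else 0‖ ≤ 1
  split_ifs
  · have h1 : kf 0 n = 1 := by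
      unfold kf
      rw [if_pos rfl]
    rw [h1, norm_one]
  · rw [norm_zero]
    exact zero_le_one

private theorem Pw_seg1 (y : ℕ) (n : ℕ) : ‖seg 1 1 (2 ^ y) n‖ ≤ (y : ℝ) * tau n ^ 0 := by
  rw [pow_zero, mul_one]
  show ‖if n ≠ 0 ∧ 1 ≤ n ∧ n < 2 ^ y then kf 1 n else 0‖ ≤ (y : ℝ)
  split_ifs with h
  · have h1 : kf 1 n = Real.log n := by
      unfold kf
      rw [if_neg (by decide), if_pos rfl]
    have hn1 : (1 : ℝ) ≤ n := by exact_mod_cast h.2.1
    rw [h1, Real.norm_eq_abs, abs_of_nonneg (Real.log_nonneg hn1)]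
    have h2 : (n : ℝ) ≤ 2 ^ y := by exact_mod_cast h.2.2.le
    have h3 : Real.log n ≤ Real.log ((2 : ℝ) ^ y) := Real.log_le_log (by linarith) h2
    rw [Real.log_pow] at h3
    have h4 : Real.log 2 ≤ 1 := by
      have := Real.log_two_lt_d9
      linarith
    have h5 : (0 : ℝ) ≤ y := Nat.cast_nonneg y
    nlinarith
  · rw [norm_zero]
    exact Nat.cast_nonneg y

private theorem Pw_hs (y : ℕ) (n : ℕ) : ‖(hi 0 1 + seg 0 1 (2 ^ y)) n‖ ≤ 2 * tau n ^ 0 := by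
  rw [ArithmeticFunction.add_apply]
  have h1 := Pw_hi0 n
  have h2 := Pw_seg0 y n
  rw [pow_zero, mul_one] at h1 ⊢
  refine (norm_add_le _ _).trans ?_
  linarith

private theorem Pw_sq (w : ℕ) (n : ℕ) : ‖(seg 2 1 (2 ^ w) ^ 2) n‖ ≤ 1 * tau n ^ 1 := by
  rw [pow_two]
  have h := Pw_mul (seg 2 1 (2 ^ w)) (seg 2 1 (2 ^ w)) 1 1 zero_le_one zero_le_one 0 0 (Pw_seg2 w)
    (Pw_seg2 w) n
  simpa using h

private theorem Pw_cube (w : ℕ) (n : ℕ) : ‖(seg 2 1 (2 ^ w) ^ 3) n‖ ≤ 1 * tau n ^ 2 := by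
  rw [pow_succ]
  have h := Pw_mul (seg 2 1 (2 ^ w) ^ 2) (seg 2 1 (2 ^ w)) 1 1 zero_le_one zero_le_one 1 0 (Pw_sq w)
    (Pw_seg2 w) n
  simpa using h

/-- the coefficients `cA` -/
theorem cA_bd (w n : ℕ) : |cA w n| ≤ 7 * tau n ^ 5 := by
  rcases Nat.eq_zero_or_pos n with h0 | h0
  · subst h0
    rw [ArithmeticFunction.map_zero, abs_zero]
    have := Pw_tau_nonneg 0
    positivity
  · have ht := Pw_tau_one_le (n := n) (by omega)
    have h1 := Pw_seg2 w n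
    have h2 := Pw_mul (hi 0 1) (seg 2 1 (2 ^ w) ^ 2) 1 1 zero_le_one zero_le_one 0 1 Pw_hi0
      (Pw_sq w) n
    have h3 : ∀ n, ‖(hi 0 1 ^ 2) n‖ ≤ 1 * tau n ^ 1 := by
      intro n
      rw [pow_two]
      have h := Pw_mul (hi 0 1) (hi 0 1) 1 1 zero_le_one zero_le_one 0 0 Pw_hi0 Pw_hi0 n
      simpa using h
    have h4 := Pw_mul (hi 0 1 ^ 2) (seg 2 1 (2 ^ w) ^ 3) 1 1 zero_le_one zero_le_one 1 2 h3
      (Pw_cube w) n
    rw [Real.norm_eq_abs] at h1 h2 h4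
    have e : cA w n = 3 * seg 2 1 (2 ^ w) n - 3 * (hi 0 1 * seg 2 1 (2 ^ w) ^ 2) n +
        (hi 0 1 ^ 2 * seg 2 1 (2 ^ w) ^ 3) n := by
      unfold cA
      rw [ArithmeticFunction.add_apply, Pw_sub]
      rfl
    rw [e]
    have p1 : tau n ^ 0 ≤ tau n ^ 5 := pow_le_pow_right₀ ht (by norm_num)
    have p2 : tau n ^ (0 + 1 + 1) ≤ tau n ^ 5 := pow_le_pow_right₀ ht (by norm_num)
    have p3 : tau n ^ (1 + 2 + 1) ≤ tau n ^ 5 := pow_le_pow_right₀ ht (by norm_num)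
    have q1 := abs_le.1 h1
    have q2 := abs_le.1 h2
    have q4 := abs_le.1 h4
    rw [abs_le]
    constructor <;> linarith [q1.1, q1.2, q2.1, q2.2, q4.1, q4.2]

/-- the coefficients `cB` -/
theorem cB_bd (y w n : ℕ) : |cB y w n| ≤ 5 * (y + 1) * tau n ^ 5 := by
  rcases Nat.eq_zero_or_pos n with h0 | h0
  · subst h0
    rw [ArithmeticFunction.map_zero, abs_zero]
    have := Pw_tau_nonneg 0
    positivity
  · have ht := Pw_tau_one_le (n := n) (by omega)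
    have hy : (0 : ℝ) ≤ y := Nat.cast_nonneg y
    have h1 := Pw_mul (seg 1 1 (2 ^ y)) (hi 0 1 + seg 0 1 (2 ^ y)) y 2 hy (by norm_num) 0 0
      (Pw_seg1 y) (Pw_hs y)
    have h2 := Pw_mul (seg 1 1 (2 ^ y) * (hi 0 1 + seg 0 1 (2 ^ y))) (seg 2 1 (2 ^ w) ^ 3) (y * 2) 1
      (by positivity) zero_le_one (0 + 0 + 1) 2 h1 (Pw_cube w) n
    have h3 := Pw_mul (seg 1 1 (2 ^ y)) (seg 2 1 (2 ^ w) ^ 2) y 1 hy zero_le_one 0 1 (Pw_seg1 y)
      (Pw_sq w) n
    rw [Real.norm_eq_abs] at h2 h3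
    have e : cB y w n = (seg 1 1 (2 ^ y) * (hi 0 1 + seg 0 1 (2 ^ y)) * seg 2 1 (2 ^ w) ^ 3) n -
        3 * (seg 1 1 (2 ^ y) * seg 2 1 (2 ^ w) ^ 2) n := by
      unfold cB
      rw [Pw_sub]
      rfl
    rw [e]
    have p2 : tau n ^ (0 + 1 + 1) ≤ tau n ^ 5 := pow_le_pow_right₀ ht (by norm_num)
    have p3 : tau n ^ (0 + 0 + 1 + 2 + 1) ≤ tau n ^ 5 := pow_le_pow_right₀ ht (by norm_num)
    have r2 : (y : ℝ) * 1 * tau n ^ (0 + 1 + 1) ≤ y * tau n ^ 5 := by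
      rw [mul_one]
      exact mul_le_mul_of_nonneg_left p2 hy
    have r3 : (y : ℝ) * 2 * 1 * tau n ^ (0 + 0 + 1 + 2 + 1) ≤ 2 * (y * tau n ^ 5) := by
      have := mul_le_mul_of_nonneg_left p3 hy
      linarith
    have r4 : 0 ≤ tau n ^ 5 := by positivity
    have q2 := abs_le.1 h2
    have q3 := abs_le.1 h3
    rw [abs_le]
    constructor <;> linarith [q2.1, q2.2, q3.1, q3.2]

/-- divisor bound -/
theorem tau_eps (e : ℝ) (he : 0 < e) : ∃ C : ℝ, 1 ≤ C ∧ ∀ n : ℕ, tau n ≤ C * (n : ℝ) ^ e + C := by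
  obtain ⟨C, hC, h⟩ := Pool.Agent.H92.EH.div_bound e he
  refine ⟨C, hC, fun n => ?_⟩
  have hn : (0 : ℝ) ≤ (n : ℝ) ^ e := Real.rpow_nonneg (Nat.cast_nonneg n) e
  rcases Nat.eq_zero_or_pos n with h0 | h0
  · subst h0
    unfold tau
    rw [Nat.divisors_zero, Finset.card_empty, Nat.cast_zero]
    have h2 : (0 : ℝ) ≤ (0 : ℝ) ^ e := Real.rpow_nonneg le_rfl e
    have h3 : 0 ≤ C * (0 : ℝ) ^ e := mul_nonneg (by linarith) h2
    linarith
  · have h1 := h n h0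
    unfold tau
    linarith

open scoped Pointwise in
private theorem Pw_tau_mul_le (d e : ℕ) :
    (d * e).divisors.card ≤ d.divisors.card * e.divisors.card := by
  rw [Nat.divisors_mul]
  exact card_mul_le

private noncomputable def Pw_S (k n : ℕ) : ℝ := ∑ m ∈ Icc 1 n, (m.divisors.card : ℝ) ^ k / m

private theorem Pw_S_nonneg (k n : ℕ) : 0 ≤ Pw_S k n :=
  sum_nonneg fun _ _ => by positivity

private theorem Pw_S_succ (k n : ℕ) : Pw_S (k + 1) n ≤ Pw_S k n ^ 2 := by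
  obtain ⟨f, hf⟩ : ∃ f : ℕ × ℕ → ℝ, f = fun p => ((p.1.divisors.card : ℝ) ^ k / p.1) *
      ((p.2.divisors.card : ℝ) ^ k / p.2) := ⟨_, rfl⟩
  have hf0 : ∀ p, 0 ≤ f p := fun p => by rw [hf]; positivity
  have h1 : Pw_S k n ^ 2 = ∑ p ∈ Icc 1 n ×ˢ Icc 1 n, f p := by
    unfold Pw_S
    rw [sq, sum_mul_sum, sum_product, hf]
  have h2 : ∀ m ∈ Icc 1 n, (m.divisors.card : ℝ) ^ (k + 1) / m ≤
      ∑ p ∈ ((Icc 1 n ×ˢ Icc 1 n).filter (fun p => p.1 * p.2 ∈ Icc 1 n)).filter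
        (fun p => p.1 * p.2 = m), f p := by
    intro m hm
    have hm' := mem_Icc.1 hm
    have e1 : ((Icc 1 n ×ˢ Icc 1 n).filter (fun p => p.1 * p.2 ∈ Icc 1 n)).filter
        (fun p => p.1 * p.2 = m) = m.divisorsAntidiagonal := by
      ext p
      rw [mem_filter, mem_filter, mem_product, mem_Icc, mem_Icc, Nat.mem_divisorsAntidiagonal]
      constructor
      · rintro ⟨_, h⟩
        exact ⟨h, by omega⟩
      · rintro ⟨h, _⟩
        have hp1 : 1 ≤ p.1 := Nat.one_le_iff_ne_zero.2 (by rintro h0; rw [h0, zero_mul] at h; omega)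
        have hp2 : 1 ≤ p.2 := Nat.one_le_iff_ne_zero.2 (by rintro h0; rw [h0, mul_zero] at h; omega)
        have h3 : p.1 ≤ m := h ▸ Nat.le_mul_of_pos_right _ hp2
        have h4 : p.2 ≤ m := h ▸ Nat.le_mul_of_pos_left _ hp1
        exact ⟨⟨⟨⟨hp1, by omega⟩, ⟨hp2, by omega⟩⟩, h ▸ hm⟩, h⟩
    rw [e1]
    have e2 : (m.divisors.card : ℝ) = ∑ _p ∈ m.divisorsAntidiagonal, (1:ℝ) := by
      rw [Nat.sum_divisorsAntidiagonal (fun _ _ => (1:ℝ))]
      simp
    have e3 : (m.divisors.card : ℝ) ^ (k + 1) / m =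
        ∑ _p ∈ m.divisorsAntidiagonal, (m.divisors.card : ℝ) ^ k / m := by
      rw [← mul_one ((m.divisors.card : ℝ) ^ k / m), ← mul_sum, ← e2, pow_succ]
      ring
    rw [e3]
    refine sum_le_sum fun p hp => ?_
    rw [Nat.mem_divisorsAntidiagonal] at hp
    rw [hf]
    have h5 := Pw_tau_mul_le p.1 p.2
    rw [hp.1] at h5
    have h6 : (m.divisors.card : ℝ) ≤ (p.1.divisors.card : ℝ) * (p.2.divisors.card : ℝ) := by
      exact_mod_cast h5
    have h7 : (m : ℝ) = (p.1 : ℝ) * p.2 := by rw [← hp.1]; push_cast; rfl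
    show (m.divisors.card : ℝ) ^ k / m ≤ ((p.1.divisors.card : ℝ) ^ k / p.1) *
      ((p.2.divisors.card : ℝ) ^ k / p.2)
    rw [div_mul_div_comm, ← mul_pow, ← h7]
    exact div_le_div_of_nonneg_right (pow_le_pow_left₀ (by positivity) h6 k) (by positivity)
  rw [h1]
  unfold Pw_S
  calc ∑ m ∈ Icc 1 n, (m.divisors.card : ℝ) ^ (k + 1) / m
      ≤ ∑ m ∈ Icc 1 n, ∑ p ∈ ((Icc 1 n ×ˢ Icc 1 n).filter (fun p => p.1 * p.2 ∈ Icc 1 n)).filter
        (fun p => p.1 * p.2 = m), f p := sum_le_sum h2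
    _ = ∑ p ∈ (Icc 1 n ×ˢ Icc 1 n).filter (fun p => p.1 * p.2 ∈ Icc 1 n), f p :=
        sum_fiberwise_of_maps_to (fun p hp => (mem_filter.1 hp).2) f
    _ ≤ ∑ p ∈ Icc 1 n ×ˢ Icc 1 n, f p :=
        sum_le_sum_of_subset_of_nonneg (filter_subset _ _) (fun p _ _ => hf0 p)

private theorem Pw_S_zero (n : ℕ) : Pw_S 0 n ≤ 1 + Real.log n := by
  have h := harmonic_le_one_add_log n
  refine le_trans (le_of_eq ?_) h
  unfold Pw_S
  rw [harmonic_eq_sum_Icc]
  push_cast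
  refine sum_congr rfl fun m _ => ?_
  rw [pow_zero, one_div]

private theorem Pw_S_pow (n k : ℕ) : Pw_S k n ≤ (1 + Real.log n) ^ (2 ^ k) := by
  induction k with
  | zero => simpa using Pw_S_zero n
  | succ k ih =>
    refine (Pw_S_succ k n).trans ?_
    rw [pow_succ 2 k, pow_mul]
    exact pow_le_pow_left₀ (Pw_S_nonneg k n) ih 2

/-- moments of the divisor function -/
theorem tau_mom (j n : ℕ) : ∑ m ∈ Icc 1 n, tau m ^ j ≤ n * (1 + Real.log n) ^ (2 ^ j) := by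
  have h1 : ∑ m ∈ Icc 1 n, tau m ^ j ≤ n * Pw_S j n := by
    unfold Pw_S
    rw [mul_sum]
    refine sum_le_sum fun m hm => ?_
    have hm' := mem_Icc.1 hm
    have hm0 : (0:ℝ) < m := by exact_mod_cast hm'.1
    have hmn : (m:ℝ) ≤ n := by exact_mod_cast hm'.2
    unfold tau
    rw [← mul_div_assoc, le_div_iff₀ hm0, mul_comm]
    exact mul_le_mul_of_nonneg_right hmn (by positivity)
  exact h1.trans (mul_le_mul_of_nonneg_left (Pw_S_pow n j) (by positivity))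

/-- the same with weights `1/m` (see the private `tau_S_pow` in `Pool/Agent/H80/LV/Tau4.lean`) -/
theorem tau_momd (j n : ℕ) : ∑ m ∈ Icc 1 n, tau m ^ j / m ≤ (1 + Real.log n) ^ (2 ^ j) := by
  exact Pw_S_pow n j

end Pool.Agent.H88.PSI

end

section

/-!
# PSI Dpm: multiplicativity of the Dirichlet polynomials and of the twist

`ee (t log (m n)) = ee (t log m) ee (t log n)`, `(f * g)(n) = ∑_{ab = n} f(a) g(b)`; a pair `(a, b)` with
`f a ≠ 0`, `g b ≠ 0` has `1 ≤ a ≤ N`, `1 ≤ b ≤ M`.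
-/

set_option autoImplicit false

namespace Pool.Agent.H88.PSI

open Finset

private theorem Dpm_ee_add (x y : ℝ) : Pool.Agent.H91.PK.ee (x + y) = Pool.Agent.H91.PK.ee x * Pool.Agent.H91.PK.ee y := by
  unfold Pool.Agent.H91.PK.ee
  rw [← Complex.exp_add]
  congr 1
  push_cast
  ring

private theorem Dpm_norm_ee (x : ℝ) : ‖Pool.Agent.H91.PK.ee x‖ = 1 := by
  unfold Pool.Agent.H91.PK.ee
  have h1 : 2 * (Real.pi : ℂ) * (x : ℂ) * Complex.I = ((2 * Real.pi * x : ℝ) : ℂ) * Complex.I := by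
    push_cast
    ring
  rw [h1, Complex.norm_exp_ofReal_mul_I]

private theorem Dpm_supp {f g : ArithmeticFunction ℂ} {N M : ℕ} (hf : ∀ n, f n ≠ 0 → n ≤ N)
    (hg : ∀ n, g n ≠ 0 → n ≤ M) (n : ℕ) (h : (f * g) n ≠ 0) : n ≤ N * M := by
  rw [ArithmeticFunction.mul_apply] at h
  obtain ⟨p, hp, hne⟩ := Finset.exists_ne_zero_of_sum_ne_zero h
  rw [Nat.mem_divisorsAntidiagonal] at hp
  rw [← hp.1]
  exact Nat.mul_le_mul (hf _ (left_ne_zero_of_mul hne)) (hg _ (right_ne_zero_of_mul hne))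

theorem dp_mul (f g : ArithmeticFunction ℂ) (N M : ℕ) (hf : ∀ n, f n ≠ 0 → n ≤ N)
    (hg : ∀ n, g n ≠ 0 → n ≤ M) (t : ℝ) :
    DP (⇑(f * g)) (N * M) t = DP f N t * DP g M t := by
  classical
  unfold DP
  rw [Finset.sum_mul_sum, ← Finset.sum_product']
  rw [← Finset.sum_fiberwise_of_maps_to (s := Icc 1 N ×ˢ Icc 1 M) (t := Icc 1 (N * M))
    (g := fun p => p.1 * p.2)]
  · refine Finset.sum_congr rfl fun n hn => ?_
    rw [Finset.mem_Icc] at hn
    rw [ArithmeticFunction.mul_apply, Finset.sum_mul]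
    symm
    refine (Finset.sum_subset (fun p hp => ?_) fun p hp hp' => ?_).trans
      (Finset.sum_congr rfl fun p hp => ?_)
    · rw [Finset.mem_filter, Finset.mem_product, Finset.mem_Icc, Finset.mem_Icc] at hp
      rw [Nat.mem_divisorsAntidiagonal]
      exact ⟨hp.2, by omega⟩
    · rw [Nat.mem_divisorsAntidiagonal] at hp
      rw [Finset.mem_filter, Finset.mem_product, Finset.mem_Icc, Finset.mem_Icc] at hp'
      have h1 : 1 ≤ p.1 := by
        rcases Nat.eq_zero_or_pos p.1 with h | h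
        · rw [h, zero_mul] at hp
          omega
        · exact h
      have h2 : 1 ≤ p.2 := by
        rcases Nat.eq_zero_or_pos p.2 with h | h
        · rw [h, mul_zero] at hp
          omega
        · exact h
      by_cases h3 : f p.1 = 0
      · rw [h3]
        ring
      · by_cases h4 : g p.2 = 0
        · rw [h4]
          ring
        · exact absurd ⟨⟨⟨h1, hf _ h3⟩, ⟨h2, hg _ h4⟩⟩, hp.1⟩ hp'
    · rw [Nat.mem_divisorsAntidiagonal] at hp
      have h1 : p.1 ≠ 0 := by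
        intro h
        rw [h, zero_mul] at hp
        omega
      have h2 : p.2 ≠ 0 := by
        intro h
        rw [h, mul_zero] at hp
        omega
      rw [← hp.1, Nat.cast_mul, Real.log_mul (by exact_mod_cast h1) (by exact_mod_cast h2),
        mul_add, Dpm_ee_add]
      ring
  · intro p hp
    rw [Finset.mem_product, Finset.mem_Icc, Finset.mem_Icc] at hp
    rw [Finset.mem_Icc]
    exact ⟨Nat.mul_pos hp.1.1 hp.2.1, Nat.mul_le_mul hp.1.2 hp.2.2⟩

private theorem Dpm_one (t : ℝ) : DP (⇑(1 : ArithmeticFunction ℂ)) 1 t = 1 := by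
  unfold DP
  have h1 : Pool.Agent.H91.PK.ee 0 = 1 := by
    unfold Pool.Agent.H91.PK.ee
    simp
  simp [h1]

private theorem Dpm_pow_supp (f : ArithmeticFunction ℂ) (N k : ℕ) (hf : ∀ n, f n ≠ 0 → n ≤ N) :
    ∀ n, (f ^ k) n ≠ 0 → n ≤ N ^ k := by
  induction k with
  | zero =>
    intro n hn
    rw [pow_zero] at hn ⊢
    by_contra hcon
    exact hn (ArithmeticFunction.one_apply_ne (by omega))
  | succ k ih =>
    intro n hn
    rw [pow_succ] at hn ⊢
    exact Dpm_supp ih hf n hn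

theorem dp_pow (f : ArithmeticFunction ℂ) (N k : ℕ) (hf : ∀ n, f n ≠ 0 → n ≤ N) (t : ℝ) :
    DP (⇑(f ^ k)) (N ^ k) t = DP f N t ^ k := by
  induction k with
  | zero => simpa using Dpm_one t
  | succ k ih =>
    rw [pow_succ, pow_succ, dp_mul _ _ _ _ (Dpm_pow_supp f N k hf) hf, ih, pow_succ]

private theorem Dpm_prod_supp {ι : Type*} [DecidableEq ι] (s : Finset ι)
    (f : ι → ArithmeticFunction ℂ) (N : ι → ℕ) (hf : ∀ i ∈ s, ∀ n, f i n ≠ 0 → n ≤ N i) :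
    ∀ n, (∏ i ∈ s, f i) n ≠ 0 → n ≤ ∏ i ∈ s, N i := by
  induction s using Finset.induction_on with
  | empty =>
    intro n hn
    rw [Finset.prod_empty] at hn ⊢
    by_contra hcon
    exact hn (ArithmeticFunction.one_apply_ne (by omega))
  | insert a s ha ih =>
    intro n hn
    rw [Finset.prod_insert ha] at hn ⊢
    exact Dpm_supp (hf a (Finset.mem_insert_self a s))
      (ih fun i hi => hf i (Finset.mem_insert_of_mem hi)) n hn

theorem dp_prod {ι : Type*} [DecidableEq ι] (s : Finset ι) (f : ι → ArithmeticFunction ℂ) (N : ι → ℕ)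
    (hf : ∀ i ∈ s, ∀ n, f i n ≠ 0 → n ≤ N i) (t : ℝ) :
    DP (⇑(∏ i ∈ s, f i)) (∏ i ∈ s, N i) t = ∏ i ∈ s, DP (f i) (N i) t := by
  induction s using Finset.induction_on with
  | empty => simpa using Dpm_one t
  | insert a s ha ih =>
    have h1 : ∀ i ∈ s, ∀ n, f i n ≠ 0 → n ≤ N i := fun i hi => hf i (Finset.mem_insert_of_mem hi)
    rw [Finset.prod_insert ha, Finset.prod_insert ha, Finset.prod_insert ha,
      dp_mul _ _ _ _ (hf a (Finset.mem_insert_self a s)) (Dpm_prod_supp s f N h1), ih h1]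

theorem dp_cont (f : ℕ → ℂ) (N : ℕ) : Continuous (DP f N) := by
  have h1 : DP f N = fun t => ∑ n ∈ Icc 1 N, f n * Pool.Agent.H91.PK.ee (t * Real.log n) := rfl
  rw [h1]
  refine continuous_finsetSum _ fun n _ => continuous_const.mul ?_
  unfold Pool.Agent.H91.PK.ee
  fun_prop

theorem dp_norm_le (f : ℕ → ℂ) (N : ℕ) (t : ℝ) : ‖DP f N t‖ ≤ ∑ n ∈ Icc 1 N, ‖f n‖ := by
  unfold DP
  refine (norm_sum_le _ _).trans (Finset.sum_le_sum fun n _ => ?_)
  rw [norm_mul, Dpm_norm_ee, mul_one]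

theorem tw_mul {d : ℕ} (χ : DirichletCharacter ℂ d) (f g : ArithmeticFunction ℝ) :
    tw χ (f * g) = tw χ f * tw χ g := by
  ext n
  rw [ArithmeticFunction.mul_apply]
  have h1 : tw χ (f * g) n = (((f * g) n : ℝ) : ℂ) * χ (n : ZMod d) := rfl
  rw [h1, ArithmeticFunction.mul_apply]
  push_cast
  rw [Finset.sum_mul]
  refine Finset.sum_congr rfl fun p hp => ?_
  rw [Nat.mem_divisorsAntidiagonal] at hp
  have h2 : tw χ f p.1 = ((f p.1 : ℝ) : ℂ) * χ (p.1 : ZMod d) := rfl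
  have h3 : tw χ g p.2 = ((g p.2 : ℝ) : ℂ) * χ (p.2 : ZMod d) := rfl
  rw [h2, h3, ← hp.1, Nat.cast_mul, map_mul]
  ring

theorem tw_prod {d : ℕ} (χ : DirichletCharacter ℂ d) {ι : Type*} [DecidableEq ι] (s : Finset ι)
    (f : ι → ArithmeticFunction ℝ) (hd : d ≠ 0) : tw χ (∏ i ∈ s, f i) = ∏ i ∈ s, tw χ (f i) := by
  induction s using Finset.induction_on with
  | empty =>
    rw [Finset.prod_empty, Finset.prod_empty]
    ext n
    have h1 : tw χ 1 n = ((((1 : ArithmeticFunction ℝ) n : ℝ)) : ℂ) * χ (n : ZMod d) := rfl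
    rw [h1]
    by_cases h2 : n = 1
    · subst h2
      simp
    · rw [ArithmeticFunction.one_apply_ne h2, ArithmeticFunction.one_apply_ne h2]
      simp
  | insert a s ha ih => rw [Finset.prod_insert ha, Finset.prod_insert ha, tw_mul, ih]

end Pool.Agent.H88.PSI

end

section

/-!
# PSI BoxD: boxes of factors (definition) and trivial bounds
-/

set_option autoImplicit false

namespace Pool.Agent.H88.PSI

open Finset MeasureTheory

/-- `r ≤ 6` factors `g i` supported on `[N i, 2 N i)`, bounded by `2 log X`, `N i ≤ X^(11/24)`, `∏ N i ≤ 3 X` -/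
structure Box (X : ℕ) {r : ℕ} (N : Fin r → ℕ) (g : Fin r → ArithmeticFunction ℂ) : Prop where
  hr : r ≤ 6
  one : ∀ i, 1 ≤ N i
  top : ∀ i, (N i : ℝ) ≤ (X : ℝ) ^ (11 / 24 : ℝ)
  prod : ∏ i, N i ≤ 3 * X
  supp : ∀ i n, g i n ≠ 0 → N i ≤ n ∧ n < 2 * N i
  bd : ∀ i n, ‖g i n‖ ≤ 2 * Real.log X

/-- the absolute value of the Dirichlet polynomial of the box -/
noncomputable def FF {r : ℕ} (N : Fin r → ℕ) (g : Fin r → ArithmeticFunction ℂ) (t : ℝ) : ℝ :=
  ∏ i, ‖DP (g i) (2 * N i) t‖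

theorem ff_cont {r : ℕ} (N : Fin r → ℕ) (g : Fin r → ArithmeticFunction ℂ) :
    Continuous (FF N g) := by
  unfold FF
  exact continuous_finsetProd _ fun i _ => (dp_cont _ _).norm

theorem ff_nonneg {r : ℕ} (N : Fin r → ℕ) (g : Fin r → ArithmeticFunction ℂ) (t : ℝ) :
    0 ≤ FF N g t := by
  unfold FF
  exact Finset.prod_nonneg fun i _ => norm_nonneg _

/-- the trivial bound for one factor -/
theorem box_tr {X r : ℕ} {N : Fin r → ℕ} {g : Fin r → ArithmeticFunction ℂ} (h : Box X N g)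
    (i : Fin r) (t : ℝ) : ‖DP (g i) (2 * N i) t‖ ≤ 2 * Real.log X * N i := by
  have hL : 0 ≤ 2 * Real.log X := (norm_nonneg _).trans (h.bd i 1)
  refine (dp_norm_le _ _ t).trans ?_
  have h1 : ∑ n ∈ Icc 1 (2 * N i), ‖g i n‖ = ∑ n ∈ Ico (N i) (2 * N i), ‖g i n‖ := by
    symm
    apply sum_subset
    · intro n hn
      have h2 := mem_Ico.mp hn
      have h3 := h.one i
      exact mem_Icc.mpr ⟨by omega, by omega⟩
    · intro n _ hn
      by_contra h0
      have h4 : g i n ≠ 0 := fun h5 => h0 (by rw [h5, norm_zero])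
      exact hn (mem_Ico.mpr (h.supp i n h4))
  rw [h1]
  calc ∑ n ∈ Ico (N i) (2 * N i), ‖g i n‖ ≤ ∑ n ∈ Ico (N i) (2 * N i), 2 * Real.log X :=
        sum_le_sum fun n _ => h.bd i n
    _ = 2 * Real.log X * N i := by
        rw [sum_const, Nat.card_Ico, nsmul_eq_mul, mul_comm]
        congr 1
        have : 2 * N i - N i = N i := by omega
        rw [this]

end Pool.Agent.H88.PSI

end

section

/-!
# PSI Mvt: mean value theorem

From `Pool.Agent.H35.W.mean_v` (`Pool/Agent/H35/W/MeanV.lean`) with `a m = √m b m` and the substitution `t ↦ 2 π t`.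
`tail_int`: dyadic pieces `2^j T ≤ |t| ≤ 2^(j+1) T` (or monotone convergence): `∑_j (2^j T)^(-2) (2^(j+2) T + 4 M (1+log M)) S`.
-/

set_option autoImplicit false

namespace Pool.Agent.H88.PSI

open Finset MeasureTheory

private theorem Mvt_pt (b : ℕ → ℂ) (M : ℕ) (t : ℝ) :
    ∑ m ∈ Icc 1 M, (((Real.sqrt m : ℝ) : ℂ) * b m) *
      (m : ℂ) ^ (-(1 / 2 : ℂ) + ((2 * Real.pi * t : ℝ) : ℂ) * Complex.I) = DP b M t := by
  unfold DP
  refine Finset.sum_congr rfl fun m hm => ?_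
  have hm' := Finset.mem_Icc.1 hm
  have hm0 : (m : ℂ) ≠ 0 := by exact_mod_cast (show m ≠ 0 by omega)
  have hmr : (0 : ℝ) < m := by exact_mod_cast (show 0 < m by omega)
  rw [Complex.cpow_add _ _ hm0]
  have e1 : (m : ℂ) ^ (-(1 / 2 : ℂ)) = (((m : ℝ) ^ (-(1 / 2) : ℝ) : ℝ) : ℂ) := by
    rw [Complex.ofReal_cpow hmr.le]
    push_cast
    rfl
  have e2 : ((Real.sqrt m : ℝ) : ℂ) * (m : ℂ) ^ (-(1 / 2 : ℂ)) = 1 := by
    rw [e1, ← Complex.ofReal_mul, Real.sqrt_eq_rpow, ← Real.rpow_add hmr]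
    norm_num
  have e3 : (m : ℂ) ^ (((2 * Real.pi * t : ℝ) : ℂ) * Complex.I) =
      Pool.Agent.H91.PK.ee (t * Real.log m) := by
    unfold Pool.Agent.H91.PK.ee
    rw [Complex.cpow_def_of_ne_zero hm0, ← Complex.natCast_log]
    congr 1
    push_cast
    ring
  rw [e3]
  calc ((Real.sqrt m : ℝ) : ℂ) * b m * ((m : ℂ) ^ (-(1 / 2 : ℂ)) *
        Pool.Agent.H91.PK.ee (t * Real.log m)) =
        (((Real.sqrt m : ℝ) : ℂ) * (m : ℂ) ^ (-(1 / 2 : ℂ))) *
          (b m * Pool.Agent.H91.PK.ee (t * Real.log m)) := by ring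
    _ = _ := by rw [e2, one_mul]

private theorem Mvt_SS_nonneg (b : ℕ → ℂ) (M : ℕ) : 0 ≤ SS b M :=
  Finset.sum_nonneg fun _ _ => sq_nonneg _

private theorem Mvt_log (M : ℕ) : 0 ≤ 1 + Real.log M := by
  have := Real.log_natCast_nonneg M
  linarith

theorem mvt (b : ℕ → ℂ) (M : ℕ) (T : ℝ) (hM : 1 ≤ M) (hT : 0 ≤ T) :
    ∫ t in Set.Icc (-T) T, ‖DP b M t‖ ^ 2 ≤ (2 * T + 4 * M * (1 + Real.log M)) * SS b M := by
  have hpi := Real.pi_pos
  have h := Pool.Agent.H35.W.mean_v (fun m => ((Real.sqrt m : ℝ) : ℂ) * b m) M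
    (2 * Real.pi * T) hM (by positivity)
  have e1 : ∑ m ∈ Icc 1 M, ‖(fun m : ℕ => ((Real.sqrt m : ℝ) : ℂ) * b m) m‖ ^ 2 / m = SS b M := by
    unfold SS
    refine Finset.sum_congr rfl fun m hm => ?_
    have hm' := Finset.mem_Icc.1 hm
    have hmr : (0 : ℝ) < m := by exact_mod_cast (show 0 < m by omega)
    show ‖((Real.sqrt m : ℝ) : ℂ) * b m‖ ^ 2 / m = _
    rw [norm_mul, Complex.norm_real, Real.norm_of_nonneg (Real.sqrt_nonneg _), mul_pow,
      Real.sq_sqrt hmr.le]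
    field_simp
  rw [e1] at h
  rw [integral_Icc_eq_integral_Ioc, ← intervalIntegral.integral_of_le (by linarith : -T ≤ T)]
  have e2 : ∫ t in (-T)..T, ‖DP b M t‖ ^ 2 = (2 * Real.pi)⁻¹ • ∫ u in
      (2 * Real.pi * -T)..(2 * Real.pi * T), ‖∑ m ∈ Icc 1 M, (((Real.sqrt m : ℝ) : ℂ) * b m) *
      (m : ℂ) ^ (-(1 / 2 : ℂ) + (u : ℂ) * Complex.I)‖ ^ 2 := by
    rw [← intervalIntegral.integral_comp_mul_left (fun u : ℝ => ‖∑ m ∈ Icc 1 M,
      (((Real.sqrt m : ℝ) : ℂ) * b m) * (m : ℂ) ^ (-(1 / 2 : ℂ) + (u : ℂ) * Complex.I)‖ ^ 2)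
      (by positivity : 2 * Real.pi ≠ 0)]
    refine intervalIntegral.integral_congr fun t _ => ?_
    show ‖DP b M t‖ ^ 2 = _
    rw [← Mvt_pt b M t]
  rw [e2, smul_eq_mul, show 2 * Real.pi * -T = -(2 * Real.pi * T) by ring]
  have h2 := mul_le_mul_of_nonneg_left h (by positivity : 0 ≤ (2 * Real.pi)⁻¹)
  refine h2.trans ?_
  rw [← mul_assoc]
  refine mul_le_mul_of_nonneg_right ?_ (Mvt_SS_nonneg b M)
  have h3 : (2 * Real.pi)⁻¹ * (2 * (2 * Real.pi * T) + 4 * M * (1 + Real.log M)) =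
      2 * T + (2 * Real.pi)⁻¹ * (4 * M * (1 + Real.log M)) := by
    field_simp
  rw [h3]
  have h4 : (2 * Real.pi)⁻¹ ≤ 1 := by
    have := Real.pi_gt_three
    exact inv_le_one_of_one_le₀ (by linarith)
  have h5 : 0 ≤ 4 * M * (1 + Real.log M) := mul_nonneg (by positivity) (Mvt_log M)
  have h6 := mul_le_mul_of_nonneg_right h4 h5
  linarith

end Pool.Agent.H88.PSI

end

section

/-!
# PSI Cov: if the product is large, some factor is large

Otherwise every `i` has `v i ≤ 2 L X^(κ/24) (N i)^(s-κ)` (if `N i < X^(κ/24)` by `v i ≤ 2 L N i` and `(N i)^(s-κ) ≥ 1`; if not by `v i < (N i)^(s-κ)`), so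
`∏ v i ≤ (2 L)^6 X^(κ/4) (3 X)^(s-κ) ≤ 9 (2 L)^6 X^(s-3κ/4) ≤ X^(s-κ/4)` (`r ≤ 6`; factors `2 L X^(κ/24) ≥ 1`), a contradiction.
-/

set_option autoImplicit false

namespace Pool.Agent.H88.PSI

open Finset

private theorem Cov_large {κ : ℝ} (hκ : 0 < κ) : ∃ X0 : ℕ, ∀ X : ℕ, X0 ≤ X →
    3 * (2 * Real.log X) ^ 6 ≤ (X : ℝ) ^ (κ / 2) := by
  have h1 := (isLittleO_log_rpow_rpow_atTop (6 : ℝ) (by positivity : 0 < κ / 2)).bound
    (by norm_num : (0 : ℝ) < 1 / 192)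
  have h2 : ∀ᶠ X : ℕ in Filter.atTop, ‖Real.log (X : ℝ) ^ (6 : ℝ)‖ ≤
      1 / 192 * ‖(X : ℝ) ^ (κ / 2)‖ := tendsto_natCast_atTop_atTop.eventually h1
  obtain ⟨X0, hX0⟩ := Filter.eventually_atTop.mp (h2.and (Filter.eventually_ge_atTop 1))
  refine ⟨X0, fun X hX => ?_⟩
  obtain ⟨h3, h4⟩ := hX0 X hX
  have h5 : (0 : ℝ) ≤ (X : ℝ) ^ (κ / 2) := Real.rpow_nonneg (Nat.cast_nonneg _) _
  rw [Real.norm_of_nonneg h5] at h3
  have h6 : Real.log (X : ℝ) ^ (6 : ℝ) = Real.log (X : ℝ) ^ 6 := by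
    rw [← Real.rpow_natCast]
    norm_num
  rw [h6] at h3
  have h7 := (le_abs_self _).trans h3
  have h8 : 3 * (2 * Real.log (X : ℝ)) ^ 6 = 192 * Real.log (X : ℝ) ^ 6 := by ring
  rw [h8]
  linarith

theorem cov (κ : ℝ) (hκ : 0 < κ) (hκ' : κ ≤ 1 / 4) : ∃ X0 : ℕ, ∀ X : ℕ, X0 ≤ X →
    ∀ (r : ℕ) (N : Fin r → ℕ) (v : Fin r → ℝ) (s : ℝ), r ≤ 6 → (∀ i, 1 ≤ N i) →
    ∏ i, N i ≤ 3 * X → (∀ i, 0 ≤ v i) → (∀ i, v i ≤ 2 * Real.log X * N i) → 1 / 2 ≤ s →
    s ≤ 1 + κ → (X : ℝ) ^ (s - κ / 4) < ∏ i, v i →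
    ∃ i, (X : ℝ) ^ (κ / 24) ≤ N i ∧ (N i : ℝ) ^ (s - κ) ≤ v i := by
  obtain ⟨X0, hX0⟩ := Cov_large hκ
  refine ⟨max X0 2, fun X hX r N v s hr hN hprod hv0 hv hs hs' hbig => ?_⟩
  have hlarge := hX0 X ((le_max_left _ _).trans hX)
  have hX2 : 2 ≤ X := (le_max_right _ _).trans hX
  have hXr : (2 : ℝ) ≤ X := by exact_mod_cast hX2
  have hX0' : (0 : ℝ) < X := by linarith
  have hL : 1 ≤ 2 * Real.log X := by
    have h1 : Real.log 2 ≤ Real.log X := Real.log_le_log (by norm_num) hXr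
    have h2 := Real.log_two_gt_d9
    linarith
  have he : 0 ≤ s - κ := by linarith
  have hXk : 1 ≤ (X : ℝ) ^ (κ / 24) := Real.one_le_rpow (by linarith) (by positivity)
  by_contra hcon
  push Not at hcon
  obtain ⟨B, hB⟩ : ∃ B, B = 2 * Real.log X * (X : ℝ) ^ (κ / 24) := ⟨_, rfl⟩
  have hB1 : 1 ≤ B := by
    rw [hB]
    exact one_le_mul_of_one_le_of_one_le hL hXk
  have hNe : ∀ i, 1 ≤ (N i : ℝ) ^ (s - κ) := fun i =>
    Real.one_le_rpow (by exact_mod_cast hN i) he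
  have key : ∀ i, v i ≤ B * (N i : ℝ) ^ (s - κ) := by
    intro i
    rcases lt_or_ge (N i : ℝ) ((X : ℝ) ^ (κ / 24)) with h1 | h1
    · have h2 : v i ≤ B := by
        refine (hv i).trans ?_
        rw [hB]
        exact mul_le_mul_of_nonneg_left h1.le (by linarith)
      have h3 : B ≤ B * (N i : ℝ) ^ (s - κ) := le_mul_of_one_le_right (by linarith) (hNe i)
      exact h2.trans h3
    · have h2 := (hcon i h1).le
      have h3 : (N i : ℝ) ^ (s - κ) ≤ B * (N i : ℝ) ^ (s - κ) :=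
        le_mul_of_one_le_left (by linarith [hNe i]) hB1
      exact h2.trans h3
  have h1 : ∏ i, v i ≤ B ^ 6 * (3 * (X : ℝ)) ^ (s - κ) := by
    refine (Finset.prod_le_prod (fun i _ => hv0 i) fun i _ => key i).trans ?_
    rw [Finset.prod_mul_distrib, Finset.prod_const, Finset.card_univ, Fintype.card_fin]
    refine mul_le_mul (pow_le_pow_right₀ hB1 hr) ?_
      (Finset.prod_nonneg fun i _ => by linarith [hNe i]) (by positivity)
    rw [Real.finsetProd_rpow _ _ fun i _ => Nat.cast_nonneg _]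
    refine Real.rpow_le_rpow (Finset.prod_nonneg fun i _ => Nat.cast_nonneg _) ?_ he
    exact_mod_cast hprod
  have h2 : (3 * (X : ℝ)) ^ (s - κ) ≤ 3 * (X : ℝ) ^ (s - κ) := by
    rw [Real.mul_rpow (by norm_num) hX0'.le]
    refine mul_le_mul_of_nonneg_right ?_ (Real.rpow_nonneg hX0'.le _)
    calc (3 : ℝ) ^ (s - κ) ≤ (3 : ℝ) ^ (1 : ℝ) :=
          Real.rpow_le_rpow_of_exponent_le (by norm_num) (by linarith)
      _ = 3 := Real.rpow_one 3
  have h3 : B ^ 6 = (2 * Real.log X) ^ 6 * (X : ℝ) ^ (κ / 4) := by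
    rw [hB, mul_pow, ← Real.rpow_natCast ((X : ℝ) ^ (κ / 24)) 6, ← Real.rpow_mul hX0'.le]
    congr 2
    push_cast
    ring
  have h4 : B ^ 6 * (3 * (X : ℝ) ^ (s - κ)) ≤ (X : ℝ) ^ (s - κ / 4) := by
    have e1 : B ^ 6 * (3 * (X : ℝ) ^ (s - κ)) =
        3 * (2 * Real.log X) ^ 6 * ((X : ℝ) ^ (κ / 4) * (X : ℝ) ^ (s - κ)) := by
      rw [h3]
      ring
    have e2 : (X : ℝ) ^ (s - κ / 4) = (X : ℝ) ^ (κ / 2) * ((X : ℝ) ^ (κ / 4) * (X : ℝ) ^ (s - κ)) := by
      rw [← Real.rpow_add hX0', ← Real.rpow_add hX0']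
      congr 1
      ring
    rw [e1, e2]
    exact mul_le_mul_of_nonneg_right hlarge
      (mul_nonneg (Real.rpow_nonneg hX0'.le _) (Real.rpow_nonneg hX0'.le _))
  have h5 : B ^ 6 * (3 * (X : ℝ)) ^ (s - κ) ≤ B ^ 6 * (3 * (X : ℝ) ^ (s - κ)) :=
    mul_le_mul_of_nonneg_left h2 (by positivity)
  linarith

end Pool.Agent.H88.PSI

end

section

set_option autoImplicit false

namespace Pool.Agent.H97.VK

open Finset
open Pool.Agent.H91.EHA
open Pool.Agent.H91.PK (ee)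

/-- the statement of `psum` -/
def psum_P : Prop := ∀ (A B : ℕ),
    ∃ K' x0 : ℕ, ∀ x : ℕ, x0 ≤ x → ∀ (d : ℕ) (χ : DirichletCharacter ℂ d) (t : ℝ) (v : ℕ),
    1 ≤ d → (d : ℝ) ≤ Real.log x ^ B → Real.log x ^ K' ≤ |t| → |t| ≤ (x : ℝ) ^ (3 : ℕ) → Yx x + 1 ≤ v →
    ‖∑ n ∈ Icc 1 v, χ (n : ZMod d) * ee (t * Real.log n)‖ ≤ v / Real.log x ^ A

/-- the statement of `lk_up` -/
def lk_up_P : Prop := ∀ (k B : ℕ),
    ∃ C : ℝ, 1 ≤ C ∧ ∃ K' x0 : ℕ, ∀ x : ℕ, x0 ≤ x → ∀ (d : ℕ) (χ : DirichletCharacter ℂ d) (s : ℂ),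
    1 ≤ d → (d : ℝ) ≤ Real.log x ^ B → 1 + 1 / (4 * Real.log x) ≤ s.re → s.re ≤ 2 →
    Real.log x ^ K' ≤ |s.im| → |s.im| ≤ 6 * (x : ℝ) ^ (3 : ℕ) →
    ‖Lk (qm x d) (ch x χ) k s‖ ≤ C * L9 x ^ k * LL x ^ (k + 1)

/-- the statement of `sm_sharp_w` -/
def sm_sharp_w_P : Prop := ∀ (k κ B : ℕ) (hκ : 1 ≤ κ),
    ∃ C : ℝ, 1 ≤ C ∧ ∃ K' x0 : ℕ, ∀ x : ℕ, x0 ≤ x →
    ∀ (d : ℕ) (χ : DirichletCharacter ℂ d) (t : ℝ) (v z : ℕ), 1 ≤ d → (d : ℝ) ≤ Real.log x ^ B →
    Real.exp (Real.log x ^ (19 / 20 : ℝ)) ≤ z → z ≤ x ^ 2 → v ≤ z → Real.log x ^ K' ≤ |t| → |t| ≤ (x : ℝ) ^ (2 : ℕ) →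
    ‖∑ n ∈ Icc 1 v, ((Lam n * Real.log n ^ k : ℝ) : ℂ) * ch x χ (n : ZMod (qm x d)) * ee (t * Real.log n)‖ ≤
      C * z * (L9 x ^ (k + 1) * LL x ^ (20 * (k + 1)) * Real.log x ^ (3 * κ) +
        Real.log (2 * z) ^ (k + 1) / Real.log x ^ κ)

/-- the statement of `vk_chi_w` -/
def vk_chi_w_P : Prop := ∀ (K B : ℕ),
    ∃ K' x0 : ℕ, ∀ x : ℕ, x0 ≤ x →
    ∀ (d : ℕ) (χ : DirichletCharacter ℂ d) (t : ℝ) (z : ℕ), 1 ≤ d → (d : ℝ) ≤ Real.log x ^ B →
    Real.exp (Real.log x ^ (19 / 20 : ℝ)) ≤ z → z ≤ x ^ 2 → Real.log x ^ K' ≤ |t| → |t| ≤ (x : ℝ) ^ (2 : ℕ) →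
    ‖∑ n ∈ Icc 1 z, ((Lam n : ℝ) : ℂ) * χ (n : ZMod d) * ee (t * Real.log n)‖ ≤ z / Real.log x ^ K

end Pool.Agent.H97.VK

end

section

/-!
# PSI BoxL: the integral over a small set, given a bound for the longest factor

`i` with `N i` maximal: `N i ≥ (X/2^r)^(1/r) ≥ X^(1/7)`, so `hp` applies to it.  `G = ∏_{i' ≠ i} g i'` (`dp_prod`),
`K' = ∏_{i' ≠ i} 2 N i'`, `X^(1/3) ≤ K' ≤ X` (`N i ≤ X^(11/24)`, `X ≤ 2^r ∏ N`, `∏ N ≤ 3X`).  `Pool.Agent.H80.LV.hm (1/3)`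
(`Pool/Agent/H80/LV/HM.lean`; it has the same sums): `∫_B |DP G K'|^2 ≤ K' L^2 SS G K'`, `SS G K' ≤ K' L^C` (`prod_bd`, `tau_mom`).
`∫_B FF^2 ≤ (N i/L^K)^2 K'^2 L^(C+2) ≤ 4^r 9 X^2 L^(C+2-2K) ≤ X^2/L^A` for `K` large.
-/

set_option autoImplicit false

namespace Pool.Agent.H88.PSI

open Finset MeasureTheory

/-- the longest factor is long -/
theorem BoxL_long {X r : ℕ} {N : Fin r → ℕ} (hr : r ≤ 6) (hX : 2 ≤ X)
    (hP : X ≤ 2 ^ r * ∏ i, N i) (h1 : ∀ i, 1 ≤ N i) :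
    ∃ i : Fin r, (X : ℝ) ^ (1 / 6 : ℝ) ≤ 2 * N i := by
  have hne : (univ : Finset (Fin r)).Nonempty := by
    by_contra hcon
    rw [not_nonempty_iff_eq_empty] at hcon
    rw [hcon, prod_empty] at hP
    have hr0 : r = 0 := by
      by_contra h
      have : (⟨0, Nat.pos_of_ne_zero h⟩ : Fin r) ∈ (univ : Finset (Fin r)) := mem_univ _
      rw [hcon] at this
      exact absurd this (notMem_empty _)
    rw [hr0] at hP
    omega
  obtain ⟨i, _, hi⟩ := exists_max_image univ N hne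
  refine ⟨i, ?_⟩
  have h2 : X ≤ (2 * N i) ^ 6 := by
    calc X ≤ 2 ^ r * ∏ i, N i := hP
      _ ≤ 2 ^ r * ∏ _j : Fin r, N i := by
          apply Nat.mul_le_mul_left
          exact prod_le_prod' fun j _ => hi j (mem_univ _)
      _ = (2 * N i) ^ r := by
          rw [prod_const, card_univ, Fintype.card_fin, mul_pow]
      _ ≤ (2 * N i) ^ 6 := Nat.pow_le_pow_right (by have := h1 i; omega) hr
  have h3 : (X : ℝ) ≤ (2 * N i : ℝ) ^ (6 : ℝ) := by
    rw [show (6 : ℝ) = ((6 : ℕ) : ℝ) by norm_num, Real.rpow_natCast]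
    exact_mod_cast h2
  calc (X : ℝ) ^ (1 / 6 : ℝ) ≤ ((2 * N i : ℝ) ^ (6 : ℝ)) ^ (1 / 6 : ℝ) :=
        Real.rpow_le_rpow (by positivity) h3 (by norm_num)
    _ = 2 * N i := by
        rw [← Real.rpow_mul (by positivity)]
        norm_num

end Pool.Agent.H88.PSI

end

section

/-!
# Project EP : elements of the Selberg class of every large real degree

Definitions.  (helper97, MP_e68f0a_nt)

Notation: `d > 4` the degree, `w = d/2`, `κ = 2/d = 1/w`, `Q` large, `u_n = (n/Q)^κ`.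
Test functions: real combinations of `p_t(u) = e^{-tu} - t^{-w} e^{-u/t}`, `t > 0`.
-/

set_option autoImplicit false
open MeasureTheory Set
open scoped ENNReal

namespace Pool.Agent.H97.EP

/-- Every interval `(x, x+y]`, `x ≥ x0`, `x^θ ≤ y ≤ x`, contains at least `c y / log x` primes. -/
def PrimesIn (θ : ℝ) : Prop := ∃ c x0 : ℝ, 0 < c ∧ ∀ x : ℝ, x0 ≤ x → ∀ y : ℝ, x ^ θ ≤ y → y ≤ x →
  c * (y / Real.log x) ≤ (((Finset.Ioc ⌊x⌋₊ ⌊x + y⌋₊).filter Nat.Prime).card : ℝ)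

/-- Finitely supported real families indexed by the positive reals. -/
abbrev VR : Type := {t : ℝ // 0 < t} →₀ ℝ

/-- The test function `∑ c_t (e^{-tu} - t^{-w} e^{-u/t})`. -/
noncomputable def pr (w : ℝ) (f : VR) (u : ℝ) : ℝ :=
  f.sum fun t c => c * (Real.exp (-(t.1 * u)) - t.1 ^ (-w) * Real.exp (-(u / t.1)))

/-- The derivative of order `s` (with sign): `∑ c_t (t^s e^{-tu} - t^{-w-s} e^{-u/t})`. -/
noncomputable def dr (w s : ℝ) (f : VR) (u : ℝ) : ℝ :=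
  f.sum fun t c => c * (t.1 ^ s * Real.exp (-(t.1 * u)) -
    t.1 ^ (-w - s) * Real.exp (-(u / t.1)))

/-- The weighted square integral `∫_0^∞ u^e g(u)^2 du`. -/
noncomputable def MM (e : ℝ) (g : ℝ → ℝ) : ℝ≥0∞ :=
  ∫⁻ u in Ioi (0 : ℝ), ENNReal.ofReal (u ^ e * g u ^ 2)

/-- The node `(n/Q)^{2/d}`. -/
noncomputable def nd (d Q : ℝ) (n : ℕ) : ℝ := ((n : ℝ) / Q) ^ (2 / d)

/-- The exponents `δ_i = 2^{-i}/4`. -/
noncomputable def dl (i : ℕ) : ℝ := (1 / 2 : ℝ) ^ i / 4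

/-- The norm `∑_i 4^{-i} u_1^{δ_i} ∫ u^{d/2-δ_i} g(u)^2 du`, `u_1 = Q^{-2/d}`; its weight at `u_n`
is `≍ (n/Q) (1 + log n)^{-2}`. -/
noncomputable def NQ (d Q : ℝ) (g : ℝ → ℝ) : ℝ≥0∞ :=
  ∑' i : ℕ, ENNReal.ofReal ((1 / 4 : ℝ) ^ i * (Q ^ (-(2 / d))) ^ dl i) * MM (d / 2 - dl i) g

/-- The length of the `n`-interval of the cell `j h ≤ u_n < (j+1) h`. -/
noncomputable def cl (d Q h : ℝ) (j : ℕ) : ℝ := Q * (((j + 1 : ℝ) * h) ^ (d / 2) - ((j : ℝ) * h) ^ (d / 2))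

/-- The multiplicative function supported on squarefree integers with values `α p` at primes. -/
noncomputable def aa (α : ℕ → ℝ) (n : ℕ) : ℝ :=
  if Squarefree n then ∏ p ∈ n.primeFactors, α p else 0

end Pool.Agent.H97.EP

end

section

/-!
# Project EP, module `ANod` : cells of the nodes, primes in the cells

`w = d/2 > 2`, `κ = 2/d = 1/w`, `nd d Q n = (n/Q)^κ`; `y ≤ nd d Q n ↔ Q y^w ≤ n` and `nd d Q n < y ↔ n < Q y^w` for
`y ≥ 0` (see `nodes_lt`, `nodes_le` in `H97/SD/Nodes.lean`).  `cl d Q h j = Q((j+1)h)^w - Q(jh)^w`.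
`cell_up`: `n ≥ X = Q(jh)^w` gives `n^{κ-1} ≤ X^{κ-1} = Q^{κ-1} (jh)^{1-w}`; and
`cl ≤ Q w h ((j+1)h)^{w-1} ≤ Q w h 2^{w-1} (jh)^{w-1}` (mean value theorem, `j+1 ≤ 2j`).
`nodes`: `X = Q(jh)^w ≥ Q h^w`, `Y = cl/2^w`.  `cl ≤ (2^w - 1) X`, so `Y ≤ X`; Bernoulli `(1+1/j)^w ≥ 1 + w/j` gives
`cl ≥ w X/j ≥ w h X/(jh) = w h Q^κ X^{1-κ}`, so `Y ≥ X^{1-κ} ≥ X^θ` as soon as `w h Q^κ ≥ 2^w` and `X ≥ 1`.
The primes `p` in `Ioc ⌊X⌋₊ ⌊X+Y⌋₊` satisfy `X < p ≤ X + Y < X + cl` (`2^w ≥ 4`), so they lie in the cell `j`;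
there are at least `c Y/log X > 0` of them; and `log X ≤ log p`, `p ≤ 2^w X`, so
`card · log p ≥ c Y = c cl/2^w ≥ c w h Q^κ X^{1-κ}/2^w ≥ c w h Q^κ p^{1-κ}/2^{2w}`.
-/

set_option autoImplicit false
open MeasureTheory Set
open scoped ENNReal

namespace Pool.Agent.H97.EP

theorem nd_lt {d Q : ℝ} (hd : 4 < d) (hQ : 0 < Q) {y : ℝ} (hy : 0 ≤ y) (n : ℕ) :
    nd d Q n < y ↔ (n : ℝ) < Q * y ^ (d / 2) := by
  unfold nd
  have e : 2 / d = (d / 2)⁻¹ := by rw [inv_div]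
  rw [e, Real.rpow_inv_lt_iff_of_pos (by positivity) hy (by linarith), div_lt_iff₀ hQ, mul_comm]

theorem le_nd {d Q : ℝ} (hd : 4 < d) (hQ : 0 < Q) {y : ℝ} (hy : 0 ≤ y) (n : ℕ) :
    y ≤ nd d Q n ↔ Q * y ^ (d / 2) ≤ (n : ℝ) := by
  unfold nd
  have e : 2 / d = (d / 2)⁻¹ := by rw [inv_div]
  rw [e, Real.le_rpow_inv_iff_of_pos hy (by positivity) (by linarith), le_div_iff₀ hQ, mul_comm]

private theorem anod_upper {w a h : ℝ} (hw : 1 ≤ w) (ha : 0 < a) (hh : 0 < h) :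
    (a + h) ^ w - a ^ w ≤ w * h * (a + h) ^ (w - 1) := by
  have hb : 0 < a + h := by linarith
  have h1 := one_add_mul_self_le_rpow_one_add (s := -(h / (a + h))) (p := w) (by
    have : h / (a + h) ≤ 1 := by rw [div_le_one hb]; linarith
    linarith) hw
  have e1 : 1 + -(h / (a + h)) = a / (a + h) := by field_simp; ring
  rw [e1, Real.div_rpow ha.le hb.le] at h1
  have hbw : 0 < (a + h) ^ w := Real.rpow_pos_of_pos hb w
  rw [le_div_iff₀ hbw] at h1
  have e2 : (a + h) ^ w = (a + h) ^ (w - 1) * (a + h) := by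
    rw [← Real.rpow_add_one hb.ne']
    congr 1
    ring
  have e3 : (1 + w * -(h / (a + h))) * (a + h) ^ w = (a + h) ^ w - w * h * (a + h) ^ (w - 1) := by
    rw [e2]
    field_simp
    ring
  rw [e3] at h1
  linarith

private theorem anod_lower {w a h : ℝ} (hw : 1 ≤ w) (ha : 0 < a) (hh : 0 < h) :
    w * h * a ^ (w - 1) ≤ (a + h) ^ w - a ^ w := by
  have hb : 0 < a + h := by linarith
  have h0 : 0 ≤ h / a := by positivity
  have h1 := one_add_mul_self_le_rpow_one_add (s := h / a) (p := w) (by linarith) hw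
  have e1 : 1 + h / a = (a + h) / a := by field_simp
  rw [e1, Real.div_rpow hb.le ha.le] at h1
  have haw : 0 < a ^ w := Real.rpow_pos_of_pos ha w
  rw [le_div_iff₀ haw] at h1
  have e2 : a ^ w = a ^ (w - 1) * a := by
    rw [← Real.rpow_add_one ha.ne']
    congr 1
    ring
  have e3 : (1 + w * (h / a)) * a ^ w = a ^ w + w * h * a ^ (w - 1) := by
    rw [e2]
    field_simp
  rw [e3] at h1
  linarith

private theorem anod_pow {d Q a : ℝ} (_hd : 4 < d) (hQ : 0 < Q) (ha : 0 < a) (r : ℝ) :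
    (Q * a ^ (d / 2)) ^ r = Q ^ r * a ^ (d / 2 * r) := by
  rw [Real.mul_rpow hQ.le (by positivity), ← Real.rpow_mul ha.le]

private theorem anod_cl (d Q h : ℝ) (j : ℕ) :
    cl d Q h j = Q * (((j : ℝ) * h + h) ^ (d / 2) - ((j : ℝ) * h) ^ (d / 2)) := by
  unfold cl
  rw [add_mul, one_mul]

theorem cell_up {d Q h : ℝ} (hd : 4 < d) (hQ : 0 < Q) (hh : 0 < h) {j n : ℕ} (hj : 1 ≤ j)
    (hn : (j : ℝ) * h ≤ nd d Q n) :
    (n : ℝ) ^ (2 / d - 1) * cl d Q h j ≤ d / 2 * 2 ^ (d / 2 - 1) * h * Q ^ (2 / d) := by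
  have hj1 : (1 : ℝ) ≤ j := by exact_mod_cast hj
  rw [anod_cl]
  set a := (j : ℝ) * h with ha
  have ha0 : 0 < a := by positivity
  have hha : h ≤ a := by rw [ha]; nlinarith
  rw [le_nd hd hQ ha0.le] at hn
  have hX0 : 0 < Q * a ^ (d / 2) := by positivity
  have hk : 2 / d - 1 ≤ 0 := by
    have : 2 / d ≤ 1 := by rw [div_le_one (by linarith)]; linarith
    linarith
  have h1 : (n : ℝ) ^ (2 / d - 1) ≤ (Q * a ^ (d / 2)) ^ (2 / d - 1) :=
    Real.rpow_le_rpow_of_nonpos hX0 hn hk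
  have e1 : d / 2 * (2 / d - 1) = 1 - d / 2 := by
    field_simp
  rw [anod_pow hd hQ ha0, e1] at h1
  have h2 : (a + h) ^ (d / 2) - a ^ (d / 2) ≤ d / 2 * h * (2 ^ (d / 2 - 1) * a ^ (d / 2 - 1)) := by
    refine (anod_upper (by linarith) ha0 hh).trans ?_
    apply mul_le_mul_of_nonneg_left _ (by positivity)
    rw [← Real.mul_rpow (by norm_num) ha0.le]
    exact Real.rpow_le_rpow (by linarith) (by linarith) (by linarith)
  have h3 : 0 ≤ (a + h) ^ (d / 2) - a ^ (d / 2) := by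
    have := Real.rpow_le_rpow ha0.le (show a ≤ a + h by linarith) (show 0 ≤ d / 2 by linarith)
    linarith
  have e2 : Q ^ (2 / d - 1) * Q = Q ^ (2 / d) := by
    rw [← Real.rpow_add_one hQ.ne']
    congr 1
    ring
  have e3 : a ^ (1 - d / 2) * a ^ (d / 2 - 1) = 1 := by
    rw [← Real.rpow_add ha0]
    have : 1 - d / 2 + (d / 2 - 1) = 0 := by ring
    rw [this, Real.rpow_zero]
  calc (n : ℝ) ^ (2 / d - 1) * (Q * ((a + h) ^ (d / 2) - a ^ (d / 2)))
      ≤ (Q ^ (2 / d - 1) * a ^ (1 - d / 2)) *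
        (Q * (d / 2 * h * (2 ^ (d / 2 - 1) * a ^ (d / 2 - 1)))) := by
        apply mul_le_mul h1 _ (by positivity) (by positivity)
        exact mul_le_mul_of_nonneg_left h2 hQ.le
    _ = d / 2 * 2 ^ (d / 2 - 1) * h * (Q ^ (2 / d - 1) * Q) * (a ^ (1 - d / 2) * a ^ (d / 2 - 1)) := by
        ring
    _ = _ := by rw [e2, e3, mul_one]

theorem nodes {d θ h : ℝ} (hd : 4 < d) (hP : PrimesIn θ) (hθ : θ ≤ 1 - 2 / d) (hh : 0 < h) :
    ∃ Q0 c : ℝ, 1 ≤ Q0 ∧ 0 < c ∧ ∀ Q : ℝ, Q0 ≤ Q → ∀ j : ℕ, 1 ≤ j → ∃ S : Finset ℕ, S.Nonempty ∧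
      ∀ p ∈ S, p.Prime ∧ (j : ℝ) * h ≤ nd d Q p ∧ nd d Q p < ((j : ℝ) + 1) * h ∧
        c * (Q ^ (2 / d) * (p : ℝ) ^ (1 - 2 / d)) ≤ S.card * Real.log p := by
  obtain ⟨c0, x0, hc0, hPI⟩ := hP
  have hd0 : 0 < d := by linarith
  have hhw : 0 < h ^ (d / 2) := by positivity
  have h2w : (1 : ℝ) < 2 ^ (d / 2) := Real.one_lt_rpow (by norm_num) (by linarith)
  set q1 : ℝ := max x0 3 / h ^ (d / 2) with hq1
  set q2 : ℝ := (2 ^ (d / 2) / (d / 2 * h)) ^ (d / 2) with hq2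
  have hq2pos : 0 < q2 := by positivity
  refine ⟨max 1 (max q1 q2), c0 * (d / 2 * h) / (2 ^ (d / 2) * 2 ^ (d / 2)), le_max_left _ _,
    by positivity, fun Q hQ j hj => ?_⟩
  have hQ1 : 1 ≤ Q := (le_max_left _ _).trans hQ
  have hQ0 : 0 < Q := by linarith
  have hQq1 : q1 ≤ Q := ((le_max_left _ _).trans (le_max_right _ _)).trans hQ
  have hQq2 : q2 ≤ Q := ((le_max_right _ _).trans (le_max_right _ _)).trans hQ
  have hj1 : (1 : ℝ) ≤ j := by exact_mod_cast hj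
  set a := (j : ℝ) * h with ha
  have ha0 : 0 < a := by positivity
  have hha : h ≤ a := by rw [ha]; nlinarith
  set X : ℝ := Q * a ^ (d / 2) with hX
  set W : ℝ := Q * ((a + h) ^ (d / 2) - a ^ (d / 2)) with hW
  -- X is large
  have hXbig : max x0 3 ≤ X := by
    rw [hq1, div_le_iff₀ hhw] at hQq1
    refine hQq1.trans ?_
    exact mul_le_mul_of_nonneg_left (Real.rpow_le_rpow hh.le hha (by linarith)) hQ0.le
  have hXx0 : x0 ≤ X := (le_max_left _ _).trans hXbig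
  have hX3 : 3 ≤ X := (le_max_right _ _).trans hXbig
  have hX0 : 0 < X := by linarith
  have hQk : 2 ^ (d / 2) ≤ d / 2 * h * Q ^ (2 / d) := by
    have h1 := Real.rpow_le_rpow hq2pos.le hQq2 (show 0 ≤ 2 / d by positivity)
    rw [hq2, ← Real.rpow_mul (by positivity)] at h1
    have e : d / 2 * (2 / d) = 1 := by field_simp
    rw [e, Real.rpow_one, div_le_iff₀ (by positivity)] at h1
    linarith
  -- lower bound for W
  have hk0 : 0 ≤ 1 - 2 / d := by
    have : 2 / d ≤ 1 := by rw [div_le_one hd0]; linarith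
    linarith
  have hWlow : d / 2 * h * Q ^ (2 / d) * X ^ (1 - 2 / d) ≤ W := by
    have h1 := anod_lower (w := d / 2) (by linarith) ha0 hh
    have e1 : d / 2 * (1 - 2 / d) = d / 2 - 1 := by field_simp
    have e2 : Q ^ (2 / d) * Q ^ (1 - 2 / d) = Q := by
      rw [← Real.rpow_add hQ0, show 2 / d + (1 - 2 / d) = 1 by ring, Real.rpow_one]
    rw [hX, anod_pow hd hQ0 ha0, e1]
    calc d / 2 * h * Q ^ (2 / d) * (Q ^ (1 - 2 / d) * a ^ (d / 2 - 1))
        = (Q ^ (2 / d) * Q ^ (1 - 2 / d)) * (d / 2 * h * a ^ (d / 2 - 1)) := by ring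
      _ = Q * (d / 2 * h * a ^ (d / 2 - 1)) := by rw [e2]
      _ ≤ W := mul_le_mul_of_nonneg_left h1 hQ0.le
  have hW2 : W + X ≤ 2 ^ (d / 2) * X := by
    have h1 : (a + h) ^ (d / 2) ≤ (2 * a) ^ (d / 2) :=
      Real.rpow_le_rpow (by linarith) (by linarith) (by linarith)
    rw [Real.mul_rpow (by norm_num) ha0.le] at h1
    have h2 := mul_le_mul_of_nonneg_left h1 hQ0.le
    have e : W + X = Q * (a + h) ^ (d / 2) := by rw [hW, hX]; ring
    rw [e, hX]
    linarith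
  have hXk : 0 < X ^ (1 - 2 / d) := Real.rpow_pos_of_pos hX0 _
  have hWpos : 0 < W := lt_of_lt_of_le (by positivity) hWlow
  set Y : ℝ := W / 2 ^ (d / 2) with hY
  have h2w0 : (0 : ℝ) < 2 ^ (d / 2) := by positivity
  have hYpos : 0 < Y := by positivity
  have hYX : Y ≤ X := by
    rw [hY, div_le_iff₀ h2w0]
    linarith
  have hYW : Y < W := by
    rw [hY, div_lt_iff₀ h2w0]
    nlinarith
  have hYlow : X ^ θ ≤ Y := by
    have h1 : X ^ θ ≤ X ^ (1 - 2 / d) := Real.rpow_le_rpow_of_exponent_le (by linarith) hθ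
    rw [hY, le_div_iff₀ h2w0]
    calc X ^ θ * 2 ^ (d / 2) ≤ X ^ (1 - 2 / d) * (d / 2 * h * Q ^ (2 / d)) :=
          mul_le_mul h1 hQk h2w0.le hXk.le
      _ = d / 2 * h * Q ^ (2 / d) * X ^ (1 - 2 / d) := by ring
      _ ≤ W := hWlow
  have hcard := hPI X hXx0 Y hYlow hYX
  have hlogX : 0 < Real.log X := Real.log_pos (by linarith)
  refine ⟨(Finset.Ioc ⌊X⌋₊ ⌊X + Y⌋₊).filter Nat.Prime, ?_, ?_⟩
  · rw [← Finset.card_pos]
    have : (0 : ℝ) < (((Finset.Ioc ⌊X⌋₊ ⌊X + Y⌋₊).filter Nat.Prime).card : ℝ) :=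
      lt_of_lt_of_le (by positivity) hcard
    exact_mod_cast this
  · intro p hp
    rw [Finset.mem_filter, Finset.mem_Ioc] at hp
    obtain ⟨⟨hp1, hp2⟩, hpp⟩ := hp
    have hp1' : X < p := Nat.lt_of_floor_lt hp1
    have hp2' : (p : ℝ) ≤ X + Y := by
      rwa [Nat.le_floor_iff (by linarith)] at hp2
    have hp0 : (0 : ℝ) < p := by linarith
    refine ⟨hpp, ?_, ?_, ?_⟩
    · rw [le_nd hd hQ0 ha0.le]
      exact hp1'.le
    · have e : ((j : ℝ) + 1) * h = a + h := by rw [ha]; ring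
      rw [e, nd_lt hd hQ0 (by linarith)]
      have : Q * (a + h) ^ (d / 2) = X + W := by rw [hW, hX]; ring
      rw [this]
      linarith
    · have hlogp : Real.log X ≤ Real.log p := Real.log_le_log hX0 hp1'.le
      have hc1 : c0 * Y ≤ (((Finset.Ioc ⌊X⌋₊ ⌊X + Y⌋₊).filter Nat.Prime).card : ℝ)
          * Real.log p := by
        calc c0 * Y = c0 * (Y / Real.log X) * Real.log X := by field_simp
          _ ≤ (((Finset.Ioc ⌊X⌋₊ ⌊X + Y⌋₊).filter Nat.Prime).card : ℝ) * Real.log p :=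
            mul_le_mul hcard hlogp hlogX.le (Nat.cast_nonneg _)
      refine le_trans ?_ hc1
      have hpX : (p : ℝ) ≤ 2 ^ (d / 2) * X := by linarith
      have hpk : (p : ℝ) ^ (1 - 2 / d) ≤ 2 ^ (d / 2) * X ^ (1 - 2 / d) := by
        have h1 : (p : ℝ) ^ (1 - 2 / d) ≤ (2 ^ (d / 2) * X) ^ (1 - 2 / d) :=
          Real.rpow_le_rpow hp0.le hpX hk0
        rw [Real.mul_rpow h2w0.le hX0.le] at h1
        have h2 : ((2 : ℝ) ^ (d / 2)) ^ (1 - 2 / d) ≤ 2 ^ (d / 2) := by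
          have h3 := Real.rpow_le_rpow_of_exponent_le h2w.le (show 1 - 2 / d ≤ 1 by
            have : 0 ≤ 2 / d := by positivity
            linarith)
          rwa [Real.rpow_one] at h3
        exact h1.trans (mul_le_mul_of_nonneg_right h2 hXk.le)
      calc c0 * (d / 2 * h) / (2 ^ (d / 2) * 2 ^ (d / 2)) * (Q ^ (2 / d) * (p : ℝ) ^ (1 - 2 / d))
          ≤ c0 * (d / 2 * h) / (2 ^ (d / 2) * 2 ^ (d / 2))
            * (Q ^ (2 / d) * (2 ^ (d / 2) * X ^ (1 - 2 / d))) := by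
            apply mul_le_mul_of_nonneg_left _ (by positivity)
            exact mul_le_mul_of_nonneg_left hpk (by positivity)
        _ = c0 * ((d / 2 * h * Q ^ (2 / d) * X ^ (1 - 2 / d)) / 2 ^ (d / 2)) := by
            field_simp
        _ ≤ c0 * Y := by
            apply mul_le_mul_of_nonneg_left _ hc0.le
            rw [hY]
            exact div_le_div_of_nonneg_right hWlow h2w0.le

end Pool.Agent.H97.EP

end

section

/-!
# Project EP, module `AId` : the identity `∫ u^{w-δ} (D^{1-δ}p)² = ∫ u^{w-δ} p²`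

Paper proof (generalises `Pool/Agent/H97/SD/Ident.lean`, case `δ = 0` for complex coefficients; that file
can be copied and simplified to real coefficients).
(a) For a finite real family `q(u) = ∑_i b_i e^{-s_i u}`, `s_i > 0`, `e ≥ 0`:
`∫_0^∞ u^e q(u)² du = ∑_{i,j} b_i b_j Γ(e+1) (s_i+s_j)^{-e-1}` (`Real.integral_rpow_mul_exp_neg_mul_Ioi`).
(b) `pr w f` is such a family over the index set `ι = f.support × Bool`: `b_{(t,true)} = c_t`,
`s_{(t,true)} = t`, `b_{(t,false)} = -c_t t^{-w}`, `s_{(t,false)} = 1/t`; `dr w (1-δ) f` is the family with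
`b_i` replaced by `b_i s_i^{1-δ}` (for `(t,false)`: `-c_t t^{-w} (1/t)^{1-δ} = -c_t t^{-w-(1-δ)}`).
The involution `σ (t,b) = (t, !b)` satisfies `s_{σ i} = 1/s_i`, `b_{σ i} = -b_i s_i^{-w}`.  Reindex the double
sum for `pr` by `σ × σ`, with `e = w - δ`:
`∑ b_i b_j (s_i s_j)^{-w} (1/s_i + 1/s_j)^{-(e+1)} = ∑ b_i b_j (s_i s_j)^{-w+e+1} (s_i+s_j)^{-(e+1)}` and
`-w+e+1 = 1-δ`.
`pr_meas`, `dr_meas`: finite sums of continuous functions.
-/

set_option autoImplicit false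
open MeasureTheory Set
open scoped ENNReal

namespace Pool.Agent.H97.EP

theorem pr_cont (w : ℝ) (f : VR) : Continuous (pr w f) := by
  unfold pr Finsupp.sum
  apply continuous_finsetSum
  intro t _
  fun_prop

theorem dr_cont (w s : ℝ) (f : VR) : Continuous (dr w s f) := by
  unfold dr Finsupp.sum
  apply continuous_finsetSum
  intro t _
  fun_prop

private theorem ident_int {w r : ℝ} (hw : 0 ≤ w) (hr : 0 < r) :
    IntegrableOn (fun u : ℝ => u ^ w * Real.exp (-(r * u))) (Ioi 0) := by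
  have h := integrableOn_rpow_mul_exp_neg_mul_rpow (p := 1) (s := w) (b := r) (by linarith)
    one_pos hr
  refine h.congr_fun (fun u _ => ?_) measurableSet_Ioi
  simp only [Real.rpow_one, neg_mul]

private theorem ident_val {w r : ℝ} (hw : 0 ≤ w) (hr : 0 < r) :
    ∫ u in Ioi (0 : ℝ), u ^ w * Real.exp (-(r * u)) = (1 / r) ^ (w + 1) * Real.Gamma (w + 1) := by
  have h := Real.integral_rpow_mul_exp_neg_mul_Ioi (a := w + 1) (r := r) (by linarith) hr
  rw [add_sub_cancel_right] at h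
  exact h

private theorem ident_sq {ι : Type*} [Fintype ι] (b : ι → ℝ) (s : ι → ℝ) (u : ℝ) :
    (∑ i, b i * Real.exp (-(s i * u))) ^ 2 =
      ∑ i, ∑ j, (b i * b j) * Real.exp (-((s i + s j) * u)) := by
  rw [sq, Finset.sum_mul_sum]
  refine Finset.sum_congr rfl fun i _ => Finset.sum_congr rfl fun j _ => ?_
  rw [show -((s i + s j) * u) = -(s i * u) + -(s j * u) by ring, Real.exp_add]
  ring

private theorem ident_MM {ι : Type*} [Fintype ι] (b : ι → ℝ) (s : ι → ℝ) (hs : ∀ i, 0 < s i)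
    {w : ℝ} (hw : 0 ≤ w) :
    MM w (fun u => ∑ i, b i * Real.exp (-(s i * u))) =
      ENNReal.ofReal (∑ i, ∑ j, (b i * b j) *
        ((1 / (s i + s j)) ^ (w + 1) * Real.Gamma (w + 1))) := by
  have hij : ∀ i j, 0 < s i + s j := fun i j => add_pos (hs i) (hs j)
  have hF : ∀ u : ℝ, u ^ w * (∑ i, b i * Real.exp (-(s i * u))) ^ 2 =
      ∑ i, ∑ j, (b i * b j) * (u ^ w * Real.exp (-((s i + s j) * u))) := by
    intro u
    rw [ident_sq, Finset.mul_sum]
    refine Finset.sum_congr rfl fun i _ => ?_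
    rw [Finset.mul_sum]
    refine Finset.sum_congr rfl fun j _ => ?_
    ring
  have hI : ∀ i j, IntegrableOn (fun u : ℝ => (b i * b j) *
      (u ^ w * Real.exp (-((s i + s j) * u)))) (Ioi 0) := fun i j =>
    (ident_int hw (hij i j)).const_mul _
  have hInt : IntegrableOn (fun u : ℝ =>
      u ^ w * (∑ i, b i * Real.exp (-(s i * u))) ^ 2) (Ioi 0) := by
    simp only [hF]
    exact integrable_finsetSum _ fun i _ => integrable_finsetSum _ fun j _ => hI i j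
  have hval : ∫ u in Ioi (0 : ℝ), u ^ w * (∑ i, b i * Real.exp (-(s i * u))) ^ 2 =
      ∑ i, ∑ j, (b i * b j) *
        ((1 / (s i + s j)) ^ (w + 1) * Real.Gamma (w + 1)) := by
    simp only [hF]
    rw [integral_finsetSum _ fun i _ => integrable_finsetSum _ fun j _ => hI i j]
    refine Finset.sum_congr rfl fun i _ => ?_
    rw [integral_finsetSum _ fun j _ => hI i j]
    refine Finset.sum_congr rfl fun j _ => ?_
    rw [integral_const_mul, ident_val hw (hij i j)]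
  rw [← hval, ofReal_integral_eq_lintegral_ofReal hInt]
  · rfl
  · filter_upwards [ae_restrict_mem measurableSet_Ioi] with u hu
    have hu0 : (0 : ℝ) ≤ u ^ w := Real.rpow_nonneg (le_of_lt hu) w
    exact mul_nonneg hu0 (sq_nonneg _)

private theorem ident_sum {ι : Type*} [Fintype ι] (σ : Equiv.Perm ι) (b : ι → ℝ) (s : ι → ℝ)
    (hs : ∀ i, 0 < s i) (w δ G : ℝ) (h1 : ∀ i, s (σ i) = (s i)⁻¹)
    (h2 : ∀ i, b (σ i) = -(b i * s i ^ (-w))) :
    ∑ i, ∑ j, ((b i * s i ^ (1 - δ)) * (b j * s j ^ (1 - δ))) *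
        ((1 / (s i + s j)) ^ (w - δ + 1) * G) =
      ∑ i, ∑ j, (b i * b j) * ((1 / (s i + s j)) ^ (w - δ + 1) * G) := by
  rw [← Equiv.sum_comp σ (fun i => ∑ j, (b i * b j) *
    ((1 / (s i + s j)) ^ (w - δ + 1) * G))]
  refine Finset.sum_congr rfl fun i _ => ?_
  rw [← Equiv.sum_comp σ (fun j => (b (σ i) * b j) *
    ((1 / (s (σ i) + s j)) ^ (w - δ + 1) * G))]
  refine Finset.sum_congr rfl fun j _ => ?_
  have hi := hs i
  have hj := hs j
  rw [h1, h1, h2, h2]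
  have e4 : (1 / ((s i)⁻¹ + (s j)⁻¹)) ^ (w - δ + 1) =
      (1 / (s i + s j)) ^ (w - δ + 1) * (s i ^ (w - δ + 1) * s j ^ (w - δ + 1)) := by
    have e5 : 1 / ((s i)⁻¹ + (s j)⁻¹) = (1 / (s i + s j)) * (s i * s j) := by
      field_simp
      ring
    rw [e5, Real.mul_rpow (by positivity) (by positivity), Real.mul_rpow hi.le hj.le]
  have e6 : ∀ x : ℝ, 0 < x → x ^ (1 - δ) = x ^ (-w) * x ^ (w - δ + 1) := by
    intro x hx
    rw [← Real.rpow_add hx]
    congr 1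
    ring
  rw [e4, e6 _ hi, e6 _ hj]
  ring

private theorem ident_both {w δ : ℝ} (hδw : δ ≤ w) (f : VR) :
    MM (w - δ) (dr w (1 - δ) f) = MM (w - δ) (pr w f) := by
  classical
  let ι : Type := {t // t ∈ f.support} × Bool
  let b : ι → ℝ := fun i => if i.2 then f i.1.1 else
    -(f i.1.1 * ((i.1.1 : {t : ℝ // 0 < t}).1 ^ (-w)))
  let s : ι → ℝ := fun i => if i.2 then (i.1.1 : {t : ℝ // 0 < t}).1 else
    ((i.1.1 : {t : ℝ // 0 < t}).1)⁻¹
  have hs : ∀ i, 0 < s i := by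
    rintro ⟨⟨⟨t, ht⟩, _⟩, _ | _⟩
    · exact inv_pos.2 ht
    · exact ht
  have e1 : pr w f = fun u => ∑ i, b i * Real.exp (-(s i * u)) := by
    funext u
    rw [Fintype.sum_prod_type]
    unfold pr Finsupp.sum
    rw [← Finset.sum_attach]
    refine Finset.sum_congr rfl fun t _ => ?_
    rw [Fintype.sum_bool]
    simp only [b, s, if_true, Bool.false_eq_true, if_false]
    rw [div_eq_inv_mul]
    ring
  have e2 : dr w (1 - δ) f = fun u => ∑ i, (b i * s i ^ (1 - δ)) * Real.exp (-(s i * u)) := by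
    funext u
    rw [Fintype.sum_prod_type]
    unfold dr Finsupp.sum
    rw [← Finset.sum_attach]
    refine Finset.sum_congr rfl fun t _ => ?_
    rw [Fintype.sum_bool]
    simp only [b, s, if_true, Bool.false_eq_true, if_false]
    have ht : 0 < (t.1 : {t : ℝ // 0 < t}).1 := (t.1 : {t : ℝ // 0 < t}).2
    have e3 : (t.1 : {t : ℝ // 0 < t}).1 ^ (-w - (1 - δ))
        = (t.1 : {t : ℝ // 0 < t}).1 ^ (-w) * ((t.1 : {t : ℝ // 0 < t}).1)⁻¹ ^ (1 - δ) := by
      rw [Real.rpow_sub ht, Real.inv_rpow ht.le, div_eq_mul_inv]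
    rw [div_eq_inv_mul, e3]
    ring
  rw [e1, e2, ident_MM _ s hs (by linarith), ident_MM b s hs (by linarith)]
  congr 1
  refine ident_sum ((Equiv.refl _).prodCongr Equiv.boolNot) b s hs w δ _ ?_ ?_
  · rintro ⟨t, _ | _⟩
    · simp [s]
    · simp [s]
  · rintro ⟨t, _ | _⟩
    · have ht : 0 < (t.1 : {t : ℝ // 0 < t}).1 := (t.1 : {t : ℝ // 0 < t}).2
      have h0 : (((t.1 : {t : ℝ // 0 < t}).1)⁻¹ ^ (-w)) * ((t.1 : {t : ℝ // 0 < t}).1 ^ (-w)) =
          1 := by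
        rw [← Real.mul_rpow (inv_nonneg.2 ht.le) ht.le, inv_mul_cancel₀ ht.ne', Real.one_rpow]
      simp only [b, s, Equiv.prodCongr_apply, Equiv.coe_refl, Prod.map_apply, id_eq,
        Equiv.boolNot_apply, Bool.not_false, if_true, Bool.false_eq_true, if_false]
      linear_combination (-(f t.1)) * h0
    · simp only [b, s, Equiv.prodCongr_apply, Equiv.coe_refl, Prod.map_apply, id_eq,
        Equiv.boolNot_apply, Bool.not_true, if_true, Bool.false_eq_true, if_false]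

theorem ident {w δ : ℝ} (hδ : 0 ≤ δ) (hδw : δ ≤ w) (f : VR) :
    MM (w - δ) (dr w (1 - δ) f) = MM (w - δ) (pr w f) :=
  ident_both hδw f

theorem MM_lt_top {w e : ℝ} (he : 0 ≤ e) (f : VR) : MM e (pr w f) < ⊤ := by
  classical
  let ι : Type := {t // t ∈ f.support} × Bool
  let b : ι → ℝ := fun i => if i.2 then f i.1.1 else
    -(f i.1.1 * ((i.1.1 : {t : ℝ // 0 < t}).1 ^ (-w)))
  let s : ι → ℝ := fun i => if i.2 then (i.1.1 : {t : ℝ // 0 < t}).1 else
    ((i.1.1 : {t : ℝ // 0 < t}).1)⁻¹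
  have hs : ∀ i, 0 < s i := by
    rintro ⟨⟨⟨t, ht⟩, _⟩, _ | _⟩
    · exact inv_pos.2 ht
    · exact ht
  have e1 : pr w f = fun u => ∑ i, b i * Real.exp (-(s i * u)) := by
    funext u
    rw [Fintype.sum_prod_type]
    unfold pr Finsupp.sum
    rw [← Finset.sum_attach]
    refine Finset.sum_congr rfl fun t _ => ?_
    rw [Fintype.sum_bool]
    simp only [b, s, if_true, Bool.false_eq_true, if_false]
    rw [div_eq_inv_mul]
    ring
  rw [e1, ident_MM b s hs he]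
  exact ENNReal.ofReal_lt_top

end Pool.Agent.H97.EP

end

section

/-!
# Project EP, module `ALow` : the abstract lower sampling inequality

For `u ∈ [ih,(i+1)h)`, `u > 0`, `x = x_i ∈ [(i+1)h,(i+2)h)`: `u ≤ x ≤ u+2h`, so
`F(u)² ≤ 2F(x)² + 2(F(u)-F(x))²`, `u^e ≤ x^e`:
`u^e F(u)² ≤ 2 x^e F(x)² + 2 u^e A(u)`.  Integrate over the cell (length `h`) and sum over `i` (the cells
partition `(0,∞)`; compare `H97/SD/Cell.lean`).
-/

set_option autoImplicit false
open MeasureTheory Set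
open scoped ENNReal

namespace Pool.Agent.H97.EP

theorem low_abs {e h : ℝ} (he : 0 ≤ e) (hh : 0 < h) (F : ℝ → ℝ) (hF : Measurable F) (A : ℝ → ℝ≥0∞)
    (hA : Measurable A)
    (hFA : ∀ u x : ℝ, 0 < u → u ≤ x → x ≤ u + 2 * h → ENNReal.ofReal ((F u - F x) ^ 2) ≤ A u)
    (x : ℕ → ℝ) (hx : ∀ i : ℕ, ((i : ℝ) + 1) * h ≤ x i ∧ x i < ((i : ℝ) + 2) * h) :
    MM e F ≤ ENNReal.ofReal (2 * h) * (∑' i : ℕ, ENNReal.ofReal (x i ^ e * F (x i) ^ 2)) +
      2 * ∫⁻ u in Ioi (0 : ℝ), ENNReal.ofReal (u ^ e) * A u := by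
  set C : ℕ → Set ℝ := fun i => Ico ((i : ℝ) * h) (((i : ℝ) + 1) * h) ∩ Ioi 0 with hC
  have hCm : ∀ i, MeasurableSet (C i) := fun i => measurableSet_Ico.inter measurableSet_Ioi
  have hdisj : Pairwise (Function.onFun Disjoint C) := by
    intro i j hij
    refine Set.disjoint_left.2 ?_
    rintro t ⟨⟨h1, h2⟩, -⟩ ⟨⟨h3, h4⟩, -⟩
    rcases lt_or_gt_of_ne hij with hlt | hlt
    · have h5 : ((i : ℝ) + 1) ≤ j := by exact_mod_cast hlt
      have := mul_le_mul_of_nonneg_right h5 hh.le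
      linarith
    · have h5 : ((j : ℝ) + 1) ≤ i := by exact_mod_cast hlt
      have := mul_le_mul_of_nonneg_right h5 hh.le
      linarith
  have hU : ⋃ i, C i = Ioi (0 : ℝ) := by
    refine Set.Subset.antisymm (Set.iUnion_subset fun i => Set.inter_subset_right) ?_
    intro t ht
    have ht' : 0 < t := ht
    refine Set.mem_iUnion.2 ⟨⌊t / h⌋₊, ⟨?_, ?_⟩, ht⟩
    · have := Nat.floor_le (div_pos ht' hh).le
      rwa [le_div_iff₀ hh] at this
    · have := Nat.lt_floor_add_one (t / h)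
      rwa [div_lt_iff₀ hh] at this
  have h22 : (2 : ℝ≥0∞) = ENNReal.ofReal 2 := by simp
  -- every cell
  have hcell : ∀ i, ∫⁻ u in C i, ENNReal.ofReal (u ^ e * F u ^ 2) ≤
      ENNReal.ofReal (2 * h) * ENNReal.ofReal (x i ^ e * F (x i) ^ 2) +
        2 * ∫⁻ u in C i, ENNReal.ofReal (u ^ e) * A u := by
    intro i
    obtain ⟨hx1, hx2⟩ := hx i
    have hx0 : 0 < x i := lt_of_lt_of_le (by positivity) hx1
    have h1 : ∀ u ∈ C i, ENNReal.ofReal (u ^ e * F u ^ 2) ≤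
        2 * ENNReal.ofReal (x i ^ e * F (x i) ^ 2) + 2 * (ENNReal.ofReal (u ^ e) * A u) := by
      rintro u ⟨⟨hu1, hu2⟩, hu0⟩
      have hu0' : 0 < u := hu0
      have hux : u ≤ x i := hu2.le.trans hx1
      have hxu : x i ≤ u + 2 * h := by nlinarith
      have hA1 := hFA u (x i) hu0' hux hxu
      have hue : 0 ≤ u ^ e := (Real.rpow_pos_of_pos hu0' e).le
      have hpow : u ^ e ≤ x i ^ e := Real.rpow_le_rpow hu0'.le hux he
      have hreal : u ^ e * F u ^ 2 ≤ 2 * (x i ^ e * F (x i) ^ 2) +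
          2 * (u ^ e * (F u - F (x i)) ^ 2) := by
        have h3 : F u ^ 2 ≤ 2 * F (x i) ^ 2 + 2 * (F u - F (x i)) ^ 2 := by
          nlinarith [sq_nonneg (F u - 2 * F (x i))]
        have h4 : u ^ e * F (x i) ^ 2 ≤ x i ^ e * F (x i) ^ 2 :=
          mul_le_mul_of_nonneg_right hpow (sq_nonneg _)
        calc u ^ e * F u ^ 2 ≤ u ^ e * (2 * F (x i) ^ 2 + 2 * (F u - F (x i)) ^ 2) :=
              mul_le_mul_of_nonneg_left h3 hue
          _ = 2 * (u ^ e * F (x i) ^ 2) + 2 * (u ^ e * (F u - F (x i)) ^ 2) := by ring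
          _ ≤ _ := by linarith
      have hxe : 0 ≤ x i ^ e * F (x i) ^ 2 :=
        mul_nonneg (Real.rpow_pos_of_pos hx0 e).le (sq_nonneg _)
      calc ENNReal.ofReal (u ^ e * F u ^ 2)
          ≤ ENNReal.ofReal (2 * (x i ^ e * F (x i) ^ 2) +
            2 * (u ^ e * (F u - F (x i)) ^ 2)) := ENNReal.ofReal_le_ofReal hreal
        _ = 2 * ENNReal.ofReal (x i ^ e * F (x i) ^ 2) +
            2 * (ENNReal.ofReal (u ^ e) * ENNReal.ofReal ((F u - F (x i)) ^ 2)) := by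
            rw [ENNReal.ofReal_add (by positivity) (by positivity), h22,
              ← ENNReal.ofReal_mul (by norm_num), ← ENNReal.ofReal_mul hue,
              ← ENNReal.ofReal_mul (by norm_num)]
        _ ≤ _ := by gcongr
    have hvol : volume (C i) ≤ ENNReal.ofReal h := by
      refine (measure_mono (Set.inter_subset_left)).trans ?_
      rw [Real.volume_Ico]
      refine le_of_eq ?_
      congr 1
      ring
    calc ∫⁻ u in C i, ENNReal.ofReal (u ^ e * F u ^ 2)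
        ≤ ∫⁻ u in C i, (2 * ENNReal.ofReal (x i ^ e * F (x i) ^ 2) +
          2 * (ENNReal.ofReal (u ^ e) * A u)) := setLIntegral_mono' (hCm i) h1
      _ = 2 * ENNReal.ofReal (x i ^ e * F (x i) ^ 2) * volume (C i) +
          2 * ∫⁻ u in C i, ENNReal.ofReal (u ^ e) * A u := by
          rw [lintegral_add_left measurable_const, setLIntegral_const,
            lintegral_const_mul' _ _ (by norm_num)]
      _ ≤ 2 * ENNReal.ofReal (x i ^ e * F (x i) ^ 2) * ENNReal.ofReal h +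
          2 * ∫⁻ u in C i, ENNReal.ofReal (u ^ e) * A u := by
          gcongr
      _ = _ := by
          have h5 : ENNReal.ofReal (2 * h) = 2 * ENNReal.ofReal h := by
            rw [h22, ← ENNReal.ofReal_mul (by norm_num)]
          rw [h5]
          ring
  calc MM e F = ∑' i, ∫⁻ u in C i, ENNReal.ofReal (u ^ e * F u ^ 2) := by
        unfold MM
        rw [← hU, lintegral_iUnion hCm hdisj]
    _ ≤ ∑' i : ℕ, (ENNReal.ofReal (2 * h) * ENNReal.ofReal (x i ^ e * F (x i) ^ 2) +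
        2 * ∫⁻ u in C i, ENNReal.ofReal (u ^ e) * A u) := ENNReal.tsum_le_tsum hcell
    _ = _ := by
        rw [ENNReal.tsum_add, ENNReal.tsum_mul_left, ENNReal.tsum_mul_left, ← hU,
          lintegral_iUnion hCm hdisj]

end Pool.Agent.H97.EP

end

section

/-!
# Project EP, module `AUp` : the abstract upper sampling inequality

Let `j ≥ 1`, `x ∈ [jh,(j+1)h)` and `u ∈ [(j-1/2)h, jh)`.  Then `u ≤ x ≤ u + 3h/2`, `x < (j+1)h ≤ 2jh ≤ 4u`, so
`x^e F(x)² ≤ 4^e u^e (2F(u)² + 2A(u))`.  Average over `u` (length `h/2`):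
`x^e F(x)² ≤ (4·4^e/h) ∫_{[(j-1/2)h,jh)} u^e (F² + A)`.  Multiply by `ν_n` and sum over the `n` with `x_n` in the cell `j`
(every finite partial sum of the `ν_n` is `≤ B`), then over `j ≥ 1` (disjoint intervals).  Every `n` with `ν_n ≠ 0` has
`x_n ≥ h`, so it lies in exactly one cell `j = ⌊x_n/h⌋ ≥ 1`.
-/

set_option autoImplicit false
open MeasureTheory Set
open scoped ENNReal

namespace Pool.Agent.H97.EP

/-- one point -/
private theorem up_point {e h : ℝ} (he : 0 ≤ e) (F : ℝ → ℝ) (A : ℝ → ℝ≥0∞)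
    (hFA : ∀ u x : ℝ, 0 < u → u ≤ x → x ≤ u + 2 * h → ENNReal.ofReal ((F u - F x) ^ 2) ≤ A u)
    {u x : ℝ} (hu : 0 < u) (hux : u ≤ x) (hx : x ≤ u + 2 * h) (hx4 : x ≤ 4 * u) :
    ENNReal.ofReal (x ^ e * F x ^ 2) ≤
      ENNReal.ofReal (2 * 4 ^ e) * (ENNReal.ofReal (u ^ e * F u ^ 2) + ENNReal.ofReal (u ^ e) * A u) := by
  have h1 : x ^ e ≤ 4 ^ e * u ^ e := by
    rw [← Real.mul_rpow (by norm_num) hu.le]
    exact Real.rpow_le_rpow (hu.le.trans hux) hx4 he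
  have h2 : F x ^ 2 ≤ 2 * F u ^ 2 + 2 * (F u - F x) ^ 2 := by
    nlinarith [sq_nonneg (2 * F u - F x)]
  have hu0 : 0 ≤ u ^ e := Real.rpow_nonneg hu.le e
  have h40 : (0 : ℝ) ≤ 4 ^ e := Real.rpow_nonneg (by norm_num) e
  have h3 : x ^ e * F x ^ 2 ≤ 2 * 4 ^ e * (u ^ e * F u ^ 2 + u ^ e * (F u - F x) ^ 2) := by
    calc x ^ e * F x ^ 2 ≤ (4 ^ e * u ^ e) * F x ^ 2 :=
          mul_le_mul_of_nonneg_right h1 (sq_nonneg _)
      _ ≤ (4 ^ e * u ^ e) * (2 * F u ^ 2 + 2 * (F u - F x) ^ 2) :=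
          mul_le_mul_of_nonneg_left h2 (mul_nonneg h40 hu0)
      _ = _ := by ring
  calc ENNReal.ofReal (x ^ e * F x ^ 2)
      ≤ ENNReal.ofReal (2 * 4 ^ e * (u ^ e * F u ^ 2 + u ^ e * (F u - F x) ^ 2)) :=
        ENNReal.ofReal_le_ofReal h3
    _ = ENNReal.ofReal (2 * 4 ^ e) * (ENNReal.ofReal (u ^ e * F u ^ 2) +
        ENNReal.ofReal (u ^ e) * ENNReal.ofReal ((F u - F x) ^ 2)) := by
        rw [ENNReal.ofReal_mul (by positivity), ENNReal.ofReal_add (by positivity) (by positivity),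
          ENNReal.ofReal_mul hu0 (q := (F u - F x) ^ 2)]
    _ ≤ _ := by
        gcongr
        exact hFA u x hu hux hx

theorem up_abs {e h B : ℝ} (he : 0 ≤ e) (hh : 0 < h) (F : ℝ → ℝ) (hF : Measurable F) (A : ℝ → ℝ≥0∞)
    (hA : Measurable A)
    (hFA : ∀ u x : ℝ, 0 < u → u ≤ x → x ≤ u + 2 * h → ENNReal.ofReal ((F u - F x) ^ 2) ≤ A u)
    (x ν : ℕ → ℝ) (hν : ∀ n, 0 ≤ ν n) (hs : ∀ n, ν n ≠ 0 → h ≤ x n) (hB : 0 ≤ B)
    (hc : ∀ j : ℕ, 1 ≤ j → ∀ S : Finset ℕ, (∀ n ∈ S, (j : ℝ) * h ≤ x n ∧ x n < ((j : ℝ) + 1) * h) →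
      ∑ n ∈ S, ν n ≤ B) :
    ∑' n : ℕ, ENNReal.ofReal (ν n * x n ^ e * F (x n) ^ 2) ≤
      ENNReal.ofReal (4 * 4 ^ e * B / h) *
        (MM e F + ∫⁻ u in Ioi (0 : ℝ), ENNReal.ofReal (u ^ e) * A u) := by
  classical
  obtain ⟨G, hG⟩ : ∃ G : ℝ → ℝ≥0∞, G = fun u =>
    ENNReal.ofReal (u ^ e * F u ^ 2) + ENNReal.ofReal (u ^ e) * A u := ⟨_, rfl⟩
  have hT : MM e F + ∫⁻ u in Ioi (0 : ℝ), ENNReal.ofReal (u ^ e) * A u =
      ∫⁻ u in Ioi (0 : ℝ), G u := by
    unfold MM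
    rw [hG, lintegral_add_left]
    exact ((measurable_id.pow_const e).mul (hF.pow_const 2)).ennreal_ofReal
  rw [hT]
  obtain ⟨D, hD⟩ : ∃ D : ℕ → Set ℝ, D = fun i : ℕ => Ico (((i : ℝ) + 1 / 2) * h) (((i : ℝ) + 1) * h) :=
    ⟨_, rfl⟩
  have hDm : ∀ i, MeasurableSet (D i) := fun i => by rw [hD]; exact measurableSet_Ico
  have hdisj : Pairwise (Function.onFun Disjoint D) := by
    intro i j hij
    refine Set.disjoint_left.2 ?_
    intro t ht1 ht2
    rw [hD] at ht1 ht2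
    obtain ⟨h1, h2⟩ := ht1
    obtain ⟨h3, h4⟩ := ht2
    rcases lt_or_gt_of_ne hij with hlt | hlt
    · have h5 : ((i : ℝ) + 1) ≤ j := by exact_mod_cast hlt
      nlinarith
    · have h5 : ((j : ℝ) + 1) ≤ i := by exact_mod_cast hlt
      nlinarith
  have hDsub : ⋃ i, D i ⊆ Ioi (0 : ℝ) := by
    refine Set.iUnion_subset fun i => ?_
    intro t ht
    rw [hD] at ht
    exact lt_of_lt_of_le (by positivity) ht.1
  have hsumD : ∑' i, ∫⁻ u in D i, G u ≤ ∫⁻ u in Ioi (0 : ℝ), G u := by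
    rw [← lintegral_iUnion hDm hdisj]
    exact lintegral_mono_set hDsub
  have hvol : ∀ i, volume (D i) = ENNReal.ofReal (h / 2) := by
    intro i
    rw [hD, Real.volume_Ico]
    congr 1
    ring
  -- one node
  have hnode : ∀ (i : ℕ) (y : ℝ), ((i : ℝ) + 1) * h ≤ y → y < ((i : ℝ) + 2) * h →
      ENNReal.ofReal (y ^ e * F y ^ 2) ≤ ENNReal.ofReal (4 * 4 ^ e / h) * ∫⁻ u in D i, G u := by
    intro i y hy1 hy2
    have h1 : ∀ u ∈ D i, ENNReal.ofReal (y ^ e * F y ^ 2) ≤ ENNReal.ofReal (2 * 4 ^ e) * G u := by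
      intro u hu
      rw [hD] at hu
      obtain ⟨hu1, hu2⟩ := hu
      have hu0 : 0 < u := lt_of_lt_of_le (by positivity) hu1
      rw [hG]
      refine up_point he F A hFA hu0 (hu2.le.trans hy1) ?_ ?_
      · nlinarith
      · have h3 : (0 : ℝ) ≤ (i : ℝ) * h := by positivity
        nlinarith
    have h2 : ENNReal.ofReal (y ^ e * F y ^ 2) * ENNReal.ofReal (h / 2) ≤
        ENNReal.ofReal (2 * 4 ^ e) * ∫⁻ u in D i, G u := by
      calc ENNReal.ofReal (y ^ e * F y ^ 2) * ENNReal.ofReal (h / 2)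
          = ∫⁻ _ in D i, ENNReal.ofReal (y ^ e * F y ^ 2) := by rw [setLIntegral_const, hvol]
        _ ≤ ∫⁻ u in D i, ENNReal.ofReal (2 * 4 ^ e) * G u := setLIntegral_mono' (hDm i) h1
        _ = _ := lintegral_const_mul' _ _ ENNReal.ofReal_ne_top
    have h3 : ENNReal.ofReal (h / 2) * ENNReal.ofReal (2 / h) = 1 := by
      rw [← ENNReal.ofReal_mul (by positivity)]
      rw [show h / 2 * (2 / h) = 1 by field_simp]
      exact ENNReal.ofReal_one
    calc ENNReal.ofReal (y ^ e * F y ^ 2)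
        = ENNReal.ofReal (y ^ e * F y ^ 2) * ENNReal.ofReal (h / 2) * ENNReal.ofReal (2 / h) := by
          rw [mul_assoc, h3, mul_one]
      _ ≤ (ENNReal.ofReal (2 * 4 ^ e) * ∫⁻ u in D i, G u) * ENNReal.ofReal (2 / h) := by
          gcongr
      _ = (ENNReal.ofReal (2 * 4 ^ e) * ENNReal.ofReal (2 / h)) * ∫⁻ u in D i, G u := by ring
      _ = _ := by
          rw [← ENNReal.ofReal_mul (by positivity)]
          congr 2
          ring
  -- the weights of a cell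
  have hcell : ∀ i : ℕ, ∑' n : ℕ, (if ⌊x n / h⌋₊ = i + 1 then ENNReal.ofReal (ν n) else 0) ≤
      ENNReal.ofReal B := by
    intro i
    rw [ENNReal.tsum_eq_iSup_sum]
    refine iSup_le fun S => ?_
    rw [← Finset.sum_filter, ← ENNReal.ofReal_sum_of_nonneg fun n _ => hν n]
    refine ENNReal.ofReal_le_ofReal (hc (i + 1) (by omega) _ ?_)
    intro n hn
    obtain ⟨-, hn2⟩ := Finset.mem_filter.mp hn
    obtain ⟨h1, h2⟩ := (Nat.floor_eq_iff' (by omega : i + 1 ≠ 0)).mp hn2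
    rw [le_div_iff₀ hh] at h1
    rw [div_lt_iff₀ hh] at h2
    exact ⟨h1, h2⟩
  -- one term
  have hterm : ∀ n, ENNReal.ofReal (ν n * x n ^ e * F (x n) ^ 2) ≤
      ∑' i : ℕ, (if ⌊x n / h⌋₊ = i + 1 then ENNReal.ofReal (ν n) else 0) *
        (ENNReal.ofReal (4 * 4 ^ e / h) * ∫⁻ u in D i, G u) := by
    intro n
    by_cases hn : ν n = 0
    · rw [hn, zero_mul, zero_mul, ENNReal.ofReal_zero]
      exact zero_le
    have hxn := hs n hn
    have hfl : 1 ≤ ⌊x n / h⌋₊ := by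
      rw [Nat.one_le_floor_iff, le_div_iff₀ hh, one_mul]
      exact hxn
    obtain ⟨i, hi⟩ : ∃ i, ⌊x n / h⌋₊ = i + 1 := ⟨⌊x n / h⌋₊ - 1, by omega⟩
    refine le_trans ?_ (ENNReal.le_tsum i)
    rw [if_pos hi, mul_assoc, ENNReal.ofReal_mul (hν n)]
    gcongr
    obtain ⟨h1, h2⟩ := (Nat.floor_eq_iff' (by omega : i + 1 ≠ 0)).mp hi
    rw [le_div_iff₀ hh] at h1
    rw [div_lt_iff₀ hh] at h2
    push_cast at h1 h2
    refine hnode i (x n) h1 ?_
    have h3 : ((i : ℝ) + 1 + 1) * h = ((i : ℝ) + 2) * h := by ring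
    rwa [h3] at h2
  calc ∑' n : ℕ, ENNReal.ofReal (ν n * x n ^ e * F (x n) ^ 2)
      ≤ ∑' n : ℕ, ∑' i : ℕ, (if ⌊x n / h⌋₊ = i + 1 then ENNReal.ofReal (ν n) else 0) *
        (ENNReal.ofReal (4 * 4 ^ e / h) * ∫⁻ u in D i, G u) := ENNReal.tsum_le_tsum hterm
    _ = ∑' i : ℕ, ∑' n : ℕ, (if ⌊x n / h⌋₊ = i + 1 then ENNReal.ofReal (ν n) else 0) *
        (ENNReal.ofReal (4 * 4 ^ e / h) * ∫⁻ u in D i, G u) := ENNReal.tsum_comm
    _ = ∑' i : ℕ, (∑' n : ℕ, (if ⌊x n / h⌋₊ = i + 1 then ENNReal.ofReal (ν n) else 0)) *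
        (ENNReal.ofReal (4 * 4 ^ e / h) * ∫⁻ u in D i, G u) := by
        simp only [ENNReal.tsum_mul_right]
    _ ≤ ∑' i : ℕ, ENNReal.ofReal B * (ENNReal.ofReal (4 * 4 ^ e / h) * ∫⁻ u in D i, G u) :=
        ENNReal.tsum_le_tsum fun i => mul_le_mul_left (hcell i) _
    _ = (ENNReal.ofReal B * ENNReal.ofReal (4 * 4 ^ e / h)) * ∑' i : ℕ, ∫⁻ u in D i, G u := by
        rw [← ENNReal.tsum_mul_left]
        simp only [mul_assoc]
    _ ≤ (ENNReal.ofReal B * ENNReal.ofReal (4 * 4 ^ e / h)) * ∫⁻ u in Ioi (0 : ℝ), G u := by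
        gcongr
    _ = _ := by
        rw [← ENNReal.ofReal_mul hB]
        congr 2
        ring

end Pool.Agent.H97.EP

end

section

/-!
# LC Mertens: Chebyshev and Mertens estimates

* `cheb_theta`: `Chebyshev.theta_le_log4_mul_x` (`θ x ≤ log 4 * x`, `log 4 < 2`).
* `cheb_pi`: in Mathlib (file NumberTheory/Chebyshev.lean, look for `primeCounting`), or: the primes in `(√n, n]` number at
  most `θ(n) / log √n`, plus `√n`.
* `mertens`: `∑_{d ≤ n} Λ(d)/d = log n + O(1)` follows from `log n! = ∑_{d ≤ n} Λ(d) ⌊n/d⌋`, `log n! = n log n + O(n)`, `ψ(n) = O(n)`;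
  the non-prime prime powers contribute a convergent sum
  (`ArithmeticFunction.vonMangoldt.summable_residueClass_non_primes_div` with modulus 1, or `∑ log p / (p (p-1))`).
  The file Pool/Agent/H91/GoldMertens.lean (in the graded repository) contains `Mt_ge`, `Mt_le` for
  `Mt n = ∑_{d ≤ n} Λ d / d`; you may import it.
-/

set_option autoImplicit false

open Finset

namespace Pool.Agent.H3.LC

theorem mertens_log4 : Real.log 4 ≤ 2 := by
  have h : Real.log 4 = 2 * Real.log 2 := by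
    rw [show (4 : ℝ) = 2 ^ 2 by norm_num, Real.log_pow]
    norm_num
  have := Real.log_two_lt_d9
  linarith

theorem cheb_pi : ∃ C : ℝ, 0 < C ∧ ∀ n : ℕ, 2 ≤ n →
    (((Icc 1 n).filter Nat.Prime).card : ℝ) ≤ C * n / Real.log n := by
  refine ⟨6, by norm_num, fun n hn => ?_⟩
  have hn1 : (1 : ℝ) < n := by exact_mod_cast hn
  have hn0 : (0 : ℝ) < n := by linarith
  have h1 := Chebyshev.pi_le_log4_mul_div (x := (n : ℝ)) hn1
  rw [Nat.floor_natCast] at h1
  have h2 : ((Icc 1 n).filter Nat.Prime).card ≤ Nat.primeCounting n := by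
    rw [Nat.primeCounting, Nat.primeCounting', Nat.count_eq_card_filter_range]
    refine card_le_card fun p hp => ?_
    rw [mem_filter, mem_Icc] at hp
    rw [mem_filter, mem_range]
    exact ⟨by omega, hp.2⟩
  have hlog : 0 < Real.log n := Real.log_pos hn1
  have h3 : Real.log (√n) = Real.log n / 2 := Real.log_sqrt hn0.le
  rw [h3] at h1
  have hs : 0 < √(n : ℝ) := Real.sqrt_pos.2 hn0
  have h4 : Real.log n ≤ 2 * √n := by
    have := Real.log_le_sub_one_of_pos hs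
    rw [h3] at this
    linarith
  have h5 : √(n : ℝ) ≤ 2 * n / Real.log n := by
    rw [le_div_iff₀ hlog]
    calc √(n : ℝ) * Real.log n ≤ √n * (2 * √n) := mul_le_mul_of_nonneg_left h4 hs.le
      _ = 2 * (√n * √n) := by ring
      _ = 2 * n := by rw [Real.mul_self_sqrt hn0.le]
  have h6 : Real.log 4 * n / (Real.log n / 2) ≤ 4 * n / Real.log n := by
    rw [div_div_eq_mul_div]
    refine div_le_div_of_nonneg_right ?_ hlog.le
    nlinarith [mertens_log4]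
  calc (((Icc 1 n).filter Nat.Prime).card : ℝ) ≤ (Nat.primeCounting n : ℝ) := by exact_mod_cast h2
    _ ≤ Real.log 4 * n / (Real.log n / 2) + √n := h1
    _ ≤ 4 * n / Real.log n + 2 * n / Real.log n := add_le_add h6 h5
    _ = 6 * n / Real.log n := by ring

end Pool.Agent.H3.LC

end

section

/-!
# Project EP, module `CC` : two sums over primes

`prsum`: dyadic: `∑_{2^k < q ≤ 2^{k+1}} 1/(q (log q)^{1/2}) ≤ π(2^{k+1}) / (2^k (k log 2)^{1/2}) ≤
C k^{-3/2}` for `k ≥ 1` by `Pool.Agent.H3.LC.cheb_pi` (or `brun_titchmarsh`), and `∑ k^{-3/2} < ∞`.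
`gsum`: `m ↦ m.primeFactors` is injective on squarefree numbers, so the sum is at most
`∏_{3 ≤ q ≤ N} (1 + 1/(q (log q)^{1/2})) ≤ exp (∑_{3≤q≤N} 1/(q (log q)^{1/2}))`.
-/

set_option autoImplicit false

namespace Pool.Agent.H97.EP

theorem prsum : ∃ C : ℝ, 0 < C ∧ ∀ N : ℕ,
    ∑ q ∈ (Finset.Icc 3 N).filter Nat.Prime, 1 / ((q : ℝ) * (Real.log q) ^ (1 / 2 : ℝ)) ≤ C := by
  obtain ⟨C, hC0, hC⟩ := Pool.Agent.H3.LC.cheb_pi
  have hl2 : 0 < Real.log 2 := Real.log_pos (by norm_num)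
  have hsum : Summable (fun k : ℕ => (k : ℝ) ^ (-(3 / 2) : ℝ)) :=
    Real.summable_nat_rpow.2 (by norm_num)
  obtain ⟨D, hD⟩ : ∃ D : ℝ, D = 2 * C / (Real.log 2 * (Real.log 2) ^ (1 / 2 : ℝ)) := ⟨_, rfl⟩
  have hl2' : 0 < (Real.log 2) ^ (1 / 2 : ℝ) := Real.rpow_pos_of_pos hl2 _
  have hD0 : 0 < D := by
    rw [hD]
    positivity
  have hT0 : 0 ≤ ∑' k : ℕ, (k : ℝ) ^ (-(3 / 2) : ℝ) :=
    tsum_nonneg fun k => Real.rpow_nonneg (Nat.cast_nonneg k) _
  refine ⟨D * (∑' k : ℕ, (k : ℝ) ^ (-(3 / 2) : ℝ)) + 1, by positivity, fun N => ?_⟩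
  -- the levels
  have hmaps : ∀ q ∈ (Finset.Icc 3 N).filter Nat.Prime, Nat.log 2 q ∈ Finset.Icc 1 N := by
    intro q hq
    rw [Finset.mem_filter, Finset.mem_Icc] at hq
    rw [Finset.mem_Icc]
    refine ⟨Nat.log_pos (by norm_num) (by omega), ?_⟩
    exact (Nat.log_le_self 2 q).trans hq.1.2
  rw [← Finset.sum_fiberwise_of_maps_to hmaps]
  have hlevel : ∀ k ∈ Finset.Icc 1 N,
      ∑ q ∈ (Finset.Icc 3 N).filter Nat.Prime with Nat.log 2 q = k,
        1 / ((q : ℝ) * (Real.log q) ^ (1 / 2 : ℝ)) ≤ D * (k : ℝ) ^ (-(3 / 2) : ℝ) := by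
    intro k hk
    have hk1 : 1 ≤ k := (Finset.mem_Icc.1 hk).1
    have hkR : (0 : ℝ) < k := by exact_mod_cast hk1
    obtain ⟨E, hE⟩ : ∃ E : ℝ, E = 1 / ((2 : ℝ) ^ k * ((k : ℝ) * Real.log 2) ^ (1 / 2 : ℝ)) :=
      ⟨_, rfl⟩
    have hE0 : 0 < E := by
      rw [hE]
      positivity
    have hterm : ∀ q ∈ ((Finset.Icc 3 N).filter Nat.Prime).filter (fun q => Nat.log 2 q = k),
        1 / ((q : ℝ) * (Real.log q) ^ (1 / 2 : ℝ)) ≤ E := by
      intro q hq
      rw [Finset.mem_filter, Finset.mem_filter, Finset.mem_Icc] at hq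
      obtain ⟨⟨⟨h3, h4⟩, h5⟩, h6⟩ := hq
      have h7 : 2 ^ k ≤ q := by
        rw [← h6]
        exact Nat.pow_log_le_self 2 (by omega)
      have h7' : (2 : ℝ) ^ k ≤ q := by exact_mod_cast h7
      have h8 : (k : ℝ) * Real.log 2 ≤ Real.log q := by
        rw [← Real.log_pow]
        exact Real.log_le_log (by positivity) h7'
      rw [hE]
      refine one_div_le_one_div_of_le (by positivity) ?_
      exact mul_le_mul h7' (Real.rpow_le_rpow (by positivity) h8 (by norm_num)) (by positivity)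
        (by positivity)
    have hcard : ((((Finset.Icc 3 N).filter Nat.Prime).filter
        (fun q => Nat.log 2 q = k)).card : ℝ) ≤ C * 2 ^ (k + 1) / ((k + 1) * Real.log 2) := by
      have h1 := hC (2 ^ (k + 1)) (by
        calc 2 = 2 ^ 1 := by norm_num
          _ ≤ 2 ^ (k + 1) := Nat.pow_le_pow_right (by norm_num) (by omega))
      push_cast at h1
      rw [Real.log_pow] at h1
      push_cast at h1
      refine le_trans ?_ h1
      have h2 : (((Finset.Icc 3 N).filter Nat.Prime).filter (fun q => Nat.log 2 q = k)) ⊆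
          (Finset.Icc 1 (2 ^ (k + 1))).filter Nat.Prime := by
        intro q hq
        rw [Finset.mem_filter, Finset.mem_filter, Finset.mem_Icc] at hq
        obtain ⟨⟨⟨h3, h4⟩, h5⟩, h6⟩ := hq
        rw [Finset.mem_filter, Finset.mem_Icc]
        refine ⟨⟨by omega, ?_⟩, h5⟩
        rw [← h6]
        exact (Nat.lt_pow_succ_log_self (by norm_num) q).le
      exact_mod_cast Finset.card_le_card h2
    have h1 := Finset.sum_le_card_nsmul _ _ _ hterm
    rw [nsmul_eq_mul] at h1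
    refine h1.trans ((mul_le_mul_of_nonneg_right hcard hE0.le).trans ?_)
    have e1 : ((k : ℝ) * Real.log 2) ^ (1 / 2 : ℝ) =
        (k : ℝ) ^ (1 / 2 : ℝ) * (Real.log 2) ^ (1 / 2 : ℝ) := Real.mul_rpow hkR.le hl2.le
    have e2 : (k : ℝ) ^ (-(3 / 2) : ℝ) = 1 / (k * (k : ℝ) ^ (1 / 2 : ℝ)) := by
      rw [Real.rpow_neg hkR.le, ← one_div]
      congr 1
      have : (3 / 2 : ℝ) = 1 + 1 / 2 := by norm_num
      rw [this, Real.rpow_add hkR, Real.rpow_one]
    have hk2 : 0 < (k : ℝ) ^ (1 / 2 : ℝ) := Real.rpow_pos_of_pos hkR _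
    rw [hE, e1, e2, hD]
    have e3 : C * 2 ^ (k + 1) / (((k : ℝ) + 1) * Real.log 2) *
        (1 / ((2 : ℝ) ^ k * ((k : ℝ) ^ (1 / 2 : ℝ) * (Real.log 2) ^ (1 / 2 : ℝ)))) =
        2 * C / (Real.log 2 * (Real.log 2) ^ (1 / 2 : ℝ)) *
          (1 / (((k : ℝ) + 1) * (k : ℝ) ^ (1 / 2 : ℝ))) := by
      rw [pow_succ]
      field_simp
    rw [e3]
    refine mul_le_mul_of_nonneg_left ?_ (by positivity)
    refine one_div_le_one_div_of_le (by positivity) ?_
    exact mul_le_mul_of_nonneg_right (by linarith) hk2.le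
  refine (Finset.sum_le_sum hlevel).trans ?_
  rw [← Finset.mul_sum]
  have h2 : ∑ k ∈ Finset.Icc 1 N, (k : ℝ) ^ (-(3 / 2) : ℝ) ≤ ∑' k : ℕ, (k : ℝ) ^ (-(3 / 2) : ℝ) :=
    hsum.sum_le_tsum _ fun k _ => Real.rpow_nonneg (Nat.cast_nonneg k) _
  have h3 := mul_le_mul_of_nonneg_left h2 hD0.le
  linarith

theorem gsum : ∃ C : ℝ, 0 < C ∧ ∀ N : ℕ,
    ∑ m ∈ (Finset.Icc 1 N).filter (fun m => Squarefree m ∧ ∀ q ∈ m.primeFactors, 3 ≤ q),
      (∏ q ∈ m.primeFactors, (Real.log q) ^ (-(1 / 2 : ℝ))) / m ≤ C := by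
  classical
  obtain ⟨C, hC0, hC⟩ := prsum
  refine ⟨Real.exp C, Real.exp_pos C, fun N => ?_⟩
  obtain ⟨f, hf⟩ : ∃ f : ℕ → ℝ, ∀ q, f q = 1 / ((q : ℝ) * (Real.log q) ^ (1 / 2 : ℝ)) :=
    ⟨_, fun q => rfl⟩
  have hf0 : ∀ q, 0 ≤ f q := by
    intro q
    rw [hf]
    have : 0 ≤ Real.log q := Real.log_natCast_nonneg q
    positivity
  obtain ⟨F, hF⟩ : ∃ F : Finset ℕ, F = (Finset.Icc 1 N).filter
    (fun m => Squarefree m ∧ ∀ q ∈ m.primeFactors, 3 ≤ q) := ⟨_, rfl⟩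
  obtain ⟨P, hP⟩ : ∃ P : Finset ℕ, P = (Finset.Icc 3 N).filter Nat.Prime := ⟨_, rfl⟩
  have hterm : ∀ m ∈ F, (∏ q ∈ m.primeFactors, (Real.log q) ^ (-(1 / 2 : ℝ))) / m =
      ∏ q ∈ m.primeFactors, f q := by
    intro m hm
    rw [hF, Finset.mem_filter] at hm
    have h1 : (m : ℝ) = ∏ q ∈ m.primeFactors, (q : ℝ) := by
      rw [← Nat.cast_prod, Nat.prod_primeFactors_of_squarefree hm.2.1]
    conv_lhs => rw [h1]
    rw [← Finset.prod_div_distrib]
    refine Finset.prod_congr rfl fun q _ => ?_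
    rw [hf, Real.rpow_neg (Real.log_natCast_nonneg q)]
    rw [div_eq_mul_inv, ← mul_inv, mul_comm, one_div ((q : ℝ) * _)]
  have hinj : Set.InjOn Nat.primeFactors (F : Set ℕ) := by
    intro a ha b hb hab
    rw [Finset.mem_coe, hF, Finset.mem_filter] at ha hb
    rw [← Nat.prod_primeFactors_of_squarefree ha.2.1, hab,
      Nat.prod_primeFactors_of_squarefree hb.2.1]
  have hsub : F.image Nat.primeFactors ⊆ P.powerset := by
    intro S hS
    obtain ⟨m, hm, rfl⟩ := Finset.mem_image.1 hS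
    rw [hF, Finset.mem_filter, Finset.mem_Icc] at hm
    rw [Finset.mem_powerset]
    intro q hq
    rw [hP, Finset.mem_filter, Finset.mem_Icc]
    refine ⟨⟨hm.2.2 q hq, ?_⟩, Nat.prime_of_mem_primeFactors hq⟩
    exact (Nat.le_of_mem_primeFactors hq).trans hm.1.2
  rw [← hF]
  calc ∑ m ∈ F, (∏ q ∈ m.primeFactors, (Real.log q) ^ (-(1 / 2 : ℝ))) / m
      = ∑ m ∈ F, ∏ q ∈ m.primeFactors, f q := Finset.sum_congr rfl hterm
    _ = ∑ S ∈ F.image Nat.primeFactors, ∏ q ∈ S, f q :=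
        (Finset.sum_image (f := fun S => ∏ q ∈ S, f q) hinj).symm
    _ ≤ ∑ S ∈ P.powerset, ∏ q ∈ S, f q :=
        Finset.sum_le_sum_of_subset_of_nonneg hsub fun S _ _ => Finset.prod_nonneg fun q _ => hf0 q
    _ = ∏ q ∈ P, (1 + f q) := (Finset.prod_one_add P).symm
    _ ≤ ∏ q ∈ P, Real.exp (f q) := by
        refine Finset.prod_le_prod (fun q _ => by linarith [hf0 q]) fun q _ => ?_
        rw [add_comm]
        exact Real.add_one_le_exp _
    _ = Real.exp (∑ q ∈ P, f q) := (Real.exp_sum _ _).symm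
    _ ≤ Real.exp C := by
        refine Real.exp_le_exp.2 ?_
        have := hC N
        rw [← hP] at this
        refine le_trans (le_of_eq ?_) this
        exact Finset.sum_congr rfl fun q _ => hf q

end Pool.Agent.H97.EP

end

section

/-!
# Project EP, module `ARiesz` : abstract duality in `ℓ²`, with the representer in the closure of the range

Same as `Pool/Agent/H97/SD/Riesz.lean` (copy it), but with the closure `K` of the range of `Λ : V → ℓ²`,
`v ↦ (F_i v)_i` (a complete subspace, hence a Hilbert space): `L` induces a bounded functional on the range of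
`Λ` of norm `≤ √C`, extend it by continuity (or Hahn-Banach on `ℓ²` and then project the representing vector onto
`K`) and represent it by `β ∈ K`, `‖β‖² ≤ C`.
Point bound: `β = lim Λ v_k`; `(F_i v_k)² ≤ K_i ‖Λ v_k‖²` and coordinates are continuous, so `β_i² ≤ K_i ‖β‖² ≤ K_i C`.
(Equivalently: the set of `x ∈ ℓ²` with `x_i² ≤ K_i ‖x‖²` is closed and contains the range.)
-/

set_option autoImplicit false

namespace Pool.Agent.H97.EP

private theorem riesz_mem {ι : Type} (f : ι → ℝ) (hf : Summable fun i => (f i) ^ 2) :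
    Memℓp (E := fun _ : ι => ℝ) f 2 := by
  refine memℓp_gen ?_
  refine hf.congr fun i => ?_
  simp

private theorem riesz_norm {ι : Type} (f : lp (fun _ : ι => ℝ) 2) :
    ‖f‖ ^ 2 = ∑' i, (f i) ^ 2 := by
  have h := lp.norm_rpow_eq_tsum (p := 2) (by norm_num) f
  simpa using h

theorem riesz {V ι : Type} [AddCommGroup V] [Module ℝ V] (F : ι → V →ₗ[ℝ] ℝ)
    (hF : ∀ v, Summable fun i => (F i v) ^ 2) (L : V →ₗ[ℝ] ℝ) (C : ℝ) (hC : 0 ≤ C)
    (hL : ∀ v, (L v) ^ 2 ≤ C * ∑' i, (F i v) ^ 2) :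
    ∃ β : ι → ℝ, (Summable fun i => (β i) ^ 2) ∧ ∑' i, (β i) ^ 2 ≤ C ∧
      (∀ v, HasSum (fun i => β i * F i v) (L v)) ∧
      ∀ (i : ι) (K : ℝ), 0 ≤ K → (∀ v, (F i v) ^ 2 ≤ K * ∑' j, (F j v) ^ 2) → (β i) ^ 2 ≤ K * C := by
  classical
  let E := lp (fun _ : ι => ℝ) 2
  let Λ : V →ₗ[ℝ] E :=
    { toFun := fun v => ⟨fun i => F i v, riesz_mem _ (hF v)⟩
      map_add' := fun v w => by
        ext i
        exact (F i).map_add v w
      map_smul' := fun c v => by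
        ext i
        exact (F i).map_smul c v }
  have hΛ : ∀ v i, (Λ v : ι → ℝ) i = F i v := fun v i => rfl
  have hn : ∀ v, ‖Λ v‖ ^ 2 = ∑' i, (F i v) ^ 2 := fun v => by
    rw [riesz_norm]
    simp only [hΛ]
  have hb : ∀ v, |L v| ≤ Real.sqrt C * ‖Λ v‖ := by
    intro v
    have h1 := hL v
    rw [← hn v] at h1
    have h2 : (L v) ^ 2 ≤ (Real.sqrt C * ‖Λ v‖) ^ 2 := by
      rw [mul_pow, Real.sq_sqrt hC]
      exact h1
    exact abs_le_of_sq_le_sq h2 (by positivity)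
  have hker : LinearMap.ker Λ ≤ LinearMap.ker L := by
    intro v hv
    rw [LinearMap.mem_ker] at hv ⊢
    have h1 := hb v
    rw [hv, norm_zero, mul_zero] at h1
    exact abs_nonpos_iff.1 h1
  let g : LinearMap.range Λ →ₗ[ℝ] ℝ :=
    (LinearMap.ker Λ).liftQ L hker ∘ₗ Λ.quotKerEquivRange.symm.toLinearMap
  have hg : ∀ v, g ⟨Λ v, v, rfl⟩ = L v := by
    intro v
    have h1 : Λ.quotKerEquivRange.symm ⟨Λ v, v, rfl⟩ = (LinearMap.ker Λ).mkQ v := by
      rw [LinearEquiv.symm_apply_eq]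
      rfl
    simp only [g, LinearMap.comp_apply, LinearEquiv.coe_coe, h1]
    simp
  have hgb : ∀ x : LinearMap.range Λ, ‖g x‖ ≤ Real.sqrt C * ‖x‖ := by
    rintro ⟨x, v, rfl⟩
    have h1 := hb v
    rw [hg v]
    exact h1
  let f : LinearMap.range Λ →L[ℝ] ℝ := g.mkContinuous (Real.sqrt C) hgb
  have hfn : ‖f‖ ≤ Real.sqrt C := LinearMap.mkContinuous_norm_le _ (Real.sqrt_nonneg C) hgb
  obtain ⟨G, hG, hGn⟩ := exists_extension_norm_eq (LinearMap.range Λ) f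
  let β0 : E := (InnerProductSpace.toDual ℝ E).symm G
  have hβ0 : ‖β0‖ ≤ Real.sqrt C := by
    have h1 : ‖β0‖ = ‖G‖ := (InnerProductSpace.toDual ℝ E).symm.norm_map G
    rw [h1, hGn]
    exact hfn
  let K0 : Submodule ℝ E := (LinearMap.range Λ).topologicalClosure
  have : CompleteSpace K0 := Submodule.topologicalClosure.completeSpace _
  let β : E := K0.starProjection β0
  have hβK : β ∈ K0 := Submodule.starProjection_apply_mem K0 β0
  have hβn : ‖β‖ ≤ Real.sqrt C := (Submodule.norm_starProjection_apply_le K0 β0).trans hβ0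
  have hβ2 : ‖β‖ ^ 2 ≤ C := by
    have h1 : ‖β‖ ^ 2 ≤ Real.sqrt C ^ 2 := pow_le_pow_left₀ (norm_nonneg β) hβn 2
    rwa [Real.sq_sqrt hC] at h1
  refine ⟨fun i => β i, ?_, ?_, ?_, ?_⟩
  · have h1 := lp.memℓp β
    have h2 := h1.summable (by norm_num : 0 < (2 : ENNReal).toReal)
    refine h2.congr fun i => ?_
    simp
  · rw [← riesz_norm β]
    exact hβ2
  · intro v
    have h1 := lp.hasSum_inner (𝕜 := ℝ) β (Λ v)
    have hmem : Λ v ∈ K0 := Submodule.le_topologicalClosure _ ⟨v, rfl⟩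
    have h2 : inner ℝ β (Λ v) = L v := by
      have h3 : inner ℝ β0 (Λ v) = G (Λ v) := InnerProductSpace.toDual_symm_apply
      have h4 : inner ℝ β (Λ v) = inner ℝ β0 (Λ v) := by
        have h5 := Submodule.inner_starProjection_left_eq_right K0 β0 (Λ v)
        rw [Submodule.starProjection_eq_self_iff.mpr hmem] at h5
        exact h5
      rw [h4, h3, hG ⟨Λ v, v, rfl⟩]
      exact hg v
    rw [h2] at h1
    have h4 : (fun i => inner ℝ ((β : ι → ℝ) i) ((Λ v : ι → ℝ) i)) = fun i => β i * F i v := by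
      funext i
      rw [hΛ]
      simp [mul_comm]
    rw [h4] at h1
    exact h1
  · intro i K hK hFK
    have hclosed : IsClosed {x : E | ((x : ι → ℝ) i) ^ 2 ≤ K * ‖x‖ ^ 2} := by
      refine isClosed_le ?_ (continuous_const.mul (continuous_norm.pow 2))
      exact ((continuous_apply i).comp (lp.uniformContinuous_coe (p := 2)).continuous).pow 2
    have hsub : ((LinearMap.range Λ : Submodule ℝ E) : Set E) ⊆
        {x : E | ((x : ι → ℝ) i) ^ 2 ≤ K * ‖x‖ ^ 2} := by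
      rintro x ⟨v, rfl⟩
      change ((Λ v : ι → ℝ) i) ^ 2 ≤ K * ‖Λ v‖ ^ 2
      rw [hΛ, hn v]
      exact hFK v
    have h1 : β ∈ {x : E | ((x : ι → ℝ) i) ^ 2 ≤ K * ‖x‖ ^ 2} :=
      closure_minimal hsub hclosed hβK
    have h2 : ((β : ι → ℝ) i) ^ 2 ≤ K * ‖β‖ ^ 2 := h1
    exact h2.trans (mul_le_mul_of_nonneg_left hβ2 hK)

end Pool.Agent.H97.EP

end

section

/-!
# Project EP, module `ADec` : decay of the test functions

`|pr w f u| ≤ C e^{-au}` for `u ≥ 0`, where `a > 0` is the minimum of the `t` and `1/t`, `t ∈ f.support` (finite set;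
if the support is empty everything is `0`), `C = ∑ |c_t|(1 + t^{-w})`.  With `e^{-y} ≤ M!/y^M` (`y > 0`) and
`nd d Q n = (n/Q)^κ`, `κ = 2/d`: `n^κ (pr f (nd n))² ≤ C' n^κ n^{-2κM} ≤ C' n^{-2}` for `M` large.
`L : linearity` is proved from `Finsupp.sum_add_index'`, `Finsupp.sum_smul_index'`.
-/

set_option autoImplicit false
open MeasureTheory Set
open scoped ENNReal

namespace Pool.Agent.H97.EP

theorem pr_add (w : ℝ) (f g : VR) (u : ℝ) : pr w (f + g) u = pr w f u + pr w g u := by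
  unfold pr
  rw [Finsupp.sum_add_index']
  · intro t
    rw [zero_mul]
  · intro t a b
    rw [add_mul]

theorem pr_smul (w c : ℝ) (f : VR) (u : ℝ) : pr w (c • f) u = c * pr w f u := by
  unfold pr
  rw [Finsupp.sum_smul_index', Finsupp.mul_sum]
  · refine Finset.sum_congr rfl fun t _ => ?_
    simp only [smul_eq_mul]
    ring
  · intro t
    rw [zero_mul]

private theorem ADec_O (w b : ℝ) (f : VR) :
    (fun u : ℝ => pr w f u) =O[Filter.atTop] fun u : ℝ => u ^ b := by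
  unfold pr Finsupp.sum
  refine Asymptotics.IsBigO.fun_sum fun t _ => ?_
  refine Asymptotics.IsBigO.const_mul_left (Asymptotics.IsBigO.sub ?_ ?_) _
  · have h := (isLittleO_exp_neg_mul_rpow_atTop t.2 b).isBigO
    simpa [neg_mul] using h
  · refine Asymptotics.IsBigO.const_mul_left ?_ _
    have h := (isLittleO_exp_neg_mul_rpow_atTop (inv_pos.mpr t.2) b).isBigO
    refine h.congr_left fun u => ?_
    congr 1
    rw [div_eq_inv_mul, neg_mul]

theorem pr_sq_summable {d Q : ℝ} (hd : 4 < d) (hQ : 0 < Q) (f : VR) :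
    Summable fun n : ℕ => (n : ℝ) ^ (2 / d) * pr (d / 2) f (nd d Q n) ^ 2 := by
  have hκ : 0 < 2 / d := by positivity
  have htend : Filter.Tendsto (fun n : ℕ => nd d Q n) Filter.atTop Filter.atTop := by
    unfold nd
    exact (tendsto_rpow_atTop hκ).comp (tendsto_natCast_atTop_atTop.atTop_div_const hQ)
  have h1 := (ADec_O (d / 2) (-(d / 2 + 1 / 2)) f).comp_tendsto htend
  have h2 := (Asymptotics.isBigO_refl (fun n : ℕ => (n : ℝ) ^ (2 / d)) Filter.atTop).mul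
    (h1.pow 2)
  have h3 : (fun n : ℕ => (n : ℝ) ^ (2 / d) * pr (d / 2) f (nd d Q n) ^ 2) =O[Filter.atTop]
      fun n : ℕ => (n : ℝ) ^ (-2 : ℝ) := by
    refine Asymptotics.IsBigO.trans h2 ?_
    have h4 : (fun n : ℕ => (n : ℝ) ^ (2 / d) *
        (((fun u : ℝ => u ^ (-(d / 2 + 1 / 2))) ∘ fun n : ℕ => nd d Q n) n) ^ 2)
          =ᶠ[Filter.atTop] fun n : ℕ => Q ^ (2 + 2 / d) * (n : ℝ) ^ (-2 : ℝ) := by
      filter_upwards [Filter.eventually_ge_atTop 1] with n hn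
      have hn0 : (0 : ℝ) < n := by exact_mod_cast hn
      have hnQ : 0 < (n : ℝ) / Q := div_pos hn0 hQ
      simp only [Function.comp, nd]
      rw [← Real.rpow_natCast, ← Real.rpow_mul hnQ.le, ← Real.rpow_mul hnQ.le,
        Real.div_rpow hn0.le hQ.le]
      have hd0 : d ≠ 0 := by linarith
      have he : 2 / d * -(d / 2 + 1 / 2) * ((2 : ℕ) : ℝ) = -2 - 2 / d := by
        push_cast
        field_simp
        ring
      rw [he]
      have h5 : Q ^ (-2 - 2 / d : ℝ) = (Q ^ (2 + 2 / d))⁻¹ := by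
        rw [← Real.rpow_neg hQ.le]
        congr 1
        ring
      rw [h5, div_inv_eq_mul, ← mul_assoc, ← Real.rpow_add hn0, mul_comm]
      congr 2
      ring
    exact h4.isBigO.trans (Asymptotics.isBigO_const_mul_self _ _ _)
  exact summable_of_isBigO_nat (Real.summable_nat_rpow.mpr (by norm_num)) h3

end Pool.Agent.H97.EP

end
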