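import Pool.Agent.H47.B1.H91.GoldMertens2
import Pool.Agent.H47.B1.M38
import Pool.Agent.H47.B1.M40

/-! The parts of this file: H88.E58.Dif, H88.PSI.MuB, H88.PSI.SmB, H88.PSI.BoxI, H88.E58.Tp. -/

section

/-!
# E58 Dif: Fourier formula for `sw`, and comparison of two window lengths

`inv`: `ψ(v)/η = ∫ g(η t) ee(η t v) dt` (substitution in `Bump.inv`), `v = (log n - log x)/η`, and the finite sum is exchanged with the integral
(`g (η ·)` is integrable, `|ee| = 1`).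

`dif`: `g(η t) - g(η1 t)`: for `|t| ≤ T0` it is `≤ C |t| (η1 - η) ≤ C T0 η1` (`glip`), and `‖DP f N t‖ ≤ S` (`dp_norm_le`), total `≤ 2 C T0^2 η1 S`;
for `T0 ≤ |t| ≤ T` it is `≤ 2 C` (`gdec 0`); for `|t| > T` it is `≤ 2 C_k/(η |t|)^k` (`gdec k` at `η t` and `η1 t`, `η ≤ η1`) and
`∫_{|t| > T} |t|^(-k) dt = 2 T^(1-k)/(k-1) ≤ 2 T^(1-k)`.
-/

set_option autoImplicit false

namespace Pool.Agent.H88.E58

open Finset MeasureTheory
open Pool.Agent.H91.PK (ee)
open Pool.Agent.H88.PSI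

private theorem Dif_ee_add (x y : ℝ) : ee (x + y) = ee x * ee y := by
  unfold Pool.Agent.H91.PK.ee
  rw [← Complex.exp_add]
  congr 1
  push_cast
  ring

private theorem Dif_norm_ee (x : ℝ) : ‖ee x‖ = 1 := by
  unfold Pool.Agent.H91.PK.ee
  have h1 : 2 * (Real.pi : ℂ) * (x : ℂ) * Complex.I = ((2 * Real.pi * x : ℝ) : ℂ) * Complex.I := by
    push_cast
    ring
  rw [h1, Complex.norm_exp_ofReal_mul_I]

private theorem Dif_ee_cont : Continuous ee := by
  have h : ee = fun t : ℝ => Complex.exp (2 * Real.pi * t * Complex.I) := rfl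
  rw [h]
  fun_prop

private theorem Dif_sub {ψ : ℝ → ℝ} {g : ℝ → ℂ} (h : Bump ψ g) (v η : ℝ) (hη : 0 < η) :
    ((ψ v / η : ℝ) : ℂ) = ∫ t : ℝ, g (η * t) * ee (η * t * v) := by
  have h1 := Measure.integral_comp_mul_left (fun t => g t * ee (t * v)) η
  rw [h1, ← h.inv v, abs_of_pos (by positivity), Complex.real_smul]
  push_cast
  ring

private theorem Dif_int {ψ : ℝ → ℝ} {g : ℝ → ℂ} (h : Bump ψ g) {η : ℝ} (hη : 0 < η) :
    Integrable (fun t => g (η * t)) :=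
  h.gint.comp_mul_left' hη.ne'

private theorem Dif_int2 {ψ : ℝ → ℝ} {g : ℝ → ℂ} (h : Bump ψ g) {η : ℝ} (hη : 0 < η) (a b : ℝ) (z : ℂ) :
    Integrable (fun t => g (η * t) * (z * ee (t * a)) * ee (-(t * b))) := by
  have h1 : Continuous (fun t => g (η * t)) := h.gcont.comp (continuous_const.mul continuous_id)
  have h2 : Continuous (fun t : ℝ => z * ee (t * a)) :=
    continuous_const.mul (Dif_ee_cont.comp (continuous_id.mul continuous_const))
  have h3 : Continuous (fun t : ℝ => ee (-(t * b))) :=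
    Dif_ee_cont.comp (continuous_id.mul continuous_const).neg
  refine ((Dif_int h hη).norm.const_mul ‖z‖).mono' ((h1.mul h2).mul h3).aestronglyMeasurable
    (Filter.Eventually.of_forall fun t => ?_)
  rw [norm_mul, norm_mul, norm_mul, Dif_norm_ee, Dif_norm_ee, mul_one, mul_one, mul_comm]

private theorem Dif_cauchy {T : ℝ} (hT : 0 < T) :
    Integrable (fun t : ℝ => (1 + (t / T) ^ 2)⁻¹) ∧ ∫ t : ℝ, (1 + (t / T) ^ 2)⁻¹ = T * Real.pi := by
  constructor
  · exact (integrable_inv_one_add_sq).comp_div hT.ne'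
  · have h1 := Measure.integral_comp_div (fun t : ℝ => (1 + t ^ 2)⁻¹) T
    rw [h1, integral_univ_inv_one_add_sq, abs_of_pos hT, smul_eq_mul]

private theorem Dif_pt {g : ℝ → ℂ} {C0 C1 Ck : ℝ} {k : ℕ} (hk : 2 ≤ k)
    (h0 : ∀ t : ℝ, ‖g t‖ * |t| ^ 0 ≤ C0) (h1 : ∀ s t, ‖g s - g t‖ ≤ C1 * |s - t|)
    (h2 : ∀ t : ℝ, ‖g t‖ * |t| ^ k ≤ Ck) (hC0 : 1 ≤ C0) (hC1 : 1 ≤ C1) (hCk : 1 ≤ Ck)
    {η η1 T0 T : ℝ} (hη : 0 < η) (hη1 : η ≤ η1) (hT0 : 1 ≤ T0) (hT : T0 ≤ T) (D S : ℝ) (hD : 0 ≤ D)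
    (hDS : D ≤ S) (t : ℝ) :
    ‖g (η * t) - g (η1 * t)‖ * D ≤
      (Set.Icc (-T0) T0).indicator (fun _ => C1 * T0 * η1 * S) t +
      {t : ℝ | T0 ≤ |t| ∧ |t| ≤ T}.indicator (fun _ => 2 * C0 * D) t +
      4 * Ck * S / (η * T) ^ k * (1 + (t / T) ^ 2)⁻¹ := by
  have hS : 0 ≤ S := hD.trans hDS
  have hTp : 0 < T := by linarith
  have hη1p : 0 < η1 := by linarith
  have ha : 0 ≤ (Set.Icc (-T0) T0).indicator (fun _ => C1 * T0 * η1 * S) t :=
    Set.indicator_nonneg (fun _ _ => by positivity) _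
  have hb : 0 ≤ {t : ℝ | T0 ≤ |t| ∧ |t| ≤ T}.indicator (fun _ => 2 * C0 * D) t :=
    Set.indicator_nonneg (fun _ _ => by positivity) _
  have hc : 0 ≤ 4 * Ck * S / (η * T) ^ k * (1 + (t / T) ^ 2)⁻¹ := by positivity
  rcases le_or_gt |t| T0 with ht | ht
  · have e1 : (Set.Icc (-T0) T0).indicator (fun _ => C1 * T0 * η1 * S) t = C1 * T0 * η1 * S :=
      Set.indicator_of_mem (Set.mem_Icc.2 (abs_le.1 ht)) _
    have e2 : ‖g (η * t) - g (η1 * t)‖ ≤ C1 * T0 * η1 := by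
      refine (h1 _ _).trans ?_
      have e3 : |η * t - η1 * t| = |t| * (η1 - η) := by
        rw [← sub_mul, abs_mul, mul_comm, abs_sub_comm, abs_of_nonneg (sub_nonneg.2 hη1)]
      rw [e3, mul_assoc]
      refine mul_le_mul_of_nonneg_left ?_ (by linarith)
      exact mul_le_mul ht (by linarith) (by linarith) (by linarith)
    have e4 : ‖g (η * t) - g (η1 * t)‖ * D ≤ C1 * T0 * η1 * S :=
      mul_le_mul e2 hDS hD (by positivity)
    rw [e1]
    linarith
  · rcases le_or_gt |t| T with ht2 | ht2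
    · have e1 : {t : ℝ | T0 ≤ |t| ∧ |t| ≤ T}.indicator (fun _ => 2 * C0 * D) t = 2 * C0 * D :=
        Set.indicator_of_mem (show t ∈ {t : ℝ | T0 ≤ |t| ∧ |t| ≤ T} from ⟨ht.le, ht2⟩) _
      have e2 : ‖g (η * t) - g (η1 * t)‖ ≤ 2 * C0 := by
        have e3 := h0 (η * t)
        have e4 := h0 (η1 * t)
        rw [pow_zero, mul_one] at e3 e4
        exact (norm_sub_le _ _).trans (by linarith)
      have e5 := mul_le_mul_of_nonneg_right e2 hD
      rw [e1]
      linarith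
    · have htp : 0 < |t| := by linarith
      have e1 : ‖g (η * t)‖ ≤ Ck / (η * |t|) ^ k := by
        rw [le_div_iff₀ (by positivity)]
        have := h2 (η * t)
        rwa [abs_mul, abs_of_pos hη] at this
      have e2 : ‖g (η1 * t)‖ ≤ Ck / (η * |t|) ^ k := by
        have e3 : ‖g (η1 * t)‖ ≤ Ck / (η1 * |t|) ^ k := by
          rw [le_div_iff₀ (by positivity)]
          have := h2 (η1 * t)
          rwa [abs_mul, abs_of_pos hη1p] at this
        refine e3.trans (div_le_div_of_nonneg_left (by linarith) (by positivity) ?_)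
        exact pow_le_pow_left₀ (by positivity) (mul_le_mul_of_nonneg_right hη1 htp.le) k
      have e4 : ‖g (η * t) - g (η1 * t)‖ ≤ 2 * (Ck / (η * |t|) ^ k) :=
        (norm_sub_le _ _).trans (by linarith)
      -- comparison with the Cauchy density
      have e5 : 1 / (η * |t|) ^ k ≤ 2 / (η * T) ^ k * (1 + (t / T) ^ 2)⁻¹ := by
        have f1 : 1 / (η * |t|) ^ k = 1 / (η * T) ^ k * (T / |t|) ^ k := by
          rw [mul_pow, mul_pow, div_pow]
          field_simp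
        have f2 : (T / |t|) ^ k ≤ (T / |t|) ^ 2 :=
          pow_le_pow_of_le_one (by positivity) ((div_le_one htp).2 ht2.le) hk
        have f3 : (T / |t|) ^ 2 ≤ 2 * (1 + (t / T) ^ 2)⁻¹ := by
          rw [← div_eq_mul_inv, le_div_iff₀ (by positivity), div_pow, sq_abs]
          have f4 : T ^ 2 ≤ t ^ 2 := by
            rw [← sq_abs t]
            exact pow_le_pow_left₀ hTp.le ht2.le 2
          have htt : 0 < t ^ 2 := lt_of_lt_of_le (by positivity) f4
          rw [div_mul_eq_mul_div, div_le_iff₀ htt]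
          have f5 : T ^ 2 * (1 + (t / T) ^ 2) = T ^ 2 + t ^ 2 := by
            field_simp
          rw [f5]
          linarith
        rw [f1]
        calc 1 / (η * T) ^ k * (T / |t|) ^ k ≤ 1 / (η * T) ^ k * (2 * (1 + (t / T) ^ 2)⁻¹) :=
              mul_le_mul_of_nonneg_left (f2.trans f3) (by positivity)
          _ = _ := by ring
      have e6 : ‖g (η * t) - g (η1 * t)‖ * D ≤ 2 * (Ck / (η * |t|) ^ k) * S :=
        mul_le_mul e4 hDS hD (by positivity)
      have e7 : 2 * (Ck / (η * |t|) ^ k) * S = 2 * Ck * S * (1 / (η * |t|) ^ k) := by ring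
      have e8 : 2 * Ck * S * (1 / (η * |t|) ^ k) ≤
          2 * Ck * S * (2 / (η * T) ^ k * (1 + (t / T) ^ 2)⁻¹) :=
        mul_le_mul_of_nonneg_left e5 (by positivity)
      have e9 : 2 * Ck * S * (2 / (η * T) ^ k * (1 + (t / T) ^ 2)⁻¹) =
          4 * Ck * S / (η * T) ^ k * (1 + (t / T) ^ 2)⁻¹ := by ring
      linarith

theorem inv {ψ : ℝ → ℝ} {g : ℝ → ℂ} (h : Bump ψ g) (f : ℕ → ℂ) (N : ℕ) (x η : ℝ) (hη : 0 < η) :
    sw ψ f N x η = ∫ t : ℝ, g (η * t) * DP f N t * ee (-(t * Real.log x)) := by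
  have h1 : ∀ n ∈ Icc 1 N, f n * ((ψ ((Real.log n - Real.log x) / η) / η : ℝ) : ℂ) =
      ∫ t : ℝ, g (η * t) * (f n * ee (t * Real.log n)) * ee (-(t * Real.log x)) := by
    intro n _
    rw [Dif_sub h _ η hη, ← integral_const_mul]
    refine integral_congr_ae (Filter.Eventually.of_forall fun t => ?_)
    simp only
    have h2 : η * t * ((Real.log n - Real.log x) / η) = t * Real.log n + -(t * Real.log x) := by
      field_simp
      ring
    rw [h2, Dif_ee_add]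
    ring
  unfold sw
  rw [sum_congr rfl h1, ← integral_finsetSum _ (fun n _ => Dif_int2 h hη _ _ _)]
  refine integral_congr_ae (Filter.Eventually.of_forall fun t => ?_)
  simp only
  unfold DP
  rw [mul_sum, sum_mul]

theorem dif {ψ : ℝ → ℝ} {g : ℝ → ℂ} (h : Bump ψ g) (k : ℕ) (hk : 2 ≤ k) :
    ∃ C : ℝ, 1 ≤ C ∧ ∀ (f : ℕ → ℂ) (N : ℕ) (x η η1 T0 T : ℝ), 0 < η → η ≤ η1 → 1 ≤ T0 → T0 ≤ T →
      ‖sw ψ f N x η - sw ψ f N x η1‖ ≤ C * (T0 ^ 2 * η1 * ∑ n ∈ Icc 1 N, ‖f n‖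
        + (∫ t in {t : ℝ | T0 ≤ |t| ∧ |t| ≤ T}, ‖DP f N t‖)
        + (∑ n ∈ Icc 1 N, ‖f n‖) * T / (η * T) ^ k) := by
  obtain ⟨C0, hC0, h0⟩ := h.gdec 0
  obtain ⟨C1, hC1, h1⟩ := h.glip
  obtain ⟨Ck, hCk, h2⟩ := h.gdec k
  refine ⟨2 * C1 + 2 * C0 + 16 * Ck, by linarith, fun f N x η η1 T0 T hη hη1 hT0 hT => ?_⟩
  have hη1p : 0 < η1 := by linarith
  have hTp : 0 < T := by linarith
  set S : ℝ := ∑ n ∈ Icc 1 N, ‖f n‖ with hS
  have hS0 : 0 ≤ S := sum_nonneg fun _ _ => norm_nonneg _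
  have hgc : Continuous g := h.gcont
  have hDPc : Continuous (DP f N) := dp_cont f N
  have hint : ∀ η' : ℝ, 0 < η' → Integrable (fun t => g (η' * t) * DP f N t * ee (-(t * Real.log x))) := by
    intro η' hη'
    have hc1 : Continuous (fun t => g (η' * t)) := hgc.comp (continuous_const.mul continuous_id)
    have hc3 : Continuous (fun t : ℝ => ee (-(t * Real.log x))) :=
      Dif_ee_cont.comp (continuous_id.mul continuous_const).neg
    refine ((Dif_int h hη').norm.mul_const S).mono' ((hc1.mul hDPc).mul hc3).aestronglyMeasurable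
      (Filter.Eventually.of_forall fun t => ?_)
    rw [norm_mul, norm_mul, Dif_norm_ee, mul_one]
    exact mul_le_mul_of_nonneg_left (dp_norm_le f N t) (norm_nonneg _)
  have e1 : sw ψ f N x η - sw ψ f N x η1 =
      ∫ t : ℝ, (g (η * t) - g (η1 * t)) * DP f N t * ee (-(t * Real.log x)) := by
    rw [inv h f N x η hη, inv h f N x η1 hη1p, ← integral_sub (hint η hη) (hint η1 hη1p)]
    refine integral_congr_ae (Filter.Eventually.of_forall fun t => ?_)
    simp only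
    ring
  set B : Set ℝ := {t : ℝ | T0 ≤ |t| ∧ |t| ≤ T} with hB
  have hBm : MeasurableSet B := by
    have hc : Continuous (fun t : ℝ => |t|) := continuous_abs
    exact (isClosed_le continuous_const hc).measurableSet.inter (isClosed_le hc continuous_const).measurableSet
  have hBsub : B ⊆ Set.Icc (-T) T := fun t ht => abs_le.1 ht.2
  have hBint : IntegrableOn (fun t => ‖DP f N t‖) B :=
    (hDPc.norm.continuousOn.integrableOn_Icc (a := -T) (b := T)).mono_set hBsub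
  obtain ⟨hcau, hcau2⟩ := Dif_cauchy hTp
  -- the majorant
  have i1 : Integrable ((Set.Icc (-T0) T0).indicator (fun _ : ℝ => C1 * T0 * η1 * S)) := by
    refine (integrable_indicator_iff measurableSet_Icc).2 ?_
    exact continuous_const.continuousOn.integrableOn_Icc
  have i2 : Integrable (B.indicator (fun t => 2 * C0 * ‖DP f N t‖)) :=
    (integrable_indicator_iff hBm).2 (hBint.const_mul _)
  have i3 : Integrable (fun t : ℝ => 4 * Ck * S / (η * T) ^ k * (1 + (t / T) ^ 2)⁻¹) := hcau.const_mul _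
  have e2 : ‖sw ψ f N x η - sw ψ f N x η1‖ ≤ ∫ t : ℝ,
      ((Set.Icc (-T0) T0).indicator (fun _ : ℝ => C1 * T0 * η1 * S) t +
        B.indicator (fun t => 2 * C0 * ‖DP f N t‖) t +
        4 * Ck * S / (η * T) ^ k * (1 + (t / T) ^ 2)⁻¹) := by
    rw [e1]
    refine norm_integral_le_of_norm_le ((i1.add i2).add i3) (Filter.Eventually.of_forall fun t => ?_)
    rw [norm_mul, norm_mul, Dif_norm_ee, mul_one]
    have e3 := Dif_pt hk h0 h1 h2 hC0 hC1 hCk hη hη1 hT0 hT ‖DP f N t‖ S (norm_nonneg _)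
      (dp_norm_le f N t) t
    have e4 : B.indicator (fun _ => 2 * C0 * ‖DP f N t‖) t = B.indicator (fun t => 2 * C0 * ‖DP f N t‖) t := by
      by_cases ht : t ∈ B
      · rw [Set.indicator_of_mem ht, Set.indicator_of_mem ht]
      · rw [Set.indicator_of_notMem ht, Set.indicator_of_notMem ht]
    rw [e4] at e3
    exact e3
  have e5 : ∫ t : ℝ,
      ((Set.Icc (-T0) T0).indicator (fun _ : ℝ => C1 * T0 * η1 * S) t +
        B.indicator (fun t => 2 * C0 * ‖DP f N t‖) t +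
        4 * Ck * S / (η * T) ^ k * (1 + (t / T) ^ 2)⁻¹) =
      2 * T0 * (C1 * T0 * η1 * S) + 2 * C0 * (∫ t in B, ‖DP f N t‖) +
        4 * Ck * S / (η * T) ^ k * (T * Real.pi) := by
    have j1 : ∫ t : ℝ, (Set.Icc (-T0) T0).indicator (fun _ : ℝ => C1 * T0 * η1 * S) t =
        2 * T0 * (C1 * T0 * η1 * S) := by
      rw [integral_indicator measurableSet_Icc, setIntegral_const, smul_eq_mul, Real.volume_real_Icc_of_le
        (by linarith)]
      ring
    have j2 : ∫ t : ℝ, B.indicator (fun t => 2 * C0 * ‖DP f N t‖) t = 2 * C0 * (∫ t in B, ‖DP f N t‖) := by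
      rw [integral_indicator hBm, integral_const_mul]
    have i12 : Integrable (fun t : ℝ => (Set.Icc (-T0) T0).indicator (fun _ : ℝ => C1 * T0 * η1 * S) t +
        B.indicator (fun t => 2 * C0 * ‖DP f N t‖) t) := i1.add i2
    rw [integral_add i12 i3, integral_add i1 i2, j1, j2, integral_const_mul, hcau2]
  rw [e5] at e2
  refine e2.trans ?_
  have hI : 0 ≤ ∫ t in B, ‖DP f N t‖ := integral_nonneg fun _ => norm_nonneg _
  have hpi : Real.pi ≤ 4 := Real.pi_le_four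
  have q1 : 4 * Ck * S / (η * T) ^ k * (T * Real.pi) ≤ 16 * Ck * (S * T / (η * T) ^ k) := by
    have q2 : 4 * Ck * S / (η * T) ^ k * (T * Real.pi) = 4 * Real.pi * Ck * (S * T / (η * T) ^ k) := by ring
    rw [q2]
    have q3 : 0 ≤ Ck * (S * T / (η * T) ^ k) := by positivity
    nlinarith
  have q4 : 0 ≤ T0 ^ 2 * η1 * S := by positivity
  have q5 : 0 ≤ S * T / (η * T) ^ k := by positivity
  have q6 : 2 * T0 * (C1 * T0 * η1 * S) = 2 * C1 * (T0 ^ 2 * η1 * S) := by ring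
  rw [q6]
  nlinarith [mul_nonneg (show (0 : ℝ) ≤ C1 by linarith) hI, mul_nonneg (show (0 : ℝ) ≤ C1 by linarith) q5,
    mul_nonneg (show (0 : ℝ) ≤ C0 by linarith) q4, mul_nonneg (show (0 : ℝ) ≤ C0 by linarith) q5,
    mul_nonneg (show (0 : ℝ) ≤ Ck by linarith) q4, mul_nonneg (show (0 : ℝ) ≤ Ck by linarith) hI]

end Pool.Agent.H88.E58

end

section

/-!
# PSI MuB: cancellation in `∑ μ(n) χ(n) n^{2 π i t}` over dyadic intervals

(helper43)  `F(n) = χ(n) ee(t log n)` is multiplicative.  For `v ≤ 2u + 1` put `M(u,v) = ∑_{u<n≤v} μ(n) F(n)/n`; `|M| ≤ 1`.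
`μ log = -(μ * Λ)` gives, with `y = ⌈exp(L^{19/20})⌉`,
`∑_{u<n≤v} μ(n) log n F(n)/n = -∑_{k ≤ y} (Λ(k) F(k)/k) M(u/k, v/k) - ∑_{m ≤ v} (μ(m) F(m)/m) ∑_{max(u/m, y) < k ≤ v/m} Λ(k) F(k)/k`
(the condition `v ≤ 2u+1` is inherited by `(u/k, v/k)`).  The second part is `≤ C L^{1-K1}` by `vk_chi_w` and partial summation, the first one
`≤ (log y + 6) sup |M(u/k, v/k)|` (Mertens).  Partial summation with `1/log n` and `log u ≥ L/24`:
`sup |M(u,v)| ≤ L^{-1/40} sup |M(u',v')| + L^{-K-1}`, `u' ≥ u/y`.  Iterate `40 (K+1)` times.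
-/

set_option autoImplicit false

namespace Pool.Agent.H88.PSI

open Finset
open Pool.Agent.H91.PK (ee)
open Pool.Agent.H91.EHA (Lam)

/-- Abel summation with decreasing weights -/
private theorem mub_abel_anti (f : ℕ → ℂ) (g : ℕ → ℝ) (M : ℝ) (u v : ℕ)
    (hM : ∀ w, u ≤ w → w ≤ v → ‖∑ n ∈ Ioc u w, f n‖ ≤ M) (hg0 : ∀ n, u < n → n ≤ v → 0 ≤ g n)
    (hg : ∀ n, u < n → n < v → g (n + 1) ≤ g n) (huv : u < v) :
    ‖∑ n ∈ Ioc u v, (g n : ℂ) * f n‖ ≤ M * g (u + 1) := by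
  have key : ∀ m : ℕ, u + 1 ≤ m → m ≤ v →
      ‖∑ n ∈ Ioc u m, (g n : ℂ) * f n - (g m : ℂ) * ∑ n ∈ Ioc u m, f n‖ ≤
        M * (g (u + 1) - g m) := by
    intro m hm
    induction m, hm using Nat.le_induction with
    | base =>
      intro _
      rw [sum_Ioc_succ_top le_rfl, sum_Ioc_succ_top le_rfl, Ioc_self, sum_empty, sum_empty, zero_add,
        zero_add, sub_self, norm_zero, sub_self, mul_zero]
    | succ m hm ih =>
      intro hz
      have h1 := ih (by omega)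
      rw [sum_Ioc_succ_top (show u ≤ m by omega), sum_Ioc_succ_top (show u ≤ m by omega)]
      have h2 : ∑ k ∈ Ioc u m, (g k : ℂ) * f k + (g (m + 1) : ℂ) * f (m + 1) -
          (g (m + 1) : ℂ) * (∑ k ∈ Ioc u m, f k + f (m + 1)) =
          (∑ k ∈ Ioc u m, (g k : ℂ) * f k - (g m : ℂ) * ∑ k ∈ Ioc u m, f k) +
          ((g m - g (m + 1) : ℝ) : ℂ) * ∑ k ∈ Ioc u m, f k := by
        push_cast; ring
      rw [h2]
      refine (norm_add_le _ _).trans ?_
      have h4 := hg m (by omega) (by omega)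
      rw [norm_mul, Complex.norm_real, Real.norm_of_nonneg (by linarith)]
      have h3 := hM m (by omega) (by omega)
      nlinarith only [h1, h4, h3]
  have h1 := key v (by omega) le_rfl
  have h2 : ∑ n ∈ Ioc u v, (g n : ℂ) * f n =
      (∑ n ∈ Ioc u v, (g n : ℂ) * f n - (g v : ℂ) * ∑ n ∈ Ioc u v, f n) +
      (g v : ℂ) * ∑ n ∈ Ioc u v, f n := by ring
  rw [h2]
  refine (norm_add_le _ _).trans ?_
  rw [norm_mul, Complex.norm_real, Real.norm_of_nonneg (hg0 v huv le_rfl)]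
  have h3 := hM v huv.le le_rfl
  have h4 := hg0 v huv le_rfl
  nlinarith only [h1, h3, h4]

/-- Abel summation with increasing weights -/
theorem mub_abel_mono (f : ℕ → ℂ) (g : ℕ → ℝ) (M : ℝ) (u v : ℕ)
    (hM : ∀ w, u ≤ w → w ≤ v → ‖∑ n ∈ Ioc u w, f n‖ ≤ M) (hg0 : ∀ n, u < n → n ≤ v → 0 ≤ g n)
    (hg : ∀ n, u < n → n < v → g n ≤ g (n + 1)) (huv : u < v) :
    ‖∑ n ∈ Ioc u v, (g n : ℂ) * f n‖ ≤ 2 * M * g v := by
  have hM0 : 0 ≤ M := (norm_nonneg _).trans (hM u le_rfl huv.le)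
  have key : ∀ m : ℕ, u + 1 ≤ m → m ≤ v →
      ‖∑ n ∈ Ioc u m, (g n : ℂ) * f n - (g m : ℂ) * ∑ n ∈ Ioc u m, f n‖ ≤
        M * (g m - g (u + 1)) := by
    intro m hm
    induction m, hm using Nat.le_induction with
    | base =>
      intro _
      rw [sum_Ioc_succ_top le_rfl, sum_Ioc_succ_top le_rfl, Ioc_self, sum_empty, sum_empty, zero_add,
        zero_add, sub_self, norm_zero, sub_self, mul_zero]
    | succ m hm ih =>
      intro hz
      have h1 := ih (by omega)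
      rw [sum_Ioc_succ_top (show u ≤ m by omega), sum_Ioc_succ_top (show u ≤ m by omega)]
      have h2 : ∑ k ∈ Ioc u m, (g k : ℂ) * f k + (g (m + 1) : ℂ) * f (m + 1) -
          (g (m + 1) : ℂ) * (∑ k ∈ Ioc u m, f k + f (m + 1)) =
          (∑ k ∈ Ioc u m, (g k : ℂ) * f k - (g m : ℂ) * ∑ k ∈ Ioc u m, f k) -
          ((g (m + 1) - g m : ℝ) : ℂ) * ∑ k ∈ Ioc u m, f k := by
        push_cast; ring
      rw [h2]
      refine (norm_sub_le _ _).trans ?_
      have h4 := hg m (by omega) (by omega)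
      rw [norm_mul, Complex.norm_real, Real.norm_of_nonneg (by linarith only [h4])]
      have h3 := hM m (by omega) (by omega)
      nlinarith only [h1, h4, h3]
  have h1 := key v (by omega) le_rfl
  have h2 : ∑ n ∈ Ioc u v, (g n : ℂ) * f n =
      (∑ n ∈ Ioc u v, (g n : ℂ) * f n - (g v : ℂ) * ∑ n ∈ Ioc u v, f n) +
      (g v : ℂ) * ∑ n ∈ Ioc u v, f n := by ring
  rw [h2]
  refine (norm_add_le _ _).trans ?_
  rw [norm_mul, Complex.norm_real, Real.norm_of_nonneg (hg0 v huv le_rfl)]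
  have h3 := hM v huv.le le_rfl
  have h4 := hg0 v huv le_rfl
  have h5 := hg0 (u + 1) (by omega) (by omega)
  nlinarith only [h1, hM0, h5, h3, h4, mul_nonneg hM0 h5]

/-- Mertens, upper bound -/
private theorem mub_mert (n : ℕ) (hn : 1 ≤ n) :
    ∑ d ∈ Ioc 0 n, Lam d / d ≤ Real.log n + (Real.log 4 + 4) := by
  have hn0 : (0 : ℝ) < n := by exact_mod_cast hn
  have h1 := Pool.Agent.H91.Gold.log_fact_eq n
  have h2 : ∑ k ∈ Ioc 0 n, Real.log k ≤ n * Real.log n := by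
    calc ∑ k ∈ Ioc 0 n, Real.log k ≤ ∑ k ∈ Ioc 0 n, Real.log n := by
          apply sum_le_sum
          intro k hk
          rw [mem_Ioc] at hk
          exact Real.log_le_log (by exact_mod_cast hk.1) (by exact_mod_cast hk.2)
      _ = n * Real.log n := by rw [sum_const, Nat.card_Ioc, nsmul_eq_mul]; simp
  have h3 := Chebyshev.psi_le_const_mul_self (x := (n : ℝ)) (by positivity)
  rw [Pool.Agent.H91.Gold.psi_eq] at h3
  have h4 : ∑ d ∈ Ioc 0 n, Lam d * ((n : ℝ) / d) ≤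
      ∑ d ∈ Ioc 0 n, Lam d * ((n / d : ℕ) : ℝ) + ∑ d ∈ Ioc 0 n, Lam d := by
    rw [← sum_add_distrib]
    apply sum_le_sum
    intro d hd
    rw [mem_Ioc] at hd
    have h5 : (n : ℝ) / d ≤ ((n / d : ℕ) : ℝ) + 1 := by
      rw [div_le_iff₀ (by exact_mod_cast hd.1)]
      have h6 := Nat.div_add_mod n d
      have h7 := Nat.mod_lt n hd.1
      have h8 : n ≤ (n / d + 1) * d := by nlinarith only [h6, h7]
      exact_mod_cast h8
    have h6 : 0 ≤ Lam d := ArithmeticFunction.vonMangoldt_nonneg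
    nlinarith only [h5, h6, mul_le_mul_of_nonneg_left h5 h6]
  have h5 : ∑ d ∈ Ioc 0 n, Lam d * ((n : ℝ) / d) = n * ∑ d ∈ Ioc 0 n, Lam d / d := by
    rw [mul_sum]
    exact sum_congr rfl fun d _ => by ring
  have h6 : (n : ℝ) * ∑ d ∈ Ioc 0 n, Lam d / d ≤ n * (Real.log n + (Real.log 4 + 4)) := by
    rw [← h5]
    unfold Lam at h4 ⊢
    linarith only [h1, h2, h3, h4]
  exact le_of_mul_le_mul_left h6 hn0

/-- `μ log = -(μ * Λ)` -/
private theorem mub_mulog (n : ℕ) :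
    (((ArithmeticFunction.moebius n : ℤ) : ℝ)) * Real.log n =
      -∑ x ∈ n.divisorsAntidiagonal, ((ArithmeticFunction.moebius x.1 : ℤ) : ℝ) * Lam x.2 := by
  have hb : (ArithmeticFunction.log.pmul ((ArithmeticFunction.moebius : ArithmeticFunction ℤ) :
      ArithmeticFunction ℝ)) = -(((ArithmeticFunction.moebius : ArithmeticFunction ℤ) :
      ArithmeticFunction ℝ) * ArithmeticFunction.vonMangoldt) := by
    have h1 : (ArithmeticFunction.log.pmul ((ArithmeticFunction.moebius : ArithmeticFunction ℤ) :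
      ArithmeticFunction ℝ)) * ((ArithmeticFunction.zeta : ArithmeticFunction ℕ) : ArithmeticFunction ℝ)
        = -ArithmeticFunction.vonMangoldt := by
      ext m
      rw [ArithmeticFunction.coe_mul_zeta_apply]
      have h2 := ArithmeticFunction.sum_moebius_mul_log_eq (n := m)
      rw [ArithmeticFunction.neg_apply, ← h2]
      refine sum_congr rfl fun d _ => ?_
      rw [ArithmeticFunction.pmul_apply, ArithmeticFunction.log_apply, ArithmeticFunction.intCoe_apply]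
      ring
    calc (ArithmeticFunction.log.pmul ((ArithmeticFunction.moebius : ArithmeticFunction ℤ) :
      ArithmeticFunction ℝ))
        = (ArithmeticFunction.log.pmul ((ArithmeticFunction.moebius : ArithmeticFunction ℤ) :
          ArithmeticFunction ℝ)) * (((ArithmeticFunction.zeta : ArithmeticFunction ℕ) :
          ArithmeticFunction ℝ) * ((ArithmeticFunction.moebius : ArithmeticFunction ℤ) :
          ArithmeticFunction ℝ)) := by
            rw [ArithmeticFunction.coe_zeta_mul_coe_moebius, mul_one]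
      _ = _ := by
            rw [← mul_assoc, h1]
            ring
  have h3 := congrArg (fun f : ArithmeticFunction ℝ => f n) hb
  simp only [ArithmeticFunction.pmul_apply, ArithmeticFunction.log_apply,
    ArithmeticFunction.intCoe_apply, ArithmeticFunction.neg_apply, ArithmeticFunction.mul_apply] at h3
  unfold Lam
  linarith

/-- sums over the pairs `(m, k)` with `u < m k ≤ v` -/
private theorem mub_pairs (G : ℕ → ℕ → ℂ) (u v y : ℕ) :
    ∑ n ∈ Ioc u v, ∑ x ∈ n.divisorsAntidiagonal, G x.1 x.2 =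
      ∑ k ∈ (Ioc 0 v).filter (fun k => k ≤ y), ∑ m ∈ Ioc (u / k) (v / k), G m k
      + ∑ m ∈ Ioc 0 v, ∑ k ∈ Ioc (max (u / m) y) (v / m), G m k := by
  set P : Finset (ℕ × ℕ) := (Ioc 0 v ×ˢ Ioc 0 v).filter (fun x => u < x.1 * x.2 ∧ x.1 * x.2 ≤ v) with hP
  have h1 : ∑ n ∈ Ioc u v, ∑ x ∈ n.divisorsAntidiagonal, G x.1 x.2 = ∑ x ∈ P, G x.1 x.2 := by
    rw [← sum_fiberwise_of_maps_to (s := P) (t := Ioc u v) (g := fun x => x.1 * x.2)
      (fun x hx => by
        rw [hP, mem_filter] at hx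
        rw [mem_Ioc]
        exact hx.2)]
    refine sum_congr rfl fun n hn => ?_
    refine sum_congr ?_ fun _ _ => rfl
    rw [mem_Ioc] at hn
    ext ⟨a, b⟩
    rw [Nat.mem_divisorsAntidiagonal, mem_filter, hP, mem_filter, mem_product, mem_Ioc, mem_Ioc]
    simp only
    constructor
    · rintro ⟨h, h0⟩
      have ha : 0 < a := by
        rcases Nat.eq_zero_or_pos a with h2 | h2
        · rw [h2, zero_mul] at h; omega
        · exact h2
      have hb : 0 < b := by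
        rcases Nat.eq_zero_or_pos b with h2 | h2
        · rw [h2, mul_zero] at h; omega
        · exact h2
      have ha' : a ≤ a * b := Nat.le_mul_of_pos_right a hb
      have hb' : b ≤ a * b := Nat.le_mul_of_pos_left b ha
      omega
    · rintro ⟨-, h⟩
      exact ⟨h, by omega⟩
  have h2 : ∑ x ∈ P, G x.1 x.2 = ∑ x ∈ P.filter (fun x => x.2 ≤ y), G x.1 x.2
      + ∑ x ∈ P.filter (fun x => ¬ x.2 ≤ y), G x.1 x.2 := (sum_filter_add_sum_filter_not _ _ _).symm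
  have h3 : ∑ x ∈ P.filter (fun x => x.2 ≤ y), G x.1 x.2
      = ∑ k ∈ (Ioc 0 v).filter (fun k => k ≤ y), ∑ m ∈ Ioc (u / k) (v / k), G m k := by
    have e : P.filter (fun x => x.2 ≤ y) =
        (((Ioc 0 v).filter (fun k => k ≤ y)).sigma (fun k => Ioc (u / k) (v / k))).image
          (fun s : Σ _ : ℕ, ℕ => (s.2, s.1)) := by
      ext ⟨a, b⟩
      simp only [hP, mem_filter, mem_product, mem_Ioc, mem_image, mem_sigma, Prod.mk.injEq]
      constructor
      · rintro ⟨⟨⟨⟨ha, ha'⟩, hb, hb'⟩, h4, h5⟩, h6⟩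
        refine ⟨⟨b, a⟩, ⟨⟨⟨hb, hb'⟩, h6⟩, ?_, ?_⟩, rfl, rfl⟩
        · exact (Nat.div_lt_iff_lt_mul hb).2 h4
        · exact (Nat.le_div_iff_mul_le hb).2 h5
      · rintro ⟨⟨k, m⟩, ⟨⟨⟨hb, hb'⟩, h6⟩, h4, h5⟩, rfl, rfl⟩
        simp only at hb hb' h6 h4 h5 ⊢
        have h7 := (Nat.div_lt_iff_lt_mul hb).1 h4
        have h8 := (Nat.le_div_iff_mul_le hb).1 h5
        have h9 : m ≤ v := h5.trans (Nat.div_le_self v k)
        have h10 : 0 < m := lt_of_le_of_lt (Nat.zero_le _) h4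
        exact ⟨⟨⟨⟨h10, h9⟩, hb, hb'⟩, h7, h8⟩, h6⟩
    rw [e, sum_image, sum_sigma]
    rintro ⟨k, m⟩ _ ⟨k', m'⟩ _ h
    simp only [Prod.mk.injEq] at h
    obtain ⟨rfl, rfl⟩ := h
    rfl
  have h4 : ∑ x ∈ P.filter (fun x => ¬ x.2 ≤ y), G x.1 x.2
      = ∑ m ∈ Ioc 0 v, ∑ k ∈ Ioc (max (u / m) y) (v / m), G m k := by
    have e : P.filter (fun x => ¬ x.2 ≤ y) =
        ((Ioc 0 v).sigma (fun m => Ioc (max (u / m) y) (v / m))).image
          (fun s : Σ _ : ℕ, ℕ => (s.1, s.2)) := by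
      ext ⟨a, b⟩
      simp only [hP, mem_filter, mem_product, mem_Ioc, mem_image, mem_sigma, Prod.mk.injEq]
      constructor
      · rintro ⟨⟨⟨⟨ha, ha'⟩, hb, hb'⟩, h4, h5⟩, h6⟩
        refine ⟨⟨a, b⟩, ⟨⟨ha, ha'⟩, ?_, ?_⟩, rfl, rfl⟩
        · have : u / a < b := (Nat.div_lt_iff_lt_mul ha).2 (by rw [mul_comm]; exact h4)
          simp only
          omega
        · exact (Nat.le_div_iff_mul_le ha).2 (by rw [mul_comm]; exact h5)
      · rintro ⟨⟨m, k⟩, ⟨⟨ha, ha'⟩, h4, h5⟩, rfl, rfl⟩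
        simp only at ha ha' h4 h5 ⊢
        have h7 : u < k * m := (Nat.div_lt_iff_lt_mul ha).1 (lt_of_le_of_lt (le_max_left _ _) h4)
        have h8 := (Nat.le_div_iff_mul_le ha).1 h5
        have h9 : k ≤ v := h5.trans (Nat.div_le_self v m)
        have h10 : y < k := lt_of_le_of_lt (le_max_right _ _) h4
        rw [mul_comm] at h7 h8
        exact ⟨⟨⟨⟨ha, ha'⟩, by omega, h9⟩, h7, h8⟩, by omega⟩
    rw [e, sum_image, sum_sigma]
    rintro ⟨k, m⟩ _ ⟨k', m'⟩ _ h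
    simp only [Prod.mk.injEq] at h
    obtain ⟨rfl, rfl⟩ := h
    rfl
  rw [h1, h2, h3, h4]

/-- the decomposition -/
private theorem mub_dec (F : ℕ → ℂ) (hF : ∀ m k, 1 ≤ m → 1 ≤ k → F (m * k) = F m * F k) (u v y : ℕ) :
    ∑ n ∈ Ioc u v, ((Real.log n : ℝ) : ℂ) * ((((ArithmeticFunction.moebius n : ℤ) : ℝ) : ℂ) * (F n / n)) =
      -(∑ k ∈ (Ioc 0 v).filter (fun k => k ≤ y), ((Lam k : ℝ) : ℂ) * (F k / k) *
          ∑ m ∈ Ioc (u / k) (v / k), (((ArithmeticFunction.moebius m : ℤ) : ℝ) : ℂ) * (F m / m)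
        + ∑ m ∈ Ioc 0 v, (((ArithmeticFunction.moebius m : ℤ) : ℝ) : ℂ) * (F m / m) *
          ∑ k ∈ Ioc (max (u / m) y) (v / m), ((Lam k : ℝ) : ℂ) * (F k / k)) := by
  have h1 : ∀ n ∈ Ioc u v, ((Real.log n : ℝ) : ℂ) *
      ((((ArithmeticFunction.moebius n : ℤ) : ℝ) : ℂ) * (F n / n)) =
      -∑ x ∈ n.divisorsAntidiagonal, (((((ArithmeticFunction.moebius x.1 : ℤ) : ℝ) : ℂ) * (F x.1 / x.1)) *
        (((Lam x.2 : ℝ) : ℂ) * (F x.2 / x.2))) := by
    intro n hn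
    rw [mem_Ioc] at hn
    have h2 := mub_mulog n
    have h3 : ((Real.log n : ℝ) : ℂ) * ((((ArithmeticFunction.moebius n : ℤ) : ℝ) : ℂ) * (F n / n))
        = ((((ArithmeticFunction.moebius n : ℤ) : ℝ) * Real.log n : ℝ) : ℂ) * (F n / n) := by
      push_cast
      ring
    rw [h3, h2]
    push_cast
    rw [neg_mul, sum_mul]
    congr 1
    refine sum_congr rfl fun x hx => ?_
    obtain ⟨hx1, hx2⟩ := Nat.mem_divisorsAntidiagonal.1 hx
    have ha : 0 < x.1 := Nat.pos_of_ne_zero fun h => hx2 (by rw [← hx1, h, zero_mul])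
    have hb : 0 < x.2 := Nat.pos_of_ne_zero fun h => hx2 (by rw [← hx1, h, mul_zero])
    rw [← hx1, hF _ _ ha hb]
    have ha0 : (x.1 : ℂ) ≠ 0 := by exact_mod_cast ha.ne'
    have hb0 : (x.2 : ℂ) ≠ 0 := by exact_mod_cast hb.ne'
    push_cast
    field_simp
  rw [sum_congr rfl h1, sum_neg_distrib,
    mub_pairs (fun m k => ((((ArithmeticFunction.moebius m : ℤ) : ℝ) : ℂ) * (F m / m)) *
        (((Lam k : ℝ) : ℂ) * (F k / k))) u v y]
  congr 2
  · refine sum_congr rfl fun k _ => ?_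
    rw [mul_sum]
    exact sum_congr rfl fun m _ => by ring
  · refine sum_congr rfl fun m _ => ?_
    rw [mul_sum]

/-- one step of the iteration -/
private theorem mub_step (F : ℕ → ℂ) (hF : ∀ m k, 1 ≤ m → 1 ≤ k → F (m * k) = F m * F k)
    (hF1 : ∀ n, ‖F n‖ ≤ 1) (Y y : ℕ) (δ E L : ℝ) (hy : 1 ≤ y) (hδ : 0 ≤ δ) (hE : 0 ≤ E) (hL : 1 ≤ L)
    (hlam : ∀ a b, y ≤ a → a ≤ b → b ≤ 2 * a + 1 → b ≤ Y →
      ‖∑ k ∈ Ioc a b, ((Lam k : ℝ) : ℂ) * (F k / k)‖ ≤ δ)
    (hYL : Real.log Y ≤ 2 * L) (U : ℕ) (hU1 : 1 ≤ U)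
    (hM : ∀ u v, U ≤ u → u ≤ v → v ≤ 2 * u + 1 → v ≤ Y →
      ‖∑ m ∈ Ioc u v, (((ArithmeticFunction.moebius m : ℤ) : ℝ) : ℂ) * (F m / m)‖ ≤ E)
    (u v : ℕ) (hu : U * y ≤ u) (huv : u ≤ v) (hv : v ≤ 2 * u + 1) (hvY : v ≤ Y)
    (huL : L / 24 ≤ Real.log (u + 1)) :
    ‖∑ m ∈ Ioc u v, (((ArithmeticFunction.moebius m : ℤ) : ℝ) : ℂ) * (F m / m)‖ ≤
      24 / L * ((Real.log y + 6) * E + 3 * L * δ) := by
  have hL0 : 0 < L := by linarith only [hL]
  have hly : 0 ≤ Real.log y := Real.log_natCast_nonneg y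
  have hbd0 : 0 ≤ 24 / L * ((Real.log y + 6) * E + 3 * L * δ) := by positivity
  rcases Nat.eq_or_lt_of_le huv with rfl | huv'
  · rw [Ioc_self, sum_empty, norm_zero]
    exact hbd0
  -- bound for the sums with the logarithm
  have hT : ∀ w, u ≤ w → w ≤ v → ‖∑ n ∈ Ioc u w, ((Real.log n : ℝ) : ℂ) *
      ((((ArithmeticFunction.moebius n : ℤ) : ℝ) : ℂ) * (F n / n))‖ ≤ (Real.log y + 6) * E + 3 * L * δ := by
    intro w huw hwv
    rw [mub_dec F hF u w y, norm_neg]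
    refine (norm_add_le _ _).trans (add_le_add ?_ ?_)
    · -- the part `k ≤ y`
      have h1 : ∀ k ∈ (Ioc 0 w).filter (fun k => k ≤ y), ‖((Lam k : ℝ) : ℂ) * (F k / k) *
          ∑ m ∈ Ioc (u / k) (w / k), (((ArithmeticFunction.moebius m : ℤ) : ℝ) : ℂ) * (F m / m)‖
          ≤ Lam k / k * E := by
        intro k hk
        rw [mem_filter, mem_Ioc] at hk
        obtain ⟨⟨hk0, hk1⟩, hk2⟩ := hk
        have hk0' : (0 : ℝ) < k := by exact_mod_cast hk0
        have hLk : 0 ≤ Lam k := ArithmeticFunction.vonMangoldt_nonneg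
        have h2 : ‖∑ m ∈ Ioc (u / k) (w / k), (((ArithmeticFunction.moebius m : ℤ) : ℝ) : ℂ) *
            (F m / m)‖ ≤ E := by
          apply hM
          · rw [Nat.le_div_iff_mul_le hk0]
            exact (Nat.mul_le_mul_left U hk2).trans hu
          · exact Nat.div_le_div_right huw
          · rw [← Nat.lt_succ_iff, Nat.div_lt_iff_lt_mul hk0]
            have h3 := Nat.lt_mul_div_succ u hk0
            have h4 : w ≤ 2 * u + 1 := hwv.trans hv
            nlinarith only [hv, hwv, h3]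
          · exact (Nat.div_le_self w k).trans (hwv.trans hvY)
        rw [norm_mul, norm_mul, Complex.norm_real, Real.norm_of_nonneg hLk, norm_div,
          Complex.norm_natCast]
        have h5 : ‖F k‖ / k ≤ 1 / k := div_le_div_of_nonneg_right (hF1 k) hk0'.le
        calc Lam k * (‖F k‖ / k) * _ ≤ Lam k * (1 / k) * E := by
              refine mul_le_mul (mul_le_mul_of_nonneg_left h5 hLk) h2 (norm_nonneg _) (by positivity)
          _ = Lam k / k * E := by ring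
      refine (norm_sum_le_of_le _ h1).trans ?_
      rw [← sum_mul]
      refine mul_le_mul_of_nonneg_right ?_ hE
      have h2 : ∑ k ∈ (Ioc 0 w).filter (fun k => k ≤ y), Lam k / k ≤ ∑ k ∈ Ioc 0 y, Lam k / k := by
        refine sum_le_sum_of_subset_of_nonneg ?_ fun k _ _ =>
          div_nonneg ArithmeticFunction.vonMangoldt_nonneg (Nat.cast_nonneg k)
        intro k hk
        rw [mem_filter, mem_Ioc] at hk
        rw [mem_Ioc]
        exact ⟨hk.1.1, hk.2⟩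
      refine h2.trans ((mub_mert y hy).trans ?_)
      have h3 : Real.log 4 ≤ 2 := by
        have : Real.log 4 = 2 * Real.log 2 := by
          rw [show (4 : ℝ) = 2 ^ 2 by norm_num, Real.log_pow]; norm_num
        have := Real.log_two_lt_d9
        linarith
      linarith only [h3]
    · -- the part `k > y`
      have h1 : ∀ m ∈ Ioc 0 w, ‖(((ArithmeticFunction.moebius m : ℤ) : ℝ) : ℂ) * (F m / m) *
          ∑ k ∈ Ioc (max (u / m) y) (w / m), ((Lam k : ℝ) : ℂ) * (F k / k)‖ ≤ 1 / (m : ℝ) * δ := by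
        intro m hm
        rw [mem_Ioc] at hm
        have hm0 : (0 : ℝ) < m := by exact_mod_cast hm.1
        have h2 : ‖∑ k ∈ Ioc (max (u / m) y) (w / m), ((Lam k : ℝ) : ℂ) * (F k / k)‖ ≤ δ := by
          rcases Nat.lt_or_ge (w / m) (max (u / m) y) with h | h
          · rw [Ioc_eq_empty (by omega), sum_empty, norm_zero]
            exact hδ
          · apply hlam _ _ (le_max_right _ _) h
            · have h5 : w / m ≤ 2 * (u / m) + 1 := by
                rw [← Nat.lt_succ_iff, Nat.div_lt_iff_lt_mul hm.1]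
                have h3 := Nat.lt_mul_div_succ u hm.1
                have h4 : w ≤ 2 * u + 1 := hwv.trans hv
                nlinarith only [hv, hwv, h3]
              have h6 := le_max_left (u / m) y
              omega
            · exact (Nat.div_le_self w m).trans (hwv.trans hvY)
        rw [norm_mul, norm_mul, norm_div, Complex.norm_natCast]
        have hmu : ‖(((ArithmeticFunction.moebius m : ℤ) : ℝ) : ℂ)‖ ≤ 1 := by
          rw [Complex.norm_real, Real.norm_eq_abs]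
          have := ArithmeticFunction.abs_moebius_le_one (n := m)
          exact_mod_cast this
        have h5 : ‖F m‖ / m ≤ 1 / m := div_le_div_of_nonneg_right (hF1 m) hm0.le
        have h6 : ‖(((ArithmeticFunction.moebius m : ℤ) : ℝ) : ℂ)‖ * (‖F m‖ / m) ≤ 1 * (1 / m) :=
          mul_le_mul hmu h5 (by positivity) zero_le_one
        rw [one_mul] at h6
        exact mul_le_mul h6 h2 (norm_nonneg _) (by positivity)
      refine (norm_sum_le_of_le _ h1).trans ?_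
      rw [← sum_mul]
      refine mul_le_mul_of_nonneg_right ?_ hδ
      have hw1 : 1 ≤ w := by nlinarith only [hy, hu, huw, hU1]
      have h2 : ∑ m ∈ Ioc 0 w, 1 / (m : ℝ) ≤ 1 + Real.log w := by
        have h3 := harmonic_le_one_add_log w
        have h4 : ((harmonic w : ℚ) : ℝ) = ∑ m ∈ Ioc 0 w, 1 / (m : ℝ) := by
          rw [harmonic_eq_sum_Icc]
          push_cast
          refine sum_congr ?_ fun m _ => by rw [one_div]
          ext m
          simp only [mem_Icc, mem_Ioc]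
          omega
        rw [← h4]
        exact h3
      have h3 : Real.log w ≤ Real.log Y :=
        Real.log_le_log (by exact_mod_cast hw1) (by exact_mod_cast hwv.trans hvY)
      linarith only [hL, hYL, h2, h3]
  -- partial summation with `1/log n`
  have hu1 : 1 ≤ u := by nlinarith only [hy, hu, hU1]
  have hlogpos : ∀ n : ℕ, u < n → 0 < Real.log n := by
    intro n hn
    exact Real.log_pos (by exact_mod_cast (by omega : 1 < n))
  have h1 := mub_abel_anti (fun n => ((Real.log n : ℝ) : ℂ) *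
      ((((ArithmeticFunction.moebius n : ℤ) : ℝ) : ℂ) * (F n / n))) (fun n => 1 / Real.log n) _ u v hT
      (fun n hn _ => by have := hlogpos n hn; positivity)
      (fun n hn _ => one_div_le_one_div_of_le (hlogpos n hn)
        (Real.log_le_log (by exact_mod_cast (by omega : 0 < n)) (by push_cast; linarith only))) huv'
  have h2 : ∑ n ∈ Ioc u v, (((1 / Real.log n : ℝ)) : ℂ) * (((Real.log n : ℝ) : ℂ) *
      ((((ArithmeticFunction.moebius n : ℤ) : ℝ) : ℂ) * (F n / n)))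
      = ∑ m ∈ Ioc u v, (((ArithmeticFunction.moebius m : ℤ) : ℝ) : ℂ) * (F m / m) := by
    refine sum_congr rfl fun n hn => ?_
    rw [mem_Ioc] at hn
    have h3 : ((Real.log n : ℝ) : ℂ) ≠ 0 := by
      exact_mod_cast (hlogpos n hn.1).ne'
    rw [Complex.ofReal_div, Complex.ofReal_one, ← mul_assoc, one_div, inv_mul_cancel₀ h3, one_mul]
  rw [h2] at h1
  refine h1.trans ?_
  rw [mul_comm]
  refine mul_le_mul_of_nonneg_right ?_ (by positivity)
  have h3 : 0 < L / 24 := by positivity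
  refine (one_div_le_one_div_of_le h3 ?_).trans (le_of_eq ?_)
  · push_cast
    exact huL
  · rw [one_div_div]

/-- the numerical facts for large `X` -/
private theorem mub_ev (S : ℕ) : ∃ X0 : ℕ, ∀ X : ℕ, X0 ≤ X → ∃ z : ℝ, 1 ≤ z ∧ z ^ 40 = Real.log X ∧
    Real.log X ^ (19 / 20 : ℝ) = z ^ 38 ∧ 216 ≤ Real.log X ∧ 4 * ((S : ℝ) + 1) ≤ Real.log X ∧
    24 * (z ^ 38 + 7) ≤ z ^ 39 ∧ 24 * (S * (z ^ 38 + 1)) ≤ z ^ 40 := by
  obtain ⟨Z, hZ⟩ : ∃ Z : ℝ, Z = 216 + 48 * (S : ℝ) := ⟨_, rfl⟩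
  have hS : (0 : ℝ) ≤ S := Nat.cast_nonneg S
  have hZ216 : 216 ≤ Z := by linarith
  have hZS : 48 * (S : ℝ) ≤ Z := by linarith
  have hZS4 : 4 * ((S : ℝ) + 1) ≤ Z := by linarith
  obtain ⟨X0, hX0⟩ := Filter.eventually_atTop.1
    ((Real.tendsto_log_atTop.comp (tendsto_natCast_atTop_atTop (R := ℝ))).eventually_ge_atTop
      (Z ^ 40))
  refine ⟨X0, fun X hX => ?_⟩
  have h1 : Z ^ 40 ≤ Real.log X := hX0 X hX
  have h3 : Z ≤ Z ^ 40 := le_self_pow₀ (by linarith) (by norm_num)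
  have hZL : Z ≤ Real.log X := h3.trans h1
  have hL : 0 < Real.log X := by linarith
  obtain ⟨z, hz⟩ : ∃ z : ℝ, z = Real.log X ^ (1 / 40 : ℝ) := ⟨_, rfl⟩
  have hzZ : Z ≤ z := by
    have h4 : (Z ^ 40) ^ (1 / 40 : ℝ) ≤ Real.log X ^ (1 / 40 : ℝ) :=
      Real.rpow_le_rpow (by positivity) h1 (by norm_num)
    have h5 : (Z ^ 40) ^ (1 / 40 : ℝ) = Z := by
      rw [← Real.rpow_natCast, ← Real.rpow_mul (by linarith only [hZ])]
      norm_num
    rw [h5] at h4
    rw [hz]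
    exact h4
  clear h1 h3
  have hz0 : 0 < z := by linarith only [hZ, hzZ]
  have hz1 : 1 ≤ z := by linarith
  have e1 : z ^ 40 = Real.log X := by
    rw [hz, ← Real.rpow_natCast, ← Real.rpow_mul hL.le]
    norm_num
  have e2 : Real.log X ^ (19 / 20 : ℝ) = z ^ 38 := by
    rw [hz, ← Real.rpow_natCast, ← Real.rpow_mul hL.le]
    norm_num
  obtain ⟨a, ha⟩ : ∃ a : ℝ, a = z ^ 38 := ⟨_, rfl⟩
  have h95 : 1 ≤ a := by rw [ha]; exact one_le_pow₀ hz1
  have h39 : z ^ 39 = z * a := by rw [ha, ← pow_succ']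
  have h40 : z ^ 40 = z * (z * a) := by rw [← h39, ← pow_succ']
  refine ⟨z, hz1, e1, e2, by linarith only [hZ, hZL], by linarith only [hZ, hZL], ?_, ?_⟩
  · rw [h39, ← ha]
    have h5 : 192 * a ≤ z * a := mul_le_mul_of_nonneg_right (by linarith only [hZ, hzZ]) (by linarith only [h95])
    linarith only [h95, h5]
  · rw [h40, ← ha]
    have h9 : 48 * (S : ℝ) ≤ z := by linarith
    have h11 : (S : ℝ) * (a + 1) ≤ S * (2 * a) := mul_le_mul_of_nonneg_left (by linarith) hS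
    have h12 : 48 * (S : ℝ) * a ≤ z * a := mul_le_mul_of_nonneg_right h9 (by linarith only [h95])
    have h13 : z * a ≤ z * (z * a) := by
      have : 0 ≤ z * a := by positivity
      exact le_mul_of_one_le_left this hz1
    linarith

/-- the iteration -/
private theorem mub_iter (F : ℕ → ℂ) (hF : ∀ m k, 1 ≤ m → 1 ≤ k → F (m * k) = F m * F k)
    (hF1 : ∀ n, ‖F n‖ ≤ 1) (Y y S : ℕ) (δ ρ L : ℝ) (hy : 1 ≤ y) (hδ : 0 ≤ δ) (hL : 1 ≤ L)
    (hlam : ∀ a b, y ≤ a → a ≤ b → b ≤ 2 * a + 1 → b ≤ Y →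
      ‖∑ k ∈ Ioc a b, ((Lam k : ℝ) : ℂ) * (F k / k)‖ ≤ δ)
    (hYL : Real.log Y ≤ 2 * L) (W : ℕ) (hW : 1 ≤ W) (hWL : L / 24 ≤ Real.log W)
    (hρ0 : 0 < ρ) (hρ1 : ρ ≤ 1) (hρ : 24 / L * (Real.log y + 6) ≤ ρ) (hδρ : 72 * δ ≤ ρ ^ S) :
    ∀ s, s ≤ S → ∀ u v, W * y ^ s ≤ u → u ≤ v → v ≤ 2 * u + 1 → v ≤ Y →
      ‖∑ m ∈ Ioc u v, (((ArithmeticFunction.moebius m : ℤ) : ℝ) : ℂ) * (F m / m)‖
        ≤ ((s : ℝ) + 1) * ρ ^ s := by
  intro s
  induction s with
  | zero =>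
    intro _ u v hu huv hv _
    have hu1 : 1 ≤ u := by
      rw [pow_zero, mul_one] at hu
      omega
    have h1 : ∀ m ∈ Ioc u v, ‖(((ArithmeticFunction.moebius m : ℤ) : ℝ) : ℂ) * (F m / m)‖
        ≤ 1 / ((u : ℝ) + 1) := by
      intro m hm
      rw [mem_Ioc] at hm
      have hm0 : (0 : ℝ) < m := by exact_mod_cast (by omega : 0 < m)
      rw [norm_mul, norm_div, Complex.norm_natCast]
      have hmu : ‖(((ArithmeticFunction.moebius m : ℤ) : ℝ) : ℂ)‖ ≤ 1 := by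
        rw [Complex.norm_real, Real.norm_eq_abs]
        have := ArithmeticFunction.abs_moebius_le_one (n := m)
        exact_mod_cast this
      have h5 : ‖F m‖ / m ≤ 1 / m := div_le_div_of_nonneg_right (hF1 m) hm0.le
      have h6 : ‖(((ArithmeticFunction.moebius m : ℤ) : ℝ) : ℂ)‖ * (‖F m‖ / m) ≤ 1 * (1 / m) :=
        mul_le_mul hmu h5 (by positivity) zero_le_one
      rw [one_mul] at h6
      refine h6.trans (one_div_le_one_div_of_le (by positivity) ?_)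
      exact_mod_cast hm.1
    refine (norm_sum_le_of_le _ h1).trans ?_
    rw [sum_const, Nat.card_Ioc, nsmul_eq_mul]
    have h2 : ((v - u : ℕ) : ℝ) ≤ (u : ℝ) + 1 := by exact_mod_cast (by omega : v - u ≤ u + 1)
    have h3 : (0 : ℝ) < (u : ℝ) + 1 := by positivity
    rw [mul_one_div, div_le_iff₀ h3]
    push_cast
    rw [pow_zero]
    linarith only [h2]
  | succ s ih =>
    intro hs u v hu huv hv hvY
    have hU1 : 1 ≤ W * y ^ s := Nat.mul_pos hW (Nat.pow_pos hy)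
    have hWu : W ≤ u := by
      refine le_trans ?_ hu
      exact Nat.le_mul_of_pos_right W (Nat.pow_pos hy)
    have hE0 : 0 ≤ ((s : ℝ) + 1) * ρ ^ s := by positivity
    have huL : L / 24 ≤ Real.log ((u : ℝ) + 1) := by
      refine hWL.trans (Real.log_le_log (by exact_mod_cast hW) ?_)
      have : (W : ℝ) ≤ u := by exact_mod_cast hWu
      linarith only [this]
    have h1 := mub_step F hF hF1 Y y δ (((s : ℝ) + 1) * ρ ^ s) L hy hδ hE0 hL hlam hYL (W * y ^ s) hU1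
      (ih (by omega)) u v (by rw [mul_assoc, ← pow_succ]; exact hu) huv hv hvY huL
    refine h1.trans ?_
    have hL0 : 0 < L := by linarith only [hL]
    have h2 : 24 / L * ((Real.log y + 6) * (((s : ℝ) + 1) * ρ ^ s) + 3 * L * δ)
        = (24 / L * (Real.log y + 6)) * (((s : ℝ) + 1) * ρ ^ s) + 72 * δ := by
      field_simp
      ring
    rw [h2]
    have h3 : (24 / L * (Real.log y + 6)) * (((s : ℝ) + 1) * ρ ^ s) ≤ ρ * (((s : ℝ) + 1) * ρ ^ s) :=
      mul_le_mul_of_nonneg_right hρ hE0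
    have h4 : ρ ^ S ≤ ρ ^ (s + 1) := pow_le_pow_of_le_one hρ0.le hρ1 hs
    have h5 : (((s + 1 : ℕ) : ℝ) + 1) * ρ ^ (s + 1) = ρ * (((s : ℝ) + 1) * ρ ^ s) + ρ ^ (s + 1) := by
      push_cast
      ring
    rw [h5]
    linarith only [hδρ, h3, h4]

/-- the character with the twist -/
noncomputable def mub_F {d : ℕ} (χ : DirichletCharacter ℂ d) (t : ℝ) (n : ℕ) : ℂ :=
  χ (n : ZMod d) * ee (t * Real.log n)

private theorem mub_F_mul {d : ℕ} (χ : DirichletCharacter ℂ d) (t : ℝ) (m k : ℕ) (hm : 1 ≤ m)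
    (hk : 1 ≤ k) : mub_F χ t (m * k) = mub_F χ t m * mub_F χ t k := by
  unfold mub_F
  have hm0 : (m : ℝ) ≠ 0 := by exact_mod_cast (by omega : m ≠ 0)
  have hk0 : (k : ℝ) ≠ 0 := by exact_mod_cast (by omega : k ≠ 0)
  push_cast
  rw [map_mul, Real.log_mul hm0 hk0, mul_add, Pool.Agent.H91.PK.LSa_ee_add]
  ring

theorem mub_F_norm {d : ℕ} (χ : DirichletCharacter ℂ d) (t : ℝ) (n : ℕ) :
    ‖mub_F χ t n‖ ≤ 1 := by
  unfold mub_F
  rw [norm_mul, Pool.Agent.H91.PK.LSa_norm_ee, mul_one]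
  exact DirichletCharacter.norm_le_one _ _

theorem mu_b_h (h_vk_chi_w : Pool.Agent.H97.VK.vk_chi_w_P) (K B : ℕ) : ∃ K' X0 : ℕ, ∀ X : ℕ, X0 ≤ X →
    ∀ (d : ℕ) (χ : DirichletCharacter ℂ d) (j : ℕ) (t : ℝ), 1 ≤ d → (d : ℝ) ≤ Real.log X ^ B →
    (X : ℝ) ^ (1 / 7 : ℝ) ≤ (2 : ℝ) ^ j → (2 : ℝ) ^ j ≤ X → Real.log X ^ K' ≤ |t| → |t| ≤ X →
    ‖DP (tw χ (pc 2 j)) (2 * 2 ^ j) t‖ ≤ (2 : ℝ) ^ j / Real.log X ^ K := by
  obtain ⟨K', x1, hvk⟩ := h_vk_chi_w (K + 2) B
  obtain ⟨S, hS⟩ : ∃ S : ℕ, S = 40 * (K + 1) := ⟨_, rfl⟩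
  obtain ⟨x2, hev⟩ := mub_ev S
  refine ⟨K', max (max x1 x2) 2, fun X hX d χ j t hd hdB hj1 hj2 ht1 ht2 => ?_⟩
  have hX1 : x1 ≤ X := ((le_max_left _ _).trans (le_max_left _ _)).trans hX
  have hX2 : x2 ≤ X := ((le_max_right _ _).trans (le_max_left _ _)).trans hX
  have hX3 : 2 ≤ X := (le_max_right _ _).trans hX
  obtain ⟨z, hz1, hzL, hz38, hL216, hLS, hz39, hz40⟩ := hev X hX2
  set L := Real.log X with hLdef
  have hXr : (2 : ℝ) ≤ X := by exact_mod_cast hX3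
  have hX0 : (0 : ℝ) < X := by linarith only [hXr]
  have hL0 : 0 < L := by linarith only [hL216]
  have hL1 : 1 ≤ L := by linarith only [hL216]
  have hexpL : Real.exp L = X := Real.exp_log hX0
  have hz0 : 0 < z := by linarith
  -- `y`
  obtain ⟨y, hydef⟩ : ∃ y : ℕ, y = ⌈Real.exp (L ^ (19 / 20 : ℝ))⌉₊ := ⟨_, rfl⟩
  have hy1 : Real.exp (L ^ (19 / 20 : ℝ)) ≤ y := by rw [hydef]; exact Nat.le_ceil _
  have hy2 : (y : ℝ) ≤ Real.exp (z ^ 38 + 1) := by
    have h1 : (y : ℝ) < Real.exp (L ^ (19 / 20 : ℝ)) + 1 := by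
      rw [hydef]; exact Nat.ceil_lt_add_one (Real.exp_pos _).le
    rw [hz38] at h1
    rw [Real.exp_add]
    have h2 : 1 ≤ Real.exp (z ^ 38) := Real.one_le_exp (by positivity)
    have h3 : (2 : ℝ) ≤ Real.exp 1 := by have := Real.exp_one_gt_d9; linarith only [this]
    nlinarith only [h1, h2, h3]
  have hypos : (0 : ℝ) < y := (Real.exp_pos _).trans_le hy1
  have hy : 1 ≤ y := by exact_mod_cast hypos
  have hlogy : Real.log y ≤ z ^ 38 + 1 := by
    rw [Real.log_le_iff_le_exp hypos]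
    exact hy2
  -- `δ`
  set δ : ℝ := 3 / L ^ (K + 2) with hδdef
  have hδ0 : 0 ≤ δ := by positivity
  have hlam : ∀ a b, y ≤ a → a ≤ b → b ≤ 2 * a + 1 → b ≤ 2 * X →
      ‖∑ k ∈ Ioc a b, ((Lam k : ℝ) : ℂ) * (mub_F χ t k / k)‖ ≤ δ := by
    intro a b ha hab hb hbX
    rcases Nat.eq_or_lt_of_le hab with rfl | hab'
    · rw [Ioc_self, sum_empty, norm_zero]
      exact hδ0
    have hpart : ∀ w, y ≤ w → w ≤ 2 * X → ‖∑ n ∈ Icc 1 w, ((Lam n : ℝ) : ℂ) * mub_F χ t n‖ ≤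
        w / L ^ (K + 2) := by
      intro w hw hwX
      have h1 := hvk X hX1 d χ t w hd hdB (hy1.trans (by exact_mod_cast hw)) (by nlinarith only [hwX, hX3]) ht1 (by
        refine ht2.trans ?_
        exact le_self_pow₀ (by linarith only [hXr]) (by norm_num))
      refine le_trans (le_of_eq ?_) h1
      congr 1
      refine sum_congr rfl fun n _ => ?_
      unfold mub_F
      ring
    have h1 := mub_abel_anti (fun n => ((Lam n : ℝ) : ℂ) * mub_F χ t n) (fun n => 1 / (n : ℝ))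
      ((3 * a + 1) / L ^ (K + 2)) a b (fun w haw hwb => by
        have h2 : ∑ n ∈ Ioc a w, ((Lam n : ℝ) : ℂ) * mub_F χ t n =
            ∑ n ∈ Icc 1 w, ((Lam n : ℝ) : ℂ) * mub_F χ t n -
            ∑ n ∈ Icc 1 a, ((Lam n : ℝ) : ℂ) * mub_F χ t n := by
          have e : Icc 1 w = Icc 1 a ∪ Ioc a w := by
            ext n
            simp only [mem_union, mem_Icc, mem_Ioc]
            omega
          rw [e, sum_union]
          · ring
          · rw [disjoint_left]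
            intro n hn hn'
            simp only [mem_Icc, mem_Ioc] at hn hn'
            omega
        rw [h2]
        refine (norm_sub_le _ _).trans ?_
        have h3 := hpart w (ha.trans haw) (hwb.trans hbX)
        have h4 := hpart a ha (hab.trans hbX)
        have h5 : (w : ℝ) ≤ 2 * a + 1 := by exact_mod_cast hwb.trans hb
        have h6 : (w : ℝ) / L ^ (K + 2) ≤ (2 * a + 1) / L ^ (K + 2) :=
          div_le_div_of_nonneg_right h5 (by positivity)
        have h7 : ((3 : ℝ) * a + 1) / L ^ (K + 2) = (2 * a + 1) / L ^ (K + 2) + a / L ^ (K + 2) := by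
          ring
        linarith only [h3, h4, h6, h7])
      (fun n _ _ => by positivity)
      (fun n hn _ => one_div_le_one_div_of_le (by exact_mod_cast (by omega : 0 < n)) (by
        push_cast; linarith only)) hab'
    have h2 : ∑ n ∈ Ioc a b, ((1 / (n : ℝ) : ℝ) : ℂ) * (((Lam n : ℝ) : ℂ) * mub_F χ t n)
        = ∑ k ∈ Ioc a b, ((Lam k : ℝ) : ℂ) * (mub_F χ t k / k) := by
      refine sum_congr rfl fun n _ => ?_
      push_cast
      ring
    rw [h2] at h1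
    refine h1.trans ?_
    rw [hδdef]
    have ha0 : (0 : ℝ) ≤ a := Nat.cast_nonneg a
    have hLp : 0 < L ^ (K + 2) := by positivity
    push_cast
    rw [div_mul_div_comm, mul_one, div_le_div_iff₀ (by positivity) hLp]
    nlinarith only [hLp]
  -- `W`
  obtain ⟨W, hWdef⟩ : ∃ W : ℕ, W = ⌈(X : ℝ) ^ (1 / 24 : ℝ)⌉₊ := ⟨_, rfl⟩
  have hX24 : (X : ℝ) ^ (1 / 24 : ℝ) = Real.exp (L / 24) := by
    rw [Real.rpow_def_of_pos hX0]
    congr 1
    ring
  have hW1 : Real.exp (L / 24) ≤ W := by rw [hWdef, ← hX24]; exact Nat.le_ceil _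
  have hW2 : (W : ℝ) ≤ 2 * Real.exp (L / 24) := by
    have h1 : (W : ℝ) < Real.exp (L / 24) + 1 := by
      rw [hWdef, ← hX24]; exact Nat.ceil_lt_add_one (by positivity)
    have h2 : 1 ≤ Real.exp (L / 24) := Real.one_le_exp (by positivity)
    linarith only [h1, h2]
  have hWpos : (0 : ℝ) < W := (Real.exp_pos _).trans_le hW1
  have hW : 1 ≤ W := by exact_mod_cast hWpos
  have hWL : L / 24 ≤ Real.log W := by
    rw [Real.le_log_iff_exp_le hWpos]
    exact hW1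
  have hYL : Real.log ((2 * X : ℕ) : ℝ) ≤ 2 * L := by
    push_cast
    rw [Real.log_mul (by norm_num) hX0.ne']
    have := Real.log_two_lt_d9
    linarith only [hL216, this]
  -- `ρ`
  set ρ : ℝ := 1 / z with hρdef
  have hρ0 : 0 < ρ := by positivity
  have hρ1 : ρ ≤ 1 := by
    rw [hρdef, div_le_one hz0]
    exact hz1
  have hρS : ρ ^ S = 1 / L ^ (K + 1) := by
    rw [hρdef, one_div_pow, hS, ← hzL, ← pow_mul]
  have hρ : 24 / L * (Real.log y + 6) ≤ ρ := by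
    rw [hρdef, div_mul_eq_mul_div, div_le_div_iff₀ hL0 hz0, one_mul]
    have h1 : 24 * (Real.log y + 6) ≤ z ^ 39 := by linarith only [hz39, hlogy]
    calc 24 * (Real.log y + 6) * z ≤ z ^ 39 * z :=
          mul_le_mul_of_nonneg_right h1 hz0.le
      _ = L := by rw [← hzL, ← pow_succ]
  have hδρ : 72 * δ ≤ ρ ^ S := by
    rw [hρS, hδdef, mul_div_assoc', div_le_div_iff₀ (by positivity) (by positivity), one_mul]
    have h1 : L ^ (K + 2) = L * L ^ (K + 1) := by ring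
    rw [h1]
    have h2 : 0 < L ^ (K + 1) := by positivity
    nlinarith only [hL216, h2]
  have hiter := mub_iter (mub_F χ t) (mub_F_mul χ t) (mub_F_norm χ t) (2 * X) y S δ ρ L hy hδ0 hL1 hlam
    hYL W hW hWL hρ0 hρ1 hρ hδρ S le_rfl
  -- the range
  have hWy : ((W * y ^ S : ℕ) : ℝ) + 1 ≤ (2 : ℝ) ^ j := by
    refine le_trans ?_ hj1
    have h1 : (y : ℝ) ^ S ≤ Real.exp (L / 24) := by
      calc (y : ℝ) ^ S ≤ (Real.exp (z ^ 38 + 1)) ^ S := pow_le_pow_left₀ hypos.le hy2 S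
        _ = Real.exp (S * (z ^ 38 + 1)) := by rw [← Real.exp_nat_mul]
        _ ≤ Real.exp (L / 24) := by
            apply Real.exp_le_exp.2
            rw [← hzL]
            linarith only [hz40]
    have h2 : (X : ℝ) ^ (1 / 7 : ℝ) = Real.exp (L / 12) * Real.exp (5 * L / 84) := by
      rw [← Real.exp_add, Real.rpow_def_of_pos hX0]
      congr 1
      ring
    have h3 : (3 : ℝ) ≤ Real.exp (5 * L / 84) := by
      have := Real.add_one_le_exp (5 * L / 84)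
      linarith only [hL216, this]
    have h4 : 1 ≤ Real.exp (L / 12) := Real.one_le_exp (by positivity)
    have h5 : (W : ℝ) * (y : ℝ) ^ S ≤ 2 * Real.exp (L / 12) := by
      calc (W : ℝ) * (y : ℝ) ^ S ≤ (2 * Real.exp (L / 24)) * Real.exp (L / 24) :=
            mul_le_mul hW2 h1 (by positivity) (by positivity)
        _ = 2 * Real.exp (L / 12) := by
            rw [mul_assoc, ← Real.exp_add]
            congr 2
            ring
    rw [h2]
    push_cast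
    nlinarith only [h3, h4, h5]
  have hWy' : W * y ^ S + 1 ≤ 2 ^ j := by exact_mod_cast hWy
  have hj2' : 2 ^ j ≤ X := by exact_mod_cast hj2
  -- the sum
  have hbound : ∀ w, 2 ^ j - 1 ≤ w → w ≤ 2 * 2 ^ j - 1 →
      ‖∑ m ∈ Ioc (2 ^ j - 1) w, (((ArithmeticFunction.moebius m : ℤ) : ℝ) : ℂ) * (mub_F χ t m / m)‖
        ≤ ((S : ℝ) + 1) * ρ ^ S := by
    intro w hw1 hw2
    exact hiter (2 ^ j - 1) w (by omega) hw1 (by omega) (by omega)
  have h2j : 1 ≤ 2 ^ j := Nat.one_le_two_pow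
  have hfin := mub_abel_mono (fun m => (((ArithmeticFunction.moebius m : ℤ) : ℝ) : ℂ) * (mub_F χ t m / m))
    (fun n => (n : ℝ)) _ (2 ^ j - 1) (2 * 2 ^ j - 1) hbound (fun n _ _ => Nat.cast_nonneg n)
    (fun n _ _ => by push_cast; linarith only) (by omega)
  have hDP : DP (tw χ (pc 2 j)) (2 * 2 ^ j) t = ∑ n ∈ Ioc (2 ^ j - 1 : ℕ) (2 * 2 ^ j - 1), (((n : ℕ) : ℝ) : ℂ) *
      ((((ArithmeticFunction.moebius n : ℤ) : ℝ) : ℂ) * (mub_F χ t n / n)) := by
    unfold DP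
    have hsub : Ioc (2 ^ j - 1) (2 * 2 ^ j - 1) ⊆ Icc 1 (2 * 2 ^ j) := by
      intro n hn
      rw [mem_Ioc] at hn
      rw [mem_Icc]
      omega
    rw [← sum_subset hsub]
    · refine sum_congr rfl fun n hn => ?_
      rw [mem_Ioc] at hn
      have h1 : n ≠ 0 ∧ 2 ^ j ≤ n ∧ n < 2 ^ (j + 1) := by
        rw [pow_succ]
        omega
      have h2 : (tw χ (pc 2 j)) n = (((ArithmeticFunction.moebius n : ℤ) : ℝ) : ℂ) * χ (n : ZMod d) := by
        unfold tw pc seg kf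
        simp only [ArithmeticFunction.coe_mk]
        rw [if_pos h1, if_neg (by decide), if_neg (by decide)]
      rw [h2]
      unfold mub_F
      have h3 : (n : ℂ) ≠ 0 := by exact_mod_cast h1.1
      push_cast
      field_simp
    · intro n hn hn'
      rw [mem_Icc] at hn
      rw [mem_Ioc] at hn'
      have h1 : ¬ (n ≠ 0 ∧ 2 ^ j ≤ n ∧ n < 2 ^ (j + 1)) := by
        rw [pow_succ]
        omega
      have h2 : (tw χ (pc 2 j)) n = 0 := by
        unfold tw pc seg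
        simp only [ArithmeticFunction.coe_mk]
        rw [if_neg h1]
        simp
      rw [h2, zero_mul]
  rw [hDP]
  refine hfin.trans ?_
  rw [hρS]
  have hcast : ((2 * 2 ^ j - 1 : ℕ) : ℝ) ≤ 2 * (2 : ℝ) ^ j := by
    have h1 : ((2 * 2 ^ j - 1 : ℕ) : ℝ) ≤ ((2 * 2 ^ j : ℕ) : ℝ) := by exact_mod_cast Nat.sub_le _ _
    push_cast at h1
    exact h1
  have hS0 : (0 : ℝ) ≤ S := Nat.cast_nonneg S
  have hLK : 0 < L ^ K := by positivity
  calc 2 * (((S : ℝ) + 1) * (1 / L ^ (K + 1))) * ((2 * 2 ^ j - 1 : ℕ) : ℝ)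
      ≤ 2 * (((S : ℝ) + 1) * (1 / L ^ (K + 1))) * (2 * (2 : ℝ) ^ j) :=
        mul_le_mul_of_nonneg_left hcast (by positivity)
    _ = (4 * ((S : ℝ) + 1)) * ((2 : ℝ) ^ j / L ^ (K + 1)) := by ring
    _ ≤ L * ((2 : ℝ) ^ j / L ^ (K + 1)) := mul_le_mul_of_nonneg_right hLS (by positivity)
    _ = (2 : ℝ) ^ j / L ^ K := by
        rw [pow_succ]
        field_simp

end Pool.Agent.H88.PSI

end

section

/-!
# PSI SmB: cancellation in `∑ χ(n) n^{2 π i t}` and `∑ χ(n) log n n^{2 π i t}` over dyadic intervals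

(helper43)  `psum` (`H97/VK/PSum.lean`) for the partial sums, partial summation with the increasing weight `kf k` (`1` or `log`).
-/

set_option autoImplicit false

namespace Pool.Agent.H88.PSI

open Finset
open Pool.Agent.H91.PK (ee)

/-- the numerical facts for large `X` -/
private theorem smb_ev : ∃ X0 : ℕ, ∀ X : ℕ, X0 ≤ X → 12 ≤ Real.log X ∧
    Real.exp (Pool.Agent.H97.VK.L9 X) + 2 ≤ (X : ℝ) ^ (1 / 7 : ℝ) := by
  obtain ⟨Z, hZ⟩ : ∃ Z : ℝ, Z = 100 := ⟨_, rfl⟩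
  obtain ⟨X0, hX0⟩ := Filter.eventually_atTop.1
    ((Real.tendsto_log_atTop.comp (tendsto_natCast_atTop_atTop (R := ℝ))).eventually_ge_atTop
      (Z ^ 10))
  refine ⟨max X0 1, fun X hX => ?_⟩
  have h1 : Z ^ 10 ≤ Real.log X := hX0 X ((le_max_left _ _).trans hX)
  have hX1 : 1 ≤ X := (le_max_right _ _).trans hX
  have hXpos : (0 : ℝ) < X := by exact_mod_cast hX1
  have h3 : Z ≤ Z ^ 10 := le_self_pow₀ (by linarith) (by norm_num)
  have hZL : Z ≤ Real.log X := h3.trans h1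
  set L := Real.log X with hLdef
  have hL : 0 < L := by linarith
  obtain ⟨z, hz⟩ : ∃ z : ℝ, z = L ^ (1 / 10 : ℝ) := ⟨_, rfl⟩
  have hzZ : Z ≤ z := by
    have h4 : (Z ^ 10) ^ (1 / 10 : ℝ) ≤ L ^ (1 / 10 : ℝ) :=
      Real.rpow_le_rpow (by positivity) h1 (by norm_num)
    have h5 : (Z ^ 10) ^ (1 / 10 : ℝ) = Z := by
      rw [← Real.rpow_natCast, ← Real.rpow_mul (by linarith)]
      norm_num
    rw [h5] at h4
    rw [hz]
    exact h4
  clear h1 h3
  have e1 : z ^ 10 = L := by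
    rw [hz, ← Real.rpow_natCast, ← Real.rpow_mul hL.le]
    norm_num
  have e2 : Pool.Agent.H97.VK.L9 X = z ^ 9 := by
    unfold Pool.Agent.H97.VK.L9
    rw [← hLdef, hz, ← Real.rpow_natCast, ← Real.rpow_mul hL.le]
    norm_num
  have hz0 : 0 < z := by linarith
  have h9 : 0 < z ^ 9 := by positivity
  have h10 : L = z * z ^ 9 := by rw [← e1, ← pow_succ']
  refine ⟨by linarith, ?_⟩
  rw [e2, Real.rpow_def_of_pos hXpos, ← hLdef]
  have h5 : z ^ 9 + 2 ≤ L * (1 / 7) := by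
    have h6 : 100 * z ^ 9 ≤ z * z ^ 9 := mul_le_mul_of_nonneg_right (by linarith) h9.le
    have h7 : (1 : ℝ) ≤ z ^ 9 := one_le_pow₀ (by linarith)
    linarith
  have h6 := Real.exp_le_exp.2 h5
  refine le_trans ?_ h6
  rw [Real.exp_add]
  have h7 : (3 : ℝ) ≤ Real.exp 2 := by
    have := Real.add_one_le_exp (2 : ℝ)
    linarith
  have h8 : 1 ≤ Real.exp (z ^ 9) := Real.one_le_exp h9.le
  nlinarith

theorem sm_b_h (h_psum : Pool.Agent.H97.VK.psum_P) (K B : ℕ) : ∃ K' X0 : ℕ, ∀ X : ℕ, X0 ≤ X →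
    ∀ (d : ℕ) (χ : DirichletCharacter ℂ d) (k : Fin 3) (j : ℕ) (t : ℝ), k ≠ 2 → 1 ≤ d →
    (d : ℝ) ≤ Real.log X ^ B →
    (X : ℝ) ^ (1 / 7 : ℝ) ≤ (2 : ℝ) ^ j → (2 : ℝ) ^ j ≤ X → Real.log X ^ K' ≤ |t| → |t| ≤ X →
    ‖DP (tw χ (pc k j)) (2 * 2 ^ j) t‖ ≤ (2 : ℝ) ^ j / Real.log X ^ K := by
  obtain ⟨K', x1, hps⟩ := h_psum (K + 2) B
  obtain ⟨x2, hev⟩ := smb_ev
  refine ⟨K', max (max x1 x2) 2, fun X hX d χ k j t hk hd hdB hj1 hj2 ht1 ht2 => ?_⟩
  have hX1 : x1 ≤ X := ((le_max_left _ _).trans (le_max_left _ _)).trans hX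
  have hX2 : x2 ≤ X := ((le_max_right _ _).trans (le_max_left _ _)).trans hX
  have hX3 : 2 ≤ X := (le_max_right _ _).trans hX
  obtain ⟨hL12, hY⟩ := hev X hX2
  set L := Real.log X with hLdef
  have hXr : (2 : ℝ) ≤ X := by exact_mod_cast hX3
  have hX0 : (0 : ℝ) < X := by linarith
  have hL0 : 0 < L := by linarith
  have h2j : 1 ≤ 2 ^ j := Nat.one_le_two_pow
  have hLA : 0 < L ^ (K + 2) := by positivity
  -- the start
  have hYx : Pool.Agent.H97.VK.Yx X + 1 ≤ 2 ^ j - 1 := by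
    have h1 : (Pool.Agent.H97.VK.Yx X : ℝ) ≤ Real.exp (Pool.Agent.H97.VK.L9 X) :=
      Nat.floor_le (Real.exp_pos _).le
    have h2 : ((Pool.Agent.H97.VK.Yx X + 2 : ℕ) : ℝ) ≤ (2 : ℝ) ^ j := by
      push_cast
      linarith
    have h3 : Pool.Agent.H97.VK.Yx X + 2 ≤ 2 ^ j := by exact_mod_cast h2
    omega
  have hpart : ∀ w, 2 ^ j - 1 ≤ w → ‖∑ n ∈ Icc 1 w, mub_F χ t n‖ ≤ w / L ^ (K + 2) := by
    intro w hw
    refine hps X hX1 d χ t w hd hdB ht1 ?_ (hYx.trans hw)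
    exact ht2.trans (le_self_pow₀ (by linarith) (by norm_num))
  have hM : ∀ w, 2 ^ j - 1 ≤ w → w ≤ 2 * 2 ^ j - 1 →
      ‖∑ n ∈ Ioc (2 ^ j - 1) w, mub_F χ t n‖ ≤ 3 * (2 : ℝ) ^ j / L ^ (K + 2) := by
    intro w hw1 hw2
    have h2 : ∑ n ∈ Ioc (2 ^ j - 1) w, mub_F χ t n =
        ∑ n ∈ Icc 1 w, mub_F χ t n - ∑ n ∈ Icc 1 (2 ^ j - 1), mub_F χ t n := by
      have e : Icc 1 w = Icc 1 (2 ^ j - 1) ∪ Ioc (2 ^ j - 1) w := by
        ext n
        simp only [mem_union, mem_Icc, mem_Ioc]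
        omega
      rw [e, sum_union]
      · ring
      · rw [disjoint_left]
        intro n hn hn'
        simp only [mem_Icc, mem_Ioc] at hn hn'
        omega
    rw [h2]
    refine (norm_sub_le _ _).trans ?_
    have h3 := hpart w hw1
    have h4 := hpart (2 ^ j - 1) le_rfl
    have h5 : (w : ℝ) ≤ 2 * (2 : ℝ) ^ j := by
      exact_mod_cast (by omega : w ≤ 2 * 2 ^ j)
    have h6 : ((2 ^ j - 1 : ℕ) : ℝ) ≤ (2 : ℝ) ^ j := by
      exact_mod_cast Nat.sub_le _ _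
    have h7 : (w : ℝ) / L ^ (K + 2) + ((2 ^ j - 1 : ℕ) : ℝ) / L ^ (K + 2) ≤
        3 * (2 : ℝ) ^ j / L ^ (K + 2) := by
      rw [← add_div]
      exact div_le_div_of_nonneg_right (by linarith) hLA.le
    linarith
  have hkf0 : ∀ n : ℕ, 0 ≤ kf k n := by
    intro n
    unfold kf
    split_ifs with h1 h2
    · exact zero_le_one
    · exact Real.log_natCast_nonneg n
    · exfalso
      omega
  have hkf1 : ∀ n : ℕ, 1 ≤ n → kf k n ≤ kf k (n + 1) := by
    intro n hn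
    unfold kf
    split_ifs with h1 h2
    · exact le_rfl
    · exact Real.log_le_log (by exact_mod_cast hn) (by push_cast; linarith)
    · exfalso
      omega
  have hkf2 : kf k (2 * 2 ^ j - 1) ≤ 2 * L := by
    unfold kf
    split_ifs with h1 h2
    · linarith
    · have h3 : ((2 * 2 ^ j - 1 : ℕ) : ℝ) ≤ 2 * X := by
        have h4 : ((2 * 2 ^ j - 1 : ℕ) : ℝ) ≤ ((2 * 2 ^ j : ℕ) : ℝ) := by
          exact_mod_cast Nat.sub_le _ _
        push_cast at h4
        linarith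
      have h4 : (0 : ℝ) < ((2 * 2 ^ j - 1 : ℕ) : ℝ) := by
        exact_mod_cast (by omega : 0 < 2 * 2 ^ j - 1)
      refine (Real.log_le_log h4 h3).trans ?_
      rw [Real.log_mul (by norm_num) hX0.ne']
      have := Real.log_two_lt_d9
      linarith
    · exfalso
      omega
  have hfin := mub_abel_mono (mub_F χ t) (kf k) _ (2 ^ j - 1) (2 * 2 ^ j - 1) hM
    (fun n _ _ => hkf0 n) (fun n hn _ => hkf1 n (by omega)) (by omega)
  have hDP : DP (tw χ (pc k j)) (2 * 2 ^ j) t = ∑ n ∈ Ioc (2 ^ j - 1 : ℕ) (2 * 2 ^ j - 1),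
      ((kf k n : ℝ) : ℂ) * mub_F χ t n := by
    unfold DP
    have hsub : Ioc (2 ^ j - 1) (2 * 2 ^ j - 1) ⊆ Icc 1 (2 * 2 ^ j) := by
      intro n hn
      rw [mem_Ioc] at hn
      rw [mem_Icc]
      omega
    rw [← sum_subset hsub]
    · refine sum_congr rfl fun n hn => ?_
      rw [mem_Ioc] at hn
      have h1 : n ≠ 0 ∧ 2 ^ j ≤ n ∧ n < 2 ^ (j + 1) := by
        rw [pow_succ]
        omega
      have h2 : (tw χ (pc k j)) n = ((kf k n : ℝ) : ℂ) * χ (n : ZMod d) := by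
        unfold tw pc seg
        simp only [ArithmeticFunction.coe_mk]
        rw [if_pos h1]
      rw [h2]
      unfold mub_F
      ring
    · intro n hn hn'
      rw [mem_Icc] at hn
      rw [mem_Ioc] at hn'
      have h1 : ¬ (n ≠ 0 ∧ 2 ^ j ≤ n ∧ n < 2 ^ (j + 1)) := by
        rw [pow_succ]
        omega
      have h2 : (tw χ (pc k j)) n = 0 := by
        unfold tw pc seg
        simp only [ArithmeticFunction.coe_mk]
        rw [if_neg h1]
        simp
      rw [h2, zero_mul]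
  rw [hDP]
  refine hfin.trans ?_
  calc 2 * (3 * (2 : ℝ) ^ j / L ^ (K + 2)) * kf k (2 * 2 ^ j - 1)
      ≤ 2 * (3 * (2 : ℝ) ^ j / L ^ (K + 2)) * (2 * L) :=
        mul_le_mul_of_nonneg_left hkf2 (by positivity)
    _ = 12 * ((2 : ℝ) ^ j / L ^ (K + 1)) := by
        have : L ^ (K + 2) = L * L ^ (K + 1) := by ring
        rw [this]
        field_simp
        ring
    _ ≤ L * ((2 : ℝ) ^ j / L ^ (K + 1)) := mul_le_mul_of_nonneg_right hL12 (by positivity)
    _ = (2 : ℝ) ^ j / L ^ K := by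
        rw [pow_succ]
        field_simp

end Pool.Agent.H88.PSI

end

section

/-!
# PSI BoxI: mean square of the Dirichlet polynomial of a box of type II

`η` from `box_l`, `δ = min (η/13) (1/200)`; `box_s` on `{FF ≤ X^(1-δ)}`, and on `B = {L^K' ≤ |t| ≤ T, FF > X^(1-δ)}` `box_m` and
`box_l` with `pt_b`.  `Box`: `tw χ (pc k j)` is supported on `[2^j, 2^(j+1))`, bounded by `log 2^(j+1) ≤ 2 L`.
`FF = ‖DP (tw χ (Pp κ j)) (∏ 2·2^(j i))‖` by `dp_prod`, `tw_prod`; the length may be increased (`hN`).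
-/

set_option autoImplicit false

namespace Pool.Agent.H88.PSI

open Finset MeasureTheory

private theorem BoxI_ext (f : ℕ → ℂ) (N0 N : ℕ) (h : ∀ n, f n ≠ 0 → n ≤ N0) (hN : N0 ≤ N) (t : ℝ) :
    DP f N t = DP f N0 t := by
  unfold DP
  symm
  apply sum_subset (Icc_subset_Icc le_rfl hN)
  intro n _ hn
  have : f n = 0 := by
    by_contra h0
    have := h n h0
    simp only [mem_Icc, not_and, not_le] at hn
    rename_i h1
    rw [mem_Icc] at h1
    have := hn h1.1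
    omega
  rw [this, zero_mul]

private theorem BoxI_norm_char {d : ℕ} (χ : DirichletCharacter ℂ d) (a : ZMod d) : ‖χ a‖ ≤ 1 :=
  DirichletCharacter.norm_le_one χ a

theorem BoxI_box (X : ℕ) (hX : 3 ≤ X) {r d : ℕ} (χ : DirichletCharacter ℂ d) (κ : Fin r → Fin 3)
    (j : Fin r → ℕ) (hr : r ≤ 6) (h1 : ∀ i, (2 : ℝ) ^ j i ≤ (X : ℝ) ^ (11 / 24 : ℝ))
    (h2 : ∏ i, 2 ^ j i ≤ 3 * X) :
    Box X (fun i => 2 ^ j i) (fun i => tw χ (pc (κ i) (j i))) where
  hr := hr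
  one := fun i => Nat.one_le_two_pow
  top := fun i => by push_cast; exact h1 i
  prod := h2
  supp := by
    intro i n hn
    have h3 : pc (κ i) (j i) n ≠ 0 := by
      intro h0
      apply hn
      show (((pc (κ i) (j i)) n : ℝ) : ℂ) * χ (n : ZMod d) = 0
      rw [h0]; simp
    unfold pc seg at h3
    simp only [ArithmeticFunction.coe_mk] at h3
    split_ifs at h3 with h4
    · refine ⟨h4.2.1, ?_⟩
      have := h4.2.2
      rw [pow_succ] at this
      show n < 2 * 2 ^ j i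
      omega
    · exact absurd rfl h3
  bd := by
    intro i n
    have hX3 : (3 : ℝ) ≤ X := by exact_mod_cast hX
    have hL1 : 1 ≤ Real.log X := by
      rw [Real.le_log_iff_exp_le (by linarith)]
      have := Real.exp_one_lt_d9
      linarith
    show ‖(((pc (κ i) (j i)) n : ℝ) : ℂ) * χ (n : ZMod d)‖ ≤ 2 * Real.log X
    rw [norm_mul, Complex.norm_real]
    have h3 : ‖(pc (κ i) (j i)) n‖ ≤ 2 * Real.log X := by
      unfold pc seg
      simp only [ArithmeticFunction.coe_mk]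
      split_ifs with h4
      · unfold kf
        split_ifs
        · simp; linarith
        · have hn0 : (0 : ℝ) < n := by
            have := Nat.pos_of_ne_zero h4.1
            exact_mod_cast this
          have hn1 : (1 : ℝ) ≤ n := by
            have := Nat.pos_of_ne_zero h4.1
            exact_mod_cast this
          rw [Real.norm_eq_abs, abs_of_nonneg (Real.log_nonneg hn1)]
          have h5 : (n : ℝ) ≤ (X : ℝ) ^ 2 := by
            have h6 : (n : ℝ) < 2 ^ (j i + 1) := by exact_mod_cast h4.2.2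
            have h7 : (X : ℝ) ^ (11 / 24 : ℝ) ≤ X := by
              nth_rewrite 2 [← Real.rpow_one (X : ℝ)]
              exact Real.rpow_le_rpow_of_exponent_le (by linarith) (by norm_num)
            have h8 := h1 i
            have h9 : (2 : ℝ) ^ (j i + 1) = 2 ^ (j i) * 2 := by ring
            nlinarith
          calc Real.log n ≤ Real.log ((X : ℝ) ^ 2) := Real.log_le_log hn0 h5
            _ = 2 * Real.log X := by rw [Real.log_pow]; norm_num
        · have h5 := ArithmeticFunction.abs_moebius_le_one (n := n)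
          have h6 : |((ArithmeticFunction.moebius n : ℤ) : ℝ)| ≤ 1 := by exact_mod_cast h5
          rw [Real.norm_eq_abs]
          linarith
      · simp; linarith
    calc ‖(pc (κ i) (j i)) n‖ * ‖χ (n : ZMod d)‖ ≤ ‖(pc (κ i) (j i)) n‖ * 1 :=
          mul_le_mul_of_nonneg_left (BoxI_norm_char χ _) (norm_nonneg _)
      _ ≤ 2 * Real.log X := by rw [mul_one]; exact h3

theorem BoxI_ff {r d : ℕ} (N : ℕ) (hd : 1 ≤ d) (χ : DirichletCharacter ℂ d) (κ : Fin r → Fin 3)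
    (j : Fin r → ℕ) (hN : 2 ^ r * ∏ i, 2 ^ j i ≤ N) (t : ℝ) :
    ‖DP (tw χ (Pp κ j)) N t‖ = FF (fun i => 2 ^ j i) (fun i => tw χ (pc (κ i) (j i))) t := by
  have hsup : ∀ i n, tw χ (pc (κ i) (j i)) n ≠ 0 → 2 ^ j i ≤ n ∧ n < 2 * 2 ^ j i := by
    intro i n hn
    have h3 : pc (κ i) (j i) n ≠ 0 := by
      intro h0
      apply hn
      show (((pc (κ i) (j i)) n : ℝ) : ℂ) * χ (n : ZMod d) = 0
      rw [h0]; simp
    unfold pc seg at h3
    simp only [ArithmeticFunction.coe_mk] at h3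
    split_ifs at h3 with h4
    · refine ⟨h4.2.1, ?_⟩
      have := h4.2.2
      rw [pow_succ] at this
      omega
    · exact absurd rfl h3
  have e1 : tw χ (Pp κ j) = ∏ i, tw χ (pc (κ i) (j i)) := by
    unfold Pp
    exact tw_prod χ univ _ (by omega)
  have e2 : ∏ i : Fin r, (2 * 2 ^ j i) = 2 ^ r * ∏ i, 2 ^ j i := by
    rw [prod_mul_distrib]; simp
  have e3 : DP (⇑(tw χ (Pp κ j))) N t = DP (⇑(∏ i, tw χ (pc (κ i) (j i)))) (∏ i : Fin r, (2 * 2 ^ j i)) t := by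
    rw [e1]
    apply BoxI_ext
    · intro n hn
      exact (prod_supp _ (fun i => 2 ^ j i) hsup n hn).2
    · rw [e2]; exact hN
  rw [e3, dp_prod univ (fun i => tw χ (pc (κ i) (j i))) (fun i => 2 * 2 ^ j i)
    (fun i _ n hn => (hsup i n hn).2.le) t, norm_prod]
  rfl

end Pool.Agent.H88.PSI

end

section

/-!
# E58 Tp: the first moment over a small set, given a bound for the longest factor

`κ = 1/200`, `I = {i : N i ≥ X^κ}`, `L = log X`.  For `i ∈ I` let `k i = ⌊(11/24) L/log (N i)⌋₊` (so `1 ≤ k i ≤ 100`): `(N i)^(k i) ≤ X^(11/24) < (N i)^(k i + 1)`, hence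
`(N i)^(k i) ≥ X^(11/48)` and `1/(2 k i) ≥ (12/11) log (N i)/L`.  `X ≤ 64 ∏ N i` gives `∑_{i ∈ I} log (N i)/L ≥ 1 - 6κ - log 64/L`, so
`Σ := ∑_{i ∈ I} 1/(2 k i) ≥ 24/23`; `θ := 1/Σ ≤ 23/24`.

`Pool.Agent.H80.LV.hm (1/5)` (the `η` of the theorem comes from it) for `(g i)^(k i)` (`dp_pow`, length `(2 N i)^(k i)`, coefficients by `prod_bd`, moments by `tau_mom`):
`∫_B ‖F_i‖^(2 k i) ≤ (N i)^(2 k i) L^C`.  Hoelder (`ENNReal.lintegral_prod_norm_pow_le`, or its Bochner version, weights `θ/(2 k i)` with sum `1`):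
`∫_B ∏_{i ∈ I} ‖F_i‖^θ ≤ ∏_{i ∈ I} (∫_B ‖F_i‖^(2 k i))^(θ/(2 k i)) ≤ (∏_{i ∈ I} N i)^θ L^C'`.
`FF = ∏_{i ∉ I} ‖F_i‖ ∏_{i ∈ I} ‖F_i‖^(1-θ) ‖F_i‖^θ`; `‖F_i‖ ≤ 2 L N i` (`box_tr`) and for the longest factor `i0` (`BoxL_long`: `N i0 ≥ X^(1/7)`)
`‖F_i0‖^(1-θ) ≤ (N i0)^(1-θ) L^(-K/24)`.  Total `≤ ∏ N i L^(C'+6) 2^6 L^(-K/24) ≤ X/L^A` for `K` large.
-/

set_option autoImplicit false

namespace Pool.Agent.H88.E58

open Finset MeasureTheory
open Pool.Agent.H88.PSI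

/-- Hoelder for finitely many functions -/
private theorem Tp_holder {ι : Type*} (s : Finset ι) {B : Set ℝ} {a b : ℝ} (hB : MeasurableSet B)
    (hsub : B ⊆ Set.Icc a b) (G : ι → ℝ → ℝ) (hG : ∀ i ∈ s, Continuous (G i))
    (h0 : ∀ i ∈ s, ∀ t, 0 ≤ G i t) (p : ι → ℝ) (hp : ∑ i ∈ s, p i = 1) (hp0 : ∀ i ∈ s, 0 ≤ p i) :
    ∫ t in B, ∏ i ∈ s, G i t ^ p i ≤ ∏ i ∈ s, (∫ t in B, G i t) ^ p i := by
  have hint : ∀ i ∈ s, IntegrableOn (G i) B := fun i hi =>
    ((hG i hi).continuousOn.integrableOn_compact isCompact_Icc).mono_set hsub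
  have hcont : Continuous (fun t => ∏ i ∈ s, G i t ^ p i) :=
    continuous_finsetProd s fun i hi => (hG i hi).rpow_const (fun t => Or.inr (hp0 i hi))
  have hintP : IntegrableOn (fun t => ∏ i ∈ s, G i t ^ p i) B :=
    (hcont.continuousOn.integrableOn_compact isCompact_Icc).mono_set hsub
  have hI0 : ∀ i ∈ s, 0 ≤ ∫ t in B, G i t := fun i hi =>
    setIntegral_nonneg hB fun t _ => h0 i hi t
  rw [← ENNReal.ofReal_le_ofReal_iff (Finset.prod_nonneg fun i hi => Real.rpow_nonneg (hI0 i hi) _)]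
  rw [ofReal_integral_eq_lintegral_ofReal hintP
    (ae_of_all _ fun t => Finset.prod_nonneg fun i hi => Real.rpow_nonneg (h0 i hi t) _)]
  rw [ENNReal.ofReal_prod_of_nonneg fun i hi => Real.rpow_nonneg (hI0 i hi) _]
  have h1 : ∀ t, ENNReal.ofReal (∏ i ∈ s, G i t ^ p i) = ∏ i ∈ s, ENNReal.ofReal (G i t) ^ p i := by
    intro t
    rw [ENNReal.ofReal_prod_of_nonneg fun i hi => Real.rpow_nonneg (h0 i hi t) _]
    refine prod_congr rfl fun i hi => ?_
    rw [ENNReal.ofReal_rpow_of_nonneg (h0 i hi t) (hp0 i hi)]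
  have h2 : ∏ i ∈ s, ENNReal.ofReal ((∫ t in B, G i t) ^ p i) =
      ∏ i ∈ s, (∫⁻ t in B, ENNReal.ofReal (G i t)) ^ p i := by
    refine prod_congr rfl fun i hi => ?_
    rw [← ENNReal.ofReal_rpow_of_nonneg (hI0 i hi) (hp0 i hi),
      ofReal_integral_eq_lintegral_ofReal (hint i hi) (ae_of_all _ fun t => h0 i hi t)]
  rw [h2]
  simp only [h1]
  exact ENNReal.lintegral_prod_norm_pow_le s
    (fun i hi => ((hG i hi).measurable.ennreal_ofReal).aemeasurable) hp hp0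

private theorem Tp_SS {X k M : ℕ} {f : ArithmeticFunction ℂ} (hbd : ∀ n, ‖f n‖ ≤ 2 * Real.log X)
    (hL : 1 ≤ Real.log X) (hM : M ^ k ≤ X) :
    SS (⇑(f ^ k)) (M ^ k) ≤ ((M ^ k : ℕ) : ℝ) * (2 * Real.log X) ^ (2 * k + 2 ^ (2 * k)) := by
  set L := Real.log X with hLdef
  have hG : ∀ n, ‖(f ^ k) n‖ ^ 2 ≤ (2 * L) ^ (2 * k) * tau n ^ (2 * k) := by
    intro n
    have h1 := prod_bd (fun _ : Fin k => f) (2 * L) (by linarith) (fun _ n => hbd n) n
    rw [prod_const, card_univ, Fintype.card_fin] at h1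
    calc ‖(f ^ k) n‖ ^ 2 ≤ ((2 * L) ^ k * tau n ^ k) ^ 2 :=
          pow_le_pow_left₀ (norm_nonneg _) h1 2
      _ = (2 * L) ^ (2 * k) * tau n ^ (2 * k) := by
          rw [mul_pow, ← pow_mul, ← pow_mul, mul_comm k 2]
  unfold SS
  calc ∑ n ∈ Icc 1 (M ^ k), ‖(f ^ k) n‖ ^ 2
      ≤ ∑ n ∈ Icc 1 (M ^ k), (2 * L) ^ (2 * k) * tau n ^ (2 * k) := sum_le_sum fun n _ => hG n
    _ = (2 * L) ^ (2 * k) * ∑ n ∈ Icc 1 (M ^ k), tau n ^ (2 * k) := by rw [mul_sum]
    _ ≤ (2 * L) ^ (2 * k) * (((M ^ k : ℕ) : ℝ) * (1 + Real.log ((M ^ k : ℕ) : ℝ)) ^ (2 ^ (2 * k))) :=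
        mul_le_mul_of_nonneg_left (tau_mom (2 * k) (M ^ k)) (by positivity)
    _ ≤ (2 * L) ^ (2 * k) * (((M ^ k : ℕ) : ℝ) * (2 * L) ^ (2 ^ (2 * k))) := by
        apply mul_le_mul_of_nonneg_left _ (by positivity)
        apply mul_le_mul_of_nonneg_left _ (by positivity)
        have h0 : 0 ≤ Real.log ((M ^ k : ℕ) : ℝ) := Real.log_natCast_nonneg _
        apply pow_le_pow_left₀ (by linarith)
        have : Real.log ((M ^ k : ℕ) : ℝ) ≤ L := by
          rcases Nat.eq_zero_or_pos (M ^ k) with h | h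
          · rw [h, Nat.cast_zero, Real.log_zero]
            linarith
          · exact Real.log_le_log (by exact_mod_cast h) (by exact_mod_cast hM)
        linarith
    _ = ((M ^ k : ℕ) : ℝ) * (2 * L) ^ (2 * k + 2 ^ (2 * k)) := by rw [pow_add]; ring

private theorem Tp_mom {X k N0 EE : ℕ} {f : ArithmeticFunction ℂ} {B : Set ℝ} (hk : k ≤ 100)
    (hEE : EE = 402 + 2 ^ 200) (hbd : ∀ n, ‖f n‖ ≤ 2 * Real.log X) (hL : 2 ≤ Real.log X)
    (hsupp : ∀ n, f n ≠ 0 → n ≤ 2 * N0) (hM : (2 * N0) ^ k ≤ X)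
    (hhm : ∫ t in B, ‖DP (⇑(f ^ k)) ((2 * N0) ^ k) t‖ ^ 2 ≤
      (((2 * N0) ^ k : ℕ) : ℝ) * Real.log X ^ 2 * SS (⇑(f ^ k)) ((2 * N0) ^ k)) :
    ∫ t in B, ‖DP (⇑f) (2 * N0) t‖ ^ (2 * k) ≤ (N0 : ℝ) ^ (2 * k) * Real.log X ^ (2 * EE) := by
  have h1 : ∀ t, ‖DP (⇑(f ^ k)) ((2 * N0) ^ k) t‖ ^ 2 = ‖DP (⇑f) (2 * N0) t‖ ^ (2 * k) := by
    intro t
    rw [dp_pow f (2 * N0) k hsupp t, norm_pow, ← pow_mul, mul_comm k 2]
  simp only [h1] at hhm
  refine hhm.trans ?_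
  have h2 := Tp_SS hbd (by linarith) hM
  set L := Real.log X with hLdef
  have hL0 : 0 < L := by linarith
  have hexp : 2 * k + 2 + (2 * k + 2 ^ (2 * k)) ≤ EE := by
    have h3 : 2 ^ (2 * k) ≤ 2 ^ 200 := Nat.pow_le_pow_right (by norm_num) (by omega)
    rw [hEE]
    omega
  calc (((2 * N0) ^ k : ℕ) : ℝ) * L ^ 2 * SS (⇑(f ^ k)) ((2 * N0) ^ k)
      ≤ (((2 * N0) ^ k : ℕ) : ℝ) * L ^ 2 *
        ((((2 * N0) ^ k : ℕ) : ℝ) * (2 * L) ^ (2 * k + 2 ^ (2 * k))) :=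
        mul_le_mul_of_nonneg_left h2 (by positivity)
    _ = (N0 : ℝ) ^ (2 * k) * (2 ^ (2 * k) * L ^ 2 * (2 * L) ^ (2 * k + 2 ^ (2 * k))) := by
        push_cast
        rw [mul_pow 2 (N0 : ℝ) k, pow_mul' (N0 : ℝ) 2 k, pow_mul' (2 : ℝ) 2 k]
        ring
    _ ≤ (N0 : ℝ) ^ (2 * k) *
        ((2 * L) ^ (2 * k) * (2 * L) ^ 2 * (2 * L) ^ (2 * k + 2 ^ (2 * k))) := by
        apply mul_le_mul_of_nonneg_left _ (by positivity)
        apply mul_le_mul_of_nonneg_right _ (by positivity)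
        apply mul_le_mul _ _ (by positivity) (by positivity)
        · exact pow_le_pow_left₀ (by norm_num) (by linarith) _
        · exact pow_le_pow_left₀ hL0.le (by linarith) _
    _ = (N0 : ℝ) ^ (2 * k) * (2 * L) ^ (2 * k + 2 + (2 * k + 2 ^ (2 * k))) := by
        rw [pow_add (2 * L) (2 * k + 2), pow_add (2 * L) (2 * k) 2]
    _ ≤ (N0 : ℝ) ^ (2 * k) * (2 * L) ^ EE := by
        apply mul_le_mul_of_nonneg_left _ (by positivity)
        exact pow_le_pow_right₀ (by linarith) hexp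
    _ ≤ (N0 : ℝ) ^ (2 * k) * (L ^ 2) ^ EE := by
        apply mul_le_mul_of_nonneg_left _ (by positivity)
        apply pow_le_pow_left₀ (by positivity)
        nlinarith
    _ = (N0 : ℝ) ^ (2 * k) * L ^ (2 * EE) := by rw [← pow_mul]

/-- the choice of the power -/
private theorem Tp_k {X N : ℕ} (hL : 0 < Real.log X) (h1 : (X : ℝ) ^ (1 / 200 : ℝ) ≤ N)
    (h2 : (N : ℝ) ≤ (X : ℝ) ^ (11 / 24 : ℝ)) (h3 : (2 : ℝ) ^ 100 ≤ (X : ℝ) ^ (13 / 24 : ℝ)) :
    ∃ k : ℕ, 1 ≤ k ∧ k ≤ 100 ∧ (X : ℝ) ^ (1 / 5 : ℝ) ≤ (((2 * N) ^ k : ℕ) : ℝ) ∧ (2 * N) ^ k ≤ X ∧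
      12 / 11 * (Real.log N / Real.log X) ≤ 1 / (2 * (k : ℝ)) := by
  have hX0 : (0 : ℝ) < X := by
    rcases Nat.eq_zero_or_pos X with h | h
    · rw [h, Nat.cast_zero, Real.log_zero] at hL
      exact absurd hL (lt_irrefl 0)
    · exact_mod_cast h
  have hN0 : (0 : ℝ) < N := lt_of_lt_of_le (by positivity) h1
  obtain ⟨L, hLd⟩ : ∃ L, L = Real.log X := ⟨_, rfl⟩
  obtain ⟨l, hld⟩ : ∃ l, l = Real.log N := ⟨_, rfl⟩
  have e1 := Real.log_le_log (by positivity) h1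
  have e2 := Real.log_le_log hN0 h2
  rw [Real.log_rpow hX0, ← hLd, ← hld] at e1
  rw [Real.log_rpow hX0, ← hLd, ← hld] at e2
  rw [← hLd] at hL
  have hl : 0 < l := by linarith
  obtain ⟨k, hk⟩ : ∃ k, k = ⌊11 / 24 * L / l⌋₊ := ⟨_, rfl⟩
  have k1 : (k : ℝ) ≤ 11 / 24 * L / l := by
    rw [hk]
    exact Nat.floor_le (by positivity)
  have k2 : 11 / 24 * L / l < k + 1 := by
    rw [hk]
    exact Nat.lt_floor_add_one _
  rw [le_div_iff₀ hl] at k1
  rw [div_lt_iff₀ hl] at k2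
  have hk1 : 1 ≤ k := by
    rw [hk]
    apply Nat.le_floor
    rw [Nat.cast_one, le_div_iff₀ hl]
    linarith
  have hk1' : (1 : ℝ) ≤ k := by exact_mod_cast hk1
  have hk100 : k ≤ 100 := by
    by_contra hcon
    push Not at hcon
    have h4 : (101 : ℝ) ≤ k := by exact_mod_cast hcon
    nlinarith
  have hkl : 11 / 48 * L ≤ k * l := by nlinarith
  have hexp : (N : ℝ) ^ k = Real.exp (k * l) := by
    rw [Real.exp_nat_mul, hld, Real.exp_log hN0]
  have hup : (N : ℝ) ^ k ≤ (X : ℝ) ^ (11 / 24 : ℝ) := by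
    rw [hexp, Real.rpow_def_of_pos hX0, ← hLd]
    apply Real.exp_le_exp.2
    linarith
  have hlow : (X : ℝ) ^ (1 / 5 : ℝ) ≤ (N : ℝ) ^ k := by
    rw [hexp, Real.rpow_def_of_pos hX0, ← hLd]
    apply Real.exp_le_exp.2
    linarith
  refine ⟨k, hk1, hk100, ?_, ?_, ?_⟩
  · push_cast
    refine hlow.trans ?_
    apply pow_le_pow_left₀ hN0.le
    linarith
  · have h4 : ((2 * N : ℝ)) ^ k ≤ X := by
      calc ((2 * N : ℝ)) ^ k = 2 ^ k * (N : ℝ) ^ k := mul_pow _ _ _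
        _ ≤ 2 ^ 100 * (X : ℝ) ^ (11 / 24 : ℝ) :=
            mul_le_mul (pow_le_pow_right₀ (by norm_num) hk100) hup (by positivity) (by positivity)
        _ ≤ (X : ℝ) ^ (13 / 24 : ℝ) * (X : ℝ) ^ (11 / 24 : ℝ) :=
            mul_le_mul_of_nonneg_right h3 (by positivity)
        _ = X := by
            rw [← Real.rpow_add hX0]
            norm_num
    exact_mod_cast h4
  · rw [← hLd, ← hld, ← mul_div_assoc, div_le_div_iff₀ hL (by positivity)]
    nlinarith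

private theorem Tp_sum {X r : ℕ} {N : Fin r → ℕ} (hr : r ≤ 6) (hL : 420 ≤ Real.log X)
    (hP : X ≤ 2 ^ r * ∏ i, N i) (h1 : ∀ i, 1 ≤ N i) (I : Finset (Fin r))
    (hI : ∀ i, i ∉ I → (N i : ℝ) ≤ (X : ℝ) ^ (1 / 200 : ℝ)) :
    24 / 25 * Real.log X ≤ ∑ i ∈ I, Real.log (N i) := by
  have hX0 : (0 : ℝ) < X := by
    rcases Nat.eq_zero_or_pos X with h | h
    · rw [h, Nat.cast_zero, Real.log_zero] at hL
      linarith
    · exact_mod_cast h
  have hN0 : ∀ i, (0 : ℝ) < N i := fun i => by exact_mod_cast h1 i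
  have h2 : (X : ℝ) ≤ 2 ^ r * ∏ i, (N i : ℝ) := by exact_mod_cast hP
  have h3 := Real.log_le_log hX0 h2
  rw [Real.log_mul (by positivity) (Finset.prod_ne_zero_iff.2 fun i _ => (hN0 i).ne'),
    Real.log_prod (fun i _ => (hN0 i).ne'), Real.log_pow] at h3
  have h4 : ∑ i, Real.log (N i) = ∑ i ∈ I, Real.log (N i) + ∑ i ∈ Iᶜ, Real.log (N i) :=
    (sum_add_sum_compl I _).symm
  have h5 : ∑ i ∈ Iᶜ, Real.log (N i) ≤ ∑ _i ∈ Iᶜ, 1 / 200 * Real.log X := by
    refine sum_le_sum fun i hi => ?_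
    rw [mem_compl] at hi
    have h6 := Real.log_le_log (hN0 i) (hI i hi)
    rwa [Real.log_rpow hX0] at h6
  have h6 : (Iᶜ.card : ℝ) ≤ 6 := by
    have h7 : Iᶜ.card ≤ 6 := by
      refine (card_le_univ _).trans ?_
      rwa [Fintype.card_fin]
    exact_mod_cast h7
  rw [sum_const, nsmul_eq_mul] at h5
  have h7 : (Iᶜ.card : ℝ) * (1 / 200 * Real.log X) ≤ 6 * (1 / 200 * Real.log X) :=
    mul_le_mul_of_nonneg_right h6 (by positivity)
  have h8 : (r : ℝ) * Real.log 2 ≤ 6 * 0.7 := by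
    have h9 : (r : ℝ) ≤ 6 := by exact_mod_cast hr
    have h10 := Real.log_two_lt_d9
    have h11 : 0 ≤ Real.log 2 := Real.log_nonneg (by norm_num)
    nlinarith
  linarith

theorem tp58 : ∃ η : ℝ, 0 < η ∧ ∀ A : ℕ, ∃ K X0 : ℕ, ∀ X : ℕ, X0 ≤ X →
    ∀ (r : ℕ) (N : Fin r → ℕ) (g : Fin r → ArithmeticFunction ℂ) (B : Set ℝ),
    Box X N g → X ≤ 2 ^ r * ∏ i, N i → MeasurableSet B →
    B ⊆ Set.Icc (-(X : ℝ)) X → volume.real B ≤ (X : ℝ) ^ η →
    (∀ i, (X : ℝ) ^ (1 / 7 : ℝ) ≤ N i → ∀ t ∈ B, ‖DP (g i) (2 * N i) t‖ ≤ N i / Real.log X ^ K) →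
    ∫ t in B, FF N g t ≤ X / Real.log X ^ A := by
  classical
  obtain ⟨η, hη0, hη1, x0, hhm⟩ := Pool.Agent.H80.LV.hm (1 / 5) (by norm_num)
  refine ⟨η, hη0, fun A => ?_⟩
  obtain ⟨EE, hEE⟩ : ∃ EE : ℕ, EE = 402 + 2 ^ 200 := ⟨_, rfl⟩
  obtain ⟨x1, hx1⟩ := Pool.Agent.H80.LV.log_ge 420
  obtain ⟨x2, hx2⟩ := Pool.Agent.H80.LV.pow_ge (1 / 6 - 1 / 7) 2 (by norm_num)
  obtain ⟨x3, hx3⟩ := Pool.Agent.H80.LV.pow_ge (13 / 24) (2 ^ 100) (by norm_num)
  refine ⟨24 * (A + 2 * EE + 7), max 2 (max x0 (max x1 (max x2 x3))), fun X hX => ?_⟩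
  have hXa : 2 ≤ X := (le_max_left _ _).trans hX
  have hX' := (le_max_right _ _).trans hX
  have hX0 : x0 ≤ X := (le_max_left _ _).trans hX'
  have hX'' := (le_max_right _ _).trans hX'
  have hL420 := hx1 X ((le_max_left _ _).trans hX'')
  have hX3 := (le_max_right _ _).trans hX''
  have hp2 := hx2 X ((le_max_left _ _).trans hX3)
  have hp3 := hx3 X ((le_max_right _ _).trans hX3)
  clear hX hX' hX'' hX3
  intro r N g B hBox hP hBm hBsub hBvol hp
  obtain ⟨K1, hK1⟩ : ∃ K1, K1 = A + 2 * EE + 7 := ⟨_, rfl⟩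
  rw [← hK1] at hp
  have hXr : (0 : ℝ) < X := by exact_mod_cast (show 0 < X by omega)
  have hXr1 : (1 : ℝ) ≤ X := by exact_mod_cast (show 1 ≤ X by omega)
  obtain ⟨i0, hi0⟩ := BoxL_long hBox.hr hXa hP hBox.one
  have hN0 : ∀ i, (0 : ℝ) < N i := fun i => by exact_mod_cast hBox.one i
  have hi7 : (X : ℝ) ^ (1 / 7 : ℝ) ≤ N i0 := by
    have h1 : (X : ℝ) ^ (1 / 6 : ℝ) = (X : ℝ) ^ (1 / 7 : ℝ) * (X : ℝ) ^ (1 / 6 - 1 / 7 : ℝ) := by
      rw [← Real.rpow_add hXr]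
      norm_num
    rw [h1] at hi0
    have h2 : (X : ℝ) ^ (1 / 7 : ℝ) * 2 ≤ (X : ℝ) ^ (1 / 7 : ℝ) * (X : ℝ) ^ (1 / 6 - 1 / 7 : ℝ) :=
      mul_le_mul_of_nonneg_left hp2 (by positivity)
    linarith
  obtain ⟨I, hI⟩ : ∃ I : Finset (Fin r), I = univ.filter (fun i => (X : ℝ) ^ (1 / 200 : ℝ) ≤ N i) :=
    ⟨_, rfl⟩
  have hmemI : ∀ i, i ∈ I ↔ (X : ℝ) ^ (1 / 200 : ℝ) ≤ N i := fun i => by
    rw [hI, mem_filter]
    simp
  have hi0I : i0 ∈ I := by
    rw [hmemI]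
    exact (Real.rpow_le_rpow_of_exponent_le hXr1 (by norm_num)).trans hi7
  obtain ⟨L, hLd⟩ : ∃ L, L = Real.log X := ⟨_, rfl⟩
  have hL420' : 420 ≤ L := by rw [hLd]; exact hL420
  have hL0 : 0 < L := by linarith
  have hL1 : 1 ≤ L := by linarith
  have hk : ∀ i : Fin r, ∃ k : ℕ, i ∈ I → (1 ≤ k ∧ k ≤ 100 ∧
      (X : ℝ) ^ (1 / 5 : ℝ) ≤ (((2 * N i) ^ k : ℕ) : ℝ) ∧ (2 * N i) ^ k ≤ X ∧
      12 / 11 * (Real.log (N i) / Real.log X) ≤ 1 / (2 * (k : ℝ))) := by
    intro i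
    by_cases h : i ∈ I
    · obtain ⟨k, hk⟩ := Tp_k (X := X) (N := N i) (by linarith) ((hmemI i).1 h) (hBox.top i) hp3
      exact ⟨k, fun _ => hk⟩
    · exact ⟨0, fun h' => absurd h' h⟩
  choose k hk using hk
  obtain ⟨Sg, hSg⟩ : ∃ Sg, Sg = ∑ i ∈ I, 1 / (2 * (k i : ℝ)) := ⟨_, rfl⟩
  have hSg1 : 24 / 23 ≤ Sg := by
    have h1 := Tp_sum hBox.hr hL420 hP hBox.one I (fun i hi => by
      rw [hmemI] at hi
      exact (not_le.1 hi).le)
    have h2 : ∑ i ∈ I, 12 / 11 * (Real.log (N i) / Real.log X) ≤ Sg := by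
      rw [hSg]
      exact sum_le_sum fun i hi => (hk i hi).2.2.2.2
    rw [← mul_sum, ← sum_div, ← hLd] at h2
    have h3 : 24 / 25 ≤ (∑ i ∈ I, Real.log (N i)) / L := by
      rw [le_div_iff₀ hL0, hLd]
      exact h1
    linarith
  obtain ⟨θ, hθ⟩ : ∃ θ, θ = 1 / Sg := ⟨_, rfl⟩
  have hSg0 : 0 < Sg := by linarith
  have hθ0 : 0 < θ := by rw [hθ]; positivity
  have hθS : θ * Sg = 1 := by rw [hθ]; field_simp
  have hθ1 : θ ≤ 23 / 24 := by
    rw [hθ, div_le_div_iff₀ hSg0 (by norm_num)]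
    linarith
  have h1θ : 0 < 1 - θ := by linarith
  have hpsum : ∑ i ∈ I, θ / (2 * (k i : ℝ)) = 1 := by
    rw [← hθS, hSg, mul_sum]
    refine sum_congr rfl fun i _ => ?_
    ring
  have hppos : ∀ i ∈ I, 0 ≤ θ / (2 * (k i : ℝ)) := fun i _ => by positivity
  -- the pointwise bound
  obtain ⟨d, hd⟩ : ∃ d : Fin r → ℝ, d = fun i =>
      if i = i0 then (1 / L ^ (24 * K1)) ^ (1 - θ) else 2 * L := ⟨_, rfl⟩
  have hd0 : ∀ i, 0 ≤ d i := fun i => by
    rw [hd]
    dsimp only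
    split_ifs
    · positivity
    · positivity
  have hsplit : ∀ y : ℝ, 0 ≤ y → y = y ^ (1 - θ) * y ^ θ := by
    intro y hy
    rw [← Real.rpow_add_of_nonneg hy h1θ.le hθ0.le]
    rw [sub_add_cancel, Real.rpow_one]
  have hF1 : ∀ t ∈ B, ∀ i ∈ I, ‖DP (g i) (2 * N i) t‖ ≤
      d i * (N i : ℝ) ^ (1 - θ) * ‖DP (g i) (2 * N i) t‖ ^ θ := by
    intro t ht i hi
    have hy := norm_nonneg (DP (g i) (2 * N i) t)
    have e1 := hsplit _ hy
    have e2 : ‖DP (g i) (2 * N i) t‖ ^ (1 - θ) ≤ d i * (N i : ℝ) ^ (1 - θ) := by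
      rw [hd]
      dsimp only
      split_ifs with hii
      · subst hii
        rw [← Real.mul_rpow (by positivity) (hN0 i).le]
        apply Real.rpow_le_rpow hy _ h1θ.le
        have e3 := hp i hi7 t ht
        rw [← hLd] at e3
        rw [one_div_mul_eq_div]
        exact e3
      · have e3 := box_tr hBox i t
        rw [← hLd] at e3
        have e4 := Real.rpow_le_rpow hy e3 h1θ.le
        rw [Real.mul_rpow (by positivity) (hN0 i).le] at e4
        refine e4.trans ?_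
        apply mul_le_mul_of_nonneg_right _ (by positivity)
        calc (2 * L) ^ (1 - θ) ≤ (2 * L) ^ (1 : ℝ) :=
              Real.rpow_le_rpow_of_exponent_le (by linarith) (by linarith)
          _ = 2 * L := Real.rpow_one _
    calc ‖DP (g i) (2 * N i) t‖ = ‖DP (g i) (2 * N i) t‖ ^ (1 - θ) *
          ‖DP (g i) (2 * N i) t‖ ^ θ := e1
      _ ≤ _ := mul_le_mul_of_nonneg_right e2 (Real.rpow_nonneg hy _)
  have hF2 : ∀ t, ∀ i ∈ Iᶜ, ‖DP (g i) (2 * N i) t‖ ≤ d i * N i := by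
    intro t i hi
    rw [mem_compl] at hi
    have hii : i ≠ i0 := by
      rintro rfl
      exact hi hi0I
    rw [hd]
    dsimp only
    rw [if_neg hii, hLd]
    exact box_tr hBox i t
  obtain ⟨Cst, hCst⟩ : ∃ Cst : ℝ, Cst = (∏ i, d i) *
      ((∏ i ∈ I, (N i : ℝ) ^ (1 - θ)) * ∏ i ∈ Iᶜ, (N i : ℝ)) := ⟨_, rfl⟩
  have hCst0 : 0 ≤ Cst := by
    rw [hCst]
    refine mul_nonneg (prod_nonneg fun i _ => hd0 i) (mul_nonneg (prod_nonneg fun i _ => ?_)
      (prod_nonneg fun i _ => (hN0 i).le))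
    exact Real.rpow_nonneg (hN0 i).le _
  have hpt : ∀ t ∈ B, FF N g t ≤ Cst * ∏ i ∈ I, ‖DP (g i) (2 * N i) t‖ ^ θ := by
    intro t ht
    unfold FF
    rw [← prod_mul_prod_compl I (fun i => ‖DP (g i) (2 * N i) t‖)]
    have e1 : ∏ i ∈ I, ‖DP (g i) (2 * N i) t‖ ≤
        ∏ i ∈ I, (d i * (N i : ℝ) ^ (1 - θ) * ‖DP (g i) (2 * N i) t‖ ^ θ) :=
      prod_le_prod (fun i _ => norm_nonneg _) (hF1 t ht)
    have e2 : ∏ i ∈ Iᶜ, ‖DP (g i) (2 * N i) t‖ ≤ ∏ i ∈ Iᶜ, (d i * N i) :=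
      prod_le_prod (fun i _ => norm_nonneg _) (hF2 t)
    refine (mul_le_mul e1 e2 (prod_nonneg fun i _ => norm_nonneg _)
      ((prod_nonneg fun i _ => norm_nonneg _).trans e1)).trans (le_of_eq ?_)
    rw [hCst, prod_mul_distrib, prod_mul_distrib, prod_mul_distrib, ← prod_mul_prod_compl I d]
    ring
  -- integration
  have hcontF : ∀ i, Continuous (fun t => ‖DP (g i) (2 * N i) t‖) := fun i => (dp_cont _ _).norm
  have hintFF : IntegrableOn (fun t => FF N g t) B :=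
    ((ff_cont N g).continuousOn.integrableOn_compact isCompact_Icc).mono_set hBsub
  have hcontP : Continuous (fun t => ∏ i ∈ I, ‖DP (g i) (2 * N i) t‖ ^ θ) :=
    continuous_finsetProd I fun i _ => (hcontF i).rpow_const (fun t => Or.inr hθ0.le)
  have hintP : IntegrableOn (fun t => ∏ i ∈ I, ‖DP (g i) (2 * N i) t‖ ^ θ) B :=
    (hcontP.continuousOn.integrableOn_compact isCompact_Icc).mono_set hBsub
  have hstep1 : ∫ t in B, FF N g t ≤ Cst * ∫ t in B, ∏ i ∈ I, ‖DP (g i) (2 * N i) t‖ ^ θ := by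
    rw [← integral_const_mul]
    exact setIntegral_mono_on hintFF (hintP.const_mul _) hBm hpt
  have hstep2 : ∫ t in B, ∏ i ∈ I, ‖DP (g i) (2 * N i) t‖ ^ θ ≤
      ∏ i ∈ I, (∫ t in B, ‖DP (g i) (2 * N i) t‖ ^ (2 * k i)) ^ (θ / (2 * (k i : ℝ))) := by
    have h1 := Tp_holder I hBm hBsub (fun i t => ‖DP (g i) (2 * N i) t‖ ^ (2 * k i))
      (fun i _ => (hcontF i).pow _) (fun i _ t => by positivity)
      (fun i => θ / (2 * (k i : ℝ))) hpsum hppos
    refine le_trans (le_of_eq ?_) h1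
    congr 1
    ext t
    refine prod_congr rfl fun i hi => ?_
    have hki : (1 : ℝ) ≤ k i := by exact_mod_cast (hk i hi).1
    rw [← Real.rpow_natCast, ← Real.rpow_mul (norm_nonneg _)]
    congr 1
    push_cast
    field_simp
  have hstep3 : ∏ i ∈ I, (∫ t in B, ‖DP (g i) (2 * N i) t‖ ^ (2 * k i)) ^ (θ / (2 * (k i : ℝ))) ≤
      ∏ i ∈ I, ((N i : ℝ) ^ θ * L ^ ((2 * EE : ℕ) * (θ / (2 * (k i : ℝ))))) := by
    refine prod_le_prod (fun i _ => Real.rpow_nonneg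
      (setIntegral_nonneg hBm fun t _ => by positivity) _) fun i hi => ?_
    obtain ⟨k1, k2, k3, k4, k5⟩ := hk i hi
    have hki : (1 : ℝ) ≤ k i := by exact_mod_cast k1
    have hBsub' : B ⊆ Set.Icc (-((X : ℝ) ^ (2 : ℕ))) ((X : ℝ) ^ (2 : ℕ)) := by
      intro t ht
      have h1 := hBsub ht
      have h2 : (X : ℝ) ≤ (X : ℝ) ^ (2 : ℕ) := by nlinarith
      exact ⟨by linarith [h1.1], by linarith [h1.2]⟩
    have hHM := hhm X hX0 ((2 * N i) ^ k i) (⇑(g i ^ k i)) B k3 k4 hBm hBsub' hBvol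
    have hM := Tp_mom k2 hEE (hBox.bd i) (by linarith) (fun n hn => (hBox.supp i n hn).2.le) k4 hHM
    rw [← hLd] at hM
    have h1 := Real.rpow_le_rpow (setIntegral_nonneg hBm fun t _ => by positivity) hM
      (hppos i hi)
    refine h1.trans (le_of_eq ?_)
    rw [Real.mul_rpow (by positivity) (by positivity), ← Real.rpow_natCast (N i : ℝ),
      ← Real.rpow_mul (hN0 i).le, ← Real.rpow_natCast L, ← Real.rpow_mul hL0.le]
    congr 2
    push_cast
    field_simp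
  have hprodL : ∏ i ∈ I, L ^ (((2 * EE : ℕ) : ℝ) * (θ / (2 * (k i : ℝ)))) = L ^ (2 * EE) := by
    rw [← Real.rpow_sum_of_pos hL0, ← mul_sum, hpsum, mul_one, Real.rpow_natCast]
  have hprodN : (∏ i ∈ I, (N i : ℝ) ^ (1 - θ)) * (∏ i ∈ I, (N i : ℝ) ^ θ) = ∏ i ∈ I, (N i : ℝ) := by
    rw [← prod_mul_distrib]
    exact prod_congr rfl fun i _ => (hsplit _ (hN0 i).le).symm
  have htotal : ∫ t in B, FF N g t ≤ (∏ i, d i) * ((∏ i, (N i : ℝ)) * L ^ (2 * EE)) := by
    refine hstep1.trans ((mul_le_mul_of_nonneg_left (hstep2.trans hstep3) hCst0).trans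
      (le_of_eq ?_))
    rw [prod_mul_distrib, hprodL, hCst, ← prod_mul_prod_compl I (fun i => (N i : ℝ)), ← hprodN]
    ring
  refine htotal.trans ?_
  -- the product of the `d i`
  have hdi0 : d i0 ≤ 1 / L ^ K1 := by
    rw [hd]
    dsimp only
    rw [if_pos rfl]
    have e1 : (1 : ℝ) / L ^ (24 * K1) = (1 / L ^ K1) ^ 24 := by
      rw [one_div_pow, ← pow_mul, mul_comm 24 K1]
    have e2 : (0 : ℝ) < 1 / L ^ K1 := by positivity
    have e3 : (1 : ℝ) / L ^ K1 ≤ 1 := by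
      rw [div_le_one (by positivity)]
      exact one_le_pow₀ hL1
    have e4 : ((1 : ℝ) / L ^ K1) ^ 24 ≤ 1 := pow_le_one₀ e2.le e3
    rw [e1]
    calc (((1 : ℝ) / L ^ K1) ^ 24) ^ (1 - θ) ≤ (((1 : ℝ) / L ^ K1) ^ 24) ^ (((24 : ℕ) : ℝ)⁻¹) := by
          apply Real.rpow_le_rpow_of_exponent_ge (by positivity) e4
          push_cast
          linarith
      _ = 1 / L ^ K1 := Real.pow_rpow_inv_natCast e2.le (by norm_num)
  have hdprod : ∏ i, d i ≤ 1 / L ^ K1 * (2 * L) ^ 6 := by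
    rw [← mul_prod_erase univ d (mem_univ i0)]
    refine mul_le_mul hdi0 ?_ (prod_nonneg fun i _ => hd0 i) (by positivity)
    have e1 : ∏ i ∈ univ.erase i0, d i = ∏ _i ∈ univ.erase i0, (2 * L) := by
      refine prod_congr rfl fun i hi => ?_
      rw [hd]
      dsimp only
      rw [if_neg (mem_erase.1 hi).1]
    rw [e1, prod_const]
    apply pow_le_pow_right₀ (by linarith)
    refine (card_le_univ _).trans ?_
    rw [Fintype.card_fin]
    exact hBox.hr
  have hNprod : ∏ i, (N i : ℝ) ≤ 3 * X := by exact_mod_cast hBox.prod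
  have hNprod0 : 0 ≤ ∏ i, (N i : ℝ) := prod_nonneg fun i _ => (hN0 i).le
  calc (∏ i, d i) * ((∏ i, (N i : ℝ)) * L ^ (2 * EE))
      ≤ (1 / L ^ K1 * (2 * L) ^ 6) * ((3 * X) * L ^ (2 * EE)) := by
        refine mul_le_mul hdprod ?_ (by positivity) (by positivity)
        exact mul_le_mul_of_nonneg_right hNprod (by positivity)
    _ = X * (192 * L ^ (6 + 2 * EE)) / L ^ K1 := by
        rw [pow_add]
        ring
    _ ≤ X * (L * L ^ (6 + 2 * EE)) / L ^ K1 := by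
        apply div_le_div_of_nonneg_right _ (by positivity)
        apply mul_le_mul_of_nonneg_left _ hXr.le
        apply mul_le_mul_of_nonneg_right _ (by positivity)
        linarith
    _ = X / L ^ A := by
        have e1 : L ^ K1 = L ^ A * (L * L ^ (6 + 2 * EE)) := by
          rw [← pow_succ', ← pow_add, hK1]
          congr 1
          ring
        rw [e1]
        field_simp
    _ = X / Real.log X ^ A := by rw [hLd]

end Pool.Agent.H88.E58

end
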