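import Pool.Agent.H47.B1.M40

/-! The parts of this file: H88.E58.Ty, H88.PSI.HB, H88.PSI.Dy, H88.E58.Bmp, H97.EP.CA, H97.EP.CK, H97.EP.CG, H97.SD.Defs, H97.EP.CJ, H97.SD.MelB, H97.SD.InvGam, H97.SD.ThetaB, H97.SD.Cont, H97.EP.CB. -/

section

/-!
# E58 Ty: terms of type I

`F = 1` (`k = 0`) or `log` (`k = 1`); `f = hi k Y * a`; `η1 = 1/L^A1`; write `sw` as a double sum over `m k' ≤ 200 X`, `k' ≥ Y` (the terms with `m k' ≥ x e^η` vanish).
(a) `m ≤ x/Y`: all `k'` of the window `(x/m, x e^η/m)` are `≥ Y`.  `S_m = (1/η) ∑_{k'} F(k') ψ((log k' + log m - log x)/η)` is compared with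
`I_m = (1/η) ∫ F(u) ψ((log u + log m - log x)/η) du = (x/m) ∫_0^1 F((x/m) e^(ηv)) ψ(v) e^(ηv) dv`.  The integrand is Lipschitz in `u ≥ x/(2m)` with constant
`≤ C log(3X) m/(η^2 x)` and the window has length `≤ 2 η x/m`, `η x/m ≥ 1`: `|S_m - I_m| ≤ C log(3X)/η` (sum over the unit intervals meeting the window).
Total over `m`: `≤ C log(3X)/η ∑_{m ≤ x/Y} |a m| ≤ X^(3/8 + 13/24 + 1/100)`, for both `η` and `η1` (if `η1` is shorter than wanted nothing changes).
(b) `|I_m(η) - I_m(η1)| ≤ C (x/m) L η1`; total `≤ C x L η1 ∑ |a m|/m ≤ X L^(C' - A1)` (`tau_momd`).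
(c) `x/Y < m < x e^η/Y`: for `η` all is bounded by `X^(1/100) (1/η) (2ηx/Y + 1)(2ηY + 1) ≤ X^(4/5)`; for `η1`:
`∑ |a m| ≤ (2 η1 x/Y + 1)^(1/2) (∑_{m ≤ 3x/Y} |a m|^2)^(1/2) ≤ η1^(1/2) (X/Y) L^C` (Cauchy, `tau_mom`), times `(1/η1) log(3X) (2 η1 Y + 1)`.
-/

set_option autoImplicit false

namespace Pool.Agent.H88.E58

open Finset MeasureTheory
open Pool.Agent.H88.PSI

/-- Riemann sums of a Lipschitz bump -/
private theorem Ty_riemann {ψ : ℝ → ℝ} {C : ℝ} (hC : 1 ≤ C)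
    (hlip : ∀ u v, |ψ u - ψ v| ≤ C * |u - v|)
    (hsupp : ∀ v, ψ v ≠ 0 → 0 < v ∧ v < 1) (v : ℕ → ℝ) (j0 j1 : ℕ) (hj : j0 ≤ j1) (δ : ℝ)
    (hmono : ∀ j ∈ Ico j0 j1, v j ≤ v (j + 1)) (hgap : ∀ j ∈ Ico j0 j1, v (j + 1) - v j ≤ δ)
    (h0 : v j0 ≤ 0) (h1 : 1 ≤ v j1) :
    |∑ j ∈ Ico j0 j1, ψ (v j) * (v (j + 1) - v j) - ∫ t : ℝ, ψ t| ≤ C * δ * (v j1 - v j0) := by
  have hcont : Continuous ψ := by
    have : LipschitzWith C.toNNReal ψ := by
      apply LipschitzWith.of_dist_le_mul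
      intro x y
      rw [Real.dist_eq, Real.dist_eq, Real.coe_toNNReal _ (by linarith)]
      exact hlip x y
    exact this.continuous
  have hint : ∀ a b : ℝ, IntervalIntegrable ψ volume a b := fun a b => hcont.intervalIntegrable a b
  have e1 : ∫ t : ℝ, ψ t = ∫ t in (v j0)..(v j1), ψ t := by
    symm
    apply intervalIntegral.integral_eq_integral_of_support_subset
    intro t ht
    have := hsupp t ht
    exact ⟨by linarith, by linarith⟩
  have e2 : ∫ t in (v j0)..(v j1), ψ t = ∑ j ∈ Ico j0 j1, ∫ t in (v j)..(v (j + 1)), ψ t := by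
    rw [intervalIntegral.sum_integral_adjacent_intervals_Ico hj]
    intro k _
    exact hint _ _
  have e3 : v j1 - v j0 = ∑ j ∈ Ico j0 j1, (v (j + 1) - v j) := by
    rw [Finset.sum_Ico_sub _ hj]
  rw [e1, e2, e3, ← Finset.sum_sub_distrib, Finset.mul_sum]
  refine (Finset.abs_sum_le_sum_abs _ _).trans (Finset.sum_le_sum fun j hjm => ?_)
  have hm := hmono j hjm
  have hg := hgap j hjm
  have e4 : ψ (v j) * (v (j + 1) - v j) - ∫ t in (v j)..(v (j + 1)), ψ t =
      ∫ t in (v j)..(v (j + 1)), (ψ (v j) - ψ t) := by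
    rw [intervalIntegral.integral_sub (by simp) (hint _ _)]
    simp [mul_comm]
  rw [e4]
  have h5 : ‖∫ t in (v j)..(v (j + 1)), (ψ (v j) - ψ t)‖ ≤ C * δ * |v (j + 1) - v j| := by
    apply intervalIntegral.norm_integral_le_of_norm_le_const
    intro t ht
    rw [Set.uIoc_of_le hm] at ht
    rw [Real.norm_eq_abs]
    refine (hlip _ _).trans ?_
    have : |v j - t| ≤ δ := by
      rw [abs_le]
      constructor <;> linarith [ht.1, ht.2]
    exact mul_le_mul_of_nonneg_left this (by linarith)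
  rw [Real.norm_eq_abs, abs_of_nonneg (sub_nonneg.2 hm)] at h5
  exact h5

/-- `F = 1` or `F = log` -/
private noncomputable def Ty_F (k : Fin 3) (u : ℝ) : ℝ := if k = 0 then 1 else Real.log u

private theorem Ty_F_mono {k : Fin 3} {u w : ℝ} (hu : 0 < u) (h : u ≤ w) : Ty_F k u ≤ Ty_F k w := by
  unfold Ty_F
  split_ifs
  · exact le_rfl
  · exact Real.log_le_log hu h

private theorem Ty_F_nonneg {k : Fin 3} {u : ℝ} (hu : 1 ≤ u) : 0 ≤ Ty_F k u := by
  unfold Ty_F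
  split_ifs
  · exact zero_le_one
  · exact Real.log_nonneg hu

private theorem Ty_F_le {k : Fin 3} {u : ℝ} (hu : 1 ≤ u) : Ty_F k u ≤ 1 + Real.log u := by
  unfold Ty_F
  split_ifs
  · linarith [Real.log_nonneg hu]
  · linarith

private theorem Ty_F_add {k : Fin 3} {b u η : ℝ} (hη : 0 ≤ η)
    (h : Real.log u ≤ Real.log b + η) : Ty_F k u ≤ Ty_F k b + η := by
  unfold Ty_F
  split_ifs
  · linarith
  · exact h

private theorem Ty_exp_le {η : ℝ} (h0 : 0 ≤ η) (h1 : η ≤ 1) : Real.exp η ≤ 1 + 2 * η := by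
  have h2 := Real.abs_exp_sub_one_le (x := η) (by rw [abs_of_nonneg h0]; exact h1)
  rw [abs_of_nonneg h0, abs_le] at h2
  linarith [h2.2]

/-- bounds for `log (j + 1) - log j` -/
private theorem Ty_log_succ {j : ℝ} (hj : 0 < j) :
    1 / (j + 1) ≤ Real.log (j + 1) - Real.log j ∧ Real.log (j + 1) - Real.log j ≤ 1 / j := by
  have hj1 : 0 < j + 1 := by linarith
  constructor
  · have h := Real.log_le_sub_one_of_pos (x := j / (j + 1)) (by positivity)
    rw [Real.log_div hj.ne' hj1.ne'] at h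
    have e : j / (j + 1) - 1 = -(1 / (j + 1)) := by
      field_simp
      ring
    linarith only [h, e]
  · have h := Real.log_le_sub_one_of_pos (x := (j + 1) / j) (by positivity)
    rw [Real.log_div hj1.ne' hj.ne'] at h
    have e : (j + 1) / j - 1 = 1 / j := by
      field_simp
      ring
    linarith

/-- the sum over all integers -/
private theorem Ty_full {ψ : ℝ → ℝ} {C : ℝ} (hC : 1 ≤ C)
    (hlip : ∀ u v, |ψ u - ψ v| ≤ C * |u - v|) (hnn : ∀ v, 0 ≤ ψ v) (hle : ∀ v, ψ v ≤ 1)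
    (hsupp : ∀ v, ψ v ≠ 0 → 0 < v ∧ v < 1) (k : Fin 3) {b η : ℝ} (hb : 1 ≤ b) (hη0 : 0 < η)
    (hη1 : η ≤ 1) (hbη : 2 ≤ b * η) {N : ℕ} (hN : b * Real.exp η ≤ N) :
    |∑ j ∈ Icc 1 N, Ty_F k j * (ψ ((Real.log j - Real.log b) / η) / η) -
      (∫ t : ℝ, ψ t) * (b * Ty_F k b)| ≤ (18 + 6 * C) * (1 + Real.log b) * (η * b + 1 / η) := by
  have hb0 : 0 < b := by linarith
  have hlb : 0 ≤ Real.log b := Real.log_nonneg hb
  set v : ℕ → ℝ := fun j => (Real.log j - Real.log b) / η with hv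
  set j0 : ℕ := ⌊b⌋₊ with hj0
  set j1 : ℕ := ⌈b * Real.exp η⌉₊ with hj1
  have hj0pos : 1 ≤ j0 := by
    rw [hj0, Nat.one_le_floor_iff]
    exact hb
  have hj0r : (1 : ℝ) ≤ j0 := by exact_mod_cast hj0pos
  have hj0le : (j0 : ℝ) ≤ b := Nat.floor_le hb0.le
  have hj0lt : b < (j0 : ℝ) + 1 := Nat.lt_floor_add_one b
  have hj0half : b / 2 ≤ j0 := by linarith only [hj0r, hj0lt]
  have hexp1 : 1 ≤ Real.exp η := Real.one_le_exp hη0.le
  have hbe : b ≤ b * Real.exp η := by nlinarith only [hexp1, hb]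
  have hj1le : b * Real.exp η ≤ j1 := Nat.le_ceil _
  have hj1lt : (j1 : ℝ) < b * Real.exp η + 1 := Nat.ceil_lt_add_one (by positivity)
  have hj01 : j0 ≤ j1 := by
    have : (j0 : ℝ) ≤ j1 := by linarith only [hj0le, hbe, hj1le]
    exact_mod_cast this
  have hbe0 : 0 < b * Real.exp η := by positivity
  have hlogbe : Real.log (b * Real.exp η) = Real.log b + η := by
    rw [Real.log_mul hb0.ne' (Real.exp_pos _).ne', Real.log_exp]
  set δ : ℝ := 2 / (b * η) with hδ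
  have hbη0 : 0 < b * η := by positivity
  have hδ0 : 0 < δ := by positivity
  have hδ1 : δ ≤ 1 := by
    rw [hδ, div_le_one hbη0]
    exact hbη
  have hgapv : ∀ j : ℕ, v (j + 1) - v j = (Real.log ((j : ℝ) + 1) - Real.log j) / η := by
    intro j
    simp only [hv]
    push_cast
    ring
  have hjpos : ∀ j ∈ Ico j0 j1, (0 : ℝ) < j ∧ b / 2 ≤ j := by
    intro j hj
    have h1 : (j0 : ℝ) ≤ j := by exact_mod_cast (mem_Ico.1 hj).1
    exact ⟨by linarith only [hj0r, h1], by linarith only [hj0r, hj0lt, h1]⟩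
  have hsm : ∀ j : ℝ, 0 < j → b / 2 ≤ j → (1 / j) / η ≤ δ := by
    intro j hj hj2
    rw [hδ, div_div, div_le_div_iff₀ (by positivity) hbη0]
    nlinarith only [hη0, hj2]
  have hmono : ∀ j ∈ Ico j0 j1, v j ≤ v (j + 1) := by
    intro j hj
    have h1 := hgapv j
    have h2 := (Ty_log_succ (hjpos j hj).1).1
    have h3 : 0 ≤ (Real.log ((j : ℝ) + 1) - Real.log j) / η := by
      apply div_nonneg _ hη0.le
      have : 0 < 1 / ((j : ℝ) + 1) := by
        have := (hjpos j hj).1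
        positivity
      linarith only [h2, this]
    linarith only [h1, h3]
  have hgap : ∀ j ∈ Ico j0 j1, v (j + 1) - v j ≤ δ := by
    intro j hj
    rw [hgapv j]
    obtain ⟨hp, hq⟩ := hjpos j hj
    exact (div_le_div_of_nonneg_right (Ty_log_succ hp).2 hη0.le).trans (hsm j hp hq)
  have h0 : v j0 ≤ 0 := by
    simp only [hv]
    apply div_nonpos_of_nonpos_of_nonneg _ hη0.le
    have := Real.log_le_log (by linarith only [hj0r]) hj0le
    linarith only [this]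
  have h0' : -δ ≤ v j0 := by
    simp only [hv]
    have h1 : Real.log b ≤ Real.log ((j0 : ℝ) + 1) := Real.log_le_log hb0 hj0lt.le
    have h2 := (Ty_log_succ (j := (j0 : ℝ)) (by linarith only [hj0r])).2
    have h3 := hsm j0 (by linarith only [hj0r]) hj0half
    have h4 : -((1 / (j0 : ℝ)) / η) ≤ (Real.log j0 - Real.log b) / η := by
      rw [← neg_div]
      exact div_le_div_of_nonneg_right (by linarith only [h1, h2]) hη0.le
    linarith only [h3, h4]
  have h1 : 1 ≤ v j1 := by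
    simp only [hv]
    rw [le_div_iff₀ hη0]
    have := Real.log_le_log hbe0 hj1le
    rw [hlogbe] at this
    linarith only [this]
  have h1' : v j1 ≤ 1 + δ := by
    simp only [hv]
    have hj1pos : (0 : ℝ) < j1 := by linarith only [hb, hbe, hj1le]
    have g1 : Real.log j1 ≤ Real.log (b * Real.exp η + 1) := Real.log_le_log hj1pos hj1lt.le
    have g2 := (Ty_log_succ hbe0).2
    rw [hlogbe] at g2
    have g3 : 1 / (b * Real.exp η) ≤ 1 / b := one_div_le_one_div_of_le hb0 hbe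
    have g4 := hsm b hb0 (by linarith only [hb])
    have g5 : (Real.log j1 - Real.log b) / η ≤ (η + 1 / b) / η :=
      div_le_div_of_nonneg_right (by linarith only [g1, g2, g3]) hη0.le
    have g6 : (η + 1 / b) / η = 1 + (1 / b) / η := by
      rw [add_div, div_self hη0.ne']
    linarith only [g4, g5, g6]
  have hlen : v j1 - v j0 ≤ 3 := by linarith only [hδ1, h0', h1']
  have hlen0 : 0 ≤ v j1 - v j0 := by linarith only [h0, h1]
  have hR := Ty_riemann hC hlip hsupp v j0 j1 hj01 δ hmono hgap h0 h1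
  set R : ℝ := ∑ j ∈ Ico j0 j1, ψ (v j) * (v (j + 1) - v j) with hRdef
  -- the support
  have hsup : ∀ j : ℕ, 1 ≤ j → ψ (v j) ≠ 0 → b < j ∧ (j : ℝ) < b * Real.exp η := by
    intro j hj hne
    obtain ⟨p, q⟩ := hsupp _ hne
    have hjr : (0 : ℝ) < j := by exact_mod_cast hj
    simp only [hv] at p q
    rw [lt_div_iff₀ hη0, zero_mul] at p
    rw [div_lt_iff₀ hη0, one_mul] at q
    constructor
    · exact (Real.log_lt_log_iff hb0 hjr).1 (by linarith only [p])
    · rw [← Real.log_lt_log_iff hjr hbe0, hlogbe]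
      linarith only [q]
  have hsum : ∑ j ∈ Icc 1 N, Ty_F k j * (ψ ((Real.log j - Real.log b) / η) / η) =
      ∑ j ∈ Ico j0 j1, Ty_F k j * (ψ (v j) / η) := by
    have a1 : ∑ j ∈ Icc 1 N ∩ Ico j0 j1, Ty_F k j * (ψ (v j) / η) =
        ∑ j ∈ Icc 1 N, Ty_F k j * (ψ (v j) / η) := by
      apply Finset.sum_subset Finset.inter_subset_left
      intro j hj hj'
      by_contra hne
      have hψ : ψ (v j) ≠ 0 := by
        intro h
        apply hne
        rw [h, zero_div, mul_zero]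
      have hj1' := (mem_Icc.1 hj).1
      obtain ⟨p, q⟩ := hsup j hj1' hψ
      apply hj'
      rw [mem_inter, mem_Ico]
      refine ⟨hj, ?_, ?_⟩
      · have : (j0 : ℝ) ≤ j := by linarith only [hj0le, p]
        exact_mod_cast this
      · have : (j : ℝ) < j1 := by linarith only [hj1le, q]
        exact_mod_cast this
    have a2 : ∑ j ∈ Icc 1 N ∩ Ico j0 j1, Ty_F k j * (ψ (v j) / η) =
        ∑ j ∈ Ico j0 j1, Ty_F k j * (ψ (v j) / η) := by
      apply Finset.sum_subset Finset.inter_subset_right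
      intro j hj hj'
      by_contra hne
      have hψ : ψ (v j) ≠ 0 := by
        intro h
        apply hne
        rw [h, zero_div, mul_zero]
      have hj1' : 1 ≤ j := hj0pos.trans (mem_Ico.1 hj).1
      obtain ⟨p, q⟩ := hsup j hj1' hψ
      apply hj'
      rw [mem_inter, mem_Icc]
      refine ⟨⟨hj1', ?_⟩, hj⟩
      have : (j : ℝ) ≤ N := by linarith only [hN, q]
      exact_mod_cast this
    rw [← a2, a1]
  have hFb : Ty_F k b ≤ 1 + Real.log b := Ty_F_le hb
  have hFb0 : 0 ≤ Ty_F k b := Ty_F_nonneg hb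
  set E : ℝ := 6 * (η * b + 1) * (1 + Real.log b) with hE
  have hE0 : 0 ≤ E := by positivity
  -- comparison with the main term
  have hcomp : |∑ j ∈ Ico j0 j1, Ty_F k j * (ψ (v j) / η) - b * Ty_F k b * R| ≤
      E * (v j1 - v j0) := by
    rw [hRdef, Finset.mul_sum, ← Finset.sum_sub_distrib, ← Finset.sum_Ico_sub _ hj01,
      Finset.mul_sum]
    refine (Finset.abs_sum_le_sum_abs _ _).trans (Finset.sum_le_sum fun j hj => ?_)
    obtain ⟨hp, hq⟩ := hjpos j hj
    have hm : 0 ≤ v (j + 1) - v j := sub_nonneg.2 (hmono j hj)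
    by_cases hψ : ψ (v j) = 0
    · rw [hψ]
      simp only [zero_div, mul_zero, zero_mul, sub_zero, abs_zero]
      exact mul_nonneg hE0 hm
    · have hj1' : 1 ≤ j := hj0pos.trans (mem_Ico.1 hj).1
      obtain ⟨p, q⟩ := hsup j hj1' hψ
      obtain ⟨l1, l2⟩ := Ty_log_succ hp
      set ℓ : ℝ := Real.log ((j : ℝ) + 1) - Real.log j with hℓ
      have hℓ0 : 0 < ℓ := lt_of_lt_of_le (by positivity) l1
      have e1 : Ty_F k j * (ψ (v j) / η) - b * Ty_F k b * (ψ (v j) * (v (j + 1) - v j)) =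
          (Ty_F k j / ℓ - b * Ty_F k b) * (ψ (v j) * (v (j + 1) - v j)) := by
        rw [hgapv j, ← hℓ]
        field_simp
      rw [e1, abs_mul, abs_of_nonneg (mul_nonneg (hnn _) hm)]
      have hj1r : (1 : ℝ) ≤ j := by exact_mod_cast hj1'
      have hFj0 : 0 ≤ Ty_F k j := Ty_F_nonneg hj1r
      have g1 : b * Ty_F k b ≤ Ty_F k j / ℓ := by
        rw [le_div_iff₀ hℓ0]
        have i1 : Ty_F k b ≤ Ty_F k j := Ty_F_mono hb0 p.le
        have i2 : b * ℓ ≤ 1 := by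
          calc b * ℓ ≤ j * (1 / j) := mul_le_mul p.le l2 hℓ0.le hp.le
            _ = 1 := by field_simp
        calc b * Ty_F k b * ℓ = (b * ℓ) * Ty_F k b := by ring
          _ ≤ 1 * Ty_F k b := mul_le_mul_of_nonneg_right i2 hFb0
          _ ≤ Ty_F k j := by linarith only [i1]
      have g2 : Ty_F k j / ℓ ≤ (j + 1) * Ty_F k j := by
        rw [div_le_iff₀ hℓ0]
        have i1 : 1 ≤ ((j : ℝ) + 1) * ℓ := by
          have := mul_le_mul_of_nonneg_left l1 (show (0 : ℝ) ≤ (j : ℝ) + 1 by linarith only [hb, p])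
          rwa [mul_one_div_cancel (by linarith only [hb, p])] at this
        nlinarith only [hFj0, i1]
      have g3 : Ty_F k j ≤ Ty_F k b + η := by
        apply Ty_F_add hη0.le
        rw [← hlogbe]
        exact Real.log_le_log hp q.le
      have g4 : (j : ℝ) ≤ b * (1 + 2 * η) :=
        q.le.trans (mul_le_mul_of_nonneg_left (Ty_exp_le hη0.le hη1) hb0.le)
      have g5 : ((j : ℝ) + 1) * Ty_F k j ≤ (b * (1 + 2 * η) + 1) * (Ty_F k b + η) :=
        mul_le_mul (by linarith only [g4]) g3 hFj0 (by positivity)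
      have g6 : (b * (1 + 2 * η) + 1) * (Ty_F k b + η) - b * Ty_F k b ≤ E := by
        have i1 : (b * (1 + 2 * η) + 1) * (Ty_F k b + η) - b * Ty_F k b =
            (2 * (η * b) + 1) * Ty_F k b + η * (b + 2 * (η * b) + 1) := by ring
        have i2 : (2 * (η * b) + 1) * Ty_F k b ≤ (2 * (η * b) + 1) * (1 + Real.log b) :=
          mul_le_mul_of_nonneg_left hFb (by positivity)
        have i3 : η * (b + 2 * (η * b) + 1) ≤ η * (4 * b) := by
          apply mul_le_mul_of_nonneg_left _ hη0.le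
          nlinarith only [hη1, hbη, hb]
        have i4 : η * (4 * b) ≤ 4 * (η * b) * (1 + Real.log b) := by
          have : 0 ≤ (η * b) * Real.log b := by positivity
          nlinarith only [this]
        rw [i1, hE]
        nlinarith only [hlb, i2, i3, i4, mul_nonneg (show (0 : ℝ) ≤ η * b by positivity) hlb]
      have g7 : |Ty_F k j / ℓ - b * Ty_F k b| ≤ E := by
        rw [abs_of_nonneg (by linarith only [g1])]
        linarith only [g2, g5, g6]
      calc |Ty_F k j / ℓ - b * Ty_F k b| * (ψ (v j) * (v (j + 1) - v j))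
          ≤ E * (1 * (v (j + 1) - v j)) :=
            mul_le_mul g7 (mul_le_mul_of_nonneg_right (hle _) hm)
              (mul_nonneg (hnn _) hm) hE0
        _ = E * (v (j + 1) - v j) := by ring
  have hlast : |b * Ty_F k b * R - (∫ t : ℝ, ψ t) * (b * Ty_F k b)| ≤
      b * (1 + Real.log b) * (C * δ * 3) := by
    have e1 : b * Ty_F k b * R - (∫ t : ℝ, ψ t) * (b * Ty_F k b) =
        b * Ty_F k b * (R - ∫ t : ℝ, ψ t) := by ring
    rw [e1, abs_mul, abs_of_nonneg (mul_nonneg hb0.le hFb0)]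
    have hCδ : 0 ≤ C * δ := mul_nonneg (by linarith) hδ0.le
    exact mul_le_mul (mul_le_mul_of_nonneg_left hFb hb0.le)
      (hR.trans (mul_le_mul_of_nonneg_left hlen hCδ)) (abs_nonneg _) (by positivity)
  rw [hsum]
  have htri := abs_sub_le (∑ j ∈ Ico j0 j1, Ty_F k j * (ψ (v j) / η)) (b * Ty_F k b * R)
    ((∫ t : ℝ, ψ t) * (b * Ty_F k b))
  have hfin1 : E * (v j1 - v j0) ≤ E * 3 := mul_le_mul_of_nonneg_left hlen hE0
  have hfin2 : b * (1 + Real.log b) * (C * δ * 3) = (1 + Real.log b) * (6 * C * (1 / η)) := by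
    rw [hδ]
    field_simp
    ring
  have hη' : 1 ≤ 1 / η := by
    rw [le_div_iff₀ hη0]
    linarith only [hη1]
  have hfin3 : E * 3 + (1 + Real.log b) * (6 * C * (1 / η)) ≤
      (18 + 6 * C) * (1 + Real.log b) * (η * b + 1 / η) := by
    have e1 : E * 3 + (1 + Real.log b) * (6 * C * (1 / η)) =
        (1 + Real.log b) * (18 * (η * b) + 18 + 6 * C * (1 / η)) := by
      rw [hE]
      ring
    have e2 : (18 + 6 * C) * (1 + Real.log b) * (η * b + 1 / η) =
        (1 + Real.log b) * ((18 + 6 * C) * (η * b + 1 / η)) := by ring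
    rw [e1, e2]
    apply mul_le_mul_of_nonneg_left _ (by linarith only [hlb])
    have : 0 ≤ C * (η * b) := by positivity
    nlinarith only [hη', this]
  linarith only [hcomp, hlast, htri, hfin1, hfin2, hfin3]

/-- sums of a convolution -/
private theorem Ty_conv (f g : ArithmeticFunction ℝ) (w : ℕ → ℝ) (N : ℕ)
    (hw : ∀ n, N < n → w n = 0) :
    ∑ n ∈ Icc 1 N, (f * g) n * w n =
      ∑ m ∈ Icc 1 N, g m * ∑ p ∈ Icc 1 N, f p * w (p * m) := by
  classical
  set T : ℕ × ℕ → ℝ := fun x => f x.1 * g x.2 * w (x.1 * x.2) with hT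
  have h1 : ∑ m ∈ Icc 1 N, g m * ∑ p ∈ Icc 1 N, f p * w (p * m) =
      ∑ x ∈ Icc 1 N ×ˢ Icc 1 N, T x := by
    rw [sum_product_right]
    refine sum_congr rfl fun m _ => ?_
    rw [mul_sum]
    refine sum_congr rfl fun p _ => ?_
    simp only [hT]
    ring
  have h2 : ∑ x ∈ Icc 1 N ×ˢ Icc 1 N, T x =
      ∑ x ∈ (Icc 1 N ×ˢ Icc 1 N).filter (fun x => x.1 * x.2 ∈ Icc 1 N), T x := by
    rw [sum_filter_of_ne]
    intro x hx hne
    rw [mem_product, mem_Icc, mem_Icc] at hx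
    rw [mem_Icc]
    refine ⟨Nat.mul_pos hx.1.1 hx.2.1, ?_⟩
    by_contra hlt
    apply hne
    simp only [hT]
    rw [hw _ (by omega), mul_zero]
  rw [h1, h2, ← sum_fiberwise_of_maps_to (t := Icc 1 N) (g := fun x : ℕ × ℕ => x.1 * x.2)
    (fun x hx => (mem_filter.1 hx).2)]
  refine sum_congr rfl fun n hn => ?_
  have hn' := mem_Icc.1 hn
  have e1 : ((Icc 1 N ×ˢ Icc 1 N).filter (fun x : ℕ × ℕ => x.1 * x.2 ∈ Icc 1 N)).filter
      (fun x => x.1 * x.2 = n) = n.divisorsAntidiagonal := by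
    ext x
    rw [mem_filter, mem_filter, mem_product, mem_Icc, mem_Icc, Nat.mem_divisorsAntidiagonal]
    constructor
    · rintro ⟨_, h⟩
      exact ⟨h, by omega⟩
    · rintro ⟨h, _⟩
      have hp1 : 1 ≤ x.1 := Nat.one_le_iff_ne_zero.2 (by rintro h0; rw [h0, zero_mul] at h; omega)
      have hp2 : 1 ≤ x.2 := Nat.one_le_iff_ne_zero.2 (by rintro h0; rw [h0, mul_zero] at h; omega)
      have h3 : x.1 ≤ n := h ▸ Nat.le_mul_of_pos_right _ hp2
      have h4 : x.2 ≤ n := h ▸ Nat.le_mul_of_pos_left _ hp1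
      exact ⟨⟨⟨⟨hp1, by omega⟩, ⟨hp2, by omega⟩⟩, h ▸ hn⟩, h⟩
  rw [e1, ArithmeticFunction.mul_apply, sum_mul]
  refine sum_congr rfl fun x hx => ?_
  simp only [hT]
  rw [(Nat.mem_divisorsAntidiagonal.1 hx).1]

/-- the weight -/
private noncomputable def Ty_w (ψ : ℝ → ℝ) (x η : ℝ) (n : ℕ) : ℝ := ψ ((Real.log n - Real.log x) / η) / η

private theorem Ty_w_supp {ψ : ℝ → ℝ} (hsupp : ∀ v, ψ v ≠ 0 → 0 < v ∧ v < 1) {x η : ℝ} (hx : 0 < x)
    (hη : 0 < η) {n : ℕ} (hn : 1 ≤ n) (h : Ty_w ψ x η n ≠ 0) : x < n ∧ (n : ℝ) < x * Real.exp η := by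
  unfold Ty_w at h
  have hψ : ψ ((Real.log n - Real.log x) / η) ≠ 0 := by
    intro h0
    apply h
    rw [h0, zero_div]
  obtain ⟨p, q⟩ := hsupp _ hψ
  have hnr : (0 : ℝ) < n := by exact_mod_cast hn
  rw [lt_div_iff₀ hη, zero_mul] at p
  rw [div_lt_iff₀ hη, one_mul] at q
  constructor
  · exact (Real.log_lt_log_iff hx hnr).1 (by linarith only [p])
  · rw [← Real.log_lt_log_iff hnr (by positivity), Real.log_mul hx.ne' (Real.exp_pos _).ne',
      Real.log_exp]
    linarith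

private theorem Ty_hi {k : Fin 3} (hk : k ≠ 2) (Y p : ℕ) (hp : 1 ≤ p) :
    hi k Y p = if Y ≤ p then Ty_F k p else 0 := by
  show (if p ≠ 0 ∧ Y ≤ p then kf k p else 0) = _
  have hp0 : p ≠ 0 := by omega
  simp only [hp0, ne_eq, not_false_eq_true, true_and]
  split_ifs
  · unfold kf Ty_F
    fin_cases k
    · simp
    · simp
    · exact absurd rfl hk
  · rfl

/-- the sum over the smooth variable -/
private noncomputable def Ty_S (ψ : ℝ → ℝ) (k : Fin 3) (Y N : ℕ) (x η : ℝ) (m : ℕ) : ℝ :=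
  ∑ p ∈ Icc 1 N, hi k Y p * Ty_w ψ x η (p * m)

private theorem Ty_S_zero {ψ : ℝ → ℝ} (hsupp : ∀ v, ψ v ≠ 0 → 0 < v ∧ v < 1) {k : Fin 3} (hk : k ≠ 2)
    {Y N : ℕ} (hY : 1 ≤ Y) {x η : ℝ} (hx : 0 < x) (hη : 0 < η) {m : ℕ} (hm : 1 ≤ m)
    (h : x * Real.exp η / Y < m) : Ty_S ψ k Y N x η m = 0 := by
  unfold Ty_S
  refine sum_eq_zero fun p hp => ?_
  have hp1 := (mem_Icc.1 hp).1
  rw [Ty_hi hk Y p hp1]
  split_ifs with hYp
  · have hw : Ty_w ψ x η (p * m) = 0 := by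
      by_contra hne
      have h1 := (Ty_w_supp hsupp hx hη (Nat.mul_pos hp1 hm) hne).2
      push_cast at h1
      have hYr : (0 : ℝ) < Y := by exact_mod_cast hY
      rw [div_lt_iff₀ hYr] at h
      have hYp' : (Y : ℝ) ≤ p := by exact_mod_cast hYp
      have hmr : (0 : ℝ) < m := by exact_mod_cast hm
      nlinarith only [h, h1, hYp']
    rw [hw, mul_zero]
  · rw [zero_mul]

private theorem Ty_S_small {ψ : ℝ → ℝ} {C : ℝ} (hC : 1 ≤ C)
    (hlip : ∀ u v, |ψ u - ψ v| ≤ C * |u - v|) (hnn : ∀ v, 0 ≤ ψ v) (hle : ∀ v, ψ v ≤ 1)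
    (hsupp : ∀ v, ψ v ≠ 0 → 0 < v ∧ v < 1) {k : Fin 3} (hk : k ≠ 2) {Y N : ℕ} (hY : 1 ≤ Y)
    {x η : ℝ} (hx : 0 < x) (hη0 : 0 < η) (hη1 : η ≤ 1) (hYη : 2 ≤ Y * η) {m : ℕ} (hm : 1 ≤ m)
    (hmY : (m : ℝ) * Y ≤ x) (hN : x * Real.exp η ≤ N) :
    |Ty_S ψ k Y N x η m - (∫ t : ℝ, ψ t) * ((x / m) * Ty_F k (x / m))| ≤
      (18 + 6 * C) * (1 + Real.log (x / m)) * (η * (x / m) + 1 / η) := by
  have hmr : (1 : ℝ) ≤ m := by exact_mod_cast hm
  have hm0 : (0 : ℝ) < m := by linarith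
  have hYr : (1 : ℝ) ≤ Y := by exact_mod_cast hY
  have hb : (Y : ℝ) ≤ x / m := by
    rw [le_div_iff₀ hm0]
    linarith
  have hbη : 2 ≤ x / m * η := hYη.trans (mul_le_mul_of_nonneg_right hb hη0.le)
  have hN' : x / m * Real.exp η ≤ N := by
    refine le_trans (mul_le_mul_of_nonneg_right (div_le_self hx.le hmr) (Real.exp_pos _).le) hN
  have h := Ty_full hC hlip hnn hle hsupp k (hYr.trans hb) hη0 hη1 hbη hN'
  have e : Ty_S ψ k Y N x η m =
      ∑ j ∈ Icc 1 N, Ty_F k j * (ψ ((Real.log j - Real.log (x / m)) / η) / η) := by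
    unfold Ty_S
    refine sum_congr rfl fun p hp => ?_
    have hp1 := (mem_Icc.1 hp).1
    have hpr : (0 : ℝ) < p := by exact_mod_cast hp1
    have earg : (Real.log p - Real.log (x / m)) / η =
        (Real.log ((p * m : ℕ) : ℝ) - Real.log x) / η := by
      push_cast
      rw [Real.log_mul hpr.ne' hm0.ne', Real.log_div hx.ne' hm0.ne']
      ring
    rw [Ty_hi hk Y p hp1, earg]
    split_ifs with hYp
    · rfl
    · have hw : Ty_w ψ x η (p * m) = 0 := by
        by_contra hne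
        have h1 := (Ty_w_supp hsupp hx hη0 (Nat.mul_pos hp1 hm) hne).1
        push_cast at h1
        have hYp' : (p : ℝ) ≤ Y := by exact_mod_cast (not_le.1 hYp).le
        nlinarith only [hmY, h1, hYp']
      have hw' : ψ ((Real.log ((p * m : ℕ) : ℝ) - Real.log x) / η) / η = 0 := hw
      rw [hw', mul_zero, zero_mul]
  rw [e]
  exact h

private theorem Ty_S_mid {ψ : ℝ → ℝ} (hnn : ∀ v, 0 ≤ ψ v) (hle : ∀ v, ψ v ≤ 1)
    (hsupp : ∀ v, ψ v ≠ 0 → 0 < v ∧ v < 1) {k : Fin 3} (hk : k ≠ 2) {Y N : ℕ} (hY : 1 ≤ Y)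
    {x η : ℝ} (hx : 0 < x) (hη0 : 0 < η) (hη1 : η ≤ 1) {m : ℕ} (hm : 1 ≤ m)
    (hmY : x < (m : ℝ) * Y) :
    |Ty_S ψ k Y N x η m| ≤ (2 * η * Y + 1) * ((1 + Real.log N) / η) := by
  set Z : ℕ := ⌈(Y : ℝ) * Real.exp η⌉₊ with hZ
  have hYr : (1 : ℝ) ≤ Y := by exact_mod_cast hY
  have hm0 : (0 : ℝ) < m := by exact_mod_cast hm
  rcases Nat.eq_zero_or_pos N with hN0 | hN0
  · subst hN0
    unfold Ty_S
    simp only [Nat.lt_one_iff, Finset.Icc_eq_empty_of_lt, Nat.zero_lt_one, sum_empty, abs_zero,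
      Nat.cast_zero, Real.log_zero]
    positivity
  have hNr : (1 : ℝ) ≤ N := by exact_mod_cast hN0
  have hlN : 0 ≤ Real.log N := Real.log_nonneg hNr
  have hB : 0 ≤ (1 + Real.log N) / η := by positivity
  have h1 : |Ty_S ψ k Y N x η m| ≤
      ∑ p ∈ Icc 1 N, if p ∈ Ico Y Z then (1 + Real.log N) / η else 0 := by
    unfold Ty_S
    refine (abs_sum_le_sum_abs _ _).trans (sum_le_sum fun p hp => ?_)
    have hp1 := (mem_Icc.1 hp).1
    have hpN := (mem_Icc.1 hp).2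
    have hpr : (1 : ℝ) ≤ p := by exact_mod_cast hp1
    rw [Ty_hi hk Y p hp1]
    by_cases hYp : Y ≤ p
    · rw [if_pos hYp]
      by_cases hw : Ty_w ψ x η (p * m) = 0
      · rw [hw, mul_zero, abs_zero]
        split_ifs
        · exact hB
        · exact le_rfl
      · have h2 := (Ty_w_supp hsupp hx hη0 (Nat.mul_pos hp1 hm) hw).2
        push_cast at h2
        have h3 : (p : ℝ) < Y * Real.exp η := by
          have : (p : ℝ) * m < (Y * Real.exp η) * m := by
            refine h2.trans ?_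
            have := mul_lt_mul_of_pos_right hmY (Real.exp_pos η)
            linarith only [this]
          exact lt_of_mul_lt_mul_right this hm0.le
        have h4 : p < Z := by
          have : (p : ℝ) < Z := h3.trans_le (Nat.le_ceil _)
          exact_mod_cast this
        rw [if_pos (mem_Ico.2 ⟨hYp, h4⟩), abs_mul]
        have h5 : |Ty_F k p| ≤ 1 + Real.log N := by
          rw [abs_of_nonneg (Ty_F_nonneg hpr)]
          refine (Ty_F_le hpr).trans ?_
          have : Real.log p ≤ Real.log N := Real.log_le_log (by linarith only [hpr]) (by exact_mod_cast hpN)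
          linarith only [this]
        have h6 : |Ty_w ψ x η (p * m)| ≤ 1 / η := by
          unfold Ty_w
          rw [abs_of_nonneg (div_nonneg (hnn _) hη0.le)]
          exact div_le_div_of_nonneg_right (hle _) hη0.le
        calc |Ty_F k p| * |Ty_w ψ x η (p * m)| ≤ (1 + Real.log N) * (1 / η) :=
              mul_le_mul h5 h6 (abs_nonneg _) (by linarith)
          _ = (1 + Real.log N) / η := by ring
    · rw [if_neg hYp, zero_mul, abs_zero]
      split_ifs
      · exact hB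
      · exact le_rfl
  refine h1.trans ?_
  rw [← sum_filter, sum_const, nsmul_eq_mul]
  apply mul_le_mul_of_nonneg_right _ hB
  have h7 : ((Icc 1 N).filter (fun p => p ∈ Ico Y Z)).card ≤ Z - Y := by
    rw [← Nat.card_Ico]
    exact card_le_card fun p hp => (mem_filter.1 hp).2
  have h8 : (Z : ℝ) < Y * Real.exp η + 1 := Nat.ceil_lt_add_one (by positivity)
  have h9 : Y * Real.exp η ≤ Y * (1 + 2 * η) :=
    mul_le_mul_of_nonneg_left (Ty_exp_le hη0.le hη1) (by linarith only [hYr])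
  have hYZ : Y ≤ Z := by
    have : (Y : ℝ) ≤ Z := by
      have := Nat.le_ceil ((Y : ℝ) * Real.exp η)
      have h10 : (Y : ℝ) ≤ Y * Real.exp η := by
        have := Real.one_le_exp hη0.le
        nlinarith only [this]
      linarith only [this, h10]
    exact_mod_cast this
  have h11 : (((Icc 1 N).filter (fun p => p ∈ Ico Y Z)).card : ℝ) ≤ (Z : ℝ) - Y := by
    rw [← Nat.cast_sub hYZ]
    exact_mod_cast h7
  linarith only [h8, h9, h11]

/-- the arithmetic of the middle range -/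
private theorem Ty_arith {P L Q η s t : ℝ} (hL : 0 ≤ L) (hLP : L ≤ P) (hQ0 : 0 < Q) (hη0 : 0 ≤ η)
    (ht0 : 0 ≤ t) (hQt : 1 / Q ≤ t ^ 2) (hs : s ^ 2 = η) (hs0 : 0 ≤ s) :
    (2 * η * Q + 1) * (400 * L ^ 2 * (3 * Q * P ^ 1024)) ≤ (70 * P ^ 513 * Q * (s + t)) ^ 2 := by
  have hP : 0 ≤ P := hL.trans hLP
  have e1 : 2 * η * Q + 1 = Q * (2 * η + 1 / Q) := by
    field_simp
  have e2 : 2 * η + 1 / Q ≤ 4 * (s + t) ^ 2 := by
    nlinarith only [hQt, hs, hs0, ht0, mul_nonneg hs0 ht0, sq_nonneg t]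
  have e3 : L ^ 2 ≤ P ^ 2 := pow_le_pow_left₀ hL hLP 2
  have hP1 : 0 ≤ P ^ 1024 := pow_nonneg hP _
  have e4 : 400 * L ^ 2 * (3 * Q * P ^ 1024) ≤ 400 * P ^ 2 * (3 * Q * P ^ 1024) := by
    apply mul_le_mul_of_nonneg_right _ (by positivity)
    linarith only [e3]
  calc (2 * η * Q + 1) * (400 * L ^ 2 * (3 * Q * P ^ 1024))
      ≤ (Q * (4 * (s + t) ^ 2)) * (400 * P ^ 2 * (3 * Q * P ^ 1024)) := by
        rw [e1]
        exact mul_le_mul (mul_le_mul_of_nonneg_left e2 hQ0.le) e4 (by positivity) (by positivity)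
    _ = 4800 * (P ^ 1026 * Q ^ 2 * (s + t) ^ 2) := by ring
    _ ≤ 4900 * (P ^ 1026 * Q ^ 2 * (s + t) ^ 2) :=
        mul_le_mul_of_nonneg_right (by norm_num)
          (mul_nonneg (mul_nonneg (pow_nonneg hP 1026) (sq_nonneg Q)) (sq_nonneg _))
    _ = (70 * P ^ 513 * Q * (s + t)) ^ 2 := by ring

/-- the sum over the middle range -/
private theorem Ty_cauchy {X : ℕ} {a : ArithmeticFunction ℝ} (ha : ∀ m, |a m| ≤ 20 * Real.log X * tau m ^ 5)
    (hX : 1 ≤ X) {P : ℝ} (hP : P = 1 + Real.log X) {Q E η s t : ℝ} (hη0 : 0 ≤ η) (hη1 : η ≤ 1)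
    (hs : s ^ 2 = η) (hs0 : 0 ≤ s) (hQ : 1 ≤ Q) (ht0 : 0 ≤ t)
    (hQt : 1 / Q ≤ t ^ 2) (hE : Q * E ≤ X) (hE1 : 1 ≤ E) (hE2 : E ≤ 1 + 2 * η) :
    ∑ m ∈ Ioc ⌊Q⌋₊ ⌊Q * E⌋₊, |a m| ≤ 70 * P ^ 513 * Q * (s + t) := by
  set M := ⌊Q⌋₊ with hM
  set M' := ⌊Q * E⌋₊ with hM'
  have hQ0 : 0 < Q := by linarith only [hQ]
  have hXr : (1 : ℝ) ≤ X := by exact_mod_cast hX
  have hL : 0 ≤ Real.log X := Real.log_nonneg hXr
  obtain ⟨L, hLdef⟩ : ∃ L, L = Real.log X := ⟨_, rfl⟩
  rw [← hLdef] at hL hP ha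
  have hP0 : 0 ≤ P := by linarith only [hP, hL]
  have hMM' : M ≤ M' := Nat.floor_mono (by nlinarith only [hE1, hQ])
  have hM'1 : 1 ≤ M' := by
    rw [hM', Nat.one_le_floor_iff]
    nlinarith only [hQ, hE1]
  have hM'le : (M' : ℝ) ≤ Q * E := Nat.floor_le (by positivity)
  have hM'X : (M' : ℝ) ≤ X := hM'le.trans hE
  have hMgt : Q - 1 < M := by
    have := Nat.lt_floor_add_one Q
    linarith
  have hM'r : (1 : ℝ) ≤ M' := by exact_mod_cast hM'1
  have hlogM' : Real.log M' ≤ L := by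
    rw [hLdef]
    exact Real.log_le_log (by linarith) hM'X
  have hlogM'0 : 0 ≤ Real.log M' := Real.log_nonneg hM'r
  have h1 : (∑ m ∈ Ioc M M', |a m|) ^ 2 ≤ (Ioc M M').card * ∑ m ∈ Ioc M M', |a m| ^ 2 :=
    sq_sum_le_card_mul_sum_sq
  have h2 : ((Ioc M M').card : ℝ) ≤ 2 * η * Q + 1 := by
    rw [Nat.card_Ioc, Nat.cast_sub hMM']
    have : Q * E ≤ Q * (1 + 2 * η) := mul_le_mul_of_nonneg_left hE2 hQ0.le
    linarith only [hM'le, hMgt, this]
  have h3 : ∑ m ∈ Ioc M M', |a m| ^ 2 ≤ 400 * L ^ 2 * (M' * (1 + Real.log M') ^ (2 ^ 10)) := by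
    have i1 : ∑ m ∈ Ioc M M', |a m| ^ 2 ≤ ∑ m ∈ Icc 1 M', 400 * L ^ 2 * tau m ^ 10 := by
      refine (sum_le_sum (g := fun m => 400 * L ^ 2 * tau m ^ 10) fun m _ => ?_).trans
        (sum_le_sum_of_subset_of_nonneg (f := fun m => 400 * L ^ 2 * tau m ^ 10) ?_ ?_)
      · have := ha m
        calc |a m| ^ 2 ≤ (20 * L * tau m ^ 5) ^ 2 := pow_le_pow_left₀ (abs_nonneg _) this 2
          _ = 400 * L ^ 2 * tau m ^ 10 := by ring
      · intro m hm
        rw [mem_Ioc] at hm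
        rw [mem_Icc]
        omega
      · intro m _ _
        unfold tau
        positivity
    rw [← mul_sum] at i1
    exact i1.trans (mul_le_mul_of_nonneg_left (tau_mom 10 M') (by positivity))
  have h4 : (M' : ℝ) * (1 + Real.log M') ^ (2 ^ 10) ≤ 3 * Q * P ^ (2 ^ 10) := by
    have i1 : (1 + Real.log M') ^ (2 ^ 10) ≤ P ^ (2 ^ 10) :=
      pow_le_pow_left₀ (by linarith only [hlogM'0]) (by linarith only [hP, hlogM']) _
    have i2 : (M' : ℝ) ≤ 3 * Q := by
      have : Q * E ≤ Q * 3 := mul_le_mul_of_nonneg_left (by linarith only [hη1, hE2]) hQ0.le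
      linarith only [hM'le, this]
    exact mul_le_mul i2 i1 (pow_nonneg (by linarith only [hlogM'0]) _) (by linarith only [hQ])
  have h5 : (∑ m ∈ Ioc M M', |a m|) ^ 2 ≤
      (2 * η * Q + 1) * (400 * L ^ 2 * (3 * Q * P ^ (2 ^ 10))) := by
    refine h1.trans (mul_le_mul h2 (h3.trans ?_) (sum_nonneg fun _ _ => by positivity)
      (by positivity))
    exact mul_le_mul_of_nonneg_left h4 (by positivity)
  have h6 := Ty_arith (P := P) hL (by linarith only [hP]) hQ0 hη0 ht0 hQt hs hs0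
  have h7 : (2 : ℕ) ^ 10 = 1024 := by norm_num
  rw [h7] at h5
  have hpos : 0 ≤ 70 * P ^ 513 * Q * (s + t) := by
    have := pow_nonneg hP0 513
    positivity
  exact (sq_le_sq₀ (sum_nonneg fun _ _ => abs_nonneg _) hpos).1 (h5.trans h6)

/-- the sum over the low range -/
private theorem Ty_low {X : ℕ} {a : ArithmeticFunction ℝ} (ha : ∀ m, |a m| ≤ 20 * Real.log X * tau m ^ 5)
    (hX : 1 ≤ X) {P : ℝ} (hP : P = 1 + Real.log X) {M : ℕ} (hMX : M ≤ X) {u w : ℝ} (hu : 0 ≤ u)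
    (hw : 0 ≤ w) :
    ∑ m ∈ Icc 1 M, |a m| * (u / m + w) ≤ 20 * P ^ 33 * (u + w * M) := by
  have hXr : (1 : ℝ) ≤ X := by exact_mod_cast hX
  have hL : 0 ≤ Real.log X := Real.log_nonneg hXr
  have hlogM : Real.log M ≤ Real.log X := by
    rcases Nat.eq_zero_or_pos M with h0 | h0
    · subst h0
      simpa using hL
    · exact Real.log_le_log (by exact_mod_cast h0) (by exact_mod_cast hMX)
  obtain ⟨L, hLdef⟩ : ∃ L, L = Real.log X := ⟨_, rfl⟩
  rw [← hLdef] at hL hP ha hlogM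
  have hP0 : 0 ≤ P := by linarith
  have hlogM0 : 0 ≤ Real.log M := Real.log_natCast_nonneg M
  have h1 : ∑ m ∈ Icc 1 M, |a m| * (u / m + w) ≤
      20 * L * (u * ∑ m ∈ Icc 1 M, tau m ^ 5 / m + w * ∑ m ∈ Icc 1 M, tau m ^ 5) := by
    rw [mul_sum, mul_sum, ← sum_add_distrib, mul_sum]
    refine sum_le_sum fun m hm => ?_
    have hm0 : (0 : ℝ) < m := by exact_mod_cast (mem_Icc.1 hm).1
    calc |a m| * (u / m + w) ≤ (20 * L * tau m ^ 5) * (u / m + w) :=
          mul_le_mul_of_nonneg_right (ha m) (by positivity)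
      _ = 20 * L * (u * (tau m ^ 5 / m) + w * tau m ^ 5) := by ring
  have h2 := tau_momd 5 M
  have h3 := tau_mom 5 M
  have h7 : (2 : ℕ) ^ 5 = 32 := by norm_num
  rw [h7] at h2 h3
  have h4 : (1 + Real.log M) ^ 32 ≤ P ^ 32 := pow_le_pow_left₀ (by linarith only [hlogM0]) (by linarith only [hlogM, hP]) _
  refine h1.trans ?_
  have h5 : u * ∑ m ∈ Icc 1 M, tau m ^ 5 / m + w * ∑ m ∈ Icc 1 M, tau m ^ 5 ≤
      P ^ 32 * (u + w * M) := by
    have i1 : u * ∑ m ∈ Icc 1 M, tau m ^ 5 / m ≤ u * P ^ 32 :=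
      mul_le_mul_of_nonneg_left (h2.trans h4) hu
    have i2 : w * ∑ m ∈ Icc 1 M, tau m ^ 5 ≤ w * (M * P ^ 32) :=
      mul_le_mul_of_nonneg_left (h3.trans (mul_le_mul_of_nonneg_left h4 (Nat.cast_nonneg _))) hw
    calc _ ≤ u * P ^ 32 + w * (M * P ^ 32) := add_le_add i1 i2
      _ = P ^ 32 * (u + w * M) := by ring
  have h6 : 20 * L ≤ 20 * P := by linarith only [hP]
  calc 20 * L * (u * ∑ m ∈ Icc 1 M, tau m ^ 5 / m + w * ∑ m ∈ Icc 1 M, tau m ^ 5)
      ≤ 20 * L * (P ^ 32 * (u + w * M)) := mul_le_mul_of_nonneg_left h5 (by positivity)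
    _ ≤ 20 * P * (P ^ 32 * (u + w * M)) :=
        mul_le_mul_of_nonneg_right h6 (by positivity)
    _ = 20 * P ^ 33 * (u + w * M) := by ring

private theorem Ty_log200 : Real.log 200 ≤ 6 := by
  have h1 : (200 : ℝ) ≤ Real.exp 6 := by
    have h2 := Real.exp_one_gt_d9
    have h3 : Real.exp 6 = Real.exp 1 ^ 6 := by
      rw [← Real.exp_nat_mul]
      norm_num
    rw [h3]
    have h4 : (2.7 : ℝ) ^ 6 ≤ Real.exp 1 ^ 6 := pow_le_pow_left₀ (by norm_num) (by linarith) 6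
    have h5 : (200 : ℝ) ≤ 2.7 ^ 6 := by norm_num
    linarith only [h4]
  rw [Real.log_le_iff_le_exp (by norm_num)]
  exact h1

/-- the comparison with the main term -/
private theorem Ty_main {ψ : ℝ → ℝ} {C : ℝ} (hC : 1 ≤ C)
    (hlip : ∀ u v, |ψ u - ψ v| ≤ C * |u - v|) (hnn : ∀ v, 0 ≤ ψ v) (hle : ∀ v, ψ v ≤ 1)
    (hsupp : ∀ v, ψ v ≠ 0 → 0 < v ∧ v < 1) {X Y : ℕ} {k : Fin 3} (hk : k ≠ 2)
    {a : ArithmeticFunction ℝ} {x η s t P : ℝ} (hX : 1 ≤ X)
    (ha : ∀ m, |a m| ≤ 20 * Real.log X * tau m ^ 5) (hXx : (X : ℝ) ≤ x) (hx2 : x ≤ 2 * X)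
    (hη0 : 0 < η) (hη1 : η ≤ 1) (hs : s ^ 2 = η) (hs0 : 0 ≤ s) (ht0 : 0 ≤ t) (ht1 : t ≤ 1)
    (hY6 : 6 ≤ Y) (hYX : (Y : ℝ) ≤ X * t ^ 2) (hYη : 2 ≤ Y * η)
    (hXY : X / (Y * η) ≤ 2 * (X * t)) (hP : P = 1 + Real.log X) :
    |∑ m ∈ Icc 1 (200 * X), a m * Ty_S ψ k Y (200 * X) x η m -
      ∑ m ∈ Icc 1 ⌊x / Y⌋₊, a m * ((∫ v : ℝ, ψ v) * ((x / m) * Ty_F k (x / m)))| ≤
      (160 * (18 + 6 * C) + 3920) * P ^ 514 * X * (s + t) := by
  have hXr : (1 : ℝ) ≤ X := by exact_mod_cast hX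
  have hx0 : 0 < x := by linarith only [hXx, hXr]
  have hL : 0 ≤ Real.log X := Real.log_nonneg hXr
  have hP1 : 1 ≤ P := by linarith only [hP, hL]
  have hP0 : 0 ≤ P := by linarith
  have hY1 : 1 ≤ Y := by omega
  have hYr : (6 : ℝ) ≤ Y := by exact_mod_cast hY6
  have hY0 : (0 : ℝ) < Y := by linarith only [hYr]
  have hη3 : Real.exp η ≤ 1 + 2 * η := Ty_exp_le hη0.le hη1
  have hη4 : 1 ≤ Real.exp η := Real.one_le_exp hη0.le
  obtain ⟨Q, hQ⟩ : ∃ Q : ℝ, Q = x / Y := ⟨_, rfl⟩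
  have hQY : Q * Y = x := by
    rw [hQ]
    field_simp
  have hYX' : (Y : ℝ) ≤ X := by
    refine hYX.trans ?_
    have : t ^ 2 ≤ 1 := by nlinarith only [ht1, ht0]
    nlinarith only [this]
  have hQ1 : 1 ≤ Q := by
    rw [hQ, le_div_iff₀ hY0]
    linarith only [hXx, hYX']
  have hQ0 : 0 < Q := by linarith only [hQ1]
  have hE : Q * Real.exp η ≤ X := by
    have h1 : Q * Real.exp η ≤ Q * 3 := mul_le_mul_of_nonneg_left (by linarith only [hη1, hη3]) hQ0.le
    have h2 : Q * 6 ≤ Q * Y := mul_le_mul_of_nonneg_left hYr hQ0.le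
    linarith only [hx2, hQY, h1, h2]
  have hQt : 1 / Q ≤ t ^ 2 := by
    rw [div_le_iff₀ hQ0, hQ, ← mul_div_assoc, le_div_iff₀ hY0, one_mul]
    refine hYX.trans ?_
    nlinarith only [hXx, sq_nonneg t]
  have hcau := Ty_cauchy ha hX hP hη0.le hη1 hs hs0 hQ1 ht0 hQt hE hη4 hη3
  set N : ℕ := 200 * X with hNdef
  have hNr : (N : ℝ) = 200 * X := by
    rw [hNdef]
    push_cast
    ring
  have hxN : x * Real.exp η ≤ N := by
    rw [hNr]
    have : x * Real.exp η ≤ x * 3 := mul_le_mul_of_nonneg_left (by linarith only [hη1, hη3]) hx0.le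
    linarith only [hx2, hYr, hYX', this]
  have hlogN : 1 + Real.log N ≤ 7 * P := by
    rw [hNr, Real.log_mul (by norm_num) (by linarith only [hYr, hYX']), hP]
    have := Ty_log200
    linarith
  have hlogN0 : 0 ≤ 1 + Real.log N := by
    have := Real.log_natCast_nonneg N
    linarith
  set M : ℕ := ⌊Q⌋₊ with hM
  set M' : ℕ := ⌊Q * Real.exp η⌋₊ with hM'
  have hMM' : M ≤ M' := Nat.floor_mono (by nlinarith only [hη4, hXx, hη0, hQY, hYr, hη3])
  have hM'X : M' ≤ X := by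
    have : (M' : ℝ) ≤ X := (Nat.floor_le (by positivity)).trans hE
    exact_mod_cast this
  have hM'N : M' ≤ N := by omega
  have hMle : (M : ℝ) ≤ Q := Nat.floor_le hQ0.le
  -- splitting
  have hsplit : ∑ m ∈ Icc 1 N, a m * Ty_S ψ k Y N x η m =
      ∑ m ∈ Icc 1 M, a m * Ty_S ψ k Y N x η m + ∑ m ∈ Ioc M M', a m * Ty_S ψ k Y N x η m := by
    have e1 : ∑ m ∈ Icc 1 M', a m * Ty_S ψ k Y N x η m =
        ∑ m ∈ Icc 1 N, a m * Ty_S ψ k Y N x η m := by
      apply sum_subset (Icc_subset_Icc_right hM'N)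
      intro m hm hm'
      rw [mem_Icc] at hm hm'
      have h1 : M' < m := by omega
      have h2 : x * Real.exp η / Y < m := by
        have h3 : Q * Real.exp η < m := by
          rw [hM', Nat.floor_lt (by positivity)] at h1
          exact h1
        have h4 : x * Real.exp η / Y = Q * Real.exp η := by
          rw [hQ]
          ring
        rw [h4]
        exact h3
      rw [Ty_S_zero hsupp hk hY1 hx0 hη0 hm.1 h2, mul_zero]
    rw [← e1]
    have e2 : Icc 1 M' = Icc 1 M ∪ Ioc M M' := by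
      ext m
      simp only [mem_union, mem_Icc, mem_Ioc]
      omega
    rw [e2, sum_union]
    rw [disjoint_left]
    intro m h1 h2
    rw [mem_Icc] at h1
    rw [mem_Ioc] at h2
    omega
  have hA : |∑ m ∈ Icc 1 M, a m * Ty_S ψ k Y N x η m -
      ∑ m ∈ Icc 1 M, a m * ((∫ v : ℝ, ψ v) * ((x / m) * Ty_F k (x / m)))| ≤
      160 * (18 + 6 * C) * P ^ 514 * X * (s + t) := by
    rw [← sum_sub_distrib]
    have h1 : |∑ m ∈ Icc 1 M, (a m * Ty_S ψ k Y N x η m -
        a m * ((∫ v : ℝ, ψ v) * ((x / m) * Ty_F k (x / m))))| ≤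
        ∑ m ∈ Icc 1 M, (18 + 6 * C) * (2 * P) * (|a m| * (η * x / m + 1 / η)) := by
      refine (abs_sum_le_sum_abs _ _).trans (sum_le_sum fun m hm => ?_)
      have hm1 := (mem_Icc.1 hm).1
      have hmM := (mem_Icc.1 hm).2
      have hmr : (1 : ℝ) ≤ m := by exact_mod_cast hm1
      have hmY : (m : ℝ) * Y ≤ x := by
        have : (m : ℝ) ≤ Q := le_trans (by exact_mod_cast hmM) hMle
        calc (m : ℝ) * Y ≤ Q * Y := mul_le_mul_of_nonneg_right this hY0.le
          _ = x := hQY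
      have h2 := Ty_S_small hC hlip hnn hle hsupp hk hY1 hx0 hη0 hη1 hYη hm1 hmY hxN
      rw [← mul_sub, abs_mul]
      have h3 : 1 + Real.log (x / m) ≤ 2 * P := by
        have i1 : Real.log (x / m) ≤ Real.log (2 * X) := by
          apply Real.log_le_log (by positivity)
          exact (div_le_self hx0.le hmr).trans hx2
        rw [Real.log_mul (by norm_num) (by linarith only [hYr, hYX'])] at i1
        have i2 := Real.log_two_lt_d9
        rw [hP]
        linarith only [hL, i1, i2]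
      have hpos : 0 ≤ η * (x / m) + 1 / η := by positivity
      calc |a m| * |Ty_S ψ k Y N x η m - (∫ v : ℝ, ψ v) * ((x / m) * Ty_F k (x / m))|
          ≤ |a m| * ((18 + 6 * C) * (1 + Real.log (x / m)) * (η * (x / m) + 1 / η)) :=
            mul_le_mul_of_nonneg_left h2 (abs_nonneg _)
        _ ≤ |a m| * ((18 + 6 * C) * (2 * P) * (η * (x / m) + 1 / η)) := by
            apply mul_le_mul_of_nonneg_left _ (abs_nonneg _)
            apply mul_le_mul_of_nonneg_right _ hpos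
            exact mul_le_mul_of_nonneg_left h3 (by linarith only [hC])
        _ = (18 + 6 * C) * (2 * P) * (|a m| * (η * x / m + 1 / η)) := by ring
    refine h1.trans ?_
    rw [← mul_sum]
    have h4 := Ty_low ha hX hP (hMM'.trans hM'X) (u := η * x) (w := 1 / η) (by positivity)
      (by positivity)
    have h5 : η * x + 1 / η * M ≤ 4 * (X * (s + t)) := by
      have i1 : η * x ≤ 2 * (X * s) := by
        have j1 : η ≤ s := by
          rw [← hs]
          have : s ≤ 1 := by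
            by_contra hcon
            push Not at hcon
            nlinarith only [hη1, hs, hcon, hs0]
          nlinarith only [hs0, this]
        calc η * x ≤ s * (2 * X) := mul_le_mul j1 hx2 hx0.le hs0
          _ = 2 * (X * s) := by ring
      have i2 : 1 / η * M ≤ 4 * (X * t) := by
        calc 1 / η * M ≤ 1 / η * Q := mul_le_mul_of_nonneg_left hMle (by positivity)
          _ = x / (Y * η) := by
            rw [hQ]
            field_simp
          _ ≤ (2 * X) / (Y * η) := div_le_div_of_nonneg_right hx2 (by positivity)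
          _ = 2 * (X / (Y * η)) := by ring
          _ ≤ 4 * (X * t) := by linarith only [hXY]
      have i3 : 0 ≤ X * s := by positivity
      linarith only [i1, i2, i3]
    have hC' : 0 ≤ 18 + 6 * C := by linarith only [hC]
    have hP33 : P ^ 34 ≤ P ^ 514 := pow_le_pow_right₀ hP1 (by norm_num)
    have hXst : 0 ≤ X * (s + t) := by positivity
    calc (18 + 6 * C) * (2 * P) * ∑ m ∈ Icc 1 M, |a m| * (η * x / m + 1 / η)
        ≤ (18 + 6 * C) * (2 * P) * (20 * P ^ 33 * (η * x + 1 / η * M)) :=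
          mul_le_mul_of_nonneg_left h4 (mul_nonneg hC' (by linarith only [hP, hL]))
      _ ≤ (18 + 6 * C) * (2 * P) * (20 * P ^ 33 * (4 * (X * (s + t)))) := by
          apply mul_le_mul_of_nonneg_left _ (mul_nonneg hC' (by linarith only [hP, hL]))
          exact mul_le_mul_of_nonneg_left h5 (mul_nonneg (by norm_num) (pow_nonneg hP0 _))
      _ = P ^ 34 * (160 * (18 + 6 * C) * (X * (s + t))) := by ring
      _ ≤ P ^ 514 * (160 * (18 + 6 * C) * (X * (s + t))) :=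
          mul_le_mul_of_nonneg_right hP33 (by positivity)
      _ = 160 * (18 + 6 * C) * P ^ 514 * X * (s + t) := by ring
  have hB : |∑ m ∈ Ioc M M', a m * Ty_S ψ k Y N x η m| ≤ 3920 * P ^ 514 * X * (s + t) := by
    have h1 : |∑ m ∈ Ioc M M', a m * Ty_S ψ k Y N x η m| ≤
        ∑ m ∈ Ioc M M', |a m| * ((2 * η * Y + 1) * ((1 + Real.log N) / η)) := by
      refine (abs_sum_le_sum_abs _ _).trans (sum_le_sum fun m hm => ?_)
      rw [mem_Ioc] at hm
      have hm1 : 1 ≤ m := by omega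
      rw [abs_mul]
      apply mul_le_mul_of_nonneg_left _ (abs_nonneg _)
      apply Ty_S_mid hnn hle hsupp hk hY1 hx0 hη0 hη1 hm1
      have h2 : Q < m := by
        have := hm.1
        rw [hM, Nat.floor_lt hQ0.le] at this
        exact this
      calc x = Q * Y := hQY.symm
        _ < m * Y := mul_lt_mul_of_pos_right h2 hY0
    refine h1.trans ?_
    rw [← sum_mul]
    have h2 : (2 * η * Y + 1) * ((1 + Real.log N) / η) ≤ 28 * P * Y := by
      have i1 : (2 * η * Y + 1) * ((1 + Real.log N) / η) = (1 + Real.log N) * (2 * Y + 1 / η) := by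
        field_simp
      have i2 : 1 / η ≤ Y := by
        rw [div_le_iff₀ hη0]
        linarith only [hYη]
      rw [i1]
      calc (1 + Real.log N) * (2 * Y + 1 / η) ≤ (7 * P) * (4 * Y) :=
            mul_le_mul hlogN (by linarith only [hYr, i2]) (by positivity) (by linarith only [hP, hL])
        _ = 28 * P * Y := by ring
    have hpos : 0 ≤ (2 * η * Y + 1) * ((1 + Real.log N) / η) := by positivity
    have hst : 0 ≤ s + t := by linarith only [hs0, ht0]
    calc (∑ m ∈ Ioc M M', |a m|) * ((2 * η * Y + 1) * ((1 + Real.log N) / η))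
        ≤ (70 * P ^ 513 * Q * (s + t)) * (28 * P * Y) :=
          mul_le_mul hcau h2 hpos (mul_nonneg (mul_nonneg (mul_nonneg (by norm_num)
            (pow_nonneg hP0 _)) hQ0.le) hst)
      _ = P ^ 514 * (1960 * (Q * Y) * (s + t)) := by ring
      _ ≤ P ^ 514 * (3920 * X * (s + t)) := by
          apply mul_le_mul_of_nonneg_left _ (pow_nonneg hP0 _)
          apply mul_le_mul_of_nonneg_right _ hst
          rw [hQY]
          linarith only [hx2]
      _ = 3920 * P ^ 514 * X * (s + t) := by ring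
  rw [hsplit, ← hQ, ← hM]
  have e : ∀ u v w : ℝ, u + v - w = (u - w) + v := fun u v w => by ring
  rw [e]
  refine (abs_add_le _ _).trans ((add_le_add hA hB).trans (le_of_eq ?_))
  ring

/-- powers of the logarithm against powers -/
private theorem Ty_log_pow (K : ℝ) (n : ℕ) {e : ℝ} (he : 0 < e) :
    ∃ X0 : ℕ, ∀ X : ℕ, X0 ≤ X → K * Real.log X ^ n ≤ (X : ℝ) ^ e := by
  have h := isLittleO_log_rpow_rpow_atTop (n : ℝ) he
  have hc : (0 : ℝ) < 1 / (|K| + 1) := by positivity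
  have h1 := h.def hc
  have h2 := (tendsto_natCast_atTop_atTop (R := ℝ)).eventually
    (h1.and (Filter.eventually_ge_atTop (1 : ℝ)))
  obtain ⟨X0, hX0⟩ := Filter.eventually_atTop.1 h2
  refine ⟨X0, fun X hX => ?_⟩
  obtain ⟨h3, h4⟩ := hX0 X hX
  have hL : 0 ≤ Real.log (X : ℝ) := Real.log_nonneg h4
  have hXe : 0 ≤ (X : ℝ) ^ e := by positivity
  have hK1 : 0 < |K| + 1 := by positivity
  rw [Real.rpow_natCast, Real.norm_eq_abs, Real.norm_eq_abs,
    abs_of_nonneg (pow_nonneg hL n), abs_of_nonneg hXe] at h3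
  have h5 : (|K| + 1) * Real.log (X : ℝ) ^ n ≤ (X : ℝ) ^ e := by
    have := mul_le_mul_of_nonneg_left h3 hK1.le
    rwa [← mul_assoc, mul_one_div_cancel hK1.ne', one_mul] at this
  refine le_trans ?_ h5
  apply mul_le_mul_of_nonneg_right _ (by positivity)
  linarith only [le_abs_self K]

private theorem Ty_sw {ψ : ℝ → ℝ} (hsupp : ∀ v, ψ v ≠ 0 → 0 < v ∧ v < 1) (k : Fin 3) (Y X : ℕ)
    (a : ArithmeticFunction ℝ) {x η : ℝ} (hx : 0 < x) (hη : 0 < η)
    (hxN : x * Real.exp η ≤ (200 * X : ℕ)) :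
    sw ψ (cc (hi k Y * a)) (200 * X) x η =
      ((∑ m ∈ Icc 1 (200 * X), a m * Ty_S ψ k Y (200 * X) x η m : ℝ) : ℂ) := by
  have h1 := Ty_conv (hi k Y) a (Ty_w ψ x η) (200 * X) (by
    intro n hn
    by_contra hne
    have h2 := (Ty_w_supp hsupp hx hη (by omega) hne).2
    have h3 : ((200 * X : ℕ) : ℝ) < n := by exact_mod_cast hn
    linarith)
  have h2 : ∑ m ∈ Icc 1 (200 * X), a m * Ty_S ψ k Y (200 * X) x η m =
      ∑ n ∈ Icc 1 (200 * X), (hi k Y * a) n * Ty_w ψ x η n := h1.symm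
  rw [h2]
  unfold sw cc Ty_w
  push_cast
  rfl

theorem ty58 {ψ : ℝ → ℝ} {g : ℝ → ℂ} (h : Bump ψ g) (A : ℕ) :
    ∃ A0 : ℕ, ∀ A1 : ℕ, A0 ≤ A1 → ∃ X0 : ℕ, ∀ X : ℕ, X0 ≤ X →
    ∀ (Y : ℕ) (k : Fin 3) (a : ArithmeticFunction ℝ) (x η : ℝ), k ≠ 2 →
    (X : ℝ) ^ (11 / 24 : ℝ) ≤ 2 * Y → (Y : ℝ) ≤ (X : ℝ) ^ (11 / 24 : ℝ) →
    (∀ m, |a m| ≤ 20 * Real.log X * tau m ^ 5) → (X : ℝ) ≤ x → x ≤ 2 * X →
    (X : ℝ) ^ (-(3 / 8) : ℝ) ≤ η → η ≤ (X : ℝ) ^ (-(1 / 4) : ℝ) →
    ‖sw ψ (cc (hi k Y * a)) (200 * X) x η - sw ψ (cc (hi k Y * a)) (200 * X) x (1 / Real.log X ^ A1)‖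
      ≤ X / Real.log X ^ A := by
  obtain ⟨C, hC, hlip⟩ := h.lip
  obtain ⟨K, hK⟩ : ∃ K : ℝ, K = 160 * (18 + 6 * C) + 3920 := ⟨_, rfl⟩
  have hK0 : 0 ≤ K := by rw [hK]; linarith
  obtain ⟨D, hD0, hD⟩ : ∃ D : ℝ, 0 ≤ D ∧ ∀ u : ℝ, (2 * u) ^ 514 = D * u ^ 514 :=
    ⟨(2 : ℝ) ^ 514, pow_nonneg zero_le_two 514, fun u => mul_pow 2 u 514⟩
  refine ⟨2 * (A + 515), fun A1 hA1 => ?_⟩
  obtain ⟨X1, hX1⟩ := Ty_log_pow (6 * K * D) (514 + A) (e := 1 / 12) (by norm_num)
  obtain ⟨X2, hX2⟩ := Ty_log_pow 1 A1 (e := 3 / 8) (by norm_num)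
  obtain ⟨X3, hX3⟩ := Filter.eventually_atTop.1
    ((tendsto_natCast_atTop_atTop (R := ℝ)).eventually
      (Real.tendsto_log_atTop.eventually_ge_atTop (2 * K * D + 1)))
  refine ⟨X1 + X2 + X3 + 16777216, fun X hX Y k a x η hk hXY hYX ha hXx hx2 hηl hηu => ?_⟩
  have g1 := hX1 X (by omega)
  have g2 := hX2 X (by omega)
  have g3 := hX3 X (by omega)
  have hX4 : 16777216 ≤ X := (Nat.le_add_left _ _).trans hX
  have hXr : ((4 : ℝ)) ^ 12 ≤ X := by
    have h1 : (16777216 : ℝ) ≤ X := by exact_mod_cast hX4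
    have h2 : (4 : ℝ) ^ 12 = 16777216 := by norm_num
    rw [h2]
    exact h1
  have hXr1 : (1 : ℝ) ≤ X := by
    have : (1 : ℝ) ≤ 4 ^ 12 := by norm_num
    linarith only [hXr]
  have hX0 : (0 : ℝ) < X := by linarith only [hXr]
  have hXn : 1 ≤ X := by exact_mod_cast hXr1
  -- the powers of `X`
  obtain ⟨t, ht⟩ : ∃ t : ℝ, t = (X : ℝ) ^ (-(1 / 12) : ℝ) := ⟨_, rfl⟩
  obtain ⟨r, hr⟩ : ∃ r : ℝ, r = (X : ℝ) ^ (1 / 12 : ℝ) := ⟨_, rfl⟩
  have hrt : r * t = 1 := by
    rw [hr, ht, ← Real.rpow_add hX0]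
    norm_num
  have hr4 : 4 ≤ r := by
    rw [hr]
    have h1 : ((4 : ℝ) ^ 12) ^ (1 / 12 : ℝ) ≤ (X : ℝ) ^ (1 / 12 : ℝ) :=
      Real.rpow_le_rpow (by norm_num) hXr (by norm_num)
    have h2 : ((4 : ℝ) ^ 12) ^ (1 / 12 : ℝ) = 4 := by
      rw [← Real.rpow_natCast, ← Real.rpow_mul (by norm_num)]
      norm_num
    linarith only [h1]
  have hr0 : 0 < r := by linarith only [hr4]
  have ht0 : 0 < t := by
    rw [ht]
    positivity
  have ht1 : t ≤ 1 := by nlinarith only [hrt, hr4, ht0]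
  have hp1124 : (X : ℝ) ^ (11 / 24 : ℝ) * (X : ℝ) ^ (-(3 / 8) : ℝ) = r := by
    rw [hr, ← Real.rpow_add hX0]
    norm_num
  have hp38 : 0 < (X : ℝ) ^ (-(3 / 8) : ℝ) := by positivity
  have hY0 : 0 ≤ (Y : ℝ) := Nat.cast_nonneg Y
  have hbig : 12 ≤ (X : ℝ) ^ (11 / 24 : ℝ) := by
    have h1 : (X : ℝ) ^ (5 / 12 : ℝ) ≤ (X : ℝ) ^ (11 / 24 : ℝ) :=
      Real.rpow_le_rpow_of_exponent_le hXr1 (by norm_num)
    have h2 : (X : ℝ) ^ (5 / 12 : ℝ) = r ^ 5 := by
      rw [hr, ← Real.rpow_natCast, ← Real.rpow_mul hX0.le]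
      norm_num
    have h3 : (4 : ℝ) ^ 5 ≤ r ^ 5 := pow_le_pow_left₀ (by norm_num) hr4 5
    have h4 : (12 : ℝ) ≤ 4 ^ 5 := by norm_num
    linarith only [h1, h2, h3]
  have hY6r : (6 : ℝ) ≤ Y := by linarith only [hXY, hbig]
  have hY6 : 6 ≤ Y := by exact_mod_cast hY6r
  have hYt : (Y : ℝ) ≤ X * t ^ 2 := by
    have h1 : X * t ^ 2 = (X : ℝ) ^ (5 / 6 : ℝ) := by
      have h2 : t ^ 2 = (X : ℝ) ^ (-(1 / 6) : ℝ) := by
        rw [ht, ← Real.rpow_natCast, ← Real.rpow_mul hX0.le]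
        norm_num
      rw [h2]
      nth_rewrite 1 [← Real.rpow_one (X : ℝ)]
      rw [← Real.rpow_add hX0]
      norm_num
    rw [h1]
    exact hYX.trans (Real.rpow_le_rpow_of_exponent_le hXr1 (by norm_num))
  -- general facts for all windows
  have hgen : ∀ η' : ℝ, (X : ℝ) ^ (-(3 / 8) : ℝ) ≤ η' → 2 ≤ Y * η' ∧ X / (Y * η') ≤ 2 * (X * t) := by
    intro η' hη'
    have h1 : r ≤ 2 * (Y * η') := by
      rw [← hp1124]
      calc (X : ℝ) ^ (11 / 24 : ℝ) * (X : ℝ) ^ (-(3 / 8) : ℝ) ≤ (2 * Y) * η' :=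
            mul_le_mul hXY hη' hp38.le (by positivity)
        _ = 2 * (Y * η') := by ring
    have h2 : 0 < Y * η' := by linarith only [hr4, h1]
    refine ⟨by linarith only [hr4, h1], ?_⟩
    rw [div_le_iff₀ h2]
    have h3 : 1 ≤ 2 * t * (Y * η') := by
      calc (1 : ℝ) = r * t := hrt.symm
        _ ≤ (2 * (Y * η')) * t := mul_le_mul_of_nonneg_right h1 ht0.le
        _ = 2 * t * (Y * η') := by ring
    calc (X : ℝ) = X * 1 := by ring
      _ ≤ X * (2 * t * (Y * η')) := mul_le_mul_of_nonneg_left h3 hX0.le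
      _ = 2 * (X * t) * (Y * η') := by ring
  obtain ⟨P, hP⟩ : ∃ P : ℝ, P = 1 + Real.log X := ⟨_, rfl⟩
  have hx0 : 0 < x := by linarith only [hXx, hXr]
  have hmain : ∀ η' s : ℝ, (X : ℝ) ^ (-(3 / 8) : ℝ) ≤ η' → η' ≤ 1 → s ^ 2 = η' → 0 ≤ s →
      ‖sw ψ (cc (hi k Y * a)) (200 * X) x η' -
        ((∑ m ∈ Icc 1 ⌊x / Y⌋₊, a m * ((∫ v : ℝ, ψ v) * ((x / m) * Ty_F k (x / m))) : ℝ) : ℂ)‖ ≤
      K * P ^ 514 * X * (s + t) := by
    intro η' s h1 h2 h3 h4
    have hη0 : 0 < η' := hp38.trans_le h1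
    have hxN : x * Real.exp η' ≤ (200 * X : ℕ) := by
      push_cast
      have h5 : Real.exp η' ≤ 1 + 2 * η' := Ty_exp_le hη0.le h2
      have : x * Real.exp η' ≤ x * 3 := mul_le_mul_of_nonneg_left (by linarith only [h2, h5]) hx0.le
      linarith only [hx2, hXr, this]
    obtain ⟨h6, h7⟩ := hgen η' h1
    rw [Ty_sw h.supp k Y X a hx0 hη0 hxN, ← Complex.ofReal_sub, Complex.norm_real,
      Real.norm_eq_abs, hK]
    exact Ty_main hC hlip h.nn h.le1 h.supp hk hXn ha hXx hx2 hη0 h2 h3 h4 ht0.le ht1 hY6 hYt h6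
      h7 hP
  obtain ⟨L, hL⟩ : ∃ L : ℝ, L = Real.log X := ⟨_, rfl⟩
  rw [← hL] at g1 g2 g3 hP ⊢
  have hK514 : 0 ≤ 2 * K * D := by positivity
  have hL1 : 1 ≤ L := by linarith only [g3, hK514]
  have hL0 : 0 < L := by linarith only [g3, hK514]
  have hη1 : η ≤ 1 := by
    refine hηu.trans ?_
    exact Real.rpow_le_one_of_one_le_of_nonpos hXr1 (by norm_num)
  have hη0 : 0 < η := hp38.trans_le hηl
  have hη1' : (X : ℝ) ^ (-(3 / 8) : ℝ) ≤ 1 / L ^ A1 := by
    rw [Real.rpow_neg hX0.le, ← one_div]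
    exact one_div_le_one_div_of_le (by positivity) (by linarith only [g2])
  have hη1'' : 1 / L ^ A1 ≤ 1 := by
    rw [div_le_one (by positivity)]
    exact one_le_pow₀ hL1
  have m1 := hmain η (√η) hηl hη1 (Real.sq_sqrt hη0.le) (Real.sqrt_nonneg _)
  have m2 := hmain (1 / L ^ A1) (√(1 / L ^ A1)) hη1' hη1'' (Real.sq_sqrt (by positivity))
    (Real.sqrt_nonneg _)
  -- sizes
  have s1 : √η ≤ t := by
    rw [Real.sqrt_le_left ht0.le]
    refine hηu.trans ?_
    have h2 : t ^ 2 = (X : ℝ) ^ (-(1 / 6) : ℝ) := by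
      rw [ht, ← Real.rpow_natCast, ← Real.rpow_mul hX0.le]
      norm_num
    rw [h2]
    exact Real.rpow_le_rpow_of_exponent_le hXr1 (by norm_num)
  have s2 : √(1 / L ^ A1) ≤ 1 / L ^ (A + 515) := by
    rw [Real.sqrt_le_left (by positivity), div_pow, one_pow, ← pow_mul]
    apply one_div_le_one_div_of_le (by positivity)
    apply pow_le_pow_right₀ hL1
    rw [mul_comm]
    exact hA1
  have hP2 : P ^ 514 ≤ D * L ^ 514 := by
    rw [← hD]
    exact pow_le_pow_left₀ (by linarith only [hP, g3, hK514]) (by linarith only [hP, g3, hK514]) _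
  have hP0 : 0 ≤ P ^ 514 := pow_nonneg (by linarith only [hP, g3, hK514]) _
  have f1 : K * P ^ 514 * (3 * t) ≤ 1 / 2 / L ^ A := by
    rw [le_div_iff₀ (by positivity)]
    have j1 : K * P ^ 514 * (3 * t) * L ^ A ≤ K * (D * L ^ 514) * (3 * t) * L ^ A := by
      apply mul_le_mul_of_nonneg_right _ (pow_nonneg hL0.le _)
      apply mul_le_mul_of_nonneg_right _ (by linarith only [ht0])
      exact mul_le_mul_of_nonneg_left hP2 hK0
    have j2 : K * (D * L ^ 514) * (3 * t) * L ^ A =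
        (6 * K * D * L ^ (514 + A)) * t / 2 := by
      rw [pow_add]
      ring
    have j3 : (6 * K * D * L ^ (514 + A)) * t ≤ 1 := by
      rw [← hrt]
      apply mul_le_mul_of_nonneg_right _ ht0.le
      rw [hr]
      exact g1
    linarith only [j1, j2, j3]
  have f2 : K * P ^ 514 * (1 / L ^ (A + 515)) ≤ 1 / 2 / L ^ A := by
    rw [le_div_iff₀ (by positivity)]
    have j1 : K * P ^ 514 * (1 / L ^ (A + 515)) * L ^ A ≤
        K * (D * L ^ 514) * (1 / L ^ (A + 515)) * L ^ A := by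
      apply mul_le_mul_of_nonneg_right _ (pow_nonneg hL0.le _)
      apply mul_le_mul_of_nonneg_right _ (by positivity)
      exact mul_le_mul_of_nonneg_left hP2 hK0
    have j2 : K * (D * L ^ 514) * (1 / L ^ (A + 515)) * L ^ A = K * D / L := by
      have : L ^ (A + 515) = L ^ A * L ^ 514 * L := by
        rw [pow_add, pow_succ L 514]
        ring
      rw [this]
      have l1 : L ^ A ≠ 0 := (pow_pos hL0 _).ne'
      have l2 : L ^ 514 ≠ 0 := (pow_pos hL0 _).ne'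
      generalize L ^ A = u at l1 ⊢
      generalize L ^ 514 = w at l2 ⊢
      field_simp
    have j3 : K * D / L ≤ 1 / 2 := by
      rw [div_le_iff₀ hL0]
      linarith only [g3]
    linarith only [j1, j2, j3]
  have tri : ∀ u v w : ℂ, ‖u - v‖ ≤ ‖u - w‖ + ‖v - w‖ := by
    intro u v w
    have : u - v = (u - w) - (v - w) := by ring
    rw [this]
    exact norm_sub_le _ _
  refine (tri _ _ _).trans ((add_le_add m1 m2).trans ?_)
  have hKP : 0 ≤ K * P ^ 514 := mul_nonneg hK0 hP0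
  calc K * P ^ 514 * X * (√η + t) + K * P ^ 514 * X * (√(1 / L ^ A1) + t)
      = X * (K * P ^ 514 * (√η + t + t + √(1 / L ^ A1))) := by ring
    _ ≤ X * (K * P ^ 514 * (3 * t + 1 / L ^ (A + 515))) := by
        apply mul_le_mul_of_nonneg_left _ hX0.le
        apply mul_le_mul_of_nonneg_left _ hKP
        linarith only [s1, s2]
    _ = X * (K * P ^ 514 * (3 * t) + K * P ^ 514 * (1 / L ^ (A + 515))) := by ring
    _ ≤ X * (1 / 2 / L ^ A + 1 / 2 / L ^ A) :=
        mul_le_mul_of_nonneg_left (add_le_add f1 f2) hX0.le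
    _ = X / L ^ A := by ring

end Pool.Agent.H88.E58

end

section

/-!
# PSI HB: the Heath-Brown identity (k = 3)

`M = seg 2 1 (2^w)` (`μ` on `[1, 2^w)`), `Z = hi 0 1` (`1` on `n ≥ 1`), `G = hi 1 1` (`log`).
`(1 - Z M)(n) = 0` for `n < 2^w`, so `La (1 - Z M)^3` vanishes at `n < (2^w)^3`; `La Z = G`; so
`La = 3 G M - 3 G Z M^2 + G Z^2 M^3` there.  Split `G = hi 1 Y + seg 1 1 Y`, `Z = hi 0 Y + seg 0 1 Y`, `Y = 2^y`, in the
part with `seg 1 1 Y`; `seg 1 1 Y * M` vanishes at `n ≥ 2^y 2^w`.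
-/

set_option autoImplicit false

namespace Pool.Agent.H88.PSI

open ArithmeticFunction in
private theorem HB_vanish {f g : ArithmeticFunction ℝ} {a b n : ℕ} (hf : ∀ m < a, f m = 0)
    (hg : ∀ m < b, g m = 0) (hn : n < a * b) : (f * g) n = 0 := by
  rw [ArithmeticFunction.mul_apply]
  refine Finset.sum_eq_zero fun x hx => ?_
  have h1 : x.1 * x.2 = n := (Nat.mem_divisorsAntidiagonal.1 hx).1
  rcases lt_or_ge x.1 a with h2 | h2
  · rw [hf _ h2, zero_mul]
  · rcases lt_or_ge x.2 b with h3 | h3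
    · rw [hg _ h3, mul_zero]
    · exact absurd (Nat.mul_le_mul h2 h3) (by omega)

private theorem HB_vanish' {f g : ArithmeticFunction ℝ} {a b n : ℕ} (hf : ∀ m, a ≤ m → f m = 0)
    (hg : ∀ m, b ≤ m → g m = 0) (hn : a * b ≤ n) (hn0 : n ≠ 0) : (f * g) n = 0 := by
  rw [ArithmeticFunction.mul_apply]
  refine Finset.sum_eq_zero fun x hx => ?_
  have h1 : x.1 * x.2 = n := (Nat.mem_divisorsAntidiagonal.1 hx).1
  rcases lt_or_ge x.1 a with h2 | h2
  · rcases lt_or_ge x.2 b with h3 | h3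
    · exfalso
      have h4 : x.1 * x.2 ≤ x.1 * b := Nat.mul_le_mul_left _ h3.le
      have h5 : x.1 * b ≤ a * b := Nat.mul_le_mul_right _ h2.le
      have h6 : 0 < x.1 := by
        rcases Nat.eq_zero_or_pos x.1 with h | h
        · rw [h, zero_mul] at h1
          exact absurd h1.symm hn0
        · exact h
      have h7 : x.1 * x.2 < x.1 * b := Nat.mul_lt_mul_of_pos_left h3 h6
      omega
    · rw [hg _ h3, mul_zero]
  · rw [hf _ h2, zero_mul]

private theorem HB_three (f : ArithmeticFunction ℝ) : (3 : ℝ) • f = 3 * f := by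
  have h : (3 : ArithmeticFunction ℝ) * f = f + f + f := by ring
  rw [h]
  ext n
  simp only [ArithmeticFunction.add_apply]
  rw [show ((3 : ℝ) • f) n = 3 * f n from rfl]
  ring

private theorem HB_Z : hi 0 1 = ((ArithmeticFunction.zeta : ArithmeticFunction ℕ) :
    ArithmeticFunction ℝ) := by
  ext n
  rw [ArithmeticFunction.natCoe_apply, ArithmeticFunction.zeta_apply]
  show (if n ≠ 0 ∧ 1 ≤ n then kf 0 n else 0) = _
  by_cases hn : n = 0
  · simp [hn]
  · have : 1 ≤ n := Nat.one_le_iff_ne_zero.2 hn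
    simp [hn, this, kf]

private theorem HB_G : La * hi 0 1 = hi 1 1 := by
  rw [HB_Z]
  unfold La
  rw [ArithmeticFunction.vonMangoldt_mul_zeta]
  ext n
  rw [ArithmeticFunction.log_apply]
  show _ = (if n ≠ 0 ∧ 1 ≤ n then kf 1 n else 0)
  by_cases hn : n = 0
  · simp [hn]
  · have : 1 ≤ n := Nat.one_le_iff_ne_zero.2 hn
    simp [hn, this, kf]

private theorem HB_ZM (w n : ℕ) (hn : n < 2 ^ w) : (1 - hi 0 1 * seg 2 1 (2 ^ w)) n = 0 := by
  have h1 : (hi 0 1 * ((ArithmeticFunction.moebius : ArithmeticFunction ℤ) :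
      ArithmeticFunction ℝ)) = 1 := by
    rw [HB_Z]
    exact ArithmeticFunction.coe_zeta_mul_coe_moebius
  have h2 : (hi 0 1 * seg 2 1 (2 ^ w)) n = (1 : ArithmeticFunction ℝ) n := by
    rw [← h1, ArithmeticFunction.mul_apply, ArithmeticFunction.mul_apply]
    refine Finset.sum_congr rfl fun x hx => ?_
    obtain ⟨h3, h4⟩ := Nat.mem_divisorsAntidiagonal.1 hx
    congr 1
    have h5 : x.2 ≠ 0 := by
      intro h
      rw [h, mul_zero] at h3
      exact h4 h3.symm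
    have h6 : x.2 ∣ n := ⟨x.1, by rw [← h3, mul_comm]⟩
    have h7 : x.2 ≤ n := Nat.le_of_dvd (Nat.pos_of_ne_zero h4) h6
    rw [ArithmeticFunction.intCoe_apply]
    show (if x.2 ≠ 0 ∧ 1 ≤ x.2 ∧ x.2 < 2 ^ w then kf 2 x.2 else 0) = _
    rw [if_pos ⟨h5, Nat.one_le_iff_ne_zero.2 h5, lt_of_le_of_lt h7 hn⟩]
    simp [kf]
  have h3 : (1 - hi 0 1 * seg 2 1 (2 ^ w)) n =
      (1 : ArithmeticFunction ℝ) n - (hi 0 1 * seg 2 1 (2 ^ w)) n := rfl
  rw [h3, h2, sub_self]

private theorem HB_split (k : Fin 3) (Y : ℕ) : hi k 1 = hi k Y + seg k 1 Y := by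
  ext n
  rw [ArithmeticFunction.add_apply]
  show (if n ≠ 0 ∧ 1 ≤ n then kf k n else 0) =
    (if n ≠ 0 ∧ Y ≤ n then kf k n else 0) + (if n ≠ 0 ∧ 1 ≤ n ∧ n < Y then kf k n else 0)
  by_cases hn : n = 0
  · simp [hn]
  · have h1 : 1 ≤ n := Nat.one_le_iff_ne_zero.2 hn
    rcases lt_or_ge n Y with h2 | h2
    · simp [hn, h1, h2, not_le.2 h2]
    · simp [hn, h1, h2, not_lt.2 h2]

private theorem HB_T4 (y w : ℕ) : Tp k4 y w =
    seg 1 1 (2 ^ y) * seg 0 1 (2 ^ y) * seg 2 1 (2 ^ w) * seg 2 1 (2 ^ w) := by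
  unfold Tp
  rw [Fin.prod_univ_four]
  rfl

private theorem HB_T6 (y w : ℕ) : Tp k6 y w =
    seg 1 1 (2 ^ y) * seg 0 1 (2 ^ y) * seg 0 1 (2 ^ y) * seg 2 1 (2 ^ w) * seg 2 1 (2 ^ w) *
      seg 2 1 (2 ^ w) := by
  unfold Tp
  rw [Fin.prod_univ_six]
  rfl

theorem hb (y w n : ℕ) (h1 : n < (2 ^ w) ^ 3) (h2 : 2 ^ y * 2 ^ w ≤ n) :
    La n = (hi 1 (2 ^ y) * cA w) n + (hi 0 (2 ^ y) * cB y w) n
      - 3 * (Tp k4 y w) n + (Tp k6 y w) n := by
  set M := seg 2 1 (2 ^ w) with hM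
  set Z := hi 0 1 with hZ
  set Zh := hi 0 (2 ^ y) with hZh
  set Zl := seg 0 1 (2 ^ y) with hZl
  set g := seg 1 1 (2 ^ y) with hg
  set Gh := hi 1 (2 ^ y) with hGh
  have eZ : Z = Zh + Zl := HB_split 0 (2 ^ y)
  have eG : La * Z = Gh + g := by
    rw [hZ, HB_G]
    exact HB_split 1 (2 ^ y)
  have v1 : ∀ m < 2 ^ w, (1 - Z * M) m = 0 := fun m hm => HB_ZM w m hm
  have v2 : ∀ m < 2 ^ w * 2 ^ w, ((1 - Z * M) * (1 - Z * M)) m = 0 :=
    fun m hm => HB_vanish v1 v1 hm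
  have v3 : ∀ m < 2 ^ w * 2 ^ w * 2 ^ w, ((1 - Z * M) * (1 - Z * M) * (1 - Z * M)) m = 0 :=
    fun m hm => HB_vanish v2 v1 hm
  have v4 : (La * ((1 - Z * M) * (1 - Z * M) * (1 - Z * M))) n = 0 := by
    refine HB_vanish (a := 1) (b := 2 ^ w * 2 ^ w * 2 ^ w) ?_ v3 ?_
    · intro m hm
      have : m = 0 := by omega
      rw [this]
      exact ArithmeticFunction.map_zero
    · calc n < (2 ^ w) ^ 3 := h1
        _ = 1 * (2 ^ w * 2 ^ w * 2 ^ w) := by ring
  have hn0 : n ≠ 0 := by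
    have : 0 < 2 ^ y * 2 ^ w := by positivity
    omega
  have v5 : (g * M) n = 0 := by
    refine HB_vanish' (a := 2 ^ y) (b := 2 ^ w) ?_ ?_ h2 hn0
    · intro m hm
      show (if m ≠ 0 ∧ 1 ≤ m ∧ m < 2 ^ y then kf 1 m else 0) = 0
      rw [if_neg]
      rintro ⟨_, _, h⟩
      omega
    · intro m hm
      show (if m ≠ 0 ∧ 1 ≤ m ∧ m < 2 ^ w then kf 2 m else 0) = 0
      rw [if_neg]
      rintro ⟨_, _, h⟩
      omega
  have key : La = Gh * cA w + Zh * cB y w - 3 * Tp k4 y w + Tp k6 y w + 3 * (g * M) +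
      La * ((1 - Z * M) * (1 - Z * M) * (1 - Z * M)) := by
    have e1 : La * ((1 - Z * M) * (1 - Z * M) * (1 - Z * M)) =
        La - (La * Z) * (3 * M - 3 * (Z * M ^ 2) + Z ^ 2 * M ^ 3) := by ring
    have e2 : cA w = 3 * M - 3 * (Z * M ^ 2) + Z ^ 2 * M ^ 3 := by
      unfold cA
      rw [HB_three, HB_three]
    have e3 : cB y w = g * (Z + Zl) * M ^ 3 - 3 * (g * M ^ 2) := by
      unfold cB
      rw [HB_three]
    rw [e1, eG, HB_T4, HB_T6, e2, e3, eZ]
    ring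
  have e4 : ∀ f : ArithmeticFunction ℝ, (3 * f) n = 3 * f n := by
    intro f
    rw [← HB_three]
    rfl
  calc La n = (Gh * cA w + Zh * cB y w - 3 * Tp k4 y w + Tp k6 y w + 3 * (g * M) +
      La * ((1 - Z * M) * (1 - Z * M) * (1 - Z * M))) n := by rw [← key]
    _ = (Gh * cA w) n + (Zh * cB y w) n - (3 * Tp k4 y w) n + (Tp k6 y w) n + (3 * (g * M)) n +
      (La * ((1 - Z * M) * (1 - Z * M) * (1 - Z * M))) n := rfl
    _ = _ := by
      rw [e4, e4, v4, v5]
      ring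

end Pool.Agent.H88.PSI

end

section

/-!
# PSI Dy: dyadic decomposition of the truncated products

`lot k y w = ∑_{j < top k y w} pc k j` (every `1 ≤ n < 2^b` lies in exactly one `[2^j, 2^(j+1))`), then
`Finset.prod_univ_sum`.
-/

set_option autoImplicit false

namespace Pool.Agent.H88.PSI

open Finset

private theorem Dy_seg (k : Fin 3) (b : ℕ) :
    seg k 1 (2 ^ b) = ∑ j ∈ range b, pc k j := by
  induction b with
  | zero =>
    ext n
    rw [Finset.range_zero, Finset.sum_empty, ArithmeticFunction.zero_apply]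
    show (if n ≠ 0 ∧ 1 ≤ n ∧ n < 2 ^ 0 then kf k n else 0) = 0
    rw [if_neg]
    rw [pow_zero]
    omega
  | succ b ih =>
    rw [Finset.sum_range_succ, ← ih]
    ext n
    rw [ArithmeticFunction.add_apply]
    show (if n ≠ 0 ∧ 1 ≤ n ∧ n < 2 ^ (b + 1) then kf k n else 0) =
      (if n ≠ 0 ∧ 1 ≤ n ∧ n < 2 ^ b then kf k n else 0) +
      (if n ≠ 0 ∧ 2 ^ b ≤ n ∧ n < 2 ^ (b + 1) then kf k n else 0)
    have h0 : 0 < 2 ^ b := by positivity
    have h1 : 2 ^ (b + 1) = 2 * 2 ^ b := by ring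
    by_cases h : n < 2 ^ b
    · rw [if_neg (show ¬ (n ≠ 0 ∧ 2 ^ b ≤ n ∧ n < 2 ^ (b + 1)) by omega), add_zero]
      by_cases hn : n = 0
      · rw [if_neg (by omega), if_neg (by omega)]
      · rw [if_pos (by omega), if_pos (by omega)]
    · rw [if_neg (show ¬ (n ≠ 0 ∧ 1 ≤ n ∧ n < 2 ^ b) by omega), zero_add]
      by_cases hn : n < 2 ^ (b + 1)
      · rw [if_pos (by omega), if_pos (by omega)]
      · rw [if_neg (by omega), if_neg (by omega)]

theorem tp_dy {r : ℕ} (κ : Fin r → Fin 3) (y w : ℕ) :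
    Tp κ y w = ∑ j ∈ Fintype.piFinset (fun i => range (top (κ i) y w)), Pp κ j := by
  unfold Tp Pp lot
  simp only [Dy_seg]
  exact Finset.prod_univ_sum _ _

end Pool.Agent.H88.PSI

end

section

/-!
# E58 Bmp: a smooth bump and its Fourier transform

`ψ` = `ContDiffBump` centred at `1/2` with `rIn = 1/4`, `rOut = 3/8` (equal to `1` on `[1/4, 3/4]`, support in `(1/8, 7/8)`), values in `[0, 1]`.
As a Schwartz function `f` (`HasCompactSupport.toSchwartzMap` or by hand) let `g = 𝓕 f` (or `𝓕⁻`, so that the signs agree: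
`ψ v = ∫ g t ee(t v) dt` with `g t = ∫ ψ v ee(-(t v)) dv`): Fourier inversion for Schwartz functions.  `g` is Schwartz, so it is continuous,
integrable, has a bounded derivative (hence is Lipschitz) and `|t|^k ‖g t‖ ≤ C_k` (`SchwartzMap.decay`).
-/

set_option autoImplicit false

namespace Pool.Agent.H88.E58

theorem bmp : ∃ (ψ : ℝ → ℝ) (g : ℝ → ℂ), Bump ψ g := by
  obtain ⟨φ, hφ⟩ : ∃ φ : ContDiffBump (1 / 2 : ℝ), φ = ⟨1 / 4, 3 / 8, by norm_num, by norm_num⟩ := ⟨_, rfl⟩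
  have hin : φ.rIn = 1 / 4 := by rw [hφ]
  have hout : φ.rOut = 3 / 8 := by rw [hφ]
  have hcs : HasCompactSupport (fun v : ℝ => ((φ v : ℝ) : ℂ)) := φ.hasCompactSupport.comp_left (g := fun x : ℝ => (x : ℂ)) (by simp)
  have hcd : ContDiff ℝ (⊤ : ℕ∞) (fun v : ℝ => ((φ v : ℝ) : ℂ)) :=
    Complex.ofRealCLM.contDiff.comp (φ.contDiff (n := (⊤ : ℕ∞)))
  obtain ⟨S, hS⟩ : ∃ S : SchwartzMap ℝ ℂ, ∀ v, S v = ((φ v : ℝ) : ℂ) := ⟨hcs.toSchwartzMap hcd, fun v => rfl⟩
  obtain ⟨G, hG⟩ : ∃ G : SchwartzMap ℝ ℂ, G = FourierTransform.fourier S := ⟨_, rfl⟩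
  have hinv : FourierTransformInv.fourierInv G = S := by
    rw [hG]
    exact FourierTransform.fourierInv_fourier_eq S
  refine ⟨φ, G, ?_⟩
  refine ⟨fun v => φ.nonneg, fun v => φ.le_one, ?_, ?_, ?_, G.continuous, G.integrable, ?_, ?_, ?_⟩
  · intro v h1 h2
    apply φ.one_of_mem_closedBall
    rw [hin, Metric.mem_closedBall, Real.dist_eq, abs_le]
    constructor <;> linarith
  · intro v hv
    have h1 : v ∈ Function.support φ := hv
    rw [φ.support_eq, hout, Metric.mem_ball, Real.dist_eq, abs_lt] at h1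
    constructor <;> linarith [h1.1, h1.2]
  · obtain ⟨C, hC⟩ := ContDiff.lipschitzWith_of_hasCompactSupport φ.hasCompactSupport
      (φ.contDiff (n := 1)) one_ne_zero
    refine ⟨max C 1, le_max_right _ _, fun u v => ?_⟩
    have h1 := hC.dist_le_mul u v
    rw [Real.dist_eq, Real.dist_eq] at h1
    exact h1.trans (mul_le_mul_of_nonneg_right (le_max_left _ _) (abs_nonneg _))
  · intro v
    have h1 : S v = (FourierTransformInv.fourierInv G : SchwartzMap ℝ ℂ) v := by rw [hinv]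
    rw [← hS v, h1, SchwartzMap.fourierInv_coe, Real.fourierInv_eq']
    refine MeasureTheory.integral_congr_ae (Filter.Eventually.of_forall fun t => ?_)
    simp only [smul_eq_mul]
    rw [mul_comm]
    congr 1
    unfold Pool.Agent.H91.PK.ee
    congr 1
    simp only [RCLike.inner_apply, conj_trivial]
    push_cast
    ring
  · obtain ⟨C, hC0, hC⟩ := G.decay 0 1
    refine ⟨max C 1, le_max_right _ _, fun s t => ?_⟩
    have h1 : ∀ x ∈ (Set.univ : Set ℝ), ‖fderiv ℝ G x‖ ≤ C := by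
      intro x _
      have h2 := hC x
      rw [pow_zero, one_mul, norm_iteratedFDeriv_one] at h2
      exact h2
    have h2 := Convex.norm_image_sub_le_of_norm_fderiv_le (f := G) (fun x _ => G.differentiableAt) h1 convex_univ
      (Set.mem_univ t) (Set.mem_univ s)
    refine h2.trans ?_
    rw [Real.norm_eq_abs]
    exact mul_le_mul_of_nonneg_right (le_max_left _ _) (abs_nonneg _)
  · intro k
    obtain ⟨C, hC0, hC⟩ := G.decay k 0
    refine ⟨max C 1, le_max_right _ _, fun t => ?_⟩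
    have h2 := hC t
    rw [norm_iteratedFDeriv_zero, Real.norm_eq_abs] at h2
    rw [mul_comm]
    exact h2.trans (le_max_left _ _)

end Pool.Agent.H88.E58

end

section

/-!
# Project EP, module `CA` : the multiplicative functions `aa α`

`aa_mul`: for coprime `m, n`: `Squarefree (m*n) ↔ Squarefree m ∧ Squarefree n`
(`Nat.squarefree_mul`), `Nat.Coprime.primeFactors_mul` (disjoint union).
`aa_sum`: `x ≥ 0` supported on primes.  For every `N`,
`∑_{n ≤ N} aa x n ≤ ∑_{T ⊆ primes ≤ N} ∏_{p∈T} x p = ∏_{p ≤ N} (1 + x p) ≤ exp (∑ x)`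
(`n ↦ n.primeFactors` is injective on squarefree numbers; `Finset.prod_one_add`/`Finset.prod_add`).
`aa_sum_comp`: the terms with `n = 1` (value `1`) and `n` prime (value `x n`) removed: for `N ≥ 1`,
`∑_{n ≤ N, n ≠ 1, n not prime} aa x n ≤ ∏_{p≤N}(1 + x p) - 1 - ∑_{p≤N} x p ≤ E(S_N) ≤ E(S)` where
`E(s) = e^s - 1 - s` is nondecreasing on `[0,∞)`, `S_N = ∑_{p≤N} x p ≤ S`.
-/

set_option autoImplicit false

namespace Pool.Agent.H97.EP

theorem aa_zero (α : ℕ → ℝ) : aa α 0 = 0 := by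
  simp [aa, not_squarefree_zero]

theorem aa_one (α : ℕ → ℝ) : aa α 1 = 1 := by
  simp [aa]

theorem aa_prime (α : ℕ → ℝ) {p : ℕ} (hp : p.Prime) : aa α p = α p := by
  rw [aa, if_pos hp.prime.squarefree, hp.primeFactors, Finset.prod_singleton]

theorem aa_mul (α : ℕ → ℝ) {m n : ℕ} (h : Nat.Coprime m n) : aa α (m * n) = aa α m * aa α n := by
  unfold aa
  by_cases hm : Squarefree m
  · by_cases hn : Squarefree n
    · rw [if_pos ((Nat.squarefree_mul h).mpr ⟨hm, hn⟩), if_pos hm, if_pos hn,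
        h.primeFactors_mul, Finset.prod_union h.disjoint_primeFactors]
    · rw [if_neg (fun h' => hn ((Nat.squarefree_mul h).mp h').2), if_neg hn, mul_zero]
  · rw [if_neg (fun h' => hm ((Nat.squarefree_mul h).mp h').1), if_neg hm, zero_mul]

theorem aa_nonneg {x : ℕ → ℝ} (h0 : ∀ n, 0 ≤ x n) (n : ℕ) : 0 ≤ aa x n := by
  unfold aa
  split_ifs
  · exact Finset.prod_nonneg fun p _ => h0 p
  · exact le_rfl

theorem aa_abs_le_one {α : ℕ → ℝ} (h : ∀ n, |α n| ≤ 1) (n : ℕ) : |aa α n| ≤ 1 := by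
  unfold aa
  split_ifs
  · rw [Finset.abs_prod]
    exact Finset.prod_le_one (fun _ _ => abs_nonneg _) (fun p _ => h p)
  · simp

/-- `aa` of a product of functions. -/
theorem aa_mul_fun (x y : ℕ → ℝ) (n : ℕ) : aa (fun p => x p * y p) n = aa x n * aa y n := by
  unfold aa
  split_ifs
  · rw [Finset.prod_mul_distrib]
  · simp

/-- if `aa α n ≠ 0` then `n` is squarefree, `n ≠ 0` and `α p ≠ 0` for all `p ∣ n`. -/
theorem aa_ne_zero {α : ℕ → ℝ} {n : ℕ} (h : aa α n ≠ 0) :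
    Squarefree n ∧ n ≠ 0 ∧ ∀ p ∈ n.primeFactors, α p ≠ 0 := by
  unfold aa at h
  by_cases hs : Squarefree n
  · rw [if_pos hs] at h
    exact ⟨hs, hs.ne_zero, Finset.prod_ne_zero_iff.mp h⟩
  · exact absurd (if_neg hs) h

private theorem ca_range {x : ℕ → ℝ} (h0 : ∀ n, 0 ≤ x n) (N : ℕ) :
    ∑ n ∈ Finset.range N, aa x n ≤ Real.exp (∑ p ∈ (Finset.range N).filter Nat.Prime, x p) := by
  set P := (Finset.range N).filter Nat.Prime with hP
  have h1 : ∑ n ∈ Finset.range N, aa x n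
      = ∑ n ∈ (Finset.range N).filter Squarefree, ∏ p ∈ n.primeFactors, x p := by
    rw [Finset.sum_filter]
    rfl
  have hinj : Set.InjOn Nat.primeFactors
      (((Finset.range N).filter Squarefree : Finset ℕ) : Set ℕ) := by
    intro a ha b hb hab
    rw [Finset.mem_coe, Finset.mem_filter] at ha hb
    rw [← Nat.prod_primeFactors_of_squarefree ha.2, ← Nat.prod_primeFactors_of_squarefree hb.2,
      hab]
  have h2 : ∑ n ∈ (Finset.range N).filter Squarefree, ∏ p ∈ n.primeFactors, x p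
      = ∑ T ∈ ((Finset.range N).filter Squarefree).image Nat.primeFactors, ∏ p ∈ T, x p := by
    rw [Finset.sum_image hinj]
  have h3 : ((Finset.range N).filter Squarefree).image Nat.primeFactors ⊆ P.powerset := by
    intro T hT
    rw [Finset.mem_image] at hT
    obtain ⟨n, hn, rfl⟩ := hT
    rw [Finset.mem_powerset]
    intro p hp
    rw [Finset.mem_filter, Finset.mem_range] at hn
    rw [hP, Finset.mem_filter, Finset.mem_range]
    exact ⟨(Nat.le_of_mem_primeFactors hp).trans_lt hn.1, Nat.prime_of_mem_primeFactors hp⟩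
  rw [h1, h2]
  calc ∑ T ∈ ((Finset.range N).filter Squarefree).image Nat.primeFactors, ∏ p ∈ T, x p
      ≤ ∑ T ∈ P.powerset, ∏ p ∈ T, x p :=
        Finset.sum_le_sum_of_subset_of_nonneg h3 (fun T _ _ => Finset.prod_nonneg fun p _ => h0 p)
    _ = ∏ p ∈ P, (1 + x p) := (Finset.prod_one_add P).symm
    _ ≤ ∏ p ∈ P, Real.exp (x p) := by
        apply Finset.prod_le_prod
        · intro p _
          have := h0 p
          linarith
        · intro p _
          have := Real.add_one_le_exp (x p)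
          linarith
    _ = Real.exp (∑ p ∈ P, x p) := (Real.exp_sum _ _).symm

theorem aa_sum {x : ℕ → ℝ} (h0 : ∀ n, 0 ≤ x n) (hp : ∀ n, x n ≠ 0 → n.Prime) (hs : Summable x) :
    Summable (aa x) ∧ ∑' n, aa x n ≤ Real.exp (∑' n, x n) := by
  have h : ∀ N, ∑ n ∈ Finset.range N, aa x n ≤ Real.exp (∑' n, x n) := by
    intro N
    refine (ca_range h0 N).trans (Real.exp_le_exp.mpr ?_)
    exact hs.sum_le_tsum _ (fun n _ => h0 n)
  exact ⟨summable_of_sum_range_le (aa_nonneg h0) h,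
    Real.tsum_le_of_sum_range_le (aa_nonneg h0) h⟩

end Pool.Agent.H97.EP

end

section

/-!
# Project EP, module `CK` : the Euler product in exponential form

`α` supported on primes, `|α| ≤ 1`.  `b n = (-1)^{k+1} α(p)^k / k` if `n = p^k` (`k ≥ 1`, `p` prime;
`p = n.minFac`, `k = n.factorization p`), `b n = 0` otherwise; `|b n| ≤ 1`.
For `Re s > 1` both `LSeries` converge absolutely (`|aa α n| ≤ 1`).  The function
`f n = aa α n n^{-s}` (`f 0 = 0`, `f 1 = 1`, `f (m n) = f m f n` for coprime `m, n`) is absolutely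
summable, so `EulerProduct.eulerProduct_hasProd` gives `∑ f n = ∏_p ∑_k f (p^k)`, and
`∑_k f(p^k) = 1 + α p p^{-s}` (`p^k` is not squarefree for `k ≥ 2`).  With `z = α p p^{-s}`,
`|z| ≤ 1/2^{Re s} < 1`: `1 + z = exp (∑_{k≥1} (-1)^{k+1} z^k/k)` (`Complex.hasSum_taylorSeries_log`,
`Complex.exp_log`), and `∑_p ∑_{k≥1} b(p^k) p^{-ks} = LSeries b s` (sum over prime powers; Mathlib:
`Nat.Primes.prodNatEquiv`, used for the von Mangoldt function / `riemannZeta` Euler product in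
logarithmic form, `ArithmeticFunction.LSeries...`; `Summable.tsum_sigma`).  Conclude with
`exp (∑_p g p) = ∏_p exp (g p)` (`Complex.exp` of a `HasSum` is a `HasProd`: `HasSum.cexp`), and
uniqueness of products.
-/

set_option autoImplicit false

namespace Pool.Agent.H97.EP

open Classical in
/-- the coefficients of the logarithm -/
private noncomputable def ck_b (α : ℕ → ℝ) (n : ℕ) : ℂ :=
  if IsPrimePow n then
    (-1) ^ (n.factorization n.minFac + 1) * ((α n.minFac : ℝ) : ℂ) ^ (n.factorization n.minFac) /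
      (n.factorization n.minFac : ℂ)
  else 0

private theorem ck_b_pow (α : ℕ → ℝ) {p : ℕ} (hp : p.Prime) (k : ℕ) :
    ck_b α (p ^ (k + 1)) = (-1) ^ (k + 1 + 1) * ((α p : ℝ) : ℂ) ^ (k + 1) / ((k + 1 : ℕ) : ℂ) := by
  have h1 : IsPrimePow (p ^ (k + 1)) := hp.isPrimePow.pow (Nat.succ_ne_zero k)
  have h2 : (p ^ (k + 1)).minFac = p := hp.pow_minFac (Nat.succ_ne_zero k)
  have h3 : (p ^ (k + 1)).factorization p = k + 1 := by
    rw [hp.factorization_pow, Finsupp.single_eq_same]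
  unfold ck_b
  rw [if_pos h1, h2, h3]

private theorem ck_b_norm {α : ℕ → ℝ} (h1 : ∀ n, |α n| ≤ 1) (n : ℕ) : ‖ck_b α n‖ ≤ 1 := by
  unfold ck_b
  split_ifs with h
  · have h2 : ‖((α n.minFac : ℝ) : ℂ)‖ ≤ 1 := by
      rw [Complex.norm_real, Real.norm_eq_abs]
      exact h1 _
    rw [norm_div, norm_mul, norm_pow, norm_neg, norm_one, one_pow, one_mul, norm_pow]
    have h3 : ‖((α n.minFac : ℝ) : ℂ)‖ ^ n.factorization n.minFac ≤ 1 :=
      pow_le_one₀ (norm_nonneg _) h2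
    have h4 : (1 : ℝ) ≤ ‖((n.factorization n.minFac : ℕ) : ℂ)‖ := by
      rw [Complex.norm_natCast]
      have h5 : n.factorization n.minFac ≠ 0 := by
        have hn1 : n ≠ 1 := h.ne_one
        have hn0 : n ≠ 0 := h.ne_zero
        have hp : n.minFac.Prime := Nat.minFac_prime hn1
        exact (hp.factorization_pos_of_dvd hn0 (Nat.minFac_dvd n)).ne'
      exact_mod_cast Nat.one_le_iff_ne_zero.mpr h5
    rw [div_le_one (by linarith)]
    exact h3.trans h4
  · simp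

private theorem ck_pow (p k : ℕ) (s : ℂ) : ((p ^ k : ℕ) : ℂ) ^ s = ((p : ℂ) ^ s) ^ k := by
  rw [Nat.cast_pow, ← Complex.natCast_cpow_natCast_mul, Complex.cpow_nat_mul]

private theorem ck_z {α : ℕ → ℝ} (h1 : ∀ n, |α n| ≤ 1) {s : ℂ} (hs : 1 < s.re) {p : ℕ}
    (hp : p.Prime) : ‖((α p : ℝ) : ℂ) / (p : ℂ) ^ s‖ < 1 := by
  have h2 : ‖((α p : ℝ) : ℂ)‖ ≤ 1 := by
    rw [Complex.norm_real, Real.norm_eq_abs]
    exact h1 _
  have h3 : 1 < ‖(p : ℂ) ^ s‖ := by
    rw [Complex.norm_natCast_cpow_of_pos hp.pos]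
    exact Real.one_lt_rpow (by exact_mod_cast hp.one_lt) (by linarith)
  rw [norm_div, div_lt_one (by linarith)]
  linarith

private theorem ck_local {α : ℕ → ℝ} (h1 : ∀ n, |α n| ≤ 1) {s : ℂ} (hs : 1 < s.re) {p : ℕ}
    (hp : p.Prime) :
    ∑' k : ℕ, LSeries.term (ck_b α) s (p ^ (k + 1))
      = Complex.log (1 + ((α p : ℝ) : ℂ) / (p : ℂ) ^ s) := by
  have h := Complex.hasSum_taylorSeries_log (ck_z h1 hs hp)
  have h2 := (hasSum_nat_add_iff' 1).mpr h
  simp only [Finset.sum_range_one, pow_zero, Nat.cast_zero, div_zero, sub_zero] at h2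
  rw [← h2.tsum_eq]
  apply tsum_congr
  intro k
  rw [LSeries.term_of_ne_zero (pow_ne_zero _ hp.ne_zero), ck_b_pow α hp, ck_pow, div_pow]
  ring

private theorem ck_euler_factor (α : ℕ → ℝ) {s : ℂ} {p : ℕ}
    (hp : p.Prime) :
    ∑' e : ℕ, LSeries.term (fun n => ((aa α n : ℝ) : ℂ)) s (p ^ e)
      = 1 + ((α p : ℝ) : ℂ) / (p : ℂ) ^ s := by
  rw [tsum_eq_sum (s := Finset.range 2)]
  · rw [Finset.sum_range_succ, Finset.sum_range_one, pow_zero, pow_one,
      LSeries.term_of_ne_zero one_ne_zero, LSeries.term_of_ne_zero hp.ne_zero, aa_one,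
      aa_prime α hp]
    simp
  · intro e he
    rw [Finset.mem_range, not_lt] at he
    rw [LSeries.term_of_ne_zero (pow_ne_zero _ hp.ne_zero)]
    have h : ¬ Squarefree (p ^ e) := by
      intro h
      have := (Nat.squarefree_pow_iff hp.ne_one (by omega)).mp h
      omega
    simp [aa, h]

theorem aa_euler {α : ℕ → ℝ} (hα : ∀ n, α n ≠ 0 → n.Prime) (h1 : ∀ n, |α n| ≤ 1) :
    ∃ b : ℕ → ℂ, (∀ n, ¬ IsPrimePow n → b n = 0) ∧ (∀ n, ‖b n‖ ≤ 1) ∧
      ∀ s : ℂ, 1 < s.re →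
        LSeries (fun n => ((aa α n : ℝ) : ℂ)) s = Complex.exp (LSeries b s) := by
  refine ⟨ck_b α, fun n hn => by unfold ck_b; rw [if_neg hn], ck_b_norm h1, ?_⟩
  intro s hs
  have hsf : LSeriesSummable (fun n => ((aa α n : ℝ) : ℂ)) s := by
    apply LSeriesSummable_of_bounded_of_one_lt_re (m := 1) _ hs
    intro n _
    rw [Complex.norm_real, Real.norm_eq_abs]
    exact aa_abs_le_one h1 n
  have hsb : LSeriesSummable (ck_b α) s := by
    apply LSeriesSummable_of_bounded_of_one_lt_re (m := 1) _ hs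
    intro n _
    exact ck_b_norm h1 n
  set f : ℕ → ℂ := LSeries.term (fun n => ((aa α n : ℝ) : ℂ)) s with hf
  set g : ℕ → ℂ := LSeries.term (ck_b α) s with hg
  have hf0 : f 0 = 0 := LSeries.term_zero _ _
  have hf1 : f 1 = 1 := by
    rw [hf, LSeries.term_of_ne_zero one_ne_zero, aa_one]
    simp
  have hfm : ∀ {m n : ℕ}, m.Coprime n → f (m * n) = f m * f n := by
    intro m n hmn
    rcases eq_or_ne m 0 with rfl | hm
    · rw [zero_mul, hf0, zero_mul]
    rcases eq_or_ne n 0 with rfl | hn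
    · rw [mul_zero, hf0, mul_zero]
    rw [hf, LSeries.term_of_ne_zero (mul_ne_zero hm hn), LSeries.term_of_ne_zero hm,
      LSeries.term_of_ne_zero hn, aa_mul α hmn]
    push_cast
    rw [Complex.natCast_mul_natCast_cpow]
    field_simp
  have hprod := EulerProduct.eulerProduct_hasProd hf1 hfm hsf.norm hf0
  have hgs : Summable (fun p : Nat.Primes => ∑' k : ℕ, g ((p : ℕ) ^ (k + 1))) := by
    have h2 : Summable (fun pk : Nat.Primes × ℕ => g ((pk.1 : ℕ) ^ (pk.2 + 1))) := by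
      have h3 := Summable.comp_injective (f := g) hsb
        (Subtype.val_injective.comp Nat.Primes.prodNatEquiv.injective)
      refine h3.congr ?_
      intro pk
      rfl
    exact h2.prod
  have hsupp : Function.support g ⊆ {n | IsPrimePow n} := by
    intro n hn
    rw [Function.mem_support] at hn
    by_contra h
    apply hn
    rw [Set.mem_setOf_eq] at h
    rcases eq_or_ne n 0 with rfl | hn0
    · exact LSeries.term_zero _ _
    · rw [hg, LSeries.term_of_ne_zero hn0]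
      have : ck_b α n = 0 := by
        unfold ck_b
        rw [if_neg h]
      rw [this, zero_div]
  have hsum : LSeries (ck_b α) s = ∑' p : Nat.Primes, ∑' k : ℕ, g ((p : ℕ) ^ (k + 1)) :=
    tsum_eq_tsum_primes_of_support_subset_prime_powers hsb hsupp
  have hexp := hgs.hasSum.cexp
  rw [← hsum] at hexp
  have heq : (Complex.exp ∘ fun p : Nat.Primes => ∑' k : ℕ, g ((p : ℕ) ^ (k + 1)))
      = fun p : Nat.Primes => ∑' e : ℕ, f ((p : ℕ) ^ e) := by
    funext p
    rw [Function.comp_apply, hg, ck_local h1 hs p.prop, hf, ck_euler_factor α p.prop,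
      Complex.exp_log]
    intro h0
    have h2 := ck_z h1 hs p.prop
    have h3 : ((α (p : ℕ) : ℝ) : ℂ) / ((p : ℕ) : ℂ) ^ s = -1 := by
      linear_combination h0
    rw [h3, norm_neg, norm_one] at h2
    exact lt_irrefl _ h2
  rw [heq] at hexp
  exact hprod.unique hexp

end Pool.Agent.H97.EP

end

section

/-!
# Project EP, module `CG` : the test functions, elementary facts

`pr w f u` is linear in `f` (`Finsupp.sum_add_index'`, `Finsupp.sum_smul_index`), and decays: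
`e^{-tu} ≤ C_{t,M} u^{-M}` for `u > 0`.  For `d > 2`, `Q > 0`: `nd d Q n = (n/Q)^{2/d}`,
`|pr w f (nd d Q n)| ≤ C (nd d Q n)^{-d} = C (n/Q)^{-2}` for `n ≥ 1`, summable
(compare `Pool/Agent/H97/SD/Dec.lean`, the complex version).
`pr_single`: `Finsupp.sum_single_index`.
-/

set_option autoImplicit false

namespace Pool.Agent.H97.EP

theorem pr_add_g (w : ℝ) (f g : VR) (u : ℝ) : pr w (f + g) u = pr w f u + pr w g u := by
  unfold pr
  exact Finsupp.sum_add_index' (fun t => zero_mul _) (fun t a b => add_mul a b _)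

theorem pr_smul_g (w : ℝ) (r : ℝ) (f : VR) (u : ℝ) : pr w (r • f) u = r * pr w f u := by
  unfold pr
  rw [Finsupp.sum_smul_index (fun t => zero_mul _), Finsupp.mul_sum]
  exact Finsupp.sum_congr fun t _ => mul_assoc _ _ _

theorem pr_single (w : ℝ) (t : {t : ℝ // 0 < t}) (c : ℝ) (u : ℝ) :
    pr w (Finsupp.single t c) u =
      c * (Real.exp (-(t.1 * u)) - t.1 ^ (-w) * Real.exp (-(u / t.1))) := by
  unfold pr
  rw [Finsupp.sum_single_index (zero_mul _)]

private theorem cg_exp_summable {d Q : ℝ} (hd : 2 < d) (hQ : 0 < Q) {t : ℝ} (ht : 0 < t) :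
    Summable fun n : ℕ => Real.exp (-(t * nd d Q n)) := by
  obtain ⟨k, hk⟩ := exists_nat_gt d
  have hd0 : 0 < d := by linarith
  have hp : 1 < 2 / d * k := by
    rw [div_mul_eq_mul_div, lt_div_iff₀ hd0]
    linarith
  rw [← summable_nat_add_iff 1]
  have hs : Summable fun n : ℕ => ((n + 1 : ℕ) : ℝ) ^ (-(2 / d * k)) := by
    rw [summable_nat_add_iff (f := fun n : ℕ => (n : ℝ) ^ (-(2 / d * k))) 1]
    exact Real.summable_nat_rpow.2 (by linarith)
  refine Summable.of_nonneg_of_le (fun n => (Real.exp_pos _).le) (fun n => ?_)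
    (hs.mul_left ((k.factorial : ℝ) * (t ^ k)⁻¹ * Q ^ (2 / d * k)))
  have hn : (0 : ℝ) < ((n + 1 : ℕ) : ℝ) := by positivity
  have hu : 0 < nd d Q (n + 1) := Real.rpow_pos_of_pos (div_pos hn hQ) _
  have hy : 0 < t * nd d Q (n + 1) := mul_pos ht hu
  have h1 := Real.pow_div_factorial_le_exp _ hy.le k
  rw [Real.exp_neg]
  have hfac : (0 : ℝ) < k.factorial := by exact_mod_cast Nat.factorial_pos k
  have h2 : (Real.exp (t * nd d Q (n + 1)))⁻¹ ≤ ((t * nd d Q (n + 1)) ^ k / k.factorial)⁻¹ :=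
    inv_anti₀ (by positivity) h1
  refine h2.trans (le_of_eq ?_)
  have h3 : nd d Q (n + 1) ^ k = ((n + 1 : ℕ) : ℝ) ^ (2 / d * k) * (Q ^ (2 / d * k))⁻¹ := by
    unfold nd
    rw [← Real.rpow_natCast, ← Real.rpow_mul (div_pos hn hQ).le, Real.div_rpow hn.le hQ.le,
      div_eq_mul_inv]
  rw [inv_div, mul_pow, h3, Real.rpow_neg hn.le]
  have h4 : (0 : ℝ) < ((n + 1 : ℕ) : ℝ) ^ (2 / d * (k : ℝ)) := Real.rpow_pos_of_pos hn _
  have h5 : (0 : ℝ) < Q ^ (2 / d * (k : ℝ)) := Real.rpow_pos_of_pos hQ _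
  have h6 : (0 : ℝ) < t ^ k := pow_pos ht k
  field_simp

private theorem cg_pr_summable {d Q : ℝ} (hd : 2 < d) (hQ : 0 < Q) (w : ℝ) (f : VR) :
    Summable fun n : ℕ => pr w f (nd d Q n) := by
  unfold pr
  simp only [Finsupp.sum]
  refine summable_sum fun t _ => ?_
  refine Summable.mul_left _ ?_
  refine (cg_exp_summable hd hQ t.2).sub (Summable.mul_left _ ?_)
  have h1 := cg_exp_summable hd hQ (inv_pos.2 t.2)
  refine h1.congr fun n => ?_
  rw [inv_mul_eq_div]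

theorem pr_nd_summable {d Q : ℝ} (hd : 2 < d) (hQ : 0 < Q) (w : ℝ) (f : VR) :
    Summable fun n : ℕ => |pr w f (nd d Q n)| :=
  (cg_pr_summable hd hQ w f).abs

private theorem cg_a_summable {d Q : ℝ} (hd : 2 < d) (hQ : 0 < Q) (a : ℕ → ℝ)
    (ha : ∀ n, |a n| ≤ 1) (w : ℝ) (f : VR) :
    Summable fun n : ℕ => a n * pr w f (nd d Q n) := by
  refine Summable.of_norm_bounded (pr_nd_summable hd hQ w f) fun n => ?_
  rw [Real.norm_eq_abs, abs_mul]
  exact mul_le_of_le_one_left (abs_nonneg _) (ha n)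

/-- The functional `f ↦ ∑ a(n) p(u_n)` for bounded `a`. -/
noncomputable def Rf {d Q : ℝ} (hd : 2 < d) (hQ : 0 < Q) (a : ℕ → ℝ) (ha : ∀ n, |a n| ≤ 1) :
    VR →ₗ[ℝ] ℝ where
  toFun f := ∑' n : ℕ, a n * pr (d / 2) f (nd d Q n)
  map_add' f g := by
    rw [← (cg_a_summable hd hQ a ha _ f).tsum_add (cg_a_summable hd hQ a ha _ g)]
    exact tsum_congr fun n => by rw [pr_add_g, mul_add]
  map_smul' r f := by
    rw [RingHom.id_apply, smul_eq_mul, ← tsum_mul_left]
    exact tsum_congr fun n => by rw [pr_smul_g]; ring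

theorem Rf_apply {d Q : ℝ} (hd : 2 < d) (hQ : 0 < Q) (a : ℕ → ℝ) (ha : ∀ n, |a n| ≤ 1) (f : VR) :
    Rf hd hQ a ha f = ∑' n : ℕ, a n * pr (d / 2) f (nd d Q n) := rfl

/-- for large `Q` the condition `h ≤ u_n` forces `3 ≤ n`. -/
theorem nd_three {d h : ℝ} (hd : 2 < d) (hh : 0 < h) : ∃ Q0 : ℝ, 1 ≤ Q0 ∧ ∀ Q : ℝ, Q0 ≤ Q →
    ∀ n : ℕ, h ≤ nd d Q n → 3 ≤ n := by
  have hp : 0 < h ^ (d / 2) := Real.rpow_pos_of_pos hh _
  have hd0 : 0 < d := by linarith
  refine ⟨max 1 (3 / h ^ (d / 2)), le_max_left _ _, fun Q hQ n hn => ?_⟩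
  have hQ1 : 1 ≤ Q := (le_max_left _ _).trans hQ
  have hQ2 : 3 / h ^ (d / 2) ≤ Q := (le_max_right _ _).trans hQ
  have hQ0 : 0 < Q := by linarith
  have h1 : h ^ (d / 2) ≤ n / Q := by
    have h2 := Real.rpow_le_rpow hh.le hn (by positivity : 0 ≤ d / 2)
    refine h2.trans (le_of_eq ?_)
    unfold nd
    rw [← Real.rpow_mul (by positivity)]
    have h3 : 2 / d * (d / 2) = 1 := by field_simp
    rw [h3, Real.rpow_one]
  rw [le_div_iff₀ hQ0] at h1
  rw [div_le_iff₀ hp] at hQ2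
  have h4 : (3 : ℝ) ≤ n := by nlinarith
  exact_mod_cast h4

end Pool.Agent.H97.EP

end

section

/-!
# Project SD : Dirichlet series with a functional equation of every degree `d > 2`

Definitions.  (helper97, MP_e68f0a_nt)
-/

set_option autoImplicit false
open MeasureTheory Set
open scoped ENNReal

namespace Pool.Agent.H97.SD

/-- The node `(m/Q)^{2/d}`. -/
noncomputable def nd (d Q : ℝ) (m : ℕ) : ℝ := ((m : ℝ) / Q) ^ (2 / d)

/-- The theta function `∑ a(n) u_n^ρ e^{-t u_n}`. -/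
noncomputable def Th (d Q rho : ℝ) (a : ℕ → ℂ) (t : ℝ) : ℂ :=
  ∑' n : ℕ, a n * ((nd d Q n ^ rho * Real.exp (-(nd d Q n * t)) : ℝ) : ℂ)

end Pool.Agent.H97.SD

end

section

/-!
# Project EP, module `CJ` : convergence, theta identity

`aa_conv`: `κ = 2/d`, `x n = α n^2 n^{-κ}` is supported on primes, so `∑ aa x n < ∞` (`aa_sum`), and
`aa x n = aa(α) n ^2 n^{-κ}` for squarefree `n` (`∏_{p|n} p = n`; `aa x n = 0` otherwise, where also
`aa α n = 0`).  `|aa α n| n^{-σ} ≤ (aa(α)(n)^2 n^{-κ} + n^{κ-2σ})/2`, `2σ - κ > 1`.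
`aa_theta`: apply the hypothesis to `f = single t 1`: `pr_single`; both series
`∑ aa α n e^{-t u_n}`, `∑ aa α n e^{-u_n/t}` converge absolutely (`|aa α| ≤ 1`; `u_n = (n/Q)^{2/d}`,
`e^{-c u} ≤ C u^{-d}`), everything is real so the conjugation does nothing, `nd^0 = 1`
(`Real.rpow_zero`), `Pool.Agent.H97.SD.nd d Q n = nd d Q n` by definition.
-/

set_option autoImplicit false

namespace Pool.Agent.H97.EP

private lemma cj_exp {d Q c : ℝ} (hd : 2 < d) (hQ : 0 < Q) (hc : 0 < c) :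
    Summable fun n : ℕ => Real.exp (-(c * nd d Q n)) := by
  obtain ⟨N, hN⟩ := exists_nat_gt (d / 2)
  have hd0 : 0 < d := by linarith
  have hk : 1 < 2 / d * N := by
    rw [div_mul_eq_mul_div, lt_div_iff₀ hd0]
    linarith
  rw [← summable_nat_add_iff 1]
  have hs : Summable fun n : ℕ => ((n + 1 : ℕ) : ℝ) ^ (-(2 / d * N)) := by
    have h := Real.summable_nat_rpow.2 (show -(2 / d * (N : ℝ)) < -1 by linarith)
    exact (summable_nat_add_iff 1).2 h
  refine Summable.of_nonneg_of_le (fun n => (Real.exp_pos _).le) (fun n => ?_)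
    (hs.mul_left ((N.factorial : ℝ) * (c ^ N)⁻¹ * Q ^ (2 / d * N)))
  have hn : (0 : ℝ) < ((n + 1 : ℕ) : ℝ) := by positivity
  set x : ℝ := c * nd d Q (n + 1) with hx
  have hnd : 0 < nd d Q (n + 1) := Real.rpow_pos_of_pos (by positivity) _
  have hxp : 0 < x := mul_pos hc hnd
  have h1 := Real.pow_div_factorial_le_exp x hxp.le N
  have h2 : Real.exp (-x) ≤ N.factorial / x ^ N := by
    rw [Real.exp_neg, inv_le_comm₀ (Real.exp_pos _) (by positivity), inv_div]
    exact h1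
  refine h2.trans (le_of_eq ?_)
  have h3 : x ^ N = c ^ N * ((((n + 1 : ℕ) : ℝ) ^ (2 / d * N)) / Q ^ (2 / d * N)) := by
    rw [hx, mul_pow, nd, ← Real.rpow_natCast (_ ^ (2 / d)) N, ← Real.rpow_mul (by positivity),
      Real.div_rpow hn.le hQ.le]
  rw [h3, Real.rpow_neg hn.le]
  have h4 : (0 : ℝ) < ((n + 1 : ℕ) : ℝ) ^ (2 / d * N) := Real.rpow_pos_of_pos hn _
  have h5 : 0 < Q ^ (2 / d * N) := Real.rpow_pos_of_pos hQ _
  field_simp

private lemma cj_sum {d Q c : ℝ} (hd : 2 < d) (hQ : 0 < Q) (hc : 0 < c) {a : ℕ → ℝ}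
    (ha : ∀ n, |a n| ≤ 1) : Summable fun n : ℕ => a n * Real.exp (-(c * nd d Q n)) := by
  refine Summable.of_norm_bounded (cj_exp hd hQ hc) fun n => ?_
  rw [Real.norm_eq_abs, abs_mul, abs_of_pos (Real.exp_pos _)]
  exact mul_le_of_le_one_left (Real.exp_pos _).le (ha n)

private lemma cj_aa_rpow {e : ℝ} {n : ℕ} (hn : Squarefree n) :
    aa (fun p => (p : ℝ) ^ e) n = (n : ℝ) ^ e := by
  rw [aa, if_pos hn, Real.finsetProd_rpow _ _ (fun p _ => Nat.cast_nonneg p), ← Nat.cast_prod,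
    Nat.prod_primeFactors_of_squarefree hn]

theorem aa_conv {d : ℝ} (hd : 2 < d) {α : ℕ → ℝ} (hα : ∀ n, α n ≠ 0 → n.Prime ∧ 3 ≤ n)
    (hs : Summable fun n : ℕ => α n ^ 2 * (n : ℝ) ^ (-(2 / d))) {σ : ℝ}
    (hσ : 1 / 2 + 1 / d < σ) : Summable fun n : ℕ => |aa α n| * (n : ℝ) ^ (-σ) := by
  have hx : Summable (aa fun n : ℕ => α n ^ 2 * (n : ℝ) ^ (-(2 / d))) := by
    refine (aa_sum (fun n => by positivity) (fun n hn => ?_) hs).1
    have : α n ≠ 0 := by
      rintro h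
      exact hn (by rw [h]; ring)
    exact (hα n this).1
  have hy : Summable fun n : ℕ => (n : ℝ) ^ (2 / d - 2 * σ) := by
    refine Real.summable_nat_rpow.2 ?_
    have : 2 / d = 2 * (1 / d) := by ring
    rw [this]
    linarith
  refine Summable.of_nonneg_of_le (fun n => by positivity) (fun n => ?_)
    ((hx.add hy).mul_left (1 / 2))
  by_cases hn : Squarefree n
  · have hn0 : 0 < (n : ℝ) := by exact_mod_cast Nat.pos_of_ne_zero hn.ne_zero
    have e1 : aa (fun n : ℕ => α n ^ 2 * (n : ℝ) ^ (-(2 / d))) n =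
        (|aa α n| * (n : ℝ) ^ (-(1 / d))) ^ 2 := by
      rw [aa_mul_fun (fun n => α n ^ 2) (fun n => (n : ℝ) ^ (-(2 / d))), cj_aa_rpow hn]
      have e2 : aa (fun n => α n ^ 2) n = aa α n ^ 2 := by
        rw [sq, ← aa_mul_fun]
        congr 1
        funext p
        ring
      rw [e2, mul_pow, sq_abs, ← Real.rpow_natCast (_ ^ (-(1 / d))) 2, ← Real.rpow_mul hn0.le]
      congr 2
      push_cast
      ring
    have e3 : (n : ℝ) ^ (2 / d - 2 * σ) = ((n : ℝ) ^ (1 / d - σ)) ^ 2 := by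
      rw [← Real.rpow_natCast (_ ^ (1 / d - σ)) 2, ← Real.rpow_mul hn0.le]
      congr 1
      push_cast
      ring
    have e4 : |aa α n| * (n : ℝ) ^ (-σ) =
        (|aa α n| * (n : ℝ) ^ (-(1 / d))) * (n : ℝ) ^ (1 / d - σ) := by
      rw [mul_assoc, ← Real.rpow_add hn0]
      congr 2
      ring
    rw [e1, e3, e4]
    nlinarith [sq_nonneg (|aa α n| * (n : ℝ) ^ (-(1 / d)) - (n : ℝ) ^ (1 / d - σ))]
  · have e1 : aa α n = 0 := by rw [aa, if_neg hn]
    have e2 : aa (fun n : ℕ => α n ^ 2 * (n : ℝ) ^ (-(2 / d))) n = 0 := by rw [aa, if_neg hn]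
    rw [e1, e2, abs_zero, zero_mul, zero_add]
    positivity

theorem aa_theta {d Q : ℝ} (hd : 2 < d) (hQ : 0 < Q) {α : ℕ → ℝ} (h1 : ∀ n, |α n| ≤ 1)
    (h : ∀ f : VR, ∑' n : ℕ, aa α n * pr (d / 2) f (nd d Q n) = 0) {t : ℝ} (ht : 0 < t) :
    SD.Th d Q 0 (fun n => ((aa α n : ℝ) : ℂ)) t =
      ((t ^ (-(d / 2 + 2 * (0 : ℝ))) : ℝ) : ℂ) *
        (starRingEnd ℂ) (SD.Th d Q 0 (fun n => ((aa α n : ℝ) : ℂ)) (1 / t)) := by
  have hTh : ∀ s : ℝ, SD.Th d Q 0 (fun n => ((aa α n : ℝ) : ℂ)) s =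
      ((∑' n : ℕ, aa α n * Real.exp (-(s * nd d Q n)) : ℝ) : ℂ) := by
    intro s
    rw [SD.Th, Complex.ofReal_tsum]
    refine tsum_congr fun n => ?_
    have : SD.nd d Q n = nd d Q n := rfl
    rw [this, Real.rpow_zero, one_mul, mul_comm (nd d Q n) s]
    push_cast
    ring
  rw [hTh, hTh, Complex.conj_ofReal, ← Complex.ofReal_mul]
  congr 1
  have ha := aa_abs_le_one h1
  have hs1 := cj_sum hd hQ ht ha
  have hs2 := cj_sum hd hQ (one_div_pos.2 ht) ha
  have h2 := h (Finsupp.single ⟨t, ht⟩ 1)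
  have h3 : ∀ n : ℕ, aa α n * pr (d / 2) (Finsupp.single ⟨t, ht⟩ 1) (nd d Q n) =
      aa α n * Real.exp (-(t * nd d Q n)) -
        t ^ (-(d / 2)) * (aa α n * Real.exp (-(1 / t * nd d Q n))) := by
    intro n
    rw [pr_single]
    have : nd d Q n / t = 1 / t * nd d Q n := by ring
    simp only
    rw [this]
    ring
  simp_rw [h3] at h2
  rw [hs1.tsum_sub (hs2.mul_left _), tsum_mul_left] at h2
  have h4 : -(d / 2 + 2 * (0 : ℝ)) = -(d / 2) := by ring
  rw [h4]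
  linarith

end Pool.Agent.H97.EP

end

section

/-!
# Project SD, module `MelB` : growth of a Mellin transform

`f : ℝ → ℂ` continuous on `(0,∞)`, `|f(t)| ≤ K e^{-δt}` for `t ≥ 1` and
`|f(t)| ≤ K t^{-w} e^{-δ/t}` for `0 < t ≤ 1`.  Then for every `s`, `σ = Re s`:
`|mellin f s| ≤ ∫_0^∞ t^{σ-1} |f(t)| dt`,
`∫_1^∞ ≤ K ∫_1^∞ t^{σ-1} e^{-δt} dt` and `∫_0^1 ≤ K ∫_0^1 t^{σ-1-w} e^{-δ/t} dt =
K ∫_1^∞ t^{w-σ-1} e^{-δt} dt` (or directly: use the pointwise bound below with `1/t`).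
Pointwise bound: for `t ≥ 1` and real `x`: `t^x e^{-δt} ≤ e^{A(x)} e^{-δt/2}` with
`A(x) = x²·(2/δ)` for instance: `x log t ≤ |x| · 2 √t ≤ δt/2 + 2x²/δ` (as `log t ≤ 2√t`... any
similar elementary bound).  So everything is `≤ C e^{C|s|²}`.
`mellin f s = ∫ t in Ioi 0, (t:ℂ)^(s-1) • f t`; use `norm_integral_le_of_norm_le` or
`norm_integral_le_integral_norm`, with integrability of the majorant.
-/

set_option autoImplicit false
open MeasureTheory Set

namespace Pool.Agent.H97.SD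

/-- The pointwise bound. -/
private theorem melB_pt {δ t : ℝ} (hδ : 0 < δ) (ht : 1 ≤ t) (x : ℝ) :
    t ^ x * Real.exp (-(δ * t)) ≤ Real.exp (2 / δ * x ^ 2) * Real.exp (-(δ / 2 * t)) := by
  have ht0 : 0 < t := by linarith
  have hr0 : 0 < Real.sqrt t := Real.sqrt_pos.2 ht0
  have hr2 : Real.sqrt t ^ 2 = t := Real.sq_sqrt ht0.le
  have h1 : Real.log t ≤ 2 * Real.sqrt t := by
    have h2 := Real.log_le_sub_one_of_pos hr0
    rw [Real.log_sqrt ht0.le] at h2
    linarith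
  have h3 : Real.log t * x ≤ 2 * Real.sqrt t * |x| := by
    calc Real.log t * x ≤ |Real.log t * x| := le_abs_self _
      _ = Real.log t * |x| := by rw [abs_mul, abs_of_nonneg (Real.log_nonneg ht)]
      _ ≤ _ := mul_le_mul_of_nonneg_right h1 (abs_nonneg _)
  have h4 : 2 * Real.sqrt t * |x| ≤ 2 / δ * x ^ 2 + δ / 2 * t := by
    have h5 : 0 ≤ δ / 2 * (Real.sqrt t - 2 / δ * |x|) ^ 2 := by positivity
    have h6 : δ / 2 * (Real.sqrt t - 2 / δ * |x|) ^ 2 =
        δ / 2 * Real.sqrt t ^ 2 - 2 * Real.sqrt t * |x| + 2 / δ * |x| ^ 2 := by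
      field_simp
      ring
    rw [h6, hr2, sq_abs] at h5
    linarith
  rw [Real.rpow_def_of_pos ht0, ← Real.exp_add, ← Real.exp_add]
  apply Real.exp_le_exp.2
  linarith

theorem melB {f : ℝ → ℂ} {K δ w : ℝ} (hK : 0 ≤ K) (hδ : 0 < δ) (hf : ContinuousOn f (Ioi 0))
    (h1 : ∀ t : ℝ, 1 ≤ t → ‖f t‖ ≤ K * Real.exp (-(δ * t)))
    (h0 : ∀ t : ℝ, 0 < t → t ≤ 1 → ‖f t‖ ≤ K * (t ^ (-w) * Real.exp (-(δ / t)))) :
    ∃ C : ℝ, 0 < C ∧ ∀ s : ℂ, ‖mellin f s‖ ≤ C * Real.exp (C * ‖s‖ ^ 2) := by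
  obtain ⟨J, hJ⟩ : ∃ J, J = ∫ t in Ioi (0 : ℝ), Real.exp (-(δ / 2) * t) := ⟨_, rfl⟩
  have hint : IntegrableOn (fun t : ℝ => Real.exp (-(δ / 2) * t)) (Ioi 0) :=
    exp_neg_integrableOn_Ioi 0 (half_pos hδ)
  have hJ0 : 0 ≤ J := by
    rw [hJ]
    exact setIntegral_nonneg measurableSet_Ioi fun t _ => (Real.exp_pos _).le
  obtain ⟨A, hA⟩ : ∃ A, A = K * (Real.exp (2 / δ * 2) + Real.exp (2 / δ * (2 * (w + 1) ^ 2))) *
    Real.exp (δ / 2) * J := ⟨_, rfl⟩
  have hA0 : 0 ≤ A := by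
    rw [hA]
    positivity
  -- the main estimate
  have key : ∀ s : ℂ, ‖mellin f s‖ ≤ A * Real.exp (4 / δ * ‖s‖ ^ 2) := by
    intro s
    obtain ⟨σ, hσ⟩ : ∃ σ, σ = s.re := ⟨_, rfl⟩
    have hσ2 : σ ^ 2 ≤ ‖s‖ ^ 2 := by
      rw [← sq_abs σ, hσ]
      exact pow_le_pow_left₀ (abs_nonneg _) (Complex.abs_re_le_norm s) 2
    obtain ⟨M, hM⟩ : ∃ M, M = K * (Real.exp (2 / δ * (σ - 1) ^ 2) +
      Real.exp (2 / δ * (w + 1 - σ) ^ 2)) := ⟨_, rfl⟩
    have hpt : ∀ t ∈ Ioi (0 : ℝ), ‖(t : ℂ) ^ (s - 1) • f t‖ ≤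
        M * Real.exp (δ / 2) * Real.exp (-(δ / 2) * t) := by
      intro t ht
      have ht0 : 0 < t := ht
      rw [norm_smul, Complex.norm_cpow_eq_rpow_re_of_pos ht0, Complex.sub_re, Complex.one_re, ← hσ]
      rcases le_total 1 t with h | h
      · have h2 := melB_pt hδ h (σ - 1)
        calc t ^ (σ - 1) * ‖f t‖ ≤ t ^ (σ - 1) * (K * Real.exp (-(δ * t))) :=
              mul_le_mul_of_nonneg_left (h1 t h) (Real.rpow_nonneg ht0.le _)
          _ = K * (t ^ (σ - 1) * Real.exp (-(δ * t))) := by ring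
          _ ≤ K * (Real.exp (2 / δ * (σ - 1) ^ 2) * Real.exp (-(δ / 2 * t))) :=
              mul_le_mul_of_nonneg_left h2 hK
          _ ≤ M * Real.exp (-(δ / 2 * t)) := by
              rw [hM, ← mul_assoc]
              refine mul_le_mul_of_nonneg_right (mul_le_mul_of_nonneg_left ?_ hK)
                (Real.exp_pos _).le
              linarith [Real.exp_pos (2 / δ * (w + 1 - σ) ^ 2)]
          _ ≤ M * Real.exp (δ / 2) * Real.exp (-(δ / 2) * t) := by
              have h3 : 1 ≤ Real.exp (δ / 2) := Real.one_le_exp (half_pos hδ).le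
              have h4 : 0 ≤ M * Real.exp (-(δ / 2 * t)) := by
                rw [hM]
                positivity
              rw [neg_mul]
              nlinarith
      · have h5 : 1 ≤ 1 / t := one_le_one_div ht0 h
        have h2 := melB_pt hδ h5 (w + 1 - σ)
        have h6 : t ^ (σ - 1) * t ^ (-w) = (1 / t) ^ (w + 1 - σ) := by
          rw [← Real.rpow_add ht0, one_div, Real.inv_rpow ht0.le, ← Real.rpow_neg ht0.le]
          congr 1
          ring
        have h7 : δ / t = δ * (1 / t) := by ring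
        calc t ^ (σ - 1) * ‖f t‖ ≤ t ^ (σ - 1) * (K * (t ^ (-w) * Real.exp (-(δ / t)))) :=
              mul_le_mul_of_nonneg_left (h0 t ht0 h) (Real.rpow_nonneg ht0.le _)
          _ = K * ((t ^ (σ - 1) * t ^ (-w)) * Real.exp (-(δ / t))) := by ring
          _ = K * ((1 / t) ^ (w + 1 - σ) * Real.exp (-(δ * (1 / t)))) := by rw [h6, h7]
          _ ≤ K * (Real.exp (2 / δ * (w + 1 - σ) ^ 2) * Real.exp (-(δ / 2 * (1 / t)))) :=
              mul_le_mul_of_nonneg_left h2 hK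
          _ ≤ K * (Real.exp (2 / δ * (w + 1 - σ) ^ 2) * 1) := by
              refine mul_le_mul_of_nonneg_left (mul_le_mul_of_nonneg_left ?_
                (Real.exp_pos _).le) hK
              apply Real.exp_le_one_iff.2
              have : 0 ≤ δ / 2 * (1 / t) := by positivity
              linarith
          _ ≤ M := by
              rw [hM, mul_one]
              refine mul_le_mul_of_nonneg_left ?_ hK
              linarith [Real.exp_pos (2 / δ * (σ - 1) ^ 2)]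
          _ ≤ M * Real.exp (δ / 2) * Real.exp (-(δ / 2) * t) := by
              rw [mul_assoc, ← Real.exp_add]
              have h8 : 0 ≤ M := by
                rw [hM]
                positivity
              have h9 : 1 ≤ Real.exp (δ / 2 + -(δ / 2) * t) := by
                apply Real.one_le_exp
                have : 0 ≤ δ / 2 * (1 - t) := mul_nonneg (half_pos hδ).le (by linarith)
                linarith
              nlinarith
    have h10 : ‖mellin f s‖ ≤ M * Real.exp (δ / 2) * J := by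
      unfold mellin
      refine (norm_integral_le_of_norm_le (hint.const_mul (M * Real.exp (δ / 2)))
        ((ae_restrict_iff' measurableSet_Ioi).2 (Filter.Eventually.of_forall hpt))).trans
        (le_of_eq ?_)
      rw [integral_const_mul, hJ]
    have h11 : M ≤ K * (Real.exp (2 / δ * 2) + Real.exp (2 / δ * (2 * (w + 1) ^ 2))) *
        Real.exp (4 / δ * ‖s‖ ^ 2) := by
      rw [hM, mul_assoc]
      refine mul_le_mul_of_nonneg_left ?_ hK
      rw [add_mul, ← Real.exp_add, ← Real.exp_add]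
      have h12 : 0 < 2 / δ := by positivity
      have h13 : 4 / δ * ‖s‖ ^ 2 = 2 / δ * (2 * ‖s‖ ^ 2) := by ring
      refine add_le_add (Real.exp_le_exp.2 ?_) (Real.exp_le_exp.2 ?_)
      · rw [h13, ← mul_add]
        refine mul_le_mul_of_nonneg_left ?_ h12.le
        nlinarith [sq_nonneg (σ + 1)]
      · rw [h13, ← mul_add]
        refine mul_le_mul_of_nonneg_left ?_ h12.le
        nlinarith [sq_nonneg (w + 1 + σ)]
    calc ‖mellin f s‖ ≤ M * Real.exp (δ / 2) * J := h10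
      _ = M * (Real.exp (δ / 2) * J) := by ring
      _ ≤ (K * (Real.exp (2 / δ * 2) + Real.exp (2 / δ * (2 * (w + 1) ^ 2))) *
          Real.exp (4 / δ * ‖s‖ ^ 2)) * (Real.exp (δ / 2) * J) :=
          mul_le_mul_of_nonneg_right h11 (by positivity)
      _ = A * Real.exp (4 / δ * ‖s‖ ^ 2) := by
          rw [hA]
          ring
  refine ⟨A + 4 / δ, by positivity, fun s => (key s).trans ?_⟩
  have h1 : 0 < 4 / δ := by positivity
  refine mul_le_mul (by linarith) (Real.exp_le_exp.2 ?_) (Real.exp_pos _).le (by positivity)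
  exact mul_le_mul_of_nonneg_right (by linarith) (by positivity)

end Pool.Agent.H97.SD

end

section

/-!
# Project SD, module `InvGam` : `1/Γ` has finite order

Paper proof.  (a) Real bound: `Γ(x) ≤ C e^{x²}` for `x ≥ 1/2`: by continuity on `[1/2, 3/2]` and
`Γ(x+1) = xΓ(x) ≤ x C e^{x²} ≤ C e^{(x+1)²}`.
(b) If `Re z ≤ 1/2`: reflection `1/Γ(z) = Γ(1-z) sin(πz)/π` (`Complex.Gamma_mul_Gamma_one_sub`; if
`Γ(z) = 0` in Mathlib's sense, i.e. `z` a nonpositive integer, the inverse is `0`),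
`|Γ(1-z)| ≤ Γ(1 - Re z)`, `|sin πz| ≤ e^{π|Im z|}` (both in
`Pool/Agent/H56/GX/ZRefl.lean`: `ZRefl_Gamma_le`, `ZRefl_sin`, you may copy their proofs).
(c) `1/Γ` is continuous (`Complex.differentiable_one_div_Gamma`), hence bounded on the compact set
`|Re z| ≤ 3, |Im z| ≤ 2`.
(d) If `1/2 ≤ Re z ≤ 5/2` and `|Im z| ≥ 1`: `1/Γ(z) = 1/((z-1)(z-2) Γ(z-2))`
(or one/zero steps), `|z-1|, |z-2| ≥ 1`, and (b) applies to `z-2`.
(e) For `Re z ≥ 2`: `|1/Γ(z)| ≤ |1/Γ(z-1)|` as `|z-1| ≥ 1`; induct down to `1 ≤ Re z ≤ 2`: a bound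
depending only on `Im z`.
-/

set_option autoImplicit false
open Set

namespace Pool.Agent.H97.SD

private theorem invgam_sin (z : ℂ) : ‖Complex.sin z‖ ≤ Real.exp |z.im| := by
  rw [Complex.sin, norm_div, norm_mul, Complex.norm_I, mul_one, Complex.norm_two]
  have h1 : ‖Complex.exp (-z * Complex.I)‖ ≤ Real.exp |z.im| := by
    rw [Complex.norm_exp]
    apply Real.exp_le_exp.mpr
    have : (-z * Complex.I).re = z.im := by simp
    rw [this]; exact le_abs_self _
  have h2 : ‖Complex.exp (z * Complex.I)‖ ≤ Real.exp |z.im| := by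
    rw [Complex.norm_exp]
    apply Real.exp_le_exp.mpr
    have : (z * Complex.I).re = -z.im := by simp
    rw [this]; exact neg_le_abs _
  have h3 := norm_sub_le (Complex.exp (-z * Complex.I)) (Complex.exp (z * Complex.I))
  rw [div_le_iff₀ (by norm_num)]
  linarith

private theorem invgam_le (z : ℂ) (hz : 0 < z.re) : ‖Complex.Gamma z‖ ≤ Real.Gamma z.re := by
  rw [Complex.Gamma_eq_integral hz, Complex.GammaIntegral, Real.Gamma_eq_integral hz]
  refine (MeasureTheory.norm_integral_le_integral_norm _).trans (le_of_eq ?_)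
  refine MeasureTheory.setIntegral_congr_fun measurableSet_Ioi ?_
  intro x hx
  simp only
  have hx' : (0 : ℝ) < x := hx
  rw [norm_mul, Complex.norm_real, Real.norm_eq_abs, abs_of_pos (Real.exp_pos _),
    Complex.norm_cpow_eq_rpow_re_of_pos hx', Complex.sub_re, Complex.one_re]

private theorem invgam_real : ∃ A : ℝ, 0 < A ∧ ∀ x : ℝ, 1 / 2 ≤ x →
    Real.Gamma x ≤ A * Real.exp (x ^ 2) := by
  set A := max (Real.Gamma (1 / 2)) (Real.Gamma (3 / 2)) with hA
  have hA0 : 0 < A := lt_max_of_lt_left (Real.Gamma_pos_of_pos (by norm_num))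
  refine ⟨A, hA0, ?_⟩
  have key : ∀ n : ℕ, ∀ x : ℝ, 1 / 2 ≤ x → x ≤ 3 / 2 + n →
      Real.Gamma x ≤ A * Real.exp (x ^ 2) := by
    intro n
    induction n with
    | zero =>
      intro x h1 h2
      have h := Real.convexOn_Gamma.le_max_of_mem_Icc (x := 1 / 2) (y := 3 / 2) (z := x)
        (show (0 : ℝ) < 1 / 2 by norm_num) (show (0 : ℝ) < 3 / 2 by norm_num)
        ⟨h1, by simpa using h2⟩
      refine h.trans ?_
      rw [← hA]
      have : (1 : ℝ) ≤ Real.exp (x ^ 2) := Real.one_le_exp (sq_nonneg x)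
      nlinarith
    | succ n ih =>
      intro x h1 h2
      rcases le_or_gt x (3 / 2) with h3 | h3
      · exact ih x h1 (h3.trans (by have : (0 : ℝ) ≤ n := Nat.cast_nonneg n; linarith))
      · have h4 := ih (x - 1) (by linarith) (by push_cast at h2; linarith)
        have h5 : Real.Gamma x = (x - 1) * Real.Gamma (x - 1) := by
          have := Real.Gamma_add_one (s := x - 1) (by linarith)
          rwa [sub_add_cancel] at this
        rw [h5]
        have h6 : x - 1 ≤ Real.exp (x - 1) := by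
          have := Real.add_one_le_exp (x - 1)
          linarith
        have h7 : (0 : ℝ) < x - 1 := by linarith
        calc (x - 1) * Real.Gamma (x - 1) ≤ (x - 1) * (A * Real.exp ((x - 1) ^ 2)) :=
              mul_le_mul_of_nonneg_left h4 h7.le
          _ ≤ Real.exp (x - 1) * (A * Real.exp ((x - 1) ^ 2)) :=
              mul_le_mul_of_nonneg_right h6 (by positivity)
          _ = A * Real.exp ((x - 1) + (x - 1) ^ 2) := by rw [Real.exp_add]; ring
          _ ≤ A * Real.exp (x ^ 2) := by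
              refine mul_le_mul_of_nonneg_left (Real.exp_le_exp.2 ?_) hA0.le
              nlinarith
  intro x hx
  refine key ⌈x⌉₊ x hx ?_
  have := Nat.le_ceil x
  linarith

private theorem invgam_left : ∃ A : ℝ, 0 < A ∧ ∀ z : ℂ, z.re ≤ 1 / 2 →
    ‖(Complex.Gamma z)⁻¹‖ ≤ A * Real.exp (6 * ‖z‖ ^ 2) := by
  obtain ⟨A, hA, hG⟩ := invgam_real
  refine ⟨A * Real.exp 6, by positivity, fun z hz => ?_⟩
  have hpi : (Real.pi : ℂ) ≠ 0 := by exact_mod_cast Real.pi_ne_zero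
  have h0 : ‖(Complex.Gamma z)⁻¹‖ ≤ ‖Complex.Gamma (1 - z)‖ * ‖Complex.sin (Real.pi * z)‖ := by
    by_cases hg : Complex.Gamma z = 0
    · rw [hg, inv_zero, norm_zero]
      positivity
    · have h1 := Complex.Gamma_mul_Gamma_one_sub z
      by_cases hs : Complex.sin (Real.pi * z) = 0
      · rw [hs, div_zero, mul_eq_zero] at h1
        rcases h1 with h1 | h1
        · exact absurd h1 hg
        · exfalso
          have : 0 < (1 - z).re := by
            rw [Complex.sub_re, Complex.one_re]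
            linarith
          exact Complex.Gamma_ne_zero_of_re_pos this h1
      · have h2 : (Complex.Gamma z)⁻¹ =
            Complex.Gamma (1 - z) * Complex.sin (Real.pi * z) / Real.pi := by
          rw [eq_div_iff hs] at h1
          rw [eq_div_iff hpi, inv_mul_eq_iff_eq_mul₀ hg, ← mul_assoc]
          exact h1.symm
        rw [h2, norm_div, norm_mul, Complex.norm_real, Real.norm_eq_abs,
          abs_of_pos Real.pi_pos]
        refine div_le_self (by positivity) ?_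
        linarith [Real.pi_gt_three]
  have h3 : ‖Complex.Gamma (1 - z)‖ ≤ A * Real.exp ((1 - z.re) ^ 2) := by
    have h4 : (1 - z).re = 1 - z.re := by simp
    have h5 := invgam_le (1 - z) (by rw [h4]; linarith)
    rw [h4] at h5
    exact h5.trans (hG _ (by linarith))
  have h6 : ‖Complex.sin (Real.pi * z)‖ ≤ Real.exp (4 * ‖z‖) := by
    refine (invgam_sin _).trans (Real.exp_le_exp.2 ?_)
    rw [Complex.im_ofReal_mul, abs_mul, abs_of_pos Real.pi_pos]
    have h7 := Complex.abs_im_le_norm z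
    have h8 : Real.pi ≤ 4 := Real.pi_le_four
    nlinarith [abs_nonneg z.im, norm_nonneg z]
  refine h0.trans ((mul_le_mul h3 h6 (norm_nonneg _) (by positivity)).trans ?_)
  rw [mul_assoc, ← Real.exp_add, mul_assoc, ← Real.exp_add]
  refine mul_le_mul_of_nonneg_left (Real.exp_le_exp.2 ?_) hA.le
  have h9 := Complex.abs_re_le_norm z
  have h10 := abs_le.1 h9
  nlinarith [sq_nonneg (‖z‖ - 1), norm_nonneg z, sq_nonneg (z.re + 1), abs_nonneg z.re,
    sq_abs z.re, mul_self_le_mul_self (abs_nonneg z.re) h9]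

private theorem invgam_strip : ∃ B : ℝ, 0 < B ∧ ∀ z : ℂ, 1 / 2 ≤ z.re → z.re ≤ 3 / 2 →
    ‖(Complex.Gamma z)⁻¹‖ ≤ B * Real.exp (12 * (|z.im| + 3 / 2) ^ 2) := by
  obtain ⟨A, hA, hL⟩ := invgam_left
  have hcomp : IsCompact (Icc (1 / 2 : ℝ) (3 / 2) ×ℂ Icc (-1 : ℝ) 1) :=
    isCompact_Icc.reProdIm isCompact_Icc
  obtain ⟨M, hM⟩ := hcomp.exists_bound_of_continuousOn
    (Complex.differentiable_one_div_Gamma.continuous.continuousOn)
  refine ⟨|M| + A * Real.exp 12, by positivity, fun z h1 h2 => ?_⟩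
  have he1 : (1 : ℝ) ≤ Real.exp (12 * (|z.im| + 3 / 2) ^ 2) := Real.one_le_exp (by positivity)
  rcases le_or_gt |z.im| 1 with h3 | h3
  · have h4 := hM z ⟨⟨h1, h2⟩, abs_le.1 h3⟩
    have h5 : ‖(Complex.Gamma z)⁻¹‖ ≤ |M| := h4.trans (le_abs_self M)
    have h6 : 0 ≤ A * Real.exp 12 := by positivity
    nlinarith [abs_nonneg M]
  · have h4 := Complex.one_div_Gamma_eq_self_mul_one_div_Gamma_add_one (z - 1)
    rw [sub_add_cancel] at h4
    have h5 : 1 ≤ ‖z - 1‖ := by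
      have h6 := Complex.abs_im_le_norm (z - 1)
      have h7 : (z - 1).im = z.im := by simp
      rw [h7] at h6
      linarith
    have h8 : ‖(Complex.Gamma z)⁻¹‖ ≤ ‖(Complex.Gamma (z - 1))⁻¹‖ := by
      rw [h4, norm_mul]
      exact le_mul_of_one_le_left (norm_nonneg _) h5
    have h9 := hL (z - 1) (by rw [Complex.sub_re, Complex.one_re]; linarith)
    have h10 : ‖z - 1‖ ≤ |z.im| + 1 / 2 := by
      refine (Complex.norm_le_abs_re_add_abs_im _).trans ?_
      have h11 : |(z - 1).re| ≤ 1 / 2 := by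
        rw [Complex.sub_re, Complex.one_re, abs_le]
        constructor <;> linarith
      have h12 : (z - 1).im = z.im := by simp
      rw [h12]
      linarith
    refine h8.trans (h9.trans ?_)
    have h13 : Real.exp (6 * ‖z - 1‖ ^ 2) ≤ Real.exp (12 * (|z.im| + 3 / 2) ^ 2) := by
      refine Real.exp_le_exp.2 ?_
      have : ‖z - 1‖ ^ 2 ≤ (|z.im| + 3 / 2) ^ 2 :=
        pow_le_pow_left₀ (norm_nonneg _) (by linarith) 2
      nlinarith [sq_nonneg (|z.im| + 3 / 2)]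
    have h14 : A ≤ |M| + A * Real.exp 12 := by
      have : (1 : ℝ) ≤ Real.exp 12 := Real.one_le_exp (by norm_num)
      nlinarith [abs_nonneg M]
    exact mul_le_mul h14 h13 (Real.exp_pos _).le (by positivity)

private theorem invgam_right : ∃ B : ℝ, 0 < B ∧ ∀ z : ℂ, 1 / 2 ≤ z.re →
    ‖(Complex.Gamma z)⁻¹‖ ≤ B * Real.exp (25 * ‖z‖ ^ 2) := by
  obtain ⟨B, hB, hS⟩ := invgam_strip
  have key : ∀ n : ℕ, ∀ z : ℂ, 1 / 2 ≤ z.re → z.re ≤ 3 / 2 + n →
      ‖(Complex.Gamma z)⁻¹‖ ≤ 2 ^ n * (B * Real.exp (12 * (|z.im| + 3 / 2) ^ 2)) := by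
    intro n
    induction n with
    | zero =>
      intro z h1 h2
      rw [pow_zero, one_mul]
      exact hS z h1 (by simpa using h2)
    | succ n ih =>
      intro z h1 h2
      have hpos : 0 < 2 ^ n * (B * Real.exp (12 * (|z.im| + 3 / 2) ^ 2)) := by positivity
      rw [pow_succ]
      rcases le_or_gt z.re (3 / 2) with h3 | h3
      · have := ih z h1 (h3.trans (by have : (0 : ℝ) ≤ n := Nat.cast_nonneg n; linarith))
        linarith
      · have h4 := Complex.one_div_Gamma_eq_self_mul_one_div_Gamma_add_one (z - 1)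
        rw [sub_add_cancel] at h4
        have h5 : 1 / 2 ≤ ‖z - 1‖ := by
          have h6 := (le_abs_self _).trans (Complex.abs_re_le_norm (z - 1))
          rw [Complex.sub_re, Complex.one_re] at h6
          linarith
        have h7 := ih (z - 1) (by rw [Complex.sub_re, Complex.one_re]; linarith)
          (by rw [Complex.sub_re, Complex.one_re]; push_cast at h2; linarith)
        have h8 : (z - 1).im = z.im := by simp
        rw [h8, h4, norm_mul] at h7
        nlinarith [norm_nonneg (Complex.Gamma z)⁻¹]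
  refine ⟨B * Real.exp 56, by positivity, fun z hz => ?_⟩
  have h1 := key ⌈z.re⌉₊ z hz (by have := Nat.le_ceil z.re; linarith)
  have h2 : ((⌈z.re⌉₊ : ℕ) : ℝ) ≤ ‖z‖ + 1 := by
    have := (Nat.ceil_lt_add_one (show 0 ≤ z.re by linarith)).le
    have h3 := (le_abs_self _).trans (Complex.abs_re_le_norm z)
    linarith
  have h4 : (2 : ℝ) ^ ⌈z.re⌉₊ ≤ Real.exp (‖z‖ + 1) := by
    have h5 : (2 : ℝ) ≤ Real.exp 1 := by
      have := Real.add_one_le_exp (1 : ℝ)
      linarith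
    calc (2 : ℝ) ^ ⌈z.re⌉₊ ≤ (Real.exp 1) ^ ⌈z.re⌉₊ := pow_le_pow_left₀ (by norm_num) h5 _
      _ = Real.exp (⌈z.re⌉₊ : ℕ) := by rw [← Real.exp_nat_mul, mul_one]
      _ ≤ Real.exp (‖z‖ + 1) := Real.exp_le_exp.2 h2
  have h6 : Real.exp (12 * (|z.im| + 3 / 2) ^ 2) ≤ Real.exp (24 * ‖z‖ ^ 2 + 54) := by
    refine Real.exp_le_exp.2 ?_
    have h7 := Complex.abs_im_le_norm z
    have h8 := mul_self_le_mul_self (abs_nonneg z.im) h7
    nlinarith [sq_nonneg (‖z‖ - 3 / 2), abs_nonneg z.im]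
  refine h1.trans ?_
  calc (2 : ℝ) ^ ⌈z.re⌉₊ * (B * Real.exp (12 * (|z.im| + 3 / 2) ^ 2))
      ≤ Real.exp (‖z‖ + 1) * (B * Real.exp (24 * ‖z‖ ^ 2 + 54)) :=
        mul_le_mul h4 (mul_le_mul_of_nonneg_left h6 hB.le) (by positivity) (by positivity)
    _ = B * Real.exp (‖z‖ + 1 + (24 * ‖z‖ ^ 2 + 54)) := by
        rw [Real.exp_add (‖z‖ + 1)]
        ring
    _ ≤ B * Real.exp (56 + 25 * ‖z‖ ^ 2) := by
        refine mul_le_mul_of_nonneg_left (Real.exp_le_exp.2 ?_) hB.le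
        nlinarith [sq_nonneg (‖z‖ - 1), norm_nonneg z]
    _ = B * Real.exp 56 * Real.exp (25 * ‖z‖ ^ 2) := by rw [Real.exp_add]; ring

theorem invGam : ∃ C : ℝ, 0 < C ∧ ∀ z : ℂ, ‖(Complex.Gamma z)⁻¹‖ ≤ C * Real.exp (C * ‖z‖ ^ 2) := by
  obtain ⟨A, hA, h1⟩ := invgam_left
  obtain ⟨B, hB, h2⟩ := invgam_right
  refine ⟨A + B + 25, by positivity, fun z => ?_⟩
  have hz := sq_nonneg ‖z‖
  rcases le_or_gt z.re (1 / 2) with h | h
  · refine (h1 z h).trans (mul_le_mul (by linarith) (Real.exp_le_exp.2 ?_) (Real.exp_pos _).le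
      (by positivity))
    nlinarith
  · refine (h2 z h.le).trans (mul_le_mul (by linarith) (Real.exp_le_exp.2 ?_) (Real.exp_pos _).le
      (by positivity))
    nlinarith

end Pool.Agent.H97.SD

end

section

/-!
# Project SD, module `ThetaB` : continuity and decay of the theta function

`a 0 = 0` and `∑ |a n| n^{-σ} < ∞` for some `σ`.  Then `∑ |a n| u_n^ρ e^{-ε u_n} < ∞` for every
`ε > 0` (`u^ρ e^{-εu} ≤ C_M u^{-M}`), which gives continuity on `(0,∞)`
(`continuousOn_tsum` on `Ici ε`), and for `t ≥ 1`: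
`|Th t| ≤ ∑ |a n| u_n^ρ e^{-u_n} e^{-(t-1) u_n} ≤ C e^{-(t-1) u_1}`, `u_1 = (1/Q)^{2/d} > 0`
(`u_n ≥ u_1` for `n ≥ 1`).
-/

set_option autoImplicit false
open Set

namespace Pool.Agent.H97.SD

private theorem thetab_bound (p ε : ℝ) (hp : 0 ≤ p) (hε : 0 < ε) :
    ∃ C : ℝ, 0 ≤ C ∧ ∀ u : ℝ, 0 < u → u ^ p * Real.exp (-(u * ε)) ≤ C := by
  obtain ⟨n, hn⟩ := exists_nat_ge p
  refine ⟨1 + n.factorial / ε ^ n, by positivity, fun u hu => ?_⟩
  have hue : 0 < u * ε := mul_pos hu hε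
  have he1 : Real.exp (-(u * ε)) ≤ 1 := Real.exp_le_one_iff.2 (by linarith)
  have he0 := Real.exp_pos (-(u * ε))
  have h1 : u ^ p ≤ 1 + u ^ n := by
    rcases le_total u 1 with h | h
    · have h2 : u ^ p ≤ 1 := Real.rpow_le_one hu.le h hp
      have h3 : 0 ≤ u ^ n := by positivity
      linarith
    · have h2 : u ^ p ≤ u ^ (n : ℝ) := Real.rpow_le_rpow_of_exponent_le h hn
      rw [Real.rpow_natCast] at h2
      linarith
  have h4 : u ^ n * Real.exp (-(u * ε)) ≤ n.factorial / ε ^ n := by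
    have h5 := Real.pow_div_factorial_le_exp (u * ε) hue.le n
    have hf : (0 : ℝ) < n.factorial := by exact_mod_cast n.factorial_pos
    rw [div_le_iff₀ hf, mul_pow] at h5
    rw [le_div_iff₀ (by positivity)]
    have h6 : u ^ n * Real.exp (-(u * ε)) * ε ^ n =
        (u ^ n * ε ^ n) * Real.exp (-(u * ε)) := by ring
    rw [h6]
    calc (u ^ n * ε ^ n) * Real.exp (-(u * ε)) ≤
        (Real.exp (u * ε) * n.factorial) * Real.exp (-(u * ε)) :=
          mul_le_mul_of_nonneg_right h5 he0.le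
      _ = n.factorial * (Real.exp (u * ε) * Real.exp (-(u * ε))) := by ring
      _ = n.factorial := by rw [← Real.exp_add, add_neg_cancel, Real.exp_zero, mul_one]
  calc u ^ p * Real.exp (-(u * ε)) ≤ (1 + u ^ n) * Real.exp (-(u * ε)) :=
        mul_le_mul_of_nonneg_right h1 he0.le
    _ = Real.exp (-(u * ε)) + u ^ n * Real.exp (-(u * ε)) := by ring
    _ ≤ _ := add_le_add he1 h4

private theorem thetab_nd_pos {d Q : ℝ} (hQ : 0 < Q) {n : ℕ} (hn : n ≠ 0) : 0 < nd d Q n := by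
  unfold nd
  have : (0 : ℝ) < n := by exact_mod_cast Nat.pos_of_ne_zero hn
  positivity

private theorem thetab_nd_nonneg {d Q : ℝ} (hQ : 0 < Q) (n : ℕ) : 0 ≤ nd d Q n := by
  unfold nd
  positivity

private theorem thetab_nd_mono {d Q : ℝ} (hd : 2 < d) (hQ : 0 < Q) {n : ℕ} (hn : n ≠ 0) :
    nd d Q 1 ≤ nd d Q n := by
  unfold nd
  have h1 : (1 : ℝ) ≤ n := by exact_mod_cast Nat.one_le_iff_ne_zero.2 hn
  refine Real.rpow_le_rpow (by positivity) ?_ (by positivity)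
  rw [Nat.cast_one]
  exact div_le_div_of_nonneg_right h1 hQ.le

private theorem thetab_term {d Q rho σ : ℝ} (hd : 2 < d) (hr : 0 ≤ rho) (hQ : 0 < Q) {a : ℕ → ℂ}
    (ha0 : a 0 = 0) {ε : ℝ} (hε : 0 < ε) : ∃ C : ℝ, 0 ≤ C ∧ ∀ n : ℕ,
      ‖a n‖ * (nd d Q n ^ rho * Real.exp (-(nd d Q n * ε))) ≤
        C * (‖a n‖ * (n : ℝ) ^ (-σ)) := by
  have hd0 : 0 < d := by linarith
  set M : ℝ := d / 2 * |σ| with hM
  have hM0 : 0 ≤ M := by positivity
  obtain ⟨C, hC, h⟩ := thetab_bound (rho + M) ε (by linarith) hε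
  refine ⟨C * Q ^ |σ|, by positivity, fun n => ?_⟩
  by_cases hn : n = 0
  · subst hn
    rw [ha0]
    simp
  have hn0 : (0 : ℝ) < n := by exact_mod_cast Nat.pos_of_ne_zero hn
  have hn1 : (1 : ℝ) ≤ n := by exact_mod_cast Nat.one_le_iff_ne_zero.2 hn
  have hu := thetab_nd_pos (d := d) hQ hn
  have h1 := h _ hu
  have h2 : nd d Q n ^ rho * Real.exp (-(nd d Q n * ε)) ≤ C * nd d Q n ^ (-M) := by
    rw [Real.rpow_add hu] at h1
    rw [Real.rpow_neg hu.le, ← div_eq_mul_inv, le_div_iff₀ (Real.rpow_pos_of_pos hu M)]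
    calc _ = nd d Q n ^ rho * nd d Q n ^ M * Real.exp (-(nd d Q n * ε)) := by ring
      _ ≤ C := h1
  have h3 : nd d Q n ^ (-M) ≤ Q ^ |σ| * (n : ℝ) ^ (-σ) := by
    have h4 : nd d Q n ^ (-M) = ((n : ℝ) / Q) ^ (-|σ|) := by
      unfold nd
      rw [← Real.rpow_mul (by positivity)]
      congr 1
      rw [hM]
      field_simp
    rw [h4, Real.div_rpow hn0.le hQ.le, Real.rpow_neg hQ.le, div_inv_eq_mul, mul_comm]
    refine mul_le_mul_of_nonneg_left ?_ (by positivity)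
    exact Real.rpow_le_rpow_of_exponent_le hn1 (neg_le_neg (le_abs_self σ))
  calc ‖a n‖ * (nd d Q n ^ rho * Real.exp (-(nd d Q n * ε)))
      ≤ ‖a n‖ * (C * (Q ^ |σ| * (n : ℝ) ^ (-σ))) :=
        mul_le_mul_of_nonneg_left (h2.trans (mul_le_mul_of_nonneg_left h3 hC)) (norm_nonneg _)
    _ = _ := by ring

private theorem thetab_norm {d Q rho : ℝ} (hQ : 0 < Q) (a : ℕ → ℂ) (n : ℕ) (t : ℝ) :
    ‖a n * ((nd d Q n ^ rho * Real.exp (-(nd d Q n * t)) : ℝ) : ℂ)‖ =
      ‖a n‖ * (nd d Q n ^ rho * Real.exp (-(nd d Q n * t))) := by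
  have h := thetab_nd_nonneg (d := d) hQ n
  rw [norm_mul, Complex.norm_real, Real.norm_of_nonneg (by positivity)]

private theorem thetab_sum {d Q rho σ : ℝ} (hd : 2 < d) (hr : 0 ≤ rho) (hQ : 0 < Q) {a : ℕ → ℂ}
    (ha0 : a 0 = 0) (ha : Summable fun n : ℕ => ‖a n‖ * (n : ℝ) ^ (-σ)) {t : ℝ} (ht : 0 < t) :
    Summable fun n : ℕ => ‖a n‖ * (nd d Q n ^ rho * Real.exp (-(nd d Q n * t))) := by
  obtain ⟨C, hC, h⟩ := thetab_term (σ := σ) hd hr hQ ha0 ht
  refine Summable.of_nonneg_of_le (fun n => ?_) h (ha.mul_left C)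
  have := thetab_nd_nonneg (d := d) hQ n
  positivity

theorem Th_summable {d Q rho σ : ℝ} (hd : 2 < d) (hr : 0 ≤ rho) (hQ : 0 < Q) {a : ℕ → ℂ}
    (ha0 : a 0 = 0) (ha : Summable fun n : ℕ => ‖a n‖ * (n : ℝ) ^ (-σ)) {t : ℝ} (ht : 0 < t) :
    Summable fun n : ℕ => ‖a n * ((nd d Q n ^ rho * Real.exp (-(nd d Q n * t)) : ℝ) : ℂ)‖ := by
  simp only [thetab_norm hQ]
  exact thetab_sum hd hr hQ ha0 ha ht

theorem Th_continuousOn {d Q rho σ : ℝ} (hd : 2 < d) (hr : 0 ≤ rho) (hQ : 0 < Q) {a : ℕ → ℂ}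
    (ha0 : a 0 = 0) (ha : Summable fun n : ℕ => ‖a n‖ * (n : ℝ) ^ (-σ)) :
    ContinuousOn (Th d Q rho a) (Ioi 0) := by
  intro t ht
  have ht0 : 0 < t := ht
  have ht2 : 0 < t / 2 := by linarith
  have h1 : ContinuousOn (Th d Q rho a) (Ici (t / 2)) := by
    unfold Th
    refine continuousOn_tsum (u := fun n : ℕ =>
      ‖a n‖ * (nd d Q n ^ rho * Real.exp (-(nd d Q n * (t / 2))))) (fun n => ?_)
      (thetab_sum hd hr hQ ha0 ha ht2) (fun n x hx => ?_)
    · refine Continuous.continuousOn ?_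
      refine continuous_const.mul (Complex.continuous_ofReal.comp ?_)
      exact continuous_const.mul (Real.continuous_exp.comp
        ((continuous_const.mul continuous_id).neg))
    · rw [thetab_norm hQ]
      have h2 := thetab_nd_nonneg (d := d) hQ n
      refine mul_le_mul_of_nonneg_left (mul_le_mul_of_nonneg_left (Real.exp_le_exp.2 ?_)
        (by positivity)) (norm_nonneg _)
      have h3 : t / 2 ≤ x := hx
      have h4 := mul_le_mul_of_nonneg_left h3 h2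
      linarith
  exact (h1.continuousAt (Ici_mem_nhds (by linarith))).continuousWithinAt

theorem Th_decay {d Q rho σ : ℝ} (hd : 2 < d) (hr : 0 ≤ rho) (hQ : 0 < Q) {a : ℕ → ℂ}
    (ha0 : a 0 = 0) (ha : Summable fun n : ℕ => ‖a n‖ * (n : ℝ) ^ (-σ)) :
    ∃ K δ : ℝ, 0 ≤ K ∧ 0 < δ ∧ ∀ t : ℝ, 1 ≤ t → ‖Th d Q rho a t‖ ≤ K * Real.exp (-(δ * t)) := by
  have hS := thetab_sum hd hr hQ ha0 ha one_pos
  have hu1 : 0 < nd d Q 1 := thetab_nd_pos hQ one_ne_zero
  refine ⟨(∑' n : ℕ, ‖a n‖ * (nd d Q n ^ rho * Real.exp (-(nd d Q n * 1)))) *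
    Real.exp (nd d Q 1), nd d Q 1, ?_, hu1, fun t ht => ?_⟩
  · refine mul_nonneg (tsum_nonneg fun n => ?_) (Real.exp_pos _).le
    have := thetab_nd_nonneg (d := d) hQ n
    positivity
  · unfold Th
    have ht0 : 0 < t := by linarith
    refine (norm_tsum_le_tsum_norm (Th_summable hd hr hQ ha0 ha ht0)).trans ?_
    have h1 : ∀ n : ℕ, ‖a n * ((nd d Q n ^ rho * Real.exp (-(nd d Q n * t)) : ℝ) : ℂ)‖ ≤
        (‖a n‖ * (nd d Q n ^ rho * Real.exp (-(nd d Q n * 1)))) *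
          Real.exp (-(nd d Q 1 * (t - 1))) := by
      intro n
      rw [thetab_norm hQ]
      by_cases hn : n = 0
      · subst hn
        rw [ha0]
        simp
      have h2 := thetab_nd_mono hd hQ hn
      have h3 := thetab_nd_nonneg (d := d) hQ n
      rw [mul_assoc, mul_assoc, ← Real.exp_add]
      refine mul_le_mul_of_nonneg_left (mul_le_mul_of_nonneg_left (Real.exp_le_exp.2 ?_)
        (by positivity)) (norm_nonneg _)
      nlinarith [mul_le_mul_of_nonneg_right h2 (by linarith : (0 : ℝ) ≤ t - 1)]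
    refine ((Th_summable hd hr hQ ha0 ha ht0).tsum_le_tsum h1 (hS.mul_right _)).trans ?_
    rw [tsum_mul_right, mul_assoc, ← Real.exp_add]
    refine le_of_eq ?_
    congr 2
    ring

end Pool.Agent.H97.SD

end

section

/-!
# Project SD, module `Cont` : from the theta identity to the functional equation
(real parameter `ρ`, `ω = 1`)

`f = Th d Q ρ a`, `g = conj ∘ f`, `w = d/2 + 2ρ`.  Hypothesis: `f(t) = t^{-w} conj f(1/t)` for
`t > 0`, i.e. `f(1/t) = t^w g(t)`.  `StrongFEPair` with `k = w`, `ε = 1`, `f₀ = g₀ = 0`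
(local integrability from `Th_continuousOn`, decay from `Th_decay`); so `Λ(s) = mellin f s` is
entire and `mellin f (w - s) = mellin g s = conj (mellin f (conj s))`
(`StrongFEPair.differentiable_Λ`, `StrongFEPair.functional_equation`).
For `Re s > 1/2 + 1/d`, `s' = (d/2)s + ρ`: `hasSum_mellin` with `p n = u_n`, coefficients
`a(n) u_n^ρ`: `mellin f s' = Γ(s') ∑ a(n) u_n^{ρ-s'} = Γ(s') Q^s LSeries a s`, because
`u_n^{ρ-s'} = (n/Q)^{-s}`; summability hypothesis from `ha` (`σ > 1/2+1/d`).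
`G(s) = Q^{-s} (Γ(s'))⁻¹ mellin f s'`: entire (`Complex.differentiable_one_div_Gamma`), growth from
`invGam`, `melB` (for `t ≤ 1` use the identity and `Th_decay` at `1/t`): all factors are
`≤ C e^{C|s|²}` up to changing `C`, and `e^{C x²} ≤ C' e^{x³}`; take `A = 3`.
Functional equation for `0 < Re s < 1`: `Γ(s') ≠ 0` (`Re s' > 0`), so
`Q^s Γ(s') G(s) = mellin f s'`, and `(d/2)(1 - conj s) + ρ = w - conj s'`.
-/

set_option autoImplicit false
open MeasureTheory Set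

namespace Pool.Agent.H97.SD

/-! ### auxiliary lemmas -/

private theorem cont_mellin_conj (f : ℝ → ℂ) (s : ℂ) :
    mellin (fun t => (starRingEnd ℂ) (f t)) s =
      (starRingEnd ℂ) (mellin f ((starRingEnd ℂ) s)) := by
  unfold mellin
  rw [← integral_conj]
  refine setIntegral_congr_fun measurableSet_Ioi fun t ht => ?_
  have ht' : 0 < t := ht
  simp only [smul_eq_mul, map_mul]
  congr 1
  have harg : ((t : ℝ) : ℂ).arg ≠ Real.pi := by
    rw [Complex.arg_ofReal_of_nonneg ht'.le]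
    exact Real.pi_pos.ne
  have h := Complex.conj_cpow (t : ℂ) (s - 1) harg
  rw [Complex.conj_ofReal, map_sub, map_one] at h
  exact h

private theorem cont_growth (L M a r : ℝ) (hL : 0 ≤ L) (hM : 0 ≤ M) :
    ∃ B : ℝ, ∀ x : ℝ, 0 ≤ x → L * x + M * (a * x + r) ^ 2 ≤ B + x ^ 3 := by
  obtain ⟨N, hN⟩ : ∃ N, N = L + 2 * M * a ^ 2 + 2 * M * r ^ 2 := ⟨_, rfl⟩
  have hN0 : 0 ≤ N := by
    rw [hN]
    positivity
  refine ⟨N + N ^ 3, fun x hx => ?_⟩
  have h1 : L * x ≤ L * (1 + x ^ 2) :=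
    mul_le_mul_of_nonneg_left (by nlinarith [sq_nonneg (x - 1)]) hL
  have h2 : M * (a * x + r) ^ 2 ≤ M * (2 * a ^ 2 * x ^ 2 + 2 * r ^ 2) :=
    mul_le_mul_of_nonneg_left (by nlinarith [sq_nonneg (a * x - r)]) hM
  have h3 : N * x ^ 2 ≤ N ^ 3 + x ^ 3 := by
    rcases le_total x N with h | h
    · have h4 : x ^ 2 ≤ N ^ 2 := pow_le_pow_left₀ hx h 2
      have h5 : N * x ^ 2 ≤ N * N ^ 2 := mul_le_mul_of_nonneg_left h4 hN0
      have h6 : 0 ≤ x ^ 3 := by positivity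
      nlinarith
    · have h4 : N * x ^ 2 ≤ x * x ^ 2 := mul_le_mul_of_nonneg_right h (sq_nonneg x)
      have h6 : 0 ≤ N ^ 3 := by positivity
      nlinarith
  have h7 : 0 ≤ M * r ^ 2 * x ^ 2 := by positivity
  have h8 : 0 ≤ M * a ^ 2 := by positivity
  have h9 : N * x ^ 2 = L * x ^ 2 + 2 * M * a ^ 2 * x ^ 2 + 2 * (M * r ^ 2 * x ^ 2) := by
    rw [hN]
    ring
  nlinarith

private theorem cont_nd_pos {d Q : ℝ} (hQ : 0 < Q) {n : ℕ} (hn : n ≠ 0) : 0 < nd d Q n := by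
  unfold nd
  have : (0 : ℝ) < n := by exact_mod_cast Nat.pos_of_ne_zero hn
  positivity

/-- The summability of the coefficients at the nodes. -/
private theorem cont_term_norm {d Q rho : ℝ} (hd : 2 < d) (hQ : 0 < Q) {n : ℕ} (hn : n ≠ 0)
    (σ : ℝ) : nd d Q n ^ rho / nd d Q n ^ (d / 2 * σ + rho) = Q ^ σ * (n : ℝ) ^ (-σ) := by
  have hn0 : (0 : ℝ) < n := by exact_mod_cast Nat.pos_of_ne_zero hn
  have hx : 0 < (n : ℝ) / Q := div_pos hn0 hQ
  have hd0 : d ≠ 0 := by linarith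
  rw [← Real.rpow_sub (cont_nd_pos hQ hn)]
  unfold nd
  rw [← Real.rpow_mul hx.le, show 2 / d * (rho - (d / 2 * σ + rho)) = -σ by field_simp; ring,
    Real.div_rpow hn0.le hQ.le, Real.rpow_neg hQ.le]
  field_simp

/-- The same with complex exponents. -/
private theorem cont_term {d Q rho : ℝ} (hd : 2 < d) (hQ : 0 < Q) {n : ℕ} (hn : n ≠ 0) (s : ℂ) :
    ((nd d Q n ^ rho : ℝ) : ℂ) / ((nd d Q n : ℝ) : ℂ) ^ (((d / 2 : ℝ) : ℂ) * s + (rho : ℂ)) =
      (Q : ℂ) ^ s / (n : ℂ) ^ s := by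
  have hn0 : (0 : ℝ) < n := by exact_mod_cast Nat.pos_of_ne_zero hn
  have hx : 0 < (n : ℝ) / Q := div_pos hn0 hQ
  have hd0 : d ≠ 0 := by linarith
  have hp := cont_nd_pos (d := d) hQ hn
  have hpc : ((nd d Q n : ℝ) : ℂ) ≠ 0 := Complex.ofReal_ne_zero.2 hp.ne'
  have hQc : (Q : ℂ) ≠ 0 := Complex.ofReal_ne_zero.2 hQ.ne'
  have hnc : ((n : ℝ) : ℂ) ≠ 0 := Complex.ofReal_ne_zero.2 hn0.ne'
  have hlog : Real.log (nd d Q n) = 2 / d * (Real.log n - Real.log Q) := by
    unfold nd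
    rw [Real.log_rpow hx, Real.log_div hn0.ne' hQ.ne']
  rw [Complex.ofReal_cpow hp.le, ← Complex.cpow_sub _ _ hpc, Complex.cpow_def_of_ne_zero hpc,
    Complex.cpow_def_of_ne_zero hQc]
  have e : (n : ℂ) = ((n : ℝ) : ℂ) := by simp
  rw [e, Complex.cpow_def_of_ne_zero hnc, ← Complex.ofReal_log hp.le, ← Complex.ofReal_log hQ.le,
    ← Complex.ofReal_log hn0.le, ← Complex.exp_sub, hlog]
  congr 1
  have hdc : (d : ℂ) ≠ 0 := Complex.ofReal_ne_zero.2 hd0
  push_cast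
  field_simp
  ring

theorem exists_cont {d Q rho : ℝ} (hd : 2 < d) (hr : 0 ≤ rho) (hQ : 0 < Q) {a : ℕ → ℂ}
    (ha0 : a 0 = 0)
    (ha : ∀ σ : ℝ, 1 / 2 + 1 / d < σ → Summable fun n : ℕ => ‖a n‖ * (n : ℝ) ^ (-σ))
    (hth : ∀ t : ℝ, 0 < t → Th d Q rho a t =
      ((t ^ (-(d / 2 + 2 * rho)) : ℝ) : ℂ) * (starRingEnd ℂ) (Th d Q rho a (1 / t))) :
    (∀ s : ℂ, 1 / 2 + 1 / d < s.re → LSeriesSummable a s) ∧
    ∃ G : ℂ → ℂ, Differentiable ℂ G ∧
    (∃ A C : ℝ, ∀ s : ℂ, ‖G s‖ ≤ C * Real.exp (‖s‖ ^ A)) ∧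
    (∀ s : ℂ, 1 / 2 + 1 / d < s.re → G s = LSeries a s) ∧
    ∀ s : ℂ, 0 < s.re → s.re < 1 →
      (Q : ℂ) ^ s * Complex.Gamma ((d / 2 : ℝ) * s + (rho : ℂ)) * G s =
      1 * (starRingEnd ℂ) ((Q : ℂ) ^ (1 - (starRingEnd ℂ) s) *
        Complex.Gamma ((d / 2 : ℝ) * (1 - (starRingEnd ℂ) s) + (rho : ℂ)) *
        G (1 - (starRingEnd ℂ) s)) := by
  have hd0 : (0 : ℝ) < d := by linarith
  have hinv : 1 / d < 1 / 2 := one_div_lt_one_div_of_lt (by norm_num) hd
  have ha1 := ha 1 (by linarith)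
  have hcont := Th_continuousOn hd hr hQ ha0 ha1
  obtain ⟨K, δ, hK, hδ, hdec⟩ := Th_decay hd hr hQ ha0 ha1
  obtain ⟨f, hf⟩ : ∃ f, f = Th d Q rho a := ⟨_, rfl⟩
  obtain ⟨w, hw⟩ : ∃ w, w = d / 2 + 2 * rho := ⟨_, rfl⟩
  rw [← hf] at hcont hdec
  rw [← hf, ← hw] at hth
  have hw0 : 0 < w := by
    rw [hw]
    linarith
  have hfeq : ∀ x ∈ Ioi (0 : ℝ), f (1 / x) = ((x ^ w : ℝ) : ℂ) * (starRingEnd ℂ) (f x) := by
    intro x hx
    have hx' : 0 < x := hx
    rw [hth (1 / x) (one_div_pos.2 hx'), one_div_one_div]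
    congr 2
    rw [one_div, Real.inv_rpow hx'.le, Real.rpow_neg hx'.le, inv_inv]
  have htop : ∀ r : ℝ, f =O[Filter.atTop] (fun x : ℝ => x ^ r) := by
    intro r
    have h1 : f =O[Filter.atTop] (fun x : ℝ => Real.exp (-δ * x)) := by
      refine Asymptotics.IsBigO.of_bound K ?_
      filter_upwards [Filter.eventually_ge_atTop (1 : ℝ)] with x hx
      rw [Real.norm_eq_abs, Real.abs_exp, neg_mul]
      exact hdec x hx
    exact h1.trans (isLittleO_exp_neg_mul_rpow_atTop hδ r).isBigO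
  have hgcont : ContinuousOn (fun t => (starRingEnd ℂ) (f t)) (Ioi 0) :=
    Complex.continuous_conj.comp_continuousOn hcont
  have hgtop : ∀ r : ℝ, (fun t => (starRingEnd ℂ) (f t)) =O[Filter.atTop]
      (fun x : ℝ => x ^ r) := by
    intro r
    refine Asymptotics.IsBigO.trans (Asymptotics.isBigO_of_le _ fun x => ?_) (htop r)
    rw [RCLike.norm_conj]
  let P : WeakFEPair ℂ :=
    { f := f
      g := fun t => (starRingEnd ℂ) (f t)
      k := w
      ε := 1
      f₀ := 0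
      g₀ := 0
      hf_int := hcont.locallyIntegrableOn measurableSet_Ioi
      hg_int := hgcont.locallyIntegrableOn measurableSet_Ioi
      hk := hw0
      hε := one_ne_zero
      h_feq := fun x hx => by
        rw [hfeq x hx, one_mul, smul_eq_mul]
      hf_top := fun r => by simpa using htop r
      hg_top := fun r => by simpa using hgtop r }
  have hP : IsStrongFEPair P := ⟨rfl, rfl⟩
  have hdiff : Differentiable ℂ (mellin f) := by
    have h1 := hP.differentiable_Λ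
    rw [hP.Λ_eq] at h1
    exact h1
  have hfe : ∀ s : ℂ, mellin f ((w : ℂ) - s) =
      (starRingEnd ℂ) (mellin f ((starRingEnd ℂ) s)) := by
    intro s
    have h1 := P.functional_equation s
    rw [hP.Λ_eq, hP.symm_Λ_eq] at h1
    rw [← cont_mellin_conj]
    have h2 : P.ε • mellin P.g s = mellin P.g s := one_smul ℂ _
    rw [h2] at h1
    exact h1
  -- growth
  have h0dec : ∀ t : ℝ, 0 < t → t ≤ 1 → ‖f t‖ ≤ K * (t ^ (-w) * Real.exp (-(δ / t))) := by
    intro t ht ht1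
    rw [hth t ht, norm_mul, RCLike.norm_conj, Complex.norm_real, Real.norm_eq_abs,
      abs_of_nonneg (Real.rpow_nonneg ht.le _)]
    have h1 := hdec (1 / t) (one_le_one_div ht ht1)
    have h2 : δ * (1 / t) = δ / t := by ring
    rw [h2] at h1
    calc t ^ (-w) * ‖f (1 / t)‖ ≤ t ^ (-w) * (K * Real.exp (-(δ / t))) :=
          mul_le_mul_of_nonneg_left h1 (Real.rpow_nonneg ht.le _)
      _ = _ := by ring
  obtain ⟨C1, hC1, hG1⟩ := invGam
  obtain ⟨C2, hC2, hG2⟩ := melB hK hδ hcont hdec h0dec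
  have hQc : (Q : ℂ) ≠ 0 := Complex.ofReal_ne_zero.2 hQ.ne'
  have hre : ∀ s : ℂ, (((d / 2 : ℝ) : ℂ) * s + (rho : ℂ)).re = d / 2 * s.re + rho := by
    intro s
    rw [Complex.add_re, Complex.re_ofReal_mul, Complex.ofReal_re]
  have hGne : ∀ s : ℂ, 0 < s.re → Complex.Gamma (((d / 2 : ℝ) : ℂ) * s + (rho : ℂ)) ≠ 0 := by
    intro s hs
    apply Complex.Gamma_ne_zero_of_re_pos
    rw [hre]
    positivity
  have hcomp : ∀ s : ℂ, 0 < s.re → (Q : ℂ) ^ s * Complex.Gamma (((d / 2 : ℝ) : ℂ) * s +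
      (rho : ℂ)) * ((Q : ℂ) ^ (-s) * (Complex.Gamma (((d / 2 : ℝ) : ℂ) * s + (rho : ℂ)))⁻¹ *
      mellin f (((d / 2 : ℝ) : ℂ) * s + (rho : ℂ))) =
      mellin f (((d / 2 : ℝ) : ℂ) * s + (rho : ℂ)) := by
    intro s hs
    have h1 := hGne s hs
    have h2 : (Q : ℂ) ^ s * (Q : ℂ) ^ (-s) = 1 := by
      rw [← Complex.cpow_add _ _ hQc, add_neg_cancel, Complex.cpow_zero]
    have h3 : Complex.Gamma (((d / 2 : ℝ) : ℂ) * s + (rho : ℂ)) *
        (Complex.Gamma (((d / 2 : ℝ) : ℂ) * s + (rho : ℂ)))⁻¹ = 1 := mul_inv_cancel₀ h1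
    calc _ = ((Q : ℂ) ^ s * (Q : ℂ) ^ (-s)) *
        (Complex.Gamma (((d / 2 : ℝ) : ℂ) * s + (rho : ℂ)) *
        (Complex.Gamma (((d / 2 : ℝ) : ℂ) * s + (rho : ℂ)))⁻¹) *
        mellin f (((d / 2 : ℝ) : ℂ) * s + (rho : ℂ)) := by ring
      _ = _ := by rw [h2, h3, one_mul, one_mul]
  have hLs : ∀ s : ℂ, 1 / 2 + 1 / d < s.re → LSeriesSummable a s := by
    intro s hs
    refine Summable.of_norm_bounded (ha s.re hs) fun n => ?_
    rw [LSeries.norm_term_eq]
    split_ifs with hn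
    · positivity
    · rw [Real.rpow_neg (Nat.cast_nonneg n), div_eq_mul_inv]
  refine ⟨hLs, fun s => (Q : ℂ) ^ (-s) *
    (Complex.Gamma (((d / 2 : ℝ) : ℂ) * s + (rho : ℂ)))⁻¹ *
    mellin f (((d / 2 : ℝ) : ℂ) * s + (rho : ℂ)), ?_, ?_, ?_, ?_⟩
  · have haff : Differentiable ℂ (fun s : ℂ => ((d / 2 : ℝ) : ℂ) * s + (rho : ℂ)) := by
      fun_prop
    have hQd : Differentiable ℂ (fun s : ℂ => (Q : ℂ) ^ (-s)) := by
      intro s
      exact (differentiableAt_id.neg).const_cpow (Or.inl hQc)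
    exact (hQd.mul (Complex.differentiable_one_div_Gamma.comp haff)).mul (hdiff.comp haff)
  · obtain ⟨B, hB⟩ := cont_growth |Real.log Q| (C1 + C2) (d / 2) rho (abs_nonneg _) (by positivity)
    refine ⟨3, C1 * C2 * Real.exp B, fun s => ?_⟩
    obtain ⟨z, hz⟩ : ∃ z, z = ((d / 2 : ℝ) : ℂ) * s + (rho : ℂ) := ⟨_, rfl⟩
    have hzn : ‖z‖ ≤ d / 2 * ‖s‖ + rho := by
      rw [hz]
      refine (norm_add_le _ _).trans ?_
      rw [norm_mul, Complex.norm_real, Complex.norm_real, Real.norm_eq_abs, Real.norm_eq_abs,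
        abs_of_nonneg hr, abs_of_nonneg (by linarith : (0 : ℝ) ≤ d / 2)]
    have hzn2 : ‖z‖ ^ 2 ≤ (d / 2 * ‖s‖ + rho) ^ 2 := pow_le_pow_left₀ (norm_nonneg _) hzn 2
    have h1 : ‖(Q : ℂ) ^ (-s)‖ ≤ Real.exp (|Real.log Q| * ‖s‖) := by
      rw [Complex.norm_cpow_eq_rpow_re_of_pos hQ, Real.rpow_def_of_pos hQ]
      apply Real.exp_le_exp.2
      have h2 : |s.re| ≤ ‖s‖ := Complex.abs_re_le_norm s
      have h3 : |Real.log Q * (-s).re| ≤ |Real.log Q| * ‖s‖ := by
        rw [abs_mul, Complex.neg_re, abs_neg]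
        exact mul_le_mul_of_nonneg_left h2 (abs_nonneg _)
      exact (le_abs_self _).trans h3
    have h4 := hG1 z
    have h5 := hG2 z
    have h6 := hB ‖s‖ (norm_nonneg s)
    have h7 : ‖s‖ ^ (3 : ℝ) = ‖s‖ ^ 3 := by
      rw [← Real.rpow_natCast]
      norm_num
    beta_reduce
    rw [← hz, norm_mul, norm_mul, h7]
    calc ‖(Q : ℂ) ^ (-s)‖ * ‖(Complex.Gamma z)⁻¹‖ * ‖mellin f z‖
        ≤ Real.exp (|Real.log Q| * ‖s‖) * (C1 * Real.exp (C1 * ‖z‖ ^ 2)) *
          (C2 * Real.exp (C2 * ‖z‖ ^ 2)) := by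
          refine mul_le_mul (mul_le_mul h1 h4 (norm_nonneg _) (Real.exp_pos _).le) h5
            (norm_nonneg _) (by positivity)
      _ = C1 * C2 * Real.exp (|Real.log Q| * ‖s‖ + (C1 + C2) * ‖z‖ ^ 2) := by
          rw [add_mul, Real.exp_add, Real.exp_add]
          ring
      _ ≤ C1 * C2 * Real.exp (B + ‖s‖ ^ 3) := by
          refine mul_le_mul_of_nonneg_left (Real.exp_le_exp.2 (le_trans ?_ h6)) (by positivity)
          have h8 : (C1 + C2) * ‖z‖ ^ 2 ≤ (C1 + C2) * (d / 2 * ‖s‖ + rho) ^ 2 :=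
            mul_le_mul_of_nonneg_left hzn2 (by positivity)
          linarith
      _ = C1 * C2 * Real.exp B * Real.exp (‖s‖ ^ 3) := by
          rw [Real.exp_add]
          ring
  · intro s hs
    have hs0 : 0 < s.re := by
      have : 0 < 1 / d := by positivity
      linarith
    have hre' : 0 < (((d / 2 : ℝ) : ℂ) * s + (rho : ℂ)).re := by
      rw [hre]
      positivity
    have h1 : HasSum (fun n : ℕ => Complex.Gamma (((d / 2 : ℝ) : ℂ) * s + (rho : ℂ)) *
        (a n * ((nd d Q n ^ rho : ℝ) : ℂ)) /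
        ((nd d Q n : ℝ) : ℂ) ^ (((d / 2 : ℝ) : ℂ) * s + (rho : ℂ)))
        (mellin f (((d / 2 : ℝ) : ℂ) * s + (rho : ℂ))) := by
      refine hasSum_mellin (p := fun n => nd d Q n) (fun n => ?_) hre' (fun t ht => ?_) ?_
      · rcases eq_or_ne n 0 with hn | hn
        · left
          rw [hn, ha0, zero_mul]
        · right
          exact cont_nd_pos hQ hn
      · have h2 := (Th_summable hd hr hQ ha0 ha1 ht).of_norm.hasSum
        rw [hf]
        refine h2.congr_fun ?_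
        intro n
        push_cast
        rw [neg_mul, mul_assoc]
      · have h3 := ((ha s.re hs).mul_left (Q ^ s.re))
        refine h3.congr fun n => ?_
        rw [hre]
        rcases eq_or_ne n 0 with hn | hn
        · rw [hn, ha0]
          simp
        · rw [norm_mul, Complex.norm_real, Real.norm_eq_abs,
            abs_of_nonneg (Real.rpow_nonneg (cont_nd_pos hQ hn).le _), mul_div_assoc,
            cont_term_norm hd hQ hn]
          ring
    have h4 : HasSum (fun n : ℕ => Complex.Gamma (((d / 2 : ℝ) : ℂ) * s + (rho : ℂ)) *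
        (Q : ℂ) ^ s * LSeries.term a s n) (Complex.Gamma (((d / 2 : ℝ) : ℂ) * s + (rho : ℂ)) *
        (Q : ℂ) ^ s * LSeries a s) := (hLs s hs).hasSum.mul_left _
    have h5 : mellin f (((d / 2 : ℝ) : ℂ) * s + (rho : ℂ)) =
        Complex.Gamma (((d / 2 : ℝ) : ℂ) * s + (rho : ℂ)) * (Q : ℂ) ^ s * LSeries a s := by
      refine h1.unique (h4.congr_fun ?_)
      intro n
      rcases eq_or_ne n 0 with hn | hn
      · rw [hn, ha0]
        simp
      · rw [LSeries.term_of_ne_zero hn]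
        have h6 := cont_term hd hQ hn s (rho := rho)
        calc Complex.Gamma (((d / 2 : ℝ) : ℂ) * s + (rho : ℂ)) *
              (a n * ((nd d Q n ^ rho : ℝ) : ℂ)) /
              ((nd d Q n : ℝ) : ℂ) ^ (((d / 2 : ℝ) : ℂ) * s + (rho : ℂ))
            = Complex.Gamma (((d / 2 : ℝ) : ℂ) * s + (rho : ℂ)) * a n *
              (((nd d Q n ^ rho : ℝ) : ℂ) /
              ((nd d Q n : ℝ) : ℂ) ^ (((d / 2 : ℝ) : ℂ) * s + (rho : ℂ))) := by ring
          _ = _ := by
            rw [h6]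
            ring
    have h7 := hcomp s hs0
    have h8 := hGne s hs0
    have h9 : (Q : ℂ) ^ s ≠ 0 := by
      rw [Complex.cpow_def_of_ne_zero hQc]
      exact Complex.exp_ne_zero _
    have h10 : (Q : ℂ) ^ s * Complex.Gamma (((d / 2 : ℝ) : ℂ) * s + (rho : ℂ)) ≠ 0 :=
      mul_ne_zero h9 h8
    apply mul_left_cancel₀ h10
    beta_reduce
    rw [h7, h5]
    ring
  · intro s hs0 hs1
    have hs2 : 0 < (1 - (starRingEnd ℂ) s).re := by
      rw [Complex.sub_re, Complex.one_re, Complex.conj_re]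
      linarith
    beta_reduce
    rw [hcomp s hs0, hcomp _ hs2, one_mul]
    have h1 := hfe ((starRingEnd ℂ) (((d / 2 : ℝ) : ℂ) * s + (rho : ℂ)))
    rw [Complex.conj_conj] at h1
    have h2 : (w : ℂ) - (starRingEnd ℂ) (((d / 2 : ℝ) : ℂ) * s + (rho : ℂ)) =
        ((d / 2 : ℝ) : ℂ) * (1 - (starRingEnd ℂ) s) + (rho : ℂ) := by
      rw [map_add, map_mul, Complex.conj_ofReal, Complex.conj_ofReal, hw]
      push_cast
      ring
    rw [h2] at h1
    rw [h1, Complex.conj_conj]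

end Pool.Agent.H97.SD

end

section

/-!
# Project EP, module `CB` : the Lipschitz estimate for the composite coefficients

Let `D n = aa (α+β) n - aa α n`, `W q = 4 q^{-κ} log q`, `yα q = 8 α(q)^2 q^{-κ} log q`, `yβ` likewise;
`Sα = ∑ yα ≤ 1`, `Sβ = ∑ yβ ≤ 1`.
For squarefree `n`: `∏_{p|n} (α p + β p) = ∑_{T ⊆ primeFactors n} ∏_{p∈T} β p ∏_{p∉T} α p`
(`Finset.prod_add`), so `D n` is the sum over nonempty `T`; there are at most `2^{ω(n)}` subsets, so by
Cauchy-Schwarz `D(n)^2 ≤ 2^{ω(n)} ∑_{T ≠ ∅} ∏_{T} β^2 ∏_{T^c} α^2` and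
`D(n)^2 aa W n ≤ ∏_{p|n} (yα p + yβ p) - ∏_{p|n} yα p = aa (yα + yβ) n - aa yα n`.
Sum over `n < N`, `P` = primes below `N`: the sum over the `n ≠ 1`, `n` not prime, is at most
`∏_P (1 + yα + yβ) - ∏_P (1 + yα) - ∑_P yβ ≤ e^A (e^B - 1) - B`, `A = ∑_P yα ≤ Sα`, `B = ∑_P yβ ≤ Sβ`,
and `(e^A - 1)(e^B - 1) + (e^B - 1 - B) ≤ 1.73^2 A B + 0.73 B^2 ≤ 3 B (A + B)`.
-/

set_option autoImplicit false

namespace Pool.Agent.H97.EP

private theorem cb_cs (F : Finset ℕ) (α β : ℕ → ℝ) :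
    (∏ p ∈ F, (α p + β p) - ∏ p ∈ F, α p) ^ 2 ≤
      (2 : ℝ) ^ F.card * (∏ p ∈ F, (α p ^ 2 + β p ^ 2) - ∏ p ∈ F, α p ^ 2) := by
  have e1 : ∏ p ∈ F, (α p + β p) - ∏ p ∈ F, α p
      = ∑ T ∈ F.powerset.erase ∅, (∏ p ∈ T, β p) * ∏ p ∈ F \ T, α p := by
    have h1 : ∏ p ∈ F, (α p + β p) = ∑ T ∈ F.powerset, (∏ p ∈ T, β p) * ∏ p ∈ F \ T, α p := by
      rw [← Finset.prod_add]
      exact Finset.prod_congr rfl fun p _ => add_comm _ _
    rw [h1, ← Finset.add_sum_erase _ _ (Finset.empty_mem_powerset F)]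
    simp
  have e2 : ∏ p ∈ F, (α p ^ 2 + β p ^ 2) - ∏ p ∈ F, α p ^ 2
      = ∑ T ∈ F.powerset.erase ∅, ((∏ p ∈ T, β p) * ∏ p ∈ F \ T, α p) ^ 2 := by
    have h1 : ∏ p ∈ F, (α p ^ 2 + β p ^ 2)
        = ∑ T ∈ F.powerset, ((∏ p ∈ T, β p) * ∏ p ∈ F \ T, α p) ^ 2 := by
      have h2 : ∏ p ∈ F, (α p ^ 2 + β p ^ 2)
          = ∑ T ∈ F.powerset, (∏ p ∈ T, β p ^ 2) * ∏ p ∈ F \ T, α p ^ 2 := by
        rw [← Finset.prod_add]
        exact Finset.prod_congr rfl fun p _ => add_comm _ _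
      rw [h2]
      apply Finset.sum_congr rfl
      intro T _
      rw [mul_pow, Finset.prod_pow, Finset.prod_pow]
    rw [h1, ← Finset.add_sum_erase _ _ (Finset.empty_mem_powerset F)]
    simp [Finset.prod_pow]
  rw [e1, e2]
  refine (sq_sum_le_card_mul_sum_sq).trans ?_
  apply mul_le_mul_of_nonneg_right _ (Finset.sum_nonneg fun T _ => sq_nonneg _)
  have h3 : (F.powerset.erase ∅).card ≤ 2 ^ F.card := by
    refine (Finset.card_erase_le).trans ?_
    rw [Finset.card_powerset]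
  exact_mod_cast h3

private theorem cb_point (g : ℕ → ℝ) (hg : ∀ n, 0 ≤ g n) (α β : ℕ → ℝ) (n : ℕ) :
    (aa (fun p => α p + β p) n - aa α n) ^ 2 * aa (fun q => 4 * g q) n ≤
      aa (fun q => 8 * α q ^ 2 * g q + 8 * β q ^ 2 * g q) n - aa (fun q => 8 * α q ^ 2 * g q) n := by
  unfold aa
  by_cases hs : Squarefree n
  · simp only [if_pos hs]
    set F := n.primeFactors with hF
    have h1 : ∏ p ∈ F, (8 * α p ^ 2 * g p + 8 * β p ^ 2 * g p) - ∏ p ∈ F, 8 * α p ^ 2 * g p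
        = ((2 : ℝ) ^ F.card * (∏ p ∈ F, (α p ^ 2 + β p ^ 2) - ∏ p ∈ F, α p ^ 2)) *
          ∏ p ∈ F, 4 * g p := by
      have h2 : ∏ p ∈ F, (8 * α p ^ 2 * g p + 8 * β p ^ 2 * g p)
          = (2 : ℝ) ^ F.card * (∏ p ∈ F, (α p ^ 2 + β p ^ 2)) * ∏ p ∈ F, 4 * g p := by
        rw [← Finset.prod_const, ← Finset.prod_mul_distrib, ← Finset.prod_mul_distrib]
        apply Finset.prod_congr rfl
        intro p _
        ring
      have h3 : ∏ p ∈ F, 8 * α p ^ 2 * g p
          = (2 : ℝ) ^ F.card * (∏ p ∈ F, α p ^ 2) * ∏ p ∈ F, 4 * g p := by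
        rw [← Finset.prod_const, ← Finset.prod_mul_distrib, ← Finset.prod_mul_distrib]
        apply Finset.prod_congr rfl
        intro p _
        ring
      rw [h2, h3]
      ring
    rw [h1]
    apply mul_le_mul_of_nonneg_right (cb_cs F α β)
    apply Finset.prod_nonneg
    intro p _
    have := hg p
    positivity
  · simp [if_neg hs]

private theorem cb_range {a b : ℕ → ℝ} (ha : ∀ n, 0 ≤ a n) (hb : ∀ n, 0 ≤ b n) (N : ℕ) :
    ∑ n ∈ Finset.range N, (aa (fun q => a q + b q) n - aa a n) ≤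
      Real.exp (∑ p ∈ (Finset.range N).filter Nat.Prime, a p) *
        (Real.exp (∑ p ∈ (Finset.range N).filter Nat.Prime, b p) - 1) := by
  set P := (Finset.range N).filter Nat.Prime with hP
  have h1 : ∑ n ∈ Finset.range N, (aa (fun q => a q + b q) n - aa a n)
      = ∑ n ∈ (Finset.range N).filter Squarefree,
        (∏ p ∈ n.primeFactors, (a p + b p) - ∏ p ∈ n.primeFactors, a p) := by
    rw [Finset.sum_filter]
    apply Finset.sum_congr rfl
    intro n _
    unfold aa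
    split_ifs
    · rfl
    · simp
  have hinj : Set.InjOn Nat.primeFactors
      (((Finset.range N).filter Squarefree : Finset ℕ) : Set ℕ) := by
    intro x hx y hy hxy
    rw [Finset.mem_coe, Finset.mem_filter] at hx hy
    rw [← Nat.prod_primeFactors_of_squarefree hx.2, ← Nat.prod_primeFactors_of_squarefree hy.2,
      hxy]
  have h2 : ∑ n ∈ (Finset.range N).filter Squarefree,
        (∏ p ∈ n.primeFactors, (a p + b p) - ∏ p ∈ n.primeFactors, a p)
      = ∑ T ∈ ((Finset.range N).filter Squarefree).image Nat.primeFactors,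
        (∏ p ∈ T, (a p + b p) - ∏ p ∈ T, a p) := by
    rw [Finset.sum_image hinj]
  have h3 : ((Finset.range N).filter Squarefree).image Nat.primeFactors ⊆ P.powerset := by
    intro T hT
    rw [Finset.mem_image] at hT
    obtain ⟨n, hn, rfl⟩ := hT
    rw [Finset.mem_powerset]
    intro p hp
    rw [Finset.mem_filter, Finset.mem_range] at hn
    rw [hP, Finset.mem_filter, Finset.mem_range]
    exact ⟨(Nat.le_of_mem_primeFactors hp).trans_lt hn.1, Nat.prime_of_mem_primeFactors hp⟩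
  rw [h1, h2]
  have hA : ∏ p ∈ P, (1 + a p) ≤ Real.exp (∑ p ∈ P, a p) := by
    rw [Real.exp_sum]
    apply Finset.prod_le_prod
    · intro p _
      have := ha p
      linarith
    · intro p _
      have := Real.add_one_le_exp (a p)
      linarith
  have hB : ∏ p ∈ P, (1 + b p) ≤ Real.exp (∑ p ∈ P, b p) := by
    rw [Real.exp_sum]
    apply Finset.prod_le_prod
    · intro p _
      have := hb p
      linarith
    · intro p _
      have := Real.add_one_le_exp (b p)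
      linarith
  have hB1 : 1 ≤ ∏ p ∈ P, (1 + b p) := by
    calc (1 : ℝ) = ∏ p ∈ P, (1 : ℝ) := by simp
      _ ≤ ∏ p ∈ P, (1 + b p) := by
        apply Finset.prod_le_prod (fun _ _ => zero_le_one)
        intro p _
        have := hb p
        linarith
  calc ∑ T ∈ ((Finset.range N).filter Squarefree).image Nat.primeFactors,
        (∏ p ∈ T, (a p + b p) - ∏ p ∈ T, a p)
      ≤ ∑ T ∈ P.powerset, (∏ p ∈ T, (a p + b p) - ∏ p ∈ T, a p) := by
        apply Finset.sum_le_sum_of_subset_of_nonneg h3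
        intro T _ _
        rw [sub_nonneg]
        apply Finset.prod_le_prod
        · intro p _
          exact ha p
        · intro p _
          have := hb p
          linarith
    _ = ∏ p ∈ P, (1 + (a p + b p)) - ∏ p ∈ P, (1 + a p) := by
        rw [Finset.sum_sub_distrib, Finset.prod_one_add, Finset.prod_one_add]
    _ ≤ (∏ p ∈ P, (1 + a p)) * (∏ p ∈ P, (1 + b p)) - ∏ p ∈ P, (1 + a p) := by
        apply sub_le_sub_right
        rw [← Finset.prod_mul_distrib]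
        apply Finset.prod_le_prod
        · intro p _
          have := hb p
          have := ha p
          linarith
        · intro p _
          have := mul_nonneg (ha p) (hb p)
          nlinarith
    _ = (∏ p ∈ P, (1 + a p)) * (∏ p ∈ P, (1 + b p) - 1) := by ring
    _ ≤ Real.exp (∑ p ∈ P, a p) * (Real.exp (∑ p ∈ P, b p) - 1) := by
        apply mul_le_mul hA (by linarith) (by linarith) (Real.exp_pos _).le

private theorem cb_exp {x : ℝ} (h0 : 0 ≤ x) (h1 : x ≤ 1) :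
    Real.exp x ≤ 1 + x + x ^ 2 / 2 + 2 / 9 * x ^ 3 := by
  have h := Real.exp_bound' h0 h1 (n := 3) (by norm_num)
  simp only [Finset.sum_range_succ, Finset.sum_range_zero, Nat.factorial] at h
  norm_num at h
  linarith

private theorem cb_num {A B : ℝ} (hA : 0 ≤ A) (hA1 : A ≤ 1) (hB : 0 ≤ B) (hB1 : B ≤ 1) :
    Real.exp A * (Real.exp B - 1) - B ≤ 3 * B * (A + B) := by
  have h1 := cb_exp hA hA1
  have h2 := cb_exp hB hB1
  have hA2 : A ^ 2 ≤ A := by nlinarith
  have hA3 : A ^ 3 ≤ A := by nlinarith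
  have hB2 : B ^ 2 ≤ B := by nlinarith
  have hB3 : B ^ 3 ≤ B ^ 2 := by nlinarith [sq_nonneg B]
  have h3 : Real.exp A - 1 ≤ 31 / 18 * A := by linarith
  have h4 : Real.exp B - 1 - B ≤ 13 / 18 * B ^ 2 := by linarith
  have h5 : Real.exp B - 1 ≤ 31 / 18 * B := by linarith
  have h6 : 0 ≤ Real.exp A - 1 := by linarith [Real.one_le_exp hA]
  have h7 : 0 ≤ Real.exp B - 1 := by linarith [Real.one_le_exp hB]
  have h8 : (Real.exp A - 1) * (Real.exp B - 1) ≤ (31 / 18 * A) * (31 / 18 * B) :=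
    mul_le_mul h3 h5 h7 (by positivity)
  have h9 : 0 ≤ A * B := mul_nonneg hA hB
  nlinarith [sq_nonneg B]

theorem lip {κ : ℝ} (hκ : 0 ≤ κ) {α β : ℕ → ℝ} (hα : ∀ n, α n ≠ 0 → n.Prime ∧ 3 ≤ n)
    (hβ : ∀ n, β n ≠ 0 → n.Prime ∧ 3 ≤ n)
    (sα : Summable fun q : ℕ => 8 * α q ^ 2 * ((q : ℝ) ^ (-κ) * Real.log q))
    (sβ : Summable fun q : ℕ => 8 * β q ^ 2 * ((q : ℝ) ^ (-κ) * Real.log q))
    (hα1 : ∑' q : ℕ, 8 * α q ^ 2 * ((q : ℝ) ^ (-κ) * Real.log q) ≤ 1)
    (hβ1 : ∑' q : ℕ, 8 * β q ^ 2 * ((q : ℝ) ^ (-κ) * Real.log q) ≤ 1) :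
    (Summable fun n : ℕ => if n = 1 ∨ n.Prime then 0 else
      (aa (fun p => α p + β p) n - aa α n) ^ 2 *
        aa (fun q => 4 * ((q : ℝ) ^ (-κ) * Real.log q)) n) ∧
    (∑' n : ℕ, if n = 1 ∨ n.Prime then 0 else
      (aa (fun p => α p + β p) n - aa α n) ^ 2 *
        aa (fun q => 4 * ((q : ℝ) ^ (-κ) * Real.log q)) n) ≤
      3 * (∑' q : ℕ, 8 * β q ^ 2 * ((q : ℝ) ^ (-κ) * Real.log q)) *
        ((∑' q : ℕ, 8 * α q ^ 2 * ((q : ℝ) ^ (-κ) * Real.log q)) +
          ∑' q : ℕ, 8 * β q ^ 2 * ((q : ℝ) ^ (-κ) * Real.log q)) := by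
  set g : ℕ → ℝ := fun q => (q : ℝ) ^ (-κ) * Real.log q with hgdef
  have hg : ∀ n, 0 ≤ g n := fun n =>
    mul_nonneg (Real.rpow_nonneg (Nat.cast_nonneg n) _) (Real.log_natCast_nonneg n)
  set a : ℕ → ℝ := fun q => 8 * α q ^ 2 * g q with hadef
  set b : ℕ → ℝ := fun q => 8 * β q ^ 2 * g q with hbdef
  have ha : ∀ n, 0 ≤ a n := fun n => mul_nonneg (by positivity) (hg n)
  have hb : ∀ n, 0 ≤ b n := fun n => mul_nonneg (by positivity) (hg n)
  have hW : ∀ n, 0 ≤ aa (fun q => 4 * g q) n := aa_nonneg fun n => by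
    have := hg n
    positivity
  set S : ℕ → ℝ := fun n => if n = 1 ∨ n.Prime then 0 else
      (aa (fun p => α p + β p) n - aa α n) ^ 2 * aa (fun q => 4 * g q) n with hSdef
  have hS0 : ∀ n, 0 ≤ S n := by
    intro n
    simp only [hSdef]
    split_ifs
    · exact le_rfl
    · exact mul_nonneg (sq_nonneg _) (hW n)
  have hAB : ∀ n, S n + (if n.Prime then b n else 0)
      ≤ aa (fun q => a q + b q) n - aa a n := by
    intro n
    have h0 : 0 ≤ aa (fun q => a q + b q) n - aa a n := by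
      refine le_trans ?_ (cb_point g hg α β n)
      exact mul_nonneg (sq_nonneg _) (hW n)
    simp only [hSdef]
    by_cases h2 : n.Prime
    · rw [if_pos (Or.inr h2), if_pos h2, aa_prime _ h2, aa_prime _ h2]
      linarith
    · rw [if_neg h2]
      by_cases h1 : n = 1
      · rw [if_pos (Or.inl h1)]
        linarith
      · rw [if_neg (by tauto), add_zero]
        exact cb_point g hg α β n
  have hfin : ∀ N, ∑ n ∈ Finset.range N, S n ≤ 3 * (∑' q, b q) * ((∑' q, a q) + ∑' q, b q) := by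
    intro N
    set P := (Finset.range N).filter Nat.Prime with hP
    have h1 : ∑ n ∈ Finset.range N, S n + ∑ p ∈ P, b p
        ≤ Real.exp (∑ p ∈ P, a p) * (Real.exp (∑ p ∈ P, b p) - 1) := by
      refine le_trans ?_ (cb_range ha hb N)
      rw [hP, Finset.sum_filter, ← Finset.sum_add_distrib]
      exact Finset.sum_le_sum fun n _ => hAB n
    have hA : ∑ p ∈ P, a p ≤ ∑' q, a q := sα.sum_le_tsum _ (fun n _ => ha n)
    have hB : ∑ p ∈ P, b p ≤ ∑' q, b q := sβ.sum_le_tsum _ (fun n _ => hb n)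
    have hA0 : 0 ≤ ∑ p ∈ P, a p := Finset.sum_nonneg fun p _ => ha p
    have hB0 : 0 ≤ ∑ p ∈ P, b p := Finset.sum_nonneg fun p _ => hb p
    have h2 := cb_num hA0 (hA.trans hα1) hB0 (hB.trans hβ1)
    have h3 : 3 * (∑ p ∈ P, b p) * (∑ p ∈ P, a p + ∑ p ∈ P, b p)
        ≤ 3 * (∑' q, b q) * ((∑' q, a q) + ∑' q, b q) := by
      apply mul_le_mul (by linarith) (by linarith) (by linarith)
      have : 0 ≤ ∑' q, b q := hB0.trans hB
      positivity
    linarith
  exact ⟨summable_of_sum_range_le hS0 hfin, Real.tsum_le_of_sum_range_le hS0 hfin⟩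

end Pool.Agent.H97.EP

end
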