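import Pool.Agent.H47.B1.M40

/-! The parts of this file: H97.EP.ADefs, H97.EP.APs, H97.EP.AMass, H97.EP.ARep, H97.EP.AK, H97.EP.AOne, H97.EP.AFin, H97.EP.ABes, H91.PT.Sel, H3.LC.BT, H97.EP.CD, H97.EP.CE, H97.EP.ASol. -/

section

/-!
# Project EP, part A : definitions for the analytic part (helper95)
-/

set_option autoImplicit false
open MeasureTheory Set
open scoped ENNReal

namespace Pool.Agent.H97.EP

/-- The kernel of the difference estimate (`1/2 < s < 1`, step `h`). -/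
noncomputable def kk (s h r : ℝ) : ℝ :=
  if r < 4 * h then 64 * h ^ (2 * s - 1) else 50 * (1 - s) * h ^ (1 + s) * r ^ (s - 2)

/-- The error function `A(u) = ∫_0^∞ kk(r) (dr w s f)(u+r)² dr`. -/
noncomputable def AA (w s h : ℝ) (f : VR) (u : ℝ) : ℝ≥0∞ :=
  ∫⁻ r in Ioi (0 : ℝ), ENNReal.ofReal (kk s h r) * ENNReal.ofReal (dr w s f (u + r) ^ 2)

/-- The weight function `∑_i 4^{-i} x^{-κ δ_i}`, `κ = 2/d`. -/
noncomputable def ps (d x : ℝ) : ℝ := ∑' i : ℕ, (1 / 4 : ℝ) ^ i * x ^ (-(2 / d * dl i))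

end Pool.Agent.H97.EP

end

section

/-!
# Project EP, module `APs` : the weight `ps d x = ∑_i 4^{-i} x^{-κ δ_i}`

`x^{-κ δ_i} = exp(-2^{-i} y)`, `y = (2/d) (log x)/4 ≥ 0` for `x ≥ 1`.
Lower bound: take `i` with `max(1,y) ≤ 2^i ≤ 2 max(1,y)`; this term is `≥ 4^{-i} e^{-1} ≥ e^{-1}/(4 max(1,y)²)`.
Upper bound: for `y > 0`, `4^{-i} e^{-2^{-i}y} = y^{-2} φ(2^{-i}y)`, `φ(t) = t² e^{-t} ≤ min(t², 6/t)`; the terms with
`2^{-i}y ≤ 1` sum to at most `4/3`, those with `2^{-i} y > 1` to at most `12`; for `y ≤ 1` use `∑ 4^{-i} = 4/3`.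
(Any constants will do.)  `1 + log x` and `1 + y` are comparable with constants depending on `d`.
-/

set_option autoImplicit false
open MeasureTheory Set
open scoped ENNReal

namespace Pool.Agent.H97.EP

private theorem aps_term {d x : ℝ} (hd : 0 < d) (hx : 1 ≤ x) (i : ℕ) :
    (1 / 4 : ℝ) ^ i * x ^ (-(2 / d * dl i))
      = (1 / 4 : ℝ) ^ i * Real.exp (-((1 / 2 : ℝ) ^ i * (Real.log x / (2 * d)))) := by
  congr 1
  rw [Real.rpow_def_of_pos (by linarith)]
  congr 1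
  unfold dl
  field_simp
  ring

private theorem aps_bd {d x : ℝ} (hd : 0 < d) (hx : 1 ≤ x) (i : ℕ) :
    (1 / 4 : ℝ) ^ i * x ^ (-(2 / d * dl i)) ≤ (1 / 4 : ℝ) ^ i := by
  have h : x ^ (-(2 / d * dl i)) ≤ 1 := by
    apply Real.rpow_le_one_of_one_le_of_nonpos hx
    have : 0 ≤ 2 / d * dl i := by unfold dl; positivity
    linarith
  have h4 : (0 : ℝ) ≤ (1 / 4 : ℝ) ^ i := by positivity
  nlinarith

theorem ps_summable {d x : ℝ} (hd : 0 < d) (hx : 1 ≤ x) :
    Summable fun i : ℕ => (1 / 4 : ℝ) ^ i * x ^ (-(2 / d * dl i)) := by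
  refine Summable.of_nonneg_of_le (fun i => ?_) (fun i => aps_bd hd hx i)
    (summable_geometric_of_lt_one (by norm_num) (by norm_num))
  have : 0 ≤ x ^ (-(2 / d * dl i)) := Real.rpow_nonneg (by linarith) _
  positivity

private theorem aps_rpow {a : ℝ} (ha : 0 < a) : a ^ (-2 : ℝ) = 1 / a ^ 2 := by
  rw [Real.rpow_neg ha.le, Real.rpow_two, one_div]

theorem ps_lower {d : ℝ} (hd : 0 < d) :
    ∃ c : ℝ, 0 < c ∧ ∀ x : ℝ, 1 ≤ x → c * (1 + Real.log x) ^ (-2 : ℝ) ≤ ps d x := by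
  refine ⟨Real.exp (-1) / (4 * (1 + 1 / (2 * d)) ^ 2), by positivity, fun x hx => ?_⟩
  have hlog : 0 ≤ Real.log x := Real.log_nonneg hx
  set y := Real.log x / (2 * d) with hy
  have hy0 : 0 ≤ y := by positivity
  obtain ⟨n, hn1, hn2⟩ := exists_nat_pow_near (show (1 : ℝ) ≤ 1 + y by linarith)
    (show (1 : ℝ) < 2 by norm_num)
  have hterm : (1 / 4 : ℝ) ^ (n + 1) * x ^ (-(2 / d * dl (n + 1))) ≤ ps d x := by
    unfold ps
    exact (ps_summable hd hx).le_tsum (n + 1) (fun j _ => by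
      have : 0 ≤ x ^ (-(2 / d * dl j)) := Real.rpow_nonneg (by linarith) _
      positivity)
  refine le_trans ?_ hterm
  rw [aps_term hd hx, aps_rpow (by linarith)]
  have h2n : (0 : ℝ) < 2 ^ (n + 1) := by positivity
  have hexp : Real.exp (-1) ≤ Real.exp (-((1 / 2 : ℝ) ^ (n + 1) * y)) := by
    apply Real.exp_le_exp.mpr
    have : (1 / 2 : ℝ) ^ (n + 1) * y ≤ 1 := by
      rw [one_div, inv_pow, inv_mul_le_iff₀ h2n]
      linarith
    linarith
  have hc1 : 1 + y ≤ (1 + 1 / (2 * d)) * (1 + Real.log x) := by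
    have e : (1 + 1 / (2 * d)) * (1 + Real.log x) = 1 + y + Real.log x + 1 / (2 * d) := by
      rw [hy]
      field_simp
      ring
    rw [e]
    have : 0 ≤ 1 / (2 * d) := by positivity
    linarith
  have h4 : 1 / (4 * ((1 + 1 / (2 * d)) * (1 + Real.log x)) ^ 2) ≤ (1 / 4 : ℝ) ^ (n + 1) := by
    rw [one_div_pow]
    apply one_div_le_one_div_of_le (by positivity)
    have e : (4 : ℝ) ^ (n + 1) = 4 * (2 ^ n) ^ 2 := by
      rw [pow_succ, show (4 : ℝ) = 2 ^ 2 by norm_num, ← pow_mul, ← pow_mul]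
      ring
    rw [e]
    have : (2 : ℝ) ^ n ≤ (1 + 1 / (2 * d)) * (1 + Real.log x) := hn1.trans hc1
    have h := pow_le_pow_left₀ (by positivity) this 2
    linarith
  calc Real.exp (-1) / (4 * (1 + 1 / (2 * d)) ^ 2) * (1 / (1 + Real.log x) ^ 2)
      = 1 / (4 * ((1 + 1 / (2 * d)) * (1 + Real.log x)) ^ 2) * Real.exp (-1) := by
        have : 0 < 1 + Real.log x := by linarith
        field_simp
    _ ≤ (1 / 4 : ℝ) ^ (n + 1) * Real.exp (-((1 / 2 : ℝ) ^ (n + 1) * y)) :=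
        mul_le_mul h4 hexp (by positivity) (by positivity)

theorem ps_upper {d : ℝ} (hd : 0 < d) :
    ∃ C : ℝ, 0 < C ∧ ∀ x : ℝ, 1 ≤ x → ps d x ≤ C * (1 + Real.log x) ^ (-2 : ℝ) := by
  refine ⟨(12 * Real.exp 1 + 4 / 3) * (1 + 2 * d) ^ 2, by positivity, fun x hx => ?_⟩
  have hlog : 0 ≤ Real.log x := Real.log_nonneg hx
  set y := Real.log x / (2 * d) with hy
  have hy0 : 0 ≤ y := by positivity
  set z := 1 + y with hz
  have hz1 : 1 ≤ z := by linarith
  have hz0 : 0 < z := by linarith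
  obtain ⟨n, hn1, hn2⟩ := exists_nat_pow_near hz1 (show (1 : ℝ) < 2 by norm_num)
  have hsplit := (ps_summable hd hx).sum_add_tsum_nat_add (n + 1)
  have hps : ps d x = ∑ i ∈ Finset.range (n + 1), (1 / 4 : ℝ) ^ i * x ^ (-(2 / d * dl i))
      + ∑' i : ℕ, (1 / 4 : ℝ) ^ (i + (n + 1)) * x ^ (-(2 / d * dl (i + (n + 1)))) := by
    unfold ps
    exact hsplit.symm
  have hA : ∑ i ∈ Finset.range (n + 1), (1 / 4 : ℝ) ^ i * x ^ (-(2 / d * dl i))
      ≤ 12 * Real.exp 1 / z ^ 2 := by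
    have hi : ∀ i ∈ Finset.range (n + 1), (1 / 4 : ℝ) ^ i * x ^ (-(2 / d * dl i))
        ≤ 6 * Real.exp 1 / z ^ 3 * 2 ^ i := by
      intro i _
      rw [aps_term hd hx]
      have hp : (0 : ℝ) < (1 / 2 : ℝ) ^ i := by positivity
      have hp1 : (1 / 2 : ℝ) ^ i ≤ 1 := pow_le_one₀ (by norm_num) (by norm_num)
      set t := (1 / 2 : ℝ) ^ i * z with ht
      have ht0 : 0 < t := by positivity
      have e1 : -((1 / 2 : ℝ) ^ i * y) ≤ 1 + -t := by
        rw [ht, hz, mul_add, mul_one]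
        linarith
      have e2 : t ^ 3 / 6 ≤ Real.exp t := by
        have := Real.pow_div_factorial_le_exp t ht0.le 3
        norm_num [Nat.factorial] at this
        exact this
      have e3 : Real.exp (-((1 / 2 : ℝ) ^ i * y)) ≤ Real.exp 1 * (6 / t ^ 3) := by
        calc Real.exp (-((1 / 2 : ℝ) ^ i * y)) ≤ Real.exp (1 + -t) := Real.exp_le_exp.mpr e1
          _ = Real.exp 1 * (Real.exp t)⁻¹ := by rw [Real.exp_add, Real.exp_neg]
          _ ≤ Real.exp 1 * (6 / t ^ 3) := by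
            apply mul_le_mul_of_nonneg_left _ (Real.exp_pos 1).le
            rw [show 6 / t ^ 3 = (t ^ 3 / 6)⁻¹ by rw [inv_div]]
            exact inv_anti₀ (by positivity) e2
      calc (1 / 4 : ℝ) ^ i * Real.exp (-((1 / 2 : ℝ) ^ i * y))
          ≤ (1 / 4 : ℝ) ^ i * (Real.exp 1 * (6 / t ^ 3)) :=
            mul_le_mul_of_nonneg_left e3 (by positivity)
        _ = 6 * Real.exp 1 / z ^ 3 * 2 ^ i := by
            rw [ht]
            have f1 : (1 / 4 : ℝ) ^ i = (((2 : ℝ) ^ i)⁻¹) ^ 2 := by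
              rw [one_div, inv_pow, ← inv_pow, ← inv_pow, show (4 : ℝ) = 2 ^ 2 by norm_num]
              rw [← inv_pow, ← pow_mul, ← pow_mul, mul_comm]
            have f2 : (1 / 2 : ℝ) ^ i = ((2 : ℝ) ^ i)⁻¹ := by rw [one_div, inv_pow]
            rw [f1, f2]
            have f3 : (2 : ℝ) ^ i ≠ 0 := by positivity
            field_simp
    calc ∑ i ∈ Finset.range (n + 1), (1 / 4 : ℝ) ^ i * x ^ (-(2 / d * dl i))
        ≤ ∑ i ∈ Finset.range (n + 1), 6 * Real.exp 1 / z ^ 3 * 2 ^ i := Finset.sum_le_sum hi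
      _ = 6 * Real.exp 1 / z ^ 3 * ∑ i ∈ Finset.range (n + 1), (2 : ℝ) ^ i := by
          rw [Finset.mul_sum]
      _ ≤ 6 * Real.exp 1 / z ^ 3 * (2 * z) := by
          apply mul_le_mul_of_nonneg_left _ (by positivity)
          rw [geom_sum_eq (by norm_num)]
          rw [pow_succ]
          norm_num
          linarith
      _ = 12 * Real.exp 1 / z ^ 2 := by
          field_simp
          ring
  have hB : ∑' i : ℕ, (1 / 4 : ℝ) ^ (i + (n + 1)) * x ^ (-(2 / d * dl (i + (n + 1))))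
      ≤ 4 / 3 / z ^ 2 := by
    have hs1 : Summable fun i : ℕ => (1 / 4 : ℝ) ^ (i + (n + 1)) * x ^ (-(2 / d * dl (i + (n + 1)))) :=
      (summable_nat_add_iff (f := fun i : ℕ => (1 / 4 : ℝ) ^ i * x ^ (-(2 / d * dl i))) (n + 1)).mpr
        (ps_summable hd hx)
    have hs2 : Summable fun i : ℕ => (1 / 4 : ℝ) ^ i * (1 / 4 : ℝ) ^ (n + 1) :=
      (summable_geometric_of_lt_one (by norm_num) (by norm_num)).mul_right _
    calc ∑' i : ℕ, (1 / 4 : ℝ) ^ (i + (n + 1)) * x ^ (-(2 / d * dl (i + (n + 1))))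
        ≤ ∑' i : ℕ, (1 / 4 : ℝ) ^ i * (1 / 4 : ℝ) ^ (n + 1) := by
          apply hs1.tsum_le_tsum _ hs2
          intro i
          rw [← pow_add]
          exact aps_bd hd hx _
      _ = 4 / 3 * (1 / 4 : ℝ) ^ (n + 1) := by
          rw [tsum_mul_right, tsum_geometric_of_lt_one (by norm_num) (by norm_num)]
          norm_num
      _ ≤ 4 / 3 * (1 / z ^ 2) := by
          apply mul_le_mul_of_nonneg_left _ (by norm_num)
          rw [one_div_pow]
          apply one_div_le_one_div_of_le (by positivity)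
          have e : (4 : ℝ) ^ (n + 1) = (2 ^ (n + 1)) ^ 2 := by
            rw [show (4 : ℝ) = 2 ^ 2 by norm_num, ← pow_mul, ← pow_mul, mul_comm]
          rw [e]
          exact pow_le_pow_left₀ hz0.le hn2.le 2
      _ = 4 / 3 / z ^ 2 := by ring
  rw [hps, aps_rpow (by linarith)]
  have hC : 1 + Real.log x ≤ (1 + 2 * d) * z := by
    have : Real.log x = 2 * d * y := by rw [hy]; field_simp
    rw [this, hz]
    nlinarith
  have hC2 : 1 / z ^ 2 ≤ (1 + 2 * d) ^ 2 * (1 / (1 + Real.log x) ^ 2) := by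
    rw [mul_one_div, div_le_div_iff₀ (by positivity) (by positivity), one_mul, ← mul_pow]
    exact pow_le_pow_left₀ (by linarith) hC 2
  calc _ ≤ 12 * Real.exp 1 / z ^ 2 + 4 / 3 / z ^ 2 := add_le_add hA hB
    _ = (12 * Real.exp 1 + 4 / 3) * (1 / z ^ 2) := by ring
    _ ≤ (12 * Real.exp 1 + 4 / 3) * ((1 + 2 * d) ^ 2 * (1 / (1 + Real.log x) ^ 2)) :=
        mul_le_mul_of_nonneg_left hC2 (by positivity)
    _ = (12 * Real.exp 1 + 4 / 3) * (1 + 2 * d) ^ 2 * (1 / (1 + Real.log x) ^ 2) := by ring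

end Pool.Agent.H97.EP

end

section

/-!
# Project EP, module `AMass` : mass of the kernel, Tonelli

`∫_0^∞ kk = 64 h^{2s-1}·4h + 50 (1-s) h^{1+s} (4h)^{s-1}/(1-s) = 256 h^{2s} + 50·4^{s-1} h^{2s} ≤ 306 h^{2s}`.
For `h = 1/2`: `kk ≤ 64` (`r < 2`: `64·(1/2)^{2s-1}`; `r ≥ 2`: `50 (1-s) (1/2)^{1+s} r^{s-2}`).
`conv_le`: Tonelli (`lintegral_lintegral_swap`) and, for fixed `r > 0`, `u^e ≤ (u+r)^e` and translation invariance:
`∫_{u>0} u^e R(u+r) du ≤ ∫_{v>r} v^e R(v) dv`.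
`AA_int`: `conv_le` with `k = ofReal ∘ kk s h`, `R v = ofReal (dr w s f v ^ 2)`.
`AA_half`: `∫ kk (1/2) R(u+r)² dr ≤ 64 ∫_{v>u} R²`, and `u^e ≤ v^e`.
-/

set_option autoImplicit false
open MeasureTheory Set
open scoped ENNReal

namespace Pool.Agent.H97.EP

private theorem amass_meas (s h : ℝ) : Measurable (kk s h) := by
  unfold kk
  apply Measurable.ite measurableSet_Iio measurable_const
  exact (measurable_id.pow_const _).const_mul _

theorem kk_mass {s h : ℝ} (hs : 3 / 4 ≤ s) (hs1 : s < 1) (hh : 0 < h) :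
    ∫⁻ r in Ioi (0 : ℝ), ENNReal.ofReal (kk s h r) ≤ ENNReal.ofReal (306 * h ^ (2 * s)) := by
  have h4 : 0 < 4 * h := by linarith
  have hU : Ioi (0 : ℝ) = Ioo 0 (4 * h) ∪ Ici (4 * h) := (Ioo_union_Ici_eq_Ioi h4).symm
  rw [hU]
  refine (lintegral_union_le _ _ _).trans ?_
  have h1 : ∫⁻ r in Ioo (0 : ℝ) (4 * h), ENNReal.ofReal (kk s h r)
      ≤ ENNReal.ofReal (256 * h ^ (2 * s)) := by
    calc ∫⁻ r in Ioo (0 : ℝ) (4 * h), ENNReal.ofReal (kk s h r)
        = ∫⁻ r in Ioo (0 : ℝ) (4 * h), ENNReal.ofReal (64 * h ^ (2 * s - 1)) := by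
          refine setLIntegral_congr_fun measurableSet_Ioo fun r hr => ?_
          unfold kk
          rw [if_pos hr.2]
      _ = ENNReal.ofReal (64 * h ^ (2 * s - 1)) * ENNReal.ofReal (4 * h) := by
          rw [setLIntegral_const, Real.volume_Ioo, sub_zero]
      _ = ENNReal.ofReal (256 * h ^ (2 * s)) := by
          rw [← ENNReal.ofReal_mul (by positivity)]
          congr 1
          have : h ^ (2 * s) = h ^ (2 * s - 1) * h := by
            rw [← Real.rpow_add_one hh.ne']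
            congr 1
            ring
          rw [this]
          ring
      _ ≤ _ := le_refl _
  have h2 : ∫⁻ r in Ici (4 * h), ENNReal.ofReal (kk s h r)
      ≤ ENNReal.ofReal (50 * h ^ (2 * s)) := by
    calc ∫⁻ r in Ici (4 * h), ENNReal.ofReal (kk s h r)
        = ∫⁻ r in Ici (4 * h), ENNReal.ofReal (50 * (1 - s) * h ^ (1 + s) * r ^ (s - 2)) := by
          refine setLIntegral_congr_fun measurableSet_Ici fun r hr => ?_
          unfold kk
          rw [if_neg (not_lt.mpr hr)]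
      _ = ∫⁻ r in Ioi (4 * h), ENNReal.ofReal (50 * (1 - s) * h ^ (1 + s) * r ^ (s - 2)) :=
          setLIntegral_congr Ioi_ae_eq_Ici.symm
      _ = ENNReal.ofReal (∫ r in Ioi (4 * h), 50 * (1 - s) * h ^ (1 + s) * r ^ (s - 2)) := by
          rw [ofReal_integral_eq_lintegral_ofReal]
          · exact (integrableOn_Ioi_rpow_of_lt (by linarith) h4).const_mul _
          · filter_upwards [ae_restrict_mem measurableSet_Ioi] with r hr
            have hr0 : (0 : ℝ) < r := h4.trans hr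
            have : 0 ≤ 1 - s := by linarith
            show 0 ≤ 50 * (1 - s) * h ^ (1 + s) * r ^ (s - 2)
            positivity
      _ ≤ ENNReal.ofReal (50 * h ^ (2 * s)) := by
          apply ENNReal.ofReal_le_ofReal
          rw [integral_const_mul, integral_Ioi_rpow_of_lt (by linarith) h4]
          have e1 : s - 2 + 1 = -(1 - s) := by ring
          have e0 : 0 < 1 - s := by linarith
          rw [e1, neg_div_neg_eq]
          have e2 : 50 * (1 - s) * h ^ (1 + s) * ((4 * h) ^ (-(1 - s)) / (1 - s))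
              = 50 * (h ^ (1 + s) * (4 * h) ^ (-(1 - s))) := by
            field_simp
          rw [e2]
          apply mul_le_mul_of_nonneg_left _ (by norm_num)
          rw [Real.mul_rpow (by norm_num) hh.le]
          have e3 : (4 : ℝ) ^ (-(1 - s)) ≤ 1 :=
            Real.rpow_le_one_of_one_le_of_nonpos (by norm_num) (by linarith)
          have e4 : h ^ (2 * s) = h ^ (1 + s) * h ^ (-(1 - s)) := by
            rw [← Real.rpow_add hh]
            congr 1
            ring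
          rw [e4]
          have e5 := Real.rpow_pos_of_pos hh (1 + s)
          have e6 := Real.rpow_pos_of_pos hh (-(1 - s))
          have e7 : (4 : ℝ) ^ (-(1 - s)) * h ^ (-(1 - s)) ≤ h ^ (-(1 - s)) := by
            nlinarith
          exact mul_le_mul_of_nonneg_left e7 e5.le
  refine (add_le_add h1 h2).trans ?_
  rw [← ENNReal.ofReal_add (by positivity) (by positivity)]
  apply ENNReal.ofReal_le_ofReal
  have := Real.rpow_pos_of_pos hh (2 * s)
  linarith

private theorem amass_shift (F : ℝ → ℝ≥0∞) (r : ℝ) :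
    ∫⁻ u in Ioi (0 : ℝ), F (u + r) = ∫⁻ v in Ioi r, F v := by
  have h := (measurePreserving_add_right (volume : Measure ℝ) r).setLIntegral_comp_emb
    (MeasurableEquiv.addRight r).measurableEmbedding F (Ioi 0)
  rw [image_add_const_Ioi, zero_add] at h
  exact h

theorem conv_le {e : ℝ} (he : 0 ≤ e) (k R : ℝ → ℝ≥0∞) (hk : Measurable k) (hR : Measurable R) :
    ∫⁻ u in Ioi (0 : ℝ), ENNReal.ofReal (u ^ e) * ∫⁻ r in Ioi (0 : ℝ), k r * R (u + r) ≤
      (∫⁻ r in Ioi (0 : ℝ), k r) * ∫⁻ v in Ioi (0 : ℝ), ENNReal.ofReal (v ^ e) * R v := by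
  set J := ∫⁻ v in Ioi (0 : ℝ), ENNReal.ofReal (v ^ e) * R v with hJ
  have hpow : Measurable fun u : ℝ => ENNReal.ofReal (u ^ e) :=
    (measurable_id.pow_const e).ennreal_ofReal
  have h0 : ∀ u : ℝ, Measurable fun r : ℝ => k r * R (u + r) := fun u =>
    hk.mul (hR.comp (measurable_const_add u))
  have h1 : ∫⁻ u in Ioi (0 : ℝ), ENNReal.ofReal (u ^ e) * ∫⁻ r in Ioi (0 : ℝ), k r * R (u + r)
      = ∫⁻ u in Ioi (0 : ℝ), ∫⁻ r in Ioi (0 : ℝ), ENNReal.ofReal (u ^ e) * (k r * R (u + r)) := by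
    congr 1
    funext u
    rw [lintegral_const_mul _ (h0 u)]
  rw [h1, lintegral_lintegral_swap]
  · calc ∫⁻ r in Ioi (0 : ℝ), ∫⁻ u in Ioi (0 : ℝ), ENNReal.ofReal (u ^ e) * (k r * R (u + r))
        ≤ ∫⁻ r in Ioi (0 : ℝ), k r * J := by
          refine setLIntegral_mono' measurableSet_Ioi fun r hr => ?_
          have hr0 : (0 : ℝ) < r := hr
          calc ∫⁻ u in Ioi (0 : ℝ), ENNReal.ofReal (u ^ e) * (k r * R (u + r))
              ≤ ∫⁻ u in Ioi (0 : ℝ), k r * (ENNReal.ofReal ((u + r) ^ e) * R (u + r)) := by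
                refine setLIntegral_mono' measurableSet_Ioi fun u hu => ?_
                have hu0 : (0 : ℝ) < u := hu
                rw [← mul_assoc, mul_comm (ENNReal.ofReal (u ^ e)) (k r), mul_assoc]
                gcongr
                linarith
            _ = k r * ∫⁻ u in Ioi (0 : ℝ), ENNReal.ofReal ((u + r) ^ e) * R (u + r) := by
                rw [lintegral_const_mul]
                exact (hpow.comp (measurable_add_const r)).mul (hR.comp (measurable_add_const r))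
            _ = k r * ∫⁻ v in Ioi r, ENNReal.ofReal (v ^ e) * R v := by
                rw [amass_shift (fun v => ENNReal.ofReal (v ^ e) * R v) r]
            _ ≤ k r * J := by
                gcongr
                exact lintegral_mono_set (Ioi_subset_Ioi hr0.le)
      _ = (∫⁻ r in Ioi (0 : ℝ), k r) * J := by
          rw [lintegral_mul_const _ hk]
  · apply Measurable.aemeasurable
    have h2 : Measurable fun p : ℝ × ℝ => ENNReal.ofReal (p.1 ^ e) * (k p.2 * R (p.1 + p.2)) :=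
      (hpow.comp measurable_fst).mul
        ((hk.comp measurable_snd).mul (hR.comp (measurable_fst.add measurable_snd)))
    exact h2

private theorem amass_dr (w s : ℝ) (f : VR) :
    Measurable fun v : ℝ => ENNReal.ofReal (dr w s f v ^ 2) :=
  ((dr_cont w s f).measurable.pow_const 2).ennreal_ofReal

theorem AA_meas (w s h : ℝ) (f : VR) : Measurable (AA w s h f) := by
  unfold AA
  apply Measurable.lintegral_prod_right
  exact ((amass_meas s h).ennreal_ofReal.comp measurable_snd).mul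
    ((amass_dr w s f).comp (measurable_fst.add measurable_snd))

theorem AA_int {w s h e : ℝ} (he : 0 ≤ e) (hs : 3 / 4 ≤ s) (hs1 : s < 1) (hh : 0 < h) (f : VR) :
    ∫⁻ u in Ioi (0 : ℝ), ENNReal.ofReal (u ^ e) * AA w s h f u ≤
      ENNReal.ofReal (306 * h ^ (2 * s)) * MM e (dr w s f) := by
  unfold AA
  refine (conv_le he (fun r => ENNReal.ofReal (kk s h r)) _ (amass_meas s h).ennreal_ofReal
    (amass_dr w s f)).trans ?_
  have hMM : ∫⁻ v in Ioi (0 : ℝ), ENNReal.ofReal (v ^ e) * ENNReal.ofReal (dr w s f v ^ 2)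
      = MM e (dr w s f) := by
    unfold MM
    refine setLIntegral_congr_fun measurableSet_Ioi fun u hu => ?_
    rw [ENNReal.ofReal_mul (Real.rpow_nonneg (le_of_lt hu) e)]
  rw [hMM]
  gcongr
  exact kk_mass hs hs1 hh

private theorem amass_half {s : ℝ} (hs : 3 / 4 ≤ s) (hs1 : s < 1) {r : ℝ} (hr : 0 < r) :
    kk s (1 / 2) r ≤ 64 := by
  unfold kk
  split_ifs with h
  · have : (1 / 2 : ℝ) ^ (2 * s - 1) ≤ 1 :=
      Real.rpow_le_one (by norm_num) (by norm_num) (by linarith)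
    linarith
  · have h1 : (1 / 2 : ℝ) ^ (1 + s) ≤ 1 :=
      Real.rpow_le_one (by norm_num) (by norm_num) (by linarith)
    have h2 : r ^ (s - 2) ≤ 1 :=
      Real.rpow_le_one_of_one_le_of_nonpos (by linarith) (by linarith)
    have h3 : 0 ≤ (1 / 2 : ℝ) ^ (1 + s) := by positivity
    have h4 : 0 ≤ r ^ (s - 2) := by positivity
    have h5 : (1 / 2 : ℝ) ^ (1 + s) * r ^ (s - 2) ≤ 1 := mul_le_one₀ h1 h4 h2
    have h6 : 0 ≤ (1 / 2 : ℝ) ^ (1 + s) * r ^ (s - 2) := by positivity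
    have h7 : 50 * (1 - s) * (1 / 2 : ℝ) ^ (1 + s) * r ^ (s - 2)
        = 50 * ((1 - s) * ((1 / 2 : ℝ) ^ (1 + s) * r ^ (s - 2))) := by ring
    rw [h7]
    have h8 : (1 - s) * ((1 / 2 : ℝ) ^ (1 + s) * r ^ (s - 2)) ≤ 1 :=
      mul_le_one₀ (by linarith) h6 h5
    linarith

theorem AA_half {w s e : ℝ} (he : 0 ≤ e) (hs : 3 / 4 ≤ s) (hs1 : s < 1) (f : VR) {u : ℝ} (hu : 0 < u) :
    ENNReal.ofReal (u ^ e) * AA w s (1 / 2) f u ≤ 64 * MM e (dr w s f) := by
  unfold AA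
  have h1 : ∫⁻ r in Ioi (0 : ℝ), ENNReal.ofReal (kk s (1 / 2) r) * ENNReal.ofReal (dr w s f (u + r) ^ 2)
      ≤ 64 * ∫⁻ v in Ioi u, ENNReal.ofReal (dr w s f v ^ 2) := by
    calc ∫⁻ r in Ioi (0 : ℝ), ENNReal.ofReal (kk s (1 / 2) r) * ENNReal.ofReal (dr w s f (u + r) ^ 2)
        ≤ ∫⁻ r in Ioi (0 : ℝ), 64 * ENNReal.ofReal (dr w s f (r + u) ^ 2) := by
          refine setLIntegral_mono' measurableSet_Ioi fun r hr => ?_
          rw [add_comm u r]
          gcongr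
          calc ENNReal.ofReal (kk s (1 / 2) r) ≤ ENNReal.ofReal 64 :=
                ENNReal.ofReal_le_ofReal (amass_half hs hs1 hr)
            _ = 64 := by norm_num
      _ = 64 * ∫⁻ r in Ioi (0 : ℝ), ENNReal.ofReal (dr w s f (r + u) ^ 2) := by
          rw [lintegral_const_mul]
          exact (amass_dr w s f).comp (measurable_add_const u)
      _ = 64 * ∫⁻ v in Ioi u, ENNReal.ofReal (dr w s f v ^ 2) := by
          rw [amass_shift (fun v => ENNReal.ofReal (dr w s f v ^ 2)) u]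
  calc ENNReal.ofReal (u ^ e) * ∫⁻ r in Ioi (0 : ℝ), ENNReal.ofReal (kk s (1 / 2) r)
        * ENNReal.ofReal (dr w s f (u + r) ^ 2)
      ≤ ENNReal.ofReal (u ^ e) * (64 * ∫⁻ v in Ioi u, ENNReal.ofReal (dr w s f v ^ 2)) := by
        gcongr
    _ = 64 * ∫⁻ v in Ioi u, ENNReal.ofReal (u ^ e) * ENNReal.ofReal (dr w s f v ^ 2) := by
        rw [lintegral_const_mul _ (amass_dr w s f)]
        ring
    _ ≤ 64 * ∫⁻ v in Ioi u, ENNReal.ofReal (v ^ e * dr w s f v ^ 2) := by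
        gcongr 64 * ?_
        refine setLIntegral_mono' measurableSet_Ioi fun v hv => ?_
        have hv0 : 0 < v := hu.trans hv
        rw [ENNReal.ofReal_mul (by positivity)]
        gcongr
        exact le_of_lt hv
    _ ≤ 64 * MM e (dr w s f) := by
        unfold MM
        gcongr 64 * ?_
        exact lintegral_mono_set (Ioi_subset_Ioi hu.le)

end Pool.Agent.H97.EP

end

section

/-!
# Project EP, module `ARep` : `p` from its fractional derivative; `Γ(s) ≥ 1` on `(0,1]`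

`∫_0^∞ r^{s-1} e^{-tr} dr = Γ(s) t^{-s}` (`Real.integral_rpow_mul_exp_neg_mul_Ioi`), applied to the two
exponentials of every term: `t^s e^{-t(u+r)}` gives `Γ(s) e^{-tu}`, `t^{-w-s} e^{-(u+r)/t}` gives
`Γ(s) t^{-w} e^{-u/t}`.  Integrability: `integrableOn_rpow_mul_exp_neg_mul_rpow` or `GammaIntegral`.
`Γ(s) ≥ 1` for `0 < s ≤ 1`: `Real.convexOn_Gamma`, `Γ(1) = Γ(2) = 1`, `1` lies between `s` and `2`.
`rep_diff`: for `τ = x - u ≥ 0` the substitution `r ↦ r - τ` in the second integral: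
`∫_0^∞ r^{s-1} R(x+r) dr = ∫_{r>τ} (r-τ)^{s-1} R(u+r) dr`.
-/

set_option autoImplicit false
open MeasureTheory Set
open scoped ENNReal

namespace Pool.Agent.H97.EP

theorem one_le_Gamma {s : ℝ} (hs : 0 < s) (hs1 : s ≤ 1) : 1 ≤ Real.Gamma s := by
  have h2s : (0 : ℝ) < 2 - s := by linarith
  have h := Real.convexOn_Gamma.2 (show s ∈ Ioi (0 : ℝ) from hs)
    (show (2 : ℝ) ∈ Ioi (0 : ℝ) from by norm_num)
    (show (0 : ℝ) ≤ 1 / (2 - s) by positivity)
    (show (0 : ℝ) ≤ (1 - s) / (2 - s) from div_nonneg (by linarith) h2s.le)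
    (by field_simp; ring)
  have h1 : (1 / (2 - s)) • s + ((1 - s) / (2 - s)) • (2 : ℝ) = 1 := by
    rw [smul_eq_mul, smul_eq_mul]
    field_simp
    ring
  rw [h1, Real.Gamma_one, Real.Gamma_two, smul_eq_mul, smul_eq_mul, mul_one] at h
  have h3 : (1 / (2 - s)) * Real.Gamma s + (1 - s) / (2 - s) =
      (Real.Gamma s + (1 - s)) / (2 - s) := by
    field_simp
  rw [h3, le_div_iff₀ h2s] at h
  linarith

private lemma arep_int {s a : ℝ} (hs : 0 < s) (ha : 0 < a) :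
    IntegrableOn (fun r : ℝ => r ^ (s - 1) * Real.exp (-(a * r))) (Ioi 0) := by
  have h := integrableOn_rpow_mul_exp_neg_mul_rpow (s := s - 1) (p := 1) (b := a) (by linarith)
    one_pos ha
  refine h.congr_fun (fun r _ => ?_) measurableSet_Ioi
  simp only [Real.rpow_one, neg_mul]

private lemma arep_term {s : ℝ} (hs : 0 < s) (w t u : ℝ) (ht : 0 < t) :
    IntegrableOn (fun r : ℝ => r ^ (s - 1) * (t ^ s * Real.exp (-(t * (u + r))) -
      t ^ (-w - s) * Real.exp (-((u + r) / t)))) (Ioi 0) ∧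
    ∫ r in Ioi (0 : ℝ), r ^ (s - 1) * (t ^ s * Real.exp (-(t * (u + r))) -
      t ^ (-w - s) * Real.exp (-((u + r) / t))) =
      Real.Gamma s * (Real.exp (-(t * u)) - t ^ (-w) * Real.exp (-(u / t))) := by
  have hti : 0 < 1 / t := by positivity
  have i1 := arep_int hs ht
  have i2 := arep_int hs hti
  have e : ∀ r : ℝ, r ^ (s - 1) * (t ^ s * Real.exp (-(t * (u + r))) -
      t ^ (-w - s) * Real.exp (-((u + r) / t))) =
      (t ^ s * Real.exp (-(t * u))) * (r ^ (s - 1) * Real.exp (-(t * r))) -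
      (t ^ (-w - s) * Real.exp (-(u / t))) * (r ^ (s - 1) * Real.exp (-(1 / t * r))) := by
    intro r
    have h1 : Real.exp (-(t * (u + r))) = Real.exp (-(t * u)) * Real.exp (-(t * r)) := by
      rw [← Real.exp_add]
      congr 1
      ring
    have h2 : Real.exp (-((u + r) / t)) = Real.exp (-(u / t)) * Real.exp (-(1 / t * r)) := by
      rw [← Real.exp_add]
      congr 1
      ring
    rw [h1, h2]
    ring
  simp only [e]
  refine ⟨(i1.const_mul _).sub (i2.const_mul _), ?_⟩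
  rw [integral_sub (i1.const_mul _) (i2.const_mul _), integral_const_mul, integral_const_mul,
    Real.integral_rpow_mul_exp_neg_mul_Ioi hs ht, Real.integral_rpow_mul_exp_neg_mul_Ioi hs hti]
  have h3 : t ^ s * (1 / t) ^ s = 1 := by
    rw [← Real.mul_rpow ht.le hti.le, mul_one_div_cancel ht.ne', Real.one_rpow]
  have h4 : t ^ (-w - s) * (1 / (1 / t)) ^ s = t ^ (-w) := by
    rw [one_div_one_div, ← Real.rpow_add ht]
    congr 1
    ring
  calc t ^ s * Real.exp (-(t * u)) * ((1 / t) ^ s * Real.Gamma s) -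
      t ^ (-w - s) * Real.exp (-(u / t)) * ((1 / (1 / t)) ^ s * Real.Gamma s) =
      Real.Gamma s * ((t ^ s * (1 / t) ^ s) * Real.exp (-(t * u)) -
        (t ^ (-w - s) * (1 / (1 / t)) ^ s) * Real.exp (-(u / t))) := by ring
    _ = _ := by rw [h3, h4, one_mul]

theorem rep {w s : ℝ} (hs : 0 < s) (f : VR) (u : ℝ) :
    IntegrableOn (fun r : ℝ => r ^ (s - 1) * dr w s f (u + r)) (Ioi 0) ∧
    ∫ r in Ioi (0 : ℝ), r ^ (s - 1) * dr w s f (u + r) = Real.Gamma s * pr w f u := by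
  have e : (fun r : ℝ => r ^ (s - 1) * dr w s f (u + r)) = fun r : ℝ =>
      ∑ t ∈ f.support, f t * (r ^ (s - 1) * (t.1 ^ s * Real.exp (-(t.1 * (u + r))) -
        t.1 ^ (-w - s) * Real.exp (-((u + r) / t.1)))) := by
    funext r
    rw [dr, Finsupp.sum, Finset.mul_sum]
    refine Finset.sum_congr rfl fun t _ => ?_
    ring
  rw [e]
  have hi : ∀ t ∈ f.support, Integrable (fun r : ℝ => f t * (r ^ (s - 1) *
      (t.1 ^ s * Real.exp (-(t.1 * (u + r))) - t.1 ^ (-w - s) * Real.exp (-((u + r) / t.1)))))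
      (volume.restrict (Ioi 0)) := fun t _ => (arep_term hs w t.1 u t.2).1.const_mul _
  refine ⟨integrable_finsetSum _ hi, ?_⟩
  rw [integral_finsetSum _ hi, pr, Finsupp.sum, Finset.mul_sum]
  refine Finset.sum_congr rfl fun t _ => ?_
  rw [integral_const_mul, (arep_term hs w t.1 u t.2).2]
  ring

/-- The kernel of the difference. -/
noncomputable def GG (s τ r : ℝ) : ℝ := r ^ (s - 1) - if τ < r then (r - τ) ^ (s - 1) else 0

private lemma arep_shift (s τ x u : ℝ) (R : ℝ → ℝ) (hτ : 0 ≤ τ) (hx : x = u + τ)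
    (hi : IntegrableOn (fun r : ℝ => r ^ (s - 1) * R (x + r)) (Ioi 0)) :
    IntegrableOn (fun r : ℝ => (if τ < r then (r - τ) ^ (s - 1) else 0) * R (u + r)) (Ioi 0) ∧
    ∫ r in Ioi (0 : ℝ), (if τ < r then (r - τ) ^ (s - 1) else 0) * R (u + r) =
      ∫ r in Ioi (0 : ℝ), r ^ (s - 1) * R (x + r) := by
  have e : (Ioi (0 : ℝ)).indicator (fun r : ℝ => (if τ < r then (r - τ) ^ (s - 1) else 0) * R (u + r)) =
      fun r => (Ioi (0 : ℝ)).indicator (fun r : ℝ => r ^ (s - 1) * R (x + r)) (r - τ) := by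
    funext r
    by_cases h : τ < r
    · have h1 : r ∈ Ioi (0 : ℝ) := lt_of_le_of_lt hτ h
      have h2 : r - τ ∈ Ioi (0 : ℝ) := sub_pos.2 h
      rw [indicator_of_mem h1, indicator_of_mem h2, if_pos h, hx]
      congr 2
      ring
    · have h2 : r - τ ∉ Ioi (0 : ℝ) := fun h3 => h (sub_pos.1 h3)
      rw [indicator_of_notMem h2]
      by_cases h1 : r ∈ Ioi (0 : ℝ)
      · rw [indicator_of_mem h1, if_neg h, zero_mul]
      · rw [indicator_of_notMem h1]
  constructor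
  · rw [← integrable_indicator_iff measurableSet_Ioi, e]
    exact ((integrable_indicator_iff measurableSet_Ioi).2 hi).comp_sub_right τ
  · rw [← integral_indicator measurableSet_Ioi, e, integral_sub_right_eq_self
      ((Ioi (0 : ℝ)).indicator (fun r : ℝ => r ^ (s - 1) * R (x + r))) τ,
      integral_indicator measurableSet_Ioi]

theorem rep_diff {w s : ℝ} (hs : 0 < s) (hs1 : s ≤ 1) (f : VR) {u x : ℝ} (hux : u ≤ x) :
    |pr w f u - pr w f x| ≤ |∫ r in Ioi (0 : ℝ), GG s (x - u) r * dr w s f (u + r)| := by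
  obtain ⟨iu, eu⟩ := rep (w := w) hs f u
  obtain ⟨ix, ex⟩ := rep (w := w) hs f x
  obtain ⟨i2, e2⟩ := arep_shift s (x - u) x u (dr w s f) (by linarith) (by ring) ix
  have h1 : ∫ r in Ioi (0 : ℝ), GG s (x - u) r * dr w s f (u + r) =
      Real.Gamma s * (pr w f u - pr w f x) := by
    have h2 : (fun r : ℝ => GG s (x - u) r * dr w s f (u + r)) = fun r : ℝ =>
        r ^ (s - 1) * dr w s f (u + r) -
          (if x - u < r then (r - (x - u)) ^ (s - 1) else 0) * dr w s f (u + r) := by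
      funext r
      rw [GG, sub_mul]
    rw [h2, integral_sub iu i2, eu, e2, ex]
    ring
  rw [h1, abs_mul]
  have hG := one_le_Gamma hs hs1
  rw [abs_of_pos (by linarith : (0 : ℝ) < Real.Gamma s)]
  exact le_mul_of_one_le_left (abs_nonneg _) hG

end Pool.Agent.H97.EP

end

section

/-!
# Project EP, module `AK` : the difference estimate

`3/4 ≤ s < 1`, `0 < h`, `0 ≤ τ = x - u ≤ 2h`, `G = GG s τ`.
Near part: `∫_0^{4h} G² ≤ 2∫_0^{4h} r^{2s-2} dr + 2∫_τ^{4h} (r-τ)^{2s-2} dr ≤ 4 (4h)^{2s-1}/(2s-1) ≤ 32 h^{2s-1}`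
(`1/2 ≤ 2s-1 ≤ 1`, `4^{2s-1} ≤ 4`).
Far part: for `r ≥ 4h ≥ 2τ` the mean value theorem (or `0 ≤ (r-τ)^{s-1} - r^{s-1} ≤ (1-s) τ (r-τ)^{s-2}`) gives
`|G(r)| ≤ (1-s) 2h (r/2)^{s-2} ≤ 5 (1-s) h r^{s-2}` (`2·2^{2-s} ≤ 2·2^{5/4} < 5`).
Cauchy-Schwarz in `ℝ≥0∞` (`ENNReal.lintegral_mul_le_Lp_mul_Lq`, compare `cell_cs` in `H97/SD/Cell.lean`), `R = dr w s f`:
`(∫_0^{4h} |G||R(u+r)|)² ≤ 32 h^{2s-1} ∫_0^{4h} R(u+r)²`,
`(∫_{4h}^∞ |G||R|)² ≤ 25 (1-s)² h² (∫_{4h}^∞ r^{s-2}) ∫_{4h}^∞ r^{s-2} R² ≤ 25 (1-s) h^{1+s} ∫_{4h}^∞ r^{s-2} R²`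
(`∫_{4h}^∞ r^{s-2} dr = (4h)^{s-1}/(1-s)`, `4^{s-1} ≤ 1`).  With `rep_diff` and
`|∫ G R| ≤ ∫ |G||R|` (`enorm_integral_le_lintegral_enorm`), `(a+b)² ≤ 2a²+2b²`.
-/

set_option autoImplicit false
open MeasureTheory Set
open scoped ENNReal

namespace Pool.Agent.H97.EP

private theorem AK_lint_rpow {b e : ℝ} (hb : 0 < b) (he : -1 < e) :
    ∫⁻ r in Ioo (0 : ℝ) b, ENNReal.ofReal (r ^ e) = ENNReal.ofReal (b ^ (e + 1) / (e + 1)) := by
  have h1 : IntervalIntegrable (fun r : ℝ => r ^ e) volume 0 b :=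
    intervalIntegral.intervalIntegrable_rpow' he
  have h2 : IntegrableOn (fun r : ℝ => r ^ e) (Ioc 0 b) volume := by
    rwa [intervalIntegrable_iff_integrableOn_Ioc_of_le hb.le] at h1
  have h3 : 0 ≤ᵐ[volume.restrict (Ioc 0 b)] fun r : ℝ => r ^ e := by
    filter_upwards [ae_restrict_mem measurableSet_Ioc] with r hr
    exact Real.rpow_nonneg hr.1.le _
  have h4 := ofReal_integral_eq_lintegral_ofReal h2 h3
  rw [restrict_Ioo_eq_restrict_Ioc, ← h4, ← intervalIntegral.integral_of_le hb.le,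
    integral_rpow (Or.inl he), Real.zero_rpow (by linarith), sub_zero]

private theorem AK_lint_Ici {c e : ℝ} (hc : 0 < c) (he : e < -1) :
    ∫⁻ r in Ici c, ENNReal.ofReal (r ^ e) = ENNReal.ofReal (-c ^ (e + 1) / (e + 1)) := by
  have h2 := integrableOn_Ioi_rpow_of_lt he hc
  have h3 : 0 ≤ᵐ[volume.restrict (Ioi c)] fun r : ℝ => r ^ e := by
    filter_upwards [ae_restrict_mem measurableSet_Ioi] with r hr
    exact Real.rpow_nonneg (hc.trans hr).le _
  have h4 := ofReal_integral_eq_lintegral_ofReal h2 h3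
  rw [← restrict_Ioi_eq_restrict_Ici, ← h4, integral_Ioi_rpow_of_lt he hc]

theorem GG_near {s h τ : ℝ} (hs : 3 / 4 ≤ s) (hs1 : s < 1) (hh : 0 < h) (hτ : 0 ≤ τ) (hτ2 : τ ≤ 2 * h) :
    ∫⁻ r in Ioo (0 : ℝ) (4 * h), ENNReal.ofReal (GG s τ r ^ 2) ≤ ENNReal.ofReal (32 * h ^ (2 * s - 1)) := by
  set F : ℝ → ℝ≥0∞ := (Ioo (0 : ℝ) (4 * h)).indicator (fun r => ENNReal.ofReal (r ^ (2 * s - 2))) with hF
  have hm : Measurable fun r : ℝ => ENNReal.ofReal (r ^ (2 * s - 2)) :=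
    (measurable_id.pow_const _).ennreal_ofReal
  have hFi : ∫⁻ r, F r = ENNReal.ofReal ((4 * h) ^ (2 * s - 2 + 1) / (2 * s - 2 + 1)) := by
    rw [hF, lintegral_indicator measurableSet_Ioo]
    exact AK_lint_rpow (by linarith) (by linarith)
  have hsq : ∀ y : ℝ, 0 < y → (y ^ (s - 1)) ^ 2 = y ^ (2 * s - 2) := by
    intro y hy
    rw [← Real.rpow_natCast, ← Real.rpow_mul hy.le]
    congr 1
    push_cast
    ring
  have h1 : ∀ r ∈ Ioo (0 : ℝ) (4 * h), ENNReal.ofReal (GG s τ r ^ 2) ≤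
      ENNReal.ofReal (r ^ (2 * s - 2)) + F (r - τ) := by
    intro r hr
    have hx : 0 < r ^ (s - 1) := Real.rpow_pos_of_pos hr.1 _
    by_cases hτr : τ < r
    · have hmem : r - τ ∈ Ioo (0 : ℝ) (4 * h) := ⟨by linarith, by linarith [hr.2]⟩
      have hy : 0 < (r - τ) ^ (s - 1) := Real.rpow_pos_of_pos hmem.1 _
      rw [hF, indicator_of_mem hmem, ← ENNReal.ofReal_add (Real.rpow_nonneg hr.1.le _)
        (Real.rpow_nonneg hmem.1.le _)]
      refine ENNReal.ofReal_le_ofReal ?_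
      unfold GG
      rw [if_pos hτr, ← hsq r hr.1, ← hsq _ hmem.1]
      nlinarith [mul_pos hx hy]
    · refine le_add_right (ENNReal.ofReal_le_ofReal ?_)
      unfold GG
      rw [if_neg hτr, sub_zero, hsq r hr.1]
  have h2 : ∫⁻ r in Ioo (0 : ℝ) (4 * h), F (r - τ) ≤ ∫⁻ r, F r := by
    calc ∫⁻ r in Ioo (0 : ℝ) (4 * h), F (r - τ) ≤ ∫⁻ r, F (r - τ) := setLIntegral_le_lintegral _ _
      _ = ∫⁻ r, F r := lintegral_sub_right_eq_self F τ
  have hval : (4 * h) ^ (2 * s - 2 + 1) / (2 * s - 2 + 1) ≤ 8 * h ^ (2 * s - 1) := by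
    have e1 : 2 * s - 2 + 1 = 2 * s - 1 := by ring
    rw [e1, Real.mul_rpow (by norm_num) hh.le]
    have h3 : (4 : ℝ) ^ (2 * s - 1) ≤ 4 := by
      calc (4 : ℝ) ^ (2 * s - 1) ≤ 4 ^ (1 : ℝ) :=
            Real.rpow_le_rpow_of_exponent_le (by norm_num) (by linarith)
        _ = 4 := Real.rpow_one _
    have h4 : 0 < h ^ (2 * s - 1) := Real.rpow_pos_of_pos hh _
    have h5 : (0 : ℝ) < 2 * s - 1 := by linarith
    rw [div_le_iff₀ h5]
    have h6 : (4 : ℝ) ^ (2 * s - 1) * h ^ (2 * s - 1) ≤ 4 * h ^ (2 * s - 1) :=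
      mul_le_mul_of_nonneg_right h3 h4.le
    have h7 : 4 * h ^ (2 * s - 1) ≤ 8 * h ^ (2 * s - 1) * (2 * s - 1) := by nlinarith
    linarith
  calc ∫⁻ r in Ioo (0 : ℝ) (4 * h), ENNReal.ofReal (GG s τ r ^ 2)
      ≤ ∫⁻ r in Ioo (0 : ℝ) (4 * h), (ENNReal.ofReal (r ^ (2 * s - 2)) + F (r - τ)) :=
        setLIntegral_mono' measurableSet_Ioo h1
    _ = (∫⁻ r in Ioo (0 : ℝ) (4 * h), ENNReal.ofReal (r ^ (2 * s - 2))) +
        ∫⁻ r in Ioo (0 : ℝ) (4 * h), F (r - τ) := lintegral_add_left hm _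
    _ ≤ ENNReal.ofReal (8 * h ^ (2 * s - 1)) + ENNReal.ofReal (8 * h ^ (2 * s - 1)) := by
        refine add_le_add ?_ ?_
        · rw [AK_lint_rpow (by linarith) (by linarith)]
          exact ENNReal.ofReal_le_ofReal hval
        · refine h2.trans ?_
          rw [hFi]
          exact ENNReal.ofReal_le_ofReal hval
    _ ≤ ENNReal.ofReal (32 * h ^ (2 * s - 1)) := by
        have h4 : 0 < h ^ (2 * s - 1) := Real.rpow_pos_of_pos hh _
        rw [← ENNReal.ofReal_add (by positivity) (by positivity)]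
        exact ENNReal.ofReal_le_ofReal (by linarith)

theorem GG_far {s h τ r : ℝ} (hs : 3 / 4 ≤ s) (hs1 : s < 1) (hh : 0 < h) (hτ : 0 ≤ τ) (hτ2 : τ ≤ 2 * h)
    (hr : 4 * h ≤ r) : |GG s τ r| ≤ 5 * (1 - s) * h * r ^ (s - 2) := by
  have hr0 : 0 < r := by linarith
  have hτr : τ < r := by linarith
  set a : ℝ := r - τ with ha
  have ha0 : 0 < a := by rw [ha]; linarith
  have har : r / 2 ≤ a := by rw [ha]; linarith
  unfold GG
  rw [if_pos hτr, ← ha]
  have hra : r = a * (1 + τ / a) := by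
    rw [mul_add, mul_one, mul_div_cancel₀ _ ha0.ne', ha]
    ring
  have hy : 0 ≤ τ / a := div_nonneg hτ ha0.le
  have h1 : r ^ (s - 1) = a ^ (s - 1) * (1 + τ / a) ^ (s - 1) := by
    conv_lhs => rw [hra]
    exact Real.mul_rpow ha0.le (by linarith)
  have h2 : 1 - (1 - s) * (τ / a) ≤ (1 + τ / a) ^ (s - 1) := by
    have h3 : 0 < 1 + τ / a := by linarith
    rw [Real.rpow_def_of_pos h3]
    have h4 := Real.add_one_le_exp (Real.log (1 + τ / a) * (s - 1))
    have h5 : Real.log (1 + τ / a) ≤ τ / a := by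
      have := Real.log_le_sub_one_of_pos h3
      linarith
    nlinarith
  have h3 : (1 + τ / a) ^ (s - 1) ≤ 1 :=
    Real.rpow_le_one_of_one_le_of_nonpos (by linarith) (by linarith)
  have h4 : 0 < a ^ (s - 1) := Real.rpow_pos_of_pos ha0 _
  have h5 : |r ^ (s - 1) - a ^ (s - 1)| ≤ a ^ (s - 1) * ((1 - s) * (τ / a)) := by
    rw [h1, abs_sub_comm, abs_of_nonneg (by nlinarith)]
    nlinarith
  have h6 : a ^ (s - 1) * ((1 - s) * (τ / a)) = (1 - s) * τ * a ^ (s - 2) := by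
    have h7 : a ^ (s - 1) = a ^ (s - 2) * a := by
      rw [← Real.rpow_add_one ha0.ne']
      congr 1
      ring
    rw [h7]
    field_simp
  rw [h6] at h5
  refine h5.trans ?_
  have h7 : a ^ (s - 2) ≤ (r / 2) ^ (s - 2) :=
    Real.rpow_le_rpow_of_nonpos (by linarith) har (by linarith)
  have h8 : (r / 2) ^ (s - 2) = r ^ (s - 2) * 2 ^ (2 - s) := by
    rw [Real.div_rpow hr0.le (by norm_num), div_eq_mul_inv, ← Real.rpow_neg (by norm_num)]
    congr 2
    ring
  have h9 : (2 : ℝ) ^ (2 - s) ≤ 5 / 2 := by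
    have h10 : (2 : ℝ) ^ (2 - s) ≤ 2 ^ (5 / 4 : ℝ) :=
      Real.rpow_le_rpow_of_exponent_le (by norm_num) (by linarith)
    refine h10.trans ?_
    have h11 : ((2 : ℝ) ^ (5 / 4 : ℝ)) ^ 4 ≤ (5 / 2 : ℝ) ^ 4 := by
      rw [← Real.rpow_natCast, ← Real.rpow_mul (by norm_num)]
      norm_num
    exact le_of_pow_le_pow_left₀ (by norm_num) (by norm_num) h11
  have h10 : 0 < r ^ (s - 2) := Real.rpow_pos_of_pos hr0 _
  have h11 : a ^ (s - 2) ≤ r ^ (s - 2) * (5 / 2) := by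
    rw [h8] at h7
    exact h7.trans (mul_le_mul_of_nonneg_left h9 h10.le)
  have h12 : (1 - s) * τ ≤ (1 - s) * (2 * h) := mul_le_mul_of_nonneg_left hτ2 (by linarith)
  calc (1 - s) * τ * a ^ (s - 2) ≤ (1 - s) * (2 * h) * (r ^ (s - 2) * (5 / 2)) := by
        refine mul_le_mul h12 h11 (Real.rpow_nonneg ha0.le _) ?_
        have : 0 ≤ 1 - s := by linarith
        positivity
    _ = _ := by ring

private theorem AK_cs (μ : Measure ℝ) (f g : ℝ → ℝ≥0∞) (hf : Measurable f) (hg : Measurable g) :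
    (∫⁻ t, f t * g t ∂μ) ^ 2 ≤ (∫⁻ t, f t ^ 2 ∂μ) * ∫⁻ t, g t ^ 2 ∂μ := by
  have h := ENNReal.lintegral_mul_le_Lp_mul_Lq μ
    Real.HolderConjugate.two_two (f := f) (g := g) hf.aemeasurable hg.aemeasurable
  simp only [Pi.mul_apply, ENNReal.rpow_two] at h
  have h2 : ∀ X : ℝ≥0∞, (X ^ (1 / 2 : ℝ)) ^ 2 = X := by
    intro X
    rw [← ENNReal.rpow_natCast, ← ENNReal.rpow_mul]
    norm_num
  calc (∫⁻ t, f t * g t ∂μ) ^ 2
      ≤ ((∫⁻ t, f t ^ 2 ∂μ) ^ (1 / 2 : ℝ) * (∫⁻ t, g t ^ 2 ∂μ) ^ (1 / 2 : ℝ)) ^ 2 :=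
        pow_le_pow_left' h 2
    _ = _ := by rw [mul_pow, h2, h2]

private theorem AK_sq_add (a b : ℝ≥0∞) : (a + b) ^ 2 ≤ 2 * a ^ 2 + 2 * b ^ 2 := by
  rcases eq_or_ne a ⊤ with ha | ha
  · subst ha; simp
  rcases eq_or_ne b ⊤ with hb | hb
  · subst hb; simp
  lift a to NNReal using ha
  lift b to NNReal using hb
  norm_cast
  have h := sq_nonneg ((a : ℝ) - b)
  have h2 : ((a : ℝ) + b) ^ 2 ≤ 2 * (a : ℝ) ^ 2 + 2 * (b : ℝ) ^ 2 := by nlinarith
  exact_mod_cast h2

private theorem AK_dr_meas (w s : ℝ) (f : VR) (u : ℝ) : Measurable fun r : ℝ => dr w s f (u + r) := by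
  unfold dr Finsupp.sum
  refine Finset.measurable_sum _ fun t _ => ?_
  fun_prop

theorem kdiff {w s h : ℝ} (hs : 3 / 4 ≤ s) (hs1 : s < 1) (hh : 0 < h) (f : VR) {u x : ℝ}
    (hux : u ≤ x) (hx : x ≤ u + 2 * h) :
    ENNReal.ofReal ((pr w f u - pr w f x) ^ 2) ≤ AA w s h f u := by
  set τ : ℝ := x - u with hτd
  have hτ : 0 ≤ τ := by rw [hτd]; linarith
  have hτ2 : τ ≤ 2 * h := by rw [hτd]; linarith
  set R : ℝ → ℝ := fun r => dr w s f (u + r) with hR
  have hRm : Measurable R := AK_dr_meas w s f u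
  have hGm : Measurable (GG s τ) := by
    unfold GG
    refine (measurable_id.pow_const _).sub (Measurable.ite measurableSet_Ioi ?_ measurable_const)
    exact (measurable_id.sub_const τ).pow_const _
  set g : ℝ → ℝ≥0∞ := fun r => ENNReal.ofReal |GG s τ r| with hg
  set ρ : ℝ → ℝ≥0∞ := fun r => ENNReal.ofReal |R r| with hρ
  have hgm : Measurable g := (continuous_abs.measurable.comp hGm).ennreal_ofReal
  have hρm : Measurable ρ := (continuous_abs.measurable.comp hRm).ennreal_ofReal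
  have hsq : ∀ y : ℝ, ENNReal.ofReal |y| ^ 2 = ENNReal.ofReal (y ^ 2) := by
    intro y
    rw [← ENNReal.ofReal_pow (abs_nonneg _), sq_abs]
  have hρ2 : ∀ r, ρ r ^ 2 = ENNReal.ofReal (dr w s f (u + r) ^ 2) := fun r => hsq _
  -- the estimate of the difference by the integral
  have h1 : ENNReal.ofReal |pr w f u - pr w f x| ≤ ∫⁻ r in Ioi (0 : ℝ), g r * ρ r := by
    have h2 := rep_diff (w := w) (by linarith : 0 < s) hs1.le f hux
    calc ENNReal.ofReal |pr w f u - pr w f x|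
        ≤ ENNReal.ofReal |∫ r in Ioi (0 : ℝ), GG s τ r * R r| := ENNReal.ofReal_le_ofReal h2
      _ = ‖∫ r in Ioi (0 : ℝ), GG s τ r * R r‖ₑ := (Real.enorm_eq_ofReal_abs _).symm
      _ ≤ ∫⁻ r in Ioi (0 : ℝ), ‖GG s τ r * R r‖ₑ := enorm_integral_le_lintegral_enorm _
      _ = ∫⁻ r in Ioi (0 : ℝ), g r * ρ r := by
          refine lintegral_congr fun r => ?_
          rw [Real.enorm_eq_ofReal_abs, abs_mul, ENNReal.ofReal_mul (abs_nonneg _)]
  have hsplit : ∀ F : ℝ → ℝ≥0∞, ∫⁻ r in Ioi (0 : ℝ), F r =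
      (∫⁻ r in Ioo (0 : ℝ) (4 * h), F r) + ∫⁻ r in Ici (4 * h), F r := by
    intro F
    rw [← Ioo_union_Ici_eq_Ioi (by linarith : (0 : ℝ) < 4 * h),
      lintegral_union measurableSet_Ici]
    refine Set.disjoint_left.2 fun r hr hr' => ?_
    exact absurd hr.2 (not_lt.2 hr')
  -- near part
  have hnear : (∫⁻ r in Ioo (0 : ℝ) (4 * h), g r * ρ r) ^ 2 ≤
      ENNReal.ofReal (32 * h ^ (2 * s - 1)) * ∫⁻ r in Ioo (0 : ℝ) (4 * h), ρ r ^ 2 := by
    refine (AK_cs _ g ρ hgm hρm).trans (mul_le_mul_left ?_ _)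
    refine le_trans (le_of_eq ?_) (GG_near hs hs1 hh hτ hτ2)
    exact lintegral_congr fun r => hsq _
  -- far part
  set a : ℝ → ℝ≥0∞ := fun r => ENNReal.ofReal (r ^ ((s - 2) / 2)) with ha
  have ham : Measurable a := (measurable_id.pow_const _).ennreal_ofReal
  have ha2 : ∀ r : ℝ, 0 < r → a r ^ 2 = ENNReal.ofReal (r ^ (s - 2)) := by
    intro r hr
    rw [ha]
    show ENNReal.ofReal (r ^ ((s - 2) / 2)) ^ 2 = _
    rw [← ENNReal.ofReal_pow (Real.rpow_nonneg hr.le _), ← Real.rpow_natCast, ← Real.rpow_mul hr.le]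
    congr 2
    push_cast
    ring
  have hc0 : 0 ≤ 5 * (1 - s) * h := by
    have : 0 ≤ 1 - s := by linarith
    positivity
  have hfar1 : ∫⁻ r in Ici (4 * h), g r * ρ r ≤
      ENNReal.ofReal (5 * (1 - s) * h) * ∫⁻ r in Ici (4 * h), a r * (a r * ρ r) := by
    rw [← lintegral_const_mul' _ _ ENNReal.ofReal_ne_top]
    refine setLIntegral_mono' measurableSet_Ici fun r hr => ?_
    have hr0 : 0 < r := lt_of_lt_of_le (by linarith) hr
    have h3 := GG_far hs hs1 hh hτ hτ2 hr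
    have h4 : g r ≤ ENNReal.ofReal (5 * (1 - s) * h) * (a r * a r) := by
      rw [← pow_two, ha2 r hr0, ← ENNReal.ofReal_mul hc0]
      exact ENNReal.ofReal_le_ofReal h3
    calc g r * ρ r ≤ (ENNReal.ofReal (5 * (1 - s) * h) * (a r * a r)) * ρ r :=
          mul_le_mul_left h4 _
      _ = _ := by ring
  have hfar2 : (∫⁻ r in Ici (4 * h), a r * (a r * ρ r)) ^ 2 ≤
      ENNReal.ofReal (h ^ (s - 1) / (1 - s)) *
        ∫⁻ r in Ici (4 * h), ENNReal.ofReal (r ^ (s - 2)) * ρ r ^ 2 := by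
    refine (AK_cs _ a (fun r => a r * ρ r) ham (ham.mul hρm)).trans (mul_le_mul' ?_ ?_)
    · have h3 : ∫⁻ r in Ici (4 * h), a r ^ 2 = ∫⁻ r in Ici (4 * h), ENNReal.ofReal (r ^ (s - 2)) :=
        setLIntegral_congr_fun measurableSet_Ici fun r hr =>
          ha2 r (lt_of_lt_of_le (by linarith) hr)
      rw [h3, AK_lint_Ici (by linarith) (by linarith)]
      refine ENNReal.ofReal_le_ofReal ?_
      have e1 : s - 2 + 1 = -(1 - s) := by ring
      rw [e1, neg_div_neg_eq]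
      have h4 : (4 * h) ^ (-(1 - s)) ≤ h ^ (s - 1) := by
        have e2 : -(1 - s) = s - 1 := by ring
        rw [e2]
        exact Real.rpow_le_rpow_of_nonpos hh (by linarith) (by linarith)
      exact div_le_div_of_nonneg_right h4 (by linarith)
    · refine le_of_eq (setLIntegral_congr_fun measurableSet_Ici fun r hr => ?_)
      show (a r * ρ r) ^ 2 = _
      rw [mul_pow, ha2 r (lt_of_lt_of_le (by linarith) hr)]
  have hconst : ENNReal.ofReal (5 * (1 - s) * h) ^ 2 * ENNReal.ofReal (h ^ (s - 1) / (1 - s)) =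
      ENNReal.ofReal (25 * (1 - s) * h ^ (1 + s)) := by
    have h1s : 0 < 1 - s := by linarith
    rw [← ENNReal.ofReal_pow hc0, ← ENNReal.ofReal_mul (by positivity)]
    congr 1
    have e1 : h ^ (1 + s) = h ^ 2 * h ^ (s - 1) := by
      rw [← Real.rpow_natCast h 2, ← Real.rpow_add hh]
      congr 1
      push_cast
      ring
    rw [e1]
    field_simp
    ring
  have hfar : (∫⁻ r in Ici (4 * h), g r * ρ r) ^ 2 ≤
      ENNReal.ofReal (25 * (1 - s) * h ^ (1 + s)) *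
        ∫⁻ r in Ici (4 * h), ENNReal.ofReal (r ^ (s - 2)) * ρ r ^ 2 := by
    calc (∫⁻ r in Ici (4 * h), g r * ρ r) ^ 2
        ≤ (ENNReal.ofReal (5 * (1 - s) * h) * ∫⁻ r in Ici (4 * h), a r * (a r * ρ r)) ^ 2 :=
          pow_le_pow_left' hfar1 2
      _ = ENNReal.ofReal (5 * (1 - s) * h) ^ 2 * (∫⁻ r in Ici (4 * h), a r * (a r * ρ r)) ^ 2 :=
          mul_pow _ _ _
      _ ≤ ENNReal.ofReal (5 * (1 - s) * h) ^ 2 * (ENNReal.ofReal (h ^ (s - 1) / (1 - s)) *
        ∫⁻ r in Ici (4 * h), ENNReal.ofReal (r ^ (s - 2)) * ρ r ^ 2) :=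
          mul_le_mul_right hfar2 _
      _ = _ := by rw [← mul_assoc, hconst]
  -- assembly
  unfold AA
  rw [hsplit]
  have k1 : ∫⁻ r in Ioo (0 : ℝ) (4 * h), ENNReal.ofReal (kk s h r) *
      ENNReal.ofReal (dr w s f (u + r) ^ 2) =
      2 * (ENNReal.ofReal (32 * h ^ (2 * s - 1)) * ∫⁻ r in Ioo (0 : ℝ) (4 * h), ρ r ^ 2) := by
    rw [← mul_assoc]
    have e2 : (2 : ℝ≥0∞) * ENNReal.ofReal (32 * h ^ (2 * s - 1)) =
        ENNReal.ofReal (64 * h ^ (2 * s - 1)) := by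
      rw [← ENNReal.ofReal_ofNat, ← ENNReal.ofReal_mul (by norm_num)]
      congr 1
      ring
    rw [e2, ← lintegral_const_mul' _ _ ENNReal.ofReal_ne_top]
    refine setLIntegral_congr_fun measurableSet_Ioo fun r hr => ?_
    show ENNReal.ofReal (kk s h r) * ENNReal.ofReal (dr w s f (u + r) ^ 2) = _
    unfold kk
    rw [if_pos hr.2, hρ2]
  have k2 : ∫⁻ r in Ici (4 * h), ENNReal.ofReal (kk s h r) *
      ENNReal.ofReal (dr w s f (u + r) ^ 2) =
      2 * (ENNReal.ofReal (25 * (1 - s) * h ^ (1 + s)) *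
        ∫⁻ r in Ici (4 * h), ENNReal.ofReal (r ^ (s - 2)) * ρ r ^ 2) := by
    rw [← mul_assoc]
    have e2 : (2 : ℝ≥0∞) * ENNReal.ofReal (25 * (1 - s) * h ^ (1 + s)) =
        ENNReal.ofReal (50 * (1 - s) * h ^ (1 + s)) := by
      rw [← ENNReal.ofReal_ofNat, ← ENNReal.ofReal_mul (by norm_num)]
      congr 1
      ring
    have e3 : 0 ≤ 50 * (1 - s) * h ^ (1 + s) := by
      have : 0 ≤ 1 - s := by linarith
      positivity
    rw [e2, ← lintegral_const_mul' _ _ ENNReal.ofReal_ne_top]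
    refine setLIntegral_congr_fun measurableSet_Ici fun r hr => ?_
    show ENNReal.ofReal (kk s h r) * ENNReal.ofReal (dr w s f (u + r) ^ 2) = _
    unfold kk
    rw [if_neg (not_lt.2 hr), hρ2, ENNReal.ofReal_mul e3, mul_assoc]
  rw [k1, k2, ← hsq]
  calc ENNReal.ofReal |pr w f u - pr w f x| ^ 2 ≤ (∫⁻ r in Ioi (0 : ℝ), g r * ρ r) ^ 2 :=
        pow_le_pow_left' h1 2
    _ = ((∫⁻ r in Ioo (0 : ℝ) (4 * h), g r * ρ r) + ∫⁻ r in Ici (4 * h), g r * ρ r) ^ 2 := by
        rw [hsplit]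
    _ ≤ 2 * (∫⁻ r in Ioo (0 : ℝ) (4 * h), g r * ρ r) ^ 2 +
        2 * (∫⁻ r in Ici (4 * h), g r * ρ r) ^ 2 := AK_sq_add _ _
    _ ≤ _ := add_le_add (mul_le_mul_right hnear _) (mul_le_mul_right hfar _)

end Pool.Agent.H97.EP

end

section

/-!
# Project EP, module `AOne` : the three inequalities for one exponent `δ`
(assembly, helper95)
-/

set_option autoImplicit false
open MeasureTheory Set
open scoped ENNReal

namespace Pool.Agent.H97.EP

private theorem one_AA {w δ h : ℝ} (hδ : 0 < δ) (hδ4 : δ ≤ 1 / 4) (hw : 1 ≤ w) (hh : 0 < h) (f : VR) :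
    ∫⁻ u in Ioi (0 : ℝ), ENNReal.ofReal (u ^ (w - δ)) * AA w (1 - δ) h f u ≤
      ENNReal.ofReal (306 * h ^ (2 * (1 - δ))) * MM (w - δ) (pr w f) := by
  have h1 := AA_int (w := w) (s := 1 - δ) (h := h) (e := w - δ) (by linarith) (by linarith)
    (by linarith) hh f
  rwa [ident hδ.le (by linarith) f] at h1

private theorem one_absorb {N S : ℝ≥0∞} (hN : N < ⊤) (h : N ≤ S + ENNReal.ofReal (1 / 2) * N) :
    N ≤ 2 * S := by
  have h1 : ENNReal.ofReal (1 / 2) = (2 : ℝ≥0∞)⁻¹ := by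
    rw [one_div, ENNReal.ofReal_inv_of_pos (by norm_num)]
    norm_num
  rw [h1] at h
  by_cases hS : S = ⊤
  · rw [hS]; simp
  have e1 : (2 : ℝ≥0∞) * N ≤ 2 * S + N := by
    calc (2 : ℝ≥0∞) * N ≤ 2 * (S + 2⁻¹ * N) := by gcongr
      _ = 2 * S + (2 * 2⁻¹) * N := by ring
      _ = 2 * S + N := by rw [ENNReal.mul_inv_cancel (by norm_num) (by norm_num), one_mul]
  have e2 : N + N ≤ 2 * S + N := by rwa [← two_mul]
  exact (ENNReal.add_le_add_iff_right hN.ne).mp e2

/-- lower sampling with `h = 1/128` -/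
theorem low1 {w δ : ℝ} (hδ : 0 < δ) (hδ4 : δ ≤ 1 / 4) (hw : 1 ≤ w) (f : VR)
    (x : ℕ → ℝ) (hx : ∀ i : ℕ, ((i : ℝ) + 1) * (1 / 128) ≤ x i ∧ x i < ((i : ℝ) + 2) * (1 / 128)) :
    MM (w - δ) (pr w f) ≤ ∑' i : ℕ, ENNReal.ofReal (x i ^ (w - δ) * pr w f (x i) ^ 2) := by
  have hh : (0 : ℝ) < 1 / 128 := by norm_num
  have h1 := low_abs (e := w - δ) (by linarith) hh (pr w f) (pr_cont w f).measurable
    (AA w (1 - δ) (1 / 128) f) (AA_meas w (1 - δ) (1 / 128) f)
    (fun u x _ hux hx => kdiff (by linarith) (by linarith) hh f hux hx) x hx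
  have h2 := one_AA hδ hδ4 hw hh f
  have h3 : (2 : ℝ≥0∞) * ∫⁻ u in Ioi (0 : ℝ), ENNReal.ofReal (u ^ (w - δ)) *
      AA w (1 - δ) (1 / 128) f u ≤ ENNReal.ofReal (1 / 2) * MM (w - δ) (pr w f) := by
    calc (2 : ℝ≥0∞) * ∫⁻ u in Ioi (0 : ℝ), ENNReal.ofReal (u ^ (w - δ)) *
        AA w (1 - δ) (1 / 128) f u
        ≤ 2 * (ENNReal.ofReal (306 * (1 / 128) ^ (2 * (1 - δ))) * MM (w - δ) (pr w f)) := by
          gcongr
      _ = ENNReal.ofReal (2 * (306 * (1 / 128) ^ (2 * (1 - δ)))) * MM (w - δ) (pr w f) := by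
          rw [ENNReal.ofReal_mul (p := 2) (by norm_num), mul_assoc]
          congr 1
          simp
      _ ≤ ENNReal.ofReal (1 / 2) * MM (w - δ) (pr w f) := by
          gcongr
          have h4 : ((1 : ℝ) / 128) ^ (2 * (1 - δ)) ≤ (1 / 128) ^ (3 / 2 : ℝ) :=
            Real.rpow_le_rpow_of_exponent_ge (by norm_num) (by norm_num) (by linarith)
          have h5 : ((1 : ℝ) / 128) ^ (3 / 2 : ℝ) ≤ 1 / 1300 := by
            have h6 : (((1 : ℝ) / 128) ^ (3 / 2 : ℝ)) ^ 2 ≤ (1 / 1300) ^ 2 := by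
              rw [← Real.rpow_natCast, ← Real.rpow_mul (by norm_num)]
              have : ((3 / 2 : ℝ) * ((2 : ℕ) : ℝ)) = ((3 : ℕ) : ℝ) := by norm_num
              rw [this, Real.rpow_natCast]
              norm_num
            exact (pow_le_pow_iff_left₀ (by positivity) (by norm_num) (by norm_num)).1 h6
          linarith
  have h7 := one_absorb (MM_lt_top (by linarith) f) (h1.trans (add_le_add le_rfl h3))
  refine h7.trans ?_
  calc 2 * (ENNReal.ofReal (2 * (1 / 128)) *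
        ∑' i : ℕ, ENNReal.ofReal (x i ^ (w - δ) * pr w f (x i) ^ 2))
      = ENNReal.ofReal (2 * (2 * (1 / 128))) *
        ∑' i : ℕ, ENNReal.ofReal (x i ^ (w - δ) * pr w f (x i) ^ 2) := by
        have h9 : (2 : ℝ≥0∞) = ENNReal.ofReal 2 := by simp
        rw [ENNReal.ofReal_mul (p := 2) (q := 2 * (1 / 128)) (by norm_num), mul_assoc, ← h9]
    _ ≤ 1 * ∑' i : ℕ, ENNReal.ofReal (x i ^ (w - δ) * pr w f (x i) ^ 2) := by
        gcongr
        rw [← ENNReal.ofReal_one]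
        exact ENNReal.ofReal_le_ofReal (by norm_num)
    _ = _ := one_mul _

/-- upper sampling -/
theorem up1 {w δ h B : ℝ} (hδ : 0 < δ) (hδ4 : δ ≤ 1 / 4) (hw : 1 ≤ w) (hh : 0 < h) (hh1 : h ≤ 1) (f : VR)
    (x ν : ℕ → ℝ) (hν : ∀ n, 0 ≤ ν n) (hs : ∀ n, ν n ≠ 0 → h ≤ x n) (hB : 0 ≤ B)
    (hc : ∀ j : ℕ, 1 ≤ j → ∀ S : Finset ℕ, (∀ n ∈ S, (j : ℝ) * h ≤ x n ∧ x n < ((j : ℝ) + 1) * h) →
      ∑ n ∈ S, ν n ≤ B) :
    ∑' n : ℕ, ENNReal.ofReal (ν n * x n ^ (w - δ) * pr w f (x n) ^ 2) ≤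
      ENNReal.ofReal (1228 * 4 ^ w * B / h) * MM (w - δ) (pr w f) := by
  have h1 := up_abs (e := w - δ) (by linarith) hh (pr w f) (pr_cont w f).measurable
    (AA w (1 - δ) h f) (AA_meas w (1 - δ) h f)
    (fun u x _ hux hx => kdiff (by linarith) (by linarith) hh f hux hx) x ν hν hs hB hc
  have h2 := one_AA hδ hδ4 hw hh f
  refine h1.trans ?_
  have h3 : h ^ (2 * (1 - δ)) ≤ 1 := Real.rpow_le_one hh.le hh1 (by linarith)
  have h4 : (4 : ℝ) ^ (w - δ) ≤ 4 ^ w :=
    Real.rpow_le_rpow_of_exponent_le (by norm_num) (by linarith)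
  calc ENNReal.ofReal (4 * 4 ^ (w - δ) * B / h) *
        (MM (w - δ) (pr w f) + ∫⁻ u in Ioi (0 : ℝ), ENNReal.ofReal (u ^ (w - δ)) *
          AA w (1 - δ) h f u)
      ≤ ENNReal.ofReal (4 * 4 ^ w * B / h) *
        (MM (w - δ) (pr w f) + ENNReal.ofReal 306 * MM (w - δ) (pr w f)) := by
        refine mul_le_mul' (ENNReal.ofReal_le_ofReal ?_) (add_le_add le_rfl (h2.trans ?_))
        · gcongr
        · gcongr
          linarith
    _ = ENNReal.ofReal (4 * 4 ^ w * B / h) * (ENNReal.ofReal 307 * MM (w - δ) (pr w f)) := by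
        congr 1
        have : ENNReal.ofReal 307 = 1 + ENNReal.ofReal 306 := by
          rw [← ENNReal.ofReal_one, ← ENNReal.ofReal_add (by norm_num) (by norm_num)]
          norm_num
        rw [this, add_mul, one_mul]
    _ = _ := by
        rw [← mul_assoc, ← ENNReal.ofReal_mul (by positivity)]
        congr 2
        ring

/-- point evaluation -/
theorem pt1 {w δ : ℝ} (hδ : 0 < δ) (hδ4 : δ ≤ 1 / 4) (hw : 1 ≤ w) (f : VR) {x : ℝ} (hx : 0 < x) :
    ENNReal.ofReal (x ^ (w - δ) * pr w f x ^ 2) ≤ 130 * MM (w - δ) (pr w f) := by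
  have he : 0 ≤ w - δ := by linarith
  have hA := AA_half (w := w) (s := 1 - δ) he (by linarith) (by linarith) f hx
  rw [ident hδ.le (by linarith) f] at hA
  have h1 : ∀ u ∈ Ioc x (x + 1), ENNReal.ofReal (x ^ (w - δ) * pr w f x ^ 2) ≤
      2 * ENNReal.ofReal (u ^ (w - δ) * pr w f u ^ 2) + 128 * MM (w - δ) (pr w f) := by
    intro u hu
    have hu0 : 0 < u := hx.trans hu.1
    have hK := kdiff (w := w) (s := 1 - δ) (h := 1 / 2) (by linarith) (by linarith) (by norm_num) f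
      hu.1.le (by linarith [hu.2])
    have hxe : 0 ≤ x ^ (w - δ) := Real.rpow_nonneg hx.le _
    have h2 : x ^ (w - δ) * pr w f x ^ 2 ≤ 2 * (u ^ (w - δ) * pr w f u ^ 2) +
        2 * (x ^ (w - δ) * (pr w f x - pr w f u) ^ 2) := by
      have h3 : x ^ (w - δ) ≤ u ^ (w - δ) := Real.rpow_le_rpow hx.le hu.1.le he
      have h4 : pr w f x ^ 2 ≤ 2 * pr w f u ^ 2 + 2 * (pr w f x - pr w f u) ^ 2 := by
        nlinarith [sq_nonneg (pr w f x - 2 * pr w f u)]
      calc x ^ (w - δ) * pr w f x ^ 2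
          ≤ x ^ (w - δ) * (2 * pr w f u ^ 2 + 2 * (pr w f x - pr w f u) ^ 2) :=
            mul_le_mul_of_nonneg_left h4 hxe
        _ = 2 * (x ^ (w - δ) * pr w f u ^ 2) + 2 * (x ^ (w - δ) * (pr w f x - pr w f u) ^ 2) := by
            ring
        _ ≤ _ := by gcongr
    calc ENNReal.ofReal (x ^ (w - δ) * pr w f x ^ 2)
        ≤ ENNReal.ofReal (2 * (u ^ (w - δ) * pr w f u ^ 2) +
          2 * (x ^ (w - δ) * (pr w f x - pr w f u) ^ 2)) := ENNReal.ofReal_le_ofReal h2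
      _ ≤ ENNReal.ofReal (2 * (u ^ (w - δ) * pr w f u ^ 2)) +
          ENNReal.ofReal (2 * (x ^ (w - δ) * (pr w f x - pr w f u) ^ 2)) :=
          ENNReal.ofReal_add_le
      _ = 2 * ENNReal.ofReal (u ^ (w - δ) * pr w f u ^ 2) +
          2 * (ENNReal.ofReal (x ^ (w - δ)) * ENNReal.ofReal ((pr w f x - pr w f u) ^ 2)) := by
          rw [ENNReal.ofReal_mul (p := 2) (by norm_num), ENNReal.ofReal_mul (p := 2) (by norm_num),
            ENNReal.ofReal_mul (p := x ^ (w - δ)) hxe]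
          simp
      _ ≤ 2 * ENNReal.ofReal (u ^ (w - δ) * pr w f u ^ 2) +
          2 * (64 * MM (w - δ) (pr w f)) := by
          exact add_le_add le_rfl (mul_le_mul_right ((mul_le_mul_right hK _).trans hA) 2)
      _ = _ := by
          congr 1
          rw [← mul_assoc]
          norm_num
  calc ENNReal.ofReal (x ^ (w - δ) * pr w f x ^ 2)
      = ∫⁻ _ in Ioc x (x + 1), ENNReal.ofReal (x ^ (w - δ) * pr w f x ^ 2) := by
        rw [setLIntegral_const, Real.volume_Ioc]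
        simp
    _ ≤ ∫⁻ u in Ioc x (x + 1), (2 * ENNReal.ofReal (u ^ (w - δ) * pr w f u ^ 2) +
          128 * MM (w - δ) (pr w f)) := setLIntegral_mono' measurableSet_Ioc h1
    _ = 2 * (∫⁻ u in Ioc x (x + 1), ENNReal.ofReal (u ^ (w - δ) * pr w f u ^ 2)) +
          128 * MM (w - δ) (pr w f) := by
        rw [lintegral_add_right _ measurable_const, lintegral_const_mul' _ _ (by norm_num),
          setLIntegral_const, Real.volume_Ioc]
        simp
    _ ≤ 2 * MM (w - δ) (pr w f) + 128 * MM (w - δ) (pr w f) := by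
        gcongr
        unfold MM
        refine lintegral_mono_set ?_
        intro t ht
        exact hx.trans ht.1
    _ = _ := by
        rw [← add_mul]
        norm_num

end Pool.Agent.H97.EP

end

section

/-!
# Project EP, module `AFin` : the norm `NQ` is finite

`dl i = 2^{-i}/4` lies in `(0, 1/4]`, so for `u > 0`: `u^{w - dl i} ≤ u^w + u^{w-1/4}` (`u ≥ 1` or `u ≤ 1`), hence
`MM (w - dl i) g ≤ MM w g + MM (w-1/4) g`; and `(Q^{-κ})^{dl i} ≤ 1 + Q^{-κ}`.  So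
`NQ ≤ ∑ 4^{-i} (1+Q^{-κ}) (MM w + MM (w-1/4)) < ∞` (`w = d/2 > 2`).
-/

set_option autoImplicit false
open MeasureTheory Set
open scoped ENNReal

namespace Pool.Agent.H97.EP

theorem dl_pos (i : ℕ) : 0 < dl i := by
  unfold dl
  positivity

theorem dl_le (i : ℕ) : dl i ≤ 1 / 4 := by
  unfold dl
  have : (1 / 2 : ℝ) ^ i ≤ 1 := pow_le_one₀ (by norm_num) (by norm_num)
  linarith

private theorem afin_MM {w : ℝ} (i : ℕ) (g : ℝ → ℝ) (hg : Measurable g) :
    MM (w - dl i) g ≤ MM w g + MM (w - 1 / 4) g := by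
  unfold MM
  rw [← lintegral_add_left]
  · refine setLIntegral_mono' measurableSet_Ioi fun u hu => ?_
    have hu0 : (0 : ℝ) < u := hu
    have h1 := Real.rpow_pos_of_pos hu0 w
    have h2 := Real.rpow_pos_of_pos hu0 (w - 1 / 4)
    rw [← ENNReal.ofReal_add (by positivity) (by positivity), ← add_mul]
    apply ENNReal.ofReal_le_ofReal
    apply mul_le_mul_of_nonneg_right _ (sq_nonneg _)
    rcases le_total 1 u with h | h
    · have := Real.rpow_le_rpow_of_exponent_le h (show w - dl i ≤ w by linarith [dl_pos i])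
      linarith
    · have := Real.rpow_le_rpow_of_exponent_ge hu0 h (show w - 1 / 4 ≤ w - dl i by
        linarith [dl_le i])
      linarith
  · have : Measurable fun u : ℝ => u ^ w * g u ^ 2 := by
      exact (measurable_id.pow_const w).mul (hg.pow_const 2)
    exact this.ennreal_ofReal

theorem NQ_lt_top {d Q : ℝ} (hd : 4 < d) (hQ : 0 < Q) (f : VR) :
    NQ d Q (pr (d / 2) f) < ⊤ := by
  unfold NQ
  set x : ℝ := Q ^ (-(2 / d)) with hx
  have hx0 : 0 < x := Real.rpow_pos_of_pos hQ _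
  set M : ℝ≥0∞ := MM (d / 2) (pr (d / 2) f) + MM (d / 2 - 1 / 4) (pr (d / 2) f) with hM
  have hMtop : M < ⊤ := ENNReal.add_lt_top.mpr
    ⟨MM_lt_top (by linarith) f, MM_lt_top (by linarith) f⟩
  have hb : ∀ i : ℕ, ENNReal.ofReal ((1 / 4 : ℝ) ^ i * x ^ dl i) * MM (d / 2 - dl i) (pr (d / 2) f)
      ≤ ENNReal.ofReal ((1 / 4 : ℝ) ^ i * (1 + x)) * M := by
    intro i
    apply mul_le_mul'
    · apply ENNReal.ofReal_le_ofReal
      apply mul_le_mul_of_nonneg_left _ (by positivity)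
      rcases le_total 1 x with h | h
      · have := Real.rpow_le_rpow_of_exponent_le h (show dl i ≤ 1 by linarith [dl_le i])
        rw [Real.rpow_one] at this
        linarith
      · have := Real.rpow_le_one hx0.le h (dl_pos i).le
        linarith
    · exact afin_MM i _ (pr_cont _ f).measurable
  refine lt_of_le_of_lt (ENNReal.tsum_le_tsum hb) ?_
  rw [ENNReal.tsum_mul_right]
  apply ENNReal.mul_lt_top _ hMtop
  have hs : Summable fun i : ℕ => (1 / 4 : ℝ) ^ i * (1 + x) :=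
    (summable_geometric_of_lt_one (by norm_num) (by norm_num)).mul_right _
  rw [← ENNReal.ofReal_tsum_of_nonneg (fun i => by positivity) hs]
  exact ENNReal.ofReal_lt_top

end Pool.Agent.H97.EP

end

section

/-!
# Project EP, module `ABes` : the inequalities for the norm `NQ` (helper95)

`u_n = nd d Q n = (n/Q)^κ`, `w = d/2`, `κw = 1`: `Q^{-κδ} u_n^{w-δ} = (n/Q) n^{-κδ}`.
-/

set_option autoImplicit false
open MeasureTheory Set
open scoped ENNReal

namespace Pool.Agent.H97.EP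

private theorem bes_id {d Q : ℝ} (hd : 4 < d) (hQ : 0 < Q) {n : ℕ} (hn : 1 ≤ n) (δ : ℝ) :
    (Q ^ (-(2 / d))) ^ δ * nd d Q n ^ (d / 2 - δ) = (n : ℝ) / Q * (n : ℝ) ^ (-(2 / d * δ)) := by
  have hd0 : d ≠ 0 := by linarith
  have hn0 : (0 : ℝ) < n := by exact_mod_cast hn
  have hnQ : 0 < (n : ℝ) / Q := by positivity
  unfold nd
  rw [← Real.rpow_mul hQ.le, ← Real.rpow_mul hnQ.le]
  have e1 : 2 / d * (d / 2 - δ) = 1 + -(2 / d * δ) := by field_simp; ring
  have e2 : -(2 / d) * δ = -(2 / d * δ) := by ring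
  rw [e1, e2, Real.rpow_add hnQ, Real.rpow_one, Real.div_rpow hn0.le hQ.le]
  have hQe : Q ^ (-(2 / d * δ)) ≠ 0 := (Real.rpow_pos_of_pos hQ _).ne'
  field_simp

private theorem bes_sum {d Q : ℝ} (hd : 4 < d) (hQ : 0 < Q) {n : ℕ} (hn : 1 ≤ n) {G : ℝ}
    (hG : 0 ≤ G) :
    ∑' i : ℕ, ENNReal.ofReal ((1 / 4 : ℝ) ^ i * (Q ^ (-(2 / d))) ^ dl i) *
      ENNReal.ofReal (nd d Q n ^ (d / 2 - dl i) * G) =
      ENNReal.ofReal ((n : ℝ) / Q * ps d n * G) := by
  have hn1 : (1 : ℝ) ≤ n := by exact_mod_cast hn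
  have hn0 : (0 : ℝ) < n := by linarith
  have h1 : ∀ i : ℕ, ENNReal.ofReal ((1 / 4 : ℝ) ^ i * (Q ^ (-(2 / d))) ^ dl i) *
      ENNReal.ofReal (nd d Q n ^ (d / 2 - dl i) * G) =
      ENNReal.ofReal ((n : ℝ) / Q * G * ((1 / 4 : ℝ) ^ i * (n : ℝ) ^ (-(2 / d * dl i)))) := by
    intro i
    rw [← ENNReal.ofReal_mul (by positivity)]
    congr 1
    have := bes_id hd hQ hn (dl i)
    calc (1 / 4 : ℝ) ^ i * (Q ^ (-(2 / d))) ^ dl i * (nd d Q n ^ (d / 2 - dl i) * G)
        = (1 / 4 : ℝ) ^ i * G * ((Q ^ (-(2 / d))) ^ dl i * nd d Q n ^ (d / 2 - dl i)) := by ring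
      _ = _ := by rw [this]; ring
  simp only [h1]
  have hsum := (ps_summable (d := d) (by linarith) hn1).mul_left ((n : ℝ) / Q * G)
  rw [← ENNReal.ofReal_tsum_of_nonneg (fun i => by positivity) hsum, tsum_mul_left]
  congr 1
  unfold ps
  ring

theorem NQ_pt {d : ℝ} (hd : 4 < d) : ∃ C : ℝ, 0 < C ∧ ∀ Q : ℝ, 1 ≤ Q → ∀ (f : VR) (n : ℕ), 1 ≤ n →
    ENNReal.ofReal ((n : ℝ) / Q * (1 + Real.log n) ^ (-2 : ℝ) * pr (d / 2) f (nd d Q n) ^ 2) ≤
      ENNReal.ofReal C * NQ d Q (pr (d / 2) f) := by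
  obtain ⟨c, hc, hps⟩ := ps_lower (d := d) (by linarith)
  refine ⟨130 / c, by positivity, ?_⟩
  intro Q hQ f n hn
  have hQ0 : 0 < Q := by linarith
  have hn1 : (1 : ℝ) ≤ n := by exact_mod_cast hn
  have hn0 : (0 : ℝ) < n := by linarith
  have hnd : 0 < nd d Q n := by unfold nd; positivity
  have hlog : 0 ≤ Real.log n := Real.log_nonneg hn1
  have h1 : ENNReal.ofReal ((n : ℝ) / Q * ps d n * pr (d / 2) f (nd d Q n) ^ 2) ≤
      130 * NQ d Q (pr (d / 2) f) := by
    rw [← bes_sum hd hQ0 hn (sq_nonneg (pr (d / 2) f (nd d Q n)))]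
    unfold NQ
    rw [← ENNReal.tsum_mul_left]
    refine ENNReal.tsum_le_tsum fun i => ?_
    calc ENNReal.ofReal ((1 / 4 : ℝ) ^ i * (Q ^ (-(2 / d))) ^ dl i) *
          ENNReal.ofReal (nd d Q n ^ (d / 2 - dl i) * pr (d / 2) f (nd d Q n) ^ 2)
        ≤ ENNReal.ofReal ((1 / 4 : ℝ) ^ i * (Q ^ (-(2 / d))) ^ dl i) *
          (130 * MM (d / 2 - dl i) (pr (d / 2) f)) :=
          mul_le_mul_right (pt1 (dl_pos i) (dl_le i) (by linarith) f hnd) _
      _ = _ := by ring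
  calc ENNReal.ofReal ((n : ℝ) / Q * (1 + Real.log n) ^ (-2 : ℝ) * pr (d / 2) f (nd d Q n) ^ 2)
      ≤ ENNReal.ofReal (1 / c * ((n : ℝ) / Q * ps d n * pr (d / 2) f (nd d Q n) ^ 2)) := by
        refine ENNReal.ofReal_le_ofReal ?_
        have h2 := hps n hn1
        have h3 : (1 + Real.log n) ^ (-2 : ℝ) ≤ 1 / c * ps d n := by
          rw [one_div, ← div_eq_inv_mul, le_div_iff₀ hc]
          linarith
        calc (n : ℝ) / Q * (1 + Real.log n) ^ (-2 : ℝ) * pr (d / 2) f (nd d Q n) ^ 2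
            ≤ (n : ℝ) / Q * (1 / c * ps d n) * pr (d / 2) f (nd d Q n) ^ 2 := by gcongr
          _ = _ := by ring
    _ = ENNReal.ofReal (1 / c) *
        ENNReal.ofReal ((n : ℝ) / Q * ps d n * pr (d / 2) f (nd d Q n) ^ 2) :=
        ENNReal.ofReal_mul (by positivity)
    _ ≤ ENNReal.ofReal (1 / c) * (130 * NQ d Q (pr (d / 2) f)) := mul_le_mul_right h1 _
    _ = _ := by
        rw [← mul_assoc]
        congr 1
        have : (130 : ℝ≥0∞) = ENNReal.ofReal 130 := by simp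
        rw [this, ← ENNReal.ofReal_mul (by positivity)]
        congr 1
        ring

theorem NQ_low {d : ℝ} (hd : 4 < d) : ∃ C : ℝ, 0 < C ∧ ∀ Q : ℝ, 1 ≤ Q → ∀ (f : VR) (p : ℕ → ℕ),
    (∀ i : ℕ, 1 ≤ p i ∧ ((i : ℝ) + 1) * (1 / 128) ≤ nd d Q (p i) ∧
      nd d Q (p i) < ((i : ℝ) + 2) * (1 / 128)) →
    NQ d Q (pr (d / 2) f) ≤ ENNReal.ofReal C * ∑' i : ℕ,
      ENNReal.ofReal ((p i : ℝ) / Q * (1 + Real.log (p i)) ^ (-2 : ℝ) * pr (d / 2) f (nd d Q (p i)) ^ 2) := by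
  obtain ⟨C, hC, hps⟩ := ps_upper (d := d) (by linarith)
  refine ⟨C, hC, ?_⟩
  intro Q hQ f p hp
  have hQ0 : 0 < Q := by linarith
  calc NQ d Q (pr (d / 2) f)
      ≤ ∑' i : ℕ, ENNReal.ofReal ((1 / 4 : ℝ) ^ i * (Q ^ (-(2 / d))) ^ dl i) *
        ∑' j : ℕ, ENNReal.ofReal (nd d Q (p j) ^ (d / 2 - dl i) *
          pr (d / 2) f (nd d Q (p j)) ^ 2) := by
        unfold NQ
        refine ENNReal.tsum_le_tsum fun i => mul_le_mul_right ?_ _
        exact low1 (dl_pos i) (dl_le i) (by linarith) f (fun j => nd d Q (p j))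
          (fun j => (hp j).2)
    _ = ∑' j : ℕ, ∑' i : ℕ, ENNReal.ofReal ((1 / 4 : ℝ) ^ i * (Q ^ (-(2 / d))) ^ dl i) *
        ENNReal.ofReal (nd d Q (p j) ^ (d / 2 - dl i) * pr (d / 2) f (nd d Q (p j)) ^ 2) := by
        rw [ENNReal.tsum_comm]
        congr 1
        funext i
        rw [ENNReal.tsum_mul_left]
    _ = ∑' j : ℕ, ENNReal.ofReal ((p j : ℝ) / Q * ps d (p j) *
          pr (d / 2) f (nd d Q (p j)) ^ 2) := by
        congr 1
        funext j
        exact bes_sum hd hQ0 (hp j).1 (sq_nonneg _)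
    _ ≤ ∑' j : ℕ, ENNReal.ofReal C * ENNReal.ofReal ((p j : ℝ) / Q *
          (1 + Real.log (p j)) ^ (-2 : ℝ) * pr (d / 2) f (nd d Q (p j)) ^ 2) := by
        refine ENNReal.tsum_le_tsum fun j => ?_
        rw [← ENNReal.ofReal_mul hC.le]
        refine ENNReal.ofReal_le_ofReal ?_
        have h1 : (1 : ℝ) ≤ p j := by exact_mod_cast (hp j).1
        have h2 := hps (p j) h1
        calc (p j : ℝ) / Q * ps d (p j) * pr (d / 2) f (nd d Q (p j)) ^ 2
            ≤ (p j : ℝ) / Q * (C * (1 + Real.log (p j)) ^ (-2 : ℝ)) *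
              pr (d / 2) f (nd d Q (p j)) ^ 2 := by gcongr
          _ = _ := by ring
    _ = _ := ENNReal.tsum_mul_left

theorem seed {d : ℝ} (hd : 4 < d) : ∃ C : ℝ, 0 < C ∧ ∀ Q : ℝ, 1 ≤ Q → ∀ f : VR,
    ENNReal.ofReal (pr (d/2) f (nd d Q 1) ^ 2) ≤ ENNReal.ofReal (C * Q) * NQ d Q (pr (d/2) f) := by
  obtain ⟨C, hC, h⟩ := NQ_pt hd
  refine ⟨C, hC, ?_⟩
  intro Q hQ f
  have hQ0 : 0 < Q := by linarith
  have h1 := h Q hQ f 1 le_rfl
  have h2 : ((1 : ℕ) : ℝ) / Q * (1 + Real.log ((1 : ℕ) : ℝ)) ^ (-2 : ℝ) *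
      pr (d / 2) f (nd d Q 1) ^ 2 = Q⁻¹ * pr (d / 2) f (nd d Q 1) ^ 2 := by
    simp
  rw [h2] at h1
  calc ENNReal.ofReal (pr (d/2) f (nd d Q 1) ^ 2)
      = ENNReal.ofReal Q * ENNReal.ofReal (Q⁻¹ * pr (d / 2) f (nd d Q 1) ^ 2) := by
        rw [← ENNReal.ofReal_mul hQ0.le, ← mul_assoc, mul_inv_cancel₀ hQ0.ne', one_mul]
    _ ≤ ENNReal.ofReal Q * (ENNReal.ofReal C * NQ d Q (pr (d / 2) f)) := mul_le_mul_right h1 _
    _ = _ := by
        rw [← mul_assoc, ← ENNReal.ofReal_mul hQ0.le, mul_comm Q C]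

theorem bessel {d h : ℝ} (hd : 4 < d) (hh : 0 < h) (hh1 : h ≤ 1) : ∃ C : ℝ, 0 < C ∧ ∀ Q : ℝ, 1 ≤ Q →
    ∀ (σ : ℕ → ℝ) (A : ℝ), 0 ≤ A → (∀ n, 0 ≤ σ n) → (∀ n, σ n ≠ 0 → h ≤ nd d Q n) →
    (∀ j : ℕ, 1 ≤ j → ∀ F : Finset ℕ, (∀ n ∈ F, (j:ℝ) * h ≤ nd d Q n ∧ nd d Q n < ((j:ℝ)+1) * h) →
      ∑ n ∈ F, σ n ≤ A * cl d Q h j) →
    ∀ f : VR, ∑' n : ℕ, ENNReal.ofReal (σ n * ((n:ℝ) ^ (2/d) * (1 + Real.log n) ^ (-2 : ℝ)) *
      pr (d/2) f (nd d Q n) ^ 2) ≤ ENNReal.ofReal (C * A * Q ^ (1 + 2/d)) * NQ d Q (pr (d/2) f) := by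
  obtain ⟨c, hc, hps⟩ := ps_lower (d := d) (by linarith)
  refine ⟨1228 * 4 ^ (d / 2) * (d / 2 * 2 ^ (d / 2 - 1)) / c, by positivity, ?_⟩
  intro Q hQ σ A hA hσ hsup hcell f
  have hQ0 : 0 < Q := by linarith
  have hd0 : 0 < d := by linarith
  set K : ℝ := d / 2 * 2 ^ (d / 2 - 1) * h * Q ^ (2 / d) with hK
  have hK0 : 0 ≤ K := by positivity
  have hpos : ∀ n, σ n ≠ 0 → 1 ≤ n := by
    intro n hn
    rcases Nat.eq_zero_or_pos n with h0 | h0
    · exfalso
      have h1 := hsup n hn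
      rw [h0] at h1
      unfold nd at h1
      rw [Nat.cast_zero, zero_div, Real.zero_rpow (by positivity)] at h1
      linarith
    · exact h0
  have hν : ∀ j : ℕ, 1 ≤ j → ∀ S : Finset ℕ,
      (∀ n ∈ S, (j : ℝ) * h ≤ nd d Q n ∧ nd d Q n < ((j : ℝ) + 1) * h) →
      ∑ n ∈ S, σ n * (n : ℝ) ^ (2 / d - 1) ≤ A * K := by
    intro j hj S hS
    have hj0 : (0 : ℝ) < j := by exact_mod_cast hj
    have hcl : 0 < cl d Q h j := by
      unfold cl
      refine mul_pos hQ0 (sub_pos.2 ?_)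
      exact Real.rpow_lt_rpow (by positivity) (by nlinarith) (by positivity)
    have h1 : ∀ n ∈ S, σ n * (n : ℝ) ^ (2 / d - 1) ≤ σ n * (K / cl d Q h j) := by
      intro n hn
      refine mul_le_mul_of_nonneg_left ?_ (hσ n)
      rw [le_div_iff₀ hcl]
      exact cell_up hd hQ0 hh hj (hS n hn).1
    calc ∑ n ∈ S, σ n * (n : ℝ) ^ (2 / d - 1) ≤ ∑ n ∈ S, σ n * (K / cl d Q h j) :=
          Finset.sum_le_sum h1
      _ = (∑ n ∈ S, σ n) * (K / cl d Q h j) := by rw [Finset.sum_mul]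
      _ ≤ A * cl d Q h j * (K / cl d Q h j) := by
          have := hcell j hj S hS
          gcongr
      _ = A * K := by field_simp
  have hup : ∀ i : ℕ, ∑' n : ℕ, ENNReal.ofReal (σ n * (n : ℝ) ^ (2 / d - 1) *
      nd d Q n ^ (d / 2 - dl i) * pr (d / 2) f (nd d Q n) ^ 2) ≤
      ENNReal.ofReal (1228 * 4 ^ (d / 2) * (A * K) / h) * MM (d / 2 - dl i) (pr (d / 2) f) := by
    intro i
    refine up1 (dl_pos i) (dl_le i) (by linarith) hh hh1 f (fun n => nd d Q n)
      (fun n => σ n * (n : ℝ) ^ (2 / d - 1)) ?_ ?_ (by positivity) hν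
    · intro n
      have := hσ n
      positivity
    · intro n hn
      refine hsup n fun h0 => hn ?_
      simp only [h0, zero_mul]
  -- sum over `i`
  have hsum : ∑' n : ℕ, ENNReal.ofReal (σ n * (n : ℝ) ^ (2 / d - 1) * ((n : ℝ) / Q * ps d n *
      pr (d / 2) f (nd d Q n) ^ 2)) ≤
      ENNReal.ofReal (1228 * 4 ^ (d / 2) * (A * K) / h) * NQ d Q (pr (d / 2) f) := by
    calc ∑' n : ℕ, ENNReal.ofReal (σ n * (n : ℝ) ^ (2 / d - 1) * ((n : ℝ) / Q * ps d n *
          pr (d / 2) f (nd d Q n) ^ 2))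
        ≤ ∑' n : ℕ, ∑' i : ℕ, ENNReal.ofReal ((1 / 4 : ℝ) ^ i * (Q ^ (-(2 / d))) ^ dl i) *
          ENNReal.ofReal (σ n * (n : ℝ) ^ (2 / d - 1) *
            nd d Q n ^ (d / 2 - dl i) * pr (d / 2) f (nd d Q n) ^ 2) := by
          refine ENNReal.tsum_le_tsum fun n => ?_
          by_cases hn : σ n = 0
          · simp [hn]
          · have hn1 := hpos n hn
            have h1 := bes_sum hd hQ0 hn1 (sq_nonneg (pr (d / 2) f (nd d Q n)))
            have h2 : 0 ≤ σ n * (n : ℝ) ^ (2 / d - 1) := by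
              have := hσ n
              positivity
            rw [ENNReal.ofReal_mul h2, ← h1, ← ENNReal.tsum_mul_left]
            refine ENNReal.tsum_le_tsum fun i => ?_
            rw [mul_left_comm, ← ENNReal.ofReal_mul h2]
            refine le_of_eq ?_
            congr 2
            ring
      _ = ∑' i : ℕ, ENNReal.ofReal ((1 / 4 : ℝ) ^ i * (Q ^ (-(2 / d))) ^ dl i) *
          ∑' n : ℕ, ENNReal.ofReal (σ n * (n : ℝ) ^ (2 / d - 1) *
            nd d Q n ^ (d / 2 - dl i) * pr (d / 2) f (nd d Q n) ^ 2) := by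
          rw [ENNReal.tsum_comm]
          congr 1
          funext i
          rw [ENNReal.tsum_mul_left]
      _ ≤ ∑' i : ℕ, ENNReal.ofReal ((1 / 4 : ℝ) ^ i * (Q ^ (-(2 / d))) ^ dl i) *
          (ENNReal.ofReal (1228 * 4 ^ (d / 2) * (A * K) / h) *
            MM (d / 2 - dl i) (pr (d / 2) f)) :=
          ENNReal.tsum_le_tsum fun i => mul_le_mul_right (hup i) _
      _ = _ := by
          unfold NQ
          rw [← ENNReal.tsum_mul_left]
          congr 1
          funext i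
          ring
  calc ∑' n : ℕ, ENNReal.ofReal (σ n * ((n:ℝ) ^ (2/d) * (1 + Real.log n) ^ (-2 : ℝ)) *
        pr (d/2) f (nd d Q n) ^ 2)
      ≤ ∑' n : ℕ, ENNReal.ofReal (Q / c) * ENNReal.ofReal (σ n * (n : ℝ) ^ (2 / d - 1) *
        ((n : ℝ) / Q * ps d n * pr (d / 2) f (nd d Q n) ^ 2)) := by
        refine ENNReal.tsum_le_tsum fun n => ?_
        by_cases hn : σ n = 0
        · simp [hn]
        · have hn1 : (1 : ℝ) ≤ n := by exact_mod_cast hpos n hn
          have hn0 : (0 : ℝ) < n := by linarith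
          rw [← ENNReal.ofReal_mul (by positivity)]
          refine ENNReal.ofReal_le_ofReal ?_
          have h2 := hps n hn1
          have h3 : (1 + Real.log n) ^ (-2 : ℝ) ≤ 1 / c * ps d n := by
            rw [one_div, ← div_eq_inv_mul, le_div_iff₀ hc]
            linarith
          have h4 : (n : ℝ) ^ (2 / d) = (n : ℝ) ^ (2 / d - 1) * n := by
            rw [← Real.rpow_add_one hn0.ne']
            congr 1
            ring
          have h5 := hσ n
          calc σ n * ((n:ℝ) ^ (2/d) * (1 + Real.log n) ^ (-2 : ℝ)) * pr (d/2) f (nd d Q n) ^ 2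
              ≤ σ n * ((n:ℝ) ^ (2/d) * (1 / c * ps d n)) * pr (d/2) f (nd d Q n) ^ 2 := by gcongr
            _ = _ := by
                rw [h4]
                field_simp
    _ = ENNReal.ofReal (Q / c) * ∑' n : ℕ, ENNReal.ofReal (σ n * (n : ℝ) ^ (2 / d - 1) *
        ((n : ℝ) / Q * ps d n * pr (d / 2) f (nd d Q n) ^ 2)) := ENNReal.tsum_mul_left
    _ ≤ ENNReal.ofReal (Q / c) * (ENNReal.ofReal (1228 * 4 ^ (d / 2) * (A * K) / h) *
        NQ d Q (pr (d / 2) f)) := mul_le_mul_right hsum _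
    _ = _ := by
        rw [← mul_assoc, ← ENNReal.ofReal_mul (by positivity)]
        congr 2
        rw [hK, Real.rpow_add hQ0, Real.rpow_one]
        field_simp

end Pool.Agent.H97.EP

end

section

/-!
PT Sel: Selberg's weights.

M ≥ 1, z > 1: there are real weights lam r, lam 1 = 1, |lam r| ≤ 1, supported on squarefree r ≤ z coprime to M, with
   0 ≤ ∑_{r,s ≤ z} lam r lam s / lcm(r,s) ≤ (M/φ(M)) / log z.
Proof.  G = ∑_{r ≤ z, (r,M)=1} μ²(r)/φ(r) and, for squarefree r ≤ z coprime to M,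
   lam r = μ(r) (r/φ(r)) (1/G) G_r,   G_r = ∑_{s ≤ z/r, (s, rM)=1} μ²(s)/φ(s).
 * lam 1 = 1.
 * G ≥ ∑_{k | r} ∑_{s ≤ z/r, (s,rM)=1} μ²(ks)/φ(ks) = (∑_{k|r} 1/φ(k)) G_r = (r/φ(r)) G_r, so |lam r| ≤ 1.
 * lcm: 1/lcm(r,s) = gcd(r,s)/(rs), gcd(r,s) = ∑_{d | r, d | s} φ(d), so the quadratic form is ∑_d φ(d) y_d² ≥ 0,
   y_d = ∑_{d | r} lam r/r, and y_d = μ(d)/(φ(d) G) for squarefree d ≤ z coprime to M (0 otherwise)
   (∑_{r : d | r} μ(r)/φ(r) G_r: put t = r s; = ∑_{t : d | t, t ≤ z, (t,M)=1} μ²(t)/φ(t) ∑_{r | t, d | r} μ(r) = μ(d)·[t = d]...),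
   hence the form is (1/G²) ∑ μ²(d)/φ(d) = 1/G.
 * G · (M/φ(M)) ≥ ∑_{n ≤ z} 1/n ≥ log z: every n ≤ z is n = a b with b composed of primes dividing M and (a,M)=1;
   ∑_{a ≤ z, (a,M)=1} 1/a ≤ ∑_{r ≤ z, (r,M)=1} μ²(r)/φ(r)  (group a by its radical: 1/φ(r) = ∑_{rad(a) = r} 1/a), and
   ∑_b 1/b = M/φ(M) over b composed of primes dividing M (finite partial sums are ≤).
-/

set_option autoImplicit false

namespace Pool.Agent.H91.PT

open Finset

/-! ### The sum over the numbers with a given radical -/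

/-- the product of the primes dividing `n` but not `M` -/
def selRad (M n : ℕ) : ℕ := ∏ p ∈ n.primeFactors.filter (fun p => ¬ p ∣ M), p

theorem selRad_dvd (M n : ℕ) : selRad M n ∣ n :=
  (prod_dvd_prod_of_subset _ _ _ (filter_subset _ _)).trans (Nat.prod_primeFactors_dvd n)

theorem sel_sq (T : Finset ℕ) (hT : ∀ p ∈ T, p.Prime) : Squarefree (∏ p ∈ T, p) := by
  classical
  induction T using Finset.induction_on with
  | empty => simp
  | insert a T ha ih =>
    have ha' : a.Prime := hT a (mem_insert_self a T)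
    have hT' : ∀ p ∈ T, p.Prime := fun p hp => hT p (mem_insert_of_mem hp)
    have hcop : Nat.Coprime a (∏ p ∈ T, p) := by
      refine Nat.Coprime.prod_right ?_
      intro p hp
      rw [Nat.coprime_primes ha' (hT' p hp)]
      rintro rfl
      exact ha hp
    rw [prod_insert ha, Nat.squarefree_mul hcop]
    exact ⟨ha'.squarefree, ih hT'⟩

theorem selRad_sq (M n : ℕ) : Squarefree (selRad M n) :=
  sel_sq _ fun _ hp => Nat.prime_of_mem_primeFactors (mem_filter.1 hp).1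

theorem selRad_coprime (M n : ℕ) : Nat.Coprime (selRad M n) M := by
  refine Nat.Coprime.prod_left ?_
  intro p hp
  rw [mem_filter] at hp
  exact (Nat.Prime.coprime_iff_not_dvd (Nat.prime_of_mem_primeFactors hp.1)).2 hp.2

/-- the completely multiplicative function `1/n` -/
noncomputable def selInv : ℕ →* ℝ where
  toFun n := (n : ℝ)⁻¹
  map_one' := by simp
  map_mul' m n := by
    rw [Nat.cast_mul, mul_inv]

theorem selInv_apply (n : ℕ) : selInv n = (n : ℝ)⁻¹ := rfl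

theorem sel_tot (K : ℕ) (hK : K ≠ 0) :
    ∏ p ∈ K.primeFactors with p.Prime, (1 - selInv p)⁻¹ = (K : ℝ) / K.totient := by
  have h1 : (K.primeFactors.filter fun p => p.Prime) = K.primeFactors :=
    filter_true_of_mem fun p hp => Nat.prime_of_mem_primeFactors hp
  rw [h1]
  have h2 : (K.totient : ℝ) = K * ∏ p ∈ K.primeFactors, (1 - (p : ℝ)⁻¹) := by
    have h := congrArg (fun q : ℚ => (q : ℝ)) (Nat.totient_eq_mul_prod_factors K)
    push_cast at h
    exact h
  have hφ : (K.totient : ℝ) ≠ 0 := by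
    have := Nat.totient_pos.2 (Nat.pos_of_ne_zero hK)
    positivity
  have hK' : (K : ℝ) ≠ 0 := by exact_mod_cast hK
  rw [eq_div_iff hφ, h2, prod_inv_distrib]
  have h3 : ∏ p ∈ K.primeFactors, (1 - (p : ℝ)⁻¹) ≠ 0 := by
    intro h
    rw [h2, h, mul_zero] at hφ
    exact hφ rfl
  simp only [selInv_apply]
  generalize ∏ p ∈ K.primeFactors, (1 - (p : ℝ)⁻¹) = Q at h3
  field_simp

theorem sel_sum (K : ℕ) (hK : K ≠ 0) (T : Finset ℕ)
    (hT : ∀ m ∈ T, m ∈ Nat.factoredNumbers K.primeFactors) :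
    ∑ m ∈ T, (m : ℝ)⁻¹ ≤ (K : ℝ) / K.totient := by
  classical
  obtain ⟨h1, h2⟩ := EulerProduct.summable_and_hasSum_factoredNumbers_prod_filter_prime_geometric
    (f := selInv) (fun {p} hp => by
      rw [selInv_apply, norm_inv, Real.norm_natCast]
      exact inv_lt_one_of_one_lt₀ (by exact_mod_cast hp.one_lt)) K.primeFactors
  rw [sel_tot K hK] at h2
  rw [← h2.tsum_eq]
  have h3 : ∑ m ∈ T, (m : ℝ)⁻¹ = ∑ m ∈ T.attach.image (fun m => (⟨m.1, hT m.1 m.2⟩ :
      Nat.factoredNumbers K.primeFactors)), selInv m := by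
    rw [sum_image]
    · rw [← sum_attach]
      rfl
    · intro x _ y _ h
      exact Subtype.ext (congrArg (fun z : Nat.factoredNumbers K.primeFactors => (z : ℕ)) h)
  rw [h3]
  refine h2.summable.sum_le_tsum _ fun i _ => ?_
  rw [selInv_apply]
  positivity

theorem sel_fiber (M : ℕ) (hM : 1 ≤ M) (N r : ℕ) (hr : r ≠ 0) (hrM : Nat.Coprime r M) :
    ∑ n ∈ (Icc 1 N).filter (fun n => selRad M n = r), (n : ℝ)⁻¹ ≤
      (1 / (r.totient : ℝ)) * ((M : ℝ) / M.totient) := by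
  classical
  have hM0 : M ≠ 0 := by omega
  have hK : r * M ≠ 0 := mul_ne_zero hr hM0
  have h1 : ∀ n ∈ (Icc 1 N).filter (fun n => selRad M n = r), r ∣ n := by
    intro n hn
    rw [mem_filter] at hn
    rw [← hn.2]
    exact selRad_dvd M n
  have h2 := sel_sum (r * M) hK (((Icc 1 N).filter (fun n => selRad M n = r)).image (fun n => n / r))
    (by
      intro m hm
      rw [mem_image] at hm
      obtain ⟨n, hn, rfl⟩ := hm
      have hrn := h1 n hn
      rw [mem_filter, mem_Icc] at hn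
      have hn0 : n ≠ 0 := by omega
      rw [Nat.mem_factoredNumbers]
      refine ⟨?_, ?_⟩
      · exact (Nat.div_pos (Nat.le_of_dvd (by omega) hrn) (Nat.pos_of_ne_zero hr)).ne'
      · intro p hp
        have hpp := Nat.prime_of_mem_primeFactorsList hp
        have hpn : p ∣ n := (Nat.dvd_of_mem_primeFactorsList hp).trans (Nat.div_dvd_of_dvd hrn)
        rw [Nat.mem_primeFactors]
        refine ⟨hpp, ?_, hK⟩
        by_cases hpM : p ∣ M
        · exact hpM.mul_left r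
        · refine Dvd.dvd.mul_right ?_ M
          rw [← hn.2]
          refine dvd_prod_of_mem _ ?_
          rw [mem_filter, Nat.mem_primeFactors]
          exact ⟨⟨hpp, hpn, hn0⟩, hpM⟩)
  rw [sum_image] at h2
  · have h3 : ∑ n ∈ (Icc 1 N).filter (fun n => selRad M n = r), (n : ℝ)⁻¹ =
        (r : ℝ)⁻¹ * ∑ n ∈ (Icc 1 N).filter (fun n => selRad M n = r), ((n / r : ℕ) : ℝ)⁻¹ := by
      rw [mul_sum]
      refine sum_congr rfl fun n hn => ?_
      rw [← mul_inv]
      congr 1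
      rw [← Nat.cast_mul, Nat.mul_div_cancel' (h1 n hn)]
    rw [h3]
    refine (mul_le_mul_of_nonneg_left h2 (by positivity)).trans (le_of_eq ?_)
    rw [Nat.totient_mul hrM, Nat.cast_mul, Nat.cast_mul]
    have hr' : (r : ℝ) ≠ 0 := by exact_mod_cast hr
    field_simp
  · intro x hx y hy hxy
    have e1 := Nat.mul_div_cancel' (h1 x hx)
    have e2 := Nat.mul_div_cancel' (h1 y hy)
    have hxy' : x / r = y / r := hxy
    rw [← e1, ← e2, hxy']

/-- the set of moduli -/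
def selS (M N : ℕ) : Finset ℕ := (Icc 1 N).filter (fun r => Squarefree r ∧ Nat.Coprime r M)

theorem mem_selS {M N r : ℕ} :
    r ∈ selS M N ↔ (1 ≤ r ∧ r ≤ N) ∧ Squarefree r ∧ Nat.Coprime r M := by
  unfold selS
  rw [mem_filter, mem_Icc]

theorem selS_dvd {M N r t : ℕ} (ht : t ∈ selS M N) (h : r ∣ t) : r ∈ selS M N := by
  rw [mem_selS] at ht ⊢
  have ht0 : 0 < t := by omega
  refine ⟨⟨Nat.pos_of_dvd_of_pos h ht0, (Nat.le_of_dvd ht0 h).trans ht.1.2⟩,
    ht.2.1.squarefree_of_dvd h, Nat.Coprime.coprime_dvd_left h ht.2.2⟩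

/-- the main sum -/
noncomputable def selG (M N : ℕ) : ℝ := ∑ r ∈ selS M N, 1 / (r.totient : ℝ)

theorem selG_ge (M : ℕ) (hM : 1 ≤ M) (N : ℕ) :
    ∑ n ∈ Icc 1 N, (n : ℝ)⁻¹ ≤ selG M N * ((M : ℝ) / M.totient) := by
  classical
  have hmaps : ∀ n ∈ Icc 1 N, selRad M n ∈ selS M N := by
    intro n hn
    rw [mem_Icc] at hn
    rw [mem_selS]
    have h0 : 0 < n := by omega
    exact ⟨⟨Nat.pos_of_dvd_of_pos (selRad_dvd M n) h0, (Nat.le_of_dvd h0 (selRad_dvd M n)).trans hn.2⟩,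
      selRad_sq M n, selRad_coprime M n⟩
  rw [← sum_fiberwise_of_maps_to hmaps]
  unfold selG
  rw [sum_mul]
  refine sum_le_sum fun r hr => ?_
  rw [mem_selS] at hr
  exact sel_fiber M hM N r (by omega) hr.2.2

/-! ### The weights -/

/-- the inner sum -/
noncomputable def selH (M N r : ℕ) : ℝ := ∑ t ∈ (selS M N).filter (fun t => r ∣ t), 1 / (t.totient : ℝ)

/-- Selberg's weights -/
noncomputable def selLam (M N r : ℕ) : ℝ :=
  (ArithmeticFunction.moebius r : ℝ) * (r : ℝ) / selG M N * selH M N r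

theorem selH_one (M N : ℕ) : selH M N 1 = selG M N := by
  unfold selH selG
  rw [filter_true_of_mem]
  intro t _
  exact one_dvd t

theorem selH_zero {M N r : ℕ} (h : r ∉ selS M N) : selH M N r = 0 := by
  unfold selH
  rw [filter_false_of_mem, sum_empty]
  intro t ht hrt
  exact h (selS_dvd ht hrt)

theorem selH_nonneg (M N r : ℕ) : 0 ≤ selH M N r :=
  sum_nonneg fun t _ => by positivity

theorem selG_pos {M N : ℕ} (hN : 1 ≤ N) : 0 < selG M N := by
  have h1 : (1 : ℕ) ∈ selS M N := by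
    rw [mem_selS]
    exact ⟨⟨le_rfl, hN⟩, squarefree_one, Nat.coprime_one_left M⟩
  refine sum_pos' (fun t _ => by positivity) ⟨1, h1, ?_⟩
  simp

theorem selH_le {M N r : ℕ} (hr : r ∈ selS M N) : (r : ℝ) * selH M N r ≤ selG M N := by
  classical
  have hr' := mem_selS.1 hr
  have hr0 : r ≠ 0 := by omega
  have hmaps : ∀ t ∈ selS M N, Nat.gcd t r ∈ r.divisors := by
    intro t _
    rw [Nat.mem_divisors]
    exact ⟨Nat.gcd_dvd_right t r, hr0⟩
  have h1 : ∀ k ∈ r.divisors, ((r / k).totient : ℝ) * selH M N r ≤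
      ∑ t ∈ (selS M N).filter (fun t => Nat.gcd t r = k), 1 / (t.totient : ℝ) := by
    intro k hk
    rw [Nat.mem_divisors] at hk
    have hk0 : k ≠ 0 := fun h => hr0 (Nat.eq_zero_of_zero_dvd (h ▸ hk.1))
    obtain ⟨l, hl⟩ := hk.1
    have hsqr : Squarefree (k * l) := hl ▸ hr'.2.1
    have hkl : Nat.Coprime k l := Nat.coprime_of_squarefree_mul hsqr
    have hrk : r / k = l := by
      rw [hl]
      exact Nat.mul_div_cancel_left l (Nat.pos_of_ne_zero hk0)
    have hl0 : l ≠ 0 := by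
      rintro rfl
      rw [mul_zero] at hl
      exact hr0 hl
    -- the injection
    have h2 : ∀ u ∈ (selS M N).filter (fun t => r ∣ t), ∃ s, u = r * s ∧ Nat.Coprime r s ∧ s ≠ 0 := by
      intro u hu
      rw [mem_filter] at hu
      obtain ⟨s, hs⟩ := hu.2
      have hu' := mem_selS.1 hu.1
      refine ⟨s, hs, Nat.coprime_of_squarefree_mul (hs ▸ hu'.2.1), ?_⟩
      rintro rfl
      rw [mul_zero] at hs
      omega
    have h3 : ((r / k).totient : ℝ) * selH M N r =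
        ∑ u ∈ (selS M N).filter (fun t => r ∣ t), 1 / ((k * (u / r)).totient : ℝ) := by
      unfold selH
      rw [mul_sum]
      refine sum_congr rfl fun u hu => ?_
      obtain ⟨s, hs, hcop, hs0⟩ := h2 u hu
      have e1 : u / r = s := by
        rw [hs]
        exact Nat.mul_div_cancel_left s (Nat.pos_of_ne_zero hr0)
      have hks : Nat.Coprime k s := Nat.Coprime.coprime_dvd_left hk.1 hcop
      rw [e1, hrk, hs, Nat.totient_mul hcop, Nat.totient_mul hks, hl, Nat.totient_mul hkl]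
      have a1 : (k.totient : ℝ) ≠ 0 := by
        have := Nat.totient_pos.2 (Nat.pos_of_ne_zero hk0)
        positivity
      have a2 : (l.totient : ℝ) ≠ 0 := by
        have := Nat.totient_pos.2 (Nat.pos_of_ne_zero hl0)
        positivity
      have a3 : (s.totient : ℝ) ≠ 0 := by
        have := Nat.totient_pos.2 (Nat.pos_of_ne_zero hs0)
        positivity
      push_cast
      field_simp
    rw [h3, ← sum_image (s := (selS M N).filter (fun t => r ∣ t)) (g := fun u => k * (u / r))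
      (f := fun t : ℕ => 1 / (t.totient : ℝ))]
    · refine sum_le_sum_of_subset_of_nonneg ?_ (fun t _ _ => by positivity)
      intro t ht
      rw [mem_image] at ht
      obtain ⟨u, hu, rfl⟩ := ht
      obtain ⟨s, hs, hcop, hs0⟩ := h2 u hu
      have e1 : u / r = s := by
        rw [hs]
        exact Nat.mul_div_cancel_left s (Nat.pos_of_ne_zero hr0)
      rw [e1, mem_filter]
      rw [mem_filter] at hu
      refine ⟨selS_dvd hu.1 ?_, ?_⟩
      · rw [hs]
        exact mul_dvd_mul_right hk.1 s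
      · have hsl : Nat.Coprime s l := (Nat.Coprime.coprime_dvd_left ⟨k, by rw [hl]; ring⟩ hcop).symm
        rw [hl, Nat.gcd_mul_left, hsl.gcd_eq_one, mul_one]
    · intro u hu v hv huv
      obtain ⟨s, hs, -, -⟩ := h2 u hu
      obtain ⟨s', hs', -, -⟩ := h2 v hv
      have huv' : k * (u / r) = k * (v / r) := huv
      rw [hs, hs', Nat.mul_div_cancel_left s (Nat.pos_of_ne_zero hr0),
        Nat.mul_div_cancel_left s' (Nat.pos_of_ne_zero hr0)] at huv'
      rw [hs, hs', Nat.eq_of_mul_eq_mul_left (Nat.pos_of_ne_zero hk0) huv']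
  have h4 : selG M N = ∑ k ∈ r.divisors,
      ∑ t ∈ (selS M N).filter (fun t => Nat.gcd t r = k), 1 / (t.totient : ℝ) := by
    rw [sum_fiberwise_of_maps_to hmaps]
    rfl
  rw [h4]
  refine le_trans (le_of_eq ?_) (sum_le_sum h1)
  rw [← sum_mul]
  congr 1
  rw [Nat.sum_div_divisors r (fun m => ((m.totient : ℕ) : ℝ))]
  have := Nat.sum_totient r
  exact_mod_cast this.symm

/-! ### The quadratic form -/

theorem sel_mu (d t : ℕ) (ht : Squarefree t) (N : ℕ) (htN : t ≤ N) (hdt : d ∣ t) :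
    ∑ r ∈ (Icc 1 N).filter (fun r => d ∣ r ∧ r ∣ t), (ArithmeticFunction.moebius r : ℝ) =
      if t = d then (ArithmeticFunction.moebius d : ℝ) else 0 := by
  classical
  have ht0 : t ≠ 0 := ht.ne_zero
  obtain ⟨l, hl⟩ := hdt
  have hd0 : d ≠ 0 := by
    rintro rfl
    rw [zero_mul] at hl
    exact ht0 hl
  have hl0 : l ≠ 0 := by
    rintro rfl
    rw [mul_zero] at hl
    exact ht0 hl
  have hdl : Nat.Coprime d l := Nat.coprime_of_squarefree_mul (hl ▸ ht)
  have h1 : (Icc 1 N).filter (fun r => d ∣ r ∧ r ∣ t) = l.divisors.image (fun k => d * k) := by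
    ext r
    rw [mem_filter, mem_Icc, mem_image]
    constructor
    · rintro ⟨⟨h1, h2⟩, ⟨k, hk⟩, h4⟩
      refine ⟨k, ?_, hk.symm⟩
      rw [Nat.mem_divisors]
      refine ⟨?_, hl0⟩
      rw [hk, hl] at h4
      exact (Nat.mul_dvd_mul_iff_left (Nat.pos_of_ne_zero hd0)).1 h4
    · rintro ⟨k, hk, rfl⟩
      rw [Nat.mem_divisors] at hk
      have h5 : d * k ∣ t := by
        rw [hl]
        exact mul_dvd_mul_left d hk.1
      have h6 : d * k ≠ 0 := fun h => ht0 (Nat.eq_zero_of_zero_dvd (h ▸ h5))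
      exact ⟨⟨Nat.pos_of_ne_zero h6, (Nat.le_of_dvd (Nat.pos_of_ne_zero ht0) h5).trans htN⟩,
        ⟨k, rfl⟩, h5⟩
  rw [h1, sum_image (by
    intro x _ y _ hxy
    exact Nat.eq_of_mul_eq_mul_left (Nat.pos_of_ne_zero hd0) hxy)]
  have h2 : ∀ k ∈ l.divisors, (ArithmeticFunction.moebius (d * k) : ℝ) =
      (ArithmeticFunction.moebius d : ℝ) * (ArithmeticFunction.moebius k : ℝ) := by
    intro k hk
    rw [Nat.mem_divisors] at hk
    have : Nat.Coprime d k := Nat.Coprime.coprime_dvd_right hk.1 hdl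
    rw [ArithmeticFunction.isMultiplicative_moebius.map_mul_of_coprime this]
    push_cast
    ring
  rw [sum_congr rfl h2, ← mul_sum]
  have h3 : ∑ k ∈ l.divisors, (ArithmeticFunction.moebius k : ℝ) = if l = 1 then 1 else 0 := by
    have h := congrArg (fun f : ArithmeticFunction ℤ => f l)
      ArithmeticFunction.coe_zeta_mul_moebius
    simp only [ArithmeticFunction.coe_zeta_mul_apply, ArithmeticFunction.one_apply] at h
    have h' := congrArg (fun q : ℤ => (q : ℝ)) h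
    push_cast at h'
    exact h'
  rw [h3]
  by_cases hl1 : l = 1
  · rw [if_pos hl1, if_pos (by rw [hl, hl1, mul_one]), mul_one]
  · rw [if_neg hl1, if_neg, mul_zero]
    intro h
    apply hl1
    rw [hl] at h
    exact Nat.eq_of_mul_eq_mul_left (Nat.pos_of_ne_zero hd0) (h.trans (mul_one d).symm)

/-- the diagonal variables -/
noncomputable def selY (M N d : ℕ) : ℝ :=
  ∑ r ∈ Icc 1 N, if d ∣ r then selLam M N r / (r : ℝ) else 0

theorem selY_eq {M N : ℕ} (hN : 1 ≤ N) (d : ℕ) :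
    selY M N d = if d ∈ selS M N then
      (ArithmeticFunction.moebius d : ℝ) / (selG M N * (d.totient : ℝ)) else 0 := by
  classical
  have hG : selG M N ≠ 0 := (selG_pos hN).ne'
  have h1 : ∀ r ∈ Icc 1 N, (if d ∣ r then selLam M N r / (r : ℝ) else 0) =
      ∑ t ∈ selS M N, (if d ∣ r ∧ r ∣ t then
        (ArithmeticFunction.moebius r : ℝ) * (1 / (selG M N * (t.totient : ℝ))) else 0) := by
    intro r hr
    rw [mem_Icc] at hr
    have hr0 : (r : ℝ) ≠ 0 := by
      have : r ≠ 0 := by omega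
      exact_mod_cast this
    by_cases hdr : d ∣ r
    · rw [if_pos hdr]
      unfold selLam selH
      rw [mul_sum, sum_filter, sum_div]
      refine sum_congr rfl fun t ht => ?_
      by_cases hrt : r ∣ t
      · have ht0 : (t.totient : ℝ) ≠ 0 := by
          have h2 := mem_selS.1 ht
          have := Nat.totient_pos.2 (show 0 < t by omega)
          positivity
        rw [if_pos hrt, if_pos ⟨hdr, hrt⟩]
        field_simp
      · rw [if_neg hrt, if_neg (fun h => hrt h.2)]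
        simp
    · rw [if_neg hdr]
      symm
      refine sum_eq_zero fun t _ => ?_
      rw [if_neg (fun h => hdr h.1)]
  unfold selY
  rw [sum_congr rfl h1, sum_comm]
  have h2 : ∀ t ∈ selS M N, ∑ r ∈ Icc 1 N, (if d ∣ r ∧ r ∣ t then
        (ArithmeticFunction.moebius r : ℝ) * (1 / (selG M N * (t.totient : ℝ))) else 0) =
      if t = d then (ArithmeticFunction.moebius d : ℝ) / (selG M N * (d.totient : ℝ)) else 0 := by
    intro t ht
    have ht' := mem_selS.1 ht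
    rw [← sum_filter, ← sum_mul]
    by_cases hdt : d ∣ t
    · rw [sel_mu d t ht'.2.1 N ht'.1.2 hdt]
      by_cases htd : t = d
      · rw [if_pos htd, if_pos htd, htd, mul_one_div]
      · rw [if_neg htd, if_neg htd, zero_mul]
    · have h3 : (Icc 1 N).filter (fun r => d ∣ r ∧ r ∣ t) = ∅ := by
        rw [filter_eq_empty_iff]
        intro r _ h
        exact hdt (h.1.trans h.2)
      rw [h3, sum_empty, zero_mul, if_neg]
      rintro rfl
      exact hdt dvd_rfl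
  rw [sum_congr rfl h2, sum_ite_eq' (selS M N) d]

theorem selQ_eq (M N : ℕ) :
    ∑ r ∈ Icc 1 N, ∑ s ∈ Icc 1 N, selLam M N r * selLam M N s / (Nat.lcm r s : ℝ) =
      ∑ d ∈ Icc 1 N, (d.totient : ℝ) * selY M N d ^ 2 := by
  classical
  have h1 : ∀ r ∈ Icc 1 N, ∀ s ∈ Icc 1 N,
      selLam M N r * selLam M N s / (Nat.lcm r s : ℝ) =
        ∑ d ∈ Icc 1 N, (d.totient : ℝ) * ((if d ∣ r then selLam M N r / (r : ℝ) else 0) *
          (if d ∣ s then selLam M N s / (s : ℝ) else 0)) := by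
    intro r hr s hs
    rw [mem_Icc] at hr hs
    have hr0 : (r : ℝ) ≠ 0 := by
      have : r ≠ 0 := by omega
      exact_mod_cast this
    have hs0 : (s : ℝ) ≠ 0 := by
      have : s ≠ 0 := by omega
      exact_mod_cast this
    have hl0 : (Nat.lcm r s : ℝ) ≠ 0 := by
      have : Nat.lcm r s ≠ 0 := Nat.lcm_ne_zero (by omega) (by omega)
      exact_mod_cast this
    have e1 : (Nat.gcd r s : ℝ) * (Nat.lcm r s : ℝ) = r * s := by
      exact_mod_cast Nat.gcd_mul_lcm r s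
    have e2 : (Nat.gcd r s : ℝ) = ∑ d ∈ Icc 1 N, if d ∣ r ∧ d ∣ s then (d.totient : ℝ) else 0 := by
      have e3 : ((Nat.gcd r s).divisors : Finset ℕ) = (Icc 1 N).filter (fun d => d ∣ r ∧ d ∣ s) := by
        ext d
        rw [Nat.mem_divisors, mem_filter, mem_Icc, Nat.dvd_gcd_iff]
        constructor
        · rintro ⟨⟨h1, h2⟩, -⟩
          exact ⟨⟨Nat.pos_of_dvd_of_pos h1 (by omega), (Nat.le_of_dvd (by omega) h1).trans hr.2⟩, h1, h2⟩
        · rintro ⟨-, h1, h2⟩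
          exact ⟨⟨h1, h2⟩, (Nat.gcd_pos_of_pos_left s (by omega)).ne'⟩
      rw [← sum_filter, ← e3]
      exact_mod_cast (Nat.sum_totient (Nat.gcd r s)).symm
    have e4 : selLam M N r * selLam M N s / (Nat.lcm r s : ℝ) =
        (selLam M N r / r) * (selLam M N s / s) * (Nat.gcd r s : ℝ) := by
      rw [div_eq_iff hl0]
      have : selLam M N r / r * (selLam M N s / s) * (Nat.gcd r s : ℝ) * (Nat.lcm r s : ℝ) =
          selLam M N r / r * (selLam M N s / s) * ((Nat.gcd r s : ℝ) * (Nat.lcm r s : ℝ)) := by ring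
      rw [this, e1]
      field_simp
    rw [e4, e2, mul_sum]
    refine sum_congr rfl fun d _ => ?_
    by_cases h1 : d ∣ r
    · by_cases h2 : d ∣ s
      · rw [if_pos ⟨h1, h2⟩, if_pos h1, if_pos h2]
        ring
      · rw [if_neg (fun h => h2 h.2), if_neg h2]
        ring
    · rw [if_neg (fun h => h1 h.1), if_neg h1]
      ring
  rw [sum_congr rfl fun r hr => sum_congr rfl fun s hs => h1 r hr s hs]
  rw [sum_congr rfl fun r _ => sum_comm, sum_comm]
  refine sum_congr rfl fun d _ => ?_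
  unfold selY
  rw [sq, sum_mul_sum, mul_sum]
  refine sum_congr rfl fun r _ => ?_
  rw [mul_sum]

theorem selQ_val {M N : ℕ} (hN : 1 ≤ N) :
    ∑ r ∈ Icc 1 N, ∑ s ∈ Icc 1 N, selLam M N r * selLam M N s / (Nat.lcm r s : ℝ) =
      1 / selG M N := by
  classical
  have hG : selG M N ≠ 0 := (selG_pos hN).ne'
  rw [selQ_eq]
  have h1 : ∀ d ∈ Icc 1 N, (d.totient : ℝ) * selY M N d ^ 2 =
      if Squarefree d ∧ Nat.Coprime d M then 1 / (d.totient : ℝ) * (1 / selG M N ^ 2) else 0 := by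
    intro d hd
    rw [mem_Icc] at hd
    rw [selY_eq hN d]
    by_cases h : Squarefree d ∧ Nat.Coprime d M
    · rw [if_pos h, if_pos (mem_selS.2 ⟨hd, h⟩)]
      have hd0 : (d.totient : ℝ) ≠ 0 := by
        have := Nat.totient_pos.2 (show 0 < d by omega)
        positivity
      have hmu : (ArithmeticFunction.moebius d : ℝ) ^ 2 = 1 := by
        have := ArithmeticFunction.moebius_sq_eq_one_of_squarefree h.1
        exact_mod_cast this
      rw [div_pow, hmu]
      field_simp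
    · rw [if_neg h, if_neg (fun h' => h (mem_selS.1 h').2)]
      simp
  rw [sum_congr rfl h1, ← sum_filter, ← sum_mul]
  have h2 : ∑ r ∈ (Icc 1 N).filter (fun r => Squarefree r ∧ Nat.Coprime r M),
      1 / (r.totient : ℝ) = selG M N := rfl
  rw [h2]
  field_simp

theorem selberg_weights (M : ℕ) (hM : 1 ≤ M) {z : ℝ} (hz : 1 < z) :
    ∃ lam : ℕ → ℝ, lam 1 = 1 ∧ (∀ r, |lam r| ≤ 1) ∧
      (∀ r, lam r ≠ 0 → 1 ≤ r ∧ (r : ℝ) ≤ z ∧ Nat.Coprime r M ∧ Squarefree r) ∧
      0 ≤ ∑ r ∈ Icc 1 ⌊z⌋₊, ∑ s ∈ Icc 1 ⌊z⌋₊, lam r * lam s / (Nat.lcm r s : ℝ) ∧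
      ∑ r ∈ Icc 1 ⌊z⌋₊, ∑ s ∈ Icc 1 ⌊z⌋₊, lam r * lam s / (Nat.lcm r s : ℝ)
        ≤ (M : ℝ) / M.totient / Real.log z := by
  classical
  have hN : 1 ≤ ⌊z⌋₊ := Nat.le_floor (by push_cast; exact hz.le)
  have hG := selG_pos (M := M) hN
  have hsupp : ∀ r, selLam M ⌊z⌋₊ r ≠ 0 → r ∈ selS M ⌊z⌋₊ := by
    intro r hr
    by_contra h
    apply hr
    unfold selLam
    rw [selH_zero h, mul_zero]
  refine ⟨selLam M ⌊z⌋₊, ?_, ?_, ?_, ?_, ?_⟩
  · unfold selLam
    rw [selH_one, ArithmeticFunction.moebius_apply_one]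
    field_simp
    simp
  · intro r
    by_cases h : r ∈ selS M ⌊z⌋₊
    · unfold selLam
      have h1 : |(ArithmeticFunction.moebius r : ℝ)| ≤ 1 := by
        have := ArithmeticFunction.abs_moebius_le_one (n := r)
        exact_mod_cast this
      have h2 := selH_le h
      have h3 := selH_nonneg M ⌊z⌋₊ r
      have h4 : (ArithmeticFunction.moebius r : ℝ) * (r : ℝ) / selG M ⌊z⌋₊ * selH M ⌊z⌋₊ r =
          (ArithmeticFunction.moebius r : ℝ) * ((r : ℝ) * selH M ⌊z⌋₊ r / selG M ⌊z⌋₊) := by ring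
      rw [h4, abs_mul]
      have h5 : 0 ≤ (r : ℝ) * selH M ⌊z⌋₊ r / selG M ⌊z⌋₊ := by positivity
      rw [abs_of_nonneg h5]
      have h6 : (r : ℝ) * selH M ⌊z⌋₊ r / selG M ⌊z⌋₊ ≤ 1 := (div_le_one hG).2 h2
      exact mul_le_one₀ h1 h5 h6
    · have : selLam M ⌊z⌋₊ r = 0 := by
        by_contra h'
        exact h (hsupp r h')
      rw [this, abs_zero]
      exact zero_le_one
  · intro r hr
    have h := mem_selS.1 (hsupp r hr)
    exact ⟨h.1.1, (Nat.le_floor_iff (by linarith)).1 h.1.2, h.2.2, h.2.1⟩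
  · rw [selQ_val hN]
    positivity
  · rw [selQ_val hN]
    have h1 : Real.log z ≤ selG M ⌊z⌋₊ * ((M : ℝ) / M.totient) := by
      have h2 : Real.log z ≤ Real.log ((⌊z⌋₊ + 1 : ℕ) : ℝ) := by
        refine Real.log_le_log (by linarith) ?_
        push_cast
        exact (Nat.lt_floor_add_one z).le
      have h3 := log_add_one_le_harmonic ⌊z⌋₊
      have h4 : ((harmonic ⌊z⌋₊ : ℚ) : ℝ) = ∑ n ∈ Icc 1 ⌊z⌋₊, (n : ℝ)⁻¹ := by
        rw [harmonic_eq_sum_Icc]
        push_cast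
        rfl
      have h5 := selG_ge M hM ⌊z⌋₊
      rw [h4] at h3
      exact h2.trans (h3.trans h5)
    have h2 : 0 < Real.log z := Real.log_pos hz
    rw [div_le_div_iff₀ hG h2, one_mul]
    rw [mul_comm] at h1
    exact h1

end Pool.Agent.H91.PT

end

section

/-!
# LC BT: Brun-Titchmarsh (with some constant)

Use `Pool.Agent.H91.PT.selberg_weights` (file Pool/Agent/H91/PT/Sel.lean of the graded repository, imports only Mathlib) with `M = 1`:
real weights `lam`, `lam 1 = 1`, `|lam r| ≤ 1`, supported on squarefree `r ≤ z`, `∑ lam r lam s / lcm(r,s) ≤ 1 / log z`.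
A prime `p > z` is divisible by no `1 < r ≤ z`, so `(∑_{r ∣ p} lam r)² = 1`; hence
`#{z < p ∈ (x, x+y]} ≤ ∑_{n ∈ (x,x+y]} (∑_{r ∣ n} lam r)² = ∑_{r,s} lam r lam s #{n : lcm(r,s) ∣ n} ≤ y / log z + z²`
(`#{n ∈ (x,x+y] : d ∣ n} = y/d + θ`, `|θ| ≤ 1`).  Take `z = y^(1/4)`; the primes `≤ z` are at most `z` in number.
-/

set_option autoImplicit false

open Finset

namespace Pool.Agent.H3.LC

theorem bt_count (x y d : ℕ) (hd : 1 ≤ d) :
    |((((Icc (x + 1) (x + y)).filter (fun n => d ∣ n)).card : ℕ) : ℝ) - (y : ℝ) / d| ≤ 1 := by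
  have h0 : (((Icc (x + 1) (x + y)).filter (fun n => d ∣ n)).card : ℕ) + x / d = (x + y) / d := by
    have e1 := Nat.Ioc_filter_dvd_card_eq_div (x + y) d
    have e2 := Nat.Ioc_filter_dvd_card_eq_div x d
    rw [← e1, ← e2, ← card_union_of_disjoint]
    · congr 1
      ext n
      simp only [mem_union, mem_filter, mem_Icc, mem_Ioc]
      constructor
      · rintro (⟨⟨h1, h2⟩, h3⟩ | ⟨⟨h1, h2⟩, h3⟩)
        · exact ⟨⟨by omega, h2⟩, h3⟩
        · exact ⟨⟨h1, by omega⟩, h3⟩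
      · rintro ⟨⟨h1, h2⟩, h3⟩
        rcases Nat.lt_or_ge x n with h | h
        · exact Or.inl ⟨⟨by omega, h2⟩, h3⟩
        · exact Or.inr ⟨⟨h1, h⟩, h3⟩
    · rw [disjoint_left]
      intro n hn hn'
      simp only [mem_filter, mem_Icc, mem_Ioc] at hn hn'
      omega
  have h1 : (((((Icc (x + 1) (x + y)).filter (fun n => d ∣ n)).card : ℕ) : ℝ)) =
      (((x + y) / d : ℕ) : ℝ) - ((x / d : ℕ) : ℝ) := by
    rw [← h0]
    push_cast
    ring
  have hd0 : (0 : ℝ) < d := by exact_mod_cast (by omega : 0 < d)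
  have a1 : (((x + y) / d : ℕ) : ℝ) ≤ ((x : ℝ) + y) / d := by
    have := @Nat.cast_div_le ℝ _ _ _ (x + y) d
    push_cast at this
    exact this
  have a2 : ((x : ℝ) + y) / d < (((x + y) / d : ℕ) : ℝ) + 1 := by
    have := Nat.lt_div_mul_add (a := x + y) (by omega : 0 < d)
    rw [div_lt_iff₀ hd0]
    have h' : ((x + y : ℕ) : ℝ) < (((x + y) / d * d + d : ℕ) : ℝ) := by exact_mod_cast this
    push_cast at h' ⊢
    nlinarith
  have b1 : ((x / d : ℕ) : ℝ) ≤ (x : ℝ) / d := Nat.cast_div_le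
  have b2 : (x : ℝ) / d < ((x / d : ℕ) : ℝ) + 1 := by
    have := Nat.lt_div_mul_add (a := x) (by omega : 0 < d)
    rw [div_lt_iff₀ hd0]
    have h' : ((x : ℕ) : ℝ) < ((x / d * d + d : ℕ) : ℝ) := by exact_mod_cast this
    push_cast at h' ⊢
    nlinarith
  rw [h1, abs_le]
  have e : ((x : ℝ) + y) / d = (x : ℝ) / d + (y : ℝ) / d := by ring
  rw [e] at a1 a2
  constructor <;> linarith

theorem bt_upper (x y N : ℕ) (hN : 1 ≤ N) (lam : ℕ → ℝ) (h1 : lam 1 = 1) :
    (((Icc (x + 1) (x + y)).filter Nat.Prime).card : ℝ) ≤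
      N + ∑ n ∈ Icc (x + 1) (x + y), (∑ r ∈ Icc 1 N, if r ∣ n then lam r else 0) ^ 2 := by
  set I := Icc (x + 1) (x + y) with hI
  have hs : ((I.filter Nat.Prime).card : ℝ) = (((I.filter Nat.Prime).filter (fun p => p ≤ N)).card : ℝ) +
      (((I.filter Nat.Prime).filter (fun p => ¬ p ≤ N)).card : ℝ) := by
    rw [← Nat.cast_add, card_filter_add_card_filter_not]
  rw [hs]
  refine add_le_add ?_ ?_
  · have : ((I.filter Nat.Prime).filter (fun p => p ≤ N)).card ≤ (Icc 1 N).card := by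
      refine card_le_card fun p hp => ?_
      simp only [mem_filter, mem_Icc] at hp ⊢
      exact ⟨hp.1.2.one_lt.le, hp.2⟩
    rw [Nat.card_Icc] at this
    have h2 : ((I.filter Nat.Prime).filter (fun p => p ≤ N)).card ≤ N := by omega
    exact_mod_cast h2
  · have h2 : ∀ n ∈ (I.filter Nat.Prime).filter (fun p => ¬ p ≤ N),
        (∑ r ∈ Icc 1 N, if r ∣ n then lam r else 0) ^ 2 = 1 := by
      intro n hn
      simp only [mem_filter] at hn
      have h3 : ∑ r ∈ Icc 1 N, (if r ∣ n then lam r else 0) = lam 1 := by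
        rw [sum_eq_single 1]
        · simp
        · intro r hr hr1
          rw [mem_Icc] at hr
          rw [if_neg]
          intro hd
          rcases (Nat.dvd_prime hn.1.2).1 hd with h | h
          · exact hr1 h
          · omega
        · intro h
          exact absurd (mem_Icc.2 ⟨le_rfl, hN⟩) h
      rw [h3, h1]
      norm_num
    calc (((I.filter Nat.Prime).filter (fun p => ¬ p ≤ N)).card : ℝ)
        = ∑ n ∈ (I.filter Nat.Prime).filter (fun p => ¬ p ≤ N), (1 : ℝ) := by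
          rw [sum_const, nsmul_eq_mul, mul_one]
      _ = ∑ n ∈ (I.filter Nat.Prime).filter (fun p => ¬ p ≤ N),
            (∑ r ∈ Icc 1 N, if r ∣ n then lam r else 0) ^ 2 :=
          sum_congr rfl fun n hn => (h2 n hn).symm
      _ ≤ _ := by
          refine sum_le_sum_of_subset_of_nonneg ?_ fun n _ _ => sq_nonneg _
          exact (filter_subset _ _).trans (filter_subset _ _)

theorem bt_expand (x y N : ℕ) (lam : ℕ → ℝ) :
    ∑ n ∈ Icc (x + 1) (x + y), (∑ r ∈ Icc 1 N, if r ∣ n then lam r else 0) ^ 2 =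
      ∑ r ∈ Icc 1 N, ∑ s ∈ Icc 1 N, lam r * lam s *
        ((((Icc (x + 1) (x + y)).filter (fun n => Nat.lcm r s ∣ n)).card : ℕ) : ℝ) := by
  have h : ∀ n : ℕ, (∑ r ∈ Icc 1 N, if r ∣ n then lam r else 0) ^ 2 =
      ∑ r ∈ Icc 1 N, ∑ s ∈ Icc 1 N, lam r * lam s * (if Nat.lcm r s ∣ n then 1 else 0) := by
    intro n
    rw [sq, sum_mul_sum]
    refine sum_congr rfl fun r _ => sum_congr rfl fun s _ => ?_
    by_cases hr : r ∣ n
    · by_cases hs : s ∣ n
      · rw [if_pos hr, if_pos hs, if_pos (Nat.lcm_dvd hr hs), mul_one]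
      · rw [if_pos hr, if_neg hs, if_neg fun h => hs ((Nat.dvd_lcm_right r s).trans h)]
        simp
    · rw [if_neg hr, if_neg fun h => hr ((Nat.dvd_lcm_left r s).trans h)]
      simp
  rw [sum_congr rfl fun n _ => h n, sum_comm]
  refine sum_congr rfl fun r _ => ?_
  rw [sum_comm]
  refine sum_congr rfl fun s _ => ?_
  rw [← mul_sum]
  congr 1
  rw [card_eq_sum_ones, sum_filter]
  push_cast
  rfl

theorem bt_sum (x y N : ℕ) (lam : ℕ → ℝ) (hl : ∀ r, |lam r| ≤ 1) :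
    ∑ r ∈ Icc 1 N, ∑ s ∈ Icc 1 N, lam r * lam s *
        ((((Icc (x + 1) (x + y)).filter (fun n => Nat.lcm r s ∣ n)).card : ℕ) : ℝ) ≤
      y * (∑ r ∈ Icc 1 N, ∑ s ∈ Icc 1 N, lam r * lam s / (Nat.lcm r s : ℝ)) + (N : ℝ) ^ 2 := by
  have h : ∀ r ∈ Icc 1 N, ∀ s ∈ Icc 1 N, lam r * lam s *
      ((((Icc (x + 1) (x + y)).filter (fun n => Nat.lcm r s ∣ n)).card : ℕ) : ℝ) ≤
      y * (lam r * lam s / (Nat.lcm r s : ℝ)) + 1 := by
    intro r hr s hs
    rw [mem_Icc] at hr hs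
    have hc := bt_count x y (Nat.lcm r s) (Nat.lcm_pos (by omega) (by omega))
    set c := ((((Icc (x + 1) (x + y)).filter (fun n => Nat.lcm r s ∣ n)).card : ℕ) : ℝ) with hcd
    have e1 : lam r * lam s * c - y * (lam r * lam s / (Nat.lcm r s : ℝ)) =
        lam r * lam s * (c - (y : ℝ) / (Nat.lcm r s : ℝ)) := by ring
    have e2 : |lam r * lam s * (c - (y : ℝ) / (Nat.lcm r s : ℝ))| ≤ 1 := by
      rw [abs_mul, abs_mul]
      have a1 := hl r
      have a2 := hl s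
      have a3 : |lam r| * |lam s| ≤ 1 := by
        calc |lam r| * |lam s| ≤ 1 * 1 := mul_le_mul a1 a2 (abs_nonneg _) zero_le_one
          _ = 1 := one_mul 1
      calc |lam r| * |lam s| * |c - (y : ℝ) / (Nat.lcm r s : ℝ)| ≤ 1 * 1 :=
            mul_le_mul a3 hc (abs_nonneg _) zero_le_one
        _ = 1 := one_mul 1
    have e3 := (abs_le.1 e2).2
    linarith
  calc _ ≤ ∑ r ∈ Icc 1 N, ∑ s ∈ Icc 1 N, (y * (lam r * lam s / (Nat.lcm r s : ℝ)) + 1) :=
        sum_le_sum fun r hr => sum_le_sum fun s hs => h r hr s hs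
    _ = _ := by
        simp only [sum_add_distrib, sum_const, Nat.card_Icc, Nat.add_sub_cancel, nsmul_eq_mul,
          mul_one, mul_sum]
        ring

theorem brun_titchmarsh : ∃ C : ℝ, 0 < C ∧ ∀ x y : ℕ, 2 ≤ y →
    (((Icc (x + 1) (x + y)).filter Nat.Prime).card : ℝ) ≤ C * y / Real.log y := by
  refine ⟨8, by norm_num, fun x y hy => ?_⟩
  have hy2 : (2 : ℝ) ≤ y := by exact_mod_cast hy
  have hlog : 0 < Real.log y := Real.log_pos (by linarith)
  have hs1 : 1 < Real.sqrt y := by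
    rw [Real.lt_sqrt zero_le_one]
    norm_num
    linarith
  set z := Real.sqrt (Real.sqrt y) with hz
  have hz1 : 1 < z := by
    rw [hz, Real.lt_sqrt zero_le_one]
    simpa using hs1
  have hz2 : z ^ 2 = Real.sqrt y := Real.sq_sqrt (Real.sqrt_nonneg _)
  have hzlog : Real.log z = Real.log y / 4 := by
    rw [hz, Real.log_sqrt (Real.sqrt_nonneg _), Real.log_sqrt (by linarith)]
    ring
  obtain ⟨lam, l1, l2, -, -, l5⟩ := Pool.Agent.H91.PT.selberg_weights 1 le_rfl hz1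
  set N := ⌊z⌋₊ with hNd
  have hN : 1 ≤ N := Nat.le_floor (by push_cast; exact hz1.le)
  have hNz : (N : ℝ) ≤ z := Nat.floor_le (by linarith)
  have k1 := bt_upper x y N hN lam l1
  rw [bt_expand] at k1
  have k2 := bt_sum x y N lam l2
  have k3 : (y : ℝ) * (∑ r ∈ Icc 1 N, ∑ s ∈ Icc 1 N, lam r * lam s / (Nat.lcm r s : ℝ)) ≤
      y * (4 / Real.log y) := by
    refine mul_le_mul_of_nonneg_left (l5.trans (le_of_eq ?_)) (by linarith)
    rw [hzlog]
    simp
  have hN2 : (N : ℝ) ^ 2 ≤ Real.sqrt y := by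
    rw [← hz2]
    have : (0 : ℝ) ≤ N := Nat.cast_nonneg N
    gcongr
  have hN1 : (N : ℝ) ≤ Real.sqrt y := by
    have : (1 : ℝ) ≤ N := by exact_mod_cast hN
    nlinarith
  -- the square root against y / log y
  have hsq : Real.sqrt y ≤ 2 * y / Real.log y := by
    rw [le_div_iff₀ hlog]
    have e1 : Real.log y = 2 * Real.log (Real.sqrt y) := by
      rw [Real.log_sqrt (by linarith)]
      ring
    have e2 := Real.log_le_sub_one_of_pos (by linarith : 0 < Real.sqrt y)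
    have e3 : Real.sqrt y * Real.sqrt y = y := Real.mul_self_sqrt (by linarith)
    rw [e1]
    nlinarith
  have e4 : (8 : ℝ) * y / Real.log y = y * (4 / Real.log y) + 2 * (2 * y / Real.log y) := by
    field_simp
    ring
  rw [e4]
  linarith

end Pool.Agent.H3.LC

end

section

/-!
# Project EP, module `CD` : the weights `sg`, cell sums

Let `w = d/2`, `κ = 2/d = 1/w < 1/2`, `j ≥ 1`, `a = Q (jh)^w`, `b = Q ((j+1)h)^w`, `cl = b - a`; the
cell is `a ≤ n < b` (`nd d Q n = (n/Q)^κ`, monotone).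
(1) `b - a ≥ Q h^w w j^{w-1}` (mean value), `j+1 ≤ 2j`, so `b ≤ Q h^w 2^w j^w`,
    `j^{w-1} = (j^w)^{1-κ} ≥ (b/(Q h^w 2^w))^{1-κ}` and
    `b - a ≥ w (Q h^w)^κ 2^{-(w-1)} b^{1-κ} ≥ b^{1-κ}` for `Q ≥ Q0(d,h)`.  Also `b - a ≥ 1`.
(2) `#F ≤ (b - a) + 1 ≤ 2 (b - a)`.
(3) `∑_{n∈F} ∑_{p | n, p > n^{2κ}} log p · g(n/p)`, `g(m) = ∏_{q|m}(log q)^{-1/2}`: put `m = n/p`;
    `m < n^{1-2κ} ≤ b^{1-2κ}`, `m` squarefree with all prime factors `≥ 3`, and
    `p ∈ [a/m, b/m)`.  Here `(b-a)/m ≥ b^{1-κ} b^{-(1-2κ)} = b^κ`, large.  Brun-Titchmarsh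
    (`Pool.Agent.H3.LC.brun_titchmarsh`; cover `[a/m, b/m)` by `(x, x+y]` with `x = ⌈a/m⌉-1`,
    `y = ⌈(b-a)/m⌉ + 1 ≤ 3 (b-a)/m`): the number of such primes is `≤ C ((b-a)/m)/log((b-a)/m) ≤
    C ((b-a)/m)/(κ log b)`, and `log p ≤ log b`.  So the inner sum over `p` is `≤ (C/κ)(b-a)/m`, and
    `∑_m g(m)/m ≤ C'` (`gsum`).
-/

set_option autoImplicit false

namespace Pool.Agent.H97.EP

/-- The weight `1 + ∑_{p | n, p > n^{2κ}} log p ∏_{q | n/p} (log q)^{-1/2}` on squarefree `n` with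
all prime factors at least `3`, and `0` on the other `n`. -/
noncomputable def sg (κ : ℝ) (n : ℕ) : ℝ := by
  classical exact
  if Squarefree n ∧ ∀ q ∈ n.primeFactors, 3 ≤ q then
    1 + ∑ p ∈ n.primeFactors, (if (n : ℝ) ^ (2 * κ) < p then
      Real.log p * ∏ q ∈ (n / p).primeFactors, (Real.log q) ^ (-(1 / 2 : ℝ)) else 0) else 0

theorem sg_nonneg (κ : ℝ) (n : ℕ) : 0 ≤ sg κ n := by
  classical
  unfold sg
  split_ifs with h
  · refine add_nonneg zero_le_one (Finset.sum_nonneg fun p _ => ?_)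
    split_ifs
    · refine mul_nonneg (Real.log_natCast_nonneg p) (Finset.prod_nonneg fun q _ => ?_)
      exact Real.rpow_nonneg (Real.log_natCast_nonneg q) _
    · exact le_rfl
  · exact le_rfl

/-- the multiplicative weight -/
private noncomputable def cd_g (m : ℕ) : ℝ := ∏ q ∈ m.primeFactors, (Real.log q) ^ (-(1 / 2 : ℝ))

private theorem cd_g_nonneg (m : ℕ) : 0 ≤ cd_g m :=
  Finset.prod_nonneg fun q _ => Real.rpow_nonneg (Real.log_natCast_nonneg q) _

/-- (1): the length of a cell -/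
private theorem cd_len {d h : ℝ} (hd : 4 < d) (hh : 0 < h) {Q : ℝ} (hQ : 0 < Q)
    (hQh : (2 : ℝ) ^ (d / 2 - 1) ≤ Q ^ (2 / d) * h) {j : ℕ} (hj : 1 ≤ j) :
    let a := Q * ((j : ℝ) * h) ^ (d / 2)
    let b := Q * (((j : ℝ) + 1) * h) ^ (d / 2)
    0 < a ∧ 1 ≤ b ∧ 2 ≤ b ^ (2 / d) ∧ b ^ (1 - 2 / d) ≤ b - a := by
  intro a b
  have hj0 : (0 : ℝ) < j := by exact_mod_cast hj
  have hj1 : (1 : ℝ) ≤ j := by exact_mod_cast hj
  have hd0 : 0 < d := by linarith
  have hw : 2 < d / 2 := by linarith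
  have ha : 0 < a := by positivity
  have hb : 0 < b := by positivity
  have hB2 : (2 : ℝ) ≤ 2 ^ (d / 2 - 1) := by
    calc (2 : ℝ) = 2 ^ (1 : ℝ) := (Real.rpow_one 2).symm
      _ ≤ 2 ^ (d / 2 - 1) := Real.rpow_le_rpow_of_exponent_le (by norm_num) (by linarith)
  have hbk : b ^ (2 / d) = Q ^ (2 / d) * h * (j + 1) := by
    have e1 : d / 2 * (2 / d) = 1 := by field_simp
    have e2 : b ^ (2 / d) = Q ^ (2 / d) * ((((j : ℝ) + 1) * h) ^ (d / 2)) ^ (2 / d) :=
      Real.mul_rpow hQ.le (by positivity)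
    rw [e2, ← Real.rpow_mul (by positivity), e1, Real.rpow_one]
    ring
  have hbk2 : 2 ≤ b ^ (2 / d) := by
    rw [hbk]
    have : (2 : ℝ) ≤ Q ^ (2 / d) * h := hB2.trans hQh
    nlinarith
  have hb1 : 1 ≤ b := by
    by_contra hlt
    push Not at hlt
    have : b ^ (2 / d) < 1 := Real.rpow_lt_one hb.le hlt (by positivity)
    linarith
  refine ⟨ha, hb1, hbk2, ?_⟩
  -- the mean value inequality
  have h1 : (j : ℝ) ^ (d / 2) + d / 2 * (j : ℝ) ^ (d / 2 - 1) ≤ ((j : ℝ) + 1) ^ (d / 2) := by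
    have h2 := one_add_mul_self_le_rpow_one_add (s := 1 / (j : ℝ))
      (by have : (0 : ℝ) < 1 / j := by positivity
          linarith) (p := d / 2) (by linarith)
    have h3 : ((j : ℝ) + 1) = j * (1 + 1 / j) := by field_simp
    rw [h3, Real.mul_rpow hj0.le (by positivity)]
    have h4 := mul_le_mul_of_nonneg_left h2 (show 0 ≤ (j : ℝ) ^ (d / 2) by positivity)
    refine le_trans (le_of_eq ?_) h4
    rw [Real.rpow_sub_one hj0.ne']
    field_simp
  have h2 : ((j : ℝ) + 1) ^ (d / 2 - 1) ≤ 2 ^ (d / 2 - 1) * (j : ℝ) ^ (d / 2 - 1) := by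
    rw [← Real.mul_rpow (by norm_num) hj0.le]
    exact Real.rpow_le_rpow (by positivity) (by linarith) (by linarith)
  have hba : b - a = Q * h ^ (d / 2) * (((j : ℝ) + 1) ^ (d / 2) - (j : ℝ) ^ (d / 2)) := by
    show Q * (((j : ℝ) + 1) * h) ^ (d / 2) - Q * ((j : ℝ) * h) ^ (d / 2) = _
    rw [Real.mul_rpow (by positivity) hh.le, Real.mul_rpow hj0.le hh.le]
    ring
  have hbe : b = Q * h ^ (d / 2) * (((j : ℝ) + 1) ^ (d / 2 - 1) * (j + 1)) := by
    show Q * (((j : ℝ) + 1) * h) ^ (d / 2) = _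
    rw [Real.mul_rpow (by positivity) hh.le, Real.rpow_sub_one (by positivity)]
    field_simp
  have hc : 0 < Q * h ^ (d / 2) := by positivity
  have key : b ≤ (b - a) * b ^ (2 / d) := by
    have k1 : Q * h ^ (d / 2) * (d / 2 * (j : ℝ) ^ (d / 2 - 1)) ≤ b - a := by
      rw [hba]
      exact mul_le_mul_of_nonneg_left (by linarith) hc.le
    have k2 : (2 : ℝ) ^ (d / 2 - 1) * (j + 1) ≤ b ^ (2 / d) := by
      rw [hbk]
      exact mul_le_mul_of_nonneg_right hQh (by positivity)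
    have k3 : Q * h ^ (d / 2) * (d / 2 * (j : ℝ) ^ (d / 2 - 1)) * ((2 : ℝ) ^ (d / 2 - 1) * (j + 1)) ≤
        (b - a) * b ^ (2 / d) := by
      refine mul_le_mul k1 k2 (by positivity) ?_
      exact le_trans (by positivity) k1
    refine le_trans ?_ k3
    have k4 : b ≤ Q * h ^ (d / 2) * ((2 ^ (d / 2 - 1) * (j : ℝ) ^ (d / 2 - 1)) * (j + 1)) := by
      rw [hbe]
      exact mul_le_mul_of_nonneg_left (mul_le_mul_of_nonneg_right h2 (by positivity)) hc.le
    refine k4.trans ?_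
    have k5 : 0 ≤ Q * h ^ (d / 2) * ((2 ^ (d / 2 - 1) * (j : ℝ) ^ (d / 2 - 1)) * (j + 1)) := by
      positivity
    calc Q * h ^ (d / 2) * ((2 ^ (d / 2 - 1) * (j : ℝ) ^ (d / 2 - 1)) * (j + 1)) =
        1 * (Q * h ^ (d / 2) * ((2 ^ (d / 2 - 1) * (j : ℝ) ^ (d / 2 - 1)) * (j + 1))) := by ring
      _ ≤ (d / 2) * (Q * h ^ (d / 2) * ((2 ^ (d / 2 - 1) * (j : ℝ) ^ (d / 2 - 1)) * (j + 1))) :=
          mul_le_mul_of_nonneg_right (by linarith) k5
      _ = _ := by ring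
  rw [Real.rpow_sub hb, Real.rpow_one, div_le_iff₀ (by positivity)]
  exact key

/-- the primes for one `m` -/
private theorem cd_primes {C : ℝ} (hC : 0 < C) (hBT : ∀ x y : ℕ, 2 ≤ y →
    (((Finset.Icc (x + 1) (x + y)).filter Nat.Prime).card : ℝ) ≤ C * y / Real.log y)
    {κ a b : ℝ} (hκ : 0 < κ) (ha : 0 < a) (hb : 1 ≤ b) (hb2 : 2 ≤ b ^ κ)
    (hba : b ^ (1 - κ) ≤ b - a) {m : ℕ} (hm : 1 ≤ m) (hmb : (m : ℝ) ≤ b ^ (1 - 2 * κ))
    (P : Finset ℕ) (hP : ∀ p ∈ P, p.Prime ∧ a ≤ (m : ℝ) * p ∧ (m : ℝ) * p < b) :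
    ∑ p ∈ P, Real.log p ≤ 3 * C / κ * ((b - a) / m) := by
  have hm0 : (0 : ℝ) < m := by exact_mod_cast hm
  have hm1 : (1 : ℝ) ≤ m := by exact_mod_cast hm
  have hb0 : 0 < b := by linarith
  have hb1 : 1 < b := by
    rcases lt_or_eq_of_le hb with h | h
    · exact h
    · rw [← h, Real.one_rpow] at hb2
      linarith
  have hlb : 0 < Real.log b := Real.log_pos hb1
  set z : ℝ := (b - a) / m with hz
  have hzb : b ^ κ ≤ z := by
    rw [hz, le_div_iff₀ hm0]
    calc b ^ κ * m ≤ b ^ κ * b ^ (1 - 2 * κ) := mul_le_mul_of_nonneg_left hmb (by positivity)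
      _ = b ^ (1 - κ) := by
          rw [← Real.rpow_add hb0]
          congr 1
          ring
      _ ≤ b - a := hba
  have hz2 : 2 ≤ z := hb2.trans hzb
  obtain ⟨y, hy⟩ : ∃ y : ℕ, y = ⌈z⌉₊ + 1 := ⟨_, rfl⟩
  obtain ⟨x, hx⟩ : ∃ x : ℕ, x + 1 = ⌈a / m⌉₊ := by
    have : 0 < ⌈a / (m : ℝ)⌉₊ := Nat.ceil_pos.2 (by positivity)
    exact ⟨⌈a / (m : ℝ)⌉₊ - 1, by omega⟩
  have hy1 : z ≤ (y : ℝ) := by
    rw [hy]
    push_cast
    linarith [Nat.le_ceil z]
  have hy2 : (y : ℝ) ≤ 3 * z := by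
    rw [hy]
    push_cast
    have := Nat.ceil_lt_add_one (show 0 ≤ z by linarith)
    linarith
  have hyn : 2 ≤ y := by
    have : (2 : ℝ) ≤ y := hz2.trans hy1
    exact_mod_cast this
  have hsub : P ⊆ (Finset.Icc (x + 1) (x + y)).filter Nat.Prime := by
    intro p hp
    obtain ⟨h1, h2, h3⟩ := hP p hp
    rw [Finset.mem_filter, Finset.mem_Icc]
    refine ⟨⟨?_, ?_⟩, h1⟩
    · rw [hx]
      refine Nat.ceil_le.2 ?_
      rw [div_le_iff₀ hm0, mul_comm]
      exact h2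
    · have h4 : (p : ℝ) ≤ (x + y : ℕ) := by
        have h5 : (p : ℝ) < b / m := by
          rw [lt_div_iff₀ hm0, mul_comm]
          exact h3
        have h6 : a / m ≤ (x : ℝ) + 1 := by
          have := Nat.le_ceil (a / (m : ℝ))
          rw [← hx] at this
          push_cast at this
          exact this
        have h7 : z + 1 ≤ (y : ℝ) := by
          rw [hy]
          push_cast
          linarith [Nat.le_ceil z]
        have h8 : b / m = a / m + z := by
          rw [hz]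
          field_simp
          ring
        push_cast
        linarith
      exact_mod_cast h4
  have hcard : (P.card : ℝ) ≤ 3 * C * z / (κ * Real.log b) := by
    calc (P.card : ℝ) ≤ (((Finset.Icc (x + 1) (x + y)).filter Nat.Prime).card : ℝ) := by
          exact_mod_cast Finset.card_le_card hsub
      _ ≤ C * y / Real.log y := hBT x y hyn
      _ ≤ 3 * C * z / (κ * Real.log b) := by
          refine div_le_div₀ (by positivity) ?_ (by positivity) ?_
          · have := mul_le_mul_of_nonneg_left hy2 hC.le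
            linarith
          · rw [← Real.log_rpow hb0]
            exact Real.log_le_log (by positivity) (hzb.trans hy1)
  calc ∑ p ∈ P, Real.log p ≤ ∑ p ∈ P, Real.log b := by
        refine Finset.sum_le_sum fun p hp => ?_
        obtain ⟨h1, h2, h3⟩ := hP p hp
        have hp0 : (0 : ℝ) < p := by exact_mod_cast h1.pos
        refine Real.log_le_log hp0 ?_
        nlinarith
    _ = P.card * Real.log b := by rw [Finset.sum_const, nsmul_eq_mul]
    _ ≤ 3 * C * z / (κ * Real.log b) * Real.log b := mul_le_mul_of_nonneg_right hcard hlb.le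
    _ = 3 * C / κ * z := by field_simp

theorem sg_cell {d h : ℝ} (hd : 4 < d) (hh : 0 < h) (hh1 : h ≤ 1) : ∃ A Q0 : ℝ, 0 < A ∧ 1 ≤ Q0 ∧
    ∀ Q : ℝ, Q0 ≤ Q → ∀ j : ℕ, 1 ≤ j → ∀ F : Finset ℕ,
      (∀ n ∈ F, (j : ℝ) * h ≤ nd d Q n ∧ nd d Q n < ((j : ℝ) + 1) * h) →
      ∑ n ∈ F, sg (2 / d) n ≤ A * cl d Q h j := by
  classical
  obtain ⟨C, hC, hBT⟩ := Pool.Agent.H3.LC.brun_titchmarsh
  obtain ⟨C', hC', hgs⟩ := gsum
  have hd0 : 0 < d := by linarith
  have hκ : 0 < 2 / d := by positivity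
  have hκ2 : 2 / d < 1 / 2 := by
    rw [div_lt_div_iff₀ hd0 (by norm_num)]
    linarith
  refine ⟨2 + 3 * C / (2 / d) * C', max 1 (((2 : ℝ) ^ (d / 2 - 1) / h) ^ (d / 2)), by positivity,
    le_max_left _ _, fun Q hQ j hj F hF => ?_⟩
  have hQ1 : 1 ≤ Q := (le_max_left _ _).trans hQ
  have hQ0 : 0 < Q := by linarith
  have hQh : (2 : ℝ) ^ (d / 2 - 1) ≤ Q ^ (2 / d) * h := by
    have h1 : (((2 : ℝ) ^ (d / 2 - 1) / h) ^ (d / 2)) ^ (2 / d) ≤ Q ^ (2 / d) :=
      Real.rpow_le_rpow (by positivity) ((le_max_right _ _).trans hQ) hκ.le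
    have e1 : d / 2 * (2 / d) = 1 := by field_simp
    rw [← Real.rpow_mul (by positivity), e1, Real.rpow_one] at h1
    rwa [div_le_iff₀ hh] at h1
  obtain ⟨ha, hb1, hb2, hba⟩ := cd_len hd hh hQ0 hQh hj
  have hcl : cl d Q h j = Q * (((j : ℝ) + 1) * h) ^ (d / 2) - Q * ((j : ℝ) * h) ^ (d / 2) := by
    unfold cl
    ring
  rw [hcl]
  set a : ℝ := Q * ((j : ℝ) * h) ^ (d / 2) with hadef
  set b : ℝ := Q * (((j : ℝ) + 1) * h) ^ (d / 2) with hbdef
  have hb0 : 0 < b := by linarith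
  have hj0 : (0 : ℝ) < j := by exact_mod_cast hj
  -- the cell in terms of `n`
  have hab : ∀ n ∈ F, a ≤ (n : ℝ) ∧ (n : ℝ) < b := by
    intro n hn
    obtain ⟨h1, h2⟩ := hF n hn
    have hn0 : (0 : ℝ) ≤ (n : ℝ) / Q := by positivity
    have e1 : 2 / d * (d / 2) = 1 := by field_simp
    have e2 : (nd d Q n) ^ (d / 2) = (n : ℝ) / Q := by
      unfold nd
      rw [← Real.rpow_mul hn0, e1, Real.rpow_one]
    have hnd0 : 0 ≤ nd d Q n := by unfold nd; positivity
    constructor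
    · have h3 : ((j : ℝ) * h) ^ (d / 2) ≤ (nd d Q n) ^ (d / 2) :=
        Real.rpow_le_rpow (by positivity) h1 (by positivity)
      rw [e2, le_div_iff₀ hQ0, mul_comm] at h3
      exact h3
    · have h3 : (nd d Q n) ^ (d / 2) < (((j : ℝ) + 1) * h) ^ (d / 2) :=
        Real.rpow_lt_rpow hnd0 h2 (by positivity)
      rw [e2, div_lt_iff₀ hQ0, mul_comm] at h3
      exact h3
  have hba1 : 1 ≤ b - a := by
    have : (1 : ℝ) ≤ b ^ (1 - 2 / d) := Real.one_le_rpow hb1 (by linarith)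
    linarith
  -- the number of elements
  have hcard : (F.card : ℝ) ≤ 2 * (b - a) := by
    have h1 : F ⊆ Finset.Ico ⌈a⌉₊ ⌈b⌉₊ := by
      intro n hn
      obtain ⟨h2, h3⟩ := hab n hn
      rw [Finset.mem_Ico]
      exact ⟨Nat.ceil_le.2 h2, Nat.lt_ceil.2 h3⟩
    have h2 := Finset.card_le_card h1
    rw [Nat.card_Ico] at h2
    have h3 : (F.card : ℝ) ≤ (⌈b⌉₊ : ℝ) - ⌈a⌉₊ := by
      have h4 : ⌈a⌉₊ ≤ ⌈b⌉₊ := Nat.ceil_le_ceil (by linarith)
      have h5 : (F.card : ℝ) ≤ ((⌈b⌉₊ - ⌈a⌉₊ : ℕ) : ℝ) := by exact_mod_cast h2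
      rwa [Nat.cast_sub h4] at h5
    have h4 := Nat.ceil_lt_add_one hb0.le
    have h5 := Nat.le_ceil a
    linarith
  -- the second part
  set S : ℕ → Finset ℕ := fun n => if Squarefree n ∧ ∀ q ∈ n.primeFactors, 3 ≤ q then
    n.primeFactors.filter (fun p : ℕ => (n : ℝ) ^ (2 * (2 / d)) < (p : ℝ)) else ∅ with hS
  have hsg : ∀ n, sg (2 / d) n ≤ 1 + ∑ p ∈ S n, Real.log p * cd_g (n / p) := by
    intro n
    by_cases h1 : Squarefree n ∧ ∀ q ∈ n.primeFactors, 3 ≤ q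
    · have h2 : S n = n.primeFactors.filter (fun p : ℕ => (n : ℝ) ^ (2 * (2 / d)) < (p : ℝ)) :=
        if_pos h1
      rw [h2, Finset.sum_filter]
      unfold sg
      rw [if_pos h1]
      exact le_rfl
    · have h2 : S n = ∅ := if_neg h1
      rw [h2, Finset.sum_empty]
      unfold sg
      rw [if_neg h1]
      norm_num
  have hsum : ∑ n ∈ F, ∑ p ∈ S n, Real.log p * cd_g (n / p) ≤
      3 * C / (2 / d) * C' * (b - a) := by
    obtain ⟨N, hN⟩ : ∃ N : ℕ, N = ⌊b ^ (1 - 2 * (2 / d))⌋₊ := ⟨_, rfl⟩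
    set MM : Finset ℕ := (Finset.Icc 1 N).filter
      (fun m => Squarefree m ∧ ∀ q ∈ m.primeFactors, 3 ≤ q) with hMM
    set PP : ℕ → Finset ℕ := fun m => (Finset.range ⌈b⌉₊).filter
      (fun p : ℕ => p.Prime ∧ a ≤ (m : ℝ) * p ∧ (m : ℝ) * p < b) with hPP
    have hfac : ∀ n ∈ F, ∀ p ∈ S n, n / p * p = n ∧ n / p ∈ MM ∧ p ∈ PP (n / p) := by
      intro n hn p hp
      rw [hS] at hp
      simp only at hp
      split_ifs at hp with h1
      · rw [Finset.mem_filter] at hp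
        obtain ⟨hp1, hp2⟩ := hp
        have hpp := Nat.prime_of_mem_primeFactors hp1
        have hpn := Nat.dvd_of_mem_primeFactors hp1
        have hn0 : n ≠ 0 := (Nat.mem_primeFactors.1 hp1).2.2
        have hnp : n / p * p = n := Nat.div_mul_cancel hpn
        have hdvd : n / p ∣ n := Nat.div_dvd_of_dvd hpn
        have hm0 : n / p ≠ 0 := by
          intro h0
          rw [h0, zero_mul] at hnp
          exact hn0 hnp.symm
        have hnpr : ((n / p : ℕ) : ℝ) * p = n := by exact_mod_cast hnp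
        obtain ⟨hn1, hn2⟩ := hab n hn
        have hnpos : (0 : ℝ) < n := by exact_mod_cast Nat.pos_of_ne_zero hn0
        have hn1' : (1 : ℝ) ≤ n := by exact_mod_cast Nat.one_le_iff_ne_zero.2 hn0
        refine ⟨hnp, ?_, ?_⟩
        · rw [hMM, Finset.mem_filter, Finset.mem_Icc]
          refine ⟨⟨Nat.one_le_iff_ne_zero.2 hm0, ?_⟩, h1.1.squarefree_of_dvd hdvd,
            fun q hq => h1.2 q (Nat.primeFactors_mono hdvd hn0 hq)⟩
          rw [hN]
          refine Nat.le_floor ?_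
          have h3 : ((n / p : ℕ) : ℝ) ≤ (n : ℝ) ^ (1 - 2 * (2 / d)) := by
            rw [Real.rpow_sub hnpos, Real.rpow_one, le_div_iff₀ (by positivity)]
            calc ((n / p : ℕ) : ℝ) * (n : ℝ) ^ (2 * (2 / d)) ≤ ((n / p : ℕ) : ℝ) * p :=
                  mul_le_mul_of_nonneg_left hp2.le (Nat.cast_nonneg _)
              _ = n := hnpr
          exact h3.trans (Real.rpow_le_rpow hnpos.le hn2.le (by linarith))
        · rw [hPP]
          simp only [Finset.mem_filter, Finset.mem_range]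
          refine ⟨?_, hpp, by rw [hnpr]; exact hn1, by rw [hnpr]; exact hn2⟩
          refine Nat.lt_ceil.2 (lt_of_le_of_lt ?_ hn2)
          exact_mod_cast Nat.le_of_dvd (Nat.pos_of_ne_zero hn0) hpn
      · exact absurd hp (Finset.notMem_empty p)
    have h1 : ∑ n ∈ F, ∑ p ∈ S n, Real.log p * cd_g (n / p) =
        ∑ x ∈ F.sigma S, Real.log x.2 * cd_g (x.1 / x.2) := Finset.sum_sigma' _ _ _
    have h2 : ∑ x ∈ F.sigma S, Real.log x.2 * cd_g (x.1 / x.2) =
        ∑ y ∈ (F.sigma S).image (fun x => ((x.1 / x.2, x.2) : ℕ × ℕ)),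
          Real.log y.2 * cd_g y.1 := by
      rw [Finset.sum_image]
      intro x hx x' hx' hxx
      rw [Finset.mem_coe, Finset.mem_sigma] at hx hx'
      have e1 := (hfac x.1 hx.1 x.2 hx.2).1
      have e2 := (hfac x'.1 hx'.1 x'.2 hx'.2).1
      simp only [Prod.mk.injEq] at hxx
      have e3 : x.1 = x'.1 := by rw [← e1, ← e2, hxx.1, hxx.2]
      exact Sigma.ext e3 (heq_of_eq hxx.2)
    have h3 : (F.sigma S).image (fun x => ((x.1 / x.2, x.2) : ℕ × ℕ)) ⊆
        (MM ×ˢ Finset.range ⌈b⌉₊).filter (fun y => y.2 ∈ PP y.1) := by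
      intro y hy
      rw [Finset.mem_image] at hy
      obtain ⟨x, hx, rfl⟩ := hy
      rw [Finset.mem_sigma] at hx
      obtain ⟨-, e2, e3⟩ := hfac x.1 hx.1 x.2 hx.2
      rw [Finset.mem_filter, Finset.mem_product]
      exact ⟨⟨e2, (Finset.mem_filter.1 e3).1⟩, e3⟩
    rw [h1, h2]
    calc ∑ y ∈ (F.sigma S).image (fun x => ((x.1 / x.2, x.2) : ℕ × ℕ)),
          Real.log y.2 * cd_g y.1 ≤
        ∑ y ∈ (MM ×ˢ Finset.range ⌈b⌉₊).filter (fun y => y.2 ∈ PP y.1),
          Real.log y.2 * cd_g y.1 :=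
          Finset.sum_le_sum_of_subset_of_nonneg h3 fun y _ _ =>
            mul_nonneg (Real.log_natCast_nonneg _) (cd_g_nonneg _)
      _ = ∑ m ∈ MM, ∑ p ∈ PP m, Real.log p * cd_g m := by
          rw [Finset.sum_filter, Finset.sum_product]
          refine Finset.sum_congr rfl fun m _ => ?_
          rw [← Finset.sum_filter]
          refine Finset.sum_congr ?_ fun p _ => rfl
          ext p
          rw [Finset.mem_filter]
          exact ⟨fun h => h.2, fun h => ⟨(Finset.mem_filter.1 h).1, h⟩⟩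
      _ ≤ ∑ m ∈ MM, 3 * C / (2 / d) * (b - a) * (cd_g m / m) := by
          refine Finset.sum_le_sum fun m hm => ?_
          rw [hMM, Finset.mem_filter, Finset.mem_Icc] at hm
          have hmN : (m : ℝ) ≤ b ^ (1 - 2 * (2 / d)) := by
            have := hm.1.2
            rw [hN] at this
            exact (Nat.le_floor_iff (by positivity)).1 this
          have h4 := cd_primes hC hBT hκ ha hb1 hb2 hba hm.1.1 hmN (PP m) (fun p hp =>
            (Finset.mem_filter.1 hp).2)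
          rw [← Finset.sum_mul]
          have h5 := mul_le_mul_of_nonneg_right h4 (cd_g_nonneg m)
          refine h5.trans (le_of_eq ?_)
          ring
      _ = 3 * C / (2 / d) * (b - a) * ∑ m ∈ MM, cd_g m / m := by rw [Finset.mul_sum]
      _ ≤ 3 * C / (2 / d) * (b - a) * C' := by
          refine mul_le_mul_of_nonneg_left (hgs N) ?_
          have : 0 ≤ b - a := by linarith
          positivity
      _ = 3 * C / (2 / d) * C' * (b - a) := by ring
  calc ∑ n ∈ F, sg (2 / d) n ≤ ∑ n ∈ F, (1 + ∑ p ∈ S n, Real.log p * cd_g (n / p)) :=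
        Finset.sum_le_sum fun n _ => hsg n
    _ = F.card + ∑ n ∈ F, ∑ p ∈ S n, Real.log p * cd_g (n / p) := by
        rw [Finset.sum_add_distrib, Finset.sum_const, nsmul_eq_mul, mul_one]
    _ ≤ 2 * (b - a) + 3 * C / (2 / d) * C' * (b - a) := add_le_add hcard hsum
    _ = (2 + 3 * C / (2 / d) * C') * (b - a) := by ring

end Pool.Agent.H97.EP

end

section

/-!
# Project EP, module `CE` : the weights `sg`, pointwise lower bound

`n` squarefree, not `1`, not prime, all prime factors `≥ 3` (so `log q ≥ log 3 > 1` and `n ≥ 15`,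
`log n ≥ 1`).  `n^κ aa W n = ∏_{q|n} 4 log q` (`∏_{q|n} q = n`).  `ω` = number of prime factors.
(A) some prime `p | n` with `p > n^{2κ}`: `sg ≥ log p ∏_{q|n/p} (log q)^{-1/2}` (the other terms are
    nonnegative), so `sg · ∏_{q|n} 4 log q ≥ 4^ω (log p)^2 ∏_{q|n/p} (log q)^{1/2} ≥ (log p)^2 ≥
    4κ^2 (log n)^2`.
(B) all prime factors `≤ n^{2κ}`: `(log n)^2 = (∑_{q|n} log q)^2 = ∑_q log^2 q + ∑_{q≠q'} log q log q'
    ≤ 2κ (log n)^2 + ω^2 ∏_{q|n} log q`, hence `(1-2κ)(log n)^2 ≤ 4^ω ∏ log q ≤ sg ∏ 4 log q`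
    (`ω^2 ≤ 4^ω`; `log q log q' ≤ ∏_{r|n} log r` as all `log r ≥ 1`).
Finally `(1 + log n)^2 ≤ 4 (log n)^2`.
-/

set_option autoImplicit false

namespace Pool.Agent.H97.EP

private theorem ce_log3 {q : ℕ} (hq : 3 ≤ q) : 1 ≤ Real.log q := by
  have h3 : Real.exp 1 ≤ (3 : ℝ) := Real.exp_one_lt_three.le
  have h4 : (3 : ℝ) ≤ q := by exact_mod_cast hq
  exact (Real.le_log_iff_exp_le (by linarith)).2 (h3.trans h4)

private theorem ce_prod {n : ℕ} (hs : Squarefree n) : ∏ q ∈ n.primeFactors, (q : ℝ) = n := by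
  have h := Nat.prod_primeFactors_of_squarefree hs
  have h2 : ((∏ q ∈ n.primeFactors, q : ℕ) : ℝ) = (n : ℝ) := by rw [h]
  rw [← h2, Nat.cast_prod]

private theorem ce_logsum {n : ℕ} (hs : Squarefree n) :
    ∑ q ∈ n.primeFactors, Real.log q = Real.log n := by
  rw [← ce_prod hs, Real.log_prod]
  intro q hq
  have := (Nat.prime_of_mem_primeFactors hq).pos
  positivity

private theorem ce_aa {κ : ℝ} {n : ℕ} (hs : Squarefree n) :
    (n : ℝ) ^ κ * aa (fun q => 4 * ((q : ℝ) ^ (-κ) * Real.log q)) n =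
      ∏ q ∈ n.primeFactors, (4 * Real.log q) := by
  have hn : 0 < n := Nat.pos_of_ne_zero hs.ne_zero
  have h1 : ∏ q ∈ n.primeFactors, (q : ℝ) ^ (-κ) = (n : ℝ) ^ (-κ) := by
    rw [Real.finsetProd_rpow _ _ (fun q _ => Nat.cast_nonneg q), ce_prod hs]
  have h2 : (n : ℝ) ^ κ * (n : ℝ) ^ (-κ) = 1 := by
    rw [← Real.rpow_add (by exact_mod_cast hn)]; simp
  have h3 : aa (fun q => 4 * ((q : ℝ) ^ (-κ) * Real.log q)) n =
      (n : ℝ) ^ (-κ) * ∏ q ∈ n.primeFactors, (4 * Real.log q) := by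
    unfold aa
    rw [if_pos hs, ← h1, ← Finset.prod_mul_distrib]
    exact Finset.prod_congr rfl fun q _ => by ring
  rw [h3, ← mul_assoc, h2, one_mul]

theorem sg_point {κ : ℝ} (hκ : 0 < κ) (hκ2 : κ < 1 / 2) : ∃ C : ℝ, 0 < C ∧ ∀ n : ℕ,
    Squarefree n → (∀ q ∈ n.primeFactors, 3 ≤ q) → n ≠ 1 → ¬ n.Prime →
    (1 + Real.log n) ^ 2 ≤
      C * sg κ n * ((n : ℝ) ^ κ * aa (fun q => 4 * ((q : ℝ) ^ (-κ) * Real.log q)) n) := by
  have hk1 : 0 < 1 - 2 * κ := by linarith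
  refine ⟨1 / κ ^ 2 + 4 / (1 - 2 * κ), by positivity, fun n hs h3 hn1 _ => ?_⟩
  rw [ce_aa hs]
  have hn : 0 < n := Nat.pos_of_ne_zero hs.ne_zero
  have hnR : (0 : ℝ) < n := by exact_mod_cast hn
  have hL : ∀ q ∈ n.primeFactors, 1 ≤ Real.log q := fun q hq => ce_log3 (h3 q hq)
  have hsum := ce_logsum hs
  have hlogn : 1 ≤ Real.log n := by
    obtain ⟨q, hq⟩ : n.primeFactors.Nonempty := by
      rw [Nat.nonempty_primeFactors]; omega
    have h1 := hL q hq
    rw [← hsum]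
    refine h1.trans (Finset.single_le_sum (f := fun q : ℕ => Real.log q) (fun i hi => ?_) hq)
    exact zero_le_one.trans (hL i hi)
  have h4 : (1 + Real.log n) ^ 2 ≤ 4 * Real.log n ^ 2 := by nlinarith
  have hterm : ∀ p ∈ n.primeFactors, 0 ≤ (if (n : ℝ) ^ (2 * κ) < p then
      Real.log p * ∏ q ∈ (n / p).primeFactors, (Real.log q) ^ (-(1 / 2 : ℝ)) else 0) := by
    intro p hp
    split_ifs
    · refine mul_nonneg (zero_le_one.trans (hL p hp)) (Finset.prod_nonneg fun q _ => ?_)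
      exact Real.rpow_nonneg (Real.log_natCast_nonneg q) _
    · exact le_rfl
  have hsg : sg κ n = 1 + ∑ p ∈ n.primeFactors, (if (n : ℝ) ^ (2 * κ) < p then
      Real.log p * ∏ q ∈ (n / p).primeFactors, (Real.log q) ^ (-(1 / 2 : ℝ)) else 0) := by
    unfold sg
    rw [if_pos ⟨hs, h3⟩]
  have hsg1 : 1 ≤ sg κ n := by
    rw [hsg]; linarith [Finset.sum_nonneg hterm]
  have hPpos : 0 ≤ ∏ q ∈ n.primeFactors, (4 * Real.log q) :=
    Finset.prod_nonneg fun q hq => by linarith [hL q hq]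
  by_cases hA : ∃ p ∈ n.primeFactors, (n : ℝ) ^ (2 * κ) < p
  · obtain ⟨p, hp, hlt⟩ := hA
    have hpp := Nat.prime_of_mem_primeFactors hp
    obtain ⟨m, hm⟩ := Nat.dvd_of_mem_primeFactors hp
    have hcop : Nat.Coprime p m := by
      rw [hm, Nat.squarefree_mul_iff] at hs; exact hs.1
    have hdiv : n / p = m := by rw [hm]; exact Nat.mul_div_cancel_left m hpp.pos
    have hpf : n.primeFactors = {p} ∪ m.primeFactors := by
      rw [hm, hcop.primeFactors_mul, hpp.primeFactors]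
    have hdisj : Disjoint ({p} : Finset ℕ) m.primeFactors := by
      rw [← hpp.primeFactors]; exact hcop.disjoint_primeFactors
    have hLm : ∀ q ∈ m.primeFactors, 1 ≤ Real.log q := fun q hq => hL q (by
      rw [hpf]; exact Finset.mem_union_right _ hq)
    have hlow : Real.log p * ∏ q ∈ m.primeFactors, (Real.log q) ^ (-(1 / 2 : ℝ)) ≤ sg κ n := by
      have h5 := Finset.single_le_sum hterm hp
      rw [if_pos hlt, hdiv] at h5
      rw [hsg]; linarith
    have hprod : ∏ q ∈ n.primeFactors, (4 * Real.log q) =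
        (4 * Real.log p) * ∏ q ∈ m.primeFactors, (4 * Real.log q) := by
      rw [hpf, Finset.prod_union hdisj, Finset.prod_singleton]
    have hlp : 1 ≤ Real.log p := hL p hp
    have hcomb : 1 ≤ (∏ q ∈ m.primeFactors, (Real.log q) ^ (-(1 / 2 : ℝ))) *
        ∏ q ∈ m.primeFactors, (4 * Real.log q) := by
      rw [← Finset.prod_mul_distrib]
      refine Finset.one_le_prod fun q hq => ?_
      have hq1 := hLm q hq
      have h6 : (Real.log q) ^ (-(1 / 2 : ℝ)) * Real.log q = (Real.log q) ^ (1 / 2 : ℝ) := by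
        nth_rw 2 [← Real.rpow_one (Real.log q)]
        rw [← Real.rpow_add (by linarith)]; norm_num
      have h7 : 1 ≤ (Real.log q) ^ (1 / 2 : ℝ) := Real.one_le_rpow hq1 (by norm_num)
      calc (1 : ℝ) ≤ 4 * (Real.log q) ^ (1 / 2 : ℝ) := by linarith
        _ = (Real.log q) ^ (-(1 / 2 : ℝ)) * (4 * Real.log q) := by rw [← h6]; ring
    have hkey : Real.log p ^ 2 ≤ sg κ n * ∏ q ∈ n.primeFactors, (4 * Real.log q) := by
      have h8 : Real.log p * (∏ q ∈ m.primeFactors, (Real.log q) ^ (-(1 / 2 : ℝ))) *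
          ∏ q ∈ n.primeFactors, (4 * Real.log q) ≤
          sg κ n * ∏ q ∈ n.primeFactors, (4 * Real.log q) :=
        mul_le_mul_of_nonneg_right hlow hPpos
      refine le_trans ?_ h8
      rw [hprod]
      have h9 : Real.log p * (∏ q ∈ m.primeFactors, (Real.log q) ^ (-(1 / 2 : ℝ))) *
          ((4 * Real.log p) * ∏ q ∈ m.primeFactors, (4 * Real.log q)) =
          4 * Real.log p ^ 2 * ((∏ q ∈ m.primeFactors, (Real.log q) ^ (-(1 / 2 : ℝ))) *
            ∏ q ∈ m.primeFactors, (4 * Real.log q)) := by ring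
      rw [h9]
      nlinarith [sq_nonneg (Real.log p)]
    have hlpn : 2 * κ * Real.log n ≤ Real.log p := by
      rw [← Real.log_rpow hnR]
      exact Real.log_le_log (by positivity) hlt.le
    have h10 : (2 * κ * Real.log n) ^ 2 ≤ Real.log p ^ 2 :=
      pow_le_pow_left₀ (by positivity) hlpn 2
    have h11 : 4 * Real.log n ^ 2 ≤
        1 / κ ^ 2 * (sg κ n * ∏ q ∈ n.primeFactors, (4 * Real.log q)) := by
      have h12 : 4 * Real.log n ^ 2 = 1 / κ ^ 2 * (2 * κ * Real.log n) ^ 2 := by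
        field_simp; ring
      rw [h12]
      exact mul_le_mul_of_nonneg_left (h10.trans hkey) (by positivity)
    have h13 : 0 ≤ 4 / (1 - 2 * κ) * (sg κ n * ∏ q ∈ n.primeFactors, (4 * Real.log q)) := by
      have : 0 ≤ sg κ n := zero_le_one.trans hsg1
      positivity
    calc (1 + Real.log n) ^ 2 ≤ 4 * Real.log n ^ 2 := h4
      _ ≤ 1 / κ ^ 2 * (sg κ n * ∏ q ∈ n.primeFactors, (4 * Real.log q)) +
          4 / (1 - 2 * κ) * (sg κ n * ∏ q ∈ n.primeFactors, (4 * Real.log q)) := by linarith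
      _ = _ := by ring
  · push Not at hA
    have hup : ∀ q ∈ n.primeFactors, Real.log q ≤ 2 * κ * Real.log n := by
      intro q hq
      have hq0 : (0 : ℝ) < q := by exact_mod_cast (Nat.prime_of_mem_primeFactors hq).pos
      rw [← Real.log_rpow hnR]
      exact Real.log_le_log hq0 (hA q hq)
    set P := ∏ q ∈ n.primeFactors, Real.log q with hP
    set ω := n.primeFactors.card with hω
    have hpair : ∀ q ∈ n.primeFactors, ∀ r ∈ n.primeFactors.erase q,
        Real.log q * Real.log r ≤ P := by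
      intro q hq r hr
      rw [hP, ← Finset.mul_prod_erase _ _ hq]
      refine mul_le_mul_of_nonneg_left ?_ (zero_le_one.trans (hL q hq))
      rw [← Finset.mul_prod_erase _ _ hr]
      have hr1 : 1 ≤ Real.log r := hL r (Finset.mem_of_mem_erase hr)
      have h14 : 1 ≤ ∏ x ∈ (n.primeFactors.erase q).erase r, Real.log x :=
        Finset.one_le_prod fun x hx =>
          hL x (Finset.mem_of_mem_erase (Finset.mem_of_mem_erase hx))
      nlinarith
    have hP0 : 0 ≤ P := Finset.prod_nonneg fun q hq => zero_le_one.trans (hL q hq)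
    have hrow : ∀ q ∈ n.primeFactors, Real.log q * Real.log n ≤
        Real.log q * (2 * κ * Real.log n) + ω * P := by
      intro q hq
      have h15 : Real.log n = Real.log q + ∑ r ∈ n.primeFactors.erase q, Real.log r := by
        rw [← hsum]
        exact (Finset.add_sum_erase n.primeFactors (fun r : ℕ => Real.log r) hq).symm
      have h16 : Real.log q * ∑ r ∈ n.primeFactors.erase q, Real.log r ≤ ω * P := by
        rw [Finset.mul_sum]
        calc ∑ r ∈ n.primeFactors.erase q, Real.log q * Real.log r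
            ≤ ∑ r ∈ n.primeFactors.erase q, P := Finset.sum_le_sum (hpair q hq)
          _ = ((n.primeFactors.erase q).card : ℝ) * P := by
              rw [Finset.sum_const, nsmul_eq_mul]
          _ ≤ ω * P := by
              refine mul_le_mul_of_nonneg_right ?_ hP0
              exact_mod_cast Finset.card_le_card (Finset.erase_subset _ _)
      have h17 : Real.log q * Real.log q ≤ Real.log q * (2 * κ * Real.log n) :=
        mul_le_mul_of_nonneg_left (hup q hq) (zero_le_one.trans (hL q hq))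
      calc Real.log q * Real.log n
          = Real.log q * Real.log q +
            Real.log q * ∑ r ∈ n.primeFactors.erase q, Real.log r := by
              conv_lhs => rw [h15]
              ring
        _ ≤ _ := add_le_add h17 h16
    have htot : Real.log n ^ 2 ≤ 2 * κ * Real.log n ^ 2 + (ω : ℝ) ^ 2 * P := by
      have h18 := Finset.sum_le_sum hrow
      rw [← Finset.sum_mul, Finset.sum_add_distrib, ← Finset.sum_mul, hsum, Finset.sum_const,
        nsmul_eq_mul, ← hω] at h18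
      calc Real.log n ^ 2 = Real.log n * Real.log n := sq _
        _ ≤ _ := h18
        _ = _ := by ring
    have hω4 : (ω : ℝ) ^ 2 ≤ 4 ^ ω := by
      have h19 : (ω : ℝ) ≤ 2 ^ ω := by exact_mod_cast (Nat.lt_two_pow_self (n := ω)).le
      calc (ω : ℝ) ^ 2 ≤ (2 ^ ω) ^ 2 := pow_le_pow_left₀ (Nat.cast_nonneg _) h19 2
        _ = 4 ^ ω := by rw [← pow_mul, mul_comm ω 2, pow_mul]; norm_num
    have hprod4 : ∏ q ∈ n.primeFactors, (4 * Real.log q) = 4 ^ ω * P := by
      rw [Finset.prod_mul_distrib, Finset.prod_const]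
    have h20 : (1 - 2 * κ) * Real.log n ^ 2 ≤
        sg κ n * ∏ q ∈ n.primeFactors, (4 * Real.log q) := by
      have h21 : (ω : ℝ) ^ 2 * P ≤ 4 ^ ω * P := mul_le_mul_of_nonneg_right hω4 hP0
      have h22 : ∏ q ∈ n.primeFactors, (4 * Real.log q) ≤
          sg κ n * ∏ q ∈ n.primeFactors, (4 * Real.log q) :=
        le_mul_of_one_le_left hPpos hsg1
      rw [hprod4] at h22 ⊢
      linarith
    have h23 : 4 * Real.log n ^ 2 ≤
        4 / (1 - 2 * κ) * (sg κ n * ∏ q ∈ n.primeFactors, (4 * Real.log q)) := by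
      have h24 : 4 * Real.log n ^ 2 = 4 / (1 - 2 * κ) * ((1 - 2 * κ) * Real.log n ^ 2) := by
        field_simp
      rw [h24]
      exact mul_le_mul_of_nonneg_left h20 (by positivity)
    have h25 : 0 ≤ 1 / κ ^ 2 * (sg κ n * ∏ q ∈ n.primeFactors, (4 * Real.log q)) := by
      have : 0 ≤ sg κ n := zero_le_one.trans hsg1
      positivity
    calc (1 + Real.log n) ^ 2 ≤ 4 * Real.log n ^ 2 := h4
      _ ≤ 1 / κ ^ 2 * (sg κ n * ∏ q ∈ n.primeFactors, (4 * Real.log q)) +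
          4 / (1 - 2 * κ) * (sg κ n * ∏ q ∈ n.primeFactors, (4 * Real.log q)) := by linarith
      _ = _ := by ring

end Pool.Agent.H97.EP

end

section

/-!
# Project EP, module `ASol` : the linear solver (helper95)

`ω_n = n^κ/log n` for the primes `n` with `u_n ≥ 1/128`, `F_n f = √ω_n p(u_n)`.
`NQ ≤ C₂ Q^{-(1+κ)} ∑ (F_n f)²` (`sol_low`), `(F_n f)² ≤ K_n ∑ (F_m f)²` (`NQ_pt`), then `riesz`.
-/

set_option autoImplicit false
open MeasureTheory Set
open scoped ENNReal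

namespace Pool.Agent.H97.EP

private noncomputable def sol_L (w u : ℝ) : VR →ₗ[ℝ] ℝ where
  toFun := fun f => pr w f u
  map_add' := fun f g => pr_add w f g u
  map_smul' := fun c f => by rw [pr_smul, RingHom.id_apply, smul_eq_mul]

open Classical in
private noncomputable def sol_om (d Q : ℝ) (n : ℕ) : ℝ :=
  if n.Prime ∧ 1 / 128 ≤ nd d Q n then (n : ℝ) ^ (2 / d) / Real.log n else 0

private theorem sol_om_nonneg (d Q : ℝ) (n : ℕ) : 0 ≤ sol_om d Q n := by
  unfold sol_om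
  split_ifs with h
  · have h1 : (1 : ℝ) ≤ n := by exact_mod_cast h.1.one_le
    have := Real.log_nonneg h1
    positivity
  · exact le_rfl

private noncomputable def sol_F (d Q : ℝ) (n : ℕ) : VR →ₗ[ℝ] ℝ :=
  Real.sqrt (sol_om d Q n) • sol_L (d / 2) (nd d Q n)

private theorem sol_F_apply (d Q : ℝ) (n : ℕ) (f : VR) :
    sol_F d Q n f = Real.sqrt (sol_om d Q n) * pr (d / 2) f (nd d Q n) := rfl

private theorem sol_F_sq (d Q : ℝ) (n : ℕ) (f : VR) :
    (sol_F d Q n f) ^ 2 = sol_om d Q n * pr (d / 2) f (nd d Q n) ^ 2 := by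
  rw [sol_F_apply, mul_pow, Real.sq_sqrt (sol_om_nonneg d Q n)]

private theorem sol_log {n : ℕ} (hn : n.Prime) : 1 / 2 ≤ Real.log n := by
  have h2 : (2 : ℝ) ≤ n := by exact_mod_cast hn.two_le
  have h3 : Real.log 2 ≤ Real.log n := Real.log_le_log (by norm_num) h2
  have := Real.log_two_gt_d9
  linarith

private theorem sol_F_sum {d Q : ℝ} (hd : 4 < d) (hQ : 0 < Q) (f : VR) :
    Summable fun n : ℕ => (sol_F d Q n f) ^ 2 := by
  refine Summable.of_nonneg_of_le (fun n => sq_nonneg _) (fun n => ?_)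
    ((pr_sq_summable hd hQ f).mul_left 2)
  rw [sol_F_sq]
  by_cases h : n.Prime ∧ 1 / 128 ≤ nd d Q n
  · have h1 : sol_om d Q n ≤ 2 * (n : ℝ) ^ (2 / d) := by
      unfold sol_om
      rw [if_pos h, div_le_iff₀ (by linarith [sol_log h.1])]
      have h2 := sol_log h.1
      have h3 : (0 : ℝ) ≤ (n : ℝ) ^ (2 / d) := by positivity
      nlinarith
    calc sol_om d Q n * pr (d / 2) f (nd d Q n) ^ 2
        ≤ 2 * (n : ℝ) ^ (2 / d) * pr (d / 2) f (nd d Q n) ^ 2 := by gcongr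
      _ = _ := by ring
  · have h1 : sol_om d Q n = 0 := by
      unfold sol_om
      rw [if_neg h]
    rw [h1, zero_mul]
    positivity

private theorem sol_sum_disj (J : ℕ → Finset ℕ) (hJ : ∀ i i' j, j ∈ J i → j ∈ J i' → i = i')
    (g : ℕ → ℝ≥0∞) : ∑' i, ∑ j ∈ J i, g j ≤ ∑' j, g j := by
  classical
  have h1 : ∀ i, ∑ j ∈ J i, g j = ∑' j, if j ∈ J i then g j else 0 := by
    intro i
    rw [tsum_eq_sum (s := J i) (fun j hj => if_neg hj)]
    exact Finset.sum_congr rfl fun j hj => (if_pos hj).symm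
  simp only [h1]
  rw [ENNReal.tsum_comm]
  refine ENNReal.tsum_le_tsum fun j => ?_
  by_cases hj : ∃ i, j ∈ J i
  · obtain ⟨i0, hi0⟩ := hj
    rw [tsum_eq_single i0 (fun i hi => if_neg fun h => hi (hJ i i0 j h hi0)), if_pos hi0]
  · push Not at hj
    simp only [hj, if_false, tsum_zero, zero_le]

private theorem sol_low {d θ : ℝ} (hd : 4 < d) (hP : PrimesIn θ) (hθ : θ ≤ 1 - 2/d) :
    ∃ Q0 C : ℝ, 1 ≤ Q0 ∧ 0 < C ∧ ∀ Q : ℝ, Q0 ≤ Q → ∀ f : VR,
      NQ d Q (pr (d / 2) f) ≤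
        ENNReal.ofReal (C * Q ^ (-(1 + 2/d)) * ∑' n : ℕ, (sol_F d Q n f) ^ 2) := by
  obtain ⟨Q0, c, hQ0, hc, hnod⟩ := nodes (h := 1 / 128) hd hP hθ (by norm_num)
  obtain ⟨C1, hC1, hlow⟩ := NQ_low hd
  refine ⟨Q0, C1 / c, hQ0, by positivity, ?_⟩
  intro Q hQ f
  have hQ1 : 1 ≤ Q := hQ0.trans hQ
  have hQp : 0 < Q := by linarith
  have hS := fun i : ℕ => hnod Q hQ (i + 1) (Nat.succ_pos i)
  choose S hSne hSp using hS
  have hmem : ∀ i, ∀ p ∈ S i, p.Prime ∧ ((i : ℝ) + 1) * (1 / 128) ≤ nd d Q p ∧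
      nd d Q p < ((i : ℝ) + 2) * (1 / 128) := by
    intro i p hp
    obtain ⟨h1, h2, h3, -⟩ := hSp i p hp
    push_cast at h2 h3
    refine ⟨h1, h2, ?_⟩
    have : ((i : ℝ) + 1 + 1) = (i : ℝ) + 2 := by ring
    rwa [this] at h3
  have hdisj : ∀ i i' j, j ∈ S i → j ∈ S i' → i = i' := by
    intro i i' j h1 h2
    obtain ⟨-, a1, a2⟩ := hmem i j h1
    obtain ⟨-, b1, b2⟩ := hmem i' j h2
    have c1 : (i : ℝ) + 1 < (i' : ℝ) + 2 := by linarith
    have c2 : (i' : ℝ) + 1 < (i : ℝ) + 2 := by linarith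
    have e1 : i + 1 < i' + 2 := by exact_mod_cast c1
    have e2 : i' + 1 < i + 2 := by exact_mod_cast c2
    omega
  obtain ⟨g, hg⟩ : ∃ g : ℕ → ℝ, ∀ p, g p = (p : ℝ) / Q * (1 + Real.log p) ^ (-2 : ℝ) *
      pr (d / 2) f (nd d Q p) ^ 2 := ⟨_, fun _ => rfl⟩
  have hmin : ∀ i, ∃ p ∈ S i, ∀ q ∈ S i, g p ≤ g q := fun i =>
    Finset.exists_min_image (S i) g (hSne i)
  choose p hpS hpmin using hmin
  have h1 := hlow Q hQ1 f p (fun i => ⟨(hmem i (p i) (hpS i)).1.one_le,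
    (hmem i (p i) (hpS i)).2.1, (hmem i (p i) (hpS i)).2.2⟩)
  have hcell : ∀ i, g (p i) ≤ ∑ q ∈ S i, 1 / c * Q ^ (-(1 + 2/d)) * (sol_F d Q q f) ^ 2 := by
    intro i
    have hcard : (0 : ℝ) < (S i).card := by exact_mod_cast Finset.card_pos.2 (hSne i)
    have h2 : (S i).card * g (p i) ≤ ∑ q ∈ S i, g q := by
      have := Finset.card_nsmul_le_sum (S i) g (g (p i)) (fun q hq => hpmin i q hq)
      rwa [nsmul_eq_mul] at this
    have h3 : ∀ q ∈ S i, g q ≤ (S i).card * (1 / c * Q ^ (-(1 + 2/d)) * (sol_F d Q q f) ^ 2) := by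
      intro q hq
      obtain ⟨hqp, hq1, hq2⟩ := hmem i q hq
      have hq4 := (hSp i q hq).2.2.2
      have hq128 : 1 / 128 ≤ nd d Q q := by
        refine le_trans ?_ hq1
        have : (0 : ℝ) ≤ i := Nat.cast_nonneg i
        linarith
      have hlog := sol_log hqp
      have hlog0 : 0 < Real.log q := by linarith
      have hq0 : (0 : ℝ) < q := by exact_mod_cast hqp.pos
      rw [hg, sol_F_sq]
      have hom : sol_om d Q q = (q : ℝ) ^ (2 / d) / Real.log q := by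
        unfold sol_om
        rw [if_pos ⟨hqp, hq128⟩]
      rw [hom]
      have e1 : (1 + Real.log q) ^ (-2 : ℝ) ≤ (Real.log q ^ 2)⁻¹ := by
        have : (1 + Real.log q) ^ (-2 : ℝ) = ((1 + Real.log q) ^ 2)⁻¹ := by
          rw [Real.rpow_neg (by linarith)]
          norm_num
        rw [this]
        exact inv_anti₀ (by positivity) (by gcongr; linarith)
      have e2 : Q ^ (-(1 + 2 / d)) = (Q * Q ^ (2 / d))⁻¹ := by
        rw [Real.rpow_neg hQp.le, Real.rpow_add hQp, Real.rpow_one]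
      have e3 : (q : ℝ) = (q : ℝ) ^ (1 - 2 / d) * (q : ℝ) ^ (2 / d) := by
        rw [← Real.rpow_add hq0]
        norm_num
      rw [e2]
      have hqk : 0 < (q : ℝ) ^ (2 / d) := by positivity
      have hQk : 0 < Q ^ (2 / d) := by positivity
      have hq1k : 0 < (q : ℝ) ^ (1 - 2 / d) := by positivity
      calc (q : ℝ) / Q * (1 + Real.log q) ^ (-2 : ℝ) * pr (d / 2) f (nd d Q q) ^ 2
          ≤ (q : ℝ) / Q * (Real.log q ^ 2)⁻¹ * pr (d / 2) f (nd d Q q) ^ 2 := by gcongr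
        _ = (c * (Q ^ (2 / d) * (q : ℝ) ^ (1 - 2 / d))) * (1 / c * (Q * Q ^ (2 / d))⁻¹ *
            ((q : ℝ) ^ (2 / d) / Real.log q ^ 2 * pr (d / 2) f (nd d Q q) ^ 2)) := by
            have e4 : (q : ℝ) / Q = (q : ℝ) ^ (1 - 2 / d) * (q : ℝ) ^ (2 / d) / Q := by
              rw [← e3]
            rw [e4]
            generalize (q : ℝ) ^ (1 - 2 / d) = X at *
            generalize (q : ℝ) ^ (2 / d) = Y at *
            generalize Q ^ (2 / d) = Z at *
            generalize Real.log q = l at *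
            generalize pr (d / 2) f (nd d Q q) = m at *
            field_simp
        _ ≤ ((S i).card * Real.log q) * (1 / c * (Q * Q ^ (2 / d))⁻¹ *
            ((q : ℝ) ^ (2 / d) / Real.log q ^ 2 * pr (d / 2) f (nd d Q q) ^ 2)) := by gcongr
        _ = _ := by
            generalize (q : ℝ) ^ (2 / d) = Y at *
            generalize Q ^ (2 / d) = Z at *
            generalize Real.log q = l at *
            generalize pr (d / 2) f (nd d Q q) = m at *
            generalize ((S i).card : ℝ) = k at *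
            field_simp
    have h4 : (S i).card * g (p i) ≤ (S i).card *
        ∑ q ∈ S i, 1 / c * Q ^ (-(1 + 2/d)) * (sol_F d Q q f) ^ 2 := by
      rw [Finset.mul_sum]
      exact h2.trans (Finset.sum_le_sum h3)
    exact le_of_mul_le_mul_left h4 hcard
  have hnn : ∀ n, 0 ≤ 1 / c * Q ^ (-(1 + 2/d)) * (sol_F d Q n f) ^ 2 := fun n => by positivity
  have h5 : ∑' i : ℕ, ENNReal.ofReal (g (p i)) ≤
      ENNReal.ofReal (1 / c * Q ^ (-(1 + 2/d)) * ∑' n : ℕ, (sol_F d Q n f) ^ 2) := by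
    calc ∑' i : ℕ, ENNReal.ofReal (g (p i))
        ≤ ∑' i : ℕ, ∑ q ∈ S i, ENNReal.ofReal (1 / c * Q ^ (-(1 + 2/d)) *
          (sol_F d Q q f) ^ 2) := by
          refine ENNReal.tsum_le_tsum fun i => ?_
          rw [← ENNReal.ofReal_sum_of_nonneg fun q _ => hnn q]
          exact ENNReal.ofReal_le_ofReal (hcell i)
      _ ≤ ∑' n : ℕ, ENNReal.ofReal (1 / c * Q ^ (-(1 + 2/d)) * (sol_F d Q n f) ^ 2) :=
          sol_sum_disj S hdisj _
      _ = _ := by
          rw [← ENNReal.ofReal_tsum_of_nonneg hnn ((sol_F_sum hd hQp f).mul_left _),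
            tsum_mul_left]
  simp only [← hg] at h1
  calc NQ d Q (pr (d / 2) f) ≤ ENNReal.ofReal C1 * ∑' i : ℕ, ENNReal.ofReal (g (p i)) := h1
    _ ≤ ENNReal.ofReal C1 * ENNReal.ofReal (1 / c * Q ^ (-(1 + 2/d)) *
        ∑' n : ℕ, (sol_F d Q n f) ^ 2) := mul_le_mul_right h5 _
    _ = _ := by
        rw [← ENNReal.ofReal_mul hC1.le]
        congr 1
        ring

theorem solver {d θ : ℝ} (hd : 4 < d) (hP : PrimesIn θ) (hθ : θ ≤ 1 - 2/d) :
    ∃ h Q0 C : ℝ, 0 < h ∧ h ≤ 1 ∧ 1 ≤ Q0 ∧ 0 < C ∧ ∀ Q : ℝ, Q0 ≤ Q →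
    ∀ (L : VR →ₗ[ℝ] ℝ) (M : ℝ), 0 ≤ M →
    (∀ f, ENNReal.ofReal ((L f) ^ 2) ≤ ENNReal.ofReal M * NQ d Q (pr (d/2) f)) →
    ∃ β : ℕ → ℝ, (∀ n, β n ≠ 0 → n.Prime ∧ h ≤ nd d Q n) ∧
      (Summable fun n : ℕ => β n ^ 2 * ((n:ℝ) ^ (-(2/d)) * Real.log n)) ∧
      ∑' n : ℕ, β n ^ 2 * ((n:ℝ) ^ (-(2/d)) * Real.log n) ≤ C * Q ^ (-(1 + 2/d)) * M ∧
      (∀ n : ℕ, |β n| ≤ C * Q ^ (-(2/d) - 1/2) * (n:ℝ) ^ (2/d - 1/2) * Real.sqrt M) ∧
      ∀ f, HasSum (fun n => β n * pr (d/2) f (nd d Q n)) (L f) := by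
  obtain ⟨Q0, C2, hQ0, hC2, hlow⟩ := sol_low hd hP hθ
  obtain ⟨Cp, hCp, hpt⟩ := NQ_pt hd
  refine ⟨1 / 128, Q0, C2 + 3 * Real.sqrt Cp * C2, by norm_num, by norm_num, hQ0, by positivity, ?_⟩
  intro Q hQ L M hM hL
  have hQ1 : 1 ≤ Q := hQ0.trans hQ
  have hQp : 0 < Q := by linarith
  have hd0 : 0 < d := by linarith
  obtain ⟨R, hR⟩ : ∃ R : ℝ, R = C2 * Q ^ (-(1 + 2/d)) := ⟨_, rfl⟩
  have hR0 : 0 < R := by rw [hR]; positivity
  have hT0 : ∀ f, 0 ≤ ∑' n : ℕ, (sol_F d Q n f) ^ 2 := fun f => tsum_nonneg fun n => sq_nonneg _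
  have hlow' : ∀ f, NQ d Q (pr (d / 2) f) ≤
      ENNReal.ofReal (R * ∑' n : ℕ, (sol_F d Q n f) ^ 2) := by
    intro f
    rw [hR]
    exact hlow Q hQ f
  have hLb : ∀ f, (L f) ^ 2 ≤ (R * M) * ∑' n : ℕ, (sol_F d Q n f) ^ 2 := by
    intro f
    have h1 : ENNReal.ofReal ((L f) ^ 2) ≤
        ENNReal.ofReal (M * (R * ∑' n : ℕ, (sol_F d Q n f) ^ 2)) := by
      rw [ENNReal.ofReal_mul hM]
      exact (hL f).trans (mul_le_mul_right (hlow' f) _)
    have h2 : 0 ≤ M * (R * ∑' n : ℕ, (sol_F d Q n f) ^ 2) :=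
      mul_nonneg hM (mul_nonneg hR0.le (hT0 f))
    have h3 := (ENNReal.ofReal_le_ofReal_iff h2).1 h1
    linarith
  obtain ⟨β, hβs, hβC, hβL, hβp⟩ := riesz (sol_F d Q) (sol_F_sum hd hQp) L (R * M)
    (by positivity) hLb
  have hom0 : ∀ n, 0 ≤ sol_om d Q n := sol_om_nonneg d Q
  have hact : ∀ n, sol_om d Q n ≠ 0 → n.Prime ∧ 1 / 128 ≤ nd d Q n := by
    intro n hn
    by_contra hcon
    apply hn
    unfold sol_om
    rw [if_neg hcon]
  have hval : ∀ n, sol_om d Q n ≠ 0 → sol_om d Q n = (n : ℝ) ^ (2 / d) / Real.log n := by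
    intro n hn
    unfold sol_om
    rw [if_pos (hact n hn)]
  have hterm : ∀ n, (Real.sqrt (sol_om d Q n) * β n) ^ 2 * ((n:ℝ) ^ (-(2/d)) * Real.log n) ≤
      β n ^ 2 := by
    intro n
    rw [mul_pow, Real.sq_sqrt (hom0 n)]
    by_cases hn : sol_om d Q n = 0
    · rw [hn]
      simp only [zero_mul]
      positivity
    · have hp := hact n hn
      have hlog : 0 < Real.log n := by linarith [sol_log hp.1]
      have hn0 : (0 : ℝ) < n := by exact_mod_cast hp.1.pos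
      rw [hval n hn, Real.rpow_neg hn0.le]
      refine le_of_eq ?_
      have : 0 < (n : ℝ) ^ (2 / d) := by positivity
      field_simp
  have hnnl : ∀ n : ℕ, 0 ≤ (n:ℝ) ^ (-(2/d)) * Real.log n := by
    intro n
    rcases Nat.eq_zero_or_pos n with h0 | h0
    · simp [h0]
    · have h1 : (1 : ℝ) ≤ n := by exact_mod_cast h0
      have := Real.log_nonneg h1
      positivity
  have hsumm : Summable fun n : ℕ => (Real.sqrt (sol_om d Q n) * β n) ^ 2 *
      ((n:ℝ) ^ (-(2/d)) * Real.log n) :=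
    Summable.of_nonneg_of_le (fun n => mul_nonneg (sq_nonneg _) (hnnl n)) hterm hβs
  refine ⟨fun n => Real.sqrt (sol_om d Q n) * β n, ?_, hsumm, ?_, ?_, ?_⟩
  · intro n hn
    refine hact n fun h0 => hn ?_
    simp only [h0, Real.sqrt_zero, zero_mul]
  · have h1 := (hsumm.tsum_le_tsum hterm hβs).trans hβC
    refine h1.trans ?_
    rw [hR]
    have h2 : 0 ≤ 3 * Real.sqrt Cp * C2 * Q ^ (-(1 + 2/d)) * M := by positivity
    linarith
  · intro n
    by_cases hn : sol_om d Q n = 0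
    · simp only [hn, Real.sqrt_zero, zero_mul, abs_zero]
      positivity
    · have hp := hact n hn
      have hlog1 := sol_log hp.1
      have hlog : 0 < Real.log n := by linarith
      have hn1 : 1 ≤ n := hp.1.one_le
      have hn0 : (0 : ℝ) < n := by exact_mod_cast hp.1.pos
      have hKn : ∀ f, (sol_F d Q n f) ^ 2 ≤ (sol_om d Q n * (Q / n) * (1 + Real.log n) ^ 2 *
          Cp * R) * ∑' m : ℕ, (sol_F d Q m f) ^ 2 := by
        intro f
        have h1 := (hpt Q hQ1 f n hn1).trans (mul_le_mul_right (hlow' f) _)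
        rw [← ENNReal.ofReal_mul hCp.le] at h1
        have h2 : 0 ≤ Cp * (R * ∑' n : ℕ, (sol_F d Q n f) ^ 2) :=
          mul_nonneg hCp.le (mul_nonneg hR0.le (hT0 f))
        have h3 := (ENNReal.ofReal_le_ofReal_iff h2).1 h1
        have h4 : (1 + Real.log n) ^ (-2 : ℝ) = ((1 + Real.log n) ^ 2)⁻¹ := by
          rw [Real.rpow_neg (by linarith)]
          norm_num
        rw [h4] at h3
        have hl1 : 0 < 1 + Real.log n := by linarith
        rw [sol_F_sq]
        calc sol_om d Q n * pr (d / 2) f (nd d Q n) ^ 2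
            = sol_om d Q n * (Q / n) * (1 + Real.log n) ^ 2 * ((n : ℝ) / Q *
              ((1 + Real.log n) ^ 2)⁻¹ * pr (d / 2) f (nd d Q n) ^ 2) := by
              field_simp
          _ ≤ sol_om d Q n * (Q / n) * (1 + Real.log n) ^ 2 *
              (Cp * (R * ∑' m : ℕ, (sol_F d Q m f) ^ 2)) := by
              have := hom0 n
              gcongr
          _ = _ := by ring
      have hK0 : 0 ≤ sol_om d Q n * (Q / n) * (1 + Real.log n) ^ 2 * Cp * R := by
        have := hom0 n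
        positivity
      have h5 := hβp n _ hK0 hKn
      have h6 : (1 + Real.log n) ^ 2 ≤ 9 * Real.log n ^ 2 := by nlinarith
      have h7 : (Real.sqrt (sol_om d Q n) * β n) ^ 2 ≤
          (3 * Real.sqrt Cp * C2 * Q ^ (-(2/d) - 1/2) * (n:ℝ) ^ (2/d - 1/2) * Real.sqrt M) ^ 2 := by
        rw [mul_pow, Real.sq_sqrt (hom0 n)]
        calc sol_om d Q n * β n ^ 2 ≤ sol_om d Q n *
              ((sol_om d Q n * (Q / n) * (1 + Real.log n) ^ 2 * Cp * R) * (R * M)) := by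
              have := hom0 n
              gcongr
          _ = sol_om d Q n ^ 2 * (1 + Real.log n) ^ 2 * (Q / n * Cp * R ^ 2 * M) := by ring
          _ ≤ sol_om d Q n ^ 2 * (9 * Real.log n ^ 2) * (Q / n * Cp * R ^ 2 * M) := by
              gcongr
          _ = _ := by
              rw [hval n hn, hR]
              have e1 : (Q ^ (-(2/d) - 1/2)) ^ 2 = Q * (Q ^ (-(1 + 2/d))) ^ 2 := by
                rw [← Real.rpow_natCast, ← Real.rpow_mul hQp.le, ← Real.rpow_natCast,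
                  ← Real.rpow_mul hQp.le]
                nth_rewrite 2 [← Real.rpow_one Q]
                rw [← Real.rpow_add hQp]
                congr 1
                push_cast
                ring
              have e2 : ((n:ℝ) ^ (2/d - 1/2)) ^ 2 = ((n : ℝ) ^ (2 / d)) ^ 2 / n := by
                rw [← Real.rpow_natCast, ← Real.rpow_mul hn0.le, ← Real.rpow_natCast,
                  ← Real.rpow_mul hn0.le, ← Real.rpow_sub_one hn0.ne']
                congr 1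
                push_cast
                ring
              rw [mul_pow, mul_pow, mul_pow, mul_pow, mul_pow, mul_pow, e1, e2, Real.sq_sqrt hCp.le,
                Real.sq_sqrt hM]
              field_simp
              ring
      have h8 := abs_le_of_sq_le_sq h7 (by positivity)
      refine h8.trans ?_
      have h9 : 0 ≤ C2 * Q ^ (-(2/d) - 1/2) * (n:ℝ) ^ (2/d - 1/2) * Real.sqrt M := by
        positivity
      nlinarith
  · intro f
    have h1 := hβL f
    have h2 : (fun n => β n * sol_F d Q n f) =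
        fun n => Real.sqrt (sol_om d Q n) * β n * pr (d / 2) f (nd d Q n) := by
      funext n
      rw [sol_F_apply]
      ring
    rw [h2] at h1
    exact h1

end Pool.Agent.H97.EP

end
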