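import Pool.Agent.H47.B1.H91.EHA.SwI
import Pool.Agent.H47.B1.H97.EP.Deg
import Pool.Agent.H47.B1.M21
import Pool.Agent.H47.B1.M42
import Pool.Agent.H47.B1.M43

/-! The parts of this file: H91.EHA.SwK1, H88.E58.Lg, H97.EP.CF, H97.EP.CH, H97.EP.CI, H97.EP.Main. -/

section

/-!
# Primes in progressions to small moduli

Orthogonality of characters mod `c` (Mathlib `DirichletCharacter.sum_char_inv_mul_char_eq`; compare
`PK/DiA.lean`): `psiA y c a = (1/φ(c)) ∑_χ χ⁻¹(a) ∑_{n≤y} Λ(n)χ(n)`.  Principal character: `pnt` minus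
`∑_{n ≤ y, (n,c)>1} Λ(n) ≤ (log x)²`-type (`DiA_psi_noncoprime`).  Other characters: replace by the primitive
character (error again `∑_{(n,c)>1} Λ(n)`), `siegel_walfisz` for `y ≥ √x` (then `log y ≥ (log x)/2`), trivial bound
`y log y` for `y < √x`.
-/

set_option autoImplicit false

namespace Pool.Agent.H91.EHA

open Finset
open Pool.Agent.H91.PK

theorem swk1_Lam_nonneg (n : ℕ) : 0 ≤ Lam n := ArithmeticFunction.vonMangoldt_nonneg

/-- The twisted sum over prime powers. -/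
noncomputable def swk1S (y : ℕ) {c : ℕ} (χ : DirichletCharacter ℂ c) : ℂ :=
  ∑ n ∈ Icc 1 y, ((Lam n : ℝ) : ℂ) * χ (n : ZMod c)

/-- The mass of the `n` not coprime to `c`. -/
noncomputable def swk1E (y c : ℕ) : ℝ :=
  ∑ n ∈ (Icc 1 y).filter (fun n => ¬ Nat.Coprime n c), Lam n

theorem swk1E_nonneg (y c : ℕ) : 0 ≤ swk1E y c := sum_nonneg fun _ _ => swk1_Lam_nonneg _

theorem swk1E_le {y c : ℕ} (hy : 1 ≤ y) (hc : 1 ≤ c) : swk1E y c ≤ 2 * Real.log c * Real.log y := by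
  have h1 : swk1E y c ≤ (c.primeFactors.card : ℝ) * Real.log y := DiA_psi_noncoprime hy hc
  have h2 := DiA_omega_le hc
  have h4 : (0.6931471803 : ℝ) < Real.log 2 := Real.log_two_gt_d9
  have h5 : (0 : ℝ) ≤ c.primeFactors.card := Nat.cast_nonneg _
  have h6 : (c.primeFactors.card : ℝ) * 0.6931471803 ≤ Real.log c := by nlinarith
  have h7 : (c.primeFactors.card : ℝ) ≤ 2 * Real.log c := by nlinarith
  have hL : 0 ≤ Real.log y := Real.log_natCast_nonneg y
  exact h1.trans (mul_le_mul_of_nonneg_right h7 hL)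

/-- orthogonality -/
theorem swk1_orth {y c a : ℕ} (hc : 1 ≤ c) (ha : Nat.Coprime a c) :
    (c.totient : ℂ) * ((psiA y c a : ℝ) : ℂ)
      = ∑ χ : DirichletCharacter ℂ c, χ ((a : ZMod c)⁻¹) * swk1S y χ := by
  have : NeZero c := ⟨by omega⟩
  have hu : IsUnit (a : ZMod c) := (ZMod.isUnit_iff_coprime a c).mpr ha
  unfold swk1S psiA
  simp only [mul_sum]
  rw [sum_comm]
  rw [Complex.ofReal_sum, mul_sum, sum_filter]
  refine sum_congr rfl fun n hn => ?_
  rw [mem_Icc] at hn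
  have h1 : ∀ χ : DirichletCharacter ℂ c,
      χ ((a : ZMod c)⁻¹) * (((Lam n : ℝ) : ℂ) * χ (n : ZMod c))
      = (χ ((a : ZMod c)⁻¹) * χ (n : ZMod c)) * ((Lam n : ℝ) : ℂ) := by
    intro χ; ring
  simp only [h1]
  rw [← sum_mul, DirichletCharacter.sum_char_inv_mul_char_eq ℂ hu]
  have hiff : ((a : ZMod c) = (n : ZMod c)) ↔ n ≡ a [MOD c] := by
    rw [eq_comm]
    exact ZMod.natCast_eq_natCast_iff n a c
  by_cases h : n ≡ a [MOD c]
  · rw [if_pos h, if_pos (hiff.mpr h)]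
  · rw [if_neg h, if_neg (fun h' => h (hiff.mp h'))]
    simp

theorem swk1_S_sub {y c : ℕ} (χ : DirichletCharacter ℂ c) :
    ‖swk1S y χ‖ ≤ ‖swk1S y χ.primitiveCharacter‖ + swk1E y c := by
  have h1 : swk1S y χ.primitiveCharacter - swk1S y χ
      = ∑ n ∈ (Icc 1 y).filter (fun n => ¬ Nat.Coprime n c),
        ((Lam n : ℝ) : ℂ) * χ.primitiveCharacter (n : ZMod χ.conductor) := by
    unfold swk1S
    rw [← sum_sub_distrib, sum_filter]
    refine sum_congr rfl fun n _ => ?_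
    by_cases h : Nat.Coprime n c
    · rw [if_neg (not_not.mpr h)]
      simp only [DiA_prim_eq χ h, sub_self]
    · rw [if_pos h]
      simp only [DiA_char_zero χ h, mul_zero, sub_zero]
  have h2 : ‖swk1S y χ.primitiveCharacter - swk1S y χ‖ ≤ swk1E y c := by
    rw [h1]
    refine (norm_sum_le _ _).trans ?_
    refine sum_le_sum fun n _ => ?_
    rw [norm_mul, Complex.norm_real, Real.norm_of_nonneg (swk1_Lam_nonneg n)]
    calc Lam n * ‖χ.primitiveCharacter (n : ZMod χ.conductor)‖ ≤ Lam n * 1 :=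
          mul_le_mul_of_nonneg_left (DiA_norm_char_le _ _) (swk1_Lam_nonneg n)
      _ = Lam n := mul_one _
  calc ‖swk1S y χ‖ = ‖swk1S y χ.primitiveCharacter
        - (swk1S y χ.primitiveCharacter - swk1S y χ)‖ := by congr 1; ring
    _ ≤ _ := (norm_sub_le _ _).trans (by linarith)

theorem swk1_S_one {y c : ℕ} :
    swk1S y (1 : DirichletCharacter ℂ c)
      = (((∑ n ∈ Icc 1 y, Lam n) - swk1E y c : ℝ) : ℂ) := by
  unfold swk1S swk1E
  rw [sum_filter, ← sum_sub_distrib, Complex.ofReal_sum]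
  refine sum_congr rfl fun n _ => ?_
  by_cases h : Nat.Coprime n c
  · rw [if_neg (not_not.mpr h)]
    have : (1 : DirichletCharacter ℂ c) (n : ZMod c) = 1 :=
      MulChar.one_apply ((ZMod.isUnit_iff_coprime n c).mpr h)
    simp only [this]
    push_cast
    ring
  · rw [if_pos h]
    simp only [DiA_char_zero _ h]
    simp

/-- The main inequality. -/
theorem swk1_main {y c a : ℕ} (hc : 1 ≤ c) (ha : Nat.Coprime a c) {D : ℝ} (hD : 0 ≤ D)
    (h : ∀ χ : DirichletCharacter ℂ c, χ ≠ 1 → ‖swk1S y χ.primitiveCharacter‖ ≤ D) :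
    |psiA y c a - (∑ n ∈ Icc 1 y, Lam n) / c.totient| ≤ swk1E y c + D := by
  classical
  have : NeZero c := ⟨by omega⟩
  have hφ : 0 < c.totient := Nat.totient_pos.mpr hc
  have hφR : (0 : ℝ) < c.totient := by exact_mod_cast hφ
  have hφC : (c.totient : ℂ) ≠ 0 := by exact_mod_cast hφ.ne'
  set E := swk1E y c with hE
  set P := ∑ n ∈ Icc 1 y, Lam n with hP
  have hE0 : 0 ≤ E := swk1E_nonneg _ _
  have hNch : Nch c = univ.erase (1 : DirichletCharacter ℂ c) := by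
    ext χ; rw [mem_Nch]; simp
  have horth := swk1_orth (y := y) hc ha
  have hone : (1 : DirichletCharacter ℂ c) ((a : ZMod c)⁻¹) = 1 := by
    refine MulChar.one_apply ?_
    have hu : IsUnit (a : ZMod c) := (ZMod.isUnit_iff_coprime a c).mpr ha
    obtain ⟨u, hu⟩ := hu
    rw [← hu, ZMod.inv_coe_unit]
    exact Units.isUnit _
  rw [← Finset.add_sum_erase univ _ (mem_univ (1 : DirichletCharacter ℂ c)), ← hNch, hone,
    one_mul, swk1_S_one, ← hP, ← hE] at horth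
  have h1 : ((c.totient * psiA y c a - P : ℝ) : ℂ)
      = - ((E : ℝ) : ℂ) + ∑ χ ∈ Nch c, χ ((a : ZMod c)⁻¹) * swk1S y χ := by
    push_cast
    rw [horth]
    push_cast
    ring
  have hcard : (Nch c).card + 1 = c.totient := by
    rw [hNch, card_erase_of_mem (mem_univ _), card_univ, ← Nat.card_eq_fintype_card,
      DirichletCharacter.card_eq_totient_of_hasEnoughRootsOfUnity ℂ c]
    omega
  have hcardR : ((Nch c).card : ℝ) + 1 = c.totient := by exact_mod_cast hcard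
  have h2 : |(c.totient : ℝ) * psiA y c a - P| ≤ (c.totient : ℝ) * (E + D) := by
    have h3 : |(c.totient : ℝ) * psiA y c a - P|
        = ‖((c.totient * psiA y c a - P : ℝ) : ℂ)‖ := by
      rw [Complex.norm_real, Real.norm_eq_abs]
    rw [h3, h1]
    refine (norm_add_le _ _).trans ?_
    rw [norm_neg, Complex.norm_real, Real.norm_of_nonneg hE0]
    have h4 : ‖∑ χ ∈ Nch c, χ ((a : ZMod c)⁻¹) * swk1S y χ‖
        ≤ ∑ χ ∈ Nch c, (D + E) := by
      refine (norm_sum_le _ _).trans (sum_le_sum fun χ hχ => ?_)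
      rw [norm_mul]
      calc ‖χ ((a : ZMod c)⁻¹)‖ * ‖swk1S y χ‖
          ≤ 1 * ‖swk1S y χ‖ :=
            mul_le_mul_of_nonneg_right (DiA_norm_char_le _ _) (norm_nonneg _)
        _ ≤ _ := by
            rw [one_mul]
            exact (swk1_S_sub χ).trans (add_le_add (h χ (mem_Nch.mp hχ)) le_rfl)
    rw [sum_const, nsmul_eq_mul] at h4
    rw [← hcardR]
    nlinarith
  have h6 : psiA y c a - P / c.totient
      = (1 / (c.totient : ℝ)) * ((c.totient : ℝ) * psiA y c a - P) := by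
    field_simp
  rw [h6, abs_mul, abs_of_pos (by positivity : (0 : ℝ) < 1 / (c.totient : ℝ))]
  calc (1 / (c.totient : ℝ)) * |(c.totient : ℝ) * psiA y c a - P|
      ≤ (1 / (c.totient : ℝ)) * ((c.totient : ℝ) * (E + D)) :=
        mul_le_mul_of_nonneg_left h2 (by positivity)
    _ = E + D := by field_simp

/-- The growth conditions on `x`. -/
theorem swk1_ev (B k : ℕ) (M : ℝ) : ∃ x0 : ℕ, ∀ x : ℕ, x0 ≤ x →
    2 ≤ x ∧ 1 ≤ Real.log x ∧ 2 * 2 ^ B ≤ Real.log x ∧ M ≤ Real.log x ∧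
      2 * Real.log x ^ (k + 1) ≤ Real.sqrt x ∧ 4 * (B + 1) * Real.log x ^ (k + 2) ≤ x := by
  have hlog : Filter.Tendsto (fun x : ℕ => Real.log (x : ℝ)) Filter.atTop Filter.atTop :=
    Real.tendsto_log_atTop.comp tendsto_natCast_atTop_atTop
  have h1 : ∀ᶠ x : ℕ in Filter.atTop, 2 ≤ x := Filter.eventually_ge_atTop 2
  have h2 : ∀ᶠ x : ℕ in Filter.atTop, 1 ≤ Real.log x := hlog.eventually_ge_atTop 1
  have h3 : ∀ᶠ x : ℕ in Filter.atTop, 2 * 2 ^ B ≤ Real.log x := hlog.eventually_ge_atTop _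
  have h4 : ∀ᶠ x : ℕ in Filter.atTop, M ≤ Real.log x := hlog.eventually_ge_atTop _
  have hid : ∀ n : ℕ, ∀ e : ℝ, 0 < e → ∀ᶠ t : ℝ in Filter.atTop, Real.log t ^ n ≤ e * t := by
    intro n e he
    have := (Real.isLittleO_pow_log_id_atTop (n := n)).bound he
    filter_upwards [this, Filter.eventually_ge_atTop (1 : ℝ)] with t ht ht1
    have h0 : 0 ≤ Real.log t := Real.log_nonneg ht1
    rw [Real.norm_of_nonneg (by positivity)] at ht
    simpa [Real.norm_of_nonneg (by linarith : (0 : ℝ) ≤ t)] using ht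
  have h5 : ∀ᶠ x : ℕ in Filter.atTop, 2 * Real.log x ^ (k + 1) ≤ Real.sqrt x := by
    have hs : Filter.Tendsto (fun x : ℕ => Real.sqrt (x : ℝ)) Filter.atTop Filter.atTop :=
      Real.tendsto_sqrt_atTop.comp tendsto_natCast_atTop_atTop
    have := hs.eventually (hid (k + 1) (1 / (2 * 2 ^ (k + 1))) (by positivity))
    filter_upwards [this, h1] with x hx hx1
    have hls : Real.log (Real.sqrt x) = Real.log x / 2 := Real.log_sqrt (Nat.cast_nonneg x)
    rw [hls, div_pow] at hx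
    have hp : (0 : ℝ) < 2 ^ (k + 1) := by positivity
    rw [div_le_iff₀ hp] at hx
    have e1 : 1 / (2 * 2 ^ (k + 1)) * Real.sqrt x * (2 : ℝ) ^ (k + 1) = Real.sqrt x / 2 := by
      field_simp
    rw [e1] at hx
    linarith
  have h6 : ∀ᶠ x : ℕ in Filter.atTop, 4 * (B + 1) * Real.log x ^ (k + 2) ≤ x := by
    have hB : (0 : ℝ) < 4 * (B + 1) := by positivity
    have := (tendsto_natCast_atTop_atTop (R := ℝ)).eventually
      (hid (k + 2) (1 / (4 * (B + 1))) (by positivity))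
    filter_upwards [this] with x hx
    have := mul_le_mul_of_nonneg_left hx hB.le
    have e1 : 4 * ((B : ℝ) + 1) * (1 / (4 * (B + 1)) * (x : ℝ)) = x := by
      field_simp
    rw [e1] at this
    exact this
  obtain ⟨x0, hx0⟩ := Filter.eventually_atTop.mp
    (h1.and (h2.and (h3.and (h4.and (h5.and h6)))))
  exact ⟨x0, fun x hx => hx0 x hx⟩

theorem swk1_psi_le (y : ℕ) : ∑ n ∈ Icc 1 y, Lam n ≤ y * Real.log y := by
  calc ∑ n ∈ Icc 1 y, Lam n ≤ ∑ n ∈ Icc 1 y, Real.log y := by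
        refine sum_le_sum fun n hn => ?_
        rw [mem_Icc] at hn
        refine (ArithmeticFunction.vonMangoldt_le_log).trans ?_
        exact Real.log_le_log (by exact_mod_cast hn.1) (by exact_mod_cast hn.2)
    _ = y * Real.log y := by simp

theorem psi_ap (B k : ℕ) : ∃ x0 : ℕ, ∀ x : ℕ, x0 ≤ x → ∀ y : ℕ, y ≤ x → ∀ c : ℕ, 1 ≤ c →
    (c : ℝ) ≤ Real.log x ^ B → ∀ a : ℕ, Nat.Coprime a c →
      |psiA y c a - y / (c.totient : ℝ)| ≤ x / Real.log x ^ k := by
  obtain ⟨C1, hC1, hsw⟩ := siegel_walfisz (B + 1) (k + 1)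
  obtain ⟨C2, hC2, hpnt⟩ := pnt (k + 1)
  obtain ⟨x0, hx0⟩ := swk1_ev B k (2 * ((C1 + C2) * 2 ^ (k + 1)))
  refine ⟨x0, fun x hx y hyx c hc hcB a ha => ?_⟩
  obtain ⟨g1, g2, g3, g4, g5, g6⟩ := hx0 x hx
  have hxR : (2 : ℝ) ≤ x := by exact_mod_cast g1
  have hyxR : (y : ℝ) ≤ x := by exact_mod_cast hyx
  have hφ : 0 < c.totient := Nat.totient_pos.mpr hc
  have hφR : (0 : ℝ) < c.totient := by exact_mod_cast hφ
  have hφ1 : (1 : ℝ) ≤ c.totient := by exact_mod_cast hφ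
  have hy0 : (0 : ℝ) ≤ y := Nat.cast_nonneg y
  have hdiv : (y : ℝ) / c.totient ≤ y := div_le_self hy0 hφ1
  have hdiv0 : (0 : ℝ) ≤ (y : ℝ) / c.totient := by positivity
  have hLk : 0 < Real.log x ^ k := by positivity
  by_cases hbig : (y : ℝ) ≤ Real.sqrt x
  · -- trivial bound
    have hpsi0 : 0 ≤ psiA y c a := sum_nonneg fun _ _ => swk1_Lam_nonneg _
    have hpsi1 : psiA y c a ≤ y * Real.log y := by
      refine le_trans ?_ (swk1_psi_le y)
      exact sum_le_sum_of_subset_of_nonneg (filter_subset _ _) fun _ _ _ => swk1_Lam_nonneg _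
    have hlogy : Real.log y ≤ Real.log x := by
      rcases Nat.eq_zero_or_pos y with h | h
      · subst h; simpa using Real.log_natCast_nonneg x
      · exact Real.log_le_log (by exact_mod_cast h) hyxR
    have hs0 : 0 ≤ Real.sqrt x := Real.sqrt_nonneg _
    have hb1 : psiA y c a ≤ Real.sqrt x * Real.log x := by
      refine hpsi1.trans ?_
      exact mul_le_mul hbig hlogy (Real.log_natCast_nonneg y) hs0
    have hb2 : (y : ℝ) / c.totient ≤ Real.sqrt x * Real.log x := by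
      refine (hdiv.trans hbig).trans ?_
      nlinarith
    have hb3 : Real.sqrt x * Real.log x ≤ x / Real.log x ^ k := by
      rw [le_div_iff₀ hLk]
      have e1 : Real.sqrt x * Real.log x * Real.log x ^ k
          = Real.sqrt x * Real.log x ^ (k + 1) := by ring
      rw [e1]
      have e2 : Real.sqrt x * Real.sqrt x = x := Real.mul_self_sqrt (by positivity)
      have e3 : 0 ≤ Real.log x ^ (k + 1) := by positivity
      nlinarith
    rw [abs_le]
    constructor <;> linarith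
  · rw [not_le] at hbig
    have hs1 : (1 : ℝ) ≤ Real.sqrt x := by
      rw [Real.one_le_sqrt]; linarith
    have hy1R : (1 : ℝ) < y := by linarith
    have hy2 : 2 ≤ y := by
      have : 1 < y := by exact_mod_cast hy1R
      omega
    have hlogy : Real.log x / 2 ≤ Real.log y := by
      rw [← Real.log_sqrt (by positivity)]
      exact Real.log_le_log (by positivity) hbig.le
    have hlogyx : Real.log y ≤ Real.log x := Real.log_le_log (by linarith) hyxR
    have hly0 : 0 < Real.log y := by linarith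
    have h2B : (2 : ℝ) ^ B ≤ Real.log y := by linarith
    have hcy : (c : ℝ) ≤ Real.log y ^ (B + 1) := by
      calc (c : ℝ) ≤ Real.log x ^ B := hcB
        _ ≤ (2 * Real.log y) ^ B := by
            refine pow_le_pow_left₀ (by linarith) (by linarith) _
        _ = 2 ^ B * Real.log y ^ B := by rw [mul_pow]
        _ ≤ Real.log y * Real.log y ^ B := by
            refine mul_le_mul_of_nonneg_right h2B (by positivity)
        _ = Real.log y ^ (B + 1) := by ring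
    set D : ℝ := C1 * y / Real.log y ^ (k + 1) with hD
    have hD0 : 0 ≤ D := by positivity
    have hchar : ∀ χ : DirichletCharacter ℂ c, χ ≠ 1 → ‖swk1S y χ.primitiveCharacter‖ ≤ D := by
      intro χ hχ
      have : NeZero c := ⟨by omega⟩
      have hcond_dvd : χ.conductor ∣ c := χ.conductor_dvd_level
      have hcond0 : χ.conductor ≠ 0 := by
        intro h0
        rw [h0] at hcond_dvd
        have := Nat.eq_zero_of_zero_dvd hcond_dvd
        omega
      have hcond1 : χ.conductor ≠ 1 := by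
        intro h1
        exact hχ ((DirichletCharacter.eq_one_iff_conductor_eq_one (χ := χ)).mpr h1)
      have hcond2 : 2 ≤ χ.conductor := by omega
      have hle : (χ.conductor : ℝ) ≤ Real.log y ^ (B + 1) := by
        refine le_trans ?_ hcy
        exact_mod_cast Nat.le_of_dvd hc hcond_dvd
      exact hsw χ.conductor hcond2 χ.primitiveCharacter
        χ.primitiveCharacter_isPrimitive y hy2 hle
    have hmain := swk1_main (y := y) hc ha hD0 hchar
    have hp := hpnt y hy2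
    have hE : swk1E y c ≤ 2 * Real.log c * Real.log y := swk1E_le (by omega) hc
    have hlogc : Real.log c ≤ B * Real.log x := by
      have h1 : Real.log c ≤ Real.log (Real.log x ^ B) :=
        Real.log_le_log (by exact_mod_cast hc) hcB
      rw [Real.log_pow] at h1
      have h2 : Real.log (Real.log x) ≤ Real.log x := by
        have := Real.log_le_sub_one_of_pos (by linarith : (0 : ℝ) < Real.log x)
        linarith
      exact h1.trans (mul_le_mul_of_nonneg_left h2 (Nat.cast_nonneg B))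
    have hlogc0 : 0 ≤ Real.log c := Real.log_natCast_nonneg c
    have hE2 : swk1E y c ≤ 2 * B * Real.log x ^ 2 := by
      calc swk1E y c ≤ 2 * Real.log c * Real.log y := hE
        _ ≤ 2 * Real.log c * Real.log x := mul_le_mul_of_nonneg_left hlogyx (by positivity)
        _ ≤ 2 * (B * Real.log x) * Real.log x := by
            refine mul_le_mul_of_nonneg_right ?_ (by linarith)
            linarith
        _ = 2 * B * Real.log x ^ 2 := by ring
    have hE3 : swk1E y c ≤ (x / Real.log x ^ k) / 2 := by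
      refine hE2.trans ?_
      rw [div_div, le_div_iff₀ (by positivity)]
      have e1 : 2 * B * Real.log x ^ 2 * (Real.log x ^ k * 2)
          = 4 * B * Real.log x ^ (k + 2) := by ring
      rw [e1]
      refine le_trans ?_ g6
      have : 0 ≤ Real.log x ^ (k + 2) := by positivity
      nlinarith
    have hsub : |psiA y c a - y / (c.totient : ℝ)| ≤
        |psiA y c a - (∑ n ∈ Icc 1 y, Lam n) / c.totient|
          + |(∑ n ∈ Icc 1 y, Lam n) / c.totient - y / (c.totient : ℝ)| := abs_sub_le _ _ _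
    have hp2 : |(∑ n ∈ Icc 1 y, Lam n) / c.totient - y / (c.totient : ℝ)|
        ≤ C2 * y / Real.log y ^ (k + 1) := by
      rw [← sub_div, abs_div, abs_of_pos hφR]
      exact (div_le_self (abs_nonneg _) hφ1).trans hp
    have hfin : (C1 + C2) * y / Real.log y ^ (k + 1) ≤ (x / Real.log x ^ k) / 2 := by
      have hpow : (Real.log x / 2) ^ (k + 1) ≤ Real.log y ^ (k + 1) :=
        pow_le_pow_left₀ (by linarith) hlogy _
      have hpow0 : 0 < (Real.log x / 2) ^ (k + 1) := by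
        have : 0 < Real.log x / 2 := by linarith
        positivity
      calc (C1 + C2) * y / Real.log y ^ (k + 1)
          ≤ (C1 + C2) * x / (Real.log x / 2) ^ (k + 1) := by
            refine div_le_div₀ (by positivity) ?_ hpow0 hpow
            exact mul_le_mul_of_nonneg_left hyxR (by positivity)
        _ ≤ (x / Real.log x ^ k) / 2 := by
            rw [div_pow, div_div_eq_mul_div, div_div, div_le_div_iff₀ (by positivity) (by positivity)]
            have e1 : (C1 + C2) * ↑x * 2 ^ (k + 1) * (Real.log ↑x ^ k * 2)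
                = (2 * ((C1 + C2) * 2 ^ (k + 1))) * (x * Real.log x ^ k) := by ring
            rw [e1]
            have e2 : (x : ℝ) * Real.log x ^ (k + 1) = Real.log x * (x * Real.log x ^ k) := by ring
            rw [e2]
            exact mul_le_mul_of_nonneg_right g4 (by positivity)
    have hadd : D + C2 * y / Real.log y ^ (k + 1) = (C1 + C2) * y / Real.log y ^ (k + 1) := by
      rw [hD]; ring
    linarith

end Pool.Agent.H91.EHA

end

section

/-!
# E58 Lg: the long smooth average of `Λ`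

`η1 = 1/L^A1`.  `sw` is real and `≥ (1/η1) ∑_{x e^(η1/4) ≤ n ≤ x e^(3η1/4)} Λ(n)` (`nn`, `one`; `x e^(η1) ≤ 200 X`).
`Pool.Agent.H91.EHA.psi_ap 0 (A1 + 2)` with `c = 1`: `|psi(y) - y| ≤ 6X/log^(A1+2)` for `y ≤ 6X`; `x (e^(3η1/4) - e^(η1/4)) ≥ x η1/2`.
-/

set_option autoImplicit false

namespace Pool.Agent.H88.E58

open Finset MeasureTheory
open Pool.Agent.H88.PSI

private theorem Lg_psiA (y : ℕ) :
    Pool.Agent.H91.EHA.psiA y 1 1 = ∑ n ∈ Icc 1 y, La n := by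
  unfold Pool.Agent.H91.EHA.psiA
  rw [filter_true_of_mem (fun n _ => Nat.modEq_one)]
  rfl

private theorem Lg_La_nonneg (n : ℕ) : 0 ≤ La n := ArithmeticFunction.vonMangoldt_nonneg

private theorem Lg_ev (A1 x0 : ℕ) : ∃ X0 : ℕ, ∀ X : ℕ, X0 ≤ X →
    x0 ≤ X ∧ 10 ≤ Real.log X ∧ 8 * Real.log X ^ A1 ≤ X := by
  have h1 := (isLittleO_log_rpow_rpow_atTop (A1 : ℝ) (show (0 : ℝ) < 1 by norm_num)).bound
    (c := 1 / 8) (by positivity)
  have h2 := (h1.and (Filter.eventually_ge_atTop (1 : ℝ))).and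
    (Real.tendsto_log_atTop.eventually_ge_atTop 10)
  have h3 := tendsto_natCast_atTop_atTop (R := ℝ) |>.eventually h2
  obtain ⟨X0, hX0⟩ := Filter.eventually_atTop.1 (h3.and (Filter.eventually_ge_atTop x0))
  refine ⟨X0, fun X hX => ?_⟩
  obtain ⟨⟨⟨h4, h5⟩, h6⟩, h7⟩ := hX0 X hX
  refine ⟨h7, h6, ?_⟩
  rw [Real.rpow_natCast, Real.rpow_one, Real.norm_eq_abs, Real.norm_eq_abs,
    abs_of_nonneg (by positivity), abs_of_nonneg (by positivity)] at h4
  linarith

private theorem Lg_exp {a b : ℝ} (ha : 0 ≤ a) (hab : a ≤ b) :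
    b - a ≤ Real.exp b - Real.exp a := by
  have h1 : Real.exp b = Real.exp a * Real.exp (b - a) := by
    rw [← Real.exp_add]
    congr 1
    ring
  have h2 := Real.add_one_le_exp (b - a)
  have h3 : 1 ≤ Real.exp a := Real.one_le_exp ha
  rw [h1]
  nlinarith

theorem lg58 {ψ : ℝ → ℝ} {g : ℝ → ℂ} (h : Bump ψ g) (A1 : ℕ) (hA1 : 1 ≤ A1) :
    ∃ X0 : ℕ, ∀ X : ℕ, X0 ≤ X → ∀ x : ℝ, (X : ℝ) ≤ x → x ≤ 2 * X →
      (X : ℝ) / 4 ≤ (sw ψ (cc La) (200 * X) x (1 / Real.log X ^ A1)).re := by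
  obtain ⟨x0, hap⟩ := Pool.Agent.H91.EHA.psi_ap 0 (A1 + 2)
  obtain ⟨X0, hX0⟩ := Lg_ev A1 x0
  refine ⟨X0, fun X hX x hx1 hx2 => ?_⟩
  obtain ⟨g1, g2, g3⟩ := hX0 X hX
  obtain ⟨L, hL⟩ : ∃ L, L = Real.log X := ⟨_, rfl⟩
  rw [← hL] at g2 g3 ⊢
  have hL0 : 0 < L := by linarith
  have hLA : 1 ≤ L ^ A1 := one_le_pow₀ (by linarith)
  have hLA0 : 0 < L ^ A1 := by positivity
  have hXr : (8 : ℝ) ≤ X := by linarith
  have hX1 : 1 ≤ X := by
    have : (1 : ℝ) ≤ X := by linarith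
    exact_mod_cast this
  obtain ⟨η, hη⟩ : ∃ η, η = 1 / L ^ A1 := ⟨_, rfl⟩
  rw [← hη]
  have hη0 : 0 < η := by rw [hη]; positivity
  have hη1 : η ≤ 1 := by
    rw [hη, div_le_one hLA0]
    exact hLA
  have hηL : η * L ^ A1 = 1 := by
    rw [hη]
    field_simp
  have hx0 : 0 < x := by linarith
  -- the end points
  obtain ⟨y1, hy1⟩ : ∃ y1, y1 = ⌊x * Real.exp (η / 4)⌋₊ := ⟨_, rfl⟩
  obtain ⟨y2, hy2⟩ : ∃ y2, y2 = ⌊x * Real.exp (3 * η / 4)⌋₊ := ⟨_, rfl⟩
  have hpos1 : 0 ≤ x * Real.exp (η / 4) := by positivity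
  have hpos2 : 0 ≤ x * Real.exp (3 * η / 4) := by positivity
  have f1 : (y1 : ℝ) ≤ x * Real.exp (η / 4) := by rw [hy1]; exact Nat.floor_le hpos1
  have f1' : x * Real.exp (η / 4) < y1 + 1 := by rw [hy1]; exact Nat.lt_floor_add_one _
  have f2 : (y2 : ℝ) ≤ x * Real.exp (3 * η / 4) := by rw [hy2]; exact Nat.floor_le hpos2
  have f2' : x * Real.exp (3 * η / 4) < y2 + 1 := by rw [hy2]; exact Nat.lt_floor_add_one _
  have hle : y1 ≤ y2 := by
    rw [hy1, hy2]
    apply Nat.floor_le_floor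
    apply mul_le_mul_of_nonneg_left _ hx0.le
    apply Real.exp_le_exp.2
    linarith
  have hy26 : y2 ≤ 6 * X := by
    have h1 : Real.exp (3 * η / 4) ≤ 3 := by
      calc Real.exp (3 * η / 4) ≤ Real.exp 1 := Real.exp_le_exp.2 (by linarith)
        _ ≤ 3 := Real.exp_one_lt_d9.le.trans (by norm_num)
    have h2 : (y2 : ℝ) ≤ 6 * X := by
      calc (y2 : ℝ) ≤ x * Real.exp (3 * η / 4) := f2
        _ ≤ (2 * X) * 3 := mul_le_mul hx2 h1 (Real.exp_pos _).le (by positivity)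
        _ = 6 * X := by ring
    exact_mod_cast h2
  -- the real part
  have hre : (sw ψ (cc La) (200 * X) x η).re =
      ∑ n ∈ Icc 1 (200 * X), La n * (ψ ((Real.log n - Real.log x) / η) / η) := by
    unfold sw cc
    rw [Complex.re_sum]
    refine sum_congr rfl fun n _ => ?_
    rw [← Complex.ofReal_mul, Complex.ofReal_re]
  have hlow : ∑ n ∈ Ioc y1 y2, La n * (1 / η) ≤
      ∑ n ∈ Icc 1 (200 * X), La n * (ψ ((Real.log n - Real.log x) / η) / η) := by
    have hstep : ∑ n ∈ Ioc y1 y2, La n * (1 / η) =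
        ∑ n ∈ Ioc y1 y2, La n * (ψ ((Real.log n - Real.log x) / η) / η) := by
      refine sum_congr rfl fun n hn => ?_
      obtain ⟨hn1, hn2⟩ := mem_Ioc.1 hn
      have hn0 : (0 : ℝ) < n := by
        have : 0 < n := by omega
        exact_mod_cast this
      have h1 : x * Real.exp (η / 4) ≤ n := by
        have : (y1 : ℝ) + 1 ≤ n := by exact_mod_cast hn1
        linarith
      have h2 : (n : ℝ) ≤ x * Real.exp (3 * η / 4) := by
        have : (n : ℝ) ≤ y2 := by exact_mod_cast hn2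
        linarith
      have h3 := Real.log_le_log (by positivity) h1
      have h4 := Real.log_le_log hn0 h2
      rw [Real.log_mul hx0.ne' (Real.exp_ne_zero _), Real.log_exp] at h3 h4
      rw [h.one _ (by rw [le_div_iff₀ hη0]; linarith) (by rw [div_le_iff₀ hη0]; linarith)]
    rw [hstep]
    refine sum_le_sum_of_subset_of_nonneg ?_ ?_
    · intro n hn
      obtain ⟨hn1, hn2⟩ := mem_Ioc.1 hn
      exact mem_Icc.2 ⟨by omega, by omega⟩
    · intro n _ _
      exact mul_nonneg (Lg_La_nonneg n) (div_nonneg (h.nn _) hη0.le)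
  -- the prime number theorem
  have hpsi : ∀ y : ℕ, y ≤ 6 * X → |∑ n ∈ Icc 1 y, La n - y| ≤ 6 * X / L ^ (A1 + 2) := by
    intro y hy
    have h1 := hap (6 * X) (by omega) y hy 1 le_rfl (by simp) 1 (Nat.coprime_one_right 1)
    rw [Lg_psiA, Nat.totient_one, Nat.cast_one, div_one] at h1
    refine h1.trans ?_
    push_cast
    apply div_le_div_of_nonneg_left (by positivity) (by positivity)
    apply pow_le_pow_left₀ hL0.le
    rw [hL]
    apply Real.log_le_log (by linarith)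
    linarith
  have hdiff : ∑ n ∈ Ioc y1 y2, La n = ∑ n ∈ Icc 1 y2, La n - ∑ n ∈ Icc 1 y1, La n := by
    have h1 : Icc 1 y2 = Icc 1 y1 ∪ Ioc y1 y2 := by
      ext n
      simp only [mem_union, mem_Icc, mem_Ioc]
      omega
    have h2 : Disjoint (Icc 1 y1) (Ioc y1 y2) := by
      rw [disjoint_left]
      intro n hn hn'
      rw [mem_Icc] at hn
      rw [mem_Ioc] at hn'
      omega
    rw [h1, sum_union h2]
    ring
  have p1 := abs_le.1 (hpsi y1 (hle.trans hy26))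
  have p2 := abs_le.1 (hpsi y2 hy26)
  have hgap : x * Real.exp (η / 4) + X * η / 2 ≤ x * Real.exp (3 * η / 4) := by
    have h1 := Lg_exp (show 0 ≤ η / 4 by linarith) (show η / 4 ≤ 3 * η / 4 by linarith)
    have h2 : X * (η / 2) ≤ x * (Real.exp (3 * η / 4) - Real.exp (η / 4)) :=
      mul_le_mul hx1 (by linarith) (by positivity) hx0.le
    linarith
  have hsum : X * η / 2 - 1 - 2 * (6 * X / L ^ (A1 + 2)) ≤ ∑ n ∈ Ioc y1 y2, La n := by
    rw [hdiff]
    linarith [p1.2, p2.1]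
  rw [hre]
  refine le_trans ?_ hlow
  rw [← sum_mul, mul_one_div, le_div_iff₀ hη0]
  refine le_trans ?_ hsum
  have h1 : 1 ≤ X * η / 8 := by
    have h2 : 8 * L ^ A1 * η ≤ X * η := mul_le_mul_of_nonneg_right g3 hη0.le
    linarith
  have h2 : 2 * (6 * X / L ^ (A1 + 2)) ≤ X * η / 8 := by
    have h3 : 2 * (6 * X / L ^ (A1 + 2)) = X * η * (12 / L ^ 2) := by
      rw [hη, pow_add]
      field_simp
      norm_num
    rw [h3]
    have h4 : 12 / L ^ 2 ≤ 1 / 8 := by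
      rw [div_le_div_iff₀ (by positivity) (by norm_num)]
      nlinarith
    have h5 : 0 ≤ X * η := by positivity
    nlinarith
  linarith

end Pool.Agent.H88.E58

end

section

/-!
# Project EP, module `CF` : the functional of the composite nodes

Let `κ = 2/d`, `ν n = sg κ n * (n^κ (1 + log n)^(-2))` if `h ≤ nd d Q n`, else `0`.
`bessel` applied to `σ n = if h ≤ nd d Q n then sg κ n else 0`, `A` from `sg_cell`
(subsets of a cell with `j ≥ 1`): `∑ ν p(u_n)^2 ≤ C A Q^{1+κ} N`, `N = NQ d Q (pr (d/2) f) < ∞`.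
If `c n ≠ 0`: `n` has a prime factor `q` (as `n ≠ 1`; `n ≠ 0` squarefree), `q ≤ n`, so
`h ≤ nd d Q q ≤ nd d Q n`, and by `sg_point` `1 ≤ ν n · C' aa W n`, i.e. `c^2 ≤ (C' c^2 aa W) ν`.
Cauchy-Schwarz: `∑ |c p(u_n)| ≤ (∑ C' c^2 aa W)^{1/2} (∑ ν p^2)^{1/2}` — in `ℝ` via
`Summable` of squares (`|x y| ≤ (x^2 + y^2)/2`; e.g. `Real.inner_mul_le_norm_mul_norm`,
`inner_le_Lp_mul_Lq_tsum_of_nonneg` with `p = q = 2`).  Final constant `C' C A`.
-/

set_option autoImplicit false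
open MeasureTheory Set
open scoped ENNReal

namespace Pool.Agent.H97.EP

private theorem cf_aa_nonneg (κ : ℝ) (n : ℕ) :
    0 ≤ aa (fun q => 4 * ((q : ℝ) ^ (-κ) * Real.log q)) n := by
  unfold aa
  split_ifs
  · refine Finset.prod_nonneg fun q _ => ?_
    exact mul_nonneg (by norm_num)
      (mul_nonneg (Real.rpow_nonneg (Nat.cast_nonneg _) _) (Real.log_natCast_nonneg _))
  · exact le_rfl

/-- Cauchy-Schwarz for series, with a pointwise bound of the product. -/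
private theorem cf_cs {z x y : ℕ → ℝ} (hx : ∀ n, 0 ≤ x n) (hy : ∀ n, 0 ≤ y n)
    (hz : ∀ n, z n ^ 2 ≤ x n * y n) (hxs : Summable x) (hys : Summable y) :
    (Summable fun n => |z n|) ∧ (∑' n, z n) ^ 2 ≤ (∑' n, x n) * ∑' n, y n := by
  have h2 : ∀ t : ℝ, 0 ≤ t → Real.sqrt t ^ (2 : ℝ) = t := by
    intro t ht
    rw [Real.rpow_two, Real.sq_sqrt ht]
  have hCS := Real.summable_and_inner_le_Lp_mul_Lq_tsum_of_nonneg (f := fun n => Real.sqrt (x n))
    (g := fun n => Real.sqrt (y n)) Real.HolderConjugate.two_two (fun n => Real.sqrt_nonneg _)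
    (fun n => Real.sqrt_nonneg _)
    (by simpa only [h2 _ (hx _)] using hxs) (by simpa only [h2 _ (hy _)] using hys)
  obtain ⟨hs, hle⟩ := hCS
  have hle2 : ∑' n, Real.sqrt (x n) * Real.sqrt (y n) ≤
      Real.sqrt (∑' n, x n) * Real.sqrt (∑' n, y n) := by
    have e1 : (fun n => Real.sqrt (x n) ^ (2 : ℝ)) = x := funext fun n => h2 _ (hx n)
    have e2 : (fun n => Real.sqrt (y n) ^ (2 : ℝ)) = y := funext fun n => h2 _ (hy n)
    rw [e1, e2, ← Real.sqrt_eq_rpow, ← Real.sqrt_eq_rpow] at hle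
    exact hle
  have habs : ∀ n, |z n| ≤ Real.sqrt (x n) * Real.sqrt (y n) := by
    intro n
    rw [← Real.sqrt_mul (hx n), ← Real.sqrt_sq_eq_abs]
    exact Real.sqrt_le_sqrt (hz n)
  have hsz : Summable fun n => |z n| := Summable.of_nonneg_of_le (fun n => abs_nonneg _) habs hs
  refine ⟨hsz, ?_⟩
  have h3 : |∑' n, z n| ≤ Real.sqrt (∑' n, x n) * Real.sqrt (∑' n, y n) := by
    have h4 : |∑' n, z n| ≤ ∑' n, |z n| := by
      have := norm_tsum_le_tsum_norm (f := z) (by simpa only [Real.norm_eq_abs] using hsz)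
      simpa only [Real.norm_eq_abs] using this
    exact h4.trans ((hsz.tsum_le_tsum habs hs).trans hle2)
  have hX : 0 ≤ ∑' n, x n := tsum_nonneg hx
  have hY : 0 ≤ ∑' n, y n := tsum_nonneg hy
  calc (∑' n, z n) ^ 2 = |∑' n, z n| ^ 2 := (sq_abs _).symm
    _ ≤ (Real.sqrt (∑' n, x n) * Real.sqrt (∑' n, y n)) ^ 2 :=
      pow_le_pow_left₀ (abs_nonneg _) h3 2
    _ = (∑' n, x n) * ∑' n, y n := by
      rw [mul_pow, Real.sq_sqrt hX, Real.sq_sqrt hY]

theorem comp_bound {d h : ℝ} (hd : 4 < d) (hh : 0 < h) (hh1 : h ≤ 1) : ∃ C Q0 : ℝ, 0 < C ∧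
    1 ≤ Q0 ∧ ∀ Q : ℝ, Q0 ≤ Q → ∀ c : ℕ → ℝ,
    (∀ n, c n ≠ 0 → Squarefree n ∧ n ≠ 1 ∧ ¬ n.Prime ∧ ∀ q ∈ n.primeFactors, 3 ≤ q ∧ h ≤ nd d Q q) →
    (Summable fun n : ℕ => c n ^ 2 * aa (fun q => 4 * ((q : ℝ) ^ (-(2 / d)) * Real.log q)) n) →
    ∀ f : VR, (Summable fun n : ℕ => |c n * pr (d / 2) f (nd d Q n)|) ∧
      ENNReal.ofReal ((∑' n : ℕ, c n * pr (d / 2) f (nd d Q n)) ^ 2) ≤
        ENNReal.ofReal (C * Q ^ (1 + 2 / d) *
          ∑' n : ℕ, c n ^ 2 * aa (fun q => 4 * ((q : ℝ) ^ (-(2 / d)) * Real.log q)) n) *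
        NQ d Q (pr (d / 2) f) := by
  have hd0 : 0 < d := by linarith
  have hκ : 0 < 2 / d := by positivity
  have hκ2 : 2 / d < 1 / 2 := by
    rw [div_lt_div_iff₀ hd0 (by norm_num)]
    linarith
  obtain ⟨C1, hC1, hB⟩ := bessel hd hh hh1
  obtain ⟨A, Q0, hA, hQ0, hcell⟩ := sg_cell hd hh hh1
  obtain ⟨C2, hC2, hpt⟩ := sg_point hκ hκ2
  refine ⟨C2 * (C1 * A), Q0, by positivity, hQ0, ?_⟩
  intro Q hQ c hc hsum f
  have hQ1 : 1 ≤ Q := hQ0.trans hQ
  have hQpos : 0 < Q := by linarith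
  set κ : ℝ := 2 / d with hκdef
  set g : ℕ → ℝ := fun n => pr (d / 2) f (nd d Q n) with hg
  set σ : ℕ → ℝ := fun n => if h ≤ nd d Q n then sg κ n else 0 with hσ
  have hσ0 : ∀ n, 0 ≤ σ n := by
    intro n
    simp only [hσ]
    split_ifs
    · exact sg_nonneg κ n
    · exact le_rfl
  have hσle : ∀ n, σ n ≤ sg κ n := by
    intro n
    simp only [hσ]
    split_ifs
    · exact le_rfl
    · exact sg_nonneg κ n
  have hσs : ∀ n, σ n ≠ 0 → h ≤ nd d Q n := by
    intro n hn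
    by_contra hcon
    apply hn
    simp only [hσ]
    rw [if_neg hcon]
  have hB1 := hB Q hQ1 σ A hA.le hσ0 hσs (by
    intro j hj F hF
    exact (Finset.sum_le_sum fun n _ => hσle n).trans (hcell Q hQ j hj F hF)) f
  set ν : ℕ → ℝ := fun n => σ n * ((n : ℝ) ^ κ * (1 + Real.log n) ^ (-2 : ℝ)) with hν
  have hlog : ∀ n : ℕ, 0 ≤ Real.log n := fun n => Real.log_natCast_nonneg n
  have hν0 : ∀ n, 0 ≤ ν n := by
    intro n
    refine mul_nonneg (hσ0 n) (mul_nonneg (Real.rpow_nonneg (Nat.cast_nonneg _) _) ?_)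
    exact Real.rpow_nonneg (by linarith [hlog n]) _
  have hy0 : ∀ n, 0 ≤ ν n * g n ^ 2 := fun n => mul_nonneg (hν0 n) (sq_nonneg _)
  have hNQ : NQ d Q (pr (d / 2) f) < ⊤ := NQ_lt_top hd hQpos f
  have hB2 : ∑' n : ℕ, ENNReal.ofReal (ν n * g n ^ 2) ≤
      ENNReal.ofReal (C1 * A * Q ^ (1 + κ)) * NQ d Q (pr (d / 2) f) := hB1
  have hfin : ∑' n : ℕ, ENNReal.ofReal (ν n * g n ^ 2) ≠ ⊤ :=
    ne_top_of_le_ne_top (ENNReal.mul_ne_top ENNReal.ofReal_ne_top hNQ.ne) hB2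
  have hys : Summable fun n => ν n * g n ^ 2 := by
    have h1 := ENNReal.summable_toReal hfin
    refine h1.congr fun n => ?_
    rw [ENNReal.toReal_ofReal (hy0 n)]
  have hyt : ENNReal.ofReal (∑' n, ν n * g n ^ 2) = ∑' n : ℕ, ENNReal.ofReal (ν n * g n ^ 2) :=
    ENNReal.ofReal_tsum_of_nonneg hy0 hys
  set W : ℕ → ℝ := fun n => aa (fun q => 4 * ((q : ℝ) ^ (-κ) * Real.log q)) n with hW
  have hW0 : ∀ n, 0 ≤ W n := fun n => cf_aa_nonneg κ n
  have hsum' : Summable fun n => c n ^ 2 * W n := hsum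
  have hxs : Summable fun n => C2 * (c n ^ 2 * W n) := hsum'.mul_left C2
  have hx0 : ∀ n, 0 ≤ C2 * (c n ^ 2 * W n) := fun n =>
    mul_nonneg hC2.le (mul_nonneg (sq_nonneg _) (hW0 n))
  have hz : ∀ n, (c n * g n) ^ 2 ≤ C2 * (c n ^ 2 * W n) * (ν n * g n ^ 2) := by
    intro n
    by_cases hcn : c n = 0
    · rw [hcn]
      simp
    · obtain ⟨hsq, hn1, hnp, hq⟩ := hc n hcn
      have hn0 : n ≠ 0 := hsq.ne_zero
      have h1 := hpt n hsq (fun q hq' => (hq q hq').1) hn1 hnp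
      have h2 : h ≤ nd d Q n := by
        obtain ⟨q, hqp, hqn⟩ := Nat.exists_prime_and_dvd hn1
        have h3 := (hq q (Nat.mem_primeFactors.2 ⟨hqp, hqn, hn0⟩)).2
        refine h3.trans ?_
        unfold nd
        have h4 : (q : ℝ) ≤ n := by exact_mod_cast Nat.le_of_dvd (Nat.pos_of_ne_zero hn0) hqn
        exact Real.rpow_le_rpow (by positivity) (div_le_div_of_nonneg_right h4 hQpos.le) hκ.le
      have hσn : σ n = sg κ n := by
        simp only [hσ]
        rw [if_pos h2]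
      have hpos : 0 < 1 + Real.log n := by linarith [hlog n]
      have e1 : (1 + Real.log n) ^ (-2 : ℝ) = ((1 + Real.log n) ^ 2)⁻¹ := by
        rw [Real.rpow_neg hpos.le, Real.rpow_two]
      have h5 : 1 ≤ C2 * W n * ν n := by
        have h6 : (1 + Real.log n) ^ 2 * ((1 + Real.log n) ^ 2)⁻¹ ≤
            C2 * sg κ n * ((n : ℝ) ^ κ * W n) * ((1 + Real.log n) ^ 2)⁻¹ :=
          mul_le_mul_of_nonneg_right h1 (by positivity)
        rw [mul_inv_cancel₀ (by positivity)] at h6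
        have e2 : C2 * W n * ν n = C2 * sg κ n * ((n : ℝ) ^ κ * W n) *
            ((1 + Real.log n) ^ 2)⁻¹ := by
          show C2 * W n * (σ n * ((n : ℝ) ^ κ * (1 + Real.log n) ^ (-2 : ℝ))) = _
          rw [hσn, e1]
          ring
        rw [e2]
        exact h6
      have h7 : (c n * g n) ^ 2 * 1 ≤ (c n * g n) ^ 2 * (C2 * W n * ν n) :=
        mul_le_mul_of_nonneg_left h5 (sq_nonneg _)
      calc (c n * g n) ^ 2 = (c n * g n) ^ 2 * 1 := by ring
        _ ≤ (c n * g n) ^ 2 * (C2 * W n * ν n) := h7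
        _ = _ := by ring
  obtain ⟨hs1, hs2⟩ := cf_cs hx0 hy0 hz hxs hys
  refine ⟨hs1, ?_⟩
  rw [tsum_mul_left] at hs2
  set S : ℝ := ∑' n, c n ^ 2 * W n with hS
  have hS0 : 0 ≤ S := tsum_nonneg fun n => mul_nonneg (sq_nonneg _) (hW0 n)
  have hQp : 0 ≤ Q ^ (1 + κ) := Real.rpow_nonneg hQpos.le _
  calc ENNReal.ofReal ((∑' n, c n * g n) ^ 2)
      ≤ ENNReal.ofReal (C2 * S * ∑' n, ν n * g n ^ 2) := ENNReal.ofReal_le_ofReal hs2
    _ = ENNReal.ofReal (C2 * S) * ENNReal.ofReal (∑' n, ν n * g n ^ 2) :=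
      ENNReal.ofReal_mul (by positivity)
    _ = ENNReal.ofReal (C2 * S) * ∑' n : ℕ, ENNReal.ofReal (ν n * g n ^ 2) := by rw [hyt]
    _ ≤ ENNReal.ofReal (C2 * S) * (ENNReal.ofReal (C1 * A * Q ^ (1 + κ)) *
        NQ d Q (pr (d / 2) f)) := by gcongr
    _ = ENNReal.ofReal (C2 * S * (C1 * A * Q ^ (1 + κ))) * NQ d Q (pr (d / 2) f) := by
      rw [← mul_assoc, ← ENNReal.ofReal_mul (by positivity)]
    _ = ENNReal.ofReal (C2 * (C1 * A) * Q ^ (1 + κ) * S) * NQ d Q (pr (d / 2) f) := by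
      congr 2
      ring

end Pool.Agent.H97.EP

end

section

/-!
# Project EP, module `CH` : one Newton step

`κ = 2/d`, `R_a(f) = ∑ a(n) p(u_n)`, `p = pr (d/2) f`, `u_n = nd d Q n` (linear in `f`: `Rf`, for
`|a| ≤ 1`, `aa_abs_le_one`).  Take `h`, `C` from `solver`, `C'` from `comp_bound` for this `h`,
`Q0` the maximum of the thresholds (`solver`, `comp_bound`, `nd_three`), `K = max(1, 8C, 24 C C')`
(any large constant).
`solver` with `L = -R_{aa α}`, `M` gives `β`; `h ≤ nd d Q n` implies `3 ≤ n` (`nd_three`);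
`Sβ = ∑ 8 β^2 n^{-κ} log n ≤ 8 C Q^{-(1+κ)} M ≤ K Q^{-(1+κ)} M ≤ 1`.
Let `D n = aa (α+β) n - aa α n`: `D 1 = 0`, `D p = β p` for primes, so if `|α+β| ≤ 1`,
`R_{aa(α+β)}(f) - R_{aa α}(f) = ∑_{p} β p p(u_p) + ∑_{n comp} D n p(u_n) = -R_{aa α}(f) + ∑_{comp}`
(all sums absolutely convergent: `pr_nd_summable`, `HasSum` from `solver`, `β` is supported on
primes).  So `R_{aa(α+β)}(f) = ∑_n c n p(u_n)`, `c n = if n = 1 ∨ n.Prime then 0 else D n`.
If `c n ≠ 0` then `n` is squarefree, and every prime factor `q` has `α q + β q ≠ 0` or `α q ≠ 0`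
(`aa_ne_zero`), hence `3 ≤ q`, `h ≤ nd d Q q`.  `comp_bound` and `lip` (note
`c n^2 aa W n = if .. then 0 else D^2 aa W`):
`|R|^2 ≤ C' Q^{1+κ} · 3 Sβ (Sα + Sβ) N ≤ 3 C' (8 C M)(S + K Q^{-(1+κ)} M) N`.
-/

set_option autoImplicit false
open MeasureTheory Set
open scoped ENNReal

namespace Pool.Agent.H97.EP

private theorem ch_decomp {α β : ℕ → ℝ} (hβ : ∀ n, β n ≠ 0 → n.Prime) (n : ℕ) :
    aa (fun p => α p + β p) n = aa α n + β n +
      (if n = 1 ∨ n.Prime then 0 else aa (fun p => α p + β p) n - aa α n) := by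
  by_cases h1 : n = 1
  · subst h1
    have hb : β 1 = 0 := by
      by_contra h
      exact Nat.not_prime_one (hβ 1 h)
    rw [if_pos (Or.inl rfl), aa_one, aa_one, hb]
    ring
  · by_cases h2 : n.Prime
    · rw [if_pos (Or.inr h2), aa_prime _ h2, aa_prime _ h2]
      ring
    · have hb : β n = 0 := by
        by_contra h
        exact h2 (hβ n h)
      rw [if_neg (by tauto), hb]
      ring

theorem step {d θ : ℝ} (hd : 4 < d) (hP : PrimesIn θ) (hθ : θ ≤ 1 - 2 / d) :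
    ∃ h K Q0 : ℝ, 0 < h ∧ 1 ≤ K ∧ 1 ≤ Q0 ∧ ∀ Q : ℝ, Q0 ≤ Q → ∀ (α : ℕ → ℝ) (M S : ℝ),
    (∀ n, α n ≠ 0 → n.Prime ∧ 3 ≤ n ∧ h ≤ nd d Q n) → (∀ n, |α n| ≤ 1) →
    (Summable fun q : ℕ => 8 * α q ^ 2 * ((q : ℝ) ^ (-(2 / d)) * Real.log q)) →
    ∑' q : ℕ, 8 * α q ^ 2 * ((q : ℝ) ^ (-(2 / d)) * Real.log q) ≤ S → S ≤ 1 → 0 ≤ M →
    K * Q ^ (-(1 + 2 / d)) * M ≤ 1 →
    (∀ f : VR, ENNReal.ofReal ((∑' n : ℕ, aa α n * pr (d / 2) f (nd d Q n)) ^ 2) ≤
      ENNReal.ofReal M * NQ d Q (pr (d / 2) f)) →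
    ∃ β : ℕ → ℝ, (∀ n, β n ≠ 0 → n.Prime ∧ 3 ≤ n ∧ h ≤ nd d Q n) ∧
      (Summable fun q : ℕ => 8 * β q ^ 2 * ((q : ℝ) ^ (-(2 / d)) * Real.log q)) ∧
      ∑' q : ℕ, 8 * β q ^ 2 * ((q : ℝ) ^ (-(2 / d)) * Real.log q) ≤
        K * Q ^ (-(1 + 2 / d)) * M ∧
      (∀ n : ℕ, |β n| ≤ K * Q ^ (-(2 / d) - 1 / 2) * (n : ℝ) ^ (2 / d - 1 / 2) * Real.sqrt M) ∧
      ((∀ n, |α n + β n| ≤ 1) → ∀ f : VR,
        ENNReal.ofReal ((∑' n : ℕ, aa (fun p => α p + β p) n * pr (d / 2) f (nd d Q n)) ^ 2) ≤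
          ENNReal.ofReal (K * (S + K * Q ^ (-(1 + 2 / d)) * M) * M) * NQ d Q (pr (d / 2) f)) := by
  have hd2 : 2 < d := by linarith
  have hκ : 0 ≤ 2 / d := by positivity
  obtain ⟨h, Q1, C, hh, hh1, hQ1, hC, hsol⟩ := solver hd hP hθ
  obtain ⟨C', Q2, hC', hQ2, hcomp⟩ := comp_bound hd hh hh1
  obtain ⟨Q3, hQ3, hthree⟩ := nd_three hd2 hh
  have hCC : 0 < C * C' := mul_pos hC hC'
  set K : ℝ := 1 + 8 * C + 24 * (C * C') with hK
  have hK1 : 1 ≤ K := by nlinarith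
  have hK8 : 8 * C ≤ K := by nlinarith
  have hKC : C ≤ K := by nlinarith
  have hK24 : 24 * (C * C') ≤ K := by nlinarith
  refine ⟨h, K, max Q1 (max Q2 Q3), hh, hK1, hQ1.trans (le_max_left _ _), ?_⟩
  intro Q hQ α M S hα hα1 sα hSα hS1 hM hKM hfun
  have hQ1' : Q1 ≤ Q := (le_max_left _ _).trans hQ
  have hQ2' : Q2 ≤ Q := (le_max_left _ _).trans ((le_max_right _ _).trans hQ)
  have hQ3' : Q3 ≤ Q := (le_max_right _ _).trans ((le_max_right _ _).trans hQ)
  have hQpos : 0 < Q := lt_of_lt_of_le one_pos (hQ1.trans hQ1')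
  have haα : ∀ n, |aa α n| ≤ 1 := aa_abs_le_one hα1
  set X : ℝ := Q ^ (-(1 + 2 / d)) with hX
  have hXpos : 0 < X := Real.rpow_pos_of_pos hQpos _
  obtain ⟨β, hβ, sβ, hSβ, hβpt, hβsum⟩ := hsol Q hQ1' (-(Rf hd2 hQpos (aa α) haα)) M hM (by
    intro f
    have h1 : (-(Rf hd2 hQpos (aa α) haα)) f = -(∑' n : ℕ, aa α n * pr (d / 2) f (nd d Q n)) := by
      rw [LinearMap.neg_apply, Rf_apply]
    rw [h1, neg_sq]
    exact hfun f)
  have hβ' : ∀ n, β n ≠ 0 → n.Prime ∧ 3 ≤ n ∧ h ≤ nd d Q n := fun n hn =>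
    ⟨(hβ n hn).1, hthree Q hQ3' n (hβ n hn).2, (hβ n hn).2⟩
  have sβ8 : Summable fun q : ℕ => 8 * β q ^ 2 * ((q : ℝ) ^ (-(2 / d)) * Real.log q) := by
    refine (sβ.mul_left 8).congr fun q => ?_
    ring
  have hβ8 : ∑' q : ℕ, 8 * β q ^ 2 * ((q : ℝ) ^ (-(2 / d)) * Real.log q) =
      8 * ∑' q : ℕ, β q ^ 2 * ((q : ℝ) ^ (-(2 / d)) * Real.log q) := by
    rw [← tsum_mul_left]
    exact tsum_congr fun q => by ring
  have hSβ8 : ∑' q : ℕ, 8 * β q ^ 2 * ((q : ℝ) ^ (-(2 / d)) * Real.log q) ≤ 8 * C * X * M := by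
    rw [hβ8]
    calc 8 * ∑' q : ℕ, β q ^ 2 * ((q : ℝ) ^ (-(2 / d)) * Real.log q) ≤ 8 * (C * X * M) :=
          mul_le_mul_of_nonneg_left hSβ (by norm_num)
      _ = 8 * C * X * M := by ring
  have hXM : 0 ≤ X * M := mul_nonneg hXpos.le hM
  have hSβK : ∑' q : ℕ, 8 * β q ^ 2 * ((q : ℝ) ^ (-(2 / d)) * Real.log q) ≤ K * X * M := by
    refine hSβ8.trans ?_
    calc 8 * C * X * M = 8 * C * (X * M) := by ring
      _ ≤ K * (X * M) := mul_le_mul_of_nonneg_right hK8 hXM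
      _ = K * X * M := by ring
  refine ⟨β, hβ', sβ8, hSβK, ?_, ?_⟩
  · intro n
    refine (hβpt n).trans ?_
    have h1 : 0 ≤ Q ^ (-(2 / d) - 1 / 2) * (n : ℝ) ^ (2 / d - 1 / 2) * Real.sqrt M := by
      have := Real.rpow_nonneg hQpos.le (-(2 / d) - 1 / 2)
      have := Real.rpow_nonneg (Nat.cast_nonneg n : (0 : ℝ) ≤ n) (2 / d - 1 / 2)
      positivity
    calc C * Q ^ (-(2 / d) - 1 / 2) * (n : ℝ) ^ (2 / d - 1 / 2) * Real.sqrt M
        = C * (Q ^ (-(2 / d) - 1 / 2) * (n : ℝ) ^ (2 / d - 1 / 2) * Real.sqrt M) := by ring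
      _ ≤ K * (Q ^ (-(2 / d) - 1 / 2) * (n : ℝ) ^ (2 / d - 1 / 2) * Real.sqrt M) :=
          mul_le_mul_of_nonneg_right hKC h1
      _ = K * Q ^ (-(2 / d) - 1 / 2) * (n : ℝ) ^ (2 / d - 1 / 2) * Real.sqrt M := by ring
  · intro hαβ f
    have haαβ : ∀ n, |aa (fun p => α p + β p) n| ≤ 1 := aa_abs_le_one hαβ
    set c : ℕ → ℝ := fun n => if n = 1 ∨ n.Prime then 0 else
      aa (fun p => α p + β p) n - aa α n with hc
    have hdec : ∀ n, aa (fun p => α p + β p) n = aa α n + β n + c n :=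
      ch_decomp fun n hn => (hβ n hn).1
    -- summability
    have hps := pr_nd_summable hd2 hQpos (d / 2) f
    have hbdd : ∀ a : ℕ → ℝ, (∀ n, |a n| ≤ 1) →
        Summable fun n : ℕ => a n * pr (d / 2) f (nd d Q n) := by
      intro a ha
      refine Summable.of_norm_bounded hps fun n => ?_
      rw [Real.norm_eq_abs, abs_mul]
      calc |a n| * |pr (d / 2) f (nd d Q n)| ≤ 1 * |pr (d / 2) f (nd d Q n)| :=
            mul_le_mul_of_nonneg_right (ha n) (abs_nonneg _)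
        _ = |pr (d / 2) f (nd d Q n)| := one_mul _
    have s1 := hbdd _ haαβ
    have s2 := hbdd _ haα
    have s3 := (hβsum f).summable
    have s4 : Summable fun n : ℕ => c n * pr (d / 2) f (nd d Q n) := by
      refine ((s1.sub s2).sub s3).congr fun n => ?_
      rw [hdec n]
      ring
    have hsum : ∑' n : ℕ, aa (fun p => α p + β p) n * pr (d / 2) f (nd d Q n) =
        ∑' n : ℕ, c n * pr (d / 2) f (nd d Q n) := by
      have h1 : ∑' n : ℕ, aa (fun p => α p + β p) n * pr (d / 2) f (nd d Q n) =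
          ∑' n : ℕ, (aa α n * pr (d / 2) f (nd d Q n) + β n * pr (d / 2) f (nd d Q n) +
            c n * pr (d / 2) f (nd d Q n)) := by
        refine tsum_congr fun n => ?_
        rw [hdec n]
        ring
      rw [h1, (s2.add s3).tsum_add s4, s2.tsum_add s3, (hβsum f).tsum_eq,
        LinearMap.neg_apply, Rf_apply]
      ring
    have hcne : ∀ n, c n ≠ 0 → Squarefree n ∧ n ≠ 1 ∧ ¬ n.Prime ∧
        ∀ q ∈ n.primeFactors, 3 ≤ q ∧ h ≤ nd d Q q := by
      intro n hn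
      have hn' : ¬ (n = 1 ∨ n.Prime) := by
        intro hcon
        apply hn
        simp only [hc]
        rw [if_pos hcon]
      have hval : c n = aa (fun p => α p + β p) n - aa α n := by
        simp only [hc]
        rw [if_neg hn']
      have hor : aa (fun p => α p + β p) n ≠ 0 ∨ aa α n ≠ 0 := by
        by_contra hcon
        push Not at hcon
        rw [hval, hcon.1, hcon.2, sub_zero] at hn
        exact hn rfl
      have hgood : ∀ q, (α q ≠ 0 ∨ β q ≠ 0) → 3 ≤ q ∧ h ≤ nd d Q q := by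
        intro q hq
        rcases hq with hq | hq
        · exact (hα q hq).2
        · exact (hβ' q hq).2
      refine ⟨?_, fun h1 => hn' (Or.inl h1), fun h1 => hn' (Or.inr h1), ?_⟩
      · rcases hor with h1 | h1
        · exact (aa_ne_zero h1).1
        · exact (aa_ne_zero h1).1
      · intro q hq
        apply hgood
        rcases hor with h1 | h1
        · have h2 := (aa_ne_zero h1).2.2 q hq
          by_contra hcon
          push Not at hcon
          exact h2 (by rw [hcon.1, hcon.2, add_zero])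
        · exact Or.inl ((aa_ne_zero h1).2.2 q hq)
    obtain ⟨slip, hlip⟩ := lip hκ (fun n hn => ⟨(hα n hn).1, (hα n hn).2.1⟩)
      (fun n hn => ⟨(hβ' n hn).1, (hβ' n hn).2.1⟩) sα sβ8 (hSα.trans hS1) (hSβK.trans hKM)
    have hcsq : ∀ n : ℕ, c n ^ 2 * aa (fun q => 4 * ((q : ℝ) ^ (-(2 / d)) * Real.log q)) n =
        if n = 1 ∨ n.Prime then 0 else
          (aa (fun p => α p + β p) n - aa α n) ^ 2 *
            aa (fun q => 4 * ((q : ℝ) ^ (-(2 / d)) * Real.log q)) n := by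
      intro n
      simp only [hc]
      split_ifs
      · ring
      · rfl
    have sc : Summable fun n : ℕ => c n ^ 2 *
        aa (fun q => 4 * ((q : ℝ) ^ (-(2 / d)) * Real.log q)) n :=
      slip.congr fun n => (hcsq n).symm
    have hcs : ∑' n : ℕ, c n ^ 2 * aa (fun q => 4 * ((q : ℝ) ^ (-(2 / d)) * Real.log q)) n ≤
        3 * (∑' q : ℕ, 8 * β q ^ 2 * ((q : ℝ) ^ (-(2 / d)) * Real.log q)) *
        ((∑' q : ℕ, 8 * α q ^ 2 * ((q : ℝ) ^ (-(2 / d)) * Real.log q)) +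
          ∑' q : ℕ, 8 * β q ^ 2 * ((q : ℝ) ^ (-(2 / d)) * Real.log q)) := by
      rw [tsum_congr hcsq]
      exact hlip
    obtain ⟨-, hfin⟩ := hcomp Q hQ2' c hcne sc f
    rw [hsum]
    refine hfin.trans ?_
    refine mul_le_mul_left ?_ _
    apply ENNReal.ofReal_le_ofReal
    -- the numerical estimate
    have hSβ0 : 0 ≤ ∑' q : ℕ, 8 * β q ^ 2 * ((q : ℝ) ^ (-(2 / d)) * Real.log q) := by
      refine tsum_nonneg fun q => ?_
      have := Real.rpow_nonneg (Nat.cast_nonneg q : (0 : ℝ) ≤ q) (-(2 / d))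
      have := Real.log_natCast_nonneg q
      positivity
    have hSα0 : 0 ≤ ∑' q : ℕ, 8 * α q ^ 2 * ((q : ℝ) ^ (-(2 / d)) * Real.log q) := by
      refine tsum_nonneg fun q => ?_
      have := Real.rpow_nonneg (Nat.cast_nonneg q : (0 : ℝ) ≤ q) (-(2 / d))
      have := Real.log_natCast_nonneg q
      positivity
    set Sβ := ∑' q : ℕ, 8 * β q ^ 2 * ((q : ℝ) ^ (-(2 / d)) * Real.log q)
    set Sα := ∑' q : ℕ, 8 * α q ^ 2 * ((q : ℝ) ^ (-(2 / d)) * Real.log q)
    have hQX : Q ^ (1 + 2 / d) * X = 1 := by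
      rw [hX, Real.rpow_neg hQpos.le]
      exact mul_inv_cancel₀ (Real.rpow_pos_of_pos hQpos _).ne'
    have hY : 0 < Q ^ (1 + 2 / d) := Real.rpow_pos_of_pos hQpos _
    have h1 : Sα + Sβ ≤ S + K * X * M := add_le_add hSα hSβK
    have h2 : 3 * Sβ * (Sα + Sβ) ≤ 3 * (8 * C * X * M) * (S + K * X * M) := by
      apply mul_le_mul (mul_le_mul_of_nonneg_left hSβ8 (by norm_num)) h1 (by positivity)
      have : 0 ≤ 8 * C * (X * M) := by positivity
      nlinarith
    have hSnn : 0 ≤ S + K * X * M := le_trans (by positivity) h1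
    calc C' * Q ^ (1 + 2 / d) *
          ∑' n : ℕ, c n ^ 2 * aa (fun q => 4 * ((q : ℝ) ^ (-(2 / d)) * Real.log q)) n
        ≤ C' * Q ^ (1 + 2 / d) * (3 * (8 * C * X * M) * (S + K * X * M)) :=
          mul_le_mul_of_nonneg_left (hcs.trans h2) (by positivity)
      _ = 24 * (C * C') * (Q ^ (1 + 2 / d) * X) * ((S + K * X * M) * M) := by ring
      _ = 24 * (C * C') * ((S + K * X * M) * M) := by rw [hQX, mul_one]
      _ ≤ K * ((S + K * X * M) * M) :=
          mul_le_mul_of_nonneg_right hK24 (mul_nonneg hSnn hM)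
      _ = K * (S + K * X * M) * M := by ring

end Pool.Agent.H97.EP

end

section

/-!
# Project EP, module `CI` : the Newton iteration

`κ = 2/d < 1/2`.  Let `h, K, Q0` be as in `step`, `Cs` as in `seed` (`≥ 1` w.l.o.g.), and take one
large `Q ≥ Q0`; `M_i = Cs Q 16^{-i}`, `q_i = ∑_{j<i} 4^{-j} ≤ 4/3`,
`A = (K Cs)^{1/2} Q^{-κ/2}`, `B(n) = K Q^{-κ-1/2} n^{κ-1/2} (Cs Q)^{1/2} = K Cs^{1/2} Q^{-κ} n^{κ-1/2}`.
`Q` so large that `K Q^{-(1+κ)} Cs Q ≤ 1`, `(4/3)^2 A^2 ≤ 1`,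
`K ((4/3)^2 A^2 + K Cs Q^{-κ}) ≤ 1/16` and `(4/3) K Cs^{1/2} Q^{-κ} ≤ 1`.
Construct `α_0 = 0, α_{i+1} = α_i + β_i` with, for all `i`,
(a) support as in `step`; (b) `|α_i n| ≤ B(n) q_i` (so `≤ 1` for `n ≥ 1`; `α_i 0 = 0`);
(c) `S(α_i)^{1/2} ≤ A q_i` where `S(α) = ∑ 8 α^2 n^{-κ} log n` (triangle inequality in `ℓ²`:
    Minkowski), so `S(α_i) ≤ (4/3)^2 A^2 ≤ 1`;
(d) `|R_i(f)|^2 ≤ M_i N(f)`: for `i = 0` this is `seed` (`aa 0 n = 1` for `n = 1`, `0` otherwise);
    the step gives `K (S + K Q^{-(1+κ)} M_i) M_i ≤ M_i/16 = M_{i+1}`;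
(e) `|α_{i+1} n - α_i n| ≤ B(n) 4^{-i}`.
(Apply `step` with `S = (4/3)^2 A^2`, `M = M_i`: `S(β_i) ≤ K Q^{-(1+κ)} M_i = A^2 16^{-i}`,
`√M_i = (Cs Q)^{1/2} 4^{-i}`.  To construct the sequence use a subtype and `Nat.rec`, or
`exists_seq_of_forall_exists`-style choice.)
Limit: `α n = lim α_i n` exists by (e) (geometric); `|α n| ≤ 1`; `α n ≠ 0` implies `α_i n ≠ 0` for some
`i`, so `n` is a prime `≥ 3`.  For finite `F`, `∑_{n∈F} 8 α^2 n^{-κ} log n = lim ≤ 1`, hence summable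
(`summable_of_sum_le`), and `log n ≥ 1` on the support gives `Summable (α^2 n^{-κ})`.
`aa α_i n → aa α n` for every `n` (finite products), `|aa| ≤ 1`, `∑ |p(u_n)| < ∞`
(`pr_nd_summable`): `tendsto_tsum_of_dominated_convergence` gives
`R_{aa α}(f) = lim R_i(f)`, and `|R_i(f)|^2 ≤ M_i N(f) → 0` (`NQ_lt_top`).
-/

set_option autoImplicit false
open MeasureTheory Set Filter Topology
open scoped ENNReal

namespace Pool.Agent.H97.EP

/-- The weight `8 q^{-κ} log q`. -/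
private noncomputable def ciW (d : ℝ) (q : ℕ) : ℝ := (q : ℝ) ^ (-(2 / d)) * Real.log q

private theorem ciW_nonneg (d : ℝ) (q : ℕ) : 0 ≤ ciW d q :=
  mul_nonneg (Real.rpow_nonneg (Nat.cast_nonneg q) _) (Real.log_natCast_nonneg q)

/-- Minkowski's inequality in the form needed here. -/
private theorem ci_mink {d : ℝ} {x y : ℕ → ℝ} {T a b : ℝ} (ha : 0 < a) (hb : 0 < b)
    (sx : Summable fun q : ℕ => 8 * x q ^ 2 * ciW d q)
    (sy : Summable fun q : ℕ => 8 * y q ^ 2 * ciW d q)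
    (hx : ∑' q : ℕ, 8 * x q ^ 2 * ciW d q ≤ T * a ^ 2)
    (hy : ∑' q : ℕ, 8 * y q ^ 2 * ciW d q ≤ T * b ^ 2) :
    (Summable fun q : ℕ => 8 * (x q + y q) ^ 2 * ciW d q) ∧
      ∑' q : ℕ, 8 * (x q + y q) ^ 2 * ciW d q ≤ T * (a + b) ^ 2 := by
  have key : ∀ q : ℕ, 8 * (x q + y q) ^ 2 * ciW d q ≤
      (1 + b / a) * (8 * x q ^ 2 * ciW d q) + (1 + a / b) * (8 * y q ^ 2 * ciW d q) := by
    intro q
    have h1 : (x q + y q) ^ 2 ≤ (1 + b / a) * x q ^ 2 + (1 + a / b) * y q ^ 2 := by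
      have h2 : 0 ≤ (b * x q - a * y q) ^ 2 / (a * b) := by positivity
      have h3 : (b * x q - a * y q) ^ 2 / (a * b) =
          b / a * x q ^ 2 + a / b * y q ^ 2 - 2 * x q * y q := by
        field_simp
        ring
      rw [h3] at h2
      nlinarith only [h2]
    have h4 := mul_le_mul_of_nonneg_right h1 (mul_nonneg (by norm_num : (0 : ℝ) ≤ 8) (ciW_nonneg d q))
    calc 8 * (x q + y q) ^ 2 * ciW d q = (x q + y q) ^ 2 * (8 * ciW d q) := by ring
      _ ≤ ((1 + b / a) * x q ^ 2 + (1 + a / b) * y q ^ 2) * (8 * ciW d q) := h4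
      _ = _ := by ring
  have s := (sx.mul_left (1 + b / a)).add (sy.mul_left (1 + a / b))
  have s' : Summable fun q : ℕ => 8 * (x q + y q) ^ 2 * ciW d q :=
    Summable.of_nonneg_of_le (fun q => mul_nonneg (by positivity) (ciW_nonneg d q)) key s
  refine ⟨s', ?_⟩
  calc ∑' q : ℕ, 8 * (x q + y q) ^ 2 * ciW d q
      ≤ ∑' q : ℕ, ((1 + b / a) * (8 * x q ^ 2 * ciW d q) + (1 + a / b) * (8 * y q ^ 2 * ciW d q)) :=
        s'.tsum_le_tsum key s
    _ = (1 + b / a) * ∑' q : ℕ, 8 * x q ^ 2 * ciW d q +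
        (1 + a / b) * ∑' q : ℕ, 8 * y q ^ 2 * ciW d q := by
        rw [(sx.mul_left _).tsum_add (sy.mul_left _), tsum_mul_left, tsum_mul_left]
    _ ≤ (1 + b / a) * (T * a ^ 2) + (1 + a / b) * (T * b ^ 2) :=
        add_le_add (mul_le_mul_of_nonneg_left hx (by positivity))
          (mul_le_mul_of_nonneg_left hy (by positivity))
    _ = T * (a + b) ^ 2 := by
        field_simp
        ring

private theorem ci_aa_zero (n : ℕ) : aa (fun _ => (0 : ℝ)) n = if n = 1 then 1 else 0 := by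
  split_ifs with h
  · rw [h, aa_one]
  · by_contra hne
    obtain ⟨-, h0, hp⟩ := aa_ne_zero hne
    have hex : (n.primeFactors).Nonempty := Nat.nonempty_primeFactors.2 (by omega)
    obtain ⟨p, hp'⟩ := hex
    exact hp p hp' rfl

/-- The conditions on the `i`-th approximation. -/
private def CiP (d h Q b T Cs : ℝ) (i : ℕ) (α : ℕ → ℝ) : Prop :=
  (∀ n, α n ≠ 0 → n.Prime ∧ 3 ≤ n ∧ h ≤ nd d Q n) ∧
  (∀ n, |α n| ≤ b * (3 - 2 * (1 / 4) ^ i)) ∧
  (Summable fun q : ℕ => 8 * α q ^ 2 * ciW d q) ∧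
  (∑' q : ℕ, 8 * α q ^ 2 * ciW d q ≤ T * (3 - 2 * (1 / 4) ^ i) ^ 2) ∧
  ∀ f : VR, ENNReal.ofReal ((∑' n : ℕ, aa α n * pr (d / 2) f (nd d Q n)) ^ 2) ≤
      ENNReal.ofReal (Cs * Q * (1 / 16) ^ i) * NQ d Q (pr (d / 2) f)

private theorem ci_pow_bounds (i : ℕ) : 0 < (1 / 4 : ℝ) ^ i ∧ (1 / 4 : ℝ) ^ i ≤ 1 :=
  ⟨by positivity, pow_le_one₀ (by norm_num) (by norm_num)⟩

private theorem ci_zero {d h Q b T Cs : ℝ} (hb : 0 ≤ b) (hT : 0 ≤ T)
    (hseed : ∀ f : VR, ENNReal.ofReal (pr (d / 2) f (nd d Q 1) ^ 2) ≤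
      ENNReal.ofReal (Cs * Q) * NQ d Q (pr (d / 2) f)) :
    CiP d h Q b T Cs 0 (fun _ => 0) := by
  refine ⟨fun n hn => absurd rfl hn, ?_, ?_, ?_, ?_⟩
  · intro n
    norm_num
    exact hb
  · simp
  · norm_num
    exact hT
  · intro f
    have h1 : ∑' n : ℕ, aa (fun _ => (0 : ℝ)) n * pr (d / 2) f (nd d Q n) =
        pr (d / 2) f (nd d Q 1) := by
      rw [tsum_eq_single 1]
      · rw [ci_aa_zero, if_pos rfl, one_mul]
      · intro n hn
        rw [ci_aa_zero, if_neg hn, zero_mul]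
    rw [h1]
    simpa using hseed f

theorem exists_alpha {d θ : ℝ} (hd : 4 < d) (hP : PrimesIn θ) (hθ : θ ≤ 1 - 2 / d) :
    ∃ (Q : ℝ) (α : ℕ → ℝ), 1 ≤ Q ∧ (∀ n, α n ≠ 0 → n.Prime ∧ 3 ≤ n) ∧ (∀ n, |α n| ≤ 1) ∧
      (Summable fun n : ℕ => α n ^ 2 * (n : ℝ) ^ (-(2 / d))) ∧
      ∀ f : VR, ∑' n : ℕ, aa α n * pr (d / 2) f (nd d Q n) = 0 := by
  have hd0 : 0 < d := by linarith
  have hd2 : 2 < d := by linarith
  have hκ : 0 < 2 / d := by positivity
  have hκ2 : 2 / d < 1 / 2 := by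
    rw [div_lt_div_iff₀ hd0 (by norm_num)]
    linarith
  obtain ⟨h, K, Q0, hh, hK, hQ0, hstep⟩ := step hd hP hθ
  obtain ⟨Cs, hCs, hseed⟩ := seed hd
  -- choice of `Q`
  have hTpos : 0 < K ^ 2 * (1 + Cs) := by positivity
  obtain ⟨Q, hQε, hQQ0⟩ : ∃ Q : ℝ, Q ^ (-(2 / d)) ≤ 1 / (256 * (K ^ 2 * (1 + Cs))) ∧ Q0 ≤ Q := by
    have h1 := tendsto_rpow_neg_atTop hκ
    have h2 : ∀ᶠ Q : ℝ in atTop, Q ^ (-(2 / d)) < 1 / (256 * (K ^ 2 * (1 + Cs))) :=
      h1.eventually (gt_mem_nhds (by positivity))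
    obtain ⟨Q, hQ⟩ := (h2.and (eventually_ge_atTop Q0)).exists
    exact ⟨Q, hQ.1.le, hQ.2⟩
  have hQ1 : 1 ≤ Q := hQ0.trans hQQ0
  have hQpos : 0 < Q := by linarith only [hκ, hκ2, hQ0, hQQ0]
  set ε : ℝ := Q ^ (-(2 / d)) with hε
  have hεpos : 0 < ε := Real.rpow_pos_of_pos hQpos _
  have hTε : K ^ 2 * (1 + Cs) * ε ≤ 1 / 256 := by
    calc K ^ 2 * (1 + Cs) * ε ≤ K ^ 2 * (1 + Cs) * (1 / (256 * (K ^ 2 * (1 + Cs)))) :=
          mul_le_mul_of_nonneg_left hQε hTpos.le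
      _ = 1 / 256 := by field_simp
  have hKK : K ≤ K ^ 2 := by nlinarith only [hK]
  set T : ℝ := K * Cs * ε with hT
  have hTnn : 0 ≤ T := by positivity
  have hKT : K * T ≤ 1 / 256 := by
    refine le_trans ?_ hTε
    have : K * T = K ^ 2 * Cs * ε := by rw [hT]; ring
    rw [this]
    apply mul_le_mul_of_nonneg_right _ hεpos.le
    nlinarith only [hκ, hκ2, hK, hKK, sq_nonneg K]
  have hTle : T ≤ 1 / 256 := by nlinarith only [hKT, hκ, hκ2, hK, hTnn]
  have hsqrt : Real.sqrt Cs ≤ 1 + Cs := by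
    rw [Real.sqrt_le_left (by linarith only [hκ, hκ2, hCs])]
    nlinarith only [hκ, hκ2, hCs]
  set b : ℝ := K * Real.sqrt Cs * ε with hb
  have hbnn : 0 ≤ b := by positivity
  have hble : b ≤ 1 / 256 := by
    refine le_trans ?_ hTε
    rw [hb]
    apply mul_le_mul_of_nonneg_right _ hεpos.le
    calc K * Real.sqrt Cs ≤ K * (1 + Cs) := mul_le_mul_of_nonneg_left hsqrt (by linarith only [hκ, hκ2, hK])
      _ ≤ K ^ 2 * (1 + Cs) := mul_le_mul_of_nonneg_right hKK (by linarith only [hκ, hκ2, hCs])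
  have hXQ : Q ^ (-(1 + 2 / d)) * Q = ε := by
    rw [hε]
    nth_rewrite 2 [← Real.rpow_one Q]
    rw [← Real.rpow_add hQpos]
    congr 1
    ring
  have hXMi : ∀ i : ℕ, K * Q ^ (-(1 + 2 / d)) * (Cs * Q * (1 / 16) ^ i) =
      T * ((1 / 4) ^ i) ^ 2 := by
    intro i
    have h1 : ((1 / 4 : ℝ) ^ i) ^ 2 = (1 / 16) ^ i := by
      rw [← pow_mul, mul_comm, pow_mul]
      norm_num
    rw [h1, hT, ← hXQ]
    ring
  -- the induction step
  have hind : ∀ (i : ℕ) (α : ℕ → ℝ), CiP d h Q b T Cs i α →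
      ∃ α' : ℕ → ℝ, CiP d h Q b T Cs (i + 1) α' ∧ ∀ n, |α' n - α n| ≤ b * (1 / 4) ^ i := by
    intro i α hα
    obtain ⟨hsup, hbd, hs, hS, hR⟩ := hα
    obtain ⟨hp0, hp1⟩ := ci_pow_bounds i
    set r : ℝ := (1 / 4 : ℝ) ^ i with hr
    have hr1 : (1 / 4 : ℝ) ^ (i + 1) = r / 4 := by
      rw [pow_succ, hr]
      ring
    have h16 : (1 / 16 : ℝ) ^ (i + 1) = (1 / 16) ^ i / 16 := by
      rw [pow_succ]
      ring
    have h16r : ((1 / 16 : ℝ)) ^ i = r ^ 2 := by
      rw [hr, ← pow_mul, mul_comm, pow_mul]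
      norm_num
    have hα1 : ∀ n, |α n| ≤ 1 := by
      intro n
      refine (hbd n).trans ?_
      nlinarith only [hκ, hκ2, hble, hp0, hbnn, hp1]
    have hMnn : 0 ≤ Cs * Q * (1 / 16 : ℝ) ^ i := by positivity
    have h9 : (3 - 2 * r) ^ 2 ≤ 9 := by nlinarith only [hp0, hp1]
    have h9T : T * (3 - 2 * r) ^ 2 ≤ 9 * T := by
      calc T * (3 - 2 * r) ^ 2 ≤ T * 9 := mul_le_mul_of_nonneg_left h9 hTnn
        _ = 9 * T := by ring
    obtain ⟨β, hβsup, hβs, hβS, hβpt, hβR⟩ := hstep Q hQQ0 α (Cs * Q * (1 / 16) ^ i) (9 * T) hsup hα1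
      hs (hS.trans h9T) (by linarith only [hκ, hκ2, hTle]) hMnn (by
        rw [hXMi]
        have : r ^ 2 ≤ 1 := by nlinarith only [hp1, hκ, hκ2, hp0]
        nlinarith only [hκ, hκ2, hp1, h9, hTle]) hR
    rw [hXMi] at hβS hβR
    -- the bound for `β`
    have hβb : ∀ n, |β n| ≤ b * r := by
      intro n
      by_cases hn : β n = 0
      · rw [hn, abs_zero]
        positivity
      · refine (hβpt n).trans ?_
        have hn3 : 3 ≤ n := (hβsup n hn).2.1
        have hn1 : (1 : ℝ) ≤ n := by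
          have : 1 ≤ n := by omega
          exact_mod_cast this
        have h1 : (n : ℝ) ^ (2 / d - 1 / 2) ≤ 1 :=
          Real.rpow_le_one_of_one_le_of_nonpos hn1 (by linarith only [hκ2])
        have h2 : Real.sqrt (Cs * Q * (1 / 16) ^ i) = Real.sqrt Cs * Q ^ (1 / 2 : ℝ) * r := by
          rw [h16r, Real.sqrt_mul (by positivity), Real.sqrt_mul hCs.le, Real.sqrt_sq hp0.le,
            Real.sqrt_eq_rpow Q]
        have h3 : Q ^ (-(2 / d) - 1 / 2) * Q ^ (1 / 2 : ℝ) = ε := by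
          rw [← Real.rpow_add hQpos, hε]
          congr 1
          ring
        have h4 : 0 ≤ Q ^ (-(2 / d) - 1 / 2) := Real.rpow_nonneg hQpos.le _
        calc K * Q ^ (-(2 / d) - 1 / 2) * (n : ℝ) ^ (2 / d - 1 / 2) *
              Real.sqrt (Cs * Q * (1 / 16) ^ i)
            ≤ K * Q ^ (-(2 / d) - 1 / 2) * 1 * Real.sqrt (Cs * Q * (1 / 16) ^ i) := by
              apply mul_le_mul_of_nonneg_right _ (Real.sqrt_nonneg _)
              apply mul_le_mul_of_nonneg_left h1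
              positivity
          _ = K * Real.sqrt Cs * (Q ^ (-(2 / d) - 1 / 2) * Q ^ (1 / 2 : ℝ)) * r := by
              rw [h2]
              ring
          _ = b * r := by rw [h3, hb]
    have hbd' : ∀ n, |α n + β n| ≤ b * (3 - 2 * (1 / 4) ^ (i + 1)) := by
      intro n
      calc |α n + β n| ≤ |α n| + |β n| := abs_add_le _ _
        _ ≤ b * (3 - 2 * r) + b * r := add_le_add (hbd n) (hβb n)
        _ ≤ b * (3 - 2 * (1 / 4) ^ (i + 1)) := by
            rw [hr1]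
            nlinarith only [hκ, hκ2, hbnn, hp0]
    have hαβ1 : ∀ n, |α n + β n| ≤ 1 := by
      intro n
      refine (hbd' n).trans ?_
      rw [hr1]
      nlinarith
    refine ⟨fun p => α p + β p, ⟨?_, hbd', ?_, ?_, ?_⟩, ?_⟩
    · intro n hn
      by_cases h1 : α n = 0
      · exact hβsup n (fun h2 => hn (by simp only [h1, h2, add_zero]))
      · exact hsup n h1
    · exact (ci_mink (a := 3 - 2 * r) (b := r) (T := T) (by linarith only [hκ, hκ2, hp1]) hp0 hs hβs hS hβS).1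
    · refine (ci_mink (a := 3 - 2 * r) (b := r) (T := T) (by linarith only [hκ, hκ2, hp1]) hp0 hs hβs hS hβS).2.trans ?_
      rw [hr1]
      apply mul_le_mul_of_nonneg_left _ hTnn
      have h5 : 0 ≤ 3 - 2 * r + r := by linarith only [hκ, hκ2, hp1]
      have h6 : 3 - 2 * r + r ≤ 3 - 2 * (r / 4) := by linarith only [hp0]
      exact pow_le_pow_left₀ h5 h6 2
    · intro f
      refine (hβR hαβ1 f).trans ?_
      refine mul_le_mul_left ?_ _
      apply ENNReal.ofReal_le_ofReal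
      rw [h16]
      have h7 : K * (9 * T + T * r ^ 2) ≤ 1 / 16 := by
        have : r ^ 2 ≤ 1 := by nlinarith only [hp1, hκ, hκ2, hp0]
        have h8 : K * (9 * T + T * r ^ 2) = K * T * (9 + r ^ 2) := by ring
        rw [h8]
        have h9 : 0 ≤ K * T := by positivity
        nlinarith
      calc K * (9 * T + T * r ^ 2) * (Cs * Q * (1 / 16) ^ i)
          ≤ 1 / 16 * (Cs * Q * (1 / 16) ^ i) := mul_le_mul_of_nonneg_right h7 hMnn
        _ = Cs * Q * ((1 / 16) ^ i / 16) := by ring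
    · intro n
      simpa using hβb n
  -- the sequence
  choose g hg1 hg2 using hind
  have h0 : CiP d h Q b T Cs 0 (fun _ => 0) := ci_zero hbnn hTnn (fun f => hseed Q hQ1 f)
  let s' : (i : ℕ) → {α : ℕ → ℝ // CiP d h Q b T Cs i α} := fun i =>
    Nat.rec (motive := fun i => {α : ℕ → ℝ // CiP d h Q b T Cs i α}) ⟨fun _ => 0, h0⟩
      (fun i x => ⟨g i x.1 x.2, hg1 i x.1 x.2⟩) i
  obtain ⟨s, hsP, hsd⟩ : ∃ s : ℕ → ℕ → ℝ, (∀ i, CiP d h Q b T Cs i (s i)) ∧
      ∀ i n, |s (i + 1) n - s i n| ≤ b * (1 / 4) ^ i :=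
    ⟨fun i => (s' i).1, fun i => (s' i).2, fun i n => hg2 i (s' i).1 (s' i).2 n⟩
  have hlim : ∀ n, ∃ a : ℝ, Tendsto (fun i => s i n) atTop (𝓝 a) := by
    intro n
    apply cauchySeq_tendsto_of_complete
    refine cauchySeq_of_le_geometric (1 / 4) b (by norm_num) fun i => ?_
    rw [Real.dist_eq, abs_sub_comm]
    exact hsd i n
  choose α hα using hlim
  have hsabs : ∀ i n, |s i n| ≤ 1 := by
    intro i n
    refine ((hsP i).2.1 n).trans ?_
    obtain ⟨hp0, hp1⟩ := ci_pow_bounds i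
    nlinarith only [hTε, hTnn, hble, hκ, hεpos, hκ2, hK, hKK, hbnn, hp0]
  have hsup : ∀ n, α n ≠ 0 → n.Prime ∧ 3 ≤ n := by
    intro n hn
    by_contra hcon
    apply hn
    have h1 : ∀ i, s i n = 0 := by
      intro i
      by_contra h2
      have := (hsP i).1 n h2
      exact hcon ⟨this.1, this.2.1⟩
    have h2 := hα n
    simp only [h1] at h2
    exact tendsto_nhds_unique h2 tendsto_const_nhds
  have habs : ∀ n, |α n| ≤ 1 := fun n =>
    le_of_tendsto' (hα n).abs fun i => hsabs i n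
  refine ⟨Q, α, hQ1, hsup, habs, ?_, ?_⟩
  · -- summability
    refine summable_of_sum_le (c := 1) (fun n => by
      have := Real.rpow_nonneg (Nat.cast_nonneg n : (0 : ℝ) ≤ n) (-(2 / d))
      positivity) fun F => ?_
    have h1 : ∑ n ∈ F, α n ^ 2 * (n : ℝ) ^ (-(2 / d)) ≤ ∑ n ∈ F, 8 * α n ^ 2 * ciW d n := by
      refine Finset.sum_le_sum fun n _ => ?_
      by_cases hn : α n = 0
      · simp [hn]
      · have hn3 : 3 ≤ n := (hsup n hn).2
        have hlog : 1 ≤ Real.log n := by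
          rw [Real.le_log_iff_exp_le (by positivity)]
          have h3 : (3 : ℝ) ≤ n := by exact_mod_cast hn3
          linarith only [hκ, hκ2, h3, Real.exp_one_lt_d9]
        have h4 : 0 ≤ α n ^ 2 * (n : ℝ) ^ (-(2 / d)) := by
          have := Real.rpow_nonneg (Nat.cast_nonneg n : (0 : ℝ) ≤ n) (-(2 / d))
          positivity
        calc α n ^ 2 * (n : ℝ) ^ (-(2 / d)) = α n ^ 2 * (n : ℝ) ^ (-(2 / d)) * 1 := (mul_one _).symm
          _ ≤ α n ^ 2 * (n : ℝ) ^ (-(2 / d)) * (8 * Real.log n) :=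
              mul_le_mul_of_nonneg_left (by linarith only [hκ, hκ2, hlog]) h4
          _ = 8 * α n ^ 2 * ciW d n := by rw [ciW]; ring
    refine h1.trans ?_
    have h2 : Tendsto (fun i => ∑ n ∈ F, 8 * s i n ^ 2 * ciW d n) atTop
        (𝓝 (∑ n ∈ F, 8 * α n ^ 2 * ciW d n)) :=
      tendsto_finsetSum _ fun n _ => (((hα n).pow 2).const_mul 8).mul_const _
    refine le_of_tendsto' h2 fun i => ?_
    obtain ⟨hp0, hp1⟩ := ci_pow_bounds i
    calc ∑ n ∈ F, 8 * s i n ^ 2 * ciW d n ≤ ∑' n, 8 * s i n ^ 2 * ciW d n :=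
          (hsP i).2.2.1.sum_le_tsum F fun n _ => mul_nonneg (by positivity) (ciW_nonneg d n)
      _ ≤ T * (3 - 2 * (1 / 4) ^ i) ^ 2 := (hsP i).2.2.2.1
      _ ≤ 1 := by
          have h3 : (3 - 2 * (1 / 4 : ℝ) ^ i) ^ 2 ≤ 9 := by nlinarith only [hκ, hp0, hκ2, hp1]
          nlinarith only [hκ, hκ2, h3, hTle]
  · intro f
    have hps := pr_nd_summable hd2 hQpos (d / 2) f
    have haa : ∀ n, Tendsto (fun i => aa (s i) n) atTop (𝓝 (aa α n)) := by
      intro n
      unfold aa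
      split_ifs
      · exact tendsto_finsetProd _ fun p _ => hα p
      · exact tendsto_const_nhds
    have hR : Tendsto (fun i => ∑' n : ℕ, aa (s i) n * pr (d / 2) f (nd d Q n)) atTop
        (𝓝 (∑' n : ℕ, aa α n * pr (d / 2) f (nd d Q n))) := by
      refine tendsto_tsum_of_dominated_convergence hps (fun n => (haa n).mul_const _) ?_
      refine Eventually.of_forall fun i n => ?_
      rw [Real.norm_eq_abs, abs_mul]
      calc |aa (s i) n| * |pr (d / 2) f (nd d Q n)| ≤ 1 * |pr (d / 2) f (nd d Q n)| :=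
            mul_le_mul_of_nonneg_right (aa_abs_le_one (hsabs i) n) (abs_nonneg _)
        _ = |pr (d / 2) f (nd d Q n)| := one_mul _
    have hN : NQ d Q (pr (d / 2) f) < ⊤ := NQ_lt_top hd hQpos f
    set N : ℝ := (NQ d Q (pr (d / 2) f)).toReal with hNdef
    have hNe : NQ d Q (pr (d / 2) f) = ENNReal.ofReal N := (ENNReal.ofReal_toReal hN.ne).symm
    have hNnn : 0 ≤ N := ENNReal.toReal_nonneg
    have hRi : ∀ i, (∑' n : ℕ, aa (s i) n * pr (d / 2) f (nd d Q n)) ^ 2 ≤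
        Cs * Q * (1 / 16) ^ i * N := by
      intro i
      have h1 := (hsP i).2.2.2.2 f
      rw [hNe, ← ENNReal.ofReal_mul (by positivity)] at h1
      exact (ENNReal.ofReal_le_ofReal_iff (by positivity)).1 h1
    have hlim0 : Tendsto (fun i : ℕ => Cs * Q * (1 / 16 : ℝ) ^ i * N) atTop (𝓝 0) := by
      have h1 := tendsto_pow_atTop_nhds_zero_of_lt_one (r := (1 / 16 : ℝ)) (by norm_num)
        (by norm_num)
      have h2 := (h1.const_mul (Cs * Q)).mul_const N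
      simpa using h2
    have hsq : (∑' n : ℕ, aa α n * pr (d / 2) f (nd d Q n)) ^ 2 ≤ 0 :=
      le_of_tendsto_of_tendsto' (hR.pow 2) hlim0 hRi
    have := sq_nonneg (∑' n : ℕ, aa α n * pr (d / 2) f (nd d Q n))
    exact pow_eq_zero_iff (two_ne_zero) |>.1 (le_antisymm hsq this)

end Pool.Agent.H97.EP

end

section

/-!
# Project EP, module `Main`
-/

set_option autoImplicit false

namespace Pool.Agent.H97.EP

theorem degree_of_primesIn {θ d : ℝ} (hP : PrimesIn θ) (hd : 4 < d) (hθ : θ ≤ 1 - 2 / d) :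
    SelbergDegree d := by
  obtain ⟨Q, α, hQ, hα, h1, hs, horth⟩ := exists_alpha hd hP hθ
  have hd2 : (2 : ℝ) < d := by linarith
  have hQ0 : (0 : ℝ) < Q := by linarith
  have hd0 : (0 : ℝ) < d := by linarith
  have hinv : 1 / d < 1 / 4 := one_div_lt_one_div_of_lt (by norm_num) hd
  obtain ⟨a, ha⟩ : ∃ a : ℕ → ℂ, a = fun n => ((aa α n : ℝ) : ℂ) := ⟨_, rfl⟩
  obtain ⟨b, hb1, hb2, hb3⟩ := aa_euler (fun n hn => (hα n hn).1) h1
  have hsum : ∀ σ : ℝ, 1 / 2 + 1 / d < σ → Summable fun n : ℕ => ‖a n‖ * (n : ℝ) ^ (-σ) := by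
    intro σ hσ
    refine (aa_conv hd2 hα hs hσ).congr fun n => ?_
    rw [ha]
    simp only [Complex.norm_real, Real.norm_eq_abs]
  have ha0 : a 0 = 0 := by
    rw [ha]
    simp [aa_zero]
  obtain ⟨hconv, G, hG, hfin, hL, hFE⟩ := SD.exists_cont (rho := 0) hd2 le_rfl hQ0 ha0 hsum
    (fun t ht => by rw [ha]; exact aa_theta hd2 hQ0 h1 horth ht)
  refine ⟨a, 0, G, 1, Q, fun _ => d / 2, fun _ => 0, 1, b, 0, ?_, hG, hfin, ?_, hQ0,
    fun _ => by positivity, fun _ => by simp, by simp, ?_, ?_, hb1, by norm_num, ⟨1, ?_⟩, ?_, ?_⟩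
  · exact fun s hs => hconv s (by linarith)
  · intro s hs
    rw [pow_zero, one_mul]
    exact hL s (by linarith)
  · intro s h0 h1
    have e1 := hFE s h0 h1
    simp only [Finset.univ_unique, Finset.prod_singleton, pow_zero, div_one]
    simpa using e1
  · intro ε hε
    refine ⟨1, fun n hn => ?_⟩
    have e1 : ‖a n‖ ≤ 1 := by
      rw [ha]
      simp only [Complex.norm_real, Real.norm_eq_abs]
      exact aa_abs_le_one h1 n
    have e2 : (1 : ℝ) ≤ (n : ℝ) ^ ε := Real.one_le_rpow (by exact_mod_cast hn) hε.le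
    linarith
  · intro n hn
    have e2 : (n : ℝ) ^ (0 : ℝ) = 1 := Real.rpow_zero _
    rw [e2, one_mul]
    exact hb2 n
  · intro s hs
    rw [ha]
    exact hb3 s hs
  · simp
    ring

end Pool.Agent.H97.EP

end
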