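import Pool.Agent.H47.B1.M38
import Pool.Agent.H47.B1.M40
import Pool.Agent.H47.B1.M45

/-! The parts of this file: H88.PSI.Hux, H88.PSI.Lvk, H88.PSI.Lvs, H88.PSI.BoxM, H88.E58.Lv, H88.E58.Bs. -/

section

/-!
# PSI Hux: Huxley's large value estimate, continuous version

`dual_ineq` (`Pool.Agent.H80.LV.dual_ineq`, `Pool/Agent/H80/LV/Dual.lean`; it has `Icc 1 K` and `ee (t log n)` as here) on
`B_I = B ∩ I`, `I` an interval of length `≤ T0`, with
`G = C L (6 L M + vol(B_I) √T0)` (`ker`; `∫_I M/(1+|t-s|) ds ≤ 2 M log(1 + T0)`): for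
`T0 = (V^2/(2 C L S))^2` (`T0 ≤ X^2` as `V^2 ≤ M S` if `B` is nonempty) this gives `V^2 vol(B_I) ≤ 6 C L^2 M S + V^2 vol(B_I)/2`, and
`[-T, T]` is covered by `≤ 2 T/T0 + 1` such `I`.
-/

set_option autoImplicit false

namespace Pool.Agent.H88.PSI

open Finset MeasureTheory
open Pool.Agent.H91.PK (ee)

private theorem Hux_log (t Y : ℝ) (hY : 0 ≤ Y) :
    ∫ s in (t - Y)..(t + Y), 1 / (1 + |t - s|) = 2 * Real.log (1 + Y) := by
  have hcont : Continuous (fun s : ℝ => 1 / (1 + |t - s|)) := by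
    refine continuous_const.div (by fun_prop) fun s => ?_
    positivity
  have h1 : ∫ s in (t - Y)..t, 1 / (1 + |t - s|) = Real.log (1 + Y) := by
    have e1 : ∫ s in (t - Y)..t, 1 / (1 + |t - s|) =
        ∫ s in (t - Y)..t, (fun u : ℝ => 1 / u) (1 + t - s) := by
      refine intervalIntegral.integral_congr fun s hs => ?_
      rw [Set.uIcc_of_le (by linarith), Set.mem_Icc] at hs
      simp only
      rw [abs_of_nonneg (by linarith)]
      congr 1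
      ring
    rw [e1, intervalIntegral.integral_comp_sub_left, integral_one_div_of_pos (by linarith)
      (by linarith)]
    congr 1
    rw [show (1 : ℝ) + t - t = 1 by ring, div_one]
    ring
  have h2 : ∫ s in t..(t + Y), 1 / (1 + |t - s|) = Real.log (1 + Y) := by
    have e1 : ∫ s in t..(t + Y), 1 / (1 + |t - s|) =
        ∫ s in t..(t + Y), (fun u : ℝ => 1 / u) (s - (t - 1)) := by
      refine intervalIntegral.integral_congr fun s hs => ?_
      rw [Set.uIcc_of_le (by linarith), Set.mem_Icc] at hs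
      simp only
      rw [abs_of_nonpos (by linarith)]
      congr 1
      ring
    rw [e1, intervalIntegral.integral_comp_sub_right, integral_one_div_of_pos (by linarith)
      (by linarith)]
    congr 1
    rw [show t - (t - 1) = 1 by ring, div_one]
    ring
  rw [← intervalIntegral.integral_add_adjacent_intervals (b := t)
    (hcont.intervalIntegrable _ _) (hcont.intervalIntegrable _ _), h1, h2]
  ring

/-- Cauchy-Schwarz -/
private theorem Hux_cs (b : ℕ → ℂ) (M : ℕ) (t : ℝ) : ‖DP b M t‖ ^ 2 ≤ M * SS b M := by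
  have h1 : ‖DP b M t‖ ≤ ∑ n ∈ Icc 1 M, ‖b n‖ := by
    unfold DP
    refine (norm_sum_le _ _).trans (le_of_eq (Finset.sum_congr rfl fun n _ => ?_))
    rw [norm_mul, Pool.Agent.H91.PK.LSa_norm_ee, mul_one]
  have h2 : (∑ n ∈ Icc 1 M, ‖b n‖) ^ 2 ≤ ((Icc 1 M).card : ℝ) * ∑ n ∈ Icc 1 M, ‖b n‖ ^ 2 :=
    sq_sum_le_card_mul_sum_sq
  rw [Nat.card_Icc, Nat.add_sub_cancel] at h2
  calc ‖DP b M t‖ ^ 2 ≤ (∑ n ∈ Icc 1 M, ‖b n‖) ^ 2 := by
        gcongr
    _ ≤ _ := h2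

/-- the estimate on one short interval -/
private theorem Hux_one {C0 : ℝ} (hC0 : 1 ≤ C0)
    (hker : ∀ (X M : ℕ) (u : ℝ), 3 ≤ X → M ≤ X →
      ‖∑ n ∈ Icc 1 M, ee (u * Real.log n)‖
        ≤ C0 * Real.log X * (M / (1 + |u|) + Real.sqrt |u|))
    (X M : ℕ) (b : ℕ → ℂ) (V T T0 c : ℝ) (B : Set ℝ) (hX : 3 ≤ X) (hMX : M ≤ X) (hV : 0 < V)
    (hB : MeasurableSet B) (hBs : B ⊆ Set.Icc (-T) T) (hBc : B ⊆ Set.Icc c (c + T0))
    (hT0 : 0 < T0) (hT0X : T0 ≤ (X : ℝ) ^ 2)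
    (hT0V : 2 * C0 * Real.log X * SS b M * Real.sqrt T0 ≤ V ^ 2)
    (hBV : ∀ t ∈ B, V ≤ ‖DP b M t‖) :
    V ^ 2 * volume.real B ≤ 12 * C0 * Real.log X ^ 2 * (M * SS b M) := by
  have hXr : (3 : ℝ) ≤ X := by exact_mod_cast hX
  have hX0 : (0 : ℝ) < X := by linarith
  have hL1 : 1 ≤ Real.log X := by
    rw [Real.le_log_iff_exp_le hX0]
    linarith [Real.exp_one_lt_d9]
  set L : ℝ := Real.log X with hL
  have hS0 : 0 ≤ SS b M := Finset.sum_nonneg fun n _ => by positivity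
  have hv0 : 0 ≤ volume.real B := measureReal_nonneg
  set G : ℝ := C0 * L * (6 * L * M + volume.real B * Real.sqrt T0) with hG
  have hG0 : 0 ≤ G := by positivity
  have hcee : ∀ t : ℝ, Continuous (fun s : ℝ => ‖∑ n ∈ Icc 1 M, ee ((t - s) * Real.log n)‖) := by
    intro t
    unfold ee
    fun_prop
  have hlog : 2 * Real.log (1 + T0) ≤ 6 * L := by
    have h1 : 1 + T0 ≤ (X : ℝ) ^ 3 := by nlinarith [sq_nonneg ((X : ℝ) - 1)]
    have h2 : Real.log (1 + T0) ≤ Real.log ((X : ℝ) ^ 3) := Real.log_le_log (by linarith) h1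
    rw [Real.log_pow] at h2
    push_cast at h2
    rw [← hL] at h2
    linarith
  have hGb : ∀ t ∈ B, ∫ s in B, ‖∑ n ∈ Icc 1 M, ee ((t - s) * Real.log n)‖ ≤ G := by
    intro t ht
    have hcg0 : Continuous (fun s : ℝ => 1 / (1 + |t - s|)) := by
      refine continuous_const.div (by fun_prop) fun s => ?_
      positivity
    have hcg : Continuous (fun s : ℝ => C0 * L * M * (1 / (1 + |t - s|))) :=
      continuous_const.mul hcg0
    have hi1 : IntegrableOn (fun s : ℝ => ‖∑ n ∈ Icc 1 M, ee ((t - s) * Real.log n)‖) B :=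
      ((hcee t).continuousOn.integrableOn_Icc).mono_set hBs
    have hi2 : IntegrableOn (fun s : ℝ => C0 * L * M * (1 / (1 + |t - s|))) B :=
      (hcg.continuousOn.integrableOn_Icc).mono_set hBs
    have hi3 : IntegrableOn (fun _ : ℝ => C0 * L * Real.sqrt T0) B :=
      (continuous_const.continuousOn.integrableOn_Icc).mono_set hBs
    have hpt : ∀ s ∈ B, ‖∑ n ∈ Icc 1 M, ee ((t - s) * Real.log n)‖ ≤
        C0 * L * M * (1 / (1 + |t - s|)) + C0 * L * Real.sqrt T0 := by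
      intro s hs
      have hs1 := hBc hs
      have ht1 := hBc ht
      rw [Set.mem_Icc] at hs1 ht1
      have habs : |t - s| ≤ T0 := by
        rw [abs_le]
        constructor <;> linarith [hs1.1, hs1.2, ht1.1, ht1.2]
      have h1 := hker X M (t - s) hX hMX
      have h2 : Real.sqrt |t - s| ≤ Real.sqrt T0 := Real.sqrt_le_sqrt habs
      calc _ ≤ C0 * L * (M / (1 + |t - s|) + Real.sqrt |t - s|) := h1
        _ ≤ C0 * L * (M / (1 + |t - s|) + Real.sqrt T0) := by gcongr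
        _ = _ := by ring
    refine (setIntegral_mono_on hi1 (hi2.add hi3) hB hpt).trans ?_
    have e1 : ∫ s in B, (C0 * L * M * (1 / (1 + |t - s|)) + C0 * L * Real.sqrt T0) =
        C0 * L * M * (∫ s in B, 1 / (1 + |t - s|)) + volume.real B * (C0 * L * Real.sqrt T0) := by
      rw [integral_add hi2 hi3, integral_const_mul, setIntegral_const, smul_eq_mul]
    have e2 : ∫ s in B, 1 / (1 + |t - s|) ≤ 2 * Real.log (1 + T0) := by
      rw [← Hux_log t T0 hT0.le, intervalIntegral.integral_of_le (by linarith),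
        ← integral_Icc_eq_integral_Ioc]
      refine setIntegral_mono_set (hcg0.continuousOn.integrableOn_Icc)
        (Filter.Eventually.of_forall fun s => ?_) (HasSubset.Subset.eventuallyLE ?_)
      · simp only [Pi.zero_apply]
        positivity
      · intro s hs
        have hs1 := hBc hs
        have ht1 := hBc ht
        rw [Set.mem_Icc] at hs1 ht1 ⊢
        constructor <;> linarith [hs1.1, hs1.2, ht1.1, ht1.2]
    have e3 : C0 * L * M * (∫ s in B, 1 / (1 + |t - s|)) ≤ C0 * L * M * (6 * L) :=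
      mul_le_mul_of_nonneg_left (e2.trans hlog) (by positivity)
    rw [Pi.add_def, e1, hG]
    nlinarith [e3]
  have hd := Pool.Agent.H80.LV.dual_ineq B T hB hBs M b G hG0 hGb
  have hFc : Continuous (fun t : ℝ => ‖∑ n ∈ Icc 1 M, b n * ee (t * Real.log n)‖ ^ 2) := by
    unfold ee
    fun_prop
  have hlow : V ^ 2 * volume.real B ≤
      ∫ t in B, ‖∑ n ∈ Icc 1 M, b n * ee (t * Real.log n)‖ ^ 2 := by
    have h1 : ∫ _ in B, V ^ 2 = volume.real B * V ^ 2 := by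
      rw [setIntegral_const, smul_eq_mul]
    rw [mul_comm, ← h1]
    refine setIntegral_mono_on
      ((continuous_const.continuousOn.integrableOn_Icc (μ := volume)).mono_set hBs)
      ((hFc.continuousOn.integrableOn_Icc).mono_set hBs) hB fun t ht => ?_
    have h2 := hBV t ht
    unfold DP at h2
    gcongr
  have hfin : V ^ 2 * volume.real B ≤ G * SS b M := hlow.trans hd
  have h5 : C0 * L * SS b M * Real.sqrt T0 * volume.real B ≤ V ^ 2 / 2 * volume.real B := by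
    refine mul_le_mul_of_nonneg_right ?_ hv0
    linarith
  rw [hG] at hfin
  nlinarith [hfin, h5]

theorem huxley : ∃ C : ℝ, 1 ≤ C ∧ ∀ (X M : ℕ) (b : ℕ → ℂ) (V T : ℝ) (B : Set ℝ), 3 ≤ X → 1 ≤ M →
    M ≤ X → 0 < V → 1 ≤ T → T ≤ X → MeasurableSet B → B ⊆ Set.Icc (-T) T →
    (∀ t ∈ B, V ≤ ‖DP b M t‖) →
    volume.real B ≤ C * Real.log X ^ 6 * (M * SS b M / V ^ 2 + T * M * SS b M ^ 3 / V ^ 6) := by
  obtain ⟨C0, hC0, hker⟩ := ker
  refine ⟨96 * C0 ^ 3, ?_, fun X M b V T B hX hM hMX hV hT hTX hB hBs hBV => ?_⟩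
  · have : 1 ≤ C0 ^ 3 := one_le_pow₀ hC0
    linarith
  have hXr : (3 : ℝ) ≤ X := by exact_mod_cast hX
  have hX0 : (0 : ℝ) < X := by linarith
  have hL1 : 1 ≤ Real.log X := by
    rw [Real.le_log_iff_exp_le hX0]
    linarith [Real.exp_one_lt_d9]
  set L : ℝ := Real.log X with hL
  have hS0 : 0 ≤ SS b M := Finset.sum_nonneg fun n _ => by positivity
  have hT0 : 0 < T := by linarith
  rcases B.eq_empty_or_nonempty with hBe | ⟨t0, ht0⟩
  · rw [hBe]
    simp only [measureReal_empty]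
    positivity
  have hVMS : V ^ 2 ≤ M * SS b M := by
    refine le_trans ?_ (Hux_cs b M t0)
    have := hBV t0 ht0
    gcongr
  have hM0 : (0 : ℝ) < M := by exact_mod_cast hM
  have hS : 0 < SS b M := by
    rcases hS0.lt_or_eq with h | h
    · exact h
    · rw [← h, mul_zero] at hVMS
      exact absurd hVMS (not_le.mpr (by positivity))
  set S : ℝ := SS b M with hSdef
  -- the length of the short intervals
  set R : ℝ := V ^ 2 / (2 * C0 * L * S) with hR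
  have hR0 : 0 < R := by positivity
  set U : ℝ := R ^ 2 with hU
  have hU0 : 0 < U := by positivity
  have hsq : Real.sqrt U = R := by rw [hU, Real.sqrt_sq hR0.le]
  have hRX : R ≤ X := by
    rw [hR, div_le_iff₀ (by positivity)]
    have h1 : (M : ℝ) ≤ X := by exact_mod_cast hMX
    have h2 : M * S ≤ X * S := by gcongr
    have h3 : (1 : ℝ) ≤ 2 * C0 * L := by nlinarith
    have h4 : (X : ℝ) * S ≤ X * (2 * C0 * L * S) := by
      have : X * S * 1 ≤ X * S * (2 * C0 * L) := by gcongr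
      linarith
    linarith
  have hUX : U ≤ (X : ℝ) ^ 2 := by rw [hU]; gcongr
  have hUV : 2 * C0 * L * S * Real.sqrt U ≤ V ^ 2 := by
    rw [hsq, hR]
    apply le_of_eq
    field_simp
  -- covering
  set N : ℕ := ⌊2 * T / U⌋₊ + 1 with hN
  have hcover : B ⊆ ⋃ j ∈ Finset.range N, B ∩ Set.Icc (-T + j * U) (-T + j * U + U) := by
    intro t ht
    have h1 := hBs ht
    rw [Set.mem_Icc] at h1
    simp only [Set.mem_iUnion, Finset.mem_range, exists_prop]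
    have h2 : 0 ≤ (t + T) / U := div_nonneg (by linarith [h1.1]) hU0.le
    refine ⟨⌊(t + T) / U⌋₊, ?_, ht, ?_⟩
    · rw [hN, Nat.lt_succ_iff]
      apply Nat.floor_le_floor
      gcongr
      linarith [h1.2]
    · have h3 := Nat.floor_le h2
      have h4 := Nat.lt_floor_add_one ((t + T) / U)
      rw [le_div_iff₀ hU0] at h3
      rw [div_lt_iff₀ hU0] at h4
      rw [Set.mem_Icc]
      constructor <;> linarith
  have hone : ∀ j ∈ Finset.range N, volume.real (B ∩ Set.Icc (-T + j * U) (-T + j * U + U)) ≤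
      12 * C0 * L ^ 2 * (M * S) / V ^ 2 := by
    intro j _
    rw [le_div_iff₀ (by positivity), mul_comm]
    exact Hux_one hC0 hker X M b V T U (-T + j * U) _ hX hMX hV (hB.inter measurableSet_Icc)
      (Set.inter_subset_left.trans hBs) Set.inter_subset_right hU0 hUX hUV
      (fun t ht => hBV t ht.1)
  have hfinB : volume (⋃ j ∈ Finset.range N, B ∩ Set.Icc (-T + j * U) (-T + j * U + U)) ≠ ⊤ := by
    refine ne_of_lt (lt_of_le_of_lt (measure_mono ?_)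
      (lt_of_le_of_lt (measure_mono hBs) (by
        rw [Real.volume_Icc]; exact ENNReal.ofReal_lt_top)))
    exact Set.iUnion₂_subset fun j _ => Set.inter_subset_left
  have hvol : volume.real B ≤ N * (12 * C0 * L ^ 2 * (M * S) / V ^ 2) := by
    calc volume.real B ≤ volume.real (⋃ j ∈ Finset.range N,
          B ∩ Set.Icc (-T + j * U) (-T + j * U + U)) := measureReal_mono hcover hfinB
      _ ≤ ∑ j ∈ Finset.range N, volume.real (B ∩ Set.Icc (-T + j * U) (-T + j * U + U)) :=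
          measureReal_biUnion_finset_le _ _
      _ ≤ ∑ j ∈ Finset.range N, (12 * C0 * L ^ 2 * (M * S) / V ^ 2) := Finset.sum_le_sum hone
      _ = _ := by rw [Finset.sum_const, Finset.card_range, nsmul_eq_mul]
  have hNle : (N : ℝ) ≤ 2 * T / U + 1 := by
    rw [hN]
    push_cast
    linarith [Nat.floor_le (show 0 ≤ 2 * T / U by positivity)]
  have hUe : 2 * T / U = 8 * C0 ^ 2 * L ^ 2 * (T * S ^ 2 / V ^ 4) := by
    rw [hU, hR]
    field_simp
    ring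
  have hL4 : L ^ 4 ≤ L ^ 6 := pow_le_pow_right₀ hL1 (by norm_num)
  have hL2 : L ^ 2 ≤ L ^ 6 := pow_le_pow_right₀ hL1 (by norm_num)
  have hC3 : C0 ≤ C0 ^ 3 := by
    calc C0 = C0 ^ 1 := (pow_one _).symm
      _ ≤ C0 ^ 3 := pow_le_pow_right₀ hC0 (by norm_num)
  calc volume.real B ≤ N * (12 * C0 * L ^ 2 * (M * S) / V ^ 2) := hvol
    _ ≤ (8 * C0 ^ 2 * L ^ 2 * (T * S ^ 2 / V ^ 4) + 1) * (12 * C0 * L ^ 2 * (M * S) / V ^ 2) := by
        rw [← hUe]
        gcongr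
    _ = 96 * C0 ^ 3 * L ^ 4 * (T * M * S ^ 3 / V ^ 6) + 12 * C0 * L ^ 2 * (M * S / V ^ 2) := by
        field_simp
        ring
    _ ≤ 96 * C0 ^ 3 * L ^ 6 * (T * M * S ^ 3 / V ^ 6)
          + 96 * C0 ^ 3 * L ^ 6 * (M * S / V ^ 2) := by
        gcongr
        norm_num
    _ = _ := by ring

end Pool.Agent.H88.PSI

end

section

/-!
# PSI Lvk: large values of powers

`b = g^k` (`dp_pow` with the bound `2 N`; `M = (2 N)^k ≤ X`), `|b(n)| ≤ (2 L)^k tau(n)^k` (`prod_bd` with the constant family, `∏ i : Fin k, g = g^k`), so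
`SS b M ≤ M X^(e1/8)` (`tau_eps`).  `mvt`: `V^(2k) |B| ≤ (2 T + 4 M (1 + log M)) SS`; `huxley` with `V^k`.  Constants `2^(4k)`, `L^6` are
absorbed in `X^e1`.
-/

set_option autoImplicit false

namespace Pool.Agent.H88.PSI

open Finset MeasureTheory

private theorem Lvk_log (n : ℕ) (A δ : ℝ) (hδ : 0 < δ) :
    ∃ X0 : ℕ, ∀ X : ℕ, X0 ≤ X → A * Real.log X ^ n ≤ (X : ℝ) ^ δ := by
  have h1 := (isLittleO_log_rpow_rpow_atTop (n : ℝ) hδ).comp_tendsto tendsto_natCast_atTop_atTop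
  have hc : 0 < 1 / (|A| + 1) := by positivity
  have h2 := h1.def hc
  rw [Filter.eventually_atTop] at h2
  obtain ⟨X0, hX0⟩ := h2
  refine ⟨X0, fun X hX => ?_⟩
  have h3 := hX0 X hX
  simp only [Function.comp_apply, Real.rpow_natCast] at h3
  have h4 : (0 : ℝ) ≤ (X : ℝ) ^ δ := by positivity
  rw [Real.norm_of_nonneg h4, Real.norm_eq_abs] at h3
  have h5 : A * Real.log X ^ n ≤ |A| * |Real.log X ^ n| := by
    rw [← abs_mul]
    exact le_abs_self _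
  have h6 : |A| * |Real.log X ^ n| ≤ |A| * (1 / (|A| + 1) * (X : ℝ) ^ δ) :=
    mul_le_mul_of_nonneg_left h3 (abs_nonneg _)
  have h7 : |A| * (1 / (|A| + 1) * (X : ℝ) ^ δ) = |A| / (|A| + 1) * (X : ℝ) ^ δ := by ring
  have h8 : |A| / (|A| + 1) ≤ 1 := by
    rw [div_le_one (by positivity)]
    linarith
  have h9 : |A| / (|A| + 1) * (X : ℝ) ^ δ ≤ 1 * (X : ℝ) ^ δ := mul_le_mul_of_nonneg_right h8 h4
  linarith

/-- the second moment of the coefficients -/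
private theorem Lvk_SS (k : ℕ) (e1 : ℝ) (hk : 1 ≤ k) (he1 : 0 < e1) : ∃ X0 : ℕ, ∀ X : ℕ, X0 ≤ X →
    ∀ (M : ℕ) (g : ArithmeticFunction ℂ), M ≤ X → (∀ n, ‖g n‖ ≤ 2 * Real.log X) →
      SS (⇑(g ^ k)) M ≤ M * (X : ℝ) ^ (e1 / 16) := by
  have hk0 : (0 : ℝ) < k := by exact_mod_cast hk
  have he : 0 < e1 / (64 * k) := by positivity
  obtain ⟨C1, hC1, htau⟩ := tau_eps (e1 / (64 * k)) he
  obtain ⟨X1, hX1⟩ := Lvk_log (2 * k) ((4 * C1) ^ (2 * k) * 2 ^ (2 * k)) (e1 / 32) (by positivity)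
  refine ⟨max 3 X1, fun X hX M g hM hg => ?_⟩
  have hX3 : 3 ≤ X := (le_max_left _ _).trans hX
  have hX3' : (3 : ℝ) ≤ X := by exact_mod_cast hX3
  have hXpos : (0 : ℝ) < X := by linarith
  have hL : 1 ≤ Real.log X := by
    rw [Real.le_log_iff_exp_le hXpos]
    have := Real.exp_one_lt_d9
    linarith
  have h1 := hX1 X ((le_max_right _ _).trans hX)
  have hprod : ∀ n, ‖(g ^ k) n‖ ≤ (2 * Real.log X) ^ k * tau n ^ k := by
    intro n
    have h2 := prod_bd (fun _ : Fin k => g) (2 * Real.log X) (by linarith) (fun _ n => hg n) n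
    rwa [prod_const, card_univ, Fintype.card_fin] at h2
  have hterm : ∀ n ∈ Icc 1 M, ‖(g ^ k) n‖ ^ 2 ≤ (X : ℝ) ^ (e1 / 16) := by
    intro n hn
    rw [mem_Icc] at hn
    have hn1 : (1 : ℝ) ≤ n := by exact_mod_cast hn.1
    have hnX : (n : ℝ) ≤ X := by exact_mod_cast hn.2.trans hM
    set e := e1 / (64 * k) with hedef
    have hXe : 1 ≤ (X : ℝ) ^ e := Real.one_le_rpow (by linarith) he.le
    have hne : (n : ℝ) ^ e ≤ (X : ℝ) ^ e := Real.rpow_le_rpow (by linarith) hnX he.le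
    have htn : tau n ≤ 2 * C1 * (X : ℝ) ^ e := by
      have h3 := htau n
      nlinarith
    have htn0 : 0 ≤ tau n := by
      unfold tau
      positivity
    have h4 : tau n ^ k ≤ (2 * C1 * (X : ℝ) ^ e) ^ k := pow_le_pow_left₀ htn0 htn k
    have h5 : ‖(g ^ k) n‖ ≤ (2 * Real.log X) ^ k * (2 * C1 * (X : ℝ) ^ e) ^ k :=
      (hprod n).trans (mul_le_mul_of_nonneg_left h4 (by positivity))
    have h6 : ‖(g ^ k) n‖ ^ 2 ≤ ((2 * Real.log X) ^ k * (2 * C1 * (X : ℝ) ^ e) ^ k) ^ 2 :=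
      pow_le_pow_left₀ (norm_nonneg _) h5 2
    have h7 : ((2 * Real.log X) ^ k * (2 * C1 * (X : ℝ) ^ e) ^ k) ^ 2 =
        ((4 * C1) ^ (2 * k) * Real.log X ^ (2 * k)) * ((X : ℝ) ^ e) ^ (2 * k) := by
      rw [← mul_pow, ← mul_pow, ← mul_pow, ← pow_mul, mul_comm k 2]
      congr 1
      ring
    have h8 : ((X : ℝ) ^ e) ^ (2 * k) = (X : ℝ) ^ (e1 / 32) := by
      rw [← Real.rpow_natCast, ← Real.rpow_mul hXpos.le]
      congr 1
      rw [hedef]
      push_cast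
      field_simp
      ring
    have h9 : (4 * C1) ^ (2 * k) * Real.log X ^ (2 * k) ≤ (X : ℝ) ^ (e1 / 32) := by
      refine le_trans ?_ h1
      have h10 : (1 : ℝ) ≤ 2 ^ (2 * k) := one_le_pow₀ (by norm_num)
      have h11 : 0 ≤ (4 * C1) ^ (2 * k) := by positivity
      have h12 : (4 * C1) ^ (2 * k) ≤ (4 * C1) ^ (2 * k) * 2 ^ (2 * k) := by nlinarith
      exact mul_le_mul_of_nonneg_right h12 (by positivity)
    have h13 : (X : ℝ) ^ (e1 / 32) * (X : ℝ) ^ (e1 / 32) = (X : ℝ) ^ (e1 / 16) := by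
      rw [← Real.rpow_add hXpos]
      congr 1
      ring
    calc ‖(g ^ k) n‖ ^ 2 ≤ ((4 * C1) ^ (2 * k) * Real.log X ^ (2 * k)) * ((X : ℝ) ^ e) ^ (2 * k) := by
          rw [← h7]
          exact h6
      _ ≤ (X : ℝ) ^ (e1 / 32) * (X : ℝ) ^ (e1 / 32) := by
          rw [h8]
          exact mul_le_mul_of_nonneg_right h9 (by positivity)
      _ = _ := h13
  unfold SS
  refine (sum_le_sum hterm).trans (le_of_eq ?_)
  rw [sum_const, Nat.card_Icc, nsmul_eq_mul]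
  congr 2

theorem lvk (k : ℕ) (e1 : ℝ) (hk : 1 ≤ k) (he1 : 0 < e1) : ∃ X0 : ℕ, ∀ X : ℕ, X0 ≤ X →
    ∀ (N : ℕ) (g : ArithmeticFunction ℂ) (V T : ℝ) (B : Set ℝ), 1 ≤ N → (2 * N) ^ k ≤ X →
    (∀ n, g n ≠ 0 → n ≤ 2 * N) → (∀ n, ‖g n‖ ≤ 2 * Real.log X) → 0 < V → 1 ≤ T → T ≤ X →
    MeasurableSet B → B ⊆ Set.Icc (-T) T → (∀ t ∈ B, V ≤ ‖DP g (2 * N) t‖) →
    volume.real B ≤ (X : ℝ) ^ e1 * ((N : ℝ) ^ (2 * k) / V ^ (2 * k) +
      min (T * (N : ℝ) ^ k / V ^ (2 * k)) (T * (N : ℝ) ^ (4 * k) / V ^ (6 * k))) := by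
  obtain ⟨C0, hC0, hux⟩ := huxley
  obtain ⟨X1, hX1⟩ := Lvk_SS k e1 hk he1
  obtain ⟨X2, hX2⟩ := Lvk_log 1 (8 * 4 ^ k) (e1 / 16) (by positivity)
  obtain ⟨X3, hX3⟩ := Lvk_log 6 (C0 * 16 ^ k) (e1 / 16) (by positivity)
  refine ⟨max (max 3 X1) (max X2 X3), fun X hX N g V T B hN hNX hsupp hg hV hT hTX hBm hB hBV => ?_⟩
  have hX3a : 3 ≤ X := (le_max_left _ _).trans ((le_max_left _ _).trans hX)
  have hX1a : X1 ≤ X := (le_max_right _ _).trans ((le_max_left _ _).trans hX)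
  have hX2a : X2 ≤ X := (le_max_left _ _).trans ((le_max_right _ _).trans hX)
  have hX3b : X3 ≤ X := (le_max_right _ _).trans ((le_max_right _ _).trans hX)
  have hX3' : (3 : ℝ) ≤ X := by exact_mod_cast hX3a
  have hXpos : (0 : ℝ) < X := by linarith
  have hL : 1 ≤ Real.log X := by
    rw [Real.le_log_iff_exp_le hXpos]
    have := Real.exp_one_lt_d9
    linarith
  have h2 := hX2 X hX2a
  have h3 := hX3 X hX3b
  rw [pow_one] at h2
  set Y : ℝ := (X : ℝ) ^ (e1 / 16) with hY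
  have hY1 : 1 ≤ Y := Real.one_le_rpow (by linarith) (by positivity)
  have hY0 : 0 < Y := by linarith
  have hY16 : Y ^ 16 = (X : ℝ) ^ e1 := by
    rw [hY, ← Real.rpow_natCast, ← Real.rpow_mul hXpos.le]
    congr 1
    push_cast
    ring
  set M : ℕ := (2 * N) ^ k with hM
  have hM1 : 1 ≤ M := Nat.one_le_pow _ _ (by omega)
  have hMR : (M : ℝ) = 2 ^ k * (N : ℝ) ^ k := by
    rw [hM]
    push_cast
    rw [mul_pow]
  have hS := hX1 X hX1a M g hNX hg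
  set S := SS (⇑(g ^ k)) M with hSdef
  have hS0 : 0 ≤ S := by
    rw [hSdef]
    unfold SS
    exact sum_nonneg fun n _ => by positivity
  have hDP : ∀ t, DP (⇑(g ^ k)) M t = DP g (2 * N) t ^ k := fun t => dp_pow g (2 * N) k hsupp t
  have hVt : ∀ t ∈ B, V ^ k ≤ ‖DP (⇑(g ^ k)) M t‖ := by
    intro t ht
    rw [hDP, norm_pow]
    exact pow_le_pow_left₀ hV.le (hBV t ht) k
  have hNR : (1 : ℝ) ≤ N := by exact_mod_cast hN
  have hlogM : Real.log M ≤ Real.log X :=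
    Real.log_le_log (by exact_mod_cast hM1) (by exact_mod_cast hNX)
  -- the mean value theorem
  have b1 : volume.real B ≤ (X : ℝ) ^ e1 * ((N : ℝ) ^ (2 * k) / V ^ (2 * k) +
      T * (N : ℝ) ^ k / V ^ (2 * k)) := by
    have hm := mvt (⇑(g ^ k)) M T hM1 (by linarith)
    have hcont : Continuous fun t => ‖DP (⇑(g ^ k)) M t‖ ^ 2 := (dp_cont _ M).norm.pow 2
    have hint : IntegrableOn (fun t => ‖DP (⇑(g ^ k)) M t‖ ^ 2) (Set.Icc (-T) T) :=
      hcont.continuousOn.integrableOn_Icc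
    have hfin : volume B ≠ ⊤ :=
      ne_top_of_le_ne_top (by rw [Real.volume_Icc]; exact ENNReal.ofReal_ne_top) (measure_mono hB)
    have e1' : volume.real B * V ^ (2 * k) ≤ ∫ t in B, ‖DP (⇑(g ^ k)) M t‖ ^ 2 := by
      have h4 : ∫ t in B, (V ^ (2 * k) : ℝ) = volume.real B * V ^ (2 * k) := by
        rw [setIntegral_const, smul_eq_mul]
      rw [← h4]
      refine setIntegral_mono_on (integrableOn_const hfin) (hint.mono_set hB) hBm fun t ht => ?_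
      have h5 := pow_le_pow_left₀ (by positivity) (hVt t ht) 2
      rwa [← pow_mul, mul_comm k 2] at h5
    have e2 : ∫ t in B, ‖DP (⇑(g ^ k)) M t‖ ^ 2 ≤
        ∫ t in Set.Icc (-T) T, ‖DP (⇑(g ^ k)) M t‖ ^ 2 :=
      setIntegral_mono_set hint (Filter.Eventually.of_forall fun t => by positivity)
        hB.eventuallyLE
    have e3 : volume.real B * V ^ (2 * k) ≤ (2 * T + 4 * M * (1 + Real.log M)) * S :=
      e1'.trans (e2.trans hm)
    have e4 : (2 * T + 4 * M * (1 + Real.log M)) * S ≤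
        (2 * T + 4 * M * (2 * Real.log X)) * (M * Y) := by
      refine mul_le_mul ?_ hS hS0 (by positivity)
      have h6 : (M : ℝ) * (1 + Real.log M) ≤ M * (2 * Real.log X) :=
        mul_le_mul_of_nonneg_left (by linarith) (by positivity)
      linarith
    have e5 : (2 * T + 4 * M * (2 * Real.log X)) * (M * Y) ≤
        Y ^ 16 * ((N : ℝ) ^ (2 * k) + T * (N : ℝ) ^ k) := by
      rw [hMR]
      have a1 : (2 : ℝ) * 2 ^ k ≤ 8 * 4 ^ k * Real.log X := by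
        have a2 : (2 : ℝ) ^ k ≤ 4 ^ k := pow_le_pow_left₀ (by norm_num) (by norm_num) k
        have a3 : (0 : ℝ) < 4 ^ k := by positivity
        nlinarith
      have a4 : (2 : ℝ) * 2 ^ k ≤ Y := a1.trans h2
      have a5 : Y * Y ≤ Y ^ 16 := by
        rw [← pow_two]
        exact pow_le_pow_right₀ hY1 (by norm_num)
      have a6 : (4 : ℝ) ^ k = 2 ^ k * 2 ^ k := by
        rw [← mul_pow]
        norm_num
      have a7 : (N : ℝ) ^ (2 * k) = (N : ℝ) ^ k * (N : ℝ) ^ k := by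
        rw [two_mul, pow_add]
      have a8 : 8 * (2 ^ k * 2 ^ k) * Real.log X ≤ Y := by
        rw [← a6]
        exact h2
      have p1 : 0 ≤ T * (N : ℝ) ^ k * Y := by positivity
      have p2 : 0 ≤ (N : ℝ) ^ k * (N : ℝ) ^ k * Y := by positivity
      calc (2 * T + 4 * (2 ^ k * (N : ℝ) ^ k) * (2 * Real.log X)) * (2 ^ k * (N : ℝ) ^ k * Y) =
          (2 * 2 ^ k) * (T * (N : ℝ) ^ k * Y) +
            (8 * (2 ^ k * 2 ^ k) * Real.log X) * ((N : ℝ) ^ k * (N : ℝ) ^ k * Y) := by ring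
        _ ≤ Y * (T * (N : ℝ) ^ k * Y) + Y * ((N : ℝ) ^ k * (N : ℝ) ^ k * Y) :=
            add_le_add (mul_le_mul_of_nonneg_right a4 p1) (mul_le_mul_of_nonneg_right a8 p2)
        _ = (Y * Y) * ((N : ℝ) ^ (2 * k) + T * (N : ℝ) ^ k) := by
            rw [a7]
            ring
        _ ≤ Y ^ 16 * ((N : ℝ) ^ (2 * k) + T * (N : ℝ) ^ k) :=
            mul_le_mul_of_nonneg_right a5 (by positivity)
    rw [← hY16, ← add_div, mul_div_assoc', le_div_iff₀ (by positivity)]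
    exact e3.trans (e4.trans e5)
  -- Huxley
  have b2 : volume.real B ≤ (X : ℝ) ^ e1 * ((N : ℝ) ^ (2 * k) / V ^ (2 * k) +
      T * (N : ℝ) ^ (4 * k) / V ^ (6 * k)) := by
    have hh := hux X M (⇑(g ^ k)) (V ^ k) T B hX3a hM1 hNX (by positivity) hT hTX hBm hB hVt
    rw [← hSdef, ← pow_mul, ← pow_mul, mul_comm k 2, mul_comm k 6] at hh
    refine hh.trans ?_
    have a1 : M * S ≤ 16 ^ k * Y ^ 3 * (N : ℝ) ^ (2 * k) := by
      have c1 : M * S ≤ M * (M * Y) := mul_le_mul_of_nonneg_left hS (by positivity)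
      have c2 : (M : ℝ) * (M * Y) = 4 ^ k * Y * (N : ℝ) ^ (2 * k) := by
        have c3 : (4 : ℝ) ^ k = 2 ^ k * 2 ^ k := by
          rw [← mul_pow]
          norm_num
        rw [hMR, c3, two_mul, pow_add]
        ring
      have c4 : (4 : ℝ) ^ k ≤ 16 ^ k := pow_le_pow_left₀ (by norm_num) (by norm_num) k
      have c5 : Y ≤ Y ^ 3 := le_self_pow₀ hY1 (by norm_num)
      have c6 : (4 : ℝ) ^ k * Y ≤ 16 ^ k * Y ^ 3 := mul_le_mul c4 c5 hY0.le (by positivity)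
      have c7 : 4 ^ k * Y * (N : ℝ) ^ (2 * k) ≤ 16 ^ k * Y ^ 3 * (N : ℝ) ^ (2 * k) :=
        mul_le_mul_of_nonneg_right c6 (by positivity)
      linarith
    have a2 : M * S ^ 3 ≤ 16 ^ k * Y ^ 3 * (N : ℝ) ^ (4 * k) := by
      have c1 : S ^ 3 ≤ (M * Y) ^ 3 := pow_le_pow_left₀ hS0 hS 3
      have c2 : (M : ℝ) * S ^ 3 ≤ M * (M * Y) ^ 3 := mul_le_mul_of_nonneg_left c1 (by positivity)
      have c3 : (M : ℝ) * (M * Y) ^ 3 = 16 ^ k * Y ^ 3 * (N : ℝ) ^ (4 * k) := by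
        have c4 : (16 : ℝ) ^ k = (2 ^ k) ^ 4 := by
          rw [← pow_mul, mul_comm, pow_mul]
          norm_num
        have c5 : (N : ℝ) ^ (4 * k) = ((N : ℝ) ^ k) ^ 4 := by
          rw [← pow_mul, mul_comm]
        rw [hMR, c4, c5]
        ring
      linarith
    have p1 : 0 < V ^ (2 * k) := by positivity
    have p2 : 0 < V ^ (6 * k) := by positivity
    have a3 : M * S / V ^ (2 * k) ≤ 16 ^ k * Y ^ 3 * ((N : ℝ) ^ (2 * k) / V ^ (2 * k)) := by
      rw [mul_div_assoc']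
      exact div_le_div_of_nonneg_right a1 p1.le
    have a4 : T * M * S ^ 3 / V ^ (6 * k) ≤
        16 ^ k * Y ^ 3 * (T * (N : ℝ) ^ (4 * k) / V ^ (6 * k)) := by
      rw [mul_div_assoc']
      refine div_le_div_of_nonneg_right ?_ p2.le
      have := mul_le_mul_of_nonneg_left a2 (by linarith : (0 : ℝ) ≤ T)
      linarith
    have p3 : 0 ≤ (N : ℝ) ^ (2 * k) / V ^ (2 * k) + T * (N : ℝ) ^ (4 * k) / V ^ (6 * k) := by
      positivity
    calc C0 * Real.log X ^ 6 * (M * S / V ^ (2 * k) + T * M * S ^ 3 / V ^ (6 * k)) ≤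
        C0 * Real.log X ^ 6 * (16 ^ k * Y ^ 3 * ((N : ℝ) ^ (2 * k) / V ^ (2 * k)) +
          16 ^ k * Y ^ 3 * (T * (N : ℝ) ^ (4 * k) / V ^ (6 * k))) :=
          mul_le_mul_of_nonneg_left (add_le_add a3 a4) (by positivity)
      _ = (C0 * 16 ^ k * Real.log X ^ 6) * Y ^ 3 * ((N : ℝ) ^ (2 * k) / V ^ (2 * k) +
          T * (N : ℝ) ^ (4 * k) / V ^ (6 * k)) := by ring
      _ ≤ Y * Y ^ 3 * ((N : ℝ) ^ (2 * k) / V ^ (2 * k) +
          T * (N : ℝ) ^ (4 * k) / V ^ (6 * k)) :=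
          mul_le_mul_of_nonneg_right (mul_le_mul_of_nonneg_right h3 (by positivity)) p3
      _ ≤ Y ^ 16 * ((N : ℝ) ^ (2 * k) / V ^ (2 * k) +
          T * (N : ℝ) ^ (4 * k) / V ^ (6 * k)) := by
          refine mul_le_mul_of_nonneg_right ?_ p3
          rw [← pow_succ']
          exact pow_le_pow_right₀ hY1 (by norm_num)
      _ = _ := by rw [hY16]
  rcases min_choice (T * (N : ℝ) ^ k / V ^ (2 * k)) (T * (N : ℝ) ^ (4 * k) / V ^ (6 * k)) with
    h | h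
  · rw [h]
    exact b1
  · rw [h]
    exact b2

end Pool.Agent.H88.PSI

end

section

/-!
# PSI Lvs: large values of one factor, exponents

Choose `k` with `N^k ∈ [X^(2/3-e), X^(1-e)]`: `k = 2` if `N > X^(1/3)` (then `X^(2/3) < N^2 ≤ X^(11/12) ≤ X^(1-e)`), otherwise the least `k`
with `N^k ≥ X^(2/3-e)` (then `N^k < X^(2/3-e) N ≤ X^(1-e)`); `k ≤ 1/κ + 1`, so `X0` = the maximum of the `X0` of `lvk k (e δ/8)` (`lvk k (δ/2)`
for `lvl`) over these `k`, and `2^k X^(1-e) ≤ X`.  Write `N^k = X^u`, `u ∈ [2/3-e, 1-e]`, `V = N^σ`.  Exponents in `lvk`: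
* first term: `2u(1-σ)`;
* second: `5/6 - e + u(1-2σ)`, `5/6 - e + u(4-6σ)`.

`lvs`: `σ = s - eδ/4`.  First: `2u(1-σ) ≤ 2(1-e)(1-s+eδ/4) ≤ 2-2s - (3/2) e δ`.  Second: the smaller one is `≤ 2-2σ-e/2`:
for `σ ≤ 1/2`: `5/6-e+(1-2σ)`; for `1/2 ≤ σ ≤ 3/4`: `2-2σ-(5/6-e)-u(1-2σ) ≥ 1/2+2e-σ(2/3+2e) ≥ e/2`; for `3/4 ≤ σ ≤ 1`:
`2-2σ-(5/6-e)-u(4-6σ) ≥ -3/2+5e+σ(2-6e) ≥ e/2`.  And `2-2σ-e/2 = 2-2s+eδ/2-e/2 ≤ 2-2s-(9/8)eδ - e/16`-ish (`δ ≤ 1/4`).  Total
`X^(eδ/8) (X^(2-2s-3eδ/2) + X^(2-2s-9eδ/8-..)) ≤ X^(2-2s-eδ)`.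

`lvl`: `σ = 1-δ`: first `≤ 2δ`; second (Huxley) `5/6-e-2u+6uδ ≤ 5/6-4/3+2e+6δ < 0`.  Total `≤ X^(3δ)`.
-/

set_option autoImplicit false

namespace Pool.Agent.H88.PSI

open Finset MeasureTheory

private theorem lvs_k {x n e κ : ℝ} {K : ℕ} (hx : 3 ≤ x) (hn : 1 ≤ n) (he : 0 < e)
    (he' : e ≤ 1 / 100) (hK : 1 ≤ κ * K) (h1 : x ^ κ ≤ n)
    (h2 : n ≤ x ^ (11 / 24 : ℝ)) : ∃ j : ℕ, j < K + 2 ∧ x ^ (2 / 3 - e) ≤ n ^ (j + 1) ∧
      n ^ (j + 1) ≤ x ^ (1 - e) := by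
  have hx0 : 0 < x := by linarith
  have hx1 : 1 < x := by linarith
  have hn0 : 0 < n := by linarith
  by_cases h3 : x ^ (1 / 3 : ℝ) < n
  · refine ⟨1, by omega, ?_, ?_⟩
    · calc x ^ (2 / 3 - e) ≤ x ^ (1 / 3 + 1 / 3 : ℝ) :=
            Real.rpow_le_rpow_of_exponent_le hx1.le (by linarith)
        _ = x ^ (1 / 3 : ℝ) * x ^ (1 / 3 : ℝ) := Real.rpow_add hx0 _ _
        _ ≤ n * n := mul_le_mul h3.le h3.le (Real.rpow_nonneg hx0.le _) hn0.le
        _ = n ^ (1 + 1) := by ring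
    · calc n ^ (1 + 1) = n * n := by ring
        _ ≤ x ^ (11 / 24 : ℝ) * x ^ (11 / 24 : ℝ) :=
            mul_le_mul h2 h2 hn0.le (Real.rpow_nonneg hx0.le _)
        _ = x ^ (11 / 24 + 11 / 24 : ℝ) := (Real.rpow_add hx0 _ _).symm
        _ ≤ x ^ (1 - e) := Real.rpow_le_rpow_of_exponent_le hx1.le (by linarith)
  · push Not at h3
    have hex : ∃ k : ℕ, x ^ (2 / 3 - e) ≤ n ^ k := by
      refine ⟨K, ?_⟩
      calc x ^ (2 / 3 - e) ≤ x ^ (κ * K) :=
            Real.rpow_le_rpow_of_exponent_le hx1.le (by linarith)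
        _ = (x ^ κ) ^ K := by rw [Real.rpow_mul hx0.le, Real.rpow_natCast]
        _ ≤ n ^ K := pow_le_pow_left₀ (Real.rpow_nonneg hx0.le _) h1 K
    classical
    have hle : Nat.find hex ≤ K := by
      refine Nat.find_min' hex ?_
      calc x ^ (2 / 3 - e) ≤ x ^ (κ * K) :=
            Real.rpow_le_rpow_of_exponent_le hx1.le (by linarith)
        _ = (x ^ κ) ^ K := by rw [Real.rpow_mul hx0.le, Real.rpow_natCast]
        _ ≤ n ^ K := pow_le_pow_left₀ (Real.rpow_nonneg hx0.le _) h1 K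
    have hne : Nat.find hex ≠ 0 := by
      intro h0
      have h4 := Nat.find_spec hex
      rw [h0, pow_zero] at h4
      have h5 : 1 < x ^ (2 / 3 - e) := Real.one_lt_rpow hx1 (by linarith)
      linarith
    obtain ⟨j, hj⟩ := Nat.exists_eq_succ_of_ne_zero hne
    refine ⟨j, by omega, ?_, ?_⟩
    · have h4 := Nat.find_spec hex
      rw [hj] at h4
      exact h4
    · have h5 : ¬ x ^ (2 / 3 - e) ≤ n ^ j := Nat.find_min hex (by omega)
      push Not at h5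
      calc n ^ (j + 1) = n ^ j * n := pow_succ _ _
        _ ≤ x ^ (2 / 3 - e) * x ^ (1 / 3 : ℝ) :=
            mul_le_mul h5.le h3 hn0.le (Real.rpow_nonneg hx0.le _)
        _ = x ^ (2 / 3 - e + 1 / 3) := (Real.rpow_add hx0 _ _).symm
        _ = x ^ (1 - e) := by congr 1; ring

private theorem lvs_core (e e1 κ : ℝ) (he : 0 < e) (he' : e ≤ 1 / 100) (he1 : 0 < e1)
    (hκ : 0 < κ) : ∃ X0 : ℕ, ∀ X : ℕ, X0 ≤ X → 3 ≤ X ∧
    ∀ (N : ℕ) (g : ArithmeticFunction ℂ) (σ T : ℝ) (B : Set ℝ),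
    (X : ℝ) ^ κ ≤ N → (N : ℝ) ≤ (X : ℝ) ^ (11 / 24 : ℝ) →
    (∀ n, g n ≠ 0 → n ≤ 2 * N) → (∀ n, ‖g n‖ ≤ 2 * Real.log X) →
    1 ≤ T → T ≤ (X : ℝ) ^ (5 / 6 - e) → MeasurableSet B → B ⊆ Set.Icc (-T) T →
    (∀ t ∈ B, (N : ℝ) ^ σ ≤ ‖DP g (2 * N) t‖) →
    ∃ u : ℝ, 2 / 3 - e ≤ u ∧ u ≤ 1 - e ∧ volume.real B ≤ (X : ℝ) ^ e1 *
      ((X : ℝ) ^ (2 * u * (1 - σ)) + min ((X : ℝ) ^ (5 / 6 - e + u * (1 - 2 * σ)))
        ((X : ℝ) ^ (5 / 6 - e + u * (4 - 6 * σ)))) := by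
  choose f hf using fun j : ℕ => lvk (j + 1) e1 (by omega) he1
  set K : ℕ := ⌈1 / κ⌉₊ with hK
  have hK1 : 1 ≤ κ * K := by
    have h1 : 1 / κ ≤ K := Nat.le_ceil _
    rw [div_le_iff₀ hκ] at h1
    linarith
  refine ⟨max (∑ j ∈ range (K + 2), f j) (max 3 ⌈((2 : ℝ) ^ (K + 2)) ^ (1 / e)⌉₊),
    fun X hX => ?_⟩
  have hX1 : ∑ j ∈ range (K + 2), f j ≤ X := (le_max_left _ _).trans hX
  have hX3 : 3 ≤ X := (le_max_left _ _).trans ((le_max_right _ _).trans hX)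
  have hX2 : ⌈((2 : ℝ) ^ (K + 2)) ^ (1 / e)⌉₊ ≤ X :=
    (le_max_right _ _).trans ((le_max_right _ _).trans hX)
  refine ⟨hX3, fun N g σ T B h1 h2 hg hg' hT hT' hB hBT hV => ?_⟩
  set x : ℝ := (X : ℝ) with hx
  have hx3 : 3 ≤ x := by
    rw [hx]
    exact_mod_cast hX3
  have hx0 : 0 < x := by linarith
  have hx1 : 1 < x := by linarith
  have hN1 : (1 : ℝ) ≤ N := (Real.one_le_rpow hx1.le hκ.le).trans h1
  have hN0 : (0 : ℝ) < N := by linarith
  have hN : 1 ≤ N := by exact_mod_cast hN1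
  obtain ⟨j, hj, k1, k2⟩ := lvs_k hx3 hN1 he he' hK1 h1 h2
  have hfX : f j ≤ X := (single_le_sum (fun i _ => Nat.zero_le (f i)) (mem_range.2 hj)).trans hX1
  have h2e : (2 : ℝ) ^ (K + 2) ≤ x ^ e := by
    have h3 : ((2 : ℝ) ^ (K + 2)) ^ (1 / e) ≤ x := (Nat.le_ceil _).trans (by rw [hx]; exact_mod_cast hX2)
    have h4 : (((2 : ℝ) ^ (K + 2)) ^ (1 / e)) ^ e ≤ x ^ e :=
      Real.rpow_le_rpow (by positivity) h3 he.le
    rwa [← Real.rpow_mul (by positivity), one_div_mul_cancel he.ne', Real.rpow_one] at h4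
  have hpow : (2 * N) ^ (j + 1) ≤ X := by
    have h3 : ((2 * N : ℕ) : ℝ) ^ (j + 1) ≤ x := by
      push_cast
      rw [mul_pow]
      calc (2 : ℝ) ^ (j + 1) * (N : ℝ) ^ (j + 1) ≤ 2 ^ (K + 2) * x ^ (1 - e) :=
            mul_le_mul (pow_le_pow_right₀ (by norm_num) (by omega)) k2 (by positivity)
              (by positivity)
        _ ≤ x ^ e * x ^ (1 - e) := mul_le_mul_of_nonneg_right h2e (Real.rpow_nonneg hx0.le _)
        _ = x := by rw [← Real.rpow_add hx0]; simp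
    rw [hx] at h3
    exact_mod_cast h3
  have hTX : T ≤ x := by
    refine hT'.trans ?_
    calc x ^ (5 / 6 - e) ≤ x ^ (1 : ℝ) := Real.rpow_le_rpow_of_exponent_le hx1.le (by linarith)
      _ = x := Real.rpow_one x
  have hV0 : 0 < (N : ℝ) ^ σ := Real.rpow_pos_of_pos hN0 _
  have main := hf j X hfX N g ((N : ℝ) ^ σ) T B hN hpow hg hg' hV0 hT hTX hB hBT hV
  obtain ⟨u, hu⟩ : ∃ u : ℝ, x ^ u = (N : ℝ) ^ (j + 1) :=
    ⟨Real.logb x ((N : ℝ) ^ (j + 1)), Real.rpow_logb hx0 hx1.ne' (by positivity)⟩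
  have u1 : 2 / 3 - e ≤ u := by
    rw [← hu] at k1
    exact (Real.rpow_le_rpow_left_iff hx1).1 k1
  have u2 : u ≤ 1 - e := by
    rw [← hu] at k2
    exact (Real.rpow_le_rpow_left_iff hx1).1 k2
  -- the powers of `N` and `V`
  have pN : ∀ m : ℕ, (N : ℝ) ^ (m * (j + 1)) = x ^ (m * u) := by
    intro m
    rw [mul_comm m, pow_mul, ← hu, ← Real.rpow_natCast, ← Real.rpow_mul hx0.le, mul_comm u]
  have pV : ∀ m : ℕ, ((N : ℝ) ^ σ) ^ (m * (j + 1)) = x ^ (m * u * σ) := by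
    intro m
    rw [← Real.rpow_natCast, ← Real.rpow_mul hN0.le, mul_comm σ, Real.rpow_mul hN0.le,
      Real.rpow_natCast, pN, ← Real.rpow_mul hx0.le]
  have p1 : (N : ℝ) ^ (j + 1) = x ^ (1 * u) := by rw [one_mul, hu]
  refine ⟨u, u1, u2, main.trans ?_⟩
  refine mul_le_mul_of_nonneg_left (add_le_add ?_ (min_le_min ?_ ?_)) (Real.rpow_nonneg hx0.le _)
  · rw [pN, pV, ← Real.rpow_sub hx0]
    refine le_of_eq ?_
    congr 1
    push_cast
    ring
  · rw [p1, pV]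
    calc T * x ^ (1 * u) / x ^ (((2 : ℕ) : ℝ) * u * σ)
        ≤ x ^ (5 / 6 - e) * x ^ (1 * u) / x ^ (((2 : ℕ) : ℝ) * u * σ) := by gcongr
      _ = x ^ (5 / 6 - e + u * (1 - 2 * σ)) := by
        rw [← Real.rpow_add hx0, ← Real.rpow_sub hx0]
        congr 1
        push_cast
        ring
  · rw [pN, pV]
    calc T * x ^ (((4 : ℕ) : ℝ) * u) / x ^ (((6 : ℕ) : ℝ) * u * σ)
        ≤ x ^ (5 / 6 - e) * x ^ (((4 : ℕ) : ℝ) * u) / x ^ (((6 : ℕ) : ℝ) * u * σ) := by gcongr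
      _ = x ^ (5 / 6 - e + u * (4 - 6 * σ)) := by
        rw [← Real.rpow_add hx0, ← Real.rpow_sub hx0]
        congr 1
        push_cast
        ring

private theorem lvs_two {c : ℝ} (hc : 0 < c) : ∃ X0 : ℕ, ∀ X : ℕ, X0 ≤ X → 2 ≤ (X : ℝ) ^ c := by
  refine ⟨⌈(2 : ℝ) ^ (1 / c)⌉₊, fun X hX => ?_⟩
  have h3 : (2 : ℝ) ^ (1 / c) ≤ X := (Nat.le_ceil _).trans (by exact_mod_cast hX)
  have h4 : ((2 : ℝ) ^ (1 / c)) ^ c ≤ (X : ℝ) ^ c := Real.rpow_le_rpow (by positivity) h3 hc.le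
  rwa [← Real.rpow_mul (by norm_num), one_div_mul_cancel hc.ne', Real.rpow_one] at h4

theorem lvl (e δ κ : ℝ) (he : 0 < e) (he' : e ≤ 1 / 100) (hδ : 0 < δ) (hδ' : δ ≤ 1 / 50) (hκ : 0 < κ) :
    ∃ X0 : ℕ, ∀ X : ℕ, X0 ≤ X → ∀ (N : ℕ) (g : ArithmeticFunction ℂ) (T : ℝ) (B : Set ℝ),
    (X : ℝ) ^ κ ≤ N → (N : ℝ) ≤ (X : ℝ) ^ (11 / 24 : ℝ) →
    (∀ n, g n ≠ 0 → n ≤ 2 * N) → (∀ n, ‖g n‖ ≤ 2 * Real.log X) →
    1 ≤ T → T ≤ (X : ℝ) ^ (5 / 6 - e) → MeasurableSet B → B ⊆ Set.Icc (-T) T →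
    (∀ t ∈ B, (N : ℝ) ^ (1 - δ) ≤ ‖DP g (2 * N) t‖) →
    volume.real B ≤ (X : ℝ) ^ (3 * δ) := by
  obtain ⟨X1, h1⟩ := lvs_core e (δ / 2) κ he he' (by positivity) hκ
  obtain ⟨X2, h2⟩ := lvs_two (c := δ / 2) (by positivity)
  refine ⟨max X1 X2, fun X hX N g T B hN hN' hg hg' hT hT' hB hBT hV => ?_⟩
  obtain ⟨hX3, h3⟩ := h1 X ((le_max_left _ _).trans hX)
  have h4 := h2 X ((le_max_right _ _).trans hX)
  obtain ⟨u, u1, u2, hb⟩ := h3 N g (1 - δ) T B hN hN' hg hg' hT hT' hB hBT hV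
  set x : ℝ := (X : ℝ) with hx
  have hx3 : 3 ≤ x := by
    rw [hx]
    exact_mod_cast hX3
  have hx0 : 0 < x := by linarith
  have hx1 : 1 ≤ x := by linarith
  have b1 : x ^ (2 * u * (1 - (1 - δ))) ≤ x ^ (2 * δ) := by
    refine Real.rpow_le_rpow_of_exponent_le hx1 ?_
    nlinarith
  have b2 : min (x ^ (5 / 6 - e + u * (1 - 2 * (1 - δ))))
      (x ^ (5 / 6 - e + u * (4 - 6 * (1 - δ)))) ≤ x ^ (2 * δ) := by
    refine (min_le_right _ _).trans (Real.rpow_le_rpow_of_exponent_le hx1 ?_)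
    nlinarith
  calc volume.real B ≤ x ^ (δ / 2) * (x ^ (2 * δ) + x ^ (2 * δ)) :=
        hb.trans (mul_le_mul_of_nonneg_left (add_le_add b1 b2) (Real.rpow_nonneg hx0.le _))
    _ = 2 * x ^ (δ / 2 + 2 * δ) := by
        rw [← two_mul, mul_left_comm, ← Real.rpow_add hx0]
    _ ≤ x ^ (δ / 2) * x ^ (δ / 2 + 2 * δ) :=
        mul_le_mul_of_nonneg_right h4 (Real.rpow_nonneg hx0.le _)
    _ = x ^ (3 * δ) := by
        rw [← Real.rpow_add hx0]
        congr 1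
        ring

end Pool.Agent.H88.PSI

end

section

/-!
# PSI BoxM: the measure of the set where the product is `> X^(1-δ)`

`cov` with `κ = 4δ`, `s = 1` (`X^(s-κ/4) = X^(1-δ)`), then `lvl` with `4δ ≤ 1/50` and `κ := δ/6`: `≤ 6 X^(12 δ) ≤ X^(13 δ)`.
-/

set_option autoImplicit false

namespace Pool.Agent.H88.PSI

open Finset MeasureTheory

theorem box_m (e δ : ℝ) (he : 0 < e) (he' : e ≤ 1 / 100) (hδ : 0 < δ) (hδ' : δ ≤ 1 / 200) :
    ∃ X0 : ℕ, ∀ X : ℕ, X0 ≤ X → ∀ (r : ℕ) (N : Fin r → ℕ) (g : Fin r → ArithmeticFunction ℂ) (T : ℝ),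
    Box X N g → 1 ≤ T → T ≤ (X : ℝ) ^ (5 / 6 - e) →
    volume.real {t : ℝ | |t| ≤ T ∧ (X : ℝ) ^ (1 - δ) < FF N g t} ≤ (X : ℝ) ^ (13 * δ) := by
  classical
  obtain ⟨X1, h1⟩ := cov (4 * δ) (by positivity) (by linarith)
  obtain ⟨X2, h2⟩ := lvl e (4 * δ) (δ / 6) he he' (by positivity) (by linarith) (by positivity)
  obtain ⟨X3, h3⟩ : ∃ X3 : ℕ, ∀ X : ℕ, X3 ≤ X → (6 : ℝ) ≤ (X : ℝ) ^ δ := by
    have h4 := (tendsto_rpow_atTop hδ).comp tendsto_natCast_atTop_atTop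
    exact Filter.eventually_atTop.1 (h4.eventually (Filter.eventually_ge_atTop 6))
  refine ⟨X1 + X2 + X3 + 1, fun X hX r N g T hB hT hT' => ?_⟩
  have hX0 : (0 : ℝ) < X := by
    have : 0 < X := by omega
    exact_mod_cast this
  set B : Fin r → Set ℝ := fun i => if (X : ℝ) ^ (δ / 6) ≤ N i then
    {t | t ∈ Set.Icc (-T) T ∧ (N i : ℝ) ^ (1 - 4 * δ) ≤ ‖DP (g i) (2 * N i) t‖} else ∅ with hBd
  have hsub : {t : ℝ | |t| ≤ T ∧ (X : ℝ) ^ (1 - δ) < FF N g t} ⊆ ⋃ i, B i := by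
    rintro t ⟨ht, hF⟩
    obtain ⟨i, hi1, hi2⟩ := h1 X (by omega) r N (fun i => ‖DP (g i) (2 * N i) t‖) 1 hB.hr hB.one
      hB.prod (fun i => norm_nonneg _) (fun i => box_tr hB i t) (by norm_num) (by linarith)
      (by
        have h5 : 1 - 4 * δ / 4 = 1 - δ := by ring
        rw [h5]
        exact hF)
    rw [Set.mem_iUnion]
    refine ⟨i, ?_⟩
    simp only [hBd]
    have h6 : 4 * δ / 24 = δ / 6 := by ring
    rw [h6] at hi1
    rw [if_pos hi1]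
    exact ⟨abs_le.1 ht, hi2⟩
  have hBi : ∀ i, volume.real (B i) ≤ (X : ℝ) ^ (12 * δ) := by
    intro i
    simp only [hBd]
    by_cases h5 : (X : ℝ) ^ (δ / 6) ≤ N i
    · rw [if_pos h5]
      have h6 : 3 * (4 * δ) = 12 * δ := by ring
      have h7 := h2 X (by omega) (N i) (g i) T
        {t | t ∈ Set.Icc (-T) T ∧ (N i : ℝ) ^ (1 - 4 * δ) ≤ ‖DP (g i) (2 * N i) t‖} h5 (hB.top i)
        (fun n hn => (hB.supp i n hn).2.le) (hB.bd i) hT hT'
        (measurableSet_Icc.inter (measurableSet_le measurable_const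
          (dp_cont _ _).norm.measurable)) (fun t ht => ht.1) (fun t ht => ht.2)
      rwa [h6] at h7
    · rw [if_neg h5, measureReal_empty]
      positivity
  have hBsub : ∀ i, B i ⊆ Set.Icc (-T) T := by
    intro i t ht
    simp only [hBd] at ht
    by_cases h5 : (X : ℝ) ^ (δ / 6) ≤ N i
    · rw [if_pos h5] at ht
      exact ht.1
    · rw [if_neg h5] at ht
      exact absurd ht (Set.notMem_empty _)
  have hfin : volume (⋃ i, B i) ≠ ⊤ := by
    refine ne_top_of_le_ne_top ?_ (measure_mono (Set.iUnion_subset hBsub))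
    rw [Real.volume_Icc]
    exact ENNReal.ofReal_ne_top
  calc volume.real {t : ℝ | |t| ≤ T ∧ (X : ℝ) ^ (1 - δ) < FF N g t}
      ≤ volume.real (⋃ i, B i) := measureReal_mono hsub hfin
    _ ≤ ∑ i, volume.real (B i) := measureReal_iUnion_fintype_le _
    _ ≤ ∑ _i : Fin r, (X : ℝ) ^ (12 * δ) := Finset.sum_le_sum fun i _ => hBi i
    _ = r * (X : ℝ) ^ (12 * δ) := by
      rw [Finset.sum_const, Finset.card_univ, Fintype.card_fin, nsmul_eq_mul]
    _ ≤ (X : ℝ) ^ δ * (X : ℝ) ^ (12 * δ) := by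
      refine mul_le_mul_of_nonneg_right ?_ (by positivity)
      have h5 : (r : ℝ) ≤ 6 := by exact_mod_cast hB.hr
      exact h5.trans (h3 X (by omega))
    _ = (X : ℝ) ^ (13 * δ) := by
      rw [← Real.rpow_add hX0]
      congr 1
      ring

end Pool.Agent.H88.PSI

end

section

/-!
# E58 Lv: measure of the large value set of one factor, `T ≤ X^(3/8-e)`

Same proof as `Pool/Agent/H88/PSI/Lvs.lean` with other numbers.  Let `N = X^ν`, `κ ≤ ν ≤ 11/24`; `k` maximal with `k ν ≤ 1/2 - e/2` (fixed range of `k`: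
`1 ≤ k ≤ 1/κ`; the constants `2^k` are absorbed), `u = k ν`, so that `1/4 - e/4 < u ≤ 1/2 - e/2`.  With `V = N^(s-eδ/4)` and `e1` small (`e1 = eδ/100`), `lvk` gives
`vol ≤ X^e1 (X^(2u(1-s) + u e δ/2) + X^(3/8 - e + min (u(1-2s)) (u(4-6s)) + 3 u e δ/2))`.
First term: `2u(1-s) + u e δ/2 + e1 ≤ (1-s) - e(1-s) + eδ/4 + e1`, and `e (1-s) ≥ e δ`: `≤ 1 - s - 3eδ/4 + e1`.  Second term: for `s ≤ 3/4` use `u(1-2s)`:
`3/8 - e + u(1-2s) - (1-s)` is increasing in `s`, for `s ≥ 3/4` use `u(4-6s)`: `3/8 - e + u(4-6s) - (1-s)` is decreasing in `s` (`u > 1/6`);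
at `s = 3/4` both are `1/8 - e - u/2 ≤ -7e/8`.  (`δ ≤ 1/4`, so `3uδe/2 + e1 + eδ/2 ≤ 7e/8 - ...`.)
-/

set_option autoImplicit false

namespace Pool.Agent.H88.E58

open Finset MeasureTheory
open Pool.Agent.H88.PSI

private theorem Lv_k {x n e κ : ℝ} {K : ℕ} (hx : 3 ≤ x) (hn : 1 ≤ n) (he : 0 < e)
    (he' : e ≤ 1 / 100) (hK : 1 ≤ κ * K) (h1 : x ^ κ ≤ n)
    (h2 : n ≤ x ^ (11 / 24 : ℝ)) : ∃ j : ℕ, j < K + 2 ∧ x ^ (1 / 4 - e / 4) ≤ n ^ (j + 1) ∧
      n ^ (j + 1) ≤ x ^ (1 / 2 - e / 2) := by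
  have hx0 : 0 < x := by linarith
  have hx1 : 1 < x := by linarith
  have hn0 : 0 < n := by linarith
  have hKx : x ^ (1 / 2 - e / 2) < n ^ K := by
    calc x ^ (1 / 2 - e / 2) < x ^ (κ * K) :=
          Real.rpow_lt_rpow_of_exponent_lt hx1 (by linarith)
      _ = (x ^ κ) ^ K := by rw [Real.rpow_mul hx0.le, Real.rpow_natCast]
      _ ≤ n ^ K := pow_le_pow_left₀ (Real.rpow_nonneg hx0.le _) h1 K
  have hex : ∃ k : ℕ, x ^ (1 / 2 - e / 2) < n ^ k := ⟨K, hKx⟩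
  classical
  have hle : Nat.find hex ≤ K := Nat.find_min' hex hKx
  have hspec := Nat.find_spec hex
  have hne : 2 ≤ Nat.find hex := by
    by_contra hcon
    have h3 : n ^ Nat.find hex ≤ n ^ 1 := pow_le_pow_right₀ hn (by omega)
    have h4 : x ^ (11 / 24 : ℝ) ≤ x ^ (1 / 2 - e / 2) :=
      Real.rpow_le_rpow_of_exponent_le hx1.le (by linarith)
    rw [pow_one] at h3
    linarith
  obtain ⟨j, hj⟩ := Nat.exists_eq_add_of_le hne
  have hj' : Nat.find hex = (j + 1) + 1 := by omega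
  have h5 : ¬ x ^ (1 / 2 - e / 2) < n ^ (j + 1) := Nat.find_min hex (by omega)
  push Not at h5
  refine ⟨j, by omega, ?_, h5⟩
  have h6 : x ^ (1 / 2 - e / 2) ≤ (n ^ (j + 1)) ^ 2 := by
    rw [← pow_mul]
    refine hspec.le.trans (pow_le_pow_right₀ hn ?_)
    omega
  have h7 : (x ^ (1 / 4 - e / 4)) ^ 2 = x ^ (1 / 2 - e / 2) := by
    rw [← Real.rpow_natCast, ← Real.rpow_mul hx0.le]
    congr 1
    push_cast
    ring
  rw [← h7] at h6
  exact (pow_le_pow_iff_left₀ (Real.rpow_nonneg hx0.le _) (by positivity) two_ne_zero).1 h6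

private theorem Lv_core (e e1 κ : ℝ) (he : 0 < e) (he' : e ≤ 1 / 100) (he1 : 0 < e1)
    (hκ : 0 < κ) : ∃ X0 : ℕ, ∀ X : ℕ, X0 ≤ X → 3 ≤ X ∧
    ∀ (N : ℕ) (g : ArithmeticFunction ℂ) (σ T : ℝ) (B : Set ℝ),
    (X : ℝ) ^ κ ≤ N → (N : ℝ) ≤ (X : ℝ) ^ (11 / 24 : ℝ) →
    (∀ n, g n ≠ 0 → n ≤ 2 * N) → (∀ n, ‖g n‖ ≤ 2 * Real.log X) →
    1 ≤ T → T ≤ (X : ℝ) ^ (3 / 8 - e) → MeasurableSet B → B ⊆ Set.Icc (-T) T →
    (∀ t ∈ B, (N : ℝ) ^ σ ≤ ‖DP g (2 * N) t‖) →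
    ∃ u : ℝ, 1 / 4 - e / 4 ≤ u ∧ u ≤ 1 / 2 - e / 2 ∧ volume.real B ≤ (X : ℝ) ^ e1 *
      ((X : ℝ) ^ (2 * u * (1 - σ)) + min ((X : ℝ) ^ (3 / 8 - e + u * (1 - 2 * σ)))
        ((X : ℝ) ^ (3 / 8 - e + u * (4 - 6 * σ)))) := by
  choose f hf using fun j : ℕ => lvk (j + 1) e1 (by omega) he1
  set K : ℕ := ⌈1 / κ⌉₊ with hK
  have hK1 : 1 ≤ κ * K := by
    have h1 : 1 / κ ≤ K := Nat.le_ceil _
    rw [div_le_iff₀ hκ] at h1
    linarith
  refine ⟨max (∑ j ∈ range (K + 2), f j) (max 3 ⌈((2 : ℝ) ^ (K + 2)) ^ (1 / e)⌉₊),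
    fun X hX => ?_⟩
  have hX1 : ∑ j ∈ range (K + 2), f j ≤ X := (le_max_left _ _).trans hX
  have hX3 : 3 ≤ X := (le_max_left _ _).trans ((le_max_right _ _).trans hX)
  have hX2 : ⌈((2 : ℝ) ^ (K + 2)) ^ (1 / e)⌉₊ ≤ X :=
    (le_max_right _ _).trans ((le_max_right _ _).trans hX)
  refine ⟨hX3, fun N g σ T B h1 h2 hg hg' hT hT' hB hBT hV => ?_⟩
  set x : ℝ := (X : ℝ) with hx
  have hx3 : 3 ≤ x := by
    rw [hx]
    exact_mod_cast hX3
  have hx0 : 0 < x := by linarith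
  have hx1 : 1 < x := by linarith
  have hN1 : (1 : ℝ) ≤ N := (Real.one_le_rpow hx1.le hκ.le).trans h1
  have hN0 : (0 : ℝ) < N := by linarith
  have hN : 1 ≤ N := by exact_mod_cast hN1
  obtain ⟨j, hj, k1, k2⟩ := Lv_k hx3 hN1 he he' hK1 h1 h2
  have hfX : f j ≤ X := (single_le_sum (fun i _ => Nat.zero_le (f i)) (mem_range.2 hj)).trans hX1
  have h2e : (2 : ℝ) ^ (K + 2) ≤ x ^ e := by
    have h3 : ((2 : ℝ) ^ (K + 2)) ^ (1 / e) ≤ x := (Nat.le_ceil _).trans (by rw [hx]; exact_mod_cast hX2)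
    have h4 : (((2 : ℝ) ^ (K + 2)) ^ (1 / e)) ^ e ≤ x ^ e :=
      Real.rpow_le_rpow (by positivity) h3 he.le
    rwa [← Real.rpow_mul (by positivity), one_div_mul_cancel he.ne', Real.rpow_one] at h4
  have hpow : (2 * N) ^ (j + 1) ≤ X := by
    have h3 : ((2 * N : ℕ) : ℝ) ^ (j + 1) ≤ x := by
      push_cast
      rw [mul_pow]
      calc (2 : ℝ) ^ (j + 1) * (N : ℝ) ^ (j + 1) ≤ 2 ^ (K + 2) * x ^ (1 / 2 - e / 2) :=
            mul_le_mul (pow_le_pow_right₀ (by norm_num) (by omega)) k2 (by positivity)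
              (by positivity)
        _ ≤ x ^ e * x ^ (1 / 2 - e / 2) := mul_le_mul_of_nonneg_right h2e (Real.rpow_nonneg hx0.le _)
        _ = x ^ (e + (1 / 2 - e / 2)) := (Real.rpow_add hx0 _ _).symm
        _ ≤ x ^ (1 : ℝ) := Real.rpow_le_rpow_of_exponent_le hx1.le (by linarith)
        _ = x := Real.rpow_one x
    rw [hx] at h3
    exact_mod_cast h3
  have hTX : T ≤ x := by
    refine hT'.trans ?_
    calc x ^ (3 / 8 - e) ≤ x ^ (1 : ℝ) := Real.rpow_le_rpow_of_exponent_le hx1.le (by linarith)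
      _ = x := Real.rpow_one x
  have hV0 : 0 < (N : ℝ) ^ σ := Real.rpow_pos_of_pos hN0 _
  have main := hf j X hfX N g ((N : ℝ) ^ σ) T B hN hpow hg hg' hV0 hT hTX hB hBT hV
  obtain ⟨u, hu⟩ : ∃ u : ℝ, x ^ u = (N : ℝ) ^ (j + 1) :=
    ⟨Real.logb x ((N : ℝ) ^ (j + 1)), Real.rpow_logb hx0 hx1.ne' (by positivity)⟩
  have u1 : 1 / 4 - e / 4 ≤ u := by
    rw [← hu] at k1
    exact (Real.rpow_le_rpow_left_iff hx1).1 k1
  have u2 : u ≤ 1 / 2 - e / 2 := by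
    rw [← hu] at k2
    exact (Real.rpow_le_rpow_left_iff hx1).1 k2
  -- the powers of `N` and `V`
  have pN : ∀ m : ℕ, (N : ℝ) ^ (m * (j + 1)) = x ^ (m * u) := by
    intro m
    rw [mul_comm m, pow_mul, ← hu, ← Real.rpow_natCast, ← Real.rpow_mul hx0.le, mul_comm u]
  have pV : ∀ m : ℕ, ((N : ℝ) ^ σ) ^ (m * (j + 1)) = x ^ (m * u * σ) := by
    intro m
    rw [← Real.rpow_natCast, ← Real.rpow_mul hN0.le, mul_comm σ, Real.rpow_mul hN0.le,
      Real.rpow_natCast, pN, ← Real.rpow_mul hx0.le]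
  have p1 : (N : ℝ) ^ (j + 1) = x ^ (1 * u) := by rw [one_mul, hu]
  refine ⟨u, u1, u2, main.trans ?_⟩
  refine mul_le_mul_of_nonneg_left (add_le_add ?_ (min_le_min ?_ ?_)) (Real.rpow_nonneg hx0.le _)
  · rw [pN, pV, ← Real.rpow_sub hx0]
    refine le_of_eq ?_
    congr 1
    push_cast
    ring
  · rw [p1, pV]
    calc T * x ^ (1 * u) / x ^ (((2 : ℕ) : ℝ) * u * σ)
        ≤ x ^ (3 / 8 - e) * x ^ (1 * u) / x ^ (((2 : ℕ) : ℝ) * u * σ) := by gcongr
      _ = x ^ (3 / 8 - e + u * (1 - 2 * σ)) := by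
        rw [← Real.rpow_add hx0, ← Real.rpow_sub hx0]
        congr 1
        push_cast
        ring
  · rw [pN, pV]
    calc T * x ^ (((4 : ℕ) : ℝ) * u) / x ^ (((6 : ℕ) : ℝ) * u * σ)
        ≤ x ^ (3 / 8 - e) * x ^ (((4 : ℕ) : ℝ) * u) / x ^ (((6 : ℕ) : ℝ) * u * σ) := by gcongr
      _ = x ^ (3 / 8 - e + u * (4 - 6 * σ)) := by
        rw [← Real.rpow_add hx0, ← Real.rpow_sub hx0]
        congr 1
        push_cast
        ring

private theorem Lv_two {c : ℝ} (hc : 0 < c) : ∃ X0 : ℕ, ∀ X : ℕ, X0 ≤ X → 2 ≤ (X : ℝ) ^ c := by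
  refine ⟨⌈(2 : ℝ) ^ (1 / c)⌉₊, fun X hX => ?_⟩
  have h3 : (2 : ℝ) ^ (1 / c) ≤ X := (Nat.le_ceil _).trans (by exact_mod_cast hX)
  have h4 : ((2 : ℝ) ^ (1 / c)) ^ c ≤ (X : ℝ) ^ c := Real.rpow_le_rpow (by positivity) h3 hc.le
  rwa [← Real.rpow_mul (by norm_num), one_div_mul_cancel hc.ne', Real.rpow_one] at h4

theorem lv58 (e δ κ : ℝ) (he : 0 < e) (he' : e ≤ 1 / 100) (hδ : 0 < δ) (hδ' : δ ≤ 1 / 4) (hκ : 0 < κ) :
    ∃ X0 : ℕ, ∀ X : ℕ, X0 ≤ X → ∀ (N : ℕ) (g : ArithmeticFunction ℂ) (s T : ℝ) (B : Set ℝ),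
    (X : ℝ) ^ κ ≤ N → (N : ℝ) ≤ (X : ℝ) ^ (11 / 24 : ℝ) →
    (∀ n, g n ≠ 0 → n ≤ 2 * N) → (∀ n, ‖g n‖ ≤ 2 * Real.log X) → 1 / 2 ≤ s → s ≤ 1 - δ →
    1 ≤ T → T ≤ (X : ℝ) ^ (3 / 8 - e) → MeasurableSet B → B ⊆ Set.Icc (-T) T →
    (∀ t ∈ B, (N : ℝ) ^ (s - e * δ / 4) ≤ ‖DP g (2 * N) t‖) →
    volume.real B ≤ (X : ℝ) ^ (1 - s - e * δ / 2) := by
  obtain ⟨X1, h1⟩ := Lv_core e (e * δ / 8) κ he he' (by positivity) hκ
  obtain ⟨X2, h2⟩ := Lv_two (c := e * δ / 8) (by positivity)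
  refine ⟨max X1 X2, fun X hX N g s T B hN hN' hg hg' hs hs' hT hT' hB hBT hV => ?_⟩
  obtain ⟨hX3, h3⟩ := h1 X ((le_max_left _ _).trans hX)
  have h4 := h2 X ((le_max_right _ _).trans hX)
  obtain ⟨u, u1, u2, hb⟩ := h3 N g (s - e * δ / 4) T B hN hN' hg hg' hT hT' hB hBT hV
  set x : ℝ := (X : ℝ) with hx
  have hx3 : 3 ≤ x := by
    rw [hx]
    exact_mod_cast hX3
  have hx0 : 0 < x := by linarith
  have hx1 : 1 ≤ x := by linarith
  have hed : 0 < e * δ := by positivity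
  have hed1 : e * δ ≤ e / 4 := by nlinarith
  have hed2 : e * δ ≤ 1 / 400 := by linarith
  set σ : ℝ := s - e * δ / 4 with hσ
  have b1 : x ^ (2 * u * (1 - σ)) ≤ x ^ (1 - s - 3 / 4 * (e * δ)) := by
    refine Real.rpow_le_rpow_of_exponent_le hx1 ?_
    have : 0 ≤ 1 - σ := by rw [hσ]; linarith
    have a1 : u * (1 - σ) ≤ (1 / 2 - e / 2) * (1 - σ) := mul_le_mul_of_nonneg_right u2 this
    have a2 : (1 / 2 - e / 2) * (1 - σ) =
        (1 - s + e * δ / 4 - e * (1 - s) - e * (e * δ) / 4) / 2 := by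
      rw [hσ]; ring
    have a3 : e * δ ≤ e * (1 - s) := mul_le_mul_of_nonneg_left (by linarith) he.le
    have a4 : 0 ≤ e * (e * δ) := by positivity
    linarith
  have b2 : min (x ^ (3 / 8 - e + u * (1 - 2 * σ))) (x ^ (3 / 8 - e + u * (4 - 6 * σ))) ≤
      x ^ (1 - s - 3 / 4 * (e * δ)) := by
    have hgoal : 1 - σ - e * δ ≤ 1 - s - 3 / 4 * (e * δ) := by
      rw [hσ]
      linarith
    rcases le_total σ (1 / 2) with c1 | c1
    · refine (min_le_left _ _).trans (Real.rpow_le_rpow_of_exponent_le hx1 (le_trans ?_ hgoal))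
      have a1 : u * (1 - 2 * σ) ≤ (1 / 2) * (1 - 2 * σ) :=
        mul_le_mul_of_nonneg_right (by linarith) (by linarith)
      linarith
    rcases le_total σ (3 / 4) with c2 | c2
    · refine (min_le_left _ _).trans (Real.rpow_le_rpow_of_exponent_le hx1 (le_trans ?_ hgoal))
      have a1 : (1 / 4 - e / 4) * (2 * σ - 1) ≤ u * (2 * σ - 1) :=
        mul_le_mul_of_nonneg_right u1 (by linarith)
      have a2 : (1 / 2 + e / 2) * σ ≤ (1 / 2 + e / 2) * (3 / 4) :=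
        mul_le_mul_of_nonneg_left c2 (by linarith)
      nlinarith
    · refine (min_le_right _ _).trans (Real.rpow_le_rpow_of_exponent_le hx1 (le_trans ?_ hgoal))
      have a1 : (1 / 4 - e / 4) * (6 * σ - 4) ≤ u * (6 * σ - 4) :=
        mul_le_mul_of_nonneg_right u1 (by linarith)
      have a2 : (1 / 2 - 3 / 2 * e) * (3 / 4) ≤ (1 / 2 - 3 / 2 * e) * σ :=
        mul_le_mul_of_nonneg_left c2 (by linarith)
      nlinarith
  calc volume.real B ≤ x ^ (e * δ / 8) * (x ^ (1 - s - 3 / 4 * (e * δ)) +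
        x ^ (1 - s - 3 / 4 * (e * δ))) := by
        refine hb.trans (mul_le_mul_of_nonneg_left (add_le_add b1 b2) (Real.rpow_nonneg hx0.le _))
    _ = 2 * x ^ (1 - s - e * δ / 2 - e * δ / 8) := by
        rw [← two_mul, mul_left_comm, ← Real.rpow_add hx0]
        congr 2
        ring
    _ ≤ x ^ (e * δ / 8) * x ^ (1 - s - e * δ / 2 - e * δ / 8) :=
        mul_le_mul_of_nonneg_right h4 (Real.rpow_nonneg hx0.le _)
    _ = x ^ (1 - s - e * δ / 2) := by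
        rw [← Real.rpow_add hx0]
        congr 1
        ring

end Pool.Agent.H88.E58

end

section

/-!
# E58 Bs: the part of the integral where the product is `≤ X^(1-δ)`

Same proof as `Pool/Agent/H88/PSI/BoxS.lean` with other numbers: `κ = eδ/4`, `η = (1/2-δ)/m1 ≤ κ/4` with `m1 : ℕ` fixed, `s_m = 1/2 + m η` (`s_{m1} = 1-δ`).
`{FF ≤ X^(1/2)}`: `≤ 2 T X^(1/2) ≤ 2 X^(7/8)`.  `B_m = {|t| ≤ T, X^(s_{m-1}) < FF ≤ X^(s_m)}`: by `cov` (`s = s_m`, `box_tr`)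
`B_m` is covered by the `r ≤ 6` sets `{t ∈ B_m, X^(κ/24) ≤ N i, (N i)^(s_m-κ) ≤ ‖F_i(t)‖}`, each of measure `≤ X^(1-s_m-eδ/2)` (`lv58` with the `κ` of
`lv58` := `eδ/96`), so `∫_{B_m} FF ≤ 6 X^(1-eδ/2)`; sum over `m ≤ m1`.
-/

set_option autoImplicit false

namespace Pool.Agent.H88.E58

open Finset MeasureTheory
open Pool.Agent.H88.PSI

private theorem Bs_large (a : ℝ) (ha : 0 < a) (c : ℝ) :
    ∃ X0 : ℕ, ∀ X : ℕ, X0 ≤ X → c ≤ (X : ℝ) ^ a := by
  have h := (tendsto_rpow_atTop ha).comp tendsto_natCast_atTop_atTop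
  obtain ⟨X0, hX0⟩ := (Filter.tendsto_atTop_atTop.mp h) c
  exact ⟨X0, fun X hX => hX0 X hX⟩

theorem bs58 (e δ : ℝ) (he : 0 < e) (he' : e ≤ 1 / 100) (hδ : 0 < δ) (hδ' : δ ≤ 1 / 4) :
    ∃ X0 : ℕ, ∀ X : ℕ, X0 ≤ X → ∀ (r : ℕ) (N : Fin r → ℕ) (g : Fin r → ArithmeticFunction ℂ) (T : ℝ),
    Box X N g → 1 ≤ T → T ≤ (X : ℝ) ^ (3 / 8 - e) →
    ∫ t in {t : ℝ | |t| ≤ T ∧ FF N g t ≤ (X : ℝ) ^ (1 - δ)}, FF N g t
      ≤ (X : ℝ) ^ (1 - e * δ / 4) := by
  set κ : ℝ := e * δ / 4 with hκd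
  have hκ : 0 < κ := by positivity
  have hed : e * δ ≤ 1 / 400 := by
    calc e * δ ≤ (1 / 100) * (1 / 4) := mul_le_mul he' hδ' hδ.le (by norm_num)
      _ = 1 / 400 := by norm_num
  have hκ' : κ ≤ 1 / 4 := by rw [hκd]; linarith
  obtain ⟨m1, hm1⟩ := exists_nat_gt ((1 / 2 - δ) * 4 / κ)
  have hm0 : (0 : ℝ) < m1 := by
    have : 0 ≤ (1 / 2 - δ) * 4 / κ := by
      apply div_nonneg _ hκ.le
      linarith
    linarith
  set η : ℝ := (1 / 2 - δ) / m1 with hη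
  have hη0 : 0 ≤ η := div_nonneg (by linarith) hm0.le
  have hη1 : η ≤ κ / 4 := by
    rw [hη, div_le_iff₀ hm0]
    rw [div_lt_iff₀ hκ] at hm1
    linarith
  obtain ⟨X1, hcov⟩ := cov κ hκ hκ'
  obtain ⟨X2, hlvs⟩ := lv58 e δ (κ / 24) he he' hδ hδ' (by positivity)
  obtain ⟨X3, hX3⟩ := Bs_large (e * δ / 4) (by positivity) (6 * m1 + 2)
  refine ⟨max (max X1 X2) (max X3 1), ?_⟩
  intro X hX r N g T hB hT hT'
  have hXa : X1 ≤ X := le_trans (le_trans (le_max_left _ _) (le_max_left _ _)) hX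
  have hXb : X2 ≤ X := le_trans (le_trans (le_max_right _ _) (le_max_left _ _)) hX
  have hXc : X3 ≤ X := le_trans (le_trans (le_max_left _ _) (le_max_right _ _)) hX
  have hXd : 1 ≤ X := le_trans (le_trans (le_max_right _ _) (le_max_right _ _)) hX
  have hx1 : (1 : ℝ) ≤ X := by exact_mod_cast hXd
  have hx0 : (0 : ℝ) < X := by linarith
  set s : ℕ → ℝ := fun m => 1 / 2 + m * η with hs
  have hs0 : ∀ m, 1 / 2 ≤ s m := fun m => by
    have : 0 ≤ (m : ℝ) * η := by positivity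
    simp only [hs]
    linarith
  have hsm1 : s m1 = 1 - δ := by
    simp only [hs, hη]
    field_simp
    ring
  have hsle : ∀ m, m ≤ m1 → s m ≤ 1 - δ := by
    intro m hm
    rw [← hsm1]
    simp only [hs]
    have : (m : ℝ) ≤ m1 := by exact_mod_cast hm
    nlinarith
  set C : ℕ → Fin r → Set ℝ := fun m i => {t : ℝ | |t| ≤ T ∧ (X : ℝ) ^ (κ / 24) ≤ N i ∧
    (N i : ℝ) ^ (s m - κ) ≤ ‖DP (g i) (2 * N i) t‖} with hC
  have hCm : ∀ m i, MeasurableSet (C m i) := by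
    intro m i
    have h1 : MeasurableSet {t : ℝ | |t| ≤ T} :=
      measurableSet_le continuous_abs.measurable measurable_const
    have h3 : MeasurableSet {t : ℝ | (N i : ℝ) ^ (s m - κ) ≤ ‖DP (g i) (2 * N i) t‖} :=
      measurableSet_le measurable_const (dp_cont _ _).norm.measurable
    exact h1.inter ((MeasurableSet.const _).inter h3)
  have hCI : ∀ m i, C m i ⊆ Set.Icc (-T) T := by
    intro m i t ht
    exact abs_le.mp ht.1
  have hCv : ∀ m i, m ≤ m1 → volume.real (C m i) ≤ (X : ℝ) ^ (1 - s m - e * δ / 2) := by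
    intro m i hm
    by_cases hN : (X : ℝ) ^ (κ / 24) ≤ N i
    · refine hlvs X hXb (N i) (g i) (s m) T (C m i) hN (hB.top i) ?_ (hB.bd i) (hs0 m)
        (hsle m hm) hT hT' (hCm m i) (hCI m i) ?_
      · intro n hn
        exact (hB.supp i n hn).2.le
      · intro t ht
        exact ht.2.2
    · have : C m i = ∅ := by
        ext t
        simp only [hC, Set.mem_ofPred_eq, Set.mem_empty_iff_false, iff_false]
        exact fun h => hN h.2.1
      rw [this, measureReal_empty]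
      positivity
  set F : ℝ → ℝ := FF N g with hF
  have hFc : Continuous F := ff_cont N g
  have hF0 : ∀ t, 0 ≤ F t := ff_nonneg N g
  set h : ℝ → ℝ := fun t => (X : ℝ) ^ (1 / 2 : ℝ) + ∑ m ∈ Icc 1 m1, ∑ i : Fin r,
    (C m i).indicator (fun _ => (X : ℝ) ^ (s m)) t with hh
  have hind0 : ∀ m i t, 0 ≤ (C m i).indicator (fun _ => (X : ℝ) ^ (s m)) t := by
    intro m i t
    exact Set.indicator_nonneg (fun _ _ => by positivity) t
  have hh0 : ∀ t, 0 ≤ h t := fun t =>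
    add_nonneg (by positivity) (sum_nonneg fun m _ => sum_nonneg fun i _ => hind0 m i t)
  have key : ∀ t, |t| ≤ T → F t ≤ (X : ℝ) ^ (1 - δ) → F t ≤ h t := by
    intro t ht hFt
    by_cases h1 : F t ≤ (X : ℝ) ^ (1 / 2 : ℝ)
    · simp only [hh]
      have h3 : 0 ≤ ∑ m ∈ Icc 1 m1, ∑ i : Fin r,
        (C m i).indicator (fun _ => (X : ℝ) ^ (s m)) t :=
        sum_nonneg fun m _ => sum_nonneg fun i _ => hind0 m i t
      linarith
    · have hex : ∃ m, F t ≤ (X : ℝ) ^ s m := ⟨m1, by rw [hsm1]; exact hFt⟩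
      classical
      set m := Nat.find hex with hm
      have hP : F t ≤ (X : ℝ) ^ s m := Nat.find_spec hex
      have hmle : m ≤ m1 := Nat.find_min' hex (by rw [hsm1]; exact hFt)
      have hm1' : 1 ≤ m := by
        by_contra h0
        have h0' : m = 0 := by omega
        rw [h0'] at hP
        simp only [hs, Nat.cast_zero, zero_mul, add_zero] at hP
        exact h1 hP
      have hPn : ¬ F t ≤ (X : ℝ) ^ s (m - 1) := Nat.find_min hex (by omega)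
      rw [not_le] at hPn
      have hsm : s m - κ / 4 ≤ s (m - 1) := by
        simp only [hs]
        have : ((m - 1 : ℕ) : ℝ) = m - 1 := by
          rw [Nat.cast_sub hm1', Nat.cast_one]
        rw [this]
        linarith
      have hlt : (X : ℝ) ^ (s m - κ / 4) < ∏ i, ‖DP (g i) (2 * N i) t‖ :=
        lt_of_le_of_lt (Real.rpow_le_rpow_of_exponent_le hx1 hsm) hPn
      obtain ⟨i, hi1, hi2⟩ := hcov X hXa r N (fun i => ‖DP (g i) (2 * N i) t‖) (s m) hB.hr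
        hB.one hB.prod (fun i => norm_nonneg _) (fun i => box_tr hB i t) (hs0 m)
        (by have := hsle m hmle; linarith) hlt
      have htC : t ∈ C m i := ⟨ht, hi1, hi2⟩
      have h2 : F t ≤ (X : ℝ) ^ (s m) := hP
      have h0X : 0 ≤ (X : ℝ) ^ (1 / 2 : ℝ) := by positivity
      have h3 : (X : ℝ) ^ (s m) ≤ ∑ i : Fin r,
          (C m i).indicator (fun _ => (X : ℝ) ^ (s m)) t := by
        have h4 := single_le_sum (s := univ) (f := fun i : Fin r =>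
          (C m i).indicator (fun _ => (X : ℝ) ^ (s m)) t)
          (fun i _ => hind0 m i t) (mem_univ i)
        simp only [Set.indicator_of_mem htC] at h4
        exact h4
      have h5 : ∑ i : Fin r, (C m i).indicator (fun _ => (X : ℝ) ^ (s m)) t ≤
          ∑ m ∈ Icc 1 m1, ∑ i : Fin r,
            (C m i).indicator (fun _ => (X : ℝ) ^ (s m)) t :=
        single_le_sum (f := fun m => ∑ i : Fin r,
          (C m i).indicator (fun _ => (X : ℝ) ^ (s m)) t)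
          (fun m _ => sum_nonneg fun i _ => hind0 m i t) (mem_Icc.mpr ⟨hm1', hmle⟩)
      simp only [hh]
      linarith
  -- integration
  set E : Set ℝ := {t : ℝ | |t| ≤ T ∧ F t ≤ (X : ℝ) ^ (1 - δ)} with hE
  have hEm : MeasurableSet E :=
    (measurableSet_le continuous_abs.measurable measurable_const).inter
      (measurableSet_le hFc.measurable measurable_const)
  have hEI : E ⊆ Set.Icc (-T) T := fun t ht => abs_le.mp ht.1
  have hFi : IntegrableOn (fun t => F t) (Set.Icc (-T) T) :=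
    hFc.continuousOn.integrableOn_Icc
  have hci : ∀ c : ℝ, IntegrableOn (fun _ : ℝ => c) (Set.Icc (-T) T) := fun c =>
    continuous_const.continuousOn.integrableOn_Icc
  have hii : ∀ m i, IntegrableOn ((C m i).indicator (fun _ => (X : ℝ) ^ (s m)))
      (Set.Icc (-T) T) := fun m i => (hci _).indicator (hCm m i)
  have hsi : IntegrableOn (fun t => ∑ m ∈ Icc 1 m1, ∑ i : Fin r,
      (C m i).indicator (fun _ => (X : ℝ) ^ (s m)) t) (Set.Icc (-T) T) := by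
    apply integrable_finsetSum
    intro m _
    apply integrable_finsetSum
    intro i _
    exact hii m i
  have hhi : IntegrableOn h (Set.Icc (-T) T) := (hci _).add hsi
  have step1 : ∫ t in E, F t ≤ ∫ t in E, h t :=
    setIntegral_mono_on (hFi.mono_set hEI) (hhi.mono_set hEI) hEm
      (fun t ht => key t ht.1 ht.2)
  have step2 : ∫ t in E, h t ≤ ∫ t in Set.Icc (-T) T, h t :=
    setIntegral_mono_set hhi (Filter.Eventually.of_forall hh0)
      (Filter.Eventually.of_forall hEI)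
  have hvolI : volume.real (Set.Icc (-T) T) = 2 * T := by
    rw [Real.volume_real_Icc_of_le (by linarith)]
    ring
  have step3 : ∫ t in Set.Icc (-T) T, h t = 2 * T * (X : ℝ) ^ (1 / 2 : ℝ) + ∑ m ∈ Icc 1 m1, ∑ i : Fin r,
      volume.real (C m i) * (X : ℝ) ^ (s m) := by
    simp only [hh]
    rw [integral_add (hci _) hsi, setIntegral_const, hvolI, smul_eq_mul]
    congr 1
    rw [integral_finsetSum]
    · refine sum_congr rfl fun m _ => ?_
      rw [integral_finsetSum]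
      · refine sum_congr rfl fun i _ => ?_
        rw [setIntegral_indicator (hCm m i), Set.inter_eq_right.mpr (hCI m i),
          setIntegral_const, smul_eq_mul]
      · intro i _
        exact hii m i
    · intro m _
      apply integrable_finsetSum
      intro i _
      exact hii m i
  have step4 : ∑ m ∈ Icc 1 m1, ∑ i : Fin r, volume.real (C m i) * (X : ℝ) ^ (s m) ≤
      6 * m1 * (X : ℝ) ^ (1 - e * δ / 2) := by
    calc ∑ m ∈ Icc 1 m1, ∑ i : Fin r, volume.real (C m i) * (X : ℝ) ^ (s m)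
        ≤ ∑ m ∈ Icc 1 m1, ∑ _i : Fin r, (X : ℝ) ^ (1 - e * δ / 2) := by
          refine sum_le_sum fun m hm => sum_le_sum fun i _ => ?_
          have hm' := (mem_Icc.mp hm).2
          calc volume.real (C m i) * (X : ℝ) ^ (s m)
              ≤ (X : ℝ) ^ (1 - s m - e * δ / 2) * (X : ℝ) ^ (s m) :=
                mul_le_mul_of_nonneg_right (hCv m i hm') (by positivity)
            _ = (X : ℝ) ^ (1 - e * δ / 2) := by
                rw [← Real.rpow_add hx0]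
                congr 1
                ring
      _ = m1 * (r * (X : ℝ) ^ (1 - e * δ / 2)) := by
          rw [sum_const, sum_const, Nat.card_Icc, card_univ, Fintype.card_fin, nsmul_eq_mul,
            nsmul_eq_mul, Nat.add_sub_cancel]
      _ ≤ 6 * m1 * (X : ℝ) ^ (1 - e * δ / 2) := by
          have hr : (r : ℝ) ≤ 6 := by exact_mod_cast hB.hr
          have hp : 0 ≤ (X : ℝ) ^ (1 - e * δ / 2) := by positivity
          have := mul_le_mul_of_nonneg_right hr hp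
          nlinarith
  have step5 : 2 * T * (X : ℝ) ^ (1 / 2 : ℝ) ≤ 2 * (X : ℝ) ^ (1 - e * δ / 2) := by
    have h1 : T * (X : ℝ) ^ (1 / 2 : ℝ) ≤ (X : ℝ) ^ (3 / 8 - e) * (X : ℝ) ^ (1 / 2 : ℝ) :=
      mul_le_mul_of_nonneg_right hT' (by positivity)
    have h2 : (X : ℝ) ^ (3 / 8 - e) * (X : ℝ) ^ (1 / 2 : ℝ) = (X : ℝ) ^ (3 / 8 - e + 1 / 2) := by
      rw [Real.rpow_add hx0]
    have h3 : (X : ℝ) ^ (3 / 8 - e + 1 / 2) ≤ (X : ℝ) ^ (1 - e * δ / 2) :=
      Real.rpow_le_rpow_of_exponent_le hx1 (by linarith)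
    linarith
  calc ∫ t in E, F t ≤ 2 * T * (X : ℝ) ^ (1 / 2 : ℝ) + ∑ m ∈ Icc 1 m1, ∑ i : Fin r,
      volume.real (C m i) * (X : ℝ) ^ (s m) := by
        rw [← step3]
        exact step1.trans step2
    _ ≤ 2 * (X : ℝ) ^ (1 - e * δ / 2) + 6 * m1 * (X : ℝ) ^ (1 - e * δ / 2) := add_le_add step5 step4
    _ = (6 * m1 + 2) * (X : ℝ) ^ (1 - e * δ / 2) := by ring
    _ ≤ (X : ℝ) ^ (e * δ / 4) * (X : ℝ) ^ (1 - e * δ / 2) :=
        mul_le_mul_of_nonneg_right (hX3 X hXc) (by positivity)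
    _ = (X : ℝ) ^ (1 - e * δ / 4) := by
        rw [← Real.rpow_add hx0]
        congr 1
        ring

end Pool.Agent.H88.E58

end
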