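import Pool.Agent.H47.B1.M41
import Pool.Agent.H47.B1.M44
import Pool.Agent.H47.B1.M46
import Pool.Agent.H47.B1.M49

/-! The parts of this file: H88.PSI.PtB, H88.E58.Bx, H88.E58.Pc, H88.E58.Sm, H88.E58.Fn, H97.EP.Fin1. -/

section

/-!
# PSI PtB: pointwise bound for the factors of all kinds (maximum of the constants of `mu_b`, `sm_b`)
-/

set_option autoImplicit false

namespace Pool.Agent.H88.PSI

theorem pt_b (K B : ℕ) : ∃ K' X0 : ℕ, ∀ X : ℕ, X0 ≤ X →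
    ∀ (d : ℕ) (χ : DirichletCharacter ℂ d) (k : Fin 3) (j : ℕ) (t : ℝ), 1 ≤ d →
    (d : ℝ) ≤ Real.log X ^ B →
    (X : ℝ) ^ (1 / 7 : ℝ) ≤ (2 : ℝ) ^ j → (2 : ℝ) ^ j ≤ X → Real.log X ^ K' ≤ |t| → |t| ≤ X →
    ‖DP (tw χ (pc k j)) (2 * 2 ^ j) t‖ ≤ (2 : ℝ) ^ j / Real.log X ^ K := by
  obtain ⟨K1, X1, h1⟩ := mu_b_h Pool.Agent.H97.VK.vk_chi_w K B
  obtain ⟨K2, X2, h2⟩ := sm_b_h Pool.Agent.H97.VK.psum K B
  obtain ⟨X3, h3⟩ := Pool.Agent.H80.LV.log_ge 1
  refine ⟨max K1 K2, max (max X1 X2) X3, ?_⟩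
  intro X hX d χ k j t hd hdB hj1 hj2 ht1 ht2
  simp only [max_le_iff] at hX
  obtain ⟨⟨hX1, hX2⟩, hX3⟩ := hX
  have hL := h3 X hX3
  by_cases hk : k = 2
  · subst hk
    exact h1 X hX1 d χ j t hd hdB hj1 hj2 ((pow_le_pow_right₀ hL (le_max_left _ _)).trans ht1) ht2
  · exact h2 X hX2 d χ k j t hk hd hdB hj1 hj2 ((pow_le_pow_right₀ hL (le_max_right _ _)).trans ht1) ht2

end Pool.Agent.H88.PSI

end

section

/-!
# E58 Bx: first moment of the Dirichlet polynomial of a box of type II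

As `Pool/Agent/H88/PSI/BoxI.lean` (`box_i`), with `bs58`, `box_m`, `tp58`, `pt_b`.
-/

set_option autoImplicit false

namespace Pool.Agent.H88.E58

open Finset MeasureTheory
open Pool.Agent.H88.PSI

theorem box58 (e : ℝ) (he : 0 < e) (he' : e ≤ 1 / 100) (A : ℕ) : ∃ K' X0 : ℕ, ∀ X : ℕ, X0 ≤ X →
    ∀ (r N : ℕ) (κ : Fin r → Fin 3) (j : Fin r → ℕ), r ≤ 6 →
    (∀ i, (2 : ℝ) ^ j i ≤ (X : ℝ) ^ (11 / 24 : ℝ)) →
    ∏ i, 2 ^ j i ≤ 3 * X → X ≤ 2 ^ r * ∏ i, 2 ^ j i → 2 ^ r * ∏ i, 2 ^ j i ≤ N →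
    ∫ t in {t : ℝ | Real.log X ^ K' ≤ |t| ∧ |t| ≤ (X : ℝ) ^ (3 / 8 - e)},
      ‖DP (tw (1 : DirichletCharacter ℂ 1) (Pp κ j)) N t‖ ≤ X / Real.log X ^ A := by
  obtain ⟨η, hη, HL⟩ := tp58
  obtain ⟨K, X1, HL⟩ := HL (A + 1)
  obtain ⟨K', X2, HP⟩ := pt_b K 0
  set δ : ℝ := min (η / 13) (1 / 200) with hδdef
  have hδ : 0 < δ := lt_min (by positivity) (by norm_num)
  have hδ1 : 13 * δ ≤ η := by have := min_le_left (η / 13) (1 / 200 : ℝ); rw [← hδdef] at this; linarith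
  have hδ2 : δ ≤ 1 / 200 := min_le_right _ _
  obtain ⟨X3, HS⟩ := bs58 e δ he he' hδ (by linarith)
  obtain ⟨X4, HM⟩ := box_m e δ he he' hδ hδ2
  obtain ⟨X5, H5⟩ := Pool.Agent.H80.LV.log_pow_le (e * δ / 4) 2 (by positivity) (by norm_num) A
  obtain ⟨X6, H6⟩ := Pool.Agent.H80.LV.log_ge 2
  refine ⟨K', max (max (max X1 X2) (max X3 X4)) (max (max X5 X6) 3), ?_⟩
  intro X hX r N κ j hr hj1 hj2 hj3 hN
  simp only [max_le_iff] at hX
  obtain ⟨⟨⟨hX1, hX2⟩, hX3, hX4⟩, ⟨hX5, hX6⟩, hX7⟩ := hX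
  have hXr : (3 : ℝ) ≤ X := by exact_mod_cast hX7
  have hX0 : (0 : ℝ) < X := by linarith
  have hL := H6 X hX6
  set χ : DirichletCharacter ℂ 1 := 1 with hχ
  have hbox := BoxI_box X hX7 χ κ j hr hj1 hj2
  set T : ℝ := (X : ℝ) ^ (3 / 8 - e) with hT
  have hT1 : 1 ≤ T := Real.one_le_rpow (by linarith) (by linarith)
  have hT2 : T ≤ (X : ℝ) ^ (5 / 6 - e) :=
    Real.rpow_le_rpow_of_exponent_le (by linarith) (by linarith)
  have hTX : T ≤ X := by
    rw [hT]; nth_rewrite 2 [← Real.rpow_one (X : ℝ)]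
    exact Real.rpow_le_rpow_of_exponent_le (by linarith) (by linarith)
  set F : ℝ → ℝ := FF (fun i => 2 ^ j i) (fun i => tw χ (pc (κ i) (j i))) with hF
  have hFc : Continuous F := ff_cont _ _
  have hF0 : ∀ t, 0 ≤ F t := ff_nonneg _ _
  set S : Set ℝ := {t : ℝ | Real.log X ^ K' ≤ |t| ∧ |t| ≤ T} with hS
  set B1 : Set ℝ := {t : ℝ | |t| ≤ T ∧ F t ≤ (X : ℝ) ^ (1 - δ)} with hB1
  set B2 : Set ℝ := {t : ℝ | (Real.log X ^ K' ≤ |t| ∧ |t| ≤ T) ∧ (X : ℝ) ^ (1 - δ) < F t} with hB2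
  have mS : MeasurableSet S := by
    apply MeasurableSet.inter
    · exact measurableSet_le measurable_const continuous_abs.measurable
    · exact measurableSet_le continuous_abs.measurable measurable_const
  have mB1 : MeasurableSet B1 := by
    apply MeasurableSet.inter
    · exact measurableSet_le continuous_abs.measurable measurable_const
    · exact measurableSet_le hFc.measurable measurable_const
  have mB2 : MeasurableSet B2 := by
    apply MeasurableSet.inter mS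
    exact measurableSet_lt measurable_const hFc.measurable
  have hint : IntegrableOn (fun t => F t) (Set.Icc (-T) T) :=
    hFc.continuousOn.integrableOn_compact isCompact_Icc
  have sB1 : B1 ⊆ Set.Icc (-T) T := fun t ht => abs_le.1 ht.1
  have sB2 : B2 ⊆ Set.Icc (-T) T := fun t ht => abs_le.1 ht.1.2
  have i1 : IntegrableOn (fun t => F t) B1 := hint.mono_set sB1
  have i2 : IntegrableOn (fun t => F t) B2 := hint.mono_set sB2
  have hSsub : S ⊆ B1 ∪ B2 := by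
    intro t ht
    by_cases h : F t ≤ (X : ℝ) ^ (1 - δ)
    · exact Or.inl ⟨ht.2, h⟩
    · exact Or.inr ⟨ht, not_le.1 h⟩
  have e1 : ∫ t in S, ‖DP (tw χ (Pp κ j)) N t‖ = ∫ t in S, F t := by
    apply setIntegral_congr_fun mS
    intro t _
    show ‖DP (tw χ (Pp κ j)) N t‖ = F t
    rw [BoxI_ff N le_rfl χ κ j hN t]
  have e2 : ∫ t in S, F t ≤ ∫ t in B1 ∪ B2, F t := by
    apply setIntegral_mono_set (i1.union i2)
    · exact Filter.Eventually.of_forall fun t => hF0 t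
    · exact hSsub.eventuallyLE
  have e3 : ∫ t in B1 ∪ B2, F t ≤ (∫ t in B1, F t) + ∫ t in B2, F t := by
    have hd1 : Disjoint B1 B2 := by
      rw [Set.disjoint_left]
      intro t h1 h2
      exact absurd h1.2 (not_le.2 h2.2)
    rw [setIntegral_union hd1 mB2 i1 i2]
  have e4 : ∫ t in B1, F t ≤ (X : ℝ) ^ (1 - e * δ / 4) := HS X hX3 r _ _ T hbox hT1 le_rfl
  have e5 : ∫ t in B2, F t ≤ X / Real.log X ^ (A + 1) := by
    apply HL X hX1 r _ _ B2 hbox hj3 mB2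
    · intro t ht
      have := sB2 ht
      exact ⟨by linarith [this.1], by linarith [this.2]⟩
    · have h1 : volume.real B2 ≤ volume.real {t : ℝ | |t| ≤ T ∧ (X : ℝ) ^ (1 - δ) < F t} := by
        apply measureReal_mono
        · intro t ht
          exact ⟨ht.1.2, ht.2⟩
        · have : {t : ℝ | |t| ≤ T ∧ (X : ℝ) ^ (1 - δ) < F t} ⊆ Set.Icc (-T) T := fun t ht => abs_le.1 ht.1
          exact ne_top_of_le_ne_top (by rw [Real.volume_Icc]; exact ENNReal.ofReal_ne_top) (measure_mono this)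
      have h2 := HM X hX4 r _ _ T hbox hT1 hT2
      refine (h1.trans h2).trans ?_
      exact Real.rpow_le_rpow_of_exponent_le (by linarith) hδ1
    · intro i hi t ht
      have h3 := HP X hX2 1 χ (κ i) (j i) t le_rfl (by simp) (by push_cast at hi; exact hi) ?_ ht.1.1 ?_
      · push_cast
        exact h3
      · refine (hj1 i).trans ?_
        nth_rewrite 2 [← Real.rpow_one (X : ℝ)]
        exact Real.rpow_le_rpow_of_exponent_le (by linarith) (by norm_num)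
      · exact ht.1.2.trans hTX
  have hLp : (0 : ℝ) < Real.log X ^ A := by positivity
  have e6 : (X : ℝ) ^ (1 - e * δ / 4) ≤ (X : ℝ) / Real.log X ^ A / 2 := by
    have h1 := H5 X hX5
    have h2 : (X : ℝ) ^ (1 - e * δ / 4) * (X : ℝ) ^ (e * δ / 4) = (X : ℝ) := by
      rw [← Real.rpow_add hX0]
      rw [show (1 - e * δ / 4 + e * δ / 4 : ℝ) = 1 by ring, Real.rpow_one]
    rw [div_div, le_div_iff₀ (by positivity)]
    calc (X : ℝ) ^ (1 - e * δ / 4) * (Real.log X ^ A * 2)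
        ≤ (X : ℝ) ^ (1 - e * δ / 4) * (X : ℝ) ^ (e * δ / 4) :=
          mul_le_mul_of_nonneg_left (by linarith) (by positivity)
      _ = X := h2
  have e7 : (X : ℝ) / Real.log X ^ (A + 1) ≤ (X : ℝ) / Real.log X ^ A / 2 := by
    rw [div_div]
    apply div_le_div_of_nonneg_left (by positivity) (by positivity)
    rw [pow_succ]
    exact mul_le_mul_of_nonneg_left hL hLp.le
  rw [e1]
  linarith

end Pool.Agent.H88.E58

end

section

/-!
# E58 Pc: one dyadic piece of type II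

If `∏ 2^(j i) > 3X` or `2^r ∏ 2^(j i) < X` then both sums vanish.  Else `box58` with `e/2` and `A + 1`, `dif` with `T0 = L^K'`, `T = X^(3/8-e/2)`,
`k = ⌈1/e⌉ + 2`; `∑ ‖f‖ ≤ 200 X (2L)^6 (1 + log 200X)^64` (`prod_bd`, `tau_mom`).
-/

set_option autoImplicit false

namespace Pool.Agent.H88.E58

open Finset MeasureTheory
open Pool.Agent.H88.PSI

/-- only the values on the window matter -/
theorem sw_congr {ψ : ℝ → ℝ} {g : ℝ → ℂ} (h : Bump ψ g) (f f' : ℕ → ℂ) (N : ℕ) (x η : ℝ) (hx : 0 < x)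
    (hη : 0 < η) (hf : ∀ n : ℕ, x < n → (n : ℝ) < x * Real.exp η → f n = f' n) :
    sw ψ f N x η = sw ψ f' N x η := by
  unfold sw
  refine sum_congr rfl fun n hn => ?_
  by_cases h0 : ψ ((Real.log n - Real.log x) / η) = 0
  · rw [h0]; simp
  · obtain ⟨h1, h2⟩ := h.supp _ h0
    have hn0 : (0 : ℝ) < n := by exact_mod_cast (mem_Icc.1 hn).1
    rw [lt_div_iff₀ hη, zero_mul] at h1
    rw [div_lt_iff₀ hη, one_mul] at h2
    rw [hf n ?_ ?_]
    · exact (Real.log_lt_log_iff hx hn0).1 (by linarith)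
    · rw [← Real.log_lt_log_iff hn0 (by positivity), Real.log_mul hx.ne' (Real.exp_pos _).ne',
        Real.log_exp]
      linarith

theorem sw_zero {ψ : ℝ → ℝ} {g : ℝ → ℂ} (h : Bump ψ g) (f : ℕ → ℂ) (N : ℕ) (x η : ℝ) (hx : 0 < x)
    (hη : 0 < η) (hf : ∀ n : ℕ, x < n → (n : ℝ) < x * Real.exp η → f n = 0) :
    sw ψ f N x η = 0 := by
  rw [sw_congr h f (fun _ => 0) N x η hx hη hf]
  unfold sw
  simp

theorem cc_tw (f : ArithmeticFunction ℝ) : cc f = ⇑(tw (1 : DirichletCharacter ℂ 1) f) := by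
  funext n
  show ((f n : ℝ) : ℂ) = ((f n : ℝ) : ℂ) * (1 : DirichletCharacter ℂ 1) (n : ZMod 1)
  have h1 : (1 : DirichletCharacter ℂ 1) (n : ZMod 1) = 1 := by
    have : (n : ZMod 1) = 1 := Subsingleton.elim _ _
    rw [this, map_one]
  rw [h1, mul_one]

private theorem Pc_supp {r : ℕ} (κ : Fin r → Fin 3) (j : Fin r → ℕ) (n : ℕ) (hn : cc (Pp κ j) n ≠ 0) :
    ∏ i, 2 ^ j i ≤ n ∧ n ≤ 2 ^ r * ∏ i, 2 ^ j i := by
  have hsup : ∀ i n, tw (1 : DirichletCharacter ℂ 1) (pc (κ i) (j i)) n ≠ 0 →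
      2 ^ j i ≤ n ∧ n < 2 * 2 ^ j i := by
    intro i n hn
    have h3 : pc (κ i) (j i) n ≠ 0 := by
      intro h0
      apply hn
      show (((pc (κ i) (j i)) n : ℝ) : ℂ) * (1 : DirichletCharacter ℂ 1) (n : ZMod 1) = 0
      rw [h0]; simp
    unfold pc seg at h3
    simp only [ArithmeticFunction.coe_mk] at h3
    split_ifs at h3 with h4
    · refine ⟨h4.2.1, ?_⟩
      have := h4.2.2
      rw [pow_succ] at this
      omega
    · exact absurd rfl h3
  have e1 : tw (1 : DirichletCharacter ℂ 1) (Pp κ j) = ∏ i, tw (1 : DirichletCharacter ℂ 1) (pc (κ i) (j i)) := by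
    unfold Pp
    exact tw_prod 1 univ _ (by omega)
  have e2 : ∏ i : Fin r, (2 * 2 ^ j i) = 2 ^ r * ∏ i, 2 ^ j i := by
    rw [prod_mul_distrib]; simp
  rw [cc_tw, e1] at hn
  have h1 := prod_supp (fun i => tw (1 : DirichletCharacter ℂ 1) (pc (κ i) (j i))) (fun i => 2 ^ j i)
    hsup n hn
  rw [e2] at h1
  exact h1

private theorem Pc_S : ∃ X0 : ℕ, ∀ X : ℕ, X0 ≤ X → ∀ (r : ℕ) (κ : Fin r → Fin 3) (j : Fin r → ℕ),
    r ≤ 6 → (∀ i, (2 : ℝ) ^ j i ≤ (X : ℝ) ^ (11 / 24 : ℝ)) → ∏ i, 2 ^ j i ≤ 3 * X →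
    ∑ n ∈ Icc 1 (200 * X), ‖cc (Pp κ j) n‖ ≤ X * Real.log X ^ 100 := by
  obtain ⟨X1, H1⟩ := Pool.Agent.H80.LV.log_ge (200 * 2 ^ 6 * 2 ^ 64)
  refine ⟨max X1 200, fun X hX r κ j hr hj1 hj2 => ?_⟩
  have hX1 : X1 ≤ X := (le_max_left _ _).trans hX
  have hX2 : 200 ≤ X := (le_max_right _ _).trans hX
  have hL := H1 X hX1
  have hXr : (200 : ℝ) ≤ X := by exact_mod_cast hX2
  have hX0 : (0 : ℝ) < X := by linarith
  set L := Real.log X with hLd
  have hL1 : 1 ≤ L := le_trans (by norm_num) hL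
  have hbox := BoxI_box X (by omega) (1 : DirichletCharacter ℂ 1) κ j hr hj1 hj2
  have e1 : tw (1 : DirichletCharacter ℂ 1) (Pp κ j) = ∏ i, tw (1 : DirichletCharacter ℂ 1) (pc (κ i) (j i)) := by
    unfold Pp
    exact tw_prod 1 univ _ (by omega)
  have hpt : ∀ n ∈ Icc 1 (200 * X), ‖cc (Pp κ j) n‖ ≤ (2 * L) ^ 6 * tau n ^ 6 := by
    intro n hn
    rw [cc_tw, e1]
    refine (prod_bd _ (2 * L) (by linarith) hbox.bd n).trans ?_
    have ht : 1 ≤ tau n := by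
      unfold tau
      have : 0 < n.divisors.card := card_pos.2 ⟨1, Nat.one_mem_divisors.2 (by
        have := (mem_Icc.1 hn).1; omega)⟩
      exact_mod_cast this
    exact mul_le_mul (pow_le_pow_right₀ (by linarith) hr) (pow_le_pow_right₀ ht hr)
      (by positivity) (by positivity)
  have hlog : 1 + Real.log ((200 * X : ℕ) : ℝ) ≤ 2 * (2 * L) := by
    have h1 : Real.log ((200 * X : ℕ) : ℝ) ≤ Real.log ((X : ℝ) ^ 2) := by
      apply Real.log_le_log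
      · push_cast; positivity
      · push_cast; nlinarith
    rw [Real.log_pow] at h1
    push_cast at h1 ⊢
    linarith
  calc ∑ n ∈ Icc 1 (200 * X), ‖cc (Pp κ j) n‖
      ≤ ∑ n ∈ Icc 1 (200 * X), (2 * L) ^ 6 * tau n ^ 6 := sum_le_sum hpt
    _ = (2 * L) ^ 6 * ∑ n ∈ Icc 1 (200 * X), tau n ^ 6 := by rw [mul_sum]
    _ ≤ (2 * L) ^ 6 * (((200 * X : ℕ) : ℝ) * (1 + Real.log ((200 * X : ℕ) : ℝ)) ^ (2 ^ 6)) :=
        mul_le_mul_of_nonneg_left (tau_mom 6 _) (by positivity)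
    _ ≤ (2 * L) ^ 6 * ((200 * X) * (2 * (2 * L)) ^ 64) := by
        apply mul_le_mul_of_nonneg_left _ (by positivity)
        push_cast
        apply mul_le_mul_of_nonneg_left _ (by positivity)
        push_cast at hlog
        have h0 : 0 ≤ Real.log (200 * (X : ℝ)) := Real.log_nonneg (by linarith)
        exact pow_le_pow_left₀ (by linarith) hlog 64
    _ = X * (200 * 2 ^ 6 * 2 ^ 64 * 2 ^ 64 * L ^ 70) := by ring
    _ ≤ X * (L * L * L ^ 70) := by
        apply mul_le_mul_of_nonneg_left _ (by positivity)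
        apply mul_le_mul_of_nonneg_right _ (by positivity)
        exact mul_le_mul hL (le_trans (by norm_num) hL) (by positivity) (by linarith)
    _ = X * L ^ 72 := by ring
    _ ≤ X * L ^ 100 := by
        apply mul_le_mul_of_nonneg_left _ (by positivity)
        exact pow_le_pow_right₀ hL1 (by norm_num)

theorem pc58 {ψ : ℝ → ℝ} {g : ℝ → ℂ} (h : Bump ψ g) (e : ℝ) (he : 0 < e) (he' : e ≤ 1 / 100) (A : ℕ) :
    ∃ A0 : ℕ, ∀ A1 : ℕ, A0 ≤ A1 → ∃ X0 : ℕ, ∀ X : ℕ, X0 ≤ X →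
    ∀ (r : ℕ) (κ : Fin r → Fin 3) (j : Fin r → ℕ) (x η : ℝ), r ≤ 6 →
    (∀ i, (2 : ℝ) ^ j i ≤ (X : ℝ) ^ (11 / 24 : ℝ)) → (X : ℝ) ≤ x → x ≤ 2 * X →
    (X : ℝ) ^ (-(3 / 8) + e) / 4 ≤ η → η ≤ 1 / Real.log X ^ A1 →
    ‖sw ψ (cc (Pp κ j)) (200 * X) x η - sw ψ (cc (Pp κ j)) (200 * X) x (1 / Real.log X ^ A1)‖
      ≤ X / Real.log X ^ A := by
  obtain ⟨k, hk⟩ : ∃ k : ℕ, k = ⌈1 / e⌉₊ + 2 := ⟨_, rfl⟩
  obtain ⟨C, hC1, hC⟩ := dif h k (by omega)
  obtain ⟨K', X1, hB⟩ := box58 (e / 2) (by positivity) (by linarith) (A + 1)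
  obtain ⟨X2, hS⟩ := Pc_S
  refine ⟨2 * K' + A + 104, fun A1 hA1 => ?_⟩
  obtain ⟨X3, H3⟩ := Pool.Agent.H80.LV.log_ge (3 * C + 10)
  obtain ⟨X4, H4⟩ := Pool.Agent.H80.LV.log_pow_le (1 / 4) 1 (by norm_num) (by norm_num) K'
  obtain ⟨X5, H5⟩ := Pool.Agent.H80.LV.log_pow_le (1 / 8) (4 ^ k) (by norm_num) (by positivity)
    (A + 102)
  refine ⟨max (max X1 X2) (max (max X3 X4) (max X5 200)), fun X hX r κ j x η hr hj hx1 hx2 hη1 hη2 => ?_⟩
  simp only [max_le_iff] at hX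
  obtain ⟨⟨hX1, hX2⟩, ⟨hX3, hX4⟩, hX5, hX6⟩ := hX
  have hXr : (200 : ℝ) ≤ X := by exact_mod_cast hX6
  have hX0 : (0 : ℝ) < X := by linarith
  have hx0 : 0 < x := by linarith
  have hL := H3 X hX3
  set L := Real.log X with hLd
  have hL1 : 1 ≤ L := by linarith
  have hL0 : 0 < L := by linarith
  have hη0 : 0 < η := lt_of_lt_of_le (by positivity) hη1
  set η1 : ℝ := 1 / L ^ A1 with hη1d
  have hη1p : 0 < η1 := by positivity
  have hη1s : η1 ≤ 1 / 10 := by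
    rw [hη1d]
    apply one_div_le_one_div_of_le (by norm_num)
    have : L ^ 1 ≤ L ^ A1 := pow_le_pow_right₀ hL1 (by omega)
    linarith
  have hexp : Real.exp (1 / 10) ≤ 3 / 2 := by
    have h1 := Real.exp_bound' (x := 1 / 10) (by norm_num) (by norm_num) (n := 2) (by norm_num)
    refine h1.trans ?_
    norm_num [Finset.sum_range_succ, Nat.factorial]
  have hwin : ∀ η' : ℝ, η' ≤ η1 → x * Real.exp η' ≤ 3 * X := by
    intro η' hη'
    have h1 : Real.exp η' ≤ 3 / 2 := (Real.exp_le_exp.2 (hη'.trans hη1s)).trans hexp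
    have h2 : x * Real.exp η' ≤ (2 * X) * (3 / 2) := mul_le_mul hx2 h1 (Real.exp_pos _).le (by positivity)
    linarith
  have hnn : 0 ≤ (X : ℝ) / L ^ A := by positivity
  by_cases c1 : ∏ i, 2 ^ j i ≤ 3 * X
  swap
  · have hz : ∀ η' : ℝ, 0 < η' → η' ≤ η1 → sw ψ (cc (Pp κ j)) (200 * X) x η' = 0 := by
      intro η' h1 h2
      apply sw_zero h _ _ _ _ hx0 h1
      intro n h3 h4
      by_contra h5
      have h6 := (Pc_supp κ j n h5).1
      have h7 := hwin η' h2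
      have h8 : (n : ℝ) < 3 * X := lt_of_lt_of_le h4 h7
      have h9 : n < 3 * X := by exact_mod_cast h8
      omega
    rw [hz η hη0 hη2, hz η1 hη1p le_rfl, sub_zero, norm_zero]
    exact hnn
  by_cases c2 : X ≤ 2 ^ r * ∏ i, 2 ^ j i
  swap
  · have hz : ∀ η' : ℝ, 0 < η' → sw ψ (cc (Pp κ j)) (200 * X) x η' = 0 := by
      intro η' h1
      apply sw_zero h _ _ _ _ hx0 h1
      intro n h3 h4
      by_contra h5
      have h6 := (Pc_supp κ j n h5).2
      have h8 : (X : ℝ) < n := lt_of_le_of_lt hx1 h3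
      have h9 : X < n := by exact_mod_cast h8
      omega
    rw [hz η hη0, hz η1 hη1p, sub_zero, norm_zero]
    exact hnn
  have hN : 2 ^ r * ∏ i, 2 ^ j i ≤ 200 * X := by
    have hr1 : 2 ^ r ≤ 2 ^ 6 := Nat.pow_le_pow_right (by norm_num) hr
    calc 2 ^ r * ∏ i, 2 ^ j i ≤ 2 ^ 6 * (3 * X) := Nat.mul_le_mul hr1 c1
      _ ≤ 200 * X := by omega
  set T0 : ℝ := L ^ K' with hT0
  set T : ℝ := (X : ℝ) ^ (3 / 8 - e / 2) with hT
  have hT01 : 1 ≤ T0 := one_le_pow₀ hL1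
  have hT0T : T0 ≤ T := by
    have h1 := H4 X hX4
    have h2 : (X : ℝ) ^ (1 / 4 : ℝ) ≤ T := Real.rpow_le_rpow_of_exponent_le (by linarith) (by linarith)
    linarith
  have hT1 : 1 ≤ T := hT01.trans hT0T
  have hD := hC (cc (Pp κ j)) (200 * X) x η η1 T0 T hη0 hη2 hT01 hT0T
  have hB' := hB X hX1 r (200 * X) κ j hr hj c1 c2 hN
  rw [← cc_tw] at hB'
  have hS' := hS X hX2 r κ j hr hj c1
  set S := ∑ n ∈ Icc 1 (200 * X), ‖cc (Pp κ j) n‖ with hSd
  have hS0 : 0 ≤ S := sum_nonneg fun _ _ => norm_nonneg _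
  -- first term
  have t1 : T0 ^ 2 * η1 * S ≤ X / L ^ (A + 1) := by
    have h1 : T0 ^ 2 * η1 * S ≤ T0 ^ 2 * η1 * (X * L ^ 100) :=
      mul_le_mul_of_nonneg_left hS' (by positivity)
    refine h1.trans ?_
    rw [hT0, hη1d, ← pow_mul, le_div_iff₀ (by positivity)]
    have h2 : L ^ (K' * 2) * L ^ 100 * L ^ (A + 1) ≤ L ^ A1 := by
      rw [← pow_add, ← pow_add]
      exact pow_le_pow_right₀ hL1 (by omega)
    calc L ^ (K' * 2) * (1 / L ^ A1) * (X * L ^ 100) * L ^ (A + 1)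
        = X * (L ^ (K' * 2) * L ^ 100 * L ^ (A + 1)) / L ^ A1 := by ring
      _ ≤ X * L ^ A1 / L ^ A1 := by
          apply div_le_div_of_nonneg_right _ (by positivity)
          exact mul_le_mul_of_nonneg_left h2 hX0.le
      _ = X := by field_simp
  -- third term
  have t3 : S * T / (η * T) ^ k ≤ X / L ^ (A + 1) := by
    have h1 : (X : ℝ) ^ (e / 2) / 4 ≤ η * T := by
      have h2 : (X : ℝ) ^ (-(3 / 8) + e) / 4 * T ≤ η * T := mul_le_mul_of_nonneg_right hη1 (by positivity)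
      have h3 : (X : ℝ) ^ (-(3 / 8) + e) * T = (X : ℝ) ^ (e / 2) := by
        rw [hT, ← Real.rpow_add hX0]
        congr 1
        ring
      calc (X : ℝ) ^ (e / 2) / 4 = (X : ℝ) ^ (-(3 / 8) + e) / 4 * T := by rw [← h3]; ring
        _ ≤ _ := h2
    have h2 : (X : ℝ) ^ (1 / 2 : ℝ) / 4 ^ k ≤ (η * T) ^ k := by
      have h3 : ((X : ℝ) ^ (e / 2) / 4) ^ k ≤ (η * T) ^ k := pow_le_pow_left₀ (by positivity) h1 k
      refine le_trans ?_ h3
      rw [div_pow]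
      apply div_le_div_of_nonneg_right _ (by positivity)
      rw [← Real.rpow_natCast, ← Real.rpow_mul hX0.le]
      apply Real.rpow_le_rpow_of_exponent_le (by linarith)
      have h4 : 1 / e ≤ (k : ℝ) := by
        rw [hk]
        push_cast
        have := Nat.le_ceil (1 / e)
        linarith
      rw [div_le_iff₀ he] at h4
      nlinarith
    have h3 : S * T ≤ X * L ^ 100 * (X : ℝ) ^ (3 / 8 : ℝ) := by
      apply mul_le_mul hS' _ (by positivity) (by positivity)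
      exact Real.rpow_le_rpow_of_exponent_le (by linarith) (by linarith)
    have h5 := H5 X hX5
    have h6 : (X : ℝ) ^ (1 / 2 : ℝ) = (X : ℝ) ^ (3 / 8 : ℝ) * (X : ℝ) ^ (1 / 8 : ℝ) := by
      rw [← Real.rpow_add hX0]
      norm_num
    have h7 : 0 < (η * T) ^ k := by positivity
    rw [div_le_div_iff₀ h7 (by positivity)]
    calc S * T * L ^ (A + 1) ≤ X * L ^ 100 * (X : ℝ) ^ (3 / 8 : ℝ) * L ^ (A + 1) :=
          mul_le_mul_of_nonneg_right h3 (by positivity)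
      _ = X * ((X : ℝ) ^ (3 / 8 : ℝ) * L ^ (A + 101)) := by
          rw [show A + 101 = 100 + (A + 1) by ring, pow_add L 100]
          ring
      _ ≤ X * ((X : ℝ) ^ (3 / 8 : ℝ) * ((X : ℝ) ^ (1 / 8 : ℝ) / 4 ^ k)) := by
          apply mul_le_mul_of_nonneg_left _ hX0.le
          apply mul_le_mul_of_nonneg_left _ (by positivity)
          rw [le_div_iff₀ (by positivity)]
          have h8 : L ^ (A + 101) ≤ L ^ (A + 102) := pow_le_pow_right₀ hL1 (by omega)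
          have h9 : (0 : ℝ) < 4 ^ k := by positivity
          nlinarith
      _ = X * ((X : ℝ) ^ (1 / 2 : ℝ) / 4 ^ k) := by rw [h6]; ring
      _ ≤ X * (η * T) ^ k := mul_le_mul_of_nonneg_left h2 hX0.le
  -- second term
  have t2 : ∫ t in {t : ℝ | T0 ≤ |t| ∧ |t| ≤ T}, ‖DP (cc (Pp κ j)) (200 * X) t‖ ≤ X / L ^ (A + 1) := hB'
  refine hD.trans ?_
  have h8 : (X : ℝ) / L ^ A = L * (X / L ^ (A + 1)) := by
    rw [pow_succ]
    field_simp
  have h9 : 0 ≤ (X : ℝ) / L ^ (A + 1) := by positivity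
  rw [h8]
  calc C * (T0 ^ 2 * η1 * S + (∫ t in {t : ℝ | T0 ≤ |t| ∧ |t| ≤ T}, ‖DP (cc (Pp κ j)) (200 * X) t‖)
        + S * T / (η * T) ^ k)
      ≤ C * (X / L ^ (A + 1) + X / L ^ (A + 1) + X / L ^ (A + 1)) :=
        mul_le_mul_of_nonneg_left (by linarith) (by linarith)
    _ = (3 * C) * (X / L ^ (A + 1)) := by ring
    _ ≤ L * (X / L ^ (A + 1)) := mul_le_mul_of_nonneg_right (by linarith) h9

end Pool.Agent.H88.E58

end

section

/-!
# E58 Sm: short smooth average of `Λ` minus long smooth average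

`y` maximal with `2^y ≤ X^(11/24)`, `w` with `8 X^(1/3) ≤ 2^w ≤ 16 X^(1/3)`; `hb` for `X < n ≤ 3X`; `ty58` for `cA` (`k = 1`) and `cB` (`k = 0`), `tp_dy` and `pc58` for `k4`, `k6`.
-/

set_option autoImplicit false

namespace Pool.Agent.H88.E58

open Finset MeasureTheory
open Pool.Agent.H88.PSI

private theorem Sm_log {z : ℝ} (hz : 1 ≤ z) : ∃ y : ℕ, (2 : ℝ) ^ y ≤ z ∧ z < 2 * (2 : ℝ) ^ y := by
  have h0 : ⌊z⌋₊ ≠ 0 := by
    have : 1 ≤ ⌊z⌋₊ := Nat.le_floor (by exact_mod_cast hz)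
    omega
  refine ⟨Nat.log 2 ⌊z⌋₊, ?_, ?_⟩
  · have h1 : 2 ^ Nat.log 2 ⌊z⌋₊ ≤ ⌊z⌋₊ := Nat.pow_log_le_self 2 h0
    have h2 : ((2 ^ Nat.log 2 ⌊z⌋₊ : ℕ) : ℝ) ≤ (⌊z⌋₊ : ℝ) := by exact_mod_cast h1
    have h3 : (⌊z⌋₊ : ℝ) ≤ z := Nat.floor_le (by linarith)
    push_cast at h2
    linarith
  · have h1 : ⌊z⌋₊ < 2 ^ (Nat.log 2 ⌊z⌋₊ + 1) := Nat.lt_pow_succ_log_self (by norm_num) _
    have h2 := (Nat.floor_lt (by linarith)).1 h1
    push_cast at h2
    rw [pow_succ] at h2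
    linarith

private theorem Sm_lin (ψ : ℝ → ℝ) (a b c d : ℕ → ℂ) (N : ℕ) (x η : ℝ) :
    sw ψ (fun n => a n + b n - 3 * c n + d n) N x η =
      sw ψ a N x η + sw ψ b N x η - 3 * sw ψ c N x η + sw ψ d N x η := by
  unfold sw
  rw [mul_sum, ← sum_add_distrib, ← sum_sub_distrib, ← sum_add_distrib]
  refine sum_congr rfl fun n _ => ?_
  ring

private theorem Sm_sum (ψ : ℝ → ℝ) {ι : Type*} (s : Finset ι) (f : ι → ArithmeticFunction ℝ) (N : ℕ)
    (x η : ℝ) : sw ψ (cc (∑ j ∈ s, f j)) N x η = ∑ j ∈ s, sw ψ (cc (f j)) N x η := by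
  unfold sw
  rw [sum_comm]
  refine sum_congr rfl fun n _ => ?_
  rw [← sum_mul]
  congr 1
  unfold cc
  have h1 : (∑ j ∈ s, f j) n = ∑ j ∈ s, f j n := by
    classical
    induction s using Finset.induction_on with
    | empty => simp
    | insert a t ha ih => rw [sum_insert ha, sum_insert ha, ArithmeticFunction.add_apply, ih]
  rw [h1, Complex.ofReal_sum]

private theorem Sm_tp {ψ : ℝ → ℝ} {g : ℝ → ℂ} (h : Bump ψ g) (e : ℝ) (he : 0 < e) (he' : e ≤ 1 / 100)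
    (A : ℕ) :
    ∃ A0 : ℕ, ∀ A1 : ℕ, A0 ≤ A1 → ∃ X0 : ℕ, ∀ X : ℕ, X0 ≤ X →
    ∀ (r : ℕ) (κ : Fin r → Fin 3) (y w : ℕ) (x η : ℝ), r ≤ 6 →
    (2 : ℝ) ^ y ≤ (X : ℝ) ^ (11 / 24 : ℝ) → (2 : ℝ) ^ w ≤ (X : ℝ) ^ (11 / 24 : ℝ) →
    (X : ℝ) ≤ x → x ≤ 2 * X →
    (X : ℝ) ^ (-(3 / 8) + e) / 4 ≤ η → η ≤ 1 / Real.log X ^ A1 →
    ‖sw ψ (cc (Tp κ y w)) (200 * X) x η - sw ψ (cc (Tp κ y w)) (200 * X) x (1 / Real.log X ^ A1)‖
      ≤ X / Real.log X ^ A := by
  obtain ⟨A0, hA⟩ := pc58 h e he he' (A + 6)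
  refine ⟨A0, fun A1 hA1 => ?_⟩
  obtain ⟨X1, H1⟩ := hA A1 hA1
  obtain ⟨X2, H2⟩ := Pool.Agent.H80.LV.log_ge 1
  refine ⟨max (max X1 X2) 3, fun X hX r κ y w x η hr hy hw hx1 hx2 hη1 hη2 => ?_⟩
  simp only [max_le_iff] at hX
  obtain ⟨⟨hX1, hX2⟩, hX3⟩ := hX
  have hXr : (3 : ℝ) ≤ X := by exact_mod_cast hX3
  have hX0 : (0 : ℝ) < X := by linarith
  have hL1 := H2 X hX2
  set L := Real.log X with hLd
  have hbd : ∀ v : ℕ, (2 : ℝ) ^ v ≤ (X : ℝ) ^ (11 / 24 : ℝ) → (v : ℝ) ≤ L := by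
    intro v hv
    have e1 : Real.log ((2 : ℝ) ^ v) ≤ Real.log ((X : ℝ) ^ (11 / 24 : ℝ)) :=
      Real.log_le_log (by positivity) hv
    rw [Real.log_pow, Real.log_rpow hX0] at e1
    have e2 := Real.log_two_gt_d9
    have e3 : (0 : ℝ) ≤ v := Nat.cast_nonneg v
    nlinarith
  rw [tp_dy, Sm_sum, Sm_sum, ← sum_sub_distrib]
  refine (norm_sum_le _ _).trans ?_
  have hb : ∀ j ∈ Fintype.piFinset (fun i => range (top (κ i) y w)),
      ‖sw ψ (cc (Pp κ j)) (200 * X) x η - sw ψ (cc (Pp κ j)) (200 * X) x (1 / L ^ A1)‖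
        ≤ X / L ^ (A + 6) := by
    intro j hj
    apply H1 X hX1 r κ j x η hr _ hx1 hx2 hη1 hη2
    intro i
    have h1 := mem_range.1 (Fintype.mem_piFinset.1 hj i)
    have h2 : (2 : ℝ) ^ j i ≤ (2 : ℝ) ^ top (κ i) y w := pow_le_pow_right₀ (by norm_num) h1.le
    refine h2.trans ?_
    unfold top
    split_ifs
    · exact hw
    · exact hy
  refine (sum_le_sum hb).trans ?_
  rw [sum_const, nsmul_eq_mul]
  have hcard : ((Fintype.piFinset (fun i => range (top (κ i) y w))).card : ℝ) ≤ L ^ 6 := by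
    rw [Fintype.card_piFinset]
    push_cast
    calc ∏ i, (((range (top (κ i) y w)).card : ℕ) : ℝ) ≤ ∏ _i : Fin r, L := by
          apply prod_le_prod
          · intro i _; positivity
          · intro i _
            rw [card_range]
            unfold top
            split_ifs
            · exact hbd w hw
            · exact hbd y hy
      _ = L ^ r := by rw [prod_const, card_univ, Fintype.card_fin]
      _ ≤ L ^ 6 := pow_le_pow_right₀ hL1 hr
  calc ((Fintype.piFinset (fun i => range (top (κ i) y w))).card : ℝ) * (X / L ^ (A + 6))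
      ≤ L ^ 6 * (X / L ^ (A + 6)) := mul_le_mul_of_nonneg_right hcard (by positivity)
    _ = X / L ^ A := by
        rw [pow_add]
        field_simp

theorem sm58 {ψ : ℝ → ℝ} {g : ℝ → ℂ} (h : Bump ψ g) (e : ℝ) (he : 0 < e) (he' : e ≤ 1 / 100) (A : ℕ) :
    ∃ A0 : ℕ, ∀ A1 : ℕ, A0 ≤ A1 → ∃ X0 : ℕ, ∀ X : ℕ, X0 ≤ X → ∀ x η : ℝ, (X : ℝ) ≤ x → x ≤ 2 * X →
    (X : ℝ) ^ (-(3 / 8) + e) / 4 ≤ η → η ≤ (X : ℝ) ^ (-(1 / 4) : ℝ) →
    ‖sw ψ (cc La) (200 * X) x η - sw ψ (cc La) (200 * X) x (1 / Real.log X ^ A1)‖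
      ≤ X / Real.log X ^ A := by
  obtain ⟨a1, h1⟩ := ty58 h (A + 1)
  obtain ⟨a2, h2⟩ := Sm_tp h e he he' (A + 1)
  refine ⟨max (max a1 a2) 1, fun A1 hA1 => ?_⟩
  simp only [max_le_iff] at hA1
  obtain ⟨⟨hA1, hA2⟩, hA3⟩ := hA1
  obtain ⟨X1, h3⟩ := h1 A1 hA1
  obtain ⟨X2, h4⟩ := h2 A1 hA2
  obtain ⟨X3, h5⟩ := Pool.Agent.H80.LV.log_ge 48
  obtain ⟨X4, h6⟩ := Pool.Agent.H80.LV.pow_ge (1 / 8) 4 (by norm_num)
  obtain ⟨X5, h7⟩ := Pool.Agent.H80.LV.log_pow_le (1 / 4) 1 (by norm_num) (by norm_num) A1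
  obtain ⟨X6, h8⟩ := Pool.Agent.H80.LV.pow_ge e 4 he
  refine ⟨max (max (max X1 X2) (max X3 X4)) (max (max X5 X6) 1), fun X hX x η hx1 hx2 hη1 hη2 => ?_⟩
  simp only [max_le_iff] at hX
  obtain ⟨⟨⟨hX1', hX2'⟩, hX3', hX4'⟩, ⟨hX5', hX6'⟩, hXN⟩ := hX
  have hL := h5 X hX3'
  have hX8 := h6 X hX4'
  have hX7 := h7 X hX5'
  have hX9 := h8 X hX6'
  have hX1 : (1 : ℝ) ≤ X := by exact_mod_cast hXN
  have hX0 : (0 : ℝ) < X := by linarith
  have hx0 : 0 < x := by linarith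
  obtain ⟨y, hy1, hy2⟩ := Sm_log (z := (X : ℝ) ^ (11 / 24 : ℝ))
    (Real.one_le_rpow hX1 (by norm_num))
  obtain ⟨w, hw1, hw2⟩ := Sm_log (z := (X : ℝ) ^ (1 / 3 : ℝ))
    (Real.one_le_rpow hX1 (by norm_num))
  -- sizes
  have hww : (2 : ℝ) ^ (w + 2) ≤ (X : ℝ) ^ (11 / 24 : ℝ) := by
    rw [pow_add]
    have e1 : (X : ℝ) ^ (11 / 24 : ℝ) = (X : ℝ) ^ (1 / 3 : ℝ) * (X : ℝ) ^ (1 / 8 : ℝ) := by
      rw [← Real.rpow_add hX0]
      norm_num
    rw [e1]
    have e2 : (0 : ℝ) ≤ (X : ℝ) ^ (1 / 3 : ℝ) := by positivity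
    have e3 : (0 : ℝ) < 2 ^ w := by positivity
    nlinarith
  have hcube : (8 : ℝ) * X ≤ ((2 : ℝ) ^ (w + 2)) ^ 3 := by
    have e1 : ((X : ℝ) ^ (1 / 3 : ℝ)) ^ 3 = X := by
      rw [← Real.rpow_natCast, ← Real.rpow_mul hX0.le]
      norm_num
    have e2 : 2 * (X : ℝ) ^ (1 / 3 : ℝ) ≤ (2 : ℝ) ^ (w + 2) := by
      rw [pow_add]
      linarith
    calc (8 : ℝ) * X = (2 * (X : ℝ) ^ (1 / 3 : ℝ)) ^ 3 := by rw [mul_pow, e1]; norm_num
      _ ≤ _ := pow_le_pow_left₀ (by positivity) e2 3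
  have hyw : (2 : ℝ) ^ y * (2 : ℝ) ^ (w + 2) ≤ X := by
    have e1 : (2 : ℝ) ^ (w + 2) ≤ 4 * (X : ℝ) ^ (1 / 3 : ℝ) := by
      rw [pow_add]
      linarith
    have e2 : (X : ℝ) ^ (11 / 24 : ℝ) * (4 * (X : ℝ) ^ (1 / 3 : ℝ)) ≤ X := by
      have e3 : (X : ℝ) ^ (1 / 12 : ℝ) * ((X : ℝ) ^ (11 / 24 : ℝ) * ((X : ℝ) ^ (1 / 8 : ℝ) *
          (X : ℝ) ^ (1 / 3 : ℝ))) = X := by
        rw [← Real.rpow_add hX0, ← Real.rpow_add hX0, ← Real.rpow_add hX0]
        norm_num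
      have e4 : (1 : ℝ) ≤ (X : ℝ) ^ (1 / 12 : ℝ) := Real.one_le_rpow hX1 (by norm_num)
      have e5 : (X : ℝ) ^ (11 / 24 : ℝ) * (4 * (X : ℝ) ^ (1 / 3 : ℝ)) ≤
          (X : ℝ) ^ (11 / 24 : ℝ) * ((X : ℝ) ^ (1 / 8 : ℝ) * (X : ℝ) ^ (1 / 3 : ℝ)) :=
        mul_le_mul_of_nonneg_left (mul_le_mul_of_nonneg_right hX8 (by positivity)) (by positivity)
      have e6 : 1 * ((X : ℝ) ^ (11 / 24 : ℝ) * ((X : ℝ) ^ (1 / 8 : ℝ) * (X : ℝ) ^ (1 / 3 : ℝ))) ≤
          (X : ℝ) ^ (1 / 12 : ℝ) * ((X : ℝ) ^ (11 / 24 : ℝ) * ((X : ℝ) ^ (1 / 8 : ℝ) *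
          (X : ℝ) ^ (1 / 3 : ℝ))) := mul_le_mul_of_nonneg_right e4 (by positivity)
      rw [e3, one_mul] at e6
      exact e5.trans e6
    exact (mul_le_mul hy1 e1 (by positivity) (by positivity)).trans e2
  have hyL : ((y : ℝ) + 1) ≤ 4 * Real.log X := by
    have e1 : Real.log ((2 : ℝ) ^ y) ≤ Real.log ((X : ℝ) ^ (11 / 24 : ℝ)) :=
      Real.log_le_log (by positivity) hy1
    rw [Real.log_pow, Real.log_rpow hX0] at e1
    have e2 := Real.log_two_gt_d9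
    have e3 : (0 : ℝ) ≤ y := Nat.cast_nonneg y
    nlinarith
  set L := Real.log X with hLd
  have hL0 : 0 < L := by linarith
  set η1 : ℝ := 1 / L ^ A1 with hη1d
  have hη1p : 0 < η1 := by positivity
  have hη0 : 0 < η := lt_of_lt_of_le (by positivity) hη1
  have hηη1 : η ≤ η1 := by
    refine hη2.trans ?_
    rw [hη1d, Real.rpow_neg hX0.le, ← one_div]
    apply one_div_le_one_div_of_le (by positivity)
    linarith
  have hη8 : (X : ℝ) ^ (-(3 / 8) : ℝ) ≤ η := by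
    refine le_trans ?_ hη1
    rw [le_div_iff₀ (by norm_num), Real.rpow_add hX0]
    exact mul_le_mul_of_nonneg_left hX9 (by positivity)
  -- the window
  have hη1s : η1 ≤ 1 / 10 := by
    rw [hη1d]
    apply one_div_le_one_div_of_le (by norm_num)
    have : L ^ 1 ≤ L ^ A1 := pow_le_pow_right₀ (by linarith) hA3
    linarith
  have hexp : Real.exp (1 / 10) ≤ 3 / 2 := by
    have h1 := Real.exp_bound' (x := 1 / 10) (by norm_num) (by norm_num) (n := 2) (by norm_num)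
    refine h1.trans ?_
    norm_num [Finset.sum_range_succ, Nat.factorial]
  have hwin : ∀ η' : ℝ, η' ≤ η1 → x * Real.exp η' ≤ 3 * X := by
    intro η' hη'
    have h1 : Real.exp η' ≤ 3 / 2 := (Real.exp_le_exp.2 (hη'.trans hη1s)).trans hexp
    have h2 : x * Real.exp η' ≤ (2 * X) * (3 / 2) := mul_le_mul hx2 h1 (Real.exp_pos _).le (by positivity)
    linarith
  -- the four terms
  have t1 := h3 X hX1' (2 ^ y) 1 (cA (w + 2)) x η (by decide) (by push_cast; linarith)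
    (by push_cast; exact hy1) (fun m => by
      refine (cA_bd (w + 2) m).trans ?_
      have e1 : 0 ≤ tau m ^ 5 := by unfold tau; positivity
      nlinarith) hx1 hx2 hη8 hη2
  have t2 := h3 X hX1' (2 ^ y) 0 (cB y (w + 2)) x η (by decide) (by push_cast; linarith)
    (by push_cast; exact hy1) (fun m => by
      refine (cB_bd y (w + 2) m).trans ?_
      have e1 : 0 ≤ tau m ^ 5 := by unfold tau; positivity
      nlinarith) hx1 hx2 hη8 hη2
  have t3 := h4 X hX2' 4 k4 y (w + 2) x η (by norm_num) hy1 hww hx1 hx2 hη1 hηη1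
  have t4 := h4 X hX2' 6 k6 y (w + 2) x η (by norm_num) hy1 hww hx1 hx2 hη1 hηη1
  set f1 : ℕ → ℂ := cc (hi 1 (2 ^ y) * cA (w + 2)) with hf1
  set f2 : ℕ → ℂ := cc (hi 0 (2 ^ y) * cB y (w + 2)) with hf2
  set f3 : ℕ → ℂ := cc (Tp k4 y (w + 2)) with hf3
  set f4 : ℕ → ℂ := cc (Tp k6 y (w + 2)) with hf4
  have hid : ∀ η' : ℝ, η' ≤ η1 → ∀ n : ℕ, x < n → (n : ℝ) < x * Real.exp η' →
      cc La n = f1 n + f2 n - 3 * f3 n + f4 n := by
    intro η' hη' n hn1 hn2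
    have hn3 : (n : ℝ) < 3 * X := lt_of_lt_of_le hn2 (hwin η' hη')
    have e1 : n < (2 ^ (w + 2)) ^ 3 := by
      have e2 : (n : ℝ) < ((2 : ℝ) ^ (w + 2)) ^ 3 := by linarith
      exact_mod_cast e2
    have e2 : 2 ^ y * 2 ^ (w + 2) ≤ n := by
      have e3 : ((2 : ℝ) ^ y * (2 : ℝ) ^ (w + 2)) ≤ n := by linarith
      exact_mod_cast e3
    have e3 := hb y (w + 2) n e1 e2
    simp only [hf1, hf2, hf3, hf4, cc]
    rw [e3]
    push_cast
    ring
  rw [sw_congr h (cc La) (fun n => f1 n + f2 n - 3 * f3 n + f4 n) (200 * X) x η hx0 hη0 (hid η hηη1),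
    sw_congr h (cc La) (fun n => f1 n + f2 n - 3 * f3 n + f4 n) (200 * X) x η1 hx0 hη1p
      (hid η1 le_rfl), Sm_lin, Sm_lin]
  have e0 : ∀ a b c d a' b' c' d' : ℂ, a + b - 3 * c + d - (a' + b' - 3 * c' + d') =
      (a - a') + (b - b') - 3 * (c - c') + (d - d') := by intros; ring
  rw [e0]
  have hnn : ∀ a b c d : ℂ, ‖a + b - 3 * c + d‖ ≤ ‖a‖ + ‖b‖ + 3 * ‖c‖ + ‖d‖ := by
    intro a b c d
    have h2 := norm_add_le (a + b - 3 * c) d
    have h3 := norm_sub_le (a + b) (3 * c)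
    have h4 := norm_add_le a b
    have h5 : ‖3 * c‖ = 3 * ‖c‖ := by rw [norm_mul]; norm_num
    linarith
  refine (hnn _ _ _ _).trans ?_
  have h9 : (X : ℝ) / L ^ A = L * (X / L ^ (A + 1)) := by
    rw [pow_succ]
    field_simp
  have h10 : 0 ≤ (X : ℝ) / L ^ (A + 1) := by positivity
  rw [h9]
  have h11 : 6 * ((X : ℝ) / L ^ (A + 1)) ≤ L * (X / L ^ (A + 1)) :=
    mul_le_mul_of_nonneg_right (by linarith) h10
  linarith

end Pool.Agent.H88.E58

end

section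

/-!
# E58 Fn: primes in every interval `(x, x + x^(5/8+e)]`
-/

set_option autoImplicit false

namespace Pool.Agent.H88.E58

open Finset MeasureTheory
open Pool.Agent.H88.PSI

/-- the number of primes in `(a, b]` -/
private noncomputable def Fn_P (a b : ℕ) : ℝ := (((Ioc a b).filter Nat.Prime).card : ℝ)

private theorem Fn_P_add {a b c : ℕ} (h1 : a ≤ b) (h2 : b ≤ c) : Fn_P a b + Fn_P b c = Fn_P a c := by
  unfold Fn_P
  rw [← Ioc_union_Ioc_eq_Ioc h1 h2, filter_union, card_union_of_disjoint]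
  · push_cast
    ring
  · apply disjoint_filter_filter
    rw [disjoint_left]
    intro n hn hn'
    rw [mem_Ioc] at hn hn'
    omega

private theorem Fn_P_mono {a b c : ℕ} (h2 : b ≤ c) : Fn_P a b ≤ Fn_P a c := by
  unfold Fn_P
  exact_mod_cast card_le_card (filter_subset_filter _ (Ioc_subset_Ioc le_rfl h2))

private theorem Fn_La (x z : ℝ) (hx : 1 ≤ x) (hz : x ≤ z) :
    ∑ n ∈ Ioc ⌊x⌋₊ ⌊z⌋₊, La n ≤ Fn_P ⌊x⌋₊ ⌊z⌋₊ * Real.log z + 2 * Real.sqrt z * Real.log z := by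
  have hf : ⌊x⌋₊ ≤ ⌊z⌋₊ := Nat.floor_le_floor hz
  have h1 : ∑ n ∈ Ioc ⌊x⌋₊ ⌊z⌋₊, La n = Chebyshev.psi z - Chebyshev.psi x := by
    unfold Chebyshev.psi
    rw [← sum_Ioc_consecutive _ (Nat.zero_le _) hf, add_sub_cancel_left]
    rfl
  have h2 := Chebyshev.psi_sub_theta_le (x := z) (by linarith only [hx, hz])
  have h3 := Chebyshev.theta_le_psi x
  have h4 : Chebyshev.theta z - Chebyshev.theta x = ∑ p ∈ (Ioc ⌊x⌋₊ ⌊z⌋₊).filter Nat.Prime, Real.log p := by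
    unfold Chebyshev.theta
    rw [sum_filter, sum_filter, sum_filter, ← sum_Ioc_consecutive _ (Nat.zero_le _) hf,
      add_sub_cancel_left]
  have h5 : ∑ p ∈ (Ioc ⌊x⌋₊ ⌊z⌋₊).filter Nat.Prime, Real.log p ≤ Fn_P ⌊x⌋₊ ⌊z⌋₊ * Real.log z := by
    unfold Fn_P
    rw [← nsmul_eq_mul]
    apply sum_le_card_nsmul
    intro p hp
    have h6 := mem_Ioc.1 (mem_filter.1 hp).1
    have h7 : (p : ℝ) ≤ z := (Nat.le_floor_iff (by linarith)).1 h6.2
    apply Real.log_le_log _ h7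
    exact_mod_cast (mem_filter.1 hp).2.pos
  linarith only [h1, h2, h3, h4, h5]

theorem win58 (e : ℝ) (he : 0 < e) (he' : e ≤ 1 / 100) : ∃ X0 : ℕ, ∀ X : ℕ, X0 ≤ X → ∀ x : ℝ,
    (X : ℝ) ≤ x → x ≤ 2 * X →
    (X : ℝ) ^ (5 / 8 + e) / (1000 * Real.log X) ≤
      (((Ioc ⌊x⌋₊ ⌊x + (X : ℝ) ^ (5 / 8 + e)⌋₊).filter Nat.Prime).card : ℝ) := by
  obtain ⟨ψ, g, hψ⟩ := bmp
  obtain ⟨A0, hA⟩ := sm58 hψ e he he' 1
  obtain ⟨X1, h1⟩ := hA (max A0 1) (le_max_left _ _)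
  obtain ⟨X2, h2⟩ := lg58 hψ (max A0 1) (le_max_right _ _)
  obtain ⟨X3, h3⟩ := Pool.Agent.H80.LV.log_ge 8
  obtain ⟨X4, h4⟩ := Pool.Agent.H80.LV.log_pow_le (1 / 8) 512 (by norm_num) (by norm_num) 1
  refine ⟨max (max X1 X2) (max (max X3 X4) 3), fun X hX x hx1 hx2 => ?_⟩
  simp only [max_le_iff] at hX
  obtain ⟨⟨hX1, hX2⟩, ⟨hX3, hX4⟩, hX5⟩ := hX
  have hL := h3 X hX3
  have hXr : (3 : ℝ) ≤ X := by exact_mod_cast hX5
  have hX0 : (0 : ℝ) < X := by linarith only [he, he', hXr]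
  have hx0 : 0 < x := by linarith only [he, he', hx1, hXr]
  have hlg := h2 X hX2 x hx1 hx2
  have h8 := h4 X hX4
  rw [pow_one] at h8
  set L := Real.log X with hLd
  set H : ℝ := (X : ℝ) ^ (5 / 8 + e) with hH
  have hH0 : 0 < H := by positivity
  set η : ℝ := (X : ℝ) ^ (-(3 / 8) + e) / 4 with hη
  have hη0 : 0 < η := by positivity
  have hηH : 4 * X * η = H := by
    have e1 : (X : ℝ) ^ (1 : ℝ) * (X : ℝ) ^ (-(3 / 8) + e) = H := by
      rw [← Real.rpow_add hX0, hH]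
      congr 1
      ring
    rw [Real.rpow_one] at e1
    rw [← e1, hη]
    ring
  have hη4 : η ≤ (X : ℝ) ^ (-(1 / 4) : ℝ) := by
    have e1 : (X : ℝ) ^ (-(3 / 8) + e) ≤ (X : ℝ) ^ (-(1 / 4) : ℝ) :=
      Real.rpow_le_rpow_of_exponent_le (by linarith only [he, he', hXr]) (by linarith only [he, he'])
    have e2 : (0 : ℝ) < (X : ℝ) ^ (-(3 / 8) + e) := by positivity
    rw [hη]
    linarith only [hη, hη0, e1]
  have hη1 : η ≤ 1 / 4 := by
    have e1 : (X : ℝ) ^ (-(3 / 8) + e) ≤ (X : ℝ) ^ (0 : ℝ) :=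
      Real.rpow_le_rpow_of_exponent_le (by linarith only [he, he', hXr]) (by linarith only [he, he'])
    rw [Real.rpow_zero] at e1
    rw [hη]
    linarith only [e1]
  have hsm := h1 X hX1 x η hx1 hx2 le_rfl hη4
  -- the short average is large
  have hre : (X : ℝ) / 8 ≤ (sw ψ (cc La) (200 * X) x η).re := by
    have e1 := (Complex.abs_re_le_norm _).trans hsm
    rw [Complex.sub_re] at e1
    have e2 := (abs_le.1 e1).1
    have e3 : (X : ℝ) / L ^ 1 ≤ X / 8 := by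
      rw [pow_one]
      exact div_le_div_of_nonneg_left hX0.le (by norm_num) hL
    linarith only [hlg, e2, e3]
  have hexp : x * Real.exp η ≤ x + H := by
    have e1 : Real.exp η ≤ 1 + 2 * η := by
      have e2 := Real.exp_bound' (x := η) hη0.le (by linarith only [he, he', hη1]) (n := 2) (by norm_num)
      norm_num [Finset.sum_range_succ, Nat.factorial] at e2
      nlinarith only [hηH, he', hXr, e2, he, hη0, hH0, hη1]
    calc x * Real.exp η ≤ x * (1 + 2 * η) := mul_le_mul_of_nonneg_left e1 hx0.le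
      _ = x + 2 * x * η := by ring
      _ ≤ x + 4 * X * η := by nlinarith only [he, he', hx2, hη0]
      _ = x + H := by rw [hηH]
  have hLa0 : ∀ n, 0 ≤ La n := fun n => ArithmeticFunction.vonMangoldt_nonneg
  have hsum : (sw ψ (cc La) (200 * X) x η).re ≤ (1 / η) * ∑ n ∈ Ioc ⌊x⌋₊ ⌊x + H⌋₊, La n := by
    have e1 : (sw ψ (cc La) (200 * X) x η).re =
        ∑ n ∈ Icc 1 (200 * X), La n * (ψ ((Real.log n - Real.log x) / η) / η) := by
      unfold sw
      rw [Complex.re_sum]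
      refine sum_congr rfl fun n _ => ?_
      unfold cc
      rw [← Complex.ofReal_mul, Complex.ofReal_re]
    rw [e1]
    calc ∑ n ∈ Icc 1 (200 * X), La n * (ψ ((Real.log n - Real.log x) / η) / η)
        = ∑ n ∈ (Icc 1 (200 * X)).filter (fun n => n ∈ Ioc ⌊x⌋₊ ⌊x + H⌋₊),
            La n * (ψ ((Real.log n - Real.log x) / η) / η) := by
          symm
          apply sum_subset (filter_subset _ _)
          intro n hn hn'
          by_cases e2 : ψ ((Real.log n - Real.log x) / η) = 0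
          · rw [e2]; simp
          · exfalso
            apply hn'
            rw [mem_filter]
            refine ⟨hn, ?_⟩
            obtain ⟨e3, e4⟩ := hψ.supp _ e2
            have hn0 : (0 : ℝ) < n := by exact_mod_cast (mem_Icc.1 hn).1
            rw [lt_div_iff₀ hη0, zero_mul] at e3
            rw [div_lt_iff₀ hη0, one_mul] at e4
            have e5 : x < n := (Real.log_lt_log_iff hx0 hn0).1 (by linarith only [e3])
            have e6 : (n : ℝ) < x * Real.exp η := by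
              rw [← Real.log_lt_log_iff hn0 (by positivity), Real.log_mul hx0.ne' (Real.exp_pos _).ne',
                Real.log_exp]
              linarith only [e4]
            rw [mem_Ioc]
            exact ⟨(Nat.floor_lt hx0.le).2 e5, Nat.le_floor (by linarith only [hexp, e6])⟩
      _ ≤ ∑ n ∈ (Icc 1 (200 * X)).filter (fun n => n ∈ Ioc ⌊x⌋₊ ⌊x + H⌋₊), (1 / η) * La n := by
          apply sum_le_sum
          intro n _
          have e2 := hψ.le1 ((Real.log n - Real.log x) / η)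
          have e3 : ψ ((Real.log n - Real.log x) / η) / η ≤ 1 / η :=
            div_le_div_of_nonneg_right e2 hη0.le
          calc La n * (ψ ((Real.log n - Real.log x) / η) / η) ≤ La n * (1 / η) :=
                mul_le_mul_of_nonneg_left e3 (hLa0 n)
            _ = 1 / η * La n := mul_comm _ _
      _ ≤ ∑ n ∈ Ioc ⌊x⌋₊ ⌊x + H⌋₊, (1 / η) * La n := by
          apply sum_le_sum_of_subset_of_nonneg
          · intro n hn
            exact (mem_filter.1 hn).2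
          · intro n _ _
            exact mul_nonneg (by positivity) (hLa0 n)
      _ = _ := by rw [mul_sum]
  have hHX : H ≤ X := by
    rw [hH]
    nth_rewrite 2 [← Real.rpow_one (X : ℝ)]
    exact Real.rpow_le_rpow_of_exponent_le (by linarith only [he, he', hXr]) (by linarith only [he, he'])
  have hz : x + H ≤ 3 * X := by linarith only [hx2, hHX]
  have hmain := Fn_La x (x + H) (by linarith only [he, he', hx1, hXr]) (by linarith only [hH0])
  have hlog : Real.log (x + H) ≤ 2 * L := by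
    have e1 : Real.log (x + H) ≤ Real.log ((X : ℝ) ^ 2) := by
      apply Real.log_le_log (by linarith only [he, he', hx1, hXr, hH0])
      nlinarith only [hx2, hHX, hXr]
    rw [Real.log_pow] at e1
    push_cast at e1
    linarith only [e1]
  have hsq : Real.sqrt (x + H) ≤ 2 * (X : ℝ) ^ (1 / 2 : ℝ) := by
    rw [← Real.sqrt_eq_rpow]
    calc Real.sqrt (x + H) ≤ Real.sqrt (2 ^ 2 * X) := Real.sqrt_le_sqrt (by linarith only [he, he', hx2, hXr, hHX])
      _ = 2 * Real.sqrt X := by rw [Real.sqrt_mul (by norm_num), Real.sqrt_sq (by norm_num)]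
  have hH8 : 512 * L * (X : ℝ) ^ (1 / 2 : ℝ) ≤ H := by
    calc 512 * L * (X : ℝ) ^ (1 / 2 : ℝ) ≤ (X : ℝ) ^ (1 / 8 : ℝ) * (X : ℝ) ^ (1 / 2 : ℝ) :=
          mul_le_mul_of_nonneg_right h8 (by positivity)
      _ = (X : ℝ) ^ (5 / 8 : ℝ) := by rw [← Real.rpow_add hX0]; norm_num
      _ ≤ H := Real.rpow_le_rpow_of_exponent_le (by linarith only [he, he', hXr]) (by linarith only [he])
  have hL0 : 0 < L := by linarith only [he, he', hL]
  have hlow : H / 32 ≤ ∑ n ∈ Ioc ⌊x⌋₊ ⌊x + H⌋₊, La n := by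
    have e1 := hre.trans hsum
    rw [one_div, inv_mul_eq_div, le_div_iff₀ hη0] at e1
    linarith only [hηH, e1]
  have hP0 : 0 ≤ Fn_P ⌊x⌋₊ ⌊x + H⌋₊ := by unfold Fn_P; positivity
  have hlog0 : 0 ≤ Real.log (x + H) := Real.log_nonneg (by linarith only [he, he', hx1, hXr, hH0])
  have e5 : Fn_P ⌊x⌋₊ ⌊x + H⌋₊ * Real.log (x + H) ≤ Fn_P ⌊x⌋₊ ⌊x + H⌋₊ * (2 * L) :=
    mul_le_mul_of_nonneg_left hlog hP0
  have e6 : 2 * Real.sqrt (x + H) * Real.log (x + H) ≤ 2 * (2 * (X : ℝ) ^ (1 / 2 : ℝ)) * (2 * L) :=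
    mul_le_mul (by linarith only [hsq]) hlog hlog0 (by positivity)
  show H / (1000 * L) ≤ Fn_P ⌊x⌋₊ ⌊x + H⌋₊
  rw [div_le_iff₀ (by positivity)]
  nlinarith only [hH0, hmain, hH8, hlow, e5, e6]

theorem primesIn_58 (θ : ℝ) (h : 5 / 8 < θ) : Pool.Agent.H97.EP.PrimesIn θ := by
  set e : ℝ := min ((θ - 5 / 8) / 2) (1 / 100) with hed
  have he : 0 < e := lt_min (by linarith only [h]) (by norm_num)
  have he' : e ≤ 1 / 100 := min_le_right _ _
  have heθ : 5 / 8 + e ≤ θ := by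
    have := min_le_left ((θ - 5 / 8) / 2) (1 / 100 : ℝ)
    rw [← hed] at this
    linarith only [he, this]
  obtain ⟨X0, hw⟩ := win58 e he he'
  refine ⟨1 / 2000, max (X0 : ℝ) 16 + 1, by norm_num, fun x hx y hy1 hy2 => ?_⟩
  obtain ⟨X, hXd⟩ : ∃ X : ℕ, X = ⌊x⌋₊ := ⟨_, rfl⟩
  have hxa : (X0 : ℝ) + 1 ≤ x := by have := le_max_left (X0 : ℝ) 16; linarith only [hx, this]
  have hxb : (16 : ℝ) + 1 ≤ x := by have := le_max_right (X0 : ℝ) 16; linarith only [hx, this]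
  have hXx : (X : ℝ) ≤ x := by rw [hXd]; exact Nat.floor_le (by linarith only [he, he', hxb])
  have hxX : x < X + 1 := by rw [hXd]; exact Nat.lt_floor_add_one x
  have hX0 : X0 ≤ X := by
    rw [hXd]
    exact Nat.le_floor (by linarith only [he, he', hxa])
  have hX16 : (16 : ℝ) ≤ X := by linarith
  have hXp : (0 : ℝ) < X := by linarith
  set H : ℝ := (X : ℝ) ^ (5 / 8 + e) with hH
  have hH4 : 4 ≤ H := by
    calc (4 : ℝ) = (16 : ℝ) ^ (1 / 2 : ℝ) := by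
          rw [show (16 : ℝ) = 4 ^ (2 : ℝ) by norm_num, ← Real.rpow_mul (by norm_num)]
          norm_num
      _ ≤ (X : ℝ) ^ (1 / 2 : ℝ) := Real.rpow_le_rpow (by norm_num) hX16 (by norm_num)
      _ ≤ H := Real.rpow_le_rpow_of_exponent_le (by linarith only [he, he', hxb, hxX]) (by linarith only [he, he'])
  have hH0 : 0 < H := by linarith only [he, he', hH4]
  have hy0 : 0 ≤ y := le_trans (by positivity) hy1
  have hHy : H ≤ y := by
    refine le_trans ?_ hy1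
    calc H ≤ (X : ℝ) ^ θ := Real.rpow_le_rpow_of_exponent_le (by linarith only [he, he', hxb, hxX]) heθ
      _ ≤ x ^ θ := Real.rpow_le_rpow hXp.le hXx (by linarith)
  obtain ⟨m, hm⟩ : ∃ m : ℕ, m = ⌊y / H⌋₊ := ⟨_, rfl⟩
  have hmy : (m : ℝ) * H ≤ y := by
    have : (m : ℝ) ≤ y / H := by rw [hm]; exact Nat.floor_le (div_nonneg hy0 hH0.le)
    rwa [le_div_iff₀ hH0] at this
  have hmy2 : y ≤ 2 * (m * H) := by
    have h1 : y / H < m + 1 := by rw [hm]; exact Nat.lt_floor_add_one _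
    rw [div_lt_iff₀ hH0] at h1
    have h2 : (1 : ℝ) ≤ m := by
      have : 1 ≤ m := by
        rw [hm]
        apply Nat.le_floor
        rw [le_div_iff₀ hH0]
        simpa using hHy
      exact_mod_cast this
    nlinarith only [h1, h2, he, he', hH4]
  have hlogX : 0 < Real.log X := Real.log_pos (by linarith only [he, he', hxb, hxX])
  have hind : ∀ i : ℕ, i ≤ m → (i : ℝ) * (H / (1000 * Real.log X)) ≤ Fn_P ⌊x⌋₊ ⌊x + i * H⌋₊ := by
    intro i
    induction i with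
    | zero =>
      intro _
      simp [Fn_P]
    | succ i ih =>
      intro hi
      have h1 := ih (by omega)
      have h2 : ((i : ℝ) + 1) * H ≤ y := by
        refine le_trans ?_ hmy
        apply mul_le_mul_of_nonneg_right _ hH0.le
        exact_mod_cast hi
      have h3 : x + i * H ≤ 2 * X := by nlinarith only [he, he', hy2, hxX, hH4, h2]
      have h4 := hw X hX0 (x + i * H) (by nlinarith only [hXx, hH4, Nat.cast_nonneg (α := ℝ) i]) h3
      have h5 : x + (i : ℝ) * H + H = x + ((i + 1 : ℕ) : ℝ) * H := by push_cast; ring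
      rw [← hH, h5] at h4
      have h6 : Fn_P ⌊x⌋₊ ⌊x + i * H⌋₊ + Fn_P ⌊x + i * H⌋₊ ⌊x + ((i + 1 : ℕ) : ℝ) * H⌋₊ =
          Fn_P ⌊x⌋₊ ⌊x + ((i + 1 : ℕ) : ℝ) * H⌋₊ := by
        apply Fn_P_add
        · exact Nat.floor_le_floor (by nlinarith only [hH4, Nat.cast_nonneg (α := ℝ) i])
        · apply Nat.floor_le_floor
          push_cast
          nlinarith only [he, he', hH4]
      rw [← h6]
      have h7 : H / (1000 * Real.log X) ≤
          Fn_P ⌊x + i * H⌋₊ ⌊x + ((i + 1 : ℕ) : ℝ) * H⌋₊ := h4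
      push_cast at h1 h7 ⊢
      linarith only [h1, h7]
  have hfin := hind m le_rfl
  have hmono : Fn_P ⌊x⌋₊ ⌊x + m * H⌋₊ ≤ Fn_P ⌊x⌋₊ ⌊x + y⌋₊ :=
    Fn_P_mono (Nat.floor_le_floor (by linarith only [hmy]))
  show 1 / 2000 * (y / Real.log x) ≤ Fn_P ⌊x⌋₊ ⌊x + y⌋₊
  refine le_trans ?_ (hfin.trans hmono)
  have h1 : y / Real.log x ≤ y / Real.log X := by
    apply div_le_div_of_nonneg_left (by linarith only [hy0]) hlogX
    exact Real.log_le_log hXp hXx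
  calc 1 / 2000 * (y / Real.log x) ≤ 1 / 2000 * (y / Real.log X) := by linarith only [h1]
    _ ≤ 1 / 2000 * (2 * (m * H) / Real.log X) := by
        apply mul_le_mul_of_nonneg_left _ (by norm_num)
        exact div_le_div_of_nonneg_right hmy2 hlogX.le
    _ = m * (H / (1000 * Real.log X)) := by
        field_simp
        ring

end Pool.Agent.H88.E58

end

section

/-!
# Project EP, module `Fin1` : every real number `> 16/3` is a degree

Uses the theorem `primesIn_58` (primes in every interval `(x, x + x^θ]`, `θ > 5/8`).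
-/

set_option autoImplicit false

namespace Pool.Agent.H97.EP

theorem degree_of_gt {d : ℝ} (hd : 16 / 3 < d) : SelbergDegree d := by
  have hd0 : 0 < d := by linarith
  have h1 : (5 : ℝ) / 8 < 1 - 2 / d := by
    have h2 : 2 / d < 3 / 8 := by
      rw [div_lt_iff₀ hd0]
      linarith
    linarith
  exact degree_of_primesIn (Pool.Agent.H88.E58.primesIn_58 (1 - 2 / d) h1) (by linarith) le_rfl

end Pool.Agent.H97.EP

end
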