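import Pool.Agent.H47.B1.H91.PK.LSa
import Pool.Agent.H47.B1.M18
import Pool.Agent.H47.B1.M39

/-! The parts of this file: H76.MU.Defs, H76.MU.LmD, H76.EHB.Basic, H76.MU.LmV, H80.LV.Tau4, H80.LV.BoxDec, H76.EHB.Mell, H76.EHB.JB, H76.EHB.SmallA, H35.W.JredE, H76.EHB.MelB, H35.W.MelG, H35.W.PowZ, H35.W.BadM, H35.W.BadN, H76.EHB.Planch, H76.EHB.Jred, H35.W.MellE, H76.MU.MelM. -/

section

/-!
# PROJECT MU (MP_0575cc_nt): common definitions

THEOREM. There is `C` with `V(X;H) ≤ C H^2 (log log X/log H)^2` for all `X ≥ 16`, `3 ≤ H ≤ X`, where `V(X;H)` is the mean square of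
`∑_{|n-x| < H/2} μ(n)` over `x ∈ [X, 2X]`.

`L = log x`, `ee(t) = exp(2 π i t)` (`Pool.Agent.H91.PK.ee`; `LSa_ee_add`, `LSa_norm_ee`, `LSa_conj_ee` in
`H91/PK/LSa.lean`), `FF f N θ = ∑_{n ≤ N} f(n) ee(n θ)`, `pb P` = primes in `(P, 2P]`, `Rk P J k`: `k` has no prime factor in
`(P, P 2^J]`, `cor`, `ge` as in `H35/W/Defs.lean`.

* `lio n = (-1)^Ω(n)` (Liouville; `0` at `n = 0`);
* `Om P J n` = number of prime factors of `n` in `(P, P 2^J]` counted with multiplicity;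
* `gl j P J n = lio n / (j + Om P J n)`;
* `SL j P J y t = ∑_{n ≤ y} gl j P J n · n^{2 π i t}`, `nrm B f = (∫_B |f|^2)^{1/2}`;
* `CorM` : the hypothesis of the part on exponential sums;
* `VK1` : cancellation in `∑ Λ(n) n^{2 π i t}` (helper97).
-/

set_option autoImplicit false

namespace Pool.Agent.H76.MU

open Finset MeasureTheory
open Pool.Agent.H91.PK (ee)
open Pool.Agent.H91.EHA (Lam)
open Pool.Agent.H76.EHB
open Pool.Agent.H35.W

/-- the Liouville function -/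
noncomputable def lio (n : ℕ) : ℝ := if n = 0 then 0 else (-1) ^ (ArithmeticFunction.cardFactors n)

/-- the number of prime factors in `(P, P 2^J]`, with multiplicity -/
noncomputable def Om (P J n : ℕ) : ℕ :=
  ∑ p ∈ n.primeFactors.filter (fun p => P < p ∧ p ≤ P * 2 ^ J), n.factorization p

/-- the weighted Liouville function -/
noncomputable def gl (j P J n : ℕ) : ℝ := lio n / ((j : ℝ) + Om P J n)

/-- `∑_{n ≤ y} gl j P J n · n^{2 π i t}` -/
noncomputable def SL (j P J y : ℕ) (t : ℝ) : ℂ :=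
  ∑ n ∈ Icc 1 y, ((gl j P J n : ℝ) : ℂ) * ee (t * Real.log n)

/-- the `L^2` norm on `B` -/
noncomputable def nrm (B : Set ℝ) (f : ℝ → ℂ) : ℝ := Real.sqrt (∫ t in B, ‖f t‖ ^ 2)

/-- Vinogradov-Korobov type cancellation (helper97, Part I of SP with `d = 1`, down to
`z ≥ exp ((log x)^(19/20))`) -/
def VK1 : Prop := ∀ K : ℕ, ∃ K' x0 : ℕ, ∀ x : ℕ, x0 ≤ x → ∀ (z : ℕ) (t : ℝ),
  Real.exp (Real.log x ^ (19 / 20 : ℝ)) ≤ z → z ≤ x ^ 2 → Real.log x ^ K' ≤ |t| →
    |t| ≤ (x : ℝ) ^ (2 : ℕ) →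
    ‖∑ n ∈ Icc 1 z, ((Lam n : ℝ) : ℂ) * ee (t * Real.log n)‖ ≤ z / Real.log x ^ K

/-- the sets of `t` which occur: measurable, in a dyadic annulus, of measure at most `T^η` -/
structure BS (η T : ℝ) (B : Set ℝ) : Prop where
  meas : MeasurableSet B
  mem : ∀ t ∈ B, T ≤ |t| ∧ |t| ≤ 2 * T
  vol : volume.real B ≤ T ^ η

/-- the hypotheses on `g` in the part on exponential sums -/
structure CorM (x m K : ℕ) (η : ℝ) (N M : ℕ) (g : ℕ → ℝ) : Prop where
  supp : ∀ n, n ∉ Ioc M N → g n = 0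
  bd : ∀ n, |g n| ≤ 1
  large : ∀ (y : ℕ) (T : ℝ) (B : Set ℝ), y ≤ N → Real.log x ^ m ≤ T → T ≤ x → BS η T B →
      ∫ t in B, ‖cor g 0 M 0 t y‖ ^ 2 ≤ (x : ℝ) ^ 2 / Real.log x ^ K

/-- `∑_{k ∈ pb P} ∑_{n ≤ x} f(n) ee(k n θ)` -/
noncomputable def SG (f : ℕ → ℝ) (x P : ℕ) (θ : ℝ) : ℂ := ∑ k ∈ pb P, FF f x (k * θ)

/-- the sum over the window `[j - h, j)` -/
noncomputable def Uw (G : ℕ → ℝ) (h j : ℕ) : ℝ := ∑ n ∈ Ico (j - h) j, G n

/-- the kernel `(1/h) ∑_{r=1}^h ee(r θ)` -/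
noncomputable def kap (h : ℕ) (θ : ℝ) : ℂ := (1 / (h : ℂ)) * ∑ r ∈ Icc 1 h, ee (r * θ)

theorem norm_ee (t : ℝ) : ‖ee t‖ = 1 := Pool.Agent.H91.PK.LSa_norm_ee t

theorem lio_abs_le (n : ℕ) : |lio n| ≤ 1 := by
  unfold lio
  split_ifs
  · simp
  · rw [abs_pow]; simp

theorem gl_abs_le (j P J n : ℕ) (hj : 1 ≤ j) : |gl j P J n| ≤ 1 := by
  unfold gl
  have h1 : (1 : ℝ) ≤ (j : ℝ) + Om P J n := by
    have : (1 : ℝ) ≤ j := by exact_mod_cast hj
    have h2 : (0 : ℝ) ≤ Om P J n := Nat.cast_nonneg _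
    linarith
  rw [abs_div, abs_of_pos (by linarith : (0 : ℝ) < (j : ℝ) + Om P J n)]
  exact (div_le_self (abs_nonneg _) h1).trans (lio_abs_le n)

/-- logarithms are smaller than powers -/
theorem log_pow_le (s C : ℝ) (hs : 0 < s) (hC : 0 < C) (c : ℕ) :
    ∃ x0 : ℕ, ∀ x : ℕ, x0 ≤ x → C * Real.log x ^ c ≤ (x : ℝ) ^ s := by
  have h1 := (isLittleO_log_rpow_rpow_atTop (c : ℝ) hs).bound (c := 1 / C) (by positivity)
  have h2 := h1.and (Filter.eventually_ge_atTop (1 : ℝ))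
  have h3 := tendsto_natCast_atTop_atTop (R := ℝ) |>.eventually h2
  obtain ⟨x0, hx0⟩ := Filter.eventually_atTop.1 h3
  refine ⟨x0, fun x hx => ?_⟩
  obtain ⟨h4, h5⟩ := hx0 x hx
  have hl : 0 ≤ Real.log x := Real.log_nonneg h5
  have hp : (0 : ℝ) ≤ (x : ℝ) ^ s := Real.rpow_nonneg (by positivity) _
  rw [Real.rpow_natCast, Real.norm_eq_abs, Real.norm_eq_abs, abs_of_nonneg (by positivity),
    abs_of_nonneg hp] at h4
  rw [div_mul_eq_mul_div, one_mul, le_div_iff₀ hC] at h4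
  linarith

/-- logarithms are large -/
theorem log_ge (C : ℝ) : ∃ x0 : ℕ, ∀ x : ℕ, x0 ≤ x → C ≤ Real.log x := by
  have h := (Real.tendsto_log_atTop.comp (tendsto_natCast_atTop_atTop (R := ℝ))).eventually
    (Filter.eventually_ge_atTop C)
  exact Filter.eventually_atTop.1 h

/-- `exp ((log x)^(19/20) (log x)^...)` is smaller than every power of `x` -/
theorem exp_pow_le (s C : ℝ) (hs : 0 < s) (hC : 0 < C) : ∃ x0 : ℕ, ∀ x : ℕ, x0 ≤ x →
    Real.exp (C * Real.log x ^ (19 / 20 : ℝ)) ≤ (x : ℝ) ^ s := by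
  have h1 : Filter.Tendsto (fun y : ℝ => y ^ (1 / 20 : ℝ)) Filter.atTop Filter.atTop :=
    tendsto_rpow_atTop (by norm_num)
  have h2 := (h1.comp (Real.tendsto_log_atTop.comp
    (tendsto_natCast_atTop_atTop (R := ℝ)))).eventually (Filter.eventually_ge_atTop (C / s))
  have h3 := (Real.tendsto_log_atTop.comp (tendsto_natCast_atTop_atTop (R := ℝ))).eventually
    (Filter.eventually_ge_atTop 1)
  obtain ⟨x0, hx0⟩ := Filter.eventually_atTop.1
    ((h2.and h3).and (Filter.eventually_ge_atTop 1))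
  refine ⟨x0, fun x hx => ?_⟩
  obtain ⟨⟨h4, h5⟩, h6⟩ := hx0 x hx
  simp only [Function.comp_apply] at h4 h5
  have hx0' : (0 : ℝ) < x := by exact_mod_cast h6
  have hL : 0 < Real.log x := by linarith
  rw [Real.rpow_def_of_pos hx0']
  apply Real.exp_le_exp.2
  have e1 : Real.log x = Real.log x ^ (19 / 20 : ℝ) * Real.log x ^ (1 / 20 : ℝ) := by
    rw [← Real.rpow_add hL]; norm_num
  rw [div_le_iff₀ hs] at h4
  have h7 : 0 ≤ Real.log x ^ (19 / 20 : ℝ) := by positivity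
  calc C * Real.log x ^ (19 / 20 : ℝ) ≤ (Real.log x ^ (1 / 20 : ℝ) * s) * Real.log x ^ (19 / 20 : ℝ) :=
        mul_le_mul_of_nonneg_right h4 h7
    _ = (Real.log x ^ (19 / 20 : ℝ) * Real.log x ^ (1 / 20 : ℝ)) * s := by ring
    _ = Real.log x * s := by rw [← e1]

end Pool.Agent.H76.MU

end

section

/-!
# MU LmD: algebra of the weighted Liouville function

`Om` is completely additive (`Nat.factorization_mul`; the primes of `m n` are those of `m` and of `n`), `lio` completely multiplicative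
(`ArithmeticFunction.cardFactors_mul`).  `log_id`: `log n = ∑_{d ∣ n} Λ(d)` (`ArithmeticFunction.vonMangoldt_sum`) and for `n = d l`:
`gl j P J n = lio d · lio l/(j + Om d + Om l) = lio d · gl (j + Om d) P J l`.
`log_sum`: multiply by `ee(t log n)`, sum over `n ≤ y`, write `n = d l`, `ee(t log (d l)) = ee(t log d) ee(t log l)`, `l ≤ y/d`
(reorder the sum over pairs; compare `Vau_sum_conv` in `H91/PK/Vau.lean`).
-/

set_option autoImplicit false

namespace Pool.Agent.H76.MU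

open Finset
open Pool.Agent.H91.PK (ee)
open Pool.Agent.H91.EHA (Lam)

theorem LmD_Om (P J n : ℕ) : Om P J n = ∑ p ∈ Ioc P (P * 2 ^ J), n.factorization p := by
  unfold Om
  refine Finset.sum_subset_zero_on_sdiff ?_ ?_ ?_
  · intro p hp
    rw [Finset.mem_filter] at hp
    exact Finset.mem_Ioc.2 hp.2
  · intro p hp
    rw [Finset.mem_sdiff, Finset.mem_Ioc, Finset.mem_filter] at hp
    by_contra h
    apply hp.2
    refine ⟨?_, hp.1⟩
    rw [← Nat.support_factorization, Finsupp.mem_support_iff]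
    exact h
  · intro p _
    rfl

theorem LmD_reorder (N : ℕ) (F : ℕ → ℕ → ℂ) :
    ∑ n ∈ Icc 1 N, ∑ d ∈ n.divisors, F d (n / d) =
      ∑ a ∈ Icc 1 N, ∑ b ∈ Icc 1 (N / a), F a b := by
  have h1 : ∀ n ∈ Icc 1 N, ∑ d ∈ n.divisors, F d (n / d)
      = ∑ p ∈ n.divisorsAntidiagonal, F p.1 p.2 := by
    intro n _
    exact (Nat.sum_divisorsAntidiagonal (fun a b => F a b)).symm
  rw [Finset.sum_congr rfl h1, Finset.sum_sigma']
  rw [Finset.sum_sigma']
  refine Finset.sum_bij' (fun x _ => ⟨x.2.1, x.2.2⟩) (fun y _ => ⟨y.1 * y.2, (y.1, y.2)⟩)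
    ?_ ?_ ?_ ?_ ?_
  · rintro ⟨n, a, b⟩ hx
    simp only [Finset.mem_sigma, Finset.mem_Icc, Nat.mem_divisorsAntidiagonal] at hx ⊢
    obtain ⟨⟨hn1, hnN⟩, hab, hn0⟩ := hx
    have ha : 1 ≤ a := by
      rcases Nat.eq_zero_or_pos a with h | h
      · subst h; simp at hab; omega
      · exact h
    have hb : 1 ≤ b := by
      rcases Nat.eq_zero_or_pos b with h | h
      · subst h; simp at hab; omega
      · exact h
    refine ⟨⟨ha, ?_⟩, hb, ?_⟩
    · calc a = a * 1 := (mul_one a).symm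
        _ ≤ a * b := Nat.mul_le_mul_left a hb
        _ ≤ N := by rw [hab]; exact hnN
    · rw [Nat.le_div_iff_mul_le (by omega)]
      calc b * a = a * b := mul_comm b a
        _ ≤ N := by rw [hab]; exact hnN
  · rintro ⟨a, b⟩ hx
    simp only [Finset.mem_sigma, Finset.mem_Icc, Nat.mem_divisorsAntidiagonal] at hx ⊢
    obtain ⟨⟨ha1, haN⟩, hb1, hbN⟩ := hx
    rw [Nat.le_div_iff_mul_le (by omega)] at hbN
    have h2 : 1 ≤ a * b := Nat.mul_pos (by omega) (by omega)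
    refine ⟨⟨h2, by rw [mul_comm]; exact hbN⟩, trivial, by omega⟩
  · rintro ⟨n, a, b⟩ hx
    simp only [Finset.mem_sigma, Nat.mem_divisorsAntidiagonal] at hx
    obtain ⟨_, hab, _⟩ := hx
    subst hab
    rfl
  · rintro ⟨a, b⟩ _
    rfl
  · rintro ⟨n, a, b⟩ _
    rfl

theorem lio_mul (m n : ℕ) : lio (m * n) = lio m * lio n := by
  unfold lio
  rcases eq_or_ne m 0 with rfl | hm
  · simp
  rcases eq_or_ne n 0 with rfl | hn
  · simp
  rw [if_neg (mul_ne_zero hm hn), if_neg hm, if_neg hn, ArithmeticFunction.cardFactors_mul hm hn,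
    pow_add]

theorem lio_prime (p : ℕ) (hp : p.Prime) : lio p = -1 := by
  unfold lio
  rw [if_neg hp.ne_zero, ArithmeticFunction.cardFactors_apply_prime hp, pow_one]

theorem Om_mul (P J m n : ℕ) (hm : m ≠ 0) (hn : n ≠ 0) : Om P J (m * n) = Om P J m + Om P J n := by
  rw [LmD_Om, LmD_Om, LmD_Om, ← Finset.sum_add_distrib, Nat.factorization_mul hm hn]
  rfl

theorem Om_prime (P J p : ℕ) (hp : p.Prime) :
    Om P J p = if P < p ∧ p ≤ P * 2 ^ J then 1 else 0 := by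
  rw [LmD_Om, hp.factorization]
  split_ifs with h
  · rw [Finset.sum_eq_single p]
    · simp
    · intro q _ hq
      exact Finsupp.single_eq_of_ne hq
    · intro h1
      exact absurd (Finset.mem_Ioc.2 h) h1
  · refine Finset.sum_eq_zero fun q hq => ?_
    apply Finsupp.single_eq_of_ne
    rintro rfl
    exact h (Finset.mem_Ioc.1 hq)

theorem log_id (j P J n : ℕ) (hn : n ≠ 0) :
    gl j P J n * Real.log n
      = ∑ d ∈ n.divisors, Lam d * lio d * gl (j + Om P J d) P J (n / d) := by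
  have h1 : Real.log n = ∑ d ∈ n.divisors, Lam d :=
    (ArithmeticFunction.vonMangoldt_sum (n := n)).symm
  rw [h1, Finset.mul_sum]
  refine Finset.sum_congr rfl fun d hd => ?_
  obtain ⟨l, rfl⟩ := Nat.dvd_of_mem_divisors hd
  have hd0 : d ≠ 0 := fun h => hn (by rw [h, zero_mul])
  have hl0 : l ≠ 0 := fun h => hn (by rw [h, mul_zero])
  rw [Nat.mul_div_cancel_left l (Nat.pos_of_ne_zero hd0)]
  unfold gl
  rw [lio_mul, Om_mul P J d l hd0 hl0]
  push_cast
  rw [add_assoc]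
  ring

theorem log_sum (j P J y : ℕ) (t : ℝ) :
    ∑ n ∈ Icc 1 y, ((gl j P J n * Real.log n : ℝ) : ℂ) * ee (t * Real.log n)
      = ∑ d ∈ Icc 1 y, ((Lam d * lio d : ℝ) : ℂ) * ee (t * Real.log d) *
          SL (j + Om P J d) P J (y / d) t := by
  have h1 : ∑ n ∈ Icc 1 y, ((gl j P J n * Real.log n : ℝ) : ℂ) * ee (t * Real.log n)
      = ∑ n ∈ Icc 1 y, ∑ d ∈ n.divisors, ((Lam d * lio d : ℝ) : ℂ) * ee (t * Real.log d) *
          (((gl (j + Om P J d) P J (n / d) : ℝ) : ℂ) * ee (t * Real.log ((n / d : ℕ) : ℝ))) := by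
    refine Finset.sum_congr rfl fun n hn => ?_
    have hn0 : n ≠ 0 := by
      have := (Finset.mem_Icc.1 hn).1
      omega
    rw [log_id j P J n hn0, Complex.ofReal_sum, Finset.sum_mul]
    refine Finset.sum_congr rfl fun d hd => ?_
    obtain ⟨l, rfl⟩ := Nat.dvd_of_mem_divisors hd
    have hd0 : d ≠ 0 := fun h => hn0 (by rw [h, zero_mul])
    have hl0 : l ≠ 0 := fun h => hn0 (by rw [h, mul_zero])
    rw [Nat.mul_div_cancel_left l (Nat.pos_of_ne_zero hd0)]
    have h2 : ee (t * Real.log ((d * l : ℕ) : ℝ)) = ee (t * Real.log d) * ee (t * Real.log l) := by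
      rw [← Pool.Agent.H91.PK.LSa_ee_add]
      congr 1
      push_cast
      rw [Real.log_mul (Nat.cast_ne_zero.2 hd0) (Nat.cast_ne_zero.2 hl0)]
      ring
    rw [h2]
    push_cast
    ring
  rw [h1, LmD_reorder y (fun d l => ((Lam d * lio d : ℝ) : ℂ) * ee (t * Real.log d) *
          (((gl (j + Om P J d) P J l : ℝ) : ℂ) * ee (t * Real.log (l : ℝ))))]
  refine Finset.sum_congr rfl fun d _ => ?_
  unfold SL
  rw [Finset.mul_sum]

end Pool.Agent.H76.MU

end

section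

/-!
# EHB Basic: elementary facts on `ee`, `FF`, `ks`

Everything follows from `LSa_ee_add`, `LSa_norm_ee`, `LSa_conj_ee`, `LSa_int_ee`, `LSa_parseval` of
`Pool/Agent/H91/PK/LSa.lean` (for `FF_parseval` take `c = 0`, `s = Icc 1 N`, `b n = f n`).
`sum_inv_ks`: the sum is `2 ∑_{k ≤ K} 1/k ≤ 2 (1 + log K)` (`harmonic_le_one_add_log`).
-/

set_option autoImplicit false

namespace Pool.Agent.H76.EHB

open Finset MeasureTheory
open Pool.Agent.H91.PK (ee)

theorem continuous_ee : Continuous ee := by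
  unfold ee
  fun_prop

theorem ee_int (j : ℤ) : ee j = 1 := by
  unfold ee
  rw [Complex.exp_eq_one_iff]
  refine ⟨j, ?_⟩
  push_cast
  ring

theorem FF_continuous (f : ℕ → ℝ) (N : ℕ) : Continuous (FF f N) := by
  unfold FF
  refine continuous_finsetSum _ fun n _ => ?_
  exact continuous_const.mul (continuous_ee.comp (continuous_const.mul continuous_id))

theorem norm_FF_le (f : ℕ → ℝ) (N : ℕ) (θ : ℝ) : ‖FF f N θ‖ ≤ ∑ n ∈ Icc 1 N, |f n| := by
  unfold FF
  refine (norm_sum_le _ _).trans (le_of_eq (sum_congr rfl fun n _ => ?_))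
  rw [norm_mul, Pool.Agent.H91.PK.LSa_norm_ee, mul_one, Complex.norm_real, Real.norm_eq_abs]

/-- Cauchy-Schwarz -/
theorem norm_FF_sq_le (f : ℕ → ℝ) (N : ℕ) (θ : ℝ) : ‖FF f N θ‖ ^ 2 ≤ N * S2 f N := by
  have h1 : ‖FF f N θ‖ ^ 2 ≤ (∑ n ∈ Icc 1 N, |f n|) ^ 2 :=
    pow_le_pow_left₀ (norm_nonneg _) (norm_FF_le f N θ) 2
  refine h1.trans ((sq_sum_le_card_mul_sum_sq).trans (le_of_eq ?_))
  unfold S2
  rw [Nat.card_Icc, Nat.add_sub_cancel]
  simp only [sq_abs]

theorem FF_parseval (f : ℕ → ℝ) (N : ℕ) (x : ℝ) :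
    ∫ t in x..(x + 1), ‖FF f N t‖ ^ 2 = S2 f N := by
  have h := Pool.Agent.H91.PK.LSa_parseval (Icc 1 N) (fun n => (f n : ℂ)) 0 x
  simp only [sub_zero, Complex.norm_real, Real.norm_eq_abs, sq_abs] at h
  exact h

theorem S2_nonneg (f : ℕ → ℝ) (N : ℕ) : 0 ≤ S2 f N := Finset.sum_nonneg fun _ _ => sq_nonneg _

end Pool.Agent.H76.EHB

end

section

/-!
# MU LmV: primes in intervals, pointwise

`PS a b t = ∑_{p ∈ (a, b]} log p · p^{2 π i t}`.  `VK1 (K + 2)` at `b` and at `a` (`∑_{n ∈ Ioc a b} Λ(n) n^{2 π i t}` is the difference), and the prime powers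
`p^k ≤ b`, `k ≥ 2`, contribute at most `2 √b (log b)^2` (`p ≤ √b`, `k ≤ log_2 b`, each `≤ log b`) `≤ b/L^{K+1}` because `b ≥ exp(L^{19/20})`
(`√b ≥ exp(L^{19/20}/2) ≥ 8 L^{K+3}` for large `x`, `log b ≤ 2 L`).
-/

set_option autoImplicit false

namespace Pool.Agent.H76.MU

open Finset
open Pool.Agent.H91.PK (ee)
open Pool.Agent.H91.EHA (Lam)

/-- `∑_{p ∈ (a, b]} log p · p^{2 π i t}` -/
noncomputable def PS (a b : ℕ) (t : ℝ) : ℂ :=
  ∑ p ∈ (Ioc a b).filter Nat.Prime, ((Real.log p : ℝ) : ℂ) * ee (t * Real.log p)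

/-- the prime powers -/
theorem ps_diff (a b : ℕ) (t : ℝ) (hab : a ≤ b) (hb : 2 ≤ b) :
    ‖PS a b t - (∑ n ∈ Icc 1 b, ((Lam n : ℝ) : ℂ) * ee (t * Real.log n)
      - ∑ n ∈ Icc 1 a, ((Lam n : ℝ) : ℂ) * ee (t * Real.log n))‖
      ≤ 4 * Real.sqrt b * Real.log b ^ 2 := by
  have h1 : ∑ n ∈ Icc 1 b, ((Lam n : ℝ) : ℂ) * ee (t * Real.log n)
      - ∑ n ∈ Icc 1 a, ((Lam n : ℝ) : ℂ) * ee (t * Real.log n)
      = ∑ n ∈ Ioc a b, ((Lam n : ℝ) : ℂ) * ee (t * Real.log n) := by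
    have h2 : Icc 1 b = Icc 1 a ∪ Ioc a b := by
      ext n; simp only [mem_Icc, mem_union, mem_Ioc]; omega
    have h3 : Disjoint (Icc 1 a) (Ioc a b) := by
      rw [Finset.disjoint_left]; intro n hn hn'
      simp only [mem_Icc, mem_Ioc] at hn hn'; omega
    rw [h2, sum_union h3]; ring
  have h4 : ∑ n ∈ Ioc a b, ((Lam n : ℝ) : ℂ) * ee (t * Real.log n)
      = PS a b t + ∑ n ∈ (Ioc a b).filter (fun n => ¬ n.Prime),
        ((Lam n : ℝ) : ℂ) * ee (t * Real.log n) := by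
    unfold PS
    rw [← sum_filter_add_sum_filter_not (Ioc a b) Nat.Prime]
    congr 1
    refine sum_congr rfl fun n hn => ?_
    rw [mem_filter] at hn
    unfold Lam
    rw [ArithmeticFunction.vonMangoldt_apply_prime hn.2]
  rw [h1, h4]
  have h5 : ∀ z w : ℂ, z - (z + w) = -w := fun z w => by ring
  rw [h5, norm_neg]
  have h6 : ‖∑ n ∈ (Ioc a b).filter (fun n => ¬ n.Prime), ((Lam n : ℝ) : ℂ) * ee (t * Real.log n)‖
      ≤ ∑ n ∈ (Ioc 0 b).filter (fun n => ¬ n.Prime), ArithmeticFunction.vonMangoldt n := by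
    refine (norm_sum_le _ _).trans ?_
    have h7 : ∑ n ∈ (Ioc a b).filter (fun n => ¬ n.Prime), ‖((Lam n : ℝ) : ℂ) * ee (t * Real.log n)‖
        = ∑ n ∈ (Ioc a b).filter (fun n => ¬ n.Prime), ArithmeticFunction.vonMangoldt n := by
      refine sum_congr rfl fun n _ => ?_
      rw [norm_mul, norm_ee, mul_one, Complex.norm_real, Real.norm_eq_abs]
      exact abs_of_nonneg ArithmeticFunction.vonMangoldt_nonneg
    rw [h7]
    refine sum_le_sum_of_subset_of_nonneg ?_ fun n _ _ => ArithmeticFunction.vonMangoldt_nonneg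
    intro n hn
    simp only [mem_filter, mem_Ioc] at hn ⊢
    exact ⟨⟨by omega, hn.1.2⟩, hn.2⟩
  have h8 := Chebyshev.psi_sub_theta_eq_sum_not_prime (b : ℝ)
  rw [Nat.floor_natCast] at h8
  have hb1 : (1 : ℝ) ≤ b := by exact_mod_cast (by omega : 1 ≤ b)
  have h9 := Chebyshev.psi_sub_theta_le hb1
  rw [h8] at h9
  refine h6.trans (h9.trans ?_)
  have hb2 : (2 : ℝ) ≤ b := by exact_mod_cast hb
  have hl : (1 / 2 : ℝ) ≤ Real.log b := by
    have := Real.log_le_log (by norm_num) hb2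
    have h2 := Real.log_two_gt_d9
    linarith
  have hs : 0 ≤ Real.sqrt b := Real.sqrt_nonneg _
  have h10 : Real.log b ≤ 2 * Real.log b ^ 2 := by nlinarith
  calc 2 * Real.sqrt b * Real.log b ≤ 2 * Real.sqrt b * (2 * Real.log b ^ 2) :=
        mul_le_mul_of_nonneg_left h10 (by positivity)
    _ = 4 * Real.sqrt b * Real.log b ^ 2 := by ring

private theorem LmV_large (K : ℕ) : ∃ x0 : ℕ, ∀ x : ℕ, x0 ≤ x →
    32 * Real.log x ^ (K + 2) ≤ Real.exp (Real.log x ^ (19 / 20 : ℝ) / 2) := by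
  have h1 := (isLittleO_rpow_exp_pos_mul_atTop ((20 / 19 : ℝ) * (K + 2)) (b := 1 / 2)
    (by norm_num)).bound (c := 1 / 32) (by norm_num)
  have h2 : Filter.Tendsto (fun y : ℝ => y ^ (19 / 20 : ℝ)) Filter.atTop Filter.atTop :=
    tendsto_rpow_atTop (by norm_num)
  have h3 := (h2.comp (Real.tendsto_log_atTop.comp
    (tendsto_natCast_atTop_atTop (R := ℝ)))).eventually h1
  have h4 := (Real.tendsto_log_atTop.comp (tendsto_natCast_atTop_atTop (R := ℝ))).eventually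
    (Filter.eventually_ge_atTop 1)
  obtain ⟨x0, hx0⟩ := Filter.eventually_atTop.1 (h3.and h4)
  refine ⟨x0, fun x hx => ?_⟩
  obtain ⟨h5, h6⟩ := hx0 x hx
  simp only [Function.comp_apply] at h5 h6
  have hL : 0 < Real.log x := by linarith
  rw [Real.norm_eq_abs, Real.norm_eq_abs, abs_of_nonneg (by positivity), abs_of_pos (Real.exp_pos _),
    ← Real.rpow_mul hL.le] at h5
  have h7 : (19 / 20 : ℝ) * (20 / 19 * (K + 2)) = ((K + 2 : ℕ) : ℝ) := by
    push_cast; ring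
  rw [h7, Real.rpow_natCast] at h5
  have h8 : Real.log x ^ (19 / 20 : ℝ) / 2 = 1 / 2 * Real.log x ^ (19 / 20 : ℝ) := by ring
  rw [h8]
  linarith

theorem ps_vk (hV : VK1) : ∀ K : ℕ, ∃ K' x0 : ℕ, ∀ x : ℕ, x0 ≤ x → ∀ (a b : ℕ) (t : ℝ),
    Real.exp (Real.log x ^ (19 / 20 : ℝ)) ≤ a → a ≤ b → b ≤ x ^ 2 → Real.log x ^ K' ≤ |t| →
      |t| ≤ (x : ℝ) ^ (2 : ℕ) → ‖PS a b t‖ ≤ b / Real.log x ^ K := by
  intro K
  obtain ⟨K', x1, hx1⟩ := hV (K + 1)
  obtain ⟨x2, hx2⟩ := LmV_large K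
  obtain ⟨x3, hx3⟩ := log_ge 4
  refine ⟨K', max (max x1 x2) x3, fun x hx a b t ha hab hb ht1 ht2 => ?_⟩
  have hxx1 : x1 ≤ x := le_trans (le_trans (le_max_left _ _) (le_max_left _ _)) hx
  have hxx2 : x2 ≤ x := le_trans (le_trans (le_max_right _ _) (le_max_left _ _)) hx
  have hxx3 : x3 ≤ x := le_trans (le_max_right _ _) hx
  have hL4 := hx3 x hxx3
  have hL : 0 < Real.log x := by linarith
  have hab' : (a : ℝ) ≤ b := by exact_mod_cast hab
  have e1 := hx1 x hxx1 b t (ha.trans hab') hb ht1 ht2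
  have e2 := hx1 x hxx1 a t ha (hab.trans hb) ht1 ht2
  have hx0 : (1 : ℝ) ≤ x := by
    by_contra hc
    have : x = 0 := by
      have : (x : ℝ) < 1 := not_le.1 hc
      exact_mod_cast Nat.lt_one_iff.1 (by exact_mod_cast this)
    rw [this] at hL; simp at hL
  have hy1 : (1 : ℝ) ≤ Real.log x ^ (19 / 20 : ℝ) := Real.one_le_rpow (by linarith) (by norm_num)
  have hb2 : (2 : ℝ) ≤ b := by
    have h1 := Real.add_one_le_exp (Real.log x ^ (19 / 20 : ℝ))
    linarith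
  have hb2' : 2 ≤ b := by exact_mod_cast hb2
  have e3 := ps_diff a b t hab hb2'
  have hb0 : (0 : ℝ) < b := by linarith
  have hlb : Real.log b ≤ 2 * Real.log x := by
    have h1 : (b : ℝ) ≤ (x : ℝ) ^ 2 := by exact_mod_cast hb
    have h2 := Real.log_le_log hb0 h1
    rw [Real.log_pow] at h2
    push_cast at h2
    exact h2
  have hlb0 : 0 ≤ Real.log b := Real.log_nonneg (by linarith)
  have hsq : Real.exp (Real.log x ^ (19 / 20 : ℝ) / 2) ≤ Real.sqrt b := by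
    apply Real.le_sqrt_of_sq_le
    rw [← Real.exp_nat_mul]
    have : ((2 : ℕ) : ℝ) * (Real.log x ^ (19 / 20 : ℝ) / 2) = Real.log x ^ (19 / 20 : ℝ) := by
      push_cast; ring
    rw [this]
    exact ha.trans hab'
  have hs0 : 0 ≤ Real.sqrt b := Real.sqrt_nonneg _
  have e4 : 4 * Real.sqrt b * Real.log b ^ 2 ≤ b / (2 * Real.log x ^ K) := by
    rw [le_div_iff₀ (by positivity)]
    have h1 : Real.log b ^ 2 ≤ (2 * Real.log x) ^ 2 := pow_le_pow_left₀ hlb0 hlb 2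
    have h2 := (hx2 x hxx2).trans hsq
    have h3 : (b : ℝ) = Real.sqrt b * Real.sqrt b := (Real.mul_self_sqrt hb0.le).symm
    calc 4 * Real.sqrt b * Real.log b ^ 2 * (2 * Real.log x ^ K)
        ≤ 4 * Real.sqrt b * (2 * Real.log x) ^ 2 * (2 * Real.log x ^ K) := by gcongr
      _ = Real.sqrt b * (32 * Real.log x ^ (K + 2)) := by ring
      _ ≤ Real.sqrt b * Real.sqrt b := mul_le_mul_of_nonneg_left h2 hs0
      _ = b := h3.symm
  have e5 : (b : ℝ) / Real.log x ^ (K + 1) ≤ b / (4 * Real.log x ^ K) := by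
    apply div_le_div_of_nonneg_left hb0.le (by positivity)
    rw [pow_succ]
    have : 0 < Real.log x ^ K := by positivity
    nlinarith
  have e6 : (a : ℝ) / Real.log x ^ (K + 1) ≤ b / (4 * Real.log x ^ K) :=
    (div_le_div_of_nonneg_right hab' (by positivity)).trans e5
  set A := ∑ n ∈ Icc 1 b, ((Lam n : ℝ) : ℂ) * ee (t * Real.log n)
  set B := ∑ n ∈ Icc 1 a, ((Lam n : ℝ) : ℂ) * ee (t * Real.log n)
  have e7 : ‖PS a b t‖ ≤ ‖PS a b t - (A - B)‖ + (‖A‖ + ‖B‖) := by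
    calc ‖PS a b t‖ = ‖(PS a b t - (A - B)) + (A - B)‖ := by congr 1; ring
      _ ≤ ‖PS a b t - (A - B)‖ + ‖A - B‖ := norm_add_le _ _
      _ ≤ _ := by gcongr; exact norm_sub_le _ _
  have e8 : (b : ℝ) / (4 * Real.log x ^ K) = (b / Real.log x ^ K) / 4 := by
    rw [mul_comm, div_mul_eq_div_div]
  have e9 : (b : ℝ) / (2 * Real.log x ^ K) = (b / Real.log x ^ K) / 2 := by
    rw [mul_comm, div_mul_eq_div_div]
  rw [e8] at e5 e6
  rw [e9] at e4
  linarith

end Pool.Agent.H76.MU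

end

section

/-!
# LV Tau4: the fourth moment of the divisor function and its square over sparse sets

(1) `∑_{k ≤ y} τ(k)^4 / k ≤ (1 + log y)^16`: proved in `Pool/Agent/H70/EHC/Tau.lean` as the private theorems `tau_S_succ`,
`tau_S_pow` (copy them: `τ(mn) ≤ τ(m) τ(n)` and `∑_{m ≤ n} τ(m)^{k+1}/m ≤ (∑_{m ≤ n} τ(m)^k/m)^2`).  So
`∑_{k ≤ y} τ(k)^4 ≤ y ∑ τ(k)^4/k ≤ y (1 + log y)^16`.
(2) Cauchy-Schwarz over `S ⊆ [1,y]`: `(∑_S τ^2)^2 ≤ |S| ∑_S τ^4`.
-/

set_option autoImplicit false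

namespace Pool.Agent.H80.LV

open Finset

open scoped Pointwise in
private theorem tau_mul_le (d e : ℕ) :
    (d * e).divisors.card ≤ d.divisors.card * e.divisors.card := by
  rw [Nat.divisors_mul]
  exact card_mul_le

private noncomputable def tau_S (k n : ℕ) : ℝ := ∑ m ∈ Icc 1 n, (m.divisors.card : ℝ) ^ k / m

private theorem tau_S_nonneg (k n : ℕ) : 0 ≤ tau_S k n :=
  sum_nonneg fun _ _ => by positivity

private theorem tau_S_succ (k n : ℕ) : tau_S (k + 1) n ≤ tau_S k n ^ 2 := by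
  obtain ⟨f, hf⟩ : ∃ f : ℕ × ℕ → ℝ, f = fun p => ((p.1.divisors.card : ℝ) ^ k / p.1) *
      ((p.2.divisors.card : ℝ) ^ k / p.2) := ⟨_, rfl⟩
  have hf0 : ∀ p, 0 ≤ f p := fun p => by rw [hf]; positivity
  have h1 : tau_S k n ^ 2 = ∑ p ∈ Icc 1 n ×ˢ Icc 1 n, f p := by
    unfold tau_S
    rw [sq, sum_mul_sum, sum_product, hf]
  have h2 : ∀ m ∈ Icc 1 n, (m.divisors.card : ℝ) ^ (k + 1) / m ≤
      ∑ p ∈ ((Icc 1 n ×ˢ Icc 1 n).filter (fun p => p.1 * p.2 ∈ Icc 1 n)).filter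
        (fun p => p.1 * p.2 = m), f p := by
    intro m hm
    have hm' := mem_Icc.1 hm
    have e1 : ((Icc 1 n ×ˢ Icc 1 n).filter (fun p => p.1 * p.2 ∈ Icc 1 n)).filter
        (fun p => p.1 * p.2 = m) = m.divisorsAntidiagonal := by
      ext p
      rw [mem_filter, mem_filter, mem_product, mem_Icc, mem_Icc, Nat.mem_divisorsAntidiagonal]
      constructor
      · rintro ⟨_, h⟩
        exact ⟨h, by omega⟩
      · rintro ⟨h, _⟩
        have hp1 : 1 ≤ p.1 := Nat.one_le_iff_ne_zero.2 (by rintro h0; rw [h0, zero_mul] at h; omega)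
        have hp2 : 1 ≤ p.2 := Nat.one_le_iff_ne_zero.2 (by rintro h0; rw [h0, mul_zero] at h; omega)
        have h3 : p.1 ≤ m := h ▸ Nat.le_mul_of_pos_right _ hp2
        have h4 : p.2 ≤ m := h ▸ Nat.le_mul_of_pos_left _ hp1
        exact ⟨⟨⟨⟨hp1, by omega⟩, ⟨hp2, by omega⟩⟩, h ▸ hm⟩, h⟩
    rw [e1]
    have e2 : (m.divisors.card : ℝ) = ∑ _p ∈ m.divisorsAntidiagonal, (1:ℝ) := by
      rw [Nat.sum_divisorsAntidiagonal (fun _ _ => (1:ℝ))]
      simp
    have e3 : (m.divisors.card : ℝ) ^ (k + 1) / m =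
        ∑ _p ∈ m.divisorsAntidiagonal, (m.divisors.card : ℝ) ^ k / m := by
      rw [← mul_one ((m.divisors.card : ℝ) ^ k / m), ← mul_sum, ← e2, pow_succ]
      ring
    rw [e3]
    refine sum_le_sum fun p hp => ?_
    rw [Nat.mem_divisorsAntidiagonal] at hp
    rw [hf]
    have h5 := tau_mul_le p.1 p.2
    rw [hp.1] at h5
    have h6 : (m.divisors.card : ℝ) ≤ (p.1.divisors.card : ℝ) * (p.2.divisors.card : ℝ) := by
      exact_mod_cast h5
    have h7 : (m : ℝ) = (p.1 : ℝ) * p.2 := by rw [← hp.1]; push_cast; rfl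
    show (m.divisors.card : ℝ) ^ k / m ≤ ((p.1.divisors.card : ℝ) ^ k / p.1) *
      ((p.2.divisors.card : ℝ) ^ k / p.2)
    rw [div_mul_div_comm, ← mul_pow, ← h7]
    exact div_le_div_of_nonneg_right (pow_le_pow_left₀ (by positivity) h6 k) (by positivity)
  rw [h1]
  unfold tau_S
  calc ∑ m ∈ Icc 1 n, (m.divisors.card : ℝ) ^ (k + 1) / m
      ≤ ∑ m ∈ Icc 1 n, ∑ p ∈ ((Icc 1 n ×ˢ Icc 1 n).filter (fun p => p.1 * p.2 ∈ Icc 1 n)).filter
        (fun p => p.1 * p.2 = m), f p := sum_le_sum h2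
    _ = ∑ p ∈ (Icc 1 n ×ˢ Icc 1 n).filter (fun p => p.1 * p.2 ∈ Icc 1 n), f p :=
        sum_fiberwise_of_maps_to (fun p hp => (mem_filter.1 hp).2) f
    _ ≤ ∑ p ∈ Icc 1 n ×ˢ Icc 1 n, f p :=
        sum_le_sum_of_subset_of_nonneg (filter_subset _ _) (fun p _ _ => hf0 p)

private theorem tau_S_zero (n : ℕ) : tau_S 0 n ≤ 1 + Real.log n := by
  have h := harmonic_le_one_add_log n
  refine le_trans (le_of_eq ?_) h
  unfold tau_S
  rw [harmonic_eq_sum_Icc]
  push_cast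
  refine sum_congr rfl fun m _ => ?_
  rw [pow_zero, one_div]

private theorem tau_S_pow (n k : ℕ) : tau_S k n ≤ (1 + Real.log n) ^ (2 ^ k) := by
  induction k with
  | zero => simpa using tau_S_zero n
  | succ k ih =>
    refine (tau_S_succ k n).trans ?_
    rw [pow_succ 2 k, pow_mul]
    exact pow_le_pow_left₀ (tau_S_nonneg k n) ih 2

theorem tau4 (y : ℕ) : ∑ k ∈ Icc 1 y, (k.divisors.card : ℝ) ^ 4 ≤ y * (1 + Real.log y) ^ 16 := by
  have h := tau_S_pow y 4
  have h1 : ∑ k ∈ Icc 1 y, (k.divisors.card : ℝ) ^ 4 ≤ y * tau_S 4 y := by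
    unfold tau_S
    rw [mul_sum]
    refine sum_le_sum fun m hm => ?_
    have hm' := mem_Icc.1 hm
    have hm0 : (0:ℝ) < m := by exact_mod_cast hm'.1
    have hmy : (m:ℝ) ≤ y := by exact_mod_cast hm'.2
    rw [← mul_div_assoc, le_div_iff₀ hm0, mul_comm]
    exact mul_le_mul_of_nonneg_right hmy (by positivity)
  refine h1.trans (mul_le_mul_of_nonneg_left (h.trans (le_of_eq ?_)) (by positivity))
  norm_num

theorem tau2_sparse (y : ℕ) (S : Finset ℕ) (hS : S ⊆ Icc 1 y) :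
    (∑ k ∈ S, (k.divisors.card : ℝ) ^ 2) ^ 2 ≤ S.card * (y * (1 + Real.log y) ^ 16) := by
  have h1 : (∑ k ∈ S, (k.divisors.card : ℝ) ^ 2) ^ 2 ≤
      S.card * ∑ k ∈ S, ((k.divisors.card : ℝ) ^ 2) ^ 2 := sq_sum_le_card_mul_sum_sq
  refine h1.trans (mul_le_mul_of_nonneg_left ?_ (by positivity))
  refine le_trans ?_ (tau4 y)
  calc ∑ k ∈ S, ((k.divisors.card : ℝ) ^ 2) ^ 2 ≤ ∑ k ∈ Icc 1 y, ((k.divisors.card : ℝ) ^ 2) ^ 2 :=
        sum_le_sum_of_subset_of_nonneg hS (fun k _ _ => by positivity)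
    _ = ∑ k ∈ Icc 1 y, (k.divisors.card : ℝ) ^ 4 := sum_congr rfl fun k _ => by ring

end Pool.Agent.H80.LV

end

section

/-!
# LV BoxDec: decomposition of a bilinear sum over `m n ≤ y` into boxes

Define `v 0 = U`, `v (j+1) = v j + v j / q` (natural division).  As `v j ≥ U ≥ 2 q`: `v j / q ≥ 2`, `v` is strictly increasing,
`q * v (j+1) ≤ (q+1) * v j`, and `v (j+1) ≥ v j + v j/q - 1 ≥ v j (1 + 1/(2q))` (real division; `v j ≥ 2q`).  Let `J` be the
least `j` with `y ≤ v j`; then `v (J-1) < y` if `J ≥ 1`, `(1 + 1/(2q))^{J-1} ≤ y` (as `U ≥ 1`), and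
`log(1 + 1/(2q)) ≥ 1/(4q)`, so `J ≤ 4 q log y + 1`.
`Ioc U y ⊆` the disjoint union of the `Ioc (v j) (v (j+1))`, `j < J`; the `m` with `m > y` give nothing
(`Ioc U (y/m) = ∅`, `y / m = 0`).  For `m ∈ Ioc (v j) (v (j+1))`: `y / v (j+1) ≤ y / m`, so
`Ioc U (y/m) = Ioc U (y / v (j+1)) ∪ Ioc (max U (y / v (j+1))) (y/m)`.  The second parts are collected according to `k = m n`:
`e k = ∑ lam m * cc (k/m)` over the `m ∣ k` with `m ∈ Ioc (v j) (v (j+1))` for some `j < J`, `U < k/m`, `y / v (j+1) < k/m`, (and `k ≤ y`).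
If `n > y / v (j+1)` then `n * v (j+1) > y`, so `k q = m n q ≥ n q (v j + 1) ... `: precisely
`k (q+1) = m n (q+1) > n v j (q+1) ≥ n q v (j+1) > ... ≥ q y`, i.e. `k (q+1) > q y`, so `k > y - y/(q+1)` and
`k ∉ Ioc (y - y/q - 1) y` is impossible for such `k`.
-/

set_option autoImplicit false

namespace Pool.Agent.H80.LV

open Finset

/-- the box ends -/
private def bdv (U q : ℕ) : ℕ → ℕ
  | 0 => U
  | (j + 1) => bdv U q j + bdv U q j / q

private lemma bdv_zero (U q : ℕ) : bdv U q 0 = U := rfl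

private lemma bdv_succ (U q j : ℕ) : bdv U q (j + 1) = bdv U q j + bdv U q j / q := rfl

private lemma bdv_ge (U q j : ℕ) : U ≤ bdv U q j := by
  induction j with
  | zero => exact le_refl _
  | succ j ih =>
    rw [bdv_succ]
    exact le_trans ih (Nat.le_add_right _ _)

private lemma bdv_lt (U q j : ℕ) (hq : 1 ≤ q) (hU : 2 * q ≤ U) : bdv U q j < bdv U q (j + 1) := by
  have h1 := bdv_ge U q j
  have h2 : 1 ≤ bdv U q j / q := by
    rw [Nat.one_le_div_iff (by omega)]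
    omega
  rw [bdv_succ]
  omega

private lemma bdv_mono (U q : ℕ) (hq : 1 ≤ q) (hU : 2 * q ≤ U) : StrictMono (bdv U q) :=
  strictMono_nat_of_lt_succ (fun j => bdv_lt U q j hq hU)

private lemma bdv_q (U q j : ℕ) : q * bdv U q (j + 1) ≤ (q + 1) * bdv U q j := by
  rw [bdv_succ]
  have h := Nat.mul_div_le (bdv U q j) q
  nlinarith

private lemma bdv_grow (U q j : ℕ) (hq : 1 ≤ q) (hU : 2 * q ≤ U) :
    (1 + 1 / (2 * (q : ℝ))) ^ j ≤ (bdv U q j : ℝ) := by
  induction j with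
  | zero =>
    rw [bdv_zero, pow_zero]
    have : 1 ≤ U := by omega
    exact_mod_cast this
  | succ j ih =>
    have hqp : (0 : ℝ) < q := by exact_mod_cast hq
    have h1 := bdv_ge U q j
    have h2 : 2 * (q : ℝ) ≤ (bdv U q j : ℝ) := by exact_mod_cast le_trans hU h1
    have h3 : bdv U q j < q * (bdv U q j / q) + q := by
      have h4 := Nat.div_add_mod (bdv U q j) q
      have h5 := Nat.mod_lt (bdv U q j) (show 0 < q by omega)
      omega
    have h6 : (bdv U q j : ℝ) < q * ((bdv U q j / q : ℕ) : ℝ) + q := by exact_mod_cast h3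
    rw [pow_succ, bdv_succ]
    push_cast
    have h7 : (bdv U q j : ℝ) * (1 / (2 * (q : ℝ))) ≤ ((bdv U q j / q : ℕ) : ℝ) := by
      rw [mul_one_div, div_le_iff₀ (by positivity)]
      nlinarith
    have h8 : (1 + 1 / (2 * (q : ℝ))) ^ j * (1 + 1 / (2 * (q : ℝ)))
        ≤ (bdv U q j : ℝ) * (1 + 1 / (2 * (q : ℝ))) :=
      mul_le_mul_of_nonneg_right ih (by positivity)
    nlinarith

private lemma bdv_J (y U q J : ℕ) (hq : 1 ≤ q) (hU : 2 * q ≤ U) (hUy : U ≤ y)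
    (hJ : ∀ j, j < J → bdv U q j < y) : (J : ℝ) ≤ 4 * q * Real.log y + 1 := by
  have hqp : (1 : ℝ) ≤ q := by exact_mod_cast hq
  have hy : 1 ≤ y := by omega
  have hyp : (1 : ℝ) ≤ y := by exact_mod_cast hy
  have hlog : 0 ≤ Real.log y := Real.log_nonneg hyp
  rcases Nat.eq_zero_or_pos J with h0 | h0
  · subst h0
    push_cast
    positivity
  · have h1 := hJ (J - 1) (by omega)
    have h2 := bdv_grow U q (J - 1) hq hU
    have h3 : (1 + 1 / (2 * (q : ℝ))) ^ (J - 1) ≤ (y : ℝ) :=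
      le_trans h2 (by exact_mod_cast h1.le)
    have h4 : ((J - 1 : ℕ) : ℝ) * Real.log (1 + 1 / (2 * (q : ℝ))) ≤ Real.log y := by
      rw [← Real.log_pow]
      exact Real.log_le_log (by positivity) h3
    have h5 : 1 / (4 * (q : ℝ)) ≤ Real.log (1 + 1 / (2 * (q : ℝ))) := by
      have h6 := Real.one_sub_inv_le_log_of_pos (show (0 : ℝ) < 1 + 1 / (2 * (q : ℝ)) by positivity)
      refine le_trans ?_ h6
      have h7 : 1 - (1 + 1 / (2 * (q : ℝ)))⁻¹ = 1 / (2 * q + 1) := by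
        field_simp
        ring
      rw [h7]
      apply one_div_le_one_div_of_le (by positivity)
      linarith
    have h8 : ((J - 1 : ℕ) : ℝ) = (J : ℝ) - 1 := by
      rw [Nat.cast_sub (by omega)]
      push_cast
      ring
    have h9 : ((J - 1 : ℕ) : ℝ) * (1 / (4 * (q : ℝ))) ≤ Real.log y :=
      le_trans (mul_le_mul_of_nonneg_left h5 (by positivity)) h4
    rw [mul_one_div, div_le_iff₀ (by positivity), h8] at h9
    linarith

private lemma bd_sum {R : Type*} [AddCommMonoid R] (v : ℕ → ℕ) (hv : Monotone v) (J : ℕ) (F : ℕ → R) :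
    ∑ j ∈ range J, ∑ m ∈ Ioc (v j) (v (j + 1)), F m = ∑ m ∈ Ioc (v 0) (v J), F m := by
  induction J with
  | zero => simp
  | succ J ih =>
    rw [sum_range_succ, ih]
    exact Finset.sum_Ioc_consecutive F (hv (Nat.zero_le J)) (hv (Nat.le_succ J))

private lemma bd_one (S : Finset ℕ) (m k : ℕ) (hm : 1 ≤ m) (hS : ∀ n ∈ S, 1 ≤ n) (a : ℝ) (c : ℕ → ℝ) :
    |∑ n ∈ S, (if m * n = k then a * c n else 0)| ≤ if m ∈ k.divisors then |a| * |c (k / m)| else 0 := by
  by_cases hex : ∃ n ∈ S, m * n = k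
  · obtain ⟨n, hn, hk⟩ := hex
    have h1 : ∑ n' ∈ S, (if m * n' = k then a * c n' else 0) = a * c n := by
      rw [Finset.sum_eq_single_of_mem n hn]
      · rw [if_pos hk]
      · intro b _ hbn
        rw [if_neg]
        intro h
        apply hbn
        exact Nat.eq_of_mul_eq_mul_left (by omega) (h.trans hk.symm)
    have hn1 := hS n hn
    have hmk : m ∈ k.divisors := by
      rw [Nat.mem_divisors]
      refine ⟨⟨n, hk.symm⟩, ?_⟩
      rw [← hk]
      exact Nat.mul_ne_zero (by omega) (by omega)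
    have hkm : k / m = n := by
      rw [← hk]
      exact Nat.mul_div_cancel_left n (by omega)
    rw [h1, if_pos hmk, hkm, abs_mul]
  · have h1 : ∑ n' ∈ S, (if m * n' = k then a * c n' else 0) = 0 := by
      apply Finset.sum_eq_zero
      intro n hn
      rw [if_neg]
      intro h
      exact hex ⟨n, hn, h⟩
    rw [h1, abs_zero]
    split_ifs
    · positivity
    · exact le_refl _

theorem box_dec (y U q : ℕ) (hq : 1 ≤ q) (hU : 2 * q ≤ U) (hUy : U ≤ y) (lam cc : ℕ → ℝ) :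
    ∃ (J : ℕ) (v : ℕ → ℕ) (e : ℕ → ℝ), (J : ℝ) ≤ 4 * q * Real.log y + 1 ∧
      (∀ j, U ≤ v j) ∧ (∀ j, v j < v (j + 1)) ∧ (∀ j, j < J → v (j + 1) ≤ 2 * y) ∧
      (∀ k, |e k| ≤ ∑ m ∈ k.divisors, |lam m| * |cc (k / m)|) ∧
      (∀ k, k ∉ Ioc (y - y / q - 1) y → e k = 0) ∧
      ∀ g : ℕ → ℂ, ∑ m ∈ Ioc U y, ((lam m : ℝ) : ℂ) *
          ∑ n ∈ Ioc U (y / m), ((cc n : ℝ) : ℂ) * g (m * n)
        = ∑ j ∈ range J, ∑ m ∈ Ioc (v j) (v (j + 1)), ((lam m : ℝ) : ℂ) *
            ∑ n ∈ Ioc U (y / v (j + 1)), ((cc n : ℝ) : ℂ) * g (m * n)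
          + ∑ k ∈ Icc 1 y, ((e k : ℝ) : ℂ) * g k := by
  classical
  have hsm := bdv_mono U q hq hU
  have hex : ∃ j, y ≤ bdv U q j := ⟨y, hsm.le_apply⟩
  set J := Nat.find hex with hJdef
  have hJ1 : y ≤ bdv U q J := Nat.find_spec hex
  have hJ2 : ∀ j, j < J → bdv U q j < y := by
    intro j hj
    have := Nat.find_min hex hj
    omega
  set v := bdv U q with hvdef
  have hU1 : 1 ≤ U := by omega
  have hvpos : ∀ j, 1 ≤ v j := fun j => le_trans hU1 (bdv_ge U q j)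
  refine ⟨J, v, fun k => ∑ j ∈ range J, ∑ m ∈ Ioc (v j) (v (j + 1)),
    ∑ n ∈ Ioc (max U (y / v (j + 1))) (y / m), (if m * n = k then lam m * cc n else 0),
    bdv_J y U q J hq hU hUy hJ2, bdv_ge U q, fun j => bdv_lt U q j hq hU, ?_, ?_, ?_, ?_⟩
  · intro j hj
    have h1 := hJ2 j hj
    have h2 : v (j + 1) = v j + v j / q := bdv_succ U q j
    have h3 : v j / q ≤ v j := Nat.div_le_self _ _
    rw [h2]
    omega
  · intro k
    have hterm : ∀ j m, m ∈ Ioc (v j) (v (j + 1)) →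
        |∑ n ∈ Ioc (max U (y / v (j + 1))) (y / m), (if m * n = k then lam m * cc n else 0)|
          ≤ if m ∈ k.divisors then |lam m| * |cc (k / m)| else 0 := by
      intro j m hm
      rw [mem_Ioc] at hm
      apply bd_one _ _ _ (by omega)
      intro n hn
      rw [mem_Ioc] at hn
      omega
    calc |∑ j ∈ range J, ∑ m ∈ Ioc (v j) (v (j + 1)),
            ∑ n ∈ Ioc (max U (y / v (j + 1))) (y / m), (if m * n = k then lam m * cc n else 0)|
        ≤ ∑ j ∈ range J, ∑ m ∈ Ioc (v j) (v (j + 1)),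
            (if m ∈ k.divisors then |lam m| * |cc (k / m)| else 0) := by
          refine le_trans (Finset.abs_sum_le_sum_abs _ _) (Finset.sum_le_sum fun j _ => ?_)
          exact le_trans (Finset.abs_sum_le_sum_abs _ _)
            (Finset.sum_le_sum fun m hm => hterm j m hm)
      _ = ∑ m ∈ Ioc (v 0) (v J), (if m ∈ k.divisors then |lam m| * |cc (k / m)| else 0) :=
          bd_sum v hsm.monotone J _
      _ = ∑ m ∈ (Ioc (v 0) (v J)).filter (fun m => m ∈ k.divisors), |lam m| * |cc (k / m)| := by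
          rw [Finset.sum_filter]
      _ ≤ ∑ m ∈ k.divisors, |lam m| * |cc (k / m)| := by
          apply Finset.sum_le_sum_of_subset_of_nonneg
          · intro m hm
            exact (Finset.mem_filter.1 hm).2
          · intro m _ _
            positivity
  · intro k hk
    apply Finset.sum_eq_zero
    intro j _
    apply Finset.sum_eq_zero
    intro m hm
    apply Finset.sum_eq_zero
    intro n hn
    rw [if_neg]
    intro hmn
    apply hk
    rw [mem_Ioc] at hm hn ⊢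
    have hvj := hvpos (j + 1)
    have hvj0 := hvpos j
    have hm1 : 1 ≤ m := by omega
    have hn1 : 1 ≤ n := by omega
    have hky : k ≤ y := by
      rw [← hmn, mul_comm]
      exact (Nat.le_div_iff_mul_le (by omega)).1 hn.2
    refine ⟨?_, hky⟩
    by_contra hcon
    have hk1 : 1 ≤ k := by
      rw [← hmn]
      exact Nat.mul_pos (by omega) (by omega)
    have h1 : k + y / q + 1 ≤ y := by omega
    have h2 : y < q * (y / q) + q := by
      have h4 := Nat.div_add_mod y q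
      have h5 := Nat.mod_lt y (show 0 < q by omega)
      omega
    have h3 : q * k + y < q * y := by
      have h4 : q * (k + y / q + 1) ≤ q * y := Nat.mul_le_mul_left q h1
      have h5 : q * (k + y / q + 1) = q * k + q * (y / q) + q := by ring
      omega
    have h6 : y < n * v (j + 1) := by
      have h7 : y / v (j + 1) < n := lt_of_le_of_lt (le_max_right _ _) hn.1
      exact (Nat.div_lt_iff_lt_mul (by omega)).1 h7
    have h8 : q * v (j + 1) ≤ (q + 1) * v j := bdv_q U q j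
    have h9 : q * y ≤ q * (n * v (j + 1)) := Nat.mul_le_mul_left q h6.le
    have h10 : n * (q * v (j + 1)) ≤ n * ((q + 1) * v j) := Nat.mul_le_mul_left n h8
    have h11 : n * (q + 1) * v j ≤ n * (q + 1) * m := Nat.mul_le_mul_left _ hm.1.le
    have h12 : n * (q + 1) * m = q * k + k := by
      rw [← hmn]
      ring
    have h13 : q * (n * v (j + 1)) = n * (q * v (j + 1)) := by ring
    have h14 : n * ((q + 1) * v j) = n * (q + 1) * v j := by ring
    omega
  · intro g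
    have hext : ∑ m ∈ Ioc U y, ((lam m : ℝ) : ℂ) *
          ∑ n ∈ Ioc U (y / m), ((cc n : ℝ) : ℂ) * g (m * n)
        = ∑ m ∈ Ioc (v 0) (v J), ((lam m : ℝ) : ℂ) *
          ∑ n ∈ Ioc U (y / m), ((cc n : ℝ) : ℂ) * g (m * n) := by
      apply Finset.sum_subset
      · intro m hm
        rw [mem_Ioc] at hm ⊢
        have h0 : v 0 = U := rfl
        rw [h0]
        omega
      · intro m hm hm2
        rw [mem_Ioc] at hm hm2
        have h0 : v 0 = U := rfl
        rw [h0] at hm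
        have hmy : y < m := by
          by_contra hc
          exact hm2 ⟨hm.1, by omega⟩
        rw [Nat.div_eq_of_lt hmy]
        rw [Finset.Ioc_eq_empty (by omega)]
        simp
    rw [hext, ← bd_sum v hsm.monotone J]
    have hsplit : ∀ j m, m ∈ Ioc (v j) (v (j + 1)) →
        ((lam m : ℝ) : ℂ) * ∑ n ∈ Ioc U (y / m), ((cc n : ℝ) : ℂ) * g (m * n)
          = ((lam m : ℝ) : ℂ) * ∑ n ∈ Ioc U (y / v (j + 1)), ((cc n : ℝ) : ℂ) * g (m * n)
            + ∑ n ∈ Ioc (max U (y / v (j + 1))) (y / m),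
                ((lam m : ℝ) : ℂ) * (((cc n : ℝ) : ℂ) * g (m * n)) := by
      intro j m hm
      rw [mem_Ioc] at hm
      have hvj0 := hvpos j
      have hle : y / v (j + 1) ≤ y / m := Nat.div_le_div_left hm.2 (by omega)
      rw [← Finset.mul_sum, ← mul_add]
      congr 1
      by_cases hc : U ≤ y / v (j + 1)
      · rw [max_eq_right hc]
        exact (Finset.sum_Ioc_consecutive _ hc hle).symm
      · rw [max_eq_left (by omega)]
        rw [Finset.Ioc_eq_empty (show ¬ U < y / v (j + 1) by omega)]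
        simp
    rw [Finset.sum_congr rfl fun j _ => Finset.sum_congr rfl fun m hm => hsplit j m hm]
    simp only [Finset.sum_add_distrib]
    congr 1
    have hk : ∀ k, (((∑ j ∈ range J, ∑ m ∈ Ioc (v j) (v (j + 1)),
        ∑ n ∈ Ioc (max U (y / v (j + 1))) (y / m), (if m * n = k then lam m * cc n else 0) : ℝ)) : ℂ) * g k
        = ∑ j ∈ range J, ∑ m ∈ Ioc (v j) (v (j + 1)),
          ∑ n ∈ Ioc (max U (y / v (j + 1))) (y / m),
            (if m * n = k then ((lam m : ℝ) : ℂ) * (((cc n : ℝ) : ℂ) * g (m * n)) else 0) := by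
      intro k
      push_cast
      rw [Finset.sum_mul]
      refine Finset.sum_congr rfl fun j _ => ?_
      rw [Finset.sum_mul]
      refine Finset.sum_congr rfl fun m _ => ?_
      rw [Finset.sum_mul]
      refine Finset.sum_congr rfl fun n _ => ?_
      split_ifs with h
      · rw [← h]
        push_cast
        ring
      · rw [Complex.ofReal_zero, zero_mul]
    rw [Finset.sum_congr rfl fun k _ => hk k]
    rw [Finset.sum_comm]
    refine Finset.sum_congr rfl fun j _ => ?_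
    rw [Finset.sum_comm]
    refine Finset.sum_congr rfl fun m hm => ?_
    rw [Finset.sum_comm]
    refine Finset.sum_congr rfl fun n hn => ?_
    rw [mem_Ioc] at hm hn
    have hvj0 := hvpos j
    have hmem : m * n ∈ Icc 1 y := by
      rw [mem_Icc]
      constructor
      · exact Nat.mul_pos (by omega) (by omega)
      · rw [mul_comm]
        exact (Nat.le_div_iff_mul_le (by omega)).1 hn.2
    rw [Finset.sum_ite_eq, if_pos hmem]

end Pool.Agent.H80.LV

end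

section

/-!
# EHB Mell: Mellin transform on the line 1/2

`Mel g t = ∫_0^∞ g(θ) θ^{-1/2 - i t} dθ` (Mathlib's `mellin g (1/2 - t i)`).
`mel_planch`: with `G(u) = exp(-u/2) g(exp(-u))`, Mathlib's `mellin_eq_fourier` gives
`mellin g (1/2 - i t) = Ĝ(-t/(2π))`.  `g` bounded by `B`, zero outside `(0, Θ]`: `G` is integrable and square integrable,
`∫ |G|^2 du = ∫_0^∞ |g|^2 dθ` (substitution `θ = exp(-u)`), so `planch` and the substitution `ξ = -t/(2π)` give the claim.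
`mel_sum`: `mellin_comp_mul_left`.  `int_sum_sq`: combine (the function `∑ g(k ·)` is again bounded with bounded support).
-/

set_option autoImplicit false

namespace Pool.Agent.H76.EHB

open Finset MeasureTheory
open Pool.Agent.H91.PK (ee)

/-- Mellin transform at `1/2 - i t` -/
noncomputable def Mel (g : ℝ → ℂ) (t : ℝ) : ℂ := mellin g (1 / 2 - t * Complex.I)

/-- `∑_{k ∈ S} k^{-1/2 + i t}` -/
noncomputable def ZZ (S : Finset ℕ) (t : ℝ) : ℂ := ∑ k ∈ S, (k : ℂ) ^ (-(1 / 2 : ℂ) + t * Complex.I)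

end Pool.Agent.H76.EHB

end

section

/-!
# EHB JB: the bound for `II`

`int_sum_sq`; `‖ZZ S t‖ ≤ ∑_{k ≤ K} k^{-1/2} ≤ 2 √K` for `S ⊆ Icc 1 K`.  Split the `t`-integral of `‖ZZ‖²‖Mel‖²` into `|t| ≤ T0`
(`≤ 4K * 2 T0 * MB²`), `T0 < |t| ≤ T1` (`≤ ZB * ∫‖Mel‖² ≤ ZB * 2π S2`, `mel_planch`, `gg_L2`), `|t| > T1`
(`≤ 4K * 2 * (7 (N+|a|+1) F1)²/T1`, `mel_tail`, `∫_{T1}^∞ dt/t² = 1/T1`).  Divide by `2π`.
-/

set_option autoImplicit false

namespace Pool.Agent.H76.EHB

open Finset MeasureTheory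
open Pool.Agent.H91.PK (ee)

theorem jb_sum (K : ℕ) : ∑ k ∈ Icc 1 K, 1 / Real.sqrt (k : ℝ) ≤ 2 * Real.sqrt K := by
  induction K with
  | zero => simp
  | succ n ih =>
    rw [Finset.sum_Icc_succ_top (by omega)]
    have h0 : (0 : ℝ) ≤ n := Nat.cast_nonneg n
    have h1 : (0 : ℝ) < ((n + 1 : ℕ) : ℝ) := by positivity
    have hb : 0 < Real.sqrt ((n + 1 : ℕ) : ℝ) := Real.sqrt_pos.2 h1
    have ha : 0 ≤ Real.sqrt (n : ℝ) := Real.sqrt_nonneg _
    have hb2 : Real.sqrt ((n + 1 : ℕ) : ℝ) ^ 2 = (n : ℝ) + 1 := by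
      rw [Real.sq_sqrt h1.le]; push_cast; ring
    have ha2 : Real.sqrt (n : ℝ) ^ 2 = (n : ℝ) := Real.sq_sqrt h0
    have key : 1 / Real.sqrt ((n + 1 : ℕ) : ℝ)
        ≤ 2 * Real.sqrt ((n + 1 : ℕ) : ℝ) - 2 * Real.sqrt (n : ℝ) := by
      rw [div_le_iff₀ hb]
      nlinarith [sq_nonneg (Real.sqrt ((n + 1 : ℕ) : ℝ) - Real.sqrt (n : ℝ))]
    linarith

theorem jb_norm_term (k : ℕ) (hk : 1 ≤ k) (t : ℝ) :
    ‖(k : ℂ) ^ (-(1 / 2 : ℂ) + t * Complex.I)‖ = 1 / Real.sqrt (k : ℝ) := by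
  rw [Complex.norm_natCast_cpow_of_pos (by omega)]
  have h : (-(1 / 2 : ℂ) + t * Complex.I).re = -(1 / 2 : ℝ) := by
    simp
  rw [h, Real.rpow_neg (Nat.cast_nonneg k), ← Real.sqrt_eq_rpow, one_div]

theorem norm_ZZ_sq_le (K : ℕ) (S : Finset ℕ) (hS : S ⊆ Icc 1 K) (t : ℝ) : ‖ZZ S t‖ ^ 2 ≤ 4 * K := by
  have h1 : ‖ZZ S t‖ ≤ 2 * Real.sqrt K := by
    unfold ZZ
    refine (norm_sum_le _ _).trans ?_
    have h2 : ∑ k ∈ S, ‖(k : ℂ) ^ (-(1 / 2 : ℂ) + t * Complex.I)‖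
        = ∑ k ∈ S, 1 / Real.sqrt (k : ℝ) :=
      Finset.sum_congr rfl fun k hk => jb_norm_term k (Finset.mem_Icc.1 (hS hk)).1 t
    rw [h2]
    refine (Finset.sum_le_sum_of_subset_of_nonneg hS ?_).trans (jb_sum K)
    intro i _ _
    positivity
  have h3 : (2 * Real.sqrt K) ^ 2 = 4 * (K : ℝ) := by
    rw [mul_pow, Real.sq_sqrt (Nat.cast_nonneg K)]; norm_num
  rw [← h3]
  exact pow_le_pow_left₀ (norm_nonneg _) h1 2

end Pool.Agent.H76.EHB

end

section

/-!
# EHB SmallA: pairs with small difference; tails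

Fix a real `α` and `d ≥ 1`.
`near_pairs`: pairs `k1, k2 ∈ ks K`, `0 < |k2 - k1| < r0`, `d ∣ k2 - k1`, any measurable `S`:
 each `‖IpS‖ ≤ (Wk + Wk)/2 ≤ 2 A (1/|k1| + 1/|k2|) S2` (`IpS_le`, `Wk_le`; `|k| ≤ K ≤ A ≤ A |r|`), for given `k` there are at most
 `2 r0/d` integers `k'` with `d ∣ k' - k`, `0 < |k' - k| < r0`; so the sum is `≤ 4 A S2 (2 r0/d) ∑_k 1/|k| ≤ 16 A (1 + log K) (r0/d) S2`.
`equal_pairs`: pairs `k1 = k2 = k`, `S = Icc (-Y) Y`, `K Y ≤ 1/2`: `IpS` is `∫_{|y| ≤ Y} A |FF(α + k y)|^2 dy = (A/|k|) ∫_{|θ| ≤ |k| Y} |FF(α+θ)|^2`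
 `≤ (A/|k|) S2` (an interval of length ≤ 1, `FF_parseval`).
-/

set_option autoImplicit false

namespace Pool.Agent.H76.EHB

open Finset MeasureTheory

theorem SmallA_window (f : ℕ → ℝ) (N : ℕ) (u v : ℝ) (huv : u ≤ v) (hv : v ≤ u + 1) :
    ∫ t in u..v, ‖FF f N t‖ ^ 2 ≤ S2 f N := by
  rw [← FF_parseval f N u]
  apply intervalIntegral.integral_mono_interval le_rfl huv hv
  · exact Filter.Eventually.of_forall fun t => by positivity
  · exact (((FF_continuous f N).norm).pow 2).intervalIntegrable _ _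

end Pool.Agent.H76.EHB

end

section

/-!
# W JredE: from `JJT` to the damped integrals `II S (ge ..)`

Proof.  Compare `EHB.JJ_le` (`H76/EHB/Jred.lean`).  Split `[-Y, Y]` at 0.  For `0 < y ≤ Y`, `s = ±1`, `k ∈ S` (`k ≥ 1`):
`F(α + s k y) ee(-a s k y) = ge f N α a Θ s (k y) + F(α + s k y) ee(-a s k y) (1 - exp(-k y/Θ))`.  So
`‖∑_k F(α + s k y) ee(..)‖^2 ≤ 2 ‖∑_k ge(k y)‖^2 + 2 ‖E(y)‖^2`, `‖E(y)‖^2 ≤ |S| ∑_k (K Y/Θ)^2 |F(α + s k y)|^2`
(`0 ≤ 1 - e^{-u} ≤ u`), and `∫_0^Y |F(α + s k y)|^2 dy = (1/k) ∫_0^{kY} |F(α + s θ)|^2 dθ ≤ S2/k` as `k Y ≤ 1`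
(`SmallA_window`, `FF_parseval`).  Two halves: error `≤ 2 · 2 |S| (K Y/Θ)^2 (∑ 1/k) S2`.  The integral of `‖∑ ge‖^2` over
`(0, Y]` is at most that over `(0, ∞)` (integrability: `ge` is bounded by `(∑|f|) exp(-θ/Θ)` and measurable, `k ≥ 1`; if
`S` is empty everything is 0).
-/

set_option autoImplicit false

namespace Pool.Agent.H35.W

open Finset MeasureTheory
open Pool.Agent.H91.PK (ee)
open Pool.Agent.H76.EHB

private theorem JredE_norm_ee (t : ℝ) : ‖ee t‖ = 1 := Pool.Agent.H91.PK.LSa_norm_ee t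

theorem ge_measurable (f : ℕ → ℝ) (N : ℕ) (α a Θ s : ℝ) : Measurable (ge f N α a Θ s) := by
  unfold ge
  refine Measurable.ite (measurableSet_Ioi (a := (0 : ℝ))) ?_ measurable_const
  have h1 : Continuous (fun θ : ℝ => FF f N (α + s * θ)) :=
    (FF_continuous f N).comp (by fun_prop)
  have h2 : Continuous (fun θ : ℝ => ee (-(a * s * θ))) := continuous_ee.comp (by fun_prop)
  have h3 : Continuous (fun θ : ℝ => ((Real.exp (-(θ / Θ)) : ℝ) : ℂ)) := by fun_prop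
  exact ((h1.mul h2).mul h3).measurable

/-- the norm of `ge` at a positive point -/
private theorem JredE_norm_ge (f : ℕ → ℝ) (N : ℕ) (α a Θ s θ : ℝ) (hθ : 0 < θ) :
    ‖ge f N α a Θ s θ‖ = ‖FF f N (α + s * θ)‖ * Real.exp (-(θ / Θ)) := by
  unfold ge
  rw [if_pos hθ, norm_mul, norm_mul, JredE_norm_ee, mul_one, Complex.norm_real, Real.norm_eq_abs,
    abs_of_pos (Real.exp_pos _)]

theorem norm_ge_le (f : ℕ → ℝ) (N : ℕ) (α a Θ s θ : ℝ) (hθ : 0 < θ) :
    ‖ge f N α a Θ s θ‖ ≤ (∑ n ∈ Icc 1 N, |f n|) * Real.exp (-(θ / Θ)) := by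
  rw [JredE_norm_ge f N α a Θ s θ hθ]
  exact mul_le_mul_of_nonneg_right (norm_FF_le f N _) (Real.exp_pos _).le

/-- windows of length at most one, both signs -/
private theorem JredE_window (f : ℕ → ℝ) (N : ℕ) (α s u v : ℝ) (hs : s = 1 ∨ s = -1)
    (huv : u ≤ v) (hv : v ≤ u + 1) :
    ∫ θ in u..v, ‖FF f N (α + s * θ)‖ ^ 2 ≤ S2 f N := by
  rcases hs with rfl | rfl
  · have h := intervalIntegral.integral_comp_add_left (a := u) (b := v)
      (fun t => ‖FF f N t‖ ^ 2) α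
    simp only [one_mul]
    rw [h]
    exact SmallA_window f N _ _ (by linarith) (by linarith)
  · have h := intervalIntegral.integral_comp_sub_left (a := u) (b := v)
      (fun t => ‖FF f N t‖ ^ 2) α
    have e : ∀ θ : ℝ, α + -1 * θ = α - θ := fun θ => by ring
    simp only [e]
    rw [h]
    exact SmallA_window f N _ _ (by linarith) (by linarith)

private theorem JredE_FF_cont (f : ℕ → ℝ) (N : ℕ) (α s : ℝ) :
    Continuous (fun θ : ℝ => ‖FF f N (α + s * θ)‖ ^ 2) :=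
  (((FF_continuous f N).comp (by fun_prop : Continuous fun θ : ℝ => α + s * θ)).norm).pow 2

/-- the `L^2` norm of the damped function -/
theorem ge_L2 (f : ℕ → ℝ) (N : ℕ) (α a Θ s : ℝ) (hΘ0 : 0 < Θ) (hΘ : Θ ≤ 1) (hs : s = 1 ∨ s = -1) :
    ∫ θ in Set.Ioi (0 : ℝ), ‖ge f N α a Θ s θ‖ ^ 2 ≤ 2 * S2 f N := by
  have hS2 := S2_nonneg f N
  have hcont : Continuous (fun θ : ℝ => Real.exp (-(2 * θ)) * ‖FF f N (α + s * θ)‖ ^ 2) :=
    (by fun_prop : Continuous fun θ : ℝ => Real.exp (-(2 * θ))).mul (JredE_FF_cont f N α s)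
  have hint : IntegrableOn (fun θ : ℝ => Real.exp (-(2 * θ)) * ‖FF f N (α + s * θ)‖ ^ 2)
      (Set.Ioi (0 : ℝ)) := by
    have h1 : IntegrableOn (fun θ : ℝ => Real.exp (-2 * θ)) (Set.Ioi (0 : ℝ)) :=
      exp_neg_integrableOn_Ioi 0 (by norm_num)
    have h2 : IntegrableOn (fun θ : ℝ => ((N : ℝ) * S2 f N) * Real.exp (-2 * θ))
      (Set.Ioi (0 : ℝ)) := h1.const_mul _
    refine Integrable.mono' h2 hcont.aestronglyMeasurable ?_
    refine Filter.Eventually.of_forall fun θ => ?_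
    have h3 := norm_FF_sq_le f N (α + s * θ)
    rw [Real.norm_eq_abs, abs_of_nonneg (by positivity), mul_comm]
    have e : -(2 * θ) = -2 * θ := by ring
    rw [e]
    exact mul_le_mul_of_nonneg_right h3 (Real.exp_pos _).le
  have hle : ∫ θ in Set.Ioi (0 : ℝ), ‖ge f N α a Θ s θ‖ ^ 2
      ≤ ∫ θ in Set.Ioi (0 : ℝ), Real.exp (-(2 * θ)) * ‖FF f N (α + s * θ)‖ ^ 2 := by
    apply integral_mono_of_nonneg
    · exact Filter.Eventually.of_forall fun y => sq_nonneg _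
    · exact hint
    · refine (ae_restrict_iff' measurableSet_Ioi).2 (Filter.Eventually.of_forall ?_)
      intro θ hθ
      have hθ0 : (0 : ℝ) < θ := hθ
      simp only
      rw [JredE_norm_ge f N α a Θ s θ hθ0, mul_pow, mul_comm]
      apply mul_le_mul_of_nonneg_right _ (sq_nonneg _)
      rw [← Real.exp_nat_mul]
      apply Real.exp_le_exp.2
      have h1 : θ ≤ θ / Θ := by
        rw [le_div_iff₀ hΘ0]
        nlinarith
      push_cast
      linarith
  refine hle.trans ?_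
  have hlim := intervalIntegral_tendsto_integral_Ioi (μ := volume) (l := Filter.atTop)
    (b := fun M : ℕ => (M : ℝ)) 0 hint tendsto_natCast_atTop_atTop
  refine le_of_tendsto' hlim fun M => ?_
  have h1 : ∫ θ in (0 : ℝ)..(M : ℝ), Real.exp (-(2 * θ)) * ‖FF f N (α + s * θ)‖ ^ 2
      = ∑ k ∈ range M, ∫ θ in ((k : ℕ) : ℝ)..((k + 1 : ℕ) : ℝ),
          Real.exp (-(2 * θ)) * ‖FF f N (α + s * θ)‖ ^ 2 := by
    have h := intervalIntegral.sum_integral_adjacent_intervals (μ := volume)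
      (f := fun θ => Real.exp (-(2 * θ)) * ‖FF f N (α + s * θ)‖ ^ 2) (a := fun k : ℕ => (k : ℝ))
      (n := M) (fun k _ => hcont.intervalIntegrable _ _)
    rw [h, Nat.cast_zero]
  rw [h1]
  have h2 : ∀ k ∈ range M, ∫ θ in ((k : ℕ) : ℝ)..((k + 1 : ℕ) : ℝ),
      Real.exp (-(2 * θ)) * ‖FF f N (α + s * θ)‖ ^ 2 ≤ (1 / 2) ^ k * S2 f N := by
    intro k _
    have hk1 : ((k : ℕ) : ℝ) ≤ ((k + 1 : ℕ) : ℝ) := by
      push_cast
      linarith
    have h3 : ∫ θ in ((k : ℕ) : ℝ)..((k + 1 : ℕ) : ℝ),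
        Real.exp (-(2 * θ)) * ‖FF f N (α + s * θ)‖ ^ 2
        ≤ ∫ θ in ((k : ℕ) : ℝ)..((k + 1 : ℕ) : ℝ), (1 / 2) ^ k * ‖FF f N (α + s * θ)‖ ^ 2 := by
      apply intervalIntegral.integral_mono_on hk1
      · exact hcont.intervalIntegrable _ _
      · exact (continuous_const.mul (JredE_FF_cont f N α s)).intervalIntegrable _ _
      · rintro θ ⟨hθ1, _⟩
        apply mul_le_mul_of_nonneg_right _ (sq_nonneg _)
        have h4 : Real.exp (-1) ≤ 1 / 2 := by
          rw [Real.exp_neg, one_div]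
          apply inv_anti₀ (by norm_num)
          have := Real.add_one_le_exp (1 : ℝ)
          linarith
        calc Real.exp (-(2 * θ)) ≤ Real.exp (k * (-1)) := by
              apply Real.exp_le_exp.2
              have : (0 : ℝ) ≤ k := by positivity
              linarith
          _ = Real.exp (-1) ^ k := by rw [Real.exp_nat_mul]
          _ ≤ (1 / 2) ^ k := pow_le_pow_left₀ (Real.exp_pos _).le h4 k
    refine h3.trans ?_
    rw [intervalIntegral.integral_const_mul]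
    apply mul_le_mul_of_nonneg_left _ (by positivity)
    apply JredE_window f N α s _ _ hs hk1
    push_cast
    linarith
  refine (Finset.sum_le_sum h2).trans ?_
  rw [← Finset.sum_mul]
  apply mul_le_mul_of_nonneg_right _ hS2
  have h5 := geom_sum_eq (by norm_num : (1 / 2 : ℝ) ≠ 1) M
  have h6 : (0 : ℝ) ≤ (1 / 2) ^ M := by positivity
  have h7 : ((1 / 2 : ℝ) ^ M - 1) / (1 / 2 - 1) = 2 - 2 * (1 / 2) ^ M := by ring
  rw [h5, h7]
  linarith

end Pool.Agent.H35.W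

end

section

/-!
# EHB MelB: the Mellin transform for small `t`

`FF_near`: Abel summation: `FF(α+θ) = ∑ f(n) e(nα) e(nθ)`, `|e((n+1)θ) - e(nθ)| ≤ 2π|θ|`, so `|FF(α+θ)| ≤ (1 + 2π|θ| N) E` if all truncated
sums `∑_{n ≤ u} f(n) e(nα)`, `u ≤ N`, are at most `E` in absolute value.
`mel_small`: `Mel g t = ∫_0^Θ g(θ) θ^{-1/2-it} dθ`, `g = gg`, `s = ±1`.  Let `θ0 = 1/P`.  The part `θ ≤ θ0` is at most
`∫_0^{θ0} (1 + 7 θ N) E θ^{-1/2} ≤ 2 √θ0 (1 + 7 θ0 N) E`.  If `Θ > θ0` the rest is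
`∑_n f(n) e(nα) ∫_{θ0}^Θ e(s (n - a) θ) θ^{-1/2-it} dθ`, at most `Fm ∑_n (1+|t|) bb P (n - a)` by `osc1` (for `|n-a| < 1`), `osc3`
(for `1 ≤ |n-a| ≤ P`), `osc2` (`|n-a| > P`, `1/√θ0 = √P`), and `bb_sum`.
-/

set_option autoImplicit false

namespace Pool.Agent.H76.EHB

open Finset MeasureTheory
open Pool.Agent.H91.PK (ee)

end Pool.Agent.H76.EHB

end

section

/-!
# W MelG: the Mellin transform of the damped exponential sum, and the size of the Gamma factor

`ge f N α a Θ s θ = ∑_n f(n) ee(nα) exp(-w_n θ)`, `w_n = 1/Θ - 2πi s (n - a)`, `Re w_n > 0`, so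
`Mel (ge ..) t = Γ(1/2 - it) ∑_n f(n) ee(nα) w_n^{-(1/2 - it)}` (`Complex.integral_cpow_mul_exp_neg_mul_Ioi`;
`mellin g z = ∫_{(0,∞)} θ^{z-1} g(θ) dθ`, `Mel g t = mellin g (1/2 - it)`).
`|Γ(1/2 - it)|^2 = Γ(1/2-it) Γ(1/2+it) = π / sin(π/2 - iπt) = π / cosh(πt) ≤ 2π e^{-π|t|}` (`Complex.Gamma_mul_Gamma_one_sub`,
`Complex.Gamma_conj`), so `|Γ(1/2 - it)| ≤ 3 e^{-π|t|/2}` (and `≤ 2.51 e^{-π|t|/2}`).
-/

set_option autoImplicit false

namespace Pool.Agent.H35.W

open Finset MeasureTheory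
open Pool.Agent.H91.PK (ee)
open Pool.Agent.H76.EHB

/-- the integrand is continuous on the half line -/
private theorem MelG_cont (z w : ℂ) :
    ContinuousOn (fun θ : ℝ => (θ : ℂ) ^ (z - 1) * Complex.exp (-(w * θ))) (Set.Ioi 0) := by
  apply ContinuousOn.mul
  · intro θ hθ
    apply ContinuousAt.continuousWithinAt
    exact Complex.continuousAt_ofReal_cpow_const θ (z - 1) (Or.inr (ne_of_gt hθ))
  · fun_prop

private theorem MelG_norm (z w : ℂ) {θ : ℝ} (hθ : 0 < θ) :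
    ‖(θ : ℂ) ^ (z - 1) * Complex.exp (-(w * θ))‖ = θ ^ (z.re - 1) * Real.exp (-(w.re) * θ) := by
  rw [norm_mul, Complex.norm_cpow_eq_rpow_re_of_pos hθ, Complex.norm_exp]
  simp

private theorem MelG_int {z w : ℂ} (hz : 0 < z.re) (hw : 0 < w.re) :
    IntegrableOn (fun θ : ℝ => (θ : ℂ) ^ (z - 1) * Complex.exp (-(w * θ))) (Set.Ioi 0) := by
  have h1 : IntegrableOn (fun θ : ℝ => θ ^ (z.re - 1) * Real.exp (-(w.re) * θ ^ (1 : ℝ)))
      (Set.Ioi 0) := integrableOn_rpow_mul_exp_neg_mul_rpow (by linarith) one_pos hw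
  refine Integrable.mono' h1 ((MelG_cont z w).aestronglyMeasurable measurableSet_Ioi) ?_
  rw [ae_restrict_iff' measurableSet_Ioi]
  refine Filter.Eventually.of_forall fun θ hθ => ?_
  rw [MelG_norm z w hθ, Real.rpow_one]

private theorem MelG_diff {z w : ℂ} (hz : 0 < z.re) (hw : 0 < w.re) :
    DifferentiableAt ℂ (fun w : ℂ => ∫ θ in Set.Ioi (0 : ℝ),
      (θ : ℂ) ^ (z - 1) * Complex.exp (-(w * θ))) w := by
  have hε : 0 < w.re / 2 := by linarith
  have hI : IntegrableOn (fun θ : ℝ => θ ^ z.re * Real.exp (-(w.re / 2) * θ ^ (1 : ℝ)))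
      (Set.Ioi 0) := integrableOn_rpow_mul_exp_neg_mul_rpow (by linarith) one_pos hε
  have h := hasDerivAt_integral_of_dominated_loc_of_deriv_le
    (μ := volume.restrict (Set.Ioi (0 : ℝ))) (x₀ := w)
    (F := fun (w : ℂ) (θ : ℝ) => (θ : ℂ) ^ (z - 1) * Complex.exp (-(w * θ)))
    (F' := fun (w : ℂ) (θ : ℝ) => (θ : ℂ) ^ (z - 1) * (Complex.exp (-(w * θ)) * (-θ)))
    (bound := fun θ : ℝ => θ ^ z.re * Real.exp (-(w.re / 2) * θ ^ (1 : ℝ)))
    (s := Metric.ball w (w.re / 2))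
    (Metric.ball_mem_nhds w hε)
    (Filter.Eventually.of_forall fun w' =>
      (MelG_cont z w').aestronglyMeasurable measurableSet_Ioi)
    (MelG_int hz hw)
    (ContinuousOn.aestronglyMeasurable (by
      have h1 := (MelG_cont z w).mul
        (by fun_prop : ContinuousOn (fun θ : ℝ => (-θ : ℂ)) (Set.Ioi 0))
      refine h1.congr fun θ _ => ?_
      rw [Pi.mul_apply]
      ring) measurableSet_Ioi)
    (by
      rw [ae_restrict_iff' measurableSet_Ioi]
      refine Filter.Eventually.of_forall fun θ hθ w' hw' => ?_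
      have hθ0 : (0 : ℝ) < θ := hθ
      have hre : w.re / 2 ≤ w'.re := by
        have h1 := Complex.abs_re_le_norm (w' - w)
        rw [Metric.mem_ball, dist_eq_norm] at hw'
        rw [Complex.sub_re] at h1
        have h2 := (abs_le.1 (h1.trans hw'.le)).1
        linarith
      have e1 : (θ : ℂ) ^ (z - 1) * (Complex.exp (-(w' * θ)) * (-θ)) =
          ((θ : ℂ) ^ (z - 1) * Complex.exp (-(w' * θ))) * (-θ) := by ring
      rw [e1, norm_mul, MelG_norm z w' hθ0, norm_neg, Complex.norm_real, Real.norm_eq_abs,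
        abs_of_pos hθ0, Real.rpow_one]
      have e2 : θ ^ (z.re - 1) * Real.exp (-(w'.re) * θ) * θ =
          θ ^ z.re * Real.exp (-(w'.re) * θ) := by
        rw [Real.rpow_sub_one hθ0.ne']
        field_simp
      rw [e2]
      apply mul_le_mul_of_nonneg_left _ (by positivity)
      apply Real.exp_le_exp.2
      nlinarith)
    hI
    (by
      refine Filter.Eventually.of_forall fun θ w' _ => ?_
      have h1 : HasDerivAt (fun w : ℂ => -(w * θ)) (-(1 * (θ : ℂ))) w' :=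
        ((hasDerivAt_id w').mul_const (θ : ℂ)).neg
      have h2 := (h1.cexp).const_mul ((θ : ℂ) ^ (z - 1))
      have e3 : (θ : ℂ) ^ (z - 1) * (Complex.exp (-(w' * θ)) * -(1 * (θ : ℂ))) =
          (θ : ℂ) ^ (z - 1) * (Complex.exp (-(w' * θ)) * (-θ)) := by rw [one_mul]
      rw [e3] at h2
      exact h2)
  exact h.2.differentiableAt

/-- the Gamma integral with a complex scale -/
private theorem MelG_gamma {z w : ℂ} (hz : 0 < z.re) (hw : 0 < w.re) :
    ∫ θ in Set.Ioi (0 : ℝ), (θ : ℂ) ^ (z - 1) * Complex.exp (-(w * θ)) =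
      Complex.Gamma z * w ^ (-z) := by
  have hopen : IsOpen {w : ℂ | 0 < w.re} := isOpen_lt continuous_const Complex.continuous_re
  have hconn : IsPreconnected {w : ℂ | 0 < w.re} :=
    (convex_halfSpace_re_gt 0).isPreconnected
  have hF : AnalyticOnNhd ℂ (fun w : ℂ => ∫ θ in Set.Ioi (0 : ℝ),
      (θ : ℂ) ^ (z - 1) * Complex.exp (-(w * θ))) {w : ℂ | 0 < w.re} :=
    DifferentiableOn.analyticOnNhd
      (fun w hw => (MelG_diff hz hw).differentiableWithinAt) hopen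
  have hG : AnalyticOnNhd ℂ (fun w : ℂ => Complex.Gamma z * w ^ (-z)) {w : ℂ | 0 < w.re} := by
    refine DifferentiableOn.analyticOnNhd (fun w hw => ?_) hopen
    refine DifferentiableAt.differentiableWithinAt ?_
    exact (differentiableAt_id.cpow_const (Or.inl hw)).const_mul _
  have h1 : (1 : ℂ) ∈ {w : ℂ | 0 < w.re} := by simp
  have hreal : ∀ r : ℝ, 0 < r → (∫ θ in Set.Ioi (0 : ℝ),
      (θ : ℂ) ^ (z - 1) * Complex.exp (-((r : ℂ) * θ))) = Complex.Gamma z * (r : ℂ) ^ (-z) := by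
    intro r hr
    rw [Complex.integral_cpow_mul_exp_neg_mul_Ioi hz hr, mul_comm]
    congr 1
    rw [one_div, Complex.cpow_neg, Complex.inv_cpow]
    rw [Complex.arg_ofReal_of_nonneg hr.le]
    exact Real.pi_ne_zero.symm
  have hfreq : ∃ᶠ w in nhdsWithin (1 : ℂ) {1}ᶜ, (∫ θ in Set.Ioi (0 : ℝ),
      (θ : ℂ) ^ (z - 1) * Complex.exp (-(w * θ))) = Complex.Gamma z * w ^ (-z) := by
    have ht : Filter.Tendsto (fun r : ℝ => (r : ℂ)) (nhdsWithin (1 : ℝ) {1}ᶜ)
        (nhdsWithin (1 : ℂ) {1}ᶜ) := by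
      apply tendsto_nhdsWithin_of_tendsto_nhds_of_eventually_within
      · have := (Complex.continuous_ofReal.tendsto (1 : ℝ)).mono_left
          (nhdsWithin_le_nhds (s := {1}ᶜ))
        simpa using this
      · refine eventually_nhdsWithin_of_forall fun r hr => ?_
        simpa using hr
    refine ht.frequently ?_
    apply Filter.Eventually.frequently
    have h2 : ∀ᶠ r : ℝ in nhds 1, 0 < r := lt_mem_nhds one_pos
    have h3 : ∀ᶠ r : ℝ in nhdsWithin 1 {1}ᶜ, 0 < r := nhdsWithin_le_nhds h2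
    exact h3.mono fun r hr => hreal r hr
  exact hF.eqOn_of_preconnected_of_frequently_eq hG hconn h1 hfreq hw

theorem mel_ge (f : ℕ → ℝ) (N : ℕ) (α a Θ s t : ℝ) (hΘ : 0 < Θ) :
    Mel (ge f N α a Θ s) t = Complex.Gamma (1 / 2 - t * Complex.I)
      * ∑ n ∈ Icc 1 N, (f n : ℂ) * ee (n * α)
        * (((1 / Θ : ℝ) : ℂ) - ((2 * Real.pi * s * ((n : ℝ) - a) : ℝ) : ℂ) * Complex.I)
            ^ (-(1 / 2 - t * Complex.I) : ℂ) := by
  obtain ⟨z, hz⟩ : ∃ z : ℂ, z = 1 / 2 - t * Complex.I := ⟨_, rfl⟩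
  have hzre : 0 < z.re := by rw [hz]; simp
  let w : ℕ → ℂ := fun n =>
    ((1 / Θ : ℝ) : ℂ) - ((2 * Real.pi * s * ((n : ℝ) - a) : ℝ) : ℂ) * Complex.I
  have hw : ∀ n, 0 < (w n).re := by
    intro n
    have : (w n).re = 1 / Θ := by
      simp only [w, Complex.sub_re, Complex.ofReal_re, Complex.re_ofReal_mul, Complex.I_re,
        mul_zero, sub_zero]
    rw [this]
    positivity
  rw [Mel, ← hz, mellin]
  have h1 : ∀ θ ∈ Set.Ioi (0 : ℝ), (θ : ℂ) ^ (z - 1) • ge f N α a Θ s θ =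
      ∑ n ∈ Icc 1 N, ((f n : ℂ) * ee (n * α)) *
        ((θ : ℂ) ^ (z - 1) * Complex.exp (-(w n * θ))) := by
    intro θ hθ
    rw [ge, if_pos (show 0 < θ from hθ), FF, smul_eq_mul, Finset.sum_mul, Finset.sum_mul, Finset.mul_sum]
    refine Finset.sum_congr rfl fun n _ => ?_
    have h2 : ee (n * (α + s * θ)) * ee (-(a * s * θ)) * ((Real.exp (-(θ / Θ)) : ℝ) : ℂ) =
        ee (n * α) * Complex.exp (-(w n * θ)) := by
      simp only [ee, w]
      rw [Complex.ofReal_exp, ← Complex.exp_add, ← Complex.exp_add, ← Complex.exp_add]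
      congr 1
      push_cast
      ring
    calc (θ : ℂ) ^ (z - 1) * ((f n : ℂ) * ee (n * (α + s * θ)) * ee (-(a * s * θ)) *
          ((Real.exp (-(θ / Θ)) : ℝ) : ℂ))
        = (θ : ℂ) ^ (z - 1) * (f n : ℂ) * (ee (n * (α + s * θ)) * ee (-(a * s * θ)) *
          ((Real.exp (-(θ / Θ)) : ℝ) : ℂ)) := by ring
      _ = _ := by rw [h2]; ring
  rw [setIntegral_congr_fun measurableSet_Ioi h1, integral_finsetSum]
  · rw [Finset.mul_sum]
    refine Finset.sum_congr rfl fun n _ => ?_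
    rw [integral_const_mul, MelG_gamma hzre (hw n)]
    simp only [w]
    ring
  · intro n _
    exact (MelG_int hzre (hw n)).const_mul _

theorem gamma_half (t : ℝ) :
    ‖Complex.Gamma (1 / 2 - t * Complex.I)‖ ≤ 3 * Real.exp (-(Real.pi * |t| / 2)) := by
  obtain ⟨z, hz⟩ : ∃ z : ℂ, z = 1 / 2 - t * Complex.I := ⟨_, rfl⟩
  rw [← hz]
  have h1 : (1 : ℂ) - z = (starRingEnd ℂ) z := by
    rw [hz]
    apply Complex.ext
    · simp; norm_num
    · simp
  have h2 : Complex.Gamma z * (starRingEnd ℂ) (Complex.Gamma z) =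
      Real.pi / Complex.sin (Real.pi * z) := by
    rw [← Complex.Gamma_conj, ← h1]
    exact Complex.Gamma_mul_Gamma_one_sub z
  have h3 : Complex.sin (Real.pi * z) = ((Real.cosh (Real.pi * t) : ℝ) : ℂ) := by
    have e : (Real.pi : ℂ) * z = Real.pi / 2 - (Real.pi * t : ℝ) * Complex.I := by
      rw [hz]; push_cast; ring
    rw [e, Complex.sin_pi_div_two_sub, Complex.cos_mul_I, Complex.ofReal_cosh]
  have h4 : ‖Complex.Gamma z‖ ^ 2 = Real.pi / Real.cosh (Real.pi * t) := by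
    have h5 := congrArg norm h2
    rw [h3, norm_mul, Complex.norm_conj, norm_div, Complex.norm_real, Complex.norm_real,
      Real.norm_eq_abs, Real.norm_eq_abs, abs_of_pos Real.pi_pos,
      abs_of_pos (Real.cosh_pos _)] at h5
    rw [pow_two]
    exact h5
  have h5 : Real.exp (Real.pi * |t|) / 2 ≤ Real.cosh (Real.pi * t) := by
    rw [← Real.cosh_abs, abs_mul, abs_of_pos Real.pi_pos, Real.cosh_eq]
    have := Real.exp_pos (-(Real.pi * |t|))
    linarith
  have h6 : ‖Complex.Gamma z‖ ^ 2 ≤ (3 * Real.exp (-(Real.pi * |t| / 2))) ^ 2 := by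
    rw [h4, mul_pow, ← Real.exp_nat_mul]
    have e1 : ((2 : ℕ) : ℝ) * (-(Real.pi * |t| / 2)) = -(Real.pi * |t|) := by push_cast; ring
    rw [e1, Real.exp_neg]
    have hE := Real.exp_pos (Real.pi * |t|)
    calc Real.pi / Real.cosh (Real.pi * t) ≤ Real.pi / (Real.exp (Real.pi * |t|) / 2) :=
          div_le_div_of_nonneg_left Real.pi_pos.le (by positivity) h5
      _ = (2 * Real.pi) * (Real.exp (Real.pi * |t|))⁻¹ := by field_simp
      _ ≤ 3 ^ 2 * (Real.exp (Real.pi * |t|))⁻¹ := by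
          apply mul_le_mul_of_nonneg_right _ (by positivity)
          have := Real.pi_lt_four
          linarith
  exact le_of_sq_le_sq h6 (by positivity)

end Pool.Agent.H35.W

end

section

/-!
# W PowZ: powers of the prime sums

`ZZ S t ^ j = ∑_m a_m m^{-1/2+it}`, `a_m` the number of `(p_1, ..., p_j) ∈ S^j` with product `m`.
Recursion: `a^{(0)} = 1_{m = 1}`, `a^{(j+1)}(m) = ∑_{p ∈ S, p ∣ m} a^{(j)}(m/p)`.  If `a^{(j+1)}(m) ≠ 0` then `m` is a product of
`j+1` primes, so it has at most `j+1` prime divisors and `a^{(j+1)}(m) ≤ (j+1) a^{(j)}`-max `≤ (j+1)!`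
(keep in the induction: `a^{(j)}(m) ≠ 0 → ArithmeticFunction.cardFactors m = j` (`m ≠ 0`), or `m.primeFactors.card ≤ j`).  The support is in
`[1, (2P)^j]`, and `∑_m a_m/m = (∑_{p ∈ S} 1/p)^j ≤ 1` as `∑_{p ∈ S} 1/p ≤ P · (1/P)`.
-/

set_option autoImplicit false

namespace Pool.Agent.H35.W

open Finset
open Pool.Agent.H76.EHB

/-- the number of `j`-tuples of elements of `S` with product `m` -/
private def powzA (S : Finset ℕ) : ℕ → ℕ → ℕ
  | 0, m => if m = 1 then 1 else 0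
  | j + 1, m => ∑ p ∈ S.filter (fun p => p ∣ m), powzA S j (m / p)

private theorem powzA_supp {P : ℕ} {S : Finset ℕ} (hS : S ⊆ pb P) (j : ℕ) :
    ∀ m, powzA S j m ≠ 0 → m.primeFactors.card ≤ j ∧ 1 ≤ m ∧ m ≤ (2 * P) ^ j := by
  induction j with
  | zero =>
    intro m hm
    have h1 : m = 1 := by
      by_contra h
      exact hm (by simp [powzA, h])
    subst h1
    simp
  | succ j ih =>
    intro m hm
    unfold powzA at hm
    obtain ⟨p, hp, hpm⟩ := Finset.exists_ne_zero_of_sum_ne_zero hm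
    rw [Finset.mem_filter] at hp
    have hpb := hS hp.1
    unfold pb at hpb
    rw [Finset.mem_filter, Finset.mem_Ioc] at hpb
    obtain ⟨⟨_, hp2⟩, hpp⟩ := hpb
    obtain ⟨h1, h2, h3⟩ := ih _ hpm
    have hmul : p * (m / p) = m := Nat.mul_div_cancel' hp.2
    have hk : m / p ≠ 0 := by omega
    refine ⟨?_, ?_, ?_⟩
    · rw [← hmul, Nat.primeFactors_mul hpp.ne_zero hk, hpp.primeFactors]
      refine (Finset.card_union_le _ _).trans ?_
      rw [Finset.card_singleton]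
      omega
    · rw [← hmul]
      exact Nat.mul_pos hpp.pos h2
    · rw [← hmul, pow_succ, mul_comm]
      exact Nat.mul_le_mul h3 hp2

private theorem powzA_le {P : ℕ} {S : Finset ℕ} (hS : S ⊆ pb P) (j : ℕ) :
    ∀ m, powzA S j m ≤ j.factorial := by
  induction j with
  | zero =>
    intro m
    unfold powzA
    split_ifs <;> simp
  | succ j ih =>
    intro m
    by_cases hm : powzA S (j + 1) m = 0
    · rw [hm]
      exact Nat.zero_le _
    · obtain ⟨h1, h2, -⟩ := powzA_supp hS (j + 1) m hm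
      unfold powzA
      refine (Finset.sum_le_sum fun p _ => ih (m / p)).trans ?_
      rw [Finset.sum_const, smul_eq_mul, Nat.factorial_succ]
      refine Nat.mul_le_mul_right _ (le_trans (Finset.card_le_card ?_) h1)
      intro p hp
      rw [Finset.mem_filter] at hp
      have hpb := hS hp.1
      unfold pb at hpb
      rw [Finset.mem_filter] at hpb
      exact Nat.mem_primeFactors.2 ⟨hpb.2, hp.2, by omega⟩

private theorem powzA_sum {R : Type*} [CommSemiring R] {P : ℕ} {S : Finset ℕ} (hS : S ⊆ pb P)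
    (h : ℕ → R) (h1 : h 1 = 1) (hm : ∀ p ∈ S, ∀ k, 1 ≤ k → h (p * k) = h p * h k) (j : ℕ) :
    ∑ m ∈ Icc 1 ((2 * P) ^ j), (powzA S j m : R) * h m = (∑ p ∈ S, h p) ^ j := by
  induction j with
  | zero => simp [powzA, h1]
  | succ j ih =>
    have e1 : ∀ m ∈ Icc 1 ((2 * P) ^ (j + 1)), (powzA S (j + 1) m : R) * h m =
        ∑ p ∈ S, (if p ∣ m then (powzA S j (m / p) : R) * h m else 0) := by
      intro m _
      rw [← Finset.sum_filter]
      show ((∑ p ∈ S.filter (fun p => p ∣ m), powzA S j (m / p) : ℕ) : R) * h m = _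
      rw [Nat.cast_sum, Finset.sum_mul]
    rw [Finset.sum_congr rfl e1, Finset.sum_comm, pow_succ' (∑ p ∈ S, h p), ← ih, Finset.sum_mul]
    refine Finset.sum_congr rfl fun p hp => ?_
    have hpb := hS hp
    unfold pb at hpb
    rw [Finset.mem_filter, Finset.mem_Ioc] at hpb
    obtain ⟨⟨_, hp2⟩, hpp⟩ := hpb
    rw [← Finset.sum_filter, Finset.mul_sum]
    have hinj : Set.InjOn (fun k : ℕ => p * k) (Icc 1 ((2 * P) ^ j) : Finset ℕ) :=
      fun a _ b _ hab => Nat.eq_of_mul_eq_mul_left hpp.pos hab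
    have e2 : ∑ k ∈ Icc 1 ((2 * P) ^ j), h p * ((powzA S j k : R) * h k) =
        ∑ m ∈ (Icc 1 ((2 * P) ^ j)).image (fun k => p * k), (powzA S j (m / p) : R) * h m := by
      rw [Finset.sum_image hinj]
      refine Finset.sum_congr rfl fun k hk => ?_
      rw [Finset.mem_Icc] at hk
      rw [Nat.mul_div_cancel_left _ hpp.pos, hm p hp k hk.1]
      ring
    rw [e2]
    symm
    refine Finset.sum_subset ?_ ?_
    · intro m hm'
      rw [Finset.mem_image] at hm'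
      obtain ⟨k, hk, rfl⟩ := hm'
      rw [Finset.mem_Icc] at hk
      rw [Finset.mem_filter, Finset.mem_Icc]
      refine ⟨⟨Nat.mul_pos hpp.pos hk.1, ?_⟩, Dvd.intro _ rfl⟩
      rw [pow_succ, mul_comm]
      exact Nat.mul_le_mul hk.2 hp2
    · intro m hm' hn
      rw [Finset.mem_filter] at hm'
      have : powzA S j (m / p) = 0 := by
        by_contra h0
        obtain ⟨-, h2, h3⟩ := powzA_supp hS j _ h0
        refine hn (Finset.mem_image.2 ⟨m / p, Finset.mem_Icc.2 ⟨h2, h3⟩, ?_⟩)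
        exact Nat.mul_div_cancel' hm'.2
      rw [this, Nat.cast_zero, zero_mul]

theorem pow_z (P j : ℕ) (S : Finset ℕ) (hP : 1 ≤ P) (hS : S ⊆ pb P) :
    ∃ a : ℕ → ℝ, (∀ m, 0 ≤ a m ∧ a m ≤ (j.factorial : ℝ)) ∧
      (∀ t : ℝ, ZZ S t ^ j
        = ∑ m ∈ Icc 1 ((2 * P) ^ j), (a m : ℂ) * (m : ℂ) ^ (-(1 / 2 : ℂ) + t * Complex.I)) ∧
      ∑ m ∈ Icc 1 ((2 * P) ^ j), a m / m ≤ 1 := by
  refine ⟨fun m => (powzA S j m : ℝ), fun m => ⟨Nat.cast_nonneg _, ?_⟩, fun t => ?_, ?_⟩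
  · show (powzA S j m : ℝ) ≤ (j.factorial : ℝ)
    exact_mod_cast powzA_le hS j m
  · have h1 := powzA_sum (R := ℂ) hS (fun m => (m : ℂ) ^ (-(1 / 2 : ℂ) + t * Complex.I)) (by simp)
      (fun p _ k _ => by
        push_cast
        rw [Complex.natCast_mul_natCast_cpow]) j
    unfold ZZ
    rw [← h1]
    refine Finset.sum_congr rfl fun m _ => ?_
    push_cast
    rfl
  · have h1 := powzA_sum (R := ℝ) hS (fun m => (1 : ℝ) / m) (by simp)
      (fun p _ k _ => by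
        push_cast
        rw [one_div_mul_one_div]) j
    have h2 : ∑ m ∈ Icc 1 ((2 * P) ^ j), (powzA S j m : ℝ) / m = (∑ p ∈ S, (1 : ℝ) / p) ^ j := by
      rw [← h1]
      refine Finset.sum_congr rfl fun m _ => ?_
      rw [mul_one_div]
    have hP0 : (0 : ℝ) < P := by exact_mod_cast hP
    have h3 : ∑ p ∈ S, (1 : ℝ) / p ≤ 1 := by
      have h4 : ∀ p ∈ S, (1 : ℝ) / p ≤ 1 / P := by
        intro p hp
        have hpb := hS hp
        unfold pb at hpb
        rw [Finset.mem_filter, Finset.mem_Ioc] at hpb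
        exact one_div_le_one_div_of_le hP0 (by exact_mod_cast hpb.1.1.le)
      refine (Finset.sum_le_sum h4).trans ?_
      rw [Finset.sum_const, nsmul_eq_mul, mul_one_div, div_le_one hP0]
      have h5 : S.card ≤ P := by
        refine (Finset.card_le_card hS).trans ?_
        unfold pb
        refine (Finset.card_filter_le _ _).trans ?_
        rw [Nat.card_Ioc]
        omega
      exact_mod_cast h5
    show ∑ m ∈ Icc 1 ((2 * P) ^ j), (powzA S j m : ℝ) / m ≤ 1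
    rw [h2]
    exact pow_le_one₀ (Finset.sum_nonneg fun p _ => by positivity) h3

end Pool.Agent.H35.W

end

section

/-!
# W BadM: the measure of the set where the prime sum is large

Proof.  Markov: `(P/D)^j vol ≤ ∫_{-T}^T ‖ZZ S t‖^{2j} dt = ∫ ‖ZZ S t ^ j‖^2 ≤ (2T + 4X(1 + log X)) ∑ a_m^2/m`, `X = (2P)^j`
(`pow_z`, `mean_v`), `∑ a_m^2/m ≤ j! ∑ a_m/m ≤ j!`.  (`ZZ S` is continuous: finite sum.)
-/

set_option autoImplicit false

namespace Pool.Agent.H35.W

open Finset MeasureTheory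
open Pool.Agent.H76.EHB

theorem bad_m (P j : ℕ) (S : Finset ℕ) (T D : ℝ) (hP : 1 ≤ P) (hS : S ⊆ pb P) (hT : 0 ≤ T)
    (hD : 0 < D) :
    volume.real {t : ℝ | |t| ≤ T ∧ P / D < ‖ZZ S t‖ ^ 2}
      ≤ (D / P) ^ j * ((2 * T + 4 * (2 * P : ℝ) ^ j * (1 + Real.log ((2 * P : ℝ) ^ j)))
        * j.factorial) := by
  have hP0 : (0 : ℝ) < P := by exact_mod_cast hP
  obtain ⟨a, ha, hpow, hsum⟩ := pow_z P j S hP hS
  set X : ℕ := (2 * P) ^ j with hX
  have hX1 : 1 ≤ X := Nat.one_le_pow _ _ (by omega)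
  have hXr : (X : ℝ) = (2 * P : ℝ) ^ j := by
    rw [hX]
    push_cast
    ring
  have hcont : Continuous fun t : ℝ => ZZ S t := by
    unfold ZZ
    refine continuous_finsetSum _ fun k hk => ?_
    have hk1 : k.Prime := (Finset.mem_filter.1 (hS hk)).2
    refine Continuous.const_cpow (by fun_prop) (Or.inl ?_)
    exact_mod_cast hk1.ne_zero
  have hgcont : Continuous fun t : ℝ => ‖ZZ S t ^ j‖ ^ 2 := by fun_prop
  have hmean := mean_v (fun m => (a m : ℂ)) X T hX1 hT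
  have hsq : ∑ m ∈ Icc 1 X, ‖(a m : ℂ)‖ ^ 2 / m ≤ j.factorial := by
    calc ∑ m ∈ Icc 1 X, ‖(a m : ℂ)‖ ^ 2 / m ≤ ∑ m ∈ Icc 1 X, (j.factorial : ℝ) * (a m / m) := by
          refine Finset.sum_le_sum fun m _ => ?_
          obtain ⟨h0, h1⟩ := ha m
          rw [Complex.norm_real, Real.norm_eq_abs, sq_abs, ← mul_div_assoc]
          refine div_le_div_of_nonneg_right ?_ (Nat.cast_nonneg _)
          rw [sq]
          exact mul_le_mul_of_nonneg_right h1 h0
      _ = (j.factorial : ℝ) * ∑ m ∈ Icc 1 X, a m / m := by rw [Finset.mul_sum]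
      _ ≤ (j.factorial : ℝ) * 1 := mul_le_mul_of_nonneg_left hsum (Nat.cast_nonneg _)
      _ = j.factorial := mul_one _
  have hK0 : 0 ≤ 2 * T + 4 * (X : ℝ) * (1 + Real.log X) := by
    have h1 : 0 ≤ Real.log (X : ℝ) := Real.log_nonneg (by exact_mod_cast hX1)
    positivity
  have hint : ∫ t in (-T)..T, ‖ZZ S t ^ j‖ ^ 2 ≤
      (2 * T + 4 * (X : ℝ) * (1 + Real.log X)) * j.factorial := by
    have h1 : ∫ t in (-T)..T, ‖ZZ S t ^ j‖ ^ 2 =
        ∫ t in (-T)..T, ‖∑ m ∈ Icc 1 X, (a m : ℂ) * (m : ℂ) ^ (-(1 / 2 : ℂ) + t * Complex.I)‖ ^ 2 := by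
      refine intervalIntegral.integral_congr fun t _ => ?_
      show ‖ZZ S t ^ j‖ ^ 2 = _
      rw [hpow t]
    rw [h1]
    exact hmean.trans (mul_le_mul_of_nonneg_left hsq hK0)
  set B : Set ℝ := {t : ℝ | |t| ≤ T ∧ P / D < ‖ZZ S t‖ ^ 2} with hB
  have hBm : MeasurableSet B := by
    have m1 : MeasurableSet {t : ℝ | |t| ≤ T} := measurableSet_le (by fun_prop) measurable_const
    have m2 : MeasurableSet {t : ℝ | (P : ℝ) / D < ‖ZZ S t‖ ^ 2} :=
      measurableSet_lt measurable_const (hcont.norm.pow 2).measurable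
    exact m1.inter m2
  have hBsub : B ⊆ Set.Icc (-T) T := by
    intro t ht
    exact abs_le.1 ht.1
  have hc0 : 0 ≤ (P : ℝ) / D := by positivity
  have h1 : volume.real B * ((P : ℝ) / D) ^ j ≤ ∫ t in B, ‖ZZ S t ^ j‖ ^ 2 := by
    have h2 : ∫ _ in B, ((P : ℝ) / D) ^ j = volume.real B * ((P : ℝ) / D) ^ j := by
      rw [setIntegral_const, smul_eq_mul]
    rw [← h2]
    refine setIntegral_mono_on ?_ ?_ hBm ?_
    · exact (continuous_const.integrableOn_Icc).mono_set hBsub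
    · exact (hgcont.integrableOn_Icc).mono_set hBsub
    · intro t ht
      rw [norm_pow, ← pow_mul, mul_comm, pow_mul]
      exact pow_le_pow_left₀ hc0 ht.2.le j
  have h2 : ∫ t in B, ‖ZZ S t ^ j‖ ^ 2 ≤ ∫ t in (-T)..T, ‖ZZ S t ^ j‖ ^ 2 := by
    rw [intervalIntegral.integral_of_le (by linarith), ← integral_Icc_eq_integral_Ioc]
    refine setIntegral_mono_set hgcont.integrableOn_Icc ?_ hBsub.eventuallyLE
    exact Filter.Eventually.of_forall fun t => by positivity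
  have h3 : volume.real B * ((P : ℝ) / D) ^ j ≤
      (2 * T + 4 * (X : ℝ) * (1 + Real.log X)) * j.factorial := h1.trans (h2.trans hint)
  have h4 : volume.real B = (D / P) ^ j * (volume.real B * ((P : ℝ) / D) ^ j) := by
    have h5 : (D / P) ^ j * ((P : ℝ) / D) ^ j = 1 := by
      rw [← mul_pow]
      have : D / P * (P / D) = 1 := by
        field_simp
      rw [this, one_pow]
    calc volume.real B = 1 * volume.real B := (one_mul _).symm
      _ = _ := by rw [← h5]; ring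
  rw [h4]
  have h6 : (0 : ℝ) ≤ (D / P) ^ j := by positivity
  have h7 := mul_le_mul_of_nonneg_left h3 h6
  rw [hXr] at h7
  exact h7

end Pool.Agent.H35.W

end

section

/-!
# W BadN: the measure of the bad set, choice of the exponent

Proof.  We may assume `c ≤ 1`.  Take `j = ⌈log T / log P⌉₊ ≥ 1`, so `T ≤ P^j` and `j ≤ log T/log P + 1`.  By `bad_m` (with `2T`, `D = L^E`):
`vol ≤ L^{Ej} P^{-j} (4 P^j + 4 · 2^j P^j (1 + j log(2P))) j! ≤ L^{Ej} 2^j · 16 L^2 · j!` (for `P ≤ x`, `T ≤ x^3`,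
`j ≤ 3L + 1 ≤ 4L`, `1 + j log (2P) ≤ 2 · 4L · 2L`-like; adapt the constants) and `j! ≤ j^j ≤ (4L)^j`.  So
`vol ≤ C L^2 (8 L^{E+1})^j ≤ C L^2 L^{(E+2) j}` (`L ≥ 8`) and `L^{(E+2) j} ≤ L^{E+2} · L^{(E+2) log T/log P} ≤ L^{E+2} T^{(E+2)/b}`
as `log P ≥ b log L`.  With `b ≥ 2 (E+2)/c` this is `L^{E+2} T^{c/2}` and `C L^{E+4} ≤ L^{E+5} ≤ T^{c/2}` for `T ≥ L^m`,
`m ≥ 2(E+5)/c`.
-/

set_option autoImplicit false

namespace Pool.Agent.H35.W

open Finset MeasureTheory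
open Pool.Agent.H76.EHB

theorem bad_n (E : ℕ) (c : ℝ) (hc : 0 < c) : ∃ b m x0 : ℕ, ∀ x : ℕ, x0 ≤ x →
    ∀ (P : ℕ) (S : Finset ℕ) (T : ℝ), Real.log x ^ b ≤ P → P ≤ x → S ⊆ pb P →
      Real.log x ^ m ≤ T → T ≤ (x : ℝ) ^ (3 : ℕ) →
      volume.real {t : ℝ | |t| ≤ 2 * T ∧ P / Real.log x ^ E < ‖ZZ S t‖ ^ 2} ≤ T ^ c := by
  obtain ⟨b, hb⟩ := exists_nat_ge (2 * ((E : ℝ) + 2) / c + 1)
  obtain ⟨m, hm⟩ := exists_nat_ge (2 * ((E : ℝ) + 5) / c + 1)
  obtain ⟨x0, hx0⟩ := exists_nat_ge (Real.exp 40)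
  refine ⟨b, m, x0, fun x hx P S T hP hPx hS hT1 hT2 => ?_⟩
  have hxr : Real.exp 40 ≤ (x : ℝ) := hx0.trans (by exact_mod_cast hx)
  have hx1 : (0 : ℝ) < x := (Real.exp_pos 40).trans_le hxr
  set L := Real.log x with hL
  have hL40 : 40 ≤ L := (Real.le_log_iff_exp_le hx1).2 hxr
  have hL0 : 0 < L := by linarith
  have hE0 : 0 ≤ 2 * ((E : ℝ) + 2) / c := by positivity
  have hE1 : 0 ≤ 2 * ((E : ℝ) + 5) / c := by positivity
  have hb1 : (1 : ℝ) ≤ b := by linarith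
  have hm1 : (1 : ℝ) ≤ m := by linarith
  set l := Real.log L with hl
  have hl1 : 1 ≤ l := by
    rw [hl, Real.le_log_iff_exp_le hL0]
    have := Real.exp_one_lt_d9
    linarith
  have hLp : ∀ k : ℕ, L ^ k = Real.exp (k * l) := by
    intro k
    rw [Real.exp_nat_mul, hl, Real.exp_log hL0]
  have hLge1 : ∀ k : ℕ, 1 ≤ L ^ k := fun k => one_le_pow₀ (by linarith)
  have hP1 : (1 : ℝ) ≤ P := (hLge1 b).trans hP
  have hP0 : (0 : ℝ) < P := by linarith
  have hPn : 1 ≤ P := by exact_mod_cast hP1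
  have hT0 : 0 < T := lt_of_lt_of_le (by linarith [hLge1 m]) hT1
  have hlP : b * l ≤ Real.log P := by
    rw [Real.le_log_iff_exp_le hP0, ← hLp]
    exact hP
  have hlT : m * l ≤ Real.log T := by
    rw [Real.le_log_iff_exp_le hT0, ← hLp]
    exact hT1
  have hlT2 : Real.log T ≤ 3 * L := by
    have h := Real.log_le_log hT0 hT2
    rw [Real.log_pow] at h
    push_cast at h
    exact h
  have hlP1 : 1 ≤ Real.log P := by nlinarith
  have hlP0 : 0 < Real.log P := by linarith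
  have hlT0 : 0 ≤ Real.log T := le_trans (by positivity) hlT
  set r := Real.log T / Real.log P with hr
  have hr0 : 0 ≤ r := div_nonneg hlT0 hlP0.le
  obtain ⟨j, hj⟩ : ∃ j, j = ⌈r⌉₊ := ⟨_, rfl⟩
  have hj1 : r ≤ j := hj ▸ Nat.le_ceil r
  have hj2 : (j : ℝ) ≤ r + 1 := hj ▸ (Nat.ceil_lt_add_one hr0).le
  have hrL : r ≤ 3 * L := by
    rw [hr, div_le_iff₀ hlP0]
    nlinarith
  have hj4 : (j : ℝ) ≤ 4 * L := by linarith
  have hTP : T ≤ (P : ℝ) ^ j := by
    rw [← Real.log_le_log_iff hT0 (by positivity), Real.log_pow]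
    have : r * Real.log P ≤ j * Real.log P := mul_le_mul_of_nonneg_right hj1 hlP0.le
    rw [hr, div_mul_cancel₀ _ hlP0.ne'] at this
    exact this
  have h2P : Real.log (2 * P) ≤ 2 * L := by
    have h1 : (2 * P : ℝ) ≤ (x : ℝ) ^ 2 := by
      have h2 : (2 : ℝ) ≤ x := by
        have := Real.add_one_le_exp (40 : ℝ)
        linarith
      have h3 : (P : ℝ) ≤ x := by exact_mod_cast hPx
      nlinarith
    have h := Real.log_le_log (by positivity) h1
    rw [Real.log_pow] at h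
    push_cast at h
    exact h
  have hmain := bad_m P j S (2 * T) (L ^ E) hPn hS (by positivity) (by positivity)
  refine hmain.trans ?_
  have h2j : (1 : ℝ) ≤ 2 ^ j := one_le_pow₀ (by norm_num)
  have hPj : (0 : ℝ) < (P : ℝ) ^ j := by positivity
  have hlog : Real.log ((2 * P : ℝ) ^ j) ≤ 8 * L ^ 2 := by
    rw [Real.log_pow]
    have h1 : 0 ≤ Real.log (2 * (P : ℝ)) := Real.log_nonneg (by linarith)
    calc (j : ℝ) * Real.log (2 * P) ≤ (4 * L) * (2 * L) :=
          mul_le_mul hj4 h2P h1 (by positivity)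
      _ = 8 * L ^ 2 := by ring
  have hX : 2 * (2 * T) + 4 * (2 * P : ℝ) ^ j * (1 + Real.log ((2 * P : ℝ) ^ j)) ≤
      (P : ℝ) ^ j * (2 ^ j * (40 * L ^ 2)) := by
    have h1 : 2 * (2 * T) ≤ 4 * ((P : ℝ) ^ j * 2 ^ j) := by
      have h6 : (P : ℝ) ^ j * 1 ≤ (P : ℝ) ^ j * 2 ^ j := mul_le_mul_of_nonneg_left h2j hPj.le
      linarith
    have h2 : 4 * (2 * P : ℝ) ^ j * (1 + Real.log ((2 * P : ℝ) ^ j)) ≤
        4 * ((P : ℝ) ^ j * 2 ^ j) * (1 + 8 * L ^ 2) := by
      rw [mul_pow, mul_comm ((2 : ℝ) ^ j)]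
      refine mul_le_mul_of_nonneg_left ?_ (by positivity)
      rw [mul_pow, mul_comm ((2 : ℝ) ^ j)] at hlog
      linarith
    have h3 : 0 < (P : ℝ) ^ j * 2 ^ j := by positivity
    have h4 : (1 : ℝ) ≤ L ^ 2 := hLge1 2
    refine (add_le_add h1 h2).trans ?_
    have h5 : 4 * ((P : ℝ) ^ j * 2 ^ j) + 4 * ((P : ℝ) ^ j * 2 ^ j) * (1 + 8 * L ^ 2) =
        ((P : ℝ) ^ j * 2 ^ j) * (8 + 32 * L ^ 2) := by ring
    rw [h5, ← mul_assoc ((P : ℝ) ^ j)]
    exact mul_le_mul_of_nonneg_left (by linarith) h3.le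
  have hfac : (j.factorial : ℝ) ≤ (4 * L) ^ j := by
    have h1 : (j.factorial : ℝ) ≤ (j : ℝ) ^ j := by exact_mod_cast Nat.factorial_le_pow j
    exact h1.trans (pow_le_pow_left₀ (Nat.cast_nonneg _) hj4 j)
  have hstep : (L ^ E / P) ^ j * ((2 * (2 * T) + 4 * (2 * P : ℝ) ^ j * (1 + Real.log ((2 * P : ℝ) ^ j)))
      * j.factorial) ≤ 40 * L ^ 2 * (8 * L ^ (E + 1)) ^ j := by
    have h0 : 0 ≤ (L ^ E / P) ^ j := by positivity
    have h1 : (2 * (2 * T) + 4 * (2 * P : ℝ) ^ j * (1 + Real.log ((2 * P : ℝ) ^ j))) * j.factorial ≤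
        ((P : ℝ) ^ j * (2 ^ j * (40 * L ^ 2))) * (4 * L) ^ j :=
      mul_le_mul hX hfac (Nat.cast_nonneg _) (by positivity)
    refine (mul_le_mul_of_nonneg_left h1 h0).trans (le_of_eq ?_)
    have e1 : (8 * L ^ (E + 1)) ^ j = (L ^ E) ^ j * 2 ^ j * (4 * L) ^ j := by
      rw [← mul_pow, ← mul_pow]
      congr 1
      ring
    rw [e1, div_pow]
    field_simp
  refine hstep.trans ?_
  have h8 : (8 * L ^ (E + 1)) ^ j ≤ (L ^ (E + 2)) ^ j := by
    refine pow_le_pow_left₀ (by positivity) ?_ j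
    have e1 : L ^ (E + 2) = L * L ^ (E + 1) := by ring
    rw [e1]
    exact mul_le_mul_of_nonneg_right (by linarith) (by positivity)
  have h40 : 40 * L ^ 2 ≤ L ^ 3 := by
    have e1 : L ^ 3 = L * L ^ 2 := by ring
    rw [e1]
    exact mul_le_mul_of_nonneg_right hL40 (by positivity)
  refine (mul_le_mul h40 h8 (by positivity) (by positivity)).trans ?_
  rw [← pow_mul, ← pow_add, hLp, Real.rpow_def_of_pos hT0, Real.exp_le_exp]
  have hf1 : l * ((E : ℝ) + 5) ≤ c / 2 * Real.log T := by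
    have h1 : ((E : ℝ) + 5) ≤ c / 2 * m := by
      have h2 : 2 * ((E : ℝ) + 5) / c ≤ m := by linarith
      rw [div_le_iff₀ hc] at h2
      linarith
    calc l * ((E : ℝ) + 5) ≤ l * (c / 2 * m) := mul_le_mul_of_nonneg_left h1 (by linarith)
      _ = c / 2 * (m * l) := by ring
      _ ≤ c / 2 * Real.log T := mul_le_mul_of_nonneg_left hlT (by linarith)
  have hf2 : ((E : ℝ) + 2) * (l * r) ≤ c / 2 * Real.log T := by
    have h1 : l * r ≤ Real.log T / b := by
      rw [hr, le_div_iff₀ (by linarith), mul_div_assoc', div_mul_eq_mul_div, div_le_iff₀ hlP0]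
      calc l * Real.log T * b = Real.log T * (b * l) := by ring
        _ ≤ Real.log T * Real.log P := mul_le_mul_of_nonneg_left hlP hlT0
    have h3 : ((E : ℝ) + 2) ≤ c / 2 * b := by
      have h2 : 2 * ((E : ℝ) + 2) / c ≤ b := by linarith
      rw [div_le_iff₀ hc] at h2
      linarith
    have h4 : 0 ≤ Real.log T / b := div_nonneg hlT0 (by linarith)
    calc ((E : ℝ) + 2) * (l * r) ≤ ((E : ℝ) + 2) * (Real.log T / b) :=
          mul_le_mul_of_nonneg_left h1 (by positivity)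
      _ ≤ (c / 2 * b) * (Real.log T / b) := mul_le_mul_of_nonneg_right h3 h4
      _ = c / 2 * Real.log T := by
          have : (b : ℝ) ≠ 0 := by linarith
          field_simp
  push_cast
  have hf3 : ((E : ℝ) + 2) * (l * j) ≤ ((E : ℝ) + 2) * (l * (r + 1)) :=
    mul_le_mul_of_nonneg_left (mul_le_mul_of_nonneg_left hj2 (by linarith)) (by positivity)
  have e1 : ((3 : ℝ) + ((E : ℝ) + 2) * j) * l = 3 * l + ((E : ℝ) + 2) * (l * j) := by ring
  have e2 : ((E : ℝ) + 2) * (l * (r + 1)) = ((E : ℝ) + 2) * (l * r) + ((E : ℝ) + 2) * l := by ring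
  have e3 : l * ((E : ℝ) + 5) = 3 * l + ((E : ℝ) + 2) * l := by ring
  rw [e1]
  linarith

end Pool.Agent.H35.W

end

section

/-!
# EHB Planch: Plancherel for integrable square integrable functions

Route A: Mathlib's `MeasureTheory.Lp.norm_fourier_eq` (`Mathlib/Analysis/Fourier/LpSpace.lean`) plus the identification of
the `L²` Fourier transform with the integral: approximate `G` by Schwartz functions simultaneously in `L¹` and `L²`
(density, `SchwartzMap.toLp_fourier_eq`); the transforms converge uniformly and in `L²`, so the limits agree a.e.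
Route B (elementary).  `Ĝ(ξ) = ∫ G(u) e(-uξ) du` is bounded and continuous.  For `ε > 0`
`∫ |Ĝ(ξ)|^2 exp(-π (ε ξ)^2) dξ = ∫∫ G(u) conj G(v) (1/ε) exp(-π ((u-v)/ε)^2) du dv` (Fubini and the Gaussian transform, `gft2` scaled).
The right side is `∫ c(w) (1/ε) exp(-π (w/ε)^2) dw` with `c(w) = ∫ G(u + w) conj G(u) du`, a bounded continuous function of `w`
(continuity of translation in `L²`), `c(0) = ∫ |G|^2`, so it tends to `∫|G|^2` as `ε → 0` (for example by
`Real.tendsto_integral_gaussian_smul'` or directly).  The left side increases to `∫ |Ĝ|^2` (monotone convergence), which is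
therefore finite.
-/

set_option autoImplicit false

namespace Pool.Agent.H76.EHB

open Finset MeasureTheory
open Pool.Agent.H91.PK (ee)
open scoped FourierTransform ContDiff SchwartzMap

private theorem planch_eq (G : ℝ → ℂ) (ξ : ℝ) :
    ∫ u, G u * ee (-(u * ξ)) = FourierTransform.fourier G ξ := by
  rw [Real.fourier_real_eq_integral_exp_smul]
  apply integral_congr_ae
  filter_upwards with u
  rw [ee, smul_eq_mul, mul_comm]
  congr 2
  push_cast
  ring

private theorem planch_continuous (G : ℝ → ℂ) (h1 : Integrable G) :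
    Continuous (FourierTransform.fourier G : ℝ → ℂ) :=
  VectorFourier.fourierIntegral_continuous Real.continuous_fourierChar
    (by exact continuous_inner) h1

private theorem planch_ae (G : ℝ → ℂ) (h1 : Integrable G) (h2 : MemLp G 2) :
    (FourierTransform.fourier (h2.toLp G) : Lp (α := ℝ) ℂ 2) =ᵐ[volume]
      (FourierTransform.fourier G : ℝ → ℂ) := by
  apply ae_eq_of_integral_contDiff_smul_eq
  · exact (Lp.memLp _).locallyIntegrable one_le_two
  · exact (planch_continuous G h1).locallyIntegrable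
  · intro g g_smooth g_cpt
    have hg₁ : HasCompactSupport (Complex.ofRealCLM ∘ g) := g_cpt.comp_left rfl
    have hg₂ : ContDiff ℝ ∞ (Complex.ofRealCLM ∘ g) := by fun_prop
    set φ : 𝓢(ℝ, ℂ) := hg₁.toSchwartzMap hg₂ with hφ
    have e1 : ∫ x, g x • (FourierTransform.fourier (h2.toLp G) : Lp (α := ℝ) ℂ 2) x
        = Lp.toTemperedDistribution (FourierTransform.fourier (h2.toLp G) : Lp (α := ℝ) ℂ 2) φ := by
      rw [Lp.toTemperedDistribution_apply]
      rfl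
    have e2 : Lp.toTemperedDistribution (FourierTransform.fourier (h2.toLp G) : Lp (α := ℝ) ℂ 2) φ
        = Lp.toTemperedDistribution (h2.toLp G) (FourierTransform.fourier φ) := by
      rw [← Lp.fourier_toTemperedDistribution_eq]
      rfl
    have e3 : Lp.toTemperedDistribution (h2.toLp G) (FourierTransform.fourier φ)
        = ∫ x, (FourierTransform.fourier φ : 𝓢(ℝ, ℂ)) x • G x := by
      rw [Lp.toTemperedDistribution_apply]
      apply integral_congr_ae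
      filter_upwards [h2.coeFn_toLp] with x hx
      rw [hx]
    have e4 : ∫ x, (FourierTransform.fourier φ : 𝓢(ℝ, ℂ)) x • G x
        = ∫ x, φ x • (FourierTransform.fourier G : ℝ → ℂ) x := by
      have h := VectorFourier.integral_fourierIntegral_smul_eq_flip (L := innerₗ ℝ)
        (μ := volume) (ν := volume) (f := (φ : ℝ → ℂ)) (g := G)
        Real.continuous_fourierChar continuous_inner φ.integrable h1
      simpa using! h
    rw [e1, e2, e3, e4]
    rfl

private theorem planch_sq (f : Lp (α := ℝ) ℂ 2) : ‖f‖ ^ 2 = ∫ u, ‖f u‖ ^ 2 := by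
  have h : (RCLike.re (inner ℂ f f) : ℝ) = ‖f‖ ^ 2 := by
    rw [inner_self_eq_norm_sq]
  rw [← h, L2.inner_def]
  have h2 : ∫ a, (inner ℂ (f a) (f a) : ℂ) = ((∫ u, ‖f u‖ ^ 2 : ℝ) : ℂ) := by
    rw [← integral_complex_ofReal]
    apply integral_congr_ae
    filter_upwards with u
    rw [inner_self_eq_norm_sq_to_K]
    push_cast
    rfl
  rw [h2]
  exact Complex.ofReal_re _

theorem planch (G : ℝ → ℂ) (h1 : Integrable G) (h2 : MemLp G 2) :
    Integrable (fun ξ : ℝ => ‖∫ u, G u * ee (-(u * ξ))‖ ^ 2) ∧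
      ∫ ξ : ℝ, ‖∫ u, G u * ee (-(u * ξ))‖ ^ 2 = ∫ u, ‖G u‖ ^ 2 := by
  have hae := planch_ae G h1 h2
  have hmem : MemLp (FourierTransform.fourier G : ℝ → ℂ) 2 :=
    (memLp_congr_ae hae).1 (Lp.memLp _)
  have hfun : (fun ξ : ℝ => ‖∫ u, G u * ee (-(u * ξ))‖ ^ 2)
      = fun ξ : ℝ => ‖(FourierTransform.fourier G : ℝ → ℂ) ξ‖ ^ 2 := by
    funext ξ
    rw [planch_eq]
  rw [hfun]
  refine ⟨hmem.integrable_norm_pow (by norm_num), ?_⟩
  have e1 : ∫ ξ : ℝ, ‖(FourierTransform.fourier G : ℝ → ℂ) ξ‖ ^ 2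
      = ∫ ξ : ℝ, ‖(FourierTransform.fourier (h2.toLp G) : Lp (α := ℝ) ℂ 2) ξ‖ ^ 2 := by
    apply integral_congr_ae
    filter_upwards [hae] with ξ hξ
    rw [hξ]
  have e2 : ∫ u, ‖G u‖ ^ 2 = ∫ u, ‖(h2.toLp G) u‖ ^ 2 := by
    apply integral_congr_ae
    filter_upwards [h2.coeFn_toLp] with u hu
    rw [hu]
  rw [e1, e2, ← planch_sq, ← planch_sq, Lp.norm_fourier_eq]

end Pool.Agent.H76.EHB

end

section

/-!
# EHB Jred: from `JJ` to Mellin transforms

`gg f N α a Θ s` (`s = 1` or `-1`) is `FF(α + s θ) e(-a s θ)` on `(0, Θ]`, zero elsewhere.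
For `0 < y ≤ Y` (`K Y ≤ Θ`) the inner sum of `JJ` is `∑_{k ∈ S+} gg_{+}(k y) + ∑_{k ∈ S-} gg_{-}(k y)` with
`S+ = {1 ≤ k ≤ K : d ∣ k - l}`, `S- = {1 ≤ k ≤ K : d ∣ -k - l}` (from `k < 0`); for `y = -z < 0` it is
`∑_{S+} gg_{-}(k z) + ∑_{S-} gg_{+}(k z)`.  Use `|u+v|^2 ≤ 2|u|^2 + 2|v|^2` and enlarge `(0, Y]` to `(0, ∞)`
(integrable, since the functions are bounded with bounded support).
-/

set_option autoImplicit false

namespace Pool.Agent.H76.EHB

open Finset MeasureTheory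
open Pool.Agent.H91.PK (ee)

/-- `∫_0^∞ |∑_{k ∈ S} g(k y)|^2 dy` -/
noncomputable def II (S : Finset ℕ) (g : ℝ → ℂ) : ℝ :=
  ∫ y in Set.Ioi (0 : ℝ), ‖∑ k ∈ S, g (k * y)‖ ^ 2

end Pool.Agent.H76.EHB

end

section

/-!
# W MellE: Mellin-Plancherel for exponentially decreasing functions

Same proofs as `EHB.mel_planch`, `mel_sum`, `int_sum_sq` (file `H76/EHB/Mell.lean`: copy it): there `g` is bounded with
bounded support; the only use is that `GG g u = exp(-u/2) g(exp(-u))` is integrable and in `L^2`.  Now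
`‖g θ‖ ≤ B exp(-b θ)` for `θ > 0` gives `‖GG g u‖ ≤ B exp(-u/2) exp(-b exp(-u))`, integrable and square integrable.
-/

set_option autoImplicit false

namespace Pool.Agent.H35.W

open Finset MeasureTheory
open Pool.Agent.H76.EHB
open Pool.Agent.H91.PK (ee)

private theorem melle_integrable {E : Type*} [NormedAddCommGroup E] {f : ℝ → E}
    (hf : AEStronglyMeasurable f) {c C C' : ℝ} (hc : 0 < c)
    (h1 : ∀ u, ‖f u‖ ≤ C * Real.exp (-c * u)) (h2 : ∀ u, ‖f u‖ ≤ C' * Real.exp (c * u)) :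
    Integrable f := by
  rw [← integrableOn_univ, ← Set.Iic_union_Ioi (a := (0 : ℝ))]
  refine IntegrableOn.union ?_ ?_
  · exact Integrable.mono' ((integrableOn_exp_mul_Iic hc 0).const_mul C') hf.restrict
      (Filter.Eventually.of_forall h2)
  · exact Integrable.mono' ((integrableOn_exp_mul_Ioi (neg_lt_zero.2 hc) 0).const_mul C) hf.restrict
      (Filter.Eventually.of_forall h1)

private theorem melle_subst (h : ℝ → ℝ) :
    ∫ θ in Set.Ioi (0 : ℝ), h θ = ∫ u, Real.exp (-u) * h (Real.exp (-u)) := by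
  have him : (Real.exp ∘ Neg.neg) '' (Set.univ : Set ℝ) = Set.Ioi 0 := by
    rw [Set.image_comp, Set.image_univ_of_surjective neg_surjective, Set.image_univ, Real.range_exp]
  have hder : ∀ x ∈ (Set.univ : Set ℝ),
      HasDerivWithinAt (Real.exp ∘ Neg.neg) (-Real.exp (-x)) Set.univ x := fun x _ =>
    mul_neg_one (Real.exp (-x)) ▸
      ((Real.hasDerivAt_exp (-x)).comp x (hasDerivAt_neg x)).hasDerivWithinAt
  have hinj : Set.InjOn (Real.exp ∘ Neg.neg) (Set.univ : Set ℝ) :=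
    (Real.exp_injective.comp neg_injective).injOn
  rw [← him, integral_image_eq_integral_abs_deriv_smul MeasurableSet.univ hder hinj]
  simp

/-- the function `exp(-u/2) g(exp(-u))` -/
private noncomputable def GG (g : ℝ → ℂ) (u : ℝ) : ℂ :=
  (Real.exp (-(1 / 2) * u) : ℝ) • g (Real.exp (-u))

private theorem GG_measurable (g : ℝ → ℂ) (hg : Measurable g) : Measurable (GG g) := by
  unfold GG
  exact (by fun_prop : Measurable fun u : ℝ => (Real.exp (-(1 / 2) * u) : ℝ)).smul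
    (hg.comp (by fun_prop))

private theorem GG_norm (g : ℝ → ℂ) (u : ℝ) :
    ‖GG g u‖ = Real.exp (-(1 / 2) * u) * ‖g (Real.exp (-u))‖ := by
  unfold GG
  rw [norm_smul, Real.norm_of_nonneg (Real.exp_pos _).le]

private theorem GG_norm_sq (g : ℝ → ℂ) (u : ℝ) :
    ‖GG g u‖ ^ 2 = Real.exp (-u) * ‖g (Real.exp (-u))‖ ^ 2 := by
  rw [GG_norm, mul_pow, ← Real.exp_nat_mul]
  congr 2
  push_cast
  ring

private theorem melle_B (g : ℝ → ℂ) {B b : ℝ} (hB : ∀ θ, 0 < θ → ‖g θ‖ ≤ B * Real.exp (-(b * θ))) :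
    0 ≤ B := by
  have h := (norm_nonneg _).trans (hB 1 one_pos)
  exact nonneg_of_mul_nonneg_left h (Real.exp_pos _)

private theorem melle_exp {b : ℝ} (hb : 0 < b) (θ : ℝ) (hθ : 0 < θ) :
    Real.exp (-(b * θ)) ≤ 1 / (b * θ) := by
  have h1 : 0 < b * θ := mul_pos hb hθ
  have h2 : b * θ ≤ Real.exp (b * θ) := by
    have := Real.add_one_le_exp (b * θ)
    linarith
  rw [Real.exp_neg, ← one_div]
  exact one_div_le_one_div_of_le h1 h2

private theorem GG_le1 (g : ℝ → ℂ) {B b : ℝ} (hb : 0 < b)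
    (hB : ∀ θ, 0 < θ → ‖g θ‖ ≤ B * Real.exp (-(b * θ))) (u : ℝ) :
    ‖GG g u‖ ≤ B * Real.exp (-(1 / 2) * u) := by
  rw [GG_norm, mul_comm B]
  refine mul_le_mul_of_nonneg_left ?_ (Real.exp_pos _).le
  refine (hB _ (Real.exp_pos _)).trans ?_
  have h1 : Real.exp (-(b * Real.exp (-u))) ≤ 1 := by
    rw [Real.exp_le_one_iff]
    have := mul_pos hb (Real.exp_pos (-u))
    linarith
  calc B * Real.exp (-(b * Real.exp (-u))) ≤ B * 1 :=
        mul_le_mul_of_nonneg_left h1 (melle_B g hB)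
    _ = B := mul_one B

private theorem GG_le2 (g : ℝ → ℂ) {B b : ℝ} (hb : 0 < b)
    (hB : ∀ θ, 0 < θ → ‖g θ‖ ≤ B * Real.exp (-(b * θ))) (u : ℝ) :
    ‖GG g u‖ ≤ B / b * Real.exp ((1 / 2) * u) := by
  rw [GG_norm]
  have h1 : ‖g (Real.exp (-u))‖ ≤ B * (1 / (b * Real.exp (-u))) :=
    (hB _ (Real.exp_pos _)).trans
      (mul_le_mul_of_nonneg_left (melle_exp hb _ (Real.exp_pos _)) (melle_B g hB))
  refine (mul_le_mul_of_nonneg_left h1 (Real.exp_pos _).le).trans (le_of_eq ?_)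
  have h2 : Real.exp ((1 / 2) * u) = Real.exp (-(1 / 2) * u) * Real.exp u := by
    rw [← Real.exp_add]
    congr 1
    ring
  have h3 : Real.exp (-u) = (Real.exp u)⁻¹ := Real.exp_neg u
  rw [h2, h3]
  have h4 := (Real.exp_pos u).ne'
  field_simp

private theorem GG_integrable (g : ℝ → ℂ) (hg : Measurable g) (B b : ℝ) (hb : 0 < b)
    (hB : ∀ θ, 0 < θ → ‖g θ‖ ≤ B * Real.exp (-(b * θ))) : Integrable (GG g) :=
  melle_integrable (GG_measurable g hg).aestronglyMeasurable (by norm_num : (0 : ℝ) < 1 / 2)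
    (GG_le1 g hb hB) (GG_le2 g hb hB)

private theorem GG_memLp (g : ℝ → ℂ) (hg : Measurable g) (B b : ℝ) (hb : 0 < b)
    (hB : ∀ θ, 0 < θ → ‖g θ‖ ≤ B * Real.exp (-(b * θ))) : MemLp (GG g) 2 := by
  rw [memLp_two_iff_integrable_sq_norm (GG_measurable g hg).aestronglyMeasurable]
  refine melle_integrable ((GG_measurable g hg).norm.pow_const 2).aestronglyMeasurable
    (c := 1) (C := B ^ 2) (C' := (B / b) ^ 2) one_pos (fun u => ?_) (fun u => ?_)
  · rw [Real.norm_of_nonneg (sq_nonneg _)]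
    refine (pow_le_pow_left₀ (norm_nonneg _) (GG_le1 g hb hB u) 2).trans (le_of_eq ?_)
    rw [mul_pow, ← Real.exp_nat_mul]
    congr 2
    push_cast
    ring
  · rw [Real.norm_of_nonneg (sq_nonneg _)]
    refine (pow_le_pow_left₀ (norm_nonneg _) (GG_le2 g hb hB u) 2).trans (le_of_eq ?_)
    rw [mul_pow, ← Real.exp_nat_mul]
    congr 2
    push_cast
    ring

private theorem melle_Mel_eq (g : ℝ → ℂ) (t : ℝ) :
    Mel g t = ∫ u, GG g u * ee (-(u * (-(1 / (2 * Real.pi)) * t))) := by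
  unfold Mel
  rw [mellin_eq_fourier, Real.fourier_real_eq_integral_exp_smul]
  refine integral_congr_ae (Filter.Eventually.of_forall fun u => ?_)
  have hre : ((1 / 2 : ℂ) - t * Complex.I).re = 1 / 2 := by
    simp
  have him : ((1 / 2 : ℂ) - t * Complex.I).im = -t := by
    simp
  simp only [hre, him]
  rw [smul_eq_mul, mul_comm]
  unfold GG ee
  congr 2
  push_cast
  ring

theorem mel_planch_e (g : ℝ → ℂ) (hg : Measurable g) (B b : ℝ) (hb : 0 < b)
    (hB : ∀ θ, 0 < θ → ‖g θ‖ ≤ B * Real.exp (-(b * θ))) :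
    Integrable (fun t => ‖Mel g t‖ ^ 2) ∧
      ∫ t, ‖Mel g t‖ ^ 2 = 2 * Real.pi * ∫ θ in Set.Ioi (0 : ℝ), ‖g θ‖ ^ 2 := by
  obtain ⟨h1, h2⟩ := planch (GG g) (GG_integrable g hg B b hb hB) (GG_memLp g hg B b hb hB)
  have hpi : (0 : ℝ) < 2 * Real.pi := by positivity
  have ha : -(1 / (2 * Real.pi)) ≠ 0 := neg_ne_zero.2 (by positivity)
  have hfun : (fun t => ‖Mel g t‖ ^ 2) =
      fun t => (fun ξ : ℝ => ‖∫ u, GG g u * ee (-(u * ξ))‖ ^ 2) (-(1 / (2 * Real.pi)) * t) := by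
    funext t
    rw [melle_Mel_eq]
  rw [hfun]
  refine ⟨h1.comp_mul_left' ha, ?_⟩
  rw [Measure.integral_comp_mul_left
    (fun ξ : ℝ => ‖∫ u, GG g u * ee (-(u * ξ))‖ ^ 2) (-(1 / (2 * Real.pi))), h2, smul_eq_mul]
  congr 1
  · rw [inv_neg, one_div, inv_inv, abs_neg, abs_of_pos hpi]
  · rw [melle_subst (fun θ => ‖g θ‖ ^ 2)]
    exact integral_congr_ae (Filter.Eventually.of_forall fun u => GG_norm_sq g u)

private theorem melle_conv (g : ℝ → ℂ) (hg : Measurable g) (B b : ℝ) (hb : 0 < b)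
    (hB : ∀ θ, 0 < θ → ‖g θ‖ ≤ B * Real.exp (-(b * θ))) (t : ℝ) :
    MellinConvergent g (1 / 2 - t * Complex.I) := by
  unfold MellinConvergent
  have hmeas : AEStronglyMeasurable
      (fun θ : ℝ => (θ : ℂ) ^ ((1 / 2 : ℂ) - t * Complex.I - 1) • g θ)
      (volume.restrict (Set.Ioi 0)) := by
    have hc : AEStronglyMeasurable (fun θ : ℝ => (θ : ℂ) ^ ((1 / 2 : ℂ) - t * Complex.I - 1))
        (volume.restrict (Set.Ioi 0)) := ?_
    · exact hc.smul hg.aestronglyMeasurable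
    refine ContinuousOn.aestronglyMeasurable ?_ measurableSet_Ioi
    intro θ hθ
    exact (Complex.continuousAt_ofReal_cpow_const θ _ (Or.inr (ne_of_gt hθ))).continuousWithinAt
  have hI : IntegrableOn (fun θ : ℝ => θ ^ (-(1 / 2) : ℝ) * Real.exp (-b * θ ^ (1 : ℝ)) * B)
      (Set.Ioi 0) :=
    (integrableOn_rpow_mul_exp_neg_mul_rpow (by norm_num) one_pos hb).mul_const B
  refine Integrable.mono' hI hmeas ?_
  refine (ae_restrict_iff' measurableSet_Ioi).2 (Filter.Eventually.of_forall fun θ hθ => ?_)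
  have hθ' : (0 : ℝ) < θ := hθ
  rw [norm_smul, Complex.norm_cpow_eq_rpow_re_of_pos hθ']
  have hre : ((1 / 2 : ℂ) - t * Complex.I - 1).re = -(1 / 2) := by
    simp
    norm_num
  rw [hre, Real.rpow_one, mul_assoc]
  refine mul_le_mul_of_nonneg_left ?_ (Real.rpow_nonneg hθ'.le _)
  refine (hB θ hθ').trans (le_of_eq ?_)
  rw [mul_comm, neg_mul]

private theorem melle_sum (S : Finset ℕ) (hS : ∀ k ∈ S, 1 ≤ k) (g : ℝ → ℂ) (hg : Measurable g)
    (B b : ℝ) (hb : 0 < b) (hB : ∀ θ, 0 < θ → ‖g θ‖ ≤ B * Real.exp (-(b * θ))) (t : ℝ) :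
    Mel (fun y => ∑ k ∈ S, g (k * y)) t = ZZ S t * Mel g t := by
  unfold Mel ZZ
  have hconv := melle_conv g hg B b hb hB t
  rw [sum_mul]
  have h1 : mellin (fun y => ∑ k ∈ S, g (k * y)) (1 / 2 - t * Complex.I) =
      ∑ k ∈ S, mellin (fun y => g (k * y)) (1 / 2 - t * Complex.I) := by
    unfold mellin
    simp only [smul_sum]
    refine integral_finsetSum S fun k hk => ?_
    have hk0 : (0 : ℝ) < k := by exact_mod_cast hS k hk
    exact (MellinConvergent.comp_mul_left hk0).2 hconv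
  rw [h1]
  refine sum_congr rfl fun k hk => ?_
  have hk0 : (0 : ℝ) < k := by exact_mod_cast hS k hk
  rw [mellin_comp_mul_left g _ hk0, smul_eq_mul]
  congr 1
  push_cast
  congr 1
  ring

theorem int_sum_sq_e (S : Finset ℕ) (hS : ∀ k ∈ S, 1 ≤ k) (g : ℝ → ℂ) (hg : Measurable g) (B b : ℝ)
    (hb : 0 < b) (hB : ∀ θ, 0 < θ → ‖g θ‖ ≤ B * Real.exp (-(b * θ))) :
    Integrable (fun t => ‖ZZ S t‖ ^ 2 * ‖Mel g t‖ ^ 2) ∧
      II S g = 1 / (2 * Real.pi) * ∫ t, ‖ZZ S t‖ ^ 2 * ‖Mel g t‖ ^ 2 := by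
  have hfun : (fun t => ‖ZZ S t‖ ^ 2 * ‖Mel g t‖ ^ 2) =
      fun t => ‖Mel (fun y => ∑ k ∈ S, g (k * y)) t‖ ^ 2 := by
    funext t
    rw [melle_sum S hS g hg B b hb hB t, norm_mul, mul_pow]
  have hm : Measurable (fun y : ℝ => ∑ k ∈ S, g (k * y)) :=
    Finset.measurable_sum S fun k _ => hg.comp (by fun_prop)
  have hB0 := melle_B g hB
  have hbd : ∀ y : ℝ, 0 < y → ‖∑ k ∈ S, g (k * y)‖ ≤ S.card * B * Real.exp (-(b * y)) := by
    intro y hy
    refine (norm_sum_le _ _).trans ?_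
    have h3 : ∑ k ∈ S, ‖g ((k : ℝ) * y)‖ ≤ ∑ _k ∈ S, B * Real.exp (-(b * y)) := by
      refine sum_le_sum fun k hk => ?_
      have hk1 : (1 : ℝ) ≤ k := by exact_mod_cast hS k hk
      have hky : y ≤ k * y := by nlinarith
      refine (hB _ (lt_of_lt_of_le hy hky)).trans (mul_le_mul_of_nonneg_left ?_ hB0)
      apply Real.exp_le_exp.2
      have := mul_le_mul_of_nonneg_left hky hb.le
      linarith
    refine h3.trans (le_of_eq ?_)
    rw [sum_const, nsmul_eq_mul, mul_assoc]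
  obtain ⟨h1, h2⟩ := mel_planch_e (fun y => ∑ k ∈ S, g (k * y)) hm (S.card * B) b hb hbd
  rw [hfun]
  refine ⟨h1, ?_⟩
  rw [h2]
  unfold II
  have hpi : (2 * Real.pi) ≠ 0 := by positivity
  field_simp

end Pool.Agent.H35.W

end

section

/-!
# MU MelM: the Mellin transform for small `t`: change of the damping

Proof.  `mel_ge` (`H35/W/MelG.lean`): `Mel (ge g N 0 0 Θ s) t = Γ(1/2 - i t) ∑_{n ≤ N} g n · (1/Θ - 2 π i s n)^{-(1/2 - i t)}` (`ee(0) = 1`), `|Γ(1/2 - i t)| ≤ 3 e^{-π|t|/2}`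
(`gamma_half`).  For fixed `n ≥ 1` the function `F(σ) = (σ - 2 π i s n)^{-(1/2 - i t)}` (real `σ > 0`) has the derivative `-(1/2 - i t)(σ - 2 π i s n)^{-(3/2 - i t)}`, of norm
`≤ (1 + |t|) |w|^{-3/2} e^{π|t|/2}`, `|w| ≥ 2 π n` (compare `MelL_pow_norm` in `H76/SP/MelL.lean`; private, copy).  Mean value inequality on `[1/Θ, 1/Θ1]`
(`Convex.norm_image_sub_le_of_norm_hasDerivWithin_le`): `|F(1/Θ1) - F(1/Θ)| ≤ (1 + |t|)(2 π n)^{-3/2} e^{π|t|/2}/Θ1 ≤ (1 + |t|) e^{π|t|/2}/(M √M Θ1)` for `n > M`.  Sum over the at most `N`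
integers `n ∈ Ioc M N`.
-/

set_option autoImplicit false

namespace Pool.Agent.H76.MU

open Finset MeasureTheory
open Pool.Agent.H91.PK (ee)
open Pool.Agent.H76.EHB
open Pool.Agent.H35.W

private lemma MelM_pow_norm (w : ℂ) (t : ℝ) (hw : 0 < w.re) (b : ℝ) (hb : 0 < b) (hwb : b ≤ ‖w‖) :
    ‖w ^ (-(1 / 2 - t * Complex.I) - 1 : ℂ)‖
      ≤ (b * Real.sqrt b)⁻¹ * Real.exp (Real.pi * |t| / 2) := by
  have hw0 : w ≠ 0 := by rintro rfl; simp at hw
  have hn : 0 < ‖w‖ := norm_pos_iff.2 hw0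
  rw [Complex.norm_cpow_of_ne_zero hw0]
  have hre : (-(1 / 2 - t * Complex.I) - 1 : ℂ).re = -(1 + 1 / 2) := by simp; norm_num
  have him : (-(1 / 2 - t * Complex.I) - 1 : ℂ).im = t := by simp
  rw [hre, him, div_eq_mul_inv, ← Real.exp_neg, Real.rpow_neg hn.le, Real.rpow_add hn,
    Real.rpow_one, ← Real.sqrt_eq_rpow]
  apply mul_le_mul
  · apply inv_anti₀ (mul_pos hb (Real.sqrt_pos.2 hb))
    exact mul_le_mul hwb (Real.sqrt_le_sqrt hwb) (Real.sqrt_nonneg _) hn.le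
  · apply Real.exp_le_exp.2
    have h1 : |Complex.arg w| ≤ Real.pi / 2 := by
      rw [Complex.abs_arg_le_pi_div_two_iff]; exact hw.le
    calc -(Complex.arg w * t) ≤ |Complex.arg w * t| := neg_le_abs _
      _ = |Complex.arg w| * |t| := abs_mul _ _
      _ ≤ Real.pi / 2 * |t| := by gcongr
      _ = Real.pi * |t| / 2 := by ring
  · positivity
  · positivity

private noncomputable def MelM_F (n s t σ : ℝ) : ℂ :=
  ((σ : ℝ) - ((2 * Real.pi * s * (n - 0) : ℝ) : ℂ) * Complex.I : ℂ)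
    ^ (-(1 / 2 - t * Complex.I) : ℂ)

private lemma MelM_re (n s σ : ℝ) :
    ((σ : ℝ) - ((2 * Real.pi * s * (n - 0) : ℝ) : ℂ) * Complex.I : ℂ).re = σ := by
  simp only [Complex.sub_re, Complex.ofReal_re, Complex.re_ofReal_mul, Complex.I_re, mul_zero,
    sub_zero]

private lemma MelM_im (n s σ : ℝ) :
    ((σ : ℝ) - ((2 * Real.pi * s * (n - 0) : ℝ) : ℂ) * Complex.I : ℂ).im
      = -(2 * Real.pi * s * n) := by
  simp only [Complex.sub_im, Complex.ofReal_im, Complex.im_ofReal_mul, Complex.I_im, mul_one,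
    sub_zero, zero_sub]

private lemma MelM_deriv (n s t σ : ℝ) (hσ : 0 < σ) :
    HasDerivAt (fun v : ℝ => MelM_F n s t v)
      ((-(1 / 2 - t * Complex.I)) *
        ((σ : ℝ) - ((2 * Real.pi * s * (n - 0) : ℝ) : ℂ) * Complex.I : ℂ)
          ^ (-(1 / 2 - t * Complex.I) - 1 : ℂ)) σ := by
  have hsl : ((σ : ℝ) - ((2 * Real.pi * s * (n - 0) : ℝ) : ℂ) * Complex.I : ℂ)
      ∈ Complex.slitPlane := by
    left
    rw [MelM_re]; exact hσ
  have d1 : HasDerivAt (fun v : ℂ => v - ((2 * Real.pi * s * (n - 0) : ℝ) : ℂ) * Complex.I)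
      1 (σ : ℂ) := (hasDerivAt_id (σ : ℂ)).sub_const _
  have d2 := (d1.cpow_const (c := (-(1 / 2 - t * Complex.I) : ℂ)) hsl).comp_ofReal
  rw [mul_one] at d2
  exact d2

private lemma MelM_diff (n s t M Θ Θ1 : ℝ) (hs : s = 1 ∨ s = -1) (hΘ1 : 0 < Θ1)
    (hΘ : Θ1 ≤ Θ) (hM : 1 ≤ M) (hn : M ≤ n) :
    ‖MelM_F n s t (1 / Θ) - MelM_F n s t (1 / Θ1)‖
      ≤ (1 + |t|) * ((M * Real.sqrt M)⁻¹ * Real.exp (Real.pi * |t| / 2)) * (1 / Θ1) := by
  have hΘ0 : 0 < Θ := by linarith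
  have hle : 1 / Θ ≤ 1 / Θ1 := one_div_le_one_div_of_le hΘ1 hΘ
  have h0 : 0 < 1 / Θ := by positivity
  have hpi : 1 ≤ Real.pi := by linarith [Real.pi_gt_three]
  have hM0 : 0 < M := by linarith
  have key := (convex_Icc (1 / Θ) (1 / Θ1)).norm_image_sub_le_of_norm_hasDerivWithin_le
    (f := fun v : ℝ => MelM_F n s t v)
    (f' := fun σ : ℝ => (-(1 / 2 - t * Complex.I)) *
        ((σ : ℝ) - ((2 * Real.pi * s * (n - 0) : ℝ) : ℂ) * Complex.I : ℂ)
          ^ (-(1 / 2 - t * Complex.I) - 1 : ℂ))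
    (C := (1 + |t|) * ((M * Real.sqrt M)⁻¹ * Real.exp (Real.pi * |t| / 2)))
    (x := 1 / Θ1) (y := 1 / Θ)
    (fun σ hσ => (MelM_deriv n s t σ (h0.trans_le hσ.1)).hasDerivWithinAt)
    (fun σ hσ => by
      have hσ0 : 0 < σ := h0.trans_le hσ.1
      rw [norm_mul]
      apply mul_le_mul _ _ (norm_nonneg _) (by positivity)
      · rw [norm_neg]
        refine (norm_sub_le _ _).trans ?_
        rw [norm_mul, Complex.norm_I, mul_one, Complex.norm_real, Real.norm_eq_abs]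
        have : ‖(1 / 2 : ℂ)‖ = 1 / 2 := by norm_num
        rw [this]; linarith
      · apply MelM_pow_norm _ _ (by rw [MelM_re]; exact hσ0) _ hM0
        refine le_trans ?_ (Complex.abs_im_le_norm _)
        rw [MelM_im, abs_neg, abs_mul, abs_mul]
        have h1 : |s| = 1 := by rcases hs with rfl | rfl <;> simp
        rw [h1, abs_of_pos Real.two_pi_pos, mul_one, abs_of_pos (by linarith : 0 < n)]
        nlinarith)
    (Set.right_mem_Icc.2 hle) (Set.left_mem_Icc.2 hle)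
  refine key.trans ?_
  apply mul_le_mul_of_nonneg_left _ (by positivity)
  rw [Real.norm_eq_abs, abs_sub_comm, abs_of_nonneg (by linarith)]
  linarith

theorem mel_m (g : ℕ → ℝ) (N M : ℕ) (Θ Θ1 s t : ℝ) (hs : s = 1 ∨ s = -1) (hΘ1 : 0 < Θ1)
    (hΘ : Θ1 ≤ Θ) (hM : 1 ≤ M) (hg : ∀ n, n ∉ Ioc M N → g n = 0) (hb : ∀ n, |g n| ≤ 1) :
    ‖Mel (ge g N 0 0 Θ s) t - Mel (ge g N 0 0 Θ1 s) t‖
      ≤ 3 * (1 + |t|) * N / (M * Real.sqrt M) / Θ1 := by
  have hM1 : (1 : ℝ) ≤ M := by exact_mod_cast hM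
  have hM0 : (0 : ℝ) < M := by linarith
  rw [mel_ge g N 0 0 Θ s t (hΘ1.trans_le hΘ), mel_ge g N 0 0 Θ1 s t hΘ1, ← mul_sub,
    ← Finset.sum_sub_distrib, norm_mul]
  have hsum : ‖∑ n ∈ Icc 1 N, ((g n : ℂ) * ee (n * 0)
        * (((1 / Θ : ℝ) : ℂ) - ((2 * Real.pi * s * ((n : ℝ) - 0) : ℝ) : ℂ) * Complex.I)
            ^ (-(1 / 2 - t * Complex.I) : ℂ)
        - (g n : ℂ) * ee (n * 0)
        * (((1 / Θ1 : ℝ) : ℂ) - ((2 * Real.pi * s * ((n : ℝ) - 0) : ℝ) : ℂ) * Complex.I)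
            ^ (-(1 / 2 - t * Complex.I) : ℂ))‖
      ≤ ∑ n ∈ Icc 1 N,
        (1 + |t|) * (((M : ℝ) * Real.sqrt M)⁻¹ * Real.exp (Real.pi * |t| / 2)) * (1 / Θ1) := by
    apply norm_sum_le_of_le
    intro n _
    rw [← mul_sub, norm_mul, norm_mul, norm_ee, mul_one, Complex.norm_real, Real.norm_eq_abs]
    by_cases hn : n ∈ Ioc M N
    · have h1 : (M : ℝ) ≤ n := by exact_mod_cast (Finset.mem_Ioc.1 hn).1.le
      have h2 := MelM_diff n s t M Θ Θ1 hs hΘ1 hΘ hM1 h1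
      unfold MelM_F at h2
      calc _ ≤ 1 * _ := mul_le_mul_of_nonneg_right (hb n) (norm_nonneg _)
        _ ≤ _ := by rw [one_mul]; exact h2
    · rw [hg n hn, abs_zero, zero_mul]
      positivity
  rw [Finset.sum_const, Nat.card_Icc, Nat.add_sub_cancel, nsmul_eq_mul] at hsum
  calc _ ≤ (3 * Real.exp (-(Real.pi * |t| / 2))) * ((N : ℝ) * ((1 + |t|)
        * (((M : ℝ) * Real.sqrt M)⁻¹ * Real.exp (Real.pi * |t| / 2)) * (1 / Θ1))) :=
        mul_le_mul (gamma_half t) hsum (norm_nonneg _) (by positivity)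
    _ = (Real.exp (-(Real.pi * |t| / 2)) * Real.exp (Real.pi * |t| / 2))
          * (3 * (1 + |t|) * N / (M * Real.sqrt M) / Θ1) := by
        rw [div_eq_mul_inv _ ((M : ℝ) * Real.sqrt M)]
        ring
    _ = _ := by
        rw [← Real.exp_add]
        simp

end Pool.Agent.H76.MU

end
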