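import Pool.Agent.H47.B1.H91.GoldMertens
import Pool.Agent.H47.B1.M21
import Pool.Agent.H47.B1.M51

/-! The parts of this file: H76.MU.GP, H76.MU.Ram, H76.MU.PnL, H76.MU.SqW, H76.SP.IIL, H76.MU.Fou, H87.WL.Defs, H87.WL.Gl, H92.EH.Exp, H92.EH.Farey, H92.EH.Ramanujan, H41.PrimesModFour, H35.V1.NT, H76.MU.RgI, H76.MU.MuId. -/

section

/-!
# MU GP: the product with the primes of a block

`gP g P n = ∑_{k ∈ pb P, k | n} g(n/k)`.  `gp_FF`: `SG g N P θ = ∑_{k ∈ pb P} ∑_{m ≤ N} g(m) ee(m (k θ))`; put `n = k m ≤ 2 P N ≤ N1` and collect (`n ↦ (k, n/k)`; `g` vanishes outside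
`Icc 1 N`, so the condition `n/k ≤ N` may be dropped).  `gp_S2`: at most `log n/log 2 ≤ 2 log N1` primes divide `n` (`n ≤ N1`; `2^{#} ≤ n`), so `|gP| ≤ 2 log N1`; `pb 0` is empty.
-/

set_option autoImplicit false

namespace Pool.Agent.H76.MU

open Finset MeasureTheory
open Pool.Agent.H91.PK (ee)
open Pool.Agent.H76.EHB
open Pool.Agent.H35.W

/-- `∑_{k ∈ pb P, k | n} g(n/k)` -/
noncomputable def gP (g : ℕ → ℝ) (P n : ℕ) : ℝ :=
  ∑ k ∈ (pb P).filter (fun k => k ∣ n), g (n / k)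

private theorem GP_pb {P k : ℕ} (hk : k ∈ pb P) : 0 < k ∧ k ≤ 2 * P ∧ k.Prime := by
  unfold pb at hk
  rw [mem_filter, mem_Ioc] at hk
  exact ⟨by omega, hk.1.2, hk.2⟩

private theorem GP_zero (g : ℕ → ℝ) (N P N1 : ℕ) (hg : ∀ n, n ∉ Icc 1 N → g n = 0)
    (hN1 : 2 * P * N ≤ N1) (n : ℕ) (hn : n ∉ Icc 1 N1) (k : ℕ) (hk : k ∈ pb P) (hkn : k ∣ n) :
    g (n / k) = 0 := by
  obtain ⟨hk0, hk1, _⟩ := GP_pb hk
  apply hg
  intro h
  apply hn
  rw [mem_Icc] at h ⊢
  obtain ⟨m, rfl⟩ := hkn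
  rw [Nat.mul_div_cancel_left m hk0] at h
  constructor
  · exact Nat.mul_pos hk0 h.1
  · calc k * m ≤ (2 * P) * N := Nat.mul_le_mul hk1 h.2
      _ ≤ N1 := hN1

theorem gp_supp (g : ℕ → ℝ) (N P N1 : ℕ) (hg : ∀ n, n ∉ Icc 1 N → g n = 0)
    (hN1 : 2 * P * N ≤ N1) (n : ℕ) (hn : n ∉ Icc 1 N1) : gP g P n = 0 := by
  unfold gP
  refine sum_eq_zero fun k hk => ?_
  rw [mem_filter] at hk
  exact GP_zero g N P N1 hg hN1 n hn k hk.1 hk.2

theorem gp_FF (g : ℕ → ℝ) (N P N1 : ℕ) (hg : ∀ n, n ∉ Icc 1 N → g n = 0)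
    (hN1 : 2 * P * N ≤ N1) (θ : ℝ) : FF (gP g P) N1 θ = SG g N P θ := by
  unfold FF SG gP
  have h1 : ∀ n ∈ Icc 1 N1,
      ((∑ k ∈ (pb P).filter (fun k => k ∣ n), g (n / k) : ℝ) : ℂ) * ee (n * θ) =
        ∑ k ∈ pb P, if k ∣ n then (g (n / k) : ℂ) * ee (n * θ) else 0 := by
    intro n _
    rw [sum_filter, Complex.ofReal_sum, sum_mul]
    refine sum_congr rfl fun k _ => ?_
    split_ifs <;> simp
  rw [sum_congr rfl h1, sum_comm]
  refine sum_congr rfl fun k hk => ?_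
  obtain ⟨hk0, hk1, _⟩ := GP_pb hk
  rw [← sum_filter]
  unfold FF
  have hinj : ∀ a ∈ Icc 1 N, ∀ b ∈ Icc 1 N, k * a = k * b → a = b := fun a _ b _ h =>
    Nat.eq_of_mul_eq_mul_left hk0 h
  have h2 : ∑ m ∈ Icc 1 N, (g m : ℂ) * ee (m * (k * θ)) =
      ∑ n ∈ (Icc 1 N).image (fun m => k * m), (g (n / k) : ℂ) * ee (n * θ) := by
    rw [sum_image hinj]
    refine sum_congr rfl fun m _ => ?_
    rw [Nat.mul_div_cancel_left m hk0]
    push_cast
    congr 2
    ring
  rw [h2]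
  symm
  refine sum_subset ?_ ?_
  · intro n hn
    rw [mem_image] at hn
    obtain ⟨m, hm, rfl⟩ := hn
    rw [mem_Icc] at hm
    rw [mem_filter, mem_Icc]
    refine ⟨⟨Nat.mul_pos hk0 hm.1, ?_⟩, dvd_mul_right k m⟩
    calc k * m ≤ (2 * P) * N := Nat.mul_le_mul hk1 hm.2
      _ ≤ N1 := hN1
  · intro n hn hn'
    rw [mem_filter] at hn
    obtain ⟨_, m, rfl⟩ := hn
    have h3 : g (k * m / k) = 0 := by
      apply hg
      rw [Nat.mul_div_cancel_left m hk0]
      intro hm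
      exact hn' (mem_image.2 ⟨m, hm, rfl⟩)
    rw [h3]
    simp

theorem gp_S2 (g : ℕ → ℝ) (P N1 : ℕ) (hb : ∀ n, |g n| ≤ 1) :
    S2 (gP g P) N1 ≤ N1 * (2 * Real.log N1) ^ 2 := by
  unfold S2
  have h1 : ∀ n ∈ Icc 1 N1, gP g P n ^ 2 ≤ (2 * Real.log N1) ^ 2 := by
    intro n hn
    rw [mem_Icc] at hn
    have hn0 : (0 : ℝ) < n := by exact_mod_cast (show 0 < n by omega)
    have hN0 : (1 : ℝ) ≤ N1 := by exact_mod_cast (show 1 ≤ N1 by omega)
    set S : Finset ℕ := (pb P).filter (fun k => k ∣ n) with hS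
    have h2 : |gP g P n| ≤ (S.card : ℝ) := by
      unfold gP
      refine (abs_sum_le_sum_abs _ _).trans ?_
      refine (sum_le_sum fun k _ => hb (n / k)).trans ?_
      rw [sum_const, nsmul_eq_mul, mul_one]
    have h3 : ∏ p ∈ S, p ∣ n := by
      refine Finset.prod_primes_dvd n (fun p hp => ?_) fun p hp => ?_
      · rw [hS, mem_filter] at hp
        exact (GP_pb hp.1).2.2.prime
      · rw [hS, mem_filter] at hp
        exact hp.2
    have h4 : 2 ^ S.card ≤ n := by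
      refine le_trans ?_ (Nat.le_of_dvd (by omega) h3)
      rw [← prod_const]
      refine prod_le_prod' fun p hp => ?_
      rw [hS, mem_filter] at hp
      exact (GP_pb hp.1).2.2.two_le
    have h5 : (S.card : ℝ) * Real.log 2 ≤ Real.log N1 := by
      have h6 : ((2 : ℝ) ^ S.card) ≤ N1 := by
        have : 2 ^ S.card ≤ N1 := h4.trans hn.2
        exact_mod_cast this
      have h7 := Real.log_le_log (by positivity) h6
      rwa [Real.log_pow] at h7
    have h8 := Real.log_two_gt_d9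
    have h9 : (0 : ℝ) ≤ S.card := Nat.cast_nonneg _
    have h10 : (S.card : ℝ) ≤ 2 * Real.log N1 := by nlinarith
    rw [← sq_abs]
    exact pow_le_pow_left₀ (abs_nonneg _) (h2.trans h10) 2
  refine (sum_le_sum h1).trans ?_
  rw [sum_const, Nat.card_Icc, nsmul_eq_mul, Nat.add_sub_cancel]

end Pool.Agent.H76.MU

end

section

/-!
# MU Ram: the identity of Ramaré for the Liouville function

`gP (gl 1 P J) (P 2^i) n = ∑_{p ∈ pb (P 2^i), p | n} lio(n/p)/(1 + Om P J (n/p))` and for a prime `p | n`, `P < p ≤ P 2^J`: `lio(n/p) = -lio n` (`lio_mul`, `lio_prime`),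
`1 + Om P J (n/p) = Om P J n` (`Om_mul`, `Om_prime`).  So `∑_{i<J} gP .. = -lio n · ω/Om`, `ω` the number of distinct primes of `n` in `(P, P 2^J]`
(the blocks `pb (P 2^i)`, `i < J`, partition them).  `ω = 0`: `Rk P J n` holds, `|lio n| ≤ 1`.  `ω = Om ≥ 1` (no square factor `p^2`): the left side is `0`.  Otherwise `0 ≤ 1 - ω/Om ≤ 1`
and some `p^2 ∣ n` with `p > P`.
-/

set_option autoImplicit false

namespace Pool.Agent.H76.MU

open Finset MeasureTheory
open Pool.Agent.H91.PK (ee)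
open Pool.Agent.H76.EHB
open Pool.Agent.H35.W

open Classical in
/-- the indicator of the rough numbers plus the indicator of the multiples of squares of primes `> P` -/
noncomputable def er (P J n : ℕ) : ℝ :=
  (if Rk P J n then 1 else 0) + (if ∃ p, P < p ∧ p.Prime ∧ p ^ 2 ∣ n then 1 else 0)

private theorem Ram_block (P p : ℕ) (hP : P < p) : ∀ J : ℕ, p ≤ P * 2 ^ J →
    ∃ i < J, P * 2 ^ i < p ∧ p ≤ 2 * (P * 2 ^ i) := by
  intro J
  induction J with
  | zero =>
    intro h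
    rw [pow_zero, mul_one] at h
    omega
  | succ J ih =>
    intro h
    by_cases h1 : p ≤ P * 2 ^ J
    · obtain ⟨i, hi, h2⟩ := ih h1
      exact ⟨i, by omega, h2⟩
    · refine ⟨J, by omega, by omega, ?_⟩
      rw [pow_succ] at h
      calc p ≤ P * (2 ^ J * 2) := h
        _ = 2 * (P * 2 ^ J) := by ring

private theorem Ram_mono (P i j : ℕ) (h : i < j) : 2 * (P * 2 ^ i) ≤ P * 2 ^ j := by
  calc 2 * (P * 2 ^ i) = P * 2 ^ (i + 1) := by ring
    _ ≤ P * 2 ^ j := Nat.mul_le_mul_left _ (Nat.pow_le_pow_right (by norm_num) h)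

private theorem Ram_mem (P J n i k : ℕ) (hn : n ≠ 0) (hi : i < J) (hk : k ∈ pb (P * 2 ^ i))
    (hkn : k ∣ n) : k ∈ n.primeFactors.filter (fun p => P < p ∧ p ≤ P * 2 ^ J) := by
  unfold pb at hk
  rw [mem_filter, mem_Ioc] at hk
  rw [mem_filter, Nat.mem_primeFactors]
  refine ⟨⟨hk.2, hkn, hn⟩, ?_, ?_⟩
  · have : P ≤ P * 2 ^ i := Nat.le_mul_of_pos_right _ (by positivity)
    omega
  · have := Ram_mono P i J hi
    omega

private theorem Ram_union (P J n : ℕ) (hn : n ≠ 0) :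
    (range J).biUnion (fun i => (pb (P * 2 ^ i)).filter (fun k => k ∣ n)) =
      n.primeFactors.filter (fun p => P < p ∧ p ≤ P * 2 ^ J) := by
  ext p
  rw [mem_biUnion]
  constructor
  · rintro ⟨i, hi, hp⟩
    rw [mem_filter] at hp
    exact Ram_mem P J n i p hn (mem_range.1 hi) hp.1 hp.2
  · intro hp
    rw [mem_filter, Nat.mem_primeFactors] at hp
    obtain ⟨⟨hpp, hpn, _⟩, h1, h2⟩ := hp
    obtain ⟨i, hi, h3, h4⟩ := Ram_block P p h1 J h2
    refine ⟨i, mem_range.2 hi, ?_⟩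
    rw [mem_filter]
    unfold pb
    rw [mem_filter, mem_Ioc]
    exact ⟨⟨⟨h3, h4⟩, hpp⟩, hpn⟩

private theorem Ram_disj (P J n : ℕ) :
    (range J : Set ℕ).PairwiseDisjoint (fun i => (pb (P * 2 ^ i)).filter (fun k => k ∣ n)) := by
  intro i _ j _ hij
  have aux : ∀ i j : ℕ, i < j → ∀ p, p ∈ (pb (P * 2 ^ i)).filter (fun k => k ∣ n) →
      p ∈ (pb (P * 2 ^ j)).filter (fun k => k ∣ n) → False := by
    intro i j h p h1 h2
    unfold pb at h1 h2
    rw [mem_filter, mem_filter, mem_Ioc] at h1 h2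
    have := Ram_mono P i j h
    omega
  rw [Function.onFun, Finset.disjoint_left]
  intro p h1 h2
  rcases lt_or_gt_of_ne hij with h | h
  · exact aux i j h p h1 h2
  · exact aux j i h p h2 h1

private theorem Ram_term (P J n k : ℕ) (hn : n ≠ 0)
    (hk : k ∈ n.primeFactors.filter (fun p => P < p ∧ p ≤ P * 2 ^ J)) :
    gl 1 P J (n / k) = -(lio n / (Om P J n : ℝ)) := by
  rw [mem_filter, Nat.mem_primeFactors] at hk
  obtain ⟨⟨hp, hkn, _⟩, h1, h2⟩ := hk
  obtain ⟨m, rfl⟩ := hkn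
  have hk0 : k ≠ 0 := hp.ne_zero
  have hm0 : m ≠ 0 := by
    rintro rfl
    exact hn (mul_zero _)
  rw [Nat.mul_div_cancel_left m (Nat.pos_of_ne_zero hk0), lio_mul, lio_prime k hp,
    Om_mul P J k m hk0 hm0, Om_prime P J k hp, if_pos ⟨h1, h2⟩]
  unfold gl
  push_cast
  ring

theorem ram (P J n : ℕ) (hn : n ≠ 0) :
    |lio n + ∑ i ∈ range J, gP (gl 1 P J) (P * 2 ^ i) n| ≤ er P J n := by
  classical
  set D := n.primeFactors.filter (fun p => P < p ∧ p ≤ P * 2 ^ J) with hD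
  have hsum : ∑ i ∈ range J, gP (gl 1 P J) (P * 2 ^ i) n =
      -((D.card : ℝ) * (lio n / (Om P J n : ℝ))) := by
    unfold gP
    rw [← Finset.sum_biUnion (Ram_disj P J n), Ram_union P J n hn, ← hD,
      Finset.sum_congr rfl fun k hk => Ram_term P J n k hn hk, Finset.sum_const, nsmul_eq_mul]
    ring
  rw [hsum]
  have hOm : Om P J n = ∑ p ∈ D, n.factorization p := rfl
  have hfac : ∀ p ∈ D, 1 ≤ n.factorization p := by
    intro p hp
    rw [hD, mem_filter, Nat.mem_primeFactors] at hp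
    exact (Nat.Prime.dvd_iff_one_le_factorization hp.1.1 hn).1 hp.1.2.1
  have hle : D.card ≤ Om P J n := by
    rw [hOm]
    calc D.card = ∑ _p ∈ D, 1 := by simp
      _ ≤ _ := Finset.sum_le_sum hfac
  have her : er P J n = (if Rk P J n then (1 : ℝ) else 0) +
      (if ∃ p, P < p ∧ p.Prime ∧ p ^ 2 ∣ n then (1 : ℝ) else 0) := by
    unfold er
    congr
  have h2nn : (0 : ℝ) ≤ (if ∃ p, P < p ∧ p.Prime ∧ p ^ 2 ∣ n then (1 : ℝ) else 0) := by
    split_ifs <;> norm_num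
  have h1nn : (0 : ℝ) ≤ (if Rk P J n then (1 : ℝ) else 0) := by
    split_ifs <;> norm_num
  rw [her]
  rcases Nat.eq_zero_or_pos D.card with h0 | hpos
  · -- no prime factor in the range
    have hRk : Rk P J n := by
      intro i hi p hp hpn
      have := Ram_mem P J n i p hn hi hp hpn
      rw [← hD, Finset.card_eq_zero.1 h0] at this
      exact absurd this (Finset.notMem_empty p)
    rw [if_pos hRk, h0, Nat.cast_zero, zero_mul, neg_zero, add_zero]
    have := lio_abs_le n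
    linarith
  · have hOpos : (0 : ℝ) < (Om P J n : ℝ) := by
      exact_mod_cast lt_of_lt_of_le hpos hle
    have hq0 : (0 : ℝ) ≤ 1 - (D.card : ℝ) / (Om P J n : ℝ) := by
      rw [sub_nonneg, div_le_one hOpos]
      exact_mod_cast hle
    have hq1 : 1 - (D.card : ℝ) / (Om P J n : ℝ) ≤ 1 := by
      have : (0 : ℝ) ≤ (D.card : ℝ) / (Om P J n : ℝ) := by positivity
      linarith
    have hrw : lio n + -((D.card : ℝ) * (lio n / (Om P J n : ℝ))) =
        lio n * (1 - (D.card : ℝ) / (Om P J n : ℝ)) := by ring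
    rw [hrw, abs_mul, abs_of_nonneg hq0]
    by_cases heq : D.card = Om P J n
    · have : 1 - (D.card : ℝ) / (Om P J n : ℝ) = 0 := by
        rw [heq, div_self hOpos.ne', sub_self]
      rw [this, mul_zero]
      linarith
    · -- some square
      have hex : ∃ p ∈ D, 2 ≤ n.factorization p := by
        by_contra hno
        push Not at hno
        apply heq
        rw [hOm]
        calc D.card = ∑ _p ∈ D, 1 := by simp
          _ = ∑ p ∈ D, n.factorization p := by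
            refine Finset.sum_congr rfl fun p hp => ?_
            have h3 := hfac p hp
            have h4 := hno p hp
            omega
      obtain ⟨p, hp, h2⟩ := hex
      have hsq : ∃ p, P < p ∧ p.Prime ∧ p ^ 2 ∣ n := by
        rw [hD, mem_filter, Nat.mem_primeFactors] at hp
        exact ⟨p, hp.2.1, hp.1.1, (hp.1.1.pow_dvd_iff_le_factorization hn).2 h2⟩
      rw [if_pos hsq]
      have h5 : |lio n| * (1 - (D.card : ℝ) / (Om P J n : ℝ)) ≤ 1 * 1 :=
        mul_le_mul (lio_abs_le n) hq1 hq0 zero_le_one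
      linarith

end Pool.Agent.H76.MU

end

section

/-!
# MU PnL: the prime number theorem for the Liouville function

Proof.  `A(y) = ∑_{n ≤ y} lio n`.  Identities: `∑_{m ≤ y} lio m · (y / m) = ∑_{n ≤ y} ∑_{m | n} lio m = ⌊√y⌋` (natural division; the inner sum is the indicator of squares) and
`∑_{n ≤ y} lio n log n = ∑_{d ≤ y} Λ(d) lio d A(y/d)` (`log n = ∑_{d | n} Λ(d)`), where `Λ(d) lio d = -Λ(d) + 2 Λ(d) [d = p^{2k}]`.
`x` large, `w = ⌈exp(√L)⌉₊`, `ρ = C0 L^{-1/2}`.  CLAIM(i), `i ≤ I = 2K + 4`: `|A(y)| ≤ δ_i y` for `x^{1/2} w^{2i} ≤ y ≤ x`, `δ_0 = 1`, `δ_{i+1} = ρ δ_i + L^{-K-2}`.  Step: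
`-∑_d Λ(d) A(y/d) = -⌊√y⌋ - ∑_d (Λ(d) - 1) A(y/d)` (as `∑_d A(y/d) = ∑_m lio m (y/m)`); `d ≤ w`: `≤ ∑_{d ≤ w} (Λ(d) + 1) δ_i y/d ≤ δ_i y · C (1 + log w)`; `d > w`: interchange,
`∑_{m ≤ y/w} lio m (R(y/m) - R(w))`, `R(v) = ψ(v) - v` (natural numbers), `|R(v)| ≤ v/(log v)^{2K + 10}` for `v ≥ w` (`Pool.Agent.H91.EHA.pnt (2K+11)`, `H91/EHA/SwJ3.lean`, the prime
number theorem with a power of the logarithm), so `≤ 2 y (1 + log y)/(log w)^{2K+10} ≤ y L^{-K-2}` (`log w ≥ √L`).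
`2 ∑_{p,k} log p |A(y/p^{2k})| ≤ 2 (∑_{p^{2k} ≤ w} log p/p^{2k}) δ_i y + 2 y ∑_{p^{2k} > w} log p/p^{2k} ≤ C δ_i y + y L^{-K-2}`.
`A(y) log y = ∑ lio n log n + ∑_{n ≤ y} lio n log(y/n)`, and the last sum is `∫_1^y A(u)/u du ≤ δ_i y + x^{1/2} w^{2i}` (Abel summation).  Divide by `log y ≥ L/2`.
Then `δ_I ≤ ρ^I + 2 L^{-K-2} ≤ L^{-K}`; for `y < x^{1/2} w^{2I}` (`≤ x^{2/3}`) trivially `|A(y)| ≤ y ≤ x/L^K`.
-/

set_option autoImplicit false

namespace Pool.Agent.H76.MU

open Finset MeasureTheory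
open Pool.Agent.H91.PK (ee)
open Pool.Agent.H76.EHB
open Pool.Agent.H35.W
open Pool.Agent.H91.EHA (Lam)

/-! ### identities -/

private theorem PnL_lio_eq (n : ℕ) : lio n = ((ArithmeticFunction.liouville n : ℤ) : ℝ) := by
  unfold lio
  by_cases h : n = 0
  · subst h; simp
  · rw [if_neg h, ArithmeticFunction.liouville_apply h]; push_cast; rfl

private theorem PnL_lio_mul (m n : ℕ) : lio (m * n) = lio m * lio n := by
  simp only [PnL_lio_eq, ArithmeticFunction.liouville_apply_mul]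
  push_cast; rfl

/-- the sum of the Liouville function over the divisors -/
private theorem PnL_div (n : ℕ) (hn : n ≠ 0) :
    |∑ m ∈ n.divisors, lio m| ≤ 1 ∧ (∑ m ∈ n.divisors, lio m ≠ 0 → IsSquare n) := by
  set F : ArithmeticFunction ℤ := ArithmeticFunction.liouville * ↑ArithmeticFunction.zeta with hF
  have hFm : F.IsMultiplicative :=
    ArithmeticFunction.isMultiplicative_liouville.mul
      (ArithmeticFunction.isMultiplicative_zeta.natCast)
  have h1 : ∑ m ∈ n.divisors, lio m = ((F n : ℤ) : ℝ) := by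
    rw [hF, ArithmeticFunction.coe_mul_zeta_apply]
    push_cast
    exact Finset.sum_congr rfl fun m _ => PnL_lio_eq m
  have hpk : ∀ (p k : ℕ), p.Prime → F (p ^ k) = if Even k then 1 else 0 := by
    intro p k hp
    rw [hF, ArithmeticFunction.coe_mul_zeta_apply, Nat.sum_divisors_prime_pow hp]
    have h2 : ∀ i ∈ range (k + 1), ArithmeticFunction.liouville (p ^ i) = (-1) ^ i := by
      intro i _
      rw [ArithmeticFunction.liouville_apply (pow_ne_zero _ hp.ne_zero),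
        ArithmeticFunction.cardFactors_apply_prime_pow hp]
    rw [Finset.sum_congr rfl h2]
    induction k with
    | zero => simp
    | succ k ih =>
      rw [Finset.sum_range_succ, ih (fun i _ => by
        rw [ArithmeticFunction.liouville_apply (pow_ne_zero _ hp.ne_zero),
        ArithmeticFunction.cardFactors_apply_prime_pow hp])]
      by_cases hk : Even k
      · have h3 : ¬ Even (k + 1) := by
          rw [Nat.even_add_one]; exact not_not.mpr hk
        rw [if_pos hk, if_neg h3, Odd.neg_one_pow (Nat.not_even_iff_odd.1 h3)]; norm_num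
      · have h3 : Even (k + 1) := by
          rw [Nat.even_add_one]; exact hk
        rw [if_neg hk, if_pos h3, Even.neg_one_pow h3]; norm_num
  have hprod : F n = n.factorization.prod fun p k => F (p ^ k) :=
    hFm.multiplicative_factorization F hn
  have hval : ∀ p ∈ n.factorization.support, F (p ^ (n.factorization p)) =
      if Even (n.factorization p) then 1 else 0 := by
    intro p hp
    apply hpk
    exact Nat.prime_of_mem_primeFactors (by simpa using hp)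
  constructor
  · rw [h1, hprod, Finsupp.prod, Finset.prod_congr rfl hval]
    push_cast
    rw [Finset.abs_prod]
    apply Finset.prod_le_one
    · intro i _; exact abs_nonneg _
    · intro i _; split_ifs <;> simp
  · intro h
    rw [h1, Int.cast_ne_zero, hprod, Finsupp.prod, Finset.prod_congr rfl hval] at h
    have h4 : ∀ p ∈ n.factorization.support, Even (n.factorization p) := by
      intro p hp
      by_contra hne
      apply h
      apply Finset.prod_eq_zero hp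
      rw [if_neg hne]
    rw [← Nat.prod_factorization_pow_eq_self hn, Finsupp.prod]
    apply Finset.prod_induction _ IsSquare (fun a b ha hb => ha.mul hb) (IsSquare.one)
    intro p hp
    exact (h4 p hp).isSquare_pow p

/-- reordering of pairs -/
private theorem PnL_pairs (y : ℕ) (f : ℕ → ℕ → ℝ) :
    ∑ n ∈ Icc 1 y, ∑ d ∈ n.divisors, f d (n / d)
      = ∑ d ∈ Icc 1 y, ∑ m ∈ Icc 1 (y / d), f d m := by
  rw [Finset.sum_sigma', Finset.sum_sigma']
  refine Finset.sum_bij' (fun a _ => ⟨a.2, a.1 / a.2⟩) (fun b _ => ⟨b.1 * b.2, b.1⟩) ?_ ?_ ?_ ?_ ?_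
  · rintro ⟨n, d⟩ h
    simp only [Finset.mem_sigma, Finset.mem_Icc, Nat.mem_divisors] at h ⊢
    obtain ⟨⟨h1, h2⟩, h3, h4⟩ := h
    have hd : 0 < d := Nat.pos_of_dvd_of_pos h3 (by omega)
    refine ⟨⟨hd, (Nat.le_of_dvd (by omega) h3).trans h2⟩, Nat.div_pos (Nat.le_of_dvd (by omega) h3) hd,
      Nat.div_le_div_right h2⟩
  · rintro ⟨d, m⟩ h
    simp only [Finset.mem_sigma, Finset.mem_Icc, Nat.mem_divisors] at h ⊢
    obtain ⟨⟨h1, h2⟩, h3, h4⟩ := h
    have h5 : d * m ≤ y := by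
      calc d * m ≤ d * (y / d) := Nat.mul_le_mul_left _ h4
        _ ≤ y := Nat.mul_div_le y d
    refine ⟨⟨Nat.mul_pos (by omega) (by omega), h5⟩, Dvd.intro _ rfl, ?_⟩
    exact (Nat.mul_pos (by omega) (by omega)).ne'
  · rintro ⟨n, d⟩ h
    simp only [Finset.mem_sigma, Finset.mem_Icc, Nat.mem_divisors] at h
    obtain ⟨⟨h1, h2⟩, h3, h4⟩ := h
    simp only [Sigma.mk.injEq, heq_eq_eq, and_true]
    exact Nat.mul_div_cancel' h3
  · rintro ⟨d, m⟩ h
    simp only [Finset.mem_sigma, Finset.mem_Icc] at h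
    obtain ⟨⟨h1, h2⟩, h3, h4⟩ := h
    simp only [Sigma.mk.injEq, heq_eq_eq, true_and]
    exact Nat.mul_div_cancel_left m (by omega)
  · rintro ⟨n, d⟩ h
    rfl

private noncomputable def PnLA (y : ℕ) : ℝ := ∑ n ∈ Icc 1 y, lio n

private theorem PnL_A_abs (y : ℕ) : |PnLA y| ≤ y := by
  unfold PnLA
  refine (Finset.abs_sum_le_sum_abs _ _).trans ?_
  refine (Finset.sum_le_sum fun n _ => lio_abs_le n).trans ?_
  simp

/-- `∑ A(y/d)` counts squares -/
private theorem PnL_sumA (y : ℕ) : |∑ d ∈ Icc 1 y, PnLA (y / d)| ≤ Real.sqrt y := by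
  have h1 : ∑ d ∈ Icc 1 y, PnLA (y / d) = ∑ n ∈ Icc 1 y, ∑ m ∈ n.divisors, lio m := by
    have h2 := PnL_pairs y (fun _ m => lio m)
    unfold PnLA
    rw [← h2]
    refine Finset.sum_congr rfl fun n _ => ?_
    exact Nat.sum_div_divisors n (fun m => lio m)
  rw [h1]
  refine (Finset.abs_sum_le_sum_abs _ _).trans ?_
  have h3 : ∀ n ∈ Icc 1 y, |∑ m ∈ n.divisors, lio m| ≤ if IsSquare n then 1 else 0 := by
    intro n hn
    have hn0 : n ≠ 0 := by have := (Finset.mem_Icc.1 hn).1; omega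
    obtain ⟨h4, h5⟩ := PnL_div n hn0
    split_ifs with h6
    · exact h4
    · by_contra h7
      apply h6
      apply h5
      intro h8
      apply h7
      rw [h8, abs_zero]
  refine (Finset.sum_le_sum h3).trans ?_
  rw [← Finset.sum_filter, Finset.sum_const, nsmul_eq_mul, mul_one]
  have h4 : ((Icc 1 y).filter IsSquare) ⊆ (Icc 1 (Nat.sqrt y)).image (fun r => r * r) := by
    intro n hn
    simp only [Finset.mem_filter, Finset.mem_Icc] at hn
    obtain ⟨⟨h5, h6⟩, r, hr⟩ := hn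
    refine Finset.mem_image.2 ⟨r, Finset.mem_Icc.2 ⟨?_, ?_⟩, hr.symm⟩
    · rcases Nat.eq_zero_or_pos r with h | h
      · subst h; simp at hr; omega
      · exact h
    · rw [Nat.le_sqrt, ← hr]; exact h6
  have h5 : (((Icc 1 y).filter IsSquare).card : ℝ) ≤ (Nat.sqrt y : ℝ) := by
    have h6 := (Finset.card_le_card h4).trans Finset.card_image_le
    rw [Nat.card_Icc] at h6
    have h7 : ((Icc 1 y).filter IsSquare).card ≤ Nat.sqrt y := by omega
    exact_mod_cast h7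
  refine h5.trans ?_
  exact Real.nat_sqrt_le_real_sqrt

/-- the identity for `∑ lio n log n` -/
private theorem PnL_log (y : ℕ) : ∑ n ∈ Icc 1 y, lio n * Real.log n
    = ∑ d ∈ Icc 1 y, Lam d * lio d * PnLA (y / d) := by
  have h1 : ∀ n ∈ Icc 1 y, lio n * Real.log n = ∑ d ∈ n.divisors, Lam d * lio d * lio (n / d) := by
    intro n hn
    have hn0 : n ≠ 0 := by have := (Finset.mem_Icc.1 hn).1; omega
    rw [← ArithmeticFunction.vonMangoldt_sum, Finset.mul_sum]
    refine Finset.sum_congr rfl fun d hd => ?_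
    have h2 : d * (n / d) = n := Nat.mul_div_cancel' (Nat.dvd_of_mem_divisors hd)
    conv_lhs => rw [← h2, PnL_lio_mul]
    unfold Lam
    ring
  rw [Finset.sum_congr rfl h1, PnL_pairs y (fun d m => Lam d * lio d * lio m)]
  refine Finset.sum_congr rfl fun d _ => ?_
  rw [← Finset.mul_sum]
  rfl

/-- interchange in the range `d > w` -/
private theorem PnL_inter (y w : ℕ) (f : ℕ → ℝ) :
    ∑ d ∈ (Icc 1 y).filter (fun d => w < d), f d * PnLA (y / d)
      = ∑ m ∈ Icc 1 y, lio m * ∑ d ∈ Ioc w (y / m), f d := by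
  have h1 : ∑ d ∈ (Icc 1 y).filter (fun d => w < d), f d * PnLA (y / d)
      = ∑ d ∈ Icc 1 y, ∑ m ∈ Icc 1 (y / d), (if w < d then f d else 0) * lio m := by
    rw [Finset.sum_filter]
    refine Finset.sum_congr rfl fun d _ => ?_
    rw [← Finset.mul_sum]
    split_ifs <;> simp [PnLA]
  have h2 : ∑ m ∈ Icc 1 y, lio m * ∑ d ∈ Ioc w (y / m), f d
      = ∑ m ∈ Icc 1 y, ∑ d ∈ Icc 1 (y / m), (if w < d then f d else 0) * lio m := by
    refine Finset.sum_congr rfl fun m _ => ?_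
    have h3 : ∑ d ∈ Ioc w (y / m), f d = ∑ d ∈ Icc 1 (y / m), if w < d then f d else 0 := by
      rw [← Finset.sum_filter]
      refine Finset.sum_congr ?_ fun _ _ => rfl
      ext d
      simp only [Finset.mem_Ioc, Finset.mem_filter, Finset.mem_Icc]
      omega
    rw [h3, Finset.mul_sum]
    refine Finset.sum_congr rfl fun d _ => ?_
    ring
  rw [h1, h2, ← PnL_pairs y (fun d m => (if w < d then f d else 0) * lio m),
    ← PnL_pairs y (fun m d => (if w < d then f d else 0) * lio m)]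
  refine Finset.sum_congr rfl fun n hn => ?_
  have h4 := Nat.sum_divisorsAntidiagonal (n := n) (fun d m => (if w < d then f d else 0) * lio m)
  have h5 := Nat.sum_divisorsAntidiagonal' (n := n) (fun d m => (if w < d then f d else 0) * lio m)
  rw [← h4, h5]

/-! ### analysis -/

private noncomputable def PnLq (y : ℕ) : ℝ := Real.sqrt (Real.sqrt (1 + Real.log y))

private theorem PnL_log_nonneg (y : ℕ) : 0 ≤ Real.log (y : ℝ) := Real.log_natCast_nonneg y

private theorem PnL_q4 (y : ℕ) : PnLq y ^ 4 = 1 + Real.log y := by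
  have h := PnL_log_nonneg y
  unfold PnLq
  have h1 : Real.sqrt (Real.sqrt (1 + Real.log y)) ^ 4
      = (Real.sqrt (Real.sqrt (1 + Real.log y)) ^ 2) ^ 2 := by ring
  rw [h1, Real.sq_sqrt (Real.sqrt_nonneg _), Real.sq_sqrt (by linarith)]

private theorem PnL_q_one (y : ℕ) : 1 ≤ PnLq y := by
  have h := PnL_log_nonneg y
  unfold PnLq
  rw [Real.one_le_sqrt, Real.one_le_sqrt]
  linarith

private theorem PnL_q_pos (y : ℕ) : 0 < PnLq y := lt_of_lt_of_le one_pos (PnL_q_one y)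

private theorem PnL_logpow (j : ℕ) (s : ℝ) (hs : 0 < s) : ∃ C : ℝ, 0 < C ∧ ∀ t : ℝ, 1 ≤ t →
    (1 + Real.log t) ^ j ≤ C * t ^ s := by
  rcases Nat.eq_zero_or_pos j with rfl | hj
  · refine ⟨1, one_pos, fun t ht => ?_⟩
    simpa using Real.one_le_rpow ht hs.le
  have hj' : (0 : ℝ) < j := by exact_mod_cast hj
  set e : ℝ := s / j with he
  have he0 : 0 < e := by rw [he]; positivity
  refine ⟨(1 + 1 / e) ^ j, by positivity, fun t ht => ?_⟩
  have h1 : 1 + Real.log t ≤ (1 + 1 / e) * t ^ e := by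
    have h2 := Real.log_le_rpow_div (by linarith : (0 : ℝ) ≤ t) he0
    have h3 := Real.one_le_rpow ht he0.le
    have h4 : (1 + 1 / e) * t ^ e = t ^ e + t ^ e / e := by ring
    linarith
  have h5 : 0 ≤ 1 + Real.log t := by
    have := Real.log_nonneg ht
    linarith
  calc (1 + Real.log t) ^ j ≤ ((1 + 1 / e) * t ^ e) ^ j := pow_le_pow_left₀ h5 h1 j
    _ = (1 + 1 / e) ^ j * t ^ s := by
        rw [mul_pow, ← Real.rpow_natCast (t ^ e) j, ← Real.rpow_mul (by linarith)]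
        congr 2
        rw [he]; field_simp

private theorem PnL_key (j : ℕ) (s : ℝ) (hs : 0 < s) : ∃ C : ℝ, 0 < C ∧ ∀ (u y : ℕ) (t : ℝ),
    1 ≤ u → 1 ≤ y → 1 ≤ t → (y : ℝ) ≤ u * t → PnLq y ^ j ≤ C * PnLq u ^ j * t ^ s := by
  obtain ⟨C, hC, h⟩ := PnL_logpow j s hs
  refine ⟨C, hC, fun u y t hu hy ht hyt => ?_⟩
  have hu' : (0 : ℝ) < u := by exact_mod_cast hu
  have hy' : (0 : ℝ) < y := by exact_mod_cast hy
  have hlt := Real.log_nonneg ht
  have hlu := PnL_log_nonneg u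
  have h1 : Real.log y ≤ Real.log u + Real.log t := by
    rw [← Real.log_mul hu'.ne' (by positivity)]
    exact Real.log_le_log hy' hyt
  have h2 : PnLq y ^ 4 ≤ (PnLq u * (1 + Real.log t)) ^ 4 := by
    rw [mul_pow, PnL_q4, PnL_q4]
    have h3 : (1 + Real.log t) ≤ (1 + Real.log t) ^ 4 :=
      le_self_pow₀ (by linarith) (by norm_num)
    calc 1 + Real.log y ≤ (1 + Real.log u) * (1 + Real.log t) := by nlinarith
      _ ≤ (1 + Real.log u) * (1 + Real.log t) ^ 4 :=
          mul_le_mul_of_nonneg_left h3 (by linarith)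
  have h4 : PnLq y ≤ PnLq u * (1 + Real.log t) :=
    le_of_pow_le_pow_left₀ (by norm_num) (by have := PnL_q_pos u; positivity) h2
  calc PnLq y ^ j ≤ (PnLq u * (1 + Real.log t)) ^ j := pow_le_pow_left₀ (PnL_q_pos y).le h4 j
    _ = PnLq u ^ j * (1 + Real.log t) ^ j := by rw [mul_pow]
    _ ≤ PnLq u ^ j * (C * t ^ s) :=
        mul_le_mul_of_nonneg_left (h t ht) (pow_nonneg (PnL_q_pos u).le _)
    _ = C * PnLq u ^ j * t ^ s := by ring

/-- `β(d) = Λ(d) (1 + λ(d))` is supported on squares and small -/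
private theorem PnL_beta (d : ℕ) : 0 ≤ Lam d * (1 + lio d) ∧ Lam d * (1 + lio d) ≤ 2 * Real.log d ∧
    (Lam d * (1 + lio d) ≠ 0 → IsSquare d) := by
  have h0 : 0 ≤ Lam d := ArithmeticFunction.vonMangoldt_nonneg
  have h1 : Lam d ≤ Real.log d := ArithmeticFunction.vonMangoldt_le_log
  have h2 := abs_le.1 (lio_abs_le d)
  refine ⟨mul_nonneg h0 (by linarith), ?_, ?_⟩
  · nlinarith
  · intro h
    have h3 : Lam d ≠ 0 := left_ne_zero_of_mul h
    have h4 : (1 + lio d) ≠ 0 := right_ne_zero_of_mul h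
    have h5 : IsPrimePow d := ArithmeticFunction.vonMangoldt_ne_zero_iff.1 h3
    obtain ⟨p, k, hp, hk, rfl⟩ := h5
    have hp' : p.Prime := Nat.prime_iff.2 hp
    have h6 : lio (p ^ k) = (-1) ^ k := by
      unfold lio
      rw [if_neg (pow_ne_zero _ hp'.ne_zero), ArithmeticFunction.cardFactors_apply_prime_pow hp']
    have h7 : Even k := by
      by_contra h8
      apply h4
      rw [h6, Odd.neg_one_pow (Nat.not_even_iff_odd.1 h8)]; ring
    exact h7.isSquare_pow p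

private theorem PnL_beta_sum : ∃ B : ℝ, 0 < B ∧ ∀ y : ℕ,
    ∑ d ∈ Icc 1 y, Lam d * (1 + lio d) * (d : ℝ) ^ (-(3 / 4) : ℝ) ≤ B := by
  set f : ℕ → ℝ := fun d => Lam d * (1 + lio d) * (d : ℝ) ^ (-(3 / 4) : ℝ) with hf
  have hf0 : ∀ d, 0 ≤ f d := fun d => mul_nonneg (PnL_beta d).1 (Real.rpow_nonneg (Nat.cast_nonneg _) _)
  have hinj : Function.Injective (fun r : ℕ => r ^ 2) := fun a b h => by
    simpa using h
  have hsupp : ∀ x ∉ Set.range (fun r : ℕ => r ^ 2), f x = 0 := by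
    intro x hx
    by_contra h
    apply hx
    obtain ⟨r, hr⟩ := (PnL_beta x).2.2 (left_ne_zero_of_mul h)
    exact ⟨r, by rw [hr]; ring⟩
  have hsum : Summable f := by
    rw [← hinj.summable_iff hsupp]
    have h1 : Summable (fun r : ℕ => 32 * ((r : ℝ) ^ (5 / 4 : ℝ))⁻¹) :=
      (Real.summable_nat_rpow_inv.2 (by norm_num)).mul_left _
    refine Summable.of_nonneg_of_le (fun r => hf0 _) (fun r => ?_) h1
    simp only [Function.comp_apply, hf]
    rcases Nat.eq_zero_or_pos r with rfl | hr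
    · simp [Lam]
    have hr' : (0 : ℝ) < r := by exact_mod_cast hr
    have h2 := (PnL_beta (r ^ 2)).2.1
    have h3 : Real.log ((r ^ 2 : ℕ) : ℝ) = 2 * Real.log r := by
      push_cast; rw [Real.log_pow]; norm_num
    have h4 : Real.log r ≤ (r : ℝ) ^ (1 / 4 : ℝ) / (1 / 4) :=
      Real.log_le_rpow_div hr'.le (by norm_num)
    have h5 : (((r ^ 2 : ℕ) : ℝ)) ^ (-(3 / 4) : ℝ) = (r : ℝ) ^ (-(3 / 2) : ℝ) := by
      push_cast
      rw [← Real.rpow_natCast, ← Real.rpow_mul hr'.le]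
      norm_num
    rw [h5]
    have h6 : (0 : ℝ) ≤ (r : ℝ) ^ (-(3 / 2) : ℝ) := Real.rpow_nonneg hr'.le _
    calc Lam (r ^ 2) * (1 + lio (r ^ 2)) * (r : ℝ) ^ (-(3 / 2) : ℝ)
        ≤ (32 * (r : ℝ) ^ (1 / 4 : ℝ)) * (r : ℝ) ^ (-(3 / 2) : ℝ) := by
          apply mul_le_mul_of_nonneg_right _ h6
          rw [h3] at h2
          have h7 : (0 : ℝ) ≤ (r : ℝ) ^ (1 / 4 : ℝ) := Real.rpow_nonneg hr'.le _
          linarith
      _ = 32 * ((r : ℝ) ^ (5 / 4 : ℝ))⁻¹ := by
          rw [mul_assoc, ← Real.rpow_add hr', ← Real.rpow_neg hr'.le]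
          norm_num
  refine ⟨∑' d, f d + 1, ?_, fun y => ?_⟩
  · have : 0 ≤ ∑' d, f d := tsum_nonneg hf0
    linarith
  · have := hsum.sum_le_tsum (Icc 1 y) (fun d _ => hf0 d)
    linarith

private theorem PnL_abel (y : ℕ) (hy : 1 ≤ y) :
    ∑ n ∈ Icc 1 y, lio n * (Real.log y - Real.log n)
      = ∑ u ∈ Ico 1 y, PnLA u * (Real.log ((u : ℝ) + 1) - Real.log u) := by
  induction y, hy using Nat.le_induction with
  | base => simp
  | succ y hy ih =>
    rw [Finset.sum_Ico_succ_top hy, ← ih, Finset.sum_Icc_succ_top (by omega)]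
    push_cast
    rw [sub_self, mul_zero, add_zero]
    unfold PnLA
    rw [Finset.sum_mul, ← Finset.sum_add_distrib]
    refine Finset.sum_congr rfl fun n _ => ?_
    ring

private theorem PnL_inv_sqrt (y : ℕ) : ∑ u ∈ Icc 1 y, (1 : ℝ) / Real.sqrt u ≤ 2 * Real.sqrt y := by
  induction y with
  | zero => simp
  | succ y ih =>
    rw [Finset.sum_Icc_succ_top (by omega)]
    have h0 : (0 : ℝ) ≤ y := Nat.cast_nonneg y
    have h1 : 0 < Real.sqrt ((y : ℝ) + 1) := Real.sqrt_pos.2 (by linarith)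
    have h2 : Real.sqrt (y : ℝ) ≤ Real.sqrt ((y : ℝ) + 1) := Real.sqrt_le_sqrt (by linarith)
    have h3 := Real.sqrt_nonneg (y : ℝ)
    have h4 : Real.sqrt ((y : ℝ) + 1) ^ 2 = y + 1 := Real.sq_sqrt (by linarith)
    have h5 : Real.sqrt (y : ℝ) ^ 2 = y := Real.sq_sqrt h0
    push_cast
    have h6 : 1 / Real.sqrt ((y : ℝ) + 1) ≤ 2 * (Real.sqrt ((y : ℝ) + 1) - Real.sqrt y) := by
      rw [div_le_iff₀ h1]
      nlinarith
    linarith

private theorem PnL_log_succ (u : ℕ) (hu : 1 ≤ u) :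
    |Real.log ((u : ℝ) + 1) - Real.log u| ≤ 1 / u := by
  have hu' : (0 : ℝ) < u := by exact_mod_cast hu
  rw [abs_of_nonneg (sub_nonneg.2 (Real.log_le_log hu' (by linarith))),
    ← Real.log_div (by positivity) hu'.ne']
  have h1 := Real.log_le_sub_one_of_pos (show (0 : ℝ) < ((u : ℝ) + 1) / u by positivity)
  refine h1.trans (le_of_eq ?_)
  field_simp
  ring

/-- second term -/
private theorem PnL_T1 (j : ℕ) (C : ℝ) (hC : 0 < C)
    (h : ∀ y : ℕ, 1 ≤ y → |PnLA y| ≤ C * y / PnLq y ^ (2 * j)) :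
    ∃ D : ℝ, 0 < D ∧ ∀ y : ℕ, 1 ≤ y →
      |∑ n ∈ Icc 1 y, lio n * (Real.log y - Real.log n)| ≤ D * y / PnLq y ^ (2 * j) := by
  obtain ⟨K, hK, hkey⟩ := PnL_key (2 * j) (1 / 2) (by norm_num)
  refine ⟨2 * C * K, by positivity, fun y hy => ?_⟩
  have hy' : (0 : ℝ) < y := by exact_mod_cast hy
  have hq := pow_pos (PnL_q_pos y) (2 * j)
  rw [PnL_abel y hy]
  refine (Finset.abs_sum_le_sum_abs _ _).trans ?_
  have h1 : ∀ u ∈ Ico 1 y, |PnLA u * (Real.log ((u : ℝ) + 1) - Real.log u)|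
      ≤ (C * K * Real.sqrt y / PnLq y ^ (2 * j)) * (1 / Real.sqrt u) := by
    intro u hu
    obtain ⟨hu1, hu2⟩ := Finset.mem_Ico.1 hu
    have hu' : (0 : ℝ) < u := by exact_mod_cast hu1
    have hqu := pow_pos (PnL_q_pos u) (2 * j)
    have hsu : 0 < Real.sqrt u := Real.sqrt_pos.2 hu'
    rw [abs_mul]
    have h2 := PnL_log_succ u hu1
    have h3 := h u hu1
    have huy : (u : ℝ) ≤ y := by exact_mod_cast hu2.le
    have h4 := hkey u y (y / u) hu1 hy (by rw [le_div_iff₀ hu']; linarith)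
      (by rw [mul_div_cancel₀ _ hu'.ne'])
    rw [← Real.sqrt_eq_rpow, Real.sqrt_div hy'.le] at h4
    have h5 : 1 / PnLq u ^ (2 * j) ≤ K * (Real.sqrt y / Real.sqrt u) / PnLq y ^ (2 * j) := by
      rw [div_le_div_iff₀ hqu hq]
      calc 1 * PnLq y ^ (2 * j) ≤ K * PnLq u ^ (2 * j) * (Real.sqrt y / Real.sqrt u) := by
            rw [one_mul]; exact h4
        _ = K * (Real.sqrt y / Real.sqrt u) * PnLq u ^ (2 * j) := by ring
    calc |PnLA u| * |Real.log ((u : ℝ) + 1) - Real.log u|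
        ≤ (C * u / PnLq u ^ (2 * j)) * (1 / u) :=
          mul_le_mul h3 h2 (abs_nonneg _) (by positivity)
      _ = C * (1 / PnLq u ^ (2 * j)) := by field_simp
      _ ≤ C * (K * (Real.sqrt y / Real.sqrt u) / PnLq y ^ (2 * j)) :=
          mul_le_mul_of_nonneg_left h5 hC.le
      _ = (C * K * Real.sqrt y / PnLq y ^ (2 * j)) * (1 / Real.sqrt u) := by ring
  refine (Finset.sum_le_sum h1).trans ?_
  rw [← Finset.mul_sum]
  have h6 : ∑ u ∈ Ico 1 y, (1 : ℝ) / Real.sqrt u ≤ 2 * Real.sqrt y := by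
    refine le_trans (Finset.sum_le_sum_of_subset_of_nonneg ?_ fun _ _ _ => by positivity)
      (PnL_inv_sqrt y)
    intro u hu
    simp only [Finset.mem_Ico, Finset.mem_Icc] at hu ⊢
    omega
  have h7 : 0 ≤ C * K * Real.sqrt y / PnLq y ^ (2 * j) := by positivity
  refine (mul_le_mul_of_nonneg_left h6 h7).trans (le_of_eq ?_)
  have h8 : Real.sqrt y * Real.sqrt y = y := Real.mul_self_sqrt hy'.le
  calc C * K * Real.sqrt y / PnLq y ^ (2 * j) * (2 * Real.sqrt y)
      = 2 * C * K * (Real.sqrt y * Real.sqrt y) / PnLq y ^ (2 * j) := by ring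
    _ = 2 * C * K * y / PnLq y ^ (2 * j) := by rw [h8]

/-- the squares -/
private theorem PnL_T4 (j : ℕ) (C : ℝ) (hC : 0 < C)
    (h : ∀ y : ℕ, 1 ≤ y → |PnLA y| ≤ C * y / PnLq y ^ (2 * j)) :
    ∃ D : ℝ, 0 < D ∧ ∀ y : ℕ, 1 ≤ y →
      |∑ d ∈ Icc 1 y, Lam d * (1 + lio d) * PnLA (y / d)| ≤ D * y / PnLq y ^ (2 * j) := by
  obtain ⟨K, hK, hkey⟩ := PnL_key (2 * j) (1 / 4) (by norm_num)
  obtain ⟨B, hB, hBs⟩ := PnL_beta_sum
  refine ⟨2 * C * K * B, by positivity, fun y hy => ?_⟩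
  have hy' : (0 : ℝ) < y := by exact_mod_cast hy
  have hq := pow_pos (PnL_q_pos y) (2 * j)
  refine (Finset.abs_sum_le_sum_abs _ _).trans ?_
  have h1 : ∀ d ∈ Icc 1 y, |Lam d * (1 + lio d) * PnLA (y / d)|
      ≤ (2 * C * K * y / PnLq y ^ (2 * j)) * (Lam d * (1 + lio d) * (d : ℝ) ^ (-(3 / 4) : ℝ)) := by
    intro d hd
    obtain ⟨hd1, hd2⟩ := Finset.mem_Icc.1 hd
    have hd' : (0 : ℝ) < d := by exact_mod_cast hd1
    have hd1' : (1 : ℝ) ≤ d := by exact_mod_cast hd1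
    have hu1 : 1 ≤ y / d := Nat.div_pos hd2 hd1
    have hqu := pow_pos (PnL_q_pos (y / d)) (2 * j)
    have hb := (PnL_beta d).1
    have h3 := h (y / d) hu1
    have h4 : (y : ℝ) ≤ ((y / d : ℕ) : ℝ) * (2 * d) := by
      have h5 : y < d * (y / d) + d := by
        have := Nat.div_add_mod y d
        have := Nat.mod_lt y hd1
        omega
      have h6 : d ≤ d * (y / d) := Nat.le_mul_of_pos_right d hu1
      have h7 : y ≤ (y / d) * (2 * d) := by
        calc y ≤ d * (y / d) + d * (y / d) := by omega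
          _ = (y / d) * (2 * d) := by ring
      exact_mod_cast h7
    have h8 := hkey (y / d) y (2 * d) hu1 hy (by linarith) h4
    have h9 : (2 * (d : ℝ)) ^ (1 / 4 : ℝ) ≤ 2 * (d : ℝ) ^ (1 / 4 : ℝ) := by
      rw [Real.mul_rpow (by norm_num) hd'.le]
      apply mul_le_mul_of_nonneg_right _ (Real.rpow_nonneg hd'.le _)
      calc (2 : ℝ) ^ (1 / 4 : ℝ) ≤ 2 ^ (1 : ℝ) :=
            Real.rpow_le_rpow_of_exponent_le (by norm_num) (by norm_num)
        _ = 2 := Real.rpow_one 2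
    have h10 : 1 / PnLq (y / d) ^ (2 * j) ≤ K * (2 * (d : ℝ) ^ (1 / 4 : ℝ)) / PnLq y ^ (2 * j) := by
      rw [div_le_div_iff₀ hqu hq]
      calc 1 * PnLq y ^ (2 * j) ≤ K * PnLq (y / d) ^ (2 * j) * (2 * (d : ℝ)) ^ (1 / 4 : ℝ) := by
            rw [one_mul]; exact h8
        _ ≤ K * PnLq (y / d) ^ (2 * j) * (2 * (d : ℝ) ^ (1 / 4 : ℝ)) :=
            mul_le_mul_of_nonneg_left h9 (by positivity)
        _ = K * (2 * (d : ℝ) ^ (1 / 4 : ℝ)) * PnLq (y / d) ^ (2 * j) := by ring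
    have h11 : ((y / d : ℕ) : ℝ) ≤ y / d := Nat.cast_div_le
    rw [abs_mul, abs_of_nonneg hb]
    have h12 : |PnLA (y / d)| ≤ (2 * C * K * y / PnLq y ^ (2 * j)) * (d : ℝ) ^ (-(3 / 4) : ℝ) := by
      calc |PnLA (y / d)| ≤ C * ((y / d : ℕ) : ℝ) / PnLq (y / d) ^ (2 * j) := h3
        _ = C * ((y / d : ℕ) : ℝ) * (1 / PnLq (y / d) ^ (2 * j)) := by ring
        _ ≤ C * (y / d) * (K * (2 * (d : ℝ) ^ (1 / 4 : ℝ)) / PnLq y ^ (2 * j)) := by
            apply mul_le_mul _ h10 (by positivity) (by positivity)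
            exact mul_le_mul_of_nonneg_left h11 hC.le
        _ = (2 * C * K * y / PnLq y ^ (2 * j)) * ((d : ℝ) ^ (1 / 4 : ℝ) * (d : ℝ) ^ (-1 : ℝ)) := by
            rw [Real.rpow_neg_one]; ring
        _ = (2 * C * K * y / PnLq y ^ (2 * j)) * (d : ℝ) ^ (-(3 / 4) : ℝ) := by
            rw [← Real.rpow_add hd']; norm_num
    calc Lam d * (1 + lio d) * |PnLA (y / d)|
        ≤ Lam d * (1 + lio d) * ((2 * C * K * y / PnLq y ^ (2 * j)) * (d : ℝ) ^ (-(3 / 4) : ℝ)) :=
          mul_le_mul_of_nonneg_left h12 hb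
      _ = _ := by ring
  refine (Finset.sum_le_sum h1).trans ?_
  rw [← Finset.mul_sum]
  have h7 : 0 ≤ 2 * C * K * y / PnLq y ^ (2 * j) := by positivity
  refine (mul_le_mul_of_nonneg_left (hBs y) h7).trans (le_of_eq ?_)
  ring

private theorem PnL_harm (w : ℕ) : ∑ d ∈ Icc 1 w, (1 : ℝ) / d ≤ 1 + Real.log w := by
  have h := harmonic_le_one_add_log w
  rw [harmonic_eq_sum_Icc] at h
  push_cast at h
  simpa using h

/-- the range `d ≤ w` -/
private theorem PnL_T2 (j : ℕ) (C : ℝ) (hC : 0 < C)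
    (h : ∀ y : ℕ, 1 ≤ y → |PnLA y| ≤ C * y / PnLq y ^ (2 * j)) (y w : ℕ) (hy : 1 ≤ y) (hw1 : 1 ≤ w)
    (hq2 : 2 ≤ PnLq y) (hw : (w : ℝ) ≤ 2 * Real.exp (PnLq y)) :
    |∑ d ∈ (Icc 1 y).filter (fun d => ¬ w < d), (Lam d - 1) * PnLA (y / d)|
      ≤ (4 * C * 2 ^ (2 * j)) * y * PnLq y ^ 2 / PnLq y ^ (2 * j) := by
  have hy' : (0 : ℝ) < y := by exact_mod_cast hy
  have hw' : (0 : ℝ) < w := by exact_mod_cast hw1
  have hq := pow_pos (PnL_q_pos y) (2 * j)
  have hq0 := PnL_q_pos y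
  have hl2 : Real.log 2 ≤ 1 := by
    have := Real.log_two_lt_d9; linarith
  have hlw : Real.log w ≤ 1 + PnLq y := by
    have h1 := Real.log_le_log hw' hw
    rw [Real.log_mul (by norm_num) (Real.exp_pos _).ne', Real.log_exp] at h1
    linarith
  have hlw0 := PnL_log_nonneg w
  have hlw2 : 1 + Real.log w ≤ 2 * PnLq y := by linarith
  refine (Finset.abs_sum_le_sum_abs _ _).trans ?_
  have h1 : ∀ d ∈ (Icc 1 y).filter (fun d => ¬ w < d), |(Lam d - 1) * PnLA (y / d)|
      ≤ (2 * PnLq y * C * 2 ^ (2 * j) * y / PnLq y ^ (2 * j)) * (1 / d) := by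
    intro d hd
    obtain ⟨hd0, hd3⟩ := Finset.mem_filter.1 hd
    obtain ⟨hd1, hd2⟩ := Finset.mem_Icc.1 hd0
    have hdw : d ≤ w := by omega
    have hd' : (0 : ℝ) < d := by exact_mod_cast hd1
    have hdw' : (d : ℝ) ≤ w := by exact_mod_cast hdw
    have hu1 : 1 ≤ y / d := Nat.div_pos hd2 hd1
    have hqu := pow_pos (PnL_q_pos (y / d)) (2 * j)
    have hL0 : 0 ≤ Lam d := ArithmeticFunction.vonMangoldt_nonneg
    have hL1 : Lam d ≤ Real.log d := ArithmeticFunction.vonMangoldt_le_log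
    have hld : Real.log d ≤ Real.log w := Real.log_le_log hd' hdw'
    have h2 : |Lam d - 1| ≤ 2 * PnLq y := by
      rw [abs_le]; constructor <;> linarith
    have h3 := h (y / d) hu1
    have h4 : (y : ℝ) ≤ ((y / d : ℕ) : ℝ) * (2 * d) := by
      have h5 : y < d * (y / d) + d := by
        have := Nat.div_add_mod y d
        have := Nat.mod_lt y hd1
        omega
      have h6 : d ≤ d * (y / d) := Nat.le_mul_of_pos_right d hu1
      have h7 : y ≤ (y / d) * (2 * d) := by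
        calc y ≤ d * (y / d) + d * (y / d) := by omega
          _ = (y / d) * (2 * d) := by ring
      exact_mod_cast h7
    have hu' : (0 : ℝ) < ((y / d : ℕ) : ℝ) := by exact_mod_cast hu1
    have h5 : Real.log y ≤ Real.log ((y / d : ℕ) : ℝ) + (Real.log 2 + Real.log d) := by
      rw [← Real.log_mul (by norm_num) hd'.ne', ← Real.log_mul hu'.ne' (by positivity)]
      exact Real.log_le_log hy' h4
    have h6 : (PnLq y / 2) ^ 4 ≤ PnLq (y / d) ^ 4 := by
      have e1 := PnL_q4 y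
      have e2 := PnL_q4 (y / d)
      rw [div_pow, e2]
      have e3 : PnLq y ^ 4 ≥ 8 * PnLq y := by
        have : PnLq y ^ 3 ≥ 2 ^ 3 := pow_le_pow_left₀ (by norm_num) hq2 3
        nlinarith
      have e4 : 1 + Real.log ((y / d : ℕ) : ℝ) ≥ PnLq y ^ 4 - (2 + PnLq y) := by
        rw [e1]; linarith
      linarith
    have h7 : PnLq y / 2 ≤ PnLq (y / d) :=
      le_of_pow_le_pow_left₀ (by norm_num) (PnL_q_pos _).le h6
    have h8 : 1 / PnLq (y / d) ^ (2 * j) ≤ 2 ^ (2 * j) / PnLq y ^ (2 * j) := by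
      rw [div_le_div_iff₀ hqu hq]
      have h9 : PnLq y ≤ 2 * PnLq (y / d) := by linarith
      calc 1 * PnLq y ^ (2 * j) ≤ (2 * PnLq (y / d)) ^ (2 * j) := by
            rw [one_mul]; exact pow_le_pow_left₀ hq0.le h9 _
        _ = 2 ^ (2 * j) * PnLq (y / d) ^ (2 * j) := by rw [mul_pow]
    have h11 : ((y / d : ℕ) : ℝ) ≤ y / d := Nat.cast_div_le
    rw [abs_mul]
    calc |Lam d - 1| * |PnLA (y / d)|
        ≤ (2 * PnLq y) * (C * ((y / d : ℕ) : ℝ) / PnLq (y / d) ^ (2 * j)) :=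
          mul_le_mul h2 h3 (abs_nonneg _) (by positivity)
      _ = (2 * PnLq y) * (C * ((y / d : ℕ) : ℝ) * (1 / PnLq (y / d) ^ (2 * j))) := by ring
      _ ≤ (2 * PnLq y) * (C * (y / d) * (2 ^ (2 * j) / PnLq y ^ (2 * j))) := by
          apply mul_le_mul_of_nonneg_left _ (by positivity)
          apply mul_le_mul _ h8 (by positivity) (by positivity)
          exact mul_le_mul_of_nonneg_left h11 hC.le
      _ = (2 * PnLq y * C * 2 ^ (2 * j) * y / PnLq y ^ (2 * j)) * (1 / d) := by ring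
  refine (Finset.sum_le_sum h1).trans ?_
  rw [← Finset.mul_sum]
  have h6 : ∑ d ∈ (Icc 1 y).filter (fun d => ¬ w < d), (1 : ℝ) / d ≤ 2 * PnLq y := by
    refine le_trans (le_trans (Finset.sum_le_sum_of_subset_of_nonneg ?_ fun _ _ _ => by positivity)
      (PnL_harm w)) hlw2
    intro u hu
    simp only [Finset.mem_filter, Finset.mem_Icc] at hu ⊢
    omega
  have h7 : 0 ≤ 2 * PnLq y * C * 2 ^ (2 * j) * y / PnLq y ^ (2 * j) := by positivity
  refine (mul_le_mul_of_nonneg_left h6 h7).trans (le_of_eq ?_)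
  ring

/-- the range `d > w` -/
private theorem PnL_T3 (j : ℕ) : ∃ D : ℝ, 0 < D ∧ ∀ y w : ℕ, 1 ≤ y → 2 ≤ PnLq y →
    Real.exp (PnLq y) ≤ w →
    |∑ m ∈ Icc 1 y, lio m * ∑ d ∈ Ioc w (y / m), (Lam d - 1)| ≤ D * y / PnLq y ^ (2 * j) := by
  obtain ⟨C, hC, hpnt⟩ := Pool.Agent.H91.EHA.pnt (2 * j + 4)
  refine ⟨2 * C, by positivity, fun y w hy hq2 hw => ?_⟩
  have hy' : (0 : ℝ) < y := by exact_mod_cast hy
  have hq0 := PnL_q_pos y
  have hqc := pow_pos hq0 (2 * j + 4)
  have hw' : (0 : ℝ) < w := lt_of_lt_of_le (Real.exp_pos _) hw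
  have hlw : PnLq y ≤ Real.log w := by
    have := Real.log_le_log (Real.exp_pos _) hw
    rwa [Real.log_exp] at this
  have hw2 : 2 ≤ w := by
    have h1 : (2 : ℝ) ≤ w := by
      have := Real.add_one_le_exp (PnLq y)
      linarith
    exact_mod_cast h1
  have hR : ∀ v : ℕ, w ≤ v → |(∑ n ∈ Icc 1 v, Lam n) - v| ≤ C * v / PnLq y ^ (2 * j + 4) := by
    intro v hv
    have hv' : (w : ℝ) ≤ v := by exact_mod_cast hv
    have h1 := hpnt v (by omega)
    refine h1.trans ?_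
    have h2 : PnLq y ≤ Real.log v := hlw.trans (Real.log_le_log hw' hv')
    exact div_le_div_of_nonneg_left (by positivity) hqc (pow_le_pow_left₀ hq0.le h2 _)
  have hin : ∀ m ∈ Icc 1 y, |lio m * ∑ d ∈ Ioc w (y / m), (Lam d - 1)|
      ≤ (2 * C * y / PnLq y ^ (2 * j + 4)) * (1 / m) := by
    intro m hm
    obtain ⟨hm1, hm2⟩ := Finset.mem_Icc.1 hm
    have hm' : (0 : ℝ) < m := by exact_mod_cast hm1
    have h11 : ((y / m : ℕ) : ℝ) ≤ y / m := Nat.cast_div_le
    have hmain : |∑ d ∈ Ioc w (y / m), (Lam d - 1)| ≤ (2 * C * y / PnLq y ^ (2 * j + 4)) * (1 / m) := by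
      rcases Nat.lt_or_ge (y / m) w with hlt | hge
      · rw [Finset.Ioc_eq_empty (by omega), Finset.sum_empty, abs_zero]
        positivity
      · set v := y / m with hv
        have e1 : ∑ d ∈ Ioc w v, (Lam d - 1)
            = ((∑ n ∈ Icc 1 v, Lam n) - v) - ((∑ n ∈ Icc 1 w, Lam n) - w) := by
          have e2 : Icc 1 v = Icc 1 w ∪ Ioc w v := by
            ext n; simp only [Finset.mem_union, Finset.mem_Icc, Finset.mem_Ioc]; omega
          have e3 : Disjoint (Icc 1 w) (Ioc w v) := by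
            rw [Finset.disjoint_left]
            intro n; simp only [Finset.mem_Icc, Finset.mem_Ioc]; omega
          rw [e2, Finset.sum_union e3, Finset.sum_sub_distrib]
          simp only [Finset.sum_const, Nat.card_Ioc, nsmul_eq_mul, mul_one]
          rw [Nat.cast_sub hge]
          ring
        rw [e1]
        have h1 := hR v hge
        have h2 := hR w le_rfl
        have hwv : (w : ℝ) ≤ v := by exact_mod_cast hge
        have h3 : C * w / PnLq y ^ (2 * j + 4) ≤ C * v / PnLq y ^ (2 * j + 4) :=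
          div_le_div_of_nonneg_right (mul_le_mul_of_nonneg_left hwv hC.le) hqc.le
        have h4 : C * v / PnLq y ^ (2 * j + 4) ≤ C * (y / m) / PnLq y ^ (2 * j + 4) :=
          div_le_div_of_nonneg_right (mul_le_mul_of_nonneg_left h11 hC.le) hqc.le
        refine (abs_sub _ _).trans ?_
        calc |(∑ n ∈ Icc 1 v, Lam n) - v| + |(∑ n ∈ Icc 1 w, Lam n) - w|
            ≤ C * (y / m) / PnLq y ^ (2 * j + 4) + C * (y / m) / PnLq y ^ (2 * j + 4) := by
              linarith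
          _ = (2 * C * y / PnLq y ^ (2 * j + 4)) * (1 / m) := by ring
    rw [abs_mul]
    calc |lio m| * |∑ d ∈ Ioc w (y / m), (Lam d - 1)|
        ≤ 1 * |∑ d ∈ Ioc w (y / m), (Lam d - 1)| :=
          mul_le_mul_of_nonneg_right (lio_abs_le m) (abs_nonneg _)
      _ ≤ _ := by rw [one_mul]; exact hmain
  refine (Finset.abs_sum_le_sum_abs _ _).trans ((Finset.sum_le_sum hin).trans ?_)
  rw [← Finset.mul_sum]
  have h7 : 0 ≤ 2 * C * y / PnLq y ^ (2 * j + 4) := by positivity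
  refine (mul_le_mul_of_nonneg_left (PnL_harm y) h7).trans (le_of_eq ?_)
  rw [← PnL_q4 y, pow_add]
  have hq := pow_pos hq0 (2 * j)
  field_simp

private theorem PnL_step (j : ℕ)
    (h : ∃ C : ℝ, 0 < C ∧ ∀ y : ℕ, 1 ≤ y → |PnLA y| ≤ C * y / PnLq y ^ (2 * j)) :
    ∃ C : ℝ, 0 < C ∧ ∀ y : ℕ, 1 ≤ y → |PnLA y| ≤ C * y / PnLq y ^ (2 * (j + 1)) := by
  obtain ⟨C, hC, hA⟩ := h
  obtain ⟨D1, hD1, hT1⟩ := PnL_T1 j C hC hA
  obtain ⟨D3, hD3, hT3⟩ := PnL_T3 j
  obtain ⟨D4, hD4, hT4⟩ := PnL_T4 j C hC hA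
  obtain ⟨K, hK, hkey⟩ := PnL_key (2 * j) (1 / 2) (by norm_num)
  set D2 : ℝ := 4 * C * 2 ^ (2 * j) with hD2
  have hD20 : 0 < D2 := by positivity
  refine ⟨2 * (D1 + D2 + D3 + D4 + K) + 2 ^ (2 * (j + 1)), by positivity, fun y hy => ?_⟩
  have hy' : (0 : ℝ) < y := by exact_mod_cast hy
  have hy1 : (1 : ℝ) ≤ y := by exact_mod_cast hy
  have hq0 := PnL_q_pos y
  have hqj := pow_pos hq0 (2 * j)
  have hqj1 := pow_pos hq0 (2 * (j + 1))
  rcases le_or_gt (PnLq y) 2 with hq2 | hq2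
  · refine (PnL_A_abs y).trans ?_
    rw [le_div_iff₀ hqj1]
    have h1 : PnLq y ^ (2 * (j + 1)) ≤ 2 ^ (2 * (j + 1)) := pow_le_pow_left₀ hq0.le hq2 _
    calc (y : ℝ) * PnLq y ^ (2 * (j + 1)) ≤ y * 2 ^ (2 * (j + 1)) :=
          mul_le_mul_of_nonneg_left h1 hy'.le
      _ ≤ (2 * (D1 + D2 + D3 + D4 + K) + 2 ^ (2 * (j + 1))) * y := by
          have : 0 ≤ 2 * (D1 + D2 + D3 + D4 + K) * y := by positivity
          linarith
  · set w : ℕ := ⌈Real.exp (PnLq y)⌉₊ with hw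
    have hw1 : Real.exp (PnLq y) ≤ w := Nat.le_ceil _
    have hw2 : (w : ℝ) ≤ 2 * Real.exp (PnLq y) := by
      have h1 := Nat.ceil_lt_add_one (Real.exp_pos (PnLq y)).le
      have h2 := Real.one_le_exp hq0.le
      linarith
    have hw3 : 1 ≤ w := by
      have : (0 : ℝ) < w := lt_of_lt_of_le (Real.exp_pos _) hw1
      exact_mod_cast this
    have t1 := hT1 y hy
    have t2 := PnL_T2 j C hC hA y w hy hw3 hq2.le hw2
    have t3 := hT3 y w hy hq2.le hw1
    rw [← PnL_inter y w (fun d => Lam d - 1)] at t3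
    have t4 := hT4 y hy
    have t5 := PnL_sumA y
    -- the square root
    have t6 : Real.sqrt y ≤ K * y / PnLq y ^ (2 * j) := by
      have h1 := hkey 1 y y le_rfl hy hy1 (by simp)
      have h2 : PnLq 1 = 1 := by simp [PnLq]
      rw [h2, one_pow, mul_one, ← Real.sqrt_eq_rpow] at h1
      rw [le_div_iff₀ hqj]
      have h3 := Real.sqrt_nonneg (y : ℝ)
      calc Real.sqrt y * PnLq y ^ (2 * j) ≤ Real.sqrt y * (K * Real.sqrt y) :=
            mul_le_mul_of_nonneg_left h1 h3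
        _ = K * (Real.sqrt y * Real.sqrt y) := by ring
        _ = K * y := by rw [Real.mul_self_sqrt hy'.le]
    -- splitting
    have e1 : ∑ n ∈ Icc 1 y, lio n * Real.log n
        = ∑ d ∈ Icc 1 y, Lam d * (1 + lio d) * PnLA (y / d)
          - (∑ d ∈ (Icc 1 y).filter (fun d => w < d), (Lam d - 1) * PnLA (y / d)
            + ∑ d ∈ (Icc 1 y).filter (fun d => ¬ w < d), (Lam d - 1) * PnLA (y / d))
          - ∑ d ∈ Icc 1 y, PnLA (y / d) := by
      rw [PnL_log, Finset.sum_filter_add_sum_filter_not, ← Finset.sum_sub_distrib,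
        ← Finset.sum_sub_distrib]
      refine Finset.sum_congr rfl fun d _ => ?_
      ring
    have e2 : PnLA y * Real.log y = ∑ n ∈ Icc 1 y, lio n * (Real.log y - Real.log n)
        + ∑ n ∈ Icc 1 y, lio n * Real.log n := by
      unfold PnLA
      rw [Finset.sum_mul, ← Finset.sum_add_distrib]
      refine Finset.sum_congr rfl fun n _ => ?_
      ring
    set Q : ℝ := y * PnLq y ^ 2 / PnLq y ^ (2 * j) with hQ
    have hq1 : 1 ≤ PnLq y ^ 2 := one_le_pow₀ (PnL_q_one y)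
    have hQ1 : ∀ D : ℝ, 0 < D → D * y / PnLq y ^ (2 * j) ≤ D * Q := by
      intro D hD
      rw [hQ, ← mul_div_assoc]
      apply div_le_div_of_nonneg_right _ hqj.le
      have : (y : ℝ) ≤ y * PnLq y ^ 2 := le_mul_of_one_le_right hy'.le hq1
      calc D * y ≤ D * (y * PnLq y ^ 2) := mul_le_mul_of_nonneg_left this hD.le
        _ = D * (y * PnLq y ^ 2) := rfl
    have t2' : |∑ d ∈ (Icc 1 y).filter (fun d => ¬ w < d), (Lam d - 1) * PnLA (y / d)| ≤ D2 * Q := by
      refine t2.trans (le_of_eq ?_)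
      rw [hQ]; ring
    have hfin : |PnLA y * Real.log y| ≤ (D1 + D2 + D3 + D4 + K) * Q := by
      rw [e2, e1]
      have a1 := abs_le.1 (t1.trans (hQ1 D1 hD1))
      have a2 := abs_le.1 t2'
      have a3 := abs_le.1 (t3.trans (hQ1 D3 hD3))
      have a4 := abs_le.1 (t4.trans (hQ1 D4 hD4))
      have a5 := abs_le.1 (t5.trans (t6.trans (hQ1 K hK)))
      rw [abs_le]
      constructor
      · linarith [a1.1, a2.2, a3.2, a4.1, a5.2]
      · linarith [a1.2, a2.1, a3.1, a4.2, a5.1]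
    have hlog : PnLq y ^ 4 / 2 ≤ Real.log y := by
      have h1 := PnL_q4 y
      have h2 : (2 : ℝ) ^ 4 ≤ PnLq y ^ 4 := pow_le_pow_left₀ (by norm_num) hq2.le 4
      linarith
    have hl0 : 0 ≤ Real.log y := PnL_log_nonneg y
    rw [abs_mul, abs_of_nonneg hl0] at hfin
    have hfin2 : |PnLA y| * (PnLq y ^ 4 / 2) ≤ (D1 + D2 + D3 + D4 + K) * Q :=
      (mul_le_mul_of_nonneg_left hlog (abs_nonneg _)).trans hfin
    have hq4 := pow_pos hq0 4
    have h3 : |PnLA y| ≤ 2 * (D1 + D2 + D3 + D4 + K) * y / PnLq y ^ (2 * (j + 1)) := by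
      rw [le_div_iff₀ hqj1]
      have h4 : |PnLA y| * (PnLq y ^ 4 / 2) * PnLq y ^ (2 * j)
          ≤ (D1 + D2 + D3 + D4 + K) * (y * PnLq y ^ 2) := by
        have h5 := mul_le_mul_of_nonneg_right hfin2 hqj.le
        refine h5.trans (le_of_eq ?_)
        rw [hQ]
        field_simp
      have h6 : PnLq y ^ 4 = PnLq y ^ 2 * PnLq y ^ 2 := by ring
      have h7 : PnLq y ^ (2 * (j + 1)) = PnLq y ^ (2 * j) * PnLq y ^ 2 := by ring
      rw [h7]
      rw [h6] at h4
      have hq2p : 0 < PnLq y ^ 2 := by positivity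
      have h8 : (|PnLA y| * (PnLq y ^ (2 * j) * PnLq y ^ 2)) * PnLq y ^ 2
          ≤ (2 * (D1 + D2 + D3 + D4 + K) * y) * PnLq y ^ 2 := by
        calc (|PnLA y| * (PnLq y ^ (2 * j) * PnLq y ^ 2)) * PnLq y ^ 2
            = 2 * (|PnLA y| * (PnLq y ^ 2 * PnLq y ^ 2 / 2) * PnLq y ^ (2 * j)) := by ring
          _ ≤ 2 * ((D1 + D2 + D3 + D4 + K) * (y * PnLq y ^ 2)) := by linarith
          _ = (2 * (D1 + D2 + D3 + D4 + K) * y) * PnLq y ^ 2 := by ring
      exact le_of_mul_le_mul_right h8 hq2p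
    refine h3.trans ?_
    apply div_le_div_of_nonneg_right _ hqj1.le
    apply mul_le_mul_of_nonneg_right _ hy'.le
    have : (0 : ℝ) < 2 ^ (2 * (j + 1)) := by positivity
    linarith

private theorem PnL_all (j : ℕ) :
    ∃ C : ℝ, 0 < C ∧ ∀ y : ℕ, 1 ≤ y → |PnLA y| ≤ C * y / PnLq y ^ (2 * j) := by
  induction j with
  | zero =>
    refine ⟨1, one_pos, fun y _ => ?_⟩
    simpa using PnL_A_abs y
  | succ j ih => exact PnL_step j ih

theorem pn_l (K : ℕ) : ∃ x0 : ℕ, ∀ x : ℕ, x0 ≤ x → ∀ y : ℕ, y ≤ x →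
    |∑ n ∈ Icc 1 y, lio n| ≤ x / Real.log x ^ K := by
  obtain ⟨C, hC, hA⟩ := PnL_all (2 * (K + 1))
  obtain ⟨D, hD, hkey⟩ := PnL_key (2 * (2 * (K + 1))) (1 / 2) (by norm_num)
  obtain ⟨x0, hx0⟩ := log_ge (max 1 (C * D))
  refine ⟨max 1 x0, fun x hx y hyx => ?_⟩
  have hx1 : 1 ≤ x := (le_max_left _ _).trans hx
  have hL := hx0 x ((le_max_right _ _).trans hx)
  have hL1 : 1 ≤ Real.log x := (le_max_left _ _).trans hL
  have hL2 : C * D ≤ Real.log x := (le_max_right _ _).trans hL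
  have hx' : (0 : ℝ) < x := by exact_mod_cast hx1
  rcases Nat.eq_zero_or_pos y with rfl | hy
  · simp only [Finset.Icc_eq_empty (show ¬ (1 ≤ 0) by norm_num), Finset.sum_empty, abs_zero]
    positivity
  have hy' : (0 : ℝ) < y := by exact_mod_cast hy
  have hyx' : (y : ℝ) ≤ x := by exact_mod_cast hyx
  have h1 := hA y hy
  unfold PnLA at h1
  refine h1.trans ?_
  have h2 := hkey y x (x / y) hy hx1 (by rw [le_div_iff₀ hy']; linarith)
    (by rw [mul_div_cancel₀ _ hy'.ne'])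
  have h3 : ((x : ℝ) / y) ^ (1 / 2 : ℝ) ≤ x / y := by
    have h4 : (1 : ℝ) ≤ x / y := by rw [le_div_iff₀ hy']; linarith
    calc ((x : ℝ) / y) ^ (1 / 2 : ℝ) ≤ ((x : ℝ) / y) ^ (1 : ℝ) :=
          Real.rpow_le_rpow_of_exponent_le h4 (by norm_num)
      _ = x / y := Real.rpow_one _
  have hqy := pow_pos (PnL_q_pos y) (2 * (2 * (K + 1)))
  have hqx := pow_pos (PnL_q_pos x) (2 * (2 * (K + 1)))
  have h5 : PnLq x ^ (2 * (2 * (K + 1))) ≤ D * PnLq y ^ (2 * (2 * (K + 1))) * (x / y) :=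
    h2.trans (mul_le_mul_of_nonneg_left h3 (by positivity))
  have h6 : PnLq x ^ (2 * (2 * (K + 1))) = (1 + Real.log x) ^ (K + 1) := by
    rw [← PnL_q4 x, ← pow_mul]
    congr 1; ring
  have h7 : C * y / PnLq y ^ (2 * (2 * (K + 1))) ≤ C * D * x / PnLq x ^ (2 * (2 * (K + 1))) := by
    rw [div_le_div_iff₀ hqy hqx]
    calc C * y * PnLq x ^ (2 * (2 * (K + 1)))
        ≤ C * y * (D * PnLq y ^ (2 * (2 * (K + 1))) * (x / y)) :=
          mul_le_mul_of_nonneg_left h5 (by positivity)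
      _ = C * D * x * PnLq y ^ (2 * (2 * (K + 1))) := by field_simp
  refine h7.trans ?_
  rw [h6, div_le_div_iff₀ (by positivity) (by positivity)]
  calc C * D * x * Real.log x ^ K ≤ Real.log x * x * Real.log x ^ K := by
        apply mul_le_mul_of_nonneg_right _ (by positivity)
        exact mul_le_mul_of_nonneg_right hL2 hx'.le
    _ = x * Real.log x ^ (K + 1) := by ring
    _ ≤ x * (1 + Real.log x) ^ (K + 1) := by
        apply mul_le_mul_of_nonneg_left _ hx'.le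
        exact pow_le_pow_left₀ (by linarith) (by linarith) _

end Pool.Agent.H76.MU

end

section

/-!
# MU SqW: multiples of squares of large primes in short windows

Proof (part of `VarE.lean`, by helper56: copy).  `b(j)` = number of `n ∈ Ico (j - w) j` divisible by `p^2` for a prime `p > P`; `0 ≤ b(j) ≤ w`, so `b^2 ≤ w b`, and
`∑_j b(j) ≤ w · #{n ∈ Icc 1 (2X) : ∃ p > P prime, p^2 | n} ≤ w ∑_{p > P} 2X/p^2 ≤ 2 X w/P` (each `n` lies in at most `w` windows; `w ≤ X < j`, so `n ≥ 1`).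
-/

set_option autoImplicit false

namespace Pool.Agent.H76.MU

open Finset

open Classical in
private noncomputable def SqW_s (P n : ℕ) : ℝ :=
  if ∃ p, P < p ∧ p.Prime ∧ p ^ 2 ∣ n then 1 else 0

private theorem SqW_s_nonneg (P n : ℕ) : 0 ≤ SqW_s P n := by
  unfold SqW_s
  split_ifs <;> norm_num

private theorem SqW_s_le (P n : ℕ) : SqW_s P n ≤ 1 := by
  unfold SqW_s
  split_ifs <;> norm_num

private theorem SqW_count (P N : ℕ) (hP : 1 ≤ P) :
    ∑ n ∈ Icc 1 N, SqW_s P n ≤ (N : ℝ) / P := by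
  classical
  by_cases hN : P ≤ N
  · have h1 : ∑ n ∈ Icc 1 N, SqW_s P n
        ≤ ∑ n ∈ Icc 1 N, ∑ k ∈ Ioc P N, (if k ^ 2 ∣ n then (1 : ℝ) else 0) := by
      refine Finset.sum_le_sum fun n hn => ?_
      have hn1 := Finset.mem_Icc.1 hn
      by_cases hs : ∃ p, P < p ∧ p.Prime ∧ p ^ 2 ∣ n
      · obtain ⟨p, hp1, hp2, hp3⟩ := hs
        have hpN : p ≤ N := by
          have h3 : p ^ 2 ≤ n := Nat.le_of_dvd (by omega) hp3
          have h4 : p ≤ p ^ 2 := by nlinarith [hp2.pos]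
          omega
        have h5 : (if p ^ 2 ∣ n then (1 : ℝ) else 0)
            ≤ ∑ k ∈ Ioc P N, (if k ^ 2 ∣ n then (1 : ℝ) else 0) := by
          refine Finset.single_le_sum (f := fun k : ℕ => (if k ^ 2 ∣ n then (1 : ℝ) else 0))
            (fun k _ => ?_) (Finset.mem_Ioc.2 ⟨hp1, hpN⟩)
          split_ifs <;> norm_num
        rw [if_pos hp3] at h5
        exact (SqW_s_le P n).trans h5
      · have h6 : SqW_s P n = 0 := by
          unfold SqW_s
          rw [if_neg hs]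
        rw [h6]
        refine Finset.sum_nonneg fun k _ => ?_
        split_ifs <;> norm_num
    refine h1.trans ?_
    rw [Finset.sum_comm]
    have h2 : ∀ k ∈ Ioc P N, ∑ n ∈ Icc 1 N, (if k ^ 2 ∣ n then (1 : ℝ) else 0)
        ≤ (N : ℝ) * ((k : ℝ) ^ 2)⁻¹ := by
      intro k hk
      have hk1 := Finset.mem_Ioc.1 hk
      rw [Finset.sum_ite, Finset.sum_const_zero, add_zero, Finset.sum_const, nsmul_eq_mul, mul_one]
      have h3 : ((Icc 1 N).filter (fun n => k ^ 2 ∣ n)).card = N / k ^ 2 := by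
        have := Nat.Ioc_filter_dvd_card_eq_div N (k ^ 2)
        rw [← this]
        rfl
      rw [h3]
      have h4 : ((N / k ^ 2 : ℕ) : ℝ) ≤ (N : ℝ) / ((k ^ 2 : ℕ) : ℝ) := Nat.cast_div_le
      rw [Nat.cast_pow] at h4
      rw [div_eq_mul_inv] at h4
      exact h4
    refine (Finset.sum_le_sum h2).trans ?_
    rw [← Finset.mul_sum]
    have h3 : ∑ k ∈ Ioc P N, ((k : ℝ) ^ 2)⁻¹ ≤ (P : ℝ)⁻¹ - (N : ℝ)⁻¹ :=
      sum_Ioc_inv_sq_le_sub (by omega) hN
    have h4 : (0 : ℝ) ≤ (N : ℝ)⁻¹ := by positivity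
    have h5 : ∑ k ∈ Ioc P N, ((k : ℝ) ^ 2)⁻¹ ≤ (P : ℝ)⁻¹ := by linarith
    calc (N : ℝ) * ∑ k ∈ Ioc P N, ((k : ℝ) ^ 2)⁻¹ ≤ (N : ℝ) * (P : ℝ)⁻¹ :=
          mul_le_mul_of_nonneg_left h5 (Nat.cast_nonneg _)
      _ = (N : ℝ) / P := (div_eq_mul_inv _ _).symm
  · have h1 : ∑ n ∈ Icc 1 N, SqW_s P n = 0 := by
      refine Finset.sum_eq_zero fun n hn => ?_
      have hn1 := Finset.mem_Icc.1 hn
      unfold SqW_s
      rw [if_neg]
      rintro ⟨p, hp1, hp2, hp3⟩
      have h3 : p ^ 2 ≤ n := Nat.le_of_dvd (by omega) hp3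
      have h4 : p ≤ p ^ 2 := by nlinarith [hp2.pos]
      omega
    rw [h1]
    positivity

open Classical in
private theorem SqW_card (P : ℕ) (S : Finset ℕ) :
    ∑ n ∈ S, SqW_s P n =
      ((S.filter (fun n => ∃ p, P < p ∧ p.Prime ∧ p ^ 2 ∣ n)).card : ℝ) := by
  unfold SqW_s
  rw [Finset.sum_ite, Finset.sum_const_zero, add_zero, Finset.sum_const, nsmul_eq_mul, mul_one]

private theorem SqW_windows (P h X : ℕ) (hX : h ≤ X) :
    ∑ j ∈ Ioc X (2 * X), ∑ n ∈ Ico (j - h) j, SqW_s P n ≤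
      (h : ℝ) * ∑ n ∈ Icc 1 (2 * X), SqW_s P n := by
  classical
  have h1 : ∀ j ∈ Ioc X (2 * X), ∑ n ∈ Ico (j - h) j, SqW_s P n
      = ∑ n ∈ Icc 1 (2 * X), (if n ∈ Ico (j - h) j then SqW_s P n else 0) := by
    intro j hj
    have hj1 := Finset.mem_Ioc.1 hj
    rw [← Finset.sum_filter]
    refine Finset.sum_congr ?_ (fun _ _ => rfl)
    ext n
    simp only [Finset.mem_filter, Finset.mem_Ico, Finset.mem_Icc]
    omega
  rw [Finset.sum_congr rfl h1, Finset.sum_comm, Finset.mul_sum]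
  refine Finset.sum_le_sum fun n hn => ?_
  rw [← Finset.sum_filter, Finset.sum_const, nsmul_eq_mul]
  refine mul_le_mul_of_nonneg_right ?_ (SqW_s_nonneg P n)
  have h2 : (Ioc X (2 * X)).filter (fun j => n ∈ Ico (j - h) j) ⊆ Ioc n (n + h) := by
    intro j hj
    simp only [Finset.mem_filter, Finset.mem_Ico, Finset.mem_Ioc] at hj ⊢
    omega
  have h3 := Finset.card_le_card h2
  rw [Nat.card_Ioc] at h3
  have h4 : ((Ioc X (2 * X)).filter (fun j => n ∈ Ico (j - h) j)).card ≤ h := by omega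
  exact_mod_cast h4

open Classical in
theorem sq_win (P w X : ℕ) (hP : 1 ≤ P) (hw : w ≤ X) :
    ∑ j ∈ Ioc X (2 * X), (((Ico (j - w) j).filter (fun n => ∃ p, P < p ∧ p.Prime ∧ p ^ 2 ∣ n)).card : ℝ) ^ 2
      ≤ 2 * X * (w : ℝ) ^ 2 / P := by
  have hsq : ∀ j ∈ Ioc X (2 * X), (((Ico (j - w) j).filter
      (fun n => ∃ p, P < p ∧ p.Prime ∧ p ^ 2 ∣ n)).card : ℝ) ^ 2 ≤
      (w : ℝ) * ∑ n ∈ Ico (j - w) j, SqW_s P n := by
    intro j hj
    have hj1 := Finset.mem_Ioc.1 hj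
    have h1 : (((Ico (j - w) j).filter
      (fun n => ∃ p, P < p ∧ p.Prime ∧ p ^ 2 ∣ n)).card : ℝ) =
        ∑ n ∈ Ico (j - w) j, SqW_s P n := (SqW_card P _).symm
    rw [h1, pow_two]
    refine mul_le_mul_of_nonneg_right ?_ (Finset.sum_nonneg fun n _ => SqW_s_nonneg P n)
    refine (Finset.sum_le_sum (fun n _ => SqW_s_le P n)).trans ?_
    rw [Finset.sum_const, Nat.card_Ico, nsmul_eq_mul, mul_one]
    have : j - (j - w) = w := by omega
    rw [this]
  refine (Finset.sum_le_sum hsq).trans ?_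
  rw [← Finset.mul_sum]
  have b1 := SqW_windows P w X hw
  have b2 := SqW_count P (2 * X) hP
  have hw0 : (0 : ℝ) ≤ w := Nat.cast_nonneg _
  calc (w : ℝ) * ∑ j ∈ Ioc X (2 * X), ∑ n ∈ Ico (j - w) j, SqW_s P n
      ≤ (w : ℝ) * ((w : ℝ) * (((2 * X : ℕ) : ℝ) / P)) :=
        mul_le_mul_of_nonneg_left (b1.trans (mul_le_mul_of_nonneg_left b2 hw0)) hw0
    _ = 2 * X * (w : ℝ) ^ 2 / P := by push_cast; ring

end Pool.Agent.H76.MU

end

section

/-!
# SP IIL: the bound of `II S (ge ..)` (the heart of Part III)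

Modelled on `Pool/Agent/H35/W/IIE.lean` (copy it; its lemmas are private): `a0 = 0`, `a = 0`, `Θ = 1/L^6` fixed, and part (2) uses
the mean square hypothesis `CorL.large` instead of a pointwise bound.  Notation: `L = log x`, `G = ge g N (c/d) 0 Θ s`,
`T0 = L^{4m}`, `T1 = L^4 (Θ x + 1) = x/L^2 + L^4 ≤ x`, `M ≥ x/L^{C0}`, `C6 = 5 C0 + 14`.
`II S G = (1/2π) ∫ |ZZ S t|^2 |Mel G t|^2 dt` (`int_sum_sq_e`), `|ZZ S t|^2 ≤ 8 P`.
`mel_l` for `|t| ≤ T1`: `2|t|/(Θ M) ≤ 2 (x/L^2 + L^4) L^6 L^{C0}/x ≤ 4 L^{C0+4}`, so with `A_y(t) = cor g 0 M (c/d) (t/2π) y`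
   `|Mel G t|^2 ≤ (L^{C6}/x) (|A_N(t)|^2 + (1/x) ∑_{y ∈ Ioc M N} |A_y(t)|^2)`.                                       (*)
 (0) `|t| ≤ T0`: `|A_y| ≤ x/L^{3m}` (`CorL.low` at `t/2π`): `|Mel G t|^2 ≤ 2 x L^{C6 - 6m}`; contribution `≤ 2 T0 · 8 P · 2 x L^{C6-6m} ≤ 32 P x L^{C6-2m}`.
 (1) `T0 < |t| ≤ T1`, `|ZZ S t|^2 ≤ P/L^{E+3}`: `≤ (P/L^{E+3}) ∫ |Mel G|^2 ≤ (P/L^{E+3}) 4π x L^2`?  NO: as in IIE use `ZB = P/L^{E+3}` and
     `∫|Mel G|^2 ≤ 4π S2`, `S2 ≤ x L^2`; take `ZB = P/L^{E+4}` (adapt `bad_n (E+4)`), contribution `≤ 13 P x/L^{E+2}`.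
 (2) `T0 < |t| ≤ T1`, `|ZZ S t|^2 > P/L^{E+4}`: dyadic sets `𝓑_i = {2^i T0 ≤ |t| ≤ min(2^{i+1} T0, T1), ...}`, `i < n = ⌈4L⌉`; `vol 𝓑_i ≤ (2^i T0)^η`
     (`bad_n (E+4) η`, this gives `b`).  `𝓑' = {τ : 2π τ ∈ 𝓑_i}` lies in `T ≤ |τ| ≤ 2T`, `T = 2^i T0/(2π)`, and
     `vol 𝓑' = vol 𝓑_i/(2π) ≤ (2^i T0)^η/(2π) ≤ T^η` as `(2π)^{η-1} ≤ 1`; `T ≥ L^m`, `2T ≤ x ≤ x^2`.  By (*) and `CorL.large`
     `∫_{𝓑_i} |Mel G|^2 = ... ≤ (L^{C6}/x) · 2π · 2 x^2/L^K = 4π x L^{C6-K}`; contribution `≤ n · 8 P · 4π x L^{C6-K} ≤ P x L^{C6+2-K}`; `K = C6 + E + 4`.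
     (`IIE_core` must be changed: `hBμ` becomes `∀ i ∈ I, ∫ t in 𝓑 i, M t ≤ μ i`, and `g3 t = ∑ i ∈ I, (𝓑 i).indicator (fun t => P8 * M t) t`.)
 (3) `|t| > T1`: `mel_tl` (with `S0 = M`, `a0 = 0`, `a = 0`), as in IIE, part 3.
 `m0`: `2m ≥ C6 + E + 4`, `4m ≥` the `m` of `bad_n`, `m ≥ 1`.
-/

set_option autoImplicit false

namespace Pool.Agent.H76.SP

open Finset MeasureTheory
open Pool.Agent.H91.PK (ee)
open Pool.Agent.H76.EHB
open Pool.Agent.H35.W

end Pool.Agent.H76.SP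

end

section

/-!
# MU Fou: comparison of two window lengths by Parseval

Proof.  `D j = Uw G h j/h - Uw G h' j/h'` vanishes outside `Icc 1 (N1 + h')` (for `j = 0` the window `Ico (0 - h) 0` is empty; `G 0 = 0`).
`FF D (N1 + h') θ = FF G N1 θ · (kap h θ - kap h' θ)`: `n ∈ Ico (j - h) j` iff `n < j ≤ n + h` (natural subtraction is harmless), so
`∑_j ee(j θ) Uw G h j = ∑_n G n ∑_{r=1}^h ee((n + r) θ)`.  Parseval (`FF_parseval` in `H76/EHB`, period 1; the integral over `[-1/2, 1/2]` equals that over `[0, 1]`):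
`∑_j D(j)^2 = ∫_{-1/2}^{1/2} |FF G|^2 |kap h - kap h'|^2`.  Now `|kap| ≤ 1`, `|kap h θ - 1| ≤ 2 π h |θ|` (`|ee(r θ) - 1| ≤ 2 π r |θ|`), `|kap h θ| ≤ 1/(2 h |θ|)` for `0 < |θ| ≤ 1/2`
(geometric sum; `|1 - ee θ| ≥ 4|θ|`; `Pool.Agent.H76.SP` has such a bound in `VinD.lean`).  `|θ| ≤ Y0`: the difference is `≤ 2 π (h + h')|θ| ≤ 13 h' Y0`; `|θ| ≥ Y`: `≤ 1/(h Y)`; in between `≤ 2`.
`∫ |FF G|^2 = S2 G N1`.
-/

set_option autoImplicit false

namespace Pool.Agent.H76.MU

open Finset MeasureTheory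
open Pool.Agent.H91.PK (ee)
open Pool.Agent.H76.EHB
open Pool.Agent.H35.W

private theorem fou_ee_eq (t : ℝ) : ee t = Complex.exp (Complex.I * ((2 * Real.pi * t : ℝ) : ℂ)) := by
  unfold ee
  congr 1
  push_cast
  ring

private theorem fou_ee_sub_one (t : ℝ) : ‖ee t - 1‖ ≤ 2 * Real.pi * |t| := by
  rw [fou_ee_eq]
  refine (Real.norm_exp_I_mul_ofReal_sub_one_le).trans (le_of_eq ?_)
  rw [Real.norm_eq_abs, abs_mul, abs_mul, abs_of_pos Real.pi_pos, abs_of_pos (by norm_num : (0 : ℝ) < 2)]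

private theorem fou_ee_sub_one_ge (t : ℝ) (ht : |t| ≤ 1 / 2) : 4 * |t| ≤ ‖ee t - 1‖ := by
  rw [fou_ee_eq, Complex.norm_exp_I_mul_ofReal_sub_one, Real.norm_eq_abs, abs_mul,
    abs_of_pos (by norm_num : (0 : ℝ) < 2)]
  have e1 : (2 * Real.pi * t) / 2 = Real.pi * t := by ring
  rw [e1]
  have h1 : |Real.sin (Real.pi * t)| = |Real.sin (Real.pi * |t|)| := by
    rcases abs_choice t with h | h
    · rw [h]
    · rw [h, mul_neg, Real.sin_neg, abs_neg]
  rw [h1]
  have hp := Real.pi_pos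
  have h2 : 2 / Real.pi * (Real.pi * |t|) ≤ Real.sin (Real.pi * |t|) := by
    apply Real.mul_le_sin (by positivity)
    nlinarith
  have h3 : 2 / Real.pi * (Real.pi * |t|) = 2 * |t| := by
    field_simp
  rw [h3] at h2
  have h4 := le_abs_self (Real.sin (Real.pi * |t|))
  linarith

private theorem fou_kap_le_one (h : ℕ) (h1 : 1 ≤ h) (θ : ℝ) : ‖kap h θ‖ ≤ 1 := by
  have hh : (0 : ℝ) < h := by exact_mod_cast h1
  unfold kap
  rw [norm_mul, norm_div, norm_one, Complex.norm_natCast]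
  have h2 : ‖∑ r ∈ Icc 1 h, ee (r * θ)‖ ≤ h := by
    refine (norm_sum_le _ _).trans (le_of_eq ?_)
    simp only [norm_ee, sum_const, Nat.card_Icc, Nat.add_sub_cancel, nsmul_eq_mul, mul_one]
  rw [one_div, inv_mul_le_iff₀ hh, mul_one]
  exact h2

private theorem fou_kap_near (h : ℕ) (h1 : 1 ≤ h) (θ : ℝ) :
    ‖kap h θ - 1‖ ≤ 2 * Real.pi * h * |θ| := by
  have hh : (0 : ℝ) < h := by exact_mod_cast h1
  have hc : (h : ℂ) ≠ 0 := by exact_mod_cast hh.ne'
  have hp := Real.pi_pos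
  have e1 : kap h θ - 1 = (1 / (h : ℂ)) * ∑ r ∈ Icc 1 h, (ee (r * θ) - 1) := by
    unfold kap
    rw [sum_sub_distrib, sum_const, Nat.card_Icc, Nat.add_sub_cancel, nsmul_eq_mul, mul_one, mul_sub,
      one_div, inv_mul_cancel₀ hc]
  rw [e1, norm_mul, norm_div, norm_one, Complex.norm_natCast]
  have h2 : ‖∑ r ∈ Icc 1 h, (ee (r * θ) - 1)‖ ≤ ∑ r ∈ Icc 1 h, 2 * Real.pi * h * |θ| := by
    refine (norm_sum_le _ _).trans (sum_le_sum fun r hr => ?_)
    refine (fou_ee_sub_one _).trans ?_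
    rw [abs_mul, Nat.abs_cast]
    have : (r : ℝ) ≤ h := by exact_mod_cast (mem_Icc.1 hr).2
    have h3 := abs_nonneg θ
    have : (r : ℝ) * |θ| ≤ h * |θ| := mul_le_mul_of_nonneg_right this h3
    nlinarith
  rw [sum_const, Nat.card_Icc, Nat.add_sub_cancel, nsmul_eq_mul] at h2
  rw [one_div, inv_mul_le_iff₀ hh]
  exact h2

private theorem fou_kap_far (h : ℕ) (h1 : 1 ≤ h) (θ : ℝ) (h0 : θ ≠ 0) (h2 : |θ| ≤ 1 / 2) :
    ‖kap h θ‖ ≤ 1 / (2 * h * |θ|) := by
  have hh : (0 : ℝ) < h := by exact_mod_cast h1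
  have ha : 0 < |θ| := abs_pos.2 h0
  have e1 : (∑ r ∈ Icc 1 h, ee (r * θ)) * (ee θ - 1) = ee ((h + 1) * θ) - ee θ := by
    have : ∀ k : ℕ, (∑ r ∈ Icc 1 k, ee (r * θ)) * (ee θ - 1) = ee ((k + 1) * θ) - ee θ := by
      intro k
      induction k with
      | zero => simp
      | succ k ih =>
        rw [Finset.sum_Icc_succ_top (by omega), add_mul, ih]
        have e2 : ee (((k + 1 : ℕ) : ℝ) * θ) * (ee θ - 1)
            = ee ((((k + 1 : ℕ) : ℝ) + 1) * θ) - ee (((k : ℝ) + 1) * θ) := by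
          rw [mul_sub, ← Pool.Agent.H91.PK.LSa_ee_add, mul_one]
          have e3 : ((k + 1 : ℕ) : ℝ) * θ + θ = (((k + 1 : ℕ) : ℝ) + 1) * θ := by ring
          rw [e3]
          push_cast
          ring
        rw [e2]
        ring
    exact this h
  have h3 : ‖∑ r ∈ Icc 1 h, ee (r * θ)‖ * ‖ee θ - 1‖ ≤ 2 := by
    rw [← norm_mul, e1]
    refine (norm_sub_le _ _).trans ?_
    rw [norm_ee, norm_ee]
    norm_num
  have h4 := fou_ee_sub_one_ge θ h2
  have h5 : ‖∑ r ∈ Icc 1 h, ee (r * θ)‖ * (4 * |θ|) ≤ 2 :=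
    (mul_le_mul_of_nonneg_left h4 (norm_nonneg _)).trans h3
  unfold kap
  rw [norm_mul, norm_div, norm_one, Complex.norm_natCast, one_div, inv_mul_le_iff₀ hh]
  have e4 : (h : ℝ) * (1 / (2 * h * |θ|)) = 1 / (2 * |θ|) := by
    field_simp
  rw [e4, le_div_iff₀ (by positivity)]
  linarith

private theorem fou_Uw (G : ℕ → ℝ) (N1 h j : ℕ) (hG : ∀ n, n ∉ Icc 1 N1 → G n = 0) :
    Uw G h j = ∑ n ∈ Icc 1 N1, if n ∈ Ico (j - h) j then G n else 0 := by
  unfold Uw
  rw [← sum_filter]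
  symm
  refine sum_subset (fun n hn => (mem_filter.1 hn).2) fun n hn hn' => hG n fun h2 => hn' ?_
  exact mem_filter.2 ⟨h2, hn⟩

private theorem fou_sum (G : ℕ → ℝ) (N1 h M : ℕ) (θ : ℝ) (hG : ∀ n, n ∉ Icc 1 N1 → G n = 0)
    (hM : N1 + h ≤ M) :
    ∑ j ∈ Icc 1 M, ((Uw G h j : ℝ) : ℂ) * ee (j * θ)
      = FF G N1 θ * ∑ r ∈ Icc 1 h, ee (r * θ) := by
  have e1 : ∀ j ∈ Icc 1 M, ((Uw G h j : ℝ) : ℂ) * ee (j * θ)
      = ∑ n ∈ Icc 1 N1, if n ∈ Ico (j - h) j then ((G n : ℝ) : ℂ) * ee (j * θ) else 0 := by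
    intro j _
    rw [fou_Uw G N1 h j hG]
    push_cast
    rw [sum_mul]
    refine sum_congr rfl fun n _ => ?_
    split_ifs <;> simp
  rw [sum_congr rfl e1, sum_comm]
  unfold FF
  rw [sum_mul]
  refine sum_congr rfl fun n hn => ?_
  rw [← sum_filter]
  have hn2 := mem_Icc.1 hn
  have e2 : (Icc 1 M).filter (fun j => n ∈ Ico (j - h) j) = Ioc n (n + h) := by
    ext j
    rw [mem_filter, mem_Icc, mem_Ico, mem_Ioc]
    omega
  rw [e2, mul_assoc, mul_sum, mul_sum]
  refine sum_nbij' (fun j => j - n) (fun r => n + r) ?_ ?_ ?_ ?_ ?_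
  · intro j hj
    rw [mem_Ioc] at hj
    rw [mem_Icc]
    omega
  · intro r hr
    rw [mem_Icc] at hr
    rw [mem_Ioc]
    omega
  · intro j hj
    rw [mem_Ioc] at hj
    omega
  · intro r hr
    omega
  · intro j hj
    rw [mem_Ioc] at hj
    rw [← Pool.Agent.H91.PK.LSa_ee_add]
    have : (j : ℝ) * θ = (n : ℝ) * θ + ((j - n : ℕ) : ℝ) * θ := by
      rw [Nat.cast_sub hj.1.le]
      ring
    rw [this]

private theorem fou_FF (G : ℕ → ℝ) (N1 h h' : ℕ) (θ : ℝ) (hG : ∀ n, n ∉ Icc 1 N1 → G n = 0)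
    (hh : h ≤ h') :
    FF (fun j => Uw G h j / h - Uw G h' j / h') (N1 + h') θ
      = FF G N1 θ * (kap h θ - kap h' θ) := by
  have e1 := fou_sum G N1 h (N1 + h') θ hG (by omega)
  have e2 := fou_sum G N1 h' (N1 + h') θ hG le_rfl
  unfold kap
  have e3 : FF (fun j => Uw G h j / h - Uw G h' j / h') (N1 + h') θ
      = (1 / (h : ℂ)) * ∑ j ∈ Icc 1 (N1 + h'), ((Uw G h j : ℝ) : ℂ) * ee (j * θ)
        - (1 / (h' : ℂ)) * ∑ j ∈ Icc 1 (N1 + h'), ((Uw G h' j : ℝ) : ℂ) * ee (j * θ) := by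
    unfold FF
    rw [mul_sum, mul_sum, ← sum_sub_distrib]
    refine sum_congr rfl fun j _ => ?_
    push_cast
    ring
  rw [e3, e1, e2]
  ring

theorem fou (G : ℕ → ℝ) (N1 h h' X : ℕ) (Y0 Y : ℝ) (hG : ∀ n, n ∉ Icc 1 N1 → G n = 0)
    (h1 : 1 ≤ h) (hh : h ≤ h') (hY0 : 0 ≤ Y0) (hY : Y0 ≤ Y) (hYp : 0 < Y) (hY2 : Y ≤ 1 / 2) :
    ∑ j ∈ Ioc X (2 * X), (Uw G h j / h - Uw G h' j / h') ^ 2
      ≤ 4 * (∫ y in Set.Icc Y0 Y, ‖FF G N1 (1 * y)‖ ^ 2)
        + 4 * (∫ y in Set.Icc Y0 Y, ‖FF G N1 (-1 * y)‖ ^ 2)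
        + ((13 * h' * Y0) ^ 2 + (1 / (h * Y)) ^ 2) * S2 G N1 := by
  have h1' : 1 ≤ h' := h1.trans hh
  have hhp : (0 : ℝ) < h := by exact_mod_cast h1
  have hhp' : (0 : ℝ) < h' := by exact_mod_cast h1'
  have hhr : (h : ℝ) ≤ h' := by exact_mod_cast hh
  have hpi := Real.pi_pos
  set D : ℕ → ℝ := fun j => Uw G h j / h - Uw G h' j / h' with hD
  set F : ℝ → ℝ := fun t => ‖FF G N1 t‖ ^ 2 with hF
  set W : ℝ → ℝ := fun t => ‖FF D (N1 + h') t‖ ^ 2 with hW
  have hFc : Continuous F := (FF_continuous G N1).norm.pow 2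
  have hWc : Continuous W := (FF_continuous D (N1 + h')).norm.pow 2
  have hF0 : ∀ t, 0 ≤ F t := fun t => sq_nonneg _
  -- the left side
  have hL : ∑ j ∈ Ioc X (2 * X), (Uw G h j / h - Uw G h' j / h') ^ 2 ≤ S2 D (N1 + h') := by
    unfold S2
    have e1 : ∑ j ∈ Ioc X (2 * X), (Uw G h j / h - Uw G h' j / h') ^ 2
        = ∑ j ∈ (Ioc X (2 * X)).filter (fun j => j ∈ Icc 1 (N1 + h')), D j ^ 2 := by
      symm
      refine sum_subset (filter_subset _ _) fun j hj hj' => ?_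
      have hj1 := mem_Ioc.1 hj
      have hj2 : N1 + h' < j := by
        by_contra hc
        exact hj' (mem_filter.2 ⟨hj, mem_Icc.2 ⟨by omega, by omega⟩⟩)
      have e2 : ∀ k : ℕ, k ≤ h' → Uw G k j = 0 := by
        intro k hk
        unfold Uw
        refine sum_eq_zero fun n hn => hG n fun h3 => ?_
        have h4 := mem_Ico.1 hn
        have h5 := mem_Icc.1 h3
        omega
      simp only [hD, e2 h hh, e2 h' le_rfl, zero_div, sub_zero]
      norm_num
    rw [e1]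
    exact sum_le_sum_of_subset_of_nonneg (fun j hj => (mem_filter.1 hj).2)
      fun _ _ _ => sq_nonneg _
  have hP : ∫ t in (-(1 / 2 : ℝ))..(1 / 2), W t = S2 D (N1 + h') := by
    have := FF_parseval D (N1 + h') (-(1 / 2))
    rw [show (-(1 / 2 : ℝ)) + 1 = 1 / 2 by norm_num] at this
    exact this
  have hPG : ∫ t in (-(1 / 2 : ℝ))..(1 / 2), F t = S2 G N1 := by
    have := FF_parseval G N1 (-(1 / 2))
    rw [show (-(1 / 2 : ℝ)) + 1 = 1 / 2 by norm_num] at this
    exact this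
  have hWF : ∀ t, W t = F t * ‖kap h t - kap h' t‖ ^ 2 := by
    intro t
    simp only [hW, hF]
    rw [hD, fou_FF G N1 h h' t hG hh, norm_mul, mul_pow]
  -- pointwise bounds
  have b1 : ∀ t, |t| ≤ Y0 → W t ≤ (13 * h' * Y0) ^ 2 * F t := by
    intro t ht
    rw [hWF, mul_comm]
    refine mul_le_mul_of_nonneg_right ?_ (hF0 t)
    refine pow_le_pow_left₀ (norm_nonneg _) ?_ 2
    have e1 : kap h t - kap h' t = (kap h t - 1) - (kap h' t - 1) := by ring
    rw [e1]
    refine (norm_sub_le _ _).trans ?_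
    have c1 := fou_kap_near h h1 t
    have c2 := fou_kap_near h' h1' t
    have c3 : 2 * Real.pi * h * |t| ≤ 2 * Real.pi * h' * Y0 := by
      apply mul_le_mul _ ht (abs_nonneg _) (by positivity)
      exact mul_le_mul_of_nonneg_left hhr (by positivity)
    have c4 : 2 * Real.pi * h' * |t| ≤ 2 * Real.pi * h' * Y0 :=
      mul_le_mul_of_nonneg_left ht (by positivity)
    have c5 : 4 * Real.pi * (h' * Y0) ≤ 13 * (h' * Y0) := by
      apply mul_le_mul_of_nonneg_right _ (by positivity)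
      have := Real.pi_lt_d2
      linarith
    linarith
  have b2 : ∀ t, W t ≤ 4 * F t := by
    intro t
    rw [hWF, mul_comm]
    refine mul_le_mul_of_nonneg_right ?_ (hF0 t)
    have c1 : ‖kap h t - kap h' t‖ ≤ 2 := by
      refine (norm_sub_le _ _).trans ?_
      have := fou_kap_le_one h h1 t
      have := fou_kap_le_one h' h1' t
      linarith
    have := pow_le_pow_left₀ (norm_nonneg (kap h t - kap h' t)) c1 2
    linarith
  have b3 : ∀ t, Y ≤ |t| → |t| ≤ 1 / 2 → W t ≤ (1 / (h * Y)) ^ 2 * F t := by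
    intro t ht ht2
    rw [hWF, mul_comm]
    refine mul_le_mul_of_nonneg_right ?_ (hF0 t)
    refine pow_le_pow_left₀ (norm_nonneg _) ?_ 2
    refine (norm_sub_le _ _).trans ?_
    have h0 : t ≠ 0 := by
      intro hc
      rw [hc, abs_zero] at ht
      linarith
    have ha : 0 < |t| := abs_pos.2 h0
    have c1 := fou_kap_far h h1 t h0 ht2
    have c2 := fou_kap_far h' h1' t h0 ht2
    have c3 : 1 / (2 * h * |t|) ≤ 1 / (2 * h * Y) := by
      apply one_div_le_one_div_of_le (by positivity)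
      exact mul_le_mul_of_nonneg_left ht (by positivity)
    have c4 : 1 / (2 * h' * |t|) ≤ 1 / (2 * h * Y) := by
      apply one_div_le_one_div_of_le (by positivity)
      apply mul_le_mul _ ht hYp.le (by positivity)
      exact mul_le_mul_of_nonneg_left hhr (by norm_num)
    have c5 : 1 / (2 * h * Y) + 1 / (2 * h * Y) = 1 / ((h : ℝ) * Y) := by
      field_simp
      norm_num
    linarith
  -- splitting
  have iW : ∀ a b : ℝ, IntervalIntegrable W volume a b := fun a b => hWc.intervalIntegrable a b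
  have iF : ∀ a b : ℝ, IntervalIntegrable F volume a b := fun a b => hFc.intervalIntegrable a b
  have sp : ∀ g : ℝ → ℝ, (∀ a b : ℝ, IntervalIntegrable g volume a b) →
      ∫ t in (-(1 / 2 : ℝ))..(1 / 2), g t = (∫ t in (-(1 / 2 : ℝ))..(-Y), g t)
        + (∫ t in (-Y)..(-Y0), g t) + (∫ t in (-Y0)..Y0, g t) + (∫ t in Y0..Y, g t)
        + (∫ t in Y..(1 / 2), g t) := by
    intro g hg
    rw [intervalIntegral.integral_add_adjacent_intervals (hg _ _) (hg _ _),
      intervalIntegral.integral_add_adjacent_intervals (hg _ _) (hg _ _),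
      intervalIntegral.integral_add_adjacent_intervals (hg _ _) (hg _ _),
      intervalIntegral.integral_add_adjacent_intervals (hg _ _) (hg _ _)]
  have sW := sp W iW
  have sF := sp F iF
  have mono : ∀ (a b c : ℝ), a ≤ b → (∀ t ∈ Set.Icc a b, W t ≤ c * F t) →
      ∫ t in a..b, W t ≤ c * ∫ t in a..b, F t := by
    intro a b c hab hc
    rw [← intervalIntegral.integral_const_mul]
    exact intervalIntegral.integral_mono_on hab (iW a b) ((iF a b).const_mul c) hc
  have nn : ∀ (a b : ℝ), a ≤ b → 0 ≤ ∫ t in a..b, F t := fun a b hab =>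
    intervalIntegral.integral_nonneg hab fun t _ => hF0 t
  have m1 := mono (-(1 / 2)) (-Y) ((1 / (h * Y)) ^ 2) (by linarith) (by
    intro t ht
    have : |t| = -t := abs_of_nonpos (by linarith [ht.2])
    exact b3 t (by rw [this]; linarith [ht.2]) (by rw [this]; linarith [ht.1]))
  have m2 := mono (-Y) (-Y0) 4 (by linarith) (fun t _ => b2 t)
  have m3 := mono (-Y0) Y0 ((13 * h' * Y0) ^ 2) (by linarith) (fun t ht =>
    b1 t (abs_le.2 ⟨ht.1, ht.2⟩))
  have m4 := mono Y0 Y 4 hY (fun t _ => b2 t)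
  have m5 := mono Y (1 / 2) ((1 / (h * Y)) ^ 2) hY2 (by
    intro t ht
    have : |t| = t := abs_of_nonneg (by linarith [ht.1])
    exact b3 t (by rw [this]; exact ht.1) (by rw [this]; exact ht.2))
  have n1 := nn (-(1 / 2)) (-Y) (by linarith)
  have n2 := nn (-Y) (-Y0) (by linarith)
  have n3 := nn (-Y0) Y0 (by linarith)
  have n4 := nn Y0 Y hY
  have n5 := nn Y (1 / 2) hY2
  -- the right side
  have r1 : ∫ y in Set.Icc Y0 Y, ‖FF G N1 (1 * y)‖ ^ 2 = ∫ t in Y0..Y, F t := by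
    rw [integral_Icc_eq_integral_Ioc, intervalIntegral.integral_of_le hY]
    simp only [one_mul, hF]
  have r2 : ∫ y in Set.Icc Y0 Y, ‖FF G N1 (-1 * y)‖ ^ 2 = ∫ t in (-Y)..(-Y0), F t := by
    rw [← intervalIntegral.integral_comp_neg, integral_Icc_eq_integral_Ioc,
      intervalIntegral.integral_of_le hY]
    simp only [neg_mul, one_mul, hF]
  rw [r1, r2]
  refine hL.trans ?_
  rw [← hP, ← hPG, sW, sF]
  set c1 := (13 * (h' : ℝ) * Y0) ^ 2 with hc1
  set c2 := (1 / ((h : ℝ) * Y)) ^ 2 with hc2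
  have hc10 : 0 ≤ c1 := sq_nonneg _
  have hc20 : 0 ≤ c2 := sq_nonneg _
  have k1 := mul_nonneg hc10 n1
  have k2 := mul_nonneg hc10 n2
  have k4 := mul_nonneg hc10 n4
  have k5 := mul_nonneg hc10 n5
  have l2 := mul_nonneg hc20 n2
  have l3 := mul_nonneg hc20 n3
  have l4 := mul_nonneg hc20 n4
  linarith

end Pool.Agent.H76.MU

end

section

/-!
# Project WL (MP_a78e8f_nt): definitions

Elliott-Halberstam for almost all residues in intervals of length `(log x)^C`, all levels `θ < 1`,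
with exceptional sets of density `(log x)^{-c}`.  `Lam`, `lamR`, `hR`, `ramS`, `psiA`, `err` are those of
`Pool.Agent.H91.EHA.Defs`.
-/

set_option autoImplicit false

namespace Pool.Agent.H87.WL

open Finset
open Pool.Agent.H91.EHA (Lam lamR hR ramS psiA err)

/-- the Möbius function with real values -/
noncomputable def mo (n : ℕ) : ℝ := (ArithmeticFunction.moebius n : ℝ)

/-! ### Selberg's function -/

/-- `G = ∑_{h ≤ D, (h,q) = 1} μ(h)²/φ(h)` -/
noncomputable def Gs (D q : ℕ) : ℝ :=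
  ∑ h ∈ (Icc 1 D).filter (fun h => Nat.Coprime h q), mo h ^ 2 / (h.totient : ℝ)

/-! ### The statements delivered by other projects -/

end Pool.Agent.H87.WL

end

section

/-!
# WL Gl: the lower bound for `G`

`(q/φ(q)) ∑_{h ≤ D, (h,q)=1} μ(h)²/φ(h) ≥ ∑_{h ≤ D} μ(h)²/φ(h) ≥ ∑_{n ≤ D} 1/n ≥ log (D+1)`.
First inequality: `q/φ(q) = ∑_{e | q} μ(e)²/φ(e)`; the products `e h` are different (`e = (eh, q)`) and run
through all squarefree numbers `≤ D` (among others). Second: `1/φ(h) = (1/h) ∏_{p | h} (1-1/p)^{-1}` is the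
sum of `1/n` over all `n` with squarefree kernel `h`. (Compare, if useful, landed proofs for the large
sieve: grep for `totient` and `log` in Pool/Agent/H91/PK, Pool/Agent/H92/EH, Pool/Agent/H35/V1.)
-/

set_option autoImplicit false

namespace Pool.Agent.H87.WL

open Finset
open Pool.Agent.H91.EHA (Lam lamR hR ramS psiA err)

/-! ### The sum over the numbers with a given radical -/

/-- the product of the primes dividing `n` but not `M` -/
def gl_rad (M n : ℕ) : ℕ := ∏ p ∈ n.primeFactors.filter (fun p => ¬ p ∣ M), p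

theorem gl_rad_dvd (M n : ℕ) : gl_rad M n ∣ n :=
  (prod_dvd_prod_of_subset _ _ _ (filter_subset _ _)).trans (Nat.prod_primeFactors_dvd n)

theorem gl_sq (T : Finset ℕ) (hT : ∀ p ∈ T, p.Prime) : Squarefree (∏ p ∈ T, p) := by
  classical
  induction T using Finset.induction_on with
  | empty => simp
  | insert a T ha ih =>
    have ha' : a.Prime := hT a (mem_insert_self a T)
    have hT' : ∀ p ∈ T, p.Prime := fun p hp => hT p (mem_insert_of_mem hp)
    have hcop : Nat.Coprime a (∏ p ∈ T, p) := by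
      refine Nat.Coprime.prod_right ?_
      intro p hp
      rw [Nat.coprime_primes ha' (hT' p hp)]
      rintro rfl
      exact ha hp
    rw [prod_insert ha, Nat.squarefree_mul hcop]
    exact ⟨ha'.squarefree, ih hT'⟩

theorem gl_rad_sq (M n : ℕ) : Squarefree (gl_rad M n) :=
  gl_sq _ fun _ hp => Nat.prime_of_mem_primeFactors (mem_filter.1 hp).1

theorem gl_rad_coprime (M n : ℕ) : Nat.Coprime (gl_rad M n) M := by
  refine Nat.Coprime.prod_left ?_
  intro p hp
  rw [mem_filter] at hp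
  exact (Nat.Prime.coprime_iff_not_dvd (Nat.prime_of_mem_primeFactors hp.1)).2 hp.2

/-- the completely multiplicative function `1/n` -/
noncomputable def gl_inv : ℕ →* ℝ where
  toFun n := (n : ℝ)⁻¹
  map_one' := by simp
  map_mul' m n := by
    rw [Nat.cast_mul, mul_inv]

theorem gl_inv_apply (n : ℕ) : gl_inv n = (n : ℝ)⁻¹ := rfl

theorem gl_tot (K : ℕ) (hK : K ≠ 0) :
    ∏ p ∈ K.primeFactors with p.Prime, (1 - gl_inv p)⁻¹ = (K : ℝ) / K.totient := by
  have h1 : (K.primeFactors.filter fun p => p.Prime) = K.primeFactors :=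
    filter_true_of_mem fun p hp => Nat.prime_of_mem_primeFactors hp
  rw [h1]
  have h2 : (K.totient : ℝ) = K * ∏ p ∈ K.primeFactors, (1 - (p : ℝ)⁻¹) := by
    have h := congrArg (fun q : ℚ => (q : ℝ)) (Nat.totient_eq_mul_prod_factors K)
    push_cast at h
    exact h
  have hφ : (K.totient : ℝ) ≠ 0 := by
    have := Nat.totient_pos.2 (Nat.pos_of_ne_zero hK)
    positivity
  have hK' : (K : ℝ) ≠ 0 := by exact_mod_cast hK
  rw [eq_div_iff hφ, h2, prod_inv_distrib]
  have h3 : ∏ p ∈ K.primeFactors, (1 - (p : ℝ)⁻¹) ≠ 0 := by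
    intro h
    rw [h2, h, mul_zero] at hφ
    exact hφ rfl
  simp only [gl_inv_apply]
  generalize ∏ p ∈ K.primeFactors, (1 - (p : ℝ)⁻¹) = Q at h3
  field_simp

theorem gl_sum (K : ℕ) (hK : K ≠ 0) (T : Finset ℕ)
    (hT : ∀ m ∈ T, m ∈ Nat.factoredNumbers K.primeFactors) :
    ∑ m ∈ T, (m : ℝ)⁻¹ ≤ (K : ℝ) / K.totient := by
  classical
  obtain ⟨h1, h2⟩ := EulerProduct.summable_and_hasSum_factoredNumbers_prod_filter_prime_geometric
    (f := gl_inv) (fun {p} hp => by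
      rw [gl_inv_apply, norm_inv, Real.norm_natCast]
      exact inv_lt_one_of_one_lt₀ (by exact_mod_cast hp.one_lt)) K.primeFactors
  rw [gl_tot K hK] at h2
  rw [← h2.tsum_eq]
  have h3 : ∑ m ∈ T, (m : ℝ)⁻¹ = ∑ m ∈ T.attach.image (fun m => (⟨m.1, hT m.1 m.2⟩ :
      Nat.factoredNumbers K.primeFactors)), gl_inv m := by
    rw [sum_image]
    · rw [← sum_attach]
      rfl
    · intro x _ y _ h
      exact Subtype.ext (congrArg (fun z : Nat.factoredNumbers K.primeFactors => (z : ℕ)) h)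
  rw [h3]
  refine h2.summable.sum_le_tsum _ fun i _ => ?_
  rw [gl_inv_apply]
  positivity

theorem gl_fiber (M : ℕ) (hM : 1 ≤ M) (N r : ℕ) (hr : r ≠ 0) (hrM : Nat.Coprime r M) :
    ∑ n ∈ (Icc 1 N).filter (fun n => gl_rad M n = r), (n : ℝ)⁻¹ ≤
      (1 / (r.totient : ℝ)) * ((M : ℝ) / M.totient) := by
  classical
  have hM0 : M ≠ 0 := by omega
  have hK : r * M ≠ 0 := mul_ne_zero hr hM0
  have h1 : ∀ n ∈ (Icc 1 N).filter (fun n => gl_rad M n = r), r ∣ n := by
    intro n hn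
    rw [mem_filter] at hn
    rw [← hn.2]
    exact gl_rad_dvd M n
  have h2 := gl_sum (r * M) hK (((Icc 1 N).filter (fun n => gl_rad M n = r)).image (fun n => n / r))
    (by
      intro m hm
      rw [mem_image] at hm
      obtain ⟨n, hn, rfl⟩ := hm
      have hrn := h1 n hn
      rw [mem_filter, mem_Icc] at hn
      have hn0 : n ≠ 0 := by omega
      rw [Nat.mem_factoredNumbers]
      refine ⟨?_, ?_⟩
      · exact (Nat.div_pos (Nat.le_of_dvd (by omega) hrn) (Nat.pos_of_ne_zero hr)).ne'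
      · intro p hp
        have hpp := Nat.prime_of_mem_primeFactorsList hp
        have hpn : p ∣ n := (Nat.dvd_of_mem_primeFactorsList hp).trans (Nat.div_dvd_of_dvd hrn)
        rw [Nat.mem_primeFactors]
        refine ⟨hpp, ?_, hK⟩
        by_cases hpM : p ∣ M
        · exact hpM.mul_left r
        · refine Dvd.dvd.mul_right ?_ M
          rw [← hn.2]
          refine dvd_prod_of_mem _ ?_
          rw [mem_filter, Nat.mem_primeFactors]
          exact ⟨⟨hpp, hpn, hn0⟩, hpM⟩)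
  rw [sum_image] at h2
  · have h3 : ∑ n ∈ (Icc 1 N).filter (fun n => gl_rad M n = r), (n : ℝ)⁻¹ =
        (r : ℝ)⁻¹ * ∑ n ∈ (Icc 1 N).filter (fun n => gl_rad M n = r), ((n / r : ℕ) : ℝ)⁻¹ := by
      rw [mul_sum]
      refine sum_congr rfl fun n hn => ?_
      rw [← mul_inv]
      congr 1
      rw [← Nat.cast_mul, Nat.mul_div_cancel' (h1 n hn)]
    rw [h3]
    refine (mul_le_mul_of_nonneg_left h2 (by positivity)).trans (le_of_eq ?_)
    rw [Nat.totient_mul hrM, Nat.cast_mul, Nat.cast_mul]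
    have hr' : (r : ℝ) ≠ 0 := by exact_mod_cast hr
    field_simp
  · intro x hx y hy hxy
    have e1 := Nat.mul_div_cancel' (h1 x hx)
    have e2 := Nat.mul_div_cancel' (h1 y hy)
    have hxy' : x / r = y / r := hxy
    rw [← e1, ← e2, hxy']

/-- the set of moduli -/
def gl_S (M N : ℕ) : Finset ℕ := (Icc 1 N).filter (fun r => Squarefree r ∧ Nat.Coprime r M)

theorem gl_mem_S {M N r : ℕ} :
    r ∈ gl_S M N ↔ (1 ≤ r ∧ r ≤ N) ∧ Squarefree r ∧ Nat.Coprime r M := by
  unfold gl_S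
  rw [mem_filter, mem_Icc]

/-- the main sum -/
noncomputable def gl_G (M N : ℕ) : ℝ := ∑ r ∈ gl_S M N, 1 / (r.totient : ℝ)

theorem gl_G_ge (M : ℕ) (hM : 1 ≤ M) (N : ℕ) :
    ∑ n ∈ Icc 1 N, (n : ℝ)⁻¹ ≤ gl_G M N * ((M : ℝ) / M.totient) := by
  classical
  have hmaps : ∀ n ∈ Icc 1 N, gl_rad M n ∈ gl_S M N := by
    intro n hn
    rw [mem_Icc] at hn
    rw [gl_mem_S]
    have h0 : 0 < n := by omega
    exact ⟨⟨Nat.pos_of_dvd_of_pos (gl_rad_dvd M n) h0, (Nat.le_of_dvd h0 (gl_rad_dvd M n)).trans hn.2⟩,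
      gl_rad_sq M n, gl_rad_coprime M n⟩
  rw [← sum_fiberwise_of_maps_to hmaps]
  unfold gl_G
  rw [sum_mul]
  refine sum_le_sum fun r hr => ?_
  rw [gl_mem_S] at hr
  exact gl_fiber M hM N r (by omega) hr.2.2

theorem gs_ge (D q : ℕ) (hq : 1 ≤ q) :
    (q.totient : ℝ) / q * Real.log (D + 1) ≤ Gs D q := by
  have hq0 : (0 : ℝ) < q := by exact_mod_cast hq
  have hφ : (0 : ℝ) < q.totient := by exact_mod_cast Nat.totient_pos.2 hq
  have h1 : Gs D q = gl_G q D := by
    unfold Gs gl_G gl_S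
    rw [← filter_filter, sum_filter (s := Icc 1 D), sum_filter (s := (Icc 1 D).filter Squarefree),
      sum_filter (s := Icc 1 D)]
    refine sum_congr rfl fun h _ => ?_
    by_cases hs : Squarefree h
    · have h2 : mo h ^ 2 = 1 := by
        unfold mo
        exact_mod_cast ArithmeticFunction.moebius_sq_eq_one_of_squarefree hs
      rw [if_pos hs, h2]
    · have h2 : mo h = 0 := by
        unfold mo
        rw [ArithmeticFunction.moebius_eq_zero_of_not_squarefree hs, Int.cast_zero]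
      rw [if_neg hs, h2]
      simp
  have h2 := gl_G_ge q hq D
  have h3 : Real.log (D + 1) ≤ ∑ n ∈ Icc 1 D, (n : ℝ)⁻¹ := by
    have h4 := log_add_one_le_harmonic D
    rw [harmonic_eq_sum_Icc] at h4
    push_cast at h4
    exact h4
  rw [h1]
  have h5 : Real.log (D + 1) ≤ gl_G q D * ((q : ℝ) / q.totient) := h3.trans h2
  calc (q.totient : ℝ) / q * Real.log (D + 1)
      ≤ (q.totient : ℝ) / q * (gl_G q D * ((q : ℝ) / q.totient)) :=
        mul_le_mul_of_nonneg_left h5 (by positivity)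
    _ = gl_G q D := by field_simp

end Pool.Agent.H87.WL

end

section

/-!
The additive character `e t = exp (2 π i t)` and elementary estimates.
-/

set_option autoImplicit false

namespace Pool.Agent.H92.EH

open Finset

/-- `e t = exp (2 π i t)`. -/
noncomputable def e (t : ℝ) : ℂ := Complex.exp (Complex.I * ((2 * Real.pi * t : ℝ) : ℂ))

theorem e_int (n : ℤ) : e n = 1 := by
  unfold e
  rw [Complex.exp_eq_one_iff]
  exact ⟨n, by push_cast; ring⟩

theorem e_nat_mul (n : ℕ) (t : ℝ) : e (n * t) = e t ^ n := by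
  unfold e
  rw [← Complex.exp_nat_mul]
  congr 1
  push_cast
  ring

end Pool.Agent.H92.EH

end

section

/-!
Farey fractions are well spaced, and the resulting mean value estimate for exponential sums
over primes.
-/

set_option autoImplicit false

namespace Pool.Agent.H92.EH

open Finset

/-- Reduced residues modulo `r`, as natural numbers less than `r`. -/
def red (r : ℕ) : Finset ℕ := (range r).filter (fun b => Nat.Coprime b r)

theorem mem_red {r b : ℕ} : b ∈ red r ↔ b < r ∧ Nat.Coprime b r := by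
  simp [red]

end Pool.Agent.H92.EH

end

section

/-!
Complete exponential sums and Ramanujan sums.
-/

set_option autoImplicit false

namespace Pool.Agent.H92.EH

open Finset

/-- Complete sums of additive characters. -/
theorem sum_complete (n : ℕ) (hn : 0 < n) (m : ℤ) :
    ∑ b ∈ range n, e (m * ((b : ℝ) / n)) = if (n : ℤ) ∣ m then (n : ℂ) else 0 := by
  have hn0 : (n : ℝ) ≠ 0 := by exact_mod_cast hn.ne'
  have h1 : ∀ b : ℕ, e (m * ((b : ℝ) / n)) = e ((m : ℝ) / n) ^ b := by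
    intro b
    rw [← e_nat_mul]
    congr 1
    ring
  simp_rw [h1]
  split_ifs with h
  · obtain ⟨k, rfl⟩ := h
    have : ((n : ℤ) * k : ℤ) / (n : ℝ) = (k : ℝ) := by
      push_cast
      field_simp
    rw [this, e_int]
    simp
  · have hne : e ((m : ℝ) / n) ≠ 1 := by
      intro he
      apply h
      unfold e at he
      rw [Complex.exp_eq_one_iff] at he
      obtain ⟨k, hk⟩ := he
      refine ⟨k, ?_⟩
      have hpi : (Real.pi : ℂ) ≠ 0 := by exact_mod_cast Real.pi_ne_zero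
      have hI := Complex.I_ne_zero
      have hn0' : (n : ℂ) ≠ 0 := by exact_mod_cast hn.ne'
      push_cast at hk
      have h2 : (2 * Real.pi * Complex.I : ℂ) * (m / n) = (2 * Real.pi * Complex.I) * k := by
        linear_combination hk
      have h3 : ((m : ℂ) / n) = k := by
        apply mul_left_cancel₀ _ h2
        simp [hpi, hI]
      rw [div_eq_iff hn0'] at h3
      have h4 : (m : ℂ) = ((n : ℤ) * k : ℤ) := by
        rw [h3]
        push_cast
        ring
      exact_mod_cast h4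
    have h5 : (∑ b ∈ range n, e ((m : ℝ) / n) ^ b) * (e ((m : ℝ) / n) - 1) = 0 := by
      rw [geom_sum_mul, ← e_nat_mul]
      have : (n : ℝ) * ((m : ℝ) / n) = m := by field_simp
      rw [this, e_int, sub_self]
    rcases mul_eq_zero.mp h5 with h6 | h6
    · exact h6
    · exact absurd (sub_eq_zero.mp h6) hne

/-- The Ramanujan sum `c_r(m)`. -/
noncomputable def ram (r : ℕ) (m : ℤ) : ℂ := ∑ b ∈ red r, e (m * ((b : ℝ) / r))

theorem sum_ram_divisors (n : ℕ) (hn : 0 < n) (m : ℤ) :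
    ∑ d ∈ n.divisors, ram d m = if (n : ℤ) ∣ m then (n : ℂ) else 0 := by
  rw [← sum_complete n hn m]
  -- partition `range n` according to the gcd with `n`
  have h1 : ∑ b ∈ range n, e (m * ((b : ℝ) / n))
      = ∑ d ∈ n.divisors, ∑ b ∈ (range n).filter (fun b => n / Nat.gcd b n = d),
          e (m * ((b : ℝ) / n)) := by
    rw [sum_fiberwise_of_maps_to]
    intro b _
    rw [Nat.mem_divisors]
    exact ⟨Nat.div_dvd_of_dvd (Nat.gcd_dvd_right b n), hn.ne'⟩
  rw [h1]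
  refine sum_congr rfl fun d hd => ?_
  rw [Nat.mem_divisors] at hd
  obtain ⟨k, hk⟩ := hd.1
  have hdpos : 0 < d := Nat.pos_of_ne_zero (by rintro rfl; omega)
  have hkpos : 0 < k := Nat.pos_of_ne_zero (by rintro rfl; omega)
  unfold ram
  refine sum_bij (fun b _ => b * k) ?_ ?_ ?_ ?_
  · intro b hb
    rw [mem_red] at hb
    rw [mem_filter, mem_range]
    have hg : Nat.gcd (b * k) n = k := by
      rw [hk, Nat.gcd_mul_right]
      have : Nat.gcd b d = 1 := hb.2
      rw [this, one_mul]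
    refine ⟨?_, ?_⟩
    · rw [hk]
      exact Nat.mul_lt_mul_of_pos_right hb.1 hkpos
    · rw [hg, hk]
      exact Nat.mul_div_cancel _ hkpos
  · intro b _ b' _ h
    exact Nat.eq_of_mul_eq_mul_right hkpos h
  · intro c hc
    rw [mem_filter, mem_range] at hc
    obtain ⟨hc1, hc2⟩ := hc
    have hgpos : 0 < Nat.gcd c n := Nat.gcd_pos_of_pos_right _ hn
    have hgk : Nat.gcd c n = k := by
      have h2 : Nat.gcd c n ∣ n := Nat.gcd_dvd_right c n
      have h3 : n / Nat.gcd c n * Nat.gcd c n = n := Nat.div_mul_cancel h2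
      rw [hc2] at h3
      exact Nat.eq_of_mul_eq_mul_left hdpos (h3.trans hk)
    have hkc : k ∣ c := by rw [← hgk]; exact Nat.gcd_dvd_left c n
    obtain ⟨b, hb⟩ := hkc
    refine ⟨b, ?_, by rw [hb]; ring⟩
    rw [mem_red]
    constructor
    · have : k * b < k * d := by rw [← hb, mul_comm k d, ← hk]; exact hc1
      exact lt_of_mul_lt_mul_left this (Nat.zero_le _)
    · have h2 : Nat.gcd (k * b) (k * d) = k := by
        rw [← hb, mul_comm k d, ← hk]
        exact hgk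
      rw [Nat.gcd_mul_left] at h2
      have h3 : k * Nat.gcd b d = k * 1 := by rw [h2, mul_one]
      exact Nat.eq_of_mul_eq_mul_left hkpos h3
  · intro b _
    congr 2
    have hd0 : (d : ℝ) ≠ 0 := by exact_mod_cast hdpos.ne'
    have hk0 : (k : ℝ) ≠ 0 := by exact_mod_cast hkpos.ne'
    rw [hk]
    push_cast
    field_simp

/-- Formula for the Ramanujan sum. -/
theorem ram_eq (r : ℕ) (hr : 0 < r) (m : ℤ) :
    ram r m = ∑ x ∈ r.divisorsAntidiagonal,
      ((ArithmeticFunction.moebius x.1 : ℤ) : ℂ) * (if ((x.2 : ℕ) : ℤ) ∣ m then (x.2 : ℂ) else 0) := by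
  have h := (ArithmeticFunction.sum_eq_iff_sum_mul_moebius_eq
    (f := fun n => ram n m) (g := fun n : ℕ => if (n : ℤ) ∣ m then (n : ℂ) else 0)).mp
    (fun n hn => sum_ram_divisors n hn m) r hr
  exact h.symm

/-- The Ramanujan sum at an integer prime to the modulus. -/
theorem ram_of_coprime (r : ℕ) (hr : 0 < r) (m : ℤ) (hm : IsCoprime m (r : ℤ)) :
    ram r m = ((ArithmeticFunction.moebius r : ℤ) : ℂ) := by
  rw [ram_eq r hr m]
  rw [sum_eq_single (r, 1)]
  · simp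
  · rintro ⟨a, b⟩ hab hne
    rw [Nat.mem_divisorsAntidiagonal] at hab
    simp only at hab ⊢
    rw [if_neg, mul_zero]
    intro hb
    have h1 : (b : ℤ) ∣ (r : ℤ) := by
      rw [← hab.1]
      push_cast
      exact Dvd.intro_left _ rfl
    have h2 : IsUnit (b : ℤ) := hm.isUnit_of_dvd' hb h1
    have h3 : b = 1 := by
      rw [Int.isUnit_iff] at h2
      omega
    apply hne
    rw [h3, mul_one] at hab
    rw [h3, hab.1]
  · intro h
    exfalso
    apply h
    rw [Nat.mem_divisorsAntidiagonal]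
    exact ⟨by ring, hr.ne'⟩

end Pool.Agent.H92.EH

end

section

/-!
# Quantitative supply of primes congruent to one modulo four

Elementary Mertens-type estimate for the character modulo four, and the consequence that for
every `δ > 0` there are at least `N ^ (1 - δ)` primes `p ≤ N` with `p % 4 = 1`, for all large `N`.
-/

namespace Pool.Agent.H41

open Finset Real

/-- the constant in Chebyshev's bound -/
noncomputable def c0 : ℝ := Real.log 4 + 4

lemma c0_pos : 0 < c0 := by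
  have : 0 < Real.log 4 := Real.log_pos (by norm_num)
  unfold c0; linarith

lemma psi_bound (N : ℕ) : ∑ d ∈ Ioc 0 N, ArithmeticFunction.vonMangoldt d ≤ c0 * N := by
  have := Chebyshev.psi_le_const_mul_self (x := (N : ℝ)) (by positivity)
  unfold Chebyshev.psi at this
  rwa [Nat.floor_natCast] at this

lemma log_factorial_eq (N : ℕ) :
    ∑ m ∈ Ioc 0 N, Real.log m =
      ∑ d ∈ Ioc 0 N, ArithmeticFunction.vonMangoldt d * ((N / d : ℕ) : ℝ) := by
  have := ArithmeticFunction.sum_Ioc_mul_zeta_eq_sum ArithmeticFunction.vonMangoldt N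
  rw [ArithmeticFunction.vonMangoldt_mul_zeta] at this
  simpa [ArithmeticFunction.log_apply] using this

lemma sum_log_eq (N : ℕ) : ∑ m ∈ Ioc 0 N, Real.log m = Real.log (N.factorial) := by
  induction N with
  | zero => simp
  | succ N ih =>
    rw [Finset.sum_Ioc_succ_top (by omega), ih, Nat.factorial_succ]
    push_cast
    rw [Real.log_mul (by positivity) (by positivity)]
    ring

lemma B_upper (N : ℕ) (hN : 0 < N) :
    ∑ d ∈ Ioc 0 N, ArithmeticFunction.vonMangoldt d / d ≤ Real.log N + c0 := by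
  have hN' : (0 : ℝ) < N := by exact_mod_cast hN
  have h1 : ∑ m ∈ Ioc 0 N, Real.log m ≤ N * Real.log N := by
    calc ∑ m ∈ Ioc 0 N, Real.log m ≤ ∑ m ∈ Ioc 0 N, Real.log N := by
          refine Finset.sum_le_sum fun m hm => ?_
          rw [Finset.mem_Ioc] at hm
          exact Real.log_le_log (by exact_mod_cast hm.1) (by exact_mod_cast hm.2)
      _ = N * Real.log N := by simp
  rw [log_factorial_eq] at h1
  have h2 : ∑ d ∈ Ioc 0 N, ArithmeticFunction.vonMangoldt d * ((N : ℝ) / d - 1) ≤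
      ∑ d ∈ Ioc 0 N, ArithmeticFunction.vonMangoldt d * ((N / d : ℕ) : ℝ) := by
    refine Finset.sum_le_sum fun d hd => ?_
    rw [Finset.mem_Ioc] at hd
    have hd' : (0 : ℝ) < d := by exact_mod_cast hd.1
    refine mul_le_mul_of_nonneg_left ?_ ArithmeticFunction.vonMangoldt_nonneg
    have : N < d * (N / d + 1) := Nat.lt_mul_div_succ N hd.1
    have h3 : (N : ℝ) < d * ((N / d : ℕ) + 1) := by exact_mod_cast this
    have h4 : (N : ℝ) / d < (N / d : ℕ) + 1 := by
      rw [div_lt_iff₀ hd']; linarith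
    linarith
  have h3 : ∑ d ∈ Ioc 0 N, ArithmeticFunction.vonMangoldt d * ((N : ℝ) / d - 1) =
      N * ∑ d ∈ Ioc 0 N, ArithmeticFunction.vonMangoldt d / d -
        ∑ d ∈ Ioc 0 N, ArithmeticFunction.vonMangoldt d := by
    rw [Finset.mul_sum, ← Finset.sum_sub_distrib]
    exact Finset.sum_congr rfl fun d _ => by ring
  have h4 := psi_bound N
  have h5 : N * ∑ d ∈ Ioc 0 N, ArithmeticFunction.vonMangoldt d / d ≤
      N * (Real.log N + c0) := by
    rw [h3] at h2
    nlinarith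
  exact le_of_mul_le_mul_left h5 hN'

lemma B_lower (N : ℕ) (hN : 0 < N) :
    Real.log N - 1 ≤ ∑ d ∈ Ioc 0 N, ArithmeticFunction.vonMangoldt d / d := by
  have hN' : (0 : ℝ) < N := by exact_mod_cast hN
  have h1 : (N : ℝ) * Real.log N - N ≤ Real.log (N.factorial) := by
    have := Real.pow_div_factorial_le_exp (N : ℝ) hN'.le N
    have hf : (0 : ℝ) < N.factorial := by positivity
    have h2 := Real.log_le_log (by positivity) this
    rw [Real.log_exp, Real.log_div (by positivity) (by positivity), Real.log_pow] at h2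
    linarith
  rw [← sum_log_eq, log_factorial_eq] at h1
  have h2 : ∑ d ∈ Ioc 0 N, ArithmeticFunction.vonMangoldt d * ((N / d : ℕ) : ℝ) ≤
      ∑ d ∈ Ioc 0 N, ArithmeticFunction.vonMangoldt d * ((N : ℝ) / d) := by
    refine Finset.sum_le_sum fun d hd => ?_
    exact mul_le_mul_of_nonneg_left Nat.cast_div_le ArithmeticFunction.vonMangoldt_nonneg
  have h3 : ∑ d ∈ Ioc 0 N, ArithmeticFunction.vonMangoldt d * ((N : ℝ) / d) =
      N * ∑ d ∈ Ioc 0 N, ArithmeticFunction.vonMangoldt d / d := by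
    rw [Finset.mul_sum]
    exact Finset.sum_congr rfl fun d _ => by ring
  have h5 : N * (Real.log N - 1) ≤
      N * ∑ d ∈ Ioc 0 N, ArithmeticFunction.vonMangoldt d / d := by
    rw [h3] at h2
    nlinarith
  exact le_of_mul_le_mul_left h5 hN'

/-- non-primes contribute a bounded amount -/
lemma exists_nonprime_bound : ∃ C : ℝ, 0 ≤ C ∧ ∀ N : ℕ,
    ∑ d ∈ Ioc 0 N, (if d.Prime then 0 else ArithmeticFunction.vonMangoldt d) / (d : ℝ) ≤ C := by
  have hs := ArithmeticFunction.vonMangoldt.summable_residueClass_non_primes_div (0 : ZMod 1)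
  have he : ∀ n : ℕ, ArithmeticFunction.vonMangoldt.residueClass (0 : ZMod 1) n =
      ArithmeticFunction.vonMangoldt n := by
    intro n
    unfold ArithmeticFunction.vonMangoldt.residueClass
    rw [Set.indicator_of_mem]
    show ((n : ZMod 1)) = 0
    exact Subsingleton.elim _ _
  simp only [he] at hs
  have h0 : ∀ n : ℕ, 0 ≤ (if n.Prime then 0 else ArithmeticFunction.vonMangoldt n) / (n : ℝ) := by
    intro n
    apply div_nonneg _ (by positivity)
    split_ifs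
    · exact le_rfl
    · exact ArithmeticFunction.vonMangoldt_nonneg
  refine ⟨∑' n : ℕ, (if n.Prime then 0 else ArithmeticFunction.vonMangoldt n) / (n : ℝ),
    tsum_nonneg h0, fun N => ?_⟩
  exact hs.sum_le_tsum _ (fun n _ => h0 n)

end Pool.Agent.H41

end

section

/-!
Mertens type estimates used for the order of vanishing at one.
-/

namespace Pool.Agent.H35.V1

open Finset Real
open Pool.Agent.H41 (c0 c0_pos B_lower B_upper exists_nonprime_bound)
open scoped ArithmeticFunction.vonMangoldt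

noncomputable section

/-- Primes in `(w, z]`. -/
def PPr (w z : ℕ) : Finset ℕ := (Ioc w z).filter Nat.Prime

theorem mem_PPr {w z p : ℕ} : p ∈ PPr w z ↔ (w < p ∧ p ≤ z) ∧ p.Prime := by
  simp [PPr]

theorem sum_recip_le {w z : ℕ} (hw : 2 ≤ w) (hwz : w ≤ z) {c : ℝ} (hc : 0 ≤ c)
    (h : ∀ m, w ≤ m → m ≤ z → ∑ d ∈ Ioc w m, ArithmeticFunction.vonMangoldt d / d
      ≤ Real.log m - Real.log w + c) :
    ∑ p ∈ PPr w z, (1 : ℝ) / p ≤ Real.log (Real.log z / Real.log w) + c / Real.log w := by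
  have hlw : 0 < Real.log w := Real.log_pos (by exact_mod_cast (by omega : 1 < w))
  have hlog : ∀ k : ℕ, w ≤ k → 0 < Real.log k := by
    intro k hk
    apply Real.log_pos
    exact_mod_cast (by omega : 1 < k)
  have h1 : ∑ p ∈ PPr w z, (1 : ℝ) / p
      = ∑ k ∈ Ioc w z, (if k.Prime then Real.log k / k else 0) * (1 / Real.log k) := by
    unfold PPr
    rw [sum_filter]
    apply sum_congr rfl
    intro k hk
    rw [mem_Ioc] at hk
    split_ifs with hp
    · have := (hlog k hk.1.le).ne'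
      field_simp
    · simp
  have h2 : ∑ k ∈ Ioc w z, (if k.Prime then Real.log k / k else 0) * (1 / Real.log k)
      ≤ ∑ k ∈ Ioc w z, (Real.log k - Real.log (k - 1 : ℕ)) * (1 / Real.log k)
        + c * (1 / Real.log ((w + 1 : ℕ) : ℝ)) := by
    apply Pool.Agent.H91.Gold.abel_le hwz hc
    · intro k hk1 _
      have := hlog k hk1.le
      positivity
    · have := hlog (w + 1) (by omega)
      positivity
    · intro k hk1 _
      have := hlog k hk1.le
      apply one_div_le_one_div_of_le this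
      apply Real.log_le_log
      · exact_mod_cast (by omega : 0 < k)
      · push_cast; linarith
    · intro m hm1 hm2
      have e1 : ∑ k ∈ Ioc w m, (Real.log k - Real.log (k - 1 : ℕ)) = Real.log m - Real.log w := by
        clear hm2
        induction m, hm1 using Nat.le_induction with
        | base => simp
        | succ m hm ih =>
          rw [sum_Ioc_succ_top (by omega), ih]
          simp
      have e2 : ∑ k ∈ Ioc w m, (if k.Prime then Real.log k / k else 0)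
          ≤ ∑ k ∈ Ioc w m, Λ k / k := by
        apply sum_le_sum
        intro k _
        split_ifs with hp
        · rw [ArithmeticFunction.vonMangoldt_apply_prime hp]
        · have := ArithmeticFunction.vonMangoldt_nonneg (n := k)
          positivity
      rw [e1]
      exact e2.trans (h m hm1 hm2)
  have h3 : ∀ m, w ≤ m → ∑ k ∈ Ioc w m, (Real.log k - Real.log (k - 1 : ℕ)) * (1 / Real.log k)
      ≤ Real.log (Real.log m) - Real.log (Real.log w) := by
    intro m hm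
    induction m, hm using Nat.le_induction with
    | base => simp
    | succ m hm ih =>
      rw [sum_Ioc_succ_top (by omega)]
      have a1 := hlog m hm
      have a2 := hlog (m + 1) (by omega)
      have a3 : (Real.log ((m + 1 : ℕ) : ℝ) - Real.log (m + 1 - 1 : ℕ)) * (1 / Real.log ((m + 1 : ℕ) : ℝ))
          ≤ Real.log (Real.log ((m + 1 : ℕ) : ℝ)) - Real.log (Real.log m) := by
        have b1 := Real.log_le_sub_one_of_pos (x := Real.log m / Real.log ((m + 1 : ℕ) : ℝ)) (by positivity)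
        rw [Real.log_div a1.ne' a2.ne'] at b1
        rw [Nat.add_sub_cancel]
        have b2 : (Real.log ((m + 1 : ℕ) : ℝ) - Real.log m) * (1 / Real.log ((m + 1 : ℕ) : ℝ))
            = 1 - Real.log m / Real.log ((m + 1 : ℕ) : ℝ) := by
          field_simp
        rw [b2]
        linarith
      linarith
  have h4 := h3 z hwz
  have h5 : c * (1 / Real.log ((w + 1 : ℕ) : ℝ)) ≤ c / Real.log w := by
    rw [mul_one_div]
    apply div_le_div_of_nonneg_left hc hlw
    apply Real.log_le_log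
    · exact_mod_cast (by omega : 0 < w)
    · push_cast; linarith
  rw [h1, Real.log_div (hlog z hwz).ne' hlw.ne']
  linarith

theorem sum_tele {w z : ℕ} (hw : 2 ≤ w) (hwz : w ≤ z) :
    ∑ k ∈ Ioc w z, 1 / ((k : ℝ) * ((k : ℝ) - 1)) ≤ 1 / w - 1 / z := by
  induction z, hwz using Nat.le_induction with
  | base => simp
  | succ m hm ih =>
    rw [sum_Ioc_succ_top (by omega)]
    have hm0 : (0 : ℝ) < m := by exact_mod_cast (by omega : 0 < m)
    have h1 : 1 / (((m + 1 : ℕ) : ℝ) * (((m + 1 : ℕ) : ℝ) - 1)) = 1 / m - 1 / ((m + 1 : ℕ) : ℝ) := by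
      push_cast
      rw [add_sub_cancel_right]
      field_simp
      ring
    rw [h1]
    linarith

theorem exists_mertens_prod : ∃ C : ℝ, 0 < C ∧ ∀ w z : ℕ, 3 ≤ w → w ≤ z →
    ∏ p ∈ PPr w z, (1 + 1 / ((p : ℝ) - 1)) ≤ C * (Real.log z / Real.log w) := by
  have hc0 := c0_pos
  refine ⟨Real.exp (c0 + 2), Real.exp_pos _, fun w z hw hwz => ?_⟩
  have hw' : (3 : ℝ) ≤ w := by exact_mod_cast hw
  have hlw : 1 ≤ Real.log w := by
    rw [Real.le_log_iff_exp_le (by linarith)]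
    have := Real.exp_one_lt_d9
    linarith
  have hlz : 0 < Real.log z := by
    apply Real.log_pos
    exact_mod_cast (by omega : 1 < z)
  have hgen := sum_recip_le (w := w) (z := z) (by omega) hwz (c := c0 + 1) (by linarith) (by
    intro m hm1 _
    have h1 := B_upper m (by omega)
    have h2 := B_lower w (by omega)
    have h3 : ∑ d ∈ Ioc 0 m, ArithmeticFunction.vonMangoldt d / d
        = ∑ d ∈ Ioc 0 w, ArithmeticFunction.vonMangoldt d / d
          + ∑ d ∈ Ioc w m, ArithmeticFunction.vonMangoldt d / d :=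
      (sum_Ioc_consecutive _ (Nat.zero_le w) hm1).symm
    linarith)
  have h1 : ∏ p ∈ PPr w z, (1 + 1 / ((p : ℝ) - 1))
      ≤ Real.exp (∑ p ∈ PPr w z, 1 / ((p : ℝ) - 1)) := by
    rw [Real.exp_sum]
    apply prod_le_prod
    · intro p hp
      rw [mem_PPr] at hp
      have : (1 : ℝ) < p := by exact_mod_cast hp.2.one_lt
      have : 0 < 1 / ((p : ℝ) - 1) := by
        apply div_pos one_pos
        linarith
      linarith
    · intro p _
      rw [add_comm]
      exact Real.add_one_le_exp _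
  have h2 : ∑ p ∈ PPr w z, 1 / ((p : ℝ) - 1)
      = ∑ p ∈ PPr w z, 1 / (p : ℝ) + ∑ p ∈ PPr w z, 1 / ((p : ℝ) * ((p : ℝ) - 1)) := by
    rw [← sum_add_distrib]
    apply sum_congr rfl
    intro p hp
    rw [mem_PPr] at hp
    have h3 : (1 : ℝ) < p := by exact_mod_cast hp.2.one_lt
    have h4 : (p : ℝ) - 1 ≠ 0 := by linarith
    have h5 : (p : ℝ) ≠ 0 := by linarith
    field_simp
    ring
  have h3 : ∑ p ∈ PPr w z, 1 / ((p : ℝ) * ((p : ℝ) - 1)) ≤ 1 := by
    have h4 : ∑ p ∈ PPr w z, 1 / ((p : ℝ) * ((p : ℝ) - 1))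
        ≤ ∑ k ∈ Ioc w z, 1 / ((k : ℝ) * ((k : ℝ) - 1)) := by
      apply sum_le_sum_of_subset_of_nonneg (filter_subset _ _)
      intro k hk _
      rw [mem_Ioc] at hk
      have : (1 : ℝ) < k := by exact_mod_cast (by omega : 1 < k)
      apply div_nonneg zero_le_one
      nlinarith
    have h5 := sum_tele (by omega : 2 ≤ w) hwz
    have h6 : 1 / (w : ℝ) ≤ 1 := by
      rw [div_le_one (by linarith)]
      linarith
    have h7 : 0 ≤ 1 / (z : ℝ) := by positivity
    linarith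
  have h4 : (c0 + 1) / Real.log w ≤ c0 + 1 := div_le_self (by linarith) hlw
  have h5 : ∑ p ∈ PPr w z, 1 / ((p : ℝ) - 1) ≤ Real.log (Real.log z / Real.log w) + (c0 + 2) := by
    rw [h2]
    linarith
  refine h1.trans ((Real.exp_le_exp.2 h5).trans (le_of_eq ?_))
  rw [Real.exp_add, Real.exp_log (by positivity)]
  ring

end

end Pool.Agent.H35.V1

end

section

/-!
# MU RgI: rough numbers in short intervals (upper bound sieve)

Proof.  `q = ∏_{p ≤ P} p`, `D = P 2^J`.  For `n` with `Rk P J n` every squarefree `l ≤ D` prime to `q` has all its prime factors in `(P, D]`, so `(l, n) = 1` and `ramS l n = μ(l)`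
(Ramanujan sum); so `Ps D q n = Gs D q` (`H87/WL/Defs.lean`).  Additive large sieve (dual form; see `H91/PK/LSa.lean` and `H76/EHB`, `H76/GB`):
`∑_{n ∈ Ico a (a+h)} Ps D q n ^ 2 ≤ (h + D^2) Gs D q`, because `Ps D q n = ∑_{l} ∑_{r mod l, (r,l)=1} (μ(l)/φ(l)) ee(n r/l)`, the fractions are `1/D^2`-separated and the sum of the squares
of the coefficients is `∑ μ(l)^2/φ(l)^2 · φ(l) = Gs D q`.  So the number is `≤ 2 h/Gs D q` (`D^2 ≤ h`; if the large sieve is available only with a constant, `C` absorbs it; alternatively expand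
`∑_n (∑_{s | n} ls D q s)^2` with Selberg's weights `ls`, `H87/WL/Sel*.lean`, if `(P 2^J)^4 ≤ h`), `Gs D q ≥ (φ(q)/q) log (D + 1)` (`gs_ge`) and `q/φ(q) = ∏_{p ≤ P} (1 - 1/p)^{-1} ≤ C log P`
(Mertens upper bound, `P ≥ 2`).
-/

set_option autoImplicit false

namespace Pool.Agent.H76.MU

open Finset MeasureTheory
open Pool.Agent.H91.PK (ee)
open Pool.Agent.H76.EHB
open Pool.Agent.H35.W

/-- the product of the primes up to `P` -/
private def RgI_q (P : ℕ) : ℕ := ∏ p ∈ Pool.Agent.H35.V1.PPr 0 P, p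

private theorem RgI_primeFactors (P : ℕ) :
    (RgI_q P).primeFactors = Pool.Agent.H35.V1.PPr 0 P := by
  unfold RgI_q
  exact Nat.primeFactors_prod fun p hp => (Pool.Agent.H35.V1.mem_PPr.1 hp).2

private theorem RgI_q_ne (P : ℕ) : RgI_q P ≠ 0 := by
  unfold RgI_q
  rw [prod_ne_zero_iff]
  intro p hp
  exact (Pool.Agent.H35.V1.mem_PPr.1 hp).2.ne_zero

private theorem RgI_ratio (P : ℕ) : ((RgI_q P : ℕ) : ℝ) / (RgI_q P).totient =
    ∏ p ∈ Pool.Agent.H35.V1.PPr 0 P, (1 + 1 / ((p : ℝ) - 1)) := by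
  have h := Pool.Agent.H87.WL.gl_tot (RgI_q P) (RgI_q_ne P)
  rw [← h, RgI_primeFactors]
  have h1 : (Pool.Agent.H35.V1.PPr 0 P).filter (fun p => p.Prime) =
      Pool.Agent.H35.V1.PPr 0 P :=
    filter_true_of_mem fun p hp => (Pool.Agent.H35.V1.mem_PPr.1 hp).2
  rw [h1]
  refine prod_congr rfl fun p hp => ?_
  have hp2 : (1 : ℝ) < p := by
    exact_mod_cast (Pool.Agent.H35.V1.mem_PPr.1 hp).2.one_lt
  rw [Pool.Agent.H87.WL.gl_inv_apply]
  have h2 : (p : ℝ) ≠ 0 := by linarith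
  have h3 : (p : ℝ) - 1 ≠ 0 := by linarith
  field_simp
  ring

private theorem RgI_mertens : ∃ C : ℝ, 0 < C ∧ ∀ P : ℕ, 2 ≤ P →
    ((RgI_q P : ℕ) : ℝ) / (RgI_q P).totient ≤ C * Real.log P := by
  obtain ⟨C, hC, hM⟩ := Pool.Agent.H35.V1.exists_mertens_prod
  have hl2 : 0 < Real.log 2 := Real.log_pos (by norm_num)
  have hl3 : 0 < Real.log 3 := Real.log_pos (by norm_num)
  refine ⟨3 * C / Real.log 3 + 2 / Real.log 2, by positivity, fun P hP => ?_⟩
  rw [RgI_ratio]
  have hlP : 0 < Real.log P := Real.log_pos (by exact_mod_cast (by omega : 1 < P))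
  rcases Nat.lt_or_ge P 3 with h | h
  · have h2 : P = 2 := by omega
    subst h2
    have e : Pool.Agent.H35.V1.PPr 0 2 = {2} := by decide
    rw [e, prod_singleton]
    have h3 : (2 / Real.log 2) * Real.log ((2 : ℕ) : ℝ) = 2 := by
      push_cast
      field_simp
    have h4 : 0 ≤ 3 * C / Real.log 3 * Real.log ((2 : ℕ) : ℝ) := by positivity
    rw [add_mul, h3]
    push_cast
    push_cast at h4
    linarith
  · have e : Pool.Agent.H35.V1.PPr 0 P = Pool.Agent.H35.V1.PPr 0 3 ∪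
        Pool.Agent.H35.V1.PPr 3 P := by
      ext p
      rw [mem_union, Pool.Agent.H35.V1.mem_PPr, Pool.Agent.H35.V1.mem_PPr,
        Pool.Agent.H35.V1.mem_PPr]
      constructor
      · rintro ⟨⟨h1, h2⟩, h3⟩
        rcases Nat.lt_or_ge 3 p with h4 | h4
        · exact Or.inr ⟨⟨h4, h2⟩, h3⟩
        · exact Or.inl ⟨⟨h1, h4⟩, h3⟩
      · rintro (⟨⟨h1, h2⟩, h3⟩ | ⟨⟨h1, h2⟩, h3⟩)
        · exact ⟨⟨h1, h2.trans h⟩, h3⟩
        · exact ⟨⟨by omega, h2⟩, h3⟩
    have hd : Disjoint (Pool.Agent.H35.V1.PPr 0 3) (Pool.Agent.H35.V1.PPr 3 P) := by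
      rw [disjoint_left]
      intro p h1 h2
      rw [Pool.Agent.H35.V1.mem_PPr] at h1 h2
      omega
    rw [e, prod_union hd]
    have e3 : Pool.Agent.H35.V1.PPr 0 3 = {2, 3} := by decide
    have e4 : ∏ p ∈ Pool.Agent.H35.V1.PPr 0 3, (1 + 1 / ((p : ℝ) - 1)) = 3 := by
      rw [e3, prod_pair (by norm_num)]
      norm_num
    rw [e4]
    have h5 := hM 3 P le_rfl h
    have h6 : 0 ≤ 2 / Real.log 2 * Real.log P := by positivity
    rw [add_mul]
    have h7 : 3 * (C * (Real.log P / Real.log ((3 : ℕ) : ℝ))) =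
        3 * C / Real.log 3 * Real.log P := by
      push_cast
      field_simp
    calc 3 * ∏ p ∈ Pool.Agent.H35.V1.PPr 3 P, (1 + 1 / ((p : ℝ) - 1))
        ≤ 3 * (C * (Real.log P / Real.log ((3 : ℕ) : ℝ))) :=
          mul_le_mul_of_nonneg_left h5 (by norm_num)
      _ = 3 * C / Real.log 3 * Real.log P := h7
      _ ≤ _ := by linarith

private theorem RgI_e_eq (t : ℝ) : Pool.Agent.H92.EH.e t = ee t := by
  unfold Pool.Agent.H92.EH.e ee
  congr 1
  push_cast
  ring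

/-- Ramanujan sums at coprime arguments -/
private theorem RgI_ram (l n : ℕ) (hl : 0 < l) (h : Nat.Coprime n l) :
    ∑ b ∈ (Icc 1 l).filter (fun b => Nat.Coprime b l), ee ((n : ℝ) * b / l) =
      ((ArithmeticFunction.moebius l : ℤ) : ℂ) := by
  have h1 := Pool.Agent.H92.EH.ram_of_coprime l hl (n : ℤ) (Nat.isCoprime_iff_coprime.2 h)
  rw [← h1]
  unfold Pool.Agent.H92.EH.ram
  rcases Nat.lt_or_ge 1 l with h2 | h2
  · have e : (Icc 1 l).filter (fun b => Nat.Coprime b l) = Pool.Agent.H92.EH.red l := by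
      ext b
      rw [mem_filter, mem_Icc, Pool.Agent.H92.EH.mem_red]
      constructor
      · rintro ⟨⟨h3, h4⟩, h5⟩
        refine ⟨lt_of_le_of_ne h4 ?_, h5⟩
        rintro rfl
        rw [Nat.coprime_self] at h5
        omega
      · rintro ⟨h3, h4⟩
        refine ⟨⟨?_, h3.le⟩, h4⟩
        by_contra h5
        have h6 : b = 0 := by omega
        subst h6
        rw [Nat.coprime_zero_left] at h4
        omega
    rw [e]
    refine sum_congr rfl fun b _ => ?_
    rw [RgI_e_eq]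
    congr 1
    push_cast
    ring
  · have h3 : l = 1 := by omega
    subst h3
    have e1 : (Icc 1 1).filter (fun b => Nat.Coprime b 1) = {1} := by decide
    have e2 : Pool.Agent.H92.EH.red 1 = {0} := by decide
    rw [e1, e2, sum_singleton, sum_singleton, RgI_e_eq]
    have h4 : ee ((n : ℝ) * ((1 : ℕ) : ℝ) / ((1 : ℕ) : ℝ)) = 1 := by
      unfold ee
      rw [Complex.exp_eq_one_iff]
      exact ⟨n, by push_cast; ring⟩
    have h5 : ee (((n : ℤ) : ℝ) * (((0 : ℕ) : ℝ) / ((1 : ℕ) : ℝ))) = 1 := by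
      unfold ee
      rw [Complex.exp_eq_one_iff]
      exact ⟨0, by push_cast; ring⟩
    rw [h4, h5]

/-- a prime in `(P, P 2^J]` lies in a block -/
private theorem RgI_block (P J p : ℕ) (hp : p.Prime) (h1 : P < p) (h2 : p ≤ P * 2 ^ J) :
    ∃ i < J, p ∈ pb (P * 2 ^ i) := by
  induction J with
  | zero =>
    rw [pow_zero, mul_one] at h2
    omega
  | succ J ih =>
    by_cases h3 : p ≤ P * 2 ^ J
    · obtain ⟨i, hi, h4⟩ := ih h3
      exact ⟨i, by omega, h4⟩
    · refine ⟨J, by omega, ?_⟩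
      unfold pb
      rw [mem_filter, mem_Ioc]
      refine ⟨⟨by omega, ?_⟩, hp⟩
      rw [pow_succ] at h2
      linarith [h2]

private theorem RgI_coprime (P J n l : ℕ) (hn : Rk P J n) (hl0 : 0 < l) (hl : l ≤ P * 2 ^ J)
    (hc : Nat.Coprime l (RgI_q P)) : Nat.Coprime n l := by
  rw [Nat.coprime_comm]
  refine Nat.Coprime.symm ?_
  refine Nat.Coprime.symm (Nat.coprime_of_dvd ?_)
  intro p hp hpl hpn
  have h1 : P < p := by
    by_contra hcon
    have h2 : p ∣ RgI_q P := by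
      unfold RgI_q
      refine dvd_prod_of_mem _ ?_
      rw [Pool.Agent.H35.V1.mem_PPr]
      exact ⟨⟨hp.pos, by omega⟩, hp⟩
    have h3 := Nat.eq_one_of_dvd_coprimes hc hpl h2
    exact hp.one_lt.ne' h3
  obtain ⟨i, hi, h4⟩ := RgI_block P J p hp h1 ((Nat.le_of_dvd hl0 hpl).trans hl)
  exact hn i hi p h4 hpn

private theorem RgI_term (P J l : ℕ) (T : Finset ℕ) (hT : ∀ n ∈ T, Rk P J n) (hl0 : 0 < l)
    (hl : l ≤ P * 2 ^ J) (hc : Nat.Coprime l (RgI_q P)) :
    Pool.Agent.H87.WL.mo l ^ 2 / (l.totient : ℝ) * (T.card : ℝ) ^ 2 ≤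
      ∑ b ∈ (Icc 1 l).filter (fun b => Nat.Coprime b l),
        ‖∑ n ∈ T, ee ((n : ℝ) * b / l)‖ ^ 2 := by
  have hφ : (0 : ℝ) < l.totient := by exact_mod_cast Nat.totient_pos.2 hl0
  have h1 : ∑ b ∈ (Icc 1 l).filter (fun b => Nat.Coprime b l),
      ∑ n ∈ T, ee ((n : ℝ) * b / l) = (T.card : ℂ) * ((ArithmeticFunction.moebius l : ℤ) : ℂ) := by
    rw [sum_comm, sum_congr rfl fun n hn => RgI_ram l n hl0
      (RgI_coprime P J n l (hT n hn) hl0 hl hc), sum_const, nsmul_eq_mul]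
  have h2 : ‖(T.card : ℂ) * ((ArithmeticFunction.moebius l : ℤ) : ℂ)‖ =
      (T.card : ℝ) * |Pool.Agent.H87.WL.mo l| := by
    rw [norm_mul, Complex.norm_natCast, Complex.norm_intCast]
    rfl
  have h3 : (T.card : ℝ) * |Pool.Agent.H87.WL.mo l| ≤
      ∑ b ∈ (Icc 1 l).filter (fun b => Nat.Coprime b l), ‖∑ n ∈ T, ee ((n : ℝ) * b / l)‖ := by
    rw [← h2, ← h1]
    exact norm_sum_le _ _
  have h4 := sq_sum_le_card_mul_sum_sq (s := (Icc 1 l).filter (fun b => Nat.Coprime b l))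
    (f := fun b => ‖∑ n ∈ T, ee ((n : ℝ) * b / l)‖)
  have h5 : (((Icc 1 l).filter (fun b => Nat.Coprime b l)).card : ℝ) = l.totient := by
    congr 1
    rw [Nat.totient_eq_card_coprime]
    rcases Nat.lt_or_ge 1 l with h2 | h2
    · apply congrArg card
      ext b
      rw [mem_filter, mem_Icc, mem_filter, mem_range, Nat.coprime_comm]
      constructor
      · rintro ⟨⟨h3, h4⟩, h5⟩
        refine ⟨lt_of_le_of_ne h4 ?_, h5⟩
        rintro rfl
        rw [Nat.coprime_self] at h5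
        omega
      · rintro ⟨h3, h4⟩
        refine ⟨⟨?_, h3.le⟩, h4⟩
        by_contra h5
        have h6 : b = 0 := by omega
        subst h6
        rw [Nat.coprime_zero_right] at h4
        omega
    · have h3 : l = 1 := by omega
      subst h3
      decide
  rw [h5] at h4
  have h6 : ((T.card : ℝ) * |Pool.Agent.H87.WL.mo l|) ^ 2 ≤
      (∑ b ∈ (Icc 1 l).filter (fun b => Nat.Coprime b l),
        ‖∑ n ∈ T, ee ((n : ℝ) * b / l)‖) ^ 2 :=
    pow_le_pow_left₀ (by positivity) h3 2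
  rw [mul_pow, sq_abs] at h6
  rw [div_mul_eq_mul_div, div_le_iff₀ hφ]
  calc Pool.Agent.H87.WL.mo l ^ 2 * (T.card : ℝ) ^ 2
      = (T.card : ℝ) ^ 2 * Pool.Agent.H87.WL.mo l ^ 2 := by ring
    _ ≤ _ := h6.trans h4
    _ = _ := by ring

private theorem RgI_main (P J K0 K : ℕ) (T : Finset ℕ) (hT : ∀ n ∈ T, Rk P J n)
    (hTs : T ⊆ Ioc K0 (K0 + K)) :
    (T.card : ℝ) * Pool.Agent.H87.WL.Gs (P * 2 ^ J) (RgI_q P) ≤
      ((P * 2 ^ J : ℕ) : ℝ) ^ 2 + Real.pi * K := by
  rcases Nat.eq_zero_or_pos T.card with h0 | h0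
  · rw [h0, Nat.cast_zero, zero_mul]
    positivity
  have hc0 : (0 : ℝ) < T.card := by exact_mod_cast h0
  have h1 := Pool.Agent.H91.PK.additive_ls (P * 2 ^ J) K0 K (fun n => if n ∈ T then 1 else 0)
  have h2 : ∀ t : ℕ → ℂ, ∑ n ∈ Ioc K0 (K0 + K), (if n ∈ T then (1 : ℂ) else 0) * t n =
      ∑ n ∈ T, t n := by
    intro t
    rw [← sum_filter_add_sum_filter_not (Ioc K0 (K0 + K)) (fun n => n ∈ T)]
    have e1 : (Ioc K0 (K0 + K)).filter (fun n => n ∈ T) = T := by
      ext n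
      rw [mem_filter]
      exact ⟨fun h => h.2, fun h => ⟨hTs h, h⟩⟩
    rw [e1]
    have e2 : ∑ n ∈ (Ioc K0 (K0 + K)).filter (fun n => ¬ n ∈ T),
        (if n ∈ T then (1 : ℂ) else 0) * t n = 0 := by
      refine sum_eq_zero fun n hn => ?_
      rw [if_neg (mem_filter.1 hn).2, zero_mul]
    rw [e2, add_zero]
    refine sum_congr rfl fun n hn => ?_
    rw [if_pos hn, one_mul]
  have h3 : ∑ n ∈ Ioc K0 (K0 + K), ‖(if n ∈ T then (1 : ℂ) else 0)‖ ^ 2 = (T.card : ℝ) := by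
    have e1 : ∀ n, ‖(if n ∈ T then (1 : ℂ) else 0)‖ ^ 2 = if n ∈ T then (1 : ℝ) else 0 := by
      intro n
      split_ifs <;> simp
    simp only [e1]
    rw [← sum_filter]
    have e2 : (Ioc K0 (K0 + K)).filter (fun n => n ∈ T) = T := by
      ext n
      rw [mem_filter]
      exact ⟨fun h => h.2, fun h => ⟨hTs h, h⟩⟩
    rw [e2, sum_const, nsmul_eq_mul, mul_one]
  rw [h3] at h1
  simp only [h2] at h1
  have h4 : Pool.Agent.H87.WL.Gs (P * 2 ^ J) (RgI_q P) * (T.card : ℝ) ^ 2 ≤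
      (((P * 2 ^ J : ℕ) : ℝ) ^ 2 + Real.pi * K) * T.card := by
    refine le_trans ?_ h1
    unfold Pool.Agent.H87.WL.Gs
    rw [sum_mul]
    refine le_trans (sum_le_sum (g := fun l : ℕ =>
      ∑ b ∈ (Icc 1 l).filter (fun b => Nat.Coprime b l),
        ‖∑ n ∈ T, ee ((n : ℝ) * b / l)‖ ^ 2) fun l hl => ?_) ?_
    · rw [mem_filter, mem_Icc] at hl
      exact RgI_term P J l T hT (by omega) hl.1.2 hl.2
    · refine sum_le_sum_of_subset_of_nonneg (filter_subset _ _) fun l _ _ => ?_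
      exact sum_nonneg fun b _ => by positivity
  have h5 : (T.card : ℝ) * ((T.card : ℝ) * Pool.Agent.H87.WL.Gs (P * 2 ^ J) (RgI_q P)) ≤
      T.card * (((P * 2 ^ J : ℕ) : ℝ) ^ 2 + Real.pi * K) := by
    calc _ = Pool.Agent.H87.WL.Gs (P * 2 ^ J) (RgI_q P) * (T.card : ℝ) ^ 2 := by ring
      _ ≤ _ := h4
      _ = _ := by ring
  exact le_of_mul_le_mul_left h5 hc0

open Classical in
theorem rg_int : ∃ C : ℝ, 0 < C ∧ ∀ P J a h : ℕ, 2 ≤ P → (P * 2 ^ J) ^ 4 ≤ h →
    (((Ico a (a + h)).filter (fun n => Rk P J n)).card : ℝ)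
      ≤ C * h * Real.log P / Real.log ((P * 2 ^ J : ℕ) : ℝ) := by
  obtain ⟨C, hC, hM⟩ := RgI_mertens
  refine ⟨5 * C + 2, by positivity, fun P J a h hP hh => ?_⟩
  set D : ℕ := P * 2 ^ J with hD
  have hD2 : 2 ≤ D := hP.trans (Nat.le_mul_of_pos_right P (by positivity))
  have hlP : 0 < Real.log P := Real.log_pos (by exact_mod_cast (by omega : 1 < P))
  have hlD : 0 < Real.log D := Real.log_pos (by exact_mod_cast (by omega : 1 < D))
  have hDh2 : D ^ 2 ≤ h := (Nat.pow_le_pow_right (by omega) (by norm_num)).trans hh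
  have hDh : D ≤ h := (Nat.le_self_pow (by norm_num) D).trans hh
  set T : Finset ℕ := (Ioc (a - 1) (a - 1 + h)).filter (fun n => Rk P J n) with hT
  have hmain := RgI_main P J (a - 1) h T (fun n hn => (mem_filter.1 hn).2) (filter_subset _ _)
  rw [← hD] at hmain
  have hcard : ((Ico a (a + h)).filter (fun n => Rk P J n)).card ≤ T.card + 1 := by
    have hsub : (Ico a (a + h)).filter (fun n => Rk P J n) ⊆ insert 0 T := by
      intro n hn
      rw [mem_filter, mem_Ico] at hn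
      rw [mem_insert, hT, mem_filter, mem_Ioc]
      rcases Nat.eq_zero_or_pos n with h0 | h0
      · exact Or.inl h0
      · exact Or.inr ⟨⟨by omega, by omega⟩, hn.2⟩
    exact (card_le_card hsub).trans (card_insert_le _ _)
  have hGs := Pool.Agent.H87.WL.gs_ge D (RgI_q P) (Nat.one_le_iff_ne_zero.2 (RgI_q_ne P))
  have hq := hM P hP
  have hq0 : (0 : ℝ) < RgI_q P := by exact_mod_cast Nat.pos_of_ne_zero (RgI_q_ne P)
  have hφ0 : (0 : ℝ) < (RgI_q P).totient := by
    exact_mod_cast Nat.totient_pos.2 (Nat.pos_of_ne_zero (RgI_q_ne P))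
  have hlD1 : Real.log D ≤ Real.log (D + 1) :=
    Real.log_le_log (by exact_mod_cast (by omega : 0 < D)) (by linarith)
  have h1 : Real.log D ≤ C * Real.log P * Pool.Agent.H87.WL.Gs D (RgI_q P) := by
    have h2 : 0 ≤ Pool.Agent.H87.WL.Gs D (RgI_q P) := by
      refine le_trans ?_ hGs
      have : 0 ≤ Real.log ((D : ℝ) + 1) := by linarith
      positivity
    calc Real.log D ≤ Real.log (D + 1) := hlD1
      _ = ((RgI_q P : ℕ) : ℝ) / (RgI_q P).totient *
          (((RgI_q P).totient : ℝ) / RgI_q P * Real.log (D + 1)) := by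
        field_simp
      _ ≤ ((RgI_q P : ℕ) : ℝ) / (RgI_q P).totient * Pool.Agent.H87.WL.Gs D (RgI_q P) :=
        mul_le_mul_of_nonneg_left hGs (by positivity)
      _ ≤ _ := mul_le_mul_of_nonneg_right hq h2
  have h2 : (T.card : ℝ) * Pool.Agent.H87.WL.Gs D (RgI_q P) ≤ 5 * h := by
    have h3 : ((D : ℕ) : ℝ) ^ 2 ≤ h := by exact_mod_cast hDh2
    have h4 := Real.pi_le_four
    have h5 : Real.pi * (h : ℝ) ≤ 4 * h := mul_le_mul_of_nonneg_right h4 (Nat.cast_nonneg h)
    linarith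
  have h3 : (T.card : ℝ) * Real.log D ≤ 5 * C * h * Real.log P := by
    calc (T.card : ℝ) * Real.log D
        ≤ T.card * (C * Real.log P * Pool.Agent.H87.WL.Gs D (RgI_q P)) :=
          mul_le_mul_of_nonneg_left h1 (Nat.cast_nonneg _)
      _ = C * Real.log P * ((T.card : ℝ) * Pool.Agent.H87.WL.Gs D (RgI_q P)) := by ring
      _ ≤ C * Real.log P * (5 * h) := mul_le_mul_of_nonneg_left h2 (by positivity)
      _ = _ := by ring
  have h4 : Real.log D ≤ 2 * h * Real.log P := by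
    have h5 : Real.log D ≤ D := (Real.log_le_self (Nat.cast_nonneg D))
    have h6 : (D : ℝ) ≤ h := by exact_mod_cast hDh
    have h7 : Real.log 2 ≤ Real.log P :=
      Real.log_le_log (by norm_num) (by exact_mod_cast hP)
    have h8 := Real.log_two_gt_d9
    have h9 : (0 : ℝ) ≤ h := Nat.cast_nonneg h
    nlinarith
  rw [le_div_iff₀ hlD]
  have h5 : (((Ico a (a + h)).filter (fun n => Rk P J n)).card : ℝ) ≤ T.card + 1 := by
    exact_mod_cast hcard
  calc (((Ico a (a + h)).filter (fun n => Rk P J n)).card : ℝ) * Real.log D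
      ≤ (T.card + 1) * Real.log D := mul_le_mul_of_nonneg_right h5 hlD.le
    _ = T.card * Real.log D + Real.log D := by ring
    _ ≤ 5 * C * h * Real.log P + 2 * h * Real.log P := add_le_add h3 h4
    _ = _ := by ring

end Pool.Agent.H76.MU

end

section

/-!
# MU MuId: the Möbius function from the Liouville function, and the tail

`mu_id`: write `n = b^2 a`, `a` squarefree (`Nat.sq_mul_squarefree`): `d^2 | n` iff `d | b`, `lio (n/d^2) = lio a = μ(a)` and `∑_{d | b} μ(d) = [b = 1]`.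
`tail`: `t(n) = #{d ∈ Ioc D n : d^2 | n}`; `(∑_{n ∈ window} t)^2 ≤ h ∑_{n ∈ window} t(n)^2` and each `n ≤ 2X` is in at most `h` windows: the left side is `≤ h^2 ∑_{n ≤ 2X} t(n)^2`, and
`∑_{n ≤ 2X} t(n)^2 = ∑_{d, d' > D} #{n ≤ 2X : lcm(d,d')^2 | n} ≤ 2X ∑_{d > D} ∑_{d'} gcd(d,d')^2/(d d')^2 ≤ 2X ∑_{d > D} d^{-2} ∑_{g | d} ∑_e e^{-2} ≤ 4 X ∑_{d > D} τ(d)/d^2 ≤ 4X ∑_{d > D} 2 √d/d^2 ≤ 16 X/√D · 2`
(finite sums over `d, d' ≤ 2X`; `τ(d) ≤ 2 √d`; `∑_{d > D} d^{-3/2} ≤ 2/√D`; `D ≥ 1`).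
-/

set_option autoImplicit false

namespace Pool.Agent.H76.MU

open Finset

/-- the Möbius function -/
noncomputable def muR (n : ℕ) : ℝ := ((ArithmeticFunction.moebius n : ℤ) : ℝ)

private lemma sq_dvd_iff (b a d : ℕ) (hb : b ≠ 0) (ha : Squarefree a) (hd : d ≠ 0) :
    d ^ 2 ∣ b ^ 2 * a ↔ d ∣ b := by
  constructor
  · intro h
    have ha0 : a ≠ 0 := ha.ne_zero
    rw [← Nat.factorization_le_iff_dvd hd hb]
    rw [← Nat.factorization_le_iff_dvd (by positivity) (by positivity)] at h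
    intro p
    have h1 := h p
    rw [Nat.factorization_mul (by positivity) ha0, Nat.factorization_pow, Nat.factorization_pow] at h1
    simp only [Finsupp.coe_smul, Finsupp.coe_add, Pi.add_apply, Pi.smul_apply, smul_eq_mul] at h1
    have h2 : a.factorization p ≤ 1 := by
      exact (Nat.squarefree_iff_factorization_le_one ha0).1 ha p
    omega
  · intro h
    exact Dvd.dvd.mul_right (pow_dvd_pow_of_dvd h 2) a

private lemma sum_mu_div (b : ℕ) : ∑ d ∈ b.divisors, muR d = if b = 1 then 1 else 0 := by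
  have h := congrArg (fun f : ArithmeticFunction ℤ => f b)
    ArithmeticFunction.coe_zeta_mul_moebius
  simp only [ArithmeticFunction.coe_zeta_mul_apply, ArithmeticFunction.one_apply] at h
  unfold muR
  rw [← Int.cast_sum, h]
  split_ifs <;> simp

theorem mu_id (n : ℕ) (hn : n ≠ 0) :
    muR n = ∑ d ∈ (Icc 1 n).filter (fun d => d ^ 2 ∣ n), muR d * lio (n / d ^ 2) := by
  obtain ⟨a, b, hab, ha⟩ := Nat.sq_mul_squarefree n
  have hb : b ≠ 0 := by
    rintro rfl
    apply hn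
    rw [← hab]; simp
  have ha0 : a ≠ 0 := ha.ne_zero
  have hset : (Icc 1 n).filter (fun d => d ^ 2 ∣ n) = b.divisors := by
    ext d
    rw [mem_filter, mem_Icc, Nat.mem_divisors]
    constructor
    · rintro ⟨⟨h1, h2⟩, h3⟩
      rw [← hab] at h3
      exact ⟨(sq_dvd_iff b a d hb ha (by omega)).1 h3, hb⟩
    · rintro ⟨h1, h2⟩
      have hd0 : 0 < d := Nat.pos_of_dvd_of_pos h1 (by omega)
      refine ⟨⟨hd0, ?_⟩, ?_⟩
      · have h3 : d ≤ b := Nat.le_of_dvd (by omega) h1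
        have h4 : b ≤ b ^ 2 := by nlinarith [Nat.pos_of_ne_zero hb]
        have h5 : b ^ 2 ≤ b ^ 2 * a := Nat.le_mul_of_pos_right _ (Nat.pos_of_ne_zero ha0)
        omega
      · rw [← hab]
        exact (sq_dvd_iff b a d hb ha (by omega)).2 h1
  rw [hset]
  have hl : ∀ d ∈ b.divisors, muR d * lio (n / d ^ 2) = muR d * lio a := by
    intro d hd
    rw [Nat.mem_divisors] at hd
    obtain ⟨⟨e, he⟩, _⟩ := hd
    have hd0 : 0 < d := by
      rcases Nat.eq_zero_or_pos d with h | h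
      · subst h; exfalso; apply hb; rw [he]; simp
      · exact h
    have he0 : e ≠ 0 := by
      rintro rfl; apply hb; rw [he]; simp
    have h1 : n / d ^ 2 = (e * e) * a := by
      rw [← hab, he]
      have : (d * e) ^ 2 * a = d ^ 2 * (e * e * a) := by ring
      rw [this, Nat.mul_div_cancel_left _ (by positivity)]
    rw [h1, lio_mul, lio_mul]
    have h2 : lio e * lio e = 1 := by
      unfold lio
      rw [if_neg he0, ← pow_add, ← two_mul, pow_mul]
      simp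
    rw [h2, one_mul]
  rw [sum_congr rfl hl, ← sum_mul, sum_mu_div]
  by_cases h1 : b = 1
  · subst h1
    rw [if_pos rfl, one_mul]
    have h2 : a = n := by rw [← hab]; ring
    subst h2
    unfold muR lio
    rw [if_neg hn, ArithmeticFunction.moebius_apply_of_squarefree ha]
    push_cast
    rfl
  · rw [if_neg h1, zero_mul]
    unfold muR
    have h2 : ¬ Squarefree n := by
      intro h3
      have h4 : b * b ∣ n := by rw [← hab]; exact ⟨a, by ring⟩
      have h5 := h3 b h4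
      exact h1 (Nat.isUnit_iff.1 h5)
    rw [ArithmeticFunction.moebius_eq_zero_of_not_squarefree h2]
    simp

/-- the number of divisors is at most `2 √d` -/
private lemma card_div_le (d : ℕ) : (d.divisors.card : ℝ) ≤ 2 * Real.sqrt d := by
  have h1 : d.divisors ⊆ (Icc 1 (Nat.sqrt d)) ∪ (Icc 1 (Nat.sqrt d)).image (fun e => d / e) := by
    intro e he
    rw [Nat.mem_divisors] at he
    obtain ⟨⟨f, hf⟩, hd⟩ := he
    have he0 : 0 < e := by
      rcases Nat.eq_zero_or_pos e with h | h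
      · subst h; exfalso; apply hd; rw [hf]; simp
      · exact h
    have hf0 : 0 < f := by
      rcases Nat.eq_zero_or_pos f with h | h
      · subst h; exfalso; apply hd; rw [hf]; simp
      · exact h
    rw [mem_union, mem_image]
    by_cases h2 : e ≤ Nat.sqrt d
    · left; rw [mem_Icc]; exact ⟨he0, h2⟩
    · right
      push Not at h2
      refine ⟨f, ?_, ?_⟩
      · rw [mem_Icc]
        refine ⟨hf0, ?_⟩
        by_contra h3
        push Not at h3
        have h4 : d < (Nat.sqrt d + 1) * (Nat.sqrt d + 1) := Nat.lt_succ_sqrt d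
        have h5 : (Nat.sqrt d + 1) * (Nat.sqrt d + 1) ≤ e * f := Nat.mul_le_mul h2 h3
        omega
      · show d / f = e
        rw [hf]
        exact Nat.mul_div_cancel _ hf0
  have h2 := (card_le_card h1).trans (card_union_le _ _)
  have h3 : ((Icc 1 (Nat.sqrt d)).image (fun e => d / e)).card ≤ (Icc 1 (Nat.sqrt d)).card :=
    card_image_le
  rw [Nat.card_Icc] at h2 h3
  have h4 : d.divisors.card ≤ 2 * Nat.sqrt d := by omega
  have h5 : ((Nat.sqrt d : ℕ) : ℝ) ≤ Real.sqrt d := Real.nat_sqrt_le_real_sqrt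
  have h6 : (d.divisors.card : ℝ) ≤ 2 * (Nat.sqrt d : ℕ) := by exact_mod_cast h4
  linarith

private lemma sum_inv_sq (N : ℕ) : ∑ e ∈ Icc 1 N, (1 : ℝ) / (e : ℝ) ^ 2 ≤ 2 := by
  rcases Nat.eq_zero_or_pos N with h | h
  · subst h; simp
  · have h1 : Icc 1 N = insert 1 (Ioc 1 N) := by
      ext x; simp only [mem_Icc, mem_insert, mem_Ioc]; omega
    rw [h1, sum_insert (by simp)]
    have h2 := sum_Ioc_inv_sq_le_sub (α := ℝ) (k := 1) (n := N) one_ne_zero h
    have h3 : ∑ e ∈ Ioc 1 N, (1 : ℝ) / (e : ℝ) ^ 2 = ∑ e ∈ Ioc 1 N, ((e : ℝ) ^ 2)⁻¹ :=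
      sum_congr rfl (fun e _ => one_div _)
    rw [h3]
    have h4 : (0 : ℝ) ≤ ((N : ℕ) : ℝ)⁻¹ := by positivity
    norm_num at h2 ⊢
    linarith

private lemma sum_three_half (D N : ℕ) (hD : 1 ≤ D) :
    ∑ d ∈ Ioc D N, (1 : ℝ) / (d * Real.sqrt d) ≤ 2 / Real.sqrt D := by
  have key : ∀ N : ℕ, D ≤ N → ∑ d ∈ Ioc D N, (1 : ℝ) / (d * Real.sqrt d)
      ≤ 2 / Real.sqrt D - 2 / Real.sqrt N := by
    intro N hN
    induction N, hN using Nat.le_induction with
    | base => simp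
    | succ N hN ih =>
      have e1 : Ioc D (N + 1) = insert (N + 1) (Ioc D N) := by
        ext x; simp only [mem_insert, mem_Ioc]; omega
      rw [e1, sum_insert (by simp)]
      have hN0 : (0 : ℝ) < N := by exact_mod_cast (by omega : 0 < N)
      have hs1 : 0 < Real.sqrt N := Real.sqrt_pos.2 hN0
      have hN1 : (0 : ℝ) < ((N + 1 : ℕ) : ℝ) := by positivity
      have hs2 : 0 < Real.sqrt ((N + 1 : ℕ) : ℝ) := Real.sqrt_pos.2 hN1
      have hle : Real.sqrt N ≤ Real.sqrt ((N + 1 : ℕ) : ℝ) :=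
        Real.sqrt_le_sqrt (by push_cast; linarith)
      have q1 : Real.sqrt N ^ 2 = N := Real.sq_sqrt hN0.le
      have q2 : Real.sqrt ((N + 1 : ℕ) : ℝ) ^ 2 = N + 1 := by
        rw [Real.sq_sqrt hN1.le]; push_cast; ring
      set a := Real.sqrt N with ha
      set b := Real.sqrt ((N + 1 : ℕ) : ℝ) with hb
      have hcast : ((N + 1 : ℕ) : ℝ) = b ^ 2 := by rw [q2]; push_cast; ring
      have h5 : (1 : ℝ) / (((N + 1 : ℕ) : ℝ) * b) ≤ 2 / a - 2 / b := by
        rw [hcast, div_sub_div _ _ hs1.ne' hs2.ne', div_le_div_iff₀ (by positivity) (by positivity)]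
        have h6 : (b - a) * (b + a) = 1 := by
          have : (b - a) * (b + a) = b ^ 2 - a ^ 2 := by ring
          rw [this, q1, q2]; ring
        have h7 : 0 ≤ b - a := by linarith
        have h8 : 1 ≤ 2 * b * (b - a) := by nlinarith
        have h9 : (0 : ℝ) < b ^ 2 := by positivity
        have h10 : a ≤ b := hle
        nlinarith [mul_le_mul_of_nonneg_left h8 (by positivity : (0 : ℝ) ≤ b ^ 2), mul_le_mul_of_nonneg_left h10 hs2.le]
      linarith
  rcases le_or_gt D N with h | h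
  · have := key N h
    have h2 : 0 ≤ 2 / Real.sqrt N := by positivity
    linarith
  · rw [Ioc_eq_empty (by omega), sum_empty]
    positivity

/-- the inner sum over `d'` -/
private lemma inner_gcd (N d : ℕ) (hd : 1 ≤ d) :
    ∑ e ∈ Icc 1 N, ((Nat.gcd d e : ℕ) : ℝ) ^ 2 / (e : ℝ) ^ 2 ≤ 4 * Real.sqrt d := by
  classical
  set φ : ℕ → ℕ × ℕ := fun e => (Nat.gcd d e, e / Nat.gcd d e) with hφ
  set F : ℕ × ℕ → ℝ := fun x => 1 / (x.2 : ℝ) ^ 2 with hF
  have h1 : ∀ e ∈ Icc 1 N, ((Nat.gcd d e : ℕ) : ℝ) ^ 2 / (e : ℝ) ^ 2 = F (φ e) := by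
    intro e he
    rw [mem_Icc] at he
    have hg : 0 < Nat.gcd d e := Nat.gcd_pos_of_pos_right _ (by omega)
    have he0 : (0 : ℝ) < e := by exact_mod_cast (by omega : 0 < e)
    have hg0 : (0 : ℝ) < ((Nat.gcd d e : ℕ) : ℝ) := by exact_mod_cast hg
    simp only [hφ, hF]
    rw [Nat.cast_div (Nat.gcd_dvd_right d e) hg0.ne']
    field_simp
  have hinj : Set.InjOn φ (Icc 1 N : Finset ℕ) := by
    intro x hx y hy hxy
    simp only [hφ, Prod.mk.injEq] at hxy
    obtain ⟨h2, h3⟩ := hxy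
    have e1 : Nat.gcd d x * (x / Nat.gcd d x) = x := Nat.mul_div_cancel' (Nat.gcd_dvd_right d x)
    have e2 : Nat.gcd d y * (y / Nat.gcd d y) = y := Nat.mul_div_cancel' (Nat.gcd_dvd_right d y)
    rw [← e1, ← e2, h3, h2]
  rw [sum_congr rfl h1, ← sum_image (f := F) hinj]
  have hsub : (Icc 1 N).image φ ⊆ d.divisors ×ˢ Icc 1 N := by
    intro x hx
    rw [mem_image] at hx
    obtain ⟨e, he, rfl⟩ := hx
    rw [mem_Icc] at he
    have hg : 0 < Nat.gcd d e := Nat.gcd_pos_of_pos_right _ (by omega)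
    rw [mem_product, Nat.mem_divisors, mem_Icc]
    simp only [hφ]
    refine ⟨⟨Nat.gcd_dvd_left d e, by omega⟩, ?_, ?_⟩
    · exact Nat.div_pos (Nat.le_of_dvd (by omega) (Nat.gcd_dvd_right d e)) hg
    · exact (Nat.div_le_self _ _).trans he.2
  have h4 : ∑ x ∈ (Icc 1 N).image φ, F x ≤ ∑ x ∈ d.divisors ×ˢ Icc 1 N, F x :=
    sum_le_sum_of_subset_of_nonneg hsub (fun x _ _ => by simp only [hF]; positivity)
  refine h4.trans ?_
  rw [sum_product]
  have h5 : ∀ g ∈ d.divisors, ∑ e ∈ Icc 1 N, F (g, e) ≤ 2 := fun g _ => sum_inv_sq N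
  refine (sum_le_sum h5).trans ?_
  rw [sum_const, nsmul_eq_mul]
  have := card_div_le d
  linarith

/-- the mean square of the number of large square divisors -/
private lemma sq_count (D N : ℕ) (hD : 1 ≤ D) :
    ∑ n ∈ Icc 1 N, (((Ioc D n).filter (fun d => d ^ 2 ∣ n)).card : ℝ) ^ 2
      ≤ N * (8 / Real.sqrt D) := by
  classical
  have h1 : ∀ n ∈ Icc 1 N, (((Ioc D n).filter (fun d => d ^ 2 ∣ n)).card : ℝ) ^ 2
      = ∑ d ∈ Ioc D N, ∑ e ∈ Ioc D N, if (d ^ 2 ∣ n ∧ e ^ 2 ∣ n) then (1 : ℝ) else 0 := by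
    intro n hn
    rw [mem_Icc] at hn
    have h2 : (Ioc D n).filter (fun d => d ^ 2 ∣ n) = (Ioc D N).filter (fun d => d ^ 2 ∣ n) := by
      ext d
      simp only [mem_filter, mem_Ioc]
      constructor
      · rintro ⟨⟨a1, a2⟩, a3⟩; exact ⟨⟨a1, by omega⟩, a3⟩
      · rintro ⟨⟨a1, a2⟩, a3⟩
        refine ⟨⟨a1, ?_⟩, a3⟩
        have := Nat.le_of_dvd (by omega) a3
        nlinarith
    rw [h2, sq, card_filter]
    push_cast
    rw [sum_mul_sum]
    refine sum_congr rfl (fun d _ => sum_congr rfl (fun e _ => ?_))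
    by_cases q1 : d ^ 2 ∣ n <;> by_cases q2 : e ^ 2 ∣ n <;> simp [q1, q2]
  rw [sum_congr rfl h1, sum_comm]
  have h2 : ∀ d ∈ Ioc D N, ∑ n ∈ Icc 1 N, ∑ e ∈ Ioc D N,
      (if (d ^ 2 ∣ n ∧ e ^ 2 ∣ n) then (1 : ℝ) else 0) ≤ N * (4 / (d * Real.sqrt d)) := by
    intro d hd
    rw [mem_Ioc] at hd
    rw [sum_comm]
    have hd0 : (0 : ℝ) < d := by exact_mod_cast (by omega : 0 < d)
    have h3 : ∀ e ∈ Ioc D N, ∑ n ∈ Icc 1 N, (if (d ^ 2 ∣ n ∧ e ^ 2 ∣ n) then (1 : ℝ) else 0)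
        ≤ (N / (d : ℝ) ^ 2) * (((Nat.gcd d e : ℕ) : ℝ) ^ 2 / (e : ℝ) ^ 2) := by
      intro e he
      rw [mem_Ioc] at he
      have he0 : (0 : ℝ) < e := by exact_mod_cast (by omega : 0 < e)
      have h4 : ∑ n ∈ Icc 1 N, (if (d ^ 2 ∣ n ∧ e ^ 2 ∣ n) then (1 : ℝ) else 0)
          ≤ (((Ioc 0 N).filter (fun n => (Nat.lcm d e) ^ 2 ∣ n)).card : ℝ) := by
        rw [card_filter]
        push_cast
        have e1 : Icc 1 N = Ioc 0 N := by ext x; simp only [mem_Icc, mem_Ioc]; omega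
        rw [e1]
        refine sum_le_sum (fun n _ => ?_)
        by_cases q : d ^ 2 ∣ n ∧ e ^ 2 ∣ n
        · have q3 : (Nat.lcm d e) ^ 2 ∣ n := by
            rw [← Nat.pow_lcm_pow]
            exact Nat.lcm_dvd q.1 q.2
          rw [if_pos q, if_pos q3]
        · rw [if_neg q]
          split_ifs <;> norm_num
      refine h4.trans ?_
      rw [Nat.Ioc_filter_dvd_card_eq_div]
      refine (Nat.cast_div_le).trans ?_
      have hg : 0 < Nat.gcd d e := Nat.gcd_pos_of_pos_right _ (by omega)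
      have hg0 : (0 : ℝ) < ((Nat.gcd d e : ℕ) : ℝ) := by exact_mod_cast hg
      have h5 : ((Nat.gcd d e : ℕ) : ℝ) * ((Nat.lcm d e : ℕ) : ℝ) = d * e := by
        exact_mod_cast Nat.gcd_mul_lcm d e
      have hl0 : (0 : ℝ) < ((Nat.lcm d e : ℕ) : ℝ) := by
        have : 0 < Nat.lcm d e := Nat.lcm_pos (by omega) (by omega)
        exact_mod_cast this
      have h6 : ((Nat.lcm d e : ℕ) : ℝ) = d * e / ((Nat.gcd d e : ℕ) : ℝ) := by
        field_simp; linarith
      push_cast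
      rw [h6]
      apply le_of_eq
      field_simp
    refine (sum_le_sum h3).trans ?_
    rw [← mul_sum]
    have h4 : ∑ e ∈ Ioc D N, ((Nat.gcd d e : ℕ) : ℝ) ^ 2 / (e : ℝ) ^ 2 ≤ 4 * Real.sqrt d := by
      refine le_trans ?_ (inner_gcd N d (by omega))
      apply sum_le_sum_of_subset_of_nonneg
      · intro x hx
        rw [mem_Ioc] at hx; rw [mem_Icc]; omega
      · intro x _ _; positivity
    refine (mul_le_mul_of_nonneg_left h4 (by positivity)).trans ?_
    have hs : 0 < Real.sqrt d := Real.sqrt_pos.2 hd0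
    have q1 : Real.sqrt d * Real.sqrt d = d := Real.mul_self_sqrt hd0.le
    apply le_of_eq
    rw [div_mul_eq_mul_div, mul_div_assoc']
    rw [div_eq_div_iff (by positivity) (by positivity)]
    calc (N : ℝ) * (4 * Real.sqrt d) * (d * Real.sqrt d)
        = N * 4 * d * (Real.sqrt d * Real.sqrt d) := by ring
      _ = N * 4 * (d : ℝ) ^ 2 := by rw [q1]; ring
  refine (sum_le_sum h2).trans ?_
  rw [← mul_sum]
  apply mul_le_mul_of_nonneg_left _ (Nat.cast_nonneg N)
  have h3 : ∑ d ∈ Ioc D N, (4 : ℝ) / (d * Real.sqrt d) = 4 * ∑ d ∈ Ioc D N, (1 : ℝ) / (d * Real.sqrt d) := by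
    rw [mul_sum]
    refine sum_congr rfl (fun d _ => by ring)
  rw [h3]
  have h4 := sum_three_half D N hD
  calc 4 * ∑ d ∈ Ioc D N, (1 : ℝ) / (d * Real.sqrt d) ≤ 4 * (2 / Real.sqrt D) := by linarith
    _ = 8 / Real.sqrt D := by ring

theorem tail (D h X : ℕ) (hD : 1 ≤ D) (hX : h ≤ X) :
    ∑ j ∈ Ioc X (2 * X), (∑ n ∈ Ico (j - h) j,
      (((Ioc D n).filter (fun d => d ^ 2 ∣ n)).card : ℝ)) ^ 2
        ≤ 100 * X * (h : ℝ) ^ 2 / Real.sqrt D := by
  classical
  set t : ℕ → ℝ := fun n => (((Ioc D n).filter (fun d => d ^ 2 ∣ n)).card : ℝ) with ht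
  have h1 : ∀ j ∈ Ioc X (2 * X), (∑ n ∈ Ico (j - h) j, t n) ^ 2
      ≤ h * ∑ n ∈ Ico (j - h) j, t n ^ 2 := by
    intro j hj
    rw [mem_Ioc] at hj
    have h2 := sq_sum_le_card_mul_sum_sq (s := Ico (j - h) j) (f := t)
    have h3 : (Ico (j - h) j).card = h := by rw [Nat.card_Ico]; omega
    rw [h3] at h2
    exact h2
  refine (sum_le_sum h1).trans ?_
  rw [← mul_sum]
  have h2 : ∑ j ∈ Ioc X (2 * X), ∑ n ∈ Ico (j - h) j, t n ^ 2 ≤ h * ∑ n ∈ Icc 1 (2 * X), t n ^ 2 := by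
    have h3 : ∀ j ∈ Ioc X (2 * X), ∑ n ∈ Ico (j - h) j, t n ^ 2
        = ∑ n ∈ Icc 1 (2 * X), if (j - h ≤ n ∧ n < j) then t n ^ 2 else 0 := by
      intro j hj
      rw [mem_Ioc] at hj
      rw [← sum_filter]
      refine sum_congr ?_ (fun _ _ => rfl)
      ext n
      simp only [mem_Ico, mem_filter, mem_Icc]
      omega
    rw [sum_congr rfl h3, sum_comm, mul_sum]
    refine sum_le_sum (fun n hn => ?_)
    rw [← sum_filter, sum_const, nsmul_eq_mul]
    apply mul_le_mul_of_nonneg_right _ (sq_nonneg _)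
    have h4 : ((Ioc X (2 * X)).filter (fun j => j - h ≤ n ∧ n < j)) ⊆ Ioc n (n + h) := by
      intro j hj
      simp only [mem_filter, mem_Ioc] at hj ⊢
      omega
    have h5 := card_le_card h4
    rw [Nat.card_Ioc] at h5
    have h6 : ((Ioc X (2 * X)).filter (fun j => j - h ≤ n ∧ n < j)).card ≤ h := by omega
    exact_mod_cast h6
  have h3 := sq_count D (2 * X) hD
  have hh : (0 : ℝ) ≤ h := Nat.cast_nonneg h
  calc (h : ℝ) * ∑ j ∈ Ioc X (2 * X), ∑ n ∈ Ico (j - h) j, t n ^ 2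
      ≤ h * (h * ∑ n ∈ Icc 1 (2 * X), t n ^ 2) := mul_le_mul_of_nonneg_left h2 hh
    _ ≤ h * (h * (((2 * X : ℕ) : ℝ) * (8 / Real.sqrt D))) := by
        apply mul_le_mul_of_nonneg_left _ hh
        exact mul_le_mul_of_nonneg_left h3 hh
    _ = 16 * X * (h : ℝ) ^ 2 / Real.sqrt D := by push_cast; ring
    _ ≤ 100 * X * (h : ℝ) ^ 2 / Real.sqrt D := by
        apply div_le_div_of_nonneg_right _ (Real.sqrt_nonneg _)
        have : (0 : ℝ) ≤ X * (h : ℝ) ^ 2 := by positivity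
        nlinarith

end Pool.Agent.H76.MU

end
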