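import Pool.Agent.H47.B1.M38
import Pool.Agent.H47.B1.M51

/-! The parts of this file: H76.MU.LmN, H35.W.KSap, H80.LV.TyI, H76.MU.LmB. -/

section

/-!
# MU LmN: the norm `nrm B` and the Halász-Montgomery bound

`nrm B f = (∫_B |f|^2)^{1/2}`; all functions are finite sums of `c · ee(t log n)`, hence continuous and bounded, and `B ⊆ [-2T, 2T]` is measurable and
bounded.  `nrm_add`, `nrm_sum`: Minkowski (e.g. via `MeasureTheory.eLpNorm`/`Lp` for the restricted measure, or from the Cauchy-Schwarz inequality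
`∫_B |f||g| ≤ nrm f nrm g`); `nrm_mul`: pointwise bound of one factor; `nrm_hm`: `Pool.Agent.H80.LV.hm (1/20)` with `|a_n| ≤ 1` (`∑ |a_n|^2 ≤ K`;
`T^η ≤ x^η`; `2T ≤ 2x ≤ x^2`); `nrm_triv`: `|f| ≤ F` on `B`, `vol B ≤ T^η ≤ x^η`.
-/

set_option autoImplicit false

namespace Pool.Agent.H76.MU

open Finset MeasureTheory
open Pool.Agent.H91.PK (ee)

theorem nrm_nonneg (B : Set ℝ) (f : ℝ → ℂ) : 0 ≤ nrm B f := Real.sqrt_nonneg _

theorem LmN_sub {η T : ℝ} {B : Set ℝ} (hB : BS η T B) : B ⊆ Set.Icc (-(2 * T)) (2 * T) := by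
  intro t ht
  have h1 := (hB.mem t ht).2
  exact abs_le.1 h1

theorem LmN_int {η T : ℝ} {B : Set ℝ} (hB : BS η T B) {φ : ℝ → ℝ} (hφ : Continuous φ) :
    IntegrableOn φ B := by
  have h1 : IntegrableOn φ (Set.Icc (-(2 * T)) (2 * T)) :=
    hφ.continuousOn.integrableOn_compact isCompact_Icc
  exact h1.mono_set (LmN_sub hB)

theorem LmN_cs {η T : ℝ} {B : Set ℝ} (hB : BS η T B) {φ ψ : ℝ → ℝ} (hφ : Continuous φ)
    (hψ : Continuous ψ) :
    (∫ t in B, φ t * ψ t) ^ 2 ≤ (∫ t in B, φ t ^ 2) * (∫ t in B, ψ t ^ 2) := by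
  have h1 : ∀ x : ℝ, 0 ≤ (∫ t in B, ψ t ^ 2) * (x * x) + (2 * ∫ t in B, φ t * ψ t) * x
      + ∫ t in B, φ t ^ 2 := by
    intro x
    have e : (∫ t in B, ψ t ^ 2) * (x * x) + (2 * ∫ t in B, φ t * ψ t) * x
        + ∫ t in B, φ t ^ 2 = ∫ t in B, (φ t + x * ψ t) ^ 2 := by
      have i1 : IntegrableOn (fun t => ψ t ^ 2 * (x * x)) B :=
        LmN_int hB ((hψ.pow 2).mul continuous_const)
      have i2 : IntegrableOn (fun t => (φ t * ψ t) * (2 * x)) B :=
        LmN_int hB ((hφ.mul hψ).mul continuous_const)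
      have i3 : IntegrableOn (fun t => φ t ^ 2) B := LmN_int hB (hφ.pow 2)
      have i12 : IntegrableOn (fun t => ψ t ^ 2 * (x * x) + (φ t * ψ t) * (2 * x)) B := i1.add i2
      have e1 : (fun t => (φ t + x * ψ t) ^ 2)
          = fun t => (ψ t ^ 2 * (x * x) + (φ t * ψ t) * (2 * x)) + φ t ^ 2 := by
        funext t
        ring
      rw [e1, integral_add i12 i3, integral_add i1 i2, integral_mul_const, integral_mul_const]
      ring
    rw [e]
    exact integral_nonneg fun t => sq_nonneg _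
  have h2 := discrim_le_zero h1
  unfold discrim at h2
  nlinarith

theorem nrm_add (η T : ℝ) (B : Set ℝ) (hB : BS η T B) (f g : ℝ → ℂ) (hf : Continuous f)
    (hg : Continuous g) : nrm B (fun t => f t + g t) ≤ nrm B f + nrm B g := by
  have ha : 0 ≤ ∫ t in B, ‖f t‖ ^ 2 := integral_nonneg fun t => sq_nonneg _
  have hb : 0 ≤ ∫ t in B, ‖g t‖ ^ 2 := integral_nonneg fun t => sq_nonneg _
  have hcs := LmN_cs hB hf.norm hg.norm
  have hI : (∫ t in B, ‖f t‖ * ‖g t‖) ≤ nrm B f * nrm B g := by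
    apply le_of_sq_le_sq _ (mul_nonneg (nrm_nonneg _ _) (nrm_nonneg _ _))
    unfold nrm
    rw [mul_pow, Real.sq_sqrt ha, Real.sq_sqrt hb]
    exact hcs
  have i1 : IntegrableOn (fun t => ‖f t‖ ^ 2) B := LmN_int hB (hf.norm.pow 2)
  have i2 : IntegrableOn (fun t => ‖g t‖ ^ 2) B := LmN_int hB (hg.norm.pow 2)
  have i3 : IntegrableOn (fun t => 2 * (‖f t‖ * ‖g t‖)) B :=
    LmN_int hB (continuous_const.mul (hf.norm.mul hg.norm))
  have i12 : IntegrableOn (fun t => ‖f t‖ ^ 2 + ‖g t‖ ^ 2) B := i1.add i2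
  have h1 : ∫ t in B, ‖f t + g t‖ ^ 2 ≤ (nrm B f + nrm B g) ^ 2 := by
    have h2 : ∫ t in B, ‖f t + g t‖ ^ 2 ≤
        ∫ t in B, ((‖f t‖ ^ 2 + ‖g t‖ ^ 2) + 2 * (‖f t‖ * ‖g t‖)) := by
      apply integral_mono (LmN_int hB ((hf.add hg).norm.pow 2)) (i12.add i3)
      intro t
      show ‖f t + g t‖ ^ 2 ≤ (‖f t‖ ^ 2 + ‖g t‖ ^ 2) + 2 * (‖f t‖ * ‖g t‖)
      have h3 := norm_add_le (f t) (g t)
      have h4 := norm_nonneg (f t + g t)
      nlinarith
    rw [integral_add i12 i3, integral_add i1 i2, integral_const_mul] at h2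
    have e1 : nrm B f ^ 2 = ∫ t in B, ‖f t‖ ^ 2 := Real.sq_sqrt ha
    have e2 : nrm B g ^ 2 = ∫ t in B, ‖g t‖ ^ 2 := Real.sq_sqrt hb
    nlinarith
  exact Real.sqrt_le_iff.2 ⟨add_nonneg (nrm_nonneg _ _) (nrm_nonneg _ _), h1⟩

theorem nrm_sum {ι : Type*} (η T : ℝ) (B : Set ℝ) (hB : BS η T B) (s : Finset ι) (f : ι → ℝ → ℂ)
    (hf : ∀ i ∈ s, Continuous (f i)) :
    nrm B (fun t => ∑ i ∈ s, f i t) ≤ ∑ i ∈ s, nrm B (f i) := by
  classical
  induction s using Finset.induction_on with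
  | empty =>
    simp [nrm]
  | insert a s ha ih =>
    have h1 : (fun t => ∑ i ∈ insert a s, f i t) = fun t => f a t + ∑ i ∈ s, f i t := by
      funext t
      rw [Finset.sum_insert ha]
    rw [h1, Finset.sum_insert ha]
    have hs : ∀ i ∈ s, Continuous (f i) := fun i hi => hf i (Finset.mem_insert_of_mem hi)
    refine (nrm_add η T B hB (f a) (fun t => ∑ i ∈ s, f i t) (hf a (Finset.mem_insert_self a s))
      (continuous_finsetSum s hs)).trans ?_
    have := ih hs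
    linarith

theorem nrm_mul (η T : ℝ) (B : Set ℝ) (hB : BS η T B) (f g : ℝ → ℂ) (C : ℝ) (hf : Continuous f)
    (hg : Continuous g) (hC : ∀ t ∈ B, ‖g t‖ ≤ C) (hC0 : 0 ≤ C) :
    nrm B (fun t => g t * f t) ≤ C * nrm B f := by
  have h1 : ∫ t in B, ‖g t * f t‖ ^ 2 ≤ C ^ 2 * ∫ t in B, ‖f t‖ ^ 2 := by
    rw [← integral_const_mul]
    apply setIntegral_mono_on (LmN_int hB ((hg.mul hf).norm.pow 2))
      (LmN_int hB (continuous_const.mul (hf.norm.pow 2))) hB.meas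
    intro t ht
    show ‖g t * f t‖ ^ 2 ≤ C ^ 2 * ‖f t‖ ^ 2
    rw [norm_mul, mul_pow]
    have h2 : ‖g t‖ ^ 2 ≤ C ^ 2 := pow_le_pow_left₀ (norm_nonneg _) (hC t ht) 2
    exact mul_le_mul_of_nonneg_right h2 (sq_nonneg _)
  unfold nrm
  calc Real.sqrt (∫ t in B, ‖g t * f t‖ ^ 2) ≤ Real.sqrt (C ^ 2 * ∫ t in B, ‖f t‖ ^ 2) :=
        Real.sqrt_le_sqrt h1
    _ = C * Real.sqrt (∫ t in B, ‖f t‖ ^ 2) := by
        rw [Real.sqrt_mul (sq_nonneg C), Real.sqrt_sq hC0]

theorem nrm_triv (η T x F : ℝ) (B : Set ℝ) (hB : BS η T B) (hη : 0 ≤ η) (hT : 1 ≤ T) (hTx : T ≤ x)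
    (f : ℝ → ℂ) (hf : Continuous f) (hF : ∀ t ∈ B, ‖f t‖ ≤ F) (hF0 : 0 ≤ F) :
    nrm B f ≤ F * x ^ (η / 2) := by
  have hx0 : 0 < x := by linarith
  have hvol : volume.real B ≤ x ^ η :=
    hB.vol.trans (Real.rpow_le_rpow (by linarith) hTx hη)
  have hfin : volume B ≠ ⊤ := by
    have h1 : volume B ≤ volume (Set.Icc (-(2 * T)) (2 * T)) := measure_mono (LmN_sub hB)
    exact ne_top_of_le_ne_top (by simp) h1
  have h1 : ∫ t in B, ‖f t‖ ^ 2 ≤ F ^ 2 * x ^ η := by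
    have h2 : ∫ t in B, ‖f t‖ ^ 2 ≤ ∫ t in B, F ^ 2 := by
      apply setIntegral_mono_on (LmN_int hB (hf.norm.pow 2)) (LmN_int hB continuous_const) hB.meas
      intro t ht
      exact pow_le_pow_left₀ (norm_nonneg _) (hF t ht) 2
    rw [setIntegral_const, smul_eq_mul] at h2
    nlinarith [sq_nonneg F]
  unfold nrm
  calc Real.sqrt (∫ t in B, ‖f t‖ ^ 2) ≤ Real.sqrt (F ^ 2 * x ^ η) := Real.sqrt_le_sqrt h1
    _ = F * x ^ (η / 2) := by
        rw [Real.sqrt_mul (sq_nonneg F), Real.sqrt_sq hF0, Real.sqrt_eq_rpow, ← Real.rpow_mul hx0.le]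
        congr 2
        ring

theorem cont_poly (s : Finset ℕ) (a : ℕ → ℂ) :
    Continuous (fun t : ℝ => ∑ n ∈ s, a n * ee (t * Real.log n)) := by
  apply continuous_finsetSum
  intro n _
  apply Continuous.mul continuous_const
  unfold ee
  fun_prop

theorem nrm_hm : ∃ η : ℝ, 0 < η ∧ η ≤ 1 / 10 ∧ ∃ x0 : ℕ, ∀ x : ℕ, x0 ≤ x →
    ∀ (K : ℕ) (a : ℕ → ℂ) (T : ℝ) (B : Set ℝ) (η' : ℝ), 0 ≤ η' → η' ≤ η →
      (x : ℝ) ^ (1 / 20 : ℝ) ≤ K → K ≤ x → 1 ≤ T → T ≤ x → BS η' T B →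
      nrm B (fun t => ∑ n ∈ Icc 1 K, a n * ee (t * Real.log n)) ^ 2
        ≤ K * Real.log x ^ 2 * ∑ n ∈ Icc 1 K, ‖a n‖ ^ 2 := by
  obtain ⟨η0, h0, h01, x0, H⟩ := Pool.Agent.H80.LV.hm (1 / 20) (by norm_num)
  refine ⟨min η0 (1 / 10), lt_min h0 (by norm_num), min_le_right _ _, max x0 2, ?_⟩
  intro x hx K a T B η' hη' hη'2 hK hKx hT hTx hB
  have hx2 : 2 ≤ x := (le_max_right _ _).trans hx
  have hx0 : x0 ≤ x := (le_max_left _ _).trans hx
  have hx2' : (2 : ℝ) ≤ x := by exact_mod_cast hx2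
  have hsub : B ⊆ Set.Icc (-((x : ℝ) ^ (2 : ℕ))) ((x : ℝ) ^ (2 : ℕ)) := by
    refine (LmN_sub hB).trans (Set.Icc_subset_Icc ?_ ?_)
    · nlinarith
    · nlinarith
  have hvol : volume.real B ≤ (x : ℝ) ^ η0 := by
    calc volume.real B ≤ T ^ η' := hB.vol
      _ ≤ (x : ℝ) ^ η' := Real.rpow_le_rpow (by linarith) hTx hη'
      _ ≤ (x : ℝ) ^ η0 := Real.rpow_le_rpow_of_exponent_le (by linarith)
          (hη'2.trans (min_le_left _ _))
  have h1 := H x hx0 K a B hK hKx hB.meas hsub hvol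
  unfold nrm
  rw [Real.sq_sqrt (integral_nonneg fun t => sq_nonneg _)]
  exact h1

end Pool.Agent.H76.MU

end

section

/-!
# W KSap: sums of `(n + β)^{it}` twisted by a periodic function

Proof.  Let `δ1, C` be the constants of `ks1 (kap / 2)`.  Split the sum over `n ∈ (a, b]` into the classes
`n = l + d n'`, `0 ≤ l < d`; `ψ(n) = ψ(l)` (periodicity), `log(n + β) = log d + log(n' + (l+β)/d)` for `n ≥ 1`,
so the class contributes at most `|∑_{a' < n' ≤ b'} ee(t log(n' + (l+β)/d))|` with `(l+β)/d ∈ [0,1]`,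
`b' ≤ K/d`.  (For `n' = 0`, `l > 0` treat the term `n = l` separately: one term of size `≤ 1`, or let the interval
in `ks1` start at `a' + 1` and add the term.)  Apply `ks1` with `K' = K / d + 1` (natural division), `K' ≥ x^{kap/2}`
as `d^4 ≤ K`.  The sum over `l` is `≤ d (2 + C K' (1/|t| + x^{-δ1})) ≤ 4 C K (1/|t| + x^{-δ})` with
`δ = min δ1 (kap/4)`-like (`d ≤ K^{1/4}`, so `d ≤ K · K^{-3/4}`).  For large `x`: `4 C ≤ log x`.
-/

set_option autoImplicit false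

namespace Pool.Agent.H35.W

open Finset
open Pool.Agent.H91.PK (ee)

private lemma ksap_ee_norm (r : ℝ) : ‖ee r‖ = 1 := by
  have : (2 * Real.pi * r * Complex.I : ℂ) = ((2 * Real.pi * r : ℝ) : ℂ) * Complex.I := by
    push_cast; ring
  rw [ee, this, Complex.norm_exp_ofReal_mul_I]

private lemma ksap_ee_add (r s : ℝ) : ee (r + s) = ee r * ee s := by
  rw [ee, ee, ee, ← Complex.exp_add]
  congr 1
  push_cast
  ring

private lemma ksap_per (ψ : ℕ → ℂ) (d : ℕ) (h : ∀ n, ψ (n + d) = ψ n) (l k : ℕ) :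
    ψ (l + d * k) = ψ l := by
  induction k with
  | zero => simp
  | succ k ih => rw [mul_add, mul_one, ← add_assoc, h, ih]

/-- one residue class -/
private lemma ksap_class (f : ℕ → ℂ) (hf : ∀ n, ‖f n‖ ≤ 1) (B : ℝ) (K' a b d l : ℕ) (hd : 1 ≤ d)
    (hb : b / d ≤ K') (hB : ∀ a' b' : ℕ, b' ≤ K' → ‖∑ n ∈ Ioc a' b', f n‖ ≤ B) :
    ‖∑ k ∈ (range (b + 1)).filter (fun k => a < l + d * k ∧ l + d * k ≤ b), f k‖ ≤ 1 + B := by
  set T := (range (b + 1)).filter (fun k => a < l + d * k ∧ l + d * k ≤ b) with hT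
  have e : T.erase 0 = Ioc ((a - l) / d) ((b - l) / d) := by
    ext k
    simp only [hT, mem_erase, mem_filter, mem_range, mem_Ioc]
    rw [Nat.div_lt_iff_lt_mul (by omega), Nat.le_div_iff_mul_le (by omega)]
    constructor
    · rintro ⟨h0, h1, h2, h3⟩
      rw [mul_comm d k] at h2 h3
      have : 1 ≤ k * d := Nat.mul_pos (by omega) (by omega)
      omega
    · rintro ⟨h1, h2⟩
      have hk : k ≠ 0 := by rintro rfl; simp at h1
      have h3 : k ≤ k * d := Nat.le_mul_of_pos_right k (by omega)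
      have : 1 ≤ k * d := Nat.mul_pos (by omega) (by omega)
      rw [mul_comm d k]
      omega
  have h1 : ‖∑ k ∈ T.erase 0, f k‖ ≤ B := by
    rw [e]
    exact hB _ _ ((Nat.div_le_div_right (Nat.sub_le _ _)).trans hb)
  by_cases h0 : 0 ∈ T
  · rw [← add_sum_erase _ _ h0]
    exact (norm_add_le _ _).trans (add_le_add (hf 0) h1)
  · rw [erase_eq_of_notMem h0] at h1
    linarith

private lemma ksap_real (K d : ℕ) (y : ℝ) (hy : 4 ≤ y) (hK : y ^ 2 ≤ K) (hd : 1 ≤ d)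
    (hdK : d ^ 4 ≤ K) : y ≤ ((K / d : ℕ) : ℝ) := by
  by_contra hlt
  push Not at hlt
  have hd0 : (1 : ℝ) ≤ d := by exact_mod_cast hd
  have h1 : (K : ℝ) < d * (y + 1) := by
    have h2 : K < d * (K / d + 1) := Nat.lt_mul_div_succ K (by omega)
    have h3 : (K : ℝ) < (d : ℝ) * (((K / d : ℕ) : ℝ) + 1) := by exact_mod_cast h2
    refine h3.trans_le ?_
    gcongr
  have hKp : (16 : ℝ) ≤ K := by nlinarith
  have h4 : ((d : ℝ)) ^ 4 ≤ K := by exact_mod_cast hdK
  have h5 : (K : ℝ) ^ 4 < (d * (y + 1)) ^ 4 := pow_lt_pow_left₀ h1 (by linarith) (by norm_num)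
  have h6 : ((d : ℝ) * (y + 1)) ^ 4 ≤ K * (y + 1) ^ 4 := by
    rw [mul_pow]; gcongr
  have h7 : (y + 1) ^ 4 ≤ (2 * y) ^ 4 := pow_le_pow_left₀ (by linarith) (by linarith) 4
  have h8 : (2 * y) ^ 4 ≤ 16 * (K : ℝ) ^ 2 := by
    have : y ^ 4 ≤ (K : ℝ) ^ 2 := by
      calc y ^ 4 = (y ^ 2) ^ 2 := by ring
        _ ≤ (K : ℝ) ^ 2 := pow_le_pow_left₀ (by positivity) hK 2
    calc (2 * y) ^ 4 = 16 * y ^ 4 := by ring
      _ ≤ 16 * (K : ℝ) ^ 2 := by linarith
  have h9 : (K : ℝ) ^ 4 < K * (16 * (K : ℝ) ^ 2) :=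
    h5.trans_le (h6.trans (mul_le_mul_of_nonneg_left (h7.trans h8) (by linarith)))
  have h10 : (K : ℝ) * (16 * (K : ℝ) ^ 2) ≤ (K : ℝ) ^ 4 := by
    have : (K : ℝ) ^ 4 = K * (K * (K : ℝ) ^ 2) := by ring
    rw [this]
    gcongr
  linarith

theorem ksap (kap : ℝ) (hkap : 0 < kap) : ∃ δ : ℝ, 0 < δ ∧ δ ≤ 1 ∧ ∃ x0 : ℕ,
    ∀ x : ℕ, x0 ≤ x → ∀ (K d a b : ℕ) (ψ : ℕ → ℂ) (β t : ℝ), (x : ℝ) ^ kap ≤ K → K ≤ x → 1 ≤ d →
      d ^ 4 ≤ K → (∀ n, ψ (n + d) = ψ n) → (∀ n, ‖ψ n‖ ≤ 1) → b ≤ K → 0 ≤ β → β ≤ 1 →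
      1 ≤ |t| → |t| ≤ (x : ℝ) ^ (3 : ℕ) →
      ‖∑ n ∈ Ioc a b, ψ n * ee (t * Real.log (n + β))‖
        ≤ K * Real.log x * (1 / |t| + (x : ℝ) ^ (-δ)) := by
  obtain ⟨δ1, C, hδ1, hδ1', hC, x1, hx1⟩ := ks1 (kap / 2) (by linarith)
  have ev1 : ∀ᶠ x : ℕ in Filter.atTop, (4 : ℝ) ≤ (x : ℝ) ^ (kap / 2) :=
    ((tendsto_rpow_atTop (by linarith : 0 < kap / 2)).comp
      tendsto_natCast_atTop_atTop).eventually_ge_atTop 4
  have ev2 : ∀ᶠ x : ℕ in Filter.atTop, C + 1 ≤ Real.log x :=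
    (Real.tendsto_log_atTop.comp tendsto_natCast_atTop_atTop).eventually_ge_atTop (C + 1)
  obtain ⟨x2, hx2⟩ := Filter.eventually_atTop.1 ev1
  obtain ⟨x3, hx3⟩ := Filter.eventually_atTop.1 ev2
  refine ⟨min δ1 (kap / 2), lt_min hδ1 (by linarith), (min_le_left _ _).trans hδ1',
    max (max x1 x2) (max x3 1), ?_⟩
  intro x hx K d a b ψ β t hK hKx hd hdK hper hψ hb hβ0 hβ1 ht1 ht2
  have hxa : x1 ≤ x := (le_max_left _ _).trans ((le_max_left _ _).trans hx)
  have hxb : x2 ≤ x := (le_max_right _ _).trans ((le_max_left _ _).trans hx)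
  have hxc : x3 ≤ x := (le_max_left _ _).trans ((le_max_right _ _).trans hx)
  have hxd : 1 ≤ x := (le_max_right _ _).trans ((le_max_right _ _).trans hx)
  have hxr : (1 : ℝ) ≤ x := by exact_mod_cast hxd
  have hdr : (1 : ℝ) ≤ d := by exact_mod_cast hd
  have hd0 : (d : ℝ) ≠ 0 := by positivity
  have hlog := hx3 x hxc
  have hy := hx2 x hxb
  set y : ℝ := (x : ℝ) ^ (kap / 2) with hydef
  have hyK : y ^ 2 ≤ K := by
    refine le_trans (le_of_eq ?_) hK
    rw [hydef, ← Real.rpow_natCast, ← Real.rpow_mul (by linarith)]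
    congr 1
    push_cast
    ring
  have hK' : y ≤ ((K / d : ℕ) : ℝ) := ksap_real K d y hy hyK hd hdK
  have hdKK : (d : ℝ) * ((K / d : ℕ) : ℝ) ≤ K := by exact_mod_cast Nat.mul_div_le K d
  have hK'x : K / d ≤ x := (Nat.div_le_self K d).trans hKx
  set B : ℝ := C * ((K / d : ℕ) : ℝ) * (1 / |t| + (x : ℝ) ^ (-δ1)) with hBdef
  -- the sum over a class
  have hcl : ∀ l ∈ range d, ‖∑ n ∈ (Ioc a b).filter (fun n => n % d = l),
      ψ n * ee (t * Real.log (n + β))‖ ≤ 1 + B := by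
    intro l hl
    have hl1 := mem_range.1 hl
    have e1 : (Ioc a b).filter (fun n => n % d = l)
        = ((range (b + 1)).filter (fun k => a < l + d * k ∧ l + d * k ≤ b)).image
          (fun k => l + d * k) := by
      ext n
      simp only [mem_filter, mem_Ioc, mem_image, mem_range]
      constructor
      · rintro ⟨⟨h1, h2⟩, h3⟩
        have h4 : n % d + d * (n / d) = n := Nat.mod_add_div n d
        have h5 : n / d ≤ n := Nat.div_le_self n d
        refine ⟨n / d, ⟨by omega, ?_, ?_⟩, ?_⟩ <;> rw [← h3, h4] <;> assumption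
      · rintro ⟨k, ⟨h1, h2, h3⟩, rfl⟩
        exact ⟨⟨h2, h3⟩, by rw [Nat.add_mul_mod_self_left, Nat.mod_eq_of_lt hl1]⟩
    have hinj : Set.InjOn (fun k => l + d * k)
        ((range (b + 1)).filter (fun k => a < l + d * k ∧ l + d * k ≤ b) : Finset ℕ) := by
      intro u _ v _ huv
      have : d * u = d * v := by simpa using huv
      exact Nat.eq_of_mul_eq_mul_left (by omega) this
    rw [e1, sum_image hinj]
    have hβl0 : 0 ≤ ((l : ℝ) + β) / d := by positivity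
    have hβl1 : ((l : ℝ) + β) / d ≤ 1 := by
      rw [div_le_one (by linarith)]
      have : ((l + 1 : ℕ) : ℝ) ≤ d := by exact_mod_cast hl1
      push_cast at this
      linarith
    have e2 : ∑ k ∈ (range (b + 1)).filter (fun k => a < l + d * k ∧ l + d * k ≤ b),
        ψ (l + d * k) * ee (t * Real.log (((l + d * k : ℕ) : ℝ) + β))
        = (ψ l * ee (t * Real.log d)) *
          ∑ k ∈ (range (b + 1)).filter (fun k => a < l + d * k ∧ l + d * k ≤ b),
            ee (t * Real.log ((k : ℝ) + ((l : ℝ) + β) / d)) := by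
      rw [mul_sum]
      apply sum_congr rfl
      intro k hk
      have hk1 := (mem_filter.1 hk).2.1
      have hpos : (0 : ℝ) < l + d * k := by
        have : 0 < l + d * k := by omega
        exact_mod_cast this
      have h1 : (((l + d * k : ℕ) : ℝ) + β) = d * ((k : ℝ) + ((l : ℝ) + β) / d) := by
        push_cast
        field_simp
        ring
      have h2 : 0 < (k : ℝ) + ((l : ℝ) + β) / d := by
        have h3 : (k : ℝ) + ((l : ℝ) + β) / d = (l + d * k + β) / d := by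
          field_simp
          ring
        rw [h3]
        apply div_pos _ (by linarith)
        linarith
      rw [ksap_per ψ d hper, h1, Real.log_mul hd0 h2.ne', mul_add, ksap_ee_add]
      ring
    rw [e2, norm_mul, norm_mul, ksap_ee_norm, mul_one]
    have h3 := ksap_class (fun k => ee (t * Real.log ((k : ℝ) + ((l : ℝ) + β) / d)))
      (fun n => (ksap_ee_norm _).le) B (K / d) a b d l hd (Nat.div_le_div_right hb)
      (fun a' b' hb' => hx1 x hxa (K / d) a' b' (((l : ℝ) + β) / d) t hK' hK'x hb' hβl0 hβl1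
        ht1 ht2)
    calc ‖ψ l‖ * _ ≤ 1 * (1 + B) := mul_le_mul (hψ l) h3 (norm_nonneg _) zero_le_one
      _ = 1 + B := one_mul _
  have e3 : ∑ n ∈ Ioc a b, ψ n * ee (t * Real.log (n + β))
      = ∑ l ∈ range d, ∑ n ∈ (Ioc a b).filter (fun n => n % d = l),
        ψ n * ee (t * Real.log (n + β)) := by
    rw [sum_fiberwise_of_maps_to]
    intro n _
    exact mem_range.2 (Nat.mod_lt n (by omega))
  rw [e3]
  refine (norm_sum_le _ _).trans ((sum_le_sum hcl).trans ?_)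
  rw [sum_const, card_range, nsmul_eq_mul]
  have htp : 0 < |t| := by linarith
  have hmin1 : (x : ℝ) ^ (-δ1) ≤ (x : ℝ) ^ (-(min δ1 (kap / 2))) :=
    Real.rpow_le_rpow_of_exponent_le hxr (neg_le_neg (min_le_left _ _))
  have hmin2 : (x : ℝ) ^ (-(kap / 2)) ≤ (x : ℝ) ^ (-(min δ1 (kap / 2))) :=
    Real.rpow_le_rpow_of_exponent_le hxr (neg_le_neg (min_le_right _ _))
  set Z : ℝ := (x : ℝ) ^ (-(min δ1 (kap / 2))) with hZ
  have hZ0 : 0 ≤ Z := by positivity
  have hdZ : (d : ℝ) ≤ K * Z := by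
    have h1 : (d : ℝ) * y ≤ K := (mul_le_mul_of_nonneg_left hK' (by linarith)).trans hdKK
    have h2 : (x : ℝ) ^ (-(kap / 2)) * y = 1 := by
      rw [hydef, ← Real.rpow_add (by linarith)]; simp
    calc (d : ℝ) = (d * y) * (x : ℝ) ^ (-(kap / 2)) := by
          rw [mul_assoc, mul_comm y, h2, mul_one]
      _ ≤ K * Z := by
          apply mul_le_mul h1 hmin2 (by positivity) (Nat.cast_nonneg _)
  have hB2 : (d : ℝ) * B ≤ C * K * (1 / |t| + Z) := by
    calc (d : ℝ) * B = C * (d * ((K / d : ℕ) : ℝ)) * (1 / |t| + (x : ℝ) ^ (-δ1)) := by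
          rw [hBdef]; ring
      _ ≤ C * K * (1 / |t| + Z) := by
          gcongr
  have hKn : (0 : ℝ) ≤ K := Nat.cast_nonneg _
  have htn : 0 ≤ 1 / |t| := by positivity
  calc (d : ℝ) * (1 + B) = d + d * B := by ring
    _ ≤ K * Z + C * K * (1 / |t| + Z) := add_le_add hdZ hB2
    _ ≤ (C + 1) * (K * (1 / |t| + Z)) := by nlinarith [mul_nonneg hKn htn]
    _ ≤ Real.log x * (K * (1 / |t| + Z)) := by
        apply mul_le_mul_of_nonneg_right hlog (by positivity)
    _ = K * Real.log x * (1 / |t| + Z) := by ring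

end Pool.Agent.H35.W

end

section

/-!
# LV TyI: type I sums, pointwise

Proof.  (1) `gE (c/d) t (a b) = ee(a b c/d) ee(t log a) ee(t log b)` (`gE_mul`); `ψ(b) = ee(a b c/d)` has period `d` and norm 1;
`ksap (1/8)` with `β = 0`, `K = K`, interval `Ioc 0 j`, `j ≤ K`, gives for EVERY `j ≤ K`:
`|W(j)| ≤ K L (1/|t| + x^{-δ})`, `W(j) = ∑_{b ≤ j} gE (c/d) t (a b)` (`d^4 ≤ L^{4A} ≤ x^{1/8} ≤ K`, `x^2 ≤ x^3`).
(2) Abel summation: `∑_{b ≤ K} log b w_b = W(K) log K - ∑_{j < K} W(j) (log(j+1) - log j)`, so it is at most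
`2 log K max |W(j)| ≤ 2 K L^2 (1/|t| + x^{-δ})`.  `δ` is the one of `ksap (1/8)`, independent of `A`.  (Compare `GB/TypeI.lean`, `typeI_abel`, `ty1log`.)
-/

set_option autoImplicit false

namespace Pool.Agent.H80.LV

open Finset
open Pool.Agent.H91.PK (ee)

private theorem TyI_ee_int (k : ℤ) : ee (k : ℝ) = 1 := by
  unfold ee
  have h := Complex.exp_int_mul_two_pi_mul_I k
  rw [← h]
  congr 1
  push_cast
  ring

/-- Abel summation with logarithms. -/
private theorem TyI_abel (w : ℕ → ℂ) (X : ℕ) :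
    ∑ b ∈ Icc 1 X, ((Real.log b : ℝ) : ℂ) * w b =
      ∑ i ∈ Ico 1 X, ((Real.log (i + 1 : ℕ) - Real.log i : ℝ) : ℂ) * ∑ b ∈ Ioc i X, w b := by
  induction X with
  | zero => simp
  | succ X ih =>
    rcases Nat.eq_zero_or_pos X with rfl | hX
    · simp
    rw [Finset.sum_Icc_succ_top (by omega), ih, Finset.sum_Ico_succ_top hX]
    have h1 : ∀ i ∈ Ico 1 X, ((Real.log (i + 1 : ℕ) - Real.log i : ℝ) : ℂ) *
        ∑ b ∈ Ioc i (X + 1), w b =
        ((Real.log (i + 1 : ℕ) - Real.log i : ℝ) : ℂ) * ∑ b ∈ Ioc i X, w b +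
          ((Real.log (i + 1 : ℕ) - Real.log i : ℝ) : ℂ) * w (X + 1) := by
      intro i hi
      rw [mem_Ico] at hi
      rw [← mul_add]
      congr 1
      rw [Finset.sum_Ioc_succ_top (by omega)]
    rw [Finset.sum_congr rfl h1, Finset.sum_add_distrib, ← Finset.sum_mul]
    have h2 : ∑ i ∈ Ico 1 X, ((Real.log (i + 1 : ℕ) - Real.log i : ℝ) : ℂ) =
        ((Real.log X : ℝ) : ℂ) := by
      rw [← Complex.ofReal_sum]
      congr 1
      have h3 := Finset.sum_Ico_sub (fun i : ℕ => Real.log i) (show 1 ≤ X from hX)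
      rw [h3]
      simp
    rw [h2, Nat.Ioc_succ_singleton, Finset.sum_singleton]
    push_cast
    ring

theorem tyI : ∃ δ : ℝ, 0 < δ ∧ δ ≤ 1 ∧ ∀ A : ℕ, ∃ x0 : ℕ, ∀ x : ℕ, x0 ≤ x →
    ∀ (a K d : ℕ) (c : ℤ) (t : ℝ), 1 ≤ a → 1 ≤ d → (d : ℝ) ≤ Real.log x ^ A →
      (x : ℝ) ^ (1 / 8 : ℝ) ≤ K → K ≤ x → 1 ≤ |t| → |t| ≤ (x : ℝ) ^ (2 : ℕ) →
      ‖∑ b ∈ Icc 1 K, gE ((c : ℝ) / d) t (a * b)‖
        ≤ K * Real.log x * (1 / |t| + (x : ℝ) ^ (-δ)) ∧
      ‖∑ b ∈ Icc 1 K, ((Real.log b : ℝ) : ℂ) * gE ((c : ℝ) / d) t (a * b)‖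
        ≤ 2 * K * Real.log x ^ 2 * (1 / |t| + (x : ℝ) ^ (-δ)) := by
  obtain ⟨δ, hδ0, hδ1, x1, hx1⟩ := Pool.Agent.H35.W.ksap (1 / 8) (by norm_num)
  refine ⟨δ, hδ0, hδ1, fun A => ?_⟩
  obtain ⟨x2, hx2⟩ := log_pow_le (1 / 8) 1 (by norm_num) (by norm_num) (4 * A)
  refine ⟨max (max x1 x2) 1, ?_⟩
  intro x hx a K d c t ha hd hdA hKbig hKx ht1 ht2
  have hxa : x1 ≤ x := (le_max_left _ _).trans ((le_max_left _ _).trans hx)
  have hxb : x2 ≤ x := (le_max_right _ _).trans ((le_max_left _ _).trans hx)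
  have hxd : 1 ≤ x := (le_max_right _ _).trans hx
  have hxr : (1 : ℝ) ≤ x := by exact_mod_cast hxd
  have har : (1 : ℝ) ≤ a := by exact_mod_cast ha
  have hdr : (1 : ℝ) ≤ d := by exact_mod_cast hd
  have hlog : 0 ≤ Real.log x := Real.log_nonneg hxr
  have htp : 0 < |t| := by linarith
  have hpow0 : (0 : ℝ) ≤ (x : ℝ) ^ (-δ) := Real.rpow_nonneg (by linarith) _
  have hKr : (1 : ℝ) ≤ K := (Real.one_le_rpow hxr (by norm_num)).trans hKbig
  have hK1 : 1 ≤ K := by exact_mod_cast hKr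
  have hdK : d ^ 4 ≤ K := by
    have h1 : (d : ℝ) ^ 4 ≤ (Real.log x ^ A) ^ 4 := pow_le_pow_left₀ (by linarith) hdA 4
    have h2 := hx2 x hxb
    have h3 : (Real.log x ^ A) ^ 4 = 1 * Real.log x ^ (4 * A) := by
      rw [one_mul, ← pow_mul, mul_comm]
    have h4 : ((d ^ 4 : ℕ) : ℝ) ≤ K := by
      push_cast
      exact h1.trans ((h3.le.trans h2).trans hKbig)
    exact_mod_cast h4
  -- all intervals
  have key : ∀ i : ℕ, ‖∑ b ∈ Ioc i K, gE ((c : ℝ) / d) t (a * b)‖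
      ≤ K * Real.log x * (1 / |t| + (x : ℝ) ^ (-δ)) := by
    intro i
    have hterm : ∀ b ∈ Ioc i K, gE ((c : ℝ) / d) t (a * b) =
        ee (t * Real.log a) * (ee ((a : ℝ) * b * ((c : ℝ) / d)) *
          ee (t * Real.log ((b : ℝ) + 0))) := by
      intro b hb
      rw [mem_Ioc] at hb
      rw [gE_mul _ _ a b ha (by omega), add_zero]
      ring
    rw [Finset.sum_congr rfl hterm, ← Finset.mul_sum, norm_mul, Pool.Agent.H91.PK.LSa_norm_ee,
      one_mul]
    refine hx1 x hxa K d i K (fun j => ee ((a : ℝ) * j * ((c : ℝ) / d))) 0 t hKbig hKx hd hdK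
      ?_ (fun n => (Pool.Agent.H91.PK.LSa_norm_ee _).le) le_rfl le_rfl zero_le_one ht1 ?_
    · intro n
      have hd0 : (d : ℝ) ≠ 0 := by positivity
      have h1 : (a : ℝ) * ((n + d : ℕ) : ℝ) * ((c : ℝ) / d) =
          (a : ℝ) * n * ((c : ℝ) / d) + (((a : ℤ) * c : ℤ) : ℝ) := by
        push_cast
        field_simp
      rw [h1, Pool.Agent.H91.PK.LSa_ee_add, TyI_ee_int, mul_one]
    · refine ht2.trans ?_
      exact pow_le_pow_right₀ hxr (by norm_num)
  have hB0 : 0 ≤ K * Real.log x * (1 / |t| + (x : ℝ) ^ (-δ)) := by positivity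
  constructor
  · have h1 : Icc 1 K = Ioc 0 K := by
      ext b
      simp only [mem_Icc, mem_Ioc]
      omega
    rw [h1]
    exact key 0
  · rw [TyI_abel]
    refine (norm_sum_le _ _).trans ?_
    have h1 : ∀ i ∈ Ico 1 K, ‖((Real.log (i + 1 : ℕ) - Real.log i : ℝ) : ℂ) *
        ∑ b ∈ Ioc i K, gE ((c : ℝ) / d) t (a * b)‖ ≤
        (Real.log (i + 1 : ℕ) - Real.log i) * (K * Real.log x * (1 / |t| + (x : ℝ) ^ (-δ))) := by
      intro i hi
      rw [mem_Ico] at hi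
      have h2 : 0 ≤ Real.log (i + 1 : ℕ) - Real.log i := by
        have h3 : Real.log i ≤ Real.log (i + 1 : ℕ) := by
          apply Real.log_le_log
          · exact_mod_cast hi.1
          · push_cast
            linarith
        linarith
      rw [norm_mul, Complex.norm_real, Real.norm_eq_abs, abs_of_nonneg h2]
      exact mul_le_mul_of_nonneg_left (key i) h2
    refine (Finset.sum_le_sum h1).trans ?_
    rw [← Finset.sum_mul, Finset.sum_Ico_sub (fun i : ℕ => Real.log i) hK1]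
    have h2 : Real.log (K : ℝ) - Real.log ((1 : ℕ) : ℝ) ≤ Real.log x := by
      rw [Nat.cast_one, Real.log_one, sub_zero]
      apply Real.log_le_log
      · linarith
      · exact_mod_cast hKx
    have h3 : Real.log x * (K * Real.log x * (1 / |t| + (x : ℝ) ^ (-δ))) =
        K * Real.log x ^ 2 * (1 / |t| + (x : ℝ) ^ (-δ)) := by ring
    have h4 : 0 ≤ K * Real.log x ^ 2 * (1 / |t| + (x : ℝ) ^ (-δ)) := by positivity
    calc _ ≤ Real.log x * (K * Real.log x * (1 / |t| + (x : ℝ) ^ (-δ))) :=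
          mul_le_mul_of_nonneg_right h2 hB0
      _ ≤ 2 * K * Real.log x ^ 2 * (1 / |t| + (x : ℝ) ^ (-δ)) := by
          rw [h3]
          linarith

end Pool.Agent.H80.LV

end

section

/-!
# MU LmB: the middle range (both factors long)

Proof.  `U = ⌈exp(L^{19/20})⌉₊` (`≤ a`, and `≤ x^{1/20} ≤ Z` for large `x`, `exp_pow_le`), `q = ⌈L^{2K+20}⌉₊` (`2q ≤ U`).
`box_dec y U q` (`H80/LV/BoxDec.lean`) with `lam m = if m.Prime ∧ a < m ∧ m ≤ b then log m else 0`, `cc n = if Z < n then c n else 0`,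
`g n = ee(t log n)`; the left side is our sum (`p > a ≥ U`; `n > Z ≥ U`).  For `j < J`: the box is the product of
`A(t) = ∑_{m ∈ Ioc (v j) (v (j+1))} lam m ee(t log m) = PS (max (v j) a) (min (v (j+1)) b) t` (or `0`), `|A(t)| ≤ 2 v(j+1)/L^{K3}` by `ps_vk K3`
(`v(j+1) ≤ 2y ≤ x^2`), and `C(t) = ∑_{n ∈ Ioc U N} cc n ee(t log n)`, `N = y / v (j+1)`: `0` if `N ≤ Z`, otherwise `nrm ≤ N L` (`nrm_hm`).
So `nrm(box) ≤ (2 v(j+1)/L^{K3}) N L ≤ 2 y L^{1 - K3}`; `J ≤ 4 q log y + 1 ≤ L^{2K+23}`; `K3 = 3K + 30`.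
The rest: `|e k| ≤ ∑_{m ∣ k} Λ(m) = log k ≤ L` (`lam m ≤ Λ(m)`, `|cc| ≤ 1`), `e` lives on at most `y/q + 1 ≤ 2y/q` integers: `nrm_hm` (`K = y`):
`nrm^2 ≤ y L^2 · L^2 · 2y/q`, so `nrm ≤ 2 y L^2/√q ≤ y/L^{K+5}`.
-/

set_option autoImplicit false

namespace Pool.Agent.H76.MU

open Finset MeasureTheory
open Pool.Agent.H91.PK (ee)

private theorem LmB_exp_ge (C : ℝ) (c : ℕ) : ∃ x0 : ℕ, ∀ x : ℕ, x0 ≤ x →
    C * Real.log x ^ c ≤ Real.exp (Real.log x ^ (19 / 20 : ℝ)) := by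
  have h0 : Filter.Tendsto (fun x : ℕ => Real.log x ^ (19 / 20 : ℝ)) Filter.atTop Filter.atTop :=
    (tendsto_rpow_atTop (by norm_num)).comp
      (Real.tendsto_log_atTop.comp (tendsto_natCast_atTop_atTop (R := ℝ)))
  have h1 := (Real.isLittleO_pow_exp_atTop (n := 2 * c)).bound (c := 1 / (|C| + 1)) (by positivity)
  have h2 := h0.eventually (h1.and (Filter.eventually_ge_atTop (1 : ℝ)))
  have h3 := (Real.tendsto_log_atTop.comp (tendsto_natCast_atTop_atTop (R := ℝ))).eventually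
    (Filter.eventually_ge_atTop 1)
  obtain ⟨x0, hx0⟩ := Filter.eventually_atTop.1 (h2.and h3)
  refine ⟨x0, fun x hx => ?_⟩
  obtain ⟨⟨h4, h5⟩, h6⟩ := hx0 x hx
  simp only [Function.comp_apply] at h6
  have hL : 0 < Real.log x := by linarith
  rw [Real.norm_eq_abs, Real.norm_eq_abs, abs_of_nonneg (by positivity),
    abs_of_pos (Real.exp_pos _), div_mul_eq_mul_div, one_mul, le_div_iff₀ (by positivity)] at h4
  have h7 : Real.log x ^ c ≤ (Real.log x ^ (19 / 20 : ℝ)) ^ (2 * c) := by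
    have e1 : (Real.log x ^ (19 / 20 : ℝ)) ^ (2 * c) = (Real.log x ^ (19 / 10 : ℝ)) ^ c := by
      rw [pow_mul, ← Real.rpow_natCast (Real.log x ^ (19 / 20 : ℝ)) 2, ← Real.rpow_mul hL.le]
      norm_num
    rw [e1]
    apply pow_le_pow_left₀ hL.le
    calc Real.log x = Real.log x ^ (1 : ℝ) := (Real.rpow_one _).symm
      _ ≤ Real.log x ^ (19 / 10 : ℝ) := Real.rpow_le_rpow_of_exponent_le h6 (by norm_num)
  have h8 : 0 ≤ Real.log x ^ c := by positivity
  calc C * Real.log x ^ c ≤ (|C| + 1) * Real.log x ^ c :=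
        mul_le_mul_of_nonneg_right (by linarith [le_abs_self C]) h8
    _ ≤ (|C| + 1) * (Real.log x ^ (19 / 20 : ℝ)) ^ (2 * c) :=
        mul_le_mul_of_nonneg_left h7 (by positivity)
    _ = (Real.log x ^ (19 / 20 : ℝ)) ^ (2 * c) * (|C| + 1) := mul_comm _ _
    _ ≤ _ := h4

/-- the coefficients of the primes -/
private noncomputable def LmB_lam (a b m : ℕ) : ℝ :=
  if m.Prime ∧ a < m ∧ m ≤ b then Real.log m else 0

/-- the coefficients of the cofactors -/
private noncomputable def LmB_cc (Z : ℕ) (c : ℕ → ℝ) (n : ℕ) : ℝ := if Z < n then c n else 0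

private theorem LmB_ee_mul (t : ℝ) (m n : ℕ) (hm : 1 ≤ m) (hn : 1 ≤ n) :
    ee (t * Real.log ((m * n : ℕ) : ℝ)) = ee (t * Real.log m) * ee (t * Real.log n) := by
  have h1 : (m : ℝ) ≠ 0 := by
    have : m ≠ 0 := by omega
    exact_mod_cast this
  have h2 : (n : ℝ) ≠ 0 := by
    have : n ≠ 0 := by omega
    exact_mod_cast this
  rw [← Pool.Agent.H91.PK.LSa_ee_add]
  congr 1
  push_cast
  rw [Real.log_mul h1 h2]
  ring

private theorem LmB_lhs (y Z a b U : ℕ) (c : ℕ → ℝ) (t : ℝ) (hUa : U ≤ a) (hUZ : U ≤ Z) :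
    ∑ p ∈ (Ioc a (min b y)).filter Nat.Prime,
        ((Real.log p : ℝ) : ℂ) * ee (t * Real.log p) *
          ∑ n ∈ Ioc Z (y / p), ((c n : ℝ) : ℂ) * ee (t * Real.log n)
    = ∑ m ∈ Ioc U y, ((LmB_lam a b m : ℝ) : ℂ) *
        ∑ n ∈ Ioc U (y / m), ((LmB_cc Z c n : ℝ) : ℂ) * ee (t * Real.log ((m * n : ℕ) : ℝ)) := by
  have hsub : (Ioc a (min b y)).filter Nat.Prime ⊆ Ioc U y := by
    intro p hp
    rw [mem_filter, mem_Ioc] at hp
    rw [mem_Ioc]
    have := hp.1.2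
    have h2 := min_le_right b y
    omega
  rw [← Finset.sum_subset hsub (f := fun m => ((LmB_lam a b m : ℝ) : ℂ) *
        ∑ n ∈ Ioc U (y / m), ((LmB_cc Z c n : ℝ) : ℂ) * ee (t * Real.log ((m * n : ℕ) : ℝ)))]
  · apply Finset.sum_congr rfl
    intro p hp
    rw [mem_filter, mem_Ioc] at hp
    have hpb : p ≤ b := hp.1.2.trans (min_le_left b y)
    have hlam : LmB_lam a b p = Real.log p := by
      unfold LmB_lam
      rw [if_pos ⟨hp.2, hp.1.1, hpb⟩]
    rw [hlam, mul_assoc]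
    congr 1
    rw [Finset.mul_sum]
    have hsub2 : Ioc Z (y / p) ⊆ Ioc U (y / p) := Finset.Ioc_subset_Ioc_left hUZ
    rw [← Finset.sum_subset hsub2 (f := fun n => ((LmB_cc Z c n : ℝ) : ℂ) *
      ee (t * Real.log ((p * n : ℕ) : ℝ)))]
    · apply Finset.sum_congr rfl
      intro n hn
      rw [mem_Ioc] at hn
      have hcc : LmB_cc Z c n = c n := by
        unfold LmB_cc
        rw [if_pos hn.1]
      rw [hcc, LmB_ee_mul t p n hp.2.one_lt.le (by omega)]
      ring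
    · intro n hn hn2
      rw [mem_Ioc] at hn hn2
      have hcc : LmB_cc Z c n = 0 := by
        unfold LmB_cc
        rw [if_neg]
        intro h
        exact hn2 ⟨h, hn.2⟩
      rw [hcc]
      simp
  · intro m hm hm2
    rw [mem_Ioc] at hm
    have hlam : LmB_lam a b m = 0 := by
      unfold LmB_lam
      rw [if_neg]
      rintro ⟨h1, h2, h3⟩
      apply hm2
      rw [mem_filter, mem_Ioc]
      exact ⟨⟨h2, le_min h3 hm.2⟩, h1⟩
    rw [hlam]
    simp

private theorem LmB_box (a b Z U v v' N : ℕ) (c : ℕ → ℝ) (t : ℝ) (hUZ : U ≤ Z) :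
    ∑ m ∈ Ioc v v', ((LmB_lam a b m : ℝ) : ℂ) *
        ∑ n ∈ Ioc U N, ((LmB_cc Z c n : ℝ) : ℂ) * ee (t * Real.log ((m * n : ℕ) : ℝ))
      = (∑ m ∈ Ioc v v', ((LmB_lam a b m : ℝ) : ℂ) * ee (t * Real.log m)) *
        ∑ n ∈ Icc 1 N, ((LmB_cc Z c n : ℝ) : ℂ) * ee (t * Real.log n) := by
  have hsub : Ioc U N ⊆ Icc 1 N := by
    intro n hn
    rw [mem_Ioc] at hn
    rw [mem_Icc]
    omega
  have h1 : ∑ n ∈ Icc 1 N, ((LmB_cc Z c n : ℝ) : ℂ) * ee (t * Real.log n)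
      = ∑ n ∈ Ioc U N, ((LmB_cc Z c n : ℝ) : ℂ) * ee (t * Real.log n) := by
    symm
    apply Finset.sum_subset hsub
    intro n hn hn2
    rw [mem_Icc] at hn
    rw [mem_Ioc] at hn2
    have hcc : LmB_cc Z c n = 0 := by
      unfold LmB_cc
      rw [if_neg]
      omega
    rw [hcc]
    simp
  rw [h1, Finset.sum_mul]
  apply Finset.sum_congr rfl
  intro m hm
  rw [mem_Ioc] at hm
  rw [mul_assoc]
  congr 1
  rw [Finset.mul_sum]
  apply Finset.sum_congr rfl
  intro n hn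
  rw [mem_Ioc] at hn
  rw [LmB_ee_mul t m n (by omega) (by omega)]
  ring

private theorem LmB_PS (a b v v' : ℕ) (t : ℝ) :
    ∑ m ∈ Ioc v v', ((LmB_lam a b m : ℝ) : ℂ) * ee (t * Real.log m) =
      PS (max v a) (min v' b) t := by
  unfold PS
  have hsub : (Ioc (max v a) (min v' b)).filter Nat.Prime ⊆ Ioc v v' := by
    intro p hp
    rw [mem_filter, mem_Ioc] at hp
    rw [mem_Ioc]
    exact ⟨(le_max_left v a).trans_lt hp.1.1, hp.1.2.trans (min_le_left _ _)⟩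
  rw [← Finset.sum_subset hsub (f := fun m => ((LmB_lam a b m : ℝ) : ℂ) * ee (t * Real.log m))]
  · apply Finset.sum_congr rfl
    intro p hp
    rw [mem_filter, mem_Ioc] at hp
    have hlam : LmB_lam a b p = Real.log p := by
      unfold LmB_lam
      rw [if_pos ⟨hp.2, (le_max_right v a).trans_lt hp.1.1, hp.1.2.trans (min_le_right _ _)⟩]
    rw [hlam]
  · intro m hm hm2
    rw [mem_Ioc] at hm
    have hlam : LmB_lam a b m = 0 := by
      unfold LmB_lam
      rw [if_neg]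
      rintro ⟨h1, h2, h3⟩
      apply hm2
      rw [mem_filter, mem_Ioc]
      exact ⟨⟨max_lt hm.1 h2, le_min hm.2 h3⟩, h1⟩
    rw [hlam]
    simp

private theorem LmB_cc_abs (Z : ℕ) (c : ℕ → ℝ) (hc : ∀ n, |c n| ≤ 1) (n : ℕ) :
    |LmB_cc Z c n| ≤ 1 := by
  unfold LmB_cc
  split_ifs
  · exact hc n
  · simp

private theorem LmB_lam_le (a b m : ℕ) : |LmB_lam a b m| ≤ ArithmeticFunction.vonMangoldt m := by
  unfold LmB_lam
  split_ifs with h
  · rw [ArithmeticFunction.vonMangoldt_apply_prime h.1,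
      abs_of_nonneg (Real.log_nonneg (by exact_mod_cast h.1.one_lt.le))]
  · rw [abs_zero]
    exact ArithmeticFunction.vonMangoldt_nonneg

/-- the norm of a polynomial with bounded coefficients -/
private theorem LmB_nrm_le (B : Set ℝ) (f : ℝ → ℂ) (F : ℝ) (hF : 0 ≤ F)
    (h : nrm B f ^ 2 ≤ F ^ 2) : nrm B f ≤ F :=
  le_of_abs_le (abs_le_of_sq_le_sq h hF)

theorem mid (hV : VK1) : ∃ η : ℝ, 0 < η ∧ η ≤ 1 / 10 ∧ ∀ K : ℕ, ∃ K' x0 : ℕ, ∀ x : ℕ, x0 ≤ x →
    ∀ (y Z a b : ℕ) (c : ℕ → ℝ) (T η' : ℝ) (B : Set ℝ),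
      Real.exp (Real.log x ^ (19 / 20 : ℝ)) ≤ a → (x : ℝ) ^ (1 / 20 : ℝ) ≤ Z →
      (x : ℝ) ^ (1 / 2 : ℝ) ≤ y → y ≤ x → (∀ n, |c n| ≤ 1) →
      Real.log x ^ K' ≤ T → T ≤ x → 0 ≤ η' → η' ≤ η → BS η' T B →
      nrm B (fun t => ∑ p ∈ (Ioc a (min b y)).filter Nat.Prime,
        ((Real.log p : ℝ) : ℂ) * ee (t * Real.log p) *
          ∑ n ∈ Ioc Z (y / p), ((c n : ℝ) : ℂ) * ee (t * Real.log n)) ≤ y / Real.log x ^ K := by
  obtain ⟨η, hη0, hη1, x1, hhm⟩ := nrm_hm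
  refine ⟨η, hη0, hη1, fun K => ?_⟩
  obtain ⟨K', x2, hvk⟩ := ps_vk hV (3 * K + 30)
  obtain ⟨x3, hx3⟩ := log_ge 16
  obtain ⟨x4, hx4⟩ := exp_pow_le (1 / 20) 1 (by norm_num) one_pos
  obtain ⟨x5, hx5⟩ := LmB_exp_ge 4 (2 * K + 20)
  refine ⟨K', max (max (max x1 x2) (max x3 x4)) (max x5 2), ?_⟩
  intro x hx y Z a b c T η' B h1 h2 h3 h4 hc hT1 hTx hη'0 hη' hB
  have hxx1 : x1 ≤ x := (((le_max_left _ _).trans (le_max_left _ _)).trans (le_max_left _ _)).trans hx
  have hxx2 : x2 ≤ x := (((le_max_right _ _).trans (le_max_left _ _)).trans (le_max_left _ _)).trans hx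
  have hxx3 : x3 ≤ x := (((le_max_left _ _).trans (le_max_right _ _)).trans (le_max_left _ _)).trans hx
  have hxx4 : x4 ≤ x := (((le_max_right _ _).trans (le_max_right _ _)).trans (le_max_left _ _)).trans hx
  have hxx5 : x5 ≤ x := ((le_max_left _ _).trans (le_max_right _ _)).trans hx
  have hx2 : 2 ≤ x := ((le_max_right _ _).trans (le_max_right _ _)).trans hx
  have hL := hx3 x hxx3
  have hexp := hx4 x hxx4
  rw [one_mul] at hexp
  have hpw := hx5 x hxx5
  have hxr : (2 : ℝ) ≤ x := by exact_mod_cast hx2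
  set L := Real.log x with hLdef
  have hL1 : 1 ≤ L := by linarith only [hη0, hη1, hL]
  have hL0 : 0 < L := by linarith only [hη0, hη1, hL]
  have hT : 1 ≤ T := le_trans (one_le_pow₀ hL1) hT1
  -- parameters
  set P := L ^ (2 * K + 20) with hPdef
  have hP1 : 1 ≤ P := one_le_pow₀ hL1
  obtain ⟨q, hqdef⟩ : ∃ q : ℕ, q = ⌈P⌉₊ := ⟨_, rfl⟩
  obtain ⟨U, hUdef⟩ : ∃ U : ℕ, U = ⌈Real.exp (L ^ (19 / 20 : ℝ))⌉₊ := ⟨_, rfl⟩
  have hqP : P ≤ q := by rw [hqdef]; exact Nat.le_ceil P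
  have hqP2 : (q : ℝ) ≤ P + 1 := by rw [hqdef]; exact (Nat.ceil_lt_add_one (by linarith only [hη0, hη1, hP1])).le
  have hq1 : 1 ≤ q := by
    have : (1 : ℝ) ≤ q := hP1.trans hqP
    exact_mod_cast this
  have hUe : Real.exp (L ^ (19 / 20 : ℝ)) ≤ U := by rw [hUdef]; exact Nat.le_ceil _
  have hU : 2 * q ≤ U := by
    have : (2 : ℝ) * q ≤ U := by linarith only [hpw, hP1, hqP2, hUe]
    exact_mod_cast this
  have hUa : U ≤ a := by rw [hUdef]; exact Nat.ceil_le.2 h1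
  have hUZ : U ≤ Z := by rw [hUdef]; exact Nat.ceil_le.2 (hexp.trans h2)
  have hxy20 : (x : ℝ) ^ (1 / 20 : ℝ) ≤ y :=
    (Real.rpow_le_rpow_of_exponent_le (by linarith only [hη0, hη1, hxr]) (by norm_num)).trans h3
  have hUy : U ≤ y := by rw [hUdef]; exact Nat.ceil_le.2 (hexp.trans hxy20)
  have hy1 : 1 ≤ y := by omega
  have hyr : (1 : ℝ) ≤ y := by exact_mod_cast hy1
  have hyx : (y : ℝ) ≤ x := by exact_mod_cast h4
  have hlogy : Real.log y ≤ L := Real.log_le_log (by linarith only [hη0, hη1, hexp, hpw, hP1, hxy20]) hyx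
  have hlogy0 : 0 ≤ Real.log y := Real.log_nonneg hyr
  obtain ⟨J, v, e, hJ, hvU, hvlt, hv2, he, he0, hid⟩ :=
    Pool.Agent.H80.LV.box_dec y U q hq1 hU hUy (LmB_lam a b) (LmB_cc Z c)
  let A : ℕ → ℝ → ℂ := fun j t =>
    ∑ m ∈ Ioc (v j) (v (j + 1)), ((LmB_lam a b m : ℝ) : ℂ) * ee (t * Real.log m)
  let Q : ℕ → ℝ → ℂ := fun j t =>
    ∑ n ∈ Icc 1 (y / v (j + 1)), ((LmB_cc Z c n : ℝ) : ℂ) * ee (t * Real.log n)
  let R : ℝ → ℂ := fun t => ∑ k ∈ Icc 1 y, ((e k : ℝ) : ℂ) * ee (t * Real.log k)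
  have hAc : ∀ j, Continuous (A j) := fun j => cont_poly _ _
  have hQc : ∀ j, Continuous (Q j) := fun j => cont_poly _ _
  have hRc : Continuous R := cont_poly _ _
  have hfun : (fun t => ∑ p ∈ (Ioc a (min b y)).filter Nat.Prime,
        ((Real.log p : ℝ) : ℂ) * ee (t * Real.log p) *
          ∑ n ∈ Ioc Z (y / p), ((c n : ℝ) : ℂ) * ee (t * Real.log n))
      = fun t => (∑ j ∈ range J, A j t * Q j t) + R t := by
    funext t
    rw [LmB_lhs y Z a b U c t hUa hUZ, hid (fun k => ee (t * Real.log k))]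
    congr 1
    apply Finset.sum_congr rfl
    intro j _
    exact LmB_box a b Z U (v j) (v (j + 1)) (y / v (j + 1)) c t hUZ
  rw [hfun]
  have hAbd : ∀ j ∈ range J, ∀ t ∈ B, ‖A j t‖ ≤ v (j + 1) / L ^ (3 * K + 30) := by
    intro j hj t ht
    rw [mem_range] at hj
    have hAe : A j t = PS (max (v j) a) (min (v (j + 1)) b) t := LmB_PS a b (v j) (v (j + 1)) t
    rw [hAe]
    by_cases hab : max (v j) a ≤ min (v (j + 1)) b
    · obtain ⟨ht1, ht2⟩ := hB.mem t ht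
      have hbx : min (v (j + 1)) b ≤ x ^ 2 := by
        have h5 := hv2 j hj
        have h6 := min_le_left (v (j + 1)) b
        nlinarith only [h4, h5, h6, hx2]
      have h7 := hvk x hxx2 (max (v j) a) (min (v (j + 1)) b) t
        (h1.trans (by exact_mod_cast le_max_right _ _)) hab hbx (hT1.trans ht1)
        (by
          have h8 : 2 * T ≤ 2 * (x : ℝ) := by linarith only [hTx]
          have h9 : 2 * (x : ℝ) ≤ (x : ℝ) ^ 2 := by nlinarith only [hxr]
          linarith only [hTx, ht2, h9])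
      refine h7.trans ?_
      apply div_le_div_of_nonneg_right _ (by positivity)
      exact_mod_cast min_le_left _ _
    · unfold PS
      rw [Finset.Ioc_eq_empty (fun h => hab h.le)]
      simp only [Finset.filter_empty, Finset.sum_empty, norm_zero]
      positivity
  have hQbd : ∀ j ∈ range J, nrm B (Q j) ≤ (y / v (j + 1) : ℕ) * L := by
    intro j _
    by_cases hN : y / v (j + 1) ≤ Z
    · have hQ0 : Q j = fun _ => 0 := by
        funext t
        apply Finset.sum_eq_zero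
        intro n hn
        rw [mem_Icc] at hn
        have hcc : LmB_cc Z c n = 0 := by
          unfold LmB_cc
          rw [if_neg]
          omega
        rw [hcc]
        simp
      rw [hQ0]
      have : nrm B (fun _ => (0 : ℂ)) = 0 := by
        unfold nrm
        simp
      rw [this]
      positivity
    · push Not at hN
      apply LmB_nrm_le _ _ _ (by positivity)
      have hNZ : (Z : ℝ) ≤ ((y / v (j + 1) : ℕ) : ℝ) := by exact_mod_cast hN.le
      have hNy : y / v (j + 1) ≤ x := (Nat.div_le_self _ _).trans h4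
      have h5 := hhm x hxx1 (y / v (j + 1)) (fun n => ((LmB_cc Z c n : ℝ) : ℂ)) T B η' hη'0 hη'
        (h2.trans hNZ) hNy hT hTx hB
      refine h5.trans ?_
      have h6 : ∑ n ∈ Icc 1 (y / v (j + 1)), ‖((LmB_cc Z c n : ℝ) : ℂ)‖ ^ 2
          ≤ ((y / v (j + 1) : ℕ) : ℝ) := by
        calc ∑ n ∈ Icc 1 (y / v (j + 1)), ‖((LmB_cc Z c n : ℝ) : ℂ)‖ ^ 2
            ≤ ∑ n ∈ Icc 1 (y / v (j + 1)), (1 : ℝ) := by
              apply Finset.sum_le_sum
              intro n _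
              rw [Complex.norm_real, Real.norm_eq_abs]
              exact pow_le_one₀ (abs_nonneg _) (LmB_cc_abs Z c hc n)
          _ = ((y / v (j + 1) : ℕ) : ℝ) := by simp
      calc ((y / v (j + 1) : ℕ) : ℝ) * L ^ 2 *
            ∑ n ∈ Icc 1 (y / v (j + 1)), ‖((LmB_cc Z c n : ℝ) : ℂ)‖ ^ 2
          ≤ ((y / v (j + 1) : ℕ) : ℝ) * L ^ 2 * ((y / v (j + 1) : ℕ) : ℝ) :=
            mul_le_mul_of_nonneg_left h6 (by positivity)
        _ = (((y / v (j + 1) : ℕ) : ℝ) * L) ^ 2 := by ring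
  have hbox : ∀ j ∈ range J, nrm B (fun t => A j t * Q j t) ≤ y * L / L ^ (3 * K + 30) := by
    intro j hj
    have h5 := nrm_mul η' T B hB (Q j) (A j) (v (j + 1) / L ^ (3 * K + 30)) (hQc j) (hAc j)
      (hAbd j hj) (by positivity)
    refine h5.trans ?_
    have h6 := mul_le_mul_of_nonneg_left (hQbd j hj)
      (show 0 ≤ (v (j + 1) : ℝ) / L ^ (3 * K + 30) by positivity)
    refine h6.trans ?_
    have h7 : ((y / v (j + 1) : ℕ) : ℝ) * v (j + 1) ≤ y := by
      exact_mod_cast Nat.div_mul_le_self y (v (j + 1))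
    calc (v (j + 1) : ℝ) / L ^ (3 * K + 30) * (((y / v (j + 1) : ℕ) : ℝ) * L)
        = (((y / v (j + 1) : ℕ) : ℝ) * v (j + 1)) * L / L ^ (3 * K + 30) := by ring
      _ ≤ y * L / L ^ (3 * K + 30) := by
          apply div_le_div_of_nonneg_right _ (by positivity)
          exact mul_le_mul_of_nonneg_right h7 hL0.le
  have hJ2 : (J : ℝ) ≤ P * L ^ 2 := by
    have h5 : 4 * (q : ℝ) * Real.log y ≤ 4 * (P + 1) * L := by
      apply mul_le_mul (by linarith only [hqP2]) hlogy hlogy0 (by linarith only [hη0, hη1, hP1])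
    have h6 : 1 ≤ P * L := by nlinarith only [hη1, hL, hP1, hη0]
    have h7 : P * L * 16 ≤ P * L * L := mul_le_mul_of_nonneg_left hL (by positivity)
    nlinarith only [hη1, hL, hJ, h5, h7, hP1, hη0]
  have hsum : nrm B (fun t => ∑ j ∈ range J, A j t * Q j t) ≤ y / L ^ (K + 7) := by
    refine (nrm_sum η' T B hB (range J) (fun j t => A j t * Q j t)
      (fun j _ => (hAc j).mul (hQc j))).trans ?_
    calc ∑ j ∈ range J, nrm B (fun t => A j t * Q j t)
        ≤ ∑ j ∈ range J, y * L / L ^ (3 * K + 30) := Finset.sum_le_sum hbox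
      _ = J * (y * L / L ^ (3 * K + 30)) := by
          rw [Finset.sum_const, Finset.card_range, nsmul_eq_mul]
      _ ≤ (P * L ^ 2) * (y * L / L ^ (3 * K + 30)) :=
          mul_le_mul_of_nonneg_right hJ2 (by positivity)
      _ = y / L ^ (K + 7) := by
          have e1 : L ^ (3 * K + 30) = P * L ^ 3 * L ^ (K + 7) := by
            rw [hPdef, ← pow_add, ← pow_add]
            congr 1
            ring
          rw [e1]
          field_simp
  have hRbd : nrm B R ≤ y / L ^ (K + 7) := by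
    apply LmB_nrm_le _ _ _ (by positivity)
    have h5 := hhm x hxx1 y (fun n => ((e n : ℝ) : ℂ)) T B η' hη'0 hη' hxy20 h4 hT hTx hB
    refine h5.trans ?_
    have heL : ∀ k ∈ Icc 1 y, |e k| ≤ L := by
      intro k hk
      rw [mem_Icc] at hk
      calc |e k| ≤ ∑ m ∈ k.divisors, |LmB_lam a b m| * |LmB_cc Z c (k / m)| := he k
        _ ≤ ∑ m ∈ k.divisors, ArithmeticFunction.vonMangoldt m := by
            apply Finset.sum_le_sum
            intro m _
            calc |LmB_lam a b m| * |LmB_cc Z c (k / m)| ≤ ArithmeticFunction.vonMangoldt m * 1 :=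
                  mul_le_mul (LmB_lam_le a b m) (LmB_cc_abs Z c hc _) (abs_nonneg _)
                    ArithmeticFunction.vonMangoldt_nonneg
              _ = _ := mul_one _
        _ = Real.log k := ArithmeticFunction.vonMangoldt_sum
        _ ≤ L := by
            apply Real.log_le_log
            · exact_mod_cast (by omega : 0 < k)
            · exact le_trans (by exact_mod_cast hk.2) hyx
    have h6 : ∑ k ∈ Icc 1 y, ‖((e k : ℝ) : ℂ)‖ ^ 2 ≤ L ^ 2 * (2 * (y / q)) := by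
      have h7 : ∑ k ∈ Icc 1 y, ‖((e k : ℝ) : ℂ)‖ ^ 2
          ≤ ∑ k ∈ Ioc (y - y / q - 1) y, L ^ 2 := by
        calc ∑ k ∈ Icc 1 y, ‖((e k : ℝ) : ℂ)‖ ^ 2
            = ∑ k ∈ (Icc 1 y).filter (fun k => k ∈ Ioc (y - y / q - 1) y),
                ‖((e k : ℝ) : ℂ)‖ ^ 2 := by
              symm
              apply Finset.sum_subset (Finset.filter_subset _ _)
              intro k hk hk2
              rw [mem_filter] at hk2
              have : e k = 0 := he0 k (fun h => hk2 ⟨hk, h⟩)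
              rw [this]
              simp
          _ ≤ ∑ k ∈ (Icc 1 y).filter (fun k => k ∈ Ioc (y - y / q - 1) y), L ^ 2 := by
              apply Finset.sum_le_sum
              intro k hk
              rw [mem_filter] at hk
              rw [Complex.norm_real, Real.norm_eq_abs]
              exact pow_le_pow_left₀ (abs_nonneg _) (heL k hk.1) 2
          _ ≤ ∑ k ∈ Ioc (y - y / q - 1) y, L ^ 2 := by
              apply Finset.sum_le_sum_of_subset_of_nonneg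
              · intro k hk
                exact (mem_filter.1 hk).2
              · intro k _ _
                positivity
      refine h7.trans ?_
      rw [Finset.sum_const, Nat.card_Ioc, nsmul_eq_mul, mul_comm]
      apply mul_le_mul_of_nonneg_left _ (by positivity)
      have h8 : y - (y - y / q - 1) ≤ y / q + 1 := by
        generalize y / q = r
        omega
      have h9 : ((y / q : ℕ) : ℝ) ≤ (y : ℝ) / q := Nat.cast_div_le
      have hqy : (q : ℝ) ≤ y := by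
        have : q ≤ y := by omega
        exact_mod_cast this
      have hq0 : (0 : ℝ) < q := by linarith only [hη0, hη1, hP1, hqP]
      have h10 : 1 ≤ (y : ℝ) / q := by rw [le_div_iff₀ hq0]; linarith only [hη0, hη1, hexp, hpw, hP1, hqP2, hxy20]
      calc ((y - (y - y / q - 1) : ℕ) : ℝ) ≤ ((y / q + 1 : ℕ) : ℝ) := by exact_mod_cast h8
        _ = ((y / q : ℕ) : ℝ) + 1 := by push_cast; ring
        _ ≤ 2 * (y / q) := by linarith only [h9, h10]
    have hq0 : (0 : ℝ) < q := by linarith only [hη0, hη1, hP1, hqP]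
    have h7 : (y : ℝ) / q ≤ y / P := div_le_div_of_nonneg_left (by linarith only [hη0, hη1, hexp, hpw, hP1, hxy20]) (by linarith only [hη0, hη1, hP1]) hqP
    calc (y : ℝ) * L ^ 2 * ∑ k ∈ Icc 1 y, ‖((e k : ℝ) : ℂ)‖ ^ 2
        ≤ y * L ^ 2 * (L ^ 2 * (2 * (y / P))) := by
          apply mul_le_mul_of_nonneg_left _ (by positivity)
          refine h6.trans ?_
          apply mul_le_mul_of_nonneg_left _ (by positivity)
          linarith only [h7]
      _ = 2 * (y ^ 2 * L ^ 4 / P) := by ring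
      _ ≤ L ^ 2 * (y ^ 2 * L ^ 4 / P) := by
          apply mul_le_mul_of_nonneg_right _ (by positivity)
          nlinarith only [hη1, hL, hη0]
      _ = (y / L ^ (K + 7)) ^ 2 := by
          have e1 : P = (L ^ (K + 7)) ^ 2 * L ^ 6 := by
            rw [hPdef, ← pow_mul, ← pow_add]
            congr 1
            ring
          rw [e1]
          field_simp
  have hfin : nrm B (fun t => (∑ j ∈ range J, A j t * Q j t) + R t)
      ≤ nrm B (fun t => ∑ j ∈ range J, A j t * Q j t) + nrm B R :=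
    nrm_add η' T B hB _ _ (continuous_finset_sum _ fun j _ => (hAc j).mul (hQc j)) hRc
  refine hfin.trans ?_
  calc nrm B (fun t => ∑ j ∈ range J, A j t * Q j t) + nrm B R
      ≤ y / L ^ (K + 7) + y / L ^ (K + 7) := add_le_add hsum hRbd
    _ = 2 * y / L ^ (K + 7) := by ring
    _ ≤ y / L ^ K := by
        rw [div_le_div_iff₀ (by positivity) (by positivity)]
        have h5 : 2 ≤ L ^ 7 := by
          have := pow_le_pow_left₀ (by norm_num) hL 7
          norm_num at this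
          linarith only [hη0, hη1, this]
        have h6 : L ^ (K + 7) = L ^ K * L ^ 7 := pow_add _ _ _
        rw [h6]
        have h7 : 0 ≤ (y : ℝ) * L ^ K := by positivity
        nlinarith only [h5, h7, mul_le_mul_of_nonneg_left h5 h7]

end Pool.Agent.H76.MU

end
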