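import Pool.Agent.H47.B1.M53
import Pool.Agent.H47.B1.M54
import Pool.Agent.H47.B1.M57

/-! The parts of this file: H76.MU.LmR, H76.MU.CorG, H76.MU.VarDA, H76.MU.ExL. -/

section

/-!
# MU LmR: large values of the weighted Liouville sums (recursion)

Proof.  `η` from `logsum` (`≤ 1/10`).  `y < x^{4/5}`: trivially `nrm ≤ y x^{1/20} ≤ x/L^K` (`nrm_triv`, `gl_abs_le`).  Let `y ≥ x^{4/5}`.  `D1` as in `logsum`, `Q = ⌈L^{K+3}⌉₊`,
`Y i = x^{3/4} (4 D1 Q)^i`, `I = 40 (K + 2)`, `Y I ≤ x^{4/5}` (`exp_pow_le`).  CLAIM(i): for all `j ≥ 1` and `Y i ≤ y ≤ x`: `nrm B (SL j P J y) ≤ ψ_i y`, `ψ_0 = L`,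
`ψ_{i+1} = 12 L^{-1/20} ψ_i + 2 L^{-K-2}`.  `i = 0`: `nrm_hm` (`|gl| ≤ 1`).  Step (Abel summation), `y0 = y / Q` (natural), `W(n) = ∑_{m ≤ n} gl j P J m log m ee(t log m)`:
`SL(y) = SL(y0) + W(y)/log y - W(y0)/log(y0+1) + ∑_{n ∈ Ioo y0 y} W(n) (1/log n - 1/log(n+1))`, `nrm SL(y0) ≤ L y/Q` (`nrm_hm`), and `logsum` (with `K + 3`) for every `n ∈ [y0, y]`
(`n/(2 D1) ≥ Y i`): `nrm W(n) ≤ (2 L^{19/20} ψ_i + L^{-K-3}) y`; the weights are nonnegative with sum `≤ 3/log y0 ≤ 6/L`.  So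
`nrm SL(y) ≤ y (L/Q + (6/L)(2 L^{19/20} ψ_i + L^{-K-3})) ≤ ψ_{i+1} y`.
Hence `ψ_I ≤ L (12 L^{-1/20})^I + 3 L^{-K-2} ≤ L^{-K}` for large `x`.
-/

set_option autoImplicit false

namespace Pool.Agent.H76.MU

open Finset MeasureTheory
open Pool.Agent.H91.PK (ee)

/-- the sum with the weight `log m` -/
noncomputable def LmR_W (j P J n : ℕ) (t : ℝ) : ℂ :=
  ∑ m ∈ Icc 1 n, ((gl j P J m * Real.log m : ℝ) : ℂ) * ee (t * Real.log m)

theorem LmR_contW (j P J n : ℕ) : Continuous (LmR_W j P J n) :=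
  cont_poly (Icc 1 n) (fun m => ((gl j P J m * Real.log m : ℝ) : ℂ))

theorem LmR_contS (j P J n : ℕ) : Continuous (SL j P J n) :=
  cont_poly (Icc 1 n) (fun m => ((gl j P J m : ℝ) : ℂ))

/-- Abel summation -/
theorem LmR_abel (j P J y0 y : ℕ) (t : ℝ) (hy0 : 2 ≤ y0) (hy : y0 ≤ y) :
    SL j P J y t = SL j P J y0 t + (((1 / Real.log y : ℝ) : ℂ) * LmR_W j P J y t +
      (((-(1 / Real.log y0) : ℝ) : ℂ) * LmR_W j P J y0 t +
        ∑ k ∈ Ico y0 y, ((1 / Real.log k - 1 / Real.log ((k : ℝ) + 1) : ℝ) : ℂ) * LmR_W j P J k t)) := by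
  induction y, hy using Nat.le_induction with
  | base =>
    simp only [Finset.Ico_self, Finset.sum_empty]
    push_cast
    ring
  | succ n hn ih =>
    rw [Finset.sum_Ico_succ_top hn]
    have hW : LmR_W j P J (n + 1) t = LmR_W j P J n t +
        ((gl j P J (n + 1) * Real.log ((n + 1 : ℕ) : ℝ) : ℝ) : ℂ) * ee (t * Real.log ((n + 1 : ℕ) : ℝ)) := by
      unfold LmR_W
      rw [Finset.sum_Icc_succ_top (by omega)]
    have hS : SL j P J (n + 1) t = SL j P J n t +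
        ((gl j P J (n + 1) : ℝ) : ℂ) * ee (t * Real.log ((n + 1 : ℕ) : ℝ)) := by
      unfold SL
      rw [Finset.sum_Icc_succ_top (by omega)]
    have hlog : Real.log ((n + 1 : ℕ) : ℝ) ≠ 0 := by
      apply Real.log_ne_zero_of_pos_of_ne_one
      · positivity
      · have : (3 : ℝ) ≤ ((n + 1 : ℕ) : ℝ) := by exact_mod_cast (by omega : 3 ≤ n + 1)
        linarith only [this]
    have hlogC : ((Real.log ((n : ℝ) + 1) : ℝ) : ℂ) ≠ 0 := by
      have : Real.log ((n : ℝ) + 1) ≠ 0 := by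
        have h := hlog
        push_cast at h
        exact h
      exact_mod_cast this
    rw [hS, ih, hW]
    push_cast
    field_simp
    ring

theorem LmR_key (η T : ℝ) (B : Set ℝ) (hB : BS η T B) (j P J y0 y : ℕ) (M : ℝ) (hy0 : 2 ≤ y0)
    (hy : y0 ≤ y) (hM : ∀ n, y0 ≤ n → n ≤ y → nrm B (LmR_W j P J n) ≤ M) :
    nrm B (SL j P J y) ≤ nrm B (SL j P J y0) + 2 / Real.log y0 * M := by
  have hlogpos : ∀ k : ℕ, 2 ≤ k → 0 < Real.log (k : ℝ) := fun k hk =>
    Real.log_pos (by exact_mod_cast (by omega : 1 < k))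
  have hM0 : 0 ≤ M := (nrm_nonneg _ _).trans (hM y0 le_rfl hy)
  have hfun : SL j P J y = fun t => SL j P J y0 t + (((1 / Real.log y : ℝ) : ℂ) * LmR_W j P J y t +
      (((-(1 / Real.log y0) : ℝ) : ℂ) * LmR_W j P J y0 t +
        ∑ k ∈ Ico y0 y, ((1 / Real.log k - 1 / Real.log ((k : ℝ) + 1) : ℝ) : ℂ) * LmR_W j P J k t)) := by
    funext t
    exact LmR_abel j P J y0 y t hy0 hy
  have hc : ∀ (c : ℝ) (n : ℕ), Continuous (fun t : ℝ => ((c : ℝ) : ℂ) * LmR_W j P J n t) :=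
    fun c n => continuous_const.mul (LmR_contW j P J n)
  have hcs : Continuous (fun t : ℝ => ∑ k ∈ Ico y0 y,
      ((1 / Real.log k - 1 / Real.log ((k : ℝ) + 1) : ℝ) : ℂ) * LmR_W j P J k t) :=
    continuous_finsetSum _ fun k _ => hc _ k
  have hmul : ∀ (c C : ℝ) (n : ℕ), |c| ≤ C → 0 ≤ C → y0 ≤ n → n ≤ y →
      nrm B (fun t : ℝ => ((c : ℝ) : ℂ) * LmR_W j P J n t) ≤ C * M := by
    intro c C n hcC hC h1 h2
    refine (nrm_mul η T B hB (LmR_W j P J n) (fun _ => ((c : ℝ) : ℂ)) C (LmR_contW j P J n)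
      continuous_const (fun t _ => ?_) hC).trans ?_
    · rw [Complex.norm_real, Real.norm_eq_abs]; exact hcC
    · exact mul_le_mul_of_nonneg_left (hM n h1 h2) hC
  have hw : ∀ k : ℕ, 2 ≤ k → 1 / Real.log ((k : ℝ) + 1) ≤ 1 / Real.log k := fun k hk =>
    one_div_le_one_div_of_le (hlogpos k hk) (Real.log_le_log (by positivity) (by linarith))
  have hsumw : ∑ k ∈ Ico y0 y, (1 / Real.log (k : ℝ) - 1 / Real.log ((k : ℝ) + 1))
      = 1 / Real.log y0 - 1 / Real.log y := by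
    clear hM hfun hcs hmul
    induction y, hy using Nat.le_induction with
    | base => simp
    | succ n hn ih =>
      rw [Finset.sum_Ico_succ_top hn, ih]
      push_cast
      ring
  have h1 : nrm B (fun t : ℝ => ∑ k ∈ Ico y0 y,
      ((1 / Real.log k - 1 / Real.log ((k : ℝ) + 1) : ℝ) : ℂ) * LmR_W j P J k t)
      ≤ (1 / Real.log y0 - 1 / Real.log y) * M := by
    refine (nrm_sum η T B hB (Ico y0 y) (fun k t =>
      ((1 / Real.log k - 1 / Real.log ((k : ℝ) + 1) : ℝ) : ℂ) * LmR_W j P J k t)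
      (fun k _ => hc _ k)).trans ?_
    rw [← hsumw, Finset.sum_mul]
    refine Finset.sum_le_sum fun k hk => ?_
    rw [Finset.mem_Ico] at hk
    have := hw k (by omega)
    exact hmul _ _ k (le_of_eq (abs_of_nonneg (by linarith only [this]))) (by linarith) hk.1 (by omega)
  have h2 := hmul (1 / Real.log y) (1 / Real.log y) y
    (le_of_eq (abs_of_nonneg (by have := hlogpos y (by omega); positivity)))
    (by have := hlogpos y (by omega); positivity) hy le_rfl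
  have h3 := hmul (-(1 / Real.log y0)) (1 / Real.log y0) y0
    (le_of_eq (by rw [abs_neg]; exact abs_of_nonneg (by have := hlogpos y0 hy0; positivity)))
    (by have := hlogpos y0 hy0; positivity) le_rfl hy
  have h4 := nrm_add η T B hB (fun t => ((-(1 / Real.log y0) : ℝ) : ℂ) * LmR_W j P J y0 t)
    (fun t => ∑ k ∈ Ico y0 y,
      ((1 / Real.log k - 1 / Real.log ((k : ℝ) + 1) : ℝ) : ℂ) * LmR_W j P J k t) (hc _ _) hcs
  have h5 := nrm_add η T B hB (fun t => ((1 / Real.log y : ℝ) : ℂ) * LmR_W j P J y t)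
    (fun t => ((-(1 / Real.log y0) : ℝ) : ℂ) * LmR_W j P J y0 t + ∑ k ∈ Ico y0 y,
      ((1 / Real.log k - 1 / Real.log ((k : ℝ) + 1) : ℝ) : ℂ) * LmR_W j P J k t) (hc _ _)
    ((hc _ _).add hcs)
  have h6 := nrm_add η T B hB (SL j P J y0)
    (fun t => ((1 / Real.log y : ℝ) : ℂ) * LmR_W j P J y t +
      (((-(1 / Real.log y0) : ℝ) : ℂ) * LmR_W j P J y0 t + ∑ k ∈ Ico y0 y,
      ((1 / Real.log k - 1 / Real.log ((k : ℝ) + 1) : ℝ) : ℂ) * LmR_W j P J k t))
    (LmR_contS j P J y0) ((hc _ _).add ((hc _ _).add hcs))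
  rw [← hfun] at h6
  have h7 : 2 / Real.log (y0 : ℝ) * M = (1 / Real.log y) * M + ((1 / Real.log y0) * M +
      (1 / Real.log y0 - 1 / Real.log y) * M) := by ring
  rw [h7]
  linarith only [h1, h2, h3, h4, h5, h6]

/-- the recursion -/
theorem LmR_ind (x K : ℕ) (η T : ℝ) (B : Set ℝ) (hB : BS η T B) (P J D1 Q : ℕ) (L c : ℝ)
    (hLx : L = Real.log x) (hx : 1 ≤ x) (hL : 16 ≤ L) (hc0 : 0 ≤ c) (hc : c ≤ 1 / 3)
    (hcL : 12 * L ^ (19 / 20 : ℝ) = c * L)
    (hD1 : 1 ≤ D1) (hQ : 1 ≤ Q) (hQL : L ^ (K + 3) ≤ Q)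
    (hS : ∀ (y : ℕ) (ψ : ℝ), (x : ℝ) ^ (3 / 4 : ℝ) ≤ y → y ≤ x → 0 ≤ ψ →
      (∀ j : ℕ, 1 ≤ j → ∀ z : ℕ, (y : ℝ) / (2 * D1) ≤ z → z ≤ y → nrm B (SL j P J z) ≤ ψ * z) →
      ∀ j : ℕ, 1 ≤ j → nrm B (LmR_W j P J y) ≤ (2 * L ^ (19 / 20 : ℝ) * ψ + 1 / L ^ (K + 3)) * y)
    (hH : ∀ j : ℕ, 1 ≤ j → ∀ n : ℕ, (x : ℝ) ^ (1 / 20 : ℝ) ≤ n → n ≤ x →
      nrm B (SL j P J n) ≤ L * n) (i : ℕ) :
    ∀ j : ℕ, 1 ≤ j → ∀ y : ℕ, (x : ℝ) ^ (3 / 4 : ℝ) * ((4 * D1 * Q : ℕ) : ℝ) ^ i ≤ y → y ≤ x →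
      nrm B (SL j P J y) ≤ (L * c ^ i + 3 / L ^ (K + 2)) * y := by
  have hx1 : (1 : ℝ) ≤ x := by exact_mod_cast hx
  have hL0 : 0 < L := by linarith only [hL]
  have hXX : (x : ℝ) ^ (1 / 20 : ℝ) ≤ (x : ℝ) ^ (3 / 4 : ℝ) :=
    Real.rpow_le_rpow_of_exponent_le hx1 (by norm_num)
  have hX1 : (1 : ℝ) ≤ (x : ℝ) ^ (3 / 4 : ℝ) := Real.one_le_rpow hx1 (by norm_num)
  induction i with
  | zero =>
    intro j hj y hy hyx
    rw [pow_zero, mul_one] at hy
    have h1 := hH j hj y (hXX.trans hy) hyx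
    have h2 : 0 ≤ 3 / L ^ (K + 2) * y := by positivity
    rw [pow_zero]
    nlinarith only [h1, h2]
  | succ i ih =>
    intro j hj y hy hyx
    set X4 : ℝ := (x : ℝ) ^ (3 / 4 : ℝ) with hX4
    set R : ℝ := ((4 * D1 * Q : ℕ) : ℝ) with hR
    have hRe : R = 4 * D1 * Q := by rw [hR]; push_cast; ring
    have hD1' : (1 : ℝ) ≤ D1 := by exact_mod_cast hD1
    have hQ' : (1 : ℝ) ≤ Q := by exact_mod_cast hQ
    have hR1 : 1 ≤ R := by rw [hRe]; nlinarith only [hD1', hQ']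
    have hRi : 1 ≤ R ^ i := one_le_pow₀ hR1
    have hXR : 1 ≤ X4 * R ^ i := by nlinarith only [hX1, hRi]
    -- the natural number `y0`
    have hQy : Q ≤ y := by
      have h1 : (Q : ℝ) ≤ y := by
        refine le_trans ?_ hy
        rw [pow_succ, hRe]
        rw [hRe] at hXR
        have : (Q : ℝ) ≤ 4 * D1 * Q := by nlinarith only [hD1', hQ']
        nlinarith
      exact_mod_cast h1
    set y0 : ℕ := y / Q with hy0
    have hy01 : 1 ≤ y0 := by
      rw [hy0, Nat.one_le_div_iff (by omega)]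
      exact hQy
    have hyy : (y : ℝ) ≤ 2 * Q * y0 := by
      have h1 : y < Q * (y0 + 1) := by
        rw [hy0]
        exact Nat.lt_mul_div_succ y (by omega)
      have h2 : Q * (y0 + 1) ≤ 2 * Q * y0 := by nlinarith only [hy01]
      exact_mod_cast (h1.le.trans h2)
    have hy0y : y0 ≤ y := Nat.div_le_self _ _
    have hy0Q : (y0 : ℝ) * Q ≤ y := by
      have : y0 * Q ≤ y := Nat.div_mul_le_self y Q
      exact_mod_cast this
    have hbig : X4 * R ^ i * (2 * D1) ≤ y0 := by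
      have h1 : X4 * R ^ i * (4 * D1 * Q) ≤ 2 * Q * y0 := by
        refine le_trans ?_ hyy
        refine le_trans (le_of_eq ?_) hy
        rw [pow_succ, ← hRe]; ring
      have h2 : (0 : ℝ) < 2 * Q := by linarith only [hQ']
      have h3 : (2 * Q : ℝ) * (X4 * R ^ i * (2 * D1)) ≤ (2 * Q) * y0 := by
        refine le_trans (le_of_eq ?_) h1
        ring
      exact le_of_mul_le_mul_left h3 h2
    have hX4y0 : X4 ≤ y0 := by
      refine le_trans ?_ hbig
      have : 1 ≤ R ^ i * (2 * D1) := by nlinarith only [hD1', hRi]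
      nlinarith only [hD1', hRi, hX1, this]
    -- the bound for the weighted sums
    set ψ : ℝ := L * c ^ i + 3 / L ^ (K + 2) with hψ
    have hψ0 : 0 ≤ ψ := by positivity
    have hM : ∀ n, y0 ≤ n → n ≤ y →
        nrm B (LmR_W j P J n) ≤ (2 * L ^ (19 / 20 : ℝ) * ψ + 1 / L ^ (K + 3)) * y := by
      intro n hn1 hn2
      have hn1' : (y0 : ℝ) ≤ n := by exact_mod_cast hn1
      have hn2' : (n : ℝ) ≤ y := by exact_mod_cast hn2
      refine (hS n ψ (hX4y0.trans hn1') (hn2.trans hyx) hψ0 ?_ j hj).trans ?_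
      · intro j' hj' z hz1 hz2
        refine ih j' hj' z ?_ (hz2.trans (hn2.trans hyx))
        refine le_trans ?_ hz1
        rw [le_div_iff₀ (by positivity)]
        exact hbig.trans hn1'
      · exact mul_le_mul_of_nonneg_left hn2' (by positivity)
    have hlogy0 : L / 2 ≤ Real.log y0 := by
      have h1 : Real.log X4 ≤ Real.log y0 := Real.log_le_log (by linarith only [hX1]) hX4y0
      rw [hX4, Real.log_rpow (by linarith only [hx1]), ← hLx] at h1
      linarith only [hL, h1]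
    have hy02 : 2 ≤ y0 := by
      by_contra hcon
      have : y0 = 1 := by omega
      rw [this] at hlogy0
      simp at hlogy0
      linarith only [hL, hlogy0]
    have hkey := LmR_key η T B hB j P J y0 y _ hy02 hy0y hM
    have hS0 := hH j hj y0 (hXX.trans hX4y0) (hy0y.trans hyx)
    have hy0' : (0 : ℝ) ≤ y := Nat.cast_nonneg _
    -- first term
    have hLK : 0 < L ^ (K + 2) := by positivity
    have h1 : L * y0 ≤ 1 / L ^ (K + 2) * y := by
      have h2 : (y0 : ℝ) * L ^ (K + 3) ≤ y :=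
        (mul_le_mul_of_nonneg_left hQL (Nat.cast_nonneg _)).trans hy0Q
      rw [one_div, inv_mul_eq_div, le_div_iff₀ hLK]
      calc L * y0 * L ^ (K + 2) = y0 * L ^ (K + 3) := by ring
        _ ≤ y := h2
    -- second term
    have h2 : 2 / Real.log y0 ≤ 4 / L := by
      rw [div_le_div_iff₀ (by linarith only [hL, hlogy0]) hL0]
      linarith only [hlogy0]
    have hMnn : 0 ≤ (2 * L ^ (19 / 20 : ℝ) * ψ + 1 / L ^ (K + 3)) * y := by positivity
    have h3 : 2 / Real.log y0 * ((2 * L ^ (19 / 20 : ℝ) * ψ + 1 / L ^ (K + 3)) * y)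
        ≤ 4 / L * ((2 * L ^ (19 / 20 : ℝ) * ψ + 1 / L ^ (K + 3)) * y) :=
      mul_le_mul_of_nonneg_right h2 hMnn
    have h4 : 4 / L * ((2 * L ^ (19 / 20 : ℝ) * ψ + 1 / L ^ (K + 3)) * y)
        = (2 / 3 * c * ψ + 4 / L ^ (K + 4)) * y := by
      have e1 : L ^ (19 / 20 : ℝ) = c * L / 12 := by linarith only [hcL]
      rw [e1]
      have e2 : L ^ (K + 4) = L * L ^ (K + 3) := by ring
      rw [e2]
      field_simp
      ring
    have h5 : 4 / L ^ (K + 4) ≤ 1 / L ^ (K + 2) := by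
      rw [div_le_div_iff₀ (by positivity) hLK]
      have e2 : L ^ (K + 4) = L ^ 2 * L ^ (K + 2) := by ring
      have e3 : (4 : ℝ) ≤ L ^ 2 := by nlinarith only [hL]
      rw [e2, one_mul]
      exact mul_le_mul_of_nonneg_right e3 hLK.le
    have h6 : c * ψ ≤ L * c ^ (i + 1) + 1 / L ^ (K + 2) := by
      rw [hψ]
      have e1 : c * (L * c ^ i + 3 / L ^ (K + 2)) = L * c ^ (i + 1) + (3 * c) * (1 / L ^ (K + 2)) := by
        ring
      rw [e1]
      have : (3 * c) * (1 / L ^ (K + 2)) ≤ 1 * (1 / L ^ (K + 2)) :=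
        mul_le_mul_of_nonneg_right (by linarith only [hc]) (by positivity)
      linarith only [this]
    have h7 : 2 / 3 * c * ψ ≤ c * ψ := by nlinarith only [hc0, hψ0, mul_nonneg hc0 hψ0]
    have h8 : (2 / 3 * c * ψ + 4 / L ^ (K + 4)) * y
        ≤ (L * c ^ (i + 1) + 1 / L ^ (K + 2) + 1 / L ^ (K + 2)) * y :=
      mul_le_mul_of_nonneg_right (by linarith only [h5, h6, h7]) hy0'
    have e9 : (L * c ^ (i + 1) + 3 / L ^ (K + 2)) * (y : ℝ)
        = 1 / L ^ (K + 2) * y + (L * c ^ (i + 1) + 1 / L ^ (K + 2) + 1 / L ^ (K + 2)) * y := by ring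
    rw [e9]
    linarith only [hkey, hS0, h1, h3, h4, h8]

theorem LmR_SLnorm (j P J y : ℕ) (t : ℝ) (hj : 1 ≤ j) : ‖SL j P J y t‖ ≤ y := by
  unfold SL
  refine (norm_sum_le _ _).trans ?_
  refine (Finset.sum_le_card_nsmul _ _ 1 fun n _ => ?_).trans ?_
  · rw [norm_mul, norm_ee, mul_one, Complex.norm_real, Real.norm_eq_abs]
    exact gl_abs_le j P J n hj
  · simp

theorem LmR_exp (K : ℕ) (L : ℝ) (hL : 1 ≤ L) (hL2 : 16 * ((2 * K + 8).factorial : ℝ) ≤ L) :
    16 * L ^ (K + 3) ≤ Real.exp (L ^ (19 / 20 : ℝ)) := by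
  have h1 : L ^ (1 / 2 : ℝ) ≤ L ^ (19 / 20 : ℝ) := Real.rpow_le_rpow_of_exponent_le hL (by norm_num)
  have h0 : 0 ≤ L ^ (1 / 2 : ℝ) := by positivity
  have h2 := Real.pow_div_factorial_le_exp (L ^ (1 / 2 : ℝ)) h0 (2 * K + 8)
  have h3 : (L ^ (1 / 2 : ℝ)) ^ (2 * K + 8) = L ^ (K + 4) := by
    rw [← Real.rpow_natCast, ← Real.rpow_mul (by linarith), ← Real.rpow_natCast]
    congr 1
    push_cast
    ring
  rw [h3] at h2
  refine le_trans ?_ (h2.trans (Real.exp_le_exp.2 h1))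
  rw [le_div_iff₀ (by positivity)]
  have h4 : 0 ≤ L ^ (K + 3) := by positivity
  calc 16 * L ^ (K + 3) * ((2 * K + 8).factorial : ℝ)
      = (16 * ((2 * K + 8).factorial : ℝ)) * L ^ (K + 3) := by ring
    _ ≤ L * L ^ (K + 3) := mul_le_mul_of_nonneg_right hL2 h4
    _ = L ^ (K + 4) := by ring

theorem lvm (hVK : Pool.Agent.H80.LV.VK) (hV : VK1) : ∃ η : ℝ, 0 < η ∧ η ≤ 1 / 10 ∧ ∀ K : ℕ,
    ∃ K' x0 : ℕ, ∀ x : ℕ, x0 ≤ x → ∀ (j P J y : ℕ) (T : ℝ) (B : Set ℝ), 1 ≤ j →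
      ((P * 2 ^ J : ℕ) : ℝ) ≤ (x : ℝ) ^ (1 / 4 : ℝ) → y ≤ x →
      Real.log x ^ K' ≤ T → T ≤ x → BS η T B → nrm B (SL j P J y) ≤ x / Real.log x ^ K := by
  obtain ⟨η1, hη1, hη1', hls⟩ := logsum hVK hV
  obtain ⟨η2, hη2, hη2', x2, hhm⟩ := nrm_hm
  refine ⟨min η1 η2, lt_min hη1 hη2, (min_le_left _ _).trans hη1', fun K => ?_⟩
  obtain ⟨K', x1, hls⟩ := hls (K + 3)
  set I : ℕ := 40 * (K + 2) with hI
  obtain ⟨x3, hx3⟩ := log_pow_le (3 / 20) 1 (by norm_num) (by norm_num) K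
  obtain ⟨x4, hx4⟩ := exp_pow_le (1 / 20) (2 * I) (by norm_num) (by positivity)
  obtain ⟨x5, hx5⟩ := log_ge (max (36 ^ 20) (max (16 * ((2 * K + 8).factorial : ℝ)) (2 * 12 ^ I)))
  refine ⟨K', max 1 (max x1 (max x2 (max x3 (max x4 x5)))), ?_⟩
  intro x hx j P J y T B hj hPJ hyx hTL hTx hB
  have hx_1 : 1 ≤ x := (le_max_left _ _).trans hx
  have hx' := (le_max_right _ _).trans hx
  have hxx1 : x1 ≤ x := (le_max_left _ _).trans hx'
  have hx'' := (le_max_right _ _).trans hx'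
  have hxx2 : x2 ≤ x := (le_max_left _ _).trans hx''
  have hx''' := (le_max_right _ _).trans hx''
  have hxx3 : x3 ≤ x := (le_max_left _ _).trans hx'''
  have hx'''' := (le_max_right _ _).trans hx'''
  have hxx4 : x4 ≤ x := (le_max_left _ _).trans hx''''
  have hxx5 : x5 ≤ x := (le_max_right _ _).trans hx''''
  have hlog := hx5 x hxx5
  set L : ℝ := Real.log x with hLdef
  have hL36 : (36 : ℝ) ^ 20 ≤ L := (le_max_left _ _).trans hlog
  have hL16 : 16 * ((2 * K + 8).factorial : ℝ) ≤ L :=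
    (le_max_left _ _).trans ((le_max_right _ _).trans hlog)
  have hL12 : (2 : ℝ) * 12 ^ I ≤ L := (le_max_right _ _).trans ((le_max_right _ _).trans hlog)
  have hL' : (16 : ℝ) ≤ L := le_trans (by norm_num) hL36
  have hL0 : 0 < L := by linarith only [hη1, hη1', hL36]
  have hL1 : 1 ≤ L := by linarith only [hη1, hη1', hL36]
  have hx1 : (1 : ℝ) ≤ x := by exact_mod_cast hx_1
  have hx0 : (0 : ℝ) < x := by linarith only [hη1, hη1', hx1]
  have hT1 : 1 ≤ T := (one_le_pow₀ hL1).trans hTL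
  have hηnn : 0 ≤ min η1 η2 := (lt_min hη1 hη2).le
  by_cases hysmall : (y : ℝ) < (x : ℝ) ^ (4 / 5 : ℝ)
  · -- the trivial range
    have h1 := nrm_triv (min η1 η2) T x y B hB hηnn hT1 hTx (SL j P J y) (LmR_contS j P J y)
      (fun t _ => LmR_SLnorm j P J y t hj) (Nat.cast_nonneg _)
    have h2 : (x : ℝ) ^ (min η1 η2 / 2) ≤ (x : ℝ) ^ (1 / 20 : ℝ) := by
      apply Real.rpow_le_rpow_of_exponent_le hx1
      have := min_le_left η1 η2
      linarith only [hη1', this]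
    have h3 := hx3 x hxx3
    rw [one_mul] at h3
    have hLK : 0 < L ^ K := by positivity
    rw [le_div_iff₀ hLK]
    have h4 : nrm B (SL j P J y) ≤ (x : ℝ) ^ (4 / 5 : ℝ) * (x : ℝ) ^ (1 / 20 : ℝ) :=
      h1.trans (mul_le_mul hysmall.le h2 (by positivity) (by positivity))
    calc nrm B (SL j P J y) * L ^ K
        ≤ ((x : ℝ) ^ (4 / 5 : ℝ) * (x : ℝ) ^ (1 / 20 : ℝ)) * (x : ℝ) ^ (3 / 20 : ℝ) :=
          mul_le_mul h4 h3 (by positivity) (by positivity)
      _ = x := by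
          rw [← Real.rpow_add hx0, ← Real.rpow_add hx0]
          norm_num
  · rw [not_lt] at hysmall
    set D1 : ℕ := ⌈Real.exp (L ^ (19 / 20 : ℝ))⌉₊ with hD1
    set Q : ℕ := ⌈L ^ (K + 3)⌉₊ with hQ
    have hexp1 : 1 ≤ Real.exp (L ^ (19 / 20 : ℝ)) := Real.one_le_exp (by positivity)
    have hD11 : 1 ≤ D1 := by
      rw [hD1]; exact Nat.one_le_ceil_iff.2 (by positivity)
    have hQ1 : 1 ≤ Q := by
      rw [hQ]; exact Nat.one_le_ceil_iff.2 (by positivity)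
    have hD1le : (D1 : ℝ) ≤ 2 * Real.exp (L ^ (19 / 20 : ℝ)) := by
      have := Nat.ceil_lt_add_one (a := Real.exp (L ^ (19 / 20 : ℝ))) (by positivity)
      rw [← hD1] at this
      linarith only [hexp1, this]
    have hQle : (Q : ℝ) ≤ 2 * L ^ (K + 3) := by
      have h1 := Nat.ceil_lt_add_one (a := L ^ (K + 3)) (by positivity)
      rw [← hQ] at h1
      have h2 : 1 ≤ L ^ (K + 3) := one_le_pow₀ hL1
      linarith only [h1, h2]
    set s : ℝ := L ^ (1 / 20 : ℝ) with hs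
    have hs36 : 36 ≤ s := by
      have h1 : ((36 : ℝ) ^ 20) ^ (1 / 20 : ℝ) ≤ L ^ (1 / 20 : ℝ) :=
        Real.rpow_le_rpow (by positivity) hL36 (by norm_num)
      have h2 : ((36 : ℝ) ^ 20) ^ (1 / 20 : ℝ) = 36 := by
        rw [← Real.rpow_natCast, ← Real.rpow_mul (by norm_num)]
        norm_num
      rw [h2] at h1
      exact h1
    have hs0 : 0 < s := by linarith only [hη1, hη1', hs36]
    have hsL : L ^ (19 / 20 : ℝ) * s = L := by
      rw [hs, ← Real.rpow_add hL0]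
      norm_num
    have hspow : s ^ I = L ^ (2 * (K + 2)) := by
      rw [hs, hI, ← Real.rpow_natCast, ← Real.rpow_mul (by linarith only [hη1, hη1', hL36]), ← Real.rpow_natCast]
      congr 1
      push_cast
      ring
    have hind := LmR_ind x K (min η1 η2) T B hB P J D1 Q L (12 / s) hLdef hx_1 hL' (by positivity)
      (by rw [div_le_div_iff₀ hs0 (by norm_num)]; linarith only [hs36])
      (by rw [div_mul_eq_mul_div, eq_div_iff hs0.ne', mul_assoc, hsL])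
      hD11 hQ1 (Nat.le_ceil _)
      (fun y' ψ h1 h2 h3 h4 j' hj' => hls x hxx1 P J D1 y' T (min η1 η2) ψ B hPJ hD1 h1 h2 hTL hTx
        hηnn (min_le_left _ _) hB h3 h4 j' hj')
      (fun j' hj' n h1 h2 => by
        have h3 := hhm x hxx2 n (fun m => ((gl j' P J m : ℝ) : ℂ)) T B (min η1 η2) hηnn
          (min_le_right _ _) h1 h2 hT1 hTx hB
        have h4 : ∑ m ∈ Icc 1 n, ‖((gl j' P J m : ℝ) : ℂ)‖ ^ 2 ≤ n := by
          refine (Finset.sum_le_card_nsmul _ _ 1 fun m _ => ?_).trans ?_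
          · rw [Complex.norm_real, Real.norm_eq_abs]
            have h5 := gl_abs_le j' P J m hj'
            have h6 := abs_nonneg (gl j' P J m)
            nlinarith only [h5, hη1, hη1', h6]
          · simp
        have h5 : nrm B (SL j' P J n) ^ 2 ≤ (L * n) ^ 2 := by
          refine h3.trans ?_
          calc (n : ℝ) * L ^ 2 * ∑ m ∈ Icc 1 n, ‖((gl j' P J m : ℝ) : ℂ)‖ ^ 2
              ≤ (n : ℝ) * L ^ 2 * n := mul_le_mul_of_nonneg_left h4 (by positivity)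
            _ = (L * n) ^ 2 := by ring
        exact (pow_le_pow_iff_left₀ (nrm_nonneg _ _) (by positivity) two_ne_zero).1 h5)
      I j hj y ?_ hyx
    · -- conclusion
      have h12 : (12 / s) ^ I = 12 ^ I / L ^ (2 * (K + 2)) := by rw [div_pow, hspow]
      rw [h12] at hind
      have hLK : 0 < L ^ K := by positivity
      have hLK4 : 1 ≤ L ^ (K + 4) := one_le_pow₀ hL1
      have h1 : L * (12 ^ I / L ^ (2 * (K + 2))) ≤ 1 / 2 / L ^ K := by
        rw [mul_div_assoc', div_le_div_iff₀ (by positivity) hLK]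
        have e1 : L ^ (2 * (K + 2)) = L ^ K * L ^ (K + 4) := by rw [← pow_add]; congr 1; ring
        rw [e1]
        have e2 : L ^ (K + 4) = L ^ (K + 2) * (L * L) := by ring
        have e3 : 1 ≤ L ^ (K + 2) := one_le_pow₀ hL1
        have e4 : L * 12 ^ I ≤ 1 / 2 * L ^ (K + 4) := by
          rw [e2]
          have e5 : 1 * (L * L) ≤ L ^ (K + 2) * (L * L) :=
            mul_le_mul_of_nonneg_right e3 (mul_pos hL0 hL0).le
          have e6 : 12 ^ I * L ≤ 1 / 2 * L * L := mul_le_mul_of_nonneg_right (by linarith only [hL12]) hL0.le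
          linarith only [e5, e6]
        calc L * 12 ^ I * L ^ K ≤ 1 / 2 * L ^ (K + 4) * L ^ K :=
              mul_le_mul_of_nonneg_right e4 hLK.le
          _ = 1 / 2 * (L ^ K * L ^ (K + 4)) := by ring
      have h2 : 3 / L ^ (K + 2) ≤ 1 / 2 / L ^ K := by
        rw [div_le_div_iff₀ (by positivity) hLK]
        have e2 : L ^ (K + 2) = L ^ K * (L * L) := by ring
        rw [e2]
        have e3 : 3 ≤ 1 / 2 * (L * L) := by nlinarith only [hη1', hL36, hη1]
        calc 3 * L ^ K ≤ 1 / 2 * (L * L) * L ^ K := mul_le_mul_of_nonneg_right e3 hLK.le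
          _ = 1 / 2 * (L ^ K * (L * L)) := by ring
      have h3 : L * (12 ^ I / L ^ (2 * (K + 2))) + 3 / L ^ (K + 2) ≤ 1 / L ^ K := by
        have : 1 / L ^ K = 1 / 2 / L ^ K + 1 / 2 / L ^ K := by ring
        linarith only [h1, h2, this]
      have hyx' : (y : ℝ) ≤ x := by exact_mod_cast hyx
      refine hind.trans ((mul_le_mul h3 hyx' (Nat.cast_nonneg _) (by positivity)).trans ?_)
      rw [one_div, inv_mul_eq_div]
    · -- the size of `Y I`
      refine le_trans ?_ hysmall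
      have h1 : ((4 * D1 * Q : ℕ) : ℝ) ≤ Real.exp (2 * L ^ (19 / 20 : ℝ)) := by
        push_cast
        have h2 := LmR_exp K L hL1 hL16
        have h3 : (4 : ℝ) * D1 * Q ≤ 4 * (2 * Real.exp (L ^ (19 / 20 : ℝ))) * (2 * L ^ (K + 3)) := by
          gcongr
        refine h3.trans ?_
        rw [two_mul (L ^ (19 / 20 : ℝ)), Real.exp_add]
        have h4 : 0 < Real.exp (L ^ (19 / 20 : ℝ)) := Real.exp_pos _
        nlinarith only [h2, hη1, hη1', hexp1]
      have h2 : ((4 * D1 * Q : ℕ) : ℝ) ^ I ≤ (x : ℝ) ^ (1 / 20 : ℝ) := by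
        refine (pow_le_pow_left₀ (Nat.cast_nonneg _) h1 I).trans ?_
        rw [← Real.exp_nat_mul]
        refine le_trans (le_of_eq ?_) (hx4 x hxx4)
        congr 1
        ring
      calc (x : ℝ) ^ (3 / 4 : ℝ) * ((4 * D1 * Q : ℕ) : ℝ) ^ I
          ≤ (x : ℝ) ^ (3 / 4 : ℝ) * (x : ℝ) ^ (1 / 20 : ℝ) :=
            mul_le_mul_of_nonneg_left h2 (by positivity)
        _ = (x : ℝ) ^ (4 / 5 : ℝ) := by
            rw [← Real.rpow_add hx0]
            norm_num

end Pool.Agent.H76.MU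

end

section

/-!
# MU CorG: the weighted Liouville function satisfies `CorM`

Proof.  `g n = gl 1 P J n` on `Ioc M N`, `0` outside.  `supp`: definition; `bd`: `gl_abs_le`.  `large`: for `M < y` (otherwise the sum is empty, the
integral is `0`) `cor g 0 M 0 t y = ∑_{n ∈ Ioc M y} gl 1 P J n · ee(n · 0 + t log (n - 0)) = SL 1 P J y t - SL 1 P J M t`.  So
`∫_B ‖cor‖^2 ≤ 2 ∫_B ‖SL y‖^2 + 2 ∫_B ‖SL M‖^2 = 2 nrm^2 + 2 nrm^2 ≤ 4 x^2/L^{2 K1} ≤ x^2/L^K` with `lvm` for `K1 = K + 1` (all functions are continuous, `B` is bounded and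
measurable, so everything is integrable); `m1 = K'`; `L^m ≥ L^{K'}` for `L ≥ 1`.
-/

set_option autoImplicit false

namespace Pool.Agent.H76.MU

open Finset MeasureTheory
open Pool.Agent.H91.PK (ee)
open Pool.Agent.H76.EHB
open Pool.Agent.H35.W

/-- the weighted Liouville function cut to `(M, N]` -/
noncomputable def gc (P J M N n : ℕ) : ℝ := if n ∈ Ioc M N then gl 1 P J n else 0

private theorem CorG_cont (j P J y : ℕ) : Continuous (SL j P J y) := by
  unfold SL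
  exact continuous_finsetSum _ fun n _ =>
    continuous_const.mul (continuous_ee.comp (by fun_prop))

private theorem CorG_int (η T : ℝ) (B : Set ℝ) (hB : BS η T B) (f : ℝ → ℂ) (hf : Continuous f) :
    IntegrableOn (fun t => ‖f t‖ ^ 2) B := by
  have h1 : IntegrableOn (fun t => ‖f t‖ ^ 2) (Set.Icc (-(2 * T)) (2 * T)) :=
    (hf.norm.pow 2).continuousOn.integrableOn_compact isCompact_Icc
  refine h1.mono_set fun t ht => ?_
  have h2 := (hB.mem t ht).2
  exact Set.mem_Icc.2 (abs_le.1 h2)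

private theorem CorG_sq (B : Set ℝ) (f : ℝ → ℂ) : nrm B f ^ 2 = ∫ t in B, ‖f t‖ ^ 2 := by
  unfold nrm
  exact Real.sq_sqrt (integral_nonneg fun t => by positivity)

private theorem CorG_cor (P J M N y : ℕ) (hMy : M < y) (hy : y ≤ N) (t : ℝ) :
    cor (gc P J M N) 0 M 0 t y = SL 1 P J y t - SL 1 P J M t := by
  unfold cor SL
  have h1 : Icc 1 y = Icc 1 M ∪ Ioc M y := by
    ext n
    simp only [mem_Icc, mem_union, mem_Ioc]
    omega
  have h2 : Disjoint (Icc 1 M) (Ioc M y) := by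
    rw [Finset.disjoint_left]
    intro n h3 h4
    rw [mem_Icc] at h3
    rw [mem_Ioc] at h4
    omega
  rw [h1, Finset.sum_union h2, add_sub_cancel_left]
  refine Finset.sum_congr rfl fun n hn => ?_
  rw [mem_Ioc] at hn
  have h3 : gc P J M N n = gl 1 P J n := by
    unfold gc
    rw [if_pos (mem_Ioc.2 ⟨hn.1, hn.2.trans hy⟩)]
  rw [h3]
  congr 2
  simp

theorem cor_m (hVK : Pool.Agent.H80.LV.VK) (hV : VK1) : ∃ η : ℝ, 0 < η ∧ η ≤ 1 / 10 ∧ ∀ K : ℕ,
    ∃ m1 : ℕ, ∀ m : ℕ, m1 ≤ m → ∃ x0 : ℕ, ∀ x : ℕ, x0 ≤ x → ∀ P J M N : ℕ,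
      ((P * 2 ^ J : ℕ) : ℝ) ≤ (x : ℝ) ^ (1 / 4 : ℝ) → N ≤ x →
      CorM x m K η N M (gc P J M N) := by
  obtain ⟨η, h0, h1, h⟩ := lvm hVK hV
  refine ⟨η, h0, h1, fun K => ?_⟩
  obtain ⟨K', x0, hx⟩ := h (K + 1)
  obtain ⟨x1, hx1⟩ := log_ge 2
  refine ⟨K', fun m hm => ⟨max x0 x1, fun x hxx P J M N hP hN => ?_⟩⟩
  have hL : 2 ≤ Real.log x := hx1 x (le_trans (le_max_right _ _) hxx)
  have hL0 : 0 < Real.log x := by linarith
  have hL1 : (1 : ℝ) ≤ Real.log x := by linarith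
  refine ⟨?_, ?_, ?_⟩
  · intro n hn
    unfold gc
    rw [if_neg hn]
  · intro n
    unfold gc
    split_ifs
    · exact gl_abs_le 1 P J n le_rfl
    · simp
  · intro y T B hy hT hTx hB
    have hpos : 0 ≤ (x : ℝ) ^ 2 / Real.log x ^ K := by positivity
    by_cases hMy : M < y
    · have hy' : y ≤ x := hy.trans hN
      have hM' : M ≤ x := hMy.le.trans hy'
      have hT' : Real.log x ^ K' ≤ T := (pow_le_pow_right₀ hL1 hm).trans hT
      have hxx0 := le_trans (le_max_left _ _) hxx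
      have e1 := hx x hxx0 1 P J y T B le_rfl hP hy' hT' hTx hB
      have e2 := hx x hxx0 1 P J M T B le_rfl hP hM' hT' hTx hB
      have n1 : 0 ≤ nrm B (SL 1 P J y) := Real.sqrt_nonneg _
      have n2 : 0 ≤ nrm B (SL 1 P J M) := Real.sqrt_nonneg _
      have i1 := CorG_int η T B hB _ (CorG_cont 1 P J y)
      have i2 := CorG_int η T B hB _ (CorG_cont 1 P J M)
      have i3 := CorG_int η T B hB _ ((CorG_cont 1 P J y).sub (CorG_cont 1 P J M))
      have s1 : ∫ t in B, ‖cor (gc P J M N) 0 M 0 t y‖ ^ 2 ≤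
          ∫ t in B, (2 * ‖SL 1 P J y t‖ ^ 2 + 2 * ‖SL 1 P J M t‖ ^ 2) := by
        simp only [CorG_cor P J M N y hMy hy]
        refine integral_mono i3 ((i1.const_mul 2).add (i2.const_mul 2)) fun t => ?_
        change ‖SL 1 P J y t - SL 1 P J M t‖ ^ 2 ≤
          2 * ‖SL 1 P J y t‖ ^ 2 + 2 * ‖SL 1 P J M t‖ ^ 2
        have h2 := norm_sub_le (SL 1 P J y t) (SL 1 P J M t)
        have h3 := norm_nonneg (SL 1 P J y t - SL 1 P J M t)
        have h4 : ‖SL 1 P J y t - SL 1 P J M t‖ ^ 2 ≤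
            (‖SL 1 P J y t‖ + ‖SL 1 P J M t‖) ^ 2 := pow_le_pow_left₀ h3 h2 2
        have h5 := sq_nonneg (‖SL 1 P J y t‖ - ‖SL 1 P J M t‖)
        linarith only [h4, h5, add_sq ‖SL 1 P J y t‖ ‖SL 1 P J M t‖,
          sub_sq ‖SL 1 P J y t‖ ‖SL 1 P J M t‖]
      rw [integral_add (i1.const_mul 2) (i2.const_mul 2), integral_const_mul, integral_const_mul,
        ← CorG_sq B (SL 1 P J y), ← CorG_sq B (SL 1 P J M)] at s1
      refine s1.trans ?_
      have q1 := pow_le_pow_left₀ n1 e1 2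
      have q2 := pow_le_pow_left₀ n2 e2 2
      have q3 : ((x : ℝ) / Real.log x ^ (K + 1)) ^ 2 * 4 ≤ (x : ℝ) ^ 2 / Real.log x ^ K := by
        rw [div_pow, div_mul_eq_mul_div, div_le_div_iff₀ (by positivity) (by positivity)]
        have h6 : Real.log x ^ K * 4 ≤ (Real.log x ^ (K + 1)) ^ 2 := by
          have h7 : (Real.log x ^ (K + 1)) ^ 2 = Real.log x ^ K * (Real.log x ^ K * Real.log x ^ 2) := by
            ring
          rw [h7]
          refine mul_le_mul_of_nonneg_left ?_ (by positivity)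
          have h8 : 1 ≤ Real.log x ^ K := one_le_pow₀ hL1
          have h9 : (4 : ℝ) ≤ Real.log x ^ 2 := by nlinarith only [hL]
          nlinarith only [h8, h9]
        calc (x : ℝ) ^ 2 * 4 * Real.log x ^ K = (x : ℝ) ^ 2 * (Real.log x ^ K * 4) := by ring
          _ ≤ (x : ℝ) ^ 2 * (Real.log x ^ (K + 1)) ^ 2 :=
            mul_le_mul_of_nonneg_left h6 (by positivity)
      linarith only [q1, q2, q3]
    · have h2 : ∀ t : ℝ, cor (gc P J M N) 0 M 0 t y = 0 := by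
        intro t
        unfold cor
        rw [Finset.Ioc_eq_empty hMy, Finset.sum_empty]
      simp only [h2, norm_zero]
      simpa using hpos

end Pool.Agent.H76.MU

end

section

/-!
# MU VarDA: the contribution of one block of primes, every power of the logarithm

Generalisation of `VarD.lean` (the case `A = 4`; proof by helper65: copy and adapt).  `cor_m` gives `η`; `jm 1 (A + 2) η` gives `b1, K, m0`; `cor_m` (`K`) gives `m1`;
`m = max m0 m1`; `jm` gives `κ1`.  `b = max b1 (A + 4)`, `κ = κ1 + A + 4`.  `L = log X`.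
`P = P0 2^i`, `4 ≤ P ≤ P0 2^J ≤ X^{1/10}` (as `(P0 2^J)^10 ≤ h ≤ h' ≤ X`), `x = 4 X / P` (natural division; `3X ≤ P x ≤ 4X`, `x ≤ X`, `x ≥ X^{0.9}`, so `l := log x ∈ [L/2, L]`),
`M = X / (4 P)` (`≥ x/16 - 1 ≥ x/l`), `N = x`, `g = gc P0 J M N`, `G = gP g P`, `N1 = 2 P N ≤ 8 X`.
For `X/2 < n ≤ 2X` and `k ∈ pb P`, `k | n`: `n/k > X/(4P) ≥ M` and `n/k ≤ 2X/P ≤ N`; so `gP (gl 1 P0 J) P n = G n`, and all windows occurring lie in `(X/2, 2X]` (`h' ≤ X/2`).
`cor_m` at the scale `x` (`P0 2^J ≤ X^{1/10} ≤ x^{1/4}`): `CorM x m K η N M g`.  `fou` with `Y0 = l^κ1/(P x)`, `Y = 1/(P l^{A+14})` (`Y0 ≤ Y` as `x ≥ l^{κ1 + A + 14}`; `Y ≤ 1/2`), `gp_FF`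
(`FF G N1 (s y) = SG g N P (s y)`), `jm` for `s = 1, -1`: the first two terms are `≤ 8 P x/l^{A+2} ≤ 32 · 2^{A+2} X/L^{A+2} ≤ X/(3 L^A)`.  `S2 G N1 ≤ N1 (2 log N1)^2 ≤ 8 X (4 L)^2 = 128 X L^2`
(`gp_S2`); `13 h' Y0 ≤ 13 (X/L^κ) L^{κ1}/(3 X) ≤ 5/L^{A+4}` and `1/(h Y) = P l^{A+14}/h ≤ L^{A+14}/P^9 ≤ L^{A + 14 - 9 (A+4)} ≤ 1/L^{A+4}`: the last term is
`≤ 26/L^{2A+8} · 128 X L^2 ≤ X/(3 L^A)`.
-/

set_option autoImplicit false

namespace Pool.Agent.H76.MU

open Finset MeasureTheory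
open Pool.Agent.H91.PK (ee)
open Pool.Agent.H76.EHB
open Pool.Agent.H35.W

/-- The windows only see `(X/2, 2X]`, where the cut function agrees with `gl`. -/
private theorem VarDA_win (P0 J P X x M h j : ℕ) (hh : 2 * h ≤ X) (hM : 4 * P * M ≤ X)
    (hx : 2 * X < P * x) (hj : j ∈ Ioc X (2 * X)) :
    Uw (gP (gl 1 P0 J) P) h j = Uw (gP (gc P0 J M x) P) h j := by
  rw [Finset.mem_Ioc] at hj
  unfold Uw
  apply Finset.sum_congr rfl
  intro n hn
  rw [Finset.mem_Ico] at hn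
  unfold gP
  apply Finset.sum_congr rfl
  intro k hk
  rw [Finset.mem_filter, pb, Finset.mem_filter, Finset.mem_Ioc] at hk
  obtain ⟨⟨⟨hk1, hk2⟩, hkp⟩, hkn⟩ := hk
  obtain ⟨q, hq⟩ := hkn
  have hkq : n / k = q := by
    rw [hq, Nat.mul_div_cancel_left q hkp.pos]
  rw [hkq]
  unfold gc
  rw [if_pos]
  rw [Finset.mem_Ioc]
  have h2n : X < 2 * n := by omega
  have hn2 : n < 2 * X := by omega
  constructor
  · by_contra hc
    push Not at hc
    have h1 : k * q ≤ 2 * P * M := Nat.mul_le_mul hk2 hc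
    have h2 : 4 * P * M = 2 * (2 * P * M) := by ring
    rw [← hq] at h1
    omega
  · by_contra hc
    push Not at hc
    have h1 : P * x ≤ k * q := Nat.mul_le_mul hk1.le hc.le
    rw [← hq] at h1
    omega

private theorem VarDA_fin (A : ℕ) (X L l P x h h' I1 I2 S : ℝ) (κ1 : ℕ) (hX : 0 < X)
    (hL : 200 * 2 ^ A ≤ L)
    (hl1 : L / 2 ≤ l) (hl2 : l ≤ L) (hP : L ^ (A + 4) ≤ P) (hPx1 : 3 * X ≤ P * x)
    (hPx2 : P * x ≤ 4 * X)
    (hh : P ^ 10 ≤ h) (hh' : h' ≤ X / L ^ (κ1 + (A + 4))) (hh0 : 0 ≤ h')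
    (hI1 : I1 ≤ P * x / l ^ (A + 2))
    (hI2 : I2 ≤ P * x / l ^ (A + 2)) (hS : S ≤ 128 * X * L ^ 2) (hS0 : 0 ≤ S) :
    4 * I1 + 4 * I2 + ((13 * h' * (l ^ κ1 / (P * x))) ^ 2
      + (1 / (h * (1 / (P * l ^ (A + 14))))) ^ 2) * S
      ≤ X / L ^ A := by
  have h2A : (1 : ℝ) ≤ 2 ^ A := one_le_pow₀ (by norm_num)
  have hL200 : 200 ≤ L := by linarith
  have hL0 : 0 < L := by linarith
  have hL1 : 1 ≤ L := by linarith
  have hl0 : 0 < l := by linarith
  have hP0 : 0 < P := lt_of_lt_of_le (by positivity) hP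
  have hL2 : 40000 * (2 : ℝ) ^ A ≤ L ^ 2 := by nlinarith
  have hLA : 0 < L ^ A := by positivity
  have hA : P * x / l ^ (A + 2) ≤ 16 * 2 ^ A * X / L ^ (A + 2) := by
    rw [div_le_div_iff₀ (by positivity) (by positivity)]
    have h1 : (L / 2) ^ (A + 2) ≤ l ^ (A + 2) := pow_le_pow_left₀ (by positivity) hl1 _
    have h2 : P * x * L ^ (A + 2) ≤ 4 * X * L ^ (A + 2) :=
      mul_le_mul_of_nonneg_right hPx2 (by positivity)
    have h3 : 16 * 2 ^ A * X * (L / 2) ^ (A + 2) ≤ 16 * 2 ^ A * X * l ^ (A + 2) :=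
      mul_le_mul_of_nonneg_left h1 (by positivity)
    have h4 : 16 * 2 ^ A * X * (L / 2) ^ (A + 2) = 4 * X * L ^ (A + 2) := by
      rw [div_pow, pow_add (2 : ℝ)]
      field_simp
      ring
    linarith
  have hA' : 8 * (16 * 2 ^ A * X / L ^ (A + 2)) ≤ 1 / 3 * (X / L ^ A) := by
    have e : 1 / 3 * (X / L ^ A) = (X * L ^ 2 / 3) / L ^ (A + 2) := by
      rw [pow_add]
      field_simp
    rw [e, ← mul_div_assoc]
    apply div_le_div_of_nonneg_right _ (by positivity)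
    have h5 : X * (40000 * 2 ^ A) ≤ X * L ^ 2 := mul_le_mul_of_nonneg_left hL2 hX.le
    have h6 : 0 ≤ X * 2 ^ A := by positivity
    nlinarith
  have hB : 13 * h' * (l ^ κ1 / (P * x)) ≤ 5 / L ^ (A + 4) := by
    have h1 : l ^ κ1 / (P * x) ≤ L ^ κ1 / (3 * X) := by
      apply div_le_div₀ (by positivity) (pow_le_pow_left₀ hl0.le hl2 κ1) (by positivity) hPx1
    have h2 : 13 * h' * (l ^ κ1 / (P * x)) ≤
        13 * (X / L ^ (κ1 + (A + 4))) * (L ^ κ1 / (3 * X)) := by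
      apply mul_le_mul (by linarith) h1 _ (by positivity)
      have : 0 < P * x := by linarith
      positivity
    have h3 : 13 * (X / L ^ (κ1 + (A + 4))) * (L ^ κ1 / (3 * X)) = (13 / 3) / L ^ (A + 4) := by
      rw [pow_add L κ1]
      field_simp
    rw [h3] at h2
    refine h2.trans ?_
    apply div_le_div_of_nonneg_right (by norm_num) (by positivity)
  have hB0 : 0 ≤ 13 * h' * (l ^ κ1 / (P * x)) := by
    have : 0 < P * x := by linarith
    positivity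
  have hh1 : 0 < h := lt_of_lt_of_le (by positivity) hh
  have hC : 1 / (h * (1 / (P * l ^ (A + 14)))) ≤ 1 / L ^ (A + 4) := by
    have e1 : 1 / (h * (1 / (P * l ^ (A + 14)))) = P * l ^ (A + 14) / h := by
      field_simp
    rw [e1, div_le_div_iff₀ hh1 (by positivity), one_mul]
    have h1 : l ^ (A + 14) ≤ L ^ (A + 14) := pow_le_pow_left₀ hl0.le hl2 _
    have h2 : (L ^ (A + 4)) ^ 9 ≤ P ^ 9 := pow_le_pow_left₀ (by positivity) hP 9
    have h3 : L ^ (A + 14 + (A + 4)) ≤ (L ^ (A + 4)) ^ 9 := by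
      rw [← pow_mul]
      exact pow_le_pow_right₀ hL1 (by omega)
    calc P * l ^ (A + 14) * L ^ (A + 4) ≤ P * L ^ (A + 14) * L ^ (A + 4) := by
          apply mul_le_mul_of_nonneg_right _ (by positivity)
          exact mul_le_mul_of_nonneg_left h1 hP0.le
      _ = P * L ^ (A + 14 + (A + 4)) := by rw [pow_add L (A + 14)]; ring
      _ ≤ P * P ^ 9 := mul_le_mul_of_nonneg_left (h3.trans h2) hP0.le
      _ = P ^ 10 := by ring
      _ ≤ h := hh
  have hC0 : 0 ≤ 1 / (h * (1 / (P * l ^ (A + 14)))) := by positivity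
  have hB2 : (13 * h' * (l ^ κ1 / (P * x))) ^ 2 ≤ (5 / L ^ (A + 4)) ^ 2 :=
    pow_le_pow_left₀ hB0 hB 2
  have hC2 : (1 / (h * (1 / (P * l ^ (A + 14))))) ^ 2 ≤ (1 / L ^ (A + 4)) ^ 2 :=
    pow_le_pow_left₀ hC0 hC 2
  have hD : ((13 * h' * (l ^ κ1 / (P * x))) ^ 2 + (1 / (h * (1 / (P * l ^ (A + 14))))) ^ 2) * S ≤
      ((5 / L ^ (A + 4)) ^ 2 + (1 / L ^ (A + 4)) ^ 2) * (128 * X * L ^ 2) :=
    mul_le_mul (add_le_add hB2 hC2) hS hS0 (by positivity)
  have hE : ((5 / L ^ (A + 4)) ^ 2 + (1 / L ^ (A + 4)) ^ 2) * (128 * X * L ^ 2)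
      ≤ 1 / 3 * (X / L ^ A) := by
    have e2 : ((5 / L ^ (A + 4)) ^ 2 + (1 / L ^ (A + 4)) ^ 2) * (128 * X * L ^ 2)
        = (X / L ^ A) * (3328 / (L ^ A * L ^ 6)) := by
      rw [pow_add L A 4]
      field_simp
      ring
    rw [e2, mul_comm (1 / 3 : ℝ)]
    apply mul_le_mul_of_nonneg_left _ (by positivity)
    rw [div_le_div_iff₀ (by positivity) (by norm_num)]
    have h7 : (1 : ℝ) ≤ L ^ A := one_le_pow₀ hL1
    have h8 : (40000 : ℝ) ≤ L ^ 6 := by
      have h9 : L ^ 2 ≤ L ^ 6 := pow_le_pow_right₀ hL1 (by norm_num)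
      nlinarith
    have h10 : 1 * L ^ 6 ≤ L ^ A * L ^ 6 := mul_le_mul_of_nonneg_right h7 (by positivity)
    linarith
  have hF : 0 ≤ X / L ^ A := by positivity
  linarith

private theorem VarDA_M (P x X M l : ℝ) (hP : 0 < P) (h1 : X < 4 * P * (M + 1))
    (h2 : P * x ≤ 4 * X) (h4 : 100 ≤ x) (h5 : 0 ≤ M) (h6 : 100 ≤ l) : x ≤ M * l := by
  have h7 : P * x < P * (16 * (M + 1)) := by
    have : 4 * (4 * P * (M + 1)) = P * (16 * (M + 1)) := by ring
    linarith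
  have h3 : x < 16 * (M + 1) := lt_of_mul_lt_mul_left h7 hP.le
  have h8 : M * 100 ≤ M * l := mul_le_mul_of_nonneg_left h6 h5
  linarith

private theorem VarDA_pow_ge (A : ℝ) : ∃ X0 : ℕ, ∀ X : ℕ, X0 ≤ X → A ≤ (X : ℝ) ^ (9 / 10 : ℝ) := by
  have h1 : Filter.Tendsto (fun y : ℝ => y ^ (9 / 10 : ℝ)) Filter.atTop Filter.atTop :=
    tendsto_rpow_atTop (by norm_num)
  have h2 := (h1.comp (tendsto_natCast_atTop_atTop (R := ℝ))).eventually
    (Filter.eventually_ge_atTop A)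
  exact Filter.eventually_atTop.1 h2

private theorem VarDA_le_root (a : ℕ) (X : ℝ) (h : (a : ℝ) ^ 10 ≤ X) :
    (a : ℝ) ≤ X ^ (1 / 10 : ℝ) := by
  have h1 : (a : ℝ) = ((a : ℝ) ^ 10) ^ (1 / 10 : ℝ) := by
    rw [← Real.rpow_natCast, ← Real.rpow_mul (Nat.cast_nonneg a)]
    norm_num
  rw [h1]
  exact Real.rpow_le_rpow (by positivity) h (by norm_num)

theorem var_da (hVK : Pool.Agent.H80.LV.VK) (hV : VK1) (A : ℕ) : ∃ b κ x0 : ℕ, ∀ X : ℕ, x0 ≤ X →
    ∀ P0 J i h h' : ℕ, Real.log X ^ b ≤ P0 → i < J → (P0 * 2 ^ J) ^ 10 ≤ h → h ≤ h' →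
      (h' : ℝ) ≤ X / Real.log X ^ κ →
      ∑ j ∈ Ioc X (2 * X), (Uw (gP (gl 1 P0 J) (P0 * 2 ^ i)) h j / h
        - Uw (gP (gl 1 P0 J) (P0 * 2 ^ i)) h' j / h') ^ 2 ≤ X / Real.log X ^ A := by
  obtain ⟨η, hη, hη1, hcor⟩ := cor_m hVK hV
  obtain ⟨b1, K, m0, hjm⟩ := jm 1 (A + 2) η hη (by linarith)
  obtain ⟨m1, hm1⟩ := hcor K
  obtain ⟨κ1, x1, hjm1⟩ := hjm (max m0 m1) (le_max_left _ _)
  obtain ⟨x2, hcor1⟩ := hm1 (max m0 m1) (le_max_right _ _)
  obtain ⟨x3, hlog⟩ := log_pow_le 1 1 one_pos one_pos (κ1 + (A + 14))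
  obtain ⟨X1, hX1⟩ := VarDA_pow_ge ((x1 : ℝ) + x2 + x3 + 100)
  obtain ⟨X2, hX2⟩ := log_ge (200 * 2 ^ A)
  refine ⟨max b1 (A + 4), κ1 + (A + 4), max X1 X2, ?_⟩
  intro X hX P0 J i h h' hP0 hi hQ hh hh'
  have hXr : (x1 : ℝ) + x2 + x3 + 100 ≤ (X : ℝ) ^ (9 / 10 : ℝ) := hX1 X (le_trans (le_max_left _ _) hX)
  have hLA : 200 * 2 ^ A ≤ Real.log X := hX2 X (le_trans (le_max_right _ _) hX)
  have h2A : (1 : ℝ) ≤ 2 ^ A := one_le_pow₀ (by norm_num)
  have hL : 200 ≤ Real.log X := by linarith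
  clear hX1 hX2 hjm hm1 hcor
  obtain ⟨L, hLdef⟩ : ∃ L : ℝ, L = Real.log X := ⟨_, rfl⟩
  rw [← hLdef] at hL hLA hP0 hh'
  have hL0 : 0 < L := by linarith
  have hL1 : 1 ≤ L := by linarith
  have hXpos : (0 : ℝ) < X := by
    rcases Nat.eq_zero_or_pos X with h0 | h0
    · exfalso
      rw [h0] at hLdef
      simp at hLdef
      linarith
    · exact_mod_cast h0
  have hX1' : (1 : ℝ) ≤ X := by exact_mod_cast (Nat.pos_of_ne_zero (by rintro rfl; simp at hXpos))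
  -- the block
  obtain ⟨P, hP⟩ : ∃ P : ℕ, P = P0 * 2 ^ i := ⟨_, rfl⟩
  rw [← hP]
  have hP0P : P0 ≤ P := by
    rw [hP]
    exact Nat.le_mul_of_pos_right _ (by positivity)
  have hPQ : P ≤ P0 * 2 ^ J := by
    rw [hP]
    exact Nat.mul_le_mul_left _ (Nat.pow_le_pow_right (by norm_num) hi.le)
  have hPr : L ^ (max b1 (A + 4)) ≤ (P : ℝ) := hP0.trans (by exact_mod_cast hP0P)
  have hP4r : L ^ (A + 4) ≤ (P : ℝ) := (pow_le_pow_right₀ hL1 (le_max_right b1 (A + 4))).trans hPr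
  have hPb1 : L ^ b1 ≤ (P : ℝ) := (pow_le_pow_right₀ hL1 (le_max_left b1 (A + 4))).trans hPr
  have hL4 : L ≤ L ^ (A + 4) := le_self_pow₀ hL1 (by omega)
  have hP200 : (200 : ℝ) ≤ P := by linarith
  have hPpos : 0 < P := by
    have : (0 : ℝ) < P := by linarith
    exact_mod_cast this
  have hP4 : 4 ≤ P := by
    have : (4 : ℝ) ≤ P := by linarith
    exact_mod_cast this
  have hLk : 1 ≤ L ^ (κ1 + (A + 4)) := one_le_pow₀ hL1
  have hh'X : (h' : ℝ) ≤ X := hh'.trans (div_le_self hXpos.le hLk)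
  have hh'2 : 2 * (h' : ℝ) ≤ X := by
    have h1 : L ≤ L ^ (κ1 + (A + 4)) := le_self_pow₀ hL1 (by omega)
    have h2 : (h' : ℝ) ≤ X / 2 := by
      refine hh'.trans ?_
      apply div_le_div_of_nonneg_left hXpos.le (by norm_num)
      linarith
    linarith
  have hh'2n : 2 * h' ≤ X := by exact_mod_cast hh'2
  have hh2n : 2 * h ≤ X := by omega
  have hQh : ((P0 * 2 ^ J : ℕ) : ℝ) ^ 10 ≤ X := by
    have h1 : (((P0 * 2 ^ J) ^ 10 : ℕ) : ℝ) ≤ h' := by exact_mod_cast hQ.trans hh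
    rw [Nat.cast_pow] at h1
    linarith
  have hPh : (P : ℝ) ^ 10 ≤ h := by
    have h1 : P ^ 10 ≤ h := (Nat.pow_le_pow_left hPQ 10).trans hQ
    exact_mod_cast h1
  have hhpos : 1 ≤ h := by
    have h1 : P ^ 10 ≤ h := (Nat.pow_le_pow_left hPQ 10).trans hQ
    exact (Nat.pos_of_ne_zero (by positivity)).trans_le h1
  have hQroot : ((P0 * 2 ^ J : ℕ) : ℝ) ≤ (X : ℝ) ^ (1 / 10 : ℝ) := VarDA_le_root _ _ hQh
  have hProot : (P : ℝ) ≤ (X : ℝ) ^ (1 / 10 : ℝ) := le_trans (by exact_mod_cast hPQ) hQroot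
  have hXsplit : (X : ℝ) = (X : ℝ) ^ (9 / 10 : ℝ) * (X : ℝ) ^ (1 / 10 : ℝ) := by
    rw [← Real.rpow_add hXpos]
    norm_num
  have hroot0 : 0 < (X : ℝ) ^ (1 / 10 : ℝ) := Real.rpow_pos_of_pos hXpos _
  have hroot9 : 0 < (X : ℝ) ^ (9 / 10 : ℝ) := Real.rpow_pos_of_pos hXpos _
  -- the scale
  obtain ⟨x, hx⟩ : ∃ x : ℕ, x = 4 * X / P := ⟨_, rfl⟩
  obtain ⟨M, hM⟩ : ∃ M : ℕ, M = X / (4 * P) := ⟨_, rfl⟩
  have hPx2n : P * x ≤ 4 * X := by rw [hx]; exact Nat.mul_div_le _ _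
  have hPx1n : 4 * X < P * (x + 1) := by rw [hx]; exact Nat.lt_mul_div_succ _ hPpos
  have hMn : 4 * P * M ≤ X := by rw [hM]; exact Nat.mul_div_le _ _
  have hMn2 : X < 4 * P * (M + 1) := by rw [hM]; exact Nat.lt_mul_div_succ _ (by omega)
  have hPx2 : (P : ℝ) * x ≤ 4 * X := by exact_mod_cast hPx2n
  have hPX : (P : ℝ) ≤ X := by
    have h1 : (P : ℝ) ≤ (P : ℝ) ^ 10 := le_self_pow₀ (by linarith) (by norm_num)
    have h2 : (h : ℝ) ≤ h' := by exact_mod_cast hh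
    linarith
  have hPx1 : 3 * (X : ℝ) ≤ P * x := by
    have h1 : 4 * (X : ℝ) < P * (x + 1) := by exact_mod_cast hPx1n
    linarith
  have hx9 : 3 * (X : ℝ) ^ (9 / 10 : ℝ) ≤ x := by
    have h1 : 3 * (X : ℝ) ≤ (X : ℝ) ^ (1 / 10 : ℝ) * x :=
      hPx1.trans (mul_le_mul_of_nonneg_right hProot (Nat.cast_nonneg x))
    have h2 : 3 * (X : ℝ) ^ (9 / 10 : ℝ) * (X : ℝ) ^ (1 / 10 : ℝ) ≤
        x * (X : ℝ) ^ (1 / 10 : ℝ) := by
      rw [mul_assoc, ← hXsplit]
      linarith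
    exact le_of_mul_le_mul_right h2 hroot0
  have hx9' : (X : ℝ) ^ (9 / 10 : ℝ) ≤ x := by linarith
  have hxthr : (x1 : ℝ) + x2 + x3 + 100 ≤ x := hXr.trans hx9'
  have hxn : x1 + x2 + x3 + 100 ≤ x := by exact_mod_cast hxthr
  have hxpos : (0 : ℝ) < x := by
    have : 0 < x := by omega
    exact_mod_cast this
  have hxX : (x : ℝ) ≤ X := by
    have h1 : 4 * (x : ℝ) ≤ P * x := mul_le_mul_of_nonneg_right (by linarith) hxpos.le
    linarith
  obtain ⟨l, hl⟩ : ∃ l : ℝ, l = Real.log x := ⟨_, rfl⟩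
  have hl2 : l ≤ L := by
    rw [hl, hLdef]
    exact Real.log_le_log hxpos hxX
  have hl1' : 9 / 10 * L ≤ l := by
    rw [hl, hLdef, ← Real.log_rpow hXpos]
    exact Real.log_le_log hroot9 hx9'
  have hl1 : L / 2 ≤ l := by linarith
  have hl100 : 100 ≤ l := by linarith
  have hl0 : 0 < l := by linarith
  have hPpr : (0 : ℝ) < P := by linarith
  have hroot_le : (X : ℝ) ^ (1 / 10 : ℝ) ≤ (x : ℝ) ^ (1 / 4 : ℝ) := by
    have h1 : ((X : ℝ) ^ (9 / 10 : ℝ)) ^ (1 / 4 : ℝ) ≤ (x : ℝ) ^ (1 / 4 : ℝ) :=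
      Real.rpow_le_rpow hroot9.le hx9' (by norm_num)
    rw [← Real.rpow_mul hXpos.le] at h1
    refine le_trans ?_ h1
    exact Real.rpow_le_rpow_of_exponent_le hX1' (by norm_num)
  have hPlex : (P : ℝ) ≤ x := by
    have h1 : (X : ℝ) ^ (1 / 10 : ℝ) ≤ (X : ℝ) ^ (9 / 10 : ℝ) :=
      Real.rpow_le_rpow_of_exponent_le hX1' (by norm_num)
    linarith
  -- the hypotheses of `jm`
  have hCor : CorM x (max m0 m1) K η x M (gc P0 J M x) :=
    hcor1 x (by omega) P0 J M x (hQroot.trans hroot_le) le_rfl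
  have hMx : (x : ℝ) / Real.log x ^ 1 ≤ M := by
    rw [pow_one, ← hl, div_le_iff₀ hl0]
    have h1 : (X : ℝ) < 4 * P * (M + 1) := by exact_mod_cast hMn2
    have h4 : (100 : ℝ) ≤ x := by
      have : 100 ≤ x := by omega
      exact_mod_cast this
    exact VarDA_M P x X M l hPpr h1 hPx2 h4 (Nat.cast_nonneg M) hl100
  have hPb : Real.log x ^ b1 ≤ (P : ℝ) := by
    rw [← hl]
    exact (pow_le_pow_left₀ hl0.le hl2 b1).trans hPb1
  have hPxn : P ≤ x := by exact_mod_cast hPlex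
  have hY : (P : ℝ) * (1 / (P * l ^ (A + 14))) ≤ 1 / Real.log x ^ (A + 2 + 12) := by
    rw [← hl]
    apply le_of_eq
    field_simp
  have hJ := fun (s : ℝ) (hs : s = 1 ∨ s = -1) => hjm1 x (by omega) (gc P0 J M x) x M P
    (1 / (P * l ^ (A + 14))) s hCor le_rfl hMx hPb hPxn hs hY
  have hl18 : 1 ≤ l ^ (A + 14) := one_le_pow₀ (by linarith)
  have hY0Y : l ^ κ1 / ((P : ℝ) * x) ≤ 1 / (P * l ^ (A + 14)) := by
    have h1 := hlog x (by omega)
    rw [Real.rpow_one, one_mul, ← hl, pow_add] at h1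
    rw [div_le_div_iff₀ (by positivity) (by positivity), one_mul]
    have e1 : l ^ κ1 * ((P : ℝ) * l ^ (A + 14)) = (P : ℝ) * (l ^ κ1 * l ^ (A + 14)) := by ring
    rw [e1]
    exact mul_le_mul_of_nonneg_left h1 hPpr.le
  have hYp : 0 < 1 / ((P : ℝ) * l ^ (A + 14)) := by positivity
  have hY2 : 1 / ((P : ℝ) * l ^ (A + 14)) ≤ 1 / 2 := by
    apply one_div_le_one_div_of_le (by norm_num)
    have e1 : (P : ℝ) * 1 ≤ P * l ^ (A + 14) := mul_le_mul_of_nonneg_left hl18 hPpr.le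
    linarith
  -- the support
  have hgs : ∀ n, n ∉ Icc 1 x → gc P0 J M x n = 0 := by
    intro n hn
    unfold gc
    rw [if_neg]
    intro h1
    apply hn
    rw [Finset.mem_Ioc] at h1
    rw [Finset.mem_Icc]
    omega
  have hGs := gp_supp (gc P0 J M x) x P (2 * P * x) hgs le_rfl
  have hfou := fou (gP (gc P0 J M x) P) (2 * P * x) h h' X (l ^ κ1 / (P * x)) (1 / (P * l ^ (A + 14)))
    hGs hhpos hh (by positivity) hY0Y hYp hY2
  have hFF : ∀ θ : ℝ, FF (gP (gc P0 J M x) P) (2 * P * x) θ = SG (gc P0 J M x) x P θ :=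
    gp_FF (gc P0 J M x) x P (2 * P * x) hgs le_rfl
  simp only [hFF] at hfou
  have hI1 := hJ 1 (Or.inl rfl)
  have hI2 := hJ (-1) (Or.inr rfl)
  rw [← hl] at hI1 hI2
  -- the sum of squares
  have hS := gp_S2 (gc P0 J M x) P (2 * P * x) hCor.bd
  have hS0 : 0 ≤ S2 (gP (gc P0 J M x) P) (2 * P * x) :=
    Finset.sum_nonneg (fun _ _ => sq_nonneg _)
  have hN1 : ((2 * P * x : ℕ) : ℝ) ≤ 8 * X := by
    push_cast
    linarith
  have hN1pos : (1 : ℝ) ≤ ((2 * P * x : ℕ) : ℝ) := by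
    push_cast
    linarith
  have hlogN : Real.log ((2 * P * x : ℕ) : ℝ) ≤ 2 * L := by
    have h1 : ((2 * P * x : ℕ) : ℝ) ≤ X * X := by
      have h8 : (8 : ℝ) ≤ X := by linarith
      have h9 : 8 * (X : ℝ) ≤ X * X := mul_le_mul_of_nonneg_right h8 hXpos.le
      linarith
    have h2 := Real.log_le_log (by linarith) h1
    rw [Real.log_mul hXpos.ne' hXpos.ne', ← hLdef] at h2
    linarith
  have hlogN0 : 0 ≤ Real.log ((2 * P * x : ℕ) : ℝ) := Real.log_nonneg hN1pos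
  have hS' : S2 (gP (gc P0 J M x) P) (2 * P * x) ≤ 128 * X * L ^ 2 := by
    refine hS.trans ?_
    calc ((2 * P * x : ℕ) : ℝ) * (2 * Real.log ((2 * P * x : ℕ) : ℝ)) ^ 2
        ≤ (8 * X) * (2 * (2 * L)) ^ 2 := by
          apply mul_le_mul hN1 _ (by positivity) (by positivity)
          apply pow_le_pow_left₀ (by positivity)
          linarith
      _ = 128 * X * L ^ 2 := by ring
  have hfin := VarDA_fin A X L l P x h h' _ _ _ κ1 hXpos hLA hl1 hl2 hP4r hPx1 hPx2 hPh hh'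
    (Nat.cast_nonneg h') hI1 hI2 hS' hS0
  have hwx : 2 * X < P * x := by
    have : 2 * (X : ℝ) < P * x := by linarith
    exact_mod_cast this
  have hcongr : ∑ j ∈ Ioc X (2 * X), (Uw (gP (gl 1 P0 J) P) h j / h
        - Uw (gP (gl 1 P0 J) P) h' j / h') ^ 2 =
      ∑ j ∈ Ioc X (2 * X), (Uw (gP (gc P0 J M x) P) h j / h
        - Uw (gP (gc P0 J M x) P) h' j / h') ^ 2 := by
    apply Finset.sum_congr rfl
    intro j hj
    rw [VarDA_win P0 J P X x M h j hh2n hMn hwx hj, VarDA_win P0 J P X x M h' j hh'2n hMn hwx hj]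
  rw [hcongr, ← hLdef]
  exact hfou.trans hfin

end Pool.Agent.H76.MU

end

section

/-!
# MU ExL: the Liouville function in almost all short windows, small exceptional set

Adapt `VarL.lean` (helper36).  `L = log X`.  Given `A`: `b, κ` from `var_da (A + 6)`, `b := max b (A + 8)` (keep the hypothesis `L^b ≤ P0`), `P0 = ⌈L^b⌉₊` (`log P0 ≤ 2 b log L`),
`J` maximal with `(P0 2^J)^10 ≤ h` (exists as `h ≥ L^c`, `c = 10 b + 20`), so `log (P0 2^J) ≥ (log h)/10 - log 2 ≥ (log h)/20`, `J ≤ log h ≤ L`; `h' = ⌊X/L^κ⌋₊`.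
If `h ≥ h'`: `Uw lio h j = ∑_{n ≤ j-1} lio - ∑_{n ≤ j-h-1} lio` (`h ≤ X < j`), by `pn_l (κ + 2)` at `x = 2X` it is `≤ 4 X/L^{κ+2} ≤ 8 h/L^2` for large `X`: no exception (`1/L ≤ log L/log h`).
If `h < h'`: for `w = h, h'` write on the window `lio = e - ∑_{i<J} G_i`, `e n = lio n + ∑_{i<J} gP (gl 1 P0 J) (P0 2^i) n`, `|e n| ≤ er P0 J n` (`ram`; the windows do not contain `0`):
`Uw lio h j/h = Uw lio h' j/h' + Uw e h j/h - Uw e h' j/h' - ∑_{i<J} D_i(j)`, `D_i(j) = Uw G_i h j/h - Uw G_i h' j/h'`.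
`|Uw lio h' j/h'| ≤ 4 X/(L^{κ+2} h') ≤ 8/L^2` (`pn_l (κ+2)`).  `|Uw e w j|/w ≤ C0 log P0/log (P0 2^J) + s_w(j)/w` (`rg_int`; `Ico (j - w) j = Ico a (a + w)`), `s_w(j)` as in `SqW`.
Exceptions: `s_w(j) > w/L` for `w = h` or `h'`: at most `L^2 · 2X/P0 ≤ 2 X/L^{A+6}` each (`sq_win`, Chebyshev); `|∑_i D_i(j)| > 1/L`: at most `L^2 · J^2 X/L^{A+6} ≤ X/L^{A+2}` (`var_da`,
`(∑_{i<J} D_i)^2 ≤ J ∑ D_i^2`).  For all other `j`: `|Uw lio h j|/h ≤ 8/L^2 + 2 C0 · 2 b log L · 20/log h + 3/L ≤ (80 b C0 + 11) log L/log h` (`log h ≤ L`, `log L ≥ 1`).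
-/

set_option autoImplicit false

namespace Pool.Agent.H76.MU

open Finset MeasureTheory
open Pool.Agent.H91.PK (ee)
open Pool.Agent.H76.EHB
open Pool.Agent.H35.W

open Classical in
/-- the windows of `f` are small outside a small exceptional set -/
def ExB (f : ℕ → ℝ) : Prop := ∀ A : ℕ, ∃ C : ℝ, ∃ c x0 : ℕ, 0 < C ∧ ∀ X h : ℕ, x0 ≤ X →
  Real.log X ^ c ≤ h → h ≤ X →
    (((Ioc X (2 * X)).filter (fun j =>
      C * h * (Real.log (Real.log X) / Real.log h) < |Uw f h j|)).card : ℝ) ≤ X / Real.log X ^ A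

private theorem ExL_win (X w j : ℕ) (E : ℝ) (hp : ∀ y : ℕ, y ≤ 2 * X →
    |∑ n ∈ Icc 1 y, lio n| ≤ E) (hj : j ∈ Ioc X (2 * X)) (hw : w ≤ X) :
    |Uw lio w j| ≤ 2 * E := by
  rw [mem_Ioc] at hj
  unfold Uw
  have h1 := Finset.sum_Ico_consecutive lio (show 1 ≤ j - w by omega) (show j - w ≤ j by omega)
  have h2 := hp (j - 1) (by omega)
  have h3 := hp (j - w - 1) (by omega)
  have e2 : Icc 1 (j - 1) = Ico 1 j := by
    ext n
    simp only [mem_Icc, mem_Ico]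
    omega
  have e3 : Icc 1 (j - w - 1) = Ico 1 (j - w) := by
    ext n
    simp only [mem_Icc, mem_Ico]
    omega
  rw [e2] at h2
  rw [e3] at h3
  rw [abs_le] at h2 h3 ⊢
  constructor <;> linarith [h2.1, h2.2, h3.1, h3.2]

private theorem ExL_J (P0 h : ℕ) (hP : 1 ≤ P0) (h1 : P0 ^ 10 ≤ h) :
    ∃ J, (P0 * 2 ^ J) ^ 10 ≤ h ∧ h < (P0 * 2 ^ (J + 1)) ^ 10 := by
  have hex : ∃ m, h < (P0 * 2 ^ m) ^ 10 := by
    refine ⟨h, ?_⟩
    have h2 : h < 2 ^ h := Nat.lt_two_pow_self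
    have h3 : 2 ^ h ≤ P0 * 2 ^ h := Nat.le_mul_of_pos_left _ hP
    have h4 : P0 * 2 ^ h ≤ (P0 * 2 ^ h) ^ 10 := Nat.le_self_pow (by norm_num) _
    omega
  classical
  have hs := Nat.find_spec hex
  have h0 : Nat.find hex ≠ 0 := by
    intro h0
    rw [h0, pow_zero, mul_one] at hs
    omega
  obtain ⟨J, hJ⟩ := Nat.exists_eq_succ_of_ne_zero h0
  have hm := Nat.find_min hex (m := J) (by omega)
  rw [hJ] at hs
  exact ⟨J, by omega, hs⟩

private theorem ExL_e (P0 J w j : ℕ) (hw : w < j) :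
    |Uw (fun n => lio n + ∑ i ∈ range J, gP (gl 1 P0 J) (P0 * 2 ^ i) n) w j| ≤
      Uw (er P0 J) w j := by
  unfold Uw
  refine (Finset.abs_sum_le_sum_abs _ _).trans (Finset.sum_le_sum fun n hn => ?_)
  rw [mem_Ico] at hn
  exact ram P0 J n (by omega)

private theorem ExL_lin (P0 J w j : ℕ) : Uw lio w j =
    Uw (fun n => lio n + ∑ i ∈ range J, gP (gl 1 P0 J) (P0 * 2 ^ i) n) w j -
      ∑ i ∈ range J, Uw (gP (gl 1 P0 J) (P0 * 2 ^ i)) w j := by
  unfold Uw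
  rw [Finset.sum_comm, ← Finset.sum_sub_distrib]
  refine Finset.sum_congr rfl fun n _ => ?_
  ring

open Classical in
private theorem ExL_split (P J w j : ℕ) : Uw (er P J) w j =
    (((Ico (j - w) j).filter (fun n => Rk P J n)).card : ℝ) +
      (((Ico (j - w) j).filter (fun n => ∃ p, P < p ∧ p.Prime ∧ p ^ 2 ∣ n)).card : ℝ) := by
  unfold Uw er
  rw [Finset.sum_add_distrib, Finset.sum_boole, Finset.sum_boole]

open Classical in
private theorem ExL_cheb (f : ℕ → ℝ) (S : Finset ℕ) (δ V : ℝ) (hδ : 0 < δ)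
    (h : ∑ j ∈ S, (f j) ^ 2 ≤ V) :
    ((S.filter (fun j => δ < |f j|)).card : ℝ) ≤ V / δ ^ 2 := by
  rw [le_div_iff₀ (by positivity)]
  have h1 : ∑ _j ∈ S.filter (fun j => δ < |f j|), δ ^ 2 ≤
      ∑ j ∈ S.filter (fun j => δ < |f j|), (f j) ^ 2 := by
    refine Finset.sum_le_sum fun j hj => ?_
    rw [mem_filter] at hj
    rw [← sq_abs (f j)]
    exact pow_le_pow_left₀ hδ.le hj.2.le 2
  rw [Finset.sum_const, nsmul_eq_mul] at h1
  have h2 : ∑ j ∈ S.filter (fun j => δ < |f j|), (f j) ^ 2 ≤ ∑ j ∈ S, (f j) ^ 2 :=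
    Finset.sum_le_sum_of_subset_of_nonneg (Finset.filter_subset _ _)
      (fun j _ _ => sq_nonneg _)
  linarith

theorem ex_l (hVK : Pool.Agent.H80.LV.VK) (hV : VK1) : ExB lio := by
  classical
  intro A
  obtain ⟨b0, κ, xD, hD⟩ := var_da hVK hV (A + 6)
  obtain ⟨C0, hC0, hrg⟩ := rg_int
  obtain ⟨xP, hPn⟩ := pn_l (κ + 2)
  obtain ⟨x3, h3⟩ := log_ge 3
  obtain ⟨xk, hk⟩ := log_pow_le 1 2 one_pos two_pos κ
  set b : ℕ := max b0 (A + 8) with hb
  have hb0 : b0 ≤ b := le_max_left _ _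
  have hb2 : A + 8 ≤ b := le_max_right _ _
  refine ⟨80 * b * C0 + 11, 10 * b + 20,
    max (max xD xP) (max (max x3 xk) 1), by positivity, ?_⟩
  intro X h hX hh hhX
  have hXD : xD ≤ X := le_trans (le_trans (le_max_left _ _) (le_max_left _ _)) hX
  have hXP : xP ≤ X := le_trans (le_trans (le_max_right _ _) (le_max_left _ _)) hX
  have hX3 : x3 ≤ X := le_trans (le_trans (le_trans (le_max_left _ _) (le_max_left _ _))
    (le_max_right _ _)) hX
  have hXk : xk ≤ X := le_trans (le_trans (le_trans (le_max_right _ _) (le_max_left _ _))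
    (le_max_right _ _)) hX
  have hX1 : 1 ≤ X := le_trans (le_trans (le_max_right _ _) (le_max_right _ _)) hX
  have hXp : (0 : ℝ) < X := by exact_mod_cast hX1
  set L : ℝ := Real.log X with hL
  have hL3 : 3 ≤ L := h3 X hX3
  have hL0 : 0 < L := by linarith
  have hL1 : 1 ≤ L := by linarith
  have hkX : 2 * L ^ κ ≤ X := by
    have := hk X hXk
    rwa [Real.rpow_one] at this
  have hLk : 0 < L ^ κ := by positivity
  have hll : 1 ≤ Real.log L := by
    rw [Real.le_log_iff_exp_le hL0]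
    linarith [Real.exp_one_lt_d9]
  -- the size of `h`
  have hhp : (0 : ℝ) < h := lt_of_lt_of_le (by positivity) hh
  have hh1 : 1 ≤ h := by exact_mod_cast hhp
  have hlogh : 20 ≤ Real.log h := by
    have h1 : Real.log (L ^ (10 * b + 20)) ≤ Real.log h := Real.log_le_log (by positivity) hh
    rw [Real.log_pow] at h1
    have h2 : (20 : ℝ) ≤ ((10 * b + 20 : ℕ) : ℝ) := by
      exact_mod_cast (by omega : 20 ≤ 10 * b + 20)
    have h4 : (20 : ℝ) * 1 ≤ ((10 * b + 20 : ℕ) : ℝ) * Real.log L :=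
      mul_le_mul h2 hll (by norm_num) (by positivity)
    linarith
  have hloghL : Real.log h ≤ L := Real.log_le_log hhp (by exact_mod_cast hhX)
  set q : ℝ := Real.log L / Real.log h with hq
  have hq0 : 0 ≤ q := div_nonneg (by linarith) (by linarith)
  have hqL : 1 / L ≤ q := by
    rw [hq]
    exact div_le_div₀ (by linarith) hll (by linarith) hloghL
  have hqL2 : 1 / L ^ 2 ≤ q := by
    refine le_trans ?_ hqL
    refine one_div_le_one_div_of_le hL0 ?_
    calc L = L ^ 1 := (pow_one L).symm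
      _ ≤ L ^ 2 := pow_le_pow_right₀ hL1 (by norm_num)
  set h' : ℕ := ⌊(X : ℝ) / L ^ κ⌋₊ with hh'
  have hh'le : (h' : ℝ) ≤ X / L ^ κ := Nat.floor_le (by positivity)
  have hh'X : h' ≤ X := by
    have h1 : (X : ℝ) / L ^ κ ≤ X := div_le_self hXp.le (one_le_pow₀ hL1)
    exact_mod_cast hh'le.trans h1
  have hh'ge : X / (2 * L ^ κ) ≤ h' := by
    have h1 : (X : ℝ) / L ^ κ < h' + 1 := Nat.lt_floor_add_one _
    have h2 : 2 ≤ (X : ℝ) / L ^ κ := by rwa [le_div_iff₀ hLk]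
    have h4 : (X : ℝ) / (2 * L ^ κ) = (X / L ^ κ) / 2 := by
      field_simp
    rw [h4]
    linarith
  have hh'p : (0 : ℝ) < h' := lt_of_lt_of_le (by positivity) hh'ge
  -- the bound from the prime number theorem
  have hE1 : ∀ y : ℕ, y ≤ 2 * X → |∑ n ∈ Icc 1 y, lio n| ≤ 2 * X / L ^ (κ + 2) := by
    intro y hy
    refine (hPn (2 * X) (by omega) y hy).trans ?_
    push_cast
    refine div_le_div_of_nonneg_left (by positivity) (by positivity) ?_
    exact pow_le_pow_left₀ hL0.le (Real.log_le_log hXp (by linarith)) _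
  have hU : ∀ w j : ℕ, j ∈ Ioc X (2 * X) → w ≤ X → h' ≤ w → |Uw lio w j| ≤ 8 / L ^ 2 * w := by
    intro w j hj hw hw'
    refine (ExL_win X w j _ hE1 hj hw).trans ?_
    have h1 : X / (2 * L ^ κ) ≤ (w : ℝ) := hh'ge.trans (by exact_mod_cast hw')
    have h2 : 2 * (2 * (X : ℝ) / L ^ (κ + 2)) = 8 / L ^ 2 * (X / (2 * L ^ κ)) := by
      rw [pow_add]
      field_simp
      ring
    rw [h2]
    exact mul_le_mul_of_nonneg_left h1 (by positivity)
  rcases le_or_gt h' h with hc | hc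
  · -- long windows
    have h1 : (Ioc X (2 * X)).filter (fun j =>
        (80 * b * C0 + 11) * h * q < |Uw lio h j|) = ∅ := by
      rw [Finset.filter_eq_empty_iff]
      intro j hj
      rw [not_lt]
      refine (hU h j hj hhX hc).trans ?_
      have h2 : 8 / L ^ 2 = 8 * (1 / L ^ 2) := by ring
      rw [h2]
      have h4 : 8 * (1 / L ^ 2) ≤ (80 * b * C0 + 11) * q := by
        have h5 : 0 ≤ 80 * (b : ℝ) * C0 * q := by positivity
        linarith
      calc 8 * (1 / L ^ 2) * (h : ℝ) ≤ (80 * b * C0 + 11) * q * h :=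
            mul_le_mul_of_nonneg_right h4 hhp.le
        _ = (80 * b * C0 + 11) * h * q := by ring
    rw [h1, card_empty, Nat.cast_zero]
    positivity
  · -- short windows
    set P0 : ℕ := ⌈L ^ b⌉₊ with hP0
    have hLb : 1 ≤ L ^ b := one_le_pow₀ hL1
    have hP0ge : L ^ b ≤ P0 := Nat.le_ceil _
    have hP0lt : (P0 : ℝ) < L ^ b + 1 := Nat.ceil_lt_add_one (by positivity)
    have hL2b : (2 : ℝ) ≤ L ^ b := by
      calc (2 : ℝ) ≤ 3 ^ 1 := by norm_num
        _ ≤ L ^ 1 := pow_le_pow_left₀ (by norm_num) hL3 1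
        _ ≤ L ^ b := pow_le_pow_right₀ hL1 (by omega)
    have hP02 : 2 ≤ P0 := by exact_mod_cast hL2b.trans hP0ge
    have hP0p : (0 : ℝ) < P0 := by linarith
    have hP0b0 : L ^ b0 ≤ P0 := (pow_le_pow_right₀ hL1 hb0).trans hP0ge
    have hP0le : (P0 : ℝ) ≤ L ^ (2 * b) := by
      have : L ^ (2 * b) = L ^ b * L ^ b := by rw [← pow_add]; congr 1; ring
      rw [this]
      nlinarith
    have hlogP0 : Real.log P0 ≤ 2 * b * Real.log L := by
      have h1 := Real.log_le_log hP0p hP0le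
      rw [Real.log_pow] at h1
      push_cast at h1
      exact h1
    have hlogP00 : 0 ≤ Real.log P0 := Real.log_nonneg (by linarith)
    have hP10 : P0 ^ 10 ≤ h := by
      have h1 : ((P0 : ℝ)) ^ 10 ≤ L ^ (10 * b + 20) := by
        calc ((P0 : ℝ)) ^ 10 ≤ (2 * L ^ b) ^ 10 := pow_le_pow_left₀ hP0p.le (by linarith) 10
          _ = 2 ^ 10 * L ^ (10 * b) := by rw [mul_pow, ← pow_mul, mul_comm b 10]
          _ ≤ L ^ 20 * L ^ (10 * b) := by
              refine mul_le_mul_of_nonneg_right ?_ (by positivity)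
              calc (2 : ℝ) ^ 10 ≤ 3 ^ 20 := by norm_num
                _ ≤ L ^ 20 := pow_le_pow_left₀ (by norm_num) hL3 20
          _ = L ^ (10 * b + 20) := by rw [← pow_add, add_comm]
      exact_mod_cast h1.trans hh
    obtain ⟨J, hJ1, hJ2⟩ := ExL_J P0 h (by omega) hP10
    have hPJpos : 0 < P0 * 2 ^ J := by positivity
    have hlogPJ : Real.log h / 20 ≤ Real.log ((P0 * 2 ^ J : ℕ) : ℝ) := by
      have h1 : (h : ℝ) ≤ (((P0 * 2 ^ J : ℕ) : ℝ) * 2) ^ 10 := by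
        have h2 : (h : ℝ) ≤ (((P0 * 2 ^ (J + 1)) ^ 10 : ℕ) : ℝ) := by exact_mod_cast hJ2.le
        refine h2.trans (le_of_eq ?_)
        push_cast
        ring
      have h2 := Real.log_le_log hhp h1
      have hne : (((P0 * 2 ^ J : ℕ) : ℝ)) ≠ 0 := by exact_mod_cast hPJpos.ne'
      rw [Real.log_pow, Real.log_mul hne two_ne_zero] at h2
      push_cast at h2 ⊢
      have h4 := Real.log_two_lt_d9
      linarith
    have hlogPJ0 : 0 < Real.log ((P0 * 2 ^ J : ℕ) : ℝ) := by linarith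
    have hJL : (J : ℝ) ≤ L := by
      have h1 : ((2 : ℝ) ^ J) ^ 10 ≤ h := by
        have h2 : (2 ^ J) ^ 10 ≤ h := by
          refine le_trans (Nat.pow_le_pow_left ?_ 10) hJ1
          exact Nat.le_mul_of_pos_left _ (by omega)
        exact_mod_cast h2
      have h2 := Real.log_le_log (by positivity) h1
      rw [Real.log_pow, Real.log_pow] at h2
      have h4 := Real.log_two_gt_d9
      have h5 : (0 : ℝ) ≤ J := Nat.cast_nonneg J
      push_cast at h2
      have h6 : (J : ℝ) ≤ 10 * (J * Real.log 2) := by nlinarith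
      linarith
    have hquot : Real.log P0 / Real.log ((P0 * 2 ^ J : ℕ) : ℝ) ≤ 40 * b * q := by
      have h2 : 0 < Real.log h / 20 := by linarith
      calc Real.log P0 / Real.log ((P0 * 2 ^ J : ℕ) : ℝ) ≤
            (2 * b * Real.log L) / (Real.log h / 20) :=
            div_le_div₀ (by positivity) hlogP0 h2 hlogPJ
        _ = 40 * b * q := by
            rw [hq]
            field_simp
            ring
    -- the rough numbers
    have hRw : ∀ w j : ℕ, j ∈ Ioc X (2 * X) → h ≤ w → w ≤ X → (0 : ℝ) < w →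
        (((Ico (j - w) j).filter (fun n => Rk P0 J n)).card : ℝ) / w ≤ C0 * (40 * b * q) := by
      intro w j hj hw hwX hw0
      rw [mem_Ioc] at hj
      have h1 := hrg P0 J (j - w) w hP02 (le_trans (Nat.pow_le_pow_right hPJpos (by norm_num))
        (hJ1.trans hw))
      have h2 : j - w + w = j := by omega
      rw [h2] at h1
      rw [div_le_iff₀ hw0]
      refine h1.trans ?_
      calc C0 * w * Real.log P0 / Real.log ((P0 * 2 ^ J : ℕ) : ℝ)
          = C0 * w * (Real.log P0 / Real.log ((P0 * 2 ^ J : ℕ) : ℝ)) := by rw [mul_div_assoc]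
        _ ≤ C0 * w * (40 * b * q) := mul_le_mul_of_nonneg_left hquot (by positivity)
        _ = _ := by ring
    -- the multiples of squares
    set sw : ℕ → ℕ → ℝ := fun w j =>
      (((Ico (j - w) j).filter (fun n => ∃ p, P0 < p ∧ p.Prime ∧ p ^ 2 ∣ n)).card : ℝ) with hsw
    have hS : ∀ w : ℕ, w ≤ X → (0 : ℝ) < w →
        (((Ioc X (2 * X)).filter (fun j => w / L < |sw w j|)).card : ℝ) ≤ 2 * X / L ^ (A + 6) := by
      intro w hwX hw0
      have h1 := ExL_cheb (sw w) (Ioc X (2 * X)) (w / L) _ (by positivity)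
        (sq_win P0 w X (by omega) hwX)
      refine h1.trans ?_
      have h2 : 2 * (X : ℝ) * (w : ℝ) ^ 2 / P0 / (w / L) ^ 2 = 2 * X * L ^ 2 / P0 := by
        field_simp
      rw [h2, div_le_div_iff₀ hP0p (by positivity)]
      have h4 : L ^ 2 * L ^ (A + 6) ≤ P0 := by
        rw [← pow_add]
        exact (pow_le_pow_right₀ hL1 (by omega)).trans hP0ge
      calc 2 * (X : ℝ) * L ^ 2 * L ^ (A + 6) = 2 * X * (L ^ 2 * L ^ (A + 6)) := by ring
        _ ≤ 2 * (X : ℝ) * (P0 : ℝ) := mul_le_mul_of_nonneg_left h4 (by positivity)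
    -- the differences
    set D : ℕ → ℕ → ℝ := fun i j => Uw (gP (gl 1 P0 J) (P0 * 2 ^ i)) h j / h
        - Uw (gP (gl 1 P0 J) (P0 * 2 ^ i)) h' j / h' with hDdef
    have hDs : ∑ j ∈ Ioc X (2 * X), (∑ i ∈ range J, D i j) ^ 2 ≤ X / L ^ (A + 4) := by
      have h1 : ∀ j ∈ Ioc X (2 * X), (∑ i ∈ range J, D i j) ^ 2 ≤
          J * ∑ i ∈ range J, (D i j) ^ 2 := by
        intro j _
        have := sq_sum_le_card_mul_sum_sq (s := range J) (f := fun i => D i j)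
        rwa [card_range] at this
      refine (Finset.sum_le_sum h1).trans ?_
      rw [← Finset.mul_sum, Finset.sum_comm]
      have h2 : ∑ i ∈ range J, ∑ j ∈ Ioc X (2 * X), (D i j) ^ 2 ≤
          ∑ _i ∈ range J, (X : ℝ) / L ^ (A + 6) := by
        refine Finset.sum_le_sum fun i hi => ?_
        rw [mem_range] at hi
        exact hD X hXD P0 J i h h' hP0b0 hi hJ1 hc.le hh'le
      rw [Finset.sum_const, nsmul_eq_mul, card_range] at h2
      have h4 : (0 : ℝ) ≤ J := Nat.cast_nonneg J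
      calc (J : ℝ) * ∑ i ∈ range J, ∑ j ∈ Ioc X (2 * X), (D i j) ^ 2
          ≤ J * (J * (X / L ^ (A + 6))) := mul_le_mul_of_nonneg_left h2 h4
        _ = (J * J) * (X / L ^ (A + 6)) := by ring
        _ ≤ (L * L) * (X / L ^ (A + 6)) :=
            mul_le_mul_of_nonneg_right (mul_le_mul hJL hJL h4 hL0.le) (by positivity)
        _ = X / L ^ (A + 4) := by
            have e : L ^ (A + 6) = L ^ (A + 4) * (L * L) := by ring
            rw [e]
            field_simp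
    have hDc : (((Ioc X (2 * X)).filter (fun j => 1 / L < |∑ i ∈ range J, D i j|)).card : ℝ) ≤
        X / L ^ (A + 2) := by
      have h1 := ExL_cheb (fun j => ∑ i ∈ range J, D i j) (Ioc X (2 * X)) (1 / L) _
        (by positivity) hDs
      refine h1.trans (le_of_eq ?_)
      have e : L ^ (A + 4) = L ^ (A + 2) * L ^ 2 := by ring
      rw [e]
      field_simp
    -- the pointwise inequality
    have hpt : ∀ j ∈ Ioc X (2 * X), ¬ (h / L < |sw h j|) → ¬ (h' / L < |sw h' j|) →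
        ¬ (1 / L < |∑ i ∈ range J, D i j|) →
          |Uw lio h j| ≤ (80 * b * C0 + 11) * h * q := by
      intro j hj n1 n2 n3
      rw [not_lt] at n1 n2 n3
      have hj' := hj
      rw [mem_Ioc] at hj'
      set e : ℕ → ℝ := fun n => lio n + ∑ i ∈ range J, gP (gl 1 P0 J) (P0 * 2 ^ i) n with he
      have e1 := ExL_lin P0 J h j
      have e2 := ExL_lin P0 J h' j
      have e3 : Uw lio h j / h = Uw lio h' j / h' + Uw e h j / h - Uw e h' j / h' -
          ∑ i ∈ range J, D i j := by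
        rw [e1, e2, hDdef]
        simp only [Finset.sum_sub_distrib, ← Finset.sum_div]
        ring
      have f1 : |Uw lio h' j / h'| ≤ 8 * (1 / L ^ 2) := by
        have h1 := hU h' j hj hh'X le_rfl
        rw [abs_div, abs_of_pos hh'p, div_le_iff₀ hh'p]
        refine h1.trans (le_of_eq ?_)
        ring
      have f2 : ∀ w : ℕ, h ≤ w → w ≤ X → (0 : ℝ) < w → |sw w j| ≤ w / L →
          |Uw e w j / w| ≤ C0 * (40 * b * q) + 1 / L := by
        intro w hw hwX hw0 hs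
        rw [abs_div, abs_of_pos hw0]
        have g1 := ExL_e P0 J w j (by omega)
        rw [ExL_split] at g1
        have g2 := hRw w j hj hw hwX hw0
        have g3 : sw w j / w ≤ 1 / L := by
          rw [div_le_iff₀ hw0]
          refine (le_abs_self _).trans (hs.trans (le_of_eq ?_))
          ring
        have g4 := div_le_div_of_nonneg_right g1 hw0.le
        rw [add_div] at g4
        exact g4.trans (add_le_add g2 g3)
      have f4 := f2 h le_rfl hhX hhp n1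
      have f5 := f2 h' hc.le hh'X hh'p n2
      have f6 : |Uw lio h j / h| ≤ (80 * b * C0 + 11) * q := by
        rw [e3]
        have k1 := abs_sub (Uw lio h' j / h' + Uw e h j / h - Uw e h' j / h')
          (∑ i ∈ range J, D i j)
        have k2 := abs_sub (Uw lio h' j / h' + Uw e h j / h) (Uw e h' j / h')
        have k3 := abs_add_le (Uw lio h' j / h') (Uw e h j / h)
        linarith
      rw [abs_div, abs_of_pos hhp, div_le_iff₀ hhp] at f6
      refine f6.trans (le_of_eq ?_)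
      ring
    -- the count
    have hsub : (Ioc X (2 * X)).filter (fun j => (80 * b * C0 + 11) * h * q < |Uw lio h j|) ⊆
        ((Ioc X (2 * X)).filter (fun j => h / L < |sw h j|) ∪
          (Ioc X (2 * X)).filter (fun j => h' / L < |sw h' j|)) ∪
          (Ioc X (2 * X)).filter (fun j => 1 / L < |∑ i ∈ range J, D i j|) := by
      intro j hj
      rw [mem_filter] at hj
      rw [mem_union, mem_union, mem_filter, mem_filter, mem_filter]
      by_contra hcon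
      rw [not_or, not_or] at hcon
      obtain ⟨⟨c1, c2⟩, c3⟩ := hcon
      have := hpt j hj.1 (fun h => c1 ⟨hj.1, h⟩) (fun h => c2 ⟨hj.1, h⟩) (fun h => c3 ⟨hj.1, h⟩)
      exact absurd hj.2 (not_lt.2 this)
    have hc1 := Finset.card_le_card hsub
    have hc2 := Finset.card_union_le ((Ioc X (2 * X)).filter (fun j => h / L < |sw h j|) ∪
          (Ioc X (2 * X)).filter (fun j => h' / L < |sw h' j|))
          ((Ioc X (2 * X)).filter (fun j => 1 / L < |∑ i ∈ range J, D i j|))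
    have hc3 := Finset.card_union_le ((Ioc X (2 * X)).filter (fun j => h / L < |sw h j|))
          ((Ioc X (2 * X)).filter (fun j => h' / L < |sw h' j|))
    have hc4 : (((Ioc X (2 * X)).filter (fun j =>
        (80 * b * C0 + 11) * h * q < |Uw lio h j|)).card : ℝ) ≤
        ((Ioc X (2 * X)).filter (fun j => h / L < |sw h j|)).card +
        ((Ioc X (2 * X)).filter (fun j => h' / L < |sw h' j|)).card +
        ((Ioc X (2 * X)).filter (fun j => 1 / L < |∑ i ∈ range J, D i j|)).card := by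
      exact_mod_cast (by omega : ((Ioc X (2 * X)).filter (fun j =>
        (80 * b * C0 + 11) * h * q < |Uw lio h j|)).card ≤
        ((Ioc X (2 * X)).filter (fun j => h / L < |sw h j|)).card +
        ((Ioc X (2 * X)).filter (fun j => h' / L < |sw h' j|)).card +
        ((Ioc X (2 * X)).filter (fun j => 1 / L < |∑ i ∈ range J, D i j|)).card)
    refine hc4.trans ?_
    have g1 := hS h hhX hhp
    have g2 := hS h' hh'X hh'p
    have g3 : 4 * (X : ℝ) / L ^ (A + 6) + X / L ^ (A + 2) ≤ X / L ^ A := by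
      have e1 : 4 * (X : ℝ) / L ^ (A + 6) = (X / L ^ A) * (4 / L ^ 6) := by
        rw [pow_add]
        field_simp
      have e2 : (X : ℝ) / L ^ (A + 2) = (X / L ^ A) * (1 / L ^ 2) := by
        rw [pow_add]
        field_simp
      have h6 : (3 : ℝ) ^ 6 ≤ L ^ 6 := pow_le_pow_left₀ (by norm_num) hL3 6
      have h7 : (3 : ℝ) ^ 2 ≤ L ^ 2 := pow_le_pow_left₀ (by norm_num) hL3 2
      have h8 : 4 / L ^ 6 ≤ 4 / 3 ^ 6 := div_le_div_of_nonneg_left (by norm_num) (by norm_num) h6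
      have h9 : 1 / L ^ 2 ≤ 1 / 3 ^ 2 := div_le_div_of_nonneg_left (by norm_num) (by norm_num) h7
      rw [e1, e2, ← mul_add]
      refine mul_le_of_le_one_right (by positivity) ?_
      norm_num at h8 h9 ⊢
      linarith
    have g4 : 2 * (X : ℝ) / L ^ (A + 6) + 2 * X / L ^ (A + 6) = 4 * X / L ^ (A + 6) := by ring
    linarith

end Pool.Agent.H76.MU

end
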